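import Mathlib

/-!
# Project BI (MP_8e98f2_gt): collected modules, part 01

The contents of the modules
* Helper34.BI.Null
* Helper34.BI.Sard
* Helper34.BI.Generic
* Helper34.BI.Arcs
* Helper34.BI.Loc

in one file, so that the whole proof builds in a short time.
-/


/-! ## Helper34.BI.Null -/

section

/-!
# Null sets of parameters

Images of smooth maps from lower dimensional spaces are null sets; sets of parameters of linear
equations.
-/

set_option autoImplicit false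

open MeasureTheory Module Set

namespace Pool.Agent.Helper34.BI

section null
variable {X P : Type*} [NormedAddCommGroup X] [NormedSpace ℝ X] [FiniteDimensional ℝ X]
  [NormedAddCommGroup P] [NormedSpace ℝ P] [FiniteDimensional ℝ P] [MeasurableSpace P]
  [BorelSpace P] (μ : Measure P) [μ.IsAddHaarMeasure]

omit [MeasurableSpace P] [BorelSpace P] in
/-- a linear embedding into a space of larger dimension, with a left inverse -/
theorem exists_embedding (h : finrank ℝ X < finrank ℝ P) :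
    ∃ (i : X →L[ℝ] P) (π : P →L[ℝ] X), (∀ x, π (i x) = x) ∧
      (LinearMap.range (i : X →ₗ[ℝ] P)) ≠ ⊤ := by
  classical
  let bX := finBasis ℝ X
  let bP := finBasis ℝ P
  let i₀ : X →ₗ[ℝ] P := bX.constr ℝ (fun j => bP (Fin.castLE h.le j))
  have hinj : Function.Injective i₀ := by
    rw [← LinearMap.ker_eq_bot]
    have hli : LinearIndependent ℝ (fun j => bP (Fin.castLE h.le j)) :=
      bP.linearIndependent.comp _ (Fin.castLE_injective h.le)
    rw [LinearMap.ker_eq_bot']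
    intro x hx
    have h1 : i₀ x = ∑ j, bX.repr x j • bP (Fin.castLE h.le j) := by
      simp [i₀, Basis.constr_apply_fintype]
    rw [h1] at hx
    have h2 := Fintype.linearIndependent_iff.1 hli _ hx
    have h3 : bX.repr x = 0 := by
      ext j
      simpa using h2 j
    simpa using h3
  obtain ⟨π₀, hπ⟩ := LinearMap.exists_leftInverse_of_injective i₀ (LinearMap.ker_eq_bot.2 hinj)
  refine ⟨LinearMap.toContinuousLinearMap i₀, LinearMap.toContinuousLinearMap π₀, ?_, ?_⟩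
  · intro x
    exact LinearMap.congr_fun hπ x
  · intro htop
    have h1 : finrank ℝ (LinearMap.range i₀) ≤ finrank ℝ X := LinearMap.finrank_range_le i₀
    have h2 : LinearMap.range i₀ = ⊤ := by
      simpa using htop
    rw [h2, finrank_top] at h1
    omega

/-- The image of a set under a differentiable map from a space of smaller dimension is a null
set. -/
theorem null_image (h : finrank ℝ X < finrank ℝ P) {f : X → P} {s : Set X}
    (hf : DifferentiableOn ℝ f s) : μ (f '' s) = 0 := by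
  obtain ⟨i, π, hπi, hr⟩ := exists_embedding (X := X) (P := P) h
  have h1 : μ (i '' s) = 0 := by
    have h2 : i '' s ⊆ (LinearMap.range (i : X →ₗ[ℝ] P) : Set P) := by
      rintro _ ⟨x, -, rfl⟩
      exact ⟨x, rfl⟩
    exact measure_mono_null h2 (Measure.addHaar_submodule μ _ hr)
  have h3 : DifferentiableOn ℝ (f ∘ π) (i '' s) := by
    refine hf.comp π.differentiable.differentiableOn ?_
    rintro _ ⟨x, hx, rfl⟩
    rw [hπi]
    exact hx
  have h4 : f '' s = (f ∘ π) '' (i '' s) := by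
    rw [image_image]
    refine image_congr ?_
    intro x _
    simp [hπi]
  rw [h4]
  exact addHaar_image_eq_zero_of_differentiableOn_of_addHaar_eq_zero μ h3 h1

end null

section lin
variable {X E : Type*} [NormedAddCommGroup X] [NormedSpace ℝ X] [FiniteDimensional ℝ X]
  [NormedAddCommGroup E] [NormedSpace ℝ E] [FiniteDimensional ℝ E] [MeasurableSpace E]
  [BorelSpace E] (μ : Measure (E × E)) [μ.IsAddHaarMeasure]

/-- The pairs `(v, w)` satisfying one of the linear equations `a x • v + b x • w = c x`, where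
`x` runs over a set of dimension smaller than the dimension of `E`, form a null set. -/
theorem null_linear (h : finrank ℝ X < finrank ℝ E) {a b : X → ℝ} {c : X → E} {s : Set X}
    (ha : DifferentiableOn ℝ a s) (hb : DifferentiableOn ℝ b s) (hc : DifferentiableOn ℝ c s)
    (hab : ∀ x ∈ s, a x ≠ 0 ∨ b x ≠ 0) :
    μ {p : E × E | ∃ x ∈ s, a x • p.1 + b x • p.2 = c x} = 0 := by
  have hdim : finrank ℝ (X × E) < finrank ℝ (E × E) := by
    rw [finrank_prod, finrank_prod]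
    omega
  -- first case
  let s₁ : Set (X × E) := {q | q.1 ∈ s ∧ a q.1 ≠ 0}
  let f₁ : X × E → E × E := fun q => ((a q.1)⁻¹ • (c q.1 - b q.1 • q.2), q.2)
  have hm₁ : MapsTo (Prod.fst : X × E → X) s₁ s := fun q hq => hq.1
  have ha₁ : DifferentiableOn ℝ (fun q : X × E => a q.1) s₁ :=
    ha.comp differentiable_fst.differentiableOn hm₁
  have hb₁ : DifferentiableOn ℝ (fun q : X × E => b q.1) s₁ :=
    hb.comp differentiable_fst.differentiableOn hm₁
  have hc₁ : DifferentiableOn ℝ (fun q : X × E => c q.1) s₁ :=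
    hc.comp differentiable_fst.differentiableOn hm₁
  have h₁ : DifferentiableOn ℝ f₁ s₁ := by
    refine DifferentiableOn.prodMk ?_ differentiable_snd.differentiableOn
    exact (ha₁.inv (fun q hq => hq.2)).smul
      (hc₁.sub (hb₁.smul differentiable_snd.differentiableOn))
  -- second case
  let s₂ : Set (X × E) := {q | q.1 ∈ s ∧ b q.1 ≠ 0}
  let f₂ : X × E → E × E := fun q => (q.2, (b q.1)⁻¹ • (c q.1 - a q.1 • q.2))
  have hm₂ : MapsTo (Prod.fst : X × E → X) s₂ s := fun q hq => hq.1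
  have ha₂ : DifferentiableOn ℝ (fun q : X × E => a q.1) s₂ :=
    ha.comp differentiable_fst.differentiableOn hm₂
  have hb₂ : DifferentiableOn ℝ (fun q : X × E => b q.1) s₂ :=
    hb.comp differentiable_fst.differentiableOn hm₂
  have hc₂ : DifferentiableOn ℝ (fun q : X × E => c q.1) s₂ :=
    hc.comp differentiable_fst.differentiableOn hm₂
  have h₂ : DifferentiableOn ℝ f₂ s₂ := by
    refine DifferentiableOn.prodMk differentiable_snd.differentiableOn ?_
    exact (hb₂.inv (fun q hq => hq.2)).smul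
      (hc₂.sub (ha₂.smul differentiable_snd.differentiableOn))
  refine measure_mono_null ?_ (measure_union_null (null_image μ hdim h₁) (null_image μ hdim h₂))
  rintro ⟨v, w⟩ ⟨x, hx, hxe⟩
  simp only at hxe
  rcases hab x hx with hax | hbx
  · left
    refine ⟨(x, w), ⟨hx, hax⟩, ?_⟩
    simp only [f₁, Prod.mk.injEq, and_true]
    rw [← hxe, add_sub_cancel_right, smul_smul, inv_mul_cancel₀ hax, one_smul]
  · right
    refine ⟨(x, v), ⟨hx, hbx⟩, ?_⟩
    simp only [f₂, Prod.mk.injEq, true_and]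
    rw [← hxe, add_sub_cancel_left, smul_smul, inv_mul_cancel₀ hbx, one_smul]

end lin

end Pool.Agent.Helper34.BI


end

/-! ## Helper34.BI.Sard -/

section

/-!
# Transversality of one-parameter families of arcs to surfaces
-/

set_option autoImplicit false

open MeasureTheory Module Set

namespace Pool.Agent.Helper34.BI

section sard
variable {Z Y E : Type*} [NormedAddCommGroup Z] [NormedSpace ℝ Z] [FiniteDimensional ℝ Z]
  [NormedAddCommGroup Y] [NormedSpace ℝ Y] [FiniteDimensional ℝ Y]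
  [NormedAddCommGroup E] [NormedSpace ℝ E] [FiniteDimensional ℝ E] [MeasurableSpace E]
  [BorelSpace E] (μ : Measure (E × E)) [μ.IsAddHaarMeasure]

/-- Parametric transversality for a family depending linearly on a pair of vectors: for `(v, w)`
outside a null set, the map `(z, y) ↦ h z + a z • v + b z • w - f y` has injective derivative at
all its zeros with `z` in `s`, `y` in `t` and `a z ≠ 0`. -/
theorem null_sard (h : finrank ℝ Z + finrank ℝ Y = finrank ℝ E) {a b : Z → ℝ} {c : Z → E}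
    {f : Y → E} {s : Set Z} {t : Set Y}
    (hs : IsOpen s) (ht : IsOpen t)
    (ha : DifferentiableOn ℝ a s) (hb : DifferentiableOn ℝ b s) (hc : DifferentiableOn ℝ c s)
    (hf : DifferentiableOn ℝ f t) (ha0 : ∀ z ∈ s, a z ≠ 0) :
    μ {p : E × E | ∃ z ∈ s, ∃ y ∈ t, c z + a z • p.1 + b z • p.2 = f y ∧
      ∃ (ζ : Z) (η : Y), (ζ, η) ≠ 0 ∧
        fderiv ℝ (fun z => c z + a z • p.1 + b z • p.2) z ζ = fderiv ℝ f y η} = 0 := by
  have hfr : finrank ℝ (Z × Y) = finrank ℝ E := by rw [finrank_prod, h]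
  let L : E ≃L[ℝ] Z × Y := ContinuousLinearEquiv.ofFinrankEq hfr.symm
  -- the parametrization of the solutions
  let F : (Z × Y) × E → E × E := fun q =>
    ((a q.1.1)⁻¹ • (f q.1.2 - c q.1.1 - b q.1.1 • q.2), q.2)
  let S : Set ((Z × Y) × E) := {q | q.1.1 ∈ s ∧ q.1.2 ∈ t}
  have hS : IsOpen S := by
    refine IsOpen.inter ?_ ?_
    · exact hs.preimage (continuous_fst.comp continuous_fst)
    · exact ht.preimage (continuous_snd.comp continuous_fst)
  have hFd : DifferentiableOn ℝ F S := by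
    have m1 : MapsTo (fun q : (Z × Y) × E => q.1.1) S s := fun q hq => hq.1
    have m2 : MapsTo (fun q : (Z × Y) × E => q.1.2) S t := fun q hq => hq.2
    have d1 : DifferentiableOn ℝ (fun q : (Z × Y) × E => q.1.1) S :=
      (differentiable_fst.comp differentiable_fst).differentiableOn
    have d2 : DifferentiableOn ℝ (fun q : (Z × Y) × E => q.1.2) S :=
      (differentiable_snd.comp differentiable_fst).differentiableOn
    have d3 : DifferentiableOn ℝ (fun q : (Z × Y) × E => q.2) S :=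
      differentiable_snd.differentiableOn
    refine DifferentiableOn.prodMk ?_ d3
    exact ((ha.comp d1 m1).inv (fun q hq => ha0 _ hq.1)).smul
      (((hf.comp d2 m2).sub (hc.comp d1 m1)).sub ((hb.comp d1 m1).smul d3))
  -- the critical set
  let C : Set ((Z × Y) × E) := {q | q ∈ S ∧ ∃ x : (Z × Y) × E, x ≠ 0 ∧ fderiv ℝ F q x = 0}
  let M : (E × E) ≃L[ℝ] ((Z × Y) × E) := L.prodCongr (ContinuousLinearEquiv.refl ℝ E)
  have hnull : μ ((F ∘ M) '' (M ⁻¹' C)) = 0 := by
    refine addHaar_image_eq_zero_of_det_fderivWithin_eq_zero μ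
      (f' := fun q => (fderiv ℝ F (M q)).comp (M : (E × E) →L[ℝ] ((Z × Y) × E))) ?_ ?_
    · intro q hq
      have h1 : HasFDerivAt F (fderiv ℝ F (M q)) (M q) :=
        ((hFd _ hq.1).differentiableAt (hS.mem_nhds hq.1)).hasFDerivAt
      exact (h1.comp q M.hasFDerivAt).hasFDerivWithinAt
    · rintro q ⟨-, x, hx, hx0⟩
      have h2 : ((fderiv ℝ F (M q)).comp (M : (E × E) →L[ℝ] ((Z × Y) × E))) (M.symm x) = 0 := by
        simpa using hx0
      have h3 : M.symm x ≠ 0 := by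
        intro h0
        apply hx
        have := congrArg M h0
        simpa using this
      by_contra hdet
      apply h3
      have h4 := (LinearMap.equivOfDetNeZero
        (((fderiv ℝ F (M q)).comp (M : (E × E) →L[ℝ] ((Z × Y) × E))) : (E × E) →ₗ[ℝ] (E × E)) hdet)
      have h5 : LinearMap.ker
          (((fderiv ℝ F (M q)).comp (M : (E × E) →L[ℝ] ((Z × Y) × E))) : (E × E) →ₗ[ℝ] (E × E)) = ⊥ :=
        (LinearMap.isUnit_iff_ker_eq_bot _).1
          ((LinearMap.isUnit_iff_isUnit_det _).2 (isUnit_iff_ne_zero.2 hdet))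
      exact (LinearMap.ker_eq_bot'.1 h5) _ h2
  refine measure_mono_null ?_ hnull
  rintro ⟨v, w⟩ ⟨z, hz, y, hy, heq, ζ, η, hne, hder⟩
  simp only at heq hder
  have hqS : ((z, y), w) ∈ S := ⟨hz, hy⟩
  have haz := ha0 z hz
  have hFq : F ((z, y), w) = (v, w) := by
    simp only [F, Prod.mk.injEq, and_true]
    rw [← heq]
    have : c z + a z • v + b z • w - c z - b z • w = a z • v := by abel
    rw [this, smul_smul, inv_mul_cancel₀ haz, one_smul]
  have hF1 : HasFDerivAt F (fderiv ℝ F ((z, y), w)) ((z, y), w) :=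
    ((hFd _ hqS).differentiableAt (hS.mem_nhds hqS)).hasFDerivAt
  -- the derivative kills the vector `((ζ, η), 0)`
  have key : fderiv ℝ F ((z, y), w) ((ζ, η), 0) = 0 := by
    -- first component
    have hA : HasFDerivAt a (fderiv ℝ a z) z := ((ha z hz).differentiableAt (hs.mem_nhds hz)).hasFDerivAt
    have hB : HasFDerivAt b (fderiv ℝ b z) z := ((hb z hz).differentiableAt (hs.mem_nhds hz)).hasFDerivAt
    have hC : HasFDerivAt c (fderiv ℝ c z) z := ((hc z hz).differentiableAt (hs.mem_nhds hz)).hasFDerivAt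
    have hFy : HasFDerivAt f (fderiv ℝ f y) y := ((hf y hy).differentiableAt (ht.mem_nhds hy)).hasFDerivAt
    -- the one-variable restriction
    have line : HasDerivAt (fun r : ℝ => F ((z + r • ζ, y + r • η), w))
        (fderiv ℝ F ((z, y), w) ((ζ, η), 0)) 0 := by
      have e1 : HasDerivAt (fun r : ℝ => (((z + r • ζ, y + r • η), w) : (Z × Y) × E))
          ((ζ, η), 0) 0 := by
        have e2 : HasDerivAt (fun r : ℝ => z + r • ζ) ζ 0 := by
          simpa using ((hasDerivAt_id (0 : ℝ)).smul_const ζ).const_add z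
        have e3 : HasDerivAt (fun r : ℝ => y + r • η) η 0 := by
          simpa using ((hasDerivAt_id (0 : ℝ)).smul_const η).const_add y
        exact (e2.prodMk e3).prodMk (hasDerivAt_const 0 w)
      have e4 : ((fun r : ℝ => (((z + r • ζ, y + r • η), w) : (Z × Y) × E)) 0) = ((z, y), w) := by
        simp
      exact HasFDerivAt.comp_hasDerivAt_of_eq (0 : ℝ) hF1 e1 e4.symm
    have lz : HasDerivAt (fun r : ℝ => z + r • ζ) ζ 0 := by
      simpa using ((hasDerivAt_id (0 : ℝ)).smul_const ζ).const_add z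
    have ly : HasDerivAt (fun r : ℝ => y + r • η) η 0 := by
      simpa using ((hasDerivAt_id (0 : ℝ)).smul_const η).const_add y
    have z0 : (fun r : ℝ => z + r • ζ) 0 = z := by simp
    have y0 : (fun r : ℝ => y + r • η) 0 = y := by simp
    have A0 : HasDerivAt (fun r : ℝ => a (z + r • ζ)) (fderiv ℝ a z ζ) 0 :=
      HasFDerivAt.comp_hasDerivAt_of_eq (0 : ℝ) hA lz z0.symm
    have B0 : HasDerivAt (fun r : ℝ => b (z + r • ζ)) (fderiv ℝ b z ζ) 0 :=
      HasFDerivAt.comp_hasDerivAt_of_eq (0 : ℝ) hB lz z0.symm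
    have C0 : HasDerivAt (fun r : ℝ => c (z + r • ζ)) (fderiv ℝ c z ζ) 0 :=
      HasFDerivAt.comp_hasDerivAt_of_eq (0 : ℝ) hC lz z0.symm
    have F0 : HasDerivAt (fun r : ℝ => f (y + r • η)) (fderiv ℝ f y η) 0 :=
      HasFDerivAt.comp_hasDerivAt_of_eq (0 : ℝ) hFy ly y0.symm
    -- derivative of the numerator
    have hder' : fderiv ℝ c z ζ + fderiv ℝ a z ζ • v + fderiv ℝ b z ζ • w = fderiv ℝ f y η := by
      have e : HasFDerivAt (fun z => c z + a z • v + b z • w)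
          (fderiv ℝ c z + (fderiv ℝ a z).smulRight v + (fderiv ℝ b z).smulRight w) z :=
        (hC.add (hA.smul_const v)).add (hB.smul_const w)
      rw [e.fderiv] at hder
      simpa using hder
    have N0 : HasDerivAt (fun r : ℝ => f (y + r • η) - c (z + r • ζ) - b (z + r • ζ) • w)
        (fderiv ℝ a z ζ • v) 0 := by
      refine ((F0.fun_sub C0).fun_sub (B0.smul_const w)).congr_deriv ?_
      rw [← hder']
      abel
    have I0 : HasDerivAt (fun r : ℝ => (a (z + r • ζ))⁻¹) (-(fderiv ℝ a z ζ) / (a z) ^ 2) 0 := by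
      have e := A0.inv (by simpa using haz)
      refine HasDerivAt.congr_deriv (f := fun r : ℝ => (a (z + r • ζ))⁻¹) e ?_
      simp
    have G0 := I0.smul N0
    have line1 : HasDerivAt (fun r : ℝ => (F ((z + r • ζ, y + r • η), w)).1) 0 0 := by
      have e : (fun r : ℝ => (F ((z + r • ζ, y + r • η), w)).1) =
          ((fun r : ℝ => (a (z + r • ζ))⁻¹) • fun r : ℝ => f (y + r • η) - c (z + r • ζ) -
            b (z + r • ζ) • w) := rfl
      rw [e]
      convert G0 using 1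
      simp only [zero_smul, add_zero]
      have e5 : f y - c z - b z • w = a z • v := by rw [← heq]; abel
      rw [e5, smul_smul, smul_smul, ← add_smul]
      have : (a z)⁻¹ * (fderiv ℝ a z ζ) + -(fderiv ℝ a z ζ) / (a z) ^ 2 * a z = 0 := by
        field_simp
        ring
      rw [this, zero_smul]
    have line2 : HasDerivAt (fun r : ℝ => (F ((z + r • ζ, y + r • η), w)).2) 0 0 :=
      hasDerivAt_const 0 w
    have := line.unique (line1.prodMk line2)
    exact this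
  refine ⟨M.symm ((z, y), w), ?_, ?_⟩
  · show M (M.symm ((z, y), w)) ∈ C
    rw [ContinuousLinearEquiv.apply_symm_apply]
    refine ⟨hqS, ((ζ, η), 0), ?_, key⟩
    intro h0
    apply hne
    exact congrArg Prod.fst h0
  · show F (M (M.symm ((z, y), w))) = (v, w)
    rw [ContinuousLinearEquiv.apply_symm_apply, hFq]

end sard

end Pool.Agent.Helper34.BI


end

/-! ## Helper34.BI.Generic -/

section

/-!
# General position for one-parameter families of arcs in four-space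

`H (t, u) = h (t, u) + (ρ t * χ u) • (v + u • w)`: for `(v, w)` outside a null set the family is
in general position at all points with `ρ t ≠ 0`, `χ u ≠ 0`.
-/

set_option autoImplicit false

open MeasureTheory Module Set
open scoped ContDiff

namespace Pool.Agent.Helper34.BI

section
variable {E : Type*} [NormedAddCommGroup E] [NormedSpace ℝ E]

/-- the perturbed family of arcs -/
def fam (h : ℝ × ℝ → E) (ρ χ : ℝ → ℝ) (v w : E) (p : ℝ × ℝ) : E :=
  h p + (ρ p.1 * χ p.2) • (v + p.2 • w)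

/-- The family `H` of arcs is in general position, with respect to surfaces `f i` and curves
`g k`, at the points where `act t u` holds. -/
structure GenPos {ι κ Y : Type*} [NormedAddCommGroup Y] [NormedSpace ℝ Y]
    (H : ℝ × ℝ → E) (ρ χ : ℝ → ℝ) (f : ι → Y → E) (T : ι → Set Y) (g : κ → ℝ → E) : Prop where
  /-- no double points -/
  inj : ∀ t u u', ρ t ≠ 0 → u ≠ u' → (χ u ≠ 0 ∨ χ u' ≠ 0) → H (t, u) ≠ H (t, u')
  /-- immersed -/
  imm : ∀ t u, ρ t ≠ 0 → χ u ≠ 0 → fderiv ℝ H (t, u) (0, 1) ≠ 0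
  /-- transverse to the surfaces -/
  trans : ∀ t u i y, ρ t ≠ 0 → χ u ≠ 0 → y ∈ T i → H (t, u) = f i y →
    ∀ ζ η, fderiv ℝ H (t, u) ζ = fderiv ℝ (f i) y η → ζ = 0 ∧ η = 0
  /-- at most one crossing at each time -/
  cross : ∀ t u u' i i' y y', ρ t ≠ 0 → u ≠ u' → χ u ≠ 0 → χ u' ≠ 0 → y ∈ T i → y' ∈ T i' →
    H (t, u) = f i y → H (t, u') ≠ f i' y'
  /-- disjoint from the curves -/
  curve : ∀ t u k r, ρ t ≠ 0 → χ u ≠ 0 → H (t, u) ≠ g k r

variable [FiniteDimensional ℝ E] [MeasurableSpace E] [BorelSpace E]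
  (μ : Measure (E × E)) [μ.IsAddHaarMeasure]

variable {Y : Type*} [NormedAddCommGroup Y] [NormedSpace ℝ Y] [FiniteDimensional ℝ Y]
  {h : ℝ × ℝ → E} {ρ χ : ℝ → ℝ}

theorem null_inj (hE : finrank ℝ E = 4) (hh : ContDiff ℝ ∞ h) (hρ : ContDiff ℝ ∞ ρ)
    (hχ : ContDiff ℝ ∞ χ) :
    μ {p : E × E | ∃ t u u', ρ t ≠ 0 ∧ u ≠ u' ∧ (χ u ≠ 0 ∨ χ u' ≠ 0) ∧
      fam h ρ χ p.1 p.2 (t, u) = fam h ρ χ p.1 p.2 (t, u')} = 0 := by
  have hdim : finrank ℝ (ℝ × ℝ × ℝ) < finrank ℝ E := by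
    rw [hE]; simp
  have d1 : Differentiable ℝ ρ := hρ.differentiable (by simp)
  have d2 : Differentiable ℝ χ := hχ.differentiable (by simp)
  have d3 : Differentiable ℝ h := hh.differentiable (by simp)
  let s : Set (ℝ × ℝ × ℝ) := {x | ρ x.1 ≠ 0 ∧ x.2.1 ≠ x.2.2 ∧ (χ x.2.1 ≠ 0 ∨ χ x.2.2 ≠ 0)}
  have key := null_linear μ hdim (s := s)
    (a := fun x => ρ x.1 * (χ x.2.1 - χ x.2.2))
    (b := fun x => ρ x.1 * (x.2.1 * χ x.2.1 - x.2.2 * χ x.2.2))
    (c := fun x => h (x.1, x.2.2) - h (x.1, x.2.1))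
    (Differentiable.differentiableOn (by fun_prop)) (Differentiable.differentiableOn (by fun_prop))
    (Differentiable.differentiableOn (by fun_prop)) ?_
  · refine measure_mono_null ?_ key
    rintro ⟨v, w⟩ ⟨t, u, u', ht, hu, hor, he⟩
    refine ⟨(t, u, u'), ⟨ht, hu, hor⟩, ?_⟩
    simp only [fam] at he ⊢
    have e1 : (ρ t * (χ u - χ u')) • v + (ρ t * (u * χ u - u' * χ u')) • w =
        (ρ t * χ u) • (v + u • w) - (ρ t * χ u') • (v + u' • w) := by
      module
    rw [e1, sub_eq_sub_iff_add_eq_add]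
    rw [add_comm, he, add_comm]
  · rintro ⟨t, u, u'⟩ ⟨ht, hu, hor⟩
    simp only at ht hu hor ⊢
    by_contra hcon
    push Not at hcon
    obtain ⟨h1, h2⟩ := hcon
    have h3 : χ u - χ u' = 0 := (mul_eq_zero.1 h1).resolve_left ht
    have h4 : u * χ u - u' * χ u' = 0 := (mul_eq_zero.1 h2).resolve_left ht
    have h5 : χ u = χ u' := by linarith
    rw [h5] at h4
    have h6 : (u - u') * χ u' = 0 := by linarith
    have h7 : χ u' = 0 := (mul_eq_zero.1 h6).resolve_left (sub_ne_zero.2 hu)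
    rcases hor with h8 | h8
    · exact h8 (h5.trans h7)
    · exact h8 h7

omit [FiniteDimensional ℝ E] [MeasurableSpace E] [BorelSpace E] in
/-- the derivative of the perturbed family along the arcs -/
theorem fderiv_fam (hh : ContDiff ℝ ∞ h) (hρ : ContDiff ℝ ∞ ρ) (hχ : ContDiff ℝ ∞ χ) (v w : E)
    (t u : ℝ) : fderiv ℝ (fam h ρ χ v w) (t, u) (0, 1) =
      fderiv ℝ h (t, u) (0, 1) + (ρ t * deriv χ u) • v + (ρ t * (u * deriv χ u + χ u)) • w := by
  have d2 : HasDerivAt χ (deriv χ u) u := (hχ.differentiable (by simp) u).hasDerivAt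
  have d3 : HasFDerivAt h (fderiv ℝ h (t, u)) (t, u) := (hh.differentiable (by simp) _).hasFDerivAt
  have hfam : ContDiff ℝ ∞ (fam h ρ χ v w) := by
    unfold fam
    fun_prop
  have d4 : HasFDerivAt (fam h ρ χ v w) (fderiv ℝ (fam h ρ χ v w) (t, u)) (t, u) :=
    (hfam.differentiable (by simp) _).hasFDerivAt
  have l : HasDerivAt (fun r : ℝ => ((t, r) : ℝ × ℝ)) (0, 1) u :=
    (hasDerivAt_const u t).prodMk (hasDerivAt_id u)
  have e1 := HasFDerivAt.comp_hasDerivAt_of_eq u d4 l rfl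
  have e2 := HasFDerivAt.comp_hasDerivAt_of_eq u d3 l rfl
  have e3 : HasDerivAt (fun r : ℝ => (ρ t * χ r) • (v + r • w))
      ((ρ t * χ u) • w + (ρ t * deriv χ u) • (v + u • w)) u := by
    have a1 : HasDerivAt (fun r : ℝ => ρ t * χ r) (ρ t * deriv χ u) u := d2.const_mul _
    have a2 : HasDerivAt (fun r : ℝ => v + r • w) w u := by
      simpa using ((hasDerivAt_id u).smul_const w).const_add v
    exact a1.smul a2
  have e4 := e2.add e3
  have e5 : (h ∘ fun r : ℝ => (t, r)) + (fun r : ℝ => (ρ t * χ r) • (v + r • w)) =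
      fam h ρ χ v w ∘ fun r : ℝ => (t, r) := by
    ext r
    rfl
  rw [e5] at e4
  rw [e1.unique e4]
  module

theorem null_imm (hE : finrank ℝ E = 4) (hh : ContDiff ℝ ∞ h) (hρ : ContDiff ℝ ∞ ρ)
    (hχ : ContDiff ℝ ∞ χ) :
    μ {p : E × E | ∃ t u, ρ t ≠ 0 ∧ χ u ≠ 0 ∧
      fderiv ℝ (fam h ρ χ p.1 p.2) (t, u) (0, 1) = 0} = 0 := by
  have hdim : finrank ℝ (ℝ × ℝ) < finrank ℝ E := by
    rw [hE]; simp
  have d1 : Differentiable ℝ ρ := hρ.differentiable (by simp)
  have d2 : Differentiable ℝ χ := hχ.differentiable (by simp)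
  have d4 : Differentiable ℝ (deriv χ) :=
    (ContDiff.deriv' (n := ∞) (by simpa using hχ)).differentiable (by simp)
  have d3 : Differentiable ℝ (fun x : ℝ × ℝ => fderiv ℝ h x (0, 1)) := by
    have : ContDiff ℝ ∞ (fderiv ℝ h) := hh.fderiv_right (by simp)
    exact ((this.differentiable (by simp)).clm_apply (differentiable_const _))
  let s : Set (ℝ × ℝ) := {x | ρ x.1 ≠ 0 ∧ χ x.2 ≠ 0}
  have key := null_linear μ hdim (s := s)
    (a := fun x => ρ x.1 * deriv χ x.2)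
    (b := fun x => ρ x.1 * (x.2 * deriv χ x.2 + χ x.2))
    (c := fun x => -fderiv ℝ h x (0, 1))
    (Differentiable.differentiableOn (by fun_prop)) (Differentiable.differentiableOn (by fun_prop))
    (d3.neg.differentiableOn) ?_
  · refine measure_mono_null ?_ key
    rintro ⟨v, w⟩ ⟨t, u, ht, hu, he⟩
    refine ⟨(t, u), ⟨ht, hu⟩, ?_⟩
    simp only
    simp only at he
    rw [fderiv_fam hh hρ hχ] at he
    rw [eq_neg_iff_add_eq_zero, ← he]
    abel
  · rintro ⟨t, u⟩ ⟨ht, hu⟩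
    simp only at ht hu ⊢
    by_contra hcon
    push Not at hcon
    obtain ⟨h1, h2⟩ := hcon
    have h3 : deriv χ u = 0 := (mul_eq_zero.1 h1).resolve_left ht
    have h4 : u * deriv χ u + χ u = 0 := (mul_eq_zero.1 h2).resolve_left ht
    rw [h3, mul_zero, zero_add] at h4
    exact hu h4

theorem null_trans (hE : finrank ℝ E = 4) (hY : finrank ℝ Y = 2) (hh : ContDiff ℝ ∞ h)
    (hρ : ContDiff ℝ ∞ ρ) (hχ : ContDiff ℝ ∞ χ) {f : Y → E} {T : Set Y} (hT : IsOpen T)
    (hf : ContDiffOn ℝ ∞ f T) :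
    μ {p : E × E | ∃ t u y, ρ t ≠ 0 ∧ χ u ≠ 0 ∧ y ∈ T ∧ fam h ρ χ p.1 p.2 (t, u) = f y ∧
      ∃ ζ η, fderiv ℝ (fam h ρ χ p.1 p.2) (t, u) ζ = fderiv ℝ f y η ∧ ¬ (ζ = 0 ∧ η = 0)} = 0 := by
  have hdim : finrank ℝ (ℝ × ℝ) + finrank ℝ Y = finrank ℝ E := by
    rw [hE, hY]; simp
  have d1 : Differentiable ℝ ρ := hρ.differentiable (by simp)
  have d2 : Differentiable ℝ χ := hχ.differentiable (by simp)
  have d3 : Differentiable ℝ h := hh.differentiable (by simp)
  let s : Set (ℝ × ℝ) := {x | ρ x.1 ≠ 0 ∧ χ x.2 ≠ 0}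
  have hs : IsOpen s := by
    refine IsOpen.inter ?_ ?_
    · exact isOpen_ne_fun (d1.continuous.comp continuous_fst) continuous_const
    · exact isOpen_ne_fun (d2.continuous.comp continuous_snd) continuous_const
  have key := null_sard μ hdim (s := s) (t := T) hs hT
    (a := fun x => ρ x.1 * χ x.2) (b := fun x => ρ x.1 * χ x.2 * x.2) (c := h) (f := f)
    (Differentiable.differentiableOn (by fun_prop)) (Differentiable.differentiableOn (by fun_prop))
    d3.differentiableOn (hf.differentiableOn (by simp)) (fun z hz => mul_ne_zero hz.1 hz.2)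
  refine measure_mono_null ?_ key
  rintro ⟨v, w⟩ ⟨t, u, y, ht, hu, hy, he, ζ, η, hd, hne⟩
  have e : (fam h ρ χ v w) = fun z : ℝ × ℝ => h z + (ρ z.1 * χ z.2) • v +
      (ρ z.1 * χ z.2 * z.2) • w := by
    ext z
    simp only [fam]
    module
  simp only at he hd
  refine ⟨(t, u), ⟨ht, hu⟩, y, hy, ?_, ζ, η, ?_, ?_⟩
  · rw [← he, e]
  · intro h0
    exact hne ⟨congrArg Prod.fst h0, congrArg Prod.snd h0⟩
  · rw [← hd, e]

theorem null_curve (hE : finrank ℝ E = 4) (hh : ContDiff ℝ ∞ h)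
    (hρ : ContDiff ℝ ∞ ρ) (hχ : ContDiff ℝ ∞ χ) {g : ℝ → E} (hg : ContDiff ℝ ∞ g) :
    μ {p : E × E | ∃ t u r, ρ t ≠ 0 ∧ χ u ≠ 0 ∧ fam h ρ χ p.1 p.2 (t, u) = g r} = 0 := by
  have hdim : finrank ℝ (ℝ × ℝ × ℝ) < finrank ℝ E := by
    rw [hE]; simp
  have d1 : Differentiable ℝ ρ := hρ.differentiable (by simp)
  have d2 : Differentiable ℝ χ := hχ.differentiable (by simp)
  have d3 : Differentiable ℝ h := hh.differentiable (by simp)
  have d4 : Differentiable ℝ g := hg.differentiable (by simp)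
  let s : Set (ℝ × ℝ × ℝ) := {x | ρ x.1 ≠ 0 ∧ χ x.2.1 ≠ 0}
  have key := null_linear μ hdim (s := s)
    (a := fun x => ρ x.1 * χ x.2.1)
    (b := fun x => ρ x.1 * χ x.2.1 * x.2.1)
    (c := fun x => g x.2.2 - h (x.1, x.2.1))
    (Differentiable.differentiableOn (by fun_prop)) (Differentiable.differentiableOn (by fun_prop))
    (Differentiable.differentiableOn (by fun_prop)) (fun x hx => Or.inl (mul_ne_zero hx.1 hx.2))
  refine measure_mono_null ?_ key
  rintro ⟨v, w⟩ ⟨t, u, r, ht, hu, he⟩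
  refine ⟨(t, u, r), ⟨ht, hu⟩, ?_⟩
  simp only [fam] at he ⊢
  rw [← he]
  module

theorem null_cross (hE : finrank ℝ E = 4) (hY : finrank ℝ Y = 2) (hh : ContDiff ℝ ∞ h)
    (hρ : ContDiff ℝ ∞ ρ) (hχ : ContDiff ℝ ∞ χ) {f f' : Y → E} {T T' : Set Y}
    (hf : ContDiffOn ℝ ∞ f T) (hf' : ContDiffOn ℝ ∞ f' T') :
    μ {p : E × E | ∃ t u u' y y', ρ t ≠ 0 ∧ u ≠ u' ∧ χ u ≠ 0 ∧ χ u' ≠ 0 ∧ y ∈ T ∧ y' ∈ T' ∧
      fam h ρ χ p.1 p.2 (t, u) = f y ∧ fam h ρ χ p.1 p.2 (t, u') = f' y'} = 0 := by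
  have hdim : finrank ℝ ((ℝ × ℝ × ℝ) × (Y × Y)) < finrank ℝ (E × E) := by
    rw [finrank_prod, finrank_prod, finrank_prod, finrank_prod, finrank_prod, hE, hY]
    simp
  have d1 : Differentiable ℝ ρ := hρ.differentiable (by simp)
  have d2 : Differentiable ℝ χ := hχ.differentiable (by simp)
  have d3 : Differentiable ℝ h := hh.differentiable (by simp)
  let s : Set ((ℝ × ℝ × ℝ) × (Y × Y)) := {x | ρ x.1.1 ≠ 0 ∧ x.1.2.1 ≠ x.1.2.2 ∧ χ x.1.2.1 ≠ 0 ∧
    χ x.1.2.2 ≠ 0 ∧ x.2.1 ∈ T ∧ x.2.2 ∈ T'}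
  let A : (ℝ × ℝ × ℝ) × (Y × Y) → E := fun x =>
    (ρ x.1.1 * χ x.1.2.1)⁻¹ • (f x.2.1 - h (x.1.1, x.1.2.1))
  let B : (ℝ × ℝ × ℝ) × (Y × Y) → E := fun x =>
    (ρ x.1.1 * χ x.1.2.2)⁻¹ • (f' x.2.2 - h (x.1.1, x.1.2.2))
  let W : (ℝ × ℝ × ℝ) × (Y × Y) → E := fun x => (x.1.2.1 - x.1.2.2)⁻¹ • (A x - B x)
  have hA : DifferentiableOn ℝ A s := by
    refine DifferentiableOn.smul (DifferentiableOn.inv ?_ ?_) (DifferentiableOn.sub ?_ ?_)
    · exact Differentiable.differentiableOn (by fun_prop)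
    · exact fun x hx => mul_ne_zero hx.1 hx.2.2.1
    · exact (hf.differentiableOn (by simp)).comp
        (Differentiable.differentiableOn (by fun_prop)) (fun x hx => hx.2.2.2.2.1)
    · exact Differentiable.differentiableOn (by fun_prop)
  have hB : DifferentiableOn ℝ B s := by
    refine DifferentiableOn.smul (DifferentiableOn.inv ?_ ?_) (DifferentiableOn.sub ?_ ?_)
    · exact Differentiable.differentiableOn (by fun_prop)
    · exact fun x hx => mul_ne_zero hx.1 hx.2.2.2.1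
    · exact (hf'.differentiableOn (by simp)).comp
        (Differentiable.differentiableOn (by fun_prop)) (fun x hx => hx.2.2.2.2.2)
    · exact Differentiable.differentiableOn (by fun_prop)
  have hW : DifferentiableOn ℝ W s := by
    refine DifferentiableOn.smul (DifferentiableOn.inv ?_ ?_) (hA.sub hB)
    · exact Differentiable.differentiableOn (by fun_prop)
    · exact fun x hx => sub_ne_zero.2 hx.2.1
  have hF : DifferentiableOn ℝ (fun x => (A x - x.1.2.1 • W x, W x)) s := by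
    refine DifferentiableOn.prodMk (hA.sub (DifferentiableOn.smul ?_ hW)) hW
    exact Differentiable.differentiableOn (by fun_prop)
  refine measure_mono_null ?_ (null_image μ hdim hF)
  rintro ⟨v, w⟩ ⟨t, u, u', y, y', ht, hne, hu, hu', hy, hy', he, he'⟩
  refine ⟨((t, u, u'), (y, y')), ⟨ht, hne, hu, hu', hy, hy'⟩, ?_⟩
  simp only [fam] at he he'
  have eA : A ((t, u, u'), (y, y')) = v + u • w := by
    simp only [A]
    rw [← he, add_sub_cancel_left, smul_smul, inv_mul_cancel₀ (mul_ne_zero ht hu), one_smul]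
  have eB : B ((t, u, u'), (y, y')) = v + u' • w := by
    simp only [B]
    rw [← he', add_sub_cancel_left, smul_smul, inv_mul_cancel₀ (mul_ne_zero ht hu'), one_smul]
  have eW : W ((t, u, u'), (y, y')) = w := by
    simp only [W]
    rw [eA, eB]
    have : v + u • w - (v + u' • w) = (u - u') • w := by module
    rw [this, smul_smul, inv_mul_cancel₀ (sub_ne_zero.2 hne), one_smul]
  simp only [eA, eW, Prod.mk.injEq, and_true]
  abel

/-- General position of families of arcs: the set of bad parameters is a null set. -/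
theorem null_genPos (hE : finrank ℝ E = 4) (hY : finrank ℝ Y = 2) (hh : ContDiff ℝ ∞ h)
    (hρ : ContDiff ℝ ∞ ρ) (hχ : ContDiff ℝ ∞ χ) {ι κ : Type*} [Countable ι] [Countable κ]
    {f : ι → Y → E} {T : ι → Set Y} (hT : ∀ i, IsOpen (T i))
    (hf : ∀ i, ContDiffOn ℝ ∞ (f i) (T i)) {g : κ → ℝ → E} (hg : ∀ k, ContDiff ℝ ∞ (g k)) :
    μ {p : E × E | ¬ GenPos (fam h ρ χ p.1 p.2) ρ χ f T g} = 0 := by
  have n1 := null_inj μ hE hh hρ hχ
  have n2 := null_imm μ hE hh hρ hχ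
  have n3 : μ (⋃ i, {p : E × E | ∃ t u y, ρ t ≠ 0 ∧ χ u ≠ 0 ∧ y ∈ T i ∧
      fam h ρ χ p.1 p.2 (t, u) = f i y ∧
      ∃ ζ η, fderiv ℝ (fam h ρ χ p.1 p.2) (t, u) ζ = fderiv ℝ (f i) y η ∧
        ¬ (ζ = 0 ∧ η = 0)}) = 0 :=
    measure_iUnion_null (fun i => null_trans μ hE hY hh hρ hχ (hT i) (hf i))
  have n4 : μ (⋃ i, ⋃ j, {p : E × E | ∃ t u u' y y', ρ t ≠ 0 ∧ u ≠ u' ∧ χ u ≠ 0 ∧ χ u' ≠ 0 ∧
      y ∈ T i ∧ y' ∈ T j ∧ fam h ρ χ p.1 p.2 (t, u) = f i y ∧
      fam h ρ χ p.1 p.2 (t, u') = f j y'}) = 0 :=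
    measure_iUnion_null (fun i => measure_iUnion_null
      (fun j => null_cross μ hE hY hh hρ hχ (hf i) (hf j)))
  have n5 : μ (⋃ k, {p : E × E | ∃ t u r, ρ t ≠ 0 ∧ χ u ≠ 0 ∧
      fam h ρ χ p.1 p.2 (t, u) = g k r}) = 0 :=
    measure_iUnion_null (fun k => null_curve μ hE hh hρ hχ (hg k))
  refine measure_mono_null ?_ (measure_union_null n1 (measure_union_null n2
    (measure_union_null n3 (measure_union_null n4 n5))))
  rintro ⟨v, w⟩ hnot
  by_contra hcon
  apply hnot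
  simp only [mem_union, mem_iUnion, mem_setOf_eq, not_or, not_exists, not_and] at hcon
  obtain ⟨c1, c2, c3, c4, c5⟩ := hcon
  refine ⟨?_, ?_, ?_, ?_, ?_⟩
  · intro t u u' h1 h2 h3 h4
    exact c1 t u u' h1 h2 h3 h4
  · intro t u h1 h2 h3
    exact c2 t u h1 h2 h3
  · intro t u i y h1 h2 h3 h4 ζ η h5
    have := c3 i t u y h1 h2 h3 h4 ζ η h5
    push Not at this
    exact this
  · intro t u u' i i' y y' h1 h2 h3 h4 h5 h6 h7 h8
    exact c4 i i' t u u' y y' h1 h2 h3 h4 h5 h6 h7 h8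
  · intro t u k r h1 h2 h3
    exact c5 k t u r h1 h2 h3

omit [MeasurableSpace E] [BorelSpace E] in
/-- General position of families of arcs: arbitrarily small good parameters exist. -/
theorem exists_genPos (hE : finrank ℝ E = 4) (hY : finrank ℝ Y = 2) (hh : ContDiff ℝ ∞ h)
    (hρ : ContDiff ℝ ∞ ρ) (hχ : ContDiff ℝ ∞ χ) {ι κ : Type*} [Countable ι] [Countable κ]
    {f : ι → Y → E} {T : ι → Set Y} (hT : ∀ i, IsOpen (T i))
    (hf : ∀ i, ContDiffOn ℝ ∞ (f i) (T i)) {g : κ → ℝ → E} (hg : ∀ k, ContDiff ℝ ∞ (g k))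
    {ε : ℝ} (hε : 0 < ε) :
    ∃ v w : E, ‖v‖ < ε ∧ ‖w‖ < ε ∧ GenPos (fam h ρ χ v w) ρ χ f T g := by
  borelize E
  let μ : Measure (E × E) := Measure.addHaar
  have hn := null_genPos μ hE hY hh hρ hχ hT hf hg
  have hball : 0 < μ (Metric.ball (0 : E × E) ε) := Metric.measure_ball_pos μ _ hε
  by_contra hcon
  push Not at hcon
  have hsub : Metric.ball (0 : E × E) ε ⊆ {p : E × E | ¬ GenPos (fam h ρ χ p.1 p.2) ρ χ f T g} := by
    rintro ⟨v, w⟩ hp
    rw [mem_ball_zero_iff, Prod.norm_def, max_lt_iff] at hp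
    exact hcon v w hp.1 hp.2
  exact absurd (measure_mono_null hsub hn) hball.ne'

end

end Pool.Agent.Helper34.BI


end

/-! ## Helper34.BI.Arcs -/

section

/-!
# Generic families of arcs joining two given arcs
-/

set_option autoImplicit false

open MeasureTheory Module Set Filter Topology
open scoped ContDiff

namespace Pool.Agent.Helper34.BI

/-- a smooth function positive exactly on the interval `(a, b)` -/
noncomputable def hat (a b t : ℝ) : ℝ := expNegInvGlue (t - a) * expNegInvGlue (b - t)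

theorem expNegInvGlue_le_one (x : ℝ) : expNegInvGlue x ≤ 1 := by
  unfold expNegInvGlue
  split_ifs with h
  · exact zero_le_one
  · rw [Real.exp_le_one_iff, neg_nonpos, inv_nonneg]
    linarith

theorem hat_nonneg (a b t : ℝ) : 0 ≤ hat a b t :=
  mul_nonneg (expNegInvGlue.nonneg _) (expNegInvGlue.nonneg _)

theorem hat_le_one (a b t : ℝ) : hat a b t ≤ 1 :=
  mul_le_one₀ (expNegInvGlue_le_one _) (expNegInvGlue.nonneg _) (expNegInvGlue_le_one _)

theorem contDiff_hat (a b : ℝ) : ContDiff ℝ ∞ (hat a b) := by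
  unfold hat
  exact (expNegInvGlue.contDiff.comp (by fun_prop)).mul (expNegInvGlue.contDiff.comp (by fun_prop))

theorem hat_ne_zero {a b t : ℝ} : hat a b t ≠ 0 ↔ a < t ∧ t < b := by
  unfold hat
  rw [mul_ne_zero_iff]
  constructor
  · rintro ⟨h1, h2⟩
    constructor
    · by_contra h
      exact h1 (expNegInvGlue.zero_of_nonpos (by linarith))
    · by_contra h
      exact h2 (expNegInvGlue.zero_of_nonpos (by linarith))
  · rintro ⟨h1, h2⟩
    exact ⟨(expNegInvGlue.pos_of_pos (by linarith)).ne', (expNegInvGlue.pos_of_pos (by linarith)).ne'⟩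

theorem hat_eq_zero {a b t : ℝ} (h : t ≤ a ∨ b ≤ t) : hat a b t = 0 := by
  by_contra h0
  have := hat_ne_zero.1 h0
  rcases h with h | h <;> linarith [this.1, this.2]

section
variable {E : Type*} [NormedAddCommGroup E] [NormedSpace ℝ E]

/-- The surfaces `f i` (defined on `T i`) parametrize the closed set `A` up to the two points
`p` and `q`, and they are open maps into `A`. -/
structure Charts {ι Y : Type*} [NormedAddCommGroup Y] [NormedSpace ℝ Y] (A : Set E) (p q : E)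
    (f : ι → Y → E) (T : ι → Set Y) : Prop where
  closed : IsClosed A
  opn : ∀ i, IsOpen (T i)
  smooth : ∀ i, ContDiffOn ℝ ∞ (f i) (T i)
  mem : ∀ i, ∀ y ∈ T i, f i y ∈ A
  cover : ∀ x ∈ A, x ≠ p → x ≠ q → ∃ i, ∃ y ∈ T i, f i y = x
  nhds : ∀ i, ∀ y ∈ T i, ∀ V ∈ 𝓝 y, ∃ W ∈ 𝓝 (f i y), A ∩ W ⊆ f i '' V

/-- A generic family of arcs `H (t, ·)`, `t ∈ [0, 1]`, on the interval `[a, b]`, constant for
`u ≤ a + δ` and for `b - δ ≤ u`, joining `c₀` to `c₁`. -/
structure ArcFamily {ι Y : Type*} [NormedAddCommGroup Y] [NormedSpace ℝ Y] (a b δ : ℝ)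
    (c₀ c₁ : ℝ → E) (A : Set E) (f : ι → Y → E) (T : ι → Set Y) (H : ℝ × ℝ → E) : Prop where
  smooth : ContDiff ℝ ∞ H
  start : ∀ t u, t ≤ 0 → H (t, u) = c₀ u
  stop : ∀ t u, 1 ≤ t → H (t, u) = c₁ u
  frozen : ∀ t u, (u ≤ a + δ ∨ b - δ ≤ u) → H (t, u) = c₀ u
  inj : ∀ t ∈ Icc (0 : ℝ) 1, InjOn (fun u => H (t, u)) (Icc a b)
  imm : ∀ t ∈ Icc (0 : ℝ) 1, ∀ u ∈ Icc a b, fderiv ℝ H (t, u) (0, 1) ≠ 0
  finite : {x : ℝ × ℝ | x.1 ∈ Icc (0 : ℝ) 1 ∧ x.2 ∈ Ioo a b ∧ H x ∈ A}.Finite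
  active : ∀ t ∈ Icc (0 : ℝ) 1, ∀ u ∈ Ioo a b, H (t, u) ∈ A →
    (0 < t ∧ t < 1) ∧ (a + δ < u ∧ u < b - δ)
  single : ∀ t ∈ Icc (0 : ℝ) 1, ∀ u ∈ Ioo a b, ∀ u' ∈ Ioo a b, H (t, u) ∈ A → H (t, u') ∈ A →
    u = u'
  trans : ∀ t ∈ Icc (0 : ℝ) 1, ∀ u ∈ Ioo a b, ∀ i, ∀ y ∈ T i, H (t, u) = f i y →
    ∀ ζ η, fderiv ℝ H (t, u) ζ = fderiv ℝ (f i) y η → ζ = 0 ∧ η = 0

variable [FiniteDimensional ℝ E]
variable {ι Y : Type*} [NormedAddCommGroup Y] [NormedSpace ℝ Y] [FiniteDimensional ℝ Y]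

/-- crossings are isolated -/
theorem isolated (hE : finrank ℝ E = 4) (hY : finrank ℝ Y = 2) {H : ℝ × ℝ → E}
    (hH : ContDiff ℝ ∞ H) {f : Y → E} {T : Set Y} (hT : IsOpen T) (hf : ContDiffOn ℝ ∞ f T)
    {x : ℝ × ℝ} {y : Y} (hy : y ∈ T) (hxy : H x = f y)
    (htr : ∀ ζ η, fderiv ℝ H x ζ = fderiv ℝ f y η → ζ = 0 ∧ η = 0) :
    ∃ U ∈ 𝓝 x, ∃ V ∈ 𝓝 y, ∀ x' ∈ U, ∀ y' ∈ V, H x' = f y' → x' = x := by
  have hfd : ContDiffAt ℝ ∞ f y := hf.contDiffAt (hT.mem_nhds hy)
  have s1 : HasStrictFDerivAt H (fderiv ℝ H x) x :=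
    (hH.contDiffAt (x := x)).hasStrictFDerivAt (by simp)
  have s2 : HasStrictFDerivAt f (fderiv ℝ f y) y := hfd.hasStrictFDerivAt (by simp)
  let L : (ℝ × ℝ) × Y →L[ℝ] E := (fderiv ℝ H x).comp (ContinuousLinearMap.fst ℝ _ _) -
    (fderiv ℝ f y).comp (ContinuousLinearMap.snd ℝ _ _)
  have s3 : HasStrictFDerivAt (fun q : (ℝ × ℝ) × Y => H q.1 - f q.2) L (x, y) :=
    (HasStrictFDerivAt.comp (x, y) s1 hasStrictFDerivAt_fst).sub
      (HasStrictFDerivAt.comp (x, y) s2 hasStrictFDerivAt_snd)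
  have hker : LinearMap.ker (L : (ℝ × ℝ) × Y →ₗ[ℝ] E) = ⊥ := by
    rw [LinearMap.ker_eq_bot']
    rintro ⟨ζ, η⟩ h0
    have h1 : fderiv ℝ H x ζ = fderiv ℝ f y η := by
      have : fderiv ℝ H x ζ - fderiv ℝ f y η = 0 := h0
      exact sub_eq_zero.1 this
    obtain ⟨h2, h3⟩ := htr ζ η h1
    rw [h2, h3]
    rfl
  have hdim : finrank ℝ ((ℝ × ℝ) × Y) = finrank ℝ E := by
    rw [hE, finrank_prod, hY]; simp
  let e : ((ℝ × ℝ) × Y) ≃L[ℝ] E :=
    (LinearEquiv.ofInjectiveOfFinrankEq (L : (ℝ × ℝ) × Y →ₗ[ℝ] E)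
      (LinearMap.ker_eq_bot.1 hker) hdim).toContinuousLinearEquiv
  have he : (e : ((ℝ × ℝ) × Y) →L[ℝ] E) = L := ContinuousLinearMap.ext fun q => rfl
  rw [← he] at s3
  have hmem := s3.mem_toOpenPartialHomeomorph_source
  have hopen := (s3.toOpenPartialHomeomorph (fun q : (ℝ × ℝ) × Y => H q.1 - f q.2)).open_source
  have hnhds : (s3.toOpenPartialHomeomorph (fun q : (ℝ × ℝ) × Y => H q.1 - f q.2)).source ∈
      𝓝 (x, y) := hopen.mem_nhds hmem
  rw [nhds_prod_eq, mem_prod_iff] at hnhds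
  obtain ⟨U, hU, V, hV, hUV⟩ := hnhds
  refine ⟨U, hU, V, hV, fun x' hx' y' hy' he' => ?_⟩
  have h1 : (x', y') ∈ (s3.toOpenPartialHomeomorph (fun q : (ℝ × ℝ) × Y => H q.1 - f q.2)).source :=
    hUV ⟨hx', hy'⟩
  have h2 := (s3.toOpenPartialHomeomorph (fun q : (ℝ × ℝ) × Y => H q.1 - f q.2)).injOn h1 hmem
    (by
      show H x' - f y' = H x - f y
      rw [he', hxy, sub_self, sub_self])
  exact congrArg Prod.fst h2

/-- Any two embedded arcs with the same ends, disjoint from the surfaces, are joined by a generic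
family of embedded arcs, whose crossings with the surfaces avoid countably many given curves. -/
theorem exists_arcFamily (hE : finrank ℝ E = 4) (hY : finrank ℝ Y = 2) [Countable ι] {κ : Type*}
    [Countable κ] {g : κ → ℝ → E} (hg : ∀ k, ContDiff ℝ ∞ (g k)) {a b δ : ℝ}
    (hδ : 0 < δ) (hab : a + 2 * δ < b - 2 * δ)
    {c₀ c₁ : ℝ → E} (h₀ : ContDiff ℝ ∞ c₀) (h₁ : ContDiff ℝ ∞ c₁)
    (hfr : ∀ u, (u ≤ a + 2 * δ ∨ b - 2 * δ ≤ u) → c₀ u = c₁ u)
    (inj₀ : InjOn c₀ (Icc a b)) (inj₁ : InjOn c₁ (Icc a b))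
    (imm₀ : ∀ u ∈ Icc a b, deriv c₀ u ≠ 0) (imm₁ : ∀ u ∈ Icc a b, deriv c₁ u ≠ 0)
    {A : Set E} {f : ι → Y → E} {T : ι → Set Y} (hA : Charts A (c₀ a) (c₀ b) f T)
    (hA₀ : ∀ u ∈ Ioo a b, c₀ u ∉ A) (hA₁ : ∀ u ∈ Ioo a b, c₁ u ∉ A)
    {ε : ℝ} (hε : 0 < ε) :
    ∃ H : ℝ × ℝ → E, ArcFamily a b δ c₀ c₁ A f T H ∧
      (∀ t ∈ Icc (0 : ℝ) 1, ∀ u ∈ Ioo a b, H (t, u) ∈ A → ∀ k r, H (t, u) ≠ g k r) ∧
      ∀ t ∈ Icc (0 : ℝ) 1, ∀ u, ∃ s ∈ Icc (0 : ℝ) 1,
        ‖H (t, u) - ((1 - s) • c₀ u + s • c₁ u)‖ < ε := by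
  let ρ : ℝ → ℝ := hat 0 1
  let χ : ℝ → ℝ := hat (a + δ) (b - δ)
  have hρ : ContDiff ℝ ∞ ρ := contDiff_hat _ _
  have hχ : ContDiff ℝ ∞ χ := contDiff_hat _ _
  let τ : ℝ → ℝ := Real.smoothTransition
  have hτ : ContDiff ℝ ∞ τ := Real.smoothTransition.contDiff
  let h : ℝ × ℝ → E := fun x => (1 - τ x.1) • c₀ x.2 + τ x.1 • c₁ x.2
  have hh : ContDiff ℝ ∞ h := by
    have e1 : ContDiff ℝ ∞ (fun x : ℝ × ℝ => τ x.1) := hτ.comp contDiff_fst
    have e2 : ContDiff ℝ ∞ (fun x : ℝ × ℝ => c₀ x.2) := h₀.comp contDiff_snd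
    have e3 : ContDiff ℝ ∞ (fun x : ℝ × ℝ => c₁ x.2) := h₁.comp contDiff_snd
    exact ((contDiff_const.sub e1).smul e2).add (e1.smul e3)
  obtain ⟨v, w, hv, hw, hgp⟩ := exists_genPos (h := h) (ρ := ρ) (χ := χ) hE hY hh hρ hχ hA.opn
    hA.smooth hg
    (ε := ε / (2 * (1 + |a| + |b|))) (by positivity)
  let H : ℝ × ℝ → E := fam h ρ χ v w
  have hH : ContDiff ℝ ∞ H := by
    have e1 : ContDiff ℝ ∞ (fun x : ℝ × ℝ => ρ x.1) := hρ.comp contDiff_fst
    have e2 : ContDiff ℝ ∞ (fun x : ℝ × ℝ => χ x.2) := hχ.comp contDiff_snd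
    exact hh.add ((e1.mul e2).smul (contDiff_const.add (contDiff_snd.smul contDiff_const)))
  have start : ∀ t u, t ≤ 0 → H (t, u) = c₀ u := by
    intro t u ht
    have e1 : ρ t = 0 := hat_eq_zero (Or.inl ht)
    have e2 : τ t = 0 := Real.smoothTransition.zero_of_nonpos ht
    simp [H, fam, h, e1, e2]
  have stop : ∀ t u, 1 ≤ t → H (t, u) = c₁ u := by
    intro t u ht
    have e1 : ρ t = 0 := hat_eq_zero (Or.inr ht)
    have e2 : τ t = 1 := Real.smoothTransition.one_of_one_le ht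
    simp [H, fam, h, e1, e2]
  have frozen : ∀ t u, (u ≤ a + δ ∨ b - δ ≤ u) → H (t, u) = c₀ u := by
    intro t u hu
    have e1 : χ u = 0 := hat_eq_zero hu
    have e2 : c₁ u = c₀ u := (hfr u (by rcases hu with hu | hu; left; linarith; right; linarith)).symm
    simp only [H, fam, h, e1, e2]
    module
  have hρt : ∀ t, 0 < t → t < 1 → ρ t ≠ 0 := fun t h1 h2 => hat_ne_zero.2 ⟨h1, h2⟩
  have hχt : ∀ u, a + δ < u → u < b - δ → χ u ≠ 0 := fun u h1 h2 => hat_ne_zero.2 ⟨h1, h2⟩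
  have hIoo : ∀ t ∈ Icc (0 : ℝ) 1, (t ≤ 0 ∨ 1 ≤ t) ∨ (0 < t ∧ t < 1) := by
    intro t ht
    rcases le_or_gt t 0 with h1 | h1
    · exact Or.inl (Or.inl h1)
    · rcases le_or_gt 1 t with h2 | h2
      · exact Or.inl (Or.inr h2)
      · exact Or.inr ⟨h1, h2⟩
  have hact : ∀ u, (u ≤ a + δ ∨ b - δ ≤ u) ∨ (a + δ < u ∧ u < b - δ) := by
    intro u
    rcases le_or_gt u (a + δ) with h1 | h1
    · exact Or.inl (Or.inl h1)
    · rcases le_or_gt (b - δ) u with h2 | h2
      · exact Or.inl (Or.inr h2)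
      · exact Or.inr ⟨h1, h2⟩
  have inj : ∀ t ∈ Icc (0 : ℝ) 1, InjOn (fun u => H (t, u)) (Icc a b) := by
    intro t ht u hu u' hu' he
    simp only at he
    rcases hIoo t ht with (h1 | h1) | h1
    · rw [start t u h1, start t u' h1] at he
      exact inj₀ hu hu' he
    · rw [stop t u h1, stop t u' h1] at he
      exact inj₁ hu hu' he
    · rcases hact u with h2 | h2
      · rcases hact u' with h3 | h3
        · rw [frozen t u h2, frozen t u' h3] at he
          exact inj₀ hu hu' he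
        · by_contra hne
          exact hgp.inj t u u' (hρt t h1.1 h1.2) hne (Or.inr (hχt u' h3.1 h3.2)) he
      · by_contra hne
        exact hgp.inj t u u' (hρt t h1.1 h1.2) hne (Or.inl (hχt u h2.1 h2.2)) he
  -- derivative along the arcs
  have hder : ∀ t u, HasDerivAt (fun r => H (t, r)) (fderiv ℝ H (t, u) (0, 1)) u := by
    intro t u
    have l : HasDerivAt (fun r : ℝ => ((t, r) : ℝ × ℝ)) (0, 1) u :=
      (hasDerivAt_const u t).prodMk (hasDerivAt_id u)
    exact HasFDerivAt.comp_hasDerivAt_of_eq u ((hH.differentiable (by simp) (t, u)).hasFDerivAt) l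
      rfl
  have imm : ∀ t ∈ Icc (0 : ℝ) 1, ∀ u ∈ Icc a b, fderiv ℝ H (t, u) (0, 1) ≠ 0 := by
    intro t ht u hu
    rcases hIoo t ht with (h1 | h1) | h1
    · have e : (fun r => H (t, r)) = c₀ := funext fun r => start t r h1
      rw [← (hder t u).deriv, e]
      exact imm₀ u hu
    · have e : (fun r => H (t, r)) = c₁ := funext fun r => stop t r h1
      rw [← (hder t u).deriv, e]
      exact imm₁ u hu
    · rcases hact u with h2 | h2
      · -- frozen: the derivative is the one of `c₀`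
        have hd0 : HasDerivAt c₀ (deriv c₀ u) u := (h₀.differentiable (by simp) u).hasDerivAt
        have key : fderiv ℝ H (t, u) (0, 1) = deriv c₀ u := by
          rcases h2 with h2 | h2
          · have w1 : HasDerivWithinAt (fun r => H (t, r)) (fderiv ℝ H (t, u) (0, 1)) (Iic u) u :=
              (hder t u).hasDerivWithinAt
            have w2 : HasDerivWithinAt c₀ (deriv c₀ u) (Iic u) u := hd0.hasDerivWithinAt
            have w3 : HasDerivWithinAt (fun r => H (t, r)) (deriv c₀ u) (Iic u) u :=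
              w2.congr (fun r hr => frozen t r (Or.inl (le_trans hr h2))) (frozen t u (Or.inl h2))
            exact (uniqueDiffWithinAt_Iic u).eq_deriv _ w1 w3
          · have w1 : HasDerivWithinAt (fun r => H (t, r)) (fderiv ℝ H (t, u) (0, 1)) (Ici u) u :=
              (hder t u).hasDerivWithinAt
            have w2 : HasDerivWithinAt c₀ (deriv c₀ u) (Ici u) u := hd0.hasDerivWithinAt
            have w3 : HasDerivWithinAt (fun r => H (t, r)) (deriv c₀ u) (Ici u) u :=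
              w2.congr (fun r hr => frozen t r (Or.inr (le_trans h2 hr))) (frozen t u (Or.inr h2))
            exact (uniqueDiffWithinAt_Ici u).eq_deriv _ w1 w3
        rw [key]
        exact imm₀ u hu
      · exact hgp.imm t u (hρt t h1.1 h1.2) (hχt u h2.1 h2.2)
  have active : ∀ t ∈ Icc (0 : ℝ) 1, ∀ u ∈ Ioo a b, H (t, u) ∈ A →
      (0 < t ∧ t < 1) ∧ (a + δ < u ∧ u < b - δ) := by
    intro t ht u hu hm
    rcases hIoo t ht with (h1 | h1) | h1
    · rw [start t u h1] at hm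
      exact absurd hm (hA₀ u hu)
    · rw [stop t u h1] at hm
      exact absurd hm (hA₁ u hu)
    · rcases hact u with h2 | h2
      · rw [frozen t u h2] at hm
        exact absurd hm (hA₀ u hu)
      · exact ⟨h1, h2⟩
  have hcover : ∀ t ∈ Icc (0 : ℝ) 1, ∀ u ∈ Ioo a b, H (t, u) ∈ A →
      ∃ i, ∃ y ∈ T i, f i y = H (t, u) := by
    intro t ht u hu hm
    have ha' : a ∈ Icc a b := ⟨le_rfl, by linarith [hu.1, hu.2]⟩
    have hb' : b ∈ Icc a b := ⟨by linarith [hu.1, hu.2], le_rfl⟩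
    have hu' : u ∈ Icc a b := ⟨hu.1.le, hu.2.le⟩
    refine hA.cover _ hm ?_ ?_
    · intro he
      rw [← frozen t a (Or.inl (by linarith))] at he
      exact hu.1.ne' (inj t ht hu' ha' he)
    · intro he
      rw [← frozen t b (Or.inr (by linarith))] at he
      exact hu.2.ne (inj t ht hu' hb' he)
  have trans : ∀ t ∈ Icc (0 : ℝ) 1, ∀ u ∈ Ioo a b, ∀ i, ∀ y ∈ T i, H (t, u) = f i y →
      ∀ ζ η, fderiv ℝ H (t, u) ζ = fderiv ℝ (f i) y η → ζ = 0 ∧ η = 0 := by
    intro t ht u hu i y hy he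
    obtain ⟨h1, h2⟩ := active t ht u hu (he ▸ hA.mem i y hy)
    exact hgp.trans t u i y (hρt t h1.1 h1.2) (hχt u h2.1 h2.2) hy he
  have single : ∀ t ∈ Icc (0 : ℝ) 1, ∀ u ∈ Ioo a b, ∀ u' ∈ Ioo a b, H (t, u) ∈ A →
      H (t, u') ∈ A → u = u' := by
    intro t ht u hu u' hu' hm hm'
    obtain ⟨h1, h2⟩ := active t ht u hu hm
    obtain ⟨-, h2'⟩ := active t ht u' hu' hm'
    obtain ⟨i, y, hy, he⟩ := hcover t ht u hu hm
    obtain ⟨i', y', hy', he'⟩ := hcover t ht u' hu' hm'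
    by_contra hne
    exact hgp.cross t u u' i i' y y' (hρt t h1.1 h1.2) hne (hχt u h2.1 h2.2)
      (hχt u' h2'.1 h2'.2) hy hy' he.symm he'.symm
  have avoid : ∀ t ∈ Icc (0 : ℝ) 1, ∀ u ∈ Ioo a b, H (t, u) ∈ A → ∀ k r, H (t, u) ≠ g k r := by
    intro t ht u hu hm k r
    obtain ⟨h1, h2⟩ := active t ht u hu hm
    exact hgp.curve t u k r (hρt t h1.1 h1.2) (hχt u h2.1 h2.2)
  refine ⟨H, ⟨hH, start, stop, frozen, inj, imm, ?_, active, single, trans⟩, avoid, ?_⟩
  · -- finiteness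
    by_contra hinf
    have hinf' : Set.Infinite {x : ℝ × ℝ | x.1 ∈ Icc (0 : ℝ) 1 ∧ x.2 ∈ Ioo a b ∧ H x ∈ A} := hinf
    have hsub : {x : ℝ × ℝ | x.1 ∈ Icc (0 : ℝ) 1 ∧ x.2 ∈ Ioo a b ∧ H x ∈ A} ⊆
        Icc (0 : ℝ) 1 ×ˢ Icc (a + δ) (b - δ) := by
      rintro ⟨t, u⟩ ⟨ht, hu, hm⟩
      obtain ⟨-, h2⟩ := active t ht u hu hm
      exact ⟨ht, h2.1.le, h2.2.le⟩
    obtain ⟨x, hx, hacc⟩ := hinf'.exists_accPt_of_subset_isCompact (isCompact_Icc.prod isCompact_Icc)
      hsub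
    obtain ⟨t, u⟩ := x
    have hu : u ∈ Ioo a b := ⟨by linarith [hx.2.1], by linarith [hx.2.2]⟩
    have hmem : H (t, u) ∈ A := by
      have hcl : IsClosed (H ⁻¹' A) := hA.closed.preimage hH.continuous
      have h1 : (t, u) ∈ closure (H ⁻¹' A) := by
        rw [mem_closure_iff_clusterPt]
        refine hacc.clusterPt.mono ?_
        rw [Filter.principal_mono]
        exact fun x hx => hx.2.2
      rw [hcl.closure_eq] at h1
      exact h1
    obtain ⟨i, y, hy, he⟩ := hcover t hx.1 u hu hmem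
    obtain ⟨U, hU, V, hV, hUV⟩ := isolated hE hY hH (hA.opn i) (hA.smooth i) hy he.symm
      (trans t hx.1 u hu i y hy he.symm)
    obtain ⟨W, hW, hAW⟩ := hA.nhds i y hy V hV
    rw [he] at hW
    have hW' : H ⁻¹' W ∈ 𝓝 (t, u) := hH.continuous.continuousAt hW
    rw [accPt_iff_nhds] at hacc
    obtain ⟨x', ⟨hx'1, hx'2⟩, hne⟩ := hacc (U ∩ H ⁻¹' W) (inter_mem hU hW')
    obtain ⟨y', hy', he'⟩ := hAW ⟨hx'2.2.2, hx'1.2⟩
    exact hne (hUV x' hx'1.1 y' hy' he'.symm)
  · intro t ht u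
    refine ⟨τ t, ⟨Real.smoothTransition.nonneg t, Real.smoothTransition.le_one t⟩, ?_⟩
    have e1 : H (t, u) - ((1 - τ t) • c₀ u + τ t • c₁ u) = (ρ t * χ u) • (v + u • w) := by
      simp only [H, fam, h]
      abel
    have hρ0 : 0 ≤ ρ t := hat_nonneg _ _ _
    have hχ0 : 0 ≤ χ u := hat_nonneg _ _ _
    rw [e1, norm_smul, Real.norm_eq_abs, abs_of_nonneg (mul_nonneg hρ0 hχ0)]
    rcases hact u with h2 | h2
    · have e3 : χ u = 0 := hat_eq_zero h2
      rw [e3, mul_zero, zero_mul]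
      exact hε
    · have e4 : ρ t * χ u ≤ 1 := mul_le_one₀ (hat_le_one _ _ _) (hat_nonneg _ _ _) (hat_le_one _ _ _)
      have e5 : |u| ≤ |a| + |b| := by
        rw [abs_le]
        constructor
        · have := neg_abs_le a
          have := abs_nonneg b
          linarith [h2.1]
        · have := le_abs_self b
          have := abs_nonneg a
          linarith [h2.2]
      have e6 : ‖v + u • w‖ ≤ ‖v‖ + (|a| + |b|) * ‖w‖ := by
        refine (norm_add_le _ _).trans (add_le_add_right ?_ _)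
        rw [norm_smul, Real.norm_eq_abs]
        exact mul_le_mul_of_nonneg_right e5 (norm_nonneg _)
      set R := |a| + |b| with hR
      have hR0 : 0 ≤ R := by positivity
      have e7 : ‖v‖ + R * ‖w‖ < ε := by
        have d1 : 1 + |a| + |b| = 1 + R := by rw [hR]; ring
        rw [d1] at hv hw
        have : R * ‖w‖ ≤ R * (ε / (2 * (1 + R))) := mul_le_mul_of_nonneg_left hw.le hR0
        have e8 : ε / (2 * (1 + R)) + R * (ε / (2 * (1 + R))) = ε / 2 := by
          field_simp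
        linarith
      calc (ρ t * χ u) * ‖v + u • w‖ ≤ 1 * ‖v + u • w‖ :=
            mul_le_mul_of_nonneg_right e4 (norm_nonneg _)
        _ = ‖v + u • w‖ := one_mul _
        _ ≤ _ := e6
        _ < ε := e7

end

end Pool.Agent.Helper34.BI


end

/-! ## Helper34.BI.Loc -/

section

/-!
# Local diffeomorphisms between vector spaces
-/

set_option autoImplicit false

open Module Set Filter Topology
open scoped ContDiff Manifold

namespace Pool.Agent.Helper34.BI

section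
variable {E F : Type*} [NormedAddCommGroup E] [NormedSpace ℝ E]
  [NormedAddCommGroup F] [NormedSpace ℝ F]

/-- a local diffeomorphism is smooth near the point -/
theorem eventually_contDiffAt {f : E → F} {p : E}
    (hf : IsLocalDiffeomorphAt 𝓘(ℝ, E) 𝓘(ℝ, F) ∞ f p) : ∀ᶠ q in 𝓝 p, ContDiffAt ℝ ∞ f q := by
  obtain ⟨Φ, hp, he⟩ := hf
  filter_upwards [Φ.open_source.mem_nhds hp] with q hq
  have h1 : ContDiffOn ℝ ∞ Φ Φ.source := contMDiffOn_iff_contDiffOn.1 Φ.contMDiffOn_toFun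
  have h2 : ContDiffAt ℝ ∞ Φ q := h1.contDiffAt (Φ.open_source.mem_nhds hq)
  exact h2.congr_of_eventuallyEq (he.eventuallyEq_of_mem (Φ.open_source.mem_nhds hq))

/-- the derivative of a local diffeomorphism is injective -/
theorem injective_fderiv {f : E → F} {p : E}
    (hf : IsLocalDiffeomorphAt 𝓘(ℝ, E) 𝓘(ℝ, F) ∞ f p) : Function.Injective (fderiv ℝ f p) := by
  obtain ⟨Φ, hp, he⟩ := hf
  have h1 : ContDiffOn ℝ ∞ Φ Φ.source := contMDiffOn_iff_contDiffOn.1 Φ.contMDiffOn_toFun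
  have h2 : ContDiffOn ℝ ∞ Φ.toPartialEquiv.symm Φ.target :=
    contMDiffOn_iff_contDiffOn.1 Φ.contMDiffOn_invFun
  have hs := Φ.open_source.mem_nhds hp
  have ht := Φ.open_target.mem_nhds (Φ.toPartialEquiv.map_source hp)
  have d1 : HasFDerivAt Φ (fderiv ℝ Φ p) p :=
    ((h1.contDiffAt hs).differentiableAt (by simp)).hasFDerivAt
  have d2 : HasFDerivAt Φ.toPartialEquiv.symm (fderiv ℝ Φ.toPartialEquiv.symm (Φ p)) (Φ p) :=
    ((h2.contDiffAt ht).differentiableAt (by simp)).hasFDerivAt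
  have d3 := d2.comp p d1
  have d4 : HasFDerivAt (fun x : E => x)
      ((fderiv ℝ Φ.toPartialEquiv.symm (Φ p)).comp (fderiv ℝ Φ p)) p := by
    refine d3.congr_of_eventuallyEq ?_
    filter_upwards [hs] with q hq
    exact (Φ.toPartialEquiv.left_inv hq).symm
  have d5 := d4.unique (hasFDerivAt_id p)
  have d6 : fderiv ℝ f p = fderiv ℝ Φ p := (he.eventuallyEq_of_mem hs).fderiv_eq
  intro v w hvw
  rw [d6] at hvw
  have := congrArg (fderiv ℝ Φ.toPartialEquiv.symm (Φ p)) hvw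
  have e1 : ∀ z, (fderiv ℝ Φ.toPartialEquiv.symm (Φ p)) (fderiv ℝ Φ p z) = z := fun z =>
    congrArg (fun A : E →L[ℝ] E => A z) d5
  rw [e1, e1] at this
  exact this

variable [FiniteDimensional ℝ E] [FiniteDimensional ℝ F]

/-- inverse function theorem, in the form of `IsLocalDiffeomorphAt` -/
theorem isLocalDiffeomorphAt_of_injective (hdim : finrank ℝ E = finrank ℝ F) {f : E → F} {p : E}
    (hf : ∀ᶠ q in 𝓝 p, ContDiffAt ℝ ∞ f q) (hinj : Function.Injective (fderiv ℝ f p)) :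
    IsLocalDiffeomorphAt 𝓘(ℝ, E) 𝓘(ℝ, F) ∞ f p := by
  haveI : CompleteSpace E := FiniteDimensional.complete ℝ E
  -- a linear isomorphism
  let e : E ≃L[ℝ] F := (LinearEquiv.ofInjectiveOfFinrankEq (fderiv ℝ f p : E →ₗ[ℝ] F)
      hinj hdim).toContinuousLinearEquiv
  have he : (e : E →L[ℝ] F) = fderiv ℝ f p := ContinuousLinearMap.ext fun q => rfl
  have hfp : ContDiffAt ℝ ∞ f p := hf.self_of_nhds
  have hd : HasFDerivAt f (e : E →L[ℝ] F) p := by
    rw [he]
    exact (hfp.differentiableAt (by simp)).hasFDerivAt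
  let Φ := hfp.toOpenPartialHomeomorph f hd (by simp)
  have hΦ : (Φ : E → F) = f := rfl
  have hpΦ : p ∈ Φ.source := hfp.mem_toOpenPartialHomeomorph_source hd (by simp)
  -- good neighbourhood
  obtain ⟨U, hU, hUo, hpU⟩ := mem_nhds_iff.1 hf
  have hcont : ContinuousOn (fderiv ℝ f) U := by
    intro q hq
    have h1 : ContDiffAt ℝ ∞ f q := hU hq
    have h2 : ContDiffAt ℝ ∞ (fderiv ℝ f) q := h1.fderiv_right (m := ∞) (by simp)
    exact h2.continuousAt.continuousWithinAt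
  let R : Set (E →L[ℝ] F) := range ((↑) : (E ≃L[ℝ] F) → (E →L[ℝ] F))
  have hRo : IsOpen R := ContinuousLinearEquiv.isOpen
  let V : Set E := U ∩ fderiv ℝ f ⁻¹' R
  have hVo : IsOpen V := hcont.isOpen_inter_preimage hUo hRo
  have hpV : p ∈ V := ⟨hpU, ⟨e, he⟩⟩
  let Ψ := Φ.restrOpen V hVo
  have hsrc : Ψ.source = Φ.source ∩ V := rfl
  refine ⟨⟨Ψ.toPartialEquiv, Ψ.open_source, Ψ.open_target, ?_, ?_⟩, ⟨hpΦ, hpV⟩, fun q _ => rfl⟩
  · refine contMDiffOn_iff_contDiffOn.2 ?_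
    intro q hq
    have : ContDiffAt ℝ ∞ f q := hU (show q ∈ U from hq.2.1)
    exact this.contDiffWithinAt
  · refine contMDiffOn_iff_contDiffOn.2 ?_
    intro y hy
    have h1 : Ψ.symm y ∈ Ψ.source := Ψ.map_target hy
    obtain ⟨e', he'⟩ : fderiv ℝ f (Ψ.symm y) ∈ R := h1.2.2
    have h2 : ContDiffAt ℝ ∞ f (Ψ.symm y) := hU h1.2.1
    have h3 : HasFDerivAt f (e' : E →L[ℝ] F) (Ψ.symm y) := by
      rw [he']
      exact (h2.differentiableAt (by simp)).hasFDerivAt
    exact (Ψ.contDiffAt_symm hy h3 h2).contDiffWithinAt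

theorem isLocalDiffeomorphAt_iff (hdim : finrank ℝ E = finrank ℝ F) {f : E → F} {p : E} :
    IsLocalDiffeomorphAt 𝓘(ℝ, E) 𝓘(ℝ, F) ∞ f p ↔
      (∀ᶠ q in 𝓝 p, ContDiffAt ℝ ∞ f q) ∧ Function.Injective (fderiv ℝ f p) :=
  ⟨fun h => ⟨eventually_contDiffAt h, injective_fderiv h⟩,
    fun h => isLocalDiffeomorphAt_of_injective hdim h.1 h.2⟩

end

end Pool.Agent.Helper34.BI


end
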