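import Pool.Agent.Helper65.Barb.Defs
import Pool.Agent.Helper70.BI.C.P02

/-!
# Project BI (MP_8e98f2_gt): collected modules, part 03

The contents of the modules
* Helper27.BI.StM2
* Helper27.BI.Geo
* Helper27.BI.StG
* Helper27.BI.M_SPIN
* Helper27.BI.M_ZNSQ

in one file, so that the whole proof builds in a short time.
-/

namespace Pool.Agent.Helper18.BI
end Pool.Agent.Helper18.BI

namespace Pool.Agent.Helper65.Barb
end Pool.Agent.Helper65.Barb


/-! ## Helper27.BI.StM2 -/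

section

/-!
# Project BI, part (C): the statements about the barbell map in the model
-/

set_option autoImplicit false

open scoped Manifold ContDiff Topology ComplexConjugate
open Set Pool.Agent.Helper65.Barb Pool.Agent.Helper18.BI

namespace Pool.Agent.Helper27.BI

/-- MODULE SPIN.  The motion of the second arc under the barbell isotopy in coordinates.

Proof.  Direct computation from `spin`, `rot`, `qa`, `qb`, `eta`: with `C = cos (π P / 2)`,
`S = sin (π P / 2)`, `η = exp (i φ)`, `α = C² + S² η`, `β = S C (η̄ - 1)`, one has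
`rot α β (1, 0) = (|α|² - |β|², -2 i α β)`, `2 S C = sin π P`, `C² - S² = cos π P`,
`S² = (1 - cos π P) / 2`; both sides are polynomials in `cos φ, sin φ, S, C` (with
`cos (2 π P) = 1 - 8 S² C²`, `sin (2 π P) = 4 S C (C² - S²)`), use `sin² + cos² = 1` twice
(`linear_combination`). -/
def StSpin : Prop := ∀ s P : ℝ, spin s P (1, 0) = zarc (Real.sin (Real.pi * P)) (chi s) P s

/-- MODULE ZNSQ.  `|Z|² = 1 + sin² φ (A² - sin² π q)`.

Proof. `cos 2πq = 1 - 2 sin² πq`, `sin² 2πq = 4 sin² πq cos² πq`, `4 χ (1 - χ) = sin² φ`. -/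
def StZnsq : Prop := ∀ A q s : ℝ, nsq (zarc A (chi s) q s) =
  1 + Real.sin (phi s) ^ 2 * (A ^ 2 - Real.sin (Real.pi * q) ^ 2)

/-- the closed tube of radius `r` about the vertical line over `x₀` -/
def ctube (x₀ : R3) (r : ℝ) : Set R4 := {p | nsq (p.2 - x₀) ≤ r ^ 2}

/-- the function of the level which is `1` when the moving arc passes at the back (`φ` near `π`)
with first transversal coordinate within `g / 8` of `X`, and `0` for distance `≥ g / 4` and at the
front -/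
noncomputable def cloc (g X s : ℝ) : ℝ :=
  cut (64 * (-Real.sin (phi s) - X) ^ 2 / g ^ 2) * step (-(4 * Real.cos (phi s)))

/-- MODULE ADDM (additivity in the model).  Two strands `x1`, `x2` inside the first hole with
different coordinates `X = w.re`: the barbell map (relative to both strands) is the product of two
maps `β1`, `β2`, where `βk` is isotopic to the barbell map relative to the strand `xk` only and
is the identity away from the slab `|X - Xk| ≤ g/4 + 2ρ` and the neighbourhood of `a + i h = 1`.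

Proof (helper70's section 4; `g = |X1 - X2|`, `ρ = g / 40`, all arcs indexed by `Unit`, written
`Z(A, c, q) = zarc A (c s) q s`; the base arc is `e1`, and `ℓ = Z(1, c, 0) = (1, ⟨-sin φ, 0⟩)`).
Ingredients: `exists_push`, `square` (Square.lean), `StSpin`, `StZnsq`.
(0) `barMap` is a push along `q ↦ Z(sin πq, χ, q)` relative to `{rsq 0 p ≤ (1/5)²}`, radius `1/5`
    (`bfam_near_zero`, `bfam_near_one`, `bfam_support`, `StSpin`); use `IsPush.mono`.
(1) `ΘL`: push along `u ↦ Z(u, ·, 0)` from `e1` to `ℓ` (`exists_push`).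
    Square `Γ u q = Z((1-u) sin πq + u, χ, q)`: `|Γ|² ≥ 1` for `q ∈ [0,1]` by `StZnsq`
    (`A ≥ sin πq ≥ 0`), the strands are in `|x| < 3/20`; `|Γ|² ≤ 2`.  Left and right edges are
    `u ↦ Z(u, ·, 0)` (`cos 2π = 1`, `sin 2π = 0`), so `ΘL ∘ barMap ~ ΘT ∘ ΘL` for `ΘT` a push along
    `q ↦ Z(1, χ, q)` from `ℓ` to `ℓ`.
(2) `ck = cloc g Xk`.  Square `Γ u q = Z(1, (1-u) χ + u (c1 + c2), q)` (left and right edge
    constant): admissible: if `|-sin φ - Xj| < g/8` then `|sin φ| < 0.175`, so `|cos φ| > 0.98`;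
    if `cos φ < 0` then `χ ∈ [0.99, 1]`, `cj = 1`, the other `c` is `0`, so
    `|a + i h| ≥ 2 c - 1 ≥ 0.98` for `c = (1-u) χ + u`; if `cos φ > 0`, then `χ ≤ 0.01`,
    `c1 = c2 = 0`, so `|a + i h - 1| ≤ 0.02`; in both cases the distance to the tube of `xj` is
    `> 1/2 ≥ 2ρ`.  Otherwise the `X`-distance is `≥ g/8 ≥ 2ρ + ρ`.
    So `ΘT ~ Θ12`, push along `q ↦ Z(1, c1 + c2, q)`.
(3) Square `Γ u q = (1 + c1 (cos 2πq - 1) + c2 (cos 2πuq - 1), ⟨-sin φ, c1 sin 2πq + c2 sin 2πuq⟩)`: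
    bottom `Z(1, c1, ·)`, top (`q = 1`) `u ↦ Z(1, c2, u)`, left constant, right `Z(1, c1 + c2, ·)`:
    `Θ12 ~ Θ2 ∘ Θ1` (same admissibility: near `Xj` either `cj = 1` and `|a + i h| = 1` or both
    `c`'s are `0`).
(4) `βk = ΘL⁻¹ ∘ Θk ∘ ΘL`.  Then `barMap ~ ΘL⁻¹ ΘT ΘL ~ ΘL⁻¹ Θ2 Θ1 ΘL = β2 ∘ β1`.
(5) relative to `xk` only the square `Γ u q = Z(1, (1-u) χ + u ck, q)` is admissible, so
    `Θk ~ ΘT` and `βk ~ ΘL⁻¹ ΘT ΘL ~ barMap`.
(6) Support (from `exists_push`): `ΘL` moves only points with `(a-1)² + h² < (2ρ)²`; `Θk` only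
    points with `(a-1)² + h² < (2ρ)²` (levels with `ck = 0`) or with
    `|X - Xk| < g/4 + 2ρ` (levels with `ck ≠ 0`). -/
def StAddM : Prop :=
  ∀ x1 x2 : R3, nsq x1 < (7 / 50) ^ 2 → nsq x2 < (7 / 50) ^ 2 → x1.2.re ≠ x2.2.re →
    ∀ g ρ : ℝ, g = |x1.2.re - x2.2.re| → ρ = g / 40 →
    ∃ β1 β2 : R4 → R4,
      TIso (ctube x1 ρ ∪ ctube x2 ρ) ρ (fun (_ : Unit) _ => e1) (fun _ _ => e1)
        barMap (fun p => β2 (β1 p)) ∧
      TIso (ctube x1 ρ ∪ ctube x2 ρ) ρ (fun (_ : Unit) _ => e1) (fun _ _ => e1) β1 β1 ∧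
      TIso (ctube x1 ρ ∪ ctube x2 ρ) ρ (fun (_ : Unit) _ => e1) (fun _ _ => e1) β2 β2 ∧
      TIso (ctube x1 ρ) ρ (fun (_ : Unit) _ => e1) (fun _ _ => e1) β1 barMap ∧
      TIso (ctube x2 ρ) ρ (fun (_ : Unit) _ => e1) (fun _ _ => e1) β2 barMap ∧
      (∀ s a w, (2 * ρ) ^ 2 ≤ (a - 1) ^ 2 + w.im ^ 2 → g / 4 + 2 * ρ ≤ |w.re - x1.2.re| →
        β1 (s, (a, w)) = (s, (a, w))) ∧
      ∀ s a w, (2 * ρ) ^ 2 ≤ (a - 1) ^ 2 + w.im ^ 2 → g / 4 + 2 * ρ ≤ |w.re - x2.2.re| →
        β2 (s, (a, w)) = (s, (a, w))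

/-- MODULE KAPPA.  The map pushing everything away from the strand over `x₀ = (a₀, w₀)` in the
direction of increasing `a`, identity off the slab `‖w - w₀‖ < δ` and for `a ≥ a₀ + 1/50`.

Proof. `k (a, w) = (a + η w (p a - a), w)`, `η` a smooth bump of `w ∈ ℂ`, `1` for
`‖w - w₀‖ ≤ δ / 2`, `0` for `‖w - w₀‖ ≥ δ` (`ContDiffBump`), and `p : ℝ → ℝ` smooth with `p' > 0`,
`p a = a` for `a ≥ a₀ + 1/50`, `p a ≥ a` for all `a`, `p a ≥ a₀ + r` for `a ≥ -5`:
e.g. `p a = a₀ + 1/50 - ∫_0^(a₀ + 1/50 - a) m`, `m t = 1` for `t ≤ 0`, `m` smooth,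
`1/1000 ≤ m ≤ 1`, `m t = 1/1000` for `t ≥ 1/1000` (`a₀ + 1/50 + 5 ≤ 5.2`, so the integral is at
most `1/1000 + 5.2/1000 < 1/50 - 1/100`).  For fixed `w` the map is strictly increasing in `a` with
positive derivative `(1-η) + η p'`, so `k` is injective and a local diffeomorphism (derivative
block triangular).  `nsq (k x - x₀) ≥ r²`: if `‖w - w₀‖ ≥ δ / 2 ≥ r` clear, otherwise
`(k x).1 = p a ≥ a₀ + r`.  If `k` moves `(a, w)` then `a < a₀ + 1/50`, `‖w - w₀‖ < δ` and
`a ≤ (k (a,w)).1 ≤ a₀ + 1/50` (as `p a ≤ a₀ + 1/50` there), so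
`nsq (k x) ≤ max a² (|a₀| + 1/50)² + ‖w‖²`, which gives the last two claims
(`(|a₀| + 1/50)² + (‖w₀‖ + 1/25)² ≤ (7/50 + √5/50)² < 1/25`, by the triangle inequality for the
vectors `(|a₀|, ‖w₀‖)` and `(1/50, 1/25)`; and if `|(k x).1| ≤ |a|` then
`nsq (k x) ≤ nsq x`). -/
def StKappa : Prop :=
  ∀ x₀ : R3, nsq x₀ < (7 / 50) ^ 2 → ∀ δ r : ℝ, 0 < r → r ≤ δ / 2 → r ≤ 1 / 100 → δ ≤ 1 / 25 →
    ∃ k : R3 → R3, ContDiff ℝ ∞ k ∧ Function.Injective k ∧
      (∀ x, Function.Bijective (fderiv ℝ k x)) ∧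
      (∀ x, δ ≤ ‖x.2 - x₀.2‖ → k x = x) ∧ (∀ x, x₀.1 + 1 / 50 ≤ x.1 → k x = x) ∧
      (∀ x, (k x).2 = x.2 ∧ x.1 ≤ (k x).1) ∧
      (∀ x, -5 ≤ x.1 → r ^ 2 ≤ nsq (k x - x₀)) ∧
      (∀ x, nsq x ≤ (9 / 2) ^ 2 → nsq (k x) ≤ (9 / 2) ^ 2) ∧
      ∀ x, nsq x ≤ (1 / 5) ^ 2 → nsq (k x) ≤ (1 / 5) ^ 2

/-- MODULE VAN (vanishing).  Without a strand in the first hole the barbell map is trivial.

Proof.  Square `Γ u q s = e1 + (1-u) (zarc (sin πq) (χ s) q s - e1)`, `O = ∅`: `|Γ|² ≤ 1`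
(convexity of the unit ball, `StZnsq`), all edges except the bottom are constant. -/
def StVan : Prop :=
  TIso ∅ (1 / 5) (fun (_ : Unit) _ => e1) (fun _ _ => e1) barMap (fun p => p)

/-- the inverse of the standard barbell map -/
noncomputable def barInv (p : R4) : R4 := bfam.g (1, p)

/-- reflection `h ↦ -h` -/
def refh (p : R4) : R4 := (p.1, p.2.1, conj p.2.2)

/-- reversal of the levels -/
def refs (p : R4) : R4 := (1 - p.1, p.2.1, p.2.2)

/-- exchange of the two arcs (rotation of three-space by `π`) -/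
def swp (p : R4) : R4 := (p.1, 1 - p.2.1, conj p.2.2)

/-- the two tubes of the model -/
def arc2 : Bool → ℝ → R3 := fun b _ => if b then e1 else 0

/-- MODULE R1 (reflections). -/
def StR1h : Prop := TIso ∅ (1 / 5) arc2 arc2 (fun p => refh (barMap (refh p))) barInv

/-- MODULE R1 (reversal of the levels). -/
def StR1s : Prop := TIso ∅ (1 / 5) arc2 arc2 (fun p => refs (barMap (refs p))) barInv

/-- MODULE R2 (exchange of the arcs).  (The barbell map is replaced by an isotopic one with smaller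
support, such that the conjugate is supported in the 4-ball, too.) -/
def StR2 : Prop := ∃ β : R4 → R4, TIso ∅ (1 / 5) arc2 arc2 barMap β ∧
  TIso ∅ (1 / 5) arc2 arc2 (fun p => swp (β (swp p))) barInv

end Pool.Agent.Helper27.BI


end

/-! ## Helper27.BI.Geo -/

section

/-!
# Project BI, part (C): elementary geometry of the arcs
-/

set_option autoImplicit false
set_option linter.unusedSectionVars false
set_option linter.unusedVariables false

open scoped Manifold ContDiff Topology ComplexConjugate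
open Set Pool.Agent.Helper65.Barb Pool.Agent.Helper18.BI

namespace Pool.Agent.Helper27.BI

/-! ### the Euclidean norm of three-space -/

theorem nsq_nonneg (x : R3) : 0 ≤ nsq x := by unfold nsq; positivity

theorem nsq_neg (x : R3) : nsq (-x) = nsq x := by simp [nsq]

theorem nsq_sub_comm (x y : R3) : nsq (x - y) = nsq (y - x) := by
  rw [← neg_sub, nsq_neg]

/-- the inner product -/
noncomputable def ip (x y : R3) : ℝ := x.1 * y.1 + x.2.re * y.2.re + x.2.im * y.2.im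

theorem ip_sq_le (x y : R3) : ip x y ^ 2 ≤ nsq x * nsq y := by
  unfold ip nsq
  nlinarith [sq_nonneg (x.1 * y.2.re - x.2.re * y.1), sq_nonneg (x.1 * y.2.im - x.2.im * y.1),
    sq_nonneg (x.2.re * y.2.im - x.2.im * y.2.re)]

theorem nsq_add_eq (x y : R3) : nsq (x + y) = nsq x + 2 * ip x y + nsq y := by
  simp only [nsq, ip, Prod.fst_add, Prod.snd_add, Complex.add_re, Complex.add_im]; ring

/-- triangle inequality in squared form -/
theorem nsq_add_le {x y : R3} {r t : ℝ} (hr : 0 ≤ r) (ht : 0 ≤ t) (hx : nsq x ≤ r ^ 2)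
    (hy : nsq y ≤ t ^ 2) : nsq (x + y) ≤ (r + t) ^ 2 := by
  have h1 : ip x y ≤ r * t := by
    have h2 : ip x y ^ 2 ≤ (r * t) ^ 2 := by
      calc ip x y ^ 2 ≤ nsq x * nsq y := ip_sq_le x y
        _ ≤ r ^ 2 * t ^ 2 := mul_le_mul hx hy (nsq_nonneg _) (by positivity)
        _ = (r * t) ^ 2 := by ring
    exact le_of_sq_le_sq h2 (by positivity) |>.trans le_rfl
  rw [nsq_add_eq]
  nlinarith
where
  le_of_sq_le_sq {a b : ℝ} (h : a ^ 2 ≤ b ^ 2) (hb : 0 ≤ b) : a ≤ b :=
    le_trans (le_abs_self a) (by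
      have := abs_le_abs_of_sq_le_sq h
      rwa [abs_of_nonneg hb] at this)
  abs_le_abs_of_sq_le_sq {a b : ℝ} (h : a ^ 2 ≤ b ^ 2) : |a| ≤ |b| := sq_le_sq.1 h

theorem nsq_sub_le {x y : R3} {r t : ℝ} (hr : 0 ≤ r) (ht : 0 ≤ t) (hx : nsq x ≤ r ^ 2)
    (hy : nsq y ≤ t ^ 2) : nsq (x - y) ≤ (r + t) ^ 2 := by
  rw [sub_eq_add_neg]
  exact nsq_add_le hr ht hx (by rwa [nsq_neg])

/-- separation: a point of the ball of radius `r` and a point off the ball of radius `R` -/
theorem nsq_sub_ge {x z : R3} {r R d : ℝ} (hr : 0 ≤ r) (hd : 0 ≤ d) (hR : r + d ≤ R)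
    (hx : nsq x ≤ r ^ 2) (hz : R ^ 2 ≤ nsq z) : d ^ 2 ≤ nsq (x - z) := by
  by_contra h
  push Not at h
  have h1 : nsq z < R ^ 2 := by
    obtain ⟨d', hd', hd'', h2⟩ : ∃ d', 0 ≤ d' ∧ d' < d ∧ nsq (x - z) ≤ d' ^ 2 := by
      refine ⟨√(nsq (x - z)), Real.sqrt_nonneg _, ?_, ?_⟩
      · exact (Real.sqrt_lt' (lt_of_le_of_ne hd (by
          rintro rfl
          have := nsq_nonneg (x - z)
          nlinarith))).2 h
      · rw [Real.sq_sqrt (nsq_nonneg _)]
    have h3 : nsq (x - (x - z)) ≤ (r + d') ^ 2 := nsq_sub_le hr hd' hx h2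
    rw [sub_sub_cancel] at h3
    nlinarith
  linarith

theorem re_sq_le (x : R3) : x.2.re ^ 2 ≤ nsq x := by
  unfold nsq; nlinarith [sq_nonneg x.1, sq_nonneg x.2.im]

theorem abs_re_le {x : R3} {r : ℝ} (hr : 0 ≤ r) (h : nsq x ≤ r ^ 2) : |x.2.re| ≤ r :=
  abs_le_of_sq_le_sq ((re_sq_le x).trans h) hr

/-! ### the angle -/

theorem contDiff_phi : ContDiff ℝ ∞ phi := contDiff_const.mul contDiff_step

theorem contDiff_chi : ContDiff ℝ ∞ chi :=
  (contDiff_const.sub (Real.contDiff_cos.comp contDiff_phi)).div_const 2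

theorem phi_of_nonpos {s : ℝ} (h : s ≤ 0) : phi s = 0 := by
  rw [phi, step_of_nonpos h, mul_zero]

theorem phi_of_one_le {s : ℝ} (h : 1 ≤ s) : phi s = 2 * Real.pi := by
  rw [phi, step_of_one_le h, mul_one]

theorem cos_phi_end {s : ℝ} (h : s ≤ 0 ∨ 1 ≤ s) : Real.cos (phi s) = 1 := by
  rcases h with h | h
  · rw [phi_of_nonpos h, Real.cos_zero]
  · rw [phi_of_one_le h, Real.cos_two_pi]

theorem sin_phi_end {s : ℝ} (h : s ≤ 0 ∨ 1 ≤ s) : Real.sin (phi s) = 0 := by
  rcases h with h | h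
  · rw [phi_of_nonpos h, Real.sin_zero]
  · rw [phi_of_one_le h, Real.sin_two_pi]

theorem chi_end {s : ℝ} (h : s ≤ 0 ∨ 1 ≤ s) : chi s = 0 := by
  rw [chi, cos_phi_end h]; norm_num

theorem chi_mem (s : ℝ) : chi s ∈ Icc (0 : ℝ) 1 := by
  unfold chi
  constructor <;> linarith [Real.neg_one_le_cos (phi s), Real.cos_le_one (phi s)]

/-! ### the arcs -/

theorem contDiff_zarc {F : Type*} [NormedAddCommGroup F] [NormedSpace ℝ F] {A c q s : F → ℝ}
    (hA : ContDiff ℝ ∞ A) (hc : ContDiff ℝ ∞ c) (hq : ContDiff ℝ ∞ q) (hs : ContDiff ℝ ∞ s) :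
    ContDiff ℝ ∞ (fun x => zarc (A x) (c x) (q x) (s x)) := by
  have h2 : ContDiff ℝ ∞ (fun x => 2 * Real.pi * q x) := contDiff_const.mul hq
  have h3 : ContDiff ℝ ∞ (fun x => Real.cos (2 * Real.pi * q x)) := Real.contDiff_cos.comp h2
  have h4 : ContDiff ℝ ∞ (fun x => Real.sin (2 * Real.pi * q x)) := Real.contDiff_sin.comp h2
  have h5 : ContDiff ℝ ∞ (fun x => Real.sin (phi (s x))) :=
    Real.contDiff_sin.comp (contDiff_phi.comp hs)
  unfold zarc
  apply ContDiff.prodMk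
  · exact contDiff_const.add (hc.mul (h3.sub contDiff_const))
  · have : (fun x => (⟨-A x * Real.sin (phi (s x)), c x * Real.sin (2 * Real.pi * q x)⟩ : ℂ)) =
        fun x => ((-A x * Real.sin (phi (s x)) : ℝ) : ℂ) +
          ((c x * Real.sin (2 * Real.pi * q x) : ℝ) : ℂ) * Complex.I := by
      funext x
      exact Complex.mk_eq_add_mul_I _ _
    rw [this]
    exact (Complex.ofRealCLM.contDiff.comp (hA.neg.mul h5)).add
      ((Complex.ofRealCLM.contDiff.comp (hc.mul h4)).mul contDiff_const)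

theorem zarc_end (A c q : ℝ) {s : ℝ} (h : s ≤ 0 ∨ 1 ≤ s) (hc : c = 0) : zarc A c q s = e1 := by
  simp [zarc, sin_phi_end h, hc, e1]
  rfl

theorem zarc_zero (A c s : ℝ) : zarc A c 0 s = (1, ⟨-A * Real.sin (phi s), 0⟩) := by
  simp [zarc]

theorem zarc_one (A c s : ℝ) : zarc A c 1 s = (1, ⟨-A * Real.sin (phi s), 0⟩) := by
  simp [zarc]

theorem nsq_zarc (A c q s : ℝ) : nsq (zarc A c q s) =
    1 - 2 * c * (1 - c) * (1 - Real.cos (2 * Real.pi * q)) + A ^ 2 * Real.sin (phi s) ^ 2 := by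
  have h := Real.sin_sq_add_cos_sq (2 * Real.pi * q)
  simp only [nsq, zarc]
  linear_combination c ^ 2 * h

theorem nsq_zarc_le {A c : ℝ} (q s : ℝ) (hc : c ∈ Icc (0 : ℝ) 1) (hA : A ∈ Icc (0 : ℝ) 1) :
    nsq (zarc A c q s) ≤ (3 / 2) ^ 2 := by
  rw [nsq_zarc]
  have h1 := Real.cos_le_one (2 * Real.pi * q)
  have h2 := Real.sin_sq_le_one (phi s)
  have h3 : 0 ≤ 2 * c * (1 - c) * (1 - Real.cos (2 * Real.pi * q)) :=
    mul_nonneg (mul_nonneg (by linarith [hc.1]) (by linarith [hc.2])) (by linarith)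
  have h4 : A ^ 2 * Real.sin (phi s) ^ 2 ≤ 1 := by
    have : A ^ 2 ≤ 1 := by nlinarith [hA.1, hA.2]
    nlinarith [sq_nonneg (Real.sin (phi s)), sq_nonneg A]
  linarith

theorem nsq_zarc_chi (A q s : ℝ) : nsq (zarc A (chi s) q s) =
    1 + Real.sin (phi s) ^ 2 * (A ^ 2 - Real.sin (Real.pi * q) ^ 2) := by
  rw [nsq_zarc, chi]
  have h1 : Real.cos (2 * Real.pi * q) = 1 - 2 * Real.sin (Real.pi * q) ^ 2 := by
    have : 2 * Real.pi * q = 2 * (Real.pi * q) := by ring
    rw [this, Real.cos_two_mul]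
    linarith [Real.sin_sq_add_cos_sq (Real.pi * q)]
  have h2 := Real.sin_sq_add_cos_sq (phi s)
  rw [h1]
  linear_combination (Real.sin (Real.pi * q) ^ 2) * h2

/-! ### the barbell map as a push -/

/-- the path of arcs of the barbell isotopy -/
noncomputable def barPath : Unit → ℝ → ℝ → R3 :=
  fun _ q s => zarc (Real.sin (Real.pi * q)) (chi s) q s

theorem barPath_zero (i : Unit) (s : ℝ) : barPath i 0 s = e1 := by
  simp [barPath, zarc_zero, e1]
  rfl

theorem barPath_one (i : Unit) (s : ℝ) : barPath i 1 s = e1 := by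
  simp [barPath, zarc_one, e1]
  rfl

theorem isPush_of_isBarbellMap (hspin : StSpin) {β : R4 → R4} (hβ : IsBarbellMap β) :
    IsPush {p | rsq 0 p ≤ (3 / 20) ^ 2} (3 / 20) barPath β := by
  obtain ⟨Φ, h0, h1, ⟨K, hK, hKi, hKs⟩, hz, ho⟩ := hβ
  refine ⟨Φ, h0, h1, ⟨K, hK, hKi, fun t x hx => hKs t x hx⟩, fun t ht x hx => hz t ht x hx, ?_⟩
  intro t ht i s y hy
  rw [barPath_zero]
  have e := ho t ht s y hy
  rw [hspin] at e
  exact e

theorem bfam_zero (p : R4) : bfam.f (0, p) = p := by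
  rw [bfam_apply]
  have h : ∀ (c r : ℝ) (q : R4), (twist c r).g (0, q) = q := by
    intro c r q
    have := (twist c r).gf 0 q
    rwa [twist_of_time le_rfl] at this
  rw [h, h, twist_of_time le_rfl]

theorem isPush_barMap (hspin : StSpin) :
    IsPush {p | rsq 0 p ≤ (1 / 5) ^ 2} (1 / 5) barPath barMap := by
  refine ⟨bfam, bfam_zero, fun _ => rfl, ⟨tsupp 0 2, isCompact_tsupp 0 2,
    tsupp_subset_interior, fun t p hp => bfam_support t p hp⟩, fun t _ x hx =>
    bfam_near_zero t hx, ?_⟩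
  intro t ht i s y hy
  rw [barPath_zero]
  have e := bfam_near_one t s y hy
  rw [hspin] at e
  exact e

end Pool.Agent.Helper27.BI


end

/-! ## Helper27.BI.StG -/

section

/-!
# Project BI, part (C): the statements at the level of germs
-/

set_option autoImplicit false

open scoped Manifold ContDiff Topology ComplexConjugate
open Set Pool.Agent.Helper65.Barb Pool.Agent.Helper18.BI

namespace Pool.Agent.Helper27.BI

/-- `k` pushes the ball off the vertical tube of radius `r` over `x₀`, in the direction of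
increasing `a`. -/
structure IsKap (x₀ : R3) (δ r : ℝ) (k : R4 → R4) : Prop where
  emb : EmbOn 𝓘(ℝ, R4) k univ
  smooth : ContDiff ℝ ∞ k
  fst : ∀ p, (k p).1 = p.1
  keep : ∀ p, (k p).2.2 = p.2.2
  mono : ∀ p, p.2.1 ≤ (k p).2.1
  off_w : ∀ p, δ ≤ ‖p.2.2 - x₀.2‖ → k p = p
  off_a : ∀ p, x₀.1 + 1 / 50 ≤ p.2.1 → k p = p
  away : ∀ p ∈ ball4, k p ∉ tube x₀ r
  ball : ∀ p ∈ ball4, k p ∈ ball4
  small : ∀ p, rsq 0 p ≤ 1 / 25 → rsq 0 (k p) ≤ 1 / 25

/-- Existence of the pushing maps. -/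
def StKap : Prop :=
  ∀ x₀ : R3, nsq x₀ < (7 / 50) ^ 2 → ∀ δ r : ℝ, 0 < r → r ≤ δ / 2 → r ≤ 1 / 100 → δ ≤ 1 / 25 →
    ∃ k, IsKap x₀ δ r k

/-- **ADD** for germs.  Two strands `x1`, `x2` inside the first hole: the implantation is the
product of the implantation relative to the first strand only (`F ∘ k1`, `k1` pushes everything
off the second strand) and of the one relative to the second strand only (`F ∘ k2`). -/
def StAddG : Prop :=
  ∀ (E : Type) [NormedAddCommGroup E] [NormedSpace ℝ E] (H : Type) [TopologicalSpace H]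
    (I : ModelWithCorners ℝ E H) (M : Type) [TopologicalSpace M] [ChartedSpace H M] [T2Space M]
    (x1 x2 : R3), nsq x1 < (7 / 50) ^ 2 → nsq x2 < (7 / 50) ^ 2 → x1.2.re ≠ x2.2.re →
    ∀ g ρ : ℝ, g = |x1.2.re - x2.2.re| → ρ = g / 40 → ∀ k1 k2 : R4 → R4,
      IsKap x2 (g / 8) ρ k1 → IsKap x1 (g / 8) ρ k2 →
      ∀ F : R4 → M, EmbOn I F {p | p ∈ ball4 ∧ p ∉ tube (1, 0) (3 / 20) ∧ p ∉ tube x1 ρ ∧
        p ∉ tube x2 ρ} →
        CIsot I (imp F bsupp barMap)
          (fun y => imp (F ∘ k2) bsupp barMap (imp (F ∘ k1) bsupp barMap y))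

/-- **ADD2** (the form used in part (D)): the strands over `0` and `x2`. -/
def StADD2 : Prop :=
  ∀ x2 : R3, nsq x2 < (7 / 50) ^ 2 → x2.2.re ≠ 0 → ∃ (r : ℝ) (k1 k2 : R4 → R4), 0 < r ∧
    r ≤ 1 / 200 ∧ 8 * r ≤ |x2.2.re| ∧
    IsKap x2 (|x2.2.re| / 8) r k1 ∧ IsKap 0 (|x2.2.re| / 8) r k2 ∧
    (∀ p, 17 / 100 ≤ p.2.1 → k1 p = p ∧ k2 p = p) ∧
    (∀ p : R4, ‖p.2.2‖ ≤ |x2.2.re| / 2 → k1 p = p) ∧
    (∀ p, k1 p ∈ tube 0 r → p ∈ tube 0 r) ∧ (∀ p, k2 p ∈ tube x2 r → p ∈ tube x2 r) ∧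
    ∀ (E : Type) [NormedAddCommGroup E] [NormedSpace ℝ E] (H : Type) [TopologicalSpace H]
      (I : ModelWithCorners ℝ E H) (M : Type) [TopologicalSpace M] [ChartedSpace H M] [T2Space M]
      (F : R4 → M), EmbOn I F (ball4 \ (tube (1, 0) (3 / 20) ∪ tube 0 r ∪ tube x2 r)) →
        CIsot I (imp F bsupp barMap)
          (fun y => imp (F ∘ k2) bsupp barMap (imp (F ∘ k1) bsupp barMap y))

/-- **VAN** for germs: a germ extending over the first flat ball has trivial class. -/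
def StVanT : Prop :=
  ∀ (E : Type) [NormedAddCommGroup E] [NormedSpace ℝ E] (H : Type) [TopologicalSpace H]
    (I : ModelWithCorners ℝ E H) (M : Type) [TopologicalSpace M] [ChartedSpace H M] [T2Space M]
    (F : R4 → M), EmbOn I F (flat 0 ∪ sph 1 ∪ neck) → Thin I F (fun x => x)

/-- **R1** for germs: reflection `h ↦ -h`. -/
def StRefH : Prop :=
  ∀ (E : Type) [NormedAddCommGroup E] [NormedSpace ℝ E] (H : Type) [TopologicalSpace H]
    (I : ModelWithCorners ℝ E H) (M : Type) [TopologicalSpace M] [ChartedSpace H M] [T2Space M]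
    (F : R4 → M) (φ φ' : M → M), EmbOn I F SP → (∀ x, φ (φ' x) = x) → (∀ x, φ' (φ x) = x) →
    (Thin I F φ ↔ Thin I (fun p => F (refh p)) φ')

/-- **R1** for germs: reversal of the levels. -/
def StRefS : Prop :=
  ∀ (E : Type) [NormedAddCommGroup E] [NormedSpace ℝ E] (H : Type) [TopologicalSpace H]
    (I : ModelWithCorners ℝ E H) (M : Type) [TopologicalSpace M] [ChartedSpace H M] [T2Space M]
    (F : R4 → M) (φ φ' : M → M), EmbOn I F SP → (∀ x, φ (φ' x) = x) → (∀ x, φ' (φ x) = x) →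
    (Thin I F φ ↔ Thin I (fun p => F (refs p)) φ')

/-- **R2** for germs: exchange of the two cuffs. -/
def StR2sw : Prop :=
  ∀ (E : Type) [NormedAddCommGroup E] [NormedSpace ℝ E] (H : Type) [TopologicalSpace H]
    (I : ModelWithCorners ℝ E H) (M : Type) [TopologicalSpace M] [ChartedSpace H M] [T2Space M]
    (F : R4 → M) (φ φ' : M → M), EmbOn I F SP → (∀ x, φ (φ' x) = x) → (∀ x, φ' (φ x) = x) →
    (Thin I F φ ↔ Thin I (fun p => F (swp p)) φ')

end Pool.Agent.Helper27.BI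


end

/-! ## Helper27.BI.M_SPIN -/

section

/-!
# Project BI, part (C): the motion of the second arc in coordinates
-/

set_option autoImplicit false

open scoped Manifold ContDiff Topology ComplexConjugate
open Set Pool.Agent.Helper65.Barb Pool.Agent.Helper18.BI

namespace Pool.Agent.Helper27.BI

namespace SPIN

private theorem eta_re (s : ℝ) : (eta s).re = Real.cos (phi s) := by
  rw [eta, Complex.exp_ofReal_mul_I_re, phi]

private theorem eta_im (s : ℝ) : (eta s).im = Real.sin (phi s) := by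
  rw [eta, Complex.exp_ofReal_mul_I_im, phi]

private theorem dbl (P : ℝ) : Real.sin (Real.pi * P) =
    2 * Real.sin (Real.pi / 2 * P) * Real.cos (Real.pi / 2 * P) := by
  rw [← Real.sin_two_mul]; congr 1; ring

private theorem dblc (P : ℝ) : Real.cos (Real.pi * P) =
    Real.cos (Real.pi / 2 * P) ^ 2 - Real.sin (Real.pi / 2 * P) ^ 2 := by
  rw [← Real.cos_two_mul']; congr 1; ring

private theorem quad (P : ℝ) : Real.sin (2 * Real.pi * P) =
    2 * Real.sin (Real.pi * P) * Real.cos (Real.pi * P) := by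
  rw [← Real.sin_two_mul]; congr 1; ring

private theorem quadc (P : ℝ) : Real.cos (2 * Real.pi * P) =
    1 - 2 * Real.sin (Real.pi * P) ^ 2 := by
  have h1 : Real.cos (2 * Real.pi * P) = Real.cos (2 * (Real.pi * P)) := by congr 1; ring
  rw [h1, Real.cos_two_mul]
  have h := Real.sin_sq_add_cos_sq (Real.pi * P)
  linear_combination 2 * h

end SPIN

open SPIN in
theorem m_SPIN : StSpin := by
  intro s P
  set C := Real.cos (Real.pi / 2 * P) with hC
  set S := Real.sin (Real.pi / 2 * P) with hS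
  set c := Real.cos (phi s) with hc
  set d := Real.sin (phi s) with hd
  have e1 : S ^ 2 + C ^ 2 = 1 := Real.sin_sq_add_cos_sq _
  have e2 : d ^ 2 + c ^ 2 = 1 := Real.sin_sq_add_cos_sq _
  have ar : (qa s P).re = C ^ 2 + S ^ 2 * c := by
    simp [qa, ← hC, ← hS, eta_re, ← hc, Complex.add_re, Complex.mul_re, ← Complex.ofReal_pow]
  have ai : (qa s P).im = S ^ 2 * d := by
    simp [qa, ← hC, ← hS, eta_im, ← hd, Complex.add_im, Complex.mul_im, ← Complex.ofReal_pow]
  have br : (qb s P).re = S * C * (c - 1) := by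
    simp only [qb, ← hC, ← hS, Complex.re_ofReal_mul, Complex.sub_re, Complex.conj_re, eta_re,
      Complex.one_re]
    rfl
  have bi : (qb s P).im = - (S * C * d) := by
    simp only [qb, ← hC, ← hS, Complex.im_ofReal_mul, Complex.sub_im, Complex.conj_im, eta_im,
      Complex.one_im]
    ring
  have q1 := dbl P
  have q2 := dblc P
  have q3 := quad P
  have q4 := quadc P
  rw [q1, q2] at q3
  rw [q1] at q4
  rw [spin, rot, zarc]
  refine Prod.ext ?_ (Complex.ext ?_ ?_)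
  · simp only [Complex.normSq_apply, ar, ai, br, bi, mul_zero, Complex.zero_im, add_zero, one_mul,
      chi, ← hc, q4, ← hS, ← hC]
    linear_combination (S ^ 4 - S ^ 2 * C ^ 2) * e2 + (S ^ 2 + C ^ 2 + 1) * e1
  · simp only [q1, ← hd, mul_zero, map_zero, zero_add, Complex.ofReal_one, mul_one,
      Complex.sub_re, Complex.zero_re, Complex.mul_re, Complex.mul_im, Complex.re_ofNat,
      Complex.im_ofNat, Complex.I_re, Complex.I_im, ar, ai, br, bi, ← hS, ← hC]
    linear_combination (-2 * S * C * d) * e1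
  · simp only [q3, chi, ← hc, mul_zero, map_zero, zero_add, Complex.ofReal_one, mul_one,
      Complex.sub_im, Complex.zero_im, Complex.mul_re, Complex.mul_im, Complex.re_ofNat,
      Complex.im_ofNat, Complex.I_re, Complex.I_im, ar, ai, br, bi, ← hS, ← hC]
    linear_combination (-2 * S ^ 3 * C) * e2

end Pool.Agent.Helper27.BI


end

/-! ## Helper27.BI.M_ZNSQ -/

section

set_option autoImplicit false

open scoped Manifold ContDiff Topology ComplexConjugate
open Set Pool.Agent.Helper65.Barb Pool.Agent.Helper18.BI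

namespace Pool.Agent.Helper27.BI

theorem m_ZNSQ : StZnsq := by
  intro A q s
  have h1 : Real.cos (2 * Real.pi * q) = 1 - 2 * Real.sin (Real.pi * q) ^ 2 := by
    rw [mul_assoc, Real.cos_two_mul, Real.cos_sq']; ring
  have h2 : Real.sin (2 * Real.pi * q) ^ 2 =
      4 * Real.sin (Real.pi * q) ^ 2 * (1 - Real.sin (Real.pi * q) ^ 2) := by
    rw [mul_assoc, Real.sin_two_mul, mul_pow, mul_pow, Real.cos_sq']; ring
  have h3 : Real.sin (phi s) ^ 2 = 1 - Real.cos (phi s) ^ 2 := Real.sin_sq _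
  unfold zarc nsq chi
  dsimp only
  rw [h1]
  generalize Real.sin (Real.pi * q) ^ 2 = S at *
  linear_combination ((1 - Real.cos (phi s)) / 2) ^ 2 * h2 + S * h3
end Pool.Agent.Helper27.BI


end
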