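import Pool.Agent.Helper65.Barb.Defs
import Pool.Agent.Helper70.BI.C.P02

/-!
# Project BI (MP_8e98f2_gt): collected modules, part 04

The contents of the modules
* Helper18.BI.StA
* Helper18.BI.StF

in one file, so that the whole proof builds in a short time.
-/

namespace Pool.Agent.Helper65.Barb
end Pool.Agent.Helper65.Barb


/-! ## Helper18.BI.StA -/

section

/-!
# Project BI (MP_8e98f2_gt), part (A): germs, compression, the thin lemma

Statements (as `Prop` definitions) with complete proofs in the docstrings.  A module `M_X` proves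
`theorem m_X : StX` (possibly from other statements as hypotheses `(h : StY)`, or importing the
module of `StY` if it is already on main).
-/

set_option autoImplicit false

open scoped Manifold ContDiff Topology ComplexConjugate
open Set Pool.Agent.Helper65.Barb

namespace Pool.Agent.Helper18.BI

/-! ## definitions used in the statements of part (A) -/

/-- `T` is a diffeomorphism of `R4` with inverse `T'`, equal to the identity off `L`. -/
def SDiff (L : Set R4) (T T' : R4 → R4) : Prop :=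
  ContDiff ℝ ∞ T ∧ ContDiff ℝ ∞ T' ∧ (∀ p, T (T' p) = p) ∧ (∀ p, T' (T p) = p) ∧
    ∀ p, p ∉ L → T p = p

/-- the exterior of the two open solid tubes of radius `1/5` around the arcs -/
def Ext : Set R4 := {p | (1 / 5) ^ 2 ≤ rsq 0 p ∧ (1 / 5) ^ 2 ≤ rsq 1 p}

/-- the exterior part of the ball; `bsupp ⊆ EB ⊆ NB` -/
def EB : Set R4 := {p | p ∈ ball4 ∧ p ∈ Ext}

/-- `fac ε a k = ff ε (prof ε a) k` (by `rfl`) -/
noncomputable def ff (ε g k : ℝ) : ℝ :=
  √(2 * g / (k + g + ε + √((k - g) ^ 2 + 2 * ε * (k + g) + ε ^ 2)))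

/-- the homotopy from `sq ε` (at `t = 0`) to the identity (at `t = 1`) -/
noncomputable def hom (ε : ℝ) (q : ℝ × R4) : R4 := (1 - q.1) • sq ε q.2 + q.1 • q.2

/-- the general form of all our reparametrizations of `R4`: `α, β, h` as in `StS0` -/
noncomputable def tri (α : ℝ) (β : ℝ → ℝ) (h : ℝ → ℝ → ℝ) (p : R4) : R4 :=
  (1 / 2 + α * (p.1 - 1 / 2), β p.2.1, ((h p.2.1 (Complex.normSq p.2.2) : ℝ) : ℂ) * p.2.2)

/-! ## A0, A1, A2: the inverse function theorem -/

/-- **A0.** Inverse function theorem, in the form used everywhere.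
Proof. `→`: `F = Φ` on the open set `Φ.source`, `Φ` and `Φ.symm` are smooth (`contMDiffOn_iff_contDiffOn`),
`Φ.symm (Φ q) = q` near `p`; differentiate at `p` (chain rule): `D(Φ.symm) ∘ DF = id`, so `DF(p)` is
injective.  `←`: shrink `U` to the open set `U'` of the points `q ∈ U` where `fderiv ℝ F q` is injective,
i.e. (finite dimension) a `ContinuousLinearEquiv` (`LinearEquiv.ofInjectiveEndo`,
`LinearEquiv.toContinuousLinearEquiv`; openness: `fderiv` is continuous on `U`, and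
`ContinuousLinearEquiv.isOpen`, or: the determinant of `fderiv` is continuous and `≠ 0`).
`ContDiffAt.toOpenPartialHomeomorph` at `p` (with `n = 1` or `∞`), restricted to the open set `U'`, is an
open partial homeomorphism; its inverse is smooth at every point by
`OpenPartialHomeomorph.contDiffAt_symm` (`ContDiffAt ℝ ∞ F q` holds at all `q ∈ U'` because `U` is open
and `F` is `ContDiffOn ℝ ∞` on `U`).  Package as a `PartialDiffeomorph` using
`contMDiffOn_iff_contDiffOn`. -/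
def StA0 : Prop :=
  ∀ (V : Type) [NormedAddCommGroup V] [NormedSpace ℝ V] [FiniteDimensional ℝ V]
    (F : V → V) (p : V), IsLocalDiffeomorphAt 𝓘(ℝ, V) 𝓘(ℝ, V) ∞ F p ↔
      (∃ U : Set V, IsOpen U ∧ p ∈ U ∧ ContDiffOn ℝ ∞ F U) ∧ ∀ v, fderiv ℝ F p v = 0 → v = 0

/-- **A0f.** Families of germs in `R4` in terms of derivatives.
Proof. `A0` for each `t`, and `contMDiffOn_iff_contDiffOn`.  For `←`: for fixed `t ∈ [0,1]`, `p ∈ L` the map
`q ↦ J (t, q)` is `ContDiffOn` on the open set `{q | (t, q) ∈ W}`. -/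
def StA0f : Prop :=
  ∀ (J : ℝ × R4 → R4) (L : Set R4), FamOn 𝓘(ℝ, R4) J L ↔
    (∃ W : Set (ℝ × R4), IsOpen W ∧ Icc 0 1 ×ˢ L ⊆ W ∧ ContDiffOn ℝ ∞ J W) ∧
    ∀ t ∈ Icc (0 : ℝ) 1, (∀ p ∈ L, ∀ v, fderiv ℝ (fun p => J (t, p)) p v = 0 → v = 0) ∧
      InjOn (fun p => J (t, p)) L

/-- **A1.** Gluing: a germ of an embedding along a compact set is given by a partial diffeomorphism.
Proof. `F` is continuous at the points of `L` (`IsLocalDiffeomorphAt.contMDiffAt`) and injective near every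
point of `L` (it coincides with an injective `Φ` on `Φ.source`).  `Set.InjOn.exists_mem_nhdsSet` gives
`t ∈ 𝓝ˢ L` with `InjOn F t`.  Let `U = interior t ∩ {p | IsLocalDiffeomorphAt .. F p}`: open, `L ⊆ U`,
`F` injective and locally diffeomorphic on `U`.  `δ`: source `U`, target `F '' U` (open: near `p` it contains
`Φ '' (U ∩ Φ.source)`), `toFun = F`, `invFun = Function.invFunOn F U`; the inverse is smooth near `F p`
because it coincides there with `Φ.symm` (on the open set `Φ '' (U ∩ Φ.source)`, by injectivity on `U`). -/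
def StA1 : Prop :=
  ∀ (V : Type) [NormedAddCommGroup V] [NormedSpace ℝ V]
    (E : Type) [NormedAddCommGroup E] [NormedSpace ℝ E] (H : Type) [TopologicalSpace H]
    (I : ModelWithCorners ℝ E H) (M : Type) [TopologicalSpace M] [ChartedSpace H M] [T2Space M]
    (F : V → M) (L : Set V), IsCompact L → (∀ p ∈ L, IsLocalDiffeomorphAt 𝓘(ℝ, V) I ∞ F p) →
    InjOn F L → ∃ δ : PartialDiffeomorph 𝓘(ℝ, V) I V M ∞, L ⊆ δ.source ∧ ∀ p ∈ δ.source, δ p = F p

/-- **A2.** The map `(t, p) ↦ (t, J (t, p))` of a family of germs is a local diffeomorphism.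
Proof. Let `Φ₀` be the partial diffeomorphism with `J (t₀, ·) = Φ₀` on `Φ₀.source ∋ p₀`.
`G (t, p) = (t, Φ₀.symm (J (t, p)))` is defined and smooth on the open set
`W' = {(t, p) ∈ W | J (t, p) ∈ Φ₀.target}` (`J` is continuous on the open set `W`).  At `(t₀, p₀)` its
derivative is `(τ, v) ↦ (τ, τ c + v)` because `Φ₀.symm (J (t₀, p)) = p` for `p` near `p₀`: injective.  By `A0`
(for the space `ℝ × R4`) `G` is a local diffeomorphism at `(t₀, p₀)`.  Near `(t₀, p₀)` the map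
`q ↦ (q.1, J q)` is `(id × Φ₀) ∘ G`, and `id × Φ₀` is a partial diffeomorphism `ℝ × R4 → ℝ × M` (source
`univ ×ˢ Φ₀.source`); conclude with `IsLocalDiffeomorphAt.comp` (and congruence near the point; for the
product structures use `modelWithCornersSelf_prod`, `chartedSpaceSelf_prod`). -/
def StA2 : Prop :=
  ∀ (E : Type) [NormedAddCommGroup E] [NormedSpace ℝ E] (H : Type) [TopologicalSpace H]
    (I : ModelWithCorners ℝ E H) (M : Type) [TopologicalSpace M] [ChartedSpace H M]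
    (J : ℝ × R4 → M) (L : Set R4), FamOn I J L → ∀ q ∈ Icc (0 : ℝ) 1 ×ˢ L,
      IsLocalDiffeomorphAt 𝓘(ℝ, ℝ × R4) (𝓘(ℝ, ℝ).prod I) ∞ (fun q : ℝ × R4 => (q.1, J q)) q

/-- **A3. FAMILY LEMMA.** Proof. By `A2` and `A1` (for `ℝ × R4 → ℝ × M`, the compact set
`[0,1] × L`; the map `Ĵ (t, p) = (t, J (t, p))` is injective on it) there is a partial diffeomorphism `δ`
with `[0,1] × L ⊆ δ.source` and `δ = Ĵ` on `δ.source`.  Put
`F.f (t, y) = imp (J (step t, ·)) L T y`, `F.g (t, y) = imp (J (step t, ·)) L T' y` (`step` maps `ℝ` to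
`[0,1]`, `step 0 = 0`, `step 1 = 1`).  They are inverse to each other by the calculus `StImp` (`T` and `T'`
map `L` to itself, and `T' = id` off `L`).  Smoothness at `(t₀, y₀)`: if `(step t₀, y₀) ∈ δ.target`, then
near `(t₀, y₀)` we have `F.f (t, y) = (δ (q.1, T q.2)).2` with `q = δ.symm (step t, y)`: indeed
`q.1 = step t`, `J (step t, q.2) = y`; if `q.2 ∉ L` both sides are `y` (`y ∉ J(step t)(L)` by the injectivity of
`δ`), otherwise both are `J (step t, T q.2)`.  Here `(q.1, T q.2) ∈ δ.source` always (if `q.2 ∉ L` then it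
is `q`, otherwise it is in `[0,1] × L`), and `(t, y) ↦ (step t, y)`, `δ.symm`, `id × T`, `δ` are smooth.
If `(step t₀, y₀) ∉ δ.target` then `(step t₀, y₀)` is not in the compact (closed) set `δ '' ([0,1] × L)`,
and `F.f (t, y) = y` near `(t₀, y₀)`.  Compact support: the compact set `J '' ([0,1] × L)`. -/
def StA3 : Prop :=
  ∀ (E : Type) [NormedAddCommGroup E] [NormedSpace ℝ E] (H : Type) [TopologicalSpace H]
    (I : ModelWithCorners ℝ E H) (M : Type) [TopologicalSpace M] [ChartedSpace H M] [T2Space M]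
    (J : ℝ × R4 → M) (L : Set R4) (T T' : R4 → R4), IsCompact L → FamOn I J L → SDiff L T T' →
      CIsot I (imp (fun p => J (0, p)) L T) (imp (fun p => J (1, p)) L T)

/-! ## the calculus of `imp` (all elementary) -/

/-- **Imp.** (1) value on the image; (2) off the image; (3) enlarging the support; (4) products;
(5) `imp` = `push`; (6) congruence; (7) conjugation; (8) reparametrization.  Direct from the definition
(`h.choose_spec` and injectivity). -/
def StImp : Prop :=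
  ∀ (E : Type) [NormedAddCommGroup E] [NormedSpace ℝ E] (H : Type) [TopologicalSpace H]
    (I : ModelWithCorners ℝ E H) (M : Type) [TopologicalSpace M] [ChartedSpace H M] [T2Space M]
    (F : R4 → M) (K : Set R4) (T : R4 → R4), InjOn F K →
      (∀ p ∈ K, imp F K T (F p) = F (T p)) ∧
      (∀ y, y ∉ F '' K → imp F K T y = y) ∧
      (∀ K₀ ⊆ K, (∀ p, p ∉ K₀ → T p = p) → imp F K T = imp F K₀ T) ∧
      (∀ S : R4 → R4, MapsTo T K K → ∀ y, imp F K (fun p => S (T p)) y = imp F K S (imp F K T y)) ∧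
      (∀ δ : PartialDiffeomorph 𝓘(ℝ, R4) I R4 M ∞, K ⊆ δ.source → (∀ p ∈ K, δ p = F p) →
        MapsTo T K K → (∀ p, p ∉ K → T p = p) → imp F K T = push δ T) ∧
      (∀ F' : R4 → M, EqOn F F' K → MapsTo T K K → imp F K T = imp F' K T) ∧
      (∀ Ψ Ψ' : M → M, (∀ x, Ψ (Ψ' x) = x) → (∀ x, Ψ' (Ψ x) = x) →
        ∀ y, imp (fun p => Ψ (F p)) K T y = Ψ (imp F K T (Ψ' y))) ∧
      (∀ (κ : R4 → R4) (L : Set R4), InjOn κ L → κ '' L = K → MapsTo T L L →
        imp (fun p => F (κ p)) L T = imp F K (imp κ L T))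

/-- **Push.** Pushing forward an isotopy.  Proof. `A1` gives `δ`; `imp F L (Φ.f (t, ·)) = push δ ..` by
`StImp` (5) (`DFam.mapsTo`); take `DFam.push`; support in `F '' L` (compact) by `push_of_notMem`. -/
def StPush : Prop :=
  ∀ (E : Type) [NormedAddCommGroup E] [NormedSpace ℝ E] (H : Type) [TopologicalSpace H]
    (I : ModelWithCorners ℝ E H) (M : Type) [TopologicalSpace M] [ChartedSpace H M] [T2Space M]
    (F : R4 → M) (L : Set R4) (Φ : DFam 𝓘(ℝ, R4) R4), IsCompact L → EmbOn I F L →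
      (∀ t p, p ∉ L → Φ.f (t, p) = p) →
      CIsot I (imp F L (fun p => Φ.f (0, p))) (imp F L (fun p => Φ.f (1, p)))

/-- **CI.** Algebra of compactly supported isotopy.  Proof: as for `Isot` (Helper65/Barb/Iso.lean), keeping
track of the supports (unions of two compact sets; for `trans` the family `G_t ∘ F_1⁻¹ ∘ F_t`; for `inv`:
`x = F.f (t, x)` gives `F.g (t, x) = x`; for `conj` the support is `Ψ '' C`; `M` compact: take `C = univ`). -/
def StCI : Prop :=
  ∀ (E : Type) [NormedAddCommGroup E] [NormedSpace ℝ E] (H : Type) [TopologicalSpace H]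
    (I : ModelWithCorners ℝ E H) (M : Type) [TopologicalSpace M] [ChartedSpace H M],
      CIsot I (fun x : M => x) (fun x => x) ∧
      (∀ φ ψ : M → M, CIsot I φ ψ → CIsot I ψ φ) ∧
      (∀ φ ψ : M → M, CIsot I φ ψ → CIsot I φ φ) ∧
      (∀ φ ψ χ : M → M, CIsot I φ ψ → CIsot I ψ χ → CIsot I φ χ) ∧
      (∀ φ ψ φ' ψ' : M → M, CIsot I φ ψ → CIsot I φ' ψ' →
        CIsot I (fun x => φ (φ' x)) (fun x => ψ (ψ' x))) ∧
      (∀ φ ψ φ' ψ' : M → M, CIsot I φ ψ → (∀ x, φ (φ' x) = x) → (∀ x, ψ (ψ' x) = x) →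
        CIsot I φ' ψ') ∧
      (∀ φ : M → M, CIsot I φ φ → ∃ φ', CIsot I φ' φ' ∧ (∀ x, φ (φ' x) = x) ∧
        ∀ x, φ' (φ x) = x) ∧
      (∀ φ ψ Ψ Ψ' : M → M, CIsot I φ ψ → ContMDiff I I ∞ Ψ → ContMDiff I I ∞ Ψ' →
        (∀ x, Ψ (Ψ' x) = x) → (∀ x, Ψ' (Ψ x) = x) →
        CIsot I (fun x => Ψ (φ (Ψ' x))) (fun x => Ψ (ψ (Ψ' x)))) ∧
      (∀ φ ψ : M → M, CIsot I φ ψ → Isot I φ ψ) ∧
      (CompactSpace M → ∀ φ ψ : M → M, Isot I φ ψ → CIsot I φ ψ)

/-! ## S: the compression -/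

/-- **S0.** The map `tri α β h` is injective and a local diffeomorphism.  Here `h' a k` is the partial
derivative in the second variable.
Proof. Injective: the first two coordinates are injective (`β` is strictly monotone since its derivative is
positive); for fixed `a` the map `w ↦ h(a,|w|²) w` is injective: `r ↦ h(a,r²) r` has derivative
`h + 2 r² h' > 0` for `r ≥ 0`, so it is strictly increasing on `[0,∞)`, and `h > 0`.
Local diffeomorphism by `A0`: the derivative at `(s,a,w)` in the direction `(σ,α',v)` is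
`(α σ, β'(a) α', h v + (c α' + 2 h' ⟨w,v⟩) w)` with `c` the partial derivative of `h` in `a`; if it vanishes
then `σ = 0`, `α' = 0`, `h v + 2 h' ⟨w,v⟩ w = 0`; inner product with `w`: `(h + 2|w|² h') ⟨w,v⟩ = 0`, so
`⟨w,v⟩ = 0` and `v = 0`. -/
def StS0 : Prop :=
  ∀ (α : ℝ) (β β' : ℝ → ℝ) (h h' : ℝ → ℝ → ℝ) (O : Set (ℝ × ℝ)), 0 < α → ContDiff ℝ ∞ β →
    (∀ a, HasDerivAt β (β' a) a) → (∀ a, 0 < β' a) → IsOpen O → (∀ a k, 0 ≤ k → (a, k) ∈ O) →
    ContDiffOn ℝ ∞ (fun x : ℝ × ℝ => h x.1 x.2) O →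
    (∀ a k, 0 ≤ k → HasDerivAt (h a) (h' a k) k) →
    (∀ a k, 0 ≤ k → 0 < h a k ∧ 0 < h a k + 2 * k * h' a k) →
    EmbOn 𝓘(ℝ, R4) (tri α β h) univ

/-- **S1.** The function `ff`.  With `S = k + g + ε`, `R = √((k-g)²+2ε(k+g)+ε²)` one has
`R² = S² - 4gk > 0`, `R < S` if `k > 0`, and `X = k ff² = 2gk/(S+R) = (S-R)/2`, the smaller root of
`(k - X)(g - X) = ε X`.
Proof. `R² = (k-g)² + 2ε(k+g) + ε² ≥ ε² > 0`.  `ff ≤ 1` because `2g ≤ S + R` (`R ≥ |k - g|`, so
`S + R ≥ k + g + (g - k) = 2g`).  `ff² (S+R) = 2g`.  For the derivative: `dR/dk = (S - 2g)/R` and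
`ff² = 2g/(S+R)`, so `(ff²)' = -2g(1 + (S-2g)/R)/(S+R)²`; `ff² + k (ff²)' = X' = (1 - (S-2g)/R)/2 > 0`
because `(S-2g)² < R² = S² - 4gk` (equivalent to `g + k < S`, i.e. `0 < ε`).  As
`ff (ff + 2 k ff') = ff² + k (ff²)'` and `ff > 0`, the last claim follows. -/
def StS1 : Prop :=
  ∀ ε g k : ℝ, 0 < ε → 0 < g → 0 ≤ k →
    0 < ff ε g k ∧ ff ε g k ≤ 1 ∧
    (k - k * ff ε g k ^ 2) * (g - k * ff ε g k ^ 2) = ε * (k * ff ε g k ^ 2) ∧
    k * ff ε g k ^ 2 < g ∧
    ∃ d, HasDerivAt (ff ε g) d k ∧ 0 < ff ε g k + 2 * k * d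

/-- **S2.** Smoothness for `ε > 0`; the profile is positive, the axial function is smooth with positive
derivative; `fac` is smooth on an open set containing `{k ≥ 0}`; `sq` is smooth in `(ε, p)` jointly.
Proof. All radicands are positive: `(1/25 - a²)² + ε² > 0`; `u + √(u²+ε²) > 0`; in `fac` the radicand
`(k-g)²+2ε(k+g)+ε² = (k + g + ε)² - 4 g k` is positive for `k ≥ 0`, hence on the open set
`O = {(a,k) | 0 < (k-g)²+2ε(k+g)+ε², 0 < k + g + ε + √..}` (openness by continuity), which contains `k ≥ 0`;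
`Real.sqrt` is smooth at positive numbers (`ContDiffAt.sqrt`).  `axc' = (u/√(u²+ε²) - v/√(v²+ε²))/2` with
`u = a + 1/5 > v = a - 6/5`, and `u ↦ u/√(u²+ε²)` is strictly increasing (derivative `ε²/(u²+ε²)^{3/2}`). -/
def StS2 : Prop :=
  (∀ ε a : ℝ, 0 < ε → 0 < prof ε a) ∧
  (∀ ε : ℝ, 0 < ε → ContDiff ℝ ∞ (axc ε) ∧ ∃ d : ℝ → ℝ, ∀ a, HasDerivAt (axc ε) (d a) a ∧ 0 < d a) ∧
  (∀ ε : ℝ, 0 < ε → ∃ O : Set (ℝ × ℝ), IsOpen O ∧ (∀ a k, 0 ≤ k → (a, k) ∈ O) ∧
    ContDiffOn ℝ ∞ (fun x : ℝ × ℝ => fac ε x.1 x.2) O) ∧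
  ContDiffOn ℝ ∞ (fun q : ℝ × R4 => sq q.1 q.2) (Ioi 0 ×ˢ univ)

/-- **S3.** Joint continuity up to `ε = 0`.
Proof. `prof` and `axc` are continuous on `ℝ × ℝ`.  The third component of `sq` is `fac · w` with
`0 ≤ fac ≤ 1` for `ε ≥ 0` (`2g ≤ k + g + ε + √(..)` as `√(..) ≥ |k - g|`; if `g = 0` then `fac = 0`): at a point
`(ε₀, (s₀, a₀, 0))` continuity follows from `‖fac · w‖ ≤ ‖w‖`; at a point with `w₀ ≠ 0` the denominator
`k + g + ε + √(..) ≥ k > 0`, so `fac` is continuous there. -/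
def StS3 : Prop := ContinuousOn (fun q : ℝ × R4 => sq q.1 q.2) (Ici 0 ×ˢ univ)

/-- **S4.** The limit `ε = 0`: `axc 0 a` is the clamp of `a` to `[-1/5, 6/5]`;
`prof 0 a = max 0 (1/25-a²) + max 0 (1/25-(a-1)²) =: g`; `fac 0 a k = √(2g/(k+g+|k-g|))`, so
`k fac² = min k g`.
(i) `sq 0` maps `Ext` to `SP`; (ii) `sq 0` maps everything to `FB`; (iii) `sq 0 p = (1/2, p.2)` on the two
solid tubes of radius `1/5` and over the axis `[1/5, 4/5]`, in particular `sq 0 p = p` on `FB`; (iv) for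
`p ∈ bsupp` the segment from `sq 0 p` to `p` lies in `EB`.
Proof. (i) if `|a| ≤ 1/5`: `|w|² ≥ 1/25 - a² = g`, so the new `|w|²` is `g` and the point is on `sph 0`
(`rsq 0 = a² + |w|²`); same near `1`; if `1/5 ≤ a ≤ 4/5`: `g = 0`, `w ↦ 0`, on `neck`; if `a ≤ -1/5`:
`(1/2,-1/5,0) ∈ sph 0`; if `a ≥ 6/5`: `(1/2,6/5,0) ∈ sph 1`.  (ii) the same with `≤`.  (iii) if
`rsq 0 p ≤ 1/25` then `|a| ≤ 1/5` and `k ≤ g`, so `fac = √(2g/(2g)) = 1` or (if `g = 0`) `k = 0`, `w = 0`.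
(iv) coordinates `(s', a', w')` of `(1-t) sq 0 p + t p`: if `|a| ≤ 1/5` then `a' = a`, `w' = m w` with
`|w'|` between `√g` and `|w|`, so `rsq 0 ≥ 1/25`, and `rsq 1 ≥ (1 - a)² ≥ 1/25`; similarly near `1`; if
`1/5 ≤ a ≤ 4/5` then `a' = a`; if `a ≤ -1/5` then `a' ≤ -1/5`; if `a ≥ 6/5` then `a' ≥ 6/5`.  `ball4`: `ball4` is
convex and contains both ends (`|sq 0 p| ≤ 6/5`). -/
def StS4 : Prop :=
  (∀ p ∈ Ext, sq 0 p ∈ SP) ∧ (∀ p, sq 0 p ∈ FB) ∧
  (∀ p : R4, rsq 0 p ≤ 1 / 25 ∨ rsq 1 p ≤ 1 / 25 ∨ (1 / 5 ≤ p.2.1 ∧ p.2.1 ≤ 4 / 5 ∧ p.2.2 = 0) →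
    sq 0 p = (1 / 2, p.2)) ∧
  (∀ p ∈ FB, sq 0 p = p) ∧
  (∀ p ∈ bsupp, ∀ t ∈ Icc (0 : ℝ) 1, hom 0 (t, p) ∈ EB) ∧ SP ⊆ EB ∧ bsupp ⊆ EB ∧ EB ⊆ NB ∧
  IsCompact SP ∧ IsCompact FB ∧ IsCompact EB

/-- **S5.** The tube lemma.  Proof. `(ε, t, p) ↦ (t, hom ε (t, p))` is continuous on
`[0,∞) × [0,1] × K` by `S3` and maps the compact set `{0} × [0,1] × K` into the open set `U`; generalized
tube lemma. -/
def StS5 : Prop :=
  ∀ (K : Set R4) (U : Set (ℝ × R4)), IsCompact K → IsOpen U →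
    ((∀ t ∈ Icc (0 : ℝ) 1, ∀ p ∈ K, (t, sq 0 p) ∈ U) →
      ∃ ε₀ > 0, ∀ ε ∈ Ioo 0 ε₀, ∀ t ∈ Icc (0 : ℝ) 1, ∀ p ∈ K, (t, sq ε p) ∈ U) ∧
    ((∀ t ∈ Icc (0 : ℝ) 1, ∀ p ∈ K, (t, hom 0 (t, p)) ∈ U) →
      ∃ ε₀ > 0, ∀ ε ∈ Ioo 0 ε₀, ∀ t ∈ Icc (0 : ℝ) 1, ∀ p ∈ K, (t, hom ε (t, p)) ∈ U)

/-- **S6.** `sq ε` and all stages of the homotopy to the identity are injective local diffeomorphisms; the
homotopy is smooth.  Proof. `sq ε = tri ε (axc ε) (fac ε)` and
`hom ε (t, ·) = tri ((1-t)ε+t) ((1-t) axc ε + t id) ((1-t) fac ε + t)`; the hypotheses of `S0` hold for `sq ε` by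
`S1`, `S2` and for the identity, and they are preserved by convex combinations (all the inequalities are
linear in `(α, β', h, h')`).  Smoothness in `(t,p)` from `S2`. -/
def StS6 : Prop :=
  (∀ ε : ℝ, 0 < ε → EmbOn 𝓘(ℝ, R4) (sq ε) univ) ∧
  (∀ ε : ℝ, 0 < ε → ContDiff ℝ ∞ (hom ε)) ∧
  ∀ ε : ℝ, 0 < ε → ∀ t ∈ Icc (0 : ℝ) 1, EmbOn 𝓘(ℝ, R4) (fun p => hom ε (t, p)) univ

/-! ## T: the thin lemma -/

/-- **T1.** Four families.  `L` compact, `K` compact.
(i) if `sq 0` maps `K` into `L` and `J` is a family of germs along `L` then for small `ε` the maps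
`J_t ∘ sq ε` form a family of germs along `K`;
(ii) if all the segments `hom 0 (t, p)`, `p ∈ K`, are in `L` and `F` is a germ along `L` then
`F ∘ hom ε (t, ·)` is a family of germs along `K`;
(iii) if `sq 0` maps `K` into `L` then `F ∘ sq ((1-t)ε₁ + t ε₂)` is a family of germs along `K`;
(iv) if `m : R4 → R4` is a germ along `K` with `m(K) ⊆ L ⊆ FB` then `F ∘ hom ε (t, ·) ∘ m` is a family of
germs along `K`.
Proof. `A2`, `A1` for `Ĵ` along `[0,1] × L` (in (ii)-(iv) with the constant family `J (t, p) = F p`) give an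
open set `U ⊇ [0,1] × L` on which `J` is smooth, `Ĵ` injective, and each `J_t` (`(t,p) ∈ U`, `t ∈ [0,1]`) is
a local diffeomorphism at `p` (openness of this condition near `[0,1] × L`: the differential of `Ĵ` is block
triangular; simpler: `Ĵ = δ` on `δ.source`, so `p ↦ J (t,p)` composed with the inverse
`y ↦ (δ.symm (t, y)).2` is the identity on both sides, so it is a partial diffeomorphism
from `{p | (t,p) ∈ δ.source}` to `{y | (t,y) ∈ δ.target}`).  For small `ε` the sets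
`{(t, sq ε p)}` resp. `{(t, hom ε (t,p))}` are in `U` by `S5` (for (iv) apply `S5` to the compact set `m '' K`,
on which `hom 0 (t, q) = q` by `S4` (iii), since `hom 0 (t,q) = (1-t) q + t q`).  Compose with the
injective local diffeomorphisms of `S6`; smoothness in all variables from `S2`, `S6`. -/
def StT1 : Prop :=
  ∀ (E : Type) [NormedAddCommGroup E] [NormedSpace ℝ E] (H : Type) [TopologicalSpace H]
    (I : ModelWithCorners ℝ E H) (M : Type) [TopologicalSpace M] [ChartedSpace H M] [T2Space M]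
    (L K : Set R4), IsCompact L → IsCompact K →
    ((∀ p ∈ K, sq 0 p ∈ L) → ∀ J : ℝ × R4 → M, FamOn I J L →
      ∃ ε₀ > 0, ∀ ε ∈ Ioo 0 ε₀, FamOn I (fun q => J (q.1, sq ε q.2)) K) ∧
    ((∀ p ∈ K, ∀ t ∈ Icc (0 : ℝ) 1, hom 0 (t, p) ∈ L) → ∀ F : R4 → M, EmbOn I F L →
      ∃ ε₀ > 0, ∀ ε ∈ Ioo 0 ε₀, FamOn I (fun q => F (hom ε q)) K) ∧
    ((∀ p ∈ K, sq 0 p ∈ L) → ∀ F : R4 → M, EmbOn I F L →
      ∃ ε₀ > 0, ∀ ε₁ ∈ Ioo 0 ε₀, ∀ ε₂ ∈ Ioo 0 ε₀,
        FamOn I (fun q => F (sq ((1 - q.1) * ε₁ + q.1 * ε₂) q.2)) K) ∧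
    (L ⊆ FB → ∀ F : R4 → M, EmbOn I F L → ∀ m : R4 → R4, EmbOn 𝓘(ℝ, R4) m K → MapsTo m K L →
      ∃ ε₀ > 0, ∀ ε ∈ Ioo 0 ε₀, FamOn I (fun q => F (hom ε (q.1, m q.2))) K)

/-- **T2.** The implantation class of a germ.  (i) existence; (ii) uniqueness; (iii) invariance under
families; (iv) it is a class; (v) locality; (vi) naturality; (vii) representatives are diffeomorphisms with
compact support.
Proof. `barMap` satisfies `SDiff bsupp barMap barMap⁻¹`.  (i) `T1` (iii) with `K = bsupp`, `L = SP`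
(`S4` (i)) and `A3`: all `imp (F ∘ sq ε) bsupp barMap` with `ε < ε₀` are isotopic; each `F ∘ sq ε` is
`EmbOn` by `T1` (members of a family at `t = 0`).  (ii) evaluate both at a small `ε`.  (iii) `T1` (i) with
`K = bsupp`, `L = SP`, then `A3`.  (iv) `CI`.  (v) for small `ε`, `sq ε` maps `bsupp` into the open set `U`,
so `F ∘ sq ε = F' ∘ sq ε` near every point of `bsupp` (`StImp` (6) and congruence of
`IsLocalDiffeomorphAt`).  (vi) `StImp` (7), `CI`, and `Ψ` composed with a local diffeomorphism is a local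
diffeomorphism.  (vii) `CI`: `CIsot φ ψ → CIsot φ φ`. -/
def StT2 : Prop :=
  ∀ (E : Type) [NormedAddCommGroup E] [NormedSpace ℝ E] (H : Type) [TopologicalSpace H]
    (I : ModelWithCorners ℝ E H) (M : Type) [TopologicalSpace M] [ChartedSpace H M] [T2Space M],
    (∀ F : R4 → M, EmbOn I F SP → ∃ ε₀ > 0, ∀ ε ∈ Ioo 0 ε₀,
      Thin I F (imp (F ∘ sq ε) bsupp barMap)) ∧
    (∀ (F : R4 → M) (φ ψ : M → M), Thin I F φ → Thin I F ψ → CIsot I φ ψ) ∧
    (∀ (J : ℝ × R4 → M) (φ : M → M), FamOn I J SP → Thin I (fun p => J (0, p)) φ →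
      Thin I (fun p => J (1, p)) φ) ∧
    (∀ (F : R4 → M) (φ ψ : M → M), Thin I F φ → CIsot I φ ψ → Thin I F ψ) ∧
    (∀ (F F' : R4 → M) (U : Set R4) (φ : M → M), IsOpen U → SP ⊆ U → EqOn F F' U →
      Thin I F φ → Thin I F' φ) ∧
    (∀ (F : R4 → M) (φ Ψ Ψ' : M → M), ContMDiff I I ∞ Ψ → ContMDiff I I ∞ Ψ' →
      (∀ x, Ψ (Ψ' x) = x) → (∀ x, Ψ' (Ψ x) = x) → Thin I F φ →
      Thin I (fun p => Ψ (F p)) (fun x => Ψ (φ (Ψ' x)))) ∧
    (∀ (F : R4 → M) (φ : M → M), Thin I F φ → CIsot I φ φ)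

/-- **T3.** The class of an embedding of the whole exterior is its thin class.
Proof. `T1` (ii) with `K = bsupp`, `L = EB` (`S4` (iv)): for small `ε` the family `F ∘ hom ε (t, ·)` joins
`F ∘ sq ε` to `F`; `A3`. -/
def StT3 : Prop :=
  ∀ (E : Type) [NormedAddCommGroup E] [NormedSpace ℝ E] (H : Type) [TopologicalSpace H]
    (I : ModelWithCorners ℝ E H) (M : Type) [TopologicalSpace M] [ChartedSpace H M] [T2Space M]
    (F : R4 → M), EmbOn I F EB → Thin I F (imp F bsupp barMap)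

/-- **T4.** The bridge to the implantations in the 4-sphere.
Proof. `B` is `EmbOn EB` as `EB ⊆ NB ⊆ B.source`.  `T3` and `StImp` (5): `imp B bsupp barMap = push B barMap`.
`isot_push_barbellMap` and `isBarbellMap_barMap`: `push B barMap` and `push B β` are isotopic, hence
compactly supported isotopic (`CI`, the sphere is compact); `implantation_eq_push`. -/
def StT4 : Prop :=
  ∀ (B : PartialDiffeomorph 𝓘(ℝ, R4) (𝓡 4) R4 S4 ∞) (β : R4 → R4), NB ⊆ B.source →
    IsBarbellMap β → EmbOn (𝓡 4) B SP ∧ Thin (𝓡 4) B (implantation B β)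

/-- **T5.** Removing an intermediate compression.
Proof. `T1` (iv) with `K = SP`: for small `ε` the family `F ∘ hom ε (t, ·) ∘ m` along `SP` joins
`F ∘ sq ε ∘ m` to `F ∘ m`; `T2` (iii) in both directions (reverse the time). -/
def StT5 : Prop :=
  ∀ (E : Type) [NormedAddCommGroup E] [NormedSpace ℝ E] (H : Type) [TopologicalSpace H]
    (I : ModelWithCorners ℝ E H) (M : Type) [TopologicalSpace M] [ChartedSpace H M] [T2Space M]
    (F : R4 → M) (m : R4 → R4) (L : Set R4), IsCompact L → L ⊆ FB → EmbOn I F L →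
    EmbOn 𝓘(ℝ, R4) m SP → MapsTo m SP L → ∃ ε₀ > 0, ∀ ε ∈ Ioo 0 ε₀, ∀ φ : M → M,
      (Thin I (fun p => F (sq ε (m p))) φ ↔ Thin I (fun p => F (m p)) φ)

/-- **T6.** Larger supports, and compression of a germ along a compact subset of `FB`: for `K` compact with
`sq 0 (K) ⊆ L`, `F ∘ sq ε` is `EmbOn K` for all small `ε`; for `bsupp ⊆ K` the implantation does not change.
Proof. `T1` (iii) at `t = 0`; `StImp` (3), `barMap_off`. -/
def StT6 : Prop :=
  ∀ (E : Type) [NormedAddCommGroup E] [NormedSpace ℝ E] (H : Type) [TopologicalSpace H]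
    (I : ModelWithCorners ℝ E H) (M : Type) [TopologicalSpace M] [ChartedSpace H M] [T2Space M]
    (F : R4 → M) (K L : Set R4), IsCompact K → IsCompact L → (∀ p ∈ K, sq 0 p ∈ L) → EmbOn I F L →
    ∃ ε₀ > 0, ∀ ε ∈ Ioo 0 ε₀, EmbOn I (F ∘ sq ε) K ∧
      (bsupp ⊆ K → imp (F ∘ sq ε) K barMap = imp (F ∘ sq ε) bsupp barMap)

/-- **T7.** Ambient isotopy does not change the class.
Proof. `J (t, p) = Ψ.f (t, F p)` is a family of germs along `SP`; `T2` (iii) (and (ii), (vii)). -/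
def StT7 : Prop :=
  ∀ (E : Type) [NormedAddCommGroup E] [NormedSpace ℝ E] (H : Type) [TopologicalSpace H]
    (I : ModelWithCorners ℝ E H) (M : Type) [TopologicalSpace M] [ChartedSpace H M] [T2Space M]
    (F : R4 → M) (Ψ : DFam I M) (φ : M → M), EmbOn I F SP →
    (Thin I (fun p => Ψ.f (0, F p)) φ ↔ Thin I (fun p => Ψ.f (1, F p)) φ)

/-- **T8.** Germs in `R4` with the same values on the spine and derivatives joined by a segment of
invertible maps have the same class; in particular the class depends on the 1-jet along `SP` only.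
Proof. `J (t, p) = (1-t) F p + t G p` is a family along `SP` (`A0f`): on `SP` it is `F`, injective; its
derivative at `p ∈ SP` is `(1-t) DF(p) + t DG(p)`, injective by assumption; smooth near `SP`.  `T2` (iii) in
both directions. -/
def StT8 : Prop :=
  ∀ (F G : R4 → R4), EmbOn 𝓘(ℝ, R4) F SP → EmbOn 𝓘(ℝ, R4) G SP → EqOn F G SP →
    (∀ p ∈ SP, ∀ t ∈ Icc (0 : ℝ) 1, ∀ v,
      (1 - t) • fderiv ℝ F p v + t • fderiv ℝ G p v = 0 → v = 0) →
    ∀ φ, (Thin 𝓘(ℝ, R4) F φ ↔ Thin 𝓘(ℝ, R4) G φ)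

/-! ## X: transfer from `R4` to a manifold along an open embedding, the 4-sphere -/

/-- **X1.** Transfer along an injective local diffeomorphism `c : R4 → M` (extension by the identity is
`imp c univ`).
Proof. `CIsot`: `F : DFam` with support in a compact `C`; `StPush` for `c` and `L = C`, and
`imp c univ φ = imp c C φ` (`StImp` (3)).  `Thin`: `imp c univ (imp (F ∘ sq ε) bsupp barMap) =
imp (c ∘ F ∘ sq ε) bsupp barMap` (direct) and `c ∘ F ∘ sq ε` is `EmbOn bsupp` (`IsLocalDiffeomorphAt.comp`).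
`InN`: induction, using that `imp c univ` is multiplicative; generators: `EmbOn`, `Thin`, `BoundsOff` are
transported by composition with the injective local diffeomorphism `c`. -/
def StX1 : Prop :=
  ∀ (E : Type) [NormedAddCommGroup E] [NormedSpace ℝ E] (H : Type) [TopologicalSpace H]
    (I : ModelWithCorners ℝ E H) (M : Type) [TopologicalSpace M] [ChartedSpace H M] [T2Space M]
    (c : R4 → M), EmbOn I c univ →
    (∀ φ ψ : R4 → R4, CIsot 𝓘(ℝ, R4) φ ψ → CIsot I (imp c univ φ) (imp c univ ψ)) ∧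
    (∀ (F : R4 → R4) (L : Set R4), EmbOn 𝓘(ℝ, R4) F L → EmbOn I (c ∘ F) L) ∧
    (∀ (F : R4 → R4) (φ : R4 → R4), Thin 𝓘(ℝ, R4) F φ → Thin I (c ∘ F) (imp c univ φ)) ∧
    (∀ φ ψ : R4 → R4, ∀ y, imp c univ (fun p => φ (ψ p)) y = imp c univ φ (imp c univ ψ y)) ∧
    (∀ φ : R4 → R4, InN 𝓘(ℝ, R4) φ → InN I (imp c univ φ))

/-- **X2.** A chart of the 4-sphere missing the spines of two barbells.
Proof. `B '' SP` and `B' '' SP` are compact with empty interior (`SP` has empty interior, as it is contained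
in the hyperplane `s = 1/2`, and `B` is an open embedding near `SP`), so their union is not `univ`
(`IsClosed` + `interior_union_isClosed_of_interior_empty`); let `v` be a point of the complement.  `c` is the
inverse of the stereographic projection from `v` (`chartAt` of the antipode, target `univ`, source `{v}ᶜ`;
`contMDiffOn_chart`, `contMDiffOn_chart_symm` or `contMDiffOn_extChartAt_symm`), composed with a linear
isomorphism `R4 ≃ EuclideanSpace ℝ (Fin 4)` (equal dimensions). -/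
def StX2 : Prop :=
  ∀ (B B' : PartialDiffeomorph 𝓘(ℝ, R4) (𝓡 4) R4 S4 ∞), SP ⊆ B.source → SP ⊆ B'.source →
    ∃ c : R4 → S4, EmbOn (𝓡 4) c univ ∧ B '' SP ⊆ range c ∧ B' '' SP ⊆ range c

/-- **X3.** Lifting a germ along `c`.  Proof. `F = c⁻¹ ∘ B` where `c⁻¹` is a left inverse of `c` on its open
image (`Function.invFun c`), locally equal to the inverse of a partial diffeomorphism. -/
def StX3 : Prop :=
  ∀ (E : Type) [NormedAddCommGroup E] [NormedSpace ℝ E] (H : Type) [TopologicalSpace H]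
    (I : ModelWithCorners ℝ E H) (M : Type) [TopologicalSpace M] [ChartedSpace H M] [T2Space M]
    (c : R4 → M) (B : R4 → M) (L : Set R4), EmbOn I c univ → EmbOn I B L → B '' L ⊆ range c →
    EmbOn 𝓘(ℝ, R4) (fun p => Function.invFun c (B p)) L ∧
      ∃ U : Set R4, IsOpen U ∧ L ⊆ U ∧ ∀ p ∈ U, c (Function.invFun c (B p)) = B p

/-! ## N: the subgroup N -/

/-- **N1.** Every element of `N` is a diffeomorphism with compact support; `N` is normal in the group of
all diffeomorphisms.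
Proof. Induction.  `one`: the support of `x ↦ x` is empty.  `gen`: `T2` (vii); conjugation: `T2` (vi), and
`Ψ ∘ F` is `EmbOn SP`, half split (compose the ball with `Ψ`).  `mul`, `inv`, `isot`: `CI`. -/
def StN1 : Prop :=
  ∀ (E : Type) [NormedAddCommGroup E] [NormedSpace ℝ E] (H : Type) [TopologicalSpace H]
    (I : ModelWithCorners ℝ E H) (M : Type) [TopologicalSpace M] [ChartedSpace H M] [T2Space M],
    (∀ φ : M → M, InN I φ → CIsot I φ φ) ∧
    (∀ φ Ψ Ψ' : M → M, InN I φ → ContMDiff I I ∞ Ψ → ContMDiff I I ∞ Ψ' → (∀ x, Ψ (Ψ' x) = x) →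
      (∀ x, Ψ' (Ψ x) = x) → InN I (fun x => Ψ (φ (Ψ' x)))) ∧
    (∀ φ n : M → M, InN I n → CIsot I φ φ → ∃ n', InN I n' ∧ ∀ x, φ (n x) = n' (φ x))

end Pool.Agent.Helper18.BI


end

/-! ## Helper18.BI.StF -/

section

/-!
# Project BI (MP_8e98f2_gt), part (F): the main theorem and the assembly
-/

set_option autoImplicit false

open scoped Manifold ContDiff Topology ComplexConjugate
open Set Pool.Agent.Helper65.Barb

namespace Pool.Agent.Helper18.BI

/-- **MAIN (stage 1), for `R4`.** Two germs along the spine which agree near the two cuffs have the same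
implantation class modulo `N`.  (Proved by parts (B), (D).) -/
def StMain : Prop :=
  ∀ (F F' φ φ' : R4 → R4) (U : Set R4), EmbOn 𝓘(ℝ, R4) F SP → EmbOn 𝓘(ℝ, R4) F' SP →
    IsOpen U → sph 0 ∪ sph 1 ⊆ U → EqOn F F' U → Thin 𝓘(ℝ, R4) F φ → Thin 𝓘(ℝ, R4) F' φ' →
    ∃ n, InN 𝓘(ℝ, R4) n ∧ CIsot 𝓘(ℝ, R4) φ' (fun x => n (φ x))

/-! ### the statement for the 4-sphere -/

/-- The subgroup `N` of the group of diffeomorphisms of the 4-sphere (closed under isotopy), generated by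
the implantations of the barbells one of whose cuffs bounds an embedded 3-ball disjoint from the other
cuff.  The cuffs of `B` are the spheres `B '' sph 0` and `B '' sph 1`; the 3-ball is `δ '' flat c`. -/
inductive NSub : (S4 → S4) → Prop
  | one : NSub (fun x => x)
  | gen (B : PartialDiffeomorph 𝓘(ℝ, R4) (𝓡 4) R4 S4 ∞) (β : R4 → R4) (c d : ℝ)
      (δ : PartialDiffeomorph 𝓘(ℝ, R4) (𝓡 4) R4 S4 ∞) : NB ⊆ B.source → IsBarbellMap β →
      (c = 0 ∧ d = 1 ∨ c = 1 ∧ d = 0) → flat c ⊆ δ.source → (∀ p ∈ sph c, δ p = B p) →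
      Disjoint (δ '' flat c) (B '' sph d) → NSub (implantation B β)
  | mul (φ ψ : S4 → S4) : NSub φ → NSub ψ → NSub (fun x => φ (ψ x))
  | inv (φ ψ : S4 → S4) : NSub φ → (∀ x, φ (ψ x) = x) → (∀ x, ψ (φ x) = x) → NSub ψ
  | isot (φ ψ : S4 → S4) : NSub φ → Isot (𝓡 4) φ ψ → NSub ψ

/-- **BAR INDEPENDENCE modulo `N`.** -/
def StFinal1 : Prop :=
  ∀ (B B' : PartialDiffeomorph 𝓘(ℝ, R4) (𝓡 4) R4 S4 ∞) (β β' : R4 → R4), NB ⊆ B.source →
    NB ⊆ B'.source → IsBarbellMap β → IsBarbellMap β' →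
    (∀ p ∈ Shell 0 (1 / 5) ∪ Shell 1 (1 / 5), B' p = B p) →
    ∃ n, NSub n ∧ Isot (𝓡 4) (implantation B' β') (fun x => n (implantation B β x))

/-! ### realization of a germ by a barbell -/

/-- the function `∫₀ˣ step`: zero for `x ≤ 0`, derivative `step x ∈ [0,1]` -/
noncomputable def ramp (x : ℝ) : ℝ := ∫ t in (0 : ℝ)..x, step t

/-- the axial function: the identity on `[-1/5, 6/5]`, slope `ε` far outside -/
noncomputable def bet (ε a : ℝ) : ℝ :=
  a - (1 - ε) * ε * ramp ((a - 6 / 5) / ε) + (1 - ε) * ε * ramp ((-1 / 5 - a) / ε)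

/-- smooth function equal to `1/25 - a²` for `a ≤ 2/5` and to `1/25 - (a-1)²` for `a ≥ 3/5` -/
noncomputable def uu (a : ℝ) : ℝ :=
  (1 - step (5 * a - 2)) * (1 / 25 - a ^ 2) + step (5 * a - 2) * (1 / 25 - (a - 1) ^ 2)

/-- the transversal factor -/
noncomputable def hh (ε a k : ℝ) : ℝ := √(prof ε a / (k - uu a + prof ε a))

/-- a compression which is exactly the identity on the two core spheres -/
noncomputable def kk (ε : ℝ) : R4 → R4 := tri ε (bet ε) (hh ε)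

/-- squared radius function: the identity for `q ≥ 1/25`, slope `δ` for `q ≤ 1/25 - δ` -/
noncomputable def qq (δ q : ℝ) : ℝ := q + (1 - δ) * δ * ramp ((1 / 25 - q) / δ)

/-- the radial map about `(s, c, 0)` with squared radius function `qq δ` -/
noncomputable def radc (δ c : ℝ) (p : R4) : R4 :=
  (p.1, c + √(qq δ (rsq c p) / rsq c p) * (p.2.1 - c),
    ((√(qq δ (rsq c p) / rsq c p) : ℝ) : ℂ) * p.2.2)

/-- **R0.** The ramp.  Proof. Fundamental theorem of calculus, `step` is smooth (`contDiff_infty_iff_deriv`),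
`0 ≤ step ≤ 1`, `step = 1` on `[1,∞)`: `ramp x ≥ x - 1`. -/
def StR0 : Prop :=
  ContDiff ℝ ∞ ramp ∧ (∀ x, HasDerivAt ramp (step x) x) ∧ (∀ x, x ≤ 0 → ramp x = 0) ∧
    (∀ x, 0 ≤ ramp x) ∧ (∀ x, x - 1 ≤ ramp x) ∧ ∀ x, 0 ≤ x → ramp x ≤ x

/-- **R1.** The exact compression `kk ε`, `0 < ε < 1`.
(i) injective local diffeomorphism; more generally all the maps `(1-t) sq ε + t kk ε`, `t ∈ [0,1]`, and
this homotopy is smooth on `ℝ × R4` (indeed on an open set containing `[0,1] × R4`);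
(ii) `kk ε p = p` on `sph 0 ∪ sph 1`;
(iii) uniform closeness on compact subsets `K` of `Ext`: for every `r > 0` and all small `ε`,
`dist (kk ε p) (sq 0 p) ≤ r` for `p ∈ K`;
(iv) for `p` inside the tubes (`rsq c p ≤ 1/25`, `c = 0, 1`) the squared radius satisfies
`rsq c p ≤ rsq c (kk ε p) ≤ 1/25`.
Proof. Put `u = uu a`, `g = prof ε a`.  `g > max 0 (1/25-a²)`, `g > max 0 (1/25-(a-1)²)`, `uu a` is a convex
combination of the two numbers, so `u < g`, and `k - u + g > 0` for `k ≥ 0` (and on the open set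
`{k > u - g}`).  `bet ε` has derivative `1 - (1-ε) step((a-6/5)/ε) - (1-ε) step((-1/5-a)/ε) ≥ ε > 0`.
`k hh² = k g/(k - u + g)` has `k`-derivative `g (g-u)/(k-u+g)² > 0` and equals... so
`hh (hh + 2 k hh') > 0`.  `S0` applies to `kk ε` and, by convexity of its hypotheses (with
`S1`, `S2`: `sq ε = tri ε (axc ε) (fac ε)`), to `(1-t) sq ε + t kk ε = tri ε ((1-t) axc ε + t bet ε)
((1-t) fac ε + t hh ε)`.  (ii) on `sph 0`: `|a| ≤ 1/5`, `k = 1/25 - a² = u`, so `hh = √(g/g) = 1`,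
`bet ε a = a`; same on `sph 1`.  (iii) let `c(a)` be the clamp; `|bet ε a - c(a)| ≤ C ε` on bounded sets
(for `a ≥ 6/5`: `ramp x ≥ x - 1` gives `6/5 ≤ bet ε a ≤ a - (1-ε)(a - 6/5) + ε ≤ 6/5 + C ε`).  The third
component is a nonnegative multiple of `w`, with squared norm `X = k g/(k-u+g)`; on `Ext` we have
`k ≥ max 0 u =: u₊` (as `k ≥ 1/25 - a²` and `k ≥ 1/25-(a-1)²`), hence `u₊ ≤ X ≤ g` (`X` is increasing in `k`,
`X = u` at `k = u`; `X ≥ 0`; `X ≤ g` as `k ≤ k - u + g`); and `prof ε a - prof 0 a ≤ ε`,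
`prof 0 a = u₊` where `|a| ≤ 1/5` or `|a-1| ≤ 1/5`, `prof 0 a = 0` elsewhere.  The third component of
`sq 0 p` is the nonnegative multiple of `w` with squared norm `prof 0 a` (`S4`), and
`|√X - √Y| ≤ √|X - Y| ≤ √ε`.  (iv) `|a| ≤ 1/5`, `k ≤ u`: `a` unchanged, `k ≤ X ≤ u` (the factor
`g/(k-u+g) ≥ 1`; monotone in `k`). -/
def StR1 : Prop :=
  (∀ ε ∈ Ioo (0 : ℝ) 1, ContDiff ℝ ∞ (kk ε) ∧
    ContDiff ℝ ∞ (fun q : ℝ × R4 => (1 - q.1) • sq ε q.2 + q.1 • kk ε q.2) ∧
    ∀ t ∈ Icc (0 : ℝ) 1, EmbOn 𝓘(ℝ, R4) (fun p => (1 - t) • sq ε p + t • kk ε p) univ) ∧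
  (∀ ε ∈ Ioo (0 : ℝ) 1, ∀ p ∈ sph 0 ∪ sph 1, kk ε p = p) ∧
  (∀ K : Set R4, IsCompact K → K ⊆ Ext → ∀ r > 0, ∃ ε₀ > 0, ∀ ε ∈ Ioo 0 ε₀, ∀ p ∈ K,
    dist (kk ε p) (sq 0 p) ≤ r) ∧
  ∀ ε ∈ Ioo (0 : ℝ) 1, ∀ p : R4,
    (rsq 0 p ≤ 1 / 25 → rsq 0 p ≤ rsq 0 (kk ε p) ∧ rsq 0 (kk ε p) ≤ 1 / 25) ∧
    (rsq 1 p ≤ 1 / 25 → rsq 1 p ≤ rsq 1 (kk ε p) ∧ rsq 1 (kk ε p) ≤ 1 / 25)

/-- **R2.** The radial maps, `0 < δ < 1/100`, `c ∈ {0, 1}`.  `radc δ c` is an injective local
diffeomorphism on `{rsq c p > 0}`; it is the identity for `rsq c p ≥ 1/25`; `rsq c (radc δ c p) = qq δ (rsq c p)`,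
which lies in `[1/25 - 2δ, 1/25]` for `(3/20)² ≤ rsq c p ≤ 1/25`.
Proof. `qq δ` has derivative `1 - (1-δ) step((1/25-q)/δ) ∈ [δ, 1]`, is `≥ q > 0`, is the identity for
`q ≥ 1/25`; `m(q) = √(qq δ q / q)` satisfies `m > 0`, `m² q = qq δ q`, `m (m + 2 q m') = (qq δ)' > 0`; the
derivative of `x ↦ m(|x|²) x` in direction `v` is `m v + 2 m' ⟨x,v⟩ x`, injective as in `S0`; use `A0`.
Injective: the squared radius `qq δ q` determines `q`, then `x` is determined.  Estimate: `ramp x ≥ x - 1`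
gives `qq δ q ≥ q + (1-δ)(1/25 - q - δ) ≥ 1/25 - δ - δ/25`. -/
def StR2 : Prop :=
  ∀ δ ∈ Ioo (0 : ℝ) (1 / 100), ∀ c : ℝ,
    EmbOn 𝓘(ℝ, R4) (radc δ c) {p | 0 < rsq c p} ∧
    (∀ p, 1 / 25 ≤ rsq c p → radc δ c p = p) ∧
    (∀ p, 0 < rsq c p → rsq c (radc δ c p) = qq δ (rsq c p) ∧ rsq c p ≤ rsq c (radc δ c p)) ∧
    ∀ p, (3 / 20) ^ 2 ≤ rsq c p → rsq c p ≤ 1 / 25 →
      1 / 25 - 2 * δ ≤ rsq c (radc δ c p) ∧ rsq c (radc δ c p) ≤ 1 / 25

/-- **R3.** Realization: every germ class is the class of a barbell with the same core spheres.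
Proof. `A1`: an open `V ⊇ SP` on which `F` is injective and locally diffeomorphic.  `SP` is compact, so for
small `δ` the compact set `C_δ = {p | p.1 = 1/2, 1/25-2δ ≤ rsq 0 p ≤ 1/25} ∪ (same with rsq 1) ∪ SP` and its
closed `r`-neighbourhood are in `V` for some `r > 0`.  Let `E = radc δ 0 ∘ radc δ 1` (they have disjoint
supports `rsq c p < 1/25`): injective local diffeomorphism on `NB`, identity on `Ext`.
`κ = kk ε ∘ E`.  For `p ∈ NB ∩ Ext`: `κ p = kk ε p` is within `r` of `sq 0 p ∈ SP` (`R1` (iii)).  For `p ∈ NB` with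
`rsq 0 p < 1/25`: `E p` has `1/25 - 2δ ≤ rsq 0 (E p) ≤ 1/25`, and `κ p` also by `R1` (iv), with first
coordinate within `ε` of `1/2`: within `2 ε` of `C_δ`.  So `κ(NB) ⊆ V` for small `ε`, `F ∘ κ` is `EmbOn NB`;
`A1` gives `B` with `B = F ∘ κ` near `NB`.  On `sph 0 ∪ sph 1`: `E p = p` and `kk ε p = p`, so `B p = F p`.
`push B barMap = imp B NB barMap = imp (F ∘ kk ε) bsupp barMap` (`StImp`, `E = id` on `bsupp`).  For `t ∈ [0,1]`,
`p ∈ bsupp` the point `(1-t) sq ε p + t kk ε p` is within `r` of `sq 0 p` (both ends are, `S3`), hence in `V`: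
`F ∘ ((1-t) sq ε + t kk ε)` is a family of germs along `bsupp` by `R1` (i), and `A3` gives
`CIsot (imp (F ∘ sq ε) bsupp barMap) (imp (F ∘ kk ε) bsupp barMap)`; with `Thin` this proves the claim. -/
def StR3 : Prop :=
  ∀ (E : Type) [NormedAddCommGroup E] [NormedSpace ℝ E] (H : Type) [TopologicalSpace H]
    (I : ModelWithCorners ℝ E H) (M : Type) [TopologicalSpace M] [ChartedSpace H M] [T2Space M]
    (F : R4 → M) (φ : M → M), EmbOn I F SP → Thin I F φ →
    ∃ B : PartialDiffeomorph 𝓘(ℝ, R4) I R4 M ∞, NB ⊆ B.source ∧ (∀ p ∈ sph 0 ∪ sph 1, B p = F p) ∧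
      CIsot I φ (push B barMap)

/-- **F1.** `N` at the level of germs is `N` at the level of barbells.
Proof. Induction on `InN`.  `gen`: `R3` gives `B`; the ball `G` of `BoundsOff` gives by `A1` a partial
diffeomorphism `δ` with `flat c ⊆ δ.source`, `δ = G = F = B` on `sph c`, and
`δ '' flat c = G '' flat c` is disjoint from `F '' sph d = B '' sph d`.  `implantation B barMap = push B barMap`
(`implantation_eq_push`, `isBarbellMap_barMap`), `CIsot → Isot`. -/
def StF1 : Prop := ∀ φ : S4 → S4, InN (𝓡 4) φ → NSub φ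

/-- **F2.** The assembly: `StMain` implies the theorem for the 4-sphere.
Proof. `T4`: `B`, `B'` are `EmbOn SP`, `Thin B (implantation B β)`, `Thin B' (implantation B' β')`.
`X2` gives `c` with `B(SP), B'(SP) ⊆ c(R4)`; `X3` gives the germs `F = c⁻¹ ∘ B`, `F' = c⁻¹ ∘ B'` along `SP`,
`c ∘ F = B`, `c ∘ F' = B'` near `SP`.  They agree on the interior of the two shells, an open set containing
`sph 0 ∪ sph 1`.  Choose `φ, φ'` with `Thin F φ`, `Thin F' φ'` (`T2` (i)); `StMain` gives `n` with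
`CIsot φ' (n ∘ φ)`.  By `X1`, `T2` (v): `Thin B (imp c univ φ)`, so `imp c univ φ` is isotopic to
`implantation B β` (`T2` (ii)), same for `B'`; `imp c univ φ'` is isotopic to
`imp c univ n ∘ imp c univ φ`, and `imp c univ n` is in `N` (`X1`), so in `NSub` (`F1`). -/
def StF2 : Prop := StMain → StFinal1

end Pool.Agent.Helper18.BI


end
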