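import Pool.Agent.Helper65.Barb.Defs
import Pool.Agent.Helper70.BI.C.P01
import Pool.Agent.Helper70.BI.C.P03
import Pool.Agent.Helper70.BI.C.P04

/-!
# Project BI (MP_8e98f2_gt): collected modules, part 05

The contents of the modules
* Helper34.BI.StD
* Helper18.BI.M_R0

in one file, so that the whole proof builds in a short time.
-/

namespace Pool.Agent.Helper18.BI
end Pool.Agent.Helper18.BI

namespace Pool.Agent.Helper27.BI
end Pool.Agent.Helper27.BI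

namespace Pool.Agent.Helper65.Barb
end Pool.Agent.Helper65.Barb


/-! ## Helper34.BI.StD -/

section

/-!
# Project BI (MP_8e98f2_gt), parts (B) and (D): crossings of the bar with the cuffs

Statements (as `Prop` definitions) with complete proofs in the docstrings.  A module `M_X` proves
`theorem m_X : StX` (possibly from other statements as hypotheses `(h : StY)`).
All germs have values in `R4` here; `I = 𝓘(ℝ, R4)`.
-/

set_option autoImplicit false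

open Module Set Filter Topology
open scoped ContDiff Manifold ComplexConjugate
open Pool.Agent.Helper65.Barb Pool.Agent.Helper18.BI Pool.Agent.Helper27.BI

namespace Pool.Agent.Helper34.BI

/-! ## definitions -/

/-- The classes of the germs `F` and `G` are equal modulo `N`. -/
def MR (F G : R4 → R4) : Prop :=
  ∀ φ ψ : R4 → R4, Thin 𝓘(ℝ, R4) F φ → Thin 𝓘(ℝ, R4) G ψ →
    ∃ n, InN 𝓘(ℝ, R4) n ∧ CIsot 𝓘(ℝ, R4) ψ (fun x => n (φ x))

/-- the spine together with two collars of the cuffs in the flat balls -/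
def SH (η : ℝ) : Set R4 := {p | p ∈ FB ∧ 1 / 25 - η ≤ rsq 0 p ∧ 1 / 25 - η ≤ rsq 1 p}

/-- the two collars -/
def CL (η : ℝ) : Set R4 := {p | p ∈ SH η ∧ (rsq 0 p ≤ 1 / 25 ∨ rsq 1 p ≤ 1 / 25)}

/-- half of the derivative of `rsq c` at `p` in the direction `v` -/
def drsq (c : ℝ) (p v : R4) : ℝ :=
  (p.2.1 - c) * v.2.1 + (p.2.2.re * v.2.2.re + p.2.2.im * v.2.2.im)

/-- The family of germs `J (t, ·)` has at time `t₀` exactly one double point along the spine: the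
point `p₀` of the first cuff and the point with parameter `u₀` of the neck; the crossing is
transverse, the family is constant near the cuffs, and `p₀` is not on the circle `Re w = 0`. -/
structure PreCross (J : ℝ × R4 → R4) (t₀ u₀ : ℝ) (p₀ : R4) : Prop where
  smooth : ∀ p ∈ SP, ∀ᶠ q in 𝓝 (t₀, p), ContDiffAt ℝ ∞ J q
  loc : ∀ p ∈ SP, IsLocalDiffeomorphAt 𝓘(ℝ, R4) 𝓘(ℝ, R4) ∞ (fun p => J (t₀, p)) p
  frozen : ∀ p ∈ sph 0 ∪ sph 1, ∀ᶠ q in 𝓝 (t₀, p), J q = J (t₀, q.2)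
  mem : p₀ ∈ sph 0
  re : p₀.2.2.re ≠ 0
  arc : u₀ ∈ Ioo (1 / 5 : ℝ) (4 / 5)
  eq : J (t₀, p₀) = J (t₀, (1 / 2, u₀, 0))
  inj : ∀ p ∈ SP, ∀ q ∈ SP, J (t₀, p) = J (t₀, q) →
    p = q ∨ (p = p₀ ∧ q = (1 / 2, u₀, 0)) ∨ (q = p₀ ∧ p = (1 / 2, u₀, 0))
  trans : ∀ (ζ : ℝ × ℝ) (v : R4),
    fderiv ℝ (fun x : ℝ × ℝ => J (x.1, (1 / 2, x.2, 0))) (t₀, u₀) ζ =
      fderiv ℝ (fun p => J (t₀, p)) p₀ v → v.1 = 0 → drsq 0 p₀ v = 0 → ζ = 0

/-- In the coordinates given by the germ near `p₀` the strand crosses the slice `s = 1/2`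
transversally. -/
def Slope (J : ℝ × R4 → R4) (t₀ u₀ : ℝ) (p₀ : R4) : Prop :=
  ∀ v : R4, fderiv ℝ (fun x : ℝ × ℝ => J (x.1, (1 / 2, x.2, 0))) (t₀, u₀) (0, 1) =
    fderiv ℝ (fun p => J (t₀, p)) p₀ v → v.1 ≠ 0

/-- A family of germs, parametrized by the depth `r ∈ [-η, η]` at which the neck crosses the
(extended) flat ball of the first cuff: at time `r` it crosses at the point `X r`, with
`rsq 0 (X r) = 1/25 + r`; this is the only double point along the spine with collars. -/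
structure Cross (J : ℝ × R4 → R4) (X : ℝ → R4) (η : ℝ) : Prop where
  pos : 0 < η
  small : η ≤ 1 / 100
  smooth : ∃ W : Set (ℝ × R4), IsOpen W ∧ Icc (-η) η ×ˢ SH η ⊆ W ∧ ContDiffOn ℝ ∞ J W
  loc : ∀ r ∈ Icc (-η) η, ∀ p ∈ SH η,
    IsLocalDiffeomorphAt 𝓘(ℝ, R4) 𝓘(ℝ, R4) ∞ (fun p => J (r, p)) p
  inj : ∀ r ∈ Icc (-η) η, InjOn (fun p => J (r, p)) (SH η \ {X r})
  injA : ∀ r ∈ Icc (-η) η, InjOn (fun p => J (r, p)) (CL η)
  fst : ∀ r ∈ Icc (-η) η, (X r).1 = 1 / 2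
  lvl : ∀ r ∈ Icc (-η) η, rsq 0 (X r) = 1 / 25 + r
  re : ∀ r ∈ Icc (-η) η, (X r).2.2.re ≠ 0

/-- A family of germs along the spine parametrized by the line, embedded except at finitely many
times, where there is one generic crossing of the neck with the first or (after exchange) with the
second cuff. -/
structure BFam (J : ℝ × R4 → R4) : Prop where
  smooth : ∀ t, ∀ p ∈ SP, ∀ᶠ q in 𝓝 (t, p), ContDiffAt ℝ ∞ J q
  loc : ∀ t, ∀ p ∈ SP, IsLocalDiffeomorphAt 𝓘(ℝ, R4) 𝓘(ℝ, R4) ∞ (fun p => J (t, p)) p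
  finite : {t | ¬ InjOn (fun p => J (t, p)) SP}.Finite
  cross : ∀ t, ¬ InjOn (fun p => J (t, p)) SP →
    (∃ u p, PreCross J t u p) ∨ ∃ u p, PreCross (fun q => J (q.1, swp q.2)) t u p

/-! ## the two model theorems used (part (C)) -/

/-- **ADD2** (proved in part (C)): additivity with the strand over `0` and the strand over `x₂`. -/
def StAdd2 : Prop :=
  ∀ x₂ : R3, nsq x₂ < (7 / 50) ^ 2 → x₂.2.re ≠ 0 →
    ∃ (r : ℝ) (k₁ k₂ : R4 → R4), 0 < r ∧ r ≤ 1 / 100 ∧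
      (∀ k : R4 → R4, (k = k₁ ∨ k = k₂) → EmbOn 𝓘(ℝ, R4) k univ ∧ (∀ p, (k p).1 = p.1) ∧
        (∀ p ∈ ball4, k p ∈ ball4) ∧ (∀ p, 17 / 100 ≤ p.2.1 → k p = p) ∧
        ∀ p, rsq 0 p ≤ 1 / 25 → rsq 0 (k p) ≤ 1 / 25) ∧
      (∀ p : R4, ‖p.2.2‖ ≤ |x₂.2.re| / 2 → k₁ p = p) ∧
      (∀ p ∈ ball4, k₁ p ∉ tube x₂ r ∧ k₂ p ∉ tube 0 r) ∧
      (∀ p, (k₁ p ∈ tube 0 r → p ∈ tube 0 r) ∧ (k₂ p ∈ tube x₂ r → p ∈ tube x₂ r)) ∧
      ∀ (E : Type) [NormedAddCommGroup E] [NormedSpace ℝ E] (H : Type) [TopologicalSpace H]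
        (I : ModelWithCorners ℝ E H) (M : Type) [TopologicalSpace M] [ChartedSpace H M]
        [T2Space M] (F : R4 → M),
        EmbOn I F (ball4 \ (tube (1, 0) (3 / 20) ∪ tube 0 r ∪ tube x₂ r)) →
        CIsot I (imp F bsupp barMap) (fun y => imp (fun p => F (k₂ p)) bsupp barMap
          (imp (fun p => F (k₁ p)) bsupp barMap y))

/-- **SWAP** (proved in part (C)): exchanging the two cuffs inverts the class. -/
def StSwap : Prop :=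
  ∀ F φ φ' : R4 → R4, EmbOn 𝓘(ℝ, R4) F SP → (∀ x, φ (φ' x) = x) → (∀ x, φ' (φ x) = x) →
    Thin 𝓘(ℝ, R4) F φ → Thin 𝓘(ℝ, R4) (fun p => F (swp p)) φ'

/-! ## RE: the radial map -/

/-- squared radius function: the identity for `q ≥ 1/25 - δ`, slope `δ` for `q ≤ 1/25 - 2δ` -/
noncomputable def qe (δ q : ℝ) : ℝ := qq δ (q + δ) - δ

/-- radial map about `(s, c, 0)` with squared radius function `qe δ` -/
noncomputable def rade (δ c : ℝ) (p : R4) : R4 :=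
  (p.1, c + √(qe δ (rsq c p) / rsq c p) * (p.2.1 - c),
    ((√(qe δ (rsq c p) / rsq c p) : ℝ) : ℂ) * p.2.2)

/-- the composition of the two radial maps -/
noncomputable def Em (δ : ℝ) (p : R4) : R4 := rade δ 0 (rade δ 1 p)

/-- **RE.** The map `Em δ`: an injective local diffeomorphism off the two lines `(s, 0, 0)`,
`(s, 1, 0)`, the identity near the exterior of the tubes of radius `1/5`, pushing everything out to
`rsq ≥ 1/25 - 3δ`.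
Proof. `qe δ q = q + (1-δ) δ ramp((1/25 - δ - q)/δ)`, derivative `1 - (1-δ) step(..) ∈ [δ, 1]` (`StR0`), so
strictly increasing; `qe δ q ≥ q` (`ramp ≥ 0`), `qe δ q = q` for `q ≥ 1/25 - δ`, `qe δ q ≥ 1/25 - 3δ` for
`q ≥ 0` (`ramp x ≥ x - 1`: `qe ≥ q + (1-δ)(1/25 - δ - q) - (1-δ) δ ≥ 1/25 - 3δ`), `qe δ q ≤ 1/25` for
`q ≤ 1/25`.  `rade δ c` is treated exactly as `radc δ c` in module R2 (file
`Helper18/BI/M_R2.lean`, on main; copy the proof with `qe` in place of `qq`):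
`rsq c (rade δ c p) = qe δ (rsq c p)` for `rsq c p > 0`, `EmbOn {rsq c p > 0}`.  `rade δ c p = p` if
`rsq c p ≥ 1/25 - δ`.  If `rsq 1 p < 1/25 - δ` then `rsq 1 (rade δ 1 p) ≤ 1/25`, so the `a`-coordinate of
`rade δ 1 p` is `≥ 4/5`, `rsq 0 (rade δ 1 p) ≥ 16/25` and `Em δ p = rade δ 1 p`; if `rsq 1 p ≥ 1/25 - δ` then
`Em δ p = rade δ 0 p`.  This gives everything (for injectivity: compositions; `rade δ 1` maps
`{rsq 0 > 0, rsq 1 > 0}` into `{rsq 0 > 0}`, and is injective there).  For the last claim: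
`x₂ = √((1/100) / qe δ (1/100)) • X.2`; `nsq x₂ = 1/100`, `rsq 1 ≥ (1 - 1/10)²`, so
`Em δ (1/2, x₂) = rade δ 0 (1/2, x₂) = X`. -/
def StRE : Prop :=
  ∀ δ ∈ Ioo (0 : ℝ) (1 / 100),
    EmbOn 𝓘(ℝ, R4) (Em δ) {p | 0 < rsq 0 p ∧ 0 < rsq 1 p} ∧
    (∀ p, 1 / 25 - δ ≤ rsq 0 p → 1 / 25 - δ ≤ rsq 1 p → Em δ p = p) ∧
    (∀ p, (Em δ p).1 = p.1) ∧
    (∀ (s s' : ℝ) (x : R3), (Em δ (s, x)).2 = (Em δ (s', x)).2) ∧
    (∀ p : R4, p.2.2 = 0 → (Em δ p).2.2 = 0) ∧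
    (∀ p, 0 < rsq 0 p → 0 < rsq 1 p →
      1 / 25 - 3 * δ ≤ rsq 0 (Em δ p) ∧ 1 / 25 - 3 * δ ≤ rsq 1 (Em δ p)) ∧
    (∀ p, 0 < rsq 0 p → rsq 0 p ≤ 1 / 25 →
      rsq 0 (Em δ p) = qe δ (rsq 0 p) ∧ rsq 0 (Em δ p) ≤ 1 / 25) ∧
    (∀ p, 0 < rsq 1 p → rsq 1 p ≤ 1 / 25 → rsq 1 (Em δ p) ≤ 1 / 25) ∧
    StrictMono (qe δ) ∧ Continuous (qe δ) ∧ (∀ q, 1 / 25 - δ ≤ q → qe δ q = q) ∧
    (∀ q, 0 ≤ q → 1 / 25 - 3 * δ ≤ qe δ q) ∧
    ∀ X : R4, X.1 = 1 / 2 → rsq 0 X = qe δ (1 / 100) → ∃ x₂ : R3, nsq x₂ = 1 / 100 ∧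
      Em δ (1 / 2, x₂) = X ∧ (X.2.2.re ≠ 0 → x₂.2.re ≠ 0)

/-! ## RC: the contraction -/

/-- the contraction factor -/
noncomputable def cfac (lam q : ℝ) : ℝ := lam + (1 - lam) * step ((q - 1 / 20) / (1 / 25))

/-- the contraction of the first flat ball: `x ↦ lam x` for `|x|² ≤ 1/20`, the identity for
`|x|² ≥ 9/100` -/
noncomputable def cl (lam : ℝ) (p : R4) : R4 := (p.1, cfac lam (nsq p.2) • p.2)

/-- **RC.** Properties of the contraction.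
Proof. `l = cfac lam` is smooth, `lam ≤ l ≤ 1` for `lam ≤ 1`, `l' ≥ 0` (`Real.smoothTransition.monotone`).
For `0 < lam` the map `x ↦ l(|x|²) x` is injective: `q ↦ q l(q)²` is strictly increasing on `[0, ∞)`, so
`|x|²` is determined by the image, and then `x`; its derivative in the direction `v` is
`l v + 2 l' ⟨x,v⟩ x`; if this is `0` then `(l + 2 l' |x|²) ⟨x,v⟩ = 0`, so `⟨x,v⟩ = 0` and `v = 0` (`A0`).  On the
neck: `x = (a, 0)`, `1/5 ≤ a ≤ 4/5`, image `(l(a²) a, 0)`, `lam/5 ≤ l a ≤ 4/5`. -/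
def StRC : Prop :=
  ContDiff ℝ ∞ (fun q : ℝ × R4 => cl q.1 q.2) ∧ (∀ p, cl 1 p = p) ∧
  ∀ lam ∈ Ioc (0 : ℝ) 1,
    EmbOn 𝓘(ℝ, R4) (cl lam) univ ∧ (∀ p, (cl lam p).1 = p.1) ∧
    (∀ p : R4, nsq p.2 ≤ 1 / 20 → cl lam p = (p.1, lam • p.2)) ∧
    (∀ p : R4, 9 / 100 ≤ nsq p.2 → cl lam p = p) ∧
    (∀ p : R4, p.2.2 = 0 → (cl lam p).2.2 = 0) ∧
    (∀ p : R4, nsq (cl lam p).2 ≤ nsq p.2) ∧
    (∀ p ∈ neck, 0 < (cl lam p).2.1 ∧ (cl lam p).2.1 ≤ 4 / 5) ∧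
    ∀ p : R4, 0 < nsq p.2 → 0 < nsq (cl lam p).2

/-! ## D2: the crossing theorem -/

/-- **D2a.** Splitting off the crossing.  `G` is a germ whose neck crosses the first collar only at
the point `X`, at the depth `1/25 - qe δ (1/100)`.
Proof (uses `StRE`, `StAdd2`, `StImp`, `StCI`, `StS3`, `StS4`, `StT2`, `StT3`, `StT5`, `StT6`).
`X ∉ SP` (`qe δ (1/100) < 1/25`; `rsq 0 ≥ 1/25` on `SP`), so `EmbOn G SP`.
`StRE` gives `x₂` with `Em δ (1/2, x₂) = X`, `nsq x₂ = 1/100 < (7/50)²`, `x₂.2.re ≠ 0`.  `StAdd2` gives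
`r, k₁, k₂`; `k = k₁`.  Put `K = ball4 \ (tube (1,0) (3/20) ∪ tube 0 r ∪ tube x₂ r)`, compact (tubes are
open).  `bsupp ⊆ EB ⊆ K` (`|x| ≥ 1/5`: `|x - x₂| ≥ 1/10 ≥ r`).  `K ⊆ {0 < rsq 0, 0 < rsq 1}`.
(1) Let `L = SP ∪ (sq 0 ∘ Em δ) '' K`, compact (`StS3` at `ε = 0`, `Em δ` is continuous on `K`),
`L ⊆ FB` (`StS4`).  Claim `L ⊆ SH η \ {X}`: for `p ∈ K`, `y = Em δ p`: if `y ∈ Ext` then `sq 0 y ∈ SP`.
Otherwise `rsq c y < 1/25` for `c = 0` or `1`, and `sq 0 y = (1/2, y.2)`; this is in `FB` and both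
`rsq ≥ 1/25 - 3δ ≥ 1/25 - η`.  If `sq 0 y = X` then (as `X ∉ SP`) `(1/2, y.2) = X`, and
`y.2 = (Em δ (1/2, p.2)).2`, so `Em δ (1/2, p.2) = X = Em δ (1/2, x₂)`, `p.2 = x₂`, `p ∈ tube x₂ r`,
contradiction.  `SP ⊆ SH η \ {X}` clear.  Hence `EmbOn G L`.
(2) `StT6` with the compact set `Em δ '' K` and `L`: for small `ε`, `G ∘ sq ε` is `EmbOn (Em δ '' K)`; so
`F_ε = G ∘ sq ε ∘ Em δ` is `EmbOn K` (composition).  `StAdd2`:
`CIsot (imp F_ε bsupp barMap) (imp (F_ε ∘ k₂) bsupp barMap ∘ imp (F_ε ∘ k₁) bsupp barMap)`.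
`Em δ = id` on `bsupp ⊆ Ext`, so `imp F_ε bsupp barMap = imp (G ∘ sq ε) bsupp barMap` (`StImp` (6)), which
represents `Thin G`.
(3) For `i = 1, 2`: `k_i` maps `EB` into `K`: `ball4` to `ball4`; `k_i p ∉ tube (1,0) (3/20)`: if `(k_i p).2.1 ≥ 17/100`
then `k_i (k_i p) = k_i p`, so `k_i p = p ∈ Ext`; the other tubes by the last properties of `StAdd2` and
`|x| ≥ 1/5` on `EB`.  So `F_ε ∘ k_i` is `EmbOn EB`, and `StT3`: `Thin (F_ε ∘ k_i) (imp (F_ε ∘ k_i) bsupp barMap)`.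
(4) `m = Em δ ∘ k_i` is `EmbOn SP` (`SP ⊆ EB`) and maps `SP` into `L`: for `p ∈ SP`, `sq 0 (m p) ∈ L`, and `m p ∈ FB`,
so `sq 0 (m p) = m p` (`StS4`): on `neck` and `sph 1`, `k_i p = p`, `m p = p`; on `sph 0`: `(m p).1 = 1/2`,
`rsq 0 (k_i p) ≤ 1/25`, `rsq 0 (m p) ≤ 1/25` (`rsq 0 (k_i p) > 0` as `k_i p ∈ K`), so `m p ∈ flat 0`.  `StT5`: for small `ε`,
`Thin (G ∘ sq ε ∘ m) φ ↔ Thin (G ∘ m) φ`.  Fix `ε` small enough for everything and put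
`ψ = imp (F_ε ∘ k₁) bsupp barMap`, `n = imp (F_ε ∘ k₂) bsupp barMap`.
(5) `InN n`: the germ `G' = G ∘ Em δ ∘ k₂` is `EmbOn SP` by (4), `Thin G' n`, and it is half split: `BoundsOff G' 0 1` with
the ball `G'` on `flat 0`: `k₂ (flat 0) ⊆ flat 0`, `0 < rsq 0` there (`k₂ p ∉ tube 0 r`), so `Em δ ∘ k₂` is an injective local
diffeomorphism along `flat 0 ∪ sph 1` with values in `CL η` (`Em δ p ∈ flat 0`, `rsq 0 ≥ 1/25 - 3δ`), where `G` is injective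
and locally diffeomorphic; the images of `flat 0` and `sph 1` under `Em δ ∘ k₂` are disjoint. -/
def StD2a : Prop :=
  ∀ (G : R4 → R4) (X : R4) (δ η : ℝ), δ ∈ Ioo (0 : ℝ) (1 / 100) → 3 * δ ≤ η → η ≤ 1 / 100 →
    (∀ p ∈ SH η, IsLocalDiffeomorphAt 𝓘(ℝ, R4) 𝓘(ℝ, R4) ∞ G p) → InjOn G (SH η \ {X}) →
    InjOn G (CL η) → X.1 = 1 / 2 → rsq 0 X = qe δ (1 / 100) → X.2.2.re ≠ 0 →
    ∃ (x₂ : R3) (r : ℝ) (k : R4 → R4), 0 < r ∧ r ≤ 1 / 100 ∧ nsq x₂ = 1 / 100 ∧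
      x₂.2.re ≠ 0 ∧ Em δ (1 / 2, x₂) = X ∧ EmbOn 𝓘(ℝ, R4) k univ ∧ (∀ p, (k p).1 = p.1) ∧
      (∀ p, 17 / 100 ≤ p.2.1 → k p = p) ∧ (∀ p, rsq 0 p ≤ 1 / 25 → rsq 0 (k p) ≤ 1 / 25) ∧
      (∀ p : R4, ‖p.2.2‖ ≤ |x₂.2.re| / 2 → k p = p) ∧ (∀ p ∈ ball4, k p ∉ tube x₂ r) ∧
      ∃ n ψ : R4 → R4, InN 𝓘(ℝ, R4) n ∧ Thin 𝓘(ℝ, R4) (fun p => G (Em δ (k p))) ψ ∧
        ∀ φ, Thin 𝓘(ℝ, R4) G φ → CIsot 𝓘(ℝ, R4) φ (fun x => n (ψ x))

/-- **D2b.** The other factor is the class on the other side of the crossing.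
Proof (uses `StRE`, `StRC`, `StT2`).  Four steps; `ρ = |x₂.2.re| / 2 > 0`, `lam₀ = min (1/4) ρ` (so
`lam₀ / 5 < ρ` and `lam₀² / 25 < 1/100`).
(1) family `J (-r₁, Em δ (k (cl lam p)))`, `lam` from `1` to `lam₀`, along `SP` (`τ ∈ [0,1]`,
`lam = 1 - τ (1 - lam₀)`; for `τ = 0` it is the given germ since `cl 1 p = p`).  For `p ∈ SP`: `q = cl lam p` has
first coordinate `1/2`, is in `ball4`, and `q ∈ sph 1`, or `q.2.2 = 0` with `0 < q.2.1 ≤ 4/5`, or `0 < rsq 0 q ≤ 1/25`; in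
all cases `k q` has the same property (`k` fixes the points with `a ≥ 17/100` and those with `w = 0`;
`rsq 0 (k q) > 0`, because `rsq 0 (k q) = 0` implies `k (k q) = k q`, `k q = q`); so `y = Em δ (k q)` is in
`SH η` (in `FB`: `rsq c y ≤ 1/25` or in the neck, `StRE`; for `k q ∈ neck ∪ sph 1`, `Em δ` fixes it), and `y ≠ X(-r₁)`:
else `Em δ (1/2, (k q).2) = Em δ (1/2, x₂)`, `k q ∈ tube x₂ r`.  `J (-r₁, ·)` is injective on `SH η \ {X (-r₁)}`,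
the maps `Em δ`, `k`, `cl lam` are injective local diffeomorphisms: `FamOn`.
(2) at `lam₀`: `k (cl lam₀ p) = cl lam₀ p` for `p` near `SP`: either `(cl lam₀ p).2.1 > 17/100` or
`‖(cl lam₀ p).2.2‖ < ρ` (on `sph 0`: `‖w‖ ≤ lam₀ / 5 < ρ`; on the neck `w = 0`; on `sph 1`, `a ≥ 4/5`; open
conditions).  `StT2` (v).
(3) family `J (-r₁ + 2 r₁ τ, Em δ (cl lam₀ p))`: for `p ∈ SP` the point `y = Em δ (cl lam₀ p)` is in `SH η` and
`y ≠ X r` for `r ∈ [-r₁, r₁]`: for `p ∈ sph 0`, `rsq 0 y = qe δ (lam₀²/25) < qe δ (1/100) = 1/25 - r₁ ≤ rsq 0 (X r)`; for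
`p ∈ neck`, `y.2.2 = 0`; for `p ∈ sph 1`, `y = p` has `rsq 0 ≥ 16/25 > 1/25 + η`.
(4) family `J (r₁, Em δ (cl lam p))`, `lam` from `lam₀` to `1`: `X r₁ ∉ SH η` (`rsq 0 (X r₁) > 1/25`, `w ≠ 0`,
`rsq 0 (X r₁) < 16/25`, while a point of `FB` with `1/25 < rsq 0 < 16/25` is on the neck).
At the end `Em δ p = p` near `SP` (`rsq ≥ 1/25 - δ`): `StT2` (v).  All families are smooth near
`[0,1] × SP`: `J` is smooth on the open set `W ⊇ [-η,η] × SH η`, the others on open sets. -/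
def StD2b : Prop :=
  ∀ (J : ℝ × R4 → R4) (X : ℝ → R4) (δ η r₁ : ℝ), Cross J X η → δ ∈ Ioo (0 : ℝ) (1 / 100) →
    3 * δ ≤ η → r₁ = 1 / 25 - qe δ (1 / 100) → 0 < r₁ → r₁ ≤ η →
    ∀ (x₂ : R3) (r : ℝ) (k : R4 → R4), 0 < r → nsq x₂ = 1 / 100 →
      x₂.2.re ≠ 0 → Em δ (1 / 2, x₂) = X (-r₁) → EmbOn 𝓘(ℝ, R4) k univ → (∀ p, (k p).1 = p.1) →
      (∀ p, 17 / 100 ≤ p.2.1 → k p = p) → (∀ p, rsq 0 p ≤ 1 / 25 → rsq 0 (k p) ≤ 1 / 25) →
      (∀ p : R4, ‖p.2.2‖ ≤ |x₂.2.re| / 2 → k p = p) → (∀ p ∈ ball4, k p ∉ tube x₂ r) →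
      ∀ ψ, Thin 𝓘(ℝ, R4) (fun p => J (-r₁, Em δ (k p))) ψ → Thin 𝓘(ℝ, R4) (fun p => J (r₁, p)) ψ

/-- **D2.** The crossing theorem.
Proof.  `δ = η/3 < 1/100`, `r₁ = 1/25 - qe δ (1/100)`, `0 < r₁ ≤ 3δ = η` (`StRE`: `qe δ (1/100) < qe δ (1/25) = 1/25`).
`D2a` for `G = J (-r₁, ·)`, `X = X (-r₁)`, then `D2b`; uniqueness of the class `StT2` (ii): for `φ` with
`Thin (J (r₁, ·)) φ` and `φ'` with `Thin (J (-r₁, ·)) φ'`: `CIsot φ' (n ∘ ψ)`, `CIsot ψ φ`. -/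
def StD2 : Prop :=
  ∀ (J : ℝ × R4 → R4) (X : ℝ → R4) (η : ℝ), Cross J X η →
    ∃ r ∈ Ioc 0 η, MR (fun p => J (r, p)) (fun p => J (-r, p))

/-! ## D1: analysis of a transverse crossing -/

/-- **D1a.** Local coordinates at the crossing.
Proof. `F p = J (t₀, p)`, `H x = J (x.1, (1/2, x.2, 0))`, `x₀ = (t₀, u₀)`.  `Φ` partial diffeomorphism with
`F = Φ` on `Φ.source ∋ p₀`.  `P x = Φ.symm (H x)` is smooth near `x₀`, `P x₀ = p₀`, and
`N x = ((P x).1 - 1/2, rsq 0 (P x) - 1/25)`.  `DN(x₀)` is injective: if `DN ζ = 0`, then `v = DP(x₀) ζ` has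
`v.1 = 0`, `drsq 0 p₀ v = 0`, and `DF(p₀) v = DH(x₀) ζ` (`F ∘ P = H` near `x₀`), so `ζ = 0` by `trans`.  So `N` is a local
diffeomorphism at `x₀` (`isLocalDiffeomorphAt_of_injective`, Loc.lean): `Ψ` with `N = Ψ` on `Ψ.source`.
`T r = (Ψ.symm (0, r)).1`, `U r = (Ψ.symm (0, r)).2`, `X r = P (T r, U r)`: smooth near `0`, `T 0 = t₀`,
`U 0 = u₀`, `X 0 = p₀`, `N (T r, U r) = (0, r)`.  `T'(0) ≠ 0`: `ζ = (T'(0), U'(0))` satisfies `DN ζ = (0, 1)`; if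
`ζ.1 = 0` then `ζ = ζ₂ • (0,1)`, `v = DP(x₀) (0,1)` satisfies `DF(p₀) v = DH(x₀) (0,1)`, so `v.1 ≠ 0` by `Slope`, but
`0 = (DN ζ).1 = ζ₂ v.1`, so `ζ = 0`, contradiction.  `deriv T` is continuous near `0`, so it has constant sign on
some `(-η₀, η₀)`, and `T` is strictly monotone there (`strictMonoOn_of_deriv_pos`).
Last claim: for `(r, p, q)` close to `(0, p₀, (1/2, u₀, 0))`, `p, q ∈ FB`: `p.1 = 1/2`, and `q = (1/2, u, 0)` because
`u₀ ∈ (1/5, 4/5)` (points of `flat 0` have `a ≤ 1/5`, of `flat 1`: `a ≥ 4/5`).  `J (T r, p) = J (t₀, p) = Φ p` (`frozen`),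
`J (T r, q) = H (T r, u)`; if they are equal then `p = P (T r, u)`, and
`N (T r, u) = (0, rsq 0 p - 1/25)`, so `(T r, u) = (T ρ, U ρ)` with `ρ = rsq 0 p - 1/25` small, so `r = ρ`
(injectivity of `T`), `u = U r`, `p = P (T r, U r) = X r`. -/
def StD1a : Prop :=
  ∀ (J : ℝ × R4 → R4) (t₀ u₀ : ℝ) (p₀ : R4), PreCross J t₀ u₀ p₀ → Slope J t₀ u₀ p₀ →
    ∃ (T : ℝ → ℝ) (X : ℝ → R4) (η₀ : ℝ), 0 < η₀ ∧ ContDiffOn ℝ ∞ T (Ioo (-η₀) η₀) ∧
      (StrictMonoOn T (Ioo (-η₀) η₀) ∨ StrictAntiOn T (Ioo (-η₀) η₀)) ∧ T 0 = t₀ ∧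
      ContinuousAt X 0 ∧ X 0 = p₀ ∧
      (∀ r ∈ Ioo (-η₀) η₀, (X r).1 = 1 / 2 ∧ rsq 0 (X r) = 1 / 25 + r) ∧
      ∀ᶠ q : ℝ × R4 × R4 in 𝓝 ((0 : ℝ), p₀, ((1 / 2, u₀, 0) : R4)), q.2.1 ∈ FB → q.2.2 ∈ FB →
        J (T q.1, q.2.1) = J (T q.1, q.2.2) → q.2.1 = X q.1

/-- **D1b.** From local to global.
Proof.  (0) `SH η` shrinks to `SP`: for every open `V ⊇ SP` there is `η > 0` with `SH η ⊆ V`: on the compact
set `FB \ V` one has `min (rsq 0 p) (rsq 1 p) < 1/25` (a point of `FB` with both `≥ 1/25` is in `SP`), so the maximum is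
`< 1/25`.  Similarly `CL η` shrinks to `sph 0 ∪ sph 1`.  With the (generalized) tube lemma: every
neighbourhood of `{0} × SP × SP` contains `[-η,η] × SH η × SH η` for small `η`.
(1) `inj`: it suffices that for all `(p, q) ∈ SP × SP`, for all `(r, p', q')` near `(0, p, q)` with `p', q' ∈ FB`:
`J (T r, p') = J (T r, q')` implies `p' = q'` or `p' = X r` or `q' = X r`.  If `J (t₀, p) ≠ J (t₀, q)`: continuity.  If `p = q`:
`(t, p) ↦ (t, J (t, p))` is smooth near `(t₀, p)` with injective derivative, so injective near `(t₀, p)`.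
If `(p, q)` is `(p₀, (1/2,u₀,0))` or conversely: the hypothesis `huniq`.
(2) `injA`: the same for `(p, q) ∈ (sph 0 ∪ sph 1)²`, where only the cases `J (t₀,p) ≠ J (t₀,q)` and `p = q` occur
(`(1/2,u₀,0) ∉ sph 0 ∪ sph 1`).
(3) `loc`, `smooth`: at the points near `(t₀, p)`, `p ∈ SP`, `J` is smooth and `(t,p) ↦ (t, J (t,p))` is a local
diffeomorphism (open condition), so `fderiv (J (t, ·)) p` is injective.  `T` is smooth on `(-η₀, η₀)` and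
continuous, `T r` is near `t₀`.  (4) `re`: `X` is continuous at `0`. -/
def StD1b : Prop :=
  ∀ (J : ℝ × R4 → R4) (t₀ u₀ : ℝ) (p₀ : R4), PreCross J t₀ u₀ p₀ →
    ∀ (T : ℝ → ℝ) (X : ℝ → R4) (η₀ : ℝ), 0 < η₀ → ContDiffOn ℝ ∞ T (Ioo (-η₀) η₀) → T 0 = t₀ →
      ContinuousAt X 0 → X 0 = p₀ →
      (∀ r ∈ Ioo (-η₀) η₀, (X r).1 = 1 / 2 ∧ rsq 0 (X r) = 1 / 25 + r) →
      (∀ᶠ q : ℝ × R4 × R4 in 𝓝 ((0 : ℝ), p₀, ((1 / 2, u₀, 0) : R4)), q.2.1 ∈ FB → q.2.2 ∈ FB →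
        J (T q.1, q.2.1) = J (T q.1, q.2.2) → q.2.1 = X q.1) →
      ∀ ε > 0, ∃ η > 0, η < η₀ ∧ Cross (fun q => J (T q.1, q.2)) X η ∧
        ∀ r ∈ Icc (-η) η, |T r - t₀| < ε

/-! ## SHR: the shear -/

/-- a polynomial shear fixing the spine pointwise -/
noncomputable def shr (c : ℝ) (p : R4) : R4 :=
  (p.1 + c * (Complex.normSq p.2.2 * ((rsq 0 p - 1 / 25) * (rsq 1 p - 1 / 25))), p.2)

/-- **SHR.** The shear does not change the classes, and can be used to achieve `Slope`.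
Proof. `shr c` is a polynomial diffeomorphism of `R4` with inverse `shr (-c)` (`rsq` and `w` depend on
`p.2` only), derivative `v ↦ (v.1 + c g'(v), v.2)`; it fixes `sph 0`, `sph 1`, `neck` pointwise.
First claim: family `F (shr (t c) p)` along `SP`, `StT2` (iii), in both directions.
Second claim: `G q = J (q.1, shr c q.2)`.  All fields of `PreCross` for `G`: `shr c p = p` on `SP`;
`smooth`, `loc` by composition; `frozen` by continuity of `shr c`; `trans`: near `x₀` the function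
`G (x.1, (1/2, x.2, 0))` is `J (x.1, (1/2, x.2, 0))` (`w = 0`), and
`fderiv (G (t₀, ·)) p₀ v = fderiv (J (t₀, ·)) p₀ (v.1 + c k drsq 0 p₀ v, v.2)` with
`k = 2 |w₀|² (rsq 1 p₀ - 1/25) ≠ 0` (`rsq 0 p₀ = 1/25`; `rsq 1 p₀ ≥ 16/25`), which is
`fderiv (J (t₀, ·)) p₀ v` if `drsq 0 p₀ v = 0`.
`Slope`: let `ξ` be the vector with `fderiv (J (t₀,·)) p₀ ξ = fderiv H (t₀,u₀) (0,1)` (the derivative of a
local diffeomorphism is bijective).  If `ξ.1 ≠ 0` take `c = 0`.  Otherwise `drsq 0 p₀ ξ ≠ 0` by `trans`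
(`ζ = (0,1) ≠ 0`); take `c = 1`: if `fderiv (G (t₀,·)) p₀ v = fderiv H (0,1)` then
`v.1 + k drsq 0 p₀ v = ξ.1 = 0`, `v.2 = ξ.2`, so `v.1 = - k drsq 0 p₀ ξ ≠ 0`. -/
def StShr : Prop :=
  (∀ (F : R4 → R4) (c : ℝ), EmbOn 𝓘(ℝ, R4) F SP → EmbOn 𝓘(ℝ, R4) (fun p => F (shr c p)) SP ∧
    ∀ φ, (Thin 𝓘(ℝ, R4) (fun p => F (shr c p)) φ ↔ Thin 𝓘(ℝ, R4) F φ)) ∧
  (∀ c : ℝ, ∀ p ∈ SP, shr c p = p) ∧
  ∀ (J : ℝ × R4 → R4) (t₀ u₀ : ℝ) (p₀ : R4), PreCross J t₀ u₀ p₀ →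
    ∃ c : ℝ, PreCross (fun q => J (q.1, shr c q.2)) t₀ u₀ p₀ ∧
      Slope (fun q => J (q.1, shr c q.2)) t₀ u₀ p₀

/-! ## MRL: the relation `MR` -/

/-- **MRL.** Properties of the relation `MR`.
Proof (uses `StT2`, `StN1`, `StCI`, `StSwap`, `A0` in the form of Loc.lean).
Reflexive: uniqueness of the class (`T2` (ii)), `n = id`.  Symmetric: `CIsot ψ (n ∘ φ)`; `InN n` implies
`CIsot n n` (`N1`), so `n` has an inverse `n'` (`CI`), `InN n'` (`InN.inv`), and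
`CIsot φ (n' ∘ ψ)` (compose with `CIsot n' n'`, symmetric).  Transitive: `G` has a representative by `T2` (i);
`InN.mul`.  Families: for `t₁ ≤ t₂` put `J' (τ, p) = J (t₁ + τ (t₂ - t₁), p)`: `FamOn` (the set of
points where `J'` is smooth near is open; contains `[0,1] × SP`), `T2` (iii).
Swap: let `φ`, `ψ` represent `F`, `G`; their inverses `φ'`, `ψ'` (they exist by `T2` (vii), `CI`) represent
`F ∘ swp`, `G ∘ swp` (`StSwap`); so `CIsot ψ' (n ∘ φ')`, and taking inverses `CIsot ψ (φ ∘ n')` with `n' = n⁻¹ ∈ N`,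
and `φ ∘ n' = n'' ∘ φ` with `n'' ∈ N` (`N1` (iii)).
Jet: `MR F G` depends only on the classes. -/
def StMRL : Prop :=
  (∀ F, MR F F) ∧ (∀ F G, MR F G → MR G F) ∧
  (∀ F G H, EmbOn 𝓘(ℝ, R4) G SP → MR F G → MR G H → MR F H) ∧
  (∀ (J : ℝ × R4 → R4) (t₁ t₂ : ℝ), t₁ ≤ t₂ →
    (∀ t ∈ Icc t₁ t₂, ∀ p ∈ SP, ∀ᶠ q in 𝓝 (t, p), ContDiffAt ℝ ∞ J q) →
    (∀ t ∈ Icc t₁ t₂, EmbOn 𝓘(ℝ, R4) (fun p => J (t, p)) SP) →
    MR (fun p => J (t₁, p)) (fun p => J (t₂, p))) ∧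
  (∀ F G, EmbOn 𝓘(ℝ, R4) F SP → EmbOn 𝓘(ℝ, R4) G SP →
    MR (fun p => F (swp p)) (fun p => G (swp p)) → MR F G) ∧
  (∀ F F' G, (∀ φ, (Thin 𝓘(ℝ, R4) F φ ↔ Thin 𝓘(ℝ, R4) F' φ)) → MR F G → MR F' G)

/-! ## CR, LG: local and global invariance modulo `N` -/

/-- **CR.** Crossing at `t₀`, without `Slope`.
Proof. `StShr` gives `c`; `D1a`, `D1b`, `D2` for `J' = J ∘ (id × shr c)`: there are `r ∈ (0, η]` and times
`T r`, `T (-r)` on different sides of `t₀` (`T` is strictly monotone or antitone, `T 0 = t₀`) with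
`|T (±r) - t₀| < ε` and `MR (J' (T r, ·)) (J' (T (-r), ·))`; `J' (T (±r), ·)` is injective on `SP` because
`X (±r) ∉ SP` (`rsq 0 (X r) = 1/25 + r ≠ 1/25`, `w ≠ 0`, `rsq 0 (X r) < 16/25`), and `shr c` fixes `SP`, so
`J (T (±r), ·)` is injective on `SP`; for the classes use `StShr` (its `EmbOn` hypothesis: `J (t, ·)` is
locally diffeomorphic along `SP` because `J (t, ·) = J' (t, ·) ∘ shr (-c)` and `Cross.loc`).
By symmetry of `MR` one may order the two times. -/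
def StCR : Prop :=
  ∀ (J : ℝ × R4 → R4) (t₀ u₀ : ℝ) (p₀ : R4), PreCross J t₀ u₀ p₀ → ∀ ε > 0,
    ∃ t₁ ∈ Ioo (t₀ - ε) t₀, ∃ t₂ ∈ Ioo t₀ (t₀ + ε), EmbOn 𝓘(ℝ, R4) (fun p => J (t₁, p)) SP ∧
      EmbOn 𝓘(ℝ, R4) (fun p => J (t₂, p)) SP ∧ MR (fun p => J (t₁, p)) (fun p => J (t₂, p))

/-- **LG.** From local to global in time.
Proof (uses `StMRL`, `StCR`).  `C = {t | ¬ InjOn (J (t, ·)) SP}` is finite.  Local claim: every `t` has `ε > 0` such that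
`MR (J (t', ·)) (J (t'', ·))` for all `t', t'' ∈ (t - ε, t + ε) \ C`.  Choose `ε` with
`(t - ε, t + ε) ∩ C ⊆ {t}`.  If `t ∉ C`, or `t', t''` are on the same side of `t`: families (`StMRL`, 4th; symmetric).
If `t' < t < t''` and `t ∈ C`: `CR` (or `CR` for the swapped family and `StMRL`, 5th; note
`EmbOn (J ∘ swp) SP ↔ EmbOn J SP`) gives `t₁ ∈ (t - ε, t)`, `t₂ ∈ (t, t + ε)`; chain
`t' ~ t₁ ~ t₂ ~ t''`.  The set `{t | ∀ᶠ t' in 𝓝 t, t' ∉ C → MR (J (0, ·)) (J (t', ·))}` is open, contains `0`, and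
is closed by the local claim (`Cᶜ` is dense), so it is `ℝ`; take `t = 1` (`1 ∉ C`, `self_of_nhds`). -/
def StLG : Prop :=
  ∀ J : ℝ × R4 → R4, BFam J → EmbOn 𝓘(ℝ, R4) (fun p => J (0, p)) SP →
    EmbOn 𝓘(ℝ, R4) (fun p => J (1, p)) SP → MR (fun p => J (0, p)) (fun p => J (1, p))

/-! ## CH: charts of the cuffs -/

/-- stereographic parametrization of the unit sphere of three-space minus `(1, 0)` -/
noncomputable def st (y : ℂ) : R3 :=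
  ((Complex.normSq y - 1) / (Complex.normSq y + 1), (2 / (Complex.normSq y + 1)) • y)

/-- parametrization of the first (`false`) and the second (`true`) core sphere minus the foot -/
noncomputable def cst (b : Bool) (y : ℂ) : R4 :=
  (1 / 2, if b then 1 - (st y).1 / 5 else (st y).1 / 5, (1 / 5 : ℝ) • (st y).2)

/-- the circle `Re w = 0` on the core spheres -/
noncomputable def crv (b : Bool) (θ : ℝ) : R4 :=
  (1 / 2, (if b then 1 else 0) + Real.cos θ / 5, ⟨0, Real.sin θ / 5⟩)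

/-- **CH.** Charts of the cuffs of a germ.
Proof.  `|st y| = 1`, `st y ≠ (1,0)`, and every `x` with `|x| = 1`, `x ≠ (1,0)` is `st (σ x)`,
`σ x = x.2 / (1 - x.1)`, `σ (st y) = y`.  So `cst b` is a bijection of `ℂ` onto `sph b` minus the foot
(`(1/2,1/5,0)` resp. `(1/2,4/5,0)`), smooth, with a continuous inverse (`cinv`) defined near every point.
`Charts`: closed: image of a compact set under a map continuous on it; smooth: `F` is smooth near the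
points of `SP`; `nhds`: let `V₀ ⊆ V` be open, `y ∈ V₀`; the set `K = (sph 0 ∪ sph 1) \ cst b '' V₀` is compact
(`cst b '' V₀` is the intersection of `sph b` with an open set: `{p | foot ≠ p, cinv p ∈ V₀}`), `F '' K` is
closed and does not contain `F (cst b y)` (injectivity); `W = (F '' K)ᶜ`.
Tangent vectors: for `x = st y`, `v = (α, β)` with `x.1 α + Re (x.2 conj β) = 0` put
`η = β / (1 - x.1) + (α / (1 - x.1)²) x.2`; then `D st(y) η = v` (direct computation: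
`|y|² + 1 = 2/(1 - x.1)`, `⟨y, η⟩ = α / (1 - x.1)²`).  Apply this to `5 v.2` resp. the reflected vector, and
the chain rule for `F ∘ cst b`. -/
def StCH : Prop :=
  ∀ F : R4 → R4, EmbOn 𝓘(ℝ, R4) F SP →
    Charts (F '' (sph 0 ∪ sph 1)) (F (1 / 2, 1 / 5, 0)) (F (1 / 2, 4 / 5, 0))
      (fun b y => F (cst b y)) (fun _ => univ) ∧
    (∀ p ∈ sph 0, p ≠ (1 / 2, 1 / 5, 0) → ∃ y, cst false y = p) ∧
    (∀ p ∈ sph 1, p ≠ (1 / 2, 4 / 5, 0) → ∃ y, cst true y = p) ∧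
    (∀ (b : Bool) (y : ℂ) (v : R4), v.1 = 0 → drsq (if b then 1 else 0) (cst b y) v = 0 →
      ∃ η : ℂ, fderiv ℝ (fun y => F (cst b y)) y η = fderiv ℝ F (cst b y) v) ∧
    (∀ b : Bool, ContDiff ℝ ∞ (fun θ => F (crv b θ))) ∧
    (∀ p ∈ sph 0, p.2.2.re = 0 → ∃ θ, crv false θ = p) ∧
    ∀ p ∈ sph 1, p.2.2.re = 0 → ∃ θ, crv true θ = p

/-! ## CO: global core functions -/

/-- **CO.** The two core arcs extended to smooth functions on the line.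
Proof.  Let `e u = (1/2, u, 0)`.  There is `r > 0` such that `F` and `F'` are smooth near `e u` for
`u ∈ (1/5 - r, 4/5 + r)` and `e u ∈ U` for `|u - 1/5| < r` and `|u - 4/5| < r`.  `Ψ` smooth, `1` on
`[1/5 - r/3, 4/5 + r/3]`, `0` off `[1/5 - 2r/3, 4/5 + 2r/3]`; `c₀ u = Ψ u • F (e u)`,
`c₁ u = Ψ u • F' (e u)`; `2 δ < r`, `δ < 1/10`.  The derivative is the derivative of the germ applied to
`(0,1,0)` on `[1/5, 4/5]`, nonzero (`injective_fderiv`, Loc.lean). -/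
def StCO : Prop :=
  ∀ (F F' : R4 → R4) (U : Set R4), EmbOn 𝓘(ℝ, R4) F SP → EmbOn 𝓘(ℝ, R4) F' SP → IsOpen U →
    sph 0 ∪ sph 1 ⊆ U → EqOn F F' U →
    ∃ (c₀ c₁ : ℝ → R4) (δ : ℝ), 0 < δ ∧ δ < 1 / 10 ∧ ContDiff ℝ ∞ c₀ ∧ ContDiff ℝ ∞ c₁ ∧
      (∀ u ∈ Icc (1 / 5 : ℝ) (4 / 5), F (1 / 2, u, 0) = c₀ u ∧ F' (1 / 2, u, 0) = c₁ u) ∧
      (∀ u, (u ≤ 1 / 5 + 2 * δ ∨ 4 / 5 - 2 * δ ≤ u) → c₀ u = c₁ u) ∧
      ∀ u ∈ Icc (1 / 5 : ℝ) (4 / 5), deriv c₀ u ≠ 0 ∧ deriv c₁ u ≠ 0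

end Pool.Agent.Helper34.BI


end

/-! ## Helper18.BI.M_R0 -/

section

/-!
# Project BI, module R0: the ramp function
-/

set_option autoImplicit false

open scoped Manifold ContDiff Topology
open Set Pool.Agent.Helper65.Barb MeasureTheory

namespace Pool.Agent.Helper18.BI

theorem R0.cont_step : Continuous step := contDiff_step.continuous

theorem R0.step_nonneg (t : ℝ) : 0 ≤ step t := Real.smoothTransition.nonneg t

theorem R0.step_le_one (t : ℝ) : step t ≤ 1 := Real.smoothTransition.le_one t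

theorem R0.int (a b : ℝ) : IntervalIntegrable step volume a b :=
  R0.cont_step.intervalIntegrable a b

theorem R0.hasDeriv (x : ℝ) : HasDerivAt ramp (step x) x :=
  (R0.cont_step.integral_hasStrictDerivAt 0 x).hasDerivAt

theorem R0.zero (x : ℝ) (hx : x ≤ 0) : ramp x = 0 := by
  unfold ramp
  have h : ∫ t in (0 : ℝ)..x, step t = ∫ _t in (0 : ℝ)..x, (0 : ℝ) := by
    apply intervalIntegral.integral_congr
    intro t ht
    rw [uIcc_of_ge hx] at ht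
    exact step_of_nonpos ht.2
  rw [h, intervalIntegral.integral_zero]

theorem R0.nonneg (x : ℝ) : 0 ≤ ramp x := by
  rcases le_total x 0 with h | h
  · rw [R0.zero x h]
  · exact intervalIntegral.integral_nonneg h (fun t _ => R0.step_nonneg t)

theorem R0.lower (x : ℝ) : x - 1 ≤ ramp x := by
  rcases le_total x 1 with h | h
  · have := R0.nonneg x
    linarith
  · have h1 : ramp x = ramp 1 + ∫ t in (1 : ℝ)..x, step t := by
      unfold ramp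
      rw [intervalIntegral.integral_add_adjacent_intervals (R0.int 0 1) (R0.int 1 x)]
    have h2 : ∫ t in (1 : ℝ)..x, step t = ∫ _t in (1 : ℝ)..x, (1 : ℝ) := by
      apply intervalIntegral.integral_congr
      intro t ht
      rw [uIcc_of_le h] at ht
      exact step_of_one_le ht.1
    rw [h2, intervalIntegral.integral_const, smul_eq_mul, mul_one] at h1
    have := R0.nonneg 1
    linarith

theorem R0.upper (x : ℝ) (hx : 0 ≤ x) : ramp x ≤ x := by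
  have h1 : ramp x ≤ ∫ _t in (0 : ℝ)..x, (1 : ℝ) := by
    unfold ramp
    exact intervalIntegral.integral_mono_on hx (R0.int 0 x) intervalIntegrable_const
      (fun t _ => R0.step_le_one t)
  rw [intervalIntegral.integral_const, smul_eq_mul, mul_one, sub_zero] at h1
  exact h1

theorem m_R0 : StR0 := by
  refine ⟨?_, R0.hasDeriv, R0.zero, R0.nonneg, R0.lower, R0.upper⟩
  rw [contDiff_infty_iff_deriv]
  refine ⟨fun x => (R0.hasDeriv x).differentiableAt, ?_⟩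
  have h : deriv ramp = step := funext fun x => (R0.hasDeriv x).deriv
  rw [h]
  exact contDiff_step

end Pool.Agent.Helper18.BI


end
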