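import Pool.Agent.Helper65.Barb.Defs
import Pool.Agent.Helper70.BI.C.P01
import Pool.Agent.Helper70.BI.C.P02

/-!
# Project BI (MP_8e98f2_gt): collected modules, part 06

The contents of the modules
* Helper70.BI.Base
* Helper27.BI.H.Defs
* Helper27.BI.R.Kap

in one file, so that the whole proof builds in a short time.
-/

namespace Pool.Agent.Helper18.BI
end Pool.Agent.Helper18.BI

namespace Pool.Agent.Helper34.BI
end Pool.Agent.Helper34.BI

namespace Pool.Agent.Helper65.Barb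
end Pool.Agent.Helper65.Barb

namespace Pool.Agent.Helper70.BI
end Pool.Agent.Helper70.BI


/-! ## Helper70.BI.Base -/

section

/-!
# Project BI, part (E): basic definitions and lemmas on germs along compact sets
-/

set_option autoImplicit false

open scoped Manifold ContDiff Topology ComplexConjugate
open Set Filter Pool.Agent.Helper65.Barb Pool.Agent.Helper18.BI Pool.Agent.Helper34.BI

namespace Pool.Agent.Helper70.BI

/-- the model of four-space -/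
noncomputable abbrev I4 : ModelWithCorners ℝ R4 R4 := 𝓘(ℝ, R4)

/-- the point `(1/2, a, 0)` of the axis -/
noncomputable def ax (a : ℝ) : R4 := (1 / 2, (a, 0))

/-- the core of the bar of the germ `F` -/
noncomputable def core (F : R4 → R4) (a : ℝ) : R4 := F (ax a)

/-- the germs `F` and `F'` have the same implantation class -/
def Eqv (F F' : R4 → R4) : Prop := ∀ φ : R4 → R4, Thin I4 F φ ↔ Thin I4 F' φ

/-- `F` and `F'` agree on a neighbourhood of `L` -/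
def NearEq (F F' : R4 → R4) (L : Set R4) : Prop := ∃ U : Set R4, IsOpen U ∧ L ⊆ U ∧ EqOn F F' U

/-- local diffeomorphisms of `R4` -/
abbrev LD (F : R4 → R4) (p : R4) : Prop := IsLocalDiffeomorphAt 𝓘(ℝ, R4) 𝓘(ℝ, R4) ∞ F p

/-- Interface to part (A): a family of germs along the spine has a constant class. -/
def StFam : Prop :=
  ∀ J : ℝ × R4 → R4, FamOn I4 J SP → Eqv (fun p => J (0, p)) (fun p => J (1, p))

theorem Eqv.refl (F : R4 → R4) : Eqv F F := fun _ => Iff.rfl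
theorem Eqv.symm {F F' : R4 → R4} (h : Eqv F F') : Eqv F' F := fun φ => (h φ).symm
theorem Eqv.trans {F F' F'' : R4 → R4} (h : Eqv F F') (h' : Eqv F' F'') : Eqv F F'' :=
  fun φ => (h φ).trans (h' φ)

theorem ld_iff {F : R4 → R4} {p : R4} :
    LD F p ↔ (∀ᶠ q in 𝓝 p, ContDiffAt ℝ ∞ F q) ∧ Function.Injective (fderiv ℝ F p) :=
  isLocalDiffeomorphAt_iff rfl

theorem embOn_iff {F : R4 → R4} {L : Set R4} :
    EmbOn I4 F L ↔ (∀ p ∈ L, (∀ᶠ q in 𝓝 p, ContDiffAt ℝ ∞ F q) ∧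
      Function.Injective (fderiv ℝ F p)) ∧ InjOn F L := by
  unfold EmbOn
  refine and_congr (forall_congr' fun p => forall_congr' fun _ => ?_) Iff.rfl
  exact ld_iff

theorem ld_congr {F F' : R4 → R4} {p : R4} (h : F =ᶠ[𝓝 p] F') (hF : LD F p) : LD F' p := by
  rw [ld_iff] at hF ⊢
  refine ⟨?_, ?_⟩
  · filter_upwards [hF.1, h.eventuallyEq_nhds] with q h1 h2
    exact h1.congr_of_eventuallyEq h2.symm
  · rw [← h.fderiv_eq]; exact hF.2

theorem ld_comp {F m : R4 → R4} {p : R4} (hm : LD m p) (hF : LD F (m p)) : LD (F ∘ m) p := by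
  rw [ld_iff] at hm hF ⊢
  have cm : ContinuousAt m p := hm.1.self_of_nhds.continuousAt
  refine ⟨?_, ?_⟩
  · filter_upwards [hm.1, cm.eventually hF.1] with q h1 h2
    exact h2.comp q h1
  · rw [fderiv_comp p (hF.1.self_of_nhds.differentiableAt (by simp))
      (hm.1.self_of_nhds.differentiableAt (by simp))]
    exact hF.2.comp hm.2

theorem EmbOn.mono' {F : R4 → R4} {L L' : Set R4} (h : EmbOn I4 F L) (hs : L' ⊆ L) :
    EmbOn I4 F L' := ⟨fun p hp => h.1 p (hs hp), h.2.mono hs⟩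

theorem embOn_comp {F m : R4 → R4} {L L' : Set R4} (hF : EmbOn I4 F L) (hm : EmbOn I4 m L')
    (hs : ∀ p ∈ L', m p ∈ L) : EmbOn I4 (F ∘ m) L' :=
  ⟨fun p hp => ld_comp (hm.1 p hp) (hF.1 (m p) (hs p hp)), fun p hp q hq he =>
    hm.2 hp hq (hF.2 (hs p hp) (hs q hq) he)⟩

theorem NearEq.symm {F F' : R4 → R4} {L : Set R4} (h : NearEq F F' L) : NearEq F' F L := by
  obtain ⟨U, h1, h2, h3⟩ := h
  exact ⟨U, h1, h2, h3.symm⟩

theorem NearEq.eventuallyEq {F F' : R4 → R4} {L : Set R4} (h : NearEq F F' L) {p : R4}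
    (hp : p ∈ L) : F =ᶠ[𝓝 p] F' := by
  obtain ⟨U, h1, h2, h3⟩ := h
  exact h3.eventuallyEq_of_mem (h1.mem_nhds (h2 hp))

theorem nearEq_of_eventuallyEq {F F' : R4 → R4} {L : Set R4}
    (h : ∀ p ∈ L, F =ᶠ[𝓝 p] F') : NearEq F F' L := by
  refine ⟨interior {q | F q = F' q}, isOpen_interior, fun p hp => ?_, fun q hq => ?_⟩
  · exact mem_interior_iff_mem_nhds.2 (h p hp)
  · have h1 : q ∈ {q | F q = F' q} := interior_subset hq
    exact h1

theorem embOn_congr {F F' : R4 → R4} {L : Set R4} (h : NearEq F F' L) (hF : EmbOn I4 F L) :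
    EmbOn I4 F' L := by
  refine ⟨fun p hp => ld_congr (h.eventuallyEq hp) (hF.1 p hp), ?_⟩
  obtain ⟨U, h1, h2, h3⟩ := h
  exact hF.2.congr (h3.mono h2)

/-- A criterion for families of germs: `J` is smooth near each point of `[0,1] × L`. -/
theorem famOn_iff {J : ℝ × R4 → R4} {L : Set R4} :
    FamOn I4 J L ↔ (∀ t ∈ Icc (0 : ℝ) 1, ∀ p ∈ L, ∀ᶠ z in 𝓝 (t, p), ContDiffAt ℝ ∞ J z) ∧
      ∀ t ∈ Icc (0 : ℝ) 1, EmbOn I4 (fun p => J (t, p)) L := by
  constructor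
  · rintro ⟨⟨W, hW, hs, hd⟩, h2⟩
    refine ⟨fun t ht p hp => ?_, h2⟩
    filter_upwards [hW.mem_nhds (hs ⟨ht, hp⟩)] with z hz
    exact (contMDiffOn_iff_contDiffOn.1 hd).contDiffAt (hW.mem_nhds hz)
  · rintro ⟨h1, h2⟩
    refine ⟨⟨interior {z | ContDiffAt ℝ ∞ J z}, isOpen_interior, ?_, ?_⟩, h2⟩
    · rintro ⟨t, p⟩ ⟨ht, hp⟩
      exact mem_interior_iff_mem_nhds.2 (h1 t ht p hp)
    · refine contMDiffOn_iff_contDiffOn.2 fun z hz => ?_
      have h3 : z ∈ {z | ContDiffAt ℝ ∞ J z} := interior_subset hz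
      exact ContDiffAt.contDiffWithinAt h3

/-- Precomposition of a family of germs with a family of germs of maps into the support. -/
theorem famOn_comp {J m : ℝ × R4 → R4} {L L' : Set R4} (hJ : FamOn I4 J L)
    (hm : FamOn I4 m L') (hs : ∀ t ∈ Icc (0 : ℝ) 1, ∀ p ∈ L', m (t, p) ∈ L) :
    FamOn I4 (fun z => J (z.1, m z)) L' := by
  rw [famOn_iff] at hJ hm ⊢
  refine ⟨fun t ht p hp => ?_, fun t ht => ?_⟩
  · have h1 := hm.1 t ht p hp
    have h2 := hJ.1 t ht (m (t, p)) (hs t ht p hp)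
    have h3 : ContinuousAt (fun z : ℝ × R4 => (z.1, m z)) (t, p) :=
      continuousAt_fst.prodMk h1.self_of_nhds.continuousAt
    filter_upwards [h1, h3.eventually h2] with z e1 e2
    exact e2.comp z (contDiffAt_fst.prodMk e1)
  · exact embOn_comp (hJ.2 t ht) (hm.2 t ht) (hs t ht)

/-- a constant family -/
theorem famOn_const {F : R4 → R4} {L : Set R4} (hF : EmbOn I4 F L) :
    FamOn I4 (fun z => F z.2) L := by
  rw [famOn_iff]
  refine ⟨fun t _ p hp => ?_, fun t _ => hF⟩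
  have h1 := (ld_iff.1 (hF.1 p hp)).1
  have h3 : ContinuousAt (fun z : ℝ × R4 => z.2) (t, p) := continuousAt_snd
  filter_upwards [h3.eventually h1] with z e1
  exact e1.comp z contDiffAt_snd

theorem famOn_congr {J J' : ℝ × R4 → R4} {L : Set R4} (hJ : FamOn I4 J L)
    (h : ∀ t ∈ Icc (0 : ℝ) 1, ∀ p ∈ L, J =ᶠ[𝓝 (t, p)] J') : FamOn I4 J' L := by
  rw [famOn_iff] at hJ ⊢
  refine ⟨fun t ht p hp => ?_, fun t ht => ?_⟩
  · filter_upwards [hJ.1 t ht p hp, (h t ht p hp).eventuallyEq_nhds] with z e1 e2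
    exact e1.congr_of_eventuallyEq e2.symm
  · refine embOn_congr (nearEq_of_eventuallyEq fun p hp => ?_) (hJ.2 t ht)
    have h3 : ContinuousAt (fun q : R4 => (t, q)) p := by fun_prop
    exact h3.eventually (h t ht p hp)

/-- germs which agree near the spine have the same class -/
theorem eqv_of_nearEq (hA : StFam) {F F' : R4 → R4} (hF : EmbOn I4 F SP) (h : NearEq F F' SP) :
    Eqv F F' := by
  classical
  have hJ : FamOn I4 (fun z : ℝ × R4 => if z.1 < 1 / 2 then F z.2 else F' z.2) SP := by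
    refine famOn_congr (famOn_const hF) fun t _ p hp => ?_
    have h3 : ContinuousAt (fun z : ℝ × R4 => z.2) (t, p) := continuousAt_snd
    filter_upwards [h3.eventually (h.eventuallyEq hp)] with z hz
    split_ifs
    · rfl
    · exact hz
  have := hA _ hJ
  rwa [show (fun p : R4 => if ((0 : ℝ), p).1 < 1 / 2 then F ((0 : ℝ), p).2
      else F' ((0 : ℝ), p).2) = F from funext fun p => if_pos (by norm_num),
    show (fun p : R4 => if ((1 : ℝ), p).1 < 1 / 2 then F ((1 : ℝ), p).2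
      else F' ((1 : ℝ), p).2) = F' from funext fun p => if_neg (by norm_num)] at this

/-- precomposition with a family of germs of maps into the support of `F` -/
theorem eqv_precomp (hA : StFam) {F : R4 → R4} {L : Set R4} (hF : EmbOn I4 F L)
    {m : ℝ × R4 → R4} (hm : FamOn I4 m SP) (hs : ∀ t ∈ Icc (0 : ℝ) 1, ∀ p ∈ SP, m (t, p) ∈ L) :
    Eqv (fun p => F (m (0, p))) (fun p => F (m (1, p))) :=
  hA _ (famOn_comp (famOn_const hF) hm hs)

/-- a smooth family of maps with pointwise invertible derivatives, injective on `L` -/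
theorem famOn_of_contDiff {m : ℝ × R4 → R4} {L : Set R4} (hm : ContDiff ℝ ∞ m)
    (hd : ∀ t ∈ Icc (0 : ℝ) 1, ∀ p ∈ L, Function.Injective (fderiv ℝ (fun q => m (t, q)) p))
    (hi : ∀ t ∈ Icc (0 : ℝ) 1, InjOn (fun q => m (t, q)) L) : FamOn I4 m L := by
  rw [famOn_iff]
  refine ⟨fun t _ p _ => Eventually.of_forall fun z => hm.contDiffAt, fun t ht => ?_⟩
  rw [embOn_iff]
  refine ⟨fun p hp => ⟨Eventually.of_forall fun q => ?_, hd t ht p hp⟩, hi t ht⟩
  have : ContDiff ℝ ∞ (fun q : R4 => m (t, q)) := hm.comp (contDiff_prodMk_right t)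
  exact this.contDiffAt

/-- smoothness of a `DFam` of `R4` -/
theorem contDiff_dfam (G : DFam I4 R4) : ContDiff ℝ ∞ G.f := by
  rw [← contMDiff_iff_contDiff, modelWithCornersSelf_prod, ← chartedSpaceSelf_prod]
  exact G.smooth_f

/-- smoothness of the inverse of a `DFam` of `R4` -/
theorem contDiff_dfam_inv (G : DFam I4 R4) : ContDiff ℝ ∞ G.g := by
  rw [← contMDiff_iff_contDiff, modelWithCornersSelf_prod, ← chartedSpaceSelf_prod]
  exact G.smooth_g

/-- the members of a `DFam` of `R4` are local diffeomorphisms -/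
theorem ld_dfam (G : DFam I4 R4) (t : ℝ) (p : R4) : LD (fun q => G.f (t, q)) p := by
  have hf : ContDiff ℝ ∞ (fun q : R4 => G.f (t, q)) :=
    (contDiff_dfam G).comp (contDiff_prodMk_right t)
  have hg : ContDiff ℝ ∞ (fun q : R4 => G.g (t, q)) :=
    (contDiff_dfam_inv G).comp (contDiff_prodMk_right t)
  rw [ld_iff]
  refine ⟨Eventually.of_forall fun q => hf.contDiffAt, ?_⟩
  have d1 : HasFDerivAt (fun q : R4 => G.f (t, q)) (fderiv ℝ (fun q : R4 => G.f (t, q)) p) p :=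
    (hf.differentiable (by simp) p).hasFDerivAt
  have d2 := (hg.differentiable (by simp) (G.f (t, p))).hasFDerivAt
  have d3 := d2.comp p d1
  have d4 := d3.congr_of_eventuallyEq (f₁ := fun x : R4 => x)
    (Eventually.of_forall fun q => (G.gf t q).symm)
  have d5 := d4.unique (hasFDerivAt_id p)
  intro v w hvw
  have := congrArg (fderiv ℝ (fun q : R4 => G.g (t, q)) (G.f (t, p))) hvw
  have e1 : ∀ z, (fderiv ℝ (fun q : R4 => G.g (t, q)) (G.f (t, p)))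
      (fderiv ℝ (fun q : R4 => G.f (t, q)) p z) = z := fun z =>
    congrArg (fun A : R4 →L[ℝ] R4 => A z) d5
  rw [e1, e1] at this
  exact this

theorem famOn_dfam (G : DFam I4 R4) (L : Set R4) : FamOn I4 G.f L := by
  rw [famOn_iff]
  refine ⟨fun t _ p _ => Eventually.of_forall fun z => (contDiff_dfam G).contDiffAt,
    fun t _ => ⟨fun p _ => ld_dfam G t p, fun p _ q _ he => ?_⟩⟩
  have := congrArg (fun y => G.g (t, y)) he
  simpa [G.gf] using this

/-- ambient isotopies do not change the class -/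
theorem eqv_postcomp (hA : StFam) {F : R4 → R4} (hF : EmbOn I4 F SP) (G : DFam I4 R4)
    (h0 : ∀ y, G.f (0, y) = y) : Eqv F (fun p => G.f (1, F p)) := by
  have h := hA _ (famOn_comp (famOn_dfam G univ) (famOn_const hF) fun _ _ _ _ => mem_univ _)
  simpa [h0] using h

end Pool.Agent.Helper70.BI


end

/-! ## Helper27.BI.H.Defs -/

section

/-!
# Project BI, stage 3 (H): definitions

Thick arcs, pushes of thick arcs, the class of a loop of arcs.

`M = R4`.  An arc datum `D` consists of an open set `U` of `R4` (the complement of the wall), a germ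
`D.J` along the segment `D.L = {(s, 0) | s₀ ≤ s ≤ s₁}` with core `D.c` (the base arc; its ends are not in
`U`, its interior is in `U`), and an injective local diffeomorphism `D.e` of `U \ D.J '' D.L` into `R4`.  Arcs move
inside `U`, and only for `s ∈ (m₀, m₁)`, where `s₀ < m₀ < m₁ < s₁`.
-/

set_option autoImplicit false

open scoped Manifold ContDiff Topology ComplexConjugate
open Set Filter Pool.Agent.Helper65.Barb Pool.Agent.Helper18.BI
open Pool.Agent.Helper70.BI (I4 LD Eqv NearEq)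

namespace Pool.Agent.Helper27.H

/-- the unit square -/
def Q2 : Set (ℝ × ℝ) := Icc 0 1 ×ˢ Icc 0 1

/-- Smooth families, parametrized by `Q`, of germs of embeddings along `L`, constant on `V` (the frozen
part), with values in `U` on the rest of `L`. -/
structure Fam2 (Q : Set (ℝ × ℝ)) (L V U : Set R4) (J : ℝ × ℝ → R4 → R4) : Prop where
  smooth : ∀ a ∈ Q, ∀ p ∈ L, ∀ᶠ z : (ℝ × ℝ) × R4 in 𝓝 (a, p),
    ContDiffAt ℝ ∞ (fun z : (ℝ × ℝ) × R4 => J z.1 z.2) z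
  emb : ∀ a ∈ Q, EmbOn I4 (J a) L
  froz : ∀ a ∈ Q, ∀ b ∈ Q, ∀ p ∈ V, J a p = J b p
  inU : ∀ a ∈ Q, ∀ p ∈ L, p ∉ V → J a p ∈ U

/-- supported in a compact subset of `U` -/
def SuppU (U : Set R4) (F : DFam 𝓘(ℝ, R4) R4) : Prop :=
  ∃ K : Set R4, IsCompact K ∧ K ⊆ U ∧ ∀ t x, x ∉ K → F.f (t, x) = x

/-- `φ` and `ψ` are joined by an isotopy with compact support in `U`, all whose members carry the germ
`J₀` along `L` to the germ `J₁`. -/
def LIso (U L : Set R4) (J₀ J₁ φ ψ : R4 → R4) : Prop :=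
  ∃ F : DFam 𝓘(ℝ, R4) R4, (∀ x, F.f (0, x) = φ x) ∧ (∀ x, F.f (1, x) = ψ x) ∧ SuppU U F ∧
    ∃ N : Set R4, IsOpen N ∧ L ⊆ N ∧ ∀ t, ∀ p ∈ N, F.f (t, J₀ p) = J₁ p

/-- `Θ` is the end of an isotopy with compact support in `U`, starting at the identity, which carries
the germ `J 0` to the germ `J (step t)` at time `t`. -/
def LPush (U L : Set R4) (J : ℝ → R4 → R4) (Θ : R4 → R4) : Prop :=
  ∃ F : DFam 𝓘(ℝ, R4) R4, (∀ x, F.f (0, x) = x) ∧ (∀ x, F.f (1, x) = Θ x) ∧ SuppU U F ∧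
    ∃ N : Set R4, IsOpen N ∧ L ⊆ N ∧ ∀ t ∈ Icc (0 : ℝ) 1, ∀ p ∈ N, F.f (t, J 0 p) = J (step t) p

/-- a segment of the first coordinate axis -/
def seg (s₀ s₁ : ℝ) : Set R4 := {p | s₀ ≤ p.1 ∧ p.1 ≤ s₁ ∧ p.2 = 0}

/-- Arc data, see the top of the file. -/
structure ArcD where
  U : Set R4
  s₀ : ℝ
  m₀ : ℝ
  m₁ : ℝ
  s₁ : ℝ
  J : R4 → R4
  c : ℝ → R4
  e : R4 → R4
  openU : IsOpen U
  h₀ : s₀ < m₀
  h₁ : m₀ < m₁
  h₂ : m₁ < s₁
  smooth : ContDiff ℝ ∞ c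
  core : ∀ s ∈ Icc s₀ s₁, J (s, 0) = c s
  emb : EmbOn I4 J (seg s₀ s₁)
  mem : ∀ s ∈ Ioo s₀ s₁, c s ∈ U
  off₀ : c s₀ ∉ U
  off₁ : c s₁ ∉ U
  embe : EmbOn I4 e (U \ J '' seg s₀ s₁)

namespace ArcD

variable (D : ArcD)

/-- the segment of parameters -/
def L : Set R4 := seg D.s₀ D.s₁

/-- the base arc -/
def A : Set R4 := D.J '' D.L

/-- the frozen part -/
def V : Set R4 := {p | p.1 < D.m₀ ∨ D.m₁ < p.1}

/-- Transport of compactly supported diffeomorphisms of `U \ A` by `e`: the class of the diffeomorphism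
`Θ` (the identity near the base arc and the complement of `U`) is `χ`. -/
def Phi (Θ χ : R4 → R4) : Prop :=
  ∃ K : Set R4, IsCompact K ∧ K ⊆ D.U \ D.A ∧ (∀ x, x ∉ K → Θ x = x) ∧
    CIsot I4 χ (imp D.e K Θ)

/-- `χ` is the class of the loop of thick arcs `J`. -/
def TCls (J : ℝ → R4 → R4) (χ : R4 → R4) : Prop :=
  ∃ V : Set R4, IsOpen V ∧ ((D.s₀, 0) : R4) ∈ V ∧ ((D.s₁, 0) : R4) ∈ V ∧
    Fam2 Q2 D.L V D.U (fun a => J a.2) ∧ (∀ p ∈ V, J 0 p = D.J p) ∧ NearEq (J 0) D.J D.L ∧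
    NearEq (J 1) D.J D.L ∧ ∃ Θ, LPush D.U D.L J Θ ∧ D.Phi Θ χ

/-- `χ` is the class of the loop of arcs `c`: of any loop of thick arcs with these cores. -/
def Cls (c : ℝ → ℝ → R4) (χ : R4 → R4) : Prop :=
  ∃ J : ℝ → R4 → R4, (∀ q ∈ Icc (0 : ℝ) 1, ∀ s ∈ Icc D.s₀ D.s₁, J q (s, 0) = c q s) ∧ D.TCls J χ

/-- A homotopy `c (u, q, s)` (`u, q ∈ [0,1]`) of loops of arcs, not necessarily embedded; for fixed `u`, `q` the arc
is `s ↦ c (u, q, s)`; the loop parameter is `q`. -/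
structure Htpy (c : ℝ × ℝ × ℝ → R4) : Prop where
  smooth : ContDiff ℝ ∞ c
  froz : ∀ u ∈ Icc (0 : ℝ) 1, ∀ q ∈ Icc (0 : ℝ) 1, ∀ s, (s ≤ D.m₀ ∨ D.m₁ ≤ s) → c (u, q, s) = D.c s
  inU : ∀ u ∈ Icc (0 : ℝ) 1, ∀ q ∈ Icc (0 : ℝ) 1, ∀ s ∈ Icc D.m₀ D.m₁, c (u, q, s) ∈ D.U
  start : ∀ u ∈ Icc (0 : ℝ) 1, ∀ s, c (u, 0, s) = D.c s
  stop : ∀ u ∈ Icc (0 : ℝ) 1, ∀ s, c (u, 1, s) = D.c s

/-- the arc with parameters `u, q` is immersed -/
def Imm (c : ℝ × ℝ × ℝ → R4) (u q : ℝ) : Prop :=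
  ∀ s ∈ Icc D.s₀ D.s₁, deriv (fun s => c (u, q, s)) s ≠ 0

/-- the arc with parameters `u, q` is injective -/
def Inj (c : ℝ × ℝ × ℝ → R4) (u q : ℝ) : Prop :=
  InjOn (fun s => c (u, q, s)) (Icc D.s₀ D.s₁)

/-- At the parameters `u₀, q₀` the arc has exactly one double point, and it is transverse in the
two-parameter family. -/
structure Xing (c : ℝ × ℝ × ℝ → R4) (u₀ q₀ a b : ℝ) : Prop where
  memu : u₀ ∈ Ioo (0 : ℝ) 1
  memq : q₀ ∈ Ioo (0 : ℝ) 1
  mema : a ∈ Ioo D.s₀ D.s₁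
  memb : b ∈ Ioo D.s₀ D.s₁
  lt : a < b
  eq : c (u₀, q₀, a) = c (u₀, q₀, b)
  uniq : ∀ s ∈ Icc D.s₀ D.s₁, ∀ s' ∈ Icc D.s₀ D.s₁, s < s' → c (u₀, q₀, s) = c (u₀, q₀, s') →
    s = a ∧ s' = b
  trans : ∀ ζ η σ τ : ℝ, fderiv ℝ c (u₀, q₀, a) (ζ, η, σ) = fderiv ℝ c (u₀, q₀, b) (ζ, η, τ) →
    ζ = 0 ∧ η = 0 ∧ σ = 0 ∧ τ = 0

/-- A germ along the spine with the flat balls filled in, each flat ball meets the base arc in its
centre, the vertical lines through the centres are pieces of the base arc, traversed in the same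
direction; the parameter of the first is smaller; orientation preserving with respect to `D.J`. -/
structure XG (T : R4 → R4) : Prop where
  emb : EmbOn I4 T FB
  inU : ∀ p ∈ FB, T p ∈ D.U
  arc : ∀ p ∈ FB, T p ∈ D.A → p = (1 / 2, ((0 : ℝ), (0 : ℂ))) ∨ p = (1 / 2, ((1 : ℝ), (0 : ℂ)))
  str : ∃ σ τ : ℝ → ℝ, ContDiffAt ℝ ∞ σ (1 / 2) ∧ ContDiffAt ℝ ∞ τ (1 / 2) ∧
    0 < deriv σ (1 / 2) ∧ 0 < deriv τ (1 / 2) ∧ D.s₀ < σ (1 / 2) ∧ σ (1 / 2) < τ (1 / 2) ∧
    τ (1 / 2) < D.s₁ ∧ (∀ᶠ s in 𝓝 (1 / 2 : ℝ), T (s, ((0 : ℝ), (0 : ℂ))) = D.J (σ s, 0)) ∧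
    (∀ᶠ s in 𝓝 (1 / 2 : ℝ), T (s, ((1 : ℝ), (0 : ℂ))) = D.J (τ s, 0)) ∧
    0 < (fderiv ℝ T (1 / 2, ((0 : ℝ), (0 : ℂ)))).det * (fderiv ℝ D.J (σ (1 / 2), 0)).det

end ArcD

end Pool.Agent.Helper27.H


end

/-! ## Helper27.BI.R.Kap -/

section

/-!
# Project BI, stage 4 (R): the map `kap`, which moves the first ball parallel to the second one

`kap ζ` is a diffeomorphism of four-space; near the flat ball `flat 0` it is the translation by `(-ζ, 1, 0)`, near the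
flat ball `flat 1` it is the identity; the image of the bar does not meet the vertical line through the centre of
`flat 1`.
-/

set_option autoImplicit false

open scoped Manifold ContDiff Topology ComplexConjugate
open Set Filter Pool.Agent.Helper65.Barb Pool.Agent.Helper18.BI
open Pool.Agent.Helper70.BI (I4 LD ld_iff embOn_iff)

namespace Pool.Agent.Helper27.R

/-- an embedding from a smooth left inverse -/
theorem embOn_of_left {f g : R4 → R4} (hf : ContDiff ℝ ∞ f) (hg : ContDiff ℝ ∞ g)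
    (h : ∀ x, g (f x) = x) (L : Set R4) : EmbOn I4 f L := by
  rw [embOn_iff]
  refine ⟨fun p _ => ⟨Eventually.of_forall fun q => hf.contDiffAt, ?_⟩, fun p _ q _ e => ?_⟩
  · intro v w hvw
    have h1 : HasFDerivAt f (fderiv ℝ f p) p := (hf.differentiable (by simp) p).hasFDerivAt
    have h2 : HasFDerivAt g (fderiv ℝ g (f p)) (f p) := (hg.differentiable (by simp) _).hasFDerivAt
    have h3 : HasFDerivAt (fun x => g (f x)) ((fderiv ℝ g (f p)).comp (fderiv ℝ f p)) p :=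
      h2.comp p h1
    have h4 : (fun x => g (f x)) = fun x => x := funext h
    rw [h4] at h3
    have h5 := h3.unique (hasFDerivAt_id p)
    have h6 : ∀ u, (fderiv ℝ g (f p)) (fderiv ℝ f p u) = u := fun u => by
      have := congrArg (fun L : R4 →L[ℝ] R4 => L u) h5
      simpa using this
    rw [← h6 v, ← h6 w, hvw]
  · rw [← h p, ← h q, e]

/-- `1` for `a ≤ 3/10`, `0` for `7/10 ≤ a` -/
noncomputable def kf (a : ℝ) : ℝ := step ((7 / 10 - a) * (5 / 2))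

/-- `1` at the level `1/2 - ζ`, `0` at the level `1/2` -/
noncomputable def kg (ζ σ : ℝ) : ℝ := step (2 * ((1 / 2 - σ) / ζ) - 1 / 2)

/-- the bump in the direction `w` -/
noncomputable def kh (a : ℝ) : ℝ := step (20 * (a - 1 / 4)) * step (20 * (3 / 4 - a))

/-- the diffeomorphism -/
noncomputable def kap (ζ : ℝ) (p : R4) : R4 :=
  (p.1 - ζ * kf p.2.1, p.2.1 + kg ζ (p.1 - ζ * kf p.2.1), p.2.2 + (kh p.2.1 : ℂ))

/-- the inverse diffeomorphism -/
noncomputable def kapi (ζ : ℝ) (p : R4) : R4 :=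
  (p.1 + ζ * kf (p.2.1 - kg ζ p.1), p.2.1 - kg ζ p.1, p.2.2 - (kh (p.2.1 - kg ζ p.1) : ℂ))

theorem contDiff_kf : ContDiff ℝ ∞ kf := contDiff_step.comp (by fun_prop)

theorem contDiff_kg (ζ : ℝ) : ContDiff ℝ ∞ (kg ζ) := contDiff_step.comp (by fun_prop)

theorem contDiff_kh : ContDiff ℝ ∞ kh :=
  (contDiff_step.comp (by fun_prop)).mul (contDiff_step.comp (by fun_prop))

theorem kapi_kap (ζ : ℝ) (p : R4) : kapi ζ (kap ζ p) = p := by
  obtain ⟨s, a, w⟩ := p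
  unfold kapi kap
  simp only [add_sub_cancel_right]
  refine Prod.ext ?_ (Prod.ext ?_ ?_)
  · simp
  · simp
  · simp

theorem contDiff_kap (ζ : ℝ) : ContDiff ℝ ∞ (kap ζ) := by
  have h1 : ContDiff ℝ ∞ (fun p : R4 => kf p.2.1) :=
    contDiff_kf.comp (contDiff_fst.comp contDiff_snd)
  have h2 : ContDiff ℝ ∞ (fun p : R4 => p.1 - ζ * kf p.2.1) :=
    contDiff_fst.sub (contDiff_const.mul h1)
  have h3 : ContDiff ℝ ∞ (fun p : R4 => kg ζ (p.1 - ζ * kf p.2.1)) := (contDiff_kg ζ).comp h2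
  have h4 : ContDiff ℝ ∞ (fun p : R4 => ((kh p.2.1 : ℝ) : ℂ)) :=
    Complex.ofRealCLM.contDiff.comp (contDiff_kh.comp (contDiff_fst.comp contDiff_snd))
  exact h2.prodMk (((contDiff_fst.comp contDiff_snd).add h3).prodMk
    ((contDiff_snd.comp contDiff_snd).add h4))

theorem contDiff_kapi (ζ : ℝ) : ContDiff ℝ ∞ (kapi ζ) := by
  have h1 : ContDiff ℝ ∞ (fun p : R4 => p.2.1 - kg ζ p.1) :=
    (contDiff_fst.comp contDiff_snd).sub ((contDiff_kg ζ).comp contDiff_fst)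
  have h2 : ContDiff ℝ ∞ (fun p : R4 => kf (p.2.1 - kg ζ p.1)) := contDiff_kf.comp h1
  have h4 : ContDiff ℝ ∞ (fun p : R4 => ((kh (p.2.1 - kg ζ p.1) : ℝ) : ℂ)) :=
    Complex.ofRealCLM.contDiff.comp (contDiff_kh.comp h1)
  exact (contDiff_fst.add (contDiff_const.mul h2)).prodMk (h1.prodMk
    ((contDiff_snd.comp contDiff_snd).sub h4))

theorem kap_embOn (ζ : ℝ) (L : Set R4) : EmbOn I4 (kap ζ) L :=
  embOn_of_left (contDiff_kap ζ) (contDiff_kapi ζ) (kapi_kap ζ) L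

theorem kf_one {a : ℝ} (h : a ≤ 3 / 10) : kf a = 1 := step_of_one_le (by linarith)

theorem kf_zero {a : ℝ} (h : 7 / 10 ≤ a) : kf a = 0 := step_of_nonpos (by linarith)

theorem kf_mem (a : ℝ) : 0 ≤ kf a ∧ kf a ≤ 1 := step_mem _

theorem kg_mem (ζ σ : ℝ) : 0 ≤ kg ζ σ ∧ kg ζ σ ≤ 1 := step_mem _

theorem kh_zero {a : ℝ} (h : a ≤ 1 / 4 ∨ 3 / 4 ≤ a) : kh a = 0 := by
  unfold kh
  rcases h with h | h
  · rw [step_of_nonpos (by linarith : 20 * (a - 1 / 4) ≤ 0), zero_mul]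
  · rw [step_of_nonpos (by linarith : 20 * (3 / 4 - a) ≤ 0), mul_zero]

theorem kh_one {a : ℝ} (h : 3 / 10 ≤ a) (h' : a ≤ 7 / 10) : kh a = 1 := by
  unfold kh
  rw [step_of_one_le (by linarith : 1 ≤ 20 * (a - 1 / 4)),
    step_of_one_le (by linarith : 1 ≤ 20 * (3 / 4 - a)), mul_one]

theorem kh_mem (a : ℝ) : 0 ≤ kh a ∧ kh a ≤ 1 := by
  have h1 := step_mem (20 * (a - 1 / 4))
  have h2 := step_mem (20 * (3 / 4 - a))
  exact ⟨mul_nonneg h1.1 h2.1, mul_le_one₀ h1.2 h2.1 h2.2⟩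

/-- the level function at levels close to `1/2` -/
theorem kg_zero {ζ : ℝ} (hζ : ζ ≠ 0) {s : ℝ} (h : |s - 1 / 2| ≤ |ζ| / 4) : kg ζ s = 0 := by
  apply step_of_nonpos
  have h1 : |(1 / 2 - s) / ζ| ≤ 1 / 4 := by
    rw [abs_div, div_le_iff₀ (abs_pos.2 hζ), abs_sub_comm]
    linarith
  have := (abs_le.1 h1).2
  linarith

/-- the level function at levels close to `1/2 - ζ` -/
theorem kg_one {ζ : ℝ} (hζ : ζ ≠ 0) {s : ℝ} (h : |s - (1 / 2 - ζ)| ≤ |ζ| / 4) : kg ζ s = 1 := by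
  apply step_of_one_le
  have e : (1 / 2 - s) / ζ = 1 - (s - (1 / 2 - ζ)) / ζ := by
    field_simp
    ring
  have h1 : |(s - (1 / 2 - ζ)) / ζ| ≤ 1 / 4 := by
    rw [abs_div, div_le_iff₀ (abs_pos.2 hζ)]
    linarith
  have := (abs_le.1 h1).2
  rw [e]
  linarith

/-- near the first ball -/
theorem kap_near0 {ζ : ℝ} (hζ : ζ ≠ 0) {p : R4} (h : |p.1 - 1 / 2| ≤ |ζ| / 4)
    (h' : p.2.1 ≤ 1 / 4) : kap ζ p = (p.1 - ζ, p.2.1 + 1, p.2.2) := by
  have h1 : kf p.2.1 = 1 := kf_one (by linarith)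
  have h2 : kg ζ (p.1 - ζ * 1) = 1 := kg_one hζ (by
    have : p.1 - ζ * 1 - (1 / 2 - ζ) = p.1 - 1 / 2 := by ring
    rw [this]
    exact h)
  unfold kap
  rw [h1, h2, kh_zero (Or.inl h')]
  simp

/-- near the second ball -/
theorem kap_near1 {ζ : ℝ} (hζ : ζ ≠ 0) {p : R4} (h : |p.1 - 1 / 2| ≤ |ζ| / 4)
    (h' : 3 / 4 ≤ p.2.1) : kap ζ p = p := by
  have h1 : kf p.2.1 = 0 := kf_zero (by linarith)
  have h2 : kg ζ (p.1 - ζ * 0) = 0 := kg_zero hζ (by
    have : p.1 - ζ * 0 - 1 / 2 = p.1 - 1 / 2 := by ring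
    rw [this]
    exact h)
  unfold kap
  rw [h1, h2, kh_zero (Or.inr h')]
  simp

theorem flat_coord {c : ℝ} {p : R4} (hp : p ∈ flat c) :
    p.1 = 1 / 2 ∧ (p.2.1 - c) ^ 2 + p.2.2.re ^ 2 + p.2.2.im ^ 2 ≤ 1 / 25 ∧
      c - 1 / 5 ≤ p.2.1 ∧ p.2.1 ≤ c + 1 / 5 := by
  obtain ⟨h1, h2⟩ := hp
  have h3 : (p.2.1 - c) ^ 2 + p.2.2.re ^ 2 + p.2.2.im ^ 2 ≤ 1 / 25 := h2
  refine ⟨h1, h3, ?_, ?_⟩ <;> nlinarith [sq_nonneg p.2.2.re, sq_nonneg p.2.2.im]

/-- the images of the points of the spine with the balls filled in -/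
theorem kap_FB {ζ : ℝ} (hζ : ζ ≠ 0) {p : R4} (hp : p ∈ FB) :
    |(kap ζ p).1 - 1 / 2| ≤ |ζ| ∧ rsq 1 (kap ζ p) < 9 ∧
      (rsq 1 (kap ζ p) = 0 → p = (1 / 2, ((0 : ℝ), (0 : ℂ))) ∨ p = (1 / 2, ((1 : ℝ), (0 : ℂ)))) := by
  have h0 : |(1 / 2 : ℝ) - 1 / 2| ≤ |ζ| / 4 := by
    rw [sub_self, abs_zero]
    positivity
  have hz : ∀ p : R4, rsq 1 p = 0 → p.2.1 = 1 ∧ p.2.2 = 0 := by
    intro p hp
    have h : (p.2.1 - 1) ^ 2 + p.2.2.re ^ 2 + p.2.2.im ^ 2 = 0 := hp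
    have a1 := sq_nonneg (p.2.1 - 1)
    have a2 := sq_nonneg p.2.2.re
    have a3 := sq_nonneg p.2.2.im
    refine ⟨?_, Complex.ext ?_ ?_⟩
    · have : (p.2.1 - 1) ^ 2 = 0 := by linarith
      have := pow_eq_zero_iff (two_ne_zero) |>.1 this
      linarith
    · exact pow_eq_zero_iff (two_ne_zero) |>.1 (by linarith : p.2.2.re ^ 2 = 0)
    · exact pow_eq_zero_iff (two_ne_zero) |>.1 (by linarith : p.2.2.im ^ 2 = 0)
  rcases hp with (hp | hp) | hp
  · obtain ⟨h1, h2, h3, h4⟩ := flat_coord hp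
    have e := kap_near0 hζ (p := p) (by rw [h1]; exact h0) (by linarith)
    rw [e]
    refine ⟨?_, ?_, fun h => Or.inl ?_⟩
    · rw [h1]
      have : (1 / 2 : ℝ) - ζ - 1 / 2 = -ζ := by ring
      simp only [this, abs_neg, le_refl]
    · show (p.2.1 + 1 - 1) ^ 2 + p.2.2.re ^ 2 + p.2.2.im ^ 2 < 9
      have : p.2.1 + 1 - 1 = p.2.1 - 0 := by ring
      rw [this]
      linarith
    · obtain ⟨a, b⟩ := hz _ h
      simp only at a b
      exact Prod.ext h1 (Prod.ext (by simp only; linarith) b)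
  · obtain ⟨h1, h2, h3, h4⟩ := flat_coord hp
    have e := kap_near1 hζ (p := p) (by rw [h1]; exact h0) (by linarith)
    rw [e]
    refine ⟨?_, ?_, fun h => Or.inr ?_⟩
    · rw [h1, sub_self, abs_zero]
      positivity
    · show (p.2.1 - 1) ^ 2 + p.2.2.re ^ 2 + p.2.2.im ^ 2 < 9
      linarith
    · obtain ⟨a, b⟩ := hz _ h
      exact Prod.ext h1 (Prod.ext a b)
  · obtain ⟨h1, h2, h3, h4⟩ := hp
    obtain ⟨f1, f2⟩ := kf_mem p.2.1
    obtain ⟨g1, g2⟩ := kg_mem ζ (p.1 - ζ * kf p.2.1)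
    obtain ⟨k1, k2⟩ := kh_mem p.2.1
    have e1 : (kap ζ p).1 = 1 / 2 - ζ * kf p.2.1 := by
      show p.1 - ζ * kf p.2.1 = _
      rw [h1]
    have e2 : (kap ζ p).2.1 = p.2.1 + kg ζ (p.1 - ζ * kf p.2.1) := rfl
    have e3 : (kap ζ p).2.2 = (kh p.2.1 : ℂ) := by
      show p.2.2 + (kh p.2.1 : ℂ) = _
      rw [h4, zero_add]
    have e4 : rsq 1 (kap ζ p) = (p.2.1 + kg ζ (p.1 - ζ * kf p.2.1) - 1) ^ 2 + kh p.2.1 ^ 2 := by
      show ((kap ζ p).2.1 - 1) ^ 2 + (kap ζ p).2.2.re ^ 2 + (kap ζ p).2.2.im ^ 2 = _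
      rw [e2, e3, Complex.ofReal_re, Complex.ofReal_im]
      ring
    refine ⟨?_, ?_, fun h => ?_⟩
    · rw [e1]
      have : (1 / 2 : ℝ) - ζ * kf p.2.1 - 1 / 2 = -(ζ * kf p.2.1) := by ring
      rw [this, abs_neg, abs_mul, abs_of_nonneg f1]
      have := abs_nonneg ζ
      nlinarith
    · rw [e4]
      nlinarith
    · exfalso
      rw [e4] at h
      have a1 := sq_nonneg (p.2.1 + kg ζ (p.1 - ζ * kf p.2.1) - 1)
      have a2 := sq_nonneg (kh p.2.1)
      have h5 : p.2.1 + kg ζ (p.1 - ζ * kf p.2.1) - 1 = 0 :=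
        pow_eq_zero_iff (two_ne_zero) |>.1 (by linarith)
      have h6 : kh p.2.1 = 0 := pow_eq_zero_iff (two_ne_zero) |>.1 (by linarith)
      rcases lt_or_ge p.2.1 (3 / 10) with h7 | h7
      · have h8 : kg ζ (p.1 - ζ * kf p.2.1) = 1 := by
          rw [kf_one h7.le, h1, mul_one]
          apply kg_one hζ
          rw [sub_self, abs_zero]
          positivity
        rw [h8] at h5
        linarith
      · rcases le_or_gt p.2.1 (7 / 10) with h8 | h8
        · rw [kh_one h7 h8] at h6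
          norm_num at h6
        · have h9 : kg ζ (p.1 - ζ * kf p.2.1) = 0 := by
            rw [kf_zero h8.le, h1, mul_zero, sub_zero]
            exact kg_zero hζ h0
          rw [h9] at h5
          linarith

end Pool.Agent.Helper27.R


end
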