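import Pool.Agent.Helper65.Barb.Defs
import Pool.Agent.Helper70.BI.C.P05
import Pool.Agent.Helper70.BI.C.P09

/-!
# Project BI (MP_8e98f2_gt): collected modules, part 12

The contents of the modules
* Helper34.BI.BF

in one file, so that the whole proof builds in a short time.
-/

namespace Pool.Agent.Helper18.BI
end Pool.Agent.Helper18.BI

namespace Pool.Agent.Helper27.BI
end Pool.Agent.Helper27.BI

namespace Pool.Agent.Helper65.Barb
end Pool.Agent.Helper65.Barb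


/-! ## Helper34.BI.BF -/

section

/-!
# From a generic family of arcs to a generic family of germs
-/

set_option autoImplicit false

open Module Set Filter Topology
open scoped ContDiff Manifold ComplexConjugate
open Pool.Agent.Helper65.Barb Pool.Agent.Helper18.BI Pool.Agent.Helper27.BI

namespace Pool.Agent.Helper34.BI

/-! ### the swap -/

theorem swp_swp (p : R4) : swp (swp p) = p := by
  simp [swp]

theorem rsq_zero_swp (p : R4) : rsq 0 (swp p) = rsq 1 p := by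
  simp only [rsq, nsq, swp, Complex.conj_re, Complex.conj_im]
  ring

theorem rsq_one_swp (p : R4) : rsq 1 (swp p) = rsq 0 p := by
  simp only [rsq, nsq, swp, Complex.conj_re, Complex.conj_im]
  ring

theorem swp_mem_sph_zero {p : R4} (h : p ∈ sph 1) : swp p ∈ sph 0 :=
  ⟨h.1, (rsq_zero_swp p).trans h.2⟩

theorem swp_mem_sph_one {p : R4} (h : p ∈ sph 0) : swp p ∈ sph 1 :=
  ⟨h.1, (rsq_one_swp p).trans h.2⟩

theorem swp_mem_neck {p : R4} (h : p ∈ neck) : swp p ∈ neck := by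
  obtain ⟨h1, h2, h3, h4⟩ := h
  refine ⟨h1, ?_, ?_, ?_⟩
  · simp only [swp]; linarith
  · simp only [swp]; linarith
  · simp [swp, h4]

theorem swp_mem_cuffs {p : R4} (h : p ∈ sph 0 ∪ sph 1) : swp p ∈ sph 0 ∪ sph 1 := by
  rcases h with h | h
  · exact Or.inr (swp_mem_sph_one h)
  · exact Or.inl (swp_mem_sph_zero h)

theorem swp_mem_SP {p : R4} (h : p ∈ SP) : swp p ∈ SP := by
  rcases h with h | h
  · exact Or.inl (swp_mem_cuffs h)
  · exact Or.inr (swp_mem_neck h)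

/-- the linear part of `swp` -/
noncomputable def swpL : R4 →L[ℝ] R4 :=
  (ContinuousLinearMap.fst ℝ ℝ (ℝ × ℂ)).prod
    ((-(ContinuousLinearMap.fst ℝ ℝ ℂ).comp (ContinuousLinearMap.snd ℝ ℝ (ℝ × ℂ))).prod
      ((Complex.conjCLE : ℂ →L[ℝ] ℂ).comp ((ContinuousLinearMap.snd ℝ ℝ ℂ).comp
        (ContinuousLinearMap.snd ℝ ℝ (ℝ × ℂ)))))

theorem swpL_apply (v : R4) : swpL v = (v.1, -v.2.1, conj v.2.2) := rfl

theorem swp_eq (p : R4) : swp p = swpL p + (0, 1, 0) := by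
  simp only [swp, swpL_apply]
  ext <;> simp
  ring

theorem hasFDerivAt_swp (p : R4) : HasFDerivAt swp swpL p := by
  have h : swp = fun p => swpL p + (0, 1, 0) := funext swp_eq
  rw [h]
  exact swpL.hasFDerivAt.add_const _

theorem contDiff_swp : ContDiff ℝ ∞ swp := by
  have h : swp = fun p => swpL p + (0, 1, 0) := funext swp_eq
  rw [h]
  exact swpL.contDiff.add contDiff_const

theorem swpL_injective : Function.Injective swpL := by
  intro v w h
  simp only [swpL_apply, Prod.mk.injEq, neg_inj] at h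
  obtain ⟨h1, h2, h3⟩ := h
  have h4 : v.2.2 = w.2.2 := by
    have := congrArg conj h3
    simpa using this
  ext1
  · exact h1
  · ext1
    · exact h2
    · exact h4

theorem continuous_swp : Continuous swp := contDiff_swp.continuous

/-- composition of a local diffeomorphism with the swap -/
theorem isLocalDiffeomorphAt_swp {f : R4 → R4} {p : R4}
    (h : IsLocalDiffeomorphAt 𝓘(ℝ, R4) 𝓘(ℝ, R4) ∞ f (swp p)) :
    IsLocalDiffeomorphAt 𝓘(ℝ, R4) 𝓘(ℝ, R4) ∞ (fun p => f (swp p)) p := by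
  rw [isLocalDiffeomorphAt_iff rfl] at h ⊢
  obtain ⟨h1, h2⟩ := h
  refine ⟨?_, ?_⟩
  · have := (continuous_swp.tendsto p).eventually h1
    filter_upwards [this] with q hq
    exact ContDiffAt.comp q hq contDiff_swp.contDiffAt
  · have d1 : HasFDerivAt f (fderiv ℝ f (swp p)) (swp p) :=
      (h1.self_of_nhds.differentiableAt (by simp)).hasFDerivAt
    have d2 := d1.comp p (hasFDerivAt_swp p)
    have e : fderiv ℝ (fun p => f (swp p)) p = (fderiv ℝ f (swp p)).comp swpL := d2.fderiv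
    rw [e]
    exact h2.comp swpL_injective

/-! ### points of the spine -/

theorem neck_eq {p : R4} (h : p ∈ neck) : p = (1 / 2, p.2.1, 0) := by
  obtain ⟨h1, -, -, h4⟩ := h
  ext1
  · exact h1
  · ext1
    · rfl
    · exact h4

/-- a point of the spine is on a cuff or an interior point of the neck -/
theorem SP_cases {p : R4} (hp : p ∈ SP) :
    p ∈ sph 0 ∪ sph 1 ∨ (p ∈ neck ∧ p.2.1 ∈ Ioo (1 / 5 : ℝ) (4 / 5)) := by
  rcases hp with hp | hp
  · exact Or.inl hp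
  · obtain ⟨h1, h2, h3, h4⟩ := hp
    rcases eq_or_lt_of_le h2 with h5 | h5
    · left; left
      refine ⟨h1, ?_⟩
      unfold rsq nsq
      simp only [h4, ← h5]
      norm_num
    · rcases eq_or_lt_of_le h3 with h6 | h6
      · left; right
        refine ⟨h1, ?_⟩
        unfold rsq nsq
        simp only [h4, h6]
        norm_num
      · exact Or.inr ⟨⟨h1, h2, h3, h4⟩, h5, h6⟩

theorem foot_zero_mem : ((1 / 2, 1 / 5, 0) : R4) ∈ sph 0 := by
  refine ⟨rfl, ?_⟩
  unfold rsq nsq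
  norm_num

theorem foot_one_mem : ((1 / 2, 4 / 5, 0) : R4) ∈ sph 1 := by
  refine ⟨rfl, ?_⟩
  unfold rsq nsq
  norm_num

section
variable {F : R4 → R4} {c₀ c₁ : ℝ → R4} {δ : ℝ} {H : ℝ × ℝ → R4}

/-- the data of a generic family -/
structure GenData (F : R4 → R4) (c₀ c₁ : ℝ → R4) (δ : ℝ) (H : ℝ × ℝ → R4) : Prop where
  emb : EmbOn 𝓘(ℝ, R4) F SP
  pos : 0 < δ
  small : δ < 1 / 10
  smooth₀ : ContDiff ℝ ∞ c₀
  core : ∀ a ∈ Icc (1 / 5 : ℝ) (4 / 5), F (1 / 2, a, 0) = c₀ a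
  inj₁ : InjOn c₁ (Icc (1 / 5) (4 / 5))
  imm₀ : ∀ a ∈ Icc (1 / 5 : ℝ) (4 / 5), deriv c₀ a ≠ 0
  imm₁ : ∀ a ∈ Icc (1 / 5 : ℝ) (4 / 5), deriv c₁ a ≠ 0
  dis₁ : ∀ a ∈ Ioo (1 / 5 : ℝ) (4 / 5), c₁ a ∉ F '' (sph 0 ∪ sph 1)
  arcs : ArcFamily (1 / 5) (4 / 5) δ c₀ c₁ (F '' (sph 0 ∪ sph 1)) (fun b y => F (cst b y))
    (fun _ => univ) H
  avoid : ∀ t ∈ Icc (0 : ℝ) 1, ∀ u ∈ Ioo (1 / 5 : ℝ) (4 / 5), H (t, u) ∈ F '' (sph 0 ∪ sph 1) →
    ∀ b θ, H (t, u) ≠ F (crv b θ)

namespace GenData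
variable (G : GenData F c₀ c₁ δ H)
include G

theorem bar : BarData F c₀ H δ where
  loc := G.emb.1
  pos := G.pos
  small := G.small
  smooth_c := G.smooth₀
  smooth_H := G.arcs.smooth
  core := G.core
  frozen := G.arcs.frozen

theorem hasDeriv (t u : ℝ) : HasDerivAt (fun r => H (t, r)) (fderiv ℝ H (t, u) (0, 1)) u := by
  have l : HasDerivAt (fun r : ℝ => ((t, r) : ℝ × ℝ)) (0, 1) u :=
    (hasDerivAt_const u t).prodMk (hasDerivAt_id u)
  exact HasFDerivAt.comp_hasDerivAt_of_eq u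
    ((G.arcs.smooth.differentiable (by simp) (t, u)).hasFDerivAt) l rfl

theorem imm (t : ℝ) : ∀ a ∈ Icc (1 / 5 : ℝ) (4 / 5), fderiv ℝ H (t, a) (0, 1) ≠ 0 := by
  intro a ha
  rcases lt_or_ge t 0 with h | h
  · have e : (fun r => H (t, r)) = c₀ := funext fun r => G.arcs.start t r h.le
    rw [← (G.hasDeriv t a).deriv, e]
    exact G.imm₀ a ha
  · rcases le_or_gt t 1 with h' | h'
    · exact G.arcs.imm t ⟨h, h'⟩ a ha
    · have e : (fun r => H (t, r)) = c₁ := funext fun r => G.arcs.stop t r h'.le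
      rw [← (G.hasDeriv t a).deriv, e]
      exact G.imm₁ a ha

theorem inj₀ : InjOn c₀ (Icc (1 / 5) (4 / 5)) := by
  intro a ha b hb h
  rw [← G.core a ha, ← G.core b hb] at h
  have := G.emb.2 (Or.inr (mem_neck ha.1 ha.2)) (Or.inr (mem_neck hb.1 hb.2)) h
  exact congrArg (fun p : R4 => p.2.1) this

theorem dis₀ : ∀ a ∈ Ioo (1 / 5 : ℝ) (4 / 5), c₀ a ∉ F '' (sph 0 ∪ sph 1) := by
  rintro a ha ⟨p, hp, he⟩
  rw [← G.core a ⟨ha.1.le, ha.2.le⟩] at he
  have := G.emb.2 (Or.inl hp) (Or.inr (mem_neck ha.1.le ha.2.le)) he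
  subst this
  rcases hp with hp | hp
  · have := sph_zero_le hp
    simp only at this
    linarith [ha.1]
  · have := le_sph_one hp
    simp only at this
    linarith [ha.2]

theorem injH (t : ℝ) : InjOn (fun a => H (t, a)) (Icc (1 / 5) (4 / 5)) := by
  rcases lt_or_ge t 0 with h | h
  · have e : (fun r => H (t, r)) = c₀ := funext fun r => G.arcs.start t r h.le
    rw [e]
    exact G.inj₀
  · rcases le_or_gt t 1 with h' | h'
    · exact G.arcs.inj t ⟨h, h'⟩
    · have e : (fun r => H (t, r)) = c₁ := funext fun r => G.arcs.stop t r h'.le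
      rw [e]
      exact G.inj₁

/-- a crossing happens only for `t ∈ [0, 1]` -/
theorem time {t u : ℝ} (hu : u ∈ Ioo (1 / 5 : ℝ) (4 / 5))
    (h : H (t, u) ∈ F '' (sph 0 ∪ sph 1)) : t ∈ Icc (0 : ℝ) 1 := by
  by_contra hcon
  rcases lt_or_ge t 0 with h0 | h0
  · rw [G.arcs.start t u h0.le] at h
    exact G.dis₀ u hu h
  · rcases le_or_gt t 1 with h' | h'
    · exact hcon ⟨h0, h'⟩
    · rw [G.arcs.stop t u h'.le] at h
      exact G.dis₁ u hu h

theorem injF : InjOn F (sph 0 ∪ sph 1) := G.emb.2.mono fun _ hp => Or.inl hp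

theorem exists_crossing {t : ℝ} (h : ¬ InjOn (fun p => barFam F c₀ H δ (t, p)) SP) :
    ∃ u ∈ Ioo (1 / 5 : ℝ) (4 / 5), H (t, u) ∈ F '' (sph 0 ∪ sph 1) := by
  by_contra hcon
  push Not at hcon
  exact h (G.bar.embOn (G.imm t) G.injF (G.injH t) hcon).2

theorem cuff_val (t : ℝ) {p : R4} (hp : p ∈ sph 0 ∪ sph 1) : barFam F c₀ H δ (t, p) = F p := by
  have hδ := G.pos
  rcases hp with hp | hp
  · exact G.bar.barFam_eq (Or.inl (by linarith [sph_zero_le hp]))
  · exact G.bar.barFam_eq (Or.inr (by linarith [le_sph_one hp]))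

theorem cuff_eventually (t : ℝ) {p : R4} (hp : p ∈ sph 0 ∪ sph 1) :
    ∀ᶠ q in 𝓝 (t, p), barFam F c₀ H δ q = F q.2 := by
  have hδ := G.pos
  have hcont : Continuous (fun q : ℝ × R4 => q.2.2.1) := by fun_prop
  have hop : IsOpen {q : ℝ × R4 | q.2.2.1 < 1 / 5 + δ / 2 ∨ 4 / 5 - δ / 2 < q.2.2.1} :=
    (isOpen_lt hcont continuous_const).union (isOpen_lt continuous_const hcont)
  have hmem : (t, p) ∈ {q : ℝ × R4 | q.2.2.1 < 1 / 5 + δ / 2 ∨ 4 / 5 - δ / 2 < q.2.2.1} := by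
    rcases hp with hp | hp
    · exact Or.inl (by simpa using (by linarith [sph_zero_le hp] : p.2.1 < 1 / 5 + δ / 2))
    · exact Or.inr (by simpa using (by linarith [le_sph_one hp] : 4 / 5 - δ / 2 < p.2.1))
  filter_upwards [hop.mem_nhds hmem] with q hq
  exact G.bar.barFam_eq (t := q.1) (p := q.2) (hq.imp le_of_lt le_of_lt)

theorem fderiv_cuff (t : ℝ) {p : R4} (hp : p ∈ sph 0 ∪ sph 1) :
    fderiv ℝ (fun p => barFam F c₀ H δ (t, p)) p = fderiv ℝ F p := by
  have h1 := G.cuff_eventually t hp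
  have hcont : Continuous (fun q : R4 => (t, q)) := by fun_prop
  have h2 : (fun p => barFam F c₀ H δ (t, p)) =ᶠ[𝓝 p] F := by
    filter_upwards [hcont.continuousAt.eventually h1] with q hq
    exact hq
  exact h2.fderiv_eq

/-- the double points at a crossing time -/
theorem doubles {t u : ℝ} (hu : u ∈ Ioo (1 / 5 : ℝ) (4 / 5)) {p₀ : R4} (hp₀ : p₀ ∈ sph 0 ∪ sph 1)
    (he : F p₀ = H (t, u)) : ∀ p ∈ SP, ∀ q ∈ SP,
    barFam F c₀ H δ (t, p) = barFam F c₀ H δ (t, q) →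
      p = q ∨ (p = p₀ ∧ q = (1 / 2, u, 0)) ∨ (q = p₀ ∧ p = (1 / 2, u, 0)) := by
  have ht : t ∈ Icc (0 : ℝ) 1 := G.time hu ⟨p₀, hp₀, he⟩
  have v2 : ∀ p ∈ neck, barFam F c₀ H δ (t, p) = H (t, p.2.1) := by
    intro p hp
    conv_lhs => rw [neck_eq hp]
    exact G.bar.barFam_neck hp.2.1 hp.2.2.1
  -- the mixed case
  have key : ∀ p ∈ sph 0 ∪ sph 1, ∀ q ∈ neck, q.2.1 ∈ Ioo (1 / 5 : ℝ) (4 / 5) →
      barFam F c₀ H δ (t, p) = barFam F c₀ H δ (t, q) → p = p₀ ∧ q = (1 / 2, u, 0) := by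
    intro p hp q hq hqI h
    rw [G.cuff_val t hp, v2 q hq] at h
    have h1 : q.2.1 = u := G.arcs.single t ht q.2.1 hqI u hu ⟨p, hp, h⟩ ⟨p₀, hp₀, he⟩
    rw [h1] at h
    refine ⟨G.injF hp hp₀ (h.trans he.symm), ?_⟩
    rw [neck_eq hq, h1]
  intro p hp q hq h
  rcases SP_cases hp with hp1 | ⟨hp1, hp2⟩
  · rcases SP_cases hq with hq1 | ⟨hq1, hq2⟩
    · rw [G.cuff_val t hp1, G.cuff_val t hq1] at h
      exact Or.inl (G.injF hp1 hq1 h)
    · exact Or.inr (Or.inl (key p hp1 q hq1 hq2 h))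
  · rcases SP_cases hq with hq1 | ⟨hq1, hq2⟩
    · exact Or.inr (Or.inr (key q hq1 p hp1 hp2 h.symm))
    · rw [v2 p hp1, v2 q hq1] at h
      have := G.injH t ⟨hp2.1.le, hp2.2.le⟩ ⟨hq2.1.le, hq2.2.le⟩ h
      left
      rw [neck_eq hp1, neck_eq hq1, this]

/-- the derivative of the strand -/
theorem fderiv_strand {t u : ℝ} (hu : u ∈ Ioo (1 / 5 : ℝ) (4 / 5)) :
    fderiv ℝ (fun x : ℝ × ℝ => barFam F c₀ H δ (x.1, (1 / 2, x.2, 0))) (t, u) =
      fderiv ℝ H (t, u) := by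
  refine Filter.EventuallyEq.fderiv_eq ?_
  have hop : {x : ℝ × ℝ | x.2 ∈ Ioo (1 / 5 : ℝ) (4 / 5)} ∈ 𝓝 (t, u) :=
    (isOpen_Ioo.preimage continuous_snd).mem_nhds hu
  filter_upwards [hop] with x hx
  exact G.bar.barFam_neck (t := x.1) hx.1.le hx.2.le

/-- the point of a crossing is not a foot -/
theorem ne_foot {t u : ℝ} (hu : u ∈ Ioo (1 / 5 : ℝ) (4 / 5)) {p₀ : R4} (he : F p₀ = H (t, u)) :
    p₀ ≠ (1 / 2, 1 / 5, 0) ∧ p₀ ≠ (1 / 2, 4 / 5, 0) := by
  have hδ := G.pos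
  constructor
  · rintro rfl
    rw [G.core _ (by norm_num), ← G.arcs.frozen t (1 / 5) (Or.inl (by linarith))] at he
    exact hu.1.ne (G.injH t (by norm_num) ⟨hu.1.le, hu.2.le⟩ he)
  · rintro rfl
    rw [G.core _ (by norm_num), ← G.arcs.frozen t (4 / 5) (Or.inr (by linarith))] at he
    exact hu.2.ne' (G.injH t (by norm_num) ⟨hu.1.le, hu.2.le⟩ he)

/-- a crossing with the first cuff -/
theorem preCross_zero (hCH : StCH) {t u : ℝ} (hu : u ∈ Ioo (1 / 5 : ℝ) (4 / 5)) {p₀ : R4}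
    (hp₀ : p₀ ∈ sph 0) (he : F p₀ = H (t, u)) : PreCross (barFam F c₀ H δ) t u p₀ := by
  have hp : p₀ ∈ sph 0 ∪ sph 1 := Or.inl hp₀
  have ht : t ∈ Icc (0 : ℝ) 1 := G.time hu ⟨p₀, hp, he⟩
  obtain ⟨-, hc0, -, htan, -, hre, -⟩ := hCH F G.emb
  refine ⟨fun p hp => G.bar.eventually_smooth t hp, fun p hp => G.bar.isLocalDiffeomorphAt
    (G.imm t) hp, ?_, hp₀, ?_, hu, ?_, G.doubles hu hp he, ?_⟩
  · intro p hp
    have h1 := G.cuff_eventually t hp
    have hcont : Continuous (fun q : ℝ × R4 => (t, q.2)) := by fun_prop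
    have h2 := hcont.continuousAt (x := (t, p)) |>.eventually h1
    filter_upwards [h1, h2] with q hq1 hq2
    rw [hq1, hq2]
  · intro h0
    obtain ⟨θ, hθ⟩ := hre p₀ hp₀ h0
    exact G.avoid t ht u hu ⟨p₀, hp, he⟩ false θ (by rw [hθ, he])
  · rw [G.cuff_val t hp, he]
    exact (G.bar.barFam_neck hu.1.le hu.2.le).symm
  · intro ζ v h hv1 hv2
    rw [G.fderiv_strand hu, G.fderiv_cuff t hp] at h
    obtain ⟨y, rfl⟩ := hc0 p₀ hp₀ (G.ne_foot hu he).1
    obtain ⟨η, hη⟩ := htan false y v hv1 (by simpa using hv2)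
    exact (G.arcs.trans t ht u hu false y (mem_univ _) he.symm ζ η (h.trans hη.symm)).1

/-- a crossing with the second cuff -/
theorem preCross_one (hCH : StCH) {t u : ℝ} (hu : u ∈ Ioo (1 / 5 : ℝ) (4 / 5)) {p₀ : R4}
    (hp₀ : p₀ ∈ sph 1) (he : F p₀ = H (t, u)) :
    PreCross (fun q => barFam F c₀ H δ (q.1, swp q.2)) t (1 - u) (swp p₀) := by
  have hp : p₀ ∈ sph 0 ∪ sph 1 := Or.inr hp₀
  have ht : t ∈ Icc (0 : ℝ) 1 := G.time hu ⟨p₀, hp, he⟩
  obtain ⟨-, -, hc1, htan, -, -, hre⟩ := hCH F G.emb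
  have hcs : Continuous (fun q : ℝ × R4 => (q.1, swp q.2)) :=
    continuous_fst.prodMk (continuous_swp.comp continuous_snd)
  have hsu : swp (1 / 2, 1 - u, 0) = (1 / 2, u, 0) := by simp [swp]
  refine ⟨?_, ?_, ?_, swp_mem_sph_zero hp₀, ?_, ⟨by linarith [hu.2], by linarith [hu.1]⟩, ?_, ?_, ?_⟩
  · intro p hp
    have h1 := G.bar.eventually_smooth t (swp_mem_SP hp)
    have h2 := hcs.continuousAt (x := (t, p)) |>.eventually h1
    filter_upwards [h2] with q hq
    refine ContDiffAt.comp q hq ?_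
    exact (contDiff_fst.prodMk (contDiff_swp.comp contDiff_snd)).contDiffAt
  · intro p hp
    exact isLocalDiffeomorphAt_swp (f := fun p => barFam F c₀ H δ (t, p))
      (G.bar.isLocalDiffeomorphAt (G.imm t) (swp_mem_SP hp))
  · intro p hp
    have h1 := G.cuff_eventually t (swp_mem_cuffs hp)
    have hcont : Continuous (fun q : ℝ × R4 => (t, swp q.2)) :=
      continuous_const.prodMk (continuous_swp.comp continuous_snd)
    have h2 := hcont.continuousAt (x := (t, p)) |>.eventually h1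
    have h3 := hcs.continuousAt (x := (t, p)) |>.eventually h1
    filter_upwards [h2, h3] with q hq1 hq2
    rw [hq1, hq2]
  · intro h0
    have h0' : p₀.2.2.re = 0 := by simpa [swp] using h0
    obtain ⟨θ, hθ⟩ := hre p₀ hp₀ h0'
    exact G.avoid t ht u hu ⟨p₀, hp, he⟩ true θ (by rw [hθ, he])
  · simp only [swp_swp, hsu]
    rw [G.cuff_val t hp, he]
    exact (G.bar.barFam_neck hu.1.le hu.2.le).symm
  · intro p hp' q hq' h
    rcases G.doubles hu hp he (swp p) (swp_mem_SP hp') (swp q) (swp_mem_SP hq') h with h1 | h1 | h1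
    · left
      rw [← swp_swp p, h1, swp_swp]
    · right; left
      refine ⟨by rw [← h1.1, swp_swp], ?_⟩
      rw [← swp_swp q, h1.2, ← hsu, swp_swp]
    · right; right
      refine ⟨by rw [← h1.1, swp_swp], ?_⟩
      rw [← swp_swp p, h1.2, ← hsu, swp_swp]
  · intro ζ v h hv1 hv2
    -- the strand
    have d1 : HasFDerivAt H (fderiv ℝ H (t, u)) (t, u) :=
      (G.arcs.smooth.differentiable (by simp) (t, u)).hasFDerivAt
    let ℓ : ℝ × ℝ →L[ℝ] ℝ × ℝ := (ContinuousLinearMap.fst ℝ ℝ ℝ).prod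
      (-(ContinuousLinearMap.snd ℝ ℝ ℝ))
    have d2 : HasFDerivAt (fun x : ℝ × ℝ => (x.1, 1 - x.2)) ℓ (t, 1 - u) := by
      have e : (fun x : ℝ × ℝ => (x.1, 1 - x.2)) = fun x => ℓ x + (0, 1) := by
        funext x
        simp only [ℓ, ContinuousLinearMap.prod_apply, ContinuousLinearMap.coe_fst',
          ContinuousLinearMap.neg_apply, ContinuousLinearMap.coe_snd', Prod.mk_add_mk, add_zero]
        ext <;> simp
        ring
      rw [e]
      exact ℓ.hasFDerivAt.add_const _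
    have d3 : HasFDerivAt (fun x : ℝ × ℝ => H (x.1, 1 - x.2)) ((fderiv ℝ H (t, u)).comp ℓ)
        (t, 1 - u) := by
      have : HasFDerivAt H (fderiv ℝ H (t, u)) (t, 1 - (1 - u)) := by
        rw [sub_sub_cancel]; exact d1
      exact HasFDerivAt.comp (t, 1 - u) this d2
    have d4 : fderiv ℝ (fun x : ℝ × ℝ => barFam F c₀ H δ (x.1, swp (1 / 2, x.2, 0))) (t, 1 - u) =
        (fderiv ℝ H (t, u)).comp ℓ := by
      rw [← d3.fderiv]
      refine Filter.EventuallyEq.fderiv_eq ?_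
      have hop : {x : ℝ × ℝ | x.2 ∈ Ioo (1 / 5 : ℝ) (4 / 5)} ∈ 𝓝 (t, 1 - u) :=
        (isOpen_Ioo.preimage continuous_snd).mem_nhds
          (by show 1 - u ∈ Ioo (1 / 5 : ℝ) (4 / 5); exact ⟨by linarith [hu.2], by linarith [hu.1]⟩)
      filter_upwards [hop] with x hx
      have e : swp (1 / 2, x.2, 0) = (1 / 2, 1 - x.2, 0) := by simp [swp]
      rw [e]
      exact G.bar.barFam_neck (t := x.1) (by linarith [hx.2]) (by linarith [hx.1])
    have d5 : fderiv ℝ (fun p => barFam F c₀ H δ (t, swp p)) (swp p₀) =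
        (fderiv ℝ F p₀).comp swpL := by
      have a1 : HasFDerivAt (fun p => barFam F c₀ H δ (t, p)) (fderiv ℝ F p₀) (swp (swp p₀)) := by
        rw [swp_swp, ← G.fderiv_cuff t hp]
        have := eventually_contDiffAt (G.bar.isLocalDiffeomorphAt (G.imm t)
          (Or.inl hp : p₀ ∈ SP) (t := t))
        exact (this.self_of_nhds.differentiableAt (by simp)).hasFDerivAt
      exact (a1.comp (swp p₀) (hasFDerivAt_swp _)).fderiv
    simp only at h
    rw [d4, d5] at h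
    simp only [ContinuousLinearMap.comp_apply] at h
    obtain ⟨y, hy⟩ := hc1 p₀ hp₀ (G.ne_foot hu he).2
    obtain ⟨η, hη⟩ := htan true y (swpL v) (by simpa [swpL_apply] using hv1) (by
      rw [hy]
      simp only [drsq, swp, swpL_apply, Complex.conj_re, Complex.conj_im, if_true] at hv2 ⊢
      linear_combination hv2)
    rw [hy] at hη
    have hz := (G.arcs.trans t ht u hu true y (mem_univ _) (by rw [hy, he]) (ℓ ζ) η
      (h.trans hη.symm)).1
    have e1 : ζ.1 = 0 := congrArg Prod.fst hz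
    have e2 : -ζ.2 = 0 := congrArg Prod.snd hz
    ext1
    · exact e1
    · simpa using e2

theorem bfam (hCH : StCH) : BFam (barFam F c₀ H δ) where
  smooth := fun t p hp => G.bar.eventually_smooth t hp
  loc := fun t p hp => G.bar.isLocalDiffeomorphAt (G.imm t) hp
  finite := by
    refine (G.arcs.finite.image Prod.fst).subset ?_
    intro t ht
    obtain ⟨u, hu, hm⟩ := G.exists_crossing ht
    exact ⟨(t, u), ⟨G.time hu hm, hu, hm⟩, rfl⟩
  cross := by
    intro t ht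
    obtain ⟨u, hu, p, hp, he⟩ := G.exists_crossing ht
    rcases hp with hp | hp
    · exact Or.inl ⟨u, p, G.preCross_zero hCH hu hp he⟩
    · exact Or.inr ⟨1 - u, swp p, G.preCross_one hCH hu hp he⟩

end GenData

end

end Pool.Agent.Helper34.BI


end
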