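import Pool.Agent.Helper65.Barb.Defs
import Pool.Agent.Helper70.BI.C.P11
import Pool.Agent.Helper70.BI.C.P12

/-!
# Project BI (MP_8e98f2_gt): collected modules, part 13

The contents of the modules
* Helper70.BI.StL
* Helper27.BI.H.StH1
* Helper70.BI.M_LGG

in one file, so that the whole proof builds in a short time.
-/

namespace Pool.Agent.Helper18.BI
end Pool.Agent.Helper18.BI

namespace Pool.Agent.Helper27.BI
end Pool.Agent.Helper27.BI

namespace Pool.Agent.Helper34.BI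
end Pool.Agent.Helper34.BI

namespace Pool.Agent.Helper65.Barb
end Pool.Agent.Helper65.Barb

namespace Pool.Agent.Helper70.BI
end Pool.Agent.Helper70.BI


/-! ## Helper70.BI.StL -/

section

/-!
# Project BI, part (E), section L: lassos, and the main theorem of stage 2

Statements (as `Prop` definitions) with complete proofs in the docstrings.  A module `M_X` proves
`theorem m_X : StX` (possibly from other statements as hypotheses `(h : StY)`).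

Plan.  A germ with `Br 1 F γ e` (the second cuff bounds a flat ball met once by the bar) is joined to a
lasso (a germ of trivial class whose bar runs through the ball and ends close to it) by a family
of germs which only crosses the first cuff, after the crossing with the ball; every crossing
changes the class by the class `W` of theta germs.  So the class is trivial or `W`.  With the
crossing lemma `StCRP` this gives the main theorem of stage 2: the class depends on the cuffs only, up to `W`.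
-/

set_option autoImplicit false

open scoped Manifold ContDiff Topology ComplexConjugate
open Set Filter Pool.Agent.Helper65.Barb Pool.Agent.Helper18.BI

namespace Pool.Agent.Helper70.BI

open Pool.Agent.Helper34.BI (cfac BarData barFam PreCross BFam GenData cst crv)
open Pool.Agent.Helper27.BI (refh refs swp StVanT StRefH StRefS StR2sw)

/-! ## lassos -/

/-- **V1** (uses `StVanT`, `StR2sw`).  A germ which extends over the second flat ball has trivial class.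
*Proof.* `fun p => F (swp p)` is `EmbOn (flat 0 ∪ sph 1 ∪ neck)` (`swp` exchanges `flat 0`, `flat 1` and `sph 0`, `sph 1` and
maps the neck to itself; see `Pool/Agent/Helper34/BI/BF.lean` for lemmas on `swp`), so its class is trivial
by `StVanT`; `StR2sw` for `F` with `φ = φ' = id`. -/
def StV1 : Prop :=
  ∀ F : R4 → R4, EmbOn I4 F (flat 1 ∪ neck ∪ sph 0) → Thin I4 F (fun x => x)

/-- squared distance from the sphere `sph 1` -/
noncomputable def tr (p : R4) : ℝ := (p.1 - 1 / 2) ^ 2 + (√(rsq 1 p) - 1 / 5) ^ 2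

/-- **ROT** (rotation about `sph 1`, once around, inside the tube of radius `ε`).
*Proof.* Write `u = s - 1/2`, `ϱ = √(rsq 1 p)`, `v = ϱ - 1/5`, `tr p = u² + v²`, and
`θ(t,p) = 2π d t step ((4/3)(1 - tr p/ε²))` (zero for `tr p ≥ ε²`).
`R.f (t, p) = (1/2 + cos θ u - sin θ v, pc 1 + ((1/5 + sin θ u + cos θ v)/ϱ) • (p.2 - pc 1))` if `ϱ > 1/10`, and `R.f (t, p) = p` if
`ϱ ≤ 1/10`; for `ϱ < 3/20` the formula also gives `p`, because then `tr p ≥ (1/20)² > ε²` and `θ = 0`; so `R.f` is smooth.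
`|sin θ u + cos θ v| ≤ √(tr p) < ε < 1/5` if `θ ≠ 0`, so the new `ϱ` is `1/5 + sin θ u + cos θ v` and `tr` is preserved; the
inverse `R.g` is the same with `-θ`.  On `sph 1`: `u = v = 0`.  If `tr p < ε²/4` then `(4/3)(1 - tr p/ε²) > 1`, `θ = 2π d t`, and `R.f (1, p) = p`.
On the axis, for `a ∈ (4/5 - ε, 4/5)`: `u = 0`, `v = 4/5 - a ∈ (0, ε)`, `(p.2 - pc 1)/ϱ = (-1, 0)`, so
`R.f (1, ax a) = (1/2 - sin θ v, (4/5 - cos θ v, 0))`, `θ = 2π d step ((4/3)(1 - v²/ε²))`; this is in `flat 1` iff `sin θ = 0` and `cos θ ≤ 0`, iff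
`step (..) = 1/2`, iff `(4/3)(1 - v²/ε²) = 1/2` (`step x = 1/2` iff `x = 1/2`: `step x = f x/(f x + f (1-x))` with `f = expNegInvGlue`, zero on
`(-∞, 0]` and strictly increasing on `[0, ∞)`), iff `v = v₁ = ε √(5/8) ∈ (ε/2, ε)`; `a₁ = 4/5 - v₁`.  There `cos θ = -1`: `R.f (1, ax a₁) = (1/2, 4/5 + v₁, 0)`.
Derivative of `a ↦ 1/2 - sin θ v` at `a₁` (`dv/da = -1`): `cos θ θ'(v₁) v₁ + sin θ = - v₁ θ'(v₁) = 2π d step'(1/2) (8/3) v₁²/ε² = d (10π/3) step'(1/2)`,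
and `step'(1/2) = f'(1/2)/(2 f(1/2)) > 0` (`f x = exp (-1/x)` for `x > 0`). -/
def StROT : Prop :=
  ∀ d ε : ℝ, (d = 1 ∨ d = -1) → ε ∈ Ioo (0 : ℝ) (1 / 20) →
    ∃ (R : DFam I4 R4) (a₁ : ℝ), (∀ p, R.f (0, p) = p) ∧
      (∀ t p, ε ^ 2 ≤ tr p → R.f (t, p) = p) ∧ (∀ t p, tr (R.f (t, p)) = tr p) ∧
      (∀ t, ∀ p ∈ sph 1, R.f (t, p) = p) ∧ (∀ p, tr p < ε ^ 2 / 4 → R.f (1, p) = p) ∧
      a₁ ∈ Ioo (4 / 5 - ε) (4 / 5 - ε / 2) ∧ R.f (1, ax a₁) = ax (8 / 5 - a₁) ∧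
      (∀ a ∈ Ioo (4 / 5 - ε) (4 / 5 : ℝ), R.f (1, ax a) ∈ flat 1 → a = a₁) ∧
      0 < d * deriv (fun a => (R.f (1, ax a)).1) a₁

/-- **NO1** (a path which stays near the ball but does not cross it) (uses `StPATH`, `exists_genPos`).
*Proof.* `U = ball (ax 1) r ∩ ({p | d (p.1 - 1/2) < 0} ∪ {p | p.2.1 < 1 - lam/5})`: open, preconnected (both sets are
convex, with a common point).  `StPATH` with `a₀ = 2/5 - r/2`, `a₁ = 79/100`, `η` small (`η < r/2`, `η ≤ 1/100`), `c₀ = c₁ = c`: on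
`[a₀, a₀ + η]`: `d (s - 1/2) = a - 2/5 < 0`, distance to `ax 1` is `|a - 2/5| < r`; on `[a₁ - η, a₁]`: the `a`-coordinate is `1 - lam (1-a) < 1 - lam/5`, distance `lam (1-a) < r`.
This gives `q₀` smooth, `q₀ = c` for `a ≤ a₀ + η/2` and for `a ≥ a₁ - η/2`, `q₀ a ∈ U` on `[a₀, a₁]`.  `exists_genPos` for `h (t, a) = q₀ a`, `ρ = 1`, `χ = hat a₀ a₁`, empty index
types (`Y = ℂ`): `q a = q₀ a + χ a • (v + a • w)`, with `v, w` so small that `q a ∈ U` on `[a₀, a₁]` (compactness); injective on `[1/5, 4/5]`: `GenPos.inj` (at `t = 0`), and if `χ a = χ b = 0` both values are values of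
`c`; `deriv q ≠ 0`: `GenPos.imm`; if `χ a = 0` then `χ' a = 0` (minimum), `q₀ = c` near `a`, and `deriv q a = deriv c a`. -/
def StNO1 : Prop :=
  ∀ (c : ℝ → R4) (d δ r lam : ℝ), (d = 1 ∨ d = -1) → 0 < lam → lam < r → r < δ → δ ≤ 1 / 100 →
    ContDiff ℝ ∞ c → InjOn c (Icc (1 / 5) (4 / 5)) →
    (∀ a ∈ Icc (1 / 5 : ℝ) (4 / 5), deriv c a ≠ 0) →
    (∀ a, |a - 2 / 5| < δ → c a = (1 / 2 + d * (a - 2 / 5), pc 1)) →
    (∀ a ∈ Icc (39 / 50 : ℝ) (4 / 5), c a = ax (1 - lam * (1 - a))) →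
    ∃ q : ℝ → R4, ContDiff ℝ ∞ q ∧ (∀ a, a ≤ 2 / 5 - r / 2 → q a = c a) ∧
      (∀ a, 79 / 100 ≤ a → q a = c a) ∧
      (∀ a ∈ Icc (2 / 5 - r / 2) (79 / 100 : ℝ), ‖q a - ax 1‖ < r ∧
        (d * ((q a).1 - 1 / 2) < 0 ∨ (q a).2.1 < 1 - lam / 5)) ∧
      InjOn q (Icc (1 / 5) (4 / 5)) ∧ ∀ a ∈ Icc (1 / 5 : ℝ) (4 / 5), deriv q a ≠ 0

/-- **NO** (a germ whose bar stays near the ball but does not cross it) (uses `StNO1`, `StCTR`, `StCL`,
`Pool.Agent.Helper34.BI.StCO`).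
*Proof.* `F (ax 1) = ax 1 = core F (2/5)` (`near`, `str`).  `F p ≠ ax 1` on `sph 0` (`injF`), and `core F a ≠ ax 1` for `a ∈ [1/5, 4/5]`, `a ≠ 2/5`
(`inj`: `core F (2/5) = ax 1`): by compactness there is `r` as required (`r < δ`, `r < r₁`).  `lam₀ = r` (`r < 1/100`).
Let `0 < lam < r`, `F_l p = F (clc 1 lam p)`, `b a = 1 + cfac lam ((a-1)²) (a-1)`; `clc 1 lam (ax a) = ax (b a)`; `b a = a` for `a ≤ 7/10`, `b a = 1 - lam (1-a)`
for `a ∈ [39/50, 1]` (`(11/50)² < 1/20`).  `F_l` is `EmbOn SP` (`StCTR`, `γ = 2/5`); near `flat 1` it is `(s, x) ↦ (s, pc 1 + lam (x - pc 1))` (`F = id` on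
`ball (ax 1) δ`, `lam < δ`), so `F_l '' flat 1 = D := {(1/2, x) | nsq (x - pc 1) ≤ lam²/25}`, `F_l '' sph 1 ⊆ D`.  `F_l = F` for `p.2.1 ≤ 7/10`.
Let `c₀ : ℝ → R4` be smooth with `c₀ a = core F_l a` and `deriv c₀ a ≠ 0` on `[1/5, 4/5]` (`StCO` for `F_l, F_l`); it satisfies the hypotheses of `StNO1` (`δ ≤ 1/100`, so `|a - 2/5| < δ` implies
`a ∈ [1/5, 4/5]`): `q`.  `G p = barFam F_l c₀ (fun z => q z.2) (1/100) (0, p)`: `BarData` (frozen: `q = c₀` for `a ≤ 1/5 + 1/100` and `a ≥ 79/100`), `BarData.embOn`: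
`q a ∉ F_l '' (sph 0 ∪ sph 1)` for `a ∈ (1/5, 4/5)`: if `a ∈ [2/5 - r/2, 79/100]`: `q a` is at distance `< r` from `ax 1`, and not in `D` (`s = 1/2` and `a`-coordinate `≥ 1 - lam/5` on `D`); otherwise `q a = core F_l a`, `F_l` is injective on
`SP`.  `EmbOn G (SP ∪ flat 1)`: `G = F_l` for `p.2.1 ≥ 4/5 - 1/200` and for `p.2.1 ≤ 1/5 + 1/200` (`barFam_eq`), so `G '' flat 1 = D`, `G` is injective and a local diffeomorphism on `flat 1`; points of `sph 0`: distance `> r` from `ax 1`;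
points of the neck: `core G a = q a` (`barFam_neck`); `a ≤ 2/5 - r/2`: either
`δ ≤ |a - 2/5|`, distance `> r`, or `s ≠ 1/2`; `a ∈ [2/5 - r/2, 79/100]`: not in `D`; `a ∈ [79/100, 4/5)`: `a`-coordinate `< 1 - lam/5`; so only the foot `ax (4/5)` has its image in `D`. -/
def StNO : Prop :=
  ∀ (F : R4 → R4) (d δ r₁ : ℝ), (d = 1 ∨ d = -1) → NB 1 F (2 / 5) d δ → 0 < r₁ →
    ∃ r lam₀ : ℝ, 0 < r ∧ r < r₁ ∧ r < δ ∧ 0 < lam₀ ∧ (∀ p ∈ sph 0, r < ‖F p - ax 1‖) ∧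
      (∀ a ∈ Icc (1 / 5 : ℝ) (4 / 5), δ ≤ |a - 2 / 5| → r < ‖core F a - ax 1‖) ∧
      ∀ lam ∈ Ioo (0 : ℝ) lam₀, ∃ G : R4 → R4, EmbOn I4 G (SP ∪ flat 1) ∧
        (∀ p : R4, p.2.1 ≤ 1 / 5 + 1 / 200 → G p = F p) ∧
        (∀ p : R4, 4 / 5 - 1 / 200 ≤ p.2.1 → G p = F (clc 1 lam p)) ∧
        (∀ a ∈ Icc (1 / 5 : ℝ) (2 / 5 - r / 2), core G a = core F a) ∧
        ∀ a ∈ Icc (2 / 5 - r / 2) (4 / 5 : ℝ), ‖core G a - ax 1‖ < r

/-- **SPI** (spinning the end of the bar once around the cuff) (uses `StROT`, `StA1`, `StFam`).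
*Proof.* `StA1`: there is an open `V ⊇ SP ∪ flat 1` on which `G` is injective and a local diffeomorphism.  Choose `ε < 1/400`,
`ε < r` with `{p | tr p < ε²} ⊆ V` (`sph 1` is compact and `tr p = 0` exactly on `sph 1`).  `StROT` with `d, ε`: `R`, `a₁ =: β₁ > 4/5 - ε > 3/4`.  If `tr p < ε²` then
`|p.1 - 1/2| < ε`, `|√(rsq 1 p) - 1/5| < ε`, so `p.2.1 ≥ 4/5 - ε`, `rsq 1 p ≤ (1/5 + ε)² < 1/20` and the formula for `G p` holds.
`G₁ p = G (R.f (1, p))`.  `J (t, p) = G (R.f (t, p))` is `FamOn SP` (`R.f (t, ·)` maps `SP` into `V`: a point is either fixed or stays in the tube; `R.f (t, ·)` is a diffeomorphism of `R4`):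
`Eqv G G₁` by `StFam`.  `F' p = G p` if `rsq 1 p ≤ (1/5 + ε/4)²`, `F' p = G₁ p` otherwise.  For `|s - 1/2| < ε/4` and `|√(rsq 1 p) - 1/5| < ε/3` one has
`tr p < ε²/4`, `R.f (1, p) = p` and `F' p = G p = G₁ p`.  So: `F' = G₁` near `SP` (points of `SP` with `rsq 1 p ≤ (1/5 + ε/4)²` have `s = 1/2`, `√(rsq 1 p) ∈ [1/5, 1/5 + ε/4]`) and
`F' = G` near `flat 1`.  `Eqv G F'` (`eqv_of_nearEq`).
`Br 1 F' β₁ d`: `loc`, `inj` (`R.f (1, ·)` is injective, `G` is injective on `V`); `injF`: on `flat 1 ∪ sph 0`, `F' = G` (`sph 0` is far from the tube); `cr`: `x₀ = pc (8/5 - β₁)`,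
`nsq (x₀ - pc 1) = (3/5 - β₁)² < 1/25` (`β₁ < 4/5`, and `> 2/5`), `core F' β₁ = G (R.f (1, ax β₁)) = G (1/2, x₀) = F' (1/2, x₀)`; `F' = G` near `(1/2, x₀)`; with `κ a = R.f (1, ax a)`:
`fderiv F' (ax β₁) (0, (1, 0)) = (core G₁)'(β₁) = fderiv G (1/2, x₀) (κ'(β₁))`, and the `s`-component `l` of `κ'(β₁)` satisfies `d l > 0`.  `only`: `core F' a = G (R.f (1, ax a))` for all
`a ∈ [1/5, 4/5]`, `F' '' flat 1 = G '' flat 1`, so `R.f (1, ax a) ∈ flat 1` (injectivity on `V`); if `a ≤ 4/5 - ε` then `R.f (1, ax a) = ax a ∉ flat 1`; so `a = β₁` or `a = 4/5`.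
`p.2.1 ≤ 3/4`: `√(rsq 1 p) ≥ 1/4`, outside the tube.  `core F' a ≠ core G a` only if `ax a` is in the tube, then `core F' a = (s, pc 1 + lam (x - pc 1))` with `|s - 1/2| < ε < r`,
`‖lam (x - pc 1)‖ ≤ lam √(rsq 1) < r`.  Determinant: near `ax (4/5)`, `F' (s, x) = (s, pc 1 + lam (x - pc 1))`, determinant `lam³`.  Last claim:
`core F' β₁ = G (ax (8/5 - β₁)) = ax (1 + lam (3/5 - β₁))`, `|3/5 - β₁| < 1/5`. -/
def StSPI : Prop :=
  ∀ (G : R4 → R4) (d r lam : ℝ), (d = 1 ∨ d = -1) → 0 < r → 0 < lam → lam < r →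
    EmbOn I4 G (SP ∪ flat 1) →
    (∀ p : R4, 4 / 5 - 1 / 200 ≤ p.2.1 → rsq 1 p ≤ 1 / 20 → |p.1 - 1 / 2| < r →
      G p = (p.1, pc 1 + lam • (p.2 - pc 1))) →
    ∃ (F' : R4 → R4) (β₁ : ℝ), 3 / 4 < β₁ ∧ Br 1 F' β₁ d ∧ Eqv G F' ∧
      (∀ p : R4, p.2.1 ≤ 3 / 4 → F' p = G p) ∧
      (∀ a ∈ Icc (1 / 5 : ℝ) (4 / 5), core F' a = core G a ∨ ‖core F' a - ax 1‖ < r) ∧
      0 < (fderiv ℝ F' (ax (4 / 5))).det ∧ ‖core F' β₁ - ax 1‖ < lam

/-- **LAS** (lassos) (uses `StNO`, `StV1`, `StSPI`, `StNF1`, `StRM`, `StRG`, `StNF2`).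
*Proof.* `StNO`: `r`, `lam₀`; choose `lam < lam₀`, `lam < r/4`; `G`.  `Thin G id` by `StV1`.  `StSPI` (its formula: `F = id` on `ball (ax 1) δ`, `StCL`): `F₁`, `β₁`.
`StNF1` with `c = 1`, `F₁`, `γ = β₁`, `e = d`, `U = ball (ax 1) (r/4)` (convex, contains `core F₁ β₁`): `F₂`, `G'`, `Strand 1 F₂ β₁ d` with `τ`.  Write `g = G'.f (1, ·)`: a bijection,
`g y = y` off a compact subset of `U`, so `g` maps `ball (ax 1) r` to itself.  Near `sph 0`: `F₂ p = g (F₁ p) = g (F p) = F p` (`‖F p - ax 1‖ > r`).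
`core F₂ a = g (core F₁ a)` on `[1/5, 4/5]` (`rsq 1 (ax a) ≥ 1/25`); for `a ≤ 2/5 - r/2`: `core F₁ a = core G a = core F a`, at distance `≥ r/2` from `ax 1` (if `|a - 2/5| < δ` the distance is
`|a - 2/5| ≥ r/2`), so `core F₂ a = core F a`; for `a ≥ 2/5 - r/2`: `core F₁ a ∈ ball (ax 1) r`, so `core F₂ a ∈ ball (ax 1) r`.
`StRM` (1) with `a₀ = 2/5 - r/2`, `b₀ = 4/5`, `x = 2/5`, `y = β₁`, `μ a = τ (1/2 + d (a - 2/5))` (`μ' (2/5) = d τ'(1/2) > 0`): `m`, `RepOK m`; `F' p = F₂ (repm m p)`; `StNF2` gives `NB 1 F' (2/5) d δ'`;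
`StRG`: `Eqv F₂ F'`, `core F' a = core F₂ (m a)`, `m a = a` for `a ≤ 2/5 - r/2`, and `m` maps `[2/5 - r/2, 4/5]` to itself.  `Thin F' id` along `G ~ F₁ ~ F₂ ~ F'`.  Near `sph 0`, `repm m = id`. -/
def StLAS : Prop :=
  ∀ (F : R4 → R4) (d δ r₁ : ℝ), (d = 1 ∨ d = -1) → NB 1 F (2 / 5) d δ → 0 < r₁ →
    ∃ (r δ' : ℝ) (F' : R4 → R4), 0 < r ∧ r < r₁ ∧ r < δ ∧ (∀ p ∈ sph 0, r < ‖F p - ax 1‖) ∧
      (∀ a ∈ Icc (1 / 5 : ℝ) (4 / 5), δ ≤ |a - 2 / 5| → r < ‖core F a - ax 1‖) ∧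
      NB 1 F' (2 / 5) d δ' ∧ Thin I4 F' (fun x => x) ∧ NearEq F F' (sph 0) ∧
      (∀ a ∈ Icc (1 / 5 : ℝ) (2 / 5 - r / 2), core F' a = core F a) ∧
      ∀ a ∈ Icc (2 / 5 - r / 2) (4 / 5 : ℝ), ‖core F' a - ax 1‖ < r

/-! ## the family joining a germ to its lasso -/

/-- A generic family `H (t, ·)` of arcs on `[1/5, 1]` from the (extended) core of `F'` (`t ≤ 0`) to the one of
`F` (`t ≥ 1`), constant on `a ≤ 2/5 - 3r/4`, on `|a - 2/5| ≤ δ₂` (the strand through `ax 1`) and on `a ≥ 1 - δ₂`. -/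
structure ArcsL (F F' : R4 → R4) (d r δ₂ : ℝ) (H : ℝ × ℝ → R4) : Prop where
  pos : 0 < δ₂
  small : δ₂ < r / 4
  smooth : ContDiff ℝ ∞ H
  left : ∀ t a, t ≤ 0 → H (t, a) = H (0, a)
  right : ∀ t a, 1 ≤ t → H (t, a) = H (1, a)
  start : ∀ a ∈ Icc (1 / 5 : ℝ) 1, H (0, a) = F' (ax a)
  stop : ∀ a ∈ Icc (1 / 5 : ℝ) 1, H (1, a) = F (ax a)
  low : ∀ t a, a ≤ 2 / 5 - 3 / 4 * r → H (t, a) = H (0, a)
  mid : ∀ t a, |a - 2 / 5| ≤ δ₂ → H (t, a) = (1 / 2 + d * (a - 2 / 5), pc 1)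
  high : ∀ t a, 1 - δ₂ ≤ a → H (t, a) = ax a
  inj : ∀ t, InjOn (fun a => H (t, a)) (Ico (1 / 5) 1)
  ne : ∀ t, ∀ a ∈ Ico (1 / 5 : ℝ) 1, H (t, a) = ax 1 → a = 2 / 5
  imm : ∀ t, ∀ a ∈ Icc (1 / 5 : ℝ) 1, fderiv ℝ H (t, a) (0, 1) ≠ 0
  finite : {x : ℝ × ℝ | x.2 ∈ Ioo (1 / 5 : ℝ) 1 ∧ H x ∈ F '' sph 0}.Finite
  late : ∀ t, ∀ a ∈ Ioo (1 / 5 : ℝ) 1, H (t, a) ∈ F '' sph 0 → 0 < t ∧ t < 1 ∧ 2 / 5 < a
  single : ∀ t, ∀ a ∈ Ioo (1 / 5 : ℝ) 1, ∀ a' ∈ Ioo (1 / 5 : ℝ) 1, H (t, a) ∈ F '' sph 0 →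
    H (t, a') ∈ F '' sph 0 → a = a'
  trans : ∀ t, ∀ a ∈ Ioo (1 / 5 : ℝ) 1, ∀ y : ℂ, H (t, a) = F (cst false y) →
    ∀ ζ η, fderiv ℝ H (t, a) ζ = fderiv ℝ (fun y => F (cst false y)) y η → ζ = 0 ∧ η = 0
  avoid : ∀ t, ∀ a ∈ Ioo (1 / 5 : ℝ) 1, H (t, a) ∈ F '' sph 0 → ∀ θ, H (t, a) ≠ F (crv false θ)

/-- The germs `F` and `F'` (a germ in normal form and its lasso). -/
structure LasPair (F F' : R4 → R4) (d δ δ' r : ℝ) : Prop where
  nb : NB 1 F (2 / 5) d δ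
  nb' : NB 1 F' (2 / 5) d δ'
  pos : 0 < r
  lt : r < δ
  far : ∀ p ∈ sph 0, r < ‖F p - ax 1‖
  farc : ∀ a ∈ Icc (1 / 5 : ℝ) (4 / 5), δ ≤ |a - 2 / 5| → r < ‖core F a - ax 1‖
  near : NearEq F F' (sph 0)
  low : ∀ a ∈ Icc (1 / 5 : ℝ) (2 / 5 - r / 2), core F' a = core F a
  high : ∀ a ∈ Icc (2 / 5 - r / 2) (4 / 5 : ℝ), ‖core F' a - ax 1‖ < r

/-- The extended core of the germ `F`, on `[1/5, 1]`; `S` is the first cuff. -/
structure XCore (F : R4 → R4) (S : Set R4) (d μ r : ℝ) (c : ℝ → R4) : Prop where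
  smooth : ContDiff ℝ ∞ c
  core : ∀ a ∈ Icc (1 / 5 : ℝ) 1, c a = F (ax a)
  high : ∀ a, 1 - μ < a → c a = ax a
  mid : ∀ a, |a - 2 / 5| < μ → c a = (1 / 2 + d * (a - 2 / 5), pc 1)
  inj : InjOn c (Ico (1 / 5) 1)
  ne : ∀ a ∈ Ico (1 / 5 : ℝ) 1, c a = ax 1 → a = 2 / 5
  imm : ∀ a ∈ Icc (1 / 5 : ℝ) 1, deriv c a ≠ 0
  off : ∀ a ∈ Ioo (1 / 5 : ℝ) 1, c a ∉ S
  ball : ∀ a ∈ Icc (2 / 5 - 3 / 4 * r) (2 / 5 : ℝ), ‖c a - ax 1‖ < r

/-- **XC** (extended cores).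
*Proof.* Let `μ = min δ δ'`.  `F` and `F'` are smooth near `ax a` for `a ∈ [1/5, 1]` (`neck ∪ flat 1`), so for `a ∈ (1/5 - ν, 1 + ν)`, and equal near `ax a` for `|a - 1/5| < ν` (`near`, `ax (1/5) ∈ sph 0`), for some `ν > 0`, `ν < 1/100`.
Let `ψ` be smooth, `1` on `[1/5 - ν/3, ∞)`, `0` on `(-∞, 1/5 - 2ν/3]`, and `ψ'` smooth, `1` on `(-∞, 1 - μ]`... take `c a = ψ a • F (ax a)` for `a ≤ 1 - μ/2` and `c a = ax a` for `a > 1 - μ`: the two formulas
agree on the overlap because `F = id` on `ball (ax 1) μ`; same for `c'`.  For `a ≤ 2/5 - r/2`: equal (for `a < 1/5 + ν` because `F (ax a) = F' (ax a)` or `ψ a = 0`; on `[1/5, 2/5 - r/2]` by `low`).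
`mid`: `str`.  Injective: on `[1/5, 4/5]` by `Br.inj`, on `[4/5, 1)` by `injF`; if `a < 4/5 ≤ b < 1` and `c a = c b` then
`core F a ∈ F '' flat 1`, so `a = 2/5`, `c a = ax 1 = F (ax 1)`, and `ax b = ax 1` by `injF`, contradiction.  `ne`: the same argument.  `imm`: the derivative of a local diffeomorphism is injective
(`c = F ∘ ax` near `[1/5, 1]`).  `off` (`S = F '' sph 0 = F' '' sph 0`): on `(1/5, 4/5]` by `Br.inj`, on `[4/5, 1)` by `injF`.  `ball`: for `c`: `|a - 2/5| ≤ 3r/4 < δ`, so by `nb.str` the distance is `|a - 2/5| < r`; for `c'`: if `a ≤ 2/5 - r/2` then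
`c' a = c a`, otherwise `high` of `LasPair`. -/
def StXC : Prop :=
  ∀ (F F' : R4 → R4) (d δ δ' r : ℝ), (d = 1 ∨ d = -1) → LasPair F F' d δ δ' r →
    ∃ (c c' : ℝ → R4) (μ : ℝ), 0 < μ ∧ μ ≤ δ ∧ μ ≤ δ' ∧ XCore F (F '' sph 0) d μ r c ∧
      XCore F' (F '' sph 0) d μ r c' ∧ ∀ a, a ≤ 2 / 5 - r / 2 → c a = c' a

/-- **ARL** (the family of arcs) (uses `Pool.Agent.Helper34.BI.StCH`, `exists_genPos`).
*Proof.* `δ₂ < r/4`, `δ₂ < μ/4`.  `χ` = `hat (2/5 - 3r/4) (2/5 - δ₂)` `+ hat (2/5 + δ₂) (1 - δ₂)` (if `χ a = 0` then `c = c'` near `a`: `δ₂ < μ`).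
`exists_genPos` (`Generic.lean`) for `h (t, a) = (1 - step t) • c' a + step t • c a`, `ρ = hat 0 1`, the surface `y ↦ F (cst false y)` on `ℂ` (`ι = Unit`), the curves `θ ↦ F (crv false θ)` and `θ ↦ ax 1`, gives `v, w` arbitrarily small;
`H = fam h ρ χ v w`.  (Follow the proof of `exists_arcFamilyG` in `Pool/Agent/Helper34/BI/Arcs2.lean`; its conclusion on curves is only for the points of `A`, the field `GenPos.curve` is what is needed here.)
`F (cst false ·)`, `F (crv false ·)` are smooth and parametrize `F '' sph 0` minus the foot (`StCH` for `F`, which is `EmbOn SP`); the `Charts` conditions for `A = F '' sph 0` follow from those of `StCH` for `F '' (sph 0 ∪ sph 1)`.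
`inj`: if `χ a ≠ 0` or `χ b ≠ 0`, and `0 < t < 1`: `GenPos.inj`; otherwise both values are those of `c` or both are those of `c'`.  `ne`: if `χ a ≠ 0`, `0 < t < 1`: `GenPos.curve`; otherwise `XCore.ne`.  `imm`: as in `exists_arcFamilyG`.
`late`: no crossing for `t ≤ 0`, `t ≥ 1`, or `χ a = 0` (`XCore.off`).  For `2/5 - 3r/4 ≤ a ≤ 2/5` both `c a` and `c' a` are in the convex set
`ball (ax 1) r`, so for small `v, w` (compactness of `[0,1] × [2/5 - 3r/4, 2/5]`) `‖H (t, a) - ax 1‖ < r`, but `F '' sph 0` is outside (`far`).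
`finite`, `single`, `trans`, `avoid`: as in `exists_arcFamilyG` (all crossings have `0 < t < 1` and `χ a ≠ 0`, so `a` is in a compact subset of `(1/5, 1)`; the foot `F (ax (1/5)) = H (t, 1/5)` is not a crossing point by `inj`);
`cst false y ∈ sph 0`.  `left`, `right`, `low`, `mid`, `high`, `start`, `stop`: from the formula. -/
def StARL : Prop :=
  ∀ (F F' : R4 → R4) (d δ δ' r μ : ℝ) (c c' : ℝ → R4), (d = 1 ∨ d = -1) →
    LasPair F F' d δ δ' r → 0 < μ → μ ≤ δ → μ ≤ δ' → XCore F (F '' sph 0) d μ r c →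
    XCore F' (F '' sph 0) d μ r c' → (∀ a, a ≤ 2 / 5 - r / 2 → c a = c' a) →
    ∃ (δ₂ : ℝ) (H : ℝ × ℝ → R4), δ₂ < δ ∧ δ₂ < δ' ∧ ArcsL F F' d r δ₂ H

/-- A family of germs along the spine and the second flat ball, constant on the ball, whose bars
cross the ball once, at the parameter `2/5`; the exceptional times are crossings of the bar with
the first cuff at a parameter `> 2/5`. -/
structure BFam1 (J : ℝ × R4 → R4) (d : ℝ) : Prop where
  smooth : ∀ t, ∀ p ∈ SP, ∀ᶠ q in 𝓝 (t, p), ContDiffAt ℝ ∞ J q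
  loc : ∀ t, ∀ p ∈ SP ∪ flat 1, LD (fun p => J (t, p)) p
  finite : {t | ¬ InjOn (fun p => J (t, p)) SP}.Finite
  cross : ∀ t, ¬ InjOn (fun p => J (t, p)) SP → ∃ (u : ℝ) (p : R4), 2 / 5 < u ∧ PreCross J t u p
  const : ∀ t t' : ℝ, ∀ p ∈ flat 1, J (t, p) = J (t', p)
  injF : ∀ t, InjOn (fun p => J (t, p)) (flat 1 ∪ sph 0)
  cr : ∀ t, CrossAt (fun p => J (t, p)) 1 (2 / 5) d
  only : ∀ t, ∀ a ∈ Icc (1 / 5 : ℝ) (4 / 5),
    core (fun p => J (t, p)) a ∈ (fun p => J (t, p)) '' flat 1 → a = 4 / 5 ∨ a = 2 / 5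

/-- the reparametrization of the bar caused by the contraction: `clc 1 lam (ax a) = ax (bb lam a)` -/
noncomputable def bb (lam a : ℝ) : ℝ := 1 + cfac lam ((a - 1) ^ 2) * (a - 1)

/-- **FML1** (the contracted family of arcs) (uses `StCL`, `StCTR`; the structure `GenData` of
`Pool/Agent/Helper34/BI/BF.lean`).
*Proof.* By compactness there is `μ > 0` with `‖H (t, a) - ax 1‖ ≥ μ` for `t ∈ [0, 1]`, `a ∈ [1/5, 1 - δ₂]`, `|a - 2/5| ≥ δ₂` (`ne`), hence for all `t` (`left`, `right`).  Let `0 < lam ≤ 1/2`, `lam < μ`,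
`lam < δ₂`, `lam < δ`, `lam < δ'`.  `b = bb lam` (`StCL` for `c = 1`): smooth, `b' > 0`, `b a = a` for `a ≤ 7/10` (`cfac lam q = 1` for `q ≥ 9/100`), `b a = 1 - lam (1 - a)` for `|1 - a| ≤ 11/50`; `b` maps `[1/5, 4/5]` onto `[1/5, 1 - lam/5]`.
`F'_l p = F' (clc 1 lam p)` is `EmbOn SP` (`StCTR`, `γ = 2/5`; `core F' (2/5) = ax 1 = F' (ax 1)`); near `flat 1` it is `(s, x) ↦ (s, pc 1 + lam (x - pc 1))` (`F' = id` on `ball (ax 1) δ'`), so `F'_l '' flat 1 = D := {(1/2, x) | nsq (x - pc 1) ≤ lam²/25}`; on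
`sph 0` it is `F' = F` (`near`).
Claim: for `a ∈ [1/5, 4/5]`: `H (t, b a) ∈ D` only if `b a = 2/5` or `b a = 1 - lam/5`, that is `a = 2/5` or `a = 4/5`: in the region `b a ≤ 1 - δ₂`, `|b a - 2/5| ≥ δ₂` the distance to `ax 1` is `≥ μ > lam`; for `|b a - 2/5| < δ₂`
use `mid`: `s = 1/2` only for `b a = 2/5`; for `b a ≥ 1 - δ₂`: `H = ax (b a)`, in `D` iff `1 - b a ≤ lam/5`, and `1 - b a ≥ lam/5`.
So the arcs do not meet `F'_l '' sph 1 ⊆ D` for `a ∈ (1/5, 4/5)` (at `a = 2/5` the point is `ax 1 = F'_l (ax 1)`, not on the cuff).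
`GenData F'_l c₀ c₁ (1/50) H_l`: `core`: `F'_l (ax a) = F' (ax (b a)) = c₀ a`.  `inj₁`, `imm₀`, `imm₁`, `arcs.inj`, `arcs.imm`: `inj`, `imm` of `ArcsL`, `b` is injective, `b' > 0`.  `arcs.frozen`: for `a ≤ 11/50`, `b a = a ≤ 2/5 - 3r/4` (`r < 1/100`): `low`;
for `a ≥ 39/50`: `b a ≥ b (39/50) = 1 - 11/50 lam ≥ 1 - δ₂` (`b` is increasing): `high`.  `arcs.start`, `stop`: `left`, `right`.  Crossings with the cuffs are crossings with `F '' sph 0`: `late`, `finite`, `single`, `trans`, `avoid` of `ArcsL` and the chain rule for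
`(t, a) ↦ (t, b a)`; `fun y => F'_l (cst false y) = fun y => F (cst false y)`, `F'_l (crv false θ) = F (crv false θ)`; for the index `true` there are no crossings (`cst true y`, `crv true θ ∈ sph 1`).  `arcs.active`: `a > 11/50` as `b a > 2/5`, and `a < 39/50`
because for `a ≥ 39/50` the point is `ax (b a)` at distance `≤ δ₂ < r` from `ax 1`, `F '' sph 0` is outside (`far`). -/
def StFML1 : Prop :=
  ∀ (F F' : R4 → R4) (d δ δ' r δ₂ : ℝ) (H : ℝ × ℝ → R4), (d = 1 ∨ d = -1) →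
    LasPair F F' d δ δ' r → δ₂ < δ → δ₂ < δ' → ArcsL F F' d r δ₂ H →
    ∃ lam : ℝ, 0 < lam ∧ lam ≤ 1 / 2 ∧ lam < δ ∧ lam < δ' ∧ lam < δ₂ ∧
      GenData (fun p => F' (clc 1 lam p)) (fun a => H (0, bb lam a)) (fun a => H (1, bb lam a))
        (1 / 50) (fun z => H (z.1, bb lam z.2)) ∧
      (∀ t, ∀ a ∈ Icc (1 / 5 : ℝ) (4 / 5),
        H (t, bb lam a) ∈ (fun p => F' (clc 1 lam p)) '' flat 1 → a = 4 / 5 ∨ a = 2 / 5) ∧
      ∀ t, ∀ a ∈ Ioo (1 / 5 : ℝ) (4 / 5),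
        H (t, bb lam a) ∈ (fun p => F' (clc 1 lam p)) '' (sph 0 ∪ sph 1) →
        2 / 5 < a ∧ H (t, bb lam a) ∈ (fun p => F' (clc 1 lam p)) '' sph 0

/-- **FML** (the family of germs) (uses `StFML1`, `StCL`, `StCTR`, `StFr`, `Pool.Agent.Helper34.BI.StCH`; the file
`Pool/Agent/Helper34/BI/BF.lean`).
*Proof.* `StFML1`: `lam`.  `F_l p = F (clc 1 lam p)`, `F'_l` same; by `StCTR` (`γ = 2/5`) both are `EmbOn SP`, `Eqv F F_l`, `Eqv F' F'_l`; near `flat 1` both are `(s, x) ↦ (s, pc 1 + lam (x - pc 1))`, near `sph 0` both are `F`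
(`clc 1 lam = id` there, and `near`).  `H_l (t, a) = H (t, bb lam a)`, `c₀ a = H (0, bb lam a)`, `J = barFam F'_l c₀ H_l (1/50)`.
`smooth`, `loc` on `SP`: `BarData.eventually_smooth`, `isLocalDiffeomorphAt` (`GenData.bar`, `GenData.imm`); near `flat 1`: `J (t, ·) = F'_l` (`barFam_eq`, `p.2.1 ≥ 4/5 - 1/100`), `const`.  `finite`: `(GenData.bfam ..).finite`.
`cross`: `GenData.exists_crossing`, the last claim of `StFML1`, `GenData.preCross_zero`.  `injF`: `J (t, ·) = F'_l` on `flat 1 ∪ sph 0`; `F'_l` is injective there: `clc 1 lam` is injective and maps it into `flat 1 ∪ sph 0`.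
`only`: `core (J (t, ·)) a = H_l (t, a)` (`barFam_neck`).  `cr`: `x₀ = pc 1`, `l = d`, `v = 0`: `fderiv (J (t, ·)) (ax (2/5)) (0, (1, 0))` is the derivative at `2/5` of
`a ↦ H (t, bb lam a) = (1/2 + d (a - 2/5), pc 1)` (`bb lam a = a` near `2/5`), and `J (t, ·) = (s, pc 1 + lam (x - pc 1))` near `ax 1`; `d d = 1`.
`J (0, ·)` is `EmbOn SP` (`BarData.embOn`, `GenData.imm`, `injF`, `injH`, `dis₀`), and agrees with `F'_l` near the cuffs (`barFam_eq`) and on the neck: `StFr` gives `Eqv F'_l (J (0, ·))`.  `J (1, ·)` is `EmbOn SP` (`dis₁`), agrees near the cuffs with `F'_l`, so with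
`F_l`, and on the neck: `H (1, bb lam a) = F (ax (bb lam a)) = F_l (ax a)` (`ArcsL.stop`): `StFr`. -/
def StFML : Prop :=
  ∀ (F F' : R4 → R4) (d δ δ' r δ₂ : ℝ) (H : ℝ × ℝ → R4), (d = 1 ∨ d = -1) →
    LasPair F F' d δ δ' r → δ₂ < δ → δ₂ < δ' → ArcsL F F' d r δ₂ H →
    ∃ J : ℝ × R4 → R4, BFam1 J d ∧ EmbOn I4 (fun p => J (0, p)) SP ∧
      EmbOn I4 (fun p => J (1, p)) SP ∧ Eqv F' (fun p => J (0, p)) ∧ Eqv F (fun p => J (1, p))

/-! ## the class `W` and equality of classes up to `W` -/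

/-- `W` represents the class of all theta germs, and `W²` is trivial. -/
structure IsW (W : R4 → R4) : Prop where
  rep : ∃ (F₀ : R4 → R4) (α₀ β₀ : ℝ), Theta F₀ α₀ β₀ 1 1 ∧ Thin I4 F₀ W
  sq : CIsot I4 (fun x => W (W x)) (fun x => x)
  all : ∀ (F : R4 → R4) (α β e d : ℝ), (e = 1 ∨ e = -1) → (d = 1 ∨ d = -1) → Theta F α β e d →
    Thin I4 F W

/-- the classes of `F` and `G` are equal up to `W` -/
def MW (W F G : R4 → R4) : Prop :=
  ∀ φ ψ : R4 → R4, Thin I4 F φ → Thin I4 G ψ → CIsot I4 ψ φ ∨ CIsot I4 ψ (fun x => W (φ x))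

theorem exists_isW (h : StW) : ∃ W, IsW W := by
  obtain ⟨W, F₀, α₀, β₀, h1, h2, h3, h4⟩ := h
  exact ⟨W, ⟨F₀, α₀, β₀, h1, h2⟩, h3, h4⟩

/-- **MWL.** Properties of the relation `MW`, and `W` is central (uses `StT2`, `StCI`, `StR2sw`; compare
`Pool/Agent/Helper34/BI/M_MRL.lean`).
*Proof.* Centrality (first claim): `CIsot φ φ` says that `φ` is a diffeomorphism (with smooth inverse `φ'`, `StCI`) and compactly supported.  For the theta germ `F₀` of `IsW.rep` the germ `φ ∘ F₀` is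
again `Theta φ∘F₀ α₀ β₀ 1 1` (composition with a diffeomorphism: local diffeomorphisms, injectivity, images, chain rule for the derivatives in `CrossAt`), so `Thin (φ ∘ F₀) W` (`IsW.all`), and `Thin (φ ∘ F₀) (φ ∘ W ∘ φ')` (`StT2` (vi)); by
uniqueness (`StT2` (ii)) `CIsot W (φ ∘ W ∘ φ')`; compose with `CIsot φ φ`.  (`CIsot W W` by `StT2` (vii).)
Reflexive: uniqueness.  Symmetric: `CIsot ψ (W ∘ φ)` gives `CIsot (W ∘ ψ) (W ∘ W ∘ φ)`, and `CIsot (W ∘ W ∘ φ) φ`.  Transitive (`G` has a representative): `W^a`, `W^b`, `W²` trivial.  Families: `StT2` (iii).  Swap: `φ`, `ψ` with inverses `φ'`, `ψ'`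
(`StCI`), `Thin (F ∘ swp) φ'`, `Thin (G ∘ swp) ψ'` (`StR2sw`); if `CIsot ψ' (W ∘ φ')`, take inverses: `CIsot ψ (φ ∘ W')`, `W'` the inverse of `W`, `CIsot W' W`, centrality.  Last: trivial. -/
def StMWL : Prop :=
  ∀ W : R4 → R4, IsW W →
    (∀ φ, CIsot I4 φ φ → CIsot I4 (fun x => W (φ x)) (fun x => φ (W x))) ∧
    (∀ F, MW W F F) ∧ (∀ F G, MW W F G → MW W G F) ∧
    (∀ F G H, EmbOn I4 G SP → MW W F G → MW W G H → MW W F H) ∧
    (∀ (J : ℝ × R4 → R4) (t₁ t₂ : ℝ), t₁ ≤ t₂ →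
      (∀ t ∈ Icc t₁ t₂, ∀ p ∈ SP, ∀ᶠ q in 𝓝 (t, p), ContDiffAt ℝ ∞ J q) →
      (∀ t ∈ Icc t₁ t₂, EmbOn I4 (fun p => J (t, p)) SP) →
      MW W (fun p => J (t₁, p)) (fun p => J (t₂, p))) ∧
    (∀ F G, EmbOn I4 F SP → EmbOn I4 G SP →
      MW W (fun p => F (swp p)) (fun p => G (swp p)) → MW W F G) ∧
    ∀ F F' G, Eqv F F' → MW W F G → MW W F' G

/-- **LGG.** From local to global in time, for a general relation.
*Proof.* The proof of `StLG` in `Pool/Agent/Helper34/BI/M_LG.lean`, with the relation `Q` in place of `MR` and the hypothesis `hX` in place of the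
two cases of the crossing lemma. -/
def StLGG : Prop :=
  ∀ (Q : (R4 → R4) → (R4 → R4) → Prop) (J : ℝ × R4 → R4), (∀ F, Q F F) →
    (∀ F G, Q F G → Q G F) → (∀ F G H, EmbOn I4 G SP → Q F G → Q G H → Q F H) →
    (∀ t₁ t₂ : ℝ, t₁ ≤ t₂ →
      (∀ t ∈ Icc t₁ t₂, ∀ p ∈ SP, ∀ᶠ q in 𝓝 (t, p), ContDiffAt ℝ ∞ J q) →
      (∀ t ∈ Icc t₁ t₂, EmbOn I4 (fun p => J (t, p)) SP) →
      Q (fun p => J (t₁, p)) (fun p => J (t₂, p))) →
    (∀ t, ∀ p ∈ SP, ∀ᶠ q in 𝓝 (t, p), ContDiffAt ℝ ∞ J q) →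
    (∀ t, ∀ p ∈ SP, LD (fun p => J (t, p)) p) → {t | ¬ InjOn (fun p => J (t, p)) SP}.Finite →
    (∀ t, ¬ InjOn (fun p => J (t, p)) SP → ∀ ε > 0, ∃ t₁ ∈ Ioo (t - ε) t, ∃ t₂ ∈ Ioo t (t + ε),
      EmbOn I4 (fun p => J (t₁, p)) SP ∧ EmbOn I4 (fun p => J (t₂, p)) SP ∧
      Q (fun p => J (t₁, p)) (fun p => J (t₂, p))) →
    EmbOn I4 (fun p => J (0, p)) SP → EmbOn I4 (fun p => J (1, p)) SP →
    Q (fun p => J (0, p)) (fun p => J (1, p))

/-- **TH** (the obstruction germ is a theta germ) (uses `StCRP`, `StMWL`).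
*Proof.* `StCRP` for `J`, `t₀`, `u₀`, `p₀` (`BFam1.cross`), `C = J (t₀, ·) '' flat 1` (compact; disjoint from `J (t₀, ·) '' sph 0` by `injF`) and `ε' = min ε (u₀ - 2/5)`: `t₁, t₂, t', t''`, `O`, `α`, `e`; `α > 2/5`.  `Theta O α (2/5) e d`:
`a` is given.  `b`: `loc`: on `SP` from `a`; near `flat 1`, `O = J (t', ·)`.  `injF`: `O = J (t', ·)` on `flat 1`, `O '' flat 1 = C` (`const`), `O '' sph 0 ⊆ O '' flat 0` is disjoint from `C`, `O` is injective on `sph 0` and `J (t', ·)` on `flat 1`.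
`cr`: `CrossAt (J (t', ·)) 1 (2/5) d` gives `x₀, l, v`; `fderiv O (ax (2/5)) (0, (1, 0))` is the derivative of `core O` at `2/5`, which is the one of `core (J (t', ·))` (equal near `2/5`); `O = J (t', ·)` near `(1/2, x₀)` (`a`-coordinate
`> 4/5`).  `only`: `core O = core (J (t', ·))`, `O '' flat 1 = J (t', ·) '' flat 1`.  `dis`: `O '' flat 1 = C`.  `ord`: `2/5 < α`.  So `Thin O W`, and with `n = W` in `StCRP`: `CIsot φ' (W ∘ φ'')`, i.e.
`MW (J (t'', ·)) (J (t', ·))`; use the symmetry of `MW` to order the times. -/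
def StTH : Prop :=
  ∀ (W : R4 → R4) (J : ℝ × R4 → R4) (d t₀ ε : ℝ), IsW W → (d = 1 ∨ d = -1) → BFam1 J d →
    ¬ InjOn (fun p => J (t₀, p)) SP → 0 < ε →
    ∃ t₁ ∈ Ioo (t₀ - ε) t₀, ∃ t₂ ∈ Ioo t₀ (t₀ + ε), EmbOn I4 (fun p => J (t₁, p)) SP ∧
      EmbOn I4 (fun p => J (t₂, p)) SP ∧ MW W (fun p => J (t₁, p)) (fun p => J (t₂, p))

/-- **OBP** (uses `StLAS`, `StXC`, `StARL`, `StFML`, `StTH`, `StLGG`, `StMWL`, `StNF1`, `StRM`, `StRG`, `StNF2`).
A germ with positive orientation whose second cuff bounds a flat ball met once by the bar has class `1` or `W`.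
*Proof.* `StNF1` (`c = 1`, `γ`, `U = univ`): `F₂`, `Strand 1 F₂ γ e` with `τ`; `StRM` (1) with `a₀ = 1/5`, `b₀ = 4/5`, `x = 2/5`, `y = γ`, `μ a = τ (1/2 + e (a - 2/5))` gives `m` with `RepOK m`, and `StNF2`, `StRG` give
`F₁ = F₂ ∘ repm m` with `NB 1 F₁ (2/5) e δ`, `Eqv F F₁`.  `StLAS` for `F₁` (`r₁ = 1`): `F'`, `LasPair F₁ F' e δ δ' r`.  `StXC`, `StARL`, `StFML`: `J`.  `StLGG` for `Q = MW W` (`StMWL`, `StTH`): `MW W (J (0, ·)) (J (1, ·))`, so
`MW W F' F₁` (`Eqv F' (J (0, ·))`, `Eqv F₁ (J (1, ·))`, symmetry).  `Thin F₁ φ`, `Thin F' id`: `CIsot φ id` or `CIsot φ W`. -/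
def StOBP : Prop :=
  ∀ (W F : R4 → R4) (γ e : ℝ), IsW W → (e = 1 ∨ e = -1) → Br 1 F γ e →
    0 < (fderiv ℝ F (ax (4 / 5))).det →
    ∀ φ : R4 → R4, Thin I4 F φ → CIsot I4 φ (fun x => x) ∨ CIsot I4 φ W

/-- **OB1** (uses `StOBP`, `StRefH`, `StT2`, `StCI`).  The same without the condition on the orientation.
*Proof.* The determinant at `ax (4/5)` is not zero (`ld_iff`).  If it is negative: `F ∘ refh` satisfies `Br 1 (F ∘ refh) γ e` (as in `M_SYM.lean`: `refh` is a linear involution which preserves `flat 1`, `sph 0`, fixes the axis,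
`x₀' = conj x₀`), with positive determinant at `ax (4/5)`, and `Thin F φ` gives `Thin (F ∘ refh) φ'` for
the inverse `φ'` of `φ` (`StRefH`; `φ'` exists by `StT2` (vii), `StCI`).  By `StOBP`, `CIsot φ' id` or `CIsot φ' W`; take inverses (`StCI`): `CIsot φ id` or `CIsot φ W'` with `W'` the inverse of `W`, and `CIsot W' W` because `W²` is trivial. -/
def StOB1 : Prop :=
  ∀ (W F : R4 → R4) (γ e : ℝ), IsW W → (e = 1 ∨ e = -1) → Br 1 F γ e →
    ∀ φ : R4 → R4, Thin I4 F φ → CIsot I4 φ (fun x => x) ∨ CIsot I4 φ W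

/-- **OB0** (uses `StOB1`, `StR2sw`, `StT2`, `StCI`).  The same for the first cuff.
*Proof.* `F ∘ swp` satisfies `Br 1 (F ∘ swp) (1 - γ) (-e)` (compare `StSYM`), and has the inverse class (`StR2sw`); `W` is its own inverse up to isotopy. -/
def StOB0 : Prop :=
  ∀ (W F : R4 → R4) (γ e : ℝ), IsW W → (e = 1 ∨ e = -1) → Br 0 F γ e →
    ∀ φ : R4 → R4, Thin I4 F φ → CIsot I4 φ (fun x => x) ∨ CIsot I4 φ W

/-- **MAIN (stage 2), for `R4`** (uses `StOB0`, `StCRP`, `StMWL`, `StLGG`, `StCH`, `StCO`, `StFr`; compare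
`Pool/Agent/Helper34/BI/Main.lean`).  Two germs along the spine which agree near the two cuffs have the same implantation class up to `W`.
*Proof.* As `stMain_of` in `Main.lean`, which constructs a family `J` with `BFam J`, `J (0, ·) = F`, `EmbOn (J (1, ·)) SP` and (by `StFr`) `Eqv (J (1, ·)) F'`.  Instead of `StLG` use `StLGG` with `Q = MW W`; at an exceptional time
`StCRP` (with `C = ∅`) for `J`, or for the swapped family and `StMWL` (swap), gives `O` with `Br 0 O α e`, whose class is `1` or `W` by `StOB0`, so `CIsot φ' φ''` or `CIsot φ' (W ∘ φ'')`. -/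
def StMain2 : Prop :=
  ∀ (W F F' φ φ' : R4 → R4) (U : Set R4), IsW W → EmbOn I4 F SP → EmbOn I4 F' SP →
    IsOpen U → sph 0 ∪ sph 1 ⊆ U → EqOn F F' U → Thin I4 F φ → Thin I4 F' φ' →
    CIsot I4 φ' φ ∨ CIsot I4 φ' (fun x => W (φ x))

end Pool.Agent.Helper70.BI


end

/-! ## Helper27.BI.H.StH1 -/

section

/-!
# Project BI, stage 3 (H), section 1: chains, thick arcs, framings, classes of loops

Statements (as `Prop` definitions) with complete proofs in the docstrings.  A module `M_X` proves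
`theorem m_X : StX` (possibly from other statements as hypotheses `(h : StY)`).
-/

set_option autoImplicit false

open scoped Manifold ContDiff Topology ComplexConjugate
open Set Filter Pool.Agent.Helper65.Barb Pool.Agent.Helper18.BI
open Pool.Agent.Helper70.BI (I4 LD Eqv NearEq StPT)
open Pool.Agent.Helper34.BI (qmul qinv)

namespace Pool.Agent.Helper27.H

/-- MODULE PTJ (perturbation of the identity with parameters).
*Proof.* As `StPT` (`Pool/Agent/Helper70/BI/M_PT.lean`), with an open set `O` of parameters: for fixed `e ∈ O` the map `x ↦ x + g (e, x)` is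
a homeomorphism of `E` (`ApproximatesLinearOn` the identity on `univ` with constant `3/4 < 1`).
`(e, x) ↦ (e, x + g (e, x))` is smooth and bijective on `O ×ˢ univ`, its derivative is injective at every point
(`‖fderiv (g (e, ·))‖ ≤ 3/4`), so its inverse is smooth by the inverse function theorem. -/
def StPTJ : Prop :=
  ∀ (E' : Type) [NormedAddCommGroup E'] [NormedSpace ℝ E'] [FiniteDimensional ℝ E']
    (E : Type) [NormedAddCommGroup E] [NormedSpace ℝ E] [FiniteDimensional ℝ E]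
    (O : Set E') (g : E' × E → E), IsOpen O → ContDiffOn ℝ ∞ g (O ×ˢ univ) →
    (∀ e ∈ O, ∀ x y, ‖g (e, x) - g (e, y)‖ ≤ 3 / 4 * ‖x - y‖) →
    ∃ f' : E' × E → E, ContDiffOn ℝ ∞ f' (O ×ˢ univ) ∧
      ∀ e ∈ O, ∀ x, f' (e, x) + g (e, f' (e, x)) = x ∧ f' (e, x + g (e, x)) = x

/-- MODULE CH4 (chains of displacements for families of germs).  For a smooth family `J a`, `a` in a compact
convex set `Q` of parameters, of germs of embeddings along a compact set `L`, constant on the open set `V` and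
with values in the open set `U` on `L \ V`, there are diffeomorphisms `P a b` of `R4` (with inverses `P' a b`), depending
smoothly on `a, b` in a neighbourhood of `Q`, with `P a a = 1`, supported in a fixed compact subset of `U`, with
`P a b ∘ J a = J b` on a fixed neighbourhood of `L`.

Proof (uses `StPTJ`, and `StA1`, `StA0` (`hA1`, `hA0` of `Helper18/BI/AsmA.lean`, or `Pool.Agent.Helper70.BI.embOn_iff`)).
(0) `Ĵ (a, p) = (a, J a p)` on `(ℝ × ℝ) × R4` is smooth near `Q × L`; its derivative at `(a, p) ∈ Q × L` is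
`(α, v) ↦ (α, .. + D(J a)(p) v)`, injective; `Ĵ` is injective on `Q × L`.  `StA1` (with `V = M = (ℝ × ℝ) × R4`)
gives a partial diffeomorphism `δ` with `Q ×ˢ L ⊆ δ.source` and `δ = Ĵ` on `δ.source`.
The set `{(a, p) | (a, p) ∈ δ.source, Ĵ smooth near (a, p), J a p ∈ U or p ∈ V}` is a neighbourhood of `Q × L` (on `Q ×ˢ L` the map
`Ĵ` is continuous), so by the generalized tube lemma it contains `A₁ × N₁` for compact neighbourhoods `A₁` of `Q` and `N₁` of `L`.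
Let `χ : R4 → ℝ` be smooth with values in `[0,1]`, `χ = 1` on an open `N ⊇ L`, with compact support (`tsupport`) in the
interior of `N₁` (`exists_contMDiff..`/`exists_smooth_one_nhds_of_subset_interior` or
`exists_contDiff_tsupport_subset` + compactness).
(1) The displacement: `D a b y = χ p • (J b p - J a p)` if `(a, y) ∈ δ.target` and `p = (δ.symm (a, y)).2`, and `0` otherwise.  It is
smooth on `int A₁ × int A₁ × R4`: the set `C = δ '' (A₁ ×ˢ tsupport χ)` is compact, hence closed; if `(a, y) ∉ C` then `D a' b' y' = 0` for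
`(a', y')` near `(a, y)` (`a' ∈ A₁`); if `(a, y) ∈ C ⊆ δ.target` the formula holds nearby and `J b' p'` is smooth (`p' ∈ N₁`).
`D a a y = 0`; `D a b y = 0` unless `y = J a p` with `p ∈ tsupport χ`; for `a, b ∈ Q`, `D a b y = 0` unless moreover `p ∉ V`; so for
`a, b ∈ Q` the support is in the compact set `K = (fun z => J z.1 z.2) '' (Q ×ˢ (tsupport χ \ V)) ⊆ U`.
(2) `∃ η > 0`, for `a, b ∈ Q` with `‖a - b‖ ≤ η` the derivative of `D a b` in `y` has norm `≤ 1/2`: it is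
continuous in `(a, b, y)`, zero for `a = b` and zero for `y ∉ K'`, `K'` compact (`K' =` image of
`A₁ ×ˢ tsupport χ`, for all `a ∈ A₁`); uniform continuity on the compact `Q × Q × K'`.  By compactness (of `{(a, b) ∈ Q × Q | ‖a - b‖ ≤ η} × K'`, tube lemma) there is an
open `O₂ ⊆ int A₁ × int A₁`, containing `{(a, b) ∈ Q × Q | ‖a - b‖ ≤ η}`, on which the norm is `≤ 3/4`; so `D a b` is `3/4`-Lipschitz for `(a, b) ∈ O₂`.
(3) Choose `n ≥ 1` with `diam Q / n ≤ η`, `c k = a + (k/n) • (b - a)` (in `Q` for `a, b ∈ Q`),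
`O = {(a, b) | ∀ k < n, (c k, c (k+1)) ∈ O₂}` (open, contains `Q ×ˢ Q`), and
`P a b = S (c (n-1)) (c n) ∘ ⋯ ∘ S (c 0) (c 1)`, `S a b y = y + D a b y`, whose inverse is smooth in all variables by `StPTJ`; induction on the number of
factors; compare `Pool/Agent/Helper27/BI/M_CH.lean` (same argument).  For `p ∈ N`: `S a b (J a p) = J b p` (`χ p = 1`, `(a, p) ∈ δ.source`). -/
def StCH4J : Prop :=
  ∀ (Q : Set (ℝ × ℝ)) (L V U : Set R4) (J : ℝ × ℝ → R4 → R4), IsCompact Q → Convex ℝ Q →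
    IsCompact L → IsOpen V → IsOpen U → Fam2 Q L V U J →
    ∃ (P P' : ℝ × ℝ → ℝ × ℝ → R4 → R4) (O : Set ((ℝ × ℝ) × (ℝ × ℝ))), IsOpen O ∧ Q ×ˢ Q ⊆ O ∧
      ContDiffOn ℝ ∞ (fun z : ((ℝ × ℝ) × (ℝ × ℝ)) × R4 => P z.1.1 z.1.2 z.2) (O ×ˢ univ) ∧
      ContDiffOn ℝ ∞ (fun z : ((ℝ × ℝ) × (ℝ × ℝ)) × R4 => P' z.1.1 z.1.2 z.2) (O ×ˢ univ) ∧
      (∀ a b, (a, b) ∈ O → ∀ x, P a b (P' a b x) = x ∧ P' a b (P a b x) = x) ∧
      (∀ a ∈ Q, ∀ x, P a a x = x) ∧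
      ∃ N : Set R4, IsOpen N ∧ L ⊆ N ∧ ∃ K : Set R4, IsCompact K ∧ K ⊆ U ∧
        ∀ a ∈ Q, ∀ b ∈ Q, (∀ x, x ∉ K → P a b x = x) ∧ ∀ p ∈ N, P a b (J a p) = J b p

/-- Chains along smooth paths of parameters (a corollary of `StCH4J`, see `ch4_of_joint` in `Calc.lean`). -/
def StCH4 : Prop :=
  ∀ (Q : Set (ℝ × ℝ)) (L V U : Set R4) (J : ℝ × ℝ → R4 → R4), IsCompact Q → Convex ℝ Q →
    IsCompact L → IsOpen V → IsOpen U → Fam2 Q L V U J →
    ∃ P : ℝ × ℝ → ℝ × ℝ → R4 → R4, (∀ a ∈ Q, ∀ x, P a a x = x) ∧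
      ∃ N : Set R4, IsOpen N ∧ L ⊆ N ∧ ∃ K : Set R4, IsCompact K ∧ K ⊆ U ∧
      ∀ a b : ℝ → ℝ × ℝ, ContDiff ℝ ∞ a → ContDiff ℝ ∞ b → (∀ t, a t ∈ Q) → (∀ t, b t ∈ Q) →
        ∃ F : DFam 𝓘(ℝ, R4) R4, (∀ t x, F.f (t, x) = P (a t) (b t) x) ∧
          (∀ t x, x ∉ K → F.f (t, x) = x) ∧ ∀ t, ∀ p ∈ N, F.f (t, J (a t) p) = J (b t) p

/-- PI2 (helper18): `π₂` of the group of linear maps of three-space with positive determinant
is trivial, relative form. -/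
def StPI2 : Prop :=
  ∀ M : ℝ × ℝ → (R3 →L[ℝ] R3), ContDiff ℝ ∞ M → (∀ x, 0 < (M x).det) →
    (∀ x, x ∉ Q2 → M x = ContinuousLinearMap.id ℝ R3) →
    ∃ H : ℝ × ℝ × ℝ → (R3 →L[ℝ] R3), ContDiff ℝ ∞ H ∧ (∀ z, 0 < (H z).det) ∧
      (∀ x, H (0, x) = M x) ∧ (∀ x, H (1, x) = ContinuousLinearMap.id ℝ R3) ∧
      ∀ t x, x ∉ Q2 → H (t, x) = ContinuousLinearMap.id ℝ R3

/-- MODULE FRAME (framings do not matter).  Two paths of thick arcs with the same cores, with the same germs at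
both ends of the path and on the frozen part, have isotopic pushes.

Proof (uses `StCH4`, `StPI2`, and the calculus of `Calc.lean`: `LPush.exists`, `square4`, `LPush.reparam`, `LIso.trans`).
Write `L = D.L`.  (a) Reparametrize: let `ϑ q = step (3 q - 1)` (`0` for `q ≤ 1/3`, `1` for `q ≥ 2/3`).  The push along `q ↦ J (ϑ q)` is
isotopic to the one along `J` (square `J ((1-u) q + u ϑ q)`, left and right edges constant).  So assume that `J q`, `J' q` are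
constant for `q ≤ 1/3` and for `q ≥ 2/3` (as germs; `J 0`, `J' 0` agree near `L`, `J 1`, `J' 1` agree near `L`).
(b) Near `L`, `R q = (J q)⁻¹ ∘ J' q` is a smooth family of germs (inverse of the local diffeomorphism
`(q, p) ↦ (q, J q p)`, `StA1` on the compact `[0,1] × L`; `J' q p` is in its target for `p` near `L` because
`J' q p = J q p` for `p ∈ L`).  `R q p = p` for `p ∈ L`, and for `p` near the ends of `L` (in `V`); `R q = id` near `L` for `q ≤ 1/3`,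
`q ≥ 2/3`.  Its derivative at `(s, 0)`, `s ∈ [s₀, s₁]`, maps `(1, 0)` to `(1, 0)`: it is `(σ, v) ↦ (σ + l(q,s) v, M(q,s) v)` with `M(q,s) : R3 →L R3`
invertible; `M = 1`, `l = 0` for `q ≤ 1/3`, `q ≥ 2/3` and for `s` near `s₀`, `s₁`; smooth; `det M > 0` (connectedness of `[0,1] × [s₀,s₁]`).  Extend
`M`, `l` by `1`, `0` outside `[0,1] × [s₀,s₁]`: smooth on `ℝ × ℝ`.
(c) First homotopy: `T τ q (s, y) = (1-τ) • (s + l(q,s) y, M(q,s) y) + τ • R q (s, y)`, `τ ∈ [0,1]`: fixes `L` pointwise, its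
derivative on `L` is the one of `R q`, so `J q ∘ T τ q` is a family of germs (`Fam2 Q2 D.L V' D.U` in the parameters `(τ, q)`,
with `V'` a smaller open neighbourhood of the frozen part on which `R q = id` and `M = 1`, `l = 0`: for the points of `L` near the ends).
The edges `q = 0`, `q = 1` are constant near `L`.  `square4`: the push along `J'` (`τ = 1`) is isotopic to the one along
`q ↦ J q ∘ T 0 q`.
(d) Second homotopy: `T' τ q (s, y) = (s + (1-τ) l(q,s) y, H(τ, q, s) y)`, `H` from `StPI2` (rescale `s` to `[0,1]`): derivative on `L`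
block triangular with positive determinant.  At `τ = 0` it is the linear germ of (c), at `τ = 1` the identity.  `square4` again.
The frozen condition: all germs in the families agree with `J 0` on an open set containing the two ends of `L`;
this is all that is needed (`Fam2` with this smaller `V'`; on `L \ V'` the values are the cores, which are in `U`: the values on
`L ∩ Ioo` are `J q (s, 0)`; for `(s, 0) ∉ V` by hypothesis, for `(s, 0) ∈ V` they are `J 0 (s, 0)`, which must be in `U` for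
`s ∈ (s₀, s₁)`: this is the hypothesis `hmem`). -/
def StFRAME : Prop :=
  ∀ (D : ArcD) (V : Set R4) (J J' : ℝ → R4 → R4) (Θ Θ' : R4 → R4), IsOpen V →
    ((D.s₀, 0) : R4) ∈ V → ((D.s₁, 0) : R4) ∈ V →
    Fam2 Q2 D.L V D.U (fun a => J a.2) → Fam2 Q2 D.L V D.U (fun a => J' a.2) →
    (∀ q ∈ Icc (0 : ℝ) 1, ∀ s ∈ Icc D.s₀ D.s₁, J q (s, 0) = J' q (s, 0)) →
    (∀ p ∈ V, J 0 p = J' 0 p) → (∀ s ∈ Ioo D.s₀ D.s₁, J 0 (s, 0) ∈ D.U) →
    NearEq (J 0) (J' 0) D.L → NearEq (J 1) (J' 1) D.L →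
    LPush D.U D.L J Θ → LPush D.U D.L J' Θ' → LIso D.U D.L (J 0) (J 1) Θ Θ'

/-- The canonical thickening of an arc with core `x` close to the base germ `G` with core `c` (`x` and `c` and
their derivatives `x'`, `c'` are functions of `s`): the normal frame of `G` is transported by the quaternion
`x' (c')⁻¹`. -/
noncomputable def thk (G : R4 → R4) (c x : ℝ → R4) (p : R4) : R4 :=
  G p + (x p.1 - c p.1) +
    qmul (deriv x p.1 - deriv c p.1) (qmul (qinv (deriv c p.1)) (fderiv ℝ G (p.1, 0) (0, p.2)))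

/-- MODULE THK (existence of thick families with given cores).  Let `G` be a germ of an embedding along
`L = seg s₀ s₁` with core `c` (`c` smooth on `ℝ`, `G (s, 0) = c s` for `s ∈ [s₀, s₁]`).  For a smooth family of arcs `x (a, s)`,
`a ∈ ℝ × ℝ`, embedded for `a ∈ Q`, equal to `c` for `s ∉ (m₀, m₁)`, with values in `U` for `s ∈ [m₀, m₁]`, the
thickenings `thk G c (x a)` form a family of germs, with cores `x a`, equal to `G` wherever `x a = c` near `p.1`, and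
frozen on `{p | p.1 < m₀ ∨ m₁ < p.1}`.

Proof.  (Compare `Pool/Agent/Helper34/BI/Thick.lean`, `contDiffAt_thick`, `fderiv_thick`.)  `deriv c s ≠ 0` on
`[s₀, s₁]` (for `s ∈ (s₀, s₁)` it is `DG(s,0)(1,0)`, `DG` is injective; at the ends by continuity of both sides: `deriv c s = DG(s,0)(1,0)`).
Smoothness: all functions are smooth near `Q × L` (`contDiffAt_qinv`).  Derivative at `(s, 0)`, `s ∈ [s₀, s₁]`, in the direction
`(σ, v)`: `DG(σ, v) + σ (x' - c') + qmul (x' - c') (qmul (qinv c') (DG (0, v)))`, and as `DG (1, 0) = c'`, `qmul (qinv c') c' = 1`,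
`x' - c' = qmul (x' - c') (qmul (qinv c') (DG (1, 0)))`; so it is `DG + qmul (x' - c') ∘ qmul (qinv c') ∘ DG = qmul x' ∘ qmul (qinv c') ∘ DG`
(`qmul_qinv_qmul`), injective since `x' ≠ 0`.  (The derivative of the second factor `qmul (qinv (deriv c p.1)) (fderiv ℝ G (p.1, 0) (0, p.2))`
with respect to `p.1` vanishes at `p.2 = 0`.)  Injective on `L`: the values are the cores. -/
def StTHK : Prop :=
  ∀ (Q : Set (ℝ × ℝ)) (s₀ m₀ m₁ s₁ : ℝ) (U : Set R4) (G : R4 → R4) (c : ℝ → R4)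
    (x : ℝ × ℝ → ℝ → R4), s₀ < m₀ → m₀ < m₁ → m₁ < s₁ → IsOpen U → EmbOn I4 G (seg s₀ s₁) →
    ContDiff ℝ ∞ c → (∀ s ∈ Icc s₀ s₁, G (s, 0) = c s) →
    ContDiff ℝ ∞ (fun z : (ℝ × ℝ) × ℝ => x z.1 z.2) →
    (∀ a ∈ Q, ∀ s, (s ≤ m₀ ∨ m₁ ≤ s) → x a s = c s) →
    (∀ a ∈ Q, ∀ s ∈ Icc m₀ m₁, x a s ∈ U) → (∀ a ∈ Q, InjOn (x a) (Icc s₀ s₁)) →
    (∀ a ∈ Q, ∀ s ∈ Icc s₀ s₁, deriv (x a) s ≠ 0) →
    Fam2 Q (seg s₀ s₁) {p | p.1 < m₀ ∨ m₁ < p.1} U (fun a => thk G c (x a)) ∧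
    (∀ a, ∀ s ∈ Icc s₀ s₁, thk G c (x a) (s, 0) = x a s) ∧
    (∀ a p, x a =ᶠ[𝓝 p.1] c → thk G c (x a) p = G p) ∧
    ∀ a b p, x a =ᶠ[𝓝 p.1] x b → thk G c (x a) p = thk G c (x b) p

/-- MODULE PHI (the homomorphism `Phi`).  Proof: `StPush` (`hPush`), `StImp` (`hImp`), `StCI` (`hCI`) of
`Helper18/BI/AsmA.lean`; `D.emb`, `D.embe`, `D.openU`; `D.A` is compact.
(1) If `F` is the family of `LIso`, with support in the compact `K₁ ⊆ U` and `F.f (t, D.J p) = D.J p` for `p ∈ N`: `D.J` is injective and a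
local diffeomorphism on an open `N' ⊇ D.L` (`StA1`), `O = D.J '' (N ∩ N')` is open and contains `D.A`; the support of `F` is in the
compact set `K₂ = K₁ \ O ⊆ U \ A`.  `StPush` for `D.e` and `K₂ ∪ K` (`K` compact from `Phi Θ χ`; `imp` does not depend on the compact set, `StImp` (3)).
(2) existence: `K = K₂` for `F` as in (1), `χ = imp D.e K Θ`, `CIsot χ χ` by `StPush` (constant family `F.freeze`).
(3) uniqueness, (4) products: `K ∪ K'`, `StImp` (4), `StCI`; (5) identity; (6) change of `χ`; (7) `CIsot χ χ`. -/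
def StPhi : Prop :=
  ∀ D : ArcD,
    (∀ Θ Θ' χ, LIso D.U D.L D.J D.J Θ Θ' → D.Phi Θ χ → D.Phi Θ' χ) ∧
    (∀ Θ Θ', LIso D.U D.L D.J D.J Θ Θ' → ∃ χ, D.Phi Θ χ) ∧
    (∀ Θ χ χ', LIso D.U D.L D.J D.J Θ Θ → D.Phi Θ χ → D.Phi Θ χ' → CIsot I4 χ χ') ∧
    (∀ Θ Θ' χ χ', LIso D.U D.L D.J D.J Θ Θ → LIso D.U D.L D.J D.J Θ' Θ' → D.Phi Θ χ →
      D.Phi Θ' χ' → D.Phi (fun x => Θ (Θ' x)) (fun x => χ (χ' x))) ∧
    D.Phi (fun x => x) (fun x => x) ∧
    (∀ Θ χ χ', D.Phi Θ χ → CIsot I4 χ χ' → D.Phi Θ χ') ∧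
    ∀ Θ χ, D.Phi Θ χ → CIsot I4 χ χ

/-- CLS (helper27; uses `StCH4`, `StFRAME`, `StTHK`, `StPhi`).  The class of a loop of arcs: existence, uniqueness,
invariance under homotopies through embedded arcs, constant loops. -/
def StCls : Prop :=
  ∀ D : ArcD,
    (∀ c χ χ', D.Cls c χ → D.Cls c χ' → CIsot I4 χ χ') ∧
    (∀ c χ χ', D.Cls c χ → CIsot I4 χ χ' → D.Cls c χ') ∧
    (∀ c χ, D.Cls c χ → CIsot I4 χ χ) ∧
    (∀ c : ℝ × ℝ × ℝ → R4, D.Htpy c → ∀ u ∈ Icc (0 : ℝ) 1,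
      (∀ q ∈ Icc (0 : ℝ) 1, D.Imm c u q ∧ D.Inj c u q) → ∃ χ, D.Cls (fun q s => c (u, q, s)) χ) ∧
    (∀ c : ℝ × ℝ × ℝ → R4, D.Htpy c → ∀ u u' : ℝ, 0 ≤ u → u ≤ u' → u' ≤ 1 →
      (∀ v ∈ Icc u u', ∀ q ∈ Icc (0 : ℝ) 1, D.Imm c v q ∧ D.Inj c v q) →
      ∀ χ, D.Cls (fun q s => c (u, q, s)) χ → D.Cls (fun q s => c (u', q, s)) χ) ∧
    D.Cls (fun _ s => D.c s) (fun x => x)

/-! ## the chain of the general theorem -/

/-- CROSS (helper34, section 5). -/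
def StCROSS : Prop :=
  ∀ (D : ArcD) (c : ℝ × ℝ × ℝ → R4) (u₀ q₀ a b : ℝ), D.Htpy c → D.Xing c u₀ q₀ a b →
    (∀ u ∈ Icc (0 : ℝ) 1, ∀ q ∈ Icc (0 : ℝ) 1, D.Imm c u q) →
    (∀ u ∈ Icc (0 : ℝ) 1, ∀ q ∈ Icc (0 : ℝ) 1, (u, q) ≠ (u₀, q₀) → D.Inj c u q) →
    ∃ T, D.XG T ∧ ∀ χ₀ χ₁ τ : R4 → R4, D.Cls (fun q s => c (0, q, s)) χ₀ →
      D.Cls (fun q s => c (1, q, s)) χ₁ → Thin I4 (fun p => D.e (T p)) τ →
      CIsot I4 χ₀ (fun x => τ (χ₁ x)) ∨ CIsot I4 χ₁ (fun x => τ (χ₀ x))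

/-- CUSPFAM (helper27, section 6): an explicit family with one transverse double point. -/
def StCUSP : Prop :=
  ∀ D : ArcD, ∃ (c : ℝ × ℝ × ℝ → R4) (u₀ q₀ a b : ℝ), D.Htpy c ∧ D.Xing c u₀ q₀ a b ∧
    (∀ u ∈ Icc (0 : ℝ) 1, ∀ q ∈ Icc (0 : ℝ) 1, D.Imm c u q) ∧
    (∀ u ∈ Icc (0 : ℝ) 1, ∀ q ∈ Icc (0 : ℝ) 1, (u, q) ≠ (u₀, q₀) → D.Inj c u q) ∧
    (∀ q s, c (0, q, s) = D.c s) ∧ ∀ q s, c (1, q, s) = D.c s

/-- NORM + stage 2 (helper70). -/
def StNORM : Prop :=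
  ∀ (D : ArcD) (T T' W : R4 → R4), Pool.Agent.Helper70.BI.IsW W → D.XG T → D.XG T' →
    Pool.Agent.Helper70.BI.MW W (fun p => D.e (T p)) (fun p => D.e (T' p))

/-- GP (helper34, section 4): general position.  Every homotopy of loops of arcs can be replaced by one with the same
ends, consisting of immersed arcs, injective except for finitely many parameters, with different `u`, where there
is one transverse double point. -/
def StGP : Prop :=
  ∀ (D : ArcD) (c : ℝ × ℝ × ℝ → R4), D.Htpy c →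
    (∀ q ∈ Icc (0 : ℝ) 1, D.Imm c 0 q ∧ D.Inj c 0 q) →
    (∀ q ∈ Icc (0 : ℝ) 1, D.Imm c 1 q ∧ D.Inj c 1 q) →
    ∃ c' : ℝ × ℝ × ℝ → R4, D.Htpy c' ∧ (∀ q s, c' (0, q, s) = c (0, q, s)) ∧
      (∀ q s, c' (1, q, s) = c (1, q, s)) ∧
      (∀ u ∈ Icc (0 : ℝ) 1, ∀ q ∈ Icc (0 : ℝ) 1, D.Imm c' u q) ∧
      ∃ B : Finset ℝ, (∀ u ∈ B, u ∈ Ioo (0 : ℝ) 1) ∧
        (∀ u ∈ Icc (0 : ℝ) 1, u ∉ B → ∀ q ∈ Icc (0 : ℝ) 1, D.Inj c' u q) ∧
        ∀ u ∈ B, ∃ q a b, D.Xing c' u q a b ∧ ∀ q' ∈ Icc (0 : ℝ) 1, q' ≠ q → D.Inj c' u q'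

/-- **The homotopy theorem for loops of arcs** (from `StCls`, `StCROSS`, `StCUSP`, `StNORM`, `StGP`, `StMWL`). -/
def StArcH : Prop :=
  ∀ (D : ArcD) (c : ℝ × ℝ × ℝ → R4) (W χ₀ χ₁ : R4 → R4), D.Htpy c →
    (∀ q ∈ Icc (0 : ℝ) 1, D.Imm c 0 q ∧ D.Inj c 0 q) →
    (∀ q ∈ Icc (0 : ℝ) 1, D.Imm c 1 q ∧ D.Inj c 1 q) → Pool.Agent.Helper70.BI.IsW W →
    D.Cls (fun q s => c (0, q, s)) χ₀ → D.Cls (fun q s => c (1, q, s)) χ₁ →
    CIsot I4 χ₁ χ₀ ∨ CIsot I4 χ₁ (fun x => W (χ₀ x))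

end Pool.Agent.Helper27.H


end

/-! ## Helper70.BI.M_LGG -/

section

/-!
# Project BI (MP_8e98f2), part (E), module LGG: from local to global in time, general relation
-/

set_option autoImplicit false

open scoped Manifold ContDiff Topology ComplexConjugate
open Set Filter Pool.Agent.Helper65.Barb Pool.Agent.Helper18.BI

namespace Pool.Agent.Helper70.BI

namespace LGG

/-- the hypotheses on the relation and on the family -/
structure Hyp (Q : (R4 → R4) → (R4 → R4) → Prop) (J : ℝ × R4 → R4) : Prop where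
  symm : ∀ F G, Q F G → Q G F
  trans : ∀ F G H, EmbOn I4 G SP → Q F G → Q G H → Q F H
  fam : ∀ t₁ t₂ : ℝ, t₁ ≤ t₂ →
      (∀ t ∈ Icc t₁ t₂, ∀ p ∈ SP, ∀ᶠ q in 𝓝 (t, p), ContDiffAt ℝ ∞ J q) →
      (∀ t ∈ Icc t₁ t₂, EmbOn I4 (fun p => J (t, p)) SP) →
      Q (fun p => J (t₁, p)) (fun p => J (t₂, p))
  smooth : ∀ t, ∀ p ∈ SP, ∀ᶠ q in 𝓝 (t, p), ContDiffAt ℝ ∞ J q
  loc : ∀ t, ∀ p ∈ SP, LD (fun p => J (t, p)) p
  finite : {t | ¬ InjOn (fun p => J (t, p)) SP}.Finite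
  cross : ∀ t, ¬ InjOn (fun p => J (t, p)) SP → ∀ ε > 0,
      ∃ t₁ ∈ Ioo (t - ε) t, ∃ t₂ ∈ Ioo t (t + ε),
      EmbOn I4 (fun p => J (t₁, p)) SP ∧ EmbOn I4 (fun p => J (t₂, p)) SP ∧
      Q (fun p => J (t₁, p)) (fun p => J (t₂, p))

variable {Q : (R4 → R4) → (R4 → R4) → Prop} {J : ℝ × R4 → R4}

/-- off the exceptional times the members of the family are germs of embeddings -/
theorem embOn_of (hJ : Hyp Q J) {t : ℝ}
    (ht : InjOn (fun p => J (t, p)) SP) : EmbOn I4 (fun p => J (t, p)) SP :=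
  ⟨hJ.loc t, ht⟩

/-- two times with no exceptional time between them -/
theorem fam' (hJ : Hyp Q J) {a b : ℝ}
    (h : ∀ t ∈ uIcc a b, InjOn (fun p => J (t, p)) SP) :
    Q (fun p => J (a, p)) (fun p => J (b, p)) := by
  rcases le_total a b with hab | hab
  · rw [uIcc_of_le hab] at h
    exact hJ.fam a b hab (fun t _ => hJ.smooth t) (fun t ht => embOn_of hJ (h t ht))
  · rw [uIcc_of_ge hab] at h
    exact hJ.symm _ _ (hJ.fam b a hab (fun t _ => hJ.smooth t) (fun t ht => embOn_of hJ (h t ht)))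

/-- the local claim -/
theorem local_claim (hJ : Hyp Q J) (t : ℝ) :
    ∃ ε > 0, ∀ a ∈ Ioo (t - ε) (t + ε), ∀ b ∈ Ioo (t - ε) (t + ε),
      InjOn (fun p => J (a, p)) SP → InjOn (fun p => J (b, p)) SP →
        Q (fun p => J (a, p)) (fun p => J (b, p)) := by
  have hfin : ({s | ¬ InjOn (fun p => J (s, p)) SP} \ {t}).Finite := hJ.finite.subset sdiff_subset
  obtain ⟨ε, hε, hball⟩ := Metric.isOpen_iff.1 hfin.isClosed.isOpen_compl t
    (fun h => h.2 rfl)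
  rw [Real.ball_eq_Ioo] at hball
  have hloc : ∀ s ∈ Ioo (t - ε) (t + ε), s ≠ t → InjOn (fun p => J (s, p)) SP := by
    intro s hs hst
    by_contra hc
    exact hball hs ⟨hc, hst⟩
  refine ⟨ε, hε, ?_⟩
  -- the oriented version
  have key : ∀ a ∈ Ioo (t - ε) (t + ε), ∀ b ∈ Ioo (t - ε) (t + ε), a ≤ b →
      InjOn (fun p => J (a, p)) SP → InjOn (fun p => J (b, p)) SP →
        Q (fun p => J (a, p)) (fun p => J (b, p)) := by
    intro a ha b hb hab hia hib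
    by_cases hc : InjOn (fun p => J (t, p)) SP ∨ t ∉ Icc a b
    · refine fam' hJ (fun s hs => ?_)
      rw [uIcc_of_le hab] at hs
      by_cases hst : s = t
      · rcases hc with hc | hc
        · rw [hst]
          exact hc
        · rw [hst] at hs
          exact absurd hs hc
      · exact hloc s ⟨lt_of_lt_of_le ha.1 hs.1, lt_of_le_of_lt hs.2 hb.2⟩ hst
    · push Not at hc
      obtain ⟨hct, hmem⟩ := hc
      have hat : a < t := lt_of_le_of_ne hmem.1 (fun h => hct (h ▸ hia))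
      have htb : t < b := lt_of_le_of_ne hmem.2 (fun h => hct (h.symm ▸ hib))
      obtain ⟨t₁, ht₁, t₂, ht₂, e₁, e₂, hm⟩ := hJ.cross t hct ε hε
      have m₁ : Q (fun p => J (a, p)) (fun p => J (t₁, p)) := by
        refine fam' hJ (fun s hs => hloc s ?_ ?_)
        · rw [mem_uIcc] at hs
          constructor
          · rcases hs with hs | hs <;> linarith [ha.1, ht₁.1, hs.1]
          · rcases hs with hs | hs <;> linarith [hs.2, ht₁.2]
        · rw [mem_uIcc] at hs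
          apply ne_of_lt
          rcases hs with hs | hs <;> linarith [hs.2, ht₁.2]
      have m₂ : Q (fun p => J (t₂, p)) (fun p => J (b, p)) := by
        refine fam' hJ (fun s hs => hloc s ?_ ?_)
        · rw [mem_uIcc] at hs
          constructor
          · rcases hs with hs | hs <;> linarith [ht₂.1, hs.1]
          · rcases hs with hs | hs <;> linarith [hs.2, ht₂.2, hb.2]
        · rw [mem_uIcc] at hs
          apply ne_of_gt
          rcases hs with hs | hs <;> linarith [hs.1, ht₂.1]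
      exact hJ.trans _ _ _ e₁ m₁ (hJ.trans _ _ _ e₂ hm m₂)
  intro a ha b hb hia hib
  rcases le_total a b with hab | hab
  · exact key a ha b hb hab hia hib
  · exact hJ.symm _ _ (key b hb a ha hab hib hia)

end LGG

open LGG in
/-- MODULE LGG. -/
theorem m_LGG : StLGG := by
  intro Q J _ hsymm htrans hfam hsm hld hfin hX h0 h1'
  have hJ : Hyp Q J := ⟨hsymm, htrans, hfam, hsm, hld, hfin, hX⟩
  have hopen : IsOpen {t : ℝ | ∀ᶠ s in 𝓝 t, InjOn (fun p => J (s, p)) SP →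
      Q (fun p => J (0, p)) (fun p => J (s, p))} := isOpen_setOfPred_eventually_nhds
  have hclosed : IsClosed {t : ℝ | ∀ᶠ s in 𝓝 t, InjOn (fun p => J (s, p)) SP →
      Q (fun p => J (0, p)) (fun p => J (s, p))} := by
    rw [← closure_subset_iff_isClosed]
    intro t ht
    obtain ⟨ε, hε, hloc⟩ := local_claim hJ t
    have hO : IsOpen (Ioo (t - ε) (t + ε)) := isOpen_Ioo
    have htO : t ∈ Ioo (t - ε) (t + ε) := ⟨by linarith, by linarith⟩
    obtain ⟨s, hsO, hs⟩ := mem_closure_iff.1 ht _ hO htO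
    have hs' : ∀ᶠ r in 𝓝 s, InjOn (fun p => J (r, p)) SP →
      Q (fun p => J (0, p)) (fun p => J (r, p)) := hs
    obtain ⟨V, hV, hVo, hsV⟩ := eventually_nhds_iff.1 (hs'.and (hO.mem_nhds hsO))
    have hdense : Dense ({t | ¬ InjOn (fun p => J (t, p)) SP}ᶜ : Set ℝ) :=
      hJ.finite.countable.dense_compl ℝ
    obtain ⟨r, hr, hrC⟩ := hdense.exists_mem_open hVo ⟨s, hsV⟩
    have hri : InjOn (fun p => J (r, p)) SP := by
      by_contra hc
      exact hr hc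
    obtain ⟨hm, hrO⟩ := hV r hrC
    filter_upwards [hO.mem_nhds htO] with x hx hxi
    exact hJ.trans _ _ _ (embOn_of hJ hri) (hm hri) (hloc r hrO x hx hri hxi)
  have hne : ({t : ℝ | ∀ᶠ s in 𝓝 t, InjOn (fun p => J (s, p)) SP →
      Q (fun p => J (0, p)) (fun p => J (s, p))}).Nonempty := by
    refine ⟨0, ?_⟩
    obtain ⟨ε, hε, hloc⟩ := local_claim hJ 0
    have hO : IsOpen (Ioo ((0 : ℝ) - ε) (0 + ε)) := isOpen_Ioo
    have htO : (0 : ℝ) ∈ Ioo ((0 : ℝ) - ε) (0 + ε) := ⟨by linarith, by linarith⟩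
    show ∀ᶠ s in 𝓝 (0 : ℝ), _
    filter_upwards [hO.mem_nhds htO] with x hx hxi
    exact hloc 0 htO x hx h0.2 hxi
  have huniv := IsClopen.eq_univ ⟨hclosed, hopen⟩ hne
  have h1mem : (1 : ℝ) ∈ {t : ℝ | ∀ᶠ s in 𝓝 t, InjOn (fun p => J (s, p)) SP →
      Q (fun p => J (0, p)) (fun p => J (s, p))} := by
    rw [huniv]
    exact mem_univ _
  exact (show ∀ᶠ s in 𝓝 (1 : ℝ), InjOn (fun p => J (s, p)) SP →
      Q (fun p => J (0, p)) (fun p => J (s, p)) from h1mem).self_of_nhds h1'.2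

end Pool.Agent.Helper70.BI


end
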