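import Pool.Agent.Helper65.Barb.Defs
import Pool.Agent.Helper70.BI.C.P01

/-!
# Project BI (MP_8e98f2_gt): collected modules, part 14

The contents of the modules
* Helper34.BI.H.StH4
* Helper34.BI.H.M_NP1
* Helper34.BI.H.M_NU2
* Helper34.BI.H.M_NU3
* Helper34.BI.H.M_GP
* Helper34.BI.H.M_H4
* Helper34.BI.H.BarP
* Helper34.BI5.VK1
* Helper34.BI5.VK3
* Helper34.BI5.VK2

in one file, so that the whole proof builds in a short time.
-/

namespace Pool.Agent.Helper18.BI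
end Pool.Agent.Helper18.BI

namespace Pool.Agent.Helper65.Barb
end Pool.Agent.Helper65.Barb


/-! ## Helper34.BI.H.StH4 -/

section

/-!
# Project BI, stage 3, section 4: general position for two-parameter families of arcs

Statements (as `Prop` definitions) with complete proofs in the docstrings.  A module `M_X`
(`Pool/Agent/Helper34/BI/H/M_X.lean`) proves `theorem m_X : StX` (possibly from other statements as
hypotheses `(h : StY)`).  A family of arcs is a map `α : ℝ × ℝ × ℝ → R4`, `(u, q, s) ↦ α (u, q, s)`.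
-/

set_option autoImplicit false

open Module Set Filter Topology MeasureTheory
open scoped ContDiff Manifold
open Pool.Agent.Helper65.Barb Pool.Agent.Helper18.BI

namespace Pool.Agent.Helper34.BI.H

/-! ## parametric transversality for equations which are linear in the parameter -/

/-- **NP1.** The parameters `p` for which one of the equations `L x p = c x`, `x ∈ s`, holds form a
null set if the `L x` are surjective and `dim X < dim Y`.

*Proof.* By `TopologicalSpace.countable_cover_nhdsWithin` and `measure_biUnion_null_iff` it suffices to find for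
each `x₀ ∈ s` an open `V ∋ x₀` such that the set of `p` with a solution `x ∈ s ∩ V` is null.  Let
`R : Y →L[ℝ] P` be a right inverse of `L x₀` (finite dimension), `K = ker (L x₀)`,
`S x = (L x).comp R : Y →L[ℝ] Y`; `S x₀ = id`.  `L` is continuous within `s` at `x₀`, units are open, so
there is `V` with `S x` invertible for `x ∈ s ∩ V` (`ContinuousLinearMap.inverse`, `Ring.inverse`).
`Ψ (x, k) = R ((S x)⁻¹ (c x - L x k)) + k` on `(s ∩ V) × K` is differentiable (`differentiableAt` of the inverse: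
`contDiffAt_map_inverse` or `differentiableAt_inverse`) and has values in `P`; `dim X + dim K < dim P` as
`dim K = dim P - dim Y` (`LinearMap.finrank_range_add_finrank_ker`); so its image is null (`null_image`,
Null.lean).  If `L x p = c x` with `x ∈ s ∩ V`, put `y = L x₀ p`, `k = p - R y ∈ K`: then
`S x y + L x k = L x p = c x`, so `y = (S x)⁻¹ (c x - L x k)` and `p = Ψ (x, k)`. -/
def StNP1 : Prop :=
  ∀ (X P Y : Type) [NormedAddCommGroup X] [NormedSpace ℝ X] [FiniteDimensional ℝ X]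
    [NormedAddCommGroup P] [NormedSpace ℝ P] [FiniteDimensional ℝ P] [MeasurableSpace P]
    [BorelSpace P] [NormedAddCommGroup Y] [NormedSpace ℝ Y] [FiniteDimensional ℝ Y]
    (μ : Measure P) [μ.IsAddHaarMeasure] (s : Set X) (L : X → P →L[ℝ] Y) (c : X → Y),
    finrank ℝ X < finrank ℝ Y → DifferentiableOn ℝ L s → DifferentiableOn ℝ c s →
    (∀ x ∈ s, Function.Surjective (L x)) → μ {p | ∃ x ∈ s, L x p = c x} = 0

/-- **NP2.** Parametric transversality: the same with `dim X = dim Y`, for the parameters such that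
the equation has a solution at which its derivative is not injective.

*Proof.* Same notation as in `NP1`, now `s` and `V` open, `V ⊆ s`; the map `Ψ : V × K → P` is
differentiable and `dim (X × K) = dim P`.  Let `p` be a bad parameter, `x ∈ V` the solution, `ζ ≠ 0` with
`fderiv (x ↦ L x p - c x) x ζ = 0`, and `p = Ψ (x, k)`.  For all `(x', k')` near `(x, k)`:
`L x' (Ψ (x', k')) = c x'` (`L x' (R y + k') = S x' y + L x' k'`).  Differentiate in the direction `(ζ, 0)` at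
`(x, k)`: `L x (DΨ (ζ, 0)) + fderiv (x ↦ L x p - c x) x ζ = 0`, so `L x (DΨ (ζ, 0)) = 0`.  Also
`DΨ (ζ, 0) = R y'` with `y' ∈ Y` the derivative of `(S x)⁻¹ (c x - L x k)`, so `S x y' = L x R y' = 0`, `y' = 0` and
`DΨ (ζ, 0) = 0`.  So `p` is in the image under `Ψ` of the set where `DΨ` is not injective.  Transport
`Ψ` to a map `P → P` by a linear isomorphism `P ≃ X × K` and use
`addHaar_image_eq_zero_of_det_fderivWithin_eq_zero` (compare `null_sard` in Sard.lean). -/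
def StNP2 : Prop :=
  ∀ (X P Y : Type) [NormedAddCommGroup X] [NormedSpace ℝ X] [FiniteDimensional ℝ X]
    [NormedAddCommGroup P] [NormedSpace ℝ P] [FiniteDimensional ℝ P] [MeasurableSpace P]
    [BorelSpace P] [NormedAddCommGroup Y] [NormedSpace ℝ Y] [FiniteDimensional ℝ Y]
    (μ : Measure P) [μ.IsAddHaarMeasure] (s : Set X) (L : X → P →L[ℝ] Y) (c : X → Y),
    finrank ℝ X = finrank ℝ Y → IsOpen s → DifferentiableOn ℝ L s → DifferentiableOn ℝ c s →
    (∀ x ∈ s, Function.Surjective (L x)) →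
    μ {p | ∃ x ∈ s, L x p = c x ∧
      ¬ Function.Injective (fderiv ℝ (fun x => L x p - c x) x)} = 0

/-! ## the perturbations -/

/-- the monomials; `z = (u, q, s)` -/
def mon (z : ℝ × ℝ × ℝ) : Fin 8 → ℝ :=
  ![1, z.2.2, z.2.2 ^ 2, z.2.2 ^ 3, z.2.1, z.2.1 * z.2.2, z.1, z.1 * z.2.2]

/-- the perturbed family -/
noncomputable def prt (α : ℝ × ℝ × ℝ → R4) (ρ : ℝ × ℝ → ℝ) (χ : ℝ → ℝ) (p : Fin 8 → R4)
    (z : ℝ × ℝ × ℝ) : R4 :=
  α z + ∑ j, (ρ (z.1, z.2.1) * χ z.2.2 * mon z j) • p j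

/-- the difference of two strands, as a function of `(u, q, s, t)` -/
def dbl (β : ℝ × ℝ × ℝ → R4) (z : ℝ × ℝ × ℝ × ℝ) : R4 :=
  β (z.1, z.2.1, z.2.2.1) - β (z.1, z.2.1, z.2.2.2)

/-- **NU1.** (uses `StNP1`) *Proof.* `X = ℝ × ℝ × ℝ`, `L z p = ∑ j, ∂_s (ρ χ mon_j) (z) • p j`,
`c z = - ∂_s α (z)`.  Surjective: the coefficients for `j = 0, 1` are `ρ χ'`, `ρ (s χ' + χ)`, not both zero. -/
def StNU1 : Prop :=
  ∀ (μ : Measure (Fin 8 → R4)) [μ.IsAddHaarMeasure] (α : ℝ × ℝ × ℝ → R4) (ρ : ℝ × ℝ → ℝ)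
    (χ : ℝ → ℝ), ContDiff ℝ ∞ α → ContDiff ℝ ∞ ρ → ContDiff ℝ ∞ χ →
    μ {p | ∃ u q s : ℝ, ρ (u, q) ≠ 0 ∧ χ s ≠ 0 ∧
      deriv (fun s => prt α ρ χ p (u, q, s)) s = 0} = 0

/-- **NU2.** (uses `StNP2`) *Proof.* `X = ℝ × ℝ × ℝ × ℝ ∋ x = (u, q, s, t)`,
`s = {ρ ≠ 0, s ≠ t, χ s ≠ 0 ∨ χ t ≠ 0}` (open), `L x p = ∑ j, (ρ (χ(s) mon_j(u,q,s) - χ(t) mon_j(u,q,t))) • p j`,
`c x = - dbl α x`; then `L x p - c x = dbl (prt α ρ χ p) x`.  Surjective: the coefficients for `j = 0, 1`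
are `ρ (χ(s) - χ(t))` and `ρ (s χ(s) - t χ(t))`; if both are zero then `χ(s) = χ(t)` and `(s - t) χ(t) = 0`. -/
def StNU2 : Prop :=
  ∀ (μ : Measure (Fin 8 → R4)) [μ.IsAddHaarMeasure] (α : ℝ × ℝ × ℝ → R4) (ρ : ℝ × ℝ → ℝ)
    (χ : ℝ → ℝ), ContDiff ℝ ∞ α → ContDiff ℝ ∞ ρ → ContDiff ℝ ∞ χ →
    μ {p | ∃ u q s t : ℝ, ρ (u, q) ≠ 0 ∧ s ≠ t ∧ (χ s ≠ 0 ∨ χ t ≠ 0) ∧
      prt α ρ χ p (u, q, s) = prt α ρ χ p (u, q, t) ∧
      ¬ Function.Injective (fderiv ℝ (dbl (prt α ρ χ p)) (u, q, s, t))} = 0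

/-- **NU3.** Double points at two different parameters `a w ≠ a' w`, `w ∈ ℝ³` (uses `StNP1`).

*Proof.* `X = (ℝ × ℝ × ℝ) × (ℝ × ℝ × ℝ × ℝ) ∋ x = (w, (s, t, s', t'))` (dimension 7), `Y = R4 × R4` (dimension 8),
`L x p = (∑ j, lam_j • p j, ∑ j, lam'_j • p j)`, `lam_j = ρ(a w) (χ(s) mon_j(a w, s) - χ(t) mon_j(a w, t))`,
`lam'_j = ρ(a' w) (χ(s') mon_j(a' w, s') - χ(t') mon_j(a' w, t'))`.
Surjectivity.  If the linear map `L x` is not surjective there is a nonzero linear functional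
`(e, e') ↦ f e + f' e'` on `Y` vanishing on its range.  Applied to `p = c • e`
(`c : Fin 8 → ℝ`, `e ∈ R4`): `(∑ lam_j c_j) f e + (∑ lam'_j c_j) f' e = 0`.  So it suffices: if
`A, B` are real numbers with `A ∑ lam_j c_j + B ∑ lam'_j c_j = 0` for all `c`, then `A = B = 0`.
Let `a w = (u, q)`, `a' w = (u', q')`.  If `q ≠ q'` use the polynomials `(q̂ - q')`, `(q̂ - q') s` (`q̂` the variable; they
are combinations of `mon_0, mon_1, mon_4, mon_5`): the second sum vanishes, so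
`A (q - q') ρ (χ(s) - χ(t)) = 0` and `A (q - q') ρ (s χ(s) - t χ(t)) = 0`, so `A = 0` (as in `NU2`); in the same way
`B = 0`.  If `u ≠ u'` use `(û - u')`, `(û - u') s` (`mon_0, mon_1, mon_6, mon_7`). -/
def StNU3 : Prop :=
  ∀ (μ : Measure (Fin 8 → R4)) [μ.IsAddHaarMeasure] (α : ℝ × ℝ × ℝ → R4) (ρ : ℝ × ℝ → ℝ)
    (χ : ℝ → ℝ), ContDiff ℝ ∞ α → ContDiff ℝ ∞ ρ → ContDiff ℝ ∞ χ →
    ∀ a a' : ℝ × ℝ × ℝ → ℝ × ℝ, ContDiff ℝ ∞ a → ContDiff ℝ ∞ a' →
    μ {p | ∃ (w : ℝ × ℝ × ℝ) (s t s' t' : ℝ), a w ≠ a' w ∧ ρ (a w) ≠ 0 ∧ ρ (a' w) ≠ 0 ∧ s ≠ t ∧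
      s' ≠ t' ∧ (χ s ≠ 0 ∨ χ t ≠ 0) ∧ (χ s' ≠ 0 ∨ χ t' ≠ 0) ∧
      prt α ρ χ p ((a w).1, (a w).2, s) = prt α ρ χ p ((a w).1, (a w).2, t) ∧
      prt α ρ χ p ((a' w).1, (a' w).2, s') = prt α ρ χ p ((a' w).1, (a' w).2, t')} = 0

/-- The two pairs of parameters `(s, t)`, `(s', t')` are admissible for `StNU4`. -/
structure Adm (χ : ℝ → ℝ) (s t s' t' : ℝ) : Prop where
  n1 : s ≠ t
  n2 : s' ≠ t'
  n3 : ¬ (s = s' ∧ t = t')
  n4 : ¬ (s = t' ∧ t = s')
  c1 : χ s ≠ 0 ∨ χ t ≠ 0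
  c2 : χ s' ≠ 0 ∨ χ t' ≠ 0
  d1 : s = s' → χ t ≠ 0 ∨ χ t' ≠ 0
  d2 : s = t' → χ t ≠ 0 ∨ χ s' ≠ 0
  d3 : t = s' → χ s ≠ 0 ∨ χ t' ≠ 0
  d4 : t = t' → χ s ≠ 0 ∨ χ s' ≠ 0

/-- **NU4.** Two double points at the same parameter (uses `StNP1`).

*Proof.* `X = ℝ × ℝ × ℝ × ℝ × ℝ × ℝ` (dimension 6), `Y = R4 × R4`, as in `NU3`.  Surjectivity reduces to:
if `A (χ(s) m(s) - χ(t) m(t)) + B (χ(s') m(s') - χ(t') m(t')) = 0` for all real polynomials `m` of
degree at most 3 (`mon_0, ..., mon_3`), then `A = B = 0`.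
(i) If `s, t ∉ {s', t'}`: `m = (x - t)(x - s')(x - t')` gives `A χ(s) = 0`, `m = (x - s)(x - s')(x - t')` gives `A χ(t) = 0`, so
`A = 0` by `c1`; `m = (x - s)(x - t)(x - t')` and `(x - s)(x - t)(x - s')` give `B = 0` (here `s' ≠ s, t` and `t' ≠ s, t`).
(ii) If `s = s'`: then `t ≠ t'` (`n3`), `s, t, t'` are distinct.  `m = (x - s)(x - t')`: `A χ(t) = 0`; `m = (x - s)(x - t)`:
`B χ(t') = 0`; `m = (x - t)(x - t')`: `(A + B) χ(s) = 0`.  If `χ(t) = 0` then `χ(s) ≠ 0` (`c1`), `χ(t') ≠ 0` (`d1`), so `B = 0`,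
`A = 0`.  If `χ(t) ≠ 0` then `A = 0`, and `B χ(s) = B χ(t') = 0`, so `B = 0` by `c2`.
(iii) `s = t'`, `t = s'`, `t = t'`: reduce to (ii) by exchanging `s, t` (replace `A` by `-A`) and/or `s', t'` (replace `B` by `-B`):
prove (ii) as a lemma about four numbers with hypotheses symmetric under these exchanges. -/
def StNU4 : Prop :=
  ∀ (μ : Measure (Fin 8 → R4)) [μ.IsAddHaarMeasure] (α : ℝ × ℝ × ℝ → R4) (ρ : ℝ × ℝ → ℝ)
    (χ : ℝ → ℝ), ContDiff ℝ ∞ α → ContDiff ℝ ∞ ρ → ContDiff ℝ ∞ χ →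
    μ {p | ∃ u q s t s' t' : ℝ, ρ (u, q) ≠ 0 ∧ Adm χ s t s' t' ∧
      prt α ρ χ p (u, q, s) = prt α ρ χ p (u, q, t) ∧
      prt α ρ χ p (u, q, s') = prt α ρ χ p (u, q, t')} = 0

/-- The family of arcs `β` is in general position where `ρ` and `χ` do not vanish. -/
structure GP (β : ℝ × ℝ × ℝ → R4) (ρ : ℝ × ℝ → ℝ) (χ : ℝ → ℝ) : Prop where
  imm : ∀ u q s, ρ (u, q) ≠ 0 → χ s ≠ 0 → deriv (fun s => β (u, q, s)) s ≠ 0
  trans : ∀ u q s t, ρ (u, q) ≠ 0 → s ≠ t → (χ s ≠ 0 ∨ χ t ≠ 0) → β (u, q, s) = β (u, q, t) →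
    Function.Injective (fderiv ℝ (dbl β) (u, q, s, t))
  sep : ∀ u q u' q' s t s' t', (u, q) ≠ (u', q') → (u = u' ∨ q = q') → ρ (u, q) ≠ 0 →
    ρ (u', q') ≠ 0 → s ≠ t → s' ≠ t' → (χ s ≠ 0 ∨ χ t ≠ 0) → (χ s' ≠ 0 ∨ χ t' ≠ 0) →
    β (u, q, s) = β (u, q, t) → β (u', q', s') ≠ β (u', q', t')
  one : ∀ u q s t s' t', ρ (u, q) ≠ 0 → Adm χ s t s' t' → β (u, q, s) = β (u, q, t) →
    β (u, q, s') ≠ β (u, q, t')

/-- **GP.** Existence of small perturbations in general position (from `NU1`, ..., `NU4`). -/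
def StGP : Prop :=
  ∀ (α : ℝ × ℝ × ℝ → R4) (ρ : ℝ × ℝ → ℝ) (χ : ℝ → ℝ), ContDiff ℝ ∞ α → ContDiff ℝ ∞ ρ →
    ContDiff ℝ ∞ χ → ∀ ε > 0, ∃ p : Fin 8 → R4, ‖p‖ < ε ∧ GP (prt α ρ χ p) ρ χ

/-! ## the theorem -/

/-- `(u, q)` is in the closed unit square -/
def Sq (u q : ℝ) : Prop := u ∈ Icc (0 : ℝ) 1 ∧ q ∈ Icc (0 : ℝ) 1

/-- `u` or `q` is at distance at most `δ` from the end of the interval -/
def Nb (δ u q : ℝ) : Prop := u ≤ δ ∨ 1 - δ ≤ u ∨ q ≤ δ ∨ 1 - δ ≤ q

/-- The input of the general position theorem: `K` is the wall, `[s₀, s₁]` the interval of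
parameters of the arcs. -/
structure In4 (α : ℝ × ℝ × ℝ → R4) (s₀ s₁ δ : ℝ) (K : Set R4) : Prop where
  smooth : ContDiff ℝ ∞ α
  pos : 0 < δ
  small : δ < 1 / 2
  room : s₀ + 2 * δ < s₁ - 2 * δ
  frozen : ∀ u q s, (s ≤ s₀ + 2 * δ ∨ s₁ - 2 * δ ≤ s) → α (u, q, s) = α (0, 0, s)
  emb : ∀ u q, Sq u q → Nb δ u q → InjOn (fun s => α (u, q, s)) (Icc s₀ s₁) ∧
    ∀ s ∈ Icc s₀ s₁, deriv (fun s => α (u, q, s)) s ≠ 0
  off : ∀ u q, Sq u q → ∀ s ∈ Icc (s₀ + δ) (s₁ - δ), α (u, q, s) ∉ K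

/-- The output of the general position theorem; `D` is the set of the double points
`(u, q, s, t)`. -/
structure Out4 (α β : ℝ × ℝ × ℝ → R4) (s₀ s₁ δ : ℝ) (K : Set R4) (D : Set (ℝ × ℝ × ℝ × ℝ)) :
    Prop where
  smooth : ContDiff ℝ ∞ β
  frozen : ∀ u q s, (s ≤ s₀ + δ ∨ s₁ - δ ≤ s) → β (u, q, s) = α (0, 0, s)
  eq : ∀ u q s, Nb (δ / 2) u q → β (u, q, s) = α (u, q, s)
  off : ∀ u q, Sq u q → ∀ s ∈ Icc (s₀ + δ) (s₁ - δ), β (u, q, s) ∉ K
  imm : ∀ u q, Sq u q → ∀ s ∈ Icc s₀ s₁, deriv (fun s => β (u, q, s)) s ≠ 0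
  fin : D.Finite
  all : ∀ u q, Sq u q → ∀ s ∈ Icc s₀ s₁, ∀ t ∈ Icc s₀ s₁, s < t → β (u, q, s) = β (u, q, t) →
    (u, q, s, t) ∈ D
  mem : ∀ u q s t, (u, q, s, t) ∈ D → u ∈ Ioo (0 : ℝ) 1 ∧ q ∈ Ioo (0 : ℝ) 1 ∧ s ∈ Icc s₀ s₁ ∧
    t ∈ Icc s₀ s₁ ∧ s < t ∧ β (u, q, s) = β (u, q, t) ∧ β (u, q, s) ∉ K ∧
    Function.Injective (fderiv ℝ (dbl β) (u, q, s, t))
  sepu : ∀ d ∈ D, ∀ d' ∈ D, d.1 = d'.1 → d = d'
  sepq : ∀ d ∈ D, ∀ d' ∈ D, d.2.1 = d'.2.1 → d = d'

/-- **H4.** General position (uses `StGP`).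

*Proof.* `ρ (u, q) = hat (δ/2) (1 - δ/2) u * hat (δ/2) (1 - δ/2) q`, `χ = hat (s₀ + δ) (s₁ - δ)` (Arcs.lean: `hat a b t ≠ 0`
iff `a < t < b`).  So `ρ (u, q) = 0` implies `Nb (δ/2) u q` and `χ s = 0` implies `s ≤ s₀ + δ ∨ s₁ - δ ≤ s`.
The compact sets `α '' ([0,1]² × [s₀ + δ, s₁ - δ])` and `K` are disjoint, so at distance `≥ η > 0`; the
coefficients `ρ χ mon_j` are bounded on the compact set, so for `‖p‖` small the perturbation has norm `< η`
there.  `StGP` gives `p`, `β = prt α ρ χ p`.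
`smooth`, `frozen` (`χ s = 0`), `eq` (`ρ = 0`), `off`: clear.
`imm`: if `ρ (u, q) = 0`: `β (u, q, ·) = α (u, q, ·)`, and `Nb δ u q`.  If `ρ ≠ 0`, `χ s ≠ 0`: `GP.imm`.  If `χ s = 0`: also
`deriv χ s = 0` (local minimum, `hat ≥ 0`), so `∂_s β (u,q,s) = ∂_s α (u,q,s) = ∂_s α (0,0,s) ≠ 0` (`α (u,q,·) = α (0,0,·)`
near `s` because `s < s₀ + 2δ` or `s > s₁ - 2δ`; `Nb δ 0 0`).
`D` := the set of all `(u, q, s, t)` with `Sq u q`, `s, t ∈ [s₀, s₁]`, `s < t`, `β (u,q,s) = β (u,q,t)`.  For `d ∈ D`: `ρ (u,q) ≠ 0`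
(otherwise `β (u,q,·) = α (u,q,·)` is injective), so `u, q ∈ (0,1)`; `χ s ≠ 0 ∨ χ t ≠ 0` (otherwise `α (0,0,s) = α (0,0,t)`),
so the value is not in `K` (`off`) and `GP.trans` applies.
`fin`: every point `d` of the compact set `C = {Sq u q, s₀ ≤ s ≤ t ≤ s₁}` has a neighbourhood `N` with `N ∩ D ⊆ {d}`
(then `D ⊆ C` is finite, `IsCompact.elim_nhds_subcover`): if `s < t` and `β (u,q,s) ≠ β (u,q,t)`: continuity; if `s < t`, `d ∈ D`:
`dbl β` is injective near `d` (`isLocalDiffeomorphAt_of_injective`, Loc.lean) and vanishes on `D`; if `s = t`: choose a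
continuous linear functional `f` with `f (∂_s β (u,q,s)) ≠ 0` (one of the four coordinates); `f (∂_s β) ≠ 0` on a product
neighbourhood `B` (a ball) of `(u,q,s)`; if `(u', q', s', t') ∈ D` with `(u',q',s'), (u',q',t') ∈ B`, Rolle's theorem for
`f (β (u', q', ·))` on `[s', t']` gives a zero of `f (∂_s β)` in `B` (balls are convex), contradiction.
`sepu`, `sepq`: let `d = (u,q,s,t) ≠ d' = (u',q',s',t')` in `D` with `u = u'` or `q = q'`.  If `(u,q) ≠ (u',q')`: `GP.sep`.  If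
`(u,q) = (u',q')`: `(s,t) ≠ (s',t')`, and `Adm χ s t s' t'` holds: `n4`: `s = t'`, `t = s'` give `s < t = s' < t' = s`.  `d1`: if
`s = s'` and `χ t = χ t' = 0` then `α (0,0,t) = β (u,q,t) = β (u,q,s) = β (u,q,t') = α (0,0,t')`, so `t = t'`, contradiction.
`d2`: `s = t'`, `χ t = χ s' = 0`: `α(0,0,t) = β(s) = β(t') = β(s') = α(0,0,s')`, so `t = s'`, contradiction as in `n4`.
`d3`: `t = s'`, `χ s = χ t' = 0`: `α(0,0,s) = β(t) = β(s') = β(t') = α(0,0,t')`, so `s = t'`, contradiction.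
`d4`: `t = t'`, `χ s = χ s' = 0`: `s = s'`, contradiction.  So `GP.one` gives a contradiction. -/
def StH4 : Prop :=
  ∀ (α : ℝ × ℝ × ℝ → R4) (s₀ s₁ δ : ℝ) (K : Set R4), IsCompact K → In4 α s₀ s₁ δ K →
    ∃ (β : ℝ × ℝ × ℝ → R4) (D : Set (ℝ × ℝ × ℝ × ℝ)), Out4 α β s₀ s₁ δ K D

end Pool.Agent.Helper34.BI.H


end

/-! ## Helper34.BI.H.M_NP1 -/

section

/-!
# Module NP1: parametric transversality, `dim X < dim Y`
-/

set_option autoImplicit false

open Module Set Filter Topology MeasureTheory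
open scoped ContDiff Manifold
open Pool.Agent.Helper65.Barb Pool.Agent.Helper18.BI

namespace Pool.Agent.Helper34.BI.H

section np1

variable {X P Y : Type} [NormedAddCommGroup X] [NormedSpace ℝ X] [FiniteDimensional ℝ X]
    [NormedAddCommGroup P] [NormedSpace ℝ P] [FiniteDimensional ℝ P] [MeasurableSpace P]
    [BorelSpace P] [NormedAddCommGroup Y] [NormedSpace ℝ Y] [FiniteDimensional ℝ Y]
    (μ : Measure P) [μ.IsAddHaarMeasure] {s : Set X} {L : X → P →L[ℝ] Y} {c : X → Y}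

private theorem local_NP1 (hdim : finrank ℝ X < finrank ℝ Y) (hL : DifferentiableOn ℝ L s)
    (hc : DifferentiableOn ℝ c s) (hsurj : ∀ x ∈ s, Function.Surjective (L x)) (x₀ : X)
    (hx₀ : x₀ ∈ s) : ∃ V ∈ 𝓝[s] x₀, μ {p | ∃ x ∈ s, x ∈ V ∧ L x p = c x} = 0 := by
  have : CompleteSpace Y := FiniteDimensional.complete ℝ Y
  obtain ⟨g, hg⟩ := (L x₀ : P →ₗ[ℝ] Y).exists_rightInverse_of_surjective
    (LinearMap.range_eq_top.2 (hsurj x₀ hx₀))
  let R : Y →L[ℝ] P := LinearMap.toContinuousLinearMap g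
  have hR : ∀ y, L x₀ (R y) = y := fun y => LinearMap.congr_fun hg y
  let K : Submodule ℝ P := LinearMap.ker (L x₀ : P →ₗ[ℝ] Y)
  let S : X → (Y →L[ℝ] Y) := fun x => (L x).comp R
  have hS0 : S x₀ = 1 := by
    ext y
    exact hR y
  have hSd : DifferentiableOn ℝ S s := hL.clm_comp (differentiableOn_const R)
  have hV : {x | IsUnit (S x)} ∈ 𝓝[s] x₀ := by
    have h1 : ContinuousWithinAt S s x₀ := (hSd x₀ hx₀).continuousWithinAt
    have h2 : {T : Y →L[ℝ] Y | IsUnit T} ∈ 𝓝 (S x₀) := by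
      refine Units.isOpen.mem_nhds ?_
      rw [hS0]
      exact isUnit_one
    exact h1 h2
  refine ⟨_, hV, ?_⟩
  let S' : Set (X × K) := {q | q.1 ∈ s ∧ IsUnit (S q.1)}
  let Ψ : X × K → P := fun q =>
    R (Ring.inverse (S q.1) (c q.1 - L q.1 (q.2 : P))) + (q.2 : P)
  have m1 : MapsTo (fun q : X × K => q.1) S' s := fun q hq => hq.1
  have d1 : DifferentiableOn ℝ (fun q : X × K => q.1) S' := differentiable_fst.differentiableOn
  have d2 : DifferentiableOn ℝ (fun q : X × K => (q.2 : P)) S' :=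
    (K.subtypeL.differentiable.comp differentiable_snd).differentiableOn
  have dL : DifferentiableOn ℝ (fun q : X × K => L q.1) S' := hL.comp d1 m1
  have dc : DifferentiableOn ℝ (fun q : X × K => c q.1) S' := hc.comp d1 m1
  have dS : DifferentiableOn ℝ (fun q : X × K => S q.1) S' := hSd.comp d1 m1
  have dI : DifferentiableOn ℝ (fun q : X × K => Ring.inverse (S q.1)) S' := by
    intro q hq
    exact (differentiableAt_inverse hq.2).comp_differentiableWithinAt q (dS q hq)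
  have dΨ : DifferentiableOn ℝ Ψ S' := by
    refine DifferentiableOn.add ?_ d2
    exact R.differentiable.comp_differentiableOn (dI.clm_apply (dc.sub (dL.clm_apply d2)))
  have hdim' : finrank ℝ (X × K) < finrank ℝ P := by
    have h1 := (L x₀ : P →ₗ[ℝ] Y).finrank_range_add_finrank_ker
    rw [LinearMap.range_eq_top.2 (hsurj x₀ hx₀), finrank_top] at h1
    rw [finrank_prod]
    change finrank ℝ X + finrank ℝ (LinearMap.ker (L x₀ : P →ₗ[ℝ] Y)) < finrank ℝ P
    omega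
  refine measure_mono_null ?_ (null_image μ hdim' dΨ)
  rintro p ⟨x, hx, hxV, hxe⟩
  have hk : p - R (L x₀ p) ∈ K := by
    change L x₀ (p - R (L x₀ p)) = 0
    rw [map_sub, hR, sub_self]
  refine ⟨(x, ⟨p - R (L x₀ p), hk⟩), ⟨hx, hxV⟩, ?_⟩
  have h1 : c x - L x (p - R (L x₀ p)) = S x (L x₀ p) := by
    rw [map_sub, hxe]
    change c x - (c x - L x (R (L x₀ p))) = L x (R (L x₀ p))
    abel
  have h2 : Ring.inverse (S x) (S x (L x₀ p)) = L x₀ p := by
    have h3 := Ring.inverse_mul_cancel (S x) hxV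
    exact DFunLike.congr_fun h3 (L x₀ p)
  change R (Ring.inverse (S x) (c x - L x (p - R (L x₀ p)))) + (p - R (L x₀ p)) = p
  rw [h1, h2]
  abel

end np1

/-- Module NP1. -/
theorem m_NP1 : StNP1 := by
  intro X P Y _ _ _ _ _ _ _ _ _ _ _ μ _ s L c hdim hL hc hsurj
  have key : ∀ x : X, ∃ V : Set X, (x ∈ s → V ∈ 𝓝[s] x) ∧
      μ {p | ∃ x ∈ s, x ∈ V ∧ L x p = c x} = 0 := by
    intro x
    by_cases hx : x ∈ s
    · obtain ⟨V, hV, hn⟩ := local_NP1 μ hdim hL hc hsurj x hx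
      exact ⟨V, fun _ => hV, hn⟩
    · refine ⟨∅, fun h => absurd h hx, ?_⟩
      simp
  choose V hV hn using key
  obtain ⟨t, -, htc, ht⟩ := TopologicalSpace.countable_cover_nhdsWithin hV
  refine measure_mono_null ?_ ((measure_biUnion_null_iff htc).2 (fun x _ => hn x))
  rintro p ⟨x, hx, hxe⟩
  obtain ⟨y, hy, hxy⟩ := mem_iUnion₂.1 (ht hx)
  exact mem_iUnion₂.2 ⟨y, hy, x, hx, hxy, hxe⟩

end Pool.Agent.Helper34.BI.H


end

/-! ## Helper34.BI.H.M_NU2 -/

section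

/-!
# Project BI, stage 3, module NU2: generic double points are transverse
-/

set_option autoImplicit false

open Module Set Filter Topology MeasureTheory
open scoped ContDiff Manifold
open Pool.Agent.Helper65.Barb Pool.Agent.Helper18.BI

namespace Pool.Agent.Helper34.BI.H

private theorem mon_diff_NU2 (j : Fin 8) : Differentiable ℝ (fun z : ℝ × ℝ × ℝ => mon z j) := by
  fin_cases j <;> simp only [mon] <;> (try simp) <;> fun_prop

/-- the coefficients -/
private noncomputable def co_NU2 (ρ : ℝ × ℝ → ℝ) (χ : ℝ → ℝ) (x : ℝ × ℝ × ℝ × ℝ) (j : Fin 8) : ℝ :=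
  ρ (x.1, x.2.1) * (χ x.2.2.1 * mon (x.1, x.2.1, x.2.2.1) j -
    χ x.2.2.2 * mon (x.1, x.2.1, x.2.2.2) j)

/-- the linear maps -/
private noncomputable def L_NU2 (ρ : ℝ × ℝ → ℝ) (χ : ℝ → ℝ) (x : ℝ × ℝ × ℝ × ℝ) :
    (Fin 8 → R4) →L[ℝ] R4 :=
  ∑ j, co_NU2 ρ χ x j • ContinuousLinearMap.proj (R := ℝ) (φ := fun _ : Fin 8 => R4) j

private theorem L_apply_NU2 (ρ : ℝ × ℝ → ℝ) (χ : ℝ → ℝ) (x : ℝ × ℝ × ℝ × ℝ) (p : Fin 8 → R4) :
    L_NU2 ρ χ x p = ∑ j, co_NU2 ρ χ x j • p j := by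
  simp only [L_NU2, ContinuousLinearMap.sum_apply, ContinuousLinearMap.smul_apply,
    ContinuousLinearMap.proj_apply]

private theorem eq_NU2 (α : ℝ × ℝ × ℝ → R4) (ρ : ℝ × ℝ → ℝ) (χ : ℝ → ℝ) (p : Fin 8 → R4)
    (x : ℝ × ℝ × ℝ × ℝ) :
    L_NU2 ρ χ x p - (-dbl α x) = dbl (prt α ρ χ p) x := by
  rw [L_apply_NU2]
  simp only [dbl, prt]
  have h : ∑ j, co_NU2 ρ χ x j • p j =
      ∑ j, (ρ (x.1, x.2.1) * χ x.2.2.1 * mon (x.1, x.2.1, x.2.2.1) j) • p j -
        ∑ j, (ρ (x.1, x.2.1) * χ x.2.2.2 * mon (x.1, x.2.1, x.2.2.2) j) • p j := by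
    rw [← Finset.sum_sub_distrib]
    refine Finset.sum_congr rfl fun j _ => ?_
    rw [← sub_smul, co_NU2]
    congr 1
    ring
  rw [h]
  abel

private theorem surj_NU2 (ρ : ℝ × ℝ → ℝ) (χ : ℝ → ℝ) (x : ℝ × ℝ × ℝ × ℝ) {j : Fin 8}
    (hj : co_NU2 ρ χ x j ≠ 0) : Function.Surjective (L_NU2 ρ χ x) := by
  intro y
  refine ⟨Pi.single j ((co_NU2 ρ χ x j)⁻¹ • y), ?_⟩
  rw [L_apply_NU2, Finset.sum_eq_single_of_mem j (Finset.mem_univ j)]
  · rw [Pi.single_eq_same, smul_smul, mul_inv_cancel₀ hj, one_smul]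
  · intro i _ hi
    rw [Pi.single_eq_of_ne hi, smul_zero]

private theorem L_diff_NU2 {ρ : ℝ × ℝ → ℝ} {χ : ℝ → ℝ} (hρ : Differentiable ℝ ρ)
    (hχ : Differentiable ℝ χ) : Differentiable ℝ (L_NU2 ρ χ) := by
  unfold L_NU2
  have h : ∀ j : Fin 8, Differentiable ℝ (fun x => co_NU2 ρ χ x j) := by
    intro j
    have h1 : Differentiable ℝ (fun x : ℝ × ℝ × ℝ × ℝ => mon (x.1, x.2.1, x.2.2.1) j) :=
      (mon_diff_NU2 j).comp (f := fun x : ℝ × ℝ × ℝ × ℝ => (x.1, x.2.1, x.2.2.1)) (by fun_prop)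
    have h2 : Differentiable ℝ (fun x : ℝ × ℝ × ℝ × ℝ => mon (x.1, x.2.1, x.2.2.2) j) :=
      (mon_diff_NU2 j).comp (f := fun x : ℝ × ℝ × ℝ × ℝ => (x.1, x.2.1, x.2.2.2)) (by fun_prop)
    unfold co_NU2
    fun_prop
  refine Differentiable.fun_sum fun j _ => ?_
  exact (h j).smul_const _

/-- **NU2.** Generic double points are transverse. -/
theorem m_NU2 (h2 : StNP2) : StNU2 := by
  intro μ _ α ρ χ hα hρ hχ
  have d1 : Differentiable ℝ ρ := hρ.differentiable (by simp)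
  have d2 : Differentiable ℝ χ := hχ.differentiable (by simp)
  have d3 : Differentiable ℝ α := hα.differentiable (by simp)
  have hfr : finrank ℝ (ℝ × ℝ × ℝ × ℝ) = finrank ℝ R4 := by
    simp [R4, finrank_prod, Complex.finrank_real_complex]
  have hdbl : Differentiable ℝ (fun x => -dbl α x) := by
    unfold dbl
    fun_prop
  have hs : IsOpen {x : ℝ × ℝ × ℝ × ℝ | ρ (x.1, x.2.1) ≠ 0 ∧ x.2.2.1 ≠ x.2.2.2 ∧
      (χ x.2.2.1 ≠ 0 ∨ χ x.2.2.2 ≠ 0)} := by
    refine IsOpen.inter ?_ (IsOpen.inter ?_ (IsOpen.union ?_ ?_))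
    · exact isOpen_ne_fun (d1.continuous.comp (by fun_prop)) continuous_const
    · exact isOpen_ne_fun (by fun_prop) (by fun_prop)
    · exact isOpen_ne_fun (d2.continuous.comp (by fun_prop)) continuous_const
    · exact isOpen_ne_fun (d2.continuous.comp (by fun_prop)) continuous_const
  have key := h2 (ℝ × ℝ × ℝ × ℝ) (Fin 8 → R4) R4 μ _ (L_NU2 ρ χ) (fun x => -dbl α x) hfr hs
    (L_diff_NU2 d1 d2).differentiableOn hdbl.differentiableOn ?_
  · refine measure_mono_null ?_ key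
    rintro p ⟨u, q, s, t, hρ0, hst, hχ0, heq, hinj⟩
    refine ⟨(u, q, s, t), ⟨hρ0, hst, hχ0⟩, ?_, ?_⟩
    · rw [← sub_eq_zero, eq_NU2]
      exact sub_eq_zero.2 heq
    · have : (fun x => L_NU2 ρ χ x p - (-dbl α x)) = dbl (prt α ρ χ p) :=
        funext fun x => eq_NU2 α ρ χ p x
      rw [this]
      exact hinj
  · rintro ⟨u, q, s, t⟩ ⟨hρ0, hst, hχ0⟩
    by_cases h0 : co_NU2 ρ χ (u, q, s, t) 0 = 0
    · by_cases h1 : co_NU2 ρ χ (u, q, s, t) 1 = 0
      · exfalso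
        simp only at hρ0 hst hχ0
        simp only [co_NU2, mon, Matrix.cons_val_zero, Matrix.cons_val_one, mul_one] at h0 h1
        have h3 : χ s - χ t = 0 := (mul_eq_zero.1 h0).resolve_left hρ0
        have h4 : χ s * s - χ t * t = 0 := (mul_eq_zero.1 h1).resolve_left hρ0
        have h5 : χ s = χ t := by linarith
        rw [h5] at h4
        have h6 : (s - t) * χ t = 0 := by linarith
        have h7 : χ t = 0 := (mul_eq_zero.1 h6).resolve_left (sub_ne_zero.2 hst)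
        rcases hχ0 with h8 | h8
        · exact h8 (h5.trans h7)
        · exact h8 h7
      · exact surj_NU2 ρ χ _ h1
    · exact surj_NU2 ρ χ _ h0

end Pool.Agent.Helper34.BI.H


end

/-! ## Helper34.BI.H.M_NU3 -/

section

/-!
# Project BI, stage 3, module NU3: double points at two different parameters
-/

set_option autoImplicit false

open Module Set Filter Topology MeasureTheory
open scoped ContDiff Manifold
open Pool.Agent.Helper65.Barb Pool.Agent.Helper18.BI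

namespace Pool.Agent.Helper34.BI.H

namespace NU3

/-- the coefficients of the parameters in the difference of two strands -/
noncomputable def lam (ρ : ℝ × ℝ → ℝ) (χ : ℝ → ℝ) (b : ℝ × ℝ) (s t : ℝ) (j : Fin 8) : ℝ :=
  ρ b * (χ s * mon (b.1, b.2, s) j - χ t * mon (b.1, b.2, t) j)

/-- the combination of the coefficients which belongs to a polynomial -/
private theorem lam_sum (ρ : ℝ × ℝ → ℝ) (χ : ℝ → ℝ) (b : ℝ × ℝ) (s t : ℝ) (c : Fin 8 → ℝ) :
    ∑ j, lam ρ χ b s t j * c j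
      = ρ b * (χ s * ∑ j, mon (b.1, b.2, s) j * c j - χ t * ∑ j, mon (b.1, b.2, t) j * c j) := by
  simp only [lam, Finset.mul_sum, ← Finset.sum_sub_distrib]
  exact Finset.sum_congr rfl fun j _ => by ring

private theorem exists_ne {ρ : ℝ × ℝ → ℝ} {χ : ℝ → ℝ} {b b' : ℝ × ℝ} (hb : b ≠ b') (h1 : ρ b ≠ 0)
    {s t : ℝ} (hst : s ≠ t) (hχ : χ s ≠ 0 ∨ χ t ≠ 0) (s' t' : ℝ) :
    ∃ c : Fin 8 → ℝ, ∑ j, lam ρ χ b s t j * c j ≠ 0 ∧ ∑ j, lam ρ χ b' s' t' j * c j = 0 := by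
  have hne : χ s - χ t ≠ 0 ∨ χ s * s - χ t * t ≠ 0 := by
    by_contra hc
    push Not at hc
    obtain ⟨e1, e2⟩ := hc
    have e3 : χ s = χ t := by linarith
    have e4 : χ t * (s - t) = 0 := by rw [e3] at e2; linarith
    rcases mul_eq_zero.1 e4 with h | h
    · rcases hχ with h' | h'
      · exact h' (e3.trans h)
      · exact h' h
    · exact hst (by linarith)
  have hb' : b.2 ≠ b'.2 ∨ b.1 ≠ b'.1 := by
    by_contra hc
    push Not at hc
    exact hb (Prod.ext hc.2 hc.1)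
  rcases hb' with hq | hq
  · have hq' : b.2 - b'.2 ≠ 0 := sub_ne_zero.2 hq
    rcases hne with hn | hn
    · refine ⟨![-b'.2, 0, 0, 0, 1, 0, 0, 0], ?_, ?_⟩
      · rw [lam_sum]
        have e : ∀ x : ℝ, ∑ j, mon (b.1, b.2, x) j * (![-b'.2, 0, 0, 0, 1, 0, 0, 0] : Fin 8 → ℝ) j
            = b.2 - b'.2 := by
          intro x
          simp [Fin.sum_univ_succ, mon]
          ring
        rw [e, e]
        have : ρ b * (χ s * (b.2 - b'.2) - χ t * (b.2 - b'.2))
            = ρ b * ((b.2 - b'.2) * (χ s - χ t)) := by ring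
        rw [this]
        exact mul_ne_zero h1 (mul_ne_zero hq' hn)
      · rw [lam_sum]
        have e : ∀ x : ℝ, ∑ j, mon (b'.1, b'.2, x) j * (![-b'.2, 0, 0, 0, 1, 0, 0, 0] : Fin 8 → ℝ) j
            = 0 := by
          intro x
          simp [Fin.sum_univ_succ, mon]
        rw [e, e]
        ring
    · refine ⟨![0, -b'.2, 0, 0, 0, 1, 0, 0], ?_, ?_⟩
      · rw [lam_sum]
        have e : ∀ x : ℝ, ∑ j, mon (b.1, b.2, x) j * (![0, -b'.2, 0, 0, 0, 1, 0, 0] : Fin 8 → ℝ) j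
            = (b.2 - b'.2) * x := by
          intro x
          simp [Fin.sum_univ_succ, mon]
          ring
        rw [e, e]
        have : ρ b * (χ s * ((b.2 - b'.2) * s) - χ t * ((b.2 - b'.2) * t))
            = ρ b * ((b.2 - b'.2) * (χ s * s - χ t * t)) := by ring
        rw [this]
        exact mul_ne_zero h1 (mul_ne_zero hq' hn)
      · rw [lam_sum]
        have e : ∀ x : ℝ, ∑ j, mon (b'.1, b'.2, x) j * (![0, -b'.2, 0, 0, 0, 1, 0, 0] : Fin 8 → ℝ) j
            = 0 := by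
          intro x
          simp [Fin.sum_univ_succ, mon]
          ring
        rw [e, e]
        ring
  · have hq' : b.1 - b'.1 ≠ 0 := sub_ne_zero.2 hq
    rcases hne with hn | hn
    · refine ⟨![-b'.1, 0, 0, 0, 0, 0, 1, 0], ?_, ?_⟩
      · rw [lam_sum]
        have e : ∀ x : ℝ, ∑ j, mon (b.1, b.2, x) j * (![-b'.1, 0, 0, 0, 0, 0, 1, 0] : Fin 8 → ℝ) j
            = b.1 - b'.1 := by
          intro x
          simp [Fin.sum_univ_succ, mon]
          ring
        rw [e, e]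
        have : ρ b * (χ s * (b.1 - b'.1) - χ t * (b.1 - b'.1))
            = ρ b * ((b.1 - b'.1) * (χ s - χ t)) := by ring
        rw [this]
        exact mul_ne_zero h1 (mul_ne_zero hq' hn)
      · rw [lam_sum]
        have e : ∀ x : ℝ, ∑ j, mon (b'.1, b'.2, x) j * (![-b'.1, 0, 0, 0, 0, 0, 1, 0] : Fin 8 → ℝ) j
            = 0 := by
          intro x
          simp [Fin.sum_univ_succ, mon]
        rw [e, e]
        ring
    · refine ⟨![0, -b'.1, 0, 0, 0, 0, 0, 1], ?_, ?_⟩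
      · rw [lam_sum]
        have e : ∀ x : ℝ, ∑ j, mon (b.1, b.2, x) j * (![0, -b'.1, 0, 0, 0, 0, 0, 1] : Fin 8 → ℝ) j
            = (b.1 - b'.1) * x := by
          intro x
          simp [Fin.sum_univ_succ, mon]
          ring
        rw [e, e]
        have : ρ b * (χ s * ((b.1 - b'.1) * s) - χ t * ((b.1 - b'.1) * t))
            = ρ b * ((b.1 - b'.1) * (χ s * s - χ t * t)) := by ring
        rw [this]
        exact mul_ne_zero h1 (mul_ne_zero hq' hn)
      · rw [lam_sum]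
        have e : ∀ x : ℝ, ∑ j, mon (b'.1, b'.2, x) j * (![0, -b'.1, 0, 0, 0, 0, 0, 1] : Fin 8 → ℝ) j
            = 0 := by
          intro x
          simp [Fin.sum_univ_succ, mon]
          ring
        rw [e, e]
        ring

private theorem exists_one {ρ : ℝ × ℝ → ℝ} {χ : ℝ → ℝ} {b b' : ℝ × ℝ} (hb : b ≠ b') (h1 : ρ b ≠ 0)
    {s t : ℝ} (hst : s ≠ t) (hχ : χ s ≠ 0 ∨ χ t ≠ 0) (s' t' : ℝ) :
    ∃ c : Fin 8 → ℝ, ∑ j, lam ρ χ b s t j * c j = 1 ∧ ∑ j, lam ρ χ b' s' t' j * c j = 0 := by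
  obtain ⟨c, h2, h3⟩ := exists_ne hb h1 hst hχ s' t'
  refine ⟨fun j => c j * (∑ j, lam ρ χ b s t j * c j)⁻¹, ?_, ?_⟩
  · simp only [← mul_assoc]
    rw [← Finset.sum_mul]
    exact mul_inv_cancel₀ h2
  · simp only [← mul_assoc]
    rw [← Finset.sum_mul, h3, zero_mul]

/-- the linear system -/
noncomputable def Lm (l l' : Fin 8 → ℝ) : (Fin 8 → R4) →L[ℝ] R4 × R4 :=
  ∑ j, (l j • (ContinuousLinearMap.inl ℝ R4 R4).comp (ContinuousLinearMap.proj j)
    + l' j • (ContinuousLinearMap.inr ℝ R4 R4).comp (ContinuousLinearMap.proj j))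

private theorem Lm_apply (l l' : Fin 8 → ℝ) (p : Fin 8 → R4) :
    Lm l l' p = (∑ j, l j • p j, ∑ j, l' j • p j) := by
  have h : ∀ j, (l j • (ContinuousLinearMap.inl ℝ R4 R4).comp
        (ContinuousLinearMap.proj (R := ℝ) (φ := fun _ : Fin 8 => R4) j)
      + l' j • (ContinuousLinearMap.inr ℝ R4 R4).comp
        (ContinuousLinearMap.proj (R := ℝ) (φ := fun _ : Fin 8 => R4) j) :
      (Fin 8 → R4) →L[ℝ] R4 × R4) p = (l j • p j, l' j • p j) := by
    intro j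
    apply Prod.ext <;> simp
  unfold Lm
  rw [ContinuousLinearMap.sum_apply, Finset.sum_congr rfl fun j _ => h j]
  exact Prod.ext (by rw [Prod.fst_sum]) (by rw [Prod.snd_sum])

private theorem Lm_surj {l l' : Fin 8 → ℝ} {c c' : Fin 8 → ℝ} (h1 : ∑ j, l j * c j = 1)
    (h2 : ∑ j, l' j * c j = 0) (h3 : ∑ j, l' j * c' j = 1) (h4 : ∑ j, l j * c' j = 0) :
    Function.Surjective (Lm l l') := by
  rintro ⟨y, y'⟩
  refine ⟨fun j => c j • y + c' j • y', ?_⟩
  rw [Lm_apply]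
  apply Prod.ext
  · change ∑ j, l j • (c j • y + c' j • y') = y
    simp only [smul_add, smul_smul, Finset.sum_add_distrib, ← Finset.sum_smul]
    rw [h1, h4, one_smul, zero_smul, add_zero]
  · change ∑ j, l' j • (c j • y + c' j • y') = y'
    simp only [smul_add, smul_smul, Finset.sum_add_distrib, ← Finset.sum_smul]
    rw [h2, h3, one_smul, zero_smul, zero_add]

private theorem prt_sub {α : ℝ × ℝ × ℝ → R4} {ρ : ℝ × ℝ → ℝ} {χ : ℝ → ℝ} {p : Fin 8 → R4}
    {b : ℝ × ℝ} {s t : ℝ} (h : prt α ρ χ p (b.1, b.2, s) = prt α ρ χ p (b.1, b.2, t)) :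
    ∑ j, lam ρ χ b s t j • p j = α (b.1, b.2, t) - α (b.1, b.2, s) := by
  unfold prt at h
  have e : ∑ j, lam ρ χ b s t j • p j
      = ∑ j, (ρ (b.1, b.2) * χ s * mon (b.1, b.2, s) j) • p j
        - ∑ j, (ρ (b.1, b.2) * χ t * mon (b.1, b.2, t) j) • p j := by
    rw [← Finset.sum_sub_distrib]
    refine Finset.sum_congr rfl fun j _ => ?_
    rw [← sub_smul]
    congr 1
    unfold lam
    ring
  rw [e]
  have h' : α (b.1, b.2, s) + ∑ j, (ρ (b.1, b.2) * χ s * mon (b.1, b.2, s) j) • p j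
      = α (b.1, b.2, t) + ∑ j, (ρ (b.1, b.2) * χ t * mon (b.1, b.2, t) j) • p j := h
  rw [sub_eq_sub_iff_add_eq_add, add_comm, h', add_comm]

private theorem mon_diff (j : Fin 8) : Differentiable ℝ (fun z : ℝ × ℝ × ℝ => mon z j) := by
  fin_cases j
  · exact differentiable_const 1
  · exact (show Differentiable ℝ (fun z : ℝ × ℝ × ℝ => z.2.2) by fun_prop)
  · exact (show Differentiable ℝ (fun z : ℝ × ℝ × ℝ => z.2.2 ^ 2) by fun_prop)
  · exact (show Differentiable ℝ (fun z : ℝ × ℝ × ℝ => z.2.2 ^ 3) by fun_prop)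
  · exact (show Differentiable ℝ (fun z : ℝ × ℝ × ℝ => z.2.1) by fun_prop)
  · exact (show Differentiable ℝ (fun z : ℝ × ℝ × ℝ => z.2.1 * z.2.2) by fun_prop)
  · exact (show Differentiable ℝ (fun z : ℝ × ℝ × ℝ => z.1) by fun_prop)
  · exact (show Differentiable ℝ (fun z : ℝ × ℝ × ℝ => z.1 * z.2.2) by fun_prop)

end NU3

open NU3 in
theorem m_NU3 (hNP1 : StNP1) : StNU3 := by
  intro μ _ α ρ χ hα hρ hχ a a' ha ha'
  have dα : Differentiable ℝ α := hα.differentiable (by simp)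
  have dρ : Differentiable ℝ ρ := hρ.differentiable (by simp)
  have dχ : Differentiable ℝ χ := hχ.differentiable (by simp)
  have da : Differentiable ℝ a := ha.differentiable (by simp)
  have da' : Differentiable ℝ a' := ha'.differentiable (by simp)
  have dmon := mon_diff
  let S : Set ((ℝ × ℝ × ℝ) × (ℝ × ℝ × ℝ × ℝ)) := {x | a x.1 ≠ a' x.1 ∧ ρ (a x.1) ≠ 0 ∧
    ρ (a' x.1) ≠ 0 ∧ x.2.1 ≠ x.2.2.1 ∧ x.2.2.2.1 ≠ x.2.2.2.2 ∧ (χ x.2.1 ≠ 0 ∨ χ x.2.2.1 ≠ 0) ∧
    (χ x.2.2.2.1 ≠ 0 ∨ χ x.2.2.2.2 ≠ 0)}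
  let l : (ℝ × ℝ × ℝ) × (ℝ × ℝ × ℝ × ℝ) → Fin 8 → ℝ := fun x j =>
    lam ρ χ (a x.1) x.2.1 x.2.2.1 j
  let l' : (ℝ × ℝ × ℝ) × (ℝ × ℝ × ℝ × ℝ) → Fin 8 → ℝ := fun x j =>
    lam ρ χ (a' x.1) x.2.2.2.1 x.2.2.2.2 j
  let c : (ℝ × ℝ × ℝ) × (ℝ × ℝ × ℝ × ℝ) → R4 × R4 := fun x =>
    (α ((a x.1).1, (a x.1).2, x.2.2.1) - α ((a x.1).1, (a x.1).2, x.2.1),
      α ((a' x.1).1, (a' x.1).2, x.2.2.2.2) - α ((a' x.1).1, (a' x.1).2, x.2.2.2.1))
  have dl : ∀ j, Differentiable ℝ (fun x => l x j) := by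
    intro j
    have := dmon j
    simp only [l, lam]
    fun_prop
  have dl' : ∀ j, Differentiable ℝ (fun x => l' x j) := by
    intro j
    have := dmon j
    simp only [l', lam]
    fun_prop
  have hL : Differentiable ℝ (fun x => Lm (l x) (l' x)) := by
    unfold Lm
    refine Differentiable.fun_sum fun j _ => ?_
    exact ((dl j).smul_const _).add ((dl' j).smul_const _)
  have hc : Differentiable ℝ c := by
    simp only [c]
    fun_prop
  have hdim : finrank ℝ ((ℝ × ℝ × ℝ) × (ℝ × ℝ × ℝ × ℝ)) < finrank ℝ (R4 × R4) := by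
    simp [Module.finrank_prod]
  have key := hNP1 ((ℝ × ℝ × ℝ) × (ℝ × ℝ × ℝ × ℝ)) (Fin 8 → R4) (R4 × R4) μ S
    (fun x => Lm (l x) (l' x)) c hdim hL.differentiableOn hc.differentiableOn (by
      rintro ⟨w, s, t, s', t'⟩ ⟨h1, h2, h3, h4, h5, h6, h7⟩
      obtain ⟨e, e1, e2⟩ := exists_one h1 h2 h4 h6 s' t'
      obtain ⟨e', e1', e2'⟩ := exists_one h1.symm h3 h5 h7 s t
      exact Lm_surj e1 e2 e1' e2')
  refine measure_mono_null ?_ key
  rintro p ⟨w, s, t, s', t', h1, h2, h3, h4, h5, h6, h7, h8, h9⟩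
  refine ⟨(w, s, t, s', t'), ⟨h1, h2, h3, h4, h5, h6, h7⟩, ?_⟩
  rw [Lm_apply]
  exact Prod.ext (prt_sub h8) (prt_sub h9)

end Pool.Agent.Helper34.BI.H


end

/-! ## Helper34.BI.H.M_GP -/

section

/-!
# Project BI, stage 3, module GP: existence of generic perturbations
-/

set_option autoImplicit false

open Module Set Filter Topology MeasureTheory
open scoped ContDiff Manifold
open Pool.Agent.Helper65.Barb Pool.Agent.Helper18.BI

namespace Pool.Agent.Helper34.BI.H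

theorem m_GP (h1 : StNU1) (h2 : StNU2) (h3 : StNU3) (h4 : StNU4) : StGP := by
  intro α ρ χ hα hρ hχ ε hε
  let μ : Measure (Fin 8 → R4) := Measure.addHaar
  have n1 := h1 μ α ρ χ hα hρ hχ
  have n2 := h2 μ α ρ χ hα hρ hχ
  have n3 := h3 μ α ρ χ hα hρ hχ (fun w => (w.1, w.2.1)) (fun w => (w.1, w.2.2))
    (by fun_prop) (by fun_prop)
  have n3' := h3 μ α ρ χ hα hρ hχ (fun w => (w.1, w.2.1)) (fun w => (w.2.2, w.2.1))
    (by fun_prop) (by fun_prop)
  have n4 := h4 μ α ρ χ hα hρ hχ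
  have hn := measure_union_null n1 (measure_union_null n2 (measure_union_null n3
    (measure_union_null n3' n4)))
  have hball : 0 < μ (Metric.ball (0 : Fin 8 → R4) ε) := Metric.measure_ball_pos μ _ hε
  by_contra hcon
  push Not at hcon
  refine absurd (measure_mono_null ?_ hn) hball.ne'
  intro p hp
  rw [mem_ball_zero_iff] at hp
  have hnot := hcon p hp
  by_contra hc
  apply hnot
  simp only [mem_union, mem_setOf_eq, not_or, not_exists, not_and] at hc
  obtain ⟨c1, c2, c3, c3', c4⟩ := hc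
  refine ⟨?_, ?_, ?_, ?_⟩
  · intro u q s a1 a2 a3
    exact c1 u q s a1 a2 a3
  · intro u q s t a1 a2 a3 a4
    have := c2 u q s t a1 a2 a3 a4
    exact not_not.1 this
  · intro u q u' q' s t s' t' b0 b1 b2 b3 b4 b5 b6 b7 b8 b9
    rcases b1 with rfl | rfl
    · exact c3 (u, q, q') s t s' t' b0 b2 b3 b4 b5 b6 b7 b8 b9
    · exact c3' (u, q, u') s t s' t' b0 b2 b3 b4 b5 b6 b7 b8 b9
  · intro u q s t s' t' a1 a2 a3 a4
    exact c4 u q s t s' t' a1 a2 a3 a4

end Pool.Agent.Helper34.BI.H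


end

/-! ## Helper34.BI.H.M_H4 -/

section

/-!
# Project BI, stage 3, module H4: general position for two-parameter families of arcs
-/

set_option autoImplicit false

open Module Set Filter Topology MeasureTheory
open scoped ContDiff Manifold
open Pool.Agent.Helper65.Barb Pool.Agent.Helper18.BI

namespace Pool.Agent.Helper34.BI.H

namespace H4m

lemma contDiff_mon (j : Fin 8) : ContDiff ℝ ∞ (fun z : ℝ × ℝ × ℝ => mon z j) := by
  fin_cases j <;> simp only [mon] <;>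
    simp only [Fin.mk_zero, Fin.mk_one, Matrix.cons_val_zero, Matrix.cons_val_one,
      Fin.reduceFinMk, Matrix.cons_val] <;> fun_prop

lemma contDiff_prt {α : ℝ × ℝ × ℝ → R4} {ρ : ℝ × ℝ → ℝ} {χ : ℝ → ℝ} (hα : ContDiff ℝ ∞ α)
    (hρ : ContDiff ℝ ∞ ρ) (hχ : ContDiff ℝ ∞ χ) (p : Fin 8 → R4) :
    ContDiff ℝ ∞ (prt α ρ χ p) := by
  unfold prt
  refine hα.add (ContDiff.sum fun j _ => ContDiff.smul (ContDiff.mul (ContDiff.mul ?_ ?_)
    (contDiff_mon j)) contDiff_const)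
  · exact hρ.comp (by fun_prop)
  · exact hχ.comp (by fun_prop)

lemma continuous_prt {α : ℝ × ℝ × ℝ → R4} {ρ : ℝ × ℝ → ℝ} {χ : ℝ → ℝ} (hα : Continuous α)
    (hρ : Continuous ρ) (hχ : Continuous χ) :
    Continuous (fun x : (Fin 8 → R4) × (ℝ × ℝ × ℝ) => prt α ρ χ x.1 x.2) := by
  unfold prt
  refine (hα.comp continuous_snd).add (continuous_finsetSum _ fun j _ => ?_)
  have e1 : Continuous (fun x : (Fin 8 → R4) × (ℝ × ℝ × ℝ) => ρ (x.2.1, x.2.2.1)) :=
    hρ.comp (by fun_prop)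
  have e2 : Continuous (fun x : (Fin 8 → R4) × (ℝ × ℝ × ℝ) => χ x.2.2.2) :=
    hχ.comp (by fun_prop)
  have e3 : Continuous (fun x : (Fin 8 → R4) × (ℝ × ℝ × ℝ) => mon x.2 j) :=
    (contDiff_mon j).continuous.comp continuous_snd
  have e4 : Continuous (fun x : (Fin 8 → R4) × (ℝ × ℝ × ℝ) => x.1 j) :=
    (continuous_apply j).comp continuous_fst
  exact ((e1.mul e2).mul e3).smul e4

/-- smallness of the perturbation -/
lemma exists_eps {α : ℝ × ℝ × ℝ → R4} {ρ : ℝ × ℝ → ℝ} {χ : ℝ → ℝ} (hα : Continuous α)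
    (hρ : Continuous ρ) (hχ : Continuous χ) {K : Set R4} (hK : IsCompact K)
    {S : Set (ℝ × ℝ × ℝ)} (hS : IsCompact S) (hSK : ∀ z ∈ S, α z ∉ K) :
    ∃ ε > 0, ∀ p : Fin 8 → R4, ‖p‖ < ε → ∀ z ∈ S, prt α ρ χ p z ∉ K := by
  have hop : IsOpen {x : (Fin 8 → R4) × (ℝ × ℝ × ℝ) | prt α ρ χ x.1 x.2 ∉ K} :=
    hK.isClosed.isOpen_compl.preimage (continuous_prt hα hρ hχ)
  have hsub : ({0} : Set (Fin 8 → R4)) ×ˢ S ⊆
      {x : (Fin 8 → R4) × (ℝ × ℝ × ℝ) | prt α ρ χ x.1 x.2 ∉ K} := by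
    rintro ⟨p, z⟩ ⟨hp, hz⟩
    have hp' : p = 0 := hp
    subst hp'
    have : prt α ρ χ 0 z = α z := by simp [prt]
    simp only [mem_ofPred_eq, this]
    exact hSK z hz
  obtain ⟨U, V, hU, -, h0, hSV, hUV⟩ := generalized_tube_lemma isCompact_singleton hS hop hsub
  obtain ⟨ε, hε, hball⟩ := Metric.isOpen_iff.1 hU 0 (h0 rfl)
  refine ⟨ε, hε, fun p hp z hz => ?_⟩
  exact hUV (mk_mem_prod (hball (by simpa using hp)) (hSV hz))

/-- derivative of the perturbation where `χ` vanishes -/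
lemma hasDerivAt_frozen {α : ℝ × ℝ × ℝ → R4} {ρ : ℝ × ℝ → ℝ} {χ : ℝ → ℝ}
    (hα : ContDiff ℝ ∞ α) (hχ : ContDiff ℝ ∞ χ) (hχ0 : ∀ s, 0 ≤ χ s) (p : Fin 8 → R4)
    (u q s : ℝ) (hs : χ s = 0) (hfr : ∀ᶠ r in 𝓝 s, α (u, q, r) = α (0, 0, r)) :
    deriv (fun r => prt α ρ χ p (u, q, r)) s = deriv (fun r => α (0, 0, r)) s := by
  have hmin : deriv χ s = 0 := by
    have : IsLocalMin χ s := Eventually.of_forall fun r => by
      show χ s ≤ χ r
      rw [hs]; exact hχ0 r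
    exact this.deriv_eq_zero
  have d2 : HasDerivAt χ 0 s := by
    rw [← hmin]
    exact (hχ.differentiable (by simp) s).hasDerivAt
  let G : ℝ → R4 := fun r => ∑ j, (ρ (u, q) * mon (u, q, r) j) • p j
  have hG : Differentiable ℝ G := by
    have : ContDiff ℝ ∞ G := by
      refine ContDiff.sum fun j _ => ?_
      have e1 : ContDiff ℝ ∞ (fun r : ℝ => mon (u, q, r) j) := (contDiff_mon j).comp (by fun_prop)
      have e2 : ContDiff ℝ ∞ (fun r : ℝ => ρ (u, q) * mon (u, q, r) j) := contDiff_const.mul e1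
      exact e2.smul contDiff_const
    exact this.differentiable (by simp)
  have d3 : HasDerivAt (fun r => χ r • G r) 0 s := by
    have := d2.smul (hG s).hasDerivAt
    refine this.congr_deriv ?_
    simp [hs]
  have hα0 : Differentiable ℝ (fun r : ℝ => α (0, 0, r)) := by
    have : ContDiff ℝ ∞ (fun r : ℝ => α (0, 0, r)) := hα.comp (by fun_prop)
    exact this.differentiable (by simp)
  have d4 := (hα0 s).hasDerivAt.add d3
  rw [add_zero] at d4
  have d5 : HasDerivAt (fun r => prt α ρ χ p (u, q, r)) (deriv (fun r => α (0, 0, r)) s) s := by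
    refine d4.congr_of_eventuallyEq ?_
    filter_upwards [hfr] with r hr
    simp only [prt, hr, Pi.add_apply, G, Finset.smul_sum, smul_smul]
    congr 1
    refine Finset.sum_congr rfl fun j _ => ?_
    congr 1
    ring
  exact d5.deriv

/-- local injectivity -/
lemma locInj {X Y : Type} [NormedAddCommGroup X] [NormedSpace ℝ X] [FiniteDimensional ℝ X]
    [NormedAddCommGroup Y] [NormedSpace ℝ Y] [FiniteDimensional ℝ Y]
    (hdim : finrank ℝ X = finrank ℝ Y) {f : X → Y} (hf : ContDiff ℝ ∞ f) {x : X}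
    (hinj : Function.Injective (fderiv ℝ f x)) : ∃ U ∈ 𝓝 x, InjOn f U := by
  have h := isLocalDiffeomorphAt_of_injective hdim
    (Eventually.of_forall fun q => hf.contDiffAt) hinj
  obtain ⟨Φ, hx, hΦ⟩ := h
  refine ⟨Φ.source, Φ.open_source.mem_nhds hx, ?_⟩
  intro a ha b hb hab
  rw [hΦ ha, hΦ hb] at hab
  exact Φ.toPartialEquiv.injOn ha hb hab

/-- no double points near an immersed point -/
lemma near_diag {β : ℝ × ℝ × ℝ → R4} (hβ : ContDiff ℝ ∞ β) {u q s : ℝ}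
    (hne : deriv (fun r => β (u, q, r)) s ≠ 0) :
    ∃ N ∈ 𝓝 ((u, q, s, s) : ℝ × ℝ × ℝ × ℝ), ∀ y ∈ N, y.2.2.1 < y.2.2.2 →
      β (y.1, y.2.1, y.2.2.1) ≠ β (y.1, y.2.1, y.2.2.2) := by
  have hder : ∀ u q s, HasDerivAt (fun r => β (u, q, r)) (fderiv ℝ β (u, q, s) (0, 0, 1)) s := by
    intro u q s
    have l : HasDerivAt (fun r : ℝ => ((u, q, r) : ℝ × ℝ × ℝ)) (0, 0, 1) s :=
      (hasDerivAt_const s u).prodMk ((hasDerivAt_const s q).prodMk (hasDerivAt_id s))
    exact HasFDerivAt.comp_hasDerivAt_of_eq s ((hβ.differentiable (by simp) (u, q, s)).hasFDerivAt)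
      l rfl
  rw [(hder u q s).deriv] at hne
  obtain ⟨f, hf⟩ := SeparatingDual.exists_ne_zero (R := ℝ) hne
  have hcont : Continuous (fun z : ℝ × ℝ × ℝ => f (fderiv ℝ β z (0, 0, 1))) := by
    have : Continuous (fderiv ℝ β) := hβ.continuous_fderiv (by simp)
    exact f.continuous.comp (this.clm_apply continuous_const)
  have hop : IsOpen {z : ℝ × ℝ × ℝ | f (fderiv ℝ β z (0, 0, 1)) ≠ 0} :=
    isOpen_ne_fun hcont continuous_const
  obtain ⟨r, hr, hball⟩ := Metric.isOpen_iff.1 hop (u, q, s) hf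
  refine ⟨Metric.ball (u, q, s, s) r, Metric.ball_mem_nhds _ hr, ?_⟩
  rintro ⟨u', q', s', t'⟩ hy hlt heq
  simp only at hlt heq
  rw [Metric.mem_ball, Prod.dist_eq, Prod.dist_eq, Prod.dist_eq, max_lt_iff, max_lt_iff,
    max_lt_iff] at hy
  obtain ⟨h1, h2, h3, h4⟩ := hy
  simp only at h1 h2 h3 h4
  have hh : ∀ c, HasDerivAt (fun c => f (β (u', q', c))) (f (fderiv ℝ β (u', q', c) (0, 0, 1))) c :=
    fun c => f.hasFDerivAt.comp_hasDerivAt c (hder u' q' c)
  obtain ⟨c, hc, hc0⟩ := exists_deriv_eq_zero (f := fun c => f (β (u', q', c))) hlt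
    (fun c _ => (hh c).continuousAt.continuousWithinAt) (by simp only [heq])
  rw [(hh c).deriv] at hc0
  refine hball (?_ : (u', q', c) ∈ Metric.ball (u, q, s) r) hc0
  rw [Metric.mem_ball, Prod.dist_eq, Prod.dist_eq, max_lt_iff, max_lt_iff]
  refine ⟨h1, h2, ?_⟩
  simp only
  rw [Real.dist_eq, abs_lt] at h3 h4 ⊢
  exact ⟨by linarith [hc.1], by linarith [hc.2]⟩

end H4m

open H4m

theorem m_H4 (hGP : StGP) : StH4 := by
  intro α s₀ s₁ δ K hK hin
  obtain ⟨hα, hδ, hδ2, hroom, hfroz, hemb, hoff⟩ := hin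
  set ρ : ℝ × ℝ → ℝ := fun x => hat (δ / 2) (1 - δ / 2) x.1 * hat (δ / 2) (1 - δ / 2) x.2
    with hρdef
  set χ : ℝ → ℝ := hat (s₀ + δ) (s₁ - δ) with hχdef
  have hρ : ContDiff ℝ ∞ ρ :=
    ((contDiff_hat _ _).comp contDiff_fst).mul ((contDiff_hat _ _).comp contDiff_snd)
  have hχ : ContDiff ℝ ∞ χ := contDiff_hat _ _
  have hρz : ∀ u q, ρ (u, q) = 0 → Nb (δ / 2) u q := by
    intro u q h
    by_contra hcon
    unfold Nb at hcon
    push Not at hcon
    obtain ⟨c1, c2, c3, c4⟩ := hcon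
    exact mul_ne_zero (hat_ne_zero.2 ⟨c1, c2⟩) (hat_ne_zero.2 ⟨c3, c4⟩) h
  have hρz' : ∀ u q, Nb (δ / 2) u q → ρ (u, q) = 0 := by
    intro u q h
    simp only [hρdef]
    rcases h with h | h | h | h
    · rw [hat_eq_zero (Or.inl h), zero_mul]
    · rw [hat_eq_zero (Or.inr h), zero_mul]
    · rw [hat_eq_zero (Or.inl h), mul_zero]
    · rw [hat_eq_zero (Or.inr h), mul_zero]
  have hρi : ∀ u q, ρ (u, q) ≠ 0 → u ∈ Ioo (0 : ℝ) 1 ∧ q ∈ Ioo (0 : ℝ) 1 := by
    intro u q h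
    have h1 := hat_ne_zero.1 (left_ne_zero_of_mul h)
    have h2 := hat_ne_zero.1 (right_ne_zero_of_mul h)
    simp only at h1 h2
    exact ⟨⟨by linarith [h1.1], by linarith [h1.2]⟩, ⟨by linarith [h2.1], by linarith [h2.2]⟩⟩
  have hNb : ∀ u q, Nb (δ / 2) u q → Nb δ u q := by
    intro u q h
    rcases h with h | h | h | h
    · exact Or.inl (by linarith)
    · exact Or.inr (Or.inl (by linarith))
    · exact Or.inr (Or.inr (Or.inl (by linarith)))
    · exact Or.inr (Or.inr (Or.inr (by linarith)))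
  have hχz : ∀ s, χ s = 0 → s ≤ s₀ + δ ∨ s₁ - δ ≤ s := by
    intro s h
    by_contra hcon
    push Not at hcon
    exact hat_ne_zero.2 hcon h
  have hχz' : ∀ s, (s ≤ s₀ + δ ∨ s₁ - δ ≤ s) → χ s = 0 := fun s h => hat_eq_zero h
  have hχi : ∀ s, χ s ≠ 0 → s₀ + δ < s ∧ s < s₁ - δ := fun s h => hat_ne_zero.1 h
  -- the perturbation
  have hScomp : IsCompact (Icc (0 : ℝ) 1 ×ˢ (Icc (0 : ℝ) 1 ×ˢ Icc (s₀ + δ) (s₁ - δ))) :=
    isCompact_Icc.prod (isCompact_Icc.prod isCompact_Icc)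
  obtain ⟨ε, hε, hεK⟩ := exists_eps hα.continuous hρ.continuous hχ.continuous hK hScomp
    (fun z hz => hoff z.1 z.2.1 ⟨hz.1, hz.2.1⟩ z.2.2 hz.2.2)
  obtain ⟨p, hp, hgp⟩ := hGP α ρ χ hα hρ hχ ε hε
  set β : ℝ × ℝ × ℝ → R4 := prt α ρ χ p with hβdef
  have hβ : ContDiff ℝ ∞ β := contDiff_prt hα hρ hχ p
  have hβρ : ∀ u q s, ρ (u, q) = 0 → β (u, q, s) = α (u, q, s) := by
    intro u q s h
    simp [hβdef, prt, h]
  have hβχ : ∀ u q s, χ s = 0 → β (u, q, s) = α (0, 0, s) := by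
    intro u q s h
    have h1 : β (u, q, s) = α (u, q, s) := by simp [hβdef, prt, h]
    rw [h1]
    apply hfroz
    rcases hχz s h with h2 | h2
    · exact Or.inl (by linarith)
    · exact Or.inr (by linarith)
  have hSq0 : Sq 0 0 := ⟨⟨le_rfl, zero_le_one⟩, ⟨le_rfl, zero_le_one⟩⟩
  have hNb0 : Nb δ 0 0 := Or.inl hδ.le
  have hinj0 := (hemb 0 0 hSq0 hNb0).1
  have hoffβ : ∀ u q, Sq u q → ∀ s ∈ Icc (s₀ + δ) (s₁ - δ), β (u, q, s) ∉ K := by
    intro u q h s hs
    exact hεK p hp (u, q, s) ⟨h.1, h.2, hs⟩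
  have himm : ∀ u q, Sq u q → ∀ s ∈ Icc s₀ s₁, deriv (fun s => β (u, q, s)) s ≠ 0 := by
    intro u q h s hs
    by_cases h1 : ρ (u, q) = 0
    · have e : (fun s => β (u, q, s)) = fun s => α (u, q, s) := funext fun s => hβρ u q s h1
      rw [e]
      exact (hemb u q h (hNb u q (hρz u q h1))).2 s hs
    · by_cases h2 : χ s = 0
      · have e := hasDerivAt_frozen (ρ := ρ) hα hχ (fun s => hat_nonneg _ _ s) p u q s h2 (by
          rcases hχz s h2 with h3 | h3
          · filter_upwards [Iio_mem_nhds (show s < s₀ + 2 * δ by linarith)] with r hr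
            exact hfroz u q r (Or.inl (le_of_lt hr))
          · filter_upwards [Ioi_mem_nhds (show s₁ - 2 * δ < s by linarith)] with r hr
            exact hfroz u q r (Or.inr (le_of_lt hr)))
        rw [hβdef, e]
        exact (hemb 0 0 hSq0 hNb0).2 s hs
      · exact hgp.imm u q s h1 h2
  let D : Set (ℝ × ℝ × ℝ × ℝ) := {d | Sq d.1 d.2.1 ∧ d.2.2.1 ∈ Icc s₀ s₁ ∧ d.2.2.2 ∈ Icc s₀ s₁ ∧
    d.2.2.1 < d.2.2.2 ∧ β (d.1, d.2.1, d.2.2.1) = β (d.1, d.2.1, d.2.2.2)}
  have hDρ : ∀ d ∈ D, ρ (d.1, d.2.1) ≠ 0 := by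
    rintro ⟨u, q, s, t⟩ ⟨h1, h2, h3, h4, h5⟩ h
    simp only at h1 h2 h3 h4 h5 h
    rw [hβρ u q s h, hβρ u q t h] at h5
    exact h4.ne ((hemb u q h1 (hNb u q (hρz u q h))).1 h2 h3 h5)
  have hDχ : ∀ d ∈ D, χ d.2.2.1 ≠ 0 ∨ χ d.2.2.2 ≠ 0 := by
    rintro ⟨u, q, s, t⟩ ⟨h1, h2, h3, h4, h5⟩
    simp only at h1 h2 h3 h4 h5 ⊢
    by_contra hcon
    push Not at hcon
    rw [hβχ u q s hcon.1, hβχ u q t hcon.2] at h5
    exact h4.ne (hinj0 h2 h3 h5)
  have hDt : ∀ d ∈ D, Function.Injective (fderiv ℝ (dbl β) d) := by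
    intro d hd
    obtain ⟨u, q, s, t⟩ := d
    exact hgp.trans u q s t (hDρ _ hd) hd.2.2.2.1.ne (hDχ _ hd) hd.2.2.2.2
  have hdbl : ContDiff ℝ ∞ (dbl β) := by
    unfold dbl
    exact (hβ.comp (by fun_prop)).sub (hβ.comp (by fun_prop))
  -- separation
  have hsep : ∀ d ∈ D, ∀ d' ∈ D, (d.1 = d'.1 ∨ d.2.1 = d'.2.1) → d = d' := by
    intro d hd d' hd' hor
    by_contra hne
    have r1 := hDρ d hd
    have r2 := hDρ d' hd'
    have x1 := hDχ d hd
    have x2 := hDχ d' hd'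
    obtain ⟨u, q, s, t⟩ := d
    obtain ⟨u', q', s', t'⟩ := d'
    obtain ⟨a1, a2, a3, a4, a5⟩ := hd
    obtain ⟨b1, b2, b3, b4, b5⟩ := hd'
    simp only at r1 r2 x1 x2 a1 a2 a3 a4 a5 b1 b2 b3 b4 b5 hor
    by_cases huq : (u, q) = (u', q')
    · rw [Prod.mk.injEq] at huq
      obtain ⟨rfl, rfl⟩ := huq
      have n3 : ¬ (s = s' ∧ t = t') := by
        rintro ⟨rfl, rfl⟩
        exact hne rfl
      have n4 : ¬ (s = t' ∧ t = s') := by
        rintro ⟨e1, e2⟩
        linarith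
      refine hgp.one u q s t s' t' r1 ⟨a4.ne, b4.ne, n3, n4, x1, x2, ?_, ?_, ?_, ?_⟩ a5 b5
      · intro e
        by_contra hcon
        push Not at hcon
        apply n3
        refine ⟨e, hinj0 a3 b3 ?_⟩
        simp only
        rw [← hβχ u q t hcon.1, ← hβχ u q t' hcon.2, ← a5, ← b5, e]
      · intro e
        by_contra hcon
        push Not at hcon
        apply n4
        refine ⟨e, hinj0 a3 b2 ?_⟩
        simp only
        rw [← hβχ u q t hcon.1, ← hβχ u q s' hcon.2, ← a5, b5, e]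
      · intro e
        by_contra hcon
        push Not at hcon
        apply n4
        refine ⟨hinj0 a2 b3 ?_, e⟩
        simp only
        rw [← hβχ u q s hcon.1, ← hβχ u q t' hcon.2, a5, ← b5, e]
      · intro e
        by_contra hcon
        push Not at hcon
        apply n3
        refine ⟨hinj0 a2 b2 ?_, e⟩
        simp only
        rw [← hβχ u q s hcon.1, ← hβχ u q s' hcon.2, a5, b5, e]
    · exact hgp.sep u q u' q' s t s' t' huq hor r1 r2 a4.ne b4.ne x1 x2 a5 b5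
  refine ⟨β, D, ⟨hβ, ?_, ?_, hoffβ, himm, ?_, ?_, ?_, ?_, ?_⟩⟩
  · intro u q s hs
    exact hβχ u q s (hχz' s hs)
  · intro u q s h
    exact hβρ u q s (hρz' u q h)
  · -- finiteness
    by_contra hinf
    have hinf' : D.Infinite := hinf
    have hsub : D ⊆ Icc (0 : ℝ) 1 ×ˢ (Icc (0 : ℝ) 1 ×ˢ (Icc s₀ s₁ ×ˢ Icc s₀ s₁)) := by
      rintro ⟨u, q, s, t⟩ ⟨h1, h2, h3, h4, h5⟩
      exact ⟨h1.1, h1.2, h2, h3⟩
    obtain ⟨x, hx, hacc⟩ := hinf'.exists_accPt_of_subset_isCompact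
      (isCompact_Icc.prod (isCompact_Icc.prod (isCompact_Icc.prod isCompact_Icc))) hsub
    have hle : x.2.2.1 ≤ x.2.2.2 := by
      have hcl : IsClosed {y : ℝ × ℝ × ℝ × ℝ | y.2.2.1 ≤ y.2.2.2} :=
        isClosed_le (by fun_prop) (by fun_prop)
      have h1 : x ∈ closure {y : ℝ × ℝ × ℝ × ℝ | y.2.2.1 ≤ y.2.2.2} := by
        rw [mem_closure_iff_clusterPt]
        refine hacc.clusterPt.mono ?_
        rw [Filter.principal_mono]
        exact fun y hy => hy.2.2.2.1.le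
      rwa [hcl.closure_eq] at h1
    rw [accPt_iff_nhds] at hacc
    obtain ⟨u, q, s, t⟩ := x
    obtain ⟨hx1, hx2, hx3, hx4⟩ := hx
    simp only at hle hx1 hx2 hx3 hx4
    rcases hle.lt_or_eq with hlt | rfl
    · by_cases hval : β (u, q, s) = β (u, q, t)
      · have hxD : (u, q, s, t) ∈ D := ⟨⟨hx1, hx2⟩, hx3, hx4, hlt, hval⟩
        obtain ⟨U, hU, hUi⟩ := locInj (by simp [Complex.finrank_real_complex]) hdbl (hDt _ hxD)
        obtain ⟨y, ⟨hyU, hyD⟩, hne⟩ := hacc U hU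
        apply hne
        refine hUi hyU (mem_of_mem_nhds hU) ?_
        have e1 : dbl β y = 0 := sub_eq_zero.2 hyD.2.2.2.2
        have e2 : dbl β (u, q, s, t) = 0 := sub_eq_zero.2 hval
        rw [e1, e2]
      · have hop : IsOpen {y : ℝ × ℝ × ℝ × ℝ | β (y.1, y.2.1, y.2.2.1) ≠
            β (y.1, y.2.1, y.2.2.2)} :=
          isOpen_ne_fun (hβ.continuous.comp (by fun_prop)) (hβ.continuous.comp (by fun_prop))
        obtain ⟨y, ⟨hyU, hyD⟩, -⟩ := hacc _ (hop.mem_nhds hval)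
        exact hyU hyD.2.2.2.2
    · obtain ⟨N, hN, hNy⟩ := near_diag hβ (himm u q ⟨hx1, hx2⟩ s hx3)
      obtain ⟨y, ⟨hyU, hyD⟩, -⟩ := hacc N hN
      exact hNy y hyU hyD.2.2.2.1 hyD.2.2.2.2
  · intro u q h s hs t ht hst he
    exact ⟨h, hs, ht, hst, he⟩
  · intro u q s t hd
    have r1 := hDρ _ hd
    have x1 := hDχ _ hd
    have t1 := hDt _ hd
    obtain ⟨a1, a2, a3, a4, a5⟩ := hd
    simp only at r1 x1 a1 a2 a3 a4 a5
    obtain ⟨i1, i2⟩ := hρi u q r1
    refine ⟨i1, i2, a2, a3, a4, a5, ?_, t1⟩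
    rcases x1 with h | h
    · exact hoffβ u q a1 s ⟨(hχi s h).1.le, (hχi s h).2.le⟩
    · rw [a5]
      exact hoffβ u q a1 t ⟨(hχi t h).1.le, (hχi t h).2.le⟩
  · intro d hd d' hd' h
    exact hsep d hd d' hd' (Or.inl h)
  · intro d hd d' hd' h
    exact hsep d hd d' hd' (Or.inr h)

end Pool.Agent.Helper34.BI.H


end

/-! ## Helper34.BI.H.BarP -/

section

/-!
# Project BI, stage 3, section 7: general position for one arc
-/

set_option autoImplicit false

open Module Set Filter Topology MeasureTheory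
open scoped ContDiff Manifold
open Pool.Agent.Helper65.Barb Pool.Agent.Helper18.BI

namespace Pool.Agent.Helper34.BI.H

namespace BarP

abbrev PP : Type := R4 × R4

noncomputable def L2 (α β : ℝ) : PP →L[ℝ] R4 :=
  α • ContinuousLinearMap.fst ℝ R4 R4 + β • ContinuousLinearMap.snd ℝ R4 R4

theorem L2_apply (α β : ℝ) (p : PP) : L2 α β p = α • p.1 + β • p.2 := rfl

theorem L2_surj {α β : ℝ} (h : α ≠ 0 ∨ β ≠ 0) : Function.Surjective (L2 α β) := by
  intro y
  rcases h with h | h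
  · exact ⟨(α⁻¹ • y, 0), by simp [L2_apply, smul_smul, mul_inv_cancel₀ h]⟩
  · exact ⟨(0, β⁻¹ • y), by simp [L2_apply, smul_smul, mul_inv_cancel₀ h]⟩

theorem diff_L2 {X : Type} [NormedAddCommGroup X] [NormedSpace ℝ X] {α β : X → ℝ}
    (hα : Differentiable ℝ α) (hβ : Differentiable ℝ β) :
    Differentiable ℝ (fun x => L2 (α x) (β x)) := by
  unfold L2
  exact (hα.smul_const _).add (hβ.smul_const _)

theorem finrank_R4 : finrank ℝ R4 = 4 := by
  simp [finrank_prod]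

/-- one arc in general position -/
theorem exists_arc {γ : ℝ → R4} {χ : ℝ → ℝ} {f : Bool → ℂ → R4} (hγ : ContDiff ℝ ∞ γ)
    (hχ : ContDiff ℝ ∞ χ) (hf : ∀ b, ContDiff ℝ ∞ (f b)) {ε : ℝ} (hε : 0 < ε) :
    ∃ v w : R4, ‖v‖ < ε ∧ ‖w‖ < ε ∧
      (∀ u u', u ≠ u' → (χ u ≠ 0 ∨ χ u' ≠ 0) →
        γ u + χ u • (v + u • w) ≠ γ u' + χ u' • (v + u' • w)) ∧
      (∀ u, χ u ≠ 0 → deriv (fun u => γ u + χ u • (v + u • w)) u ≠ 0) ∧
      ∀ b u y, χ u ≠ 0 → γ u + χ u • (v + u • w) ≠ f b y := by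
  have hNP := m_NP1
  have hγd : Differentiable ℝ γ := hγ.differentiable (by simp)
  have hχd : Differentiable ℝ χ := hχ.differentiable (by simp)
  have hγ' : Differentiable ℝ (deriv γ) :=
    (ContDiff.deriv' (n := ∞) (by simpa using hγ)).differentiable (by simp)
  have hχ' : Differentiable ℝ (deriv χ) :=
    (ContDiff.deriv' (n := ∞) (by simpa using hχ)).differentiable (by simp)
  obtain ⟨μ, hμ⟩ : ∃ μ : Measure PP, μ.IsAddHaarMeasure := ⟨Measure.addHaar, inferInstance⟩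
  -- double points
  have n1 : μ {p : PP | ∃ x ∈ {x : ℝ × ℝ | x.1 ≠ x.2 ∧ (χ x.1 ≠ 0 ∨ χ x.2 ≠ 0)},
      L2 (χ x.1 - χ x.2) (x.1 * χ x.1 - x.2 * χ x.2) p = γ x.2 - γ x.1} = 0 := by
    refine hNP (ℝ × ℝ) PP R4 μ _ _ _ ?_ ?_ ?_ ?_
    · rw [finrank_R4]; simp [finrank_prod]
    · have h1 : Differentiable ℝ (fun x : ℝ × ℝ => χ x.1) := hχd.comp differentiable_fst
      have h2 : Differentiable ℝ (fun x : ℝ × ℝ => χ x.2) := hχd.comp differentiable_snd
      exact (diff_L2 (h1.sub h2) ((differentiable_fst.mul h1).sub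
        (differentiable_snd.mul h2))).differentiableOn
    · exact ((hγd.comp differentiable_snd).sub (hγd.comp differentiable_fst)).differentiableOn
    · rintro ⟨u, u'⟩ ⟨h1, h2⟩
      simp only at h1 h2
      apply L2_surj
      by_contra hcon
      push Not at hcon
      obtain ⟨h3, h4⟩ := hcon
      simp only at h3 h4
      have h5 : χ u = χ u' := by linarith
      have h6 : (u - u') * χ u' = 0 := by
        rw [h5] at h4
        linarith
      rcases mul_eq_zero.1 h6 with h7 | h7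
      · exact h1 (by linarith)
      · rw [h7] at h5
        rcases h2 with h2 | h2
        · exact h2 h5
        · exact h2 h7
  -- immersions
  have n2 : μ {p : PP | ∃ u ∈ {u : ℝ | χ u ≠ 0},
      L2 (deriv χ u) (u * deriv χ u + χ u) p = - deriv γ u} = 0 := by
    refine hNP ℝ PP R4 μ _ _ _ ?_ ?_ ?_ ?_
    · rw [finrank_R4]; simp
    · exact (diff_L2 hχ' ((differentiable_id.mul hχ').add hχd)).differentiableOn
    · exact hγ'.neg.differentiableOn
    · intro u hu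
      apply L2_surj
      by_contra hcon
      push Not at hcon
      obtain ⟨h3, h4⟩ := hcon
      rw [h3, mul_zero, zero_add] at h4
      exact hu h4
  -- the surfaces
  have n3 : ∀ b, μ {p : PP | ∃ x ∈ {x : ℝ × ℂ | χ x.1 ≠ 0},
      L2 (χ x.1) (x.1 * χ x.1) p = f b x.2 - γ x.1} = 0 := by
    intro b
    refine hNP (ℝ × ℂ) PP R4 μ _ _ _ ?_ ?_ ?_ ?_
    · rw [finrank_R4]; simp [finrank_prod]
    · have h1 : Differentiable ℝ (fun x : ℝ × ℂ => χ x.1) := hχd.comp differentiable_fst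
      exact (diff_L2 h1 (differentiable_fst.mul h1)).differentiableOn
    · exact ((((hf b).differentiable (by simp)).comp differentiable_snd).sub
        (hγd.comp differentiable_fst)).differentiableOn
    · rintro ⟨u, y⟩ hu
      exact L2_surj (Or.inl hu)
  let B : Set PP := {p : PP | ∃ x ∈ {x : ℝ × ℝ | x.1 ≠ x.2 ∧ (χ x.1 ≠ 0 ∨ χ x.2 ≠ 0)},
      L2 (χ x.1 - χ x.2) (x.1 * χ x.1 - x.2 * χ x.2) p = γ x.2 - γ x.1} ∪
    ({p : PP | ∃ u ∈ {u : ℝ | χ u ≠ 0},
      L2 (deriv χ u) (u * deriv χ u + χ u) p = - deriv γ u} ∪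
    ⋃ b, {p : PP | ∃ x ∈ {x : ℝ × ℂ | χ x.1 ≠ 0},
      L2 (χ x.1) (x.1 * χ x.1) p = f b x.2 - γ x.1})
  have hB : μ B = 0 := by
    refine measure_union_null n1 (measure_union_null n2 (measure_iUnion_null n3))
  have hpos : 0 < μ (Metric.ball (0 : PP) ε) := Metric.isOpen_ball.measure_pos μ
    ⟨0, Metric.mem_ball_self hε⟩
  obtain ⟨⟨v, w⟩, h1, h2⟩ : ∃ p, p ∈ Metric.ball (0 : PP) ε ∧ p ∉ B := by
    by_contra hcon
    push Not at hcon
    have : μ (Metric.ball (0 : PP) ε) ≤ μ B := measure_mono hcon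
    rw [hB] at this
    exact absurd this (not_le.2 hpos)
  rw [mem_ball_zero_iff, Prod.norm_def, max_lt_iff] at h1
  have hB1 : ∀ u u', u ≠ u' → (χ u ≠ 0 ∨ χ u' ≠ 0) →
      L2 (χ u - χ u') (u * χ u - u' * χ u') (v, w) ≠ γ u' - γ u := by
    intro u u' h3 h4 h5
    exact h2 (Or.inl ⟨(u, u'), ⟨h3, h4⟩, h5⟩)
  have hB2 : ∀ u, χ u ≠ 0 → L2 (deriv χ u) (u * deriv χ u + χ u) (v, w) ≠ - deriv γ u := by
    intro u h3 h4
    exact h2 (Or.inr (Or.inl ⟨u, h3, h4⟩))
  have hB3 : ∀ b u y, χ u ≠ 0 → L2 (χ u) (u * χ u) (v, w) ≠ f b y - γ u := by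
    intro b u y h3 h4
    exact h2 (Or.inr (Or.inr (mem_iUnion.2 ⟨b, (u, y), h3, h4⟩)))
  refine ⟨v, w, h1.1, h1.2, fun u u' h3 h4 h5 => hB1 u u' h3 h4 ?_, fun u h3 h4 => hB2 u h3 ?_,
    fun b u y h3 h4 => hB3 b u y h3 ?_⟩
  · rw [L2_apply]
    simp only
    have : (χ u - χ u') • v + (u * χ u - u' * χ u') • w =
        χ u • (v + u • w) - χ u' • (v + u' • w) := by module
    rw [this, sub_eq_sub_iff_add_eq_add, add_comm, h5]
  · rw [L2_apply]
    simp only
    have d1 : HasDerivAt (fun u => γ u + χ u • (v + u • w))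
        (deriv γ u + (χ u • w + deriv χ u • (v + u • w))) u := by
      have a1 : HasDerivAt (fun r : ℝ => v + r • w) w u := by
        simpa using ((hasDerivAt_id u).smul_const w).const_add v
      exact (hγd u).hasDerivAt.add ((hχd u).hasDerivAt.smul a1)
    rw [d1.deriv] at h4
    have : deriv χ u • v + (u * deriv χ u + χ u) • w =
        (χ u • w + deriv χ u • (v + u • w)) := by module
    rw [this, eq_neg_iff_add_eq_zero, add_comm, h4]
  · rw [L2_apply]
    simp only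
    have : χ u • v + (u * χ u) • w = χ u • (v + u • w) := by module
    rw [this, eq_sub_iff_add_eq, add_comm, h4]

end BarP

end Pool.Agent.Helper34.BI.H


end

/-! ## Helper34.BI5.VK1 -/

section

/-!
# Relations on homotopy classes of paths in the complement of a closed set

An equivalence relation on the homotopy classes of paths from `y₀` in the complement of `K` which is invariant
under right composition and trivial for short paths relates all paths with the same ends, if balls minus `K` are path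
connected.
-/

set_option autoImplicit false

open Set Metric unitInterval
open scoped Topology

namespace Pool.Agent.Helper34.S5

/-- the complement -/
abbrev Off {E : Type} (K : Set E) : Type := {x : E // x ∉ K}

/-- homotopy classes of paths in the complement -/
abbrev Hom {E : Type} [TopologicalSpace E] (K : Set E) (x y : Off K) : Type :=
  Path.Homotopic.Quotient x y

/-- the class of a path -/
abbrev cl {E : Type} [TopologicalSpace E] {K : Set E} {x y : Off K} (p : Path x y) : Hom K x y :=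
  Path.Homotopic.Quotient.mk p

/-- equivalence relation on homotopy classes of paths from `y₀`, invariant under right composition -/
structure RelP {E : Type} [TopologicalSpace E] (K : Set E) (y₀ : Off K)
    (R : ∀ y : Off K, Hom K y₀ y → Hom K y₀ y → Prop) : Prop where
  refl : ∀ y g, R y g g
  symm : ∀ y g g', R y g g' → R y g' g
  trans : ∀ y g g' g'', R y g g' → R y g' g'' → R y g g''
  comp : ∀ (y y' : Off K) (g g' : Hom K y₀ y) (b : Hom K y y'), R y g g' →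
    R y' (g.trans b) (g'.trans b)

/-- two paths in a good set with the same ends are equivalent after any path from `y₀` -/
def Good {E : Type} [TopologicalSpace E] (K : Set E) (y₀ : Off K)
    (R : ∀ y : Off K, Hom K y₀ y → Hom K y₀ y → Prop) (V : Set E) : Prop :=
  ∀ (y y' : Off K) (b b' : Path y y'), (∀ t, (b t : E) ∈ V) → (∀ t, (b' t : E) ∈ V) →
    ∀ g : Hom K y₀ y, R y' (g.trans (cl b)) (g.trans (cl b'))

theorem Good.mono {E : Type} [TopologicalSpace E] {K : Set E} {y₀ : Off K}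
    {R : ∀ y : Off K, Hom K y₀ y → Hom K y₀ y → Prop} {V V' : Set E} (h : Good K y₀ R V)
    (hV : V' ⊆ V) : Good K y₀ R V' :=
  fun y y' b b' hb hb' g => h y y' b b' (fun t => hV (hb t)) (fun t => hV (hb' t)) g

section
variable {E : Type} [NormedAddCommGroup E] {K : Set E}

theorem exists_off (hPC : ∀ (c : E) (r : ℝ), 0 < r → IsPathConnected (ball c r \ K)) (c : E)
    {r : ℝ} (hr : 0 < r) : ∃ y : Off K, (y : E) ∈ ball c r := by
  obtain ⟨y, hy⟩ := (hPC c r hr).nonempty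
  exact ⟨⟨y, hy.2⟩, hy.1⟩

theorem exists_path (hPC : ∀ (c : E) (r : ℝ), 0 < r → IsPathConnected (ball c r \ K)) (c : E)
    {r : ℝ} (hr : 0 < r) (y y' : Off K) (hy : (y : E) ∈ ball c r) (hy' : (y' : E) ∈ ball c r) :
    ∃ b : Path y y', ∀ t, (b t : E) ∈ ball c r := by
  obtain ⟨p, hp⟩ := (hPC c r hr).joinedIn (y : E) ⟨hy, y.2⟩ (y' : E) ⟨hy', y'.2⟩
  refine ⟨⟨⟨fun t => ⟨p t, (hp t).2⟩, ?_⟩, ?_, ?_⟩, fun t => (hp t).1⟩
  · exact p.continuous.subtype_mk _
  · exact Subtype.ext p.source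
  · exact Subtype.ext p.target

variable {y₀ : Off K} {R : ∀ y : Off K, Hom K y₀ y → Hom K y₀ y → Prop}

/-- the data of a grid -/
structure Grid (K : Set E) (y₀ y : Off K) (R : ∀ y : Off K, Hom K y₀ y → Hom K y₀ y → Prop) where
  δ : ℝ
  N : ℕ
  h : ℕ → ℕ → E
  p : ℕ → ℕ → Off K
  b : ∀ i j, Path (p i j) (p i (j + 1))
  c : ∀ i j, Path (p i j) (p (i + 1) j)
  s : ∀ i, Path y₀ (p i 0)
  e : ∀ i, Path (p i N) y
  hb : ∀ i j t, (b i j t : E) ∈ ball (h i j) (δ / 2)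
  hc : ∀ i j t, (c i j t : E) ∈ ball (h i j) (δ / 2)
  hs : ∀ i t, (s i t : E) ∈ ball (y₀ : E) (δ / 2)
  he : ∀ i t, (e i t : E) ∈ ball (y : E) (δ / 2)
  h1 : ∀ i j, dist (h i (j + 1)) (h i j) < δ / 8
  h2 : ∀ i j, dist (h (i + 1) j) (h i j) < δ / 8
  h3 : ∀ i, h i 0 = y₀
  h4 : ∀ i, h i N = y
  pos : 0 < δ
  good : ∀ i j, Good K y₀ R (ball (h i j) δ)

theorem cast_trans {x y z x' : Off K} (P : Hom K x y) (Q : Hom K y z) (hx : x' = x) :
    Path.Homotopic.Quotient.trans (P.cast hx rfl) Q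
      = Path.Homotopic.Quotient.cast (P.trans Q) hx rfl := by
  subst hx
  rw [Path.Homotopic.Quotient.cast_rfl_rfl, Path.Homotopic.Quotient.cast_rfl_rfl]

theorem trans_cast {x y z z' : Off K} (P : Hom K x y) (Q : Hom K y z) (hz : z' = z) :
    Path.Homotopic.Quotient.trans P (Q.cast rfl hz)
      = Path.Homotopic.Quotient.cast (P.trans Q) rfl hz := by
  subst hz
  rw [Path.Homotopic.Quotient.cast_rfl_rfl, Path.Homotopic.Quotient.cast_rfl_rfl]

theorem subpath_trans {x y : Off K} (v : Path x y) (t₀ t₁ t₂ : I) :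
    Path.Homotopic.Quotient.trans (cl (v.subpath t₀ t₁)) (cl (v.subpath t₁ t₂))
      = cl (v.subpath t₀ t₂) := by
  rw [← Path.Homotopic.Quotient.mk_trans, Path.Homotopic.Quotient.eq]
  exact ⟨Path.Homotopy.subpathTransSubpath v t₀ t₁ t₂⟩

theorem subpath_const {x y : Off K} (v : Path x y) (t₀ t₁ : I) (h : t₀ = t₁) (u : I) :
    (v.subpath t₀ t₁) u = v t₁ := by
  subst h
  rw [Path.subpath_self]
  rfl

namespace Grid

variable {y : Off K} (G : Grid K y₀ y R)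

/-- the rows -/
noncomputable def row (i : ℕ) : ∀ j, Hom K (G.p i 0) (G.p i j)
  | 0 => Path.Homotopic.Quotient.refl _
  | j + 1 => (row i j).trans (cl (G.b i j))

theorem mem_trans {x y z : Off K} {V : Set E} (b : Path x y) (c : Path y z)
    (hb : ∀ t, (b t : E) ∈ V) (hc : ∀ t, (c t : E) ∈ V) (t : I) : ((b.trans c) t : E) ∈ V := by
  rw [Path.trans_apply]
  split_ifs
  · exact hb _
  · exact hc _

theorem square (i j : ℕ) (g : Hom K y₀ (G.p i j)) :
    R _ (g.trans ((cl (G.b i j)).trans (cl (G.c i (j + 1)))))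
      (g.trans ((cl (G.c i j)).trans (cl (G.b (i + 1) j)))) := by
  have hp := G.pos
  refine G.good i j _ _ ((G.b i j).trans (G.c i (j + 1))) ((G.c i j).trans (G.b (i + 1) j)) ?_ ?_ g
  · refine mem_trans _ _ (fun t => ball_subset_ball (by linarith) (G.hb i j t)) fun t => ?_
    have h1 := G.hc i (j + 1) t
    have h2 := G.h1 i j
    rw [mem_ball] at h1 ⊢
    linarith [dist_triangle (G.c i (j + 1) t : E) (G.h i (j + 1)) (G.h i j)]
  · refine mem_trans _ _ (fun t => ball_subset_ball (by linarith) (G.hc i j t)) fun t => ?_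
    have h1 := G.hb (i + 1) j t
    have h2 := G.h2 i j
    rw [mem_ball] at h1 ⊢
    linarith [dist_triangle (G.b (i + 1) j t : E) (G.h (i + 1) j) (G.h i j)]

theorem row_rel (hR : RelP K y₀ R) (i j : ℕ) (g : Hom K y₀ (G.p i 0)) :
    R _ (g.trans ((G.row i j).trans (cl (G.c i j))))
      (g.trans ((cl (G.c i 0)).trans (G.row (i + 1) j))) := by
  induction j with
  | zero =>
    simp only [row, Path.Homotopic.Quotient.refl_trans, Path.Homotopic.Quotient.trans_refl]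
    exact hR.refl _ _
  | succ j ih =>
    have h1 := G.square i j (g.trans (G.row i j))
    have h2 := hR.comp _ _ _ _ (cl (G.b (i + 1) j)) ih
    simp only [Path.Homotopic.Quotient.trans_assoc] at h1 h2
    simp only [row, Path.Homotopic.Quotient.trans_assoc]
    exact hR.trans _ _ _ _ h1 h2

/-- the path of row `i` -/
noncomputable def full (i : ℕ) : Hom K y₀ y :=
  (cl (G.s i)).trans ((G.row i G.N).trans (cl (G.e i)))

theorem full_step (hR : RelP K y₀ R) (i : ℕ) : R _ (G.full i) (G.full (i + 1)) := by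
  have hp := G.pos
  have h1 : R _ (((cl (G.s i)).trans (G.row i G.N)).trans (cl (G.e i)))
      (((cl (G.s i)).trans (G.row i G.N)).trans (cl ((G.c i G.N).trans (G.e (i + 1))))) := by
    refine G.good i G.N _ _ _ _ ?_ ?_ _
    · intro t
      rw [G.h4]
      exact ball_subset_ball (by linarith) (G.he i t)
    · refine mem_trans _ _ (fun t => ball_subset_ball (by linarith) (G.hc i G.N t)) fun t => ?_
      rw [G.h4]
      exact ball_subset_ball (by linarith) (G.he (i + 1) t)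
  have h2 := hR.comp _ _ _ _ (cl (G.e (i + 1))) (G.row_rel hR i G.N (cl (G.s i)))
  have h3 : R _ ((Path.Homotopic.Quotient.refl y₀).trans (cl ((G.s i).trans (G.c i 0))))
      ((Path.Homotopic.Quotient.refl y₀).trans (cl (G.s (i + 1)))) := by
    refine G.good i 0 _ _ _ _ ?_ ?_ _
    · refine mem_trans _ _ (fun t => ?_) fun t => ball_subset_ball (by linarith) (G.hc i 0 t)
      rw [G.h3]
      exact ball_subset_ball (by linarith) (G.hs i t)
    · intro t
      rw [G.h3]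
      exact ball_subset_ball (by linarith) (G.hs (i + 1) t)
  have h4 := hR.comp _ _ _ _ ((G.row (i + 1) G.N).trans (cl (G.e (i + 1)))) h3
  simp only [cl, Path.Homotopic.Quotient.mk_trans, Path.Homotopic.Quotient.trans_assoc,
    Path.Homotopic.Quotient.refl_trans] at h1 h2 h4
  unfold full
  exact hR.trans _ _ _ _ h1 (hR.trans _ _ _ _ h2 h4)

theorem full_rel (hR : RelP K y₀ R) (i : ℕ) : R _ (G.full 0) (G.full i) := by
  induction i with
  | zero => exact hR.refl _ _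
  | succ i ih => exact hR.trans _ _ _ _ ih (G.full_step hR i)

/-- a row which is close to a path in the complement -/
theorem full_path (hR : RelP K y₀ R)
    (hPC : ∀ (c : E) (r : ℝ), 0 < r → IsPathConnected (ball c r \ K)) (v : Path y₀ y) (i : ℕ)
    (t : ℕ → I) (h0 : t 0 = 0) (hN : t G.N = 1) (hv : ∀ j, (v (t j) : E) = G.h i j)
    (hvv : ∀ j, ∀ u ∈ uIcc (t j) (t (j + 1)), dist (v u : E) (G.h i j) < G.δ / 2)
    (hp : ∀ j, (G.p i j : E) ∈ ball (G.h i j) (G.δ / 2)) : R _ (cl v) (G.full i) := by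
  have hpos := G.pos
  have hk : ∀ j, ∃ k : Path (v (t j)) (G.p i j), ∀ u, (k u : E) ∈ ball (G.h i j) (G.δ / 2) := by
    intro j
    refine exists_path hPC _ (by linarith) _ _ ?_ (hp j)
    rw [hv j]
    exact mem_ball_self (by linarith)
  choose k hk using hk
  obtain ⟨S, hS⟩ : ∃ S : ∀ j, Hom K y₀ (v (t j)),
      ∀ j, S j = (cl (v.subpath 0 (t j))).cast v.source.symm rfl := ⟨_, fun j => rfl⟩
  have hSj : ∀ j, S (j + 1) = (S j).trans (cl (v.subpath (t j) (t (j + 1)))) := by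
    intro j
    rw [hS, hS, cast_trans, subpath_trans]
  have hsub : ∀ j u, ((v.subpath (t j) (t (j + 1))) u : E) ∈ ball (G.h i j) (G.δ / 2) := by
    intro j u
    have h1 : (v.subpath (t j) (t (j + 1))) u ∈ range (v.subpath (t j) (t (j + 1))) := ⟨u, rfl⟩
    rw [Path.range_subpath] at h1
    obtain ⟨u', hu', h2⟩ := h1
    rw [← h2]
    exact hvv j u' hu'
  have hC : ∀ j, R _ ((S j).trans (cl (k j))) ((cl (G.s i)).trans (G.row i j)) := by
    intro j
    induction j with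
    | zero =>
      have h3 : R _ ((Path.Homotopic.Quotient.refl y₀).trans
          (cl (((v.subpath 0 (t 0)).cast v.source.symm rfl).trans (k 0))))
          ((Path.Homotopic.Quotient.refl y₀).trans (cl (G.s i))) := by
        refine G.good i 0 _ _ _ _ ?_ ?_ _
        · refine mem_trans _ _ (fun u => ?_) fun u => ball_subset_ball (by linarith) (hk 0 u)
          rw [Path.cast_coe, subpath_const v 0 (t 0) h0.symm u, hv 0]
          exact mem_ball_self hpos
        · intro u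
          rw [G.h3]
          exact ball_subset_ball (by linarith) (G.hs i u)
      rw [hS]
      simp only [Path.Homotopic.Quotient.refl_trans, cl, Path.Homotopic.Quotient.mk_trans,
        Path.Homotopic.Quotient.mk_cast] at h3
      simpa only [row, Path.Homotopic.Quotient.trans_refl] using h3
    | succ j ih =>
      have h3 : R _ ((S j).trans (cl ((v.subpath (t j) (t (j + 1))).trans (k (j + 1)))))
          ((S j).trans (cl ((k j).trans (G.b i j)))) := by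
        refine G.good i j _ _ _ _ ?_ ?_ _
        · refine mem_trans _ _ (fun u => ball_subset_ball (by linarith) (hsub j u)) fun u => ?_
          have h5 := hk (j + 1) u
          have h6 := G.h1 i j
          rw [mem_ball] at h5 ⊢
          linarith [dist_triangle (k (j + 1) u : E) (G.h i (j + 1)) (G.h i j)]
        · exact mem_trans _ _ (fun u => ball_subset_ball (by linarith) (hk j u)) fun u =>
            ball_subset_ball (by linarith) (G.hb i j u)
      have h4 := hR.comp _ _ _ _ (cl (G.b i j)) ih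
      rw [hSj j]
      simp only [cl, Path.Homotopic.Quotient.mk_trans, Path.Homotopic.Quotient.trans_assoc] at h3 h4 ⊢
      simp only [row]
      exact hR.trans _ _ _ _ h3 h4
  have h1 : R _ ((S G.N).trans (cl ((v.subpath (t G.N) 1).cast rfl v.target.symm)))
      ((S G.N).trans (cl ((k G.N).trans (G.e i)))) := by
    refine G.good i G.N _ _ _ _ ?_ ?_ _
    · intro u
      rw [Path.cast_coe, subpath_const v (t G.N) 1 hN u, ← hN, hv G.N]
      exact mem_ball_self hpos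
    · refine mem_trans _ _ (fun u => ball_subset_ball (by linarith) (hk G.N u)) fun u => ?_
      rw [G.h4]
      exact ball_subset_ball (by linarith) (G.he i u)
  have h2 := hR.comp _ _ _ _ (cl (G.e i)) (hC G.N)
  have h3 : (S G.N).trans (cl ((v.subpath (t G.N) 1).cast rfl v.target.symm)) = cl v := by
    have e1 : cl ((v.subpath (t G.N) 1).cast rfl v.target.symm)
        = (cl (v.subpath (t G.N) 1)).cast rfl v.target.symm := rfl
    have e2 : cl (v.subpath 0 1) = (cl v).cast v.source v.target := by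
      rw [Path.subpath_zero_one]
      rfl
    rw [hS, e1, cast_trans, trans_cast, subpath_trans, e2, Path.Homotopic.Quotient.cast_cast,
      Path.Homotopic.Quotient.cast_cast, Path.Homotopic.Quotient.cast_rfl_rfl]
  rw [h3] at h1
  unfold full
  simp only [cl, Path.Homotopic.Quotient.mk_trans, Path.Homotopic.Quotient.trans_assoc] at h1 h2 ⊢
  exact hR.trans _ _ _ _ h1 h2

end Grid

end

end Pool.Agent.Helper34.S5


end

/-! ## Helper34.BI5.VK3 -/

section

/-!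
# Punctured tubes

`Tub K V`: the complement of `K` near `K` is described by `exp`.  Short paths near `K` with the same ends differ by a
power of a meridian.
-/

set_option autoImplicit false

open Set Metric unitInterval
open scoped Topology

namespace Pool.Agent.Helper34.S5

section
variable {E : Type} [TopologicalSpace E] {K : Set E}

/-- linear path -/
noncomputable def lin {W : Type} [NormedAddCommGroup W] [NormedSpace ℝ W] (x y : W) : Path x y where
  toFun t := (1 - (t : ℝ)) • x + (t : ℝ) • y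
  continuous_toFun := by fun_prop
  source' := by simp
  target' := by simp

theorem lin_apply {W : Type} [NormedAddCommGroup W] [NormedSpace ℝ W] (x y : W) (t : I) :
    lin x y t = (1 - (t : ℝ)) • x + (t : ℝ) • y := rfl

theorem lift_trans {W : Type} [TopologicalSpace W] {q : W → E} {x y z : W} {x' y' z' : Off K}
    {a : Path x y} {a' : Path y z} {b : Path x' y'} {b' : Path y' z'}
    (h : ∀ t, q (a t) = (b t : E)) (h' : ∀ t, q (a' t) = (b' t : E)) (t : I) :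
    q ((a.trans a') t) = ((b.trans b') t : E) := by
  rw [Path.trans_apply, Path.trans_apply]
  split_ifs
  · exact h _
  · exact h' _

/-- paths with lifts to a convex set are homotopic -/
theorem lift_hom {W : Type} [NormedAddCommGroup W] [NormedSpace ℝ W] {Z : Set W}
    (hZ : Convex ℝ Z) {q : W → E} (hq : ContinuousOn q Z) (hoff : ∀ z ∈ Z, q z ∉ K)
    {z z' : W} {y y' : Off K} (a a' : Path z z') (b b' : Path y y') (ha : ∀ t, a t ∈ Z)
    (ha' : ∀ t, a' t ∈ Z) (hb : ∀ t, q (a t) = (b t : E)) (hb' : ∀ t, q (a' t) = (b' t : E)) :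
    cl b = cl b' := by
  rw [Path.Homotopic.Quotient.eq]
  have hin : ∀ w : I × I, (1 - (w.1 : ℝ)) • a w.2 + (w.1 : ℝ) • a' w.2 ∈ Z := by
    intro w
    exact hZ (ha _) (ha' _) (by linarith [w.1.2.2]) w.1.2.1 (by ring)
  have hc : Continuous fun w : I × I => q ((1 - (w.1 : ℝ)) • a w.2 + (w.1 : ℝ) • a' w.2) := by
    refine hq.comp_continuous ?_ hin
    fun_prop
  refine ⟨⟨⟨⟨fun w => ⟨q ((1 - (w.1 : ℝ)) • a w.2 + (w.1 : ℝ) • a' w.2), hoff _ (hin w)⟩,
    hc.subtype_mk _⟩, ?_, ?_⟩, ?_⟩⟩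
  · intro t
    apply Subtype.ext
    show q ((1 - ((0 : I) : ℝ)) • a t + ((0 : I) : ℝ) • a' t) = b t
    rw [← hb]
    simp
  · intro t
    apply Subtype.ext
    show q ((1 - ((1 : I) : ℝ)) • a t + ((1 : I) : ℝ) • a' t) = b' t
    rw [← hb']
    simp
  · intro t x hx
    have key : a x = a' x := by
      rcases hx with rfl | hx
      · rw [a.source, a'.source]
      · rw [mem_singleton_iff.1 hx, a.target, a'.target]
    apply Subtype.ext
    show q ((1 - (t : ℝ)) • a x + (t : ℝ) • a' x) = b x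
    rw [← hb, ← key, ← add_smul]
    simp

variable {y₀ : Off K} {R : ∀ y : Off K, Hom K y₀ y → Hom K y₀ y → Prop}

/-- invariance under right multiplication with a loop -/
def Inv (R : ∀ y : Off K, Hom K y₀ y → Hom K y₀ y → Prop) {y : Off K} (m : Hom K y y) : Prop :=
  ∀ g : Hom K y₀ y, R y (g.trans m) g

theorem inv_trans (hR : RelP K y₀ R) {y : Off K} {m m' : Hom K y y} (h : Inv R m)
    (h' : Inv R m') : Inv R (m.trans m') := by
  intro g
  rw [← Path.Homotopic.Quotient.trans_assoc]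
  exact hR.trans _ _ _ _ (h' _) (h _)

theorem inv_symm (hR : RelP K y₀ R) {y : Off K} {m : Hom K y y} (h : Inv R m) :
    Inv R m.symm := by
  intro g
  have h1 := h (g.trans m.symm)
  rw [Path.Homotopic.Quotient.trans_assoc, Path.Homotopic.Quotient.symm_trans,
    Path.Homotopic.Quotient.trans_refl] at h1
  exact hR.symm _ _ _ h1

theorem inv_refl (hR : RelP K y₀ R) (y : Off K) :
    Inv R (Path.Homotopic.Quotient.refl y) := by
  intro g
  rw [Path.Homotopic.Quotient.trans_refl]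
  exact hR.refl _ _

theorem inv_conj (hR : RelP K y₀ R) {y y' : Off K} {m : Hom K y y} {m' : Hom K y' y'}
    (k : Hom K y' y) (h : Inv R m) (hk : k.trans m = m'.trans k) : Inv R m' := by
  intro g
  have h1 := h (g.trans k)
  rw [Path.Homotopic.Quotient.trans_assoc, hk] at h1
  have h2 := hR.comp _ _ _ _ k.symm h1
  simp only [Path.Homotopic.Quotient.trans_assoc, Path.Homotopic.Quotient.trans_symm,
    Path.Homotopic.Quotient.trans_refl] at h2
  exact h2

end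

/-- `2 π i` -/
noncomputable def tpi : ℂ := 2 * Real.pi * Complex.I

/-- a description of the complement of `K` near `K` by the exponential function -/
structure Tub {E : Type} [TopologicalSpace E] (K : Set E) (V : Type) [NormedAddCommGroup V]
    [NormedSpace ℝ V] where
  κ : ℝ
  P : Set V
  Q : ℂ × V → E
  hP : IsPathConnected P
  cont : ContinuousOn Q ({ℓ : ℂ | ℓ.re < κ} ×ˢ P)
  off : ∀ z ∈ {ℓ : ℂ | ℓ.re < κ} ×ˢ P, Q z ∉ K
  per : ∀ ℓ v, Q (ℓ + tpi, v) = Q (ℓ, v)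
  loc : ∀ p ∈ K, ∀ O ∈ 𝓝 p, ∃ U : Set E, IsOpen U ∧ p ∈ U ∧ U ⊆ O ∧ ∃ κ' ≤ κ, ∃ C ⊆ P,
    Convex ℝ C ∧ C.Nonempty ∧ (∀ z ∈ {ℓ : ℂ | ℓ.re < κ'} ×ˢ C, Q z ∈ U) ∧
    ∃ (ζ : E → ℂ) (u : E → V), ContinuousOn ζ (U \ K) ∧ ContinuousOn u (U \ K) ∧
      ∀ x ∈ U \ K, ζ x ≠ 0 ∧ Real.log ‖ζ x‖ < κ' ∧ u x ∈ C ∧
        ∀ ℓ, Complex.exp ℓ = ζ x → Q (ℓ, u x) = x

namespace Tub

variable {E : Type} [TopologicalSpace E] {K : Set E} {V : Type} [NormedAddCommGroup V]
  [NormedSpace ℝ V] (T : Tub K V)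

theorem per_int (n : ℤ) (ℓ : ℂ) (v : V) : T.Q (ℓ + n * tpi, v) = T.Q (ℓ, v) := by
  induction n using Int.induction_on with
  | zero => simp
  | succ i ih =>
    rw [← ih, ← T.per (ℓ + (i : ℤ) * tpi) v]
    congr 2
    push_cast
    ring
  | pred i ih =>
    rw [← ih, ← T.per (ℓ + ((-i - 1 : ℤ) : ℂ) * tpi) v]
    congr 2
    push_cast
    ring

/-- `m` winds `n` times around `K` at `z` -/
def IsMer (z : ℂ × V) (n : ℤ) {y : Off K} (m : Path y y) : Prop :=
  ∀ t : I, (m t : E) = T.Q (z.1 + ((n * (t : ℝ) : ℝ) : ℂ) * tpi, z.2)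

theorem tpi_re (x : ℝ) : ((x : ℂ) * tpi).re = 0 := by
  simp [tpi]

theorem contQ {W : Type} [TopologicalSpace W] {c : W → ℂ} {v : W → V} (hc : Continuous c)
    (hv : Continuous v) (hc' : ∀ w, (c w).re < T.κ) (hv' : ∀ w, v w ∈ T.P) :
    Continuous fun w => T.Q (c w, v w) :=
  T.cont.comp_continuous (hc.prodMk hv) fun w => ⟨hc' w, hv' w⟩

theorem exists_mer {z : ℂ × V} (hz : z ∈ {ℓ : ℂ | ℓ.re < T.κ} ×ˢ T.P) (n : ℤ) {y : Off K}
    (hy : T.Q z = y) : ∃ m : Path y y, T.IsMer z n m := by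
  have hre : ∀ t : I, (z.1 + ((n * (t : ℝ) : ℝ) : ℂ) * tpi).re < T.κ := by
    intro t
    rw [Complex.add_re, tpi_re, add_zero]
    exact hz.1
  have hc : Continuous fun t : I => T.Q (z.1 + ((n * (t : ℝ) : ℝ) : ℂ) * tpi, z.2) := by
    refine T.contQ ?_ continuous_const hre fun _ => hz.2
    fun_prop
  refine ⟨⟨⟨fun t => ⟨T.Q (z.1 + ((n * (t : ℝ) : ℝ) : ℂ) * tpi, z.2), T.off _ ⟨hre t, hz.2⟩⟩,
    hc.subtype_mk _⟩, ?_, ?_⟩, fun t => rfl⟩
  · apply Subtype.ext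
    show T.Q (z.1 + ((n * ((0 : I) : ℝ) : ℝ) : ℂ) * tpi, z.2) = y
    rw [← hy]
    simp
  · apply Subtype.ext
    show T.Q (z.1 + ((n * ((1 : I) : ℝ) : ℝ) : ℂ) * tpi, z.2) = y
    rw [← hy, ← T.per_int n z.1 z.2]
    simp

theorem mer_add {z : ℂ × V} (hz : z ∈ {ℓ : ℂ | ℓ.re < T.κ} ×ˢ T.P) {y : Off K} {n k : ℤ}
    {m m' m'' : Path y y} (h : T.IsMer z n m) (h' : T.IsMer z k m') (h'' : T.IsMer z (n + k) m'') :
    cl m'' = (cl m).trans (cl m') := by
  rw [← Path.Homotopic.Quotient.mk_trans]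
  have hre : ∀ s : ℝ, (z.1 + (s : ℂ) * tpi).re < T.κ := by
    intro s
    rw [Complex.add_re, tpi_re, add_zero]
    exact hz.1
  refine lift_hom (W := ℝ) (Z := univ) convex_univ (q := fun s => T.Q (z.1 + (s : ℂ) * tpi, z.2))
    ?_ (fun s _ => T.off _ ⟨hre s, hz.2⟩) (lin 0 ((n + k : ℤ) : ℝ))
    ((lin 0 (n : ℝ)).trans (lin (n : ℝ) ((n + k : ℤ) : ℝ))) _ _ (fun _ => mem_univ _)
    (fun _ => mem_univ _) ?_ ?_
  · refine Continuous.continuousOn (T.contQ ?_ continuous_const hre fun _ => hz.2)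
    fun_prop
  · intro t
    rw [h'' t, lin_apply]
    simp only [smul_eq_mul, mul_zero, zero_add]
    congr 2
    push_cast
    ring
  · refine lift_trans (q := fun s : ℝ => T.Q (z.1 + (s : ℂ) * tpi, z.2)) ?_ ?_
    · intro t
      rw [h t]
      show T.Q (z.1 + (((lin (0 : ℝ) (n : ℝ)) t : ℝ) : ℂ) * tpi, z.2) = _
      rw [lin_apply]
      simp only [smul_eq_mul, mul_zero, zero_add]
      congr 2
      push_cast
      ring
    · intro t
      show T.Q (z.1 + (((lin (n : ℝ) ((n + k : ℤ) : ℝ)) t : ℝ) : ℂ) * tpi, z.2) = _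
      rw [h' t, lin_apply, ← T.per_int n (z.1 + ((k * (t : ℝ) : ℝ) : ℂ) * tpi) z.2]
      congr 2
      simp only [smul_eq_mul]
      push_cast
      ring

variable {y₀ : Off K} {R : ∀ y : Off K, Hom K y₀ y → Hom K y₀ y → Prop}

theorem inv_mer (hR : RelP K y₀ R) {z : ℂ × V} (hz : z ∈ {ℓ : ℂ | ℓ.re < T.κ} ×ˢ T.P)
    {y : Off K} (hy : T.Q z = y) {m : Path y y} (hm : T.IsMer z 1 m) (h : Inv R (cl m)) (n : ℤ) :
    ∀ m' : Path y y, T.IsMer z n m' → Inv R (cl m') := by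
  induction n using Int.induction_on with
  | zero =>
    intro m' hm'
    have h0 : m' = Path.refl y := by
      ext t
      have := hm' t
      simp only [Int.cast_zero, zero_mul, Complex.ofReal_zero, add_zero] at this
      rw [this]
      exact hy
    rw [h0]
    exact inv_refl hR y
  | succ i ih =>
    intro m' hm'
    obtain ⟨m₁, hm₁⟩ := T.exists_mer hz i hy
    rw [T.mer_add hz hm₁ hm hm']
    exact inv_trans hR (ih m₁ hm₁) h
  | pred i ih =>
    intro m' hm'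
    obtain ⟨m₁, hm₁⟩ := T.exists_mer hz (-i) hy
    have h1 := T.mer_add hz (n := -i - 1) (k := 1) hm' hm (m'' := m₁)
      (by rw [sub_add_cancel]; exact hm₁)
    have h2 : cl m' = (cl m₁).trans (cl m).symm := by
      rw [h1, Path.Homotopic.Quotient.trans_assoc, Path.Homotopic.Quotient.trans_symm,
        Path.Homotopic.Quotient.trans_refl]
    rw [h2]
    exact inv_trans hR (ih m₁ hm₁) (inv_symm hR h)

theorem inv_mer' (hR : RelP K y₀ R) {z z' : ℂ × V} (hz : z ∈ {ℓ : ℂ | ℓ.re < T.κ} ×ˢ T.P)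
    (hz' : z' ∈ {ℓ : ℂ | ℓ.re < T.κ} ×ˢ T.P) {y y' : Off K} (hy : T.Q z = y) (hy' : T.Q z' = y')
    {m : Path y y} {m' : Path y' y'} (hm : T.IsMer z 1 m) (hm' : T.IsMer z' 1 m')
    (h : Inv R (cl m)) : Inv R (cl m') := by
  have hpc : IsPathConnected ({ℓ : ℂ | ℓ.re < T.κ} ×ˢ T.P) := by
    refine IsPathConnected.prod ?_ T.hP
    have hcv : Convex ℝ {ℓ : ℂ | ℓ.re < T.κ} := convex_halfSpace_re_lt T.κ
    exact hcv.isPathConnected ⟨z.1, hz.1⟩
  obtain ⟨c, hc⟩ := hpc.joinedIn z' hz' z hz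
  have hce : ∀ τ : ℝ, c.extend τ ∈ {ℓ : ℂ | ℓ.re < T.κ} ×ˢ T.P := by
    intro τ
    exact hc (projIcc 0 1 zero_le_one τ)
  have hre : ∀ w : ℝ × ℝ, ((c.extend w.1).1 + (w.2 : ℂ) * tpi).re < T.κ := by
    intro w
    rw [Complex.add_re, tpi_re, add_zero]
    exact (hce w.1).1
  have hk : Continuous fun t : I => T.Q (c t) := T.cont.comp_continuous c.continuous hc
  obtain ⟨k, hk⟩ : ∃ k : Path y' y, ∀ t, (k t : E) = T.Q (c t) := by
    refine ⟨⟨⟨fun t => ⟨T.Q (c t), T.off _ (hc t)⟩, hk.subtype_mk _⟩, ?_, ?_⟩, fun t => rfl⟩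
    · exact Subtype.ext (by show T.Q (c 0) = y'; rw [c.source]; exact hy')
    · exact Subtype.ext (by show T.Q (c 1) = y; rw [c.target]; exact hy)
  have hex : ∀ t : I, c.extend (t : ℝ) = c t := fun t => by
    show c (projIcc 0 1 zero_le_one (t : ℝ)) = c t
    rw [projIcc_val]
  have he0 : c.extend 0 = z' := by
    have := hex 0
    rwa [c.source] at this
  have he1 : c.extend 1 = z := by
    have := hex 1
    rwa [c.target] at this
  let q : ℝ × ℝ → E := fun w => T.Q ((c.extend w.1).1 + (w.2 : ℂ) * tpi, (c.extend w.1).2)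
  refine inv_conj hR (cl k) h ?_
  rw [← Path.Homotopic.Quotient.mk_trans, ← Path.Homotopic.Quotient.mk_trans]
  have hq : Continuous q := by
    refine T.contQ ?_ ?_ hre fun w => (hce w.1).2
    · fun_prop
    · fun_prop
  refine lift_hom (W := ℝ × ℝ) (Z := univ) convex_univ (q := q)
    hq.continuousOn (fun w _ => T.off _ ⟨hre w, (hce w.1).2⟩)
    ((lin ((0 : ℝ), (0 : ℝ)) (1, 0)).trans (lin ((1 : ℝ), (0 : ℝ)) (1, 1)))
    ((lin ((0 : ℝ), (0 : ℝ)) (0, 1)).trans (lin ((0 : ℝ), (1 : ℝ)) (1, 1))) _ _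
    (fun _ => mem_univ _) (fun _ => mem_univ _) ?_ ?_
  · refine lift_trans (q := q) ?_ ?_
    · intro t
      rw [hk t, lin_apply]
      simp [q, hex]
    · intro t
      rw [hm t, lin_apply]
      simp [q, he1]
  · refine lift_trans (q := q) ?_ ?_
    · intro t
      rw [hm' t, lin_apply]
      simp [q, he0]
    · intro t
      rw [hk t, lin_apply]
      simp [q, hex, T.per]

/-- lifting to the logarithm -/
theorem exists_log (c : C(I, ℂ)) (hc : ∀ t, c t ≠ 0) (ℓ₀ : ℂ) (h : Complex.exp ℓ₀ = c 0) :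
    ∃ ℓ : C(I, ℂ), (∀ t, Complex.exp (ℓ t) = c t) ∧ ℓ 0 = ℓ₀ := by
  let c' : C(I, {z : ℂ // z ≠ 0}) := ⟨fun t => ⟨c t, hc t⟩, c.continuous.subtype_mk _⟩
  obtain ⟨Γ, h1, h2⟩ := Complex.isCoveringMap_exp.exists_path_lifts c' ℓ₀
    (Subtype.ext (by show c 0 = Complex.exp ℓ₀; exact h.symm))
  refine ⟨Γ, fun t => ?_, h2⟩
  have h3 := congrFun h1 t
  exact congrArg Subtype.val h3

theorem re_log {ℓ w : ℂ} (h : Complex.exp ℓ = w) : ℓ.re = Real.log ‖w‖ := by
  rw [← h, Complex.norm_exp, Real.log_exp]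

/-- near a point of `K` -/
theorem good (hR : RelP K y₀ R) {z : ℂ × V} (hz : z ∈ {ℓ : ℂ | ℓ.re < T.κ} ×ˢ T.P)
    {y₁ : Off K} (hy₁ : T.Q z = y₁) {m : Path y₁ y₁} (hm : T.IsMer z 1 m) (h : Inv R (cl m))
    {p : E} (hp : p ∈ K) : ∃ U : Set E, IsOpen U ∧ p ∈ U ∧ Good K y₀ R U := by
  obtain ⟨U, hU, hpU, -, κ', hκ', C, hC, hCc, -, hQU, ζ, u, hζ, hu, hx⟩ :=
    T.loc p hp univ Filter.univ_mem
  refine ⟨U, hU, hpU, ?_⟩
  intro y y' b b' hb hb' g
  have hcb : ∀ v : Path y y', (∀ t, (v t : E) ∈ U) → Continuous (fun t => ζ (v t)) ∧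
      Continuous (fun t => u (v t)) := by
    intro v hv
    have hvc : Continuous fun t => (v t : E) := continuous_subtype_val.comp v.continuous
    exact ⟨hζ.comp_continuous hvc fun t => ⟨hv t, (v t).2⟩,
      hu.comp_continuous hvc fun t => ⟨hv t, (v t).2⟩⟩
  have hyU : (y : E) ∈ U \ K := by
    have := hb 0
    rw [b.source] at this
    exact ⟨this, y.2⟩
  have hyU' : (y' : E) ∈ U \ K := by
    have := hb 1
    rw [b.target] at this
    exact ⟨this, y'.2⟩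
  have hx0 := hx _ hyU
  obtain ⟨ℓ, hℓ, hℓ0⟩ := exists_log ⟨fun t => ζ (b t), (hcb b hb).1⟩
    (fun t => (hx _ ⟨hb t, (b t).2⟩).1) (Complex.log (ζ y)) (by
      show _ = ζ (b 0)
      rw [b.source, Complex.exp_log hx0.1])
  obtain ⟨ℓ', hℓ', hℓ0'⟩ := exists_log ⟨fun t => ζ (b' t), (hcb b' hb').1⟩
    (fun t => (hx _ ⟨hb' t, (b' t).2⟩).1) (Complex.log (ζ y)) (by
      show _ = ζ (b' 0)
      rw [b'.source, Complex.exp_log hx0.1])
  have e1 : Complex.exp (ℓ 1) = ζ y' := by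
    rw [hℓ 1]
    show ζ (b 1) = ζ y'
    rw [b.target]
  have e1' : Complex.exp (ℓ' 1) = ζ y' := by
    rw [hℓ' 1]
    show ζ (b' 1) = ζ y'
    rw [b'.target]
  obtain ⟨n, hn⟩ := Complex.exp_eq_exp_iff_exists_int.1 (e1'.trans e1.symm)
  set z₁ : ℂ × V := (ℓ 1, u y') with hz₁
  have hz₁m : z₁ ∈ {ℓ : ℂ | ℓ.re < κ'} ×ˢ C := by
    refine ⟨?_, (hx _ hyU').2.2.1⟩
    show (ℓ 1).re < κ'
    rw [re_log e1]
    exact (hx _ hyU').2.1
  have hsub : {ℓ : ℂ | ℓ.re < κ'} ×ˢ C ⊆ {ℓ : ℂ | ℓ.re < T.κ} ×ˢ T.P :=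
    fun w hw => ⟨lt_of_lt_of_le hw.1 hκ', hC hw.2⟩
  have hQz₁ : T.Q z₁ = y' := (hx _ hyU').2.2.2 _ e1
  obtain ⟨mn, hmn⟩ := T.exists_mer (hsub hz₁m) n hQz₁
  obtain ⟨m₁, hm₁⟩ := T.exists_mer (hsub hz₁m) 1 hQz₁
  have hinv : Inv R (cl mn) := T.inv_mer hR (hsub hz₁m) hQz₁ hm₁
    (T.inv_mer' hR hz (hsub hz₁m) hy₁ hQz₁ hm hm₁ h) n mn hmn
  have hcv : Convex ℝ ({ℓ : ℂ | ℓ.re < κ'} ×ˢ C) := (convex_halfSpace_re_lt κ').prod hCc
  -- the lifts
  let a : Path ((ℓ 0, u y) : ℂ × V) z₁ :=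
    { toFun := fun t => (ℓ t, u (b t))
      continuous_toFun := ℓ.continuous.prodMk (hcb b hb).2
      source' := by rw [b.source]
      target' := by rw [b.target] }
  let a' : Path ((ℓ 0, u y) : ℂ × V) (z₁.1 + n * tpi, z₁.2) :=
    { toFun := fun t => (ℓ' t, u (b' t))
      continuous_toFun := ℓ'.continuous.prodMk (hcb b' hb').2
      source' := by rw [b'.source, hℓ0, hℓ0']
      target' := by
        rw [b'.target, hn]
        rfl }
  have ha : ∀ t, a t ∈ {ℓ : ℂ | ℓ.re < κ'} ×ˢ C := by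
    intro t
    have h1 := hx _ ⟨hb t, (b t).2⟩
    refine ⟨?_, h1.2.2.1⟩
    show (ℓ t).re < κ'
    rw [re_log (hℓ t)]
    exact h1.2.1
  have ha' : ∀ t, a' t ∈ {ℓ : ℂ | ℓ.re < κ'} ×ˢ C := by
    intro t
    have h1 := hx _ ⟨hb' t, (b' t).2⟩
    refine ⟨?_, h1.2.2.1⟩
    show (ℓ' t).re < κ'
    rw [re_log (hℓ' t)]
    exact h1.2.1
  have hlin : ∀ t, lin z₁ (z₁.1 + n * tpi, z₁.2) t
      = (z₁.1 + ((n * (t : ℝ) : ℝ) : ℂ) * tpi, z₁.2) := by
    intro t
    rw [lin_apply]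
    refine Prod.ext ?_ ?_
    · show (1 - (t : ℝ)) • z₁.1 + (t : ℝ) • (z₁.1 + n * tpi) = _
      rw [Complex.real_smul, Complex.real_smul]
      push_cast
      ring
    · show (1 - (t : ℝ)) • z₁.2 + (t : ℝ) • z₁.2 = z₁.2
      rw [← add_smul]
      simp
  have key : cl (b.trans mn) = cl b' := by
    refine lift_hom hcv (T.cont.mono hsub) (fun w hw => T.off _ (hsub hw))
      (a.trans (lin z₁ (z₁.1 + n * tpi, z₁.2))) a' _ _ ?_ ha' (lift_trans ?_ ?_) ?_
    · intro t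
      rw [Path.trans_apply]
      split_ifs
      · exact ha _
      · rw [hlin]
        refine ⟨?_, hz₁m.2⟩
        show (z₁.1 + _).re < κ'
        rw [Complex.add_re, tpi_re, add_zero]
        exact hz₁m.1
    · intro t
      exact (hx _ ⟨hb t, (b t).2⟩).2.2.2 _ (hℓ t)
    · intro t
      rw [hlin, hmn t]
    · intro t
      exact (hx _ ⟨hb' t, (b' t).2⟩).2.2.2 _ (hℓ' t)
  rw [← key]
  have h5 := hinv (g.trans (cl b))
  rw [Path.Homotopic.Quotient.trans_assoc] at h5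
  exact hR.symm _ _ _ h5

include T in
/-- near a point of `K` the complement is path connected -/
theorem pc {p : E} (hp : p ∈ K) {O : Set E} (hO : O ∈ 𝓝 p) :
    ∃ U : Set E, IsOpen U ∧ p ∈ U ∧ U ⊆ O ∧ IsPathConnected (U \ K) := by
  obtain ⟨U, hU, hpU, hUO, κ', hκ', C, hC, hCc, hCn, hQU, ζ, u, hζ, hu, hx⟩ := T.loc p hp O hO
  refine ⟨U, hU, hpU, hUO, ?_⟩
  have hsub : {ℓ : ℂ | ℓ.re < κ'} ×ˢ C ⊆ {ℓ : ℂ | ℓ.re < T.κ} ×ˢ T.P :=
    fun w hw => ⟨lt_of_lt_of_le hw.1 hκ', hC hw.2⟩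
  have h1 : U \ K = T.Q '' ({ℓ : ℂ | ℓ.re < κ'} ×ˢ C) := by
    ext x
    constructor
    · intro h
      have h2 := hx x h
      refine ⟨(Complex.log (ζ x), u x), ⟨?_, h2.2.2.1⟩, h2.2.2.2 _ (Complex.exp_log h2.1)⟩
      show (Complex.log (ζ x)).re < κ'
      rw [Complex.log_re]
      exact h2.2.1
    · rintro ⟨w, hw, rfl⟩
      exact ⟨hQU w hw, T.off _ (hsub hw)⟩
  rw [h1]
  have hcv : Convex ℝ ({ℓ : ℂ | ℓ.re < κ'} ×ˢ C) := (convex_halfSpace_re_lt κ').prod hCc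
  have hne : ({ℓ : ℂ | ℓ.re < κ'} ×ˢ C).Nonempty := by
    obtain ⟨v, hv⟩ := hCn
    refine ⟨(((κ' - 1 : ℝ) : ℂ), v), ?_, hv⟩
    show (((κ' - 1 : ℝ) : ℂ)).re < κ'
    rw [Complex.ofReal_re]
    linarith
  exact (hcv.isPathConnected hne).image' (T.cont.mono hsub)

end Tub

end Pool.Agent.Helper34.S5


end

/-! ## Helper34.BI5.VK2 -/

section

/-!
# All paths with the same ends are related
-/

set_option autoImplicit false

open Set Metric unitInterval
open scoped Topology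

namespace Pool.Agent.Helper34.S5

/-- the grid points -/
noncomputable def tg (N j : ℕ) : I := projIcc (0 : ℝ) 1 zero_le_one ((j : ℝ) / N)

theorem tg_zero (N : ℕ) : tg N 0 = 0 := by
  unfold tg
  rw [Nat.cast_zero, zero_div]
  exact projIcc_left _

theorem tg_self {N : ℕ} (hN : 0 < N) : tg N N = 1 := by
  unfold tg
  rw [div_self (by positivity)]
  exact projIcc_right _

theorem tg_dist {N : ℕ} (hN : 0 < N) (j : ℕ) : dist (tg N j) (tg N (j + 1)) ≤ 1 / N := by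
  have h0 : (0 : ℝ) < N := by exact_mod_cast hN
  have h2 : (j : ℝ) / N - ((j + 1 : ℕ) : ℝ) / N = -(1 / N) := by
    push_cast
    field_simp
    ring
  have h1 : |(tg N j : ℝ) - tg N (j + 1)| ≤ |(j : ℝ) / N - ((j + 1 : ℕ) : ℝ) / N| :=
    abs_projIcc_sub_projIcc zero_le_one
  rw [h2, abs_neg, abs_of_pos (show (0 : ℝ) < 1 / N by positivity)] at h1
  exact h1

section
variable {E : Type} [NormedAddCommGroup E] [NormedSpace ℝ E] {K : Set E}
  {y₀ : Off K} {R : ∀ y : Off K, Hom K y₀ y → Hom K y₀ y → Prop}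

theorem all_rel (hR : RelP K y₀ R)
    (hPC : ∀ (c : E) (r : ℝ), 0 < r → IsPathConnected (ball c r \ K))
    (hG : ∀ p : E, ∃ r > 0, Good K y₀ R (ball p r)) (y : Off K) (w w' : Path y₀ y) :
    R y (cl w) (cl w') := by
  classical
  let H : I × I → E := fun q => (1 - (q.1 : ℝ)) • (w q.2 : E) + (q.1 : ℝ) • (w' q.2 : E)
  have hH : Continuous H := by
    have h1 : Continuous fun q : I × I => (w q.2 : E) :=
      continuous_subtype_val.comp (w.continuous.comp continuous_snd)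
    have h2 : Continuous fun q : I × I => (w' q.2 : E) :=
      continuous_subtype_val.comp (w'.continuous.comp continuous_snd)
    have h3 : Continuous fun q : I × I => (q.1 : ℝ) := continuous_subtype_val.comp continuous_fst
    exact ((continuous_const.sub h3).smul h1).add (h3.smul h2)
  choose r hr hGr using hG
  obtain ⟨δ, hδ, hδ'⟩ := lebesgue_number_lemma_of_metric (s := range H)
    (c := fun p : E => ball p (r p)) (isCompact_range hH) (fun _ => isOpen_ball)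
    (fun x _ => mem_iUnion.2 ⟨x, mem_ball_self (hr x)⟩)
  obtain ⟨η, hη, hη'⟩ := Metric.uniformContinuous_iff.1
    (CompactSpace.uniformContinuous_of_continuous hH) (δ / 8) (by positivity)
  obtain ⟨N, hN⟩ := exists_nat_gt (1 / η)
  have hNpos : 0 < N := by
    have : (0 : ℝ) < N := lt_trans (by positivity) hN
    exact_mod_cast this
  have hNη : 1 / (N : ℝ) < η := by
    have : (0 : ℝ) < N := by exact_mod_cast hNpos
    rw [div_lt_iff₀ this, mul_comm]
    rwa [div_lt_iff₀ hη] at hN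
  have hw : ∀ t, H (0, t) = w t := by
    intro t
    show (1 - ((0 : I) : ℝ)) • (w t : E) + ((0 : I) : ℝ) • (w' t : E) = w t
    simp
  have hw' : ∀ t, H (1, t) = w' t := by
    intro t
    show (1 - ((1 : I) : ℝ)) • (w t : E) + ((1 : I) : ℝ) • (w' t : E) = w' t
    simp
  have h3 : ∀ s, H (s, 0) = y₀ := by
    intro s
    show (1 - (s : ℝ)) • (w 0 : E) + (s : ℝ) • (w' 0 : E) = y₀
    rw [w.source, w'.source, ← add_smul]
    simp
  have h4 : ∀ s, H (s, 1) = y := by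
    intro s
    show (1 - (s : ℝ)) • (w 1 : E) + (s : ℝ) • (w' 1 : E) = y
    rw [w.target, w'.target, ← add_smul]
    simp
  let h : ℕ → ℕ → E := fun i j => H (tg N i, tg N j)
  have hh1 : ∀ i j, dist (h i (j + 1)) (h i j) < δ / 8 := by
    intro i j
    refine hη' (lt_of_le_of_lt ?_ hNη)
    rw [dist_comm, Prod.dist_eq]
    exact max_le (by rw [dist_self]; positivity) (tg_dist hNpos j)
  have hh2 : ∀ i j, dist (h (i + 1) j) (h i j) < δ / 8 := by
    intro i j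
    refine hη' (lt_of_le_of_lt ?_ hNη)
    rw [dist_comm, Prod.dist_eq]
    exact max_le (tg_dist hNpos i) (by rw [dist_self]; positivity)
  have hh3 : ∀ i, h i 0 = y₀ := by
    intro i
    show H (_, tg N 0) = y₀
    rw [tg_zero]
    exact h3 _
  have hh4 : ∀ i, h i N = y := by
    intro i
    show H (_, tg N N) = y
    rw [tg_self hNpos]
    exact h4 _
  have hp : ∀ i j, ∃ p : Off K, (p : E) ∈ ball (h i j) (δ / 8) := fun i j =>
    exists_off hPC _ (by positivity)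
  choose p hp using hp
  have hb : ∀ i j, ∃ b : Path (p i j) (p i (j + 1)), ∀ t, (b t : E) ∈ ball (h i j) (δ / 2) := by
    intro i j
    refine exists_path hPC _ (by positivity) _ _ (ball_subset_ball (by linarith) (hp i j)) ?_
    have h5 := hp i (j + 1)
    have h6 := hh1 i j
    rw [mem_ball] at h5 ⊢
    linarith [dist_triangle (p i (j + 1) : E) (h i (j + 1)) (h i j)]
  choose b hb using hb
  have hc : ∀ i j, ∃ c : Path (p i j) (p (i + 1) j), ∀ t, (c t : E) ∈ ball (h i j) (δ / 2) := by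
    intro i j
    refine exists_path hPC _ (by positivity) _ _ (ball_subset_ball (by linarith) (hp i j)) ?_
    have h5 := hp (i + 1) j
    have h6 := hh2 i j
    rw [mem_ball] at h5 ⊢
    linarith [dist_triangle (p (i + 1) j : E) (h (i + 1) j) (h i j)]
  choose c hc using hc
  have hs : ∀ i, ∃ s : Path y₀ (p i 0), ∀ t, (s t : E) ∈ ball (y₀ : E) (δ / 2) := by
    intro i
    refine exists_path hPC _ (by positivity) _ _ (mem_ball_self (by positivity)) ?_
    have h5 := hp i 0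
    rw [hh3] at h5
    exact ball_subset_ball (by linarith) h5
  choose s hs using hs
  have he : ∀ i, ∃ e : Path (p i N) y, ∀ t, (e t : E) ∈ ball (y : E) (δ / 2) := by
    intro i
    refine exists_path hPC _ (by positivity) _ _ ?_ (mem_ball_self (by positivity))
    have h5 := hp i N
    rw [hh4] at h5
    exact ball_subset_ball (by linarith) h5
  choose e he using he
  let G : Grid K y₀ y R :=
    { δ := δ, N := N, h := h, p := p, b := b, c := c, s := s, e := e, hb := hb, hc := hc,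
      hs := hs, he := he, h1 := hh1, h2 := hh2, h3 := hh3, h4 := hh4, pos := hδ,
      good := fun i j => by
        obtain ⟨q, hq⟩ := hδ' (h i j) ⟨_, rfl⟩
        exact (hGr q).mono hq }
  have key : ∀ (v : Path y₀ y) (a : ℕ), (∀ u, (v u : E) = H (tg N a, u)) →
      R _ (cl v) (G.full a) := by
    intro v a hv
    refine G.full_path hR hPC v a (tg N) (tg_zero N) (tg_self hNpos) (fun j => hv _) ?_
      fun j => ball_subset_ball (by show δ / 8 ≤ δ / 2; linarith) (hp a j)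
    intro j u hu
    rw [hv u]
    have h5 : dist (H (tg N a, u)) (H (tg N a, tg N j)) < δ / 8 := by
      refine hη' (lt_of_le_of_lt ?_ hNη)
      rw [Prod.dist_eq]
      refine max_le (by rw [dist_self]; positivity) ?_
      refine le_trans ?_ (tg_dist hNpos j)
      rw [dist_comm (tg N j), Subtype.dist_eq, Subtype.dist_eq, Real.dist_eq, Real.dist_eq]
      have h6 : (u : ℝ) ∈ uIcc (tg N j : ℝ) (tg N (j + 1) : ℝ) := by
        rcases le_total (tg N j) (tg N (j + 1)) with h7 | h7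
        · rw [uIcc_of_le h7] at hu
          rw [uIcc_of_le (show (tg N j : ℝ) ≤ tg N (j + 1) from h7)]
          exact ⟨hu.1, hu.2⟩
        · rw [uIcc_of_ge h7] at hu
          rw [uIcc_of_ge (show (tg N (j + 1) : ℝ) ≤ tg N j from h7)]
          exact ⟨hu.1, hu.2⟩
      exact abs_sub_left_of_mem_uIcc h6
    show dist (H (tg N a, u)) (H (tg N a, tg N j)) < δ / 2
    linarith
  have k0 := key w 0 fun u => by rw [tg_zero, hw]
  have k1 := key w' N fun u => by rw [tg_self hNpos, hw']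
  exact hR.trans _ _ _ _ (hR.trans _ _ _ _ k0 (G.full_rel hR N)) (hR.symm _ _ _ k1)

end

end Pool.Agent.Helper34.S5


end
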