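import Pool.Agent.Helper65.Barb.Defs
import Pool.Agent.Helper70.BI.FinDefs
import Pool.Agent.Helper70.BI.C.P13
import Pool.Agent.Helper70.BI.C.P14

/-!
# Project BI (MP_8e98f2_gt): collected modules, part 32

The contents of the modules
* Helper34.BI.H.M_NP2
* Helper34.BI.H.M_NU1
* Helper34.BI.H.M_NU4
* Helper34.BI.H.M_GPD
* Helper34.BI.H.AsmH4
* Helper27.BI.H.Joint
* Helper70.BI.M_R3
* Helper18.BI.R.StR6

in one file, so that the whole proof builds in a short time.
-/

namespace Pool.Agent.Helper18.BI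
end Pool.Agent.Helper18.BI

namespace Pool.Agent.Helper27.BI
end Pool.Agent.Helper27.BI

namespace Pool.Agent.Helper34.BI
end Pool.Agent.Helper34.BI

namespace Pool.Agent.Helper65.Barb
end Pool.Agent.Helper65.Barb

namespace Pool.Agent.Helper70.BI
end Pool.Agent.Helper70.BI

namespace Pool.Agent.Helper70.Fin
end Pool.Agent.Helper70.Fin


/-! ## Helper34.BI.H.M_NP2 -/

section

/-!
# Module NP2: parametric transversality for equations linear in the parameter, `dim X = dim Y`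
-/

set_option autoImplicit false

open Module Set Filter Topology MeasureTheory
open scoped ContDiff Manifold

namespace Pool.Agent.Helper34.BI.H

namespace NP2

section
variable {X P Y : Type} [NormedAddCommGroup X] [NormedSpace ℝ X] [FiniteDimensional ℝ X]
  [NormedAddCommGroup P] [NormedSpace ℝ P] [FiniteDimensional ℝ P] [MeasurableSpace P]
  [BorelSpace P] [NormedAddCommGroup Y] [NormedSpace ℝ Y] [FiniteDimensional ℝ Y]

/-- the local statement -/
private theorem local_null (μ : Measure P) [μ.IsAddHaarMeasure] {s : Set X} {L : X → P →L[ℝ] Y}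
    {c : X → Y} (hdim : finrank ℝ X = finrank ℝ Y) (hs : IsOpen s) (hL : DifferentiableOn ℝ L s)
    (hc : DifferentiableOn ℝ c s) (hsurj : ∀ x ∈ s, Function.Surjective (L x)) {x₀ : X}
    (hx₀ : x₀ ∈ s) :
    ∃ V : Set X, IsOpen V ∧ x₀ ∈ V ∧ μ {p | ∃ x ∈ V, L x p = c x ∧
      ¬ Function.Injective (fderiv ℝ (fun x => L x p - c x) x)} = 0 := by
  haveI : CompleteSpace Y := FiniteDimensional.complete ℝ Y
  obtain ⟨R₀, hR₀⟩ := (L x₀ : P →ₗ[ℝ] Y).exists_rightInverse_of_surjective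
    (LinearMap.range_eq_top.2 (hsurj x₀ hx₀))
  let R : Y →L[ℝ] P := LinearMap.toContinuousLinearMap R₀
  have hR : ∀ y, L x₀ (R y) = y := fun y => LinearMap.congr_fun hR₀ y
  let K : Submodule ℝ P := LinearMap.ker (L x₀ : P →ₗ[ℝ] Y)
  let S : X → Y →L[ℝ] Y := fun x => (L x).comp R
  have hSd : DifferentiableOn ℝ S s := hL.clm_comp (differentiableOn_const R)
  have hS0 : S x₀ = 1 := by
    ext y
    exact hR y
  let V : Set X := s ∩ S ⁻¹' {A | IsUnit A}
  have hV : IsOpen V := hSd.continuousOn.isOpen_inter_preimage hs Units.isOpen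
  have hx₀V : x₀ ∈ V := by
    refine ⟨hx₀, ?_⟩
    change IsUnit (S x₀)
    rw [hS0]
    exact isUnit_one
  refine ⟨V, hV, hx₀V, ?_⟩
  -- the parametrization of the solutions
  let Φ : X × K → Y := fun q => Ring.inverse (S q.1) (c q.1 - L q.1 (q.2 : P))
  let Ψ : X × K → P := fun q => R (Φ q) + (q.2 : P)
  let D : Set (X × K) := {q | q.1 ∈ V}
  have hD : IsOpen D := hV.preimage continuous_fst
  have hΦ : DifferentiableOn ℝ Φ D := by
    intro q hq
    have hqs : q.1 ∈ s := hq.1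
    have d1 : DifferentiableAt ℝ (fun q : X × K => q.1) q := differentiableAt_fst
    have d2 : DifferentiableAt ℝ (fun q : X × K => (q.2 : P)) q :=
      (K.subtypeL.differentiableAt).comp q differentiableAt_snd
    have dL : DifferentiableAt ℝ (fun q : X × K => L q.1) q :=
      ((hL q.1 hqs).differentiableAt (hs.mem_nhds hqs)).comp q d1
    have dc : DifferentiableAt ℝ (fun q : X × K => c q.1) q :=
      ((hc q.1 hqs).differentiableAt (hs.mem_nhds hqs)).comp q d1
    have dS : DifferentiableAt ℝ (fun q : X × K => S q.1) q :=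
      ((hSd q.1 hqs).differentiableAt (hs.mem_nhds hqs)).comp q d1
    have dI : DifferentiableAt ℝ (fun q : X × K => Ring.inverse (S q.1)) q :=
      DifferentiableAt.inverse dS hq.2
    exact (dI.clm_apply (dc.sub (dL.clm_apply d2))).differentiableWithinAt
  have hΨ : DifferentiableOn ℝ Ψ D := by
    have d2 : DifferentiableOn ℝ (fun q : X × K => (q.2 : P)) D :=
      ((K.subtypeL.differentiable).comp differentiable_snd).differentiableOn
    exact (R.differentiable.comp_differentiableOn hΦ).add d2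
  -- the solutions
  have hsol : ∀ x ∈ V, ∀ k : K, S x (Φ (x, k)) + L x (k : P) = c x := by
    intro x hx k
    have h1 : S x * Ring.inverse (S x) = 1 := Ring.mul_inverse_cancel _ hx.2
    have h2 : S x (Ring.inverse (S x) (c x - L x (k : P))) = c x - L x (k : P) :=
      DFunLike.congr_fun h1 _
    change S x (Ring.inverse (S x) (c x - L x (k : P))) + L x (k : P) = c x
    rw [h2, sub_add_cancel]
  have hinj : ∀ x ∈ V, ∀ y, S x y = 0 → y = 0 := by
    intro x hx y hy
    have h1 : Ring.inverse (S x) * S x = 1 := Ring.inverse_mul_cancel _ hx.2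
    have h2 : Ring.inverse (S x) (S x y) = y := DFunLike.congr_fun h1 _
    rw [← h2, hy, map_zero]
  -- dimensions
  have hfr : finrank ℝ (X × K) = finrank ℝ P := by
    have h1 := LinearMap.finrank_range_add_finrank_ker (L x₀ : P →ₗ[ℝ] Y)
    rw [LinearMap.range_eq_top.2 (hsurj x₀ hx₀), finrank_top] at h1
    rw [finrank_prod, hdim]
    exact h1
  let M : P ≃L[ℝ] X × K := ContinuousLinearEquiv.ofFinrankEq hfr.symm
  let C : Set (X × K) := {q | q ∈ D ∧ ∃ w : X × K, w ≠ 0 ∧ fderiv ℝ Ψ q w = 0}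
  have hnull : μ ((Ψ ∘ M) '' (M ⁻¹' C)) = 0 := by
    refine addHaar_image_eq_zero_of_det_fderivWithin_eq_zero μ
      (f' := fun q => (fderiv ℝ Ψ (M q)).comp (M : P →L[ℝ] (X × K))) ?_ ?_
    · intro q hq
      have h1 : HasFDerivAt Ψ (fderiv ℝ Ψ (M q)) (M q) :=
        ((hΨ _ hq.1).differentiableAt (hD.mem_nhds hq.1)).hasFDerivAt
      exact (h1.comp q M.hasFDerivAt).hasFDerivWithinAt
    · rintro q ⟨-, w, hw, hw0⟩
      have h2 : ((fderiv ℝ Ψ (M q)).comp (M : P →L[ℝ] (X × K))) (M.symm w) = 0 := by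
        simpa using hw0
      have h3 : M.symm w ≠ 0 := by
        intro h0
        apply hw
        have := congrArg M h0
        simpa using this
      by_contra hdet
      apply h3
      have h5 : LinearMap.ker
          (((fderiv ℝ Ψ (M q)).comp (M : P →L[ℝ] (X × K))) : P →ₗ[ℝ] P) = ⊥ :=
        (LinearMap.isUnit_iff_ker_eq_bot _).1
          ((LinearMap.isUnit_iff_isUnit_det _).2 (isUnit_iff_ne_zero.2 hdet))
      exact (LinearMap.ker_eq_bot'.1 h5) _ h2
  refine measure_mono_null ?_ hnull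
  rintro p ⟨x, hx, hxp, hni⟩
  have hxs : x ∈ s := hx.1
  -- the parameters
  have hk : p - R (L x₀ p) ∈ K := by
    change L x₀ (p - R (L x₀ p)) = 0
    rw [map_sub, hR, sub_self]
  let k : K := ⟨p - R (L x₀ p), hk⟩
  have hy : Φ (x, k) = L x₀ p := by
    have h1 := hsol x hx k
    have h2 : S x (L x₀ p) + L x (k : P) = c x := by
      rw [← hxp]
      change L x (R (L x₀ p)) + L x (p - R (L x₀ p)) = L x p
      rw [← map_add, add_sub_cancel]
    have h3 : S x (Φ (x, k) - L x₀ p) = 0 := by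
      rw [map_sub, sub_eq_zero]
      exact add_right_cancel (h1.trans h2.symm)
    exact sub_eq_zero.1 (hinj x hx _ h3)
  have hp : Ψ (x, k) = p := by
    change R (Φ (x, k)) + (p - R (L x₀ p)) = p
    rw [hy, add_sub_cancel]
  -- derivatives
  have hL1 : HasFDerivAt L (fderiv ℝ L x) x :=
    ((hL x hxs).differentiableAt (hs.mem_nhds hxs)).hasFDerivAt
  have hc1 : HasFDerivAt c (fderiv ℝ c x) x :=
    ((hc x hxs).differentiableAt (hs.mem_nhds hxs)).hasFDerivAt
  have hS1 : HasFDerivAt S (fderiv ℝ S x) x :=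
    ((hSd x hxs).differentiableAt (hs.mem_nhds hxs)).hasFDerivAt
  have hS2 : ∀ ζ : X, fderiv ℝ S x ζ = (fderiv ℝ L x ζ).comp R := by
    intro ζ
    have h1 := (hL1.clm_comp (hasFDerivAt_const R x)).fderiv
    have h2 : fderiv ℝ S x = _ := h1
    rw [h2]
    ext y
    simp
  have hqD : (x, k) ∈ D := hx
  have hΦ1 : HasFDerivAt Φ (fderiv ℝ Φ (x, k)) (x, k) :=
    ((hΦ _ hqD).differentiableAt (hD.mem_nhds hqD)).hasFDerivAt
  have hg : HasFDerivAt (fun x' : X => Φ (x', k))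
      ((fderiv ℝ Φ (x, k)).comp (ContinuousLinearMap.inl ℝ X K)) x := by
    have hi : HasFDerivAt (fun e : X => (e, k)) (ContinuousLinearMap.inl ℝ X K) x :=
      hasFDerivAt_prodMk_left x k
    exact HasFDerivAt.comp (g := Φ) (f := fun e : X => (e, k)) x hΦ1 hi
  have hzero : (fun x' : X => S x' (Φ (x', k)) + L x' (k : P) - c x') =ᶠ[𝓝 x] fun _ => 0 := by
    filter_upwards [hV.mem_nhds hx] with x' hx'
    rw [hsol x' hx' k, sub_self]
  have hd := ((hS1.clm_apply hg).add (hL1.clm_apply (hasFDerivAt_const (k : P) x))).sub hc1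
  have hd0 := hd.unique ((hasFDerivAt_const (0 : Y) x).congr_of_eventuallyEq hzero)
  obtain ⟨ζ, hζ, hζ0⟩ : ∃ ζ : X, ζ ≠ 0 ∧ fderiv ℝ (fun x => L x p - c x) x ζ = 0 := by
    by_contra hcon
    push Not at hcon
    apply hni
    rw [injective_iff_map_eq_zero]
    intro ζ h
    by_contra hne
    exact hcon ζ hne h
  have hLp : fderiv ℝ (fun x => L x p - c x) x ζ = fderiv ℝ L x ζ p - fderiv ℝ c x ζ := by
    have h1 := ((hL1.clm_apply (hasFDerivAt_const p x)).sub hc1).fderiv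
    have h2 : fderiv ℝ (fun x => L x p - c x) x = _ := h1
    rw [h2]
    simp
  rw [hLp, sub_eq_zero] at hζ0
  have hg0 : fderiv ℝ Φ (x, k) (ζ, 0) = 0 := by
    apply hinj x hx
    have h1 := DFunLike.congr_fun hd0 ζ
    simp only [ContinuousLinearMap.sub_apply, ContinuousLinearMap.add_apply,
      ContinuousLinearMap.comp_apply, ContinuousLinearMap.flip_apply,
      ContinuousLinearMap.inl_apply, ContinuousLinearMap.zero_apply, map_zero, zero_add,
      hS2 ζ, hy] at h1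
    have h2 : fderiv ℝ L x ζ p = fderiv ℝ L x ζ (R (L x₀ p)) + fderiv ℝ L x ζ (k : P) := by
      rw [← map_add]
      congr 1
      change p = R (L x₀ p) + (p - R (L x₀ p))
      rw [add_sub_cancel]
    rw [← hζ0, h2] at h1
    have h3 : S x (fderiv ℝ Φ (x, k) (ζ, 0)) + (fderiv ℝ L x ζ (R (L x₀ p)) +
        fderiv ℝ L x ζ (k : P)) - (fderiv ℝ L x ζ (R (L x₀ p)) + fderiv ℝ L x ζ (k : P)) = 0 := by
      rw [← add_assoc]; exact h1
    rwa [add_sub_cancel_right] at h3
  have hΨ0 : fderiv ℝ Ψ (x, k) (ζ, 0) = 0 := by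
    have h1 : HasFDerivAt Ψ ((R : Y →L[ℝ] P).comp (fderiv ℝ Φ (x, k)) +
        K.subtypeL.comp (ContinuousLinearMap.snd ℝ X K)) (x, k) :=
      (R.hasFDerivAt.comp (x, k) hΦ1).add (K.subtypeL.hasFDerivAt.comp (x, k) hasFDerivAt_snd)
    rw [h1.fderiv]
    simp [hg0]
  refine ⟨M.symm (x, k), ?_, ?_⟩
  · change M (M.symm (x, k)) ∈ C
    rw [ContinuousLinearEquiv.apply_symm_apply]
    refine ⟨hqD, (ζ, 0), ?_, hΨ0⟩
    intro h0
    exact hζ (congrArg Prod.fst h0)
  · change Ψ (M (M.symm (x, k))) = p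
    rw [ContinuousLinearEquiv.apply_symm_apply, hp]

end

end NP2

/-- Module NP2. -/
theorem m_NP2 : StNP2 := by
  intro X P Y _ _ _ _ _ _ _ _ _ _ _ μ _ s L c hdim hs hL hc hsurj
  haveI : ProperSpace X := FiniteDimensional.proper ℝ X
  have h : ∀ x₀ : X, ∃ V : Set X, x₀ ∈ s → (IsOpen V ∧ x₀ ∈ V ∧ μ {p | ∃ x ∈ V, L x p = c x ∧
      ¬ Function.Injective (fderiv ℝ (fun x => L x p - c x) x)} = 0) := by
    intro x₀
    by_cases hx : x₀ ∈ s
    · obtain ⟨V, hV⟩ := NP2.local_null μ hdim hs hL hc hsurj hx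
      exact ⟨V, fun _ => hV⟩
    · exact ⟨∅, fun h => absurd h hx⟩
  choose V hV using h
  obtain ⟨t, ht, htc, hcov⟩ := TopologicalSpace.countable_cover_nhdsWithin (s := s) (f := V)
    fun x hx => mem_nhdsWithin_of_mem_nhds ((hV x hx).1.mem_nhds (hV x hx).2.1)
  have h0 : μ (⋃ x₀ ∈ t, {p | ∃ x ∈ V x₀, L x p = c x ∧
      ¬ Function.Injective (fderiv ℝ (fun x => L x p - c x) x)}) = 0 :=
    (measure_biUnion_null_iff htc).2 fun x₀ hx₀ => (hV x₀ (ht hx₀)).2.2
  refine measure_mono_null ?_ h0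
  rintro p ⟨x, hx, h1, h2⟩
  obtain ⟨x₀, hx₀, hxV⟩ := mem_iUnion₂.1 (hcov hx)
  exact mem_iUnion₂.2 ⟨x₀, hx₀, x, hxV, h1, h2⟩

end Pool.Agent.Helper34.BI.H


end

/-! ## Helper34.BI.H.M_NU1 -/

section

/-!
# Project BI, stage 3, module NU1: generic families of arcs are immersed
-/

set_option autoImplicit false

open Module Set Filter Topology MeasureTheory
open scoped ContDiff Manifold
open Pool.Agent.Helper65.Barb Pool.Agent.Helper18.BI

namespace Pool.Agent.Helper34.BI.H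

namespace NU1

/-- the derivatives of the monomials in `s` -/
def dmon (z : ℝ × ℝ × ℝ) : Fin 8 → ℝ :=
  ![0, 1, 2 * z.2.2, 3 * z.2.2 ^ 2, 0, z.2.1, 0, z.1]

theorem hasDerivAt_mon (u q s : ℝ) (j : Fin 8) :
    HasDerivAt (fun s => mon (u, q, s) j) (dmon (u, q, s) j) s := by
  have h1 : HasDerivAt (fun s : ℝ => s) 1 s := hasDerivAt_id s
  have h2 : HasDerivAt (fun s : ℝ => s ^ 2) (2 * s) s := by
    have := hasDerivAt_pow 2 s
    simpa using this
  have h3 : HasDerivAt (fun s : ℝ => s ^ 3) (3 * s ^ 2) s := by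
    have := hasDerivAt_pow 3 s
    simpa using this
  have h5 : HasDerivAt (fun s : ℝ => q * s) q s := by
    have := h1.const_mul q
    simpa using this
  have h7 : HasDerivAt (fun s : ℝ => u * s) u s := by
    have := h1.const_mul u
    simpa using this
  fin_cases j
  · exact hasDerivAt_const s (1 : ℝ)
  · exact h1
  · exact h2
  · exact h3
  · exact hasDerivAt_const s q
  · exact h5
  · exact hasDerivAt_const s u
  · exact h7

theorem differentiable_mon (j : Fin 8) : Differentiable ℝ (fun z : ℝ × ℝ × ℝ => mon z j) := by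
  fin_cases j
  · exact differentiable_const (1 : ℝ)
  · show Differentiable ℝ (fun z : ℝ × ℝ × ℝ => z.2.2)
    fun_prop
  · show Differentiable ℝ (fun z : ℝ × ℝ × ℝ => z.2.2 ^ 2)
    fun_prop
  · show Differentiable ℝ (fun z : ℝ × ℝ × ℝ => z.2.2 ^ 3)
    fun_prop
  · show Differentiable ℝ (fun z : ℝ × ℝ × ℝ => z.2.1)
    fun_prop
  · show Differentiable ℝ (fun z : ℝ × ℝ × ℝ => z.2.1 * z.2.2)
    fun_prop
  · show Differentiable ℝ (fun z : ℝ × ℝ × ℝ => z.1)
    fun_prop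
  · show Differentiable ℝ (fun z : ℝ × ℝ × ℝ => z.1 * z.2.2)
    fun_prop

theorem differentiable_dmon (j : Fin 8) : Differentiable ℝ (fun z : ℝ × ℝ × ℝ => dmon z j) := by
  fin_cases j
  · exact differentiable_const (0 : ℝ)
  · exact differentiable_const (1 : ℝ)
  · show Differentiable ℝ (fun z : ℝ × ℝ × ℝ => 2 * z.2.2)
    fun_prop
  · show Differentiable ℝ (fun z : ℝ × ℝ × ℝ => 3 * z.2.2 ^ 2)
    fun_prop
  · exact differentiable_const (0 : ℝ)
  · show Differentiable ℝ (fun z : ℝ × ℝ × ℝ => z.2.1)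
    fun_prop
  · exact differentiable_const (0 : ℝ)
  · show Differentiable ℝ (fun z : ℝ × ℝ × ℝ => z.1)
    fun_prop

/-- the coefficients -/
noncomputable def co (ρ : ℝ × ℝ → ℝ) (χ : ℝ → ℝ) (z : ℝ × ℝ × ℝ) (j : Fin 8) : ℝ :=
  ρ (z.1, z.2.1) * (deriv χ z.2.2 * mon z j + χ z.2.2 * dmon z j)

/-- the linear maps -/
noncomputable def Lm (ρ : ℝ × ℝ → ℝ) (χ : ℝ → ℝ) (z : ℝ × ℝ × ℝ) : (Fin 8 → R4) →L[ℝ] R4 :=
  ∑ j, co ρ χ z j • (ContinuousLinearMap.proj j : (Fin 8 → R4) →L[ℝ] R4)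

theorem Lm_apply (ρ : ℝ × ℝ → ℝ) (χ : ℝ → ℝ) (z : ℝ × ℝ × ℝ) (p : Fin 8 → R4) :
    Lm ρ χ z p = ∑ j, co ρ χ z j • p j := by
  unfold Lm
  simp only [_root_.sum_apply]
  rfl

theorem deriv_prt {α : ℝ × ℝ × ℝ → R4} {ρ : ℝ × ℝ → ℝ} {χ : ℝ → ℝ} (hα : Differentiable ℝ α)
    (hχ : Differentiable ℝ χ) (p : Fin 8 → R4) (u q s : ℝ) :
    deriv (fun s => prt α ρ χ p (u, q, s)) s =
      fderiv ℝ α (u, q, s) (0, 0, 1) + Lm ρ χ (u, q, s) p := by
  have h1 : HasDerivAt (fun s : ℝ => (u, q, s)) ((0 : ℝ), (0 : ℝ), (1 : ℝ)) s :=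
    (hasDerivAt_const s u).prodMk ((hasDerivAt_const s q).prodMk (hasDerivAt_id s))
  have h2 : HasDerivAt (fun s : ℝ => α (u, q, s)) (fderiv ℝ α (u, q, s) (0, 0, 1)) s :=
    (hα (u, q, s)).hasFDerivAt.comp_hasDerivAt s h1
  have h3 : ∀ j : Fin 8, HasDerivAt (fun s : ℝ => (ρ (u, q) * χ s * mon (u, q, s) j) • p j)
      (co ρ χ (u, q, s) j • p j) s := by
    intro j
    have h4 := (((hχ s).hasDerivAt.const_mul (ρ (u, q))).mul (hasDerivAt_mon u q s j)).smul_const
      (p j)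
    have e : co ρ χ (u, q, s) j = ρ (u, q) * deriv χ s * mon (u, q, s) j +
        ρ (u, q) * χ s * dmon (u, q, s) j := by
      unfold co
      ring
    rw [e]
    exact h4
  have h5 := h2.add (HasDerivAt.fun_sum (u := Finset.univ) (fun j _ => h3 j))
  rw [Lm_apply]
  exact h5.deriv

theorem surj {ρ : ℝ × ℝ → ℝ} {χ : ℝ → ℝ} {z : ℝ × ℝ × ℝ} (h1 : ρ (z.1, z.2.1) ≠ 0)
    (h2 : χ z.2.2 ≠ 0) : Function.Surjective (Lm ρ χ z) := by
  have key : ∀ j : Fin 8, co ρ χ z j ≠ 0 → Function.Surjective (Lm ρ χ z) := by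
    intro j hj y
    refine ⟨Pi.single j ((co ρ χ z j)⁻¹ • y), ?_⟩
    rw [Lm_apply, Finset.sum_eq_single j]
    · rw [Pi.single_eq_same, smul_smul, mul_inv_cancel₀ hj, one_smul]
    · intro i _ hij
      rw [Pi.single_eq_of_ne hij, smul_zero]
    · intro h
      exact absurd (Finset.mem_univ j) h
  by_cases h3 : co ρ χ z 0 ≠ 0
  · exact key 0 h3
  · push Not at h3
    apply key 1
    intro h4
    have e0 : co ρ χ z 0 = ρ (z.1, z.2.1) * (deriv χ z.2.2 * 1 + χ z.2.2 * 0) := rfl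
    have e1 : co ρ χ z 1 = ρ (z.1, z.2.1) * (deriv χ z.2.2 * z.2.2 + χ z.2.2 * 1) := rfl
    rw [e0] at h3
    rw [e1] at h4
    have h5 := (mul_eq_zero.1 h3).resolve_left h1
    have h6 := (mul_eq_zero.1 h4).resolve_left h1
    have h7 : deriv χ z.2.2 = 0 := by linarith
    rw [h7] at h6
    apply h2
    linarith

end NU1

/-- MODULE NU1. -/
theorem m_NU1 (hNP1 : StNP1) : StNU1 := by
  intro μ _ α ρ χ hα hρ hχ
  have d0 : Differentiable ℝ α := hα.differentiable (by simp)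
  have d1 : Differentiable ℝ ρ := hρ.differentiable (by simp)
  have d2 : Differentiable ℝ χ := hχ.differentiable (by simp)
  have d4 : Differentiable ℝ (deriv χ) :=
    (ContDiff.deriv' (n := ∞) (by simpa using hχ)).differentiable (by simp)
  have d3 : Differentiable ℝ (fun x : ℝ × ℝ × ℝ => fderiv ℝ α x (0, 0, 1)) := by
    have : ContDiff ℝ ∞ (fderiv ℝ α) := hα.fderiv_right (by simp)
    exact ((this.differentiable (by simp)).clm_apply (differentiable_const _))
  have hdim : finrank ℝ (ℝ × ℝ × ℝ) < finrank ℝ R4 := by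
    simp [Complex.finrank_real_complex]
  have dco : ∀ j : Fin 8, Differentiable ℝ (fun z : ℝ × ℝ × ℝ => NU1.co ρ χ z j) := by
    intro j
    have e1 := NU1.differentiable_mon j
    have e2 := NU1.differentiable_dmon j
    have e3 : Differentiable ℝ (fun z : ℝ × ℝ × ℝ => ρ (z.1, z.2.1)) :=
      d1.comp (by fun_prop)
    have e4 : Differentiable ℝ (fun z : ℝ × ℝ × ℝ => deriv χ z.2.2) := d4.comp (by fun_prop)
    have e5 : Differentiable ℝ (fun z : ℝ × ℝ × ℝ => χ z.2.2) := d2.comp (by fun_prop)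
    exact e3.mul ((e4.mul e1).add (e5.mul e2))
  have dL : Differentiable ℝ (NU1.Lm ρ χ) := by
    unfold NU1.Lm
    exact Differentiable.fun_sum (fun j _ => (dco j).smul_const _)
  have key := hNP1 (ℝ × ℝ × ℝ) (Fin 8 → R4) R4 μ
    {z : ℝ × ℝ × ℝ | ρ (z.1, z.2.1) ≠ 0 ∧ χ z.2.2 ≠ 0} (NU1.Lm ρ χ)
    (fun z => -fderiv ℝ α z (0, 0, 1)) hdim dL.differentiableOn d3.neg.differentiableOn
    (fun z hz => NU1.surj hz.1 hz.2)
  refine measure_mono_null ?_ key
  rintro p ⟨u, q, s, h1, h2, h3⟩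
  refine ⟨(u, q, s), ⟨h1, h2⟩, ?_⟩
  rw [NU1.deriv_prt d0 d2] at h3
  rw [eq_neg_iff_add_eq_zero, add_comm]
  exact h3

end Pool.Agent.Helper34.BI.H


end

/-! ## Helper34.BI.H.M_NU4 -/

section

/-!
# Project BI, stage 3: module NU4
-/

set_option autoImplicit false

open Module Set Filter Topology MeasureTheory
open scoped ContDiff Manifold
open Pool.Agent.Helper65.Barb Pool.Agent.Helper18.BI

namespace Pool.Agent.Helper34.BI.H

namespace NU4

/-- Two linearly independent rows of coefficients give a surjective map. -/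
theorem surj_rows {Y : Type*} [NormedAddCommGroup Y] [NormedSpace ℝ Y] (a b : Fin 8 → ℝ)
    (h : ∀ A B : ℝ, (∀ j, A * a j + B * b j = 0) → A = 0 ∧ B = 0) (y y' : Y) :
    ∃ p : Fin 8 → Y, ∑ j, a j • p j = y ∧ ∑ j, b j • p j = y' := by
  by_cases hd : ∃ j k, a j * b k - a k * b j ≠ 0
  · obtain ⟨j, k, hjk⟩ := hd
    set d := a j * b k - a k * b j with hdd
    refine ⟨Pi.single j (d⁻¹ • (b k • y - a k • y')) + Pi.single k (d⁻¹ • (a j • y' - b j • y)),
      ?_, ?_⟩
    · simp only [Pi.add_apply, smul_add, Finset.sum_add_distrib, Pi.single_apply, smul_ite,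
        smul_zero, Finset.sum_ite_eq', Finset.mem_univ, if_true]
      have : a j • d⁻¹ • (b k • y - a k • y') + a k • d⁻¹ • (a j • y' - b j • y)
          = (d⁻¹ * d) • y := by
        rw [hdd]
        module
      rw [this, inv_mul_cancel₀ hjk, one_smul]
    · simp only [Pi.add_apply, smul_add, Finset.sum_add_distrib, Pi.single_apply, smul_ite,
        smul_zero, Finset.sum_ite_eq', Finset.mem_univ, if_true]
      have : b j • d⁻¹ • (b k • y - a k • y') + b k • d⁻¹ • (a j • y' - b j • y)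
          = (d⁻¹ * d) • y' := by
        rw [hdd]
        module
      rw [this, inv_mul_cancel₀ hjk, one_smul]
  · exfalso
    push Not at hd
    have hab : ∀ k, b k = 0 ∧ a k = 0 := by
      intro k
      have := h (b k) (-a k) (fun j => by have := hd j k; linarith)
      exact ⟨this.1, neg_eq_zero.1 this.2⟩
    have := (h 1 0 (fun j => by rw [(hab j).2]; ring)).1
    exact one_ne_zero this

/-- three distinct points -/
theorem three {x y z a b c A B : ℝ} (hxy : x ≠ y) (hxz : x ≠ z) (hyz : y ≠ z)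
    (h1 : a ≠ 0 ∨ b ≠ 0) (h2 : a ≠ 0 ∨ c ≠ 0) (h3 : b ≠ 0 ∨ c ≠ 0)
    (e0 : A * (a - b) + B * (a - c) = 0) (e1 : A * (a * x - b * y) + B * (a * x - c * z) = 0)
    (e2 : A * (a * x ^ 2 - b * y ^ 2) + B * (a * x ^ 2 - c * z ^ 2) = 0) : A = 0 ∧ B = 0 := by
  have k1 : (A + B) * a = 0 := by
    have : ((A + B) * a) * ((x - y) * (x - z)) = 0 := by
      linear_combination e2 - (y + z) * e1 + y * z * e0
    exact (mul_eq_zero.1 this).resolve_right
      (mul_ne_zero (sub_ne_zero.2 hxy) (sub_ne_zero.2 hxz))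
  have k2 : A * b = 0 := by
    have : (A * b) * ((y - x) * (y - z)) = 0 := by
      linear_combination -e2 + (x + z) * e1 - x * z * e0
    exact (mul_eq_zero.1 this).resolve_right
      (mul_ne_zero (sub_ne_zero.2 hxy.symm) (sub_ne_zero.2 hyz))
  have k3 : B * c = 0 := by
    have : (B * c) * ((z - x) * (z - y)) = 0 := by
      linear_combination -e2 + (x + y) * e1 - x * y * e0
    exact (mul_eq_zero.1 this).resolve_right
      (mul_ne_zero (sub_ne_zero.2 hxz.symm) (sub_ne_zero.2 hyz.symm))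
  by_cases hb : b = 0
  · have ha : a ≠ 0 := h1.resolve_right (not_not.2 hb)
    have hc : c ≠ 0 := h3.resolve_left (not_not.2 hb)
    have hB : B = 0 := (mul_eq_zero.1 k3).resolve_right hc
    have hAB : A + B = 0 := (mul_eq_zero.1 k1).resolve_right ha
    exact ⟨by linarith, hB⟩
  · have hA : A = 0 := (mul_eq_zero.1 k2).resolve_right hb
    refine ⟨hA, ?_⟩
    rcases h2 with ha | hc
    · have hAB : A + B = 0 := (mul_eq_zero.1 k1).resolve_right ha
      linarith
    · exact (mul_eq_zero.1 k3).resolve_right hc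

/-- four points -/
theorem four {χ : ℝ → ℝ} {s t s' t' A B : ℝ} (h : Adm χ s t s' t')
    (e0 : A * (χ s - χ t) + B * (χ s' - χ t') = 0)
    (e1 : A * (χ s * s - χ t * t) + B * (χ s' * s' - χ t' * t') = 0)
    (e2 : A * (χ s * s ^ 2 - χ t * t ^ 2) + B * (χ s' * s' ^ 2 - χ t' * t' ^ 2) = 0)
    (e3 : A * (χ s * s ^ 3 - χ t * t ^ 3) + B * (χ s' * s' ^ 3 - χ t' * t' ^ 3) = 0) :
    A = 0 ∧ B = 0 := by
  obtain ⟨n1, n2, n3, n4, c1, c2, d1, d2, d3, d4⟩ := h
  by_cases q1 : s = s'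
  · subst q1
    have htt : t ≠ t' := fun h => n3 ⟨rfl, h⟩
    exact three n1 n2 htt c1 c2 (d1 rfl) e0 e1 e2
  by_cases q2 : s = t'
  · subst q2
    have htt : t ≠ s' := fun h => n4 ⟨rfl, h⟩
    have := three (A := A) (B := -B) n1 q1 htt c1 c2.symm (d2 rfl) (by linear_combination e0)
      (by linear_combination e1) (by linear_combination e2)
    exact ⟨this.1, neg_eq_zero.1 this.2⟩
  by_cases q3 : t = s'
  · subst q3
    have := three (A := -A) (B := B) n1.symm n2 q2 c1.symm c2 (d3 rfl)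
      (by linear_combination e0) (by linear_combination e1) (by linear_combination e2)
    exact ⟨neg_eq_zero.1 this.1, this.2⟩
  by_cases q4 : t = t'
  · subst q4
    have := three (A := -A) (B := -B) n1.symm n2.symm q1 c1.symm c2.symm (d4 rfl)
      (by linear_combination e0) (by linear_combination e1) (by linear_combination e2)
    exact ⟨neg_eq_zero.1 this.1, neg_eq_zero.1 this.2⟩
  have k1 : A * χ s = 0 := by
    have : (A * χ s) * ((s - t) * (s - s') * (s - t')) = 0 := by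
      linear_combination e3 - (t + s' + t') * e2 + (t * s' + t * t' + s' * t') * e1
        - t * s' * t' * e0
    exact (mul_eq_zero.1 this).resolve_right (mul_ne_zero (mul_ne_zero (sub_ne_zero.2 n1)
      (sub_ne_zero.2 q1)) (sub_ne_zero.2 q2))
  have k2 : A * χ t = 0 := by
    have : (A * χ t) * ((t - s) * (t - s') * (t - t')) = 0 := by
      linear_combination -e3 + (s + s' + t') * e2 - (s * s' + s * t' + s' * t') * e1
        + s * s' * t' * e0
    exact (mul_eq_zero.1 this).resolve_right (mul_ne_zero (mul_ne_zero (sub_ne_zero.2 n1.symm)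
      (sub_ne_zero.2 q3)) (sub_ne_zero.2 q4))
  have k3 : B * χ s' = 0 := by
    have : (B * χ s') * ((s' - s) * (s' - t) * (s' - t')) = 0 := by
      linear_combination e3 - (s + t + t') * e2 + (s * t + s * t' + t * t') * e1
        - s * t * t' * e0
    exact (mul_eq_zero.1 this).resolve_right (mul_ne_zero (mul_ne_zero (sub_ne_zero.2 (Ne.symm q1))
      (sub_ne_zero.2 (Ne.symm q3))) (sub_ne_zero.2 n2))
  have k4 : B * χ t' = 0 := by
    have : (B * χ t') * ((t' - s) * (t' - t) * (t' - s')) = 0 := by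
      linear_combination -e3 + (s + t + s') * e2 - (s * t + s * s' + t * s') * e1
        + s * t * s' * e0
    exact (mul_eq_zero.1 this).resolve_right (mul_ne_zero (mul_ne_zero (sub_ne_zero.2 (Ne.symm q2))
      (sub_ne_zero.2 (Ne.symm q4))) (sub_ne_zero.2 n2.symm))
  constructor
  · rcases c1 with h | h
    · exact (mul_eq_zero.1 k1).resolve_right h
    · exact (mul_eq_zero.1 k2).resolve_right h
  · rcases c2 with h | h
    · exact (mul_eq_zero.1 k3).resolve_right h
    · exact (mul_eq_zero.1 k4).resolve_right h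

/-- the coefficients of the difference of two strands -/
noncomputable def lam (ρ : ℝ × ℝ → ℝ) (χ : ℝ → ℝ) (u q s t : ℝ) (j : Fin 8) : ℝ :=
  ρ (u, q) * χ s * mon (u, q, s) j - ρ (u, q) * χ t * mon (u, q, t) j

theorem differentiable_mon (j : Fin 8) : Differentiable ℝ (fun z : ℝ × ℝ × ℝ => mon z j) := by
  fin_cases j <;> simp only [mon] <;> simp <;> fun_prop

theorem prt_sub (α : ℝ × ℝ × ℝ → R4) (ρ : ℝ × ℝ → ℝ) (χ : ℝ → ℝ) (p : Fin 8 → R4)
    (u q s t : ℝ) : prt α ρ χ p (u, q, s) - prt α ρ χ p (u, q, t)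
      = α (u, q, s) - α (u, q, t) + ∑ j, lam ρ χ u q s t j • p j := by
  simp only [prt, lam, sub_smul, Finset.sum_sub_distrib]
  abel

/-- the first block -/
noncomputable def P1 (j : Fin 8) : (Fin 8 → R4) →L[ℝ] R4 × R4 :=
  (ContinuousLinearMap.inl ℝ R4 R4).comp (ContinuousLinearMap.proj j)

/-- the second block -/
noncomputable def P2 (j : Fin 8) : (Fin 8 → R4) →L[ℝ] R4 × R4 :=
  (ContinuousLinearMap.inr ℝ R4 R4).comp (ContinuousLinearMap.proj j)

end NU4

open NU4

theorem m_NU4 (h1 : StNP1) : StNU4 := by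
  intro μ _ α ρ χ hα hρ hχ
  let X := ℝ × ℝ × ℝ × ℝ × ℝ × ℝ
  let L : X → (Fin 8 → R4) →L[ℝ] R4 × R4 := fun x =>
    ∑ j, (lam ρ χ x.1 x.2.1 x.2.2.1 x.2.2.2.1 j • P1 j
      + lam ρ χ x.1 x.2.1 x.2.2.2.2.1 x.2.2.2.2.2 j • P2 j)
  let c : X → R4 × R4 := fun x =>
    (-(α (x.1, x.2.1, x.2.2.1) - α (x.1, x.2.1, x.2.2.2.1)),
      -(α (x.1, x.2.1, x.2.2.2.2.1) - α (x.1, x.2.1, x.2.2.2.2.2)))
  let S : Set X := {x | ρ (x.1, x.2.1) ≠ 0 ∧ Adm χ x.2.2.1 x.2.2.2.1 x.2.2.2.2.1 x.2.2.2.2.2}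
  have hLval : ∀ x p, L x p = (∑ j, lam ρ χ x.1 x.2.1 x.2.2.1 x.2.2.2.1 j • p j,
      ∑ j, lam ρ χ x.1 x.2.1 x.2.2.2.2.1 x.2.2.2.2.2 j • p j) := by
    intro x p
    simp only [L, P1, P2, ContinuousLinearMap.sum_apply, ContinuousLinearMap.add_apply,
      ContinuousLinearMap.smul_apply, ContinuousLinearMap.comp_apply,
      ContinuousLinearMap.proj_apply, ContinuousLinearMap.inl_apply,
      ContinuousLinearMap.inr_apply, Prod.smul_mk, Prod.mk_add_mk, smul_zero, add_zero, zero_add]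
    ext <;> simp [Prod.fst_sum, Prod.snd_sum]
  have hdρ : Differentiable ℝ ρ := hρ.differentiable (by simp)
  have hdχ : Differentiable ℝ χ := hχ.differentiable (by simp)
  have hdα : Differentiable ℝ α := hα.differentiable (by simp)
  have hlam1 : ∀ j, Differentiable ℝ
      (fun x : X => lam ρ χ x.1 x.2.1 x.2.2.1 x.2.2.2.1 j) := by
    intro j
    have := differentiable_mon j
    unfold lam
    fun_prop
  have hlam2 : ∀ j, Differentiable ℝ
      (fun x : X => lam ρ χ x.1 x.2.1 x.2.2.2.2.1 x.2.2.2.2.2 j) := by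
    intro j
    have := differentiable_mon j
    unfold lam
    fun_prop
  have hL : DifferentiableOn ℝ L S := by
    apply Differentiable.differentiableOn
    refine Differentiable.fun_sum fun j _ => ?_
    exact ((hlam1 j).smul_const (P1 j)).add ((hlam2 j).smul_const (P2 j))
  have hc : DifferentiableOn ℝ c S := by
    apply Differentiable.differentiableOn
    show Differentiable ℝ (fun x : X => (-(α (x.1, x.2.1, x.2.2.1) - α (x.1, x.2.1, x.2.2.2.1)),
      -(α (x.1, x.2.1, x.2.2.2.2.1) - α (x.1, x.2.1, x.2.2.2.2.2))))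
    fun_prop
  have hs : ∀ x ∈ S, Function.Surjective (L x) := by
    rintro ⟨u, q, s, t, s', t'⟩ ⟨hr, hadm⟩ ⟨y, y'⟩
    simp only at hr hadm
    obtain ⟨p, hp, hp'⟩ := surj_rows (lam ρ χ u q s t) (lam ρ χ u q s' t') (by
      intro A B hAB
      have hh : ∀ e : ℝ, ρ (u, q) * e = 0 → e = 0 := fun e he =>
        (mul_eq_zero.1 he).resolve_left hr
      refine four hadm (hh _ ?_) (hh _ ?_) (hh _ ?_) (hh _ ?_)
      · have := hAB 0
        simp only [lam, mon] at this
        simp at this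
        linear_combination this
      · have := hAB 1
        simp only [lam, mon] at this
        simp at this
        linear_combination this
      · have := hAB 2
        simp only [lam, mon] at this
        simp at this
        linear_combination this
      · have := hAB 3
        simp only [lam, mon] at this
        simp at this
        linear_combination this) y y'
    refine ⟨p, ?_⟩
    rw [hLval]
    simp only
    rw [hp, hp']
  have hdim : finrank ℝ X < finrank ℝ (R4 × R4) := by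
    simp only [X, R4, Module.finrank_prod, Module.finrank_self, Complex.finrank_real_complex]
    norm_num
  have key := h1 X (Fin 8 → R4) (R4 × R4) μ S L c hdim hL hc hs
  refine measure_mono_null ?_ key
  rintro p ⟨u, q, s, t, s', t', hr, hadm, he, he'⟩
  refine ⟨(u, q, s, t, s', t'), ⟨hr, hadm⟩, ?_⟩
  rw [hLval]
  have g1 := prt_sub α ρ χ p u q s t
  have g2 := prt_sub α ρ χ p u q s' t'
  rw [he, sub_self] at g1
  rw [he', sub_self] at g2
  refine Prod.ext ?_ ?_
  · show ∑ j, lam ρ χ u q s t j • p j = -(α (u, q, s) - α (u, q, t))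
    exact (neg_eq_of_add_eq_zero_right g1.symm).symm
  · show ∑ j, lam ρ χ u q s' t' j • p j = -(α (u, q, s') - α (u, q, t'))
    exact (neg_eq_of_add_eq_zero_right g2.symm).symm

end Pool.Agent.Helper34.BI.H


end

/-! ## Helper34.BI.H.M_GPD -/

section

/-!
# Project BI, stage 3, module GPD: general position for homotopies of loops of arcs

This is `StGP` of `Pool/Agent/Helper27/BI/H/StH1.lean`; the proof follows module H4 (helper63).
-/

set_option autoImplicit false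

open Module Set Filter Topology MeasureTheory
open scoped ContDiff Manifold
open Pool.Agent.Helper65.Barb Pool.Agent.Helper18.BI
open Pool.Agent.Helper70.BI (I4)

namespace Pool.Agent.Helper34.BI.H

namespace GPD

open H4m

/-- smallness of the perturbation, for a closed set -/
lemma exists_eps' {α : ℝ × ℝ × ℝ → R4} {ρ : ℝ × ℝ → ℝ} {χ : ℝ → ℝ} (hα : Continuous α)
    (hρ : Continuous ρ) (hχ : Continuous χ) {U : Set R4} (hU : IsOpen U)
    {S : Set (ℝ × ℝ × ℝ)} (hS : IsCompact S) (hSK : ∀ z ∈ S, α z ∈ U) :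
    ∃ ε > 0, ∀ p : Fin 8 → R4, ‖p‖ < ε → ∀ z ∈ S, prt α ρ χ p z ∈ U := by
  have hop : IsOpen {x : (Fin 8 → R4) × (ℝ × ℝ × ℝ) | prt α ρ χ x.1 x.2 ∈ U} :=
    hU.preimage (continuous_prt hα hρ hχ)
  have hsub : ({0} : Set (Fin 8 → R4)) ×ˢ S ⊆
      {x : (Fin 8 → R4) × (ℝ × ℝ × ℝ) | prt α ρ χ x.1 x.2 ∈ U} := by
    rintro ⟨p, z⟩ ⟨hp, hz⟩
    have hp' : p = 0 := hp
    subst hp'
    have : prt α ρ χ 0 z = α z := by simp [prt]
    simp only [mem_ofPred_eq, this]
    exact hSK z hz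
  obtain ⟨V, V', hV, -, h0, hSV, hUV⟩ := generalized_tube_lemma isCompact_singleton hS hop hsub
  obtain ⟨ε, hε, hball⟩ := Metric.isOpen_iff.1 hV 0 (h0 rfl)
  refine ⟨ε, hε, fun p hp z hz => ?_⟩
  exact hUV (mk_mem_prod (hball (by simpa using hp)) (hSV hz))

/-- derivative of the perturbation where `χ` vanishes -/
lemma deriv_zero {α : ℝ × ℝ × ℝ → R4} {ρ : ℝ × ℝ → ℝ} {χ : ℝ → ℝ}
    (hα : ContDiff ℝ ∞ α) (hχ : ContDiff ℝ ∞ χ) (hχ0 : ∀ s, 0 ≤ χ s) (p : Fin 8 → R4)
    (u q s : ℝ) (hs : χ s = 0) :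
    deriv (fun r => prt α ρ χ p (u, q, r)) s = deriv (fun r => α (u, q, r)) s := by
  have hmin : deriv χ s = 0 := by
    have : IsLocalMin χ s := Eventually.of_forall fun r => by
      show χ s ≤ χ r
      rw [hs]; exact hχ0 r
    exact this.deriv_eq_zero
  have d2 : HasDerivAt χ 0 s := by
    rw [← hmin]
    exact (hχ.differentiable (by simp) s).hasDerivAt
  let G : ℝ → R4 := fun r => ∑ j, (ρ (u, q) * mon (u, q, r) j) • p j
  have hG : Differentiable ℝ G := by
    have : ContDiff ℝ ∞ G := by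
      refine ContDiff.sum fun j _ => ?_
      have e1 : ContDiff ℝ ∞ (fun r : ℝ => mon (u, q, r) j) := (contDiff_mon j).comp (by fun_prop)
      have e2 : ContDiff ℝ ∞ (fun r : ℝ => ρ (u, q) * mon (u, q, r) j) := contDiff_const.mul e1
      exact e2.smul contDiff_const
    exact this.differentiable (by simp)
  have d3 : HasDerivAt (fun r => χ r • G r) 0 s := by
    have := d2.smul (hG s).hasDerivAt
    refine this.congr_deriv ?_
    simp [hs]
  have hα0 : Differentiable ℝ (fun r : ℝ => α (u, q, r)) := by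
    have : ContDiff ℝ ∞ (fun r : ℝ => α (u, q, r)) := hα.comp (by fun_prop)
    exact this.differentiable (by simp)
  have d4 := (hα0 s).hasDerivAt.add d3
  rw [add_zero] at d4
  have d5 : HasDerivAt (fun r => prt α ρ χ p (u, q, r)) (deriv (fun r => α (u, q, r)) s) s := by
    refine d4.congr_of_eventuallyEq (Eventually.of_forall fun r => ?_)
    simp only [prt, Pi.add_apply, G, Finset.smul_sum, smul_smul]
    congr 1
    refine Finset.sum_congr rfl fun j _ => ?_
    congr 1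
    ring
  exact d5.deriv

/-- functions which agree on one side have the same derivative -/
lemma deriv_eq_of_side {f g : ℝ → R4} {a s : ℝ} (hf : DifferentiableAt ℝ f s)
    (hg : DifferentiableAt ℝ g s) (h : (s ≤ a ∧ ∀ r ≤ a, f r = g r) ∨ (a ≤ s ∧ ∀ r, a ≤ r → f r = g r)) :
    deriv f s = deriv g s := by
  rcases h with ⟨hs, h⟩ | ⟨hs, h⟩
  · have h1 : HasDerivWithinAt g (deriv f s) (Iic s) s :=
      (hf.hasDerivAt.hasDerivWithinAt (s := Iic s)).congr
        (fun r hr => (h r (le_trans hr hs)).symm) (h s hs).symm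
    exact ((uniqueDiffOn_Iic s) s (by simp)).eq_deriv _ h1 hg.hasDerivAt.hasDerivWithinAt
  · have h1 : HasDerivWithinAt g (deriv f s) (Ici s) s :=
      (hf.hasDerivAt.hasDerivWithinAt (s := Ici s)).congr
        (fun r hr => (h r (le_trans hs hr)).symm) (h s hs).symm
    exact ((uniqueDiffOn_Ici s) s (by simp)).eq_deriv _ h1 hg.hasDerivAt.hasDerivWithinAt

/-- the derivative along the arcs is continuous -/
lemma deriv_arc {β : ℝ × ℝ × ℝ → R4} (hβ : ContDiff ℝ ∞ β) (u q s : ℝ) :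
    deriv (fun r => β (u, q, r)) s = fderiv ℝ β (u, q, s) (0, 0, 1) := by
  have l : HasDerivAt (fun r : ℝ => ((u, q, r) : ℝ × ℝ × ℝ)) (0, 0, 1) s :=
    (hasDerivAt_const s u).prodMk ((hasDerivAt_const s q).prodMk (hasDerivAt_id s))
  exact (HasFDerivAt.comp_hasDerivAt_of_eq s ((hβ.differentiable (by simp) (u, q, s)).hasFDerivAt)
    l rfl).deriv

/-- embeddedness near the boundary of the square -/
lemma exists_delta {β : ℝ × ℝ × ℝ → R4} (hβ : ContDiff ℝ ∞ β) {s₀ s₁ : ℝ}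
    (hemb : ∀ u q, Sq u q → (u = 0 ∨ u = 1 ∨ q = 0 ∨ q = 1) →
      InjOn (fun s => β (u, q, s)) (Icc s₀ s₁) ∧
      ∀ s ∈ Icc s₀ s₁, deriv (fun s => β (u, q, s)) s ≠ 0) :
    ∃ δ > 0, δ < 1 / 2 ∧ ∀ u q, Sq u q → Nb δ u q → InjOn (fun s => β (u, q, s)) (Icc s₀ s₁) ∧
      ∀ s ∈ Icc s₀ s₁, deriv (fun s => β (u, q, s)) s ≠ 0 := by
  let C : Set (ℝ × ℝ × ℝ × ℝ) := Icc (0 : ℝ) 1 ×ˢ (Icc (0 : ℝ) 1 ×ˢ (Icc s₀ s₁ ×ˢ Icc s₀ s₁))
  have hC : IsCompact C := isCompact_Icc.prod (isCompact_Icc.prod (isCompact_Icc.prod isCompact_Icc))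
  let B : Set (ℝ × ℝ × ℝ × ℝ) := {z | z ∈ C ∧ z.2.2.1 ≤ z.2.2.2 ∧
    β (z.1, z.2.1, z.2.2.1) = β (z.1, z.2.1, z.2.2.2) ∧
    (z.2.2.1 = z.2.2.2 → fderiv ℝ β (z.1, z.2.1, z.2.2.1) (0, 0, 1) = 0)}
  have hBc : IsClosed B := by
    rw [← isOpen_compl_iff, isOpen_iff_mem_nhds]
    intro z hz
    by_cases h1 : z ∈ C
    swap
    · filter_upwards [hC.isClosed.isOpen_compl.mem_nhds h1] with w hw hwB
      exact hw hwB.1
    by_cases h2 : z.2.2.1 ≤ z.2.2.2
    swap
    · have hop : IsOpen {w : ℝ × ℝ × ℝ × ℝ | w.2.2.2 < w.2.2.1} :=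
        isOpen_lt (by fun_prop) (by fun_prop)
      filter_upwards [hop.mem_nhds (not_le.1 h2)] with w hw hwB
      exact not_le.2 hw hwB.2.1
    by_cases h3 : β (z.1, z.2.1, z.2.2.1) = β (z.1, z.2.1, z.2.2.2)
    swap
    · have hop : IsOpen {y : ℝ × ℝ × ℝ × ℝ | β (y.1, y.2.1, y.2.2.1) ≠
            β (y.1, y.2.1, y.2.2.2)} :=
        isOpen_ne_fun (hβ.continuous.comp (by fun_prop)) (hβ.continuous.comp (by fun_prop))
      filter_upwards [hop.mem_nhds h3] with w hw hwB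
      exact hw hwB.2.2.1
    have h4 : ¬ (z.2.2.1 = z.2.2.2 → fderiv ℝ β (z.1, z.2.1, z.2.2.1) (0, 0, 1) = 0) := fun h =>
      hz ⟨h1, h2, h3, h⟩
    push Not at h4
    obtain ⟨h5, h6⟩ := h4
    obtain ⟨u, q, s, t⟩ := z
    simp only at h5 h6
    subst h5
    obtain ⟨N, hN, hNy⟩ := near_diag hβ (u := u) (q := q) (s := s) (by
      rw [deriv_arc hβ]; exact h6)
    have hcont : Continuous (fun z : ℝ × ℝ × ℝ × ℝ => fderiv ℝ β (z.1, z.2.1, z.2.2.1) (0, 0, 1)) := by
      have : Continuous (fderiv ℝ β) := hβ.continuous_fderiv (by simp)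
      exact (this.comp (by fun_prop)).clm_apply continuous_const
    have hop : IsOpen {z : ℝ × ℝ × ℝ × ℝ | fderiv ℝ β (z.1, z.2.1, z.2.2.1) (0, 0, 1) ≠ 0} :=
      isOpen_ne_fun hcont continuous_const
    filter_upwards [hN, hop.mem_nhds h6] with w hw hw2 hwB
    rcases hwB.2.1.lt_or_eq with h7 | h7
    · exact hNy w hw h7 hwB.2.2.1
    · exact hw2 (hwB.2.2.2 h7)
  have hBcomp : IsCompact B := hC.of_isClosed_subset hBc fun z hz => hz.1
  let g : ℝ × ℝ × ℝ × ℝ → ℝ := fun z => min (min z.1 (1 - z.1)) (min z.2.1 (1 - z.2.1))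
  have hg : Continuous g := by fun_prop
  -- members of `B` are the bad parameters
  have hbad : ∀ u q, Sq u q → ¬ (InjOn (fun s => β (u, q, s)) (Icc s₀ s₁) ∧
      ∀ s ∈ Icc s₀ s₁, deriv (fun s => β (u, q, s)) s ≠ 0) → ∃ s t, (u, q, s, t) ∈ B := by
    intro u q hS h
    by_cases h1 : InjOn (fun s => β (u, q, s)) (Icc s₀ s₁)
    · have h2 : ∃ s ∈ Icc s₀ s₁, deriv (fun s => β (u, q, s)) s = 0 := by
        by_contra hcon
        push Not at hcon
        exact h ⟨h1, hcon⟩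
      obtain ⟨s, hs, hd⟩ := h2
      rw [deriv_arc hβ] at hd
      exact ⟨s, s, ⟨hS.1, hS.2, hs, hs⟩, le_rfl, rfl, fun _ => hd⟩
    · unfold InjOn at h1
      push Not at h1
      obtain ⟨s, hs, t, ht, he, hne⟩ := h1
      rcases lt_or_gt_of_ne hne with hlt | hlt
      · exact ⟨s, t, ⟨hS.1, hS.2, hs, ht⟩, hlt.le, he, fun h => absurd h hlt.ne⟩
      · exact ⟨t, s, ⟨hS.1, hS.2, ht, hs⟩, hlt.le, he.symm, fun h => absurd h hlt.ne⟩
  have hpos : ∀ z ∈ B, 0 < g z := by
    rintro ⟨u, q, s, t⟩ ⟨⟨h1, h2, h3, h4⟩, h5, h6, h7⟩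
    simp only at h1 h2 h3 h4 h5 h6 h7
    by_contra hcon
    have h8 : u = 0 ∨ u = 1 ∨ q = 0 ∨ q = 1 := by
      by_contra hc2
      push Not at hc2
      obtain ⟨a1, a2, a3, a4⟩ := hc2
      apply hcon
      refine lt_min (lt_min (lt_of_le_of_ne h1.1 (Ne.symm a1)) ?_)
        (lt_min (lt_of_le_of_ne h2.1 (Ne.symm a3)) ?_)
      · have := lt_of_le_of_ne h1.2 a2
        simp only
        linarith
      · have := lt_of_le_of_ne h2.2 a4
        simp only
        linarith
    obtain ⟨e1, e2⟩ := hemb u q ⟨h1, h2⟩ h8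
    rcases h5.lt_or_eq with h9 | h9
    · exact h9.ne (e1 h3 h4 h6)
    · have := e2 s h3
      rw [deriv_arc hβ] at this
      exact this (h7 h9)
  rcases B.eq_empty_or_nonempty with hE | hE
  · refine ⟨1 / 4, by norm_num, by norm_num, fun u q hS _ => ?_⟩
    by_contra hcon
    obtain ⟨s, t, hst⟩ := hbad u q hS hcon
    rw [hE] at hst
    exact hst
  · obtain ⟨z₀, hz₀, hmin⟩ := hBcomp.exists_isMinOn hE hg.continuousOn
    have hz0 := hpos z₀ hz₀
    refine ⟨min (g z₀ / 2) (1 / 4), by positivity, lt_of_le_of_lt (min_le_right _ _) (by norm_num),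
      fun u q hS hNb => ?_⟩
    by_contra hcon
    obtain ⟨s, t, hst⟩ := hbad u q hS hcon
    have h1 : g z₀ ≤ g (u, q, s, t) := hmin hst
    have h2 : min (g z₀ / 2) (1 / 4) ≤ g z₀ / 2 := min_le_left _ _
    have h3 : g (u, q, s, t) ≤ g z₀ / 2 := by
      rcases hNb with h | h | h | h
      · exact ((min_le_left _ _).trans (min_le_left _ _)).trans (h.trans h2)
      · refine ((min_le_left _ _).trans (min_le_right _ _)).trans ?_
        simp only
        linarith
      · exact ((min_le_right _ _).trans (min_le_left _ _)).trans (h.trans h2)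
      · refine ((min_le_right _ _).trans (min_le_right _ _)).trans ?_
        simp only
        linarith
    linarith

end GPD

open H4m GPD

theorem m_GPD (hGP : StGP) : Pool.Agent.Helper27.H.StGP := by
  intro A c hc hemb0 hemb1
  have hα : ContDiff ℝ ∞ c := hc.smooth
  have hcJ : ∀ s ∈ Icc A.s₀ A.s₁, A.J (s, 0) = A.c s := A.core
  have hseg : ∀ s ∈ Icc A.s₀ A.s₁, ((s, 0) : R4) ∈ Pool.Agent.Helper27.H.seg A.s₀ A.s₁ :=
    fun s hs => ⟨hs.1, hs.2, rfl⟩
  -- the base arc is embedded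
  have hAinj : InjOn A.c (Icc A.s₀ A.s₁) := by
    intro s hs t ht h
    rw [← hcJ s hs, ← hcJ t ht] at h
    exact congrArg Prod.fst (A.emb.2 (hseg s hs) (hseg t ht) h)
  have hAimm : ∀ s ∈ Icc A.s₀ A.s₁, deriv A.c s ≠ 0 := by
    have hs01 : A.s₀ < A.s₁ := by linarith [A.h₀, A.h₁, A.h₂]
    intro s hs h0
    have h1 := A.emb.1 _ (hseg s hs)
    have d1 : HasFDerivAt A.J (fderiv ℝ A.J (s, 0)) (s, 0) :=
      ((eventually_contDiffAt h1).self_of_nhds.differentiableAt (by simp)).hasFDerivAt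
    have l : HasDerivAt (fun r : ℝ => ((r, 0) : R4)) (1, 0) s :=
      (hasDerivAt_id s).prodMk (hasDerivAt_const s (0 : ℝ × ℂ))
    have d2 : HasDerivAt (fun r : ℝ => A.J (r, 0)) (fderiv ℝ A.J (s, 0) (1, 0)) s :=
      HasFDerivAt.comp_hasDerivAt_of_eq s d1 l rfl
    have d3 : HasDerivAt A.c 0 s := by
      rw [← h0]
      exact (A.smooth.differentiable (by simp) s).hasDerivAt
    have e1 : fderiv ℝ A.J (s, 0) (1, 0) = 0 := by
      have w1 : HasDerivWithinAt (fun r : ℝ => A.J (r, 0)) 0 (Icc A.s₀ A.s₁) s :=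
        (d3.hasDerivWithinAt).congr (fun r hr => hcJ r hr) (hcJ s hs)
      exact ((uniqueDiffOn_Icc hs01) s hs).eq_deriv _ d2.hasDerivWithinAt w1
    have e2 := injective_fderiv h1 (a₁ := (1, 0)) (a₂ := 0) (by rw [e1, map_zero])
    exact one_ne_zero (congrArg Prod.fst e2)
  -- all arcs on the boundary of the square are embedded
  have hbd : ∀ u q, Sq u q → (u = 0 ∨ u = 1 ∨ q = 0 ∨ q = 1) →
      InjOn (fun s => c (u, q, s)) (Icc A.s₀ A.s₁) ∧
      ∀ s ∈ Icc A.s₀ A.s₁, deriv (fun s => c (u, q, s)) s ≠ 0 := by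
    rintro u q ⟨hu, hq⟩ (rfl | rfl | rfl | rfl)
    · exact ⟨(hemb0 q hq).2, (hemb0 q hq).1⟩
    · exact ⟨(hemb1 q hq).2, (hemb1 q hq).1⟩
    · have e : (fun s => c (u, 0, s)) = A.c := funext fun s => hc.start u hu s
      rw [e]
      exact ⟨hAinj, hAimm⟩
    · have e : (fun s => c (u, 1, s)) = A.c := funext fun s => hc.stop u hu s
      rw [e]
      exact ⟨hAinj, hAimm⟩
  obtain ⟨δ, hδ, hδ2, hemb⟩ := exists_delta hα hbd
  have hm01 : A.s₀ < A.m₀ ∧ A.m₀ < A.m₁ ∧ A.m₁ < A.s₁ := ⟨A.h₀, A.h₁, A.h₂⟩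
  set ρ : ℝ × ℝ → ℝ := fun x => hat (δ / 2) (1 - δ / 2) x.1 * hat (δ / 2) (1 - δ / 2) x.2
    with hρdef
  set χ : ℝ → ℝ := hat A.m₀ A.m₁ with hχdef
  have hρ : ContDiff ℝ ∞ ρ :=
    ((contDiff_hat _ _).comp contDiff_fst).mul ((contDiff_hat _ _).comp contDiff_snd)
  have hχ : ContDiff ℝ ∞ χ := contDiff_hat _ _
  have hρz : ∀ u q, ρ (u, q) = 0 → Nb δ u q := by
    intro u q h
    by_contra hcon
    unfold Nb at hcon
    push Not at hcon
    obtain ⟨c1, c2, c3, c4⟩ := hcon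
    exact mul_ne_zero (hat_ne_zero.2 ⟨by linarith, by linarith⟩)
      (hat_ne_zero.2 ⟨by linarith, by linarith⟩) h
  have hρz' : ∀ u q, Nb (δ / 2) u q → ρ (u, q) = 0 := by
    intro u q h
    simp only [hρdef]
    rcases h with h | h | h | h
    · rw [hat_eq_zero (Or.inl h), zero_mul]
    · rw [hat_eq_zero (Or.inr h), zero_mul]
    · rw [hat_eq_zero (Or.inl h), mul_zero]
    · rw [hat_eq_zero (Or.inr h), mul_zero]
  have hρi : ∀ u q, ρ (u, q) ≠ 0 → u ∈ Ioo (0 : ℝ) 1 ∧ q ∈ Ioo (0 : ℝ) 1 := by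
    intro u q h
    have h1 := hat_ne_zero.1 (left_ne_zero_of_mul h)
    have h2 := hat_ne_zero.1 (right_ne_zero_of_mul h)
    simp only at h1 h2
    exact ⟨⟨by linarith [h1.1], by linarith [h1.2]⟩, ⟨by linarith [h2.1], by linarith [h2.2]⟩⟩
  have hχz : ∀ s, χ s = 0 → s ≤ A.m₀ ∨ A.m₁ ≤ s := by
    intro s h
    by_contra hcon
    push Not at hcon
    exact hat_ne_zero.2 hcon h
  have hχz' : ∀ s, (s ≤ A.m₀ ∨ A.m₁ ≤ s) → χ s = 0 := fun s h => hat_eq_zero h
  have hχi : ∀ s, χ s ≠ 0 → A.m₀ < s ∧ s < A.m₁ := fun s h => hat_ne_zero.1 h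
  -- the perturbation
  have hScomp : IsCompact (Icc (0 : ℝ) 1 ×ˢ (Icc (0 : ℝ) 1 ×ˢ Icc A.m₀ A.m₁)) :=
    isCompact_Icc.prod (isCompact_Icc.prod isCompact_Icc)
  obtain ⟨ε, hε, hεK⟩ := exists_eps' hα.continuous hρ.continuous hχ.continuous A.openU hScomp
    (fun z hz => hc.inU z.1 hz.1 z.2.1 hz.2.1 z.2.2 hz.2.2)
  obtain ⟨p, hp, hgp⟩ := hGP c ρ χ hα hρ hχ ε hε
  set β : ℝ × ℝ × ℝ → R4 := prt c ρ χ p with hβdef
  have hβ : ContDiff ℝ ∞ β := contDiff_prt hα hρ hχ p
  have hβρ : ∀ u q s, ρ (u, q) = 0 → β (u, q, s) = c (u, q, s) := by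
    intro u q s h
    simp [hβdef, prt, h]
  have hβχ : ∀ u q, Sq u q → ∀ s, χ s = 0 → β (u, q, s) = A.c s := by
    intro u q hS s h
    have h1 : β (u, q, s) = c (u, q, s) := by simp [hβdef, prt, h]
    rw [h1]
    exact hc.froz u hS.1 q hS.2 s (hχz s h)
  have hoffβ : ∀ u q, Sq u q → ∀ s ∈ Icc A.m₀ A.m₁, β (u, q, s) ∈ A.U := by
    intro u q h s hs
    exact hεK p hp (u, q, s) ⟨h.1, h.2, hs⟩
  have himm : ∀ u q, Sq u q → ∀ s ∈ Icc A.s₀ A.s₁, deriv (fun s => β (u, q, s)) s ≠ 0 := by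
    intro u q h s hs
    by_cases h1 : ρ (u, q) = 0
    · have e : (fun s => β (u, q, s)) = fun s => c (u, q, s) := funext fun s => hβρ u q s h1
      rw [e]
      exact (hemb u q h (hρz u q h1)).2 s hs
    · by_cases h2 : χ s = 0
      · rw [hβdef, deriv_zero hα hχ (fun s => hat_nonneg _ _ s) p u q s h2]
        have hd1 : DifferentiableAt ℝ (fun r : ℝ => c (u, q, r)) s := by
          have : ContDiff ℝ ∞ (fun r : ℝ => c (u, q, r)) := hα.comp (by fun_prop)
          exact this.differentiable (by simp) s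
        have hd2 : DifferentiableAt ℝ A.c s := A.smooth.differentiable (by simp) s
        have e : deriv (fun r => c (u, q, r)) s = deriv A.c s := by
          rcases hχz s h2 with h3 | h3
          · exact deriv_eq_of_side hd1 hd2 (Or.inl ⟨h3, fun r hr =>
              hc.froz u h.1 q h.2 r (Or.inl hr)⟩)
          · exact deriv_eq_of_side hd1 hd2 (Or.inr ⟨h3, fun r hr =>
              hc.froz u h.1 q h.2 r (Or.inr hr)⟩)
        rw [e]
        exact hAimm s hs
      · exact hgp.imm u q s h1 h2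
  let D : Set (ℝ × ℝ × ℝ × ℝ) := {d | Sq d.1 d.2.1 ∧ d.2.2.1 ∈ Icc A.s₀ A.s₁ ∧
    d.2.2.2 ∈ Icc A.s₀ A.s₁ ∧
    d.2.2.1 < d.2.2.2 ∧ β (d.1, d.2.1, d.2.2.1) = β (d.1, d.2.1, d.2.2.2)}
  have hDρ : ∀ d ∈ D, ρ (d.1, d.2.1) ≠ 0 := by
    rintro ⟨u, q, s, t⟩ ⟨h1, h2, h3, h4, h5⟩ h
    simp only at h1 h2 h3 h4 h5 h
    rw [hβρ u q s h, hβρ u q t h] at h5
    exact h4.ne ((hemb u q h1 (hρz u q h)).1 h2 h3 h5)
  have hDχ : ∀ d ∈ D, χ d.2.2.1 ≠ 0 ∨ χ d.2.2.2 ≠ 0 := by
    rintro ⟨u, q, s, t⟩ ⟨h1, h2, h3, h4, h5⟩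
    simp only at h1 h2 h3 h4 h5 ⊢
    by_contra hcon
    push Not at hcon
    rw [hβχ u q h1 s hcon.1, hβχ u q h1 t hcon.2] at h5
    exact h4.ne (hAinj h2 h3 h5)
  have hDt : ∀ d ∈ D, Function.Injective (fderiv ℝ (dbl β) d) := by
    intro d hd
    obtain ⟨u, q, s, t⟩ := d
    exact hgp.trans u q s t (hDρ _ hd) hd.2.2.2.1.ne (hDχ _ hd) hd.2.2.2.2
  have hdbl : ContDiff ℝ ∞ (dbl β) := by
    unfold dbl
    exact (hβ.comp (by fun_prop)).sub (hβ.comp (by fun_prop))
  -- separation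
  have hsep : ∀ d ∈ D, ∀ d' ∈ D, (d.1 = d'.1 ∨ d.2.1 = d'.2.1) → d = d' := by
    intro d hd d' hd' hor
    by_contra hne
    have r1 := hDρ d hd
    have r2 := hDρ d' hd'
    have x1 := hDχ d hd
    have x2 := hDχ d' hd'
    obtain ⟨u, q, s, t⟩ := d
    obtain ⟨u', q', s', t'⟩ := d'
    obtain ⟨a1, a2, a3, a4, a5⟩ := hd
    obtain ⟨b1, b2, b3, b4, b5⟩ := hd'
    simp only at r1 r2 x1 x2 a1 a2 a3 a4 a5 b1 b2 b3 b4 b5 hor
    by_cases huq : (u, q) = (u', q')
    · rw [Prod.mk.injEq] at huq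
      obtain ⟨rfl, rfl⟩ := huq
      have n3 : ¬ (s = s' ∧ t = t') := by
        rintro ⟨rfl, rfl⟩
        exact hne rfl
      have n4 : ¬ (s = t' ∧ t = s') := by
        rintro ⟨e1, e2⟩
        linarith
      refine hgp.one u q s t s' t' r1 ⟨a4.ne, b4.ne, n3, n4, x1, x2, ?_, ?_, ?_, ?_⟩ a5 b5
      · intro e
        by_contra hcon
        push Not at hcon
        apply n3
        refine ⟨e, hAinj a3 b3 ?_⟩
        rw [← hβχ u q a1 t hcon.1, ← hβχ u q a1 t' hcon.2, ← a5, ← b5, e]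
      · intro e
        by_contra hcon
        push Not at hcon
        apply n4
        refine ⟨e, hAinj a3 b2 ?_⟩
        rw [← hβχ u q a1 t hcon.1, ← hβχ u q a1 s' hcon.2, ← a5, b5, e]
      · intro e
        by_contra hcon
        push Not at hcon
        apply n4
        refine ⟨hAinj a2 b3 ?_, e⟩
        rw [← hβχ u q a1 s hcon.1, ← hβχ u q a1 t' hcon.2, a5, ← b5, e]
      · intro e
        by_contra hcon
        push Not at hcon
        apply n3
        refine ⟨hAinj a2 b2 ?_, e⟩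
        rw [← hβχ u q a1 s hcon.1, ← hβχ u q a1 s' hcon.2, a5, b5, e]
    · exact hgp.sep u q u' q' s t s' t' huq hor r1 r2 a4.ne b4.ne x1 x2 a5 b5
  -- finiteness
  have hfin : D.Finite := by
    by_contra hinf
    have hinf' : D.Infinite := hinf
    have hsub : D ⊆ Icc (0 : ℝ) 1 ×ˢ (Icc (0 : ℝ) 1 ×ˢ (Icc A.s₀ A.s₁ ×ˢ Icc A.s₀ A.s₁)) := by
      rintro ⟨u, q, s, t⟩ ⟨h1, h2, h3, h4, h5⟩
      exact ⟨h1.1, h1.2, h2, h3⟩
    obtain ⟨x, hx, hacc⟩ := hinf'.exists_accPt_of_subset_isCompact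
      (isCompact_Icc.prod (isCompact_Icc.prod (isCompact_Icc.prod isCompact_Icc))) hsub
    have hle : x.2.2.1 ≤ x.2.2.2 := by
      have hcl : IsClosed {y : ℝ × ℝ × ℝ × ℝ | y.2.2.1 ≤ y.2.2.2} :=
        isClosed_le (by fun_prop) (by fun_prop)
      have h1 : x ∈ closure {y : ℝ × ℝ × ℝ × ℝ | y.2.2.1 ≤ y.2.2.2} := by
        rw [mem_closure_iff_clusterPt]
        refine hacc.clusterPt.mono ?_
        rw [Filter.principal_mono]
        exact fun y hy => hy.2.2.2.1.le
      rwa [hcl.closure_eq] at h1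
    rw [accPt_iff_nhds] at hacc
    obtain ⟨u, q, s, t⟩ := x
    obtain ⟨hx1, hx2, hx3, hx4⟩ := hx
    simp only at hle hx1 hx2 hx3 hx4
    rcases hle.lt_or_eq with hlt | rfl
    · by_cases hval : β (u, q, s) = β (u, q, t)
      · have hxD : (u, q, s, t) ∈ D := ⟨⟨hx1, hx2⟩, hx3, hx4, hlt, hval⟩
        obtain ⟨U, hU, hUi⟩ := locInj (by simp [Complex.finrank_real_complex]) hdbl (hDt _ hxD)
        obtain ⟨y, ⟨hyU, hyD⟩, hne⟩ := hacc U hU
        apply hne
        refine hUi hyU (mem_of_mem_nhds hU) ?_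
        have e1 : dbl β y = 0 := sub_eq_zero.2 hyD.2.2.2.2
        have e2 : dbl β (u, q, s, t) = 0 := sub_eq_zero.2 hval
        rw [e1, e2]
      · have hop : IsOpen {y : ℝ × ℝ × ℝ × ℝ | β (y.1, y.2.1, y.2.2.1) ≠
            β (y.1, y.2.1, y.2.2.2)} :=
          isOpen_ne_fun (hβ.continuous.comp (by fun_prop)) (hβ.continuous.comp (by fun_prop))
        obtain ⟨y, ⟨hyU, hyD⟩, -⟩ := hacc _ (hop.mem_nhds hval)
        exact hyU hyD.2.2.2.2
    · obtain ⟨N, hN, hNy⟩ := near_diag hβ (himm u q ⟨hx1, hx2⟩ s hx3)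
      obtain ⟨y, ⟨hyU, hyD⟩, -⟩ := hacc N hN
      exact hNy y hyU hyD.2.2.2.1 hyD.2.2.2.2
  have hNb0 : ∀ q, Nb (δ / 2) 0 q := fun q => Or.inl (by linarith)
  have hNb1 : ∀ q, Nb (δ / 2) 1 q := fun q => Or.inr (Or.inl (by linarith))
  have hNq0 : ∀ u, Nb (δ / 2) u 0 := fun u => Or.inr (Or.inr (Or.inl (by linarith)))
  have hNq1 : ∀ u, Nb (δ / 2) u 1 := fun u => Or.inr (Or.inr (Or.inr (by linarith)))
  refine ⟨β, ⟨hβ, ?_, ?_, ?_, ?_⟩, ?_, ?_, ?_, ?_⟩
  · intro u hu q hq s hs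
    exact hβχ u q ⟨hu, hq⟩ s (hχz' s hs)
  · intro u hu q hq s hs
    exact hoffβ u q ⟨hu, hq⟩ s hs
  · intro u hu s
    rw [hβρ u 0 s (hρz' u 0 (hNq0 u))]
    exact hc.start u hu s
  · intro u hu s
    rw [hβρ u 1 s (hρz' u 1 (hNq1 u))]
    exact hc.stop u hu s
  · intro q s
    exact hβρ 0 q s (hρz' 0 q (hNb0 q))
  · intro q s
    exact hβρ 1 q s (hρz' 1 q (hNb1 q))
  · intro u hu q hq
    exact himm u q ⟨hu, hq⟩
  · classical
    refine ⟨hfin.toFinset.image Prod.fst, ?_, ?_, ?_⟩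
    · intro u hu
      rw [Finset.mem_image] at hu
      obtain ⟨d, hd, rfl⟩ := hu
      rw [Finite.mem_toFinset] at hd
      exact (hρi _ _ (hDρ d hd)).1
    · intro u hu huB q hq
      by_contra hcon
      unfold Pool.Agent.Helper27.H.ArcD.Inj InjOn at hcon
      push Not at hcon
      obtain ⟨s, hs, t, ht, he, hne⟩ := hcon
      apply huB
      rw [Finset.mem_image]
      rcases lt_or_gt_of_ne hne with hlt | hlt
      · exact ⟨(u, q, s, t), (Finite.mem_toFinset _).2 ⟨⟨hu, hq⟩, hs, ht, hlt, he⟩, rfl⟩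
      · exact ⟨(u, q, t, s), (Finite.mem_toFinset _).2 ⟨⟨hu, hq⟩, ht, hs, hlt, he.symm⟩, rfl⟩
    · intro u hu
      rw [Finset.mem_image] at hu
      obtain ⟨d, hd, rfl⟩ := hu
      rw [Finite.mem_toFinset] at hd
      obtain ⟨u, q, a, b⟩ := d
      have hi := hρi _ _ (hDρ _ hd)
      have hx := hDχ _ hd
      have ht := hDt _ hd
      have hd' := hd
      obtain ⟨a1, a2, a3, a4, a5⟩ := hd'
      simp only at hi hx ht a1 a2 a3 a4 a5
      have hU : β (u, q, a) ∈ A.U := by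
        rcases hx with h | h
        · exact hoffβ u q a1 a ⟨(hχi a h).1.le, (hχi a h).2.le⟩
        · rw [a5]
          exact hoffβ u q a1 b ⟨(hχi b h).1.le, (hχi b h).2.le⟩
      have hU' : β (u, q, b) ∈ A.U := by rw [← a5]; exact hU
      have hioo : ∀ s ∈ Icc A.s₀ A.s₁, β (u, q, s) ∈ A.U → s ∈ Ioo A.s₀ A.s₁ := by
        intro s hs hsU
        refine ⟨lt_of_le_of_ne hs.1 ?_, lt_of_le_of_ne hs.2 ?_⟩
        · rintro rfl
          rw [hβχ u q a1 A.s₀ (hχz' _ (Or.inl hm01.1.le))] at hsU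
          exact A.off₀ hsU
        · rintro rfl
          rw [hβχ u q a1 A.s₁ (hχz' _ (Or.inr hm01.2.2.le))] at hsU
          exact A.off₁ hsU
      refine ⟨q, a, b, ⟨hi.1, hi.2, hioo a a2 hU, hioo b a3 hU', a4, a5, ?_, ?_⟩, ?_⟩
      · intro s hs s' hs' hlt he
        have := hsep (u, q, s, s') ⟨a1, hs, hs', hlt, he⟩ (u, q, a, b) hd (Or.inl rfl)
        simp only [Prod.mk.injEq, true_and] at this
        exact this
      · intro ζ η σ τ h
        have e : fderiv ℝ (dbl β) (u, q, a, b) (ζ, η, σ, τ) =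
            fderiv ℝ β (u, q, a) (ζ, η, σ) - fderiv ℝ β (u, q, b) (ζ, η, τ) := by
          let P₁ : ℝ × ℝ × ℝ × ℝ →L[ℝ] ℝ × ℝ × ℝ :=
            (ContinuousLinearMap.fst ℝ ℝ (ℝ × ℝ × ℝ)).prod
              (((ContinuousLinearMap.fst ℝ ℝ (ℝ × ℝ)).comp
                (ContinuousLinearMap.snd ℝ ℝ (ℝ × ℝ × ℝ))).prod
              ((ContinuousLinearMap.fst ℝ ℝ ℝ).comp ((ContinuousLinearMap.snd ℝ ℝ (ℝ × ℝ)).comp
                (ContinuousLinearMap.snd ℝ ℝ (ℝ × ℝ × ℝ)))))
          let P₂ : ℝ × ℝ × ℝ × ℝ →L[ℝ] ℝ × ℝ × ℝ :=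
            (ContinuousLinearMap.fst ℝ ℝ (ℝ × ℝ × ℝ)).prod
              (((ContinuousLinearMap.fst ℝ ℝ (ℝ × ℝ)).comp
                (ContinuousLinearMap.snd ℝ ℝ (ℝ × ℝ × ℝ))).prod
              ((ContinuousLinearMap.snd ℝ ℝ ℝ).comp ((ContinuousLinearMap.snd ℝ ℝ (ℝ × ℝ)).comp
                (ContinuousLinearMap.snd ℝ ℝ (ℝ × ℝ × ℝ)))))
          have d1 : HasFDerivAt (fun z => β (P₁ z)) ((fderiv ℝ β (u, q, a)).comp P₁) (u, q, a, b) :=
            HasFDerivAt.comp (g := β) (f := P₁) (u, q, a, b)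
              ((hβ.differentiable (by simp) (u, q, a)).hasFDerivAt) P₁.hasFDerivAt
          have d2 : HasFDerivAt (fun z => β (P₂ z)) ((fderiv ℝ β (u, q, b)).comp P₂) (u, q, a, b) :=
            HasFDerivAt.comp (g := β) (f := P₂) (u, q, a, b)
              ((hβ.differentiable (by simp) (u, q, b)).hasFDerivAt) P₂.hasFDerivAt
          have d3 : HasFDerivAt (dbl β) _ (u, q, a, b) := d1.sub d2
          rw [d3.fderiv]
          rfl
        have h2 : fderiv ℝ (dbl β) (u, q, a, b) (ζ, η, σ, τ) =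
            fderiv ℝ (dbl β) (u, q, a, b) 0 := by
          rw [e, h, sub_self, map_zero]
        have h3 := ht h2
        simp only [Prod.mk_eq_zero] at h3
        exact h3
      · intro q' hq' hne
        by_contra hcon
        unfold Pool.Agent.Helper27.H.ArcD.Inj InjOn at hcon
        push Not at hcon
        obtain ⟨s, hs, t, ht', he, hne'⟩ := hcon
        rcases lt_or_gt_of_ne hne' with hlt | hlt
        · have := hsep (u, q', s, t) ⟨⟨a1.1, hq'⟩, hs, ht', hlt, he⟩ (u, q, a, b) hd (Or.inl rfl)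
          simp only [Prod.mk.injEq, true_and] at this
          exact hne this.1
        · have := hsep (u, q', t, s) ⟨⟨a1.1, hq'⟩, ht', hs, hlt, he.symm⟩ (u, q, a, b) hd
            (Or.inl rfl)
          simp only [Prod.mk.injEq, true_and] at this
          exact hne this.1

end Pool.Agent.Helper34.BI.H


end

/-! ## Helper34.BI.H.AsmH4 -/

section

/-!
# Project BI, stage 3: general position, unconditionally
-/

set_option autoImplicit false

namespace Pool.Agent.Helper34.BI.H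

theorem hNP1 : StNP1 := m_NP1
theorem hNP2 : StNP2 := m_NP2
theorem hNU1 : StNU1 := m_NU1 hNP1
theorem hNU2 : StNU2 := m_NU2 hNP2
theorem hNU3 : StNU3 := m_NU3 hNP1
theorem hNU4 : StNU4 := m_NU4 hNP1
theorem hGP : StGP := m_GP hNU1 hNU2 hNU3 hNU4
theorem hH4 : StH4 := m_H4 hGP
/-- `StGP` of Helper27/BI/H/StH1.lean -/
theorem hGPD : Pool.Agent.Helper27.H.StGP := m_GPD hGP

end Pool.Agent.Helper34.BI.H


end

/-! ## Helper27.BI.H.Joint -/

section

/-!
# Project BI, stage 3 (H): chains along paths from chains with joint smoothness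
-/

set_option autoImplicit false

open scoped Manifold ContDiff Topology ComplexConjugate
open Set Filter Pool.Agent.Helper65.Barb Pool.Agent.Helper18.BI
open Pool.Agent.Helper70.BI (I4 LD Eqv NearEq)

namespace Pool.Agent.Helper27.H

/-- a `DFam` of `R4` from smooth families of maps inverse to each other -/
theorem exists_dfam {f g : ℝ × R4 → R4} (hf : ContDiff ℝ ∞ f) (hg : ContDiff ℝ ∞ g)
    (h1 : ∀ t x, f (t, g (t, x)) = x) (h2 : ∀ t x, g (t, f (t, x)) = x) :
    ∃ F : DFam 𝓘(ℝ, R4) R4, (∀ t x, F.f (t, x) = f (t, x)) ∧ ∀ t x, F.g (t, x) = g (t, x) := by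
  refine ⟨⟨f, g, ?_, ?_, h1, h2⟩, fun _ _ => rfl, fun _ _ => rfl⟩
  · rw [← contMDiff_iff_contDiff, modelWithCornersSelf_prod, ← chartedSpaceSelf_prod] at hf
    exact hf
  · rw [← contMDiff_iff_contDiff, modelWithCornersSelf_prod, ← chartedSpaceSelf_prod] at hg
    exact hg

theorem ch4_of_joint (h : StCH4J) : StCH4 := by
  intro Q L V U J hQ hQc hL hV hU hJ
  obtain ⟨P, P', O, hO, hQO, hP, hP', hinv, hid, N, hN, hLN, K, hK, hKU, hc⟩ :=
    h Q L V U J hQ hQc hL hV hU hJ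
  refine ⟨P, hid, N, hN, hLN, K, hK, hKU, fun a b ha hb ha' hb' => ?_⟩
  have hz : ContDiff ℝ ∞ (fun z : ℝ × R4 => (((a z.1, b z.1), z.2) : ((ℝ × ℝ) × (ℝ × ℝ)) × R4)) :=
    ((ha.comp contDiff_fst).prodMk (hb.comp contDiff_fst)).prodMk contDiff_snd
  have hm : ∀ z : ℝ × R4, (((a z.1, b z.1), z.2) : ((ℝ × ℝ) × (ℝ × ℝ)) × R4) ∈
      O ×ˢ (univ : Set R4) := fun z => ⟨hQO ⟨ha' _, hb' _⟩, mem_univ _⟩
  have hOo : IsOpen (O ×ˢ (univ : Set R4)) := hO.prod isOpen_univ
  have h1 : ContDiff ℝ ∞ (fun z : ℝ × R4 => P (a z.1) (b z.1) z.2) := by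
    rw [contDiff_iff_contDiffAt]
    intro z
    exact ContDiffAt.comp z (hP.contDiffAt (hOo.mem_nhds (hm z))) hz.contDiffAt
  have h2 : ContDiff ℝ ∞ (fun z : ℝ × R4 => P' (a z.1) (b z.1) z.2) := by
    rw [contDiff_iff_contDiffAt]
    intro z
    exact ContDiffAt.comp z (hP'.contDiffAt (hOo.mem_nhds (hm z))) hz.contDiffAt
  obtain ⟨F, hF, -⟩ := exists_dfam h1 h2
    (fun t x => (hinv (a t) (b t) (hQO ⟨ha' t, hb' t⟩) x).1)
    (fun t x => (hinv (a t) (b t) (hQO ⟨ha' t, hb' t⟩) x).2)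
  refine ⟨F, hF, fun t x hx => ?_, fun t p hp => ?_⟩
  · rw [hF]
    exact (hc (a t) (ha' t) (b t) (hb' t)).1 x hx
  · rw [hF]
    exact (hc (a t) (ha' t) (b t) (hb' t)).2 p hp

end Pool.Agent.Helper27.H


end

/-! ## Helper70.BI.M_R3 -/

section

/-!
# Module R3 of project BI, part (E): opposite signs at the near end give inverse classes
-/

set_option autoImplicit false

open scoped Manifold ContDiff Topology ComplexConjugate
open Set Filter Pool.Agent.Helper65.Barb Pool.Agent.Helper18.BI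

namespace Pool.Agent.Helper70.BI

open Pool.Agent.Helper34.BI (BarData barFam)
open Pool.Agent.Helper27.BI (refh refs swp IsKap StVanT StRefH StRefS StR2sw StADD2)

namespace R3

theorem rsq_eq (c : ℝ) (p : R4) : rsq c p = (p.2.1 - c) ^ 2 + p.2.2.re ^ 2 + p.2.2.im ^ 2 := rfl

theorem flat0_le {p : R4} (hp : p ∈ flat 0) : p.2.1 ≤ 1 / 5 := by
  have h := hp.2
  rw [rsq_eq] at h
  nlinarith [sq_nonneg p.2.2.re, sq_nonneg p.2.2.im]

theorem sph1_ge {p : R4} (hp : p ∈ sph 1) : 4 / 5 ≤ p.2.1 := by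
  have h := hp.2
  rw [rsq_eq] at h
  nlinarith [sq_nonneg p.2.2.re, sq_nonneg p.2.2.im]

theorem sph1_flat1 {p : R4} (hp : p ∈ sph 1) : p ∈ flat 1 := ⟨hp.1, hp.2.le⟩

theorem neck_ax {p : R4} (hp : p ∈ neck) : p = ax p.2.1 := by
  obtain ⟨h1, _, _, h4⟩ := hp
  obtain ⟨s, a, w⟩ := p
  simp only at h1 h4
  subst h1
  subst h4
  rfl

/-- the core meets the flat ball only at the foot, `ax 0` and the point x2 -/
theorem core_flat {J : R4 → R4} {d : ℝ} (hJ : IsJ1 J d) {a : ℝ}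
    (ha : 1 / 5 ≤ a) (ha' : a ≤ 4 / 5) (h : core J a ∈ flat 0) :
    a = 1 / 5 ∨ core J a = ax 0 ∨ core J a = (1 / 2, x2) := by
  rcases le_or_gt a (9 / 40) with h1 | h1
  · left
    have h2 : core J a = ax a := hJ.ends (ax a) (Or.inl h1)
    rw [h2] at h
    have h3 := flat0_le h
    have h4 : (ax a).2.1 = a := rfl
    rw [h4] at h3
    linarith
  · rcases le_or_gt (31 / 40) a with h5 | h5
    · exfalso
      have h2 : core J a = ax a := hJ.ends (ax a) (Or.inr h5)
      rw [h2] at h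
      have h3 := flat0_le h
      have h4 : (ax a).2.1 = a := rfl
      rw [h4] at h3
      linarith
    · right
      rcases le_or_gt |a - 2 / 5| (1 / 100) with h6 | h6
      · exfalso
        rw [hJ.strand a h6] at h
        have h3 := flat0_le h
        have h4 : ((1 / 2 + d * (a - 2 / 5), pc 1) : R4).2.1 = 1 := rfl
        rw [h4] at h3
        linarith
      · rcases le_or_gt |a - 3 / 5| (3 / 200) with h7 | h7
        · rw [hJ.para a h7] at h ⊢
          have h8 : (1 / 2 + (1 - (100 * (a - 3 / 5)) ^ 2) / 10 : ℝ) = 1 / 2 := h.1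
          have h9 : (100 * (a - 3 / 5) - 1) * (100 * (a - 3 / 5) + 1) = 0 := by linarith
          rcases mul_eq_zero.1 h9 with h10 | h10
          · right
            have h11 : 100 * (a - 3 / 5) = 1 := by linarith
            rw [h11]
            unfold x2
            norm_num
          · left
            have h11 : 100 * (a - 3 / 5) = -1 := by linarith
            rw [h11]
            unfold ax
            norm_num
        · exfalso
          have h8 := hJ.off a ⟨by linarith, by linarith⟩ h6 h7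
          rcases h8 with h9 | h9
          · exact h9 h.1
          · have h3 := flat0_le h
            linarith [h9.1]

theorem inj0 {J : R4 → R4} {d : ℝ} (hJ : IsJ1 J d) :
    InjOn J ((flat 0 ∪ neck ∪ sph 1) \ {ax 0, (1 / 2, x2)}) := by
  have key : ∀ p q : R4, p ∈ flat 0 → p ≠ ax 0 → p ≠ (1 / 2, x2) → q ∈ neck ∪ sph 1 →
      J p = J q → p = q := by
    intro p q hp hp0 hp2 hq he
    have h1 : J p = p := hJ.ends p (Or.inl (by linarith [flat0_le hp]))
    rcases hq with hq | hq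
    · have h2 := neck_ax hq
      have h3 : core J q.2.1 = p := by
        unfold core
        rw [← h2, ← he, h1]
      rcases core_flat hJ hq.2.1 hq.2.2.1 (by rw [h3]; exact hp) with h4 | h4 | h4
      · have h5 : J (ax (1 / 5)) = ax (1 / 5) := hJ.ends (ax (1 / 5)) (Or.inl (by
          show (1 / 5 : ℝ) ≤ 9 / 40
          norm_num))
        rw [← h3]
        unfold core
        rw [h4, h5, h2, h4]
      · exact absurd (h3.symm.trans h4) hp0
      · exact absurd (h3.symm.trans h4) hp2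
    · have h2 : J q = q := hJ.ends q (Or.inr (by linarith [sph1_ge hq]))
      rw [← h1, he, h2]
  have hSP : ∀ p : R4, p ∈ neck ∪ sph 1 → p ∈ SP := by
    intro p hp
    rcases hp with hp | hp
    · exact Or.inr hp
    · exact Or.inl (Or.inr hp)
  intro p hp q hq he
  obtain ⟨hp1, hp2⟩ := hp
  obtain ⟨hq1, hq2⟩ := hq
  have hp3 : p ≠ ax 0 := fun h => hp2 (Or.inl h)
  have hp4 : p ≠ (1 / 2, x2) := fun h => hp2 (Or.inr h)
  have hq3 : q ≠ ax 0 := fun h => hq2 (Or.inl h)
  have hq4 : q ≠ (1 / 2, x2) := fun h => hq2 (Or.inr h)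
  have hp5 : p ∈ flat 0 ∨ p ∈ neck ∪ sph 1 := by
    rcases hp1 with (h | h) | h
    · exact Or.inl h
    · exact Or.inr (Or.inl h)
    · exact Or.inr (Or.inr h)
  have hq5 : q ∈ flat 0 ∨ q ∈ neck ∪ sph 1 := by
    rcases hq1 with (h | h) | h
    · exact Or.inl h
    · exact Or.inr (Or.inl h)
    · exact Or.inr (Or.inr h)
  rcases hp5 with hp6 | hp6
  · rcases hq5 with hq6 | hq6
    · have h1 : J p = p := hJ.ends p (Or.inl (by linarith [flat0_le hp6]))
      have h2 : J q = q := hJ.ends q (Or.inl (by linarith [flat0_le hq6]))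
      rw [← h1, he, h2]
    · exact key p q hp6 hp3 hp4 hq6 he
  · rcases hq5 with hq6 | hq6
    · exact (key q p hq6 hq3 hq4 hp6 he.symm).symm
    · exact hJ.inj (hSP p hp6) (hSP q hq6) he

end R3

/-- MODULE R3. -/
theorem m_R3 (hR3J : StR3J) (hAG : StAG) (hR3T : StR3T) (hT2 : StT2) : StR3 := by
  intro d hd
  obtain ⟨J, hJ⟩ := hR3J d hd
  obtain ⟨r, k1, k2, hr0, hr1, K1, K2, h17, h20, t1, t2, hmain⟩ := hAG
  obtain ⟨⟨Th1, det1⟩, Th2, det2⟩ := hR3T J d r k1 k2 hd hJ hr0 K1 K2 h17 h20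
  have hT := hT2 R4 R4 I4 R4
  have hcls : ∀ (F : R4 → R4) (α β e : ℝ), Theta F α β e d → ∃ φ : R4 → R4, Thin I4 F φ := by
    intro F α β e hF
    obtain ⟨ε₀, hε₀, h1⟩ := hT.1 F ⟨fun p hp => hF.a.loc p (Or.inl hp), hF.a.inj⟩
    exact ⟨_, h1 (ε₀ / 2) ⟨by linarith, by linarith⟩⟩
  obtain ⟨φ₁, hφ₁⟩ := hcls _ _ _ _ Th1
  obtain ⟨φ₂, hφ₂⟩ := hcls _ _ _ _ Th2
  refine ⟨fun p => J (k1 p), fun p => J (k2 p), 59 / 100, 61 / 100, 2 / 5, 2 / 5, φ₁, φ₂, Th1, Th2,
    det1, det2, hφ₁, hφ₂, ?_⟩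
  refine hmain J ?_ (R3.inj0 hJ) (fun x => x) φ₁ φ₂ hJ.triv hφ₁ hφ₂
  intro p hp
  refine hJ.loc p ?_
  rcases hp with (h | h) | h
  · exact Or.inl (Or.inl h)
  · exact Or.inr h
  · exact Or.inl (Or.inr (R3.sph1_flat1 h))

end Pool.Agent.Helper70.BI


end

/-! ## Helper18.BI.R.StR6 -/

section

/-!
# Project BI, stage 4 (R): unknotted cuffs

Statements (as `Prop` definitions) with complete proofs in the docstrings.
-/

set_option autoImplicit false

open scoped Manifold ContDiff Topology ComplexConjugate unitInterval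
open Set Pool.Agent.Helper65.Barb Pool.Agent.Helper18.BI
open Pool.Agent.Helper70.Fin (Emb coreSphere)

namespace Pool.Agent.Helper18.BI.R

/-- MODULE UNK.  Every map of a 2-sphere to the complement of an unknotted 2-sphere is null-homotopic there.
Proof.  `S = δ '' sph 0`, `k = B` on `sph 1`, with values in `Sᶜ` (injectivity of `B` on `NB ⊇ sph 0 ∪ sph 1`).
(1) A homeomorphism `Ψ` of `S4` with `Ψ '' S = S⁰ := {y : S4 | y 0 = 0 ∧ y 1 = 0}` (coordinates of `EuclideanSpace ℝ (Fin 5)`).  `b = δ '' flat 0` is compact with empty interior, so there is a point `v ∉ b`; stereographic projection from `v` is a homeomorphism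
`σ` of `{v}ᶜ` onto a four-dimensional euclidean space `V` (orthogonal complement of `v`), identified with `R4` by a linear isomorphism `λ`.  `G = λ ∘ σ ∘ δ` is a germ of an embedding along `flat 0` (`EmbOn I4 G (flat 0)`; extend `G` arbitrarily off `δ.source`).
The family `G_t p = (G (m + t (p - m)) - G m) / t + G m` for `t ∈ (0,1]`, `G_0 p = G m + DG(m) (p - m)`, `m = (1/2, 0)` the centre of `flat 0`, is smooth (also at `t = 0`: integral formula or Hadamard; there may be such a family already: `Pool.Agent.Helper70.BI` modules NO1, LOC, GL, ROT, or `StFam2`/`StCH` chains) and consists of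
germs of embeddings along `flat 0`, so there is a homeomorphism (a compactly supported diffeomorphism) `Θ` of `R4` with `Θ ∘ G = G_0` on `flat 0`.  `G_0` is affine and injective: an affine homeomorphism `Λ` of `R4` with `Λ ∘ Θ ∘ G = inclusion` of `flat 0`, then another one onto the
sphere of radius `2` in the hyperplane `{x ∈ V | ⟪x, e⟫ = 0}`, `e` a unit vector of `V`.  A homeomorphism of `V` extended by `v ↦ v` is a homeomorphism of `S4` (`OnePoint`, or directly: continuity at `v` since the homeomorphism and its inverse are proper).  The inverse stereographic projection maps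
the sphere of radius `2` in `e^⊥ ⊆ V` to `{y ∈ S4 | ⟪y, v⟫ = 0, ⟪y, e⟫ = 0}` (`stereoInvFun`: `w ↦ (‖w‖² + 4)⁻¹ • (4 w + (‖w‖² - 4) v)`); no need to rotate to the first two coordinates: work with the orthonormal pair `v, e`.
(Alternative to (1) without homeomorphisms of `S4`: only the part of the argument for maps `S2 → S4 \ S` is needed, and only up to homotopy.)
(2) Null-homotopy in the complement of `S⁰`: for `y ∈ S4` put `z y = ⟪y, v⟫ + i ⟪y, e⟫ ∈ ℂ` and `x y` the component orthogonal to `v, e`; `|z|² + |x|² = 1`, `y ∉ S⁰` iff `z y ≠ 0`.  `z ∘ k : sph 1 → ℂ \ {0}` has a continuous logarithm: `sph 1` is homeomorphic to the sphere `S2`, which is simply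
connected; or pull back by `(x, y) ↦ mq x y` (`StMQ`), a map of the square which is constant on the boundary and a quotient map onto `S2` (compact to Hausdorff), injective in the interior: the logarithm on the square (covering homotopy lifting: `Complex.isCoveringMap_exp`, `IsCoveringMap.liftPath`/`monodromy`, homotopy lifting)
is constant on the boundary (a lift of a constant along the connected boundary), so it descends.  So `z (k p) = |z (k p)| e^{i θ p}`, `θ` continuous.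
`h (u, p)`: for `u ≤ 1/2` the point with `z = |z (k p)| e^{i (1 - 2u) θ p}`, `x = x (k p)`; for `u ≥ 1/2` the normalization of the point with `z = (2 - 2u) |z (k p)| + (2u - 1)`, `x = (2 - 2u) x (k p)` (`Re z > 0`).  Off `S⁰` for all `u`.  At `u = 1` it is the point `v`.  Transport by `Ψ⁻¹`. -/
def StUNK : Prop :=
  ∀ B : Emb, NB ⊆ B.source → (∃ δ : Emb, flat 0 ⊆ δ.source ∧ ∀ p ∈ sph 0, δ p = B p) →
    ∃ (h : ℝ × R4 → S4) (y : S4), ContinuousOn h (Icc (0 : ℝ) 1 ×ˢ sph 1) ∧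
      (∀ p ∈ sph 1, h (0, p) = B p) ∧ (∀ p ∈ sph 1, h (1, p) = y) ∧
      ∀ u ∈ Icc (0 : ℝ) 1, ∀ p ∈ sph 1, h (u, p) ∉ B '' sph 0

end Pool.Agent.Helper18.BI.R


end
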