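import Pool.Agent.Helper65.Barb.Defs
import Pool.Agent.Helper70.BI.C.P02

/-!
# Project BI (MP_8e98f2_gt): collected modules, part 07

The contents of the modules
* Helper18.BI.H.StS7
* Helper27.BI.ChBasic
* Helper27.BI.StM1
* Helper27.BI.Square
* Helper27.BI.M_CH

in one file, so that the whole proof builds in a short time.
-/

namespace Pool.Agent.Helper18.BI
end Pool.Agent.Helper18.BI

namespace Pool.Agent.Helper27.BI
end Pool.Agent.Helper27.BI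

namespace Pool.Agent.Helper65.Barb
end Pool.Agent.Helper65.Barb


/-! ## Helper18.BI.H.StS7 -/

section

/-!
# Project BI, stage 3 (H), section 7: from homotopies of cuffs to homotopies of loops of arcs

The fixed cuff is `sph 1`, the cuff `sph 0` is moved by a homotopy in the complement of the fixed cuff.
-/

set_option autoImplicit false

open scoped Manifold ContDiff Topology ComplexConjugate
open Set Pool.Agent.Helper65.Barb Pool.Agent.Helper18.BI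
open Pool.Agent.Helper27.BI (zarc chi phi)

namespace Pool.Agent.Helper18.BI.H

/-- the outer part of the bar -/
def neckE : Set R4 := {p | p ∈ neck ∧ 3 / 5 ≤ p.2.1}

/-- the foot of the bar on the moving cuff -/
noncomputable def foot0 : R4 := (1 / 2, (1 / 5, 0))

/-- the point of the bar with coordinate `a` -/
noncomputable def bar (a : ℝ) : R4 := (1 / 2, (a, 0))

/-- The sphere of directions: unit vectors of three-space swept out by the loop `q ↦ mm q ·`. -/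
noncomputable def mm (q s : ℝ) : R3 :=
  zarc (Real.sin (Real.pi * q)) (chi (10 * s - 9 / 2)) q (10 * s - 9 / 2)

/-- The whiskered sphere: the unit sphere of three-space is mapped onto the part `a ≤ 73/100` of the bar
together with the cuff `sph 0`. -/
noncomputable def nu (m : R3) : R4 := sq 0 (1 / 2, ((73 : ℝ) / 100) • m)

/-- **STR** (stretching the bar).  Two germs which agree near the cuff `sph 1` can be replaced by germs of the same
classes, with the same restrictions near both cuffs, which agree near the outer part of the bar.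
Proof.  Let `r ∈ (0, 1/10)` such that `U` contains the points `(1/2, a, 0)` with `4/5 - r ≤ a ≤ 4/5`.
Choose `k : ℝ → ℝ` smooth with positive derivative, `k a = a` for `a ≤ 1/4` and for `4/5 - r/4 ≤ a`, and
`k a ≥ 4/5 - r` for `a ≥ 3/5 - 1/100` (e.g. `k a = a + c ∫ ..`; or: `k` = integral of a smooth positive function which is `1`
for `a ≤ 1/4` and `a ≥ 4/5 - r/4`, with the right total integral and with small values on `[3/5-1/50, 4/5-r/4-small]`;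
or compose with `Real.smoothTransition`: `k a = (1 - T) (a) + ...`).  `κ (s, a, w) = (s, k a, w)` and
`κ_t = (1-t) id + t κ`: injective local diffeomorphisms of `R4` (`StA0`; `k_t' > 0`), mapping `SP` onto `SP` (identity
near `sph 0` and `sph 1`; the bar to the bar), so `J (t, p) = F (κ_t p)` is a family of germs along `SP` (`FamOn`), and `T2` (iii) gives
`Thin F φ → Thin (F ∘ κ) φ`.  `F₁ = F ∘ κ`, `F₁' = F' ∘ κ`, `V = κ ⁻¹' U`. -/
def StSTR : Prop :=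
  ∀ (F F' : R4 → R4) (U : Set R4), EmbOn 𝓘(ℝ, R4) F SP → EmbOn 𝓘(ℝ, R4) F' SP → IsOpen U →
    sph 1 ⊆ U → EqOn F F' U → ∃ (F₁ F₁' : R4 → R4) (U₁ V : Set R4),
      EmbOn 𝓘(ℝ, R4) F₁ SP ∧ EmbOn 𝓘(ℝ, R4) F₁' SP ∧
      IsOpen U₁ ∧ sph 0 ∪ sph 1 ⊆ U₁ ∧ EqOn F₁ F U₁ ∧ EqOn F₁' F' U₁ ∧
      IsOpen V ∧ sph 1 ∪ neckE ⊆ V ∧ EqOn F₁ F₁' V ∧
      (∀ φ, Thin 𝓘(ℝ, R4) F φ → Thin 𝓘(ℝ, R4) F₁ φ) ∧
      ∀ φ, Thin 𝓘(ℝ, R4) F' φ → Thin 𝓘(ℝ, R4) F₁' φ

/-- **BAR** (helper34).  The bar can be replaced by an embedded one in any homotopy class of paths in the complement of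
the fixed cuff, from the point `3/5` of the bar to the foot.
Proof.  Concatenate: the given bar from `3/5` to `3/5 - δ` and back, then `ζ`, then the given bar from `1/5` to `1/5 + δ` and
back; this is homotopic to `ζ` rel ends off `K = F '' sph 1`.  Smooth it and put it in general position rel the two end
segments: an embedded arc which leaves and arrives along the given bar and avoids `F '' (sph 0 ∪ sph 1 ∪ neckE)` otherwise
(codimensions `4 - 1 - 2 = 1`, `4 - 1 - 1 = 2`); thicken it to a germ (as in the module RE / `Thick.lean`), equal to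
`F` near `sph 0 ∪ sph 1 ∪ neckE`.  Close paths in the open set `Kᶜ` are joined by the linear homotopy. -/
def StBAR : Prop :=
  ∀ (F : R4 → R4) (ζ : ℝ → R4), EmbOn 𝓘(ℝ, R4) F SP → ContinuousOn ζ (Icc 0 1) →
    ζ 0 = F (bar (3 / 5)) → ζ 1 = F foot0 → (∀ τ ∈ Icc (0 : ℝ) 1, ζ τ ∉ F '' sph 1) →
    ∃ (F' : R4 → R4) (U : Set R4) (P : ℝ × ℝ → R4), EmbOn 𝓘(ℝ, R4) F' SP ∧ IsOpen U ∧
      sph 0 ∪ sph 1 ∪ neckE ⊆ U ∧ EqOn F F' U ∧
      ContinuousOn P (Icc (0 : ℝ) 1 ×ˢ Icc (0 : ℝ) 1) ∧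
      (∀ τ ∈ Icc (0 : ℝ) 1, P (0, τ) = ζ τ) ∧
      (∀ τ ∈ Icc (0 : ℝ) 1, P (1, τ) = F' (bar (3 / 5 - 2 / 5 * τ))) ∧
      (∀ u ∈ Icc (0 : ℝ) 1, P (u, 0) = F (bar (3 / 5))) ∧
      (∀ u ∈ Icc (0 : ℝ) 1, P (u, 1) = F foot0) ∧
      ∀ u ∈ Icc (0 : ℝ) 1, ∀ τ ∈ Icc (0 : ℝ) 1, P (u, τ) ∉ F '' sph 1

/-- A based homotopy of the whiskered spheres, constant on the outer part of the whisker. -/
def BasedH (F F' : R4 → R4) (H : ℝ × R3 → R4) : Prop :=
  ContinuousOn H (Icc (0 : ℝ) 1 ×ˢ {m : R3 | nsq m = 1}) ∧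
    (∀ m, nsq m = 1 → H (0, m) = F (nu m)) ∧ (∀ m, nsq m = 1 → H (1, m) = F' (nu m)) ∧
    (∀ u ∈ Icc (0 : ℝ) 1, ∀ m, nsq m = 1 → 3 / 5 ≤ 73 / 100 * m.1 → H (u, m) = F (nu m)) ∧
    ∀ u ∈ Icc (0 : ℝ) 1, ∀ m, nsq m = 1 → H (u, m) ∉ F '' sph 1

/-- **TOP.**  A free homotopy of the cuffs gives a based homotopy of the whiskered spheres, if the bar of the
second germ is in the class `bar * track of the foot`.  `ζ` is this path.
Proof.  For a unit vector `m` put `a = 73/100 * m.1 ∈ [-73/100, 73/100]`.  By `StS4`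
(`hS4`, with `sq 0 (s, (a, w)) = (1/2, (clamp a, fac 0 .. • w))`): `nu m = bar a` if `a ≥ 1/5`, and `nu m ∈ sph 0`
if `a ≤ 1/5` (`nsq (73/100 • m) = (73/100)² ≥ 1/25` and `rsq 1 ≥ (27/100)² ≥ 1/25`, so the point is in `Ext`), and
`nu m = foot0` if `a = 1/5`; `nu` is continuous (`StS3`).  Put
`P₁ (v, τ) = ζ (τ (1 + v) / 2)`, `(h', P) (u, ·) = (h (2u, ·), P₁ (2u, ·))` for `u ≤ 1/2` and
`(h (1, ·), P₂ (2u - 1, ·))` for `u ≥ 1/2`.  Both are continuous on the closed sets (`ContinuousOn.if`/`union` of closed sets;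
at `u = 1/2`: `P₁ (1, τ) = ζ τ = P₂ (0, τ)`); `P (u, 1) = h' (u, foot0)` (`ζ ((1+v)/2) = h (v, foot0)`),
`P (u, 0) = F (bar (3/5))`, `P (0, τ) = ζ (τ/2) = F (bar (3/5 - 2/5 τ))`, `P (1, τ) = F' (bar (3/5 - 2/5 τ))`.
`H (u, m) = F (nu m)` if `3/5 ≤ a`; `P (u, 5/2 (3/5 - a))` if `1/5 ≤ a ≤ 3/5`; `h' (u, nu m)` if `a ≤ 1/5`.
Off `F '' sph 1`: for `3/5 ≤ a` by injectivity of `F` on `SP` (`bar a` with `a ≤ 73/100` is not in `sph 1`). -/
def StTOP : Prop :=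
  ∀ (F F' : R4 → R4) (h : ℝ × R4 → R4) (ζ : ℝ → R4) (P₂ : ℝ × ℝ → R4),
    EmbOn 𝓘(ℝ, R4) F SP → EmbOn 𝓘(ℝ, R4) F' SP → EqOn F F' neckE →
    ContinuousOn h (Icc (0 : ℝ) 1 ×ˢ sph 0) → (∀ p ∈ sph 0, h (0, p) = F p) →
    (∀ p ∈ sph 0, h (1, p) = F' p) → (∀ u ∈ Icc (0 : ℝ) 1, ∀ p ∈ sph 0, h (u, p) ∉ F '' sph 1) →
    (∀ τ ∈ Icc (0 : ℝ) (1 / 2), ζ τ = F (bar (3 / 5 - 4 / 5 * τ))) →
    (∀ τ ∈ Icc (1 / 2 : ℝ) 1, ζ τ = h (2 * τ - 1, foot0)) →
    ContinuousOn P₂ (Icc (0 : ℝ) 1 ×ˢ Icc (0 : ℝ) 1) →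
    (∀ τ ∈ Icc (0 : ℝ) 1, P₂ (0, τ) = ζ τ) →
    (∀ τ ∈ Icc (0 : ℝ) 1, P₂ (1, τ) = F' (bar (3 / 5 - 2 / 5 * τ))) →
    (∀ u ∈ Icc (0 : ℝ) 1, P₂ (u, 0) = F (bar (3 / 5))) →
    (∀ u ∈ Icc (0 : ℝ) 1, P₂ (u, 1) = F' foot0) →
    (∀ u ∈ Icc (0 : ℝ) 1, ∀ τ ∈ Icc (0 : ℝ) 1, P₂ (u, τ) ∉ F '' sph 1) →
    ∃ H : ℝ × R3 → R4, BasedH F F' H

/-- **SM** (smoothing).  A based homotopy of the whiskered spheres gives a smooth homotopy of the loops of arcs, for all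
small `ε`, at a distance `≥ κ` from the fixed cuff, `κ` independent of `ε`.
`ρ s` is the distance of the base arc from the vertical line over `0`.

Proof.  `K = F '' sph 1` is compact, `H` has compact image (continuous on the compact `[0,1] × S²`), so there is `κ > 0` with
`2 κ ≤ dist (H (u, m)) y` for all `u, m, y ∈ K`.
`mm q s` is a unit vector for all `q, s` (`StZnsq`, `m_ZNSQ`), smooth in `(q, s)`, `= (1, 0)` for
`s ≤ 9/20`, for `11/20 ≤ s` (`chi = 0`, `sin φ = 0` there), and for `q = 0, 1`.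
Choose `n₀' < n₀`, `n₁ < n₁'` with `73/100 ≤ .. ` replaced by `7/10 ≤ ρ s ≤ 39/50` on `[n₀', n₁']`, and let
`cl s` be the clamp of `s` to `[n₀', n₁']`, `θ u = step (3 u - 1)` (`0` for `u ≤ 1/3`, `1` for `u ≥ 2/3`).
`x (q, s) = ρ (cl s) • mm q (cl s)`.  By `StS3` (joint continuity of `sq` up to `ε = 0`), `StS4` and compactness
(`mm` ranges over the compact unit sphere, `cl s` over `[n₀', n₁']`) there is `ε₀` such that for `ε < ε₀` and all `s' ∈ [n₀', n₁']`,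
unit vectors `m`, and `ρ' ∈ [7/10, 39/50]` with (`ρ' = 73/100` or `m = (1,0)`): the point `sq ε (s', ρ' • m)` is in an open set
around `SP` on which `F` and `F'` are smooth, `e = F (sq ε (s', ρ' m)) - F (nu' )` and
`e' = F' (sq ε (s', ρ' m)) - F' (nu')`, `nu' = sq 0 (1/2, ρ' m)`, have norm `≤ κ/4`, and if `3/5 ≤ 73/100 * m.1` then
`sq ε (s', ρ' m) ∈ U` (there `sq 0 (1/2, ρ' m)` is in `neckE`, as its first space coordinate is in `[3/5, 39/50]`).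
For `s ∈ [9/20, 11/20]` put `f (u, q, s) = H (θ u, mm q s) + (1 - θ u) e + θ u e'`; for the other `s`:
`f (u, q, s) = F (sq ε (cl s, (ρ (cl s), 0)))`; they agree at `s = 9/20, 11/20` (`mm = (1,0)`, `H (·, (1,0)) = F (nu (1,0))`, `e = e'`), so `f` is
continuous on `ℝ × ℝ × ℝ`.  In the open set `{n₀' < s < n₁'} ∩ ({u < 1/3} ∪ {u > 2/3} ∪ {73/100 * (mm q s).1 > 3/5})` it is
smooth: it is `F (sq ε (s, ρ s • mm q s))` for `u < 1/3` and where `73/100 (mm q s).1 > 3/5` (there `H = F ∘ nu = F' ∘ nu`, `e = e'`), and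
`F' (..)` for `u > 2/3` (`StS2` smoothness of `sq ε`).
`Continuous.exists_contDiff_approx_and_eqOn` with error `κ/4` and
`S = {n₀ ≤ s ≤ n₁} ∩ ({u ≤ 1/4} ∪ {u ≥ 3/4} ∪ {13/20 ≤ 73/100 (mm q s).1})` gives `c`.  (i), (ii), (iii) hold on `S`
(`73/100 ≥ 13/20`).  (iv): for `s ∈ [9/20, 11/20]`, `|c - H| ≤ κ/4 + κ/4`, so the distance to `K` is `≥ κ`. -/
def StSM : Prop :=
  ∀ (F F' : R4 → R4) (U : Set R4) (H : ℝ × R3 → R4) (n₀ n₁ : ℝ) (ρ : ℝ → ℝ),
    EmbOn 𝓘(ℝ, R4) F SP → EmbOn 𝓘(ℝ, R4) F' SP → IsOpen U → sph 1 ∪ neckE ⊆ U → EqOn F F' U →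
    BasedH F F' H → n₀ < 9 / 20 → 11 / 20 < n₁ → ContDiff ℝ ∞ ρ →
    (∀ s ∈ Icc (9 / 20 : ℝ) (11 / 20), ρ s = 73 / 100) →
    (∀ s ∈ Icc n₀ n₁, 73 / 100 ≤ ρ s ∧ ρ s ≤ 3 / 4) →
    ∃ κ > 0, ∃ ε₀ > 0, ∀ ε ∈ Ioo 0 ε₀, ∃ c : ℝ × ℝ × ℝ → R4, ContDiff ℝ ∞ c ∧
      (∀ q, ∀ s ∈ Icc n₀ n₁, c (0, q, s) = F (sq ε (s, ρ s • mm q s))) ∧
      (∀ q, ∀ s ∈ Icc n₀ n₁, c (1, q, s) = F' (sq ε (s, ρ s • mm q s))) ∧
      (∀ u q, ∀ s ∈ Icc n₀ n₁, mm q s = (1, 0) → c (u, q, s) = F (sq ε (s, (ρ s, 0)))) ∧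
      ∀ u ∈ Icc (0 : ℝ) 1, ∀ q ∈ Icc (0 : ℝ) 1, ∀ s ∈ Icc (9 / 20 : ℝ) (11 / 20),
        ∀ y ∈ F '' sph 1, κ ≤ dist (c (u, q, s)) y

end Pool.Agent.Helper18.BI.H


end

/-! ## Helper27.BI.ChBasic -/

section

/-!
# Project BI, part (C): formal properties of `TIso` and `IsPush`
-/

set_option autoImplicit false
set_option linter.unusedSectionVars false
set_option linter.unusedVariables false

open scoped Manifold ContDiff Topology ComplexConjugate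
open Set Pool.Agent.Helper65.Barb Pool.Agent.Helper18.BI

namespace Pool.Agent.Helper27.BI

theorem SuppB.inv {F : DFam 𝓘(ℝ, R4) R4} (h : SuppB F) : SuppB F.inv := by
  obtain ⟨K, hK, hK2, h⟩ := h
  exact ⟨K, hK, hK2, fun t x hx => F.support_inv h t hx⟩

theorem SuppB.comp {F G : DFam 𝓘(ℝ, R4) R4} (h : SuppB F) (h' : SuppB G) : SuppB (F.comp G) := by
  obtain ⟨K, hK, hK2, h⟩ := h
  obtain ⟨K', hK', hK2', h'⟩ := h'
  refine ⟨K ∪ K', hK.union hK', union_subset hK2 hK2', fun t x hx => ?_⟩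
  have h1 : x ∉ K := fun hx' => hx (Or.inl hx')
  have h2 : x ∉ K' := fun hx' => hx (Or.inr hx')
  change F.f (t, G.f (t, x)) = x
  rw [h' t x h2, h t x h1]

theorem SuppB.reparam {F : DFam 𝓘(ℝ, R4) R4} (h : SuppB F) (τ : ℝ → ℝ) (hτ : ContDiff ℝ ∞ τ) :
    SuppB (F.reparam τ hτ) := by
  obtain ⟨K, hK, hK2, h⟩ := h
  exact ⟨K, hK, hK2, fun t x hx => h (τ t) x hx⟩

theorem SuppB.freeze {F : DFam 𝓘(ℝ, R4) R4} (h : SuppB F) (t₀ : ℝ) : SuppB (F.freeze t₀) :=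
  h.reparam _ _

theorem suppB_one : SuppB DFam.one :=
  ⟨∅, isCompact_empty, empty_subset _, fun _ _ _ => rfl⟩

theorem DFam.g_eq {F : DFam 𝓘(ℝ, R4) R4} {t : ℝ} {p q : R4} (h : F.f (t, p) = q) :
    F.g (t, q) = p := by rw [← h, F.gf]

section
variable {ι : Type} {O : Set R4} {ρ : ℝ}

theorem TIso.mono {O' : Set R4} {ρ' : ℝ} {z0 z1 : ι → ℝ → R3} {φ ψ : R4 → R4}
    (h : TIso O ρ z0 z1 φ ψ) (hO : O' ⊆ O) (h0 : 0 ≤ ρ') (hρ : ρ' ≤ ρ) :
    TIso O' ρ' z0 z1 φ ψ := by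
  obtain ⟨F, h0', h1, hs, hf, ht⟩ := h
  exact ⟨F, h0', h1, hs, fun t x hx => hf t x (hO hx),
    fun t i s y hy => ht t i s y (hy.trans (by nlinarith))⟩

theorem TIso.refl_of {z0 z1 : ι → ℝ → R3} {φ ψ : R4 → R4} (h : TIso O ρ z0 z1 φ ψ) :
    TIso O ρ z0 z1 φ φ := by
  obtain ⟨F, h0, h1, hs, hf, ht⟩ := h
  exact ⟨F.freeze 0, fun x => h0 x, fun x => h0 x, hs.freeze 0, fun t x hx => hf 0 x hx,
    fun t i s y hy => ht 0 i s y hy⟩

theorem TIso.symm {z0 z1 : ι → ℝ → R3} {φ ψ : R4 → R4} (h : TIso O ρ z0 z1 φ ψ) :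
    TIso O ρ z0 z1 ψ φ := by
  obtain ⟨F, h0, h1, hs, hf, ht⟩ := h
  have hτ : ContDiff ℝ ∞ (fun t : ℝ => 1 - t) := contDiff_const.sub contDiff_id
  refine ⟨F.reparam (fun t => 1 - t) hτ, fun x => ?_, fun x => ?_, hs.reparam _ _,
    fun t x hx => hf _ x hx, fun t i s y hy => ht _ i s y hy⟩
  · change F.f (1 - 0, x) = _
    rw [sub_zero, h1]
  · change F.f (1 - 1, x) = _
    rw [sub_self, h0]

theorem TIso.comp {z0 z1 z2 : ι → ℝ → R3} {φ ψ φ' ψ' : R4 → R4} (h' : TIso O ρ z1 z2 φ' ψ')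
    (h : TIso O ρ z0 z1 φ ψ) : TIso O ρ z0 z2 (fun x => φ' (φ x)) (fun x => ψ' (ψ x)) := by
  obtain ⟨F, h0, h1, hs, hf, ht⟩ := h
  obtain ⟨F', h0', h1', hs', hf', ht'⟩ := h'
  refine ⟨F'.comp F, fun x => ?_, fun x => ?_, hs'.comp hs, fun t x hx => ?_,
    fun t i s y hy => ?_⟩
  · change F'.f (0, F.f (0, x)) = _
    rw [h0, h0']
  · change F'.f (1, F.f (1, x)) = _
    rw [h1, h1']
  · change F'.f (t, F.f (t, x)) = _
    rw [hf t x hx, hf' t x hx]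
  · change F'.f (t, F.f (t, _)) = _
    rw [ht t i s y hy, ht' t i s y hy]

theorem TIso.trans {z0 z1 : ι → ℝ → R3} {φ ψ χ : R4 → R4} (h : TIso O ρ z0 z1 φ ψ)
    (h' : TIso O ρ z0 z1 ψ χ) : TIso O ρ z0 z1 φ χ := by
  obtain ⟨F, h0, h1, hs, hf, ht⟩ := h
  obtain ⟨G, g0, g1, gs, gf, gt⟩ := h'
  refine ⟨G.comp ((F.freeze 1).inv.comp F), fun x => ?_, fun x => ?_,
    gs.comp (((hs.freeze 1).inv).comp hs), fun t x hx => ?_, fun t i s y hy => ?_⟩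
  · change G.f (0, F.g (1, F.f (0, x))) = _
    rw [g0, ← h1, F.fg, h0]
  · change G.f (1, F.g (1, F.f (1, x))) = _
    rw [F.gf, g1]
  · change G.f (t, F.g (1, F.f (t, x))) = _
    rw [hf t x hx, DFam.g_eq (hf 1 x hx), gf t x hx]
  · change G.f (t, F.g (1, F.f (t, _))) = _
    rw [ht t i s y hy, DFam.g_eq (ht 1 i s y hy), gt t i s y hy]

/-- a member of an isotopy has an inverse of the same kind -/
theorem TIso.exists_inv {z0 z1 : ι → ℝ → R3} {φ : R4 → R4} (h : TIso O ρ z0 z1 φ φ) :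
    ∃ φ' : R4 → R4, TIso O ρ z1 z0 φ' φ' ∧ (∀ x, φ (φ' x) = x) ∧ ∀ x, φ' (φ x) = x := by
  obtain ⟨F, h0, h1, hs, hf, ht⟩ := h
  refine ⟨fun x => F.g (0, x), ⟨F.inv.freeze 0, fun x => rfl, fun x => rfl,
    (hs.inv).freeze 0, fun t x hx => DFam.g_eq (hf 0 x hx),
    fun t i s y hy => DFam.g_eq (ht 0 i s y hy)⟩, fun x => ?_, fun x => ?_⟩
  · have := F.fg 0 x
    rwa [h0] at this
  · have := F.gf 0 x
    rwa [h0] at this

theorem TIso.inv {z0 z1 : ι → ℝ → R3} {φ ψ φ' ψ' : R4 → R4} (h : TIso O ρ z0 z1 φ ψ)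
    (hφ : ∀ x, φ (φ' x) = x) (hψ : ∀ x, ψ (ψ' x) = x) : TIso O ρ z1 z0 φ' ψ' := by
  obtain ⟨F, h0, h1, hs, hf, ht⟩ := h
  refine ⟨F.inv, fun x => ?_, fun x => ?_, hs.inv, fun t x hx => DFam.g_eq (hf t x hx),
    fun t i s y hy => DFam.g_eq (ht t i s y hy)⟩
  · have := F.gf 0 (φ' x)
    rw [h0, hφ] at this
    exact this
  · have := F.gf 1 (ψ' x)
    rw [h1, hψ] at this
    exact this

theorem TIso.one (z : ι → ℝ → R3) : TIso O ρ z z (fun x => x) (fun x => x) :=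
  ⟨DFam.one, fun _ => rfl, fun _ => rfl, suppB_one, fun _ _ _ => rfl, fun _ _ _ _ _ => rfl⟩

/-! ### pushes -/

theorem step_zero : step 0 = 0 := step_of_nonpos le_rfl

theorem step_one : step 1 = 1 := step_of_one_le le_rfl

theorem step_symm (t : ℝ) : step (1 - t) = 1 - step t := by
  unfold step Real.smoothTransition
  have h := Real.smoothTransition.pos_denom t
  rw [sub_sub_cancel, eq_sub_iff_add_eq, add_comm (expNegInvGlue (1 - t)) (expNegInvGlue t),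
    ← add_div]
  rw [add_comm (expNegInvGlue (1 - t)), div_self h.ne']

theorem IsPush.mono {O' : Set R4} {ρ' : ℝ} {γ : ι → ℝ → ℝ → R3} {Θ : R4 → R4}
    (h : IsPush O ρ γ Θ) (hO : O' ⊆ O) (h0 : 0 ≤ ρ') (hρ : ρ' ≤ ρ) : IsPush O' ρ' γ Θ := by
  obtain ⟨F, h0', h1, hs, hf, ht⟩ := h
  exact ⟨F, h0', h1, hs, fun t ht x hx => hf t ht x (hO hx),
    fun t ht' i s y hy => ht t ht' i s y (hy.trans (by nlinarith))⟩

/-- A push is a diffeomorphism carrying the initial tubes to the final ones. -/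
theorem IsPush.tIso {γ : ι → ℝ → ℝ → R3} {Θ : R4 → R4} (h : IsPush O ρ γ Θ) :
    TIso O ρ (fun i => γ i 0) (fun i => γ i 1) Θ Θ := by
  obtain ⟨F, h0, h1, hs, hf, ht⟩ := h
  have h01 : (1 : ℝ) ∈ Icc (0 : ℝ) 1 := by simp
  refine ⟨F.freeze 1, fun x => h1 x, fun x => h1 x, hs.freeze 1, fun t x hx => hf 1 h01 x hx,
    fun t i s y hy => ?_⟩
  change F.f (1, _) = _
  rw [ht 1 h01 i s y hy, step_one]

/-- Two pushes along the same path of arcs are isotopic. -/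
theorem IsPush.unique {γ : ι → ℝ → ℝ → R3} {Θ Θ' : R4 → R4} (h : IsPush O ρ γ Θ)
    (h' : IsPush O ρ γ Θ') : TIso O ρ (fun i => γ i 0) (fun i => γ i 1) Θ Θ' := by
  obtain ⟨F, h0, h1, hs, hf, ht⟩ := h
  obtain ⟨G, g0, g1, gs, gf, gt⟩ := h'
  have h01 : (1 : ℝ) ∈ Icc (0 : ℝ) 1 := by simp
  have hst : ∀ t, step t ∈ Icc (0 : ℝ) 1 := step_mem
  refine ⟨(F.freeze 1).comp ((F.reparam step contDiff_step).inv.comp
    (G.reparam step contDiff_step)), fun x => ?_, fun x => ?_,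
    (hs.freeze 1).comp (((hs.reparam _ _).inv).comp (gs.reparam _ _)), fun t x hx => ?_,
    fun t i s y hy => ?_⟩
  · change F.f (1, F.g (step 0, G.f (step 0, x))) = _
    rw [step_zero, g0, DFam.g_eq (h0 x), h1]
  · change F.f (1, F.g (step 1, G.f (step 1, x))) = _
    rw [step_one, F.fg, g1]
  · change F.f (1, F.g (step t, G.f (step t, x))) = _
    rw [gf _ (hst t) x hx, DFam.g_eq (hf _ (hst t) x hx), hf 1 h01 x hx]
  · change F.f (1, F.g (step t, G.f (step t, _))) = _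
    rw [gt _ (hst t) i s y hy, DFam.g_eq (ht _ (hst t) i s y hy), ht 1 h01 i s y hy, step_one]

/-- A push along the reversed path. -/
theorem IsPush.reverse {γ : ι → ℝ → ℝ → R3} {Θ Θ' : R4 → R4} (h : IsPush O ρ γ Θ)
    (hΘ : ∀ x, Θ (Θ' x) = x) : IsPush O ρ (fun i q s => γ i (1 - q) s) Θ' := by
  obtain ⟨F, h0, h1, hs, hf, ht⟩ := h
  have h01 : (1 : ℝ) ∈ Icc (0 : ℝ) 1 := by simp
  have hτ : ContDiff ℝ ∞ (fun t : ℝ => 1 - t) := contDiff_const.sub contDiff_id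
  have hΘ' : ∀ x, F.g (1, x) = Θ' x := fun x => DFam.g_eq (by rw [h1, hΘ])
  have hm : ∀ t ∈ Icc (0 : ℝ) 1, 1 - t ∈ Icc (0 : ℝ) 1 := by
    rintro t ⟨h1, h2⟩; constructor <;> linarith
  refine ⟨(F.reparam (fun t => 1 - t) hτ).comp (F.freeze 1).inv, fun x => ?_, fun x => ?_,
    (hs.reparam _ _).comp (hs.freeze 1).inv, fun t ht' x hx => ?_, fun t ht' i s y hy => ?_⟩
  · change F.f (1 - 0, F.g (1, x)) = _
    rw [sub_zero, F.fg]
  · change F.f (1 - 1, F.g (1, x)) = _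
    rw [sub_self, h0, hΘ']
  · change F.f (1 - t, F.g (1, x)) = _
    rw [DFam.g_eq (hf 1 h01 x hx), hf _ (hm t ht') x hx]
  · change F.f (1 - t, F.g (1, (s, γ i (1 - 0) s + y))) = (s, γ i (1 - step t) s + y)
    have e := ht 1 h01 i s y hy
    rw [step_one] at e
    rw [sub_zero, DFam.g_eq e, ht _ (hm t ht') i s y hy, step_symm]

/-- The push along a constant path. -/
theorem IsPush.const (z : ι → ℝ → R3) : IsPush O ρ (fun i _ => z i) (fun x => x) :=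
  ⟨DFam.one, fun _ => rfl, fun _ => rfl, suppB_one, fun _ _ _ _ => rfl,
    fun _ _ _ _ _ _ => rfl⟩

theorem IsPush.congr {γ γ' : ι → ℝ → ℝ → R3} {Θ : R4 → R4} (h : IsPush O ρ γ Θ)
    (hγ : ∀ i, ∀ q ∈ Icc (0 : ℝ) 1, ∀ s, γ i q s = γ' i q s) : IsPush O ρ γ' Θ := by
  obtain ⟨F, h0, h1, hs, hf, ht⟩ := h
  refine ⟨F, h0, h1, hs, hf, fun t ht' i s y hy => ?_⟩
  have e := ht t ht' i s y hy
  rw [hγ i 0 (by simp) s, hγ i (step t) (step_mem t) s] at e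
  exact e

end

end Pool.Agent.Helper27.BI


end

/-! ## Helper27.BI.StM1 -/

section

/-!
# Project BI, part (C): the two analytic statements (displacements)
-/

set_option autoImplicit false

open scoped Manifold ContDiff Topology ComplexConjugate
open Set Pool.Agent.Helper65.Barb Pool.Agent.Helper18.BI

namespace Pool.Agent.Helper27.BI

/-- MODULE PERT (perturbation of the identity).  Level preserving form.

Proof.  `G (t, (s, x)) = (t, (s, x + g (t, (s, x))))` on `ℝ × R4`.  For fixed `(t, s)` the map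
`x ↦ x + g` is a bijection of `R3` (`ApproximatesLinearOn` with the identity on `univ` with
constant `1/2 < 1`, `ApproximatesLinearOn.toHomeomorph`, or the contraction principle), so `G` is
bijective.  Its derivative is bijective at every point: it is block triangular with diagonal
blocks `1`, `1`, `1 + ∂g/∂x` and `‖∂g/∂x‖ ≤ 1/2` (`ContinuousLinearMap` of the Lipschitz bound:
`‖fderiv‖ ≤ 1/2`, e.g. `norm_fderiv_le_of_lip'`), injective in finite dimension hence bijective.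
By the inverse function theorem the inverse of `G` is smooth (`ContDiffAt.to_localInverse`, or
`OpenPartialHomeomorph.contDiffAt_symm`, the local inverse agrees with the global inverse). -/
def StPert : Prop :=
  ∀ g : ℝ × R4 → R3, ContDiff ℝ ∞ g →
    (∀ t s x y, ‖g (t, (s, x)) - g (t, (s, y))‖ ≤ 1 / 2 * ‖x - y‖) →
    ∃ F : DFam 𝓘(ℝ, R4) R4, ∀ t s x, F.f (t, (s, x)) = (s, x + g (t, (s, x)))

/-- MODULE CH (chains of displacements).  For an admissible two-parameter family of systems of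
arcs there are diffeomorphisms `P a b`, depending smoothly on the two parameter values `a, b` in
the unit square, which carry the tubes about the arcs of parameter `a` to those of parameter `b`
by translations, with `P a a = 1`, fixing `O`, and moving only points within distance `2ρ` of the
arcs with parameters on the segment from `a` to `b`.

Proof (from `StPert`).  `disp p v x = x + ∑ i, cut (nsq (x - p i) / ρ ^ 2) • v i`
(`Barb.cut` is `1` for `u ≤ 1`, `0` for `u ≥ 4`).  There is `L` (depending on `ρ`) with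
`|cut (nsq (x - p) / ρ ^ 2) - cut (nsq (y - p) / ρ ^ 2)| ≤ L ‖x - y‖` (a smooth compactly
supported function of `x - p` is Lipschitz: `ContDiff.lipschitzWith_of_hasCompactSupport`).  Choose
`N ≥ 1` such that for all `a, b` in the square, `k < N`, `s ∈ [0,1]` and `i` the step
`v = Γ i (c (k+1)) s - Γ i (c k) s`, `c k = a + (k / N) (b - a)`, has
`‖v‖ ≤ 1 / (2 L (card ι + 1))` (uniform continuity of `Γ i` on the compact
`[0,1] × [0,1] × [0,1]`; for `s ∉ [0,1]` the step is `0` by `ends`).  Put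
`P a b = disp_(N-1) ∘ ... ∘ disp_0`, `disp_k` the level preserving map
`(s, x) ↦ (s, disp (Γ · (c k) s) (v · s) x)`.
* For smooth `a b : ℝ → ℝ × ℝ` with values in the square each factor is a DFam by `StPert`;
  compose them (`DFam.comp`, induction on `k`).
* `P a a = 1`: all steps are `0`.
* Tubes: `disp_k (Γ i (c k) s + y) = Γ i (c (k+1)) s + y` if `nsq y ≤ ρ ^ 2`: the `i`-th cut is `1`,
  the `j`-th is `0` since by `sep` (and the triangle inequality for `√ nsq`)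
  `|Γ i + y - Γ j| ≥ 4ρ - ρ ≥ 2ρ`; for `s ∉ [0,1]` nothing moves.
* Points `x` with `(2ρ)^2 ≤ nsq (x - Γ i (c k) s)` for all `i, k` do not move at any step; this
  gives the last property (`c k` lies on the segment) and, by `off`, that `O` is fixed; (points
  with `s ∉ [0,1]` do not move at all).
* Support: `K = {(s, x) | s ∈ [0,1], ∃ i, ∃ (u, q) ∈ [0,1]², nsq (x - Γ i u q s) ≤ (2ρ)^2}` is
  compact (image of a compact set) and in the interior of `ball4` by `inside`. -/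
def StCh : Prop :=
  ∀ (ι : Type) (_ : Fintype ι) (O : Set R4) (ρ : ℝ) (Γ : ι → ℝ → ℝ → ℝ → R3), 0 < ρ →
    SqOk O ρ Γ →
    ∃ P : ℝ × ℝ → ℝ × ℝ → R4 → R4, (∀ q x, P q q x = x) ∧
      ∀ a b : ℝ → ℝ × ℝ, ContDiff ℝ ∞ a → ContDiff ℝ ∞ b →
        (∀ t, a t ∈ Icc (0 : ℝ) 1 ×ˢ Icc (0 : ℝ) 1) →
        (∀ t, b t ∈ Icc (0 : ℝ) 1 ×ˢ Icc (0 : ℝ) 1) →
        ∃ F : DFam 𝓘(ℝ, R4) R4, (∀ t x, F.f (t, x) = P (a t) (b t) x) ∧ SuppB F ∧
          (∀ t, ∀ x ∈ O, F.f (t, x) = x) ∧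
          (∀ t i s y, nsq y ≤ ρ ^ 2 →
            F.f (t, (s, Γ i (a t).1 (a t).2 s + y)) = (s, Γ i (b t).1 (b t).2 s + y)) ∧
          ∀ t s x, (∀ i, ∀ τ ∈ Icc (0 : ℝ) 1, (2 * ρ) ^ 2 ≤
              nsq (x - Γ i ((a t).1 + τ * ((b t).1 - (a t).1))
                ((a t).2 + τ * ((b t).2 - (a t).2)) s)) →
            F.f (t, (s, x)) = (s, x)

end Pool.Agent.Helper27.BI


end

/-! ## Helper27.BI.Square -/

section

/-!
# Project BI, part (C): existence of pushes and the square lemma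
-/

set_option autoImplicit false
set_option linter.unusedSectionVars false
set_option linter.unusedVariables false

open scoped Manifold ContDiff Topology ComplexConjugate
open Set Pool.Agent.Helper65.Barb Pool.Agent.Helper18.BI

namespace Pool.Agent.Helper27.BI

section
variable {ι : Type} {O : Set R4} {ρ : ℝ}

/-- Existence of pushes, with control of the support. -/
theorem exists_push (hCh : StCh) [inst : Fintype ι] {γ : ι → ℝ → ℝ → R3} (hρ : 0 < ρ)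
    (h : SqOk O ρ (fun i _ q s => γ i q s)) :
    ∃ Θ, IsPush O ρ γ Θ ∧ ∀ s x, (∀ i, ∀ q ∈ Icc (0 : ℝ) 1, (2 * ρ) ^ 2 ≤ nsq (x - γ i q s)) →
      Θ (s, x) = (s, x) := by
  obtain ⟨P, hP, h1⟩ := hCh ι inst O ρ _ hρ h
  obtain ⟨F, hF, hs, hf, ht, hx⟩ := h1 (fun _ => (0, 0)) (fun t => (0, step t)) contDiff_const
    (contDiff_const.prodMk contDiff_step) (fun t => by simp)
    (fun t => ⟨by simp, step_mem t⟩)
  refine ⟨fun x => F.f (1, x), ⟨F, fun x => ?_, fun x => rfl, hs, fun t _ x hx => hf t x hx,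
    fun t _ i s y hy => ht t i s y hy⟩, fun s x hh => hx 1 s x ?_⟩
  · rw [hF]
    simp only [step_zero]
    exact hP _ _
  · intro i τ hτ
    apply hh i
    simp only [sub_zero, zero_add, step_one, mul_one]
    exact hτ

/-- The square lemma: the two ways around an admissible square of systems of arcs give isotopic
pushes. -/
theorem square (hCh : StCh) [inst : Fintype ι] {Γ : ι → ℝ → ℝ → ℝ → R3} (hρ : 0 < ρ)
    (h : SqOk O ρ Γ) {Θ1 Θ2 Θ3 Θ4 : R4 → R4}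
    (h1 : IsPush O ρ (fun i q => Γ i 0 q) Θ1) (h2 : IsPush O ρ (fun i u => Γ i u 1) Θ2)
    (h3 : IsPush O ρ (fun i u => Γ i u 0) Θ3) (h4 : IsPush O ρ (fun i q => Γ i 1 q) Θ4) :
    TIso O ρ (fun i => Γ i 0 0) (fun i => Γ i 1 1) (fun x => Θ2 (Θ1 x)) (fun x => Θ4 (Θ3 x)) := by
  obtain ⟨P, hP, hPF⟩ := hCh ι inst O ρ _ hρ h
  have h01 : (0 : ℝ) ∈ Icc (0 : ℝ) 1 := by simp
  have h11 : (1 : ℝ) ∈ Icc (0 : ℝ) 1 := by simp
  -- edges
  have edge : ∀ (a b : ℝ × ℝ), a ∈ Icc (0 : ℝ) 1 ×ˢ Icc (0 : ℝ) 1 →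
      b ∈ Icc (0 : ℝ) 1 ×ˢ Icc (0 : ℝ) 1 → ∀ Θ : R4 → R4,
      IsPush O ρ (fun i τ s => Γ i (a.1 + τ * (b.1 - a.1)) (a.2 + τ * (b.2 - a.2)) s) Θ →
      TIso O ρ (fun i => Γ i a.1 a.2) (fun i => Γ i b.1 b.2) Θ (P a b) := by
    intro a b ha hb Θ hΘ
    have hc : ∀ t, (a.1 + step t * (b.1 - a.1), a.2 + step t * (b.2 - a.2)) ∈
        Icc (0 : ℝ) 1 ×ˢ Icc (0 : ℝ) 1 := by
      intro t
      obtain ⟨⟨a1, a2⟩, a3, a4⟩ := ha
      obtain ⟨⟨b1, b2⟩, b3, b4⟩ := hb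
      obtain ⟨s1, s2⟩ := step_mem t
      refine ⟨⟨?_, ?_⟩, ?_, ?_⟩ <;> simp only <;> nlinarith
    have hcs : ContDiff ℝ ∞ (fun t : ℝ =>
        ((a.1 + step t * (b.1 - a.1), a.2 + step t * (b.2 - a.2)) : ℝ × ℝ)) :=
      (contDiff_const.add (contDiff_step.mul contDiff_const)).prodMk
        (contDiff_const.add (contDiff_step.mul contDiff_const))
    obtain ⟨F, hF, hs, hf, ht, -⟩ := hPF (fun t => a) (fun t =>
      (a.1 + step t * (b.1 - a.1), a.2 + step t * (b.2 - a.2))) contDiff_const hcs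
      (fun t => ha) hc
    have hpush : IsPush O ρ
        (fun i τ s => Γ i (a.1 + τ * (b.1 - a.1)) (a.2 + τ * (b.2 - a.2)) s) (P a b) := by
      refine ⟨F, fun x => ?_, fun x => ?_, hs, fun t _ x hx => hf t x hx,
        fun t _ i s y hy => ?_⟩
      · rw [hF]
        simp only [step_zero, zero_mul, add_zero, Prod.mk.eta]
        exact hP _ _
      · rw [hF]
        simp only [step_one, one_mul, add_sub_cancel, Prod.mk.eta]
      · have e := ht t i s y hy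
        simp only [zero_mul, add_zero]
        exact e
    have e := hΘ.unique hpush
    simp only [zero_mul, add_zero, one_mul, add_sub_cancel] at e
    exact e
  -- composition along two segments
  have tri : ∀ (a b c : ℝ × ℝ), a ∈ Icc (0 : ℝ) 1 ×ˢ Icc (0 : ℝ) 1 →
      b ∈ Icc (0 : ℝ) 1 ×ˢ Icc (0 : ℝ) 1 → c ∈ Icc (0 : ℝ) 1 ×ˢ Icc (0 : ℝ) 1 →
      TIso O ρ (fun i => Γ i a.1 a.2) (fun i => Γ i c.1 c.2)
        (fun x => P b c (P a b x)) (P a c) := by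
    intro a b c ha hb hc
    have hm : ∀ t, (b.1 + step t * (a.1 - b.1), b.2 + step t * (a.2 - b.2)) ∈
        Icc (0 : ℝ) 1 ×ˢ Icc (0 : ℝ) 1 := by
      intro t
      obtain ⟨⟨a1, a2⟩, a3, a4⟩ := ha
      obtain ⟨⟨b1, b2⟩, b3, b4⟩ := hb
      obtain ⟨s1, s2⟩ := step_mem t
      refine ⟨⟨?_, ?_⟩, ?_, ?_⟩ <;> simp only <;> nlinarith
    have hms : ContDiff ℝ ∞ (fun t : ℝ =>
        ((b.1 + step t * (a.1 - b.1), b.2 + step t * (a.2 - b.2)) : ℝ × ℝ)) :=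
      (contDiff_const.add (contDiff_step.mul contDiff_const)).prodMk
        (contDiff_const.add (contDiff_step.mul contDiff_const))
    obtain ⟨F, hF, hs, hf, ht, -⟩ := hPF (fun t => a) (fun t =>
      (b.1 + step t * (a.1 - b.1), b.2 + step t * (a.2 - b.2))) contDiff_const hms
      (fun t => ha) hm
    obtain ⟨G, hG, gs, gf, gt, -⟩ := hPF (fun t =>
      (b.1 + step t * (a.1 - b.1), b.2 + step t * (a.2 - b.2))) (fun t => c) hms contDiff_const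
      hm (fun t => hc)
    refine ⟨G.comp F, fun x => ?_, fun x => ?_, gs.comp hs, fun t x hx => ?_,
      fun t i s y hy => ?_⟩
    · change G.f (0, F.f (0, x)) = _
      rw [hF, hG]
      simp only [step_zero, zero_mul, add_zero, Prod.mk.eta]
    · change G.f (1, F.f (1, x)) = _
      rw [hF, hG]
      simp only [step_one, one_mul, add_sub_cancel, Prod.mk.eta]
      rw [hP]
    · change G.f (t, F.f (t, x)) = _
      rw [hf t x hx, gf t x hx]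
    · change G.f (t, F.f (t, _)) = _
      rw [ht t i s y hy, gt t i s y hy]
  have e1 := edge (0, 0) (0, 1) ⟨h01, h01⟩ ⟨h01, h11⟩ Θ1 (h1.congr (by
    intro i q hq s; simp))
  have e2 := edge (0, 1) (1, 1) ⟨h01, h11⟩ ⟨h11, h11⟩ Θ2 (h2.congr (by
    intro i q hq s; simp))
  have e3 := edge (0, 0) (1, 0) ⟨h01, h01⟩ ⟨h11, h01⟩ Θ3 (h3.congr (by
    intro i q hq s; simp))
  have e4 := edge (1, 0) (1, 1) ⟨h11, h01⟩ ⟨h11, h11⟩ Θ4 (h4.congr (by
    intro i q hq s; simp))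
  have t1 := tri (0, 0) (0, 1) (1, 1) ⟨h01, h01⟩ ⟨h01, h11⟩ ⟨h11, h11⟩
  have t2 := tri (0, 0) (1, 0) (1, 1) ⟨h01, h01⟩ ⟨h11, h01⟩ ⟨h11, h11⟩
  exact ((e2.comp e1).trans t1).trans (((e4.comp e3).trans t2).symm)

end

end Pool.Agent.Helper27.BI


end

/-! ## Helper27.BI.M_CH -/

section

/-!
# Project BI, module CH: chains of displacements (helper86)
-/

set_option autoImplicit false

open scoped Manifold ContDiff Topology ComplexConjugate
open Set Pool.Agent.Helper65.Barb Pool.Agent.Helper18.BI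

namespace Pool.Agent.Helper27.BI

namespace CH

noncomputable section

theorem nsq_eq (x : R3) : nsq x = x.1 ^ 2 + ‖x.2‖ ^ 2 := by
  unfold nsq
  rw [← Complex.normSq_eq_norm_sq, Complex.normSq_apply]; ring

theorem contDiff_nsq : ContDiff ℝ ∞ (fun x : R3 => nsq x) := by
  have h : (fun x : R3 => nsq x) = fun x : R3 => x.1 ^ 2 + ‖x.2‖ ^ 2 := funext nsq_eq
  rw [h]
  exact (contDiff_fst.pow 2).add (contDiff_snd.norm_sq ℝ)

theorem continuous_nsq : Continuous (fun x : R3 => nsq x) := contDiff_nsq.continuous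

theorem isCompact_nsq (R : ℝ) : IsCompact {y : R3 | nsq y ≤ R} := by
  apply Metric.isCompact_of_isClosed_isBounded (isClosed_le continuous_nsq continuous_const)
  rw [isBounded_iff_forall_norm_le]
  refine ⟨R + 1, fun y hy => ?_⟩
  have hy' : y.1 ^ 2 + ‖y.2‖ ^ 2 ≤ R := by rw [← nsq_eq]; exact hy
  rw [Prod.norm_def]
  apply max_le
  · rw [Real.norm_eq_abs, abs_le]
    constructor <;> nlinarith [sq_nonneg (y.1 + 1 / 2), sq_nonneg (y.1 - 1 / 2), sq_nonneg ‖y.2‖]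
  · nlinarith [sq_nonneg (‖y.2‖ - 1 / 2), sq_nonneg y.1]

/-- the cut-off in three-space -/
def cf (ρ : ℝ) (x : R3) : ℝ := cut (nsq x / ρ ^ 2)

theorem cf_one {ρ : ℝ} (hρ : 0 < ρ) {x : R3} (h : nsq x ≤ ρ ^ 2) : cf ρ x = 1 :=
  cut_of_le (by rw [div_le_one (by positivity)]; exact h)

theorem cf_zero {ρ : ℝ} (hρ : 0 < ρ) {x : R3} (h : (2 * ρ) ^ 2 ≤ nsq x) : cf ρ x = 0 :=
  cut_of_ge (by rw [le_div_iff₀ (by positivity)]; nlinarith)

theorem contDiff_cf (ρ : ℝ) : ContDiff ℝ ∞ (cf ρ) :=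
  contDiff_cut.comp (contDiff_nsq.div_const _)

theorem exists_lip {ρ : ℝ} (hρ : 0 < ρ) :
    ∃ C : ℝ, 0 < C ∧ ∀ x y : R3, |cf ρ x - cf ρ y| ≤ C * ‖x - y‖ := by
  have hc : HasCompactSupport (cf ρ) := by
    apply HasCompactSupport.intro (isCompact_nsq ((2 * ρ) ^ 2))
    intro x hx
    exact cf_zero hρ (not_le.1 hx).le
  obtain ⟨C, hC⟩ := (contDiff_cf ρ).lipschitzWith_of_hasCompactSupport hc (by simp)
  refine ⟨C + 1, by positivity, fun x y => ?_⟩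
  have h := hC.dist_le_mul x y
  rw [dist_eq_norm, dist_eq_norm, Real.norm_eq_abs] at h
  nlinarith [norm_nonneg (x - y)]

section
variable {ι : Type} [Fintype ι]

/-- the displacement -/
def dsp (ρ : ℝ) (p v : ι → R3) (x : R3) : R3 := ∑ i, cf ρ (x - p i) • v i

theorem dsp_lip {ρ C δ : ℝ} (hC : ∀ x y : R3, |cf ρ x - cf ρ y| ≤ C * ‖x - y‖) (hC0 : 0 < C)
    (p v : ι → R3) (hv : ∀ i, ‖v i‖ ≤ δ) (x y : R3) :
    ‖dsp ρ p v x - dsp ρ p v y‖ ≤ Fintype.card ι * (C * δ) * ‖x - y‖ := by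
  unfold dsp
  rw [← Finset.sum_sub_distrib]
  calc ‖∑ i, (cf ρ (x - p i) • v i - cf ρ (y - p i) • v i)‖
      ≤ ∑ i, ‖cf ρ (x - p i) • v i - cf ρ (y - p i) • v i‖ := norm_sum_le _ _
    _ ≤ ∑ _i : ι, C * δ * ‖x - y‖ := by
        apply Finset.sum_le_sum
        intro i _
        rw [← sub_smul, norm_smul, Real.norm_eq_abs]
        have h1 := hC (x - p i) (y - p i)
        rw [sub_sub_sub_cancel_right] at h1
        calc |cf ρ (x - p i) - cf ρ (y - p i)| * ‖v i‖ ≤ (C * ‖x - y‖) * δ :=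
              mul_le_mul h1 (hv i) (norm_nonneg _) (by positivity)
          _ = C * δ * ‖x - y‖ := by ring
    _ = Fintype.card ι * (C * δ) * ‖x - y‖ := by
        rw [Finset.sum_const, Finset.card_univ, nsmul_eq_mul]; ring

theorem dsp_zero {ρ : ℝ} {p v : ι → R3} (h : ∀ i, v i = 0) (x : R3) : dsp ρ p v x = 0 := by
  unfold dsp
  apply Finset.sum_eq_zero
  intro i _
  rw [h i, smul_zero]

theorem dsp_far {ρ : ℝ} (hρ : 0 < ρ) {p v : ι → R3} {x : R3}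
    (h : ∀ i, (2 * ρ) ^ 2 ≤ nsq (x - p i)) : dsp ρ p v x = 0 := by
  unfold dsp
  apply Finset.sum_eq_zero
  intro i _
  rw [cf_zero hρ (h i), zero_smul]

theorem dsp_near {ρ : ℝ} (hρ : 0 < ρ) {p v : ι → R3} {x : R3} {i : ι}
    (h : nsq (x - p i) ≤ ρ ^ 2) (h' : ∀ j, j ≠ i → (2 * ρ) ^ 2 ≤ nsq (x - p j)) :
    dsp ρ p v x = v i := by
  unfold dsp
  rw [Finset.sum_eq_single i, cf_one hρ h, one_smul]
  · intro j _ hj
    rw [cf_zero hρ (h' j hj), zero_smul]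
  · intro hi
    exact absurd (Finset.mem_univ i) hi

theorem nsq_far {ρ : ℝ} {z y : R3} (hz : (4 * ρ) ^ 2 ≤ nsq z) (hy : nsq y ≤ ρ ^ 2) :
    (2 * ρ) ^ 2 ≤ nsq (z + y) := by
  unfold nsq at *
  have e1 : (z + y).1 = z.1 + y.1 := rfl
  have e2 : (z + y).2 = z.2 + y.2 := rfl
  rw [e1, e2, Complex.add_re, Complex.add_im]
  nlinarith [sq_nonneg (z.1 + 2 * y.1), sq_nonneg (z.2.re + 2 * y.2.re),
    sq_nonneg (z.2.im + 2 * y.2.im), sq_nonneg ρ]

/-- the points of the segment -/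
def ipc (N : ℕ) (a b : ℝ × ℝ) (k : ℕ) : ℝ × ℝ :=
  (a.1 + (k / N : ℝ) * (b.1 - a.1), a.2 + (k / N : ℝ) * (b.2 - a.2))

/-- one step -/
def ds (ρ : ℝ) (Γ : ι → ℝ → ℝ → ℝ → R3) (c c' : ℝ × ℝ) (p : R4) : R4 :=
  (p.1, p.2 + dsp ρ (fun i => Γ i c.1 c.2 p.1)
    (fun i => Γ i c'.1 c'.2 p.1 - Γ i c.1 c.2 p.1) p.2)

/-- the chain -/
def Q (ρ : ℝ) (Γ : ι → ℝ → ℝ → ℝ → R3) (N : ℕ) (a b : ℝ × ℝ) : ℕ → R4 → R4
  | 0, x => x
  | k + 1, x => ds ρ Γ (ipc N a b k) (ipc N a b (k + 1)) (Q ρ Γ N a b k x)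

theorem ds_fix {ρ : ℝ} (hρ : 0 < ρ) {Γ : ι → ℝ → ℝ → ℝ → R3} {c c' : ℝ × ℝ} {s : ℝ} {x : R3}
    (h : (∀ i, Γ i c'.1 c'.2 s = Γ i c.1 c.2 s) ∨
      ∀ i, (2 * ρ) ^ 2 ≤ nsq (x - Γ i c.1 c.2 s)) : ds ρ Γ c c' (s, x) = (s, x) := by
  have h0 : dsp ρ (fun i => Γ i c.1 c.2 s) (fun i => Γ i c'.1 c'.2 s - Γ i c.1 c.2 s) x = 0 := by
    rcases h with h | h
    · exact dsp_zero (fun i => sub_eq_zero.2 (h i)) x
    · exact dsp_far hρ h
  show (s, x + dsp ρ (fun i => Γ i c.1 c.2 s) (fun i => Γ i c'.1 c'.2 s - Γ i c.1 c.2 s) x) = _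
  rw [h0, add_zero]

theorem Q_fix {ρ : ℝ} (hρ : 0 < ρ) {Γ : ι → ℝ → ℝ → ℝ → R3} {N : ℕ} {a b : ℝ × ℝ} {s : ℝ} {x : R3}
    (k : ℕ) (hk : k ≤ N)
    (h : (∀ i, ∀ m, Γ i (ipc N a b (m + 1)).1 (ipc N a b (m + 1)).2 s =
        Γ i (ipc N a b m).1 (ipc N a b m).2 s) ∨
      ∀ i, ∀ m ≤ N, (2 * ρ) ^ 2 ≤ nsq (x - Γ i (ipc N a b m).1 (ipc N a b m).2 s)) :
    Q ρ Γ N a b k (s, x) = (s, x) := by
  induction k with
  | zero => rfl
  | succ k ih =>
    show ds ρ Γ (ipc N a b k) (ipc N a b (k + 1)) (Q ρ Γ N a b k (s, x)) = (s, x)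
    rw [ih (by omega)]
    apply ds_fix hρ
    rcases h with h | h
    · exact Or.inl fun i => h i k
    · exact Or.inr fun i => h i k (by omega)

theorem Q_tube {O : Set R4} {ρ : ℝ} (hρ : 0 < ρ) {Γ : ι → ℝ → ℝ → ℝ → R3} (hΓ : SqOk O ρ Γ)
    {N : ℕ} {a b : ℝ × ℝ} (hsq : ∀ m ≤ N, ipc N a b m ∈ Icc (0 : ℝ) 1 ×ˢ Icc (0 : ℝ) 1)
    {s : ℝ} (i : ι) {y : R3} (hy : nsq y ≤ ρ ^ 2) (k : ℕ) (hk : k ≤ N) :
    Q ρ Γ N a b k (s, Γ i (ipc N a b 0).1 (ipc N a b 0).2 s + y) =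
      (s, Γ i (ipc N a b k).1 (ipc N a b k).2 s + y) := by
  induction k with
  | zero => rfl
  | succ k ih =>
    show ds ρ Γ (ipc N a b k) (ipc N a b (k + 1)) (Q ρ Γ N a b k _) = _
    rw [ih (by omega)]
    by_cases hs : s ≤ 0 ∨ 1 ≤ s
    · have h1 : ∀ j, Γ j (ipc N a b (k + 1)).1 (ipc N a b (k + 1)).2 s =
          Γ j (ipc N a b k).1 (ipc N a b k).2 s := by
        intro j
        obtain ⟨z, hz⟩ := hΓ.ends j
        rw [hz _ _ _ hs, hz _ _ _ hs]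
      rw [ds_fix hρ (Or.inl h1), h1 i]
    · push Not at hs
      have hs' : s ∈ Icc (0 : ℝ) 1 := ⟨hs.1.le, hs.2.le⟩
      have hc := hsq k (by omega)
      have h0 : dsp ρ (fun j => Γ j (ipc N a b k).1 (ipc N a b k).2 s)
          (fun j => Γ j (ipc N a b (k + 1)).1 (ipc N a b (k + 1)).2 s -
            Γ j (ipc N a b k).1 (ipc N a b k).2 s) (Γ i (ipc N a b k).1 (ipc N a b k).2 s + y) =
          Γ i (ipc N a b (k + 1)).1 (ipc N a b (k + 1)).2 s -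
            Γ i (ipc N a b k).1 (ipc N a b k).2 s := by
        apply dsp_near (i := i) hρ
        · rw [add_sub_cancel_left]; exact hy
        · intro j hj
          have e : Γ i (ipc N a b k).1 (ipc N a b k).2 s + y -
              Γ j (ipc N a b k).1 (ipc N a b k).2 s =
              (Γ i (ipc N a b k).1 (ipc N a b k).2 s - Γ j (ipc N a b k).1 (ipc N a b k).2 s) + y := by
            abel
          rw [e]
          exact nsq_far (hΓ.sep i j (Ne.symm hj) _ hc.1 _ hc.2 s hs') hy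
      show (s, Γ i (ipc N a b k).1 (ipc N a b k).2 s + y + dsp ρ _ _ _) = _
      rw [h0]
      congr 1
      abel

theorem exists_dfam (pert : StPert) {O : Set R4} {ρ C δ : ℝ} {Γ : ι → ℝ → ℝ → ℝ → R3}
    (hΓ : SqOk O ρ Γ) (hC : ∀ x y : R3, |cf ρ x - cf ρ y| ≤ C * ‖x - y‖) (hC0 : 0 < C)
    (hδ : Fintype.card ι * (C * δ) ≤ 1 / 2) {c c' : ℝ → ℝ × ℝ} (hc : ContDiff ℝ ∞ c)
    (hc' : ContDiff ℝ ∞ c')
    (hv : ∀ t s i, ‖Γ i (c' t).1 (c' t).2 s - Γ i (c t).1 (c t).2 s‖ ≤ δ) :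
    ∃ F : DFam 𝓘(ℝ, R4) R4, ∀ t x, F.f (t, x) = ds ρ Γ (c t) (c' t) x := by
  have hG : ∀ i (c : ℝ → ℝ × ℝ), ContDiff ℝ ∞ c →
      ContDiff ℝ ∞ (fun p : ℝ × R4 => Γ i (c p.1).1 (c p.1).2 p.2.1) := by
    intro i c hc
    have h1 : ContDiff ℝ ∞ (fun p : ℝ × R4 => c p.1) := hc.comp contDiff_fst
    have h2 : ContDiff ℝ ∞ (fun p : ℝ × R4 => ((c p.1).1, (c p.1).2, p.2.1)) :=
      h1.fst.prodMk (h1.snd.prodMk (contDiff_snd.fst))
    exact (hΓ.smooth i).comp h2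
  obtain ⟨F, hF⟩ := pert (fun p => dsp ρ (fun i => Γ i (c p.1).1 (c p.1).2 p.2.1)
    (fun i => Γ i (c' p.1).1 (c' p.1).2 p.2.1 - Γ i (c p.1).1 (c p.1).2 p.2.1) p.2.2) (by
      unfold dsp
      apply ContDiff.sum
      intro i _
      have f1 : ContDiff ℝ ∞ (fun p : ℝ × R4 => cf ρ (p.2.2 - Γ i (c p.1).1 (c p.1).2 p.2.1)) :=
        (contDiff_cf ρ).comp ((contDiff_snd.snd).sub (hG i c hc))
      have f2 : ContDiff ℝ ∞ (fun p : ℝ × R4 =>
          Γ i (c' p.1).1 (c' p.1).2 p.2.1 - Γ i (c p.1).1 (c p.1).2 p.2.1) :=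
        (hG i c' hc').sub (hG i c hc)
      exact ContDiff.smul f1 f2) (by
      intro t s x y
      exact (dsp_lip hC hC0 _ _ (fun i => hv t s i) x y).trans
        (mul_le_mul_of_nonneg_right hδ (norm_nonneg _)))
  refine ⟨F, ?_⟩
  rintro t ⟨s, x⟩
  exact hF t s x

theorem exists_Q (pert : StPert) {O : Set R4} {ρ C δ : ℝ} {Γ : ι → ℝ → ℝ → ℝ → R3}
    (hΓ : SqOk O ρ Γ) (hC : ∀ x y : R3, |cf ρ x - cf ρ y| ≤ C * ‖x - y‖) (hC0 : 0 < C)
    (hδ : Fintype.card ι * (C * δ) ≤ 1 / 2) {N : ℕ} {a b : ℝ → ℝ × ℝ} (ha : ContDiff ℝ ∞ a)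
    (hb : ContDiff ℝ ∞ b)
    (hv : ∀ t s i, ∀ k < N, ‖Γ i (ipc N (a t) (b t) (k + 1)).1 (ipc N (a t) (b t) (k + 1)).2 s -
      Γ i (ipc N (a t) (b t) k).1 (ipc N (a t) (b t) k).2 s‖ ≤ δ) (k : ℕ) (hk : k ≤ N) :
    ∃ F : DFam 𝓘(ℝ, R4) R4, ∀ t x, F.f (t, x) = Q ρ Γ N (a t) (b t) k x := by
  induction k with
  | zero => exact ⟨DFam.one, fun t x => rfl⟩
  | succ k ih =>
    obtain ⟨F, hF⟩ := ih (by omega)
    have hi : ∀ k : ℕ, ContDiff ℝ ∞ (fun t => ipc N (a t) (b t) k) := by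
      intro k
      unfold ipc
      exact (ha.fst.add (contDiff_const.mul (hb.fst.sub ha.fst))).prodMk
        (ha.snd.add (contDiff_const.mul (hb.snd.sub ha.snd)))
    obtain ⟨G, hG⟩ := exists_dfam pert hΓ hC hC0 hδ (hi k) (hi (k + 1))
      (fun t s i => hv t s i k (by omega))
    refine ⟨G.comp F, fun t x => ?_⟩
    change G.f (t, F.f (t, x)) = _
    rw [hF, hG]
    rfl

theorem ip_mem {a b : ℝ × ℝ} (ha : a ∈ Icc (0 : ℝ) 1 ×ˢ Icc (0 : ℝ) 1)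
    (hb : b ∈ Icc (0 : ℝ) 1 ×ˢ Icc (0 : ℝ) 1) {τ : ℝ} (hτ : τ ∈ Icc (0 : ℝ) 1) :
    (a.1 + τ * (b.1 - a.1) ∈ Icc (0 : ℝ) 1) ∧ (a.2 + τ * (b.2 - a.2) ∈ Icc (0 : ℝ) 1) := by
  obtain ⟨⟨a1, a2⟩, a3, a4⟩ := ha
  obtain ⟨⟨b1, b2⟩, b3, b4⟩ := hb
  obtain ⟨t1, t2⟩ := hτ
  refine ⟨⟨?_, ?_⟩, ⟨?_, ?_⟩⟩
  · nlinarith [mul_nonneg t1 b1, mul_nonneg (sub_nonneg.2 t2) a1]
  · nlinarith [mul_nonneg t1 (sub_nonneg.2 b2), mul_nonneg (sub_nonneg.2 t2) (sub_nonneg.2 a2)]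
  · nlinarith [mul_nonneg t1 b3, mul_nonneg (sub_nonneg.2 t2) a3]
  · nlinarith [mul_nonneg t1 (sub_nonneg.2 b4), mul_nonneg (sub_nonneg.2 t2) (sub_nonneg.2 a4)]

theorem div_mem {N k : ℕ} (hk : k ≤ N) : (k / N : ℝ) ∈ Icc (0 : ℝ) 1 := by
  refine ⟨by positivity, ?_⟩
  apply div_le_one_of_le₀ _ (by positivity)
  exact_mod_cast hk

/-- the choice of the number of steps -/
theorem exists_N {O : Set R4} {ρ δ : ℝ} {Γ : ι → ℝ → ℝ → ℝ → R3} (hΓ : SqOk O ρ Γ) (hδ : 0 < δ) :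
    ∃ N : ℕ, 0 < N ∧ ∀ a ∈ Icc (0 : ℝ) 1 ×ˢ Icc (0 : ℝ) 1, ∀ b ∈ Icc (0 : ℝ) 1 ×ˢ Icc (0 : ℝ) 1,
      ∀ s i, ∀ k < N, ‖Γ i (ipc N a b (k + 1)).1 (ipc N a b (k + 1)).2 s -
      Γ i (ipc N a b k).1 (ipc N a b k).2 s‖ ≤ δ := by
  have hcomp : IsCompact (Icc (0 : ℝ) 1 ×ˢ (Icc (0 : ℝ) 1 ×ˢ Icc (0 : ℝ) 1)) :=
    isCompact_Icc.prod (isCompact_Icc.prod isCompact_Icc)
  have hcont : Continuous (fun p : ℝ × ℝ × ℝ => fun i => Γ i p.1 p.2.1 p.2.2) :=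
    continuous_pi fun i => (hΓ.smooth i).continuous
  have huc := hcomp.uniformContinuousOn_of_continuous hcont.continuousOn
  rw [Metric.uniformContinuousOn_iff] at huc
  obtain ⟨η, hη, h⟩ := huc δ hδ
  obtain ⟨N, hN⟩ := exists_nat_gt (1 / η)
  have hN0 : (0 : ℝ) < N := lt_trans (by positivity) hN
  have hN1 : 1 / (N : ℝ) < η := by
    rw [div_lt_iff₀ hN0]
    rw [div_lt_iff₀ hη] at hN
    linarith
  refine ⟨N, by exact_mod_cast hN0, ?_⟩
  intro a ha b hb s i k hk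
  by_cases hs : s ≤ 0 ∨ 1 ≤ s
  · obtain ⟨z, hz⟩ := hΓ.ends i
    rw [hz _ _ _ hs, hz _ _ _ hs, sub_self, norm_zero]
    exact hδ.le
  push Not at hs
  have hs' : s ∈ Icc (0 : ℝ) 1 := ⟨hs.1.le, hs.2.le⟩
  have hd1 := div_mem (N := N) (k := k + 1) (by omega)
  have hd0 := div_mem (N := N) (k := k) (by omega)
  have m1 := ip_mem ha hb hd1
  have m0 := ip_mem ha hb hd0
  have h1 := h ((ipc N a b (k + 1)).1, (ipc N a b (k + 1)).2, s) ⟨m1.1, m1.2, hs'⟩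
    ((ipc N a b k).1, (ipc N a b k).2, s) ⟨m0.1, m0.2, hs'⟩ (by
      have g : ∀ x y : ℝ, x ∈ Icc (0 : ℝ) 1 → y ∈ Icc (0 : ℝ) 1 →
          dist (x + (((k + 1 : ℕ) : ℝ) / N) * (y - x)) (x + ((k : ℝ) / N) * (y - x)) < η := by
        intro x y hx hy
        rw [Real.dist_eq]
        have e : x + (((k + 1 : ℕ) : ℝ) / N) * (y - x) - (x + ((k : ℝ) / N) * (y - x)) =
            (y - x) * (1 / N) := by
          push_cast; ring
        rw [e, abs_mul, abs_of_pos (show (0 : ℝ) < 1 / N by positivity)]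
        have : |y - x| ≤ 1 := by rw [abs_le]; constructor <;> linarith [hx.1, hx.2, hy.1, hy.2]
        have h2 : |y - x| * (1 / N) ≤ 1 * (1 / N) :=
          mul_le_mul_of_nonneg_right this (by positivity)
        linarith
      rw [Prod.dist_eq, Prod.dist_eq, dist_self]
      exact max_lt (g _ _ ha.1 hb.1) (max_lt (g _ _ ha.2 hb.2) hη))
  rw [dist_eq_norm] at h1
  exact (norm_le_pi_norm (_ : ι → R3) i).trans h1.le

end

end

end CH

open CH in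
/-- **CH.** -/
theorem m_CH (pert : StPert) : StCh := by
  intro ι _ O ρ Γ hρ hΓ
  obtain ⟨C, hC0, hC⟩ := exists_lip hρ
  set δ : ℝ := 1 / (2 * C * (Fintype.card ι + 1)) with hδdef
  have hδ0 : 0 < δ := by positivity
  have hδ : Fintype.card ι * (C * δ) ≤ 1 / 2 := by
    have h1 : (Fintype.card ι + 1 : ℝ) * (C * δ) = 1 / 2 := by
      rw [hδdef]; field_simp
    have h2 : 0 < C * δ := by positivity
    nlinarith
  obtain ⟨N, hN, hstep⟩ := exists_N hΓ hδ0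
  have hN' : (N : ℝ) ≠ 0 := by exact_mod_cast hN.ne'
  refine ⟨fun a b => Q ρ Γ N a b N, ?_, ?_⟩
  · rintro q ⟨s, x⟩
    apply Q_fix hρ N le_rfl (Or.inl ?_)
    intro i m
    have : ∀ m, ipc N q q m = q := by
      intro m
      unfold ipc
      simp
    rw [this, this]
  intro a b ha hb ha' hb'
  obtain ⟨F, hF⟩ := exists_Q pert hΓ hC hC0 hδ ha hb
    (fun t s i k hk => hstep (a t) (ha' t) (b t) (hb' t) s i k hk) N le_rfl
  have hout : ∀ t s x, (s ≤ 0 ∨ 1 ≤ s) → F.f (t, (s, x)) = (s, x) := by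
    intro t s x hs
    rw [hF]
    apply Q_fix hρ N le_rfl (Or.inl ?_)
    intro i m
    obtain ⟨z, hz⟩ := hΓ.ends i
    rw [hz _ _ _ hs, hz _ _ _ hs]
  have hfix : ∀ t s x, (∀ i, ∀ τ ∈ Icc (0 : ℝ) 1, (2 * ρ) ^ 2 ≤
      nsq (x - Γ i ((a t).1 + τ * ((b t).1 - (a t).1))
        ((a t).2 + τ * ((b t).2 - (a t).2)) s)) → F.f (t, (s, x)) = (s, x) := by
    intro t s x h
    rw [hF]
    apply Q_fix hρ N le_rfl (Or.inr ?_)
    intro i m hm
    exact h i _ (div_mem hm)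
  refine ⟨F, hF, ?_, ?_, ?_, hfix⟩
  · refine ⟨⋃ i, (fun z : (ℝ × ℝ × ℝ) × R3 => ((z.1.2.2, Γ i z.1.1 z.1.2.1 z.1.2.2 + z.2) : R4)) ''
      ((Icc (0 : ℝ) 1 ×ˢ (Icc (0 : ℝ) 1 ×ˢ Icc (0 : ℝ) 1)) ×ˢ {y : R3 | nsq y ≤ (2 * ρ) ^ 2}),
      ?_, ?_, ?_⟩
    · apply isCompact_iUnion
      intro i
      apply IsCompact.image
      · exact (isCompact_Icc.prod (isCompact_Icc.prod isCompact_Icc)).prod (isCompact_nsq _)
      · have h1 : Continuous (fun z : (ℝ × ℝ × ℝ) × R3 => Γ i z.1.1 z.1.2.1 z.1.2.2) :=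
          (hΓ.smooth i).continuous.comp continuous_fst
        exact (continuous_fst.snd.snd).prodMk (h1.add continuous_snd)
    · rintro p hp
      obtain ⟨i, ⟨⟨u, q, s⟩, y⟩, ⟨⟨hu, hq, hs⟩, hy⟩, rfl⟩ := mem_iUnion.1 hp
      have hopen : IsOpen {p : R4 | -1 < p.1 ∧ p.1 < 2 ∧ rsq 0 p < (9 / 2) ^ 2} := by
        apply IsOpen.inter (isOpen_lt continuous_const continuous_fst)
        apply IsOpen.inter (isOpen_lt continuous_fst continuous_const)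
        exact isOpen_lt (continuous_rsq 0) continuous_const
      have hsub : {p : R4 | -1 < p.1 ∧ p.1 < 2 ∧ rsq 0 p < (9 / 2) ^ 2} ⊆ ball4 :=
        fun p hp => ⟨hp.1.le, hp.2.1.le, hp.2.2.le⟩
      apply interior_maximal hsub hopen
      have h1 := hΓ.inside i u hu q hq s hs (Γ i u q s + y) (by
        rw [add_sub_cancel_left]; exact hy)
      refine ⟨?_, ?_, ?_⟩
      · show -1 < s
        linarith [hs.1]
      · show s < 2
        linarith [hs.2]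
      · show nsq ((Γ i u q s + y).1 - 0, (Γ i u q s + y).2) < _
        rw [sub_zero]
        exact h1
    · rintro t ⟨s, x⟩ hx
      by_cases hs : s ≤ 0 ∨ 1 ≤ s
      · exact hout t s x hs
      push Not at hs
      have hs' : s ∈ Icc (0 : ℝ) 1 := ⟨hs.1.le, hs.2.le⟩
      apply hfix
      intro i τ hτ
      by_contra hlt
      push Not at hlt
      apply hx
      have hm := ip_mem (ha' t) (hb' t) hτ
      refine mem_iUnion.2 ⟨i, ⟨⟨⟨(a t).1 + τ * ((b t).1 - (a t).1),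
        (a t).2 + τ * ((b t).2 - (a t).2), s⟩, x - Γ i ((a t).1 + τ * ((b t).1 - (a t).1))
        ((a t).2 + τ * ((b t).2 - (a t).2)) s⟩, ⟨⟨hm.1, hm.2, hs'⟩, hlt.le⟩, ?_⟩⟩
      show (s, _ + (x - _)) = (s, x)
      rw [add_sub_cancel]
  · rintro t ⟨s, x⟩ hx
    by_cases hs : s ≤ 0 ∨ 1 ≤ s
    · exact hout t s x hs
    push Not at hs
    have hs' : s ∈ Icc (0 : ℝ) 1 := ⟨hs.1.le, hs.2.le⟩
    apply hfix
    intro i τ hτ
    have hm := ip_mem (ha' t) (hb' t) hτ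
    exact hΓ.off i _ hm.1 _ hm.2 s hs' x hx
  · intro t i s y hy
    rw [hF]
    have h1 := Q_tube hρ hΓ (N := N) (a := a t) (b := b t)
      (fun m hm => ip_mem (ha' t) (hb' t) (div_mem hm)) (s := s) i hy N le_rfl
    have e0 : ipc N (a t) (b t) 0 = a t := by
      unfold ipc; simp
    have e1 : ipc N (a t) (b t) N = b t := by
      unfold ipc
      rw [div_self hN']; simp
    rw [e0, e1] at h1
    exact h1

end Pool.Agent.Helper27.BI


end
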