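import Pool.Agent.Helper65.Barb.Defs
import Pool.Agent.Helper70.BI.C.P04

/-!
# Project BI (MP_8e98f2_gt): collected modules, part 26

The contents of the modules
* Helper18.BI.M_A3
* Helper18.BI.M_S0
* Helper18.BI.M_S3
* Helper18.BI.M_S6
* Helper65.Barb.Implant
* Helper18.BI.M_T3
* Helper65.Barb.Dual1
* Helper65.Barb.Scale

in one file, so that the whole proof builds in a short time.
-/

namespace Pool.Agent.Helper65.Barb
end Pool.Agent.Helper65.Barb


/-! ## Helper18.BI.M_A3 -/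

section

/-!
# Project BI (MP_8e98f2_gt), module A3: the family lemma
-/

set_option autoImplicit false

open scoped Manifold ContDiff Topology ComplexConjugate
open Set Pool.Agent.Helper65.Barb

namespace Pool.Agent.Helper18.BI

namespace A3

theorem inj_of {F : R4 → R4} {G : R4 → R4} (h : ∀ p, G (F p) = p) : Function.Injective F := by
  intro a b hab
  rw [← h a, ← h b, hab]

theorem mapsTo {L : Set R4} {T T' : R4 → R4} (h : ∀ p, T' (T p) = p) (ho : ∀ p, p ∉ L → T p = p) :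
    MapsTo T L L := by
  intro p hp
  by_contra h1
  have h2 := ho _ h1
  have h3 := inj_of h h2
  rw [h3] at h1
  exact h1 hp

variable {E : Type} [NormedAddCommGroup E] [NormedSpace ℝ E] {H : Type} [TopologicalSpace H]
  {I : ModelWithCorners ℝ E H} {M : Type} [TopologicalSpace M] [ChartedSpace H M]

/-- smoothness of the family -/
theorem smooth [T2Space M] {J : ℝ × R4 → M} {L : Set R4}
    (δ : PartialDiffeomorph 𝓘(ℝ, ℝ × R4) (𝓘(ℝ, ℝ).prod I) (ℝ × R4) (ℝ × M) ∞)
    (hδL : Icc (0 : ℝ) 1 ×ˢ L ⊆ δ.source) (hδ : ∀ p ∈ δ.source, δ p = (p.1, J p))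
    (hLc : IsCompact L) {S : R4 → R4} (hS : ContDiff ℝ ∞ S) (hSL : MapsTo S L L)
    (hSo : ∀ p, p ∉ L → S p = p)
    (h1 : ∀ t ∈ Icc (0 : ℝ) 1, ∀ p ∈ L, imp (fun p => J (t, p)) L S (J (t, p)) = J (t, S p))
    (h2 : ∀ t ∈ Icc (0 : ℝ) 1, ∀ y, y ∉ (fun p => J (t, p)) '' L → imp (fun p => J (t, p)) L S y = y) :
    ContMDiff (𝓘(ℝ, ℝ).prod I) I ∞
      (fun q : ℝ × M => imp (fun p => J (Pool.Agent.Helper65.Barb.step q.1, p)) L S q.2) := by
  have hst : ContMDiff (𝓘(ℝ, ℝ).prod I) (𝓘(ℝ, ℝ).prod I) ∞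
      (fun q : ℝ × M => (Pool.Agent.Helper65.Barb.step q.1, q.2)) :=
    (contDiff_step.contMDiff.comp contMDiff_fst).prodMk contMDiff_snd
  intro q₀
  by_cases hc : (Pool.Agent.Helper65.Barb.step q₀.1, q₀.2) ∈ δ '' (Icc (0 : ℝ) 1 ×ˢ L)
  · -- inside the target
    have htar : (Pool.Agent.Helper65.Barb.step q₀.1, q₀.2) ∈ δ.target := by
      obtain ⟨z, hz, hz2⟩ := hc
      rw [← hz2]
      exact δ.map_source (hδL hz)
    have hO : {q : ℝ × M | (Pool.Agent.Helper65.Barb.step q.1, q.2) ∈ δ.target} ∈ 𝓝 q₀ :=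
      (δ.open_target.preimage hst.continuous).mem_nhds htar
    have hmap : ∀ z ∈ δ.source, ((z.1, S z.2) : ℝ × R4) ∈ δ.source ∨ z.1 ∉ Icc (0 : ℝ) 1 := by
      intro z hz
      by_cases hz1 : z.1 ∈ Icc (0 : ℝ) 1
      · left
        by_cases hz2 : z.2 ∈ L
        · exact hδL ⟨hz1, hSL hz2⟩
        · rw [hSo _ hz2]
          exact hz
      · right
        exact hz1
    have heq : (fun q : ℝ × M => imp (fun p => J (Pool.Agent.Helper65.Barb.step q.1, p)) L S q.2) =ᶠ[𝓝 q₀]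
        fun q : ℝ × M => (δ ((δ.symm (Pool.Agent.Helper65.Barb.step q.1, q.2)).1,
          S (δ.symm (Pool.Agent.Helper65.Barb.step q.1, q.2)).2)).2 := by
      filter_upwards [hO] with q hq
      have hq' : (Pool.Agent.Helper65.Barb.step q.1, q.2) ∈ δ.target := hq
      set z := δ.symm (Pool.Agent.Helper65.Barb.step q.1, q.2) with hz
      have hzs : z ∈ δ.source := δ.toPartialEquiv.map_target hq'
      have hzr : δ z = (Pool.Agent.Helper65.Barb.step q.1, q.2) := δ.toPartialEquiv.right_inv hq'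
      have hzd := hδ z hzs
      rw [hzr] at hzd
      have e1 : z.1 = Pool.Agent.Helper65.Barb.step q.1 := (congrArg Prod.fst hzd).symm
      have e2 : J z = q.2 := (congrArg Prod.snd hzd).symm
      have hmem : Pool.Agent.Helper65.Barb.step q.1 ∈ Icc (0 : ℝ) 1 := step_mem q.1
      by_cases hzL : z.2 ∈ L
      · have h3 := h1 _ hmem z.2 hzL
        have e3 : (Pool.Agent.Helper65.Barb.step q.1, z.2) = z := by rw [← e1]
        rw [e3, e2] at h3
        have e4 : ((z.1, S z.2) : ℝ × R4) ∈ δ.source := by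
          apply hδL
          refine ⟨?_, hSL hzL⟩
          show z.1 ∈ Icc (0 : ℝ) 1
          rw [e1]
          exact hmem
        rw [hδ _ e4]
        show imp _ L S q.2 = J (z.1, S z.2)
        rw [h3, e1]
      · have h3 : q.2 ∉ (fun p => J (Pool.Agent.Helper65.Barb.step q.1, p)) '' L := by
          rintro ⟨p, hp, hp2⟩
          have e5 : ((Pool.Agent.Helper65.Barb.step q.1, p) : ℝ × R4) ∈ δ.source := hδL ⟨hmem, hp⟩
          have e6 : δ (Pool.Agent.Helper65.Barb.step q.1, p) = δ z := by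
            rw [hzr, hδ _ e5]
            exact Prod.ext rfl hp2
          have e7 := δ.toPartialEquiv.injOn e5 hzs e6
          apply hzL
          rw [← e7]
          exact hp
        rw [h2 _ hmem _ h3, hSo _ hzL]
        show q.2 = (δ z).2
        rw [hzr]
    refine ContMDiffAt.congr_of_eventuallyEq ?_ heq
    have hsymm : ContMDiffAt (𝓘(ℝ, ℝ).prod I) 𝓘(ℝ, ℝ × R4) ∞ δ.symm
        (Pool.Agent.Helper65.Barb.step q₀.1, q₀.2) :=
      δ.contMDiffOn_invFun.contMDiffAt (δ.open_target.mem_nhds htar)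
    have hmid : ContMDiff 𝓘(ℝ, ℝ × R4) 𝓘(ℝ, ℝ × R4) ∞ (fun z : ℝ × R4 => ((z.1, S z.2) : ℝ × R4)) :=
      (contDiff_fst.prodMk (hS.comp contDiff_snd)).contMDiff
    have hs0 : ((δ.symm (Pool.Agent.Helper65.Barb.step q₀.1, q₀.2)).1,
        S (δ.symm (Pool.Agent.Helper65.Barb.step q₀.1, q₀.2)).2) ∈ δ.source := by
      have hzs : δ.symm (Pool.Agent.Helper65.Barb.step q₀.1, q₀.2) ∈ δ.source :=
        δ.toPartialEquiv.map_target htar
      rcases hmap _ hzs with h | h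
      · exact h
      · exfalso
        apply h
        have hzr : δ (δ.symm (Pool.Agent.Helper65.Barb.step q₀.1, q₀.2)) =
          (Pool.Agent.Helper65.Barb.step q₀.1, q₀.2) := δ.toPartialEquiv.right_inv htar
        have hzd := hδ _ hzs
        rw [hzr] at hzd
        rw [← (congrArg Prod.fst hzd)]
        exact step_mem q₀.1
    have hδs : ContMDiffAt 𝓘(ℝ, ℝ × R4) (𝓘(ℝ, ℝ).prod I) ∞ δ
        ((δ.symm (Pool.Agent.Helper65.Barb.step q₀.1, q₀.2)).1,
          S (δ.symm (Pool.Agent.Helper65.Barb.step q₀.1, q₀.2)).2) :=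
      δ.contMDiffOn_toFun.contMDiffAt (δ.open_source.mem_nhds hs0)
    have c1 : ContMDiffAt (𝓘(ℝ, ℝ).prod I) 𝓘(ℝ, ℝ × R4) ∞
        (fun q : ℝ × M => δ.symm (Pool.Agent.Helper65.Barb.step q.1, q.2)) q₀ :=
      ContMDiffAt.comp q₀ hsymm (hst q₀)
    have c2 : ContMDiffAt (𝓘(ℝ, ℝ).prod I) 𝓘(ℝ, ℝ × R4) ∞
        (fun q : ℝ × M => (((δ.symm (Pool.Agent.Helper65.Barb.step q.1, q.2)).1,
          S (δ.symm (Pool.Agent.Helper65.Barb.step q.1, q.2)).2) : ℝ × R4)) q₀ :=
      ContMDiffAt.comp q₀ (hmid _) c1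
    have c3 : ContMDiffAt (𝓘(ℝ, ℝ).prod I) (𝓘(ℝ, ℝ).prod I) ∞
        (fun q : ℝ × M => δ ((δ.symm (Pool.Agent.Helper65.Barb.step q.1, q.2)).1,
          S (δ.symm (Pool.Agent.Helper65.Barb.step q.1, q.2)).2)) q₀ :=
      ContMDiffAt.comp q₀ hδs c2
    exact ContMDiffAt.comp q₀ (contMDiff_snd _) c3
  · -- away from the image
    have hcl : IsClosed (δ '' (Icc (0 : ℝ) 1 ×ˢ L)) :=
      ((isCompact_Icc.prod hLc).image_of_continuousOn
        (δ.contMDiffOn_toFun.continuousOn.mono hδL)).isClosed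
    have hO : {q : ℝ × M | (Pool.Agent.Helper65.Barb.step q.1, q.2) ∉ δ '' (Icc (0 : ℝ) 1 ×ˢ L)} ∈ 𝓝 q₀ :=
      (hcl.isOpen_compl.preimage hst.continuous).mem_nhds hc
    refine ContMDiffAt.congr_of_eventuallyEq contMDiffAt_snd ?_
    filter_upwards [hO] with q hq
    apply h2 _ (step_mem q.1)
    rintro ⟨p, hp, hp2⟩
    apply hq
    have e5 : ((Pool.Agent.Helper65.Barb.step q.1, p) : ℝ × R4) ∈ Icc (0 : ℝ) 1 ×ˢ L :=
      ⟨step_mem q.1, hp⟩
    refine ⟨_, e5, ?_⟩
    rw [hδ _ (hδL e5)]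
    exact Prod.ext rfl hp2

/-- the inverse -/
theorem inv_aux {F : R4 → M} {L : Set R4} {T T' : R4 → R4}
    (h1 : ∀ p ∈ L, imp F L T (F p) = F (T p)) (h2 : ∀ y, y ∉ F '' L → imp F L T y = y)
    (h1' : ∀ p ∈ L, imp F L T' (F p) = F (T' p)) (h2' : ∀ y, y ∉ F '' L → imp F L T' y = y)
    (hm : MapsTo T' L L) (h : ∀ p, T (T' p) = p) (y : M) : imp F L T (imp F L T' y) = y := by
  by_cases hy : y ∈ F '' L
  · obtain ⟨p, hp, rfl⟩ := hy
    rw [h1' p hp, h1 _ (hm hp), h]
  · rw [h2' y hy, h2 y hy]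

end A3

theorem m_A3 (h1 : StA1) (h2 : StA2) (hi : StImp) : StA3 := by
  intro E _ _ H _ I M _ _ _ J L T T' hL hF hT
  obtain ⟨hTs, hTs', hTT', hT'T, hTo⟩ := hT
  have hTo' : ∀ p, p ∉ L → T' p = p := by
    intro p hp
    have h3 := hT'T p
    rw [hTo p hp] at h3
    exact h3
  have hm : MapsTo T L L := A3.mapsTo hT'T hTo
  have hm' : MapsTo T' L L := A3.mapsTo hTT' hTo'
  have hloc := h2 E H I M J L hF
  have hinj : InjOn (fun q : ℝ × R4 => (q.1, J q)) (Icc (0 : ℝ) 1 ×ˢ L) := by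
    rintro ⟨t, p⟩ ⟨ht, hp⟩ ⟨t', p'⟩ ⟨ht', hp'⟩ h
    have e1 : t = t' := congrArg Prod.fst h
    have e2 : J (t, p) = J (t', p') := congrArg Prod.snd h
    subst e1
    have e3 : p = p' := (hF.2 t ht).2 hp hp' e2
    rw [e3]
  obtain ⟨δ, hδL, hδ⟩ := h1 (ℝ × R4) (ℝ × E) (ModelProd ℝ H) (𝓘(ℝ, ℝ).prod I) (ℝ × M)
    (fun q : ℝ × R4 => (q.1, J q)) (Icc (0 : ℝ) 1 ×ˢ L) (isCompact_Icc.prod hL) hloc hinj
  have himp := fun (t : ℝ) (ht : t ∈ Icc (0 : ℝ) 1) (S : R4 → R4) =>
    hi E H I M (fun p => J (t, p)) L S (hF.2 t ht).2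
  have k1 : ∀ S : R4 → R4, ∀ t ∈ Icc (0 : ℝ) 1, ∀ p ∈ L,
      imp (fun p => J (t, p)) L S (J (t, p)) = J (t, S p) := fun S t ht p hp => (himp t ht S).1 p hp
  have k2 : ∀ S : R4 → R4, ∀ t ∈ Icc (0 : ℝ) 1, ∀ y, y ∉ (fun p => J (t, p)) '' L →
      imp (fun p => J (t, p)) L S y = y := fun S t ht y hy => (himp t ht S).2.1 y hy
  refine ⟨⟨fun q => imp (fun p => J (Pool.Agent.Helper65.Barb.step q.1, p)) L T q.2,
    fun q => imp (fun p => J (Pool.Agent.Helper65.Barb.step q.1, p)) L T' q.2,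
    A3.smooth δ hδL hδ hL hTs hm hTo (k1 T) (k2 T),
    A3.smooth δ hδL hδ hL hTs' hm' hTo' (k1 T') (k2 T'), ?_, ?_⟩, ?_, ?_, ?_⟩
  · intro t x
    exact A3.inv_aux (k1 T _ (step_mem t)) (k2 T _ (step_mem t)) (k1 T' _ (step_mem t))
      (k2 T' _ (step_mem t)) hm' hTT' x
  · intro t x
    exact A3.inv_aux (k1 T' _ (step_mem t)) (k2 T' _ (step_mem t)) (k1 T _ (step_mem t))
      (k2 T _ (step_mem t)) hm hT'T x
  · refine ⟨J '' (Icc (0 : ℝ) 1 ×ˢ L), ?_, ?_⟩
    · obtain ⟨W, -, hW, hJ⟩ := hF.1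
      exact (isCompact_Icc.prod hL).image_of_continuousOn (hJ.continuousOn.mono hW)
    · intro t x hx
      apply k2 T _ (step_mem t)
      rintro ⟨p, hp, rfl⟩
      exact hx ⟨_, ⟨step_mem t, hp⟩, rfl⟩
  · intro x
    show imp (fun p => J (Pool.Agent.Helper65.Barb.step 0, p)) L T x = _
    rw [step_of_nonpos le_rfl]
  · intro x
    show imp (fun p => J (Pool.Agent.Helper65.Barb.step 1, p)) L T x = _
    rw [step_of_one_le le_rfl]

end Pool.Agent.Helper18.BI


end

/-! ## Helper18.BI.M_S0 -/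

section

/-!
# Project BI, module S0: triangular maps are injective local diffeomorphisms
-/

set_option autoImplicit false

open scoped Manifold ContDiff Topology ComplexConjugate
open Set Pool.Agent.Helper65.Barb

namespace Pool.Agent.Helper18.BI

namespace S0

theorem radial_strictMono (f f' : ℝ → ℝ) (hf : ∀ k, 0 ≤ k → HasDerivAt f (f' k) k)
    (hpos : ∀ k, 0 ≤ k → 0 < f k + 2 * k * f' k) : StrictMono (fun r : ℝ => f (r ^ 2) * r) := by
  have hd : ∀ r : ℝ, HasDerivAt (fun r : ℝ => f (r ^ 2) * r) (f (r ^ 2) + 2 * r ^ 2 * f' (r ^ 2))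
      r := by
    intro r
    have h1 : HasDerivAt (fun r : ℝ => r ^ 2) (2 * r) r := by
      simpa using hasDerivAt_pow 2 r
    have h2 : HasDerivAt (fun r : ℝ => f (r ^ 2)) (f' (r ^ 2) * (2 * r)) r :=
      HasDerivAt.comp (h := fun r : ℝ => r ^ 2) (h₂ := f) r (hf (r ^ 2) (sq_nonneg r)) h1
    have h3 := h2.mul (hasDerivAt_id r)
    refine h3.congr_deriv ?_
    simp only [id]
    ring
  apply strictMono_of_deriv_pos
  intro r
  rw [(hd r).deriv]
  exact hpos _ (sq_nonneg r)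

theorem tri_inj (α : ℝ) (β β' : ℝ → ℝ) (h h' : ℝ → ℝ → ℝ) (hα : 0 < α)
    (hβ : ∀ a, HasDerivAt β (β' a) a) (hβ' : ∀ a, 0 < β' a)
    (hh : ∀ a k, 0 ≤ k → HasDerivAt (h a) (h' a k) k)
    (hp : ∀ a k, 0 ≤ k → 0 < h a k ∧ 0 < h a k + 2 * k * h' a k) :
    Function.Injective (tri α β h) := by
  intro p q hpq
  obtain ⟨s, a, w⟩ := p
  obtain ⟨s', a', w'⟩ := q
  simp only [tri, Prod.mk.injEq] at hpq
  obtain ⟨h1, h2, h3⟩ := hpq
  have hs : s = s' := by
    have : α * (s - s') = 0 := by linarith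
    rcases mul_eq_zero.1 this with h | h
    · exact absurd h hα.ne'
    · linarith
  have hmono : StrictMono β := by
    apply strictMono_of_deriv_pos
    intro r
    rw [(hβ r).deriv]
    exact hβ' r
  have ha : a = a' := hmono.injective h2
  subst hs
  subst ha
  have hr : StrictMono (fun r : ℝ => h a (r ^ 2) * r) :=
    radial_strictMono (h a) (h' a) (hh a) (fun k hk => (hp a k hk).2)
  have hn : ∀ z : ℂ, Complex.normSq z = ‖z‖ ^ 2 := fun z => Complex.normSq_eq_norm_sq z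
  have h4 : h a (‖w‖ ^ 2) * ‖w‖ = h a (‖w'‖ ^ 2) * ‖w'‖ := by
    have h5 := congrArg norm h3
    rw [norm_mul, norm_mul, Complex.norm_real, Complex.norm_real, hn, hn,
      Real.norm_of_nonneg (hp a _ (sq_nonneg _)).1.le,
      Real.norm_of_nonneg (hp a _ (sq_nonneg _)).1.le] at h5
    exact h5
  have h5 : ‖w‖ = ‖w'‖ := hr.injective h4
  rw [hn, hn, h5] at h3
  have h6 : ((h a (‖w'‖ ^ 2) : ℝ) : ℂ) ≠ 0 := by
    exact_mod_cast (hp a _ (sq_nonneg _)).1.ne'
  rw [mul_left_cancel₀ h6 h3]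

theorem tri_contDiffOn (α : ℝ) (β : ℝ → ℝ) (h : ℝ → ℝ → ℝ) (O : Set (ℝ × ℝ))
    (hβ : ContDiff ℝ ∞ β) (hO : IsOpen O)
    (hh : ContDiffOn ℝ ∞ (fun x : ℝ × ℝ => h x.1 x.2) O) :
    IsOpen {p : R4 | (p.2.1, Complex.normSq p.2.2) ∈ O} ∧
    ContDiffOn ℝ ∞ (tri α β h) {p : R4 | (p.2.1, Complex.normSq p.2.2) ∈ O} := by
  have hns : ContDiff ℝ ∞ (fun z : ℂ => Complex.normSq z) := by
    have : (fun z : ℂ => Complex.normSq z) = fun z => ‖z‖ ^ 2 := by
      ext z
      exact Complex.normSq_eq_norm_sq z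
    rw [this]
    exact contDiff_norm_sq ℝ
  have hg : ContDiff ℝ ∞ (fun p : R4 => (p.2.1, Complex.normSq p.2.2)) :=
    (contDiff_fst.comp contDiff_snd).prodMk (hns.comp (contDiff_snd.comp contDiff_snd))
  refine ⟨hO.preimage hg.continuous, ?_⟩
  have h1 : ContDiff ℝ ∞ (fun p : R4 => 1 / 2 + α * (p.1 - 1 / 2)) :=
    contDiff_const.add (contDiff_const.mul (contDiff_fst.sub contDiff_const))
  have h2 : ContDiff ℝ ∞ (fun p : R4 => β p.2.1) := hβ.comp (contDiff_fst.comp contDiff_snd)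
  have h3 : ContDiffOn ℝ ∞ (fun p : R4 => h p.2.1 (Complex.normSq p.2.2))
      {p : R4 | (p.2.1, Complex.normSq p.2.2) ∈ O} :=
    hh.comp hg.contDiffOn (fun p hp => hp)
  have h4 : ContDiffOn ℝ ∞ (fun p : R4 => ((h p.2.1 (Complex.normSq p.2.2) : ℝ) : ℂ))
      {p : R4 | (p.2.1, Complex.normSq p.2.2) ∈ O} :=
    Complex.ofRealCLM.contDiff.comp_contDiffOn h3
  exact h1.contDiffOn.prodMk (h2.contDiffOn.prodMk
    (h4.mul (contDiff_snd.comp contDiff_snd).contDiffOn))

theorem tri_fderiv (α : ℝ) (β β' : ℝ → ℝ) (h h' : ℝ → ℝ → ℝ) (hα : 0 < α)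
    (hβ : ∀ a, HasDerivAt β (β' a) a) (hβ' : ∀ a, 0 < β' a)
    (hh : ∀ a k, 0 ≤ k → HasDerivAt (h a) (h' a k) k)
    (hp : ∀ a k, 0 ≤ k → 0 < h a k ∧ 0 < h a k + 2 * k * h' a k) (p v : R4)
    (hd : DifferentiableAt ℝ (tri α β h) p) (hv : fderiv ℝ (tri α β h) p v = 0) : v = 0 := by
  obtain ⟨s, a, w⟩ := p
  obtain ⟨σ, b, z⟩ := v
  -- the curve
  have hc : HasDerivAt (fun t : ℝ => tri α β h ((s, a, w) + t • (σ, b, z))) 0 0 := by
    have h1 : HasDerivAt (fun t : ℝ => ((s, a, w) : R4) + t • ((σ, b, z) : R4)) (σ, b, z) 0 := by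
      have := ((hasDerivAt_id (0 : ℝ)).smul_const ((σ, b, z) : R4)).const_add ((s, a, w) : R4)
      simpa using this
    have h2 : HasFDerivAt (tri α β h) (fderiv ℝ (tri α β h) (s, a, w))
        (((s, a, w) : R4) + (0 : ℝ) • ((σ, b, z) : R4)) := by
      rw [zero_smul, add_zero]
      exact hd.hasFDerivAt
    have h3 := h2.comp_hasDerivAt (0 : ℝ) h1
    rw [hv] at h3
    exact h3
  have e1 : ∀ t : ℝ, tri α β h ((s, a, w) + t • (σ, b, z)) =
      (1 / 2 + α * (s + t * σ - 1 / 2), β (a + t * b),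
        ((h (a + t * b) (Complex.normSq (w + t * z)) : ℝ) : ℂ) * (w + t * z)) := by
    intro t
    simp [tri]
  simp only [e1] at hc
  -- first coordinate
  have hσ : σ = 0 := by
    have h1 := (ContinuousLinearMap.fst ℝ ℝ (ℝ × ℂ)).hasFDerivAt.comp_hasDerivAt (0 : ℝ) hc
    have h2 : HasDerivAt (fun t : ℝ => 1 / 2 + α * (s + t * σ - 1 / 2)) (α * σ) 0 := by
      have h3 : HasDerivAt (fun t : ℝ => s + t * σ - 1 / 2) σ 0 := by
        have := (((hasDerivAt_id (0 : ℝ)).mul_const σ).const_add s).sub_const (1 / 2)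
        simpa using this
      exact (h3.const_mul α).const_add (1 / 2)
    have h4 : α * σ = 0 := by
      have h5 := h2.unique h1
      simpa using h5
    rcases mul_eq_zero.1 h4 with h5 | h5
    · exact absurd h5 hα.ne'
    · exact h5
  -- second coordinate
  have hb : b = 0 := by
    have h1 := ((ContinuousLinearMap.fst ℝ ℝ ℂ).comp
      (ContinuousLinearMap.snd ℝ ℝ (ℝ × ℂ))).hasFDerivAt.comp_hasDerivAt (0 : ℝ) hc
    have h2 : HasDerivAt (fun t : ℝ => β (a + t * b)) (β' a * b) 0 := by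
      have h3 : HasDerivAt (fun t : ℝ => a + t * b) b 0 := by
        have := ((hasDerivAt_id (0 : ℝ)).mul_const b).const_add a
        simpa using this
      have h4 : HasDerivAt β (β' a) (a + 0 * b) := by simpa using hβ a
      exact h4.comp (0 : ℝ) h3
    have h4 : β' a * b = 0 := by
      have h5 := h2.unique h1
      simpa using h5
    rcases mul_eq_zero.1 h4 with h5 | h5
    · exact absurd h5 (hβ' a).ne'
    · exact h5
  subst hσ
  subst hb
  -- third coordinate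
  set k : ℝ := Complex.normSq w with hk
  have hk0 : 0 ≤ k := Complex.normSq_nonneg w
  set m : ℝ := w.re * z.re + w.im * z.im with hm
  have hN : HasDerivAt (fun t : ℝ => Complex.normSq (w + t * z)) (2 * m) 0 := by
    have e2 : (fun t : ℝ => Complex.normSq (w + t * z)) =
        fun t => (w.re + t * z.re) * (w.re + t * z.re) + (w.im + t * z.im) * (w.im + t * z.im) := by
      ext t
      simp [Complex.normSq_apply]
    rw [e2]
    have h1 : HasDerivAt (fun t : ℝ => w.re + t * z.re) z.re 0 := by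
      have := ((hasDerivAt_id (0 : ℝ)).mul_const z.re).const_add w.re
      simpa using this
    have h2 : HasDerivAt (fun t : ℝ => w.im + t * z.im) z.im 0 := by
      have := ((hasDerivAt_id (0 : ℝ)).mul_const z.im).const_add w.im
      simpa using this
    have h3 := (h1.mul h1).add (h2.mul h2)
    refine h3.congr_deriv ?_
    simp only [zero_mul, add_zero, hm]
    ring
  have hH : HasDerivAt (fun t : ℝ => h (a + t * 0) (Complex.normSq (w + t * z)))
      (h' a k * (2 * m)) 0 := by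
    have h1 : HasDerivAt (h a) (h' a k) (Complex.normSq (w + (0 : ℝ) * z)) := by
      simpa [hk] using hh a k hk0
    have h2 := h1.comp (0 : ℝ) hN
    have e2 : (fun t : ℝ => h (a + t * 0) (Complex.normSq (w + t * z))) =
        h a ∘ fun t : ℝ => Complex.normSq (w + t * z) := by
      ext t
      simp
    rw [e2]
    exact h2
  have hre : h' a k * (2 * m) * w.re + h a k * z.re = 0 := by
    have h1 := (Complex.reCLM.comp ((ContinuousLinearMap.snd ℝ ℝ ℂ).comp
      (ContinuousLinearMap.snd ℝ ℝ (ℝ × ℂ)))).hasFDerivAt.comp_hasDerivAt (0 : ℝ) hc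
    have h2 : HasDerivAt (fun t : ℝ => w.re + t * z.re) z.re 0 := by
      have := ((hasDerivAt_id (0 : ℝ)).mul_const z.re).const_add w.re
      simpa using this
    have h3 := hH.mul h2
    have e2 : ((Complex.reCLM.comp ((ContinuousLinearMap.snd ℝ ℝ ℂ).comp
        (ContinuousLinearMap.snd ℝ ℝ (ℝ × ℂ)))) ∘ fun t : ℝ =>
        ((1 / 2 + α * (s + t * 0 - 1 / 2), β (a + t * 0),
        ((h (a + t * 0) (Complex.normSq (w + t * z)) : ℝ) : ℂ) * (w + t * z)) : R4)) =
        ((fun t : ℝ => h (a + t * 0) (Complex.normSq (w + t * z))) *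
          fun t : ℝ => w.re + t * z.re) := by
      ext t
      simp
    rw [e2] at h1
    have h4 := h3.unique h1
    simpa [hk] using h4
  have him : h' a k * (2 * m) * w.im + h a k * z.im = 0 := by
    have h1 := (Complex.imCLM.comp ((ContinuousLinearMap.snd ℝ ℝ ℂ).comp
      (ContinuousLinearMap.snd ℝ ℝ (ℝ × ℂ)))).hasFDerivAt.comp_hasDerivAt (0 : ℝ) hc
    have h2 : HasDerivAt (fun t : ℝ => w.im + t * z.im) z.im 0 := by
      have := ((hasDerivAt_id (0 : ℝ)).mul_const z.im).const_add w.im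
      simpa using this
    have h3 := hH.mul h2
    have e2 : ((Complex.imCLM.comp ((ContinuousLinearMap.snd ℝ ℝ ℂ).comp
        (ContinuousLinearMap.snd ℝ ℝ (ℝ × ℂ)))) ∘ fun t : ℝ =>
        ((1 / 2 + α * (s + t * 0 - 1 / 2), β (a + t * 0),
        ((h (a + t * 0) (Complex.normSq (w + t * z)) : ℝ) : ℂ) * (w + t * z)) : R4)) =
        ((fun t : ℝ => h (a + t * 0) (Complex.normSq (w + t * z))) *
          fun t : ℝ => w.im + t * z.im) := by
      ext t
      simp
    rw [e2] at h1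
    have h4 := h3.unique h1
    simpa [hk] using h4
  obtain ⟨hp1, hp2⟩ := hp a k hk0
  have hkk : k = w.re * w.re + w.im * w.im := by rw [hk, Complex.normSq_apply]
  have hm0 : m = 0 := by
    have h1 : (h a k + 2 * k * h' a k) * m = 0 := by
      have h2 : (h' a k * (2 * m) * w.re + h a k * z.re) * w.re +
          (h' a k * (2 * m) * w.im + h a k * z.im) * w.im = 0 := by rw [hre, him]; ring
      have h3 : (h' a k * (2 * m) * w.re + h a k * z.re) * w.re +
          (h' a k * (2 * m) * w.im + h a k * z.im) * w.im =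
          h' a k * (2 * m) * (w.re * w.re + w.im * w.im) +
            h a k * (w.re * z.re + w.im * z.im) := by ring
      rw [h3, ← hkk, ← hm] at h2
      linarith
    rcases mul_eq_zero.1 h1 with h2 | h2
    · exact absurd h2 hp2.ne'
    · exact h2
  rw [hm0] at hre him
  have hz1 : z.re = 0 := by
    have : h a k * z.re = 0 := by linarith
    rcases mul_eq_zero.1 this with h2 | h2
    · exact absurd h2 hp1.ne'
    · exact h2
  have hz2 : z.im = 0 := by
    have : h a k * z.im = 0 := by linarith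
    rcases mul_eq_zero.1 this with h2 | h2
    · exact absurd h2 hp1.ne'
    · exact h2
  have hz : z = 0 := Complex.ext hz1 hz2
  rw [hz]
  rfl

end S0

theorem m_S0 (h0 : StA0) : StS0 := by
  intro α β β' h h' O hα hβ hβd hβ' hO hOk hh hhd hp
  obtain ⟨hopen, hcd⟩ := S0.tri_contDiffOn α β h O hβ hO hh
  refine ⟨?_, (S0.tri_inj α β β' h h' hα hβd hβ' hhd hp).injOn⟩
  intro p _
  rw [h0 R4 (tri α β h) p]
  have hmem : p ∈ {p : R4 | (p.2.1, Complex.normSq p.2.2) ∈ O} :=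
    hOk _ _ (Complex.normSq_nonneg _)
  refine ⟨⟨_, hopen, hmem, hcd⟩, ?_⟩
  intro v hv
  have hd : DifferentiableAt ℝ (tri α β h) p :=
    (hcd.contDiffAt (hopen.mem_nhds hmem)).differentiableAt (by simp)
  exact S0.tri_fderiv α β β' h h' hα hβd hβ' hhd hp p v hd hv

end Pool.Agent.Helper18.BI


end

/-! ## Helper18.BI.M_S3 -/

section

/-!
# Project BI: module S3
-/

set_option autoImplicit false

open scoped Manifold ContDiff Topology ComplexConjugate
open Set Pool.Agent.Helper65.Barb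

namespace Pool.Agent.Helper18.BI

namespace S3

lemma half_nonneg (u ε : ℝ) : 0 ≤ (u + √(u ^ 2 + ε ^ 2)) / 2 := by
  have h : |u| ≤ √(u ^ 2 + ε ^ 2) := by
    refine Real.le_sqrt_of_sq_le ?_
    rw [sq_abs]; nlinarith [sq_nonneg ε]
  have := neg_abs_le u
  linarith

lemma prof_nonneg (ε a : ℝ) : 0 ≤ prof ε a := by
  unfold prof
  have h1 := half_nonneg (1 / 25 - a ^ 2) ε
  have h2 := half_nonneg (1 / 25 - (a - 1) ^ 2) ε
  linarith

lemma den_ge {ε g k : ℝ} (hε : 0 ≤ ε) (hg : 0 ≤ g) (hk : 0 ≤ k) :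
    2 * g ≤ k + g + ε + √((k - g) ^ 2 + 2 * ε * (k + g) + ε ^ 2) ∧
    k ≤ k + g + ε + √((k - g) ^ 2 + 2 * ε * (k + g) + ε ^ 2) := by
  have h : g - k ≤ √((k - g) ^ 2 + 2 * ε * (k + g) + ε ^ 2) := by
    refine Real.le_sqrt_of_sq_le ?_
    nlinarith [mul_nonneg hε (add_nonneg hk hg), sq_nonneg ε]
  have h2 := Real.sqrt_nonneg ((k - g) ^ 2 + 2 * ε * (k + g) + ε ^ 2)
  constructor <;> linarith

lemma fac_nonneg (ε a k : ℝ) : 0 ≤ fac ε a k := Real.sqrt_nonneg _

lemma fac_le_one {ε a k : ℝ} (hε : 0 ≤ ε) (hk : 0 ≤ k) : fac ε a k ≤ 1 := by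
  unfold fac
  rw [Real.sqrt_le_left (by norm_num), one_pow]
  have h := (den_ge hε (prof_nonneg ε a) hk).1
  exact div_le_one_of_le₀ h ((by linarith [prof_nonneg ε a] : (0 : ℝ) ≤ 2 * prof ε a).trans h)

lemma continuous_prof : Continuous (fun x : ℝ × ℝ => prof x.1 x.2) := by
  unfold prof
  fun_prop

lemma continuous_axc : Continuous (fun x : ℝ × ℝ => axc x.1 x.2) := by
  unfold axc
  fun_prop

end S3

open S3 in
theorem m_S3 : StS3 := by
  have h1 : Continuous (fun q : ℝ × R4 => (1 / 2 + q.1 * (q.2.1 - 1 / 2) : ℝ)) := by fun_prop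
  have h2 : Continuous (fun q : ℝ × R4 => axc q.1 q.2.2.1) :=
    continuous_axc.comp (by fun_prop : Continuous fun q : ℝ × R4 => (q.1, q.2.2.1))
  have h0 : Continuous (fun q : ℝ × R4 => prof q.1 q.2.2.1) :=
    continuous_prof.comp (by fun_prop : Continuous fun q : ℝ × R4 => (q.1, q.2.2.1))
  have hk : Continuous (fun q : ℝ × R4 => Complex.normSq q.2.2.2) :=
    Complex.continuous_normSq.comp (by fun_prop)
  have h3 : ContinuousOn (fun q : ℝ × R4 =>
      ((fac q.1 q.2.2.1 (Complex.normSq q.2.2.2) : ℝ) : ℂ) * q.2.2.2) (Ici 0 ×ˢ univ) := by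
    intro q₀ hq₀
    have hε₀ : 0 ≤ q₀.1 := hq₀.1
    by_cases hw : q₀.2.2.2 = 0
    · have e0 : ((fac q₀.1 q₀.2.2.1 (Complex.normSq q₀.2.2.2) : ℝ) : ℂ) * q₀.2.2.2 = 0 := by
        rw [hw, mul_zero]
      unfold ContinuousWithinAt
      simp only []
      rw [e0]
      have hc : Filter.Tendsto (fun q : ℝ × R4 => ‖q.2.2.2‖) (𝓝[Ici 0 ×ˢ univ] q₀) (𝓝 0) := by
        have : Continuous (fun q : ℝ × R4 => ‖q.2.2.2‖) := by fun_prop
        have h := this.continuousAt (x := q₀)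
        unfold ContinuousAt at h
        simp only [] at h
        rw [hw, norm_zero] at h
        exact h.mono_left nhdsWithin_le_nhds
      refine squeeze_zero_norm' ?_ hc
      filter_upwards [self_mem_nhdsWithin] with q hq
      have hε : 0 ≤ q.1 := hq.1
      rw [norm_mul, Complex.norm_real, Real.norm_eq_abs, abs_of_nonneg (fac_nonneg _ _ _)]
      exact mul_le_of_le_one_left (norm_nonneg _) (fac_le_one hε (Complex.normSq_nonneg _))
    · have hkpos : 0 < Complex.normSq q₀.2.2.2 := Complex.normSq_pos.2 hw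
      have hD := (den_ge hε₀ (prof_nonneg q₀.1 q₀.2.2.1) hkpos.le).2
      have hden : Continuous (fun q : ℝ × R4 => Complex.normSq q.2.2.2 + prof q.1 q.2.2.1 + q.1 +
          √((Complex.normSq q.2.2.2 - prof q.1 q.2.2.1) ^ 2 +
            2 * q.1 * (Complex.normSq q.2.2.2 + prof q.1 q.2.2.1) + q.1 ^ 2)) :=
        (((hk.add h0).add continuous_fst).add (Continuous.sqrt
          ((((hk.sub h0).pow 2).add ((continuous_const.mul continuous_fst).mul (hk.add h0))).add
            (continuous_fst.pow 2))))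
      have hfac : ContinuousAt (fun q : ℝ × R4 => fac q.1 q.2.2.1 (Complex.normSq q.2.2.2)) q₀ := by
        unfold fac
        exact (((continuous_const.mul h0).continuousAt).div hden.continuousAt
          (ne_of_gt (hkpos.trans_le hD))).sqrt
      refine ContinuousAt.continuousWithinAt ?_
      exact (Complex.continuous_ofReal.continuousAt.comp hfac).mul
        (by fun_prop : Continuous fun q : ℝ × R4 => q.2.2.2).continuousAt
  exact h1.continuousOn.prodMk (h2.continuousOn.prodMk h3)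

end Pool.Agent.Helper18.BI


end

/-! ## Helper18.BI.M_S6 -/

section

/-! # Module S6 of project BI: the homotopy of compressions -/

set_option autoImplicit false

open scoped Manifold ContDiff Topology ComplexConjugate
open Set Pool.Agent.Helper65.Barb

namespace Pool.Agent.Helper18.BI

private theorem hom_eq_tri (ε t : ℝ) (p : R4) :
    hom ε (t, p) = tri ((1 - t) * ε + t) (fun a => (1 - t) * axc ε a + t * a)
      (fun a k => (1 - t) * fac ε a k + t) p := by
  unfold hom tri sq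
  refine Prod.ext ?_ (Prod.ext ?_ ?_)
  · simp only [Prod.fst_add, Prod.smul_fst, smul_eq_mul]
    ring
  · simp only [Prod.snd_add, Prod.fst_add, Prod.smul_snd, Prod.smul_fst, smul_eq_mul]
  · simp only [Prod.snd_add, Prod.smul_snd, Complex.real_smul]
    push_cast
    ring

private theorem emb_aux (h0 : StS0) (h1 : StS1) (h2 : StS2) (ε : ℝ) (hε : 0 < ε) (t : ℝ)
    (ht : t ∈ Icc (0 : ℝ) 1) :
    EmbOn 𝓘(ℝ, R4) (tri ((1 - t) * ε + t) (fun a => (1 - t) * axc ε a + t * a)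
      (fun a k => (1 - t) * fac ε a k + t)) univ := by
  obtain ⟨h2a, h2b, h2c, -⟩ := h2
  obtain ⟨hax, d, hd⟩ := h2b ε hε
  obtain ⟨O, hO, hO1, hO2⟩ := h2c ε hε
  have ht0 : 0 ≤ t := ht.1
  have ht1 : 0 ≤ 1 - t := by linarith [ht.2]
  have key : ∀ x : ℝ, 0 < x → 0 < (1 - t) * x + t := by
    intro x hx
    rcases eq_or_lt_of_le ht0 with h | h
    · rw [← h]; simpa using hx
    · have := mul_nonneg ht1 hx.le
      linarith
  refine h0 ((1 - t) * ε + t) (fun a => (1 - t) * axc ε a + t * a) (fun a => (1 - t) * d a + t)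
    (fun a k => (1 - t) * fac ε a k + t) (fun a k => (1 - t) * deriv (ff ε (prof ε a)) k) O
    (key ε hε) ?_ ?_ ?_ hO hO1 ?_ ?_ ?_
  · exact (contDiff_const.mul hax).add (contDiff_const.mul contDiff_id)
  · intro a
    have h : HasDerivAt (fun a => (1 - t) * axc ε a + t * a) ((1 - t) * d a + t * 1) a :=
      ((hd a).1.const_mul (1 - t)).add ((hasDerivAt_id a).const_mul t)
    rw [mul_one] at h
    exact h
  · intro a
    exact key _ (hd a).2
  · exact (contDiffOn_const.mul hO2).add contDiffOn_const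
  · intro a k hk
    obtain ⟨-, -, -, -, d', hd', -⟩ := h1 ε (prof ε a) k hε (h2a ε a hε) hk
    have h := (hd'.const_mul (1 - t)).add_const t
    rw [hd'.deriv]
    exact h
  · intro a k hk
    obtain ⟨hpos, -, -, -, d', hd', hpos'⟩ := h1 ε (prof ε a) k hε (h2a ε a hε) hk
    rw [hd'.deriv]
    refine ⟨key _ hpos, ?_⟩
    have h := key _ hpos'
    have e : (1 - t) * fac ε a k + t + 2 * k * ((1 - t) * d') =
        (1 - t) * (ff ε (prof ε a) k + 2 * k * d') + t := by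
      have : fac ε a k = ff ε (prof ε a) k := rfl
      rw [this]; ring
    rw [e]
    exact h

/-- **S6.** -/
theorem m_S6 (h0 : StS0) (h1 : StS1) (h2 : StS2) : StS6 := by
  refine ⟨?_, ?_, ?_⟩
  · intro ε hε
    have h := emb_aux h0 h1 h2 ε hε 0 ⟨le_refl _, zero_le_one⟩
    have e : sq ε = tri ((1 - 0) * ε + 0) (fun a => (1 - 0) * axc ε a + 0 * a)
        (fun a k => (1 - 0) * fac ε a k + 0) := by
      funext p
      rw [← hom_eq_tri]
      simp [hom]
    rw [e]
    exact h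
  · intro ε hε
    have hs : ContDiff ℝ ∞ (fun p : R4 => sq ε p) := by
      have h := h2.2.2.2
      have h3 : ContDiff ℝ ∞ (fun p : R4 => ((ε, p) : ℝ × R4)) := contDiff_const.prodMk contDiff_id
      have h4 : ContDiffOn ℝ ∞ ((fun q : ℝ × R4 => sq q.1 q.2) ∘ fun p : R4 => ((ε, p) : ℝ × R4)) univ :=
        h.comp h3.contDiffOn (fun p _ => ⟨hε, mem_univ _⟩)
      exact contDiffOn_univ.1 h4
    unfold hom
    exact ((contDiff_const.sub contDiff_fst).smul (hs.comp contDiff_snd)).add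
      (contDiff_fst.smul contDiff_snd)
  · intro ε hε t ht
    have h := emb_aux h0 h1 h2 ε hε t ht
    have e : (fun p => hom ε (t, p)) = tri ((1 - t) * ε + t) (fun a => (1 - t) * axc ε a + t * a)
        (fun a k => (1 - t) * fac ε a k + t) := by
      funext p
      exact hom_eq_tri ε t p
    rw [e]
    exact h

end Pool.Agent.Helper18.BI


end

/-! ## Helper65.Barb.Implant -/

section

/-!
# Implantations
-/

set_option autoImplicit false
set_option linter.unusedSectionVars false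
set_option linter.unusedVariables false

open scoped Manifold ContDiff Topology ComplexConjugate
open Set

namespace Pool.Agent.Helper65.Barb

theorem IsBarbellMap.eq_self {β : R4 → R4} (hβ : IsBarbellMap β) {p : R4} (hp : p ∉ NB) :
    β p = p := by
  obtain ⟨Φ, -, h1, ⟨K, -, hKi, hK⟩, hz, ho⟩ := hβ
  rw [← h1]
  by_cases hpK : p ∈ K
  · have hpb := interior_subset (hKi hpK)
    by_cases h0 : rsq 0 p ≤ (3 / 20) ^ 2
    · exact hz 1 (by simp) p h0
    · have h2 : rsq 1 p ≤ (3 / 20) ^ 2 := by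
        by_contra h2
        exact hp ⟨hpb, (not_le.1 h0).le, (not_le.1 h2).le⟩
      obtain ⟨s, x⟩ := p
      obtain ⟨y, rfl⟩ : ∃ y : ℝ × ℂ, x = (1, 0) + y := ⟨x - (1, 0), by abel⟩
      have hy : nsq y ≤ (3 / 20) ^ 2 := by
        have : rsq 1 (s, (1, 0) + y) = nsq y := by simp [rsq]
        rw [← this]; exact h2
      rw [ho 1 (by simp) s y hy, step_of_one_le le_rfl, spin_one]
      simp
  · exact hK 1 p hpK

theorem implantation_eq_push (B : PartialDiffeomorph 𝓘(ℝ, R4) (𝓡 4) R4 S4 ∞)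
    (hB : NB ⊆ B.source) {β : R4 → R4} (hβ : IsBarbellMap β) : implantation B β = push B β := by
  funext y
  by_cases hy : y ∈ B '' NB
  · rw [implantation, if_pos hy]
    obtain ⟨p, hp, rfl⟩ := hy
    have h2 : B.toPartialEquiv.symm (B p) = p := B.toPartialEquiv.left_inv (hB hp)
    rw [h2, push_of_mem B _ (hB hp)]
  · rw [implantation, if_neg hy,
      push_of_notMem B _ hB (fun x hx => hβ.eq_self hx) hy]

end Pool.Agent.Helper65.Barb


end

/-! ## Helper18.BI.M_T3 -/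

section

/-!
# Project BI: modules T3 -- T7
-/

set_option autoImplicit false

open scoped Manifold ContDiff Topology ComplexConjugate
open Set Pool.Agent.Helper65.Barb

namespace Pool.Agent.Helper18.BI

namespace T3

/-- the inverse of the barbell map -/
noncomputable def barInv (p : R4) : R4 := bfam.g (1, p)

theorem contDiff_slice {f : ℝ × R4 → R4}
    (hf : ContMDiff (𝓘(ℝ, ℝ).prod 𝓘(ℝ, R4)) 𝓘(ℝ, R4) ∞ f) (t : ℝ) :
    ContDiff ℝ ∞ (fun p => f (t, p)) := by
  rw [← contMDiff_iff_contDiff]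
  exact hf.comp (contMDiff_const.prodMk contMDiff_id)

theorem sdiff_barMap : SDiff bsupp barMap barInv :=
  ⟨contDiff_slice bfam.smooth_f 1, contDiff_slice bfam.smooth_g 1, fun p => bfam.fg 1 p,
    fun p => bfam.gf 1 p, fun _ hp => barMap_off hp⟩

theorem mapsTo_barMap : MapsTo barMap bsupp bsupp := fun _ hx =>
  DFam.mapsTo (bfam.freeze 1) (K := bsupp) (fun _ _ hx => barMap_off hx) 0 hx

theorem hom_zero (ε : ℝ) (p : R4) : hom ε (0, p) = sq ε p := by
  simp [hom]

theorem hom_one (ε : ℝ) (p : R4) : hom ε (1, p) = p := by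
  simp [hom]

theorem zero_mem : (0 : ℝ) ∈ Icc (0 : ℝ) 1 := by simp

section
variable {E : Type} [NormedAddCommGroup E] [NormedSpace ℝ E] {H : Type} [TopologicalSpace H]
  {I : ModelWithCorners ℝ E H} {M : Type} [TopologicalSpace M] [ChartedSpace H M]

/-- Invariance under families in both directions. -/
theorem thin_iff [T2Space M] (t2 : StT2) (J : ℝ × R4 → M) (hJ : FamOn I J SP) (φ : M → M) :
    Thin I (fun p => J (0, p)) φ ↔ Thin I (fun p => J (1, p)) φ := by
  obtain ⟨hi, hii, hiii, hiv, -⟩ := t2 E H I M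
  refine ⟨hiii J φ hJ, fun h => ?_⟩
  obtain ⟨ε₀, hε₀, hε⟩ := hi (fun p => J (0, p)) (hJ.2 0 zero_mem)
  have h0 := hε (ε₀ / 2) ⟨by linarith, by linarith⟩
  exact hiv _ _ _ h0 (hii _ _ _ (hiii J _ hJ h0) h)

theorem isOpen_localDiffeo (F : R4 → M) :
    IsOpen {p : R4 | IsLocalDiffeomorphAt 𝓘(ℝ, R4) I ∞ F p} := by
  rw [isOpen_iff_mem_nhds]
  rintro p ⟨Φ, hp, hΦ⟩
  filter_upwards [Φ.open_source.mem_nhds hp] with q hq
  exact ⟨Φ, hq, hΦ⟩

theorem embOn_mono {F : R4 → M} {L L' : Set R4} (h : EmbOn I F L) (hL : L' ⊆ L) : EmbOn I F L' :=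
  ⟨fun p hp => h.1 p (hL hp), h.2.mono hL⟩

theorem embOn_source (B : PartialDiffeomorph 𝓘(ℝ, R4) I R4 M ∞) : EmbOn I B B.source :=
  ⟨fun _ hp => ⟨B, hp, Set.eqOn_refl _ _⟩, B.toPartialEquiv.injOn⟩

theorem famOn_isotopy (F : R4 → M) (Ψ : DFam I M) (L : Set R4) (hF : EmbOn I F L) :
    FamOn I (fun q : ℝ × R4 => Ψ.f (q.1, F q.2)) L := by
  refine ⟨⟨univ ×ˢ {p : R4 | IsLocalDiffeomorphAt 𝓘(ℝ, R4) I ∞ F p},
    isOpen_univ.prod (isOpen_localDiffeo F), fun q hq => ⟨mem_univ _, hF.1 _ hq.2⟩, ?_⟩, ?_⟩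
  · intro q hq
    have h1 : ContMDiffAt 𝓘(ℝ, R4) I ∞ F q.2 := IsLocalDiffeomorphAt.contMDiffAt hq.2
    have h2 : ContMDiffAt 𝓘(ℝ, ℝ × R4) I ∞ (fun q : ℝ × R4 => F q.2) q :=
      ContMDiffAt.comp q h1 (contDiff_snd.contMDiff.contMDiffAt)
    have h3 : ContMDiffAt 𝓘(ℝ, ℝ × R4) 𝓘(ℝ, ℝ) ∞ (fun q : ℝ × R4 => q.1) q :=
      contDiff_fst.contMDiff.contMDiffAt
    exact (ContMDiffAt.comp q (Ψ.smooth_f.contMDiffAt) (h3.prodMk h2)).contMDiffWithinAt
  · intro t _
    refine ⟨fun p hp => ?_, fun p hp q hq hpq => hF.2 hp hq ?_⟩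
    · exact (hF.1 p hp).comp I M ((Ψ.diffeo t).isLocalDiffeomorph (F p))
    · have := congrArg (fun y => Ψ.g (t, y)) hpq
      simp only [Ψ.gf] at this
      exact this

end

end T3

open T3

theorem m_T3 (a3 : StA3) (ci : StCI) (s4 : StS4) (t1 : StT1) : StT3 := by
  intro E _ _ H _ I M _ _ _ F hF
  obtain ⟨-, -, -, -, hseg, -, -, -, -, -, hEB⟩ := s4
  obtain ⟨ε₀, hε₀, h⟩ := (t1 E H I M EB bsupp hEB isCompact_bsupp).2.1 hseg F hF
  refine ⟨ε₀, hε₀, fun ε hε => ?_⟩
  have hfam := h ε hε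
  have h0 : (fun p => F (hom ε (0, p))) = F ∘ sq ε := by
    funext p; rw [hom_zero]; rfl
  have h1 : (fun p => F (hom ε (1, p))) = F := by
    funext p; rw [hom_one]
  have e0 := hfam.2 0 zero_mem
  have e1 := a3 E H I M _ bsupp barMap barInv isCompact_bsupp hfam sdiff_barMap
  simp only [] at e0 e1
  rw [h0] at e0 e1
  rw [h1] at e1
  exact ⟨e0, (ci E H I M).2.1 _ _ e1⟩

theorem m_T4 (ci : StCI) (im : StImp) (s4 : StS4) (t2 : StT2) (t3 : StT3) : StT4 := by
  intro B β hNB hβ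
  obtain ⟨-, -, -, -, -, hSP, hbs, hEN, -⟩ := s4
  have hB : EmbOn (𝓡 4) B EB := embOn_mono (embOn_source B) (hEN.trans hNB)
  refine ⟨embOn_mono hB hSP, ?_⟩
  have h1 := t3 _ _ (𝓡 4) S4 B hB
  have h2 : imp B bsupp barMap = push B barMap :=
    (im _ _ (𝓡 4) S4 B bsupp barMap (hB.2.mono hbs)).2.2.2.2.1 B (bsupp_subset.trans hNB)
      (fun _ _ => rfl) mapsTo_barMap (fun _ hp => barMap_off hp)
  rw [h2] at h1
  have h3 : Isot (𝓡 4) (push B barMap) (push B β) :=
    isot_push_barbellMap B hNB hβ isBarbellMap_barMap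
  have h4 : CIsot (𝓡 4) (push B barMap) (push B β) :=
    (ci _ _ (𝓡 4) S4).2.2.2.2.2.2.2.2.2 inferInstance _ _ h3
  rw [implantation_eq_push B hNB hβ]
  exact (t2 _ _ (𝓡 4) S4).2.2.2.1 _ _ _ h1 h4

theorem m_T5 (s4 : StS4) (t1 : StT1) (t2 : StT2) : StT5 := by
  intro E _ _ H _ I M _ _ _ F m L hLc hL hF hm hmaps
  have hSPc : IsCompact SP := s4.2.2.2.2.2.2.2.2.1
  obtain ⟨ε₀, hε₀, h⟩ := (t1 E H I M L SP hLc hSPc).2.2.2 hL F hF m hm hmaps
  refine ⟨ε₀, hε₀, fun ε hε φ => ?_⟩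
  have h1 := thin_iff t2 _ (h ε hε) φ
  simp only [hom_zero, hom_one] at h1
  exact h1

theorem m_T6 (im : StImp) (t1 : StT1) : StT6 := by
  intro E _ _ H _ I M _ _ _ F K L hK hL hKL hF
  obtain ⟨ε₀, hε₀, h⟩ := (t1 E H I M L K hL hK).2.2.1 hKL F hF
  refine ⟨ε₀, hε₀, fun ε hε => ?_⟩
  have h1 := (h ε hε ε hε).2 0 zero_mem
  have h2 : (fun p => F (sq ((1 - (0 : ℝ)) * ε + 0 * ε) p)) = F ∘ sq ε := by
    funext p
    simp
  simp only [] at h1
  rw [h2] at h1
  exact ⟨h1, fun hb => (im E H I M _ K barMap h1.2).2.2.1 bsupp hb fun _ hp => barMap_off hp⟩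

theorem m_T7 (t2 : StT2) : StT7 := by
  intro E _ _ H _ I M _ _ _ F Ψ φ hF
  exact thin_iff t2 _ (famOn_isotopy F Ψ SP hF) φ

end Pool.Agent.Helper18.BI


end

/-! ## Helper65.Barb.Dual1 -/

section

/-!
# Nested shells
-/

set_option autoImplicit false
set_option linter.unusedSectionVars false
set_option linter.unusedVariables false

open scoped Manifold ContDiff Topology ComplexConjugate
open Set

namespace Pool.Agent.Helper65.Barb

/-- a family of open thickened spheres -/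
def Sh (a c r : ℝ) : Set R4 :=
  {p | -a < p.1 ∧ p.1 < 1 + a ∧ rsq c p < ((2 + a / 4) * r) ^ 2 ∧
    ((1 - a / 4) * r) ^ 2 < rsq c p}

/-- a family of closed thickened spheres -/
def ShC (a c r : ℝ) : Set R4 :=
  {p | -a ≤ p.1 ∧ p.1 ≤ 1 + a ∧ rsq c p ≤ ((2 + a / 4) * r) ^ 2 ∧
    ((1 - a / 4) * r) ^ 2 ≤ rsq c p}

theorem Sh_subset_ShC (a c r : ℝ) : Sh a c r ⊆ ShC a c r :=
  fun _ hp => ⟨hp.1.le, hp.2.1.le, hp.2.2.1.le, hp.2.2.2.le⟩

theorem isOpen_Sh (a c r : ℝ) : IsOpen (Sh a c r) := by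
  apply IsOpen.inter (isOpen_lt continuous_const continuous_fst)
  apply IsOpen.inter (isOpen_lt continuous_fst continuous_const)
  apply IsOpen.inter (isOpen_lt (continuous_rsq c) continuous_const)
  exact isOpen_lt continuous_const (continuous_rsq c)

theorem isCompact_ShC (a c r : ℝ) : IsCompact (ShC a c r) := by
  apply Metric.isCompact_of_isClosed_isBounded
  · apply IsClosed.inter (isClosed_le continuous_const continuous_fst)
    apply IsClosed.inter (isClosed_le continuous_fst continuous_const)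
    apply IsClosed.inter (isClosed_le (continuous_rsq c) continuous_const)
    exact isClosed_le continuous_const (continuous_rsq c)
  · exact (isBounded_of_rsq c (((2 + a / 4) * r) ^ 2) (-a) (1 + a)).subset
      (fun p hp => ⟨hp.1, hp.2.1, hp.2.2.1⟩)

theorem ShC_subset_Sh {a b c r : ℝ} (hr : 0 < r) (ha : 0 ≤ a) (hab : a < b) (hb : b ≤ 1) :
    ShC a c r ⊆ Sh b c r := by
  rintro p ⟨h1, h2, h3, h4⟩
  refine ⟨by linarith, by linarith, lt_of_le_of_lt h3 ?_, lt_of_lt_of_le ?_ h4⟩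
  · apply pow_lt_pow_left₀ _ (by positivity) (by norm_num)
    nlinarith
  · apply pow_lt_pow_left₀ _ (mul_nonneg (by linarith) hr.le) (by norm_num)
    nlinarith

theorem rotp_mem_Sh {a c r : ℝ} (θ : ℝ) {p : R4} (hp : p ∈ Sh a c r) : rotp θ p ∈ Sh a c r := by
  obtain ⟨h1, h2, h3, h4⟩ := hp
  exact ⟨h1, h2, by rwa [rsq_rotp], by rwa [rsq_rotp]⟩

theorem rotp_mem_ShC {a c r : ℝ} (θ : ℝ) {p : R4} (hp : p ∈ ShC a c r) :
    rotp θ p ∈ ShC a c r := by
  obtain ⟨h1, h2, h3, h4⟩ := hp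
  exact ⟨h1, h2, by rwa [rsq_rotp], by rwa [rsq_rotp]⟩

theorem Core_eq (c r : ℝ) : Core c r = ShC 0 c r := by
  ext p
  simp only [Core, ShC, mem_ofPred_eq]
  norm_num

theorem NShell_eq (c r : ℝ) : NShell c r = Sh (1 / 2) c r := by
  ext p
  simp only [NShell, Sh, mem_ofPred_eq]
  norm_num

theorem OShell_eq (c r : ℝ) : OShell c r = Sh 1 c r := by
  ext p
  simp only [OShell, Sh, mem_ofPred_eq]
  norm_num

theorem Shell_eq (c r : ℝ) : Shell c r = ShC 1 c r := by
  ext p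
  simp only [Shell, Ball, ShC, mem_ofPred_eq]
  norm_num [and_assoc]

/-- bump functions for the nested shells -/
noncomputable def chig (a b c r : ℝ) (p : R4) : ℝ :=
  bmp (-b) (-a) (1 + a) (1 + b) p.1 *
    bmp (((1 - b / 4) * r) ^ 2) (((1 - a / 4) * r) ^ 2) (((2 + a / 4) * r) ^ 2)
      (((2 + b / 4) * r) ^ 2) (rsq c p)

theorem contDiff_chig (a b c r : ℝ) : ContDiff ℝ ∞ (chig a b c r) :=
  ((contDiff_bmp _ _ _ _).comp contDiff_fst).mul ((contDiff_bmp _ _ _ _).comp (contDiff_rsq c))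

theorem chig_rotp (a b c r θ : ℝ) (p : R4) : chig a b c r (rotp θ p) = chig a b c r p := by
  simp only [chig, rsq_rotp]; rfl

theorem bmp_mem (a b c d u : ℝ) : bmp a b c d u ∈ Icc (0 : ℝ) 1 := by
  have h1 := step_mem ((u - a) / (b - a))
  have h2 := step_mem ((d - u) / (d - c))
  exact ⟨mul_nonneg h1.1 h2.1, mul_le_one₀ h1.2 h2.1 h2.2⟩

theorem chig_mem (a b c r : ℝ) (p : R4) : chig a b c r p ∈ Icc (0 : ℝ) 1 := by
  have h1 := bmp_mem (-b) (-a) (1 + a) (1 + b) p.1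
  have h2 := bmp_mem (((1 - b / 4) * r) ^ 2) (((1 - a / 4) * r) ^ 2) (((2 + a / 4) * r) ^ 2)
      (((2 + b / 4) * r) ^ 2) (rsq c p)
  exact ⟨mul_nonneg h1.1 h2.1, mul_le_one₀ h1.2 h2.1 h2.2⟩

section
variable {a b c r : ℝ}

theorem sq_aux1 (hr : 0 < r) (hab : a < b) (hb : b ≤ 1) :
    ((1 - b / 4) * r) ^ 2 < ((1 - a / 4) * r) ^ 2 := by
  apply pow_lt_pow_left₀ _ (mul_nonneg (by linarith) hr.le) (by norm_num)
  nlinarith

theorem sq_aux2 (hr : 0 < r) (ha : 0 ≤ a) (hab : a < b) :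
    ((2 + a / 4) * r) ^ 2 < ((2 + b / 4) * r) ^ 2 := by
  apply pow_lt_pow_left₀ _ (by positivity) (by norm_num)
  nlinarith

theorem chig_eq_one (hr : 0 < r) (ha : 0 ≤ a) (hab : a < b) (hb : b ≤ 1) {p : R4}
    (hp : p ∈ ShC a c r) : chig a b c r p = 1 := by
  obtain ⟨h1, h2, h3, h4⟩ := hp
  rw [chig, bmp_eq_one (by linarith) (by linarith) h1 h2,
    bmp_eq_one (sq_aux1 hr hab hb) (sq_aux2 hr ha hab) h4 h3, one_mul]

theorem chig_eq_zero (hr : 0 < r) (ha : 0 ≤ a) (hab : a < b) (hb : b ≤ 1) {p : R4}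
    (hp : p ∉ Sh b c r) : chig a b c r p = 0 := by
  rw [chig]
  by_cases h1 : -b < p.1
  · by_cases h2 : p.1 < 1 + b
    · by_cases h3 : rsq c p < ((2 + b / 4) * r) ^ 2
      · have h4 : rsq c p ≤ ((1 - b / 4) * r) ^ 2 := by
          by_contra h4
          exact hp ⟨h1, h2, h3, not_le.1 h4⟩
        rw [bmp_eq_zero_left (u := rsq c p) (sq_aux1 hr hab hb) h4, mul_zero]
      · rw [bmp_eq_zero_right (u := rsq c p) (sq_aux2 hr ha hab) (not_lt.1 h3), mul_zero]
    · rw [bmp_eq_zero_right (u := p.1) (by linarith) (not_lt.1 h2), zero_mul]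
  · rw [bmp_eq_zero_left (u := p.1) (by linarith) (not_lt.1 h1), zero_mul]

/-- coordinates on the orbit space of the model -/
noncomputable def pS (c : ℝ) (p : R4) : ℝ × ℝ × ℝ :=
  (p.1, √(rsq c p), (p.2.1 - c) / √(rsq c p))

theorem pS_rotp (c θ : ℝ) (p : R4) : pS c (rotp θ p) = pS c p := by
  simp only [pS, rsq_rotp]; rfl

theorem continuousOn_pS (c : ℝ) : ContinuousOn (pS c) {p | 0 < rsq c p} := by
  have c1 : ContinuousOn (fun p : R4 => √(rsq c p)) {p | 0 < rsq c p} :=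
    (Real.continuous_sqrt.comp (continuous_rsq c)).continuousOn
  apply continuous_fst.continuousOn.prodMk
  apply c1.prodMk
  apply ContinuousOn.div _ c1
  · intro p hp
    exact (Real.sqrt_pos.2 hp).ne'
  · exact ((continuous_fst.comp continuous_snd).sub continuous_const).continuousOn

/-- a section over a closed shell -/
noncomputable def kS (a c r : ℝ) (y : ℝ × ℝ × ℝ) : R4 :=
  (clamp (-a) (1 + a) y.1,
    c + clamp ((1 - a / 4) * r) ((2 + a / 4) * r) y.2.1 * clamp (-1) 1 y.2.2,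
    ((clamp ((1 - a / 4) * r) ((2 + a / 4) * r) y.2.1 *
      √(1 - (clamp (-1) 1 y.2.2) ^ 2) : ℝ) : ℂ))

theorem continuous_kS (a c r : ℝ) : Continuous (kS a c r) := by
  have c1 : Continuous fun y : ℝ × ℝ × ℝ =>
      clamp ((1 - a / 4) * r) ((2 + a / 4) * r) y.2.1 :=
    (continuous_clamp _ _).comp (continuous_fst.comp continuous_snd)
  have c2 : Continuous fun y : ℝ × ℝ × ℝ => clamp (-1) 1 y.2.2 :=
    (continuous_clamp _ _).comp (continuous_snd.comp continuous_snd)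
  apply Continuous.prodMk ((continuous_clamp _ _).comp continuous_fst)
  apply Continuous.prodMk (continuous_const.add (c1.mul c2))
  apply Complex.continuous_ofReal.comp
  exact c1.mul (Real.continuous_sqrt.comp (continuous_const.sub (c2.pow 2)))

theorem kS_mem (hr : 0 < r) (ha : 0 ≤ a) (ha' : a ≤ 1) (y : ℝ × ℝ × ℝ) :
    kS a c r y ∈ ShC a c r := by
  have hm : (1 - a / 4) * r ≤ (2 + a / 4) * r := by nlinarith
  have hp : 0 ≤ (1 - a / 4) * r := mul_nonneg (by linarith) hr.le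
  have h0 := clamp_mem hm y.2.1
  have h1 := clamp_mem (a := -1) (b := 1) (by norm_num) y.2.2
  have h2 := clamp_mem (a := -a) (b := 1 + a) (by linarith) y.1
  have h3 : 0 ≤ 1 - (clamp (-1) 1 y.2.2) ^ 2 := by nlinarith [h1.1, h1.2]
  have hrsq : rsq c (kS a c r y) = (clamp ((1 - a / 4) * r) ((2 + a / 4) * r) y.2.1) ^ 2 := by
    simp only [rsq, nsq, kS, Complex.ofReal_re, Complex.ofReal_im, add_sub_cancel_left]
    rw [mul_pow, mul_pow, Real.sq_sqrt h3]
    ring
  refine ⟨h2.1, h2.2, ?_, ?_⟩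
  · rw [hrsq]; exact pow_le_pow_left₀ (hp.trans h0.1) h0.2 2
  · rw [hrsq]; exact pow_le_pow_left₀ hp h0.1 2

theorem exists_rotp_kS (hr : 0 < r) (ha : 0 ≤ a) (ha' : a ≤ 1) {p : R4} (hp : p ∈ ShC a c r) :
    ∃ θ, rotp θ (kS a c r (pS c p)) = p := by
  obtain ⟨s, u, w⟩ := p
  obtain ⟨h1, h2, h3, h4⟩ := hp
  simp only at h1 h2
  have hp0 : 0 < (1 - a / 4) * r := mul_pos (by linarith) hr
  have h5 : 0 < rsq c (s, u, w) := lt_of_lt_of_le (by positivity) h4
  set ρ := √(rsq c (s, u, w)) with hρ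
  have h6 : ρ ^ 2 = rsq c (s, u, w) := Real.sq_sqrt h5.le
  have h7 : 0 < ρ := Real.sqrt_pos.2 h5
  have h8 : (1 - a / 4) * r ≤ ρ := Real.le_sqrt_of_sq_le h4
  have h9 : ρ ≤ (2 + a / 4) * r := by
    rw [hρ]; exact Real.sqrt_le_iff.2 ⟨by positivity, h3⟩
  have h10 : rsq c (s, u, w) = (u - c) ^ 2 + ‖w‖ ^ 2 := by
    simp only [rsq, nsq]
    rw [← Complex.normSq_eq_norm_sq, Complex.normSq_apply]; ring
  have h11 : -1 ≤ (u - c) / ρ ∧ (u - c) / ρ ≤ 1 := by
    rw [le_div_iff₀ h7, div_le_iff₀ h7]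
    constructor <;> nlinarith [sq_nonneg ‖w‖, abs_le_of_sq_le_sq' (a := u - c) (b := ρ)
      (by nlinarith [sq_nonneg ‖w‖]) h7.le]
  have h12 : kS a c r (pS c (s, u, w)) = (s, u, (‖w‖ : ℂ)) := by
    simp only [kS, pS, ← hρ]
    rw [clamp_eq h1 h2, clamp_eq h8 h9, clamp_eq h11.1 h11.2]
    refine Prod.ext rfl (Prod.ext ?_ ?_)
    · simp only
      field_simp
      ring
    · simp only
      congr 1
      have h13 : ρ * √(1 - ((u - c) / ρ) ^ 2) = √(ρ ^ 2 * (1 - ((u - c) / ρ) ^ 2)) := by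
        rw [Real.sqrt_mul (by positivity), Real.sqrt_sq h7.le]
      rw [h13]
      have h14 : ρ ^ 2 * (1 - ((u - c) / ρ) ^ 2) = ‖w‖ ^ 2 := by
        field_simp
        rw [h6, h10]
        ring
      rw [h14, Real.sqrt_sq (norm_nonneg w)]
  refine ⟨Complex.arg w, ?_⟩
  rw [h12]
  simp only [rotp]
  rw [mul_comm, Complex.norm_mul_exp_arg_mul_I]

end

end Pool.Agent.Helper65.Barb


end

/-! ## Helper65.Barb.Scale -/

section

/-!
# Scaling and reversal of the model thickened sphere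
-/

set_option autoImplicit false
set_option linter.unusedSectionVars false
set_option linter.unusedVariables false

open scoped Manifold ContDiff Topology ComplexConjugate
open Set

namespace Pool.Agent.Helper65.Barb

/-- the inverse similarity -/
noncomputable def sclInv (c r : ℝ) (p : R4) : R4 :=
  (p.1, r⁻¹ * (p.2.1 - c), ((r⁻¹ : ℝ) : ℂ) * p.2.2)

theorem scl_sclInv {c r : ℝ} (hr : 0 < r) (p : R4) : scl c r (sclInv c r p) = p := by
  refine Prod.ext rfl (Prod.ext ?_ ?_)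
  · simp only [scl, sclInv]; field_simp; ring
  · simp only [scl, sclInv]
    have : (r : ℂ) ≠ 0 := Complex.ofReal_ne_zero.2 hr.ne'
    push_cast
    field_simp

theorem sclInv_scl {c r : ℝ} (hr : 0 < r) (p : R4) : sclInv c r (scl c r p) = p := by
  refine Prod.ext rfl (Prod.ext ?_ ?_)
  · simp only [scl, sclInv]; field_simp; ring
  · simp only [scl, sclInv]
    have : (r : ℂ) ≠ 0 := Complex.ofReal_ne_zero.2 hr.ne'
    push_cast
    field_simp

theorem flip_flip (p : R4) : flip (flip p) = p := by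
  refine Prod.ext ?_ (Prod.ext ?_ rfl)
  · simp [flip]
  · simp [flip]

theorem nsq_smul (r : ℝ) (x : ℝ × ℂ) : nsq (r * x.1, (r : ℂ) * x.2) = r ^ 2 * nsq x := by
  simp only [nsq, Complex.re_ofReal_mul, Complex.im_ofReal_mul]
  ring

theorem rsq_scl (c r : ℝ) (p : R4) : rsq c (scl c r p) = r ^ 2 * rsq 0 p := by
  have := nsq_smul r (p.2.1, p.2.2)
  simp only [rsq, scl, add_sub_cancel_left, sub_zero]
  exact this

theorem rsq_sclInv {c r : ℝ} (hr : 0 < r) (p : R4) : r ^ 2 * rsq 0 (sclInv c r p) = rsq c p := by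
  have := rsq_scl c r (sclInv c r p)
  rw [scl_sclInv hr] at this
  exact this.symm

theorem rsq_flip (p : R4) : rsq 0 (flip p) = rsq 0 p := by
  simp [rsq, nsq, flip]

theorem scl_rotp (c r θ : ℝ) (p : R4) : scl c r (rotp θ p) = rotp θ (scl c r p) := by
  refine Prod.ext rfl (Prod.ext rfl ?_)
  simp only [scl, rotp]; ring

theorem sclInv_rotp (c r θ : ℝ) (p : R4) : sclInv c r (rotp θ p) = rotp θ (sclInv c r p) := by
  refine Prod.ext rfl (Prod.ext rfl ?_)
  simp only [sclInv, rotp]; ring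

theorem flip_rotp (θ : ℝ) (p : R4) : flip (rotp θ p) = rotp θ (flip p) := rfl

theorem rot_smul (α β : ℂ) (r : ℝ) (x : ℝ × ℂ) :
    rot α β (r * x.1, (r : ℂ) * x.2) = (r * (rot α β x).1, (r : ℂ) * (rot α β x).2) := by
  refine Prod.ext ?_ ?_
  · simp only [rot]
    have : (α * conj β * ((r : ℂ) * x.2)) = (r : ℂ) * (α * conj β * x.2) := by ring
    rw [this, Complex.im_ofReal_mul]
    ring
  · simp only [rot, map_mul, Complex.conj_ofReal, Complex.ofReal_mul]
    ring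

theorem twist_scl {c r : ℝ} (hr : 0 < r) (t : ℝ) (p : R4) :
    (twist c r).f (t, scl c r p) = scl c r ((twist 0 1).f (t, p)) := by
  have h1 : nsq (r * p.2.1, (r : ℂ) * p.2.2) / r ^ 2 = nsq (p.2.1, p.2.2) / 1 ^ 2 := by
    have := nsq_smul r (p.2.1, p.2.2)
    simp only at this
    rw [this]
    field_simp
  have h2 := fun α β => rot_smul α β r (p.2.1, p.2.2)
  simp only [twist, twistF, scl, add_sub_cancel_left, sub_zero, add_zero, spin, h1, h2]
  rw [add_comm]

theorem twist_scl_inv {c r : ℝ} (hr : 0 < r) (t : ℝ) (p : R4) :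
    (twist c r).g (t, scl c r p) = scl c r ((twist 0 1).g (t, p)) := by
  have h := twist_scl (c := c) hr t ((twist 0 1).g (t, p))
  rw [(twist 0 1).fg] at h
  rw [← h, (twist c r).gf]

theorem scl_mem_ShC {a c r : ℝ} (hr : 0 < r) {p : R4} : scl c r p ∈ ShC a c r ↔ p ∈ ShC a 0 1 := by
  have hr2 : 0 < r ^ 2 := by positivity
  simp only [ShC, mem_ofPred_eq, rsq_scl, mul_one, mul_pow _ r]
  have e1 : r ^ 2 * rsq 0 p ≤ (2 + a / 4) ^ 2 * r ^ 2 ↔ rsq 0 p ≤ (2 + a / 4) ^ 2 := by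
    rw [mul_comm, mul_le_mul_iff_left₀ hr2]
  have e2 : (1 - a / 4) ^ 2 * r ^ 2 ≤ r ^ 2 * rsq 0 p ↔ (1 - a / 4) ^ 2 ≤ rsq 0 p := by
    rw [mul_comm (r ^ 2), mul_le_mul_iff_left₀ hr2]
  rw [e1, e2]
  rfl

theorem scl_mem_Sh {a c r : ℝ} (hr : 0 < r) {p : R4} : scl c r p ∈ Sh a c r ↔ p ∈ Sh a 0 1 := by
  have hr2 : 0 < r ^ 2 := by positivity
  simp only [Sh, mem_ofPred_eq, rsq_scl, mul_one, mul_pow _ r]
  have e1 : r ^ 2 * rsq 0 p < (2 + a / 4) ^ 2 * r ^ 2 ↔ rsq 0 p < (2 + a / 4) ^ 2 := by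
    rw [mul_comm, mul_lt_mul_iff_left₀ hr2]
  have e2 : (1 - a / 4) ^ 2 * r ^ 2 < r ^ 2 * rsq 0 p ↔ (1 - a / 4) ^ 2 < rsq 0 p := by
    rw [mul_comm (r ^ 2), mul_lt_mul_iff_left₀ hr2]
  rw [e1, e2]
  rfl

theorem flip_mem_Sh {a : ℝ} {p : R4} (hp : p ∈ Sh a 0 1) : flip p ∈ Sh a 0 1 := by
  obtain ⟨h1, h2, h3, h4⟩ := hp
  refine ⟨?_, ?_, ?_, ?_⟩
  · change -a < 1 - p.1; linarith
  · change 1 - p.1 < 1 + a; linarith
  · rwa [rsq_flip]
  · rwa [rsq_flip]

theorem flip_mem_ShC {a : ℝ} {p : R4} (hp : p ∈ ShC a 0 1) : flip p ∈ ShC a 0 1 := by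
  obtain ⟨h1, h2, h3, h4⟩ := hp
  refine ⟨?_, ?_, ?_, ?_⟩
  · change -a ≤ 1 - p.1; linarith
  · change 1 - p.1 ≤ 1 + a; linarith
  · rwa [rsq_flip]
  · rwa [rsq_flip]

theorem contDiff_scl (c r : ℝ) : ContDiff ℝ ∞ (scl c r) :=
  contDiff_fst.prodMk ((contDiff_const.add (contDiff_const.mul contDiff_snd.fst)).prodMk
    (contDiff_const.mul contDiff_snd.snd))

theorem contDiff_sclInv (c r : ℝ) : ContDiff ℝ ∞ (sclInv c r) :=
  contDiff_fst.prodMk ((contDiff_const.mul (contDiff_snd.fst.sub contDiff_const)).prodMk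
    (contDiff_const.mul contDiff_snd.snd))

/-! ### composition of rotations -/

theorem rot_mul (α β α' β' : ℂ) (x : ℝ × ℂ) :
    rot α β (rot α' β' x) = rot (α * α' - β * conj β') (α * β' + β * conj α') x := by
  refine Prod.ext ?_ (Complex.ext ?_ ?_)
  all_goals
    simp only [rot, Complex.normSq_apply, Complex.sub_re, Complex.sub_im, Complex.add_re,
      Complex.add_im, Complex.mul_re, Complex.mul_im, pow_two, Complex.conj_re, Complex.conj_im,
      Complex.I_re, Complex.I_im, Complex.ofReal_re, Complex.ofReal_im, Complex.re_ofNat,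
      Complex.im_ofNat]
    ring

theorem rot_flip (α β : ℂ) (x : ℝ × ℂ) :
    (-(rot α β (-x.1, x.2)).1, (rot α β (-x.1, x.2)).2) = rot α (-β) x := by
  refine Prod.ext ?_ (Complex.ext ?_ ?_)
  all_goals
    simp only [rot, Complex.normSq_apply, Complex.sub_re, Complex.sub_im, Complex.add_re,
      Complex.add_im, Complex.mul_re, Complex.mul_im, pow_two, Complex.conj_re, Complex.conj_im,
      Complex.I_re, Complex.I_im, Complex.ofReal_re, Complex.ofReal_im, Complex.re_ofNat,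
      Complex.im_ofNat, Complex.neg_re, Complex.neg_im, Complex.ofReal_neg]
    ring

theorem step_symm (s : ℝ) : step (1 - s) = 1 - step s := by
  unfold step Real.smoothTransition
  have h := Real.smoothTransition.pos_denom s
  simp only [sub_sub_cancel]
  have h2 : expNegInvGlue (1 - s) + expNegInvGlue s ≠ 0 := by
    rw [add_comm]; exact h.ne'
  rw [eq_sub_iff_add_eq, add_comm (expNegInvGlue s)]
  rw [← add_div, div_self h2]

theorem eta_symm (s : ℝ) : eta (1 - s) = conj (eta s) := by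
  have h1 : eta (1 - s) * eta s = 1 := by
    rw [eta, eta, ← Complex.exp_add, step_symm, ← add_mul, ← Complex.ofReal_add]
    have : 2 * Real.pi * (1 - step s) + 2 * Real.pi * step s = 2 * Real.pi := by ring
    rw [this]
    push_cast
    exact Complex.exp_two_pi_mul_I
  have h2 : conj (eta s) * eta s = 1 := by
    rw [mul_comm, Complex.mul_conj, normSq_eta]; simp
  have h3 : eta s ≠ 0 := right_ne_zero_of_mul_eq_one h2
  exact mul_right_cancel₀ h3 (h1.trans h2.symm)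

theorem qa_symm (s P : ℝ) : qa (1 - s) P = conj (qa s P) := by
  simp only [qa, eta_symm, map_add, map_mul, Complex.conj_ofReal]

theorem qb_symm (s P : ℝ) : qb (1 - s) P = conj (qb s P) := by
  simp only [qb, eta_symm, map_sub, map_mul, Complex.conj_ofReal, map_one, Complex.conj_conj]

/-- the quaternion coefficients of the twist composed with its reversed version -/
noncomputable def QA (s P : ℝ) : ℂ := (Complex.normSq (qa s P) : ℂ) + qb s P ^ 2

/-- the quaternion coefficients of the twist composed with its reversed version -/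
noncomputable def QB (s P : ℝ) : ℂ := qa s P * (qb s P - conj (qb s P))

theorem twist_flip_twist (p : R4) :
    (twist 0 1).f (1, flip ((twist 0 1).f (1, flip p))) =
      (p.1, rot (QA p.1 (cut (rsq 0 p))) (QB p.1 (cut (rsq 0 p))) (p.2.1, p.2.2)) := by
  set P := cut (rsq 0 p) with hP
  have hst : step 1 = 1 := step_of_one_le le_rfl
  have hn : nsq (-p.2.1, p.2.2) = nsq (p.2.1, p.2.2) := by simp [nsq]
  have hr0 : rsq 0 p = nsq (p.2.1, p.2.2) := by simp [rsq]
  have h1 : flip ((twist 0 1).f (1, flip p)) =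
      (p.1, rot (conj (qa p.1 P)) (-conj (qb p.1 P)) (p.2.1, p.2.2)) := by
    simp only [twist, twistF, flip, sub_zero, add_zero, hst, one_mul, one_pow, div_one, hn, spin,
      qa_symm, qb_symm, Prod.mk.eta, sub_sub_cancel]
    rw [← hr0, ← hP]
    have := rot_flip (conj (qa p.1 P)) (conj (qb p.1 P)) (p.2.1, p.2.2)
    simp only at this
    rw [← this]
  rw [h1]
  have h2 : nsq (rot (conj (qa p.1 P)) (-conj (qb p.1 P)) (p.2.1, p.2.2)) =
      nsq (p.2.1, p.2.2) := by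
    rw [nsq_rot, Complex.normSq_conj, Complex.normSq_neg, Complex.normSq_conj, normSq_q]
    ring
  simp only [twist, twistF, sub_zero, add_zero, hst, one_mul, one_pow, div_one, Prod.mk.eta,
    spin]
  rw [h2, ← hr0, ← hP, rot_mul]
  congr 2
  · rw [QA, map_neg, Complex.conj_conj, ← Complex.mul_conj]; ring
  · rw [QB, Complex.conj_conj]; ring

end Pool.Agent.Helper65.Barb


end
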