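import Pool.Agent.Helper65.Barb.Defs
import Pool.Agent.Helper70.BI.C.P04

/-!
# Project BI (MP_8e98f2_gt): collected modules, part 18

The contents of the modules
* Helper18.BI.M_A0
* Helper18.BI.M_A1
* Helper18.BI.M_IMP
* Helper18.BI.M_CI
* Helper27.BI.GBasic

in one file, so that the whole proof builds in a short time.
-/

namespace Pool.Agent.Helper18.BI
end Pool.Agent.Helper18.BI

namespace Pool.Agent.Helper65.Barb
end Pool.Agent.Helper65.Barb


/-! ## Helper18.BI.M_A0 -/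

section

/-!
# A0, A0f: the inverse function theorem for germs
-/

set_option autoImplicit false

open scoped Manifold ContDiff Topology ComplexConjugate
open Set Pool.Agent.Helper65.Barb

namespace Pool.Agent.Helper18.BI

namespace A0

private theorem exists_equiv {V : Type} [NormedAddCommGroup V] [NormedSpace ℝ V]
    [FiniteDimensional ℝ V] (L : V →L[ℝ] V) (h : ∀ v, L v = 0 → v = 0) :
    ∃ e : V ≃L[ℝ] V, (e : V →L[ℝ] V) = L := by
  have hinj : Function.Injective (L : V →ₗ[ℝ] V) := by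
    rw [← LinearMap.ker_eq_bot, LinearMap.ker_eq_bot']
    exact h
  refine ⟨(LinearEquiv.ofInjectiveEndo (L : V →ₗ[ℝ] V) hinj).toContinuousLinearEquiv, ?_⟩
  ext v
  rfl

private theorem mp_aux {V : Type} [NormedAddCommGroup V] [NormedSpace ℝ V]
    (F : V → V) (p : V) (h : IsLocalDiffeomorphAt 𝓘(ℝ, V) 𝓘(ℝ, V) ∞ F p) :
    (∃ U : Set V, IsOpen U ∧ p ∈ U ∧ ContDiffOn ℝ ∞ F U) ∧
      ∀ v, fderiv ℝ F p v = 0 → v = 0 := by
  obtain ⟨Φ, hp, hΦ⟩ := h
  have h1 : ContDiffOn ℝ ∞ Φ.toFun Φ.source := contMDiffOn_iff_contDiffOn.1 Φ.contMDiffOn_toFun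
  have h2 : ContDiffOn ℝ ∞ Φ.invFun Φ.target := contMDiffOn_iff_contDiffOn.1 Φ.contMDiffOn_invFun
  have h3 : ContDiffOn ℝ ∞ F Φ.source := h1.congr hΦ
  refine ⟨⟨Φ.source, Φ.open_source, hp, h3⟩, ?_⟩
  have d1 : DifferentiableAt ℝ F p :=
    (h3.contDiffAt (Φ.open_source.mem_nhds hp)).differentiableAt (by simp)
  have hFp : F p ∈ Φ.target := by
    rw [hΦ hp]
    exact Φ.map_source hp
  have d2 : DifferentiableAt ℝ Φ.invFun (F p) :=
    (h2.contDiffAt (Φ.open_target.mem_nhds hFp)).differentiableAt (by simp)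
  have hcomp : (Φ.invFun ∘ F) =ᶠ[𝓝 p] id := by
    filter_upwards [Φ.open_source.mem_nhds hp] with q hq
    show Φ.invFun (F q) = q
    rw [hΦ hq]
    exact Φ.left_inv hq
  have hder : fderiv ℝ (Φ.invFun ∘ F) p = ContinuousLinearMap.id ℝ V := by
    rw [hcomp.fderiv_eq, fderiv_id]
  rw [fderiv_comp p d2 d1] at hder
  intro v hv
  have h4 := DFunLike.congr_fun hder v
  rw [ContinuousLinearMap.comp_apply, hv, map_zero] at h4
  exact h4.symm

private theorem mpr_aux {V : Type} [NormedAddCommGroup V] [NormedSpace ℝ V]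
    [FiniteDimensional ℝ V] (F : V → V) (p : V) (U : Set V) (hU : IsOpen U) (hp : p ∈ U)
    (hF : ContDiffOn ℝ ∞ F U) (hinj : ∀ v, fderiv ℝ F p v = 0 → v = 0) :
    IsLocalDiffeomorphAt 𝓘(ℝ, V) 𝓘(ℝ, V) ∞ F p := by
  haveI : CompleteSpace V := FiniteDimensional.complete ℝ V
  have hop : IsOpen (Set.range ((↑) : (V ≃L[ℝ] V) → V →L[ℝ] V)) :=
    ContinuousLinearEquiv.isOpen
  have hcont : ContinuousOn (fderiv ℝ F) U := hF.continuousOn_fderiv_of_isOpen hU (by simp)
  have hU' : IsOpen (U ∩ fderiv ℝ F ⁻¹' (Set.range ((↑) : (V ≃L[ℝ] V) → V →L[ℝ] V))) :=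
    hcont.isOpen_inter_preimage hU hop
  have hFat : ∀ q ∈ U, ContDiffAt ℝ ∞ F q := fun q hq => hF.contDiffAt (hU.mem_nhds hq)
  obtain ⟨e0, he0⟩ := exists_equiv (fderiv ℝ F p) hinj
  have hd0 : HasFDerivAt F (e0 : V →L[ℝ] V) p := by
    rw [he0]
    exact ((hFat p hp).differentiableAt (by simp)).hasFDerivAt
  let e := (hFat p hp).toOpenPartialHomeomorph F hd0 (by simp)
  have hecoe : (e : V → V) = F := rfl
  let e' := e.restrOpen _ hU'
  have he'coe : (e' : V → V) = F := rfl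
  have hsrc : e'.source ⊆ U := fun q hq => by
    rw [OpenPartialHomeomorph.restrOpen_source] at hq
    exact hq.2.1
  have hpsrc : p ∈ e'.source := by
    rw [OpenPartialHomeomorph.restrOpen_source]
    exact ⟨(hFat p hp).mem_toOpenPartialHomeomorph_source hd0 (by simp), hp, ⟨e0, he0⟩⟩
  refine ⟨{ toPartialEquiv := e'.toPartialEquiv
            open_source := e'.open_source
            open_target := e'.open_target
            contMDiffOn_toFun := contMDiffOn_iff_contDiffOn.2 (hF.mono hsrc)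
            contMDiffOn_invFun := contMDiffOn_iff_contDiffOn.2 ?_ }, hpsrc, fun q _ => rfl⟩
  intro y hy
  have hy' : e'.symm y ∈ e'.source := e'.map_target hy
  have hyU : e'.symm y ∈ U := hsrc hy'
  have hy2 : e'.symm y ∈ U ∩ fderiv ℝ F ⁻¹' (Set.range ((↑) : (V ≃L[ℝ] V) → V →L[ℝ] V)) := by
    have := hy'
    rw [OpenPartialHomeomorph.restrOpen_source] at this
    exact this.2
  obtain ⟨e1, he1⟩ := hy2.2
  have hd1 : HasFDerivAt F (e1 : V →L[ℝ] V) (e'.symm y) := by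
    rw [he1]
    exact ((hFat _ hyU).differentiableAt (by simp)).hasFDerivAt
  exact (e'.contDiffAt_symm hy hd1 (hFat _ hyU)).contDiffWithinAt

end A0

open A0 in
theorem m_A0 : StA0 := by
  intro V _ _ _ F p
  constructor
  · exact mp_aux F p
  · rintro ⟨⟨U, hU, hp, hF⟩, hinj⟩
    exact mpr_aux F p U hU hp hF hinj

theorem m_A0f : StA0f := by
  intro J L
  constructor
  · rintro ⟨⟨W, hW, hLW, hJ⟩, h⟩
    refine ⟨⟨W, hW, hLW, contMDiffOn_iff_contDiffOn.1 hJ⟩, fun t ht => ⟨fun p hp => ?_, (h t ht).2⟩⟩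
    exact ((m_A0 R4 (fun p => J (t, p)) p).1 ((h t ht).1 p hp)).2
  · rintro ⟨⟨W, hW, hLW, hJ⟩, h⟩
    refine ⟨⟨W, hW, hLW, contMDiffOn_iff_contDiffOn.2 hJ⟩, fun t ht => ⟨fun p hp => ?_, (h t ht).2⟩⟩
    refine (m_A0 R4 (fun p => J (t, p)) p).2 ⟨⟨(fun q : R4 => (t, q)) ⁻¹' W, ?_, ?_, ?_⟩,
      (h t ht).1 p hp⟩
    · exact hW.preimage (by fun_prop)
    · exact hLW ⟨ht, hp⟩
    · exact hJ.comp (contDiff_const.prodMk contDiff_id).contDiffOn (fun q hq => hq)

end Pool.Agent.Helper18.BI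


end

/-! ## Helper18.BI.M_A1 -/

section

/-!
# A1: gluing a germ along a compact set to a partial diffeomorphism
-/

set_option autoImplicit false

open scoped Manifold ContDiff Topology ComplexConjugate
open Set Pool.Agent.Helper65.Barb

namespace Pool.Agent.Helper18.BI

namespace A1

section

variable {V : Type} [NormedAddCommGroup V] [NormedSpace ℝ V]
    {E : Type} [NormedAddCommGroup E] [NormedSpace ℝ E] {H : Type} [TopologicalSpace H]
    {I : ModelWithCorners ℝ E H} {M : Type} [TopologicalSpace M] [ChartedSpace H M]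
    {F : V → M}

private theorem isOpen_good :
    IsOpen {p : V | IsLocalDiffeomorphAt 𝓘(ℝ, V) I ∞ F p} := by
  rw [isOpen_iff_mem_nhds]
  rintro p ⟨Φ, hp, hΦ⟩
  filter_upwards [Φ.open_source.mem_nhds hp] with q hq
  exact ⟨Φ, hq, hΦ⟩

private theorem image_open {Φ : PartialDiffeomorph 𝓘(ℝ, V) I V M ∞} {W : Set V} (hW : IsOpen W)
    (hWs : W ⊆ Φ.source) : IsOpen (Φ '' W) :=
  Φ.toOpenPartialHomeomorph.isOpen_image_of_subset_source hW hWs

private theorem image_open' {U : Set V} (hU : IsOpen U)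
    (hg : ∀ p ∈ U, IsLocalDiffeomorphAt 𝓘(ℝ, V) I ∞ F p) : IsOpen (F '' U) := by
  rw [isOpen_iff_mem_nhds]
  rintro y ⟨p, hp, rfl⟩
  obtain ⟨Φ, hpΦ, hΦ⟩ := hg p hp
  have h1 : IsOpen (Φ '' (U ∩ Φ.source)) :=
    image_open (hU.inter Φ.open_source) inter_subset_right
  have h2 : Φ '' (U ∩ Φ.source) ⊆ F '' U := by
    rintro z ⟨q, hq, rfl⟩
    exact ⟨q, hq.1, hΦ hq.2⟩
  refine Filter.mem_of_superset (h1.mem_nhds ?_) h2
  exact ⟨p, ⟨hp, hpΦ⟩, (hΦ hpΦ).symm⟩

end

end A1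

theorem m_A1 : StA1 := by
  intro V _ _ E _ _ H _ I M _ _ _ F L hL hloc hinj
  obtain ⟨t, ht, htinj⟩ := hinj.exists_mem_nhdsSet hL
    (fun p hp => (hloc p hp).contMDiffAt.continuousAt)
    (by
      intro p hp
      obtain ⟨Φ, hpΦ, hΦ⟩ := hloc p hp
      refine ⟨Φ.source, Φ.open_source.mem_nhds hpΦ, ?_⟩
      intro x hx y hy hxy
      apply Φ.injOn hx hy
      change Φ.toFun x = Φ.toFun y
      rw [← hΦ hx, ← hΦ hy]
      exact hxy)
  set U : Set V := interior t ∩ {p | IsLocalDiffeomorphAt 𝓘(ℝ, V) I ∞ F p} with hU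
  have hUo : IsOpen U := isOpen_interior.inter A1.isOpen_good
  have hLU : L ⊆ U := fun p hp =>
    ⟨(subset_interior_iff_mem_nhdsSet.2 ht) hp, hloc p hp⟩
  have hUg : ∀ p ∈ U, IsLocalDiffeomorphAt 𝓘(ℝ, V) I ∞ F p := fun p hp => hp.2
  have hUinj : InjOn F U := htinj.mono (inter_subset_left.trans interior_subset)
  have hleft : ∀ x ∈ U, Function.invFunOn F U (F x) = x := fun x hx =>
    hUinj (Function.invFunOn_mem ⟨x, hx, rfl⟩) hx (Function.invFunOn_eq ⟨x, hx, rfl⟩)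
  refine ⟨{ toFun := F
            invFun := Function.invFunOn F U
            source := U
            target := F '' U
            map_source' := fun x hx => ⟨x, hx, rfl⟩
            map_target' := ?_
            left_inv' := fun {x} hx => hleft x hx
            right_inv' := ?_
            open_source := hUo
            open_target := A1.image_open' hUo hUg
            contMDiffOn_toFun := ?_
            contMDiffOn_invFun := ?_ }, hLU, fun p _ => rfl⟩
  · rintro y ⟨x, hx, rfl⟩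
    rw [hleft x hx]
    exact hx
  · rintro y ⟨x, hx, rfl⟩
    rw [hleft x hx]
  · intro p hp
    exact (hUg p hp).contMDiffAt.contMDiffWithinAt
  · rintro y ⟨p, hp, rfl⟩
    obtain ⟨Φ, hpΦ, hΦ⟩ := hUg p hp
    have h1 : IsOpen (Φ '' (U ∩ Φ.source)) :=
      A1.image_open (hUo.inter Φ.open_source) inter_subset_right
    have hmem : F p ∈ Φ '' (U ∩ Φ.source) := ⟨p, ⟨hp, hpΦ⟩, (hΦ hpΦ).symm⟩
    have hFt : F p ∈ Φ.target := by
      rw [hΦ hpΦ]
      exact Φ.map_source hpΦ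
    have h2 : ContMDiffAt I 𝓘(ℝ, V) ∞ Φ.invFun (F p) :=
      Φ.contMDiffOn_invFun.contMDiffAt (Φ.open_target.mem_nhds hFt)
    refine (h2.congr_of_eventuallyEq ?_).contMDiffWithinAt
    filter_upwards [h1.mem_nhds hmem] with z hz
    obtain ⟨q, hq, rfl⟩ := hz
    change Function.invFunOn F U (Φ q) = Φ.invFun (Φ q)
    rw [← hΦ hq.2, hleft q hq.1, hΦ hq.2]
    exact (Φ.left_inv hq.2).symm

end Pool.Agent.Helper18.BI


end

/-! ## Helper18.BI.M_IMP -/

section

/-!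
# Project BI (MP_8e98f2_gt): the elementary calculus of `imp`, and pushing isotopies
-/

set_option autoImplicit false

open scoped Manifold ContDiff Topology ComplexConjugate
open Set Pool.Agent.Helper65.Barb

namespace Pool.Agent.Helper18.BI

private theorem imp_image {M : Type} {F : R4 → M} {K : Set R4} (hF : InjOn F K) (T : R4 → R4)
    {p : R4} (hp : p ∈ K) : imp F K T (F p) = F (T p) := by
  have h : ∃ q ∈ K, F q = F p := ⟨p, hp, rfl⟩
  have h1 := h.choose_spec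
  have h2 : h.choose = p := hF h1.1 hp h1.2
  unfold imp
  rw [dif_pos h, h2]

private theorem imp_off {M : Type} {F : R4 → M} {K : Set R4} (T : R4 → R4)
    {y : M} (hy : y ∉ F '' K) : imp F K T y = y := by
  unfold imp
  rw [dif_neg]
  rintro ⟨q, hq, hqy⟩
  exact hy ⟨q, hq, hqy⟩

/-- the calculus of `imp` -/
theorem m_Imp : StImp := by
  intro E _ _ H _ I M _ _ _ F K T hF
  refine ⟨fun p hp => imp_image hF T hp, fun y hy => imp_off T hy, ?_, ?_, ?_, ?_, ?_, ?_⟩
  · -- enlarging the support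
    intro K₀ hK hT
    funext y
    by_cases hy : y ∈ F '' K
    · obtain ⟨p, hp, rfl⟩ := hy
      rw [imp_image hF T hp]
      by_cases hp0 : p ∈ K₀
      · rw [imp_image (hF.mono hK) T hp0]
      · rw [hT p hp0, imp_off]
        rintro ⟨q, hq, hqp⟩
        have h := hF (hK hq) hp hqp
        rw [h] at hq
        exact hp0 hq
    · rw [imp_off T hy, imp_off]
      intro h
      exact hy (image_mono hK h)
  · -- products
    intro S hT y
    by_cases hy : y ∈ F '' K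
    · obtain ⟨p, hp, rfl⟩ := hy
      rw [imp_image hF _ hp, imp_image hF T hp, imp_image hF S (hT hp)]
    · rw [imp_off _ hy, imp_off T hy, imp_off S hy]
  · -- comparison with `push`
    intro δ hK hδ hm hT
    funext y
    by_cases hy : y ∈ F '' K
    · obtain ⟨p, hp, rfl⟩ := hy
      rw [imp_image hF T hp, ← hδ p hp, push_of_mem δ T (hK hp), hδ _ (hm hp)]
    · have hy' : y ∉ δ '' K := by
        rintro ⟨q, hq, hqy⟩
        exact hy ⟨q, hq, by rw [← hδ q hq, hqy]⟩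
      rw [imp_off T hy, push_of_notMem δ T hK hT hy']
  · -- congruence
    intro F' hFF hm
    have hF' : InjOn F' K := hF.congr hFF
    funext y
    by_cases hy : y ∈ F '' K
    · obtain ⟨p, hp, rfl⟩ := hy
      rw [imp_image hF T hp, hFF hp, imp_image hF' T hp, hFF (hm hp)]
    · have hy' : y ∉ F' '' K := by
        rintro ⟨q, hq, hqy⟩
        exact hy ⟨q, hq, by rw [hFF hq, hqy]⟩
      rw [imp_off T hy, imp_off T hy']
  · -- conjugation
    intro Ψ Ψ' h1 h2 y
    have hinj : InjOn (fun p => Ψ (F p)) K := by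
      intro p hp q hq hpq
      apply hF hp hq
      have h := congrArg Ψ' hpq
      simpa only [h2] using h
    by_cases hy : y ∈ (fun p => Ψ (F p)) '' K
    · obtain ⟨p, hp, rfl⟩ := hy
      rw [imp_image hinj T hp]
      simp only [h2]
      rw [imp_image hF T hp]
    · have hy' : Ψ' y ∉ F '' K := by
        rintro ⟨q, hq, hqy⟩
        exact hy ⟨q, hq, by simp only [hqy, h1]⟩
      rw [imp_off T hy, imp_off T hy', h1]
  · -- reparametrization
    intro κ L hκ hKL hm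
    have hκK : ∀ p ∈ L, κ p ∈ K := fun p hp => hKL ▸ mem_image_of_mem κ hp
    have hinj : InjOn (fun p => F (κ p)) L := by
      intro p hp q hq hpq
      exact hκ hp hq (hF (hκK p hp) (hκK q hq) hpq)
    funext y
    by_cases hy : y ∈ (fun p => F (κ p)) '' L
    · obtain ⟨p, hp, rfl⟩ := hy
      rw [imp_image hinj T hp]
      simp only
      rw [imp_image hF _ (hκK p hp), imp_image hκ T hp]
    · have hy' : y ∉ F '' K := by
        rintro ⟨q, hq, hqy⟩
        rw [← hKL] at hq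
        obtain ⟨p, hp, rfl⟩ := hq
        exact hy ⟨p, hp, hqy⟩
      rw [imp_off T hy, imp_off _ hy']

/-- pushing forward an isotopy -/
theorem m_Push (h1 : StA1) : StPush := by
  intro E _ _ H _ I M _ _ _ F L Φ hL hF hΦ
  obtain ⟨δ, hδs, hδ⟩ := h1 R4 E H I M F L hL hF.1 hF.2
  have hpush : ∀ t : ℝ, imp F L (fun p => Φ.f (t, p)) = push δ (fun p => Φ.f (t, p)) := by
    intro t
    exact (m_Imp E H I M F L (fun p => Φ.f (t, p)) hF.2).2.2.2.2.1 δ hδs
      (fun p hp => hδ p (hδs hp)) (fun p hp => Φ.mapsTo hΦ t hp) (fun p hp => hΦ t p hp)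
  refine ⟨Φ.push δ hL hδs hΦ, ⟨δ '' L, ?_, ?_⟩, ?_, ?_⟩
  · exact hL.image_of_continuousOn (δ.contMDiffOn.continuousOn.mono hδs)
  · intro t x hx
    exact push_of_notMem δ _ hδs (fun p hp => hΦ t p hp) hx
  · intro x
    rw [hpush 0]
    rfl
  · intro x
    rw [hpush 1]
    rfl

end Pool.Agent.Helper18.BI


end

/-! ## Helper18.BI.M_CI -/

section

/-!
# Module CI: algebra of compactly supported isotopy
-/

set_option autoImplicit false

open scoped Manifold ContDiff Topology ComplexConjugate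
open Set Pool.Agent.Helper65.Barb

namespace Pool.Agent.Helper18.BI

namespace CI

section
variable {E : Type*} [NormedAddCommGroup E] [NormedSpace ℝ E] {H : Type*} [TopologicalSpace H]
  {I : ModelWithCorners ℝ E H} {M : Type*} [TopologicalSpace M] [ChartedSpace H M]

/-- compactly supported family -/
private def Sup (F : DFam I M) : Prop :=
  ∃ C : Set M, IsCompact C ∧ ∀ t x, x ∉ C → F.f (t, x) = x

private theorem sup_one : Sup (DFam.one : DFam I M) := ⟨∅, isCompact_empty, fun _ _ _ => rfl⟩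

private theorem sup_inv {F : DFam I M} (h : Sup F) : Sup F.inv := by
  obtain ⟨C, hC, h⟩ := h
  refine ⟨C, hC, fun t x hx => ?_⟩
  have h1 := F.gf t x
  rw [h t x hx] at h1
  exact h1

private theorem sup_comp {F G : DFam I M} (hF : Sup F) (hG : Sup G) : Sup (F.comp G) := by
  obtain ⟨C, hC, h⟩ := hF
  obtain ⟨C', hC', h'⟩ := hG
  refine ⟨C ∪ C', hC.union hC', fun t x hx => ?_⟩
  have h1 : G.f (t, x) = x := h' t x (fun hx' => hx (Or.inr hx'))
  have h2 : F.f (t, x) = x := h t x (fun hx' => hx (Or.inl hx'))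
  simp only [DFam.comp]
  rw [h1, h2]

private theorem sup_reparam {F : DFam I M} (hF : Sup F) (τ : ℝ → ℝ) (hτ : ContDiff ℝ ∞ τ) :
    Sup (F.reparam τ hτ) := by
  obtain ⟨C, hC, h⟩ := hF
  exact ⟨C, hC, fun t x hx => h _ x hx⟩

private theorem sup_freeze {F : DFam I M} (hF : Sup F) (t₀ : ℝ) : Sup (F.freeze t₀) :=
  sup_reparam hF _ _

private theorem c_one : CIsot I (fun x : M => x) (fun x => x) :=
  ⟨DFam.one, sup_one, fun _ => rfl, fun _ => rfl⟩

private theorem c_symm {φ ψ : M → M} (h : CIsot I φ ψ) : CIsot I ψ φ := by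
  obtain ⟨F, hF, h0, h1⟩ := h
  refine ⟨F.reparam (fun t => 1 - t) (contDiff_const.sub contDiff_id), sup_reparam hF _ _, ?_, ?_⟩
  · intro x; simp [DFam.reparam, h1]
  · intro x; simp [DFam.reparam, h0]

private theorem c_comp {φ ψ φ' ψ' : M → M} (h : CIsot I φ ψ) (h' : CIsot I φ' ψ') :
    CIsot I (fun x => φ (φ' x)) (fun x => ψ (ψ' x)) := by
  obtain ⟨F, hF, h0, h1⟩ := h
  obtain ⟨F', hF', h0', h1'⟩ := h'
  refine ⟨F.comp F', sup_comp hF hF', ?_, ?_⟩
  · intro x; simp [DFam.comp, h0, h0']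
  · intro x; simp [DFam.comp, h1, h1']

private theorem c_inv {φ ψ φ' ψ' : M → M} (h : CIsot I φ ψ) (hφ : ∀ x, φ (φ' x) = x)
    (hψ : ∀ x, ψ (ψ' x) = x) : CIsot I φ' ψ' := by
  obtain ⟨F, hF, h0, h1⟩ := h
  refine ⟨F.inv, sup_inv hF, ?_, ?_⟩
  · intro x
    have := F.gf 0 (φ' x)
    rw [h0, hφ] at this
    exact this
  · intro x
    have := F.gf 1 (ψ' x)
    rw [h1, hψ] at this
    exact this

private theorem c_trans {φ ψ χ : M → M} (h : CIsot I φ ψ) (h' : CIsot I ψ χ) : CIsot I φ χ := by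
  obtain ⟨F, hF, h0, h1⟩ := h
  obtain ⟨G, hG, g0, g1⟩ := h'
  refine ⟨G.comp ((F.freeze 1).inv.comp F), sup_comp hG (sup_comp (sup_inv (sup_freeze hF 1)) hF),
    ?_, ?_⟩
  · intro x
    have e1 : G.f (0, F.g (1, F.f (0, x))) = F.f (1, F.g (1, F.f (0, x))) := by
      rw [g0, h1]
    simp only [DFam.comp, DFam.freeze, DFam.reparam, DFam.inv]
    rw [e1, F.fg, h0]
  · intro x
    simp only [DFam.comp, DFam.freeze, DFam.reparam, DFam.inv]
    rw [F.gf, g1]

private theorem c_exists_inv {φ : M → M} (h : CIsot I φ φ) :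
    ∃ φ' : M → M, CIsot I φ' φ' ∧ (∀ x, φ (φ' x) = x) ∧ ∀ x, φ' (φ x) = x := by
  obtain ⟨F, hF, h0, h1⟩ := h
  refine ⟨fun x => F.g (0, x), ⟨F.inv.freeze 0, sup_freeze (sup_inv hF) 0, fun x => rfl,
    fun x => rfl⟩, ?_, ?_⟩
  · intro x
    have := F.fg 0 x
    rwa [h0] at this
  · intro x
    have := F.gf 0 x
    rwa [h0] at this

/-- conjugation of a family -/
private def conjFam (F : DFam I M) (Ψ Ψ' : M → M) (h1 : ContMDiff I I ∞ Ψ)
    (h2 : ContMDiff I I ∞ Ψ') (h3 : ∀ x, Ψ (Ψ' x) = x) (h4 : ∀ x, Ψ' (Ψ x) = x) : DFam I M where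
  f p := Ψ (F.f (p.1, Ψ' p.2))
  g p := Ψ (F.g (p.1, Ψ' p.2))
  smooth_f := h1.comp (F.smooth_f.comp (contMDiff_fst.prodMk (h2.comp contMDiff_snd)))
  smooth_g := h1.comp (F.smooth_g.comp (contMDiff_fst.prodMk (h2.comp contMDiff_snd)))
  fg t x := by simp only [h4, F.fg, h3]
  gf t x := by simp only [h4, F.gf, h3]

private theorem c_conj {φ ψ Ψ Ψ' : M → M} (h : CIsot I φ ψ) (h1 : ContMDiff I I ∞ Ψ)
    (h2 : ContMDiff I I ∞ Ψ') (h3 : ∀ x, Ψ (Ψ' x) = x) (h4 : ∀ x, Ψ' (Ψ x) = x) :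
    CIsot I (fun x => Ψ (φ (Ψ' x))) (fun x => Ψ (ψ (Ψ' x))) := by
  obtain ⟨F, ⟨C, hC, hF⟩, e0, e1⟩ := h
  refine ⟨conjFam F Ψ Ψ' h1 h2 h3 h4, ⟨Ψ '' C, hC.image h1.continuous, fun t x hx => ?_⟩, ?_, ?_⟩
  · have hx' : Ψ' x ∉ C := fun hx' => hx ⟨Ψ' x, hx', h3 x⟩
    change Ψ (F.f (t, Ψ' x)) = x
    rw [hF t _ hx', h3]
  · intro x
    change Ψ (F.f (0, Ψ' x)) = _
    rw [e0]
  · intro x
    change Ψ (F.f (1, Ψ' x)) = _
    rw [e1]

end

end CI

theorem m_CI : StCI := by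
  intro E _ _ H _ I M _ _
  refine ⟨CI.c_one, fun φ ψ h => CI.c_symm h, fun φ ψ h => CI.c_trans h (CI.c_symm h),
    fun φ ψ χ h h' => CI.c_trans h h', fun φ ψ φ' ψ' h h' => CI.c_comp h h',
    fun φ ψ φ' ψ' h h1 h2 => CI.c_inv h h1 h2, fun φ h => CI.c_exists_inv h,
    fun φ ψ Ψ Ψ' h h1 h2 h3 h4 => CI.c_conj h h1 h2 h3 h4, ?_, ?_⟩
  · rintro φ ψ ⟨F, -, h0, h1⟩
    exact ⟨F, h0, h1⟩
  · rintro hM φ ψ ⟨F, h0, h1⟩
    exact ⟨F, ⟨univ, isCompact_univ, fun t x hx => absurd (mem_univ x) hx⟩, h0, h1⟩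

end Pool.Agent.Helper18.BI


end

/-! ## Helper27.BI.GBasic -/

section

/-!
# Project BI, part (C): implantations and germs, elementary facts
-/

set_option autoImplicit false
set_option linter.unusedSectionVars false
set_option linter.unusedVariables false

open scoped Manifold ContDiff Topology ComplexConjugate
open Set Pool.Agent.Helper65.Barb Pool.Agent.Helper18.BI

namespace Pool.Agent.Helper27.BI

section
variable {M : Type*} {F F' : R4 → M} {K K' : Set R4} {T T' : R4 → R4}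

theorem imp_image (hF : InjOn F K) {p : R4} (hp : p ∈ K) : imp F K T (F p) = F (T p) := by
  have h : ∃ q ∈ K, F q = F p := ⟨p, hp, rfl⟩
  have h1 := h.choose_spec
  have h2 : h.choose = p := hF h1.1 hp h1.2
  unfold imp
  rw [dif_pos h, h2]

theorem imp_off {y : M} (hy : y ∉ F '' K) : imp F K T y = y := by
  unfold imp
  rw [dif_neg]
  rintro ⟨q, hq, hqy⟩
  exact hy ⟨q, hq, hqy⟩

/-- comparison of two implantations -/
theorem imp_eq_of (hF : InjOn F K) (hF' : InjOn F' K')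
    (h1 : ∀ p ∈ K', ∃ q ∈ K, F q = F' p ∧ F (T q) = F' (T' p))
    (h2 : ∀ q ∈ K, (∃ p ∈ K', F' p = F q) ∨ F (T q) = F q) : imp F K T = imp F' K' T' := by
  funext y
  by_cases hy : y ∈ F' '' K'
  · obtain ⟨p, hp, rfl⟩ := hy
    obtain ⟨q, hq, e1, e2⟩ := h1 p hp
    rw [imp_image hF' hp, ← e1, imp_image hF hq, e2]
  · rw [imp_off hy]
    by_cases hy' : y ∈ F '' K
    · obtain ⟨q, hq, rfl⟩ := hy'
      rw [imp_image hF hq]
      rcases h2 q hq with ⟨p, hp, e⟩ | e
      · exact absurd ⟨p, hp, e⟩ hy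
      · exact e
    · rw [imp_off hy']

/-- enlarging the support -/
theorem imp_mono (hF : InjOn F K) (hK : K' ⊆ K) (hT : ∀ p, p ∉ K' → T p = p) :
    imp F K T = imp F K' T := by
  apply imp_eq_of hF (hF.mono hK) (fun p hp => ⟨p, hK hp, rfl, rfl⟩)
  intro q hq
  by_cases h : q ∈ K'
  · exact Or.inl ⟨q, h, rfl⟩
  · exact Or.inr (by rw [hT q h])

theorem imp_comp {S : R4 → R4} (hF : InjOn F K) (hT : MapsTo T K K) (y : M) :
    imp F K (fun p => S (T p)) y = imp F K S (imp F K T y) := by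
  by_cases hy : y ∈ F '' K
  · obtain ⟨p, hp, rfl⟩ := hy
    rw [imp_image hF hp, imp_image hF hp, imp_image hF (hT hp)]
  · rw [imp_off hy, imp_off hy, imp_off hy]

theorem imp_congr (hF : InjOn F K) (h : EqOn F F' K) (hT : MapsTo T K K) :
    imp F K T = imp F' K T := by
  have hF' : InjOn F' K := fun p hp q hq e => hF hp hq (by rw [h hp, h hq, e])
  exact imp_eq_of hF hF' (fun p hp => ⟨p, hp, h hp, h (hT hp)⟩)
    (fun q hq => Or.inl ⟨q, hq, (h hq).symm⟩)

end

section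
variable {E : Type} [NormedAddCommGroup E] [NormedSpace ℝ E] {H : Type} [TopologicalSpace H]
  {I : ModelWithCorners ℝ E H} {M : Type} [TopologicalSpace M] [ChartedSpace H M]

theorem EmbOn.mono {F : R4 → M} {K L : Set R4} (h : EmbOn I F L) (hK : K ⊆ L) : EmbOn I F K :=
  ⟨fun p hp => h.1 p (hK hp), h.2.mono hK⟩

theorem EmbOn.comp {F : R4 → M} {k : R4 → R4} {K L : Set R4} (h : EmbOn I F L)
    (hk : EmbOn 𝓘(ℝ, R4) k K) (hm : MapsTo k K L) : EmbOn I (F ∘ k) K :=
  ⟨fun p hp => IsLocalDiffeomorphAt.comp (hf := hk.1 p hp) (hg := h.1 _ (hm hp)),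
    fun p hp q hq e => hk.2 hp hq (h.2 (hm hp) (hm hq) e)⟩

/-! ### the algebra of compactly supported isotopy -/

theorem ci_refl : CIsot I (fun x : M => x) (fun x => x) := (m_CI E H I M).1

theorem CIsot.symm' {φ ψ : M → M} (h : CIsot I φ ψ) : CIsot I ψ φ := (m_CI E H I M).2.1 _ _ h

theorem CIsot.left' {φ ψ : M → M} (h : CIsot I φ ψ) : CIsot I φ φ := (m_CI E H I M).2.2.1 _ _ h

theorem CIsot.trans' {φ ψ χ : M → M} (h : CIsot I φ ψ) (h' : CIsot I ψ χ) : CIsot I φ χ :=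
  (m_CI E H I M).2.2.2.1 _ _ _ h h'

theorem CIsot.comp' {φ ψ φ' ψ' : M → M} (h : CIsot I φ ψ) (h' : CIsot I φ' ψ') :
    CIsot I (fun x => φ (φ' x)) (fun x => ψ (ψ' x)) :=
  (m_CI E H I M).2.2.2.2.1 _ _ _ _ h h'

theorem CIsot.inv' {φ ψ φ' ψ' : M → M} (h : CIsot I φ ψ) (h1 : ∀ x, φ (φ' x) = x)
    (h2 : ∀ x, ψ (ψ' x) = x) : CIsot I φ' ψ' :=
  (m_CI E H I M).2.2.2.2.2.1 _ _ _ _ h h1 h2

/-- the push-forward of an isotopy -/
theorem imp_isot (hA1 : StA1) [T2Space M] {F : R4 → M} {L : Set R4} (Φ : DFam 𝓘(ℝ, R4) R4)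
    (hL : IsCompact L) (hF : EmbOn I F L) (hs : ∀ t p, p ∉ L → Φ.f (t, p) = p) :
    CIsot I (imp F L (fun p => Φ.f (0, p))) (imp F L (fun p => Φ.f (1, p))) :=
  m_Push hA1 E H I M F L Φ hL hF hs

end

end Pool.Agent.Helper27.BI


end
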