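import Pool.Agent.Helper65.Barb.Defs
import Pool.Agent.Helper70.BI.C.P01
import Pool.Agent.Helper70.BI.C.P10
import Pool.Agent.Helper70.BI.C.P18

/-!
# Project BI (MP_8e98f2_gt): collected modules, part 36

The contents of the modules
* Helper18.BI.H.StPI2
* Helper18.BI.H.M_PI2A
* Helper18.BI.H.M_PI2C

in one file, so that the whole proof builds in a short time.
-/

namespace Pool.Agent.Helper18.BI
end Pool.Agent.Helper18.BI

namespace Pool.Agent.Helper65.Barb
end Pool.Agent.Helper65.Barb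


/-! ## Helper18.BI.H.StPI2 -/

section

/-!
# Project BI, stage 3 (H): `π₂(GL₃) = 0`, relative to the boundary of a square

Quaternions are pairs `q = (α, β) = α + β j`, acting on three-space by `rot α β` (`x ↦ q x q̄`).
-/

set_option autoImplicit false
set_option linter.unusedSimpArgs false

open scoped Manifold ContDiff Topology ComplexConjugate
open Set Pool.Agent.Helper65.Barb Pool.Agent.Helper18.BI

namespace Pool.Agent.Helper18.BI.H

/-- the product of quaternions -/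
noncomputable def qm (p q : ℂ × ℂ) : ℂ × ℂ :=
  (p.1 * q.1 - p.2 * conj q.2, p.1 * q.2 + p.2 * conj q.1)

/-- the squared norm -/
noncomputable def qn (p : ℂ × ℂ) : ℝ := Complex.normSq p.1 + Complex.normSq p.2

/-- the inverse -/
noncomputable def qi (p : ℂ × ℂ) : ℂ × ℂ :=
  (((qn p)⁻¹ : ℝ) * conj p.1, -(((qn p)⁻¹ : ℝ) * p.2))

theorem rot_qm (p q : ℂ × ℂ) (x : ℝ × ℂ) :
    rot (qm p q).1 (qm p q).2 x = rot p.1 p.2 (rot q.1 q.2 x) := by
  refine Prod.ext ?_ (Complex.ext ?_ ?_)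
  all_goals
    simp only [rot, qm, Complex.normSq_apply, Complex.sub_re, Complex.sub_im, Complex.add_re,
      Complex.add_im, Complex.mul_re, Complex.mul_im, pow_two, Complex.conj_re, Complex.conj_im,
      Complex.I_re, Complex.I_im, Complex.ofReal_re, Complex.ofReal_im, Complex.re_ofNat,
      Complex.im_ofNat, Complex.neg_re, Complex.neg_im, Prod.smul_fst, Prod.smul_snd, smul_eq_mul,
      map_neg, map_sub, map_add, map_mul, Complex.real_smul]
    ring

/-- Upper triangular matrices with upper left entry `1` and positive diagonal, in the basis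
`(1, 0), (0, 1), (0, i)`. -/
def Tri (T : E3) : Prop :=
  T (1, 0) = (1, 0) ∧ (T (0, 1)).2.im = 0 ∧ 0 < (T (0, 1)).2.re ∧ 0 < (T (0, Complex.I)).2.im

/-- A smooth map of the plane to `GL₃`, equal to `1` off the open square `(0,1) × (s₀, s₁)`. -/
def SqM (s₀ s₁ : ℝ) (M : ℝ × ℝ → E3) : Prop :=
  ContDiff ℝ ∞ M ∧ (∀ x v, M x v = 0 → v = 0) ∧
    ∀ x, x ∉ Ioo (0 : ℝ) 1 ×ˢ Ioo s₀ s₁ → M x = ContinuousLinearMap.id ℝ (ℝ × ℂ)

/-- **PI2A.** Matrices near `1` are products of a quaternion (rotation and scaling) and a triangular matrix.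
Proof. Inverse function theorem for
`Ξ : (ℂ × ℂ) × (ℝ × ℝ × ℝ × ℝ × ℝ) → E3`, `Ξ (q, t) = rho q ∘ tri t`, where `rho q x = rot q.1 q.2 x` and
`tri (b, c, d, e, f) (y, w) = (y + b w.re + d w.im, c w.re + e w.im + i f w.im)`, at
`((1, 0), (0, 1, 0, 0, 1))`, value `1`.  Both factors are smooth (`contDiff_clm_apply_iff`: it is enough that
`Ξ (·) x` is smooth for every `x`; this is polynomial, see `Helper65.Barb.contDiff_rot`).  The derivative in
direction `((α, β), (b, c, d, e, f))` sends `(y, w)` to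
`(2 α.re y + 2 Im(conj β w), 2 α w - 2 i y β) + (b w.re + d w.im, c w.re + e w.im + i f w.im)`.  Both sides
have dimension `9` (`(ℂ × ℂ) × ℝ⁵`; `E3`: `finrank = 3 · 3`), so it suffices that it is injective: at `(1,0)`:
`(2 α.re, -2 i β) = 0` gives `α.re = 0`, `β = 0`; at `(0,1)`: `(b, 2 α + c) = 0`, the imaginary part gives
`α.im = 0` (`c` real), so `α = 0`, `b = c = 0`; at `(0,i)`: `(d, e + i f) = 0`.
`ContDiffAt.toOpenPartialHomeomorph` / `HasStrictFDerivAt.to_localInverse` and `ContDiffAt.to_localInverse`: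
a smooth local inverse `A ↦ (q A, t A)` near `1`; `τ A = tri (t A)`; by continuity `c, f > 0` and `q ≠ 0` near `1`,
and `ContDiffAt ℝ ∞` at `1` gives smoothness in a neighbourhood only for finite order: use instead that the
inverse of the open partial homeomorphism is `ContDiffAt ℝ ∞` at every point of the target where the
derivative is invertible (`OpenPartialHomeomorph.contDiffAt_symm`), an open condition, as in `M_A0.lean`
(`StA0`; or apply `StA0` of `StA.lean` after identifying `E3` with `(ℂ × ℂ) × ℝ⁵` by a linear isomorphism,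
`ContinuousLinearEquiv.ofFinrankEq`). -/
def StPI2A : Prop :=
  ∃ r > 0, ∃ q : E3 → ℂ × ℂ, ∃ τ : E3 → E3,
    ContDiffOn ℝ ∞ q (Metric.ball (ContinuousLinearMap.id ℝ (ℝ × ℂ)) r) ∧
    ContDiffOn ℝ ∞ τ (Metric.ball (ContinuousLinearMap.id ℝ (ℝ × ℂ)) r) ∧
    q (ContinuousLinearMap.id ℝ (ℝ × ℂ)) = (1, 0) ∧
    τ (ContinuousLinearMap.id ℝ (ℝ × ℂ)) = ContinuousLinearMap.id ℝ (ℝ × ℂ) ∧
    ∀ A ∈ Metric.ball (ContinuousLinearMap.id ℝ (ℝ × ℂ)) r, q A ≠ 0 ∧ Tri (τ A) ∧
      ∀ x, rot (q A).1 (q A).2 (τ A x) = A x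

/-- **PI2B.** Global decomposition.
Proof. Let `r, q, τ` be as in `PI2A`.  For `p ≠ 0` let `C_p A = rho (qi p) ∘ A ∘ rho p` (`rho p = rot p.1 p.2`,
`rho (qi p) = (rho p)⁻¹` by `rot_qm`, `qm (qi p) p = (1,0)`).  `rho p` multiplies the Euclidean norm `√nsq` by
`qn p` (`nsq_rot`), and the norm of `ℝ × ℂ` (sup norm) is between `√nsq / √2` and `√nsq`, so
`‖C_p A - 1‖ ≤ 2 ‖A - 1‖`.  `M x` is invertible (injective in finite dimension), `x ↦ (M x)⁻¹` is continuous
(smooth: `ContinuousLinearMap.inverse`, `contDiffAt_map_inverse`), and `M` is uniformly continuous on compact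
sets and `1` for `s ∉ (s₀, s₁)`; so there is `N ≥ 1` with
`‖M (a, s) ∘ (M (b, s))⁻¹ - 1‖ < r / 2` for all `s` and all `a, b ∈ [-1, 2]` with `|a - b| ≤ 2 / N`.
For `u ∈ (-1, 2)` define recursively `Q₀ = (1,0)`, `T₀ = 1`,
`D_k = C_(Q_(k-1)) (M (k u/N, s) ∘ (M ((k-1) u/N, s))⁻¹)`, `Q_k = qm Q_(k-1) (q D_k)`, `T_k = τ D_k ∘ T_(k-1)`
(functions of `(u, s)`).  By induction `M (k u/N, s) = rho Q_k ∘ T_k`, `Q_k ≠ 0` (`qn (qm p q) = qn p qn q`),
`Tri T_k` (`Tri` is closed under composition), all smooth on `(-1,2) × ℝ`.  Let `Q = Q_N`, `T = T_N`: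
`M (u, s) = rho (Q (u,s)) ∘ T (u,s)`.  If `M (k u/N, s) = 1` for all `k ≤ N` then `Q = (1,0)`, `T = 1`; this
holds for `u ≤ 0` and for `s ∉ (s₀, s₁)`.  If `M (u,s) = 1` then `rho Q ∘ T = 1`: `rho Q (1,0) = (1,0)`, so
`qn Q = 1` and (`rot_diag`-like: `rot α β (1,0) = (|α|² - |β|², -2 i α β)`) `β = 0`; `rho Q (y, w) = (y, α² w)`,
and `T (0,1) = (b, c)`, `c > 0`, gives `(b, α² c) = (0, 1)`, so `α² = 1`, hence `Q = (±1, 0)` and `T = 1`.
On the connected set `[1, 2) × ℝ` we have `M = 1`, `Q` is continuous with values in `{(1,0), (-1,0)}` and equal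
to `(1,0)` at `s = s₀`: so `Q = (1,0)` there.  Extend by `(1, 0)` and `1` to `u ≥ 2` and `u ≤ -1`: smooth. -/
def StPI2B : Prop :=
  ∀ (s₀ s₁ : ℝ) (M : ℝ × ℝ → E3), s₀ < s₁ → SqM s₀ s₁ M →
    ∃ (Q : ℝ × ℝ → ℂ × ℂ) (T : ℝ × ℝ → E3), ContDiff ℝ ∞ Q ∧ ContDiff ℝ ∞ T ∧
      (∀ x, Q x ≠ 0) ∧ (∀ x, Tri (T x)) ∧ (∀ x v, rot (Q x).1 (Q x).2 (T x v) = M x v) ∧
      ∀ x, x ∉ Ioo (0 : ℝ) 1 ×ˢ Ioo s₀ s₁ →
        Q x = (1, 0) ∧ T x = ContinuousLinearMap.id ℝ (ℝ × ℂ)

/-- **PI2C.** `π₂(GL₃) = 0` relative to the boundary.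
Proof. `Q, T` from `PI2B`.  The image of `(r, x) ↦ r • Q x`, `ℝ × (ℝ × ℝ) → ℂ × ℂ`, is a null set
(`Pool.Agent.Helper34.BI.null_image`, dimensions `3 < 4`), so there is `p` such that `-p` is not in it; as
`Q = (1,0)` somewhere, `-p` is no real multiple of `(1,0)` either; `p ≠ 0` (`r = 0`).  For `t ∈ ℝ` and
`σ = step t ∈ [0,1]`:  `(1-σ) Q x + σ p ≠ 0` and `(1-σ) (1,0) + σ p ≠ 0` (if `(1-σ) Q x + σ p = 0`, then `σ ≠ 0`
because `Q x ≠ 0`, and `-p = ((1-σ)/σ) • Q x`).  Put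
`Q_t x = qm ((1-σ) Q x + σ p) (qi ((1-σ) (1,0) + σ p))`, `T_t x = (1-σ) T x + σ 1` (`Tri` is convex) and
`Γ (t, x) v = rot (Q_t x) (T_t x v)`.  At `t = 0`: `σ = 0`, `Q_t = Q`, `T_t = T`.  At `t = 1`: `σ = 1`,
`Q_t = qm p (qi p) = (1,0)`, `T_t = 1`.  Where `Q x = (1,0)`, `T x = 1`: `Q_t x = qm y (qi y) = (1,0)`, `T_t x = 1`.
Invertible: `nsq_rot` (`nsq (rot ..) = qn² nsq`, `qn ≠ 0`) and an upper triangular matrix with positive
diagonal is injective.  Smooth: composition of smooth maps (`qi` is smooth where `qn ≠ 0`). -/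
def StPI2 : Prop :=
  ∀ (s₀ s₁ : ℝ) (M : ℝ × ℝ → E3), s₀ < s₁ → SqM s₀ s₁ M →
    ∃ Γ : ℝ × ℝ × ℝ → E3, ContDiff ℝ ∞ Γ ∧ (∀ x v, Γ x v = 0 → v = 0) ∧
      (∀ x, Γ (0, x) = M x) ∧ (∀ x, Γ (1, x) = ContinuousLinearMap.id ℝ (ℝ × ℂ)) ∧
      ∀ t x, x ∉ Ioo (0 : ℝ) 1 ×ˢ Ioo s₀ s₁ → Γ (t, x) = ContinuousLinearMap.id ℝ (ℝ × ℂ)

end Pool.Agent.Helper18.BI.H


end

/-! ## Helper18.BI.H.M_PI2A -/

section

set_option autoImplicit false
set_option linter.unusedSimpArgs false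

/-!
# Project BI, module H-PI2A: local decomposition of matrices near the identity
-/

open scoped Manifold ContDiff Topology ComplexConjugate
open Set Pool.Agent.Helper65.Barb Pool.Agent.Helper18.BI

namespace Pool.Agent.Helper18.BI.H

namespace PI2A

/-- the parameter space -/
abbrev V0 : Type := (ℂ × ℂ) × (ℝ × ℝ × ℝ × ℝ × ℝ)

/-- the two real coordinates of the second factor -/
noncomputable def cre : (ℝ × ℂ) →L[ℝ] ℝ := Complex.reCLM.comp (ContinuousLinearMap.snd ℝ ℝ ℂ)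

noncomputable def cim : (ℝ × ℂ) →L[ℝ] ℝ := Complex.imCLM.comp (ContinuousLinearMap.snd ℝ ℝ ℂ)

noncomputable def inA (l : (ℝ × ℂ) →L[ℝ] ℝ) : E3 := l.prod 0

noncomputable def inB (l : (ℝ × ℂ) →L[ℝ] ℝ) : E3 :=
  ContinuousLinearMap.prod 0 (Complex.ofRealCLM.comp l)

noncomputable def inC (l : (ℝ × ℂ) →L[ℝ] ℝ) : E3 :=
  ContinuousLinearMap.prod 0 (Complex.I • (Complex.ofRealCLM.comp l))

/-- the triangular map -/
noncomputable def tri (t : ℝ × ℝ × ℝ × ℝ × ℝ) : E3 :=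
  inA (ContinuousLinearMap.fst ℝ ℝ ℂ) + t.1 • inA cre + t.2.1 • inB cre + t.2.2.1 • inA cim +
    t.2.2.2.1 • inB cim + t.2.2.2.2 • inC cim

theorem tri_apply (t : ℝ × ℝ × ℝ × ℝ × ℝ) (x : ℝ × ℂ) :
    tri t x = (x.1 + t.1 * x.2.re + t.2.2.1 * x.2.im,
      ⟨t.2.1 * x.2.re + t.2.2.2.1 * x.2.im, t.2.2.2.2 * x.2.im⟩) := by
  refine Prod.ext ?_ (Complex.ext ?_ ?_) <;>
    simp [tri, inA, inB, inC, cre, cim, Complex.reCLM_apply, Complex.imCLM_apply,
      Complex.ofRealCLM_apply]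

theorem contDiff_tri : ContDiff ℝ ∞ tri := by
  unfold tri
  fun_prop

/-- the rotation as a linear map -/
noncomputable def rhoL (q : ℂ × ℂ) : E3 :=
  LinearMap.toContinuousLinearMap
    { toFun := fun x => rot q.1 q.2 x
      map_add' := by
        intro x y
        refine Prod.ext ?_ ?_
        · simp only [rot, Prod.fst_add, Prod.snd_add, mul_add, Complex.add_im]
          ring
        · simp only [rot, Prod.fst_add, Prod.snd_add, map_add, Complex.ofReal_add]
          ring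
      map_smul' := by
        intro c x
        refine Prod.ext ?_ ?_
        · simp only [rot, Prod.smul_fst, Prod.smul_snd, smul_eq_mul, RingHom.id_apply,
            Complex.real_smul]
          have e : q.1 * conj q.2 * ((c : ℂ) * x.2) = (c : ℂ) * (q.1 * conj q.2 * x.2) := by ring
          rw [e, Complex.im_ofReal_mul]
          ring
        · simp only [rot, Prod.smul_fst, Prod.smul_snd, smul_eq_mul, RingHom.id_apply,
            Complex.real_smul, map_mul, Complex.conj_ofReal, Complex.ofReal_mul]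
          ring }

theorem rhoL_apply (q : ℂ × ℂ) (x : ℝ × ℂ) : rhoL q x = rot q.1 q.2 x := rfl

theorem contDiff_rhoL : ContDiff ℝ ∞ rhoL := by
  rw [contDiff_clm_apply_iff]
  intro x
  exact contDiff_rot contDiff_fst contDiff_snd contDiff_const

/-- the product -/
noncomputable def Xi (v : V0) : E3 := (rhoL v.1).comp (tri v.2)

theorem contDiff_Xi : ContDiff ℝ ∞ Xi :=
  (contDiff_rhoL.comp contDiff_fst).clm_comp (contDiff_tri.comp contDiff_snd)

theorem Xi_apply (v : V0) (x : ℝ × ℂ) : Xi v x = rot v.1.1 v.1.2 (tri v.2 x) := rfl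

/-- the base point -/
def p0 : V0 := ((1, 0), (0, 1, 0, 0, 1))

theorem Xi_p0 : Xi p0 = ContinuousLinearMap.id ℝ (ℝ × ℂ) := by
  ext x
  all_goals simp [Xi_apply, tri_apply, p0, rot]
  all_goals rfl

theorem hd {F : ℝ → ℝ} {F0 F1 : ℝ} {R : ℝ → ℝ} (hR : Continuous R)
    (h : ∀ s, F s = F0 + s * F1 + s ^ 2 * R s) (hF : HasDerivAt F 0 0) : F1 = 0 := by
  have h1 : HasDerivAt F F1 0 := by
    rw [hasDerivAt_iff_tendsto_slope]
    have h2 : Filter.Tendsto (fun s : ℝ => F1 + s * R s) (𝓝[≠] 0) (𝓝 F1) := by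
      have h3 : Filter.Tendsto (fun s : ℝ => F1 + s * R s) (𝓝 0) (𝓝 (F1 + 0 * R 0)) :=
        (continuous_const.add (continuous_id.mul hR)).tendsto 0
      rw [zero_mul, add_zero] at h3
      exact h3.mono_left nhdsWithin_le_nhds
    refine h2.congr' ?_
    filter_upwards [self_mem_nhdsWithin] with s hs
    have hs' : s ≠ 0 := hs
    rw [slope_def_field, h s, h 0]
    field_simp
    ring
  exact h1.unique hF

/-- if the derivative vanishes in the direction `w` then so do the derivatives of all coordinates -/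
theorem hder {w : V0} (hw : fderiv ℝ Xi p0 w = 0) (l : (ℝ × ℂ) →L[ℝ] ℝ) (x : ℝ × ℂ) :
    HasDerivAt (fun s : ℝ => l (Xi (p0 + s • w) x)) 0 0 := by
  have h1 : HasFDerivAt Xi (fderiv ℝ Xi p0) p0 :=
    (contDiff_Xi.differentiable (by simp)).differentiableAt.hasFDerivAt
  have h2 : HasDerivAt (fun s : ℝ => p0 + s • w) w 0 := by
    have := ((hasDerivAt_id (0 : ℝ)).smul_const w).const_add p0
    simpa using this
  have h3 : HasFDerivAt Xi (fderiv ℝ Xi p0) (p0 + (0 : ℝ) • w) := by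
    rw [zero_smul, add_zero]
    exact h1
  have h4 : HasDerivAt (fun s : ℝ => Xi (p0 + s • w)) (fderiv ℝ Xi p0 w) 0 :=
    HasFDerivAt.comp_hasDerivAt (f := fun s : ℝ => p0 + s • w) (0 : ℝ) h3 h2
  rw [hw] at h4
  have h5 : HasDerivAt (fun s : ℝ => Xi (p0 + s • w) x) ((0 : E3) x) 0 :=
    (ContinuousLinearMap.apply ℝ (ℝ × ℂ) x).hasFDerivAt.comp_hasDerivAt 0 h4
  have h6 : HasDerivAt (fun s : ℝ => l (Xi (p0 + s • w) x)) (l ((0 : E3) x)) 0 :=
    l.hasFDerivAt.comp_hasDerivAt (0 : ℝ) h5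
  rw [_root_.zero_apply, map_zero] at h6
  exact h6

theorem stage1 {a1 a2 b1 b2 b c d e f : ℝ}
    (hw : fderiv ℝ Xi p0 (((⟨a1, a2⟩ : ℂ), (⟨b1, b2⟩ : ℂ)), (b, c, d, e, f)) = 0) :
    a1 = 0 ∧ b1 = 0 ∧ b2 = 0 := by
  refine ⟨?_, ?_, ?_⟩
  · have h := hder hw (ContinuousLinearMap.fst ℝ ℝ ℂ) (1, 0)
    have h2 : 2 * a1 = 0 := by
      refine hd (F0 := 1) (R := fun _ => a1 ^ 2 + a2 ^ 2 - b1 ^ 2 - b2 ^ 2) continuous_const
        (fun s => ?_) h
      simp [Xi_apply, tri_apply, p0, rot, Complex.normSq_apply]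
      ring
    linarith
  · have h := hder hw cim (1, 0)
    have h2 : -2 * b1 = 0 := by
      refine hd (F0 := 0) (R := fun _ => -2 * (a1 * b1 - a2 * b2)) continuous_const
        (fun s => ?_) h
      simp [Xi_apply, tri_apply, p0, rot, Complex.normSq_apply, cim]
      ring
    linarith
  · have h := hder hw cre (1, 0)
    have h2 : 2 * b2 = 0 := by
      refine hd (F0 := 0) (R := fun _ => 2 * (a1 * b2 + a2 * b1)) continuous_const
        (fun s => ?_) h
      simp [Xi_apply, tri_apply, p0, rot, Complex.normSq_apply, cre]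
      ring
    linarith

theorem stage2 {a2 b c d e f : ℝ}
    (hw : fderiv ℝ Xi p0 (((⟨0, a2⟩ : ℂ), (⟨0, 0⟩ : ℂ)), (b, c, d, e, f)) = 0) :
    a2 = 0 ∧ b = 0 ∧ c = 0 := by
  refine ⟨?_, ?_, ?_⟩
  · have h := hder hw cim (0, 1)
    have h2 : 2 * a2 = 0 := by
      refine hd (F0 := 0) (R := fun _ => 2 * a2 * c) continuous_const (fun s => ?_) h
      simp [Xi_apply, tri_apply, p0, rot, Complex.normSq_apply, cim, pow_two]
      ring
    linarith
  · have h := hder hw (ContinuousLinearMap.fst ℝ ℝ ℂ) (0, 1)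
    refine hd (F0 := 0) (R := fun s => s * b * a2 ^ 2) (by fun_prop) (fun s => ?_) h
    simp [Xi_apply, tri_apply, p0, rot, Complex.normSq_apply]
    ring
  · have h := hder hw cre (0, 1)
    refine hd (F0 := 1) (R := fun s => -a2 ^ 2 * (1 + s * c)) (by fun_prop) (fun s => ?_) h
    simp [Xi_apply, tri_apply, p0, rot, Complex.normSq_apply, cre, pow_two]
    ring

theorem stage3 {d e f : ℝ}
    (hw : fderiv ℝ Xi p0 (((⟨0, 0⟩ : ℂ), (⟨0, 0⟩ : ℂ)), (0, 0, d, e, f)) = 0) :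
    d = 0 ∧ e = 0 ∧ f = 0 := by
  refine ⟨?_, ?_, ?_⟩
  · have h := hder hw (ContinuousLinearMap.fst ℝ ℝ ℂ) (0, Complex.I)
    refine hd (F0 := 0) (R := fun _ => 0) continuous_const (fun s => ?_) h
    simp [Xi_apply, tri_apply, p0, rot, Complex.normSq_apply]
  · have h := hder hw cre (0, Complex.I)
    refine hd (F0 := 0) (R := fun _ => 0) continuous_const (fun s => ?_) h
    simp [Xi_apply, tri_apply, p0, rot, Complex.normSq_apply, cre, pow_two]
  · have h := hder hw cim (0, Complex.I)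
    refine hd (F0 := 1) (R := fun _ => 0) continuous_const (fun s => ?_) h
    simp [Xi_apply, tri_apply, p0, rot, Complex.normSq_apply, cim, pow_two]

theorem inj {w : V0} (hw : fderiv ℝ Xi p0 w = 0) : w = 0 := by
  obtain ⟨⟨⟨a1, a2⟩, ⟨b1, b2⟩⟩, b, c, d, e, f⟩ := w
  obtain ⟨rfl, rfl, rfl⟩ := stage1 hw
  obtain ⟨rfl, rfl, rfl⟩ := stage2 hw
  obtain ⟨rfl, rfl, rfl⟩ := stage3 hw
  rfl

theorem finrank_eq : Module.finrank ℝ V0 = Module.finrank ℝ E3 := by
  have h1 : Module.finrank ℝ E3 = Module.finrank ℝ ((ℝ × ℂ) →ₗ[ℝ] (ℝ × ℂ)) :=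
    (LinearMap.toContinuousLinearMap (𝕜 := ℝ) (E := ℝ × ℂ) (F' := ℝ × ℂ)).finrank_eq.symm
  rw [h1, Module.finrank_linearMap]
  simp [Module.finrank_prod, Complex.finrank_real_complex]

end PI2A

open PI2A in
theorem m_PI2A : StPI2A := by
  have hfd : FiniteDimensional ℝ E3 := inferInstance
  let L : V0 ≃L[ℝ] E3 := ContinuousLinearEquiv.ofFinrankEq finrank_eq
  let F : E3 → E3 := fun A => Xi (L.symm A)
  have hF : ContDiff ℝ ∞ F := contDiff_Xi.comp L.symm.contDiff
  have hloc : IsLocalDiffeomorphAt 𝓘(ℝ, E3) 𝓘(ℝ, E3) ∞ F (L p0) := by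
    refine (m_A0 E3 F (L p0)).2 ⟨⟨univ, isOpen_univ, mem_univ _, hF.contDiffOn⟩, fun v hv => ?_⟩
    have h1 : HasFDerivAt Xi (fderiv ℝ Xi p0) (L.symm (L p0)) := by
      rw [L.symm_apply_apply]
      exact (contDiff_Xi.differentiable (by simp)).differentiableAt.hasFDerivAt
    have h2 : HasFDerivAt F ((fderiv ℝ Xi p0).comp (L.symm : E3 →L[ℝ] V0)) (L p0) :=
      h1.comp (L p0) L.symm.hasFDerivAt
    rw [h2.fderiv] at hv
    have h3 : L.symm v = 0 := inj hv
    have h4 := congrArg L h3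
    rwa [L.apply_symm_apply, map_zero] at h4
  obtain ⟨Φ, hp, hΦ⟩ := hloc
  let G : E3 → V0 := fun A => L.symm (Φ.invFun A)
  have hG1 : ContDiffOn ℝ ∞ Φ.invFun Φ.target := contMDiffOn_iff_contDiffOn.1 Φ.contMDiffOn_invFun
  have hG : ContDiffOn ℝ ∞ G Φ.target := L.symm.contDiff.comp_contDiffOn hG1
  have hF1 : F (L p0) = ContinuousLinearMap.id ℝ (ℝ × ℂ) := by
    change Xi (L.symm (L p0)) = _
    rw [L.symm_apply_apply, Xi_p0]
  have hΦ1 : Φ.toFun (L p0) = ContinuousLinearMap.id ℝ (ℝ × ℂ) := by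
    rw [← hF1]
    exact (hΦ hp).symm
  have h1t : ContinuousLinearMap.id ℝ (ℝ × ℂ) ∈ Φ.target := by
    rw [← hΦ1]
    exact Φ.map_source hp
  have hG0 : G (ContinuousLinearMap.id ℝ (ℝ × ℂ)) = p0 := by
    have h1 : Φ.invFun (ContinuousLinearMap.id ℝ (ℝ × ℂ)) = L p0 := by
      rw [← hΦ1]
      exact Φ.left_inv hp
    change L.symm (Φ.invFun _) = p0
    rw [h1, L.symm_apply_apply]
  have hXG : ∀ A ∈ Φ.target, Xi (G A) = A := by
    intro A hA
    have h1 : F (Φ.invFun A) = Φ.toFun (Φ.invFun A) := hΦ (Φ.map_target hA)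
    have h2 : Φ.toFun (Φ.invFun A) = A := Φ.right_inv hA
    rw [h2] at h1
    exact h1
  have hGc : ContinuousAt G (ContinuousLinearMap.id ℝ (ℝ × ℂ)) :=
    hG.continuousOn.continuousAt (Φ.open_target.mem_nhds h1t)
  have hev : ∀ᶠ v in 𝓝 p0, v.1 ≠ 0 ∧ 0 < v.2.2.1 ∧ 0 < v.2.2.2.2.2 := by
    refine Filter.Eventually.and ?_ (Filter.Eventually.and ?_ ?_)
    · refine (continuous_fst.continuousAt (x := p0)).eventually_ne ?_
      intro h
      have := congrArg Prod.fst h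
      simp [p0] at this
    · have hc : Continuous (fun v : V0 => v.2.2.1) := by fun_prop
      refine hc.continuousAt.eventually (lt_mem_nhds ?_)
      simp [p0]
    · have hc : Continuous (fun v : V0 => v.2.2.2.2.2) := by fun_prop
      refine hc.continuousAt.eventually (lt_mem_nhds ?_)
      simp [p0]
  rw [← hG0] at hev
  have hev2 := (hGc.eventually hev).and (Φ.open_target.mem_nhds h1t)
  obtain ⟨r, hr, hball⟩ := Metric.eventually_nhds_iff_ball.1 hev2
  refine ⟨r, hr, fun A => (G A).1, fun A => PI2A.tri (G A).2, ?_, ?_, ?_, ?_, ?_⟩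
  · exact contDiff_fst.comp_contDiffOn (hG.mono fun A hA => (hball A hA).2)
  · exact (PI2A.contDiff_tri.comp contDiff_snd).comp_contDiffOn (hG.mono fun A hA => (hball A hA).2)
  · change (G (ContinuousLinearMap.id ℝ (ℝ × ℂ))).1 = _
    rw [hG0]
    rfl
  · change PI2A.tri (G (ContinuousLinearMap.id ℝ (ℝ × ℂ))).2 = _
    rw [hG0]
    ext x
    all_goals simp [PI2A.tri_apply, p0]
    all_goals rfl
  · intro A hA
    obtain ⟨⟨h1, h2, h3⟩, h4⟩ := hball A hA
    refine ⟨h1, ⟨?_, ?_, ?_, ?_⟩, fun x => ?_⟩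
    · change PI2A.tri (G A).2 (1, 0) = _
      rw [PI2A.tri_apply]
      refine Prod.ext ?_ (Complex.ext ?_ ?_) <;> simp
    · change (PI2A.tri (G A).2 (0, 1)).2.im = 0
      rw [PI2A.tri_apply]
      simp
    · change 0 < (PI2A.tri (G A).2 (0, 1)).2.re
      rw [PI2A.tri_apply]
      simpa using h2
    · change 0 < (PI2A.tri (G A).2 (0, Complex.I)).2.im
      rw [PI2A.tri_apply]
      simpa using h3
    · have h5 := hXG A h4
      have h6 := congrArg (fun B : E3 => B x) h5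
      exact h6

end Pool.Agent.Helper18.BI.H


end

/-! ## Helper18.BI.H.M_PI2C -/

section

/-!
# Project BI, stage 3 (H), module PI2C: contraction of the lift
-/

set_option autoImplicit false
set_option linter.unusedSimpArgs false

open scoped Manifold ContDiff Topology ComplexConjugate
open Set MeasureTheory Pool.Agent.Helper65.Barb Pool.Agent.Helper18.BI

namespace Pool.Agent.Helper18.BI.H

namespace PI2C

lemma qn_eq_zero {p : ℂ × ℂ} (h : qn p = 0) : p = 0 := by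
  unfold qn at h
  have h1 := Complex.normSq_nonneg p.1
  have h2 := Complex.normSq_nonneg p.2
  refine Prod.ext (Complex.normSq_eq_zero.1 (by linarith)) (Complex.normSq_eq_zero.1 (by linarith))

lemma qn_ne {p : ℂ × ℂ} (h : p ≠ 0) : qn p ≠ 0 := fun h0 => h (qn_eq_zero h0)

lemma qn_qm (p q : ℂ × ℂ) : qn (qm p q) = qn p * qn q := by
  simp only [qn, qm, Complex.normSq_apply, Complex.sub_re, Complex.sub_im, Complex.add_re,
    Complex.add_im, Complex.mul_re, Complex.mul_im, Complex.conj_re, Complex.conj_im]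
  ring

lemma qm_qi {p : ℂ × ℂ} (h : qn p ≠ 0) : qm p (qi p) = (1, 0) := by
  have hc : ((qn p : ℝ) : ℂ) ≠ 0 := by exact_mod_cast h
  refine Prod.ext ?_ ?_
  · simp only [qm, qi, map_neg, map_mul, Complex.conj_ofReal]
    have h1 : p.1 * (((qn p)⁻¹ : ℝ) * conj p.1) - p.2 * -(((qn p)⁻¹ : ℝ) * conj p.2) =
        ((qn p)⁻¹ : ℝ) * (p.1 * conj p.1 + p.2 * conj p.2) := by ring
    rw [h1, Complex.mul_conj, Complex.mul_conj, ← Complex.ofReal_add, ← Complex.ofReal_mul]
    change (((qn p)⁻¹ * qn p : ℝ) : ℂ) = 1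
    rw [inv_mul_cancel₀ h]
    simp
  · simp only [qm, qi, map_neg, map_mul, Complex.conj_ofReal, Complex.conj_conj]
    ring

lemma qn_qi {p : ℂ × ℂ} (h : qn p ≠ 0) : qn (qi p) ≠ 0 := by
  intro h0
  have h1 := qn_qm p (qi p)
  rw [qm_qi h, h0, mul_zero] at h1
  simp [qn] at h1

lemma qi_one : qi (1, 0) = (1, 0) := by
  simp [qi, qn]

lemma qm_one (p : ℂ × ℂ) : qm p (1, 0) = p := by
  simp [qm]

lemma nsq_eq_zero {x : ℝ × ℂ} (h : nsq x = 0) : x = 0 := by
  unfold nsq at h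
  have h1 := sq_nonneg x.1
  have h2 := sq_nonneg x.2.re
  have h3 := sq_nonneg x.2.im
  refine Prod.ext (pow_eq_zero_iff (two_ne_zero) |>.1 (by linarith)) (Complex.ext ?_ ?_)
  · exact pow_eq_zero_iff (two_ne_zero) |>.1 (by linarith)
  · exact pow_eq_zero_iff (two_ne_zero) |>.1 (by linarith)

lemma rot_inj {q : ℂ × ℂ} (h : qn q ≠ 0) {x : ℝ × ℂ} (hx : rot q.1 q.2 x = 0) : x = 0 := by
  have h1 := nsq_rot q.1 q.2 x
  rw [hx] at h1
  have h2 : nsq (0 : ℝ × ℂ) = 0 := by simp [nsq]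
  rw [h2] at h1
  apply nsq_eq_zero
  rcases mul_eq_zero.1 h1.symm with h3 | h3
  · exact absurd (pow_eq_zero_iff (two_ne_zero) |>.1 h3) h
  · exact h3

/-- the rotation as a linear map -/
noncomputable def rotM (q : ℂ × ℂ) : (ℝ × ℂ) →ₗ[ℝ] (ℝ × ℂ) where
  toFun := rot q.1 q.2
  map_add' x y := by
    refine Prod.ext ?_ (Complex.ext ?_ ?_)
    all_goals
      simp only [rot, Complex.normSq_apply, Complex.sub_re, Complex.sub_im, Complex.add_re,
        Complex.add_im, Complex.mul_re, Complex.mul_im, pow_two, Complex.conj_re, Complex.conj_im,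
        Complex.I_re, Complex.I_im, Complex.ofReal_re, Complex.ofReal_im, Complex.re_ofNat,
        Complex.im_ofNat, Complex.neg_re, Complex.neg_im, Prod.fst_add, Prod.snd_add, map_add]
      ring
  map_smul' c x := by
    refine Prod.ext ?_ (Complex.ext ?_ ?_)
    all_goals
      simp only [rot, Complex.normSq_apply, Complex.sub_re, Complex.sub_im, Complex.add_re,
        Complex.add_im, Complex.mul_re, Complex.mul_im, pow_two, Complex.conj_re, Complex.conj_im,
        Complex.I_re, Complex.I_im, Complex.ofReal_re, Complex.ofReal_im, Complex.re_ofNat,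
        Complex.im_ofNat, Complex.neg_re, Complex.neg_im, Prod.smul_fst, Prod.smul_snd, smul_eq_mul,
        Complex.real_smul, RingHom.id_apply, map_mul, Complex.conj_ofReal]
      ring

/-- every vector in the standard basis -/
lemma decomp (v : ℝ × ℂ) : v = v.1 • ((1 : ℝ), (0 : ℂ)) + v.2.re • ((0 : ℝ), (1 : ℂ)) +
    v.2.im • ((0 : ℝ), Complex.I) := by
  refine Prod.ext ?_ (Complex.ext ?_ ?_) <;> simp

lemma tri_inj {T : E3} (hT : Tri T) {v : ℝ × ℂ} (hv : T v = 0) : v = 0 := by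
  obtain ⟨h1, h2, h3, h4⟩ := hT
  have e := congrArg T (decomp v)
  rw [map_add, map_add, map_smul, map_smul, map_smul, h1, hv] at e
  have e1 := congrArg (fun z : ℝ × ℂ => z.2.im) e
  have e2 := congrArg (fun z : ℝ × ℂ => z.2.re) e
  have e3 := congrArg (fun z : ℝ × ℂ => z.1) e
  simp only [Prod.fst_add, Prod.snd_add, Prod.smul_fst, Prod.smul_snd, Complex.add_im,
    Complex.add_re, Complex.smul_im, Complex.smul_re, smul_eq_mul, h2, Prod.fst_zero,
    Prod.snd_zero, Complex.zero_im, Complex.zero_re, mul_zero, zero_add, add_zero, mul_one] at e1 e2 e3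
  have i1 : v.2.im = 0 := by
    rcases mul_eq_zero.1 e1.symm with h | h
    · exact h
    · exact absurd h h4.ne'
  rw [i1, zero_mul, add_zero] at e2 e3
  have i2 : v.2.re = 0 := by
    rcases mul_eq_zero.1 e2.symm with h | h
    · exact h
    · exact absurd h h3.ne'
  rw [i2, zero_mul, add_zero] at e3
  exact Prod.ext e3.symm (Complex.ext i2 i1)

lemma tri_conv {T : E3} (hT : Tri T) {σ : ℝ} (h0 : 0 ≤ σ) (h1 : σ ≤ 1) :
    Tri ((1 - σ) • T + σ • ContinuousLinearMap.id ℝ (ℝ × ℂ)) := by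
  obtain ⟨t1, t2, t3, t4⟩ := hT
  refine ⟨?_, ?_, ?_, ?_⟩
  · simp only [_root_.add_apply, _root_.smul_apply, t1,
      ContinuousLinearMap.id_apply]
    rw [← add_smul, sub_add_cancel, one_smul]
  · simp [t2]
  · simp only [_root_.add_apply, _root_.smul_apply,
      ContinuousLinearMap.id_apply, Prod.snd_add, Prod.smul_snd, Complex.add_re, Complex.smul_re,
      smul_eq_mul, Complex.one_re, mul_one]
    rcases h1.lt_or_eq with h | h
    · have := mul_pos (sub_pos.2 h) t3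
      linarith
    · rw [h]; simp
  · simp only [_root_.add_apply, _root_.smul_apply,
      ContinuousLinearMap.id_apply, Prod.snd_add, Prod.smul_snd, Complex.add_im, Complex.smul_im,
      smul_eq_mul, Complex.I_im, mul_one]
    rcases h1.lt_or_eq with h | h
    · have := mul_pos (sub_pos.2 h) t4
      linarith
    · rw [h]; simp

lemma exists_p {Q : ℝ × ℝ → ℂ × ℂ} (hQ : ContDiff ℝ ∞ Q) :
    ∃ p : ℂ × ℂ, ∀ (r : ℝ) (x : ℝ × ℝ), -p ≠ r • Q x := by
  have h1 : Module.finrank ℝ (ℝ × (ℝ × ℝ)) < Module.finrank ℝ (ℂ × ℂ) := by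
    simp [Module.finrank_prod, Complex.finrank_real_complex]
  have h2 : DifferentiableOn ℝ (fun y : ℝ × (ℝ × ℝ) => y.1 • Q y.2) univ := by
    apply Differentiable.differentiableOn
    exact (contDiff_fst.smul (hQ.comp contDiff_snd)).differentiable (by simp)
  have h3 := Pool.Agent.Helper34.BI.null_image (Measure.addHaar : Measure (ℂ × ℂ)) h1 h2
  have h4 : ∃ z : ℂ × ℂ, z ∉ (fun y : ℝ × (ℝ × ℝ) => y.1 • Q y.2) '' univ := by
    by_contra hcon
    push Not at hcon
    have h5 : (fun y : ℝ × (ℝ × ℝ) => y.1 • Q y.2) '' univ = univ := eq_univ_of_forall hcon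
    rw [h5] at h3
    have h6 : (Measure.addHaar : Measure (ℂ × ℂ)) univ ≠ 0 := by
      intro h0
      exact (isOpen_univ.measure_pos (Measure.addHaar : Measure (ℂ × ℂ)) univ_nonempty).ne' h0
    exact h6 h3
  obtain ⟨z, hz⟩ := h4
  refine ⟨-z, fun r x h => hz ⟨(r, x), mem_univ _, ?_⟩⟩
  rw [neg_neg] at h
  exact h.symm

section smooth
variable {F : Type} [NormedAddCommGroup F] [NormedSpace ℝ F]

lemma contDiff_qm {a b : F → ℂ × ℂ} (ha : ContDiff ℝ ∞ a) (hb : ContDiff ℝ ∞ b) :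
    ContDiff ℝ ∞ (fun y => qm (a y) (b y)) := by
  unfold qm
  apply ContDiff.prodMk
  · exact (ha.fst.mul hb.fst).sub (ha.snd.mul (Complex.conjCLE.contDiff.comp hb.snd))
  · exact (ha.fst.mul hb.snd).add (ha.snd.mul (Complex.conjCLE.contDiff.comp hb.fst))

lemma contDiff_nS {a : F → ℂ} (ha : ContDiff ℝ ∞ a) :
    ContDiff ℝ ∞ (fun y => Complex.normSq (a y)) := by
  simp only [Complex.normSq_apply]
  exact ((Complex.reCLM.contDiff.comp ha).mul (Complex.reCLM.contDiff.comp ha)).add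
    ((Complex.imCLM.contDiff.comp ha).mul (Complex.imCLM.contDiff.comp ha))

lemma contDiff_qi {a : F → ℂ × ℂ} (ha : ContDiff ℝ ∞ a) (h : ∀ y, qn (a y) ≠ 0) :
    ContDiff ℝ ∞ (fun y => qi (a y)) := by
  unfold qi
  have h1 : ContDiff ℝ ∞ (fun y => (qn (a y))⁻¹) := by
    apply ContDiff.inv _ h
    unfold qn
    exact (contDiff_nS ha.fst).add (contDiff_nS ha.snd)
  have h2 : ContDiff ℝ ∞ (fun y => (((qn (a y))⁻¹ : ℝ) : ℂ)) := Complex.ofRealCLM.contDiff.comp h1
  apply ContDiff.prodMk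
  · exact h2.mul (Complex.conjCLE.contDiff.comp ha.fst)
  · exact (h2.mul ha.snd).neg

end smooth

end PI2C

open PI2C

theorem m_PI2 (h : StPI2B) : StPI2 := by
  intro s₀ s₁ M hs hM
  obtain ⟨Q, T, hQ, hT, hQ0, hTri, hQT, hout⟩ := h s₀ s₁ M hs hM
  obtain ⟨p, hp⟩ := exists_p hQ
  let x₀ : ℝ × ℝ := (-1, 0)
  have hx₀ : x₀ ∉ Ioo (0 : ℝ) 1 ×ˢ Ioo s₀ s₁ := by
    intro hx
    have := hx.1.1
    simp only [x₀] at this
    linarith
  have hσ0 : ∀ t, 0 ≤ step t := fun t => Real.smoothTransition.nonneg t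
  have hσ1 : ∀ t, step t ≤ 1 := fun t => Real.smoothTransition.le_one t
  let y : ℝ → ℝ × ℝ → ℂ × ℂ := fun t x => (1 - step t) • Q x + step t • p
  have hy : ∀ t x, qn (y t x) ≠ 0 := by
    intro t x
    apply qn_ne
    intro h0
    simp only [y] at h0
    by_cases hσ : step t = 0
    · rw [hσ, sub_zero, one_smul, zero_smul, add_zero] at h0
      exact hQ0 x h0
    · apply hp ((step t)⁻¹ * (1 - step t)) x
      rw [mul_smul]
      have e1 : (1 - step t) • Q x = -(step t • p) := eq_neg_of_add_eq_zero_left h0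
      rw [e1, smul_neg, smul_smul, inv_mul_cancel₀ hσ, one_smul]
  let Qt : ℝ → ℝ × ℝ → ℂ × ℂ := fun t x => qm (y t x) (qi (y t x₀))
  let Tt : ℝ → ℝ × ℝ → E3 := fun t x => (1 - step t) • T x + step t •
    ContinuousLinearMap.id ℝ (ℝ × ℂ)
  have hQt : ∀ t x, qn (Qt t x) ≠ 0 := by
    intro t x
    simp only [Qt]
    rw [qn_qm]
    exact mul_ne_zero (hy t x) (qn_qi (hy t x₀))
  have hstep : ContDiff ℝ ∞ (fun z : ℝ × ℝ × ℝ => step z.1) :=
    Real.smoothTransition.contDiff.comp contDiff_fst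
  have hys : ContDiff ℝ ∞ (fun z : ℝ × ℝ × ℝ => y z.1 z.2) :=
    ((contDiff_const.sub hstep).smul (hQ.comp contDiff_snd)).add (hstep.smul contDiff_const)
  have hys0 : ContDiff ℝ ∞ (fun z : ℝ × ℝ × ℝ => y z.1 x₀) :=
    ((contDiff_const.sub hstep).smul contDiff_const).add (hstep.smul contDiff_const)
  have hQts : ContDiff ℝ ∞ (fun z : ℝ × ℝ × ℝ => Qt z.1 z.2) :=
    contDiff_qm hys (contDiff_qi hys0 (fun z => hy z.1 x₀))
  have hTts : ContDiff ℝ ∞ (fun z : ℝ × ℝ × ℝ => Tt z.1 z.2) :=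
    ((contDiff_const.sub hstep).smul (hT.comp contDiff_snd)).add (hstep.smul contDiff_const)
  let Γ : ℝ × ℝ × ℝ → E3 := fun z =>
    (LinearMap.toContinuousLinearMap (rotM (Qt z.1 z.2))).comp (Tt z.1 z.2)
  have hΓ : ∀ z v, Γ z v = rot (Qt z.1 z.2).1 (Qt z.1 z.2).2 (Tt z.1 z.2 v) := fun z v => rfl
  refine ⟨Γ, ?_, ?_, ?_, ?_, ?_⟩
  · rw [contDiff_clm_apply_iff]
    intro v
    simp only [hΓ]
    exact contDiff_rot hQts.fst hQts.snd (hTts.clm_apply contDiff_const)
  · intro z v hv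
    rw [hΓ] at hv
    exact tri_inj (tri_conv (hTri z.2) (hσ0 z.1) (hσ1 z.1)) (rot_inj (hQt z.1 z.2) hv)
  · intro x
    apply ContinuousLinearMap.ext
    intro v
    rw [hΓ]
    have e0 : step 0 = 0 := step_of_nonpos le_rfl
    have e1 : Qt 0 x = Q x := by
      simp only [Qt, y, e0, sub_zero, one_smul, zero_smul, add_zero]
      rw [(hout x₀ hx₀).1, qi_one, qm_one]
    have e2 : Tt 0 x = T x := by
      apply ContinuousLinearMap.ext
      intro v
      simp [Tt, e0]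
    change rot (Qt 0 x).1 (Qt 0 x).2 (Tt 0 x v) = M x v
    rw [e1, e2]
    exact hQT x v
  · intro x
    apply ContinuousLinearMap.ext
    intro v
    rw [hΓ]
    have e0 : step 1 = 1 := step_of_one_le le_rfl
    have e1 : Qt 1 x = (1, 0) := by
      have h1 := qm_qi (hy 1 x₀)
      simp only [Qt, y, e0, sub_self, one_smul, zero_smul, zero_add] at h1 ⊢
      exact h1
    have e2 : Tt 1 x = ContinuousLinearMap.id ℝ (ℝ × ℂ) := by
      apply ContinuousLinearMap.ext
      intro v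
      simp [Tt, e0]
    change rot (Qt 1 x).1 (Qt 1 x).2 (Tt 1 x v) = _
    rw [e1, e2]
    exact rot_one v
  · intro t x hx
    apply ContinuousLinearMap.ext
    intro v
    rw [hΓ]
    have e1 : Qt t x = (1, 0) := by
      have h1 := qm_qi (hy t x₀)
      simp only [Qt]
      have h2 : y t x = y t x₀ := by
        simp only [y]
        rw [(hout x hx).1, (hout x₀ hx₀).1]
      rw [h2]
      exact h1
    have e2 : Tt t x = ContinuousLinearMap.id ℝ (ℝ × ℂ) := by
      apply ContinuousLinearMap.ext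
      intro v
      simp only [Tt]
      rw [(hout x hx).2]
      simp only [_root_.add_apply, _root_.smul_apply, ContinuousLinearMap.id_apply]
      rw [← add_smul, sub_add_cancel, one_smul]
    change rot (Qt t x).1 (Qt t x).2 (Tt t x v) = _
    rw [e1, e2]
    exact rot_one v

end Pool.Agent.Helper18.BI.H


end
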