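import Pool.Agent.Helper65.Barb.Defs
import Pool.Agent.Helper70.BI.C.P07
import Pool.Agent.Helper70.BI.C.P13
import Pool.Agent.Helper70.BI.C.P26
import Pool.Agent.Helper70.BI.C.P36

/-!
# Project BI (MP_8e98f2_gt): collected modules, part 37

The contents of the modules
* Helper18.BI.H.M_PI2B
* Helper27.BI.H.Calc
* Helper18.BI.H.PI2Adapt
* Helper18.BI.H.AsmPI2
* Helper27.BI.H.Cls
* Helper27.BI.H.M_PTJ
* Helper27.BI.H.M_FRAME

in one file, so that the whole proof builds in a short time.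
-/

namespace Pool.Agent.Helper18.BI
end Pool.Agent.Helper18.BI

namespace Pool.Agent.Helper27.BI
end Pool.Agent.Helper27.BI

namespace Pool.Agent.Helper34.BI
end Pool.Agent.Helper34.BI

namespace Pool.Agent.Helper65.Barb
end Pool.Agent.Helper65.Barb

namespace Pool.Agent.Helper70.BI
end Pool.Agent.Helper70.BI


/-! ## Helper18.BI.H.M_PI2B -/

section

/-!
# Project BI, stage 3 (H), module PI2B: the quaternion lift of a map of a square to `GL₃`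
-/

set_option autoImplicit false
set_option linter.unusedSimpArgs false

open scoped Manifold ContDiff Topology ComplexConjugate
open Set Pool.Agent.Helper65.Barb Pool.Agent.Helper18.BI

namespace Pool.Agent.Helper18.BI.H

namespace PI2B

open PI2C

/-- the rotation with scaling, as a continuous linear map -/
noncomputable def rc (q : ℂ × ℂ) : E3 := (rotM q).toContinuousLinearMap

theorem rc_apply (q : ℂ × ℂ) (v : ℝ × ℂ) : rc q v = rot q.1 q.2 v := rfl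

theorem rc_one : rc (1, 0) = 1 := by
  refine ContinuousLinearMap.ext fun v => ?_
  rw [rc_apply]
  exact rot_one v

theorem rc_qm (p q : ℂ × ℂ) : rc (qm p q) = rc p * rc q := by
  refine ContinuousLinearMap.ext fun v => ?_
  exact rot_qm p q v

theorem rc_qi {p : ℂ × ℂ} (h : qn p ≠ 0) : rc p * rc (qi p) = 1 := by
  rw [← rc_qm, qm_qi h, rc_one]

theorem contDiff_rc : ContDiff ℝ ∞ rc := by
  rw [contDiff_clm_apply_iff]
  intro v
  exact contDiff_rot contDiff_fst contDiff_snd contDiff_const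

theorem norm_sq_le (v : ℝ × ℂ) : ‖v‖ ^ 2 ≤ nsq v := by
  have h1 : ‖v.2‖ ^ 2 = v.2.re ^ 2 + v.2.im ^ 2 := by
    rw [Complex.sq_norm, Complex.normSq_apply]
    ring
  have h2 : ‖v.1‖ ^ 2 = v.1 ^ 2 := by
    rw [Real.norm_eq_abs, sq_abs]
  rw [Prod.norm_def]
  unfold nsq
  rcases le_total ‖v.1‖ ‖v.2‖ with h | h
  · rw [max_eq_right h, h1]
    nlinarith [sq_nonneg v.1]
  · rw [max_eq_left h, h2]
    nlinarith [sq_nonneg v.2.re, sq_nonneg v.2.im]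

theorem le_norm_sq (v : ℝ × ℂ) : nsq v ≤ 2 * ‖v‖ ^ 2 := by
  have h1 : ‖v.2‖ ^ 2 = v.2.re ^ 2 + v.2.im ^ 2 := by
    rw [Complex.sq_norm, Complex.normSq_apply]
    ring
  have h2 : ‖v.1‖ ^ 2 = v.1 ^ 2 := by
    rw [Real.norm_eq_abs, sq_abs]
  have h3 : ‖v.1‖ ≤ ‖v‖ := norm_fst_le v
  have h4 : ‖v.2‖ ≤ ‖v‖ := norm_snd_le v
  have h5 : ‖v.1‖ ^ 2 ≤ ‖v‖ ^ 2 := pow_le_pow_left₀ (norm_nonneg _) h3 2
  have h6 : ‖v.2‖ ^ 2 ≤ ‖v‖ ^ 2 := pow_le_pow_left₀ (norm_nonneg _) h4 2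
  unfold nsq
  linarith

theorem qn_nonneg (p : ℂ × ℂ) : 0 ≤ qn p :=
  add_nonneg (Complex.normSq_nonneg _) (Complex.normSq_nonneg _)

theorem norm_conj {p : ℂ × ℂ} (h : qn p ≠ 0) (A : E3) :
    ‖rc (qi p) * A * rc p‖ ≤ 2 * ‖A‖ := by
  refine ContinuousLinearMap.opNorm_le_bound _ (by positivity) fun v => ?_
  have hq : qn (qi p) * qn p = 1 := by
    rw [mul_comm, ← qn_qm, qm_qi h]
    simp [qn]
  set w : ℝ × ℂ := rc p v with hw
  have h1 : ‖w‖ ^ 2 ≤ qn p ^ 2 * (2 * ‖v‖ ^ 2) := by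
    refine (norm_sq_le w).trans ?_
    rw [hw, rc_apply, nsq_rot]
    exact mul_le_mul_of_nonneg_left (le_norm_sq v) (sq_nonneg _)
  have h2 : ‖A w‖ ≤ ‖A‖ * ‖w‖ := A.le_opNorm w
  have h3 : ‖rc (qi p) (A w)‖ ^ 2 ≤ qn (qi p) ^ 2 * (2 * ‖A w‖ ^ 2) := by
    refine (norm_sq_le _).trans ?_
    rw [rc_apply, nsq_rot]
    exact mul_le_mul_of_nonneg_left (le_norm_sq _) (sq_nonneg _)
  have h4 : ‖A w‖ ^ 2 ≤ ‖A‖ ^ 2 * ‖w‖ ^ 2 := by
    rw [← mul_pow]
    exact pow_le_pow_left₀ (norm_nonneg _) h2 2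
  have h5 : ‖rc (qi p) (A w)‖ ^ 2 ≤ (2 * ‖A‖ * ‖v‖) ^ 2 := by
    calc ‖rc (qi p) (A w)‖ ^ 2 ≤ qn (qi p) ^ 2 * (2 * ‖A w‖ ^ 2) := h3
      _ ≤ qn (qi p) ^ 2 * (2 * (‖A‖ ^ 2 * (qn p ^ 2 * (2 * ‖v‖ ^ 2)))) := by
          refine mul_le_mul_of_nonneg_left ?_ (sq_nonneg _)
          refine mul_le_mul_of_nonneg_left ?_ (by norm_num)
          exact h4.trans (mul_le_mul_of_nonneg_left h1 (sq_nonneg _))
      _ = (qn (qi p) * qn p) ^ 2 * (2 * ‖A‖ * ‖v‖) ^ 2 := by ring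
      _ = (2 * ‖A‖ * ‖v‖) ^ 2 := by rw [hq]; ring
  have h6 := abs_le_of_sq_le_sq h5 (by positivity)
  show ‖rc (qi p) (A w)‖ ≤ 2 * ‖A‖ * ‖v‖
  exact (le_abs_self _).trans h6

theorem rc_qi' {p : ℂ × ℂ} (h : qn p ≠ 0) : rc (qi p) * rc p = 1 := by
  have h1 := rc_qi h
  have h2 := rc_qi (qn_qi h)
  -- the right inverse of the right inverse
  calc rc (qi p) * rc p = rc (qi p) * rc p * (rc (qi p) * rc (qi (qi p))) := by rw [h2, mul_one]
    _ = rc (qi p) * (rc p * rc (qi p)) * rc (qi (qi p)) := by simp only [mul_assoc]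
    _ = 1 := by rw [h1, mul_one, h2]

theorem isUnit_of_inj {A : E3} (h : ∀ v, A v = 0 → v = 0) : IsUnit A := by
  have hinj : Function.Injective (A : (ℝ × ℂ) →ₗ[ℝ] (ℝ × ℂ)) :=
    (injective_iff_map_eq_zero _).2 h
  let e := (LinearEquiv.ofInjectiveEndo (A : (ℝ × ℂ) →ₗ[ℝ] (ℝ × ℂ)) hinj).toContinuousLinearEquiv
  have he : (e : E3) = A := by
    refine ContinuousLinearMap.ext fun v => ?_
    rfl
  refine ⟨⟨(e : E3), (e.symm : E3), ?_, ?_⟩, he⟩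
  · refine ContinuousLinearMap.ext fun v => ?_
    exact e.apply_symm_apply v
  · refine ContinuousLinearMap.ext fun v => ?_
    exact e.symm_apply_apply v

theorem tri_one : Tri (1 : E3) := by
  refine ⟨rfl, ?_, ?_, ?_⟩ <;> simp

theorem tri_mul {S T : E3} (hS : Tri S) (hT : Tri T) : Tri (S * T) := by
  obtain ⟨s1, s2, s3, s4⟩ := hS
  obtain ⟨t1, t2, t3, t4⟩ := hT
  have key : ∀ v : ℝ × ℂ, S v = v.1 • ((1 : ℝ), (0 : ℂ)) + v.2.re • S (0, 1)
      + v.2.im • S (0, Complex.I) := by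
    intro v
    conv_lhs => rw [decomp v]
    rw [map_add, map_add, map_smul, map_smul, map_smul, s1]
  refine ⟨?_, ?_, ?_, ?_⟩
  · show S (T (1, 0)) = (1, 0)
    rw [t1, s1]
  · show (S (T (0, 1))).2.im = 0
    rw [key (T (0, 1)), t2]
    simp [s2]
  · show 0 < (S (T (0, 1))).2.re
    rw [key (T (0, 1)), t2]
    simp only [zero_smul, add_zero, Prod.snd_add, Prod.smul_snd, smul_zero, zero_add,
      Complex.smul_re, smul_eq_mul]
    exact mul_pos t3 s3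
  · show 0 < (S (T (0, Complex.I))).2.im
    rw [key (T (0, Complex.I))]
    simp only [Prod.snd_add, Prod.smul_snd, smul_zero, zero_add, Complex.add_im,
      Complex.smul_im, smul_eq_mul, s2, mul_zero]
    exact mul_pos t4 s4

/-- a decomposition of the identity -/
theorem rc_tri_one {q : ℂ × ℂ} {T : E3} (hT : Tri T) (h : rc q * T = 1) :
    (q = (1, 0) ∨ q = (-1, 0)) ∧ T = 1 := by
  obtain ⟨t1, t2, t3, t4⟩ := hT
  obtain ⟨α, β⟩ := q
  have e1 : rot α β (1, 0) = (1, 0) := by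
    have : rc (α, β) (T (1, 0)) = (1, 0) := congrArg (fun A : E3 => A (1, 0)) h
    rw [t1] at this
    exact this
  have e2 : Complex.normSq α - Complex.normSq β = 1 := by
    have := congrArg Prod.fst e1
    simpa [rot] using this
  have e3 : α * β = 0 := by
    have := congrArg Prod.snd e1
    simp only [rot] at this
    have h2 : (2 * Complex.I) * (α * β) = 0 := by
      simp only [mul_zero, map_zero, add_zero, Complex.ofReal_one, mul_one, zero_sub, neg_eq_zero]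
        at this
      rw [← this]
      ring
    exact (mul_eq_zero.1 h2).resolve_left (by simp)
  have hα : α ≠ 0 := by
    rintro rfl
    have := Complex.normSq_nonneg β
    simp at e2
    linarith
  have hβ : β = 0 := (mul_eq_zero.1 e3).resolve_left hα
  subst hβ
  have hn : Complex.normSq α = 1 := by simpa using e2
  have hT : ∀ v, ((T v).1, α ^ 2 * (T v).2) = v := by
    intro v
    have : rot α 0 (T v) = v := congrArg (fun A : E3 => A v) h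
    rw [rot_diag hn] at this
    exact this
  have hα2 : α ^ 2 = 1 := by
    have h1 := congrArg Prod.snd (hT (0, 1))
    simp only at h1
    have hc : (T (0, 1)).2 = (((T (0, 1)).2.re : ℝ) : ℂ) := by
      apply Complex.ext
      · simp
      · simp [t2]
    rw [hc] at h1
    have h2 := congrArg Complex.normSq h1
    rw [map_mul, map_pow, hn, Complex.normSq_ofReal, one_pow, one_mul, map_one] at h2
    have h3 : (T (0, 1)).2.re = 1 := by nlinarith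
    rw [h3] at h1
    simpa using h1
  refine ⟨?_, ?_⟩
  · rcases (mul_self_eq_one_iff (a := α)).1 (by rw [← pow_two]; exact hα2) with h | h
    · left; rw [h]
    · right; rw [h]
  · refine ContinuousLinearMap.ext fun v => ?_
    have := hT v
    rw [hα2, one_mul] at this
    exact this

/-- a bounded reparametrization of the line -/
noncomputable def gg (u : ℝ) : ℝ :=
  u * (step (2 - u) + step (1 + u) - 1) + 2 * (1 - step (2 - u)) - (1 - step (1 + u))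

theorem contDiff_gg : ContDiff ℝ ∞ gg := by
  have h1 : ContDiff ℝ ∞ (fun u : ℝ => step (2 - u)) :=
    Real.smoothTransition.contDiff.comp (contDiff_const.sub contDiff_id)
  have h2 : ContDiff ℝ ∞ (fun u : ℝ => step (1 + u)) :=
    Real.smoothTransition.contDiff.comp (contDiff_const.add contDiff_id)
  unfold gg
  exact ((contDiff_id.mul ((h1.add h2).sub contDiff_const)).add
    (contDiff_const.mul (contDiff_const.sub h1))).sub (contDiff_const.sub h2)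

theorem gg_mid {u : ℝ} (h0 : 0 ≤ u) (h1 : u ≤ 1) : gg u = u := by
  unfold gg
  rw [step_of_one_le (by linarith : 1 ≤ 2 - u), step_of_one_le (by linarith : 1 ≤ 1 + u)]
  ring

theorem gg_nonpos {u : ℝ} (h : u ≤ 0) : gg u ≤ 0 ∧ -2 ≤ gg u := by
  have h0 : 0 ≤ step (1 + u) := Real.smoothTransition.nonneg _
  have h1 : step (1 + u) ≤ 1 := Real.smoothTransition.le_one _
  unfold gg
  rw [step_of_one_le (by linarith : 1 ≤ 2 - u)]
  rcases le_total u (-1) with h2 | h2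
  · rw [step_of_nonpos (by linarith : 1 + u ≤ 0)]
    constructor <;> linarith
  · constructor <;> nlinarith

theorem gg_one_le {u : ℝ} (h : 1 ≤ u) : 1 ≤ gg u ∧ gg u ≤ 2 := by
  have h0 : 0 ≤ step (2 - u) := Real.smoothTransition.nonneg _
  have h1 : step (2 - u) ≤ 1 := Real.smoothTransition.le_one _
  unfold gg
  rw [step_of_one_le (by linarith : 1 ≤ 1 + u)]
  rcases le_total 2 u with h2 | h2
  · rw [step_of_nonpos (by linarith : 2 - u ≤ 0)]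
    constructor <;> linarith
  · constructor <;> nlinarith

theorem abs_gg (u : ℝ) : |gg u| ≤ 2 := by
  rcases le_total u 0 with h | h
  · have := gg_nonpos h
    rw [abs_le]
    constructor <;> linarith
  · rcases le_total u 1 with h1 | h1
    · rw [gg_mid h h1, abs_le]
      constructor <;> linarith
    · have := gg_one_le h1
      rw [abs_le]
      constructor <;> linarith

/-- the recursion -/
noncomputable def seqQ (q : E3 → ℂ × ℂ) (τ : E3 → E3) (A : ℕ → ℝ × ℝ → E3) :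
    ℕ → ℝ × ℝ → (ℂ × ℂ) × E3
  | 0 => fun _ => ((1, 0), 1)
  | k + 1 => fun x =>
      (qm (seqQ q τ A k x).1 (q (rc (qi (seqQ q τ A k x).1) *
          (A (k + 1) x * Ring.inverse (A k x)) * rc (seqQ q τ A k x).1)),
        τ (rc (qi (seqQ q τ A k x).1) *
          (A (k + 1) x * Ring.inverse (A k x)) * rc (seqQ q τ A k x).1) * (seqQ q τ A k x).2)

theorem seqQ_one {q : E3 → ℂ × ℂ} {τ : E3 → E3} {A : ℕ → ℝ × ℝ → E3} (hq1 : q 1 = (1, 0))
    (hτ1 : τ 1 = 1) {x : ℝ × ℝ} {N : ℕ} (h : ∀ k ≤ N, A k x = 1) :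
    ∀ k ≤ N, seqQ q τ A k x = ((1, 0), 1) := by
  intro k
  induction k with
  | zero => intro _; rfl
  | succ k ih =>
    intro hk
    have hk' : k ≤ N := by omega
    have e := ih hk'
    rw [seqQ]
    beta_reduce
    rw [e, h k hk', h (k + 1) hk]
    simp only [Ring.inverse_one, mul_one, qi_one, rc_one, one_mul, hq1, hτ1, qm_one]

theorem seqQ_main {r : ℝ} {q : E3 → ℂ × ℂ} {τ : E3 → E3}
    (hq : ContDiffOn ℝ ∞ q (Metric.ball 1 r)) (hτ : ContDiffOn ℝ ∞ τ (Metric.ball 1 r))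
    (hA : ∀ B ∈ Metric.ball (1 : E3) r, q B ≠ 0 ∧ Tri (τ B) ∧ rc (q B) * τ B = B)
    {A : ℕ → ℝ × ℝ → E3} (hA0 : ∀ x, A 0 x = 1) (hAs : ∀ k, ContDiff ℝ ∞ (A k))
    (hAu : ∀ k x, IsUnit (A k x)) {N : ℕ}
    (hst : ∀ k < N, ∀ x, ‖A (k + 1) x * Ring.inverse (A k x) - 1‖ < r / 2) :
    ∀ k ≤ N, ContDiff ℝ ∞ (seqQ q τ A k) ∧ ∀ x, (seqQ q τ A k x).1 ≠ 0 ∧
      Tri (seqQ q τ A k x).2 ∧ rc (seqQ q τ A k x).1 * (seqQ q τ A k x).2 = A k x := by
  intro k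
  induction k with
  | zero =>
    intro _
    refine ⟨contDiff_const, fun x => ⟨?_, tri_one, ?_⟩⟩
    · show ((1 : ℂ), (0 : ℂ)) ≠ 0
      intro h
      exact one_ne_zero (congrArg Prod.fst h)
    · show rc (1, 0) * 1 = A 0 x
      rw [rc_one, hA0, one_mul]
  | succ k ih =>
    intro hk
    obtain ⟨hs, hx⟩ := ih (by omega)
    have hqn : ∀ x, qn (seqQ q τ A k x).1 ≠ 0 := fun x => qn_ne (hx x).1
    set D : ℝ × ℝ → E3 := fun x => rc (qi (seqQ q τ A k x).1) *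
      (A (k + 1) x * Ring.inverse (A k x)) * rc (seqQ q τ A k x).1 with hD
    have hDb : ∀ x, D x ∈ Metric.ball (1 : E3) r := by
      intro x
      rw [mem_ball_iff_norm]
      have e : D x - 1 = rc (qi (seqQ q τ A k x).1) *
          (A (k + 1) x * Ring.inverse (A k x) - 1) * rc (seqQ q τ A k x).1 := by
        rw [mul_sub, sub_mul, mul_one, rc_qi' (hqn x)]
      rw [e]
      have h1 := norm_conj (hqn x) (A (k + 1) x * Ring.inverse (A k x) - 1)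
      have h2 := hst k (by omega) x
      linarith
    have hinv : ContDiff ℝ ∞ (fun x => Ring.inverse (A k x)) := by
      rw [contDiff_iff_contDiffAt]
      intro x
      obtain ⟨U, hU⟩ := hAu k x
      have := contDiffAt_ringInverse (n := ∞) ℝ U
      rw [hU] at this
      exact this.comp x (hAs k).contDiffAt
    have hDs : ContDiff ℝ ∞ D := by
      have h1 : ContDiff ℝ ∞ (fun x => rc (qi (seqQ q τ A k x).1)) :=
        contDiff_rc.comp (contDiff_qi hs.fst hqn)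
      have h2 : ContDiff ℝ ∞ (fun x => rc (seqQ q τ A k x).1) := contDiff_rc.comp hs.fst
      exact (h1.mul ((hAs (k + 1)).mul hinv)).mul h2
    have hqD : ContDiff ℝ ∞ (fun x => q (D x)) := hq.comp_contDiff hDs hDb
    have hτD : ContDiff ℝ ∞ (fun x => τ (D x)) := hτ.comp_contDiff hDs hDb
    refine ⟨?_, fun x => ?_⟩
    · show ContDiff ℝ ∞ (fun x => (qm (seqQ q τ A k x).1 (q (D x)),
        τ (D x) * (seqQ q τ A k x).2))
      exact (contDiff_qm hs.fst hqD).prodMk (hτD.mul hs.snd)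
    · show qm (seqQ q τ A k x).1 (q (D x)) ≠ 0 ∧ Tri (τ (D x) * (seqQ q τ A k x).2) ∧
        rc (qm (seqQ q τ A k x).1 (q (D x))) * (τ (D x) * (seqQ q τ A k x).2) = A (k + 1) x
      obtain ⟨a1, a2, a3⟩ := hA (D x) (hDb x)
      obtain ⟨b1, b2, b3⟩ := hx x
      refine ⟨?_, tri_mul a2 b2, ?_⟩
      · intro h0
        have h1 := qn_qm (seqQ q τ A k x).1 (q (D x))
        rw [h0] at h1
        have h2 : qn (0 : ℂ × ℂ) = 0 := by simp [qn]
        rw [h2] at h1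
        exact mul_ne_zero (hqn x) (qn_ne a1) h1.symm
      · rw [rc_qm]
        calc rc (seqQ q τ A k x).1 * rc (q (D x)) * (τ (D x) * (seqQ q τ A k x).2)
            = rc (seqQ q τ A k x).1 * (rc (q (D x)) * τ (D x)) * (seqQ q τ A k x).2 := by
              simp only [mul_assoc]
          _ = (rc (seqQ q τ A k x).1 * rc (qi (seqQ q τ A k x).1)) *
                (A (k + 1) x * Ring.inverse (A k x)) *
                (rc (seqQ q τ A k x).1 * (seqQ q τ A k x).2) := by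
              rw [a3, hD]
              simp only [mul_assoc]
          _ = A (k + 1) x := by
              rw [rc_qi (hqn x), b3, one_mul, mul_assoc, Ring.inverse_mul_cancel _ (hAu k x),
                mul_one]

/-- uniform continuity -/
theorem exists_N {s₀ s₁ r : ℝ} {M : ℝ × ℝ → E3} (hM : SqM s₀ s₁ M) (hr : 0 < r) :
    ∃ N : ℕ, 0 < N ∧ ∀ a b s : ℝ, |a| ≤ 2 → |b| ≤ 2 → |a - b| ≤ 2 / N →
      ‖M (a, s) * Ring.inverse (M (b, s)) - 1‖ < r := by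
  obtain ⟨hM1, hM2, hM3⟩ := hM
  have hinv : Continuous (fun x => Ring.inverse (M x)) := by
    rw [continuous_iff_continuousAt]
    intro x
    obtain ⟨U, hU⟩ := isUnit_of_inj (hM2 x)
    have := (contDiffAt_ringInverse (n := ∞) ℝ U).continuousAt
    rw [hU] at this
    exact ContinuousAt.comp (f := M) this hM1.continuous.continuousAt
  let F : ℝ × ℝ × ℝ → E3 := fun z => M (z.1, z.2.2) * Ring.inverse (M (z.2.1, z.2.2))
  have hF : Continuous F := by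
    have h1 : Continuous (fun z : ℝ × ℝ × ℝ => M (z.1, z.2.2)) :=
      hM1.continuous.comp (by fun_prop)
    have h2 : Continuous (fun z : ℝ × ℝ × ℝ => Ring.inverse (M (z.2.1, z.2.2))) :=
      hinv.comp (by fun_prop : Continuous fun z : ℝ × ℝ × ℝ => (z.2.1, z.2.2))
    exact h1.mul h2
  have hK : IsCompact (Icc (-2 : ℝ) 2 ×ˢ Icc (-2 : ℝ) 2 ×ˢ Icc s₀ s₁) :=
    isCompact_Icc.prod (isCompact_Icc.prod isCompact_Icc)
  have hU := hK.uniformContinuousOn_of_continuous hF.continuousOn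
  rw [Metric.uniformContinuousOn_iff] at hU
  obtain ⟨δ, hδ, hU⟩ := hU r hr
  obtain ⟨N, hN⟩ := exists_nat_gt (2 / δ)
  have hNpos : (0 : ℝ) < N := lt_trans (by positivity) hN
  refine ⟨N, by exact_mod_cast hNpos, fun a b s ha hb hab => ?_⟩
  by_cases hs : s ∈ Icc s₀ s₁
  · have ha' : a ∈ Icc (-2 : ℝ) 2 := abs_le.1 ha
    have hb' : b ∈ Icc (-2 : ℝ) 2 := abs_le.1 hb
    have hlt : 2 / (N : ℝ) < δ := by
      rw [div_lt_iff₀ hNpos]
      rw [div_lt_iff₀ hδ] at hN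
      linarith
    have h1 := hU (a, b, s) ⟨ha', hb', hs⟩ (b, b, s) ⟨hb', hb', hs⟩ (by
      rw [Prod.dist_eq, dist_self]
      simp only [Real.dist_eq]
      rw [max_lt_iff]
      exact ⟨lt_of_le_of_lt hab hlt, hδ⟩)
    have h2 : F (b, b, s) = 1 := Ring.mul_inverse_cancel _ (isUnit_of_inj (hM2 _))
    rw [h2, dist_eq_norm] at h1
    exact h1
  · have e : ∀ c, M (c, s) = 1 := fun c => hM3 _ fun h => hs ⟨h.2.1.le, h.2.2.le⟩
    rw [e, e]
    simpa using hr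

end PI2B

open PI2C PI2B

theorem m_PI2B (h : StPI2A) : StPI2B := by
  obtain ⟨r, hr, q, τ, hq, hτ, hq1, hτ1, hA⟩ := h
  intro s₀ s₁ M hs hM
  obtain ⟨N, hN0, hN⟩ := exists_N hM (half_pos hr)
  obtain ⟨hM1, hM2, hM3⟩ := hM
  have hNpos : (0 : ℝ) < N := by exact_mod_cast hN0
  let A : ℕ → ℝ × ℝ → E3 := fun k x => M (k * gg x.1 / N, x.2)
  have hA0 : ∀ x, A 0 x = 1 := by
    intro x
    simp only [A, Nat.cast_zero, zero_mul, zero_div]
    exact hM3 _ fun h => lt_irrefl _ h.1.1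
  have hAs : ∀ k, ContDiff ℝ ∞ (A k) := by
    intro k
    refine hM1.comp (ContDiff.prodMk ?_ contDiff_snd)
    exact (contDiff_const.mul (contDiff_gg.comp contDiff_fst)).div_const _
  have hAu : ∀ k x, IsUnit (A k x) := fun k x => isUnit_of_inj (hM2 _)
  have hst : ∀ k < N, ∀ x, ‖A (k + 1) x * Ring.inverse (A k x) - 1‖ < r / 2 := by
    intro k hk x
    have hg := abs_gg x.1
    have hb : ∀ j : ℕ, j ≤ N → |(j : ℝ) * gg x.1 / N| ≤ 2 := by
      intro j hj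
      rw [abs_div, abs_mul, Nat.abs_cast, Nat.abs_cast, div_le_iff₀ hNpos]
      have : (j : ℝ) ≤ N := by exact_mod_cast hj
      nlinarith [abs_nonneg (gg x.1)]
    refine hN _ _ _ (hb (k + 1) hk) (hb k hk.le) ?_
    have e : ((k + 1 : ℕ) : ℝ) * gg x.1 / N - k * gg x.1 / N = gg x.1 / N := by
      push_cast
      ring
    rw [e, abs_div, Nat.abs_cast]
    gcongr
  have main := seqQ_main hq hτ (fun B hB => ?_) hA0 hAs hAu hst N le_rfl
  swap
  · obtain ⟨h1, h2, h3⟩ := hA B hB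
    exact ⟨h1, h2, ContinuousLinearMap.ext fun v => h3 v⟩
  obtain ⟨hsm, hx⟩ := main
  have hAN : ∀ x, A N x = M x := by
    intro x
    have e : (N : ℝ) * gg x.1 / N = gg x.1 := by field_simp
    simp only [A]
    rw [e]
    rcases le_or_gt x.1 0 with h0 | h0
    · have h1 : M (gg x.1, x.2) = 1 := hM3 _ fun h => absurd h.1.1 (not_lt.2 (gg_nonpos h0).1)
      have h2 : M x = 1 := hM3 _ fun h => absurd h.1.1 (not_lt.2 h0)
      rw [h1, h2]
    · rcases le_or_gt 1 x.1 with h1 | h1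
      · have h2 : M (gg x.1, x.2) = 1 := hM3 _ fun h => absurd h.1.2 (not_lt.2 (gg_one_le h1).1)
        have h3 : M x = 1 := hM3 _ fun h => absurd h.1.2 (not_lt.2 h1)
        rw [h2, h3]
      · rw [gg_mid h0.le h1.le]
  -- where everything is trivial
  have htriv : ∀ x : ℝ × ℝ, (x.1 ≤ 0 ∨ x.2 ∉ Ioo s₀ s₁) → seqQ q τ A N x = ((1, 0), 1) := by
    intro x hx0
    refine seqQ_one hq1 hτ1 (N := N) (fun k _ => ?_) N le_rfl
    rcases hx0 with h0 | h0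
    · refine hM3 _ fun h => absurd h.1.1 (not_lt.2 ?_)
      have := (gg_nonpos h0).1
      exact div_nonpos_of_nonpos_of_nonneg
        (mul_nonpos_of_nonneg_of_nonpos (Nat.cast_nonneg k) this) hNpos.le
    · exact hM3 _ fun h => h0 h.2
  refine ⟨fun x => (seqQ q τ A N x).1, fun x => (seqQ q τ A N x).2, hsm.fst, hsm.snd,
    fun x => (hx x).1, fun x => (hx x).2.1, fun x v => ?_, fun x hxo => ?_⟩
  · have := (hx x).2.2
    rw [hAN] at this
    rw [← this]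
    rfl
  · show (seqQ q τ A N x).1 = (1, 0) ∧ (seqQ q τ A N x).2 = 1
    by_cases hc : x.1 ≤ 0 ∨ x.2 ∉ Ioo s₀ s₁
    · rw [htriv x hc]
      exact ⟨rfl, rfl⟩
    · push Not at hc
      have hx1 : 1 ≤ x.1 := by
        by_contra hlt
        exact hxo ⟨⟨hc.1, not_le.1 hlt⟩, hc.2⟩
      -- the line above the point
      have hval : ∀ s : ℝ, ((seqQ q τ A N (x.1, s)).1 = (1, 0) ∨
          (seqQ q τ A N (x.1, s)).1 = (-1, 0)) ∧ (seqQ q τ A N (x.1, s)).2 = 1 := by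
        intro s
        refine rc_tri_one (hx (x.1, s)).2.1 ?_
        rw [(hx (x.1, s)).2.2, hAN]
        exact hM3 _ fun h => absurd h.1.2 (not_lt.2 hx1)
      refine ⟨?_, (hval x.2).2⟩
      rcases (hval x.2).1 with h1 | h1
      · exact h1
      · exfalso
        let f : ℝ → ℝ := fun s => (seqQ q τ A N (x.1, s)).1.1.re
        have hf : Continuous f := by
          have h2 : Continuous (fun s : ℝ => seqQ q τ A N (x.1, s)) :=
            hsm.continuous.comp (by fun_prop)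
          exact Complex.continuous_re.comp (continuous_fst.comp (continuous_fst.comp h2))
        have ha : f x.2 ≤ 0 := by
          simp only [f, h1]
          simp
        have hb : 0 ≤ f s₀ := by
          have := htriv (x.1, s₀) (Or.inr fun h => lt_irrefl _ h.1)
          simp only [f, this]
          simp
        obtain ⟨s, hs0⟩ := mem_range_of_exists_le_of_exists_ge hf ⟨x.2, ha⟩ ⟨s₀, hb⟩
        rcases (hval s).1 with h3 | h3
        · simp only [f, h3] at hs0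
          simp at hs0
        · simp only [f, h3] at hs0
          simp at hs0

end Pool.Agent.Helper18.BI.H


end

/-! ## Helper27.BI.H.Calc -/

section

/-!
# Project BI, stage 3 (H): calculus of pushes of thick arcs
-/

set_option autoImplicit false
set_option linter.unusedSectionVars false
set_option linter.unusedVariables false

open scoped Manifold ContDiff Topology ComplexConjugate
open Set Filter Pool.Agent.Helper65.Barb Pool.Agent.Helper18.BI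
open Pool.Agent.Helper70.BI (I4 LD Eqv NearEq)

namespace Pool.Agent.Helper27.H

open Pool.Agent.Helper27.BI (step_zero step_one)

theorem DFam.g_eq {F : DFam 𝓘(ℝ, R4) R4} {t : ℝ} {p q : R4} (h : F.f (t, p) = q) :
    F.g (t, q) = p := by rw [← h, F.gf]

section supp
variable {U : Set R4}

theorem SuppU.inv {F : DFam 𝓘(ℝ, R4) R4} (h : SuppU U F) : SuppU U F.inv := by
  obtain ⟨K, hK, hK2, h⟩ := h
  exact ⟨K, hK, hK2, fun t x hx => F.support_inv h t hx⟩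

theorem SuppU.comp {F G : DFam 𝓘(ℝ, R4) R4} (h : SuppU U F) (h' : SuppU U G) :
    SuppU U (F.comp G) := by
  obtain ⟨K, hK, hK2, h⟩ := h
  obtain ⟨K', hK', hK2', h'⟩ := h'
  refine ⟨K ∪ K', hK.union hK', union_subset hK2 hK2', fun t x hx => ?_⟩
  have h1 : x ∉ K := fun hx' => hx (Or.inl hx')
  have h2 : x ∉ K' := fun hx' => hx (Or.inr hx')
  change F.f (t, G.f (t, x)) = x
  rw [h' t x h2, h t x h1]

theorem SuppU.reparam {F : DFam 𝓘(ℝ, R4) R4} (h : SuppU U F) (τ : ℝ → ℝ)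
    (hτ : ContDiff ℝ ∞ τ) : SuppU U (F.reparam τ hτ) := by
  obtain ⟨K, hK, hK2, h⟩ := h
  exact ⟨K, hK, hK2, fun t x hx => h (τ t) x hx⟩

theorem SuppU.freeze {F : DFam 𝓘(ℝ, R4) R4} (h : SuppU U F) (t₀ : ℝ) : SuppU U (F.freeze t₀) :=
  h.reparam _ _

theorem SuppU.mono {U' : Set R4} {F : DFam 𝓘(ℝ, R4) R4} (h : SuppU U F) (hU : U ⊆ U') :
    SuppU U' F := by
  obtain ⟨K, hK, hK2, h⟩ := h
  exact ⟨K, hK, hK2.trans hU, h⟩

theorem suppU_one : SuppU U DFam.one :=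
  ⟨∅, isCompact_empty, empty_subset _, fun _ _ _ => rfl⟩

end supp

section
variable {U L : Set R4} {J₀ J₁ J₂ φ ψ χ φ' ψ' : R4 → R4}

theorem LIso.mono {U' L' : Set R4} (h : LIso U L J₀ J₁ φ ψ) (hU : U ⊆ U') (hL : L' ⊆ L) :
    LIso U' L' J₀ J₁ φ ψ := by
  obtain ⟨F, h0, h1, hs, N, hN, hLN, ht⟩ := h
  exact ⟨F, h0, h1, hs.mono hU, N, hN, hL.trans hLN, ht⟩

theorem LIso.congr {J₀' J₁' : R4 → R4} (h : LIso U L J₀ J₁ φ ψ) (h0 : NearEq J₀ J₀' L)
    (h1 : NearEq J₁ J₁' L) : LIso U L J₀' J₁' φ ψ := by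
  obtain ⟨F, f0, f1, hs, N, hN, hLN, ht⟩ := h
  obtain ⟨N', hN', hL', e'⟩ := h0
  obtain ⟨N'', hN'', hL'', e''⟩ := h1
  refine ⟨F, f0, f1, hs, N ∩ (N' ∩ N''), hN.inter (hN'.inter hN''),
    subset_inter hLN (subset_inter hL' hL''), fun t p hp => ?_⟩
  rw [← e' hp.2.1, ← e'' hp.2.2]
  exact ht t p hp.1

theorem LIso.refl_of (h : LIso U L J₀ J₁ φ ψ) : LIso U L J₀ J₁ φ φ := by
  obtain ⟨F, h0, h1, hs, N, hN, hLN, ht⟩ := h
  exact ⟨F.freeze 0, fun x => h0 x, fun x => h0 x, hs.freeze 0, N, hN, hLN,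
    fun t p hp => ht 0 p hp⟩

theorem LIso.symm (h : LIso U L J₀ J₁ φ ψ) : LIso U L J₀ J₁ ψ φ := by
  obtain ⟨F, h0, h1, hs, N, hN, hLN, ht⟩ := h
  have hτ : ContDiff ℝ ∞ (fun t : ℝ => 1 - t) := contDiff_const.sub contDiff_id
  refine ⟨F.reparam (fun t => 1 - t) hτ, fun x => ?_, fun x => ?_, hs.reparam _ _, N, hN, hLN,
    fun t p hp => ht _ p hp⟩
  · change F.f (1 - 0, x) = _
    rw [sub_zero, h1]
  · change F.f (1 - 1, x) = _
    rw [sub_self, h0]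

theorem LIso.comp (h' : LIso U L J₁ J₂ φ' ψ') (h : LIso U L J₀ J₁ φ ψ) :
    LIso U L J₀ J₂ (fun x => φ' (φ x)) (fun x => ψ' (ψ x)) := by
  obtain ⟨F, h0, h1, hs, N, hN, hLN, ht⟩ := h
  obtain ⟨F', h0', h1', hs', N', hN', hLN', ht'⟩ := h'
  refine ⟨F'.comp F, fun x => ?_, fun x => ?_, hs'.comp hs, N ∩ N', hN.inter hN',
    subset_inter hLN hLN', fun t p hp => ?_⟩
  · change F'.f (0, F.f (0, x)) = _
    rw [h0, h0']
  · change F'.f (1, F.f (1, x)) = _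
    rw [h1, h1']
  · change F'.f (t, F.f (t, _)) = _
    rw [ht t p hp.1, ht' t p hp.2]

theorem LIso.trans (h : LIso U L J₀ J₁ φ ψ) (h' : LIso U L J₀ J₁ ψ χ) :
    LIso U L J₀ J₁ φ χ := by
  obtain ⟨F, h0, h1, hs, N, hN, hLN, ht⟩ := h
  obtain ⟨G, g0, g1, gs, N', hN', hLN', gt⟩ := h'
  refine ⟨G.comp ((F.freeze 1).inv.comp F), fun x => ?_, fun x => ?_,
    gs.comp (((hs.freeze 1).inv).comp hs), N ∩ N', hN.inter hN', subset_inter hLN hLN',
    fun t p hp => ?_⟩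
  · change G.f (0, F.g (1, F.f (0, x))) = _
    rw [g0, ← h1, F.fg, h0]
  · change G.f (1, F.g (1, F.f (1, x))) = _
    rw [F.gf, g1]
  · change G.f (t, F.g (1, F.f (t, _))) = _
    rw [ht t p hp.1, DFam.g_eq (ht 1 p hp.1), gt t p hp.2]

/-- a member of an isotopy has an inverse of the same kind -/
theorem LIso.exists_inv (h : LIso U L J₀ J₁ φ φ) :
    ∃ φ' : R4 → R4, LIso U L J₁ J₀ φ' φ' ∧ (∀ x, φ (φ' x) = x) ∧ ∀ x, φ' (φ x) = x := by
  obtain ⟨F, h0, h1, hs, N, hN, hLN, ht⟩ := h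
  refine ⟨fun x => F.g (0, x), ⟨F.inv.freeze 0, fun x => rfl, fun x => rfl,
    (hs.inv).freeze 0, N, hN, hLN, fun t p hp => DFam.g_eq (ht 0 p hp)⟩, fun x => ?_, fun x => ?_⟩
  · have := F.fg 0 x
    rwa [h0] at this
  · have := F.gf 0 x
    rwa [h0] at this

theorem LIso.inv (h : LIso U L J₀ J₁ φ ψ) (hφ : ∀ x, φ (φ' x) = x) (hψ : ∀ x, ψ (ψ' x) = x) :
    LIso U L J₁ J₀ φ' ψ' := by
  obtain ⟨F, h0, h1, hs, N, hN, hLN, ht⟩ := h
  refine ⟨F.inv, fun x => ?_, fun x => ?_, hs.inv, N, hN, hLN, fun t p hp => DFam.g_eq (ht t p hp)⟩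
  · have := F.gf 0 (φ' x)
    rw [h0, hφ] at this
    exact this
  · have := F.gf 1 (ψ' x)
    rw [h1, hψ] at this
    exact this

theorem LIso.one (J : R4 → R4) : LIso U L J J (fun x => x) (fun x => x) :=
  ⟨DFam.one, fun _ => rfl, fun _ => rfl, suppU_one, univ, isOpen_univ, subset_univ _,
    fun _ _ _ => rfl⟩

/-- the relation does not depend on the representing functions -/
theorem LIso.congr_fun (h : LIso U L J₀ J₁ φ ψ) (h1 : ∀ x, φ x = φ' x) (h2 : ∀ x, ψ x = ψ' x) :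
    LIso U L J₀ J₁ φ' ψ' := by
  rwa [funext h1, funext h2] at h

/-! ### pushes -/

theorem LPush.mono {U' L' : Set R4} {J : ℝ → R4 → R4} {Θ : R4 → R4} (h : LPush U L J Θ)
    (hU : U ⊆ U') (hL : L' ⊆ L) : LPush U' L' J Θ := by
  obtain ⟨F, h0', h1, hs, N, hN, hLN, ht⟩ := h
  exact ⟨F, h0', h1, hs.mono hU, N, hN, hL.trans hLN, ht⟩

/-- A push carries the initial germ to the final one. -/
theorem LPush.lIso {J : ℝ → R4 → R4} {Θ : R4 → R4} (h : LPush U L J Θ) :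
    LIso U L (J 0) (J 1) Θ Θ := by
  obtain ⟨F, h0, h1, hs, N, hN, hLN, ht⟩ := h
  have h01 : (1 : ℝ) ∈ Icc (0 : ℝ) 1 := by simp
  refine ⟨F.freeze 1, fun x => h1 x, fun x => h1 x, hs.freeze 1, N, hN, hLN, fun t p hp => ?_⟩
  change F.f (1, _) = _
  rw [ht 1 h01 p hp, step_one]

/-- Two pushes along the same path of germs are isotopic. -/
theorem LPush.unique {J : ℝ → R4 → R4} {Θ Θ' : R4 → R4} (h : LPush U L J Θ)
    (h' : LPush U L J Θ') : LIso U L (J 0) (J 1) Θ Θ' := by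
  obtain ⟨F, h0, h1, hs, N, hN, hLN, ht⟩ := h
  obtain ⟨G, g0, g1, gs, N', hN', hLN', gt⟩ := h'
  have h01 : (1 : ℝ) ∈ Icc (0 : ℝ) 1 := by simp
  have hst : ∀ t, step t ∈ Icc (0 : ℝ) 1 := step_mem
  refine ⟨(F.freeze 1).comp ((F.reparam step contDiff_step).inv.comp
    (G.reparam step contDiff_step)), fun x => ?_, fun x => ?_,
    (hs.freeze 1).comp (((hs.reparam _ _).inv).comp (gs.reparam _ _)), N ∩ N', hN.inter hN',
    subset_inter hLN hLN', fun t p hp => ?_⟩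
  · change F.f (1, F.g (step 0, G.f (step 0, x))) = _
    rw [step_zero, g0, DFam.g_eq (h0 x), h1]
  · change F.f (1, F.g (step 1, G.f (step 1, x))) = _
    rw [step_one, F.fg, g1]
  · change F.f (1, F.g (step t, G.f (step t, _))) = _
    rw [gt _ (hst t) p hp.2, DFam.g_eq (ht _ (hst t) p hp.1), ht 1 h01 p hp.1, step_one]

/-- A push along the reversed path. -/
theorem LPush.reverse {J : ℝ → R4 → R4} {Θ Θ' : R4 → R4} (h : LPush U L J Θ)
    (hΘ : ∀ x, Θ (Θ' x) = x) : LPush U L (fun q => J (1 - q)) Θ' := by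
  obtain ⟨F, h0, h1, hs, N, hN, hLN, ht⟩ := h
  have h01 : (1 : ℝ) ∈ Icc (0 : ℝ) 1 := by simp
  have hτ : ContDiff ℝ ∞ (fun t : ℝ => 1 - t) := contDiff_const.sub contDiff_id
  have hΘ' : ∀ x, F.g (1, x) = Θ' x := fun x => DFam.g_eq (by rw [h1, hΘ])
  have hm : ∀ t ∈ Icc (0 : ℝ) 1, 1 - t ∈ Icc (0 : ℝ) 1 := by
    rintro t ⟨h1, h2⟩; constructor <;> linarith
  refine ⟨(F.reparam (fun t => 1 - t) hτ).comp (F.freeze 1).inv, fun x => ?_, fun x => ?_,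
    (hs.reparam _ _).comp (hs.freeze 1).inv, N, hN, hLN, fun t ht' p hp => ?_⟩
  · change F.f (1 - 0, F.g (1, x)) = _
    rw [sub_zero, F.fg]
  · change F.f (1 - 1, F.g (1, x)) = _
    rw [sub_self, h0, hΘ']
  · change F.f (1 - t, F.g (1, J (1 - 0) p)) = J (1 - step t) p
    have e := ht 1 h01 p hp
    rw [step_one] at e
    rw [sub_zero, DFam.g_eq e, ht _ (hm t ht') p hp, step_symm]

/-- The push along a constant path. -/
theorem LPush.const (J : R4 → R4) : LPush U L (fun _ => J) (fun x => x) :=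
  ⟨DFam.one, fun _ => rfl, fun _ => rfl, suppU_one, univ, isOpen_univ, subset_univ _,
    fun _ _ _ _ => rfl⟩

theorem LPush.congr {J J' : ℝ → R4 → R4} {Θ : R4 → R4} (h : LPush U L J Θ)
    (hJ : ∃ N : Set R4, IsOpen N ∧ L ⊆ N ∧ ∀ q ∈ Icc (0 : ℝ) 1, ∀ p ∈ N, J q p = J' q p) :
    LPush U L J' Θ := by
  obtain ⟨F, h0, h1, hs, N, hN, hLN, ht⟩ := h
  obtain ⟨N', hN', hLN', e'⟩ := hJ
  refine ⟨F, h0, h1, hs, N ∩ N', hN.inter hN', subset_inter hLN hLN', fun t ht' p hp => ?_⟩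
  have e := ht t ht' p hp.1
  rw [e' 0 (by simp) p hp.2, e' (step t) (step_mem t) p hp.2] at e
  exact e

/-- The push along a path which is constant near `L`. -/
theorem LPush.const_of {J : ℝ → R4 → R4}
    (hJ : ∃ N : Set R4, IsOpen N ∧ L ⊆ N ∧ ∀ q ∈ Icc (0 : ℝ) 1, ∀ p ∈ N, J q p = J 0 p) :
    LPush U L J (fun x => x) := by
  refine (LPush.const (U := U) (L := L) (J 0)).congr ?_
  obtain ⟨N, hN, hLN, h⟩ := hJ
  exact ⟨N, hN, hLN, fun q hq p hp => (h q hq p hp).symm⟩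

/-- Transport of a push by a diffeomorphism of the support. -/
theorem LPush.conj {J : ℝ → R4 → R4} {Θ Ψ Ψ' : R4 → R4} (h : LPush U L J Θ) {A B : R4 → R4}
    {L' U' : Set R4} (hΨ : LIso U' L' A B Ψ Ψ) (hi : ∀ x, Ψ (Ψ' x) = x) (hU : U ⊆ U') :
    LPush U' L (fun q p => Ψ (J q p)) (fun x => Ψ (Θ (Ψ' x))) := by
  obtain ⟨F, h0, h1, hs, N, hN, hLN, ht⟩ := h
  obtain ⟨G, g0, g1, gs, -⟩ := hΨ
  have gi : ∀ x, G.g (0, x) = Ψ' x := fun x => DFam.g_eq (by rw [g0, hi])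
  refine ⟨(G.freeze 0).comp (F.comp (G.freeze 0).inv), fun x => ?_, fun x => ?_,
    (gs.freeze 0).comp ((hs.mono hU).comp (gs.freeze 0).inv), N, hN, hLN, fun t ht' p hp => ?_⟩
  · change G.f (0, F.f (0, G.g (0, x))) = _
    rw [h0, G.fg]
  · change G.f (0, F.f (1, G.g (0, x))) = _
    rw [h1, gi, g0]
  · change G.f (0, F.f (t, G.g (0, Ψ (J 0 p)))) = Ψ (J (step t) p)
    rw [← g0 (J 0 p), G.gf, ht t ht' p hp, g0]

/-- A push followed by a smooth family of diffeomorphisms `Q q` (given at time `t` by `G.f (t, ·)`). -/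
theorem LPush.mul_fam {J : ℝ → R4 → R4} {Θ : R4 → R4} (h : LPush U L J Θ)
    {G : DFam 𝓘(ℝ, R4) R4} (hG : SuppU U G) {Q : ℝ → R4 → R4}
    (hQ : ∀ t ∈ Icc (0 : ℝ) 1, ∀ x, G.f (t, x) = Q (step t) x) :
    LPush U L (fun q p => Q q (J q p)) (fun x => G.f (1, Θ (G.g (0, x)))) := by
  obtain ⟨F, h0, h1, hs, N, hN, hLN, ht⟩ := h
  refine ⟨G.comp (F.comp (G.freeze 0).inv), fun x => ?_, fun x => ?_,
    hG.comp (hs.comp (hG.freeze 0).inv), N, hN, hLN, fun t ht' p hp => ?_⟩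
  · change G.f (0, F.f (0, G.g (0, x))) = _
    rw [h0, G.fg]
  · change G.f (1, F.f (1, G.g (0, x))) = _
    rw [h1]
  · change G.f (t, F.f (t, G.g (0, Q 0 (J 0 p)))) = Q (step t) (J (step t) p)
    have e0 := hQ 0 (by simp) (J 0 p)
    rw [step_zero] at e0
    rw [← e0, G.gf, ht t ht' p hp, hQ t ht']

/-- precomposition of the germs with a map preserving `L` -/
theorem LPush.precomp {J : ℝ → R4 → R4} {Θ : R4 → R4} (h : LPush U L J Θ) {L' : Set R4}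
    {m : R4 → R4} (hm : ∀ p ∈ L', ContinuousAt m p) (hL : ∀ p ∈ L', m p ∈ L) :
    LPush U L' (fun q p => J q (m p)) Θ := by
  obtain ⟨F, h0, h1, hs, N, hN, hLN, ht⟩ := h
  refine ⟨F, h0, h1, hs, interior (m ⁻¹' N), isOpen_interior, fun p hp => ?_,
    fun t ht' p hp => ht t ht' (m p) ?_⟩
  · exact mem_interior_iff_mem_nhds.2 ((hm p hp).preimage_mem_nhds (hN.mem_nhds (hLN (hL p hp))))
  · have : p ∈ m ⁻¹' N := interior_subset hp
    exact this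

theorem LIso.precomp {L' : Set R4} (h : LIso U L J₀ J₁ φ ψ) {m : R4 → R4}
    (hm : ∀ p ∈ L', ContinuousAt m p) (hL : ∀ p ∈ L', m p ∈ L) :
    LIso U L' (fun p => J₀ (m p)) (fun p => J₁ (m p)) φ ψ := by
  obtain ⟨F, h0, h1, hs, N, hN, hLN, ht⟩ := h
  refine ⟨F, h0, h1, hs, interior (m ⁻¹' N), isOpen_interior, fun p hp => ?_,
    fun t p hp => ht t (m p) ?_⟩
  · exact mem_interior_iff_mem_nhds.2 ((hm p hp).preimage_mem_nhds (hN.mem_nhds (hLN (hL p hp))))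
  · have : p ∈ m ⁻¹' N := interior_subset hp
    exact this

/-! ### existence of pushes, the square lemma -/

theorem isCompact_Q2 : IsCompact Q2 := isCompact_Icc.prod isCompact_Icc

theorem convex_Q2 : Convex ℝ Q2 := (convex_Icc 0 1).prod (convex_Icc 0 1)

theorem Fam2.mono {Q Q' : Set (ℝ × ℝ)} {L L' V V' U U' : Set R4} {J : ℝ × ℝ → R4 → R4}
    (h : Fam2 Q L V U J) (hQ : Q' ⊆ Q) (hL : L' ⊆ L) (hV : V' ⊆ V) (hU : U ⊆ U')
    (hV' : ∀ a ∈ Q', ∀ p ∈ L', p ∈ V → p ∉ V' → J a p ∈ U') : Fam2 Q' L' V' U' J where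
  smooth a ha p hp := h.smooth a (hQ ha) p (hL hp)
  emb a ha := ⟨fun p hp => (h.emb a (hQ ha)).1 p (hL hp), (h.emb a (hQ ha)).2.mono hL⟩
  froz a ha b hb p hp := h.froz a (hQ ha) b (hQ hb) p (hV hp)
  inU a ha p hp hpV := by
    by_cases h1 : p ∈ V
    · exact hV' a ha p hp h1 hpV
    · exact hU (h.inU a (hQ ha) p (hL hp) h1)

/-- reparametrization of a family by a smooth map of the parameters -/
theorem Fam2.comp {Q Q' : Set (ℝ × ℝ)} {L V U : Set R4} {J : ℝ × ℝ → R4 → R4}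
    (h : Fam2 Q L V U J) {θ : ℝ × ℝ → ℝ × ℝ} (hθ : ContDiff ℝ ∞ θ)
    (hm : ∀ a ∈ Q', θ a ∈ Q) : Fam2 Q' L V U (fun a => J (θ a)) where
  smooth a ha p hp := by
    have h1 := h.smooth (θ a) (hm a ha) p hp
    have h3 : Continuous (fun z : (ℝ × ℝ) × R4 => (θ z.1, z.2)) :=
      (hθ.continuous.comp continuous_fst).prodMk continuous_snd
    have h5 : ContDiff ℝ ∞ (fun z : (ℝ × ℝ) × R4 => (θ z.1, z.2)) :=
      (hθ.comp contDiff_fst).prodMk contDiff_snd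
    filter_upwards [(h3.continuousAt (x := (a, p))).eventually h1] with z e1
    exact ContDiffAt.comp (g := fun z : (ℝ × ℝ) × R4 => J z.1 z.2)
      (f := fun z : (ℝ × ℝ) × R4 => (θ z.1, z.2)) z e1 h5.contDiffAt
  emb a ha := h.emb _ (hm a ha)
  froz a ha b hb p hp := h.froz _ (hm a ha) _ (hm b hb) p hp
  inU a ha p hp hpV := h.inU _ (hm a ha) p hp hpV

section ex
variable (hCh : StCH4) {V : Set R4} (hL : IsCompact L) (hV : IsOpen V) (hU : IsOpen U)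
include hCh hL hV hU

/-- Existence of pushes along straight segments of parameters. -/
theorem exists_lpush {Q : Set (ℝ × ℝ)} (hQ : IsCompact Q) (hQc : Convex ℝ Q)
    {J : ℝ × ℝ → R4 → R4} (h : Fam2 Q L V U J) {a b : ℝ × ℝ} (ha : a ∈ Q) (hb : b ∈ Q) :
    ∃ Θ, LPush U L (fun q => J (a + q • (b - a))) Θ := by
  obtain ⟨P, hP, N, hN, hLN, K, hK, hKU, hPF⟩ := hCh Q L V U J hQ hQc hL hV hU h
  have hst : ∀ t, a + step t • (b - a) ∈ Q := fun t =>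
    hQc.add_smul_sub_mem ha hb (step_mem t)
  have hcs : ContDiff ℝ ∞ (fun t : ℝ => a + step t • (b - a)) :=
    contDiff_const.add (contDiff_step.smul contDiff_const)
  obtain ⟨F, hF, hs, ht⟩ := hPF (fun _ => a) (fun t => a + step t • (b - a)) contDiff_const hcs
    (fun _ => ha) hst
  refine ⟨fun x => F.f (1, x), F, fun x => ?_, fun x => rfl, ⟨K, hK, hKU, hs⟩, N, hN, hLN,
    fun t _ p hp => ?_⟩
  · rw [hF, step_zero, zero_smul, add_zero, hP a ha]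
  · simp only [zero_smul, add_zero]
    exact ht t p hp

/-- Existence of pushes for one-parameter families. -/
theorem exists_lpush1 {J : ℝ → R4 → R4} (h : Fam2 Q2 L V U (fun a => J a.2)) :
    ∃ Θ, LPush U L J Θ := by
  obtain ⟨Θ, h1⟩ := exists_lpush hCh hL hV hU isCompact_Q2 convex_Q2 h
    (a := (0, 0)) (b := (0, 1)) (by simp [Q2]) (by simp [Q2])
  refine ⟨Θ, h1.congr ⟨univ, isOpen_univ, subset_univ _, fun q _ p _ => ?_⟩⟩
  simp

/-- The triangle lemma: pushes along the two ways around a triangle of parameters. -/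
theorem triangle4 {Q : Set (ℝ × ℝ)} (hQ : IsCompact Q) (hQc : Convex ℝ Q)
    {J : ℝ × ℝ → R4 → R4} (h : Fam2 Q L V U J) {a b c : ℝ × ℝ} (ha : a ∈ Q) (hb : b ∈ Q)
    (hc : c ∈ Q) {Θ1 Θ2 Θ3 : R4 → R4}
    (h1 : LPush U L (fun q => J (a + q • (b - a))) Θ1)
    (h2 : LPush U L (fun q => J (b + q • (c - b))) Θ2)
    (h3 : LPush U L (fun q => J (a + q • (c - a))) Θ3) :
    LIso U L (J a) (J c) (fun x => Θ2 (Θ1 x)) Θ3 := by
  obtain ⟨P, hP, N, hN, hLN, K, hK, hKU, hPF⟩ := hCh Q L V U J hQ hQc hL hV hU h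
  have edge : ∀ a b : ℝ × ℝ, a ∈ Q → b ∈ Q → ∀ Θ : R4 → R4,
      LPush U L (fun q => J (a + q • (b - a))) Θ → LIso U L (J a) (J b) Θ (P a b) := by
    intro a b ha hb Θ hΘ
    have hst : ∀ t, a + step t • (b - a) ∈ Q := fun t =>
      hQc.add_smul_sub_mem ha hb (step_mem t)
    have hcs : ContDiff ℝ ∞ (fun t : ℝ => a + step t • (b - a)) :=
      contDiff_const.add (contDiff_step.smul contDiff_const)
    obtain ⟨F, hF, hs, ht⟩ := hPF (fun _ => a) (fun t => a + step t • (b - a)) contDiff_const hcs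
      (fun _ => ha) hst
    have hpush : LPush U L (fun q => J (a + q • (b - a))) (P a b) := by
      refine ⟨F, fun x => ?_, fun x => ?_, ⟨K, hK, hKU, hs⟩, N, hN, hLN, fun t _ p hp => ?_⟩
      · rw [hF, step_zero, zero_smul, add_zero, hP a ha]
      · rw [hF, step_one, one_smul, add_sub_cancel]
      · simp only [zero_smul, add_zero]
        exact ht t p hp
    have e := hΘ.unique hpush
    simp only [zero_smul, add_zero, one_smul, add_sub_cancel] at e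
    exact e
  have tri : LIso U L (J a) (J c) (fun x => P b c (P a b x)) (P a c) := by
    have hm : ∀ t, b + step t • (a - b) ∈ Q := fun t => hQc.add_smul_sub_mem hb ha (step_mem t)
    have hms : ContDiff ℝ ∞ (fun t : ℝ => b + step t • (a - b)) :=
      contDiff_const.add (contDiff_step.smul contDiff_const)
    obtain ⟨F, hF, hs, ht⟩ := hPF (fun _ => a) (fun t => b + step t • (a - b)) contDiff_const hms
      (fun _ => ha) hm
    obtain ⟨G, hG, gs, gt⟩ := hPF (fun t => b + step t • (a - b)) (fun _ => c) hms contDiff_const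
      hm (fun _ => hc)
    refine ⟨G.comp F, fun x => ?_, fun x => ?_, SuppU.comp ⟨K, hK, hKU, gs⟩ ⟨K, hK, hKU, hs⟩,
      N, hN, hLN, fun t p hp => ?_⟩
    · change G.f (0, F.f (0, x)) = _
      rw [hF, hG, step_zero, zero_smul, add_zero]
    · change G.f (1, F.f (1, x)) = _
      rw [hF, hG, step_one, one_smul, add_sub_cancel, hP a ha]
    · change G.f (t, F.f (t, _)) = _
      rw [ht t p hp, gt t p hp]
  exact ((edge b c hb hc Θ2 h2).comp (edge a b ha hb Θ1 h1)).trans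
    (tri.trans (edge a c ha hc Θ3 h3).symm)

/-- The square lemma. -/
theorem square4 {J : ℝ → ℝ → R4 → R4} (h : Fam2 Q2 L V U (fun a => J a.1 a.2))
    {Θ1 Θ2 Θ3 Θ4 : R4 → R4} (h1 : LPush U L (fun q => J 0 q) Θ1)
    (h2 : LPush U L (fun u => J u 1) Θ2) (h3 : LPush U L (fun u => J u 0) Θ3)
    (h4 : LPush U L (fun q => J 1 q) Θ4) :
    LIso U L (J 0 0) (J 1 1) (fun x => Θ2 (Θ1 x)) (fun x => Θ4 (Θ3 x)) := by
  have m00 : ((0 : ℝ), (0 : ℝ)) ∈ Q2 := by simp [Q2]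
  have m01 : ((0 : ℝ), (1 : ℝ)) ∈ Q2 := by simp [Q2]
  have m10 : ((1 : ℝ), (0 : ℝ)) ∈ Q2 := by simp [Q2]
  have m11 : ((1 : ℝ), (1 : ℝ)) ∈ Q2 := by simp [Q2]
  obtain ⟨Θ5, h5⟩ := exists_lpush hCh hL hV hU isCompact_Q2 convex_Q2 h m00 m11
  have t1 := triangle4 hCh hL hV hU isCompact_Q2 convex_Q2 h m00 m01 m11
    (h1.congr ⟨univ, isOpen_univ, subset_univ _, fun q _ p _ => by simp⟩)
    (h2.congr ⟨univ, isOpen_univ, subset_univ _, fun q _ p _ => by simp⟩) h5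
  have t2 := triangle4 hCh hL hV hU isCompact_Q2 convex_Q2 h m00 m10 m11
    (h3.congr ⟨univ, isOpen_univ, subset_univ _, fun q _ p _ => by simp⟩)
    (h4.congr ⟨univ, isOpen_univ, subset_univ _, fun q _ p _ => by simp⟩) h5
  exact t1.trans t2.symm

/-- A homotopy of paths of germs with constant ends does not change the push. -/
theorem push_htpy {J : ℝ → ℝ → R4 → R4} (h : Fam2 Q2 L V U (fun a => J a.1 a.2))
    (h0 : ∃ N : Set R4, IsOpen N ∧ L ⊆ N ∧ ∀ u ∈ Icc (0 : ℝ) 1, ∀ p ∈ N, J u 0 p = J 0 0 p)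
    (h1 : ∃ N : Set R4, IsOpen N ∧ L ⊆ N ∧ ∀ u ∈ Icc (0 : ℝ) 1, ∀ p ∈ N, J u 1 p = J 0 1 p)
    {Θ Θ' : R4 → R4} (hΘ : LPush U L (fun q => J 0 q) Θ) (hΘ' : LPush U L (fun q => J 1 q) Θ') :
    LIso U L (J 0 0) (J 0 1) Θ Θ' := by
  have e := square4 hCh hL hV hU h hΘ (LPush.const_of (J := fun u => J u 1) h1)
    (LPush.const_of (J := fun u => J u 0) h0) hΘ'
  obtain ⟨N, hN, hLN, hh⟩ := h1
  exact e.congr ⟨univ, isOpen_univ, subset_univ _, fun _ _ => rfl⟩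
    ⟨N, hN, hLN, fun p hp => hh 1 (by simp) p hp⟩

/-- Reparametrization of the path. -/
theorem push_reparam {J : ℝ → R4 → R4} (h : Fam2 Q2 L V U (fun a => J a.2)) {ϑ : ℝ → ℝ}
    (hϑ : ContDiff ℝ ∞ ϑ) (hm : ∀ q ∈ Icc (0 : ℝ) 1, ϑ q ∈ Icc (0 : ℝ) 1) (h0 : ϑ 0 = 0)
    (h1 : ϑ 1 = 1) {Θ Θ' : R4 → R4} (hΘ : LPush U L J Θ)
    (hΘ' : LPush U L (fun q => J (ϑ q)) Θ') : LIso U L (J 0) (J 1) Θ Θ' := by
  have hfam : Fam2 Q2 L V U (fun a => J ((1 - a.1) * a.2 + a.1 * ϑ a.2)) := by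
    have hsm : ContDiff ℝ ∞ (fun a : ℝ × ℝ => ((0 : ℝ), (1 - a.1) * a.2 + a.1 * ϑ a.2)) := by
      have : ContDiff ℝ ∞ (fun a : ℝ × ℝ => ϑ a.2) := hϑ.comp contDiff_snd
      fun_prop
    refine h.comp (θ := fun a => ((0 : ℝ), (1 - a.1) * a.2 + a.1 * ϑ a.2))
      hsm ?_
    rintro ⟨u, q⟩ ⟨⟨hu1, hu2⟩, hq⟩
    obtain ⟨h3, h4⟩ := hm q hq
    obtain ⟨hq1, hq2⟩ := hq
    simp only at hu1 hu2 hq1 hq2 h3 h4
    refine ⟨by simp, ?_, ?_⟩ <;> simp only <;> nlinarith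
  have e := push_htpy hCh hL hV hU (J := fun u q => J ((1 - u) * q + u * ϑ q)) hfam
    ⟨univ, isOpen_univ, subset_univ _, fun u _ p _ => by simp [h0]⟩
    ⟨univ, isOpen_univ, subset_univ _, fun u _ p _ => by simp [h1]⟩
    (hΘ.congr ⟨univ, isOpen_univ, subset_univ _, fun q _ p _ => by simp⟩)
    (hΘ'.congr ⟨univ, isOpen_univ, subset_univ _, fun q _ p _ => by simp⟩)
  simpa using e

end ex

end

end Pool.Agent.Helper27.H


end

/-! ## Helper18.BI.H.PI2Adapt -/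

section

set_option autoImplicit false

open scoped Manifold ContDiff Topology ComplexConjugate
open Set Pool.Agent.Helper65.Barb Pool.Agent.Helper18.BI

namespace Pool.Agent.Helper18.BI.H

theorem inj_of_det_pos {A : R3 →L[ℝ] R3} (h : 0 < A.det) (v : R3) (hv : A v = 0) : v = 0 := by
  have h1 : IsUnit (LinearMap.det (A : R3 →ₗ[ℝ] R3)) := by
    have : LinearMap.det (A : R3 →ₗ[ℝ] R3) = A.det := rfl
    rw [this]
    exact h.ne'.isUnit
  have h2 := LinearMap.isUnit_iff_isUnit_det (A : R3 →ₗ[ℝ] R3) |>.2 h1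
  have h3 : Function.Injective (A : R3 →ₗ[ℝ] R3) := by
    have := (Module.End.isUnit_iff _).1 h2
    exact this.injective
  apply h3
  rw [map_zero]
  exact hv

theorem det_ne_zero_of_inj {A : R3 →L[ℝ] R3} (h : ∀ v, A v = 0 → v = 0) : A.det ≠ 0 := by
  have h1 : Function.Injective (A : R3 →ₗ[ℝ] R3) := by
    rw [← LinearMap.ker_eq_bot, LinearMap.ker_eq_bot']
    exact fun v hv => h v hv
  have h2 : Function.Bijective (A : R3 →ₗ[ℝ] R3) :=
    ⟨h1, LinearMap.surjective_of_injective h1⟩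
  have h3 := (LinearMap.isUnit_iff_isUnit_det (A : R3 →ₗ[ℝ] R3)).1 ((Module.End.isUnit_iff _).2 h2)
  exact h3.ne_zero

theorem pi2_adapt (h : StPI2) : Pool.Agent.Helper27.H.StPI2 := by
  intro M hM hdet h1
  have hoff : ∀ x : ℝ × ℝ, x ∉ Ioo (0 : ℝ) 1 ×ˢ Ioo (0 : ℝ) 1 →
      M x = ContinuousLinearMap.id ℝ (ℝ × ℂ) := by
    intro x hx
    have hcl : IsClosed {x : ℝ × ℝ | M x = ContinuousLinearMap.id ℝ (ℝ × ℂ)} :=
      isClosed_eq hM.continuous continuous_const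
    have hsub : (Pool.Agent.Helper27.H.Q2)ᶜ ⊆
        {x : ℝ × ℝ | M x = ContinuousLinearMap.id ℝ (ℝ × ℂ)} := fun y hy => h1 y hy
    have h2 := closure_minimal hsub hcl
    apply h2
    rw [closure_compl]
    intro hx'
    apply hx
    have : interior Pool.Agent.Helper27.H.Q2 = Ioo (0 : ℝ) 1 ×ˢ Ioo (0 : ℝ) 1 := by
      rw [Pool.Agent.Helper27.H.Q2, interior_prod_eq, interior_Icc]
    rwa [this] at hx'
  obtain ⟨Γ, hΓ, hinj, h0, h1', hb⟩ := h 0 1 M one_pos ⟨hM, fun x v hv =>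
    inj_of_det_pos (hdet x) v hv, hoff⟩
  refine ⟨fun z => Γ z, hΓ, ?_, h0, h1', fun t x hx => hb t x (fun hx' => hx ?_)⟩
  · have hc : Continuous fun z => (Γ z).det :=
      ContinuousLinearMap.continuous_det.comp hΓ.continuous
    have hne : ∀ z, (Γ z).det ≠ 0 := fun z => det_ne_zero_of_inj (hinj z)
    intro z
    by_contra hz
    have hz' : (Γ z).det < 0 := lt_of_le_of_ne (not_lt.1 hz) (hne z)
    have hp : 0 < (Γ (1, (0, 0))).det := by
      rw [h1']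
      have : (ContinuousLinearMap.id ℝ (ℝ × ℂ)).det = 1 := by
        change LinearMap.det (LinearMap.id : (ℝ × ℂ) →ₗ[ℝ] (ℝ × ℂ)) = 1
        exact LinearMap.det_id
      rw [this]
      exact one_pos
    obtain ⟨y, hy⟩ := mem_range_of_exists_le_of_exists_ge hc ⟨z, hz'.le⟩ ⟨_, hp.le⟩
    exact hne y hy
  · exact prod_mono Ioo_subset_Icc_self Ioo_subset_Icc_self hx'

end Pool.Agent.Helper18.BI.H


end

/-! ## Helper18.BI.H.AsmPI2 -/

section

set_option autoImplicit false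

namespace Pool.Agent.Helper18.BI.H

theorem hPI2 : StPI2 := m_PI2 (m_PI2B m_PI2A)

/-- `π₂` of the group of linear maps of three-space with positive determinant is trivial. -/
theorem hPI2' : Pool.Agent.Helper27.H.StPI2 := pi2_adapt hPI2

end Pool.Agent.Helper18.BI.H


end

/-! ## Helper27.BI.H.Cls -/

section

/-!
# Project BI, stage 3 (H): the class of a loop of arcs
-/

set_option autoImplicit false

open scoped Manifold ContDiff Topology ComplexConjugate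
open Set Filter Pool.Agent.Helper65.Barb Pool.Agent.Helper18.BI
open Pool.Agent.Helper70.BI (I4 LD Eqv NearEq ld_iff)

namespace Pool.Agent.Helper27.H

theorem isCompact_seg (s₀ s₁ : ℝ) : IsCompact (seg s₀ s₁) := by
  have h : seg s₀ s₁ = (fun s : ℝ => ((s, 0) : R4)) '' Icc s₀ s₁ := by
    ext ⟨s, x⟩
    constructor
    · rintro ⟨h1, h2, h3⟩
      refine ⟨s, ⟨h1, h2⟩, ?_⟩
      simp only at h3
      rw [h3]
    · rintro ⟨t, ⟨h1, h2⟩, h3⟩
      have e1 : t = s := congrArg Prod.fst h3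
      have e2 : (0 : ℝ × ℂ) = x := congrArg Prod.snd h3
      subst e1
      exact ⟨h1, h2, e2.symm⟩
  rw [h]
  exact isCompact_Icc.image (by fun_prop)

theorem mem_seg {s₀ s₁ s : ℝ} (h : s ∈ Icc s₀ s₁) : ((s, 0) : R4) ∈ seg s₀ s₁ :=
  ⟨h.1, h.2, rfl⟩

theorem eq_of_mem_seg {s₀ s₁ : ℝ} {p : R4} (h : p ∈ seg s₀ s₁) :
    p.1 ∈ Icc s₀ s₁ ∧ p = (p.1, 0) := by
  obtain ⟨h1, h2, h3⟩ := h
  refine ⟨⟨h1, h2⟩, ?_⟩
  rw [← h3]

theorem nearEq_refl (F : R4 → R4) (L : Set R4) : NearEq F F L :=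
  ⟨univ, isOpen_univ, subset_univ _, fun _ _ => rfl⟩

theorem nearEq_trans {F G H : R4 → R4} {L : Set R4} (h : NearEq F G L) (h' : NearEq G H L) :
    NearEq F H L := by
  obtain ⟨U, h1, h2, h3⟩ := h
  obtain ⟨U', h1', h2', h3'⟩ := h'
  exact ⟨U ∩ U', h1.inter h1', subset_inter h2 h2', fun p hp => (h3 hp.1).trans (h3' hp.2)⟩

theorem nearEq_eq {F G : R4 → R4} {L : Set R4} (h : NearEq F G L) {p : R4} (hp : p ∈ L) :
    F p = G p := by
  obtain ⟨U, h1, h2, h3⟩ := h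
  exact h3 (h2 hp)

/-- a constant family -/
theorem fam2_const {Q : Set (ℝ × ℝ)} {L V U : Set R4} {G : R4 → R4} (hG : EmbOn I4 G L)
    (h : ∀ p ∈ L, p ∉ V → G p ∈ U) : Fam2 Q L V U (fun _ => G) where
  smooth a _ p hp := by
    have h1 := (ld_iff.1 (hG.1 p hp)).1
    have h3 : ContinuousAt (fun z : (ℝ × ℝ) × R4 => z.2) (a, p) := continuousAt_snd
    filter_upwards [h3.eventually h1] with z e1
    exact e1.comp z contDiffAt_snd
  emb _ _ := hG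
  froz _ _ _ _ _ _ := rfl
  inU _ _ p hp hpV := h p hp hpV

namespace ArcD
variable (D : ArcD)

theorem isCompact_L : IsCompact D.L := isCompact_seg _ _

theorem isOpen_V : IsOpen D.V :=
  (isOpen_lt continuous_fst continuous_const).union (isOpen_lt continuous_const continuous_fst)

theorem le₀₁ : D.s₀ ≤ D.s₁ := (D.h₀.trans (D.h₁.trans D.h₂)).le

theorem mem_V₀ : ((D.s₀, 0) : R4) ∈ D.V := Or.inl D.h₀

theorem mem_V₁ : ((D.s₁, 0) : R4) ∈ D.V := Or.inr D.h₂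

theorem mem_L {s : ℝ} (h : s ∈ Icc D.s₀ D.s₁) : ((s, 0) : R4) ∈ D.L := mem_seg h

theorem core_mem {p : R4} (h : p ∈ D.L) (h0 : p ≠ (D.s₀, 0)) (h1 : p ≠ (D.s₁, 0)) :
    D.J p ∈ D.U := by
  obtain ⟨⟨h2, h3⟩, h4⟩ := eq_of_mem_seg h
  rw [h4] at h0 h1 ⊢
  rw [D.core _ ⟨h2, h3⟩]
  exact D.mem _ ⟨lt_of_le_of_ne h2 (fun e => h0 (by rw [← e])),
    lt_of_le_of_ne h3 (fun e => h1 (by rw [← e]))⟩

/-- shrinking the frozen part of a family which is equal to the base germ on it -/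
theorem fam2_shrink {J : ℝ × ℝ → R4 → R4} {V V' : Set R4} (h : Fam2 Q2 D.L V D.U J)
    (hJ : ∀ p ∈ V, J 0 p = D.J p) (hV : V' ⊆ V) (h0 : ((D.s₀, 0) : R4) ∈ V')
    (h1 : ((D.s₁, 0) : R4) ∈ V') : Fam2 Q2 D.L V' D.U J := by
  have m0 : (0 : ℝ × ℝ) ∈ Q2 := ⟨by simp, by simp⟩
  refine h.mono subset_rfl subset_rfl hV subset_rfl fun a ha p hp hpV hpV' => ?_
  rw [h.froz a ha 0 m0 p hpV, hJ p hpV]
  exact D.core_mem hp (fun e => hpV' (e ▸ h0)) (fun e => hpV' (e ▸ h1))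

end ArcD

section
variable (hCh : StCH4) (hFr : StFRAME) (hTh : StTHK) (hPhi : StPhi) (D : ArcD)

/-- the canonical thick family -/
noncomputable def ArcD.can (c : ℝ × ℝ × ℝ → R4) (u q : ℝ) : R4 → R4 :=
  thk D.J D.c (fun s => c (u, q, s))

include hTh in
theorem can_fam {c : ℝ × ℝ × ℝ → R4} (hc : D.Htpy c) {u u' : ℝ} (h0 : 0 ≤ u) (h1 : u ≤ u')
    (h2 : u' ≤ 1) (he : ∀ v ∈ Icc u u', ∀ q ∈ Icc (0 : ℝ) 1, D.Imm c v q ∧ D.Inj c v q) :
    Fam2 Q2 D.L D.V D.U (fun a => D.can c (u + a.1 * (u' - u)) a.2) ∧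
    (∀ v q, ∀ s ∈ Icc D.s₀ D.s₁, D.can c v q (s, 0) = c (v, q, s)) ∧
    (∀ v ∈ Icc (0 : ℝ) 1, D.can c v 0 = D.J ∧ D.can c v 1 = D.J) := by
  have hv : ∀ a ∈ Q2, u + a.1 * (u' - u) ∈ Icc u u' := by
    rintro ⟨x, q⟩ ⟨⟨hx1, hx2⟩, -⟩
    simp only at hx1 hx2
    constructor <;> simp only <;> nlinarith
  have hv' : ∀ a ∈ Q2, u + a.1 * (u' - u) ∈ Icc (0 : ℝ) 1 := fun a ha =>
    ⟨h0.trans (hv a ha).1, (hv a ha).2.trans h2⟩
  have key := hTh Q2 D.s₀ D.m₀ D.m₁ D.s₁ D.U D.J D.c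
    (fun a s => c (u + a.1 * (u' - u), a.2, s)) D.h₀ D.h₁ D.h₂ D.openU D.emb D.smooth D.core
    (hc.smooth.comp (by fun_prop))
    (fun a ha s hs => hc.froz _ (hv' a ha) _ ha.2 s hs)
    (fun a ha s hs => hc.inU _ (hv' a ha) _ ha.2 s hs)
    (fun a ha => (he _ (hv a ha) _ ha.2).2)
    (fun a ha s hs => (he _ (hv a ha) _ ha.2).1 s hs)
  -- the same statement for arbitrary parameters, for the values
  have hval : ∀ v q, ∀ s ∈ Icc D.s₀ D.s₁, D.can c v q (s, 0) = c (v, q, s) := by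
    intro v q s hs
    unfold ArcD.can thk
    have : fderiv ℝ D.J (s, 0) ((0 : ℝ), (0 : ℝ × ℂ)) = 0 := by
      have : (((0 : ℝ), (0 : ℝ × ℂ)) : R4) = 0 := rfl
      rw [this, map_zero]
    simp only [this, map_zero, add_zero]
    rw [D.core s hs]
    abel
  refine ⟨key.1, hval, fun v hv => ⟨?_, ?_⟩⟩
  · have e : (fun s => c (v, 0, s)) = D.c := funext fun s => hc.start v hv s
    unfold ArcD.can
    rw [e]
    funext p
    unfold thk
    simp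
  · have e : (fun s => c (v, 1, s)) = D.c := funext fun s => hc.stop v hv s
    unfold ArcD.can
    rw [e]
    funext p
    unfold thk
    simp

include hCh hTh hPhi in
/-- existence, with the canonical thickening -/
theorem can_exists {c : ℝ × ℝ × ℝ → R4} (hc : D.Htpy c) {u : ℝ} (hu : u ∈ Icc (0 : ℝ) 1)
    (he : ∀ q ∈ Icc (0 : ℝ) 1, D.Imm c u q ∧ D.Inj c u q) :
    ∃ Θ χ, LPush D.U D.L (D.can c u) Θ ∧ LIso D.U D.L D.J D.J Θ Θ ∧ D.Phi Θ χ := by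
  obtain ⟨h1, h2, h3⟩ := can_fam hTh D hc hu.1 le_rfl hu.2 (fun v hv => by
    rw [Icc_self] at hv
    rw [hv]
    exact he)
  simp only [sub_self, mul_zero, add_zero] at h1
  obtain ⟨Θ, hΘ⟩ := exists_lpush1 hCh D.isCompact_L D.isOpen_V D.openU
    (J := D.can c u) h1
  have h4 := hΘ.lIso
  rw [(h3 u hu).1, (h3 u hu).2] at h4
  obtain ⟨χ, hχ⟩ := (hPhi D).2.1 Θ Θ h4
  exact ⟨Θ, χ, hΘ, h4, hχ⟩

include hTh in
theorem can_cls {c : ℝ × ℝ × ℝ → R4} (hc : D.Htpy c) {u : ℝ} (hu : u ∈ Icc (0 : ℝ) 1)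
    (he : ∀ q ∈ Icc (0 : ℝ) 1, D.Imm c u q ∧ D.Inj c u q) {Θ χ : R4 → R4}
    (hΘ : LPush D.U D.L (D.can c u) Θ) (hχ : D.Phi Θ χ) : D.Cls (fun q s => c (u, q, s)) χ := by
  obtain ⟨h1, h2, h3⟩ := can_fam hTh D hc hu.1 le_rfl hu.2 (fun v hv => by
    rw [Icc_self] at hv
    rw [hv]
    exact he)
  simp only [sub_self, mul_zero, add_zero] at h1
  refine ⟨D.can c u, fun q _ s hs => h2 u q s hs, D.V, D.isOpen_V, D.mem_V₀, D.mem_V₁, h1,
    fun p _ => by rw [(h3 u hu).1], by rw [(h3 u hu).1]; exact nearEq_refl _ _,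
    by rw [(h3 u hu).2]; exact nearEq_refl _ _, Θ, hΘ, hχ⟩

include hFr hPhi in
theorem cls_unique {c : ℝ → ℝ → R4} {χ χ' : R4 → R4} (h : D.Cls c χ) (h' : D.Cls c χ') :
    CIsot I4 χ χ' := by
  obtain ⟨J, hJ, V, hV, hV0, hV1, hfam, hJV, hJ0, hJ1, Θ, hΘ, hχ⟩ := h
  obtain ⟨J', hJ', V', hV', hV0', hV1', hfam', hJV', hJ0', hJ1', Θ', hΘ', hχ'⟩ := h'
  have f1 := D.fam2_shrink (J := fun a => J a.2) hfam hJV (inter_subset_left (t := V'))
    ⟨hV0, hV0'⟩ ⟨hV1, hV1'⟩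
  have f2 := D.fam2_shrink (J := fun a => J' a.2) hfam' hJV' (inter_subset_right (s := V))
    ⟨hV0, hV0'⟩ ⟨hV1, hV1'⟩
  have key := hFr D (V ∩ V') J J' Θ Θ' (hV.inter hV') ⟨hV0, hV0'⟩ ⟨hV1, hV1'⟩ f1 f2
    (fun q hq s hs => (hJ q hq s hs).trans (hJ' q hq s hs).symm)
    (fun p hp => (hJV p hp.1).trans (hJV' p hp.2).symm)
    (fun s hs => by
      rw [nearEq_eq hJ0 (D.mem_L ⟨hs.1.le, hs.2.le⟩), D.core s ⟨hs.1.le, hs.2.le⟩]
      exact D.mem s hs)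
    (nearEq_trans hJ0 (NearEq.symm hJ0')) (nearEq_trans hJ1 (NearEq.symm hJ1')) hΘ hΘ'
  have key' := key.congr hJ0 hJ1
  exact (hPhi D).2.2.1 Θ' χ χ' key'.symm.refl_of ((hPhi D).1 Θ Θ' χ key' hχ) hχ'

include hPhi in
theorem cls_congr {c : ℝ → ℝ → R4} {χ χ' : R4 → R4} (h : D.Cls c χ) (h' : CIsot I4 χ χ') :
    D.Cls c χ' := by
  obtain ⟨J, hJ, V, hV, hV0, hV1, hfam, hJV, hJ0, hJ1, Θ, hΘ, hχ⟩ := h
  exact ⟨J, hJ, V, hV, hV0, hV1, hfam, hJV, hJ0, hJ1, Θ, hΘ, (hPhi D).2.2.2.2.2.1 Θ χ χ' hχ h'⟩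

include hCh hFr hTh hPhi in
theorem m_Cls : StCls := by
  intro D
  refine ⟨fun c χ χ' h h' => cls_unique hFr hPhi D h h',
    fun c χ χ' h h' => cls_congr hPhi D h h', ?_, ?_, ?_, ?_⟩
  · rintro c χ ⟨J, hJ, V, hV, hV0, hV1, hfam, hJV, hJ0, hJ1, Θ, hΘ, hχ⟩
    exact (hPhi D).2.2.2.2.2.2 Θ χ hχ
  · intro c hc u hu he
    obtain ⟨Θ, χ, h1, h2, h3⟩ := can_exists hCh hTh hPhi D hc hu he
    exact ⟨χ, can_cls hTh D hc hu he h1 h3⟩
  · intro c hc u u' h0 h1 h2 he χ hχ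
    have hu : u ∈ Icc (0 : ℝ) 1 := ⟨h0, h1.trans h2⟩
    have hu' : u' ∈ Icc (0 : ℝ) 1 := ⟨h0.trans h1, h2⟩
    obtain ⟨Θ, χ₀, e1, e2, e3⟩ := can_exists hCh hTh hPhi D hc hu (he u ⟨le_rfl, h1⟩)
    obtain ⟨Θ', χ₁, g1, g2, g3⟩ := can_exists hCh hTh hPhi D hc hu' (he u' ⟨h1, le_rfl⟩)
    have c0 := can_cls hTh D hc hu (he u ⟨le_rfl, h1⟩) e1 e3
    have i1 := cls_unique hFr hPhi D c0 hχ
    obtain ⟨f1, f2, f3⟩ := can_fam hTh D hc h0 h1 h2 he
    have hN : ∀ v ∈ Icc (0 : ℝ) 1, u + v * (u' - u) ∈ Icc (0 : ℝ) 1 := by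
      rintro v ⟨hv1, hv2⟩
      constructor <;> nlinarith
    have key := push_htpy hCh D.isCompact_L D.isOpen_V D.openU
      (J := fun v q => D.can c (u + v * (u' - u)) q) f1
      ⟨univ, isOpen_univ, subset_univ _, fun v hv p _ => by
        rw [(f3 _ (hN v hv)).1, (f3 _ (hN 0 (by simp))).1]⟩
      ⟨univ, isOpen_univ, subset_univ _, fun v hv p _ => by
        rw [(f3 _ (hN v hv)).2, (f3 _ (hN 0 (by simp))).2]⟩
      (e1.congr ⟨univ, isOpen_univ, subset_univ _, fun q _ p _ => by simp⟩)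
      (g1.congr ⟨univ, isOpen_univ, subset_univ _, fun q _ p _ => by simp⟩)
    have key' : LIso D.U D.L D.J D.J Θ Θ' := by
      have := (f3 _ (hN 0 (by simp)))
      rw [this.1, this.2] at key
      exact key
    exact cls_congr hPhi D (can_cls hTh D hc hu' (he u' ⟨h1, le_rfl⟩) g1
      ((hPhi D).1 Θ Θ' χ₀ key' e3)) i1
  · refine ⟨fun _ => D.J, fun q _ s hs => D.core s hs, D.V, D.isOpen_V, D.mem_V₀, D.mem_V₁,
      fam2_const D.emb (fun p hp hpV => D.core_mem hp (fun e => hpV (e ▸ D.mem_V₀))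
        (fun e => hpV (e ▸ D.mem_V₁))), fun _ _ => rfl, nearEq_refl _ _, nearEq_refl _ _,
      fun x => x, LPush.const _, (hPhi D).2.2.2.2.1⟩

end

end Pool.Agent.Helper27.H


end

/-! ## Helper27.BI.H.M_PTJ -/

section

/-!
# Project BI-H, module PTJ: perturbation of the identity with an open set of parameters
-/

set_option autoImplicit false

open scoped Manifold ContDiff Topology ComplexConjugate
open Set Filter Pool.Agent.Helper65.Barb Pool.Agent.Helper18.BI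
open Pool.Agent.Helper70.BI (I4 LD Eqv NearEq StPT)
open Pool.Agent.Helper34.BI (qmul qinv)

namespace Pool.Agent.Helper27.H

namespace PTJ

variable {E' : Type} [NormedAddCommGroup E'] [NormedSpace ℝ E']
variable {E : Type} [NormedAddCommGroup E] [NormedSpace ℝ E]

/-- the parameter preserving map -/
def mp (g : E' × E → E) (p : E' × E) : E' × E := (p.1, p.2 + g p)

theorem exists_pre [FiniteDimensional ℝ E] (O : Set E') (g : E' × E → E)
    (hg : ∀ e ∈ O, ∀ x y, ‖g (e, x) - g (e, y)‖ ≤ 3 / 4 * ‖x - y‖) (t : E') (ht : t ∈ O) (y : E) :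
    ∃ x : E, x + g (t, x) = y := by
  have : CompleteSpace E := FiniteDimensional.complete ℝ E
  have hl : LipschitzWith (3 / 4) (fun x : E => y - g (t, x)) := by
    refine LipschitzWith.of_dist_le_mul fun a b => ?_
    rw [dist_eq_norm, dist_eq_norm]
    have e : y - g (t, a) - (y - g (t, b)) = g (t, b) - g (t, a) := by abel
    rw [e]
    have := hg t ht b a
    rw [norm_sub_rev b a] at this
    simpa using this
  have h34 : (3 / 4 : NNReal) < 1 := by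
    rw [← NNReal.coe_lt_coe]
    norm_num
  have hc : ContractingWith (3 / 4) (fun x : E => y - g (t, x)) := ⟨h34, hl⟩
  refine ⟨hc.fixedPoint, ?_⟩
  have h := hc.fixedPoint_isFixedPt
  have h2 : y - g (t, hc.fixedPoint) = hc.fixedPoint := h
  calc hc.fixedPoint + g (t, hc.fixedPoint) =
      (y - g (t, hc.fixedPoint)) + g (t, hc.fixedPoint) := by rw [h2]
    _ = y := by abel

theorem key (O : Set E') (g : E' × E → E)
    (hg : ∀ e ∈ O, ∀ x y, ‖g (e, x) - g (e, y)‖ ≤ 3 / 4 * ‖x - y‖) (t : E') (ht : t ∈ O)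
    (x x' : E) : ‖x - x'‖ ≤ 4 * ‖(x + g (t, x)) - (x' + g (t, x'))‖ := by
  have h1 := hg t ht x x'
  have h2 : ‖x - x'‖ ≤ ‖(x + g (t, x)) - (x' + g (t, x'))‖ + ‖g (t, x) - g (t, x')‖ := by
    have e : x - x' = ((x + g (t, x)) - (x' + g (t, x'))) - (g (t, x) - g (t, x')) := by abel
    calc ‖x - x'‖ = ‖((x + g (t, x)) - (x' + g (t, x'))) - (g (t, x) - g (t, x'))‖ := by rw [← e]
      _ ≤ _ := norm_sub_le _ _
  linarith

open Classical in
/-- the inverse -/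
noncomputable def iv [FiniteDimensional ℝ E] (O : Set E') (g : E' × E → E)
    (hg : ∀ e ∈ O, ∀ x y, ‖g (e, x) - g (e, y)‖ ≤ 3 / 4 * ‖x - y‖) (q : E' × E) : E :=
  if h : q.1 ∈ O then (exists_pre O g hg q.1 h q.2).choose else 0

theorem iv_spec [FiniteDimensional ℝ E] (O : Set E') (g : E' × E → E)
    (hg : ∀ e ∈ O, ∀ x y, ‖g (e, x) - g (e, y)‖ ≤ 3 / 4 * ‖x - y‖) (q : E' × E) (h : q.1 ∈ O) :
    iv O g hg q + g (q.1, iv O g hg q) = q.2 := by
  have e : iv O g hg q = (exists_pre O g hg q.1 h q.2).choose := by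
    unfold iv
    rw [dif_pos h]
  rw [e]
  exact (exists_pre O g hg q.1 h q.2).choose_spec

theorem iv_mp [FiniteDimensional ℝ E] (O : Set E') (g : E' × E → E)
    (hg : ∀ e ∈ O, ∀ x y, ‖g (e, x) - g (e, y)‖ ≤ 3 / 4 * ‖x - y‖) (p : E' × E) (h : p.1 ∈ O) :
    iv O g hg (mp g p) = p.2 := by
  have h1 := iv_spec O g hg (mp g p) h
  have h2 := key O g hg p.1 h (iv O g hg (mp g p)) p.2
  have h3 : iv O g hg (mp g p) + g (p.1, iv O g hg (mp g p)) = p.2 + g (p.1, p.2) := h1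
  rw [h3, sub_self, norm_zero, mul_zero] at h2
  exact sub_eq_zero.1 (norm_le_zero_iff.1 h2)

theorem iv_cont [FiniteDimensional ℝ E] (O : Set E') (hO : IsOpen O) (g : E' × E → E)
    (hc : ContinuousOn g (O ×ˢ univ))
    (hg : ∀ e ∈ O, ∀ x y, ‖g (e, x) - g (e, y)‖ ≤ 3 / 4 * ‖x - y‖) :
    ContinuousOn (iv O g hg) (O ×ˢ univ) := by
  have hop : IsOpen (O ×ˢ (univ : Set E)) := hO.prod isOpen_univ
  intro q₀ hq₀
  refine ContinuousAt.continuousWithinAt ?_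
  set x₀ := iv O g hg q₀ with hx₀
  have h0 : x₀ + g (q₀.1, x₀) = q₀.2 := iv_spec O g hg q₀ hq₀.1
  have h1 : ∀ᶠ q in 𝓝 q₀, ‖iv O g hg q - x₀‖ ≤ 4 * ‖q.2 - (x₀ + g (q.1, x₀))‖ := by
    filter_upwards [hop.mem_nhds hq₀] with q hq
    have := key O g hg q.1 hq.1 (iv O g hg q) x₀
    rwa [iv_spec O g hg q hq.1] at this
  have h2 : Tendsto (fun q : E' × E => 4 * ‖q.2 - (x₀ + g (q.1, x₀))‖) (𝓝 q₀) (𝓝 0) := by
    have ha : ContinuousAt (fun q : E' × E => g (q.1, x₀)) q₀ := by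
      have hb : ContinuousAt g (q₀.1, x₀) := hc.continuousAt (hop.mem_nhds ⟨hq₀.1, mem_univ _⟩)
      have hd : ContinuousAt (fun q : E' × E => (q.1, x₀)) q₀ := by fun_prop
      exact ContinuousAt.comp (f := fun q : E' × E => (q.1, x₀)) (g := g) hb hd
    have hcont : ContinuousAt (fun q : E' × E => 4 * ‖q.2 - (x₀ + g (q.1, x₀))‖) q₀ :=
      continuousAt_const.mul (continuousAt_snd.sub (continuousAt_const.add ha)).norm
    have h3 := hcont.tendsto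
    rw [h0, sub_self, norm_zero, mul_zero] at h3
    exact h3
  rw [ContinuousAt, tendsto_iff_norm_sub_tendsto_zero]
  exact squeeze_zero' (Eventually.of_forall fun _ => norm_nonneg _) h1 h2

/-- the partial homeomorphism -/
noncomputable def hm [FiniteDimensional ℝ E] (O : Set E') (hO : IsOpen O) (g : E' × E → E)
    (hc : ContinuousOn g (O ×ˢ univ))
    (hg : ∀ e ∈ O, ∀ x y, ‖g (e, x) - g (e, y)‖ ≤ 3 / 4 * ‖x - y‖) :
    OpenPartialHomeomorph (E' × E) (E' × E) where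
  toFun := mp g
  invFun q := (q.1, iv O g hg q)
  source := O ×ˢ univ
  target := O ×ˢ univ
  map_source' _ hp := ⟨hp.1, mem_univ _⟩
  map_target' _ hp := ⟨hp.1, mem_univ _⟩
  left_inv' p hp := by
    show (p.1, iv O g hg (mp g p)) = p
    rw [iv_mp O g hg p hp.1]
  right_inv' q hq := by
    show (q.1, iv O g hg q + g (q.1, iv O g hg q)) = q
    rw [iv_spec O g hg q hq.1]
  open_source := hO.prod isOpen_univ
  open_target := hO.prod isOpen_univ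
  continuousOn_toFun := by
    unfold mp
    fun_prop
  continuousOn_invFun := by
    have := iv_cont O hO g hc hg
    fun_prop

theorem fderiv_small (O : Set E') (g : E' × E → E)
    (hg : ∀ e ∈ O, ∀ x y, ‖g (e, x) - g (e, y)‖ ≤ 3 / 4 * ‖x - y‖) (p : E' × E) (hp : p.1 ∈ O)
    (h1 : HasFDerivAt g (fderiv ℝ g p) p) (ξ : E) :
    ‖fderiv ℝ g p (0, ξ)‖ ≤ 3 / 4 * ‖ξ‖ := by
  let e : E →L[ℝ] E' × E := ContinuousLinearMap.inr ℝ E' E
  have h2 : HasFDerivAt (fun x : E => ((p.1, x) : E' × E)) e p.2 := by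
    have h3 : HasFDerivAt (fun x : E => e x + ((p.1, 0) : E' × E)) e p.2 :=
      e.hasFDerivAt.add_const _
    refine h3.congr_of_eventuallyEq (Eventually.of_forall fun x => ?_)
    show ((p.1, x) : E' × E) = (0, x) + (p.1, 0)
    simp
  have h4 : HasFDerivAt (fun x : E => g (p.1, x)) ((fderiv ℝ g p).comp e) p.2 :=
    HasFDerivAt.comp p.2 h1 h2
  have hl : LipschitzWith (3 / 4) (fun x : E => g (p.1, x)) := by
    refine LipschitzWith.of_dist_le_mul fun a b => ?_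
    rw [dist_eq_norm, dist_eq_norm]
    simpa using hg p.1 hp a b
  have h5 := h4.le_of_lipschitz hl
  have h6 := ContinuousLinearMap.le_opNorm ((fderiv ℝ g p).comp e) ξ
  have h7 : ((fderiv ℝ g p).comp e) ξ = fderiv ℝ g p (0, ξ) := rfl
  rw [h7] at h6
  refine h6.trans (mul_le_mul_of_nonneg_right ?_ (norm_nonneg _))
  simpa using h5

theorem exists_equiv [FiniteDimensional ℝ E'] [FiniteDimensional ℝ E] (O : Set E')
    (g : E' × E → E) (hg : ∀ e ∈ O, ∀ x y, ‖g (e, x) - g (e, y)‖ ≤ 3 / 4 * ‖x - y‖)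
    (p : E' × E) (hp : p.1 ∈ O) (h1 : HasFDerivAt g (fderiv ℝ g p) p) :
    ∃ L : (E' × E) ≃L[ℝ] (E' × E), HasFDerivAt (mp g) (L : (E' × E) →L[ℝ] (E' × E)) p := by
  let A : (E' × E) →L[ℝ] E := ContinuousLinearMap.snd ℝ E' E + fderiv ℝ g p
  let D : (E' × E) →L[ℝ] (E' × E) := (ContinuousLinearMap.fst ℝ E' E).prod A
  have hD : HasFDerivAt (mp g) D p := by
    have a1 : HasFDerivAt (fun q : E' × E => q.1) (ContinuousLinearMap.fst ℝ E' E) p :=
      (ContinuousLinearMap.fst ℝ E' E).hasFDerivAt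
    have a3 : HasFDerivAt (fun q : E' × E => q.2) (ContinuousLinearMap.snd ℝ E' E) p :=
      (ContinuousLinearMap.snd ℝ E' E).hasFDerivAt
    exact a1.prodMk (a3.add h1)
  have hinj : Function.Injective D := by
    rw [injective_iff_map_eq_zero]
    rintro ⟨τ, ξ⟩ h
    have b1 : τ = 0 := congrArg Prod.fst h
    have b3 : ξ + fderiv ℝ g p (τ, ξ) = 0 := congrArg Prod.snd h
    subst b1
    have b4 := fderiv_small O g hg p hp h1 ξ
    have b5 : fderiv ℝ g p (0, ξ) = -ξ := by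
      rw [← add_eq_zero_iff_eq_neg']
      exact b3
    rw [b5, norm_neg] at b4
    have b6 : ‖ξ‖ ≤ 0 := by linarith [norm_nonneg ξ]
    rw [norm_le_zero_iff.1 b6]
    rfl
  refine ⟨(LinearEquiv.ofInjectiveEndo (D : (E' × E) →ₗ[ℝ] (E' × E))
    hinj).toContinuousLinearEquiv, ?_⟩
  have hcoe : ((LinearEquiv.ofInjectiveEndo (D : (E' × E) →ₗ[ℝ] (E' × E))
      hinj).toContinuousLinearEquiv : (E' × E) →L[ℝ] (E' × E)) = D := by
    refine ContinuousLinearMap.ext fun v => ?_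
    rfl
  rw [hcoe]
  exact hD

end PTJ

open PTJ in
theorem m_PTJ : StPTJ := by
  intro E' _ _ _ E _ _ _ O g hO hs hg
  have hop : IsOpen (O ×ˢ (univ : Set E)) := hO.prod isOpen_univ
  have hc := hs.continuousOn
  refine ⟨iv O g hg, ?_, fun e he x => ⟨iv_spec O g hg (e, x) he, iv_mp O g hg (e, x) he⟩⟩
  intro q hq
  refine ContDiffAt.contDiffWithinAt ?_
  have hp : (hm O hO g hc hg).symm q ∈ O ×ˢ (univ : Set E) := ⟨hq.1, mem_univ _⟩
  have hsm : ContDiffAt ℝ ∞ g ((hm O hO g hc hg).symm q) := hs.contDiffAt (hop.mem_nhds hp)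
  have h1 : HasFDerivAt g (fderiv ℝ g ((hm O hO g hc hg).symm q)) ((hm O hO g hc hg).symm q) :=
    (hsm.differentiableAt (by simp)).hasFDerivAt
  obtain ⟨L, hL⟩ := exists_equiv O g hg _ hp.1 h1
  have hmp : ContDiffAt ℝ ∞ (mp g) ((hm O hO g hc hg).symm q) := by
    unfold mp
    fun_prop
  have hinv : ContDiffAt ℝ ∞ (hm O hO g hc hg).symm q :=
    (hm O hO g hc hg).contDiffAt_symm (f₀' := L) hq hL hmp
  exact hinv.snd

end Pool.Agent.Helper27.H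


end

/-! ## Helper27.BI.H.M_FRAME -/

section

/-!
# Project BI, stage 3 (H): framings do not matter

`m_FRAME (ch : StCH4) (pi2 : StPI2) : StFRAME`.
-/

set_option autoImplicit false

open scoped Manifold ContDiff Topology ComplexConjugate
open Set Filter Pool.Agent.Helper65.Barb Pool.Agent.Helper18.BI
open Pool.Agent.Helper70.BI (I4 LD Eqv NearEq embOn_iff nearEq_of_eventuallyEq)

namespace Pool.Agent.Helper27.H

namespace FRAME

/-- the inclusion of the normal space -/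
noncomputable abbrev nrm : R3 →L[ℝ] R4 := ContinuousLinearMap.inr ℝ ℝ R3

theorem nrm_apply (v : R3) : nrm v = ((0 : ℝ), v) := rfl

theorem seg_mem {s₀ s₁ s : ℝ} (h : s ∈ Icc s₀ s₁) : ((s, 0) : R4) ∈ seg s₀ s₁ :=
  ⟨h.1, h.2, rfl⟩

theorem seg_eq {s₀ s₁ : ℝ} {p : R4} (h : p ∈ seg s₀ s₁) : ∃ s ∈ Icc s₀ s₁, p = (s, 0) :=
  ⟨p.1, ⟨h.1, h.2.1⟩, Prod.ext rfl h.2.2⟩

section one
variable {s₀ s₁ : ℝ} {V U : Set R4} {J : ℝ → R4 → R4}

/-- joint smoothness of a path of germs -/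
theorem joint (h : Fam2 Q2 (seg s₀ s₁) V U (fun a => J a.2)) {q : ℝ} (hq : q ∈ Icc (0 : ℝ) 1)
    {p : R4} (hp : p ∈ seg s₀ s₁) :
    ∀ᶠ z : ℝ × R4 in 𝓝 (q, p), ContDiffAt ℝ ∞ (fun z : ℝ × R4 => J z.1 z.2) z := by
  have h1 := h.smooth (0, q) ⟨by simp, hq⟩ p hp
  have hg : ContDiff ℝ ∞ (fun z : ℝ × R4 => (((0 : ℝ), z.1), z.2)) :=
    (contDiff_const.prodMk contDiff_fst).prodMk contDiff_snd
  have h2 := (hg.continuous.continuousAt (x := (q, p))).eventually h1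
  filter_upwards [h2] with z hz
  exact ContDiffAt.comp (g := fun z : (ℝ × ℝ) × R4 => J z.1.2 z.2)
    (f := fun z : ℝ × R4 => (((0 : ℝ), z.1), z.2)) z hz hg.contDiffAt

theorem slice {K : ℝ × ℝ → R4 → R4} {a : ℝ × ℝ} {p : R4}
    (h : ∀ᶠ z : (ℝ × ℝ) × R4 in 𝓝 (a, p), ContDiffAt ℝ ∞ (fun z : (ℝ × ℝ) × R4 => K z.1 z.2) z) :
    ∀ᶠ q in 𝓝 p, ContDiffAt ℝ ∞ (K a) q := by
  have hg : ContDiff ℝ ∞ (fun q : R4 => (a, q)) := contDiff_const.prodMk contDiff_id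
  have h2 := (hg.continuous.continuousAt (x := p)).eventually h
  filter_upwards [h2] with q hq
  exact ContDiffAt.comp (g := fun z : (ℝ × ℝ) × R4 => K z.1 z.2)
    (f := fun q : R4 => (a, q)) q hq hg.contDiffAt

theorem diffAt (h : Fam2 Q2 (seg s₀ s₁) V U (fun a => J a.2)) {q : ℝ} (hq : q ∈ Icc (0 : ℝ) 1)
    {p : R4} (hp : p ∈ seg s₀ s₁) : DifferentiableAt ℝ (J q) p := by
  have h1 := (embOn_iff.1 (h.emb (0, q) ⟨by simp, hq⟩)).1 p hp
  exact h1.1.self_of_nhds.differentiableAt (by simp)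

/-- smoothness of the derivative along the core -/
theorem der_smooth (h : Fam2 Q2 (seg s₀ s₁) V U (fun a => J a.2)) {q s : ℝ}
    (hq : q ∈ Icc (0 : ℝ) 1) (hs : s ∈ Icc s₀ s₁) :
    ∀ᶠ x : ℝ × ℝ in 𝓝 (q, s),
      ContDiffAt ℝ ∞ (fun x : ℝ × ℝ => fderiv ℝ (J x.1) (x.2, (0 : R3))) x := by
  have h1 := joint h hq (seg_mem hs)
  have hg : ContDiff ℝ ∞ (fun x : ℝ × ℝ => (x.1, ((x.2, (0 : R3)) : R4))) :=
    contDiff_fst.prodMk (contDiff_snd.prodMk contDiff_const)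
  have h2 := (hg.continuous.continuousAt (x := (q, s))).eventually h1
  filter_upwards [h2] with x hx
  have hm : ContDiff ℝ ∞ (fun w : (ℝ × ℝ) × R4 => (w.1.1, w.2)) :=
    (contDiff_fst.comp contDiff_fst).prodMk contDiff_snd
  have h3 : ContDiffAt ℝ ∞ (Function.uncurry (fun (x : ℝ × ℝ) (p : R4) => J x.1 p))
      (x, ((x.2, (0 : R3)) : R4)) :=
    ContDiffAt.comp (g := fun z : ℝ × R4 => J z.1 z.2)
      (f := fun w : (ℝ × ℝ) × R4 => (w.1.1, w.2)) _ hx hm.contDiffAt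
  have h4 : ContDiffAt ℝ ∞ (fun x : ℝ × ℝ => ((x.2, (0 : R3)) : R4)) x :=
    (contDiff_snd.prodMk contDiff_const).contDiffAt
  exact ContDiffAt.fderiv h3 h4 (by simp)

theorem inv_of_inj {A : R4 →L[ℝ] R4} (h : Function.Injective A) : A.IsInvertible := by
  have h' : Function.Injective A.toLinearMap := h
  refine ⟨(LinearEquiv.ofInjectiveEndo A.toLinearMap h').toContinuousLinearEquiv, ?_⟩
  ext x <;> rfl

theorem der_inj (h : Fam2 Q2 (seg s₀ s₁) V U (fun a => J a.2)) {q s : ℝ}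
    (hq : q ∈ Icc (0 : ℝ) 1) (hs : s ∈ Icc s₀ s₁) :
    Function.Injective (fderiv ℝ (J q) (s, (0 : R3))) :=
  ((embOn_iff.1 (h.emb (0, q) ⟨by simp, hq⟩)).1 _ (seg_mem hs)).2

end one

/-- the rectangle -/
def Rc (a₀ a₁ : ℝ) : Set (ℝ × ℝ) := Icc (1 / 3) (2 / 3) ×ˢ Icc a₀ a₁

theorem isClosed_Rc (a₀ a₁ : ℝ) : IsClosed (Rc a₀ a₁) := isClosed_Icc.prod isClosed_Icc

/-- the reduced situation -/
structure Red (s₀ a₀ a₁ s₁ : ℝ) (V U : Set R4) (J J' : ℝ → R4 → R4) : Prop where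
  openV : IsOpen V
  lt0 : s₀ < a₀
  lt1 : a₀ < a₁
  lt2 : a₁ < s₁
  V0 : ∀ s ∈ Icc s₀ a₀, ((s, 0) : R4) ∈ V
  V1 : ∀ s ∈ Icc a₁ s₁, ((s, 0) : R4) ∈ V
  fam : Fam2 Q2 (seg s₀ s₁) V U (fun a => J a.2)
  fam' : Fam2 Q2 (seg s₀ s₁) V U (fun a => J' a.2)
  core : ∀ q ∈ Icc (0 : ℝ) 1, ∀ s ∈ Icc s₀ s₁, J q (s, 0) = J' q (s, 0)
  eqV : ∀ p ∈ V, J 0 p = J' 0 p
  mem : ∀ s ∈ Ioo s₀ s₁, J 0 (s, 0) ∈ U
  e0 : ∀ q ∈ Icc (0 : ℝ) 1, q ≤ 1 / 3 → NearEq (J q) (J' q) (seg s₀ s₁)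
  e1 : ∀ q ∈ Icc (0 : ℝ) 1, 2 / 3 ≤ q → NearEq (J q) (J' q) (seg s₀ s₁)

/-- the comparison of the normal framings -/
noncomputable def W0 (J J' : ℝ → R4 → R4) (x : ℝ × ℝ) : R3 →L[ℝ] R4 :=
  (fderiv ℝ (J x.1) (x.2, (0 : R3))).inverse.comp
    ((fderiv ℝ (J' x.1) (x.2, (0 : R3))).comp nrm)

open Classical in
/-- the comparison of the normal framings, extended -/
noncomputable def W (a₀ a₁ : ℝ) (J J' : ℝ → R4 → R4) (x : ℝ × ℝ) : R3 →L[ℝ] R4 :=
  if x ∈ Rc a₀ a₁ then W0 J J' x else nrm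

theorem W_of_notMem {a₀ a₁ : ℝ} {J J' : ℝ → R4 → R4} {x : ℝ × ℝ} (h : x ∉ Rc a₀ a₁) :
    W a₀ a₁ J J' x = nrm := if_neg h

section two
variable {s₀ a₀ a₁ s₁ : ℝ} {V U : Set R4} {J J' : ℝ → R4 → R4}

theorem Red.eqV' (R : Red s₀ a₀ a₁ s₁ V U J J') {q : ℝ} (hq : q ∈ Icc (0 : ℝ) 1) {p : R4}
    (hp : p ∈ V) : J q p = J' q p := by
  have h1 : J q p = J 0 p := R.fam.froz (0, q) ⟨by simp, hq⟩ (0, 0) ⟨by simp, by simp⟩ p hp
  have h2 : J' q p = J' 0 p := R.fam'.froz (0, q) ⟨by simp, hq⟩ (0, 0) ⟨by simp, by simp⟩ p hp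
  rw [h1, h2, R.eqV p hp]

theorem Red.der_eq (R : Red s₀ a₀ a₁ s₁ V U J J') {q s : ℝ} (hq : q ∈ Icc (0 : ℝ) 1)
    (hs : s ∈ Icc s₀ s₁) (h : (q, s) ∉ Rc a₀ a₁) :
    fderiv ℝ (J q) (s, (0 : R3)) = fderiv ℝ (J' q) (s, (0 : R3)) := by
  have key : J q =ᶠ[𝓝 ((s, (0 : R3)) : R4)] J' q := by
    by_cases h1 : q ≤ 1 / 3
    · exact (R.e0 q hq h1).eventuallyEq (seg_mem hs)
    by_cases h2 : 2 / 3 ≤ q
    · exact (R.e1 q hq h2).eventuallyEq (seg_mem hs)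
    push Not at h1 h2
    have hV : ((s, 0) : R4) ∈ V := by
      by_cases h3 : s < a₀
      · exact R.V0 s ⟨hs.1, h3.le⟩
      by_cases h4 : a₁ < s
      · exact R.V1 s ⟨h4.le, hs.2⟩
      push Not at h3 h4
      exact absurd ⟨⟨h1.le, h2.le⟩, ⟨h3, h4⟩⟩ h
    filter_upwards [R.openV.mem_nhds hV] with p hp
    exact R.eqV' hq hp
  exact key.fderiv_eq

theorem Red.core_der (R : Red s₀ a₀ a₁ s₁ V U J J') {q s : ℝ} (hq : q ∈ Icc (0 : ℝ) 1)
    (hs : s ∈ Ioo s₀ s₁) (c : ℝ) :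
    fderiv ℝ (J q) (s, (0 : R3)) (c, 0) = fderiv ℝ (J' q) (s, (0 : R3)) (c, 0) := by
  have hs' : s ∈ Icc s₀ s₁ := Ioo_subset_Icc_self hs
  have d1 := (diffAt R.fam hq (seg_mem hs')).hasFDerivAt
  have d2 := (diffAt R.fam' hq (seg_mem hs')).hasFDerivAt
  have dc : HasDerivAt (fun t : ℝ => ((t, (0 : R3)) : R4)) (1, 0) s :=
    (hasDerivAt_id s).prodMk (hasDerivAt_const s (0 : R3))
  have e1 := HasFDerivAt.comp_hasDerivAt (f := fun t : ℝ => ((t, (0 : R3)) : R4)) s d1 dc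
  have e2 := HasFDerivAt.comp_hasDerivAt (f := fun t : ℝ => ((t, (0 : R3)) : R4)) s d2 dc
  have e3 : (J q ∘ fun t : ℝ => ((t, (0 : R3)) : R4)) =ᶠ[𝓝 s]
      (J' q ∘ fun t : ℝ => ((t, (0 : R3)) : R4)) := by
    filter_upwards [Ioo_mem_nhds hs.1 hs.2] with t ht
    exact R.core q hq t (Ioo_subset_Icc_self ht)
  have e4 := (e1.congr_of_eventuallyEq e3.symm).unique e2
  have e5 : ((c, 0) : R4) = c • ((1, 0) : R4) := by
    ext <;> simp
  rw [e5, map_smul, map_smul, e4]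

theorem Red.inner {q s : ℝ} (R : Red s₀ a₀ a₁ s₁ V U J J') (h : (q, s) ∈ Rc a₀ a₁) :
    q ∈ Ioo (0 : ℝ) 1 ∧ s ∈ Ioo s₀ s₁ := by
  obtain ⟨⟨h1, h2⟩, h3, h4⟩ := h
  simp only at h1 h2 h3 h4
  have := R.lt0
  have := R.lt2
  exact ⟨⟨by linarith, by linarith⟩, by linarith, by linarith⟩

theorem Red.W_key (R : Red s₀ a₀ a₁ s₁ V U J J') {q s : ℝ} (hq : q ∈ Icc (0 : ℝ) 1)
    (hs : s ∈ Icc s₀ s₁) (v : R3) :
    fderiv ℝ (J q) (s, (0 : R3)) (W a₀ a₁ J J' (q, s) v) =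
      fderiv ℝ (J' q) (s, (0 : R3)) (0, v) := by
  by_cases h : (q, s) ∈ Rc a₀ a₁
  · rw [W, if_pos h]
    exact (inv_of_inj (der_inj R.fam hq hs)).self_apply_inverse _
  · rw [W_of_notMem h, R.der_eq hq hs h]
    rfl

theorem Red.W_eq (R : Red s₀ a₀ a₁ s₁ V U J J') {x : ℝ × ℝ}
    (hx : x ∈ Ioo (0 : ℝ) 1 ×ˢ Ioo s₀ s₁) : W a₀ a₁ J J' x = W0 J J' x := by
  obtain ⟨q, s⟩ := x
  have hq : q ∈ Icc (0 : ℝ) 1 := Ioo_subset_Icc_self hx.1
  have hs : s ∈ Icc s₀ s₁ := Ioo_subset_Icc_self hx.2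
  by_cases h : (q, s) ∈ Rc a₀ a₁
  · rw [W, if_pos h]
  · rw [W_of_notMem h]
    refine ContinuousLinearMap.ext fun v => ?_
    apply der_inj R.fam hq hs
    have := (inv_of_inj (der_inj R.fam hq hs)).self_apply_inverse
      (fderiv ℝ (J' q) (s, (0 : R3)) (nrm v))
    refine Eq.trans ?_ this.symm
    rw [R.der_eq hq hs h]

theorem Red.W_smooth (R : Red s₀ a₀ a₁ s₁ V U J J') : ContDiff ℝ ∞ (W a₀ a₁ J J') := by
  rw [contDiff_iff_contDiffAt]
  rintro ⟨q, s⟩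
  by_cases h : (q, s) ∈ Rc a₀ a₁
  · obtain ⟨hq, hs⟩ := R.inner h
    have hq' : q ∈ Icc (0 : ℝ) 1 := Ioo_subset_Icc_self hq
    have hs' : s ∈ Icc s₀ s₁ := Ioo_subset_Icc_self hs
    have h1 : W a₀ a₁ J J' =ᶠ[𝓝 (q, s)] W0 J J' := by
      filter_upwards [(isOpen_Ioo.prod isOpen_Ioo).mem_nhds (⟨hq, hs⟩ :
        (q, s) ∈ Ioo (0 : ℝ) 1 ×ˢ Ioo s₀ s₁)] with x hx
      exact R.W_eq hx
    refine ContDiffAt.congr_of_eventuallyEq ?_ h1
    have s1 := (der_smooth R.fam hq' hs').self_of_nhds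
    have s2 := (der_smooth R.fam' hq' hs').self_of_nhds
    have s3 : ContDiffAt ℝ ∞ (fun x : ℝ × ℝ =>
        (fderiv ℝ (J x.1) (x.2, (0 : R3))).inverse) (q, s) := by
      have := (inv_of_inj (der_inj R.fam hq' hs')).contDiffAt_map_inverse (n := ∞)
      exact ContDiffAt.comp (g := ContinuousLinearMap.inverse)
        (f := fun x : ℝ × ℝ => fderiv ℝ (J x.1) (x.2, (0 : R3))) (q, s) this s1
    exact s3.clm_comp (s2.clm_comp contDiffAt_const)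
  · have h1 : W a₀ a₁ J J' =ᶠ[𝓝 (q, s)] fun _ => nrm := by
      filter_upwards [(isClosed_Rc a₀ a₁).isOpen_compl.mem_nhds h] with x hx
      exact W_of_notMem hx
    exact contDiffAt_const.congr_of_eventuallyEq h1

theorem Red.W_inj (R : Red s₀ a₀ a₁ s₁ V U J J') (x : ℝ × ℝ) (v : R3)
    (h : (W a₀ a₁ J J' x v).2 = 0) : v = 0 := by
  obtain ⟨q, s⟩ := x
  by_cases hx : (q, s) ∈ Rc a₀ a₁
  · obtain ⟨hq, hs⟩ := R.inner hx
    have hq' : q ∈ Icc (0 : ℝ) 1 := Ioo_subset_Icc_self hq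
    have hs' : s ∈ Icc s₀ s₁ := Ioo_subset_Icc_self hs
    have k := R.W_key hq' hs' v
    have e : W a₀ a₁ J J' (q, s) v = ((W a₀ a₁ J J' (q, s) v).1, 0) := Prod.ext rfl h
    rw [e, R.core_der hq' hs] at k
    have := der_inj R.fam' hq' hs' k
    exact (congrArg Prod.snd this).symm
  · rw [W_of_notMem hx] at h
    exact h

/-- the matrices of the normal parts, on the unit square -/
noncomputable def Mx (a₀ a₁ : ℝ) (J J' : ℝ → R4 → R4) (x : ℝ × ℝ) : R3 →L[ℝ] R3 :=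
  (ContinuousLinearMap.snd ℝ ℝ R3).comp
    (W a₀ a₁ J J' ((1 + x.1) / 3, a₀ + x.2 * (a₁ - a₀)))

theorem Mx_off (h01 : a₀ < a₁) {x : ℝ × ℝ} (hx : x ∉ Q2) :
    Mx a₀ a₁ J J' x = ContinuousLinearMap.id ℝ R3 := by
  have : ((1 + x.1) / 3, a₀ + x.2 * (a₁ - a₀)) ∉ Rc a₀ a₁ := by
    rintro ⟨⟨h1, h2⟩, h3, h4⟩
    simp only at h1 h2 h3 h4
    apply hx
    have h5 : 0 < a₁ - a₀ := by linarith
    refine ⟨⟨by linarith, by linarith⟩, ?_, ?_⟩
    · by_contra h6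
      push Not at h6
      nlinarith
    · by_contra h6
      push Not at h6
      nlinarith
  rw [Mx, W_of_notMem this]
  rfl

theorem Red.Mx_smooth (R : Red s₀ a₀ a₁ s₁ V U J J') : ContDiff ℝ ∞ (Mx a₀ a₁ J J') := by
  have h1 : ContDiff ℝ ∞ (fun x : ℝ × ℝ => ((1 + x.1) / 3, a₀ + x.2 * (a₁ - a₀))) := by
    fun_prop
  exact contDiff_const.clm_comp (R.W_smooth.comp h1)

theorem Red.Mx_det (R : Red s₀ a₀ a₁ s₁ V U J J') (x : ℝ × ℝ) :
    0 < (Mx a₀ a₁ J J' x).det := by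
  have hne : ∀ x, (Mx a₀ a₁ J J' x).det ≠ 0 := by
    intro x h0
    have h1 : LinearMap.det (Mx a₀ a₁ J J' x).toLinearMap = 0 := h0
    have h2 := LinearMap.bot_lt_ker_of_det_eq_zero h1
    obtain ⟨v, hv, hv0⟩ := (Submodule.ne_bot_iff _).1 h2.ne'
    exact hv0 (R.W_inj _ v hv)
  have hc : Continuous fun x => (Mx a₀ a₁ J J' x).det :=
    ContinuousLinearMap.continuous_det.comp R.Mx_smooth.continuous
  by_contra hcon
  push Not at hcon
  have h1 : (0 : ℝ) ≤ (Mx a₀ a₁ J J' (-1, 0)).det := by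
    rw [Mx_off R.lt1 (x := (-1, 0)) (by rintro ⟨⟨h1, -⟩, -⟩; norm_num at h1)]
    simp [ContinuousLinearMap.det]
  obtain ⟨y, hy⟩ := mem_range_of_exists_le_of_exists_ge hc ⟨x, hcon⟩ ⟨_, h1⟩
  exact hne y hy

theorem Red.core_der' (R : Red s₀ a₀ a₁ s₁ V U J J') {q s : ℝ} (hq : q ∈ Icc (0 : ℝ) 1)
    (hs : s ∈ Icc s₀ s₁) (c : ℝ) :
    fderiv ℝ (J q) (s, (0 : R3)) (c, 0) = fderiv ℝ (J' q) (s, (0 : R3)) (c, 0) := by
  by_cases h : (q, s) ∈ Rc a₀ a₁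
  · exact R.core_der hq (R.inner h).2 c
  · rw [R.der_eq hq hs h]

/-- change of the normal framing of a family of germs -/
noncomputable def K (J : ℝ → R4 → R4) (X : ℝ × ℝ × ℝ → (R3 →L[ℝ] R4)) (a : ℝ × ℝ) (p : R4) : R4 :=
  J a.2 p + ((fderiv ℝ (J a.2) (p.1, (0 : R3))).comp (X (a.1, a.2, p.1) - nrm)) p.2

theorem K_eq {X : ℝ × ℝ × ℝ → (R3 →L[ℝ] R4)} {a : ℝ × ℝ} {p : R4}
    (h : X (a.1, a.2, p.1) = nrm) : K J X a p = J a.2 p := by
  rw [K, h, sub_self, ContinuousLinearMap.comp_zero, zero_apply, add_zero]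

theorem K_core {X : ℝ × ℝ × ℝ → (R3 →L[ℝ] R4)} {a : ℝ × ℝ} {s : ℝ} :
    K J X a (s, 0) = J a.2 (s, 0) := by
  rw [K, map_zero, add_zero]

theorem K_smooth (h : Fam2 Q2 (seg s₀ s₁) V U (fun a => J a.2)) {X : ℝ × ℝ × ℝ → (R3 →L[ℝ] R4)}
    (hX : ContDiff ℝ ∞ X) {a : ℝ × ℝ} (ha : a ∈ Q2) {p : R4} (hp : p ∈ seg s₀ s₁) :
    ∀ᶠ z : (ℝ × ℝ) × R4 in 𝓝 (a, p),
      ContDiffAt ℝ ∞ (fun z : (ℝ × ℝ) × R4 => K J X z.1 z.2) z := by
  have hp1 : p.1 ∈ Icc s₀ s₁ := ⟨hp.1, hp.2.1⟩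
  have h1 := h.smooth a ha p hp
  have h2 := der_smooth h ha.2 hp1
  have hg : ContDiff ℝ ∞ (fun z : (ℝ × ℝ) × R4 => (z.1.2, z.2.1)) :=
    (contDiff_snd.comp contDiff_fst).prodMk (contDiff_fst.comp contDiff_snd)
  have h3 := (hg.continuous.continuousAt (x := (a, p))).eventually h2
  have hg' : ContDiff ℝ ∞ (fun z : (ℝ × ℝ) × R4 => (z.1.1, z.1.2, z.2.1)) :=
    (contDiff_fst.comp contDiff_fst).prodMk hg
  have hX' : ContDiff ℝ ∞ (fun z : (ℝ × ℝ) × R4 => X (z.1.1, z.1.2, z.2.1) - nrm) :=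
    (hX.comp hg').sub contDiff_const
  filter_upwards [h1, h3] with z e1 e3
  have e4 : ContDiffAt ℝ ∞ (fun z : (ℝ × ℝ) × R4 => fderiv ℝ (J z.1.2) (z.2.1, (0 : R3))) z :=
    ContDiffAt.comp (g := fun x : ℝ × ℝ => fderiv ℝ (J x.1) (x.2, (0 : R3)))
      (f := fun z : (ℝ × ℝ) × R4 => (z.1.2, z.2.1)) z e3 hg.contDiffAt
  exact e1.add ((e4.clm_comp hX'.contDiffAt).clm_apply
    (contDiff_snd.comp contDiff_snd).contDiffAt)

theorem K_der (h : Fam2 Q2 (seg s₀ s₁) V U (fun a => J a.2)) {X : ℝ × ℝ × ℝ → (R3 →L[ℝ] R4)}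
    (hX : ContDiff ℝ ∞ X) {a : ℝ × ℝ} (ha : a ∈ Q2) {s : ℝ} (hs : s ∈ Icc s₀ s₁) :
    HasFDerivAt (K J X a) (fderiv ℝ (J a.2) (s, (0 : R3)) +
      ((fderiv ℝ (J a.2) (s, (0 : R3))).comp (X (a.1, a.2, s) - nrm)).comp
        (ContinuousLinearMap.snd ℝ ℝ R3)) ((s, (0 : R3)) : R4) := by
  have h1 := (diffAt h ha.2 (seg_mem hs)).hasFDerivAt
  have h2 := (der_smooth h ha.2 hs).self_of_nhds
  have hg : ContDiff ℝ ∞ (fun p : R4 => (a.2, p.1)) := contDiff_const.prodMk contDiff_fst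
  have h3 : ContDiffAt ℝ ∞ (fun p : R4 => fderiv ℝ (J a.2) (p.1, (0 : R3)))
      ((s, (0 : R3)) : R4) :=
    ContDiffAt.comp (g := fun x : ℝ × ℝ => fderiv ℝ (J x.1) (x.2, (0 : R3)))
      (f := fun p : R4 => (a.2, p.1)) _ h2 hg.contDiffAt
  have hg' : ContDiff ℝ ∞ (fun p : R4 => (a.1, a.2, p.1)) := contDiff_const.prodMk hg
  have hX' : ContDiff ℝ ∞ (fun p : R4 => X (a.1, a.2, p.1) - nrm) :=
    (hX.comp hg').sub contDiff_const
  have h4 : ContDiffAt ℝ ∞ (fun p : R4 =>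
      (fderiv ℝ (J a.2) (p.1, (0 : R3))).comp (X (a.1, a.2, p.1) - nrm))
      ((s, (0 : R3)) : R4) := h3.clm_comp hX'.contDiffAt
  have h5 := (h4.differentiableAt (by simp)).hasFDerivAt
  have h6 : HasFDerivAt (fun p : R4 => p.2) (ContinuousLinearMap.snd ℝ ℝ R3)
      ((s, (0 : R3)) : R4) := hasFDerivAt_snd
  have h7 := h1.add (h5.clm_apply h6)
  refine h7.congr_fderiv ?_
  rw [map_zero, add_zero]

theorem K_der_inj (h : Fam2 Q2 (seg s₀ s₁) V U (fun a => J a.2))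
    {X : ℝ × ℝ × ℝ → (R3 →L[ℝ] R4)}
    {a : ℝ × ℝ} (ha : a ∈ Q2) {s : ℝ} (hs : s ∈ Icc s₀ s₁)
    (hi : ∀ v, (X (a.1, a.2, s) v).2 = 0 → v = 0) :
    Function.Injective (fderiv ℝ (J a.2) (s, (0 : R3)) +
      ((fderiv ℝ (J a.2) (s, (0 : R3))).comp (X (a.1, a.2, s) - nrm)).comp
        (ContinuousLinearMap.snd ℝ ℝ R3)) := by
  rw [injective_iff_map_eq_zero]
  rintro ⟨c, v⟩ hcv
  have e : fderiv ℝ (J a.2) (s, (0 : R3)) ((c, 0) + X (a.1, a.2, s) v) = 0 := by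
    rw [← hcv]
    change _ = fderiv ℝ (J a.2) (s, (0 : R3)) (c, v) +
      fderiv ℝ (J a.2) (s, (0 : R3)) (X (a.1, a.2, s) v - nrm v)
    rw [← map_add]
    congr 1
    rw [nrm_apply]
    refine Prod.ext ?_ ?_
    · simp
    · simp
  have e2 := der_inj h ha.2 hs (e.trans (map_zero _).symm)
  have e3 : (X (a.1, a.2, s) v).2 = 0 := by
    have := congrArg Prod.snd e2
    simpa using this
  have e4 := hi v e3
  rw [e4] at e2 ⊢
  have e5 := congrArg Prod.fst e2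
  simp at e5
  rw [e5]
  rfl

/-- the frozen set of the families below -/
def Vf (a₀ a₁ : ℝ) (V : Set R4) : Set R4 := V ∩ {p | p.1 < a₀ ∨ a₁ < p.1}

theorem isOpen_Vf (hV : IsOpen V) : IsOpen (Vf a₀ a₁ V) :=
  hV.inter ((isOpen_lt continuous_fst continuous_const).union
    (isOpen_lt continuous_const continuous_fst))

theorem Vf_Rc {p : R4} (hp : p ∈ Vf a₀ a₁ V) (q : ℝ) : (q, p.1) ∉ Rc a₀ a₁ := by
  rintro ⟨-, h3, h4⟩
  simp only at h3 h4
  rcases hp.2 with h | h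
  · exact absurd h (not_lt.2 h3)
  · exact absurd h (not_lt.2 h4)

theorem Red.inU (R : Red s₀ a₀ a₁ s₁ V U J J') {q : ℝ} (hq : q ∈ Icc (0 : ℝ) 1) {p : R4}
    (hp : p ∈ seg s₀ s₁) (hpV : p ∉ Vf a₀ a₁ V) : J q p ∈ U := by
  by_cases h : p ∈ V
  · have h1 : J q p = J 0 p := R.fam.froz (0, q) ⟨by simp, hq⟩ (0, 0) ⟨by simp, by simp⟩ p h
    have h2 : ¬ (p.1 < a₀ ∨ a₁ < p.1) := fun h2 => hpV ⟨h, h2⟩
    push Not at h2
    have e : p = ((p.1, 0) : R4) := Prod.ext rfl hp.2.2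
    have := R.lt0
    have := R.lt2
    rw [h1, e]
    exact R.mem p.1 ⟨by linarith [h2.1], by linarith [h2.2]⟩
  · exact R.fam.inU (0, q) ⟨by simp, hq⟩ p hp h

theorem Red.inU' (R : Red s₀ a₀ a₁ s₁ V U J J') {q : ℝ} (hq : q ∈ Icc (0 : ℝ) 1) {p : R4}
    (hp : p ∈ seg s₀ s₁) (hpV : p ∉ Vf a₀ a₁ V) : J' q p ∈ U := by
  obtain ⟨s, hs, rfl⟩ := seg_eq hp
  rw [← R.core q hq s hs]
  exact R.inU hq hp hpV

theorem Red.fam2_K (R : Red s₀ a₀ a₁ s₁ V U J J') {X : ℝ × ℝ × ℝ → (R3 →L[ℝ] R4)}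
    (hX : ContDiff ℝ ∞ X) (hi : ∀ z v, (X z v).2 = 0 → v = 0)
    (hoff : ∀ t q s, (q, s) ∉ Rc a₀ a₁ → X (t, q, s) = nrm) :
    Fam2 Q2 (seg s₀ s₁) (Vf a₀ a₁ V) U (K J X) where
  smooth a ha p hp := K_smooth R.fam hX ha hp
  emb a ha := by
    rw [embOn_iff]
    refine ⟨fun p hp => ⟨slice (K_smooth R.fam hX ha hp), ?_⟩, ?_⟩
    · obtain ⟨s, hs, rfl⟩ := seg_eq hp
      rw [(K_der R.fam hX ha hs).fderiv]
      exact K_der_inj R.fam ha hs (hi _)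
    · have h1 : InjOn (J a.2) (seg s₀ s₁) := (R.fam.emb (0, a.2) ⟨by simp, ha.2⟩).2
      refine h1.congr fun p hp => ?_
      obtain ⟨s, hs, rfl⟩ := seg_eq hp
      exact K_core.symm
  froz a ha b hb p hp := by
    rw [K_eq (hoff _ _ _ (Vf_Rc hp _)), K_eq (hoff _ _ _ (Vf_Rc hp _))]
    exact R.fam.froz a ha b hb p hp.1
  inU a ha p hp hpV := by
    obtain ⟨s, hs, rfl⟩ := seg_eq hp
    rw [K_core]
    exact R.inU ha.2 hp hpV

/-- the comparison of framings as a function of three variables -/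
noncomputable def XW (a₀ a₁ : ℝ) (J J' : ℝ → R4 → R4) (z : ℝ × ℝ × ℝ) : R3 →L[ℝ] R4 :=
  W a₀ a₁ J J' z.2

/-- the first homotopy -/
noncomputable def L1 (a₀ a₁ : ℝ) (J J' : ℝ → R4 → R4) (a : ℝ × ℝ) (p : R4) : R4 :=
  (1 - a.1) • J' a.2 p + a.1 • K J (XW a₀ a₁ J J') a p

theorem Red.XW_smooth (R : Red s₀ a₀ a₁ s₁ V U J J') : ContDiff ℝ ∞ (XW a₀ a₁ J J') :=
  R.W_smooth.comp contDiff_snd

theorem Red.L1_der (R : Red s₀ a₀ a₁ s₁ V U J J') {a : ℝ × ℝ} (ha : a ∈ Q2) {s : ℝ}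
    (hs : s ∈ Icc s₀ s₁) :
    HasFDerivAt (L1 a₀ a₁ J J' a) (fderiv ℝ (J' a.2) (s, (0 : R3))) ((s, (0 : R3)) : R4) := by
  have h1 := (diffAt R.fam' ha.2 (seg_mem hs)).hasFDerivAt
  have h2 := K_der R.fam R.XW_smooth ha hs
  have h3 : fderiv ℝ (J a.2) (s, (0 : R3)) +
      ((fderiv ℝ (J a.2) (s, (0 : R3))).comp (XW a₀ a₁ J J' (a.1, a.2, s) - nrm)).comp
        (ContinuousLinearMap.snd ℝ ℝ R3) = fderiv ℝ (J' a.2) (s, (0 : R3)) := by
    refine ContinuousLinearMap.ext fun x => ?_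
    obtain ⟨c, v⟩ := x
    change fderiv ℝ (J a.2) (s, (0 : R3)) (c, v) +
      fderiv ℝ (J a.2) (s, (0 : R3)) (W a₀ a₁ J J' (a.2, s) v - nrm v) = _
    have e1 : ((c, v) : R4) = (c, 0) + (0, v) := by
      refine Prod.ext ?_ ?_ <;> simp
    rw [map_sub, R.W_key ha.2 hs, nrm_apply, e1, map_add, map_add, R.core_der' ha.2 hs]
    abel
  rw [h3] at h2
  refine ((h1.const_smul (1 - a.1)).add (h2.const_smul a.1)).congr_fderiv ?_
  rw [← add_smul]
  simp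

theorem L1_core {a : ℝ × ℝ} {s : ℝ} (h : J a.2 (s, 0) = J' a.2 (s, 0)) :
    L1 a₀ a₁ J J' a (s, 0) = J' a.2 (s, 0) := by
  rw [L1, K_core, h, ← add_smul]
  simp

theorem L1_eq {a : ℝ × ℝ} {p : R4} (h : J a.2 p = J' a.2 p) (h' : (a.2, p.1) ∉ Rc a₀ a₁) :
    L1 a₀ a₁ J J' a p = J' a.2 p := by
  rw [L1, K_eq (show XW a₀ a₁ J J' (a.1, a.2, p.1) = nrm from W_of_notMem h'), h, ← add_smul]
  simp

theorem Red.fam2_L1 (R : Red s₀ a₀ a₁ s₁ V U J J') :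
    Fam2 Q2 (seg s₀ s₁) (Vf a₀ a₁ V) U (L1 a₀ a₁ J J') := by
  have sm : ∀ a ∈ Q2, ∀ p ∈ seg s₀ s₁, ∀ᶠ z : (ℝ × ℝ) × R4 in 𝓝 (a, p),
      ContDiffAt ℝ ∞ (fun z : (ℝ × ℝ) × R4 => L1 a₀ a₁ J J' z.1 z.2) z := by
    intro a ha p hp
    filter_upwards [R.fam'.smooth a ha p hp, K_smooth R.fam R.XW_smooth ha hp] with z e1 e2
    have e3 : ContDiffAt ℝ ∞ (fun z : (ℝ × ℝ) × R4 => z.1.1) z :=
      (contDiff_fst.comp contDiff_fst).contDiffAt
    exact ((contDiffAt_const.sub e3).smul e1).add (e3.smul e2)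
  refine ⟨sm, fun a ha => ?_, fun a ha b hb p hp => ?_, fun a ha p hp hpV => ?_⟩
  · rw [embOn_iff]
    refine ⟨fun p hp => ⟨slice (sm a ha p hp), ?_⟩, ?_⟩
    · obtain ⟨s, hs, rfl⟩ := seg_eq hp
      rw [(R.L1_der ha hs).fderiv]
      exact der_inj R.fam' ha.2 hs
    · have h1 : InjOn (J' a.2) (seg s₀ s₁) := (R.fam'.emb (0, a.2) ⟨by simp, ha.2⟩).2
      refine h1.congr fun p hp => ?_
      obtain ⟨s, hs, rfl⟩ := seg_eq hp
      exact (L1_core (R.core _ ha.2 s hs)).symm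
  · rw [L1_eq (R.eqV' ha.2 hp.1) (Vf_Rc hp _), L1_eq (R.eqV' hb.2 hp.1) (Vf_Rc hp _)]
    exact R.fam'.froz a ha b hb p hp.1
  · obtain ⟨s, hs, rfl⟩ := seg_eq hp
    rw [L1_core (R.core _ ha.2 s hs)]
    exact R.inU' ha.2 hp hpV

/-- the framings of the second homotopy -/
noncomputable def X2 (a₀ a₁ : ℝ) (J J' : ℝ → R4 → R4) (H : ℝ × ℝ × ℝ → (R3 →L[ℝ] R3))
    (z : ℝ × ℝ × ℝ) : R3 →L[ℝ] R4 :=
  (ContinuousLinearMap.inl ℝ ℝ R3).comp
      ((1 - z.1) • ((ContinuousLinearMap.fst ℝ ℝ R3).comp (W a₀ a₁ J J' z.2))) +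
    nrm.comp (H (z.1, 3 * z.2.1 - 1, (z.2.2 - a₀) / (a₁ - a₀)))

theorem X2_apply {H : ℝ × ℝ × ℝ → (R3 →L[ℝ] R3)} {t q s : ℝ} {v : R3} :
    X2 a₀ a₁ J J' H (t, q, s) v =
      ((1 - t) * (W a₀ a₁ J J' (q, s) v).1, H (t, 3 * q - 1, (s - a₀) / (a₁ - a₀)) v) := by
  refine Prod.ext ?_ ?_ <;> simp [X2]

theorem off_Q2 (h01 : a₀ < a₁) {q s : ℝ} (h : (q, s) ∉ Rc a₀ a₁) :
    (3 * q - 1, (s - a₀) / (a₁ - a₀)) ∉ Q2 := by
  rintro ⟨⟨h1, h2⟩, h3, h4⟩
  simp only at h1 h2 h3 h4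
  have h5 : 0 < a₁ - a₀ := by linarith
  rw [le_div_iff₀ h5] at h3
  rw [div_le_iff₀ h5] at h4
  exact h ⟨⟨by linarith, by linarith⟩, by linarith, by linarith⟩

theorem inj_of_det {A : R3 →L[ℝ] R3} (h : 0 < A.det) {v : R3} (hv : A v = 0) : v = 0 := by
  have h1 : LinearMap.det A.toLinearMap ≠ 0 := h.ne'
  exact (LinearMap.equivOfDetNeZero A.toLinearMap h1).injective (hv.trans (map_zero _).symm)

theorem isCompact_seg (s₀ s₁ : ℝ) : IsCompact (seg s₀ s₁) := by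
  have : seg s₀ s₁ = Icc s₀ s₁ ×ˢ {(0 : R3)} := by
    ext p
    constructor
    · rintro ⟨h1, h2, h3⟩
      exact ⟨⟨h1, h2⟩, h3⟩
    · rintro ⟨⟨h1, h2⟩, h3⟩
      exact ⟨h1, h2, h3⟩
  rw [this]
  exact isCompact_Icc.prod isCompact_singleton

theorem Red.main (ch : StCH4) (pi2 : StPI2) (R : Red s₀ a₀ a₁ s₁ V U J J') (hU : IsOpen U)
    {Θ Θ' : R4 → R4} (hΘ : LPush U (seg s₀ s₁) J Θ) (hΘ' : LPush U (seg s₀ s₁) J' Θ') :
    LIso U (seg s₀ s₁) (J 0) (J 1) Θ Θ' := by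
  obtain ⟨H, hH, hdet, hH0, hH1, hoff⟩ := pi2 (Mx a₀ a₁ J J') R.Mx_smooth R.Mx_det
    fun x hx => Mx_off R.lt1 hx
  have hVf : IsOpen (Vf a₀ a₁ V) := isOpen_Vf R.openV
  have hL := isCompact_seg s₀ s₁
  have h5 : 0 < a₁ - a₀ := by linarith [R.lt1]
  have xs : ContDiff ℝ ∞ (X2 a₀ a₁ J J' H) := by
    have g1 : ContDiff ℝ ∞ (fun z : ℝ × ℝ × ℝ =>
        (z.1, 3 * z.2.1 - 1, (z.2.2 - a₀) / (a₁ - a₀))) := by fun_prop
    have g2 : ContDiff ℝ ∞ (fun z : ℝ × ℝ × ℝ => 1 - z.1) := by fun_prop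
    exact (contDiff_const.clm_comp (g2.smul
      (contDiff_const.clm_comp (R.W_smooth.comp contDiff_snd)))).add
      (contDiff_const.clm_comp (hH.comp g1))
  have xi : ∀ z v, (X2 a₀ a₁ J J' H z v).2 = 0 → v = 0 := by
    rintro ⟨t, q, s⟩ v hv
    rw [X2_apply] at hv
    exact inj_of_det (hdet _) hv
  have xo : ∀ t q s, (q, s) ∉ Rc a₀ a₁ → X2 a₀ a₁ J J' H (t, q, s) = nrm := by
    intro t q s h
    refine ContinuousLinearMap.ext fun v => ?_
    rw [X2_apply, W_of_notMem h, hoff _ _ (off_Q2 R.lt1 h), nrm_apply]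
    simp
  have x0 : ∀ q s, X2 a₀ a₁ J J' H (0, q, s) = W a₀ a₁ J J' (q, s) := by
    intro q s
    refine ContinuousLinearMap.ext fun v => ?_
    rw [X2_apply, hH0, Mx]
    have e : ((1 + (3 * q - 1)) / 3, a₀ + (s - a₀) / (a₁ - a₀) * (a₁ - a₀)) = (q, s) := by
      refine Prod.ext ?_ ?_
      · simp only
        ring
      · simp only
        rw [div_mul_cancel₀ _ h5.ne']
        ring
    simp only [e]
    refine Prod.ext ?_ ?_ <;> simp
  have x1 : ∀ q s, X2 a₀ a₁ J J' H (1, q, s) = nrm := by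
    intro q s
    refine ContinuousLinearMap.ext fun v => ?_
    rw [X2_apply, hH1, nrm_apply]
    simp
  have n0 : ∀ s, ((0 : ℝ), s) ∉ Rc a₀ a₁ := by
    rintro s ⟨⟨h1, -⟩, -⟩
    norm_num at h1
  have n1 : ∀ s, ((1 : ℝ), s) ∉ Rc a₀ a₁ := by
    rintro s ⟨⟨-, h1⟩, -⟩
    norm_num at h1
  have m0 : (0 : ℝ) ∈ Icc (0 : ℝ) 1 := by simp
  have m1 : (1 : ℝ) ∈ Icc (0 : ℝ) 1 := by simp
  have fK : Fam2 Q2 (seg s₀ s₁) (Vf a₀ a₁ V) U (K J (X2 a₀ a₁ J J' H)) := R.fam2_K xs xi xo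
  have k0 : ∀ t p, K J (X2 a₀ a₁ J J' H) (t, 0) p = J 0 p := fun t p => K_eq (xo _ _ _ (n0 _))
  have k1 : ∀ t p, K J (X2 a₀ a₁ J J' H) (t, 1) p = J 1 p := fun t p => K_eq (xo _ _ _ (n1 _))
  have fE : Fam2 Q2 (seg s₀ s₁) (Vf a₀ a₁ V) U
      (fun a => (fun q => K J (X2 a₀ a₁ J J' H) (0, q)) a.2) :=
    fK.comp (θ := fun a : ℝ × ℝ => ((0 : ℝ), a.2)) (contDiff_const.prodMk contDiff_snd)
      fun a ha => ⟨by simp, ha.2⟩
  obtain ⟨ΘE, hE⟩ := exists_lpush1 ch hL hVf hU (J := fun q => K J (X2 a₀ a₁ J J' H) (0, q)) fE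
  have l2 := push_htpy ch hL hVf hU (J := fun t q => K J (X2 a₀ a₁ J J' H) (t, q)) fK
    ⟨univ, isOpen_univ, subset_univ _, fun u _ p _ => by rw [k0, k0]⟩
    ⟨univ, isOpen_univ, subset_univ _, fun u _ p _ => by rw [k1, k1]⟩ hE
    (hΘ.congr ⟨univ, isOpen_univ, subset_univ _, fun q _ p _ =>
      (K_eq (J := J) (a := (1, q)) (x1 q p.1)).symm⟩)
  have l2' : LIso U (seg s₀ s₁) (J 0) (J 1) ΘE Θ :=
    l2.congr ⟨univ, isOpen_univ, subset_univ _, fun p _ => k0 0 p⟩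
      ⟨univ, isOpen_univ, subset_univ _, fun p _ => k1 0 p⟩
  obtain ⟨N0, hN0, hLN0, hN0e⟩ := R.e0 0 m0 (by norm_num)
  obtain ⟨N1, hN1, hLN1, hN1e⟩ := R.e1 1 m1 (by norm_num)
  have j0 : ∀ t, ∀ p ∈ N0, L1 a₀ a₁ J J' (t, 0) p = J' 0 p := fun t p hp =>
    L1_eq (hN0e hp) (n0 _)
  have j1 : ∀ t, ∀ p ∈ N1, L1 a₀ a₁ J J' (t, 1) p = J' 1 p := fun t p hp =>
    L1_eq (hN1e hp) (n1 _)
  have l1 := push_htpy ch hL hVf hU (J := fun t q => L1 a₀ a₁ J J' (t, q)) R.fam2_L1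
    ⟨N0, hN0, hLN0, fun u _ p hp => by rw [j0 u p hp, j0 0 p hp]⟩
    ⟨N1, hN1, hLN1, fun u _ p hp => by rw [j1 u p hp, j1 0 p hp]⟩
    (hΘ'.congr ⟨univ, isOpen_univ, subset_univ _, fun q _ p _ => by
      simp [L1]⟩)
    (hE.congr ⟨univ, isOpen_univ, subset_univ _, fun q _ p _ => by
      simp only [L1, K, x0, XW, sub_self, zero_smul, one_smul, zero_add]⟩)
  have l1' : LIso U (seg s₀ s₁) (J 0) (J 1) Θ' ΘE :=
    l1.congr ⟨N0, hN0, hLN0, fun p hp => (j0 0 p hp).trans (hN0e hp).symm⟩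
      ⟨N1, hN1, hLN1, fun p hp => (j1 0 p hp).trans (hN1e hp).symm⟩
  exact (l1'.trans l2').symm

end two

end FRAME

open FRAME

theorem m_FRAME (ch : StCH4) (pi2 : StPI2) : StFRAME := by
  intro D V J J' Θ Θ' hV hs0 hs1 hJ hJ' hcore heqV hmem hn0 hn1 hΘ hΘ'
  change Fam2 Q2 (seg D.s₀ D.s₁) V D.U (fun a => J a.2) at hJ
  change Fam2 Q2 (seg D.s₀ D.s₁) V D.U (fun a => J' a.2) at hJ'
  change NearEq (J 0) (J' 0) (seg D.s₀ D.s₁) at hn0
  change NearEq (J 1) (J' 1) (seg D.s₀ D.s₁) at hn1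
  change LPush D.U (seg D.s₀ D.s₁) J Θ at hΘ
  change LPush D.U (seg D.s₀ D.s₁) J' Θ' at hΘ'
  change LIso D.U (seg D.s₀ D.s₁) (J 0) (J 1) Θ Θ'
  have hL := isCompact_seg D.s₀ D.s₁
  have hlt : D.s₀ < D.s₁ := by linarith [D.h₀, D.h₁, D.h₂]
  have hgc : Continuous (fun s : ℝ => ((s, (0 : R3)) : R4)) := by fun_prop
  obtain ⟨ε₀, he0, hb0⟩ := Metric.isOpen_iff.1 (hV.preimage hgc) D.s₀ hs0
  obtain ⟨ε₁, he1, hb1⟩ := Metric.isOpen_iff.1 (hV.preimage hgc) D.s₁ hs1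
  -- the reparametrization
  obtain ⟨ϑ, hϑdef⟩ : ∃ ϑ : ℝ → ℝ, ϑ = fun q => step (3 * q - 1) := ⟨_, rfl⟩
  have hϑ : ContDiff ℝ ∞ ϑ := by
    rw [hϑdef]
    exact contDiff_step.comp (by fun_prop)
  have hm : ∀ q ∈ Icc (0 : ℝ) 1, ϑ q ∈ Icc (0 : ℝ) 1 := fun q _ => by
    rw [hϑdef]; exact step_mem _
  have hϑ0 : ∀ q, q ≤ 1 / 3 → ϑ q = 0 := fun q hq => by
    rw [hϑdef]; exact step_of_nonpos (by linarith)
  have hϑ1 : ∀ q, 2 / 3 ≤ q → ϑ q = 1 := fun q hq => by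
    rw [hϑdef]; exact step_of_one_le (by linarith)
  have e0 : ϑ 0 = 0 := hϑ0 0 (by norm_num)
  have e1 : ϑ 1 = 1 := hϑ1 1 (by norm_num)
  have hθ : ContDiff ℝ ∞ (fun a : ℝ × ℝ => ((0 : ℝ), ϑ a.2)) :=
    contDiff_const.prodMk (hϑ.comp contDiff_snd)
  have f1 : Fam2 Q2 (seg D.s₀ D.s₁) V D.U (fun a => (fun q => J (ϑ q)) a.2) :=
    hJ.comp (θ := fun a : ℝ × ℝ => ((0 : ℝ), ϑ a.2)) hθ fun a ha => ⟨by simp, hm _ ha.2⟩
  have f2 : Fam2 Q2 (seg D.s₀ D.s₁) V D.U (fun a => (fun q => J' (ϑ q)) a.2) :=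
    hJ'.comp (θ := fun a : ℝ × ℝ => ((0 : ℝ), ϑ a.2)) hθ fun a ha => ⟨by simp, hm _ ha.2⟩
  obtain ⟨Θ₁, hΘ₁⟩ := exists_lpush1 ch hL hV D.openU (J := fun q => J (ϑ q)) f1
  obtain ⟨Θ₂, hΘ₂⟩ := exists_lpush1 ch hL hV D.openU (J := fun q => J' (ϑ q)) f2
  have r1 := push_reparam ch hL hV D.openU hJ hϑ hm e0 e1 hΘ hΘ₁
  have r2 := push_reparam ch hL hV D.openU hJ' hϑ hm e0 e1 hΘ' hΘ₂
  have hμ : 0 < min (min ε₀ ε₁) (D.s₁ - D.s₀) := lt_min (lt_min he0 he1) (by linarith)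
  obtain ⟨μ, hμdef⟩ : ∃ μ, μ = min (min ε₀ ε₁) (D.s₁ - D.s₀) := ⟨_, rfl⟩
  rw [← hμdef] at hμ
  have m1 : μ ≤ ε₀ := by rw [hμdef]; exact (min_le_left _ _).trans (min_le_left _ _)
  have m2 : μ ≤ ε₁ := by rw [hμdef]; exact (min_le_left _ _).trans (min_le_right _ _)
  have m3 : μ ≤ D.s₁ - D.s₀ := by rw [hμdef]; exact min_le_right _ _
  have R : Red D.s₀ (D.s₀ + μ / 3) (D.s₁ - μ / 3) D.s₁ V D.U (fun q => J (ϑ q))
      (fun q => J' (ϑ q)) :=
    { openV := hV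
      lt0 := by linarith
      lt1 := by linarith
      lt2 := by linarith
      V0 := fun s hs => by
        refine hb0 ?_
        rw [Metric.mem_ball, Real.dist_eq, abs_lt]
        constructor <;> linarith [hs.1, hs.2]
      V1 := fun s hs => by
        refine hb1 ?_
        rw [Metric.mem_ball, Real.dist_eq, abs_lt]
        constructor <;> linarith [hs.1, hs.2]
      fam := f1
      fam' := f2
      core := fun q hq s hs => hcore _ (hm q hq) s hs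
      eqV := fun p hp => by simp only [e0]; exact heqV p hp
      mem := fun s hs => by simp only [e0]; exact hmem s hs
      e0 := fun q _ hq => by simp only [hϑ0 q hq]; exact hn0
      e1 := fun q _ hq => by simp only [hϑ1 q hq]; exact hn1 }
  have r3 := R.main ch pi2 D.openU hΘ₁ hΘ₂
  simp only [e0, e1] at r3
  exact r1.trans (r3.trans ((r2.congr hn0.symm hn1.symm).symm))

end Pool.Agent.Helper27.H


end
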