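import Pool.Agent.Helper18.BI.R.FinDefs
import Pool.Agent.Helper18.BI.S5.FinDefs8
import Pool.Agent.Helper65.Barb.Defs
import Pool.Agent.Helper70.BI.FinDefs
import Pool.Agent.Helper70.BI.C.P07
import Pool.Agent.Helper70.BI.C.P13
import Pool.Agent.Helper70.BI.C.P14

/-!
# Project BI (MP_8e98f2_gt): collected modules, part 15

The contents of the modules
* Helper18.BI.H.StEnd
* Helper18.BI.R.StR
* Helper18.BI.H.EndR4
* Helper18.BI.R.StR5
* Helper18.BI.R.M_HEP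
* Helper70.BI.T.StT

in one file, so that the whole proof builds in a short time.
-/

namespace Pool.Agent.Helper18.BI
end Pool.Agent.Helper18.BI

namespace Pool.Agent.Helper18.BI.H
end Pool.Agent.Helper18.BI.H

namespace Pool.Agent.Helper18.BI.R
end Pool.Agent.Helper18.BI.R

namespace Pool.Agent.Helper18.FinR
end Pool.Agent.Helper18.FinR

namespace Pool.Agent.Helper27.H
end Pool.Agent.Helper27.H

namespace Pool.Agent.Helper65.Barb
end Pool.Agent.Helper65.Barb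

namespace Pool.Agent.Helper70.BI
end Pool.Agent.Helper70.BI

namespace Pool.Agent.Helper70.Fin
end Pool.Agent.Helper70.Fin


/-! ## Helper18.BI.H.StEnd -/

section

/-!
# Project BI, stage 3 (H): the end

The fixed cuff is `sph 1`, the cuff `sph 0` is moved by a homotopy in the complement of the fixed cuff.
-/

set_option autoImplicit false

open scoped Manifold ContDiff Topology ComplexConjugate
open Set Pool.Agent.Helper65.Barb Pool.Agent.Helper18.BI
open Pool.Agent.Helper70.BI (I4 IsW MW StMain2)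
open Pool.Agent.Helper27.H (ArcD StArcH)

namespace Pool.Agent.Helper18.BI.H

/-- the loop of arcs of the germ `F`: on `[n₀, n₁]` the arc is `F (sq ε (s, 73/100 • mm q s))`, elsewhere it is the
base arc -/
noncomputable def loopF (F : R4 → R4) (n₀ n₁ ε : ℝ) (D : ArcD) (q s : ℝ) : R4 :=
  open Classical in if n₀ ≤ s ∧ s ≤ n₁ then F (sq ε (s, (73 / 100 : ℝ) • mm q s)) else D.c s

/-- **HAT** (helper27) for finite families.  For germs `F i` which agree with the germ `F` near `sph 1 ∪ neckE` and all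
small `ε` there is an arc datum `D`, whose wall is close to `F '' sph 1`, such that for all `i` the class of the
loop of arcs of `F i` is the implantation class of `F i`. -/
def StHATn : Prop :=
  ∀ (ι : Type) [Finite ι] (F : R4 → R4) (Fi φ : ι → R4 → R4) (V : Set R4), EmbOn I4 F SP →
    (∀ i, EmbOn I4 (Fi i) SP) → IsOpen V → sph 1 ∪ neckE ⊆ V → (∀ i, EqOn F (Fi i) V) →
    (∀ i, Thin I4 (Fi i) (φ i)) → ∀ κ > 0, ∃ ε₀ > 0, ∀ ε ∈ Ioo 0 ε₀, ∃ D : ArcD,
      D.m₀ = 9 / 20 ∧ D.m₁ = 11 / 20 ∧ D.s₀ < 3 / 10 ∧ 7 / 10 < D.s₁ ∧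
      (∀ x, x ∉ D.U → ∃ y ∈ F '' sph 1, dist x y < κ) ∧
      (∀ s ∈ Icc (3 / 10 : ℝ) (7 / 10), D.c s = F (sq ε (s, ((73 / 100 : ℝ), 0)))) ∧
      ∀ i, D.Cls (loopF (Fi i) (3 / 10) (7 / 10) ε D) (φ i)

/-- **(H) for `R4`.** -/
def StHMain : Prop :=
  ∀ (F F' : R4 → R4) (U : Set R4) (h : ℝ × R4 → R4) (W φ φ' : R4 → R4), IsW W →
    EmbOn I4 F SP → EmbOn I4 F' SP → IsOpen U → sph 1 ⊆ U → EqOn F F' U →
    ContinuousOn h (Icc (0 : ℝ) 1 ×ˢ sph 0) → (∀ p ∈ sph 0, h (0, p) = F p) →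
    (∀ p ∈ sph 0, h (1, p) = F' p) → (∀ u ∈ Icc (0 : ℝ) 1, ∀ p ∈ sph 0, h (u, p) ∉ F '' sph 1) →
    Thin I4 F φ → Thin I4 F' φ' → CIsot I4 φ' φ ∨ CIsot I4 φ' (fun x => W (φ x))

end Pool.Agent.Helper18.BI.H


end

/-! ## Helper18.BI.R.StR -/

section

/-!
# Project BI, stage 4 (R): the homomorphism, part 1 (in `R4`)

For a fixed cuff `A = F '' sph 1` the implantation class modulo `W` is a homomorphism of the class of the other cuff in
the second homotopy group of the complement of `A`.  Statements (as `Prop` definitions) with complete proofs in the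
docstrings.  A module `M_X` proves `theorem m_X : StX` (possibly from other statements as hypotheses `(h : StY)`).
-/

set_option autoImplicit false

open scoped Manifold ContDiff Topology ComplexConjugate
open Set Pool.Agent.Helper65.Barb Pool.Agent.Helper18.BI
open Pool.Agent.Helper70.BI (I4 IsW MW)
open Pool.Agent.Helper27.H (ArcD StArcH)
open Pool.Agent.Helper18.BI.H

namespace Pool.Agent.Helper18.BI.R

/-! ## loops of arcs and squares -/

/-- A smooth loop of arcs (not necessarily embedded); `c q s` is the point with parameter `s` of the arc with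
parameter `q ∈ [0,1]`. -/
structure LoopOK (D : ArcD) (c : ℝ → ℝ → R4) : Prop where
  smooth : ContDiff ℝ ∞ (fun z : ℝ × ℝ => c z.1 z.2)
  froz : ∀ q ∈ Icc (0 : ℝ) 1, ∀ s, (s ≤ D.m₀ ∨ D.m₁ ≤ s) → c q s = D.c s
  inU : ∀ q ∈ Icc (0 : ℝ) 1, ∀ s ∈ Icc D.m₀ D.m₁, c q s ∈ D.U
  start : ∀ s, c 0 s = D.c s
  stop : ∀ s, c 1 s = D.c s

/-- concatenation of smooth loops of arcs -/
noncomputable def cat (D : ArcD) (c c' : ℝ → ℝ → R4) (q s : ℝ) : R4 :=
  c (step (2 * q)) s + c' (step (2 * q - 1)) s - D.c s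

/-- concatenation of squares -/
noncomputable def qcat (f f' : ℝ → ℝ → R4) (q s : ℝ) : R4 :=
  if q ≤ 1 / 2 then f (2 * q) s else f' (2 * q - 1) s

/-- Homotopy of squares in `D.U`, relative to the boundary, where the squares are equal to the base arc. -/
def SH (D : ArcD) (f g : ℝ → ℝ → R4) : Prop :=
  ∃ H : ℝ × ℝ × ℝ → R4,
    ContinuousOn H (Icc (0 : ℝ) 1 ×ˢ (Icc (0 : ℝ) 1 ×ˢ Icc D.m₀ D.m₁)) ∧
    (∀ q ∈ Icc (0 : ℝ) 1, ∀ s ∈ Icc D.m₀ D.m₁, H (0, q, s) = f q s ∧ H (1, q, s) = g q s) ∧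
    ∀ u ∈ Icc (0 : ℝ) 1, ∀ q ∈ Icc (0 : ℝ) 1, ∀ s ∈ Icc D.m₀ D.m₁, H (u, q, s) ∈ D.U ∧
      ((q = 0 ∨ q = 1 ∨ s = D.m₀ ∨ s = D.m₁) → H (u, q, s) = D.c s)

/-- the square `f`, with boundary values `y₀`, is moved to a square with boundary values `D.c s` -/
noncomputable def shp (D : ArcD) (y₀ : R4) (f : ℝ → ℝ → R4) (q s : ℝ) : R4 := f q s + (D.c s - y₀)

/-- `χ` is a class of the square `f` (with boundary values `y₀`): of a smooth loop of embedded arcs homotopic to it. -/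
def HasCl (D : ArcD) (y₀ : R4) (f : ℝ → ℝ → R4) (χ : R4 → R4) : Prop :=
  ∃ c : ℝ → ℝ → R4, LoopOK D c ∧ D.Cls c χ ∧ SH D c (shp D y₀ f)

/-- MODULE MULT (helper27).  The class of a concatenation.
Proof.  Loops of thick arcs `J`, `J'` with `TCls J χ`, `TCls J' χ'`.  `J'' q p = J (step (2 q)) p + J' (step (2 q - 1)) p - D.J p`;
near `L`, `J 1 = D.J = J' 0`, so `J'' q = J (step (2q))` for `q ≤ 1/2` and `J' (step (2q-1))` for `q ≥ 1/2` as germs along `L`.  The push along `J''` is `Θ' ∘ Θ`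
(concatenate the isotopies, reparametrized by `step`), `Phi` is multiplicative (`StPhi` (4)). -/
def StMULT : Prop :=
  ∀ (D : ArcD) (c c' : ℝ → ℝ → R4) (χ χ' : R4 → R4), LoopOK D c → LoopOK D c' → D.Cls c χ →
    D.Cls c' χ' → D.Cls (cat D c c') (fun x => χ' (χ x))

/-- MODULE INV (helper27).  The class of the reversed loop.  (From `StMULT`, and the fourth and fifth claims of `StCls` applied to the homotopy
`(u, q) ↦` the concatenation of `c` on `[0, 1-u]` with its inverse, which consists of embedded arcs; or directly with the inverse push.) -/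
def StINV : Prop :=
  ∀ (D : ArcD) (c : ℝ → ℝ → R4) (χ χ' : R4 → R4), LoopOK D c → D.Cls c χ →
    (∀ x, χ (χ' x) = x) → (∀ x, χ' (χ x) = x) → D.Cls (fun q s => c (1 - q) s) χ'

/-- MODULE SMG.  Smoothing relative to the boundary.
Proof.  `τ u = step (3 u - 1)` (`0` for `u ≤ 1/3`, `1` for `u ≥ 2/3`) and `S (u, q, s) = (1 - τ u) • c₀ q s + τ u • c₁ q s`, smooth on `ℝ³`.  `C` = the closed
cube `[0,1] × [0,1] × [m₀,m₁]`, `H` the homotopy on `C` (`SH`); `S = H` on the boundary `∂C` of `C`.  `H '' C` is compact, contained in the open set `U`, so there is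
`κ > 0` such that the closed `2κ`-neighbourhood of `H '' C` is in `U`.  By compactness there is `r > 0` with `‖S z - H z‖ ≤ κ/2` for all `z ∈ C` at a distance `≤ 2 r` from `∂C`
(i.e. with `u`, `1-u`, `q`, `1-q`, `s-m₀` or `m₁-s` `≤ 2r`).  `λ : ℝ³ → [0,1]` continuous, `0` outside the cube `C_r = {z ∈ C at distance ≥ r from ∂C}` and `1` on `C_{2r}` (product of
piecewise linear functions of the coordinates).  `g z = S z + λ z • (H z - S z)` for `z ∈ C`, `g z = S z` for `z ∉ C`: continuous on `ℝ³`, within `κ/2` of `H` on `C`, equal to `S` off `C_r`.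
`Continuous.exists_contDiff_approx_and_eqOn` (used in `Pool/Agent/Helper18/BI/H/M_SM.lean` and in `StBAR`) gives a smooth `c` with `‖c - g‖ ≤ κ/2` and `c = g = S` on the closed complement of the open cube
`{z ∈ C at distance > r/2 from ∂C}` (`g = S` is smooth on an open neighbourhood of this set).  `c` is in `U` for `z ∈ C`; for `z ∉ C`, or on `∂C`, `c = S`: frozen, `start`, `stop`
(for `q = 0, 1` and `u ∈ [0,1]`, any `s`: `c = S = D.c s`); `c (0, q, s) = c₀ q s` for all `q`, `s`. -/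
def StSMG : Prop :=
  ∀ (D : ArcD) (c₀ c₁ : ℝ → ℝ → R4), LoopOK D c₀ → LoopOK D c₁ → SH D c₀ c₁ →
    ∃ c : ℝ × ℝ × ℝ → R4, D.Htpy c ∧ (∀ q s, c (0, q, s) = c₀ q s) ∧ ∀ q s, c (1, q, s) = c₁ q s

/-- MODULE HCL.  The calculus of `HasCl` (uses `StMULT`, `StINV`, `StSMG`, `StCls`, `StArcH`, `StT2`, `StCI`; `cls_imm_inj` of `EndR4.lean`).
`SH D` is symmetric (`H (1 - u, ..)`) and transitive (concatenation in `u`); it is reflexive on squares which are continuous, in `U` and equal to `D.c` on the boundary.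
(1) `c q s = D.c s` (`StCls`, last claim), `SH` constant.
(2) `c'' = cat D c c'`: `LoopOK` (`step` is smooth, `step = 0` on `(-∞, 0]`, `1` on `[1, ∞)`, so for `q ≤ 1/2` the value is `c (step (2q)) s` and for `q ≥ 1/2` it is `c' (step (2q-1)) s`);
`StMULT`; homotopy: for `q ≤ 1/2` `H (u, (1-u) step (2q) + u (2q), s)`, for `q ≥ 1/2` `H' (u, (1-u) step (2q-1) + u (2q-1), s)`; at `q = 1/2` both are `D.c s` (`H (u, 1, s) = D.c s`).
(3) `c (1-q) s`, `StINV`, `H (u, 1-q, s)`.  (4) transitivity.  (5) `StCls`, second claim.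
(6) `SH D c (shp f)`, `SH D c' (shp f)` give `SH D c c'`; `StSMG` gives a homotopy `g` with `D.Htpy g`, `g (0, ..) = c`, `g (1, ..) = c'`, `StArcH` (the ends are embedded by `cls_imm_inj`). -/
def StHCL : Prop :=
  ∀ (D : ArcD) (y₀ : R4),
    HasCl D y₀ (fun _ _ => y₀) (fun x => x) ∧
    (∀ f f' χ χ', HasCl D y₀ f χ → HasCl D y₀ f' χ' →
      HasCl D y₀ (qcat f f') (fun x => χ' (χ x))) ∧
    (∀ f χ χ', HasCl D y₀ f χ → (∀ x, χ (χ' x) = x) → (∀ x, χ' (χ x) = x) →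
      HasCl D y₀ (fun q s => f (1 - q) s) χ') ∧
    (∀ f f' χ, HasCl D y₀ f χ → SH D (shp D y₀ f) (shp D y₀ f') → HasCl D y₀ f' χ) ∧
    (∀ f χ χ', HasCl D y₀ f χ → CIsot I4 χ χ' → HasCl D y₀ f χ') ∧
    (∀ f χ, HasCl D y₀ f χ → CIsot I4 χ χ) ∧
    ∀ W f χ χ', IsW W → HasCl D y₀ f χ → HasCl D y₀ f χ' →
      CIsot I4 χ' χ ∨ CIsot I4 χ' (fun x => W (χ x))

/-! ## germs -/

/-- the unit sphere of three-space -/
def S2 : Set R3 := {m | nsq m = 1}

/-- the base point: a point of the outer part of the bar -/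
noncomputable def bp (F : R4 → R4) : R4 := F (bar (73 / 100))

/-- MODULE BAS.  The loop of arcs of a germ is homotopic to its whiskered sphere (uses `StSM`, `StS2`, `StS3`, `StS4`, `StS5`; compare `Pool/Agent/Helper18/BI/H/M_SM.lean`).
Proof.  `K = F '' sph 1` is compact and does not contain the points `F' (nu m)` (`nu m ∈ SP \ sph 1`: `nu m ∈ sph 0` or `nu m = bar a` with `a ≤ 73/100`; `F' = F` on `sph 1`, `F'` injective on `SP`), `m ∈ S2` (compact), so
there is `κ > 0` with `4 κ ≤ dist (F' (nu m)) y` for all `m ∈ S2`, `y ∈ K`.  By the continuity of `sq` up to `ε = 0` (`StS3`, as in `M_SM.lean`) there is `ε₀` such that for `ε < ε₀`, `m ∈ S2`, `s ∈ [3/10, 7/10]` the point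
`sq ε (s, 73/100 • m)` is in the open set where `F'` is smooth and `F' (sq ε (s, 73/100 • m))` is within `κ` of `F' (nu m)` (`sq 0 (s, x) = sq 0 (1/2, x)`).
`c = loopF F' (3/10) (7/10) ε D`.  `LoopOK`: smooth: near a point with `3/10 < s < 7/10` it is `F' (sq ε (s, 73/100 • mm q s))`, smooth (`mm` is smooth; `StZnsq`: `mm q s ∈ S2`); for `s < 9/20` or `11/20 < s` (`mm q s = (1,0)`: `mm_edge` of `EndR4.lean`) it is `D.c s`:
`F' (sq ε (s, (73/100, 0))) = F (sq ε (s, (73/100, 0)))` because `sq ε (s, (73/100, 0)) ∈ U` for small `ε` (`sq 0 (s, (73/100, 0)) = bar (73/100) ∈ neckE`).  `start`, `stop`: `mm_ends`.  `inU`: the distance of `c q s` to `K` is `≥ 3 κ`.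
The homotopy of `SH`: the linear one from `c q s` to `F' (nu (mm q s)) + (D.c s - y₀)`, `y₀ = bp F = F' (nu (1, 0))`, `‖D.c s - y₀‖ ≤ κ`: both ends are within `κ` of `F' (nu (mm q s))`, so it is at a distance `≥ 3 κ` from `K`, in `D.U`.  On the boundary `mm q s = (1, 0)` and both ends are
`D.c s`. -/
def StBAS : Prop :=
  ∀ (F F' : R4 → R4) (V : Set R4), EmbOn I4 F SP → EmbOn I4 F' SP → IsOpen V →
    sph 1 ∪ neckE ⊆ V → EqOn F F' V → ∃ κ > 0, ∃ ε₀ > 0, ∀ ε ∈ Ioo 0 ε₀, ∀ D : ArcD,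
      D.m₀ = 9 / 20 → D.m₁ = 11 / 20 →
      (∀ s ∈ Icc (3 / 10 : ℝ) (7 / 10), D.c s = F (sq ε (s, ((73 / 100 : ℝ), 0)))) →
      (∀ x, x ∉ D.U → ∃ y ∈ F '' sph 1, dist x y < κ) →
      LoopOK D (loopF F' (3 / 10) (7 / 10) ε D) ∧
        SH D (loopF F' (3 / 10) (7 / 10) ε D) (shp D (bp F) (fun q s => F' (nu (mm q s))))

/-- MODULE STR2.  Stretching the bar, the same for all germs.
Proof.  As `Pool/Agent/Helper18/BI/H/M_STR.lean` (`K = repm m`, `m` from `STR.exists_rep`; `U₁ = {p.2.1 < 1/4} ∪ {4/5 - r/4 < p.2.1}`, `V = K ⁻¹' U`; `b = m (73/100)`, `m` is strictly increasing, `m (1/5) = 1/5`,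
`m (4/5) = 4/5`). -/
def StSTR2 : Prop :=
  ∀ U : Set R4, IsOpen U → sph 1 ⊆ U → ∃ (K : R4 → R4) (b : ℝ) (U₁ V : Set R4), IsOpen U₁ ∧
    sph 0 ∪ sph 1 ⊆ U₁ ∧ (∀ p ∈ U₁, K p = p) ∧ IsOpen V ∧ sph 1 ∪ neckE ⊆ V ∧
    (∀ p ∈ V, K p ∈ U) ∧ 1 / 5 < b ∧ b < 4 / 5 ∧ K (bar (73 / 100)) = bar b ∧
    ∀ F : R4 → R4, EmbOn I4 F SP → EmbOn I4 (fun p => F (K p)) SP ∧
      ∀ φ, Thin I4 F φ → Thin I4 (fun p => F (K p)) φ

/-- MODULE MOVE.  A point of the bar is moved to another one by a homotopy of self-maps of the complement of the fixed cuff.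
Proof.  `F` is injective and a local diffeomorphism on an open set `N ⊇ SP` (`StA1`).  Let `1/5 < a' < min a b`, `max a b < b' < 4/5` and `k : ℝ → ℝ` continuous, piecewise linear, `k x = x` for `x ≤ a'` and for `x ≥ b'`, `k a = b`, `k` maps `[a', b']` to
itself.  `χ (s, w) = max 0 (1 - ‖(s - 1/2, w)‖ / r)` and `T_t (s, x, w) = (s, x + t χ (s, w) (k x - x), w)` for `t ∈ [0,1]`: continuous, the identity off the compact set
`L = {(s, x, w) | x ∈ [a', b'], ‖(s - 1/2, w)‖ ≤ r}` (and on its frontier), maps `L` to `L`; for small `r`, `L ⊆ N` and `L` is disjoint from `sph 1` (`a`-coordinate `≤ b' < 4/5`).  With `t` replaced by its clamp to `[0,1]`: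
`Ψ (t, y) = F (T_t p)` if `y = F p` with `p ∈ L` (unique), `Ψ (t, y) = y` otherwise.  Continuous: on the open set `F '' N' × ..` (`N' ⊆ N` an open neighbourhood of `L`; `F` is a homeomorphism of `N'` onto the open set `F '' N'`, e.g. the partial diffeomorphism of `StA1`) it is `F ∘ T_t ∘ F⁻¹`, and on the open set
`(F '' L)ᶜ` it is the identity.  `F '' L` is disjoint from `F '' sph 1` (injectivity on `N ⊇ L ∪ sph 1`). -/
def StMOVE : Prop :=
  ∀ (F : R4 → R4) (a b : ℝ), EmbOn I4 F SP → a ∈ Ioo (1 / 5 : ℝ) (4 / 5) →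
    b ∈ Ioo (1 / 5 : ℝ) (4 / 5) → ∃ Ψ : ℝ × R4 → R4, Continuous Ψ ∧ (∀ x, Ψ (0, x) = x) ∧
      Ψ (1, F (bar a)) = F (bar b) ∧ ∀ t x, x ∉ F '' sph 1 → Ψ (t, x) ∉ F '' sph 1

/-- NRB (helper18).  The base arc is near the base point.  (`StS3`, `StS4`.) -/
def StNRB : Prop :=
  ∀ F : R4 → R4, EmbOn I4 F SP → ∀ κ > 0, ∃ ε₀ > 0, ∀ ε ∈ Ioo 0 ε₀,
    ∀ s ∈ Icc (3 / 10 : ℝ) (7 / 10), dist (F (sq ε (s, ((73 / 100 : ℝ), 0)))) (bp F) ≤ κ

/-- MODULE TOPG.  A free homotopy from a based sphere to the cuff gives a based homotopy to the whiskered sphere, if the bar is in the class of the track of the base point.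
`h (u, m)`, `m ∈ S2`: the free homotopy; `h (1, m) = F (1/2, 1/5 • m)` runs through the cuff `sph 0`; `ζ` = outer bar from `3/5` back to `73/100`, then the track of `(1, 0)`;
`P` = homotopy from `ζ` to the bar from `3/5` to `1/5`.
Proof (compare `Pool/Agent/Helper18/BI/H/M_TOP.lean`; `nu m = sq 0 (1/2, 73/100 • m)`).  Put `k = 20/73`, `a = 73/100 * m.1` (so `a ≥ 1/5` iff `m.1 ≥ k`), and for `m ∈ S2`: `ω m = (m.1 - k)/(1 - k)` (`∈ [0,1]` for `m.1 ≥ k`, `1` at `(1,0)`, `0` at `m.1 = k`).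
`r m = 5 • (nu m).2` for `m.1 ≤ k` (a point of `S2`, `= (1,0)` for `m.1 = k`; `nu m ∈ sph 0` there by `StS4`), `R m = (1, 0)` for `m.1 ≥ k`, `R m = r m` for `m.1 ≤ k`: continuous on `S2` with values in `S2`.  `R m ≠ -m`: for `m.1 ≥ k > 0` clear; for `m.1 ≤ k` the `w`-component of
`nu m` is a nonnegative multiple of `m.2` and the first components of `R m` and `m` have the same sign or vanish together
(`(nu m).2.1 = clamp (73/100 m.1)`); for `m = (-1, 0)`, `R m = (-1, 0)`.  So `R_t m = ((1-t) m + t R m)/|..|` is a homotopy of maps `S2 → S2` from the identity to `R` with `R_t (1,0) = (1,0)`.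
Four consecutive homotopies (`ContinuousOn.if`/union of closed sets; concatenation in `u`):
(0) `h (0, R_t m)`, `t ∈ [0,1]`;
(1) for `u ∈ [0,1]`: `h (u, R m)` for `m.1 ≤ k`, `η (u (1 - ω m))` for `m.1 ≥ k`, where `η v = h (v, (1,0))`;
(2) at the end (`u = 1`): `h (1, R m) = F (1/2, 1/5 • R m) = F (nu m)` for `m.1 ≤ k`, and `η (1 - ω m)` for `m.1 ≥ k`.  The path `x ↦ η x`, `x = 1 - ω ∈ [0,1]`, from `y₀ = F (bar (73/100))` to `F foot0` is homotopic rel ends, off `F '' sph 1`, to `x ↦ F (bar (73/100 - x (73/100 - 1/5)))`: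
`η` is homotopic to (outer bar from `73/100` to `3/5`) * (back) * `η`, i.e. to (outer bar) * `ζ` (reparametrized: use the family `ζ'_v`, `v ∈ [0,1]`, of paths: outer bar from `73/100` to `73/100 - v 13/100`, back, then `η`), `ζ` is homotopic to the inner bar by `P`, and the concatenation of the outer
bar and the inner bar is a reparametrization of the bar.  Apply this homotopy to the part `m.1 ≥ k`; the other part stays fixed.
The result is `F (nu m)` for all `m` (`nu m = bar (73/100 m.1)` for `m.1 ≥ k`).  All values are off `F '' sph 1`; at `m = (1, 0)` always `y₀` (`η 0`, `x = 0`). -/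
def StTOPG : Prop :=
  ∀ (F : R4 → R4) (h : ℝ × R3 → R4) (ζ : ℝ → R4) (P : ℝ × ℝ → R4), EmbOn I4 F SP →
    ContinuousOn h (Icc (0 : ℝ) 1 ×ˢ S2) → (∀ m ∈ S2, h (1, m) = F (1 / 2, (1 / 5 : ℝ) • m)) →
    h (0, (1, 0)) = bp F → (∀ u ∈ Icc (0 : ℝ) 1, ∀ m ∈ S2, h (u, m) ∉ F '' sph 1) →
    (∀ τ ∈ Icc (0 : ℝ) (1 / 2), ζ τ = F (bar (3 / 5 + 13 / 50 * τ))) →
    (∀ τ ∈ Icc (1 / 2 : ℝ) 1, ζ τ = h (2 * τ - 1, (1, 0))) →
    ContinuousOn P (Icc (0 : ℝ) 1 ×ˢ Icc (0 : ℝ) 1) → (∀ τ ∈ Icc (0 : ℝ) 1, P (0, τ) = ζ τ) →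
    (∀ τ ∈ Icc (0 : ℝ) 1, P (1, τ) = F (bar (3 / 5 - 2 / 5 * τ))) →
    (∀ u ∈ Icc (0 : ℝ) 1, P (u, 0) = F (bar (3 / 5))) →
    (∀ u ∈ Icc (0 : ℝ) 1, P (u, 1) = F foot0) →
    (∀ u ∈ Icc (0 : ℝ) 1, ∀ τ ∈ Icc (0 : ℝ) 1, P (u, τ) ∉ F '' sph 1) →
    ∃ H : ℝ × R3 → R4, ContinuousOn H (Icc (0 : ℝ) 1 ×ˢ S2) ∧ (∀ m ∈ S2, H (0, m) = h (0, m)) ∧
      (∀ m ∈ S2, H (1, m) = F (nu m)) ∧ (∀ u ∈ Icc (0 : ℝ) 1, H (u, (1, 0)) = bp F) ∧
      ∀ u ∈ Icc (0 : ℝ) 1, ∀ m ∈ S2, H (u, m) ∉ F '' sph 1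

/-- FREE (helper18).  Choosing the bar (from `StBAR`, `StMain2`, `StTOPG`). -/
def StFREE : Prop :=
  ∀ (F F' : R4 → R4) (V : Set R4) (W φ' : R4 → R4) (h : ℝ × R3 → R4), IsW W → EmbOn I4 F SP →
    EmbOn I4 F' SP → IsOpen V → sph 1 ∪ neckE ⊆ V → EqOn F F' V → Thin I4 F' φ' →
    ContinuousOn h (Icc (0 : ℝ) 1 ×ˢ S2) → (∀ m ∈ S2, h (1, m) = F' (1 / 2, (1 / 5 : ℝ) • m)) →
    h (0, (1, 0)) = bp F → (∀ u ∈ Icc (0 : ℝ) 1, ∀ m ∈ S2, h (u, m) ∉ F '' sph 1) →
    ∃ (F'' φ'' : R4 → R4) (V'' : Set R4) (H : ℝ × R3 → R4), EmbOn I4 F'' SP ∧ IsOpen V'' ∧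
      sph 1 ∪ neckE ⊆ V'' ∧ EqOn F F'' V'' ∧ Thin I4 F'' φ'' ∧
      (CIsot I4 φ'' φ' ∨ CIsot I4 φ'' (fun x => W (φ' x))) ∧
      ContinuousOn H (Icc (0 : ℝ) 1 ×ˢ S2) ∧ (∀ m ∈ S2, H (0, m) = h (0, m)) ∧
      (∀ m ∈ S2, H (1, m) = F'' (nu m)) ∧ (∀ u ∈ Icc (0 : ℝ) 1, H (u, (1, 0)) = bp F) ∧
      ∀ u ∈ Icc (0 : ℝ) 1, ∀ m ∈ S2, H (u, m) ∉ F '' sph 1

/-! ## the relation theorem in `R4` -/

/-- the square of a word in the based spheres `g i` (`g i : S2 → R4`, `g i (1,0) = y`) -/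
noncomputable def evS {n : ℕ} (y : R4) (g : Fin n → R3 → R4) : List (Fin n × Bool) → ℝ → ℝ → R4
  | [] => fun _ _ => y
  | (i, true) :: l => qcat (fun q s => g i (mm q s)) (evS y g l)
  | (i, false) :: l => qcat (fun q s => g i (mm (1 - q) s)) (evS y g l)

/-- the product of diffeomorphisms `φ i` and their inverses `φ' i` along a word -/
def evD {M : Type} {n : ℕ} (φ φ' : Fin n → M → M) : List (Fin n × Bool) → M → M
  | [] => fun x => x
  | (i, true) :: l => fun x => evD φ φ' l (φ i x)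
  | (i, false) :: l => fun x => evD φ φ' l (φ' i x)

/-- REL4 (helper18).  **The relation theorem in `R4`.**  `h i` is a free homotopy, off the fixed cuff, from a based sphere to the second cuff of the germ `Fi i`; if the word `l` in the
based spheres is null-homotopic off the fixed cuff, then the corresponding product of the classes is `1` or `W`. -/
def StREL4 : Prop :=
  ∀ (n : ℕ) (F : R4 → R4) (Fi φ φ' : Fin n → R4 → R4) (U : Set R4) (h : Fin n → ℝ × R3 → R4)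
    (W : R4 → R4) (l : List (Fin n × Bool)) (N : ℝ × ℝ × ℝ → R4), IsW W → EmbOn I4 F SP →
    (∀ i, EmbOn I4 (Fi i) SP) → IsOpen U → sph 1 ⊆ U → (∀ i, EqOn F (Fi i) U) →
    (∀ i, Thin I4 (Fi i) (φ i)) → (∀ i x, φ i (φ' i x) = x) → (∀ i x, φ' i (φ i x) = x) →
    (∀ i, ContinuousOn (h i) (Icc (0 : ℝ) 1 ×ˢ S2)) →
    (∀ i, ∀ m ∈ S2, h i (1, m) = Fi i (1 / 2, (1 / 5 : ℝ) • m)) →
    (∀ i, h i (0, (1, 0)) = F (bar (1 / 2))) →
    (∀ i, ∀ u ∈ Icc (0 : ℝ) 1, ∀ m ∈ S2, h i (u, m) ∉ F '' sph 1) →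
    ContinuousOn N (Icc (0 : ℝ) 1 ×ˢ (Icc (0 : ℝ) 1 ×ˢ Icc (9 / 20 : ℝ) (11 / 20))) →
    (∀ q ∈ Icc (0 : ℝ) 1, ∀ s ∈ Icc (9 / 20 : ℝ) (11 / 20),
      N (0, q, s) = evS (F (bar (1 / 2))) (fun i m => h i (0, m)) l q s ∧
        N (1, q, s) = F (bar (1 / 2))) →
    (∀ u ∈ Icc (0 : ℝ) 1, ∀ q ∈ Icc (0 : ℝ) 1, ∀ s ∈ Icc (9 / 20 : ℝ) (11 / 20),
      N (u, q, s) ∉ F '' sph 1 ∧
        ((q = 0 ∨ q = 1 ∨ s = 9 / 20 ∨ s = 11 / 20) → N (u, q, s) = F (bar (1 / 2)))) →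
    CIsot I4 (evD φ φ' l) (fun x => x) ∨ CIsot I4 (evD φ φ' l) W

end Pool.Agent.Helper18.BI.R


end

/-! ## Helper18.BI.H.EndR4 -/

section

/-!
# Project BI, stage 3 (H): the end, for `R4`
-/

set_option autoImplicit false

open scoped Manifold ContDiff Topology ComplexConjugate
open Set Filter Pool.Agent.Helper65.Barb Pool.Agent.Helper18.BI
open Pool.Agent.Helper70.BI (I4 IsW MW StMain2 NearEq embOn_iff)
open Pool.Agent.Helper27.H (ArcD StArcH Q2 Fam2 seg)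

namespace Pool.Agent.Helper18.BI.H

theorem mm_edge (q s : ℝ) (hs : s ≤ 9 / 20 ∨ 11 / 20 ≤ s) : mm q s = (1, 0) := by
  have h : step (10 * s - 9 / 2) = 0 ∨ step (10 * s - 9 / 2) = 1 := by
    rcases hs with hs | hs
    · left; exact step_of_nonpos (by linarith)
    · right; exact step_of_one_le (by linarith)
  unfold mm Pool.Agent.Helper27.BI.zarc Pool.Agent.Helper27.BI.chi Pool.Agent.Helper27.BI.phi
  rcases h with h | h
  · rw [h]
    simp only [mul_zero, Real.cos_zero, Real.sin_zero, sub_self, zero_div, zero_mul, add_zero]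
    rfl
  · rw [h]
    simp only [mul_one, Real.cos_two_pi, Real.sin_two_pi, sub_self, zero_div, zero_mul, add_zero,
      mul_zero]
    rfl

theorem mm_ends (q s : ℝ) (hq : q = 0 ∨ q = 1) : mm q s = (1, 0) := by
  unfold mm Pool.Agent.Helper27.BI.zarc
  rcases hq with rfl | rfl
  · simp only [mul_zero, Real.cos_zero, Real.sin_zero, sub_self, neg_zero, zero_mul, add_zero]
    rfl
  · simp only [mul_one, Real.cos_two_pi, Real.sin_two_pi, sub_self, Real.sin_pi, neg_zero, zero_mul,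
      mul_zero, add_zero]
    rfl

theorem smul_e (r : ℝ) : r • ((1 : ℝ), (0 : ℂ)) = (r, 0) := by
  ext1
  · simp
  · simp

/-- a loop of arcs with a class consists of embedded arcs -/
theorem cls_imm_inj (D : ArcD) (c : ℝ × ℝ × ℝ → R4) (u : ℝ) (χ : R4 → R4)
    (hc : ContDiff ℝ ∞ c) (h : D.Cls (fun q s => c (u, q, s)) χ) :
    ∀ q ∈ Icc (0 : ℝ) 1, D.Imm c u q ∧ D.Inj c u q := by
  obtain ⟨J, hJ, V, hV, h0, h1, hF, -⟩ := h
  intro q hq
  have hQ : ((0 : ℝ), q) ∈ Q2 := ⟨⟨le_rfl, zero_le_one⟩, hq⟩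
  have hE : EmbOn I4 (J q) D.L := hF.emb (0, q) hQ
  have hlt : D.s₀ < D.s₁ := D.h₀.trans (D.h₁.trans D.h₂)
  have hmem : ∀ s ∈ Icc D.s₀ D.s₁, ((s, 0) : R4) ∈ D.L := fun s hs => ⟨hs.1, hs.2, rfl⟩
  constructor
  · intro s hs h0'
    obtain ⟨hsm, hinj⟩ := (embOn_iff.1 hE).1 _ (hmem s hs)
    have hd : HasFDerivAt (J q) (fderiv ℝ (J q) (s, 0)) (s, 0) :=
      (hsm.self_of_nhds.differentiableAt (by simp)).hasFDerivAt
    have hl : HasDerivAt (fun s : ℝ => ((s, 0) : R4)) ((1, 0) : R4) s :=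
      (hasDerivAt_id s).prodMk (hasDerivAt_const s _)
    have h1' : HasDerivAt (fun s : ℝ => J q (s, 0)) (fderiv ℝ (J q) (s, 0) (1, 0)) s :=
      hd.comp_hasDerivAt s hl
    have h2' : HasDerivAt (fun s : ℝ => c (u, q, s)) (deriv (fun s : ℝ => c (u, q, s)) s) s := by
      have : Differentiable ℝ (fun s : ℝ => c (u, q, s)) := by
        apply (hc.comp (g := c) (f := fun s : ℝ => (u, q, s)) (by fun_prop)).differentiable
        simp
      exact (this s).hasDerivAt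
    rw [h0'] at h2'
    have h3 : HasDerivWithinAt (fun s : ℝ => c (u, q, s)) (fderiv ℝ (J q) (s, 0) (1, 0))
        (Icc D.s₀ D.s₁) s :=
      h1'.hasDerivWithinAt.congr (fun x hx => (hJ q hq x hx).symm) (hJ q hq s hs).symm
    have h4 := (uniqueDiffOn_Icc hlt s hs).eq_deriv _ h3 h2'.hasDerivWithinAt
    have h5 : ((1, 0) : R4) = 0 := hinj (by rw [h4, map_zero])
    have h6 : (1 : ℝ) = 0 := congrArg Prod.fst h5
    norm_num at h6
  · intro s hs s' hs' he
    have he' : c (u, q, s) = c (u, q, s') := he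
    have h1 : J q (s, 0) = J q (s', 0) := by
      rw [hJ q hq s hs, hJ q hq s' hs']
      exact he'
    have h2 := hE.2 (hmem s hs) (hmem s' hs') h1
    exact congrArg Prod.fst h2

/-- gluing the homotopy of `StSM` with the base arc -/
noncomputable def glue (c : ℝ × ℝ × ℝ → R4) (n₀ n₁ : ℝ) (D : ArcD) (z : ℝ × ℝ × ℝ) : R4 :=
  open Classical in if n₀ ≤ z.2.2 ∧ z.2.2 ≤ n₁ then c z else D.c z.2.2

theorem glue_htpy (D : ArcD) (F : R4 → R4) (c : ℝ × ℝ × ℝ → R4) (n₀ n₁ κ ε : ℝ) (ρ : ℝ → ℝ)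
    (hn₀ : n₀ < 9 / 20) (hn₁ : 11 / 20 < n₁) (hm₀ : D.m₀ = 9 / 20) (hm₁ : D.m₁ = 11 / 20)
    (hD : ∀ s ∈ Icc n₀ n₁, D.c s = F (sq ε (s, (ρ s, 0))))
    (hU : ∀ x, x ∉ D.U → ∃ y ∈ F '' sph 1, dist x y < κ)
    (hc : ContDiff ℝ ∞ c)
    (hc2 : ∀ u q, ∀ s ∈ Icc n₀ n₁, mm q s = (1, 0) → c (u, q, s) = F (sq ε (s, (ρ s, 0))))
    (hc3 : ∀ u ∈ Icc (0 : ℝ) 1, ∀ q ∈ Icc (0 : ℝ) 1, ∀ s ∈ Icc (9 / 20 : ℝ) (11 / 20),
        ∀ y ∈ F '' sph 1, κ ≤ dist (c (u, q, s)) y) :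
    D.Htpy (glue c n₀ n₁ D) := by
  have key : ∀ z : ℝ × ℝ × ℝ, (z.2.2 ≤ 9 / 20 ∨ 11 / 20 ≤ z.2.2 ∨ z.2.1 = 0 ∨ z.2.1 = 1) →
      glue c n₀ n₁ D z = D.c z.2.2 := by
    rintro ⟨u, q, s⟩ hz
    by_cases hs : n₀ ≤ s ∧ s ≤ n₁
    · have hmm : mm q s = (1, 0) := by
        rcases hz with h | h | h | h
        · exact mm_edge q s (Or.inl h)
        · exact mm_edge q s (Or.inr h)
        · exact mm_ends q s (Or.inl h)
        · exact mm_ends q s (Or.inr h)
      have e1 : glue c n₀ n₁ D (u, q, s) = c (u, q, s) := if_pos hs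
      rw [e1, hc2 u q s hs hmm]
      exact (hD s hs).symm
    · exact if_neg hs
  refine ⟨?_, ?_, ?_, ?_, ?_⟩
  · rw [contDiff_iff_contDiffAt]
    rintro ⟨u, q, s⟩
    by_cases hs : n₀ < s ∧ s < n₁
    · apply (hc.contDiffAt (x := (u, q, s))).congr_of_eventuallyEq
      have hopen : IsOpen {z : ℝ × ℝ × ℝ | n₀ < z.2.2 ∧ z.2.2 < n₁} :=
        (isOpen_lt continuous_const (continuous_snd.comp continuous_snd)).inter
          (isOpen_lt (continuous_snd.comp continuous_snd) continuous_const)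
      filter_upwards [hopen.mem_nhds hs] with z hz
      exact if_pos ⟨hz.1.le, hz.2.le⟩
    · have hD' : ContDiff ℝ ∞ (fun z : ℝ × ℝ × ℝ => D.c z.2.2) :=
        D.smooth.comp (contDiff_snd.comp contDiff_snd)
      apply (hD'.contDiffAt (x := (u, q, s))).congr_of_eventuallyEq
      rcases not_and_or.1 hs with hs | hs
      · have hopen : IsOpen {z : ℝ × ℝ × ℝ | z.2.2 < 9 / 20} :=
          isOpen_lt (continuous_snd.comp continuous_snd) continuous_const
        have : (u, q, s) ∈ {z : ℝ × ℝ × ℝ | z.2.2 < 9 / 20} := by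
          show s < 9 / 20
          linarith [not_lt.1 hs]
        filter_upwards [hopen.mem_nhds this] with z hz
        exact key z (Or.inl (le_of_lt hz))
      · have hopen : IsOpen {z : ℝ × ℝ × ℝ | 11 / 20 < z.2.2} :=
          isOpen_lt continuous_const (continuous_snd.comp continuous_snd)
        have : (u, q, s) ∈ {z : ℝ × ℝ × ℝ | 11 / 20 < z.2.2} := by
          show 11 / 20 < s
          linarith [not_lt.1 hs]
        filter_upwards [hopen.mem_nhds this] with z hz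
        exact key z (Or.inr (Or.inl (le_of_lt hz)))
  · intro u _ q _ s hs
    rw [hm₀, hm₁] at hs
    exact key (u, q, s) (hs.imp_right Or.inl)
  · intro u hu q hq s hs
    rw [hm₀, hm₁] at hs
    have e1 : glue c n₀ n₁ D (u, q, s) = c (u, q, s) :=
      if_pos ⟨hn₀.le.trans hs.1, hs.2.trans hn₁.le⟩
    rw [e1]
    by_contra hcon
    obtain ⟨y, hy, hd⟩ := hU _ hcon
    exact absurd (hc3 u hu q hq s hs y hy) (not_le.2 hd)
  · intro u _ s
    exact key (u, 0, s) (Or.inr (Or.inr (Or.inl rfl)))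
  · intro u _ s
    exact key (u, 1, s) (Or.inr (Or.inr (Or.inr rfl)))

theorem bar_mem_SP {a : ℝ} (h1 : 1 / 5 ≤ a) (h2 : a ≤ 4 / 5) : bar a ∈ SP :=
  Or.inr ⟨rfl, h1, h2, rfl⟩

theorem continuous_bar : Continuous bar := by
  unfold bar
  fun_prop

theorem foot_mem : foot0 ∈ sph 0 := by
  refine ⟨rfl, ?_⟩
  show (1 / 5 - 0 : ℝ) ^ 2 + (0 : ℂ).re ^ 2 + (0 : ℂ).im ^ 2 = 1 / 25
  norm_num

theorem bar_not_sph1 {a : ℝ} (h2 : a < 4 / 5) : bar a ∉ sph 1 := by
  rintro ⟨-, h⟩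
  have h' : (a - 1) ^ 2 + (0 : ℂ).re ^ 2 + (0 : ℂ).im ^ 2 = 1 / 25 := h
  simp only [Complex.zero_re, Complex.zero_im] at h'
  nlinarith

/-- **(H) for `R4`.** -/
theorem m_HMain (hSTR : StSTR) (hBAR : StBAR) (hTOP : StTOP) (hSM : StSM) (hHAT : StHATn)
    (hArcH : StArcH) (hMain2 : StMain2) (hT2 : StT2) (hCI : StCI) : StHMain := by
  intro F F' U h W φ φ' hW hF hF' hU h1U hEq hh h0 h1 hoff hφ hφ'
  obtain ⟨F₁, F₁', U₁, V, hF₁, hF₁', hU₁, hsU₁, hE₁, hE₁', hV, hsV, hEV, ht, ht'⟩ :=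
    hSTR F F' U hF hF' hU h1U hEq
  -- the two germs after stretching
  have hT₁ : Thin I4 F₁ φ := ht φ hφ
  have hT₁' : Thin I4 F₁' φ' := ht' φ' hφ'
  have him1 : F₁ '' sph 1 = F '' sph 1 :=
    image_congr fun p hp => hE₁ (hsU₁ (Or.inr hp))
  have him1' : F₁' '' sph 1 = F₁ '' sph 1 :=
    image_congr fun p hp => (hEV (hsV (Or.inl hp))).symm
  have h0' : ∀ p ∈ sph 0, h (0, p) = F₁ p := fun p hp => by
    rw [h0 p hp, hE₁ (hsU₁ (Or.inl hp))]
  have h1' : ∀ p ∈ sph 0, h (1, p) = F₁' p := fun p hp => by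
    rw [h1 p hp, hE₁' (hsU₁ (Or.inl hp))]
  have hoff' : ∀ u ∈ Icc (0 : ℝ) 1, ∀ p ∈ sph 0, h (u, p) ∉ F₁ '' sph 1 := fun u hu p hp => by
    rw [him1]; exact hoff u hu p hp
  have hF₁c : ContinuousOn F₁ SP := fun p hp =>
    (hF₁.1 p hp).contMDiffAt.continuousAt.continuousWithinAt
  -- the path
  let ζ : ℝ → R4 := fun τ => if τ ≤ 1 / 2 then F₁ (bar (3 / 5 - 4 / 5 * τ)) else h (2 * τ - 1, foot0)
  have ζa : ∀ τ ∈ Icc (0 : ℝ) (1 / 2), ζ τ = F₁ (bar (3 / 5 - 4 / 5 * τ)) := fun τ hτ => if_pos hτ.2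
  have ζb : ∀ τ ∈ Icc (1 / 2 : ℝ) 1, ζ τ = h (2 * τ - 1, foot0) := by
    intro τ hτ
    by_cases h2 : τ ≤ 1 / 2
    · have h3 : τ = 1 / 2 := le_antisymm h2 hτ.1
      subst h3
      rw [ζa _ ⟨by norm_num, le_rfl⟩]
      have e1 : (2 * (1 / 2 : ℝ) - 1) = 0 := by norm_num
      have e2 : (3 / 5 - 4 / 5 * (1 / 2 : ℝ)) = 1 / 5 := by norm_num
      rw [e1, e2, h0' _ foot_mem]
      rfl
    · exact if_neg h2
  have ζc : ContinuousOn ζ (Icc 0 1) := by
    have e : Icc (0 : ℝ) 1 = Icc 0 (1 / 2) ∪ Icc (1 / 2) 1 :=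
      (Icc_union_Icc_eq_Icc (by norm_num) (by norm_num)).symm
    rw [e]
    refine ContinuousOn.union_of_isClosed ?_ ?_ isClosed_Icc isClosed_Icc
    · refine ContinuousOn.congr (f := fun τ => F₁ (bar (3 / 5 - 4 / 5 * τ))) ?_ ζa
      refine hF₁c.comp ?_ ?_
      · exact (continuous_bar.comp (by fun_prop)).continuousOn
      · intro τ hτ
        exact bar_mem_SP (by linarith [hτ.2]) (by linarith [hτ.1])
    · refine ContinuousOn.congr (f := fun τ => h (2 * τ - 1, foot0)) ?_ ζb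
      refine hh.comp ?_ ?_
      · exact Continuous.continuousOn (by fun_prop)
      · intro τ hτ
        exact ⟨⟨by show (0 : ℝ) ≤ 2 * τ - 1; linarith [hτ.1],
          by show 2 * τ - 1 ≤ (1 : ℝ); linarith [hτ.2]⟩, foot_mem⟩
  have h35 : bar (3 / 5) ∈ neckE := ⟨⟨rfl, by show (1 / 5 : ℝ) ≤ 3 / 5; norm_num,
    by show (3 / 5 : ℝ) ≤ 4 / 5; norm_num, rfl⟩, le_rfl⟩
  have ζ0 : ζ 0 = F₁' (bar (3 / 5)) := by
    rw [ζa 0 ⟨le_rfl, by norm_num⟩, mul_zero, sub_zero]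
    exact hEV (hsV (Or.inr h35))
  have ζ1 : ζ 1 = F₁' foot0 := by
    rw [ζb 1 ⟨by norm_num, le_rfl⟩]
    have e1 : (2 * (1 : ℝ) - 1) = 1 := by norm_num
    rw [e1, h1' _ foot_mem]
  have ζoff : ∀ τ ∈ Icc (0 : ℝ) 1, ζ τ ∉ F₁' '' sph 1 := by
    intro τ hτ
    rw [him1']
    rcases le_total τ (1 / 2) with h2 | h2
    · rw [ζa τ ⟨hτ.1, h2⟩]
      rintro ⟨p, hp, he⟩
      have hb := bar_mem_SP (a := 3 / 5 - 4 / 5 * τ) (by linarith) (by linarith [hτ.1])
      have := hF₁.2 (Or.inl (Or.inr hp)) hb he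
      rw [this] at hp
      exact bar_not_sph1 (by linarith [hτ.1]) hp
    · rw [ζb τ ⟨h2, hτ.2⟩]
      exact hoff' _ ⟨by linarith, by linarith [hτ.2]⟩ _ foot_mem
  obtain ⟨F₂, U₂, P, hF₂, hU₂, hsU₂, hE₂, P1, P2, P3, P4, P5, P6⟩ := hBAR F₁' ζ hF₁' ζc ζ0 ζ1 ζoff
  -- a representative of the class of `F₂`
  obtain ⟨φ₂, hφ₂⟩ : ∃ φ₂, Thin I4 F₂ φ₂ := by
    obtain ⟨ε₁, hε₁, hh⟩ := (hT2 _ _ 𝓘(ℝ, R4) R4).1 _ hF₂
    exact ⟨_, hh (ε₁ / 2) ⟨by positivity, by linarith⟩⟩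
  have hor1 := hMain2 W F₂ F₁' φ₂ φ' (U₂) hW hF₂ hF₁' hU₂
    (fun p hp => hsU₂ (Or.inl hp)) (fun p hp => (hE₂ hp).symm) hφ₂ hT₁'
  -- the homotopy of the whiskered spheres
  have hE12 : EqOn F₁ F₂ (V ∩ U₂) := fun p hp => (hEV hp.1).trans (hE₂ hp.2)
  have hsE12 : sph 1 ∪ neckE ⊆ V ∩ U₂ := by
    intro p hp
    refine ⟨hsV hp, ?_⟩
    rcases hp with hp | hp
    · exact hsU₂ (Or.inl (Or.inr hp))
    · exact hsU₂ (Or.inr hp)
  obtain ⟨H, hH⟩ := hTOP F₁ F₂ h ζ P hF₁ hF₂ (fun p hp => hE12 (hsE12 (Or.inr hp))) hh h0'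
    (fun p hp => by rw [h1' p hp, hE₂ (hsU₂ (Or.inl (Or.inl hp)))]) hoff' ζa ζb P1 P2 P3
    (fun u hu => by
      rw [P4 u hu]
      exact (hEV (hsV (Or.inr h35))).symm)
    (fun u hu => by
      rw [P5 u hu]
      exact hE₂ (hsU₂ (Or.inl (Or.inl foot_mem))))
    (fun u hu τ hτ => by
      rw [← him1']
      exact P6 u hu τ hτ)
  have hn₀ : (3 / 10 : ℝ) < 9 / 20 := by norm_num
  have hn₁ : (11 / 20 : ℝ) < 7 / 10 := by norm_num
  obtain ⟨κ, hκ, ε₀, hε₀, hc⟩ := hSM F₁ F₂ (V ∩ U₂) H (3 / 10) (7 / 10) (fun _ => 73 / 100) hF₁ hF₂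
    (hV.inter hU₂) hsE12 hE12 hH hn₀ hn₁ contDiff_const (fun _ _ => rfl)
    (fun _ _ => ⟨le_rfl, by norm_num⟩)
  obtain ⟨ε₁, hε₁, hDq⟩ := hHAT Bool F₁ (fun b => if b then F₂ else F₁) (fun b => if b then φ₂ else φ)
    (V ∩ U₂) hF₁ (by rintro (_ | _); exacts [hF₁, hF₂]) (hV.inter hU₂) hsE12
    (by rintro (_ | _); exacts [fun _ _ => rfl, hE12]) (by rintro (_ | _); exacts [hT₁, hφ₂]) κ hκ
  obtain ⟨ε, hε00, hεlt⟩ : ∃ ε : ℝ, 0 < ε ∧ ε < min ε₀ ε₁ :=
    exists_between (lt_min hε₀ hε₁)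
  have hε : ε ∈ Ioo 0 ε₀ := ⟨hε00, hεlt.trans_le (min_le_left _ _)⟩
  obtain ⟨D, hm₀, hm₁, -, -, hDU, hDc, hcl0⟩ := hDq ε ⟨hε00, hεlt.trans_le (min_le_right _ _)⟩
  have hcl : D.Cls (loopF F₁ (3 / 10) (7 / 10) ε D) φ := hcl0 false
  have hcl' : D.Cls (loopF F₂ (3 / 10) (7 / 10) ε D) φ₂ := hcl0 true
  obtain ⟨c, hc0, hc1, hc2, hc3, hc4⟩ := hc ε hε
  have hHt : D.Htpy (glue c (3 / 10) (7 / 10) D) :=
    glue_htpy D F₁ c (3 / 10) (7 / 10) κ ε (fun _ => 73 / 100) hn₀ hn₁ hm₀ hm₁ hDc hDU hc0 hc3 hc4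
  have e0 : (fun q s => glue c (3 / 10) (7 / 10) D (0, q, s)) = loopF F₁ (3 / 10) (7 / 10) ε D := by
    funext q s
    by_cases hs : 3 / 10 ≤ s ∧ s ≤ 7 / 10
    · have e1 : glue c (3 / 10) (7 / 10) D (0, q, s) = c (0, q, s) := if_pos hs
      have e2 : loopF F₁ (3 / 10) (7 / 10) ε D q s = F₁ (sq ε (s, (73 / 100 : ℝ) • mm q s)) := if_pos hs
      rw [e1, e2]
      exact hc1 q s hs
    · have e1 : glue c (3 / 10) (7 / 10) D (0, q, s) = D.c s := if_neg hs
      have e2 : loopF F₁ (3 / 10) (7 / 10) ε D q s = D.c s := if_neg hs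
      rw [e1, e2]
  have e1 : (fun q s => glue c (3 / 10) (7 / 10) D (1, q, s)) = loopF F₂ (3 / 10) (7 / 10) ε D := by
    funext q s
    by_cases hs : 3 / 10 ≤ s ∧ s ≤ 7 / 10
    · have e1 : glue c (3 / 10) (7 / 10) D (1, q, s) = c (1, q, s) := if_pos hs
      have e2 : loopF F₂ (3 / 10) (7 / 10) ε D q s = F₂ (sq ε (s, (73 / 100 : ℝ) • mm q s)) := if_pos hs
      rw [e1, e2]
      exact hc2 q s hs
    · have e1 : glue c (3 / 10) (7 / 10) D (1, q, s) = D.c s := if_neg hs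
      have e2 : loopF F₂ (3 / 10) (7 / 10) ε D q s = D.c s := if_neg hs
      rw [e1, e2]
  have hC0 : D.Cls (fun q s => glue c (3 / 10) (7 / 10) D (0, q, s)) φ := by
    rw [e0]; exact hcl
  have hC1 : D.Cls (fun q s => glue c (3 / 10) (7 / 10) D (1, q, s)) φ₂ := by
    rw [e1]; exact hcl'
  have hor2 := hArcH D (glue c (3 / 10) (7 / 10) D) W φ φ₂ hHt
    (cls_imm_inj D _ 0 φ hHt.smooth hC0) (cls_imm_inj D _ 1 φ₂ hHt.smooth hC1) hW hC0 hC1
  -- combine
  obtain ⟨-, cs, cself, ct, cc, -⟩ := hCI _ _ 𝓘(ℝ, R4) R4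
  have hWW : CIsot I4 W W := by
    obtain ⟨F₀, α₀, β₀, -, hT⟩ := hW.rep
    obtain ⟨-, tii, -⟩ := hT2 _ _ 𝓘(ℝ, R4) R4
    exact tii _ _ _ hT hT
  have hφφ : CIsot I4 φ φ := by
    obtain ⟨-, tii, -⟩ := hT2 _ _ 𝓘(ℝ, R4) R4
    exact tii _ _ _ hφ hφ
  rcases hor1 with a | a
  · rcases hor2 with b | b
    · exact Or.inl (ct _ _ _ a b)
    · exact Or.inr (ct _ _ _ a b)
  · rcases hor2 with b | b
    · right
      exact ct _ _ _ a (cc _ _ _ _ hWW b)
    · left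
      refine ct _ _ _ a (ct _ _ _ (cc _ _ _ _ hWW b) ?_)
      exact cc (fun x => W (W x)) (fun x => x) φ φ hW.sq hφφ

end Pool.Agent.Helper18.BI.H


end

/-! ## Helper18.BI.R.StR5 -/

section

/-!
# Project BI, stage 4 (R): existence of the class of a moved cuff

Statements (as `Prop` definitions) with complete proofs in the docstrings.
-/

set_option autoImplicit false

open scoped Manifold ContDiff Topology ComplexConjugate unitInterval
open Set Pool.Agent.Helper65.Barb Pool.Agent.Helper18.BI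
open Pool.Agent.Helper70.Fin (Emb coreSphere)
open Pool.Agent.Helper18.FinR (sqr Pi2 cls FreeClass SameFixed UpTo)

namespace Pool.Agent.Helper18.BI.R

/-- MODULE HEP.  Moving the base point of a sphere along a path.
Proof.  For `m ∈ S2` put `d = 1 - m.1 ∈ [0, 2]` (`d = 0` only at `(1, 0)`), and `v = 1 - u`.
`h (u, m) = ζ (v - 2 d)` if `2 d ≤ v`, and `h (u, m) = k (σ (v, m))` if `v ≤ 2 d`, where `d' = (d - v/2) * (2 / (2 - v/2)) ∈ [0, 2]`, `σ (v, m) = (1 - d', r • m.2)`, `r = √(d' (2 - d')) / √(d (2 - d))`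
(`|m.2|² = d (2 - d)`, so `σ (v, m) ∈ S2`; at `d = 2`: `d' = 2`, `m.2 = 0`, `σ = (-1, 0)`).  `σ` is continuous on `{(v, m) | v ∈ [0,1], m ∈ S2, v ≤ 2 d}`: where `m.2 ≠ 0` this is clear; at a point with `m.2 = 0` (then `d = 0`, `v = 0`, or `d = 2`) because
`‖r • m.2‖ = √(d' (2 - d'))` is continuous and vanishes there (squeeze; or the identity `‖r • m.2‖ ≤ √(d' (2 - d'))`).  For `2 d = v`: `d' = 0`, `σ = (1, 0)`, `k (1, 0) = ζ 0 = ζ (v - 2 d)`.  `v = 0` (`u = 1`): `σ (0, m) = m` (for `m = (1, 0)`, `d = 0`: `h = ζ 0 = k (1, 0)`).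
`v = 1` (`u = 0`), `m = (1, 0)`: `h (0, (1, 0)) = ζ 1`.  Gluing of two relatively closed sets (`ContinuousOn.union_of_isClosed` / `ContinuousOn.if`). -/
def StHEP : Prop :=
  ∀ (M : Type) [TopologicalSpace M] (A : Set M) (k : R3 → M) (ζ : ℝ → M), ContinuousOn k S2 →
    ContinuousOn ζ (Icc (0 : ℝ) 1) → ζ 0 = k (1, 0) → (∀ m ∈ S2, k m ∉ A) →
    (∀ τ ∈ Icc (0 : ℝ) 1, ζ τ ∉ A) →
    ∃ h : ℝ × R3 → M, ContinuousOn h (Icc (0 : ℝ) 1 ×ˢ S2) ∧ (∀ m ∈ S2, h (1, m) = k m) ∧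
      h (0, (1, 0)) = ζ 1 ∧ ∀ u ∈ Icc (0 : ℝ) 1, ∀ m ∈ S2, h (u, m) ∉ A

/-- MODULE EXC (from `StHEP`, `StMQ`).  Every barbell with the given fixed cuff has a class.
Proof.  `U` open with `coreSphere 1 = sph 1 ⊆ U` (`(1/5)² = 1/25`), `B = B'` on `U`.  `(1/2, (4/5, 0)) ∈ sph 1`, so there is `δ ∈ (0, 1/10)` with `(1/2, (4/5 - δ, 0)) ∈ U`.
`ζ τ = B' (1/2, (1/5 + 2 τ (3/5 - δ), 0))` for `τ ≤ 1/2`, `B (1/2, (4/5 - δ - (2 τ - 1) (3/10 - δ), 0))` for `1/2 ≤ τ`; continuous, `ζ 0 = B' (1/2, (1/5, 0))`, `ζ 1 = B (1/2, (1/2, 0)) = y₀`.  `k m = B' (1/2, (1/5) • m)`, `k (1, 0) = ζ 0`.  Off `A = B '' sph 1 = B' '' sph 1`: `B`, `B'` are injective on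
`NB` (`B.toPartialEquiv.injOn`), which contains `sph 0 ∪ sph 1` and the points `(1/2, (a, 0))`, `1/5 ≤ a ≤ 4/5` (`Pool.Agent.Helper70.BI.Fin2.SP_sub_NB`), and these points and the points of `sph 0` are not in `sph 1` for `a < 4/5`.
`StHEP` gives `h₀`; `h (u, p) = h₀ (u, 5 • p.2)` for `p ∈ coreSphere 0` (`5 • p.2 ∈ S2`), `f t = ⟨h₀ (0, sqr t), _⟩` is continuous in `t` (`sqr` is continuous with values in `S2`: `sqr t = mq (t 0) (t 1)`), and on the boundary of the square `sqr t = (1, 0)`, so `f t = y₀`. -/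
def StEXC : Prop :=
  ∀ (B B' : Emb) (A : Set S4) (y₀ : {x : S4 // x ∉ A}), NB ⊆ B.source → NB ⊆ B'.source →
    SameFixed B B' → A = B '' coreSphere 1 → (y₀ : S4) = B (1 / 2, (1 / 2, 0)) →
    ∃ z : Pi2 A y₀, FreeClass A y₀ B' z

end Pool.Agent.Helper18.BI.R


end

/-! ## Helper18.BI.R.M_HEP -/

section

/-!
# Project BI, stage 4 (R), module HEP: moving the base point of a sphere along a path
-/

set_option autoImplicit false

open scoped Manifold ContDiff Topology ComplexConjugate unitInterval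
open Set Pool.Agent.Helper65.Barb Pool.Agent.Helper18.BI

namespace Pool.Agent.Helper18.BI.R

namespace HEP

/-- `max (d - v / 2) 0` with `d = 1 - m.1`, `v = 1 - u`. -/
noncomputable def wf (p : ℝ × R3) : ℝ := max ((1 - p.2.1) - (1 - p.1) / 2) 0

/-- The scaling factor. -/
noncomputable def cf (p : ℝ × R3) : ℝ := 2 / (2 - (1 - p.1) / 2)

/-- The complex coordinate before scaling. -/
noncomputable def zf (p : ℝ × R3) : ℂ :=
  (Real.sqrt (wf p)) • ((Real.sqrt (1 - p.2.1))⁻¹ • p.2.2)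

noncomputable def sg (p : ℝ × R3) : R3 := (1 - cf p * wf p, cf p • zf p)

theorem mem_S2 {m : R3} : m ∈ S2 ↔ m.1 ^ 2 + m.2.re ^ 2 + m.2.im ^ 2 = 1 := Iff.rfl

theorem dbd {m : R3} (hm : m ∈ S2) : 0 ≤ 1 - m.1 ∧ 1 - m.1 ≤ 2 := by
  rw [mem_S2] at hm
  constructor <;> nlinarith [sq_nonneg m.2.re, sq_nonneg m.2.im, sq_nonneg (m.1 + 1), sq_nonneg (m.1 - 1)]

theorem nsq2 {m : R3} (hm : m ∈ S2) : m.2.re ^ 2 + m.2.im ^ 2 = (1 - m.1) * (2 - (1 - m.1)) := by
  rw [mem_S2] at hm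
  linarith

theorem wf_nonneg (p : ℝ × R3) : 0 ≤ wf p := le_max_right _ _

theorem wf_cont : Continuous wf := by
  unfold wf
  fun_prop

theorem wf_le {p : ℝ × R3} (hp : p ∈ Icc (0 : ℝ) 1 ×ˢ S2) : wf p ≤ 1 - p.2.1 := by
  have h1 := dbd hp.2
  have h2 : p.1 ≤ 1 := hp.1.2
  unfold wf
  apply max_le <;> linarith

theorem cf_pos {p : ℝ × R3} (hp : p ∈ Icc (0 : ℝ) 1 ×ˢ S2) : 0 < 2 - (1 - p.1) / 2 := by
  have h2 : 0 ≤ p.1 := hp.1.1
  linarith

theorem cf_cont : ContinuousOn cf (Icc (0 : ℝ) 1 ×ˢ S2) := by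
  unfold cf
  refine ContinuousOn.div continuousOn_const (by fun_prop) ?_
  intro p hp
  exact (cf_pos hp).ne'

theorem zf_sq {p : ℝ × R3} (hp : p ∈ Icc (0 : ℝ) 1 ×ˢ S2) :
    (zf p).re ^ 2 + (zf p).im ^ 2 = wf p * (2 - (1 - p.2.1)) := by
  have h1 := dbd hp.2
  have hw := wf_nonneg p
  have hle := wf_le hp
  unfold zf
  simp only [Complex.smul_re, Complex.smul_im, smul_eq_mul]
  rcases h1.1.eq_or_lt with h | h
  · have hw0 : wf p = 0 := le_antisymm (by linarith) hw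
    rw [hw0]
    simp
  · have e1 : (Real.sqrt (wf p) * ((Real.sqrt (1 - p.2.1))⁻¹ * p.2.2.re)) ^ 2 +
        (Real.sqrt (wf p) * ((Real.sqrt (1 - p.2.1))⁻¹ * p.2.2.im)) ^ 2 =
        Real.sqrt (wf p) ^ 2 * (Real.sqrt (1 - p.2.1) ^ 2)⁻¹ * (p.2.2.re ^ 2 + p.2.2.im ^ 2) := by
      rw [mul_pow, mul_pow, mul_pow, mul_pow, inv_pow]
      ring
    rw [e1, Real.sq_sqrt hw, Real.sq_sqrt h1.1, nsq2 hp.2]
    field_simp

theorem zf_cont : ContinuousOn zf (Icc (0 : ℝ) 1 ×ˢ S2) := by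
  intro p hp
  have h1 := dbd hp.2
  rcases h1.1.eq_or_lt with h | h
  · have hw0 : wf p = 0 := le_antisymm (by linarith [wf_le hp]) (wf_nonneg p)
    have hz : zf p = 0 := by
      unfold zf
      rw [hw0]
      simp
    unfold ContinuousWithinAt
    rw [hz]
    have hb : Filter.Tendsto (fun q : ℝ × R3 => Real.sqrt (2 * wf q)) (𝓝[Icc (0 : ℝ) 1 ×ˢ S2] p) (𝓝 0) := by
      have hc : Continuous fun q : ℝ × R3 => Real.sqrt (2 * wf q) :=
        Real.continuous_sqrt.comp (continuous_const.mul wf_cont)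
      have := hc.continuousWithinAt (s := Icc (0 : ℝ) 1 ×ˢ S2) (x := p)
      unfold ContinuousWithinAt at this
      simpa [hw0] using this
    refine squeeze_zero_norm' ?_ hb
    filter_upwards [self_mem_nhdsWithin] with q hq
    have e := zf_sq hq
    have hd := dbd hq.2
    rw [Complex.norm_def, Complex.normSq_apply]
    apply Real.sqrt_le_sqrt
    have : (zf q).re * (zf q).re + (zf q).im * (zf q).im = wf q * (2 - (1 - q.2.1)) := by
      rw [← e]; ring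
    rw [this]
    nlinarith [wf_nonneg q]
  · unfold zf
    have c1 : ContinuousWithinAt (fun q : ℝ × R3 => Real.sqrt (wf q)) (Icc (0 : ℝ) 1 ×ˢ S2) p :=
      (Real.continuous_sqrt.comp wf_cont).continuousWithinAt
    have c2 : ContinuousWithinAt (fun q : ℝ × R3 => (Real.sqrt (1 - q.2.1))⁻¹)
        (Icc (0 : ℝ) 1 ×ˢ S2) p := by
      refine ContinuousWithinAt.inv₀ ?_ (Real.sqrt_ne_zero'.mpr h)
      exact (Real.continuous_sqrt.comp (by fun_prop)).continuousWithinAt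
    have c3 : ContinuousWithinAt (fun q : ℝ × R3 => q.2.2) (Icc (0 : ℝ) 1 ×ˢ S2) p := by
      exact (by fun_prop : Continuous fun q : ℝ × R3 => q.2.2).continuousWithinAt
    exact c1.smul (c2.smul c3)

theorem sg_cont : ContinuousOn sg (Icc (0 : ℝ) 1 ×ˢ S2) := by
  unfold sg
  refine ContinuousOn.prodMk ?_ ?_
  · exact continuousOn_const.sub (cf_cont.mul wf_cont.continuousOn)
  · exact cf_cont.smul zf_cont

theorem sg_mem {p : ℝ × R3} (hp : p ∈ Icc (0 : ℝ) 1 ×ˢ S2) : sg p ∈ S2 := by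
  rw [mem_S2]
  have e := zf_sq hp
  have hc := cf_pos hp
  have hcf : cf p * (2 - (1 - p.1) / 2) = 2 := by
    unfold cf
    exact div_mul_cancel₀ _ hc.ne'
  unfold sg
  simp only [Complex.smul_re, Complex.smul_im, smul_eq_mul]
  have e2 : (1 - cf p * wf p) ^ 2 + (cf p * (zf p).re) ^ 2 + (cf p * (zf p).im) ^ 2 =
      (1 - cf p * wf p) ^ 2 + cf p ^ 2 * (wf p * (2 - (1 - p.2.1))) := by
    rw [← e]; ring
  rw [e2]
  by_cases hd : (1 - p.2.1) - (1 - p.1) / 2 ≤ 0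
  · have hw : wf p = 0 := max_eq_right hd
    rw [hw]; ring
  · have hw : wf p = (1 - p.2.1) - (1 - p.1) / 2 := max_eq_left (le_of_lt (not_le.mp hd))
    have h3 : 2 - (1 - p.2.1) = (2 - (1 - p.1) / 2) - wf p := by rw [hw]; ring
    rw [h3]
    have : (1 - cf p * wf p) ^ 2 + cf p ^ 2 * (wf p * (2 - (1 - p.1) / 2 - wf p)) =
        1 - 2 * (cf p * wf p) + cf p * wf p * (cf p * (2 - (1 - p.1) / 2)) := by ring
    rw [this, hcf]; ring

theorem sg_one {m : R3} (hm : m ∈ S2) : sg (1, m) = m := by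
  have hp : ((1 : ℝ), m) ∈ Icc (0 : ℝ) 1 ×ˢ S2 := ⟨⟨zero_le_one, le_refl _⟩, hm⟩
  have hd := dbd hm
  have hw : wf (1, m) = 1 - m.1 := by
    unfold wf
    simp only [sub_self, zero_div, sub_zero]
    exact max_eq_left hd.1
  have hc : cf (1, m) = 1 := by
    unfold cf
    norm_num
  have h2 := nsq2 hm
  unfold sg zf
  rw [hw, hc]
  simp only [one_mul, one_smul, sub_sub_cancel]
  rcases hd.1.eq_or_lt with h | h
  · rw [← h] at h2
    have hre : m.2.re = 0 := by nlinarith [sq_nonneg m.2.re, sq_nonneg m.2.im]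
    have him : m.2.im = 0 := by nlinarith [sq_nonneg m.2.re, sq_nonneg m.2.im]
    have hz : m.2 = 0 := Complex.ext hre him
    refine Prod.ext rfl ?_
    simp [hz]
  · have hs : Real.sqrt (1 - m.1) ≠ 0 := Real.sqrt_ne_zero'.mpr h
    refine Prod.ext rfl ?_
    show Real.sqrt (1 - m.1) • ((Real.sqrt (1 - m.1))⁻¹ • m.2) = m.2
    rw [smul_smul, mul_inv_cancel₀ hs, one_smul]

theorem sg_base {p : ℝ × R3} (h : (1 - p.1) = 2 * (1 - p.2.1)) : sg p = (1, 0) := by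
  have hw : wf p = 0 := by
    unfold wf
    rw [h]
    simp
  unfold sg zf
  rw [hw]
  simp

end HEP

open HEP in
open scoped Classical in
theorem m_HEP : StHEP := by
  intro M _ A k ζ hk hζ h0 hkA hζA
  let h : ℝ × R3 → M := fun p =>
    if (1 - p.1) ≤ 2 * (1 - p.2.1) then k (sg p) else ζ (max ((1 - p.1) - 2 * (1 - p.2.1)) 0)
  have hmx : ∀ p ∈ Icc (0 : ℝ) 1 ×ˢ S2,
      max ((1 - p.1) - 2 * (1 - p.2.1)) 0 ∈ Icc (0 : ℝ) 1 := by
    intro p hp
    refine ⟨le_max_right _ _, max_le ?_ zero_le_one⟩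
    have h1 := dbd hp.2
    have h2 : 0 ≤ p.1 := hp.1.1
    linarith
  refine ⟨h, ?_, ?_, ?_, ?_⟩
  · rw [continuousOn_iff_continuous_domRestrict]
    have hc : Continuous fun x : ↥(Icc (0 : ℝ) 1 ×ˢ S2) =>
        if (1 - (x : ℝ × R3).1) ≤ 2 * (1 - (x : ℝ × R3).2.1) then k (sg x)
        else ζ (max ((1 - (x : ℝ × R3).1) - 2 * (1 - (x : ℝ × R3).2.1)) 0) := by
      refine Continuous.if_le ?_ ?_ ?_ ?_ ?_
      · exact hk.comp_continuous (continuousOn_iff_continuous_domRestrict.mp sg_cont)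
          (fun x => sg_mem x.2)
      · refine hζ.comp_continuous ?_ (fun x => hmx x x.2)
        fun_prop
      · fun_prop
      · fun_prop
      · intro x hx
        rw [sg_base hx, ← h0]
        congr 1
        rw [hx]
        simp
    exact hc
  · intro m hm
    show (if (1 - (1 : ℝ)) ≤ 2 * (1 - m.1) then k (sg (1, m)) else _) = k m
    rw [if_pos (by linarith [(dbd hm).1]), sg_one hm]
  · show (if (1 - (0 : ℝ)) ≤ 2 * (1 - (1 : ℝ)) then _ else ζ (max ((1 - (0 : ℝ)) - 2 * (1 - 1)) 0)) = ζ 1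
    rw [if_neg (by norm_num)]
    congr 1
    norm_num
  · intro u hu m hm
    have hp : (u, m) ∈ Icc (0 : ℝ) 1 ×ˢ S2 := ⟨hu, hm⟩
    show (if (1 - u) ≤ 2 * (1 - m.1) then k (sg (u, m))
      else ζ (max ((1 - u) - 2 * (1 - m.1)) 0)) ∉ A
    split_ifs
    · exact hkA _ (sg_mem hp)
    · exact hζA _ (hmx _ hp)

end Pool.Agent.Helper18.BI.R


end

/-! ## Helper70.BI.T.StT -/

section

/-!
# Project BI, stage 6 (T): barbells invariant under a rotation (statements)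

Every barbell of the 4-sphere which is invariant under the rotation is elementary (in the sense of stage 5), so its
implantation is isotopic to the identity or to `W`.

Idea.  `X` = the complement of the fixed cuff, with the circle action; `y₀` = the midpoint of the bar, a fixed point.  A
path `γ` in `X` from `y₀` to a fixed point sweeps out, under the rotation, a based sphere `A.sph γ`; let `s γ` be its
class.  The moved cuff is freely homotopic to the sphere of such a path.  If `γ = p * k` (concatenation at a FIXED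
point) then `s γ = s p * x`, where `x` is freely homotopic to the sphere of `k` (module MUL).  Hence `s (p * m * k)`
and `s (p * k)` differ by a quotient of two freely homotopic elements if `m` is a loop of fixed points, for instance
the meridian of the fixed cuff at one of its poles.  By the van Kampen argument of helper34 all paths `γ` with the
same end have the same `s γ` modulo such quotients, and `s γ = 1` for a path of fixed points.

Statements as `Prop` definitions, with complete proofs in the docstrings; a module `M_X` proves `theorem m_X : StX`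
(possibly from other statements as hypotheses `(h : StY)`).
-/

set_option autoImplicit false

open scoped Topology unitInterval Manifold ContDiff ComplexConjugate
open Set Pool.Agent.Helper65.Barb Pool.Agent.Helper18.BI
open Pool.Agent.Helper18.FinR (sqr)
open Pool.Agent.Helper18.BI.R (S2)

namespace Pool.Agent.Helper70.T

/-- A family of self-maps of `X` with parameter in `[0, 2π]` which begins and ends with the identity (for instance a
circle action). -/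
structure Act (X : Type) [TopologicalSpace X] where
  R : ℝ → X → X
  cont : Continuous fun z : ℝ × X => R z.1 z.2
  zero : ∀ x, R 0 x = x
  per : ∀ x, R (2 * Real.pi) x = x

/-- the fixed points -/
def Act.Fix {X : Type} [TopologicalSpace X] (A : Act X) : Set X := {x | ∀ ρ, A.R ρ x = x}

/-- the point of the unit sphere with longitude `ρ` and colatitude `π v` -/
noncomputable def PP (ρ v : ℝ) : R3 :=
  (Real.cos (Real.pi * v), (Real.sin (Real.pi * v) : ℂ) * Complex.exp (ρ * Complex.I))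

/-- colatitude divided by `π` -/
noncomputable def lat (m : R3) : ℝ := Real.arccos m.1 / Real.pi

/-- longitude in `[0, 2π)` -/
noncomputable def lon (m : R3) : ℝ := if 0 ≤ m.2.arg then m.2.arg else m.2.arg + 2 * Real.pi

/-- the sphere swept out by the path `γ` -/
noncomputable def Act.sph {X : Type} [TopologicalSpace X] (A : Act X) (γ : ℝ → X) (m : R3) : X :=
  A.R (lon m) (γ (lat m))

/-- MODULE PP.  Coordinates on the unit sphere.
Proof.  (1) `cos² + sin² = 1`.  (2) Let `m = PP ρ v`.  `lat m = arccos (cos (π v)) / π = v` (`Real.arccos_cos`).  If `v = 0` or `v = 1` then `γ v` is a fixed point, both sides are `γ v`.  If `0 < v < 1`: `m.2 = sin (π v) exp (ρ I)` with `sin (π v) > 0`;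
for `ρ ≤ π` (`ρ ≥ 0 > -π`) `arg m.2 = ρ` (`Complex.arg_mul_cos_add_sin_mul_I` or `Complex.arg_real_mul`, `Complex.arg_exp_mul_I`), so `lon m = ρ`; for `π < ρ < 2π`: `exp (ρ I) = exp ((ρ - 2π) I)`, `arg = ρ - 2π < 0`, `lon m = ρ`;
for `ρ = 2π`: `lon m = 0` and `A.R 0 x = x = A.R (2π) x`.  (3) `m.1 ∈ [-1,1]`; `cos (π lat m) = m.1` (`Real.cos_arccos`), `sin (π lat m) = √(1 - m.1²) = ‖m.2‖` (`Real.sin_arccos`), `‖z‖ exp (arg z I) = z` (`Complex.norm_mul_exp_arg_mul_I`) and `exp ((arg z + 2π) I) = exp (arg z I)`.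
(4) `q : Z × (Icc 0 (2π) × Icc 0 1) → Z × S2`, `q (z, ρ, v) = (z, PP ρ v)` is a quotient map: `PP` restricted to the compact rectangle is continuous with values in the Hausdorff space `S2`, hence proper, so `id × PP` is proper (`IsProperMap.prodMap`, `isProperMap_id`, `Continuous.isProperMap`), closed, continuous
and surjective (by (3)), `IsClosedMap.isQuotientMap` (or the name in Mathlib).  By (2) the composition with `q` is `(z, ρ, v) ↦ A.R ρ (Γ (z, v))`, continuous. -/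
def StPP : Prop :=
  (∀ ρ v, PP ρ v ∈ S2) ∧
  (∀ (X : Type) [TopologicalSpace X] (A : Act X) (γ : ℝ → X), γ 0 ∈ A.Fix → γ 1 ∈ A.Fix →
    ∀ ρ ∈ Icc (0 : ℝ) (2 * Real.pi), ∀ v ∈ Icc (0 : ℝ) 1, A.sph γ (PP ρ v) = A.R ρ (γ v)) ∧
  (∀ m ∈ S2, PP (lon m) (lat m) = m ∧ lon m ∈ Icc (0 : ℝ) (2 * Real.pi) ∧
    lat m ∈ Icc (0 : ℝ) 1) ∧
  (∀ (X Z : Type) [TopologicalSpace X] [TopologicalSpace Z] (A : Act X) (Γ : Z × ℝ → X),
    ContinuousOn Γ (univ ×ˢ Icc (0 : ℝ) 1) → (∀ z, Γ (z, 0) ∈ A.Fix) → (∀ z, Γ (z, 1) ∈ A.Fix) →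
    ContinuousOn (fun p : Z × R3 => A.sph (fun v => Γ (p.1, v)) p.2) (univ ×ˢ S2))

/-! ## homotopies of maps of the square -/

/-- `f` and `g` are homotopic relative to the boundary, which is mapped to `y`. -/
def Hrel {X : Type} [TopologicalSpace X] (y : X) (f g : (Fin 2 → I) → X) : Prop :=
  ∃ F : ℝ × (Fin 2 → I) → X, ContinuousOn F (Icc (0 : ℝ) 1 ×ˢ univ) ∧ (∀ t, F (0, t) = f t) ∧
    (∀ t, F (1, t) = g t) ∧ ∀ u ∈ Icc (0 : ℝ) 1, ∀ t ∈ Cube.boundary (Fin 2), F (u, t) = y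

/-- `f` and `g`, constant on the boundary of the square, are freely homotopic as maps of the sphere. -/
def Hfree {X : Type} [TopologicalSpace X] (f g : (Fin 2 → I) → X) : Prop :=
  ∃ F : ℝ × (Fin 2 → I) → X, ContinuousOn F (Icc (0 : ℝ) 1 ×ˢ univ) ∧ (∀ t, F (0, t) = f t) ∧
    (∀ t, F (1, t) = g t) ∧ ∀ u ∈ Icc (0 : ℝ) 1, ∀ t ∈ Cube.boundary (Fin 2),
      ∀ t' ∈ Cube.boundary (Fin 2), F (u, t) = F (u, t')

/-- the class of a based map of the square -/
def hcl {X : Type} [TopologicalSpace X] {y : X} (f : GenLoop (Fin 2) X y) :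
    HomotopyGroup (Fin 2) X y := Quotient.mk _ f

/-- `min 1 (min (3 θ) (3 - 3 θ))` -/
noncomputable def lam (θ : ℝ) : ℝ := min 1 (min (3 * θ) (3 - 3 * θ))

/-- the angle, from `0` to `2π` for `θ ∈ [1/3, 2/3]` -/
noncomputable def rho (θ : ℝ) : ℝ := 2 * Real.pi * max 0 (min 1 (3 * θ - 1))

/-- `min (2 t) (2 - 2 t)` -/
noncomputable def tau (t : ℝ) : ℝ := min (2 * t) (2 - 2 * t)

/-- another parametrization of the sphere by the square -/
noncomputable def qq (t : Fin 2 → I) : R3 :=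
  if (t 1 : ℝ) ≤ 1 / 2 then PP (rho (t 0)) (lam (t 0) * tau (t 1)) else PP 0 (lam (t 0) * tau (t 1))

/-- MODULE SQR.  The parametrizations `qq` and `sqr` of the sphere by the square are homotopic relative to the boundary.
Proof.  `qq` is continuous: on the line `t 1 = 1/2` (`tau = 1`) the two formulas agree: `PP ρ λ = PP 0 λ` if `ρ = 0` or `ρ = 2π` (`t 0 ≤ 1/3` or `≥ 2/3`) or `λ = 1` (otherwise).  `sqr` is continuous.
CLAIM: `qq t ≠ - sqr t` for all `t`.  Put `θ = t 0`, `s = t 1`.  `Im` of the second component: `(sqr t).2.im = 2 sin (πθ) cos (πθ) sin² (πs)`; `(qq t).2.im = sin (π λ τ) sin ρ` or `0`, with `λ τ ∈ [0,1]`, and `ρ ∈ [0, π]` for `θ ≤ 1/2`, `ρ ∈ [π, 2π]` for `θ ≥ 1/2`.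
If `0 < θ < 1/2` and `0 < s < 1`: `(sqr t).2.im > 0` and `(qq t).2.im ≥ 0`: no antipodes.  If `1/2 < θ < 1`, `0 < s < 1`: `(sqr t).2.im < 0`, `(qq t).2.im ≤ 0`.  If `θ = 1/2`: `rho = π`, `lam = 1`, and `qq t = (cos 2πs, - sin 2πs) = sqr t` in both cases
(`sqr t = (1 - 2 sin² πs, -2 sin πs cos πs)`).  On the boundary `qq t = (1, 0) = sqr t`.  Two equal unit vectors are not antipodal.
Hence `(1 - u) qq t + u sqr t ≠ 0` for `u ∈ [0,1]` (if it is `0` then the norms give `1 - u = u`, so `qq t = - sqr t`), and `G (u, t)` = this vector divided by `√(nsq ..)`. -/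
def StSQR : Prop :=
  ∃ G : ℝ × (Fin 2 → I) → R3, ContinuousOn G (Icc (0 : ℝ) 1 ×ˢ univ) ∧
    (∀ u ∈ Icc (0 : ℝ) 1, ∀ t, G (u, t) ∈ S2) ∧ (∀ t, G (0, t) = qq t) ∧ (∀ t, G (1, t) = sqr t) ∧
    ∀ u ∈ Icc (0 : ℝ) 1, ∀ t ∈ Cube.boundary (Fin 2), G (u, t) = (1, 0)

/-- MODULE SQD.  A homotopy of maps of the square, constant on the boundary at each time, comes from a homotopy of maps
of the sphere.
Proof.  The map `sqr` is continuous, onto `S2` (`StMQ` (4); `sqr t = mq (t 0) (t 1)` by definition) and `sqr t = sqr t'` only if `t = t'` or both are in the boundary: if `(sqr t).1 ≠ 1` then `c = sin (π t 0) sin (π t 1) > 0` is determined by the first component (`1 - 2 c²`),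
`cos (π t 1) = - re / (2 c)` determines `t 1 ∈ (0,1)` (`Real.injOn_cos`), then `sin (π t 1)`, `sin (π t 0)` and `cos (π t 0)` are determined.  If `(sqr t).1 = 1` then `sin (π t 0) sin (π t 1) = 0`: `t` is in the boundary (and so is `t'`).
`id × sqr : Icc 0 1 × (Fin 2 → I) → Icc 0 1 × S2` is continuous and onto, from a compact to a Hausdorff space, so it is a quotient map; `F` descends. -/
def StSQD : Prop :=
  ∀ (X : Type) [TopologicalSpace X] (F : ℝ × (Fin 2 → I) → X),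
    ContinuousOn F (Icc (0 : ℝ) 1 ×ˢ univ) →
    (∀ u ∈ Icc (0 : ℝ) 1, ∀ t ∈ Cube.boundary (Fin 2), ∀ t' ∈ Cube.boundary (Fin 2),
      F (u, t) = F (u, t')) →
    ∃ h : ℝ × R3 → X, ContinuousOn h (Icc (0 : ℝ) 1 ×ˢ S2) ∧
      ∀ u ∈ Icc (0 : ℝ) 1, ∀ t, h (u, sqr t) = F (u, t)

/-! ## the calculus of swept spheres (helper70: modules TSC, MUL) -/

/-- MODULE MUL (helper70).  Concatenation of two paths at a fixed point. -/
def StMUL : Prop :=
  ∀ (X : Type) [TopologicalSpace X] (A : Act X) (γ : ℝ → X) (y₀ : X),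
    ContinuousOn γ (Icc (0 : ℝ) 1) → γ 0 = y₀ → γ 0 ∈ A.Fix → γ (1 / 2) ∈ A.Fix → γ 1 ∈ A.Fix →
    ∀ f g : GenLoop (Fin 2) X y₀, (∀ t, f t = A.sph γ (sqr t)) →
      (∀ t, g t = A.sph (fun v => γ (v / 2)) (sqr t)) →
      ∃ x : GenLoop (Fin 2) X y₀,
        hcl f = hcl g * hcl x ∧
        Hfree x (fun t => A.sph (fun v => γ (1 / 2 + v / 2)) (sqr t))

/-- the quotients of freely homotopic elements of the second homotopy group -/
def drift {X : Type} [TopologicalSpace X] (y₀ : X) : Set (HomotopyGroup (Fin 2) X y₀) :=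
  {v | ∃ (x x' : GenLoop (Fin 2) X y₀) (κ : (Fin 2 → I) → X), Hfree x κ ∧ Hfree x' κ ∧
    v = hcl x * (hcl x')⁻¹}

/-- MODULE ABS.  The van Kampen argument for swept spheres.
Notation: `x₀ = e y₀`; for a path `p` in `X` from `x₀` to a fixed point, `s p ∈ HomotopyGroup (Fin 2) X x₀` is the class of the `GenLoop` `t ↦ A.sph (p.extend) (sqr t)` (continuous by `StPP` (4) with `Z = Unit` and continuity of `sqr`; on the boundary `sqr t = (1, 0)`, `lat (1,0) = 0`: value `x₀`).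
(0) If `p`, `p'` are homotopic (rel ends) then `s p = s p'`: `StPP` (4) with `Z = unitInterval`, `Γ (u, v)` = the homotopy; equality of classes from a homotopy relative to the boundary (`Quotient.sound`, `ContinuousMap.HomotopyRel`).  So `s` is defined on `Path.Homotopic.Quotient x₀ x₁`, `x₁` fixed.
(1) `StMUL` with `γ = (p.trans k).extend` (`γ (v/2) = p.extend v`, `γ (1/2 + v/2) = k.extend v` for `v ∈ [0,1]`; note that `A.sph γ m` for `m ∈ S2` only uses `γ` on `[0,1]` as `lat m ∈ [0,1]`): `s (p.trans k) = s p * ⟦x⟧` with `Hfree x (A.sph (k.extend) ∘ sqr)`, if the end of `p` is a fixed point.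
(2) If `m` is a path of fixed points then `s (p.trans m) = s p` (`Γ (u, v) = (p.trans m).extend ((1 - u/2) v)`, its ends are fixed points: `v = 1`: `1 - u/2 ≥ 1/2`, in the part `m`).  If all points of `p` are fixed then `s p = 1` (`Γ (u, v) = p ((1-u) v)`, at `u = 1` the constant loop).
(3) Let `D = Subgroup.closure (drift x₀)`.  For `y : Off K` and homotopy classes `g`, `g'` of paths from `y₀` to `y` in `Off K` put `Rel y g g' :=` for all `y₁ : Off K` with `e y₁` fixed and all classes `b` of paths from `y` to `y₁`: `s (e (g.trans b)) * (s (e (g'.trans b)))⁻¹ ∈ D`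
(`e` of a path: `Path.map`, of a class: `Path.Homotopic.Quotient.map`).  This is `RelP K y₀ Rel` (commutative group, `Path.Homotopic.Quotient.trans_assoc`).
(4) Let `m` be the meridian: `m t = T.Q (z.1 + t · tpi, z.2)`, all `e (m t)` are fixed points.  For `g` from `y₀` to `y₁ = m 0`: `Rel y₁ (g.trans (cl m)) g`: for `b` from `y₁`: by (1) at the fixed point `e y₁`: `s (g m b) = s (g m) * ⟦x⟧`, `s (g b) = s g * ⟦x'⟧` with `x`, `x'` freely homotopic to the same `A.sph ((e b).extend) ∘ sqr`,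
and `s (g m) = s g` by (2); the group is commutative, so the quotient is `⟦x⟧ * ⟦x'⟧⁻¹ ∈ drift`.
(5) `vk` (`Pool/Agent/Helper34/BI5/VK4.lean`) gives `Rel y (cl p) (cl p')` for all `p`, `p'`; apply it with `b = refl` and `p'` the path of fixed points: `s (e p) * 1 ∈ D`. -/
def StABS : Prop :=
  ∀ (X : Type) [TopologicalSpace X] (A : Act X) (K : Set R4) (e : Helper34.S5.Off K → X)
    (V : Type) [NormedAddCommGroup V] [NormedSpace ℝ V] (T : Helper34.S5.Tub K V) (z : ℂ × V)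
    (y₀ y : Helper34.S5.Off K) (p p' : Path y₀ y), IsClosed K → Continuous e →
    z ∈ {ℓ : ℂ | ℓ.re < T.κ} ×ˢ T.P →
    (∀ (t : ℝ) (y' : Helper34.S5.Off K),
      (y' : R4) = T.Q (z.1 + (t : ℂ) * Helper34.S5.tpi, z.2) → e y' ∈ A.Fix) →
    (∀ t, e (p' t) ∈ A.Fix) →
    ∀ f : GenLoop (Fin 2) X (e y₀), (∀ t, f t = A.sph (fun v => e (p.extend v)) (sqr t)) →
      hcl f ∈ Subgroup.closure (drift (e y₀))

/-! ## geometry -/

/-- MODULE FIXP.  Two fixed points of the rotation can be joined by a path of fixed points avoiding two given points.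
Proof.  The set of fixed points in the 4-sphere is the set `Fx` of points with `x 3 = x 4 = 0`, homeomorphic to the unit sphere of `EuclideanSpace ℝ (Fin 3)`.  If `a` is one of the two points to be avoided, `Fx \ {a}` is homeomorphic to a plane by stereographic projection (or: use `stereographic` in `EuclideanSpace ℝ (Fin 3)`),
and a plane minus a point is path connected (`isPathConnected_compl_singleton_of_one_lt_rank`).  If `a ∉ Fx` (or `b ∉ Fx`) it is easier (avoid another point).  Alternative: explicit family of paths from `x` to `y` in `Fx`, two of which are disjoint from `{a, b}`. -/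
def StFIXP : Prop :=
  ∀ a b x y : S4, x ≠ a → x ≠ b → y ≠ a → y ≠ b → (∀ θ, spin4 θ x = x) → (∀ θ, spin4 θ y = y) →
    ∃ p : Path x y, ∀ t, p t ≠ a ∧ p t ≠ b ∧ ∀ θ, spin4 θ (p t) = p t

/-- MODULE CHT.  A chart of the 4-sphere containing the spine of a barbell and all fixed points of the rotation, and the
tube.
Proof.  `L = {x : S4 | x 3 = 0 ∧ x 4 = 0}` (the fixed points: `spin4 π x = x` gives `x 3 = x 4 = 0`, and conversely) is closed with empty interior; `B '' SP` is compact with empty interior (see `Pool/Agent/Helper18/BI/M_X2.lean`; `SP` is contained in the hyperplane `s = 1/2`), so the union is compact with empty interior (`interior_union_isClosed_of_interior_empty`).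
`StX2c` gives `c`.  `StX3` for `c`, `B`, `SP`: `F = fun p => Function.invFun c (B p)` is `EmbOn 𝓘(ℝ, R4) F SP` and `c (F p) = B p` on an open `U ⊇ SP`.  `K = F '' sph 1`: `x ∈ K ↔ c x ∈ B '' sph 1` (`c` is injective).  -/
def StCHT : Prop :=
  ∀ B : PartialDiffeomorph 𝓘(ℝ, R4) (𝓡 4) R4 S4 ∞, SP ⊆ B.source →
    ∃ (c : R4 → S4) (G : R4 → R4) (U : Set R4), EmbOn (𝓡 4) c univ ∧
      (∀ x : S4, (∀ θ, spin4 θ x = x) → x ∈ range c) ∧ EmbOn 𝓘(ℝ, R4) G SP ∧
      IsOpen U ∧ SP ⊆ U ∧ (∀ p ∈ U, c (G p) = B p) ∧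
      (∀ x, x ∈ G '' sph 1 ↔ c x ∈ B '' sph 1)

/-- MODULE SPN (helper70).  Rotation invariant barbells are elementary. -/
def StSPN : Prop :=
  ∀ B : PartialDiffeomorph 𝓘(ℝ, R4) (𝓡 4) R4 S4 ∞, IsSpun B → Helper18.FinT.Elementary B

end Pool.Agent.Helper70.T


end
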