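import Pool.Agent.Helper65.Barb.Defs
import Pool.Agent.Helper70.BI.C.P05
import Pool.Agent.Helper70.BI.C.P06
import Pool.Agent.Helper70.BI.C.P07

/-!
# Project BI (MP_8e98f2_gt): collected modules, part 08

The contents of the modules
* Helper27.BI.H.StH2
* Helper27.BI.H.Ch5
* Helper27.BI.H.Fing

in one file, so that the whole proof builds in a short time.
-/

namespace Pool.Agent.Helper18.BI
end Pool.Agent.Helper18.BI

namespace Pool.Agent.Helper27.BI
end Pool.Agent.Helper27.BI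

namespace Pool.Agent.Helper34.BI
end Pool.Agent.Helper34.BI

namespace Pool.Agent.Helper65.Barb
end Pool.Agent.Helper65.Barb

namespace Pool.Agent.Helper70.BI
end Pool.Agent.Helper70.BI


/-! ## Helper27.BI.H.StH2 -/

section

/-!
# Project BI, stage 3 (H), parts 0 and 2: the implantation class of a germ as the class of a loop of arcs

Model coordinates `p = (s, x)`, `x` in three-space.  The fixed cuff is `sph 1`.  `G = F ∘ sq ε` is an embedding of the
region `K3 δ`.  The wall is `G '' wallS δ`, a thick shell around the fixed cuff.  The arcs start and end on the wall; the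
base arc is the finger `s ↦ G (s, z0 s)`, the loop of arcs is `s ↦ G (s, zq q s)`; it sweeps out a sphere around the
first hole.
-/

set_option autoImplicit false

open scoped Manifold ContDiff Topology ComplexConjugate
open Set Filter Pool.Agent.Helper65.Barb Pool.Agent.Helper18.BI
open Pool.Agent.Helper70.BI (I4 NearEq)
open Pool.Agent.Helper27.BI (e1 barPath TIso IsPush StCh StSpin)
open Pool.Agent.Helper34.BI (rade)

namespace Pool.Agent.Helper27.H

/-- the length of the finger -/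
noncomputable def bfin (s : ℝ) : ℝ := 27 / 100 * (step (5 * s - 1 / 2) * step (9 / 2 - 5 * s))

/-- the finger -/
noncomputable def z0 (s : ℝ) : R3 := (1 - bfin s) • e1

/-- the loop of fingers -/
noncomputable def zq (q s : ℝ) : R3 := (1 - bfin s) • barPath () q (10 * s - 9 / 2)

/-- the wall -/
def wallS (δ : ℝ) : Set R4 :=
  {p | 0 ≤ p.1 ∧ p.1 ≤ 1 ∧ 1 / 25 - 3 * δ ≤ rsq 1 p ∧ rsq 1 p ≤ 1 / 25 - δ}

/-- the region where the germs are defined -/
def K3 (δ : ℝ) : Set R4 := {p | p ∈ ball4 ∧ 1 / 25 ≤ rsq 0 p ∧ 1 / 25 - 3 * δ ≤ rsq 1 p}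

/-- the region between the wall and the radius `1/3`, which contains the finger -/
def Dreg (δ : ℝ) : Set R4 := {p | 0 ≤ p.1 ∧ p.1 ≤ 1 ∧ 1 / 25 - δ ≤ rsq 1 p ∧ rsq 1 p ≤ 1 / 9}

/-- the support of the pushes of the loop of fingers -/
def SL : Set R4 :=
  {p | 9 / 20 ≤ p.1 ∧ p.1 ≤ 11 / 20 ∧ (71 / 100) ^ 2 ≤ rsq 0 p ∧ rsq 0 p ≤ (3 / 4) ^ 2}

/-- **BFIN.**  Elementary properties of the finger function. -/
def StBFIN : Prop :=
  ContDiff ℝ ∞ bfin ∧ (∀ s, 0 ≤ bfin s ∧ bfin s ≤ 27 / 100) ∧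
  (∀ s ∈ Icc (3 / 10 : ℝ) (7 / 10), bfin s = 27 / 100) ∧
  (∀ s, (s ≤ 1 / 10 ∨ 9 / 10 ≤ s) → bfin s = 0) ∧
  ∀ δ ∈ Ioo (0 : ℝ) (1 / 100), ∃ s₀ ∈ Ioo (1 / 10 : ℝ) (3 / 10), ∃ s₁ ∈ Ioo (7 / 10 : ℝ) (9 / 10),
    bfin s₀ ^ 2 = 1 / 25 - δ ∧ bfin s₁ ^ 2 = 1 / 25 - δ ∧
    (∀ s ∈ Ioo s₀ s₁, 1 / 25 - δ < bfin s ^ 2) ∧ ∀ s, s ∉ Ioo s₀ s₁ → bfin s ^ 2 ≤ 1 / 25 - δ

/-- `T` pushes the vertical line over `e1` to the finger, `T'` is the inverse. -/
structure FingOk (T T' : R4 → R4) : Prop where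
  smooth : ContDiff ℝ ∞ T
  smooth' : ContDiff ℝ ∞ T'
  left : ∀ x, T' (T x) = x
  right : ∀ x, T (T' x) = x
  tube : ∀ (s : ℝ) (y : R3), nsq y ≤ (1 / 100) ^ 2 → T (s, e1 + y) = (s, z0 s + y)
  level : ∀ p, (T p).1 = p.1
  out : ∀ (s : ℝ) (x : R3), (s ≤ 1 / 10 ∨ 9 / 10 ≤ s) → T (s, x) = (s, x)
  far : ∀ p, (3 / 10) ^ 2 ≤ rsq 1 p → T p = p

/-- the pushes of the loop of fingers -/
structure LamOk (F : DFam 𝓘(ℝ, R4) R4) : Prop where
  zero : ∀ x, F.f (0, x) = x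
  tube : ∀ (t s : ℝ) (y : R3), nsq y ≤ (1 / 100) ^ 2 →
    F.f (t, (s, z0 s + y)) = (s, zq (step t) s + y)
  supp : ∀ t p, p ∉ SL → F.f (t, p) = p

/-- **FING.** -/
def StFING : Prop :=
  ∃ (T T' : R4 → R4) (F : DFam 𝓘(ℝ, R4) R4), FingOk T T' ∧ LamOk F ∧
    TIso {p | rsq 0 p ≤ 1 / 25} (1 / 100) (fun (_ : Unit) _ => e1) (fun _ _ => e1) barMap
      (fun p => T' (F.f (1, T p)))

/-- the retraction of the finger, in the model: for `p` off the finger the point is in `K3 δ` -/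
noncomputable def e0 (δ : ℝ) (T' : R4 → R4) (p : R4) : R4 := rade δ 1 (T' p)

/-- MODULE EHAT.  The complement of the wall and the base arc is embedded in `R4`, by retracting the finger.

Proof.  Write `e₀ = e0 δ T'`, `D = Dreg δ` (compact), `W = wallS δ`, `K = K3 δ`.  `D ⊆ K`, `W ⊆ K` (for `rsq 1 p ≤ 1/9` the
first space coordinate is `≥ 2/3`, so `rsq 0 p ≥ 1/25`; `ball4`: `rsq 0 p ≤ (4/3)^2`).
Facts about `rade δ 1` from `Pool/Agent/Helper34/BI/M_RE.lean`, namespace `RE` (`rade_eq_rad`, `rade_id`, `rsq_rad`, `qe_prf`, `qe_eq`, `qe_low`,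
`rad_inj`, `rad_contDiffOn`, `rad_fderiv`).
(1) If `p ∈ D` and `p` is not on the finger (`p ≠ (s, z0 s)` for all `s` with `1/25 - δ < bfin s ^ 2`) and `1/25 - δ < rsq 1 p`, then `rsq 1 (T' p) > 0`:
otherwise `T' p = (s, e1)`, `p = T (s, e1) = (s, z0 s)` (`tube` with `y = 0`) and `rsq 1 p = bfin s ^ 2`.
(2) For such `p`: `e₀ p ∈ K3 δ`, more precisely `0 ≤ (e₀ p).1 ≤ 1` (`T'` and `rade` preserve the level), `1/25 - 3 δ ≤ rsq 1 (e₀ p)`
(`qe_low`) and `rsq 1 (e₀ p) ≤ 1/9` (`rsq 1 (T' p) ≤ 1/9`: otherwise `T' p` is fixed by `T` (`far`), so `p = T' p`; `qe δ` is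
monotone and the identity on `[1/25 - δ, ∞)`).  So `e₀ p ∈ D` or `e₀ p ∈ W`.
(3) `e₀ p = p` if `rsq 1 p ≥ (3/10)^2` (`far`, `left`, `rade_id`), and if `1/25 - δ ≤ rsq 1 p` and (`p.1 ≤ 1/10` or `9/10 ≤ p.1`) (`out`).
(4) `e₀` is a local diffeomorphism at `p` as in (1) (`A0`, chain rule; or `T'` is a diffeomorphism and `rade` is a local one, `IsLocalDiffeomorphAt.comp`),
and injective on the set of these `p` (`T'` injective, `rad_inj` on `rsq 1 > 0`).
(5) Let `y` be in the set `S = (G '' W)ᶜ \ finger`.  If `y = G p`, `p ∈ D`, then `1/25 - δ < rsq 1 p` (otherwise `p ∈ W`), `p` is as in (1),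
`imp G D e₀ y = G (e₀ p)` (`imp_image`).  Let `N` be an open set containing `K` on which `G` is injective and a local diffeomorphism (`StA1`, `m_A1`;
`K` is compact).  For `q` near `p`: `imp G D e₀ (G q) = G (e₀ q)`: clear if `q ∈ D`; if `q ∉ D` then `q.1 < 0`, `q.1 > 1` or `rsq 1 q > 1/9`
(`rsq 1 q > 1/25 - δ` near `p`), so `e₀ q = q` by (3) and `G q ∉ G '' D` (injectivity on `N`; `imp_off`).  So near `y` the map is
`G ∘ e₀ ∘ G⁻¹`, a local diffeomorphism at `y` (`G⁻¹` from the partial diffeomorphism).  If `y ∉ G '' D` (compact), the map is the identity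
near `y`.
(6) Injective on `S`: two points of `G '' D`: by injectivity of `G` on `K` and (4).  `y = G p`, `p ∈ D`, `y' ∉ G '' D`, with the same image:
`y' = G (e₀ p)`, and `e₀ p ∈ D` or `e₀ p ∈ W` by (2): both impossible for `y' ∈ S`. -/
def StEHAT : Prop :=
  ∀ (T T' G : R4 → R4) (δ : ℝ), FingOk T T' → δ ∈ Ioo (0 : ℝ) (1 / 100) → EmbOn I4 G (K3 δ) →
    EmbOn I4 (imp G (Dreg δ) (e0 δ T'))
      ((G '' wallS δ)ᶜ \ (fun s => G (s, z0 s)) '' {s | 1 / 25 - δ < bfin s ^ 2})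

/-- the loop of arcs of the germ `G`, relative to the base arc of `D` -/
noncomputable def loopc (D : ArcD) (G : R4 → R4) (q s : ℝ) : R4 :=
  open Classical in if s ∈ Icc (3 / 10 : ℝ) (7 / 10) then G (s, zq q s) else D.c s

/-- the arc datum of an embedding of `K3 δ` -/
structure HatOk (δ : ℝ) (T' G : R4 → R4) (D : ArcD) : Prop where
  U : D.U = (G '' wallS δ)ᶜ
  J : D.J = fun p => G (p.1, z0 p.1 + p.2)
  e : D.e = imp G (Dreg δ) (e0 δ T')
  m₀ : D.m₀ = 9 / 20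
  m₁ : D.m₁ = 11 / 20
  s₀ : D.s₀ ∈ Ioo (1 / 10 : ℝ) (3 / 10)
  s₁ : D.s₁ ∈ Ioo (7 / 10 : ℝ) (9 / 10)
  b₀ : bfin D.s₀ ^ 2 = 1 / 25 - δ
  b₁ : bfin D.s₁ ^ 2 = 1 / 25 - δ
  b : ∀ s ∈ Ioo D.s₀ D.s₁, 1 / 25 - δ < bfin s ^ 2
  b' : ∀ s, s ∉ Ioo D.s₀ D.s₁ → bfin s ^ 2 ≤ 1 / 25 - δ

/-- MODULE HARC: the arc datum exists. -/
def StHARC : Prop :=
  ∀ (T T' G : R4 → R4) (δ : ℝ), FingOk T T' → δ ∈ Ioo (0 : ℝ) (1 / 100) → EmbOn I4 G (K3 δ) →
    ∃ D, HatOk δ T' G D

/-- MODULE HCLS: the class of the loop. -/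
def StHCLS : Prop :=
  ∀ (T T' G G' φ : R4 → R4) (F : DFam 𝓘(ℝ, R4) R4) (δ : ℝ) (D : ArcD), FingOk T T' → LamOk F →
    TIso {p | rsq 0 p ≤ 1 / 25} (1 / 100) (fun (_ : Unit) _ => e1) (fun _ _ => e1) barMap
      (fun p => T' (F.f (1, T p))) → δ ∈ Ioo (0 : ℝ) (1 / 100) → EmbOn I4 G (K3 δ) →
    HatOk δ T' G D → EmbOn I4 G' (K3 δ) → NearEq G G' {p | p ∈ K3 δ ∧ rsq 1 p ≤ 1 / 9} →
    CIsot I4 φ (imp G' bsupp barMap) →
    D.Cls (loopc D G') φ ∧ ∀ q ∈ Icc (0 : ℝ) 1, InjOn (loopc D G' q) (Icc D.s₀ D.s₁) ∧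
      ∀ s ∈ Icc D.s₀ D.s₁, deriv (loopc D G' q) s ≠ 0

/-- **HAT** (parts 0 and 2): two germs which agree near the fixed cuff and the outer part of the bar. -/
def StHAT : Prop :=
  ∀ (F F' φ φ' : R4 → R4) (V : Set R4), EmbOn I4 F SP → EmbOn I4 F' SP → IsOpen V →
    sph 1 ∪ Pool.Agent.Helper18.BI.H.neckE ⊆ V → EqOn F F' V → Thin I4 F φ → Thin I4 F' φ' →
    ∀ κ > 0, ∃ ε₀ > 0, ∀ ε ∈ Ioo 0 ε₀, ∃ D : ArcD, D.m₀ = 9 / 20 ∧ D.m₁ = 11 / 20 ∧
      D.s₀ < 3 / 10 ∧ 7 / 10 < D.s₁ ∧ (∀ x ∉ D.U, ∃ y ∈ F '' sph 1, dist x y < κ) ∧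
      (∀ s ∈ Icc (3 / 10 : ℝ) (7 / 10), D.c s = F (sq ε (s, z0 s))) ∧
      D.Cls (loopc D (fun p => F (sq ε p))) φ ∧ D.Cls (loopc D (fun p => F' (sq ε p))) φ' ∧
      ∀ q ∈ Icc (0 : ℝ) 1,
        (InjOn (loopc D (fun p => F (sq ε p)) q) (Icc D.s₀ D.s₁) ∧
          ∀ s ∈ Icc D.s₀ D.s₁, deriv (loopc D (fun p => F (sq ε p)) q) s ≠ 0) ∧
        InjOn (loopc D (fun p => F' (sq ε p)) q) (Icc D.s₀ D.s₁) ∧
          ∀ s ∈ Icc D.s₀ D.s₁, deriv (loopc D (fun p => F' (sq ε p)) q) s ≠ 0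

end Pool.Agent.Helper27.H


end

/-! ## Helper27.BI.H.Ch5 -/

section

/-!
# Project BI, stage 3 (H): chains in three-space, with additional properties

As `StCh`, and moreover: the maps are level preserving, and nothing moves in levels where the arcs do
not move.
-/

set_option autoImplicit false

open scoped Manifold ContDiff Topology ComplexConjugate
open Set Pool.Agent.Helper65.Barb Pool.Agent.Helper18.BI Pool.Agent.Helper27.BI

namespace Pool.Agent.Helper27.H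

section
variable {ι : Type} [Fintype ι]

theorem Q_fst {ρ : ℝ} {Γ : ι → ℝ → ℝ → ℝ → R3} {N : ℕ} {a b : ℝ × ℝ} (p : R4) (k : ℕ) :
    (CH.Q ρ Γ N a b k p).1 = p.1 := by
  induction k with
  | zero => rfl
  | succ k ih =>
    show (CH.ds ρ Γ (CH.ipc N a b k) (CH.ipc N a b (k + 1)) (CH.Q ρ Γ N a b k p)).1 = p.1
    exact ih

theorem Q_static {ρ : ℝ} (hρ : 0 < ρ) {Γ : ι → ℝ → ℝ → ℝ → R3} {N : ℕ} {a b : ℝ × ℝ} {s : ℝ}
    {x : R3} (k : ℕ) (hk : k ≤ N)
    (h : ∀ i, ∀ m < N, Γ i (CH.ipc N a b (m + 1)).1 (CH.ipc N a b (m + 1)).2 s =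
        Γ i (CH.ipc N a b m).1 (CH.ipc N a b m).2 s) :
    CH.Q ρ Γ N a b k (s, x) = (s, x) := by
  induction k with
  | zero => rfl
  | succ k ih =>
    show CH.ds ρ Γ (CH.ipc N a b k) (CH.ipc N a b (k + 1)) (CH.Q ρ Γ N a b k (s, x)) = (s, x)
    rw [ih (by omega)]
    exact CH.ds_fix hρ (Or.inl fun i => h i k (by omega))

end

/-- Chains, with additional properties. -/
def StCh5 : Prop :=
  ∀ (ι : Type) (_ : Fintype ι) (O : Set R4) (ρ : ℝ) (Γ : ι → ℝ → ℝ → ℝ → R3), 0 < ρ →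
    SqOk O ρ Γ →
    ∃ P : ℝ × ℝ → ℝ × ℝ → R4 → R4, (∀ q x, P q q x = x) ∧
      ∀ a b : ℝ → ℝ × ℝ, ContDiff ℝ ∞ a → ContDiff ℝ ∞ b →
        (∀ t, a t ∈ Icc (0 : ℝ) 1 ×ˢ Icc (0 : ℝ) 1) →
        (∀ t, b t ∈ Icc (0 : ℝ) 1 ×ˢ Icc (0 : ℝ) 1) →
        ∃ F : DFam 𝓘(ℝ, R4) R4, (∀ t x, F.f (t, x) = P (a t) (b t) x) ∧ SuppB F ∧
          (∀ t, ∀ x ∈ O, F.f (t, x) = x) ∧
          (∀ t i s y, nsq y ≤ ρ ^ 2 →
            F.f (t, (s, Γ i (a t).1 (a t).2 s + y)) = (s, Γ i (b t).1 (b t).2 s + y)) ∧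
          (∀ t s x, (∀ i, ∀ τ ∈ Icc (0 : ℝ) 1, (2 * ρ) ^ 2 ≤
              nsq (x - Γ i ((a t).1 + τ * ((b t).1 - (a t).1))
                ((a t).2 + τ * ((b t).2 - (a t).2)) s)) →
            F.f (t, (s, x)) = (s, x)) ∧
          (∀ t p, (F.f (t, p)).1 = p.1) ∧
          ∀ t s, (∀ i, ∀ τ ∈ Icc (0 : ℝ) 1,
              Γ i ((a t).1 + τ * ((b t).1 - (a t).1)) ((a t).2 + τ * ((b t).2 - (a t).2)) s =
                Γ i (a t).1 (a t).2 s) → ∀ x, F.f (t, (s, x)) = (s, x)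

open CH in
/-- **CH5.** -/
theorem m_CH5 (pert : StPert) : StCh5 := by
  intro ι _ O ρ Γ hρ hΓ
  obtain ⟨C, hC0, hC⟩ := exists_lip hρ
  set δ : ℝ := 1 / (2 * C * (Fintype.card ι + 1)) with hδdef
  have hδ0 : 0 < δ := by positivity
  have hδ : Fintype.card ι * (C * δ) ≤ 1 / 2 := by
    have h1 : (Fintype.card ι + 1 : ℝ) * (C * δ) = 1 / 2 := by
      rw [hδdef]; field_simp
    have h2 : 0 < C * δ := by positivity
    nlinarith
  obtain ⟨N, hN, hstep⟩ := exists_N hΓ hδ0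
  have hN' : (N : ℝ) ≠ 0 := by exact_mod_cast hN.ne'
  refine ⟨fun a b => Q ρ Γ N a b N, ?_, ?_⟩
  · rintro q ⟨s, x⟩
    apply Q_fix hρ N le_rfl (Or.inl ?_)
    intro i m
    have : ∀ m, ipc N q q m = q := by
      intro m
      unfold ipc
      simp
    rw [this, this]
  intro a b ha hb ha' hb'
  obtain ⟨F, hF⟩ := exists_Q pert hΓ hC hC0 hδ ha hb
    (fun t s i k hk => hstep (a t) (ha' t) (b t) (hb' t) s i k hk) N le_rfl
  have hout : ∀ t s x, (s ≤ 0 ∨ 1 ≤ s) → F.f (t, (s, x)) = (s, x) := by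
    intro t s x hs
    rw [hF]
    apply Q_fix hρ N le_rfl (Or.inl ?_)
    intro i m
    obtain ⟨z, hz⟩ := hΓ.ends i
    rw [hz _ _ _ hs, hz _ _ _ hs]
  have hfix : ∀ t s x, (∀ i, ∀ τ ∈ Icc (0 : ℝ) 1, (2 * ρ) ^ 2 ≤
      nsq (x - Γ i ((a t).1 + τ * ((b t).1 - (a t).1))
        ((a t).2 + τ * ((b t).2 - (a t).2)) s)) → F.f (t, (s, x)) = (s, x) := by
    intro t s x h
    rw [hF]
    apply Q_fix hρ N le_rfl (Or.inr ?_)
    intro i m hm
    exact h i _ (div_mem hm)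
  refine ⟨F, hF, ?_, ?_, ?_, hfix, ?_, ?_⟩
  · refine ⟨⋃ i, (fun z : (ℝ × ℝ × ℝ) × R3 => ((z.1.2.2, Γ i z.1.1 z.1.2.1 z.1.2.2 + z.2) : R4)) ''
      ((Icc (0 : ℝ) 1 ×ˢ (Icc (0 : ℝ) 1 ×ˢ Icc (0 : ℝ) 1)) ×ˢ {y : R3 | nsq y ≤ (2 * ρ) ^ 2}),
      ?_, ?_, ?_⟩
    · apply isCompact_iUnion
      intro i
      apply IsCompact.image
      · exact (isCompact_Icc.prod (isCompact_Icc.prod isCompact_Icc)).prod (isCompact_nsq _)
      · have h1 : Continuous (fun z : (ℝ × ℝ × ℝ) × R3 => Γ i z.1.1 z.1.2.1 z.1.2.2) :=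
          (hΓ.smooth i).continuous.comp continuous_fst
        exact (continuous_fst.snd.snd).prodMk (h1.add continuous_snd)
    · rintro p hp
      obtain ⟨i, ⟨⟨u, q, s⟩, y⟩, ⟨⟨hu, hq, hs⟩, hy⟩, rfl⟩ := mem_iUnion.1 hp
      have hopen : IsOpen {p : R4 | -1 < p.1 ∧ p.1 < 2 ∧ rsq 0 p < (9 / 2) ^ 2} := by
        apply IsOpen.inter (isOpen_lt continuous_const continuous_fst)
        apply IsOpen.inter (isOpen_lt continuous_fst continuous_const)
        exact isOpen_lt (continuous_rsq 0) continuous_const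
      have hsub : {p : R4 | -1 < p.1 ∧ p.1 < 2 ∧ rsq 0 p < (9 / 2) ^ 2} ⊆ ball4 :=
        fun p hp => ⟨hp.1.le, hp.2.1.le, hp.2.2.le⟩
      apply interior_maximal hsub hopen
      have h1 := hΓ.inside i u hu q hq s hs (Γ i u q s + y) (by
        rw [add_sub_cancel_left]; exact hy)
      refine ⟨?_, ?_, ?_⟩
      · show -1 < s
        linarith [hs.1]
      · show s < 2
        linarith [hs.2]
      · show nsq ((Γ i u q s + y).1 - 0, (Γ i u q s + y).2) < _
        rw [sub_zero]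
        exact h1
    · rintro t ⟨s, x⟩ hx
      by_cases hs : s ≤ 0 ∨ 1 ≤ s
      · exact hout t s x hs
      push Not at hs
      have hs' : s ∈ Icc (0 : ℝ) 1 := ⟨hs.1.le, hs.2.le⟩
      apply hfix
      intro i τ hτ
      by_contra hlt
      push Not at hlt
      apply hx
      have hm := ip_mem (ha' t) (hb' t) hτ
      refine mem_iUnion.2 ⟨i, ⟨⟨⟨(a t).1 + τ * ((b t).1 - (a t).1),
        (a t).2 + τ * ((b t).2 - (a t).2), s⟩, x - Γ i ((a t).1 + τ * ((b t).1 - (a t).1))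
        ((a t).2 + τ * ((b t).2 - (a t).2)) s⟩, ⟨⟨hm.1, hm.2, hs'⟩, hlt.le⟩, ?_⟩⟩
      show (s, _ + (x - _)) = (s, x)
      rw [add_sub_cancel]
  · rintro t ⟨s, x⟩ hx
    by_cases hs : s ≤ 0 ∨ 1 ≤ s
    · exact hout t s x hs
    push Not at hs
    have hs' : s ∈ Icc (0 : ℝ) 1 := ⟨hs.1.le, hs.2.le⟩
    apply hfix
    intro i τ hτ
    have hm := ip_mem (ha' t) (hb' t) hτ
    exact hΓ.off i _ hm.1 _ hm.2 s hs' x hx
  · intro t i s y hy
    rw [hF]
    have h1 := Q_tube hρ hΓ (N := N) (a := a t) (b := b t)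
      (fun m hm => ip_mem (ha' t) (hb' t) (div_mem hm)) (s := s) i hy N le_rfl
    have e0 : ipc N (a t) (b t) 0 = a t := by
      unfold ipc; simp
    have e1 : ipc N (a t) (b t) N = b t := by
      unfold ipc
      rw [div_self hN']; simp
    rw [e0, e1] at h1
    exact h1
  · intro t p
    rw [hF]
    exact Q_fst p N
  · intro t s h x
    rw [hF]
    apply Q_static hρ N le_rfl
    intro i m hm
    have e : ∀ m ≤ N, Γ i (ipc N (a t) (b t) m).1 (ipc N (a t) (b t) m).2 s =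
        Γ i (a t).1 (a t).2 s := fun m hm => h i _ (div_mem hm)
    rw [e (m + 1) (by omega), e m (by omega)]

/-- Existence of pushes along paths of arcs, with all additional properties. -/
theorem exists_push5 (hCh : StCh5) {ι : Type} [inst : Fintype ι] {O : Set R4} {ρ : ℝ}
    {γ : ι → ℝ → ℝ → R3} (hρ : 0 < ρ) (h : SqOk O ρ (fun i _ q s => γ i q s)) :
    ∃ F : DFam 𝓘(ℝ, R4) R4, (∀ x, F.f (0, x) = x) ∧ SuppB F ∧ (∀ t, ∀ x ∈ O, F.f (t, x) = x) ∧
      (∀ t i s y, nsq y ≤ ρ ^ 2 → F.f (t, (s, γ i 0 s + y)) = (s, γ i (step t) s + y)) ∧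
      (∀ t s x, (∀ i, ∀ q ∈ Icc (0 : ℝ) 1, (2 * ρ) ^ 2 ≤ nsq (x - γ i q s)) →
        F.f (t, (s, x)) = (s, x)) ∧ (∀ t p, (F.f (t, p)).1 = p.1) ∧
      ∀ t s, (∀ i, ∀ q ∈ Icc (0 : ℝ) 1, γ i q s = γ i 0 s) → ∀ x, F.f (t, (s, x)) = (s, x) := by
  obtain ⟨P, hP, h1⟩ := hCh ι inst O ρ _ hρ h
  obtain ⟨F, hF, hs, hf, ht, hx, hl, hst⟩ := h1 (fun _ => (0, 0)) (fun t => (0, step t))
    contDiff_const (contDiff_const.prodMk contDiff_step) (fun t => by simp)
    (fun t => ⟨by simp, step_mem t⟩)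
  have hm : ∀ t, ∀ τ ∈ Icc (0 : ℝ) 1, τ * step t ∈ Icc (0 : ℝ) 1 := by
    intro t τ hτ
    obtain ⟨h1, h2⟩ := step_mem t
    obtain ⟨h3, h4⟩ := hτ
    constructor <;> nlinarith
  refine ⟨F, fun x => ?_, hs, fun t x hx => hf t x hx, fun t i s y hy => ht t i s y hy,
    fun t s x hh => hx t s x ?_, hl, fun t s hh => hst t s ?_⟩
  · rw [hF]
    simp only [Pool.Agent.Helper27.BI.step_zero]
    exact hP _ _
  · intro i τ hτ
    simp only [sub_zero, zero_add]
    exact hh i _ (hm t τ hτ)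
  · intro i τ hτ
    simp only [sub_zero, zero_add]
    exact hh i _ (hm t τ hτ)

end Pool.Agent.Helper27.H


end

/-! ## Helper27.BI.H.Fing -/

section

/-!
# Project BI, stage 3 (H): the finger and the loop of fingers in the model
-/

set_option autoImplicit false
set_option linter.unusedSectionVars false
set_option linter.unusedVariables false

open scoped Manifold ContDiff Topology ComplexConjugate
open Set Filter Pool.Agent.Helper65.Barb Pool.Agent.Helper18.BI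
open Pool.Agent.Helper27.BI

namespace Pool.Agent.Helper27.H

theorem bfin_symm (s : ℝ) : bfin (1 - s) = bfin s := by
  unfold bfin
  rw [show 5 * (1 - s) - 1 / 2 = 9 / 2 - 5 * s by ring,
    show 9 / 2 - 5 * (1 - s) = 5 * s - 1 / 2 by ring, mul_comm (step (9 / 2 - 5 * s))]

theorem contDiff_bfin : ContDiff ℝ ∞ bfin := by
  have h1 : ContDiff ℝ ∞ (fun s : ℝ => step (5 * s - 1 / 2)) :=
    contDiff_step.comp ((contDiff_const.mul contDiff_id).sub contDiff_const)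
  have h2 : ContDiff ℝ ∞ (fun s : ℝ => step (9 / 2 - 5 * s)) :=
    contDiff_step.comp (contDiff_const.sub (contDiff_const.mul contDiff_id))
  exact contDiff_const.mul (h1.mul h2)

theorem bfin_nonneg (s : ℝ) : 0 ≤ bfin s := by
  have h1 := (step_mem (5 * s - 1 / 2)).1
  have h2 := (step_mem (9 / 2 - 5 * s)).1
  unfold bfin
  positivity

theorem bfin_le (s : ℝ) : bfin s ≤ 27 / 100 := by
  have h1 := step_mem (5 * s - 1 / 2)
  have h2 := step_mem (9 / 2 - 5 * s)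
  have h3 : step (5 * s - 1 / 2) * step (9 / 2 - 5 * s) ≤ 1 := mul_le_one₀ h1.2 h2.1 h2.2
  unfold bfin
  linarith

theorem bfin_mid {s : ℝ} (hs : s ∈ Icc (3 / 10 : ℝ) (7 / 10)) : bfin s = 27 / 100 := by
  unfold bfin
  rw [step_of_one_le (by linarith [hs.1]), step_of_one_le (by linarith [hs.2])]
  norm_num

theorem bfin_out {s : ℝ} (hs : s ≤ 1 / 10 ∨ 9 / 10 ≤ s) : bfin s = 0 := by
  unfold bfin
  rcases hs with h | h
  · rw [step_of_nonpos (by linarith)]; ring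
  · rw [step_of_nonpos (s := 9 / 2 - 5 * s) (by linarith)]; ring

theorem step_monotone : Monotone step := fun a b h => Real.smoothTransition.monotone h

theorem bfin_mono {s t : ℝ} (hst : s ≤ t) (ht : t ≤ 7 / 10) : bfin s ≤ bfin t := by
  unfold bfin
  rw [step_of_one_le (s := 9 / 2 - 5 * s) (by linarith),
    step_of_one_le (s := 9 / 2 - 5 * t) (by linarith)]
  have := step_monotone (show 5 * s - 1 / 2 ≤ 5 * t - 1 / 2 by linarith)
  linarith

/-- **BFIN.** -/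
theorem m_BFIN : StBFIN := by
  refine ⟨contDiff_bfin, fun s => ⟨bfin_nonneg s, bfin_le s⟩, fun s hs => bfin_mid hs,
    fun s hs => bfin_out hs, ?_⟩
  intro δ hδ
  have hc : IsCompact {s : ℝ | s ∈ Icc (1 / 10 : ℝ) (3 / 10) ∧ bfin s ^ 2 ≤ 1 / 25 - δ} :=
    isCompact_Icc.inter_right (isClosed_le (contDiff_bfin.continuous.pow 2) continuous_const)
  have hne : {s : ℝ | s ∈ Icc (1 / 10 : ℝ) (3 / 10) ∧ bfin s ^ 2 ≤ 1 / 25 - δ}.Nonempty := by
    refine ⟨1 / 10, ⟨le_rfl, by norm_num⟩, ?_⟩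
    rw [bfin_out (Or.inl le_rfl)]
    linarith [hδ.2]
  obtain ⟨s₀, ⟨hs₀, hb₀⟩, hmax⟩ := hc.exists_isGreatest hne
  have hmid : ∀ s ∈ Icc (3 / 10 : ℝ) (7 / 10), 1 / 25 - δ < bfin s ^ 2 := by
    intro s hs
    rw [bfin_mid hs]
    linarith [hδ.1]
  have hgt : ∀ s, s₀ < s → s ≤ 7 / 10 → 1 / 25 - δ < bfin s ^ 2 := by
    intro s h1 h2
    rcases le_or_gt s (3 / 10) with h3 | h3
    · by_contra h4
      push Not at h4
      exact absurd (hmax ⟨⟨hs₀.1.trans h1.le, h3⟩, h4⟩) (not_le.2 h1)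
    · exact hmid s ⟨h3.le, h2⟩
  have hs3 : s₀ ≠ 3 / 10 := by
    rintro rfl
    exact absurd hb₀ (not_le.2 (hmid _ ⟨le_rfl, by norm_num⟩))
  have hs3' : s₀ < 3 / 10 := lt_of_le_of_ne hs₀.2 hs3
  have heq : bfin s₀ ^ 2 = 1 / 25 - δ := by
    apply le_antisymm hb₀
    have h1 : Tendsto (fun s => bfin s ^ 2) (𝓝[>] s₀) (𝓝 (bfin s₀ ^ 2)) :=
      ((contDiff_bfin.continuous.pow 2).tendsto s₀).mono_left nhdsWithin_le_nhds
    apply ge_of_tendsto h1
    filter_upwards [Ioo_mem_nhdsGT hs3'] with s hs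
    exact (hgt s hs.1 (by linarith [hs.2])).le
  have hs1 : 1 / 10 < s₀ := by
    rcases hs₀.1.lt_or_eq with h | h
    · exact h
    · rw [← h, bfin_out (Or.inl le_rfl)] at heq
      linarith [hδ.2]
  have hlow : ∀ s ≤ s₀, bfin s ^ 2 ≤ 1 / 25 - δ := by
    intro s hs
    rw [← heq]
    have := bfin_mono hs (by linarith)
    have h0 := bfin_nonneg s
    nlinarith
  refine ⟨s₀, ⟨hs1, hs3'⟩, 1 - s₀, ⟨by linarith, by linarith⟩, heq, by rw [bfin_symm, heq], ?_, ?_⟩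
  · rintro s ⟨h1, h2⟩
    rcases le_or_gt s (7 / 10) with h3 | h3
    · exact hgt s h1 h3
    · rw [← bfin_symm]
      exact hgt _ (by linarith) (by linarith)
  · intro s hs
    rcases le_or_gt s s₀ with h | h
    · exact hlow s h
    · have h2 : 1 - s₀ ≤ s := by
        by_contra h3
        push Not at h3
        exact hs ⟨h, h3⟩
      rw [← bfin_symm]
      exact hlow _ (by linarith)

theorem nsq_smul (c : ℝ) (x : R3) : nsq (c • x) = c ^ 2 * nsq x := by
  simp only [nsq, Prod.smul_fst, Prod.smul_snd, smul_eq_mul, Complex.real_smul, Complex.mul_re,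
    Complex.mul_im, Complex.ofReal_re, Complex.ofReal_im]
  ring

theorem nsq_e1 : nsq e1 = 1 := by simp [nsq, e1]

theorem nsq_barPath (i : Unit) (q s : ℝ) : nsq (barPath i q s) = 1 := by
  unfold barPath
  rw [nsq_zarc_chi]
  ring

theorem barPath_end (i : Unit) (q : ℝ) {s : ℝ} (h : s ≤ 0 ∨ 1 ≤ s) : barPath i q s = e1 :=
  zarc_end _ _ _ h (chi_end h)

/-- the arcs of the comparison of the two loops -/
noncomputable def gam (u q s : ℝ) : R3 :=
  (1 - step u * bfin s) • barPath () q ((1 - step u) * s + step u * (10 * s - 9 / 2))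

theorem contDiff_gam : ContDiff ℝ ∞ (fun p : ℝ × ℝ × ℝ => gam p.1 p.2.1 p.2.2) := by
  have hu : ContDiff ℝ ∞ (fun p : ℝ × ℝ × ℝ => step p.1) := contDiff_step.comp contDiff_fst
  have hq : ContDiff ℝ ∞ (fun p : ℝ × ℝ × ℝ => p.2.1) := contDiff_fst.comp contDiff_snd
  have hs : ContDiff ℝ ∞ (fun p : ℝ × ℝ × ℝ => p.2.2) := contDiff_snd.comp contDiff_snd
  have hb : ContDiff ℝ ∞ (fun p : ℝ × ℝ × ℝ => bfin p.2.2) := contDiff_bfin.comp hs
  have hτ : ContDiff ℝ ∞ (fun p : ℝ × ℝ × ℝ =>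
      (1 - step p.1) * p.2.2 + step p.1 * (10 * p.2.2 - 9 / 2)) :=
    ((contDiff_const.sub hu).mul hs).add (hu.mul ((contDiff_const.mul hs).sub contDiff_const))
  apply ContDiff.smul (contDiff_const.sub (hu.mul hb))
  exact contDiff_zarc (Real.contDiff_sin.comp (contDiff_const.mul hq)) (contDiff_chi.comp hτ) hq hτ

theorem gam_end {u q s : ℝ} (hs : s ≤ 0 ∨ 1 ≤ s) : gam u q s = e1 := by
  unfold gam
  obtain ⟨h1, h2⟩ := step_mem u
  rw [bfin_out (by rcases hs with h | h; exacts [Or.inl (by linarith), Or.inr (by linarith)]),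
    barPath_end]
  · simp
  · rcases hs with h | h
    · left; nlinarith
    · right; nlinarith

theorem gam_fac {u s : ℝ} : 1 - step u * bfin s ∈ Icc (73 / 100 : ℝ) 1 := by
  obtain ⟨h1, h2⟩ := step_mem u
  have h3 := bfin_nonneg s
  have h4 := bfin_le s
  constructor <;> nlinarith

theorem nsq_gam (u q s : ℝ) : nsq (gam u q s) = (1 - step u * bfin s) ^ 2 := by
  unfold gam
  rw [nsq_smul, nsq_barPath, mul_one]

theorem nsq_gam_ge (u q s : ℝ) : (73 / 100) ^ 2 ≤ nsq (gam u q s) := by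
  rw [nsq_gam]
  have := (gam_fac (u := u) (s := s)).1
  nlinarith

theorem nsq_gam_le (u q s : ℝ) : nsq (gam u q s) ≤ 1 ^ 2 := by
  rw [nsq_gam]
  obtain ⟨h1, h2⟩ := gam_fac (u := u) (s := s)
  nlinarith

theorem rsq0_eq (p : R4) : rsq 0 p = nsq p.2 := by
  unfold rsq
  rw [sub_zero]

theorem rsq1_eq (p : R4) : rsq 1 p = nsq (p.2 - e1) := by
  unfold rsq
  congr 1
  refine Prod.ext rfl ?_
  show p.2.2 = p.2.2 - 0
  rw [sub_zero]

/-- admissibility of systems of arcs at distance at least `73/100` from the origin -/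
theorem sqOk_of {Γ : Unit → ℝ → ℝ → ℝ → R3}
    (h1 : ContDiff ℝ ∞ (fun p : ℝ × ℝ × ℝ => Γ () p.1 p.2.1 p.2.2))
    (h2 : ∀ u q s : ℝ, (s ≤ 0 ∨ 1 ≤ s) → Γ () u q s = e1)
    (h3 : ∀ u q s, (73 / 100) ^ 2 ≤ nsq (Γ () u q s)) (h4 : ∀ u q s, nsq (Γ () u q s) ≤ 1 ^ 2) :
    SqOk {p | rsq 0 p ≤ 1 / 25} (1 / 100) Γ := by
  refine ⟨fun i => h1, fun i => ⟨e1, h2⟩, ?_, ?_, ?_⟩
  · intro i u hu q hq s hs x hx
    have e := nsq_add_le (x := x - Γ i u q s) (y := Γ i u q s) (r := 2 * (1 / 100)) (t := 1)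
      (by norm_num) (by norm_num) hx (h4 u q s)
    rw [sub_add_cancel] at e
    exact lt_of_le_of_lt e (by norm_num)
  · intro i j hij
    exact absurd (Subsingleton.elim i j) hij
  · intro i u hu q hq s hs x hx
    have hx' : nsq x ≤ (1 / 5) ^ 2 := by
      have : rsq 0 (s, x) ≤ 1 / 25 := hx
      rw [rsq0_eq] at this
      simpa using this.trans (by norm_num)
    exact nsq_sub_ge (r := 1 / 5) (R := 73 / 100) (d := 2 * (1 / 100)) (by norm_num) (by norm_num)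
      (by norm_num) hx' (h3 u q s)

/-- the path of the finger -/
noncomputable def fpath : Unit → ℝ → ℝ → R3 := fun _ u s => (1 - step u * bfin s) • e1

theorem gam_zero (u s : ℝ) : gam u 0 s = (1 - step u * bfin s) • e1 := by
  unfold gam
  rw [barPath_zero]

theorem gam_one (u s : ℝ) : gam u 1 s = (1 - step u * bfin s) • e1 := by
  unfold gam
  rw [barPath_one]

theorem gam_u0 (q s : ℝ) : gam 0 q s = barPath () q s := by
  unfold gam
  rw [BI.step_zero]
  simp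

theorem gam_u1 (q s : ℝ) : gam 1 q s = zq q s := by
  unfold gam zq
  rw [BI.step_one]
  simp

theorem zq_zero (s : ℝ) : zq 0 s = z0 s := by
  unfold zq z0
  rw [barPath_zero]

theorem zq_one (s : ℝ) : zq 1 s = z0 s := by
  unfold zq z0
  rw [barPath_one]

theorem zq_out (q : ℝ) {s : ℝ} (hs : s ≤ 9 / 20 ∨ 11 / 20 ≤ s) : zq q s = z0 s := by
  unfold zq z0
  rw [barPath_end]
  rcases hs with h | h
  · left; linarith
  · right; linarith

/-- **FING.** -/
theorem m_FING (hCh : StCh) (hCh5 : StCh5) (hspin : StSpin) : StFING := by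
  -- the finger push
  have okf : SqOk {p | rsq 0 p ≤ 1 / 25} (1 / 100) (fun i _ q s => fpath i q s) := by
    apply sqOk_of
    · have h := contDiff_gam.comp (f := fun p : ℝ × ℝ × ℝ => (p.2.1, ((0 : ℝ), p.2.2)))
        ((contDiff_fst.comp contDiff_snd).prodMk
          (contDiff_const.prodMk (contDiff_snd.comp contDiff_snd)))
      have e : (fun p : ℝ × ℝ × ℝ => fpath () p.2.1 p.2.2) =
          (fun p : ℝ × ℝ × ℝ => gam p.1 p.2.1 p.2.2) ∘ fun p => (p.2.1, 0, p.2.2) := by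
        funext p
        show fpath () p.2.1 p.2.2 = gam p.2.1 0 p.2.2
        rw [gam_zero]; rfl
      rw [e]
      exact h
    · intro u q s hs
      show fpath () q s = e1
      rw [← gam_end (u := q) (q := 0) hs, gam_zero]; rfl
    · intro u q s
      show _ ≤ nsq (fpath () q s)
      have := nsq_gam_ge q 0 s
      rwa [gam_zero] at this
    · intro u q s
      show nsq (fpath () q s) ≤ _
      have := nsq_gam_le q 0 s
      rwa [gam_zero] at this
  have okl : SqOk {p | rsq 0 p ≤ 1 / 25} (1 / 100) (fun (_ : Unit) _ q s => zq q s) := by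
    apply sqOk_of
    · have h := contDiff_gam.comp (f := fun p : ℝ × ℝ × ℝ => ((1 : ℝ), (p.2.1, p.2.2)))
        (contDiff_const.prodMk contDiff_snd)
      have e : (fun p : ℝ × ℝ × ℝ => zq p.2.1 p.2.2) =
          (fun p : ℝ × ℝ × ℝ => gam p.1 p.2.1 p.2.2) ∘ fun p => (1, p.2.1, p.2.2) := by
        funext p
        show zq p.2.1 p.2.2 = gam 1 p.2.1 p.2.2
        rw [gam_u1]
      rw [e]
      exact h
    · intro u q s hs
      rw [← gam_end (u := 1) (q := q) hs, gam_u1]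
    · intro u q s
      have := nsq_gam_ge 1 q s
      rwa [gam_u1] at this
    · intro u q s
      have := nsq_gam_le 1 q s
      rwa [gam_u1] at this
  have okg : SqOk {p | rsq 0 p ≤ 1 / 25} (1 / 100) (fun (_ : Unit) u q s => gam u q s) :=
    sqOk_of contDiff_gam (fun u q s hs => gam_end hs) (fun u q s => nsq_gam_ge u q s)
      (fun u q s => nsq_gam_le u q s)
  have h01 : (1 : ℝ) ∈ Icc (0 : ℝ) 1 := by simp
  obtain ⟨Ff, f0, fs, fO, ft, ffar, fl, fst⟩ := exists_push5 hCh5 (by norm_num) okf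
  obtain ⟨Fl, l0, ls, lO, lt, lfar, ll, lst⟩ := exists_push5 hCh5 (by norm_num) okl
  have e0' : ∀ s, fpath () 0 s = e1 := by
    intro s; show (1 - step 0 * bfin s) • e1 = e1
    rw [BI.step_zero]; simp
  have e1' : ∀ s, fpath () 1 s = z0 s := by
    intro s; show (1 - step 1 * bfin s) • e1 = z0 s
    rw [BI.step_one]; simp [z0]
  have pf : IsPush {p | rsq 0 p ≤ 1 / 25} (1 / 100) fpath (fun x => Ff.f (1, x)) :=
    ⟨Ff, f0, fun _ => rfl, fs, fun t _ x hx => fO t x hx, fun t _ i s y hy => ft t i s y hy⟩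
  have pl : IsPush {p | rsq 0 p ≤ 1 / 25} (1 / 100) (fun (_ : Unit) q s => zq q s)
      (fun x => Fl.f (1, x)) :=
    ⟨Fl, l0, fun _ => rfl, ls, fun t _ x hx => lO t x hx, fun t _ i s y hy => lt t i s y hy⟩
  refine ⟨fun x => Ff.f (1, x), fun x => Ff.g (1, x), Fl, ?_, ?_, ?_⟩
  · refine ⟨?_, ?_, fun x => Ff.gf 1 x, fun x => Ff.fg 1 x, ?_, fun p => fl 1 p, ?_, ?_⟩
    · exact contMDiff_iff_contDiff.1 (Ff.smooth_f.comp (contMDiff_const.prodMk contMDiff_id))
    · exact contMDiff_iff_contDiff.1 (Ff.smooth_g.comp (contMDiff_const.prodMk contMDiff_id))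
    · intro s y hy
      have := ft 1 () s y hy
      rw [e0', BI.step_one, e1'] at this
      exact this
    · intro s x hs
      apply fst 1 s
      intro i q hq
      show (1 - step q * bfin s) • e1 = (1 - step 0 * bfin s) • e1
      rw [bfin_out hs]
      simp
    · rintro ⟨s, x⟩ hp
      apply ffar 1 s x
      intro i q hq
      rw [rsq1_eq] at hp
      have hp' : (3 / 10) ^ 2 ≤ nsq (x - e1) := hp
      have e2 : x - fpath i q s = (step q * bfin s) • e1 - (e1 - x) := by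
        show x - (1 - step q * bfin s) • e1 = _
        rw [sub_smul, one_smul]; abel
      rw [e2]
      have h3 : nsq ((step q * bfin s) • e1) ≤ (27 / 100) ^ 2 := by
        rw [nsq_smul, nsq_e1, mul_one]
        obtain ⟨h1, h2⟩ := step_mem q
        have h3 := bfin_nonneg s
        have h4 := bfin_le s
        have h5 : step q * bfin s ≤ 27 / 100 := by nlinarith
        have h6 : 0 ≤ step q * bfin s := mul_nonneg h1 h3
        nlinarith
      refine nsq_sub_ge (r := 27 / 100) (R := 3 / 10) (by norm_num) (by norm_num) (by norm_num) h3 ?_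
      rw [nsq_sub_comm]
      exact hp'
  · refine ⟨l0, ?_, ?_⟩
    · intro t s y hy
      have := lt t () s y hy
      rw [zq_zero] at this
      exact this
    · rintro t ⟨s, x⟩ hp
      by_cases hs : s ≤ 9 / 20 ∨ 11 / 20 ≤ s
      · apply lst t s
        intro i q hq
        show zq q s = zq 0 s
        rw [zq_out q hs, zq_out 0 hs]
      push Not at hs
      have hb : bfin s = 27 / 100 := bfin_mid ⟨by linarith [hs.1], by linarith [hs.2]⟩
      have hn : ∀ q, nsq (zq q s) = (73 / 100) ^ 2 := by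
        intro q
        unfold zq
        rw [nsq_smul, nsq_barPath, hb]
        norm_num
      apply lfar t s x
      intro i q hq
      have hx : nsq x < (71 / 100) ^ 2 ∨ (3 / 4) ^ 2 < nsq x := by
        by_contra h
        push Not at h
        apply hp
        refine ⟨hs.1.le, hs.2.le, ?_, ?_⟩
        · rw [rsq0_eq]; exact h.1
        · rw [rsq0_eq]; exact h.2
      rcases hx with hx | hx
      · exact nsq_sub_ge (r := 71 / 100) (R := 73 / 100) (by norm_num) (by norm_num) (by norm_num)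
          hx.le (hn q).ge
      · rw [nsq_sub_comm]
        exact nsq_sub_ge (r := 73 / 100) (R := 3 / 4) (by norm_num) (by norm_num) (by norm_num)
          (hn q).le hx.le
  · have pb : IsPush {p | rsq 0 p ≤ 1 / 25} (1 / 100) barPath barMap :=
      (isPush_barMap hspin).mono (fun p hp => le_trans (show rsq 0 p ≤ 1 / 25 from hp) (by norm_num))
        (by norm_num) (by norm_num)
    have sqr := square hCh (by norm_num) okg (Θ1 := barMap) (Θ2 := fun x => Ff.f (1, x))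
      (Θ3 := fun x => Ff.f (1, x)) (Θ4 := fun x => Fl.f (1, x))
      (pb.congr (by intro i q hq s; exact (gam_u0 q s).symm))
      (pf.congr (by intro i q hq s; exact (gam_one q s).symm))
      (pf.congr (by intro i q hq s; exact (gam_zero q s).symm))
      (pl.congr (by intro i q hq s; exact (gam_u1 q s).symm))
    have tf : TIso {p | rsq 0 p ≤ 1 / 25} (1 / 100) (fun (_ : Unit) _ => e1) (fun _ => z0)
        (fun x => Ff.f (1, x)) (fun x => Ff.f (1, x)) := by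
      have := pf.tIso
      have e3 : (fun i : Unit => fpath i 0) = fun _ _ => e1 := by
        funext i s; exact e0' s
      have e4 : (fun i : Unit => fpath i 1) = fun _ => z0 := by
        funext i s; exact e1' s
      rwa [e3, e4] at this
    have sqr' : TIso {p | rsq 0 p ≤ 1 / 25} (1 / 100) (fun (_ : Unit) _ => e1) (fun _ => z0)
        (fun x => Ff.f (1, barMap x)) (fun x => Fl.f (1, Ff.f (1, x))) := by
      have e3 : (fun _ : Unit => gam 0 0) = fun _ _ => e1 := by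
        funext i s; rw [gam_u0, barPath_zero]
      have e4 : (fun _ : Unit => gam 1 1) = fun _ => z0 := by
        funext i s; rw [gam_u1, zq_one]
      rwa [e3, e4] at sqr
    have ti : TIso {p | rsq 0 p ≤ 1 / 25} (1 / 100) (fun (_ : Unit) => z0) (fun _ _ => e1)
        (fun x => Ff.g (1, x)) (fun x => Ff.g (1, x)) :=
      tf.inv (fun x => Ff.fg 1 x) (fun x => Ff.fg 1 x)
    have := ti.comp sqr'
    have e5 : (fun x => Ff.g (1, Ff.f (1, barMap x))) = barMap := by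
      funext x; exact Ff.gf 1 _
    rwa [e5] at this

end Pool.Agent.Helper27.H


end
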