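import Pool.Agent.Helper65.Barb.Defs
import Pool.Agent.Helper70.BI.C.P04

/-!
# Project BI (MP_8e98f2_gt): collected modules, part 17

The contents of the modules
* Helper18.BI.M_R2

in one file, so that the whole proof builds in a short time.
-/

namespace Pool.Agent.Helper65.Barb
end Pool.Agent.Helper65.Barb


/-! ## Helper18.BI.M_R2 -/

section

/-!
# Project BI, module R2: the radial maps
-/

set_option autoImplicit false

open scoped Manifold ContDiff Topology ComplexConjugate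
open Set Pool.Agent.Helper65.Barb

namespace Pool.Agent.Helper18.BI

namespace R2

theorem rsq_eq (c : ℝ) (p : R4) : rsq c p = (p.2.1 - c) ^ 2 + p.2.2.re ^ 2 + p.2.2.im ^ 2 := rfl

theorem rsq_contDiff (c : ℝ) : ContDiff ℝ ∞ (rsq c) := by
  have h1 : ContDiff ℝ ∞ (fun p : R4 => p.2.1 - c) :=
    (contDiff_fst.comp contDiff_snd).sub contDiff_const
  have h2 : ContDiff ℝ ∞ (fun p : R4 => p.2.2.re) :=
    Complex.reCLM.contDiff.comp (contDiff_snd.comp contDiff_snd)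
  have h3 : ContDiff ℝ ∞ (fun p : R4 => p.2.2.im) :=
    Complex.imCLM.contDiff.comp (contDiff_snd.comp contDiff_snd)
  exact ((h1.pow 2).add (h2.pow 2)).add (h3.pow 2)

theorem qq_contDiff (r0 : StR0) (δ : ℝ) : ContDiff ℝ ∞ (qq δ) := by
  have h1 : ContDiff ℝ ∞ (fun q : ℝ => (1 / 25 - q) / δ) :=
    (contDiff_const.sub contDiff_id).div_const δ
  exact contDiff_id.add (contDiff_const.mul (r0.1.comp h1))

theorem qq_deriv (r0 : StR0) (δ : ℝ) (hδ : 0 < δ) (q : ℝ) :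
    HasDerivAt (qq δ) (1 - (1 - δ) * step ((1 / 25 - q) / δ)) q := by
  have h1 : HasDerivAt (fun q : ℝ => (1 / 25 - q) / δ) (-1 / δ) q := by
    have := ((hasDerivAt_id q).const_sub (1 / 25)).div_const δ
    simpa using this
  have h2 := ((r0.2.1 ((1 / 25 - q) / δ)).comp q h1).const_mul ((1 - δ) * δ)
  have h3 := (hasDerivAt_id q).add h2
  refine h3.congr_deriv ?_
  field_simp
  ring

theorem step_mem (s : ℝ) : 0 ≤ step s ∧ step s ≤ 1 :=
  ⟨Real.smoothTransition.nonneg s, Real.smoothTransition.le_one s⟩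

theorem qq_deriv_pos (δ : ℝ) (h0 : 0 < δ) (h1 : δ < 1) (q : ℝ) :
    0 < 1 - (1 - δ) * step ((1 / 25 - q) / δ) := by
  obtain ⟨ha, hb⟩ := step_mem ((1 / 25 - q) / δ)
  nlinarith

theorem qq_ge (r0 : StR0) (δ : ℝ) (h0 : 0 < δ) (h1 : δ < 1) (q : ℝ) : q ≤ qq δ q := by
  have h2 := r0.2.2.2.1 ((1 / 25 - q) / δ)
  have h3 : 0 ≤ (1 - δ) * δ * ramp ((1 / 25 - q) / δ) :=
    mul_nonneg (mul_nonneg (by linarith) h0.le) h2
  simp only [qq]
  linarith

theorem qq_eq (r0 : StR0) (δ : ℝ) (h0 : 0 < δ) (q : ℝ) (hq : 1 / 25 ≤ q) : qq δ q = q := by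
  have h2 := r0.2.2.1 ((1 / 25 - q) / δ) (div_nonpos_of_nonpos_of_nonneg (by linarith) h0.le)
  simp only [qq]
  rw [h2]
  ring

theorem qq_strictMono (r0 : StR0) (δ : ℝ) (h0 : 0 < δ) (h1 : δ < 1) : StrictMono (qq δ) := by
  apply strictMono_of_deriv_pos
  intro q
  rw [(qq_deriv r0 δ h0 q).deriv]
  exact qq_deriv_pos δ h0 h1 q

/-- the factor -/
noncomputable def mm (δ c : ℝ) (p : R4) : ℝ := √(qq δ (rsq c p) / rsq c p)

theorem radc_eq (δ c : ℝ) (p : R4) :
    radc δ c p = (p.1, c + mm δ c p * (p.2.1 - c), ((mm δ c p : ℝ) : ℂ) * p.2.2) := rfl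

theorem arg_pos (r0 : StR0) (δ c : ℝ) (h0 : 0 < δ) (h1 : δ < 1) (p : R4) (hp : 0 < rsq c p) :
    0 < qq δ (rsq c p) / rsq c p :=
  div_pos (lt_of_lt_of_le hp (qq_ge r0 δ h0 h1 _)) hp

theorem mm_pos (r0 : StR0) (δ c : ℝ) (h0 : 0 < δ) (h1 : δ < 1) (p : R4) (hp : 0 < rsq c p) :
    0 < mm δ c p := Real.sqrt_pos.2 (arg_pos r0 δ c h0 h1 p hp)

theorem mm_sq (r0 : StR0) (δ c : ℝ) (h0 : 0 < δ) (h1 : δ < 1) (p : R4) (hp : 0 < rsq c p) :
    mm δ c p ^ 2 * rsq c p = qq δ (rsq c p) := by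
  rw [mm, Real.sq_sqrt (arg_pos r0 δ c h0 h1 p hp).le, div_mul_cancel₀ _ hp.ne']

theorem rsq_radc (r0 : StR0) (δ c : ℝ) (h0 : 0 < δ) (h1 : δ < 1) (p : R4) (hp : 0 < rsq c p) :
    rsq c (radc δ c p) = qq δ (rsq c p) := by
  rw [← mm_sq r0 δ c h0 h1 p hp, radc_eq, rsq_eq, rsq_eq]
  simp only [Complex.mul_re, Complex.mul_im, Complex.ofReal_re, Complex.ofReal_im]
  ring

theorem isOpen_pos (c : ℝ) : IsOpen {p : R4 | 0 < rsq c p} :=
  isOpen_lt continuous_const (rsq_contDiff c).continuous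

theorem mm_contDiffOn (r0 : StR0) (δ c : ℝ) (h0 : 0 < δ) (h1 : δ < 1) :
    ContDiffOn ℝ ∞ (mm δ c) {p : R4 | 0 < rsq c p} := by
  have h2 : ContDiffOn ℝ ∞ (fun p : R4 => qq δ (rsq c p) / rsq c p) {p : R4 | 0 < rsq c p} :=
    ((qq_contDiff r0 δ).comp (rsq_contDiff c)).contDiffOn.div (rsq_contDiff c).contDiffOn
      (fun p hp => (ne_of_gt hp))
  exact h2.sqrt (fun p hp => (arg_pos r0 δ c h0 h1 p hp).ne')

theorem radc_contDiffOn (r0 : StR0) (δ c : ℝ) (h0 : 0 < δ) (h1 : δ < 1) :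
    ContDiffOn ℝ ∞ (radc δ c) {p : R4 | 0 < rsq c p} := by
  have hm := mm_contDiffOn r0 δ c h0 h1
  have h2 : ContDiff ℝ ∞ (fun p : R4 => p.2.1 - c) :=
    (contDiff_fst.comp contDiff_snd).sub contDiff_const
  have h3 : ContDiffOn ℝ ∞ (fun p : R4 => ((mm δ c p : ℝ) : ℂ)) {p : R4 | 0 < rsq c p} :=
    Complex.ofRealCLM.contDiff.comp_contDiffOn hm
  exact contDiff_fst.contDiffOn.prodMk ((contDiffOn_const.add (hm.mul h2.contDiffOn)).prodMk
    (h3.mul (contDiff_snd.comp contDiff_snd).contDiffOn))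

theorem line_deriv (x y : ℝ) : HasDerivAt (fun t : ℝ => x + t * y) y 0 := by
  have := ((hasDerivAt_id (0 : ℝ)).mul_const y).const_add x
  simpa using this

theorem radc_fderiv (r0 : StR0) (δ c : ℝ) (h0 : 0 < δ) (h1 : δ < 1) (p v : R4)
    (hp : 0 < rsq c p) (hv : fderiv ℝ (radc δ c) p v = 0) : v = 0 := by
  have hnhd : {p : R4 | 0 < rsq c p} ∈ 𝓝 p := (isOpen_pos c).mem_nhds hp
  have hd : DifferentiableAt ℝ (radc δ c) p :=
    ((radc_contDiffOn r0 δ c h0 h1).contDiffAt hnhd).differentiableAt (by simp)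
  have hdm : DifferentiableAt ℝ (mm δ c) p :=
    ((mm_contDiffOn r0 δ c h0 h1).contDiffAt hnhd).differentiableAt (by simp)
  obtain ⟨s, a, w⟩ := p
  obtain ⟨σ, b, z⟩ := v
  have hline : HasDerivAt (fun t : ℝ => ((s, a, w) : R4) + t • ((σ, b, z) : R4)) (σ, b, z) 0 := by
    have := ((hasDerivAt_id (0 : ℝ)).smul_const ((σ, b, z) : R4)).const_add ((s, a, w) : R4)
    simpa using this
  have hline0 : ((s, a, w) : R4) + (0 : ℝ) • ((σ, b, z) : R4) = (s, a, w) := by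
    rw [zero_smul, add_zero]
  have hc : HasDerivAt (fun t : ℝ => radc δ c ((s, a, w) + t • (σ, b, z))) 0 0 := by
    have h2 : HasFDerivAt (radc δ c) (fderiv ℝ (radc δ c) (s, a, w))
        (((s, a, w) : R4) + (0 : ℝ) • ((σ, b, z) : R4)) := by
      rw [hline0]
      exact hd.hasFDerivAt
    have h3 := h2.comp_hasDerivAt (0 : ℝ) hline
    rw [hv] at h3
    exact h3
  obtain ⟨μ, hμ⟩ : ∃ μ : ℝ, HasDerivAt (fun t : ℝ => mm δ c ((s, a, w) + t • (σ, b, z))) μ 0 := by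
    have h2 : HasFDerivAt (mm δ c) (fderiv ℝ (mm δ c) (s, a, w))
        (((s, a, w) : R4) + (0 : ℝ) • ((σ, b, z) : R4)) := by
      rw [hline0]
      exact hdm.hasFDerivAt
    have h3 := h2.comp_hasDerivAt (0 : ℝ) hline
    exact ⟨_, h3⟩
  have e1 : ∀ t : ℝ, radc δ c ((s, a, w) + t • (σ, b, z)) =
      (s + t * σ, c + mm δ c ((s, a, w) + t • (σ, b, z)) * (a - c + t * b),
        ((mm δ c ((s, a, w) + t • (σ, b, z)) : ℝ) : ℂ) * (w + t * z)) := by
    intro t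
    rw [radc_eq]
    refine Prod.ext ?_ (Prod.ext ?_ ?_)
    · simp
    · simp only [Prod.fst_add, Prod.snd_add, Prod.smul_fst, Prod.smul_snd, smul_eq_mul]
      ring
    · simp
  simp only [e1] at hc
  have hσ : σ = 0 := by
    have h2 := (ContinuousLinearMap.fst ℝ ℝ (ℝ × ℂ)).hasFDerivAt.comp_hasDerivAt (0 : ℝ) hc
    have h5 := (line_deriv s σ).unique h2
    simpa using h5
  set m : ℝ := mm δ c (s, a, w) with hm
  have hm0 : 0 < m := mm_pos r0 δ c h0 h1 _ hp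
  have hma : mm δ c (((s, a, w) : R4) + (0 : ℝ) • ((σ, b, z) : R4)) = m := by
    rw [hline0]
  have hb : μ * (a - c) + m * b = 0 := by
    have h2 := ((ContinuousLinearMap.fst ℝ ℝ ℂ).comp
      (ContinuousLinearMap.snd ℝ ℝ (ℝ × ℂ))).hasFDerivAt.comp_hasDerivAt (0 : ℝ) hc
    have h3 := (hμ.mul (line_deriv (a - c) b)).const_add c
    have h4 := h3.unique h2
    rw [hma] at h4
    simpa using h4
  have hre : μ * w.re + m * z.re = 0 := by
    have h2 := (Complex.reCLM.comp ((ContinuousLinearMap.snd ℝ ℝ ℂ).comp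
      (ContinuousLinearMap.snd ℝ ℝ (ℝ × ℂ)))).hasFDerivAt.comp_hasDerivAt (0 : ℝ) hc
    have h3 := hμ.mul (line_deriv w.re z.re)
    have e2 : ((Complex.reCLM.comp ((ContinuousLinearMap.snd ℝ ℝ ℂ).comp
        (ContinuousLinearMap.snd ℝ ℝ (ℝ × ℂ)))) ∘ fun t : ℝ =>
        ((s + t * σ, c + mm δ c ((s, a, w) + t • (σ, b, z)) * (a - c + t * b),
        ((mm δ c ((s, a, w) + t • (σ, b, z)) : ℝ) : ℂ) * (w + t * z)) : R4)) =
        ((fun t : ℝ => mm δ c ((s, a, w) + t • (σ, b, z))) * fun t : ℝ => w.re + t * z.re) := by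
      ext t
      simp
    rw [e2] at h2
    have h4 := h3.unique h2
    rw [hma] at h4
    simpa using h4
  have him : μ * w.im + m * z.im = 0 := by
    have h2 := (Complex.imCLM.comp ((ContinuousLinearMap.snd ℝ ℝ ℂ).comp
      (ContinuousLinearMap.snd ℝ ℝ (ℝ × ℂ)))).hasFDerivAt.comp_hasDerivAt (0 : ℝ) hc
    have h3 := hμ.mul (line_deriv w.im z.im)
    have e2 : ((Complex.imCLM.comp ((ContinuousLinearMap.snd ℝ ℝ ℂ).comp
        (ContinuousLinearMap.snd ℝ ℝ (ℝ × ℂ)))) ∘ fun t : ℝ =>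
        ((s + t * σ, c + mm δ c ((s, a, w) + t • (σ, b, z)) * (a - c + t * b),
        ((mm δ c ((s, a, w) + t • (σ, b, z)) : ℝ) : ℂ) * (w + t * z)) : R4)) =
        ((fun t : ℝ => mm δ c ((s, a, w) + t • (σ, b, z))) * fun t : ℝ => w.im + t * z.im) := by
      ext t
      simp
    rw [e2] at h2
    have h4 := h3.unique h2
    rw [hma] at h4
    simpa using h4
  -- the derivative of the squared radius
  set D : ℝ := 2 * ((a - c) * b + w.re * z.re + w.im * z.im) with hD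
  have hR : HasDerivAt (fun t : ℝ => rsq c ((s, a, w) + t • (σ, b, z))) D 0 := by
    have e2 : (fun t : ℝ => rsq c ((s, a, w) + t • (σ, b, z))) = fun t : ℝ =>
        (a - c + t * b) ^ 2 + (w.re + t * z.re) ^ 2 + (w.im + t * z.im) ^ 2 := by
      ext t
      rw [rsq_eq]
      simp
      ring
    rw [e2]
    have h3 := (((line_deriv (a - c) b).pow 2).add ((line_deriv w.re z.re).pow 2)).add
      ((line_deriv w.im z.im).pow 2)
    refine h3.congr_deriv ?_
    simp only [zero_mul, add_zero, hD]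
    ring
  have hq : HasDerivAt (fun t : ℝ => qq δ (rsq c ((s, a, w) + t • (σ, b, z))))
      ((1 - (1 - δ) * step ((1 / 25 - rsq c (s, a, w)) / δ)) * D) 0 := by
    have h2 : HasDerivAt (qq δ) (1 - (1 - δ) * step ((1 / 25 - rsq c (s, a, w)) / δ))
        (rsq c (((s, a, w) : R4) + (0 : ℝ) • ((σ, b, z) : R4))) := by
      rw [hline0]
      exact qq_deriv r0 δ h0 _
    exact h2.comp (0 : ℝ) hR
  have hq2 : HasDerivAt (fun t : ℝ => qq δ (rsq c ((s, a, w) + t • (σ, b, z)))) 0 0 := by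
    have h2 : HasFDerivAt (rsq c) (fderiv ℝ (rsq c) (radc δ c (s, a, w)))
        (radc δ c (((s, a, w) : R4) + (0 : ℝ) • ((σ, b, z) : R4))) := by
      rw [hline0]
      exact ((rsq_contDiff c).differentiable (by simp) _).hasFDerivAt
    have hc' : HasDerivAt (fun t : ℝ => radc δ c ((s, a, w) + t • (σ, b, z))) 0 0 := by
      simp only [e1]
      exact hc
    have h3 := h2.comp_hasDerivAt (0 : ℝ) hc'
    rw [map_zero] at h3
    refine h3.congr_of_eventuallyEq ?_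
    have h4 : ∀ᶠ t : ℝ in 𝓝 0, ((s, a, w) : R4) + t • ((σ, b, z) : R4) ∈
        {p : R4 | 0 < rsq c p} := by
      have h5 : ContinuousAt (fun t : ℝ => ((s, a, w) : R4) + t • ((σ, b, z) : R4)) 0 :=
        hline.continuousAt
      apply h5.eventually_mem
      rw [hline0]
      exact hnhd
    filter_upwards [h4] with t ht
    exact (rsq_radc r0 δ c h0 h1 _ ht).symm
  have hD0 : D = 0 := by
    have h2 := hq.unique hq2
    rcases mul_eq_zero.1 h2 with h3 | h3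
    · exact absurd h3 (qq_deriv_pos δ h0 h1 _).ne'
    · exact h3
  have hR0 : rsq c (s, a, w) = (a - c) ^ 2 + w.re ^ 2 + w.im ^ 2 := rfl
  have hμ0 : μ = 0 := by
    have h2 : μ * rsq c (s, a, w) = 0 := by
      have h3 : (μ * (a - c) + m * b) * (a - c) + (μ * w.re + m * z.re) * w.re +
          (μ * w.im + m * z.im) * w.im = μ * rsq c (s, a, w) + m * D / 2 := by
        rw [hR0, hD]
        ring
      rw [hb, hre, him, hD0] at h3
      linarith
    rcases mul_eq_zero.1 h2 with h3 | h3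
    · exact h3
    · exact absurd h3 hp.ne'
  have key : ∀ x y : ℝ, μ * x + m * y = 0 → y = 0 := by
    intro x y h
    rw [hμ0, zero_mul, zero_add] at h
    rcases mul_eq_zero.1 h with h3 | h3
    · exact absurd h3 hm0.ne'
    · exact h3
  have hb0 := key _ _ hb
  have hz : z = 0 := Complex.ext (key _ _ hre) (key _ _ him)
  rw [hσ, hb0, hz]
  rfl

theorem radc_inj (r0 : StR0) (δ c : ℝ) (h0 : 0 < δ) (h1 : δ < 1) :
    InjOn (radc δ c) {p : R4 | 0 < rsq c p} := by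
  intro p hp p' hp' h
  have hp : 0 < rsq c p := hp
  have hp' : 0 < rsq c p' := hp'
  have h2 : rsq c p = rsq c p' := by
    apply (qq_strictMono r0 δ h0 h1).injective
    rw [← rsq_radc r0 δ c h0 h1 p hp, ← rsq_radc r0 δ c h0 h1 p' hp', h]
  have h3 : mm δ c p = mm δ c p' := by
    rw [mm, mm, h2]
  have hm := mm_pos r0 δ c h0 h1 p' hp'
  rw [radc_eq, radc_eq, h3] at h
  obtain ⟨s, a, w⟩ := p
  obtain ⟨s', a', w'⟩ := p'
  simp only [Prod.mk.injEq] at h
  obtain ⟨h4, h5, h6⟩ := h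
  have h7 : mm δ c (s', a', w') * (a - c) = mm δ c (s', a', w') * (a' - c) := by linarith
  have h8 := mul_left_cancel₀ hm.ne' h7
  have h9 : ((mm δ c (s', a', w') : ℝ) : ℂ) ≠ 0 := by exact_mod_cast hm.ne'
  have h10 := mul_left_cancel₀ h9 h6
  have h11 : a = a' := by linarith
  rw [h4, h10, h11]

end R2

theorem m_R2 (a0 : StA0) (r0 : StR0) : StR2 := by
  intro δ hδ c
  have h0 : 0 < δ := hδ.1
  have h1 : δ < 1 := by
    have := hδ.2
    linarith
  refine ⟨⟨?_, R2.radc_inj r0 δ c h0 h1⟩, ?_, ?_, ?_⟩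
  · intro p hp
    rw [a0 R4 (radc δ c) p]
    exact ⟨⟨_, R2.isOpen_pos c, hp, R2.radc_contDiffOn r0 δ c h0 h1⟩,
      fun v hv => R2.radc_fderiv r0 δ c h0 h1 p v hp hv⟩
  · intro p hp
    have hpos : 0 < rsq c p := by linarith
    have h2 : R2.mm δ c p = 1 := by
      rw [R2.mm, R2.qq_eq r0 δ h0 _ hp, div_self hpos.ne', Real.sqrt_one]
    rw [R2.radc_eq, h2]
    obtain ⟨s, a, w⟩ := p
    simp
  · intro p hp
    rw [R2.rsq_radc r0 δ c h0 h1 p hp]
    exact ⟨rfl, R2.qq_ge r0 δ h0 h1 _⟩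
  · intro p hp hp2
    have hpos : 0 < rsq c p := lt_of_lt_of_le (by norm_num) hp
    rw [R2.rsq_radc r0 δ c h0 h1 p hpos]
    set q := rsq c p with hq
    constructor
    · have h2 := r0.2.2.2.2.1 ((1 / 25 - q) / δ)
      have h3 : (1 - δ) * δ * ((1 / 25 - q) / δ - 1) ≤ (1 - δ) * δ * ramp ((1 / 25 - q) / δ) :=
        mul_le_mul_of_nonneg_left h2 (mul_nonneg (by linarith) h0.le)
      have h4 : (1 - δ) * δ * ((1 / 25 - q) / δ - 1) = (1 - δ) * (1 / 25 - q - δ) := by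
        field_simp
      rw [h4] at h3
      simp only [qq]
      nlinarith
    · have h2 := (R2.qq_strictMono r0 δ h0 h1).monotone hp2
      rwa [R2.qq_eq r0 δ h0 (1 / 25) le_rfl] at h2

end Pool.Agent.Helper18.BI


end
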