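import Pool.Agent.Helper65.Barb.Defs
import Pool.Agent.Helper70.BI.C.P05
import Pool.Agent.Helper70.BI.C.P07
import Pool.Agent.Helper70.BI.C.P17
import Pool.Agent.Helper70.BI.C.P18

/-!
# Project BI (MP_8e98f2_gt): collected modules, part 19

The contents of the modules
* Helper27.BI.GAdd

in one file, so that the whole proof builds in a short time.
-/

namespace Pool.Agent.Helper18.BI
end Pool.Agent.Helper18.BI

namespace Pool.Agent.Helper65.Barb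
end Pool.Agent.Helper65.Barb


/-! ## Helper27.BI.GAdd -/

section

/-!
# Project BI, part (C): additivity for germs
-/

set_option autoImplicit false
set_option linter.unusedSectionVars false
set_option linter.unusedVariables false

open scoped Manifold ContDiff Topology ComplexConjugate
open Set Pool.Agent.Helper65.Barb Pool.Agent.Helper18.BI

namespace Pool.Agent.Helper27.BI

theorem rsq_zero_eq (q : R4) : rsq 0 q = nsq q.2 := by simp [rsq]

theorem nsq_sub_one (q : R4) : nsq (q.2 - (1, 0)) = rsq 1 q := by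
  simp [rsq, nsq]

/-! ### the pushing maps -/

theorem m_Kap (hK : StKappa) : StKap := by
  intro x₀ hx₀ δ r hr hr1 hr2 hδ
  obtain ⟨κ, hs, hinj, hbij, hoff, hoffa, hkeep, haway, hb, hsm⟩ := hK x₀ hx₀ δ r hr hr1 hr2 hδ
  have hsm' : ContDiff ℝ ∞ (fun p : R4 => (p.1, κ p.2)) :=
    contDiff_fst.prodMk (hs.comp contDiff_snd)
  have hball : ∀ p ∈ ball4, -5 ≤ p.2.1 := by
    rintro p ⟨-, -, h⟩
    rw [rsq_zero_eq] at h
    unfold nsq at h
    nlinarith [sq_nonneg p.2.2.re, sq_nonneg p.2.2.im]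
  refine ⟨fun p => (p.1, κ p.2), ⟨fun p _ => ?_, ?_⟩, hsm', fun p => rfl,
    fun p => (hkeep p.2).1, fun p => (hkeep p.2).2, fun p hp => ?_, fun p hp => ?_,
    fun p hp => ?_, fun p hp => ?_, fun p hp => ?_⟩
  · apply (m_A0 R4 _ p).2
    refine ⟨⟨univ, isOpen_univ, mem_univ _, hsm'.contDiffOn⟩, fun v hv => ?_⟩
    have h1 : HasFDerivAt (fun p : R4 => (p.1, κ p.2))
        ((ContinuousLinearMap.fst ℝ ℝ R3).prod
          ((fderiv ℝ κ p.2).comp (ContinuousLinearMap.snd ℝ ℝ R3))) p :=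
      hasFDerivAt_fst.prodMk
        (((hs.differentiable (by simp)) p.2).hasFDerivAt.comp p hasFDerivAt_snd)
    rw [h1.fderiv] at hv
    have h2 := Prod.ext_iff.1 hv
    have h3 : v.1 = 0 := h2.1
    have h4 : fderiv ℝ κ p.2 v.2 = 0 := h2.2
    have h5 : v.2 = 0 := (hbij p.2).1 (h4.trans (map_zero _).symm)
    exact Prod.ext h3 h5
  · intro p _ q _ e
    have h2 := Prod.ext_iff.1 e
    exact Prod.ext h2.1 (hinj h2.2)
  · exact Prod.ext rfl (hoff p.2 hp)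
  · exact Prod.ext rfl (hoffa p.2 hp)
  · intro h
    have h1 := haway p.2 (hball p hp)
    have h2 : nsq (κ p.2 - x₀) < r ^ 2 := h
    linarith
  · obtain ⟨h1, h2, h3⟩ := hp
    refine ⟨h1, h2, ?_⟩
    rw [rsq_zero_eq] at h3 ⊢
    exact hb p.2 h3
  · rw [rsq_zero_eq] at hp ⊢
    have := hsm p.2 (by norm_num at hp ⊢; linarith)
    norm_num at this ⊢
    exact this

/-! ### supports -/

theorem isOpen_tube (x₀ : R3) (r : ℝ) : IsOpen (tube x₀ r) := by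
  have h : Continuous (fun p : R4 => nsq (p.2 - x₀)) :=
    (contDiff_nsq ((contDiff_snd (𝕜 := ℝ) (E := ℝ) (F := R3)).sub contDiff_const)).continuous
  exact isOpen_lt h continuous_const

theorem tube_subset_ctube (x₀ : R3) (r : ℝ) : tube x₀ r ⊆ ctube x₀ r := by
  intro p hp
  have h : nsq (p.2 - x₀) < r ^ 2 := hp
  exact h.le

theorem isCompact_ball4 : IsCompact ball4 := by
  refine Metric.isCompact_of_isClosed_isBounded isClosed_ball4 ?_
  have := isBounded_of_rsq 0 ((9 / 2) ^ 2) (-1) 2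
  exact this

/-- the domain of a germ relative to two strands -/
def D2 (x1 x2 : R3) (r ρ : ℝ) : Set R4 :=
  {p | p ∈ ball4 ∧ p ∉ tube (1, 0) r ∧ p ∉ tube x1 ρ ∧ p ∉ tube x2 ρ}

/-- the domain of a germ relative to one strand -/
def D1 (x1 : R3) (r ρ : ℝ) : Set R4 := {p | p ∈ ball4 ∧ p ∉ tube (1, 0) r ∧ p ∉ tube x1 ρ}

theorem isCompact_D1 (x1 : R3) (r ρ : ℝ) : IsCompact (D1 x1 r ρ) :=
  isCompact_ball4.inter_right
    ((isOpen_tube _ _).isClosed_compl.inter (isOpen_tube _ _).isClosed_compl)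

theorem isCompact_D2 (x1 x2 : R3) (r ρ : ℝ) : IsCompact (D2 x1 x2 r ρ) :=
  isCompact_ball4.inter_right
    ((isOpen_tube _ _).isClosed_compl.inter
      ((isOpen_tube _ _).isClosed_compl.inter (isOpen_tube _ _).isClosed_compl))

theorem D2_comm (x1 x2 : R3) (r ρ : ℝ) : D2 x1 x2 r ρ = D2 x2 x1 r ρ := by
  ext p
  simp only [D2, mem_ofPred_eq]
  tauto

section
variable {E : Type} [NormedAddCommGroup E] [NormedSpace ℝ E] {H : Type} [TopologicalSpace H]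
  {I : ModelWithCorners ℝ E H} {M : Type} [TopologicalSpace M] [ChartedSpace H M] [T2Space M]

/-- A relative isotopy in the model induces an isotopy of implantations. -/
theorem tiso_cisot {O : Set R4} {ρ : ℝ} {φ ψ : R4 → R4}
    (h : TIso O ρ (fun (_ : Unit) _ => e1) (fun _ _ => e1) φ ψ) {L : Set R4}
    (hL : IsCompact L) (hLO : ∀ p, p ∉ L → p ∉ ball4 ∨ p ∈ O ∨ p ∈ tube (1, 0) ρ) {G : R4 → M}
    (hG : EmbOn I G L) : CIsot I (imp G L φ) (imp G L ψ) := by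
  obtain ⟨Φ, h0, h1, ⟨K, hK, hKi, hKs⟩, hO, ht⟩ := h
  have key := imp_isot (I := I) (m_A1) Φ hL hG (fun t p hp => by
    rcases hLO p hp with h | h | h
    · exact hKs t p (fun hk => h (interior_subset (hKi hk)))
    · exact hO t p h
    · have h2 : nsq (p.2 - (1, 0)) ≤ ρ ^ 2 := le_of_lt h
      have e := ht t () p.1 (p.2 - (1, 0)) h2
      simp only [e1, add_sub_cancel] at e
      exact e)
  have e0 : (fun p => Φ.f (0, p)) = φ := funext h0
  have e1' : (fun p => Φ.f (1, p)) = ψ := funext h1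
  rwa [e0, e1'] at key

theorem tiso_fix {O : Set R4} {ρ : ℝ} {φ : R4 → R4}
    (h : TIso O ρ (fun (_ : Unit) _ => e1) (fun _ _ => e1) φ φ) {p : R4}
    (hp : p ∉ ball4 ∨ p ∈ O ∨ p ∈ tube (1, 0) ρ) : φ p = p := by
  obtain ⟨Φ, h0, h1, ⟨K, hK, hKi, hKs⟩, hO, ht⟩ := h
  rw [← h0 p]
  rcases hp with h | h | h
  · exact hKs 0 p (fun hk => h (interior_subset (hKi hk)))
  · exact hO 0 p h
  · have h2 : nsq (p.2 - (1, 0)) ≤ ρ ^ 2 := le_of_lt h
    have e := ht 0 () p.1 (p.2 - (1, 0)) h2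
    simp only [e1, add_sub_cancel] at e
    exact e

theorem D1_compl {x1 : R3} {ρ : ℝ} {p : R4} (hp : p ∉ D1 x1 ρ ρ) :
    p ∉ ball4 ∨ p ∈ ctube x1 ρ ∨ p ∈ tube (1, 0) ρ := by
  by_contra hcon
  push Not at hcon
  obtain ⟨h1, h2, h3⟩ := hcon
  exact hp ⟨h1, h3, fun h => h2 (tube_subset_ctube _ _ h)⟩

theorem D2_compl {x1 x2 : R3} {ρ : ℝ} {p : R4} (hp : p ∉ D2 x1 x2 ρ ρ) :
    p ∉ ball4 ∨ p ∈ ctube x1 ρ ∪ ctube x2 ρ ∨ p ∈ tube (1, 0) ρ := by
  by_contra hcon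
  push Not at hcon
  obtain ⟨h1, h2, h3⟩ := hcon
  exact hp ⟨h1, h3, fun h => h2 (Or.inl (tube_subset_ctube _ _ h)),
    fun h => h2 (Or.inr (tube_subset_ctube _ _ h))⟩

/-- One factor of the product. -/
theorem half {x1 x2 : R3} {g ρ : ℝ} (hx1 : nsq x1 < (7 / 50) ^ 2) (hx2 : nsq x2 < (7 / 50) ^ 2)
    (hρ0 : 0 < ρ) (hg : g = |x1.2.re - x2.2.re|) (hρ : ρ = g / 40) {k : R4 → R4}
    (hk : IsKap x2 (g / 8) ρ k) {β : R4 → R4}
    (tβ : TIso (ctube x1 ρ ∪ ctube x2 ρ) ρ (fun (_ : Unit) _ => e1) (fun _ _ => e1) β β)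
    (sβ : TIso (ctube x1 ρ) ρ (fun (_ : Unit) _ => e1) (fun _ _ => e1) β barMap)
    (sup : ∀ s a w, (2 * ρ) ^ 2 ≤ (a - 1) ^ 2 + w.im ^ 2 → g / 4 + 2 * ρ ≤ |w.re - x1.2.re| →
      β (s, (a, w)) = (s, (a, w))) {G : R4 → M} (hG : EmbOn I G (D2 x1 x2 ρ ρ)) :
    MapsTo k (D1 x1 ρ ρ) (D2 x1 x2 ρ ρ) ∧ MapsTo β (D2 x1 x2 ρ ρ) (D2 x1 x2 ρ ρ) ∧
      CIsot I (imp G (D2 x1 x2 ρ ρ) β) (imp (G ∘ k) (D1 x1 ρ ρ) barMap) := by
  have hX1 : |x1.2.re| ≤ 7 / 50 := abs_re_le (by norm_num) hx1.le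
  have hX2 : |x2.2.re| ≤ 7 / 50 := abs_re_le (by norm_num) hx2.le
  have hg1 : g ≤ 7 / 25 := by
    rw [hg]; have := abs_sub x1.2.re x2.2.re; linarith
  have hg0 : 0 < g := by linarith
  have hρ1 : ρ ≤ 1 / 100 := by linarith
  have hx2a : x2.1 ≤ 7 / 50 := by
    have h1 : x2.1 ^ 2 ≤ (7 / 50) ^ 2 := by
      have : x2.1 ^ 2 ≤ nsq x2 := by unfold nsq; nlinarith [sq_nonneg x2.2.re, sq_nonneg x2.2.im]
      linarith
    nlinarith
  -- the zone moved by `k`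
  set Z : Set R4 := {p | ‖p.2.2 - x2.2‖ < g / 8 ∧ p.2.1 < x2.1 + 1 / 50} with hZ
  have kZ : ∀ p, p ∉ Z → k p = p := by
    intro p hp
    by_cases h1 : ‖p.2.2 - x2.2‖ < g / 8
    · apply hk.off_a
      by_contra h2
      exact hp ⟨h1, not_le.1 h2⟩
    · exact hk.off_w p (not_lt.1 h1)
  have kinj : ∀ p q, k p = k q → p = q := fun p q e => hk.emb.2 (mem_univ p) (mem_univ q) e
  have kZZ : ∀ p ∈ Z, k p ∈ Z := by
    intro p hp
    by_contra h
    have h1 := kinj _ _ (kZ _ h)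
    rw [h1] at h
    exact h hp
  have Za : ∀ p ∈ Z, p.2.1 < 4 / 25 := by
    rintro p ⟨-, h⟩; linarith
  have Zre : ∀ p ∈ Z, |p.2.2.re - x2.2.re| < g / 8 := by
    rintro p ⟨h, -⟩
    refine lt_of_le_of_lt ?_ h
    have := Complex.abs_re_le_norm (p.2.2 - x2.2)
    rwa [Complex.sub_re] at this
  have βZ : ∀ p ∈ Z, β p = p := by
    intro p hp
    obtain ⟨s, a, w⟩ := p
    have h1 : a < 4 / 25 := Za _ hp
    have h2 : |w.re - x2.2.re| < g / 8 := Zre _ hp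
    apply sup
    · nlinarith [sq_nonneg w.im]
    · have e : x1.2.re - x2.2.re = (w.re - x2.2.re) - (w.re - x1.2.re) := by ring
      have h3 := abs_sub (w.re - x2.2.re) (w.re - x1.2.re)
      rw [← e, ← hg] at h3
      linarith
  obtain ⟨β', -, hββ', hβ'β⟩ := tβ.exists_inv
  have βinj : ∀ p q, β p = β q → p = q := by
    intro p q e
    rw [← hβ'β p, e, hβ'β]
  have βnZ : ∀ p, p ∉ Z → β p ∉ Z := by
    intro p hp h
    have := βinj _ _ (βZ _ h)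
    rw [this] at h
    exact hp h
  have comm : ∀ p, β (k p) = k (β p) := by
    intro p
    by_cases hp : p ∈ Z
    · rw [βZ _ (kZZ p hp), βZ p hp]
    · rw [kZ p hp, kZ _ (βnZ p hp)]
  have mβ : MapsTo β (D2 x1 x2 ρ ρ) (D2 x1 x2 ρ ρ) := by
    intro p hp
    by_contra h
    have h1 := βinj _ _ (tiso_fix tβ (D2_compl h))
    rw [h1] at h
    exact h hp
  have mk : MapsTo k (D1 x1 ρ ρ) (D2 x1 x2 ρ ρ) := by
    intro p hp
    by_cases hpZ : p ∈ Z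
    · have h1 := kZZ p hpZ
      have h2 : (k p).2.1 < 4 / 25 := Za _ h1
      have h3 : |(k p).2.2.re - x2.2.re| < g / 8 := Zre _ h1
      refine ⟨hk.ball p hp.1, ?_, ?_, hk.away p hp.1⟩
      · intro h
        have h4 : nsq ((k p).2 - (1, 0)) < ρ ^ 2 := h
        have h5 : ((k p).2.1 - 1) ^ 2 ≤ nsq ((k p).2 - (1, 0)) := by
          unfold nsq
          simp only [Prod.fst_sub]
          nlinarith [sq_nonneg ((k p).2 - (1, 0)).2.re, sq_nonneg ((k p).2 - (1, 0)).2.im]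
        nlinarith
      · intro h
        have h4 : nsq ((k p).2 - x1) < ρ ^ 2 := h
        have h5 : |((k p).2 - x1).2.re| ≤ ρ := abs_re_le hρ0.le h4.le
        rw [Prod.snd_sub, Complex.sub_re] at h5
        have e : x1.2.re - x2.2.re = ((k p).2.2.re - x2.2.re) - ((k p).2.2.re - x1.2.re) := by
          ring
        have h6 := abs_sub ((k p).2.2.re - x2.2.re) ((k p).2.2.re - x1.2.re)
        rw [← e, ← hg] at h6
        linarith
    · have h1 := kZ p hpZ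
      rw [h1]
      refine ⟨hp.1, hp.2.1, hp.2.2, ?_⟩
      rw [← h1]
      exact hk.away p hp.1
  refine ⟨mk, mβ, ?_⟩
  have hGk : EmbOn I (G ∘ k) (D1 x1 ρ ρ) :=
    EmbOn.comp hG (EmbOn.mono hk.emb (subset_univ _)) mk
  have e1' : imp G (D2 x1 x2 ρ ρ) β = imp (G ∘ k) (D1 x1 ρ ρ) β := by
    apply imp_eq_of hG.2 hGk.2
    · intro p hp
      exact ⟨k p, mk hp, rfl, by rw [comm]; rfl⟩
    · intro q hq
      by_cases hqZ : q ∈ Z
      · exact Or.inr (by rw [βZ q hqZ])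
      · refine Or.inl ⟨q, ⟨hq.1, hq.2.1, hq.2.2.1⟩, ?_⟩
        change G (k q) = G q
        rw [kZ q hqZ]
  rw [e1']
  exact tiso_cisot sβ (isCompact_D1 _ _ _) (fun p hp => D1_compl hp) hGk

/-! ### shrinking the second hole -/

theorem qq_mem {q : ℝ} (hq : 0 < q) (hq' : q ≤ 1 / 25) :
    (3 / 20) ^ 2 ≤ qq (1 / 200) q ∧ qq (1 / 200) q ≤ 1 / 25 := by
  obtain ⟨-, -, -, h0, h1, h2⟩ := m_R0
  have a1 := h1 ((1 / 25 - q) / (1 / 200))
  have a2 := h2 ((1 / 25 - q) / (1 / 200)) (by apply div_nonneg <;> linarith)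
  have e : (1 / 25 - q) / (1 / 200) = 200 * (1 / 25 - q) := by ring
  unfold qq
  rw [e] at a1 a2 ⊢
  constructor
  · norm_num
    nlinarith
  · norm_num
    nlinarith

theorem shrink_fst (p : R4) : (radc (1 / 200) 1 p).1 = p.1 := rfl

theorem shrink_facts {p : R4} (hp : 0 < rsq 1 p) :
    (3 / 20) ^ 2 ≤ rsq 1 (radc (1 / 200) 1 p) ∧
      (rsq 1 p < 1 / 25 → rsq 1 (radc (1 / 200) 1 p) ≤ 1 / 25) := by
  obtain ⟨-, h2, h3, -⟩ := m_R2 m_A0 m_R0 (1 / 200) (by constructor <;> norm_num) 1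
  rcases le_or_gt (1 / 25) (rsq 1 p) with h | h
  · rw [h2 p h]
    exact ⟨le_trans (by norm_num) h, fun h' => absurd h' (not_lt.2 h)⟩
  · rw [(h3 p hp).1]
    obtain ⟨a, b⟩ := qq_mem hp h.le
    exact ⟨a, fun _ => b⟩

theorem shrink_id {p : R4} (hp : 1 / 25 ≤ rsq 1 p) : radc (1 / 200) 1 p = p :=
  (m_R2 m_A0 m_R0 (1 / 200) (by constructor <;> norm_num) 1).2.1 p hp

theorem shrink_emb : EmbOn 𝓘(ℝ, R4) (radc (1 / 200) 1) {p | 0 < rsq 1 p} :=
  (m_R2 m_A0 m_R0 (1 / 200) (by constructor <;> norm_num) 1).1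

theorem shrink_maps {x1 x2 : R3} {ρ : ℝ} (hx1 : nsq x1 < (7 / 50) ^ 2)
    (hx2 : nsq x2 < (7 / 50) ^ 2) (hρ0 : 0 < ρ) (hρ1 : ρ ≤ 1 / 100) :
    MapsTo (radc (1 / 200) 1) (D2 x1 x2 ρ ρ) (D2 x1 x2 (3 / 20) ρ) := by
  intro p hp
  have h0 : 0 < rsq 1 p := by
    have h1 : ¬ (nsq (p.2 - (1, 0)) < ρ ^ 2) := hp.2.1
    rw [nsq_sub_one] at h1
    have : 0 < ρ ^ 2 := by positivity
    linarith [not_lt.1 h1]
  obtain ⟨h1, h2⟩ := shrink_facts h0
  have htube : radc (1 / 200) 1 p ∉ tube (1, 0) (3 / 20) := by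
    intro h
    have h' : nsq ((radc (1 / 200) 1 p).2 - (1, 0)) < (3 / 20) ^ 2 := h
    rw [nsq_sub_one] at h'
    linarith
  rcases le_or_gt (1 / 25) (rsq 1 p) with h | h
  · rw [shrink_id h] at htube ⊢
    exact ⟨hp.1, htube, hp.2.2⟩
  · have h3 := h2 h
    have h4 : ((radc (1 / 200) 1 p).2.1 - 1) ^ 2 ≤ rsq 1 (radc (1 / 200) 1 p) :=
      sq_le_rsq_one _
    have h5 : (4 / 5 : ℝ) ≤ (radc (1 / 200) 1 p).2.1 := by nlinarith
    have h6 : (radc (1 / 200) 1 p).2.1 ≤ 6 / 5 := by nlinarith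
    have key : ∀ x₀ : R3, nsq x₀ < (7 / 50) ^ 2 → radc (1 / 200) 1 p ∉ tube x₀ ρ := by
      intro x₀ hx₀ h
      have h7 : nsq ((radc (1 / 200) 1 p).2 - x₀) < ρ ^ 2 := h
      have h8 : ((radc (1 / 200) 1 p).2.1 - x₀.1) ^ 2 ≤
          nsq ((radc (1 / 200) 1 p).2 - x₀) := by
        unfold nsq
        simp only [Prod.fst_sub]
        nlinarith [sq_nonneg ((radc (1 / 200) 1 p).2 - x₀).2.re,
          sq_nonneg ((radc (1 / 200) 1 p).2 - x₀).2.im]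
      have h9 : x₀.1 ≤ 7 / 50 := by
        have : x₀.1 ^ 2 ≤ nsq x₀ := by
          unfold nsq; nlinarith [sq_nonneg x₀.2.re, sq_nonneg x₀.2.im]
        nlinarith
      nlinarith
    refine ⟨⟨hp.1.1, hp.1.2.1, ?_⟩, htube, key x1 hx1, key x2 hx2⟩
    rw [rsq_one_eq] at h3
    norm_num
    linarith

theorem bsupp_D {x1 x2 : R3} {ρ : ℝ} (hx1 : nsq x1 < (7 / 50) ^ 2)
    (hx2 : nsq x2 < (7 / 50) ^ 2) (hρ0 : 0 < ρ) (hρ1 : ρ ≤ 1 / 100) {p : R4} (hp : p ∈ bsupp) :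
    p ∈ D2 x1 x2 ρ ρ := by
  have hb : p ∈ ball4 := interior_subset (tsupp_subset_interior hp.1)
  have h1 : p ∉ tube (1, 0) ρ := by
    intro h
    have h' : nsq (p.2 - (1, 0)) < ρ ^ 2 := h
    rw [nsq_sub_one] at h'
    have := hp.2.2
    nlinarith
  have key : ∀ x₀ : R3, nsq x₀ < (7 / 50) ^ 2 → p ∉ tube x₀ ρ := by
    intro x₀ hx₀ h
    have h7 : nsq (p.2 - x₀) < ρ ^ 2 := h
    have h8 : nsq (p.2 - x₀ + x₀) ≤ (ρ + 7 / 50) ^ 2 :=
      nsq_add_le hρ0.le (by norm_num) h7.le hx₀.le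
    rw [sub_add_cancel] at h8
    have h9 := hp.2.1
    rw [rsq_zero_eq] at h9
    nlinarith
  exact ⟨hb, h1, key x1 hx1, key x2 hx2⟩

theorem barMap_mapsTo {L : Set R4} (hL : bsupp ⊆ L) : MapsTo barMap L L := by
  intro p hp
  by_contra h
  have h1 : barMap p ∉ bsupp := fun h' => h (hL h')
  have h2 : barMap (barMap p) = barMap p := barMap_off h1
  have h3 : barMap p = p := by
    have e := congrArg (fun q => bfam.g (1, q)) h2
    simp only [barMap] at e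
    rw [bfam.gf, bfam.gf] at e
    exact e
  rw [h3] at h
  exact h hp

theorem m_AddG (hAdd : StAddM) : StAddG := by
  intro E _ _ H _ I M _ _ _ x1 x2 hx1 hx2 hne g ρ hg hρ k1 k2 hk1 hk2 F hF
  have hg0 : 0 < g := by rw [hg]; exact abs_pos.2 (sub_ne_zero.2 hne)
  have hX1 : |x1.2.re| ≤ 7 / 50 := abs_re_le (by norm_num) hx1.le
  have hX2 : |x2.2.re| ≤ 7 / 50 := abs_re_le (by norm_num) hx2.le
  have hg1 : g ≤ 7 / 25 := by
    rw [hg]; have := abs_sub x1.2.re x2.2.re; linarith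
  have hρ0 : 0 < ρ := by rw [hρ]; positivity
  have hρ1 : ρ ≤ 1 / 100 := by rw [hρ]; linarith
  obtain ⟨β1, β2, t0, t1, t2, s1, s2, sup1, sup2⟩ := hAdd x1 x2 hx1 hx2 hne g ρ hg hρ
  set E0 := radc (1 / 200) 1 with hE0
  have hG : EmbOn I (F ∘ E0) (D2 x1 x2 ρ ρ) := by
    refine EmbOn.comp (L := D2 x1 x2 (3 / 20) ρ) hF (EmbOn.mono shrink_emb ?_)
      (shrink_maps hx1 hx2 hρ0 hρ1)
    intro p hp
    have h1 : ¬ (nsq (p.2 - (1, 0)) < ρ ^ 2) := hp.2.1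
    rw [nsq_sub_one] at h1
    have : 0 < ρ ^ 2 := by positivity
    exact lt_of_lt_of_le this (not_lt.1 h1)
  obtain ⟨mk1, mβ1, c1⟩ := half (I := I) hx1 hx2 hρ0 hg hρ hk1 t1 s1 sup1 hG
  obtain ⟨mk2, mβ2, c2⟩ := half (I := I) hx2 hx1 hρ0 (by rw [hg, abs_sub_comm]) hρ hk2
    (t2.mono (by rw [union_comm]) hρ0.le le_rfl) s2 sup2 (by rw [D2_comm]; exact hG)
  rw [D2_comm] at mk2 mβ2 c2
  -- barMap is supported in bsupp
  have hoff : ∀ p, p ∉ bsupp → barMap p = p := fun p hp => barMap_off hp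
  have hb2 : bsupp ⊆ D2 x1 x2 ρ ρ := fun p hp => bsupp_D hx1 hx2 hρ0 hρ1 hp
  have hb1 : bsupp ⊆ D1 x1 ρ ρ := fun p hp => ⟨(hb2 hp).1, (hb2 hp).2.1, (hb2 hp).2.2.1⟩
  have hb1' : bsupp ⊆ D1 x2 ρ ρ := fun p hp => ⟨(hb2 hp).1, (hb2 hp).2.1, (hb2 hp).2.2.2⟩
  have hE1 : ∀ p ∈ bsupp, E0 p = p := fun p hp => shrink_id (by
    have := hp.2.2; norm_num at this ⊢; exact this)
  -- left-hand side
  have eL : imp F bsupp barMap = imp (F ∘ E0) (D2 x1 x2 ρ ρ) barMap := by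
    rw [imp_mono hG.2 hb2 hoff]
    have : InjOn (F ∘ E0) bsupp := hG.2.mono hb2
    exact (imp_congr this (fun p hp => by simp only [Function.comp, hE1 p hp])
      (barMap_mapsTo subset_rfl)).symm
  -- right-hand side
  have eR : ∀ (k : R4 → R4) (xa xb : R3), IsKap xb (g / 8) ρ k → nsq xb < (7 / 50) ^ 2 →
      MapsTo k (D1 xa ρ ρ) (D2 x1 x2 ρ ρ) → bsupp ⊆ D1 xa ρ ρ →
      imp ((F ∘ E0) ∘ k) (D1 xa ρ ρ) barMap = imp (F ∘ k) bsupp barMap := by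
    intro k xa xb hk hxb mk hb
    have hGk : EmbOn I ((F ∘ E0) ∘ k) (D1 xa ρ ρ) :=
      EmbOn.comp hG (EmbOn.mono hk.emb (subset_univ _)) mk
    rw [imp_mono hGk.2 hb hoff]
    refine imp_congr (hGk.2.mono hb) (fun p hp => ?_) (barMap_mapsTo subset_rfl)
    have hxba : xb.1 ≤ 7 / 50 := by
      have : xb.1 ^ 2 ≤ nsq xb := by unfold nsq; nlinarith [sq_nonneg xb.2.re, sq_nonneg xb.2.im]
      nlinarith
    have e : E0 (k p) = k p := by
      rcases le_or_gt (xb.1 + 1 / 50) (k p).2.1 with h | h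
      · -- then `k p = p`
        have h1 : k (k p) = k p := hk.off_a _ h
        have h2 : k p = p := hk.emb.2 (mem_univ _) (mem_univ _) h1
        rw [h2]
        exact hE1 p hp
      · apply shrink_id
        have h1 := sq_le_rsq_one (k p)
        nlinarith
    change F (E0 (k p)) = F (k p)
    rw [e]
  rw [eL]
  have e1' := eR k1 x1 x2 hk1 hx2 mk1 hb1
  have e2' := eR k2 x2 x1 hk2 hx1 mk2 hb1'
  rw [e1'] at c1
  rw [e2'] at c2
  have c0 := tiso_cisot (I := I) t0 (isCompact_D2 x1 x2 ρ ρ) (fun p hp => D2_compl hp) hG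
  have ec : imp (F ∘ E0) (D2 x1 x2 ρ ρ) (fun p => β2 (β1 p)) =
      fun y => imp (F ∘ E0) (D2 x1 x2 ρ ρ) β2 (imp (F ∘ E0) (D2 x1 x2 ρ ρ) β1 y) := by
    funext y
    exact imp_comp hG.2 mβ1 y
  rw [ec] at c0
  exact CIsot.trans' c0 (CIsot.comp' c2 c1)

theorem m_ADD2 (hAdd : StAddG) (hKap : StKap) : StADD2 := by
  intro x2 hx2 hne
  have hX2 : |x2.2.re| ≤ 7 / 50 := abs_re_le (by norm_num) hx2.le
  have hg0 : 0 < |x2.2.re| := abs_pos.2 hne
  have h0 : nsq (0 : R3) < (7 / 50) ^ 2 := by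
    have : nsq (0 : R3) = 0 := by simp [nsq]
    rw [this]; norm_num
  obtain ⟨k1, hk1⟩ := hKap x2 hx2 (|x2.2.re| / 8) (|x2.2.re| / 40) (by positivity) (by linarith)
    (by linarith) (by linarith)
  obtain ⟨k2, hk2⟩ := hKap 0 h0 (|x2.2.re| / 8) (|x2.2.re| / 40) (by positivity) (by linarith)
    (by linarith) (by linarith)
  have hx2a : x2.1 ≤ 7 / 50 := by
    have : x2.1 ^ 2 ≤ nsq x2 := by unfold nsq; nlinarith [sq_nonneg x2.2.re, sq_nonneg x2.2.im]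
    nlinarith
  have hx2w : |x2.2.re| ≤ ‖x2.2‖ := Complex.abs_re_le_norm _
  have hfix1 : ∀ p : R4, ‖p.2.2‖ ≤ |x2.2.re| / 2 → k1 p = p := by
    intro p hp
    apply hk1.off_w
    have := norm_sub_norm_le x2.2 p.2.2
    rw [norm_sub_rev] at this
    linarith
  have htw : ∀ (x₀ : R3) (r : ℝ) (p : R4), 0 ≤ r → p ∈ tube x₀ r → ‖p.2.2 - x₀.2‖ ≤ r := by
    intro x₀ r p hr hp
    have h1 : nsq (p.2 - x₀) < r ^ 2 := hp
    have h2 : ‖p.2.2 - x₀.2‖ ^ 2 ≤ nsq (p.2 - x₀) := by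
      rw [← Complex.normSq_eq_norm_sq, Complex.normSq_apply]
      unfold nsq
      simp only [Prod.fst_sub, Prod.snd_sub]
      nlinarith [sq_nonneg (p.2.1 - x₀.1)]
    exact (abs_le_of_sq_le_sq (h2.trans h1.le) hr |>.trans' (le_abs_self _))
  refine ⟨|x2.2.re| / 40, k1, k2, by positivity, by linarith, by linarith, hk1, hk2, ?_, hfix1,
    ?_, ?_, ?_⟩
  · intro p hp
    exact ⟨hk1.off_a p (by linarith), hk2.off_a p (by
      change (0 : ℝ) + 1 / 50 ≤ p.2.1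
      linarith)⟩
  · intro p hp
    have h1 := htw _ _ _ (by positivity) hp
    have h2 : ‖p.2.2‖ ≤ |x2.2.re| / 40 := by
      have e : (0 : R3).2 = 0 := rfl
      rw [e, sub_zero, hk1.keep] at h1
      exact h1
    rwa [hfix1 p (by linarith)] at hp
  · intro p hp
    have h1 := htw _ _ _ (by positivity) hp
    rw [hk2.keep] at h1
    have h2 : |x2.2.re| / 8 ≤ ‖p.2.2 - (0 : R3).2‖ := by
      have e : (0 : R3).2 = 0 := rfl
      rw [e, sub_zero]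
      have := norm_sub_norm_le x2.2 p.2.2
      rw [norm_sub_rev] at this
      linarith
    rwa [hk2.off_w p h2] at hp
  · intro E _ _ H _ I M _ _ _ F hF
    have e0 : |x2.2.re| = |(0 : R3).2.re - x2.2.re| := by
      have : (0 : R3).2.re = 0 := rfl
      rw [this, zero_sub, abs_neg]
    refine hAdd E H I M 0 x2 h0 hx2 ?_ |x2.2.re| (|x2.2.re| / 40) e0 rfl k1 k2 hk1 hk2 F ?_
    · intro h
      exact hne h.symm
    · refine EmbOn.mono hF ?_
      rintro p ⟨h1, h2, h3, h4⟩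
      refine ⟨h1, ?_⟩
      rintro ((h | h) | h)
      · exact h2 h
      · exact h3 h
      · exact h4 h

end

end Pool.Agent.Helper27.BI


end
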