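import Pool.Agent.Helper65.Barb.Defs
import Pool.Agent.Helper70.BI.C.P05
import Pool.Agent.Helper70.BI.C.P17
import Pool.Agent.Helper70.BI.C.P18

/-!
# Project BI (MP_8e98f2_gt): collected modules, part 20

The contents of the modules
* Helper34.BI.M_RE

in one file, so that the whole proof builds in a short time.
-/

namespace Pool.Agent.Helper18.BI
end Pool.Agent.Helper18.BI

namespace Pool.Agent.Helper27.BI
end Pool.Agent.Helper27.BI

namespace Pool.Agent.Helper65.Barb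
end Pool.Agent.Helper65.Barb


/-! ## Helper34.BI.M_RE -/

section

/-!
# Project BI, module RE: the radial map `Em`
-/

set_option autoImplicit false

open scoped Manifold ContDiff Topology ComplexConjugate
open Set Pool.Agent.Helper65.Barb Pool.Agent.Helper18.BI Pool.Agent.Helper27.BI

namespace Pool.Agent.Helper34.BI

namespace RE

open R2 (rsq_eq rsq_contDiff isOpen_pos line_deriv)

/-- a profile function -/
structure Prf (f : ℝ → ℝ) : Prop where
  smooth : ContDiff ℝ ∞ f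
  pos : ∀ q, 0 < deriv f q
  ge : ∀ q, q ≤ f q

/-- the factor -/
noncomputable def mf (f : ℝ → ℝ) (c : ℝ) (p : R4) : ℝ := √(f (rsq c p) / rsq c p)

/-- the radial map with profile `f` -/
noncomputable def rad (f : ℝ → ℝ) (c : ℝ) (p : R4) : R4 :=
  (p.1, c + mf f c p * (p.2.1 - c), ((mf f c p : ℝ) : ℂ) * p.2.2)

theorem rad_eq (f : ℝ → ℝ) (c : ℝ) (p : R4) :
    rad f c p = (p.1, c + mf f c p * (p.2.1 - c), ((mf f c p : ℝ) : ℂ) * p.2.2) := rfl

variable {f : ℝ → ℝ}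

theorem Prf.mono (hf : Prf f) : StrictMono f := strictMono_of_deriv_pos hf.pos

theorem Prf.hasDeriv (hf : Prf f) (q : ℝ) : HasDerivAt f (deriv f q) q :=
  (hf.smooth.differentiable (by simp) q).hasDerivAt

theorem arg_pos (hf : Prf f) (c : ℝ) (p : R4) (hp : 0 < rsq c p) :
    0 < f (rsq c p) / rsq c p :=
  div_pos (lt_of_lt_of_le hp (hf.ge _)) hp

theorem mf_pos (hf : Prf f) (c : ℝ) (p : R4) (hp : 0 < rsq c p) :
    0 < mf f c p := Real.sqrt_pos.2 (arg_pos hf c p hp)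

theorem mf_sq (hf : Prf f) (c : ℝ) (p : R4) (hp : 0 < rsq c p) :
    mf f c p ^ 2 * rsq c p = f (rsq c p) := by
  rw [mf, Real.sq_sqrt (arg_pos hf c p hp).le, div_mul_cancel₀ _ hp.ne']

theorem rsq_rad (hf : Prf f) (c : ℝ) (p : R4) (hp : 0 < rsq c p) :
    rsq c (rad f c p) = f (rsq c p) := by
  rw [← mf_sq hf c p hp, rad_eq, rsq_eq, rsq_eq]
  simp only [Complex.mul_re, Complex.mul_im, Complex.ofReal_re, Complex.ofReal_im]
  ring

theorem mf_contDiffOn (hf : Prf f) (c : ℝ) :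
    ContDiffOn ℝ ∞ (mf f c) {p : R4 | 0 < rsq c p} := by
  have h2 : ContDiffOn ℝ ∞ (fun p : R4 => f (rsq c p) / rsq c p) {p : R4 | 0 < rsq c p} :=
    (hf.smooth.comp (rsq_contDiff c)).contDiffOn.div (rsq_contDiff c).contDiffOn
      (fun p hp => (ne_of_gt hp))
  exact h2.sqrt (fun p hp => (arg_pos hf c p hp).ne')

theorem rad_contDiffOn (hf : Prf f) (c : ℝ) :
    ContDiffOn ℝ ∞ (rad f c) {p : R4 | 0 < rsq c p} := by
  have hm := mf_contDiffOn hf c
  have h2 : ContDiff ℝ ∞ (fun p : R4 => p.2.1 - c) :=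
    (contDiff_fst.comp contDiff_snd).sub contDiff_const
  have h3 : ContDiffOn ℝ ∞ (fun p : R4 => ((mf f c p : ℝ) : ℂ)) {p : R4 | 0 < rsq c p} :=
    Complex.ofRealCLM.contDiff.comp_contDiffOn hm
  exact contDiff_fst.contDiffOn.prodMk ((contDiffOn_const.add (hm.mul h2.contDiffOn)).prodMk
    (h3.mul (contDiff_snd.comp contDiff_snd).contDiffOn))

theorem rad_fderiv (hf : Prf f) (c : ℝ) (p v : R4)
    (hp : 0 < rsq c p) (hv : fderiv ℝ (rad f c) p v = 0) : v = 0 := by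
  have hnhd : {p : R4 | 0 < rsq c p} ∈ 𝓝 p := (isOpen_pos c).mem_nhds hp
  have hd : DifferentiableAt ℝ (rad f c) p :=
    ((rad_contDiffOn hf c).contDiffAt hnhd).differentiableAt (by simp)
  have hdm : DifferentiableAt ℝ (mf f c) p :=
    ((mf_contDiffOn hf c).contDiffAt hnhd).differentiableAt (by simp)
  obtain ⟨s, a, w⟩ := p
  obtain ⟨σ, b, z⟩ := v
  have hline : HasDerivAt (fun t : ℝ => ((s, a, w) : R4) + t • ((σ, b, z) : R4)) (σ, b, z) 0 := by
    have := ((hasDerivAt_id (0 : ℝ)).smul_const ((σ, b, z) : R4)).const_add ((s, a, w) : R4)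
    simpa using this
  have hline0 : ((s, a, w) : R4) + (0 : ℝ) • ((σ, b, z) : R4) = (s, a, w) := by
    rw [zero_smul, add_zero]
  have hc : HasDerivAt (fun t : ℝ => rad f c ((s, a, w) + t • (σ, b, z))) 0 0 := by
    have h2 : HasFDerivAt (rad f c) (fderiv ℝ (rad f c) (s, a, w))
        (((s, a, w) : R4) + (0 : ℝ) • ((σ, b, z) : R4)) := by
      rw [hline0]
      exact hd.hasFDerivAt
    have h3 := h2.comp_hasDerivAt (0 : ℝ) hline
    rw [hv] at h3
    exact h3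
  obtain ⟨μ, hμ⟩ : ∃ μ : ℝ, HasDerivAt (fun t : ℝ => mf f c ((s, a, w) + t • (σ, b, z))) μ 0 := by
    have h2 : HasFDerivAt (mf f c) (fderiv ℝ (mf f c) (s, a, w))
        (((s, a, w) : R4) + (0 : ℝ) • ((σ, b, z) : R4)) := by
      rw [hline0]
      exact hdm.hasFDerivAt
    have h3 := h2.comp_hasDerivAt (0 : ℝ) hline
    exact ⟨_, h3⟩
  have e1 : ∀ t : ℝ, rad f c ((s, a, w) + t • (σ, b, z)) =
      (s + t * σ, c + mf f c ((s, a, w) + t • (σ, b, z)) * (a - c + t * b),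
        ((mf f c ((s, a, w) + t • (σ, b, z)) : ℝ) : ℂ) * (w + t * z)) := by
    intro t
    rw [rad_eq]
    refine Prod.ext ?_ (Prod.ext ?_ ?_)
    · simp
    · simp only [Prod.fst_add, Prod.snd_add, Prod.smul_fst, Prod.smul_snd, smul_eq_mul]
      ring
    · simp
  simp only [e1] at hc
  have hσ : σ = 0 := by
    have h2 := (ContinuousLinearMap.fst ℝ ℝ (ℝ × ℂ)).hasFDerivAt.comp_hasDerivAt (0 : ℝ) hc
    have h5 := (line_deriv s σ).unique h2
    simpa using h5
  set m : ℝ := mf f c (s, a, w) with hm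
  have hm0 : 0 < m := mf_pos hf c _ hp
  have hma : mf f c (((s, a, w) : R4) + (0 : ℝ) • ((σ, b, z) : R4)) = m := by
    rw [hline0]
  have hb : μ * (a - c) + m * b = 0 := by
    have h2 := ((ContinuousLinearMap.fst ℝ ℝ ℂ).comp
      (ContinuousLinearMap.snd ℝ ℝ (ℝ × ℂ))).hasFDerivAt.comp_hasDerivAt (0 : ℝ) hc
    have h3 := (hμ.mul (line_deriv (a - c) b)).const_add c
    have h4 := h3.unique h2
    rw [hma] at h4
    simpa using h4
  have hre : μ * w.re + m * z.re = 0 := by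
    have h2 := (Complex.reCLM.comp ((ContinuousLinearMap.snd ℝ ℝ ℂ).comp
      (ContinuousLinearMap.snd ℝ ℝ (ℝ × ℂ)))).hasFDerivAt.comp_hasDerivAt (0 : ℝ) hc
    have h3 := hμ.mul (line_deriv w.re z.re)
    have e2 : ((Complex.reCLM.comp ((ContinuousLinearMap.snd ℝ ℝ ℂ).comp
        (ContinuousLinearMap.snd ℝ ℝ (ℝ × ℂ)))) ∘ fun t : ℝ =>
        ((s + t * σ, c + mf f c ((s, a, w) + t • (σ, b, z)) * (a - c + t * b),
        ((mf f c ((s, a, w) + t • (σ, b, z)) : ℝ) : ℂ) * (w + t * z)) : R4)) =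
        ((fun t : ℝ => mf f c ((s, a, w) + t • (σ, b, z))) * fun t : ℝ => w.re + t * z.re) := by
      ext t
      simp
    rw [e2] at h2
    have h4 := h3.unique h2
    rw [hma] at h4
    simpa using h4
  have him : μ * w.im + m * z.im = 0 := by
    have h2 := (Complex.imCLM.comp ((ContinuousLinearMap.snd ℝ ℝ ℂ).comp
      (ContinuousLinearMap.snd ℝ ℝ (ℝ × ℂ)))).hasFDerivAt.comp_hasDerivAt (0 : ℝ) hc
    have h3 := hμ.mul (line_deriv w.im z.im)
    have e2 : ((Complex.imCLM.comp ((ContinuousLinearMap.snd ℝ ℝ ℂ).comp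
        (ContinuousLinearMap.snd ℝ ℝ (ℝ × ℂ)))) ∘ fun t : ℝ =>
        ((s + t * σ, c + mf f c ((s, a, w) + t • (σ, b, z)) * (a - c + t * b),
        ((mf f c ((s, a, w) + t • (σ, b, z)) : ℝ) : ℂ) * (w + t * z)) : R4)) =
        ((fun t : ℝ => mf f c ((s, a, w) + t • (σ, b, z))) * fun t : ℝ => w.im + t * z.im) := by
      ext t
      simp
    rw [e2] at h2
    have h4 := h3.unique h2
    rw [hma] at h4
    simpa using h4
  -- the derivative of the squared radius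
  set D : ℝ := 2 * ((a - c) * b + w.re * z.re + w.im * z.im) with hD
  have hR : HasDerivAt (fun t : ℝ => rsq c ((s, a, w) + t • (σ, b, z))) D 0 := by
    have e2 : (fun t : ℝ => rsq c ((s, a, w) + t • (σ, b, z))) = fun t : ℝ =>
        (a - c + t * b) ^ 2 + (w.re + t * z.re) ^ 2 + (w.im + t * z.im) ^ 2 := by
      ext t
      rw [rsq_eq]
      simp
      ring
    rw [e2]
    have h3 := (((line_deriv (a - c) b).pow 2).add ((line_deriv w.re z.re).pow 2)).add
      ((line_deriv w.im z.im).pow 2)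
    refine h3.congr_deriv ?_
    simp only [zero_mul, add_zero, hD]
    ring
  have hq : HasDerivAt (fun t : ℝ => f (rsq c ((s, a, w) + t • (σ, b, z))))
      (deriv f (rsq c (s, a, w)) * D) 0 := by
    have h2 : HasDerivAt f (deriv f (rsq c (s, a, w)))
        (rsq c (((s, a, w) : R4) + (0 : ℝ) • ((σ, b, z) : R4))) := by
      rw [hline0]
      exact hf.hasDeriv _
    exact h2.comp (0 : ℝ) hR
  have hq2 : HasDerivAt (fun t : ℝ => f (rsq c ((s, a, w) + t • (σ, b, z)))) 0 0 := by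
    have h2 : HasFDerivAt (rsq c) (fderiv ℝ (rsq c) (rad f c (s, a, w)))
        (rad f c (((s, a, w) : R4) + (0 : ℝ) • ((σ, b, z) : R4))) := by
      rw [hline0]
      exact ((rsq_contDiff c).differentiable (by simp) _).hasFDerivAt
    have hc' : HasDerivAt (fun t : ℝ => rad f c ((s, a, w) + t • (σ, b, z))) 0 0 := by
      simp only [e1]
      exact hc
    have h3 := h2.comp_hasDerivAt (0 : ℝ) hc'
    rw [map_zero] at h3
    refine h3.congr_of_eventuallyEq ?_
    have h4 : ∀ᶠ t : ℝ in 𝓝 0, ((s, a, w) : R4) + t • ((σ, b, z) : R4) ∈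
        {p : R4 | 0 < rsq c p} := by
      have h5 : ContinuousAt (fun t : ℝ => ((s, a, w) : R4) + t • ((σ, b, z) : R4)) 0 :=
        hline.continuousAt
      apply h5.eventually_mem
      rw [hline0]
      exact hnhd
    filter_upwards [h4] with t ht
    exact (rsq_rad hf c _ ht).symm
  have hD0 : D = 0 := by
    have h2 := hq.unique hq2
    rcases mul_eq_zero.1 h2 with h3 | h3
    · exact absurd h3 (hf.pos _).ne'
    · exact h3
  have hR0 : rsq c (s, a, w) = (a - c) ^ 2 + w.re ^ 2 + w.im ^ 2 := rfl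
  have hμ0 : μ = 0 := by
    have h2 : μ * rsq c (s, a, w) = 0 := by
      have h3 : (μ * (a - c) + m * b) * (a - c) + (μ * w.re + m * z.re) * w.re +
          (μ * w.im + m * z.im) * w.im = μ * rsq c (s, a, w) + m * D / 2 := by
        rw [hR0, hD]
        ring
      rw [hb, hre, him, hD0] at h3
      linarith
    rcases mul_eq_zero.1 h2 with h3 | h3
    · exact h3
    · exact absurd h3 hp.ne'
  have key : ∀ x y : ℝ, μ * x + m * y = 0 → y = 0 := by
    intro x y h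
    rw [hμ0, zero_mul, zero_add] at h
    rcases mul_eq_zero.1 h with h3 | h3
    · exact absurd h3 hm0.ne'
    · exact h3
  have hb0 := key _ _ hb
  have hz : z = 0 := Complex.ext (key _ _ hre) (key _ _ him)
  rw [hσ, hb0, hz]
  rfl

theorem rad_inj (hf : Prf f) (c : ℝ) :
    InjOn (rad f c) {p : R4 | 0 < rsq c p} := by
  intro p hp p' hp' h
  have hp : 0 < rsq c p := hp
  have hp' : 0 < rsq c p' := hp'
  have h2 : rsq c p = rsq c p' := by
    apply hf.mono.injective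
    rw [← rsq_rad hf c p hp, ← rsq_rad hf c p' hp', h]
  have h3 : mf f c p = mf f c p' := by
    rw [mf, mf, h2]
  have hm := mf_pos hf c p' hp'
  rw [rad_eq, rad_eq, h3] at h
  obtain ⟨s, a, w⟩ := p
  obtain ⟨s', a', w'⟩ := p'
  simp only [Prod.mk.injEq] at h
  obtain ⟨h4, h5, h6⟩ := h
  have h7 : mf f c (s', a', w') * (a - c) = mf f c (s', a', w') * (a' - c) := by linarith
  have h8 := mul_left_cancel₀ hm.ne' h7
  have h9 : ((mf f c (s', a', w') : ℝ) : ℂ) ≠ 0 := by exact_mod_cast hm.ne'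
  have h10 := mul_left_cancel₀ h9 h6
  have h11 : a = a' := by linarith
  rw [h4, h10, h11]

/-! ### the profile `qe δ` -/

theorem qe_prf {δ : ℝ} (h0 : 0 < δ) (h1 : δ < 1) : Prf (qe δ) := by
  have h2 : ContDiff ℝ ∞ (fun q : ℝ => q + δ) := contDiff_id.add contDiff_const
  refine ⟨((R2.qq_contDiff m_R0 δ).comp h2).sub contDiff_const, fun q => ?_, fun q => ?_⟩
  · have h3 := ((R2.qq_deriv m_R0 δ h0 (q + δ)).comp_add_const q δ).sub_const δ
    have h4 : deriv (qe δ) q = _ := h3.deriv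
    rw [h4]
    exact R2.qq_deriv_pos δ h0 h1 _
  · have h3 := R2.qq_ge m_R0 δ h0 h1 (q + δ)
    unfold qe
    linarith

theorem qe_eq {δ : ℝ} (h0 : 0 < δ) {q : ℝ} (hq : 1 / 25 - δ ≤ q) : qe δ q = q := by
  unfold qe
  rw [R2.qq_eq m_R0 δ h0 (q + δ) (by linarith)]
  ring

theorem qe_low {δ : ℝ} (h0 : 0 < δ) (h1 : δ < 1 / 100) {q : ℝ} (hq : 0 ≤ q) :
    1 / 25 - 3 * δ ≤ qe δ q := by
  have h2 := m_R0.2.2.2.2.1 ((1 / 25 - (q + δ)) / δ)
  have h3 : (1 - δ) * δ * ((1 / 25 - (q + δ)) / δ - 1) ≤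
      (1 - δ) * δ * ramp ((1 / 25 - (q + δ)) / δ) :=
    mul_le_mul_of_nonneg_left h2 (mul_nonneg (by linarith) h0.le)
  have h4 : (1 - δ) * δ * ((1 / 25 - (q + δ)) / δ - 1) = (1 - δ) * (1 / 25 - (q + δ) - δ) := by
    field_simp
  rw [h4] at h3
  have h5 : qe δ q = q + (1 - δ) * δ * ramp ((1 / 25 - (q + δ)) / δ) := by
    simp only [qe, qq]
    ring
  rw [h5]
  have h6 : 0 ≤ δ * q := mul_nonneg h0.le hq
  nlinarith

theorem rade_eq_rad (δ c : ℝ) : rade δ c = rad (qe δ) c := rfl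

theorem rade_id {δ : ℝ} (h0 : 0 < δ) (h1 : δ < 1 / 100) (c : ℝ) {p : R4}
    (hp : 1 / 25 - δ ≤ rsq c p) : rade δ c p = p := by
  have hpos : 0 < rsq c p := by linarith
  have h2 : mf (qe δ) c p = 1 := by
    rw [mf, qe_eq h0 hp, div_self hpos.ne', Real.sqrt_one]
  rw [rade_eq_rad, rad_eq, h2]
  obtain ⟨s, a, w⟩ := p
  simp

theorem far0 {p : R4} (hp : rsq 0 p ≤ 1 / 25) : 16 / 25 ≤ rsq 1 p := by
  rw [rsq_eq] at hp ⊢
  have h1 := sq_nonneg p.2.2.re
  have h2 := sq_nonneg p.2.2.im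
  have h3 : p.2.1 ≤ 1 / 5 := by nlinarith
  nlinarith

theorem far1 {p : R4} (hp : rsq 1 p ≤ 1 / 25) : 16 / 25 ≤ rsq 0 p := by
  rw [rsq_eq] at hp ⊢
  have h1 := sq_nonneg p.2.2.re
  have h2 := sq_nonneg p.2.2.im
  have h3 : 4 / 5 ≤ p.2.1 := by nlinarith
  nlinarith

/-- the two cases -/
theorem Em_cases {δ : ℝ} (h0 : 0 < δ) (h1 : δ < 1 / 100) (p : R4) (hp : 0 < rsq 1 p) :
    (rsq 1 p ≤ 1 / 25 ∧ Em δ p = rade δ 1 p ∧ rsq 1 (rade δ 1 p) = qe δ (rsq 1 p) ∧
      rsq 1 (rade δ 1 p) ≤ 1 / 25) ∨ (1 / 25 < rsq 1 p ∧ rade δ 1 p = p ∧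
      Em δ p = rade δ 0 p) := by
  rcases le_or_gt (rsq 1 p) (1 / 25) with h | h
  · left
    have hf := qe_prf h0 (by linarith : δ < 1)
    have e1 : rsq 1 (rade δ 1 p) = qe δ (rsq 1 p) := rsq_rad hf 1 p hp
    have e2 : rsq 1 (rade δ 1 p) ≤ 1 / 25 := by
      rw [e1]
      have := hf.mono.monotone h
      rwa [qe_eq h0 (q := 1 / 25) (by linarith)] at this
    refine ⟨h, ?_, e1, e2⟩
    exact rade_id h0 h1 0 (by have := far1 e2; linarith)
  · right
    have e1 : rade δ 1 p = p := rade_id h0 h1 1 (by linarith)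
    refine ⟨h, e1, ?_⟩
    unfold Em
    rw [e1]

end RE

open RE in
theorem m_RE : StRE := by
  rintro δ ⟨h0, h1⟩
  have hf := qe_prf h0 (by linarith : δ < 1)
  have emb : ∀ c : ℝ, EmbOn 𝓘(ℝ, R4) (rade δ c) {p | 0 < rsq c p} := by
    intro c
    refine ⟨fun p hp => ?_, rad_inj hf c⟩
    rw [m_A0 R4 (rade δ c) p]
    exact ⟨⟨_, R2.isOpen_pos c, hp, rad_contDiffOn hf c⟩,
      fun v hv => rad_fderiv hf c p v hp hv⟩
  have hmap : ∀ p : R4, 0 < rsq 0 p → 0 < rsq 1 p → 0 < rsq 0 (rade δ 1 p) := by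
    intro p hp0 hp1
    rcases Em_cases h0 h1 p hp1 with ⟨-, -, -, h⟩ | ⟨-, h, -⟩
    · have := far1 h
      linarith
    · rw [h]
      exact hp0
  have hbd : ∀ (c : ℝ) (p : R4), 0 < rsq c p → rsq c p ≤ 1 / 25 →
      rsq c (rade δ c p) = qe δ (rsq c p) ∧ rsq c (rade δ c p) ≤ 1 / 25 := by
    intro c p hp hp2
    have e1 : rsq c (rade δ c p) = qe δ (rsq c p) := rsq_rad hf c p hp
    refine ⟨e1, ?_⟩
    rw [e1]
    have := hf.mono.monotone hp2
    rwa [qe_eq h0 (q := 1 / 25) (by linarith)] at this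
  have hlow : ∀ (c : ℝ) (p : R4), 0 < rsq c p → 1 / 25 - 3 * δ ≤ rsq c (rade δ c p) := by
    intro c p hp
    have e1 : rsq c (rade δ c p) = qe δ (rsq c p) := rsq_rad hf c p hp
    rw [e1]
    exact qe_low h0 h1 hp.le
  have hid0 : ∀ p : R4, rsq 0 p ≤ 1 / 25 → rade δ 1 p = p := fun p hp =>
    rade_id h0 h1 1 (by have := far0 hp; linarith)
  refine ⟨⟨?_, ?_⟩, ?_, fun p => rfl, fun s s' x => rfl, ?_, ?_, ?_, ?_, hf.mono,
    hf.smooth.continuous, fun q hq => qe_eq h0 hq, fun q hq => qe_low h0 h1 hq, ?_⟩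
  · intro p hp
    exact IsLocalDiffeomorphAt.comp (hf := (emb 1).1 p hp.2) (hg := (emb 0).1 _ (hmap p hp.1 hp.2))
  · intro p hp q hq hpq
    exact (emb 1).2 hp.2 hq.2 ((emb 0).2 (hmap p hp.1 hp.2) (hmap q hq.1 hq.2) hpq)
  · intro p hp0 hp1
    unfold Em
    rw [rade_id h0 h1 1 hp1, rade_id h0 h1 0 hp0]
  · intro p hp
    show _ * (_ * p.2.2) = (0 : ℂ)
    rw [hp, mul_zero, mul_zero]
  · intro p hp0 hp1
    rcases Em_cases h0 h1 p hp1 with ⟨-, h2, h3, h4⟩ | ⟨h2, h3, h4⟩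
    · rw [h2]
      have := far1 h4
      exact ⟨by linarith, hlow 1 p hp1⟩
    · rw [h4]
      refine ⟨hlow 0 p hp0, ?_⟩
      rcases le_or_gt (rsq 0 p) (1 / 25) with h5 | h5
      · have := far0 (hbd 0 p hp0 h5).2
        linarith
      · rw [rade_id h0 h1 0 (by linarith)]
        linarith
  · intro p hp hp2
    have e1 : Em δ p = rade δ 0 p := by
      unfold Em
      rw [hid0 p hp2]
    rw [e1]
    exact hbd 0 p hp hp2
  · intro p hp hp2
    rcases Em_cases h0 h1 p hp with ⟨-, h2, h3, h4⟩ | ⟨h2, -, -⟩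
    · rw [h2]
      exact h4
    · linarith
  · intro X hX hQ
    have hQ1 : 1 / 100 ≤ rsq 0 X := by
      rw [hQ]
      exact hf.ge _
    have hQpos : 0 < rsq 0 X := by linarith
    have hnsq : rsq 0 X = X.2.1 ^ 2 + X.2.2.re ^ 2 + X.2.2.im ^ 2 := by
      rw [R2.rsq_eq, sub_zero]
    set κ : ℝ := √((1 / 100) / rsq 0 X) with hκ
    have hκpos : 0 < κ := Real.sqrt_pos.2 (by positivity)
    have hκ2 : κ ^ 2 * rsq 0 X = 1 / 100 := by
      rw [hκ, Real.sq_sqrt (by positivity), div_mul_cancel₀ _ hQpos.ne']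
    refine ⟨κ • X.2, ?_, ?_, ?_⟩
    · have e1 : nsq (κ • X.2) = κ ^ 2 * rsq 0 X := by
        rw [hnsq]
        simp only [nsq, Prod.smul_fst, Prod.smul_snd, smul_eq_mul, Complex.smul_re, Complex.smul_im]
        ring
      rw [e1, hκ2]
    · have e0 : rsq 0 ((1 / 2, κ • X.2) : R4) = 1 / 100 := by
        rw [← hκ2, hnsq, R2.rsq_eq]
        simp only [Prod.smul_fst, Prod.smul_snd, smul_eq_mul, Complex.smul_re, Complex.smul_im]
        ring
      have e1 : Em δ (1 / 2, κ • X.2) = rade δ 0 (1 / 2, κ • X.2) := by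
        unfold Em
        rw [hid0 _ (by rw [e0]; norm_num)]
      have e2 : mf (qe δ) 0 ((1 / 2, κ • X.2) : R4) * κ = 1 := by
        rw [mf, e0, ← hQ, hκ, ← Real.sqrt_mul (by positivity)]
        have : rsq 0 X / (1 / 100) * (1 / 100 / rsq 0 X) = 1 := by
          field_simp
        rw [this, Real.sqrt_one]
      rw [e1, rade_eq_rad, rad_eq]
      refine Prod.ext hX.symm (Prod.ext ?_ ?_)
      · show 0 + mf (qe δ) 0 ((1 / 2, κ • X.2) : R4) * (κ * X.2.1 - 0) = X.2.1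
        rw [zero_add, sub_zero, ← mul_assoc, e2, one_mul]
      · show ((mf (qe δ) 0 ((1 / 2, κ • X.2) : R4) : ℝ) : ℂ) * (κ • X.2.2) = X.2.2
        rw [Complex.real_smul, ← mul_assoc, ← Complex.ofReal_mul, e2, Complex.ofReal_one, one_mul]
    · intro hre h
      have h2 : κ * X.2.2.re = 0 := by
        have : (κ • X.2).2.re = κ * X.2.2.re := by
          simp only [Prod.smul_snd, Complex.smul_re, smul_eq_mul]
        rw [← this]
        exact h
      rcases mul_eq_zero.1 h2 with h3 | h3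
      · exact hκpos.ne' h3
      · exact hre h3

end Pool.Agent.Helper34.BI


end
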