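import Pool.Agent.Helper65.Barb.Defs
import Pool.Agent.Helper70.BI.C.P05

/-!
# Project BI (MP_8e98f2_gt): collected modules, part 16

The contents of the modules
* Helper18.BI.M_S4
* Helper18.BI.M_N1
* Helper34.BI.M_D1b

in one file, so that the whole proof builds in a short time.
-/

namespace Pool.Agent.Helper18.BI
end Pool.Agent.Helper18.BI

namespace Pool.Agent.Helper27.BI
end Pool.Agent.Helper27.BI

namespace Pool.Agent.Helper65.Barb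
end Pool.Agent.Helper65.Barb


/-! ## Helper18.BI.M_S4 -/

section

/-!
# Project BI: module S4 (the limit of the compression; compactness)
-/

set_option autoImplicit false

open scoped Manifold ContDiff Topology ComplexConjugate
open Set Pool.Agent.Helper65.Barb

namespace Pool.Agent.Helper18.BI

namespace S4

theorem S4_a1 {a : ℝ} (h : a ≤ 4 / 5) : a - 1 ≤ -(1 / 5) := by linarith
theorem S4_a2 {a : ℝ} (h : 4 / 5 ≤ a) : -(1 / 5) ≤ a - 1 := by linarith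
theorem S4_a3 {a : ℝ} (h : a ≤ 6 / 5) : a - 1 ≤ 1 / 5 := by linarith
theorem S4_a4 {a : ℝ} (h : 6 / 5 ≤ a) : 1 / 5 ≤ a - 1 := by linarith
theorem S4_a5 {a : ℝ} (h : a ≤ 1 / 5) : a - 1 ≤ -(4 / 5) := by linarith
theorem S4_n1 : (-(1 / 5) : ℝ) ≤ 1 / 5 := by norm_num
theorem S4_n2 : (1 / 5 : ℝ) ≤ 4 / 5 := by norm_num
theorem S4_n3 : (4 / 5 : ℝ) ≤ 6 / 5 := by norm_num
theorem S4_n4 : (-(1 / 5) : ℝ) ≤ 0 := by norm_num
theorem S4_n5 : (0 : ℝ) ≤ 6 / 5 := by norm_num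
theorem S4_n6 : ¬ (1 / 5 : ℝ) ≤ -(1 / 5) := by norm_num
theorem S4_n7 : ¬ (6 / 5 : ℝ) ≤ 4 / 5 := by norm_num
theorem S4_a6 {a : ℝ} (h : a - 1 = 1 / 5) : 6 / 5 = a := by linarith
theorem S4_f1 (k : ℝ) : (-(1 / 5) - 0 : ℝ) ^ 2 + 0 ^ 2 * k = 1 / 25 := by ring
theorem S4_f2 (k : ℝ) : (6 / 5 - 1 : ℝ) ^ 2 + 0 ^ 2 * k = 1 / 25 := by ring
theorem S4_mid {a a' t m : ℝ} (h : m = (1 - t) * a' + t * a) (h3 : a' = a) : m = a := by
  rw [h, h3]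
  ring
theorem S4_sn1 : ((1 / 5 : ℝ) ^ 2 = 1 / 25) := by norm_num
theorem S4_sn2 : (1 / 5 : ℝ) * (1 / 5) = 1 / 25 := by norm_num
theorem S4_sn3 : (1 / 25 : ℝ) < 4 / 5 * (4 / 5) := by norm_num

theorem S4_ge1 {x : ℝ} (h : 1 / 5 ≤ x) : 1 / 25 ≤ x ^ 2 := by
  rw [← S4_sn2, pow_two]
  exact mul_self_le_mul_self (by norm_num) h

theorem S4_ge2 {x : ℝ} (h : x ≤ -(1 / 5)) : 1 / 25 ≤ x ^ 2 := by
  rw [← neg_sq]
  exact S4_ge1 (le_neg_of_le_neg h)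

theorem S4_gt1 {x : ℝ} (h : 4 / 5 ≤ x) : 1 / 25 < x ^ 2 := by
  rw [pow_two]
  exact S4_sn3.trans_le (mul_self_le_mul_self (by norm_num) h)

theorem S4_gt2 {x : ℝ} (h : x ≤ -(4 / 5)) : 1 / 25 < x ^ 2 := by
  rw [← neg_sq]
  exact S4_gt1 (le_neg_of_le_neg h)

theorem S4_le {x : ℝ} (h0 : -(1 / 5) ≤ x) (h1 : x ≤ 1 / 5) : x ^ 2 ≤ 1 / 25 := by
  rw [← S4_sn1]
  exact sq_le_sq.2 ((abs_le.2 ⟨h0, h1⟩).trans (le_abs_self _))

theorem S4_ub {x : ℝ} (h : x ^ 2 ≤ 1 / 25) : -(1 / 5) ≤ x ∧ x ≤ 1 / 5 := by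
  rw [← S4_sn1] at h
  exact abs_le.1 (abs_le_of_sq_le_sq h (by norm_num))

theorem S4_eq1 {x N : ℝ} (h : x ≤ -(1 / 5)) (h2 : x ^ 2 + N ≤ 1 / 25) (hN : 0 ≤ N) :
    x = -(1 / 5) ∧ N ≤ 0 :=
  ⟨le_antisymm h (S4_ub ((le_add_of_nonneg_right hN).trans h2)).1,
    le_of_add_le_add_left (a := x ^ 2) (h2.trans ((S4_ge2 h).trans (add_zero _).ge))⟩

theorem S4_eq2 {x N : ℝ} (h : 1 / 5 ≤ x) (h2 : x ^ 2 + N ≤ 1 / 25) (hN : 0 ≤ N) :
    x = 1 / 5 ∧ N ≤ 0 :=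
  ⟨le_antisymm (S4_ub ((le_add_of_nonneg_right hN).trans h2)).2 h,
    le_of_add_le_add_left (a := x ^ 2) (h2.trans ((S4_ge1 h).trans (add_zero _).ge))⟩

theorem S4_m1 {t f : ℝ} (ht : 0 ≤ t) (hf : f ≤ 1) : f ≤ (1 - t) * f + t := by
  have h := mul_nonneg ht (sub_nonneg.2 hf)
  linarith

theorem S4_m2 {t f : ℝ} (ht : t ≤ 1) (hf : f ≤ 1) : (1 - t) * f + t ≤ 1 := by
  have h := mul_nonneg (sub_nonneg.2 ht) (sub_nonneg.2 hf)
  linarith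

theorem S4_nle {x N : ℝ} (h : 1 / 25 < x ^ 2) (hN : 0 ≤ N) : ¬ x ^ 2 + N ≤ 1 / 25 :=
  not_le.2 (h.trans_le (le_add_of_nonneg_right hN))

theorem rsq_eq (c : ℝ) (p : R4) : rsq c p = (p.2.1 - c) ^ 2 + Complex.normSq p.2.2 := by
  simp only [rsq, nsq, Complex.normSq_apply]
  ring

theorem sqrt0 (u : ℝ) : √(u ^ 2 + (0 : ℝ) ^ 2) = |u| := by
  rw [zero_pow two_ne_zero, add_zero, Real.sqrt_sq_eq_abs]

theorem fac0 (g k : ℝ) (hg : 0 ≤ g) (hk : 0 ≤ k) :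
    ff 0 g k ≤ 1 ∧ (g = 0 → ff 0 g k = 0) ∧ (k ≤ g → 0 < g → ff 0 g k = 1) ∧
      (g ≤ k → ff 0 g k ^ 2 * k = g) := by
  have e : ff 0 g k = √(2 * g / (k + g + |k - g|)) := by
    unfold ff
    rw [mul_zero, zero_mul, add_zero, add_zero, sqrt0]
  rw [e]
  have h1 : g - k ≤ |k - g| := by
    rw [abs_sub_comm]; exact le_abs_self _
  refine ⟨?_, ?_, ?_, ?_⟩
  · rw [Real.sqrt_le_one]
    exact div_le_one_of_le₀ (by linarith) (by positivity)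
  · intro h
    rw [h, mul_zero, zero_div, Real.sqrt_zero]
  · intro h h0
    rw [abs_of_nonpos (by linarith), show k + g + -(k - g) = 2 * g by ring,
      div_self (by linarith), Real.sqrt_one]
  · intro h
    rw [abs_of_nonneg (by linarith), show k + g + (k - g) = 2 * k by ring,
      mul_div_mul_left _ _ two_ne_zero, Real.sq_sqrt (div_nonneg hg hk)]
    rcases hk.eq_or_lt with h0 | h0
    · rw [← h0] at h ⊢
      rw [div_zero, zero_mul]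
      linarith
    · exact div_mul_cancel₀ _ h0.ne'

theorem prof0 (a : ℝ) : prof 0 a = ((1 / 25 - a ^ 2) + |1 / 25 - a ^ 2|) / 2 +
    ((1 / 25 - (a - 1) ^ 2) + |1 / 25 - (a - 1) ^ 2|) / 2 := by
  unfold prof
  rw [sqrt0, sqrt0]

theorem axc0 (a : ℝ) : axc 0 a = 1 / 2 + (|a + 1 / 5| - |a - 6 / 5|) / 2 := by
  unfold axc
  rw [sqrt0, sqrt0]

theorem S4_pos {x : ℝ} (h : 0 ≤ x) : (x + |x|) / 2 = x := by
  rw [abs_of_nonneg h, add_self_div_two]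

theorem S4_neg {x : ℝ} (h : x ≤ 0) : (x + |x|) / 2 = 0 := by
  rw [abs_of_nonpos h, add_neg_cancel, zero_div]

theorem prof0_out {a : ℝ} (h0 : 1 / 25 ≤ a ^ 2) (h1 : 1 / 25 ≤ (a - 1) ^ 2) : prof 0 a = 0 := by
  rw [prof0, S4_neg (sub_nonpos.2 h0), S4_neg (sub_nonpos.2 h1), add_zero]

theorem prof0_zero {a : ℝ} (h0 : a ^ 2 ≤ 1 / 25) (h1 : 1 / 25 ≤ (a - 1) ^ 2) :
    prof 0 a = 1 / 25 - a ^ 2 := by
  rw [prof0, S4_pos (sub_nonneg.2 h0), S4_neg (sub_nonpos.2 h1), add_zero]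

theorem prof0_one {a : ℝ} (h0 : 1 / 25 ≤ a ^ 2) (h1 : (a - 1) ^ 2 ≤ 1 / 25) :
    prof 0 a = 1 / 25 - (a - 1) ^ 2 := by
  rw [prof0, S4_neg (sub_nonpos.2 h0), S4_pos (sub_nonneg.2 h1), zero_add]

theorem axc0_mid {a : ℝ} (h0 : -(1 / 5) ≤ a) (h1 : a ≤ 6 / 5) : axc 0 a = a := by
  rw [axc0, abs_of_nonneg (by linarith), abs_of_nonpos (by linarith)]
  ring

theorem axc0_left {a : ℝ} (h0 : a ≤ -(1 / 5)) : axc 0 a = -(1 / 5) := by
  rw [axc0, abs_of_nonpos (by linarith), abs_of_nonpos (by linarith)]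
  ring

theorem axc0_right {a : ℝ} (h0 : 6 / 5 ≤ a) : axc 0 a = 6 / 5 := by
  rw [axc0, abs_of_nonneg (by linarith), abs_of_nonneg (by linarith)]
  ring

theorem sq0_eq (p : R4) :
    sq 0 p = (1 / 2, axc 0 p.2.1, ((ff 0 (prof 0 p.2.1) (Complex.normSq p.2.2) : ℝ) : ℂ) * p.2.2) := by
  unfold sq
  rw [zero_mul, add_zero]
  rfl

/-- the five cases -/
theorem cases0 (p : R4) : ∃ a' f : ℝ, sq 0 p = (1 / 2, a', (f : ℂ) * p.2.2) ∧ 0 ≤ f ∧ f ≤ 1 ∧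
    ((p.2.1 ≤ -(1 / 5) ∧ a' = -(1 / 5) ∧ f = 0) ∨
     (-(1 / 5) ≤ p.2.1 ∧ p.2.1 ≤ 1 / 5 ∧ a' = p.2.1 ∧
      (Complex.normSq p.2.2 ≤ 1 / 25 - p.2.1 ^ 2 → (f : ℂ) * p.2.2 = p.2.2) ∧
      (1 / 25 - p.2.1 ^ 2 ≤ Complex.normSq p.2.2 →
        f ^ 2 * Complex.normSq p.2.2 = 1 / 25 - p.2.1 ^ 2)) ∨
     (1 / 5 ≤ p.2.1 ∧ p.2.1 ≤ 4 / 5 ∧ a' = p.2.1 ∧ f = 0) ∨
     (4 / 5 ≤ p.2.1 ∧ p.2.1 ≤ 6 / 5 ∧ a' = p.2.1 ∧
      (Complex.normSq p.2.2 ≤ 1 / 25 - (p.2.1 - 1) ^ 2 → (f : ℂ) * p.2.2 = p.2.2) ∧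
      (1 / 25 - (p.2.1 - 1) ^ 2 ≤ Complex.normSq p.2.2 →
        f ^ 2 * Complex.normSq p.2.2 = 1 / 25 - (p.2.1 - 1) ^ 2)) ∨
     (6 / 5 ≤ p.2.1 ∧ a' = 6 / 5 ∧ f = 0)) := by
  have hk := Complex.normSq_nonneg p.2.2
  have key : ∀ g : ℝ, 0 ≤ g → ((Complex.normSq p.2.2 ≤ g →
      ((ff 0 g (Complex.normSq p.2.2) : ℝ) : ℂ) * p.2.2 = p.2.2) ∧
      (g ≤ Complex.normSq p.2.2 →
        ff 0 g (Complex.normSq p.2.2) ^ 2 * Complex.normSq p.2.2 = g)) := by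
    intro g hg
    obtain ⟨-, -, h1, h2⟩ := fac0 g _ hg hk
    refine ⟨fun h => ?_, h2⟩
    rcases hg.eq_or_lt with h0 | h0
    · have h3 : Complex.normSq p.2.2 = 0 := le_antisymm (h.trans h0.symm.le) hk
      rw [Complex.normSq_eq_zero.1 h3, mul_zero]
    · rw [h1 h h0, Complex.ofReal_one, one_mul]
  rcases le_total p.2.1 (-(1 / 5)) with h1 | h1
  · have hp : prof 0 p.2.1 = 0 := prof0_out (S4_ge2 h1) (S4_ge2 (S4_a1 (h1.trans (S4_n1.trans S4_n2))))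
    obtain ⟨h2, h3, -, -⟩ := fac0 0 _ le_rfl hk
    refine ⟨-(1 / 5), 0, ?_, le_rfl, zero_le_one, Or.inl ⟨h1, rfl, rfl⟩⟩
    rw [sq0_eq, axc0_left h1, hp, h3 rfl]
  rcases le_total p.2.1 (1 / 5) with h2 | h2
  · have h0 := S4_le h1 h2
    have hp : prof 0 p.2.1 = 1 / 25 - p.2.1 ^ 2 := prof0_zero h0 (S4_ge2 (S4_a1 (h2.trans S4_n2)))
    have hg : 0 ≤ 1 / 25 - p.2.1 ^ 2 := sub_nonneg.2 h0
    refine ⟨p.2.1, ff 0 (1 / 25 - p.2.1 ^ 2) (Complex.normSq p.2.2), ?_, Real.sqrt_nonneg _,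
      (fac0 _ _ hg hk).1, Or.inr (Or.inl ⟨h1, h2, rfl, (key _ hg).1, (key _ hg).2⟩)⟩
    rw [sq0_eq, axc0_mid h1 (h2.trans (S4_n2.trans S4_n3)), hp]
  rcases le_total p.2.1 (4 / 5) with h3 | h3
  · have hp : prof 0 p.2.1 = 0 := prof0_out (S4_ge1 h2) (S4_ge2 (S4_a1 h3))
    obtain ⟨h4, h5, -, -⟩ := fac0 0 _ le_rfl hk
    refine ⟨p.2.1, 0, ?_, le_rfl, zero_le_one, Or.inr (Or.inr (Or.inl ⟨h2, h3, rfl, rfl⟩))⟩
    rw [sq0_eq, axc0_mid h1 (h3.trans S4_n3), hp, h5 rfl]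
  rcases le_total p.2.1 (6 / 5) with h4 | h4
  · have h0 : (p.2.1 - 1) ^ 2 ≤ 1 / 25 := S4_le (S4_a2 h3) (S4_a3 h4)
    have hp : prof 0 p.2.1 = 1 / 25 - (p.2.1 - 1) ^ 2 := prof0_one (S4_ge1 h2) h0
    have hg : 0 ≤ 1 / 25 - (p.2.1 - 1) ^ 2 := sub_nonneg.2 h0
    refine ⟨p.2.1, ff 0 (1 / 25 - (p.2.1 - 1) ^ 2) (Complex.normSq p.2.2), ?_, Real.sqrt_nonneg _,
      (fac0 _ _ hg hk).1,
      Or.inr (Or.inr (Or.inr (Or.inl ⟨h3, h4, rfl, (key _ hg).1, (key _ hg).2⟩)))⟩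
    rw [sq0_eq, axc0_mid h1 h4, hp]
  · have hp : prof 0 p.2.1 = 0 := prof0_out (S4_ge1 h2) (S4_ge1 (S4_a4 h4))
    obtain ⟨h5, h6, -, -⟩ := fac0 0 _ le_rfl hk
    refine ⟨6 / 5, 0, ?_, le_rfl, zero_le_one,
      Or.inr (Or.inr (Or.inr (Or.inr ⟨h4, rfl, rfl⟩)))⟩
    rw [sq0_eq, axc0_right h4, hp, h6 rfl]

theorem normSq_smul (f : ℝ) (w : ℂ) :
    Complex.normSq ((f : ℂ) * w) = f ^ 2 * Complex.normSq w := by
  rw [Complex.normSq_mul, Complex.normSq_ofReal]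
  ring

theorem ext_SP (p : R4) (hp : p ∈ Ext) : sq 0 p ∈ SP := by
  obtain ⟨hp0, hp1⟩ := hp
  rw [rsq_eq] at hp0 hp1
  obtain ⟨a', f, e, hf0, hf1, hc⟩ := cases0 p
  rw [e]
  rcases hc with ⟨h1, h2, h3⟩ | ⟨h1, h2, h3, -, h5⟩ | ⟨h1, h2, h3, h4⟩ | ⟨h1, h2, h3, -, h5⟩ |
    ⟨h1, h2, h3⟩
  · left; left
    refine ⟨rfl, ?_⟩
    rw [rsq_eq, normSq_smul, h2, h3]
    exact S4_f1 _
  · left; left
    refine ⟨rfl, ?_⟩
    rw [sub_zero] at hp0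
    rw [rsq_eq, normSq_smul, h5 (sub_le_iff_le_add'.2 (S4_sn1.ge.trans hp0)), h3]
    show (p.2.1 - 0) ^ 2 + _ = _
    rw [sub_zero, add_sub_cancel]
  · right
    refine ⟨rfl, ?_, ?_, ?_⟩
    · exact h1.trans h3.ge
    · exact h3.le.trans h2
    · show (f : ℂ) * p.2.2 = 0
      rw [h4, Complex.ofReal_zero, zero_mul]
  · left; right
    refine ⟨rfl, ?_⟩
    rw [rsq_eq, normSq_smul, h5 (sub_le_iff_le_add'.2 (S4_sn1.ge.trans hp1)), h3]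
    show (p.2.1 - 1) ^ 2 + _ = _
    rw [add_sub_cancel]
  · left; right
    refine ⟨rfl, ?_⟩
    rw [rsq_eq, normSq_smul, h2, h3]
    exact S4_f2 _

theorem mem_FB (p : R4) : sq 0 p ∈ FB := by
  obtain ⟨a', f, e, hf0, hf1, hc⟩ := cases0 p
  have hk := Complex.normSq_nonneg p.2.2
  rw [e]
  rcases hc with ⟨h1, h2, h3⟩ | ⟨h1, h2, h3, h4, h5⟩ | ⟨h1, h2, h3, h4⟩ | ⟨h1, h2, h3, h4, h5⟩ |
    ⟨h1, h2, h3⟩
  · left; left
    refine ⟨rfl, ?_⟩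
    rw [rsq_eq, normSq_smul, h2, h3]
    exact (S4_f1 _).le
  · left; left
    refine ⟨rfl, ?_⟩
    rw [rsq_eq]
    show (a' - 0) ^ 2 + Complex.normSq ((f : ℂ) * p.2.2) ≤ 1 / 25
    rcases le_total (Complex.normSq p.2.2) (1 / 25 - p.2.1 ^ 2) with h6 | h6
    · rw [h4 h6, h3, sub_zero]
      exact le_sub_iff_add_le'.1 h6
    · rw [normSq_smul, h5 h6, h3, sub_zero, add_sub_cancel]
  · right
    refine ⟨rfl, ?_, ?_, ?_⟩
    · exact h1.trans h3.ge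
    · exact h3.le.trans h2
    · show (f : ℂ) * p.2.2 = 0
      rw [h4, Complex.ofReal_zero, zero_mul]
  · left; right
    refine ⟨rfl, ?_⟩
    rw [rsq_eq]
    show (a' - 1) ^ 2 + Complex.normSq ((f : ℂ) * p.2.2) ≤ 1 / 25
    rcases le_total (Complex.normSq p.2.2) (1 / 25 - (p.2.1 - 1) ^ 2) with h6 | h6
    · rw [h4 h6, h3]
      exact le_sub_iff_add_le'.1 h6
    · rw [normSq_smul, h5 h6, h3, add_sub_cancel]
  · left; right
    refine ⟨rfl, ?_⟩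
    rw [rsq_eq, normSq_smul, h2, h3]
    exact (S4_f2 _).le

theorem fixed (p : R4) (hp : rsq 0 p ≤ 1 / 25 ∨ rsq 1 p ≤ 1 / 25 ∨
    (1 / 5 ≤ p.2.1 ∧ p.2.1 ≤ 4 / 5 ∧ p.2.2 = 0)) : sq 0 p = (1 / 2, p.2) := by
  obtain ⟨a', f, e, hf0, hf1, hc⟩ := cases0 p
  have hk := Complex.normSq_nonneg p.2.2
  have main : a' = p.2.1 ∧ (f : ℂ) * p.2.2 = p.2.2 → sq 0 p = (1 / 2, p.2) := by
    rintro ⟨h1, h2⟩
    rw [e, h1, h2]
  apply main
  rw [rsq_eq, rsq_eq, sub_zero] at hp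
  have hz : Complex.normSq p.2.2 ≤ 0 → p.2.2 = 0 := fun h =>
    Complex.normSq_eq_zero.1 (le_antisymm h hk)
  rcases hc with ⟨h1, h2, h3⟩ | ⟨h1, h2, h3, h4, h5⟩ | ⟨h1, h2, h3, h4⟩ | ⟨h1, h2, h3, h4, h5⟩ |
    ⟨h1, h2, h3⟩
  · rcases hp with hp | hp | hp
    · obtain ⟨ha, hn⟩ := S4_eq1 h1 hp hk
      rw [hz hn, mul_zero]
      exact ⟨h2.trans ha.symm, rfl⟩
    · exact absurd hp (S4_nle (S4_gt2 (S4_a5 (h1.trans S4_n1))) hk)
    · exact absurd (hp.1.trans h1) S4_n6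
  · refine ⟨h3, ?_⟩
    rcases hp with hp | hp | hp
    · exact h4 (le_sub_iff_add_le'.2 hp)
    · exact absurd hp (S4_nle (S4_gt2 (S4_a5 h2)) hk)
    · rw [hp.2.2, mul_zero]
  · refine ⟨h3, ?_⟩
    rcases hp with hp | hp | hp
    · rw [hz (S4_eq2 h1 hp hk).2, mul_zero]
    · rw [hz (S4_eq1 (S4_a1 h2) hp hk).2, mul_zero]
    · rw [hp.2.2, mul_zero]
  · refine ⟨h3, ?_⟩
    rcases hp with hp | hp | hp
    · exact absurd hp (S4_nle (S4_gt1 h1) hk)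
    · exact h4 (le_sub_iff_add_le'.2 hp)
    · rw [hp.2.2, mul_zero]
  · rcases hp with hp | hp | hp
    · exact absurd hp (S4_nle (S4_gt1 (S4_n3.trans h1)) hk)
    · obtain ⟨ha, hn⟩ := S4_eq2 (S4_a4 h1) hp hk
      rw [hz hn, mul_zero]
      exact ⟨h2.trans (S4_a6 ha), rfl⟩
    · exact absurd (h1.trans hp.2.1) S4_n7

theorem fixed_FB (p : R4) (hp : p ∈ FB) : sq 0 p = p := by
  have h1 : p.1 = 1 / 2 := by
    rcases hp with (hp | hp) | hp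
    · exact hp.1
    · exact hp.1
    · exact hp.1
  have h2 : sq 0 p = (1 / 2, p.2) := by
    apply fixed
    rcases hp with (hp | hp) | hp
    · exact Or.inl hp.2
    · exact Or.inr (Or.inl hp.2)
    · exact Or.inr (Or.inr ⟨hp.2.1, hp.2.2.1, hp.2.2.2⟩)
  rw [h2]
  exact Prod.ext h1.symm rfl

theorem S4_lo1 {x N : ℝ} (h : 1 / 5 ≤ x) (hN : 0 ≤ N) : (1 / 5) ^ 2 ≤ x ^ 2 + N :=
  le_add_of_le_of_nonneg (pow_le_pow_left₀ (by norm_num) h 2) hN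

theorem S4_lo2 {x N : ℝ} (h : x ≤ -(1 / 5)) (hN : 0 ≤ N) : (1 / 5) ^ 2 ≤ x ^ 2 + N := by
  have h2 := S4_lo1 (x := -x) (by linarith only [h]) hN
  rwa [neg_sq] at h2

theorem S4_c1 {a t : ℝ} (ht0 : 0 ≤ t) (ht1 : t ≤ 1) (h : a ≤ -(1 / 5)) :
    (1 - t) * (-(1 / 5)) + t * a ≤ -(1 / 5) ∧ a ≤ (1 - t) * (-(1 / 5)) + t * a := by
  have h1 := mul_nonneg ht0 (sub_nonneg.2 h)
  have h2 := mul_nonneg (sub_nonneg.2 ht1) (sub_nonneg.2 h)
  exact ⟨by linarith only [h1], by linarith only [h2]⟩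

theorem S4_c5 {a t : ℝ} (ht0 : 0 ≤ t) (ht1 : t ≤ 1) (h : 6 / 5 ≤ a) :
    6 / 5 ≤ (1 - t) * (6 / 5) + t * a ∧ (1 - t) * (6 / 5) + t * a ≤ a := by
  have h1 := mul_nonneg ht0 (sub_nonneg.2 h)
  have h2 := mul_nonneg (sub_nonneg.2 ht1) (sub_nonneg.2 h)
  exact ⟨by linarith only [h1], by linarith only [h2]⟩

theorem S4_sq {x y : ℝ} (h : x ≤ 0) (h2 : y ≤ x) : x ^ 2 ≤ y ^ 2 := by
  have h3 := pow_le_pow_left₀ (neg_nonneg.2 h) (neg_le_neg h2) 2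
  rwa [neg_sq, neg_sq] at h3

theorem S4_core {a a' f t k N m : ℝ} (ht0 : 0 ≤ t) (ht1 : t ≤ 1)
    (hN : 0 ≤ N) (hfN : f ^ 2 * k ≤ N)
    (hp0 : (1 / 5) ^ 2 ≤ a ^ 2 + k) (hp1 : (1 / 5) ^ 2 ≤ (a - 1) ^ 2 + k)
    (hm : m = (1 - t) * a' + t * a)
    (hc : (a ≤ -(1 / 5) ∧ a' = -(1 / 5)) ∨
     (-(1 / 5) ≤ a ∧ a ≤ 1 / 5 ∧ a' = a ∧ (1 / 25 - a ^ 2 ≤ k → f ^ 2 * k = 1 / 25 - a ^ 2)) ∨
     (1 / 5 ≤ a ∧ a ≤ 4 / 5 ∧ a' = a) ∨
     (4 / 5 ≤ a ∧ a ≤ 6 / 5 ∧ a' = a ∧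
      (1 / 25 - (a - 1) ^ 2 ≤ k → f ^ 2 * k = 1 / 25 - (a - 1) ^ 2)) ∨
     (6 / 5 ≤ a ∧ a' = 6 / 5)) :
    m ^ 2 ≤ a ^ 2 ∧ (1 / 5) ^ 2 ≤ m ^ 2 + N ∧ (1 / 5) ^ 2 ≤ (m - 1) ^ 2 + N := by
  rcases hc with ⟨h1, h2⟩ | ⟨h1, h2, h3, h5⟩ | ⟨h1, h2, h3⟩ | ⟨h1, h2, h3, h5⟩ | ⟨h1, h2⟩
  · obtain ⟨h4, h6⟩ := S4_c1 ht0 ht1 h1
    rw [h2] at hm
    rw [← hm] at h4 h6
    exact ⟨S4_sq (h4.trans S4_n4) h6, S4_lo2 h4 hN,
      S4_lo2 (S4_a1 (h4.trans (S4_n1.trans S4_n2))) hN⟩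
  · have h6 := h5 (sub_le_iff_le_add'.2 (S4_sn1.ge.trans hp0))
    rw [h6] at hfN
    rw [S4_mid hm h3]
    exact ⟨le_rfl, S4_sn1.le.trans (sub_le_iff_le_add'.1 hfN), S4_lo2 (S4_a1 (h2.trans S4_n2)) hN⟩
  · rw [S4_mid hm h3]
    exact ⟨le_rfl, S4_lo1 h1 hN, S4_lo2 (S4_a1 h2) hN⟩
  · have h6 := h5 (sub_le_iff_le_add'.2 (S4_sn1.ge.trans hp1))
    rw [h6] at hfN
    rw [S4_mid hm h3]
    exact ⟨le_rfl, S4_lo1 (S4_n2.trans h1) hN, S4_sn1.le.trans (sub_le_iff_le_add'.1 hfN)⟩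
  · obtain ⟨h4, h6⟩ := S4_c5 ht0 ht1 h1
    rw [h2] at hm
    rw [← hm] at h4 h6
    exact ⟨pow_le_pow_left₀ (S4_n5.trans h4) h6 2, S4_lo1 ((S4_n2.trans S4_n3).trans h4) hN,
      S4_lo1 (S4_a4 h4) hN⟩

theorem S4_s {t s : ℝ} (ht0 : 0 ≤ t) (ht1 : t ≤ 1) (h0 : 0 ≤ s) (h1 : s ≤ 1) :
    -1 ≤ (1 - t) * (1 / 2) + t * s ∧ (1 - t) * (1 / 2) + t * s ≤ 2 := by
  have h2 := mul_nonneg ht0 h0
  have h3 := mul_le_mul_of_nonneg_left h1 ht0
  exact ⟨by linarith only [h2, ht0, ht1], by linarith only [h3, ht0, ht1]⟩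

theorem S4_hom (t : ℝ) (p : R4) (a' f : ℝ) (e : sq 0 p = (1 / 2, a', (f : ℂ) * p.2.2)) :
    hom 0 (t, p) = ((1 - t) * (1 / 2) + t * p.1, (1 - t) * a' + t * p.2.1,
      (((1 - t) * f + t : ℝ) : ℂ) * p.2.2) := by
  show (1 - t) • sq 0 p + t • p = _
  rw [e]
  refine Prod.ext rfl (Prod.ext rfl ?_)
  show (1 - t) • ((f : ℂ) * p.2.2) + t • p.2.2 = _
  rw [Complex.real_smul, Complex.real_smul]
  push_cast
  ring

theorem S4_EB (s a m : ℝ) (w : ℂ) (h0 : -1 ≤ s) (h1 : s ≤ 2)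
    (h2 : a ^ 2 + m ^ 2 * Complex.normSq w ≤ (9 / 2) ^ 2)
    (h3 : (1 / 5) ^ 2 ≤ a ^ 2 + m ^ 2 * Complex.normSq w)
    (h4 : (1 / 5) ^ 2 ≤ (a - 1) ^ 2 + m ^ 2 * Complex.normSq w) :
    ((s, a, (m : ℂ) * w) : R4) ∈ EB := by
  refine ⟨⟨h0, h1, ?_⟩, ?_, ?_⟩
  · rw [rsq_eq, normSq_smul, sub_zero]
    exact h2
  · rw [rsq_eq, normSq_smul, sub_zero]
    exact h3
  · rw [rsq_eq, normSq_smul]
    exact h4

theorem hom_mem (p : R4) (hp : p ∈ bsupp) (t : ℝ) (ht : t ∈ Icc (0 : ℝ) 1) :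
    hom 0 (t, p) ∈ EB := by
  obtain ⟨⟨hs0, hs1, hb⟩, hp0, hp1⟩ := hp
  obtain ⟨ht0, ht1⟩ := ht
  obtain ⟨a', f, e, hf0, hf1, hc⟩ := cases0 p
  have hk := Complex.normSq_nonneg p.2.2
  rw [rsq_eq] at hb hp0 hp1
  rw [sub_zero] at hb hp0
  rw [S4_hom t p a' f e]
  have hmf : f ≤ (1 - t) * f + t := S4_m1 ht0 hf1
  have hm1 : (1 - t) * f + t ≤ 1 := S4_m2 ht1 hf1
  have hm0 : 0 ≤ (1 - t) * f + t := hf0.trans hmf
  have hmk : ((1 - t) * f + t) ^ 2 * Complex.normSq p.2.2 ≤ Complex.normSq p.2.2 :=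
    mul_le_of_le_one_left hk (pow_le_one₀ hm0 hm1)
  have hfk : f ^ 2 * Complex.normSq p.2.2 ≤ ((1 - t) * f + t) ^ 2 * Complex.normSq p.2.2 :=
    mul_le_mul_of_nonneg_right (pow_le_pow_left₀ hf0 hmf 2) hk
  have hmk0 : 0 ≤ ((1 - t) * f + t) ^ 2 * Complex.normSq p.2.2 := mul_nonneg (sq_nonneg _) hk
  have hc' := S4_core (a := p.2.1) (a' := a') (f := f) (k := Complex.normSq p.2.2) ht0 ht1 hmk0 hfk
    hp0 hp1 rfl (by
      rcases hc with h | h | h | h | h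
      · exact Or.inl ⟨h.1, h.2.1⟩
      · exact Or.inr (Or.inl ⟨h.1, h.2.1, h.2.2.1, h.2.2.2.2⟩)
      · exact Or.inr (Or.inr (Or.inl ⟨h.1, h.2.1, h.2.2.1⟩))
      · exact Or.inr (Or.inr (Or.inr (Or.inl ⟨h.1, h.2.1, h.2.2.1, h.2.2.2.2⟩)))
      · exact Or.inr (Or.inr (Or.inr (Or.inr ⟨h.1, h.2.1⟩))))
  obtain ⟨c1, c2, c3⟩ := hc'
  obtain ⟨s1, s2⟩ := S4_s ht0 ht1 hs0 hs1
  exact S4_EB _ _ _ _ s1 s2 ((add_le_add c1 hmk).trans (hb.trans (by norm_num))) c2 c3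

theorem S4_half : (-1 : ℝ) ≤ 1 / 2 ∧ (1 / 2 : ℝ) ≤ 2 := by constructor <;> norm_num

theorem S4_num : (1 / 25 : ℝ) ≤ (9 / 2) ^ 2 ∧ ((1 / 5 : ℝ) ^ 2 = 1 / 25) := by
  constructor <;> norm_num

theorem S4_one {a : ℝ} (h : a ^ 2 ≤ 1 / 25) : 1 / 25 ≤ 1 / 25 - 2 * a + 1 := by
  have := (S4_ub h).2
  linarith only [this]

theorem S4_two {a N r s : ℝ} (h2 : r = 1 / 25) (h3 : r = s - 2 * a + 1)
    (h5 : r = (a - 1) ^ 2 + N) (hN : 0 ≤ N) : s ≤ (9 / 2) ^ 2 ∧ 1 / 25 ≤ s := by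
  have h := S4_ub (x := a - 1) (by linarith only [h2, h5, hN])
  exact ⟨by linarith only [h.2, h3, h2], by linarith only [h.1, h3, h2]⟩

theorem SP_EB : SP ⊆ EB := by
  rintro p hp
  have hk := Complex.normSq_nonneg p.2.2
  rcases hp with (hp | hp) | hp
  · obtain ⟨h1, h2⟩ := hp
    have h3 := rsq_one_eq p
    have h4 := sq_le_rsq p
    rw [h2] at h3 h4
    refine ⟨⟨h1.symm ▸ S4_half.1, h1.symm ▸ S4_half.2, h2.symm ▸ S4_num.1⟩,
      (S4_num.2.trans h2.symm).le, ?_⟩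
    rw [h3, S4_num.2]
    exact S4_one h4
  · obtain ⟨h1, h2⟩ := hp
    obtain ⟨h3, h4⟩ := S4_two h2 (rsq_one_eq p) (rsq_eq 1 p) hk
    refine ⟨⟨h1.symm ▸ S4_half.1, h1.symm ▸ S4_half.2, h3⟩, S4_num.2.le.trans h4,
      (S4_num.2.trans h2.symm).le⟩
  · obtain ⟨h1, h2, h3, h4⟩ := hp
    have h5 := rsq_eq 1 p
    have h6 := rsq_eq 0 p
    rw [h4, Complex.normSq_zero] at h5 h6
    rw [sub_zero] at h6
    refine ⟨⟨h1.symm ▸ S4_half.1, h1.symm ▸ S4_half.2, ?_⟩, ?_, ?_⟩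
    · rw [h6]
      have h7 := pow_le_one₀ (n := 2) (show 0 ≤ p.2.1 by linarith only [h2])
        (show p.2.1 ≤ 1 by linarith only [h3])
      linarith only [h7]
    · rw [h6]
      exact S4_lo1 h2 le_rfl
    · rw [h5]
      exact S4_lo2 (by linarith only [h3]) le_rfl

theorem bsupp_EB : bsupp ⊆ EB := by
  rintro p ⟨⟨h1, h2, h3⟩, h4, h5⟩
  exact ⟨⟨by linarith, by linarith, h3.trans (by norm_num)⟩, h4, h5⟩

theorem EB_NB : EB ⊆ NB := by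
  rintro p ⟨h1, h2, h3⟩
  exact ⟨h1, le_trans (by norm_num) h2, le_trans (by norm_num) h3⟩

theorem cpt_EB : IsCompact EB := by
  apply isCompact_NB.of_isClosed_subset _ EB_NB
  apply IsClosed.inter isClosed_ball4
  exact IsClosed.inter (isClosed_le continuous_const (continuous_rsq 0))
    (isClosed_le continuous_const (continuous_rsq 1))

theorem cpt_flat (c : ℝ) : IsCompact (flat c) := by
  apply Metric.isCompact_of_isClosed_isBounded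
  · exact IsClosed.inter (isClosed_eq continuous_fst continuous_const)
      (isClosed_le (continuous_rsq c) continuous_const)
  · exact (isBounded_of_rsq c (1 / 25) (1 / 2) (1 / 2)).subset
      (fun p hp => ⟨hp.1.ge, hp.1.le, hp.2⟩)

theorem cpt_sph (c : ℝ) : IsCompact (sph c) := by
  apply (cpt_flat c).of_isClosed_subset
  · exact IsClosed.inter (isClosed_eq continuous_fst continuous_const)
      (isClosed_eq (continuous_rsq c) continuous_const)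
  · exact fun p hp => ⟨hp.1, hp.2.le⟩

theorem cpt_neck : IsCompact neck := by
  apply Metric.isCompact_of_isClosed_isBounded
  · exact IsClosed.inter (isClosed_eq continuous_fst continuous_const)
      (IsClosed.inter (isClosed_le continuous_const continuous_snd.fst)
        (IsClosed.inter (isClosed_le continuous_snd.fst continuous_const)
          (isClosed_eq continuous_snd.snd continuous_const)))
  · apply (isBounded_of_rsq 0 1 (1 / 2) (1 / 2)).subset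
    rintro p ⟨h1, h2, h3, h4⟩
    refine ⟨h1.ge, h1.le, ?_⟩
    rw [rsq_eq, h4, Complex.normSq_zero, sub_zero]
    have h7 := pow_le_one₀ (n := 2) (show 0 ≤ p.2.1 by linarith only [h2])
      (show p.2.1 ≤ 1 by linarith only [h3])
    linarith only [h7]

end S4

open S4 in
theorem m_S4 : StS4 :=
  ⟨ext_SP, mem_FB, fixed, fixed_FB, fun p hp t ht => hom_mem p hp t ht, SP_EB, bsupp_EB, EB_NB,
    ((cpt_sph 0).union (cpt_sph 1)).union cpt_neck,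
    ((cpt_flat 0).union (cpt_flat 1)).union cpt_neck, cpt_EB⟩

end Pool.Agent.Helper18.BI


end

/-! ## Helper18.BI.M_N1 -/

section

/-!
# Project BI (MP_8e98f2_gt): module N1, the subgroup `N` is normal
-/

set_option autoImplicit false

open scoped Manifold ContDiff Topology ComplexConjugate
open Set Pool.Agent.Helper65.Barb

namespace Pool.Agent.Helper18.BI

namespace N1

variable {E : Type} [NormedAddCommGroup E] [NormedSpace ℝ E] {H : Type} [TopologicalSpace H]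
    {I : ModelWithCorners ℝ E H} {M : Type} [TopologicalSpace M] [ChartedSpace H M]

/-- composition of a germ with a diffeomorphism -/
theorem embOn_comp {F : R4 → M} {L : Set R4} (hF : EmbOn I F L) {Ψ Ψ' : M → M}
    (h1 : ContMDiff I I ∞ Ψ) (h2 : ContMDiff I I ∞ Ψ') (h3 : ∀ x, Ψ (Ψ' x) = x)
    (h4 : ∀ x, Ψ' (Ψ x) = x) : EmbOn I (fun p => Ψ (F p)) L := by
  let D : Diffeomorph I I M M ∞ :=
    { toFun := Ψ
      invFun := Ψ'
      left_inv := h4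
      right_inv := h3
      contMDiff_toFun := h1
      contMDiff_invFun := h2 }
  refine ⟨fun p hp => ?_, fun p hp q hq hpq => ?_⟩
  · have hD : IsLocalDiffeomorphAt I I ∞ Ψ (F p) := D.isLocalDiffeomorph (F p)
    exact IsLocalDiffeomorphAt.comp (K := I) (P := M) (hf := hF.1 p hp) (hg := hD)
  · apply hF.2 hp hq
    have := congrArg Ψ' hpq
    simpa only [h4] using this

/-- composition of a bounding ball with a diffeomorphism -/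
theorem boundsOff_comp {F : R4 → M} {c d : ℝ} (hF : BoundsOff I F c d) {Ψ Ψ' : M → M}
    (h1 : ContMDiff I I ∞ Ψ) (h2 : ContMDiff I I ∞ Ψ') (h3 : ∀ x, Ψ (Ψ' x) = x)
    (h4 : ∀ x, Ψ' (Ψ x) = x) : BoundsOff I (fun p => Ψ (F p)) c d := by
  obtain ⟨G, hG, hGF, hdis⟩ := hF
  refine ⟨fun p => Ψ (G p), embOn_comp hG h1 h2 h3 h4, fun p hp => ?_, ?_⟩
  · change Ψ (G p) = Ψ (F p)
    rw [hGF p hp]
  · rw [Set.disjoint_left] at hdis ⊢
    rintro y ⟨p, hp, rfl⟩ ⟨q, hq, hpq⟩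
    apply hdis ⟨p, hp, rfl⟩
    refine ⟨q, hq, ?_⟩
    have := congrArg Ψ' hpq
    simpa only [h4] using this

/-- the time `0` map of a family is smooth -/
theorem smooth_of_cIsot {φ ψ : M → M} (h : CIsot I φ ψ) : ContMDiff I I ∞ φ := by
  obtain ⟨F, -, h0, -⟩ := h
  have h1 : ContMDiff I (𝓘(ℝ, ℝ).prod I) ∞ (fun x : M => ((0 : ℝ), x)) :=
    contMDiff_const.prodMk contMDiff_id
  have h2 : ContMDiff I I ∞ (fun x : M => F.f (0, x)) := F.smooth_f.comp h1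
  have h3 : (fun x : M => F.f (0, x)) = φ := funext h0
  rw [h3] at h2
  exact h2

end N1

theorem m_N1 (t2 : StT2) (ci : StCI) : StN1 := by
  intro E _ _ H _ I M _ _ _
  obtain ⟨-, -, -, -, -, hnat, hrep⟩ := t2 E H I M
  obtain ⟨cone, csymm, cself, ctrans, cmul, cinv, cex, cconj, -, -⟩ := ci E H I M
  -- the conjugation statement
  have hconj : ∀ φ Ψ Ψ' : M → M, InN I φ → ContMDiff I I ∞ Ψ → ContMDiff I I ∞ Ψ' →
      (∀ x, Ψ (Ψ' x) = x) → (∀ x, Ψ' (Ψ x) = x) → InN I (fun x => Ψ (φ (Ψ' x))) := by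
    intro φ Ψ Ψ' hφ h1 h2 h3 h4
    induction hφ with
    | one =>
      have : (fun x : M => Ψ (Ψ' x)) = fun x => x := funext h3
      change InN I (fun x : M => Ψ (Ψ' x))
      rw [this]
      exact InN.one
    | gen F φ hF hHS hT =>
      refine InN.gen (fun p => Ψ (F p)) _ (N1.embOn_comp hF h1 h2 h3 h4) ?_
        (hnat F φ Ψ Ψ' h1 h2 h3 h4 hT)
      rcases hHS with h | h
      · exact Or.inl (N1.boundsOff_comp h h1 h2 h3 h4)
      · exact Or.inr (N1.boundsOff_comp h h1 h2 h3 h4)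
    | mul φ ψ _ _ ih1 ih2 =>
      have h := InN.mul _ _ ih1 ih2
      have e : (fun x => Ψ (φ (Ψ' (Ψ (ψ (Ψ' x)))))) = fun x => Ψ (φ (ψ (Ψ' x))) := by
        funext x
        rw [h4]
      have h' : InN I (fun x => Ψ (φ (Ψ' (Ψ (ψ (Ψ' x)))))) := h
      rw [e] at h'
      exact h'
    | inv φ ψ _ hi1 hi2 ih =>
      refine InN.inv _ _ ih (fun x => ?_) (fun x => ?_)
      · rw [h4, hi1, h3]
      · rw [h4, hi2, h3]
    | isot φ ψ _ hi ih =>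
      exact InN.isot _ _ ih (cconj φ ψ Ψ Ψ' hi h1 h2 h3 h4)
  refine ⟨?_, hconj, ?_⟩
  · intro φ hφ
    induction hφ with
    | one => exact cone
    | gen F φ _ _ hT => exact hrep F φ hT
    | mul φ ψ _ _ ih1 ih2 => exact cmul φ φ ψ ψ ih1 ih2
    | inv φ ψ _ hi1 _ ih => exact cinv φ φ ψ ψ ih hi1 hi1
    | isot φ ψ _ hi _ => exact cself ψ φ (csymm φ ψ hi)
  · intro φ n hn hφ
    obtain ⟨φ', hφ', e1, e2⟩ := cex φ hφ
    refine ⟨fun x => φ (n (φ' x)), hconj n φ φ' hn (N1.smooth_of_cIsot hφ)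
      (N1.smooth_of_cIsot hφ') e1 e2, fun x => ?_⟩
    change φ (n x) = φ (n (φ' (φ x)))
    rw [e2]

end Pool.Agent.Helper18.BI


end

/-! ## Helper34.BI.M_D1b -/

section

/-!
# D1b: from local to global at a crossing
-/

set_option autoImplicit false

open Module Set Filter Topology
open scoped ContDiff Manifold ComplexConjugate
open Pool.Agent.Helper65.Barb Pool.Agent.Helper18.BI Pool.Agent.Helper27.BI

namespace Pool.Agent.Helper34.BI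

namespace D1b

theorem continuous_rsq (c : ℝ) : Continuous (rsq c) := by
  unfold rsq nsq
  fun_prop

theorem cpt_FB : IsCompact FB :=
  ((S4.cpt_flat 0).union (S4.cpt_flat 1)).union S4.cpt_neck

theorem cpt_SH (η : ℝ) : IsCompact (SH η) := by
  have h : SH η = FB ∩ ({p | 1 / 25 - η ≤ rsq 0 p} ∩ {p | 1 / 25 - η ≤ rsq 1 p}) := by
    ext p
    simp only [SH, mem_setOf_eq, mem_inter_iff]
  rw [h]
  exact cpt_FB.inter_right ((isClosed_le continuous_const (continuous_rsq 0)).inter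
    (isClosed_le continuous_const (continuous_rsq 1)))

theorem cpt_CL (η : ℝ) : IsCompact (CL η) := by
  have h : CL η = SH η ∩ ({p | rsq 0 p ≤ 1 / 25} ∪ {p | rsq 1 p ≤ 1 / 25}) := by
    ext p
    simp only [CL, mem_setOf_eq, mem_inter_iff, mem_union]
  rw [h]
  exact (cpt_SH η).inter_right ((isClosed_le (continuous_rsq 0) continuous_const).union
    (isClosed_le (continuous_rsq 1) continuous_const))

theorem mono_SH : Monotone SH := by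
  intro a b hab p hp
  exact ⟨hp.1, by linarith [hp.2.1], by linarith [hp.2.2]⟩

theorem mono_CL : Monotone CL := by
  intro a b hab p hp
  exact ⟨mono_SH hab hp.1, hp.2⟩

theorem fst_FB {p : R4} (hp : p ∈ FB) : p.1 = 1 / 2 := by
  rcases hp with (h | h) | h
  · exact h.1
  · exact h.1
  · exact h.1

theorem le_of_seq {x y : ℝ} (h : ∀ n : ℕ, x - 1 / ((n : ℝ) + 1) ≤ y) : x ≤ y := by
  refine le_of_forall_pos_le_add fun ε hε => ?_
  obtain ⟨n, hn⟩ := exists_nat_one_div_lt hε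
  linarith [h n]

theorem SP_of_SH {p : R4} (h : ∀ n : ℕ, p ∈ SH (1 / ((n : ℝ) + 1))) : p ∈ SP := by
  have h0 : 1 / 25 ≤ rsq 0 p := le_of_seq fun n => (h n).2.1
  have h1 : 1 / 25 ≤ rsq 1 p := le_of_seq fun n => (h n).2.2
  rcases (h 0).1 with (h2 | h2) | h2
  · exact Or.inl (Or.inl ⟨h2.1, le_antisymm h2.2 h0⟩)
  · exact Or.inl (Or.inr ⟨h2.1, le_antisymm h2.2 h1⟩)
  · exact Or.inr h2

theorem sph_of_CL {p : R4} (h : ∀ n : ℕ, p ∈ CL (1 / ((n : ℝ) + 1))) : p ∈ sph 0 ∪ sph 1 := by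
  have h0 : 1 / 25 ≤ rsq 0 p := le_of_seq fun n => (h n).1.2.1
  have h1 : 1 / 25 ≤ rsq 1 p := le_of_seq fun n => (h n).1.2.2
  have hf : p.1 = 1 / 2 := fst_FB (h 0).1.1
  rcases (h 0).2 with h2 | h2
  · exact Or.inl ⟨hf, le_antisymm h2 h0⟩
  · exact Or.inr ⟨hf, le_antisymm h2 h1⟩

/-- shrinking to a compact set -/
theorem shrink (K : ℝ → Set R4) (K0 : Set R4) (hc : ∀ η, IsCompact (K η)) (hm : Monotone K)
    (h0 : ∀ p, (∀ n : ℕ, p ∈ K (1 / ((n : ℝ) + 1))) → p ∈ K0) (U : Set (ℝ × R4 × R4))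
    (hU : ∀ p ∈ K0, ∀ q ∈ K0, U ∈ 𝓝 ((0 : ℝ), p, q)) :
    ∀ᶠ η in 𝓝[>] (0 : ℝ), ∀ r ∈ Icc (-η) η, ∀ p ∈ K η, ∀ q ∈ K η, (r, p, q) ∈ U := by
  set V : ℕ → Set (ℝ × R4 × R4) := fun n =>
    Icc (-(1 / ((n : ℝ) + 1))) (1 / ((n : ℝ) + 1)) ×ˢ (K (1 / ((n : ℝ) + 1)) ×ˢ K (1 / ((n : ℝ) + 1)))
    with hV
  have hVc : ∀ n, IsCompact (V n) := fun n => isCompact_Icc.prod ((hc _).prod (hc _))
  have hanti : ∀ {m n : ℕ}, m ≤ n → V n ⊆ V m := by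
    intro m n hmn
    have h1 : 1 / ((n : ℝ) + 1) ≤ 1 / ((m : ℝ) + 1) := by
      apply one_div_le_one_div_of_le (by positivity)
      have : (m : ℝ) ≤ n := by exact_mod_cast hmn
      linarith
    exact prod_mono (Icc_subset_Icc (neg_le_neg h1) h1) (prod_mono (hm h1) (hm h1))
  have hdir : Directed (fun a b : Set (ℝ × R4 × R4) => a ⊇ b) V := by
    intro m n
    exact ⟨max m n, hanti (le_max_left _ _), hanti (le_max_right _ _)⟩
  obtain ⟨n, hn⟩ := exists_subset_nhds_of_isCompact' hdir hVc (fun n => (hVc n).isClosed)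
    (U := U) (by
      rintro ⟨r, p, q⟩ hx
      rw [mem_iInter] at hx
      have hr : r = 0 := by
        have h1 : r ≤ 0 := le_of_forall_pos_le_add fun ε hε => by
          obtain ⟨n, hn⟩ := exists_nat_one_div_lt hε
          linarith [(hx n).1.2]
        have h2 : 0 ≤ r := by
          have : -r ≤ 0 := le_of_forall_pos_le_add fun ε hε => by
            obtain ⟨n, hn⟩ := exists_nat_one_div_lt hε
            linarith [(hx n).1.1]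
          linarith
        exact le_antisymm h1 h2
      subst hr
      exact hU p (h0 p fun n => (hx n).2.1) q (h0 q fun n => (hx n).2.2))
  have hpos : (0 : ℝ) < 1 / ((n : ℝ) + 1) := by positivity
  filter_upwards [Ioo_mem_nhdsGT hpos] with η hη r hr p hp q hq
  apply hn
  exact ⟨⟨by linarith [hr.1, hη.2], by linarith [hr.2, hη.2]⟩, hm hη.2.le hp, hm hη.2.le hq⟩

/-! ## the map `(t, p) ↦ (t, J (t, p))` -/

/-- the graph map -/
def gr (J : ℝ × R4 → R4) (x : ℝ × R4) : ℝ × R4 := (x.1, J x)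

theorem contDiffAt_gr {J : ℝ × R4 → R4} {x : ℝ × R4} (h : ContDiffAt ℝ ∞ J x) :
    ContDiffAt ℝ ∞ (gr J) x := contDiffAt_fst.prodMk h

theorem fderiv_gr {J : ℝ × R4 → R4} {x : ℝ × R4} (h : ContDiffAt ℝ ∞ J x) (ζ : ℝ × R4) :
    fderiv ℝ (gr J) x ζ = (ζ.1, fderiv ℝ J x ζ) := by
  have h1 : HasFDerivAt J (fderiv ℝ J x) x := (h.differentiableAt (by simp)).hasFDerivAt
  have h2 : HasFDerivAt (gr J) ((ContinuousLinearMap.fst ℝ ℝ R4).prod (fderiv ℝ J x)) x :=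
    hasFDerivAt_fst.prodMk h1
  rw [h2.fderiv]
  rfl

theorem fderiv_slice {J : ℝ × R4 → R4} {t : ℝ} {p : R4} (h : ContDiffAt ℝ ∞ J (t, p)) (v : R4) :
    fderiv ℝ (fun p => J (t, p)) p v = fderiv ℝ J (t, p) (0, v) := by
  have h1 : HasFDerivAt J (fderiv ℝ J (t, p)) (t, p) :=
    (h.differentiableAt (by simp)).hasFDerivAt
  have h2 : HasFDerivAt (fun p : R4 => (t, p)) (ContinuousLinearMap.inr ℝ ℝ R4) p :=
    hasFDerivAt_prodMk_right t p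
  have h3 : HasFDerivAt (fun p : R4 => J (t, p))
      ((fderiv ℝ J (t, p)).comp (ContinuousLinearMap.inr ℝ ℝ R4)) p := h1.comp p h2
  rw [h3.fderiv]
  rfl

theorem locDiff_gr {J : ℝ × R4 → R4} {t : ℝ} {p : R4} (hs : ∀ᶠ q in 𝓝 (t, p), ContDiffAt ℝ ∞ J q)
    (hl : IsLocalDiffeomorphAt 𝓘(ℝ, R4) 𝓘(ℝ, R4) ∞ (fun p => J (t, p)) p) :
    IsLocalDiffeomorphAt 𝓘(ℝ, ℝ × R4) 𝓘(ℝ, ℝ × R4) ∞ (gr J) (t, p) := by
  refine isLocalDiffeomorphAt_of_injective rfl (hs.mono fun q hq => contDiffAt_gr hq) ?_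
  rw [injective_iff_map_eq_zero]
  intro ζ hζ
  rw [fderiv_gr hs.self_of_nhds, Prod.mk_eq_zero] at hζ
  obtain ⟨τ, v⟩ := ζ
  obtain ⟨h1, h2⟩ := hζ
  change τ = 0 at h1
  subst h1
  rw [← fderiv_slice hs.self_of_nhds] at h2
  have h3 := (injective_iff_map_eq_zero _).1 (injective_fderiv hl) v h2
  rw [h3]
  rfl

theorem locDiff_slice {J : ℝ × R4 → R4} {t : ℝ} {p : R4}
    (hs : ∀ᶠ q in 𝓝 (t, p), ContDiffAt ℝ ∞ J q)
    (hl : IsLocalDiffeomorphAt 𝓘(ℝ, ℝ × R4) 𝓘(ℝ, ℝ × R4) ∞ (gr J) (t, p)) :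
    IsLocalDiffeomorphAt 𝓘(ℝ, R4) 𝓘(ℝ, R4) ∞ (fun p => J (t, p)) p := by
  refine isLocalDiffeomorphAt_of_injective rfl ?_ ?_
  · have hc : Tendsto (fun p' : R4 => (t, p')) (𝓝 p) (𝓝 (t, p)) :=
      (Continuous.prodMk_right t).continuousAt
    filter_upwards [hc.eventually hs] with q hq
    exact hq.comp q (contDiffAt_const.prodMk contDiffAt_id)
  · rw [injective_iff_map_eq_zero]
    intro v hv
    rw [fderiv_slice hs.self_of_nhds] at hv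
    have h1 := (injective_iff_map_eq_zero _).1 (injective_fderiv hl) (0, v) (by
      rw [fderiv_gr hs.self_of_nhds, hv]
      rfl)
    exact (Prod.mk_eq_zero.1 h1).2

/-- near a point of the spine the graph map is smooth and a local diffeomorphism -/
theorem eventually_good {J : ℝ × R4 → R4} {t : ℝ} {p : R4}
    (hs : ∀ᶠ q in 𝓝 (t, p), ContDiffAt ℝ ∞ J q)
    (hl : IsLocalDiffeomorphAt 𝓘(ℝ, R4) 𝓘(ℝ, R4) ∞ (fun p => J (t, p)) p) :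
    ∀ᶠ q in 𝓝 (t, p), ContDiffAt ℝ ∞ J q ∧
      IsLocalDiffeomorphAt 𝓘(ℝ, R4) 𝓘(ℝ, R4) ∞ (fun p => J (q.1, p)) q.2 := by
  obtain ⟨Φ, hp, hΦ⟩ := locDiff_gr hs hl
  filter_upwards [hs.eventually_nhds, Φ.open_source.mem_nhds hp] with q h1 h2
  exact ⟨h1.self_of_nhds, locDiff_slice (t := q.1) (p := q.2) h1 ⟨Φ, h2, hΦ⟩⟩

/-- near a point of the spine the graph map is injective -/
theorem eventually_inj {J : ℝ × R4 → R4} {t : ℝ} {p : R4}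
    (hs : ∀ᶠ q in 𝓝 (t, p), ContDiffAt ℝ ∞ J q)
    (hl : IsLocalDiffeomorphAt 𝓘(ℝ, R4) 𝓘(ℝ, R4) ∞ (fun p => J (t, p)) p) :
    ∃ N ∈ 𝓝 (t, p), ∀ x ∈ N, ∀ y ∈ N, x.1 = y.1 → J x = J y → x = y := by
  obtain ⟨Φ, hp, hΦ⟩ := locDiff_gr hs hl
  refine ⟨Φ.source, Φ.open_source.mem_nhds hp, ?_⟩
  intro x hx y hy h1 h2
  apply Φ.injOn hx hy
  change Φ.toFun x = Φ.toFun y
  rw [← hΦ hx, ← hΦ hy]
  exact Prod.ext h1 h2

end D1b

open D1b

theorem m_D1b : StD1b := by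
  intro J t₀ u₀ p₀ hP T X η₀ hη₀ hT hT0 hXc hX0 hX huniq ε hε
  -- continuity of `T`
  have hTs : ∀ r ∈ Ioo (-η₀) η₀, ContDiffAt ℝ ∞ T r := fun r hr =>
    hT.contDiffAt (isOpen_Ioo.mem_nhds hr)
  have h00 : (0 : ℝ) ∈ Ioo (-η₀) η₀ := ⟨by linarith, hη₀⟩
  have hTc : ContinuousAt T 0 := (hTs 0 h00).continuousAt
  -- the map `(r, p) ↦ (T r, p)`
  have hTp : ∀ p : R4, Tendsto (fun q : ℝ × R4 => (T q.1, q.2)) (𝓝 ((0 : ℝ), p)) (𝓝 (t₀, p)) := by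
    intro p
    have h1 : ContinuousAt (fun q : ℝ × R4 => (T q.1, q.2)) ((0 : ℝ), p) := by
      refine ContinuousAt.prodMk ?_ continuousAt_snd
      exact ContinuousAt.comp (f := fun q : ℝ × R4 => q.1) (g := T) hTc continuousAt_fst
    unfold ContinuousAt at h1
    have h2 : (fun q : ℝ × R4 => (T q.1, q.2)) ((0 : ℝ), p) = (t₀, p) := by
      change (T 0, p) = (t₀, p)
      rw [hT0]
    rw [h2] at h1
    exact h1
  have hT1 : ∀ p q : R4, Tendsto (fun x : ℝ × R4 × R4 => (T x.1, x.2.1)) (𝓝 ((0 : ℝ), p, q))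
      (𝓝 (t₀, p)) := by
    intro p q
    have h1 : Tendsto (fun x : ℝ × R4 × R4 => (x.1, x.2.1)) (𝓝 ((0 : ℝ), p, q))
        (𝓝 ((0 : ℝ), p)) := by
      apply Continuous.tendsto' (by fun_prop)
      rfl
    exact (hTp p).comp h1
  have hT2 : ∀ p q : R4, Tendsto (fun x : ℝ × R4 × R4 => (T x.1, x.2.2)) (𝓝 ((0 : ℝ), p, q))
      (𝓝 (t₀, q)) := by
    intro p q
    have h1 : Tendsto (fun x : ℝ × R4 × R4 => (x.1, x.2.2)) (𝓝 ((0 : ℝ), p, q))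
        (𝓝 ((0 : ℝ), q)) := by
      apply Continuous.tendsto' (by fun_prop)
      rfl
    exact (hTp q).comp h1
  -- case (a)
  have caseA : ∀ p ∈ SP, ∀ q ∈ SP, J (t₀, p) ≠ J (t₀, q) →
      ∀ᶠ x : ℝ × R4 × R4 in 𝓝 ((0 : ℝ), p, q), J (T x.1, x.2.1) ≠ J (T x.1, x.2.2) := by
    intro p hp q hq hne
    have c1 : ContinuousAt J (t₀, p) := (hP.smooth p hp).self_of_nhds.continuousAt
    have c2 : ContinuousAt J (t₀, q) := (hP.smooth q hq).self_of_nhds.continuousAt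
    have l1 := Tendsto.comp c1 (hT1 p q)
    have l2 := Tendsto.comp c2 (hT2 p q)
    have l3 := (l1.prodMk_nhds l2).eventually (isOpen_ne_fun continuous_fst continuous_snd
      |>.mem_nhds (show (J (t₀, p), J (t₀, q)) ∈ {x : R4 × R4 | x.1 ≠ x.2} from hne))
    exact l3
  -- case (b)
  have caseB : ∀ p ∈ SP, ∀ᶠ x : ℝ × R4 × R4 in 𝓝 ((0 : ℝ), p, p),
      J (T x.1, x.2.1) = J (T x.1, x.2.2) → x.2.1 = x.2.2 := by
    intro p hp
    obtain ⟨N, hN, hNi⟩ := eventually_inj (hP.smooth p hp) (hP.loc p hp)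
    filter_upwards [(hT1 p p).eventually hN, (hT2 p p).eventually hN] with x h1 h2 h3
    have h4 := hNi _ h1 _ h2 rfl h3
    exact (Prod.ext_iff.1 h4).2
  -- (1)
  have e1 := shrink SH SP cpt_SH mono_SH (fun p => SP_of_SH)
    {x | x.2.1 ∈ FB → x.2.2 ∈ FB → J (T x.1, x.2.1) = J (T x.1, x.2.2) →
      x.2.1 = x.2.2 ∨ x.2.1 = X x.1 ∨ x.2.2 = X x.1} (by
    intro p hp q hq
    by_cases hne : J (t₀, p) = J (t₀, q)
    · rcases hP.inj p hp q hq hne with h | h | h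
      · subst h
        filter_upwards [caseB p hp] with x hx _ _ h
        exact Or.inl (hx h)
      · obtain ⟨rfl, rfl⟩ := h
        filter_upwards [huniq] with x hx h1 h2 h3
        exact Or.inr (Or.inl (hx h1 h2 h3))
      · obtain ⟨rfl, rfl⟩ := h
        have hsw : Tendsto (fun x : ℝ × R4 × R4 => (x.1, x.2.2, x.2.1))
            (𝓝 ((0 : ℝ), ((1 / 2, u₀, 0) : R4), q)) (𝓝 ((0 : ℝ), q, ((1 / 2, u₀, 0) : R4))) := by
          apply Continuous.tendsto' (by fun_prop)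
          rfl
        filter_upwards [hsw.eventually huniq] with x hx h1 h2 h3
        exact Or.inr (Or.inr (hx h2 h1 h3.symm))
    · filter_upwards [caseA p hp q hq hne] with x hx _ _ h
      exact absurd h hx)
  -- (2)
  have hu0 : ∀ c : ℝ, (c = 0 ∨ c = 1) → ((1 / 2, u₀, 0) : R4) ∉ sph c := by
    intro c hc h
    have h1 : rsq c ((1 / 2, u₀, 0) : R4) = 1 / 25 := h.2
    rw [S4.rsq_eq] at h1
    simp only [map_zero, add_zero] at h1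
    obtain ⟨h2, h3⟩ := hP.arc
    rcases hc with rfl | rfl
    · nlinarith
    · nlinarith
  have hu1 : ((1 / 2, u₀, 0) : R4) ∉ sph 0 ∪ sph 1 := by
    rintro (h | h)
    · exact hu0 0 (Or.inl rfl) h
    · exact hu0 1 (Or.inr rfl) h
  have e2 := shrink CL (sph 0 ∪ sph 1) cpt_CL mono_CL (fun p => sph_of_CL)
    {x | J (T x.1, x.2.1) = J (T x.1, x.2.2) → x.2.1 = x.2.2} (by
    intro p hp q hq
    have hp' : p ∈ SP := Or.inl hp
    have hq' : q ∈ SP := Or.inl hq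
    by_cases hne : J (t₀, p) = J (t₀, q)
    · rcases hP.inj p hp' q hq' hne with h | h | h
      · subst h
        exact caseB p hp'
      · exact absurd (h.2 ▸ hq) hu1
      · exact absurd (h.2 ▸ hp) hu1
    · filter_upwards [caseA p hp' q hq' hne] with x hx h
      exact absurd h hx)
  -- (3)
  set S : Set (ℝ × R4) := interior {x | ContDiffAt ℝ ∞ (fun q : ℝ × R4 => J (T q.1, q.2)) x ∧
    IsLocalDiffeomorphAt 𝓘(ℝ, R4) 𝓘(ℝ, R4) ∞ (fun p => J (T x.1, p)) x.2} with hS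
  have hSn : ∀ p ∈ SP, S ∈ 𝓝 ((0 : ℝ), p) := by
    intro p hp
    rw [hS, interior_mem_nhds]
    have h1 := (hTp p).eventually (eventually_good (hP.smooth p hp) (hP.loc p hp))
    have h2 : ∀ᶠ x : ℝ × R4 in 𝓝 ((0 : ℝ), p), x.1 ∈ Ioo (-η₀) η₀ :=
      continuousAt_fst.eventually (isOpen_Ioo.mem_nhds h00)
    filter_upwards [h1, h2] with x hx hx2
    refine ⟨?_, hx.2⟩
    refine ContDiffAt.comp x (g := J) (f := fun q : ℝ × R4 => (T q.1, q.2)) hx.1 ?_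
    exact ((hTs x.1 hx2).comp x contDiffAt_fst).prodMk contDiffAt_snd
  have e3 := shrink SH SP cpt_SH mono_SH (fun p => SP_of_SH) {x | (x.1, x.2.1) ∈ S} (by
    intro p hp q hq
    have hc : Tendsto (fun x : ℝ × R4 × R4 => (x.1, x.2.1)) (𝓝 ((0 : ℝ), p, q))
        (𝓝 ((0 : ℝ), p)) := by
      apply Continuous.tendsto' (by fun_prop)
      rfl
    exact hc.eventually (hSn p hp))
  -- (4)
  have e4 : ∀ᶠ r in 𝓝 (0 : ℝ), (X r).2.2.re ≠ 0 ∧ |T r - t₀| < ε := by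
    have c1 : ContinuousAt (fun r => (X r).2.2.re) 0 := by
      have : Continuous fun p : R4 => p.2.2.re := by fun_prop
      exact this.continuousAt.comp hXc
    have h1 : ∀ᶠ r in 𝓝 (0 : ℝ), (X r).2.2.re ≠ 0 := by
      apply c1.eventually_ne
      rw [hX0]
      exact hP.re
    have c2 : ContinuousAt (fun r => |T r - t₀|) 0 := (hTc.sub continuousAt_const).abs
    have h2 : ∀ᶠ r in 𝓝 (0 : ℝ), |T r - t₀| < ε := by
      apply c2.eventually_lt continuousAt_const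
      rw [hT0, sub_self, abs_zero]
      exact hε
    exact h1.and h2
  obtain ⟨δ, hδ, hδ'⟩ := Metric.eventually_nhds_iff.1 e4
  have e5 : ∀ᶠ η in 𝓝[>] (0 : ℝ), η ∈ Ioo (0 : ℝ) (min δ (min η₀ (1 / 100))) :=
    Ioo_mem_nhdsGT (lt_min hδ (lt_min hη₀ (by norm_num)))
  obtain ⟨η, h1, h2, h3, h4⟩ := (e1.and (e2.and (e3.and e5))).exists
  have hηδ : η < δ := lt_of_lt_of_le h4.2 (min_le_left _ _)
  have hηη : η < η₀ := lt_of_lt_of_le h4.2 ((min_le_right _ _).trans (min_le_left _ _))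
  have hη100 : η < 1 / 100 := lt_of_lt_of_le h4.2 ((min_le_right _ _).trans (min_le_right _ _))
  have hmem : ∀ r ∈ Icc (-η) η, r ∈ Ioo (-η₀) η₀ := fun r hr =>
    ⟨by linarith [hr.1], by linarith [hr.2]⟩
  have hsmall : ∀ r ∈ Icc (-η) η, (X r).2.2.re ≠ 0 ∧ |T r - t₀| < ε := by
    intro r hr
    apply hδ'
    rw [Real.dist_eq, sub_zero]
    exact lt_of_le_of_lt (abs_le.2 ⟨hr.1, hr.2⟩) hηδ
  refine ⟨η, h4.1, hηη, ?_, fun r hr => (hsmall r hr).2⟩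
  exact
    { pos := h4.1
      small := hη100.le
      smooth := by
        refine ⟨S, isOpen_interior, ?_, ?_⟩
        · rintro ⟨r, p⟩ ⟨hr, hp⟩
          exact h3 r hr p hp p hp
        · intro x hx
          exact (interior_subset hx).1.contDiffWithinAt
      loc := by
        intro r hr p hp
        exact (interior_subset (h3 r hr p hp p hp)).2
      inj := by
        intro r hr p hp q hq h
        rcases h1 r hr p hp.1 q hq.1 hp.1.1 hq.1.1 h with h5 | h5 | h5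
        · exact h5
        · exact absurd h5 hp.2
        · exact absurd h5 hq.2
      injA := by
        intro r hr p hp q hq h
        exact h2 r hr p hp q hq h
      fst := fun r hr => (hX r (hmem r hr)).1
      lvl := fun r hr => (hX r (hmem r hr)).2
      re := fun r hr => (hsmall r hr).1 }

end Pool.Agent.Helper34.BI


end
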