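import Pool.Agent.Helper65.Barb.Defs
import Pool.Agent.Helper70.BI.C.P05

/-!
# Project BI (MP_8e98f2_gt): collected modules, part 22

The contents of the modules
* Helper34.BI.M_D2a
* Helper34.BI.M_D2aP

in one file, so that the whole proof builds in a short time.
-/

namespace Pool.Agent.Helper18.BI
end Pool.Agent.Helper18.BI

namespace Pool.Agent.Helper27.BI
end Pool.Agent.Helper27.BI

namespace Pool.Agent.Helper65.Barb
end Pool.Agent.Helper65.Barb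


/-! ## Helper34.BI.M_D2a -/

section

/-!
# Project BI (MP_8e98f2_gt), module D2a: splitting off the crossing
-/

set_option autoImplicit false

open Module Set Filter Topology
open scoped ContDiff Manifold ComplexConjugate
open Pool.Agent.Helper65.Barb Pool.Agent.Helper18.BI Pool.Agent.Helper27.BI

namespace Pool.Agent.Helper34.BI

namespace D2a

theorem rsq_def (c : ℝ) (p : R4) :
    rsq c p = (p.2.1 - c) ^ 2 + (p.2.2.re ^ 2 + p.2.2.im ^ 2) := by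
  simp only [rsq, nsq]; ring

theorem rsq_one (p : R4) : rsq 1 p = rsq 0 p - 2 * p.2.1 + 1 := by
  rw [rsq_def, rsq_def]; ring

theorem sq_le_rsq (c : ℝ) (p : R4) : (p.2.1 - c) ^ 2 ≤ rsq c p := by
  rw [rsq_def]; nlinarith [sq_nonneg p.2.2.re, sq_nonneg p.2.2.im]

theorem rsq_congr {c : ℝ} {p q : R4} (h : p.2 = q.2) : rsq c p = rsq c q := by
  unfold rsq; rw [h]

theorem le15 {p : R4} (h : rsq 0 p ≤ 1 / 25) : p.2.1 ≤ 1 / 5 := by
  have := sq_le_rsq 0 p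
  nlinarith

theorem rsq1_of {p : R4} (h : p.2.1 ≤ 1 / 5) : 16 / 25 ≤ rsq 1 p := by
  have := sq_le_rsq 1 p
  nlinarith

theorem le45 {p : R4} (h : rsq 1 p ≤ 1 / 25) : 4 / 5 ≤ p.2.1 := by
  have := sq_le_rsq 1 p
  nlinarith

theorem rsq0_of {p : R4} (h : 4 / 5 ≤ p.2.1) : 16 / 25 ≤ rsq 0 p := by
  have := sq_le_rsq 0 p
  nlinarith

theorem SP_FB : SP ⊆ FB := by
  rintro p ((h | h) | h)
  · exact Or.inl (Or.inl ⟨h.1, h.2.le⟩)
  · exact Or.inl (Or.inr ⟨h.1, h.2.le⟩)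
  · exact Or.inr h

theorem SP_rsq {p : R4} (hp : p ∈ SP) : 1 / 25 ≤ rsq 0 p ∧ 1 / 25 ≤ rsq 1 p := by
  rcases hp with (h | h) | h
  · refine ⟨h.2.ge, ?_⟩
    have := rsq1_of (le15 h.2.le)
    linarith
  · refine ⟨?_, h.2.ge⟩
    have := rsq0_of (le45 h.2.le)
    linarith
  · obtain ⟨-, h1, h2, -⟩ := h
    constructor
    · have := sq_le_rsq 0 p
      nlinarith
    · have := sq_le_rsq 1 p
      nlinarith

theorem nsq_parallel (u v : R3) : nsq (u + v) ≤ 2 * nsq u + 2 * nsq v := by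
  simp only [nsq, Prod.fst_add, Prod.snd_add, Complex.add_re, Complex.add_im]
  nlinarith [sq_nonneg (u.1 - v.1), sq_nonneg (u.2.re - v.2.re), sq_nonneg (u.2.im - v.2.im)]

theorem nsq_zero' : nsq (0 : R3) = 0 := by simp [nsq]

theorem rsq_zero_eq (p : R4) : rsq 0 p = nsq p.2 := by simp [rsq]

theorem rsq_one_eq (p : R4) : rsq 1 p = nsq (p.2 - (1, 0)) := by
  simp [rsq, nsq]

theorem mem_tube {x₀ : R3} {r : ℝ} {p : R4} : p ∈ tube x₀ r ↔ nsq (p.2 - x₀) < r ^ 2 := Iff.rfl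

theorem mem_tube0 {r : ℝ} {p : R4} : p ∈ tube 0 r ↔ rsq 0 p < r ^ 2 := by
  rw [mem_tube, rsq_zero_eq, sub_zero]

theorem mem_tube1 {r : ℝ} {p : R4} : p ∈ tube (1, 0) r ↔ rsq 1 p < r ^ 2 := by
  rw [mem_tube, rsq_one_eq]

theorem continuous_nsq : Continuous (fun x : R3 => nsq x) := by
  unfold nsq
  fun_prop

theorem isOpen_tube (x₀ : R3) (r : ℝ) : IsOpen (tube x₀ r) :=
  isOpen_lt (continuous_nsq.comp (by fun_prop : Continuous fun p : R4 => p.2 - x₀))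
    continuous_const

theorem isCompact_ball4 : IsCompact ball4 := by
  apply Metric.isCompact_of_isClosed_isBounded isClosed_ball4
  exact (isBounded_of_rsq 0 ((9 / 2) ^ 2) (-1) 2).subset (fun p hp => hp)

theorem flat_ball4 {p : R4} (hp : p ∈ flat 0) : p ∈ ball4 := by
  obtain ⟨h1, h2⟩ := hp
  refine ⟨by rw [h1]; norm_num, by rw [h1]; norm_num, h2.trans (by norm_num)⟩

theorem maps_bar : MapsTo barMap bsupp bsupp := by
  intro p hp
  by_contra h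
  have h1 : barMap (barMap p) = barMap p := barMap_off h
  have h2 : barMap p = p := by
    have e1 := bfam.gf 1 (barMap p)
    have e2 := bfam.gf 1 p
    have e3 : bfam.f (1, barMap p) = bfam.f (1, p) := h1
    rw [e3, e2] at e1
    exact e1.symm
  rw [h2] at h
  exact h hp

section
variable {E : Type} [NormedAddCommGroup E] [NormedSpace ℝ E] {H : Type} [TopologicalSpace H]
  {I : ModelWithCorners ℝ E H} {M : Type} [TopologicalSpace M] [ChartedSpace H M]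

theorem mono {F : R4 → M} {L L' : Set R4} (h : EmbOn I F L) (hL : L' ⊆ L) : EmbOn I F L' :=
  ⟨fun p hp => h.1 p (hL hp), h.2.mono hL⟩

theorem comp {c : R4 → M} {F : R4 → R4} {L L' : Set R4} (hc : EmbOn I c L')
    (hF : EmbOn 𝓘(ℝ, R4) F L) (hm : MapsTo F L L') : EmbOn I (fun p => c (F p)) L := by
  refine ⟨fun p hp => IsLocalDiffeomorphAt.comp _ _ (hF.1 p hp) (hc.1 (F p) (hm hp)), ?_⟩
  intro p hp q hq h
  exact hF.2 hp hq (hc.2 (hm hp) (hm hq) h)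

theorem cont {F : R4 → M} {L : Set R4} (h : EmbOn I F L) : ContinuousOn F L := fun p hp =>
  ((h.1 p hp).contMDiffAt.continuousAt).continuousWithinAt

end

end D2a

/-- the output of `StAdd2` for the strand over `x₂` -/
def AddData (x₂ : R3) (r : ℝ) (k₁ k₂ : R4 → R4) : Prop :=
  0 < r ∧ r ≤ 1 / 100 ∧
    (∀ k : R4 → R4, (k = k₁ ∨ k = k₂) → EmbOn 𝓘(ℝ, R4) k univ ∧ (∀ p, (k p).1 = p.1) ∧
      (∀ p ∈ ball4, k p ∈ ball4) ∧ (∀ p, 17 / 100 ≤ p.2.1 → k p = p) ∧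
      ∀ p, rsq 0 p ≤ 1 / 25 → rsq 0 (k p) ≤ 1 / 25) ∧
    (∀ p : R4, ‖p.2.2‖ ≤ |x₂.2.re| / 2 → k₁ p = p) ∧
    (∀ p ∈ ball4, k₁ p ∉ tube x₂ r ∧ k₂ p ∉ tube 0 r) ∧
    (∀ p, (k₁ p ∈ tube 0 r → p ∈ tube 0 r) ∧ (k₂ p ∈ tube x₂ r → p ∈ tube x₂ r)) ∧
    ∀ (E : Type) [NormedAddCommGroup E] [NormedSpace ℝ E] (H : Type) [TopologicalSpace H]
      (I : ModelWithCorners ℝ E H) (M : Type) [TopologicalSpace M] [ChartedSpace H M]
      [T2Space M] (F : R4 → M),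
      EmbOn I F (ball4 \ (tube (1, 0) (3 / 20) ∪ tube 0 r ∪ tube x₂ r)) →
      CIsot I (imp F bsupp barMap) (fun y => imp (fun p => F (k₂ p)) bsupp barMap
        (imp (fun p => F (k₁ p)) bsupp barMap y))

open D2a in
/-- Splitting off the crossing, with both factors visible. -/
theorem m_D2a_core (hRE : StRE) (hImp : StImp) (hCI : StCI) (hS3 : StS3) (hS4 : StS4)
    (hT2 : StT2) (hT3 : StT3) (hT5 : StT5) (hT6 : StT6) (G : R4 → R4) (X : R4) (δ η : ℝ)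
    (hδ : δ ∈ Ioo (0 : ℝ) (1 / 100)) (h3δ : 3 * δ ≤ η) (hη : η ≤ 1 / 100)
    (hloc : ∀ p ∈ SH η, IsLocalDiffeomorphAt 𝓘(ℝ, R4) 𝓘(ℝ, R4) ∞ G p)
    (hinjX : InjOn G (SH η \ {X})) (hinjC : InjOn G (CL η)) (hXq : rsq 0 X = qe δ (1 / 100))
    (x₂ : R3) (hx2n : nsq x₂ = 1 / 100) (hEx : Em δ (1 / 2, x₂) = X) (r : ℝ) (k₁ k₂ : R4 → R4)
    (hD : AddData x₂ r k₁ k₂) :
    ∃ ψ n : R4 → R4, Thin 𝓘(ℝ, R4) (fun p => G (Em δ (k₁ p))) ψ ∧
      Thin 𝓘(ℝ, R4) (fun p => G (Em δ (k₂ p))) n ∧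
      EmbOn 𝓘(ℝ, R4) (fun p => G (Em δ (k₁ p))) SP ∧
      EmbOn 𝓘(ℝ, R4) (fun p => G (Em δ (k₂ p))) SP ∧
      EmbOn 𝓘(ℝ, R4) (fun p => G (Em δ (k₂ p))) (flat 0 ∪ sph 1) ∧
      (∀ k : R4 → R4, (k = k₁ ∨ k = k₂) → ∀ p ∈ SP, Em δ (k p) ∈ SH η \ {X}) ∧
      (∀ p ∈ flat 0 ∪ sph 1, Em δ (k₂ p) ∈ CL η) ∧
      ∀ φ, Thin 𝓘(ℝ, R4) G φ → CIsot 𝓘(ℝ, R4) φ (fun x => n (ψ x)) := by
  obtain ⟨hEm, hid, hfst, hsnd, -, hlow, hE0, -, hmono, -, hqid, -, -⟩ := hRE δ hδ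
  obtain ⟨s41, s42, s43, s44, -, s46, s47, -, s49, -, -⟩ := hS4
  have hδ0 := hδ.1
  obtain ⟨hr0, hr1, hk, hk₁fix, hkt, hkt2, hadd⟩ := hD
  have hrr : r ^ 2 ≤ 1 / 10000 := by nlinarith
  have hrr0 : 0 < r ^ 2 := by positivity
  obtain ⟨hk1E, hk1f, hk1b, hk1i, hk1r⟩ := hk k₁ (Or.inl rfl)
  set U₀ : Set R4 := {p | 0 < rsq 0 p ∧ 0 < rsq 1 p} with hU₀
  set K : Set R4 := ball4 \ (tube (1, 0) (3 / 20) ∪ tube 0 r ∪ tube x₂ r) with hK
  have hKc : IsCompact K :=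
    isCompact_ball4.diff (((isOpen_tube _ _).union (isOpen_tube _ _)).union (isOpen_tube _ _))
  have hKU : K ⊆ U₀ := by
    rintro p ⟨-, hp⟩
    have h1 : p ∉ tube (1, 0) (3 / 20) := fun h => hp (Or.inl (Or.inl h))
    have h2 : p ∉ tube 0 r := fun h => hp (Or.inl (Or.inr h))
    rw [mem_tube1, not_lt] at h1
    rw [mem_tube0, not_lt] at h2
    exact ⟨by linarith, lt_of_lt_of_le (by norm_num) h1⟩
  have hEK : EmbOn 𝓘(ℝ, R4) (Em δ) K := mono hEm hKU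
  -- a point over `x₂` is in the tube
  have hx2U : ((1 / 2, x₂) : R4) ∈ U₀ := by
    have e0 : rsq 0 ((1 / 2, x₂) : R4) = 1 / 100 := by rw [rsq_zero_eq]; exact hx2n
    have e1 := rsq_one ((1 / 2, x₂) : R4)
    have e2 := sq_le_rsq 0 ((1 / 2, x₂) : R4)
    rw [e0] at e1 e2
    simp only [sub_zero] at e2
    refine ⟨by rw [e0]; norm_num, ?_⟩
    rw [e1]
    simp only
    nlinarith
  have hXnSP : X ∉ SP := by
    intro h
    have h1 := (SP_rsq h).1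
    rw [hXq] at h1
    have h2 : qe δ (1 / 100) < qe δ (1 / 25) := hmono (by norm_num)
    rw [hqid (1 / 25) (by linarith)] at h2
    linarith
  -- `Em δ` is the identity on `SP`
  have hidSP : ∀ p ∈ SP, Em δ p = p := fun p hp =>
    hid p (by linarith [(SP_rsq hp).1]) (by linarith [(SP_rsq hp).2])
  have hidExt : ∀ p ∈ Pool.Agent.Helper18.BI.Ext, Em δ p = p := fun p hp =>
    hid p (by have := hp.1; norm_num at this ⊢; linarith)
      (by have := hp.2; norm_num at this ⊢; linarith)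
  have hSPSH : SP ⊆ SH η \ {X} := by
    intro p hp
    refine ⟨⟨SP_FB hp, by linarith [(SP_rsq hp).1], by linarith [(SP_rsq hp).2]⟩, ?_⟩
    rintro rfl
    exact hXnSP hp
  -- the compact set `L`
  have hcont : Continuous (fun p : R4 => sq 0 p) := by
    have h1 : ContinuousOn (fun q : ℝ × R4 => sq q.1 q.2) (Ici 0 ×ˢ univ) := hS3
    rw [← continuousOn_univ]
    exact h1.comp (f := fun p : R4 => ((0 : ℝ), p)) (by fun_prop)
      (fun p _ => ⟨by simp, mem_univ _⟩)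
  set K' : Set R4 := Em δ '' K with hK'
  have hK'c : IsCompact K' := hKc.image_of_continuousOn (cont hEK)
  set L : Set R4 := SP ∪ (fun p => sq 0 p) '' K' with hL
  have hLc : IsCompact L := s49.union (hK'c.image hcont)
  have hLFB : L ⊆ FB := by
    rintro p (hp | ⟨q, -, rfl⟩)
    · exact SP_FB hp
    · exact s42 q
  have hLSH : L ⊆ SH η \ {X} := by
    rintro p (hp | ⟨y, ⟨q, hq, rfl⟩, rfl⟩)
    · exact hSPSH hp
    · have hqU := hKU hq
      obtain ⟨hl0, hl1⟩ := hlow q hqU.1 hqU.2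
      simp only
      by_cases hy : Em δ q ∈ Pool.Agent.Helper18.BI.Ext
      · exact hSPSH (s41 _ hy)
      · have hor : rsq 0 (Em δ q) ≤ 1 / 25 ∨ rsq 1 (Em δ q) ≤ 1 / 25 := by
          by_contra hcon
          push Not at hcon
          exact hy ⟨by norm_num; linarith [hcon.1], by norm_num; linarith [hcon.2]⟩
        have hsq : sq 0 (Em δ q) = (1 / 2, (Em δ q).2) := by
          apply s43
          rcases hor with h | h
          · exact Or.inl h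
          · exact Or.inr (Or.inl h)
        have hsqFB := s42 (Em δ q)
        rw [hsq] at hsqFB ⊢
        have e0 : rsq 0 ((1 / 2, (Em δ q).2) : R4) = rsq 0 (Em δ q) := rsq_congr rfl
        have e1 : rsq 1 ((1 / 2, (Em δ q).2) : R4) = rsq 1 (Em δ q) := rsq_congr rfl
        refine ⟨⟨hsqFB, by rw [e0]; linarith, by rw [e1]; linarith⟩, ?_⟩
        intro hXe
        have hXe' : ((1 / 2, (Em δ q).2) : R4) = X := hXe
        have h1 : Em δ (1 / 2, q.2) = Em δ (1 / 2, x₂) := by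
          rw [hEx, ← hXe']
          apply Prod.ext
          · rw [hfst]
          · have := hsnd (1 / 2) q.1 q.2
            rw [this]
        have hqU' : ((1 / 2, q.2) : R4) ∈ U₀ := by
          have e2 : rsq 0 ((1 / 2, q.2) : R4) = rsq 0 q := rsq_congr rfl
          have e3 : rsq 1 ((1 / 2, q.2) : R4) = rsq 1 q := rsq_congr rfl
          exact ⟨by rw [e2]; exact hqU.1, by rw [e3]; exact hqU.2⟩
        have h2 := hEm.2 hqU' hx2U h1
        have h3 : q.2 = x₂ := congrArg Prod.snd h2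
        apply hq.2
        right
        rw [mem_tube, h3, sub_self, nsq_zero']
        exact hrr0
  have hGL : EmbOn 𝓘(ℝ, R4) G L := ⟨fun p hp => hloc p (hLSH hp).1, hinjX.mono hLSH⟩
  have hGSP : EmbOn 𝓘(ℝ, R4) G SP := mono hGL subset_union_left
  have hsqL : ∀ p ∈ K', sq 0 p ∈ L := fun p hp => Or.inr ⟨p, hp, rfl⟩
  -- inclusion in K
  have hExtK : ∀ k : R4 → R4, (k = k₁ ∨ k = k₂) → MapsTo k EB K := by
    intro k hkk p hp
    obtain ⟨hkE, hkf, hkb, hki, hkr⟩ := hk k hkk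
    have hp0 : 1 / 25 ≤ rsq 0 p := by have := hp.2.1; norm_num at this ⊢; linarith
    have hp1 : 1 / 25 ≤ rsq 1 p := by have := hp.2.2; norm_num at this ⊢; linarith
    refine ⟨hkb p hp.1, ?_⟩
    have hn0 : p ∉ tube 0 r := by rw [mem_tube0]; linarith
    have hn2 : p ∉ tube x₂ r := by
      rw [mem_tube]
      have h1 := nsq_parallel (p.2 - x₂) x₂
      rw [sub_add_cancel, ← rsq_zero_eq, hx2n] at h1
      linarith
    rintro ((h | h) | h)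
    · rw [mem_tube1] at h
      have h1 : 17 / 20 ≤ (k p).2.1 := by
        have := sq_le_rsq 1 (k p)
        nlinarith
      have h2 := hki (k p) (by linarith)
      have h3 := hkE.2 (mem_univ _) (mem_univ _) h2
      rw [h3] at h
      linarith
    · rcases hkk with rfl | rfl
      · exact hn0 ((hkt2 p).1 h)
      · exact (hkt p hp.1).2 h
    · rcases hkk with rfl | rfl
      · exact (hkt p hp.1).1 h
      · exact hn2 ((hkt2 p).2 h)
  -- (4)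
  have hm : ∀ k : R4 → R4, (k = k₁ ∨ k = k₂) →
      EmbOn 𝓘(ℝ, R4) (fun p => Em δ (k p)) EB ∧ MapsTo (fun p => Em δ (k p)) SP L := by
    intro k hkk
    obtain ⟨hkE, hkf, hkb, hki, hkr⟩ := hk k hkk
    refine ⟨comp hEK (mono hkE (subset_univ _)) (hExtK k hkk), ?_⟩
    intro p hp
    have hkK := hExtK k hkk (s46 hp)
    have h1 : sq 0 (Em δ (k p)) ∈ L := hsqL _ ⟨_, hkK, rfl⟩
    have h2 : Em δ (k p) ∈ FB := by
      rcases hp with (h | h) | h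
      · have h3 : rsq 0 (k p) ≤ 1 / 25 := hkr p h.2.le
        have h4 : 0 < rsq 0 (k p) := (hKU hkK).1
        exact Or.inl (Or.inl ⟨by rw [hfst, hkf]; exact h.1, (hE0 _ h4 h3).2⟩)
      · have h3 := le45 h.2.le
        have h4 : k p = p := hki p (by linarith)
        have hps : p ∈ SP := Or.inl (Or.inr h)
        rw [h4, hidSP p hps]
        exact SP_FB hps
      · have h4 : k p = p := hki p (by linarith [h.2.1])
        have hps : p ∈ SP := Or.inr h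
        rw [h4, hidSP p hps]
        exact SP_FB hps
    rw [s44 _ h2] at h1
    exact h1
  -- choice of ε
  obtain ⟨ε₁, hε₁, hT6'⟩ := hT6 R4 R4 𝓘(ℝ, R4) R4 G K' L hK'c hLc hsqL hGL
  obtain ⟨hT2i, hT2ii, -⟩ := hT2 R4 R4 𝓘(ℝ, R4) R4
  obtain ⟨ε₂, hε₂, hT2'⟩ := hT2i G hGSP
  obtain ⟨ε₃, hε₃, hT51⟩ := hT5 R4 R4 𝓘(ℝ, R4) R4 G (fun p => Em δ (k₁ p)) L hLc hLFB hGL
    (mono (hm k₁ (Or.inl rfl)).1 s46) (hm k₁ (Or.inl rfl)).2
  obtain ⟨ε₄, hε₄, hT52⟩ := hT5 R4 R4 𝓘(ℝ, R4) R4 G (fun p => Em δ (k₂ p)) L hLc hLFB hGL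
    (mono (hm k₂ (Or.inr rfl)).1 s46) (hm k₂ (Or.inr rfl)).2
  obtain ⟨ε, hε0, hε⟩ : ∃ ε : ℝ, 0 < ε ∧ ε < min (min ε₁ ε₂) (min ε₃ ε₄) :=
    exists_between (lt_min (lt_min hε₁ hε₂) (lt_min hε₃ hε₄))
  have hεa : ε ∈ Ioo 0 ε₁ := ⟨hε0, hε.trans_le ((min_le_left _ _).trans (min_le_left _ _))⟩
  have hεb : ε ∈ Ioo 0 ε₂ := ⟨hε0, hε.trans_le ((min_le_left _ _).trans (min_le_right _ _))⟩
  have hεc : ε ∈ Ioo 0 ε₃ := ⟨hε0, hε.trans_le ((min_le_right _ _).trans (min_le_left _ _))⟩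
  have hεd : ε ∈ Ioo 0 ε₄ := ⟨hε0, hε.trans_le ((min_le_right _ _).trans (min_le_right _ _))⟩
  have hGs : EmbOn 𝓘(ℝ, R4) (G ∘ sq ε) K' := (hT6' ε hεa).1
  have hF : EmbOn 𝓘(ℝ, R4) (fun p => G (sq ε (Em δ p))) K :=
    comp (c := G ∘ sq ε) (F := Em δ) hGs hEK (mapsTo_image _ _)
  have hcis := hadd R4 R4 𝓘(ℝ, R4) R4 (fun p => G (sq ε (Em δ p))) hF
  -- `bsupp ⊆ K`
  have hbK : bsupp ⊆ K := by
    intro p hp
    have hpE := s47 hp
    have hp0 : 1 / 25 ≤ rsq 0 p := by have := hpE.2.1; norm_num at this ⊢; linarith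
    have hp1 : 1 / 25 ≤ rsq 1 p := by have := hpE.2.2; norm_num at this ⊢; linarith
    refine ⟨hpE.1, ?_⟩
    rintro ((h | h) | h)
    · rw [mem_tube1] at h; linarith
    · rw [mem_tube0] at h; linarith
    · rw [mem_tube] at h
      have h1 := nsq_parallel (p.2 - x₂) x₂
      rw [sub_add_cancel, ← rsq_zero_eq, hx2n] at h1
      linarith
  have himpF : imp (fun p => G (sq ε (Em δ p))) bsupp barMap = imp (G ∘ sq ε) bsupp barMap := by
    obtain ⟨-, -, -, -, -, h6, -⟩ := hImp R4 R4 𝓘(ℝ, R4) R4 (fun p => G (sq ε (Em δ p))) bsupp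
      barMap (hF.2.mono hbK)
    apply h6 (G ∘ sq ε) _ maps_bar
    intro p hp
    simp only [Function.comp]
    rw [hidExt p (s47 hp).2]
  obtain ⟨-, -, -, hCItrans, -⟩ := hCI R4 R4 𝓘(ℝ, R4) R4
  have hthin : ∀ k : R4 → R4, (k = k₁ ∨ k = k₂) → Thin 𝓘(ℝ, R4) (fun p => G (sq ε (Em δ (k p))))
      (imp (fun p => G (sq ε (Em δ (k p)))) bsupp barMap) := by
    intro k hkk
    apply hT3 R4 R4 𝓘(ℝ, R4) R4
    exact comp (c := fun p => G (sq ε (Em δ p))) (F := k) hF (mono (hk k hkk).1 (subset_univ _))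
      (hExtK k hkk)
  -- facts on `flat 0` and `sph 1`
  obtain ⟨hkE, hkf, hkb, hki, hkr⟩ := hk k₂ (Or.inr rfl)
  have hfl : ∀ p ∈ flat 0, k₂ p ∈ U₀ ∧ Em δ (k₂ p) ∈ CL η := by
    intro p hp
    have h1 : rsq 0 (k₂ p) ≤ 1 / 25 := hkr p hp.2
    have h2 : 0 < rsq 0 (k₂ p) := by
      have h3 := (hkt p (flat_ball4 hp)).2
      rw [mem_tube0, not_lt] at h3
      linarith
    have h3 : 0 < rsq 1 (k₂ p) := by
      have := rsq1_of (le15 h1)
      linarith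
    refine ⟨⟨h2, h3⟩, ?_⟩
    obtain ⟨h4, h5⟩ := hlow _ h2 h3
    have h6 := (hE0 _ h2 h1).2
    have h7 : (Em δ (k₂ p)).1 = 1 / 2 := by rw [hfst, hkf]; exact hp.1
    exact ⟨⟨Or.inl (Or.inl ⟨h7, h6⟩), by linarith, by linarith⟩, Or.inl h6⟩
  have hs1 : ∀ p ∈ sph 1, k₂ p ∈ U₀ ∧ Em δ (k₂ p) ∈ CL η := by
    intro p hp
    have hps : p ∈ SP := Or.inl (Or.inr hp)
    have h4 : k₂ p = p := hki p (by linarith [le45 hp.2.le])
    have h5 := SP_rsq hps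
    refine ⟨by rw [h4]; exact ⟨by linarith [h5.1], by linarith [h5.2]⟩, ?_⟩
    rw [h4, hidSP p hps]
    exact ⟨(hSPSH hps).1, Or.inr hp.2.le⟩
  have hfs : ∀ p ∈ flat 0 ∪ sph 1, k₂ p ∈ U₀ ∧ Em δ (k₂ p) ∈ CL η := by
    rintro p (hp | hp)
    · exact hfl p hp
    · exact hs1 p hp
  refine ⟨imp (fun p => G (sq ε (Em δ (k₁ p)))) bsupp barMap,
    imp (fun p => G (sq ε (Em δ (k₂ p)))) bsupp barMap,
    (hT51 ε hεc _).1 (hthin k₁ (Or.inl rfl)), (hT52 ε hεd _).1 (hthin k₂ (Or.inr rfl)),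
    comp hGL (mono (hm k₁ (Or.inl rfl)).1 s46) (hm k₁ (Or.inl rfl)).2,
    comp hGL (mono (hm k₂ (Or.inr rfl)).1 s46) (hm k₂ (Or.inr rfl)).2, ⟨fun p hp => ?_, ?_⟩,
    fun k hkk p hp => hLSH ((hm k hkk).2 hp), fun p hp => (hfs p hp).2, ?_⟩
  · have h1 : IsLocalDiffeomorphAt 𝓘(ℝ, R4) 𝓘(ℝ, R4) ∞ (fun p => Em δ (k₂ p)) p :=
      IsLocalDiffeomorphAt.comp _ _ (hkE.1 p (mem_univ _)) (hEm.1 _ (hfs p hp).1)
    exact IsLocalDiffeomorphAt.comp _ _ h1 (hloc _ (hfs p hp).2.1)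
  · intro p hp q hq h
    have h1 := hinjC (hfs p hp).2 (hfs q hq).2 h
    have h2 := hEm.2 (hfs p hp).1 (hfs q hq).1 h1
    exact hkE.2 (mem_univ _) (mem_univ _) h2
  · intro φ hφ
    have h1 := hT2ii G φ _ hφ (hT2' ε hεb)
    rw [← himpF] at h1
    exact hCItrans _ _ _ h1 hcis

open D2a in
/-- **D2a.** Splitting off the crossing. -/
theorem m_D2a (hRE : StRE) (hAdd : StAdd2) (hImp : StImp) (hCI : StCI) (hS3 : StS3) (hS4 : StS4)
    (hT2 : StT2) (hT3 : StT3) (hT5 : StT5) (hT6 : StT6) : StD2a := by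
  intro G X δ η hδ h3δ hη hloc hinjX hinjC hX1 hXq hXre
  obtain ⟨x₂, hx2n, hEx, hxre⟩ := (hRE δ hδ).2.2.2.2.2.2.2.2.2.2.2.2 X hX1 hXq
  have hx2re := hxre hXre
  obtain ⟨r, k₁, k₂, hD⟩ := hAdd x₂ (by rw [hx2n]; norm_num) hx2re
  obtain ⟨ψ, n, h1, h2, -, h4, h5, -, -, h8⟩ := m_D2a_core hRE hImp hCI hS3 hS4 hT2 hT3 hT5 hT6
    G X δ η hδ h3δ hη hloc hinjX hinjC hXq x₂ hx2n hEx r k₁ k₂ hD
  obtain ⟨hr0, hr1, hk, hk₁fix, hkt, -, -⟩ := hD
  obtain ⟨hk1E, hk1f, -, hk1i, hk1r⟩ := hk k₁ (Or.inl rfl)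
  refine ⟨x₂, r, k₁, hr0, hr1, hx2n, hx2re, hEx, hk1E, hk1f, hk1i, hk1r, hk₁fix,
    fun p hp => (hkt p hp).1, n, ψ, ?_, h1, h8⟩
  refine InN.gen (fun p => G (Em δ (k₂ p))) n h4 (Or.inl ?_) h2
  refine ⟨fun p => G (Em δ (k₂ p)), mono h5 subset_union_left, fun _ _ => rfl, ?_⟩
  rw [Set.disjoint_left]
  rintro y ⟨p, hp, rfl⟩ ⟨q, hq, hpq⟩
  have h3 := h5.2 (Or.inr hq) (Or.inl hp) hpq
  have h6 := le15 hp.2
  have h7 := le45 hq.2.le
  rw [h3] at h7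
  linarith

end Pool.Agent.Helper34.BI


end

/-! ## Helper34.BI.M_D2aP -/

section

/-!
# Project BI, module D2aP: splitting off the crossing, with the second germ described

The same proof as module D2a (by helper87), with the maps `k₁`, `k₂` of `StAdd2` in the conclusion.
-/

set_option autoImplicit false

open Module Set Filter Topology
open scoped ContDiff Manifold ComplexConjugate
open Pool.Agent.Helper65.Barb Pool.Agent.Helper18.BI Pool.Agent.Helper27.BI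

namespace Pool.Agent.Helper34.BI

/-- The properties of the data `(x₂, r, k₁, k₂)` for the crossing point `X` -/
structure KK (δ : ℝ) (X : R4) (x₂ : R3) (r : ℝ) (k₁ k₂ : R4 → R4) : Prop where
  pos : 0 < r
  small : r ≤ 1 / 200
  norm : nsq x₂ = 1 / 100
  re : x₂.2.re ≠ 0
  eq : Em δ (1 / 2, x₂) = X
  kap1 : IsKap x₂ (|x₂.2.re| / 8) r k₁
  kap2 : IsKap 0 (|x₂.2.re| / 8) r k₂
  off : ∀ p, 17 / 100 ≤ p.2.1 → k₁ p = p ∧ k₂ p = p
  axis : ∀ p : R4, ‖p.2.2‖ ≤ |x₂.2.re| / 2 → k₁ p = p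
  t1 : ∀ p, k₁ p ∈ tube 0 r → p ∈ tube 0 r
  t2 : ∀ p, k₂ p ∈ tube x₂ r → p ∈ tube x₂ r

/-- **D2aP.** -/
def StD2aP : Prop :=
  ∀ (G : R4 → R4) (X : R4) (δ η : ℝ), δ ∈ Ioo (0 : ℝ) (1 / 100) → 3 * δ ≤ η → η ≤ 1 / 100 →
    (∀ p ∈ SH η, IsLocalDiffeomorphAt 𝓘(ℝ, R4) 𝓘(ℝ, R4) ∞ G p) → InjOn G (SH η \ {X}) →
    InjOn G (CL η) → X.1 = 1 / 2 → rsq 0 X = qe δ (1 / 100) → X.2.2.re ≠ 0 →
    ∃ (x₂ : R3) (r : ℝ) (k₁ k₂ : R4 → R4), KK δ X x₂ r k₁ k₂ ∧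
      EmbOn 𝓘(ℝ, R4) (fun p => G (Em δ (k₂ p))) SP ∧
      EmbOn 𝓘(ℝ, R4) (fun p => G (Em δ (k₂ p))) (flat 0 ∪ sph 1) ∧
      ∃ n ψ : R4 → R4, Thin 𝓘(ℝ, R4) (fun p => G (Em δ (k₂ p))) n ∧
        Thin 𝓘(ℝ, R4) (fun p => G (Em δ (k₁ p))) ψ ∧
        ∀ φ, Thin 𝓘(ℝ, R4) G φ → CIsot 𝓘(ℝ, R4) φ (fun x => n (ψ x))

open D2a in
/-- **D2aP.** Splitting off the crossing. -/
theorem m_D2aP (hRE : StRE) (hAdd : StADD2) (hImp : StImp) (hCI : StCI) (hS3 : StS3) (hS4 : StS4)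
    (hT2 : StT2) (hT3 : StT3) (hT5 : StT5) (hT6 : StT6) : StD2aP := by
  intro G X δ η hδ h3δ hη hloc hinjX hinjC hX1 hXq hXre
  obtain ⟨hEm, hid, hfst, hsnd, -, hlow, hE0, -, hmono, -, hqid, -, hex⟩ := hRE δ hδ
  obtain ⟨s41, s42, s43, s44, -, s46, s47, -, s49, -, -⟩ := hS4
  obtain ⟨x₂, hx2n, hEx, hxre⟩ := hex X hX1 hXq
  have hx2re := hxre hXre
  have hδ0 := hδ.1
  obtain ⟨r, k₁, k₂, hr0, hr1', -, kap1, kap2, hoff, hk₁fix, ht1, ht2, hadd⟩ :=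
    hAdd x₂ (by rw [hx2n]; norm_num) hx2re
  have hr1 : r ≤ 1 / 100 := by linarith
  have hk : ∀ k : R4 → R4, (k = k₁ ∨ k = k₂) → EmbOn 𝓘(ℝ, R4) k univ ∧ (∀ p, (k p).1 = p.1) ∧
        (∀ p ∈ ball4, k p ∈ ball4) ∧ (∀ p, 17 / 100 ≤ p.2.1 → k p = p) ∧
        ∀ p, rsq 0 p ≤ 1 / 25 → rsq 0 (k p) ≤ 1 / 25 := by
    rintro k (rfl | rfl)
    · exact ⟨kap1.emb, kap1.fst, kap1.ball, fun p hp => (hoff p hp).1, kap1.small⟩
    · exact ⟨kap2.emb, kap2.fst, kap2.ball, fun p hp => (hoff p hp).2, kap2.small⟩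
  have hkt : ∀ p ∈ ball4, k₁ p ∉ tube x₂ r ∧ k₂ p ∉ tube 0 r :=
    fun p hp => ⟨kap1.away p hp, kap2.away p hp⟩
  have hkt2 : ∀ p, (k₁ p ∈ tube 0 r → p ∈ tube 0 r) ∧ (k₂ p ∈ tube x₂ r → p ∈ tube x₂ r) :=
    fun p => ⟨ht1 p, ht2 p⟩
  have hrr : r ^ 2 ≤ 1 / 10000 := by nlinarith
  have hrr0 : 0 < r ^ 2 := by positivity
  obtain ⟨hk1E, hk1f, hk1b, hk1i, hk1r⟩ := hk k₁ (Or.inl rfl)
  set U₀ : Set R4 := {p | 0 < rsq 0 p ∧ 0 < rsq 1 p} with hU₀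
  set K : Set R4 := ball4 \ (tube (1, 0) (3 / 20) ∪ tube 0 r ∪ tube x₂ r) with hK
  have hKc : IsCompact K :=
    isCompact_ball4.diff (((isOpen_tube _ _).union (isOpen_tube _ _)).union (isOpen_tube _ _))
  have hKU : K ⊆ U₀ := by
    rintro p ⟨-, hp⟩
    have h1 : p ∉ tube (1, 0) (3 / 20) := fun h => hp (Or.inl (Or.inl h))
    have h2 : p ∉ tube 0 r := fun h => hp (Or.inl (Or.inr h))
    rw [mem_tube1, not_lt] at h1
    rw [mem_tube0, not_lt] at h2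
    exact ⟨by linarith, lt_of_lt_of_le (by norm_num) h1⟩
  have hEK : EmbOn 𝓘(ℝ, R4) (Em δ) K := mono hEm hKU
  -- a point over `x₂` is in the tube
  have hx2U : ((1 / 2, x₂) : R4) ∈ U₀ := by
    have e0 : rsq 0 ((1 / 2, x₂) : R4) = 1 / 100 := by rw [rsq_zero_eq]; exact hx2n
    have e1 := rsq_one ((1 / 2, x₂) : R4)
    have e2 := sq_le_rsq 0 ((1 / 2, x₂) : R4)
    rw [e0] at e1 e2
    simp only [sub_zero] at e2
    refine ⟨by rw [e0]; norm_num, ?_⟩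
    rw [e1]
    simp only
    nlinarith
  have hXnSP : X ∉ SP := by
    intro h
    have h1 := (SP_rsq h).1
    rw [hXq] at h1
    have h2 : qe δ (1 / 100) < qe δ (1 / 25) := hmono (by norm_num)
    rw [hqid (1 / 25) (by linarith)] at h2
    linarith
  -- `Em δ` is the identity on `SP`
  have hidSP : ∀ p ∈ SP, Em δ p = p := fun p hp =>
    hid p (by linarith [(SP_rsq hp).1]) (by linarith [(SP_rsq hp).2])
  have hidExt : ∀ p ∈ Pool.Agent.Helper18.BI.Ext, Em δ p = p := fun p hp =>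
    hid p (by have := hp.1; norm_num at this ⊢; linarith)
      (by have := hp.2; norm_num at this ⊢; linarith)
  have hSPSH : SP ⊆ SH η \ {X} := by
    intro p hp
    refine ⟨⟨SP_FB hp, by linarith [(SP_rsq hp).1], by linarith [(SP_rsq hp).2]⟩, ?_⟩
    rintro rfl
    exact hXnSP hp
  -- the compact set `L`
  have hcont : Continuous (fun p : R4 => sq 0 p) := by
    have h1 : ContinuousOn (fun q : ℝ × R4 => sq q.1 q.2) (Ici 0 ×ˢ univ) := hS3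
    rw [← continuousOn_univ]
    exact h1.comp (f := fun p : R4 => ((0 : ℝ), p)) (by fun_prop)
      (fun p _ => ⟨by simp, mem_univ _⟩)
  set K' : Set R4 := Em δ '' K with hK'
  have hK'c : IsCompact K' := hKc.image_of_continuousOn (cont hEK)
  set L : Set R4 := SP ∪ (fun p => sq 0 p) '' K' with hL
  have hLc : IsCompact L := s49.union (hK'c.image hcont)
  have hLFB : L ⊆ FB := by
    rintro p (hp | ⟨q, -, rfl⟩)
    · exact SP_FB hp
    · exact s42 q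
  have hLSH : L ⊆ SH η \ {X} := by
    rintro p (hp | ⟨y, ⟨q, hq, rfl⟩, rfl⟩)
    · exact hSPSH hp
    · have hqU := hKU hq
      obtain ⟨hl0, hl1⟩ := hlow q hqU.1 hqU.2
      simp only
      by_cases hy : Em δ q ∈ Pool.Agent.Helper18.BI.Ext
      · exact hSPSH (s41 _ hy)
      · have hor : rsq 0 (Em δ q) ≤ 1 / 25 ∨ rsq 1 (Em δ q) ≤ 1 / 25 := by
          by_contra hcon
          push Not at hcon
          exact hy ⟨by norm_num; linarith [hcon.1], by norm_num; linarith [hcon.2]⟩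
        have hsq : sq 0 (Em δ q) = (1 / 2, (Em δ q).2) := by
          apply s43
          rcases hor with h | h
          · exact Or.inl h
          · exact Or.inr (Or.inl h)
        have hsqFB := s42 (Em δ q)
        rw [hsq] at hsqFB ⊢
        have e0 : rsq 0 ((1 / 2, (Em δ q).2) : R4) = rsq 0 (Em δ q) := rsq_congr rfl
        have e1 : rsq 1 ((1 / 2, (Em δ q).2) : R4) = rsq 1 (Em δ q) := rsq_congr rfl
        refine ⟨⟨hsqFB, by rw [e0]; linarith, by rw [e1]; linarith⟩, ?_⟩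
        intro hXe
        have hXe' : ((1 / 2, (Em δ q).2) : R4) = X := hXe
        have h1 : Em δ (1 / 2, q.2) = Em δ (1 / 2, x₂) := by
          rw [hEx, ← hXe']
          apply Prod.ext
          · rw [hfst]
          · have := hsnd (1 / 2) q.1 q.2
            rw [this]
        have hqU' : ((1 / 2, q.2) : R4) ∈ U₀ := by
          have e2 : rsq 0 ((1 / 2, q.2) : R4) = rsq 0 q := rsq_congr rfl
          have e3 : rsq 1 ((1 / 2, q.2) : R4) = rsq 1 q := rsq_congr rfl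
          exact ⟨by rw [e2]; exact hqU.1, by rw [e3]; exact hqU.2⟩
        have h2 := hEm.2 hqU' hx2U h1
        have h3 : q.2 = x₂ := congrArg Prod.snd h2
        apply hq.2
        right
        rw [mem_tube, h3, sub_self, nsq_zero']
        exact hrr0
  have hGL : EmbOn 𝓘(ℝ, R4) G L := ⟨fun p hp => hloc p (hLSH hp).1, hinjX.mono hLSH⟩
  have hGSP : EmbOn 𝓘(ℝ, R4) G SP := mono hGL subset_union_left
  have hsqL : ∀ p ∈ K', sq 0 p ∈ L := fun p hp => Or.inr ⟨p, hp, rfl⟩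
  -- inclusion in K
  have hExtK : ∀ k : R4 → R4, (k = k₁ ∨ k = k₂) → MapsTo k EB K := by
    intro k hkk p hp
    obtain ⟨hkE, hkf, hkb, hki, hkr⟩ := hk k hkk
    have hp0 : 1 / 25 ≤ rsq 0 p := by have := hp.2.1; norm_num at this ⊢; linarith
    have hp1 : 1 / 25 ≤ rsq 1 p := by have := hp.2.2; norm_num at this ⊢; linarith
    refine ⟨hkb p hp.1, ?_⟩
    have hn0 : p ∉ tube 0 r := by rw [mem_tube0]; linarith
    have hn2 : p ∉ tube x₂ r := by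
      rw [mem_tube]
      have h1 := nsq_parallel (p.2 - x₂) x₂
      rw [sub_add_cancel, ← rsq_zero_eq, hx2n] at h1
      linarith
    rintro ((h | h) | h)
    · rw [mem_tube1] at h
      have h1 : 17 / 20 ≤ (k p).2.1 := by
        have := sq_le_rsq 1 (k p)
        nlinarith
      have h2 := hki (k p) (by linarith)
      have h3 := hkE.2 (mem_univ _) (mem_univ _) h2
      rw [h3] at h
      linarith
    · rcases hkk with rfl | rfl
      · exact hn0 ((hkt2 p).1 h)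
      · exact (hkt p hp.1).2 h
    · rcases hkk with rfl | rfl
      · exact (hkt p hp.1).1 h
      · exact hn2 ((hkt2 p).2 h)
  -- (4)
  have hm : ∀ k : R4 → R4, (k = k₁ ∨ k = k₂) →
      EmbOn 𝓘(ℝ, R4) (fun p => Em δ (k p)) EB ∧ MapsTo (fun p => Em δ (k p)) SP L := by
    intro k hkk
    obtain ⟨hkE, hkf, hkb, hki, hkr⟩ := hk k hkk
    refine ⟨comp hEK (mono hkE (subset_univ _)) (hExtK k hkk), ?_⟩
    intro p hp
    have hkK := hExtK k hkk (s46 hp)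
    have h1 : sq 0 (Em δ (k p)) ∈ L := hsqL _ ⟨_, hkK, rfl⟩
    have h2 : Em δ (k p) ∈ FB := by
      rcases hp with (h | h) | h
      · have h3 : rsq 0 (k p) ≤ 1 / 25 := hkr p h.2.le
        have h4 : 0 < rsq 0 (k p) := (hKU hkK).1
        exact Or.inl (Or.inl ⟨by rw [hfst, hkf]; exact h.1, (hE0 _ h4 h3).2⟩)
      · have h3 := le45 h.2.le
        have h4 : k p = p := hki p (by linarith)
        have hps : p ∈ SP := Or.inl (Or.inr h)
        rw [h4, hidSP p hps]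
        exact SP_FB hps
      · have h4 : k p = p := hki p (by linarith [h.2.1])
        have hps : p ∈ SP := Or.inr h
        rw [h4, hidSP p hps]
        exact SP_FB hps
    rw [s44 _ h2] at h1
    exact h1
  -- choice of ε
  obtain ⟨ε₁, hε₁, hT6'⟩ := hT6 R4 R4 𝓘(ℝ, R4) R4 G K' L hK'c hLc hsqL hGL
  obtain ⟨hT2i, hT2ii, -⟩ := hT2 R4 R4 𝓘(ℝ, R4) R4
  obtain ⟨ε₂, hε₂, hT2'⟩ := hT2i G hGSP
  obtain ⟨ε₃, hε₃, hT51⟩ := hT5 R4 R4 𝓘(ℝ, R4) R4 G (fun p => Em δ (k₁ p)) L hLc hLFB hGL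
    (mono (hm k₁ (Or.inl rfl)).1 s46) (hm k₁ (Or.inl rfl)).2
  obtain ⟨ε₄, hε₄, hT52⟩ := hT5 R4 R4 𝓘(ℝ, R4) R4 G (fun p => Em δ (k₂ p)) L hLc hLFB hGL
    (mono (hm k₂ (Or.inr rfl)).1 s46) (hm k₂ (Or.inr rfl)).2
  obtain ⟨ε, hε0, hε⟩ : ∃ ε : ℝ, 0 < ε ∧ ε < min (min ε₁ ε₂) (min ε₃ ε₄) :=
    exists_between (lt_min (lt_min hε₁ hε₂) (lt_min hε₃ hε₄))
  have hεa : ε ∈ Ioo 0 ε₁ := ⟨hε0, hε.trans_le ((min_le_left _ _).trans (min_le_left _ _))⟩
  have hεb : ε ∈ Ioo 0 ε₂ := ⟨hε0, hε.trans_le ((min_le_left _ _).trans (min_le_right _ _))⟩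
  have hεc : ε ∈ Ioo 0 ε₃ := ⟨hε0, hε.trans_le ((min_le_right _ _).trans (min_le_left _ _))⟩
  have hεd : ε ∈ Ioo 0 ε₄ := ⟨hε0, hε.trans_le ((min_le_right _ _).trans (min_le_right _ _))⟩
  have hGs : EmbOn 𝓘(ℝ, R4) (G ∘ sq ε) K' := (hT6' ε hεa).1
  have hF : EmbOn 𝓘(ℝ, R4) (fun p => G (sq ε (Em δ p))) K :=
    comp (c := G ∘ sq ε) (F := Em δ) hGs hEK (mapsTo_image _ _)
  have hcis := hadd R4 R4 𝓘(ℝ, R4) R4 (fun p => G (sq ε (Em δ p))) hF
  -- `bsupp ⊆ K`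
  have hbK : bsupp ⊆ K := by
    intro p hp
    have hpE := s47 hp
    have hp0 : 1 / 25 ≤ rsq 0 p := by have := hpE.2.1; norm_num at this ⊢; linarith
    have hp1 : 1 / 25 ≤ rsq 1 p := by have := hpE.2.2; norm_num at this ⊢; linarith
    refine ⟨hpE.1, ?_⟩
    rintro ((h | h) | h)
    · rw [mem_tube1] at h; linarith
    · rw [mem_tube0] at h; linarith
    · rw [mem_tube] at h
      have h1 := nsq_parallel (p.2 - x₂) x₂
      rw [sub_add_cancel, ← rsq_zero_eq, hx2n] at h1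
      linarith
  have himpF : imp (fun p => G (sq ε (Em δ p))) bsupp barMap = imp (G ∘ sq ε) bsupp barMap := by
    obtain ⟨-, -, -, -, -, h6, -⟩ := hImp R4 R4 𝓘(ℝ, R4) R4 (fun p => G (sq ε (Em δ p))) bsupp
      barMap (hF.2.mono hbK)
    apply h6 (G ∘ sq ε) _ maps_bar
    intro p hp
    simp only [Function.comp]
    rw [hidExt p (s47 hp).2]
  obtain ⟨-, -, -, hCItrans, -⟩ := hCI R4 R4 𝓘(ℝ, R4) R4
  have hthin : ∀ k : R4 → R4, (k = k₁ ∨ k = k₂) → Thin 𝓘(ℝ, R4) (fun p => G (sq ε (Em δ (k p))))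
      (imp (fun p => G (sq ε (Em δ (k p)))) bsupp barMap) := by
    intro k hkk
    apply hT3 R4 R4 𝓘(ℝ, R4) R4
    exact comp (c := fun p => G (sq ε (Em δ p))) (F := k) hF (mono (hk k hkk).1 (subset_univ _))
      (hExtK k hkk)
  have hflat : EmbOn 𝓘(ℝ, R4) (fun p => G (Em δ (k₂ p))) (flat 0 ∪ sph 1) := by
    obtain ⟨hkE, hkf, hkb, hki, hkr⟩ := hk k₂ (Or.inr rfl)
    -- facts on `flat 0`
    have hfl : ∀ p ∈ flat 0, k₂ p ∈ U₀ ∧ Em δ (k₂ p) ∈ CL η := by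
      intro p hp
      have h1 : rsq 0 (k₂ p) ≤ 1 / 25 := hkr p hp.2
      have h2 : 0 < rsq 0 (k₂ p) := by
        have h3 := (hkt p (flat_ball4 hp)).2
        rw [mem_tube0, not_lt] at h3
        linarith
      have h3 : 0 < rsq 1 (k₂ p) := by
        have := rsq1_of (le15 h1)
        linarith
      refine ⟨⟨h2, h3⟩, ?_⟩
      obtain ⟨h4, h5⟩ := hlow _ h2 h3
      have h6 := (hE0 _ h2 h1).2
      have h7 : (Em δ (k₂ p)).1 = 1 / 2 := by rw [hfst, hkf]; exact hp.1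
      exact ⟨⟨Or.inl (Or.inl ⟨h7, h6⟩), by linarith, by linarith⟩, Or.inl h6⟩
    have hs1 : ∀ p ∈ sph 1, k₂ p ∈ U₀ ∧ Em δ (k₂ p) ∈ CL η := by
      intro p hp
      have hps : p ∈ SP := Or.inl (Or.inr hp)
      have h4 : k₂ p = p := hki p (by linarith [le45 hp.2.le])
      have h5 := SP_rsq hps
      refine ⟨by rw [h4]; exact ⟨by linarith [h5.1], by linarith [h5.2]⟩, ?_⟩
      rw [h4, hidSP p hps]
      exact ⟨(hSPSH hps).1, Or.inr hp.2.le⟩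
    have hall : ∀ p ∈ flat 0 ∪ sph 1, k₂ p ∈ U₀ ∧ Em δ (k₂ p) ∈ CL η := by
      rintro p (hp | hp)
      · exact hfl p hp
      · exact hs1 p hp
    refine ⟨fun p hp => ?_, ?_⟩
    · have h1 : IsLocalDiffeomorphAt 𝓘(ℝ, R4) 𝓘(ℝ, R4) ∞ (fun p => Em δ (k₂ p)) p :=
        IsLocalDiffeomorphAt.comp _ _ (hkE.1 p (mem_univ _)) (hEm.1 _ (hall p hp).1)
      exact IsLocalDiffeomorphAt.comp _ _ h1 (hloc _ (hall p hp).2.1)
    · intro p hp q hq h
      have h1 := hinjC (hall p hp).2 (hall q hq).2 h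
      have h2 := hEm.2 (hall p hp).1 (hall q hq).1 h1
      exact hkE.2 (mem_univ _) (mem_univ _) h2
  refine ⟨x₂, r, k₁, k₂, ⟨hr0, hr1', hx2n, hx2re, hEx, kap1, kap2, hoff, hk₁fix, ht1, ht2⟩,
    comp hGL (mono (hm k₂ (Or.inr rfl)).1 s46) (hm k₂ (Or.inr rfl)).2, hflat,
    imp (fun p => G (sq ε (Em δ (k₂ p)))) bsupp barMap,
    imp (fun p => G (sq ε (Em δ (k₁ p)))) bsupp barMap,
    (hT52 ε hεd _).1 (hthin k₂ (Or.inr rfl)), (hT51 ε hεc _).1 (hthin k₁ (Or.inl rfl)), ?_⟩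
  · intro φ hφ
    have h1 := hT2ii G φ _ hφ (hT2' ε hεb)
    rw [← himpF] at h1
    exact hCItrans _ _ _ h1 hcis

end Pool.Agent.Helper34.BI


end
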