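import Pool.Agent.Helper65.Barb.Defs
import Pool.Agent.Helper70.BI.C.P03
import Pool.Agent.Helper70.BI.C.P04

/-!
# Project BI (MP_8e98f2_gt): collected modules, part 25

The contents of the modules
* Helper27.BI.M_KAPPA
* Helper18.BI.M_S2
* Helper18.BI.M_T2
* Helper18.BI.M_X3

in one file, so that the whole proof builds in a short time.
-/

namespace Pool.Agent.Helper18.BI
end Pool.Agent.Helper18.BI

namespace Pool.Agent.Helper65.Barb
end Pool.Agent.Helper65.Barb


/-! ## Helper27.BI.M_KAPPA -/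

section

/-!
# Project BI, module KAPPA (helper86)
-/

set_option autoImplicit false

open scoped Manifold ContDiff Topology ComplexConjugate
open Set Pool.Agent.Helper65.Barb Pool.Agent.Helper18.BI

namespace Pool.Agent.Helper27.BI

namespace Kappa

noncomputable section

/-- the speed -/
def m (t : ℝ) : ℝ := 1 - 999 / 1000 * Real.smoothTransition (1000 * t)

theorem m_contDiff : ContDiff ℝ ∞ m := by
  unfold m
  exact contDiff_const.sub (contDiff_const.mul
    (Real.smoothTransition.contDiff.comp (contDiff_const.mul contDiff_id)))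

theorem m_le (t : ℝ) : m t ≤ 1 := by
  have := Real.smoothTransition.nonneg (1000 * t)
  unfold m; linarith

theorem le_m (t : ℝ) : 1 / 1000 ≤ m t := by
  have := Real.smoothTransition.le_one (1000 * t)
  unfold m; linarith

theorem m_of_nonpos {t : ℝ} (h : t ≤ 0) : m t = 1 := by
  unfold m
  rw [Real.smoothTransition.zero_of_nonpos (by linarith)]; ring

theorem m_of_ge {t : ℝ} (h : 1 / 1000 ≤ t) : m t = 1 / 1000 := by
  unfold m
  rw [Real.smoothTransition.one_of_one_le (by linarith)]; ring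

theorem m_cont : Continuous m := m_contDiff.continuous

/-- the primitive -/
def M (t : ℝ) : ℝ := ∫ x in (0 : ℝ)..t, m x

theorem hasDerivAt_M (t : ℝ) : HasDerivAt M (m t) t :=
  intervalIntegral.integral_hasDerivAt_right (m_cont.intervalIntegrable _ _)
    (m_cont.stronglyMeasurableAtFilter _ _) m_cont.continuousAt

theorem deriv_M : deriv M = m := funext fun t => (hasDerivAt_M t).deriv

theorem M_contDiff : ContDiff ℝ ∞ M := by
  rw [contDiff_infty_iff_deriv]
  refine ⟨fun t => (hasDerivAt_M t).differentiableAt, ?_⟩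
  rw [deriv_M]
  exact m_contDiff

theorem M_strictMono : StrictMono M := by
  apply strictMono_of_deriv_pos
  intro t
  rw [deriv_M]
  linarith [le_m t]

theorem M_zero : M 0 = 0 := by simp [M]

theorem M_of_nonpos {t : ℝ} (h : t ≤ 0) : M t = t := by
  have : M t = ∫ x in (0 : ℝ)..t, (1 : ℝ) := by
    unfold M
    apply intervalIntegral.integral_congr
    intro x hx
    rw [Set.uIcc_of_ge h] at hx
    exact m_of_nonpos hx.2
  rw [this]; simp

theorem M_le (t : ℝ) : M t ≤ t := by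
  rcases le_total t 0 with h | h
  · exact (M_of_nonpos h).le
  · have : M t ≤ ∫ x in (0 : ℝ)..t, (1 : ℝ) :=
      intervalIntegral.integral_mono_on h (m_cont.intervalIntegrable _ _)
        (continuous_const.intervalIntegrable _ _) fun x _ => m_le x
    simpa using this

theorem M_bound {t : ℝ} (h : t ≤ 26 / 5) : M t ≤ 1 / 100 := by
  have h1 : M (26 / 5) ≤ 1 / 100 := by
    have e : M (26 / 5) = M (1 / 1000) + ∫ x in (1 / 1000 : ℝ)..(26 / 5), (1 / 1000 : ℝ) := by
      have e1 : ∫ x in (1 / 1000 : ℝ)..(26 / 5), (1 / 1000 : ℝ) =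
          ∫ x in (1 / 1000 : ℝ)..(26 / 5), m x := by
        apply intervalIntegral.integral_congr
        intro x hx
        rw [Set.uIcc_of_le (by norm_num)] at hx
        exact (m_of_ge hx.1).symm
      rw [e1]
      exact (intervalIntegral.integral_add_adjacent_intervals
        (m_cont.intervalIntegrable _ _) (m_cont.intervalIntegrable _ _)).symm
    have h2 := M_le (1 / 1000)
    rw [e, intervalIntegral.integral_const, smul_eq_mul]
    linarith
  exact (M_strictMono.monotone h).trans h1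

end

end Kappa

open Kappa in
/-- **KAPPA.** -/
theorem m_KAPPA : StKappa := by
  intro x₀ hx₀ δ r hr hrδ hr1 hδ
  have hδ0 : 0 < δ := by linarith
  let f : ContDiffBump x₀.2 := ⟨δ / 2, δ, by linarith, by linarith⟩
  set A : ℝ := x₀.1 + 1 / 50 with hA
  let p : ℝ → ℝ := fun a => A - M (A - a)
  have hx1 : |x₀.1| ≤ 7 / 50 := by
    apply abs_le_of_sq_le_sq _ (by norm_num)
    unfold nsq at hx₀
    nlinarith [sq_nonneg x₀.2.re, sq_nonneg x₀.2.im]
  have hn0 : x₀.2.re ^ 2 + x₀.2.im ^ 2 = ‖x₀.2‖ ^ 2 := by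
    rw [← Complex.normSq_eq_norm_sq, Complex.normSq_apply]; ring
  have hx2 : ‖x₀.2‖ ≤ 7 / 50 := by
    apply le_of_sq_le_sq _ (by norm_num)
    unfold nsq at hx₀
    nlinarith [sq_nonneg x₀.1]
  have hps : ContDiff ℝ ∞ p := contDiff_const.sub (M_contDiff.comp (contDiff_const.sub contDiff_id))
  have hpd : ∀ a, HasDerivAt p (m (A - a)) a := by
    intro a
    have h1 : HasDerivAt (fun a => A - a) (-1) a := by
      simpa using (hasDerivAt_id a).const_sub A
    have h2 := (hasDerivAt_M (A - a)).comp a h1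
    have h3 := h2.const_sub A
    simpa using h3
  have hpm : StrictMono p := by
    intro a b hab
    have := M_strictMono (show A - b < A - a by linarith)
    show A - M (A - a) < A - M (A - b)
    linarith
  have hple : ∀ a, a ≤ p a := fun a => by
    have := M_le (A - a)
    show a ≤ A - M (A - a)
    linarith
  have hpA : ∀ a, A ≤ a → p a = a := fun a ha => by
    show A - M (A - a) = a
    rw [M_of_nonpos (by linarith)]; ring
  have hpA' : ∀ a, a ≤ A → p a ≤ A := fun a ha => by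
    have := hpm.monotone ha
    rwa [hpA A le_rfl] at this
  let k : R3 → R3 := fun x => (x.1 + f x.2 * (p x.1 - x.1), x.2)
  have hf0 : ∀ w, 0 ≤ f w := fun w => f.nonneg
  have hf1 : ∀ w, f w ≤ 1 := fun w => f.le_one
  have hg : ContDiff ℝ ∞ (fun x : R3 => x.1 + f x.2 * (p x.1 - x.1)) :=
    contDiff_fst.add ((f.contDiff.comp contDiff_snd).mul
      ((hps.comp contDiff_fst).sub contDiff_fst))
  have hk : ContDiff ℝ ∞ k := hg.prodMk contDiff_snd
  have hout : ∀ x : R3, δ ≤ ‖x.2 - x₀.2‖ → k x = x := by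
    intro x hx
    have : f x.2 = 0 := f.zero_of_le_dist (by rw [dist_eq_norm]; exact hx)
    show (x.1 + f x.2 * (p x.1 - x.1), x.2) = x
    rw [this]; simp
  have hright : ∀ x : R3, A ≤ x.1 → k x = x := by
    intro x hx
    show (x.1 + f x.2 * (p x.1 - x.1), x.2) = x
    rw [hpA _ hx]; simp
  have hmono : ∀ x : R3, x.1 ≤ (k x).1 := by
    intro x
    show x.1 ≤ x.1 + f x.2 * (p x.1 - x.1)
    nlinarith [hple x.1, hf0 x.2, mul_nonneg (hf0 x.2) (sub_nonneg.2 (hple x.1))]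
  have hle : ∀ x : R3, x.1 ≤ A → (k x).1 ≤ A := by
    intro x hx
    show x.1 + f x.2 * (p x.1 - x.1) ≤ A
    have h1 := hpA' _ hx
    have h2 : f x.2 * (p x.1 - x.1) ≤ 1 * (p x.1 - x.1) :=
      mul_le_mul_of_nonneg_right (hf1 _) (sub_nonneg.2 (hple _))
    linarith
  have hnsq : ∀ x : R3, nsq x = x.1 ^ 2 + ‖x.2‖ ^ 2 := by
    intro x
    unfold nsq
    rw [← Complex.normSq_eq_norm_sq, Complex.normSq_apply]; ring
  have key : ∀ R : ℝ, 1 / 5 ≤ R → ∀ x : R3, nsq x ≤ R ^ 2 → nsq (k x) ≤ R ^ 2 := by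
    intro R hR x hx
    by_cases h1 : δ ≤ ‖x.2 - x₀.2‖
    · rw [hout x h1]; exact hx
    by_cases h2 : A ≤ x.1
    · rw [hright x h2]; exact hx
    push Not at h1 h2
    have hb1 := hmono x
    have hb2 := hle x h2.le
    have hk2 : (k x).2 = x.2 := rfl
    rw [hnsq, hk2]
    rw [hnsq] at hx
    by_cases h3 : |(k x).1| ≤ |x.1|
    · have := sq_le_sq.2 h3
      linarith
    push Not at h3
    have hpos : 0 < (k x).1 := by
      by_contra hneg
      push Not at hneg
      rw [abs_of_nonpos hneg, abs_of_nonpos (hb1.trans hneg)] at h3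
      linarith
    have hw : ‖x.2‖ ≤ ‖x₀.2‖ + 1 / 25 := by
      have : ‖x.2‖ ≤ ‖x.2 - x₀.2‖ + ‖x₀.2‖ := by
        simpa using norm_add_le (x.2 - x₀.2) x₀.2
      linarith
    have ha : (k x).1 ≤ |x₀.1| + 1 / 50 := by
      have := le_abs_self x₀.1
      linarith
    have e1 : (k x).1 ^ 2 ≤ (|x₀.1| + 1 / 50) ^ 2 := by
      apply pow_le_pow_left₀ hpos.le ha
    have e2 : ‖x.2‖ ^ 2 ≤ (‖x₀.2‖ + 1 / 25) ^ 2 := by
      apply pow_le_pow_left₀ (norm_nonneg _) hw
    have e3 : |x₀.1| ^ 2 + ‖x₀.2‖ ^ 2 < (7 / 50) ^ 2 := by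
      rw [sq_abs, ← hnsq]; exact hx₀
    have e4 : (1 / 5 : ℝ) ^ 2 ≤ R ^ 2 := pow_le_pow_left₀ (by norm_num) hR 2
    nlinarith
  refine ⟨k, hk, ?_, ?_, hout, hright, fun x => ⟨rfl, hmono x⟩, ?_, key _ (by norm_num),
    key _ le_rfl⟩
  · rintro ⟨a, w⟩ ⟨b, w'⟩ h
    have h2 : w = w' := (Prod.ext_iff.1 h).2
    subst h2
    have h1 : a + f w * (p a - a) = b + f w * (p b - b) := (Prod.ext_iff.1 h).1
    have hs : StrictMono (fun a => a + f w * (p a - a)) := by
      intro a b hab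
      show a + f w * (p a - a) < b + f w * (p b - b)
      have e : b + f w * (p b - b) - (a + f w * (p a - a)) =
        (1 - f w) * (b - a) + f w * (p b - p a) := by ring
      have h3 := hpm hab
      rcases eq_or_lt_of_le (hf0 w) with h4 | h4
      · rw [← h4]; linarith
      · have h5 : 0 < f w * (p b - p a) := mul_pos h4 (by linarith)
        have h6 : 0 ≤ (1 - f w) * (b - a) := mul_nonneg (by linarith [hf1 w]) (by linarith)
        linarith
    rw [hs.injective h1]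
  · intro x
    have hd : HasFDerivAt k (fderiv ℝ k x) x :=
      (hk.differentiable (by norm_num) x).hasFDerivAt
    have hinj : Function.Injective (fderiv ℝ k x) := by
      rw [injective_iff_map_eq_zero]
      intro v hv
      have hsnd : HasFDerivAt (fun y : R3 => (k y).2) ((ContinuousLinearMap.snd ℝ ℝ ℂ).comp
          (fderiv ℝ k x)) x :=
        HasFDerivAt.comp (g := fun y : R3 => y.2) (f := k) x
          (ContinuousLinearMap.snd ℝ ℝ ℂ).hasFDerivAt hd
      have hsnd' : HasFDerivAt (fun y : R3 => (k y).2) (ContinuousLinearMap.snd ℝ ℝ ℂ) x :=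
        (ContinuousLinearMap.snd ℝ ℝ ℂ).hasFDerivAt
      have e1 := congrArg (fun L : R3 →L[ℝ] ℂ => L v) (hsnd.unique hsnd')
      simp only [ContinuousLinearMap.comp_apply, hv, map_zero] at e1
      have hv2 : v.2 = 0 := e1.symm
      have hl : HasDerivAt (fun t : ℝ => ((x.1 + t * v.1, x.2) : R3)) (v.1, (0 : ℂ)) 0 := by
        apply HasDerivAt.prodMk
        · simpa using ((hasDerivAt_id (0 : ℝ)).mul_const v.1).const_add x.1
        · exact hasDerivAt_const _ _
      have hx0 : ((x.1 + 0 * v.1, x.2) : R3) = x := by simp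
      have hd0 : HasFDerivAt k (fderiv ℝ k x) ((x.1 + 0 * v.1, x.2) : R3) := by rw [hx0]; exact hd
      have h1 := hd0.comp_hasDerivAt (0 : ℝ) hl
      have hvv : ((v.1, (0 : ℂ)) : R3) = v := by rw [← hv2]
      rw [hvv, hv] at h1
      have h2 : HasDerivAt (fun t : ℝ => (k ((x.1 + t * v.1, x.2) : R3)).1) 0 0 := by
        exact ((ContinuousLinearMap.fst ℝ ℝ ℂ).hasFDerivAt
          (x := k ((x.1 + 0 * v.1, x.2) : R3))).comp_hasDerivAt (0 : ℝ) h1
      have h3 : HasDerivAt (fun t : ℝ => (k ((x.1 + t * v.1, x.2) : R3)).1)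
          (v.1 + f x.2 * (m (A - x.1) * v.1 - v.1)) 0 := by
        have l1 : HasDerivAt (fun t : ℝ => x.1 + t * v.1) v.1 0 := by
          simpa using ((hasDerivAt_id (0 : ℝ)).mul_const v.1).const_add x.1
        have l2 : HasDerivAt (fun t : ℝ => p (x.1 + t * v.1)) (m (A - x.1) * v.1) 0 := by
          have hp0 : HasDerivAt p (m (A - x.1)) (x.1 + 0 * v.1) := by simpa using hpd x.1
          exact HasDerivAt.comp (h₂ := p) (h := fun t : ℝ => x.1 + t * v.1) (0 : ℝ) hp0 l1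
        exact l1.add ((l2.sub l1).const_mul (f x.2))
      have e2 := h2.unique h3
      have e3 : ((1 - f x.2) + f x.2 * m (A - x.1)) * v.1 = 0 := by linarith
      have hpos : 0 < (1 - f x.2) + f x.2 * m (A - x.1) := by
        have h4 := le_m (A - x.1)
        have h5 := hf0 x.2
        have h6 := hf1 x.2
        nlinarith [mul_le_mul_of_nonneg_left h4 h5]
      have hv1 : v.1 = 0 := by
        rcases mul_eq_zero.1 e3 with h | h
        · linarith
        · exact h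
      exact Prod.ext hv1 hv2
    refine ⟨hinj, ?_⟩
    have := LinearMap.injective_iff_surjective (f := (fderiv ℝ k x : R3 →ₗ[ℝ] R3))
    exact this.1 hinj
  · intro x hx
    rw [hnsq]
    by_cases h1 : δ / 2 ≤ ‖x.2 - x₀.2‖
    · have h2 : r ^ 2 ≤ ‖x.2 - x₀.2‖ ^ 2 := pow_le_pow_left₀ hr.le (hrδ.trans h1) 2
      have h3 : (k x - x₀).2 = x.2 - x₀.2 := rfl
      rw [h3]
      nlinarith [sq_nonneg (k x - x₀).1]
    · push Not at h1
      have hf : f x.2 = 1 := f.one_of_mem_closedBall (by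
        rw [Metric.mem_closedBall, dist_eq_norm]; exact h1.le)
      have h2 : (k x - x₀).1 = p x.1 - x₀.1 := by
        show x.1 + f x.2 * (p x.1 - x.1) - x₀.1 = _
        rw [hf]; ring
      have h3 : r ≤ (k x - x₀).1 := by
        rw [h2]
        show r ≤ A - M (A - x.1) - x₀.1
        have h4 : M (A - x.1) ≤ 1 / 100 := M_bound (by
          have := le_abs_self x₀.1
          linarith)
        linarith
      have h5 := pow_le_pow_left₀ hr.le h3 2
      nlinarith [sq_nonneg ‖(k x - x₀).2‖]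

end Pool.Agent.Helper27.BI


end

/-! ## Helper18.BI.M_S2 -/

section

/-!
# Project BI: module S2 (smoothness of the compression)
-/

set_option autoImplicit false

open scoped Manifold ContDiff Topology ComplexConjugate
open Set Pool.Agent.Helper65.Barb

namespace Pool.Agent.Helper18.BI

namespace S2

theorem rad_pos (u ε : ℝ) (hε : 0 < ε) : 0 < u ^ 2 + ε ^ 2 := by positivity

theorem add_sqrt_pos (u ε : ℝ) (hε : 0 < ε) : 0 < u + √(u ^ 2 + ε ^ 2) := by
  have h1 : |u| < √(u ^ 2 + ε ^ 2) := by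
    rw [← Real.sqrt_sq_eq_abs]
    exact Real.sqrt_lt_sqrt (sq_nonneg u) (by nlinarith [pow_pos hε 2])
  have h2 := neg_abs_le u
  linarith

theorem prof_pos (ε a : ℝ) (hε : 0 < ε) : 0 < prof ε a := by
  unfold prof
  have h1 := add_sqrt_pos (1 / 25 - a ^ 2) ε hε
  have h2 := add_sqrt_pos (1 / 25 - (a - 1) ^ 2) ε hε
  linarith

section
variable {X : Type*} [NormedAddCommGroup X] [NormedSpace ℝ X]

theorem sqrt_smooth {f g : X → ℝ} {x : X} (hf : ContDiffAt ℝ ∞ f x) (hg : ContDiffAt ℝ ∞ g x)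
    (h : 0 < g x) : ContDiffAt ℝ ∞ (fun y => √(f y ^ 2 + g y ^ 2)) x :=
  ((hf.pow 2).add (hg.pow 2)).sqrt (rad_pos (f x) (g x) h).ne'

theorem prof_smooth {e a : X → ℝ} {x : X} (he : ContDiffAt ℝ ∞ e x) (ha : ContDiffAt ℝ ∞ a x)
    (h : 0 < e x) : ContDiffAt ℝ ∞ (fun y => prof (e y) (a y)) x := by
  have h1 : ContDiffAt ℝ ∞ (fun y => 1 / 25 - a y ^ 2) x := contDiffAt_const.sub (ha.pow 2)
  have h2 : ContDiffAt ℝ ∞ (fun y => 1 / 25 - (a y - 1) ^ 2) x :=
    contDiffAt_const.sub ((ha.sub contDiffAt_const).pow 2)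
  exact ((h1.add (sqrt_smooth h1 he h)).div_const 2).add
    ((h2.add (sqrt_smooth h2 he h)).div_const 2)

theorem axc_smooth {e a : X → ℝ} {x : X} (he : ContDiffAt ℝ ∞ e x) (ha : ContDiffAt ℝ ∞ a x)
    (h : 0 < e x) : ContDiffAt ℝ ∞ (fun y => axc (e y) (a y)) x := by
  have h1 : ContDiffAt ℝ ∞ (fun y => a y + 1 / 5) x := ha.add contDiffAt_const
  have h2 : ContDiffAt ℝ ∞ (fun y => a y - 6 / 5) x := ha.sub contDiffAt_const
  exact contDiffAt_const.add (((sqrt_smooth h1 he h).sub (sqrt_smooth h2 he h)).div_const 2)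

theorem fac_smooth {e a k : X → ℝ} {x : X} (he : ContDiffAt ℝ ∞ e x) (ha : ContDiffAt ℝ ∞ a x)
    (hk : ContDiffAt ℝ ∞ k x) (h : 0 < e x)
    (h1 : 0 < (k x - prof (e x) (a x)) ^ 2 + 2 * e x * (k x + prof (e x) (a x)) + e x ^ 2)
    (h2 : 0 < k x + prof (e x) (a x) + e x +
      √((k x - prof (e x) (a x)) ^ 2 + 2 * e x * (k x + prof (e x) (a x)) + e x ^ 2)) :
    ContDiffAt ℝ ∞ (fun y => fac (e y) (a y) (k y)) x := by
  have hp := prof_smooth he ha h
  have hr : ContDiffAt ℝ ∞ (fun y => √((k y - prof (e y) (a y)) ^ 2 +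
      2 * e y * (k y + prof (e y) (a y)) + e y ^ 2)) x :=
    ((((hk.sub hp).pow 2).add ((contDiffAt_const.mul he).mul (hk.add hp))).add
      (he.pow 2)).sqrt h1.ne'
  have hd : ContDiffAt ℝ ∞ (fun y => k y + prof (e y) (a y) + e y +
      √((k y - prof (e y) (a y)) ^ 2 + 2 * e y * (k y + prof (e y) (a y)) + e y ^ 2)) x :=
    ((hk.add hp).add he).add hr
  have hq := (contDiffAt_const (c := (2 : ℝ))).mul hp |>.div hd h2.ne'
  exact hq.sqrt (div_pos (mul_pos two_pos (prof_pos _ _ h)) h2).ne'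

end

theorem pos1 (ε g k : ℝ) (hε : 0 < ε) (hg : 0 < g) (hk : 0 ≤ k) :
    0 < (k - g) ^ 2 + 2 * ε * (k + g) + ε ^ 2 := by positivity

theorem pos2 (ε g k : ℝ) (hε : 0 < ε) (hg : 0 < g) (hk : 0 ≤ k) :
    0 < k + g + ε + √((k - g) ^ 2 + 2 * ε * (k + g) + ε ^ 2) := by positivity

theorem frac_lt (u v ε : ℝ) (hε : 0 < ε) (huv : v < u) :
    v / √(v ^ 2 + ε ^ 2) < u / √(u ^ 2 + ε ^ 2) := by
  have hA : 0 < √(u ^ 2 + ε ^ 2) := Real.sqrt_pos.2 (rad_pos u ε hε)
  have hB : 0 < √(v ^ 2 + ε ^ 2) := Real.sqrt_pos.2 (rad_pos v ε hε)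
  have hA2 := Real.sq_sqrt (rad_pos u ε hε).le
  have hB2 := Real.sq_sqrt (rad_pos v ε hε).le
  rw [div_lt_div_iff₀ hB hA]
  set A := √(u ^ 2 + ε ^ 2)
  set B := √(v ^ 2 + ε ^ 2)
  rcases lt_or_ge v 0 with hv | hv
  · rcases lt_or_ge u 0 with hu | hu
    · have h1 : (-u * B) ^ 2 < (-v * A) ^ 2 := by
        have : (-v * A) ^ 2 - (-u * B) ^ 2 = ε ^ 2 * ((v - u) * (v + u)) := by
          linear_combination v ^ 2 * hA2 - u ^ 2 * hB2
        have h3 : 0 < (v - u) * (v + u) := mul_pos_of_neg_of_neg (by linarith) (by linarith)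
        have := mul_pos (pow_pos hε 2) h3
        linarith
      have h2 : -u * B < -v * A :=
        lt_of_pow_lt_pow_left₀ 2 (mul_nonneg (by linarith) hA.le) h1
      linarith
    · have h1 : v * A < 0 := mul_neg_of_neg_of_pos hv hA
      have h2 : 0 ≤ u * B := mul_nonneg hu hB.le
      linarith
  · have h1 : (v * A) ^ 2 < (u * B) ^ 2 := by
      have : (u * B) ^ 2 - (v * A) ^ 2 = ε ^ 2 * ((u - v) * (u + v)) := by
        linear_combination u ^ 2 * hB2 - v ^ 2 * hA2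
      have h3 : 0 < (u - v) * (u + v) := mul_pos (by linarith) (by linarith)
      have := mul_pos (pow_pos hε 2) h3
      linarith
    exact lt_of_pow_lt_pow_left₀ 2 (mul_nonneg (by linarith) hB.le) h1

theorem sqrt_deriv (c ε a : ℝ) (hε : 0 < ε) :
    HasDerivAt (fun a => √((a + c) ^ 2 + ε ^ 2)) ((a + c) / √((a + c) ^ 2 + ε ^ 2)) a := by
  have h1 : HasDerivAt (fun a => (a + c) ^ 2 + ε ^ 2) (2 * (a + c)) a := by
    have h2 : HasDerivAt (fun a : ℝ => a + c) 1 a := (hasDerivAt_id a).add_const c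
    have h3 := (h2.pow 2).add_const (ε ^ 2)
    simpa using h3
  have h4 := h1.sqrt (rad_pos (a + c) ε hε).ne'
  have e : (a + c) / √((a + c) ^ 2 + ε ^ 2) = 2 * (a + c) / (2 * √((a + c) ^ 2 + ε ^ 2)) := by
    rw [mul_div_mul_left _ _ two_ne_zero]
  rw [e]
  exact h4

end S2

open S2 in
theorem m_S2 : StS2 := by
  refine ⟨fun ε a h => prof_pos ε a h, fun ε hε => ⟨?_, ?_⟩, fun ε hε => ?_, ?_⟩
  · exact contDiff_iff_contDiffAt.2 fun a =>
      axc_smooth (e := fun _ => ε) (a := fun y => y) contDiffAt_const contDiffAt_id hε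
  · refine ⟨fun a => ((a + 1 / 5) / √((a + 1 / 5) ^ 2 + ε ^ 2) -
      (a - 6 / 5) / √((a - 6 / 5) ^ 2 + ε ^ 2)) / 2, fun a => ⟨?_, ?_⟩⟩
    · have h1 := sqrt_deriv (1 / 5) ε a hε
      have h2 := sqrt_deriv (-(6 / 5)) ε a hε
      simp only [← sub_eq_add_neg] at h2
      exact ((h1.sub h2).div_const 2).const_add (1 / 2)
    · have := frac_lt (a + 1 / 5) (a - 6 / 5) ε hε (by linarith)
      show 0 < (_ - _) / 2
      linarith
  · have hc : Continuous (fun x : ℝ × ℝ => prof ε x.1) := by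
      have : ContDiff ℝ ∞ (fun x : ℝ × ℝ => prof ε x.1) :=
        contDiff_iff_contDiffAt.2 fun x =>
          prof_smooth (e := fun _ => ε) (a := fun y : ℝ × ℝ => y.1) contDiffAt_const
            contDiffAt_fst hε
      exact this.continuous
    have hD : Continuous (fun x : ℝ × ℝ => (x.2 - prof ε x.1) ^ 2 +
        2 * ε * (x.2 + prof ε x.1) + ε ^ 2) := by
      fun_prop
    have hS : Continuous (fun x : ℝ × ℝ => x.2 + prof ε x.1 + ε +
        √((x.2 - prof ε x.1) ^ 2 + 2 * ε * (x.2 + prof ε x.1) + ε ^ 2)) := by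
      exact ((continuous_snd.add hc).add continuous_const).add (Real.continuous_sqrt.comp hD)
    refine ⟨{x | 0 < (x.2 - prof ε x.1) ^ 2 + 2 * ε * (x.2 + prof ε x.1) + ε ^ 2} ∩
      {x | 0 < x.2 + prof ε x.1 + ε +
        √((x.2 - prof ε x.1) ^ 2 + 2 * ε * (x.2 + prof ε x.1) + ε ^ 2)},
      (isOpen_lt continuous_const hD).inter (isOpen_lt continuous_const hS), ?_, ?_⟩
    · intro a k hk
      exact ⟨pos1 ε _ k hε (prof_pos ε a hε) hk, pos2 ε _ k hε (prof_pos ε a hε) hk⟩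
    · intro x hx
      exact (fac_smooth (e := fun _ => ε) (a := fun y : ℝ × ℝ => y.1) (k := fun y => y.2)
        contDiffAt_const contDiffAt_fst contDiffAt_snd hε hx.1 hx.2).contDiffWithinAt
  · intro q hq
    have hε : 0 < q.1 := hq.1
    have he : ContDiffAt ℝ ∞ (fun y : ℝ × R4 => y.1) q := contDiffAt_fst
    have h1 : ContDiffAt ℝ ∞ (fun y : ℝ × R4 => y.2.1) q := contDiffAt_snd.fst
    have h2 : ContDiffAt ℝ ∞ (fun y : ℝ × R4 => y.2.2.1) q := contDiffAt_snd.snd.fst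
    have h3 : ContDiffAt ℝ ∞ (fun y : ℝ × R4 => y.2.2.2) q := contDiffAt_snd.snd.snd
    have hk : ContDiffAt ℝ ∞ (fun y : ℝ × R4 => Complex.normSq y.2.2.2) q := by
      have hre : ContDiffAt ℝ ∞ (fun y : ℝ × R4 => y.2.2.2.re) q :=
        Complex.reCLM.contDiff.contDiffAt.comp q h3
      have him : ContDiffAt ℝ ∞ (fun y : ℝ × R4 => y.2.2.2.im) q :=
        Complex.imCLM.contDiff.contDiffAt.comp q h3
      simp only [Complex.normSq_apply]
      exact (hre.mul hre).add (him.mul him)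
    have hg := prof_pos q.1 q.2.2.1 hε
    have hk0 : 0 ≤ Complex.normSq q.2.2.2 := Complex.normSq_nonneg _
    have hf : ContDiffAt ℝ ∞ (fun y : ℝ × R4 => fac y.1 y.2.2.1 (Complex.normSq y.2.2.2)) q :=
      fac_smooth he h2 hk hε (pos1 _ _ _ hε hg hk0) (pos2 _ _ _ hε hg hk0)
    have hf' : ContDiffAt ℝ ∞ (fun y : ℝ × R4 =>
        ((fac y.1 y.2.2.1 (Complex.normSq y.2.2.2) : ℝ) : ℂ)) q :=
      Complex.ofRealCLM.contDiff.contDiffAt.comp q hf
    have hfin : ContDiffAt ℝ ∞ (fun q : ℝ × R4 => sq q.1 q.2) q := by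
      unfold sq
      exact (contDiffAt_const.add (he.mul (h1.sub contDiffAt_const))).prodMk
        ((axc_smooth he h2 hε).prodMk (hf'.mul h3))
    exact hfin.contDiffWithinAt

end Pool.Agent.Helper18.BI


end

/-! ## Helper18.BI.M_T2 -/

section

/-!
# Project BI: module T2 (the implantation class of a germ)
-/

set_option autoImplicit false

open scoped Manifold ContDiff Topology ComplexConjugate
open Set Pool.Agent.Helper65.Barb

namespace Pool.Agent.Helper18.BI

namespace T2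

section
variable {E : Type*} [NormedAddCommGroup E] [NormedSpace ℝ E] {H : Type*} [TopologicalSpace H]
  {I : ModelWithCorners ℝ E H} {M : Type*} [TopologicalSpace M] [ChartedSpace H M]

/-- the identity of an open set as a partial diffeomorphism -/
noncomputable def idOn (V : Set R4) (hV : IsOpen V) :
    PartialDiffeomorph 𝓘(ℝ, R4) 𝓘(ℝ, R4) R4 R4 ∞ where
  toPartialEquiv := PartialEquiv.ofSet V
  open_source := hV
  open_target := hV
  contMDiffOn_toFun := contMDiffOn_id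
  contMDiffOn_invFun := contMDiffOn_id

theorem congr_ld {f g : R4 → M} {V : Set R4} (hV : IsOpen V) (hfg : EqOn f g V) {x : R4}
    (hx : x ∈ V) (hf : IsLocalDiffeomorphAt 𝓘(ℝ, R4) I ∞ f x) :
    IsLocalDiffeomorphAt 𝓘(ℝ, R4) I ∞ g x := by
  obtain ⟨Φ, hxΦ, he⟩ := hf
  refine ⟨(idOn V hV).trans Φ, ?_, ?_⟩
  · exact ⟨hx, hxΦ⟩
  · rintro y ⟨hy, hyΦ⟩
    exact (hfg hy).symm.trans (he hyΦ)

theorem diff_ld {Ψ Ψ' : M → M} (h1 : ContMDiff I I ∞ Ψ) (h2 : ContMDiff I I ∞ Ψ')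
    (h3 : ∀ x, Ψ (Ψ' x) = x) (h4 : ∀ x, Ψ' (Ψ x) = x) (x : M) :
    IsLocalDiffeomorphAt I I ∞ Ψ x := by
  let d : M ≃ₘ⟮I, I⟯ M :=
    { toFun := Ψ
      invFun := Ψ'
      left_inv := h4
      right_inv := h3
      contMDiff_toFun := h1
      contMDiff_invFun := h2 }
  exact d.isLocalDiffeomorph x

end

theorem sdiff_bar : SDiff bsupp barMap (fun p => bfam.g (1, p)) := by
  refine ⟨?_, ?_, fun p => bfam.fg 1 p, fun p => bfam.gf 1 p, fun p hp => barMap_off hp⟩
  · exact contMDiff_iff_contDiff.1 (bfam.diffeo 1).contMDiff_toFun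
  · exact contMDiff_iff_contDiff.1 (bfam.diffeo 1).contMDiff_invFun

theorem maps_bar : MapsTo barMap bsupp bsupp := by
  intro p hp
  by_contra h
  have h1 : barMap (barMap p) = barMap p := barMap_off h
  have h2 : barMap p = p := by
    have h3 := congrArg (fun q => bfam.g (1, q)) h1
    have h4 : ∀ q, bfam.g (1, barMap q) = q := fun q => bfam.gf 1 q
    simpa [h4] using h3
  rw [h2] at h
  exact h hp

theorem sq_cont (ε : ℝ) (hε : 0 < ε) : Continuous (sq ε) := by
  have h := m_S2.2.2.2.continuousOn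
  have h1 : Continuous (fun p : R4 => ((ε, p) : ℝ × R4)) := by fun_prop
  exact h.comp_continuous h1 (fun p => ⟨hε, trivial⟩)

end T2

open T2 in
theorem m_T2 (a3 : StA3) (ci : StCI) (im : StImp) (s4 : StS4) (s5 : StS5) (t1 : StT1) : StT2 := by
  intro E _ _ H _ I M _ _ _
  have hSPb : ∀ p ∈ bsupp, sq 0 p ∈ SP := fun p hp => s4.1 p ⟨hp.2.1, hp.2.2⟩
  have hSPc : IsCompact SP := s4.2.2.2.2.2.2.2.2.1
  obtain ⟨t1i, -, t1iii, -⟩ := t1 E H I M SP bsupp hSPc isCompact_bsupp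
  obtain ⟨-, ci_symm, ci_refl, ci_trans, -, -, -, ci_conj, -, -⟩ := ci E H I M
  have A3 : ∀ J : ℝ × R4 → M, FamOn I J bsupp → CIsot I (imp (fun p => J (0, p)) bsupp barMap)
      (imp (fun p => J (1, p)) bsupp barMap) := fun J hJ =>
    a3 E H I M J bsupp barMap _ isCompact_bsupp hJ sdiff_bar
  have h0mem : (0 : ℝ) ∈ Icc (0 : ℝ) 1 := ⟨le_rfl, zero_le_one⟩
  have h1mem : (1 : ℝ) ∈ Icc (0 : ℝ) 1 := ⟨zero_le_one, le_rfl⟩
  refine ⟨?_, ?_, ?_, ?_, ?_, ?_, ?_⟩
  · intro F hF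
    obtain ⟨ε₀, hε₀, hfam⟩ := t1iii hSPb F hF
    refine ⟨ε₀, hε₀, fun ε hε => ⟨ε₀, hε₀, fun ε' hε' => ⟨?_, ?_⟩⟩⟩
    · have h := (hfam ε' hε' ε' hε').2 0 h0mem
      simp only [sub_zero, one_mul, zero_mul, add_zero] at h
      exact h
    · have h := A3 _ (hfam ε hε ε' hε')
      simp only [sub_zero, one_mul, zero_mul, add_zero, sub_self, zero_add] at h
      exact h
  · rintro F φ ψ ⟨ε₀, hε₀, h⟩ ⟨ε₁, hε₁, h'⟩
    have hm : 0 < min ε₀ ε₁ := lt_min hε₀ hε₁
    have h1 := h (min ε₀ ε₁ / 2) ⟨by linarith, by linarith [min_le_left ε₀ ε₁]⟩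
    have h2 := h' (min ε₀ ε₁ / 2) ⟨by linarith, by linarith [min_le_right ε₀ ε₁]⟩
    exact ci_trans _ _ _ h1.2 (ci_symm _ _ h2.2)
  · rintro J φ hJ ⟨ε₀, hε₀, h⟩
    obtain ⟨ε₁, hε₁, hfam⟩ := t1i hSPb J hJ
    refine ⟨min ε₀ ε₁, lt_min hε₀ hε₁, fun ε hε => ?_⟩
    have e0 : ε ∈ Ioo 0 ε₀ := ⟨hε.1, hε.2.trans_le (min_le_left _ _)⟩
    have e1 : ε ∈ Ioo 0 ε₁ := ⟨hε.1, hε.2.trans_le (min_le_right _ _)⟩
    refine ⟨(hfam ε e1).2 1 h1mem, ?_⟩
    exact ci_trans _ _ _ (h ε e0).2 (A3 _ (hfam ε e1))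
  · rintro F φ ψ ⟨ε₀, hε₀, h⟩ hφψ
    exact ⟨ε₀, hε₀, fun ε hε => ⟨(h ε hε).1, ci_trans _ _ _ (ci_symm _ _ hφψ) (h ε hε).2⟩⟩
  · rintro F F' U φ hU hSU hFF ⟨ε₀, hε₀, h⟩
    obtain ⟨ε₁, hε₁, hs⟩ := (s5 bsupp {q : ℝ × R4 | q.2 ∈ U} isCompact_bsupp
      (hU.preimage continuous_snd)).1 (fun t _ p hp => hSU (hSPb p hp))
    refine ⟨min ε₀ ε₁, lt_min hε₀ hε₁, fun ε hε => ?_⟩
    have e0 : ε ∈ Ioo 0 ε₀ := ⟨hε.1, hε.2.trans_le (min_le_left _ _)⟩
    have e1 : ε ∈ Ioo 0 ε₁ := ⟨hε.1, hε.2.trans_le (min_le_right _ _)⟩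
    have hmem : ∀ p ∈ bsupp, sq ε p ∈ U := fun p hp => hs ε e1 0 h0mem p hp
    obtain ⟨hemb, hci⟩ := h ε e0
    have hV : IsOpen (sq ε ⁻¹' U) := hU.preimage (sq_cont ε hε.1)
    have heq : EqOn (F ∘ sq ε) (F' ∘ sq ε) (sq ε ⁻¹' U) := fun p hp => hFF hp
    have heqb : EqOn (F ∘ sq ε) (F' ∘ sq ε) bsupp := fun p hp => hFF (hmem p hp)
    refine ⟨⟨fun p hp => congr_ld hV heq (hmem p hp) (hemb.1 p hp), hemb.2.congr heqb⟩, ?_⟩
    have hi := (im E H I M (F ∘ sq ε) bsupp barMap hemb.2).2.2.2.2.2.1 (F' ∘ sq ε) heqb maps_bar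
    rw [← hi]
    exact hci
  · rintro F φ Ψ Ψ' hΨ hΨ' h1 h2 ⟨ε₀, hε₀, h⟩
    refine ⟨ε₀, hε₀, fun ε hε => ?_⟩
    obtain ⟨hemb, hci⟩ := h ε hε
    refine ⟨⟨fun p hp => ?_, ?_⟩, ?_⟩
    · exact IsLocalDiffeomorphAt.comp I M (hemb.1 p hp) (diff_ld hΨ hΨ' h1 h2 _)
    · intro p hp q hq hpq
      apply hemb.2 hp hq
      have h3 := congrArg Ψ' hpq
      have h4 : Ψ' (Ψ (F (sq ε p))) = Ψ' (Ψ (F (sq ε q))) := h3
      rw [h2, h2] at h4
      exact h4
    · have h5 := ci_conj _ _ Ψ Ψ' hci hΨ hΨ' h1 h2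
      have h6 := (im E H I M (F ∘ sq ε) bsupp barMap hemb.2).2.2.2.2.2.2.1 Ψ Ψ' h1 h2
      have h7 : imp ((fun p => Ψ (F p)) ∘ sq ε) bsupp barMap =
          fun x => Ψ (imp (F ∘ sq ε) bsupp barMap (Ψ' x)) := funext h6
      rw [h7]
      exact h5
  · rintro F φ ⟨ε₀, hε₀, h⟩
    exact ci_refl _ _ (h (ε₀ / 2) ⟨by linarith, by linarith⟩).2

end Pool.Agent.Helper18.BI


end

/-! ## Helper18.BI.M_X3 -/

section

/-!
# Project BI, module X3: lifting a germ along an open embedding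
-/

set_option autoImplicit false

open scoped Manifold ContDiff Topology ComplexConjugate
open Set Pool.Agent.Helper65.Barb

namespace Pool.Agent.Helper18.BI

theorem m_X3 : StX3 := by
  intro E _ _ H _ I M _ _ _ c B L hc hB hL
  have hinj : Function.Injective c := injOn_univ.1 hc.2
  have hloc : IsLocalDiffeomorph 𝓘(ℝ, R4) I ∞ c := fun p => hc.1 p (mem_univ p)
  have hopen : IsOpen (range c) := hloc.isOpen_range
  have hleft : ∀ q, Function.invFun c (c q) = q := Function.leftInverse_invFun hinj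
  have hright : ∀ y ∈ range c, c (Function.invFun c y) = y := by
    rintro y ⟨q, rfl⟩
    rw [hleft]
  -- the left inverse is a local diffeomorphism at the points of the range
  have hinv : ∀ y ∈ range c, IsLocalDiffeomorphAt I 𝓘(ℝ, R4) ∞ (Function.invFun c) y := by
    rintro y ⟨q, rfl⟩
    obtain ⟨Φ, hq, heq⟩ := hloc q
    refine ⟨Φ.symm, ?_, ?_⟩
    · rw [heq hq]
      exact Φ.toPartialEquiv.map_source hq
    · intro y hy
      have h1 : Φ.toPartialEquiv.symm y ∈ Φ.source := Φ.toPartialEquiv.map_target hy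
      have h2 : c (Φ.toPartialEquiv.symm y) = y := by
        rw [heq h1]
        exact Φ.toPartialEquiv.right_inv hy
      have h3 := hleft (Φ.toPartialEquiv.symm y)
      rw [h2] at h3
      exact h3
  refine ⟨⟨fun p hp => ?_, fun p hp p' hp' h => ?_⟩, interior (B ⁻¹' range c), isOpen_interior,
    fun p hp => ?_, fun p hp => ?_⟩
  · exact (hB.1 p hp).comp _ _ (hinv (B p) (hL (mem_image_of_mem B hp)))
  · have h1 := congrArg c h
    simp only at h1
    rw [hright (B p) (hL (mem_image_of_mem B hp)), hright (B p') (hL (mem_image_of_mem B hp'))] at h1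
    exact hB.2 hp hp' h1
  · rw [mem_interior_iff_mem_nhds]
    exact (hB.1 p hp).contMDiffAt.continuousAt.preimage_mem_nhds
      (hopen.mem_nhds (hL (mem_image_of_mem B hp)))
  · have h1 : p ∈ B ⁻¹' range c := interior_subset hp
    exact hright _ h1

end Pool.Agent.Helper18.BI


end
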