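import Pool.Agent.Helper65.Barb.Defs
import Pool.Agent.Helper70.BI.C.P04
import Pool.Agent.Helper70.BI.C.P10

/-!
# Project BI (MP_8e98f2_gt): collected modules, part 27

The contents of the modules
* Helper18.BI.M_S1
* Helper18.BI.M_S5
* Helper18.BI.M_T1
* Helper18.BI.M_T8
* Helper18.BI.M_X1
* Helper18.BI.M_X2
* Helper18.BI.M_FR1

in one file, so that the whole proof builds in a short time.
-/

namespace Pool.Agent.Helper65.Barb
end Pool.Agent.Helper65.Barb


/-! ## Helper18.BI.M_S1 -/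

section

/-!
# Project BI: module S1
-/

set_option autoImplicit false

open scoped Manifold ContDiff Topology ComplexConjugate
open Set Pool.Agent.Helper65.Barb

namespace Pool.Agent.Helper18.BI

theorem m_S1 : StS1 := by
  intro ε g k hε hg hk
  have hrad : 0 < (k - g) ^ 2 + 2 * ε * (k + g) + ε ^ 2 := by positivity
  set R : ℝ := √((k - g) ^ 2 + 2 * ε * (k + g) + ε ^ 2) with hR
  have hRpos : 0 < R := Real.sqrt_pos.2 hrad
  have hRsq : R ^ 2 = (k - g) ^ 2 + 2 * ε * (k + g) + ε ^ 2 := Real.sq_sqrt hrad.le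
  have hRk : k - g ≤ R := by
    refine Real.le_sqrt_of_sq_le ?_
    nlinarith [mul_nonneg hε.le (add_nonneg hk hg.le), sq_nonneg ε]
  have hRg : g - k ≤ R := by
    refine Real.le_sqrt_of_sq_le ?_
    nlinarith [mul_nonneg hε.le (add_nonneg hk hg.le), sq_nonneg ε]
  have hS : 0 < k + g + ε + R := by positivity
  have hu : 0 < 2 * g / (k + g + ε + R) := by positivity
  have hff : ff ε g k = √(2 * g / (k + g + ε + R)) := rfl
  have hffpos : 0 < ff ε g k := by rw [hff]; exact Real.sqrt_pos.2 hu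
  have hffsq : ff ε g k ^ 2 = 2 * g / (k + g + ε + R) := by rw [hff]; exact Real.sq_sqrt hu.le
  have hX : k * ff ε g k ^ 2 = (k + g + ε - R) / 2 := by
    rw [hffsq, mul_div_assoc', div_eq_div_iff hS.ne' two_ne_zero]
    linear_combination hRsq
  refine ⟨hffpos, ?_, ?_, ?_, ?_⟩
  · rw [hff, Real.sqrt_le_left (by norm_num), one_pow, div_le_one hS]
    linarith
  · rw [hX]
    linear_combination (1 / 4) * hRsq
  · rw [hX]
    have : k - g + ε < R := by
      rcases lt_or_ge (k - g + ε) 0 with h | h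
      · exact h.trans hRpos
      · have h2 : (k - g + ε) ^ 2 < R ^ 2 := by
          rw [hRsq]; nlinarith [mul_pos hε hg]
        exact lt_of_pow_lt_pow_left₀ 2 hRpos.le h2
    linarith
  · have h1 : HasDerivAt (fun k : ℝ => (k - g) ^ 2 + 2 * ε * (k + g) + ε ^ 2)
        (2 * (k - g + ε)) k := by
      have := ((((hasDerivAt_id k).sub_const g).pow 2).add
        (((hasDerivAt_id k).add_const g).const_mul (2 * ε))).add_const (ε ^ 2)
      refine this.congr_deriv ?_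
      simp; ring
    have h2 : HasDerivAt (fun k : ℝ => √((k - g) ^ 2 + 2 * ε * (k + g) + ε ^ 2))
        ((k - g + ε) / R) k := by
      refine (h1.sqrt hrad.ne').congr_deriv ?_
      rw [← hR]; field_simp
    have h3 : HasDerivAt (fun k : ℝ => k + g + ε + √((k - g) ^ 2 + 2 * ε * (k + g) + ε ^ 2))
        (1 + (k - g + ε) / R) k :=
      (((hasDerivAt_id k).add_const g).add_const ε).add h2
    have h4 := (h3.inv hS.ne').const_mul (2 * g)
    have h5 : HasDerivAt (ff ε g) (2 * g * (-(1 + (k - g + ε) / R) / (k + g + ε + R) ^ 2) /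
        (2 * ff ε g k)) k := HasDerivAt.sqrt h4 hu.ne'
    refine ⟨_, h5, ?_⟩
    have h6 : 0 < ff ε g k * (ff ε g k + 2 * k * (2 * g * (-(1 + (k - g + ε) / R) /
        (k + g + ε + R) ^ 2) / (2 * ff ε g k))) := by
      have e1 : ff ε g k * (ff ε g k + 2 * k * (2 * g * (-(1 + (k - g + ε) / R) /
        (k + g + ε + R) ^ 2) / (2 * ff ε g k))) = ff ε g k ^ 2 +
          k * (2 * g * (-(1 + (k - g + ε) / R) / (k + g + ε + R) ^ 2)) := by
        field_simp
      rw [e1, hffsq]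
      have e2 : 2 * g / (k + g + ε + R) + k * (2 * g * (-(1 + (k - g + ε) / R) /
          (k + g + ε + R) ^ 2)) = 2 * g * ((g + ε) * R + (g + ε) ^ 2 + ε * k - k * g) /
            (R * (k + g + ε + R) ^ 2) := by
        field_simp
        linear_combination hRsq
      rw [e2]
      refine div_pos (mul_pos (by positivity) ?_) (by positivity)
      have := mul_le_mul_of_nonneg_left hRk (add_pos hg hε).le
      nlinarith [mul_pos hg hε, mul_nonneg hε.le hk, mul_pos hε hε]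
    exact pos_of_mul_pos_right h6 hffpos.le

end Pool.Agent.Helper18.BI


end

/-! ## Helper18.BI.M_S5 -/

section

/-!
# Module S5: the tube lemma
-/

set_option autoImplicit false

open scoped Manifold ContDiff Topology ComplexConjugate
open Set Pool.Agent.Helper65.Barb

namespace Pool.Agent.Helper18.BI

namespace S5

theorem tube (g : ℝ → ℝ × R4 → ℝ × R4)
    (hg : ContinuousOn (fun q : ℝ × (ℝ × R4) => g q.1 q.2) (Ici 0 ×ˢ univ))
    {C : Set (ℝ × R4)} (hC : IsCompact C) {U : Set (ℝ × R4)} (hU : IsOpen U)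
    (h : ∀ c ∈ C, g 0 c ∈ U) : ∃ ε₀ > 0, ∀ ε ∈ Ioo 0 ε₀, ∀ c ∈ C, g ε c ∈ U := by
  have h1 : Continuous (fun q : ℝ × (ℝ × R4) => ((max q.1 0, q.2) : ℝ × (ℝ × R4))) := by
    fun_prop
  have hcont : Continuous (fun q : ℝ × (ℝ × R4) => g (max q.1 0) q.2) :=
    hg.comp_continuous h1 (fun q => mk_mem_prod (mem_Ici.2 (le_max_right q.1 0)) (mem_univ _))
  obtain ⟨u, v, hu, hv, hu0, hCv, huv⟩ := generalized_tube_lemma
    (isCompact_singleton (x := (0 : ℝ))) hC (hU.preimage hcont) (by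
      rintro ⟨a, c⟩ ⟨ha, hc⟩
      have ha' : a = 0 := ha
      show g (max a 0) c ∈ U
      rw [ha', max_self]
      exact h c hc)
  obtain ⟨ε₀, hε₀, hball⟩ := Metric.isOpen_iff.1 hu 0 (hu0 rfl)
  refine ⟨ε₀, hε₀, fun ε hε c hc => ?_⟩
  have hε1 : ε ∈ u := by
    apply hball
    rw [Metric.mem_ball, Real.dist_eq, sub_zero, abs_of_pos hε.1]
    exact hε.2
  have h2 : g (max ε 0) c ∈ U := huv (mk_mem_prod hε1 (hCv hc))
  rwa [max_eq_left hε.1.le] at h2

end S5

theorem m_S5 (h3 : StS3) : StS5 := by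
  intro K U hK hU
  have hC : IsCompact (Icc (0 : ℝ) 1 ×ˢ K) := isCompact_Icc.prod hK
  have hsq : ContinuousOn (fun q : ℝ × (ℝ × R4) => sq q.1 q.2.2) (Ici 0 ×ˢ univ) := by
    have h1 : Continuous (fun q : ℝ × (ℝ × R4) => ((q.1, q.2.2) : ℝ × R4)) := by fun_prop
    exact ContinuousOn.comp (g := fun q : ℝ × R4 => sq q.1 q.2) (t := Ici 0 ×ˢ univ) h3
      h1.continuousOn (fun q hq => ⟨hq.1, mem_univ _⟩)
  have ht : ContinuousOn (fun q : ℝ × (ℝ × R4) => q.2.1) (Ici (0 : ℝ) ×ˢ (univ : Set (ℝ × R4))) :=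
    (continuous_fst.comp continuous_snd).continuousOn
  have hp : ContinuousOn (fun q : ℝ × (ℝ × R4) => q.2.2) (Ici (0 : ℝ) ×ˢ (univ : Set (ℝ × R4))) :=
    (continuous_snd.comp continuous_snd).continuousOn
  refine ⟨fun h => ?_, fun h => ?_⟩
  · obtain ⟨ε₀, h0, h1⟩ := S5.tube (fun ε c => (c.1, sq ε c.2)) (ht.prodMk hsq) hC hU
      (fun c hc => h c.1 hc.1 c.2 hc.2)
    exact ⟨ε₀, h0, fun ε hε t ht p hp => h1 ε hε (t, p) ⟨ht, hp⟩⟩
  · obtain ⟨ε₀, h0, h1⟩ := S5.tube (fun ε c => (c.1, hom ε c)) (ht.prodMk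
      (((continuousOn_const.sub ht).smul hsq).add (ht.smul hp))) hC hU
      (fun c hc => h c.1 hc.1 c.2 hc.2)
    exact ⟨ε₀, h0, fun ε hε t ht p hp => h1 ε hε (t, p) ⟨ht, hp⟩⟩

end Pool.Agent.Helper18.BI


end

/-! ## Helper18.BI.M_T1 -/

section

/-!
# Project BI (MP_8e98f2_gt), module T1: thin lemma, the four families
-/

set_option autoImplicit false

open scoped Manifold ContDiff Topology ComplexConjugate
open Set Pool.Agent.Helper65.Barb

namespace Pool.Agent.Helper18.BI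

namespace T1

variable {E : Type} [NormedAddCommGroup E] [NormedSpace ℝ E] {H : Type} [TopologicalSpace H]
    {I : ModelWithCorners ℝ E H} {M : Type} [TopologicalSpace M] [ChartedSpace H M]

variable (I) in
/-- a good open set for the family `J` -/
structure Good (J : ℝ × R4 → M) (U : Set (ℝ × R4)) : Prop where
  op : IsOpen U
  sm : ContMDiffOn 𝓘(ℝ, ℝ × R4) I ∞ J U
  inj : InjOn (fun q : ℝ × R4 => (q.1, J q)) U
  loc : ∀ q ∈ U, IsLocalDiffeomorphAt 𝓘(ℝ, R4) I ∞ (fun p => J (q.1, p)) q.2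

theorem good_of_delta {J : ℝ × R4 → M}
    (δ : PartialDiffeomorph 𝓘(ℝ, ℝ × R4) (𝓘(ℝ, ℝ).prod I) (ℝ × R4) (ℝ × M) ∞)
    (hδ : ∀ q ∈ δ.source, δ q = (q.1, J q)) : Good I J δ.source := by
  have hsm : ContMDiffOn 𝓘(ℝ, ℝ × R4) I ∞ J δ.source := by
    refine (contMDiff_snd.comp_contMDiffOn δ.contMDiffOn_toFun).congr ?_
    intro q hq
    have := hδ q hq
    change J q = (δ q).2
    rw [this]
  refine ⟨δ.open_source, hsm, ?_, ?_⟩
  · intro q hq q' hq' h
    apply δ.injOn hq hq'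
    rw [hδ q hq, hδ q' hq']
    exact h
  · intro q hq
    have hL : ContDiff ℝ ∞ (fun p : R4 => (q.1, p)) := contDiff_const.prodMk contDiff_id
    have hR : ContMDiff I (𝓘(ℝ, ℝ).prod I) ∞ (fun y : M => (q.1, y)) :=
      contMDiff_const.prodMk contMDiff_id
    have key : ∀ y : M, (q.1, y) ∈ δ.target →
        (q.1, (δ.toPartialEquiv.symm (q.1, y)).2) = δ.toPartialEquiv.symm (q.1, y) := by
      intro y hy
      have h1 : δ.toPartialEquiv.symm (q.1, y) ∈ δ.source := δ.map_target hy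
      have h2 : δ (δ.toPartialEquiv.symm (q.1, y)) = (q.1, y) := δ.right_inv hy
      rw [hδ _ h1] at h2
      have h3 := congrArg Prod.fst h2
      exact Prod.ext h3.symm rfl
    refine ⟨{ toFun := fun p => J (q.1, p)
              invFun := fun y => (δ.toPartialEquiv.symm (q.1, y)).2
              source := {p | (q.1, p) ∈ δ.source}
              target := {y | (q.1, y) ∈ δ.target}
              map_source' := ?_
              map_target' := ?_
              left_inv' := ?_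
              right_inv' := ?_
              open_source := ?_
              open_target := ?_
              contMDiffOn_toFun := ?_
              contMDiffOn_invFun := ?_ }, hq, fun _ _ => rfl⟩
    · intro p hp
      have h1 := hδ _ hp
      have h2 := δ.map_source hp
      change (q.1, J (q.1, p)) ∈ δ.target
      have h3 : δ (q.1, p) ∈ δ.target := h2
      rw [h1] at h3
      exact h3
    · intro y hy
      change (q.1, (δ.toPartialEquiv.symm (q.1, y)).2) ∈ δ.source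
      rw [key y hy]
      exact δ.map_target hy
    · intro p hp
      have h1 := hδ _ hp
      have h2 : δ.toPartialEquiv.symm (δ (q.1, p)) = (q.1, p) := δ.left_inv hp
      rw [h1] at h2
      change (δ.toPartialEquiv.symm (q.1, J (q.1, p))).2 = p
      have h3 : (q.1, J (q.1, p)) = (((q.1, p) : ℝ × R4).1, J (q.1, p)) := rfl
      rw [h3, h2]
    · intro y hy
      rw [key y hy]
      have h1 : δ.toPartialEquiv.symm (q.1, y) ∈ δ.source := δ.map_target hy
      have h2 : δ (δ.toPartialEquiv.symm (q.1, y)) = (q.1, y) := δ.right_inv hy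
      rw [hδ _ h1] at h2
      exact congrArg Prod.snd h2
    · exact δ.open_source.preimage hL.continuous
    · exact δ.open_target.preimage hR.continuous
    · exact hsm.comp hL.contMDiff.contMDiffOn (fun p hp => hp)
    · have h1 : ContMDiffOn (𝓘(ℝ, ℝ).prod I) 𝓘(ℝ, ℝ × R4) ∞ δ.toPartialEquiv.symm δ.target :=
        δ.contMDiffOn_invFun
      have h2 : ContMDiffOn I 𝓘(ℝ, ℝ × R4) ∞ (fun y => δ.toPartialEquiv.symm (q.1, y))
          {y | (q.1, y) ∈ δ.target} := h1.comp hR.contMDiffOn (fun p hp => hp)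
      have h3 : ContDiff ℝ ∞ (fun q : ℝ × R4 => q.2) := contDiff_snd
      exact h3.contMDiff.comp_contMDiffOn h2

theorem exists_good [T2Space M] (a1 : StA1) (a2 : StA2) {J : ℝ × R4 → M} {L : Set R4}
    (hL : IsCompact L) (hJ : FamOn I J L) :
    ∃ U : Set (ℝ × R4), Icc 0 1 ×ˢ L ⊆ U ∧ Good I J U := by
  obtain ⟨δ, h1, h2⟩ := a1 (ℝ × R4) (ℝ × E) (ModelProd ℝ H) (𝓘(ℝ, ℝ).prod I) (ℝ × M)
    (fun q => (q.1, J q)) (Icc 0 1 ×ˢ L) (isCompact_Icc.prod hL) (a2 E H I M J L hJ) (by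
      intro q hq q' hq' h
      have h0 : ((q.1, J q) : ℝ × M) = (q'.1, J q') := h
      obtain ⟨h3, h4⟩ := Prod.mk.inj h0
      refine Prod.ext h3 ?_
      apply (hJ.2 q.1 hq.1).2 hq.2 hq'.2
      change J (q.1, q.2) = J (q.1, q'.2)
      rw [Prod.mk.eta, h4, h3])
  exact ⟨δ.source, h1, good_of_delta δ h2⟩

/-- composition of a family of germs in `R4` with a good family -/
theorem fam_comp {J : ℝ × R4 → M} {U : Set (ℝ × R4)} (hU : Good I J U) {G : ℝ × R4 → R4}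
    {K : Set R4} (hG : FamOn 𝓘(ℝ, R4) G K)
    (hm : ∀ t ∈ Icc (0 : ℝ) 1, ∀ p ∈ K, (t, G (t, p)) ∈ U) :
    FamOn I (fun q => J (q.1, G q)) K := by
  obtain ⟨⟨W, hW, hWK, hGW⟩, hG2⟩ := hG
  have hc : ContDiffOn ℝ ∞ (fun q : ℝ × R4 => (q.1, G q)) W :=
    contDiff_fst.contDiffOn.prodMk (contMDiffOn_iff_contDiffOn.1 hGW)
  refine ⟨⟨W ∩ (fun q : ℝ × R4 => (q.1, G q)) ⁻¹' U,
    hc.continuousOn.isOpen_inter_preimage hW hU.op, ?_, ?_⟩, ?_⟩
  · intro q hq
    exact ⟨hWK hq, hm q.1 hq.1 q.2 hq.2⟩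
  · exact hU.sm.comp (hc.contMDiffOn.mono inter_subset_left) (fun q hq => hq.2)
  · intro t ht
    refine ⟨?_, ?_⟩
    · intro p hp
      exact IsLocalDiffeomorphAt.comp I M ((hG2 t ht).1 p hp) (hU.loc (t, G (t, p)) (hm t ht p hp))
    · intro p hp p' hp' h
      have h1 := hU.inj (hm t ht p hp) (hm t ht p' hp') (Prod.ext rfl h)
      exact (hG2 t ht).2 hp hp' (congrArg Prod.snd h1)

/-- the constant family -/
theorem fam_const [T2Space M] (a1 : StA1) {F : R4 → M} {L : Set R4} (hL : IsCompact L)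
    (hF : EmbOn I F L) : FamOn I (fun q : ℝ × R4 => F q.2) L := by
  obtain ⟨δ, h1, h2⟩ := a1 R4 E H I M F L hL hF.1 hF.2
  refine ⟨⟨Prod.snd ⁻¹' δ.source, δ.open_source.preimage continuous_snd,
    fun q hq => h1 hq.2, ?_⟩, fun t _ => hF⟩
  have h3 : ContMDiffOn 𝓘(ℝ, R4) I ∞ F δ.source :=
    δ.contMDiffOn_toFun.congr (fun p hp => (h2 p hp).symm)
  have h4 : ContDiff ℝ ∞ (fun q : ℝ × R4 => q.2) := contDiff_snd
  exact h3.comp h4.contMDiff.contMDiffOn (fun q hq => hq)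

theorem emb_mono {F : R4 → M} {L L' : Set R4} (hF : EmbOn I F L) (h : L' ⊆ L) : EmbOn I F L' :=
  ⟨fun p hp => hF.1 p (h hp), hF.2.mono h⟩

theorem hom_zero_of_FB (s4 : StS4) {q : R4} (hq : q ∈ FB) (t : ℝ) : hom 0 (t, q) = q := by
  have h : sq 0 q = q := s4.2.2.2.1 q hq
  simp only [hom, h]
  rw [← add_smul]
  simp

end T1

open T1

theorem m_T1 (a0 : StA0) (a1 : StA1) (a2 : StA2) (s2 : StS2) (s4 : StS4) (s5 : StS5)
    (s6 : StS6) : StT1 := by
  have _ := a0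
  intro E _ _ H _ I M _ _ _ L K hL hK
  obtain ⟨s61, s62, s63⟩ := s6
  refine ⟨?_, ?_, ?_, ?_⟩
  · intro hKL J hJ
    obtain ⟨U, hUL, hU⟩ := exists_good a1 a2 hL hJ
    obtain ⟨ε₀, h0, h1⟩ := (s5 K U hK hU.op).1 (fun t ht p hp => hUL ⟨ht, hKL p hp⟩)
    refine ⟨ε₀, h0, fun ε hε => ?_⟩
    refine fam_comp hU (G := fun q => sq ε q.2) ?_ (h1 ε hε)
    refine ⟨⟨univ, isOpen_univ, subset_univ _, ?_⟩, fun t _ =>
      emb_mono (s61 ε hε.1) (subset_univ _)⟩
    rw [contMDiffOn_iff_contDiffOn]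
    have h2 : ContDiff ℝ ∞ (fun q : ℝ × R4 => (ε, q.2)) := contDiff_const.prodMk contDiff_snd
    exact s2.2.2.2.comp h2.contDiffOn (fun q _ => ⟨hε.1, mem_univ _⟩)
  · intro hKL F hF
    obtain ⟨U, hUL, hU⟩ := exists_good a1 a2 hL (fam_const a1 hL hF)
    obtain ⟨ε₀, h0, h1⟩ := (s5 K U hK hU.op).2 (fun t ht p hp => hUL ⟨ht, hKL p hp t ht⟩)
    refine ⟨ε₀, h0, fun ε hε => ?_⟩
    refine fam_comp (J := fun q : ℝ × R4 => F q.2) hU (G := hom ε) ?_ (h1 ε hε)
    exact ⟨⟨univ, isOpen_univ, subset_univ _, (s62 ε hε.1).contMDiff.contMDiffOn⟩, fun t ht =>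
      emb_mono (s63 ε hε.1 t ht) (subset_univ _)⟩
  · intro hKL F hF
    obtain ⟨U, hUL, hU⟩ := exists_good a1 a2 hL (fam_const a1 hL hF)
    obtain ⟨ε₀, h0, h1⟩ := (s5 K U hK hU.op).1 (fun t ht p hp => hUL ⟨ht, hKL p hp⟩)
    refine ⟨ε₀, h0, fun ε₁ hε₁ ε₂ hε₂ => ?_⟩
    have hmem : ∀ t ∈ Icc (0 : ℝ) 1, (1 - t) * ε₁ + t * ε₂ ∈ Ioo 0 ε₀ := by
      intro t ht
      have := (convex_Ioo (0 : ℝ) ε₀) hε₁ hε₂ (sub_nonneg.2 ht.2) ht.1 (by ring)
      simpa [smul_eq_mul] using this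
    refine fam_comp (J := fun q : ℝ × R4 => F q.2) hU
      (G := fun q => sq ((1 - q.1) * ε₁ + q.1 * ε₂) q.2) ?_
      (fun t ht p hp => h1 _ (hmem t ht) t ht p hp)
    have hc : ContDiff ℝ ∞ (fun q : ℝ × R4 => ((1 - q.1) * ε₁ + q.1 * ε₂, q.2)) :=
      (((contDiff_const.sub contDiff_fst).mul contDiff_const).add
        (contDiff_fst.mul contDiff_const)).prodMk contDiff_snd
    refine ⟨⟨(fun q : ℝ × R4 => ((1 - q.1) * ε₁ + q.1 * ε₂, q.2)) ⁻¹' (Ioi 0 ×ˢ univ),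
      (isOpen_Ioi.prod isOpen_univ).preimage hc.continuous, ?_, ?_⟩, fun t ht =>
      emb_mono (s61 _ (hmem t ht).1) (subset_univ _)⟩
    · intro q hq
      exact ⟨(hmem q.1 hq.1).1, mem_univ _⟩
    · rw [contMDiffOn_iff_contDiffOn]
      exact s2.2.2.2.comp hc.contDiffOn (fun q hq => hq)
  · intro hLF F hF m hm hmK
    obtain ⟨U, hUL, hU⟩ := exists_good a1 a2 hL (fam_const a1 hL hF)
    have hmc : ContinuousOn m K := fun p hp => ((hm.1 p hp).contMDiffAt).continuousAt.continuousWithinAt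
    obtain ⟨ε₀, h0, h1⟩ := (s5 (m '' K) U (hK.image_of_continuousOn hmc) hU.op).2 (by
      rintro t ht _ ⟨p, hp, rfl⟩
      rw [hom_zero_of_FB s4 (hLF (hmK hp))]
      exact hUL ⟨ht, hmK hp⟩)
    refine ⟨ε₀, h0, fun ε hε => ?_⟩
    refine fam_comp (J := fun q : ℝ × R4 => F q.2) hU (G := fun q => hom ε (q.1, m q.2)) ?_
      (fun t ht p hp => h1 ε hε t ht (m p) (mem_image_of_mem m hp))
    obtain ⟨⟨W, hW, hWK, hmW⟩, -⟩ := fam_const a1 hK hm
    refine ⟨⟨W, hW, hWK, ?_⟩, fun t ht => ⟨?_, ?_⟩⟩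
    · rw [contMDiffOn_iff_contDiffOn] at hmW ⊢
      exact (s62 ε hε.1).comp_contDiffOn (contDiff_fst.contDiffOn.prodMk hmW)
    · intro p hp
      exact IsLocalDiffeomorphAt.comp 𝓘(ℝ, R4) R4 (hm.1 p hp)
        ((s63 ε hε.1 t ht).1 (m p) (mem_univ _))
    · intro p hp p' hp' h
      exact hm.2 hp hp' ((s63 ε hε.1 t ht).2 (mem_univ _) (mem_univ _) h)

end Pool.Agent.Helper18.BI


end

/-! ## Helper18.BI.M_T8 -/

section

/-!
# Project BI, module T8: linear interpolation of germs with the same spine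
-/

set_option autoImplicit false

open scoped Manifold ContDiff Topology ComplexConjugate
open Set Pool.Agent.Helper65.Barb

namespace Pool.Agent.Helper18.BI

namespace T8

/-- a germ is smooth on a neighbourhood -/
theorem smoothNear {F : R4 → R4} {L : Set R4} (h : EmbOn 𝓘(ℝ, R4) F L) :
    ∃ U : Set R4, IsOpen U ∧ L ⊆ U ∧ ContDiffOn ℝ ∞ F U := by
  refine ⟨{p | IsLocalDiffeomorphAt 𝓘(ℝ, R4) 𝓘(ℝ, R4) ∞ F p}, ?_, fun p hp => h.1 p hp, ?_⟩
  · rw [isOpen_iff_mem_nhds]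
    rintro p ⟨Φ, hp, heq⟩
    exact Filter.mem_of_superset (Φ.open_source.mem_nhds hp) fun q hq => ⟨Φ, hq, heq⟩
  · intro p hp
    exact (contMDiffAt_iff_contDiffAt.1 (IsLocalDiffeomorphAt.contMDiffAt hp)).contDiffWithinAt

theorem family (a0 : StA0f) {F G : R4 → R4} (hF : EmbOn 𝓘(ℝ, R4) F SP)
    (hG : EmbOn 𝓘(ℝ, R4) G SP) (hFG : EqOn F G SP)
    (hd : ∀ p ∈ SP, ∀ t ∈ Icc (0 : ℝ) 1, ∀ v,
      (1 - t) • fderiv ℝ F p v + t • fderiv ℝ G p v = 0 → v = 0) :
    FamOn 𝓘(ℝ, R4) (fun q : ℝ × R4 => (1 - q.1) • F q.2 + q.1 • G q.2) SP := by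
  obtain ⟨U, hU, hSU, hFU⟩ := smoothNear hF
  obtain ⟨V, hV, hSV, hGV⟩ := smoothNear hG
  rw [a0]
  refine ⟨⟨univ ×ˢ (U ∩ V), isOpen_univ.prod (hU.inter hV), ?_, ?_⟩, fun t ht => ⟨?_, ?_⟩⟩
  · exact prod_mono (subset_univ _) (subset_inter hSU hSV)
  · have h1 : ContDiffOn ℝ ∞ (fun q : ℝ × R4 => F q.2) (univ ×ˢ (U ∩ V)) :=
      hFU.comp contDiff_snd.contDiffOn fun q hq => hq.2.1
    have h2 : ContDiffOn ℝ ∞ (fun q : ℝ × R4 => G q.2) (univ ×ˢ (U ∩ V)) :=
      hGV.comp contDiff_snd.contDiffOn fun q hq => hq.2.2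
    have h3 : ContDiffOn ℝ ∞ (fun q : ℝ × R4 => q.1) (univ ×ˢ (U ∩ V)) :=
      contDiff_fst.contDiffOn
    exact ((contDiffOn_const.sub h3).smul h1).add (h3.smul h2)
  · intro p hp v hv
    have dF : DifferentiableAt ℝ F p :=
      ((hFU.contDiffAt (hU.mem_nhds (hSU hp))).differentiableAt (by simp))
    have dG : DifferentiableAt ℝ G p :=
      ((hGV.contDiffAt (hV.mem_nhds (hSV hp))).differentiableAt (by simp))
    apply hd p hp t ht v
    have h1 : HasFDerivAt (fun p => (1 - t) • F p + t • G p)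
        ((1 - t) • fderiv ℝ F p + t • fderiv ℝ G p) p :=
      (dF.hasFDerivAt.const_smul (1 - t)).add (dG.hasFDerivAt.const_smul t)
    have h2 : fderiv ℝ (fun p => (1 - t) • F p + t • G p) p v = 0 := hv
    rw [h1.fderiv] at h2
    exact h2
  · intro p hp p' hp' h
    have e : ∀ p ∈ SP, (1 - t) • F p + t • G p = F p := by
      intro p hp
      rw [← hFG hp, ← add_smul, sub_add_cancel, one_smul]
    simp only at h
    rw [e p hp, e p' hp'] at h
    exact hF.2 hp hp' h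

theorem oneWay (a0 : StA0f) (t2 : StT2) {F G : R4 → R4} (hF : EmbOn 𝓘(ℝ, R4) F SP)
    (hG : EmbOn 𝓘(ℝ, R4) G SP) (hFG : EqOn F G SP)
    (hd : ∀ p ∈ SP, ∀ t ∈ Icc (0 : ℝ) 1, ∀ v,
      (1 - t) • fderiv ℝ F p v + t • fderiv ℝ G p v = 0 → v = 0) (φ : R4 → R4)
    (h : Thin 𝓘(ℝ, R4) F φ) : Thin 𝓘(ℝ, R4) G φ := by
  have h3 := (t2 R4 R4 𝓘(ℝ, R4) R4).2.2.1
    (fun q : ℝ × R4 => (1 - q.1) • F q.2 + q.1 • G q.2) φ (family a0 hF hG hFG hd)
  have e0 : (fun p : R4 => (1 - (0 : ℝ)) • F p + (0 : ℝ) • G p) = F := by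
    funext p
    rw [sub_zero, one_smul, zero_smul, add_zero]
  have e1 : (fun p : R4 => (1 - (1 : ℝ)) • F p + (1 : ℝ) • G p) = G := by
    funext p
    rw [sub_self, one_smul, zero_smul, zero_add]
  simp only at h3
  rw [e0, e1] at h3
  exact h3 h

end T8

theorem m_T8 (a0 : StA0f) (t2 : StT2) : StT8 := by
  intro F G hF hG hFG hd φ
  refine ⟨T8.oneWay a0 t2 hF hG hFG hd φ, T8.oneWay a0 t2 hG hF hFG.symm ?_ φ⟩
  intro p hp t ht v hv
  refine hd p hp (1 - t) ⟨sub_nonneg.2 ht.2, sub_le_self _ ht.1⟩ v ?_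
  rw [sub_sub_cancel, add_comm]
  exact hv

end Pool.Agent.Helper18.BI


end

/-! ## Helper18.BI.M_X1 -/

section

/-! # Module X1 of project BI: transfer along an injective local diffeomorphism -/

set_option autoImplicit false

open scoped Manifold ContDiff Topology ComplexConjugate
open Set Pool.Agent.Helper65.Barb

namespace Pool.Agent.Helper18.BI

namespace X1

theorem barMap_inj {p q : R4} (h : barMap p = barMap q) : p = q := by
  have h1 := bfam.gf 1 p
  have h2 := bfam.gf 1 q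
  have h3 : bfam.f (1, p) = bfam.f (1, q) := h
  rw [← h1, ← h2, h3]

theorem mapsTo_barMap : MapsTo barMap bsupp bsupp := by
  intro p hp
  by_contra h
  have h1 := barMap_off h
  have h2 := barMap_inj h1
  rw [h2] at h
  exact h hp

section
variable {E : Type} [NormedAddCommGroup E] [NormedSpace ℝ E] {H : Type} [TopologicalSpace H]
  {I : ModelWithCorners ℝ E H} {M : Type} [TopologicalSpace M] [ChartedSpace H M]

theorem embOn_comp {c : R4 → M} (hc : EmbOn I c univ) {F : R4 → R4} {L : Set R4}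
    (hF : EmbOn 𝓘(ℝ, R4) F L) : EmbOn I (c ∘ F) L := by
  refine ⟨fun p hp => IsLocalDiffeomorphAt.comp _ _ (hF.1 p hp) (hc.1 (F p) (mem_univ _)), ?_⟩
  intro p hp q hq h
  exact hF.2 hp hq (hc.2 (mem_univ _) (mem_univ _) h)

theorem boundsOff_comp {c : R4 → M} (hc : EmbOn I c univ) {F : R4 → R4} {a b : ℝ}
    (h : BoundsOff 𝓘(ℝ, R4) F a b) : BoundsOff I (c ∘ F) a b := by
  obtain ⟨G, h1, h2, h3⟩ := h
  refine ⟨c ∘ G, embOn_comp hc h1, fun p hp => ?_, ?_⟩
  · simp [h2 p hp]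
  · rw [Set.disjoint_left] at h3 ⊢
    rintro y ⟨p, hp, rfl⟩ ⟨q, hq, hpq⟩
    have : F q = G p := hc.2 (mem_univ _) (mem_univ _) hpq
    exact h3 ⟨p, hp, rfl⟩ ⟨q, hq, this⟩

end

end X1

open X1 in
/-- **X1.** -/
theorem m_X1 (pu : StPush) (im : StImp) (ci : StCI) : StX1 := by
  intro E _ _ H _ I M _ _ _ c hc
  have P1 : ∀ φ ψ : R4 → R4, CIsot 𝓘(ℝ, R4) φ ψ → CIsot I (imp c univ φ) (imp c univ ψ) := by
    rintro φ ψ ⟨Φ, ⟨C, hC, hsupp⟩, h0, h1⟩
    have e0 : (fun p => Φ.f (0, p)) = φ := funext h0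
    have e1 : (fun p => Φ.f (1, p)) = ψ := funext h1
    have hcC : EmbOn I c C := ⟨fun p _ => hc.1 p (mem_univ _), hc.2.mono (subset_univ _)⟩
    have h := pu E H I M c C Φ hC hcC hsupp
    have hφ : ∀ p, p ∉ C → φ p = p := fun p hp => by rw [← h0]; exact hsupp 0 p hp
    have hψ : ∀ p, p ∉ C → ψ p = p := fun p hp => by rw [← h1]; exact hsupp 1 p hp
    rw [e0, e1, ← (im E H I M c univ φ hc.2).2.2.1 C (subset_univ _) hφ,
      ← (im E H I M c univ ψ hc.2).2.2.1 C (subset_univ _) hψ] at h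
    exact h
  have P4 : ∀ φ ψ : R4 → R4, ∀ y, imp c univ (fun p => φ (ψ p)) y =
      imp c univ φ (imp c univ ψ y) := by
    intro φ ψ y
    exact (im E H I M c univ ψ hc.2).2.2.2.1 φ (mapsTo_univ _ _) y
  have Pid : ∀ y, imp c univ (fun p => p) y = y := by
    intro y
    by_cases hy : y ∈ c '' univ
    · obtain ⟨p, hp, rfl⟩ := hy
      exact (im E H I M c univ (fun p => p) hc.2).1 p hp
    · exact (im E H I M c univ (fun p => p) hc.2).2.1 y hy
  have P3 : ∀ (F : R4 → R4) (φ : R4 → R4), Thin 𝓘(ℝ, R4) F φ →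
      Thin I (c ∘ F) (imp c univ φ) := by
    rintro F φ ⟨ε₀, hε₀, h⟩
    refine ⟨ε₀, hε₀, fun ε hε => ?_⟩
    obtain ⟨hemb, hiso⟩ := h ε hε
    refine ⟨embOn_comp hc hemb, ?_⟩
    have h1 := P1 _ _ hiso
    have e1 : imp c univ (imp (F ∘ sq ε) bsupp barMap) =
        imp c ((F ∘ sq ε) '' bsupp) (imp (F ∘ sq ε) bsupp barMap) := by
      apply (im E H I M c univ _ hc.2).2.2.1 _ (subset_univ _)
      intro p hp
      exact (im R4 R4 𝓘(ℝ, R4) R4 (F ∘ sq ε) bsupp barMap hemb.2).2.1 p hp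
    have e2 : imp (fun p => c ((F ∘ sq ε) p)) bsupp barMap =
        imp c ((F ∘ sq ε) '' bsupp) (imp (F ∘ sq ε) bsupp barMap) := by
      exact (im E H I M c ((F ∘ sq ε) '' bsupp) barMap (hc.2.mono (subset_univ _))).2.2.2.2.2.2.2
        (F ∘ sq ε) bsupp hemb.2 rfl mapsTo_barMap
    have e3 : imp ((c ∘ F) ∘ sq ε) bsupp barMap =
        imp c univ (imp (F ∘ sq ε) bsupp barMap) := by
      rw [e1, ← e2]; rfl
    rw [e3]
    exact h1
  refine ⟨P1, fun F L hF => embOn_comp hc hF, P3, P4, ?_⟩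
  intro φ hφ
  induction hφ with
  | one =>
    have e : imp c univ (fun p : R4 => p) = fun y => y := funext Pid
    rw [e]
    exact InN.one
  | gen F φ h1 h2 h3 =>
    refine InN.gen (c ∘ F) _ (embOn_comp hc h1) ?_ (P3 F φ h3)
    rcases h2 with h2 | h2
    · exact Or.inl (boundsOff_comp hc h2)
    · exact Or.inr (boundsOff_comp hc h2)
  | mul φ ψ _ _ ihφ ihψ =>
    have e : imp c univ (fun x => φ (ψ x)) = fun y => imp c univ φ (imp c univ ψ y) :=
      funext (P4 φ ψ)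
    rw [e]
    exact InN.mul _ _ ihφ ihψ
  | inv φ ψ _ h1 h2 ih =>
    refine InN.inv _ _ ih ?_ ?_
    · intro x
      rw [← P4]
      have e : (fun p => φ (ψ p)) = fun p => p := funext h1
      rw [e]
      exact Pid x
    · intro x
      rw [← P4]
      have e : (fun p => ψ (φ p)) = fun p => p := funext h2
      rw [e]
      exact Pid x
  | isot φ ψ _ h ih => exact InN.isot _ _ ih (P1 _ _ h)

end Pool.Agent.Helper18.BI


end

/-! ## Helper18.BI.M_X2 -/

section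

/-!
# Project BI (MP_8e98f2_gt), module X2: a stereographic chart of S4 missing two spines
-/

set_option autoImplicit false

open scoped Manifold ContDiff Topology ComplexConjugate
open Set Pool.Agent.Helper65.Barb

namespace Pool.Agent.Helper18.BI

namespace X2

theorem rsq_eq (c : ℝ) (p : R4) : rsq c p = (p.2.1 - c) ^ 2 + Complex.normSq p.2.2 := by
  rw [rsq, nsq, Complex.normSq_apply]
  ring

theorem isClosed_SP : IsClosed SP := by
  have h1 : Continuous (fun p : R4 => p.1) := continuous_fst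
  have h2 : Continuous (fun p : R4 => p.2.1) := continuous_fst.comp continuous_snd
  have h3 : Continuous (fun p : R4 => p.2.2) := continuous_snd.comp continuous_snd
  have hr : ∀ c, Continuous (rsq c) := fun c => continuous_rsq c
  refine IsClosed.union (IsClosed.union ?_ ?_) ?_
  · exact (isClosed_eq h1 continuous_const).inter (isClosed_eq (hr 0) continuous_const)
  · exact (isClosed_eq h1 continuous_const).inter (isClosed_eq (hr 1) continuous_const)
  · exact (isClosed_eq h1 continuous_const).inter ((isClosed_le continuous_const h2).inter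
      ((isClosed_le h2 continuous_const).inter (isClosed_eq h3 continuous_const)))

theorem bound_SP {p : R4} (hp : p ∈ SP) : p.1 = 1 / 2 ∧ |p.2.1| ≤ 2 ∧ ‖p.2.2‖ ≤ 1 := by
  have key : ∀ c : ℝ, |c| ≤ 1 → rsq c p = 1 / 25 → |p.2.1| ≤ 2 ∧ ‖p.2.2‖ ≤ 1 := by
    intro c hc h
    rw [rsq_eq] at h
    have h0 := Complex.normSq_nonneg p.2.2
    have h1 : |p.2.1 - c| ≤ 1 := by
      apply abs_le_of_sq_le_sq _ zero_le_one
      nlinarith
    have h2 : ‖p.2.2‖ ≤ 1 := by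
      have h3 : ‖p.2.2‖ ^ 2 ≤ 1 ^ 2 := by
        rw [← Complex.normSq_eq_norm_sq]
        nlinarith [sq_nonneg (p.2.1 - c)]
      exact le_of_sq_le_sq h3 zero_le_one
    refine ⟨?_, h2⟩
    rw [abs_le] at *
    constructor <;> linarith [h1.1, h1.2, hc.1, hc.2]
  rcases hp with (⟨h1, h2⟩ | ⟨h1, h2⟩) | ⟨h1, h2, h3, h4⟩
  · exact ⟨h1, key 0 (by simp) h2⟩
  · exact ⟨h1, key 1 (by simp) h2⟩
  · refine ⟨h1, ?_, ?_⟩
    · rw [abs_le]
      constructor <;> linarith
    · rw [h4, norm_zero]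
      exact zero_le_one

theorem isCompact_SP : IsCompact SP := by
  refine Metric.isCompact_of_isClosed_isBounded isClosed_SP ?_
  refine (Metric.isBounded_closedBall (x := (0 : R4)) (r := 2)).subset ?_
  intro p hp
  obtain ⟨h1, h2, h3⟩ := bound_SP hp
  rw [mem_closedBall_zero_iff, Prod.norm_def, Prod.norm_def]
  refine max_le ?_ (max_le h2 (h3.trans (by norm_num)))
  rw [h1, Real.norm_eq_abs, abs_of_pos (by norm_num)]
  norm_num

theorem closed_image (B : PartialDiffeomorph 𝓘(ℝ, R4) (𝓡 4) R4 S4 ∞) (h : SP ⊆ B.source) :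
    IsClosed (B '' SP) := by
  apply IsCompact.isClosed
  exact isCompact_SP.image_of_continuousOn (B.contMDiffOn_toFun.continuousOn.mono h)

theorem interior_image (B : PartialDiffeomorph 𝓘(ℝ, R4) (𝓡 4) R4 S4 ∞) (h : SP ⊆ B.source) :
    interior (B '' SP) = ∅ := by
  rw [eq_empty_iff_forall_notMem]
  intro y hy
  have hc : ContinuousOn B B.source := B.contMDiffOn_toFun.continuousOn
  have hV : IsOpen (B.source ∩ B ⁻¹' interior (B '' SP)) :=
    hc.isOpen_inter_preimage B.open_source isOpen_interior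
  have hVS : B.source ∩ B ⁻¹' interior (B '' SP) ⊆ SP := by
    rintro p ⟨hp1, hp2⟩
    obtain ⟨p', hp', he⟩ := interior_subset hp2
    have := B.injOn (h hp') hp1 he
    rwa [← this]
  obtain ⟨p, hp, he⟩ := interior_subset hy
  have hpV : p ∈ B.source ∩ B ⁻¹' interior (B '' SP) := ⟨h hp, by
    change B p ∈ interior (B '' SP)
    rw [he]
    exact hy⟩
  have h1 : IsOpen ((fun q : R4 => q.1) '' (B.source ∩ B ⁻¹' interior (B '' SP))) :=
    isOpenMap_fst _ hV
  have h2 : (fun q : R4 => q.1) '' (B.source ∩ B ⁻¹' interior (B '' SP)) ⊆ {1 / 2} := by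
    rintro _ ⟨q, hq, rfl⟩
    exact (bound_SP (hVS hq)).1
  have h3 : p.1 ∈ interior ({1 / 2} : Set ℝ) :=
    interior_maximal h2 h1 (mem_image_of_mem (fun q : R4 => q.1) hpV)
  rw [interior_singleton] at h3
  exact h3

theorem exists_point (B B' : PartialDiffeomorph 𝓘(ℝ, R4) (𝓡 4) R4 S4 ∞) (h : SP ⊆ B.source)
    (h' : SP ⊆ B'.source) : ∃ v : S4, v ∉ B '' SP ∧ v ∉ B' '' SP := by
  by_contra hne
  push Not at hne
  have h1 : B '' SP ∪ B' '' SP = univ := by
    rw [eq_univ_iff_forall]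
    intro v
    by_cases hv : v ∈ B '' SP
    · exact Or.inl hv
    · exact Or.inr (hne v hv)
  have h2 := interior_union_isClosed_of_interior_empty (s := B '' SP) (closed_image B h)
    (interior_image B' h')
  rw [h1, interior_univ, interior_image B h] at h2
  have h3 : (⟨EuclideanSpace.single 0 1, by simp⟩ : S4) ∈ (univ : Set S4) := mem_univ _
  rw [h2] at h3
  exact h3

theorem exists_equiv : Nonempty (R4 ≃L[ℝ] EuclideanSpace ℝ (Fin 4)) := by
  refine FiniteDimensional.nonempty_continuousLinearEquiv_of_finrank_eq ?_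
  rw [finrank_euclideanSpace, Fintype.card_fin, Module.finrank_prod, Module.finrank_prod,
    Module.finrank_self, Complex.finrank_real_complex]

end X2

open X2

theorem m_X2 : StX2 := by
  intro B B' h h'
  obtain ⟨v, hv, hv'⟩ := exists_point B B' h h'
  obtain ⟨e⟩ := exists_equiv
  have : Fact (Module.finrank ℝ (EuclideanSpace ℝ (Fin 5)) = 4 + 1) := ⟨by simp⟩
  have hsrc : (chartAt (EuclideanSpace ℝ (Fin 4)) (-v : S4)).source = {v}ᶜ := by
    change (stereographic' 4 (- -v)).source = _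
    rw [neg_neg, stereographic'_source]
  have htgt : (chartAt (EuclideanSpace ℝ (Fin 4)) (-v : S4)).target = univ := by
    change (stereographic' 4 (- -v)).target = _
    rw [stereographic'_target]
  have hs1 : ContMDiffOn (𝓡 4) (𝓡 4) ∞ (chartAt (EuclideanSpace ℝ (Fin 4)) (-v : S4))
      (chartAt (EuclideanSpace ℝ (Fin 4)) (-v : S4)).source := contMDiffOn_chart
  have hs2 : ContMDiffOn (𝓡 4) (𝓡 4) ∞ (chartAt (EuclideanSpace ℝ (Fin 4)) (-v : S4)).symm
      (chartAt (EuclideanSpace ℝ (Fin 4)) (-v : S4)).target := contMDiffOn_chart_symm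
  generalize chartAt (EuclideanSpace ℝ (Fin 4)) (-v : S4) = ch at hsrc htgt hs1 hs2
  have he : ContMDiff 𝓘(ℝ, R4) (𝓡 4) ∞ e := e.contDiff.contMDiff
  have he' : ContMDiff (𝓡 4) 𝓘(ℝ, R4) ∞ e.symm := e.symm.contDiff.contMDiff
  let δ : PartialDiffeomorph 𝓘(ℝ, R4) (𝓡 4) R4 S4 ∞ :=
    { toFun := fun p => ch.symm (e p)
      invFun := fun y => e.symm (ch y)
      source := univ
      target := ch.source
      map_source' := fun p _ => ch.map_target (by rw [htgt]; exact mem_univ _)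
      map_target' := fun y _ => mem_univ _
      left_inv' := fun p _ => by
        rw [ch.right_inv (by rw [htgt]; exact mem_univ _), e.symm_apply_apply]
      right_inv' := fun y hy => by
        rw [e.apply_symm_apply, ch.left_inv hy]
      open_source := isOpen_univ
      open_target := ch.open_source
      contMDiffOn_toFun := hs2.comp he.contMDiffOn (fun p _ => by rw [htgt]; exact mem_univ _)
      contMDiffOn_invFun := he'.comp_contMDiffOn hs1 }
  have hr : ∀ y, y ≠ v → y ∈ range (fun p => ch.symm (e p)) := by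
    intro y hy
    refine ⟨e.symm (ch y), ?_⟩
    change ch.symm (e (e.symm (ch y))) = y
    rw [e.apply_symm_apply, ch.left_inv (by rw [hsrc]; exact hy)]
  refine ⟨fun p => ch.symm (e p), ⟨fun p _ => ⟨δ, mem_univ _, fun _ _ => rfl⟩, ?_⟩, ?_, ?_⟩
  · exact δ.injOn
  · intro y hy
    exact hr y (fun hyv => hv (hyv ▸ hy))
  · intro y hy
    exact hr y (fun hyv => hv' (hyv ▸ hy))

end Pool.Agent.Helper18.BI


end

/-! ## Helper18.BI.M_FR1 -/

section

/-!
# Project BI (MP_8e98f2_gt), module FR1: fibrewise linear maps along the neck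
-/

set_option autoImplicit false

open scoped Manifold ContDiff Topology ComplexConjugate
open Set Pool.Agent.Helper65.Barb

namespace Pool.Agent.Helper18.BI

namespace FR1

/-- joint smoothness -/
theorem smooth_joint (Γ : ℝ × ℝ → E3) (h : ContDiff ℝ ∞ Γ) :
    ContDiff ℝ ∞ (fun q : ℝ × R4 => fib (fun a => Γ (q.1, a)) q.2) := by
  have h1 : ContDiff ℝ ∞ (fun q : ℝ × R4 => Γ (q.1, q.2.2.1)) :=
    h.comp (contDiff_fst.prodMk (contDiff_fst.comp (contDiff_snd.comp contDiff_snd)))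
  have h2 : ContDiff ℝ ∞ (fun q : ℝ × R4 => ((q.2.1 - 1 / 2, q.2.2.2) : ℝ × ℂ)) :=
    ((contDiff_fst.comp contDiff_snd).sub contDiff_const).prodMk
      (contDiff_snd.comp (contDiff_snd.comp contDiff_snd))
  have h3 : ContDiff ℝ ∞ (fun q : ℝ × R4 => Γ (q.1, q.2.2.1) (q.2.1 - 1 / 2, q.2.2.2)) :=
    h1.clm_apply h2
  exact (contDiff_const.add (contDiff_fst.comp h3)).prodMk
    ((contDiff_fst.comp (contDiff_snd.comp contDiff_snd)).prodMk (contDiff_snd.comp h3))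

theorem smooth (G : ℝ → E3) (h : ContDiff ℝ ∞ G) : ContDiff ℝ ∞ (fib G) := by
  have h1 := smooth_joint (fun q => G q.2) (h.comp contDiff_snd)
  exact h1.comp ((contDiff_const (c := (0 : ℝ))).prodMk contDiff_id)

theorem inj (G : ℝ → E3) (h : ∀ a v, G a v = 0 → v = 0) : Function.Injective (fib G) := by
  rintro ⟨s, a, w⟩ ⟨s', a', w'⟩ hpq
  simp only [fib, Prod.mk.injEq] at hpq
  obtain ⟨h1, h2, h3⟩ := hpq
  subst h2
  have h4 : G a (s - 1 / 2, w) = G a (s' - 1 / 2, w') := Prod.ext (add_left_cancel h1) h3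
  have h5 : G a ((s - 1 / 2, w) - (s' - 1 / 2, w')) = 0 := by
    rw [map_sub, h4, sub_self]
  have h6 := h a _ h5
  have h7 := congrArg Prod.fst h6
  have h8 := congrArg Prod.snd h6
  simp only [Prod.fst_sub, Prod.fst_zero] at h7
  simp only [Prod.snd_sub, Prod.snd_zero] at h8
  have h9 : s = s' := by linarith
  have h10 : w = w' := sub_eq_zero.1 h8
  rw [h9, h10]

theorem der (G : ℝ → E3) (hG : ContDiff ℝ ∞ G) (h : ∀ a v, G a v = 0 → v = 0) (p v : R4)
    (hv : fderiv ℝ (fib G) p v = 0) : v = 0 := by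
  have hd : HasFDerivAt G (fderiv ℝ G p.2.1) p.2.1 :=
    (hG.differentiable (by simp) p.2.1).hasFDerivAt
  have hpr : HasFDerivAt (fun q : R4 => q.2.1)
      ((ContinuousLinearMap.fst ℝ ℝ ℂ).comp (ContinuousLinearMap.snd ℝ ℝ (ℝ × ℂ))) p :=
    ((ContinuousLinearMap.fst ℝ ℝ ℂ).comp (ContinuousLinearMap.snd ℝ ℝ (ℝ × ℂ))).hasFDerivAt
  have hc : HasFDerivAt (fun q : R4 => G q.2.1) ((fderiv ℝ G p.2.1).comp
      ((ContinuousLinearMap.fst ℝ ℝ ℂ).comp (ContinuousLinearMap.snd ℝ ℝ (ℝ × ℂ)))) p :=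
    HasFDerivAt.comp (g := G) (f := fun q : R4 => q.2.1) p hd hpr
  have hu : HasFDerivAt (fun q : R4 => ((q.1 - 1 / 2, q.2.2) : ℝ × ℂ))
      ((ContinuousLinearMap.fst ℝ ℝ (ℝ × ℂ)).prod
        ((ContinuousLinearMap.snd ℝ ℝ ℂ).comp (ContinuousLinearMap.snd ℝ ℝ (ℝ × ℂ)))) p := by
    refine HasFDerivAt.prodMk ?_ ?_
    · exact ((ContinuousLinearMap.fst ℝ ℝ (ℝ × ℂ)).hasFDerivAt).sub_const _
    · exact ((ContinuousLinearMap.snd ℝ ℝ ℂ).comp (ContinuousLinearMap.snd ℝ ℝ (ℝ × ℂ))).hasFDerivAt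
  have hN := hc.clm_apply hu
  have hfib : HasFDerivAt (fib G) _ p :=
    HasFDerivAt.prodMk (((ContinuousLinearMap.fst ℝ ℝ ℂ).hasFDerivAt.comp p hN).const_add (1 / 2 : ℝ))
      (HasFDerivAt.prodMk hpr ((ContinuousLinearMap.snd ℝ ℝ ℂ).hasFDerivAt.comp p hN))
  rw [hfib.fderiv] at hv
  obtain ⟨σ, α, ν⟩ := v
  have e2 : α = 0 := congrArg (fun z : R4 => z.2.1) hv
  subst e2
  have e1 := congrArg (fun z : R4 => z.1) hv
  have e3 := congrArg (fun z : R4 => z.2.2) hv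
  simp at e1 e3
  have e4 : G p.2.1 (σ, ν) = 0 := Prod.ext e1 e3
  have e5 := h _ _ e4
  have e6 := congrArg Prod.fst e5
  have e7 := congrArg Prod.snd e5
  simp only [Prod.fst_zero, Prod.snd_zero] at e6 e7
  rw [e6, e7]
  rfl

theorem emb (a0 : StA0) (G : ℝ → E3) (hG : ContDiff ℝ ∞ G) (h : ∀ a v, G a v = 0 → v = 0) (p : R4) :
    IsLocalDiffeomorphAt 𝓘(ℝ, R4) 𝓘(ℝ, R4) ∞ (fib G) p :=
  (a0 R4 (fib G) p).2 ⟨⟨univ, isOpen_univ, mem_univ p, (smooth G hG).contDiffOn⟩, der G hG h p⟩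

theorem fib_id (G : ℝ → E3) (p : R4) (h : G p.2.1 = ContinuousLinearMap.id ℝ (ℝ × ℂ)) : fib G p = p := by
  obtain ⟨s, a, w⟩ := p
  simp only [fib]
  simp only at h
  rw [h]
  simp

theorem fib_SP (G : ℝ → E3) (δ : ℝ) (hδ : 0 < δ)
    (h : ∀ a, (a ≤ 1 / 5 + δ ∨ 4 / 5 - δ ≤ a) → G a = ContinuousLinearMap.id ℝ (ℝ × ℂ)) (p : R4)
    (hp : p ∈ SP) : fib G p = p := by
  rcases hp with (hp | hp) | hp
  · obtain ⟨-, hp⟩ := hp
    apply fib_id
    apply h
    left
    simp only [rsq, nsq, sub_zero] at hp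
    nlinarith [sq_nonneg p.2.2.re, sq_nonneg p.2.2.im]
  · obtain ⟨-, hp⟩ := hp
    apply fib_id
    apply h
    right
    simp only [rsq, nsq] at hp
    nlinarith [sq_nonneg p.2.2.re, sq_nonneg p.2.2.im]
  · obtain ⟨hp1, -, -, hp2⟩ := hp
    obtain ⟨s, a, w⟩ := p
    simp only at hp1 hp2
    subst hp1
    subst hp2
    have h0 : ((1 / 2 - 1 / 2 : ℝ), (0 : ℂ)) = (0 : ℝ × ℂ) := by
      rw [sub_self]
      rfl
    simp only [fib, h0, map_zero, Prod.fst_zero, Prod.snd_zero, add_zero]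

end FR1

theorem m_Fr1 (a0 : StA0) : StFr1 := by
  refine ⟨?_, ?_⟩
  · rintro G ⟨hG, hi, δ, hδ, hid⟩
    refine ⟨⟨fun p _ => FR1.emb a0 G hG hi p, (FR1.inj G hi).injOn⟩, FR1.smooth G hG,
      FR1.fib_SP G δ hδ hid, δ, hδ, fun p hp => FR1.fib_id G p (hid _ hp)⟩
  · rintro Γ F ⟨hΓ, hi, δ, hδ, hid⟩ ⟨hF, hFi⟩
    have hSP : ∀ t, ∀ p ∈ SP, fib (fun a => Γ (t, a)) p = p := fun t =>
      FR1.fib_SP _ δ hδ (hid t)
    have hcont := FR1.smooth_joint Γ hΓ
    have hUo : IsOpen {x : R4 | IsLocalDiffeomorphAt 𝓘(ℝ, R4) 𝓘(ℝ, R4) ∞ F x} := by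
      rw [isOpen_iff_mem_nhds]
      rintro x ⟨Φ, hx, hΦ⟩
      filter_upwards [Φ.open_source.mem_nhds hx] with y hy
      exact ⟨Φ, hy, hΦ⟩
    refine ⟨⟨{q : ℝ × R4 | fib (fun a => Γ (q.1, a)) q.2 ∈
      {x : R4 | IsLocalDiffeomorphAt 𝓘(ℝ, R4) 𝓘(ℝ, R4) ∞ F x}}, hUo.preimage hcont.continuous, ?_, ?_⟩, ?_⟩
    · rintro ⟨t, p⟩ ⟨-, hp⟩
      show IsLocalDiffeomorphAt 𝓘(ℝ, R4) 𝓘(ℝ, R4) ∞ F (fib (fun a => Γ (t, a)) p)
      rw [hSP t p hp]
      exact hF p hp
    · intro q hq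
      have hq' : IsLocalDiffeomorphAt 𝓘(ℝ, R4) 𝓘(ℝ, R4) ∞ F (fib (fun a => Γ (q.1, a)) q.2) := hq
      have h1 : ContMDiffAt 𝓘(ℝ, R4) 𝓘(ℝ, R4) ∞ F (fib (fun a => Γ (q.1, a)) q.2) := hq'.contMDiffAt
      have h2 : ContMDiffAt 𝓘(ℝ, ℝ × R4) 𝓘(ℝ, R4) ∞
          (fun q : ℝ × R4 => fib (fun a => Γ (q.1, a)) q.2) q := hcont.contMDiff q
      exact (ContMDiffAt.comp q h1 h2).contMDiffWithinAt
    · intro t ht
      have hG : ContDiff ℝ ∞ (fun a => Γ (t, a)) := hΓ.comp (contDiff_const.prodMk contDiff_id)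
      refine ⟨fun p hp => ?_, ?_⟩
      · have h1 := FR1.emb a0 (fun a => Γ (t, a)) hG (hi t ht) p
        have h2 : IsLocalDiffeomorphAt 𝓘(ℝ, R4) 𝓘(ℝ, R4) ∞ F (fib (fun a => Γ (t, a)) p) := by
          rw [hSP t p hp]
          exact hF p hp
        exact h1.comp _ _ h2
      · intro p hp q hq hpq
        have h3 : F (fib (fun a => Γ (t, a)) p) = F (fib (fun a => Γ (t, a)) q) := hpq
        rw [hSP t p hp, hSP t q hq] at h3
        exact hFi hp hq h3

end Pool.Agent.Helper18.BI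


end
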