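import Pool.Agent.Helper65.Barb.Defs
import Pool.Agent.Helper70.BI.C.P01
import Pool.Agent.Helper70.BI.C.P04
import Pool.Agent.Helper70.BI.C.P10

/-!
# Project BI (MP_8e98f2_gt): collected modules, part 28

The contents of the modules
* Helper18.BI.M_FR2A
* Helper18.BI.M_FR5

in one file, so that the whole proof builds in a short time.
-/

namespace Pool.Agent.Helper65.Barb
end Pool.Agent.Helper65.Barb


/-! ## Helper18.BI.M_FR2A -/

section

/-!
# Project BI, module FR2A: make the first column of a loop constant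
-/

set_option autoImplicit false

open scoped Manifold ContDiff Topology ComplexConjugate
open Set Pool.Agent.Helper65.Barb

namespace Pool.Agent.Helper18.BI

namespace FR2A

abbrev V : Type := ℝ × ℂ

noncomputable def c1 : V →L[ℝ] ℝ := ContinuousLinearMap.fst ℝ ℝ ℂ
noncomputable def c2 : V →L[ℝ] ℝ := Complex.reCLM.comp (ContinuousLinearMap.snd ℝ ℝ ℂ)
noncomputable def c3 : V →L[ℝ] ℝ := Complex.imCLM.comp (ContinuousLinearMap.snd ℝ ℝ ℂ)

/-- the Euclidean inner product -/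
noncomputable def Q : V →L[ℝ] (V →L[ℝ] ℝ) :=
  c1.smulRight c1 + c2.smulRight c2 + c3.smulRight c3

lemma Q_apply (u v : V) : Q u v = u.1 * v.1 + u.2.re * v.2.re + u.2.im * v.2.im := by
  simp [Q, c1, c2, c3]

/-- the Gram determinant -/
noncomputable def D (u v : V) : ℝ := Q u u * Q v v - Q u v ^ 2

/-- the functional with value one at `u` and `v` -/
noncomputable def L (u v : V) : V →L[ℝ] ℝ :=
  (D u v)⁻¹ • ((Q v v - Q u v) • Q u + (Q u u - Q u v) • Q v)

/-- the shear -/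
noncomputable def A (τ : ℝ) (u v : V) : V →L[ℝ] V :=
  ContinuousLinearMap.id ℝ V + (τ • L u v).smulRight (v - u)

lemma Q_comm (u v : V) : Q u v = Q v u := by
  rw [Q_apply, Q_apply]; ring

lemma L_apply (u v x : V) : L u v x =
    (D u v)⁻¹ * ((Q v v - Q u v) * Q u x + (Q u u - Q u v) * Q v x) := by
  simp [L]
  ring

lemma L_fst {u v : V} (h : D u v ≠ 0) : L u v u = 1 := by
  rw [L_apply, Q_comm v u, inv_mul_eq_one₀ h]
  unfold D
  ring

lemma L_snd {u v : V} (h : D u v ≠ 0) : L u v v = 1 := by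
  rw [L_apply, inv_mul_eq_one₀ h]
  unfold D
  ring

lemma A_apply (τ : ℝ) (u v x : V) : A τ u v x = x + (τ * L u v x) • (v - u) := by
  simp [A]

lemma A_zero (u v : V) : A 0 u v = ContinuousLinearMap.id ℝ V := by
  ext x <;> simp [A_apply]

lemma L_A {u v : V} (h : D u v ≠ 0) (τ : ℝ) (x : V) : L u v (A τ u v x) = L u v x := by
  rw [A_apply, map_add, map_smul, map_sub, L_fst h, L_snd h, sub_self, smul_zero, add_zero]

lemma A_inj {u v : V} (h : D u v ≠ 0) (τ : ℝ) (x : V) (hx : A τ u v x = 0) : x = 0 := by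
  have h1 := L_A h τ x
  rw [hx, map_zero] at h1
  rw [A_apply, ← h1, mul_zero, zero_smul, add_zero] at hx
  exact hx

/-- dependence -/
lemma dep {u v : V} (hu : u ≠ 0) (h : D u v = 0) : ∃ r : ℝ, v = r • u := by
  have hq : Q u u ≠ 0 := by
    intro h0
    apply hu
    rw [Q_apply] at h0
    have s1 := mul_self_nonneg u.1
    have s2 := mul_self_nonneg u.2.re
    have s3 := mul_self_nonneg u.2.im
    have h1 : u.1 = 0 := mul_self_eq_zero.1 (by linarith)
    have h2 : u.2.re = 0 := mul_self_eq_zero.1 (by linarith)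
    have h3 : u.2.im = 0 := mul_self_eq_zero.1 (by linarith)
    exact Prod.ext h1 (Complex.ext h2 h3)
  have hD : (u.1 * v.2.re - u.2.re * v.1) ^ 2 + (u.1 * v.2.im - u.2.im * v.1) ^ 2 +
      (u.2.re * v.2.im - u.2.im * v.2.re) ^ 2 = 0 := by
    rw [← h]
    unfold D
    rw [Q_apply, Q_apply, Q_apply]
    ring
  have e1 : u.1 * v.2.re - u.2.re * v.1 = 0 := by
    have s1 := sq_nonneg (u.1 * v.2.re - u.2.re * v.1)
    have s2 := sq_nonneg (u.1 * v.2.im - u.2.im * v.1)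
    have s3 := sq_nonneg (u.2.re * v.2.im - u.2.im * v.2.re)
    exact pow_eq_zero_iff (two_ne_zero) |>.1 (by linarith)
  have e2 : u.1 * v.2.im - u.2.im * v.1 = 0 := by
    have s1 := sq_nonneg (u.1 * v.2.re - u.2.re * v.1)
    have s2 := sq_nonneg (u.1 * v.2.im - u.2.im * v.1)
    have s3 := sq_nonneg (u.2.re * v.2.im - u.2.im * v.2.re)
    exact pow_eq_zero_iff (two_ne_zero) |>.1 (by linarith)
  have e3 : u.2.re * v.2.im - u.2.im * v.2.re = 0 := by
    have s1 := sq_nonneg (u.1 * v.2.re - u.2.re * v.1)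
    have s2 := sq_nonneg (u.1 * v.2.im - u.2.im * v.1)
    have s3 := sq_nonneg (u.2.re * v.2.im - u.2.im * v.2.re)
    exact pow_eq_zero_iff (two_ne_zero) |>.1 (by linarith)
  refine ⟨Q u v / Q u u, ?_⟩
  have k1 : v.1 = Q u v / Q u u * u.1 := by
    rw [div_mul_eq_mul_div, eq_div_iff hq, Q_apply, Q_apply]
    linear_combination -u.2.re * e1 - u.2.im * e2
  have k2 : v.2.re = Q u v / Q u u * u.2.re := by
    rw [div_mul_eq_mul_div, eq_div_iff hq, Q_apply, Q_apply]
    linear_combination u.1 * e1 - u.2.im * e3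
  have k3 : v.2.im = Q u v / Q u u * u.2.im := by
    rw [div_mul_eq_mul_div, eq_div_iff hq, Q_apply, Q_apply]
    linear_combination u.1 * e2 + u.2.re * e3
  refine Prod.ext ?_ (Complex.ext ?_ ?_)
  · simpa using k1
  · simpa using k2
  · simpa using k3

/-- a vector independent of all first columns -/
lemma exists_indep {u : ℝ → V} (hu : ContDiff ℝ ∞ u) : ∃ n : V, ∀ r a : ℝ, n ≠ r • u a := by
  by_contra hcon
  push Not at hcon
  have h1 : (fun q : ℝ × ℝ => q.1 • u q.2) '' univ = univ := by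
    rw [eq_univ_iff_forall]
    intro n
    obtain ⟨r, a, h⟩ := hcon n
    exact ⟨(r, a), mem_univ _, h.symm⟩
  have hd : Differentiable ℝ (fun q : ℝ × ℝ => q.1 • u q.2) := by
    have h2 : Differentiable ℝ u := hu.differentiable (by simp)
    have h3 : Differentiable ℝ (fun q : ℝ × ℝ => u q.2) := h2.comp differentiable_snd
    exact differentiable_fst.smul h3
  have hf : Module.finrank ℝ (ℝ × ℝ) < Module.finrank ℝ V := by
    rw [Module.finrank_prod, Module.finrank_prod, Module.finrank_self, Complex.finrank_real_complex]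
    norm_num
  have h3 := Pool.Agent.Helper34.BI.null_image
    ((MeasureTheory.volume : MeasureTheory.Measure ℝ).prod
      (MeasureTheory.volume : MeasureTheory.Measure ℂ)) hf (s := univ) hd.differentiableOn
  rw [h1] at h3
  exact (isOpen_univ.measure_pos ((MeasureTheory.volume : MeasureTheory.Measure ℝ).prod
    (MeasureTheory.volume : MeasureTheory.Measure ℂ)) univ_nonempty).ne' h3

lemma contDiff_Q {E : Type} [NormedAddCommGroup E] [NormedSpace ℝ E] {u v : E → V}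
    (hu : ContDiff ℝ ∞ u) (hv : ContDiff ℝ ∞ v) : ContDiff ℝ ∞ (fun x => Q (u x) (v x)) :=
  (Q.contDiff.comp hu).clm_apply hv

lemma contDiff_A {E : Type} [NormedAddCommGroup E] [NormedSpace ℝ E] {τ : E → ℝ} {u v : E → V}
    (hτ : ContDiff ℝ ∞ τ) (hu : ContDiff ℝ ∞ u) (hv : ContDiff ℝ ∞ v)
    (hD : ∀ x, D (u x) (v x) ≠ 0) : ContDiff ℝ ∞ (fun x => A (τ x) (u x) (v x)) := by
  have h1 : ContDiff ℝ ∞ (fun x => D (u x) (v x)) :=
    ((contDiff_Q hu hu).mul (contDiff_Q hv hv)).sub ((contDiff_Q hu hv).pow 2)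
  have h2 : ContDiff ℝ ∞ (fun x => L (u x) (v x)) := by
    refine (h1.inv hD).smul (ContDiff.add ?_ ?_)
    · exact ((contDiff_Q hv hv).sub (contDiff_Q hu hv)).smul (Q.contDiff.comp hu)
    · exact ((contDiff_Q hu hu).sub (contDiff_Q hu hv)).smul (Q.contDiff.comp hv)
  exact contDiff_const.add ((hτ.smul h2).smulRight (hv.sub hu))

end FR2A

open FR2A in
theorem m_Fr2a : StFr2a := by
  rintro G ⟨hG, hinj, δ, hδ, hend⟩
  -- the first columns
  let e : ℝ × ℂ := (1, 0)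
  let u : ℝ → ℝ × ℂ := fun a => G a e
  have hu : ContDiff ℝ ∞ u := hG.clm_apply contDiff_const
  have he : e ≠ 0 := by
    intro h
    have := congrArg Prod.fst h
    exact one_ne_zero this
  have hune : ∀ a, u a ≠ 0 := fun a h => he (hinj a e h)
  obtain ⟨n, hn⟩ := exists_indep hu
  have hD : ∀ a, D (u a) n ≠ 0 := by
    intro a h
    obtain ⟨r, hr⟩ := dep (hune a) h
    exact hn r a hr
  have hue : ∀ a, (a ≤ 1 / 5 + δ ∨ 4 / 5 - δ ≤ a) → u a = e := by
    intro a ha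
    show G a e = e
    rw [hend a ha]
    rfl
  have hDe : D e n ≠ 0 := by
    have h1 := hD 0
    rw [hue 0 (Or.inl (by linarith))] at h1
    exact h1
  -- the cutoff
  let χ : ℝ → ℝ := fun a => Real.smoothTransition ((a - 1 / 5 - δ / 3) / (δ / 3)) *
    Real.smoothTransition ((4 / 5 - δ / 3 - a) / (δ / 3))
  have hχ : ContDiff ℝ ∞ χ := by
    refine ContDiff.mul ?_ ?_
    · exact Real.smoothTransition.contDiff.comp (((contDiff_id.sub contDiff_const).sub
        contDiff_const).div_const _)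
    · exact Real.smoothTransition.contDiff.comp ((contDiff_const.sub contDiff_id).div_const _)
  have hχ0 : ∀ a, (a ≤ 1 / 5 + δ / 3 ∨ 4 / 5 - δ / 3 ≤ a) → χ a = 0 := by
    rintro a (ha | ha)
    · show _ * _ = (0 : ℝ)
      rw [Real.smoothTransition.zero_of_nonpos (div_nonpos_of_nonpos_of_nonneg (by linarith)
        (by linarith)), zero_mul]
    · show _ * _ = (0 : ℝ)
      rw [Real.smoothTransition.zero_of_nonpos (x := (4 / 5 - δ / 3 - a) / (δ / 3))
        (div_nonpos_of_nonpos_of_nonneg (by linarith) (by linarith)), mul_zero]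
  have hχ1 : ∀ a, u a = e ∨ χ a = 1 := by
    intro a
    by_cases ha : a ≤ 1 / 5 + δ ∨ 4 / 5 - δ ≤ a
    · exact Or.inl (hue a ha)
    · right
      push Not at ha
      have hpos : 0 < δ / 3 := by linarith
      show _ * _ = (1 : ℝ)
      rw [Real.smoothTransition.one_of_one_le ((one_le_div hpos).2 (by linarith)),
        Real.smoothTransition.one_of_one_le ((one_le_div hpos).2 (by linarith)), mul_one]
  -- the homotopy
  let Γ : ℝ × ℝ → E3 := fun q => ((A (-(q.1 * χ q.2)) e n).comp (A (q.1 * χ q.2) (u q.2) n)).comp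
    (G q.2)
  have hΓ : ContDiff ℝ ∞ Γ := by
    have h1 : ContDiff ℝ ∞ (fun q : ℝ × ℝ => q.1 * χ q.2) := contDiff_fst.mul (hχ.comp contDiff_snd)
    have h2 := contDiff_A (E := ℝ × ℝ) h1.neg (contDiff_const (c := e)) (contDiff_const (c := n))
      (fun _ => hDe)
    have h3 := contDiff_A (E := ℝ × ℝ) h1 (hu.comp contDiff_snd) (contDiff_const (c := n))
      (fun q => hD q.2)
    exact (h2.clm_comp h3).clm_comp (hG.comp contDiff_snd)
  have hΓinj : ∀ t a v, Γ (t, a) v = 0 → v = 0 := by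
    intro t a v h
    exact hinj a v (A_inj (hD a) _ _ (A_inj hDe _ _ h))
  have hΓend : ∀ t a, (a ≤ 1 / 5 + δ / 3 ∨ 4 / 5 - δ / 3 ≤ a) →
      Γ (t, a) = ContinuousLinearMap.id ℝ (ℝ × ℂ) := by
    intro t a ha
    have h1 : G a = ContinuousLinearMap.id ℝ (ℝ × ℂ) := hend a (by
      rcases ha with ha | ha
      · left; linarith
      · right; linarith)
    show ((A (-(t * χ a)) e n).comp (A (t * χ a) (u a) n)).comp (G a) = _
    rw [hχ0 a ha, mul_zero, neg_zero, A_zero, A_zero, h1]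
    rfl
  have hδ3 : 0 < δ / 3 := by linarith
  refine ⟨fun a => Γ (1, a), ⟨?_, fun a v => hΓinj 1 a v, δ / 3, hδ3, fun a => hΓend 1 a⟩, ?_, ?_⟩
  · exact hΓ.comp (contDiff_const.prodMk contDiff_id)
  · refine Relation.ReflTransGen.single ⟨Γ, ⟨hΓ, fun t _ a v => hΓinj t a v, δ / 3, hδ3, hΓend⟩,
      fun a => ?_, fun a => rfl⟩
    show ((A (-(0 * χ a)) e n).comp (A (0 * χ a) (u a) n)).comp (G a) = G a
    rw [zero_mul, neg_zero, A_zero, A_zero]
    rfl
  · intro a
    show A (-(1 * χ a)) e n (A (1 * χ a) (u a) n (u a)) = e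
    have h1 : A (1 * χ a) (u a) n (u a) = e + χ a • (n - e) := by
      rw [A_apply, L_fst (hD a), one_mul, mul_one]
      rcases hχ1 a with h | h
      · rw [h]
      · rw [h, one_smul, one_smul]; abel
    rw [h1, A_apply, map_add, map_smul, map_sub, L_fst hDe, L_snd hDe, sub_self, smul_zero,
      add_zero, mul_one, one_mul, neg_smul]
    abel

end Pool.Agent.Helper18.BI


end

/-! ## Helper18.BI.M_FR5 -/

section

/-!
# Project BI (MP_8e98f2_gt), module Fr5: two germs with the same neck differ by a loop of frames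
-/

set_option autoImplicit false

open scoped Manifold ContDiff Topology ComplexConjugate
open Set Pool.Agent.Helper65.Barb

namespace Pool.Agent.Helper18.BI

namespace FR5

/-- the points of the axis -/
private noncomputable def pt (a : ℝ) : R4 := (1 / 2, a, 0)

/-- inclusion of the normal space -/
private noncomputable def inj : (ℝ × ℂ) →L[ℝ] R4 :=
  (ContinuousLinearMap.fst ℝ ℝ ℂ).prod
    ((0 : (ℝ × ℂ) →L[ℝ] ℝ).prod (ContinuousLinearMap.snd ℝ ℝ ℂ))

/-- projection to the normal space -/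
private noncomputable def prj : R4 →L[ℝ] (ℝ × ℂ) :=
  (ContinuousLinearMap.fst ℝ ℝ (ℝ × ℂ)).prod
    ((ContinuousLinearMap.snd ℝ ℝ ℂ).comp (ContinuousLinearMap.snd ℝ ℝ (ℝ × ℂ)))

private theorem inj_apply (v : ℝ × ℂ) : inj v = (v.1, 0, v.2) := rfl

private theorem prj_apply (p : R4) : prj p = (p.1, p.2.2) := rfl

private theorem pt_smooth : ContDiff ℝ ∞ pt :=
  contDiff_const.prodMk (contDiff_id.prodMk contDiff_const)

private theorem pt_deriv (a : ℝ) : HasDerivAt pt ((0, 1, 0) : R4) a :=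
  (hasDerivAt_const a (1 / 2 : ℝ)).prodMk ((hasDerivAt_id a).prodMk (hasDerivAt_const a (0 : ℂ)))

private theorem pt_neck {a : ℝ} (h1 : 1 / 5 ≤ a) (h2 : a ≤ 4 / 5) : pt a ∈ neck :=
  ⟨rfl, h1, h2, rfl⟩

private theorem neck_SP : neck ⊆ SP := subset_union_right

private theorem germ (a0 : StA0) {F : R4 → R4} (hF : EmbOn 𝓘(ℝ, R4) F SP) {p : R4} (hp : p ∈ SP) :
    ContDiffAt ℝ ∞ F p ∧ ∀ v, fderiv ℝ F p v = 0 → v = 0 := by
  obtain ⟨⟨U, hU, hpU, hc⟩, hinj⟩ := (a0 R4 F p).1 (hF.1 p hp)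
  exact ⟨hc.contDiffAt (hU.mem_nhds hpU), hinj⟩

private theorem exE (L : R4 →L[ℝ] R4) (hL : ∀ v, L v = 0 → v = 0) :
    ∃ e : R4 ≃L[ℝ] R4, (e : R4 →L[ℝ] R4) = L := by
  have hi : Function.Injective (L : R4 →ₗ[ℝ] R4) := by
    intro x y hxy
    have : L (x - y) = 0 := by
      rw [map_sub]; exact sub_eq_zero.2 hxy
    exact sub_eq_zero.1 (hL _ this)
  refine ⟨(LinearEquiv.ofInjectiveEndo (L : R4 →ₗ[ℝ] R4) hi).toContinuousLinearEquiv, ?_⟩
  ext v <;> rfl

/-- the transition map -/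
private noncomputable def BB (F F' : R4 → R4) (a : ℝ) : R4 →L[ℝ] R4 :=
  (fderiv ℝ F (pt a)).inverse.comp (fderiv ℝ F' (pt a))

private noncomputable def MM (F F' : R4 → R4) (a : ℝ) : E3 :=
  prj.comp ((BB F F' a).comp inj)

private theorem BB_spec {F F' : R4 → R4} {a : ℝ}
    (hF : ∀ v, fderiv ℝ F (pt a) v = 0 → v = 0) (v : R4) :
    fderiv ℝ F (pt a) (BB F F' a v) = fderiv ℝ F' (pt a) v := by
  obtain ⟨e, he⟩ := exE _ hF
  have : (fderiv ℝ F (pt a)).inverse = (e.symm : R4 →L[ℝ] R4) := by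
    rw [← he, ContinuousLinearMap.inverse_equiv]
  unfold BB
  rw [this, ← he]
  simp

private theorem MM_smooth {F F' : R4 → R4} {a : ℝ} (h1 : ContDiffAt ℝ ∞ F (pt a))
    (h2 : ContDiffAt ℝ ∞ F' (pt a)) (hF : ∀ v, fderiv ℝ F (pt a) v = 0 → v = 0) :
    ContDiffAt ℝ ∞ (MM F F') a := by
  have d1 : ContDiffAt ℝ ∞ (fun x => fderiv ℝ F (pt x)) a :=
    (h1.fderiv_right (m := ∞) (by simp)).comp a pt_smooth.contDiffAt
  have d2 : ContDiffAt ℝ ∞ (fun x => fderiv ℝ F' (pt x)) a :=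
    (h2.fderiv_right (m := ∞) (by simp)).comp a pt_smooth.contDiffAt
  obtain ⟨e, he⟩ := exE _ hF
  have d3 : ContDiffAt ℝ ∞ (ContinuousLinearMap.inverse : (R4 →L[ℝ] R4) → (R4 →L[ℝ] R4))
      (fderiv ℝ F (pt a)) := by
    rw [← he]
    exact contDiffAt_map_inverse e
  have d4 : ContDiffAt ℝ ∞ (fun x => (fderiv ℝ F (pt x)).inverse) a :=
    ContDiffAt.comp (f := fun x => fderiv ℝ F (pt x)) a d3 d1
  have d5 : ContDiffAt ℝ ∞ (BB F F') a := d4.clm_comp d2
  exact contDiffAt_const.clm_comp (d5.clm_comp contDiffAt_const)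

private theorem fib_deriv {G : ℝ → E3} (hG : ContDiff ℝ ∞ G) (a : ℝ) (v : R4) :
    fderiv ℝ (fib G) (pt a) v = ((G a (v.1, v.2.2)).1, v.2.1, (G a (v.1, v.2.2)).2) := by
  have hG1 : HasFDerivAt (fun p : R4 => G p.2.1)
      ((fderiv ℝ G a).comp ((ContinuousLinearMap.fst ℝ ℝ ℂ).comp
        (ContinuousLinearMap.snd ℝ ℝ (ℝ × ℂ)))) (pt a) := by
    have h0 : HasFDerivAt G (fderiv ℝ G a) ((pt a).2.1) :=
      (hG.differentiable (by simp) a).hasFDerivAt
    exact h0.comp (pt a) ((ContinuousLinearMap.fst ℝ ℝ ℂ).comp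
        (ContinuousLinearMap.snd ℝ ℝ (ℝ × ℂ))).hasFDerivAt
  have hu : HasFDerivAt (fun p : R4 => (p.1 - 1 / 2, p.2.2)) prj (pt a) := by
    have h0 : HasFDerivAt (fun p : R4 => prj p - ((1 / 2 : ℝ), (0 : ℂ))) prj (pt a) :=
      prj.hasFDerivAt.sub_const _
    refine h0.congr_of_eventuallyEq (Filter.Eventually.of_forall fun p => ?_)
    simp [prj_apply]
  have hv := hG1.clm_apply hu
  have hz : (((pt a).1 - 1 / 2, (pt a).2.2) : ℝ × ℂ) = 0 := by simp [pt]
  have hfib : HasFDerivAt (fib G)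
      (((ContinuousLinearMap.fst ℝ ℝ ℂ).comp
        ((G (pt a).2.1).comp prj + (((fderiv ℝ G a).comp ((ContinuousLinearMap.fst ℝ ℝ ℂ).comp
        (ContinuousLinearMap.snd ℝ ℝ (ℝ × ℂ)))).flip ((pt a).1 - 1 / 2, (pt a).2.2)))).prod
      (((ContinuousLinearMap.fst ℝ ℝ ℂ).comp
        (ContinuousLinearMap.snd ℝ ℝ (ℝ × ℂ))).prod
        ((ContinuousLinearMap.snd ℝ ℝ ℂ).comp
        ((G (pt a).2.1).comp prj + (((fderiv ℝ G a).comp ((ContinuousLinearMap.fst ℝ ℝ ℂ).comp
        (ContinuousLinearMap.snd ℝ ℝ (ℝ × ℂ)))).flip ((pt a).1 - 1 / 2, (pt a).2.2)))))) (pt a) := by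
    have e1 := ((ContinuousLinearMap.fst ℝ ℝ ℂ).hasFDerivAt (x := G (pt a).2.1
      ((pt a).1 - 1 / 2, (pt a).2.2))).comp (pt a) hv
    have e2 := ((ContinuousLinearMap.snd ℝ ℝ ℂ).hasFDerivAt (x := G (pt a).2.1
      ((pt a).1 - 1 / 2, (pt a).2.2))).comp (pt a) hv
    have e3 := ((ContinuousLinearMap.fst ℝ ℝ ℂ).comp
        (ContinuousLinearMap.snd ℝ ℝ (ℝ × ℂ))).hasFDerivAt (x := pt a)
    exact (e1.const_add (1 / 2)).prodMk (e3.prodMk e2)
  rw [hfib.fderiv, hz]
  simp [prj_apply, pt]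

end FR5

open FR5

theorem m_Fr5 (a0 : StA0) (f1 : StFr1) (t8 : StT8) : StFr5 := by
  intro F F' U hF hF' hU hUs hEU hEn
  have hs0 : ∀ p ∈ sph 0, p.2.1 ≤ 1 / 5 := by
    rintro p ⟨-, hp⟩
    have h : p.2.1 ^ 2 + p.2.2.re ^ 2 + p.2.2.im ^ 2 = 1 / 25 := by
      have := hp
      simp only [rsq, nsq, sub_zero] at this
      exact this
    nlinarith [sq_nonneg p.2.2.re, sq_nonneg p.2.2.im, sq_nonneg (p.2.1 - 1 / 5)]
  have hs1 : ∀ p ∈ sph 1, 4 / 5 ≤ p.2.1 := by
    rintro p ⟨-, hp⟩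
    have h : (p.2.1 - 1) ^ 2 + p.2.2.re ^ 2 + p.2.2.im ^ 2 = 1 / 25 := by
      have := hp
      simp only [rsq, nsq] at this
      exact this
    nlinarith [sq_nonneg p.2.2.re, sq_nonneg p.2.2.im, sq_nonneg (p.2.1 - 1 + 1 / 5)]
  have hp0 : pt (1 / 5) ∈ sph 0 := by
    refine ⟨rfl, ?_⟩
    simp only [rsq, nsq, pt]
    norm_num
  have hp1 : pt (4 / 5) ∈ sph 1 := by
    refine ⟨rfl, ?_⟩
    simp only [rsq, nsq, pt]
    norm_num
  -- the ends
  obtain ⟨r0, hr0, hr0'⟩ : ∃ r > 0, ∀ a, |a - 1 / 5| < r → pt a ∈ U := by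
    have h : ∀ᶠ a in 𝓝 (1 / 5 : ℝ), pt a ∈ U :=
      pt_smooth.continuous.continuousAt.eventually (hU.mem_nhds (hUs (Or.inl hp0)))
    obtain ⟨r, hr, h⟩ := Metric.eventually_nhds_iff.1 h
    exact ⟨r, hr, fun a ha => h (by rwa [Real.dist_eq])⟩
  obtain ⟨r1, hr1, hr1'⟩ : ∃ r > 0, ∀ a, |a - 4 / 5| < r → pt a ∈ U := by
    have h : ∀ᶠ a in 𝓝 (4 / 5 : ℝ), pt a ∈ U :=
      pt_smooth.continuous.continuousAt.eventually (hU.mem_nhds (hUs (Or.inr hp1)))
    obtain ⟨r, hr, h⟩ := Metric.eventually_nhds_iff.1 h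
    exact ⟨r, hr, fun a ha => h (by rwa [Real.dist_eq])⟩
  obtain ⟨δ, hδ, hδ0, hδ1, hδ2⟩ : ∃ δ : ℝ, 0 < δ ∧ δ < r0 ∧ δ < r1 ∧ δ ≤ 1 / 10 :=
    ⟨min (min (r0 / 2) (r1 / 2)) (1 / 10), by positivity,
      lt_of_le_of_lt ((min_le_left _ _).trans (min_le_left _ _)) (by linarith),
      lt_of_le_of_lt ((min_le_left _ _).trans (min_le_right _ _)) (by linarith), min_le_right _ _⟩
  -- equality of the germs on `U`
  have hnear : ∀ p ∈ U, F =ᶠ[𝓝 p] F' := fun p hp =>
    Filter.eventually_of_mem (hU.mem_nhds hp) hEU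
  have hMid : ∀ a, 1 / 5 ≤ a → a ≤ 4 / 5 → pt a ∈ U → MM F F' a = ContinuousLinearMap.id ℝ (ℝ × ℂ) := by
    intro a h1 h2 haU
    have hg := germ a0 hF (neck_SP (pt_neck h1 h2))
    have hB : ∀ v, BB F F' a v = v := by
      intro v
      have := BB_spec (F' := F') hg.2 v
      rw [← (hnear _ haU).fderiv_eq] at this
      have h3 : fderiv ℝ F (pt a) (BB F F' a v - v) = 0 := by rw [map_sub, this, sub_self]
      exact sub_eq_zero.1 (hg.2 _ h3)
    ext1
    · ext <;> simp [MM, hB, inj_apply, prj_apply]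
    · ext <;> simp [MM, hB, inj_apply, prj_apply]
  -- the axis direction
  have hax : ∀ a, 1 / 5 < a → a < 4 / 5 → BB F F' a (0, 1, 0) = (0, 1, 0) := by
    intro a h1 h2
    have hg := germ a0 hF (neck_SP (pt_neck h1.le h2.le))
    have hg' := germ a0 hF' (neck_SP (pt_neck h1.le h2.le))
    have d1 : HasDerivAt (fun x => F (pt x)) (fderiv ℝ F (pt a) (0, 1, 0)) a :=
      (hg.1.differentiableAt (by simp)).hasFDerivAt.comp_hasDerivAt a (pt_deriv a)
    have d2 : HasDerivAt (fun x => F' (pt x)) (fderiv ℝ F' (pt a) (0, 1, 0)) a :=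
      (hg'.1.differentiableAt (by simp)).hasFDerivAt.comp_hasDerivAt a (pt_deriv a)
    have he : (fun x => F (pt x)) =ᶠ[𝓝 a] fun x => F' (pt x) := by
      filter_upwards [Ioo_mem_nhds h1 h2] with x hx
      exact hEn (pt_neck hx.1.le hx.2.le)
    have h3 : fderiv ℝ F (pt a) (0, 1, 0) = fderiv ℝ F' (pt a) (0, 1, 0) :=
      d1.unique (d2.congr_of_eventuallyEq he)
    have h4 : fderiv ℝ F (pt a) (BB F F' a (0, 1, 0) - (0, 1, 0)) = 0 := by
      rw [map_sub, BB_spec hg.2, h3, sub_self]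
    exact sub_eq_zero.1 (hg.2 _ h4)
  have hBinj : ∀ a, 1 / 5 < a → a < 4 / 5 → ∀ v, BB F F' a v = 0 → v = 0 := by
    intro a h1 h2 v hv
    have hg := germ a0 hF (neck_SP (pt_neck h1.le h2.le))
    have hg' := germ a0 hF' (neck_SP (pt_neck h1.le h2.le))
    apply hg'.2
    rw [← BB_spec hg.2, hv, map_zero]
  -- decomposition of `BB`
  have hdec : ∀ a, 1 / 5 < a → a < 4 / 5 → ∀ v : ℝ × ℂ, ∃ b : ℝ, ∀ α : ℝ,
      BB F F' a (v.1, α, v.2) = ((MM F F' a v).1, α + b, (MM F F' a v).2) := by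
    intro a h1 h2 v
    refine ⟨(BB F F' a (inj v)).2.1, fun α => ?_⟩
    have e : ((v.1, α, v.2) : R4) = inj v + α • ((0, 1, 0) : R4) := by
      simp [inj_apply]
    rw [e, map_add, map_smul, hax a h1 h2]
    ext <;> simp [MM, prj_apply, add_comm]
  have hMinj : ∀ a, 1 / 5 < a → a < 4 / 5 → ∀ v, MM F F' a v = 0 → v = 0 := by
    intro a h1 h2 v hv
    obtain ⟨b, hb⟩ := hdec a h1 h2 v
    have := hb (-b)
    rw [hv] at this
    have h3 : ((v.1, -b, v.2) : R4) = 0 := by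
      apply hBinj a h1 h2
      rw [this]
      simp
    have h4 := congrArg Prod.fst h3
    have h5 := congrArg (fun q : R4 => q.2.2) h3
    exact Prod.ext h4 h5
  -- the loop
  classical
  let G : ℝ → E3 := fun a =>
    if 1 / 5 < a ∧ a < 4 / 5 then MM F F' a else ContinuousLinearMap.id ℝ (ℝ × ℂ)
  have hGend : ∀ a, (a ≤ 1 / 5 + δ ∨ 4 / 5 - δ ≤ a) → G a = ContinuousLinearMap.id ℝ (ℝ × ℂ) := by
    intro a ha
    by_cases h : 1 / 5 < a ∧ a < 4 / 5
    · rw [show G a = MM F F' a from if_pos h]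
      apply hMid a h.1.le h.2.le
      rcases ha with ha | ha
      · apply hr0'
        rw [abs_lt]; constructor <;> linarith [h.1]
      · apply hr1'
        rw [abs_lt]; constructor <;> linarith [h.2]
    · exact if_neg h
  have hGmid : ∀ a, 1 / 5 < a → a < 4 / 5 → G a = MM F F' a := fun a h1 h2 => if_pos ⟨h1, h2⟩
  have hGs : ContDiff ℝ ∞ G := by
    rw [contDiff_iff_contDiffAt]
    intro a
    by_cases h1 : a < 1 / 5 + δ
    · refine (contDiffAt_const (c := ContinuousLinearMap.id ℝ (ℝ × ℂ))).congr_of_eventuallyEq ?_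
      filter_upwards [Iio_mem_nhds h1] with x hx
      exact hGend x (Or.inl (le_of_lt hx))
    by_cases h2 : 4 / 5 - δ < a
    · refine (contDiffAt_const (c := ContinuousLinearMap.id ℝ (ℝ × ℂ))).congr_of_eventuallyEq ?_
      filter_upwards [Ioi_mem_nhds h2] with x hx
      exact hGend x (Or.inr (le_of_lt hx))
    have h3 : 1 / 5 < a := by linarith [not_lt.1 h1]
    have h4 : a < 4 / 5 := by linarith [not_lt.1 h2]
    have hg := germ a0 hF (neck_SP (pt_neck h3.le h4.le))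
    have hg' := germ a0 hF' (neck_SP (pt_neck h3.le h4.le))
    refine (MM_smooth hg.1 hg'.1 hg.2).congr_of_eventuallyEq ?_
    filter_upwards [Ioo_mem_nhds h3 h4] with x hx
    exact hGmid x hx.1 hx.2
  have hGinj : ∀ a v, G a v = 0 → v = 0 := by
    intro a v hv
    by_cases h : 1 / 5 < a ∧ a < 4 / 5
    · rw [hGmid a h.1 h.2] at hv
      exact hMinj a h.1 h.2 v hv
    · rw [show G a = _ from if_neg h] at hv
      simpa using hv
  have hGL : LoopOK G := ⟨hGs, hGinj, δ, hδ, hGend⟩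
  refine ⟨G, hGL, ?_⟩
  obtain ⟨-, hfs, hfSP, δ', hδ', hfend⟩ := f1.1 G hGL
  -- the second germ
  have hHom : HomOK (fun q : ℝ × ℝ => G q.2) :=
    ⟨hGs.comp contDiff_snd, fun t _ a v h => hGinj a v h, δ, hδ, fun t a h => hGend a h⟩
  have hF2 : EmbOn 𝓘(ℝ, R4) (fun p => F (fib G p)) SP :=
    (f1.2 _ F hHom hF).2 0 ⟨le_refl _, zero_le_one⟩
  have hES : EqOn F F' SP := by
    rintro p (hp | hp)
    · exact hEU (hUs hp)
    · exact hEn hp
  apply t8 _ F' hF2 hF'
  · intro p hp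
    show F (fib G p) = F' p
    rw [hfSP p hp, hES hp]
  intro p hp t ht v hv
  -- near the cuffs
  have hcuff : ∀ q ∈ sph 0 ∪ sph 1, p = q → v = 0 := by
    intro q hq hpq
    subst hpq
    have h1 : (fun p => F (fib G p)) =ᶠ[𝓝 p] F' := by
      have h2 : ∀ᶠ x : R4 in 𝓝 p, x.2.1 ≤ 1 / 5 + δ' ∨ 4 / 5 - δ' ≤ x.2.1 := by
        have hc : Continuous fun x : R4 => x.2.1 := continuous_fst.comp continuous_snd
        rcases hq with hq | hq
        · have h3 := hs0 p hq
          filter_upwards [(isOpen_lt hc continuous_const).mem_nhds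
            (show p.2.1 < 1 / 5 + δ' by linarith)] with x hx
          exact Or.inl (le_of_lt hx)
        · have h3 := hs1 p hq
          filter_upwards [(isOpen_lt continuous_const hc).mem_nhds
            (show 4 / 5 - δ' < p.2.1 by linarith)] with x hx
          exact Or.inr (le_of_lt hx)
      filter_upwards [h2, hnear p (hUs hq)] with x hx hx'
      rw [hfend x hx, hx']
    rw [h1.fderiv_eq, ← add_smul, sub_add_cancel, one_smul] at hv
    exact (germ a0 hF' hp).2 v hv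
  rcases hp with hp' | hp'
  · exact hcuff p hp' rfl
  obtain ⟨hps, hpa1, hpa2, hpw⟩ := hp'
  have hpe : p = pt p.2.1 := Prod.ext hps (Prod.ext rfl hpw)
  generalize p.2.1 = a at hpe hpa1 hpa2
  rcases hpa1.eq_or_lt with h1 | h1
  · exact hcuff _ (Or.inl hp0) (by rw [hpe, ← h1])
  rcases hpa2.eq_or_lt with h2 | h2
  · exact hcuff _ (Or.inr hp1) (by rw [hpe, h2])
  have hg := germ a0 hF (neck_SP (pt_neck h1.le h2.le))
  have hcomp : fderiv ℝ (fun p => F (fib G p)) (pt a) v =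
      fderiv ℝ F (pt a) (fderiv ℝ (fib G) (pt a) v) := by
    have hfp : fib G (pt a) = pt a := hfSP _ (neck_SP (pt_neck h1.le h2.le))
    have h5 : HasFDerivAt F (fderiv ℝ F (pt a)) (fib G (pt a)) := by
      rw [hfp]; exact (hg.1.differentiableAt (by simp)).hasFDerivAt
    have h6 : HasFDerivAt (fib G) (fderiv ℝ (fib G) (pt a)) (pt a) :=
      (hfs.differentiable (by simp) _).hasFDerivAt
    have h7 := h5.comp (pt a) h6
    have h8 : fderiv ℝ (fun p => F (fib G p)) (pt a) =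
      (fderiv ℝ F (pt a)).comp (fderiv ℝ (fib G) (pt a)) := h7.fderiv
    rw [h8]; rfl
  rw [hpe, hcomp, fib_deriv hGs, ← BB_spec (F' := F') hg.2 v, ← map_smul, ← map_smul, ← map_add,
    hGmid a h1 h2] at hv
  have h9 := hg.2 _ hv
  obtain ⟨b, hb⟩ := hdec a h1 h2 (v.1, v.2.2)
  have h10 : BB F F' a v = ((MM F F' a (v.1, v.2.2)).1, v.2.1 + b, (MM F F' a (v.1, v.2.2)).2) :=
    hb v.2.1
  rw [h10] at h9
  have c1 := congrArg Prod.fst h9
  have c2 := congrArg (fun q : R4 => q.2.1) h9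
  have c3 := congrArg (fun q : R4 => q.2.2) h9
  simp only [Prod.fst_add, Prod.snd_add, Prod.smul_fst, Prod.smul_snd, Prod.fst_zero,
    Prod.snd_zero, ← add_smul, sub_add_cancel, one_smul] at c1 c2 c3
  have h11 : MM F F' a (v.1, v.2.2) = 0 := Prod.ext c1 c3
  have h12 := hMinj a h1 h2 _ h11
  have h13 : v.1 = 0 := congrArg Prod.fst h12
  have h14 : v.2.2 = 0 := congrArg Prod.snd h12
  have h15 : b = 0 := by
    have := hb 0
    rw [h11] at this
    rw [h12] at this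
    have h16 : BB F F' a (((0 : ℝ × ℂ).1, 0, (0 : ℝ × ℂ).2) : R4) = 0 := by
      rw [show (((0 : ℝ × ℂ).1, 0, (0 : ℝ × ℂ).2) : R4) = 0 from rfl, map_zero]
    rw [h16] at this
    have := congrArg (fun q : R4 => q.2.1) this
    simpa using this.symm
  rw [h15] at c2
  have h17 : v.2.1 = 0 := by
    simp only [smul_eq_mul] at c2
    linarith
  exact Prod.ext h13 (Prod.ext h17 h14)

end Pool.Agent.Helper18.BI


end
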