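import Pool.Agent.Helper65.Barb.Defs
import Pool.Agent.Helper70.BI.C.P13
import Pool.Agent.Helper70.BI.C.P16
import Pool.Agent.Helper70.BI.C.P19
import Pool.Agent.Helper70.BI.C.P24
import Pool.Agent.Helper70.BI.C.P25
import Pool.Agent.Helper70.BI.C.P26
import Pool.Agent.Helper70.BI.C.P27
import Pool.Agent.Helper70.BI.C.P28

/-!
# Project BI (MP_8e98f2_gt): collected modules, part 29

The contents of the modules
* Helper27.BI.M_PERT
* Helper27.BI.GRef
* Helper18.BI.M_A2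
* Helper18.BI.M_FR3
* Helper18.BI.M_FR4
* Helper18.BI.AsmA
* Helper27.BI.AsmC
* Helper27.BI.H.M_PHI

in one file, so that the whole proof builds in a short time.
-/

namespace Pool.Agent.Helper18.BI
end Pool.Agent.Helper18.BI

namespace Pool.Agent.Helper34.BI
end Pool.Agent.Helper34.BI

namespace Pool.Agent.Helper65.Barb
end Pool.Agent.Helper65.Barb

namespace Pool.Agent.Helper70.BI
end Pool.Agent.Helper70.BI


/-! ## Helper27.BI.M_PERT -/

section

/-!
# Project BI, module PERT: perturbation of the identity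
-/

set_option autoImplicit false

open scoped Manifold ContDiff Topology ComplexConjugate
open Set Pool.Agent.Helper65.Barb Pool.Agent.Helper18.BI

namespace Pool.Agent.Helper27.BI

namespace PERT

/-- the level preserving map -/
def mp (g : ℝ × R4 → R3) (p : ℝ × R4) : ℝ × R4 := (p.1, (p.2.1, p.2.2 + g p))

theorem exists_pre (g : ℝ × R4 → R3)
    (hg : ∀ t s x y, ‖g (t, (s, x)) - g (t, (s, y))‖ ≤ 1 / 2 * ‖x - y‖) (t s : ℝ) (y : R3) :
    ∃ x : R3, x + g (t, (s, x)) = y := by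
  have hl : LipschitzWith (1 / 2) (fun x : R3 => y - g (t, (s, x))) := by
    refine LipschitzWith.of_dist_le_mul fun a b => ?_
    rw [dist_eq_norm, dist_eq_norm]
    have e : y - g (t, (s, a)) - (y - g (t, (s, b))) = g (t, (s, b)) - g (t, (s, a)) := by abel
    rw [e]
    have := hg t s b a
    rw [norm_sub_rev b a] at this
    simpa using this
  have hc : ContractingWith (1 / 2) (fun x : R3 => y - g (t, (s, x))) := ⟨by norm_num, hl⟩
  refine ⟨hc.fixedPoint, ?_⟩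
  have h := hc.fixedPoint_isFixedPt
  have h2 : y - g (t, (s, hc.fixedPoint)) = hc.fixedPoint := h
  calc hc.fixedPoint + g (t, (s, hc.fixedPoint)) =
      (y - g (t, (s, hc.fixedPoint))) + g (t, (s, hc.fixedPoint)) := by rw [h2]
    _ = y := by abel

theorem key (g : ℝ × R4 → R3)
    (hg : ∀ t s x y, ‖g (t, (s, x)) - g (t, (s, y))‖ ≤ 1 / 2 * ‖x - y‖) (t s : ℝ) (x x' : R3) :
    ‖x - x'‖ ≤ 2 * ‖(x + g (t, (s, x))) - (x' + g (t, (s, x')))‖ := by
  have h1 := hg t s x x'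
  have h2 : ‖x - x'‖ ≤ ‖(x + g (t, (s, x))) - (x' + g (t, (s, x')))‖ +
      ‖g (t, (s, x)) - g (t, (s, x'))‖ := by
    have e : x - x' = ((x + g (t, (s, x))) - (x' + g (t, (s, x')))) -
        (g (t, (s, x)) - g (t, (s, x'))) := by abel
    calc ‖x - x'‖ = ‖((x + g (t, (s, x))) - (x' + g (t, (s, x')))) -
        (g (t, (s, x)) - g (t, (s, x')))‖ := by rw [← e]
      _ ≤ _ := norm_sub_le _ _
  linarith

/-- the inverse -/
noncomputable def iv (g : ℝ × R4 → R3)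
    (hg : ∀ t s x y, ‖g (t, (s, x)) - g (t, (s, y))‖ ≤ 1 / 2 * ‖x - y‖) (q : ℝ × R4) : R3 :=
  (exists_pre g hg q.1 q.2.1 q.2.2).choose

theorem iv_spec (g : ℝ × R4 → R3)
    (hg : ∀ t s x y, ‖g (t, (s, x)) - g (t, (s, y))‖ ≤ 1 / 2 * ‖x - y‖) (q : ℝ × R4) :
    iv g hg q + g (q.1, (q.2.1, iv g hg q)) = q.2.2 :=
  (exists_pre g hg q.1 q.2.1 q.2.2).choose_spec

theorem iv_mp (g : ℝ × R4 → R3)
    (hg : ∀ t s x y, ‖g (t, (s, x)) - g (t, (s, y))‖ ≤ 1 / 2 * ‖x - y‖) (p : ℝ × R4) :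
    iv g hg (mp g p) = p.2.2 := by
  have h := iv_spec g hg (mp g p)
  have h2 := key g hg p.1 p.2.1 (iv g hg (mp g p)) p.2.2
  have h3 : iv g hg (mp g p) + g (p.1, (p.2.1, iv g hg (mp g p))) = p.2.2 + g (p.1, (p.2.1, p.2.2)) := h
  rw [h3, sub_self, norm_zero, mul_zero] at h2
  exact sub_eq_zero.1 (norm_le_zero_iff.1 h2)

theorem iv_cont (g : ℝ × R4 → R3) (hc : Continuous g)
    (hg : ∀ t s x y, ‖g (t, (s, x)) - g (t, (s, y))‖ ≤ 1 / 2 * ‖x - y‖) : Continuous (iv g hg) := by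
  rw [continuous_iff_continuousAt]
  intro q₀
  set x₀ := iv g hg q₀ with hx₀
  have h0 : x₀ + g (q₀.1, (q₀.2.1, x₀)) = q₀.2.2 := iv_spec g hg q₀
  have h1 : ∀ q, ‖iv g hg q - x₀‖ ≤ 2 * ‖q.2.2 - (x₀ + g (q.1, (q.2.1, x₀)))‖ := by
    intro q
    have := key g hg q.1 q.2.1 (iv g hg q) x₀
    rwa [iv_spec g hg q] at this
  have h2 : Filter.Tendsto (fun q : ℝ × R4 => 2 * ‖q.2.2 - (x₀ + g (q.1, (q.2.1, x₀)))‖) (𝓝 q₀)
      (𝓝 0) := by
    have hcont : Continuous (fun q : ℝ × R4 => 2 * ‖q.2.2 - (x₀ + g (q.1, (q.2.1, x₀)))‖) := by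
      fun_prop
    have h3 := hcont.tendsto q₀
    rw [h0, sub_self, norm_zero, mul_zero] at h3
    exact h3
  rw [ContinuousAt, tendsto_iff_norm_sub_tendsto_zero]
  exact squeeze_zero (fun _ => norm_nonneg _) h1 h2

/-- the homeomorphism -/
noncomputable def hm (g : ℝ × R4 → R3) (hc : Continuous g)
    (hg : ∀ t s x y, ‖g (t, (s, x)) - g (t, (s, y))‖ ≤ 1 / 2 * ‖x - y‖) :
    (ℝ × R4) ≃ₜ (ℝ × R4) where
  toFun := mp g
  invFun q := (q.1, (q.2.1, iv g hg q))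
  left_inv p := by
    show (p.1, (p.2.1, iv g hg (mp g p))) = p
    rw [iv_mp]
  right_inv q := by
    show (q.1, (q.2.1, iv g hg q + g (q.1, (q.2.1, iv g hg q)))) = q
    rw [iv_spec]
  continuous_toFun := by
    unfold mp
    fun_prop
  continuous_invFun := by
    have := iv_cont g hc hg
    fun_prop

theorem fderiv_small (g : ℝ × R4 → R3) (hs : ContDiff ℝ ∞ g)
    (hg : ∀ t s x y, ‖g (t, (s, x)) - g (t, (s, y))‖ ≤ 1 / 2 * ‖x - y‖) (p : ℝ × R4) (ξ : R3) :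
    ‖fderiv ℝ g p (0, (0, ξ))‖ ≤ 1 / 2 * ‖ξ‖ := by
  have h1 : HasFDerivAt g (fderiv ℝ g p) p :=
    (hs.differentiable (by simp) p).hasFDerivAt
  let e : R3 →L[ℝ] ℝ × R4 := (ContinuousLinearMap.inr ℝ ℝ R4).comp (ContinuousLinearMap.inr ℝ ℝ R3)
  have h2 : HasFDerivAt (fun x : R3 => ((p.1, (p.2.1, x)) : ℝ × R4)) e p.2.2 := by
    have h3 : HasFDerivAt (fun x : R3 => e x + ((p.1, (p.2.1, 0)) : ℝ × R4)) e p.2.2 :=
      e.hasFDerivAt.add_const _
    refine h3.congr_of_eventuallyEq (Filter.Eventually.of_forall fun x => ?_)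
    show ((p.1, (p.2.1, x)) : ℝ × R4) = (0, (0, x)) + (p.1, (p.2.1, 0))
    simp
  have h4 : HasFDerivAt (fun x : R3 => g (p.1, (p.2.1, x))) ((fderiv ℝ g p).comp e) p.2.2 := by
    exact HasFDerivAt.comp p.2.2 h1 h2
  have hl : LipschitzWith (1 / 2) (fun x : R3 => g (p.1, (p.2.1, x))) := by
    refine LipschitzWith.of_dist_le_mul fun a b => ?_
    rw [dist_eq_norm, dist_eq_norm]
    simpa using hg p.1 p.2.1 a b
  have h5 := h4.le_of_lipschitz hl
  have h6 := ContinuousLinearMap.le_opNorm ((fderiv ℝ g p).comp e) ξ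
  have h7 : ((fderiv ℝ g p).comp e) ξ = fderiv ℝ g p (0, (0, ξ)) := rfl
  rw [h7] at h6
  refine h6.trans (mul_le_mul_of_nonneg_right ?_ (norm_nonneg _))
  simpa using h5

theorem exists_equiv (g : ℝ × R4 → R3) (hs : ContDiff ℝ ∞ g)
    (hg : ∀ t s x y, ‖g (t, (s, x)) - g (t, (s, y))‖ ≤ 1 / 2 * ‖x - y‖) (p : ℝ × R4) :
    ∃ L : (ℝ × R4) ≃L[ℝ] (ℝ × R4), HasFDerivAt (mp g) (L : (ℝ × R4) →L[ℝ] (ℝ × R4)) p := by
  have h1 : HasFDerivAt g (fderiv ℝ g p) p :=
    (hs.differentiable (by simp) p).hasFDerivAt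
  let A : (ℝ × R4) →L[ℝ] R3 :=
    (ContinuousLinearMap.snd ℝ ℝ R3).comp (ContinuousLinearMap.snd ℝ ℝ R4) + fderiv ℝ g p
  let D : (ℝ × R4) →L[ℝ] (ℝ × R4) :=
    (ContinuousLinearMap.fst ℝ ℝ R4).prod
      (((ContinuousLinearMap.fst ℝ ℝ R3).comp (ContinuousLinearMap.snd ℝ ℝ R4)).prod A)
  have hD : HasFDerivAt (mp g) D p := by
    have a1 : HasFDerivAt (fun q : ℝ × R4 => q.1) (ContinuousLinearMap.fst ℝ ℝ R4) p :=
      (ContinuousLinearMap.fst ℝ ℝ R4).hasFDerivAt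
    have a2 : HasFDerivAt (fun q : ℝ × R4 => q.2.1)
        ((ContinuousLinearMap.fst ℝ ℝ R3).comp (ContinuousLinearMap.snd ℝ ℝ R4)) p :=
      ((ContinuousLinearMap.fst ℝ ℝ R3).comp (ContinuousLinearMap.snd ℝ ℝ R4)).hasFDerivAt
    have a3 : HasFDerivAt (fun q : ℝ × R4 => q.2.2)
        ((ContinuousLinearMap.snd ℝ ℝ R3).comp (ContinuousLinearMap.snd ℝ ℝ R4)) p :=
      ((ContinuousLinearMap.snd ℝ ℝ R3).comp (ContinuousLinearMap.snd ℝ ℝ R4)).hasFDerivAt
    exact a1.prodMk (a2.prodMk (a3.add h1))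
  have hinj : Function.Injective D := by
    rw [injective_iff_map_eq_zero]
    rintro ⟨τ, σ, ξ⟩ h
    have b1 : τ = 0 := congrArg Prod.fst h
    have b2 : σ = 0 := congrArg (fun q : ℝ × R4 => q.2.1) h
    have b3 : ξ + fderiv ℝ g p (τ, (σ, ξ)) = 0 := congrArg (fun q : ℝ × R4 => q.2.2) h
    subst b1 b2
    have b4 := fderiv_small g hs hg p ξ
    have b5 : fderiv ℝ g p (0, (0, ξ)) = -ξ := by
      rw [← add_eq_zero_iff_eq_neg']
      exact b3
    rw [b5, norm_neg] at b4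
    have b6 : ‖ξ‖ ≤ 0 := by linarith [norm_nonneg ξ]
    rw [norm_le_zero_iff.1 b6]
    rfl
  refine ⟨(LinearEquiv.ofInjectiveEndo (D : (ℝ × R4) →ₗ[ℝ] (ℝ × R4)) hinj).toContinuousLinearEquiv, ?_⟩
  have hcoe : ((LinearEquiv.ofInjectiveEndo (D : (ℝ × R4) →ₗ[ℝ] (ℝ × R4))
      hinj).toContinuousLinearEquiv : (ℝ × R4) →L[ℝ] (ℝ × R4)) = D := by
    refine ContinuousLinearMap.ext fun v => ?_
    rfl
  rw [hcoe]
  exact hD

end PERT

open PERT in
theorem m_PERT : StPert := by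
  intro g hs hg
  have hc := hs.continuous
  choose L hL using exists_equiv g hs hg
  have hmp : ContDiff ℝ ∞ (mp g) := by
    unfold mp
    fun_prop
  have hinv : ContDiff ℝ ∞ (hm g hc hg).symm :=
    (hm g hc hg).contDiff_symm (f₀' := L) hL hmp
  refine ⟨⟨fun p => (p.2.1, p.2.2 + g p), fun q => (q.2.1, iv g hg q), ?_, ?_, ?_, ?_⟩, ?_⟩
  · have h : ContDiff ℝ ∞ (fun p : ℝ × R4 => ((p.2.1, p.2.2 + g p) : R4)) := by fun_prop
    have := h.contMDiff
    rwa [modelWithCornersSelf_prod, ← chartedSpaceSelf_prod] at this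
  · have h : ContDiff ℝ ∞ (fun q : ℝ × R4 => ((q.2.1, iv g hg q) : R4)) := hinv.snd
    have := h.contMDiff
    rwa [modelWithCornersSelf_prod, ← chartedSpaceSelf_prod] at this
  · rintro t ⟨s, x⟩
    show (s, iv g hg (t, (s, x)) + g (t, (s, iv g hg (t, (s, x))))) = (s, x)
    have := iv_spec g hg (t, (s, x))
    rw [this]
  · rintro t ⟨s, x⟩
    show (s, iv g hg (mp g (t, (s, x)))) = (s, x)
    rw [iv_mp]
  · intro t s x
    rfl

end Pool.Agent.Helper27.BI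


end

/-! ## Helper27.BI.GRef -/

section

/-!
# Project BI, part (C): reflections, exchange and vanishing for germs
-/

set_option autoImplicit false
set_option linter.unusedSectionVars false
set_option linter.unusedVariables false

open scoped Manifold ContDiff Topology ComplexConjugate
open Set Pool.Agent.Helper65.Barb Pool.Agent.Helper18.BI

namespace Pool.Agent.Helper27.BI

/-- a symmetric large exterior domain -/
def K6 : Set R4 := {p | (-1 ≤ p.1 ∧ p.1 ≤ 2 ∧ rsq 0 p ≤ 36) ∧ rsq 1 p ≤ 36 ∧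
  (1 / 5) ^ 2 ≤ rsq 0 p ∧ (1 / 5) ^ 2 ≤ rsq 1 p}

theorem isCompact_K6 : IsCompact K6 := by
  refine Metric.isCompact_of_isClosed_isBounded ?_ ((isBounded_of_rsq 0 36 (-1) 2).subset
    (fun p hp => hp.1))
  have h0 := continuous_rsq 0
  have h1 := continuous_rsq 1
  refine IsClosed.inter (IsClosed.inter (isClosed_le continuous_const continuous_fst)
    (IsClosed.inter (isClosed_le continuous_fst continuous_const)
      (isClosed_le h0 continuous_const)))
    (IsClosed.inter (isClosed_le h1 continuous_const)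
      (IsClosed.inter (isClosed_le continuous_const h0) (isClosed_le continuous_const h1)))

theorem K6_compl {p : R4} (hp : p ∉ K6) :
    p ∉ ball4 ∨ rsq 0 p ≤ (1 / 5) ^ 2 ∨ rsq 1 p ≤ (1 / 5) ^ 2 := by
  by_contra hcon
  push Not at hcon
  obtain ⟨⟨h1, h2, h3⟩, h4, h5⟩ := hcon
  refine hp ⟨⟨h1, h2, h3.trans (by norm_num)⟩, ?_, h4.le, h5.le⟩
  rw [rsq_one_eq]
  have := sq_le_rsq p
  nlinarith

theorem bsupp_K6 : bsupp ⊆ K6 := by
  intro p hp
  by_contra h
  have hb : p ∈ ball4 := interior_subset (tsupp_subset_interior hp.1)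
  obtain ⟨h1, h2, h3⟩ := hb
  refine h ⟨⟨h1, h2, h3.trans (by norm_num)⟩, ?_, hp.2.1, hp.2.2⟩
  rw [rsq_one_eq]
  have := sq_le_rsq p
  nlinarith

section
variable {E : Type} [NormedAddCommGroup E] [NormedSpace ℝ E] {H : Type} [TopologicalSpace H]
  {I : ModelWithCorners ℝ E H} {M : Type} [TopologicalSpace M] [ChartedSpace H M] [T2Space M]

theorem tiso2_cisot {φ ψ : R4 → R4} (h : TIso ∅ (1 / 5) arc2 arc2 φ ψ) {G : R4 → M}
    (hG : EmbOn I G K6) : CIsot I (imp G K6 φ) (imp G K6 ψ) := by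
  obtain ⟨Φ, h0, h1, ⟨K, hK, hKi, hKs⟩, -, ht⟩ := h
  have key := imp_isot (I := I) (m_A1) Φ isCompact_K6 hG (fun t p hp => by
    rcases K6_compl hp with h | h | h
    · exact hKs t p (fun hk => h (interior_subset (hKi hk)))
    · rw [rsq_zero_eq] at h
      have e := ht t false p.1 p.2 h
      simpa [arc2] using e
    · rw [← nsq_sub_one] at h
      have e := ht t true p.1 (p.2 - (1, 0)) h
      simp only [arc2, e1, if_true, add_sub_cancel] at e
      exact e)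
  have e0 : (fun p => Φ.f (0, p)) = φ := funext h0
  have e1' : (fun p => Φ.f (1, p)) = ψ := funext h1
  rwa [e0, e1'] at key

theorem tiso2_off {φ : R4 → R4} (h : TIso ∅ (1 / 5) arc2 arc2 φ φ) {p : R4} (hp : p ∉ K6) :
    φ p = p := by
  obtain ⟨Φ, h0, h1, ⟨K, hK, hKi, hKs⟩, -, ht⟩ := h
  rw [← h0 p]
  rcases K6_compl hp with h | h | h
  · exact hKs 0 p (fun hk => h (interior_subset (hKi hk)))
  · rw [rsq_zero_eq] at h
    have e := ht 0 false p.1 p.2 h
    simpa [arc2] using e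
  · rw [← nsq_sub_one] at h
    have e := ht 0 true p.1 (p.2 - (1, 0)) h
    simp only [arc2, e1, if_true, add_sub_cancel] at e
    exact e

/-- The general reflection principle for germs. -/
theorem refl_thin (t6 : StT6) (s4 : StS4) {R : R4 → R4} {σ : ℝ → ℝ} {r r0 : R3 → R3}
    (hR : LInvol R σ r r0) (hRe : EmbOn 𝓘(ℝ, R4) R univ) (hRK : ∀ p ∈ K6, R p ∈ K6)
    (hRS : ∀ p ∈ SP, R p ∈ SP) (hsq : ∀ ε p, sq ε (R p) = R (sq ε p))
    (hβ : ∃ β : R4 → R4, TIso ∅ (1 / 5) arc2 arc2 barMap β ∧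
      TIso ∅ (1 / 5) arc2 arc2 (fun p => R (β (R p))) barInv)
    {F : R4 → M} {φ φ' : M → M} (hF : EmbOn I F SP) (h1 : ∀ x, φ (φ' x) = x)
    (h2 : ∀ x, φ' (φ x) = x) (hT : Thin I F φ) : Thin I (fun p => F (R p)) φ' := by
  obtain ⟨β, b1, b2⟩ := hβ
  obtain ⟨ε0, hε0, H0⟩ := hT
  obtain ⟨ε1, hε1, H1⟩ := t6 E H I M F K6 SP isCompact_K6 (s4.2.2.2.2.2.2.2.2.1) (fun p hp =>
    s4.1 p ⟨hp.2.2.1, hp.2.2.2⟩) hF
  refine ⟨min ε0 ε1, lt_min hε0 hε1, fun ε hε => ?_⟩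
  obtain ⟨-, c0⟩ := H0 ε ⟨hε.1, lt_of_lt_of_le hε.2 (min_le_left _ _)⟩
  obtain ⟨hG, hb⟩ := H1 ε ⟨hε.1, lt_of_lt_of_le hε.2 (min_le_right _ _)⟩
  set G : R4 → M := F ∘ sq ε with hGdef
  have e0 : (fun p => F (R p)) ∘ sq ε = G ∘ R := by
    funext p
    simp only [hGdef, Function.comp, hsq]
  have hGR : EmbOn I (G ∘ R) K6 := EmbOn.comp hG (EmbOn.mono hRe (subset_univ _)) hRK
  rw [e0]
  refine ⟨EmbOn.mono hGR bsupp_K6, ?_⟩
  -- the inverse
  rw [← hb bsupp_K6] at c0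
  have hbm : MapsTo barMap K6 K6 := barMap_mapsTo bsupp_K6
  have hbi : ∀ p, barInv (barMap p) = p := fun p => bfam.gf 1 p
  have hbi' : ∀ p, barMap (barInv p) = p := fun p => bfam.fg 1 p
  have hbo : ∀ p, p ∉ K6 → barInv p = p := by
    intro p hp
    have h := barMap_off (fun h => hp (bsupp_K6 h))
    calc barInv p = barInv (barMap p) := by rw [h]
      _ = p := hbi p
  have hbim : MapsTo barInv K6 K6 := by
    intro p hp
    by_contra h
    have h3 : barMap (barInv p) = barInv p := barMap_off (fun h' => h (bsupp_K6 h'))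
    rw [hbi'] at h3
    rw [← h3] at h
    exact h hp
  have hinv : ∀ x, imp G K6 barMap (imp G K6 barInv x) = x := by
    intro x
    rw [← imp_comp hG.2 hbim]
    simp only [hbi']
    by_cases hx : x ∈ G '' K6
    · obtain ⟨p, hp, rfl⟩ := hx
      rw [imp_image hG.2 hp]
    · rw [imp_off hx]
  have c1 : CIsot I φ' (imp G K6 barInv) := CIsot.inv' c0 h1 hinv
  -- the conjugate
  have c2 := tiso2_cisot (I := I) b1 hGR
  rw [imp_mono hGR.2 bsupp_K6 (fun p hp => barMap_off hp)] at c2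
  have hconj : imp (G ∘ R) K6 β = imp G K6 (fun p => R (β (R p))) := by
    symm
    apply imp_eq_of hG.2 hGR.2
    · intro p hp
      exact ⟨R p, hRK p hp, rfl, by simp only [Function.comp, hR.inv]⟩
    · intro q hq
      exact Or.inl ⟨R q, hRK q hq, by simp only [Function.comp, hR.inv]⟩
  rw [hconj] at c2
  have c3 := tiso2_cisot (I := I) b2 hG
  exact CIsot.trans' c1 (CIsot.symm' (CIsot.trans' c2 c3))

end

/-! ### the three involutions -/

theorem emb_of_invol {R : R4 → R4} (hR : Invol R) : EmbOn 𝓘(ℝ, R4) R univ := by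
  refine ⟨fun p _ => ?_, fun p _ q _ e => by rw [← hR.inv p, e, hR.inv]⟩
  apply (m_A0 R4 _ p).2
  refine ⟨⟨univ, isOpen_univ, mem_univ _, hR.smooth.contDiffOn⟩, fun v hv => ?_⟩
  have hd : Differentiable ℝ R := hR.smooth.differentiable (by simp)
  have h1 : HasFDerivAt (fun x => R (R x)) ((fderiv ℝ R (R p)).comp (fderiv ℝ R p)) p :=
    (hd (R p)).hasFDerivAt.comp p (hd p).hasFDerivAt
  have h2 : (fun x => R (R x)) = fun x => x := funext hR.inv
  rw [h2] at h1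
  have h3 := h1.unique (hasFDerivAt_id p)
  have h4 := congrArg (fun L => L v) h3
  simp only [ContinuousLinearMap.comp_apply, hv, map_zero] at h4
  exact h4.symm

theorem axc_symm (ε a : ℝ) : axc ε (1 - a) = 1 - axc ε a := by
  unfold axc
  have e1 : (1 - a + 1 / 5) ^ 2 = (a - 6 / 5) ^ 2 := by ring
  have e2 : (1 - a - 6 / 5) ^ 2 = (a + 1 / 5) ^ 2 := by ring
  rw [e1, e2]; ring

theorem prof_symm (ε a : ℝ) : prof ε (1 - a) = prof ε a := by
  unfold prof
  have e1 : (1 - a) ^ 2 = (a - 1) ^ 2 := by ring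
  have e2 : (1 - a - 1) ^ 2 = a ^ 2 := by ring
  rw [e1, e2, add_comm]

theorem fac_symm (ε a k : ℝ) : fac ε (1 - a) k = fac ε a k := by
  unfold fac
  rw [prof_symm]

theorem sq_refh (ε : ℝ) (p : R4) : sq ε (refh p) = refh (sq ε p) := by
  simp [Helper18.BI.sq, refh, Complex.normSq_conj]

theorem sq_refs (ε : ℝ) (p : R4) : sq ε (refs p) = refs (sq ε p) := by
  refine Prod.ext ?_ rfl
  simp only [Helper18.BI.sq, refs]; ring

theorem sq_swp (ε : ℝ) (p : R4) : sq ε (swp p) = swp (sq ε p) := by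
  simp [Helper18.BI.sq, swp, Complex.normSq_conj, axc_symm, fac_symm]

theorem rsq_refh (c : ℝ) (p : R4) : rsq c (refh p) = rsq c p := by simp [rsq, nsq, refh]

theorem rsq_refs (c : ℝ) (p : R4) : rsq c (refs p) = rsq c p := rfl

theorem rsq_swp_zero (p : R4) : rsq 0 (swp p) = rsq 1 p := by
  simp only [rsq, nsq, swp, Complex.conj_re, Complex.conj_im]; ring

theorem rsq_swp_one (p : R4) : rsq 1 (swp p) = rsq 0 p := by
  simp only [rsq, nsq, swp, Complex.conj_re, Complex.conj_im]; ring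

theorem m_RefH (t6 : StT6) (s4 : StS4) (h : StR1h) (hspin : StSpin) : StRefH := by
  intro E _ _ H _ I M _ _ _ F φ φ' hF h1 h2
  have hb : ∃ β : R4 → R4, TIso ∅ (1 / 5) arc2 arc2 barMap β ∧
      TIso ∅ (1 / 5) arc2 arc2 (fun p => refh (β (refh p))) barInv :=
    ⟨barMap, (isPush_pair hspin).tIso.congr
      (by rintro (_ | _) s <;> simp [arc2, barPath_zero])
      (by rintro (_ | _) s <;> simp [arc2, barPath_one]) (fun _ => rfl) (fun _ => rfl), h⟩
  have hK : ∀ p ∈ K6, refh p ∈ K6 := by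
    rintro p ⟨⟨h1, h2, h3⟩, h4, h5, h6⟩
    exact ⟨⟨h1, h2, by rwa [rsq_refh]⟩, by rwa [rsq_refh], by rwa [rsq_refh], by rwa [rsq_refh]⟩
  have hS : ∀ p ∈ SP, refh p ∈ SP := by
    rintro p ((⟨h1, h2⟩ | ⟨h1, h2⟩) | ⟨h1, h2, h3, h4⟩)
    · exact Or.inl (Or.inl ⟨h1, by rw [rsq_refh, h2]⟩)
    · exact Or.inl (Or.inr ⟨h1, by rw [rsq_refh, h2]⟩)
    · exact Or.inr ⟨h1, h2, h3, by simp [refh, h4]⟩
  have he := emb_of_invol linvol_refh.toInvol
  refine ⟨fun hT => refl_thin t6 s4 linvol_refh he hK hS sq_refh hb hF h1 h2 hT, fun hT => ?_⟩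
  have hF' : EmbOn I (fun p => F (refh p)) SP :=
    EmbOn.comp hF (EmbOn.mono he (subset_univ _)) hS
  have := refl_thin t6 s4 linvol_refh he hK hS sq_refh hb hF' h2 h1 hT
  simp only [linvol_refh.inv] at this
  exact this

theorem m_RefS (t6 : StT6) (s4 : StS4) (h : StR1s) (hspin : StSpin) : StRefS := by
  intro E _ _ H _ I M _ _ _ F φ φ' hF h1 h2
  have hb : ∃ β : R4 → R4, TIso ∅ (1 / 5) arc2 arc2 barMap β ∧
      TIso ∅ (1 / 5) arc2 arc2 (fun p => refs (β (refs p))) barInv :=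
    ⟨barMap, (isPush_pair hspin).tIso.congr
      (by rintro (_ | _) s <;> simp [arc2, barPath_zero])
      (by rintro (_ | _) s <;> simp [arc2, barPath_one]) (fun _ => rfl) (fun _ => rfl), h⟩
  have hK : ∀ p ∈ K6, refs p ∈ K6 := by
    rintro p ⟨⟨h1, h2, h3⟩, h4, h5, h6⟩
    refine ⟨⟨?_, ?_, h3⟩, h4, h5, h6⟩
    · change -1 ≤ 1 - p.1; linarith
    · change 1 - p.1 ≤ 2; linarith
  have hh : ∀ x : ℝ, x = 1 / 2 → 1 - x = 1 / 2 := by intro x hx; rw [hx]; norm_num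
  have hS : ∀ p ∈ SP, refs p ∈ SP := by
    rintro p ((⟨h1, h2⟩ | ⟨h1, h2⟩) | ⟨h1, h2, h3, h4⟩)
    · exact Or.inl (Or.inl ⟨hh _ h1, h2⟩)
    · exact Or.inl (Or.inr ⟨hh _ h1, h2⟩)
    · exact Or.inr ⟨hh _ h1, h2, h3, h4⟩
  have he := emb_of_invol linvol_refs.toInvol
  refine ⟨fun hT => refl_thin t6 s4 linvol_refs he hK hS sq_refs hb hF h1 h2 hT, fun hT => ?_⟩
  have hF' : EmbOn I (fun p => F (refs p)) SP :=
    EmbOn.comp hF (EmbOn.mono he (subset_univ _)) hS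
  have := refl_thin t6 s4 linvol_refs he hK hS sq_refs hb hF' h2 h1 hT
  simp only [linvol_refs.inv] at this
  exact this

theorem m_R2sw (t6 : StT6) (s4 : StS4) (h : StR2) : StR2sw := by
  intro E _ _ H _ I M _ _ _ F φ φ' hF h1 h2
  have hK : ∀ p ∈ K6, swp p ∈ K6 := by
    rintro p ⟨⟨h1, h2, h3⟩, h4, h5, h6⟩
    exact ⟨⟨h1, h2, by rwa [rsq_swp_zero]⟩, by rwa [rsq_swp_one], by rwa [rsq_swp_zero],
      by rwa [rsq_swp_one]⟩
  have hS : ∀ p ∈ SP, swp p ∈ SP := by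
    rintro p ((⟨h1, h2⟩ | ⟨h1, h2⟩) | ⟨h1, h2, h3, h4⟩)
    · exact Or.inl (Or.inr ⟨h1, by rw [rsq_swp_one, h2]⟩)
    · exact Or.inl (Or.inl ⟨h1, by rw [rsq_swp_zero, h2]⟩)
    · refine Or.inr ⟨h1, ?_, ?_, by simp [swp, h4]⟩
      · change 1 / 5 ≤ 1 - p.2.1; linarith
      · change 1 - p.2.1 ≤ 4 / 5; linarith
  have he := emb_of_invol linvol_swp.toInvol
  refine ⟨fun hT => refl_thin t6 s4 linvol_swp he hK hS sq_swp h hF h1 h2 hT, fun hT => ?_⟩
  have hF' : EmbOn I (fun p => F (swp p)) SP :=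
    EmbOn.comp hF (EmbOn.mono he (subset_univ _)) hS
  have := refl_thin t6 s4 linvol_swp he hK hS sq_swp h hF' h2 h1 hT
  simp only [linvol_swp.inv] at this
  exact this

/-! ### vanishing -/

/-- the domain without the first hole -/
def K7 : Set R4 := {p | p ∈ ball4 ∧ (1 / 5) ^ 2 ≤ rsq 1 p}

theorem m_VanT (t6 : StT6) (s4 : StS4) (h : StVan) : StVanT := by
  intro E _ _ H _ I M _ _ _ F hF
  have hKc : IsCompact K7 :=
    isCompact_ball4.inter_right (isClosed_le continuous_const (continuous_rsq 1))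
  have hLc : IsCompact (flat 0 ∪ sph 1 ∪ neck) := by
    have hFB := s4.2.2.2.2.2.2.2.2.2.1
    have hsp : IsClosed {p : R4 | p ∈ flat 0 ∪ sph 1 ∪ neck} := by
      have h0 := continuous_rsq 0
      have h1 := continuous_rsq 1
      have hf : Continuous (fun p : R4 => p.1) := continuous_fst
      have ha : Continuous (fun p : R4 => p.2.1) := continuous_fst.comp continuous_snd
      have hw : Continuous (fun p : R4 => p.2.2) := continuous_snd.comp continuous_snd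
      refine IsClosed.union (IsClosed.union ?_ ?_) ?_
      · exact (isClosed_eq hf continuous_const).inter (isClosed_le h0 continuous_const)
      · exact (isClosed_eq hf continuous_const).inter (isClosed_eq h1 continuous_const)
      · exact (isClosed_eq hf continuous_const).inter ((isClosed_le continuous_const ha).inter
          ((isClosed_le ha continuous_const).inter (isClosed_eq hw continuous_const)))
    refine hFB.of_isClosed_subset hsp ?_
    rintro p ((h | h) | h)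
    · exact Or.inl (Or.inl h)
    · exact Or.inl (Or.inr ⟨h.1, h.2.le⟩)
    · exact Or.inr h
  obtain ⟨ε1, hε1, H1⟩ := t6 E H I M F K7 (flat 0 ∪ sph 1 ∪ neck) hKc hLc (fun p hp => by
    rcases le_or_gt (rsq 0 p) (1 / 25) with h0 | h0
    · rw [s4.2.2.1 p (Or.inl h0)]
      exact Or.inl (Or.inl ⟨rfl, h0⟩)
    · have := s4.1 p ⟨by norm_num at h0 ⊢; linarith, hp.2⟩
      rcases this with (h | h) | h
      · exact Or.inl (Or.inl ⟨h.1, h.2.le⟩)
      · exact Or.inl (Or.inr h)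
      · exact Or.inr h) hF
  have hbK : bsupp ⊆ K7 := fun p hp => ⟨interior_subset (tsupp_subset_interior hp.1), hp.2.2⟩
  refine ⟨ε1, hε1, fun ε hε => ?_⟩
  obtain ⟨hG, hb⟩ := H1 ε hε
  refine ⟨EmbOn.mono hG hbK, ?_⟩
  rw [← hb hbK]
  have hc := tiso_cisot (I := I) h hKc (fun p hp => by
    by_contra hcon
    push Not at hcon
    obtain ⟨h1, h2, h3⟩ := hcon
    refine hp ⟨h1, ?_⟩
    have h4 : ¬ nsq (p.2 - (1, 0)) < (1 / 5) ^ 2 := h3
    rw [nsq_sub_one] at h4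
    exact not_lt.1 h4) hG
  have e : imp (F ∘ sq ε) K7 (fun p => p) = fun x => x := by
    funext x
    by_cases hx : x ∈ (F ∘ sq ε) '' K7
    · obtain ⟨p, hp, rfl⟩ := hx
      rw [imp_image hG.2 hp]
    · rw [imp_off hx]
  rw [e] at hc
  exact CIsot.symm' hc

end Pool.Agent.Helper27.BI


end

/-! ## Helper18.BI.M_A2 -/

section

/-!
# A2: the track of a family of germs is a local diffeomorphism
-/

set_option autoImplicit false

open scoped Manifold ContDiff Topology ComplexConjugate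
open Set Pool.Agent.Helper65.Barb

namespace Pool.Agent.Helper18.BI

namespace A2

section

variable {E : Type} [NormedAddCommGroup E] [NormedSpace ℝ E] {H : Type} [TopologicalSpace H]
  {I : ModelWithCorners ℝ E H} {M : Type} [TopologicalSpace M] [ChartedSpace H M]

/-- the product of the identity of the line with a partial diffeomorphism -/
private def idProd (Φ : PartialDiffeomorph 𝓘(ℝ, R4) I R4 M ∞) :
    PartialDiffeomorph 𝓘(ℝ, ℝ × R4) (𝓘(ℝ, ℝ).prod I) (ℝ × R4) (ℝ × M) ∞ where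
  toFun := fun x => (x.1, Φ.toFun x.2)
  invFun := fun y => (y.1, Φ.invFun y.2)
  source := univ ×ˢ Φ.source
  target := univ ×ˢ Φ.target
  map_source' := fun _ hx => ⟨mem_univ _, Φ.map_source' hx.2⟩
  map_target' := fun _ hx => ⟨mem_univ _, Φ.map_target' hx.2⟩
  left_inv' := fun _ hx => Prod.ext rfl (Φ.left_inv' hx.2)
  right_inv' := fun _ hx => Prod.ext rfl (Φ.right_inv' hx.2)
  open_source := isOpen_univ.prod Φ.open_source
  open_target := isOpen_univ.prod Φ.open_target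
  contMDiffOn_toFun :=
    (contDiff_fst.contMDiff.contMDiffOn).prodMk
      (Φ.contMDiffOn_toFun.comp (contDiff_snd.contMDiff.contMDiffOn) (fun _ hx => hx.2))
  contMDiffOn_invFun :=
    (contMDiff_fst.contMDiffOn).prodMk_space
      (Φ.contMDiffOn_invFun.comp (contMDiff_snd.contMDiffOn) (fun _ hx => hx.2))

/-- congruence near the point -/
private theorem congr_at {f g : ℝ × R4 → ℝ × M} {q : ℝ × R4}
    (h : IsLocalDiffeomorphAt 𝓘(ℝ, ℝ × R4) (𝓘(ℝ, ℝ).prod I) ∞ f q)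
    {U : Set (ℝ × R4)} (hU : IsOpen U) (hq : q ∈ U) (hfg : ∀ x ∈ U, g x = f x) :
    IsLocalDiffeomorphAt 𝓘(ℝ, ℝ × R4) (𝓘(ℝ, ℝ).prod I) ∞ g q := by
  obtain ⟨Φ, hqΦ, hΦ⟩ := h
  let e := Φ.toOpenPartialHomeomorph.restrOpen U hU
  have hsrc : e.source = Φ.source ∩ U := rfl
  refine ⟨{ toPartialEquiv := e.toPartialEquiv
            open_source := e.open_source
            open_target := e.open_target
            contMDiffOn_toFun := Φ.contMDiffOn_toFun.mono ?_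
            contMDiffOn_invFun := Φ.contMDiffOn_invFun.mono ?_ }, ⟨hqΦ, hq⟩, ?_⟩
  · exact inter_subset_left
  · exact inter_subset_left
  · intro x hx
    have h1 : x ∈ Φ.source ∩ U := hx
    rw [hfg x h1.2]
    exact hΦ h1.1

end

end A2

open A2 in
theorem m_A2 (h0 : StA0) : StA2 := by
  intro E _ _ H _ I M _ _ J L hJ q hq
  obtain ⟨⟨W, hW, hLW, hJW⟩, hloc⟩ := hJ
  obtain ⟨t₀, p₀⟩ := q
  have ht₀ : t₀ ∈ Icc (0 : ℝ) 1 := hq.1
  have hp₀ : p₀ ∈ L := hq.2
  obtain ⟨Φ, hpΦ, hΦ⟩ := (hloc t₀ ht₀).1 p₀ hp₀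
  -- the open set on which `G` is defined
  have hW' : IsOpen (W ∩ J ⁻¹' Φ.target) := hJW.continuousOn.isOpen_inter_preimage hW Φ.open_target
  have hJq : J (t₀, p₀) ∈ Φ.target := by
    have h1 : J (t₀, p₀) = Φ p₀ := hΦ hpΦ
    rw [h1]
    exact Φ.map_source hpΦ
  have hqW' : (t₀, p₀) ∈ W ∩ J ⁻¹' Φ.target := ⟨hLW ⟨ht₀, hp₀⟩, hJq⟩
  have hK : ContDiffOn ℝ ∞ (fun x : ℝ × R4 => Φ.invFun (J x)) (W ∩ J ⁻¹' Φ.target) :=
    contMDiffOn_iff_contDiffOn.1
      (Φ.contMDiffOn_invFun.comp (hJW.mono inter_subset_left) (fun _ hx => hx.2))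
  have hG : ContDiffOn ℝ ∞ (fun x : ℝ × R4 => (x.1, Φ.invFun (J x))) (W ∩ J ⁻¹' Φ.target) :=
    contDiff_fst.contDiffOn.prodMk hK
  have hKd : DifferentiableAt ℝ (fun x : ℝ × R4 => Φ.invFun (J x)) (t₀, p₀) :=
    (hK.contDiffAt (hW'.mem_nhds hqW')).differentiableAt (by simp)
  have hGd : fderiv ℝ (fun x : ℝ × R4 => (x.1, Φ.invFun (J x))) (t₀, p₀) =
      (ContinuousLinearMap.fst ℝ ℝ R4).prod
        (fderiv ℝ (fun x : ℝ × R4 => Φ.invFun (J x)) (t₀, p₀)) :=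
    (hasFDerivAt_fst.prodMk hKd.hasFDerivAt).fderiv
  -- the restriction of the second component to the slice is the identity
  have hsl : (fun p : R4 => Φ.invFun (J (t₀, p))) =ᶠ[𝓝 p₀] id := by
    filter_upwards [Φ.open_source.mem_nhds hpΦ] with p hp
    have h1 : J (t₀, p) = Φ p := hΦ hp
    rw [h1]
    exact Φ.left_inv hp
  have hsl' : HasFDerivAt (fun p : R4 => Φ.invFun (J (t₀, p)))
      ((fderiv ℝ (fun x : ℝ × R4 => Φ.invFun (J x)) (t₀, p₀)).comp
        (ContinuousLinearMap.inr ℝ ℝ R4)) p₀ :=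
    HasFDerivAt.comp p₀ (f := fun p : R4 => (t₀, p)) hKd.hasFDerivAt (hasFDerivAt_prodMk_right t₀ p₀)
  have hid : (fderiv ℝ (fun x : ℝ × R4 => Φ.invFun (J x)) (t₀, p₀)).comp
        (ContinuousLinearMap.inr ℝ ℝ R4) = ContinuousLinearMap.id ℝ R4 := by
    rw [← hsl'.fderiv, hsl.fderiv_eq, fderiv_id]
  have hinj : ∀ v, fderiv ℝ (fun x : ℝ × R4 => (x.1, Φ.invFun (J x))) (t₀, p₀) v = 0 → v = 0 := by
    rintro ⟨τ, v⟩ hv
    rw [hGd] at hv
    have h1 : τ = 0 := congrArg Prod.fst hv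
    have h2 : fderiv ℝ (fun x : ℝ × R4 => Φ.invFun (J x)) (t₀, p₀) (τ, v) = 0 :=
      congrArg Prod.snd hv
    subst h1
    have h3 := DFunLike.congr_fun hid v
    rw [ContinuousLinearMap.comp_apply, ContinuousLinearMap.inr_apply, h2] at h3
    have h4 : v = 0 := h3.symm
    rw [h4]
    rfl
  have hGloc : IsLocalDiffeomorphAt 𝓘(ℝ, ℝ × R4) 𝓘(ℝ, ℝ × R4) ∞
      (fun x : ℝ × R4 => (x.1, Φ.invFun (J x))) (t₀, p₀) :=
    (h0 (ℝ × R4) _ _).2 ⟨⟨_, hW', hqW', hG⟩, hinj⟩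
  have hmem : ((t₀, Φ.invFun (J (t₀, p₀))) : ℝ × R4) ∈ (idProd Φ).source :=
    ⟨mem_univ _, Φ.map_target hJq⟩
  have hcomp := hGloc.comp (K := 𝓘(ℝ, ℝ).prod I) (P := ℝ × M) (g := (idProd Φ).toFun)
    ((idProd Φ).isLocalDiffeomorphAt _ _ _ hmem)
  refine congr_at hcomp hW' hqW' ?_
  intro x hx
  exact Prod.ext rfl (Φ.right_inv hx.2).symm

end Pool.Agent.Helper18.BI


end

/-! ## Helper18.BI.M_FR3 -/

section

/-!
# Project BI: module FR3 (rotations are absorbed by rotating the second cuff)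
-/

set_option autoImplicit false

open scoped Manifold ContDiff Topology ComplexConjugate
open Set Pool.Agent.Helper65.Barb

namespace Pool.Agent.Helper18.BI

namespace FR3

/-- the rotation by the angle `t * om a` -/
noncomputable def Th (om : ℝ → ℝ) (q : ℝ × R4) : R4 :=
  (q.2.1, q.2.2.1, Complex.exp ((q.1 * om q.2.2.1 : ℝ) * Complex.I) * q.2.2.2)

theorem Th_smooth {om : ℝ → ℝ} (h : ContDiff ℝ ∞ om) : ContDiff ℝ ∞ (Th om) := by
  unfold Th
  have h1 : ContDiff ℝ ∞ (fun q : ℝ × R4 => q.1 * om q.2.2.1) :=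
    contDiff_fst.mul (h.comp (contDiff_fst.comp (contDiff_snd.comp contDiff_snd)))
  have h2 : ContDiff ℝ ∞ (fun q : ℝ × R4 =>
      Complex.exp ((q.1 * om q.2.2.1 : ℝ) * Complex.I)) := by
    refine ContDiff.cexp ?_
    exact (Complex.ofRealCLM.contDiff.comp h1).mul contDiff_const
  exact (contDiff_fst.comp contDiff_snd).prodMk
    ((contDiff_fst.comp (contDiff_snd.comp contDiff_snd)).prodMk
      (h2.mul (contDiff_snd.comp (contDiff_snd.comp contDiff_snd))))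

theorem Th_neg (om : ℝ → ℝ) (t : ℝ) (p : R4) : Th om (-t, Th om (t, p)) = p := by
  unfold Th
  dsimp only
  rw [← mul_assoc, ← Complex.exp_add]
  have : ((-t * om p.2.1 : ℝ) : ℂ) * Complex.I + ((t * om p.2.1 : ℝ) : ℂ) * Complex.I = 0 := by
    push_cast; ring
  rw [this, Complex.exp_zero, one_mul]

theorem normSq_exp (x : ℝ) (w : ℂ) :
    Complex.normSq (Complex.exp ((x : ℂ) * Complex.I) * w) = Complex.normSq w := by
  rw [map_mul, Complex.normSq_eq_norm_sq, Complex.norm_exp_ofReal_mul_I]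
  ring

theorem nsq_eq (x : ℝ × ℂ) : nsq x = x.1 ^ 2 + Complex.normSq x.2 := by
  unfold nsq
  rw [Complex.normSq_apply]; ring

theorem rsq_Th (om : ℝ → ℝ) (c t : ℝ) (p : R4) : rsq c (Th om (t, p)) = rsq c p := by
  unfold rsq Th
  rw [nsq_eq, nsq_eq]
  dsimp only
  rw [normSq_exp]

theorem Th_mem {om : ℝ → ℝ} (t : ℝ) {p : R4} (hp : p ∈ SP) : Th om (t, p) ∈ SP := by
  rcases hp with (hp | hp) | hp
  · exact Or.inl (Or.inl ⟨hp.1, by rw [rsq_Th]; exact hp.2⟩)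
  · exact Or.inl (Or.inr ⟨hp.1, by rw [rsq_Th]; exact hp.2⟩)
  · refine Or.inr ⟨hp.1, hp.2.1, hp.2.2.1, ?_⟩
    show Complex.exp _ * p.2.2 = 0
    rw [hp.2.2.2, mul_zero]

/-- the maximal open set on which `F` is smooth -/
def Om (F : R4 → R4) : Set R4 := ⋃₀ {U | IsOpen U ∧ ContDiffOn ℝ ∞ F U}

theorem Om_open (F : R4 → R4) : IsOpen (Om F) := isOpen_sUnion fun _ h => h.1

theorem Om_at {F : R4 → R4} {p : R4} (h : p ∈ Om F) : ContDiffAt ℝ ∞ F p := by
  obtain ⟨U, hU, hp⟩ := h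
  exact hU.2.contDiffAt (hU.1.mem_nhds hp)

theorem fam (a0 : StA0) {F : R4 → R4} {om τ : ℝ → ℝ} (hF : EmbOn 𝓘(ℝ, R4) F SP)
    (hom : ContDiff ℝ ∞ om) (hτ : ContDiff ℝ ∞ τ) :
    FamOn 𝓘(ℝ, R4) (fun q : ℝ × R4 => F (Th om (τ q.1, q.2))) SP := by
  have hsp : SP ⊆ Om F := by
    intro p hp
    obtain ⟨⟨U, h1, h2, h3⟩, -⟩ := (a0 R4 F p).1 (hF.1 p hp)
    exact ⟨U, ⟨h1, h3⟩, h2⟩
  have hJ : ContDiff ℝ ∞ (fun q : ℝ × R4 => Th om (τ q.1, q.2)) :=
    (Th_smooth hom).comp ((hτ.comp contDiff_fst).prodMk contDiff_snd)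
  have hJt : ∀ t : ℝ, ContDiff ℝ ∞ (fun p : R4 => Th om (t, p)) := fun t =>
    (Th_smooth hom).comp (contDiff_const.prodMk contDiff_id)
  refine ⟨⟨(fun q : ℝ × R4 => Th om (τ q.1, q.2)) ⁻¹' Om F, (Om_open F).preimage hJ.continuous,
    ?_, ?_⟩, ?_⟩
  · rintro ⟨t, p⟩ ⟨-, hp⟩
    exact hsp (Th_mem (τ t) hp)
  · rw [contMDiffOn_iff_contDiffOn]
    intro q hq
    exact ((Om_at hq).comp q hJ.contDiffAt).contDiffWithinAt
  · intro t _
    refine ⟨fun p hp => ?_, ?_⟩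
    · have hp' := Th_mem (om := om) (τ t) hp
      refine (a0 R4 _ p).2 ⟨⟨(fun p : R4 => Th om (τ t, p)) ⁻¹' Om F,
        (Om_open F).preimage (hJt _).continuous, hsp hp', ?_⟩, ?_⟩
      · intro q hq
        exact ((Om_at hq).comp q (hJt _).contDiffAt).contDiffWithinAt
      · intro v hv
        have hd : DifferentiableAt ℝ (fun p : R4 => Th om (τ t, p)) p :=
          (hJt _).contDiffAt.differentiableAt (by simp)
        have hd' : DifferentiableAt ℝ (fun p : R4 => Th om (-τ t, p)) (Th om (τ t, p)) :=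
          (hJt _).contDiffAt.differentiableAt (by simp)
        have hFd : DifferentiableAt ℝ F (Th om (τ t, p)) :=
          (Om_at (hsp hp')).differentiableAt (by simp)
        have e1 : fderiv ℝ (fun p : R4 => F (Th om (τ t, p))) p =
            (fderiv ℝ F (Th om (τ t, p))).comp (fderiv ℝ (fun p : R4 => Th om (τ t, p)) p) :=
          fderiv_comp p hFd hd
        have e1v : fderiv ℝ F (Th om (τ t, p)) (fderiv ℝ (fun p : R4 => Th om (τ t, p)) p v) = 0 := by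
          have := congrArg (fun L : R4 →L[ℝ] R4 => L v) e1
          exact this.symm.trans hv
        have e2 := ((a0 R4 F _).1 (hF.1 _ hp')).2 _ e1v
        have e3 : fderiv ℝ (fun p : R4 => Th om (-τ t, Th om (τ t, p))) p =
            (fderiv ℝ (fun p : R4 => Th om (-τ t, p)) (Th om (τ t, p))).comp
              (fderiv ℝ (fun p : R4 => Th om (τ t, p)) p) :=
          fderiv_comp (g := fun p : R4 => Th om (-τ t, p)) p hd' hd
        have e4 : (fun p : R4 => Th om (-τ t, Th om (τ t, p))) = id :=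
          funext fun p => Th_neg om (τ t) p
        rw [e4, fderiv_id] at e3
        have e5 := congrArg (fun L : R4 →L[ℝ] R4 => L v) e3
        have e6 : v = fderiv ℝ (fun p : R4 => Th om (-τ t, p)) (Th om (τ t, p))
            (fderiv ℝ (fun p : R4 => Th om (τ t, p)) p v) := e5
        rw [e2, map_zero] at e6
        exact e6
    · intro p hp q hq hpq
      have h1 := hF.2 (Th_mem (τ t) hp) (Th_mem (τ t) hq) hpq
      have h2 := congrArg (fun x => Th om (-τ t, x)) h1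
      simp only [Th_neg] at h2
      exact h2

theorem Th_zero (om : ℝ → ℝ) (p : R4) : Th om (0, p) = p := by
  unfold Th
  simp

theorem Th_one (om : ℝ → ℝ) (p : R4) : Th om (1, p) = fib (rotL om) p := by
  unfold Th fib rotL
  refine Prod.ext ?_ (Prod.ext rfl ?_)
  · show p.1 = 1 / 2 + (p.1 - 1 / 2)
    ring
  · show Complex.exp ((1 * om p.2.1 : ℝ) * Complex.I) * p.2.2 =
      Complex.exp (om p.2.1 * Complex.I) • p.2.2
    rw [one_mul, smul_eq_mul]

end FR3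

theorem m_Fr3 (a0 : StA0) (t2 : StT2) : StFr3 := by
  intro F om k φ hF hom
  obtain ⟨-, -, h3, -⟩ := t2 R4 R4 𝓘(ℝ, R4) R4
  constructor
  · intro h
    have h1 := FR3.fam a0 hF hom.1 (τ := fun t => 1 - t) (contDiff_const.sub contDiff_id)
    have h2 := h3 _ φ h1
    simp only [sub_zero, sub_self, FR3.Th_zero, FR3.Th_one] at h2
    exact h2 h
  · intro h
    have h1 := FR3.fam a0 hF hom.1 (τ := fun t => t) contDiff_id
    have h2 := h3 _ φ h1
    simp only [FR3.Th_zero, FR3.Th_one] at h2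
    exact h2 h

end Pool.Agent.Helper18.BI


end

/-! ## Helper18.BI.M_FR4 -/

section

/-!
# Project BI (MP_8e98f2_gt): homotopic loops give the same class
-/

set_option autoImplicit false

open scoped Manifold ContDiff Topology ComplexConjugate
open Set Pool.Agent.Helper65.Barb

namespace Pool.Agent.Helper18.BI

namespace FR4

private theorem homOK_rev {Γ : ℝ × ℝ → E3} (h : HomOK Γ) : HomOK (fun q => Γ (1 - q.1, q.2)) := by
  obtain ⟨h1, h2, δ, hδ, h3⟩ := h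
  refine ⟨?_, ?_, δ, hδ, ?_⟩
  · exact h1.comp ((contDiff_const.sub contDiff_fst).prodMk contDiff_snd)
  · intro t ht a v hv
    exact h2 (1 - t) ⟨by linarith [ht.2], by linarith [ht.1]⟩ a v hv
  · intro t a ha
    exact h3 (1 - t) a ha

private theorem step (f1 : StFr1) (t2 : StT2) (F : R4 → R4) (φ : R4 → R4)
    (hF : EmbOn 𝓘(ℝ, R4) F SP) (Γ : ℝ × ℝ → E3) (h : HomOK Γ)
    (hT : Thin 𝓘(ℝ, R4) (fun p => F (fib (fun a => Γ (0, a)) p)) φ) :
    Thin 𝓘(ℝ, R4) (fun p => F (fib (fun a => Γ (1, a)) p)) φ :=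
  (t2 R4 R4 𝓘(ℝ, R4) R4).2.2.1 (fun q => F (fib (fun a => Γ (q.1, a)) q.2)) φ
    (f1.2 Γ F h hF) hT

end FR4

open FR4 in
theorem m_Fr4 (f1 : StFr1) (t2 : StT2) : StFr4 := by
  intro F G G' φ hF hG
  induction hG with
  | refl => exact Iff.rfl
  | tail _ hstep ih =>
    obtain ⟨Γ, h, h0, h1⟩ := hstep
    refine ih.trans ?_
    have e0 := funext h0
    have e1 := funext h1
    rw [← e0, ← e1]
    refine ⟨step f1 t2 F φ hF Γ h, fun hT => ?_⟩
    have := step f1 t2 F φ hF (fun q => Γ (1 - q.1, q.2)) (homOK_rev h)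
    simp only [sub_zero, sub_self] at this
    exact this hT

end Pool.Agent.Helper18.BI


end

/-! ## Helper18.BI.AsmA -/

section

/-!
# Project BI: part (A) and the framing lemma, assembled
-/

set_option autoImplicit false

namespace Pool.Agent.Helper18.BI

theorem hA0 : StA0 := m_A0
theorem hA0f : StA0f := m_A0f
theorem hA1 : StA1 := m_A1
theorem hA2 : StA2 := m_A2 hA0
theorem hImp : StImp := m_Imp
theorem hPush : StPush := m_Push hA1
theorem hA3 : StA3 := m_A3 hA1 hA2 hImp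
theorem hCI : StCI := m_CI
theorem hS0 : StS0 := m_S0 hA0
theorem hS1 : StS1 := m_S1
theorem hS2 : StS2 := m_S2
theorem hS3 : StS3 := m_S3
theorem hS4 : StS4 := m_S4
theorem hS5 : StS5 := m_S5 hS3
theorem hS6 : StS6 := m_S6 hS0 hS1 hS2
theorem hT1 : StT1 := m_T1 hA0 hA1 hA2 hS2 hS4 hS5 hS6
theorem hT2 : StT2 := m_T2 hA3 hCI hImp hS4 hS5 hT1
theorem hT3 : StT3 := m_T3 hA3 hCI hS4 hT1
theorem hT4 : StT4 := m_T4 hCI hImp hS4 hT2 hT3
theorem hT5 : StT5 := m_T5 hS4 hT1 hT2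
theorem hT6 : StT6 := m_T6 hImp hT1
theorem hT7 : StT7 := m_T7 hT2
theorem hT8 : StT8 := m_T8 hA0f hT2
theorem hX1 : StX1 := m_X1 hPush hImp hCI
theorem hX2 : StX2 := m_X2
theorem hX3 : StX3 := m_X3
theorem hN1 : StN1 := m_N1 hT2 hCI
theorem hFr1 : StFr1 := m_Fr1 hA0
theorem hFr3 : StFr3 := m_Fr3 hA0 hT2
theorem hFr4 : StFr4 := m_Fr4 hFr1 hT2
theorem hFr5 : StFr5 := m_Fr5 hA0 hFr1 hT8
theorem hFr : StFr := stFr_of m_Fr2a m_Fr2b hFr3 hFr4 hFr5

end Pool.Agent.Helper18.BI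


end

/-! ## Helper27.BI.AsmC -/

section

/-!
# Project BI, part (C): the results, unconditionally
-/

set_option autoImplicit false

open scoped Manifold ContDiff Topology ComplexConjugate
open Set Pool.Agent.Helper65.Barb Pool.Agent.Helper18.BI

namespace Pool.Agent.Helper27.BI

theorem hSpin : StSpin := m_SPIN
theorem hCh : StCh := m_CH m_PERT
theorem hAddM : StAddM := m_ADDM hCh hSpin
theorem hVan : StVan := m_VAN hCh hSpin
theorem hR1h : StR1h := m_R1H hCh hSpin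
theorem hR1s : StR1s := m_R1S hCh hSpin
theorem hR2 : StR2 := m_R2 hCh hSpin
theorem hKap : StKap := m_Kap m_KAPPA
theorem hAddG : StAddG := m_AddG hAddM
theorem hADD2 : StADD2 := m_ADD2 hAddG hKap
theorem hRefH : StRefH := m_RefH hT6 hS4 hR1h hSpin
theorem hRefS : StRefS := m_RefS hT6 hS4 hR1s hSpin
theorem hR2sw : StR2sw := m_R2sw hT6 hS4 hR2
theorem hVanT : StVanT := m_VanT hT6 hS4 hVan

end Pool.Agent.Helper27.BI


end

/-! ## Helper27.BI.H.M_PHI -/

section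

/-!
# Project BI, stage 3 (H), module PHI: the homomorphism `Phi`
-/

set_option autoImplicit false

open scoped Manifold ContDiff Topology ComplexConjugate
open Set Filter Pool.Agent.Helper65.Barb Pool.Agent.Helper18.BI
open Pool.Agent.Helper70.BI (I4 LD Eqv NearEq StPT)
open Pool.Agent.Helper34.BI (qmul qinv)

namespace Pool.Agent.Helper27.H

namespace PHI

private theorem isCompact_seg (s₀ s₁ : ℝ) : IsCompact (seg s₀ s₁) := by
  have h : seg s₀ s₁ = (fun s : ℝ => ((s, 0) : R4)) '' Icc s₀ s₁ := by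
    ext p
    constructor
    · rintro ⟨h1, h2, h3⟩
      exact ⟨p.1, ⟨h1, h2⟩, Prod.ext rfl h3.symm⟩
    · rintro ⟨s, hs, rfl⟩
      exact ⟨hs.1, hs.2, rfl⟩
  rw [h]
  exact isCompact_Icc.image (by fun_prop)

/-- the germ of the base arc is a partial diffeomorphism near the segment -/
private theorem exists_pd (D : ArcD) : ∃ δ : PartialDiffeomorph 𝓘(ℝ, R4) I4 R4 R4 ∞,
    D.L ⊆ δ.source ∧ ∀ p ∈ δ.source, δ p = D.J p :=
  hA1 R4 R4 R4 I4 R4 D.J D.L (isCompact_seg _ _) D.emb.1 D.emb.2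

private theorem image_open (δ : PartialDiffeomorph 𝓘(ℝ, R4) I4 R4 R4 ∞) {N : Set R4}
    (hN : IsOpen N) : IsOpen (δ '' (δ.source ∩ N)) :=
  δ.toOpenPartialHomeomorph.isOpen_image_source_inter hN

private theorem isCompact_A (D : ArcD) : IsCompact D.A := by
  obtain ⟨δ, h1, h2⟩ := exists_pd D
  have h3 : D.A = δ '' D.L := by
    refine (image_congr fun p hp => ?_).symm
    exact h2 p (h1 hp)
  rw [h3]
  exact (isCompact_seg _ _).image_of_continuousOn
    (δ.toOpenPartialHomeomorph.continuousOn.mono h1)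

/-- the isotopies of `LIso` are supported in a compact subset of `U \ A` -/
private theorem supp (D : ArcD) {Θ Θ' : R4 → R4} (h : LIso D.U D.L D.J D.J Θ Θ') :
    ∃ F : DFam 𝓘(ℝ, R4) R4, (∀ x, F.f (0, x) = Θ x) ∧ (∀ x, F.f (1, x) = Θ' x) ∧
      ∃ K : Set R4, IsCompact K ∧ K ⊆ D.U \ D.A ∧ ∀ t x, x ∉ K → F.f (t, x) = x := by
  obtain ⟨F, h0, h1, ⟨K, hK, hKU, hF⟩, N, hN, hLN, hFN⟩ := h
  obtain ⟨δ, g1, g2⟩ := exists_pd D
  have hO := image_open δ hN
  have hAO : D.A ⊆ δ '' (δ.source ∩ N) := by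
    rintro _ ⟨p, hp, rfl⟩
    exact ⟨p, ⟨g1 hp, hLN hp⟩, g2 p (g1 hp)⟩
  refine ⟨F, h0, h1, K \ δ '' (δ.source ∩ N), hK.diff hO, fun x hx => ⟨hKU hx.1, fun hA =>
    hx.2 (hAO hA)⟩, fun t x hx => ?_⟩
  by_cases hxK : x ∈ K
  · have hxO : x ∈ δ '' (δ.source ∩ N) := by
      by_contra hc
      exact hx ⟨hxK, hc⟩
    obtain ⟨p, hp, rfl⟩ := hxO
    rw [g2 p hp.1]
    exact hFN t p hp.2
  · exact hF t x hxK

private theorem emb_mono (D : ArcD) {K : Set R4} (hK : K ⊆ D.U \ D.A) : EmbOn I4 D.e K :=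
  ⟨fun p hp => D.embe.1 p (hK hp), D.embe.2.mono hK⟩

private theorem imp_enl (D : ArcD) {K K' : Set R4} (hK' : K' ⊆ D.U \ D.A) (hs : K ⊆ K')
    {Θ : R4 → R4} (hΘ : ∀ x, x ∉ K → Θ x = x) : imp D.e K Θ = imp D.e K' Θ :=
  ((hImp R4 R4 I4 R4 D.e K' Θ (emb_mono D hK').2).2.2.1 K hs hΘ).symm

end PHI

open PHI in
theorem m_PHI : StPhi := by
  intro D
  obtain ⟨c1, c2, c3, c4, c5, -⟩ := hCI R4 R4 I4 R4
  refine ⟨?_, ?_, ?_, ?_, ?_, ?_, ?_⟩
  · rintro Θ Θ' χ hI ⟨K, hK, hKU, hΘ, hχ⟩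
    obtain ⟨F, F0, F1, K₂, hK₂, hKU₂, hF⟩ := supp D hI
    have hU : K ∪ K₂ ⊆ D.U \ D.A := union_subset hKU hKU₂
    have hF' : ∀ t x, x ∉ K ∪ K₂ → F.f (t, x) = x := fun t x hx =>
      hF t x fun h => hx (Or.inr h)
    have e0 : (fun p => F.f (0, p)) = Θ := funext F0
    have e1 : (fun p => F.f (1, p)) = Θ' := funext F1
    have hP := hPush R4 R4 I4 R4 D.e (K ∪ K₂) F (hK.union hK₂) (emb_mono D hU) hF'
    rw [e0, e1] at hP
    refine ⟨K ∪ K₂, hK.union hK₂, hU, fun x hx => ?_, c4 _ _ _ hχ ?_⟩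
    · rw [← F1]; exact hF' 1 x hx
    · rw [imp_enl D hU subset_union_left hΘ]
      exact hP
  · rintro Θ Θ' hI
    obtain ⟨F, F0, F1, K₂, hK₂, hKU₂, hF⟩ := supp D hI
    have e0 : (fun p => F.f (0, p)) = Θ := funext F0
    have hP := hPush R4 R4 I4 R4 D.e K₂ F hK₂ (emb_mono D hKU₂) hF
    rw [e0] at hP
    exact ⟨imp D.e K₂ Θ, K₂, hK₂, hKU₂, fun x hx => by rw [← F0]; exact hF 0 x hx,
      c3 _ _ hP⟩
  · rintro Θ χ χ' - ⟨K, hK, hKU, hΘ, hχ⟩ ⟨K', hK', hKU', hΘ', hχ'⟩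
    have hU : K ∪ K' ⊆ D.U \ D.A := union_subset hKU hKU'
    rw [imp_enl D hU subset_union_left hΘ] at hχ
    rw [imp_enl D hU subset_union_right hΘ'] at hχ'
    exact c4 _ _ _ hχ (c2 _ _ hχ')
  · rintro Θ Θ' χ χ' - hI' ⟨K, hK, hKU, hΘ, hχ⟩ ⟨K', hK', hKU', hΘ', hχ'⟩
    have hU : K ∪ K' ⊆ D.U \ D.A := union_subset hKU hKU'
    obtain ⟨F, F0, -, -⟩ := supp D hI'
    have hinj : Function.Injective Θ' := by
      intro x y hxy
      rw [← F0, ← F0] at hxy
      have := congrArg (fun z => F.g (0, z)) hxy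
      simpa [F.gf] using this
    have hid : ∀ x, x ∉ K ∪ K' → Θ' x = x := fun x hx => hΘ' x fun h => hx (Or.inr h)
    have hmaps : MapsTo Θ' (K ∪ K') (K ∪ K') := by
      intro x hx
      by_contra hc
      exact hc (by rw [hinj (hid _ hc)]; exact hx)
    rw [imp_enl D hU subset_union_left hΘ] at hχ
    rw [imp_enl D hU subset_union_right hΘ'] at hχ'
    refine ⟨K ∪ K', hK.union hK', hU, fun x hx => ?_, ?_⟩
    · change Θ (Θ' x) = x
      rw [hid x hx]
      exact hΘ x fun h => hx (Or.inl h)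
    · have h4 := (hImp R4 R4 I4 R4 D.e (K ∪ K') Θ' (emb_mono D hU).2).2.2.2.1 Θ hmaps
      have e4 : imp D.e (K ∪ K') (fun p => Θ (Θ' p))
          = fun y => imp D.e (K ∪ K') Θ (imp D.e (K ∪ K') Θ' y) := funext h4
      rw [e4]
      exact c5 _ _ _ _ hχ hχ'
  · refine ⟨∅, isCompact_empty, empty_subset _, fun x _ => rfl, ?_⟩
    have e : imp D.e ∅ (fun x => x) = fun x => x := by
      funext y
      unfold imp
      rw [dif_neg]
      rintro ⟨p, hp, -⟩
      exact hp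
    rw [e]
    exact c1
  · rintro Θ χ χ' ⟨K, hK, hKU, hΘ, hχ⟩ hc
    exact ⟨K, hK, hKU, hΘ, c4 _ _ _ (c2 _ _ hc) hχ⟩
  · rintro Θ χ ⟨K, hK, hKU, hΘ, hχ⟩
    exact c3 _ _ hχ

end Pool.Agent.Helper27.H


end
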