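import Pool.Agent.Helper65.Barb.Defs
import Pool.Agent.Helper70.BI.C.P15
import Pool.Agent.Helper70.BI.C.P30

/-!
# Project BI (MP_8e98f2_gt): collected modules, part 38

The contents of the modules
* Helper27.BI.H.ArcH
* Helper27.BI.H.M_CH4
* Helper27.BI.R.Rad
* Helper27.BI.R.Par
* Helper27.BI.R.M_PAR

in one file, so that the whole proof builds in a short time.
-/

namespace Pool.Agent.Helper18.BI
end Pool.Agent.Helper18.BI

namespace Pool.Agent.Helper18.BI.H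
end Pool.Agent.Helper18.BI.H

namespace Pool.Agent.Helper27.BI
end Pool.Agent.Helper27.BI

namespace Pool.Agent.Helper27.H
end Pool.Agent.Helper27.H

namespace Pool.Agent.Helper65.Barb
end Pool.Agent.Helper65.Barb

namespace Pool.Agent.Helper70.BI
end Pool.Agent.Helper70.BI


/-! ## Helper27.BI.H.ArcH -/

section

/-!
# Project BI, stage 3 (H): the homotopy theorem for loops of arcs, assembly
-/

set_option autoImplicit false
set_option linter.unusedSectionVars false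
set_option linter.unusedVariables false

open scoped Manifold ContDiff Topology ComplexConjugate
open Set Filter Pool.Agent.Helper65.Barb Pool.Agent.Helper18.BI
open Pool.Agent.Helper70.BI (I4 LD Eqv NearEq IsW MW embOn_comp ld_comp)
open Pool.Agent.Helper27.BI (ci_refl)

namespace Pool.Agent.Helper27.H

private theorem ci_symm {φ ψ : R4 → R4} (h : CIsot I4 φ ψ) : CIsot I4 ψ φ :=
  Pool.Agent.Helper27.BI.CIsot.symm' h

private theorem ci_trans {φ ψ χ : R4 → R4} (h : CIsot I4 φ ψ) (h' : CIsot I4 ψ χ) :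
    CIsot I4 φ χ := Pool.Agent.Helper27.BI.CIsot.trans' h h'

private theorem ci_comp {φ ψ φ' ψ' : R4 → R4} (h : CIsot I4 φ ψ) (h' : CIsot I4 φ' ψ') :
    CIsot I4 (fun x => φ (φ' x)) (fun x => ψ (ψ' x)) := Pool.Agent.Helper27.BI.CIsot.comp' h h'


/-- equality up to `W` -/
def WR (W φ ψ : R4 → R4) : Prop := CIsot I4 ψ φ ∨ CIsot I4 ψ (fun x => W (φ x))

theorem IsW.self {W : R4 → R4} (hW : IsW W) : CIsot I4 W W := by
  obtain ⟨F₀, α₀, β₀, h1, h2⟩ := hW.rep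
  exact (hT2 R4 R4 I4 R4).2.2.2.2.2.2 F₀ W h2

theorem WR.symm {W φ ψ : R4 → R4} (hW : IsW W) (hφ : CIsot I4 φ φ) (h : WR W φ ψ) : WR W ψ φ := by
  rcases h with h | h
  · exact Or.inl (ci_symm h)
  · right
    have h1 : CIsot I4 (fun x => W (ψ x)) (fun x => W (W (φ x))) := ci_comp (IsW.self hW) h
    have h2 : CIsot I4 (fun x => W (W (φ x))) (fun x => φ x) := by
      have h3 := ci_comp hW.sq hφ
      exact h3
    exact ci_symm (ci_trans h1 h2)

theorem WR.trans {W φ ψ χ : R4 → R4} (hW : IsW W) (hφ : CIsot I4 φ φ) (h : WR W φ ψ)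
    (h' : WR W ψ χ) : WR W φ χ := by
  rcases h' with h' | h'
  · rcases h with h | h
    · exact Or.inl (ci_trans h' h)
    · exact Or.inr (ci_trans h' h)
  · have h1 := IsW.self hW
    rcases h with h | h
    · exact Or.inr (ci_trans h' (ci_comp h1 h))
    · left
      have h2 : CIsot I4 (fun x => W (ψ x)) (fun x => W (W (φ x))) := ci_comp h1 h
      have h3 : CIsot I4 (fun x => W (W (φ x))) (fun x => φ x) := by
        have h4 := ci_comp hW.sq hφ
        exact h4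
      exact ci_trans h' (ci_trans h2 h3)

theorem XG.embSP {D : ArcD} {T : R4 → R4} (hT : D.XG T) : EmbOn I4 (fun p => D.e (T p)) SP := by
  have hFB : SP ⊆ FB := by
    rintro p ((h | h) | h)
    · exact Or.inl (Or.inl ⟨h.1, h.2.le⟩)
    · exact Or.inl (Or.inr ⟨h.1, h.2.le⟩)
    · exact Or.inr h
  have h1 : EmbOn I4 T SP := Pool.Agent.Helper27.BI.EmbOn.mono hT.emb hFB
  have h2 : EmbOn I4 (D.e ∘ T) SP := by
    apply embOn_comp D.embe h1
    intro p hp
    refine ⟨hT.inU p (hFB hp), fun hA => ?_⟩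
    rcases hT.arc p (hFB hp) hA with rfl | rfl
    · rcases hp with (h | h) | h
      · have := h.2; norm_num [rsq, nsq] at this
      · have := h.2; norm_num [rsq, nsq] at this
      · have := h.2.1; norm_num at this
    · rcases hp with (h | h) | h
      · have := h.2; norm_num [rsq, nsq] at this
      · have := h.2; norm_num [rsq, nsq] at this
      · have := h.2.2.1; norm_num at this
  exact h2

theorem exists_thin {F : R4 → R4} (hF : EmbOn I4 F SP) : ∃ φ, Thin I4 F φ := by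
  obtain ⟨ε₀, h0, h1⟩ := (hT2 R4 R4 I4 R4).1 F hF
  exact ⟨_, h1 (ε₀ / 2) ⟨by positivity, by linarith⟩⟩

/-- the class of every crossing is trivial or `W` -/
theorem cross_class (hCls : StCls) (hCROSS : StCROSS) (hCUSP : StCUSP) (hNORM : StNORM) {D : ArcD}
    {W T τ : R4 → R4} (hW : IsW W) (hT : D.XG T) (hτ : Thin I4 (fun p => D.e (T p)) τ) :
    WR W (fun x => x) τ := by
  obtain ⟨c, u₀, q₀, a, b, h1, h2, h3, h4, h5, h6⟩ := hCUSP D
  obtain ⟨T₀, hT₀, h7⟩ := hCROSS D c u₀ q₀ a b h1 h2 h3 h4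
  obtain ⟨τ₀, hτ₀⟩ := exists_thin (XG.embSP hT₀)
  have hid : D.Cls (fun _ s => D.c s) (fun x => x) := (hCls D).2.2.2.2.2
  have e0 : (fun q s => c (0, q, s)) = fun _ s => D.c s := by funext q s; exact h5 q s
  have e1 : (fun q s => c (1, q, s)) = fun _ s => D.c s := by funext q s; exact h6 q s
  have h8 : CIsot I4 (fun x : R4 => x) τ₀ := by
    have := h7 (fun x => x) (fun x => x) τ₀ (by rw [e0]; exact hid) (by rw [e1]; exact hid) hτ₀
    rcases this with h | h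
    · exact h
    · exact h
  have h9 : Thin I4 (fun p => D.e (T₀ p)) (fun x => x) :=
    (hT2 R4 R4 I4 R4).2.2.2.1 _ _ _ hτ₀ (ci_symm h8)
  exact hNORM D T₀ T W hW hT₀ hT _ _ h9 hτ

/-- restriction of a homotopy to an interval of parameters -/
def rsc (c : ℝ × ℝ × ℝ → R4) (u₁ u₂ : ℝ) (z : ℝ × ℝ × ℝ) : R4 :=
  c (u₁ + z.1 * (u₂ - u₁), z.2.1, z.2.2)

theorem htpy_rsc {D : ArcD} {c : ℝ × ℝ × ℝ → R4} (hc : D.Htpy c) {u₁ u₂ : ℝ} (h0 : 0 ≤ u₁)
    (h1 : u₁ ≤ u₂) (h2 : u₂ ≤ 1) : D.Htpy (rsc c u₁ u₂) := by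
  have hm : ∀ u ∈ Icc (0 : ℝ) 1, u₁ + u * (u₂ - u₁) ∈ Icc (0 : ℝ) 1 := by
    rintro u ⟨a, b⟩
    constructor <;> nlinarith
  refine ⟨?_, fun u hu q hq s hs => hc.froz _ (hm u hu) q hq s hs,
    fun u hu q hq s hs => hc.inU _ (hm u hu) q hq s hs, fun u hu s => hc.start _ (hm u hu) s,
    fun u hu s => hc.stop _ (hm u hu) s⟩
  have : ContDiff ℝ ∞ (fun z : ℝ × ℝ × ℝ => ((u₁ + z.1 * (u₂ - u₁), z.2.1, z.2.2) : ℝ × ℝ × ℝ)) :=
    (contDiff_const.add (contDiff_fst.mul contDiff_const)).prodMk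
      ((contDiff_fst.comp contDiff_snd).prodMk (contDiff_snd.comp contDiff_snd))
  exact hc.smooth.comp this

theorem xing_rsc {D : ArcD} {c : ℝ × ℝ × ℝ → R4} (hc : D.Htpy c) {u₁ u₂ : ℝ} {b q a' b' : ℝ}
    (h1 : u₁ < b) (h2 : b < u₂) (hx : D.Xing c b q a' b') :
    D.Xing (rsc c u₁ u₂) ((b - u₁) / (u₂ - u₁)) q a' b' := by
  have hp : 0 < u₂ - u₁ := by linarith
  have e : u₁ + (b - u₁) / (u₂ - u₁) * (u₂ - u₁) = b := by field_simp; ring
  refine ⟨⟨by apply div_pos <;> linarith, by rw [div_lt_one hp]; linarith⟩, hx.memq, hx.mema,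
    hx.memb, hx.lt, ?_, ?_, ?_⟩
  · show c (_, _, _) = c (_, _, _)
    rw [e]; exact hx.eq
  · intro s hs s' hs' hlt h
    have h' : c (u₁ + (b - u₁) / (u₂ - u₁) * (u₂ - u₁), q, s) =
      c (u₁ + (b - u₁) / (u₂ - u₁) * (u₂ - u₁), q, s') := h
    rw [e] at h'
    exact hx.uniq s hs s' hs' hlt h'
  · intro ζ η σ τ h
    have key : ∀ s ζ η σ : ℝ, fderiv ℝ (rsc c u₁ u₂) ((b - u₁) / (u₂ - u₁), q, s) (ζ, η, σ) =
        fderiv ℝ c (b, q, s) (ζ * (u₂ - u₁), η, σ) := by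
      intro s ζ η σ
      have hd : HasFDerivAt c (fderiv ℝ c (b, q, s)) (b, q, s) :=
        (hc.smooth.differentiable (by simp) _).hasFDerivAt
      have h3 : HasDerivAt (fun t : ℝ => ((b + t * (ζ * (u₂ - u₁)), q + t * η, s + t * σ) :
          ℝ × ℝ × ℝ)) (ζ * (u₂ - u₁), η, σ) 0 := by
        have l : ∀ x y : ℝ, HasDerivAt (fun t : ℝ => x + t * y) y 0 := by
          intro x y
          simpa using ((hasDerivAt_id (0 : ℝ)).mul_const y).const_add x
        exact (l _ _).prodMk ((l _ _).prodMk (l _ _))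
      have h4 : HasDerivAt (fun t : ℝ => c (b + t * (ζ * (u₂ - u₁)), q + t * η, s + t * σ))
          (fderiv ℝ c (b, q, s) (ζ * (u₂ - u₁), η, σ)) 0 := by
        have h5 : HasFDerivAt c (fderiv ℝ c (b, q, s))
            ((b + (0 : ℝ) * (ζ * (u₂ - u₁)), q + (0 : ℝ) * η, s + (0 : ℝ) * σ) : ℝ × ℝ × ℝ) := by
          simpa using hd
        exact h5.comp_hasDerivAt (0 : ℝ) h3
      have hr : HasFDerivAt (rsc c u₁ u₂) (fderiv ℝ (rsc c u₁ u₂) ((b - u₁) / (u₂ - u₁), q, s))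
          ((b - u₁) / (u₂ - u₁), q, s) := by
        have hs : ContDiff ℝ ∞ (rsc c u₁ u₂) := by
          have : ContDiff ℝ ∞ (fun z : ℝ × ℝ × ℝ =>
              ((u₁ + z.1 * (u₂ - u₁), z.2.1, z.2.2) : ℝ × ℝ × ℝ)) :=
            (contDiff_const.add (contDiff_fst.mul contDiff_const)).prodMk
              ((contDiff_fst.comp contDiff_snd).prodMk (contDiff_snd.comp contDiff_snd))
          exact hc.smooth.comp this
        exact (hs.differentiable (by simp) _).hasFDerivAt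
      have h6 : HasDerivAt (fun t : ℝ => (((b - u₁) / (u₂ - u₁) + t * ζ, q + t * η, s + t * σ) :
          ℝ × ℝ × ℝ)) (ζ, η, σ) 0 := by
        have l : ∀ x y : ℝ, HasDerivAt (fun t : ℝ => x + t * y) y 0 := by
          intro x y
          simpa using ((hasDerivAt_id (0 : ℝ)).mul_const y).const_add x
        exact (l _ _).prodMk ((l _ _).prodMk (l _ _))
      have h7 : HasDerivAt ((rsc c u₁ u₂) ∘ fun t : ℝ =>
          (((b - u₁) / (u₂ - u₁) + t * ζ, q + t * η, s + t * σ) : ℝ × ℝ × ℝ))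
          (fderiv ℝ (rsc c u₁ u₂) ((b - u₁) / (u₂ - u₁), q, s) (ζ, η, σ)) 0 := by
        have h8 : HasFDerivAt (rsc c u₁ u₂) (fderiv ℝ (rsc c u₁ u₂) ((b - u₁) / (u₂ - u₁), q, s))
            (((b - u₁) / (u₂ - u₁) + (0 : ℝ) * ζ, q + (0 : ℝ) * η, s + (0 : ℝ) * σ) :
              ℝ × ℝ × ℝ) := by
          simpa using hr
        exact h8.comp_hasDerivAt (0 : ℝ) h6
      have h9 : ((rsc c u₁ u₂) ∘ fun t : ℝ =>
          (((b - u₁) / (u₂ - u₁) + t * ζ, q + t * η, s + t * σ) : ℝ × ℝ × ℝ)) =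
          fun t : ℝ => c (b + t * (ζ * (u₂ - u₁)), q + t * η, s + t * σ) := by
        funext t
        show c (u₁ + ((b - u₁) / (u₂ - u₁) + t * ζ) * (u₂ - u₁), _, _) = _
        congr 2
        field_simp
        ring
      rw [h9] at h7
      exact h7.unique h4
    have h' : fderiv ℝ c (b, q, a') (ζ * (u₂ - u₁), η, σ) =
        fderiv ℝ c (b, q, b') (ζ * (u₂ - u₁), η, τ) := by
      rw [← key, ← key]; exact h
    obtain ⟨r1, r2, r3, r4⟩ := hx.trans _ _ _ _ h'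
    refine ⟨?_, r2, r3, r4⟩
    rcases mul_eq_zero.1 r1 with h | h
    · exact h
    · exact absurd h hp.ne'

/-- **ArcH.** -/
theorem m_ArcH (hCls : StCls) (hCROSS : StCROSS) (hCUSP : StCUSP) (hNORM : StNORM) (hGP : StGP) :
    StArcH := by
  intro D c W χ₀ χ₁ hc hc0 hc1 hW h0 h1
  obtain ⟨c', hc', e0, e1, himm, B, hB, hinj, hX⟩ := hGP D c hc hc0 hc1
  have hex : ∀ u ∈ Icc (0 : ℝ) 1, u ∉ B → ∃ χ, D.Cls (fun q s => c' (u, q, s)) χ := by
    intro u hu huB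
    exact (hCls D).2.2.2.1 c' hc' u hu fun q hq => ⟨himm u hu q hq, hinj u hu huB q hq⟩
  -- one crossing
  have hone : ∀ b ∈ B, ∀ u₁ u₂ : ℝ, 0 ≤ u₁ → u₁ < b → b < u₂ → u₂ ≤ 1 →
      (∀ u ∈ Icc u₁ u₂, u ∈ B → u = b) → ∀ χ χ', D.Cls (fun q s => c' (u₁, q, s)) χ →
      D.Cls (fun q s => c' (u₂, q, s)) χ' → WR W χ χ' := by
    intro b hb u₁ u₂ h1 h2 h3 h4 h5 χ χ' hχ hχ'
    obtain ⟨q₀, a, b', hx, hx'⟩ := hX b hb
    have hp : 0 < u₂ - u₁ := by linarith
    have hm : ∀ u ∈ Icc (0 : ℝ) 1, u₁ + u * (u₂ - u₁) ∈ Icc u₁ u₂ := by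
      rintro u ⟨a, b⟩
      constructor <;> nlinarith
    have hm' : ∀ u ∈ Icc u₁ u₂, u ∈ Icc (0 : ℝ) 1 := fun u hu => ⟨by linarith [hu.1], by linarith [hu.2]⟩
    obtain ⟨T, hT, h6⟩ := hCROSS D (rsc c' u₁ u₂) ((b - u₁) / (u₂ - u₁)) q₀ a b'
      (htpy_rsc hc' h1 (by linarith) h4) (xing_rsc hc' h2 h3 hx)
      (fun u hu q hq => himm _ (hm' _ (hm u hu)) q hq) (by
        intro u hu q hq hne
        show D.Inj c' (u₁ + u * (u₂ - u₁)) q
        by_cases h : u₁ + u * (u₂ - u₁) ∈ B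
        · have h7 := h5 _ (hm u hu) h
          rw [h7]
          apply hx' q hq
          rintro rfl
          apply hne
          have h8 : u = (b - u₁) / (u₂ - u₁) := by
            rw [eq_div_iff hp.ne']; linarith
          rw [h8]
        · exact hinj _ (hm' _ (hm u hu)) h q hq)
    obtain ⟨τ, hτ⟩ := exists_thin (XG.embSP hT)
    have hr0 : (fun q s => rsc c' u₁ u₂ (0, q, s)) = fun q s => c' (u₁, q, s) := by
      funext q s; show c' (u₁ + 0 * (u₂ - u₁), q, s) = _; rw [zero_mul, add_zero]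
    have hr1 : (fun q s => rsc c' u₁ u₂ (1, q, s)) = fun q s => c' (u₂, q, s) := by
      funext q s; show c' (u₁ + 1 * (u₂ - u₁), q, s) = _; rw [one_mul, add_sub_cancel]
    have h7 := h6 χ χ' τ (by rw [hr0]; exact hχ) (by rw [hr1]; exact hχ') hτ
    have h8 := cross_class hCls hCROSS hCUSP hNORM hW hT hτ
    have hχs : CIsot I4 χ χ := (hCls D).2.2.1 _ _ hχ
    have hχs' : CIsot I4 χ' χ' := (hCls D).2.2.1 _ _ hχ'
    have key : ∀ φ : R4 → R4, CIsot I4 φ φ → WR W φ (fun x => τ (φ x)) := by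
      intro φ hφ
      rcases h8 with h | h
      · have h9 := ci_comp h hφ
        exact Or.inl h9
      · have h9 := ci_comp h hφ
        exact Or.inr h9
    rcases h7 with h | h
    · have h9 : WR W χ' χ := by
        rcases key χ' hχs' with h' | h'
        · exact Or.inl (ci_trans h h')
        · exact Or.inr (ci_trans h h')
      exact WR.symm hW hχs' h9
    · rcases key χ hχs with h' | h'
      · exact Or.inl (ci_trans h h')
      · exact Or.inr (ci_trans h h')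
  -- no crossing
  have hnone : ∀ u₁ u₂ : ℝ, 0 ≤ u₁ → u₁ ≤ u₂ → u₂ ≤ 1 → (∀ u ∈ Icc u₁ u₂, u ∉ B) →
      ∀ χ χ', D.Cls (fun q s => c' (u₁, q, s)) χ → D.Cls (fun q s => c' (u₂, q, s)) χ' →
      WR W χ χ' := by
    intro u₁ u₂ h1 h2 h3 h4 χ χ' hχ hχ'
    have h5 := (hCls D).2.2.2.2.1 c' hc' u₁ u₂ h1 h2 h3 (fun v hv q hq =>
      ⟨himm v ⟨by linarith [hv.1], by linarith [hv.2]⟩ q hq,
        hinj v ⟨by linarith [hv.1], by linarith [hv.2]⟩ (h4 v hv) q hq⟩) χ hχ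
    exact Or.inl ((hCls D).1 _ _ _ hχ' h5)
  -- induction on the number of crossings
  have hind : ∀ n : ℕ, ∀ u₁ u₂ : ℝ, 0 ≤ u₁ → u₁ ≤ u₂ → u₂ ≤ 1 → u₁ ∉ B → u₂ ∉ B →
      (B.filter (fun u => u₁ < u ∧ u < u₂)).card = n →
      ∀ χ χ', D.Cls (fun q s => c' (u₁, q, s)) χ → D.Cls (fun q s => c' (u₂, q, s)) χ' →
      WR W χ χ' := by
    intro n
    induction n with
    | zero =>
      intro u₁ u₂ h1 h2 h3 h4 h5 h6
      apply hnone u₁ u₂ h1 h2 h3
      intro u hu huB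
      rw [Finset.card_eq_zero] at h6
      have : u ∈ B.filter (fun u => u₁ < u ∧ u < u₂) := by
        rw [Finset.mem_filter]
        refine ⟨huB, lt_of_le_of_ne hu.1 ?_, lt_of_le_of_ne hu.2 ?_⟩
        · rintro rfl; exact h4 huB
        · rintro rfl; exact h5 huB
      rw [h6] at this
      simp at this
    | succ n ih =>
      intro u₁ u₂ h1 h2 h3 h4 h5 h6 χ χ' hχ hχ'
      have hne : (B.filter (fun u => u₁ < u ∧ u < u₂)).Nonempty := by
        rw [← Finset.card_pos, h6]; omega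
      set b := (B.filter (fun u => u₁ < u ∧ u < u₂)).min' hne with hb
      have hbm : b ∈ B.filter (fun u => u₁ < u ∧ u < u₂) := Finset.min'_mem _ _
      have hbB := (Finset.mem_filter.1 hbm).1
      obtain ⟨hb1, hb2⟩ := (Finset.mem_filter.1 hbm).2
      have hmin : ∀ u ∈ B, u₁ < u → u < u₂ → b ≤ u := fun u hu a1 a2 =>
        Finset.min'_le _ _ (Finset.mem_filter.2 ⟨hu, a1, a2⟩)
      -- a point after `b`
      obtain ⟨v, hv1, hv2, hv3⟩ : ∃ v, b < v ∧ v < u₂ ∧ ∀ u ∈ Ioc b v, u ∉ B := by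
        have hfin : ((B : Set ℝ) \ {b}).Finite := B.finite_toSet.subset sdiff_subset
        have hop : IsOpen ((B : Set ℝ) \ {b})ᶜ := hfin.isClosed.isOpen_compl
        have hbo : b ∈ ((B : Set ℝ) \ {b})ᶜ := fun h => h.2 rfl
        obtain ⟨r, hr, hr'⟩ := Metric.isOpen_iff.1 hop b hbo
        refine ⟨min (b + r / 2) ((b + u₂) / 2), lt_min (by linarith) (by linarith),
          lt_of_le_of_lt (min_le_right _ _) (by linarith), ?_⟩
        rintro u ⟨a1, a2⟩ huB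
        have a3 : u ≤ b + r / 2 := a2.trans (min_le_left _ _)
        have a4 : u ∈ Metric.ball b r := by
          rw [Metric.mem_ball, Real.dist_eq, abs_lt]
          constructor <;> linarith
        exact hr' a4 ⟨huB, fun h => absurd h (ne_of_gt a1)⟩
      have hvB : v ∉ B := hv3 v ⟨hv1, le_rfl⟩
      have hv01 : v ∈ Icc (0 : ℝ) 1 := ⟨by linarith, by linarith⟩
      obtain ⟨χv, hχv⟩ := hex v hv01 hvB
      have s1 : WR W χ χv := by
        refine hone b hbB u₁ v h1 hb1 hv1 hv01.2 ?_ χ χv hχ hχv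
        intro u hu huB
        rcases lt_trichotomy u b with h | h | h
        · exfalso
          rcases hu.1.lt_or_eq with h' | h'
          · exact absurd (hmin u huB h' (by linarith)) (not_le.2 h)
          · rw [← h'] at huB; exact h4 huB
        · exact h
        · exact absurd huB (hv3 u ⟨h, hu.2⟩)
      have s2 : WR W χv χ' := by
        apply ih v u₂ hv01.1 hv2.le h3 hvB h5 _ χv χ' hχv hχ'
        have e : B.filter (fun u => u₁ < u ∧ u < u₂) =
            insert b (B.filter (fun u => v < u ∧ u < u₂)) := by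
          ext u
          simp only [Finset.mem_filter, Finset.mem_insert]
          constructor
          · rintro ⟨a1, a2, a3⟩
            rcases (hmin u a1 a2 a3).lt_or_eq with h | h
            · right
              refine ⟨a1, ?_, a3⟩
              by_contra h'
              push Not at h'
              exact hv3 u ⟨h, h'⟩ a1
            · exact Or.inl h.symm
          · rintro (rfl | ⟨a1, a2, a3⟩)
            · exact ⟨hbB, hb1, hb2⟩
            · exact ⟨a1, by linarith, a3⟩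
        rw [e, Finset.card_insert_of_notMem] at h6
        · omega
        · simp only [Finset.mem_filter]
          rintro ⟨a1, a2, a3⟩
          linarith
      exact WR.trans hW ((hCls D).2.2.1 _ _ hχ) s1 s2
  have h0B : (0 : ℝ) ∉ B := fun h => lt_irrefl _ (hB 0 h).1
  have h1B : (1 : ℝ) ∉ B := fun h => lt_irrefl _ (hB 1 h).2
  have e0' : (fun q s => c' (0, q, s)) = fun q s => c (0, q, s) := by funext q s; exact e0 q s
  have e1' : (fun q s => c' (1, q, s)) = fun q s => c (1, q, s) := by funext q s; exact e1 q s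
  exact hind _ 0 1 le_rfl zero_le_one le_rfl h0B h1B rfl χ₀ χ₁ (by rw [e0']; exact h0)
    (by rw [e1']; exact h1)

end Pool.Agent.Helper27.H


end

/-! ## Helper27.BI.H.M_CH4 -/

section

/-!
# Project BI, stage 3 (H), module CH4: chains of displacements for families of germs (helper2)
-/

set_option autoImplicit false

open scoped Manifold ContDiff Topology ComplexConjugate
open Set Filter Pool.Agent.Helper65.Barb Pool.Agent.Helper18.BI
open Pool.Agent.Helper70.BI (I4 LD Eqv NearEq embOn_iff)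

namespace Pool.Agent.Helper27.H

namespace CH4

noncomputable section

/-- step (0): the inverse of `(a, p) ↦ (a, J a p)` near `Q × L` -/
theorem exists_inv {Q : Set (ℝ × ℝ)} {L V U : Set R4} {J : ℝ × ℝ → R4 → R4} (hQ : IsCompact Q)
    (hL : IsCompact L) (hF : Fam2 Q L V U J) :
    ∃ (S T : Set ((ℝ × ℝ) × R4)) (G : (ℝ × ℝ) × R4 → R4), IsOpen S ∧ IsOpen T ∧ Q ×ˢ L ⊆ S ∧
      ContDiffOn ℝ ∞ (fun z : (ℝ × ℝ) × R4 => J z.1 z.2) S ∧ ContDiffOn ℝ ∞ G T ∧
      (∀ z ∈ S, (z.1, J z.1 z.2) ∈ T ∧ G (z.1, J z.1 z.2) = z.2) ∧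
      ∀ w ∈ T, (w.1, G w) ∈ S ∧ J w.1 (G w) = w.2 := by
  have hld : ∀ z ∈ Q ×ˢ L, IsLocalDiffeomorphAt 𝓘(ℝ, (ℝ × ℝ) × R4) 𝓘(ℝ, (ℝ × ℝ) × R4) ∞
      (fun z : (ℝ × ℝ) × R4 => (z.1, J z.1 z.2)) z := by
    rintro ⟨a, p⟩ ⟨ha, hp⟩
    have hs := hF.smooth a ha p hp
    refine (m_A0 ((ℝ × ℝ) × R4) _ (a, p)).2 ⟨?_, ?_⟩
    · obtain ⟨O, hO1, hO2, hO3⟩ := eventually_nhds_iff.1 hs
      refine ⟨O, hO2, hO3, fun z hz => ?_⟩
      exact (contDiffAt_fst.prodMk (hO1 z hz)).contDiffWithinAt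
    · rintro ⟨α, v⟩ hv
      have h1 : HasFDerivAt (fun z : (ℝ × ℝ) × R4 => J z.1 z.2)
          (fderiv ℝ (fun z : (ℝ × ℝ) × R4 => J z.1 z.2) (a, p)) (a, p) :=
        (hs.self_of_nhds.differentiableAt (by simp)).hasFDerivAt
      have h2 : HasFDerivAt (fun z : (ℝ × ℝ) × R4 => (z.1, J z.1 z.2))
          ((ContinuousLinearMap.fst ℝ (ℝ × ℝ) R4).prod
            (fderiv ℝ (fun z : (ℝ × ℝ) × R4 => J z.1 z.2) (a, p))) (a, p) :=
        hasFDerivAt_fst.prodMk h1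
      rw [h2.fderiv] at hv
      have hα : α = 0 := congrArg Prod.fst hv
      have hv2 : fderiv ℝ (fun z : (ℝ × ℝ) × R4 => J z.1 z.2) (a, p) (α, v) = 0 :=
        congrArg Prod.snd hv
      subst hα
      have h3 : HasFDerivAt (fun q : R4 => ((a, q) : (ℝ × ℝ) × R4))
          (ContinuousLinearMap.inr ℝ (ℝ × ℝ) R4) p := hasFDerivAt_prodMk_right a p
      have h4 := (h1.comp p h3).fderiv
      have h5 : fderiv ℝ (J a) p v = 0 := by
        have h6 : (J a) = (fun z : (ℝ × ℝ) × R4 => J z.1 z.2) ∘ fun q : R4 => (a, q) := rfl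
        rw [h6, h4]
        exact hv2
      have h7 := ((embOn_iff.1 (hF.emb a ha)).1 p hp).2
      have h8 : v = 0 := h7 (by rw [h5, map_zero])
      rw [h8]
      rfl
  have hinj : InjOn (fun z : (ℝ × ℝ) × R4 => (z.1, J z.1 z.2)) (Q ×ˢ L) := by
    rintro ⟨a, p⟩ ⟨ha, hp⟩ ⟨a', p'⟩ ⟨ha', hp'⟩ he
    have h1 : a = a' := congrArg Prod.fst he
    have h2 : J a p = J a' p' := congrArg Prod.snd he
    subst h1
    have h3 : p = p' := (hF.emb a ha).2 hp hp' h2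
    rw [h3]
  obtain ⟨δ, hδ, hδ'⟩ := m_A1 ((ℝ × ℝ) × R4) ((ℝ × ℝ) × R4) ((ℝ × ℝ) × R4)
    𝓘(ℝ, (ℝ × ℝ) × R4) ((ℝ × ℝ) × R4) _ _ (hQ.prod hL) hld hinj
  have c1 : ContDiffOn ℝ ∞ δ.toFun δ.source := contMDiffOn_iff_contDiffOn.1 δ.contMDiffOn_toFun
  have c2 : ContDiffOn ℝ ∞ δ.invFun δ.target := contMDiffOn_iff_contDiffOn.1 δ.contMDiffOn_invFun
  have key : ∀ w ∈ δ.target, (w.1, (δ.invFun w).2) = δ.invFun w := by
    intro w hw
    have h1 := δ.map_target hw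
    have h2 := hδ' _ h1
    have h3 : δ.toFun (δ.invFun w) = w := δ.right_inv hw
    have h4 : ((δ.invFun w).1, J (δ.invFun w).1 (δ.invFun w).2) = w := h2.symm.trans h3
    have h5 : (δ.invFun w).1 = w.1 := (Prod.ext_iff.1 h4).1
    rw [← h5]
  refine ⟨δ.source, δ.target, fun w => (δ.invFun w).2, δ.open_source, δ.open_target, hδ, ?_, ?_,
    ?_, ?_⟩
  · have h1 : ContDiffOn ℝ ∞ (fun z => (δ.toFun z).2) δ.source := c1.snd
    exact h1.congr fun z hz => (congrArg Prod.snd (hδ' z hz)).symm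
  · exact c2.snd
  · intro z hz
    have h1 : δ.toFun z = (z.1, J z.1 z.2) := hδ' z hz
    rw [← h1]
    refine ⟨δ.map_source hz, ?_⟩
    exact congrArg Prod.snd (δ.left_inv hz)
  · intro w hw
    refine ⟨by rw [key w hw]; exact δ.map_target hw, ?_⟩
    have h1 := hδ' _ (δ.map_target hw)
    have h3 : δ.toFun (δ.invFun w) = w := δ.right_inv hw
    have h4 : ((δ.invFun w).1, J (δ.invFun w).1 (δ.invFun w).2) = w := h1.symm.trans h3
    have h5 : (δ.invFun w).1 = w.1 := (Prod.ext_iff.1 h4).1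
    have h6 : J (δ.invFun w).1 (δ.invFun w).2 = w.2 := (Prod.ext_iff.1 h4).2
    rw [h5] at h6
    exact h6

/-- the data of the displacement -/
structure Dat (Q : Set (ℝ × ℝ)) (L V U : Set R4) (J : ℝ × ℝ → R4 → R4)
    (S T : Set ((ℝ × ℝ) × R4)) (G : (ℝ × ℝ) × R4 → R4) (A : Set (ℝ × ℝ)) (N' N : Set R4)
    (χ : R4 → ℝ) : Prop where
  openS : IsOpen S
  openT : IsOpen T
  smJ : ContDiffOn ℝ ∞ (fun z : (ℝ × ℝ) × R4 => J z.1 z.2) S
  smG : ContDiffOn ℝ ∞ G T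
  into : ∀ z ∈ S, (z.1, J z.1 z.2) ∈ T ∧ G (z.1, J z.1 z.2) = z.2
  fro : ∀ w ∈ T, (w.1, G w) ∈ S ∧ J w.1 (G w) = w.2
  openA : IsOpen A
  openN' : IsOpen N'
  QA : Q ⊆ A
  box : ∀ a ∈ A, ∀ p ∈ N', (a, p) ∈ S ∧ (p ∉ V → J a p ∈ U)
  smχ : ContDiff ℝ ∞ χ
  cpt : IsCompact (tsupport χ)
  sub : tsupport χ ⊆ N'
  openN : IsOpen N
  LN : L ⊆ N
  one : ∀ p ∈ N, χ p = 1
  froz : ∀ a ∈ Q, ∀ b ∈ Q, ∀ p ∈ V, J a p = J b p

theorem exists_dat {Q : Set (ℝ × ℝ)} {L V U : Set R4} {J : ℝ × ℝ → R4 → R4} (hQ : IsCompact Q)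
    (hL : IsCompact L) (hV : IsOpen V) (hU : IsOpen U) (hF : Fam2 Q L V U J) :
    ∃ S T G A N' N χ, Dat Q L V U J S T G A N' N χ := by
  obtain ⟨S, T, G, hS, hT, hQL, sJ, sG, h1, h2⟩ := exists_inv hQ hL hF
  have hW1 : IsOpen (S ∩ (fun z : (ℝ × ℝ) × R4 => J z.1 z.2) ⁻¹' U) :=
    sJ.continuousOn.isOpen_inter_preimage hS hU
  have hW2 : IsOpen (S ∩ Prod.snd ⁻¹' V) := hS.inter (hV.preimage continuous_snd)
  obtain ⟨A, N', hA, hN', hQA, hLN', hbox⟩ := generalized_tube_lemma hQ hL (hW1.union hW2) (by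
    rintro ⟨a, p⟩ ⟨ha, hp⟩
    by_cases hpV : p ∈ V
    · exact Or.inr ⟨hQL ⟨ha, hp⟩, hpV⟩
    · exact Or.inl ⟨hQL ⟨ha, hp⟩, hF.inU a ha p hp hpV⟩)
  obtain ⟨N₁, c1, l1, s1⟩ := exists_compact_between hL hN' hLN'
  obtain ⟨N₂, c2, l2, s2⟩ := exists_compact_between c1 hN' s1
  obtain ⟨χ, χ0, χ1, -⟩ := exists_contMDiffMap_zero_one_of_isClosed (n := ⊤) 𝓘(ℝ, R4)
    (isOpen_interior (s := N₂)).isClosed_compl c1.isClosed
    (disjoint_compl_left_iff_subset.2 l2)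
  have hsupp : tsupport χ ⊆ N₂ := by
    refine (closure_mono ?_).trans (closure_minimal interior_subset c2.isClosed)
    intro p hp
    by_contra h
    exact hp (χ0 h)
  refine ⟨S, T, G, A, N', interior N₁, χ, ⟨hS, hT, sJ, sG, h1, h2, hA, hN', hQA, ?_,
    χ.contMDiff.contDiff, c2.of_isClosed_subset (isClosed_tsupport _) hsupp, hsupp.trans s2,
    isOpen_interior, l1, fun p hp => χ1 (interior_subset hp), hF.froz⟩⟩
  intro a ha p hp
  rcases hbox (show ((a, p) : (ℝ × ℝ) × R4) ∈ A ×ˢ N' from ⟨ha, hp⟩) with h | h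
  · exact ⟨h.1, fun _ => h.2⟩
  · exact ⟨h.1, fun h' => absurd h.2 h'⟩

section
variable {Q : Set (ℝ × ℝ)} {L V U : Set R4} {J : ℝ × ℝ → R4 → R4} {S T : Set ((ℝ × ℝ) × R4)}
  {G : (ℝ × ℝ) × R4 → R4} {A : Set (ℝ × ℝ)} {N' N : Set R4} {χ : R4 → ℝ}

/-- the displacement -/
def dsp (J : ℝ × ℝ → R4 → R4) (T : Set ((ℝ × ℝ) × R4)) (G : (ℝ × ℝ) × R4 → R4) (χ : R4 → ℝ)
    (a b : ℝ × ℝ) (y : R4) : R4 :=
  open Classical in
  if (a, y) ∈ T then χ (G (a, y)) • (J b (G (a, y)) - J a (G (a, y))) else 0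

theorem dsp_self (a : ℝ × ℝ) (y : R4) : dsp J T G χ a a y = 0 := by
  unfold dsp
  split_ifs
  · rw [sub_self, smul_zero]
  · rfl

theorem dsp_zero {a b : ℝ × ℝ} {y : R4} (h : (a, y) ∈ T → χ (G (a, y)) = 0) :
    dsp J T G χ a b y = 0 := by
  unfold dsp
  split_ifs with h1
  · rw [h h1, zero_smul]
  · rfl

theorem dsp_smooth (hD : Dat Q L V U J S T G A N' N χ) {a b : ℝ × ℝ} (ha : a ∈ A) (hb : b ∈ A)
    (y : R4) : ContDiffAt ℝ ∞
      (fun z : (ℝ × ℝ) × (ℝ × ℝ) × R4 => dsp J T G χ z.1 z.2.1 z.2.2) (a, b, y) := by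
  have hc0 : Continuous (fun z : (ℝ × ℝ) × (ℝ × ℝ) × R4 => ((z.1, z.2.2) : (ℝ × ℝ) × R4)) := by
    fun_prop
  have hs0 : ContDiff ℝ ∞
      (fun z : (ℝ × ℝ) × (ℝ × ℝ) × R4 => ((z.1, z.2.2) : (ℝ × ℝ) × R4)) := by
    fun_prop
  by_cases hT : (a, y) ∈ T
  · have hTe : ∀ᶠ z : (ℝ × ℝ) × (ℝ × ℝ) × R4 in 𝓝 (a, b, y), (z.1, z.2.2) ∈ T :=
      (hD.openT.preimage hc0).mem_nhds hT
    have hG : ContDiffAt ℝ ∞ (fun z : (ℝ × ℝ) × (ℝ × ℝ) × R4 => G (z.1, z.2.2)) (a, b, y) :=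
      ContDiffAt.comp (a, b, y) (hD.smG.contDiffAt (hD.openT.mem_nhds hT)) hs0.contDiffAt
    by_cases hp : G (a, y) ∈ N'
    · have e : (fun z : (ℝ × ℝ) × (ℝ × ℝ) × R4 => dsp J T G χ z.1 z.2.1 z.2.2) =ᶠ[𝓝 (a, b, y)]
          fun z => χ (G (z.1, z.2.2)) • (J z.2.1 (G (z.1, z.2.2)) - J z.1 (G (z.1, z.2.2))) := by
        filter_upwards [hTe] with z hz
        unfold dsp
        rw [if_pos hz]
      refine ContDiffAt.congr_of_eventuallyEq ?_ e
      have j1 : ContDiffAt ℝ ∞ (fun z : (ℝ × ℝ) × (ℝ × ℝ) × R4 => J z.2.1 (G (z.1, z.2.2)))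
          (a, b, y) := by
        have k1 : ContDiffAt ℝ ∞ (fun z : (ℝ × ℝ) × R4 => J z.1 z.2) (b, G (a, y)) :=
          hD.smJ.contDiffAt (hD.openS.mem_nhds (hD.box b hb _ hp).1)
        exact ContDiffAt.comp (a, b, y) k1 ((contDiffAt_snd.fst).prodMk hG)
      have j2 : ContDiffAt ℝ ∞ (fun z : (ℝ × ℝ) × (ℝ × ℝ) × R4 => J z.1 (G (z.1, z.2.2)))
          (a, b, y) := by
        have k1 : ContDiffAt ℝ ∞ (fun z : (ℝ × ℝ) × R4 => J z.1 z.2) (a, G (a, y)) :=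
          hD.smJ.contDiffAt (hD.openS.mem_nhds (hD.box a ha _ hp).1)
        exact ContDiffAt.comp (a, b, y) k1 (contDiffAt_fst.prodMk hG)
      exact (ContDiffAt.comp (a, b, y) hD.smχ.contDiffAt hG).smul (j1.sub j2)
    · have hp' : G (a, y) ∉ tsupport χ := fun h => hp (hD.sub h)
      have e : (fun z : (ℝ × ℝ) × (ℝ × ℝ) × R4 => dsp J T G χ z.1 z.2.1 z.2.2) =ᶠ[𝓝 (a, b, y)]
          fun _ => 0 := by
        filter_upwards [hG.continuousAt.eventually
          ((isClosed_tsupport χ).isOpen_compl.mem_nhds hp')] with z hz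
        exact dsp_zero fun _ => image_eq_zero_of_notMem_tsupport hz
      exact contDiffAt_const.congr_of_eventuallyEq e
  · obtain ⟨A₁, hA₁, hA₁A, cA₁⟩ := local_compact_nhds (hD.openA.mem_nhds ha)
    have hcont : ContinuousOn (fun z : (ℝ × ℝ) × R4 => (z.1, J z.1 z.2)) (A₁ ×ˢ tsupport χ) := by
      refine continuous_fst.continuousOn.prodMk (hD.smJ.continuousOn.mono ?_)
      rintro ⟨a', p'⟩ ⟨h1, h2⟩
      exact (hD.box a' (hA₁A h1) p' (hD.sub h2)).1
    have hC : IsCompact ((fun z : (ℝ × ℝ) × R4 => (z.1, J z.1 z.2)) '' (A₁ ×ˢ tsupport χ)) :=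
      (cA₁.prod hD.cpt).image_of_continuousOn hcont
    have hn : ((a, y) : (ℝ × ℝ) × R4) ∉
        (fun z : (ℝ × ℝ) × R4 => (z.1, J z.1 z.2)) '' (A₁ ×ˢ tsupport χ) := by
      rintro ⟨⟨a', p'⟩, ⟨h1, h2⟩, h3⟩
      apply hT
      rw [← h3]
      exact (hD.into (a', p') (hD.box a' (hA₁A h1) p' (hD.sub h2)).1).1
    have e : (fun z : (ℝ × ℝ) × (ℝ × ℝ) × R4 => dsp J T G χ z.1 z.2.1 z.2.2) =ᶠ[𝓝 (a, b, y)]
        fun _ => 0 := by
      have e1 : ∀ᶠ z : (ℝ × ℝ) × (ℝ × ℝ) × R4 in 𝓝 (a, b, y), z.1 ∈ A₁ :=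
        continuous_fst.continuousAt.eventually hA₁
      have e2 : ∀ᶠ z : (ℝ × ℝ) × (ℝ × ℝ) × R4 in 𝓝 (a, b, y), ((z.1, z.2.2) : (ℝ × ℝ) × R4) ∉
          (fun z : (ℝ × ℝ) × R4 => (z.1, J z.1 z.2)) '' (A₁ ×ˢ tsupport χ) :=
        (hC.isClosed.isOpen_compl.preimage hc0).mem_nhds hn
      filter_upwards [e1, e2] with z h1 h2
      refine dsp_zero fun h3 => ?_
      by_contra h4
      apply h2
      refine ⟨(z.1, G (z.1, z.2.2)), ⟨h1, subset_tsupport χ h4⟩, ?_⟩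
      have := (hD.fro _ h3).2
      exact Prod.ext rfl this
    exact contDiffAt_const.congr_of_eventuallyEq e

/-- the support -/
theorem dsp_supp (hD : Dat Q L V U J S T G A N' N χ) {a b : ℝ × ℝ} (ha : a ∈ Q) (hb : b ∈ Q)
    {y : R4} (hy : y ∉ (fun z : (ℝ × ℝ) × R4 => J z.1 z.2) '' (Q ×ˢ (tsupport χ \ V))) :
    dsp J T G χ a b y = 0 := by
  by_cases hT : (a, y) ∈ T
  · by_cases hp : G (a, y) ∈ tsupport χ
    · by_cases hV : G (a, y) ∈ V
      · unfold dsp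
        rw [if_pos hT, hD.froz a ha b hb _ hV, sub_self, smul_zero]
      · exfalso
        exact hy ⟨(a, G (a, y)), ⟨ha, hp, hV⟩, (hD.fro _ hT).2⟩
    · exact dsp_zero fun _ => image_eq_zero_of_notMem_tsupport hp
  · exact dsp_zero fun h => absurd h hT

theorem dsp_germ (hD : Dat Q L V U J S T G A N' N χ) {a b : ℝ × ℝ} (ha : a ∈ Q)
    {p : R4} (hp : p ∈ N) : J a p + dsp J T G χ a b (J a p) = J b p := by
  have hp' : p ∈ N' := by
    apply hD.sub
    apply subset_tsupport χ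
    rw [Function.mem_support, hD.one p hp]
    exact one_ne_zero
  obtain ⟨h1, h2⟩ := hD.into (a, p) (hD.box a (hD.QA ha) p hp').1
  unfold dsp
  rw [if_pos h1, h2, hD.one p hp, one_smul]
  abel

/-- step (2): short displacements are contractions, for parameters in an open set -/
theorem exists_eta (hD : Dat Q L V U J S T G A N' N χ) (hQ : IsCompact Q) :
    ∃ (η : ℝ) (O : Set ((ℝ × ℝ) × (ℝ × ℝ))), 0 < η ∧ IsOpen O ∧
      (∀ a ∈ Q, ∀ b ∈ Q, dist b a < η → (a, b) ∈ O) ∧ (∀ z ∈ O, z.1 ∈ A ∧ z.2 ∈ A) ∧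
      ∀ z ∈ O, ∀ x y, ‖dsp J T G χ z.1 z.2 x - dsp J T G χ z.1 z.2 y‖ ≤ 3 / 4 * ‖x - y‖ := by
  set Ω : Set ((ℝ × ℝ) × (ℝ × ℝ) × R4) := A ×ˢ (A ×ˢ univ) with hΩ
  have hΩo : IsOpen Ω := hD.openA.prod (hD.openA.prod isOpen_univ)
  have hsm : ContDiffOn ℝ ∞
      (fun z : (ℝ × ℝ) × (ℝ × ℝ) × R4 => dsp J T G χ z.1 z.2.1 z.2.2) Ω := by
    rintro ⟨a, b, y⟩ ⟨ha, hb, -⟩
    exact (dsp_smooth hD ha hb y).contDiffWithinAt
  set I : R4 →L[ℝ] (ℝ × ℝ) × (ℝ × ℝ) × R4 :=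
    (ContinuousLinearMap.inr ℝ (ℝ × ℝ) ((ℝ × ℝ) × R4)).comp
      (ContinuousLinearMap.inr ℝ (ℝ × ℝ) R4) with hI
  set F : (ℝ × ℝ) × (ℝ × ℝ) × R4 → (R4 →L[ℝ] R4) := fun z =>
    (fderiv ℝ (fun z : (ℝ × ℝ) × (ℝ × ℝ) × R4 => dsp J T G χ z.1 z.2.1 z.2.2) z).comp I with hFdef
  have hFc : ContinuousOn F Ω := by
    have h1 := hsm.continuousOn_fderiv_of_isOpen hΩo (by simp)
    exact h1.clm_comp continuousOn_const
  have hFd : ∀ a ∈ A, ∀ b ∈ A, ∀ y, HasFDerivAt (dsp J T G χ a b) (F (a, b, y)) y := by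
    intro a ha b hb y
    have h1 := ((dsp_smooth hD ha hb y).differentiableAt (by simp)).hasFDerivAt
    have h2 : HasFDerivAt (fun q : R4 => ((a, b, q) : (ℝ × ℝ) × (ℝ × ℝ) × R4)) I y :=
      (hasFDerivAt_prodMk_right a (b, y)).comp y (hasFDerivAt_prodMk_right b y)
    exact h1.comp y h2
  have hF0 : ∀ a ∈ A, ∀ y, F (a, a, y) = 0 := by
    intro a ha y
    have h1 := hFd a ha a ha y
    have h2 : dsp J T G χ a a = fun _ => 0 := funext fun y => dsp_self a y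
    rw [h2] at h1
    exact h1.unique (hasFDerivAt_const (0 : R4) y)
  obtain ⟨A₁, cA₁, hQA₁, hA₁A⟩ := exists_compact_between hQ hD.openA hD.QA
  have hcJ : ContinuousOn (fun z : (ℝ × ℝ) × R4 => J z.1 z.2) (A₁ ×ˢ tsupport χ) := by
    refine hD.smJ.continuousOn.mono ?_
    rintro ⟨a, p⟩ ⟨h1, h2⟩
    exact (hD.box a (hA₁A h1) p (hD.sub h2)).1
  set K : Set R4 := (fun z : (ℝ × ℝ) × R4 => J z.1 z.2) '' (A₁ ×ˢ tsupport χ) with hK
  have hKc : IsCompact K := (cA₁.prod hD.cpt).image_of_continuousOn hcJ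
  have hF1 : ∀ a ∈ A₁, ∀ b ∈ A, ∀ y, y ∉ K → F (a, b, y) = 0 := by
    intro a ha b hb y hy
    have h1 := hFd a (hA₁A ha) b hb y
    have h2 : dsp J T G χ a b =ᶠ[𝓝 y] fun _ => 0 := by
      filter_upwards [hKc.isClosed.isOpen_compl.mem_nhds hy] with y' hy'
      refine dsp_zero fun h3 => ?_
      by_contra h4
      exact hy' ⟨(a, G (a, y')), ⟨ha, subset_tsupport χ h4⟩, (hD.fro _ h3).2⟩
    exact h1.unique ((hasFDerivAt_const (0 : R4) y).congr_of_eventuallyEq h2)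
  have hcomp : IsCompact (Q ×ˢ (Q ×ˢ K)) := hQ.prod (hQ.prod hKc)
  have huc := hcomp.uniformContinuousOn_of_continuous (hFc.mono (by
    rintro ⟨a, b, y⟩ ⟨ha, hb, -⟩
    exact ⟨hD.QA ha, hD.QA hb, mem_univ _⟩))
  rw [Metric.uniformContinuousOn_iff] at huc
  obtain ⟨η, hη, h⟩ := huc (3 / 4) (by norm_num)
  set O : Set ((ℝ × ℝ) × (ℝ × ℝ)) :=
    interior {z | z.1 ∈ A₁ ∧ z.2 ∈ A ∧ ∀ y ∈ K, ‖F (z.1, z.2, y)‖ < 3 / 4} with hO
  have hsub' : O ⊆ {z | z.1 ∈ A₁ ∧ z.2 ∈ A ∧ ∀ y ∈ K, ‖F (z.1, z.2, y)‖ < 3 / 4} :=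
    interior_subset
  have hsub : ∀ z ∈ O, z.1 ∈ A₁ ∧ z.2 ∈ A ∧ ∀ y ∈ K, ‖F (z.1, z.2, y)‖ < 3 / 4 :=
    fun z hz => hsub' hz
  refine ⟨η, O, hη, isOpen_interior, fun a ha b hb hab => ?_,
    fun z hz => ⟨hA₁A (hsub z hz).1, (hsub z hz).2.1⟩, fun z hz x y => ?_⟩
  · rw [hO, mem_interior_iff_mem_nhds]
    have e1 : ∀ᶠ z : (ℝ × ℝ) × (ℝ × ℝ) in 𝓝 (a, b), z.1 ∈ A₁ :=
      continuous_fst.continuousAt.eventually (mem_interior_iff_mem_nhds.1 (hQA₁ ha))
    have e2 : ∀ᶠ z : (ℝ × ℝ) × (ℝ × ℝ) in 𝓝 (a, b), z.2 ∈ A :=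
      continuous_snd.continuousAt.eventually (hD.openA.mem_nhds (hD.QA hb))
    have e3 : ∀ᶠ z : (ℝ × ℝ) × (ℝ × ℝ) in 𝓝 (a, b), ∀ y ∈ K, ‖F (z.1, z.2, y)‖ < 3 / 4 := by
      apply hKc.eventually_forall_of_forall_eventually
      intro y hy
      have h1 := h (a, b, y) ⟨ha, hb, hy⟩ (a, a, y) ⟨ha, ha, hy⟩ (by
        have e : dist ((a, b, y) : (ℝ × ℝ) × (ℝ × ℝ) × R4) (a, a, y) = dist b a := by
          simp [Prod.dist_eq]
        rw [e]
        exact hab)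
      rw [hF0 a (hD.QA ha), dist_zero_right] at h1
      have h2 : ContinuousAt (fun z : ((ℝ × ℝ) × (ℝ × ℝ)) × R4 => F (z.1.1, z.1.2, z.2))
          ((a, b), y) := by
        have h3 : ContinuousAt F (a, b, y) :=
          hFc.continuousAt (hΩo.mem_nhds ⟨hD.QA ha, hD.QA hb, mem_univ _⟩)
        have h4 : Continuous (fun z : ((ℝ × ℝ) × (ℝ × ℝ)) × R4 =>
            ((z.1.1, z.1.2, z.2) : (ℝ × ℝ) × (ℝ × ℝ) × R4)) := by fun_prop
        exact ContinuousAt.comp (g := F) (x := ((a, b), y))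
          (f := fun z : ((ℝ × ℝ) × (ℝ × ℝ)) × R4 =>
            ((z.1.1, z.1.2, z.2) : (ℝ × ℝ) × (ℝ × ℝ) × R4)) h3 h4.continuousAt
      exact (h2.norm).eventually_lt_const h1
    filter_upwards [e1, e2, e3] with z h1 h2 h3
    exact ⟨h1, h2, h3⟩
  · obtain ⟨h1, h2, h3⟩ := hsub z hz
    have hbd : ∀ y : R4, ‖F (z.1, z.2, y)‖ ≤ 3 / 4 := by
      intro y
      by_cases hy : y ∈ K
      · exact (h3 y hy).le
      · rw [hF1 _ h1 _ h2 y hy, norm_zero]
        norm_num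
    exact convex_univ.norm_image_sub_le_of_norm_hasFDerivWithin_le
      (fun w _ => (hFd _ (hA₁A h1) _ h2 w).hasFDerivWithinAt) (fun w _ => hbd w)
      (mem_univ y) (mem_univ x)

/-- the points of the segment -/
def ip (n : ℕ) (a b : ℝ × ℝ) (k : ℕ) : ℝ × ℝ := a + ((k : ℝ) / n) • (b - a)

theorem ip_zero (n : ℕ) (a b : ℝ × ℝ) : ip n a b 0 = a := by
  unfold ip
  simp

theorem ip_last {n : ℕ} (hn : 0 < n) (a b : ℝ × ℝ) : ip n a b n = b := by
  unfold ip
  rw [div_self (by exact_mod_cast hn.ne'), one_smul]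
  abel

theorem ip_self (n : ℕ) (a : ℝ × ℝ) (k : ℕ) : ip n a a k = a := by
  unfold ip
  simp

theorem ip_mem (hc : Convex ℝ Q) {n k : ℕ} {a b : ℝ × ℝ} (ha : a ∈ Q) (hb : b ∈ Q) (hk : k ≤ n) :
    ip n a b k ∈ Q := by
  apply hc.add_smul_sub_mem ha hb
  refine ⟨by positivity, ?_⟩
  apply div_le_one_of_le₀ _ (by positivity)
  exact_mod_cast hk

theorem exists_n (hQ : IsCompact Q) {η : ℝ} (hη : 0 < η) : ∃ n : ℕ, 0 < n ∧ ∀ a ∈ Q, ∀ b ∈ Q,
    ∀ k : ℕ, dist (ip n a b (k + 1)) (ip n a b k) < η := by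
  obtain ⟨R, hR⟩ := hQ.isBounded.exists_norm_le
  obtain ⟨n, hn⟩ := exists_nat_gt ((2 * |R| + 1) / η)
  have hn0 : (0 : ℝ) < n := lt_trans (by positivity) hn
  refine ⟨n, by exact_mod_cast hn0, fun a ha b hb k => ?_⟩
  have e : ip n a b (k + 1) - ip n a b k = (1 / (n : ℝ)) • (b - a) := by
    unfold ip
    rw [add_sub_add_left_eq_sub, ← sub_smul]
    push_cast
    rw [← sub_div, add_sub_cancel_left]
  rw [dist_eq_norm, e, norm_smul, Real.norm_eq_abs, abs_of_pos (show (0 : ℝ) < 1 / n by positivity)]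
  have h1 : ‖b - a‖ ≤ 2 * |R| := by
    have h2 := norm_sub_le b a
    have h3 := hR a ha
    have h4 := hR b hb
    have h5 := le_abs_self R
    linarith
  rw [div_lt_iff₀ hη] at hn
  rw [one_div, inv_mul_lt_iff₀ hn0]
  linarith

/-- the chain -/
def chn (J : ℝ × ℝ → R4 → R4) (T : Set ((ℝ × ℝ) × R4)) (G : (ℝ × ℝ) × R4 → R4) (χ : R4 → ℝ)
    (n : ℕ) (a b : ℝ × ℝ) : ℕ → R4 → R4
  | 0, x => x
  | k + 1, x => chn J T G χ n a b k x +
      dsp J T G χ (ip n a b k) (ip n a b (k + 1)) (chn J T G χ n a b k x)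

theorem chn_self (n : ℕ) (a : ℝ × ℝ) (k : ℕ) (x : R4) : chn J T G χ n a a k x = x := by
  induction k with
  | zero => rfl
  | succ k ih =>
    change chn J T G χ n a a k x +
      dsp J T G χ (ip n a a k) (ip n a a (k + 1)) (chn J T G χ n a a k x) = x
    rw [ih, ip_self, ip_self, dsp_self, add_zero]

theorem chn_supp (hD : Dat Q L V U J S T G A N' N χ) (hc : Convex ℝ Q) {n : ℕ} {a b : ℝ × ℝ}
    (ha : a ∈ Q) (hb : b ∈ Q) {x : R4}
    (hx : x ∉ (fun z : (ℝ × ℝ) × R4 => J z.1 z.2) '' (Q ×ˢ (tsupport χ \ V))) (k : ℕ)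
    (hk : k ≤ n) : chn J T G χ n a b k x = x := by
  induction k with
  | zero => rfl
  | succ k ih =>
    change chn J T G χ n a b k x +
      dsp J T G χ (ip n a b k) (ip n a b (k + 1)) (chn J T G χ n a b k x) = x
    rw [ih (by omega), dsp_supp hD (ip_mem hc ha hb (by omega)) (ip_mem hc ha hb hk) hx, add_zero]

theorem chn_germ (hD : Dat Q L V U J S T G A N' N χ) (hc : Convex ℝ Q) {n : ℕ} {a b : ℝ × ℝ}
    (ha : a ∈ Q) (hb : b ∈ Q) {p : R4} (hp : p ∈ N) (k : ℕ) (hk : k ≤ n) :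
    chn J T G χ n a b k (J a p) = J (ip n a b k) p := by
  induction k with
  | zero => rw [ip_zero]; rfl
  | succ k ih =>
    change chn J T G χ n a b k (J a p) +
      dsp J T G χ (ip n a b k) (ip n a b (k + 1)) (chn J T G χ n a b k (J a p)) = _
    rw [ih (by omega)]
    exact dsp_germ hD (ip_mem hc ha hb (by omega)) hp

/-- the inverse chain -/
def chv (f' : ((ℝ × ℝ) × (ℝ × ℝ)) × R4 → R4) (n : ℕ) (a b : ℝ × ℝ) : ℕ → R4 → R4
  | 0, x => x
  | k + 1, x => chv f' n a b k (f' ((ip n a b k, ip n a b (k + 1)), x))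

theorem ip_smooth (n k : ℕ) :
    ContDiff ℝ ∞ (fun z : (ℝ × ℝ) × (ℝ × ℝ) => ip n z.1 z.2 k) := by
  unfold ip
  fun_prop

/-- the steps are in `O` -/
def OO (O : Set ((ℝ × ℝ) × (ℝ × ℝ))) (n : ℕ) : Set ((ℝ × ℝ) × (ℝ × ℝ)) :=
  ⋂ k : Fin n, (fun z => (ip n z.1 z.2 k, ip n z.1 z.2 (k + 1))) ⁻¹' O

theorem isOpen_OO {O : Set ((ℝ × ℝ) × (ℝ × ℝ))} (hO : IsOpen O) (n : ℕ) : IsOpen (OO O n) := by
  refine isOpen_iInter_of_finite fun k => hO.preimage ?_
  exact (ip_smooth n k).continuous.prodMk (ip_smooth n (k + 1)).continuous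

theorem mem_OO {O : Set ((ℝ × ℝ) × (ℝ × ℝ))} {n k : ℕ} {z : (ℝ × ℝ) × (ℝ × ℝ)}
    (hz : z ∈ OO O n) (hk : k < n) : (ip n z.1 z.2 k, ip n z.1 z.2 (k + 1)) ∈ O :=
  mem_iInter.1 hz ⟨k, hk⟩

theorem chn_smooth (hD : Dat Q L V U J S T G A N' N χ) {O : Set ((ℝ × ℝ) × (ℝ × ℝ))}
    (hOA : ∀ z ∈ O, z.1 ∈ A ∧ z.2 ∈ A) {n : ℕ} (k : ℕ) (hk : k ≤ n) :
    ContDiffOn ℝ ∞ (fun z : ((ℝ × ℝ) × (ℝ × ℝ)) × R4 => chn J T G χ n z.1.1 z.1.2 k z.2)
      (OO O n ×ˢ univ) := by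
  induction k with
  | zero => exact contDiffOn_snd
  | succ k ih =>
    have ih' := ih (by omega)
    change ContDiffOn ℝ ∞ (fun z : ((ℝ × ℝ) × (ℝ × ℝ)) × R4 => chn J T G χ n z.1.1 z.1.2 k z.2 +
      dsp J T G χ (ip n z.1.1 z.1.2 k) (ip n z.1.1 z.1.2 (k + 1)) (chn J T G χ n z.1.1 z.1.2 k z.2))
      (OO O n ×ˢ univ)
    refine ih'.add ?_
    intro z hz
    have hm := hOA _ (mem_OO hz.1 (show k < n by omega))
    have h1 := dsp_smooth hD hm.1 hm.2 (chn J T G χ n z.1.1 z.1.2 k z.2)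
    have h2 : ContDiffWithinAt ℝ ∞ (fun z : ((ℝ × ℝ) × (ℝ × ℝ)) × R4 =>
        ((ip n z.1.1 z.1.2 k, ip n z.1.1 z.1.2 (k + 1), chn J T G χ n z.1.1 z.1.2 k z.2) :
          (ℝ × ℝ) × (ℝ × ℝ) × R4)) (OO O n ×ˢ univ) z :=
      (((ip_smooth n k).comp contDiff_fst).contDiffAt.contDiffWithinAt).prodMk
        ((((ip_smooth n (k + 1)).comp contDiff_fst).contDiffAt.contDiffWithinAt).prodMk (ih' z hz))
    exact ContDiffAt.comp_contDiffWithinAt (f := fun z : ((ℝ × ℝ) × (ℝ × ℝ)) × R4 =>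
        ((ip n z.1.1 z.1.2 k, ip n z.1.1 z.1.2 (k + 1), chn J T G χ n z.1.1 z.1.2 k z.2) :
          (ℝ × ℝ) × (ℝ × ℝ) × R4)) z h1 h2

theorem chv_smooth {O : Set ((ℝ × ℝ) × (ℝ × ℝ))} {f' : ((ℝ × ℝ) × (ℝ × ℝ)) × R4 → R4}
    (hf : ContDiffOn ℝ ∞ f' (O ×ˢ univ)) {n : ℕ} (k : ℕ) (hk : k ≤ n) :
    ContDiffOn ℝ ∞ (fun z : ((ℝ × ℝ) × (ℝ × ℝ)) × R4 => chv f' n z.1.1 z.1.2 k z.2)
      (OO O n ×ˢ univ) := by
  induction k with
  | zero => exact contDiffOn_snd
  | succ k ih =>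
    have ih' := ih (by omega)
    have h1 : ContDiffOn ℝ ∞ (fun z : ((ℝ × ℝ) × (ℝ × ℝ)) × R4 =>
        ((z.1, f' ((ip n z.1.1 z.1.2 k, ip n z.1.1 z.1.2 (k + 1)), z.2)) :
          ((ℝ × ℝ) × (ℝ × ℝ)) × R4)) (OO O n ×ˢ univ) := by
      refine contDiffOn_fst.prodMk ?_
      have h2 : ContDiff ℝ ∞ (fun z : ((ℝ × ℝ) × (ℝ × ℝ)) × R4 =>
          (((ip n z.1.1 z.1.2 k, ip n z.1.1 z.1.2 (k + 1)), z.2) :
          ((ℝ × ℝ) × (ℝ × ℝ)) × R4)) :=
        (((ip_smooth n k).comp contDiff_fst).prodMk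
          ((ip_smooth n (k + 1)).comp contDiff_fst)).prodMk contDiff_snd
      exact hf.comp h2.contDiffOn fun z hz => ⟨mem_OO hz.1 (by omega), mem_univ _⟩
    exact ih'.comp h1 fun z hz => ⟨hz.1, mem_univ _⟩

theorem chv_inv {O : Set ((ℝ × ℝ) × (ℝ × ℝ))} {f' : ((ℝ × ℝ) × (ℝ × ℝ)) × R4 → R4}
    (hf : ∀ e ∈ O, ∀ x, f' (e, x) + dsp J T G χ e.1 e.2 (f' (e, x)) = x ∧
      f' (e, x + dsp J T G χ e.1 e.2 x) = x) {n : ℕ} {a b : ℝ × ℝ} (hab : (a, b) ∈ OO O n)
    (k : ℕ) (hk : k ≤ n) (x : R4) :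
    chn J T G χ n a b k (chv f' n a b k x) = x ∧ chv f' n a b k (chn J T G χ n a b k x) = x := by
  induction k generalizing x with
  | zero => exact ⟨rfl, rfl⟩
  | succ k ih =>
    have hm : (ip n a b k, ip n a b (k + 1)) ∈ O := mem_OO hab (show k < n by omega)
    constructor
    · change chn J T G χ n a b k (chv f' n a b k (f' ((ip n a b k, ip n a b (k + 1)), x))) +
        dsp J T G χ (ip n a b k) (ip n a b (k + 1))
          (chn J T G χ n a b k (chv f' n a b k (f' ((ip n a b k, ip n a b (k + 1)), x)))) = x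
      rw [(ih (by omega) _).1]
      exact (hf _ hm x).1
    · change chv f' n a b k (f' ((ip n a b k, ip n a b (k + 1)), chn J T G χ n a b k x +
        dsp J T G χ (ip n a b k) (ip n a b (k + 1)) (chn J T G χ n a b k x))) = x
      have h1 := (hf _ hm (chn J T G χ n a b k x)).2
      rw [h1]
      exact (ih (by omega) x).2

end

end

end CH4

open CH4 in
/-- **CH4.** -/
theorem m_CH4 (pt : StPTJ) : StCH4J := by
  intro Q L V U J hQ hc hL hV hU hF
  obtain ⟨S, T, G, A, N', N, χ, hD⟩ := exists_dat hQ hL hV hU hF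
  obtain ⟨η, O, hη, hO, h1, hOA, h3⟩ := exists_eta hD hQ
  obtain ⟨n, hn, h2⟩ := exists_n hQ hη
  obtain ⟨f', hf1, hf2⟩ := pt ((ℝ × ℝ) × (ℝ × ℝ)) R4 O
    (fun z => dsp J T G χ z.1.1 z.1.2 z.2) hO (by
      intro z hz
      have hm := hOA _ hz.1
      have k1 := dsp_smooth hD hm.1 hm.2 z.2
      have k2 : ContDiff ℝ ∞ (fun z : ((ℝ × ℝ) × (ℝ × ℝ)) × R4 =>
        ((z.1.1, z.1.2, z.2) : (ℝ × ℝ) × (ℝ × ℝ) × R4)) := by fun_prop
      exact (ContDiffAt.comp (f := fun z : ((ℝ × ℝ) × (ℝ × ℝ)) × R4 =>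
        ((z.1.1, z.1.2, z.2) : (ℝ × ℝ) × (ℝ × ℝ) × R4)) z k1 k2.contDiffAt).contDiffWithinAt)
    (fun e he x y => h3 e he x y)
  refine ⟨fun a b => chn J T G χ n a b n, fun a b => chv f' n a b n, OO O n, isOpen_OO hO n, ?_,
    chn_smooth hD hOA n le_rfl, chv_smooth hf1 n le_rfl,
    fun a b hab x => chv_inv hf2 hab n le_rfl x, fun a _ x => chn_self n a n x, N, hD.openN, hD.LN,
    (fun z : (ℝ × ℝ) × R4 => J z.1 z.2) '' (Q ×ˢ (tsupport χ \ V)), ?_, ?_, ?_⟩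
  · rintro ⟨a, b⟩ ⟨ha, hb⟩
    refine mem_iInter.2 fun k => ?_
    exact h1 _ (ip_mem hc ha hb k.2.le) _ (ip_mem hc ha hb k.2) (h2 a ha b hb k)
  · refine (hQ.prod (hD.cpt.diff hV)).image_of_continuousOn (hD.smJ.continuousOn.mono ?_)
    rintro ⟨a, p⟩ ⟨ha, hp⟩
    exact (hD.box a (hD.QA ha) p (hD.sub hp.1)).1
  · rintro _ ⟨⟨a, p⟩, ⟨ha, hp⟩, rfl⟩
    exact (hD.box a (hD.QA ha) p (hD.sub hp.1)).2 hp.2
  · intro a ha b hb
    refine ⟨fun x hx => chn_supp hD hc ha hb hx n le_rfl, fun p hp => ?_⟩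
    change chn J T G χ n a b n (J a p) = J b p
    rw [chn_germ hD hc ha hb hp n le_rfl, ip_last hn]

end Pool.Agent.Helper27.H


end

/-! ## Helper27.BI.R.Rad -/

section

/-!
# Project BI, stage 4 (R): radial maps with a two-sided profile

The proofs for general profile functions follow `Pool/Agent/Helper34/BI/M_RE.lean` (helper34).
-/

set_option autoImplicit false

open scoped Manifold ContDiff Topology ComplexConjugate
open Set Pool.Agent.Helper65.Barb Pool.Agent.Helper18.BI Pool.Agent.Helper27.BI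

namespace Pool.Agent.Helper27.R

namespace Rad

open R2 (rsq_eq rsq_contDiff isOpen_pos line_deriv)

/-- a profile function -/
structure Prf (f : ℝ → ℝ) : Prop where
  smooth : ContDiff ℝ ∞ f
  pos : ∀ q, 0 < deriv f q
  pos0 : ∀ q, 0 < q → 0 < f q

/-- the factor -/
noncomputable def mf (f : ℝ → ℝ) (c : ℝ) (p : R4) : ℝ := √(f (rsq c p) / rsq c p)

/-- the radial map with profile `f` -/
noncomputable def rad (f : ℝ → ℝ) (c : ℝ) (p : R4) : R4 :=
  (p.1, c + mf f c p * (p.2.1 - c), ((mf f c p : ℝ) : ℂ) * p.2.2)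

theorem rad_eq (f : ℝ → ℝ) (c : ℝ) (p : R4) :
    rad f c p = (p.1, c + mf f c p * (p.2.1 - c), ((mf f c p : ℝ) : ℂ) * p.2.2) := rfl

variable {f : ℝ → ℝ}

theorem Prf.mono (hf : Prf f) : StrictMono f := strictMono_of_deriv_pos hf.pos

theorem Prf.hasDeriv (hf : Prf f) (q : ℝ) : HasDerivAt f (deriv f q) q :=
  (hf.smooth.differentiable (by simp) q).hasDerivAt

theorem arg_pos (hf : Prf f) (c : ℝ) (p : R4) (hp : 0 < rsq c p) :
    0 < f (rsq c p) / rsq c p :=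
  div_pos (hf.pos0 _ hp) hp

theorem mf_pos (hf : Prf f) (c : ℝ) (p : R4) (hp : 0 < rsq c p) :
    0 < mf f c p := Real.sqrt_pos.2 (arg_pos hf c p hp)

theorem mf_sq (hf : Prf f) (c : ℝ) (p : R4) (hp : 0 < rsq c p) :
    mf f c p ^ 2 * rsq c p = f (rsq c p) := by
  rw [mf, Real.sq_sqrt (arg_pos hf c p hp).le, div_mul_cancel₀ _ hp.ne']

theorem rsq_rad (hf : Prf f) (c : ℝ) (p : R4) (hp : 0 < rsq c p) :
    rsq c (rad f c p) = f (rsq c p) := by
  rw [← mf_sq hf c p hp, rad_eq, rsq_eq, rsq_eq]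
  simp only [Complex.mul_re, Complex.mul_im, Complex.ofReal_re, Complex.ofReal_im]
  ring

theorem mf_contDiffOn (hf : Prf f) (c : ℝ) :
    ContDiffOn ℝ ∞ (mf f c) {p : R4 | 0 < rsq c p} := by
  have h2 : ContDiffOn ℝ ∞ (fun p : R4 => f (rsq c p) / rsq c p) {p : R4 | 0 < rsq c p} :=
    (hf.smooth.comp (rsq_contDiff c)).contDiffOn.div (rsq_contDiff c).contDiffOn
      (fun p hp => (ne_of_gt hp))
  exact h2.sqrt (fun p hp => (arg_pos hf c p hp).ne')

theorem rad_contDiffOn (hf : Prf f) (c : ℝ) :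
    ContDiffOn ℝ ∞ (rad f c) {p : R4 | 0 < rsq c p} := by
  have hm := mf_contDiffOn hf c
  have h2 : ContDiff ℝ ∞ (fun p : R4 => p.2.1 - c) :=
    (contDiff_fst.comp contDiff_snd).sub contDiff_const
  have h3 : ContDiffOn ℝ ∞ (fun p : R4 => ((mf f c p : ℝ) : ℂ)) {p : R4 | 0 < rsq c p} :=
    Complex.ofRealCLM.contDiff.comp_contDiffOn hm
  exact contDiff_fst.contDiffOn.prodMk ((contDiffOn_const.add (hm.mul h2.contDiffOn)).prodMk
    (h3.mul (contDiff_snd.comp contDiff_snd).contDiffOn))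

theorem rad_fderiv (hf : Prf f) (c : ℝ) (p v : R4)
    (hp : 0 < rsq c p) (hv : fderiv ℝ (rad f c) p v = 0) : v = 0 := by
  have hnhd : {p : R4 | 0 < rsq c p} ∈ 𝓝 p := (isOpen_pos c).mem_nhds hp
  have hd : DifferentiableAt ℝ (rad f c) p :=
    ((rad_contDiffOn hf c).contDiffAt hnhd).differentiableAt (by simp)
  have hdm : DifferentiableAt ℝ (mf f c) p :=
    ((mf_contDiffOn hf c).contDiffAt hnhd).differentiableAt (by simp)
  obtain ⟨s, a, w⟩ := p
  obtain ⟨σ, b, z⟩ := v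
  have hline : HasDerivAt (fun t : ℝ => ((s, a, w) : R4) + t • ((σ, b, z) : R4)) (σ, b, z) 0 := by
    have := ((hasDerivAt_id (0 : ℝ)).smul_const ((σ, b, z) : R4)).const_add ((s, a, w) : R4)
    simpa using this
  have hline0 : ((s, a, w) : R4) + (0 : ℝ) • ((σ, b, z) : R4) = (s, a, w) := by
    rw [zero_smul, add_zero]
  have hc : HasDerivAt (fun t : ℝ => rad f c ((s, a, w) + t • (σ, b, z))) 0 0 := by
    have h2 : HasFDerivAt (rad f c) (fderiv ℝ (rad f c) (s, a, w))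
        (((s, a, w) : R4) + (0 : ℝ) • ((σ, b, z) : R4)) := by
      rw [hline0]
      exact hd.hasFDerivAt
    have h3 := h2.comp_hasDerivAt (0 : ℝ) hline
    rw [hv] at h3
    exact h3
  obtain ⟨μ, hμ⟩ : ∃ μ : ℝ, HasDerivAt (fun t : ℝ => mf f c ((s, a, w) + t • (σ, b, z))) μ 0 := by
    have h2 : HasFDerivAt (mf f c) (fderiv ℝ (mf f c) (s, a, w))
        (((s, a, w) : R4) + (0 : ℝ) • ((σ, b, z) : R4)) := by
      rw [hline0]
      exact hdm.hasFDerivAt
    have h3 := h2.comp_hasDerivAt (0 : ℝ) hline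
    exact ⟨_, h3⟩
  have e1 : ∀ t : ℝ, rad f c ((s, a, w) + t • (σ, b, z)) =
      (s + t * σ, c + mf f c ((s, a, w) + t • (σ, b, z)) * (a - c + t * b),
        ((mf f c ((s, a, w) + t • (σ, b, z)) : ℝ) : ℂ) * (w + t * z)) := by
    intro t
    rw [rad_eq]
    refine Prod.ext ?_ (Prod.ext ?_ ?_)
    · simp
    · simp only [Prod.fst_add, Prod.snd_add, Prod.smul_fst, Prod.smul_snd, smul_eq_mul]
      ring
    · simp
  simp only [e1] at hc
  have hσ : σ = 0 := by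
    have h2 := (ContinuousLinearMap.fst ℝ ℝ (ℝ × ℂ)).hasFDerivAt.comp_hasDerivAt (0 : ℝ) hc
    have h5 := (line_deriv s σ).unique h2
    simpa using h5
  set m : ℝ := mf f c (s, a, w) with hm
  have hm0 : 0 < m := mf_pos hf c _ hp
  have hma : mf f c (((s, a, w) : R4) + (0 : ℝ) • ((σ, b, z) : R4)) = m := by
    rw [hline0]
  have hb : μ * (a - c) + m * b = 0 := by
    have h2 := ((ContinuousLinearMap.fst ℝ ℝ ℂ).comp
      (ContinuousLinearMap.snd ℝ ℝ (ℝ × ℂ))).hasFDerivAt.comp_hasDerivAt (0 : ℝ) hc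
    have h3 := (hμ.mul (line_deriv (a - c) b)).const_add c
    have h4 := h3.unique h2
    rw [hma] at h4
    simpa using h4
  have hre : μ * w.re + m * z.re = 0 := by
    have h2 := (Complex.reCLM.comp ((ContinuousLinearMap.snd ℝ ℝ ℂ).comp
      (ContinuousLinearMap.snd ℝ ℝ (ℝ × ℂ)))).hasFDerivAt.comp_hasDerivAt (0 : ℝ) hc
    have h3 := hμ.mul (line_deriv w.re z.re)
    have e2 : ((Complex.reCLM.comp ((ContinuousLinearMap.snd ℝ ℝ ℂ).comp
        (ContinuousLinearMap.snd ℝ ℝ (ℝ × ℂ)))) ∘ fun t : ℝ =>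
        ((s + t * σ, c + mf f c ((s, a, w) + t • (σ, b, z)) * (a - c + t * b),
        ((mf f c ((s, a, w) + t • (σ, b, z)) : ℝ) : ℂ) * (w + t * z)) : R4)) =
        ((fun t : ℝ => mf f c ((s, a, w) + t • (σ, b, z))) * fun t : ℝ => w.re + t * z.re) := by
      ext t
      simp
    rw [e2] at h2
    have h4 := h3.unique h2
    rw [hma] at h4
    simpa using h4
  have him : μ * w.im + m * z.im = 0 := by
    have h2 := (Complex.imCLM.comp ((ContinuousLinearMap.snd ℝ ℝ ℂ).comp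
      (ContinuousLinearMap.snd ℝ ℝ (ℝ × ℂ)))).hasFDerivAt.comp_hasDerivAt (0 : ℝ) hc
    have h3 := hμ.mul (line_deriv w.im z.im)
    have e2 : ((Complex.imCLM.comp ((ContinuousLinearMap.snd ℝ ℝ ℂ).comp
        (ContinuousLinearMap.snd ℝ ℝ (ℝ × ℂ)))) ∘ fun t : ℝ =>
        ((s + t * σ, c + mf f c ((s, a, w) + t • (σ, b, z)) * (a - c + t * b),
        ((mf f c ((s, a, w) + t • (σ, b, z)) : ℝ) : ℂ) * (w + t * z)) : R4)) =
        ((fun t : ℝ => mf f c ((s, a, w) + t • (σ, b, z))) * fun t : ℝ => w.im + t * z.im) := by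
      ext t
      simp
    rw [e2] at h2
    have h4 := h3.unique h2
    rw [hma] at h4
    simpa using h4
  -- the derivative of the squared radius
  set D : ℝ := 2 * ((a - c) * b + w.re * z.re + w.im * z.im) with hD
  have hR : HasDerivAt (fun t : ℝ => rsq c ((s, a, w) + t • (σ, b, z))) D 0 := by
    have e2 : (fun t : ℝ => rsq c ((s, a, w) + t • (σ, b, z))) = fun t : ℝ =>
        (a - c + t * b) ^ 2 + (w.re + t * z.re) ^ 2 + (w.im + t * z.im) ^ 2 := by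
      ext t
      rw [rsq_eq]
      simp
      ring
    rw [e2]
    have h3 := (((line_deriv (a - c) b).pow 2).add ((line_deriv w.re z.re).pow 2)).add
      ((line_deriv w.im z.im).pow 2)
    refine h3.congr_deriv ?_
    simp only [zero_mul, add_zero, hD]
    ring
  have hq : HasDerivAt (fun t : ℝ => f (rsq c ((s, a, w) + t • (σ, b, z))))
      (deriv f (rsq c (s, a, w)) * D) 0 := by
    have h2 : HasDerivAt f (deriv f (rsq c (s, a, w)))
        (rsq c (((s, a, w) : R4) + (0 : ℝ) • ((σ, b, z) : R4))) := by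
      rw [hline0]
      exact hf.hasDeriv _
    exact h2.comp (0 : ℝ) hR
  have hq2 : HasDerivAt (fun t : ℝ => f (rsq c ((s, a, w) + t • (σ, b, z)))) 0 0 := by
    have h2 : HasFDerivAt (rsq c) (fderiv ℝ (rsq c) (rad f c (s, a, w)))
        (rad f c (((s, a, w) : R4) + (0 : ℝ) • ((σ, b, z) : R4))) := by
      rw [hline0]
      exact ((rsq_contDiff c).differentiable (by simp) _).hasFDerivAt
    have hc' : HasDerivAt (fun t : ℝ => rad f c ((s, a, w) + t • (σ, b, z))) 0 0 := by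
      simp only [e1]
      exact hc
    have h3 := h2.comp_hasDerivAt (0 : ℝ) hc'
    rw [map_zero] at h3
    refine h3.congr_of_eventuallyEq ?_
    have h4 : ∀ᶠ t : ℝ in 𝓝 0, ((s, a, w) : R4) + t • ((σ, b, z) : R4) ∈
        {p : R4 | 0 < rsq c p} := by
      have h5 : ContinuousAt (fun t : ℝ => ((s, a, w) : R4) + t • ((σ, b, z) : R4)) 0 :=
        hline.continuousAt
      apply h5.eventually_mem
      rw [hline0]
      exact hnhd
    filter_upwards [h4] with t ht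
    exact (rsq_rad hf c _ ht).symm
  have hD0 : D = 0 := by
    have h2 := hq.unique hq2
    rcases mul_eq_zero.1 h2 with h3 | h3
    · exact absurd h3 (hf.pos _).ne'
    · exact h3
  have hR0 : rsq c (s, a, w) = (a - c) ^ 2 + w.re ^ 2 + w.im ^ 2 := rfl
  have hμ0 : μ = 0 := by
    have h2 : μ * rsq c (s, a, w) = 0 := by
      have h3 : (μ * (a - c) + m * b) * (a - c) + (μ * w.re + m * z.re) * w.re +
          (μ * w.im + m * z.im) * w.im = μ * rsq c (s, a, w) + m * D / 2 := by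
        rw [hR0, hD]
        ring
      rw [hb, hre, him, hD0] at h3
      linarith
    rcases mul_eq_zero.1 h2 with h3 | h3
    · exact h3
    · exact absurd h3 hp.ne'
  have key : ∀ x y : ℝ, μ * x + m * y = 0 → y = 0 := by
    intro x y h
    rw [hμ0, zero_mul, zero_add] at h
    rcases mul_eq_zero.1 h with h3 | h3
    · exact absurd h3 hm0.ne'
    · exact h3
  have hb0 := key _ _ hb
  have hz : z = 0 := Complex.ext (key _ _ hre) (key _ _ him)
  rw [hσ, hb0, hz]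
  rfl

theorem rad_inj (hf : Prf f) (c : ℝ) :
    InjOn (rad f c) {p : R4 | 0 < rsq c p} := by
  intro p hp p' hp' h
  have hp : 0 < rsq c p := hp
  have hp' : 0 < rsq c p' := hp'
  have h2 : rsq c p = rsq c p' := by
    apply hf.mono.injective
    rw [← rsq_rad hf c p hp, ← rsq_rad hf c p' hp', h]
  have h3 : mf f c p = mf f c p' := by
    rw [mf, mf, h2]
  have hm := mf_pos hf c p' hp'
  rw [rad_eq, rad_eq, h3] at h
  obtain ⟨s, a, w⟩ := p
  obtain ⟨s', a', w'⟩ := p'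
  simp only [Prod.mk.injEq] at h
  obtain ⟨h4, h5, h6⟩ := h
  have h7 : mf f c (s', a', w') * (a - c) = mf f c (s', a', w') * (a' - c) := by linarith
  have h8 := mul_left_cancel₀ hm.ne' h7
  have h9 : ((mf f c (s', a', w') : ℝ) : ℂ) ≠ 0 := by exact_mod_cast hm.ne'
  have h10 := mul_left_cancel₀ h9 h6
  have h11 : a = a' := by linarith
  rw [h4, h10, h11]


/-- the radial map is an embedding off the vertical line -/
theorem rad_embOn (hf : Prf f) (c : ℝ) :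
    EmbOn Pool.Agent.Helper70.BI.I4 (rad f c) {p : R4 | 0 < rsq c p} := by
  rw [Pool.Agent.Helper70.BI.embOn_iff]
  refine ⟨fun p hp => ⟨?_, ?_⟩, rad_inj hf c⟩
  · filter_upwards [(isOpen_pos c).mem_nhds hp] with q hq
    exact (rad_contDiffOn hf c).contDiffAt ((isOpen_pos c).mem_nhds hq)
  · intro v v' h
    have h1 : fderiv ℝ (rad f c) p (v - v') = 0 := by rw [map_sub, h, sub_self]
    exact sub_eq_zero.1 (rad_fderiv hf c p _ hp h1)

/-! ### the profile -/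

/-- the two-sided profile: the identity near `1/25`, with small derivative away from `1/25` -/
noncomputable def fr (δ q : ℝ) : ℝ :=
  q + (1 - δ) * δ * ramp ((1 / 25 - δ - q) / δ) - (1 - δ) * δ * ramp ((q - (1 / 25 + δ)) / δ)

theorem fr_deriv {δ : ℝ} (h0 : 0 < δ) (q : ℝ) :
    HasDerivAt (fr δ) (1 - (1 - δ) * step ((1 / 25 - δ - q) / δ) -
      (1 - δ) * step ((q - (1 / 25 + δ)) / δ)) q := by
  have h1 : HasDerivAt (fun q : ℝ => (1 / 25 - δ - q) / δ) (-1 / δ) q := by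
    have := ((hasDerivAt_id q).const_sub (1 / 25 - δ)).div_const δ
    simpa using this
  have h2 : HasDerivAt (fun q : ℝ => (q - (1 / 25 + δ)) / δ) (1 / δ) q := by
    have := ((hasDerivAt_id q).sub_const (1 / 25 + δ)).div_const δ
    simpa using this
  have h3 := ((m_R0.2.1 ((1 / 25 - δ - q) / δ)).comp q h1).const_mul ((1 - δ) * δ)
  have h4 := ((m_R0.2.1 ((q - (1 / 25 + δ)) / δ)).comp q h2).const_mul ((1 - δ) * δ)
  have h5 := ((hasDerivAt_id q).add h3).sub h4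
  refine h5.congr_deriv ?_
  field_simp
  ring

theorem fr_smooth (δ : ℝ) : ContDiff ℝ ∞ (fr δ) := by
  have h1 : ContDiff ℝ ∞ (fun q : ℝ => ramp ((1 / 25 - δ - q) / δ)) :=
    m_R0.1.comp (by fun_prop)
  have h2 : ContDiff ℝ ∞ (fun q : ℝ => ramp ((q - (1 / 25 + δ)) / δ)) :=
    m_R0.1.comp (by fun_prop)
  exact (contDiff_id.add (contDiff_const.mul h1)).sub (contDiff_const.mul h2)

theorem fr_eq {δ : ℝ} (h0 : 0 < δ) {q : ℝ} (h1 : 1 / 25 - δ ≤ q) (h2 : q ≤ 1 / 25 + δ) :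
    fr δ q = q := by
  have h3 : ramp ((1 / 25 - δ - q) / δ) = 0 :=
    m_R0.2.2.1 _ (div_nonpos_of_nonpos_of_nonneg (by linarith) h0.le)
  have h4 : ramp ((q - (1 / 25 + δ)) / δ) = 0 :=
    m_R0.2.2.1 _ (div_nonpos_of_nonpos_of_nonneg (by linarith) h0.le)
  unfold fr
  rw [h3, h4]
  ring

/-- bounds of the profile -/
theorem fr_bounds {δ : ℝ} (h0 : 0 < δ) (h1 : δ < 1 / 100) {q : ℝ} (hq : 0 ≤ q) (hq' : q ≤ 9) :
    1 / 25 - 3 * δ ≤ fr δ q ∧ fr δ q ≤ 1 / 25 + 12 * δ := by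
  obtain ⟨-, -, r0, rn, rl, ru⟩ := m_R0
  have hp : 0 < (1 - δ) * δ := mul_pos (by linarith) h0
  rcases le_total q (1 / 25) with hle | hle
  · have h4 : ramp ((q - (1 / 25 + δ)) / δ) = 0 :=
      r0 _ (div_nonpos_of_nonpos_of_nonneg (by linarith) h0.le)
    unfold fr
    rw [h4, mul_zero, sub_zero]
    set x := (1 / 25 - δ - q) / δ with hx
    have ex : x * δ = 1 / 25 - δ - q := div_mul_cancel₀ _ h0.ne'
    have l1 := rl x
    have l2 := rn x
    have k1 := mul_le_mul_of_nonneg_left l1 hp.le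
    constructor
    · have : (1 - δ) * δ * (x - 1) = (1 - δ) * (1 / 25 - δ - q) - (1 - δ) * δ := by
        rw [← ex]; ring
      nlinarith
    · rcases le_total x 0 with hx0 | hx0
      · rw [r0 x hx0]
        linarith
      · have l3 := ru x hx0
        have k3 := mul_le_mul_of_nonneg_left l3 hp.le
        have : (1 - δ) * δ * x = (1 - δ) * (1 / 25 - δ - q) := by rw [← ex]; ring
        nlinarith
  · have h4 : ramp ((1 / 25 - δ - q) / δ) = 0 :=
      r0 _ (div_nonpos_of_nonpos_of_nonneg (by linarith) h0.le)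
    unfold fr
    rw [h4, mul_zero, add_zero]
    set x := (q - (1 / 25 + δ)) / δ with hx
    have ex : x * δ = q - (1 / 25 + δ) := div_mul_cancel₀ _ h0.ne'
    have l1 := rl x
    have l2 := rn x
    have k1 := mul_le_mul_of_nonneg_left l1 hp.le
    constructor
    · rcases le_total x 0 with hx0 | hx0
      · rw [r0 x hx0]
        linarith
      · have l3 := ru x hx0
        have k3 := mul_le_mul_of_nonneg_left l3 hp.le
        have : (1 - δ) * δ * x = (1 - δ) * (q - (1 / 25 + δ)) := by rw [← ex]; ring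
        have h7 : 0 ≤ δ * (q - (1 / 25 + δ)) := by
          rw [← ex]
          positivity
        nlinarith
    · have : (1 - δ) * δ * (x - 1) = (1 - δ) * (q - (1 / 25 + δ)) - (1 - δ) * δ := by
        rw [← ex]; ring
      nlinarith

theorem fr_pos0 {δ : ℝ} (h0 : 0 < δ) (h1 : δ < 1 / 100) {q : ℝ} (hq : 0 ≤ q) : 0 < fr δ q := by
  rcases le_total q 9 with h | h
  · have := (fr_bounds h0 h1 hq h).1
    linarith
  · obtain ⟨-, -, r0, rn, rl, ru⟩ := m_R0
    have hp : 0 < (1 - δ) * δ := mul_pos (by linarith) h0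
    have h4 : ramp ((1 / 25 - δ - q) / δ) = 0 :=
      r0 _ (div_nonpos_of_nonpos_of_nonneg (by linarith) h0.le)
    unfold fr
    rw [h4, mul_zero, add_zero]
    set x := (q - (1 / 25 + δ)) / δ with hx
    have ex : x * δ = q - (1 / 25 + δ) := div_mul_cancel₀ _ h0.ne'
    have hx0 : 0 ≤ x := by rw [hx]; apply div_nonneg _ h0.le; linarith
    have l3 := ru x hx0
    have k3 := mul_le_mul_of_nonneg_left l3 hp.le
    have : (1 - δ) * δ * x = (1 - δ) * (q - (1 / 25 + δ)) := by rw [← ex]; ring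
    nlinarith

theorem fr_prf {δ : ℝ} (h0 : 0 < δ) (h1 : δ < 1 / 100) : Prf (fr δ) := by
  refine ⟨fr_smooth δ, fun q => ?_, fun q hq => fr_pos0 h0 h1 hq.le⟩
  rw [(fr_deriv h0 q).deriv]
  have s1 := step_mem ((1 / 25 - δ - q) / δ)
  have s2 := step_mem ((q - (1 / 25 + δ)) / δ)
  have hd : 0 < 1 - δ := by linarith
  rcases le_total q (1 / 25) with hle | hle
  · have h4 : step ((q - (1 / 25 + δ)) / δ) = 0 :=
      step_of_nonpos (div_nonpos_of_nonpos_of_nonneg (by linarith) h0.le)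
    rw [h4]
    nlinarith [s1.2, s1.1]
  · have h4 : step ((1 / 25 - δ - q) / δ) = 0 :=
      step_of_nonpos (div_nonpos_of_nonpos_of_nonneg (by linarith) h0.le)
    rw [h4]
    nlinarith [s2.2, s2.1]

theorem rad_id {δ : ℝ} (h0 : 0 < δ) {c : ℝ} {p : R4} (h1 : 1 / 25 - δ ≤ rsq c p)
    (h2 : rsq c p ≤ 1 / 25 + δ) (hp : 0 < rsq c p) : rad (fr δ) c p = p := by
  have hm : mf (fr δ) c p = 1 := by
    unfold mf
    rw [fr_eq h0 h1 h2, div_self hp.ne', Real.sqrt_one]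
  rw [rad_eq, hm]
  refine Prod.ext rfl (Prod.ext ?_ ?_)
  · show c + 1 * (p.2.1 - c) = p.2.1
    ring
  · show ((1 : ℝ) : ℂ) * p.2.2 = p.2.2
    rw [Complex.ofReal_one, one_mul]

end Rad

end Pool.Agent.Helper27.R


end

/-! ## Helper27.BI.R.Par -/

section

/-!
# Project BI, stage 4 (R), module PAR: the class of a parallel copy of the fixed cuff
-/

set_option autoImplicit false

open scoped Manifold ContDiff Topology ComplexConjugate
open Set Filter Pool.Agent.Helper65.Barb Pool.Agent.Helper18.BI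
open Pool.Agent.Helper70.BI (I4 LD IsW MW ld_iff embOn_iff ld_comp embOn_comp)
open Pool.Agent.Helper27.H
open Pool.Agent.Helper18.BI.H (StHMain)

namespace Pool.Agent.Helper27.R

open Rad (rad fr fr_prf fr_bounds rad_embOn rad_id rsq_rad)

theorem continuous_rsq (c : ℝ) : Continuous (rsq c) := by
  unfold rsq nsq
  fun_prop

/-- the box around the sphere `sph 1` -/
def bx (δ : ℝ) : Set R4 := {p | |p.1 - 1 / 2| ≤ δ ∧ |rsq 1 p - 1 / 25| ≤ 12 * δ}

theorem bx_mono {δ δ' : ℝ} (h : δ ≤ δ') : bx δ ⊆ bx δ' := fun p hp =>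
  ⟨hp.1.trans h, hp.2.trans (by linarith)⟩

theorem isCompact_bx (δ : ℝ) (h0 : 0 < δ) (h1 : δ ≤ 1 / 100) : IsCompact (bx δ) := by
  have hcl : IsClosed (bx δ) :=
    (isClosed_le (f := fun p : R4 => |p.1 - 1 / 2|) (by fun_prop) continuous_const).inter
      (isClosed_le (f := fun p : R4 => |rsq 1 p - 1 / 25|)
        ((continuous_rsq 1).sub continuous_const).abs continuous_const)
  refine (isCompact_closedBall ((1 / 2, ((1 : ℝ), (0 : ℂ))) : R4) 1).of_isClosed_subset hcl ?_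
  rintro ⟨s, a, w⟩ ⟨h2, h3⟩
  have h4 : (a - 1) ^ 2 + w.re ^ 2 + w.im ^ 2 ≤ 1 := by
    have h5 : rsq 1 (s, a, w) = (a - 1) ^ 2 + w.re ^ 2 + w.im ^ 2 := rfl
    have := (abs_le.1 h3).2
    rw [h5] at this
    linarith
  have h2' : |s - 1 / 2| ≤ 1 := h2.trans (by linarith)
  rw [mem_closedBall_iff_norm]
  have e : ((s, a, w) : R4) - (1 / 2, ((1 : ℝ), (0 : ℂ))) = (s - 1 / 2, a - 1, w) := by
    refine Prod.ext rfl (Prod.ext rfl ?_)
    show w - 0 = w
    rw [sub_zero]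
  rw [e]
  refine norm_prod_le_iff.2 ⟨h2', norm_prod_le_iff.2 ⟨?_, ?_⟩⟩
  · show |a - 1| ≤ 1
    apply abs_le_one_iff_mul_self_le_one.2
    nlinarith [sq_nonneg w.re, sq_nonneg w.im]
  · show ‖w‖ ≤ 1
    have h6 : ‖w‖ ^ 2 = w.re ^ 2 + w.im ^ 2 := by
      rw [Complex.sq_norm, Complex.normSq_apply]
      ring
    have h7 : ‖w‖ ^ 2 ≤ 1 := by nlinarith [sq_nonneg (a - 1)]
    nlinarith [norm_nonneg w]

theorem exists_bx {O : Set R4} (hO : IsOpen O) (h : sph 1 ⊆ O) :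
    ∃ δ ∈ Ioo (0 : ℝ) (1 / 100), bx δ ⊆ O := by
  have hc : IsCompact (bx (1 / 200) \ O) :=
    (isCompact_bx _ (by norm_num) (by norm_num)).diff hO
  rcases (bx (1 / 200) \ O).eq_empty_or_nonempty with h0 | h0
  · exact ⟨1 / 200, by norm_num, sdiff_eq_empty.1 h0⟩
  have hcont : Continuous (fun p : R4 => max |p.1 - 1 / 2| |rsq 1 p - 1 / 25|) :=
    Continuous.max (by fun_prop) ((continuous_rsq 1).sub continuous_const).abs
  obtain ⟨x, hx, hmin⟩ := hc.exists_isMinOn h0 hcont.continuousOn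
  have hpos : 0 < max |x.1 - 1 / 2| |rsq 1 x - 1 / 25| := by
    by_contra hle
    push Not at hle
    have h1 : |x.1 - 1 / 2| ≤ 0 := (le_max_left _ _).trans hle
    have h2 : |rsq 1 x - 1 / 25| ≤ 0 := (le_max_right _ _).trans hle
    have h3 := abs_nonpos_iff.1 h1
    have h4 := abs_nonpos_iff.1 h2
    exact hx.2 (h ⟨by linarith, by linarith⟩)
  set m := max |x.1 - 1 / 2| |rsq 1 x - 1 / 25| with hm
  refine ⟨min (1 / 200) (m / 24), ⟨lt_min (by norm_num) (by positivity), ?_⟩, fun p hp => ?_⟩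
  · exact lt_of_le_of_lt (min_le_left _ _) (by norm_num)
  · by_contra hpO
    have hp' : p ∈ bx (1 / 200) \ O := ⟨bx_mono (min_le_left _ _) hp, hpO⟩
    have h1 : m ≤ max |p.1 - 1 / 2| |rsq 1 p - 1 / 25| := hmin hp'
    have h2 : min (1 / 200) (m / 24) ≤ m / 24 := min_le_right _ _
    have h3 : max |p.1 - 1 / 2| |rsq 1 p - 1 / 25| ≤ m / 2 := by
      apply max_le
      · exact hp.1.trans (by linarith)
      · exact hp.2.trans (by linarith)
    linarith

theorem isCompact_sph1 : IsCompact (sph 1) := by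
  have hcl : IsClosed (sph 1) :=
    (isClosed_eq continuous_fst continuous_const).inter
      (isClosed_eq (continuous_rsq 1) continuous_const)
  refine (isCompact_bx (1 / 100) (by norm_num) le_rfl).of_isClosed_subset hcl ?_
  rintro p ⟨h1, h2⟩
  refine ⟨?_, ?_⟩
  · rw [h1, sub_self, abs_zero]; norm_num
  · rw [h2, sub_self, abs_zero]; norm_num

/-- the region of the model -/
def regn (w : ℝ) : Set R4 := {p | |p.1 - 1 / 2| < w ∧ rsq 1 p < 9}

theorem isOpen_regn (w : ℝ) : IsOpen (regn w) :=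
  (isOpen_lt (f := fun p : R4 => |p.1 - 1 / 2|) (by fun_prop) continuous_const).inter
    (isOpen_lt (continuous_rsq 1) continuous_const)

theorem rad_mem_bx {δ : ℝ} (hδ : δ ∈ Ioo (0 : ℝ) (1 / 100)) {p : R4} (hp : p ∈ regn δ)
    (h0 : 0 < rsq 1 p) : rad (fr δ) 1 p ∈ bx δ := by
  refine ⟨hp.1.le, ?_⟩
  rw [rsq_rad (fr_prf hδ.1 hδ.2) 1 p h0, abs_le]
  obtain ⟨h1, h2⟩ := fr_bounds hδ.1 hδ.2 h0.le hp.2.le
  constructor <;> linarith

section
variable {F : R4 → R4} {O : Set R4} {δ : ℝ} (hδ : δ ∈ Ioo (0 : ℝ) (1 / 100))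
  (hF : EmbOn I4 F O) (hO : bx δ ⊆ O)
include hδ hF hO

theorem frad_emb : EmbOn I4 (fun p => F (rad (fr δ) 1 p)) (regn δ ∩ {p | 0 < rsq 1 p}) := by
  have h1 : EmbOn I4 (rad (fr δ) 1) (regn δ ∩ {p | 0 < rsq 1 p}) :=
    Pool.Agent.Helper27.BI.EmbOn.mono (rad_embOn (fr_prf hδ.1 hδ.2) 1) inter_subset_right
  have h2 : EmbOn I4 (F ∘ rad (fr δ) 1) (regn δ ∩ {p | 0 < rsq 1 p}) :=
    embOn_comp hF h1 fun p hp => hO (rad_mem_bx hδ hp.1 hp.2)
  exact h2

/-- the arc datum -/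
theorem exists_parD : ∃ D : ArcD, D.U = regn δ ∧ D.s₀ = 1 / 2 - δ ∧ D.s₁ = 1 / 2 + δ ∧
    D.J = (fun p => p + ((0, 1, 0) : R4)) ∧ D.e = fun p => F (rad (fr δ) 1 p) := by
  have h0 := hδ.1
  have hJ : EmbOn I4 (fun p : R4 => p + ((0, 1, 0) : R4)) (seg (1 / 2 - δ) (1 / 2 + δ)) :=
    embOn_of_left (g := fun p => p - ((0, 1, 0) : R4)) (contDiff_id.add contDiff_const)
      (contDiff_id.sub contDiff_const) (fun x => by simp) _
  have hr : ∀ s : ℝ, rsq 1 ((s, 1, 0) : R4) = 0 := by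
    intro s
    show ((1 : ℝ) - 1) ^ 2 + (0 : ℂ).re ^ 2 + (0 : ℂ).im ^ 2 = 0
    simp
  refine ⟨{
    U := regn δ
    s₀ := 1 / 2 - δ
    m₀ := 1 / 2 - δ / 2
    m₁ := 1 / 2 + δ / 2
    s₁ := 1 / 2 + δ
    J := fun p => p + ((0, 1, 0) : R4)
    c := fun s => (s, 1, 0)
    e := fun p => F (rad (fr δ) 1 p)
    openU := isOpen_regn δ
    h₀ := by linarith
    h₁ := by linarith
    h₂ := by linarith
    smooth := by fun_prop
    core := fun s _ => by
      refine Prod.ext ?_ (Prod.ext ?_ ?_)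
      · show s + 0 = s
        ring
      · show (0 : ℝ × ℂ).1 + 1 = 1
        simp
      · show (0 : ℝ × ℂ).2 + 0 = 0
        simp
    emb := hJ
    mem := fun s hs => ⟨by
      show |s - 1 / 2| < δ
      rw [abs_lt]
      constructor <;> linarith [hs.1, hs.2], by rw [hr]; norm_num⟩
    off₀ := fun h => by
      have h1 : |(1 / 2 - δ) - 1 / 2| < δ := h.1
      have e : (1 / 2 - δ) - 1 / 2 = -δ := by ring
      rw [e, abs_neg, abs_of_pos h0] at h1
      exact lt_irrefl _ h1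
    off₁ := fun h => by
      have h1 : |(1 / 2 + δ) - 1 / 2| < δ := h.1
      have e : (1 / 2 + δ) - 1 / 2 = δ := by ring
      rw [e, abs_of_pos h0] at h1
      exact lt_irrefl _ h1
    embe := ?_ }, rfl, rfl, rfl, rfl, rfl⟩
  refine Pool.Agent.Helper27.BI.EmbOn.mono (frad_emb hδ hF hO) ?_
  rintro p ⟨hp, hp'⟩
  refine ⟨hp, ?_⟩
  by_contra hle
  have hle : ¬ 0 < rsq 1 p := hle
  apply hp'
  have h2 : (p.2.1 - 1) ^ 2 + p.2.2.re ^ 2 + p.2.2.im ^ 2 ≤ 0 := not_lt.1 hle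
  have a1 := sq_nonneg (p.2.1 - 1)
  have a2 := sq_nonneg p.2.2.re
  have a3 := sq_nonneg p.2.2.im
  have b1 : p.2.1 - 1 = 0 := pow_eq_zero_iff (two_ne_zero) |>.1 (by linarith : (p.2.1 - 1) ^ 2 = 0)
  have b2 : p.2.2.re = 0 := pow_eq_zero_iff (two_ne_zero) |>.1 (by linarith)
  have b3 : p.2.2.im = 0 := pow_eq_zero_iff (two_ne_zero) |>.1 (by linarith)
  have h3 := abs_lt.1 hp.1
  refine ⟨(p.1, 0), ⟨by linarith [h3.1], by linarith [h3.2], rfl⟩, ?_⟩
  refine Prod.ext ?_ (Prod.ext ?_ (Complex.ext ?_ ?_))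
  · show p.1 + 0 = p.1
    ring
  · show (0 : ℝ × ℂ).1 + 1 = p.2.1
    simp
    linarith
  · show ((0 : ℝ × ℂ).2 + 0).re = p.2.2.re
    rw [b2]
    simp
  · show ((0 : ℝ × ℂ).2 + 0).im = p.2.2.im
    rw [b3]
    simp

theorem par_cls (hCls : StCls) (hCROSS : StCROSS) (hCUSP : StCUSP) (hNORM : StNORM)
    {W φ : R4 → R4} (hW : IsW W) {η : ℝ} (hη : 0 < η) (hη' : η < δ)
    (hφ : Thin I4 (fun p => F (rad (fr δ) 1 (kap η p))) φ) : WR W (fun x => x) φ := by
  obtain ⟨D, dU, d0, d1, dJ, de⟩ := exists_parD hδ hF hO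
  have habs : |η| = η := abs_of_pos hη
  have hA : ∀ p ∈ D.A, rsq 1 p = 0 := by
    rintro p ⟨q, hq, rfl⟩
    rw [dJ]
    have h1 : q.2 = 0 := hq.2.2
    have e : (fun p => p + ((0, 1, 0) : R4)) q = (q.1, 1, 0) := by
      refine Prod.ext ?_ (Prod.ext ?_ ?_)
      · show q.1 + 0 = q.1
        ring
      · show q.2.1 + 1 = 1
        rw [h1]
        simp
      · show q.2.2 + 0 = 0
        rw [h1]
        simp
    rw [e]
    show ((1 : ℝ) - 1) ^ 2 + (0 : ℂ).re ^ 2 + (0 : ℂ).im ^ 2 = 0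
    simp
  have hT : D.XG (kap η) := by
    refine ⟨kap_embOn η FB, fun p hp => ?_, fun p hp hA' => ?_, ?_⟩
    · rw [dU]
      obtain ⟨h1, h2, -⟩ := kap_FB hη.ne' hp
      rw [habs] at h1
      exact ⟨h1.trans_lt hη', h2⟩
    · exact (kap_FB hη.ne' hp).2.2 (hA _ hA')
    · have near : ∀ᶠ s in 𝓝 (1 / 2 : ℝ), |s - 1 / 2| ≤ |η| / 4 := by
        have h1 : ContinuousAt (fun s : ℝ => |s - 1 / 2|) (1 / 2) := by fun_prop
        have h2 : |(1 / 2 : ℝ) - 1 / 2| < |η| / 4 := by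
          rw [sub_self, abs_zero, habs]
          positivity
        filter_upwards [h1.eventually (gt_mem_nhds h2)] with s hs
        exact hs.le
      refine ⟨fun s => s - η, fun s => s, (contDiff_id.sub contDiff_const).contDiffAt,
        contDiff_id.contDiffAt, ?_, ?_, ?_, ?_, ?_, ?_, ?_, ?_⟩
      · rw [deriv_sub_const, deriv_id'']
        norm_num
      · rw [deriv_id'']
        norm_num
      · rw [d0]
        linarith
      · show 1 / 2 - η < 1 / 2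
        linarith
      · rw [d1]
        linarith
      · filter_upwards [near] with s hs
        rw [kap_near0 hη.ne' (p := (s, ((0 : ℝ), (0 : ℂ)))) hs (by norm_num), dJ]
        refine Prod.ext ?_ (Prod.ext ?_ ?_)
        · show s - η = s - η + 0
          ring
        · show (0 : ℝ) + 1 = (0 : ℝ × ℂ).1 + 1
          simp
        · show (0 : ℂ) = (0 : ℝ × ℂ).2 + 0
          simp
      · filter_upwards [near] with s hs
        rw [kap_near1 hη.ne' (p := (s, ((1 : ℝ), (0 : ℂ)))) hs (by norm_num), dJ]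
        refine Prod.ext ?_ (Prod.ext ?_ ?_)
        · show s = s + 0
          ring
        · show (1 : ℝ) = (0 : ℝ × ℂ).1 + 1
          simp
        · show (0 : ℂ) = (0 : ℝ × ℂ).2 + 0
          simp
      · -- the determinants
        have e1 : kap η =ᶠ[𝓝 ((1 / 2, ((0 : ℝ), (0 : ℂ))) : R4)]
            fun p => p + ((-η, 1, 0) : R4) := by
          have c1 : ContinuousAt (fun p : R4 => |p.1 - 1 / 2|) (1 / 2, ((0 : ℝ), (0 : ℂ))) := by
            fun_prop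
          have c2 : ContinuousAt (fun p : R4 => p.2.1) (1 / 2, ((0 : ℝ), (0 : ℂ))) := by
            fun_prop
          have h2 : |(1 / 2 : ℝ) - 1 / 2| < |η| / 4 := by
            rw [sub_self, abs_zero, habs]
            positivity
          filter_upwards [c1.eventually (gt_mem_nhds h2),
            c2.eventually (gt_mem_nhds (by norm_num : ((0 : ℝ)) < 1 / 4))] with p h3 h4
          rw [kap_near0 hη.ne' h3.le h4.le]
          refine Prod.ext ?_ (Prod.ext ?_ ?_)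
          · show p.1 - η = p.1 + -η
            ring
          · rfl
          · show p.2.2 = p.2.2 + 0
            simp
        have e2 : fderiv ℝ (kap η) (1 / 2, ((0 : ℝ), (0 : ℂ))) = ContinuousLinearMap.id ℝ R4 := by
          rw [e1.fderiv_eq]
          exact ((hasFDerivAt_id _).add_const _).fderiv
        have e3 : ∀ q, fderiv ℝ D.J q = ContinuousLinearMap.id ℝ R4 := by
          intro q
          rw [dJ]
          exact ((hasFDerivAt_id _).add_const _).fderiv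
        rw [e2, e3]
        have e4 : (ContinuousLinearMap.id ℝ R4).det = 1 := by
          show LinearMap.det (LinearMap.id : R4 →ₗ[ℝ] R4) = 1
          exact LinearMap.det_id
        rw [e4]
        norm_num
  refine cross_class hCls hCROSS hCUSP hNORM (D := D) hW hT ?_
  rw [de]
  exact hφ

end

end Pool.Agent.Helper27.R


end

/-! ## Helper27.BI.R.M_PAR -/

section

/-!
# Project BI, stage 4 (R), module PAR: the class of a parallel copy of the fixed cuff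
-/

set_option autoImplicit false

open scoped Manifold ContDiff Topology ComplexConjugate
open Set Filter Pool.Agent.Helper65.Barb Pool.Agent.Helper18.BI
open Pool.Agent.Helper70.BI (I4 LD IsW MW ld_iff embOn_iff ld_comp embOn_comp)
open Pool.Agent.Helper27.H
open Pool.Agent.Helper18.BI.H (StHMain)

namespace Pool.Agent.Helper27.R

open Rad (rad fr fr_prf fr_bounds rad_embOn rad_id rsq_rad)

/-- **PAR.**  A germ whose second cuff is a parallel copy of the fixed cuff has class `1` or `W`. -/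
def StPAR : Prop :=
  ∀ F W : R4 → R4, IsW W → EmbOn I4 F (sph 1) → ∃ η₀ > 0, ∀ η ∈ Ioo (0 : ℝ) η₀,
    ∃ (F' : R4 → R4) (U : Set R4), EmbOn I4 F' SP ∧ IsOpen U ∧ sph 1 ⊆ U ∧ EqOn F F' U ∧
      (∀ x : R3, ((1 / 2, x) : R4) ∈ sph 0 → F' (1 / 2, x) = F (1 / 2 + η, x + (1, 0))) ∧
      ∀ φ, Thin I4 F' φ → CIsot I4 φ (fun x => x) ∨ CIsot I4 φ W

section
variable {F : R4 → R4} {O : Set R4} {δ : ℝ} (hδ : δ ∈ Ioo (0 : ℝ) (1 / 100))
  (hF : EmbOn I4 F O) (hO : bx δ ⊆ O)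
include hδ hF hO

theorem par_emb {ζ : ℝ} (hζ : ζ ≠ 0) (hζ' : |ζ| < δ) :
    EmbOn I4 (fun p => F (rad (fr δ) 1 (kap ζ p))) SP := by
  have h1 := frad_emb hδ hF hO
  have h2 : EmbOn I4 ((fun p => F (rad (fr δ) 1 p)) ∘ kap ζ) SP := by
    refine embOn_comp h1 (kap_embOn ζ SP) fun p hp => ?_
    have hp' : p ∈ FB := by
      rcases hp with (h | h) | h
      · exact Or.inl (Or.inl ⟨h.1, h.2.le⟩)
      · exact Or.inl (Or.inr ⟨h.1, h.2.le⟩)
      · exact Or.inr h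
    obtain ⟨a, b, c⟩ := kap_FB hζ hp'
    refine ⟨⟨a.trans_lt hζ', b⟩, ?_⟩
    have h0 : 0 ≤ rsq 1 (kap ζ p) := by
      unfold rsq nsq
      positivity
    rcases h0.lt_or_eq with h | h
    · exact h
    · exfalso
      rcases c h.symm with rfl | rfl
      · rcases hp with (h | h) | h
        · have := h.2; norm_num [rsq, nsq] at this
        · have := h.2; norm_num [rsq, nsq] at this
        · have := h.2.1; norm_num at this
      · rcases hp with (h | h) | h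
        · have := h.2; norm_num [rsq, nsq] at this
        · have := h.2; norm_num [rsq, nsq] at this
        · have := h.2.2.1; norm_num at this
  exact h2

omit hF hO in
theorem par_near {ζ : ℝ} (hζ : ζ ≠ 0) : ∃ U : Set R4, IsOpen U ∧ sph 1 ⊆ U ∧
    ∀ p ∈ U, rad (fr δ) 1 (kap ζ p) = p := by
  have hz : 0 < |ζ| := abs_pos.2 hζ
  have h0 := hδ.1
  refine ⟨{p | |p.1 - 1 / 2| < |ζ| / 4} ∩ ({p | |rsq 1 p - 1 / 25| < δ} ∩ {p | 3 / 4 < p.2.1}),
    ?_, ?_, ?_⟩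
  · refine (isOpen_lt (f := fun p : R4 => |p.1 - 1 / 2|) (by fun_prop) continuous_const).inter
      ((isOpen_lt (f := fun p : R4 => |rsq 1 p - 1 / 25|)
        ((continuous_rsq 1).sub continuous_const).abs continuous_const).inter
      (isOpen_lt continuous_const (continuous_fst.comp continuous_snd)))
  · rintro p ⟨h1, h2⟩
    refine ⟨?_, ?_, ?_⟩
    · show |p.1 - 1 / 2| < |ζ| / 4
      rw [h1, sub_self, abs_zero]
      positivity
    · show |rsq 1 p - 1 / 25| < δ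
      rw [h2, sub_self, abs_zero]
      exact h0
    · have h3 : (p.2.1 - 1) ^ 2 + p.2.2.re ^ 2 + p.2.2.im ^ 2 = 1 / 25 := h2
      show 3 / 4 < p.2.1
      nlinarith [sq_nonneg p.2.2.re, sq_nonneg p.2.2.im]
  · rintro p ⟨h1, h2, h3⟩
    have h1 : |p.1 - 1 / 2| < |ζ| / 4 := h1
    have h2 : |rsq 1 p - 1 / 25| < δ := h2
    have h3 : 3 / 4 < p.2.1 := h3
    rw [kap_near1 hζ h1.le h3.le]
    have h4 := abs_lt.1 h2
    exact rad_id h0 (by linarith) (by linarith) (by linarith [hδ.2])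

omit hF hO in
theorem par_sph0 {ζ : ℝ} (hζ : ζ ≠ 0) {p : R4} (hp : p ∈ sph 0) :
    rad (fr δ) 1 (kap ζ p) = (1 / 2 - ζ, p.2 + (1, 0)) := by
  obtain ⟨h1, h2⟩ := hp
  have h0 := hδ.1
  have h3 : (p.2.1 - 0) ^ 2 + p.2.2.re ^ 2 + p.2.2.im ^ 2 = 1 / 25 := h2
  have h4 : p.2.1 ≤ 1 / 4 := by nlinarith [sq_nonneg p.2.2.re, sq_nonneg p.2.2.im]
  rw [kap_near0 hζ (by rw [h1, sub_self, abs_zero]; positivity) h4]
  have h5 : rsq 1 ((p.1 - ζ, p.2.1 + 1, p.2.2) : R4) = 1 / 25 := by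
    show (p.2.1 + 1 - 1) ^ 2 + p.2.2.re ^ 2 + p.2.2.im ^ 2 = 1 / 25
    rw [← h3]
    ring
  rw [rad_id h0 (by rw [h5]; linarith) (by rw [h5]; linarith) (by rw [h5]; norm_num), h1]
  refine Prod.ext rfl (Prod.ext rfl ?_)
  show p.2.2 = p.2.2 + 0
  rw [add_zero]

end

/-- the point of the rotating copy -/
noncomputable def rot (η : ℝ) (z : ℝ × R4) : R4 :=
  (1 / 2 - η * Real.cos (Real.pi * z.1),
    ((1 + η * Real.sin (Real.pi * z.1)) * z.2.2.1 + 1,
      ((1 + η * Real.sin (Real.pi * z.1) : ℝ) : ℂ) * z.2.2.2))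

theorem continuous_rot (η : ℝ) : Continuous (rot η) := by
  unfold rot
  fun_prop

theorem rsq_rot (η : ℝ) (u : ℝ) {p : R4} (hp : p ∈ sph 0) :
    rsq 1 (rot η (u, p)) = (1 + η * Real.sin (Real.pi * u)) ^ 2 / 25 := by
  have h3 : (p.2.1 - 0) ^ 2 + p.2.2.re ^ 2 + p.2.2.im ^ 2 = 1 / 25 := hp.2
  show ((1 + η * Real.sin (Real.pi * u)) * p.2.1 + 1 - 1) ^ 2 +
    (((1 + η * Real.sin (Real.pi * u) : ℝ) : ℂ) * p.2.2).re ^ 2 +
    (((1 + η * Real.sin (Real.pi * u) : ℝ) : ℂ) * p.2.2).im ^ 2 = _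
  rw [Complex.re_ofReal_mul, Complex.im_ofReal_mul]
  have : (1 + η * Real.sin (Real.pi * u)) ^ 2 / 25 =
    (1 + η * Real.sin (Real.pi * u)) ^ 2 * (1 / 25) := by ring
  rw [this, ← h3]
  ring

theorem rot_mem {δ η : ℝ} (h0 : 0 < η) (h1 : η < δ) (h2 : δ < 1 / 100) {u : ℝ} {p : R4}
    (hp : p ∈ sph 0) : rot η (u, p) ∈ bx δ := by
  have c1 := Real.neg_one_le_cos (Real.pi * u)
  have c2 := Real.cos_le_one (Real.pi * u)
  have s1 := Real.neg_one_le_sin (Real.pi * u)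
  have s2 := Real.sin_le_one (Real.pi * u)
  refine ⟨?_, ?_⟩
  · show |1 / 2 - η * Real.cos (Real.pi * u) - 1 / 2| ≤ δ
    rw [abs_le]
    constructor <;> nlinarith
  · rw [rsq_rot η u hp, abs_le]
    have hs : |η * Real.sin (Real.pi * u)| ≤ η := by
      rw [abs_le]
      constructor <;> nlinarith
    set y := η * Real.sin (Real.pi * u) with hy
    have h3 := abs_le.1 hs
    constructor <;> nlinarith

theorem rot_off {η : ℝ} (h0 : 0 < η) (h1 : η < 1) {u : ℝ} {p : R4} (hp : p ∈ sph 0) :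
    rot η (u, p) ∉ sph 1 := by
  rintro ⟨h2, h3⟩
  have h2 : 1 / 2 - η * Real.cos (Real.pi * u) = 1 / 2 := h2
  have h4 : Real.cos (Real.pi * u) = 0 := by
    have : η * Real.cos (Real.pi * u) = 0 := by linarith
    rcases mul_eq_zero.1 this with h | h
    · exact absurd h h0.ne'
    · exact h
  rw [rsq_rot η u hp] at h3
  have h5 := Real.sin_sq_add_cos_sq (Real.pi * u)
  rw [h4] at h5
  have h6 : (1 + η * Real.sin (Real.pi * u)) ^ 2 = 1 := by linarith
  have h7 : η * Real.sin (Real.pi * u) * (2 + η * Real.sin (Real.pi * u)) = 0 := by linarith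
  have s1 := Real.neg_one_le_sin (Real.pi * u)
  rcases mul_eq_zero.1 h7 with h | h
  · rcases mul_eq_zero.1 h with h | h
    · exact h0.ne' h
    · rw [h] at h5
      norm_num at h5
  · nlinarith

/-- **PAR.** -/
theorem m_PAR (hCls : StCls) (hCROSS : StCROSS) (hCUSP : StCUSP) (hNORM : StNORM)
    (hHMain : StHMain) : StPAR := by
  intro F W hW hF
  obtain ⟨O, hO, hsO, hFO, hFc⟩ := emb_open isCompact_sph1 hF
  obtain ⟨δ, hδ, hbO⟩ := exists_bx hO hsO
  have hδ0 := hδ.1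
  have hδ1 := hδ.2
  refine ⟨δ, hδ.1, fun η hη => ?_⟩
  have hη0 := hη.1
  have hηδ := hη.2
  have hm : -η ≠ 0 := neg_ne_zero.2 hη.1.ne'
  have habs : |η| < δ := by rw [abs_of_pos hη.1]; exact hη.2
  have habs' : |-η| < δ := by rw [abs_neg]; exact habs
  have E1 := par_emb hδ hFO hbO hη.1.ne' habs
  have E2 := par_emb hδ hFO hbO hm habs'
  obtain ⟨U1, hU1, hs1, e1⟩ := par_near hδ hη.1.ne'
  obtain ⟨U2, hU2, hs2, e2⟩ := par_near hδ hm
  refine ⟨fun p => F (rad (fr δ) 1 (kap (-η) p)), U2, E2, hU2, hs2,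
    fun p hp => by simp only [e2 p hp], fun x hx => ?_, fun φ' hφ' => ?_⟩
  · have := par_sph0 hδ hm hx
    simp only [this, sub_neg_eq_add]
  · obtain ⟨φ, hφ⟩ := exists_thin E1
    have k1 := par_cls hδ hFO hbO hCls hCROSS hCUSP hNORM hW hη.1 hη.2 hφ
    have k2 := hHMain (fun p => F (rad (fr δ) 1 (kap η p)))
      (fun p => F (rad (fr δ) 1 (kap (-η) p))) (U1 ∩ U2) (fun z => F (rot η z)) W φ φ' hW E1 E2
      (hU1.inter hU2) (subset_inter hs1 hs2)
      (fun p hp => by simp only [e1 p hp.1, e2 p hp.2]) ?_ ?_ ?_ ?_ hφ hφ'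
    · have k3 : WR W φ φ' := k2
      exact WR.trans hW (Pool.Agent.Helper27.BI.ci_refl) k1 k3
    · refine hFc.comp (continuous_rot η).continuousOn ?_
      rintro ⟨u, p⟩ ⟨-, hp⟩
      exact hbO (rot_mem hη0 hηδ hδ1 hp)
    · intro p hp
      have h1 := par_sph0 hδ hη.1.ne' hp
      have h2 : rot η (0, p) = (1 / 2 - η, p.2 + (1, 0)) := by
        unfold rot
        simp only [mul_zero, Real.cos_zero, Real.sin_zero, mul_one, add_zero, one_mul,
          Complex.ofReal_one]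
        refine Prod.ext rfl (Prod.ext rfl ?_)
        show p.2.2 = p.2.2 + 0
        rw [add_zero]
      simp only [h1, h2]
    · intro p hp
      have h1 := par_sph0 hδ hm hp
      have h2 : rot η (1, p) = (1 / 2 + η, p.2 + (1, 0)) := by
        unfold rot
        simp only [mul_one, Real.cos_pi, Real.sin_pi, mul_zero, add_zero, one_mul,
          Complex.ofReal_one]
        refine Prod.ext ?_ (Prod.ext rfl ?_)
        · show 1 / 2 - η * -1 = 1 / 2 + η
          ring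
        · show p.2.2 = p.2.2 + 0
          rw [add_zero]
      simp only [h1, h2, sub_neg_eq_add]
    · rintro u - p hp ⟨q, hq, hqe⟩
      have h1 : F q = F (rot η (u, p)) := by
        have := e1 q (hs1 hq)
        simp only [this] at hqe
        exact hqe
      have h2 := hFO.2 (hsO hq) (hbO (rot_mem hη0 hηδ hδ1 hp)) h1
      rw [h2] at hq
      exact rot_off hη0 (by linarith) hp hq

end Pool.Agent.Helper27.R


end
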