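import Pool.Agent.Helper65.Barb.Defs
import Pool.Agent.Helper70.BI.C.P13

/-!
# Project BI (MP_8e98f2_gt): collected modules, part 39

The contents of the modules
* Helper27.BI.H.StH3
* Helper27.BI.H.M_CUM

in one file, so that the whole proof builds in a short time.
-/

namespace Pool.Agent.Helper18.BI
end Pool.Agent.Helper18.BI

namespace Pool.Agent.Helper65.Barb
end Pool.Agent.Helper65.Barb

namespace Pool.Agent.Helper70.BI
end Pool.Agent.Helper70.BI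


/-! ## Helper27.BI.H.StH3 -/

section

/-!
# Project BI, stage 3 (H), part 6: the cusp family (modules CUM, CUT)
-/

set_option autoImplicit false

open scoped Manifold ContDiff Topology ComplexConjugate
open Set Filter Pool.Agent.Helper65.Barb Pool.Agent.Helper18.BI
open Pool.Agent.Helper70.BI (I4)

namespace Pool.Agent.Helper27.H

/-- MODULE CUM (the cusp family in the model): a two-parameter family of curves in four-space, parametrized by a line, equal to the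
straight line `σ ↦ (σ, 0)` near infinity and for parameters off the unit square, immersed, with exactly one double point,
which is transverse.

Construction.  All with `step` (`0` for `≤ 0`, `1` for `≥ 1`, values in `[0,1]`, nondecreasing).  With
`r = (u - 1/2)^2 + (q - 1/2)^2` put `κ = step (1 - 25 r)`, `κ₂ = step (3 - 50 r)`, `λ = step (5 - 50 r)`.  So `κ > 0` only if `r < 1/25`, `κ₂ = 1` for
`r ≤ 1/25`, `κ₂ > 0` only if `r < 3/50`, `λ = 1` for `r ≤ 4/50`, `λ = 0` for `r ≥ 1/10` (in particular if `u ≤ 0`, `u ≥ 1`, `q ≤ 0` or `q ≥ 1`).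
`T σ = step ((16 σ^2 - 1)/15)` (`0` for `|σ| ≤ 1/4`, `1` for `|σ| ≥ 1`), `χ σ = step (2 - 16 σ^2)` (`1` for `|σ| ≤ 1/4`, `0` for `|σ| ≥ 1/2`),
`p σ = σ^3 + T σ (σ - σ^3)`.  Then `p σ = σ^3` for `|σ| ≤ 1/4`, `p σ = σ` for `|σ| ≥ 1`, and
`p' = 3 σ^2 (1 - T) + T + T' (σ - σ^3) ≥ min (3 σ^2) 1` (as `T' (σ - σ^3) ≥ 0`: `T' = step' · 32 σ / 15`, `step' ≥ 0`, `σ (σ - σ^3) = σ^2 (1 - σ^2) ≥ 0` for
`|σ| ≤ 1`, and `T' = 0` for `|σ| > 1`); so `p' ≥ 3/16` for `|σ| ≥ 1/4`.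
Let `C ≥ 1` be a bound for `|(χ σ · σ)'|` (compact support, continuity) and `a₀ = σ₀^2 / 3` with `σ₀ > 0`, `σ₀ ≤ 1/20`, `σ₀^2 C ≤ 1/16`.
Put `a = a₀ (2 κ - 1) ∈ [-a₀, a₀]`, `b = κ₂ (u - 1/2)`, `d = κ₂ (q - 1/2)`, and
`x (u, q, σ) = ((1 - λ) σ + λ (p σ - 3 a χ σ · σ), (λ χ σ · σ^2, ⟨b χ σ · σ, d χ σ · σ⟩))` (`⟨b.., d..⟩ = b.. + d.. * I` is a complex number).

(i) `|σ| ≥ 1` or `r ≥ 1/10`: `x = (σ, 0)` (`κ₂ = 0` there).  (ii) the bound `‖x‖ ≤ 3` for `|σ| ≤ 1` (sup norm of the product; `|p σ| ≤ 1`, `3 a₀ ≤ 1`).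
(iii) Immersed.  If `λ < 1` then `r > 4/50`, so `κ = κ₂ = 0`, `a = -a₀`, `b = d = 0` and the first coordinate has derivative
`(1 - λ) + λ (p' + 3 a₀ (χ σ · σ)') > 0`: for `|σ| ≤ 1/4` it is `(1-λ) + λ (3 σ^2 + 3 a₀)`, for `|σ| ≥ 1/4`: `p' + 3 a₀ (..)' ≥ 3/16 - σ₀^2 C > 0`.
If `λ = 1`: for `|σ| ≥ 1/4` the first coordinate has derivative `p' - 3 a (χ σ · σ)' ≥ 3/16 - σ₀^2 C > 0`.  For `|σ| < 1/4` the derivative is
`(3 σ^2 - 3 a, (2 σ, ⟨b, d⟩))`; if it vanishes, `σ = 0`, `a = 0`, so `κ = 1/2`, `r < 1/25`, `κ₂ = 1`, and `b = d = 0` gives `r = 0`, `κ = step 1 = 1`, contradiction.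
(iv) Double points, `x (u,q,σ) = x (u,q,τ)`, `σ < τ`.  If `λ < 1` the first coordinate is strictly increasing.  So `λ = 1`, the first coordinate
is `f σ = p σ - 3 a χ σ · σ`, odd, strictly increasing on `[1/4, ∞)`, and for `|σ| ≤ 1/4` it is `σ^3 - 3 a σ`, with `|σ^3 - 3 a σ| < f (1/4)` for
`|σ| < 1/4`: `f (1/4) ∓ (σ^3 - 3 a σ) = (1/4 ∓ σ)((1/4)^2 ± σ/4 + σ^2 - 3 a) > 0` since `(1/4)^2 ± σ/4 + σ^2 ≥ 3/64 > 3 a₀` (`σ₀^2 ≤ 1/400`).
Hence `f σ = f τ`, `σ < τ` forces `|σ|, |τ| < 1/4` (or `= 1/4`, similar).  Then `σ^2 = τ^2` gives `τ = -σ ≠ 0`, the last coordinates give `b = d = 0`,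
and `σ^3 - 3 a σ = 0` gives `σ^2 = 3 a`, so `a > 0`, `κ > 1/2`, `κ₂ = 1`, `u = q = 1/2`, `κ = 1`, `a = a₀`, `σ^2 = σ₀^2`.
(v) `σ₀^3 - 3 a₀ σ₀ = 0`.
(vi) At `u = q = 1/2` the derivatives of `κ`, `κ₂`, `λ` with respect to `u`, `q` vanish (functions of `r`, whose derivative is `0` there; `κ₂` and `λ` are
constant near this point).  So the derivative of `x` at `(1/2, 1/2, ±σ₀)` in the direction `(ζ, η, σ)` is
`((3 σ₀^2 - 3 a₀) σ, (± 2 σ₀ σ, ⟨± σ₀ ζ, ± σ₀ η⟩))`.  Equality for `-σ₀`, `σ` and `σ₀`, `τ`: `-σ₀ ζ = σ₀ ζ`, `-σ₀ η = σ₀ η`, `2 σ₀^2 (σ - τ) = 0`,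
`-2 σ₀ (σ + τ) = 0`. -/
def StCUM : Prop :=
  ∃ (x : ℝ × ℝ × ℝ → R4) (σ₀ : ℝ), 0 < σ₀ ∧ σ₀ < 1 ∧ ContDiff ℝ ∞ x ∧
    (∀ u q σ, (1 ≤ |σ| ∨ u ∉ Ioo (0 : ℝ) 1 ∨ q ∉ Ioo (0 : ℝ) 1) → x (u, q, σ) = (σ, 0)) ∧
    (∀ u q σ, |σ| ≤ 1 → ‖x (u, q, σ)‖ ≤ 3) ∧
    (∀ u q σ, deriv (fun σ => x (u, q, σ)) σ ≠ 0) ∧
    (∀ u q σ τ, σ < τ → x (u, q, σ) = x (u, q, τ) → u = 1 / 2 ∧ q = 1 / 2 ∧ σ = -σ₀ ∧ τ = σ₀) ∧
    x (1 / 2, 1 / 2, -σ₀) = x (1 / 2, 1 / 2, σ₀) ∧
    ∀ ζ η σ τ : ℝ, fderiv ℝ x (1 / 2, 1 / 2, -σ₀) (ζ, η, σ) = fderiv ℝ x (1 / 2, 1 / 2, σ₀) (ζ, η, τ) →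
      ζ = 0 ∧ η = 0 ∧ σ = 0 ∧ τ = 0

/-- MODULE CUT (transplantation of the cusp family).

Proof.  `m = (D.m₀ + D.m₁)/2`.  By `D.emb` and `StA1` (`m_A1`; `D.L` is compact) there is an open `N ⊇ D.L` on which `D.J` is injective and
a local diffeomorphism, in particular smooth (`embOn_iff` in `Helper70/BI/Base.lean`); `D.J (m, 0) = D.c m ∈ D.U` (`core`, `mem`), so there is a small
`η > 0` with `2 η ≤ (m₁ - m₀)/2` such that the ball (sup norm) of radius `4 η` about `(m, 0)` is contained in `N ∩ D.J ⁻¹' D.U`.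
`P (u, q, s) = ((m, 0) : R4) + η • x (u, q, (s - m)/η)`.
Define `c (u, q, s) = if |s - m| < 2 η then D.J (P (u, q, s)) else D.c s`.
For `|s - m| ≤ 2 η` the point `P` is in the ball of radius `4 η` (for `|s - m| ≤ η` by `‖x‖ ≤ 3`, otherwise `P = (s, 0)`), and for
`|s - m| ≥ η` (`|σ| ≥ 1`) it is `(s, 0)`, so `D.J P = D.c s` if `|s - m| ≥ η` and `s ∈ [s₀, s₁]`.  So `c` is smooth (open cover
`|s - m| < 2 η`, `|s - m| > η`), and `c (u,q,s) = D.J (P (u,q,s))` for all `s ∈ [s₀, s₁]`; `c (u,q,s) = D.c s` for `s ≤ m₀` or `m₁ ≤ s`, and for `u ∉ (0,1)` or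
`q ∉ (0,1)` (there `P = (s, 0)`).  In `D.U`: for `|s - m| < 2 η` by the choice of `η`, otherwise by `mem`.
Injectivity: all `P (u,q,s)`, `s ∈ [s₀,s₁]`, are in `N`, so `c (u,q,s) = c (u,q,s')` iff `P (u,q,s) = P (u,q,s')` iff
`x (u,q,σ) = x (u,q,σ')`, `σ = (s - m)/η`.  So there is exactly one double point, `u₀ = q₀ = 1/2`, `a = m - η σ₀`, `b = m + η σ₀`.
Immersed: for `|s - m| < 2 η`: the derivative of `s ↦ c (u,q,s)` is `D(D.J)(P) (x'(σ)) ≠ 0`; for `|s - m| > η`: it is `deriv D.c s`, nonzero on `[s₀, s₁]`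
since `D.c = D.J (·, 0)` on `[s₀, s₁]` (one-sided derivatives at the ends: `HasDerivWithinAt` on `Icc`, unique) and `D(D.J)` is injective.
Transverse: `fderiv c (u₀,q₀,s) (ζ,η',σ) = D(D.J)(P) (η • fderiv x (u₀,q₀,(s-m)/η) (ζ, η', σ/η))`, at `s = a, b`, the same point `P`; cancel the injective
`D(D.J)(P)` and `η`; use the last property of `x` with `σ/η`, `τ/η`. -/
def StCUT : Prop := StCUM → StCUSP

end Pool.Agent.Helper27.H


end

/-! ## Helper27.BI.H.M_CUM -/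

section

/-!
# Project BI, stage 3 (H), part 6: module CUM, the cusp family in the model
-/

set_option autoImplicit false
set_option linter.unusedSectionVars false

open scoped Manifold ContDiff Topology ComplexConjugate
open Set Filter Pool.Agent.Helper65.Barb Pool.Agent.Helper18.BI
open Pool.Agent.Helper70.BI (I4)

namespace Pool.Agent.Helper27.H

namespace CUM

/-! ### one variable functions -/

theorem st0 {x : ℝ} (h : x ≤ 0) : step x = 0 := Real.smoothTransition.zero_of_nonpos h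

theorem st1 {x : ℝ} (h : 1 ≤ x) : step x = 1 := Real.smoothTransition.one_of_one_le h

theorem stn (x : ℝ) : 0 ≤ step x := Real.smoothTransition.nonneg x

theorem stl (x : ℝ) : step x ≤ 1 := Real.smoothTransition.le_one x

theorem sts : ContDiff ℝ ∞ step := Real.smoothTransition.contDiff

theorem std (x : ℝ) : 0 ≤ deriv step x :=
  Monotone.deriv_nonneg (fun _ _ h => Real.smoothTransition.monotone h)

noncomputable def T (σ : ℝ) : ℝ := step ((16 * σ ^ 2 - 1) / 15)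
noncomputable def ch (σ : ℝ) : ℝ := step (2 - 16 * σ ^ 2)
noncomputable def p (σ : ℝ) : ℝ := σ ^ 3 + T σ * (σ - σ ^ 3)
noncomputable def g (σ : ℝ) : ℝ := ch σ * σ
noncomputable def h (σ : ℝ) : ℝ := ch σ * σ ^ 2

theorem T_s : ContDiff ℝ ∞ T := sts.comp (by fun_prop)
theorem ch_s : ContDiff ℝ ∞ ch := sts.comp (by fun_prop)
theorem p_s : ContDiff ℝ ∞ p := by
  have := T_s
  unfold p
  fun_prop
theorem g_s : ContDiff ℝ ∞ g := by
  have := ch_s
  unfold g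
  fun_prop
theorem h_s : ContDiff ℝ ∞ h := by
  have := ch_s
  unfold h
  fun_prop

theorem sq_lo {σ : ℝ} (hs : |σ| ≤ 1 / 4) : σ ^ 2 ≤ 1 / 16 := by
  have := sq_abs σ
  nlinarith [abs_nonneg σ]

theorem sq_hi {σ c : ℝ} (hc : 0 ≤ c) (hs : c ≤ |σ|) : c ^ 2 ≤ σ ^ 2 := by
  have := sq_abs σ
  nlinarith [abs_nonneg σ]

theorem T_lo {σ : ℝ} (hs : |σ| ≤ 1 / 4) : T σ = 0 :=
  st0 (by have := sq_lo hs; linarith)

theorem T_hi {σ : ℝ} (hs : 1 ≤ |σ|) : T σ = 1 :=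
  st1 (by have := sq_hi zero_le_one hs; linarith)

theorem ch_lo {σ : ℝ} (hs : |σ| ≤ 1 / 4) : ch σ = 1 :=
  st1 (by have := sq_lo hs; linarith)

theorem ch_hi {σ : ℝ} (hs : 1 ≤ |σ|) : ch σ = 0 :=
  st0 (by have := sq_hi zero_le_one hs; linarith)

theorem p_lo {σ : ℝ} (hs : |σ| ≤ 1 / 4) : p σ = σ ^ 3 := by
  unfold p; rw [T_lo hs]; ring
theorem p_hi {σ : ℝ} (hs : 1 ≤ |σ|) : p σ = σ := by
  unfold p; rw [T_hi hs]; ring
theorem g_lo {σ : ℝ} (hs : |σ| ≤ 1 / 4) : g σ = σ := by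
  unfold g; rw [ch_lo hs]; ring
theorem g_hi {σ : ℝ} (hs : 1 ≤ |σ|) : g σ = 0 := by
  unfold g; rw [ch_hi hs]; ring
theorem h_lo {σ : ℝ} (hs : |σ| ≤ 1 / 4) : h σ = σ ^ 2 := by
  unfold h; rw [ch_lo hs]; ring
theorem h_hi {σ : ℝ} (hs : 1 ≤ |σ|) : h σ = 0 := by
  unfold h; rw [ch_hi hs]; ring

theorem ev_lo {σ : ℝ} (hs : |σ| < 1 / 4) : ∀ᶠ t in 𝓝 σ, |t| ≤ 1 / 4 := by
  have h1 : IsOpen {t : ℝ | |t| < 1 / 4} := isOpen_lt continuous_abs continuous_const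
  filter_upwards [h1.mem_nhds hs] with t ht
  exact le_of_lt ht

theorem ev_hi {σ : ℝ} (hs : 1 < |σ|) : ∀ᶠ t in 𝓝 σ, 1 ≤ |t| := by
  have h1 : IsOpen {t : ℝ | 1 < |t|} := isOpen_lt continuous_const continuous_abs
  filter_upwards [h1.mem_nhds hs] with t ht
  exact le_of_lt ht

theorem dp_lo {σ : ℝ} (hs : |σ| < 1 / 4) : deriv p σ = 3 * σ ^ 2 := by
  have e : p =ᶠ[𝓝 σ] fun t => t ^ 3 := by
    filter_upwards [ev_lo hs] with t ht
    exact p_lo ht
  rw [e.deriv_eq]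
  simp

theorem dg_lo {σ : ℝ} (hs : |σ| < 1 / 4) : deriv g σ = 1 := by
  have e : g =ᶠ[𝓝 σ] fun t => t := by
    filter_upwards [ev_lo hs] with t ht
    exact g_lo ht
  rw [e.deriv_eq]
  simp

theorem dh_lo {σ : ℝ} (hs : |σ| < 1 / 4) : deriv h σ = 2 * σ := by
  have e : h =ᶠ[𝓝 σ] fun t => t ^ 2 := by
    filter_upwards [ev_lo hs] with t ht
    exact h_lo ht
  rw [e.deriv_eq]
  simp

theorem dp_ge {σ : ℝ} (hs : 1 / 4 ≤ |σ|) : 3 / 16 ≤ deriv p σ := by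
  rcases lt_or_ge 1 |σ| with h1 | h1
  · have e : p =ᶠ[𝓝 σ] fun t => t := by
      filter_upwards [ev_hi h1] with t ht
      exact p_hi ht
    rw [e.deriv_eq]
    simp
    norm_num
  · have hq1 : σ ^ 2 ≤ 1 := by
      have := sq_abs σ
      nlinarith [abs_nonneg σ]
    have hq2 := sq_hi (by norm_num : (0 : ℝ) ≤ 1 / 4) hs
    have d1 : HasDerivAt (fun σ : ℝ => (16 * σ ^ 2 - 1) / 15) (32 * σ / 15) σ := by
      have := ((((hasDerivAt_pow 2 σ).const_mul 16).sub_const 1).div_const 15)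
      refine this.congr_deriv ?_
      simp
      ring
    have d2 : HasDerivAt step (deriv step ((16 * σ ^ 2 - 1) / 15)) ((16 * σ ^ 2 - 1) / 15) :=
      (sts.differentiable (by simp) _).hasDerivAt
    have d3 : HasDerivAt T (deriv step ((16 * σ ^ 2 - 1) / 15) * (32 * σ / 15)) σ :=
      d2.comp σ d1
    have d4 : HasDerivAt (fun σ : ℝ => σ - σ ^ 3) (1 - 3 * σ ^ 2) σ := by
      refine ((hasDerivAt_id σ).sub (hasDerivAt_pow 3 σ)).congr_deriv ?_
      simp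
    have d5 : HasDerivAt p (3 * σ ^ 2 + (deriv step ((16 * σ ^ 2 - 1) / 15) * (32 * σ / 15) *
        (σ - σ ^ 3) + T σ * (1 - 3 * σ ^ 2))) σ := by
      refine ((hasDerivAt_pow 3 σ).add (d3.mul d4)).congr_deriv ?_
      simp
    rw [d5.deriv]
    have k1 : 0 ≤ deriv step ((16 * σ ^ 2 - 1) / 15) * (32 * σ / 15) * (σ - σ ^ 3) := by
      have e : deriv step ((16 * σ ^ 2 - 1) / 15) * (32 * σ / 15) * (σ - σ ^ 3) =
          deriv step ((16 * σ ^ 2 - 1) / 15) * (32 / 15 * (σ ^ 2 * (1 - σ ^ 2))) := by ring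
      rw [e]
      exact mul_nonneg (std _) (mul_nonneg (by norm_num) (mul_nonneg (sq_nonneg _) (by linarith)))
    have k2 : 0 ≤ T σ := stn _
    have k3 : T σ ≤ 1 := stl _
    nlinarith [mul_nonneg (sub_nonneg.2 k3) (by linarith : 0 ≤ 3 * σ ^ 2 - 3 / 16)]

theorem dg_bound : ∃ C : ℝ, 1 ≤ C ∧ ∀ σ, |deriv g σ| ≤ C := by
  have hc : HasCompactSupport g := by
    refine HasCompactSupport.of_support_subset_isCompact (isCompact_Icc (a := (-1 : ℝ)) (b := 1)) ?_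
    intro σ hσ
    by_contra hcon
    apply hσ
    apply g_hi
    by_contra h2
    push Not at h2
    exact hcon (abs_le.1 h2.le)
  have hd : Continuous (deriv g) := g_s.continuous_deriv (by simp)
  obtain ⟨C, hC⟩ := hc.deriv.exists_bound_of_continuous hd
  refine ⟨max C 1, le_max_right _ _, fun σ => ?_⟩
  exact (hC σ).trans (le_max_left _ _)

/-! ### the curves -/

/-- the first coordinate -/
noncomputable def F (l a σ : ℝ) : ℝ := (1 - l) * σ + l * (p σ - 3 * a * g σ)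

theorem hasDerivAt_F (l a σ : ℝ) :
    HasDerivAt (F l a) ((1 - l) + l * (deriv p σ - 3 * a * deriv g σ)) σ := by
  have d1 : HasDerivAt p (deriv p σ) σ := (p_s.differentiable (by simp) _).hasDerivAt
  have d2 : HasDerivAt g (deriv g σ) σ := (g_s.differentiable (by simp) _).hasDerivAt
  refine (((hasDerivAt_id σ).const_mul (1 - l)).add
    ((d1.sub (d2.const_mul (3 * a))).const_mul l)).congr_deriv ?_
  simp

section
variable {a₀ C : ℝ} (hC : ∀ σ, |deriv g σ| ≤ C) (hC1 : 1 ≤ C) (ha₀ : 0 < a₀)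
  (haC : 3 * a₀ * C ≤ 1 / 400)
include hC hC1 ha₀ haC

theorem dF_out {l a σ : ℝ} (l0 : 0 ≤ l) (l1 : l ≤ 1) (ha : |a| ≤ a₀) (hs : 1 / 4 ≤ |σ|) :
    0 < (1 - l) + l * (deriv p σ - 3 * a * deriv g σ) := by
  have h1 := dp_ge hs
  have h2 : |3 * a * deriv g σ| ≤ 1 / 400 := by
    rw [abs_mul, abs_mul, abs_of_pos (by norm_num : (0 : ℝ) < 3)]
    calc 3 * |a| * |deriv g σ| ≤ 3 * a₀ * C :=
          mul_le_mul (by linarith) (hC σ) (abs_nonneg _) (by linarith)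
      _ ≤ _ := haC
  have h3 := (abs_le.1 h2).2
  nlinarith

theorem dF_neg {l σ : ℝ} (l0 : 0 ≤ l) (l1 : l ≤ 1) :
    0 < (1 - l) + l * (deriv p σ - 3 * (-a₀) * deriv g σ) := by
  rcases le_or_gt (1 / 4) |σ| with hs | hs
  · exact dF_out hC hC1 ha₀ haC l0 l1 (by rw [abs_neg, abs_of_pos ha₀]) hs
  · rw [dp_lo hs, dg_lo hs]
    have : 0 < 3 * σ ^ 2 - 3 * -a₀ * 1 := by nlinarith [sq_nonneg σ]
    rcases eq_or_lt_of_le l0 with h | h
    · rw [← h]; norm_num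
    · nlinarith [mul_pos h this]

theorem F_mono_neg {l : ℝ} (l0 : 0 ≤ l) (l1 : l ≤ 1) : StrictMono (F l (-a₀)) :=
  strictMono_of_deriv_pos fun σ => by
    rw [(hasDerivAt_F l (-a₀) σ).deriv]
    exact dF_neg hC hC1 ha₀ haC l0 l1

theorem F_mono_right {a : ℝ} (ha : |a| ≤ a₀) : StrictMonoOn (F 1 a) (Ici (1 / 4)) := by
  refine strictMonoOn_of_deriv_pos (convex_Ici _)
    (fun σ _ => (hasDerivAt_F 1 a σ).continuousAt.continuousWithinAt) fun σ hσ => ?_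
  rw [interior_Ici] at hσ
  rw [(hasDerivAt_F 1 a σ).deriv]
  exact dF_out hC hC1 ha₀ haC zero_le_one le_rfl ha ((le_of_lt hσ).trans (le_abs_self σ))

theorem F_mono_left {a : ℝ} (ha : |a| ≤ a₀) : StrictMonoOn (F 1 a) (Iic (-(1 / 4))) := by
  refine strictMonoOn_of_deriv_pos (convex_Iic _)
    (fun σ _ => (hasDerivAt_F 1 a σ).continuousAt.continuousWithinAt) fun σ hσ => ?_
  rw [interior_Iic] at hσ
  rw [(hasDerivAt_F 1 a σ).deriv]
  refine dF_out hC hC1 ha₀ haC zero_le_one le_rfl ha ?_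
  have : σ < -(1 / 4) := hσ
  rw [abs_of_neg (by linarith)]
  linarith

theorem F_mid {a σ : ℝ} (hs : |σ| ≤ 1 / 4) : F 1 a σ = σ ^ 3 - 3 * a * σ := by
  unfold F
  rw [p_lo hs, g_lo hs]
  ring

theorem F_le {a σ : ℝ} (ha : |a| ≤ a₀) (hs : σ ≤ 1 / 4) : F 1 a σ ≤ F 1 a (1 / 4) := by
  have ha' : a₀ ≤ 1 / 1200 := by nlinarith
  have haa := abs_le.1 ha
  have q1 : |(1 / 4 : ℝ)| ≤ 1 / 4 := by rw [abs_of_pos (by norm_num)]
  have q2 : |(-(1 / 4) : ℝ)| ≤ 1 / 4 := by rw [abs_neg]; exact q1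
  have key : ∀ s : ℝ, |s| ≤ 1 / 4 → F 1 a s ≤ F 1 a (1 / 4) := by
    intro s hs
    rw [F_mid hC hC1 ha₀ haC hs, F_mid hC hC1 ha₀ haC q1]
    obtain ⟨s1, s2⟩ := abs_le.1 hs
    have : 0 ≤ (1 / 4 - s) * ((1 / 4) ^ 2 + s / 4 + s ^ 2 - 3 * a) := by
      apply mul_nonneg (by linarith)
      nlinarith [sq_nonneg (s + 1 / 8)]
    nlinarith
  rcases le_or_gt (-(1 / 4)) σ with h1 | h1
  · exact key σ (abs_le.2 ⟨h1, hs⟩)
  · have h2 := F_mono_left hC hC1 ha₀ haC ha (mem_Iic.2 h1.le) (mem_Iic.2 le_rfl) h1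
    exact h2.le.trans (key _ q2)

theorem F_ge {a σ : ℝ} (ha : |a| ≤ a₀) (hs : -(1 / 4) ≤ σ) : F 1 a (-(1 / 4)) ≤ F 1 a σ := by
  have ha' : a₀ ≤ 1 / 1200 := by nlinarith
  have haa := abs_le.1 ha
  have q1 : |(1 / 4 : ℝ)| ≤ 1 / 4 := by rw [abs_of_pos (by norm_num)]
  have q2 : |(-(1 / 4) : ℝ)| ≤ 1 / 4 := by rw [abs_neg]; exact q1
  have key : ∀ s : ℝ, |s| ≤ 1 / 4 → F 1 a (-(1 / 4)) ≤ F 1 a s := by
    intro s hs
    rw [F_mid hC hC1 ha₀ haC hs, F_mid hC hC1 ha₀ haC q2]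
    obtain ⟨s1, s2⟩ := abs_le.1 hs
    have : 0 ≤ (1 / 4 + s) * ((1 / 4) ^ 2 - s / 4 + s ^ 2 - 3 * a) := by
      apply mul_nonneg (by linarith)
      nlinarith [sq_nonneg (s - 1 / 8)]
    nlinarith
  rcases le_or_gt σ (1 / 4) with h1 | h1
  · exact key σ (abs_le.2 ⟨hs, h1⟩)
  · have h2 := F_mono_right hC hC1 ha₀ haC ha (mem_Ici.2 le_rfl) (mem_Ici.2 h1.le) h1
    exact (key _ q1).trans h2.le

/-- double points are in the middle part -/
theorem F_double {a σ τ : ℝ} (ha : |a| ≤ a₀) (hlt : σ < τ) (he : F 1 a σ = F 1 a τ) :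
    |σ| ≤ 1 / 4 ∧ |τ| ≤ 1 / 4 := by
  have h1 : τ ≤ 1 / 4 := by
    by_contra hcon
    push Not at hcon
    rcases le_or_gt σ (1 / 4) with h1 | h1
    · have h2 := F_mono_right hC hC1 ha₀ haC ha (mem_Ici.2 le_rfl) (mem_Ici.2 hcon.le) hcon
      have h3 := F_le hC hC1 ha₀ haC ha h1
      linarith
    · have h2 := F_mono_right hC hC1 ha₀ haC ha (mem_Ici.2 h1.le) (mem_Ici.2 hcon.le) hlt
      linarith
  have h2 : -(1 / 4) ≤ σ := by
    by_contra hcon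
    push Not at hcon
    rcases le_or_gt (-(1 / 4)) τ with h1 | h1
    · have h2 := F_mono_left hC hC1 ha₀ haC ha (mem_Iic.2 hcon.le) (mem_Iic.2 le_rfl) hcon
      have h3 := F_ge hC hC1 ha₀ haC ha h1
      linarith
    · have h2 := F_mono_left hC hC1 ha₀ haC ha (mem_Iic.2 hcon.le) (mem_Iic.2 h1.le) hlt
      linarith
  exact ⟨abs_le.2 ⟨h2, by linarith⟩, abs_le.2 ⟨by linarith, h1⟩⟩

end

/-! ### the parameters -/

noncomputable def rr (u q : ℝ) : ℝ := (u - 1 / 2) ^ 2 + (q - 1 / 2) ^ 2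
noncomputable def kap (u q : ℝ) : ℝ := step (1 - 25 * rr u q)
noncomputable def kap2 (u q : ℝ) : ℝ := step (3 - 50 * rr u q)
noncomputable def lam (u q : ℝ) : ℝ := step (5 - 50 * rr u q)

theorem lam_lt {u q : ℝ} (hl : lam u q ≠ 1) : kap u q = 0 ∧ kap2 u q = 0 := by
  have h1 : 5 - 50 * rr u q < 1 := by
    by_contra hcon
    push Not at hcon
    exact hl (st1 hcon)
  exact ⟨st0 (by linarith), st0 (by linarith)⟩

theorem kap_ne {u q : ℝ} (hk : kap u q ≠ 0) : kap2 u q = 1 := by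
  have h1 : 0 < 1 - 25 * rr u q := by
    by_contra hcon
    push Not at hcon
    exact hk (st0 hcon)
  exact st1 (by linarith)

theorem out_rr {u q : ℝ} (hu : u ∉ Ioo (0 : ℝ) 1 ∨ q ∉ Ioo (0 : ℝ) 1) : 1 / 4 ≤ rr u q := by
  have key : ∀ v : ℝ, v ∉ Ioo (0 : ℝ) 1 → 1 / 4 ≤ (v - 1 / 2) ^ 2 := by
    intro v hv
    rcases le_or_gt v 0 with h | h
    · nlinarith
    · have : 1 ≤ v := by
        by_contra hcon
        push Not at hcon
        exact hv ⟨h, hcon⟩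
      nlinarith
  unfold rr
  rcases hu with h | h
  · nlinarith [key u h, sq_nonneg (q - 1 / 2)]
  · nlinarith [key q h, sq_nonneg (u - 1 / 2)]

theorem kap2_bound (u q : ℝ) : |kap2 u q * (u - 1 / 2)| ≤ 1 ∧ |kap2 u q * (q - 1 / 2)| ≤ 1 := by
  have key : kap2 u q = 0 ∨ (u - 1 / 2) ^ 2 ≤ 1 ∧ (q - 1 / 2) ^ 2 ≤ 1 := by
    rcases le_or_gt (3 - 50 * rr u q) 0 with h | h
    · exact Or.inl (st0 h)
    · right
      unfold rr at h
      constructor <;> nlinarith [sq_nonneg (u - 1 / 2), sq_nonneg (q - 1 / 2)]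
  have k0 : 0 ≤ kap2 u q := stn _
  have k1 : kap2 u q ≤ 1 := stl _
  rcases key with h | ⟨h1, h2⟩
  · rw [h]; simp
  · have b1 : |u - 1 / 2| ≤ 1 := by
      rw [← sq_le_one_iff_abs_le_one]; exact h1
    have b2 : |q - 1 / 2| ≤ 1 := by
      rw [← sq_le_one_iff_abs_le_one]; exact h2
    rw [abs_mul, abs_mul, abs_of_nonneg k0]
    exact ⟨mul_le_one₀ k1 (abs_nonneg _) b1, mul_le_one₀ k1 (abs_nonneg _) b2⟩

/-- the family, with real coordinates -/
noncomputable def y (a₀ : ℝ) (z : ℝ × ℝ × ℝ) : ℝ × ℝ × ℝ × ℝ :=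
  (F (lam z.1 z.2.1) (a₀ * (2 * kap z.1 z.2.1 - 1)) z.2.2, lam z.1 z.2.1 * h z.2.2,
    kap2 z.1 z.2.1 * (z.1 - 1 / 2) * g z.2.2, kap2 z.1 z.2.1 * (z.2.1 - 1 / 2) * g z.2.2)

theorem y_s (a₀ : ℝ) : ContDiff ℝ ∞ (y a₀) := by
  have h1 : ContDiff ℝ ∞ (fun z : ℝ × ℝ × ℝ => kap z.1 z.2.1) :=
    sts.comp (by unfold rr; fun_prop)
  have h2 : ContDiff ℝ ∞ (fun z : ℝ × ℝ × ℝ => kap2 z.1 z.2.1) :=
    sts.comp (by unfold rr; fun_prop)
  have h3 : ContDiff ℝ ∞ (fun z : ℝ × ℝ × ℝ => lam z.1 z.2.1) :=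
    sts.comp (by unfold rr; fun_prop)
  have h4 : ContDiff ℝ ∞ (fun z : ℝ × ℝ × ℝ => p z.2.2) := p_s.comp (by fun_prop)
  have h5 : ContDiff ℝ ∞ (fun z : ℝ × ℝ × ℝ => g z.2.2) := g_s.comp (by fun_prop)
  have h6 : ContDiff ℝ ∞ (fun z : ℝ × ℝ × ℝ => h z.2.2) := h_s.comp (by fun_prop)
  unfold y F
  fun_prop

/-- real coordinates on `R4` -/
noncomputable def E : (ℝ × ℝ × ℝ × ℝ) ≃L[ℝ] R4 :=
  (ContinuousLinearEquiv.refl ℝ ℝ).prodCongr
    ((ContinuousLinearEquiv.refl ℝ ℝ).prodCongr Complex.equivRealProdCLM.symm)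

theorem E_apply (a b c d : ℝ) : E (a, b, c, d) = (a, (b, (⟨c, d⟩ : ℂ))) := by
  rfl

/-! ### the value at the centre -/

theorem rr_c : rr (1 / 2) (1 / 2) = 0 := by unfold rr; norm_num

theorem kap_c : kap (1 / 2) (1 / 2) = 1 := st1 (by rw [rr_c]; norm_num)

theorem kap2_c : kap2 (1 / 2) (1 / 2) = 1 := st1 (by rw [rr_c]; norm_num)

theorem lam_c : lam (1 / 2) (1 / 2) = 1 := st1 (by rw [rr_c]; norm_num)

/-- the derivative of the step function vanishes at `1` -/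
theorem step_der {r : ℝ → ℝ} (hr : HasDerivAt r 0 0) (_ : r 0 = 0) :
    HasDerivAt (fun t => step (1 - 25 * r t)) 0 0 := by
  have d1 : HasDerivAt (fun t => 1 - 25 * r t) 0 0 := by
    refine ((hr.const_mul 25).const_sub 1).congr_deriv ?_
    simp
  have d2 : HasDerivAt step (deriv step (1 - 25 * r 0)) (1 - 25 * r 0) :=
    (sts.differentiable (by simp) _).hasDerivAt
  refine (d2.comp (0 : ℝ) d1).congr_deriv ?_
  simp

/-- the derivative at the double point -/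
theorem fderiv_y {a₀ s : ℝ} (hs : |s| < 1 / 4) (ζ η σ : ℝ) :
    fderiv ℝ (y a₀) (1 / 2, 1 / 2, s) (ζ, η, σ) =
      ((3 * s ^ 2 - 3 * a₀) * σ, 2 * s * σ, s * ζ, s * η) := by
  have hL : HasDerivAt (fun t : ℝ => y a₀ (1 / 2 + t * ζ, 1 / 2 + t * η, s + t * σ))
      (fderiv ℝ (y a₀) (1 / 2, 1 / 2, s) (ζ, η, σ)) 0 := by
    have d1 : HasDerivAt (fun t : ℝ => ((1 / 2 + t * ζ, 1 / 2 + t * η, s + t * σ) : ℝ × ℝ × ℝ))
        (ζ, η, σ) 0 := by
      have e : ∀ a b : ℝ, HasDerivAt (fun t : ℝ => a + t * b) b 0 := fun a b => by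
        refine (((hasDerivAt_id (0 : ℝ)).mul_const b).const_add a).congr_deriv ?_
        simp
      exact (e _ _).prodMk ((e _ _).prodMk (e _ _))
    have d2 := ((y_s a₀).differentiable (by simp) (1 / 2, 1 / 2, s)).hasFDerivAt
    have d3 : HasFDerivAt (y a₀) (fderiv ℝ (y a₀) (1 / 2, 1 / 2, s))
        ((fun t : ℝ => ((1 / 2 + t * ζ, 1 / 2 + t * η, s + t * σ) : ℝ × ℝ × ℝ)) 0) := by
      have e0 : ((fun t : ℝ => ((1 / 2 + t * ζ, 1 / 2 + t * η, s + t * σ) : ℝ × ℝ × ℝ)) 0) =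
          (1 / 2, 1 / 2, s) := by simp
      rw [e0]
      exact d2
    exact d3.comp_hasDerivAt (0 : ℝ) d1
  -- the explicit curve
  have hM : HasDerivAt (fun t : ℝ => (((s + t * σ) ^ 3 - 3 * (a₀ * (2 * step (1 - 25 *
      (t ^ 2 * (ζ ^ 2 + η ^ 2))) - 1)) * (s + t * σ), (s + t * σ) ^ 2, t * ζ * (s + t * σ),
      t * η * (s + t * σ)) : ℝ × ℝ × ℝ × ℝ))
      ((3 * s ^ 2 - 3 * a₀) * σ, 2 * s * σ, s * ζ, s * η) 0 := by
    have e : HasDerivAt (fun t : ℝ => s + t * σ) σ 0 := by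
      refine (((hasDerivAt_id (0 : ℝ)).mul_const σ).const_add s).congr_deriv ?_
      simp
    have r1 : HasDerivAt (fun t : ℝ => t ^ 2 * (ζ ^ 2 + η ^ 2)) 0 0 := by
      refine ((hasDerivAt_pow 2 (0 : ℝ)).mul_const _).congr_deriv ?_
      simp
    have st := step_der r1 (by simp)
    have c1 : HasDerivAt (fun t : ℝ => 3 * (a₀ * (2 * step (1 - 25 *
      (t ^ 2 * (ζ ^ 2 + η ^ 2))) - 1))) 0 0 := by
      refine ((((st.const_mul 2).sub_const 1).const_mul a₀).const_mul 3).congr_deriv ?_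
      simp
    refine HasDerivAt.prodMk ?_ (HasDerivAt.prodMk ?_ (HasDerivAt.prodMk ?_ ?_))
    · refine ((e.pow 3).sub (c1.mul e)).congr_deriv ?_
      have : step 1 = 1 := st1 le_rfl
      simp [this]
      ring
    · refine (e.pow 2).congr_deriv ?_
      simp
    · refine (((hasDerivAt_id (0 : ℝ)).mul_const ζ).mul e).congr_deriv ?_
      simp
      ring
    · refine (((hasDerivAt_id (0 : ℝ)).mul_const η).mul e).congr_deriv ?_
      simp
      ring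
  have hev : (fun t : ℝ => y a₀ (1 / 2 + t * ζ, 1 / 2 + t * η, s + t * σ)) =ᶠ[𝓝 0]
      (fun t : ℝ => (((s + t * σ) ^ 3 - 3 * (a₀ * (2 * step (1 - 25 *
      (t ^ 2 * (ζ ^ 2 + η ^ 2))) - 1)) * (s + t * σ), (s + t * σ) ^ 2, t * ζ * (s + t * σ),
      t * η * (s + t * σ)) : ℝ × ℝ × ℝ × ℝ)) := by
    have o1 : IsOpen {t : ℝ | |s + t * σ| < 1 / 4} :=
      isOpen_lt (by fun_prop) continuous_const
    have o2 : IsOpen {t : ℝ | t ^ 2 * (ζ ^ 2 + η ^ 2) < 1 / 50} :=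
      isOpen_lt (by fun_prop) continuous_const
    have m1 : (0 : ℝ) ∈ {t : ℝ | |s + t * σ| < 1 / 4} := by simpa using hs
    have m2 : (0 : ℝ) ∈ {t : ℝ | t ^ 2 * (ζ ^ 2 + η ^ 2) < 1 / 50} := by simp
    filter_upwards [o1.mem_nhds m1, o2.mem_nhds m2] with t h1 h2
    have h1' : |s + t * σ| ≤ 1 / 4 := le_of_lt h1
    have h2' : t ^ 2 * (ζ ^ 2 + η ^ 2) < 1 / 50 := h2
    have er : rr (1 / 2 + t * ζ) (1 / 2 + t * η) = t ^ 2 * (ζ ^ 2 + η ^ 2) := by
      unfold rr; ring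
    have el : lam (1 / 2 + t * ζ) (1 / 2 + t * η) = 1 := st1 (by rw [er]; linarith)
    have ek : kap2 (1 / 2 + t * ζ) (1 / 2 + t * η) = 1 := st1 (by rw [er]; linarith)
    unfold y
    simp only
    unfold kap F
    rw [el, ek, er, p_lo h1', g_lo h1', h_lo h1']
    ext
    · simp only; ring
    · simp only; ring
    · simp only; ring
    · simp only; ring
  exact hL.unique (hM.congr_of_eventuallyEq hev)

end CUM

open CUM

/-- MODULE CUM. -/
theorem m_CUM : StCUM := by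
  obtain ⟨C, hC1, hC⟩ := dg_bound
  have hC0 : 0 < C := by linarith
  obtain ⟨σ₀, hσ₀⟩ : ∃ s : ℝ, s = 1 / (20 * C) := ⟨_, rfl⟩
  obtain ⟨a₀, ha₀'⟩ : ∃ a : ℝ, a = σ₀ ^ 2 / 3 := ⟨_, rfl⟩
  have hσ0 : 0 < σ₀ := by rw [hσ₀]; positivity
  have hσC : σ₀ * C = 1 / 20 := by rw [hσ₀]; field_simp
  have hσ1 : σ₀ ≤ 1 / 20 := by nlinarith
  have ha₀ : 0 < a₀ := by rw [ha₀']; positivity
  have h3a : 3 * a₀ = σ₀ ^ 2 := by rw [ha₀']; ring
  have haC : 3 * a₀ * C ≤ 1 / 400 := by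
    rw [h3a]
    have : σ₀ ^ 2 * C = σ₀ * (σ₀ * C) := by ring
    rw [this, hσC]
    linarith
  have hsl : |σ₀| < 1 / 4 := by rw [abs_of_pos hσ0]; linarith
  have hsl' : |-σ₀| < 1 / 4 := by rw [abs_neg]; exact hsl
  -- parameters
  have hka : ∀ u q : ℝ, |a₀ * (2 * kap u q - 1)| ≤ a₀ := by
    intro u q
    have k0 : 0 ≤ kap u q := stn _
    have k1 : kap u q ≤ 1 := stl _
    rw [abs_le]
    constructor <;> nlinarith
  have hl0 : ∀ u q : ℝ, 0 ≤ lam u q := fun u q => stn _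
  have hl1 : ∀ u q : ℝ, lam u q ≤ 1 := fun u q => stl _
  have hlam : ∀ u q : ℝ, lam u q ≠ 1 → a₀ * (2 * kap u q - 1) = -a₀ := by
    intro u q hl
    rw [(lam_lt hl).1]
    ring
  have hyx : ∀ u q σ : ℝ, E (y a₀ (u, q, σ)) = (F (lam u q) (a₀ * (2 * kap u q - 1)) σ,
      (lam u q * h σ, (⟨kap2 u q * (u - 1 / 2) * g σ, kap2 u q * (q - 1 / 2) * g σ⟩ : ℂ))) :=
    fun u q σ => E_apply _ _ _ _
  refine ⟨fun z => E (y a₀ z), σ₀, hσ0, by linarith, E.contDiff.comp (y_s a₀), ?_, ?_, ?_, ?_,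
    ?_, ?_⟩
  · -- (i)
    intro u q σ hh
    simp only
    rw [hyx]
    by_cases hs : 1 ≤ |σ|
    · unfold F
      rw [p_hi hs, g_hi hs, h_hi hs]
      refine Prod.ext ?_ (Prod.ext ?_ ?_)
      · simp only; ring
      · simp
      · exact Complex.ext (by simp) (by simp)
    · have hh' : u ∉ Ioo (0 : ℝ) 1 ∨ q ∉ Ioo (0 : ℝ) 1 := hh.resolve_left hs
      have hr := out_rr hh'
      have e1 : lam u q = 0 := st0 (by linarith)
      have e2 : kap2 u q = 0 := st0 (by linarith)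
      unfold F
      rw [e1, e2]
      refine Prod.ext ?_ (Prod.ext ?_ ?_)
      · simp
      · simp
      · exact Complex.ext (by simp) (by simp)
  · -- (ii)
    intro u q σ hs
    simp only
    rw [hyx]
    have b1 : |p σ| ≤ 1 := by
      obtain ⟨s1, s2⟩ := abs_le.1 hs
      have t0 : 0 ≤ T σ := stn _
      have t1 : T σ ≤ 1 := stl _
      have c1 : |σ ^ 3| ≤ 1 := by
        rw [abs_pow]
        exact pow_le_one₀ (abs_nonneg _) hs
      have c2 := abs_le.1 c1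
      unfold p
      rw [abs_le]
      constructor <;> nlinarith
    have c0 : 0 ≤ ch σ := stn _
    have c1 : ch σ ≤ 1 := stl _
    have b2 : |g σ| ≤ 1 := by
      unfold g
      rw [abs_mul, abs_of_nonneg c0]
      exact mul_le_one₀ c1 (abs_nonneg _) hs
    have b3 : |h σ| ≤ 1 := by
      unfold h
      rw [abs_mul, abs_of_nonneg c0, abs_pow]
      exact mul_le_one₀ c1 (by positivity) (pow_le_one₀ (abs_nonneg _) hs)
    have b4 : |3 * (a₀ * (2 * kap u q - 1)) * g σ| ≤ 1 := by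
      rw [abs_mul, abs_mul, abs_of_pos (by norm_num : (0 : ℝ) < 3)]
      have k1 := hka u q
      have k2 : 3 * |a₀ * (2 * kap u q - 1)| ≤ 1 := by nlinarith
      exact mul_le_one₀ k2 (abs_nonneg _) b2
    have b5 : |F (lam u q) (a₀ * (2 * kap u q - 1)) σ| ≤ 2 := by
      obtain ⟨s1, s2⟩ := abs_le.1 hs
      obtain ⟨p1, p2⟩ := abs_le.1 b1
      obtain ⟨q1, q2⟩ := abs_le.1 b4
      have := hl0 u q
      have := hl1 u q
      unfold F
      rw [abs_le]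
      constructor <;> nlinarith
    have b6 : |lam u q * h σ| ≤ 1 := by
      rw [abs_mul, abs_of_nonneg (hl0 u q)]
      exact mul_le_one₀ (hl1 u q) (abs_nonneg _) b3
    obtain ⟨b7, b8⟩ := kap2_bound u q
    have b9 : ‖(⟨kap2 u q * (u - 1 / 2) * g σ, kap2 u q * (q - 1 / 2) * g σ⟩ : ℂ)‖ ≤ 2 := by
      refine (Complex.norm_le_abs_re_add_abs_im _).trans ?_
      simp only
      rw [abs_mul (kap2 u q * (u - 1 / 2)) (g σ), abs_mul (kap2 u q * (q - 1 / 2)) (g σ)]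
      have := mul_le_one₀ b7 (abs_nonneg _) b2
      have := mul_le_one₀ b8 (abs_nonneg _) b2
      linarith
    rw [Prod.norm_def, Prod.norm_def]
    refine max_le ?_ (max_le ?_ ?_)
    · exact (le_of_eq (Real.norm_eq_abs _)).trans (b5.trans (by norm_num))
    · exact (le_of_eq (Real.norm_eq_abs _)).trans (b6.trans (by norm_num))
    · exact b9.trans (by norm_num)
  · -- (iii)
    intro u q σ hz
    have dF := hasDerivAt_F (lam u q) (a₀ * (2 * kap u q - 1)) σ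
    have dh : HasDerivAt h (deriv h σ) σ := (h_s.differentiable (by simp) _).hasDerivAt
    have dg : HasDerivAt g (deriv g σ) σ := (g_s.differentiable (by simp) _).hasDerivAt
    have dy : HasDerivAt (fun σ => y a₀ (u, q, σ))
        ((1 - lam u q) + lam u q * (deriv p σ - 3 * (a₀ * (2 * kap u q - 1)) * deriv g σ),
          lam u q * deriv h σ, kap2 u q * (u - 1 / 2) * deriv g σ,
          kap2 u q * (q - 1 / 2) * deriv g σ) σ :=
      dF.prodMk ((dh.const_mul (lam u q)).prodMk ((dg.const_mul (kap2 u q * (u - 1 / 2))).prodMk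
        (dg.const_mul (kap2 u q * (q - 1 / 2)))))
    have dx : HasDerivAt (fun σ => E (y a₀ (u, q, σ)))
        (E ((1 - lam u q) + lam u q * (deriv p σ - 3 * (a₀ * (2 * kap u q - 1)) * deriv g σ),
          lam u q * deriv h σ, kap2 u q * (u - 1 / 2) * deriv g σ,
          kap2 u q * (q - 1 / 2) * deriv g σ)) σ :=
      E.hasFDerivAt.comp_hasDerivAt σ dy
    rw [dx.deriv] at hz
    have hz' := E.map_eq_zero_iff.1 hz
    have z1 := congrArg Prod.fst hz'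
    have z2 := congrArg (fun w : ℝ × ℝ × ℝ × ℝ => w.2.1) hz'
    have z3 := congrArg (fun w : ℝ × ℝ × ℝ × ℝ => w.2.2.1) hz'
    have z4 := congrArg (fun w : ℝ × ℝ × ℝ × ℝ => w.2.2.2) hz'
    simp only [Prod.fst_zero, Prod.snd_zero] at z1 z2 z3 z4
    rcases le_or_gt (1 / 4) |σ| with hs | hs
    · exact absurd z1 (ne_of_gt (dF_out hC hC1 ha₀ haC (hl0 u q) (hl1 u q) (hka u q) hs))
    · by_cases hl : lam u q = 1
      · rw [dp_lo hs, dg_lo hs, hl] at z1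
        rw [dh_lo hs, hl] at z2
        rw [dg_lo hs] at z3 z4
        have s0 : σ = 0 := by linarith
        rw [s0] at z1
        have k1 : kap u q = 1 / 2 := by
          have : a₀ * (2 * kap u q - 1) = 0 := by linarith
          rcases mul_eq_zero.1 this with h | h
          · linarith
          · linarith
        have k2 : kap2 u q = 1 := kap_ne (by rw [k1]; norm_num)
        rw [k2] at z3 z4
        have u0 : u = 1 / 2 := by linarith
        have q0 : q = 1 / 2 := by linarith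
        rw [u0, q0, kap_c] at k1
        norm_num at k1
      · have := dF_neg hC hC1 ha₀ haC (σ := σ) (hl0 u q) (hl1 u q)
        rw [hlam u q hl] at z1
        linarith
  · -- (iv)
    intro u q σ τ hlt he
    simp only at he
    have he' := E.injective he
    have z1 : F (lam u q) (a₀ * (2 * kap u q - 1)) σ = F (lam u q) (a₀ * (2 * kap u q - 1)) τ :=
      congrArg Prod.fst he'
    have z2 : lam u q * h σ = lam u q * h τ := congrArg (fun w : ℝ × ℝ × ℝ × ℝ => w.2.1) he'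
    have z3 : kap2 u q * (u - 1 / 2) * g σ = kap2 u q * (u - 1 / 2) * g τ :=
      congrArg (fun w : ℝ × ℝ × ℝ × ℝ => w.2.2.1) he'
    have z4 : kap2 u q * (q - 1 / 2) * g σ = kap2 u q * (q - 1 / 2) * g τ :=
      congrArg (fun w : ℝ × ℝ × ℝ × ℝ => w.2.2.2) he'
    by_cases hl : lam u q = 1
    · rw [hl] at z1 z2
      obtain ⟨hs, ht⟩ := F_double hC hC1 ha₀ haC (hka u q) hlt z1
      rw [F_mid hC hC1 ha₀ haC hs, F_mid hC hC1 ha₀ haC ht] at z1
      rw [h_lo hs, h_lo ht] at z2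
      rw [g_lo hs, g_lo ht] at z3 z4
      have hst : σ = -τ := by
        have : (σ - τ) * (σ + τ) = 0 := by linarith
        rcases mul_eq_zero.1 this with h | h
        · linarith
        · linarith
      have htp : 0 < τ := by linarith
      rw [hst] at z1 z3 z4
      have h3 : τ ^ 2 = 3 * (a₀ * (2 * kap u q - 1)) := by
        have : τ * (τ ^ 2 - 3 * (a₀ * (2 * kap u q - 1))) = 0 := by linarith
        rcases mul_eq_zero.1 this with h | h
        · linarith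
        · linarith
      have hk : 0 < kap u q := by
        by_contra hcon
        push Not at hcon
        have : 0 < τ ^ 2 := by positivity
        nlinarith
      have k2 : kap2 u q = 1 := kap_ne (ne_of_gt hk)
      rw [k2] at z3 z4
      have u0 : u = 1 / 2 := by
        have : (u - 1 / 2) * τ = 0 := by linarith
        rcases mul_eq_zero.1 this with h | h
        · linarith
        · linarith
      have q0 : q = 1 / 2 := by
        have : (q - 1 / 2) * τ = 0 := by linarith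
        rcases mul_eq_zero.1 this with h | h
        · linarith
        · linarith
      rw [u0, q0, kap_c] at h3
      have h4 : τ ^ 2 = σ₀ ^ 2 := by rw [h3, ← h3a]; ring
      have h5 : τ = σ₀ := by
        have : (τ - σ₀) * (τ + σ₀) = 0 := by linarith
        rcases mul_eq_zero.1 this with h | h
        · linarith
        · linarith
      exact ⟨u0, q0, by rw [hst, h5], h5⟩
    · rw [hlam u q hl] at z1
      exact absurd z1 (ne_of_lt (F_mono_neg hC hC1 ha₀ haC (hl0 u q) (hl1 u q) hlt))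
  · -- (v)
    simp only
    rw [hyx, hyx, lam_c, kap_c, F_mid hC hC1 ha₀ haC hsl.le, F_mid hC hC1 ha₀ haC hsl'.le,
      g_lo hsl.le, g_lo hsl'.le, h_lo hsl.le, h_lo hsl'.le]
    have e1 : σ₀ ^ 3 - 3 * (a₀ * (2 * 1 - 1)) * σ₀ = 0 := by
      have : 3 * (a₀ * (2 * 1 - 1)) = σ₀ ^ 2 := by rw [← h3a]; ring
      rw [this]; ring
    have e2 : (-σ₀) ^ 3 - 3 * (a₀ * (2 * 1 - 1)) * (-σ₀) = 0 := by
      have : 3 * (a₀ * (2 * 1 - 1)) = σ₀ ^ 2 := by rw [← h3a]; ring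
      rw [this]; ring
    rw [e1, e2]
    ext <;> simp
  · -- (vi)
    intro ζ η σ τ he
    have hd : ∀ z, fderiv ℝ (fun z => E (y a₀ z)) z = (E : (ℝ × ℝ × ℝ × ℝ) →L[ℝ] R4).comp
        (fderiv ℝ (y a₀) z) := fun z =>
      (E.hasFDerivAt.comp z ((y_s a₀).differentiable (by simp) z).hasFDerivAt).fderiv
    rw [hd, hd] at he
    have he' : fderiv ℝ (y a₀) (1 / 2, 1 / 2, -σ₀) (ζ, η, σ) =
        fderiv ℝ (y a₀) (1 / 2, 1 / 2, σ₀) (ζ, η, τ) := E.injective he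
    rw [fderiv_y hsl, fderiv_y hsl'] at he'
    have z2 := congrArg (fun w : ℝ × ℝ × ℝ × ℝ => w.1) he'
    have z1 := congrArg (fun w : ℝ × ℝ × ℝ × ℝ => w.2.1) he'
    have z3 := congrArg (fun w : ℝ × ℝ × ℝ × ℝ => w.2.2.1) he'
    have z4 := congrArg (fun w : ℝ × ℝ × ℝ × ℝ => w.2.2.2) he'
    simp only at z1 z2 z3 z4
    have e3 : 3 * (-σ₀) ^ 2 - 3 * a₀ = 2 * σ₀ ^ 2 := by rw [h3a]; ring
    have e4 : 3 * σ₀ ^ 2 - 3 * a₀ = 2 * σ₀ ^ 2 := by rw [h3a]; ring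
    rw [e3, e4] at z2
    have n1 : σ - τ = 0 := by
      have : σ₀ ^ 2 * (σ - τ) = 0 := by linarith
      rcases mul_eq_zero.1 this with h | h
      · exact absurd h (by positivity)
      · exact h
    have n2 : σ + τ = 0 := by
      have : σ₀ * (σ + τ) = 0 := by linarith
      rcases mul_eq_zero.1 this with h | h
      · linarith
      · exact h
    have n3 : ζ = 0 := by
      have : σ₀ * ζ = 0 := by linarith
      rcases mul_eq_zero.1 this with h | h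
      · linarith
      · exact h
    have n4 : η = 0 := by
      have : σ₀ * η = 0 := by linarith
      rcases mul_eq_zero.1 this with h | h
      · linarith
      · exact h
    exact ⟨n3, n4, by linarith, by linarith⟩

end Pool.Agent.Helper27.H


end
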