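import Pool.Agent.Helper65.Barb.Defs
import Pool.Agent.Helper70.BI.C.P18
import Pool.Agent.Helper70.BI.C.P39

/-!
# Project BI (MP_8e98f2_gt): collected modules, part 40

The contents of the modules
* Helper27.BI.H.M_THK
* Helper27.BI.H.M_CUT

in one file, so that the whole proof builds in a short time.
-/

namespace Pool.Agent.Helper18.BI
end Pool.Agent.Helper18.BI

namespace Pool.Agent.Helper34.BI
end Pool.Agent.Helper34.BI

namespace Pool.Agent.Helper65.Barb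
end Pool.Agent.Helper65.Barb

namespace Pool.Agent.Helper70.BI
end Pool.Agent.Helper70.BI


/-! ## Helper27.BI.H.M_THK -/

section

/-!
# Project BI, stage 3 (H): canonical quaternionic thickening of a family of arcs (MODULE THK)
-/

set_option autoImplicit false

open scoped Manifold ContDiff Topology ComplexConjugate
open Set Filter Pool.Agent.Helper65.Barb Pool.Agent.Helper18.BI
open Pool.Agent.Helper70.BI (I4 LD embOn_iff)
open Pool.Agent.Helper34.BI (qmul qinv qmul_qinv_qmul qmul_qinv_self_qmul qmul_injective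
  qinv_ne_zero contDiffAt_qinv qmul_apply toQ)

namespace Pool.Agent.Helper27.H

namespace THK

/-- the linear correction of the thickening -/
noncomputable def corr (G : R4 → R4) (c : ℝ → R4) (x : ℝ × ℝ → ℝ → R4) (z : (ℝ × ℝ) × ℝ) :
    R4 →L[ℝ] R4 :=
  (qmul (deriv (x z.1) z.2 - deriv c z.2)).comp
    ((qmul (qinv (deriv c z.2))).comp (fderiv ℝ G (z.2, 0)))

theorem thk_eq (G : R4 → R4) (c : ℝ → R4) (x : ℝ × ℝ → ℝ → R4) (a : ℝ × ℝ) (p : R4) :
    thk G c (x a) p = G p + (x a p.1 - c p.1) + corr G c x (a, p.1) (0, p.2) := rfl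

section
variable {G : R4 → R4} {c : ℝ → R4} {x : ℝ × ℝ → ℝ → R4}

theorem hasDerivAt_x (hx : ContDiff ℝ ∞ (fun z : (ℝ × ℝ) × ℝ => x z.1 z.2)) (z : (ℝ × ℝ) × ℝ) :
    HasDerivAt (x z.1) (fderiv ℝ (fun z : (ℝ × ℝ) × ℝ => x z.1 z.2) z (0, 1)) z.2 := by
  have l : HasDerivAt (fun r : ℝ => ((z.1, r) : (ℝ × ℝ) × ℝ)) (0, 1) z.2 :=
    (hasDerivAt_const z.2 z.1).prodMk (hasDerivAt_id z.2)
  exact HasFDerivAt.comp_hasDerivAt_of_eq z.2
    ((hx.differentiable (by simp) z).hasFDerivAt) l rfl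

theorem contDiffAt_corr (hc : ContDiff ℝ ∞ c)
    (hx : ContDiff ℝ ∞ (fun z : (ℝ × ℝ) × ℝ => x z.1 z.2)) {z : (ℝ × ℝ) × ℝ}
    (h2 : ContDiffAt ℝ ∞ G (z.2, 0)) (h3 : deriv c z.2 ≠ 0) :
    ContDiffAt ℝ ∞ (corr G c x) z := by
  have e1 : ContDiffAt ℝ ∞ (fun z : (ℝ × ℝ) × ℝ => deriv (x z.1) z.2) z := by
    have e : (fun z : (ℝ × ℝ) × ℝ => deriv (x z.1) z.2) =
        fun z => fderiv ℝ (fun z : (ℝ × ℝ) × ℝ => x z.1 z.2) z (0, 1) := by
      funext z
      exact (hasDerivAt_x hx z).deriv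
    rw [e]
    exact ((hx.fderiv_right (m := ∞) (by simp)).contDiffAt).clm_apply contDiffAt_const
  have hdc : ContDiff ℝ ∞ (deriv c) := ContDiff.deriv' (n := ∞) (by simpa using hc)
  have e2 : ContDiffAt ℝ ∞ (fun z : (ℝ × ℝ) × ℝ => deriv c z.2) z :=
    (hdc.comp contDiff_snd).contDiffAt
  have e3 : ContDiffAt ℝ ∞ (fun z : (ℝ × ℝ) × ℝ => qinv (deriv c z.2)) z :=
    ContDiffAt.comp (g := qinv) (f := fun z : (ℝ × ℝ) × ℝ => deriv c z.2) z
      (contDiffAt_qinv h3) e2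
  have e4 : ContDiffAt ℝ ∞ (fun z : (ℝ × ℝ) × ℝ => fderiv ℝ G ((z.2, 0) : R4)) z := by
    have g1 : ContDiffAt ℝ ∞ (fun z : (ℝ × ℝ) × ℝ => ((z.2, 0) : R4)) z :=
      (contDiff_snd.prodMk contDiff_const).contDiffAt
    have g2 : ContDiffAt ℝ ∞ (fderiv ℝ G) ((z.2, 0) : R4) :=
      h2.fderiv_right (m := ∞) (by simp)
    exact ContDiffAt.comp z g2 g1
  have e5 : ContDiffAt ℝ ∞
      (fun z : (ℝ × ℝ) × ℝ => qmul (deriv (x z.1) z.2 - deriv c z.2)) z :=
    (qmul.contDiff.contDiffAt).comp z (e1.sub e2)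
  have e6 : ContDiffAt ℝ ∞ (fun z : (ℝ × ℝ) × ℝ => qmul (qinv (deriv c z.2))) z :=
    (qmul.contDiff.contDiffAt).comp z e3
  exact e5.clm_comp (e6.clm_comp e4)

/-- pointwise smoothness of the thickening -/
theorem contDiffAt_thk (hc : ContDiff ℝ ∞ c)
    (hx : ContDiff ℝ ∞ (fun z : (ℝ × ℝ) × ℝ => x z.1 z.2)) {a : ℝ × ℝ} {p : R4}
    (h1 : ContDiffAt ℝ ∞ G p) (h2 : ContDiffAt ℝ ∞ G (p.1, 0)) (h3 : deriv c p.1 ≠ 0) :
    ContDiffAt ℝ ∞ (fun z : (ℝ × ℝ) × R4 => thk G c (x z.1) z.2) (a, p) := by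
  have a1 : ContDiffAt ℝ ∞ (fun z : (ℝ × ℝ) × R4 => G z.2) (a, p) :=
    ContDiffAt.comp (a, p) h1 contDiffAt_snd
  have a3 : ContDiffAt ℝ ∞ (fun z : (ℝ × ℝ) × R4 => ((z.1, z.2.1) : (ℝ × ℝ) × ℝ)) (a, p) :=
    (contDiff_fst.prodMk (contDiff_fst.comp contDiff_snd)).contDiffAt
  have a4 : ContDiffAt ℝ ∞ (fun z : (ℝ × ℝ) × R4 => x z.1 z.2.1) (a, p) :=
    ContDiffAt.comp (g := fun z : (ℝ × ℝ) × ℝ => x z.1 z.2)
      (f := fun z : (ℝ × ℝ) × R4 => ((z.1, z.2.1) : (ℝ × ℝ) × ℝ)) (a, p) hx.contDiffAt a3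
  have a5 : ContDiffAt ℝ ∞ (fun z : (ℝ × ℝ) × R4 => c z.2.1) (a, p) :=
    (hc.comp (contDiff_fst.comp contDiff_snd)).contDiffAt
  have a6 : ContDiffAt ℝ ∞ (fun z : (ℝ × ℝ) × R4 => corr G c x (z.1, z.2.1)) (a, p) :=
    ContDiffAt.comp (g := corr G c x)
      (f := fun z : (ℝ × ℝ) × R4 => ((z.1, z.2.1) : (ℝ × ℝ) × ℝ)) (a, p)
      (contDiffAt_corr (z := (a, p.1)) hc hx h2 h3) a3
  have a7 : ContDiffAt ℝ ∞ (fun z : (ℝ × ℝ) × R4 => (((0 : ℝ), z.2.2) : R4)) (a, p) :=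
    (contDiff_const.prodMk (contDiff_snd.comp contDiff_snd)).contDiffAt
  exact (a1.add (a4.sub a5)).add (a6.clm_apply a7)

/-- the derivative of the thickening along the core -/
theorem hasFDerivAt_thk (hc : ContDiff ℝ ∞ c)
    (hx : ContDiff ℝ ∞ (fun z : (ℝ × ℝ) × ℝ => x z.1 z.2)) {a : ℝ × ℝ} {s : ℝ}
    (h2 : ContDiffAt ℝ ∞ G (s, 0)) (h3 : deriv c s ≠ 0)
    (h4 : fderiv ℝ G (s, 0) (1, 0) = deriv c s) :
    HasFDerivAt (thk G c (x a))
      ((qmul (deriv (x a) s)).comp ((qmul (qinv (deriv c s))).comp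
        (fderiv ℝ G (s, 0)))) ((s, 0) : R4) := by
  set p₀ : R4 := (s, 0) with hp₀
  let pr : R4 →L[ℝ] ℝ := ContinuousLinearMap.fst ℝ ℝ (ℝ × ℂ)
  have hpr : ∀ p : R4, pr p = p.1 := fun p => rfl
  have dpr : HasFDerivAt (fun p : R4 => p.1) pr p₀ := pr.hasFDerivAt
  have d1 : HasFDerivAt G (fderiv ℝ G p₀) p₀ := (h2.differentiableAt (by simp)).hasFDerivAt
  have d3 : HasFDerivAt (fun p : R4 => c p.1) (pr.smulRight (deriv c s)) p₀ := by
    have h0 : HasDerivAt c (deriv c s) s := (hc.differentiable (by simp) s).hasDerivAt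
    have h1 := h0.hasFDerivAt.comp p₀ dpr
    refine h1.congr_fderiv ?_
    ext v <;> simp
  have d4 : HasFDerivAt (fun p : R4 => x a p.1) (pr.smulRight (deriv (x a) s)) p₀ := by
    have h0 : HasDerivAt (x a) (deriv (x a) s) s :=
      (hasDerivAt_x hx (a, s)).differentiableAt.hasDerivAt
    have h1 := h0.hasFDerivAt.comp p₀ dpr
    refine h1.congr_fderiv ?_
    ext v <;> simp
  let ℓ : R4 →L[ℝ] R4 := (0 : R4 →L[ℝ] ℝ).prod (ContinuousLinearMap.snd ℝ ℝ (ℝ × ℂ))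
  have d5 : HasFDerivAt (fun p : R4 => (((0 : ℝ), p.2) : R4)) ℓ p₀ := ℓ.hasFDerivAt
  have d6 : DifferentiableAt ℝ (fun p : R4 => corr G c x (a, p.1)) p₀ := by
    have g1 : DifferentiableAt ℝ (corr G c x) (a, s) :=
      (contDiffAt_corr (z := (a, s)) hc hx h2 h3).differentiableAt (by simp)
    have g2 : DifferentiableAt ℝ (fun p : R4 => ((a, p.1) : (ℝ × ℝ) × ℝ)) p₀ := by fun_prop
    exact DifferentiableAt.comp p₀ g1 g2
  have d7 := d6.hasFDerivAt.clm_apply d5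
  have d8 := (d1.add (d4.sub d3)).add d7
  have hval : (((0 : ℝ), p₀.2) : R4) = 0 := by simp [hp₀]
  refine HasFDerivAt.congr_fderiv (f := thk G c (x a)) d8 ?_
  refine ContinuousLinearMap.ext fun v => ?_
  have h7 : fderiv ℝ G p₀ v = v.1 • deriv c s + fderiv ℝ G p₀ (ℓ v) := by
    rw [← h4, ← map_smul, ← map_add]
    congr 1
    ext <;> simp [ℓ]
  have h8 : qmul (deriv c s) (qmul (qinv (deriv c s)) (fderiv ℝ G p₀ v)) = fderiv ℝ G p₀ v :=
    qmul_qinv_qmul h3 _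
  have hB : corr G c x (a, s) = (qmul (deriv (x a) s - deriv c s)).comp
    ((qmul (qinv (deriv c s))).comp (fderiv ℝ G p₀)) := rfl
  have h9 : qmul (qinv (deriv c s)) (deriv c s) = toQ.symm 1 := by
    have hne : toQ (deriv c s) ≠ 0 := by
      intro h0
      exact h3 (by simpa using h0)
    simp only [qmul_apply, qinv, ContinuousLinearEquiv.apply_symm_apply, inv_mul_cancel₀ hne]
  have h10 : ∀ y : R4, qmul y (toQ.symm 1) = y := by
    intro y
    simp only [qmul_apply, ContinuousLinearEquiv.apply_symm_apply, mul_one,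
      ContinuousLinearEquiv.symm_apply_apply]
  simp only [ContinuousLinearMap.add_apply, ContinuousLinearMap.sub_apply,
    ContinuousLinearMap.smulRight_apply, ContinuousLinearMap.comp_apply,
    hval, map_zero, add_zero, hpr]
  have ha : p₀.1 = s := rfl
  simp only [ha]
  rw [hB]
  simp only [ContinuousLinearMap.comp_apply]
  have h14 : qmul (deriv (x a) s) (qmul (qinv (deriv c s)) (fderiv ℝ G p₀ v)) =
      fderiv ℝ G p₀ v + qmul (deriv (x a) s - deriv c s)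
      (qmul (qinv (deriv c s)) (fderiv ℝ G p₀ v)) := by
    rw [map_sub, ContinuousLinearMap.sub_apply, h8]
    abel
  rw [h14]
  conv_rhs => rw [h7]
  rw [map_add, map_add, map_smul, map_smul, h9, h10, h7, ← smul_sub]
  abel

/-- the derivative of the core of a germ, including the ends -/
theorem core_deriv {s₀ s₁ : ℝ} (h01 : s₀ < s₁) (hG : EmbOn I4 G (seg s₀ s₁))
    (hc : ContDiff ℝ ∞ c) (hGc : ∀ s ∈ Icc s₀ s₁, G (s, 0) = c s) {s : ℝ}
    (hs : s ∈ Icc s₀ s₁) : fderiv ℝ G (s, 0) (1, 0) = deriv c s := by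
  have hmem : ((s, 0) : R4) ∈ seg s₀ s₁ := ⟨hs.1, hs.2, rfl⟩
  have hd : HasFDerivAt G (fderiv ℝ G (s, 0)) ((s, 0) : R4) :=
    (((embOn_iff.1 hG).1 _ hmem).1.self_of_nhds.differentiableAt (by simp)).hasFDerivAt
  have l : HasDerivAt (fun r : ℝ => ((r, 0) : R4)) (1, 0) s :=
    (hasDerivAt_id s).prodMk (hasDerivAt_const s _)
  have e1 : HasDerivAt (fun r : ℝ => G (r, 0)) (fderiv ℝ G (s, 0) (1, 0)) s :=
    HasFDerivAt.comp_hasDerivAt_of_eq s hd l rfl
  have e2 : HasDerivAt c (deriv c s) s := (hc.differentiable (by simp) s).hasDerivAt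
  have e3 : HasDerivWithinAt c (fderiv ℝ G (s, 0) (1, 0)) (Icc s₀ s₁) s :=
    e1.hasDerivWithinAt.congr (fun r hr => (hGc r hr).symm) (hGc s hs).symm
  exact (uniqueDiffOn_Icc h01 s hs).eq_deriv _ e3 e2.hasDerivWithinAt

theorem core_ne_zero {s₀ s₁ : ℝ} (h01 : s₀ < s₁) (hG : EmbOn I4 G (seg s₀ s₁))
    (hc : ContDiff ℝ ∞ c) (hGc : ∀ s ∈ Icc s₀ s₁, G (s, 0) = c s) {s : ℝ}
    (hs : s ∈ Icc s₀ s₁) : deriv c s ≠ 0 := by
  rw [← core_deriv h01 hG hc hGc hs]
  intro h0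
  have hmem : ((s, 0) : R4) ∈ seg s₀ s₁ := ⟨hs.1, hs.2, rfl⟩
  have h1 := ((embOn_iff.1 hG).1 _ hmem).2
  have h3 := h1 (h0.trans (map_zero _).symm)
  simp at h3

/-- the value on the core -/
theorem thk_core {s : ℝ} (hGc : G (s, 0) = c s) (y : ℝ → R4) : thk G c y (s, 0) = y s := by
  have h0 : (((0 : ℝ), ((s, 0) : R4).2) : R4) = 0 := rfl
  unfold thk
  rw [h0, map_zero, map_zero, map_zero, hGc, add_zero]
  exact add_sub_cancel (c s) (y s)

/-- locality of the thickening -/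
theorem thk_congr {y y' : ℝ → R4} {p : R4} (h : y =ᶠ[𝓝 p.1] y') :
    thk G c y p = thk G c y' p := by
  unfold thk
  rw [h.deriv_eq, h.self_of_nhds]

theorem thk_base (p : R4) : thk G c c p = G p := by
  unfold thk
  rw [sub_self, sub_self, map_zero, ContinuousLinearMap.zero_apply, add_zero, add_zero]

end

end THK

open THK in
theorem m_THK : StTHK := by
  intro Q s₀ m₀ m₁ s₁ U G c x h₀ h₁ h₂ hU hG hc hGc hx hfroz hxU hinj himm
  have h01 : s₀ < s₁ := by linarith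
  have heq : ∀ p ∈ seg s₀ s₁, p = ((p.1, 0) : R4) := fun p hp => Prod.ext rfl hp.2.2
  have hbase : ∀ a p, x a =ᶠ[𝓝 p.1] c → thk G c (x a) p = G p := fun a p h =>
    (thk_congr h).trans (thk_base p)
  have hcore : ∀ a, ∀ s ∈ Icc s₀ s₁, thk G c (x a) (s, 0) = x a s := fun a s hs =>
    thk_core (hGc s hs) (x a)
  have hfr : ∀ a ∈ Q, ∀ p : R4, (p.1 < m₀ ∨ m₁ < p.1) → thk G c (x a) p = G p := by
    intro a ha p hp
    refine hbase a p ?_
    rcases hp with hp | hp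
    · filter_upwards [Iio_mem_nhds hp] with s hs
      exact hfroz a ha s (Or.inl (le_of_lt hs))
    · filter_upwards [Ioi_mem_nhds hp] with s hs
      exact hfroz a ha s (Or.inr (le_of_lt hs))
  have hdc : Continuous (deriv c) := (ContDiff.deriv' (n := ∞) (by simpa using hc)).continuous
  have hsm : ∀ a, ∀ p ∈ seg s₀ s₁, ∀ᶠ z : (ℝ × ℝ) × R4 in 𝓝 (a, p),
      ContDiffAt ℝ ∞ (fun z : (ℝ × ℝ) × R4 => thk G c (x z.1) z.2) z := by
    intro a p hp
    have hps : p.1 ∈ Icc s₀ s₁ := ⟨hp.1, hp.2.1⟩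
    have hev := ((embOn_iff.1 hG).1 p hp).1
    have t1 : Tendsto (fun z : (ℝ × ℝ) × R4 => z.2) (𝓝 (a, p)) (𝓝 p) :=
      continuous_snd.tendsto (a, p)
    have t2 : Tendsto (fun z : (ℝ × ℝ) × R4 => ((z.2.1, 0) : R4)) (𝓝 (a, p)) (𝓝 p) := by
      have hcont : Continuous (fun z : (ℝ × ℝ) × R4 => ((z.2.1, 0) : R4)) := by fun_prop
      have h := hcont.tendsto (a, p)
      rwa [show (((((a, p) : (ℝ × ℝ) × R4).2.1, 0) : R4)) = p from (heq p hp).symm] at h
    have t3 : Tendsto (fun z : (ℝ × ℝ) × R4 => deriv c z.2.1) (𝓝 (a, p)) (𝓝 (deriv c p.1)) := by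
      have hcont : Continuous (fun z : (ℝ × ℝ) × R4 => deriv c z.2.1) :=
        hdc.comp (continuous_fst.comp continuous_snd)
      exact hcont.tendsto (a, p)
    have e3 : ∀ᶠ z : (ℝ × ℝ) × R4 in 𝓝 (a, p), deriv c z.2.1 ≠ 0 :=
      t3.eventually (isOpen_ne.mem_nhds (core_ne_zero h01 hG hc hGc hps))
    filter_upwards [t1.eventually hev, t2.eventually hev, e3] with z z1 z2 z3
    exact contDiffAt_thk hc hx (a := z.1) (p := z.2) z1 z2 z3
  refine ⟨⟨fun a _ p hp => hsm a p hp, fun a ha => ?_, fun a ha b hb p hp => ?_,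
    fun a ha p hp hpV => ?_⟩, hcore, hbase, fun a b p h => thk_congr h⟩
  · rw [embOn_iff]
    refine ⟨fun p hp => ⟨?_, ?_⟩, fun p hp q hq he => ?_⟩
    · have hcont : Continuous (fun q : R4 => ((a, q) : (ℝ × ℝ) × R4)) := by fun_prop
      filter_upwards [(hcont.tendsto p).eventually (hsm a p hp)] with q hq
      exact ContDiffAt.comp (g := fun z : (ℝ × ℝ) × R4 => thk G c (x z.1) z.2)
        (f := fun q : R4 => ((a, q) : (ℝ × ℝ) × R4)) q hq
        (contDiff_const.prodMk contDiff_id).contDiffAt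
    · have hps : p.1 ∈ Icc s₀ s₁ := ⟨hp.1, hp.2.1⟩
      have hp0 := heq p hp
      have hsmG : ContDiffAt ℝ ∞ G ((p.1, 0) : R4) := by
        rw [← hp0]
        exact ((embOn_iff.1 hG).1 p hp).1.self_of_nhds
      have hne := core_ne_zero h01 hG hc hGc hps
      have hder := hasFDerivAt_thk (a := a) hc hx hsmG hne (core_deriv h01 hG hc hGc hps)
      rw [← hp0] at hder
      rw [hder.fderiv]
      have i1 := ((embOn_iff.1 hG).1 p hp).2
      have i2 := qmul_injective (qinv_ne_zero hne)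
      have i3 := qmul_injective (himm a ha p.1 hps)
      exact i3.comp (i2.comp i1)
    · have hps : p.1 ∈ Icc s₀ s₁ := ⟨hp.1, hp.2.1⟩
      have hqs : q.1 ∈ Icc s₀ s₁ := ⟨hq.1, hq.2.1⟩
      rw [heq p hp, heq q hq, hcore a _ hps, hcore a _ hqs] at he
      rw [heq p hp, heq q hq, hinj a ha hps hqs he]
  · rw [hfr a ha p hp, hfr b hb p hp]
  · have hps : p.1 ∈ Icc s₀ s₁ := ⟨hp.1, hp.2.1⟩
    have h3 : p.1 ∈ Icc m₀ m₁ := by
      constructor
      · by_contra hcon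
        exact hpV (Or.inl (not_le.1 hcon))
      · by_contra hcon
        exact hpV (Or.inr (not_le.1 hcon))
    show thk G c (x a) p ∈ U
    rw [heq p hp, hcore a _ hps]
    exact hxU a ha p.1 h3

end Pool.Agent.Helper27.H


end

/-! ## Helper27.BI.H.M_CUT -/

section

/-!
# Project BI, stage 3 (H), module CUT: transplantation of the cusp family into a thick arc
-/

set_option autoImplicit false

open scoped Manifold ContDiff Topology ComplexConjugate
open Set Filter Pool.Agent.Helper65.Barb Pool.Agent.Helper18.BI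
open Pool.Agent.Helper70.BI (I4 LD ld_iff)

namespace Pool.Agent.Helper27.H

namespace CUT

private theorem isCompact_seg (s₀ s₁ : ℝ) : IsCompact (seg s₀ s₁) := by
  have h : seg s₀ s₁ = (fun s : ℝ => ((s, 0) : R4)) '' Icc s₀ s₁ := by
    ext ⟨s, x⟩
    constructor
    · rintro ⟨h1, h2, h3⟩
      refine ⟨s, ⟨h1, h2⟩, ?_⟩
      simp only at h3
      rw [h3]
    · rintro ⟨t, ⟨h1, h2⟩, h3⟩
      have e1 : t = s := congrArg Prod.fst h3
      have e2 : (0 : ℝ × ℂ) = x := congrArg Prod.snd h3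
      subst e1
      exact ⟨h1, h2, e2.symm⟩
  rw [h]
  exact isCompact_Icc.image (by fun_prop)

/-- the reparametrized model family -/
private noncomputable def P (x : ℝ × ℝ × ℝ → R4) (m η : ℝ) (z : ℝ × ℝ × ℝ) : R4 :=
  ((m, 0) : R4) + η • x (z.1, z.2.1, (z.2.2 - m) / η)

private theorem contDiff_P {x : ℝ × ℝ × ℝ → R4} (hx : ContDiff ℝ ∞ x) (m η : ℝ) :
    ContDiff ℝ ∞ (P x m η) := by
  have h1 : ContDiff ℝ ∞ (fun z : ℝ × ℝ × ℝ => ((z.1, z.2.1, (z.2.2 - m) / η) : ℝ × ℝ × ℝ)) := by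
    refine contDiff_fst.prodMk ((contDiff_fst.comp contDiff_snd).prodMk ?_)
    exact ((contDiff_snd.comp contDiff_snd).sub contDiff_const).div_const η
  have h2 : ContDiff ℝ ∞ (fun z : ℝ × ℝ × ℝ => x (z.1, z.2.1, (z.2.2 - m) / η)) := hx.comp h1
  exact contDiff_const.add (h2.const_smul η)

private theorem fderiv_P {x : ℝ × ℝ × ℝ → R4} (hx : ContDiff ℝ ∞ x) {m η : ℝ} (z : ℝ × ℝ × ℝ)
    (ζ θ σ : ℝ) : fderiv ℝ (P x m η) z (ζ, θ, σ) =
      η • fderiv ℝ x (z.1, z.2.1, (z.2.2 - m) / η) (ζ, θ, σ / η) := by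
  have h1 : HasFDerivAt (fun z : ℝ × ℝ × ℝ => ((z.1, z.2.1, (z.2.2 - m) / η) : ℝ × ℝ × ℝ))
      ((ContinuousLinearMap.fst ℝ ℝ (ℝ × ℝ)).prod
        (((ContinuousLinearMap.fst ℝ ℝ ℝ).comp (ContinuousLinearMap.snd ℝ ℝ (ℝ × ℝ))).prod
          (η⁻¹ • ((ContinuousLinearMap.snd ℝ ℝ ℝ).comp (ContinuousLinearMap.snd ℝ ℝ (ℝ × ℝ))))))
      z := by
    refine hasFDerivAt_fst.prodMk (HasFDerivAt.prodMk ?_ ?_)
    · exact (hasFDerivAt_fst.comp z hasFDerivAt_snd)
    · have h2 : HasFDerivAt (fun z : ℝ × ℝ × ℝ => z.2.2 - m)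
          ((ContinuousLinearMap.snd ℝ ℝ ℝ).comp (ContinuousLinearMap.snd ℝ ℝ (ℝ × ℝ))) z :=
        (hasFDerivAt_snd.comp z hasFDerivAt_snd).sub_const m
      have h3 := h2.const_smul η⁻¹
      refine h3.congr_of_eventuallyEq (Eventually.of_forall fun y => ?_)
      simp [div_eq_inv_mul]
  have h4 := (hx.differentiable (by simp) (z.1, z.2.1, (z.2.2 - m) / η)).hasFDerivAt
  have h5 := ((h4.comp z h1).const_smul η).const_add ((m, 0) : R4)
  have h6 : fderiv ℝ (P x m η) z = _ := h5.fderiv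
  rw [h6]
  simp [div_eq_inv_mul]

end CUT

theorem m_CUT : StCUT := by
  rintro ⟨x, σ₀, hσ, hσ1, hx, hfix, hbd, himm, hdbl, hpt, htr⟩ D
  classical
  obtain ⟨δ, hL, hδ⟩ := m_A1 R4 R4 R4 I4 R4 D.J D.L (CUT.isCompact_seg _ _) D.emb.1 D.emb.2
  have hJinj : InjOn D.J δ.source := fun p hp q hq he => by
    apply δ.injOn hp hq
    rw [hδ p hp, hδ q hq, he]
  have hJld : ∀ p ∈ δ.source, LD D.J p := fun p hp => ⟨δ, hp, fun q hq => (hδ q hq).symm⟩
  have hJc : ∀ p ∈ δ.source, ContDiffAt ℝ ∞ D.J p := fun p hp =>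
    (ld_iff.1 (hJld p hp)).1.self_of_nhds
  have hJd : ∀ p ∈ δ.source, Function.Injective (fderiv ℝ D.J p) := fun p hp =>
    (ld_iff.1 (hJld p hp)).2
  set m : ℝ := (D.m₀ + D.m₁) / 2 with hm
  have h₀ := D.h₀
  have h₁ := D.h₁
  have h₂ := D.h₂
  have hLm : ∀ s ∈ Icc D.s₀ D.s₁, ((s, 0) : R4) ∈ δ.source := fun s hs =>
    hL ⟨hs.1, hs.2, rfl⟩
  have hmI : m ∈ Icc D.s₀ D.s₁ := ⟨by linarith, by linarith⟩
  have hmN := hLm m hmI
  have hmU : D.J (m, 0) ∈ D.U := by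
    rw [D.core m hmI]
    exact D.mem m ⟨by linarith, by linarith⟩
  have hnb : δ.source ∩ D.J ⁻¹' D.U ∈ 𝓝 ((m, 0) : R4) :=
    Filter.inter_mem (δ.open_source.mem_nhds hmN)
      ((hJc _ hmN).continuousAt.preimage_mem_nhds (D.openU.mem_nhds hmU))
  obtain ⟨ρ, hρ, hball⟩ := Metric.mem_nhds_iff.1 hnb
  set η : ℝ := min (ρ / 8) ((D.m₁ - D.m₀) / 8) with hη
  have hη0 : 0 < η := lt_min (by linarith) (by linarith)
  have hη1 : η ≤ ρ / 8 := min_le_left _ _
  have hη2 : η ≤ (D.m₁ - D.m₀) / 8 := min_le_right _ _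
  set P := CUT.P x m η with hP
  have hPc : ContDiff ℝ ∞ P := CUT.contDiff_P hx m η
  -- far from the middle the curve is straight
  have hPs : ∀ u q s, (η ≤ |s - m| ∨ u ∉ Ioo (0 : ℝ) 1 ∨ q ∉ Ioo (0 : ℝ) 1) →
      P (u, q, s) = (s, 0) := by
    intro u q s h
    have h' : 1 ≤ |(s - m) / η| ∨ u ∉ Ioo (0 : ℝ) 1 ∨ q ∉ Ioo (0 : ℝ) 1 := by
      rcases h with h | h
      · left
        rw [abs_div, abs_of_pos hη0, le_div_iff₀ hη0]
        linarith
      · exact Or.inr h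
    have e := hfix u q _ h'
    simp only [hP, CUT.P]
    rw [e]
    refine Prod.ext ?_ ?_
    · simp only [Prod.fst_add, Prod.smul_fst, smul_eq_mul]
      field_simp
      ring
    · simp
  have hPb : ∀ u q s, |s - m| ≤ 2 * η → P (u, q, s) ∈ Metric.ball ((m, 0) : R4) ρ := by
    intro u q s h
    have h3 : ‖x (u, q, (s - m) / η)‖ ≤ 3 := by
      by_cases h4 : |(s - m) / η| ≤ 1
      · exact hbd u q _ h4
      · push Not at h4
        rw [hfix u q _ (Or.inl h4.le)]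
        have h5 : |(s - m) / η| ≤ 2 := by
          rw [abs_div, abs_of_pos hη0, div_le_iff₀ hη0]
          linarith
        rw [Prod.norm_def]
        simp only [Real.norm_eq_abs, norm_zero]
        exact max_le (by linarith) (by norm_num)
    rw [Metric.mem_ball, dist_eq_norm]
    simp only [hP, CUT.P, add_sub_cancel_left]
    rw [norm_smul, Real.norm_eq_abs, abs_of_pos hη0]
    nlinarith
  have hPN : ∀ u q, ∀ s ∈ Icc D.s₀ D.s₁, P (u, q, s) ∈ δ.source := by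
    intro u q s hs
    by_cases h : |s - m| ≤ 2 * η
    · exact (hball (hPb u q s h)).1
    · push Not at h
      rw [hPs u q s (Or.inl (by linarith))]
      exact hLm s hs
  set c : ℝ × ℝ × ℝ → R4 := fun z => if |z.2.2 - m| < 2 * η then D.J (P z) else D.c z.2.2 with hc
  have hcJ : ∀ u q, ∀ s ∈ Icc D.s₀ D.s₁, c (u, q, s) = D.J (P (u, q, s)) := by
    intro u q s hs
    simp only [hc]
    split_ifs with h
    · rfl
    · push Not at h
      rw [hPs u q s (Or.inl (by linarith)), D.core s hs]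
  have hIn : ∀ s, |s - m| < 2 * η → s ∈ Ioo D.m₀ D.m₁ := by
    intro s h
    rw [abs_lt] at h
    constructor <;> linarith [h.1, h.2]
  have hInn : ∀ s, |s - m| < 2 * η → s ∈ Icc D.s₀ D.s₁ := fun s h =>
    ⟨by linarith [(hIn s h).1], by linarith [(hIn s h).2]⟩
  have hfar : ∀ u q s, (η ≤ |s - m| ∨ u ∉ Ioo (0 : ℝ) 1 ∨ q ∉ Ioo (0 : ℝ) 1) →
      c (u, q, s) = D.c s := by
    intro u q s h
    by_cases h' : |s - m| < 2 * η
    · rw [hcJ u q s (hInn s h'), hPs u q s h, D.core s (hInn s h')]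
    · simp only [hc]
      rw [if_neg h']
  have hnear : ∀ z : ℝ × ℝ × ℝ, |z.2.2 - m| < 2 * η → c =ᶠ[𝓝 z] fun y => D.J (P y) := by
    intro z hz
    have : ∀ᶠ y : ℝ × ℝ × ℝ in 𝓝 z, |y.2.2 - m| < 2 * η :=
      ContinuousAt.eventually_lt (by fun_prop) (by fun_prop) hz
    filter_upwards [this] with y hy
    simp only [hc]
    rw [if_pos hy]
  have hfar' : ∀ z : ℝ × ℝ × ℝ, η < |z.2.2 - m| → c =ᶠ[𝓝 z] fun y => D.c y.2.2 := by
    intro z hz
    have : ∀ᶠ y : ℝ × ℝ × ℝ in 𝓝 z, η < |y.2.2 - m| :=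
      ContinuousAt.eventually_lt (by fun_prop) (by fun_prop) hz
    filter_upwards [this] with y hy
    exact hfar y.1 y.2.1 y.2.2 (Or.inl hy.le)
  have hcsm : ContDiff ℝ ∞ c := by
    rw [contDiff_iff_contDiffAt]
    intro z
    by_cases hz : |z.2.2 - m| < 2 * η
    · refine ContDiffAt.congr_of_eventuallyEq ?_ (hnear z hz)
      exact (hJc _ (hball (hPb z.1 z.2.1 z.2.2 hz.le)).1).comp z hPc.contDiffAt
    · push Not at hz
      refine ContDiffAt.congr_of_eventuallyEq ?_ (hfar' z (by linarith))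
      exact (D.smooth.comp (contDiff_snd.comp contDiff_snd)).contDiffAt
  have hsep : ∀ s s', s < s' → (s - m) / η < (s' - m) / η := fun s s' h =>
    div_lt_div_of_pos_right (by linarith) hη0
  -- double points
  have hxx : ∀ u q, ∀ s ∈ Icc D.s₀ D.s₁, ∀ s' ∈ Icc D.s₀ D.s₁, c (u, q, s) = c (u, q, s') →
      x (u, q, (s - m) / η) = x (u, q, (s' - m) / η) := by
    intro u q s hs s' hs' h
    rw [hcJ u q s hs, hcJ u q s' hs'] at h
    have h2 := hJinj (hPN u q s hs) (hPN u q s' hs') h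
    simp only [hP, CUT.P] at h2
    have h3 := add_left_cancel h2
    exact smul_right_injective R4 hη0.ne' h3
  have hdd : ∀ u q, ∀ s ∈ Icc D.s₀ D.s₁, ∀ s' ∈ Icc D.s₀ D.s₁, s < s' → c (u, q, s) = c (u, q, s') →
      u = 1 / 2 ∧ q = 1 / 2 ∧ s = m - η * σ₀ ∧ s' = m + η * σ₀ := by
    intro u q s hs s' hs' hlt h
    obtain ⟨h1, h2, h3, h4⟩ := hdbl u q _ _ (hsep s s' hlt) (hxx u q s hs s' hs' h)
    refine ⟨h1, h2, ?_, ?_⟩
    · rw [div_eq_iff hη0.ne'] at h3
      linarith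
    · rw [div_eq_iff hη0.ne'] at h4
      linarith
  have hσa : (m - η * σ₀ - m) / η = -σ₀ := by
    field_simp
    ring
  have hσb : (m + η * σ₀ - m) / η = σ₀ := by
    field_simp
    ring
  have hησ : η * σ₀ < η := by nlinarith
  have hησ0 : 0 < η * σ₀ := mul_pos hη0 hσ
  have haI : |m - η * σ₀ - m| < 2 * η := by
    rw [show m - η * σ₀ - m = -(η * σ₀) by ring, abs_neg, abs_of_pos hησ0]
    linarith
  have hbI : |m + η * σ₀ - m| < 2 * η := by
    rw [show m + η * σ₀ - m = η * σ₀ by ring, abs_of_pos hησ0]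
    linarith
  have hPab : P (1 / 2, 1 / 2, m - η * σ₀) = P (1 / 2, 1 / 2, m + η * σ₀) := by
    simp only [hP, CUT.P]
    rw [hσa, hσb, hpt]
  have hImm : ∀ u ∈ Icc (0 : ℝ) 1, ∀ q ∈ Icc (0 : ℝ) 1, D.Imm c u q := by
    intro u _ q _ s hs
    by_cases h : |s - m| < 2 * η
    · have e1 : (fun s => c (u, q, s)) =ᶠ[𝓝 s] fun s => D.J (P (u, q, s)) := by
        have h3 : ContinuousAt (fun s : ℝ => ((u, q, s) : ℝ × ℝ × ℝ)) s := by fun_prop
        exact h3.eventually (hnear (u, q, s) h)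
      rw [e1.deriv_eq]
      have h4 : HasDerivAt (fun s => P (u, q, s)) (deriv (fun σ => x (u, q, σ)) ((s - m) / η)) s := by
        have h5 : ContDiff ℝ ∞ (fun σ => x (u, q, σ)) :=
          hx.comp (contDiff_const.prodMk (contDiff_const.prodMk contDiff_id))
        have h6 := (h5.differentiable (by simp) ((s - m) / η)).hasDerivAt
        have h7 : HasDerivAt (fun s : ℝ => (s - m) / η) (1 / η) s :=
          ((hasDerivAt_id s).sub_const m).div_const η
        have h8 := ((h6.scomp s h7).const_smul η).const_add ((m, 0) : R4)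
        have h9 : η • (1 / η) • deriv (fun σ => x (u, q, σ)) ((s - m) / η) =
            deriv (fun σ => x (u, q, σ)) ((s - m) / η) := by
          rw [smul_smul, mul_one_div_cancel hη0.ne', one_smul]
        rw [h9] at h8
        exact h8
      have hN := hPN u q s hs
      have h10 := ((hJc _ hN).differentiableAt (by simp)).hasFDerivAt.comp_hasDerivAt s h4
      have h11 : deriv (fun s => D.J (P (u, q, s))) s = _ := h10.deriv
      rw [h11]
      intro h12
      refine himm u q ((s - m) / η) (hJd _ hN ?_)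
      rw [h12, map_zero]
    · push Not at h
      have e1 : (fun s => c (u, q, s)) =ᶠ[𝓝 s] D.c := by
        have h3 : ContinuousAt (fun s : ℝ => ((u, q, s) : ℝ × ℝ × ℝ)) s := by fun_prop
        exact h3.eventually (hfar' (u, q, s) (by simp only; linarith))
      rw [e1.deriv_eq]
      have hN := hLm s hs
      have h4 : HasDerivAt (fun s : ℝ => ((s, 0) : R4)) (1, 0) s :=
        (hasDerivAt_id s).prodMk (hasDerivAt_const s _)
      have h10 := (((hJc _ hN).differentiableAt (by simp)).hasFDerivAt.comp_hasDerivAt s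
        h4).hasDerivWithinAt (s := Icc D.s₀ D.s₁)
      have h11 : HasDerivWithinAt D.c (fderiv ℝ D.J (s, 0) (1, 0)) (Icc D.s₀ D.s₁) s := by
        refine h10.congr (fun t ht => ?_) ?_
        · exact (D.core t ht).symm
        · exact (D.core s hs).symm
      have h12 := (D.smooth.differentiable (by simp) s).hasDerivAt.hasDerivWithinAt
        (s := Icc D.s₀ D.s₁)
      have h13 := (uniqueDiffOn_Icc (by linarith : D.s₀ < D.s₁) s hs).eq_deriv _ h12 h11
      rw [h13]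
      intro h14
      have h15 : ((1, 0) : R4) = 0 := hJd _ hN (by rw [h14, map_zero])
      have h16 : (1 : ℝ) = 0 := congrArg Prod.fst h15
      norm_num at h16
  refine ⟨c, 1 / 2, 1 / 2, m - η * σ₀, m + η * σ₀, ?_, ?_, hImm, ?_, ?_, ?_⟩
  · refine ⟨hcsm, ?_, ?_, ?_, ?_⟩
    · intro u _ q _ s hs
      refine hfar u q s (Or.inl ?_)
      rcases hs with hs | hs
      · rw [abs_of_nonpos (by linarith)]
        linarith
      · rw [abs_of_nonneg (by linarith)]
        linarith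
    · intro u _ q _ s hs
      by_cases h : |s - m| < 2 * η
      · simp only [hc]
        rw [if_pos h]
        exact (hball (hPb u q s h.le)).2
      · push Not at h
        rw [hfar u q s (Or.inl (by linarith))]
        exact D.mem s ⟨by linarith [hs.1], by linarith [hs.2]⟩
    · intro u _ s
      exact hfar u 0 s (Or.inr (Or.inr fun h => lt_irrefl _ h.1))
    · intro u _ s
      exact hfar u 1 s (Or.inr (Or.inr fun h => lt_irrefl _ h.2))
  · have haN := hPN (1 / 2) (1 / 2) _ (hInn _ haI)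
    have hbN := hPN (1 / 2) (1 / 2) _ (hInn _ hbI)
    refine ⟨⟨by norm_num, by norm_num⟩, ⟨by norm_num, by norm_num⟩, ?_, ?_, by linarith, ?_, ?_, ?_⟩
    · exact ⟨by linarith [(hIn _ haI).1], by linarith [(hIn _ haI).2]⟩
    · exact ⟨by linarith [(hIn _ hbI).1], by linarith [(hIn _ hbI).2]⟩
    · rw [hcJ _ _ _ (hInn _ haI), hcJ _ _ _ (hInn _ hbI), hPab]
    · intro s hs s' hs' hlt h
      obtain ⟨-, -, h3, h4⟩ := hdd _ _ s hs s' hs' hlt h
      exact ⟨h3, h4⟩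
    · intro ζ θ σ τ h
      rw [(hnear (1 / 2, 1 / 2, m - η * σ₀) haI).fderiv_eq,
        (hnear (1 / 2, 1 / 2, m + η * σ₀) hbI).fderiv_eq] at h
      have k1 := fderiv_comp (𝕜 := ℝ) (f := P) (g := D.J) ((1 / 2, 1 / 2, m - η * σ₀) : ℝ × ℝ × ℝ)
        ((hJc _ haN).differentiableAt (by simp)) (hPc.differentiable (by simp) _)
      have k2 := fderiv_comp (𝕜 := ℝ) (f := P) (g := D.J) ((1 / 2, 1 / 2, m + η * σ₀) : ℝ × ℝ × ℝ)
        ((hJc _ hbN).differentiableAt (by simp)) (hPc.differentiable (by simp) _)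
      have k1' : fderiv ℝ (fun y => D.J (P y)) (1 / 2, 1 / 2, m - η * σ₀) = _ := k1
      have k2' : fderiv ℝ (fun y => D.J (P y)) (1 / 2, 1 / 2, m + η * σ₀) = _ := k2
      rw [k1', k2', hPab] at h
      have h2 := hJd _ hbN h
      have q1 := CUT.fderiv_P hx (m := m) (η := η) (1 / 2, 1 / 2, m - η * σ₀) ζ θ σ
      have q2 := CUT.fderiv_P hx (m := m) (η := η) (1 / 2, 1 / 2, m + η * σ₀) ζ θ τ
      have h3 := smul_right_injective R4 hη0.ne' (q1.symm.trans (h2.trans q2))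
      simp only at h3
      rw [hσa, hσb] at h3
      obtain ⟨e1, e2, e3, e4⟩ := htr ζ θ (σ / η) (τ / η) h3
      refine ⟨e1, e2, ?_, ?_⟩
      · rw [div_eq_iff hη0.ne'] at e3
        linarith
      · rw [div_eq_iff hη0.ne'] at e4
        linarith
  · intro u _ q _ huq s hs s' hs' h
    by_contra hne
    rcases lt_or_gt_of_ne hne with hlt | hlt
    · obtain ⟨h1, h2, -, -⟩ := hdd u q s hs s' hs' hlt h
      exact huq (by rw [h1, h2])
    · obtain ⟨h1, h2, -, -⟩ := hdd u q s' hs' s hs hlt h.symm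
      exact huq (by rw [h1, h2])
  · intro q s
    exact hfar 0 q s (Or.inr (Or.inl fun h => lt_irrefl _ h.1))
  · intro q s
    exact hfar 1 q s (Or.inr (Or.inl fun h => lt_irrefl _ h.2))

end Pool.Agent.Helper27.H


end
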