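import Pool.Agent.Helper65.Barb.Defs
import Pool.Agent.Helper70.BI.C.P15
import Pool.Agent.Helper70.BI.C.P30

/-!
# Project BI (MP_8e98f2_gt): collected modules, part 31

The contents of the modules
* Helper27.BI.S5.Fb
* Helper27.BI.S5.St5
* Helper27.BI.S5.St5n
* Helper17.BI5.M_GH
* Helper27.BI.S5.St5g
* Helper37.BI5.M_ARC2
* Helper48.BI5.M_N2
* Helper73.BI5.M_PF
* Helper71.BI5.M_GHF

in one file, so that the whole proof builds in a short time.
-/

namespace Pool.Agent.Helper18.BI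
end Pool.Agent.Helper18.BI

namespace Pool.Agent.Helper18.BI.H
end Pool.Agent.Helper18.BI.H

namespace Pool.Agent.Helper18.BI.R
end Pool.Agent.Helper18.BI.R

namespace Pool.Agent.Helper27.BI
end Pool.Agent.Helper27.BI

namespace Pool.Agent.Helper27.H
end Pool.Agent.Helper27.H

namespace Pool.Agent.Helper34.BI
end Pool.Agent.Helper34.BI

namespace Pool.Agent.Helper65.Barb
end Pool.Agent.Helper65.Barb

namespace Pool.Agent.Helper70.BI
end Pool.Agent.Helper70.BI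


/-! ## Helper27.BI.S5.Fb -/

section

/-!
# Project BI, stage 5: the finger push, with an isotopy

`FingB` is `FingOk` with two additional properties, see `m_FINGB`.
-/

set_option autoImplicit false

open scoped Manifold ContDiff Topology ComplexConjugate
open Set Filter Pool.Agent.Helper65.Barb Pool.Agent.Helper18.BI
open Pool.Agent.Helper70.BI (I4 NearEq)
open Pool.Agent.Helper27.BI
open Pool.Agent.Helper27.H

namespace Pool.Agent.Helper27.S5

/-- `FingOk`, and `T` is the end of a family which pushes the tube around the vertical line over `e1` at time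
`t` along the arc `s ↦ (1 - step (step t) * bfin s) • e1`; `T` is the identity off the `1/50`-neighbourhood of the track of the
finger. -/
structure FingB (T T' : R4 → R4) : Prop where
  ok : FingOk T T'
  thin : ∀ (s : ℝ) (x : R3), (∀ τ ∈ Icc (0 : ℝ) 1, (1 / 50) ^ 2 ≤ nsq (x - (1 - τ * bfin s) • e1)) →
    T (s, x) = (s, x)
  fam : ∃ F : DFam 𝓘(ℝ, R4) R4, (∀ x, F.f (0, x) = x) ∧ (∀ x, F.f (1, x) = T x) ∧
    (∀ (t s : ℝ) (y : R3), nsq y ≤ (1 / 100) ^ 2 →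
      F.f (t, (s, e1 + y)) = (s, (1 - step (step t) * bfin s) • e1 + y)) ∧
    (∀ t p, (F.f (t, p)).1 = p.1) ∧
    (∀ (t s : ℝ) (x : R3), (s ≤ 1 / 10 ∨ 9 / 10 ≤ s) → F.f (t, (s, x)) = (s, x)) ∧
    ∀ (t : ℝ) (p : R4), (3 / 10) ^ 2 ≤ rsq 1 p → F.f (t, p) = p

/-- `StFING` with `FingB` -/
def StFINGB : Prop :=
  ∃ (T T' : R4 → R4) (F : DFam 𝓘(ℝ, R4) R4), FingB T T' ∧ LamOk F ∧
    TIso {p | rsq 0 p ≤ 1 / 25} (1 / 100) (fun (_ : Unit) _ => e1) (fun _ _ => e1) barMap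
      (fun p => T' (F.f (1, T p)))

/-- **FINGB.** -/
theorem m_FINGB (hCh : StCh) (hCh5 : StCh5) (hspin : StSpin) : StFINGB := by
  -- the finger push
  have okf : SqOk {p | rsq 0 p ≤ 1 / 25} (1 / 100) (fun i _ q s => fpath i q s) := by
    apply sqOk_of
    · have h := contDiff_gam.comp (f := fun p : ℝ × ℝ × ℝ => (p.2.1, ((0 : ℝ), p.2.2)))
        ((contDiff_fst.comp contDiff_snd).prodMk
          (contDiff_const.prodMk (contDiff_snd.comp contDiff_snd)))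
      have e : (fun p : ℝ × ℝ × ℝ => fpath () p.2.1 p.2.2) =
          (fun p : ℝ × ℝ × ℝ => gam p.1 p.2.1 p.2.2) ∘ fun p => (p.2.1, 0, p.2.2) := by
        funext p
        show fpath () p.2.1 p.2.2 = gam p.2.1 0 p.2.2
        rw [gam_zero]; rfl
      rw [e]
      exact h
    · intro u q s hs
      show fpath () q s = e1
      rw [← gam_end (u := q) (q := 0) hs, gam_zero]; rfl
    · intro u q s
      show _ ≤ nsq (fpath () q s)
      have := nsq_gam_ge q 0 s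
      rwa [gam_zero] at this
    · intro u q s
      show nsq (fpath () q s) ≤ _
      have := nsq_gam_le q 0 s
      rwa [gam_zero] at this
  have okl : SqOk {p | rsq 0 p ≤ 1 / 25} (1 / 100) (fun (_ : Unit) _ q s => zq q s) := by
    apply sqOk_of
    · have h := contDiff_gam.comp (f := fun p : ℝ × ℝ × ℝ => ((1 : ℝ), (p.2.1, p.2.2)))
        (contDiff_const.prodMk contDiff_snd)
      have e : (fun p : ℝ × ℝ × ℝ => zq p.2.1 p.2.2) =
          (fun p : ℝ × ℝ × ℝ => gam p.1 p.2.1 p.2.2) ∘ fun p => (1, p.2.1, p.2.2) := by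
        funext p
        show zq p.2.1 p.2.2 = gam 1 p.2.1 p.2.2
        rw [gam_u1]
      rw [e]
      exact h
    · intro u q s hs
      rw [← gam_end (u := 1) (q := q) hs, gam_u1]
    · intro u q s
      have := nsq_gam_ge 1 q s
      rwa [gam_u1] at this
    · intro u q s
      have := nsq_gam_le 1 q s
      rwa [gam_u1] at this
  have okg : SqOk {p | rsq 0 p ≤ 1 / 25} (1 / 100) (fun (_ : Unit) u q s => gam u q s) :=
    sqOk_of contDiff_gam (fun u q s hs => gam_end hs) (fun u q s => nsq_gam_ge u q s)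
      (fun u q s => nsq_gam_le u q s)
  have h01 : (1 : ℝ) ∈ Icc (0 : ℝ) 1 := by simp
  obtain ⟨Ff, f0, fs, fO, ft, ffar, fl, fst⟩ := exists_push5 hCh5 (by norm_num) okf
  obtain ⟨Fl, l0, ls, lO, lt, lfar, ll, lst⟩ := exists_push5 hCh5 (by norm_num) okl
  have e0' : ∀ s, fpath () 0 s = e1 := by
    intro s; show (1 - step 0 * bfin s) • e1 = e1
    rw [BI.step_zero]; simp
  have e1' : ∀ s, fpath () 1 s = z0 s := by
    intro s; show (1 - step 1 * bfin s) • e1 = z0 s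
    rw [BI.step_one]; simp [z0]
  have pf : IsPush {p | rsq 0 p ≤ 1 / 25} (1 / 100) fpath (fun x => Ff.f (1, x)) :=
    ⟨Ff, f0, fun _ => rfl, fs, fun t _ x hx => fO t x hx, fun t _ i s y hy => ft t i s y hy⟩
  have pl : IsPush {p | rsq 0 p ≤ 1 / 25} (1 / 100) (fun (_ : Unit) q s => zq q s)
      (fun x => Fl.f (1, x)) :=
    ⟨Fl, l0, fun _ => rfl, ls, fun t _ x hx => lO t x hx, fun t _ i s y hy => lt t i s y hy⟩
  have hout : ∀ (t s : ℝ) (x : R3), (s ≤ 1 / 10 ∨ 9 / 10 ≤ s) → Ff.f (t, (s, x)) = (s, x) := by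
    intro t s x hs
    apply fst t s
    intro i q hq
    show (1 - step q * bfin s) • e1 = (1 - step 0 * bfin s) • e1
    rw [bfin_out hs]
    simp
  have hfar : ∀ (t : ℝ) (p : R4), (3 / 10) ^ 2 ≤ rsq 1 p → Ff.f (t, p) = p := by
    rintro t ⟨s, x⟩ hp
    apply ffar t s x
    intro i q hq
    rw [rsq1_eq] at hp
    have hp' : (3 / 10) ^ 2 ≤ nsq (x - e1) := hp
    have e2 : x - fpath i q s = (step q * bfin s) • e1 - (e1 - x) := by
      show x - (1 - step q * bfin s) • e1 = _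
      rw [sub_smul, one_smul]; abel
    rw [e2]
    have h3 : nsq ((step q * bfin s) • e1) ≤ (27 / 100) ^ 2 := by
      rw [H.nsq_smul, H.nsq_e1, mul_one]
      obtain ⟨h1, h2⟩ := step_mem q
      have h3 := bfin_nonneg s
      have h4 := bfin_le s
      have h5 : step q * bfin s ≤ 27 / 100 := by nlinarith
      have h6 : 0 ≤ step q * bfin s := mul_nonneg h1 h3
      nlinarith
    refine nsq_sub_ge (r := 27 / 100) (R := 3 / 10) (by norm_num) (by norm_num) (by norm_num) h3 ?_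
    rw [nsq_sub_comm]
    exact hp'
  refine ⟨fun x => Ff.f (1, x), fun x => Ff.g (1, x), Fl, ?_, ?_, ?_⟩
  · refine ⟨⟨?_, ?_, fun x => Ff.gf 1 x, fun x => Ff.fg 1 x, ?_, fun p => fl 1 p, ?_, ?_⟩, ?_,
      Ff, f0, fun _ => rfl, ?_, fl, hout, hfar⟩
    · exact contMDiff_iff_contDiff.1 (Ff.smooth_f.comp (contMDiff_const.prodMk contMDiff_id))
    · exact contMDiff_iff_contDiff.1 (Ff.smooth_g.comp (contMDiff_const.prodMk contMDiff_id))
    · intro s y hy
      have := ft 1 () s y hy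
      rw [e0', BI.step_one, e1'] at this
      exact this
    · exact fun s x hs => hout 1 s x hs
    · exact fun p hp => hfar 1 p hp
    · intro s x hx
      apply ffar 1 s x
      intro i q hq
      have h1 := hx (step q) (step_mem q)
      have h2 : ((2 : ℝ) * (1 / 100)) ^ 2 = (1 / 50) ^ 2 := by norm_num
      rw [h2]
      exact h1
    · intro t s y hy
      have h1 := ft t () s y hy
      rw [e0'] at h1
      exact h1
  · refine ⟨l0, ?_, ?_⟩
    · intro t s y hy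
      have := lt t () s y hy
      rw [zq_zero] at this
      exact this
    · rintro t ⟨s, x⟩ hp
      by_cases hs : s ≤ 9 / 20 ∨ 11 / 20 ≤ s
      · apply lst t s
        intro i q hq
        show zq q s = zq 0 s
        rw [zq_out q hs, zq_out 0 hs]
      push Not at hs
      have hb : bfin s = 27 / 100 := bfin_mid ⟨by linarith [hs.1], by linarith [hs.2]⟩
      have hn : ∀ q, nsq (zq q s) = (73 / 100) ^ 2 := by
        intro q
        unfold zq
        rw [H.nsq_smul, H.nsq_barPath, hb]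
        norm_num
      apply lfar t s x
      intro i q hq
      have hx : nsq x < (71 / 100) ^ 2 ∨ (3 / 4) ^ 2 < nsq x := by
        by_contra h
        push Not at h
        apply hp
        refine ⟨hs.1.le, hs.2.le, ?_, ?_⟩
        · rw [rsq0_eq]; exact h.1
        · rw [rsq0_eq]; exact h.2
      rcases hx with hx | hx
      · exact nsq_sub_ge (r := 71 / 100) (R := 73 / 100) (by norm_num) (by norm_num) (by norm_num)
          hx.le (hn q).ge
      · rw [nsq_sub_comm]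
        exact nsq_sub_ge (r := 73 / 100) (R := 3 / 4) (by norm_num) (by norm_num) (by norm_num)
          (hn q).le hx.le
  · have pb : IsPush {p | rsq 0 p ≤ 1 / 25} (1 / 100) barPath barMap :=
      (isPush_barMap hspin).mono (fun p hp => le_trans (show rsq 0 p ≤ 1 / 25 from hp) (by norm_num))
        (by norm_num) (by norm_num)
    have sqr := square hCh (by norm_num) okg (Θ1 := barMap) (Θ2 := fun x => Ff.f (1, x))
      (Θ3 := fun x => Ff.f (1, x)) (Θ4 := fun x => Fl.f (1, x))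
      (pb.congr (by intro i q hq s; exact (gam_u0 q s).symm))
      (pf.congr (by intro i q hq s; exact (gam_one q s).symm))
      (pf.congr (by intro i q hq s; exact (gam_zero q s).symm))
      (pl.congr (by intro i q hq s; exact (gam_u1 q s).symm))
    have tf : TIso {p | rsq 0 p ≤ 1 / 25} (1 / 100) (fun (_ : Unit) _ => e1) (fun _ => z0)
        (fun x => Ff.f (1, x)) (fun x => Ff.f (1, x)) := by
      have := pf.tIso
      have e3 : (fun i : Unit => fpath i 0) = fun _ _ => e1 := by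
        funext i s; exact e0' s
      have e4 : (fun i : Unit => fpath i 1) = fun _ => z0 := by
        funext i s; exact e1' s
      rwa [e3, e4] at this
    have sqr' : TIso {p | rsq 0 p ≤ 1 / 25} (1 / 100) (fun (_ : Unit) _ => e1) (fun _ => z0)
        (fun x => Ff.f (1, barMap x)) (fun x => Fl.f (1, Ff.f (1, x))) := by
      have e3 : (fun _ : Unit => gam 0 0) = fun _ _ => e1 := by
        funext i s; rw [gam_u0, barPath_zero]
      have e4 : (fun _ : Unit => gam 1 1) = fun _ => z0 := by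
        funext i s; rw [gam_u1, zq_one]
      rwa [e3, e4] at sqr
    have ti : TIso {p | rsq 0 p ≤ 1 / 25} (1 / 100) (fun (_ : Unit) => z0) (fun _ _ => e1)
        (fun x => Ff.g (1, x)) (fun x => Ff.g (1, x)) :=
      tf.inv (fun x => Ff.fg 1 x) (fun x => Ff.fg 1 x)
    have := ti.comp sqr'
    have e5 : (fun x => Ff.g (1, Ff.f (1, barMap x))) = barMap := by
      funext x; exact Ff.gf 1 _
    rwa [e5] at this


theorem hFINGB : StFINGB := m_FINGB hCh hCh5 hSpin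

end Pool.Agent.Helper27.S5


end

/-! ## Helper27.BI.S5.St5 -/

section

/-!
# Project BI, stage 5: the crossing lemma, statements

Model coordinates `p = (s, x)`, `x = e1 + y`, `y` in three-space.  `G = F ∘ sq ε` is an embedding of `K3 δ'`.  There are
three walls: `wallS δ` (the wall of the given arc datum `D`), `wallS δ'` with `3 δ < δ'` (inside the first one) and the
small wall `wall2 δ' κ β` around the vertical line over `P2 β = e1 + (0, β)`, between the first two.  The second wall and the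
third wall together are homologous to the first one, and the third one is unknotted.  The finger of `D` is replaced by a
finger with the same core which drags along the whole ball of radius `41/200` (`THat`); so a loop of arcs which
moves in the complement of `G '' XX δ' κ β` only is a loop of pairs of arcs (over `e1` and over `P2 β`), the first ending on
`wallS δ'`, the second ending on `wall2`.

Statements (as `Prop` definitions) with complete proofs in the docstrings.  A module `M_X` proves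
`theorem m_X : StX` (possibly from other statements as hypotheses `(h : StY)`).
-/

set_option autoImplicit false

open scoped Manifold ContDiff Topology ComplexConjugate
open Set Filter Pool.Agent.Helper65.Barb Pool.Agent.Helper18.BI
open Pool.Agent.Helper70.BI (I4 LD NearEq IsW)
open Pool.Agent.Helper34.BI (rade qe)
open Pool.Agent.Helper27.BI (e1)
open Pool.Agent.Helper27.H
open Pool.Agent.Helper18.BI.H (mm)
open Pool.Agent.Helper18.BI.R (LoopOK SH S2 bp)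

namespace Pool.Agent.Helper27.S5

/-! ## abstract lemmas -/

/-- MODULE GH (gluing an embedding of the model to the identity).
Proof.  As steps (5), (6) of the proof of `StEHAT` (`Pool/Agent/Helper27/BI/H/M_EHAT.lean`).  `D` is compact, `N ⊇ D` open on which `G` is injective and a local diffeomorphism (`StA1`, i.e. `hA1`/`m_A1`, or `emb_open` of `Hat.lean`).
Let `y ∉ G '' (D ∩ B)`.  If `y ∉ G '' D` (compact): `imp` is the identity near `y`.  If `y = G p`, `p ∈ D`: `p ∉ B`, `imp G D h y = G (h p)` (`imp_image`, `G` injective on `D`), and `h p ∈ D`.  For `q` near `p` (`q ∈ N`): if `q ∈ D` then `q ∉ B` (`B` closed) and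
`imp G D h (G q) = G (h q)`; if `q ∉ D`: `G q ∉ G '' D` (injectivity on `N`), so `imp G D h (G q) = G q = G (h q)` by the last hypothesis.  So near `y` the map is `G ∘ h ∘ G⁻¹`, a local diffeomorphism at `y` (`G` is one at `h p ∈ D`).
Injective: two points of `G '' (D \ B)`: `G` is injective on `D`, `h` on `D \ B`.  `y = G p`, `y' ∉ G '' D`: `G (h p) ∈ G '' D`, so it is not `y'`. -/
def StGH : Prop :=
  ∀ (G h : R4 → R4) (D B : Set R4), IsCompact D → IsClosed B → EmbOn I4 G D →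
    (∀ p ∈ D \ B, LD h p) → InjOn h (D \ B) → MapsTo h (D \ B) D →
    (∀ p ∈ D \ B, ∀ᶠ q in 𝓝 p, q ∉ D → h q = q) → EmbOn I4 (imp G D h) (G '' (D ∩ B))ᶜ

/-- MODULE GHF (the family version of `StGH`).
Proof.  `J (t, x) = imp G D (fun p => h (t, p)) x` is in `FamOn I4 J K`: for fixed `t` by `StGH` (restricted to `K`); jointly smooth near `(t, x)`, `t ∈ [0,1]`, `x ∈ K`: as in `StGH`, near `(t₀, G p₀)` it is `(t, y) ↦ G (h (t, G⁻¹ y))` (also for `t` outside `[0,1]`: all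
hypotheses hold eventually near `(t₀, p₀)`), and near `(t₀, y₀)` with `y₀ ∉ G '' D` it is `y`.  Then `StA3` (`hA3`). -/
def StGHF : Prop :=
  ∀ (G : R4 → R4) (h : ℝ × R4 → R4) (D B : Set R4), IsCompact D → IsClosed B → EmbOn I4 G D →
    (∀ t ∈ Icc (0 : ℝ) 1, ∀ p ∈ D \ B, ∀ᶠ z in 𝓝 (t, p), ContDiffAt ℝ ∞ h z) →
    (∀ t ∈ Icc (0 : ℝ) 1, (∀ p ∈ D \ B, LD (fun p => h (t, p)) p) ∧
      InjOn (fun p => h (t, p)) (D \ B) ∧ MapsTo (fun p => h (t, p)) (D \ B) D) →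
    (∀ t ∈ Icc (0 : ℝ) 1, ∀ p ∈ D \ B, ∀ᶠ z : ℝ × R4 in 𝓝 (t, p), z.2 ∉ D → h z = z.2) →
    ∀ (K : Set R4) (Θ Θ' : R4 → R4), IsCompact K → K ⊆ (G '' (D ∩ B))ᶜ → SDiff K Θ Θ' →
      CIsot I4 (imp (imp G D (fun p => h (0, p))) K Θ) (imp (imp G D (fun p => h (1, p))) K Θ)

/-- MODULE SPL (splitting a loop of pairs of arcs).
`ϑ t = step (step t)`.
Proof (uses `StCH4`; `exists_lpush1` of `Calc.lean`).  `K ⊆ U` compact containing the support of `F`.  The path of germs `J q = F.f (q, J ·)` along `C₁`, in the open set `U₁ = U \ J '' C₂` (`J '' C₂` is compact): `Fam2 Q2 C₁ V U₁ (fun a p => F.f (a.2, J p))` with the open set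
`V = interior {p | J p ∉ K}`: smooth and embedded, since `F.f (q, ·)` is a diffeomorphism; frozen on `V`; let `p ∈ C₁ \ V`: if `J p ∉ K` then, as `J` is continuous near `p` and `K` is closed, `p ∈ V`; so `J p ∈ K`, `F.f (q, J p) ∈ K ⊆ U` (`F.f (q, ·)` maps `K` onto `K`), and it is not in
`J '' C₂` by hypothesis.  `exists_lpush1` gives a family `A₀`, `A₀.f (0, ·) = id`, `SuppU U₁ A₀`, `A₀.f (t, F.f (0, J p)) = F.f (step t, J p)` for `t ∈ [0,1]`, `p` near `C₁`.  `A = A₀.reparam step`: `A.f (t, J p) = F.f (ϑ t, J p)` for all `t`.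
`B.f (t, x) = A.g (t, F.f (ϑ t, x))` (composition of families).  `B.f (0, ·) = id`; support: off `K ∪ K_A` it is the identity, `K_A` compact in `U₁`; for `p` near `C₁`: `B.f (t, J p) = A.g (t, A.f (t, J p)) = J p`; `J` is an open map near `C₁` (`StA1`), so `B` has support in
`(K ∪ K_A) \ (open neighbourhood of J '' C₁)`, compact in `U \ J '' C₁`. -/
def StSPL : Prop :=
  ∀ (U C₁ C₂ : Set R4) (J : R4 → R4) (F : DFam 𝓘(ℝ, R4) R4), IsOpen U → IsCompact C₁ →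
    IsCompact C₂ → EmbOn I4 J C₁ → IsCompact (J '' C₂) → (∀ x, F.f (0, x) = x) → SuppU U F →
    (∀ t ∈ Icc (0 : ℝ) 1, ∀ p ∈ C₁, F.f (t, J p) ∉ J '' C₂) →
    ∃ A B : DFam 𝓘(ℝ, R4) R4, (∀ x, A.f (0, x) = x) ∧ (∀ x, B.f (0, x) = x) ∧
      SuppU (U \ J '' C₂) A ∧ SuppU (U \ J '' C₁) B ∧
      (∃ N : Set R4, IsOpen N ∧ C₁ ⊆ N ∧ ∀ t, ∀ p ∈ N, A.f (t, J p) = F.f (step (step t), J p)) ∧
      ∀ t x, A.f (t, B.f (t, x)) = F.f (step (step t), x)

/-- MODULE PF (pushing a family forward by an embedding).  Proof: `StPush`/`DFam.push` (see the proof of `StPush` in `Pool/Agent/Helper18/BI/`), `StA1` gives a partial diffeomorphism equal to `ι` near `K`. -/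
def StPF : Prop :=
  ∀ (ι : R4 → R4) (K : Set R4) (A : DFam 𝓘(ℝ, R4) R4), EmbOn I4 ι K → IsCompact K →
    (∀ t x, x ∉ K → A.f (t, x) = x) →
    ∃ A' : DFam 𝓘(ℝ, R4) R4, (∀ t y, A'.f (t, y) = imp ι K (fun x => A.f (t, x)) y) ∧
      (∀ t, ∀ x ∈ K, A'.f (t, ι x) = ι (A.f (t, x))) ∧ ∀ t y, y ∉ ι '' K → A'.f (t, y) = y

/-- MODULE TCF (the class of the end of an isotopy).
Proof.  `J q p = A.f (q, D.J p)`.  `LPush D.U D.L J (A.f (1, ·))` by the family `A.reparam step` (`step 1 = 1`).  `V = interior {p | D.J p ∉ K}` is an open neighbourhood of the two ends of `D.L` (`D.off₀`, `D.off₁`: `D.J (s₀, 0) ∉ D.U ⊇ K`, `D.J` is continuous near `D.L`, `K` is closed);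
`Fam2 Q2 D.L V D.U`: smooth and embedded (`D.emb`), frozen, and for `p ∈ D.L \ V`: `D.J p ∈ K`, so `A.f (q, D.J p) ∈ K ⊆ D.U`. -/
def StTCF : Prop :=
  ∀ (D : ArcD) (A : DFam 𝓘(ℝ, R4) R4) (χ : R4 → R4), (∀ x, A.f (0, x) = x) → SuppU D.U A →
    (∃ N : Set R4, IsOpen N ∧ D.L ⊆ N ∧ ∀ p ∈ N, A.f (1, D.J p) = D.J p) →
    D.Phi (fun x => A.f (1, x)) χ → D.Cls (fun q s => A.f (q, D.c s)) χ

/-- MODULE GP1X (general position for loops of arcs, also off countably many curves).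
Proof.  The module GP1 (`Pool/Agent/Helper95/BI5/M_GP1.lean`) with the index type `κ = ℕ` and the curves `g n` in `exists_genPos` (field `curve` of `GenPos`); where `hat 0 1 q * hat m₀ m₁ s = 0` the value is `D.c s`. -/
def StGP1X : Prop :=
  ∀ (D : ArcD) (c₀ : ℝ → ℝ → R4) (g : ℕ → ℝ → R4), LoopOK D c₀ → (∀ n, ContDiff ℝ ∞ (g n)) →
    (∀ n, ∀ s ∈ Icc D.s₀ D.s₁, ∀ r, D.c s ≠ g n r) → ∃ c : ℝ → ℝ → R4, LoopOK D c ∧
    (∀ q ∈ Icc (0 : ℝ) 1, InjOn (c q) (Icc D.s₀ D.s₁) ∧ ∀ s ∈ Icc D.s₀ D.s₁, deriv (c q) s ≠ 0) ∧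
    SH D c c₀ ∧ ∀ n, ∀ q ∈ Icc (0 : ℝ) 1, ∀ s ∈ Icc D.s₀ D.s₁, ∀ r, c q s ≠ g n r

/-! ## the geometry of the two walls -/

/-- the vector `(0, 1)` of three-space -/
def eu : R3 := (0, 1)

/-- the centre of the second hole -/
def P2 (β : ℝ) : R3 := (1, (β : ℂ))

/-- the similarity which carries the first hole to the second one -/
noncomputable def sg (κ β : ℝ) (p : R4) : R4 := (p.1, P2 β + κ • (p.2 - e1))

/-- its inverse -/
noncomputable def sgi (κ β : ℝ) (p : R4) : R4 := (p.1, e1 + κ⁻¹ • (p.2 - P2 β))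

/-- the radial map of the second hole -/
noncomputable def rad2 (δ κ β : ℝ) (p : R4) : R4 := sg κ β (rade δ 1 (sgi κ β p))

/-- the second hole (open in its levels) -/
def hol (δ κ β : ℝ) : Set R4 := {p | 0 ≤ p.1 ∧ p.1 ≤ 1 ∧ rsq 1 (sgi κ β p) < 1 / 25 - 3 * δ}

/-- the wall of the second hole -/
def wall2 (δ κ β : ℝ) : Set R4 := {p | sgi κ β p ∈ wallS δ}

/-- the channel through which the arcs leave -/
def Chn : Set R4 :=
  {p | 11 / 25 < p.1 ∧ p.1 < 14 / 25 ∧ |p.2.1 - 73 / 100| < 1 / 50 ∧ |p.2.2.im| < 1 / 50 ∧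
    -(1 / 50) < p.2.2.re}

/-- the region between the inner boundary of the wall and the radius `7/10` -/
def Reg (δ : ℝ) : Set R4 := {p | 0 ≤ p.1 ∧ p.1 ≤ 1 ∧ 1 / 25 - 3 * δ ≤ rsq 1 p ∧ rsq 1 p ≤ 49 / 100}

/-- the forbidden region for the loops of arcs -/
def XX (δ κ β : ℝ) : Set R4 := Reg δ \ (hol δ κ β ∪ Chn)

/-- admissible parameters: the ball of radius `κ` about `(0, β)` is between the walls `wallS δ'` and `wallS δ` -/
structure Par (δ δ' κ β : ℝ) : Prop where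
  d0 : 0 < δ
  d1 : 3 * δ < δ'
  d2 : δ' < 1 / 100
  k0 : 0 < κ
  k1 : κ < β
  lo : 1 / 25 - δ' < (β - κ) ^ 2
  hi : (β + κ) ^ 2 < 1 / 25 - 3 * δ

/-- the scale of the big ball dragged by the finger: `1` off `[7/20, 13/20]`, `c` on `[43/100, 57/100]` -/
noncomputable def lam (c s : ℝ) : ℝ :=
  1 - (1 - c) * (step ((s - 7 / 20) / (2 / 25)) * step ((13 / 20 - s) / (2 / 25)))

/-- the arc over the second hole -/
noncomputable def z2 (c β s : ℝ) : R3 := z0 s + (lam c s * β) • eu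

/-- `H` is an isotopy from `T` to a finger push `H.f (1, ·)` which drags along the whole ball of radius `41/200`, shrunk by the factor
`lam c s`; all maps of the isotopy push the line over `e1` to the finger. -/
structure THat (T : R4 → R4) (c : ℝ) (H : DFam 𝓘(ℝ, R4) R4) : Prop where
  zero : ∀ x, H.f (0, x) = T x
  line : ∀ t s : ℝ, H.f (t, (s, e1)) = (s, z0 s)
  supp : ∀ (t : ℝ) (p : R4), (p.1 ≤ 1 / 20 ∨ 19 / 20 ≤ p.1 ∨ 49 / 100 ≤ rsq 1 p) → H.f (t, p) = p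
  ball : ∀ (s : ℝ) (y : R3), nsq y ≤ (41 / 200) ^ 2 → H.f (1, (s, e1 + y)) = (s, z0 s + lam c s • y)

/-- MODULE THAT.
Proof.  `f s = z0 s - e1 = -(bfin s) • e1`.  The germs `J (u, w) (s, e1 + y) = (s, e1 + u • f s + (1 - w + w * lam c s) • y)` for `(u, w) ∈ Q2`, along the compact set `L = {0 ≤ s ≤ 1, nsq y ≤ (41/200)²}`: `Fam2 Q2 L V U J` with `V = {s < 1/10 or 9/10 < s}` (there `bfin = 0`, `lam = 1`) and
`U = {1/20 < s < 19/20, nsq y < 49/100}`: on `L \ V` the value has `y`-part of length `≤ 27/100 + 41/200 < 7/10`.  `StCH4` gives `P` and, for `a t = (0, 0)`, `b t = (step (step t), step t)`, a family `F₁` with `F₁.f (0, ·) = id`, `F₁.f (t, J (0,0) p) = J (b t) p` near `L` (`J (0,0) = id`), support in a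
compact subset of `U`.  `F₂` the family of `FingB.fam`: `F₂.f (0, ·) = id`, `F₂.f (1, ·) = T`, `F₂.f (t, (s, e1)) = (s, (1 - step (step t) * bfin s) • e1)`.  `H.f (t, x) = T (F₂.g (t, F₁.f (t, x)))` (compositions of families; `T` is the frozen family `F₂.freeze 1`).
`zero`: clear.  `line`: for `s ∈ [0,1]`: `F₁.f (t, (s, e1)) = (s, e1 + step (step t) • f s) = F₂.f (t, (s, e1))`; for other `s` everything is the identity (`F₂` is the identity for `s ≤ 1/10`, `9/10 ≤ s`, and `z0 s = e1`).  `supp`: all maps are the identity there (`(3/10)² ≤ 49/100`;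
level preserving).  `ball`: `F₂.f (1, ·) = T`, so `H.f (1, x) = F₁.f (1, x)`; for `s ∉ [0,1]` both sides are `(s, e1 + y)`. -/
def StTHAT : Prop :=
  ∀ T T' : R4 → R4, FingB T T' → ∀ c ∈ Ioo (0 : ℝ) 1, ∃ H : DFam 𝓘(ℝ, R4) R4, THat T c H

/-- a thin finger push, with inverse `S'`, equal to `H.f (1, ·)` near the line over `e1` -/
structure SHat (c : ℝ) (S S' : R4 → R4) : Prop where
  smooth : ContDiff ℝ ∞ S
  smooth' : ContDiff ℝ ∞ S'
  left : ∀ x, S' (S x) = x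
  right : ∀ x, S (S' x) = x
  near : ∀ (s : ℝ) (y : R3), nsq y ≤ (1 / 200) ^ 2 → S (s, e1 + y) = (s, z0 s + lam c s • y)
  thin : ∀ (s : ℝ) (x : R3), (∀ τ ∈ Icc (0 : ℝ) 1, (1 / 50) ^ 2 ≤ nsq (x - (1 - τ * bfin s) • e1)) →
    S (s, x) = (s, x)
  out : ∀ (s : ℝ) (x : R3), (s ≤ 1 / 10 ∨ 9 / 10 ≤ s) → S (s, x) = (s, x)

/-- MODULE SHAT.
Proof.  The germs `J w (s, e1 + y) = (s, e1 + (1 - w + w * lam c s) • y)`, `w ∈ [0,1]`, along `L = {3/10 ≤ s ≤ 7/10, nsq y ≤ (1/200)²}`, frozen on `V = {s < 7/20 or 13/20 < s}`, in `U = {3/10 < s < 7/10, nsq y < (1/100)²}`.  `exists_lpush1` gives a diffeomorphism `Λ` supported in `U` with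
`Λ (s, e1 + y) = (s, e1 + lam c s • y)` near `L`.  `S = T ∘ Λ`: `near`: `FingOk.tube` (`nsq (lam c s • y) ≤ (1/100)²`), for `s ∉ [3/10, 7/10]` `Λ` is the identity and `lam c s = 1`.  `thin`: for such `(s, x)` (take `τ = 0`): `nsq (x - e1) ≥ (1/50)²`, so `Λ (s, x) = (s, x)`, and `FingB.thin`. -/
def StSHAT : Prop :=
  ∀ T T' : R4 → R4, FingB T T' → ∀ c ∈ Ioo (0 : ℝ) 1, ∃ S S' : R4 → R4, SHat c S S'

/-- the embedding of the complement of the wall and the finger defined by `h` -/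
noncomputable def hatE (G : R4 → R4) (δ : ℝ) (h : R4 → R4) : R4 → R4 :=
  imp G (Reg δ) (fun p => rade δ 1 (h p))

/-- the embedding of the complement of the two walls and the two fingers -/
noncomputable def EE (G : R4 → R4) (H : DFam 𝓘(ℝ, R4) R4) (δ κ β : ℝ) : R4 → R4 :=
  imp G (Reg δ \ hol δ κ β) (fun p => rade δ 1 (rad2 δ κ β (H.g (1, p))))

/-- the model of the map which fills in the second hole -/
noncomputable def hio (H : DFam 𝓘(ℝ, R4) R4) (δ κ β : ℝ) (p : R4) : R4 :=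
  open Classical in if rsq 1 (sgi κ β p) < 1 / 25 - 2 * δ then H.f (1, p)
    else H.f (1, rad2 δ κ β (H.g (1, p)))

/-- the map which retracts the second finger and fills in the second hole -/
noncomputable def io (G : R4 → R4) (H : DFam 𝓘(ℝ, R4) R4) (δ κ β : ℝ) : R4 → R4 :=
  imp G (Reg δ) (hio H δ κ β)

/-- the two arcs in the target of `G ∘ H.f (1, ·)` -/
def arc1 (δ : ℝ) : Set R4 := {p | p.2 = e1 ∧ 0 ≤ p.1 ∧ p.1 ≤ 1 ∧ 1 / 25 - δ ≤ bfin p.1 ^ 2}

/-- the parameters of the second arc -/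
def arc2 (δ κ β : ℝ) : Set R4 :=
  {p | p.2 = P2 β ∧ 0 ≤ p.1 ∧ p.1 ≤ 1 ∧ κ ^ 2 * (1 / 25 - δ) ≤ bfin p.1 ^ 2}

/-- the image of a set under `G ∘ H.f (1, ·)` -/
def GH (G : R4 → R4) (H : DFam 𝓘(ℝ, R4) R4) (A : Set R4) : Set R4 :=
  (fun p => G (H.f (1, p))) '' A

/-- the complement of the two walls -/
def U2 (G : R4 → R4) (δ κ β : ℝ) : Set R4 := (G '' (wallS δ ∪ wall2 δ κ β))ᶜ

end Pool.Agent.Helper27.S5


end

/-! ## Helper27.BI.S5.St5n -/

section

/-!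
# Project BI, stage 5: the crossing lemma, statements, part 2

The complement of an unknotted sphere (N2a, N2b, N2c, N2) and the squares of nice spheres (SQF).
-/

set_option autoImplicit false

open scoped Manifold ContDiff Topology ComplexConjugate
open Set Filter Pool.Agent.Helper65.Barb Pool.Agent.Helper18.BI
open Pool.Agent.Helper70.BI (I4 LD NearEq IsW)
open Pool.Agent.Helper34.BI (rade qe)
open Pool.Agent.Helper27.BI (e1)
open Pool.Agent.Helper27.H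
open Pool.Agent.Helper18.BI.H (mm)
open Pool.Agent.Helper18.BI.R (LoopOK SH S2 bp)

namespace Pool.Agent.Helper27.S5

/-! ## loops of arcs in the complement of an unknotted sphere are null-homotopic -/

/-- MODULE N2a (squares in the complement of the round sphere `A₀ = {p.1 = 1/2, rsq 1 p = ρ²}` are null-homotopic relative to the boundary).
Proof.  Coordinates `p = (1/2 + ρ σ, e1 + ρ y)`, `A₀ = {σ = 0, |y| = 1}`.  Put `Z p = 2 σ + i (|y|² + σ² - 1)` (zero exactly on `A₀`), `N p = |y|² + σ² + 1`, `w p = 2 y / N` (`|w|² = 1 - |Z|²/N² < 1` off `A₀`).  The map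
`P (θ, w) = (σ, y) = (r cos θ, w)/(1 - r sin θ)`, `r = √(1 - |w|²)`, is defined and continuous for `|w| < 1` if `r sin θ ≠ 1`, i.e. unless `w = 0` and `θ ∈ π/2 + 2π ℤ`; its values are off `A₀`, and `P (θ, w p) = p` if `Z p = |Z p| e^{iθ}` (stereographic projection: `1 - r sin θ = 2/N`).
(1) Lift: there is a continuous `θ : [0,1] × [m₀,m₁] → ℝ` with `Z (f z) = |Z (f z)| e^{i θ z}`: `lift_log` in `Pool/Agent/Helper34/BI/UNK2.lean` for `g (x + i y) = Z (f (proj x, proj y))` (`projIcc`), imaginary part of the logarithm.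
(2) `θ (q, m₀)` and `θ (q, m₁)` do not depend on `q` (continuous, constant modulo `2π` since `f` is constant there), and `θ (1, s) - θ (0, s)` is a continuous function with values in `2π ℤ`, zero for `s = m₀`, so zero.
So `F = (θ, w ∘ f)` is `Γ s := F (0, s)` on the boundary of the square.  `H⁰ (u, q, s) = (1 - u) F (q, s) + u Γ s`, with values in the convex set `ℝ × {|w| < 1}`, relative to the boundary, from `F` to `Γ`.
(3) Avoid the bad points `b n = (π/2 + 2π n, 0)`: no value of `F` or `Γ` is bad (`f` has values in `R4`).  The cube `Q = [0,1] × [0,1] × [m₀,m₁]`; let `η > 0` be so small that on `Q` `|w| ≤ 1 - η` (`w`-part of `H⁰`), and that `dist (H⁰ z, b n) > η` on the boundary of the cube `Q`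
(compactness; only finitely many `n` matter).  `K_b = {z ∈ Q | ∃ n, dist (H⁰ z, b n) ≤ η}` is compact and disjoint from `∂Q`; `χ : Q → [0,1]` continuous, `1` on `K_b`, `0` on `∂Q`.  `H¹ : ℝ³ → ℝ × R3` smooth with `|H¹ - H⁰| < η/4` on `Q` (extend `H⁰` by `projIcc`; `Continuous.exists_contDiff_approx..` or
Stone-Weierstrass).  The set `{b n - H¹ z}` (`n ∈ ℤ`, `z ∈ ℝ³`) is a null set of the four-dimensional space `ℝ × R3` (images of a three-dimensional space under smooth maps: `null_linear` in `Pool/Agent/Helper34/BI/`, or `dimH`), so there is `v`, `|v| < η/4`, with `H¹ z + v ≠ b n` for all `z`, `n`.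
`H² = H⁰ + χ (H¹ - H⁰ + v)`: where `χ = 1` it is `H¹ + v`, not bad; elsewhere `dist (H⁰ z, b n) > η` and `|H² - H⁰| ≤ η/2`.  `H = P ∘ H²` (in the original coordinates). -/
def StN2a : Prop :=
  ∀ (ρ m₀ m₁ : ℝ) (f : ℝ × ℝ → R4) (γ : ℝ → R4), 0 < ρ → m₀ < m₁ →
    ContinuousOn f (Icc (0 : ℝ) 1 ×ˢ Icc m₀ m₁) →
    (∀ z ∈ Icc (0 : ℝ) 1 ×ˢ Icc m₀ m₁, ¬((f z).1 = 1 / 2 ∧ rsq 1 (f z) = ρ ^ 2)) →
    (∀ q ∈ Icc (0 : ℝ) 1, ∀ s ∈ Icc m₀ m₁, (q = 0 ∨ q = 1 ∨ s = m₀ ∨ s = m₁) → f (q, s) = γ s) →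
    ∃ H : ℝ × ℝ × ℝ → R4, ContinuousOn H (Icc (0 : ℝ) 1 ×ˢ (Icc (0 : ℝ) 1 ×ˢ Icc m₀ m₁)) ∧
      (∀ q ∈ Icc (0 : ℝ) 1, ∀ s ∈ Icc m₀ m₁, H (0, q, s) = f (q, s) ∧ H (1, q, s) = γ s) ∧
      ∀ u ∈ Icc (0 : ℝ) 1, ∀ q ∈ Icc (0 : ℝ) 1, ∀ s ∈ Icc m₀ m₁,
        ¬((H (u, q, s)).1 = 1 / 2 ∧ rsq 1 (H (u, q, s)) = ρ ^ 2) ∧
        ((q = 0 ∨ q = 1 ∨ s = m₀ ∨ s = m₁) → H (u, q, s) = γ s)

/-- MODULE N2b (pushing off the thick sphere).
Proof.  `m = 1/25 - 2 δ > 0`; `N p = max (2 |p.1 - 1/2|) (|rsq 1 p - m| / δ)`, continuous; `wallS δ = {N ≤ 1}`, and `N p = 0` iff `p.1 = 1/2` and `rsq 1 p = m`.  `N > 1` on the compact set `K`, so `N ≥ ν` on `K` for some `ν ∈ (1, 3/2)`.  For `N p ≥ ν`: `ϖ p = p`.  For `0 < N p ≤ ν`: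
`t = ν / N p ≥ 1`, `s' = 1/2 + t (p.1 - 1/2)`, `k' = m + t (rsq 1 p - m)`, so `|k' - m| ≤ ν δ`, `k' > 0`, and `rsq 1 p > 0` too; `ϖ p = (s', e1 + √(k' / rsq 1 p) • (p.2 - e1))`, with `rsq 1 (ϖ p) = k'`, `N (ϖ p) = ν > 1`.  Both formulas agree for `N p = ν`; continuous. -/
def StN2b : Prop :=
  ∀ δ ∈ Ioo (0 : ℝ) (1 / 100), ∀ K : Set R4, IsCompact K → Disjoint K (wallS δ) →
    ∃ ϖ : R4 → R4, ContinuousOn ϖ {p | ¬(p.1 = 1 / 2 ∧ rsq 1 p = 1 / 25 - 2 * δ)} ∧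
      (∀ p, ¬(p.1 = 1 / 2 ∧ rsq 1 p = 1 / 25 - 2 * δ) → ϖ p ∉ wallS δ) ∧ ∀ p ∈ K, ϖ p = p

/-- the domain of the germ in `StN2c`, `StN2` -/
def Bq : Set R4 := {p | -(1 / 2) ≤ p.1 ∧ p.1 ≤ 3 / 2 ∧ rsq 1 p ≤ 1 / 16}

/-- MODULE N2c (straightening; uses `StLOC` of `Pool/Agent/Helper70/BI/StU.lean`, and the squeezing homeomorphisms in `Pool/Agent/Helper34/BI/UNK1.lean`, compare the proof of `UNK3.core`, `UNK3.straight`).
Proof.  `x = (1/2, e1)`.  If `(fderiv ℝ G x).det < 0` replace `G` by `G ∘ r`, `r (s, (a, w)) = (s, (a, conj w))`, which preserves `Bq` and `wallS δ`.  So let the determinant be positive.  `StLOC` with `U = univ`: a diffeomorphism `g` of `R4` with `g (G q) = q` for `q` in a ball `N₀` about `x`.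
`Nn p = max (2 |p.1 - 1/2|) (5 √(rsq 1 p))`: `{Nn ≤ 1} ⊇ wallS δ`, `{Nn ≤ 5/4} ⊆ Bq` (`2 |s - 1/2| ≤ 5/4`, `√(rsq) ≤ 1/4`).  Squeeze: a homeomorphism `Q` of `R4`, `Q p = x + th (Nn p) • (p - x)` with `Q = id` for `Nn ≥ 5/4 - small` and `Q ({Nn ≤ 1}) ⊆ N₀` (functions `th`, `ti` of `UNK1.lean`).
`Q̃` = `G ∘ Q ∘ G⁻¹` on `G '' {Nn ≤ 5/4}`, the identity elsewhere: a homeomorphism of `R4` (`UNK1.exists_push`; `G` is injective and open near the compact set `{Nn ≤ 5/4}`, `StA1`).  `Ψ = Q⁻¹ ∘ g ∘ Q̃`: for `p ∈ wallS δ`: `Q̃ (G p) = G (Q p)`, `Q p ∈ N₀`, `g` of it is `Q p`, so `Ψ (G p) = p`. -/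
def StN2c : Prop :=
  ∀ (δ : ℝ) (G : R4 → R4), δ ∈ Ioo (0 : ℝ) (1 / 100) → EmbOn I4 G Bq →
    ∃ Ψ : R4 ≃ₜ R4, Ψ '' (G '' wallS δ) = wallS δ

/-- MODULE N2 (from `StN2a`, `StN2b`, `StN2c`).
Proof.  `f (q, s) = Ψ (c q s)` for `s ∈ [m₀, m₁]`, `γ s = Ψ (D.c s)`; `f` is off `wallS δ` (`Ψ` injective, `c q s ∈ D.U`); `K = f '' ([0,1] × [m₀,m₁])` compact; `ϖ` from `StN2b`; `H` from `StN2a` with `ρ² = 1/25 - 2 δ`.  The homotopy `Ψ⁻¹ (ϖ (H (u, q, s)))`: at `u = 0`: `ϖ (f (q, s)) = f (q, s)`; at `u = 1` and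
for boundary points: `ϖ (γ s) = γ s` (`γ s = f (0, s) ∈ K`); it is in `D.U`: `ϖ (..) ∉ wallS δ = Ψ '' (G '' wallS δ)`. -/
def StN2 : Prop :=
  ∀ (δ : ℝ) (G : R4 → R4) (D : ArcD) (c : ℝ → ℝ → R4), δ ∈ Ioo (0 : ℝ) (1 / 100) →
    EmbOn I4 G Bq → D.U = (G '' wallS δ)ᶜ → LoopOK D c → SH D c (fun _ s => D.c s)

/-! ## squares of nice spheres -/

/-- MODULE SQF.  A based sphere `g` which leaves the bar sideways and is otherwise off the (limit of the) forbidden region gives, for small `ε`, a square off the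
forbidden region, with the base arc as boundary values, homotopic to the translated square of `g` off the walls.
`arc s = F (sq ε (s, (73/100, 0)))` is the base arc, `bp F = F (bar (73/100)) = F (1/2, (73/100, 0))`.
Proof.  `F` is injective and a local diffeomorphism, in particular continuous, on an open `N ⊇ SP ∪ shell δ'` (`StA1`); `τ₀` such that `(1/2, (73/100, w)) ∈ N` for `|w| ≤ 2 τ₀` (`bar (73/100) ∈ SP`), `τ₀ ≤ 1/100`.
For `m ∈ S2` put `t = 10 (1 - m.1)`; the collar is `t ≤ 1`.  In the collar `g m = F (1/2, (73/100, t τ₁))`.  For `t ∈ [0,1]`, `s ∈ [9/20, 11/20]` define the point `Y ε s t` (before applying `F`): with `(s', (a', b4)) = sq ε (s, (73/100, 4))` (the third coordinate `b4` is real and positive; `a' = axc ε (73/100)`,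
`s' = 1/2 + ε (s - 1/2)` or similar, see the definition of `sq`, `fac`, `prof`, `axc`: `sq ε (s, (a, w)) = (.., (axc ε a, fac ε a |w|² w))`):
`t ≤ 1/3`: `Y = sq ε (s, (73/100, 12 t))`; `1/3 ≤ t ≤ 2/3`: `Y = (s', (a', (2 - 3 t) b4 + (3 t - 1) τ₁))`; `2/3 ≤ t ≤ 1`: `Y` = the segment from `(s', (a', τ₁))` to `(1/2, (73/100, τ₁))`.
(i) `Y ∉ sq ε '' XX δ' κ β`: `sq ε` is injective (`StS..`: it is of the form `tri`, injective).  First part: `(s, (73/100, 12 t)) ∉ XX` since it is in `Chn` (`9/20 ≤ s ≤ 11/20`, `|a - 73/100| = 0`, `w` real `≥ 0`).  Second part: `Y = sq ε (s'', (a, w))` with `(s'', (a, w)) ∈ XX` gives (`axc ε` is injective) `a = 73/100`, `w` real positive (`fac > 0`)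
and `fac ε a w² w ≥ fac ε a 16 · 4`, so `w ≥ 4` (the function `w ↦ fac ε a w² w` is strictly increasing, `StS1`), but `rsq 1 ≤ 49/100` in `XX`.  Third part: as `ε → 0`, `Y` is uniformly close to `(1/2, (73/100, τ₁))`, which is not in `sq 0 '' (Reg δ') ⊆ SP ∪ shell δ'` (`τ₁ > 0`);
`sq` is continuous up to `ε = 0` (`StS3`) and `Reg δ'` is compact, so for small `ε` the third part is off `sq ε '' Reg δ'`.
(ii) `f q s` for `m = mm q s`: in the collar `F (Y ε s t)`, otherwise `g m`.  At `t = 1` both are `F (1/2, (73/100, τ₁))`.  Continuous (`mm` is continuous, `F` is continuous near all `Y` for small `ε`).  At the boundary of the square `mm q s = (1, 0)` (`mm_edge`, `mm_ends` in `EndR4.lean`), `t = 0`: `F (sq ε (s, (73/100, 0)))`.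
Off `F '' (sq ε '' XX)`: in the collar by (i) and the injectivity of `F` on `N` (for small `ε`: `sq ε '' Reg δ' ⊆ N` and the `Y` are in `N`: `sq 0 '' Reg δ' ⊆ SP ∪ shell δ'`, `StS5`-type tube lemma).  Outside the collar: `g` is off `F '' (sq 0 '' closure XX)`: `XX` is closed (`hol` and `Chn` are relatively open in `Reg`: `hol ∩ Reg` is relatively open),
hence compact; `g '' {m ∈ S2 | m.1 ≤ 9/10}` is compact, disjoint from the compact set `F '' (sq 0 '' XX)`, so for small `ε` it is disjoint from `F '' (sq ε '' XX)`.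
(iii) The homotopy `H (u, q, s)`: outside the collar: `g m + u (arc s - bp F)`; in the collar `F (Y + u' ..)` in two steps: for `u ≤ 1/2`: `F ((1 - 2 u) Y + 2 u (1/2, (73/100, t τ₁)))`, for `u ≥ 1/2`: `g m + (2 u - 1) (arc s - bp F)`; outside the collar for `u ≤ 1/2` constantly `g m`.  To have the right boundary values for all `u`
(`arc s` at `t = 0`) insert a correction: replace `(1/2, (73/100, t τ₁))` by `(1/2, (73/100, t τ₁)) + (1 - t) (sq ε (s, (73/100, 0)) - (1/2, (73/100, 0)))` and in the second step use the linear homotopy from `F` of this point to `g m + (arc s - bp F)`.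
All these points are, for small `ε`, as close as we like to `g m` outside the collar, and to `F ({1/2} × {(73/100, w) | 0 ≤ w ≤ τ₁})` in the collar; these compact sets are off `F '' (sq 0 '' (wallS δ ∪ wallS δ'))`: `g m ∉ F '' (sq 0 '' XX)` outside the collar and `wallS δ ∪ wallS δ' ⊆ XX` (`Par`), in the collar by the injectivity of `F` on `N`.
So for small `ε` `H` is off `F '' (sq ε '' (wallS δ ∪ wallS δ'))`. -/
def StSQF : Prop :=
  ∀ F : R4 → R4, EmbOn I4 F SP → ∃ τ₀ > 0, ∀ τ₁ ∈ Ioo 0 τ₀, ∀ δ δ' κ β : ℝ, Par δ δ' κ β →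
    EmbOn I4 F (SP ∪ shell δ') → ∀ g : R3 → R4, ContinuousOn g S2 →
    (∀ m ∈ S2, 9 / 10 ≤ m.1 → g m = F (1 / 2, (73 / 100, ((10 * (1 - m.1) * τ₁ : ℝ) : ℂ)))) →
    (∀ m ∈ S2, m.1 ≤ 9 / 10 → ∀ p ∈ XX δ' κ β, g m ≠ F (sq 0 p)) →
    ∃ ε₀ > 0, ∀ ε ∈ Ioo 0 ε₀, ∃ (f : ℝ → ℝ → R4) (H : ℝ × ℝ × ℝ → R4),
      ContinuousOn (fun z : ℝ × ℝ => f z.1 z.2) (Icc (0 : ℝ) 1 ×ˢ Icc (9 / 20 : ℝ) (11 / 20)) ∧
      (∀ q ∈ Icc (0 : ℝ) 1, ∀ s ∈ Icc (9 / 20 : ℝ) (11 / 20),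
        (∀ p ∈ XX δ' κ β, f q s ≠ F (sq ε p)) ∧
        ((q = 0 ∨ q = 1 ∨ s = 9 / 20 ∨ s = 11 / 20) → f q s = F (sq ε (s, (73 / 100, 0)))) ∧
        H (0, q, s) = f q s ∧
        H (1, q, s) = g (mm q s) + (F (sq ε (s, (73 / 100, 0))) - bp F)) ∧
      ContinuousOn H (Icc (0 : ℝ) 1 ×ˢ (Icc (0 : ℝ) 1 ×ˢ Icc (9 / 20 : ℝ) (11 / 20))) ∧
      ∀ u ∈ Icc (0 : ℝ) 1, ∀ q ∈ Icc (0 : ℝ) 1, ∀ s ∈ Icc (9 / 20 : ℝ) (11 / 20),
        (∀ p ∈ wallS δ ∪ wallS δ', H (u, q, s) ≠ F (sq ε p)) ∧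
        ((q = 0 ∨ q = 1 ∨ s = 9 / 20 ∨ s = 11 / 20) →
          H (u, q, s) = F (sq ε (s, (73 / 100, 0))))

end Pool.Agent.Helper27.S5


end

/-! ## Helper17.BI5.M_GH -/

section

/-!
# Project BI, stage 5 (S5), module GH: gluing an embedding of the model to the identity
-/

set_option autoImplicit false

open scoped Manifold ContDiff Topology ComplexConjugate
open Set Filter Pool.Agent.Helper65.Barb Pool.Agent.Helper18.BI
open Pool.Agent.Helper70.BI (I4 NearEq LD ld_iff ld_comp ld_congr)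
open Pool.Agent.Helper27.BI (imp_image imp_off)

namespace Pool.Agent.Helper27.S5

theorem m_GH : StGH := by
  intro G h D B hDc hB hG hld hinj hmaps hfix
  obtain ⟨Φ, hΦ1, hΦ2⟩ := m_A1 R4 R4 R4 I4 R4 G D hDc hG.1 hG.2
  have hΦc : ContinuousOn G D := by
    intro p hp
    exact ((hG.1 p hp).contMDiffAt.continuousAt).continuousWithinAt
  have hGDc : IsClosed (G '' D) := (hDc.image_of_continuousOn hΦc).isClosed
  have good : ∀ y ∈ (G '' (D ∩ B))ᶜ, ∀ p ∈ D, G p = y → p ∈ D \ B := by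
    rintro y hy p hp rfl
    exact ⟨hp, fun hpB => hy ⟨p, ⟨hp, hpB⟩, rfl⟩⟩
  have hval : ∀ p ∈ D, imp G D h (G p) = G (h p) := fun p hp => imp_image hG.2 hp
  constructor
  · intro y hy
    by_cases hyD : y ∈ G '' D
    · obtain ⟨p, hp, hpy⟩ := hyD
      have hgp := good y hy p hp hpy
      have hps : p ∈ Φ.source := hΦ1 hp
      have hΦp : Φ p = y := by rw [hΦ2 p hps, hpy]
      have hyt : y ∈ Φ.target := hΦp ▸ Φ.map_source hps
      have hsy : Φ.symm y = p := by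
        rw [← hΦp]
        exact Φ.left_inv hps
      have hls : LD Φ.symm y := by
        refine PartialDiffeomorph.isLocalDiffeomorphAt _ _ _ Φ.symm ?_
        exact hyt
      have hle : LD (fun q => G (h q)) p :=
        ld_comp (F := G) (m := h) (hld p hgp) (hG.1 _ (hmaps hgp))
      have hlc : LD (fun z => G (h (Φ.symm z))) y := by
        apply ld_comp (F := fun q => G (h q)) (m := Φ.symm) hls
        rw [hsy]
        exact hle
      refine ld_congr ?_ hlc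
      have c1 : ContinuousAt Φ.symm y := hls.contMDiffAt.continuousAt
      have c2 : ∀ᶠ z in 𝓝 y, Φ.symm z ∉ D → h (Φ.symm z) = Φ.symm z := by
        have c3 : ∀ᶠ q in 𝓝 (Φ.symm y), q ∉ D → h q = q := by
          rw [hsy]
          exact hfix p hgp
        exact c1 c3
      filter_upwards [c2, Φ.open_target.mem_nhds hyt] with z hz1 hz2
      have hz3 : Φ.symm z ∈ Φ.source := Φ.map_target hz2
      have hz4 : G (Φ.symm z) = z := by
        rw [← hΦ2 _ hz3]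
        exact Φ.right_inv hz2
      by_cases hzD : Φ.symm z ∈ D
      · have h5 : imp G D h (G (Φ.symm z)) = G (h (Φ.symm z)) := hval _ hzD
        rw [hz4] at h5
        exact h5.symm
      · rw [hz1 hzD, hz4]
        symm
        apply imp_off
        rintro ⟨r, hr, hrz⟩
        have hr1 : r ∈ Φ.source := hΦ1 hr
        have h6 : Φ r = z := by rw [hΦ2 r hr1, hrz]
        have h7 : Φ.symm z = r := by rw [← h6]; exact Φ.left_inv hr1
        rw [h7] at hzD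
        exact hzD hr
    · have hid : LD (fun z : R4 => z) y := by
        rw [ld_iff]
        refine ⟨Eventually.of_forall fun q => contDiffAt_id, ?_⟩
        have : fderiv ℝ (fun z : R4 => z) y = ContinuousLinearMap.id ℝ R4 := fderiv_id
        rw [this]
        exact fun v w h => h
      refine ld_congr ?_ hid
      filter_upwards [hGDc.isOpen_compl.mem_nhds hyD] with z hz
      exact (imp_off hz).symm
  · intro y hy y' hy' he
    by_cases hyD : y ∈ G '' D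
    · obtain ⟨p, hp, hpy⟩ := hyD
      have hgp := good y hy p hp hpy
      by_cases hyD' : y' ∈ G '' D
      · obtain ⟨p', hp', hpy'⟩ := hyD'
        have hgp' := good y' hy' p' hp' hpy'
        rw [← hpy, ← hpy', hval p hp, hval p' hp'] at he
        have h1 := hG.2 (hmaps hgp) (hmaps hgp') he
        rw [← hpy, ← hpy', hinj hgp hgp' h1]
      · rw [imp_off hyD', ← hpy, hval p hp] at he
        exact absurd ⟨_, hmaps hgp, he⟩ hyD'
    · by_cases hyD' : y' ∈ G '' D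
      · obtain ⟨p', hp', hpy'⟩ := hyD'
        have hgp' := good y' hy' p' hp' hpy'
        rw [imp_off hyD, ← hpy', hval p' hp'] at he
        exact absurd ⟨_, hmaps hgp', he.symm⟩ hyD
      · rwa [imp_off hyD, imp_off hyD'] at he

end Pool.Agent.Helper27.S5


end

/-! ## Helper27.BI.S5.St5g -/

section

/-!
# Project BI, stage 5: the crossing lemma, statements, part 3: the geometry of the two walls

See the top of `St5.lean`.  All hypotheses are collected in `Sys`.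
-/

set_option autoImplicit false

open scoped Manifold ContDiff Topology ComplexConjugate
open Set Filter Pool.Agent.Helper65.Barb Pool.Agent.Helper18.BI
open Pool.Agent.Helper70.BI (I4 LD NearEq IsW)
open Pool.Agent.Helper34.BI (rade qe)
open Pool.Agent.Helper27.BI (e1)
open Pool.Agent.Helper27.H
open Pool.Agent.Helper18.BI.R (LoopOK SH)

namespace Pool.Agent.Helper27.S5

/-- a vertical segment -/
def ar (x : R3) (a b : ℝ) : Set R4 := {p | p.2 = x ∧ a ≤ p.1 ∧ p.1 ≤ b}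

/-- the levels between which the second arc is outside the second wall -/
structure Arc2 (δ κ a b : ℝ) : Prop where
  ma : a ∈ Ioo (1 / 10 : ℝ) (3 / 10)
  mb : b ∈ Ioo (7 / 10 : ℝ) (9 / 10)
  ea : bfin a ^ 2 = κ ^ 2 * (1 / 25 - δ)
  eb : bfin b ^ 2 = κ ^ 2 * (1 / 25 - δ)
  ins : ∀ s ∈ Ioo a b, κ ^ 2 * (1 / 25 - δ) < bfin s ^ 2
  out : ∀ s, s ∉ Ioo a b → bfin s ^ 2 ≤ κ ^ 2 * (1 / 25 - δ)

/-- all data: `D` is the given arc datum (wall `wallS δ`), `D'` the one of the deeper wall `wallS δ'`, `H` the isotopy from `T` to the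
finger push dragging the big ball -/
structure Sys (G T T' : R4 → R4) (δ δ' κ β c : ℝ) (D D' : ArcD) (H : DFam 𝓘(ℝ, R4) R4) (a b : ℝ) :
    Prop where
  par : Par δ δ' κ β
  fb : FingB T T'
  emb : EmbOn I4 G (K3 δ')
  hat : HatOk δ T' G D
  hat' : HatOk δ' T' G D'
  mc : c ∈ Ioo (0 : ℝ) 1
  th : THat T c H
  ab : Arc2 δ' κ a b

/-- the second arc -/
def A2 (G : R4 → R4) (H : DFam 𝓘(ℝ, R4) R4) (β a b : ℝ) : Set R4 := GH G H (ar (P2 β) a b)

/-- the ball dragged by the finger, in the middle levels -/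
def tb (c : ℝ) : Set R4 :=
  {p | 11 / 25 < p.1 ∧ p.1 < 14 / 25 ∧ nsq (p.2 - z0 p.1) ≤ (c * (41 / 200)) ^ 2}

/-- MODULE ARC2.  Existence of the levels.  Proof: as in `m_BFIN` (`Pool/Agent/Helper27/BI/H/Fing.lean`), with `κ² (1/25 - δ) ∈ (0, (27/100)²)` instead of `1/25 - δ`. -/
def StARC2 : Prop :=
  ∀ δ κ : ℝ, δ ∈ Ioo (0 : ℝ) (1 / 100) → κ ∈ Ioo (0 : ℝ) 1 → ∃ a b, Arc2 δ κ a b

/-- MODULE HE (uses `StGH`, `StGHF`).  The embedding `D.e` of an arc datum is isotopic to the one defined by the big finger push.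
`δ ∈ (0, 1/100)`; below `r = rsq 1 p`.
Proof.  `h (t, p) = rade δ 1 (H.g (t, p))`, region `Reg δ` (compact, `⊆ K3 δ`: `Geo5.lean`), `B = wallS δ ∪ {(s, z0 s) | s ∈ [s₀, s₁]}` (closed), so `(G '' (Reg δ ∩ B))ᶜ = D.U \ D.A` (`D.A = D.J '' D.L`, `D.J (s, 0) = G (s, z0 s)`; these points are in `Reg δ`).
Let `p ∈ Reg δ \ B`: `r > 1/25 - δ`.  `H.g (t, p)` is not on the line over `e1`: otherwise `p = H.f (t, (s, e1)) = (s, z0 s)`, `r = bfin s ^ 2 > 1/25 - δ`, so `s ∈ (s₀, s₁)` (`HatOk.b'`), `p ∈ B`.  So `h (t, ·)` is a local diffeomorphism and injective there (`rade_emb` in `Hcls.lean`).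
`H.g (t, ·)` maps `{0 ≤ s ≤ 1, r ≤ 49/100}` to itself (it is bijective, and the identity off this set and on `{s ≤ 1/20 or 19/20 ≤ s or 49/100 ≤ r}`); `rade δ 1` preserves the level, `1/25 - 3 δ ≤ rsq (rade ..)` (`rade_low`), `≤ 49/100` (`rade_up`, `rade_self`).  So `MapsTo`.
Frontier: `q` near `p`, `q ∉ Reg δ`: then `q.1 < 0`, `1 < q.1` or `49/100 < rsq 1 q` (`rsq 1 q > 1/25 - δ` near `p`), so `H.g (t', q) = q` and `rade δ 1 q = q`.
`StGH` gives the first claim (`t = 1`), `StGHF` gives `CIsot (imp (imp G (Reg δ) (rade δ 1 ∘ T')) K Θ) (imp (hatE ..) K Θ)`, as `H.g (0, ·) = T'` (`THat.zero`).  Finally `imp G (Reg δ) (rade δ 1 ∘ T') = D.e` on `D.U \ D.A ⊇ K`: `D.e = imp G (Dreg δ) (e0 δ T')`; `Dreg δ ⊆ Reg δ`; for `p ∈ Reg δ`, `G p ∈ D.U`, `p ∉ Dreg δ`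
we have `r > 1/9`, `T' p = p` (`e0_far`), `rade δ 1 p = p`, both sides are `G p`; `StImp` (6) (`hImp`). -/
def StHE : Prop :=
  ∀ (G T T' : R4 → R4) (δ c : ℝ) (D : ArcD) (H : DFam 𝓘(ℝ, R4) R4), FingB T T' →
    δ ∈ Ioo (0 : ℝ) (1 / 100) → EmbOn I4 G (K3 δ) → HatOk δ T' G D → THat T c H →
    EmbOn I4 (hatE G δ (fun p => H.g (1, p))) (D.U \ D.A) ∧
    ∀ (K : Set R4) (Θ Θ' : R4 → R4), IsCompact K → K ⊆ D.U \ D.A → SDiff K Θ Θ' →
      CIsot I4 (imp D.e K Θ) (imp (hatE G δ (fun p => H.g (1, p))) K Θ)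

/-- MODULE E1 (uses `StGH`).  `EE` is an embedding of the complement of the two walls and the two arcs.
Proof.  `StGH` with the region `Reg δ' \ hol δ' κ β` (compact), `B = wallS δ' ∪ wall2 δ' κ β ∪ {(s, z0 s) | s ∈ [s₀', s₁']} ∪ {(s, z2 c β s) | s ∈ [a, b]}` (closed; `H.f (1, (s, P2 β)) = (s, z2 c β s)` by `THat.ball`), `h p = rade δ' 1 (rad2 δ' κ β (H.g (1, p)))`.
Let `p` be in the region, not in `B`; `rsq 1 p > 1/25 - δ'`, `rsq 1 (sgi κ β p) > 1/25 - δ'`.  `q = H.g (1, p)` is in `{0 ≤ s ≤ 1, rsq 1 ≤ 49/100}`, not on the line over `e1` (as in `StHE`), not on the line over `P2 β`: otherwise `p = (s, z2 c β s)`, `s ∉ [a, b]`, so `bfin s ^ 2 ≤ κ² (1/25 - δ')`, in particular `bfin s < 27/100`,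
`s ∉ [3/10, 7/10]`, `lam c s = 1`, `z2 c β s - P2 β = -(bfin s) • e1`, `rsq 1 (sgi p) = κ⁻² bfin s ^ 2 ≤ 1/25 - δ'`, a contradiction.  `rad2` (`Geo5.lean`): an injective local diffeomorphism off the line over `P2 β`, the identity for `rsq 1 (sgi q) ≥ 1/25 - δ'`, with `rsq 1 (sgi (rad2 q)) ≥ 1/25 - 3 δ'`,
it maps `{rsq 1 (sgi q) ≤ 1/25 - δ'}` to itself, where `rsq 1 > 1/25 - δ'` and `rsq 1 ≤ 49/100`, and fixes the line over `e1`; `rade δ' 1` moves only points with `rsq 1 < 1/25 - δ'`, to such points.  So `h p` is in the region, and `h` is an injective local diffeomorphism.  Frontier: `q` near `p` not in the region: as in `StHE` or `q ∈ hol`,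
impossible near `p`; so `H.g (1, q) = q`, `rad2 q = q`, `rade q = q`. -/
def StE1 : Prop :=
  ∀ (G T T' : R4 → R4) (δ δ' κ β c : ℝ) (D D' : ArcD) (H : DFam 𝓘(ℝ, R4) R4) (a b : ℝ),
    Sys G T T' δ δ' κ β c D D' H a b →
    EmbOn I4 (EE G H δ' κ β) (U2 G δ' κ β \ (D'.A ∪ A2 G H β a b))

/-- MODULE EXA (uses `StHE`).  Exactness: the push of a loop which moves off `G '' XX` and fixes the small ball dragged by the finger.
Proof.  (1) `K ⊆ D.U \ D.A` and `K ⊆ U2 \ (D'.A ∪ A2)`: `wallS δ`, `wallS δ'`, `wall2` are contained in `XX δ' κ β` (they are in `Reg δ'`, not in `hol`, not in `Chn`, where `rsq 1 ≥ (1/4)²`); `(s, z0 s)` with `1/25 - δ' ≤ bfin s ^ 2` is in `XX` if `s ∉ (11/25, 14/25)` (`Geo5.lean`), otherwise in `tb c`;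
`(s, z2 c β s)`, `s ∈ [a, b]`, is in `XX` if `s ∉ (11/25, 14/25)`: `rsq 1 = bfin s ^ 2 + (lam c s * β) ^ 2 ≥ 1/25 - δ'` (`lam = 1` or `bfin s = 27/100`), `rsq 1 (sgi ..) = κ⁻² (bfin s ^ 2 + (1 - lam c s) ^ 2 β ^ 2) ≥ 1/25 - δ'`; otherwise in `tb c` (`lam c s = c` there, `nsq (z2 - z0) = (c β) ^ 2`).
(2) `StHE` for `δ`: `CIsot (imp D.e K Θ) (imp (hatE G δ (H.g (1, ·))) K Θ)`.  (3) `hatE G δ (H.g (1, ·)) = EE` on `K` (`StImp` (6)): let `x ∈ K`.  If `x ∉ G '' Reg δ'`: both are `x`.  If `x = G p`, `p ∈ Reg δ'`: `p ∉ XX`, so `p ∈ hol` or `p ∈ Chn`.  `p ∈ hol`: `EE x = x`; `rsq 1 p < 1/25 - 3 δ`, so `p ∉ Reg δ`, `hatE x = x`.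
`p ∈ Chn`: `p ∈ Reg δ`, `p ∉ tb c`.  `q = H.g (1, p)` has `rsq 1 q > (41/200)²`: otherwise `p = H.f (1, q) = (q.1, z0 q.1 + lam c q.1 • (q.2 - e1))`, `q.1 = p.1 ∈ (11/25, 14/25)`, `lam = c`, `p ∈ tb c`.  So `rade δ 1 q = q`, `rade δ' 1 q = q` (`(41/200)² > 1/25`) and `rad2 q = q` (`rsq 1 (sgi q) ≤ 1/25` would give `√(rsq 1 q) ≤ β + κ < 1/5`);
both sides are `G q`. -/
def StEXA : Prop :=
  ∀ (G T T' : R4 → R4) (δ δ' κ β c : ℝ) (D D' : ArcD) (H : DFam 𝓘(ℝ, R4) R4) (a b : ℝ),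
    Sys G T T' δ δ' κ β c D D' H a b → ∀ (K : Set R4) (Θ Θ' : R4 → R4), IsCompact K →
    K ⊆ (G '' XX δ' κ β)ᶜ → Disjoint K (G '' tb c) → SDiff K Θ Θ' →
    K ⊆ D.U \ D.A ∧ K ⊆ U2 G δ' κ β \ (D'.A ∪ A2 G H β a b) ∧
      CIsot I4 (imp D.e K Θ) (imp (EE G H δ' κ β) K Θ)

/-- MODULE IO1 (uses `StGH`).  The map `io` which retracts the second finger and fills in the second hole.
Proof.  `StGH` with the region `Reg δ'`, `B = wallS δ' ∪ wall2 δ' κ β ∪ {(s, z2 c β s) | s ∈ [a, b]}`, `h = hio H δ' κ β`.  On `Reg δ' \ B` either `rsq 1 (sgi p) < 1/25 - 3 δ'` (then `p ∈ hol`) or `rsq 1 (sgi p) > 1/25 - δ'`.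
(a) `p = (s, P2 β + w) ∈ hol`: `h p = H.f (1, p) = (s, z0 s + lam c s • (p.2 - e1))` (`nsq (p.2 - e1) ≤ (β + κ)² < 1/25`), in `Reg δ'`, with `rsq 1 > 1/25 - δ'` (`Geo5.lean`: for all `p` with `rsq 1 (sgi p) ≤ 1/25`, `0 ≤ s ≤ 1`: `rsq 1 (H.f (1, p)) > 1/25 - δ'` and `≤ 49/100`).
(b) otherwise `h p = H.f (1, rad2 (H.g (1, p)))`, with `q = H.g (1, p)` not on the line over `P2 β` (as in `StE1`); if `rsq 1 (sgi q) ≥ 1/25 - δ'` it is `p`; otherwise `q' = rad2 q` satisfies `1/25 - 3 δ' ≤ rsq 1 (sgi q') ≤ 1/25 - δ'`, and again `h p = H.f (1, q') ∈ Reg δ'`, `rsq 1 (h p) > 1/25 - δ'`.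
Injective: (a) `h p = H.f (1, p)`, `rsq 1 (sgi p) < 1/25 - 3 δ'`; (b) `h p = H.f (1, q')`, `rsq 1 (sgi q') ≥ 1/25 - 3 δ'`; `H.f (1, ·)` and `rad2` are injective.  Local diffeomorphism: clear, the two cases are open.  Frontier: near `p ∈ Reg δ' \ B` points `q ∉ Reg δ'` have level `< 0` or `> 1` or `rsq 1 q > 49/100`; `H.f (1, q) = q`,
in case (b) also `rad2 q = q` (`rsq 1 (sgi q) > 1/25 - δ'` near `p`).  All values are off `wallS δ'`, so `io` maps `U2 \ A2` into `D'.U`.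
Near `D'.A`: `x = G p`, `p = (s, z0 s)`, `s ∈ [s₀', s₁']`, `x ∈ U2`: near `p` case (b) holds (`nsq (z0 s - P2 β) ≥ β² > κ²`), `H.g (1, q)` is near `H.g (1, p) = (s, e1)`, where `rad2` is the identity (`rsq 1 (sgi (s, e1)) = β²/κ² > 1`); so `hio q = q` near `p`, and `io` is the identity near `x` (`G` is open near `p`). -/
def StIO1 : Prop :=
  ∀ (G T T' : R4 → R4) (δ δ' κ β c : ℝ) (D D' : ArcD) (H : DFam 𝓘(ℝ, R4) R4) (a b : ℝ),
    Sys G T T' δ δ' κ β c D D' H a b →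
    EmbOn I4 (io G H δ' κ β) (U2 G δ' κ β \ A2 G H β a b) ∧
    MapsTo (io G H δ' κ β) (U2 G δ' κ β \ A2 G H β a b) D'.U ∧
    ∀ x ∈ D'.A, x ∈ U2 G δ' κ β → ∀ᶠ y in 𝓝 x, io G H δ' κ β y = y

/-- MODULE IO2 (uses `StIO1`, `StHE`).
Proof.  On `K`: `EE x = hatE G δ' (H.g (1, ·)) (io x)`.  `x ∉ G '' Reg δ'`: all are `x`.  `x = G p`, `p ∈ Reg δ'`.  `p ∈ hol`: `EE x = x` (`x ∉ G '' (Reg \ hol)`), `io x = G (H.f (1, p))`, `hatE` of it is `G (rade δ' 1 p) = G p` (`rsq 1 p > 1/25 - δ'`).  `p ∉ hol`: `p ∉ wall2`, so `io x = G (H.f (1, rad2 (H.g (1, p))))`, in `G '' Reg δ'`,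
and `hatE` of it is `G (rade δ' 1 (rad2 (H.g (1, p)))) = EE x`.  `K' = io '' K` is compact, contained in `D'.U \ D'.A`: if `io x ∈ D'.A`, then `y = io x ∈ D'.U`, `y ∈ U2`?: `y ∈ D'.A ∩ D'.U` is `G (s, z0 s)` with `s ∈ (s₀', s₁')`, not in `G '' wall2`, so `y ∈ U2`, `y ∉ A2`, `io y = y` and `x = y` by injectivity: impossible.
`Θ₁ = imp io K Θ` satisfies `SDiff K' Θ₁ (imp io K Θ')` (as in the proof of `StPF`).  `StImp` (6), (8): `imp EE K Θ = imp (hatE ∘ io) K Θ = imp hatE K' Θ₁`, and `StHE` for `δ'`, `D'`. -/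
def StIO2 : Prop :=
  ∀ (G T T' : R4 → R4) (δ δ' κ β c : ℝ) (D D' : ArcD) (H : DFam 𝓘(ℝ, R4) R4) (a b : ℝ),
    Sys G T T' δ δ' κ β c D D' H a b → ∀ (K : Set R4) (Θ Θ' : R4 → R4), IsCompact K →
    K ⊆ U2 G δ' κ β \ (D'.A ∪ A2 G H β a b) → SDiff K Θ Θ' →
    io G H δ' κ β '' K ⊆ D'.U \ D'.A ∧
    CIsot I4 (imp (EE G H δ' κ β) K Θ)
      (imp D'.e (io G H δ' κ β '' K) (imp (io G H δ' κ β) K Θ))

/-- MODULE IO3.  `io` is homotopic to the inclusion in the complement of the wall `wallS δ'`.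
Proof.  `k (t, x) = imp G (Reg δ') (hh t) x` for a homotopy `hh t : R4 → R4`, `t ∈ [0,1]`: (a) for `rsq 1 (sgi p) < 1/25 - 2 δ'`, `p = (s, e1 + y)`: for `t ≤ 1/2`: `(s, e1 + y - (2 t * bfin s) • e1)`, for `t ≥ 1/2`: `(s, z0 s + (1 - (2 t - 1) * (1 - lam c s)) • y)`, at the end `H.f (1, p)`.
(b) otherwise `hh t p = H.f (1, (1 - t) • q + t • rad2 q)`, `q = H.g (1, p)`.
Values: for `p ∈ hol`: `y = (0, β) + w` with `|w| ≤ κ`; for `t ≤ 1/2`: `e1`-component `w₁ - 2 t bfin s`, the other component has length `≥ β - κ`, so `rsq 1 ≥ (β - κ)² > 1/25 - δ'`; for `t ≥ 1/2`: if `lam c s = 1` the same; if `lam c s ≠ 1` then `bfin s = 27/100` and the `e1`-component has absolute value `≥ 27/100 - κ > 1/5`.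
Also `rsq 1 ≤ 49/100` (`27/100 + 1/5 < 7/10`).  For (b): if `rsq 1 (sgi q) ≥ 1/25 - δ'` the value is `p`; otherwise the segment stays in `{rsq 1 (sgi ..) ≤ 1/25}` (convex), and `rsq 1 (H.f (1, ·)) > 1/25 - δ'` there, `≤ 49/100` (`Geo5.lean`).  So `hh t` maps `Reg δ' \ (wallS δ' ∪ wall2)` to `Reg δ' \ wallS δ'` and `k` maps `[0,1] × (U2 \ A2)`
to `D'.U`.  Continuity of `k`: near `(t₀, G p₀)`, `p₀ ∈ Reg δ'` not in the walls or the arc: `k (t, G p) = G (hh t p)` for `p` near `p₀` (also for `p ∉ Reg δ'`: then `hh t p = p`, since `bfin s = 0`, `lam c s = 1` for `s ≤ 1/10`, `9/10 ≤ s`, and `H.f (1, p) = p`, `rad2 p = p`; compare `StGH`), and `G⁻¹` is continuous; off `G '' Reg δ'` `k` is `x`.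
`k (0, x) = x`, `k (1, x) = io x`.  For `x ∈ D'.A`: `q = H.g (1, p) = (s, e1)` is fixed by `rad2`, so `k (t, x) = x`. -/
def StIO3 : Prop :=
  ∀ (G T T' : R4 → R4) (δ δ' κ β c : ℝ) (D D' : ArcD) (H : DFam 𝓘(ℝ, R4) R4) (a b : ℝ),
    Sys G T T' δ δ' κ β c D D' H a b → ∃ k : ℝ × R4 → R4,
    ContinuousOn k (Icc (0 : ℝ) 1 ×ˢ (U2 G δ' κ β \ A2 G H β a b)) ∧
    (∀ x ∈ U2 G δ' κ β \ A2 G H β a b, k (0, x) = x ∧ k (1, x) = io G H δ' κ β x) ∧
    ∀ t ∈ Icc (0 : ℝ) 1, ∀ x ∈ U2 G δ' κ β \ A2 G H β a b, k (t, x) ∈ D'.U ∧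
      (x ∈ D'.A → k (t, x) = x)

/-! ## the datum of the second wall -/

/-- `M` is the map `S⁻¹ ∘ H.f (1, ·)`, conjugated by the radial map -/
structure MOk (δ : ℝ) (H : DFam 𝓘(ℝ, R4) R4) (S' M M' : R4 → R4) : Prop where
  smooth : ContDiff ℝ ∞ M
  smooth' : ContDiff ℝ ∞ M'
  left : ∀ x, M' (M x) = x
  right : ∀ x, M (M' x) = x
  eq : ∀ p, 0 < rsq 1 p → M (rade δ 1 p) = rade δ 1 (S' (H.f (1, p)))
  low : ∃ ρ > 0, ∀ p, rsq 1 p ≤ 1 / 25 - 3 * δ + ρ → M p = p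
  out : ∀ p : R4, (p.1 ≤ 1 / 20 ∨ 19 / 20 ≤ p.1 ∨ 49 / 100 ≤ rsq 1 p) → M p = p

/-- MODULE MH.
Proof.  `N p = S' (H.f (1, p))` is a diffeomorphism with inverse `H.g (1, S p)`, the identity for `rsq 1 p ≤ (1/200)²` (`THat.ball`, `SHat.near`, `SHat.left`), for `p.1 ≤ 1/20`, `19/20 ≤ p.1`, `49/100 ≤ rsq 1 p` (`SHat.thin` for points with `rsq 1 ≥ 49/100`: their distance from the segment is `≥ 7/10 - 27/100`; hence also `S'`).
`K = {(1/400)² ≤ rsq 1 p ≤ 49/100, 0 ≤ p.1 ≤ 1}` compact, `N` maps `K` onto `K` (`N` is the identity off an open subset of `K`..).  `M = imp (rade δ 1) K N`, `M' = imp (rade δ 1) K N⁻¹`: `rade δ 1` is an embedding of `{0 < rsq 1}` (`rade_emb`), so they are smooth and inverse to each other (as in `StPF`, or `StPush`).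
`eq`: for `p ∈ K` clear; for `p ∉ K`, `rsq 1 p > 0`: `N p = p` and `rade δ 1 p ∉ rade δ 1 '' K`.  `low`: `ρ = qe δ ((1/400)²) - (1/25 - 3 δ) > 0`? (`qe δ` is strictly increasing and `qe δ 0 ≥ 1/25 - 3 δ`, `RE.qe_low`); if `rsq 1 p < qe δ ((1/400)²)` then `p ∉ rade δ 1 '' K` (take half of this `ρ`).  `out`: level preserving; `rsq 1 p ≥ 49/100`:
`rade δ 1 p = p`, `N p = p`. -/
def StMH : Prop :=
  ∀ (T S S' : R4 → R4) (δ c : ℝ) (H : DFam 𝓘(ℝ, R4) R4), δ ∈ Ioo (0 : ℝ) (1 / 100) →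
    c ∈ Ioo (0 : ℝ) 1 → THat T c H → SHat c S S' → ∃ M M' : R4 → R4, MOk δ H S' M M'

/-- the map which retracts the first finger (thin) -/
noncomputable def jo (G S' : R4 → R4) (δ κ β : ℝ) : R4 → R4 :=
  imp G (Reg δ \ hol δ κ β) (fun p => rade δ 1 (S' p))

/-- the arc datum of the second wall -/
structure D2Ok (G M M' : R4 → R4) (δ κ β a b : ℝ) (D : ArcD) : Prop where
  U : D.U = (G '' wall2 δ κ β)ᶜ
  J : D.J = fun p => G (M (p.1, P2 β + p.2))
  e : D.e = imp G (Reg δ \ hol δ κ β) (fun p => rad2 δ κ β (M' p))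
  m₀ : D.m₀ = 9 / 20
  m₁ : D.m₁ = 11 / 20
  s₀ : D.s₀ = a
  s₁ : D.s₁ = b

/-- MODULE D2 (uses `StGH`).  The arc datum exists.  Compare `m_HARC` (`Pool/Agent/Helper27/BI/H/Harc.lean`; `exists_smooth_ext`, `embOn_shr`).
Facts.  `M (s, P2 β) = rade δ' 1 (S' (s, z2 c β s))` (`MOk.eq` for `p = (s, P2 β)`: `rade δ' 1 p = p` as `rsq 1 p = β² > 1/25 - δ'`).  (i) For `s ∉ [7/20, 13/20]`: `lam c s = 1`, `z2 = e1 + (0, β) - (bfin s) • e1` is at a distance `≥ β > 1/50` from the line `ℝ e1` (so `S'` fixes it, `SHat.thin`) and `rsq 1 ≥ β²`, so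
`M (s, P2 β) = (s, z2 c β s)` and `rsq 1 (sgi ..) = κ⁻² bfin s ^ 2`.  (ii) For `s ∈ [3/10, 7/10]`: `M (s, P2 β)` is not in `hol ∪ wall2` : if `rsq 1 (sgi (M (s, P2 β))) ≤ 1/25 - δ'`, then `rsq 1 (M ..) > 1/25 - δ'`, so `rade δ' 1` did not move the point, `S' (s, z2)` is this point, which is fixed by `S` (distance from `ℝ e1` is
`≥ β - κ > 1/50`), so `(s, z2)` is this point, but `nsq (z2 c β s - P2 β) ≥ (27/100)² > κ²`.
`core`: `D.c` a smooth extension of `s ↦ G (M (s, P2 β))` from `[a, b]`.  `emb`: `G` is an embedding of `K3 δ' ⊇ Reg δ'`, `M` a diffeomorphism, and `M (s, P2 β) ∈ Reg δ'` for `s ∈ [a, b]` (`M` preserves `{rsq 1 ≤ 49/100, 0 ≤ s ≤ 1}`; `rsq 1 ≥ 1/25 - 3 δ'` by `rade_low`).  `mem`: (i), `Arc2.ins`, (ii), injectivity of `G` on `K3 δ'`.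
`off`: (i) with `Arc2.ea`, `eb`: `rsq 1 (sgi ..) = 1/25 - δ'`.  `embe`: `StGH` with the region `Reg δ' \ hol`, `B = wall2 ∪ {M (s, P2 β) | s ∈ [a, b]}`, `h = rad2 ∘ M'`.  For `p` in the region, not in `B`: `rsq 1 (sgi p) > 1/25 - δ'`; `M' p` is not on the line over `P2 β`: otherwise `p = M (s, P2 β)`, `s ∉ [a, b]`, `Arc2.out` and (i)
(`bfin s ≤ κ/5 < 27/100`, so `s ∉ [3/10, 7/10]`) give `rsq 1 (sgi p) ≤ 1/25 - δ'`.  `M'` preserves `Reg δ'` (`M` is the identity near `{rsq 1 = 1/25 - 3δ'}` and below, and off `{rsq 1 < 49/100, 1/20 < s < 19/20}`), `rad2` maps into `{rsq 1 (sgi ..) ≥ 1/25 - 3 δ'}`, moves only inside `{rsq 1 (sgi ..) ≤ 1/25 - δ'} ⊆ {1/25 - δ' < rsq 1 ≤ 49/100}`.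
Frontier: points `q` near `p` not in the region: level `< 0` or `> 1`, or `rsq 1 q > 49/100`, or `rsq 1 q < 1/25 - 3 δ'`: `M' q = q`, `rad2 q = q` (`rsq 1 (sgi q) > 1/25 - δ'` near `p`). -/
def StD2 : Prop :=
  ∀ (G T T' S S' M M' : R4 → R4) (δ δ' κ β c : ℝ) (D D' : ArcD) (H : DFam 𝓘(ℝ, R4) R4) (a b : ℝ),
    Sys G T T' δ δ' κ β c D D' H a b → SHat c S S' → MOk δ' H S' M M' →
    ∃ D₂ : ArcD, D2Ok G M M' δ' κ β a b D₂

/-- MODULE JO (uses `StGH`).
Proof.  (1) `StGH` with the region `Reg δ' \ hol δ' κ β`, `B = wallS δ' ∪ wall2 δ' κ β ∪ {(s, z0 s) | s ∈ [s₀', s₁']}`, `h p = rade δ' 1 (S' p)`.  `S (s, e1) = (s, z0 s)`, so `S' p` is not on the line over `e1` for `p` in the region off `B` (as in `StHE`).  `S` and `S'` are the identity at the points `p` with `rsq 1 (sgi p) ≤ 1/25` (distance from `ℝ e1` at least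
`β - κ > 1/50`), hence preserve this set and its complement.  `h p ∈ hol ∪ wall2` implies `p ∈ hol ∪ wall2` (if `h p` is there then `rsq 1 (h p) > 1/25 - δ'`, so `h p = S' p`, and `S (S' p) = S' p`).  `S` preserves `{0 ≤ s ≤ 1, rsq 1 ≤ 49/100}` (it is the identity off it and on its boundary: distance from the segment).
So `MapsTo` and `jo` maps `U2 \ D'.A` into `D₂.U`.  (2) For `s ∈ (a, b)` and `p = (s', P2 β + y)` near `(s, P2 β)`: `H.f (1, p)` is near `(s, z2 c β s)`, in the region, not in `B`; `jo (G (H.f (1, p))) = G (rade δ' 1 (S' (H.f (1, p)))) = G (M (rade δ' 1 p)) = G (M p)` (`rsq 1 p > 1/25 - δ'` near `(s, P2 β)`).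
(3) On `K`: `EE x = D₂.e (jo x)`: for `x = G p`, `p` in the region: `jo x = G (rade δ' 1 (S' p))`, `q = H.g (1, p)`, `S' p = S' (H.f (1, q))`, `rsq 1 q > 0`, so `jo x = G (M (rade δ' 1 q))`, `M (rade δ' 1 q)` is in the region, `D₂.e (jo x) = G (rad2 (rade δ' 1 q)) = G (rade δ' 1 (rad2 q)) = EE x` (the supports of the two radial maps are
disjoint, `Geo5.lean`).  For other `x` all are `x`.  `jo '' K ⊆ D₂.U \ D₂.A`: if `jo x = D₂.J (s, 0)`: `s ∈ (a, b)` (`off₀`, `off₁`), `D₂.J (s, 0) = jo (G (H.f (1, (s, P2 β))))`, by injectivity `x ∈ A2`: impossible.  `StImp` (6), (8); `CIsot` is reflexive for these maps (`SDiff`; e.g. `StPush` for a constant family). -/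
def StJO : Prop :=
  ∀ (G T T' S S' M M' : R4 → R4) (δ δ' κ β c : ℝ) (D D' D₂ : ArcD) (H : DFam 𝓘(ℝ, R4) R4)
    (a b : ℝ), Sys G T T' δ δ' κ β c D D' H a b → SHat c S S' → MOk δ' H S' M M' →
    D2Ok G M M' δ' κ β a b D₂ →
    EmbOn I4 (jo G S' δ' κ β) (U2 G δ' κ β \ D'.A) ∧
    MapsTo (jo G S' δ' κ β) (U2 G δ' κ β \ D'.A) D₂.U ∧
    (∀ s ∈ Ioo a b, ∀ᶠ p in 𝓝 ((s, 0) : R4),
      D₂.J p = jo G S' δ' κ β (G (H.f (1, (p.1, P2 β + p.2))))) ∧
    ∀ (K : Set R4) (Θ Θ' : R4 → R4), IsCompact K →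
      K ⊆ U2 G δ' κ β \ (D'.A ∪ A2 G H β a b) → SDiff K Θ Θ' →
      jo G S' δ' κ β '' K ⊆ D₂.U \ D₂.A ∧
      CIsot I4 (imp (EE G H δ' κ β) K Θ)
        (imp D₂.e (jo G S' δ' κ β '' K) (imp (jo G S' δ' κ β) K Θ))

/-! ## the crossing lemma for loops of arcs -/

/-- XF (helper27).  The push of a loop of arcs which moves off `G '' XX`. -/
def StXF : Prop :=
  ∀ (G T' : R4 → R4) (δ δ' κ β : ℝ) (D : ArcD) (c : ℝ → ℝ → R4) (χ : R4 → R4), Par δ δ' κ β →
    EmbOn I4 G (K3 δ') → HatOk δ T' G D → LoopOK D c →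
    (∀ q ∈ Icc (0 : ℝ) 1, ∀ s ∈ Icc (9 / 20 : ℝ) (11 / 20), c q s ∉ G '' XX δ' κ β) →
    (∀ q ∈ Icc (0 : ℝ) 1, InjOn (c q) (Icc D.s₀ D.s₁) ∧ ∀ s ∈ Icc D.s₀ D.s₁, deriv (c q) s ≠ 0) →
    D.Cls c χ → ∃ F : DFam 𝓘(ℝ, R4) R4, (∀ x, F.f (0, x) = x) ∧ SuppU (G '' XX δ' κ β)ᶜ F ∧
      (∀ t ∈ Icc (0 : ℝ) 1, ∀ s ∈ Icc D.s₀ D.s₁, F.f (t, G (s, z0 s)) = c (step t) s) ∧
      (∃ N : Set R4, IsOpen N ∧ seg (11 / 25) (14 / 25) ⊆ N ∧
        ∀ p ∈ N, F.f (1, G (p.1, z0 p.1 + p.2)) = G (p.1, z0 p.1 + p.2)) ∧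
      ∀ K : Set R4, IsCompact K → K ⊆ D.U \ D.A → (∀ x, x ∉ K → F.f (1, x) = x) →
        CIsot I4 χ (imp D.e K (fun x => F.f (1, x)))

/-- XL (helper27).  The class of a loop of arcs which moves off `G '' XX` with respect to the two arc data. -/
def StXL : Prop :=
  ∀ (G T T' : R4 → R4) (δ δ' κ β : ℝ) (D D' : ArcD) (c : ℝ → ℝ → R4) (W χ χ' : R4 → R4),
    IsW W → Par δ δ' κ β → FingB T T' → EmbOn I4 G (K3 δ') → HatOk δ T' G D →
    HatOk δ' T' G D' → LoopOK D c →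
    (∀ q ∈ Icc (0 : ℝ) 1, ∀ s ∈ Icc (9 / 20 : ℝ) (11 / 20), c q s ∉ G '' XX δ' κ β) →
    (∀ q ∈ Icc (0 : ℝ) 1, InjOn (c q) (Icc D.s₀ D.s₁) ∧ ∀ s ∈ Icc D.s₀ D.s₁, deriv (c q) s ≠ 0) →
    (∀ n : ℕ, ∀ q ∈ Icc (0 : ℝ) 1, ∀ s ∈ Icc (9 / 20 : ℝ) (11 / 20),
      ∀ s' ∈ Icc (11 / 25 : ℝ) (14 / 25),
      c q s ≠ G (s', ((73 / 100 : ℝ), ((β / (n + 2) : ℝ) : ℂ)))) →
    D.Cls c χ → D'.Cls (fun q s => c q s + (D'.c s - D.c s)) χ' →
    CIsot I4 χ' χ ∨ CIsot I4 χ' (fun x => W (χ x))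

end Pool.Agent.Helper27.S5


end

/-! ## Helper37.BI5.M_ARC2 -/

section

/-!
# Project BI, stage 5, module ARC2: the levels of the second arc
-/

set_option autoImplicit false

open scoped Manifold ContDiff Topology ComplexConjugate
open Set Filter Pool.Agent.Helper65.Barb Pool.Agent.Helper18.BI
open Pool.Agent.Helper27.H

namespace Pool.Agent.Helper27.S5

/-- existence of the levels -/
theorem m_ARC2 : StARC2 := by
  intro δ κ hδ hκ
  obtain ⟨w, hw⟩ : ∃ w, w = κ ^ 2 * (1 / 25 - δ) := ⟨_, rfl⟩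
  have hκ2 : 0 < κ ^ 2 := pow_pos hκ.1 2
  have hκ3 : κ ^ 2 < 1 := pow_lt_one₀ hκ.1.le hκ.2 (by norm_num)
  have hw0 : 0 < w := by
    rw [hw]
    exact mul_pos hκ2 (by linarith [hδ.2])
  have hw1 : w < (27 / 100) ^ 2 := by
    have h1 : w ≤ 1 * (1 / 25) := by
      rw [hw]
      exact mul_le_mul hκ3.le (by linarith [hδ.1]) (by linarith [hδ.2]) (by norm_num)
    norm_num at h1 ⊢
    linarith
  have hc : IsCompact {s : ℝ | s ∈ Icc (1 / 10 : ℝ) (3 / 10) ∧ bfin s ^ 2 ≤ w} :=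
    isCompact_Icc.inter_right (isClosed_le (contDiff_bfin.continuous.pow 2) continuous_const)
  have hne : {s : ℝ | s ∈ Icc (1 / 10 : ℝ) (3 / 10) ∧ bfin s ^ 2 ≤ w}.Nonempty := by
    refine ⟨1 / 10, ⟨le_rfl, by norm_num⟩, ?_⟩
    rw [bfin_out (Or.inl le_rfl)]
    linarith
  obtain ⟨s₀, ⟨hs₀, hb₀⟩, hmax⟩ := hc.exists_isGreatest hne
  have hmid : ∀ s ∈ Icc (3 / 10 : ℝ) (7 / 10), w < bfin s ^ 2 := by
    intro s hs
    rw [bfin_mid hs]
    exact hw1
  have hgt : ∀ s, s₀ < s → s ≤ 7 / 10 → w < bfin s ^ 2 := by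
    intro s h1 h2
    rcases le_or_gt s (3 / 10) with h3 | h3
    · by_contra h4
      push Not at h4
      exact absurd (hmax ⟨⟨hs₀.1.trans h1.le, h3⟩, h4⟩) (not_le.2 h1)
    · exact hmid s ⟨h3.le, h2⟩
  have hs3 : s₀ ≠ 3 / 10 := by
    rintro rfl
    exact absurd hb₀ (not_le.2 (hmid _ ⟨le_rfl, by norm_num⟩))
  have hs3' : s₀ < 3 / 10 := lt_of_le_of_ne hs₀.2 hs3
  have heq : bfin s₀ ^ 2 = w := by
    apply le_antisymm hb₀
    have h1 : Tendsto (fun s => bfin s ^ 2) (𝓝[>] s₀) (𝓝 (bfin s₀ ^ 2)) :=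
      ((contDiff_bfin.continuous.pow 2).tendsto s₀).mono_left nhdsWithin_le_nhds
    apply ge_of_tendsto h1
    filter_upwards [Ioo_mem_nhdsGT hs3'] with s hs
    exact (hgt s hs.1 (by linarith [hs.2])).le
  have hs1 : 1 / 10 < s₀ := by
    rcases hs₀.1.lt_or_eq with h | h
    · exact h
    · rw [← h, bfin_out (Or.inl le_rfl)] at heq
      linarith
  have hlow : ∀ s ≤ s₀, bfin s ^ 2 ≤ w := by
    intro s hs
    rw [← heq]
    have := bfin_mono hs (by linarith)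
    have h0 := bfin_nonneg s
    nlinarith
  refine ⟨s₀, 1 - s₀, ⟨⟨hs1, hs3'⟩, ⟨by linarith, by linarith⟩, by rw [heq, hw],
    by rw [bfin_symm, heq, hw], ?_, ?_⟩⟩
  · rintro s ⟨h1, h2⟩
    rw [← hw]
    rcases le_or_gt s (7 / 10) with h3 | h3
    · exact hgt s h1 h3
    · rw [← bfin_symm]
      exact hgt _ (by linarith) (by linarith)
  · intro s hs
    rw [← hw]
    rcases le_or_gt s s₀ with h | h
    · exact hlow s h
    · have h2 : 1 - s₀ ≤ s := by
        by_contra h3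
        push Not at h3
        exact hs ⟨h, h3⟩
      rw [← bfin_symm]
      exact hlow _ (by linarith)

end Pool.Agent.Helper27.S5


end

/-! ## Helper48.BI5.M_N2 -/

section

/-! # Project BI, stage 5: module N2 (the complement of an unknotted sphere, squares) -/

set_option autoImplicit false

open scoped Manifold ContDiff Topology ComplexConjugate
open Set Filter Pool.Agent.Helper65.Barb Pool.Agent.Helper18.BI
open Pool.Agent.Helper70.BI (I4 LD NearEq IsW)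
open Pool.Agent.Helper27.H
open Pool.Agent.Helper18.BI.R (LoopOK SH S2 bp)

namespace Pool.Agent.Helper27.S5

theorem N2.round_mem_wall {δ : ℝ} (hδ : δ ∈ Ioo (0 : ℝ) (1 / 100)) {p : R4}
    (h : p.1 = 1 / 2 ∧ rsq 1 p = 1 / 25 - 2 * δ) : p ∈ wallS δ := by
  obtain ⟨h1, h2⟩ := h
  have h0 := hδ.1
  refine ⟨?_, ?_, ?_, ?_⟩
  · rw [h1]; norm_num
  · rw [h1]; norm_num
  · rw [h2]; linarith
  · rw [h2]; linarith

theorem m_N2 (ha : StN2a) (hb : StN2b) (hc : StN2c) : StN2 := by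
  intro δ G D c hδ hG hU hL
  obtain ⟨Ψ, hΨ⟩ := hc δ G hδ hG
  have hδ1 := hδ.2
  -- the square
  have hcc : Continuous (fun z : ℝ × ℝ => c z.1 z.2) := hL.smooth.continuous
  have hf : Continuous (fun z : ℝ × ℝ => Ψ (c z.1 z.2)) := Ψ.continuous.comp hcc
  have hwall : ∀ x : R4, Ψ x ∈ wallS δ → x ∉ D.U := by
    intro x hx hxU
    rw [← hΨ] at hx
    obtain ⟨y, hy, hyx⟩ := hx
    rw [Ψ.injective hyx] at hy
    rw [hU] at hxU
    exact hxU hy
  have hoff : ∀ z ∈ Icc (0 : ℝ) 1 ×ˢ Icc D.m₀ D.m₁, Ψ (c z.1 z.2) ∉ wallS δ := by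
    intro z hz hw
    exact hwall _ hw (hL.inU z.1 hz.1 z.2 hz.2)
  have hbd : ∀ q ∈ Icc (0 : ℝ) 1, ∀ s ∈ Icc D.m₀ D.m₁,
      (q = 0 ∨ q = 1 ∨ s = D.m₀ ∨ s = D.m₁) → c q s = D.c s := by
    intro q hq s hs h
    rcases h with h | h | h | h
    · rw [h, hL.start]
    · rw [h, hL.stop]
    · exact hL.froz q hq s (Or.inl h.le)
    · exact hL.froz q hq s (Or.inr h.ge)
  obtain ⟨ϖ, hϖc, hϖw, hϖK⟩ := hb δ hδ ((fun z : ℝ × ℝ => Ψ (c z.1 z.2)) ''
    (Icc (0 : ℝ) 1 ×ˢ Icc D.m₀ D.m₁)) ((isCompact_Icc.prod isCompact_Icc).image hf) (by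
      rw [Set.disjoint_left]
      rintro x ⟨z, hz, rfl⟩
      exact hoff z hz)
  have hρ0 : 0 < 1 / 25 - 2 * δ := by linarith
  have hρ2 : Real.sqrt (1 / 25 - 2 * δ) ^ 2 = 1 / 25 - 2 * δ := Real.sq_sqrt hρ0.le
  obtain ⟨H, hHc, hH01, hHu⟩ := ha (Real.sqrt (1 / 25 - 2 * δ)) D.m₀ D.m₁
    (fun z : ℝ × ℝ => Ψ (c z.1 z.2)) (fun s => Ψ (D.c s)) (Real.sqrt_pos.mpr hρ0) D.h₁
    hf.continuousOn (by
      intro z hz h
      rw [hρ2] at h
      exact hoff z hz (N2.round_mem_wall hδ h)) (by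
      intro q hq s hs h
      change Ψ (c q s) = Ψ (D.c s)
      rw [hbd q hq s hs h])
  have hK : ∀ q ∈ Icc (0 : ℝ) 1, ∀ s ∈ Icc D.m₀ D.m₁, ϖ (Ψ (c q s)) = Ψ (c q s) := by
    intro q hq s hs
    exact hϖK _ ⟨(q, s), ⟨hq, hs⟩, rfl⟩
  have hK0 : ∀ s ∈ Icc D.m₀ D.m₁, ϖ (Ψ (D.c s)) = Ψ (D.c s) := by
    intro s hs
    have h := hK 0 ⟨le_refl _, zero_le_one⟩ s hs
    rwa [hL.start] at h
  refine ⟨fun z => Ψ.symm (ϖ (H z)), ?_, ?_, ?_⟩
  · apply Ψ.symm.continuous.comp_continuousOn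
    apply hϖc.comp hHc
    intro z hz
    have h := (hHu z.1 hz.1 z.2.1 hz.2.1 z.2.2 hz.2.2).1
    rw [hρ2] at h
    exact h
  · intro q hq s hs
    obtain ⟨h0, h1⟩ := hH01 q hq s hs
    constructor
    · change Ψ.symm (ϖ (H (0, q, s))) = c q s
      rw [h0]
      change Ψ.symm (ϖ (Ψ (c q s))) = c q s
      rw [hK q hq s hs, Ψ.symm_apply_apply]
    · change Ψ.symm (ϖ (H (1, q, s))) = D.c s
      rw [h1]
      change Ψ.symm (ϖ (Ψ (D.c s))) = D.c s
      rw [hK0 s hs, Ψ.symm_apply_apply]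
  · intro u hu q hq s hs
    obtain ⟨h1, h2⟩ := hHu u hu q hq s hs
    rw [hρ2] at h1
    constructor
    · change Ψ.symm (ϖ (H (u, q, s))) ∈ D.U
      rw [hU]
      intro hmem
      apply hϖw _ h1
      rw [← hΨ]
      exact ⟨_, hmem, Ψ.apply_symm_apply _⟩
    · intro h
      change Ψ.symm (ϖ (H (u, q, s))) = D.c s
      rw [h2 h]
      change Ψ.symm (ϖ (Ψ (D.c s))) = D.c s
      rw [hK0 s hs, Ψ.symm_apply_apply]

end Pool.Agent.Helper27.S5


end

/-! ## Helper73.BI5.M_PF -/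

section

/-! # BI5 module PF: pushing a family forward by an embedding -/

set_option autoImplicit false

open scoped Manifold ContDiff Topology ComplexConjugate
open Set Filter Pool.Agent.Helper65.Barb Pool.Agent.Helper18.BI
open Pool.Agent.Helper70.BI (I4 LD NearEq IsW)

namespace Pool.Agent.Helper27.S5

theorem m_PF : StPF := by
  intro ι K A hι hK hA
  obtain ⟨δ, hδs, hδ⟩ := hA1 R4 R4 R4 I4 R4 ι K hK hι.1 hι.2
  have hI := m_Imp R4 R4 I4 R4 ι K
  have hpush : ∀ t : ℝ, imp ι K (fun p => A.f (t, p)) = push δ (fun p => A.f (t, p)) := by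
    intro t
    exact (hI (fun p => A.f (t, p)) hι.2).2.2.2.2.1 δ hδs
      (fun p hp => hδ p (hδs hp)) (fun p hp => A.mapsTo hA t hp) (fun p hp => hA t p hp)
  have h0 : ∀ t y, (A.push δ hK hδs hA).f (t, y) = imp ι K (fun x => A.f (t, x)) y := by
    intro t y
    rw [hpush]
    rfl
  refine ⟨A.push δ hK hδs hA, h0, ?_, ?_⟩
  · intro t x hx
    rw [h0]
    exact (hI (fun p => A.f (t, p)) hι.2).1 x hx
  · intro t y hy
    rw [h0]
    exact (hI (fun p => A.f (t, p)) hι.2).2.1 y hy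

end Pool.Agent.Helper27.S5


end

/-! ## Helper71.BI5.M_GHF -/

section

/-!
# Project BI, stage 5, module GHF (the family version of `StGH`)
-/

set_option autoImplicit false

open scoped Manifold ContDiff Topology ComplexConjugate
open Set Filter Pool.Agent.Helper65.Barb Pool.Agent.Helper18.BI
open Pool.Agent.Helper70.BI (I4 LD NearEq ld_iff)
open Pool.Agent.Helper27.BI (imp_image imp_off)

namespace Pool.Agent.Helper27.S5

namespace GHF

/-- near the image of `D` the transported family is `G ∘ h ∘ G⁻¹` -/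
theorem near {G : R4 → R4} {h : ℝ × R4 → R4} {D : Set R4}
    (hGI : InjOn G D) (Φ : PartialDiffeomorph 𝓘(ℝ, R4) I4 R4 R4 ∞) (hΦ1 : D ⊆ Φ.source)
    (hΦ2 : ∀ p ∈ Φ.source, Φ p = G p) {t : ℝ} {y : R4} (hy : y ∈ Φ.target)
    (hf : Φ.symm y ∉ D → h (t, Φ.symm y) = Φ.symm y) :
    imp G D (fun p => h (t, p)) y = G (h (t, Φ.symm y)) := by
  have hs : Φ.symm y ∈ Φ.source := Φ.map_target hy
  have h4 : G (Φ.symm y) = y := by
    rw [← hΦ2 _ hs]
    exact Φ.right_inv hy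
  by_cases hD : Φ.symm y ∈ D
  · have h5 : imp G D (fun p => h (t, p)) (G (Φ.symm y)) = G (h (t, Φ.symm y)) :=
      imp_image hGI hD
    rw [h4] at h5
    exact h5
  · rw [hf hD, h4]
    apply imp_off
    rintro ⟨r, hr, hrz⟩
    have hr1 : r ∈ Φ.source := hΦ1 hr
    have h6 : Φ r = y := by rw [hΦ2 r hr1, hrz]
    have h7 : Φ.symm y = r := by rw [← h6]; exact Φ.left_inv hr1
    rw [h7] at hD
    exact hD hr

end GHF

open GHF in
theorem m_GHF (hGH : StGH) : StGHF := by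
  intro G h D B hD hB hG hsm ht hfix K Θ Θ' hK hKs hΘ
  obtain ⟨Φ, hΦ1, hΦ2⟩ := hA1 R4 R4 R4 I4 R4 G D hD hG.1 hG.2
  have hGc : ContinuousOn G D := fun p hp =>
    ((hG.1 p hp).contMDiffAt.continuousAt).continuousWithinAt
  have hGDc : IsClosed (G '' D) := (hD.image_of_continuousOn hGc).isClosed
  -- joint smoothness
  have key : ∀ z ∈ Icc (0 : ℝ) 1 ×ˢ K,
      ∀ᶠ w : ℝ × R4 in 𝓝 z, ContDiffAt ℝ ∞ (fun w : ℝ × R4 => imp G D (fun p => h (w.1, p)) w.2) w := by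
    rintro ⟨t, y⟩ ⟨htI, hyK⟩
    by_cases hyD : y ∈ G '' D
    · obtain ⟨p, hp, hpy⟩ := hyD
      have hpB : p ∉ B := fun hb => hKs hyK ⟨p, ⟨hp, hb⟩, hpy⟩
      have hps : p ∈ Φ.source := hΦ1 hp
      have hΦp : Φ p = y := by rw [hΦ2 p hps, hpy]
      have hyt : y ∈ Φ.target := hΦp ▸ Φ.map_source hps
      have hsy : Φ.symm y = p := by
        rw [← hΦp]
        exact Φ.left_inv hps
      have hsymm : ∀ z ∈ Φ.target, ContDiffAt ℝ ∞ Φ.symm z := fun z hz =>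
        (Φ.contMDiffOn_invFun.contMDiffAt (Φ.open_target.mem_nhds hz)).contDiffAt
      -- the map `(s, z) ↦ (s, G⁻¹ z)`
      have c1 : ContinuousAt (fun w : ℝ × R4 => ((w.1, Φ.symm w.2) : ℝ × R4)) (t, y) := by
        apply ContinuousAt.prodMk continuousAt_fst
        exact ContinuousAt.comp (f := fun w : ℝ × R4 => w.2) (x := (t, y))
          (hsymm y hyt).continuousAt continuousAt_snd
      have e0 : ((t, Φ.symm y) : ℝ × R4) = (t, p) := by rw [hsy]
      have c2 : ∀ᶠ w : ℝ × R4 in 𝓝 (t, y), w.2 ∈ Φ.target :=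
        continuousAt_snd.eventually (Φ.open_target.mem_nhds hyt)
      have c3 : ∀ᶠ w : ℝ × R4 in 𝓝 (t, y), ContDiffAt ℝ ∞ h (w.1, Φ.symm w.2) := by
        apply c1.eventually
        show ∀ᶠ z in 𝓝 ((t, Φ.symm y) : ℝ × R4), ContDiffAt ℝ ∞ h z
        rw [e0]
        exact hsm t htI p ⟨hp, hpB⟩
      have c4 : ∀ᶠ w : ℝ × R4 in 𝓝 (t, y), Φ.symm w.2 ∉ D → h (w.1, Φ.symm w.2) = Φ.symm w.2 := by
        apply c1.eventually (p := fun z : ℝ × R4 => z.2 ∉ D → h z = z.2)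
        show ∀ᶠ z in 𝓝 ((t, Φ.symm y) : ℝ × R4), z.2 ∉ D → h z = z.2
        rw [e0]
        exact hfix t htI p ⟨hp, hpB⟩
      have hhp : h (t, p) ∈ D := (ht t htI).2.2 ⟨hp, hpB⟩
      have c5 : ∀ᶠ z in 𝓝 (h (t, p)), ContDiffAt ℝ ∞ G z := (ld_iff.1 (hG.1 _ hhp)).1
      have c6 : ContinuousAt (fun w : ℝ × R4 => h (w.1, Φ.symm w.2)) (t, y) := by
        have k : ContinuousAt h (t, Φ.symm y) := by
          rw [e0]
          exact (hsm t htI p ⟨hp, hpB⟩).self_of_nhds.continuousAt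
        exact ContinuousAt.comp (f := fun w : ℝ × R4 => ((w.1, Φ.symm w.2) : ℝ × R4))
          (x := (t, y)) k c1
      have c7 : ∀ᶠ w : ℝ × R4 in 𝓝 (t, y), ContDiffAt ℝ ∞ G (h (w.1, Φ.symm w.2)) := by
        apply c6.eventually
        show ∀ᶠ z in 𝓝 (h (t, Φ.symm y)), ContDiffAt ℝ ∞ G z
        rw [hsy]
        exact c5
      filter_upwards [c2, c3, c7, (c2.and c4).eventually_nhds] with w w2 w3 w7 w4
      have d1 : ContDiffAt ℝ ∞ (fun w : ℝ × R4 => ((w.1, Φ.symm w.2) : ℝ × R4)) w := by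
        apply ContDiffAt.prodMk contDiffAt_fst
        exact ContDiffAt.comp (f := fun w : ℝ × R4 => w.2) w (hsymm _ w2) contDiffAt_snd
      have d2 : ContDiffAt ℝ ∞ (fun w : ℝ × R4 => h (w.1, Φ.symm w.2)) w :=
        ContDiffAt.comp (f := fun w : ℝ × R4 => ((w.1, Φ.symm w.2) : ℝ × R4)) w w3 d1
      have d3 : ContDiffAt ℝ ∞ (fun w : ℝ × R4 => G (h (w.1, Φ.symm w.2))) w :=
        ContDiffAt.comp (f := fun w : ℝ × R4 => h (w.1, Φ.symm w.2)) w w7 d2
      refine d3.congr_of_eventuallyEq ?_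
      filter_upwards [w4] with v hv
      exact near hG.2 Φ hΦ1 hΦ2 hv.1 hv.2
    · have c0 : ∀ᶠ z in 𝓝 y, z ∉ G '' D := hGDc.isOpen_compl.mem_nhds hyD
      have c1 : ∀ᶠ w : ℝ × R4 in 𝓝 (t, y), w.2 ∉ G '' D :=
        (continuousAt_snd (p := ((t, y) : ℝ × R4))).eventually c0
      filter_upwards [c1.eventually_nhds] with w hw
      refine ContDiffAt.congr_of_eventuallyEq (contDiffAt_snd (𝕜 := ℝ) (E := ℝ) (F := R4)) ?_
      filter_upwards [hw] with v hv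
      exact imp_off hv
  have hfam : FamOn I4 (fun w : ℝ × R4 => imp G D (fun p => h (w.1, p)) w.2) K := by
    constructor
    · refine ⟨interior {w | ContDiffAt ℝ ∞
        (fun w : ℝ × R4 => imp G D (fun p => h (w.1, p)) w.2) w}, isOpen_interior, ?_, ?_⟩
      · intro z hz
        exact mem_interior_iff_mem_nhds.2 (key z hz)
      · intro w hw
        have hw' := interior_subset hw
        have hw2 : ContDiffAt ℝ ∞ (fun w : ℝ × R4 => imp G D (fun p => h (w.1, p)) w.2) w := hw'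
        exact hw2.contMDiffAt.contMDiffWithinAt
    · intro t htI
      obtain ⟨h1, h2, h3⟩ := ht t htI
      have h4 := hGH G (fun p => h (t, p)) D B hD hB hG h1 h2 h3 (by
        intro p hp
        have c : ContinuousAt (fun q : R4 => ((t, q) : ℝ × R4)) p :=
          (continuous_const.prodMk continuous_id).continuousAt
        exact c.eventually (hfix t htI p hp))
      exact ⟨fun y hy => h4.1 y (hKs hy), h4.2.mono hKs⟩
  exact hA3 R4 R4 I4 R4 (fun w : ℝ × R4 => imp G D (fun p => h (w.1, p)) w.2) K Θ Θ' hK hfam hΘ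

end Pool.Agent.Helper27.S5


end
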