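import Pool.Agent.Helper65.Barb.Defs
import Pool.Agent.Helper70.BI.C.P42

/-!
# Project BI (MP_8e98f2_gt): collected modules, part 69

The contents of the modules
* Helper27.BI.S5.XLa
* Helper27.BI.S5.XLb
* Helper27.BI.S5.XLc
* Helper27.BI.S5.XLd
* Helper27.BI.S5.XLe
* Helper27.BI.S5.XLf

in one file, so that the whole proof builds in a short time.
-/

namespace Pool.Agent.Helper18.BI
end Pool.Agent.Helper18.BI

namespace Pool.Agent.Helper18.BI.R
end Pool.Agent.Helper18.BI.R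

namespace Pool.Agent.Helper27.BI
end Pool.Agent.Helper27.BI

namespace Pool.Agent.Helper27.H
end Pool.Agent.Helper27.H

namespace Pool.Agent.Helper65.Barb
end Pool.Agent.Helper65.Barb

namespace Pool.Agent.Helper70.BI
end Pool.Agent.Helper70.BI


/-! ## Helper27.BI.S5.XLa -/

section

/-!
# Project BI, stage 5: abstract lemmas for the module XL
-/

set_option autoImplicit false
set_option linter.unusedSectionVars false

open scoped Manifold ContDiff Topology ComplexConjugate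
open Set Filter Pool.Agent.Helper65.Barb Pool.Agent.Helper18.BI
open Pool.Agent.Helper70.BI (I4 LD NearEq IsW ld_iff)
open Pool.Agent.Helper27.BI (e1)
open Pool.Agent.Helper27.H
open Pool.Agent.Helper18.BI.R (LoopOK SH shp HasCl StHCL)

namespace Pool.Agent.Helper27.S5

namespace XL

theorem ci_symm {φ ψ : R4 → R4} (h : CIsot I4 φ ψ) : CIsot I4 ψ φ :=
  Pool.Agent.Helper27.BI.CIsot.symm' h

theorem ci_trans {φ ψ χ : R4 → R4} (h : CIsot I4 φ ψ) (h' : CIsot I4 ψ χ) :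
    CIsot I4 φ χ := Pool.Agent.Helper27.BI.CIsot.trans' h h'

theorem ci_comp {φ ψ φ' ψ' : R4 → R4} (h : CIsot I4 φ ψ) (h' : CIsot I4 φ' ψ') :
    CIsot I4 (fun x => φ (φ' x)) (fun x => ψ (ψ' x)) := Pool.Agent.Helper27.BI.CIsot.comp' h h'

theorem loopOK_const (D : ArcD) : LoopOK D (fun _ s => D.c s) where
  smooth := D.smooth.comp (f := fun z : ℝ × ℝ => z.2) contDiff_snd
  froz _ _ _ _ := rfl
  inU _ _ s hs := D.mem s ⟨lt_of_lt_of_le D.h₀ hs.1, lt_of_le_of_lt hs.2 D.h₂⟩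
  start _ := rfl
  stop _ := rfl

theorem sh_refl {D : ArcD} {c : ℝ → ℝ → R4} (h : LoopOK D c) : SH D c c := by
  refine ⟨fun z => c z.2.1 z.2.2, ?_, fun _ _ _ _ => ⟨rfl, rfl⟩, fun u _ q hq s hs => ⟨?_, ?_⟩⟩
  · have h1 : Continuous fun z : ℝ × ℝ => c z.1 z.2 := h.smooth.continuous
    exact (h1.comp (f := fun z : ℝ × ℝ × ℝ => z.2) continuous_snd).continuousOn
  · exact h.inU q hq s hs
  · rintro (h1 | h1 | h1 | h1)
    · show c q s = D.c s
      rw [h1]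
      exact h.start s
    · show c q s = D.c s
      rw [h1]
      exact h.stop s
    · exact h.froz q hq s (Or.inl h1.le)
    · exact h.froz q hq s (Or.inr h1.ge)

theorem shp_zero (D : ArcD) (c : ℝ → ℝ → R4) : shp D 0 (fun q s => c q s - D.c s) = c := by
  funext q s
  unfold shp
  simp

/-- homotopic loops of arcs have the same class up to `W` -/
theorem wr_of_sh (hHCL : StHCL) {D : ArcD} {c c' : ℝ → ℝ → R4} {W χ χ' : R4 → R4} (hW : IsW W)
    (h : LoopOK D c) (h' : LoopOK D c') (hs : SH D c c') (hχ : D.Cls c χ) (hχ' : D.Cls c' χ') :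
    CIsot I4 χ' χ ∨ CIsot I4 χ' (fun x => W (χ x)) := by
  have h1 : HasCl D 0 (fun q s => c' q s - D.c s) χ := ⟨c, h, hχ, by rw [shp_zero]; exact hs⟩
  have h2 : HasCl D 0 (fun q s => c' q s - D.c s) χ' :=
    ⟨c', h', hχ', by rw [shp_zero]; exact sh_refl h'⟩
  exact (hHCL D 0).2.2.2.2.2.2 W _ χ χ' hW h1 h2

/-- the classes of the end of a family pushed forward by an embedding into the complement of a wall -/
theorem pc (hPF : StPF) (hTCF : StTCF) {D : ArcD} {ι : R4 → R4} {O K' : Set R4}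
    {B : DFam 𝓘(ℝ, R4) R4} {E : R4 → R4} (hι : EmbOn I4 ι O) (hm : MapsTo ι O D.U)
    (hB0 : ∀ x, B.f (0, x) = x) (hBs : SuppU O B) (hK' : IsCompact K') (hK'O : K' ⊆ O)
    (hBK : ∀ x, x ∉ K' → B.f (1, x) = x) (hK'D : ι '' K' ⊆ D.U \ D.A)
    (hE : CIsot I4 E (imp D.e (ι '' K') (imp ι K' (fun x => B.f (1, x))))) :
    ∃ B' : DFam 𝓘(ℝ, R4) R4, (∀ x, B'.f (0, x) = x) ∧ SuppU D.U B' ∧
      (∀ t, ∀ x ∈ O, B'.f (t, ι x) = ι (B.f (t, x))) ∧
      (∀ s ∈ Icc D.s₀ D.s₁, B'.f (1, D.c s) = D.c s) ∧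
      D.Cls (fun q s => B'.f (q, D.c s)) E := by
  obtain ⟨K, hK, hKO, hBK0⟩ := hBs
  have hιK : EmbOn I4 ι K := ⟨fun p h => hι.1 p (hKO h), hι.2.mono hKO⟩
  obtain ⟨B', b1, b2, b3⟩ := hPF ι K B hιK hK hBK0
  have hcont : ∀ L ⊆ O, ContinuousOn ι L := fun L hL p h =>
    (hι.1 p (hL h)).contMDiffAt.continuousAt.continuousWithinAt
  have hO : ∀ t, ∀ x ∈ O, B'.f (t, ι x) = ι (B.f (t, x)) := by
    intro t x hx
    by_cases h : x ∈ K
    · exact b2 t x h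
    · rw [hBK0 t x h]
      apply b3
      rintro ⟨y, hy, e⟩
      exact h (hι.2 (hKO hy) hx e ▸ hy)
  have h0 : ∀ x, B'.f (0, x) = x := by
    intro y
    by_cases h : y ∈ ι '' K
    · obtain ⟨x, hx, rfl⟩ := h
      rw [b2 0 x hx, hB0]
    · exact b3 0 y h
  have h1 : ∀ y, y ∉ ι '' K' → B'.f (1, y) = y := by
    intro y hy
    by_cases h : y ∈ ι '' K
    · obtain ⟨x, hx, rfl⟩ := h
      rw [b2 1 x hx, hBK x (fun h => hy (mem_image_of_mem _ h))]
    · exact b3 1 y h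
  have hKc : IsCompact (ι '' K') := hK'.image_of_continuousOn (hcont K' hK'O)
  have hinj : InjOn ι K' := hι.2.mono hK'O
  have e1 : imp ι K' (fun x => B.f (1, x)) = fun x => B'.f (1, x) := by
    have him := hImp R4 R4 I4 R4 ι K' (fun x => B.f (1, x)) hinj
    funext y
    by_cases h : y ∈ ι '' K'
    · obtain ⟨x, hx, rfl⟩ := h
      rw [him.1 x hx]
      exact (hO 1 x (hK'O hx)).symm
    · rw [him.2.1 y h]
      exact (h1 y h).symm
  have hphi : D.Phi (fun x => B'.f (1, x)) E := ⟨ι '' K', hKc, hK'D, h1, by rw [← e1]; exact hE⟩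
  have hsup : SuppU D.U B' := ⟨ι '' K, hK.image_of_continuousOn (hcont K hKO),
    by rintro _ ⟨x, hx, rfl⟩; exact hm (hKO hx), fun t y hy => b3 t y hy⟩
  have hN : ∃ N : Set R4, IsOpen N ∧ D.L ⊆ N ∧ ∀ p ∈ N, B'.f (1, D.J p) = D.J p := by
    refine ⟨interior {p | D.J p ∉ ι '' K'}, isOpen_interior, fun p hp => ?_, fun p hp => ?_⟩
    · apply mem_interior_iff_mem_nhds.2
      have hc : ContinuousAt D.J p := (D.emb.1 p hp).contMDiffAt.continuousAt
      have hn : D.J p ∉ ι '' K' := fun h => (hK'D h).2 (mem_image_of_mem _ hp)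
      exact hc.eventually (hKc.isClosed.isOpen_compl.mem_nhds hn)
    · exact h1 _ (interior_subset hp)
  refine ⟨B', h0, hsup, hO, fun s hs => ?_, hTCF D B' E h0 hsup hN hphi⟩
  obtain ⟨N, hN1, hN2, hN3⟩ := hN
  have := hN3 (s, 0) (hN2 (D.mem_L hs))
  rwa [D.core s hs] at this

/-- the loop of arcs swept out by a family, made constant outside `[m₀, m₁]` -/
noncomputable def lo (D : ArcD) (B : DFam 𝓘(ℝ, R4) R4) (q s : ℝ) : R4 :=
  open Classical in if s ∈ Icc D.m₀ D.m₁ then B.f (q, D.c s) else D.c s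

theorem lo_spec {D : ArcD} {B : DFam 𝓘(ℝ, R4) R4} (hB0 : ∀ x, B.f (0, x) = x) (hBs : SuppU D.U B)
    (hB1 : ∀ s ∈ Icc D.s₀ D.s₁, B.f (1, D.c s) = D.c s)
    (hfr : ∀ t, ∀ s ∈ Ioo D.s₀ D.s₁, (s < D.m₀ ∨ D.m₁ < s) → B.f (t, D.c s) = D.c s) :
    LoopOK D (lo D B) ∧ (∀ q, ∀ s ∈ Icc D.s₀ D.s₁, lo D B q s = B.f (q, D.c s)) := by
  obtain ⟨K, hK, hKU, hBK⟩ := hBs
  have hJ : ContDiff ℝ ∞ (fun z : ℝ × ℝ => B.f (z.1, D.c z.2)) := by
    have h1 : ContDiff ℝ ∞ (fun z : ℝ × ℝ => D.c z.2) := D.smooth.comp contDiff_snd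
    exact contMDiff_iff_contDiff.1 (B.smooth_f.comp
      (contDiff_fst.contMDiff.prodMk h1.contMDiff))
  have hcl : ∀ t, ∀ s ∈ Icc D.s₀ D.s₁, (s ≤ D.m₀ ∨ D.m₁ ≤ s) → B.f (t, D.c s) = D.c s := by
    intro t s hs hs'
    have hclosed : IsClosed {s | B.f (t, D.c s) = D.c s} := by
      apply isClosed_eq _ D.smooth.continuous
      have h2 : Continuous fun z : ℝ × ℝ => B.f (z.1, D.c z.2) := hJ.continuous
      exact h2.comp (f := fun s : ℝ => (t, s)) (by fun_prop)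
    rcases hs' with h | h
    · have h1 : Ioo D.s₀ D.m₀ ⊆ {s | B.f (t, D.c s) = D.c s} := fun s hs =>
        hfr t s ⟨hs.1, hs.2.trans (D.h₁.trans D.h₂)⟩ (Or.inl hs.2)
      have h2 := closure_minimal h1 hclosed
      rw [closure_Ioo D.h₀.ne] at h2
      exact h2 ⟨hs.1, h⟩
    · have h1 : Ioo D.m₁ D.s₁ ⊆ {s | B.f (t, D.c s) = D.c s} := fun s hs =>
        hfr t s ⟨(D.h₀.trans D.h₁).trans hs.1, hs.2⟩ (Or.inr hs.1)
      have h2 := closure_minimal h1 hclosed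
      rw [closure_Ioo D.h₂.ne] at h2
      exact h2 ⟨h, hs.2⟩
  have hval : ∀ q, ∀ s ∈ Icc D.s₀ D.s₁, lo D B q s = B.f (q, D.c s) := by
    intro q s hs
    unfold lo
    split_ifs with h
    · rfl
    · symm
      apply hcl q s hs
      by_contra h2
      push Not at h2
      exact h ⟨h2.1.le, h2.2.le⟩
  have hout : ∀ q s, (s ≤ D.m₀ ∨ D.m₁ ≤ s) → lo D B q s = D.c s := by
    intro q s hs
    unfold lo
    split_ifs with h
    · apply hcl q s ⟨D.h₀.le.trans h.1, h.2.trans D.h₂.le⟩ hs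
    · rfl
  refine ⟨⟨?_, fun q _ s hs => hout q s hs, fun q hq s hs => ?_, fun s => ?_, fun s => ?_⟩, hval⟩
  · rw [contDiff_iff_contDiffAt]
    rintro ⟨q, s⟩
    by_cases h : s ∈ Ioo D.s₀ D.s₁
    · have h1 : ∀ᶠ z : ℝ × ℝ in 𝓝 (q, s), z.2 ∈ Ioo D.s₀ D.s₁ :=
        continuousAt_snd.eventually (isOpen_Ioo.mem_nhds h)
      refine hJ.contDiffAt.congr_of_eventuallyEq ?_
      filter_upwards [h1] with z hz
      exact hval z.1 z.2 ⟨hz.1.le, hz.2.le⟩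
    · have h1 : ∀ᶠ z : ℝ × ℝ in 𝓝 (q, s), z.2 < D.m₀ ∨ D.m₁ < z.2 := by
        have ho : IsOpen {x : ℝ | x < D.m₀ ∨ D.m₁ < x} := isOpen_Iio.union isOpen_Ioi
        refine continuousAt_snd.eventually (ho.mem_nhds ?_)
        show s < D.m₀ ∨ D.m₁ < s
        by_contra h2
        push Not at h2
        exact h ⟨lt_of_lt_of_le D.h₀ h2.1, lt_of_le_of_lt h2.2 D.h₂⟩
      have h2 : ContDiff ℝ ∞ (fun z : ℝ × ℝ => D.c z.2) := D.smooth.comp contDiff_snd
      refine h2.contDiffAt.congr_of_eventuallyEq ?_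
      filter_upwards [h1] with z hz
      exact hout z.1 z.2 (hz.imp le_of_lt le_of_lt)
  · rw [hval q s ⟨D.h₀.le.trans hs.1, hs.2.trans D.h₂.le⟩]
    have h1 : D.c s ∈ D.U := D.mem s ⟨lt_of_lt_of_le D.h₀ hs.1, lt_of_le_of_lt hs.2 D.h₂⟩
    by_cases h2 : D.c s ∈ K
    · exact hKU (B.mapsTo hBK q h2)
    · rw [hBK q _ h2]
      exact h1
  · unfold lo
    split_ifs
    · exact hB0 _
    · rfl
  · unfold lo
    split_ifs with h
    · exact hB1 s ⟨D.h₀.le.trans h.1, h.2.trans D.h₂.le⟩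
    · rfl

theorem cls_congr {D : ArcD} {c c' : ℝ → ℝ → R4} {χ : R4 → R4} (h : D.Cls c χ)
    (e : ∀ q, ∀ s ∈ Icc D.s₀ D.s₁, c' q s = c q s) : D.Cls c' χ := by
  obtain ⟨J, hJ, hT⟩ := h
  exact ⟨J, fun q hq s hs => (hJ q hq s hs).trans (e q s hs).symm, hT⟩

end XL

end Pool.Agent.Helper27.S5


end

/-! ## Helper27.BI.S5.XLb -/

section

/-!
# Project BI, stage 5: the two arcs
-/

set_option autoImplicit false
set_option linter.unusedSectionVars false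

open scoped Manifold ContDiff Topology ComplexConjugate
open Set Filter Pool.Agent.Helper65.Barb Pool.Agent.Helper18.BI
open Pool.Agent.Helper70.BI (I4 LD NearEq IsW ld_iff)
open Pool.Agent.Helper27.BI (e1)
open Pool.Agent.Helper27.H
open Pool.Agent.Helper18.BI.R (LoopOK SH)

namespace Pool.Agent.Helper27.S5

namespace XL

section sys
variable {G T T' : R4 → R4} {δ δ' κ β c : ℝ} {D D' : ArcD} {H : DFam 𝓘(ℝ, R4) R4} {a b : ℝ}
  (hs : Sys G T T' δ δ' κ β c D D' H a b)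
include hs

theorem s01' {s : ℝ} (h : s ∈ Icc D'.s₀ D'.s₁) : s ∈ Icc (0 : ℝ) 1 :=
  ⟨by linarith [hs.hat'.s₀.1, h.1], by linarith [hs.hat'.s₁.2, h.2]⟩

theorem s01 {s : ℝ} (h : s ∈ Icc D.s₀ D.s₁) : s ∈ Icc (0 : ℝ) 1 :=
  ⟨by linarith [hs.hat.s₀.1, h.1], by linarith [hs.hat.s₁.2, h.2]⟩

theorem ab01 {s : ℝ} (h : s ∈ Icc a b) : s ∈ Icc (0 : ℝ) 1 :=
  ⟨by linarith [hs.ab.ma.1, h.1], by linarith [hs.ab.mb.2, h.2]⟩

theorem z0_Reg {s : ℝ} (h : s ∈ Icc D'.s₀ D'.s₁) : (s, z0 s) ∈ Reg δ' := by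
  have b1 := XF.bge hs.hat' h
  have b2 := bfin_le s
  have b3 := bfin_nonneg s
  obtain ⟨l0, l1⟩ := s01' hs h
  have r := rsq1_z0 s
  have d0 := (Geo.hδ' hs.par).1
  refine ⟨l0, l1, ?_, ?_⟩
  · rw [r]; linarith
  · rw [r]; nlinarith

theorem z0_K3 {s : ℝ} (h : s ∈ Icc D'.s₀ D'.s₁) : (s, z0 s) ∈ K3 δ' := Geo.Reg_K3 (z0_Reg hs h)

theorem H_z2 (s : ℝ) : H.f (1, (s, P2 β)) = (s, z2 c β s) := Geo.H_P2 hs.th hs.par s

theorem z2_rsq (s : ℝ) :
    1 / 25 - δ' < rsq 1 (s, z2 c β s) ∧ rsq 1 (s, z2 c β s) ≤ 49 / 100 := by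
  have h : nsq (((s, P2 β) : R4).2 - P2 β) ≤ κ ^ 2 := by
    show nsq (P2 β - P2 β) ≤ κ ^ 2
    rw [sub_self]
    simp [Geo.nsq_def]
    positivity
  have h1 := Geo.H_near_rsq hs.th hs.par hs.mc h
  rw [H_z2 hs] at h1
  exact h1

theorem z2_Reg {s : ℝ} (h : s ∈ Icc (0 : ℝ) 1) : (s, z2 c β s) ∈ Reg δ' := by
  obtain ⟨h1, h2⟩ := z2_rsq hs s
  have d0 := (Geo.hδ' hs.par).1
  exact ⟨h.1, h.2, by linarith, h2⟩

theorem z2_K3 {s : ℝ} (h : s ∈ Icc (0 : ℝ) 1) : (s, z2 c β s) ∈ K3 δ' := Geo.Reg_K3 (z2_Reg hs h)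

theorem z2_sgi (s : ℝ) : bfin s ^ 2 ≤ κ ^ 2 * rsq 1 (sgi κ β (s, z2 c β s)) := by
  rw [← Geo.nsq_sgi hs.par.k0]
  show _ ≤ nsq (z2 c β s - P2 β)
  rw [Geo.nsq_z2]
  have : 0 ≤ (1 - lam c s) ^ 2 * β ^ 2 := by positivity
  linarith

theorem z2_out {s : ℝ} (h : s ∈ Icc a b) : 1 / 25 - δ' ≤ rsq 1 (sgi κ β (s, z2 c β s)) := by
  have h1 := z2_sgi hs s
  have h2 : κ ^ 2 * (1 / 25 - δ') ≤ bfin s ^ 2 := by
    rcases eq_or_lt_of_le h.1 with e | h'
    · rw [← e, hs.ab.ea]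
    · rcases eq_or_lt_of_le h.2 with e | h''
      · rw [e, hs.ab.eb]
      · exact (hs.ab.ins s ⟨h', h''⟩).le
  have k := hs.par.k0
  exact le_of_mul_le_mul_left (h2.trans h1) (by positivity)

theorem z2_out' {s : ℝ} (h : s ∈ Ioo a b) : 1 / 25 - δ' < rsq 1 (sgi κ β (s, z2 c β s)) := by
  have h1 := z2_sgi hs s
  have h2 := hs.ab.ins s h
  have k := hs.par.k0
  exact lt_of_mul_lt_mul_left (h2.trans_le h1) (by positivity)

theorem z2_XX {s : ℝ} (h : s ∈ Icc a b) (h' : s ≤ 11 / 25 ∨ 14 / 25 ≤ s) :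
    (s, z2 c β s) ∈ XX δ' κ β := by
  refine ⟨z2_Reg hs (ab01 hs h), ?_⟩
  rintro (h1 | h1)
  · have h2 := z2_out hs h
    have h3 := h1.2.2
    have d0 := (Geo.hδ' hs.par).1
    linarith
  · obtain ⟨h2, h3, -⟩ := h1
    simp only at h2 h3
    rcases h' with h | h <;> linarith

theorem z2_ne (s : ℝ) : z2 c β s ≠ z0 s := by
  intro e
  have h := Geo.nsq_z20 c β s
  rw [e, sub_self] at h
  have h1 := Geo.lam_pos hs.mc s
  have h2 : 0 < β := hs.par.k0.trans hs.par.k1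
  have h3 : 0 < (lam c s * β) ^ 2 := by positivity
  rw [← h] at h3
  simp [Geo.nsq_def] at h3

omit hs in
theorem z2_mid (c β : ℝ) {s : ℝ} (h : s ∈ Icc (43 / 100 : ℝ) (57 / 100)) :
    z2 c β s = ((73 / 100 : ℝ), ((c * β : ℝ) : ℂ)) := by
  rw [Geo.z2_def, Geo.lam_mid c h, bfin_mid ⟨by linarith [h.1], by linarith [h.2]⟩]
  norm_num

theorem injK : InjOn G (K3 δ') := hs.emb.2

theorem wall_K3 : wallS δ' ∪ wall2 δ' κ β ⊆ K3 δ' :=
  (union_subset (Geo.wall_Reg hs.par) (Geo.wall2_Reg hs.par)).trans Geo.Reg_K3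

theorem mem_U2 {p : R4} (hp : p ∈ K3 δ') (h1 : p ∉ wallS δ') (h2 : p ∉ wall2 δ' κ β) :
    G p ∈ U2 G δ' κ β := by
  rintro ⟨q, hq, e⟩
  have := injK hs (wall_K3 hs hq) hp e
  rw [this] at hq
  exact hq.elim h1 h2

theorem z0_U2 {s : ℝ} (h : s ∈ Ioo D'.s₀ D'.s₁) : G (s, z0 s) ∈ U2 G δ' κ β := by
  have h' : s ∈ Icc D'.s₀ D'.s₁ := ⟨h.1.le, h.2.le⟩
  refine mem_U2 hs (z0_K3 hs h') ?_ ?_
  · intro h1
    have h2 := h1.2.2.2
    rw [rsq1_z0] at h2
    linarith [hs.hat'.b s h]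
  · intro h1
    have h2 := Geo.wall2_near hs.par h1
    have e : nsq (z0 s - P2 β) = bfin s ^ 2 + β ^ 2 := by
      rw [Geo.z0_def, Geo.nsq_def]
      unfold P2
      simp
    have h3 : nsq (z0 s - P2 β) ≤ κ ^ 2 := h2
    rw [e] at h3
    have k0 := hs.par.k0
    have k1 := hs.par.k1
    nlinarith [sq_nonneg (bfin s)]

theorem z2_U2 {s : ℝ} (h : s ∈ Ioo a b) : G (s, z2 c β s) ∈ U2 G δ' κ β := by
  have h' : s ∈ Icc a b := ⟨h.1.le, h.2.le⟩
  refine mem_U2 hs (z2_K3 hs (ab01 hs h')) ?_ ?_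
  · intro h1
    exact absurd (z2_rsq hs s).1 (not_lt.2 h1.2.2.2)
  · intro h1
    have h2 : rsq 1 (sgi κ β (s, z2 c β s)) ≤ 1 / 25 - δ' := h1.2.2.2
    exact absurd (z2_out' hs h) (not_lt.2 h2)

theorem mem_A {x : R4} : x ∈ D'.A ↔ ∃ s ∈ Icc D'.s₀ D'.s₁, G (s, z0 s) = x := by
  constructor
  · rintro ⟨p, hp, rfl⟩
    obtain ⟨h1, h2⟩ := eq_of_mem_seg hp
    refine ⟨p.1, h1, ?_⟩
    rw [h2, XF.J_seg hs.hat']
  · rintro ⟨s, h, rfl⟩
    refine ⟨(s, 0), mem_seg h, ?_⟩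
    rw [XF.J_seg hs.hat']

theorem mem_A2 {x : R4} : x ∈ A2 G H β a b ↔ ∃ s ∈ Icc a b, G (s, z2 c β s) = x := by
  constructor
  · rintro ⟨p, ⟨h1, h2, h3⟩, rfl⟩
    refine ⟨p.1, ⟨h2, h3⟩, ?_⟩
    have e : p = (p.1, P2 β) := by rw [← h1]
    show _ = G (H.f (1, p))
    rw [e, H_z2 hs]
  · rintro ⟨s, h, rfl⟩
    refine ⟨(s, P2 β), ⟨rfl, h.1, h.2⟩, ?_⟩
    show G (H.f (1, (s, P2 β))) = _
    rw [H_z2 hs]

theorem z0_nA2 {s : ℝ} (h : s ∈ Icc D'.s₀ D'.s₁) : G (s, z0 s) ∉ A2 G H β a b := by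
  rw [mem_A2 hs]
  rintro ⟨s', h', e⟩
  have e1 := injK hs (z2_K3 hs (ab01 hs h')) (z0_K3 hs h) e
  have e2 : s' = s := congrArg Prod.fst e1
  have e3 : z2 c β s' = z0 s := congrArg Prod.snd e1
  rw [e2] at e3
  exact z2_ne hs s e3

theorem z2_nA {s : ℝ} (h : s ∈ Icc a b) : G (s, z2 c β s) ∉ D'.A := by
  rw [mem_A hs]
  rintro ⟨s', h', e⟩
  have e1 := injK hs (z0_K3 hs h') (z2_K3 hs (ab01 hs h)) e
  have e2 : s' = s := congrArg Prod.fst e1
  have e3 : z0 s' = z2 c β s := congrArg Prod.snd e1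
  rw [e2] at e3
  exact z2_ne hs s e3.symm

theorem isClosed_walls : IsClosed (wallS δ' ∪ wall2 δ' κ β) :=
  (Geo.isClosed_wallS δ').union (Geo.isClosed_wall2 δ' κ β)

theorem contG {L : Set R4} (h : L ⊆ K3 δ') : ContinuousOn G L := fun p hp =>
  (hs.emb.1 p (h hp)).contMDiffAt.continuousAt.continuousWithinAt

theorem isOpen_U2 : IsOpen (U2 G δ' κ β) := by
  have h1 : IsCompact (wallS δ' ∪ wall2 δ' κ β) :=
    (isCompact_K3 δ').of_isClosed_subset (isClosed_walls hs) (wall_K3 hs)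
  exact (h1.image_of_continuousOn (contG hs (wall_K3 hs))).isClosed.isOpen_compl

theorem XX_K3 : XX δ' κ β ⊆ K3 δ' := fun _ h => Geo.Reg_K3 h.1

theorem X_U2 : (G '' XX δ' κ β)ᶜ ⊆ U2 G δ' κ β :=
  compl_subset_compl.2 (image_mono (union_subset (Geo.wall_XX hs.par) (Geo.wall2_XX hs.par)))

theorem isCompact_A : IsCompact D'.A := by
  have h : ContinuousOn D'.J D'.L := fun p hp =>
    (D'.emb.1 p hp).contMDiffAt.continuousAt.continuousWithinAt
  exact D'.isCompact_L.image_of_continuousOn h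

theorem isCompact_ar (x : R3) (u v : ℝ) : IsCompact (ar x u v) := by
  have e : ar x u v = (fun s : ℝ => ((s, x) : R4)) '' Icc u v := by
    ext p
    constructor
    · rintro ⟨h1, h2, h3⟩
      exact ⟨p.1, ⟨h2, h3⟩, by rw [← h1]⟩
    · rintro ⟨s, h, rfl⟩
      exact ⟨rfl, h.1, h.2⟩
  rw [e]
  exact isCompact_Icc.image (by fun_prop)

theorem isCompact_A2 : IsCompact (A2 G H β a b) := by
  have h1 : ContDiff ℝ ∞ (fun p : R4 => H.f (1, p)) :=
    contMDiff_iff_contDiff.1 (H.smooth_f.comp (contMDiff_const.prodMk contMDiff_id))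
  unfold A2 GH
  refine (isCompact_ar hs (P2 β) a b).image_of_continuousOn ?_
  intro p hp
  have e : p = (p.1, P2 β) := by rw [← hp.1]
  have h2 : H.f (1, p) ∈ K3 δ' := by
    rw [e, H_z2 hs]
    exact z2_K3 hs (ab01 hs ⟨hp.2.1, hp.2.2⟩)
  have h3 : ContinuousAt G (H.f (1, p)) := (hs.emb.1 _ h2).contMDiffAt.continuousAt
  exact (ContinuousAt.comp (f := fun p : R4 => H.f (1, p)) h3
    h1.continuous.continuousAt).continuousWithinAt

end sys

end XL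

end Pool.Agent.Helper27.S5


end

/-! ## Helper27.BI.S5.XLc -/

section

/-!
# Project BI, stage 5: the motion of the two arcs
-/

set_option autoImplicit false
set_option linter.unusedSectionVars false

open scoped Manifold ContDiff Topology ComplexConjugate
open Set Filter Pool.Agent.Helper65.Barb Pool.Agent.Helper18.BI
open Pool.Agent.Helper70.BI (I4 LD NearEq IsW ld_iff embOn_comp ld_dfam contDiff_dfam)
open Pool.Agent.Helper27.BI (e1)
open Pool.Agent.Helper27.H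
open Pool.Agent.Helper18.BI.R (LoopOK SH)

namespace Pool.Agent.Helper27.S5

namespace XL

theorem ld_eventually {G : R4 → R4} {p : R4} (h : LD G p) {P : R4 → Prop}
    (hP : ∀ᶠ q in 𝓝 p, P (G q)) : ∀ᶠ y in 𝓝 (G p), P y := by
  obtain ⟨Φ, hp, he⟩ := h
  have hG : G p = Φ p := he hp
  have ht : G p ∈ Φ.target := by rw [hG]; exact Φ.map_source hp
  have hs : Φ.symm (G p) = p := by
    rw [hG]
    exact Φ.left_inv hp
  have hc : ContinuousAt Φ.symm (G p) :=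
    (Φ.contMDiffOn_invFun.continuousOn).continuousAt (Φ.open_target.mem_nhds ht)
  have h1 : ∀ᶠ y in 𝓝 (G p), P (G (Φ.symm y)) := by
    have hP' : ∀ᶠ q in 𝓝 (Φ.symm (G p)), P (G q) := by rw [hs]; exact hP
    exact hc.eventually hP'
  filter_upwards [h1, Φ.open_target.mem_nhds ht] with y hy hyt
  have hys : Φ.symm y ∈ Φ.source := Φ.map_target hyt
  have e : G (Φ.symm y) = y := (he hys).trans (Φ.right_inv hyt)
  rwa [e] at hy

/-- a small scale -/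
theorem exists_n {N : Set R4} (hN : IsOpen N) (h : seg (11 / 25) (14 / 25) ⊆ N) :
    ∃ n : ℕ, ∀ s ∈ Icc (11 / 25 : ℝ) (14 / 25), ∀ y : R3,
      nsq y ≤ (1 / ((n : ℝ) + 2) * (41 / 200)) ^ 2 → (s, y) ∈ N ∧ nsq y ≤ (1 / 50) ^ 2 := by
  obtain ⟨u, v, hu, hv, hsu, h0v, huv⟩ := generalized_tube_lemma
    (s := Icc (11 / 25 : ℝ) (14 / 25)) (t := ({0} : Set R3)) isCompact_Icc isCompact_singleton hN
    (by
      rintro ⟨s, y⟩ ⟨h1, h2⟩
      rw [mem_singleton_iff] at h2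
      simp only at h1 h2
      rw [h2]
      exact h ⟨h1.1, h1.2, rfl⟩)
  obtain ⟨ρ, hρ, hb⟩ := Metric.isOpen_iff.1 hv 0 (h0v rfl)
  obtain ⟨n, hn⟩ := exists_nat_one_div_lt (show 0 < min ρ (1 / 50) by positivity)
  refine ⟨n, fun s hs y hy => ?_⟩
  have hc0 : (0 : ℝ) < 1 / ((n : ℝ) + 2) := by positivity
  have hc1 : 1 / ((n : ℝ) + 2) < min ρ (1 / 50) := by
    refine lt_of_le_of_lt ?_ hn
    apply one_div_le_one_div_of_le (by positivity)
    linarith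
  have hc2 : 1 / ((n : ℝ) + 2) * (41 / 200) < min ρ (1 / 50) := by nlinarith
  set r : ℝ := 1 / ((n : ℝ) + 2) * (41 / 200) with hr
  have r0 : 0 ≤ r := by positivity
  have hnorm : ‖y‖ ≤ r := by
    rw [Geo.nsq_def] at hy
    rw [Prod.norm_def]
    apply max_le
    · rw [Real.norm_eq_abs]
      apply abs_le_of_sq_le_sq _ r0
      nlinarith [sq_nonneg y.2.re, sq_nonneg y.2.im]
    · apply abs_le_of_sq_le_sq' _ r0 |>.2
      rw [← Complex.normSq_eq_norm_sq, Complex.normSq_apply]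
      nlinarith [sq_nonneg y.1]
  constructor
  · apply huv
    refine ⟨hsu hs, hb ?_⟩
    rw [Metric.mem_ball, dist_zero_right]
    exact lt_of_le_of_lt hnorm (hc2.trans_le (min_le_left _ _))
  · refine hy.trans ?_
    apply pow_le_pow_left₀ r0
    exact hc2.le.trans (min_le_right _ _)

/-- the data of a motion of the two arcs -/
structure Mov (G : R4 → R4) (δ' κ β c : ℝ) (D : ArcD) (cc : ℝ → ℝ → R4) (F : DFam 𝓘(ℝ, R4) R4)
    (a b : ℝ) : Prop where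
  F0 : ∀ x, F.f (0, x) = x
  supp : SuppU (G '' XX δ' κ β)ᶜ F
  track : ∀ t ∈ Icc (0 : ℝ) 1, ∀ s ∈ Icc D.s₀ D.s₁, F.f (t, G (s, z0 s)) = cc (step t) s
  near : ∀ s ∈ Icc (11 / 25 : ℝ) (14 / 25), ∀ y : R3, nsq y ≤ (c * (41 / 200)) ^ 2 →
    ∀ᶠ x in 𝓝 (G (s, z0 s + y)), F.f (1, x) = x
  fro : ∀ t ∈ Icc (0 : ℝ) 1, ∀ s ∈ Icc (11 / 25 : ℝ) (14 / 25), (s < 9 / 20 ∨ 11 / 20 < s) →
    F.f (t, G (s, z2 c β s)) = G (s, z2 c β s)
  off : ∀ q ∈ Icc (0 : ℝ) 1, ∀ s ∈ Icc (9 / 20 : ℝ) (11 / 20), cc q s ∉ G '' XX δ' κ β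
  off2 : ∀ q ∈ Icc (0 : ℝ) 1, ∀ s ∈ Icc (9 / 20 : ℝ) (11 / 20), ∀ s' ∈ Icc a b,
    cc q s ≠ G (s', z2 c β s')
  loop : LoopOK D cc

section sys
variable {G T T' : R4 → R4} {δ δ' κ β c : ℝ} {D D' : ArcD} {H : DFam 𝓘(ℝ, R4) R4} {a b : ℝ}
  (hs : Sys G T T' δ δ' κ β c D D' H a b)
include hs

/-- the arc `D'` is in the forbidden region off the levels of the channel -/
theorem z0_XX' {s : ℝ} (h : s ∈ Icc D'.s₀ D'.s₁) (h' : s ≤ 11 / 25 ∨ 14 / 25 ≤ s) :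
    (s, z0 s) ∈ XX δ' κ β := by
  refine ⟨z0_Reg hs h, ?_⟩
  rintro (h1 | h1)
  · have h2 := Geo.hol_near hs.par h1
    have e : nsq (z0 s - P2 β) = bfin s ^ 2 + β ^ 2 := by
      rw [Geo.z0_def, Geo.nsq_def]
      unfold P2
      simp
    have h3 : nsq (z0 s - P2 β) ≤ κ ^ 2 := h2
    rw [e] at h3
    have k0 := hs.par.k0
    have k1 := hs.par.k1
    nlinarith [sq_nonneg (bfin s)]
  · obtain ⟨h2, h3, -⟩ := h1
    simp only at h2 h3
    rcases h' with h | h <;> linarith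

theorem mid_D {s : ℝ} (h : s ∈ Icc (11 / 25 : ℝ) (14 / 25)) : s ∈ Icc D.s₀ D.s₁ :=
  ⟨by linarith [hs.hat.s₀.2, h.1], by linarith [hs.hat.s₁.1, h.2]⟩

theorem mid_D' {s : ℝ} (h : s ∈ Icc (11 / 25 : ℝ) (14 / 25)) : s ∈ Icc D'.s₀ D'.s₁ :=
  ⟨by linarith [hs.hat'.s₀.2, h.1], by linarith [hs.hat'.s₁.1, h.2]⟩

variable {cc : ℝ → ℝ → R4} {F : DFam 𝓘(ℝ, R4) R4} (hM : Mov G δ' κ β c D cc F a b)
include hM

theorem F_fix {x : R4} (h : x ∈ G '' XX δ' κ β) (t : ℝ) : F.f (t, x) = x := by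
  obtain ⟨K, -, hK, hF⟩ := hM.supp
  exact hF t x (fun h' => hK h' h)

theorem F_z0_out {s : ℝ} (h : s ∈ Icc D'.s₀ D'.s₁) (h' : s ≤ 11 / 25 ∨ 14 / 25 ≤ s) (t : ℝ) :
    F.f (t, G (s, z0 s)) = G (s, z0 s) :=
  F_fix hs hM (mem_image_of_mem _ (z0_XX' hs h h')) t

theorem F_z2_out {s : ℝ} (h : s ∈ Icc a b) (h' : s ≤ 11 / 25 ∨ 14 / 25 ≤ s) (t : ℝ) :
    F.f (t, G (s, z2 c β s)) = G (s, z2 c β s) :=
  F_fix hs hM (mem_image_of_mem _ (z2_XX hs h h')) t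

/-- off the moving part the arc is fixed -/
theorem F_z0_fro {s : ℝ} (h : s ∈ Icc D'.s₀ D'.s₁) (h' : s ≤ 9 / 20 ∨ 11 / 20 ≤ s) {t : ℝ}
    (ht : t ∈ Icc (0 : ℝ) 1) : F.f (t, G (s, z0 s)) = G (s, z0 s) := by
  by_cases h1 : s ≤ 11 / 25 ∨ 14 / 25 ≤ s
  · exact F_z0_out hs hM h h1 t
  · push Not at h1
    have h2 := mid_D hs ⟨h1.1.le, h1.2.le⟩
    rw [hM.track t ht s h2, hM.loop.froz _ (step_mem t) s (by rw [hs.hat.m₀, hs.hat.m₁]; exact h'),
      XF.c_eq hs.hat h2]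

theorem F_z2_fro {s : ℝ} (h : s ∈ Icc a b) (h' : s < 9 / 20 ∨ 11 / 20 < s) {t : ℝ}
    (ht : t ∈ Icc (0 : ℝ) 1) : F.f (t, G (s, z2 c β s)) = G (s, z2 c β s) := by
  by_cases h1 : s ≤ 11 / 25 ∨ 14 / 25 ≤ s
  · exact F_z2_out hs hM h h1 t
  · push Not at h1
    exact hM.fro t ht s ⟨h1.1.le, h1.2.le⟩ h'

/-- the two arcs stay disjoint -/
theorem F_off {s : ℝ} (h : s ∈ Icc D'.s₀ D'.s₁) {t : ℝ} (ht : t ∈ Icc (0 : ℝ) 1) :
    F.f (t, G (s, z0 s)) ∉ A2 G H β a b := by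
  by_cases h1 : s ≤ 9 / 20 ∨ 11 / 20 ≤ s
  · rw [F_z0_fro hs hM h h1 ht]
    exact z0_nA2 hs h
  · push Not at h1
    have h2 := mid_D hs (s := s) ⟨by linarith [h1.1], by linarith [h1.2]⟩
    rw [hM.track t ht s h2, mem_A2 hs]
    rintro ⟨s', h', e⟩
    exact hM.off2 _ (step_mem t) s ⟨h1.1.le, h1.2.le⟩ s' h' e.symm

/-- the end of the motion is the identity near the two arcs and near the small ball dragged by the finger -/
theorem F_near_A {x : R4} (h : x ∈ D'.A) : ∀ᶠ y in 𝓝 x, F.f (1, y) = y := by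
  obtain ⟨s, hs', rfl⟩ := (mem_A hs).1 h
  by_cases h1 : s ≤ 11 / 25 ∨ 14 / 25 ≤ s
  · obtain ⟨K, hK, hKs, hF⟩ := hM.supp
    have hn : G (s, z0 s) ∉ K := fun h' => hKs h' (mem_image_of_mem _ (z0_XX' hs hs' h1))
    filter_upwards [hK.isClosed.isOpen_compl.mem_nhds hn] with y hy
    exact hF 1 y hy
  · push Not at h1
    have h2 := hM.near s ⟨h1.1.le, h1.2.le⟩ 0 (by simp [Geo.nsq_def]; positivity)
    rw [add_zero] at h2
    exact h2

theorem F_near_A2 {x : R4} (h : x ∈ A2 G H β a b) : ∀ᶠ y in 𝓝 x, F.f (1, y) = y := by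
  obtain ⟨s, hs', rfl⟩ := (mem_A2 hs).1 h
  by_cases h1 : s ≤ 11 / 25 ∨ 14 / 25 ≤ s
  · obtain ⟨K, hK, hKs, hF⟩ := hM.supp
    have hn : G (s, z2 c β s) ∉ K := fun h' => hKs h' (mem_image_of_mem _ (z2_XX hs hs' h1))
    filter_upwards [hK.isClosed.isOpen_compl.mem_nhds hn] with y hy
    exact hF 1 y hy
  · push Not at h1
    have hb : 0 < β := hs.par.k0.trans hs.par.k1
    have hb1 : β < 1 / 5 := by linarith [Geo.num_hi hs.par, hs.par.k0]
    have h2 := hM.near s ⟨h1.1.le, h1.2.le⟩ ((lam c s * β) • eu) (by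
      rw [Geo.lam_mid c ⟨by linarith [h1.1], by linarith [h1.2]⟩, Pool.Agent.Helper27.H.nsq_smul]
      have : nsq eu = 1 := by simp [Geo.nsq_def, eu]
      rw [this, mul_one]
      have c0 := hs.mc.1
      apply pow_le_pow_left₀ (by positivity)
      nlinarith)
    exact h2

theorem F_near_tb {x : R4} (h : x ∈ G '' tb c) : ∀ᶠ y in 𝓝 x, F.f (1, y) = y := by
  obtain ⟨p, ⟨h1, h2, h3⟩, rfl⟩ := h
  have h4 := hM.near p.1 ⟨h1.le, h2.le⟩ (p.2 - z0 p.1) h3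
  rw [add_sub_cancel] at h4
  exact h4

/-- a compact set containing the support of the end of the motion -/
theorem exists_K : ∃ K : Set R4, IsCompact K ∧ K ⊆ (G '' XX δ' κ β)ᶜ ∧ Disjoint K (G '' tb c) ∧
    (∀ x, x ∉ K → F.f (1, x) = x) := by
  obtain ⟨K, hK, hKs, hF⟩ := hM.supp
  refine ⟨K \ interior {x | F.f (1, x) = x}, hK.diff isOpen_interior,
    sdiff_subset.trans hKs, ?_, fun x hx => ?_⟩
  · rw [Set.disjoint_left]
    rintro x ⟨-, h1⟩ h2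
    exact h1 (mem_interior_iff_mem_nhds.2 (F_near_tb hs hM h2))
  · by_cases h : x ∈ K
    · have h1 : x ∈ interior {x | F.f (1, x) = x} := by
        by_contra h2
        exact hx ⟨h, h2⟩
      have h3 : x ∈ {x | F.f (1, x) = x} := interior_subset h1
      exact h3
    · exact hF 1 x h

end sys

end XL

end Pool.Agent.Helper27.S5


end

/-! ## Helper27.BI.S5.XLd -/

section

/-!
# Project BI, stage 5: the module XL
-/

set_option autoImplicit false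
set_option linter.unusedSectionVars false

open scoped Manifold ContDiff Topology ComplexConjugate
open Set Filter Pool.Agent.Helper65.Barb Pool.Agent.Helper18.BI
open Pool.Agent.Helper70.BI (I4 LD NearEq IsW ld_iff embOn_comp ld_dfam contDiff_dfam
  contDiff_dfam_inv StMWL)
open Pool.Agent.Helper27.BI (e1)
open Pool.Agent.Helper27.H
open Pool.Agent.Helper18.BI.R (LoopOK SH StHCL HasCl shp)

namespace Pool.Agent.Helper27.S5

namespace XL

/-- homotopic loops of arcs have the same class up to `W`, with a square in between -/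
theorem wr_of_sh2 (hHCL : StHCL) {D : ArcD} {c f c' : ℝ → ℝ → R4} {W χ χ' : R4 → R4}
    (hW : IsW W) (h : LoopOK D c) (h' : LoopOK D c') (hs : SH D c f) (hs' : SH D f c')
    (hχ : D.Cls c χ) (hχ' : D.Cls c' χ') :
    CIsot I4 χ' χ ∨ CIsot I4 χ' (fun x => W (χ x)) := by
  have h1 : HasCl D 0 (fun q s => f q s - D.c s) χ := ⟨c, h, hχ, by rw [shp_zero]; exact hs⟩
  have h3 : HasCl D 0 (fun q s => c' q s - D.c s) χ := by
    refine (hHCL D 0).2.2.2.1 _ _ χ h1 ?_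
    rw [shp_zero, shp_zero]
    exact hs'
  have h2 : HasCl D 0 (fun q s => c' q s - D.c s) χ' :=
    ⟨c', h', hχ', by rw [shp_zero]; exact sh_refl h'⟩
  exact (hHCL D 0).2.2.2.2.2.2 W _ χ χ' hW h3 h2

theorem shrink {F : DFam 𝓘(ℝ, R4) R4} {O C : Set R4} (hF : SuppU O F)
    (h : ∀ x ∈ C, ∀ᶠ y in 𝓝 x, F.f (1, y) = y) :
    ∃ K : Set R4, IsCompact K ∧ K ⊆ O \ C ∧ ∀ x, x ∉ K → F.f (1, x) = x := by
  obtain ⟨K, hK, hKs, hFK⟩ := hF
  refine ⟨K \ interior {x | F.f (1, x) = x}, hK.diff isOpen_interior, ?_, fun x hx => ?_⟩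
  · rintro x ⟨h1, h2⟩
    exact ⟨hKs h1, fun h3 => h2 (mem_interior_iff_mem_nhds.2 (h x h3))⟩
  · by_cases h : x ∈ K
    · have h1 : x ∈ interior {x | F.f (1, x) = x} := by
        by_contra h2
        exact hx ⟨h, h2⟩
      have h3 : x ∈ {x | F.f (1, x) = x} := interior_subset h1
      exact h3
    · exact hFK 1 x h

theorem sdiff_of {F : DFam 𝓘(ℝ, R4) R4} {K : Set R4} (h : ∀ x, x ∉ K → F.f (1, x) = x) :
    SDiff K (fun x => F.f (1, x)) (fun x => F.g (1, x)) := by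
  refine ⟨?_, ?_, fun p => F.fg 1 p, fun p => F.gf 1 p, h⟩
  · exact (contDiff_dfam F).comp (contDiff_const.prodMk contDiff_id)
  · exact (contDiff_dfam_inv F).comp (contDiff_const.prodMk contDiff_id)

theorem maps_of {F : DFam 𝓘(ℝ, R4) R4} {K : Set R4} (h : ∀ x, x ∉ K → F.f (1, x) = x) :
    MapsTo (fun x => F.f (1, x)) K K := fun x hx =>
  (F.freeze 1).mapsTo (K := K) (fun _ y hy => h y hy) 0 hx

section sys
variable {G T T' : R4 → R4} {δ δ' κ β c : ℝ} {D D' : ArcD} {H : DFam 𝓘(ℝ, R4) R4} {a b : ℝ}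
  (hs : Sys G T T' δ δ' κ β c D D' H a b)
include hs

/-- the map `G ∘ H.f (1, ·)` near the first arc -/
theorem emb_J : EmbOn I4 (fun p => G (H.f (1, p))) (ar e1 D'.s₀ D'.s₁) := by
  have h1 : EmbOn I4 (fun p : R4 => H.f (1, p)) (ar e1 D'.s₀ D'.s₁) :=
    ⟨fun p _ => ld_dfam H 1 p, fun p _ q _ h => by
      have := congrArg (fun x => H.g (1, x)) h
      simpa only [H.gf] using this⟩
  refine embOn_comp hs.emb h1 ?_
  rintro p ⟨h2, h3, h4⟩
  have e : p = (p.1, e1) := by rw [← h2]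
  rw [e, hs.th.line]
  exact z0_K3 hs ⟨h3, h4⟩

theorem J_z0 (s : ℝ) : G (H.f (1, (s, e1))) = G (s, z0 s) := by rw [hs.th.line]

theorem J_A : (fun p => G (H.f (1, p))) '' ar e1 D'.s₀ D'.s₁ = D'.A := by
  ext x
  rw [mem_A hs]
  constructor
  · rintro ⟨p, ⟨h2, h3, h4⟩, rfl⟩
    have e : p = (p.1, e1) := by rw [← h2]
    refine ⟨p.1, ⟨h3, h4⟩, ?_⟩
    show _ = G (H.f (1, p))
    rw [e, J_z0 hs]
  · rintro ⟨s, h, rfl⟩
    exact ⟨(s, e1), ⟨rfl, h.1, h.2⟩, J_z0 hs s⟩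

variable {cc : ℝ → ℝ → R4} {F : DFam 𝓘(ℝ, R4) R4} (hM : Mov G δ' κ β c D cc F a b)
include hM

/-- the splitting -/
theorem split (hSPL : StSPL) : ∃ A B : DFam 𝓘(ℝ, R4) R4, (∀ x, A.f (0, x) = x) ∧
    (∀ x, B.f (0, x) = x) ∧ SuppU (U2 G δ' κ β \ A2 G H β a b) A ∧
    SuppU (U2 G δ' κ β \ D'.A) B ∧
    (∀ t, ∀ s ∈ Icc D'.s₀ D'.s₁, A.f (t, G (s, z0 s)) = F.f (step (step t), G (s, z0 s))) ∧
    (∀ t x, A.f (t, B.f (t, x)) = F.f (step (step t), x)) ∧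
    (∀ x ∈ D'.A, ∀ᶠ y in 𝓝 x, A.f (1, y) = y) ∧
    ∀ x ∈ A2 G H β a b, ∀ᶠ y in 𝓝 x, B.f (1, y) = y := by
  have hFU : SuppU (U2 G δ' κ β) F := hM.supp.mono (X_U2 hs)
  obtain ⟨A, B, hA0, hB0, hA, hB, ⟨N, hN, hCN, hAN⟩, hAB⟩ := hSPL (U2 G δ' κ β)
    (ar e1 D'.s₀ D'.s₁) (ar (P2 β) a b) (fun p => G (H.f (1, p))) F (isOpen_U2 hs)
    (isCompact_ar hs e1 _ _) (isCompact_ar hs (P2 β) a b) (emb_J hs) (isCompact_A2 hs) hM.F0 hFU
    (by
      rintro t ht p ⟨h2, h3, h4⟩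
      have e : p = (p.1, e1) := by rw [← h2]
      show F.f (t, G (H.f (1, p))) ∉ A2 G H β a b
      rw [e, J_z0 hs]
      exact F_off hs hM ⟨h3, h4⟩ ht)
  have hA' : SuppU (U2 G δ' κ β \ A2 G H β a b) A := hA
  rw [J_A hs] at hB
  have st1 : step (step 1) = 1 := by
    rw [Pool.Agent.Helper27.BI.step_one, Pool.Agent.Helper27.BI.step_one]
  have htr : ∀ t, ∀ s ∈ Icc D'.s₀ D'.s₁,
      A.f (t, G (s, z0 s)) = F.f (step (step t), G (s, z0 s)) := by
    intro t s h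
    have h1 := hAN t (s, e1) (hCN ⟨rfl, h.1, h.2⟩)
    rw [J_z0 hs] at h1
    exact h1
  refine ⟨A, B, hA0, hB0, hA', hB, htr, hAB, ?_, ?_⟩
  · intro x hx
    obtain ⟨s, h, rfl⟩ := (mem_A hs).1 hx
    have hC : ((s, e1) : R4) ∈ ar e1 D'.s₀ D'.s₁ := ⟨rfl, h.1, h.2⟩
    have hLD : LD (fun p => G (H.f (1, p))) (s, e1) := (emb_J hs).1 _ hC
    have hc : ContinuousAt (fun p => G (H.f (1, p))) (s, e1) := hLD.contMDiffAt.continuousAt
    have h1 := F_near_A hs hM hx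
    rw [← J_z0 hs] at h1 ⊢
    apply ld_eventually hLD
    have h2 : ∀ᶠ p in 𝓝 ((s, e1) : R4), F.f (1, G (H.f (1, p))) = G (H.f (1, p)) :=
      hc.eventually h1
    filter_upwards [h2, hN.mem_nhds (hCN hC)] with p hp1 hp2
    have h3 := hAN 1 p hp2
    rw [st1] at h3
    rw [h3, hp1]
  · intro x hx
    obtain ⟨K, hK, hKs, hAK⟩ := hA'
    have hn : x ∉ K := fun h => (hKs h).2 hx
    filter_upwards [F_near_A2 hs hM hx, hK.isClosed.isOpen_compl.mem_nhds hn] with y hy1 hy2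
    have h1 := hAB 1 y
    rw [st1, hy1] at h1
    have h2 := A.gf 1 (B.f (1, y))
    rw [h1] at h2
    have h3 := A.gf 1 y
    rw [hAK 1 y hy2] at h3
    rw [← h2, h3]

end sys

end XL

end Pool.Agent.Helper27.S5


end

/-! ## Helper27.BI.S5.XLe -/

section

/-!
# Project BI, stage 5: the two factors
-/

set_option autoImplicit false
set_option linter.unusedSectionVars false

open scoped Manifold ContDiff Topology ComplexConjugate
open Set Filter Pool.Agent.Helper65.Barb Pool.Agent.Helper18.BI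
open Pool.Agent.Helper70.BI (I4 LD NearEq IsW ld_iff embOn_comp ld_dfam contDiff_dfam
  contDiff_dfam_inv StMWL)
open Pool.Agent.Helper27.BI (e1)
open Pool.Agent.Helper27.H
open Pool.Agent.Helper18.BI.R (LoopOK SH StHCL HasCl shp)

namespace Pool.Agent.Helper27.S5

namespace XL

section sys
variable {G T T' : R4 → R4} {δ δ' κ β c : ℝ} {D D' : ArcD} {H : DFam 𝓘(ℝ, R4) R4} {a b : ℝ}
  (hs : Sys G T T' δ δ' κ β c D D' H a b)
  {cc : ℝ → ℝ → R4} {F : DFam 𝓘(ℝ, R4) R4} (hM : Mov G δ' κ β c D cc F a b)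
include hs hM

/-- the moving arc is off the walls and the second arc -/
theorem cc_mem {q s : ℝ} (hq : q ∈ Icc (0 : ℝ) 1) (h : s ∈ Icc (9 / 20 : ℝ) (11 / 20)) :
    cc q s ∈ U2 G δ' κ β \ A2 G H β a b := by
  refine ⟨X_U2 hs (hM.off q hq s h), ?_⟩
  rw [mem_A2 hs]
  rintro ⟨s', h', e⟩
  exact hM.off2 q hq s h s' h' e.symm

theorem mem1 {s : ℝ} (h : s ∈ Icc (9 / 20 : ℝ) (11 / 20)) : s ∈ Icc (11 / 25 : ℝ) (14 / 25) :=
  ⟨by linarith [h.1], by linarith [h.2]⟩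

theorem dd {s : ℝ} (h : s ∈ Icc (9 / 20 : ℝ) (11 / 20)) : D'.c s = D.c s := by
  have h1 := mem1 hs hM h
  rw [XF.c_eq hs.hat' (mid_D' hs h1), XF.c_eq hs.hat (mid_D hs h1)]

/-- the moving loop as a loop of the second datum -/
theorem loop' : LoopOK D' (fun q s => cc q s + (D'.c s - D.c s)) where
  smooth := by
    have h1 := hM.loop.smooth
    have h2 : ContDiff ℝ ∞ (fun z : ℝ × ℝ => D'.c z.2) := D'.smooth.comp contDiff_snd
    have h3 : ContDiff ℝ ∞ (fun z : ℝ × ℝ => D.c z.2) := D.smooth.comp contDiff_snd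
    exact h1.add (h2.sub h3)
  froz q hq s h := by
    rw [hs.hat'.m₀, hs.hat'.m₁] at h
    rw [hM.loop.froz q hq s (by rw [hs.hat.m₀, hs.hat.m₁]; exact h)]
    abel
  inU q hq s h := by
    rw [hs.hat'.m₀, hs.hat'.m₁] at h
    rw [dd hs hM h, sub_self, add_zero]
    have h1 := (cc_mem hs hM hq h).1
    rw [hs.hat'.U]
    intro h2
    exact h1 (image_mono subset_union_left h2)
  start s := by rw [hM.loop.start]; abel
  stop s := by rw [hM.loop.stop]; abel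

/-- the first factor -/
theorem factor1 (hPF : StPF) (hTCF : StTCF) (hIO1 : StIO1) (hIO2 : StIO2) (hIO3 : StIO3)
    (hHCL : StHCL) {A : DFam 𝓘(ℝ, R4) R4} (hA0 : ∀ x, A.f (0, x) = x)
    (hA : SuppU (U2 G δ' κ β \ A2 G H β a b) A)
    (hAt : ∀ t, ∀ s ∈ Icc D'.s₀ D'.s₁,
      A.f (t, G (s, z0 s)) = F.f (step (step t), G (s, z0 s)))
    {K' : Set R4} (hK' : IsCompact K') (hK's : K' ⊆ U2 G δ' κ β \ (D'.A ∪ A2 G H β a b))
    (hAK : ∀ x, x ∉ K' → A.f (1, x) = x) {W χ' : R4 → R4} (hW : IsW W)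
    (hχ' : D'.Cls (fun q s => cc q s + (D'.c s - D.c s)) χ') :
    CIsot I4 (imp (EE G H δ' κ β) K' (fun x => A.f (1, x)))
      (imp (EE G H δ' κ β) K' (fun x => A.f (1, x))) ∧
    (CIsot I4 χ' (imp (EE G H δ' κ β) K' (fun x => A.f (1, x))) ∨
      CIsot I4 χ' (fun x => W (imp (EE G H δ' κ β) K' (fun x => A.f (1, x)) x))) := by
  set E : R4 → R4 := imp (EE G H δ' κ β) K' (fun x => A.f (1, x)) with hE
  obtain ⟨hio, hiom, hiof⟩ := hIO1 G T T' δ δ' κ β c D D' H a b hs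
  obtain ⟨h1, h2⟩ := hIO2 G T T' δ δ' κ β c D D' H a b hs K' _ _ hK' hK's (sdiff_of hAK)
  have hEE : CIsot I4 E E := ci_trans h2 (ci_symm h2)
  have hK'2 : K' ⊆ U2 G δ' κ β \ A2 G H β a b := fun x hx =>
    ⟨(hK's hx).1, fun h => (hK's hx).2 (Or.inr h)⟩
  obtain ⟨A', a1, a2, a3, a4, a5⟩ := pc hPF hTCF hio hiom hA0 hA hK' hK'2 hAK h1 h2
  -- the base arc
  have hz : ∀ s ∈ Ioo D'.s₀ D'.s₁, D'.c s = G (s, z0 s) ∧
      G (s, z0 s) ∈ U2 G δ' κ β \ A2 G H β a b ∧ io G H δ' κ β (G (s, z0 s)) = G (s, z0 s) := by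
    intro s h
    have h' : s ∈ Icc D'.s₀ D'.s₁ := ⟨h.1.le, h.2.le⟩
    refine ⟨XF.c_eq hs.hat' h', ⟨z0_U2 hs h, z0_nA2 hs h'⟩, ?_⟩
    exact (hiof _ ((mem_A hs).2 ⟨s, h', rfl⟩) (z0_U2 hs h)).self_of_nhds
  have hA'c : ∀ t, ∀ s ∈ Ioo D'.s₀ D'.s₁, A'.f (t, D'.c s) =
      io G H δ' κ β (F.f (step (step t), G (s, z0 s))) := by
    intro t s h
    obtain ⟨e1, e2, e3⟩ := hz s h
    rw [e1]
    conv_lhs => rw [← e3]
    rw [a3 t _ e2, hAt t s ⟨h.1.le, h.2.le⟩]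
  obtain ⟨l1, l2⟩ := lo_spec a1 a2 a4 (by
    intro t s h h'
    rw [hs.hat'.m₀, hs.hat'.m₁] at h'
    rw [hA'c t s h, F_z0_fro hs hM ⟨h.1.le, h.2.le⟩ (h'.imp le_of_lt le_of_lt) (step_mem _),
      (hz s h).2.2, (hz s h).1])
  have hcls : D'.Cls (lo D' A') E := cls_congr a5 l2
  refine ⟨hEE, ?_⟩
  -- the homotopies
  have hmid : ∀ s ∈ Icc (9 / 20 : ℝ) (11 / 20), s ∈ Ioo D'.s₀ D'.s₁ := fun s h =>
    ⟨by linarith [hs.hat'.s₀.2, h.1], by linarith [hs.hat'.s₁.1, h.2]⟩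
  have hval : ∀ q, ∀ s ∈ Icc (9 / 20 : ℝ) (11 / 20),
      lo D' A' q s = io G H δ' κ β (cc (step (step (step q))) s) := by
    intro q s h
    have h3 := hmid s h
    rw [l2 q s ⟨h3.1.le, h3.2.le⟩, hA'c q s h3,
      hM.track _ (step_mem _) s (mid_D hs (mem1 hs hM h))]
  obtain ⟨k, hk1, hk2, hk3⟩ := hIO3 G T T' δ δ' κ β c D D' H a b hs
  have hcc : Continuous fun z : ℝ × ℝ => cc z.1 z.2 := hM.loop.smooth.continuous
  have hst : Continuous step := contDiff_step.continuous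
  have st0 : step (step (step 0)) = 0 := by
    simp only [Pool.Agent.Helper27.BI.step_zero]
  have st1 : step (step (step 1)) = 1 := by
    simp only [Pool.Agent.Helper27.BI.step_one]
  have hbd : ∀ q s, s ∈ Icc (9 / 20 : ℝ) (11 / 20) →
      (q = 0 ∨ q = 1 ∨ s = 9 / 20 ∨ s = 11 / 20) → q ∈ Icc (0 : ℝ) 1 → cc q s = D'.c s := by
    intro q s h h' hq
    rw [dd hs hM h]
    rcases h' with h' | h' | h' | h'
    · rw [h', hM.loop.start]
    · rw [h', hM.loop.stop]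
    · exact hM.loop.froz q hq s (Or.inl (by rw [hs.hat.m₀]; exact h'.le))
    · exact hM.loop.froz q hq s (Or.inr (by rw [hs.hat.m₁]; exact h'.ge))
  refine wr_of_sh2 hHCL hW l1 (loop' hs hM) (f := fun q s => cc (step (step (step q))) s)
    ?_ ?_ hcls hχ'
  · refine ⟨fun z => k (1 - z.1, cc (step (step (step z.2.1))) z.2.2), ?_, ?_, ?_⟩
    · rw [hs.hat'.m₀, hs.hat'.m₁]
      refine hk1.comp (f := fun z : ℝ × ℝ × ℝ => (1 - z.1, cc (step (step (step z.2.1))) z.2.2))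
        ?_ ?_
      · apply Continuous.continuousOn
        refine (continuous_const.sub continuous_fst).prodMk ?_
        exact hcc.comp (f := fun z : ℝ × ℝ × ℝ => (step (step (step z.2.1)), z.2.2))
          ((hst.comp (hst.comp (hst.comp (continuous_fst.comp continuous_snd)))).prodMk
            (continuous_snd.comp continuous_snd))
      · rintro ⟨u, q, s⟩ ⟨hu, hq, h⟩
        simp only at hu hq h
        exact ⟨⟨by linarith [hu.2], by linarith [hu.1]⟩, cc_mem hs hM (step_mem _) h⟩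
    · intro q hq s h
      rw [hs.hat'.m₀, hs.hat'.m₁] at h
      have h3 := hk2 _ (cc_mem hs hM (q := step (step (step q))) (step_mem _) h)
      show k (1 - 0, cc (step (step (step q))) s) = lo D' A' q s ∧
        k (1 - 1, cc (step (step (step q))) s) = cc (step (step (step q))) s
      rw [sub_zero, sub_self, h3.1, h3.2, hval q s h]
      exact ⟨rfl, rfl⟩
    · intro u hu q hq s h
      rw [hs.hat'.m₀, hs.hat'.m₁] at h ⊢
      have h3 := cc_mem hs hM (q := step (step (step q))) (step_mem _) h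
      have hu' : 1 - u ∈ Icc (0 : ℝ) 1 := ⟨by linarith [hu.2], by linarith [hu.1]⟩
      obtain ⟨h4, h5⟩ := hk3 (1 - u) hu' _ h3
      refine ⟨h4, fun hb => ?_⟩
      show k (1 - u, cc (step (step (step q))) s) = D'.c s
      have hb' : step (step (step q)) = 0 ∨ step (step (step q)) = 1 ∨ s = 9 / 20 ∨
          s = 11 / 20 := by
        rcases hb with hb | hb | hb | hb
        · left; rw [hb, st0]
        · right; left; rw [hb, st1]
        · right; right; left; exact hb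
        · right; right; right; exact hb
      have e := hbd _ s h hb' (step_mem _)
      have h6 := hmid s h
      rw [h5 ?_, e]
      rw [e, (hz s h6).1]
      exact (mem_A hs).2 ⟨s, ⟨h6.1.le, h6.2.le⟩, rfl⟩
  · refine ⟨fun z => cc ((1 - z.1) * step (step (step z.2.1)) + z.1 * z.2.1) z.2.2, ?_, ?_, ?_⟩
    · apply Continuous.continuousOn
      refine hcc.comp (f := fun z : ℝ × ℝ × ℝ =>
        ((1 - z.1) * step (step (step z.2.1)) + z.1 * z.2.1, z.2.2)) ?_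
      have h3 : Continuous fun z : ℝ × ℝ × ℝ => step (step (step z.2.1)) :=
        hst.comp (hst.comp (hst.comp (continuous_fst.comp continuous_snd)))
      fun_prop
    · intro q hq s h
      rw [hs.hat'.m₀, hs.hat'.m₁] at h
      refine ⟨by simp, ?_⟩
      show cc ((1 - 1) * step (step (step q)) + 1 * q) s = cc q s + (D'.c s - D.c s)
      rw [dd hs hM h, sub_self, sub_self, add_zero, zero_mul, zero_add, one_mul]
    · intro u hu q hq s h
      rw [hs.hat'.m₀, hs.hat'.m₁] at h ⊢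
      have hv : (1 - u) * step (step (step q)) + u * q ∈ Icc (0 : ℝ) 1 := by
        obtain ⟨h3, h4⟩ := step_mem (step (step q))
        obtain ⟨u0, u1⟩ := hu
        obtain ⟨q0, q1⟩ := hq
        constructor <;> nlinarith
      constructor
      · show cc ((1 - u) * step (step (step q)) + u * q) s ∈ D'.U
        have h1 := (cc_mem hs hM hv h).1
        rw [hs.hat'.U]
        intro h2
        exact h1 (image_mono subset_union_left h2)
      · intro hb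
        show cc ((1 - u) * step (step (step q)) + u * q) s = D'.c s
        refine hbd _ s h ?_ hv
        rcases hb with hb | hb | hb | hb
        · left; rw [hb, st0]; ring
        · right; left; rw [hb, st1]; ring
        · right; right; left; exact hb
        · right; right; right; exact hb

end sys

end XL

end Pool.Agent.Helper27.S5


end

/-! ## Helper27.BI.S5.XLf -/

section

/-!
# Project BI, stage 5: the module XL, assembly
-/

set_option autoImplicit false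
set_option linter.unusedSectionVars false

open scoped Manifold ContDiff Topology ComplexConjugate
open Set Filter Pool.Agent.Helper65.Barb Pool.Agent.Helper18.BI
open Pool.Agent.Helper70.BI (I4 LD NearEq IsW ld_iff embOn_comp ld_dfam contDiff_dfam
  contDiff_dfam_inv StMWL)
open Pool.Agent.Helper27.BI (e1)
open Pool.Agent.Helper27.H
open Pool.Agent.Helper18.BI.R (LoopOK SH StHCL HasCl shp)

namespace Pool.Agent.Helper27.S5

namespace XL

section sys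
variable {G T T' : R4 → R4} {δ δ' κ β c : ℝ} {D D' : ArcD} {H : DFam 𝓘(ℝ, R4) R4} {a b : ℝ}
  (hs : Sys G T T' δ δ' κ β c D D' H a b)
  {cc : ℝ → ℝ → R4} {F : DFam 𝓘(ℝ, R4) R4} (hM : Mov G δ' κ β c D cc F a b)
include hs

/-- the second wall is the first wall of a small copy -/
theorem wall2_eq : (fun p => G (sg κ β p)) '' wallS δ' = G '' wall2 δ' κ β := by
  have h : sg κ β '' wallS δ' = wall2 δ' κ β := by
    ext p
    constructor
    · rintro ⟨q, hq, rfl⟩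
      show sgi κ β (sg κ β q) ∈ wallS δ'
      rw [Geo.sgi_sg hs.par.k0]
      exact hq
    · intro hp
      exact ⟨sgi κ β p, hp, Geo.sg_sgi hs.par.k0 β p⟩
  rw [← h, image_image]

theorem emb_sg : EmbOn I4 (fun p => G (sg κ β p)) Bq := by
  have k0 := hs.par.k0
  have h1 : EmbOn I4 (sg κ β) Bq := by
    refine ⟨fun p _ => Geo.ld_of_inv (Geo.contDiff_sg κ β) (Geo.contDiff_sgi κ β)
      (Geo.sgi_sg k0 β) (Geo.sg_sgi k0 β) p, fun p _ q _ h => ?_⟩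
    rw [← Geo.sgi_sg k0 β p, h, Geo.sgi_sg k0]
  refine embOn_comp hs.emb h1 ?_
  rintro p ⟨h2, h3, h4⟩
  have e : nsq ((sg κ β p).2 - P2 β) = κ ^ 2 * rsq 1 p := by
    have := Geo.nsq_sgi k0 β (sg κ β p)
    rwa [Geo.sgi_sg k0] at this
  have h5 : nsq ((sg κ β p).2 - P2 β) ≤ κ ^ 2 := by
    rw [e]
    have : 0 < κ ^ 2 := by positivity
    nlinarith
  have h6 := Geo.rsq_lo hs.par h5
  have h7 := Geo.rsq_hi hs.par h5
  have d0 := (Geo.hδ' hs.par).1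
  have d1 := hs.par.d0
  set q : R4 := sg κ β p with hq
  have hq1 : q.1 = p.1 := rfl
  rw [Geo.rsq1] at h7
  have a1 : |q.2.1 - 1| ≤ 1 / 5 := by
    apply abs_le_of_sq_le_sq _ (by norm_num)
    nlinarith [sq_nonneg q.2.2.re, sq_nonneg q.2.2.im]
  rw [abs_le] at a1
  have e0 : rsq 0 q = q.2.1 ^ 2 + q.2.2.re ^ 2 + q.2.2.im ^ 2 := by
    rw [rsq0_eq, Geo.nsq_def]
  refine ⟨⟨by rw [hq1]; linarith, by rw [hq1]; linarith, ?_⟩, ?_, by linarith⟩
  · rw [e0]; nlinarith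
  · rw [e0]; nlinarith [sq_nonneg q.2.2.re, sq_nonneg q.2.2.im]

include hM

/-- the second factor -/
theorem factor2 (hPF : StPF) (hTCF : StTCF) (hJO : StJO) (hN2 : StN2) (hHCL : StHCL)
    {S S' M M' : R4 → R4} {D₂ : ArcD} (hS : SHat c S S') (hMO : MOk δ' H S' M M')
    (hD2 : D2Ok G M M' δ' κ β a b D₂) {A B : DFam 𝓘(ℝ, R4) R4} (hB0 : ∀ x, B.f (0, x) = x)
    (hA : SuppU (U2 G δ' κ β \ A2 G H β a b) A) (hB : SuppU (U2 G δ' κ β \ D'.A) B)
    (hAB : ∀ t x, A.f (t, B.f (t, x)) = F.f (step (step t), x))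
    {K' : Set R4} (hK' : IsCompact K') (hK's : K' ⊆ U2 G δ' κ β \ (D'.A ∪ A2 G H β a b))
    (hBK : ∀ x, x ∉ K' → B.f (1, x) = x) {W : R4 → R4} (hW : IsW W) :
    CIsot I4 (imp (EE G H δ' κ β) K' (fun x => B.f (1, x)))
      (imp (EE G H δ' κ β) K' (fun x => B.f (1, x))) ∧
    (CIsot I4 (fun x => x) (imp (EE G H δ' κ β) K' (fun x => B.f (1, x))) ∨
      CIsot I4 (fun x => x) (fun x => W (imp (EE G H δ' κ β) K' (fun x => B.f (1, x)) x))) := by
  set E : R4 → R4 := imp (EE G H δ' κ β) K' (fun x => B.f (1, x)) with hE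
  obtain ⟨hjo, hjom, hjof, hjoc⟩ := hJO G T T' S S' M M' δ δ' κ β c D D' D₂ H a b hs hS hMO hD2
  obtain ⟨h1, h2⟩ := hjoc K' _ _ hK' hK's (sdiff_of hBK)
  have hEE : CIsot I4 E E := ci_trans h2 (ci_symm h2)
  have hK'2 : K' ⊆ U2 G δ' κ β \ D'.A := fun x hx =>
    ⟨(hK's hx).1, fun h => (hK's hx).2 (Or.inl h)⟩
  obtain ⟨B', b1, b2, b3, b4, b5⟩ := pc hPF hTCF hjo hjom hB0 hB hK' hK'2 hBK h1 h2
  have hz : ∀ s ∈ Ioo D₂.s₀ D₂.s₁, s ∈ Ioo a b ∧ D₂.c s = jo G S' δ' κ β (G (s, z2 c β s)) ∧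
      G (s, z2 c β s) ∈ U2 G δ' κ β \ D'.A := by
    intro s h
    have h' : s ∈ Ioo a b := by rw [← hD2.s₀, ← hD2.s₁]; exact h
    refine ⟨h', ?_, z2_U2 hs h', z2_nA hs ⟨h'.1.le, h'.2.le⟩⟩
    rw [← D₂.core s ⟨h.1.le, h.2.le⟩, (hjof s h').self_of_nhds]
    show jo G S' δ' κ β (G (H.f (1, (s, P2 β + 0)))) = _
    rw [add_zero, H_z2 hs]
  have hBx : ∀ t, ∀ s ∈ Ioo a b, (s < 9 / 20 ∨ 11 / 20 < s) →
      B.f (t, G (s, z2 c β s)) = G (s, z2 c β s) := by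
    intro t s h h'
    have h3 : s ∈ Icc a b := ⟨h.1.le, h.2.le⟩
    obtain ⟨K, -, hKs, hAK⟩ := hA
    have hn : G (s, z2 c β s) ∉ K := fun h4 => (hKs h4).2 ((mem_A2 hs).2 ⟨s, h3, rfl⟩)
    have e1 := hAB t (G (s, z2 c β s))
    rw [F_z2_fro hs hM h3 h' (step_mem _)] at e1
    have e2 := A.gf t (B.f (t, G (s, z2 c β s)))
    rw [e1] at e2
    have e3 := A.gf t (G (s, z2 c β s))
    rw [hAK t _ hn] at e3
    rw [← e2, e3]
  obtain ⟨l1, l2⟩ := lo_spec b1 b2 b4 (by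
    intro t s h h'
    rw [hD2.m₀, hD2.m₁] at h'
    obtain ⟨g1, g2, g3⟩ := hz s h
    rw [g2, b3 t _ g3, hBx t s g1 h'])
  have hcls : D₂.Cls (lo D₂ B') E := cls_congr b5 l2
  refine ⟨hEE, ?_⟩
  have hnull := hN2 δ' (fun p => G (sg κ β p)) D₂ (lo D₂ B') (Geo.hδ' hs.par) (emb_sg hs)
    (by rw [hD2.U, wall2_eq hs]) l1
  exact wr_of_sh hHCL hW l1 (loopOK_const D₂) hnull hcls (hCls D₂).2.2.2.2.2

end sys

end XL

open XL

/-- **XL.** -/
theorem m_XL (hTHAT : StTHAT) (hARC2 : StARC2) (hSHAT : StSHAT) (hMH : StMH) (hD2 : StD2)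
    (hEXA : StEXA) (hSPL : StSPL) (hE1 : StE1) (hIO1 : StIO1) (hIO2 : StIO2) (hIO3 : StIO3)
    (hJO : StJO) (hPF : StPF) (hTCF : StTCF) (hN2 : StN2) (hHCL : StHCL) (hMWL : StMWL) :
    StXL := by
  intro G T T' δ δ' κ β D D' cc W χ χ' hW hp hfb hG hD hD' hcc hX hemb hcurv hχ hχ'
  obtain ⟨F, F0, hFs, hFt, ⟨N, hN, hsN, hN1, hN2'⟩, hFK⟩ :=
    m_XF' G T' δ δ' κ β D cc χ hp hG hD hcc hX hemb hχ
  obtain ⟨n, hn⟩ := exists_n hN hsN
  set c : ℝ := 1 / ((n : ℝ) + 2) with hc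
  have hc0 : 0 < c := by positivity
  have hc1 : c < 1 := by
    rw [hc, div_lt_one (by positivity)]
    have : (0 : ℝ) ≤ n := by positivity
    linarith
  have hb : 0 < β := hp.k0.trans hp.k1
  have hb1 : β < 1 / 5 := by linarith [Geo.num_hi hp, hp.k0]
  have hk1 : κ < 1 := by linarith [Geo.num_k hp]
  obtain ⟨H, hH⟩ := hTHAT T T' hfb c ⟨hc0, hc1⟩
  obtain ⟨a, b, hab⟩ := hARC2 δ' κ (Geo.hδ' hp) ⟨hp.k0, hk1⟩
  have hs : Sys G T T' δ δ' κ β c D D' H a b := ⟨hp, hfb, hG, hD, hD', ⟨hc0, hc1⟩, hH, hab⟩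
  obtain ⟨S, S', hS⟩ := hSHAT T T' hfb c ⟨hc0, hc1⟩
  obtain ⟨M, M', hMO⟩ := hMH T S S' δ' c H (Geo.hδ' hp) ⟨hc0, hc1⟩ hH hS
  obtain ⟨D₂, hD₂⟩ := hD2 G T T' S S' M M' δ δ' κ β c D D' H a b hs hS hMO
  have hM : Mov G δ' κ β c D cc F a b := by
    refine ⟨F0, hFs, hFt, ?_, ?_, hX, ?_, hcc⟩
    · intro s h y hy
      obtain ⟨h1, h2⟩ := hn s h y hy
      have hb27 : bfin s = 27 / 100 := bfin_mid ⟨by linarith [h.1], by linarith [h.2]⟩
      have hK : (s, z0 s + y) ∈ K3 δ' := by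
        apply Geo.Reg_K3
        rw [Geo.nsq_def] at h2
        have y1 : |y.1| ≤ 1 / 50 := by
          apply abs_le_of_sq_le_sq _ (by norm_num)
          nlinarith [sq_nonneg y.2.re, sq_nonneg y.2.im]
        rw [abs_le] at y1
        have e : rsq 1 (s, z0 s + y) = (-(27 / 100) + y.1) ^ 2 + y.2.re ^ 2 + y.2.im ^ 2 := by
          rw [Geo.rsq1, Geo.z0_def, hb27]
          simp only [Prod.fst_add, Prod.snd_add, Complex.add_re, Complex.add_im, Complex.zero_re,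
            Complex.zero_im]
          ring
        have d0 := (Geo.hδ' hp).1
        refine ⟨by linarith [h.1], by linarith [h.2], ?_, ?_⟩
        · rw [e]
          nlinarith [sq_nonneg y.2.re, sq_nonneg y.2.im]
        · rw [e]
          nlinarith [sq_nonneg y.1]
      apply ld_eventually (hG.1 _ hK)
      have hcont : Continuous fun q : R4 => ((q.1, q.2 - z0 q.1) : R4) := by
        have := contDiff_z0.continuous
        fun_prop
      have hmem : ((s, (z0 s + y) - z0 s) : R4) ∈ N := by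
        rw [add_sub_cancel_left]
        exact h1
      have hev : ∀ᶠ q in 𝓝 ((s, z0 s + y) : R4), ((q.1, q.2 - z0 q.1) : R4) ∈ N :=
        hcont.continuousAt.eventually (hN.mem_nhds hmem)
      filter_upwards [hev] with q hq
      have := hN1 _ hq
      simp only [add_sub_cancel] at this
      exact this
    · intro t ht s h h'
      have hl : lam c s = c := Geo.lam_mid c ⟨by linarith [h.1], by linarith [h.2]⟩
      have hy : nsq ((lam c s * β) • eu) ≤ (c * (41 / 200)) ^ 2 := by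
        rw [hl, Pool.Agent.Helper27.H.nsq_smul]
        have : nsq eu = 1 := by simp [Geo.nsq_def, eu]
        rw [this, mul_one]
        apply pow_le_pow_left₀ (by positivity)
        nlinarith
      exact hN2' t ht (s, (lam c s * β) • eu) (hn s h _ hy).1 h'
    · intro q hq s h s' h' e
      by_cases h1 : s' ≤ 11 / 25 ∨ 14 / 25 ≤ s'
      · exact hX q hq s h (e ▸ mem_image_of_mem _ (z2_XX hs h' h1))
      · push Not at h1
        refine hcurv n q hq s h s' ⟨h1.1.le, h1.2.le⟩ ?_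
        rw [e, z2_mid c β ⟨by linarith [h1.1], by linarith [h1.2]⟩]
        have : c * β = β / (n + 2) := by rw [hc]; ring
        rw [this]
  obtain ⟨K, hK, hKX, hKt, hFK1⟩ := exists_K hs hM
  obtain ⟨k1, k2, k3⟩ := hEXA G T T' δ δ' κ β c D D' H a b hs K _ _ hK hKX hKt (sdiff_of hFK1)
  have hχ1 : CIsot I4 χ (imp (EE G H δ' κ β) K (fun x => F.f (1, x))) :=
    ci_trans (hFK K hK k1 hFK1) k3
  obtain ⟨A, B, hA0, hB0, hA, hB, hAt, hAB, hAn, hBn⟩ := split hs hM hSPL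
  obtain ⟨K₁, hK₁, hK₁s, hAK⟩ := shrink hA hAn
  obtain ⟨K₂, hK₂, hK₂s, hBK⟩ := shrink hB hBn
  set K' : Set R4 := K ∪ (K₁ ∪ K₂) with hK'def
  have hK' : IsCompact K' := hK.union (hK₁.union hK₂)
  have hK's : K' ⊆ U2 G δ' κ β \ (D'.A ∪ A2 G H β a b) := by
    rintro x (h | h | h)
    · exact k2 h
    · obtain ⟨⟨h1, h2⟩, h3⟩ := hK₁s h
      exact ⟨h1, fun h4 => h4.elim h3 h2⟩
    · obtain ⟨⟨h1, h2⟩, h3⟩ := hK₂s h
      exact ⟨h1, fun h4 => h4.elim h2 h3⟩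
  have hAK' : ∀ x, x ∉ K' → A.f (1, x) = x := fun x hx => hAK x fun h => hx (Or.inr (Or.inl h))
  have hBK' : ∀ x, x ∉ K' → B.f (1, x) = x := fun x hx => hBK x fun h => hx (Or.inr (Or.inr h))
  have hinj : InjOn (EE G H δ' κ β) K' :=
    (hE1 G T T' δ δ' κ β c D D' H a b hs).2.mono hK's
  set EA : R4 → R4 := imp (EE G H δ' κ β) K' (fun x => A.f (1, x)) with hEA
  set EB : R4 → R4 := imp (EE G H δ' κ β) K' (fun x => B.f (1, x)) with hEB
  have hfac : imp (EE G H δ' κ β) K (fun x => F.f (1, x)) = fun x => EA (EB x) := by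
    have h1 := (hImp R4 R4 I4 R4 (EE G H δ' κ β) K' (fun x => F.f (1, x)) hinj).2.2.1 K
      subset_union_left hFK1
    have h2 := (hImp R4 R4 I4 R4 (EE G H δ' κ β) K' (fun x => B.f (1, x)) hinj).2.2.2.1
      (fun x => A.f (1, x)) (maps_of hBK')
    rw [← h1]
    funext y
    rw [hEA, hEB, ← h2 y]
    congr 1
    funext x
    have h3 := hAB 1 x
    rw [Pool.Agent.Helper27.BI.step_one, Pool.Agent.Helper27.BI.step_one] at h3
    exact h3.symm
  rw [hfac] at hχ1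
  obtain ⟨f1, f2⟩ := factor1 hs hM hPF hTCF hIO1 hIO2 hIO3 hHCL hA0 hA hAt hK' hK's hAK' hW hχ'
  obtain ⟨g1, g2⟩ := factor2 hs hM hPF hTCF hJO hN2 hHCL hS hMO hD₂ hB0 hA hB hAB hK' hK's hBK' hW
  have hWW := IsW.self hW
  have hWsq : ∀ φ : R4 → R4, CIsot I4 φ φ → CIsot I4 (fun x => W (W (φ x))) φ := by
    intro φ hφ
    have h3 := ci_comp hW.sq hφ
    exact h3
  rcases g2 with g2 | g2
  · -- the second factor is trivial
    have h1 : CIsot I4 χ EA := ci_trans hχ1 (ci_symm (ci_comp f1 g2))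
    rcases f2 with f2 | f2
    · exact Or.inl (ci_trans f2 (ci_symm h1))
    · exact Or.inr (ci_trans f2 (ci_comp hWW (ci_symm h1)))
  · -- the second factor is `W`
    have h0 : CIsot I4 EB W := by
      have h2 : CIsot I4 W (fun x => W (W (EB x))) := ci_comp hWW g2
      exact ci_symm (ci_trans h2 (hWsq EB g1))
    have h1 : CIsot I4 χ (fun x => W (EA x)) := by
      have h2 : CIsot I4 (fun x => EA (EB x)) (fun x => EA (W x)) := ci_comp f1 h0
      exact ci_trans hχ1 (ci_trans h2 (ci_symm ((hMWL W hW).1 EA f1)))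
    have h3 : CIsot I4 (fun x => W (χ x)) EA :=
      ci_trans (ci_comp hWW h1) (hWsq EA f1)
    rcases f2 with f2 | f2
    · exact Or.inr (ci_trans f2 (ci_symm h3))
    · exact Or.inl (ci_trans f2 (ci_symm h1))

end Pool.Agent.Helper27.S5


end
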