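import Pool.Agent.Helper65.Barb.Defs
import Pool.Agent.Helper70.BI.C.P13

/-!
# Project BI (MP_8e98f2_gt): collected modules, part 33

The contents of the modules
* Helper18.BI.H.StF3
* Helper34.BI.H.M_SMH
* Helper70.BI.M_OB0

in one file, so that the whole proof builds in a short time.
-/

namespace Pool.Agent.Helper18.BI
end Pool.Agent.Helper18.BI

namespace Pool.Agent.Helper18.BI.H
end Pool.Agent.Helper18.BI.H

namespace Pool.Agent.Helper27.BI
end Pool.Agent.Helper27.BI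

namespace Pool.Agent.Helper65.Barb
end Pool.Agent.Helper65.Barb

namespace Pool.Agent.Helper70.BI
end Pool.Agent.Helper70.BI


/-! ## Helper18.BI.H.StF3 -/

section

/-!
# Project BI, stage 3 (H): consequences and the transfer to the 4-sphere

Statements (as `Prop` definitions) with complete proofs in the docstrings.  A module `M_X` proves
`theorem m_X : StX` (possibly from other statements as hypotheses `(h : StY)`).
-/

set_option autoImplicit false

open scoped Manifold ContDiff Topology ComplexConjugate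
open Set Pool.Agent.Helper65.Barb Pool.Agent.Helper18.BI
open Pool.Agent.Helper70.BI (I4 IsW MW)

namespace Pool.Agent.Helper18.BI.H

/-- **HC.** (H) for `R4`, for both cuffs: the cuff `sph c` is fixed, the cuff `sph d` is moved by a homotopy. -/
def StHC : Prop :=
  ∀ (F F' : R4 → R4) (U : Set R4) (h : ℝ × R4 → R4) (W : R4 → R4) (c d : ℝ), IsW W →
    (c = 0 ∧ d = 1 ∨ c = 1 ∧ d = 0) → EmbOn I4 F SP → EmbOn I4 F' SP → IsOpen U → sph c ⊆ U →
    EqOn F F' U → ContinuousOn h (Icc (0 : ℝ) 1 ×ˢ sph d) → (∀ p ∈ sph d, h (0, p) = F p) →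
    (∀ p ∈ sph d, h (1, p) = F' p) → (∀ u ∈ Icc (0 : ℝ) 1, ∀ p ∈ sph d, h (u, p) ∉ F '' sph c) →
    MW W F F'

/-- **NULC.** A germ one of whose cuffs is null-homotopic in the complement of the other one has class `1` or `W`
(from `StNUL`, `StHC`; swap). -/
def StNULC : Prop :=
  ∀ (F : R4 → R4) (h : ℝ × R4 → R4) (y : R4) (W φ : R4 → R4) (c d : ℝ), IsW W →
    (c = 0 ∧ d = 1 ∨ c = 1 ∧ d = 0) → EmbOn I4 F SP →
    ContinuousOn h (Icc (0 : ℝ) 1 ×ˢ sph d) → (∀ p ∈ sph d, h (0, p) = F p) →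
    (∀ p ∈ sph d, h (1, p) = y) → (∀ u ∈ Icc (0 : ℝ) 1, ∀ p ∈ sph d, h (u, p) ∉ F '' sph c) →
    Thin I4 F φ → CIsot I4 φ (fun x => x) ∨ CIsot I4 φ W

/-- **NUL** (null-homotopic cuffs).  If the cuff `sph 0` is null-homotopic in the complement of the cuff `sph 1`, the
germ is connected by a homotopy as in (H) to a germ with trivial class.
Proof.  `T a = step (20 a - 14)` (`step (2 a' - 1)`-like: `0` for `a ≤ 7/10`, `1` for `a ≥ 3/4`), `0 < r < 1/50`,
`k a = T a * a + (1 - T a) * (3/5 + 5 r a)`, `m a = T a + (1 - T a) * 5 r`, `κ (s, a, w) = (s, k a, m a • w)`.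
`k' > 0` for `1/5 ≤ a` (for `7/10 ≤ a ≤ 3/4` the term with `T' ≥ 0` is `T' (a - 3/5 - 5 r a)`, and `a - 3/5 - 5 r a > 0`), `m > 0`, so `κ` is a
local diffeomorphism at the points of `SP` (`Pool.Agent.Helper70.BI.ld_iff`; triangular derivative), injective on `flat 0 ∪ sph 1 ∪ neck`, the
identity near `sph 1`, maps `flat 0` to the flat ball of radius `r` around `(1/2, (3/5, 0))` and `neck` into `neck`.  `F` is injective and a local diffeomorphism on
an open set containing `SP` (`StA1`), so for small `r` (compactness) `F' = F ∘ κ` is `EmbOn` on `flat 0 ∪ sph 1 ∪ neck`, hence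
`Thin F' id` by `StVanT` (`Pool.Agent.Helper27.BI.hVanT`).  The homotopy `h'` is the concatenation (`u ∈ [0,1/4]`, ...) of
`h`, of `h (1 - v, foot0)` (constant in `p`), of the path `F (bar (1/5 + 2/5 v))` (constant in `p`) and of the homotopy
`F (1/2, ((3/5, 0) + v * 5 r • p.2))`; continuous by `ContinuousOn.union_of_isClosed` or `ContinuousOn.if`; off `F '' sph 1` by the injectivity of `F` on
the open set (`bar a ∉ sph 1` for `a < 4/5`; the small flat ball is disjoint from `sph 1`). -/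
def StNUL : Prop :=
  ∀ (F : R4 → R4) (h : ℝ × R4 → R4) (y : R4), EmbOn I4 F SP →
    ContinuousOn h (Icc (0 : ℝ) 1 ×ˢ sph 0) → (∀ p ∈ sph 0, h (0, p) = F p) →
    (∀ p ∈ sph 0, h (1, p) = y) → (∀ u ∈ Icc (0 : ℝ) 1, ∀ p ∈ sph 0, h (u, p) ∉ F '' sph 1) →
    ∃ (F' : R4 → R4) (U : Set R4) (h' : ℝ × R4 → R4), EmbOn I4 F' SP ∧ IsOpen U ∧ sph 1 ⊆ U ∧
      EqOn F F' U ∧ ContinuousOn h' (Icc (0 : ℝ) 1 ×ˢ sph 0) ∧ (∀ p ∈ sph 0, h' (0, p) = F p) ∧
      (∀ p ∈ sph 0, h' (1, p) = F' p) ∧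
      (∀ u ∈ Icc (0 : ℝ) 1, ∀ p ∈ sph 0, h' (u, p) ∉ F '' sph 1) ∧
      Thin I4 F' (fun x => x)

/-- **SMH** (smoothing a homotopy in the 4-sphere, only the emptiness of the interior of the image is used).
Proof.  `S4` is the unit sphere of `R⁵ = EuclideanSpace ℝ (Fin 5)`.  By compactness there is `ρ ∈ (0, 1/8)` with
`8 ρ ≤ dist (h (u, p)) y` for `u ∈ [0,1]`, `p ∈ sph d`, `y ∈ K`.  `ĥ : ℝ × R4 → R⁵` continuous with `ĥ = h` on `[0,1] × sph d` (Tietze,
`ContinuousMap.exists_restrict_eq` / `ContinuousOn` version on the closed set), `g : ℝ × R4 → R⁵` smooth with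
`‖g - ĥ‖ ≤ ρ` (`Continuous.exists_contDiff_approx_and_eqOn` with `S = ∅`, or the version used in `M_SM.lean`).  For `p ∈ sph d` put
`v (u, p) = (1 - 3u) b p + 3u g (0, p)` for `u ≤ 1/3`, `g (3u - 1, p)` for `1/3 ≤ u ≤ 2/3`, `(3 - 3u) g (1, p) + (3u - 2) b' p` for `2/3 ≤ u`; its distance
to `h (0, p)`, `h (3u - 1, p)`, `h (1, p)` respectively is `≤ ρ`, so `‖v‖ ≥ 7/8` and `h' = v / ‖v‖` (as a point of `S4`) is within `2 ρ`·2 of the same
point, off `K`.  Image: it is the union of three compact sets `E_j`, the images of `[0,1] × sph d` under three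
maps `v_j / ‖v_j‖`, `v_j` smooth near `[0,1] × sph d`.  `interior E_j = ∅`: let `σ : ℝ × ℝ → R4` be the smooth parametrization of
`sph d` by spherical coordinates (onto), and `f_j (r, u, θ, ψ) = r • v_j (u, σ (θ, ψ))`, `C^∞` on the open set of
`(r, u, θ, ψ)` with `v_j` smooth there, from a space of dimension `4` to `R⁵`, so the image of a subset has
dense complement (`ContDiffOn.dense_compl_image_of_dimH_lt_finrank`, with `dimH ≤ 4 < 5`; or `ContDiff.dense_compl_range_of_finrank_lt_finrank` after making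
`v_j` globally smooth by a cutoff: replace `b`, `b'` by globally smooth functions `R4 → R⁵` equal to them on `sph d`, `exists_contMDiff..`/extension by a bump function).
It contains the cone `{r y | r > 0, y ∈ E_j}`; if `O ⊆ E_j` is open and nonempty in `S4` then the cone over `O` is open and nonempty in `R⁵` (preimage of `O` under the
continuous map `x ↦ x/‖x‖` on `x ≠ 0`), a contradiction.  Union of three closed sets: `interior_union_isClosed_of_interior_empty`. -/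
def StSMH : Prop :=
  ∀ (b b' : R4 → S4) (h : ℝ × R4 → S4) (K : Set S4) (d : ℝ), IsCompact K →
    (∀ p ∈ sph d, ContMDiffAt 𝓘(ℝ, R4) (𝓡 4) ∞ b p) →
    (∀ p ∈ sph d, ContMDiffAt 𝓘(ℝ, R4) (𝓡 4) ∞ b' p) →
    ContinuousOn h (Icc (0 : ℝ) 1 ×ˢ sph d) → (∀ p ∈ sph d, h (0, p) = b p) →
    (∀ p ∈ sph d, h (1, p) = b' p) → (∀ u ∈ Icc (0 : ℝ) 1, ∀ p ∈ sph d, h (u, p) ∉ K) →
    ∃ h' : ℝ × R4 → S4, ContinuousOn h' (Icc (0 : ℝ) 1 ×ˢ sph d) ∧ (∀ p ∈ sph d, h' (0, p) = b p) ∧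
      (∀ p ∈ sph d, h' (1, p) = b' p) ∧ (∀ u ∈ Icc (0 : ℝ) 1, ∀ p ∈ sph d, h' (u, p) ∉ K) ∧
      interior (h' '' (Icc (0 : ℝ) 1 ×ˢ sph d)) = ∅

/-! ### the 4-sphere -/

/-- the class `W` in the 4-sphere: properties which do not involve barbells -/
def IsW4 (W : S4 → S4) : Prop :=
  (∃ (B₀ δ₀ : PartialDiffeomorph 𝓘(ℝ, R4) (𝓡 4) R4 S4 ∞), NB ⊆ B₀.source ∧
    flat 0 ∪ flat 1 ⊆ δ₀.source ∧ (∀ p ∈ sph 0 ∪ sph 1, δ₀ p = B₀ p) ∧
      W = implantation B₀ barMap) ∧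
  Isot (𝓡 4) (fun x => W (W x)) (fun x => x) ∧
  ∀ Ψ Ψ' : S4 → S4, ContMDiff (𝓡 4) (𝓡 4) ∞ Ψ → ContMDiff (𝓡 4) (𝓡 4) ∞ Ψ' →
      (∀ x, Ψ (Ψ' x) = x) → (∀ x, Ψ' (Ψ x) = x) → Isot (𝓡 4) (fun x => Ψ (W (Ψ' x))) W

/-- equal up to isotopy and `W` -/
def UpTo (W φ ψ : S4 → S4) : Prop := Isot (𝓡 4) φ ψ ∨ Isot (𝓡 4) φ (fun x => W (ψ x))

/-- **THE MAIN THEOREM OF STAGE 3.** -/
def StFinal3 : Prop :=
  ∃ W : S4 → S4, IsW4 W ∧
    ∀ (B : PartialDiffeomorph 𝓘(ℝ, R4) (𝓡 4) R4 S4 ∞) (β : R4 → R4) (c d : ℝ),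
      NB ⊆ B.source → IsBarbellMap β → (c = 0 ∧ d = 1 ∨ c = 1 ∧ d = 0) →
      -- homotopy invariance
      (∀ (B' : PartialDiffeomorph 𝓘(ℝ, R4) (𝓡 4) R4 S4 ∞) (β' : R4 → R4) (U : Set R4)
        (h : ℝ × R4 → S4), NB ⊆ B'.source → IsBarbellMap β' → IsOpen U → sph c ⊆ U → EqOn B B' U →
        ContinuousOn h (Icc (0 : ℝ) 1 ×ˢ sph d) → (∀ p ∈ sph d, h (0, p) = B p) →
        (∀ p ∈ sph d, h (1, p) = B' p) →
        (∀ u ∈ Icc (0 : ℝ) 1, ∀ p ∈ sph d, h (u, p) ∉ B '' sph c) →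
        UpTo W (implantation B' β') (implantation B β)) ∧
      -- null-homotopic cuffs
      (∀ (h : ℝ × R4 → S4) (y : S4), ContinuousOn h (Icc (0 : ℝ) 1 ×ˢ sph d) →
        (∀ p ∈ sph d, h (0, p) = B p) → (∀ p ∈ sph d, h (1, p) = y) →
        (∀ u ∈ Icc (0 : ℝ) 1, ∀ p ∈ sph d, h (u, p) ∉ B '' sph c) →
        UpTo W (implantation B β) (fun x => x))

end Pool.Agent.Helper18.BI.H


end

/-! ## Helper34.BI.H.M_SMH -/

section

/-!
# Project BI, stage 3 (H), module SMH: smoothing a homotopy in the 4-sphere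
-/

set_option autoImplicit false

open scoped Manifold ContDiff Topology ComplexConjugate
open Set Filter Pool.Agent.Helper65.Barb Pool.Agent.Helper18.BI Pool.Agent.Helper18.BI.H

namespace Pool.Agent.Helper34.BI.H

namespace SMH

/-- five-space -/
abbrev E5 : Type := EuclideanSpace ℝ (Fin 5)

/-- extension of a function which is `C¹` near a compact set -/
theorem exists_ext {f : R4 → E5} {K : Set R4} (hK : IsCompact K)
    (hf : ∀ p ∈ K, ContDiffAt ℝ 1 f p) : ∃ g : R4 → E5, ContDiff ℝ 1 g ∧ EqOn g f K := by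
  have hU : IsOpen {p | ContDiffAt ℝ 1 f p} :=
    isOpen_iff_mem_nhds.2 fun p hp => ContDiffAt.eventually hp (by simp)
  obtain ⟨L, hL, hKL, hLU⟩ := exists_compact_between hK hU hf
  obtain ⟨χ, h1, h2, -⟩ := exists_contMDiffMap_one_nhds_of_subset_interior (n := 1) 𝓘(ℝ, R4)
    hK.isClosed hKL
  have hχ : ContDiff ℝ 1 (fun p => χ p) := contMDiff_iff_contDiff.1 χ.contMDiff
  refine ⟨fun p => χ p • f p, contDiff_iff_contDiffAt.2 fun p => ?_, fun p hp => ?_⟩
  · by_cases hp : p ∈ L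
    · exact hχ.contDiffAt.smul (hLU hp)
    · have h3 : ∀ᶠ q in 𝓝 p, χ q • f q = 0 := by
        filter_upwards [hL.isClosed.isOpen_compl.mem_nhds hp] with q hq
        rw [h2 q hq, zero_smul]
      exact contDiffAt_const.congr_of_eventuallyEq h3
  · have h4 : χ p = 1 := h1.self_of_nhdsSet p hp
    show χ p • f p = f p
    rw [h4, one_smul]

theorem isClosed_sph (d : ℝ) : IsClosed (sph d) :=
  IsClosed.inter (isClosed_eq continuous_fst continuous_const)
    (isClosed_eq (by unfold rsq nsq; fun_prop) continuous_const)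

theorem isCompact_sph (d : ℝ) : IsCompact (sph d) := by
  refine Metric.isCompact_of_isClosed_isBounded (isClosed_sph d) ?_
  refine (Metric.isBounded_closedBall (x := (0 : R4)) (r := |d| + 1)).subset ?_
  rintro p ⟨h1, h2⟩
  have h3 : (p.2.1 - d) ^ 2 + p.2.2.re ^ 2 + p.2.2.im ^ 2 = 1 / 25 := h2
  have h4 : |p.2.1 - d| ≤ 1 := by
    rw [abs_le]
    constructor <;> nlinarith [sq_nonneg p.2.2.re, sq_nonneg p.2.2.im]
  have h5 : ‖p.2.2‖ ≤ 1 := by
    have h6 : ‖p.2.2‖ ^ 2 = p.2.2.re ^ 2 + p.2.2.im ^ 2 := by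
      rw [← Complex.normSq_eq_norm_sq, Complex.normSq_apply]
      ring
    nlinarith [norm_nonneg p.2.2, sq_nonneg (p.2.1 - d)]
  rw [mem_closedBall_zero_iff]
  have h7 : ‖p.1‖ ≤ |d| + 1 := by
    rw [h1]
    have := abs_nonneg d
    rw [Real.norm_eq_abs, abs_of_pos (by norm_num)]
    linarith
  have h8 : ‖p.2.1‖ ≤ |d| + 1 := by
    rw [Real.norm_eq_abs]
    have := abs_sub_abs_le_abs_sub p.2.1 d
    linarith
  have h9 : ‖p.2.2‖ ≤ |d| + 1 := by
    have := abs_nonneg d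
    linarith
  exact norm_prod_le_iff.2 ⟨h7, norm_prod_le_iff.2 ⟨h8, h9⟩⟩

/-- spherical coordinates -/
noncomputable def sg (d : ℝ) (a : ℝ × ℝ) : R4 :=
  (1 / 2, (d + Real.cos a.1 / 5, (((Real.sin a.1 / 5 : ℝ) : ℂ)) * Complex.exp (a.2 * Complex.I)))

theorem contDiff_sg (d : ℝ) : ContDiff ℝ 1 (sg d) := by
  unfold sg
  refine contDiff_const.prodMk (ContDiff.prodMk ?_ ?_)
  · exact contDiff_const.add ((Real.contDiff_cos.comp contDiff_fst).div_const _)
  · refine ContDiff.mul ?_ ?_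
    · exact Complex.ofRealCLM.contDiff.comp ((Real.contDiff_sin.comp contDiff_fst).div_const _)
    · exact ((Complex.ofRealCLM.contDiff.comp contDiff_snd).mul contDiff_const).cexp

theorem sg_surj {d : ℝ} {p : R4} (hp : p ∈ sph d) : ∃ a, sg d a = p := by
  obtain ⟨h1, h2⟩ := hp
  have h3 : (p.2.1 - d) ^ 2 + p.2.2.re ^ 2 + p.2.2.im ^ 2 = 1 / 25 := h2
  have h6 : ‖p.2.2‖ ^ 2 = p.2.2.re ^ 2 + p.2.2.im ^ 2 := by
    rw [← Complex.normSq_eq_norm_sq, Complex.normSq_apply]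
    ring
  have h7 : -1 ≤ 5 * (p.2.1 - d) := by nlinarith [sq_nonneg p.2.2.re, sq_nonneg p.2.2.im]
  have h8 : 5 * (p.2.1 - d) ≤ 1 := by nlinarith [sq_nonneg p.2.2.re, sq_nonneg p.2.2.im]
  refine ⟨(Real.arccos (5 * (p.2.1 - d)), Complex.arg p.2.2), ?_⟩
  have hc : Real.cos (Real.arccos (5 * (p.2.1 - d))) = 5 * (p.2.1 - d) := Real.cos_arccos h7 h8
  have hs : Real.sin (Real.arccos (5 * (p.2.1 - d))) = 5 * ‖p.2.2‖ := by
    rw [Real.sin_arccos]
    rw [show 1 - (5 * (p.2.1 - d)) ^ 2 = (5 * ‖p.2.2‖) ^ 2 by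
      rw [mul_pow 5 ‖p.2.2‖, h6]; linarith]
    exact Real.sqrt_sq (by positivity)
  refine Prod.ext h1.symm (Prod.ext ?_ ?_)
  · show d + Real.cos (Real.arccos (5 * (p.2.1 - d))) / 5 = p.2.1
    rw [hc]
    ring
  · show ((Real.sin (Real.arccos (5 * (p.2.1 - d))) / 5 : ℝ) : ℂ) *
      Complex.exp (Complex.arg p.2.2 * Complex.I) = p.2.2
    rw [hs]
    rw [show 5 * ‖p.2.2‖ / 5 = ‖p.2.2‖ by ring]
    exact Complex.norm_mul_exp_arg_mul_I p.2.2

end SMH

open SMH in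
theorem m_SMH : StSMH := by
  intro b b' h K d hK hb hb' hh h0 h1 hoff
  let ι : S4 → E5 := fun y => y.1
  have hι : Continuous ι := continuous_subtype_val
  have hfact : Fact (Module.finrank ℝ (EuclideanSpace ℝ (Fin 5)) = 4 + 1) := ⟨by simp⟩
  have hιs : ContMDiff (𝓡 4) 𝓘(ℝ, EuclideanSpace ℝ (Fin 5)) ∞ ι := contMDiff_coe_sphere
  have hιn : ∀ y : S4, ‖ι y‖ = 1 := fun y => by
    have := y.2
    rwa [mem_sphere_zero_iff_norm] at this
  -- extension of the ends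
  have hext : ∀ β : R4 → S4, (∀ p ∈ sph d, ContMDiffAt 𝓘(ℝ, R4) (𝓡 4) ∞ β p) →
      ∃ g : R4 → E5, ContDiff ℝ 1 g ∧ EqOn g (fun p => ι (β p)) (sph d) := by
    intro β hβ
    refine exists_ext (isCompact_sph d) fun p hp => ?_
    have h2 : ContMDiffAt 𝓘(ℝ, R4) 𝓘(ℝ, E5) ∞ (fun p => ι (β p)) p :=
      (hιs.contMDiffAt).comp p (hβ p hp)
    exact (contMDiffAt_iff_contDiffAt.1 h2).of_le (by norm_num)
  obtain ⟨B, hB, hBb⟩ := hext b hb
  obtain ⟨B', hB', hBb'⟩ := hext b' hb'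
  -- the distance
  let D : Set (ℝ × R4) := Icc (0 : ℝ) 1 ×ˢ sph d
  have hD : IsCompact D := isCompact_Icc.prod (isCompact_sph d)
  have hE : IsCompact (h '' D) := hD.image_of_continuousOn hh
  obtain ⟨r, hr0, hr⟩ := Metric.exists_pos_forall_lt_edist hE hK.isClosed (by
    rw [Set.disjoint_left]
    rintro _ ⟨⟨u, p⟩, ⟨hu, hp⟩, rfl⟩
    exact hoff u hu p hp)
  have hr' : ∀ x ∈ h '' D, ∀ y ∈ K, (r : ℝ) < dist (ι x) (ι y) := by
    intro x hx y hy
    have h2 := hr x hx y hy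
    rw [edist_nndist] at h2
    have h3 : r < nndist x y := by exact_mod_cast h2
    have h4 : (r : ℝ) < dist x y := by exact_mod_cast h3
    exact h4
  obtain ⟨ρ, hρ0, hρ1, hρr⟩ : ∃ ρ : ℝ, 0 < ρ ∧ ρ ≤ 1 / 8 ∧ 2 * ρ ≤ r := by
    have hr0' : (0 : ℝ) < r := by exact_mod_cast hr0
    exact ⟨min (1 / 8) (r / 2), lt_min (by norm_num) (by linarith), min_le_left _ _,
      by have := min_le_right (1 / 8) ((r : ℝ) / 2); linarith⟩
  -- Tietze
  let C : Set (ℝ × R4) := (D ∪ Iic 0 ×ˢ univ) ∪ Ici 1 ×ˢ univ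
  have hC1 : IsClosed (Iic (0 : ℝ) ×ˢ (univ : Set R4)) := isClosed_Iic.prod isClosed_univ
  have hC2 : IsClosed (Ici (1 : ℝ) ×ˢ (univ : Set R4)) := isClosed_Ici.prod isClosed_univ
  have hC : IsClosed C := (hD.isClosed.union hC1).union hC2
  let h₁ : ℝ × R4 → E5 := fun z => if z.1 ≤ 0 then B z.2 else if 1 ≤ z.1 then B' z.2 else ι (h z)
  have e0 : ∀ z : ℝ × R4, z.1 ≤ 0 → h₁ z = B z.2 := fun z hz => if_pos hz
  have e1 : ∀ z : ℝ × R4, 1 ≤ z.1 → h₁ z = B' z.2 := fun z hz => by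
    show (if z.1 ≤ 0 then B z.2 else if 1 ≤ z.1 then B' z.2 else ι (h z)) = _
    rw [if_neg (by linarith), if_pos hz]
  have e2 : ∀ z ∈ D, h₁ z = ι (h z) := by
    rintro ⟨u, p⟩ ⟨hu, hp⟩
    rcases le_or_gt u 0 with hu0 | hu0
    · have hu' : u = 0 := le_antisymm hu0 hu.1
      rw [e0 _ hu0]
      subst hu'
      rw [hBb hp, h0 p hp]
    · rcases le_or_gt 1 u with hu1 | hu1
      · have hu' : u = 1 := le_antisymm hu.2 hu1
        rw [e1 _ hu1]
        subst hu'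
        rw [hBb' hp, h1 p hp]
      · show (if u ≤ 0 then B p else if 1 ≤ u then B' p else ι (h (u, p))) = _
        rw [if_neg (by linarith), if_neg (by linarith)]
  have hh₁ : ContinuousOn h₁ C := by
    refine ContinuousOn.union_of_isClosed (ContinuousOn.union_of_isClosed ?_ ?_ hD.isClosed hC1) ?_
      (hD.isClosed.union hC1) hC2
    · exact (hι.comp_continuousOn hh).congr e2
    · exact (hB.continuous.comp continuous_snd).continuousOn.congr fun z hz => e0 z hz.1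
    · exact (hB'.continuous.comp continuous_snd).continuousOn.congr fun z hz => e1 z hz.1
  obtain ⟨H, hH⟩ := ContinuousMap.exists_restrict_eq (Y := E5) hC
    ⟨C.domRestrict h₁, continuousOn_iff_continuous_domRestrict.1 hh₁⟩
  have hHe : ∀ z ∈ C, H z = h₁ z := fun z hz => by
    have := DFunLike.congr_fun hH ⟨z, hz⟩
    exact this
  -- the stretched homotopy
  let f : ℝ × R4 → E5 := fun z => H (2 * z.1 - 1 / 2, z.2)
  have hf : Continuous f := H.continuous.comp (by fun_prop)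
  have f0 : ∀ z : ℝ × R4, z.1 ≤ 1 / 4 → f z = B z.2 := fun z hz => by
    have h2 : (2 * z.1 - 1 / 2, z.2) ∈ C := Or.inl (Or.inr ⟨by
      show 2 * z.1 - 1 / 2 ≤ 0
      linarith, mem_univ _⟩)
    show H (2 * z.1 - 1 / 2, z.2) = _
    rw [hHe _ h2, e0 _ (by show 2 * z.1 - 1 / 2 ≤ 0; linarith)]
  have f1 : ∀ z : ℝ × R4, 3 / 4 ≤ z.1 → f z = B' z.2 := fun z hz => by
    have h2 : (2 * z.1 - 1 / 2, z.2) ∈ C := Or.inr ⟨by
      show 1 ≤ 2 * z.1 - 1 / 2
      linarith, mem_univ _⟩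
    show H (2 * z.1 - 1 / 2, z.2) = _
    rw [hHe _ h2, e1 _ (by show 1 ≤ 2 * z.1 - 1 / 2; linarith)]
  have f2 : ∀ z ∈ D, ∃ z' ∈ D, f z = ι (h z') := by
    rintro ⟨u, p⟩ ⟨hu, hp⟩
    rcases le_or_gt u (1 / 4) with h2 | h2
    · refine ⟨(0, p), ⟨⟨le_rfl, zero_le_one⟩, hp⟩, ?_⟩
      rw [f0 _ h2, h0 p hp, hBb hp]
    · rcases le_or_gt (3 / 4) u with h3 | h3
      · refine ⟨(1, p), ⟨⟨zero_le_one, le_rfl⟩, hp⟩, ?_⟩
        rw [f1 _ h3, h1 p hp, hBb' hp]
      · have h4 : ((2 * u - 1 / 2, p) : ℝ × R4) ∈ D := ⟨⟨by linarith, by linarith⟩, hp⟩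
        refine ⟨_, h4, ?_⟩
        show H (2 * u - 1 / 2, p) = _
        rw [hHe _ (Or.inl (Or.inl h4)), e2 _ h4]
  -- smoothing
  obtain ⟨g, hg, hgf, hgS, -⟩ := hf.exists_contDiff_approx_and_eqOn 1 (ε := fun _ => ρ)
    continuous_const (fun _ => hρ0) (S := {z | z.1 ≤ 0} ∪ {z | 1 ≤ z.1})
    (U := {z | z.1 < 1 / 4} ∪ {z | 3 / 4 < z.1})
    ((isClosed_le continuous_fst continuous_const).union
      (isClosed_le continuous_const continuous_fst))
    (((isOpen_lt continuous_fst continuous_const).union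
      (isOpen_lt continuous_const continuous_fst)).mem_nhdsSet.2 (by
        rintro z (hz | hz)
        · left
          have : z.1 ≤ 0 := hz
          show z.1 < 1 / 4
          linarith
        · right
          have : 1 ≤ z.1 := hz
          show 3 / 4 < z.1
          linarith))
    (ContDiffOn.union_of_isOpen
      (((hB.comp contDiff_snd).contDiffOn).congr fun z hz => f0 z (le_of_lt hz))
      (((hB'.comp contDiff_snd).contDiffOn).congr fun z hz => f1 z (le_of_lt hz))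
      (isOpen_lt continuous_fst continuous_const) (isOpen_lt continuous_const continuous_fst))
  have hg1 : ContDiff ℝ 1 g := hg
  have hgn : ∀ z ∈ D, ∃ z' ∈ D, ‖g z - ι (h z')‖ < ρ := by
    intro z hz
    obtain ⟨z', hz', he⟩ := f2 z hz
    refine ⟨z', hz', ?_⟩
    rw [← he, ← dist_eq_norm]
    exact hgf z
  have hgn' : ∀ z ∈ D, |‖g z‖ - 1| < ρ := by
    intro z hz
    obtain ⟨z', hz', he⟩ := hgn z hz
    rw [← hιn (h z')]
    exact lt_of_le_of_lt (abs_norm_sub_norm_le _ _) he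
  have hg0 : ∀ z ∈ D, g z ≠ 0 := by
    intro z hz h2
    have h3 := hgn' z hz
    rw [h2, norm_zero, zero_sub, abs_neg, abs_one] at h3
    linarith
  have hpt : ∀ x : E5, x ≠ 0 → ‖x‖⁻¹ • x ∈ Metric.sphere (0 : E5) 1 := by
    intro x hx
    rw [mem_sphere_zero_iff_norm, norm_smul, norm_inv, norm_norm]
    exact inv_mul_cancel₀ (norm_ne_zero_iff.2 hx)
  have hch : ∀ z : ℝ × R4, ∃ y : S4, z ∈ D → ι y = ‖g z‖⁻¹ • g z := by
    intro z
    by_cases hz : z ∈ D
    · exact ⟨⟨_, hpt _ (hg0 z hz)⟩, fun _ => rfl⟩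
    · exact ⟨h z, fun h2 => absurd h2 hz⟩
  choose h' hh' using hch
  have hend : ∀ z ∈ D, ‖g z‖ = 1 → ι (h' z) = g z := by
    intro z hz h2
    rw [hh' z hz, h2, inv_one, one_smul]
  have hcon : ContinuousOn (fun z => ‖g z‖⁻¹ • g z) D := by
    have h2 : ContinuousOn (fun z => ‖g z‖⁻¹) D :=
      hg1.continuous.norm.continuousOn.inv₀ fun z hz => norm_ne_zero_iff.2 (hg0 z hz)
    exact h2.smul hg1.continuous.continuousOn
  refine ⟨h', ?_, ?_, ?_, ?_, ?_⟩
  · rw [Topology.IsInducing.subtypeVal.continuousOn_iff]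
    exact hcon.congr fun z hz => hh' z hz
  · intro p hp
    have hz : ((0, p) : ℝ × R4) ∈ D := ⟨⟨le_rfl, zero_le_one⟩, hp⟩
    have h2 : g (0, p) = ι (b p) := by
      rw [hgS (Or.inl (show (0 : ℝ) ≤ 0 from le_rfl)), f0 _ (by norm_num), hBb hp]
    have h3 : ι (h' (0, p)) = ι (b p) := by
      rw [hend _ hz (by rw [h2, hιn]), h2]
    exact Subtype.ext h3
  · intro p hp
    have hz : ((1, p) : ℝ × R4) ∈ D := ⟨⟨zero_le_one, le_rfl⟩, hp⟩
    have h2 : g (1, p) = ι (b' p) := by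
      rw [hgS (Or.inr (show (1 : ℝ) ≤ 1 from le_rfl)), f1 _ (by norm_num), hBb' hp]
    have h3 : ι (h' (1, p)) = ι (b' p) := by
      rw [hend _ hz (by rw [h2, hιn]), h2]
    exact Subtype.ext h3
  · intro u hu p hp hk
    have hz : (u, p) ∈ D := ⟨hu, hp⟩
    obtain ⟨z', hz', he⟩ := hgn _ hz
    have h2 := hr' _ (mem_image_of_mem h hz') _ hk
    have h3 : dist (ι (h z')) (ι (h' (u, p))) ≤ ‖g (u, p) - ι (h z')‖ + |‖g (u, p)‖ - 1| := by
      have h4 : dist (g (u, p)) (ι (h' (u, p))) = |‖g (u, p)‖ - 1| := by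
        rw [hh' _ hz, dist_eq_norm]
        have h5 : g (u, p) - ‖g (u, p)‖⁻¹ • g (u, p) = (1 - ‖g (u, p)‖⁻¹) • g (u, p) := by
          rw [sub_smul, one_smul]
        have h6 : ‖g (u, p)‖ ≠ 0 := norm_ne_zero_iff.2 (hg0 _ hz)
        rw [h5, norm_smul, Real.norm_eq_abs]
        rw [← abs_of_nonneg (norm_nonneg (g (u, p))), ← abs_mul, abs_norm]
        congr 1
        field_simp
      calc dist (ι (h z')) (ι (h' (u, p))) ≤ dist (ι (h z')) (g (u, p)) +
            dist (g (u, p)) (ι (h' (u, p))) := dist_triangle _ _ _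
        _ = ‖g (u, p) - ι (h z')‖ + |‖g (u, p)‖ - 1| := by
            rw [h4, dist_comm, dist_eq_norm]
    have h4 := hgn' _ hz
    linarith
  · -- the image has empty interior
    by_contra hne
    obtain ⟨y, hy⟩ := nonempty_iff_ne_empty.2 hne
    obtain ⟨O, hO, hOe⟩ := isOpen_induced_iff.1 (isOpen_interior (s := h' '' D))
    let Φ : ℝ × ℝ × ℝ × ℝ → E5 := fun a => a.1 • g (a.2.1, sg d a.2.2)
    have hΦ : ContDiff ℝ 1 Φ := by
      refine contDiff_fst.smul (hg1.comp ?_)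
      exact (contDiff_fst.comp contDiff_snd).prodMk
        ((contDiff_sg d).comp (contDiff_snd.comp contDiff_snd))
    have hdense : Dense (range Φ)ᶜ := hΦ.dense_compl_range_of_finrank_lt_finrank (by
      simp [Module.finrank_prod])
    have hV : IsOpen ({x : E5 | x ≠ 0} ∩ (fun x : E5 => ‖x‖⁻¹ • x) ⁻¹' O) := by
      refine ContinuousOn.isOpen_inter_preimage ?_ isOpen_ne hO
      have h2 : ContinuousOn (fun x : E5 => ‖x‖⁻¹) {x : E5 | x ≠ 0} :=
        continuous_norm.continuousOn.inv₀ fun x hx => norm_ne_zero_iff.2 hx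
      exact h2.smul continuousOn_id
    have hyV : ι y ∈ {x : E5 | x ≠ 0} ∩ (fun x : E5 => ‖x‖⁻¹ • x) ⁻¹' O := by
      refine ⟨?_, ?_⟩
      · show ι y ≠ 0
        rw [← norm_ne_zero_iff, hιn]
        exact one_ne_zero
      · show ‖ι y‖⁻¹ • ι y ∈ O
        rw [hιn, inv_one, one_smul]
        have : y ∈ Subtype.val ⁻¹' O := by rw [hOe]; exact hy
        exact this
    obtain ⟨x, ⟨hx0, hxO⟩, hxΦ⟩ := hdense.inter_open_nonempty _ hV ⟨_, hyV⟩
    apply hxΦ
    have hx1 : (⟨_, hpt x hx0⟩ : S4) ∈ interior (h' '' D) := by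
      rw [← hOe]
      exact hxO
    obtain ⟨⟨u, p⟩, hz, he⟩ := interior_subset hx1
    obtain ⟨a, ha⟩ := sg_surj hz.2
    have he' : ‖g (u, p)‖⁻¹ • g (u, p) = ‖x‖⁻¹ • x := by
      rw [← hh' _ hz, he]
    refine ⟨(‖x‖ * ‖g (u, p)‖⁻¹, u, a), ?_⟩
    show (‖x‖ * ‖g (u, p)‖⁻¹) • g (u, sg d a) = x
    rw [ha, mul_smul, he', smul_smul, mul_inv_cancel₀ (norm_ne_zero_iff.2 hx0), one_smul]

end Pool.Agent.Helper34.BI.H


end

/-! ## Helper70.BI.M_OB0 -/

section

/-!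
# Project BI, part (E), module OB0: the class of a germ with `Br 0` is `1` or `W`
-/

set_option autoImplicit false

open scoped Manifold ContDiff Topology ComplexConjugate
open Set Filter Pool.Agent.Helper65.Barb Pool.Agent.Helper18.BI

namespace Pool.Agent.Helper70.BI

open Pool.Agent.Helper27.BI (refh refs swp StVanT StRefH StRefS StR2sw)

namespace OB0

/-- the linear part of `swp` -/
private noncomputable def L : R4 →L[ℝ] R4 :=
  (ContinuousLinearMap.id ℝ ℝ).prodMap ((-(ContinuousLinearMap.id ℝ ℝ)).prodMap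
    (Complex.conjCLE : ℂ →L[ℝ] ℂ))

private theorem swp_eq : swp = fun p => L p + (0, (1, 0)) := by
  funext p
  refine Prod.ext ?_ (Prod.ext ?_ ?_)
  · change p.1 = p.1 + 0
    ring
  · change 1 - p.2.1 = -p.2.1 + 1
    ring
  · change conj p.2.2 = conj p.2.2 + 0
    ring

private theorem inv (p : R4) : swp (swp p) = p := by simp [swp]

private theorem LL (v : R4) : L (L v) = v := Prod.ext rfl (Prod.ext (neg_neg _) (Complex.conj_conj _))

private theorem der (p : R4) : HasFDerivAt swp L p := by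
  rw [swp_eq]
  exact L.hasFDerivAt.add_const _

private theorem ld (p : R4) : LD swp p := by
  rw [ld_iff]
  refine ⟨Eventually.of_forall fun q => ?_, ?_⟩
  · rw [swp_eq]
    exact (L.contDiff.add contDiff_const).contDiffAt
  · rw [(der p).fderiv]
    intro x y hxy
    rw [← LL x, hxy, LL]

private theorem injective : Function.Injective swp := fun x y hxy => by
  rw [← inv x, hxy, inv]

private theorem rsq_w (c : ℝ) (p : R4) : rsq c (swp p) = rsq (1 - c) p := by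
  simp only [rsq, nsq, swp, Complex.conj_re, Complex.conj_im]; ring

private theorem SPm {p : R4} (hp : p ∈ SP) : swp p ∈ SP := by
  rcases hp with (hp | hp) | hp
  · exact Or.inl (Or.inr ⟨hp.1, by rw [rsq_w, sub_self]; exact hp.2⟩)
  · exact Or.inl (Or.inl ⟨hp.1, by rw [rsq_w, sub_zero]; exact hp.2⟩)
  · refine Or.inr ⟨hp.1, ?_, ?_, ?_⟩
    · change 1 / 5 ≤ 1 - p.2.1
      linarith [hp.2.2.1]
    · change 1 - p.2.1 ≤ 4 / 5
      linarith [hp.2.1]
    · change conj p.2.2 = 0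
      rw [hp.2.2.2, map_zero]

private theorem flatm {p : R4} (hp : p ∈ flat 1) : swp p ∈ flat 0 :=
  ⟨hp.1, by rw [rsq_w, sub_zero]; exact hp.2⟩

private theorem sphm {p : R4} (hp : p ∈ sph 0) : swp p ∈ sph 1 :=
  ⟨hp.1, by rw [rsq_w, sub_self]; exact hp.2⟩

private theorem ax_w (a : ℝ) : swp (ax a) = ax (1 - a) := by
  refine Prod.ext rfl (Prod.ext rfl ?_)
  change conj (0 : ℂ) = 0
  rw [map_zero]

private theorem fd {F : R4 → R4} {p : R4} (hF : LD F (swp p)) :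
    fderiv ℝ (fun p => F (swp p)) p = (fderiv ℝ F (swp p)).comp L := by
  have h1 : DifferentiableAt ℝ F (swp p) :=
    ((ld_iff.1 hF).1.self_of_nhds).differentiableAt (by simp)
  exact (h1.hasFDerivAt.comp p (der p)).fderiv

private theorem rsq_half (c : ℝ) (x : R3) : rsq c ((1 / 2 : ℝ), x) = nsq (x - pc c) := by
  simp [rsq, pc, nsq]

private theorem br {F : R4 → R4} {γ e : ℝ} (hF : Br 0 F γ e) :
    Br 1 (fun p => F (swp p)) (1 - γ) (-e) where
  loc p hp := by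
    refine ld_comp (ld p) (hF.loc _ ?_)
    rcases hp with hp | hp
    · exact Or.inl (SPm hp)
    · exact Or.inr (flatm hp)
  inj p hp q hq he := injective (hF.inj (SPm hp) (SPm hq) he)
  injF p hp q hq he := by
    have hm : ∀ p ∈ flat 1 ∪ sph (1 - 1), swp p ∈ flat 0 ∪ sph (1 - 0) := by
      rw [sub_self, sub_zero]
      rintro p (hp | hp)
      · exact Or.inl (flatm hp)
      · exact Or.inr (sphm hp)
    exact injective (hF.injF (hm p hp) (hm q hq) he)
  mem := ⟨by linarith [hF.mem.2], by linarith [hF.mem.1]⟩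
  cr := by
    obtain ⟨x₀, h1, h2, l, v, h3, h4⟩ := hF.cr
    have hx₀ : ((1 / 2 : ℝ), x₀) ∈ flat 0 := ⟨rfl, by rw [rsq_half]; exact h1.le⟩
    have e2 : swp (1 / 2, (swp (1 / 2, x₀)).2) = (1 / 2, x₀) := inv (1 / 2, x₀)
    have e7 : swp (ax (1 - γ)) = ax γ := by rw [ax_w, sub_sub_cancel]
    refine ⟨(swp (1 / 2, x₀)).2, ?_, ?_, (L (-(l, v))).1, (L (-(l, v))).2, ?_, ?_⟩
    · have e4 : rsq 1 ((1 / 2 : ℝ), (swp (1 / 2, x₀)).2) = rsq 0 ((1 / 2 : ℝ), x₀) := by
        have := rsq_w 1 (1 / 2, x₀)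
        rw [sub_self] at this
        exact this
      rw [← rsq_half, e4, rsq_half]
      exact h1
    · change F (swp (ax (1 - γ))) = F (swp (1 / 2, (swp (1 / 2, x₀)).2))
      rw [e7, e2]
      exact h2
    · change 0 < -e * -l
      rw [neg_mul_neg]
      exact h3
    · have hg : ax γ ∈ SP := Or.inr ⟨rfl, hF.mem.1.le, hF.mem.2.le, rfl⟩
      rw [fd (p := ax (1 - γ)) (by rw [e7]; exact hF.loc _ (Or.inl hg)),
        fd (p := (1 / 2, (swp (1 / 2, x₀)).2)) (by rw [e2]; exact hF.loc _ (Or.inr hx₀)), e7,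
        e2]
      simp only [ContinuousLinearMap.comp_apply, Prod.mk.eta]
      have e6 : L ((0 : ℝ), ((1 : ℝ), (0 : ℂ))) = -((0 : ℝ), ((1 : ℝ), (0 : ℂ))) := by
        refine Prod.ext ?_ (Prod.ext ?_ ?_) <;> simp [L]
      rw [LL, e6, map_neg, map_neg, h4]
  only a ha hmem := by
    obtain ⟨p, hp, he⟩ := hmem
    have h1 : core F (1 - a) ∈ F '' flat 0 := by
      refine ⟨swp p, flatm hp, ?_⟩
      have : F (swp p) = F (swp (ax a)) := he
      rw [this, ax_w]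
      rfl
    rcases hF.only (1 - a) ⟨by linarith [ha.2], by linarith [ha.1]⟩ h1 with h | h
    · left
      linarith
    · right
      linarith

end OB0

open OB0 in
theorem m_OB0 (hOB1 : StOB1) (hSw : StR2sw) (hT2 : StT2) (hCI : StCI) : StOB0 := by
  intro W F γ e hW he hF φ hφ
  obtain ⟨-, -, -, -, -, -, tvii⟩ := hT2 R4 R4 I4 R4
  obtain ⟨-, cs, -, ct, cc, ci, cex, -, -, -⟩ := hCI R4 R4 I4 R4
  obtain ⟨φ', -, i1, i2⟩ := cex φ (tvii F φ hφ)
  have t1 : Thin I4 (fun p => F (swp p)) φ' :=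
    (hSw R4 R4 I4 R4 F φ φ' ⟨fun p hp => hF.loc p (Or.inl hp), hF.inj⟩ i1 i2).1 hφ
  have he' : -e = 1 ∨ -e = -1 := by
    rcases he with h | h
    · right; rw [h]
    · left; rw [h, neg_neg]
  rcases hOB1 W _ (1 - γ) (-e) hW he' (br hF) φ' t1 with h | h
  · exact Or.inl (ci φ' (fun x => x) φ (fun x => x) h i2 (fun x => rfl))
  · right
    obtain ⟨F₀, α₀, β₀, -, hr⟩ := hW.rep
    obtain ⟨W', hW', j1, j2⟩ := cex W (tvii F₀ W hr)
    have h1 : CIsot I4 φ W' := ci φ' W φ W' h i2 j1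
    have h2 := cc _ _ W' W' hW.sq hW'
    have h3 : (fun x => W (W (W' x))) = W := funext fun x => by rw [j1]
    have h4 : CIsot I4 W W' := by
      have h5 : CIsot I4 (fun x => W (W (W' x))) W' := h2
      rwa [h3] at h5
    exact ct _ _ _ h1 (cs _ _ h4)

end Pool.Agent.Helper70.BI


end
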