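import Pool.Agent.Helper18.BI.R.FinDefs
import Pool.Agent.Helper65.Barb.Defs
import Pool.Agent.Helper70.BI.C.P15
import Pool.Agent.Helper70.BI.C.P33

/-!
# Project BI (MP_8e98f2_gt): collected modules, part 45

The contents of the modules
* Helper18.BI.H.M_HC
* Helper18.BI.R.StR4
* Helper18.BI.R.M_MQ
* Helper18.BI.R.M_EVM
* Helper18.BI.R.M_WRD
* Helper34.BI.R.M_LIP

in one file, so that the whole proof builds in a short time.
-/

namespace Pool.Agent.Helper18.BI
end Pool.Agent.Helper18.BI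

namespace Pool.Agent.Helper18.BI.H
end Pool.Agent.Helper18.BI.H

namespace Pool.Agent.Helper18.BI.R
end Pool.Agent.Helper18.BI.R

namespace Pool.Agent.Helper18.FinR
end Pool.Agent.Helper18.FinR

namespace Pool.Agent.Helper27.BI
end Pool.Agent.Helper27.BI

namespace Pool.Agent.Helper34.BI
end Pool.Agent.Helper34.BI

namespace Pool.Agent.Helper65.Barb
end Pool.Agent.Helper65.Barb

namespace Pool.Agent.Helper70.BI
end Pool.Agent.Helper70.BI


/-! ## Helper18.BI.H.M_HC -/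

section

/-!
# Project BI, stage 3 (H), modules HC and NULC: both cuffs
-/

set_option autoImplicit false

open scoped Manifold ContDiff Topology ComplexConjugate
open Set Pool.Agent.Helper65.Barb Pool.Agent.Helper18.BI
open Pool.Agent.Helper70.BI (I4 IsW MW StMWL)
open Pool.Agent.Helper27.BI (swp StR2sw)
open Pool.Agent.Helper34.BI (swp_swp swp_mem_sph_zero swp_mem_sph_one swp_mem_SP continuous_swp
  isLocalDiffeomorphAt_swp)

namespace Pool.Agent.Helper18.BI.H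

theorem embOn_swp {G : R4 → R4} (hG : EmbOn I4 G SP) : EmbOn I4 (fun p => G (swp p)) SP :=
  ⟨fun p hp => isLocalDiffeomorphAt_swp (hG.1 _ (swp_mem_SP hp)), fun p hp q hq hpq => by
    have := hG.2 (swp_mem_SP hp) (swp_mem_SP hq) hpq
    rw [← swp_swp p, this, swp_swp]⟩

theorem image_swp (F : R4 → R4) : (fun p => F (swp p)) '' sph 1 = F '' sph 0 := by
  apply Subset.antisymm
  · rintro _ ⟨p, hp, rfl⟩
    exact ⟨swp p, swp_mem_sph_zero hp, rfl⟩
  · rintro _ ⟨p, hp, rfl⟩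
    refine ⟨swp p, swp_mem_sph_one hp, ?_⟩
    show F (swp (swp p)) = F p
    rw [swp_swp]

theorem m_HC (hH : StHMain) (hMWL : StMWL) : StHC := by
  intro F F' U h W c d hW hcd hF hF' hU hcU hEq hh h0 h1 hoff
  rcases hcd with ⟨rfl, rfl⟩ | ⟨rfl, rfl⟩
  · -- the fixed cuff is `sph 0`: apply the theorem to `F ∘ swp`
    obtain ⟨-, -, -, -, -, hsw, -⟩ := hMWL W hW
    apply hsw F F' hF hF'
    intro φ ψ hφ hψ
    refine hH (fun p => F (swp p)) (fun p => F' (swp p)) (swp ⁻¹' U) (fun z => h (z.1, swp z.2)) W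
      φ ψ hW (embOn_swp hF) (embOn_swp hF') (hU.preimage continuous_swp)
      (fun p hp => hcU (swp_mem_sph_zero hp))
      (fun p hp => hEq hp) ?_ (fun p hp => h0 _ (swp_mem_sph_one hp))
      (fun p hp => h1 _ (swp_mem_sph_one hp)) (fun u hu p hp => ?_) hφ hψ
    · refine hh.comp (Continuous.continuousOn ?_) ?_
      · exact continuous_fst.prodMk (continuous_swp.comp continuous_snd)
      · rintro ⟨u, p⟩ ⟨hu, hp⟩
        exact ⟨hu, swp_mem_sph_one hp⟩
    · rw [image_swp]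
      exact hoff u hu _ (swp_mem_sph_one hp)
  · intro φ ψ hφ hψ
    exact hH F F' U h W φ ψ hW hF hF' hU hcU hEq hh h0 h1 hoff hφ hψ

theorem m_NULC (hHC : StHC) (hN : StNUL) (hT2 : StT2) (hCI : StCI) (hsw : StR2sw) : StNULC := by
  intro F h y W φ c d hW hcd hF hh h0 h1 hoff hφ
  obtain ⟨cid, cs, cself, ct, cc, cinv, cex, -⟩ := hCI _ _ 𝓘(ℝ, R4) R4
  obtain ⟨-, tii, -, -, -, -, tvii⟩ := hT2 _ _ 𝓘(ℝ, R4) R4
  have hWW : CIsot I4 W W := by
    obtain ⟨F₀, α₀, β₀, -, hT⟩ := hW.rep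
    exact tvii _ _ hT
  have key : ∀ (F : R4 → R4) (h : ℝ × R4 → R4) (φ : R4 → R4), EmbOn I4 F SP →
      ContinuousOn h (Icc (0 : ℝ) 1 ×ˢ sph 0) → (∀ p ∈ sph 0, h (0, p) = F p) →
      (∀ p ∈ sph 0, h (1, p) = y) →
      (∀ u ∈ Icc (0 : ℝ) 1, ∀ p ∈ sph 0, h (u, p) ∉ F '' sph 1) → Thin I4 F φ →
      CIsot I4 φ (fun x => x) ∨ CIsot I4 φ W := by
    intro F h φ hF hh h0 h1 hoff hφ
    obtain ⟨F', U, h', hF', hU, hsU, hE, hh', h0', h1', hoff', hid⟩ := hN F h y hF hh h0 h1 hoff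
    have hmw := hHC F F' U h' W 1 0 hW (Or.inr ⟨rfl, rfl⟩) hF hF' hU hsU hE hh' h0' h1' hoff'
      φ (fun x => x) hφ hid
    rcases hmw with e | e
    · exact Or.inl (cs _ _ e)
    · right
      have e1 : CIsot I4 (fun x => W x) (fun x => W (W (φ x))) := cc W W _ _ hWW e
      have e2 : CIsot I4 (fun x => W (W (φ x))) φ :=
        cc (fun x => W (W x)) (fun x => x) φ φ hW.sq (tvii _ _ hφ)
      exact cs _ _ (ct _ _ _ e1 e2)
  rcases hcd with ⟨rfl, rfl⟩ | ⟨rfl, rfl⟩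
  · obtain ⟨φ', hφ', i1, i2⟩ := cex φ (tvii _ _ hφ)
    have hT : Thin I4 (fun p => F (swp p)) φ' := (hsw _ _ 𝓘(ℝ, R4) R4 F φ φ' hF i1 i2).1 hφ
    have hor := key (fun p => F (swp p)) (fun z => h (z.1, swp z.2)) φ' (embOn_swp hF) (by
      refine hh.comp (Continuous.continuousOn ?_) ?_
      · exact continuous_fst.prodMk (continuous_swp.comp continuous_snd)
      · rintro ⟨u, p⟩ ⟨hu, hp⟩
        exact ⟨hu, swp_mem_sph_one hp⟩) (fun p hp => h0 _ (swp_mem_sph_one hp))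
      (fun p hp => h1 _ (swp_mem_sph_one hp)) (fun u hu p hp => by
        rw [image_swp]
        exact hoff u hu _ (swp_mem_sph_one hp)) hT
    rcases hor with e | e
    · left
      exact cinv φ' (fun x => x) φ (fun x => x) e i2 (fun _ => rfl)
    · right
      obtain ⟨W', hW', j1, j2⟩ := cex W hWW
      have e1 : CIsot I4 φ W' := cinv φ' W φ W' e i2 j1
      have e2 : CIsot I4 (fun x => W (W (W' x))) W' :=
        cc (fun x => W (W x)) (fun x => x) W' W' hW.sq hW'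
      have e3 : (fun x => W (W (W' x))) = W := by
        funext x
        rw [j1]
      rw [e3] at e2
      exact ct _ _ _ e1 (cs _ _ e2)
  · exact key F h φ hF hh h0 h1 hoff hφ

end Pool.Agent.Helper18.BI.H


end

/-! ## Helper18.BI.R.StR4 -/

section

/-!
# Project BI, stage 4 (R): the homomorphism, part 2 (transfer to the 4-sphere)

Statements (as `Prop` definitions) with complete proofs in the docstrings.  A module `M_X` proves
`theorem m_X : StX` (possibly from other statements as hypotheses `(h : StY)`).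
-/

set_option autoImplicit false

open scoped Manifold ContDiff Topology ComplexConjugate unitInterval
open Set Pool.Agent.Helper65.Barb Pool.Agent.Helper18.BI
open Pool.Agent.Helper70.BI (I4 IsW)
open Pool.Agent.Helper18.BI.H (IsW4 mm)
open Pool.Agent.Helper18.FinR (sqr Pi2 cls FreeClass UpTo)

namespace Pool.Agent.Helper18.BI.R

/-! ## squares and spheres -/

/-- the parametrization of the unit sphere by the square -/
noncomputable def mq (x y : ℝ) : R3 :=
  (1 - 2 * Real.sin (Real.pi * x) ^ 2 * Real.sin (Real.pi * y) ^ 2,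
    ⟨-(2 * Real.sin (Real.pi * x) * Real.sin (Real.pi * y) * Real.cos (Real.pi * y)),
      2 * Real.sin (Real.pi * x) * Real.cos (Real.pi * x) * Real.sin (Real.pi * y) ^ 2⟩)

/-- MODULE MQ.  Trigonometry.
Proof.  (1) `mm q s = zarc (sin π q) (chi s') q s'`, `s' = 10 s - 9/2`, `phi s' = 2 π σ`, `σ = step s'`, `chi s' = (1 - cos (2 π σ))/2 = sin² (π σ)`, `cos (2 π q) - 1 = -2 sin² (π q)`, `sin (2 π q) = 2 sin (π q) cos (π q)`,
`sin (2 π σ) = 2 sin (π σ) cos (π σ)` (`zarc`, `chi`, `phi` in `Pool/Agent/Helper27/BI/ChDefs.lean`).  (2) polynomial identity with `sin² + cos² = 1`.  (3) `sin 0 = sin π = 0`.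
(4) Let `m = (m₁, (m₂, m₃)) ∈ S2`.  If `m₁ = 1` then `m = (1, 0) = mq 0 0`.  Otherwise put `c = (1 - m₁)/2 ∈ (0, 1]`.  Wanted `a = sin (π x) > 0`, `b = sin (π y) > 0`, `A = cos (π x)`, `B = cos (π y)` with `a² b² = c`, `-2 a b B = m₂`, `2 a A b² = m₃`.
Then `(a B)² = a² - c`, so `m₂² = 4 c (a² - c) / a² * ..`: directly: put `r = √(c + m₂²/(4 c) ..)`; explicit solution: `a b = √c`, so `B = -m₂/(2 √c)`, `|B| ≤ 1`: `m₂² ≤ 1 - m₁² = 4 c (1 - c) < 4 c` (`1 - m₁² = (1-m₁)(1+m₁) = 2c (2 - 2c)`), so `|B| < 1`,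
`y = arccos B / π ∈ (0, 1)`, `b = √(1 - B²) > 0`, `a = √c / b`; `a² = c/(1 - B²) = 4c²/(4c - m₂²)`, `≤ 1` iff `4 c² ≤ 4 c - m₂²` iff `m₂² ≤ 4 c (1 - c)`: true.  `A = m₃/(2 √c b)`; `A² + a² = (m₃²/(4c) + c)/b²` and `b² = 1 - m₂²/(4c)`, so it is `1` iff `m₃² + 4 c² = 4 c - m₂²` iff
`m₂² + m₃² = 4 c (1 - c) = 1 - m₁²`: true.  `x = arccos A / π ∈ [0,1]`, `sin (π x) = √(1 - A²) = a`.
(5) smooth (`ContDiff`), hence Lipschitz on the compact convex square (`ContDiff` implies `LipschitzOnWith` on compact convex sets: the derivative is bounded; e.g. `Convex.lipschitzOnWith_of_nnnorm_fderiv_le`), or by hand. -/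
def StMQ : Prop :=
  (∀ q s, mm q s = mq q (step (10 * s - 9 / 2))) ∧ (∀ x y, mq x y ∈ S2) ∧
  (∀ x y, (x = 0 ∨ x = 1 ∨ y = 0 ∨ y = 1) → mq x y = (1, 0)) ∧
  (∀ m ∈ S2, ∃ x ∈ Icc (0 : ℝ) 1, ∃ y ∈ Icc (0 : ℝ) 1, mq x y = m) ∧
  ∃ L : NNReal, LipschitzOnWith L (fun z : ℝ × ℝ => mq z.1 z.2) (Icc 0 1 ×ˢ Icc 0 1)

/-- concatenation of squares in a space `M` -/
noncomputable def qcatM {M : Type} (f f' : ℝ → ℝ → M) (q s : ℝ) : M :=
  if q ≤ 1 / 2 then f (2 * q) s else f' (2 * q - 1) s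

/-- the square of a word in the based spheres `g i` (`g i : S2 → M`, `g i (1,0) = y`) -/
noncomputable def evM {M : Type} {n : ℕ} (y : M) (g : Fin n → R3 → M) :
    List (Fin n × Bool) → ℝ → ℝ → M
  | [] => fun _ _ => y
  | (i, true) :: l => qcatM (fun q s => g i (mm q s)) (evM y g l)
  | (i, false) :: l => qcatM (fun q s => g i (mm (1 - q) s)) (evM y g l)

/-- MODULE EVM.  Squares of words: composition with a map, values on the boundary, joint continuity, Lipschitz continuity.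
Proof.  All by induction on the word.  (2) `mm_edge`, `mm_ends` (`Pool/Agent/Helper18/BI/H/EndR4.lean`): `mm q s = (1, 0)` for `q ∈ {0,1}` or `s ≤ 9/20` or `11/20 ≤ s`.
(3) The square is `[0,1/2] ∪ [1/2,1]`, on the first part the function is `k i (τ, mm (2 q) s)` (`mm` is continuous with values in `S2`: `continuous_mm`, `mm_S2` of `Pool/Agent/Helper18/BI/R/M_REL4.lean`), on the second the composition of the inductive function with `(τ, q, s) ↦ (τ, 2 q - 1, s)`; at `q = 1/2` both are `y`.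
`ContinuousOn.union_of_isClosed`-type argument, as for `k` in `M_REL4.lean` (here `C ×ˢ (Icc 0 1 ×ˢ univ)` is the union of `C ×ˢ (Icc 0 (1/2) ×ˢ univ)` and `C ×ˢ (Icc (1/2) 1 ×ˢ univ)`, relatively closed in it; if `C` is not closed use `ContinuousOn.if` or the subtype; you may assume `IsClosed C`).
(4) `mm` is Lipschitz on `[0,1] ×ˢ [9/20,11/20]` (smooth, compact convex), `g i` is Lipschitz on `S2`; two adjacent rectangles: for `z` in the first and `z'` in the second take the point of the common edge on the same level `s` as `z`: `dist (f z) (f z') ≤ L dist z p + L dist p z'`, `p = (1/2, s)`,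
`dist z p ≤ dist z z'`, `dist p z' ≤ dist z z'` (sup metric). -/
def StEVM : Prop :=
  (∀ (M M' : Type) (n : ℕ) (Θ : M → M') (y : M) (g : Fin n → R3 → M) (l : List (Fin n × Bool))
    (q s : ℝ), evM (Θ y) (fun i m => Θ (g i m)) l q s = Θ (evM y g l q s)) ∧
  (∀ (M : Type) (n : ℕ) (y : M) (g : Fin n → R3 → M) (l : List (Fin n × Bool)) (q s : ℝ),
    (∀ i, g i (1, 0) = y) → (q = 0 ∨ q = 1 ∨ s ≤ 9 / 20 ∨ 11 / 20 ≤ s) → evM y g l q s = y) ∧
  (∀ (T M : Type) [TopologicalSpace T] [TopologicalSpace M] (C : Set T) (n : ℕ) (y : M)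
    (k : Fin n → T × R3 → M) (l : List (Fin n × Bool)), IsClosed C →
    (∀ i, ContinuousOn (k i) (C ×ˢ S2)) → (∀ i, ∀ τ ∈ C, k i (τ, (1, 0)) = y) →
    ContinuousOn (fun z : T × ℝ × ℝ => evM y (fun i m => k i (z.1, m)) l z.2.1 z.2.2)
      (C ×ˢ (Icc (0 : ℝ) 1 ×ˢ univ))) ∧
  ∀ (M : Type) [PseudoMetricSpace M] (n : ℕ) (y : M) (g : Fin n → R3 → M)
    (l : List (Fin n × Bool)), (∀ i, ∃ L : NNReal, LipschitzOnWith L (g i) S2) →
    (∀ i, g i (1, 0) = y) →
    ∃ L : NNReal, LipschitzOnWith L (fun z : ℝ × ℝ => evM y g l z.1 z.2)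
      (Icc (0 : ℝ) 1 ×ˢ Icc (9 / 20 : ℝ) (11 / 20))

/-! ## Lipschitz approximation -/

/-- MODULE LIP (helper34).  Relative Lipschitz approximation in the 4-sphere, off a compact set.
Proof.  (i) For a compact metric space `P` (here a compact subset) and `f : P → ℝ` continuous, `ρ > 0`, there is a Lipschitz `e` with `|f - e| ≤ ρ` (`e x = inf_y (f y + k dist x y)`, or Stone-Weierstrass).  (ii) relative: `P₀ ⊆ P`, `f` Lipschitz on `P₀`; `g₀` Lipschitz extension of `f|P₀` (`LipschitzOnWith.extend_real`),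
`e` Lipschitz with `|f - g₀ - e| ≤ ρ/2`, `τ x = sign x * max (|x| - ρ/2) 0` (Lipschitz, `|τ x - x| ≤ ρ/2`, `0` for `|x| ≤ ρ/2`): `g₀ + τ ∘ e` is Lipschitz, within `ρ` of `f` on `P` and equal to `f` on `P₀`.
(iii) The five coordinates of `f : P → S4 ⊆ R⁵`: `v : P → R⁵` Lipschitz, `‖v - f‖ ≤ ρ` on `P`, `v = f` on `P₀`.  `ρ ≤ 1/4` and `4 ρ ≤ dist (f x) y` for `x ∈ P`, `y ∈ K`.  `w_u x = (1 - u) f x + u v x` has norm `≥ 3/4`, `H (u, x) = w_u x / ‖w_u x‖` (as a point of `S4`), within `2 ρ` of `f x`; `g = H (1, ·)` Lipschitz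
(`z ↦ z/‖z‖` is Lipschitz on `‖z‖ ≥ 3/4`). -/
def StLIP : Prop :=
  ∀ (X : Type) [MetricSpace X] (P P₀ : Set X) (K : Set S4) (f : X → S4), IsCompact P →
    P₀ ⊆ P → IsCompact K → ContinuousOn f P → (∃ L : NNReal, LipschitzOnWith L f P₀) →
    (∀ x ∈ P, f x ∉ K) →
    ∃ (g : X → S4) (H : ℝ × X → S4), (∃ L : NNReal, LipschitzOnWith L g P) ∧
      ContinuousOn H (Icc (0 : ℝ) 1 ×ˢ P) ∧ (∀ x ∈ P, H (0, x) = f x ∧ H (1, x) = g x) ∧
      (∀ u ∈ Icc (0 : ℝ) 1, ∀ x ∈ P, H (u, x) ∉ K) ∧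
      ∀ u ∈ Icc (0 : ℝ) 1, ∀ x ∈ P₀, H (u, x) = f x

/-- MODULE DIM (helper34).  Lipschitz images of three-dimensional sets have empty interior.
Proof.  `dimH` of the image of a subset of `ℝ × ℝ × ℝ` is `≤ 3` (`LipschitzOnWith.dimH_image_le`, `dimH` of a subset of a three-dimensional space; Mathlib: `Real.dimH_of_nonempty_interior`, `dimH_univ_eq_finrank`).  An open nonempty subset `O` of `S4` contained in the image: the map `x ↦ x/‖x‖` (or a chart: stereographic projection restricted to a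
small closed ball of a chart domain is Lipschitz with values in `EuclideanSpace ℝ (Fin 4)`, smooth) maps `O` onto a set containing an open set of a four-dimensional space, of `dimH = 4`; smooth maps are locally Lipschitz, so `dimH (chart '' O) ≤ dimH O ≤ 3`: a contradiction.
(Alternatively as in `M_SMH.lean` with the cone over the image in `R⁵`: `(r, z) ↦ r • g z` is Lipschitz on bounded sets, `dimH ≤ 4 < 5`.) -/
def StDIM : Prop :=
  ∀ (g : ℝ × ℝ × ℝ → S4) (P : Set (ℝ × ℝ × ℝ)), IsCompact P →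
    (∃ L : NNReal, LipschitzOnWith L g P) → IsCompact (g '' P) ∧ interior (g '' P) = ∅

/-- the box of the null-homotopies -/
def box : Set (ℝ × ℝ × ℝ) := Icc (0 : ℝ) 1 ×ˢ (Icc (0 : ℝ) 1 ×ˢ Icc (9 / 20 : ℝ) (11 / 20))

/-- `N` is a null-homotopy, off `A`, of the square of the word `l` in the spheres `g`. -/
def NullOff {M : Type} [TopologicalSpace M] {n : ℕ} (A : Set M) (y : M) (g : Fin n → R3 → M)
    (l : List (Fin n × Bool)) (N : ℝ × ℝ × ℝ → M) : Prop :=
  ContinuousOn N box ∧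
    (∀ q ∈ Icc (0 : ℝ) 1, ∀ s ∈ Icc (9 / 20 : ℝ) (11 / 20),
      N (0, q, s) = evM y g l q s ∧ N (1, q, s) = y) ∧
    ∀ u ∈ Icc (0 : ℝ) 1, ∀ q ∈ Icc (0 : ℝ) 1, ∀ s ∈ Icc (9 / 20 : ℝ) (11 / 20),
      N (u, q, s) ∉ A ∧ ((q = 0 ∨ q = 1 ∨ s = 9 / 20 ∨ s = 11 / 20) → N (u, q, s) = y)

/-- `h` is a free homotopy, off `A`, from spheres with `(1, 0) ↦ y` to the spheres `b i`. -/
def FreeOff {M : Type} [TopologicalSpace M] {n : ℕ} (A : Set M) (y : M) (b : Fin n → R3 → M)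
    (h : Fin n → ℝ × R3 → M) : Prop :=
  (∀ i, ContinuousOn (h i) (Icc (0 : ℝ) 1 ×ˢ S2)) ∧ (∀ i, ∀ m ∈ S2, h i (1, m) = b i m) ∧
    (∀ i, h i (0, (1, 0)) = y) ∧ ∀ i, ∀ u ∈ Icc (0 : ℝ) 1, ∀ m ∈ S2, h i (u, m) ∉ A

/-- MODULE REP.  Free homotopies and null-homotopies can be replaced by ones with small images.
Proof (uses `StLIP`, `StDIM`, `StMQ`, `StEVM`; `isCompact_S2` of `M_REL4.lean`).
(1) `StLIP` for `X = R3`, `P = S2`, `P₀ = {(1, 0)}`, `f = h i (0, ·)`, `K = A`: `k i : ℝ × R3 → S4`, `k i (0, m) = h i (0, m)`, `k i (1, ·) = g' i` Lipschitz, `k i (u, (1, 0)) = y`, off `A`.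
(2) `h'' i (u, m) = k i (1 - 2 u, m)` for `u ≤ 1/2`, `h i (2 u - 1, m)` for `1/2 ≤ u`: continuous on `[0,1] × S2`, off `A`, `h'' i (0, ·) = g' i`, `h'' i (1, ·) = b i`.  `StLIP` for `X = ℝ × R3`, `P = [0,1] × S2`, `P₀ = {0, 1} × S2` (`h''` is Lipschitz there: `g' i` and `b i` are Lipschitz, points with `u = 0` and
`u = 1` have distance `≥ 1` and `dist ≤ 2` in `S4`): `h' i = g` Lipschitz on `P` with the same values on `P₀`, off `A`.
`interior (h' i '' P) = ∅`: `P` is the image of `[0,1]³` under the Lipschitz map `(u, x, y) ↦ (u, mq x y)` (`StMQ` (4), (5)); `StDIM`.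
(3) `N'' (u, q, s) = evM y (fun i m => k i (1 - 2 u, m)) l q s` for `u ≤ 1/2`, `N (2 u - 1, q, s)` for `1/2 ≤ u`: continuous on `box` (`StEVM` (3) with `T = ℝ`, `C = [0,1]`), off `A` (by `StEVM` (2),(3) or: its values are `y` or values of the `k i`; induction), boundary values `y`, `N'' (0, ..) = evM y g' l`.
`StLIP` for `X = ℝ × ℝ × ℝ`, `P = box`, `P₀` = the part of `box` with `u = 0` or `u = 1` or `q = 0` or `q = 1` or `s = 9/20` or `s = 11/20`: `N''` is Lipschitz on `P₀`: on the face `u = 0` by `StEVM` (4) (constant `L`), it is `y` on all the other faces; for `z = (0, q, s)` and `z'` on a face `q' = 0` (or `1`, or `s' = ..`)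
the point `p = (0, q', s')` has `N'' p = y` and `dist z p ≤ dist z z'`; for `z'` with `u' = 1` `dist (N'' z) y ≤ 2 ≤ 2 dist z z'`.  `N' = g`; `StDIM`. -/
def StREP : Prop :=
  ∀ (n : ℕ) (A : Set S4) (y : S4) (b : Fin n → R3 → S4) (h : Fin n → ℝ × R3 → S4)
    (l : List (Fin n × Bool)) (N : ℝ × ℝ × ℝ → S4), IsCompact A →
    (∀ i, ∃ L : NNReal, LipschitzOnWith L (b i) S2) → FreeOff A y b h →
    NullOff A y (fun i m => h i (0, m)) l N →
    ∃ (h' : Fin n → ℝ × R3 → S4) (N' : ℝ × ℝ × ℝ → S4), FreeOff A y b h' ∧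
      NullOff A y (fun i m => h' i (0, m)) l N' ∧
      (∀ i, interior (h' i '' (Icc (0 : ℝ) 1 ×ˢ S2)) = ∅) ∧ interior (N' '' box) = ∅

/-- MODULE WRD.  A relation in the second homotopy group gives a null-homotopy of a square.
Proof.  `l` by induction: `G l : GenLoop (Fin 2) X y₀` with `G [] = const`, `G ((i, true) :: l) = transAt 0 (f i) (G l)`, `G ((i, false) :: l) = transAt 0 (symmAt 0 (f i)) (G l)`.
(a) `⟦G l⟧ = (l.map ..).prod`: `HomotopyGroup.mul_spec : ⟦p⟧ * ⟦q⟧ = ⟦transAt i q p⟧`, `HomotopyGroup.inv_spec`, `HomotopyGroup.one_def`; the factors are in the other order, but the group is commutative (`HomotopyGroup.commGroup`; `Fin 2` is nontrivial).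
(b) for `q ∈ [0,1]`: `evM y₀ g l q s = G l (![q, step (10 s - 9/2)])` (as points of the unit interval): `mm q s = mq q (step (10 s - 9/2))` (`StMQ` (1)), `g i (mq x y) = f i ![x, y]`, induction with the formulas defining `transAt`, `symmAt` (`Function.update t 0 ..`).
(c) `⟦G l⟧ = 1 = ⟦const⟧` gives (`Quotient.exact`) `Homotopic (G l) const`: `H : HomotopyRel ..`; `N (u, q, s) = H (u, ![q, step (10 s - 9/2)])` with `Set.projIcc 0 1 zero_le_one` applied to `u`, `q` (and to `step ..`); it is continuous on all of `ℝ³`.  Boundary: `q = 0`, `q = 1`, `s = 9/20` (`step 0 = 0`), `s = 11/20` (`step 1 = 1`):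
`H (u, t) = G l t = y₀` for `t ∈ Cube.boundary` (`HomotopyRel.eq_fst`). -/
def StWRD : Prop :=
  ∀ (A : Set S4) (y₀ : {x : S4 // x ∉ A}) (n : ℕ)
    (f : Fin n → GenLoop (Fin 2) {x : S4 // x ∉ A} y₀) (g : Fin n → R3 → S4)
    (l : List (Fin n × Bool)), (∀ i t, g i (sqr t) = f i t) →
    (l.map fun p => if p.2 then cls (f p.1) else (cls (f p.1))⁻¹).prod = 1 →
    ∃ N : ℝ × ℝ × ℝ → S4, NullOff A (y₀ : S4) g l N

/-! ## the relation theorem in the 4-sphere -/

/-- The relation theorem in the 4-sphere. -/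
def RelS (W : S4 → S4) : Prop :=
  ∀ (n : ℕ) (B : R4 → S4) (Bi : Fin n → R4 → S4) (φ φ' : Fin n → S4 → S4) (U : Set R4)
    (A : Set S4) (y₀ : {x : S4 // x ∉ A}) (z : Fin n → Pi2 A y₀) (l : List (Fin n × Bool)),
    EmbOn (𝓡 4) B SP → (∀ i, EmbOn (𝓡 4) (Bi i) SP) → IsOpen U → sph 1 ⊆ U →
    (∀ i, EqOn B (Bi i) U) → (∀ i, Thin (𝓡 4) (Bi i) (φ i)) → (∀ i x, φ i (φ' i x) = x) →
    (∀ i x, φ' i (φ i x) = x) → A = B '' sph 1 → (y₀ : S4) = B (1 / 2, (1 / 2, 0)) →
    (∀ i, FreeClass A y₀ (Bi i) (z i)) →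
    (l.map fun p => if p.2 then z p.1 else (z p.1)⁻¹).prod = 1 →
    UpTo W (evD φ φ' l) (fun x => x)

/-- `W'` is the transport of `W` by all charts -/
def IsPush (W : R4 → R4) (W' : S4 → S4) : Prop :=
  ∀ c : R4 → S4, EmbOn (𝓡 4) c univ → CIsot (𝓡 4) (imp c univ W) W'

/-- RELS (helper18). -/
def StRelS : Prop :=
  ∀ W : R4 → R4, IsW W → ∃ W' : S4 → S4, IsW4 W' ∧ IsPush W W' ∧ RelS W'

/-! ## the parallel copy -/

/-- MODULE PAR4 (helper27).  A germ whose moved cuff is a parallel copy of the fixed cuff, of class `1` or `W`. -/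
def StPAR4 : Prop :=
  ∀ (F W : R4 → R4), IsW W → EmbOn I4 F SP → ∀ r > 0, ∃ η ∈ Ioo (0 : ℝ) r,
    ∃ (F' φ' : R4 → R4) (U : Set R4), EmbOn I4 F' SP ∧ IsOpen U ∧ sph 1 ⊆ U ∧ EqOn F F' U ∧
      Thin I4 F' φ' ∧ (CIsot I4 φ' (fun x => x) ∨ CIsot I4 φ' W) ∧
      ∀ p ∈ sph 0, F' p = F (p.1 + η, (p.2.1 + 1, p.2.2))

end Pool.Agent.Helper18.BI.R


end

/-! ## Helper18.BI.R.M_MQ -/

section

/-!
# Project BI, stage 4 (R), module MQ: the parametrization of the unit sphere by the square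
-/

set_option autoImplicit false

open scoped Manifold ContDiff Topology ComplexConjugate unitInterval
open Set Pool.Agent.Helper65.Barb Pool.Agent.Helper18.BI
open Pool.Agent.Helper70.BI (I4 IsW)
open Pool.Agent.Helper18.BI.H (IsW4 mm)
open Pool.Agent.Helper18.FinR (sqr Pi2 cls FreeClass UpTo)

namespace Pool.Agent.Helper18.BI.R

namespace MQ

private theorem mm_mq (q s : ℝ) : mm q s = mq q (step (10 * s - 9 / 2)) := by
  unfold mm Pool.Agent.Helper27.BI.zarc Pool.Agent.Helper27.BI.chi Pool.Agent.Helper27.BI.phi mq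
  generalize step (10 * s - 9 / 2) = w
  have h1 : Real.cos (2 * Real.pi * w) = 1 - 2 * Real.sin (Real.pi * w) ^ 2 := by
    rw [mul_assoc, Real.cos_two_mul, Real.cos_sq']; ring
  have h2 : Real.cos (2 * Real.pi * q) = 1 - 2 * Real.sin (Real.pi * q) ^ 2 := by
    rw [mul_assoc, Real.cos_two_mul, Real.cos_sq']; ring
  have h3 : Real.sin (2 * Real.pi * w) = 2 * Real.sin (Real.pi * w) * Real.cos (Real.pi * w) := by
    rw [mul_assoc, Real.sin_two_mul]
  have h4 : Real.sin (2 * Real.pi * q) = 2 * Real.sin (Real.pi * q) * Real.cos (Real.pi * q) := by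
    rw [mul_assoc, Real.sin_two_mul]
  rw [h1, h2, h3, h4]
  refine Prod.ext ?_ (Complex.ext ?_ ?_)
  · simp only
    ring
  · simp only
    ring
  · simp only
    ring

private theorem mq_S2 (x y : ℝ) : mq x y ∈ S2 := by
  show nsq (mq x y) = 1
  unfold nsq mq
  simp only
  have h1 : Real.cos (Real.pi * x) ^ 2 = 1 - Real.sin (Real.pi * x) ^ 2 := Real.cos_sq' _
  have h2 : Real.cos (Real.pi * y) ^ 2 = 1 - Real.sin (Real.pi * y) ^ 2 := Real.cos_sq' _
  generalize Real.sin (Real.pi * x) = a at *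
  generalize Real.sin (Real.pi * y) = b at *
  linear_combination (4 * a ^ 2 * b ^ 4) * h1 + (4 * a ^ 2 * b ^ 2) * h2

private theorem mq_bd (x y : ℝ) (h : x = 0 ∨ x = 1 ∨ y = 0 ∨ y = 1) : mq x y = (1, 0) := by
  have hs : Real.sin (Real.pi * x) = 0 ∨ Real.sin (Real.pi * y) = 0 := by
    rcases h with h | h | h | h
    · left; rw [h, mul_zero, Real.sin_zero]
    · left; rw [h, mul_one, Real.sin_pi]
    · right; rw [h, mul_zero, Real.sin_zero]
    · right; rw [h, mul_one, Real.sin_pi]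
  unfold mq
  rcases hs with h | h
  · rw [h]
    refine Prod.ext (by simp) (Complex.ext (by simp) (by simp))
  · rw [h]
    refine Prod.ext (by simp) (Complex.ext (by simp) (by simp))

private theorem arccos_pi {A : ℝ} (h1 : -1 ≤ A) (h2 : A ≤ 1) :
    ∃ x ∈ Icc (0 : ℝ) 1, Real.cos (Real.pi * x) = A ∧ Real.sin (Real.pi * x) = √(1 - A ^ 2) := by
  refine ⟨Real.arccos A / Real.pi, ⟨div_nonneg (Real.arccos_nonneg A) Real.pi_pos.le, ?_⟩, ?_, ?_⟩
  · rw [div_le_one Real.pi_pos]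
    exact Real.arccos_le_pi A
  · rw [mul_div_cancel₀ _ Real.pi_ne_zero, Real.cos_arccos h1 h2]
  · rw [mul_div_cancel₀ _ Real.pi_ne_zero, Real.sin_arccos]

private theorem mq_surj (m : R3) (hm : m ∈ S2) :
    ∃ x ∈ Icc (0 : ℝ) 1, ∃ y ∈ Icc (0 : ℝ) 1, mq x y = m := by
  obtain ⟨m₁, ⟨m₂, m₃⟩⟩ := m
  have hm' : m₁ ^ 2 + m₂ ^ 2 + m₃ ^ 2 = 1 := hm
  have hle : m₁ ≤ 1 := by nlinarith [sq_nonneg m₂, sq_nonneg m₃, sq_nonneg (m₁ - 1)]
  have hge : -1 ≤ m₁ := by nlinarith [sq_nonneg m₂, sq_nonneg m₃, sq_nonneg (m₁ + 1)]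
  rcases eq_or_lt_of_le hle with h | h
  · refine ⟨0, ⟨le_rfl, zero_le_one⟩, 0, ⟨le_rfl, zero_le_one⟩, ?_⟩
    rw [mq_bd 0 0 (Or.inl rfl)]
    have h2 : m₂ = 0 := by nlinarith [sq_nonneg m₂, sq_nonneg m₃]
    have h3 : m₃ = 0 := by nlinarith [sq_nonneg m₂, sq_nonneg m₃]
    rw [h, h2, h3]
    rfl
  · obtain ⟨c, hc⟩ : ∃ c, c = (1 - m₁) / 2 := ⟨_, rfl⟩
    have hc0 : 0 < c := by rw [hc]; linarith
    have hm1 : m₁ = 1 - 2 * c := by rw [hc]; ring
    have hsum : m₂ ^ 2 + m₃ ^ 2 = 4 * c * (1 - c) := by rw [hm1] at hm'; linarith [hm']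
    obtain ⟨w, hw⟩ : ∃ w, w = √c := ⟨_, rfl⟩
    have hw0 : 0 < w := by rw [hw]; exact Real.sqrt_pos.2 hc0
    have hw2 : w ^ 2 = c := by rw [hw]; exact Real.sq_sqrt hc0.le
    -- the second angle
    obtain ⟨B, hB⟩ : ∃ B, B = -m₂ / (2 * w) := ⟨_, rfl⟩
    have hBw : 2 * w * B = -m₂ := by rw [hB]; field_simp
    have hB2 : 4 * c * B ^ 2 = m₂ ^ 2 := by
      have e : (2 * w * B) ^ 2 = m₂ ^ 2 := by rw [hBw]; ring
      rw [← e, ← hw2]; ring
    have hBlt : B ^ 2 < 1 := by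
      by_contra hcon
      rw [not_lt] at hcon
      have h1 : 4 * c ≤ m₂ ^ 2 := by nlinarith
      nlinarith [sq_nonneg m₃, mul_pos hc0 hc0]
    have hBabs := abs_le_of_sq_le_sq' (show B ^ 2 ≤ 1 ^ 2 by linarith) zero_le_one
    obtain ⟨y, hy, hcy, hsy⟩ := arccos_pi hBabs.1 hBabs.2
    obtain ⟨b, hb⟩ : ∃ b, b = √(1 - B ^ 2) := ⟨_, rfl⟩
    have hb0 : 0 < b := by rw [hb]; exact Real.sqrt_pos.2 (by linarith)
    have hb2 : b ^ 2 = 1 - B ^ 2 := by rw [hb]; exact Real.sq_sqrt (by linarith)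
    have hcb : 4 * c * b ^ 2 = m₃ ^ 2 + 4 * c ^ 2 := by
      rw [hb2]; linear_combination -hB2 - hsum
    -- the first angle
    obtain ⟨A, hA⟩ : ∃ A, A = m₃ / (2 * w * b) := ⟨_, rfl⟩
    have hAw : 2 * w * b * A = m₃ := by rw [hA]; field_simp
    have hA2 : 4 * c * b ^ 2 * A ^ 2 = m₃ ^ 2 := by
      have e : (2 * w * b * A) ^ 2 = m₃ ^ 2 := by rw [hAw]
      rw [← e, ← hw2]; ring
    have hcb0 : 0 < 4 * c * b ^ 2 := by positivity
    have hAe : 1 - A ^ 2 = (w / b) ^ 2 := by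
      have h1 : b ^ 2 * (1 - A ^ 2) = w ^ 2 := by
        have h2 : 4 * c * (b ^ 2 * (1 - A ^ 2)) = 4 * c * w ^ 2 := by
          rw [hw2]; linear_combination hcb - hA2
        exact mul_left_cancel₀ (by positivity : (4 * c : ℝ) ≠ 0) h2
      rw [div_pow, ← h1]
      field_simp
    have hA1 : A ^ 2 ≤ 1 ^ 2 := by nlinarith [sq_nonneg (w / b)]
    have hAabs := abs_le_of_sq_le_sq' hA1 zero_le_one
    obtain ⟨x, hx, hcx, hsx⟩ := arccos_pi hAabs.1 hAabs.2
    have ha : √(1 - A ^ 2) = w / b := by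
      rw [hAe]; exact Real.sqrt_sq (by positivity)
    refine ⟨x, hx, y, hy, ?_⟩
    unfold mq
    rw [hsx, hsy, hcx, hcy, ha, ← hb]
    have hbne : b ≠ 0 := hb0.ne'
    refine Prod.ext ?_ (Complex.ext ?_ ?_)
    · show 1 - 2 * (w / b) ^ 2 * b ^ 2 = m₁
      have e : (w / b) ^ 2 * b ^ 2 = c := by rw [← hw2]; field_simp
      rw [hm1]; linear_combination -2 * e
    · show -(2 * (w / b) * b * B) = m₂
      have e : w / b * b = w := by field_simp
      linear_combination -hBw - 2 * B * e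
    · show 2 * (w / b) * A * b ^ 2 = m₃
      have e : w / b * b ^ 2 = w * b := by field_simp
      linear_combination hAw + 2 * A * e

private theorem mq_smooth : ContDiff ℝ 1 (fun z : ℝ × ℝ => mq z.1 z.2) := by
  have s1 : ContDiff ℝ 1 (fun z : ℝ × ℝ => Real.sin (Real.pi * z.1)) :=
    Real.contDiff_sin.comp (contDiff_const.mul contDiff_fst)
  have c1 : ContDiff ℝ 1 (fun z : ℝ × ℝ => Real.cos (Real.pi * z.1)) :=
    Real.contDiff_cos.comp (contDiff_const.mul contDiff_fst)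
  have s2 : ContDiff ℝ 1 (fun z : ℝ × ℝ => Real.sin (Real.pi * z.2)) :=
    Real.contDiff_sin.comp (contDiff_const.mul contDiff_snd)
  have c2 : ContDiff ℝ 1 (fun z : ℝ × ℝ => Real.cos (Real.pi * z.2)) :=
    Real.contDiff_cos.comp (contDiff_const.mul contDiff_snd)
  have h1 : ContDiff ℝ 1 (fun z : ℝ × ℝ =>
      1 - 2 * Real.sin (Real.pi * z.1) ^ 2 * Real.sin (Real.pi * z.2) ^ 2) :=
    contDiff_const.sub ((contDiff_const.mul (s1.pow 2)).mul (s2.pow 2))
  have h2 : ContDiff ℝ 1 (fun z : ℝ × ℝ =>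
      -(2 * Real.sin (Real.pi * z.1) * Real.sin (Real.pi * z.2) * Real.cos (Real.pi * z.2))) :=
    (((contDiff_const.mul s1).mul s2).mul c2).neg
  have h3 : ContDiff ℝ 1 (fun z : ℝ × ℝ =>
      2 * Real.sin (Real.pi * z.1) * Real.cos (Real.pi * z.1) * Real.sin (Real.pi * z.2) ^ 2) :=
    ((contDiff_const.mul s1).mul c1).mul (s2.pow 2)
  have h4 := h1.prodMk (Complex.equivRealProdCLM.symm.contDiff.comp (h2.prodMk h3))
  refine (congrArg (ContDiff ℝ 1) (funext fun z => ?_)).mp h4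
  rfl

end MQ

open MQ in
theorem m_MQ : StMQ := by
  refine ⟨mm_mq, mq_S2, mq_bd, mq_surj, ?_⟩
  have hK : IsCompact (Icc (0 : ℝ) 1 ×ˢ Icc (0 : ℝ) 1) := isCompact_Icc.prod isCompact_Icc
  obtain ⟨C, hC⟩ := hK.exists_bound_of_continuousOn
    (mq_smooth.continuous_fderiv (by simp)).continuousOn
  refine ⟨Real.toNNReal C, ?_⟩
  refine Convex.lipschitzOnWith_of_nnnorm_fderiv_le (𝕜 := ℝ)
    (fun z _ => (mq_smooth.differentiable (by simp)) z) (fun z hz => ?_)
    ((convex_Icc 0 1).prod (convex_Icc 0 1))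
  rw [← NNReal.coe_le_coe, coe_nnnorm]
  exact (hC z hz).trans (Real.le_coe_toNNReal C)

end Pool.Agent.Helper18.BI.R


end

/-! ## Helper18.BI.R.M_EVM -/

section

/-!
# Project BI, stage 4 (R), module EVM: squares of words
-/

set_option autoImplicit false

open scoped Manifold ContDiff Topology ComplexConjugate unitInterval NNReal
open Set Pool.Agent.Helper65.Barb Pool.Agent.Helper18.BI
open Pool.Agent.Helper70.BI (I4 IsW)
open Pool.Agent.Helper18.BI.H (IsW4 mm)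
open Pool.Agent.Helper18.FinR (sqr Pi2 cls FreeClass UpTo)

namespace Pool.Agent.Helper18.BI.R

namespace EVM

theorem mm_edge' (q s : ℝ) (hs : s ≤ 9 / 20 ∨ 11 / 20 ≤ s) : mm q s = (1, 0) := by
  have h : step (10 * s - 9 / 2) = 0 ∨ step (10 * s - 9 / 2) = 1 := by
    rcases hs with hs | hs
    · left; exact step_of_nonpos (by linarith)
    · right; exact step_of_one_le (by linarith)
  unfold mm Pool.Agent.Helper27.BI.zarc Pool.Agent.Helper27.BI.chi Pool.Agent.Helper27.BI.phi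
  rcases h with h | h
  · rw [h]
    simp only [mul_zero, Real.cos_zero, Real.sin_zero, sub_self, zero_div, zero_mul, add_zero]
    rfl
  · rw [h]
    simp only [mul_one, Real.cos_two_pi, Real.sin_two_pi, sub_self, zero_div, zero_mul, add_zero,
      mul_zero]
    rfl

theorem mm_ends' (q s : ℝ) (hq : q = 0 ∨ q = 1) : mm q s = (1, 0) := by
  unfold mm Pool.Agent.Helper27.BI.zarc
  rcases hq with rfl | rfl
  · simp only [mul_zero, Real.cos_zero, Real.sin_zero, sub_self, neg_zero, zero_mul, add_zero]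
    rfl
  · simp only [mul_one, Real.cos_two_pi, Real.sin_two_pi, sub_self, Real.sin_pi, neg_zero, zero_mul,
      mul_zero, add_zero]
    rfl

theorem mm_S2' (q s : ℝ) : mm q s ∈ S2 := by
  show nsq (mm q s) = 1
  unfold mm
  rw [Pool.Agent.Helper27.BI.m_ZNSQ]
  ring

theorem contDiff_mm : ContDiff ℝ ∞ (fun z : ℝ × ℝ => mm z.1 z.2) := by
  unfold mm
  refine Pool.Agent.Helper27.BI.contDiff_zarc ?_ ?_ ?_ ?_
  · exact Real.contDiff_sin.comp (contDiff_const.mul contDiff_fst)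
  · exact Pool.Agent.Helper27.BI.contDiff_chi.comp
      ((contDiff_const.mul contDiff_snd).sub contDiff_const)
  · exact contDiff_fst
  · exact (contDiff_const.mul contDiff_snd).sub contDiff_const

attribute [local irreducible] Pool.Agent.Helper18.BI.H.mm

/-- the rectangle -/
def rect : Set (ℝ × ℝ) := Icc (0 : ℝ) 1 ×ˢ Icc (9 / 20 : ℝ) (11 / 20)

theorem lip_mm : ∃ L : ℝ≥0, LipschitzOnWith L (fun z : ℝ × ℝ => mm z.1 z.2) rect := by
  have hc : IsCompact rect := isCompact_Icc.prod isCompact_Icc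
  have hconv : Convex ℝ rect := (convex_Icc _ _).prod (convex_Icc _ _)
  have hd : Continuous (fderiv ℝ (fun z : ℝ × ℝ => mm z.1 z.2)) :=
    contDiff_mm.continuous_fderiv (by simp)
  obtain ⟨C, hC⟩ := hc.exists_bound_of_continuousOn hd.continuousOn
  refine ⟨Real.toNNReal C, ?_⟩
  refine hconv.lipschitzOnWith_of_nnnorm_fderiv_le
    (fun x _ => (contDiff_mm.differentiable (by simp)) x) fun x hx => ?_
  rw [← NNReal.coe_le_coe]
  exact (hC x hx).trans (Real.le_coe_toNNReal C)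

theorem dist_pair (a b c d : ℝ) :
    dist ((a, b) : ℝ × ℝ) (c, d) = max (dist a c) (dist b d) := rfl

/-- reversal -/
theorem lip_rev {X : Type} [PseudoMetricSpace X] {f : ℝ → ℝ → X} {L : ℝ≥0}
    (h : LipschitzOnWith L (fun z : ℝ × ℝ => f z.1 z.2) rect) :
    LipschitzOnWith L (fun z : ℝ × ℝ => f (1 - z.1) z.2) rect := by
  refine LipschitzOnWith.of_dist_le_mul ?_
  rintro ⟨a, b⟩ ⟨⟨a1, a2⟩, hb⟩ ⟨c, d⟩ ⟨⟨c1, c2⟩, hd⟩
  simp only at a1 a2 c1 c2 hb hd
  have m1 : ((1 - a, b) : ℝ × ℝ) ∈ rect := ⟨⟨by simp only; linarith, by simp only; linarith⟩, hb⟩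
  have m2 : ((1 - c, d) : ℝ × ℝ) ∈ rect := ⟨⟨by simp only; linarith, by simp only; linarith⟩, hd⟩
  have h3 := h.dist_le_mul _ m1 _ m2
  have e1 : dist (1 - a) (1 - c) = dist a c := by
    rw [Real.dist_eq, Real.dist_eq, show (1 - a - (1 - c) : ℝ) = -(a - c) by ring, abs_neg]
  rw [dist_pair, e1, ← dist_pair] at h3
  exact h3

theorem dist_two {a c a' c' : ℝ} (h : dist a' c' = 2 * dist a c) (b d : ℝ) :
    dist ((a', b) : ℝ × ℝ) (c', d) ≤ 2 * dist ((a, b) : ℝ × ℝ) (c, d) := by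
  rw [dist_pair, dist_pair, h]
  refine max_le ?_ ?_
  · exact mul_le_mul_of_nonneg_left (le_max_left _ _) (by norm_num)
  · have h1 := le_max_right (dist a c) (dist b d)
    have h5 : 0 ≤ dist b d := dist_nonneg
    linarith

/-- concatenation of Lipschitz squares -/
theorem lip_cat {M : Type} [PseudoMetricSpace M] {f f' : ℝ → ℝ → M} {L L' : ℝ≥0}
    (h : LipschitzOnWith L (fun z : ℝ × ℝ => f z.1 z.2) rect)
    (h' : LipschitzOnWith L' (fun z : ℝ × ℝ => f' z.1 z.2) rect) (e : ∀ s, f 1 s = f' 0 s) :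
    LipschitzOnWith (2 * L + 2 * L') (fun z : ℝ × ℝ => qcatM f f' z.1 z.2) rect := by
  -- pairs in the same half
  have k1 : ∀ x ∈ rect, ∀ y ∈ rect, x.1 ≤ 1 / 2 → y.1 ≤ 1 / 2 →
      dist (f (2 * x.1) x.2) (f (2 * y.1) y.2) ≤ 2 * L * dist x y := by
    rintro ⟨a, b⟩ ⟨⟨a1, a2⟩, hb⟩ ⟨c, d⟩ ⟨⟨c1, c2⟩, hd⟩ ha hc
    simp only at a1 a2 c1 c2 ha hc hb hd ⊢
    have m1 : ((2 * a, b) : ℝ × ℝ) ∈ rect := ⟨⟨by simp only; linarith, by simp only; linarith⟩, hb⟩
    have m2 : ((2 * c, d) : ℝ × ℝ) ∈ rect := ⟨⟨by simp only; linarith, by simp only; linarith⟩, hd⟩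
    have h3 := h.dist_le_mul _ m1 _ m2
    have h4 : dist ((2 * a, b) : ℝ × ℝ) (2 * c, d) ≤ 2 * dist ((a, b) : ℝ × ℝ) (c, d) :=
      dist_two (by rw [Real.dist_eq, Real.dist_eq, show 2 * a - 2 * c = 2 * (a - c) by ring,
        abs_mul, abs_two]) b d
    calc _ ≤ (L : ℝ) * dist ((2 * a, b) : ℝ × ℝ) (2 * c, d) := h3
      _ ≤ L * (2 * dist ((a, b) : ℝ × ℝ) (c, d)) := mul_le_mul_of_nonneg_left h4 L.coe_nonneg
      _ = _ := by ring
  have k2 : ∀ x ∈ rect, ∀ y ∈ rect, 1 / 2 ≤ x.1 → 1 / 2 ≤ y.1 →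
      dist (f' (2 * x.1 - 1) x.2) (f' (2 * y.1 - 1) y.2) ≤ 2 * L' * dist x y := by
    rintro ⟨a, b⟩ ⟨⟨a1, a2⟩, hb⟩ ⟨c, d⟩ ⟨⟨c1, c2⟩, hd⟩ ha hc
    simp only at a1 a2 c1 c2 ha hc hb hd ⊢
    have m1 : ((2 * a - 1, b) : ℝ × ℝ) ∈ rect :=
      ⟨⟨by simp only; linarith, by simp only; linarith⟩, hb⟩
    have m2 : ((2 * c - 1, d) : ℝ × ℝ) ∈ rect :=
      ⟨⟨by simp only; linarith, by simp only; linarith⟩, hd⟩
    have h3 := h'.dist_le_mul _ m1 _ m2
    have h4 : dist ((2 * a - 1, b) : ℝ × ℝ) (2 * c - 1, d) ≤ 2 * dist ((a, b) : ℝ × ℝ) (c, d) :=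
      dist_two (by rw [Real.dist_eq, Real.dist_eq,
        show 2 * a - 1 - (2 * c - 1) = 2 * (a - c) by ring, abs_mul, abs_two]) b d
    calc _ ≤ (L' : ℝ) * dist ((2 * a - 1, b) : ℝ × ℝ) (2 * c - 1, d) := h3
      _ ≤ L' * (2 * dist ((a, b) : ℝ × ℝ) (c, d)) := mul_le_mul_of_nonneg_left h4 L'.coe_nonneg
      _ = _ := by ring
  have k3 : ∀ x ∈ rect, ∀ y ∈ rect, x.1 ≤ 1 / 2 → 1 / 2 ≤ y.1 →
      dist (f (2 * x.1) x.2) (f' (2 * y.1 - 1) y.2) ≤ (2 * L + 2 * L') * dist x y := by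
    intro x hx y hy h1 h2
    have m : ((1 / 2, x.2) : ℝ × ℝ) ∈ rect := ⟨⟨by norm_num, by norm_num⟩, hx.2⟩
    have e1 := k1 x hx _ m h1 le_rfl
    have e2 := k2 _ m y hy le_rfl h2
    have e3 : f (2 * (1 / 2)) x.2 = f' (2 * (1 / 2) - 1) x.2 := by
      rw [show (2 * (1 / 2) : ℝ) = 1 by norm_num, sub_self]
      exact e _
    simp only at e1 e2
    rw [← e3] at e2
    have d1 : dist x ((1 / 2, x.2) : ℝ × ℝ) ≤ dist x y := by
      show max (dist x.1 (1 / 2)) (dist x.2 x.2) ≤ max (dist x.1 y.1) (dist x.2 y.2)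
      rw [dist_self]
      refine max_le (le_max_of_le_left ?_) (le_max_of_le_left dist_nonneg)
      rw [Real.dist_eq, Real.dist_eq, abs_of_nonpos (by linarith), abs_of_nonpos (by linarith)]
      linarith
    have d2 : dist ((1 / 2, x.2) : ℝ × ℝ) y ≤ dist x y := by
      show max (dist (1 / 2) y.1) (dist x.2 y.2) ≤ max (dist x.1 y.1) (dist x.2 y.2)
      refine max_le (le_max_of_le_left ?_) (le_max_right _ _)
      rw [Real.dist_eq, Real.dist_eq, abs_of_nonpos (by linarith), abs_of_nonpos (by linarith)]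
      linarith
    have l1 : 2 * (L : ℝ) * dist x ((1 / 2, x.2) : ℝ × ℝ) ≤ 2 * L * dist x y :=
      mul_le_mul_of_nonneg_left d1 (by positivity)
    have l2 : 2 * (L' : ℝ) * dist ((1 / 2, x.2) : ℝ × ℝ) y ≤ 2 * L' * dist x y :=
      mul_le_mul_of_nonneg_left d2 (by positivity)
    have := dist_triangle (f (2 * x.1) x.2) (f (2 * (1 / 2)) x.2) (f' (2 * y.1 - 1) y.2)
    nlinarith
  refine LipschitzOnWith.of_dist_le_mul fun x hx y hy => ?_
  have hL := L.coe_nonneg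
  have hL' := L'.coe_nonneg
  have hxy : 0 ≤ dist x y := dist_nonneg
  have cc : ((2 * L + 2 * L' : ℝ≥0) : ℝ) = 2 * L + 2 * L' := by push_cast; ring
  rw [cc]
  have p1 : 0 ≤ (L : ℝ) * dist x y := mul_nonneg hL hxy
  have p2 : 0 ≤ (L' : ℝ) * dist x y := mul_nonneg hL' hxy
  unfold qcatM
  rcases le_or_gt x.1 (1 / 2) with h1 | h1
  · rcases le_or_gt y.1 (1 / 2) with h2 | h2
    · simp only [h1, h2, if_true]
      have := k1 x hx y hy h1 h2
      linarith
    · simp only [h1, if_true, not_le.2 h2, if_false]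
      exact k3 x hx y hy h1 h2.le
  · rcases le_or_gt y.1 (1 / 2) with h2 | h2
    · simp only [h2, if_true, not_le.2 h1, if_false]
      rw [dist_comm, dist_comm x y]
      exact k3 y hy x hx h2 h1.le
    · simp only [not_le.2 h1, not_le.2 h2, if_false]
      have := k2 x hx y hy h1.le h2.le
      linarith

/-- concatenation of continuous families of squares -/
theorem cont_cat {T M : Type} [TopologicalSpace T] [TopologicalSpace M] {C : Set T}
    (hC : IsClosed C) {f f' : T → ℝ → ℝ → M}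
    (h : ContinuousOn (fun z : T × ℝ × ℝ => f z.1 z.2.1 z.2.2) (C ×ˢ (Icc (0 : ℝ) 1 ×ˢ univ)))
    (h' : ContinuousOn (fun z : T × ℝ × ℝ => f' z.1 z.2.1 z.2.2) (C ×ˢ (Icc (0 : ℝ) 1 ×ˢ univ)))
    (e : ∀ τ ∈ C, ∀ s, f τ 1 s = f' τ 0 s) :
    ContinuousOn (fun z : T × ℝ × ℝ => qcatM (f z.1) (f' z.1) z.2.1 z.2.2)
      (C ×ˢ (Icc (0 : ℝ) 1 ×ˢ univ)) := by
  have hs : (C ×ˢ (Icc (0 : ℝ) 1 ×ˢ (univ : Set ℝ))) =
      (C ×ˢ (Icc (0 : ℝ) (1 / 2) ×ˢ univ)) ∪ (C ×ˢ (Icc (1 / 2 : ℝ) 1 ×ˢ univ)) := by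
    rw [← prod_union, ← union_prod, Icc_union_Icc_eq_Icc (by norm_num) (by norm_num)]
  rw [hs]
  refine ContinuousOn.union_of_isClosed ?_ ?_ (hC.prod (isClosed_Icc.prod isClosed_univ))
    (hC.prod (isClosed_Icc.prod isClosed_univ))
  · have h1 : ContinuousOn (fun z : T × ℝ × ℝ => f z.1 (2 * z.2.1) z.2.2)
        (C ×ˢ (Icc (0 : ℝ) (1 / 2) ×ˢ univ)) := by
      have h2 : Continuous (fun z : T × ℝ × ℝ => (z.1, (2 * z.2.1, z.2.2))) := by fun_prop
      refine h.comp (f := fun z : T × ℝ × ℝ => (z.1, (2 * z.2.1, z.2.2))) h2.continuousOn ?_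
      rintro ⟨τ, a, b⟩ ⟨h3, ⟨h4, h5⟩, -⟩
      simp only at h4 h5
      exact ⟨h3, ⟨by simp only; linarith, by simp only; linarith⟩, trivial⟩
    refine h1.congr ?_
    rintro ⟨τ, a, b⟩ ⟨h3, ⟨h4, h5⟩, -⟩
    simp only at h5
    unfold qcatM
    simp only [h5, if_true]
  · have h1 : ContinuousOn (fun z : T × ℝ × ℝ => f' z.1 (2 * z.2.1 - 1) z.2.2)
        (C ×ˢ (Icc (1 / 2 : ℝ) 1 ×ˢ univ)) := by
      have h2 : Continuous (fun z : T × ℝ × ℝ => (z.1, (2 * z.2.1 - 1, z.2.2))) := by fun_prop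
      refine h'.comp (f := fun z : T × ℝ × ℝ => (z.1, (2 * z.2.1 - 1, z.2.2))) h2.continuousOn ?_
      rintro ⟨τ, a, b⟩ ⟨h3, ⟨h4, h5⟩, -⟩
      simp only at h4 h5
      exact ⟨h3, ⟨by simp only; linarith, by simp only; linarith⟩, trivial⟩
    refine h1.congr ?_
    rintro ⟨τ, a, b⟩ ⟨h3, ⟨h4, h5⟩, -⟩
    simp only at h3 h4
    unfold qcatM
    rcases eq_or_lt_of_le h4 with h6 | h6
    · subst h6
      simp only [le_refl, if_true]
      rw [show (2 * (1 / 2) : ℝ) = 1 by norm_num, sub_self]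
      exact e τ h3 b
    · simp only [not_le.2 h6, if_false]

/-- the values on the boundary -/
theorem bdry {M : Type} {n : ℕ} (y : M) (g : Fin n → R3 → M) (hg : ∀ i, g i (1, 0) = y)
    (l : List (Fin n × Bool)) : ∀ q s : ℝ, (q = 0 ∨ q = 1 ∨ s ≤ 9 / 20 ∨ 11 / 20 ≤ s) →
      evM y g l q s = y := by
  induction l with
  | nil => intro q s _; rfl
  | cons p l ih =>
    intro q s h
    obtain ⟨i, b⟩ := p
    have hrec : ¬ q ≤ 1 / 2 → evM y g l (2 * q - 1) s = y := by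
      intro hq
      refine ih _ _ ?_
      rcases h with h | h | h
      · exact absurd (by rw [h]; norm_num) hq
      · right; left; rw [h]; norm_num
      · right; right; exact h
    cases b with
    | true =>
      show qcatM (fun q s => g i (mm q s)) (evM y g l) q s = y
      unfold qcatM
      split_ifs with hq
      · show g i (mm (2 * q) s) = y
        rcases h with h | h | h
        · rw [mm_ends' _ _ (Or.inl (by rw [h]; norm_num)), hg]
        · exfalso; rw [h] at hq; norm_num at hq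
        · rw [mm_edge' _ _ h, hg]
      · exact hrec hq
    | false =>
      show qcatM (fun q s => g i (mm (1 - q) s)) (evM y g l) q s = y
      unfold qcatM
      split_ifs with hq
      · show g i (mm (1 - 2 * q) s) = y
        rcases h with h | h | h
        · rw [mm_ends' _ _ (Or.inr (by rw [h]; norm_num)), hg]
        · exfalso; rw [h] at hq; norm_num at hq
        · rw [mm_edge' _ _ h, hg]
      · exact hrec hq

theorem nat {M M' : Type} {n : ℕ} (Θ : M → M') (y : M) (g : Fin n → R3 → M)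
    (l : List (Fin n × Bool)) : ∀ q s : ℝ,
      evM (Θ y) (fun i m => Θ (g i m)) l q s = Θ (evM y g l q s) := by
  induction l with
  | nil => intro q s; rfl
  | cons p l ih =>
    intro q s
    obtain ⟨i, b⟩ := p
    cases b with
    | true =>
      show qcatM (fun q s => Θ (g i (mm q s))) (evM (Θ y) (fun i m => Θ (g i m)) l) q s =
        Θ (qcatM (fun q s => g i (mm q s)) (evM y g l) q s)
      unfold qcatM
      split_ifs
      · rfl
      · exact ih _ _
    | false =>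
      show qcatM (fun q s => Θ (g i (mm (1 - q) s))) (evM (Θ y) (fun i m => Θ (g i m)) l) q s =
        Θ (qcatM (fun q s => g i (mm (1 - q) s)) (evM y g l) q s)
      unfold qcatM
      split_ifs
      · rfl
      · exact ih _ _

theorem cont_sph {T M : Type} [TopologicalSpace T] [TopologicalSpace M] {C : Set T}
    {k : T × R3 → M} {m : ℝ → ℝ → R3} (hk : ContinuousOn k (C ×ˢ S2))
    (hm : Continuous (fun z : ℝ × ℝ => m z.1 z.2)) (hS : ∀ q s, m q s ∈ S2) :
    ContinuousOn (fun z : T × ℝ × ℝ => k (z.1, m z.2.1 z.2.2)) (C ×ˢ (Icc (0 : ℝ) 1 ×ˢ univ)) := by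
  have h1 : Continuous (fun z : T × ℝ × ℝ => (z.1, m z.2.1 z.2.2)) :=
    continuous_fst.prodMk (hm.comp continuous_snd)
  exact hk.comp (f := fun z : T × ℝ × ℝ => (z.1, m z.2.1 z.2.2)) h1.continuousOn
    fun z hz => ⟨hz.1, hS _ _⟩

theorem continuous_rev {m : ℝ → ℝ → R3} (hm : Continuous (fun z : ℝ × ℝ => m z.1 z.2)) :
    Continuous (fun z : ℝ × ℝ => m (1 - z.1) z.2) := by
  have h0 : Continuous (fun z : ℝ × ℝ => ((1 - z.1, z.2) : ℝ × ℝ)) := by fun_prop
  exact hm.comp h0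

theorem cont {T M : Type} [TopologicalSpace T] [TopologicalSpace M] {C : Set T} {n : ℕ} (y : M)
    (k : Fin n → T × R3 → M) (l : List (Fin n × Bool)) (hC : IsClosed C)
    (hk : ∀ i, ContinuousOn (k i) (C ×ˢ S2)) (hy : ∀ i, ∀ τ ∈ C, k i (τ, (1, 0)) = y) :
    ContinuousOn (fun z : T × ℝ × ℝ => evM y (fun i m => k i (z.1, m)) l z.2.1 z.2.2)
      (C ×ˢ (Icc (0 : ℝ) 1 ×ˢ univ)) := by
  have hmm : Continuous (fun z : ℝ × ℝ => mm z.1 z.2) := contDiff_mm.continuous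
  induction l with
  | nil => exact continuousOn_const
  | cons p l ih =>
    obtain ⟨i, b⟩ := p
    have hb : ∀ τ ∈ C, ∀ s, evM y (fun i m => k i (τ, m)) l 0 s = y := fun τ hτ s =>
      bdry y _ (fun i => hy i τ hτ) l 0 s (Or.inl rfl)
    cases b with
    | true =>
      have e1 : ∀ τ ∈ C, ∀ s, k i (τ, mm 1 s) = evM y (fun i m => k i (τ, m)) l 0 s := by
        intro τ hτ s
        rw [mm_ends' 1 s (Or.inr rfl), hy i τ hτ, hb τ hτ s]
      exact cont_cat (f := fun τ q s => k i (τ, mm q s))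
        (f' := fun τ => evM y (fun i m => k i (τ, m)) l) hC (cont_sph (hk i) hmm mm_S2') ih e1
    | false =>
      have e1 : ∀ τ ∈ C, ∀ s, k i (τ, mm (1 - 1) s) = evM y (fun i m => k i (τ, m)) l 0 s := by
        intro τ hτ s
        rw [mm_ends' (1 - 1) s (Or.inl (sub_self 1)), hy i τ hτ, hb τ hτ s]
      exact cont_cat (f := fun τ q s => k i (τ, mm (1 - q) s))
        (f' := fun τ => evM y (fun i m => k i (τ, m)) l) hC
        (cont_sph (m := fun q s => mm (1 - q) s) (hk i) (continuous_rev hmm)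
          fun _ _ => mm_S2' _ _) ih e1

theorem lip {M : Type} [PseudoMetricSpace M] {n : ℕ} (y : M) (g : Fin n → R3 → M)
    (l : List (Fin n × Bool)) (hg : ∀ i, ∃ L : ℝ≥0, LipschitzOnWith L (g i) S2)
    (hy : ∀ i, g i (1, 0) = y) :
    ∃ L : ℝ≥0, LipschitzOnWith L (fun z : ℝ × ℝ => evM y g l z.1 z.2) rect := by
  obtain ⟨K, hK⟩ := lip_mm
  induction l with
  | nil => exact ⟨0, LipschitzOnWith.of_dist_le_mul fun x _ z _ => by
      show dist y y ≤ _
      simp⟩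
  | cons p l ih =>
    obtain ⟨i, b⟩ := p
    obtain ⟨L', hL'⟩ := ih
    obtain ⟨L, hL⟩ := hg i
    have hb : ∀ s, evM y g l 0 s = y := fun s => bdry y g hy l 0 s (Or.inl rfl)
    have h1 : LipschitzOnWith (L * K) (fun z : ℝ × ℝ => g i (mm z.1 z.2)) rect :=
      hL.comp hK fun z _ => mm_S2' _ _
    cases b with
    | true =>
      have e1 : ∀ s, g i (mm 1 s) = evM y g l 0 s := by
        intro s
        rw [mm_ends' 1 s (Or.inr rfl), hy i, hb s]
      exact ⟨_, lip_cat (f := fun q s => g i (mm q s)) h1 hL' e1⟩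
    | false =>
      have e1 : ∀ s, g i (mm (1 - 1) s) = evM y g l 0 s := by
        intro s
        rw [mm_ends' (1 - 1) s (Or.inl (sub_self 1)), hy i, hb s]
      exact ⟨_, lip_cat (f := fun q s => g i (mm (1 - q) s))
        (lip_rev (f := fun q s => g i (mm q s)) h1) hL' e1⟩

end EVM

/-- **EVM.** Squares of words. -/
theorem m_EVM : StEVM :=
  ⟨fun _ _ _ Θ y g l q s => EVM.nat Θ y g l q s,
    fun _ _ y g l q s hg h => EVM.bdry y g hg l q s h,
    fun _ _ _ _ _ _ y k l hC hk hy => EVM.cont y k l hC hk hy,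
    fun _ _ _ y g l hg hy => EVM.lip y g l hg hy⟩

end Pool.Agent.Helper18.BI.R


end

/-! ## Helper18.BI.R.M_WRD -/

section

/-!
# Project BI, stage 4 (R): MODULE WRD (helper99)
-/

set_option autoImplicit false

open scoped Manifold ContDiff Topology ComplexConjugate unitInterval
open Set Pool.Agent.Helper65.Barb Pool.Agent.Helper18.BI
open Pool.Agent.Helper70.BI (I4 IsW)
open Pool.Agent.Helper18.BI.H (IsW4 mm)
open Pool.Agent.Helper18.FinR (sqr Pi2 cls FreeClass UpTo)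

namespace Pool.Agent.Helper18.BI.R

namespace WRD

section

variable {X : Type} [TopologicalSpace X] {y₀ : X}

/-- the loop of a word -/
noncomputable def G {n : ℕ} (f : Fin n → GenLoop (Fin 2) X y₀) :
    List (Fin n × Bool) → GenLoop (Fin 2) X y₀
  | [] => GenLoop.const
  | (i, true) :: l => GenLoop.transAt 0 (f i) (G f l)
  | (i, false) :: l => GenLoop.transAt 0 (GenLoop.symmAt 0 (f i)) (G f l)

/-- the class of a loop -/
def hc (p : GenLoop (Fin 2) X y₀) : HomotopyGroup (Fin 2) X y₀ := Quotient.mk _ p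

lemma mk_transAt (p q : GenLoop (Fin 2) X y₀) : hc (GenLoop.transAt 0 p q) = hc p * hc q := by
  rw [mul_comm]
  exact (HomotopyGroup.mul_spec (i := 0) (p := q) (q := p)).symm

lemma mk_symmAt (p : GenLoop (Fin 2) X y₀) : hc (GenLoop.symmAt 0 p) = (hc p)⁻¹ :=
  (HomotopyGroup.inv_spec (i := 0) (p := p)).symm

lemma G_class {n : ℕ} (f : Fin n → GenLoop (Fin 2) X y₀) (l : List (Fin n × Bool)) :
    hc (G f l) = (l.map fun p => if p.2 then hc (f p.1) else (hc (f p.1))⁻¹).prod := by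
  induction l with
  | nil => rfl
  | cons a l ih =>
    obtain ⟨i, b⟩ := a
    cases b with
    | true =>
      rw [List.map_cons, List.prod_cons, ← ih]
      exact mk_transAt _ _
    | false =>
      rw [List.map_cons, List.prod_cons, ← ih]
      show hc (GenLoop.transAt 0 (GenLoop.symmAt 0 (f i)) (G f l)) = _
      rw [mk_transAt, mk_symmAt]
      rfl

end

/-- the point of the square -/
noncomputable def pt (q s : ℝ) : Fin 2 → I :=
  ![projIcc 0 1 zero_le_one q, projIcc 0 1 zero_le_one (step (10 * s - 9 / 2))]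

lemma step_mem' (t : ℝ) : step t ∈ Icc (0 : ℝ) 1 :=
  ⟨Real.smoothTransition.nonneg t, Real.smoothTransition.le_one t⟩

lemma pt0 {q : ℝ} (hq : q ∈ Icc (0 : ℝ) 1) (s : ℝ) : ((pt q s 0 : I) : ℝ) = q := by
  show ((projIcc 0 1 zero_le_one q : Icc (0 : ℝ) 1) : ℝ) = q
  rw [projIcc_of_mem zero_le_one hq]

lemma pt1 (q s : ℝ) : ((pt q s 1 : I) : ℝ) = step (10 * s - 9 / 2) := by
  show ((projIcc 0 1 zero_le_one (step (10 * s - 9 / 2)) : Icc (0 : ℝ) 1) : ℝ) = _
  rw [projIcc_of_mem zero_le_one (step_mem' _)]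

lemma update_pt (q q' s : ℝ) :
    Function.update (pt q s) 0 (projIcc 0 1 zero_le_one q') = pt q' s := by
  ext i
  fin_cases i
  · simp [pt]
  · simp [pt]

lemma continuous_pt : Continuous fun z : ℝ × ℝ => pt z.1 z.2 := by
  apply continuous_pi
  intro i
  fin_cases i
  · exact ((continuous_projIcc (h := zero_le_one)).comp continuous_fst)
  · exact (continuous_projIcc (h := zero_le_one)).comp (Real.smoothTransition.continuous.comp (by fun_prop))

variable {A : Set S4} {y₀ : {x : S4 // x ∉ A}}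

lemma sphere_pt (hMQ : StMQ) {n : ℕ} {f : Fin n → GenLoop (Fin 2) {x : S4 // x ∉ A} y₀}
    {g : Fin n → R3 → S4} (hg : ∀ i t, g i (sqr t) = f i t) (i : Fin n) {q : ℝ}
    (hq : q ∈ Icc (0 : ℝ) 1) (s : ℝ) : g i (mm q s) = f i (pt q s) := by
  rw [hMQ.1 q s, ← hg i (pt q s)]
  congr 1
  show _ = mq (pt q s 0 : I) (pt q s 1 : I)
  rw [pt0 hq, pt1]

lemma evM_eq (hMQ : StMQ) {n : ℕ} {f : Fin n → GenLoop (Fin 2) {x : S4 // x ∉ A} y₀}
    {g : Fin n → R3 → S4} (hg : ∀ i t, g i (sqr t) = f i t) (l : List (Fin n × Bool)) :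
    ∀ q ∈ Icc (0 : ℝ) 1, ∀ s : ℝ, evM (y₀ : S4) g l q s = (G f l (pt q s) : S4) := by
  induction l with
  | nil => exact fun _ _ _ => rfl
  | cons a l ih =>
    obtain ⟨i, b⟩ := a
    intro q hq s
    cases b with
    | true =>
      show (if q ≤ 1 / 2 then g i (mm (2 * q) s) else evM (y₀ : S4) g l (2 * q - 1) s) =
        ((if ((pt q s 0 : I) : ℝ) ≤ 1 / 2
          then f i (Function.update (pt q s) 0 (projIcc 0 1 zero_le_one (2 * (pt q s 0 : I))))
          else G f l (Function.update (pt q s) 0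
            (projIcc 0 1 zero_le_one (2 * (pt q s 0 : I) - 1))) : {x : S4 // x ∉ A}) : S4)
      rw [pt0 hq, update_pt, update_pt]
      split_ifs with h
      · exact sphere_pt hMQ hg i ⟨by linarith [hq.1], by linarith⟩ s
      · push Not at h
        exact ih _ ⟨by linarith, by linarith [hq.2]⟩ s
    | false =>
      show (if q ≤ 1 / 2 then g i (mm (1 - 2 * q) s) else evM (y₀ : S4) g l (2 * q - 1) s) =
        ((if ((pt q s 0 : I) : ℝ) ≤ 1 / 2
          then GenLoop.symmAt 0 (f i)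
            (Function.update (pt q s) 0 (projIcc 0 1 zero_le_one (2 * (pt q s 0 : I))))
          else G f l (Function.update (pt q s) 0
            (projIcc 0 1 zero_le_one (2 * (pt q s 0 : I) - 1))) : {x : S4 // x ∉ A}) : S4)
      rw [pt0 hq, update_pt, update_pt]
      split_ifs with h
      · have hq2 : 2 * q ∈ Icc (0 : ℝ) 1 := ⟨by linarith [hq.1], by linarith⟩
        have hq3 : 1 - 2 * q ∈ Icc (0 : ℝ) 1 := ⟨by linarith, by linarith [hq.1]⟩
        rw [sphere_pt hMQ hg i hq3 s]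
        congr 1
        show f i (pt (1 - 2 * q) s) =
          f i fun j => if j = 0 then σ (pt (2 * q) s 0) else pt (2 * q) s j
        congr 1
        ext j
        fin_cases j
        · show ((pt (1 - 2 * q) s 0 : I) : ℝ) = 1 - ((pt (2 * q) s 0 : I) : ℝ)
          rw [pt0 hq3, pt0 hq2]
        · show ((pt (1 - 2 * q) s 1 : I) : ℝ) = ((pt (2 * q) s 1 : I) : ℝ)
          rw [pt1, pt1]
      · push Not at h
        exact ih _ ⟨by linarith, by linarith [hq.2]⟩ s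

lemma pt_boundary {q s : ℝ} (h : q = 0 ∨ q = 1 ∨ s = 9 / 20 ∨ s = 11 / 20) :
    pt q s ∈ Cube.boundary (Fin 2) := by
  rcases h with rfl | rfl | rfl | rfl
  · exact ⟨0, Or.inl (projIcc_left zero_le_one)⟩
  · exact ⟨0, Or.inr (projIcc_right zero_le_one)⟩
  · refine ⟨1, Or.inl (Subtype.ext ?_)⟩
    rw [pt1]
    have h1 : (10 * (9 / 20) - 9 / 2 : ℝ) = 0 := by norm_num
    rw [h1]
    exact Real.smoothTransition.zero
  · refine ⟨1, Or.inr (Subtype.ext ?_)⟩
    rw [pt1]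
    have h1 : (10 * (11 / 20) - 9 / 2 : ℝ) = 1 := by norm_num
    rw [h1]
    exact Real.smoothTransition.one

end WRD

open WRD

theorem m_WRD (hMQ : StMQ) : StWRD := by
  intro A y₀ n f g l hg hl
  have h1 : hc (G f l) = hc GenLoop.const := by
    rw [G_class f l]
    exact hl
  obtain ⟨H⟩ : GenLoop.Homotopic (G f l) GenLoop.const := Quotient.exact h1
  refine ⟨fun z => (H (projIcc 0 1 zero_le_one z.1, pt z.2.1 z.2.2) : {x : S4 // x ∉ A}),
    ?_, ?_, ?_⟩
  · apply Continuous.continuousOn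
    apply continuous_subtype_val.comp
    apply H.continuous.comp
    exact (continuous_projIcc.comp continuous_fst).prodMk
      (continuous_pt.comp (by fun_prop : Continuous fun z : ℝ × ℝ × ℝ => (z.2.1, z.2.2)))
  · intro q hq s _
    refine ⟨?_, ?_⟩
    · show ((H (projIcc 0 1 zero_le_one 0, pt q s) : {x : S4 // x ∉ A}) : S4) = _
      rw [projIcc_left, evM_eq hMQ hg l q hq s]
      exact congrArg Subtype.val (H.apply_zero _)
    · show ((H (projIcc 0 1 zero_le_one 1, pt q s) : {x : S4 // x ∉ A}) : S4) = _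
      rw [projIcc_right]
      exact congrArg Subtype.val (H.apply_one _)
  · intro u _ q _ s _
    refine ⟨(H (projIcc 0 1 zero_le_one u, pt q s)).2, fun h => ?_⟩
    show ((H (projIcc 0 1 zero_le_one u, pt q s) : {x : S4 // x ∉ A}) : S4) = _
    have h2 := H.eq_fst (projIcc 0 1 zero_le_one u) (pt_boundary h)
    rw [h2]
    exact congrArg Subtype.val ((G f l).2 _ (pt_boundary h))

end Pool.Agent.Helper18.BI.R


end

/-! ## Helper34.BI.R.M_LIP -/

section

/-!
# Project BI, stage 4 (R), modules LIP and DIM: Lipschitz approximation in the 4-sphere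
-/

set_option autoImplicit false

open scoped Manifold ContDiff Topology ComplexConjugate
open Set Filter Module Pool.Agent.Helper65.Barb Pool.Agent.Helper18.BI Pool.Agent.Helper18.BI.R

namespace Pool.Agent.Helper34.BI.R

namespace Lip

/-- five-space -/
abbrev E5 : Type := EuclideanSpace ℝ (Fin 5)

section
variable {X : Type} [MetricSpace X]

/-- Lipschitz approximation of a real function on a compact set -/
theorem real_approx {P : Set X} (hP : IsCompact P) {φ : X → ℝ} (hφ : ContinuousOn φ P) {ρ : ℝ}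
    (hρ : 0 < ρ) : ∃ (e : X → ℝ) (k : ℝ), 0 ≤ k ∧ (∀ x y, |e x - e y| ≤ k * dist x y) ∧
      ∀ x ∈ P, |e x - φ x| ≤ ρ := by
  rcases P.eq_empty_or_nonempty with rfl | hne
  · exact ⟨fun _ => 0, 0, le_rfl, fun x y => by simp, fun x hx => absurd hx (notMem_empty x)⟩
  obtain ⟨M, hM⟩ := hP.exists_bound_of_continuousOn hφ
  have hM' : ∀ x ∈ P, |φ x| ≤ M := hM
  have hM0 : 0 ≤ M := by
    obtain ⟨x, hx⟩ := hne
    exact (abs_nonneg _).trans (hM' x hx)
  have hu := hP.uniformContinuousOn_of_continuous hφ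
  rw [Metric.uniformContinuousOn_iff] at hu
  obtain ⟨δ, hδ, hu⟩ := hu ρ hρ
  let k : ℝ := 2 * M / δ
  have hk : 0 ≤ k := div_nonneg (by linarith) hδ.le
  have hmin : ∀ x : X, ∃ y ∈ P, ∀ z ∈ P, φ y + k * dist x y ≤ φ z + k * dist x z := by
    intro x
    have hc : ContinuousOn (fun y => φ y + k * dist x y) P :=
      hφ.add (continuous_const.mul (continuous_const.dist continuous_id)).continuousOn
    obtain ⟨y, hy, hy'⟩ := hP.exists_isMinOn hne hc
    exact ⟨y, hy, fun z hz => hy' hz⟩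
  choose m hmP hm using hmin
  have h1 : ∀ x y, φ (m x) + k * dist x (m x) ≤ φ (m y) + k * dist y (m y) + k * dist x y := by
    intro x y
    have h2 := hm x (m y) (hmP y)
    have h3 : k * dist x (m y) ≤ k * (dist x y + dist y (m y)) :=
      mul_le_mul_of_nonneg_left (dist_triangle _ _ _) hk
    linarith
  refine ⟨fun x => φ (m x) + k * dist x (m x), k, hk, fun x y => ?_, fun x hx => ?_⟩
  · rw [abs_le]
    have h2 := h1 x y
    have h3 := h1 y x
    rw [dist_comm y x] at h3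
    constructor <;> linarith
  · have h2 := hm x x hx
    rw [dist_self, mul_zero, add_zero] at h2
    rw [abs_le]
    refine ⟨?_, by linarith⟩
    have h0 : 0 ≤ k * dist x (m x) := mul_nonneg hk dist_nonneg
    rcases lt_or_ge (dist x (m x)) δ with h3 | h3
    · have h4 := hu x hx (m x) (hmP x) h3
      rw [Real.dist_eq, abs_lt] at h4
      linarith [h4.2]
    · have h4 : 2 * M ≤ k * dist x (m x) := by
        calc 2 * M = k * δ := by
              show 2 * M = 2 * M / δ * δ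
              field_simp
          _ ≤ k * dist x (m x) := mul_le_mul_of_nonneg_left h3 hk
      have h5 := abs_le.1 (hM' x hx)
      have h6 := abs_le.1 (hM' _ (hmP x))
      linarith [h5.2, h6.1]

/-- the soft truncation is 1-Lipschitz: ordered case -/
theorem LIP_trunc_le (c : ℝ) {x y : ℝ} (h : x ≤ y) :
    |y - max (-c) (min c y) - (x - max (-c) (min c x))| ≤ y - x := by
  have h1 : max (-c) (min c x) ≤ max (-c) (min c y) :=
    max_le_max le_rfl (min_le_min le_rfl h)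
  have h2 : max (-c) (min c y) ≤ max (-c) (min c x) + (y - x) := by
    refine max_le ?_ ?_
    · have h3 : -c ≤ max (-c) (min c x) := le_max_left _ _
      linarith
    · have h3 : min c x ≤ max (-c) (min c x) := le_max_right _ _
      have h4 : min c y - (y - x) ≤ min c x := by
        refine le_min ?_ ?_
        · have h5 : min c y ≤ c := min_le_left _ _
          linarith
        · have h5 : min c y ≤ y := min_le_right _ _
          linarith
      linarith
  rw [abs_le]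
  generalize max (-c) (min c x) = u at *
  generalize max (-c) (min c y) = v at *
  exact ⟨by linarith, by linarith⟩

/-- the soft truncation is 1-Lipschitz -/
theorem LIP_trunc (c x y : ℝ) :
    |x - max (-c) (min c x) - (y - max (-c) (min c y))| ≤ |x - y| := by
  rcases le_total x y with h | h
  · rw [abs_sub_comm, abs_sub_comm x y]
    exact (LIP_trunc_le c h).trans (le_abs_self _)
  · exact (LIP_trunc_le c h).trans (le_abs_self _)

/-- relative version -/
theorem real_rel {P P₀ : Set X} (hP : IsCompact P) (hP₀ : P₀ ⊆ P) {φ : X → ℝ}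
    (hφ : ContinuousOn φ P) {L : NNReal} (hL : LipschitzOnWith L φ P₀) {ρ : ℝ} (hρ : 0 < ρ) :
    ∃ (e : X → ℝ) (k : ℝ), 0 ≤ k ∧ (∀ x y, |e x - e y| ≤ k * dist x y) ∧
      (∀ x ∈ P, |e x - φ x| ≤ ρ) ∧ ∀ x ∈ P₀, e x = φ x := by
  obtain ⟨g, hg, hgφ⟩ := hL.extend_real
  obtain ⟨e, k, hk, he, hea⟩ := real_approx hP (hφ.sub hg.continuous.continuousOn)
    (half_pos hρ)
  -- soft truncation
  let τ : ℝ → ℝ := fun x => x - max (-(ρ / 2)) (min (ρ / 2) x)
  have hτ : ∀ x y, |τ x - τ y| ≤ |x - y| := by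
    exact fun x y => LIP_trunc (ρ / 2) x y
  have hτa : ∀ x, |τ x - x| ≤ ρ / 2 := by
    intro x
    show |x - max (-(ρ / 2)) (min (ρ / 2) x) - x| ≤ ρ / 2
    rw [abs_le]
    have h1 : -(ρ / 2) ≤ max (-(ρ / 2)) (min (ρ / 2) x) := le_max_left _ _
    have h2 : max (-(ρ / 2)) (min (ρ / 2) x) ≤ ρ / 2 := max_le (by linarith) (min_le_left _ _)
    constructor <;> linarith
  have hτ0 : ∀ x, |x| ≤ ρ / 2 → τ x = 0 := by
    intro x hx
    show x - max (-(ρ / 2)) (min (ρ / 2) x) = 0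
    have := abs_le.1 hx
    rw [min_eq_right this.2, max_eq_right this.1, sub_self]
  refine ⟨fun x => g x + τ (e x), L + k, by positivity, fun x y => ?_, fun x hx => ?_, fun x hx => ?_⟩
  · have h1 : |g x - g y| ≤ L * dist x y := by
      have := hg.dist_le_mul x y
      rwa [Real.dist_eq] at this
    have h2 := (hτ (e x) (e y)).trans (he x y)
    calc |g x + τ (e x) - (g y + τ (e y))| = |(g x - g y) + (τ (e x) - τ (e y))| := by
          congr 1
          ring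
      _ ≤ |g x - g y| + |τ (e x) - τ (e y)| := abs_add_le _ _
      _ ≤ (L + k) * dist x y := by
          rw [add_mul]
          linarith
  · have h1 := hea x hx
    simp only [Pi.sub_apply] at h1
    calc |g x + τ (e x) - φ x| = |(τ (e x) - e x) + (e x - (φ x - g x))| := by
          congr 1
          ring
      _ ≤ |τ (e x) - e x| + |e x - (φ x - g x)| := abs_add_le _ _
      _ ≤ ρ := by linarith [hτa (e x)]
  · have h1 := hea x (hP₀ hx)
    simp only [Pi.sub_apply] at h1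
    rw [hgφ hx, sub_self, sub_zero] at h1
    show g x + τ (e x) = φ x
    rw [hτ0 _ h1, add_zero, hgφ hx]

theorem norm_le_sum (w : E5) : ‖w‖ ≤ ∑ i, |w i| := by
  rw [EuclideanSpace.norm_eq]
  have h1 : ∑ i, ‖w i‖ ^ 2 ≤ (∑ i, ‖w i‖) ^ 2 :=
    Finset.sum_sq_le_sq_sum_of_nonneg fun i _ => norm_nonneg _
  have h2 := Real.sqrt_le_sqrt h1
  rwa [Real.sqrt_sq (Finset.sum_nonneg fun i _ => norm_nonneg _)] at h2

/-- version for maps to five-space -/
theorem vec_rel {P P₀ : Set X} (hP : IsCompact P) (hP₀ : P₀ ⊆ P) {φ : X → E5}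
    (hφ : ContinuousOn φ P) {L : NNReal} (hL : LipschitzOnWith L φ P₀) {ρ : ℝ} (hρ : 0 < ρ) :
    ∃ (e : X → E5) (k : ℝ), 0 ≤ k ∧ (∀ x y, ‖e x - e y‖ ≤ k * dist x y) ∧
      (∀ x ∈ P, ‖e x - φ x‖ ≤ ρ) ∧ ∀ x ∈ P₀, e x = φ x := by
  have h1 : ∀ i : Fin 5, ContinuousOn (fun x => φ x i) P := fun i =>
    (EuclideanSpace.proj i).continuous.comp_continuousOn hφ
  have h2 : ∀ i : Fin 5, LipschitzOnWith L (fun x => φ x i) P₀ := by
    intro i
    refine LipschitzOnWith.of_dist_le_mul fun x hx y hy => ?_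
    rw [Real.dist_eq]
    have h3 := hL.dist_le_mul x hx y hy
    rw [dist_eq_norm] at h3
    exact (PiLp.norm_apply_le (φ x - φ y) i).trans h3
  have h3 : ∀ i : Fin 5, ∃ (e : X → ℝ) (k : ℝ), 0 ≤ k ∧ (∀ x y, |e x - e y| ≤ k * dist x y) ∧
      (∀ x ∈ P, |e x - φ x i| ≤ ρ / 5) ∧ ∀ x ∈ P₀, e x = φ x i := fun i =>
    real_rel hP hP₀ (h1 i) (h2 i) (by positivity)
  choose e k hk he hea he0 using h3
  refine ⟨fun x => WithLp.toLp 2 fun i => e i x, ∑ i, k i, Finset.sum_nonneg fun i _ => hk i,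
    fun x y => ?_, fun x hx => ?_, fun x hx => ?_⟩
  · refine (norm_le_sum _).trans ?_
    rw [Finset.sum_mul]
    exact Finset.sum_le_sum fun i _ => he i x y
  · refine (norm_le_sum _).trans ?_
    calc ∑ i, |(WithLp.toLp 2 (fun i => e i x) - φ x : E5) i| ≤ ∑ _i : Fin 5, ρ / 5 :=
          Finset.sum_le_sum fun i _ => hea i x hx
      _ = ρ := by
          simp
          ring
  · ext i
    exact he0 i x hx

theorem norm_normalize_sub {x y : E5} (hx : x ≠ 0) (hy : y ≠ 0) :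
    ‖‖x‖⁻¹ • x - ‖y‖⁻¹ • y‖ ≤ 2 * ‖x‖⁻¹ * ‖x - y‖ := by
  have hx' : 0 < ‖x‖ := norm_pos_iff.2 hx
  have hy' : 0 < ‖y‖ := norm_pos_iff.2 hy
  have e : ‖x‖⁻¹ • x - ‖y‖⁻¹ • y = ‖x‖⁻¹ • (x - y) + (‖x‖⁻¹ - ‖y‖⁻¹) • y := by
    rw [smul_sub, sub_smul]
    abel
  rw [e]
  refine (norm_add_le _ _).trans ?_
  rw [norm_smul, norm_smul, norm_inv, norm_norm, Real.norm_eq_abs]
  have h1 : |‖x‖⁻¹ - ‖y‖⁻¹| * ‖y‖ = ‖x‖⁻¹ * |‖y‖ - ‖x‖| := by
    have h2 : ‖x‖⁻¹ - ‖y‖⁻¹ = ‖x‖⁻¹ * ((‖y‖ - ‖x‖) * ‖y‖⁻¹) := by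
      field_simp
    rw [h2, abs_mul, abs_mul, abs_of_pos (inv_pos.2 hx'), abs_of_pos (inv_pos.2 hy')]
    field_simp
  rw [h1]
  have h3 : |‖y‖ - ‖x‖| ≤ ‖x - y‖ := by
    rw [norm_sub_rev]
    exact abs_norm_sub_norm_le y x
  have h4 : ‖x‖⁻¹ * |‖y‖ - ‖x‖| ≤ ‖x‖⁻¹ * ‖x - y‖ :=
    mul_le_mul_of_nonneg_left h3 (inv_nonneg.2 hx'.le)
  linarith

end

end Lip

open Lip

theorem m_LIP : StLIP := by
  intro X _ P P₀ K f hP hP₀ hK hf ⟨L, hL⟩ hoff
  let ι : S4 → E5 := fun y => y.1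
  have hι : Continuous ι := continuous_subtype_val
  have hιn : ∀ y : S4, ‖ι y‖ = 1 := fun y => by
    have := y.2
    rwa [mem_sphere_zero_iff_norm] at this
  have hιd : ∀ y y' : S4, dist y y' = ‖ι y - ι y'‖ := fun y y' => by
    rw [← dist_eq_norm]
    rfl
  have hfι : ContinuousOn (fun x => ι (f x)) P := hι.comp_continuousOn hf
  have hLι : LipschitzOnWith L (fun x => ι (f x)) P₀ := by
    refine LipschitzOnWith.of_dist_le_mul fun x hx y hy => ?_
    have h3 := hL.dist_le_mul x hx y hy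
    rw [hιd, ← dist_eq_norm] at h3
    exact h3
  -- the distance
  have hE : IsCompact (f '' P) := hP.image_of_continuousOn hf
  obtain ⟨r, hr0, hr⟩ := Metric.exists_pos_forall_lt_edist hE hK.isClosed (by
    rw [Set.disjoint_left]
    rintro _ ⟨x, hx, rfl⟩
    exact hoff x hx)
  have hr' : ∀ x ∈ f '' P, ∀ y ∈ K, (r : ℝ) < dist x y := by
    intro x hx y hy
    have h2 := hr x hx y hy
    rw [edist_nndist] at h2
    have h3 : r < nndist x y := by exact_mod_cast h2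
    exact_mod_cast h3
  obtain ⟨ρ, hρ0, hρ1, hρr⟩ : ∃ ρ : ℝ, 0 < ρ ∧ ρ ≤ 1 / 4 ∧ 2 * ρ ≤ r := by
    have hr0' : (0 : ℝ) < r := by exact_mod_cast hr0
    exact ⟨min (1 / 4) (r / 2), lt_min (by norm_num) (by linarith), min_le_left _ _,
      by have := min_le_right (1 / 4) ((r : ℝ) / 2); linarith⟩
  obtain ⟨v, k, hk, hv, hva, hv0⟩ := vec_rel hP hP₀ hfι hLι hρ0
  -- the linear homotopy
  let w : ℝ × X → E5 := fun z => ι (f z.2) + z.1 • (v z.2 - ι (f z.2))
  have hwf : ∀ u ∈ Icc (0 : ℝ) 1, ∀ x ∈ P, ‖w (u, x) - ι (f x)‖ ≤ ρ := by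
    intro u hu x hx
    have h2 : w (u, x) - ι (f x) = u • (v x - ι (f x)) := by
      show ι (f x) + u • (v x - ι (f x)) - ι (f x) = _
      abel
    rw [h2, norm_smul, Real.norm_eq_abs, abs_of_nonneg hu.1]
    calc u * ‖v x - ι (f x)‖ ≤ 1 * ‖v x - ι (f x)‖ :=
          mul_le_mul_of_nonneg_right hu.2 (norm_nonneg _)
      _ ≤ ρ := by rw [one_mul]; exact hva x hx
  have hwn : ∀ u ∈ Icc (0 : ℝ) 1, ∀ x ∈ P, |‖w (u, x)‖ - 1| ≤ ρ := by
    intro u hu x hx
    rw [← hιn (f x)]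
    exact (abs_norm_sub_norm_le _ _).trans (hwf u hu x hx)
  have hwp : ∀ u ∈ Icc (0 : ℝ) 1, ∀ x ∈ P, 3 / 4 ≤ ‖w (u, x)‖ := by
    intro u hu x hx
    have := abs_le.1 (hwn u hu x hx)
    linarith [this.1]
  have hw0 : ∀ u ∈ Icc (0 : ℝ) 1, ∀ x ∈ P, w (u, x) ≠ 0 := by
    intro u hu x hx h2
    have := hwp u hu x hx
    rw [h2, norm_zero] at this
    linarith
  have hpt : ∀ x : E5, x ≠ 0 → ‖x‖⁻¹ • x ∈ Metric.sphere (0 : E5) 1 := by
    intro x hx
    rw [mem_sphere_zero_iff_norm, norm_smul, norm_inv, norm_norm]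
    exact inv_mul_cancel₀ (norm_ne_zero_iff.2 hx)
  have hch : ∀ z : ℝ × X, ∃ y : S4, w z ≠ 0 → ι y = ‖w z‖⁻¹ • w z := by
    intro z
    by_cases hz : w z = 0
    · exact ⟨f z.2, fun h2 => absurd hz h2⟩
    · exact ⟨⟨_, hpt _ hz⟩, fun _ => rfl⟩
  choose H hH using hch
  have hH1 : ∀ z : ℝ × X, w z = ι (f z.2) → H z = f z.2 := by
    intro z hz
    have h2 : w z ≠ 0 := by
      rw [hz, ← norm_ne_zero_iff, hιn]
      exact one_ne_zero
    have h3 := hH z h2
    rw [hz, hιn, inv_one, one_smul] at h3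
    exact Subtype.ext h3
  have hwc : ContinuousOn w (Icc (0 : ℝ) 1 ×ˢ P) := by
    have a1 : ContinuousOn (fun z : ℝ × X => ι (f z.2)) (Icc (0 : ℝ) 1 ×ˢ P) :=
      hfι.comp continuous_snd.continuousOn fun z hz => hz.2
    have a2 : Continuous v := by
      have : LipschitzWith (Real.toNNReal k) v := LipschitzWith.of_dist_le' fun x y => by
        rw [dist_eq_norm]
        exact hv x y
      exact this.continuous
    have a3 : ContinuousOn (fun z : ℝ × X => v z.2) (Icc (0 : ℝ) 1 ×ˢ P) :=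
      (a2.comp continuous_snd).continuousOn
    exact a1.add (continuous_fst.continuousOn.smul (a3.sub a1))
  refine ⟨fun x => H (1, x), H, ⟨Real.toNNReal (8 / 3 * k), ?_⟩, ?_, fun x hx => ⟨?_, rfl⟩, ?_, ?_⟩
  · refine LipschitzOnWith.of_dist_le' fun x hx y hy => ?_
    have h11 : (1 : ℝ) ∈ Icc (0 : ℝ) 1 := ⟨zero_le_one, le_rfl⟩
    have e1 : ∀ x, w (1, x) = v x := fun x => by
      show ι (f x) + (1 : ℝ) • (v x - ι (f x)) = v x
      rw [one_smul]
      abel
    rw [hιd, hH _ (hw0 1 h11 x hx), hH _ (hw0 1 h11 y hy)]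
    refine (norm_normalize_sub (hw0 1 h11 x hx) (hw0 1 h11 y hy)).trans ?_
    have h2 := hwp 1 h11 x hx
    have h3 : ‖w (1, x)‖⁻¹ ≤ 4 / 3 := by
      rw [inv_le_comm₀ (by linarith) (by norm_num)]
      norm_num
      linarith
    have h4 : ‖w (1, x) - w (1, y)‖ ≤ k * dist x y := by
      rw [e1, e1]
      exact hv x y
    calc 2 * ‖w (1, x)‖⁻¹ * ‖w (1, x) - w (1, y)‖ ≤ 2 * (4 / 3) * (k * dist x y) := by
          apply mul_le_mul _ h4 (norm_nonneg _) (by norm_num)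
          linarith
      _ = 8 / 3 * k * dist x y := by ring
  · rw [Topology.IsInducing.subtypeVal.continuousOn_iff]
    have h2 : ContinuousOn (fun z => ‖w z‖⁻¹) (Icc (0 : ℝ) 1 ×ˢ P) :=
      hwc.norm.inv₀ fun z hz => norm_ne_zero_iff.2 (hw0 z.1 hz.1 z.2 hz.2)
    exact (h2.smul hwc).congr fun z hz => hH z (hw0 z.1 hz.1 z.2 hz.2)
  · apply hH1 (0, x)
    show ι (f x) + (0 : ℝ) • (v x - ι (f x)) = ι (f x)
    rw [zero_smul, add_zero]
  · intro u hu x hx hk
    have h2 := hr' _ (mem_image_of_mem f hx) _ hk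
    have h3 : dist (f x) (H (u, x)) ≤ ‖w (u, x) - ι (f x)‖ + |‖w (u, x)‖ - 1| := by
      have hne := hw0 u hu x hx
      have h6 : ‖w (u, x)‖ ≠ 0 := norm_ne_zero_iff.2 hne
      have h4 : ‖w (u, x) - ι (H (u, x))‖ = |‖w (u, x)‖ - 1| := by
        rw [hH _ hne]
        have h5 : w (u, x) - ‖w (u, x)‖⁻¹ • w (u, x) = (1 - ‖w (u, x)‖⁻¹) • w (u, x) := by
          rw [sub_smul, one_smul]
        rw [h5, norm_smul, Real.norm_eq_abs]
        rw [← abs_of_nonneg (norm_nonneg (w (u, x))), ← abs_mul, abs_norm]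
        congr 1
        field_simp
      rw [hιd]
      calc ‖ι (f x) - ι (H (u, x))‖ = ‖(ι (f x) - w (u, x)) + (w (u, x) - ι (H (u, x)))‖ := by
            congr 1
            abel
        _ ≤ ‖ι (f x) - w (u, x)‖ + ‖w (u, x) - ι (H (u, x))‖ := norm_add_le _ _
        _ = ‖w (u, x) - ι (f x)‖ + |‖w (u, x)‖ - 1| := by rw [h4, norm_sub_rev]
    have h7 := hwf u hu x hx
    have h8 := hwn u hu x hx
    linarith
  · intro u _ x hx
    apply hH1 (u, x)
    show ι (f x) + u • (v x - ι (f x)) = ι (f x)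
    rw [hv0 x hx, sub_self, smul_zero, add_zero]

theorem m_DIM : StDIM := by
  intro g P hP ⟨L, hL⟩
  have hc : IsCompact (g '' P) := hP.image_of_continuousOn hL.continuousOn
  refine ⟨hc, ?_⟩
  by_contra hne
  obtain ⟨y, hy⟩ := nonempty_iff_ne_empty.2 hne
  let ι : S4 → E5 := fun y => y.1
  have hιn : ∀ y : S4, ‖ι y‖ = 1 := fun y => by
    have := y.2
    rwa [mem_sphere_zero_iff_norm] at this
  have hιd : ∀ y y' : S4, dist y y' = ‖ι y - ι y'‖ := fun y y' => by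
    rw [← dist_eq_norm]
    rfl
  obtain ⟨O, hO, hOe⟩ := isOpen_induced_iff.1 (isOpen_interior (s := g '' P))
  let Φ : ℝ × ℝ × ℝ × ℝ → E5 := fun a => a.1 • ι (g a.2)
  have hΦ : LipschitzOnWith (Real.toNNReal (1 + 2 * L)) Φ (Icc (0 : ℝ) 2 ×ˢ P) := by
    refine LipschitzOnWith.of_dist_le' fun x hx y hy => ?_
    rw [dist_eq_norm]
    have e : Φ x - Φ y = (x.1 - y.1) • ι (g x.2) + y.1 • (ι (g x.2) - ι (g y.2)) := by
      show x.1 • ι (g x.2) - y.1 • ι (g y.2) = _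
      rw [sub_smul, smul_sub]
      abel
    rw [e]
    refine (norm_add_le _ _).trans ?_
    rw [norm_smul, norm_smul, hιn, mul_one, ← hιd, Real.norm_eq_abs, Real.norm_eq_abs,
      abs_of_nonneg hy.1.1]
    have h1 : |x.1 - y.1| ≤ dist x y := by
      rw [← Real.dist_eq]
      exact (le_max_left _ _)
    have h2 : dist (g x.2) (g y.2) ≤ L * dist x y := by
      refine (hL.dist_le_mul x.2 hx.2 y.2 hy.2).trans ?_
      exact mul_le_mul_of_nonneg_left (le_max_right _ _) L.2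
    have h3 : y.1 * dist (g x.2) (g y.2) ≤ 2 * (L * dist x y) :=
      mul_le_mul hy.1.2 h2 dist_nonneg (by norm_num)
    linarith
  have hdim : dimH (Φ '' (Icc (0 : ℝ) 2 ×ˢ P)) < (finrank ℝ E5 : ENNReal) := by
    refine lt_of_le_of_lt hΦ.dimH_image_le ?_
    refine lt_of_le_of_lt (dimH_mono (subset_univ _)) ?_
    rw [Real.dimH_univ_eq_finrank]
    simp [Module.finrank_prod]
    norm_num
  have hdense : Dense (Φ '' (Icc (0 : ℝ) 2 ×ˢ P))ᶜ := dense_compl_of_dimH_lt_finrank hdim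
  have hV : IsOpen (({x : E5 | x ≠ 0} ∩ (fun x : E5 => ‖x‖⁻¹ • x) ⁻¹' O) ∩
      Metric.ball 0 2) := by
    refine IsOpen.inter (ContinuousOn.isOpen_inter_preimage ?_ isOpen_ne hO) Metric.isOpen_ball
    have h2 : ContinuousOn (fun x : E5 => ‖x‖⁻¹) {x : E5 | x ≠ 0} :=
      continuous_norm.continuousOn.inv₀ fun x hx => norm_ne_zero_iff.2 hx
    exact h2.smul continuousOn_id
  have hyV : ι y ∈ ({x : E5 | x ≠ 0} ∩ (fun x : E5 => ‖x‖⁻¹ • x) ⁻¹' O) ∩ Metric.ball 0 2 := by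
    refine ⟨⟨?_, ?_⟩, ?_⟩
    · show ι y ≠ 0
      rw [← norm_ne_zero_iff, hιn]
      exact one_ne_zero
    · show ‖ι y‖⁻¹ • ι y ∈ O
      rw [hιn, inv_one, one_smul]
      have : y ∈ Subtype.val ⁻¹' O := by rw [hOe]; exact hy
      exact this
    · rw [mem_ball_zero_iff, hιn]
      norm_num
  obtain ⟨x, ⟨⟨hx0, hxO⟩, hxb⟩, hxΦ⟩ := hdense.inter_open_nonempty _ hV ⟨_, hyV⟩
  apply hxΦ
  have hpt : ‖x‖⁻¹ • x ∈ Metric.sphere (0 : E5) 1 := by
    rw [mem_sphere_zero_iff_norm, norm_smul, norm_inv, norm_norm]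
    exact inv_mul_cancel₀ (norm_ne_zero_iff.2 hx0)
  have hx1 : (⟨_, hpt⟩ : S4) ∈ interior (g '' P) := by
    rw [← hOe]
    exact hxO
  obtain ⟨z, hz, he⟩ := interior_subset hx1
  have he' : ι (g z) = ‖x‖⁻¹ • x := by rw [he]
  refine ⟨(‖x‖, z), ⟨⟨norm_nonneg _, ?_⟩, hz⟩, ?_⟩
  · rw [mem_ball_zero_iff] at hxb
    exact hxb.le
  · show ‖x‖ • ι (g z) = x
    rw [he', smul_smul, mul_inv_cancel₀ (norm_ne_zero_iff.2 hx0), one_smul]

end Pool.Agent.Helper34.BI.R


end
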