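import Pool.Agent.Helper65.Barb.Defs
import Pool.Agent.Helper70.BI.C.P31
import Pool.Agent.Helper70.BI.C.P45

/-!
# Project BI (MP_8e98f2_gt): collected modules, part 58

The contents of the modules
* Helper34.BI.R.M_SMG
* Helper18.BI.S5.StA
* Helper79.BI5.M_SQS
* Helper95.BI5.M_GP1
* Helper4.BI5.M_EX
* Helper2.BI5.M_GP1X

in one file, so that the whole proof builds in a short time.
-/

namespace Pool.Agent.Helper18.BI
end Pool.Agent.Helper18.BI

namespace Pool.Agent.Helper18.BI.H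
end Pool.Agent.Helper18.BI.H

namespace Pool.Agent.Helper18.BI.R
end Pool.Agent.Helper18.BI.R

namespace Pool.Agent.Helper18.BI.S5.GP1
end Pool.Agent.Helper18.BI.S5.GP1

namespace Pool.Agent.Helper27.H
end Pool.Agent.Helper27.H

namespace Pool.Agent.Helper27.S5
end Pool.Agent.Helper27.S5

namespace Pool.Agent.Helper34.BI
end Pool.Agent.Helper34.BI

namespace Pool.Agent.Helper34.BI.R
end Pool.Agent.Helper34.BI.R

namespace Pool.Agent.Helper65.Barb
end Pool.Agent.Helper65.Barb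

namespace Pool.Agent.Helper70.BI
end Pool.Agent.Helper70.BI


/-! ## Helper34.BI.R.M_SMG -/

section

/-!
# Project BI, stage 4 (R), module SMG: smoothing relative to the boundary
-/

set_option autoImplicit false

open scoped Manifold ContDiff Topology ComplexConjugate
open Set Filter Pool.Agent.Helper65.Barb Pool.Agent.Helper18.BI Pool.Agent.Helper18.BI.R
open Pool.Agent.Helper27.H (ArcD)

namespace Pool.Agent.Helper34.BI.R

/-- soft truncation -/
noncomputable def trc (δ : ℝ) (v : R4) : R4 := (max (‖v‖ - δ) 0 / max ‖v‖ δ) • v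

theorem continuous_trc {δ : ℝ} (hδ : 0 < δ) : Continuous (trc δ) := by
  have h1 : Continuous fun v : R4 => max (‖v‖ - δ) 0 / max ‖v‖ δ := by
    refine Continuous.div ?_ ?_ fun v => ?_
    · fun_prop
    · fun_prop
    · exact (lt_of_lt_of_le hδ (le_max_right _ _)).ne'
  exact h1.smul continuous_id

theorem trc_eq_zero {δ : ℝ} {v : R4} (h : ‖v‖ ≤ δ) : trc δ v = 0 := by
  unfold trc
  rw [max_eq_right (by linarith : ‖v‖ - δ ≤ 0), zero_div, zero_smul]

theorem norm_trc_sub {δ : ℝ} (hδ : 0 < δ) (v : R4) : ‖trc δ v - v‖ ≤ δ := by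
  rcases le_or_gt ‖v‖ δ with h | h
  · rw [trc_eq_zero h, zero_sub, norm_neg]
    exact h
  · have hv : 0 < ‖v‖ := hδ.trans h
    unfold trc
    rw [max_eq_left (by linarith : 0 ≤ ‖v‖ - δ), max_eq_left h.le]
    have e : ((‖v‖ - δ) / ‖v‖) • v - v = (-(δ / ‖v‖)) • v := by
      rw [← sub_eq_zero, sub_sub, ← one_smul ℝ v, smul_smul, smul_smul, ← add_smul, ← sub_smul]
      have : (‖(1 : ℝ) • v‖ - δ) / ‖(1 : ℝ) • v‖ * 1 - (1 + -(δ / ‖(1 : ℝ) • v‖) * 1) = 0 := by
        rw [one_smul]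
        field_simp
        ring
      rw [this, zero_smul]
    rw [e, norm_smul, norm_neg, Real.norm_eq_abs, abs_of_pos (div_pos hδ hv),
      div_mul_cancel₀ _ hv.ne']

theorem m_SMG : StSMG := by
  intro D c₀ c₁ h₀ h₁ ⟨H, hH, hH01, hHU⟩
  have hm : D.m₀ < D.m₁ := D.h₁
  -- the linear interpolation
  let τ : ℝ → ℝ := fun u => step (3 * u - 1)
  have hτ : ContDiff ℝ ∞ τ := contDiff_step.comp (by fun_prop)
  have hτ0 : τ 0 = 0 := step_of_nonpos (by norm_num)
  have hτ1 : τ 1 = 1 := step_of_one_le (by norm_num)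
  let S : ℝ × ℝ × ℝ → R4 := fun z => (1 - τ z.1) • c₀ z.2.1 z.2.2 + τ z.1 • c₁ z.2.1 z.2.2
  have hS : ContDiff ℝ ∞ S := by
    have a0 : ContDiff ℝ ∞ (fun z : ℝ × ℝ × ℝ => c₀ z.2.1 z.2.2) := h₀.smooth.comp contDiff_snd
    have a1 : ContDiff ℝ ∞ (fun z : ℝ × ℝ × ℝ => c₁ z.2.1 z.2.2) := h₁.smooth.comp contDiff_snd
    have a2 : ContDiff ℝ ∞ (fun z : ℝ × ℝ × ℝ => τ z.1) := hτ.comp contDiff_fst
    exact ((contDiff_const.sub a2).smul a0).add (a2.smul a1)
  have hS0 : ∀ q s, S (0, q, s) = c₀ q s := fun q s => by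
    show (1 - τ 0) • c₀ q s + τ 0 • c₁ q s = _
    rw [hτ0, sub_zero, one_smul, zero_smul, add_zero]
  have hS1 : ∀ q s, S (1, q, s) = c₁ q s := fun q s => by
    show (1 - τ 1) • c₀ q s + τ 1 • c₁ q s = _
    rw [hτ1, sub_self, one_smul, zero_smul, zero_add]
  have hSc : ∀ u q s, c₀ q s = D.c s → c₁ q s = D.c s → S (u, q, s) = D.c s := fun u q s e0 e1 => by
    show (1 - τ u) • c₀ q s + τ u • c₁ q s = _
    rw [e0, e1, ← add_smul, sub_add_cancel, one_smul]
  -- the cube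
  let C : Set (ℝ × ℝ × ℝ) := Icc (0 : ℝ) 1 ×ˢ (Icc (0 : ℝ) 1 ×ˢ Icc D.m₀ D.m₁)
  let O : Set (ℝ × ℝ × ℝ) := Ioo (0 : ℝ) 1 ×ˢ (Ioo (0 : ℝ) 1 ×ˢ Ioo D.m₀ D.m₁)
  have hC : IsCompact C := isCompact_Icc.prod (isCompact_Icc.prod isCompact_Icc)
  have hO : IsOpen O := isOpen_Ioo.prod (isOpen_Ioo.prod isOpen_Ioo)
  have hOC : O ⊆ C := prod_mono Ioo_subset_Icc_self (prod_mono Ioo_subset_Icc_self Ioo_subset_Icc_self)
  have hbd : ∀ z ∈ C, z ∉ O → H z = S z := by
    rintro ⟨u, q, s⟩ ⟨hu, hq, hs⟩ hz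
    have h2 : u = 0 ∨ u = 1 ∨ q = 0 ∨ q = 1 ∨ s = D.m₀ ∨ s = D.m₁ := by
      by_contra hne
      push Not at hne
      obtain ⟨n1, n2, n3, n4, n5, n6⟩ := hne
      exact hz ⟨⟨lt_of_le_of_ne hu.1 (Ne.symm n1), lt_of_le_of_ne hu.2 n2⟩,
        ⟨lt_of_le_of_ne hq.1 (Ne.symm n3), lt_of_le_of_ne hq.2 n4⟩,
        ⟨lt_of_le_of_ne hs.1 (Ne.symm n5), lt_of_le_of_ne hs.2 n6⟩⟩
    rcases h2 with rfl | rfl | h2
    · rw [hS0, (hH01 q hq s hs).1]
    · rw [hS1, (hH01 q hq s hs).2]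
    · rw [(hHU u hu q hq s hs).2 h2]
      rcases h2 with rfl | rfl | rfl | rfl
      · rw [hSc _ _ _ (h₀.start s) (h₁.start s)]
      · rw [hSc _ _ _ (h₀.stop s) (h₁.stop s)]
      · rw [hSc _ _ _ (h₀.froz q hq _ (Or.inl le_rfl)) (h₁.froz q hq _ (Or.inl le_rfl))]
      · rw [hSc _ _ _ (h₀.froz q hq _ (Or.inr le_rfl)) (h₁.froz q hq _ (Or.inr le_rfl))]
  -- the difference
  classical
  let E : ℝ × ℝ × ℝ → R4 := fun z => if z ∈ O then H z - S z else 0
  have hE0 : ∀ z, z ∉ O → E z = 0 := fun z hz => if_neg hz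
  have hE1 : ∀ z ∈ C, E z = H z - S z := by
    intro z hz
    by_cases h2 : z ∈ O
    · exact if_pos h2
    · rw [hE0 z h2, hbd z hz h2, sub_self]
  have hE : Continuous E := by
    rw [← continuousOn_univ]
    have h2 : (univ : Set (ℝ × ℝ × ℝ)) = C ∪ Oᶜ := by
      ext z
      simp only [mem_univ, mem_union, mem_compl_iff, true_iff]
      by_cases h3 : z ∈ O
      · exact Or.inl (hOC h3)
      · exact Or.inr h3
    rw [h2]
    refine ContinuousOn.union_of_isClosed ?_ ?_ hC.isClosed hO.isClosed_compl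
    · exact (hH.sub hS.continuous.continuousOn).congr hE1
    · exact continuousOn_const.congr hE0
  -- the distance
  have hHC : IsCompact (H '' C) := hC.image_of_continuousOn hH
  have hHCU : H '' C ⊆ D.U := by
    rintro _ ⟨⟨u, q, s⟩, ⟨hu, hq, hs⟩, rfl⟩
    exact (hHU u hu q hq s hs).1
  obtain ⟨κ, hκ, hκU⟩ := hHC.exists_thickening_subset_open D.openU hHCU
  obtain ⟨δ, hδ, hδκ⟩ : ∃ δ : ℝ, 0 < δ ∧ 2 * δ < κ := ⟨κ / 4, by positivity, by linarith⟩
  -- the truncated function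
  let g : ℝ × ℝ × ℝ → R4 := fun z => S z + trc δ (E z)
  have hg : Continuous g := hS.continuous.add ((continuous_trc hδ).comp hE)
  have hgS : ∀ z, ‖E z‖ ≤ δ → g z = S z := fun z hz => by
    show S z + trc δ (E z) = S z
    rw [trc_eq_zero hz, add_zero]
  have hgH : ∀ z ∈ C, ‖g z - H z‖ ≤ δ := by
    intro z hz
    have h2 : g z - H z = trc δ (E z) - E z := by
      show S z + trc δ (E z) - H z = trc δ (E z) - E z
      rw [hE1 z hz]
      abel
    rw [h2]
    exact norm_trc_sub hδ _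
  obtain ⟨c, hc, hcg, hce, -⟩ := hg.exists_contDiff_approx_and_eqOn ⊤ (ε := fun _ => δ)
    continuous_const (fun _ => hδ) (S := Oᶜ) (U := {z | ‖E z‖ < δ}) hO.isClosed_compl
    ((isOpen_lt hE.norm continuous_const).mem_nhdsSet.2 fun z hz => by
      show ‖E z‖ < δ
      rw [hE0 z hz, norm_zero]
      exact hδ) (hS.contDiffOn.congr fun z hz => hgS z (le_of_lt hz))
  have hcs : ContDiff ℝ ∞ c := hc
  have hcS : ∀ z, z ∉ O → c z = S z := fun z hz => by
    rw [hce hz, hgS z (by rw [hE0 z hz, norm_zero]; exact hδ.le)]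
  refine ⟨c, ⟨hcs, ?_, ?_, ?_, ?_⟩, fun q s => ?_, fun q s => ?_⟩
  · intro u hu q hq s hs
    rw [hcS _ fun h2 => ?_]
    · exact hSc _ _ _ (h₀.froz q hq s hs) (h₁.froz q hq s hs)
    · have h3 := h2.2.2
      rcases hs with hs | hs
      · exact absurd h3.1 (not_lt.2 hs)
      · exact absurd h3.2 (not_lt.2 hs)
  · intro u hu q hq s hs
    have hz : (u, q, s) ∈ C := ⟨hu, hq, hs⟩
    apply hκU
    rw [Metric.mem_thickening_iff]
    refine ⟨H (u, q, s), mem_image_of_mem _ hz, ?_⟩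
    have h2 := hcg (u, q, s)
    have h3 := hgH _ hz
    rw [← dist_eq_norm] at h3
    calc dist (c (u, q, s)) (H (u, q, s)) ≤ dist (c (u, q, s)) (g (u, q, s)) +
          dist (g (u, q, s)) (H (u, q, s)) := dist_triangle _ _ _
      _ < κ := by linarith
  · intro u hu s
    rw [hcS _ fun h2 => absurd h2.2.1.1 (lt_irrefl _)]
    exact hSc _ _ _ (h₀.start s) (h₁.start s)
  · intro u hu s
    rw [hcS _ fun h2 => absurd h2.2.1.2 (lt_irrefl _)]
    exact hSc _ _ _ (h₀.stop s) (h₁.stop s)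
  · rw [hcS _ fun h2 => absurd h2.1.1 (lt_irrefl _), hS0]
  · rw [hcS _ fun h2 => absurd h2.1.2 (lt_irrefl _), hS1]

end Pool.Agent.Helper34.BI.R


end

/-! ## Helper18.BI.S5.StA -/

section

/-!
# Project BI, stage 5: arbitrary spheres (part A)

For a fixed cuff `A = F '' sph 1` and ARBITRARY (not necessarily embedded) based spheres off `A`: every square has a
class (general position), and the class, up to `W`, depends on the free homotopy class only (`StDRIFT`).
Statements (as `Prop` definitions) with complete proofs in the docstrings.  A module `M_X` proves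
`theorem m_X : StX` (possibly from other statements as hypotheses `(h : StY)`).
-/

set_option autoImplicit false

open scoped Manifold ContDiff Topology ComplexConjugate
open Set Pool.Agent.Helper65.Barb Pool.Agent.Helper18.BI
open Pool.Agent.Helper70.BI (I4 IsW MW NearEq)
open Pool.Agent.Helper27.H (ArcD HatOk K3)
open Pool.Agent.Helper27.S5 (FingB)
open Pool.Agent.Helper18.BI.H
open Pool.Agent.Helper18.BI.R

namespace Pool.Agent.Helper18.BI.S5

/-! ## general position: every square has a class -/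

/-- A continuous square in `D.U`, equal to the base arc on the boundary. -/
structure SqOK (D : ArcD) (g : ℝ → ℝ → R4) : Prop where
  cont : ContinuousOn (fun z : ℝ × ℝ => g z.1 z.2) (Icc (0 : ℝ) 1 ×ˢ Icc D.m₀ D.m₁)
  inU : ∀ q ∈ Icc (0 : ℝ) 1, ∀ s ∈ Icc D.m₀ D.m₁, g q s ∈ D.U
  bd : ∀ q ∈ Icc (0 : ℝ) 1, ∀ s ∈ Icc D.m₀ D.m₁, (q = 0 ∨ q = 1 ∨ s = D.m₀ ∨ s = D.m₁) →
    g q s = D.c s

/-- MODULE SQS.  Smoothing of squares relative to the boundary (compare `StSMG` and its proof in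
`Pool/Agent/Helper34/BI/R/M_SMG.lean`, which is the three-dimensional version).
Proof.  `C = [0,1] × [m₀,m₁]`, `∂C` its boundary.  `g '' C` is compact, contained in the open set `D.U`: there is `κ > 0` such that all points at a distance `≤ κ` from `g '' C` are in `D.U`.
`d z = g z.1 z.2 - D.c z.2` for `z ∈ C`: continuous on `C`, zero on `∂C`.  By compactness there is `r > 0` with `‖d z‖ ≤ κ/4` for all `z ∈ C` at a distance `≤ 2 r` from `∂C` (i.e. with `q`, `1-q`, `s-m₀` or `m₁-s` `≤ 2r`).  `λ : ℝ × ℝ → [0,1]` continuous, `0` outside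
`C_r = {z ∈ C at distance ≥ r from ∂C}` and `1` on `C_{2r}` (product of piecewise linear functions of the coordinates).  `f z = λ z • d z` for `z ∈ C`, `f z = 0` otherwise: continuous on `ℝ × ℝ`, `‖f - d‖ ≤ κ/4` on `C`.
`Continuous.exists_contDiff_approx_and_eqOn` gives a smooth `e` with `‖e - f‖ ≤ κ/4` everywhere and `e = f = 0` on the closed complement of the open rectangle `{z | r/2 < q, q < 1 - r/2, m₀ + r/2 < s, s < m₁ - r/2}`.
`c₀ q s = D.c s + e (q, s)`: smooth, `froz`, `start`, `stop` because `e = 0` there; on `C`: `‖c₀ - g‖ = ‖e - d‖ ≤ κ/2`, so `inU`.  The homotopy of `SH`: `H (u, q, s) = (1 - u) • c₀ q s + u • g q s`, within `κ/2` of `g q s`. -/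
def StSQS : Prop :=
  ∀ (D : ArcD) (g : ℝ → ℝ → R4), SqOK D g → ∃ c : ℝ → ℝ → R4, R.LoopOK D c ∧ SH D c g

/-- MODULE GP1.  General position of loops of arcs.
Proof.  `exists_genPos` (`Pool/Agent/Helper34/BI/Generic.lean`) for `h (q, s) = c₀ q s`, `ρ = hat 0 1`, `χ = hat D.m₀ D.m₁` (`hat`, `contDiff_hat`, `hat_ne_zero`, `hat_eq_zero`, `hat_nonneg`, `hat_le_one` in `Pool/Agent/Helper34/BI/Arcs.lean`), empty index types `ι = κ = Empty` and `Y = ℂ`
(compare the use in `exists_arcFamilyG`, `Pool/Agent/Helper34/BI/Arcs2.lean`, and in `Pool/Agent/Helper70/BI/M_NO1.lean`): `c q s = c₀ q s + (hat 0 1 q * hat m₀ m₁ s) • (v + s • w)` with `v`, `w` as small as we like.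
`C = [0,1] × [m₀,m₁]`; the image of `C` under `c₀` is compact in the open set `D.U`: `κ > 0` such that all points at a distance `≤ κ` from it are in `D.U`; choose `‖v‖, ‖w‖ ≤ ε` with `ε (1 + |m₀| + |m₁|) ≤ κ` (on `C`, `|s| ≤ |m₀| + |m₁|`, `0 ≤ hat ≤ 1`).
`LoopOK`: smooth; `froz`: `hat m₀ m₁ s = 0`; `start`, `stop`: `hat 0 1 0 = hat 0 1 1 = 0`; `inU`.
Embedded: for `q = 0`, `q = 1`: `c q = D.c`, injective on `[s₀, s₁]` (`D.core`, `D.emb.2`) with nonzero derivative there: at `s ∈ [s₀, s₁]`, `deriv D.c s = fderiv D.J (s, 0) (1, 0) ≠ 0` (see the lemmas on `ArcD` in `Pool/Agent/Helper27/BI/H/Cls.lean`, `Harc.lean`, or `EndR4.lean`; e.g. the constant loop in `StCls`).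
For `0 < q < 1`: injective: if `s ≠ s'` and `hat m₀ m₁ s ≠ 0` or `hat m₀ m₁ s' ≠ 0`: `GenPos.inj`; otherwise both values are those of `D.c`.  Derivative: if `hat m₀ m₁ s ≠ 0`: `GenPos.imm`, `deriv (c q) s = fderiv (uncurry c) (q, s) (0, 1)`.  If `hat m₀ m₁ s = 0`, that is `s ≤ m₀` or `m₁ ≤ s`, then `c q = D.c` on
`(-∞, m₀]` (or `[m₁, ∞)`), and the derivatives at `s` of these two smooth functions are equal (derivative within `Iic m₀` or `Ici m₁`, `UniqueDiffWithinAt`).
`SH D c c₀`: `H (u, q, s) = (1 - u) • c q s + u • c₀ q s = c₀ q s + ((1 - u) hat hat) • (v + s • w)`, within `κ` of `c₀ q s`. -/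
def StGP1 : Prop :=
  ∀ (D : ArcD) (c₀ : ℝ → ℝ → R4), R.LoopOK D c₀ → ∃ c : ℝ → ℝ → R4, R.LoopOK D c ∧
    (∀ q ∈ Icc (0 : ℝ) 1, InjOn (c q) (Icc D.s₀ D.s₁) ∧ ∀ s ∈ Icc D.s₀ D.s₁, deriv (c q) s ≠ 0) ∧
    SH D c c₀

/-- MODULE EX (from `StSQS`, `StGP1`, `StCls`).  Every square has a class.
Proof.  `g q s = shp D y₀ f q s` is `SqOK` (`D.smooth`).  `StSQS`: `c₀`; `StGP1`: `c`; `SH` is transitive (a lemma in `Pool/Agent/Helper18/BI/R/M_HCL.lean`, namespace `HCL`).  `StCls` (fourth claim) for the constant homotopy `(u, q, s) ↦ c q s` (`D.Htpy` from `LoopOK`), `u = 0`, gives `χ` with `D.Cls c χ`. -/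
def StEX : Prop :=
  ∀ (D : ArcD) (y₀ : R4) (f : ℝ → ℝ → R4), SqOK D (shp D y₀ f) → ∃ χ, HasCl D y₀ f χ

/-! ## the arc datum of a germ -/

/-- `D` is the arc datum of the embedding `F ∘ sq ε` with a wall of thickness `δ` (`HatOk` in
`Pool/Agent/Helper27/BI/H/StH2.lean`). -/
def HatD (F : R4 → R4) (δ ε : ℝ) (D : ArcD) : Prop :=
  ∃ (T T' : R4 → R4), FingB T T' ∧ δ ∈ Ioo (0 : ℝ) (1 / 100) ∧
    EmbOn I4 (fun p => F (sq ε p)) (K3 δ) ∧ HatOk δ T' (fun p => F (sq ε p)) D

/-- HATK (helper18).  `StHATn` with the information that `D` is the datum of `F ∘ sq ε`. -/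
def StHATk : Prop :=
  ∀ (ι : Type) [Finite ι] (F : R4 → R4) (Fi φ : ι → R4 → R4) (V : Set R4), EmbOn I4 F SP →
    (∀ i, EmbOn I4 (Fi i) SP) → IsOpen V → sph 1 ∪ neckE ⊆ V → (∀ i, EqOn F (Fi i) V) →
    (∀ i, Thin I4 (Fi i) (φ i)) → ∀ κ > 0, ∃ δ₀ > 0, ∀ δ ∈ Ioo 0 δ₀, ∃ ε₀ > 0, ∀ ε ∈ Ioo 0 ε₀,
    ∃ D : ArcD, HatD F δ ε D ∧
      D.m₀ = 9 / 20 ∧ D.m₁ = 11 / 20 ∧
      (∀ x, x ∉ D.U → ∃ y ∈ F '' sph 1, dist x y < κ) ∧
      (∀ s ∈ Icc (3 / 10 : ℝ) (7 / 10), D.c s = F (sq ε (s, ((73 / 100 : ℝ), 0)))) ∧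
      ∀ i, D.Cls (loopF (Fi i) (3 / 10) (7 / 10) ε D) (φ i)

/-! ## the classes of freely homotopic spheres -/

/-- The classes of the based spheres `g`, `g'` (`g (1,0) = g' (1,0) = bp F`) off the fixed cuff are equal up to `W`, in
all arc data of `F` whose wall is sufficiently close to the fixed cuff. -/
def DR (F : R4 → R4) (g g' : R3 → R4) : Prop :=
  ∃ κ > 0, ∃ δ₀ > 0, ∀ δ ∈ Ioo 0 δ₀, ∃ ε₀ > 0, ∀ ε ∈ Ioo 0 ε₀, ∀ D : ArcD, HatD F δ ε D →
    (∀ x, x ∉ D.U → ∃ y ∈ F '' sph 1, dist x y < κ) → ∀ W χ χ' : R4 → R4, IsW W →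
    HasCl D (bp F) (fun q s => g (mm q s)) χ → HasCl D (bp F) (fun q s => g' (mm q s)) χ' →
    CIsot I4 χ' χ ∨ CIsot I4 χ' (fun x => W (χ x))

/-- DRIFT (helper27: the crossing lemma; helper34: from the crossing lemma, all paths).  Based spheres which are freely homotopic off
the fixed cuff have the same class up to `W`. -/
def StDRIFT : Prop :=
  ∀ (F : R4 → R4) (h : ℝ × R3 → R4), EmbOn I4 F SP → ContinuousOn h (Icc (0 : ℝ) 1 ×ˢ S2) →
    h (0, (1, 0)) = bp F → h (1, (1, 0)) = bp F →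
    (∀ u ∈ Icc (0 : ℝ) 1, ∀ m ∈ S2, h (u, m) ∉ F '' sph 1) →
    DR F (fun m => h (0, m)) (fun m => h (1, m))

/-! ## the relation theorem in `R4` -/

/-- equal up to isotopy and `W` -/
def RU (W φ ψ : R4 → R4) : Prop := CIsot I4 φ ψ ∨ CIsot I4 φ (fun x => W (ψ x))

/-- REL6 (helper18; from `StDRIFT`, `StEX`, `StHATk` and the statements used in `M_REL4.lean`).  Based spheres `h i (0, ·)`, free
homotopies `h i` to the spheres `b i`; for `i ∈ G` the sphere `b i` is the moved cuff of the germ `Fi i`; for `(i, j) ∈ P`, `b i = b j`. -/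
def StREL6 : Prop :=
  ∀ (n : ℕ) (F : R4 → R4) (G : Set (Fin n)) (P : Set (Fin n × Fin n)) (Fi φ : Fin n → R4 → R4)
    (U : Set R4) (b : Fin n → R3 → R4) (h : Fin n → ℝ × R3 → R4) (W : R4 → R4)
    (l : List (Fin n × Bool)) (N : ℝ × ℝ × ℝ → R4), IsW W → EmbOn I4 F SP → IsOpen U →
    sph 1 ⊆ U → (∀ i ∈ G, EmbOn I4 (Fi i) SP ∧ EqOn F (Fi i) U ∧ Thin I4 (Fi i) (φ i) ∧
      ∀ m ∈ S2, b i m = Fi i (1 / 2, (1 / 5 : ℝ) • m)) →
    (∀ x ∈ P, EqOn (b x.1) (b x.2) S2) → FreeOff (F '' sph 1) (F (bar (1 / 2))) b h →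
    NullOff (F '' sph 1) (F (bar (1 / 2))) (fun i m => h i (0, m)) l N →
    ∃ ψ ψ' : Fin n → R4 → R4, (∀ i x, ψ i (ψ' i x) = x) ∧ (∀ i x, ψ' i (ψ i x) = x) ∧
      (∀ i, CIsot I4 (ψ i) (ψ i)) ∧ (∀ i ∈ G, RU W (ψ i) (φ i)) ∧
      (∀ x ∈ P, RU W (ψ x.1) (ψ x.2)) ∧ RU W (evD ψ ψ' l) (fun x => x)

end Pool.Agent.Helper18.BI.S5


end

/-! ## Helper79.BI5.M_SQS -/

section

/-!
# Project BI, stage 5, module SQS: smoothing of squares relative to the boundary
-/

set_option autoImplicit false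

open scoped Manifold ContDiff Topology ComplexConjugate
open Set Pool.Agent.Helper65.Barb Pool.Agent.Helper18.BI
open Pool.Agent.Helper27.H (ArcD)
open Pool.Agent.Helper18.BI.R
open Pool.Agent.Helper34.BI.R (trc continuous_trc trc_eq_zero norm_trc_sub)

namespace Pool.Agent.Helper18.BI.S5

theorem m_SQS : StSQS := by
  intro D g hg
  have hm : D.m₀ < D.m₁ := D.h₁
  have hDc : Continuous D.c := D.smooth.continuous
  -- the rectangle
  let C : Set (ℝ × ℝ) := Icc (0 : ℝ) 1 ×ˢ Icc D.m₀ D.m₁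
  let O : Set (ℝ × ℝ) := Ioo (0 : ℝ) 1 ×ˢ Ioo D.m₀ D.m₁
  have hC : IsCompact C := isCompact_Icc.prod isCompact_Icc
  have hO : IsOpen O := isOpen_Ioo.prod isOpen_Ioo
  have hOC : O ⊆ C := prod_mono Ioo_subset_Icc_self Ioo_subset_Icc_self
  have hbd : ∀ z ∈ C, z ∉ O → g z.1 z.2 = D.c z.2 := by
    rintro ⟨q, s⟩ ⟨hq, hs⟩ hz
    refine hg.bd q hq s hs ?_
    by_contra hne
    push Not at hne
    obtain ⟨n1, n2, n3, n4⟩ := hne
    exact hz ⟨⟨lt_of_le_of_ne hq.1 (Ne.symm n1), lt_of_le_of_ne hq.2 n2⟩,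
      ⟨lt_of_le_of_ne hs.1 (Ne.symm n3), lt_of_le_of_ne hs.2 n4⟩⟩
  -- the difference
  classical
  let E : ℝ × ℝ → R4 := fun z => if z ∈ O then g z.1 z.2 - D.c z.2 else 0
  have hE0 : ∀ z, z ∉ O → E z = 0 := fun z hz => if_neg hz
  have hE1 : ∀ z ∈ C, E z = g z.1 z.2 - D.c z.2 := by
    intro z hz
    by_cases h2 : z ∈ O
    · exact if_pos h2
    · rw [hE0 z h2, hbd z hz h2, sub_self]
  have hE : Continuous E := by
    rw [← continuousOn_univ]
    have h2 : (univ : Set (ℝ × ℝ)) = C ∪ Oᶜ := by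
      ext z
      simp only [mem_univ, mem_union, mem_compl_iff, true_iff]
      by_cases h3 : z ∈ O
      · exact Or.inl (hOC h3)
      · exact Or.inr h3
    rw [h2]
    refine ContinuousOn.union_of_isClosed ?_ ?_ hC.isClosed hO.isClosed_compl
    · exact (hg.cont.sub (hDc.comp continuous_snd).continuousOn).congr hE1
    · exact continuousOn_const.congr hE0
  -- the distance
  have hgC : IsCompact ((fun z : ℝ × ℝ => g z.1 z.2) '' C) := hC.image_of_continuousOn hg.cont
  have hgCU : (fun z : ℝ × ℝ => g z.1 z.2) '' C ⊆ D.U := by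
    rintro _ ⟨⟨q, s⟩, ⟨hq, hs⟩, rfl⟩
    exact hg.inU q hq s hs
  obtain ⟨κ, hκ, hκU⟩ := hgC.exists_thickening_subset_open D.openU hgCU
  obtain ⟨δ, hδ, hδκ⟩ : ∃ δ : ℝ, 0 < δ ∧ 2 * δ < κ := ⟨κ / 4, by positivity, by linarith⟩
  -- the truncated difference and its smoothing
  have hf : Continuous fun z => trc δ (E z) := (continuous_trc hδ).comp hE
  obtain ⟨e, he, heg, hee, -⟩ := hf.exists_contDiff_approx_and_eqOn ⊤ (ε := fun _ => δ)
    continuous_const (fun _ => hδ) (S := Oᶜ) (U := {z | ‖E z‖ < δ}) hO.isClosed_compl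
    ((isOpen_lt hE.norm continuous_const).mem_nhdsSet.2 fun z hz => by
      show ‖E z‖ < δ
      rw [hE0 z hz, norm_zero]
      exact hδ) ((contDiff_const (c := (0 : R4))).contDiffOn.congr fun z hz =>
        trc_eq_zero (le_of_lt hz))
  have hes : ContDiff ℝ ∞ e := he
  have he0 : ∀ z, z ∉ O → e z = 0 := fun z hz => by
    rw [hee hz]
    exact trc_eq_zero (by rw [hE0 z hz, norm_zero]; exact hδ.le)
  have hcg : ∀ z ∈ C, dist (D.c z.2 + e z) (g z.1 z.2) < κ := by
    intro z hz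
    have h2 : dist (e z) (trc δ (E z)) < δ := heg z
    have h3 : ‖trc δ (E z) - E z‖ ≤ δ := norm_trc_sub hδ _
    rw [dist_eq_norm] at h2
    rw [dist_eq_norm]
    have h4 : D.c z.2 + e z - g z.1 z.2 = (e z - trc δ (E z)) + (trc δ (E z) - E z) := by
      rw [hE1 z hz]
      abel
    rw [h4]
    calc ‖(e z - trc δ (E z)) + (trc δ (E z) - E z)‖
        ≤ ‖e z - trc δ (E z)‖ + ‖trc δ (E z) - E z‖ := norm_add_le _ _
      _ < κ := by linarith
  have hball : ∀ z ∈ C, Metric.ball (g z.1 z.2) κ ⊆ D.U := by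
    intro z hz x hx
    apply hκU
    rw [Metric.mem_thickening_iff]
    exact ⟨g z.1 z.2, ⟨z, hz, rfl⟩, hx⟩
  refine ⟨fun q s => D.c s + e (q, s), ⟨?_, ?_, ?_, ?_, ?_⟩, ?_⟩
  · exact (D.smooth.comp contDiff_snd).add hes
  · intro q hq s hs
    have h2 : e (q, s) = 0 := he0 _ fun h2 => by
      have h3 := h2.2
      rcases hs with hs | hs
      · exact absurd h3.1 (not_lt.2 hs)
      · exact absurd h3.2 (not_lt.2 hs)
    simp only [h2, add_zero]
  · intro q hq s hs
    exact hball (q, s) ⟨hq, hs⟩ (hcg (q, s) ⟨hq, hs⟩)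
  · intro s
    have h2 : e (0, s) = 0 := he0 _ fun h2 => absurd h2.1.1 (lt_irrefl _)
    simp only [h2, add_zero]
  · intro s
    have h2 : e (1, s) = 0 := he0 _ fun h2 => absurd h2.1.2 (lt_irrefl _)
    simp only [h2, add_zero]
  · refine ⟨fun z => (1 - z.1) • (D.c z.2.2 + e z.2) + z.1 • g z.2.1 z.2.2, ?_, ?_, ?_⟩
    · have h1 : ContinuousOn (fun z : ℝ × ℝ × ℝ => g z.2.1 z.2.2)
          (Icc (0 : ℝ) 1 ×ˢ (Icc (0 : ℝ) 1 ×ˢ Icc D.m₀ D.m₁)) :=
        hg.cont.comp continuous_snd.continuousOn fun z hz => hz.2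
      have h2 : Continuous fun z : ℝ × ℝ × ℝ => (1 - z.1) • (D.c z.2.2 + e z.2) :=
        (continuous_const.sub continuous_fst).smul
          ((hDc.comp (continuous_snd.comp continuous_snd)).add (hes.continuous.comp continuous_snd))
      exact h2.continuousOn.add (continuous_fst.continuousOn.smul h1)
    · intro q hq s hs
      constructor
      · show (1 - (0 : ℝ)) • (D.c s + e (q, s)) + (0 : ℝ) • g q s = _
        rw [sub_zero, one_smul, zero_smul, add_zero]
      · show (1 - (1 : ℝ)) • (D.c s + e (q, s)) + (1 : ℝ) • g q s = _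
        rw [sub_self, one_smul, zero_smul, zero_add]
    · intro u hu q hq s hs
      constructor
      · have h1 : D.c s + e (q, s) ∈ Metric.ball (g q s) κ := hcg (q, s) ⟨hq, hs⟩
        have h2 : g q s ∈ Metric.ball (g q s) κ := Metric.mem_ball_self hκ
        exact hball (q, s) ⟨hq, hs⟩ ((convex_ball (g q s) κ) h1 h2 (by linarith [hu.2]) hu.1
          (by ring))
      · intro h
        have h1 : g q s = D.c s := hg.bd q hq s hs h
        have h2 : e (q, s) = 0 := he0 _ fun h2 => by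
          obtain ⟨h3, h4⟩ := h2
          rcases h with h | h | h | h
          · exact absurd h3.1 (not_lt.2 h.le)
          · exact absurd h3.2 (not_lt.2 h.ge)
          · exact absurd h4.1 (not_lt.2 h.le)
          · exact absurd h4.2 (not_lt.2 h.ge)
        show (1 - u) • (D.c s + e (q, s)) + u • g q s = D.c s
        rw [h1, h2, add_zero, ← add_smul, sub_add_cancel, one_smul]

end Pool.Agent.Helper18.BI.S5


end

/-! ## Helper95.BI5.M_GP1 -/

section

/-!
# Project BI, stage 5, module GP1: general position of loops of arcs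
-/

set_option autoImplicit false

open scoped Manifold ContDiff Topology ComplexConjugate
open Set Pool.Agent.Helper65.Barb Pool.Agent.Helper18.BI
open Pool.Agent.Helper70.BI (I4 IsW MW NearEq ld_iff)
open Pool.Agent.Helper27.H (ArcD FingOk HatOk K3)
open Pool.Agent.Helper18.BI.H
open Pool.Agent.Helper18.BI.R

namespace Pool.Agent.Helper18.BI.S5

namespace GP1

open Pool.Agent.Helper34.BI (hat contDiff_hat hat_ne_zero hat_eq_zero hat_nonneg hat_le_one fam
  GenPos exists_genPos)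

theorem mem_seg' {s₀ s₁ s : ℝ} (h : s ∈ Icc s₀ s₁) :
    ((s, 0) : R4) ∈ Pool.Agent.Helper27.H.seg s₀ s₁ := ⟨h.1, h.2, rfl⟩

/-- the base arc is immersed -/
theorem base_ne_zero (D : ArcD) {s : ℝ} (hs : s ∈ Icc D.s₀ D.s₁) : deriv D.c s ≠ 0 := by
  have h01 : D.s₀ < D.s₁ := D.h₀.trans (D.h₁.trans D.h₂)
  have hld := (ld_iff.mp (D.emb.1 (s, 0) (mem_seg' hs)))
  have hJ : HasFDerivAt D.J (fderiv ℝ D.J (s, 0)) (s, 0) :=
    (hld.1.self_of_nhds.differentiableAt (by simp)).hasFDerivAt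
  have l : HasDerivAt (fun r : ℝ => ((r, 0) : R4)) (1, 0) s :=
    (hasDerivAt_id s).prodMk (hasDerivAt_const s _)
  have e1 : HasDerivAt (fun r : ℝ => D.J (r, 0)) (fderiv ℝ D.J (s, 0) (1, 0)) s :=
    HasFDerivAt.comp_hasDerivAt_of_eq s hJ l rfl
  have e2 : HasDerivWithinAt D.c (fderiv ℝ D.J (s, 0) (1, 0)) (Icc D.s₀ D.s₁) s :=
    (e1.hasDerivWithinAt).congr (fun r hr => (D.core r hr).symm) (D.core s hs).symm
  have e3 : HasDerivWithinAt D.c (deriv D.c s) (Icc D.s₀ D.s₁) s :=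
    ((D.smooth.differentiable (by simp) s).hasDerivAt).hasDerivWithinAt
  have e4 : deriv D.c s = fderiv ℝ D.J (s, 0) (1, 0) :=
    (e3.derivWithin (uniqueDiffOn_Icc h01 s hs)).symm.trans
      (e2.derivWithin (uniqueDiffOn_Icc h01 s hs))
  rw [e4]
  intro h0
  have h1 : ((1, 0) : R4) = 0 := hld.2 (by rw [h0, map_zero])
  exact one_ne_zero (congrArg Prod.fst h1)

theorem base_injOn (D : ArcD) : InjOn D.c (Icc D.s₀ D.s₁) := by
  intro s hs t ht h
  have h1 : D.J (s, 0) = D.J (t, 0) := by rw [D.core s hs, D.core t ht, h]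
  exact congrArg Prod.fst (D.emb.2 (mem_seg' hs)
    (mem_seg' ht) h1)

/-- two smooth curves that are equal on a half line have the same derivative there -/
theorem deriv_eq_of_eqOn {f g : ℝ → R4} (hf : Differentiable ℝ f) (hg : Differentiable ℝ g)
    {S : Set ℝ} (hS : UniqueDiffOn ℝ S) (h : EqOn f g S) {s : ℝ} (hs : s ∈ S) :
    deriv f s = deriv g s := by
  have e1 : HasDerivWithinAt f (deriv f s) S s := (hf s).hasDerivAt.hasDerivWithinAt
  have e2 : HasDerivWithinAt f (deriv g s) S s :=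
    ((hg s).hasDerivAt.hasDerivWithinAt).congr h (h hs)
  exact (e1.derivWithin (hS s hs)).symm.trans (e2.derivWithin (hS s hs))

end GP1

open GP1 in
open Pool.Agent.Helper34.BI (hat contDiff_hat hat_ne_zero hat_eq_zero hat_nonneg hat_le_one fam
  GenPos exists_genPos) in
theorem m_GP1 : StGP1 := by
  intro D c₀ hc₀
  set C : Set (ℝ × ℝ) := Icc (0 : ℝ) 1 ×ˢ Icc D.m₀ D.m₁ with hC
  have hm : D.m₀ < D.m₁ := D.h₁
  let h : ℝ × ℝ → R4 := fun p => c₀ p.1 p.2
  have hh : ContDiff ℝ ∞ h := hc₀.smooth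
  -- room in `U`
  obtain ⟨κ, hκ, hroom⟩ : ∃ κ > 0, ∀ q ∈ Icc (0 : ℝ) 1, ∀ s ∈ Icc D.m₀ D.m₁, ∀ x : R4,
      ‖x‖ < κ → c₀ q s + x ∈ D.U := by
    have hK : IsCompact (h '' C) := (isCompact_Icc.prod isCompact_Icc).image hh.continuous
    have hsub : h '' C ⊆ D.U := by
      rintro _ ⟨⟨q, s⟩, ⟨hq, hs⟩, rfl⟩
      exact hc₀.inU q hq s hs
    obtain ⟨ε, hε, hth⟩ := hK.exists_thickening_subset_open D.openU hsub
    refine ⟨ε, hε, fun q hq s hs x hx => hth ?_⟩
    rw [Metric.mem_thickening_iff]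
    refine ⟨c₀ q s, ⟨(q, s), ⟨hq, hs⟩, rfl⟩, ?_⟩
    rw [dist_eq_norm, add_sub_cancel_left]
    exact hx
  let ρ : ℝ → ℝ := hat 0 1
  let χ : ℝ → ℝ := hat D.m₀ D.m₁
  have hρ : ContDiff ℝ ∞ ρ := contDiff_hat _ _
  have hχ : ContDiff ℝ ∞ χ := contDiff_hat _ _
  have hE : Module.finrank ℝ R4 = 4 := by
    simp [R4, Complex.finrank_real_complex]
  have hB : 0 < 1 + |D.m₀| + |D.m₁| := by positivity
  obtain ⟨v, w, hv, hw, hgp⟩ := exists_genPos (E := R4) (Y := ℂ) (h := h) (ρ := ρ)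
    (χ := χ) hE Complex.finrank_real_complex hh hρ hχ (ι := Empty) (κ := Empty)
    (f := fun i => i.elim) (T := fun i => i.elim) (fun i => i.elim) (fun i => i.elim)
    (g := fun i => i.elim) (fun i => i.elim) (ε := κ / (1 + |D.m₀| + |D.m₁|)) (div_pos hκ hB)
  let H : ℝ × ℝ → R4 := fam h ρ χ v w
  have hH : ContDiff ℝ ∞ H := by
    have e1 : ContDiff ℝ ∞ (fun p : ℝ × ℝ => χ p.2) := hχ.comp contDiff_snd
    have e2 : ContDiff ℝ ∞ (fun p : ℝ × ℝ => v + p.2 • w) := by fun_prop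
    have e3 : ContDiff ℝ ∞ (fun p : ℝ × ℝ => ρ p.1) := hρ.comp contDiff_fst
    exact hh.add ((e3.mul e1).smul e2)
  let c : ℝ → ℝ → R4 := fun q s => H (q, s)
  have hcd : ∀ q s, c q s = c₀ q s + (ρ q * χ s) • (v + s • w) := fun q s => rfl
  -- the perturbation is small
  have hsmall : ∀ q s, s ∈ Icc D.m₀ D.m₁ → ∀ r ∈ Icc (0 : ℝ) 1,
      ‖(r * (ρ q * χ s)) • (v + s • w)‖ < κ := by
    intro q s hs r hr
    have h1 : |s| ≤ |D.m₀| + |D.m₁| := by
      rw [abs_le]
      constructor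
      · linarith [neg_abs_le D.m₀, abs_nonneg D.m₁, hs.1]
      · linarith [le_abs_self D.m₁, abs_nonneg D.m₀, hs.2]
    have h2 : ‖v + s • w‖ ≤ ‖v‖ + |s| * ‖w‖ := by
      refine (norm_add_le _ _).trans ?_
      rw [norm_smul, Real.norm_eq_abs]
    have h3 : ‖v + s • w‖ < κ := by
      rw [lt_div_iff₀ hB] at hv hw
      have h4 : ‖v‖ * (1 + |D.m₀| + |D.m₁|) + (|D.m₀| + |D.m₁|) * ‖w‖ * (1 + |D.m₀| + |D.m₁|)
          < κ + (|D.m₀| + |D.m₁|) * κ := by
        have : (|D.m₀| + |D.m₁|) * (‖w‖ * (1 + |D.m₀| + |D.m₁|)) ≤ (|D.m₀| + |D.m₁|) * κ :=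
          mul_le_mul_of_nonneg_left hw.le (by positivity)
        nlinarith
      have h5 : ‖v‖ + (|D.m₀| + |D.m₁|) * ‖w‖ < κ := by
        by_contra hcon
        push Not at hcon
        have : κ * (1 + |D.m₀| + |D.m₁|) ≤
            (‖v‖ + (|D.m₀| + |D.m₁|) * ‖w‖) * (1 + |D.m₀| + |D.m₁|) :=
          mul_le_mul_of_nonneg_right hcon hB.le
        nlinarith
      have h6 : |s| * ‖w‖ ≤ (|D.m₀| + |D.m₁|) * ‖w‖ :=
        mul_le_mul_of_nonneg_right h1 (norm_nonneg _)
      linarith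
    have h4 : |r * (ρ q * χ s)| ≤ 1 := by
      have h5 : 0 ≤ ρ q * χ s := mul_nonneg (hat_nonneg _ _ _) (hat_nonneg _ _ _)
      have h6 : ρ q * χ s ≤ 1 := mul_le_one₀ (hat_le_one _ _ _) (hat_nonneg _ _ _) (hat_le_one _ _ _)
      rw [abs_of_nonneg (mul_nonneg hr.1 h5)]
      exact mul_le_one₀ hr.2 h5 h6
    rw [norm_smul, Real.norm_eq_abs]
    calc |r * (ρ q * χ s)| * ‖v + s • w‖ ≤ 1 * ‖v + s • w‖ :=
          mul_le_mul_of_nonneg_right h4 (norm_nonneg _)
      _ < κ := by rw [one_mul]; exact h3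
  have hfroz : ∀ q ∈ Icc (0 : ℝ) 1, ∀ s, (s ≤ D.m₀ ∨ D.m₁ ≤ s) → c q s = D.c s := by
    intro q hq s hs
    have h1 : χ s = 0 := hat_eq_zero hs
    rw [hcd, h1, mul_zero, zero_smul, add_zero, hc₀.froz q hq s hs]
  have hρ0 : ρ 0 = 0 := hat_eq_zero (Or.inl le_rfl)
  have hρ1 : ρ 1 = 0 := hat_eq_zero (Or.inr le_rfl)
  have hstart : ∀ s, c 0 s = D.c s := by
    intro s
    rw [hcd, hρ0, zero_mul, zero_smul, add_zero, hc₀.start]
  have hstop : ∀ s, c 1 s = D.c s := by
    intro s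
    rw [hcd, hρ1, zero_mul, zero_smul, add_zero, hc₀.stop]
  have hLoop : R.LoopOK D c := by
    refine ⟨hH, hfroz, ?_, hstart, hstop⟩
    intro q hq s hs
    rw [hcd]
    have := hsmall q s hs 1 ⟨zero_le_one, le_rfl⟩
    rw [one_mul] at this
    exact hroom q hq s hs _ this
  have hcq : ∀ q, ContDiff ℝ ∞ (c q) := fun q => hH.comp (contDiff_const.prodMk contDiff_id)
  refine ⟨c, hLoop, ?_, ?_⟩
  · intro q hq
    by_cases hρq : ρ q = 0
    · -- `q = 0` or `q = 1`
      have hq' : q = 0 ∨ q = 1 := by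
        by_contra hcon
        push Not at hcon
        exact hat_ne_zero.mpr ⟨lt_of_le_of_ne hq.1 (Ne.symm hcon.1),
          lt_of_le_of_ne hq.2 hcon.2⟩ hρq
      have e : c q = D.c := by
        rcases hq' with rfl | rfl
        · exact funext hstart
        · exact funext hstop
      rw [e]
      exact ⟨base_injOn D, fun s hs => base_ne_zero D hs⟩
    · refine ⟨?_, ?_⟩
      · intro s hs t ht hst
        by_contra hne
        by_cases hor : χ s ≠ 0 ∨ χ t ≠ 0
        · exact hgp.inj q s t hρq hne hor hst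
        · push Not at hor
          have h1 : c q s = D.c s := by
            refine hfroz q hq s ?_
            by_contra hcon
            push Not at hcon
            exact hat_ne_zero.mpr hcon hor.1
          have h2 : c q t = D.c t := by
            refine hfroz q hq t ?_
            by_contra hcon
            push Not at hcon
            exact hat_ne_zero.mpr hcon hor.2
          exact hne (base_injOn D hs ht (by rw [← h1, ← h2]; exact hst))
      · intro s hs
        by_cases hχs : χ s = 0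
        · have h1 : s ≤ D.m₀ ∨ D.m₁ ≤ s := by
            by_contra hcon
            push Not at hcon
            exact hat_ne_zero.mpr hcon hχs
          have h2 : deriv (c q) s = deriv D.c s := by
            rcases h1 with h1 | h1
            · exact deriv_eq_of_eqOn ((hcq q).differentiable (by simp))
                (D.smooth.differentiable (by simp)) (uniqueDiffOn_Iic D.m₀)
                (fun r hr => hfroz q hq r (Or.inl hr)) h1
            · exact deriv_eq_of_eqOn ((hcq q).differentiable (by simp))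
                (D.smooth.differentiable (by simp)) (uniqueDiffOn_Ici D.m₁)
                (fun r hr => hfroz q hq r (Or.inr hr)) h1
          rw [h2]
          exact base_ne_zero D hs
        · have h1 := hgp.imm q s hρq hχs
          have h2 : HasFDerivAt H (fderiv ℝ H (q, s)) (q, s) :=
            (hH.differentiable (by simp) _).hasFDerivAt
          have l : HasDerivAt (fun r : ℝ => ((q, r) : ℝ × ℝ)) (0, 1) s :=
            (hasDerivAt_const s q).prodMk (hasDerivAt_id s)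
          have h3 : HasDerivAt (c q) (fderiv ℝ H (q, s) (0, 1)) s :=
            HasFDerivAt.comp_hasDerivAt_of_eq s h2 l rfl
          rw [h3.deriv]
          exact h1
  · -- the homotopy
    refine ⟨fun p => (1 - p.1) • c p.2.1 p.2.2 + p.1 • c₀ p.2.1 p.2.2, ?_, ?_, ?_⟩
    · apply Continuous.continuousOn
      have e1 : Continuous (fun p : ℝ × ℝ × ℝ => c p.2.1 p.2.2) :=
        hH.continuous.comp (by fun_prop)
      have e2 : Continuous (fun p : ℝ × ℝ × ℝ => c₀ p.2.1 p.2.2) :=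
        hh.continuous.comp (f := fun p : ℝ × ℝ × ℝ => (p.2.1, p.2.2)) (by fun_prop)
      exact ((continuous_const.sub continuous_fst).smul e1).add (continuous_fst.smul e2)
    · intro q hq s hs
      simp
    · intro u hu q hq s hs
      refine ⟨?_, ?_⟩
      · have h1 := hsmall q s hs (1 - u) ⟨by linarith [hu.2], by linarith [hu.1]⟩
        have h2 := hroom q hq s hs _ h1
        convert h2 using 1
        simp only [hcd]
        module
      · intro hb
        have h1 : c q s = D.c s ∧ c₀ q s = D.c s := by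
          rcases hb with rfl | rfl | rfl | rfl
          · exact ⟨hstart s, hc₀.start s⟩
          · exact ⟨hstop s, hc₀.stop s⟩
          · exact ⟨hfroz q hq _ (Or.inl le_rfl), hc₀.froz q hq _ (Or.inl le_rfl)⟩
          · exact ⟨hfroz q hq _ (Or.inr le_rfl), hc₀.froz q hq _ (Or.inr le_rfl)⟩
        simp only [h1.1, h1.2]
        module

end Pool.Agent.Helper18.BI.S5


end

/-! ## Helper4.BI5.M_EX -/

section

/-!
# Project BI, stage 5: module EX, every square has a class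
-/

set_option autoImplicit false

open scoped Manifold ContDiff Topology ComplexConjugate
open Set Pool.Agent.Helper65.Barb Pool.Agent.Helper18.BI
open Pool.Agent.Helper70.BI (I4 IsW MW NearEq)
open Pool.Agent.Helper27.H (ArcD FingOk HatOk K3)
open Pool.Agent.Helper18.BI.H
open Pool.Agent.Helper18.BI.R

namespace Pool.Agent.Helper18.BI.S5

namespace EX

/-- gluing two functions, continuous on the box, along a hyperplane -/
private theorem glue_cont {B : Set (ℝ × ℝ × ℝ)} {f g : ℝ × ℝ × ℝ → R4} {p : ℝ × ℝ × ℝ → ℝ}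
    (hp : Continuous p) (hf : ContinuousOn f (B ∩ {z | p z ≤ 1 / 2}))
    (hg : ContinuousOn g (B ∩ {z | 1 / 2 ≤ p z}))
    (he : ∀ z ∈ B, p z = 1 / 2 → f z = g z) :
    ContinuousOn (fun z => open Classical in if p z ≤ 1 / 2 then f z else g z) B := by
  classical
  intro z hz
  rcases lt_trichotomy (p z) (1 / 2) with h | h | h
  · have hn : ∀ᶠ w in 𝓝 z, p w < 1 / 2 := hp.continuousAt.eventually (gt_mem_nhds h)
    have hc : ContinuousWithinAt f B z := by
      refine (hf z ⟨hz, h.le⟩).mono_of_mem_nhdsWithin ?_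
      filter_upwards [self_mem_nhdsWithin, mem_nhdsWithin_of_mem_nhds hn] with w hw1 hw2
      exact ⟨hw1, hw2.le⟩
    refine hc.congr_of_eventuallyEq ?_ (if_pos h.le)
    filter_upwards [mem_nhdsWithin_of_mem_nhds hn] with w hw
    exact if_pos hw.le
  · have h1 : ContinuousWithinAt (fun z => open Classical in if p z ≤ 1 / 2 then f z else g z)
        (B ∩ {z | p z ≤ 1 / 2}) z :=
      (hf z ⟨hz, h.le⟩).congr (fun w hw => if_pos hw.2) (if_pos h.le)
    have h2 : ContinuousWithinAt (fun z => open Classical in if p z ≤ 1 / 2 then f z else g z)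
        (B ∩ {z | 1 / 2 ≤ p z}) z := by
      refine (hg z ⟨hz, h.ge⟩).congr (fun w hw => ?_) ?_
      · by_cases h' : p w ≤ 1 / 2
        · have : p w = 1 / 2 := le_antisymm h' hw.2
          simp only [h', if_true]
          exact he w hw.1 this
        · simp only [h', if_false]
      · simp only [h, le_refl, if_true]
        exact he z hz h
    refine (h1.union h2).mono fun w hw => ?_
    rcases le_total (p w) (1 / 2) with h' | h'
    · exact Or.inl ⟨hw, h'⟩
    · exact Or.inr ⟨hw, h'⟩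
  · have hn : ∀ᶠ w in 𝓝 z, 1 / 2 < p w := hp.continuousAt.eventually (lt_mem_nhds h)
    have hc : ContinuousWithinAt g B z := by
      refine (hg z ⟨hz, h.le⟩).mono_of_mem_nhdsWithin ?_
      filter_upwards [self_mem_nhdsWithin, mem_nhdsWithin_of_mem_nhds hn] with w hw1 hw2
      exact ⟨hw1, hw2.le⟩
    refine hc.congr_of_eventuallyEq ?_ (if_neg (not_le.2 h))
    filter_upwards [mem_nhdsWithin_of_mem_nhds hn] with w hw
    exact if_neg (not_le.2 hw)

private theorem sh_trans {D : ArcD} {f g k : ℝ → ℝ → R4} (h : SH D f g) (h' : SH D g k) :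
    SH D f k := by
  classical
  obtain ⟨H, hc, he, hb⟩ := h
  obtain ⟨H', hc', he', hb'⟩ := h'
  refine ⟨fun z => if z.1 ≤ 1 / 2 then H (2 * z.1, z.2.1, z.2.2)
    else H' (2 * z.1 - 1, z.2.1, z.2.2), ?_, fun q hq s hs => ?_, fun u hu q hq s hs => ?_⟩
  · have := glue_cont (B := Icc (0 : ℝ) 1 ×ˢ (Icc (0 : ℝ) 1 ×ˢ Icc D.m₀ D.m₁))
      (f := fun z => H (2 * z.1, z.2.1, z.2.2)) (g := fun z => H' (2 * z.1 - 1, z.2.1, z.2.2))
      (p := fun z => z.1) (by fun_prop) ?_ ?_ ?_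
    · exact this
    · refine hc.comp (Continuous.continuousOn (by fun_prop)) ?_
      rintro ⟨u, q, s⟩ ⟨⟨⟨h1, h2⟩, hq, hs⟩, h3⟩
      simp only [mem_ofPred_eq] at h1 h2 h3
      exact ⟨⟨by simp only; linarith, by simp only; linarith⟩, hq, hs⟩
    · refine hc'.comp (Continuous.continuousOn (by fun_prop)) ?_
      rintro ⟨u, q, s⟩ ⟨⟨⟨h1, h2⟩, hq, hs⟩, h3⟩
      simp only [mem_ofPred_eq] at h1 h2 h3
      exact ⟨⟨by simp only; linarith, by simp only; linarith⟩, hq, hs⟩
    · rintro ⟨u, q, s⟩ ⟨-, hq, hs⟩ h3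
      simp only at h3
      subst h3
      have e1 : (2 : ℝ) * (1 / 2) = 1 := by norm_num
      have e2 : (2 : ℝ) * (1 / 2) - 1 = 0 := by norm_num
      simp only [e1, sub_self]
      rw [(he q hq s hs).2, (he' q hq s hs).1]
  · have e1 : ¬ ((1 : ℝ) ≤ 1 / 2) := by norm_num
    have e2 : (0 : ℝ) ≤ 1 / 2 := by norm_num
    have e3 : (2 : ℝ) * 1 - 1 = 1 := by norm_num
    simp only [e1, e2, e3, if_true, if_false, mul_zero]
    exact ⟨(he q hq s hs).1, (he' q hq s hs).2⟩
  · by_cases h : u ≤ 1 / 2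
    · simp only [h, if_true]
      exact hb (2 * u) ⟨by linarith [hu.1], by linarith⟩ q hq s hs
    · simp only [h, if_false]
      exact hb' (2 * u - 1) ⟨by linarith [not_le.1 h], by linarith [hu.2]⟩ q hq s hs

end EX

/-- every square has a class -/
theorem m_EX (hSQS : StSQS) (hGP1 : StGP1) (hCls : Pool.Agent.Helper27.H.StCls) : StEX := by
  intro D y₀ f hf
  obtain ⟨c₀, hc₀, hs₀⟩ := hSQS D _ hf
  obtain ⟨c, hc, hemb, hs⟩ := hGP1 D c₀ hc₀
  have hH : D.Htpy (fun z : ℝ × ℝ × ℝ => c z.2.1 z.2.2) :=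
    { smooth := hc.smooth.comp contDiff_snd
      froz := fun _ _ q hq s h => hc.froz q hq s h
      inU := fun _ _ q hq s h => hc.inU q hq s h
      start := fun _ _ s => hc.start s
      stop := fun _ _ s => hc.stop s }
  obtain ⟨χ, hχ⟩ := (hCls D).2.2.2.1 _ hH 0 ⟨le_refl 0, zero_le_one⟩
    (fun q hq => ⟨(hemb q hq).2, (hemb q hq).1⟩)
  exact ⟨χ, c, hc, hχ, EX.sh_trans hs hs₀⟩

end Pool.Agent.Helper18.BI.S5


end

/-! ## Helper2.BI5.M_GP1X -/

section

/-!
# Project BI, stage 5, module GP1X: general position of loops of arcs, also off countably many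
curves
-/

set_option autoImplicit false

open scoped Manifold ContDiff Topology ComplexConjugate
open Set Pool.Agent.Helper65.Barb Pool.Agent.Helper18.BI
open Pool.Agent.Helper70.BI (I4 IsW MW NearEq ld_iff)
open Pool.Agent.Helper27.H (ArcD FingOk HatOk K3)
open Pool.Agent.Helper18.BI.H
open Pool.Agent.Helper18.BI.R (LoopOK SH)

namespace Pool.Agent.Helper27.S5

open Pool.Agent.Helper18.BI.S5.GP1 in
open Pool.Agent.Helper34.BI (hat contDiff_hat hat_ne_zero hat_eq_zero hat_nonneg hat_le_one fam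
  GenPos exists_genPos) in
theorem m_GP1X : StGP1X := by
  intro D c₀ g hc₀ hg hoff
  set C : Set (ℝ × ℝ) := Icc (0 : ℝ) 1 ×ˢ Icc D.m₀ D.m₁ with hC
  have hm : D.m₀ < D.m₁ := D.h₁
  let h : ℝ × ℝ → R4 := fun p => c₀ p.1 p.2
  have hh : ContDiff ℝ ∞ h := hc₀.smooth
  -- room in `U`
  obtain ⟨κ, hκ, hroom⟩ : ∃ κ > 0, ∀ q ∈ Icc (0 : ℝ) 1, ∀ s ∈ Icc D.m₀ D.m₁, ∀ x : R4,
      ‖x‖ < κ → c₀ q s + x ∈ D.U := by
    have hK : IsCompact (h '' C) := (isCompact_Icc.prod isCompact_Icc).image hh.continuous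
    have hsub : h '' C ⊆ D.U := by
      rintro _ ⟨⟨q, s⟩, ⟨hq, hs⟩, rfl⟩
      exact hc₀.inU q hq s hs
    obtain ⟨ε, hε, hth⟩ := hK.exists_thickening_subset_open D.openU hsub
    refine ⟨ε, hε, fun q hq s hs x hx => hth ?_⟩
    rw [Metric.mem_thickening_iff]
    refine ⟨c₀ q s, ⟨(q, s), ⟨hq, hs⟩, rfl⟩, ?_⟩
    rw [dist_eq_norm, add_sub_cancel_left]
    exact hx
  let ρ : ℝ → ℝ := hat 0 1
  let χ : ℝ → ℝ := hat D.m₀ D.m₁
  have hρ : ContDiff ℝ ∞ ρ := contDiff_hat _ _
  have hχ : ContDiff ℝ ∞ χ := contDiff_hat _ _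
  have hE : Module.finrank ℝ R4 = 4 := by
    simp [R4, Complex.finrank_real_complex]
  have hB : 0 < 1 + |D.m₀| + |D.m₁| := by positivity
  obtain ⟨v, w, hv, hw, hgp⟩ := exists_genPos (E := R4) (Y := ℂ) (h := h) (ρ := ρ)
    (χ := χ) hE Complex.finrank_real_complex hh hρ hχ (ι := Empty) (κ := ℕ)
    (f := fun i => i.elim) (T := fun i => i.elim) (fun i => i.elim) (fun i => i.elim)
    (g := g) hg (ε := κ / (1 + |D.m₀| + |D.m₁|)) (div_pos hκ hB)
  let H : ℝ × ℝ → R4 := fam h ρ χ v w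
  have hH : ContDiff ℝ ∞ H := by
    have e1 : ContDiff ℝ ∞ (fun p : ℝ × ℝ => χ p.2) := hχ.comp contDiff_snd
    have e2 : ContDiff ℝ ∞ (fun p : ℝ × ℝ => v + p.2 • w) := by fun_prop
    have e3 : ContDiff ℝ ∞ (fun p : ℝ × ℝ => ρ p.1) := hρ.comp contDiff_fst
    exact hh.add ((e3.mul e1).smul e2)
  let c : ℝ → ℝ → R4 := fun q s => H (q, s)
  have hcd : ∀ q s, c q s = c₀ q s + (ρ q * χ s) • (v + s • w) := fun q s => rfl
  -- the perturbation is small
  have hsmall : ∀ q s, s ∈ Icc D.m₀ D.m₁ → ∀ r ∈ Icc (0 : ℝ) 1,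
      ‖(r * (ρ q * χ s)) • (v + s • w)‖ < κ := by
    intro q s hs r hr
    have h1 : |s| ≤ |D.m₀| + |D.m₁| := by
      rw [abs_le]
      constructor
      · linarith [neg_abs_le D.m₀, abs_nonneg D.m₁, hs.1]
      · linarith [le_abs_self D.m₁, abs_nonneg D.m₀, hs.2]
    have h2 : ‖v + s • w‖ ≤ ‖v‖ + |s| * ‖w‖ := by
      refine (norm_add_le _ _).trans ?_
      rw [norm_smul, Real.norm_eq_abs]
    have h3 : ‖v + s • w‖ < κ := by
      rw [lt_div_iff₀ hB] at hv hw
      have h4 : ‖v‖ * (1 + |D.m₀| + |D.m₁|) + (|D.m₀| + |D.m₁|) * ‖w‖ * (1 + |D.m₀| + |D.m₁|)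
          < κ + (|D.m₀| + |D.m₁|) * κ := by
        have : (|D.m₀| + |D.m₁|) * (‖w‖ * (1 + |D.m₀| + |D.m₁|)) ≤ (|D.m₀| + |D.m₁|) * κ :=
          mul_le_mul_of_nonneg_left hw.le (by positivity)
        nlinarith
      have h5 : ‖v‖ + (|D.m₀| + |D.m₁|) * ‖w‖ < κ := by
        by_contra hcon
        push Not at hcon
        have : κ * (1 + |D.m₀| + |D.m₁|) ≤
            (‖v‖ + (|D.m₀| + |D.m₁|) * ‖w‖) * (1 + |D.m₀| + |D.m₁|) :=
          mul_le_mul_of_nonneg_right hcon hB.le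
        nlinarith
      have h6 : |s| * ‖w‖ ≤ (|D.m₀| + |D.m₁|) * ‖w‖ :=
        mul_le_mul_of_nonneg_right h1 (norm_nonneg _)
      linarith
    have h4 : |r * (ρ q * χ s)| ≤ 1 := by
      have h5 : 0 ≤ ρ q * χ s := mul_nonneg (hat_nonneg _ _ _) (hat_nonneg _ _ _)
      have h6 : ρ q * χ s ≤ 1 := mul_le_one₀ (hat_le_one _ _ _) (hat_nonneg _ _ _) (hat_le_one _ _ _)
      rw [abs_of_nonneg (mul_nonneg hr.1 h5)]
      exact mul_le_one₀ hr.2 h5 h6
    rw [norm_smul, Real.norm_eq_abs]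
    calc |r * (ρ q * χ s)| * ‖v + s • w‖ ≤ 1 * ‖v + s • w‖ :=
          mul_le_mul_of_nonneg_right h4 (norm_nonneg _)
      _ < κ := by rw [one_mul]; exact h3
  have hfroz : ∀ q ∈ Icc (0 : ℝ) 1, ∀ s, (s ≤ D.m₀ ∨ D.m₁ ≤ s) → c q s = D.c s := by
    intro q hq s hs
    have h1 : χ s = 0 := hat_eq_zero hs
    rw [hcd, h1, mul_zero, zero_smul, add_zero, hc₀.froz q hq s hs]
  have hρ0 : ρ 0 = 0 := hat_eq_zero (Or.inl le_rfl)
  have hρ1 : ρ 1 = 0 := hat_eq_zero (Or.inr le_rfl)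
  have hstart : ∀ s, c 0 s = D.c s := by
    intro s
    rw [hcd, hρ0, zero_mul, zero_smul, add_zero, hc₀.start]
  have hstop : ∀ s, c 1 s = D.c s := by
    intro s
    rw [hcd, hρ1, zero_mul, zero_smul, add_zero, hc₀.stop]
  have hLoop : LoopOK D c := by
    refine ⟨hH, hfroz, ?_, hstart, hstop⟩
    intro q hq s hs
    rw [hcd]
    have := hsmall q s hs 1 ⟨zero_le_one, le_rfl⟩
    rw [one_mul] at this
    exact hroom q hq s hs _ this
  have hcq : ∀ q, ContDiff ℝ ∞ (c q) := fun q => hH.comp (contDiff_const.prodMk contDiff_id)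
  refine ⟨c, hLoop, ?_, ?_, ?_⟩
  · intro q hq
    by_cases hρq : ρ q = 0
    · -- `q = 0` or `q = 1`
      have hq' : q = 0 ∨ q = 1 := by
        by_contra hcon
        push Not at hcon
        exact hat_ne_zero.mpr ⟨lt_of_le_of_ne hq.1 (Ne.symm hcon.1),
          lt_of_le_of_ne hq.2 hcon.2⟩ hρq
      have e : c q = D.c := by
        rcases hq' with rfl | rfl
        · exact funext hstart
        · exact funext hstop
      rw [e]
      exact ⟨base_injOn D, fun s hs => base_ne_zero D hs⟩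
    · refine ⟨?_, ?_⟩
      · intro s hs t ht hst
        by_contra hne
        by_cases hor : χ s ≠ 0 ∨ χ t ≠ 0
        · exact hgp.inj q s t hρq hne hor hst
        · push Not at hor
          have h1 : c q s = D.c s := by
            refine hfroz q hq s ?_
            by_contra hcon
            push Not at hcon
            exact hat_ne_zero.mpr hcon hor.1
          have h2 : c q t = D.c t := by
            refine hfroz q hq t ?_
            by_contra hcon
            push Not at hcon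
            exact hat_ne_zero.mpr hcon hor.2
          exact hne (base_injOn D hs ht (by rw [← h1, ← h2]; exact hst))
      · intro s hs
        by_cases hχs : χ s = 0
        · have h1 : s ≤ D.m₀ ∨ D.m₁ ≤ s := by
            by_contra hcon
            push Not at hcon
            exact hat_ne_zero.mpr hcon hχs
          have h2 : deriv (c q) s = deriv D.c s := by
            rcases h1 with h1 | h1
            · exact deriv_eq_of_eqOn ((hcq q).differentiable (by simp))
                (D.smooth.differentiable (by simp)) (uniqueDiffOn_Iic D.m₀)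
                (fun r hr => hfroz q hq r (Or.inl hr)) h1
            · exact deriv_eq_of_eqOn ((hcq q).differentiable (by simp))
                (D.smooth.differentiable (by simp)) (uniqueDiffOn_Ici D.m₁)
                (fun r hr => hfroz q hq r (Or.inr hr)) h1
          rw [h2]
          exact base_ne_zero D hs
        · have h1 := hgp.imm q s hρq hχs
          have h2 : HasFDerivAt H (fderiv ℝ H (q, s)) (q, s) :=
            (hH.differentiable (by simp) _).hasFDerivAt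
          have l : HasDerivAt (fun r : ℝ => ((q, r) : ℝ × ℝ)) (0, 1) s :=
            (hasDerivAt_const s q).prodMk (hasDerivAt_id s)
          have h3 : HasDerivAt (c q) (fderiv ℝ H (q, s) (0, 1)) s :=
            HasFDerivAt.comp_hasDerivAt_of_eq s h2 l rfl
          rw [h3.deriv]
          exact h1
  · -- the homotopy
    refine ⟨fun p => (1 - p.1) • c p.2.1 p.2.2 + p.1 • c₀ p.2.1 p.2.2, ?_, ?_, ?_⟩
    · apply Continuous.continuousOn
      have e1 : Continuous (fun p : ℝ × ℝ × ℝ => c p.2.1 p.2.2) :=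
        hH.continuous.comp (by fun_prop)
      have e2 : Continuous (fun p : ℝ × ℝ × ℝ => c₀ p.2.1 p.2.2) :=
        hh.continuous.comp (f := fun p : ℝ × ℝ × ℝ => (p.2.1, p.2.2)) (by fun_prop)
      exact ((continuous_const.sub continuous_fst).smul e1).add (continuous_fst.smul e2)
    · intro q hq s hs
      simp
    · intro u hu q hq s hs
      refine ⟨?_, ?_⟩
      · have h1 := hsmall q s hs (1 - u) ⟨by linarith [hu.2], by linarith [hu.1]⟩
        have h2 := hroom q hq s hs _ h1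
        convert h2 using 1
        simp only [hcd]
        module
      · intro hb
        have h1 : c q s = D.c s ∧ c₀ q s = D.c s := by
          rcases hb with rfl | rfl | rfl | rfl
          · exact ⟨hstart s, hc₀.start s⟩
          · exact ⟨hstop s, hc₀.stop s⟩
          · exact ⟨hfroz q hq _ (Or.inl le_rfl), hc₀.froz q hq _ (Or.inl le_rfl)⟩
          · exact ⟨hfroz q hq _ (Or.inr le_rfl), hc₀.froz q hq _ (Or.inr le_rfl)⟩
        simp only [h1.1, h1.2]
        module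
  · -- off the curves
    intro n q hq s hs r
    by_cases hρq : ρ q = 0
    · have hq' : q = 0 ∨ q = 1 := by
        by_contra hcon
        push Not at hcon
        exact hat_ne_zero.mpr ⟨lt_of_le_of_ne hq.1 (Ne.symm hcon.1),
          lt_of_le_of_ne hq.2 hcon.2⟩ hρq
      have e : c q s = D.c s := by
        rcases hq' with rfl | rfl
        · exact hstart s
        · exact hstop s
      rw [e]
      exact hoff n s hs r
    · by_cases hχs : χ s = 0
      · have h1 : s ≤ D.m₀ ∨ D.m₁ ≤ s := by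
          by_contra hcon
          push Not at hcon
          exact hat_ne_zero.mpr hcon hχs
        rw [hfroz q hq s h1]
        exact hoff n s hs r
      · exact hgp.curve q s n r hρq hχs

end Pool.Agent.Helper27.S5


end
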