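import Pool.Agent.Helper65.Barb.Defs
import Pool.Agent.Helper70.BI.C.P44

/-!
# Project BI (MP_8e98f2_gt): collected modules, part 63

The contents of the modules
* Helper34.BI5.VK5

in one file, so that the whole proof builds in a short time.
-/

namespace Pool.Agent.Helper18.BI
end Pool.Agent.Helper18.BI

namespace Pool.Agent.Helper65.Barb
end Pool.Agent.Helper65.Barb


/-! ## Helper34.BI5.VK5 -/

section

/-!
# The punctured tube around the fixed cuff
-/

set_option autoImplicit false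

open scoped Manifold ContDiff Topology
open Set Metric Pool.Agent.Helper65.Barb Pool.Agent.Helper18.BI

namespace Pool.Agent.Helper34.S5

/-- the Euclidean norm of three-space -/
noncomputable def nm (v : R3) : ℝ := √(nsq v)

theorem nsq_nonneg (v : R3) : 0 ≤ nsq v := by
  unfold nsq
  positivity

theorem nsq_eq_zero {v : R3} : nsq v = 0 ↔ v = 0 := by
  constructor
  · intro h
    unfold nsq at h
    have h1 : v.1 = 0 := by nlinarith [sq_nonneg v.1, sq_nonneg v.2.re, sq_nonneg v.2.im]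
    have h2 : v.2.re = 0 := by nlinarith [sq_nonneg v.1, sq_nonneg v.2.re, sq_nonneg v.2.im]
    have h3 : v.2.im = 0 := by nlinarith [sq_nonneg v.1, sq_nonneg v.2.re, sq_nonneg v.2.im]
    exact Prod.ext h1 (Complex.ext h2 h3)
  · rintro rfl
    simp [nsq]

theorem nsq_smul (c : ℝ) (v : R3) : nsq (c • v) = c ^ 2 * nsq v := by
  simp only [nsq, Prod.smul_fst, Prod.smul_snd, smul_eq_mul, Complex.real_smul, Complex.mul_re,
    Complex.mul_im, Complex.ofReal_re, Complex.ofReal_im]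
  ring

theorem nm_smul (c : ℝ) (v : R3) : nm (c • v) = |c| * nm v := by
  rw [nm, nm, nsq_smul, Real.sqrt_mul (sq_nonneg c), Real.sqrt_sq_eq_abs]

theorem nm_pos {v : R3} (hv : v ≠ 0) : 0 < nm v :=
  Real.sqrt_pos.2 (lt_of_le_of_ne (nsq_nonneg v) fun h => hv (nsq_eq_zero.1 h.symm))

theorem continuous_nm : Continuous nm := by
  unfold nm nsq
  fun_prop

/-- coordinates near the unit sphere: `c` is the transversal coordinate -/
noncomputable def Gc (c : ℂ) (v : R3) : R4 :=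
  (1 / 2 + c.re, ((1, 0) : R3) + ((1 / 5 + c.im) * (nm v)⁻¹) • v)

theorem Gc_smul (c : ℂ) {s : ℝ} (hs : 0 < s) {v : R3} (hv : v ≠ 0) : Gc c (s • v) = Gc c v := by
  unfold Gc
  rw [nm_smul, abs_of_pos hs, smul_smul]
  congr 3
  have := nm_pos hv
  field_simp

/-- the transversal coordinate -/
noncomputable def zc (p : R4) : ℂ := ⟨p.1 - 1 / 2, nm (p.2 - (1, 0)) - 1 / 5⟩

theorem continuous_zc : Continuous zc := by
  have h : Continuous fun p : R4 => nm (p.2 - (1, 0)) := continuous_nm.comp (by fun_prop)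
  have h1 : zc = fun p : R4 => ((p.1 - 1 / 2 : ℝ) : ℂ) + ((nm (p.2 - (1, 0)) - 1 / 5 : ℝ) : ℂ) *
      Complex.I := by
    funext p
    apply Complex.ext <;> simp [zc]
  rw [h1]
  fun_prop

theorem Gc_zc {p : R4} (h : p.2 - (1, 0) ≠ 0) : Gc (zc p) (p.2 - (1, 0)) = p := by
  have h1 := nm_pos h
  have h2 : (1 / 5 + (nm (p.2 - (1, 0)) - 1 / 5)) * (nm (p.2 - (1, 0)))⁻¹ = 1 := by
    field_simp
    ring
  show (1 / 2 + (p.1 - 1 / 2), ((1, 0) : R3)
    + ((1 / 5 + (nm (p.2 - (1, 0)) - 1 / 5)) * (nm (p.2 - (1, 0)))⁻¹) • (p.2 - (1, 0))) = p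
  rw [h2, one_smul]
  refine Prod.ext ?_ ?_
  · show 1 / 2 + (p.1 - 1 / 2) = p.1
    ring
  · show ((1, 0) : R3) + (p.2 - (1, 0)) = p.2
    abel

theorem Gc_snd (c : ℂ) (v : R3) : (Gc c v).2 - (1, 0) = ((1 / 5 + c.im) * (nm v)⁻¹) • v := by
  unfold Gc
  simp

theorem zc_Gc {c : ℂ} (hc : -(1 / 5) < c.im) {v : R3} (hv : v ≠ 0) : zc (Gc c v) = c := by
  have h1 := nm_pos hv
  apply Complex.ext
  · show 1 / 2 + c.re - 1 / 2 = c.re
    ring
  · show nm ((Gc c v).2 - (1, 0)) - 1 / 5 = c.im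
    rw [Gc_snd, nm_smul, abs_of_pos (by have : 0 < 1 / 5 + c.im := by linarith
                                        positivity)]
    field_simp
    ring

theorem mem_sph1 {p : R4} : p ∈ sph 1 ↔ p.1 = 1 / 2 ∧ nm (p.2 - (1, 0)) = 1 / 5 := by
  have h1 : rsq 1 p = nsq (p.2 - (1, 0)) := by
    show nsq (p.2.1 - 1, p.2.2) = nsq (p.2 - (1, 0))
    congr 1
    refine Prod.ext rfl ?_
    show p.2.2 = p.2.2 - 0
    rw [sub_zero]
  have h2 : nsq (p.2 - (1, 0)) = 1 / 25 ↔ nm (p.2 - (1, 0)) = 1 / 5 := by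
    unfold nm
    constructor
    · intro h
      rw [h, show (1 / 25 : ℝ) = (1 / 5) ^ 2 by norm_num, Real.sqrt_sq (by norm_num)]
    · intro h
      have h3 := Real.sq_sqrt (nsq_nonneg (p.2 - (1, 0)))
      rw [h] at h3
      rw [← h3]
      norm_num
  show p.1 = 1 / 2 ∧ rsq 1 p = 1 / 25 ↔ _
  rw [h1, h2]

theorem zc_eq_zero {p : R4} : zc p = 0 ↔ p ∈ sph 1 := by
  rw [mem_sph1]
  constructor
  · intro h
    have h1 := congrArg Complex.re h
    have h2 := congrArg Complex.im h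
    simp only [zc, Complex.zero_re, Complex.zero_im] at h1 h2
    exact ⟨by linarith, by linarith⟩
  · rintro ⟨h1, h2⟩
    apply Complex.ext
    · show p.1 - 1 / 2 = 0
      rw [h1]
      ring
    · show nm (p.2 - (1, 0)) - 1 / 5 = 0
      rw [h2]
      ring

theorem continuousOn_Gc : ContinuousOn (fun z : ℂ × R3 => Gc z.1 z.2) (univ ×ˢ {v | v ≠ 0}) := by
  have h1 : ContinuousOn (fun z : ℂ × R3 => (nm z.2)⁻¹) (univ ×ˢ {v | v ≠ 0}) := by
    refine ContinuousOn.inv₀ (continuous_nm.comp continuous_snd).continuousOn ?_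
    intro z hz
    exact (nm_pos hz.2).ne'
  unfold Gc
  refine ContinuousOn.prodMk (by fun_prop) ?_
  refine ContinuousOn.add continuousOn_const ?_
  refine ContinuousOn.smul (ContinuousOn.mul (by fun_prop) h1) (by fun_prop)

/-- the open cone over a set -/
def cone (B : Set R3) : Set R3 := {v | ∃ s : ℝ, 0 < s ∧ s • v ∈ B}

theorem isOpen_cone {B : Set R3} (hB : IsOpen B) : IsOpen (cone B) := by
  have : cone B = ⋃ s ∈ Ioi (0 : ℝ), (fun v : R3 => s • v) ⁻¹' B := by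
    ext v
    simp [cone]
  rw [this]
  exact isOpen_biUnion fun s _ => hB.preimage (by fun_prop)

theorem convex_cone {B : Set R3} (hB : Convex ℝ B) : Convex ℝ (cone B) := by
  rintro v ⟨s, hs, hv⟩ v' ⟨s', hs', hv'⟩ a b ha hb hab
  -- v = s⁻¹ w, v' = s'⁻¹ w', a v + b v' = (a/s) w + (b/s') w'
  have hpos : 0 < a / s + b / s' := by
    rcases ha.lt_or_eq with h | h
    · exact add_pos_of_pos_of_nonneg (by positivity) (by positivity)
    · have hb1 : b = 1 := by linarith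
      rw [← h, hb1]
      positivity
  refine ⟨(a / s + b / s')⁻¹, by positivity, ?_⟩
  have h1 := hB hv hv' (a := (a / s) / (a / s + b / s')) (b := (b / s') / (a / s + b / s'))
    (by positivity) (by positivity) (by rw [← add_div, div_self hpos.ne'])
  have h2 : (a / s + b / s')⁻¹ • (a • v + b • v')
      = ((a / s) / (a / s + b / s')) • s • v + ((b / s') / (a / s + b / s')) • s' • v' := by
    rw [smul_smul, smul_smul, smul_add, smul_smul, smul_smul]
    congr 2 <;> field_simp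
  rw [h2]
  exact h1

section
variable {E : Type} [NormedAddCommGroup E] [NormedSpace ℝ E] {H : Type} [TopologicalSpace H]
  (I : ModelWithCorners ℝ E H) {M : Type} [TopologicalSpace M] [ChartedSpace H M] [T2Space M]

theorem sph1_subset_SP : sph 1 ⊆ SP := fun _ hp => Or.inl (Or.inr hp)

/-- **The punctured tube.** -/
theorem exists_tub {F : R4 → M} (hF : EmbOn I F SP) : ∃ η > 0,
    ∃ T : Tub (F '' sph 1) R3, T.κ = Real.log η ∧ T.P = {v | v ≠ 0} ∧
      ∀ ℓ v, T.Q (ℓ, v) = F (Gc (Complex.exp ℓ) v) := by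
  obtain ⟨δ, hδ, hδF⟩ := hA1 R4 E H I M F SP X2.isCompact_SP hF.1 hF.2
  have hN : IsOpen δ.source := δ.open_source
  have hFc : ContinuousOn F δ.source := by
    refine ContinuousOn.congr δ.contMDiffOn_toFun.continuousOn ?_
    intro p hp
    exact (hδF p hp).symm
  have hFi : InjOn F δ.source := by
    intro p hp q hq h
    rw [← hδF p hp, ← hδF q hq] at h
    exact δ.injOn hp hq h
  have hopen : ∀ W : Set R4, IsOpen W → W ⊆ δ.source → IsOpen (F '' W) := by
    intro W hW hWs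
    have h1 : F '' W = δ.toOpenPartialHomeomorph '' W := image_congr fun p hp => (hδF p (hWs hp)).symm
    rw [h1]
    exact δ.toOpenPartialHomeomorph.isOpen_image_of_subset_source hW hWs
  -- the tube
  have htube : ∃ η : ℝ, 0 < η ∧ η ≤ 1 / 5 ∧ ∀ c : ℂ, ‖c‖ < η → ∀ v : R3, v ≠ 0 →
      Gc c v ∈ δ.source := by
    have h1 : IsOpen ((univ ×ˢ {v : R3 | v ≠ 0}) ∩ (fun z : ℂ × R3 => Gc z.1 z.2) ⁻¹' δ.source) :=
      continuousOn_Gc.isOpen_inter_preimage (isOpen_univ.prod isOpen_ne) hN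
    have h2 : ({0} : Set ℂ) ×ˢ R.S2 ⊆ (univ ×ˢ {v : R3 | v ≠ 0}) ∩
        (fun z : ℂ × R3 => Gc z.1 z.2) ⁻¹' δ.source := by
      rintro ⟨c, v⟩ ⟨hc, hv⟩
      have hc' : c = 0 := hc
      have hv0 : v ≠ 0 := by
        rintro rfl
        have h3 : nsq (0 : R3) = 1 := hv
        rw [nsq_eq_zero.2 rfl] at h3
        norm_num at h3
      refine ⟨⟨mem_univ _, hv0⟩, hδ (sph1_subset_SP ?_)⟩
      show Gc c v ∈ sph 1
      rw [hc', ← zc_eq_zero]
      exact zc_Gc (by norm_num) hv0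
    obtain ⟨u, v, hu, hv, h3, h4, h5⟩ := generalized_tube_lemma isCompact_singleton
      R.isCompact_S2 h1 h2
    obtain ⟨r, hr, hr'⟩ := Metric.mem_nhds_iff.1 (hu.mem_nhds (h3 (mem_singleton _)))
    refine ⟨min r (1 / 5), by positivity, min_le_right _ _, ?_⟩
    intro c hc w hw
    have h6 : (nm w)⁻¹ • w ∈ R.S2 := by
      show nsq ((nm w)⁻¹ • w) = 1
      rw [nsq_smul, nm, inv_pow, Real.sq_sqrt (nsq_nonneg w)]
      exact inv_mul_cancel₀ fun h => hw (nsq_eq_zero.1 h)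
    have h7 := (h5 (mk_mem_prod (hr' (by rw [mem_ball_zero_iff]; exact lt_of_lt_of_le hc (min_le_left _ _))) (h4 h6))).2
    have h8 : Gc c ((nm w)⁻¹ • w) ∈ δ.source := h7
    rwa [Gc_smul c (inv_pos.2 (nm_pos hw)) hw] at h8
  obtain ⟨η, hη, hη5, hηN⟩ := htube
  have hexp : ∀ {ℓ : ℂ} {a : ℝ}, 0 < a → ℓ.re < Real.log a → ‖Complex.exp ℓ‖ < a := by
    intro ℓ a ha h
    rw [Complex.norm_exp]
    calc Real.exp ℓ.re < Real.exp (Real.log a) := Real.exp_lt_exp.2 h
      _ = a := Real.exp_log ha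
  have him : ∀ {c : ℂ}, ‖c‖ < 1 / 5 → -(1 / 5) < c.im := by
    intro c hc
    have := Complex.abs_im_le_norm c
    linarith [(abs_le.1 this).1]
  have hoffsph : ∀ c : ℂ, ‖c‖ < η → c ≠ 0 → ∀ v : R3, v ≠ 0 → Gc c v ∉ sph 1 := by
    intro c hc hc0 v hv h
    rw [← zc_eq_zero, zc_Gc (him (lt_of_lt_of_le hc hη5)) hv] at h
    exact hc0 h
  have hmemK : ∀ q ∈ δ.source, F q ∈ F '' sph 1 → q ∈ sph 1 := by
    rintro q hq ⟨q', hq', h⟩
    rwa [← hFi (hδ (sph1_subset_SP hq')) hq h]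
  refine ⟨η, hη, ⟨Real.log η, {v | v ≠ 0}, fun z => F (Gc (Complex.exp z.1) z.2), ?_, ?_, ?_,
    ?_, ?_⟩, rfl, rfl, fun _ _ => rfl⟩
  · -- path connected
    have h1 : ({v : R3 | v ≠ 0}) = {(0 : R3)}ᶜ := rfl
    rw [h1]
    refine isPathConnected_compl_singleton_of_one_lt_rank ?_ 0
    rw [rank_prod', Complex.rank_real_complex, Module.rank_self]
    norm_num
  · -- continuous
    refine hFc.comp ?_ ?_
    · have h1 : ContinuousOn (fun z : ℂ × R3 => ((Complex.exp z.1, z.2) : ℂ × R3))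
          ({ℓ : ℂ | ℓ.re < Real.log η} ×ˢ {v | v ≠ 0}) := by
        refine Continuous.continuousOn ?_
        exact (Complex.continuous_exp.comp continuous_fst).prodMk continuous_snd
      exact continuousOn_Gc.comp h1 fun z hz => ⟨mem_univ _, hz.2⟩
    · intro z hz
      exact hηN _ (hexp hη hz.1) _ hz.2
  · rintro z hz h
    exact hoffsph _ (hexp hη hz.1) (Complex.exp_ne_zero _) _ hz.2
      (hmemK _ (hηN _ (hexp hη hz.1) _ hz.2) h)
  · intro ℓ v
    show F (Gc (Complex.exp (ℓ + tpi)) v) = F (Gc (Complex.exp ℓ) v)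
    rw [tpi, Complex.exp_periodic ℓ]
  · rintro p ⟨p₀, hp₀, rfl⟩ O hO
    have hp₀N : p₀ ∈ δ.source := hδ (sph1_subset_SP hp₀)
    set v₀ : R3 := p₀.2 - (1, 0) with hv₀
    have hv₀0 : v₀ ≠ 0 := by
      intro h
      have h1 := (mem_sph1.1 hp₀).2
      rw [← hv₀, h, nm, nsq_eq_zero.2 rfl, Real.sqrt_zero] at h1
      norm_num at h1
    have hG0 : Gc 0 v₀ = p₀ := by
      have h1 := Gc_zc (p := p₀) hv₀0
      rwa [zc_eq_zero.2 hp₀] at h1
    obtain ⟨O', hO', hO'o, hpO'⟩ := mem_nhds_iff.1 hO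
    have hM : IsOpen (δ.source ∩ F ⁻¹' O') := hFc.isOpen_inter_preimage hN hO'o
    have hc0 : ContinuousAt (fun z : ℂ × R3 => Gc z.1 z.2) ((0 : ℂ), v₀) :=
      continuousOn_Gc.continuousAt ((isOpen_univ.prod isOpen_ne).mem_nhds ⟨mem_univ _, hv₀0⟩)
    have hnb : (fun z : ℂ × R3 => Gc z.1 z.2) ⁻¹' (δ.source ∩ F ⁻¹' O') ∈
        𝓝 (((0 : ℂ), v₀) : ℂ × R3) := by
      refine hc0 (hM.mem_nhds ?_)
      show Gc 0 v₀ ∈ _
      rw [hG0]
      exact ⟨hp₀N, hpO'⟩
    obtain ⟨r, hr, hr'⟩ := Metric.mem_nhds_iff.1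
      (Filter.inter_mem hnb ((isOpen_univ.prod isOpen_ne).mem_nhds
        (⟨mem_univ _, hv₀0⟩ : (((0 : ℂ), v₀) : ℂ × R3) ∈ univ ×ˢ {v : R3 | v ≠ 0})))
    set C : Set R3 := cone (ball v₀ r) with hC
    have hb0 : ∀ w ∈ ball v₀ r, w ≠ 0 := by
      intro w hw
      have h1 : (((0 : ℂ), w) : ℂ × R3) ∈ ball (((0 : ℂ), v₀) : ℂ × R3) r := by
        rw [mem_ball, Prod.dist_eq, max_lt_iff]
        exact ⟨by rw [dist_self]; exact hr, hw⟩
      exact (hr' h1).2.2
    have hC0 : ∀ v ∈ C, v ≠ 0 := by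
      rintro v ⟨s, hs, hv⟩ rfl
      rw [smul_zero] at hv
      exact hb0 _ hv rfl
    have hη' : 0 < min r η := by positivity
    have hGM : ∀ c : ℂ, ‖c‖ < min r η → ∀ v ∈ C, Gc c v ∈ δ.source ∩ F ⁻¹' O' := by
      rintro c hc v ⟨s, hs, hv⟩
      have hv0 : v ≠ 0 := hC0 v ⟨s, hs, hv⟩
      have h1 : ((c, s • v) : ℂ × R3) ∈ ball (((0 : ℂ), v₀) : ℂ × R3) r := by
        rw [mem_ball, Prod.dist_eq, max_lt_iff]
        exact ⟨by rw [dist_zero_right]; exact lt_of_lt_of_le hc (min_le_left _ _), hv⟩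
      have h2 : Gc c (s • v) ∈ δ.source ∩ F ⁻¹' O' := (hr' h1).1
      rwa [Gc_smul c hs hv0] at h2
    set W : Set R4 := {q | ‖zc q‖ < min r η ∧ q.2 - (1, 0) ∈ C} with hW
    have hWo : IsOpen W := by
      refine IsOpen.inter ?_ ?_
      · exact isOpen_lt (continuous_norm.comp continuous_zc) continuous_const
      · exact (isOpen_cone isOpen_ball).preimage (by fun_prop)
    have hWG : ∀ q ∈ W, Gc (zc q) (q.2 - (1, 0)) = q := fun q hq => Gc_zc (hC0 _ hq.2)
    have hWM : W ⊆ δ.source ∩ F ⁻¹' O' := by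
      intro q hq
      rw [← hWG q hq]
      exact hGM _ hq.1 _ hq.2
    have hGW : ∀ c : ℂ, ‖c‖ < min r η → ∀ v ∈ C, Gc c v ∈ W := by
      intro c hc v hv
      have h5 : ‖c‖ < 1 / 5 := lt_of_lt_of_le (lt_of_lt_of_le hc (min_le_right _ _)) hη5
      have h6 := him h5
      refine ⟨?_, ?_⟩
      · rw [zc_Gc h6 (hC0 v hv)]
        exact hc
      · obtain ⟨s, hs, hv'⟩ := hv
        have hv0 : v ≠ 0 := hC0 v ⟨s, hs, hv'⟩
        have h7 : 0 < (1 / 5 + c.im) * (nm v)⁻¹ :=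
          mul_pos (by linarith) (inv_pos.2 (nm_pos hv0))
        show (Gc c v).2 - (1, 0) ∈ cone (ball v₀ r)
        rw [Gc_snd]
        refine ⟨s * ((1 / 5 + c.im) * (nm v)⁻¹)⁻¹, by positivity, ?_⟩
        rw [smul_smul, mul_assoc, inv_mul_cancel₀ h7.ne', mul_one]
        exact hv'
    have hinv : ∀ q ∈ W, δ.symm (F q) = q := by
      intro q hq
      rw [← hδF q (hWM hq).1]
      exact δ.left_inv' (hWM hq).1
    have hUt : F '' W ⊆ δ.target := by
      rintro _ ⟨q, hq, rfl⟩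
      rw [← hδF q (hWM hq).1]
      exact δ.map_source' (hWM hq).1
    have hsc : ContinuousOn (fun y => δ.symm y) (F '' W \ F '' sph 1) :=
      δ.contMDiffOn_invFun.continuousOn.mono (sdiff_subset.trans hUt)
    refine ⟨F '' W, hopen W hWo fun q hq => (hWM hq).1, ⟨p₀, ?_, rfl⟩, ?_, Real.log (min r η),
      Real.log_le_log hη' (min_le_right _ _), C, fun v hv => hC0 v hv,
      convex_cone (convex_ball v₀ r), ⟨v₀, 1, one_pos, by rw [one_smul]; exact mem_ball_self hr⟩,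
      ?_, fun y => zc (δ.symm y), fun y => (δ.symm y).2 - (1, 0), ?_, ?_, ?_⟩
    · refine ⟨?_, ?_⟩
      · rw [zc_eq_zero.2 hp₀, norm_zero]
        exact hη'
      · exact ⟨1, one_pos, by rw [one_smul]; exact mem_ball_self hr⟩
    · rintro _ ⟨q, hq, rfl⟩
      exact hO' (hWM hq).2
    · rintro z hz
      exact ⟨_, hGW _ (hexp hη' hz.1) _ hz.2, rfl⟩
    · exact continuous_zc.comp_continuousOn hsc
    · exact (hsc.snd).sub continuousOn_const
    · rintro x ⟨⟨q, hq, rfl⟩, hx⟩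
      show zc (δ.symm (F q)) ≠ 0 ∧ Real.log ‖zc (δ.symm (F q))‖ < Real.log (min r η) ∧
        (δ.symm (F q)).2 - (1, 0) ∈ C ∧
        ∀ ℓ, Complex.exp ℓ = zc (δ.symm (F q)) →
          F (Gc (Complex.exp ℓ) ((δ.symm (F q)).2 - (1, 0))) = F q
      rw [hinv q hq]
      have h0 : zc q ≠ 0 := fun h => hx ⟨q, zc_eq_zero.1 h, rfl⟩
      refine ⟨h0, Real.log_lt_log (norm_pos_iff.2 h0) hq.1, hq.2, ?_⟩
      intro ℓ hℓ
      rw [hℓ, hWG q hq]

end

end Pool.Agent.Helper34.S5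


end
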