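import Pool.Agent.Helper65.Barb.Defs
import Pool.Agent.Helper70.BI.C.P58
import Pool.Agent.Helper70.BI.C.P63

/-!
# Project BI (MP_8e98f2_gt): collected modules, part 64

The contents of the modules
* Helper34.BI5.StB
* Helper34.BI5.VK6
* Helper34.BI5.VK7
* Helper34.BI5.StN
* Helper34.BI5.VK9
* Helper27.BI.S5.St5c

in one file, so that the whole proof builds in a short time.
-/

namespace Pool.Agent.Helper18.BI
end Pool.Agent.Helper18.BI

namespace Pool.Agent.Helper18.BI.H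
end Pool.Agent.Helper18.BI.H

namespace Pool.Agent.Helper18.BI.R
end Pool.Agent.Helper18.BI.R

namespace Pool.Agent.Helper18.BI.R.HEP
end Pool.Agent.Helper18.BI.R.HEP

namespace Pool.Agent.Helper18.BI.S5
end Pool.Agent.Helper18.BI.S5

namespace Pool.Agent.Helper27.BI
end Pool.Agent.Helper27.BI

namespace Pool.Agent.Helper27.H
end Pool.Agent.Helper27.H

namespace Pool.Agent.Helper34.S5
end Pool.Agent.Helper34.S5

namespace Pool.Agent.Helper65.Barb
end Pool.Agent.Helper65.Barb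

namespace Pool.Agent.Helper70.BI
end Pool.Agent.Helper70.BI


/-! ## Helper34.BI5.StB -/

section

/-!
# Project BI, stage 5: the crossing lemma (statement)

`StCRL` (helper27) and `StEX` give `StDRIFT` (module `M_DRIFT`, helper34).
-/

set_option autoImplicit false

open scoped Manifold ContDiff Topology ComplexConjugate
open Set Pool.Agent.Helper65.Barb Pool.Agent.Helper18.BI
open Pool.Agent.Helper70.BI (I4 IsW)
open Pool.Agent.Helper27.H (ArcD)
open Pool.Agent.Helper18.BI.H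
open Pool.Agent.Helper18.BI.R
open Pool.Agent.Helper18.BI.S5

namespace Pool.Agent.Helper34.S5

/-- `h` is a free homotopy of spheres off the fixed cuff; `w` is the track of the base point. -/
structure FH (F : R4 → R4) (h : ℝ × R3 → R4) (w : ℝ → R4) : Prop where
  cont : ContinuousOn h (Icc (0 : ℝ) 1 ×ˢ S2)
  off : ∀ u ∈ Icc (0 : ℝ) 1, ∀ m ∈ S2, h (u, m) ∉ F '' sph 1
  track : ∀ u ∈ Icc (0 : ℝ) 1, h (u, (1, 0)) = w u

/-- concatenation of paths -/
noncomputable def pcat (w k : ℝ → R4) (u : ℝ) : R4 :=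
  if u ≤ 1 / 2 then w (2 * u) else k (2 * u - 1)

/-- The half circle of radius `r` around the fixed cuff at the point `(1/2, (1,0) + v/(5|v|))` of `sph 1`, from
`s = 1/2 + r` to `s = 1/2 - r`; it passes outside `sph 1` for `σ = 1` and inside `sph 1` for `σ = -1`:
`Gc c v = (1/2 + c.re, (1, 0) + ((1/5 + c.im) / |v|) • v)`. -/
noncomputable def hcirc (F : R4 → R4) (r : ℝ) (v : R3) (σ : ℝ) (u : ℝ) : R4 :=
  F (Gc (r * Complex.exp ((σ * Real.pi * u : ℝ) * Complex.I)) v)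

/-- CRL (helper27).  The crossing lemma.  `w` is an arbitrary path from the base point `bp F` to the beginning of the two half
circles, `h` and `h'` are arbitrary free homotopies to the same sphere, with the tracks `w` followed by the outer half
circle and `w` followed by the inner half circle: the classes of `h (0, ·)` and `h' (0, ·)` are equal up to `W`.
(The radius `r` may be as small as necessary and the direction `v` may be chosen.) -/
def StCRL : Prop :=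
  ∀ F : R4 → R4, EmbOn I4 F SP → ∀ η > 0, ∃ r ∈ Ioo (0 : ℝ) η, ∃ v : R3, v ≠ 0 ∧
    ∀ (w : ℝ → R4) (h h' : ℝ × R3 → R4), w 0 = bp F → FH F h (pcat w (hcirc F r v 1)) →
      FH F h' (pcat w (hcirc F r v (-1))) → (∀ m ∈ S2, h (1, m) = h' (1, m)) →
      DR F (fun m => h (0, m)) (fun m => h' (0, m))

end Pool.Agent.Helper34.S5


end

/-! ## Helper34.BI5.VK6 -/

section

/-!
# Transport of spheres along paths
-/

set_option autoImplicit false

open scoped Manifold ContDiff Topology ComplexConjugate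
open Set Pool.Agent.Helper65.Barb Pool.Agent.Helper18.BI
open Pool.Agent.Helper70.BI (I4 IsW)
open Pool.Agent.Helper18.BI.R
open Pool.Agent.Helper18.BI.R.HEP (sg sg_cont sg_mem sg_one sg_base dbd)

namespace Pool.Agent.Helper34.S5

theorem base_mem : ((1, 0) : R3) ∈ S2 := by
  show nsq ((1, 0) : R3) = 1
  simp [nsq]

/-- the sphere `a` with a collar around `(1, 0)` filled by the path `b` -/
noncomputable def fill (a : R3 → R4) (b : ℝ → R4) (m : R3) : R4 :=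
  if 1 ≤ 2 * (1 - m.1) then a (sg (0, m)) else b (max (2 * (1 - m.1)) 0)

theorem sg0_mem {m : R3} (hm : m ∈ S2) : sg (0, m) ∈ S2 :=
  sg_mem (p := ((0 : ℝ), m)) ⟨⟨le_rfl, zero_le_one⟩, hm⟩

theorem fill_base (a : R3 → R4) (b : ℝ → R4) : fill a b (1, 0) = b 0 := by
  have h1 : ¬ (1 : ℝ) ≤ 2 * (1 - ((1, 0) : R3).1) := by
    show ¬ (1 : ℝ) ≤ 2 * (1 - 1)
    norm_num
  unfold fill
  rw [if_neg h1]
  show b (max (2 * (1 - 1)) 0) = b 0
  norm_num

theorem fill_par {m : R3} (h : ¬ (1 : ℝ) ≤ 2 * (1 - m.1)) :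
    max (2 * (1 - m.1)) 0 ∈ Icc (0 : ℝ) 1 := by
  rw [not_le] at h
  exact ⟨le_max_right _ _, max_le h.le zero_le_one⟩

theorem fill_off {K : Set R4} {a : R3 → R4} {b : ℝ → R4} (ha : ∀ m ∈ S2, a m ∉ K)
    (hb : ∀ t ∈ Icc (0 : ℝ) 1, b t ∉ K) {m : R3} (hm : m ∈ S2) : fill a b m ∉ K := by
  unfold fill
  split_ifs with h
  · exact ha _ (sg0_mem hm)
  · exact hb _ (fill_par h)

theorem fill_congr {a a' : R3 → R4} {b b' : ℝ → R4} (ha : ∀ m ∈ S2, a m = a' m)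
    (hb : ∀ t ∈ Icc (0 : ℝ) 1, b t = b' t) {m : R3} (hm : m ∈ S2) : fill a b m = fill a' b' m := by
  unfold fill
  split_ifs with h
  · exact ha _ (sg0_mem hm)
  · exact hb _ (fill_par h)

/-- joint continuity -/
theorem fill_cont {a : ℝ × R3 → R4} {b : ℝ × ℝ → R4}
    (ha : ContinuousOn a (Icc (0 : ℝ) 1 ×ˢ S2))
    (hb : ContinuousOn b (Icc (0 : ℝ) 1 ×ˢ Icc (0 : ℝ) 1))
    (hab : ∀ u ∈ Icc (0 : ℝ) 1, a (u, (1, 0)) = b (u, 1)) :
    ContinuousOn (fun z : ℝ × R3 => fill (fun m => a (z.1, m)) (fun t => b (z.1, t)) z.2)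
      (Icc (0 : ℝ) 1 ×ˢ S2) := by
  rw [continuousOn_iff_continuous_domRestrict]
  have hsg : Continuous fun x : ↥(Icc (0 : ℝ) 1 ×ˢ S2) => sg (0, (x : ℝ × R3).2) := by
    refine sg_cont.comp_continuous (f := fun x : ↥(Icc (0 : ℝ) 1 ×ˢ S2) => ((0 : ℝ), (x : ℝ × R3).2))
      ?_ fun x => ⟨⟨le_rfl, zero_le_one⟩, x.2.2⟩
    fun_prop
  have hc : Continuous fun x : ↥(Icc (0 : ℝ) 1 ×ˢ S2) =>
      if 1 ≤ 2 * (1 - (x : ℝ × R3).2.1) then a ((x : ℝ × R3).1, sg (0, (x : ℝ × R3).2))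
      else b ((x : ℝ × R3).1, min (max (2 * (1 - (x : ℝ × R3).2.1)) 0) 1) := by
    refine Continuous.if_le ?_ ?_ ?_ ?_ ?_
    · refine ha.comp_continuous ?_ fun x => ⟨x.2.1, sg0_mem x.2.2⟩
      exact (continuous_fst.comp continuous_subtype_val).prodMk hsg
    · refine hb.comp_continuous ?_ fun x => ⟨x.2.1, ⟨le_min (le_max_right _ _) zero_le_one,
        min_le_right _ _⟩⟩
      fun_prop
    · fun_prop
    · fun_prop
    · intro x hx
      have h1 : sg (0, (x : ℝ × R3).2) = (1, 0) := by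
        refine sg_base (p := ((0 : ℝ), (x : ℝ × R3).2)) ?_
        show (1 - 0 : ℝ) = 2 * (1 - (x : ℝ × R3).2.1)
        linarith
      rw [h1, hab _ x.2.1, ← hx]
      norm_num
  refine hc.congr fun x => ?_
  show _ = fill (fun m => a ((x : ℝ × R3).1, m)) (fun t => b ((x : ℝ × R3).1, t)) (x : ℝ × R3).2
  unfold fill
  split_ifs with h
  · rfl
  · rw [min_eq_left (fill_par h).2]

section
variable {F : R4 → R4}

theorem FH.congr {h h' : ℝ × R3 → R4} {w w' : ℝ → R4} (hh : FH F h w)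
    (e : ∀ u ∈ Icc (0 : ℝ) 1, ∀ m ∈ S2, h' (u, m) = h (u, m))
    (e' : ∀ u ∈ Icc (0 : ℝ) 1, w' u = w u) : FH F h' w' where
  cont := hh.cont.congr fun z hz => e z.1 hz.1 z.2 hz.2
  off u hu m hm := by
    rw [e u hu m hm]
    exact hh.off u hu m hm
  track u hu := by
    rw [e u hu _ base_mem, e' u hu]
    exact hh.track u hu

open scoped Classical in
/-- **Transport.** -/
theorem transport {k : R3 → R4} {w : ℝ → R4} (hk : ContinuousOn k S2)
    (hw : ContinuousOn w (Icc (0 : ℝ) 1)) (h1 : w 1 = k (1, 0)) (hkK : ∀ m ∈ S2, k m ∉ F '' sph 1)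
    (hwK : ∀ t ∈ Icc (0 : ℝ) 1, w t ∉ F '' sph 1) : ∃ h : ℝ × R3 → R4, FH F h w ∧
      (∀ m ∈ S2, h (1, m) = k m) ∧ ∀ m ∈ S2, h (0, m) = fill k w m := by
  let h : ℝ × R3 → R4 := fun p =>
    if (1 - p.1) ≤ 2 * (1 - p.2.1) then k (sg p) else w (1 - max ((1 - p.1) - 2 * (1 - p.2.1)) 0)
  have hmx : ∀ p ∈ Icc (0 : ℝ) 1 ×ˢ S2,
      1 - max ((1 - p.1) - 2 * (1 - p.2.1)) 0 ∈ Icc (0 : ℝ) 1 := by
    intro p hp
    have h1 := dbd hp.2
    have h2 : 0 ≤ p.1 := hp.1.1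
    have h3 : max ((1 - p.1) - 2 * (1 - p.2.1)) 0 ≤ 1 := max_le (by linarith) zero_le_one
    have h4 : 0 ≤ max ((1 - p.1) - 2 * (1 - p.2.1)) 0 := le_max_right _ _
    constructor <;> linarith
  refine ⟨h, ⟨?_, ?_, ?_⟩, ?_, ?_⟩
  · rw [continuousOn_iff_continuous_domRestrict]
    have hc : Continuous fun x : ↥(Icc (0 : ℝ) 1 ×ˢ S2) =>
        if (1 - (x : ℝ × R3).1) ≤ 2 * (1 - (x : ℝ × R3).2.1) then k (sg x)
        else w (1 - max ((1 - (x : ℝ × R3).1) - 2 * (1 - (x : ℝ × R3).2.1)) 0) := by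
      refine Continuous.if_le ?_ ?_ ?_ ?_ ?_
      · exact hk.comp_continuous (continuousOn_iff_continuous_domRestrict.mp sg_cont)
          (fun x => sg_mem x.2)
      · refine hw.comp_continuous ?_ (fun x => hmx x x.2)
        fun_prop
      · fun_prop
      · fun_prop
      · intro x hx
        rw [sg_base hx, ← h1]
        congr 1
        rw [hx]
        simp
    exact hc
  · intro u hu m hm
    have hp : (u, m) ∈ Icc (0 : ℝ) 1 ×ˢ S2 := ⟨hu, hm⟩
    show (if (1 - u) ≤ 2 * (1 - m.1) then k (sg (u, m))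
      else w (1 - max ((1 - u) - 2 * (1 - m.1)) 0)) ∉ F '' sph 1
    split_ifs
    · exact hkK _ (sg_mem hp)
    · exact hwK _ (hmx _ hp)
  · intro u hu
    show (if (1 - u) ≤ 2 * (1 - (1 : ℝ)) then k (sg (u, (1, 0)))
      else w (1 - max ((1 - u) - 2 * (1 - 1)) 0)) = w u
    split_ifs with h2
    · have h3 : u = 1 := le_antisymm hu.2 (by linarith)
      rw [h3, sg_one base_mem, h1]
    · rw [max_eq_left (by linarith [hu.2])]
      congr 1
      ring
  · intro m hm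
    show (if (1 - (1 : ℝ)) ≤ 2 * (1 - m.1) then k (sg (1, m)) else _) = k m
    rw [if_pos (by linarith [(dbd hm).1]), sg_one hm]
  · intro m hm
    show (if (1 - (0 : ℝ)) ≤ 2 * (1 - m.1) then k (sg (0, m))
      else w (1 - max ((1 - 0) - 2 * (1 - m.1)) 0)) = fill k w m
    unfold fill
    rw [sub_zero]
    split_ifs with h2
    · rfl
    · rw [not_le] at h2
      have h3 := (dbd hm).1
      rw [max_eq_left (by linarith), max_eq_left (by linarith)]
      congr 1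
      ring

/-- concatenation of free homotopies -/
noncomputable def hcat (h h' : ℝ × R3 → R4) (z : ℝ × R3) : R4 :=
  if z.1 ≤ 1 / 2 then h (2 * z.1, z.2) else h' (2 * z.1 - 1, z.2)

theorem hcat_zero (h h' : ℝ × R3 → R4) (m : R3) : hcat h h' (0, m) = h (0, m) := by
  show (if (0 : ℝ) ≤ 1 / 2 then h (2 * 0, m) else _) = _
  rw [if_pos (by norm_num), mul_zero]

theorem hcat_one (h h' : ℝ × R3 → R4) (m : R3) : hcat h h' (1, m) = h' (1, m) := by
  show (if (1 : ℝ) ≤ 1 / 2 then _ else h' (2 * 1 - 1, m)) = _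
  rw [if_neg (by norm_num)]
  norm_num

theorem fh_cat {h h' : ℝ × R3 → R4} {w w' : ℝ → R4} (hh : FH F h w) (hh' : FH F h' w')
    (e : ∀ m ∈ S2, h (1, m) = h' (0, m)) : FH F (hcat h h') (pcat w w') where
  cont := by
    rw [continuousOn_iff_continuous_domRestrict]
    have hc : Continuous fun x : ↥(Icc (0 : ℝ) 1 ×ˢ S2) =>
        if (x : ℝ × R3).1 ≤ 1 / 2 then h (max 0 (min (2 * (x : ℝ × R3).1) 1), (x : ℝ × R3).2)
        else h' (max 0 (min (2 * (x : ℝ × R3).1 - 1) 1), (x : ℝ × R3).2) := by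
      refine Continuous.if_le ?_ ?_ ?_ ?_ ?_
      · refine hh.cont.comp_continuous (by fun_prop) fun x => ⟨⟨le_max_left _ _,
          max_le zero_le_one (min_le_right _ _)⟩, x.2.2⟩
      · refine hh'.cont.comp_continuous (by fun_prop) fun x => ⟨⟨le_max_left _ _,
          max_le zero_le_one (min_le_right _ _)⟩, x.2.2⟩
      · fun_prop
      · fun_prop
      · intro x hx
        rw [hx]
        norm_num
        exact e _ x.2.2
    refine hc.congr fun x => ?_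
    obtain ⟨⟨u, m⟩, hu, hm⟩ := x
    have hu' : 0 ≤ u ∧ u ≤ 1 := hu
    show (if u ≤ 1 / 2 then h (max 0 (min (2 * u) 1), m) else h' (max 0 (min (2 * u - 1) 1), m))
      = (if u ≤ 1 / 2 then h (2 * u, m) else h' (2 * u - 1, m))
    split_ifs with h1
    · rw [min_eq_left (by linarith), max_eq_right (by linarith [hu'.1])]
    · rw [not_le] at h1
      rw [min_eq_left (by linarith [hu'.2]), max_eq_right (by linarith)]
  off u hu m hm := by
    show (if u ≤ 1 / 2 then h (2 * u, m) else h' (2 * u - 1, m)) ∉ _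
    split_ifs with h1
    · exact hh.off _ ⟨by linarith [hu.1], by linarith⟩ m hm
    · rw [not_le] at h1
      exact hh'.off _ ⟨by linarith, by linarith [hu.2]⟩ m hm
  track u hu := by
    show (if u ≤ 1 / 2 then h (2 * u, (1, 0)) else h' (2 * u - 1, (1, 0)))
      = (if u ≤ 1 / 2 then w (2 * u) else w' (2 * u - 1))
    split_ifs with h1
    · exact hh.track _ ⟨by linarith [hu.1], by linarith⟩
    · rw [not_le] at h1
      exact hh'.track _ ⟨by linarith, by linarith [hu.2]⟩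

/-- based homotopic -/
def BH (F : R4 → R4) (f f' : R3 → R4) : Prop :=
  ∃ H : ℝ × R3 → R4, FH F H (fun _ => bp F) ∧ (∀ m ∈ S2, H (0, m) = f m) ∧
    ∀ m ∈ S2, H (1, m) = f' m

theorem const_mem {t : ℝ} (ht : t ∈ Icc (0 : ℝ) 1) {u : ℝ} (hu : u ∈ Icc (0 : ℝ) 1) :
    u * t ∈ Icc (0 : ℝ) 1 :=
  ⟨mul_nonneg hu.1 ht.1, mul_le_one₀ hu.2 ht.1 ht.2⟩

/-- a based sphere and the sphere with a constant collar -/
theorem bh_fill_const {f : R3 → R4} (hf : ContinuousOn f S2) (h0 : f (1, 0) = bp F)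
    (hK : ∀ m ∈ S2, f m ∉ F '' sph 1) : BH F (fill f (fun _ => bp F)) f := by
  obtain ⟨h, h1, h2, h3⟩ := transport (F := F) (k := f) (w := fun _ => bp F) hf continuousOn_const
    h0.symm hK (fun t _ => by rw [← h0]; exact hK _ base_mem)
  exact ⟨h, h1, h3, h2⟩

/-- the sphere with constant collar and the end of a free homotopy with the track in the collar -/
theorem bh_fill_track {h : ℝ × R3 → R4} {w : ℝ → R4} (hh : FH F h w)
    (hw : ContinuousOn w (Icc (0 : ℝ) 1)) (h0 : w 0 = bp F)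
    (hwK : ∀ t ∈ Icc (0 : ℝ) 1, w t ∉ F '' sph 1) :
    BH F (fill (fun m => h (0, m)) (fun _ => bp F)) (fill (fun m => h (1, m)) w) := by
  have hb : ContinuousOn (fun z : ℝ × ℝ => w (z.1 * z.2)) (Icc (0 : ℝ) 1 ×ˢ Icc (0 : ℝ) 1) :=
    hw.comp (Continuous.continuousOn (by fun_prop)) fun z hz => const_mem hz.2 hz.1
  refine ⟨fun z => fill (fun m => h (z.1, m)) (fun t => w (z.1 * t)) z.2, ⟨?_, ?_, ?_⟩, ?_, ?_⟩
  · refine fill_cont (a := h) (b := fun z => w (z.1 * z.2)) hh.cont hb ?_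
    intro u hu
    show h (u, (1, 0)) = w (u * 1)
    rw [mul_one]
    exact hh.track u hu
  · intro u hu m hm
    exact fill_off (hh.off u hu) (fun t ht => hwK _ (const_mem ht hu)) hm
  · intro u hu
    show fill (fun m => h (u, m)) (fun t => w (u * t)) (1, 0) = bp F
    rw [fill_base]
    show w (u * 0) = bp F
    rw [mul_zero, h0]
  · intro m hm
    refine fill_congr (fun _ _ => rfl) (fun t _ => ?_) hm
    show w (0 * t) = bp F
    rw [zero_mul, h0]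
  · intro m hm
    refine fill_congr (fun _ _ => rfl) (fun t _ => ?_) hm
    show w (1 * t) = w t
    rw [one_mul]

/-- homotopic collars -/
theorem bh_fill_htpy {k : R3 → R4} {P : ℝ × ℝ → R4} (hk : ContinuousOn k S2)
    (hkK : ∀ m ∈ S2, k m ∉ F '' sph 1)
    (hP : ContinuousOn P (Icc (0 : ℝ) 1 ×ˢ Icc (0 : ℝ) 1))
    (hPK : ∀ u ∈ Icc (0 : ℝ) 1, ∀ t ∈ Icc (0 : ℝ) 1, P (u, t) ∉ F '' sph 1)
    (h0 : ∀ u ∈ Icc (0 : ℝ) 1, P (u, 0) = bp F)
    (h1 : ∀ u ∈ Icc (0 : ℝ) 1, P (u, 1) = k (1, 0)) :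
    BH F (fill k (fun t => P (0, t))) (fill k (fun t => P (1, t))) := by
  refine ⟨fun z => fill k (fun t => P (z.1, t)) z.2, ⟨?_, ?_, ?_⟩, fun _ _ => rfl, fun _ _ => rfl⟩
  · refine fill_cont (a := fun z => k z.2) (b := P) (hk.comp continuousOn_snd fun z hz => hz.2)
      hP fun u hu => (h1 u hu).symm
  · intro u hu m hm
    exact fill_off hkK (fun t ht => hPK u hu t ht) hm
  · intro u hu
    show fill k (fun t => P (u, t)) (1, 0) = bp F
    rw [fill_base]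
    exact h0 u hu

end

end Pool.Agent.Helper34.S5


end

/-! ## Helper34.BI5.VK7 -/

section

/-!
# `DR` is an equivalence relation and contains based homotopy
-/

set_option autoImplicit false

open scoped Manifold ContDiff Topology ComplexConjugate
open Set Pool.Agent.Helper65.Barb Pool.Agent.Helper18.BI
open Pool.Agent.Helper70.BI (I4 IsW)
open Pool.Agent.Helper27.H (ArcD K3 HatOk bfin_mid)
open Pool.Agent.Helper18.BI.H
open Pool.Agent.Helper18.BI.R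
open Pool.Agent.Helper18.BI.S5

namespace Pool.Agent.Helper34.S5

theorem mm_bd {q s : ℝ} (h : q = 0 ∨ q = 1 ∨ s = 9 / 20 ∨ s = 11 / 20) : mm q s = (1, 0) := by
  rcases h with h | h | h | h
  · exact mm_ends q s (Or.inl h)
  · exact mm_ends q s (Or.inr h)
  · exact mm_edge q s (Or.inl h.le)
  · exact mm_edge q s (Or.inr h.ge)

/-- the facts about the arc datum of `F ∘ sq ε` -/
theorem hatD_facts {F : R4 → R4} {δ ε : ℝ} {D : ArcD} (h : HatD F δ ε D) :
    D.m₀ = 9 / 20 ∧ D.m₁ = 11 / 20 ∧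
      ∀ s ∈ Icc (3 / 10 : ℝ) (7 / 10), D.c s = F (sq ε (s, ((73 / 100 : ℝ), 0))) := by
  obtain ⟨T, T', -, -, -, hD⟩ := h
  refine ⟨hD.m₀, hD.m₁, fun s hs => ?_⟩
  have hs' : s ∈ Icc D.s₀ D.s₁ := ⟨by linarith [hs.1, hD.s₀.2], by linarith [hs.2, hD.s₁.1]⟩
  rw [← D.core s hs', hD.J]
  show F (sq ε (s, Pool.Agent.Helper27.H.z0 s + 0)) = _
  rw [add_zero]
  unfold Pool.Agent.Helper27.H.z0
  rw [bfin_mid hs]
  have e : (1 - 27 / 100 : ℝ) • Pool.Agent.Helper27.BI.e1 = (((73 / 100 : ℝ), 0) : R3) := by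
    show (1 - 27 / 100 : ℝ) • (((1 : ℝ), (0 : ℂ)) : R3) = _
    rw [Prod.smul_mk, smul_zero, smul_eq_mul]
    norm_num
  rw [e]

/-- a based sphere off the fixed cuff -/
structure Bs (F : R4 → R4) (g : R3 → R4) : Prop where
  cont : ContinuousOn g S2
  off : ∀ m ∈ S2, g m ∉ F '' sph 1
  base : g (1, 0) = bp F

theorem FH.bs {F : R4 → R4} {h : ℝ × R3 → R4} {w : ℝ → R4} (hh : FH F h w) (h0 : w 0 = bp F) :
    Bs F (fun m => h (0, m)) where
  cont := hh.cont.comp (Continuous.continuousOn (by fun_prop)) fun m hm =>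
    ⟨⟨le_rfl, zero_le_one⟩, hm⟩
  off m hm := hh.off 0 ⟨le_rfl, zero_le_one⟩ m hm
  base := by rw [hh.track 0 ⟨le_rfl, zero_le_one⟩, h0]

theorem isCompact_K {F : R4 → R4} (hF : EmbOn I4 F SP) : IsCompact (F '' sph 1) := by
  have h1 : IsCompact (sph 1) := by
    refine X2.isCompact_SP.of_isClosed_subset ?_ sph1_subset_SP
    exact (isClosed_eq continuous_fst continuous_const).inter
      (isClosed_eq (continuous_rsq 1) continuous_const)
  refine h1.image_of_continuousOn fun p hp => ?_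
  exact ((hF.1 p (sph1_subset_SP hp)).contMDiffAt.continuousAt).continuousWithinAt

section
variable {F : R4 → R4} (hF : EmbOn I4 F SP)
include hF

/-- the shifted square is off the wall -/
theorem exists_margin {X : Type} [TopologicalSpace X] {C : Set X} {f : X → R4} (hC : IsCompact C)
    (hf : ContinuousOn f C) (h : ∀ x ∈ C, f x ∉ F '' sph 1) : ∃ κ > 0, ∃ ε₀ > 0,
      ∀ (δ : ℝ), ∀ ε ∈ Ioo 0 ε₀, ∀ D : ArcD, HatD F δ ε D →
      (∀ x, x ∉ D.U → ∃ y ∈ F '' sph 1, dist x y < κ) → ∀ x ∈ C, ∀ s ∈ Icc D.m₀ D.m₁,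
        f x + (D.c s - bp F) ∈ D.U := by
  obtain ⟨κ, h1, hκ⟩ := ((margin hC hf (isCompact_K hF) h).and self_mem_nhdsWithin).exists
  have hκ : 0 < κ := hκ
  obtain ⟨ε₀, hε₀, h2⟩ := m_NRB F hF κ hκ
  refine ⟨κ, hκ, ε₀, hε₀, fun δ ε hε D hD hw x hx s hs => ?_⟩
  obtain ⟨hm₀, hm₁, hc⟩ := hatD_facts hD
  rw [hm₀, hm₁] at hs
  have hs' : s ∈ Icc (3 / 10 : ℝ) (7 / 10) := ⟨by linarith [hs.1], by linarith [hs.2]⟩
  by_contra hn
  obtain ⟨y, hy, hd⟩ := hw _ hn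
  have h3 := h1 x hx y hy
  have h4 := h2 ε hε s hs'
  rw [← hc s hs'] at h4
  have h5 : dist (f x) (f x + (D.c s - bp F)) ≤ κ := by
    rw [dist_self_add_right, ← dist_eq_norm]
    exact h4
  have h6 := dist_triangle (f x) (f x + (D.c s - bp F)) y
  linarith

/-- **DR contains based homotopy.** -/
theorem dr_of_bh (hHCL : StHCL) {f f' : R3 → R4} (hB : BH F f f') : DR F f f' := by
  obtain ⟨H, hH, h0, h1⟩ := hB
  obtain ⟨κ, hκ, ε₀, hε₀, hM⟩ := exists_margin hF (isCompact_Icc.prod isCompact_S2) hH.cont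
    fun z hz => hH.off z.1 hz.1 z.2 hz.2
  refine ⟨κ, hκ, 1, one_pos, fun δ _ => ⟨ε₀, hε₀, fun ε hε D hD hw W χ χ' hW hχ hχ' => ?_⟩⟩
  obtain ⟨hm₀, hm₁, hc⟩ := hatD_facts hD
  obtain ⟨-, -, -, h4, -, -, h7⟩ := hHCL D (bp F)
  refine h7 W _ χ χ' hW (h4 _ _ χ hχ ?_) hχ'
  refine ⟨fun z => H (z.1, mm z.2.1 z.2.2) + (D.c z.2.2 - bp F), ?_, ?_, ?_⟩
  · refine ContinuousOn.add ?_ ?_
    · refine hH.cont.comp (f := fun z : ℝ × ℝ × ℝ => (z.1, mm z.2.1 z.2.2)) ?_ ?_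
      · exact (continuous_fst.prodMk (continuous_mm.comp continuous_snd)).continuousOn
      · intro z hz
        exact ⟨hz.1, mm_S2 _ _⟩
    · exact ((D.smooth.continuous.comp (by fun_prop)).sub continuous_const).continuousOn
  · intro q _ s _
    show H (0, mm q s) + (D.c s - bp F) = shp D (bp F) _ q s ∧
      H (1, mm q s) + (D.c s - bp F) = shp D (bp F) _ q s
    rw [h0 _ (mm_S2 q s), h1 _ (mm_S2 q s)]
    exact ⟨rfl, rfl⟩
  · intro u hu q hq s hs
    refine ⟨hM δ ε hε D hD hw (u, mm q s) ⟨hu, mm_S2 q s⟩ s hs, fun hb => ?_⟩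
    rw [hm₀, hm₁] at hb
    show H (u, mm q s) + (D.c s - bp F) = D.c s
    rw [mm_bd hb, hH.track u hu]
    abel

omit hF in
theorem dr_symm (hHCL : StHCL) (hT2 : StT2) (hCI : StCI) {f f' : R3 → R4} (h : DR F f f') :
    DR F f' f := by
  obtain ⟨κ, hκ, δ₀, hδ₀, h⟩ := h
  refine ⟨κ, hκ, δ₀, hδ₀, fun δ hδ => ?_⟩
  obtain ⟨ε₀, hε₀, h⟩ := h δ hδ
  refine ⟨ε₀, hε₀, fun ε hε D hD hw W χ χ' hW hχ hχ' => ?_⟩
  obtain ⟨-, -, -, -, -, h6, -⟩ := hHCL D (bp F)
  exact rw_symm hT2 hCI hW (h6 _ _ hχ') (h ε hε D hD hw W χ' χ hW hχ' hχ)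

theorem dr_trans (hHCL : StHCL) (hT2 : StT2) (hCI : StCI) (hEX : StEX) {f g f' : R3 → R4}
    (hg : Bs F g) (h : DR F f g) (h' : DR F g f') : DR F f f' := by
  obtain ⟨κ, hκ, δ₀, hδ₀, h⟩ := h
  obtain ⟨κ', hκ', δ₀', hδ₀', h'⟩ := h'
  obtain ⟨κ'', hκ'', ε₀'', hε₀'', hM⟩ := exists_margin hF isCompact_S2 hg.cont hg.off
  refine ⟨min κ (min κ' κ''), by positivity, min δ₀ δ₀', by positivity, fun δ hδ => ?_⟩
  obtain ⟨ε₀, hε₀, h⟩ := h δ ⟨hδ.1, lt_of_lt_of_le hδ.2 (min_le_left _ _)⟩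
  obtain ⟨ε₀', hε₀', h'⟩ := h' δ ⟨hδ.1, lt_of_lt_of_le hδ.2 (min_le_right _ _)⟩
  refine ⟨min ε₀ (min ε₀' ε₀''), by positivity, fun ε hε D hD hw W χ χ' hW hχ hχ' => ?_⟩
  have hw1 : ∀ x, x ∉ D.U → ∃ y ∈ F '' sph 1, dist x y < κ := fun x hx => by
    obtain ⟨y, hy, hd⟩ := hw x hx
    exact ⟨y, hy, lt_of_lt_of_le hd (min_le_left _ _)⟩
  have hw2 : ∀ x, x ∉ D.U → ∃ y ∈ F '' sph 1, dist x y < κ' := fun x hx => by
    obtain ⟨y, hy, hd⟩ := hw x hx
    exact ⟨y, hy, lt_of_lt_of_le hd ((min_le_right _ _).trans (min_le_left _ _))⟩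
  have hw3 : ∀ x, x ∉ D.U → ∃ y ∈ F '' sph 1, dist x y < κ'' := fun x hx => by
    obtain ⟨y, hy, hd⟩ := hw x hx
    exact ⟨y, hy, lt_of_lt_of_le hd ((min_le_right _ _).trans (min_le_right _ _))⟩
  have hε1 : ε ∈ Ioo 0 ε₀ := ⟨hε.1, lt_of_lt_of_le hε.2 (min_le_left _ _)⟩
  have hε2 : ε ∈ Ioo 0 ε₀' :=
    ⟨hε.1, lt_of_lt_of_le hε.2 ((min_le_right _ _).trans (min_le_left _ _))⟩
  have hε3 : ε ∈ Ioo 0 ε₀'' :=
    ⟨hε.1, lt_of_lt_of_le hε.2 ((min_le_right _ _).trans (min_le_right _ _))⟩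
  obtain ⟨hm₀, hm₁, hc⟩ := hatD_facts hD
  obtain ⟨-, -, -, -, -, h6, -⟩ := hHCL D (bp F)
  have hsq : SqOK D (shp D (bp F) (fun q s => g (mm q s))) := by
    refine ⟨?_, ?_, ?_⟩
    · refine ContinuousOn.add ?_ ?_
      · exact hg.cont.comp continuous_mm.continuousOn fun z _ => mm_S2 _ _
      · exact ((D.smooth.continuous.comp (by fun_prop)).sub continuous_const).continuousOn
    · intro q hq s hs
      exact hM δ ε hε3 D hD hw3 _ (mm_S2 q s) s hs
    · intro q hq s hs hb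
      rw [hm₀, hm₁] at hb
      show g (mm q s) + (D.c s - bp F) = D.c s
      rw [mm_bd hb, hg.base]
      abel
  obtain ⟨ψ, hψ⟩ := hEX D (bp F) (fun q s => g (mm q s)) hsq
  exact rw_trans hT2 hCI hW (h6 _ _ hχ) (h' ε hε2 D hD hw2 W ψ χ' hW hψ hχ')
    (h ε hε1 D hD hw1 W χ ψ hW hχ hψ)

end

end Pool.Agent.Helper34.S5


end

/-! ## Helper34.BI5.StN -/

section

/-!
# Project BI, stage 5: the crossing lemma for nice spheres (statement)

`StCRN` (helper27) gives `StCRL` (module `M_CRL`, helper34).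
-/

set_option autoImplicit false

open scoped Manifold ContDiff Topology ComplexConjugate
open Set Pool.Agent.Helper65.Barb Pool.Agent.Helper18.BI
open Pool.Agent.Helper70.BI (I4 IsW)
open Pool.Agent.Helper27.H (ArcD)
open Pool.Agent.Helper18.BI.H
open Pool.Agent.Helper18.BI.R
open Pool.Agent.Helper18.BI.S5

namespace Pool.Agent.Helper34.S5

/-- a path from the base point which leaves the bar sideways and is then off the fixed cuff and the bar -/
structure NicePath (F : R4 → R4) (τ₁ : ℝ) (ξ : ℝ → R4) : Prop where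
  cont : ContinuousOn ξ (Icc (0 : ℝ) 1)
  start : ∀ t ∈ Icc (0 : ℝ) (1 / 2), ξ t = F (1 / 2, ((73 / 100 : ℝ), ((2 * t * τ₁ : ℝ) : ℂ)))
  off : ∀ t ∈ Icc (1 / 2 : ℝ) 1, ξ t ∉ F '' (sph 1 ∪ neck)

/-- CRN (helper27).  The crossing lemma for nice spheres.  `k` is a sphere off the fixed cuff and the bar with `k (1,0)` the end of the
half circles, `ξ` a nice path to the beginning of the half circles; `fill k b` (`VK6.lean`; lemmas `fill_cont`, `fill_off`,
`fill_base`) is the based sphere `k` with the path `b` attached: `fill k b m = b (2 (1 - m.1))` for `m.1 > 1/2` and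
`fill k b m = k (sg (0, m))` for `m.1 ≤ 1/2` (`sg (0, ·)` maps this part of `S2` onto `S2` and its boundary to `(1, 0)`).
In the collar `9/10 ≤ m.1`: `fill k (pcat ξ _) m = ξ (4 (1 - m.1)) = F (1/2, (73/100, 8 (1 - m.1) τ₁))`, so `StSQF` is applicable with
`4/5 τ₁` instead of `τ₁`. -/
def StCRN : Prop :=
  ∀ F : R4 → R4, EmbOn I4 F SP → ∃ r₀ > 0, ∀ r ∈ Ioo (0 : ℝ) r₀, ∀ τ₁ ∈ Ioo (0 : ℝ) r₀,
    ∀ (ξ : ℝ → R4) (k : R3 → R4), NicePath F τ₁ ξ → ξ 1 = F (Gc r (0, 1)) →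
      ContinuousOn k S2 → (∀ m ∈ S2, k m ∉ F '' (sph 1 ∪ neck)) →
      k (1, 0) = F (Gc (-r) (0, 1)) →
      DR F (fill k (pcat ξ (hcirc F r (0, 1) 1))) (fill k (pcat ξ (hcirc F r (0, 1) (-1))))

end Pool.Agent.Helper34.S5


end

/-! ## Helper34.BI5.VK9 -/

section

/-!
# General position of a two-dimensional family of points off the bar
-/

set_option autoImplicit false

open scoped Manifold ContDiff Topology ComplexConjugate
open Set Pool.Agent.Helper65.Barb Pool.Agent.Helper18.BI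
open Pool.Agent.Helper70.BI (I4 IsW)
open Pool.Agent.Helper18.BI.H
open Pool.Agent.Helper18.BI.R

namespace Pool.Agent.Helper34.S5

theorem neck_subset_SP : neck ⊆ SP := fun _ h => Or.inr h

theorem sphneck_subset_SP : sph 1 ∪ neck ⊆ SP := by
  rintro p (h | h)
  · exact sph1_subset_SP h
  · exact neck_subset_SP h

theorem isClosed_neck : IsClosed neck := by
  refine (isClosed_eq continuous_fst continuous_const).inter ?_
  refine (isClosed_le continuous_const (continuous_fst.comp continuous_snd)).inter ?_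
  exact (isClosed_le (continuous_fst.comp continuous_snd) continuous_const).inter
    (isClosed_eq (continuous_snd.comp continuous_snd) continuous_const)

theorem isClosed_sph1 : IsClosed (sph 1) :=
  (isClosed_eq continuous_fst continuous_const).inter
      (isClosed_eq (continuous_rsq 1) continuous_const)

theorem isCompact_N {F : R4 → R4} (hF : EmbOn I4 F SP) : IsCompact (F '' (sph 1 ∪ neck)) := by
  have h1 : IsCompact (sph 1 ∪ neck) :=
    X2.isCompact_SP.of_isClosed_subset (isClosed_sph1.union isClosed_neck) sphneck_subset_SP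
  refine h1.image_of_continuousOn fun p hp => ?_
  exact ((hF.1 p (sphneck_subset_SP hp)).contMDiffAt.continuousAt).continuousWithinAt

theorem neck_bar {p : R4} (hp : p ∈ neck) : ∃ t ∈ Icc (1 / 5 : ℝ) (4 / 5), p = bar t :=
  ⟨p.2.1, ⟨hp.2.1, hp.2.2.1⟩, Prod.ext hp.1 (Prod.ext rfl hp.2.2.2)⟩

theorem bar_neck {t : ℝ} (ht : t ∈ Icc (1 / 5 : ℝ) (4 / 5)) : bar t ∈ neck :=
  ⟨rfl, ht.1, ht.2, rfl⟩

section
variable {F : R4 → R4} (hF : EmbOn I4 F SP) {E : Type} [NormedAddCommGroup E] [NormedSpace ℝ E]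
  [FiniteDimensional ℝ E]

/-- a smooth approximation -/
theorem exists_smooth_approx {X : Set E} (hX : IsClosed X) {f : E → R4} (hf : ContinuousOn f X)
    {κ : ℝ} (hκ : 0 < κ) : ∃ g : E → R4, ContDiff ℝ ∞ g ∧ ∀ x ∈ X, dist (g x) (f x) < κ := by
  obtain ⟨f', hf'⟩ := ContinuousMap.exists_restrict_eq hX
    (⟨X.domRestrict f, continuousOn_iff_continuous_domRestrict.1 hf⟩ : C(X, R4))
  obtain ⟨g, hg, hgf, -⟩ := f'.continuous.exists_contDiff_approx (n := ⊤) continuous_const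
    (fun _ => hκ)
  refine ⟨g, hg, fun x hx => ?_⟩
  have h1 : f' x = f x := by
    have := congrArg (fun φ : C(X, R4) => φ ⟨x, hx⟩) hf'
    exact this
  rw [← h1]
  exact hgf x

include hF in
/-- general position off the bar -/
theorem exists_off_neck {X : Set E} (hX : IsCompact X) {p : ℝ × ℝ → E} (hp : ContDiff ℝ ∞ p)
    (hXp : X ⊆ range p) {f : E → R4} (hf : ContinuousOn f X) {κ : ℝ} (hκ : 0 < κ) :
    ∃ g : E → R4, ContinuousOn g X ∧ (∀ x ∈ X, dist (g x) (f x) ≤ κ) ∧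
      ∀ x ∈ X, g x ∉ F '' neck := by
  obtain ⟨g, hg, hgf⟩ := exists_smooth_approx hX.isClosed hf (half_pos hκ)
  let s : Set (ℝ × ℝ × ℝ) := Icc (1 / 5 : ℝ) (4 / 5) ×ˢ univ
  let φ : ℝ × ℝ × ℝ → R4 := fun z => F (bar z.1) - g (p z.2)
  have hφ : ContDiffOn ℝ 1 φ s := by
    intro z hz
    have h1 : ContDiffAt ℝ 1 F (bar z.1) :=
      ((hF.1 _ (neck_subset_SP (bar_neck hz.1))).contMDiffAt.contDiffAt).of_le (by simp)
    have h2 : ContDiffAt ℝ 1 (fun z : ℝ × ℝ × ℝ => bar z.1) z := by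
      unfold bar
      fun_prop
    have h3 : ContDiff ℝ 1 fun z : ℝ × ℝ × ℝ => g (p z.2) :=
      ((hg.comp hp).comp contDiff_snd).of_le (by simp)
    exact ((h1.comp z h2).sub h3.contDiffAt).contDiffWithinAt
  have hdim : dimH s < Module.finrank ℝ R4 := by
    have h1 : dimH s ≤ dimH (univ : Set (ℝ × ℝ × ℝ)) := dimH_mono (subset_univ _)
    have h2 := Real.dimH_univ_eq_finrank (ℝ × ℝ × ℝ)
    rw [h2] at h1
    refine lt_of_le_of_lt h1 ?_
    have e1 : Module.finrank ℝ (ℝ × ℝ × ℝ) = 3 := by simp [Module.finrank_prod]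
    have e2 : Module.finrank ℝ R4 = 4 := by
      simp [Module.finrank_prod, Complex.finrank_real_complex]
    rw [e1, e2]
    norm_num
  have hd := hφ.dense_compl_image_of_dimH_lt_finrank
    ((convex_Icc _ _).prod convex_univ) (subset_refl s) hdim
  obtain ⟨v, hv, hvκ⟩ := Metric.dense_iff.1 hd 0 (κ / 2) (half_pos hκ)
  have hv1 : ‖v‖ < κ / 2 := by simpa using hv
  refine ⟨fun x => g x + v, (hg.continuous.add continuous_const).continuousOn, fun x hx => ?_,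
    fun x hx => ?_⟩
  · have h1 := hgf x hx
    have h2 : dist (g x + v) (g x) = ‖v‖ := by rw [dist_eq_norm, add_sub_cancel_left]
    have h3 := dist_triangle (g x + v) (g x) (f x)
    linarith
  · rintro ⟨q, hq, h⟩
    obtain ⟨t, ht, rfl⟩ := neck_bar hq
    obtain ⟨z, rfl⟩ := hXp hx
    refine hvκ ⟨(t, z), ⟨ht, mem_univ _⟩, ?_⟩
    show F (bar t) - g (p z) = v
    rw [h, add_sub_cancel_left]

include hF in
/-- **General position off the bar, relative to a subset.** -/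
theorem exists_gp {X Y : Set E} (hX : IsCompact X) {p : ℝ × ℝ → E}
    (hp : ContDiff ℝ ∞ p) (hXp : X ⊆ range p) {f : E → R4} (hf : ContinuousOn f X)
    (hfK : ∀ x ∈ X, f x ∉ F '' sph 1) {ρ : ℝ} (hρ : 0 < ρ)
    (hY : ∀ y ∈ Y, ∀ z ∈ F '' (sph 1 ∪ neck), 2 * ρ ≤ dist (f y) z) :
    ∃ H : ℝ × E → R4, ContinuousOn H (Icc (0 : ℝ) 1 ×ˢ X) ∧ (∀ x ∈ X, H (0, x) = f x) ∧
      (∀ y ∈ Y, ∀ u, H (u, y) = f y) ∧ (∀ u ∈ Icc (0 : ℝ) 1, ∀ x ∈ X, H (u, x) ∉ F '' sph 1) ∧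
      ∀ x ∈ X, H (1, x) ∉ F '' (sph 1 ∪ neck) := by
  obtain ⟨κ₁, hm, hκ₁⟩ := ((margin hX hf (isCompact_K hF) hfK).and self_mem_nhdsWithin).exists
  have hκ₁ : 0 < κ₁ := hκ₁
  let N : Set R4 := F '' (sph 1 ∪ neck)
  have hNc : IsCompact N := isCompact_N hF
  have hNn : N.Nonempty := ⟨F (bar (1 / 5)), bar (1 / 5), Or.inr (bar_neck (by norm_num)), rfl⟩
  obtain ⟨g, hg, hgf, hgn⟩ := exists_off_neck hF hX hp hXp hf (κ := min κ₁ (ρ / 2))
    (lt_min hκ₁ (half_pos hρ))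
  let d : E → ℝ := fun x => Metric.infDist (f x) N
  have hd : ContinuousOn d X := (Metric.continuous_infDist_pt N).comp_continuousOn hf
  let lam : E → ℝ := fun x => max 0 (min 1 (2 - d x / ρ))
  have hlam : ContinuousOn lam X :=
    continuousOn_const.sup (continuousOn_const.inf (continuousOn_const.sub (hd.div_const ρ)))
  have hlam0 : ∀ x, 0 ≤ lam x := fun x => le_max_left _ _
  have hlam1 : ∀ x, lam x ≤ 1 := fun x => max_le zero_le_one (min_le_left _ _)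
  have hclose : ∀ u ∈ Icc (0 : ℝ) 1, ∀ x ∈ X,
      dist (f x) (f x + (u * lam x) • (g x - f x)) ≤ min κ₁ (ρ / 2) := by
    intro u hu x hx
    rw [dist_self_add_right, norm_smul, Real.norm_eq_abs, abs_of_nonneg
      (mul_nonneg hu.1 (hlam0 x)), ← dist_eq_norm]
    have h1 := hgf x hx
    have h2 : u * lam x ≤ 1 := mul_le_one₀ hu.2 (hlam0 x) (hlam1 x)
    calc u * lam x * dist (g x) (f x) ≤ 1 * dist (g x) (f x) :=
          mul_le_mul_of_nonneg_right h2 dist_nonneg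
      _ ≤ _ := by rw [one_mul]; exact h1
  have hoffK : ∀ u ∈ Icc (0 : ℝ) 1, ∀ x ∈ X, f x + (u * lam x) • (g x - f x) ∉ F '' sph 1 := by
    intro u hu x hx hK
    have h1 := hm x hx _ hK
    have h2 := (hclose u hu x hx).trans (min_le_left _ _)
    linarith
  refine ⟨fun z => f z.2 + (z.1 * lam z.2) • (g z.2 - f z.2), ?_, ?_, ?_, hoffK, ?_⟩
  · have h2 : ContinuousOn (fun z : ℝ × E => f z.2) (Icc (0 : ℝ) 1 ×ˢ X) :=
      hf.comp continuousOn_snd fun z hz => hz.2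
    have h3 : ContinuousOn (fun z : ℝ × E => g z.2) (Icc (0 : ℝ) 1 ×ˢ X) :=
      hg.comp continuousOn_snd fun z hz => hz.2
    have h4 : ContinuousOn (fun z : ℝ × E => lam z.2) (Icc (0 : ℝ) 1 ×ˢ X) :=
      hlam.comp continuousOn_snd fun z hz => hz.2
    exact h2.add ((continuousOn_fst.mul h4).smul (h3.sub h2))
  · intro x _
    show f x + ((0 : ℝ) * lam x) • (g x - f x) = f x
    rw [zero_mul, zero_smul, add_zero]
  · intro y hy u
    have h1 : 2 * ρ ≤ d y := (Metric.le_infDist hNn).2 fun z hz => hY y hy z hz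
    have h2 : lam y = 0 := by
      have h3 : 2 - d y / ρ ≤ 0 := by
        have : 2 ≤ d y / ρ := by rw [le_div_iff₀ hρ]; exact h1
        linarith
      exact max_eq_left ((min_le_right _ _).trans h3)
    show f y + (u * lam y) • (g y - f y) = f y
    rw [h2, mul_zero, zero_smul, add_zero]
  · intro x hx
    show f x + ((1 : ℝ) * lam x) • (g x - f x) ∉ F '' (sph 1 ∪ neck)
    by_cases h1 : d x ≤ ρ
    · have h2 : lam x = 1 := by
        have h3 : 1 ≤ 2 - d x / ρ := by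
          have : d x / ρ ≤ 1 := by rw [div_le_one hρ]; exact h1
          linarith
        have h4 : min 1 (2 - d x / ρ) = 1 := min_eq_left h3
        show max 0 (min 1 (2 - d x / ρ)) = 1
        rw [h4]
        exact max_eq_right zero_le_one
      have h5 := hoffK 1 ⟨zero_le_one, le_rfl⟩ x hx
      rw [h2, one_mul, one_smul, add_sub_cancel] at h5 ⊢
      rintro ⟨q, hq | hq, hqx⟩
      · exact h5 ⟨q, hq, hqx⟩
      · exact hgn x hx ⟨q, hq, hqx⟩
    · intro hK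
      have h2 := (hclose 1 ⟨zero_le_one, le_rfl⟩ x hx).trans (min_le_right _ _)
      have h3 : d x ≤ dist (f x) (f x + ((1 : ℝ) * lam x) • (g x - f x)) :=
        Metric.infDist_le_dist_of_mem hK
      linarith

end

end Pool.Agent.Helper34.S5


end

/-! ## Helper27.BI.S5.St5c -/

section

/-!
# Project BI, stage 5: the crossing lemma, statements, part 4: the spheres
-/

set_option autoImplicit false

open scoped Manifold ContDiff Topology ComplexConjugate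
open Set Filter Pool.Agent.Helper65.Barb Pool.Agent.Helper18.BI
open Pool.Agent.Helper70.BI (I4 LD NearEq IsW)
open Pool.Agent.Helper27.BI (e1)
open Pool.Agent.Helper27.H
open Pool.Agent.Helper18.BI.H (mm)
open Pool.Agent.Helper18.BI.R (LoopOK SH S2 bp)
open Pool.Agent.Helper34.S5 (NicePath fill pcat hcirc BH Gc)

namespace Pool.Agent.Helper27.S5

/-- based homotopy off `F '' K` -/
def BHO (F : R4 → R4) (K : Set R4) (f f' : R3 → R4) : Prop :=
  ∃ h : ℝ × R3 → R4, ContinuousOn h (Icc (0 : ℝ) 1 ×ˢ S2) ∧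
    (∀ u ∈ Icc (0 : ℝ) 1, h (u, (1, 0)) = bp F) ∧ (∀ m ∈ S2, h (0, m) = f m ∧ h (1, m) = f' m) ∧
    ∀ u ∈ Icc (0 : ℝ) 1, ∀ m ∈ S2, h (u, m) ∉ F '' K

/-- a sphere as in `StSQF'`: it leaves the bar sideways, and is then off the limit of the forbidden region -/
structure NS (F : R4 → R4) (τ₁ δ' κ β : ℝ) (g : R3 → R4) : Prop where
  cont : ContinuousOn g S2
  coll : ∀ m ∈ S2, 9 / 10 ≤ m.1 →
    g m = F (1 / 2, (73 / 100, ((10 * (1 - m.1) * τ₁ : ℝ) : ℂ)))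
  off : ∀ m ∈ S2, m.1 ≤ 9 / 10 → ∀ p ∈ XX δ' κ β, g m ≠ F (sq 0 p)

/-- MODULE PRM (the parameters; the half circles of radius `r` are replaced by spirals of radius `r₂` in the middle).
Proof.  (0) `emb_open` (`Pool/Agent/Helper27/BI/H/Hat.lean`): `O ⊇ SP` open, `F` is an embedding of `O` and continuous; `exists_shell`: `shell δ₀ ⊆ O`.  `r₀`: `Gc c (0, 1) ∈ O` for `|c| ≤ r₀` and `(1/2, (73/100, w)) ∈ O` for `|w| ≤ r₀`, `r₀ ≤ 1/100`.
(1) `sq 0 p`, `p ∈ XX δ' κ β`: if `rsq 1 p ≤ 1/25` it is `(1/2, p.2)` (`hS4.2.2.1`), with `1/25 - 3 δ' ≤ rsq 1 p`, in `shell δ'`, and `p.2 ≠ P2 β` (otherwise `sgi κ β p = (p.1, e1)`, `p ∈ hol`).  If `rsq 1 p ≥ 1/25`, then it is in `sph 1 ∪ neck` (`hS4.1`; `p.2.1 ≥ 3/10` since `rsq 1 p ≤ 49/100`; compare `sq0_near`).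
(2) `C = k '' S2 ∪ ξ '' [1/2, 1]` is compact, disjoint from `F '' (sph 1 ∪ neck)`; `O' = {p ∈ O | F p ∉ C}` is open and contains `sph 1 ∪ neck`; `exists_shell` for `O'` gives `δ' ≤ δ₀` with `shell δ' ⊆ O'`.  `r₂ ∈ (0, r)` with `(1/5 - r₂)² > 1/25 - δ'`; `β = 1/5 - r₂`; `κ > 0` small, `κ < β`, `κ < r₂`, `(β - κ)² > 1/25 - δ'`;
`δ₁` with `(β + κ)² < 1/25 - 3 δ₁`, `3 δ₁ < δ'`.  (3) spirals `sp σ t = F (Gc (ϱ t * exp (σ π t i)) (0, 1))`, `ϱ t = r₂ + (r - r₂) |2 t - 1|`; `g = fill k (pcat ξ (sp 1))`, `g' = fill k (pcat ξ (sp (-1)))`.  `coll`: `9/10 ≤ m.1`: `g m = ξ (4 (1 - m.1))`, `NicePath.start`: `F (1/2, (73/100, 8 (1 - m.1) τ₁))`.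
`off`: values `k ..` and `ξ t`, `t ≥ 1/2`: by (2) (`F (sq 0 p) ∉ C`).  `ξ t`, `t ∈ [2/5, 1/2]`: `F` of a point `(1/2, (73/100, w))`, `w > 0`, not in `sph 1 ∪ neck ∪ shell δ'` (`rsq 1 > 1/25`), and `F` is injective on `O`.  `sp σ t`: `F` of the point `Gc c (0, 1) = (1/2 + c.re, (1, (1/5 + c.im)))`, `c = ϱ t * exp (σ π t i)`: its first coordinate is
`≠ 1/2` unless `t = 1/2`; for `t = 1/2`, `σ = 1`: `rsq 1 = (1/5 + r₂)² > 1/25`, not on the neck; for `t = 1/2`, `σ = -1`: it is `(1/2, P2 β)`, not in `sq 0 '' XX` by (1) (`rsq 1 = β² < 1/25` so it is not in `sph 1 ∪ neck`).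
(4) `BH`: radii `(1 - u) r + u ϱ t > 0`, `Gc c (0, 1) ∈ sph 1` iff `c = 0` (`|c| < 1/5`), `bh_fill_htpy` (`VK6.lean`).  (5) `BHO` off `sq 0 '' wallS δ'` (`⊆ {p.1 = 1/2, 1/25 - 3 δ' ≤ rsq 1 ≤ 1/25 - δ'}`, `⊆ sq 0 '' XX`: `wallS δ' ⊆ XX` is `Geo.wall_XX`):
`h (u, m) = fill k (pcat ξ (P u)) m`, `P u t = F (Gc (ϱ t * (cos (π t) + i (1 - 2 u) sin (π t))) (0, 1))`: off the wall: if the first coordinate is `1/2` then `t = 1/2`, and the point is `(1/2, (1, 1/5 + (1 - 2 u) r₂))`, `rsq 1 ≥ β² > 1/25 - δ'` (`F` is injective on `O`); `k`, `ξ` as in (3), and in the collar (`t ≤ 2/5`) `ξ t = F (1/2, (73/100, w))`, `rsq 1 ≥ (27/100)²`. -/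
def StPRM : Prop :=
  ∀ F : R4 → R4, EmbOn I4 F SP → ∃ δ₀ > 0, EmbOn I4 F (SP ∪ shell δ₀) ∧ ∃ r₀ > 0,
    ∀ r ∈ Ioo (0 : ℝ) r₀, ∀ τ₁ ∈ Ioo (0 : ℝ) r₀, ∀ (ξ : ℝ → R4) (k : R3 → R4),
      NicePath F τ₁ ξ → ξ 1 = F (Gc r (0, 1)) → ContinuousOn k S2 →
      (∀ m ∈ S2, k m ∉ F '' (sph 1 ∪ neck)) → k (1, 0) = F (Gc (-r) (0, 1)) →
      ∃ (δ' κ β δ₁ : ℝ) (g g' : R3 → R4), 0 < δ₁ ∧ δ' ≤ δ₀ ∧ (∀ δ ∈ Ioo 0 δ₁, Par δ δ' κ β) ∧
        NS F (4 / 5 * τ₁) δ' κ β g ∧ NS F (4 / 5 * τ₁) δ' κ β g' ∧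
        BH F (fill k (pcat ξ (hcirc F r (0, 1) 1))) g ∧
        BH F (fill k (pcat ξ (hcirc F r (0, 1) (-1)))) g' ∧ BHO F (sq 0 '' wallS δ') g g'

/-- MODULE SHD (squares of homotopies off the limit of the wall, for small `ε`).
Proof.  `h` from `BHO`; `H (u, q, s) = h (u, mm q s) + (F (sq ε (s, (73/100, 0))) - bp F)`.  `h '' ([0,1] × S2)` is compact, disjoint from the compact set `F '' (sq 0 '' wallS δ')` (`sq 0 '' wallS δ' ⊆ shell δ' ⊆ shell δ₀`, `F` is continuous on an open `O ⊇ SP ∪ shell δ₀`), at a distance `≥ 2 κ > 0` (`margin`).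
For small `ε`: `F (sq ε p)`, `p ∈ wallS δ'`, is at a distance `< κ` from `F '' (sq 0 '' wallS δ')` (`exists_eps` for the open set `{x ∈ O | dist (F x) (F '' (sq 0 '' wallS δ')) < κ}`), and `‖F (sq ε (s, (73/100, 0))) - bp F‖ ≤ κ/2` for `s ∈ [9/20, 11/20]` (`m_NRB`, as in `exists_margin` of `VK7.lean`).
Boundary: `mm_bd`, `h (u, (1, 0)) = bp F`. -/
def StSHD : Prop :=
  ∀ (F : R4 → R4) (δ₀ δ' : ℝ) (g g' : R3 → R4), EmbOn I4 F (SP ∪ shell δ₀) → δ' ≤ δ₀ →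
    δ' ∈ Ioo (0 : ℝ) (1 / 100) → BHO F (sq 0 '' wallS δ') g g' →
    ∃ ε₀ > 0, ∀ ε ∈ Ioo 0 ε₀, ∃ H : ℝ × ℝ × ℝ → R4,
      ContinuousOn H (Icc (0 : ℝ) 1 ×ˢ (Icc (0 : ℝ) 1 ×ˢ Icc (9 / 20 : ℝ) (11 / 20))) ∧
      (∀ q ∈ Icc (0 : ℝ) 1, ∀ s ∈ Icc (9 / 20 : ℝ) (11 / 20),
        H (0, q, s) = g (mm q s) + (F (sq ε (s, (73 / 100, 0))) - bp F) ∧
        H (1, q, s) = g' (mm q s) + (F (sq ε (s, (73 / 100, 0))) - bp F)) ∧
      ∀ u ∈ Icc (0 : ℝ) 1, ∀ q ∈ Icc (0 : ℝ) 1, ∀ s ∈ Icc (9 / 20 : ℝ) (11 / 20),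
        (∀ p ∈ wallS δ', H (u, q, s) ≠ F (sq ε p)) ∧
        ((q = 0 ∨ q = 1 ∨ s = 9 / 20 ∨ s = 11 / 20) →
          H (u, q, s) = F (sq ε (s, (73 / 100, 0))))

end Pool.Agent.Helper27.S5


end
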