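import Pool.Agent.Helper65.Barb.Defs
import Pool.Agent.Helper70.BI.C.P42
import Pool.Agent.Helper70.BI.C.P64

/-!
# Project BI (MP_8e98f2_gt): collected modules, part 70

The contents of the modules
* Helper52.BI5.M_SQF
* Helper27.BI.S5.CRNa
* Helper27.BI.S5.CRNb
* Helper27.BI.S5.CRNc
* Helper76.BI5.M_IO1

in one file, so that the whole proof builds in a short time.
-/

namespace Pool.Agent.Helper18.BI
end Pool.Agent.Helper18.BI

namespace Pool.Agent.Helper18.BI.H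
end Pool.Agent.Helper18.BI.H

namespace Pool.Agent.Helper18.BI.R
end Pool.Agent.Helper18.BI.R

namespace Pool.Agent.Helper18.BI.S5
end Pool.Agent.Helper18.BI.S5

namespace Pool.Agent.Helper18.BI.S5.GP1
end Pool.Agent.Helper18.BI.S5.GP1

namespace Pool.Agent.Helper27.BI
end Pool.Agent.Helper27.BI

namespace Pool.Agent.Helper27.H
end Pool.Agent.Helper27.H

namespace Pool.Agent.Helper34.BI
end Pool.Agent.Helper34.BI

namespace Pool.Agent.Helper34.S5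
end Pool.Agent.Helper34.S5

namespace Pool.Agent.Helper65.Barb
end Pool.Agent.Helper65.Barb

namespace Pool.Agent.Helper70.BI
end Pool.Agent.Helper70.BI


/-! ## Helper52.BI5.M_SQF -/

section

/-!
# Project BI, stage 5, module SQF (with the order of the quantifiers corrected)
-/

set_option autoImplicit false

open scoped Manifold ContDiff Topology ComplexConjugate
open Set Filter Pool.Agent.Helper65.Barb Pool.Agent.Helper18.BI
open Pool.Agent.Helper70.BI (I4 LD NearEq IsW)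
open Pool.Agent.Helper34.BI (rade qe)
open Pool.Agent.Helper27.BI (e1)
open Pool.Agent.Helper27.H
open Pool.Agent.Helper18.BI.H (mm bar)
open Pool.Agent.Helper18.BI.R (LoopOK SH S2 bp)

namespace Pool.Agent.Helper27.S5

/-- The corrected form of `StSQF`: a bound `δ₀` for `δ'` is fixed before `τ₀`. -/
def StSQF' : Prop :=
  ∀ (F : R4 → R4) (δ₀ : ℝ), EmbOn I4 F (SP ∪ shell δ₀) → ∃ τ₀ > 0, ∀ τ₁ ∈ Ioo 0 τ₀,
    ∀ δ δ' κ β : ℝ, Par δ δ' κ β → δ' ≤ δ₀ → ∀ g : R3 → R4, ContinuousOn g S2 →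
    (∀ m ∈ S2, 9 / 10 ≤ m.1 → g m = F (1 / 2, (73 / 100, ((10 * (1 - m.1) * τ₁ : ℝ) : ℂ)))) →
    (∀ m ∈ S2, m.1 ≤ 9 / 10 → ∀ p ∈ XX δ' κ β, g m ≠ F (sq 0 p)) →
    ∃ ε₀ > 0, ∀ ε ∈ Ioo 0 ε₀, ∃ (f : ℝ → ℝ → R4) (H : ℝ × ℝ × ℝ → R4),
      ContinuousOn (fun z : ℝ × ℝ => f z.1 z.2) (Icc (0 : ℝ) 1 ×ˢ Icc (9 / 20 : ℝ) (11 / 20)) ∧
      (∀ q ∈ Icc (0 : ℝ) 1, ∀ s ∈ Icc (9 / 20 : ℝ) (11 / 20),
        (∀ p ∈ XX δ' κ β, f q s ≠ F (sq ε p)) ∧
        ((q = 0 ∨ q = 1 ∨ s = 9 / 20 ∨ s = 11 / 20) → f q s = F (sq ε (s, (73 / 100, 0)))) ∧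
        H (0, q, s) = f q s ∧
        H (1, q, s) = g (mm q s) + (F (sq ε (s, (73 / 100, 0))) - bp F)) ∧
      ContinuousOn H (Icc (0 : ℝ) 1 ×ˢ (Icc (0 : ℝ) 1 ×ˢ Icc (9 / 20 : ℝ) (11 / 20))) ∧
      ∀ u ∈ Icc (0 : ℝ) 1, ∀ q ∈ Icc (0 : ℝ) 1, ∀ s ∈ Icc (9 / 20 : ℝ) (11 / 20),
        (∀ p ∈ wallS δ ∪ wallS δ', H (u, q, s) ≠ F (sq ε p)) ∧
        ((q = 0 ∨ q = 1 ∨ s = 9 / 20 ∨ s = 11 / 20) →
          H (u, q, s) = F (sq ε (s, (73 / 100, 0))))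

namespace SQF

/-- the cut-off -/
noncomputable def lm (t : ℝ) : ℝ := max 0 (2 * t - 1)

/-- the collar path in the limit -/
noncomputable def Pt (t τ : ℝ) : R4 := (1 / 2, (73 / 100, ((t * τ : ℝ) : ℂ)))

/-- the collar path -/
noncomputable def Yp (τ ε s t : ℝ) : R4 :=
  (1 / 2 + (1 - lm t) * (ε * (s - 1 / 2)),
    ((1 - lm t) * axc ε (73 / 100) + lm t * (73 / 100), ((t * τ : ℝ) : ℂ)))

theorem continuous_lm : Continuous lm := by
  unfold lm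
  fun_prop

theorem continuous_axc (a : ℝ) : Continuous (fun ε => axc ε a) := by
  unfold axc
  fun_prop

theorem continuous_Yp (τ : ℝ) : Continuous (fun x : ℝ × ℝ × ℝ => Yp τ x.1 x.2.1 x.2.2) := by
  have h1 : Continuous (fun x : ℝ × ℝ × ℝ => lm x.2.2) :=
    continuous_lm.comp (continuous_snd.comp continuous_snd)
  have h2 : Continuous (fun x : ℝ × ℝ × ℝ => axc x.1 (73 / 100)) :=
    (continuous_axc _).comp continuous_fst
  unfold Yp
  refine Continuous.prodMk ?_ (Continuous.prodMk ?_ ?_)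
  · fun_prop
  · fun_prop
  · exact Complex.continuous_ofReal.comp (by fun_prop)

theorem Yp_zero (τ s t : ℝ) : Yp τ 0 s t = Pt t τ := by
  unfold Yp Pt
  rw [S4.axc0_mid (by norm_num) (by norm_num)]
  ext1
  · simp
  · ext1
    · show (1 - lm t) * (73 / 100) + lm t * (73 / 100) = (73 / 100 : ℝ)
      ring
    · rfl

theorem lm_low {t : ℝ} (h : t ≤ 1 / 2) : lm t = 0 := max_eq_left (by linarith)

theorem lm_one : lm 1 = 1 := by
  unfold lm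
  norm_num

theorem Yp_one (τ ε s : ℝ) : Yp τ ε s 1 = Pt 1 τ := by
  unfold Yp Pt
  rw [lm_one]
  ext1
  · simp
  · ext1
    · simp
    · rfl

theorem Yp_t0 (τ ε s : ℝ) : Yp τ ε s 0 = sq ε (s, (73 / 100, 0)) := by
  unfold Yp Pool.Agent.Helper18.BI.sq
  rw [lm_low (by norm_num)]
  ext1
  · simp
  · ext1
    · simp
    · simp

theorem Pt_zero (τ : ℝ) : Pt 0 τ = bar (73 / 100) := by
  unfold Pt bar
  simp

theorem axc_inj {ε a b : ℝ} (hε : 0 < ε) (h : axc ε a = axc ε b) : a = b := by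
  obtain ⟨-, d, hd⟩ := hS2.2.1 ε hε
  have hm : StrictMono (axc ε) := by
    apply strictMono_of_deriv_pos
    intro x
    rw [(hd x).1.deriv]
    exact (hd x).2
  exact hm.injective h

theorem fac_pos {ε a k : ℝ} (hε : 0 < ε) (hk : 0 ≤ k) : 0 < fac ε a k :=
  (hS1 ε (prof ε a) k hε (hS2.1 ε a hε) hk).1

theorem chn_of {τ ε s t : ℝ} {p : R4} (hε : 0 < ε) (hτ : 0 ≤ τ) (hs : s ∈ Icc (9 / 20 : ℝ) (11 / 20))
    (ht0 : 0 ≤ t) (ht : t ≤ 1 / 2) (h : Yp τ ε s t = sq ε p) : p ∈ Chn := by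
  unfold Yp Pool.Agent.Helper18.BI.sq at h
  rw [lm_low ht] at h
  have h1 := congrArg (fun x : R4 => x.1) h
  have h2 := congrArg (fun x : R4 => x.2.1) h
  have h3 := congrArg (fun x : R4 => x.2.2) h
  simp only at h1 h2 h3
  have e1 : s = p.1 := by
    rw [sub_zero, one_mul] at h1
    exact sub_left_injective (mul_left_cancel₀ hε.ne' (add_left_cancel h1))
  have e2 : (73 / 100 : ℝ) = p.2.1 := by
    apply axc_inj hε
    rw [← h2, sub_zero, one_mul, zero_mul, add_zero]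
  have hf := fac_pos (a := p.2.1) hε (Complex.normSq_nonneg p.2.2)
  have e3 : p.2.2.im = 0 := by
    have h4 := congrArg Complex.im h3
    rw [Complex.ofReal_im, Complex.im_ofReal_mul] at h4
    rcases mul_eq_zero.1 h4.symm with h5 | h5
    · exact absurd h5 hf.ne'
    · exact h5
  have e4 : 0 ≤ p.2.2.re := by
    have h4 := congrArg Complex.re h3
    rw [Complex.ofReal_re, Complex.re_ofReal_mul] at h4
    by_contra h5
    rw [not_le] at h5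
    have h6 := mul_neg_of_pos_of_neg hf h5
    have h7 : 0 ≤ t * τ := mul_nonneg ht0 hτ
    rw [← h4] at h6
    exact absurd h7 (not_le.2 h6)
  refine ⟨?_, ?_, ?_, ?_, ?_⟩
  · rw [← e1]
    exact lt_of_lt_of_le (by norm_num) hs.1
  · rw [← e1]
    exact lt_of_le_of_lt hs.2 (by norm_num)
  · rw [← e2]
    norm_num
  · rw [e3]
    norm_num
  · exact lt_of_lt_of_le (by norm_num) e4

/-! ## the sets -/

theorem rsq_Pt (t τ : ℝ) : rsq 1 (Pt t τ) = (27 / 100) ^ 2 + (t * τ) ^ 2 := by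
  rw [rsq_eq']
  unfold Pt
  simp only [Complex.ofReal_re, Complex.ofReal_im]
  norm_num

theorem rsq_Pt0 (t τ : ℝ) : rsq 0 (Pt t τ) = (73 / 100) ^ 2 + (t * τ) ^ 2 := by
  rw [rsq_eq']
  unfold Pt
  simp only [Complex.ofReal_re, Complex.ofReal_im]
  norm_num

theorem SQF_aux1 {x : ℝ} (h : (73 / 100) ^ 2 + x ^ 2 ≤ 1 / 25) : False := by
  have h1 := sq_nonneg x
  norm_num at h
  linarith

theorem SQF_aux2 {x : ℝ} (h : (27 / 100) ^ 2 + x ^ 2 ≤ 1 / 25) : False := by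
  have h1 := sq_nonneg x
  norm_num at h
  linarith

theorem Pt_notMem {t τ δ : ℝ} (h : t * τ ≠ 0) : Pt t τ ∉ SP ∪ shell δ := by
  have h1 := rsq_Pt t τ
  have h0 := rsq_Pt0 t τ
  rintro (((h2 | h2) | h2) | h2)
  · have h3 := h2.2
    rw [h0] at h3
    exact SQF_aux1 h3.le
  · have h3 := h2.2
    rw [h1] at h3
    exact SQF_aux2 h3.le
  · have h3 : ((t * τ : ℝ) : ℂ) = 0 := h2.2.2.2
    exact h (by exact_mod_cast h3)
  · have h3 := h2.2.2
    rw [h1] at h3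
    exact SQF_aux2 h3

theorem SQF_aux3 {a b c : ℝ} (h : (a - 1) ^ 2 + b ^ 2 + c ^ 2 ≤ 49 / 100) :
    1 / 25 ≤ (a - 0) ^ 2 + b ^ 2 + c ^ 2 := by
  have hb := sq_nonneg b
  have hc := sq_nonneg c
  have h2 : 3 / 10 ≤ a := by
    have h3 : (1 - a) ^ 2 ≤ (7 / 10) ^ 2 := by
      have e : (1 - a) ^ 2 = (a - 1) ^ 2 := by ring
      rw [e]
      norm_num
      linarith
    have h4 := abs_le_of_sq_le_sq' h3 (by norm_num)
    linarith [h4.2]
  have h5 : (3 / 10 : ℝ) ^ 2 ≤ a ^ 2 := pow_le_pow_left₀ (by norm_num) h2 2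
  rw [sub_zero]
  norm_num at h5
  linarith

theorem sq0_Reg {δ : ℝ} {p : R4} (hp : p ∈ Reg δ) : sq 0 p ∈ SP ∪ shell δ := by
  rcases le_or_gt (1 / 25) (rsq 1 p) with h | h
  · left
    apply hS4.1
    refine ⟨?_, le_trans (by norm_num) h⟩
    have h1 := hp.2.2.2
    rw [rsq_eq'] at h1 ⊢
    refine le_trans ?_ (SQF_aux3 h1)
    norm_num
  · right
    rw [hS4.2.2.1 p (Or.inr (Or.inl h.le))]
    exact ⟨rfl, hp.2.2.1, h.le⟩

theorem SQF_aux4 {a b c : ℝ} (h : (a - 1) ^ 2 + b ^ 2 + c ^ 2 ≤ 49 / 100) :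
    -2 ≤ a ∧ a ≤ 2 ∧ b * b + c * c ≤ 1 := by
  have hb := sq_nonneg b
  have hc := sq_nonneg c
  have ha := sq_nonneg (a - 1)
  have h3 : (a - 1) ^ 2 ≤ 1 ^ 2 := by linarith
  have h4 := abs_le_of_sq_le_sq' h3 (by norm_num)
  refine ⟨by linarith [h4.1], by linarith [h4.2], ?_⟩
  rw [← pow_two, ← pow_two]
  linarith

theorem isCompact_Reg (δ : ℝ) : IsCompact (Reg δ) := by
  have hcl : IsClosed (Reg δ) :=
    (isClosed_le continuous_const continuous_fst).inter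
      ((isClosed_le continuous_fst continuous_const).inter
        ((isClosed_le continuous_const (continuous_rsq 1)).inter
          (isClosed_le (continuous_rsq 1) continuous_const)))
  refine (isCompact_closedBall (0 : R4) 2).of_isClosed_subset hcl ?_
  intro p hp
  have h1 := hp.2.2.2
  rw [rsq_eq'] at h1
  obtain ⟨k1, k2, k3⟩ := SQF_aux4 h1
  rw [mem_closedBall_zero_iff, Prod.norm_def, Prod.norm_def]
  refine max_le ?_ (max_le ?_ ?_)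
  · rw [Real.norm_eq_abs, abs_of_nonneg hp.1]
    exact hp.2.1.trans (by norm_num)
  · rw [Real.norm_eq_abs]
    exact abs_le.2 ⟨k1, k2⟩
  · have h2 : ‖p.2.2‖ ^ 2 ≤ 1 := by
      rw [← Complex.normSq_eq_norm_sq, Complex.normSq_apply]
      exact k3
    exact ((sq_le_one_iff₀ (norm_nonneg _)).1 h2).trans (by norm_num)

theorem isOpen_Chn : IsOpen Chn := by
  have c1 : Continuous (fun p : R4 => p.2.1) := continuous_fst.comp continuous_snd
  have c2 : Continuous (fun p : R4 => p.2.2.im) := by fun_prop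
  have c3 : Continuous (fun p : R4 => p.2.2.re) := by fun_prop
  exact (isOpen_lt continuous_const continuous_fst).inter
    ((isOpen_lt continuous_fst continuous_const).inter
      ((isOpen_lt (continuous_abs.comp (c1.sub continuous_const)) continuous_const).inter
        ((isOpen_lt (continuous_abs.comp c2) continuous_const).inter
          (isOpen_lt continuous_const c3))))

theorem continuous_sgi (κ β : ℝ) : Continuous (sgi κ β) := by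
  unfold sgi
  fun_prop

theorem isCompact_XX (δ κ β : ℝ) : IsCompact (XX δ κ β) := by
  have h : XX δ κ β = Reg δ \ ({p | rsq 1 (sgi κ β p) < 1 / 25 - 3 * δ} ∪ Chn) := by
    ext p
    constructor
    · rintro ⟨h1, h2⟩
      refine ⟨h1, fun h3 => h2 ?_⟩
      rcases h3 with h3 | h3
      · exact Or.inl ⟨h1.1, h1.2.1, h3⟩
      · exact Or.inr h3
    · rintro ⟨h1, h2⟩
      refine ⟨h1, fun h3 => h2 ?_⟩
      rcases h3 with h3 | h3
      · exact Or.inl h3.2.2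
      · exact Or.inr h3
  rw [h]
  refine (isCompact_Reg δ).diff (IsOpen.union ?_ isOpen_Chn)
  exact isOpen_lt ((continuous_rsq 1).comp (continuous_sgi κ β)) continuous_const

theorem sgi_rsq {κ β : ℝ} (hκ : 0 < κ) (p : R4) :
    κ ^ 2 * rsq 1 (sgi κ β p) = (p.2.1 - 1) ^ 2 + (p.2.2.re - β) ^ 2 + p.2.2.im ^ 2 := by
  have hk : κ * κ⁻¹ = 1 := mul_inv_cancel₀ hκ.ne'
  have h1 : (sgi κ β p).2.1 - 1 = κ⁻¹ * (p.2.1 - 1) := by
    unfold sgi P2 e1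
    simp
  have h2 : (sgi κ β p).2.2.re = κ⁻¹ * (p.2.2.re - β) := by
    unfold sgi P2 e1
    simp
  have h3 : (sgi κ β p).2.2.im = κ⁻¹ * p.2.2.im := by
    unfold sgi P2 e1
    simp
  rw [rsq_eq', h1, h2, h3]
  rw [mul_add, mul_add, ← mul_pow, ← mul_pow, ← mul_pow, ← mul_assoc, ← mul_assoc, ← mul_assoc, hk,
    one_mul, one_mul, one_mul]

theorem SQF_aux5 {S D β κ : ℝ} (h0 : D ^ 2 ≤ S) (hS : S ≤ κ ^ 2 * (1 / 25)) (hκ : 0 < κ)
    (hβ : 0 < β) : β * D ≤ (κ * β) * (1 / 5) ∧ -((κ * β) * (1 / 5)) ≤ β * D := by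
  have h4 : D ^ 2 ≤ (κ * (1 / 5)) ^ 2 := by
    have e : (κ * (1 / 5)) ^ 2 = κ ^ 2 * (1 / 25) := by ring
    rw [e]
    exact h0.trans hS
  have h5 := abs_le_of_sq_le_sq' h4 (mul_nonneg hκ.le (by norm_num))
  have h6 := mul_le_mul_of_nonneg_left h5.1 hβ.le
  have h7 := mul_le_mul_of_nonneg_left h5.2 hβ.le
  have e1 : β * (κ * (1 / 5)) = (κ * β) * (1 / 5) := by ring
  have e2 : β * -(κ * (1 / 5)) = -((κ * β) * (1 / 5)) := by ring
  rw [e1] at h7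
  rw [e2] at h6
  exact ⟨h7, h6⟩

theorem SQF_aux6 {R S X δ B K M : ℝ} (hR : R = S + 2 * X + B) (hS : S ≤ K * (1 / 25))
    (hX : X ≤ M * (1 / 5)) (hM : 0 < M) (hK : 0 ≤ K) (hi : B + 2 * M + K < 1 / 25 - 3 * δ)
    (h : 1 / 25 - 3 * δ ≤ R) : False := by
  linarith

theorem SQF_aux7 {R S X δ B K M : ℝ} (hR : R = S + 2 * X + B) (hS : 0 ≤ S)
    (hX : -(M * (1 / 5)) ≤ X) (hM : 0 < M) (hK : K ≤ M) (lo : 1 / 25 - δ < B - 2 * M + K)
    (h : R ≤ 1 / 25 - δ) : False := by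
  linarith

theorem SQF_aux8 {δ κ β a b c : ℝ} (k0 : 0 < κ) (k1 : κ < β)
    (h3 : (a - 1) ^ 2 + (b - β) ^ 2 + c ^ 2 ≤ κ ^ 2 * (1 / 25)) :
    ((β + κ) ^ 2 < 1 / 25 - 3 * δ → 1 / 25 - 3 * δ ≤ (a - 1) ^ 2 + b ^ 2 + c ^ 2 → False) ∧
      (1 / 25 - δ < (β - κ) ^ 2 → (a - 1) ^ 2 + b ^ 2 + c ^ 2 ≤ 1 / 25 - δ → False) := by
  have hβ : 0 < β := k0.trans k1
  have hM : 0 < κ * β := mul_pos k0 hβ
  have hR : (a - 1) ^ 2 + b ^ 2 + c ^ 2 = ((a - 1) ^ 2 + (b - β) ^ 2 + c ^ 2) +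
      2 * (β * (b - β)) + β ^ 2 := by ring
  have hA := sq_nonneg (a - 1)
  have hC := sq_nonneg c
  have hB := sq_nonneg (b - β)
  generalize hS' : (a - 1) ^ 2 + (b - β) ^ 2 + c ^ 2 = S at h3 hR
  have h0 : (b - β) ^ 2 ≤ S := by
    rw [← hS']
    exact (le_add_of_nonneg_left hA).trans (le_add_of_nonneg_right hC)
  obtain ⟨x1, x2⟩ := SQF_aux5 h0 h3 k0 hβ
  constructor
  · intro hi h
    have e : (β + κ) ^ 2 = β ^ 2 + 2 * (κ * β) + κ ^ 2 := by ring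
    rw [e] at hi
    exact SQF_aux6 hR h3 x1 hM (sq_nonneg κ) hi h
  · intro lo h
    have e : (β - κ) ^ 2 = β ^ 2 - 2 * (κ * β) + κ ^ 2 := by ring
    rw [e] at lo
    have hK : κ ^ 2 ≤ κ * β := by
      rw [pow_two]
      exact mul_le_mul_of_nonneg_left k1.le k0.le
    exact SQF_aux7 hR (hB.trans h0) x2 hM hK lo h

theorem SQF_aux10 {x : ℝ} (h0 : 19 / 20 < x) (h : x ≤ 1) :
    9 / 10 ≤ x ∧ 0 ≤ 10 * (1 - x) ∧ 10 * (1 - x) ≤ 1 / 2 :=
  ⟨by linarith, by linarith, by linarith⟩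

theorem SQF_aux11 {x : ℝ} (h0 : 9 / 10 < x) (h : x ≤ 19 / 20) :
    0 < 10 * (1 - x) ∧ 10 * (1 - x) ≤ 1 :=
  ⟨by linarith, by linarith⟩

theorem SQF_aux12 {δ δ' : ℝ} (d0 : 0 < δ) (d1 : 3 * δ < δ') (d2 : δ' < 1 / 100) :
    0 < δ' ∧ δ < 1 / 100 :=
  ⟨by linarith, by linarith⟩

theorem SQF_aux13 {x y u η : ℝ} (hu : 0 ≤ u) (hu1 : u ≤ 1) (hx : x < η) (hy : y < η) :
    (1 - u) * x + u * y < η := by
  rcases hu.eq_or_lt with h0 | h0
  · rw [← h0, sub_zero, one_mul, zero_mul, add_zero]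
    exact hx
  · have b1 : (1 - u) * x ≤ (1 - u) * η := mul_le_mul_of_nonneg_left hx.le (sub_nonneg.2 hu1)
    have b2 : u * y < u * η := mul_lt_mul_of_pos_left hy h0
    have e : (1 - u) * η + u * η = η := by ring
    exact (add_lt_add_of_le_of_lt b1 b2).trans_eq e

theorem SQF_aux14 {V : Type*} [AddCommGroup V] [Module ℝ V] (u : ℝ) (a b : V) :
    a + ((1 - u) • (b - a) + u • (b - a)) = b := by
  rw [← add_smul, sub_add_cancel, one_smul, add_sub_cancel]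

theorem SQF_aux15 {a b c η : ℝ} (h1 : a < η) (h2 : b < η) (h3 : c ≤ a + b) (h4 : 2 * η ≤ c) :
    False := by
  linarith

theorem SQF_aux9 {a b c : ℝ} (h : |a - 73 / 100| < 1 / 50)
    (h1 : (a - 1) ^ 2 + b ^ 2 + c ^ 2 ≤ 1 / 25) : False := by
  have hb := sq_nonneg b
  have hc := sq_nonneg c
  have h3 : (1 - a) ^ 2 ≤ (1 / 5) ^ 2 := by
    have e : (1 - a) ^ 2 = (a - 1) ^ 2 := by ring
    rw [e]
    norm_num
    linarith
  have h4 := (abs_le_of_sq_le_sq' h3 (by norm_num)).2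
  have h5 := (abs_lt.1 h).2
  linarith

theorem wall_sub_XX {δ δ' κ β : ℝ} (hP : Par δ δ' κ β) {p : R4}
    (hp : p ∈ wallS δ ∪ wallS δ') : p ∈ XX δ' κ β := by
  obtain ⟨d0, d1, d2, k0, k1, lo, hi⟩ := hP
  have h01 : 0 ≤ p.1 ∧ p.1 ≤ 1 := by
    rcases hp with hp | hp
    · exact ⟨hp.1, hp.2.1⟩
    · exact ⟨hp.1, hp.2.1⟩
  have dd : δ < δ' := by
    clear lo hi hp h01 k0 k1
    linarith
  have hlo : 1 / 25 - 3 * δ' ≤ rsq 1 p := by
    rcases hp with hp | hp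
    · refine le_trans ?_ hp.2.2.1
      exact sub_le_sub_left (mul_le_mul_of_nonneg_left dd.le (by norm_num)) _
    · exact hp.2.2.1
  have hhi : rsq 1 p ≤ 1 / 25 := by
    rcases hp with hp | hp
    · exact hp.2.2.2.trans (sub_le_self _ d0.le)
    · exact hp.2.2.2.trans (sub_le_self _ (d0.trans dd).le)
  refine ⟨⟨h01.1, h01.2, hlo, hhi.trans (by norm_num)⟩, ?_⟩
  rintro (h | h)
  · have h3 : (p.2.1 - 1) ^ 2 + (p.2.2.re - β) ^ 2 + p.2.2.im ^ 2 ≤ κ ^ 2 * (1 / 25) := by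
      rw [← sgi_rsq (β := β) k0 p]
      refine mul_le_mul_of_nonneg_left ?_ (sq_nonneg κ)
      have d3 : 0 ≤ 3 * δ' := mul_nonneg (by norm_num) (d0.trans dd).le
      exact h.2.2.le.trans (sub_le_self _ d3)
    rcases hp with hp | hp
    · exact (SQF_aux8 (δ := δ) k0 k1 h3).1 hi hp.2.2.1
    · exact (SQF_aux8 (δ := δ') k0 k1 h3).2 lo hp.2.2.2
  · exact SQF_aux9 h.2.2.1 hhi

theorem shell_mono {δ δ' : ℝ} (h : δ' ≤ δ) : shell δ' ⊆ shell δ :=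
  fun _ hp => ⟨hp.1, by linarith [hp.2.1], hp.2.2⟩

theorem bar_mem : bar (73 / 100) ∈ SP := by
  right
  exact ⟨rfl, by unfold bar; norm_num, by unfold bar; norm_num, rfl⟩

theorem fst_le_one {m : R3} (hm : m ∈ S2) : m.1 ≤ 1 := by
  have h : m.1 ^ 2 + m.2.re ^ 2 + m.2.im ^ 2 = 1 := hm
  nlinarith [sq_nonneg m.2.re, sq_nonneg m.2.im, sq_nonneg (m.1 - 1)]

/-! ## small values of the parameter -/

theorem ev_Yp {F : R4 → R4} {O : Set R4} {τ η : ℝ} (hO : IsOpen O) (hF : ContinuousOn F O)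
    (hP : ∀ t ∈ Icc (0 : ℝ) 1, Pt t τ ∈ O) (hη : 0 < η) :
    ∃ ε₀ > 0, ∀ ε ∈ Ioo (0 : ℝ) ε₀, ∀ s ∈ Icc (9 / 20 : ℝ) (11 / 20), ∀ t ∈ Icc (0 : ℝ) 1,
      Yp τ ε s t ∈ O ∧ dist (F (Yp τ ε s t)) (F (Pt t τ)) < η := by
  have hT : IsCompact (Icc (9 / 20 : ℝ) (11 / 20) ×ˢ Icc (0 : ℝ) 1) :=
    isCompact_Icc.prod isCompact_Icc
  have key : ∀ᶠ ε in 𝓝 (0 : ℝ), ∀ z ∈ Icc (9 / 20 : ℝ) (11 / 20) ×ˢ Icc (0 : ℝ) 1,
      Yp τ ε z.1 z.2 ∈ O ∧ dist (F (Yp τ ε z.1 z.2)) (F (Yp τ 0 z.1 z.2)) < η := by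
    refine hT.eventually_forall_of_forall_eventually fun z hz => ?_
    have hz0 : Yp τ 0 z.1 z.2 ∈ O := by
      rw [Yp_zero]
      exact hP _ hz.2
    have c1 : Tendsto (fun x : ℝ × ℝ × ℝ => Yp τ x.1 x.2.1 x.2.2) (𝓝 (0, z)) (𝓝 (Yp τ 0 z.1 z.2)) :=
      (continuous_Yp τ).tendsto (0, z)
    have c0 : Tendsto (fun x : ℝ × ℝ × ℝ => Yp τ 0 x.2.1 x.2.2) (𝓝 (0, z)) (𝓝 (Yp τ 0 z.1 z.2)) := by
      have h := (continuous_Yp τ).comp
        (f := fun x : ℝ × ℝ × ℝ => ((0 : ℝ), x.2)) (by fun_prop)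
      exact h.tendsto (0, z)
    have hFa : ContinuousAt F (Yp τ 0 z.1 z.2) := hF.continuousAt (hO.mem_nhds hz0)
    have d1 := hFa.tendsto.comp c1
    have d0 := hFa.tendsto.comp c0
    have h2 : Tendsto (fun x : ℝ × ℝ × ℝ =>
        dist (F (Yp τ x.1 x.2.1 x.2.2)) (F (Yp τ 0 x.2.1 x.2.2))) (𝓝 (0, z)) (𝓝 0) := by
      have := d1.dist d0
      rwa [dist_self] at this
    filter_upwards [c1.eventually (hO.mem_nhds hz0), h2.eventually (gt_mem_nhds hη)] with x hx hx'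
    exact ⟨hx, hx'⟩
  obtain ⟨ε₀, h0, h1⟩ := Metric.eventually_nhds_iff.1 key
  refine ⟨ε₀, h0, fun ε hε s hs t ht => ?_⟩
  have h2 := h1 (y := ε) (by rw [Real.dist_eq, sub_zero, abs_of_pos hε.1]; exact hε.2) (s, t) ⟨hs, ht⟩
  rw [Yp_zero] at h2
  exact h2

theorem ev_sq {F : R4 → R4} {O K : Set R4} {η : ℝ} (hO : IsOpen O) (hF : ContinuousOn F O)
    (hK : IsCompact K) (hP : ∀ p ∈ K, sq 0 p ∈ O) (hη : 0 < η) :
    ∃ ε₀ > 0, ∀ ε ∈ Ioo (0 : ℝ) ε₀, ∀ p ∈ K, sq ε p ∈ O ∧ dist (F (sq ε p)) (F (sq 0 p)) < η := by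
  have key : ∀ᶠ ε in 𝓝 (0 : ℝ), ∀ p ∈ K, 0 ≤ ε → sq ε p ∈ O ∧ dist (F (sq ε p)) (F (sq 0 p)) < η := by
    refine hK.eventually_forall_of_forall_eventually fun p hp => ?_
    have hmem : ((0 : ℝ), p) ∈ Ici (0 : ℝ) ×ˢ (univ : Set R4) := ⟨self_mem_Ici, mem_univ _⟩
    have c1 : Tendsto (fun x : ℝ × R4 => sq x.1 x.2) (𝓝[Ici (0 : ℝ) ×ˢ univ] ((0 : ℝ), p))
        (𝓝 (sq 0 p)) := hS3 (0, p) hmem
    have c0 : Tendsto (fun x : ℝ × R4 => sq 0 x.2) (𝓝[Ici (0 : ℝ) ×ˢ univ] ((0 : ℝ), p))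
        (𝓝 (sq 0 p)) := by
      have h : ContinuousOn ((fun q : ℝ × R4 => sq q.1 q.2) ∘ fun x : ℝ × R4 => ((0 : ℝ), x.2))
          (Ici (0 : ℝ) ×ˢ univ) :=
        hS3.comp (by fun_prop) (fun x _ => ⟨self_mem_Ici, mem_univ _⟩)
      exact h (0, p) hmem
    have hFa : ContinuousAt F (sq 0 p) := hF.continuousAt (hO.mem_nhds (hP p hp))
    have d1 := hFa.tendsto.comp c1
    have d0 := hFa.tendsto.comp c0
    have h2 : Tendsto (fun x : ℝ × R4 => dist (F (sq x.1 x.2)) (F (sq 0 x.2)))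
        (𝓝[Ici (0 : ℝ) ×ˢ univ] ((0 : ℝ), p)) (𝓝 0) := by
      have := d1.dist d0
      rwa [dist_self] at this
    have h3 := (c1.eventually (hO.mem_nhds (hP p hp))).and (h2.eventually (gt_mem_nhds hη))
    rw [eventually_nhdsWithin_iff] at h3
    filter_upwards [h3] with x hx h0
    exact hx ⟨h0, mem_univ _⟩
  obtain ⟨ε₀, h0, h1⟩ := Metric.eventually_nhds_iff.1 key
  refine ⟨ε₀, h0, fun ε hε p hp => ?_⟩
  exact h1 (y := ε) (by rw [Real.dist_eq, sub_zero, abs_of_pos hε.1]; exact hε.2) p hp hε.1.le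

/-- the collar coordinate -/
noncomputable def tt (q s : ℝ) : ℝ := min 1 (10 * (1 - (mm q s).1))

theorem tt_mem (q s : ℝ) : tt q s ∈ Icc (0 : ℝ) 1 := by
  have h := fst_le_one (R.EVM.mm_S2' q s)
  exact ⟨le_min zero_le_one (by linarith), min_le_left _ _⟩

theorem continuous_mm' : Continuous (fun z : ℝ × ℝ => mm z.1 z.2) := R.EVM.contDiff_mm.continuous

theorem continuous_tt : Continuous (fun z : ℝ × ℝ => tt z.1 z.2) := by
  unfold tt
  exact continuous_const.min (continuous_const.mul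
    (continuous_const.sub (continuous_fst.comp continuous_mm')))

theorem mm_edge_all {q s : ℝ} (h : q = 0 ∨ q = 1 ∨ s = 9 / 20 ∨ s = 11 / 20) : mm q s = (1, 0) := by
  rcases h with h | h | h | h
  · exact R.EVM.mm_ends' q s (Or.inl h)
  · exact R.EVM.mm_ends' q s (Or.inr h)
  · exact R.EVM.mm_edge' q s (Or.inl h.le)
  · exact R.EVM.mm_edge' q s (Or.inr h.ge)

/-- the main square -/
noncomputable def ff (F : R4 → R4) (g : R3 → R4) (τ ε q s : ℝ) : R4 :=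
  g (mm q s) + (F (Yp τ ε s (tt q s)) - F (Pt (tt q s) τ))

/-- the homotopy -/
noncomputable def HH (F : R4 → R4) (g : R3 → R4) (τ ε : ℝ) (x : ℝ × ℝ × ℝ) : R4 :=
  g (mm x.2.1 x.2.2) +
    ((1 - x.1) • (F (Yp τ ε x.2.2 (tt x.2.1 x.2.2)) - F (Pt (tt x.2.1 x.2.2) τ)) +
      x.1 • (F (Yp τ ε x.2.2 0) - F (Pt 0 τ)))

end SQF

open SQF in
/-- MODULE SQF. -/
theorem m_SQF : StSQF' := by
  intro F δ₀ hF
  obtain ⟨O, hO, hLO, hFO, hFc⟩ :=
    emb_open (hS4.2.2.2.2.2.2.2.2.1.union (isCompact_shell δ₀)) hF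
  have hbO : Pt 1 0 ∈ O := by
    have h : Pt 1 0 = bar (73 / 100) := by
      unfold Pt bar
      simp
    rw [h]
    exact hLO (Or.inl bar_mem)
  have hcP : Continuous (fun w : ℝ => Pt 1 w) := by
    unfold Pt
    refine continuous_const.prodMk (continuous_const.prodMk ?_)
    exact Complex.continuous_ofReal.comp (by fun_prop)
  obtain ⟨τ₀, hτ0, hτ⟩ := Metric.isOpen_iff.1 (hO.preimage hcP) 0 hbO
  refine ⟨τ₀, hτ0, ?_⟩
  intro τ₁ hτ₁ δ δ' κ β hP hδ g hg hg1 hg2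
  have hPO : ∀ t ∈ Icc (0 : ℝ) 1, Pt t τ₁ ∈ O := by
    intro t ht
    have h1 : Pt t τ₁ = Pt 1 (t * τ₁) := by
      unfold Pt
      rw [one_mul]
    rw [h1]
    apply hτ
    rw [Metric.mem_ball, Real.dist_eq, sub_zero, abs_of_nonneg (mul_nonneg ht.1 hτ₁.1.le)]
    exact (mul_le_of_le_one_left hτ₁.1.le ht.2).trans_lt hτ₁.2
  have hRO : ∀ p ∈ Reg δ', sq 0 p ∈ O := fun p hp =>
    hLO ((sq0_Reg hp).imp id (fun h => shell_mono hδ h))
  have hsqc : ContinuousOn (fun p : R4 => F (sq 0 p)) (Reg δ') := by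
    have h : Continuous (fun p : R4 => sq 0 p) := by
      have h2 : ContinuousOn ((fun q : ℝ × R4 => sq q.1 q.2) ∘ fun p : R4 => ((0 : ℝ), p)) univ :=
        hS3.comp (by fun_prop) (fun x _ => ⟨self_mem_Ici, mem_univ _⟩)
      exact continuousOn_univ.1 h2
    exact hFc.comp h.continuousOn hRO
  have hWX : ∀ p ∈ wallS δ ∪ wallS δ', p ∈ XX δ' κ β := fun p hp => wall_sub_XX hP hp
  have hδ'm : δ' ∈ Ioo (0 : ℝ) (1 / 100) := ⟨(SQF_aux12 hP.d0 hP.d1 hP.d2).1, hP.d2⟩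
  have hδm : δ ∈ Ioo (0 : ℝ) (1 / 100) := ⟨hP.d0, (SQF_aux12 hP.d0 hP.d1 hP.d2).2⟩
  have hgP : ∀ m ∈ S2, 9 / 10 ≤ m.1 → g m = F (Pt (10 * (1 - m.1)) τ₁) := hg1
  -- the limit is off the limit of the region
  have hoff : ∀ m ∈ S2, m.1 ≤ 19 / 20 → ∀ p ∈ XX δ' κ β, g m ≠ F (sq 0 p) := by
    intro m hm hm1 p hp he
    rcases le_or_gt m.1 (9 / 10) with h | h
    · exact hg2 m hm h p hp he
    · rw [hgP m hm h.le] at he
      have hx := SQF_aux11 h hm1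
      have h3 := hFO.2 (hPO _ ⟨hx.1.le, hx.2⟩) (hRO p hp.1) he
      have h4 : (10 * (1 - m.1)) * τ₁ ≠ 0 := mul_ne_zero hx.1.ne' hτ₁.1.ne'
      exact Pt_notMem (δ := δ') h4 (h3 ▸ sq0_Reg hp.1)
  have hoffW : ∀ m ∈ S2, ∀ p ∈ wallS δ ∪ wallS δ', g m ≠ F (sq 0 p) := by
    intro m hm p hp he
    rcases le_or_gt m.1 (19 / 20) with h | h
    · exact hoff m hm h p (hWX p hp) he
    · have hx := SQF_aux10 h (fst_le_one hm)
      rw [hgP m hm hx.1] at he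
      have h3 := hFO.2 (hPO _ ⟨hx.2.1, hx.2.2.trans one_half_lt_one.le⟩) (hRO p (hWX p hp).1) he
      have h5 : rsq 1 p ≤ 1 / 25 := by
        rcases hp with hp | hp
        · exact hp.2.2.2.trans (sub_le_self _ hP.d0.le)
        · exact hp.2.2.2.trans (sub_le_self _ hδ'm.1.le)
      rw [hS4.2.2.1 p (Or.inr (Or.inl h5))] at h3
      have h6 : rsq 1 (Pt (10 * (1 - m.1)) τ₁) = rsq 1 p := by
        rw [h3]
        rfl
      rw [rsq_Pt] at h6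
      exact SQF_aux2 (h6.trans_le h5)
  have hC1 : IsCompact {m : R3 | m ∈ S2 ∧ m.1 ≤ 19 / 20} :=
    R.isCompact_S2.inter_right (isClosed_le continuous_fst continuous_const)
  have hA1 : IsCompact ((fun p : R4 => F (sq 0 p)) '' XX δ' κ β) :=
    (isCompact_XX δ' κ β).image_of_continuousOn (hsqc.mono fun p hp => hp.1)
  have hA2 : IsCompact ((fun p : R4 => F (sq 0 p)) '' (wallS δ ∪ wallS δ')) :=
    ((isCompact_wall hδm).union (isCompact_wall hδ'm)).image_of_continuousOn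
      (hsqc.mono fun p hp => (hWX p hp).1)
  have M1 := R.margin hC1 (hg.mono fun m hm => hm.1) hA1 (by
    rintro m hm ⟨p, hp, he⟩
    exact hoff m hm.1 hm.2 p hp he.symm)
  have M2 := R.margin R.isCompact_S2 hg hA2 (by
    rintro m hm ⟨p, hp, he⟩
    exact hoffW m hm p hp he.symm)
  obtain ⟨η, ⟨m1, m2⟩, hη⟩ := ((M1.and M2).and self_mem_nhdsWithin).exists
  have hη' : 0 < η := hη
  obtain ⟨ε₁, he1, E1⟩ := ev_Yp hO hFc hPO hη'
  obtain ⟨ε₂, he2, E2⟩ := ev_sq hO hFc (isCompact_Reg δ') hRO hη'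
  refine ⟨min ε₁ ε₂, lt_min he1 he2, ?_⟩
  intro ε hε
  have hε0 : 0 < ε := hε.1
  have E1' := E1 ε ⟨hε0, hε.2.trans_le (min_le_left _ _)⟩
  have E2' := E2 ε ⟨hε0, hε.2.trans_le (min_le_right _ _)⟩
  have hbd : ∀ q s : ℝ, (q = 0 ∨ q = 1 ∨ s = 9 / 20 ∨ s = 11 / 20) →
      g (mm q s) = F (Pt 0 τ₁) ∧ tt q s = 0 := by
    intro q s h
    have hm := mm_edge_all h
    constructor
    · rw [hm, hgP (1, 0) (by show nsq _ = 1; unfold nsq; simp) (by norm_num)]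
      congr 2
      norm_num
    · unfold tt
      rw [hm]
      norm_num
  have hgc : ContinuousOn (fun z : ℝ × ℝ => g (mm z.1 z.2)) univ :=
    hg.comp continuous_mm'.continuousOn fun z _ => R.EVM.mm_S2' z.1 z.2
  have hYc : ContinuousOn (fun z : ℝ × ℝ => F (Yp τ₁ ε z.2 (tt z.1 z.2)))
      (Icc (0 : ℝ) 1 ×ˢ Icc (9 / 20 : ℝ) (11 / 20)) := by
    have hc1 : Continuous (fun z : ℝ × ℝ => Yp τ₁ ε z.2 (tt z.1 z.2)) :=
      Continuous.comp (g := fun x : ℝ × ℝ × ℝ => Yp τ₁ x.1 x.2.1 x.2.2)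
        (f := fun z : ℝ × ℝ => (ε, z.2, tt z.1 z.2)) (continuous_Yp τ₁)
        (continuous_const.prodMk (continuous_snd.prodMk continuous_tt))
    exact hFc.comp hc1.continuousOn fun z hz => (E1' z.2 hz.2 _ (tt_mem z.1 z.2)).1
  have hY0c : ContinuousOn (fun z : ℝ × ℝ => F (Yp τ₁ ε z.2 0))
      (Icc (0 : ℝ) 1 ×ˢ Icc (9 / 20 : ℝ) (11 / 20)) := by
    have hc1 : Continuous (fun z : ℝ × ℝ => Yp τ₁ ε z.2 0) :=
      Continuous.comp (g := fun x : ℝ × ℝ × ℝ => Yp τ₁ x.1 x.2.1 x.2.2)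
        (f := fun z : ℝ × ℝ => (ε, z.2, 0)) (continuous_Yp τ₁)
        (continuous_const.prodMk (continuous_snd.prodMk continuous_const))
    exact hFc.comp hc1.continuousOn fun z hz => (E1' z.2 hz.2 0 (left_mem_Icc.2 zero_le_one)).1
  have hPc : ContinuousOn (fun z : ℝ × ℝ => F (Pt (tt z.1 z.2) τ₁)) univ := by
    refine hFc.comp (Continuous.continuousOn ?_) fun z _ => hPO _ (tt_mem z.1 z.2)
    unfold Pt
    refine continuous_const.prodMk (continuous_const.prodMk ?_)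
    exact Complex.continuous_ofReal.comp (continuous_tt.mul continuous_const)
  -- the distance of the homotopy to the sphere
  have hnear : ∀ u ∈ Icc (0 : ℝ) 1, ∀ q : ℝ, ∀ s ∈ Icc (9 / 20 : ℝ) (11 / 20),
      dist (HH F g τ₁ ε (u, q, s)) (g (mm q s)) < η := by
    intro u hu q s hs
    have a1 := (E1' s hs _ (tt_mem q s)).2
    have a2 := (E1' s hs 0 (left_mem_Icc.2 zero_le_one)).2
    rw [dist_eq_norm] at a1 a2 ⊢
    have e : HH F g τ₁ ε (u, q, s) - g (mm q s) =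
        (1 - u) • (F (Yp τ₁ ε s (tt q s)) - F (Pt (tt q s) τ₁)) +
          u • (F (Yp τ₁ ε s 0) - F (Pt 0 τ₁)) := by
      show g (mm q s) + _ - g (mm q s) = _
      exact add_sub_cancel_left _ _
    rw [e]
    refine (norm_add_le _ _).trans_lt ?_
    rw [norm_smul, norm_smul, Real.norm_eq_abs, Real.norm_eq_abs, abs_of_nonneg hu.1,
      abs_of_nonneg (sub_nonneg.2 hu.2)]
    exact SQF_aux13 hu.1 hu.2 a1 a2
  have hf0 : ∀ q s : ℝ, HH F g τ₁ ε (0, q, s) = ff F g τ₁ ε q s := by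
    intro q s
    show g (mm q s) + ((1 - (0 : ℝ)) • _ + (0 : ℝ) • _) = _
    rw [sub_zero, one_smul, zero_smul, add_zero]
    rfl
  refine ⟨ff F g τ₁ ε, HH F g τ₁ ε, ?_, ?_, ?_, ?_⟩
  · exact (hgc.mono (subset_univ _)).add (hYc.sub (hPc.mono (subset_univ _)))
  · intro q hq s hs
    refine ⟨?_, ?_, hf0 q s, ?_⟩
    · intro p hp he
      rcases le_or_gt (mm q s).1 (19 / 20) with h | h
      · have c1 := hnear 0 (left_mem_Icc.2 zero_le_one) q s hs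
        rw [hf0 q s, he] at c1
        have c2 := (E2' p hp.1).2
        have c3 := m1 (mm q s) ⟨R.EVM.mm_S2' q s, h⟩ _ ⟨p, hp, rfl⟩
        have c4 := dist_triangle (g (mm q s)) (F (sq ε p)) (F (sq 0 p))
        rw [dist_comm] at c1
        exact SQF_aux15 c1 c2 c4 c3
      · have hx := SQF_aux10 h (fst_le_one (R.EVM.mm_S2' q s))
        have ht : tt q s = 10 * (1 - (mm q s).1) :=
          min_eq_right (hx.2.2.trans one_half_lt_one.le)
        have e : ff F g τ₁ ε q s = F (Yp τ₁ ε s (tt q s)) := by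
          unfold SQF.ff
          rw [hgP _ (R.EVM.mm_S2' q s) hx.1, ← ht]
          exact add_sub_cancel _ _
        rw [e] at he
        have h3 := hFO.2 (E1' s hs _ (tt_mem q s)).1 (E2' p hp.1).1 he
        exact hp.2 (Or.inr (chn_of hε0 hτ₁.1.le hs (tt_mem q s).1 (ht.le.trans hx.2.2) h3))
    · intro h
      obtain ⟨h1, h2⟩ := hbd q s h
      show g (mm q s) + (F (Yp τ₁ ε s (tt q s)) - F (Pt (tt q s) τ₁)) = _
      rw [h1, h2, ← Yp_t0 τ₁]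
      exact add_sub_cancel _ _
    · show g (mm q s) + ((1 - (1 : ℝ)) • _ + (1 : ℝ) • (F (Yp τ₁ ε s 0) - F (Pt 0 τ₁))) = _
      rw [sub_self, zero_smul, zero_add, one_smul, Yp_t0, Pt_zero]
      rfl
  · have p2 : Continuous (fun x : ℝ × ℝ × ℝ => x.2) := continuous_snd
    have hmaps : MapsTo (fun x : ℝ × ℝ × ℝ => x.2)
        (Icc (0 : ℝ) 1 ×ˢ (Icc (0 : ℝ) 1 ×ˢ Icc (9 / 20 : ℝ) (11 / 20)))
        (Icc (0 : ℝ) 1 ×ˢ Icc (9 / 20 : ℝ) (11 / 20)) := fun x hx => hx.2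
    have k1 := (hgc.mono (subset_univ _)).comp p2.continuousOn hmaps
    have k2 := hYc.comp p2.continuousOn hmaps
    have k3 := hY0c.comp p2.continuousOn hmaps
    have k4 := (hPc.mono (subset_univ _)).comp p2.continuousOn hmaps
    have k5 : ContinuousOn (fun x : ℝ × ℝ × ℝ => (1 - x.1))
        (Icc (0 : ℝ) 1 ×ˢ (Icc (0 : ℝ) 1 ×ˢ Icc (9 / 20 : ℝ) (11 / 20))) :=
      (continuous_const.sub continuous_fst).continuousOn
    have k6 : ContinuousOn (fun x : ℝ × ℝ × ℝ => x.1)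
        (Icc (0 : ℝ) 1 ×ˢ (Icc (0 : ℝ) 1 ×ˢ Icc (9 / 20 : ℝ) (11 / 20))) :=
      continuous_fst.continuousOn
    exact k1.add ((k5.smul (k2.sub k4)).add (k6.smul (k3.sub continuousOn_const)))
  · intro u hu q hq s hs
    constructor
    · intro p hp he
      have c1 := hnear u hu q s hs
      rw [he, dist_comm] at c1
      have c2 := (E2' p (hWX p hp).1).2
      have c3 := m2 (mm q s) (R.EVM.mm_S2' q s) _ ⟨p, hp, rfl⟩
      have c4 := dist_triangle (g (mm q s)) (F (sq ε p)) (F (sq 0 p))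
      exact SQF_aux15 c1 c2 c4 c3
    · intro h
      obtain ⟨h1, h2⟩ := hbd q s h
      show g (mm q s) + ((1 - u) • (F (Yp τ₁ ε s (tt q s)) - F (Pt (tt q s) τ₁)) +
        u • (F (Yp τ₁ ε s 0) - F (Pt 0 τ₁))) = _
      rw [h1, h2, ← Yp_t0 τ₁]
      exact SQF_aux14 u _ _

end Pool.Agent.Helper27.S5


end

/-! ## Helper27.BI.S5.CRNa -/

section

/-!
# Project BI, stage 5: the channel datum
-/

set_option autoImplicit false
set_option linter.unusedSectionVars false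

open scoped Manifold ContDiff Topology ComplexConjugate
open Set Filter Pool.Agent.Helper65.Barb Pool.Agent.Helper18.BI
open Pool.Agent.Helper70.BI (I4 LD NearEq IsW ld_iff)
open Pool.Agent.Helper27.BI (e1)
open Pool.Agent.Helper27.H
open Pool.Agent.Helper18.BI.R (LoopOK SH)
open Pool.Agent.Helper18.BI.S5.GP1 (base_ne_zero base_injOn deriv_eq_of_eqOn)

namespace Pool.Agent.Helper27.S5

namespace CRN

/-- the finger is in the channel in the middle levels -/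
theorem z0_Chn {s : ℝ} (h : s ∈ Ioo (11 / 25 : ℝ) (14 / 25)) : (s, z0 s) ∈ Chn := by
  have e : z0 s = ((73 / 100 : ℝ), (0 : ℂ)) := by
    rw [Geo.z0_def, bfin_mid ⟨by linarith [h.1], by linarith [h.2]⟩]
    norm_num
  rw [e]
  refine ⟨h.1, h.2, ?_, ?_, ?_⟩
  · show |(73 / 100 : ℝ) - 73 / 100| < 1 / 50
    norm_num
  · show |(0 : ℂ).im| < 1 / 50
    norm_num
  · show -(1 / 50) < (0 : ℂ).re
    norm_num

section hat
variable {G T' : R4 → R4} {δ δ' δ₁ κ β : ℝ} {D : ArcD} (hp : Par δ₁ δ' κ β)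
  (hG : EmbOn I4 G (K3 δ')) (hδ : δ ≤ δ') (hD : HatOk δ T' G D)
include hp hδ hD

theorem z0_Reg {s : ℝ} (hs : s ∈ Icc D.s₀ D.s₁) : (s, z0 s) ∈ Reg δ' := by
  have b1 := XF.bge hD hs
  have b2 := bfin_le s
  have b3 := bfin_nonneg s
  have d0 := (Geo.hδ' hp).1
  refine ⟨by linarith [hD.s₀.1, hs.1], by linarith [hD.s₁.2, hs.2], ?_, ?_⟩
  · rw [rsq1_z0]; linarith
  · rw [rsq1_z0]; nlinarith

theorem z0_XX {s : ℝ} (hs : s ∈ Icc D.s₀ D.s₁) (hs' : s ≤ 11 / 25 ∨ 14 / 25 ≤ s) :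
    (s, z0 s) ∈ XX δ' κ β := by
  refine ⟨z0_Reg hp hδ hD hs, ?_⟩
  rintro (h | h)
  · have h1 := Geo.hol_near hp h
    have e : nsq (z0 s - P2 β) = bfin s ^ 2 + β ^ 2 := by
      rw [Geo.z0_def, Geo.nsq_def]
      unfold P2
      simp
    have h1' : nsq (z0 s - P2 β) ≤ κ ^ 2 := h1
    rw [e] at h1'
    have k0 := hp.k0
    have k1 := hp.k1
    nlinarith [sq_nonneg (bfin s)]
  · obtain ⟨h1, h2, -⟩ := h
    simp only at h1 h2
    rcases hs' with h | h <;> linarith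

theorem mid {s : ℝ} (h : s ∈ Icc (11 / 25 : ℝ) (14 / 25)) : s ∈ Icc D.s₀ D.s₁ :=
  ⟨by linarith [hD.s₀.2, h.1], by linarith [hD.s₁.1, h.2]⟩

include hG

theorem z0_nX {s : ℝ} (h : s ∈ Ioo (11 / 25 : ℝ) (14 / 25)) : G (s, z0 s) ∉ G '' XX δ' κ β := by
  rintro ⟨p, hpX, e⟩
  have h1 : p ∈ K3 δ' := Geo.Reg_K3 hpX.1
  have h2 : (s, z0 s) ∈ K3 δ' := Geo.Reg_K3 (z0_Reg hp hδ hD (mid hp hδ hD ⟨h.1.le, h.2.le⟩))
  have h3 := hG.2 h1 h2 e
  rw [h3] at hpX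
  exact hpX.2 (Or.inr (z0_Chn h))

theorem exists_Dc : ∃ Dc : ArcD, Dc.U = (G '' XX δ' κ β)ᶜ ∧ Dc.s₀ = 11 / 25 ∧ Dc.m₀ = 9 / 20 ∧
    Dc.m₁ = 11 / 20 ∧ Dc.s₁ = 14 / 25 ∧ Dc.c = D.c := by
  have hXK : XX δ' κ β ⊆ K3 δ' := fun p h => Geo.Reg_K3 h.1
  have hGc : ContinuousOn G (XX δ' κ β) := fun p h =>
    (hG.1 p (hXK h)).contMDiffAt.continuousAt.continuousWithinAt
  have hUo : IsOpen (G '' XX δ' κ β)ᶜ :=
    ((Geo.isCompact_XX δ' κ β).image_of_continuousOn hGc).isClosed.isOpen_compl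
  have hsegs : seg (11 / 25) (14 / 25) ⊆ seg D.s₀ D.s₁ := fun p h =>
    ⟨by linarith [h.1, hD.s₀.2], by linarith [h.2.1, hD.s₁.1], h.2.2⟩
  have hm : ∀ s ∈ Icc (11 / 25 : ℝ) (14 / 25), s ∈ Icc D.s₀ D.s₁ := fun s h => mid hp hδ hD h
  let Dc : ArcD := {
    U := (G '' XX δ' κ β)ᶜ
    s₀ := 11 / 25
    m₀ := 9 / 20
    m₁ := 11 / 20
    s₁ := 14 / 25
    J := D.J
    c := D.c
    e := fun x => x
    openU := hUo
    h₀ := by norm_num
    h₁ := by norm_num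
    h₂ := by norm_num
    smooth := D.smooth
    core := fun s hs => D.core s (hm s hs)
    emb := ⟨fun p h => D.emb.1 p (hsegs h), D.emb.2.mono hsegs⟩
    mem := fun s hs => by
      rw [XF.c_eq hD (hm s ⟨hs.1.le, hs.2.le⟩)]
      exact z0_nX hp hG hδ hD hs
    off₀ := by
      rw [XF.c_eq hD (hm _ ⟨le_rfl, by norm_num⟩)]
      exact fun h => h (mem_image_of_mem _ (z0_XX hp hδ hD (hm _ ⟨le_rfl, by norm_num⟩)
        (Or.inl le_rfl)))
    off₁ := by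
      rw [XF.c_eq hD (hm _ ⟨by norm_num, le_rfl⟩)]
      exact fun h => h (mem_image_of_mem _ (z0_XX hp hδ hD (hm _ ⟨by norm_num, le_rfl⟩)
        (Or.inr le_rfl)))
    embe := ⟨fun p _ => Geo.ld_of_inv contDiff_id contDiff_id (fun _ => rfl) (fun _ => rfl) p,
      fun _ _ _ _ h => h⟩ }
  exact ⟨Dc, rfl, rfl, rfl, rfl, rfl, rfl⟩

end hat

/-- a loop of arcs of the channel datum gives an embedded loop of arcs of every datum with the same channel -/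
theorem loop_of {G T' : R4 → R4} {δ δ' δ₁ κ β : ℝ} {D Dc : ArcD} (hp : Par δ₁ δ' κ β)
    (hδ : δ ≤ δ') (hD : HatOk δ T' G D) (hWX : wallS δ ⊆ XX δ' κ β)
    (hU : Dc.U = (G '' XX δ' κ β)ᶜ) (hs₀ : Dc.s₀ = 11 / 25) (hm₀ : Dc.m₀ = 9 / 20)
    (hm₁ : Dc.m₁ = 11 / 20) (hs₁ : Dc.s₁ = 14 / 25)
    (hc : ∀ s ∈ Icc (11 / 25 : ℝ) (14 / 25), Dc.c s = D.c s) {c : ℝ → ℝ → R4}
    (h : LoopOK Dc c) (hemb : ∀ q ∈ Icc (0 : ℝ) 1, InjOn (c q) (Icc Dc.s₀ Dc.s₁) ∧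
      ∀ s ∈ Icc Dc.s₀ Dc.s₁, deriv (c q) s ≠ 0) :
    LoopOK D (fun q s => c q s + (D.c s - Dc.c s)) ∧
    ∀ q ∈ Icc (0 : ℝ) 1, InjOn (fun s => c q s + (D.c s - Dc.c s)) (Icc D.s₀ D.s₁) ∧
      ∀ s ∈ Icc D.s₀ D.s₁, deriv (fun s => c q s + (D.c s - Dc.c s)) s ≠ 0 := by
  have hin : ∀ s ∈ Icc (9 / 20 : ℝ) (11 / 20), s ∈ Icc (11 / 25 : ℝ) (14 / 25) := fun s hs =>
    ⟨by linarith [hs.1], by linarith [hs.2]⟩
  have hcs : ContDiff ℝ ∞ (fun z : ℝ × ℝ => c z.1 z.2 + (D.c z.2 - Dc.c z.2)) := by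
    have h2 : ContDiff ℝ ∞ (fun z : ℝ × ℝ => D.c z.2) := D.smooth.comp contDiff_snd
    have h3 : ContDiff ℝ ∞ (fun z : ℝ × ℝ => Dc.c z.2) := Dc.smooth.comp contDiff_snd
    exact h.smooth.add (h2.sub h3)
  have hfr : ∀ q ∈ Icc (0 : ℝ) 1, ∀ s, (s ≤ 9 / 20 ∨ 11 / 20 ≤ s) →
      c q s + (D.c s - Dc.c s) = D.c s := by
    intro q hq s hs
    rw [h.froz q hq s (by rw [hm₀, hm₁]; exact hs)]
    abel
  have hmid : ∀ q, ∀ s ∈ Icc (11 / 25 : ℝ) (14 / 25), c q s + (D.c s - Dc.c s) = c q s := by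
    intro q s hs
    rw [hc s hs, sub_self, add_zero]
  have hXn : ∀ q ∈ Icc (0 : ℝ) 1, ∀ s ∈ Icc (9 / 20 : ℝ) (11 / 20), c q s ∉ G '' XX δ' κ β := by
    intro q hq s hs
    have := h.inU q hq s (by rw [hm₀, hm₁]; exact hs)
    rw [hU] at this
    exact this
  have hbase : ∀ s ∈ Icc D.s₀ D.s₁, (s ≤ 11 / 25 ∨ 14 / 25 ≤ s) → D.c s ∈ G '' XX δ' κ β := by
    intro s hs hs'
    rw [XF.c_eq hD hs]
    exact mem_image_of_mem _ (z0_XX hp hδ hD hs hs')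
  refine ⟨⟨hcs, ?_, ?_, ?_, ?_⟩, fun q hq => ⟨?_, ?_⟩⟩
  · intro q hq s hs
    rw [hD.m₀, hD.m₁] at hs
    exact hfr q hq s hs
  · intro q hq s hs
    rw [hD.m₀, hD.m₁] at hs
    show c q s + (D.c s - Dc.c s) ∈ D.U
    rw [hmid q s (hin s hs), hD.U]
    exact fun h' => hXn q hq s hs (image_mono hWX h')
  · intro s
    show c 0 s + (D.c s - Dc.c s) = D.c s
    rw [h.start]; abel
  · intro s
    show c 1 s + (D.c s - Dc.c s) = D.c s
    rw [h.stop]; abel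
  · -- injectivity
    have key : ∀ s ∈ Icc D.s₀ D.s₁, ∀ t ∈ Icc D.s₀ D.s₁, 9 / 20 < s → s < 11 / 20 →
        c q s + (D.c s - Dc.c s) = c q t + (D.c t - Dc.c t) → s = t := by
      intro s hs t ht h1 h2 e
      have hs1 : s ∈ Icc (9 / 20 : ℝ) (11 / 20) := ⟨h1.le, h2.le⟩
      have hs2 := hin s hs1
      by_cases h3 : t ≤ 11 / 25 ∨ 14 / 25 ≤ t
      · exfalso
        have h4 := hfr q hq t (by rcases h3 with h3 | h3
                                  · left; linarith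
                                  · right; linarith)
        rw [h4, hmid q s hs2] at e
        exact hXn q hq s hs1 (e ▸ hbase t ht h3)
      · push Not at h3
        have h4 : t ∈ Icc (11 / 25 : ℝ) (14 / 25) := ⟨h3.1.le, h3.2.le⟩
        rw [hmid q s hs2, hmid q t h4] at e
        apply (hemb q hq).1 _ _ e
        · rw [hs₀, hs₁]; exact hs2
        · rw [hs₀, hs₁]; exact h4
    intro s hs t ht e
    by_cases h1 : 9 / 20 < s ∧ s < 11 / 20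
    · exact key s hs t ht h1.1 h1.2 e
    · by_cases h2 : 9 / 20 < t ∧ t < 11 / 20
      · exact (key t ht s hs h2.1 h2.2 e.symm).symm
      · have h1' : s ≤ 9 / 20 ∨ 11 / 20 ≤ s := by
          by_contra h3
          push Not at h3
          exact h1 h3
        have h2' : t ≤ 9 / 20 ∨ 11 / 20 ≤ t := by
          by_contra h3
          push Not at h3
          exact h2 h3
        have e' : c q s + (D.c s - Dc.c s) = c q t + (D.c t - Dc.c t) := e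
        rw [hfr q hq s h1', hfr q hq t h2'] at e'
        exact base_injOn D hs ht e'
  · -- immersed
    intro s hs
    have hd1 : Differentiable ℝ (fun s => c q s + (D.c s - Dc.c s)) := by
      have : ContDiff ℝ ∞ (fun s => c q s + (D.c s - Dc.c s)) :=
        hcs.comp (f := fun s : ℝ => (q, s)) (by fun_prop)
      exact this.differentiable (by simp)
    have hd2 : Differentiable ℝ (c q) := by
      have : ContDiff ℝ ∞ (c q) := h.smooth.comp (f := fun s : ℝ => (q, s)) (by fun_prop)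
      exact this.differentiable (by simp)
    have hd3 : Differentiable ℝ D.c := D.smooth.differentiable (by simp)
    rcases le_or_gt s (9 / 20) with h1 | h1
    · rw [deriv_eq_of_eqOn (S := Iic (9 / 20 : ℝ)) hd1 hd3 (uniqueDiffOn_Iic _)
        (fun t ht => hfr q hq t (Or.inl ht)) h1]
      exact base_ne_zero D hs
    · rcases le_or_gt (11 / 20) s with h2 | h2
      · rw [deriv_eq_of_eqOn (S := Ici (11 / 20 : ℝ)) hd1 hd3 (uniqueDiffOn_Ici _)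
          (fun t ht => hfr q hq t (Or.inr ht)) h2]
        exact base_ne_zero D hs
      · have h3 : s ∈ Icc (11 / 25 : ℝ) (14 / 25) := ⟨by linarith, by linarith⟩
        rw [deriv_eq_of_eqOn (S := Icc (11 / 25 : ℝ) (14 / 25)) hd1 hd2
          (uniqueDiffOn_Icc (by norm_num)) (fun t ht => hmid q t ht) h3]
        exact (hemb q hq).2 s (by rw [hs₀, hs₁]; exact h3)

end CRN

end Pool.Agent.Helper27.S5


end

/-! ## Helper27.BI.S5.CRNb -/

section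

/-!
# Project BI, stage 5: the crossing lemma for nice spheres, one sphere
-/

set_option autoImplicit false
set_option linter.unusedSectionVars false

open scoped Manifold ContDiff Topology ComplexConjugate
open Set Filter Pool.Agent.Helper65.Barb Pool.Agent.Helper18.BI
open Pool.Agent.Helper70.BI (I4 LD NearEq IsW ld_iff embOn_comp)
open Pool.Agent.Helper27.BI (e1)
open Pool.Agent.Helper27.H
open Pool.Agent.Helper18.BI.H (mm)
open Pool.Agent.Helper18.BI.R (LoopOK SH HasCl shp StHCL S2 bp)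
open Pool.Agent.Helper18.BI.S5 (SqOK StSQS HatD DR)

namespace Pool.Agent.Helper27.S5

namespace CRN

theorem sh_transfer {D Dc : ArcD} {f g f' g' : ℝ → ℝ → R4} (h : SH Dc f g) (hm₀ : Dc.m₀ = D.m₀)
    (hm₁ : Dc.m₁ = D.m₁) (hU : Dc.U ⊆ D.U) (hc : ∀ s ∈ Icc D.m₀ D.m₁, Dc.c s = D.c s)
    (hf : ∀ q, ∀ s ∈ Icc D.m₀ D.m₁, f' q s = f q s)
    (hg : ∀ q, ∀ s ∈ Icc D.m₀ D.m₁, g' q s = g q s) : SH D f' g' := by
  obtain ⟨H, h1, h2, h3⟩ := h
  rw [hm₀, hm₁] at h1 h2 h3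
  refine ⟨H, h1, fun q hq s hs => ?_, fun u hu q hq s hs => ?_⟩
  · rw [hf q s hs, hg q s hs]
    exact h2 q hq s hs
  · obtain ⟨h4, h5⟩ := h3 u hu q hq s hs
    exact ⟨hU h4, fun hb => (h5 hb).trans (hc s hs)⟩

/-- a chain of homotopies of squares -/
theorem hasCl_chain (hHCL : StHCL) {D : ArcD} {y₀ : R4} {c f₁ f₂ h : ℝ → ℝ → R4} {χ : R4 → R4}
    (hc : LoopOK D c) (hχ : D.Cls c χ) (h1 : SH D c f₁) (h2 : SH D f₁ f₂)
    (h3 : SH D f₂ (shp D y₀ h)) : HasCl D y₀ h χ := by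
  have e : ∀ f : ℝ → ℝ → R4, shp D y₀ (fun q s => f q s - (D.c s - y₀)) = f := by
    intro f
    funext q s
    show f q s - (D.c s - y₀) + (D.c s - y₀) = f q s
    abel
  have a1 : HasCl D y₀ (fun q s => f₁ q s - (D.c s - y₀)) χ := ⟨c, hc, hχ, by rw [e]; exact h1⟩
  have a2 : HasCl D y₀ (fun q s => f₂ q s - (D.c s - y₀)) χ := by
    refine (hHCL D y₀).2.2.2.1 _ _ χ a1 ?_
    rw [e, e]
    exact h2
  refine (hHCL D y₀).2.2.2.1 _ _ χ a2 ?_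
  rw [e]
  exact h3

/-- existence of the class -/
theorem exists_cls {D : ArcD} {c : ℝ → ℝ → R4} (h : LoopOK D c)
    (he : ∀ q ∈ Icc (0 : ℝ) 1, InjOn (c q) (Icc D.s₀ D.s₁) ∧
      ∀ s ∈ Icc D.s₀ D.s₁, deriv (c q) s ≠ 0) : ∃ χ, D.Cls c χ :=
  (hCls D).2.2.2.1 _ (XF.htpy_of h) 0 ⟨le_rfl, zero_le_one⟩ fun q hq =>
    ⟨(he q hq).2, (he q hq).1⟩

/-- the curves to be avoided -/
noncomputable def gn (G : R4 → R4) (β : ℝ) (n : ℕ) (r : ℝ) : R4 :=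
  G (2 / 5 + step r / 5, ((73 / 100 : ℝ), ((β / (n + 2) : ℝ) : ℂ)))

section
variable {G T T' : R4 → R4} {δ δ' κ β : ℝ} {D D' : ArcD} (hp : Par δ δ' κ β)
  (hG : EmbOn I4 G (K3 δ'))
include hp

theorem gn_mem (n : ℕ) (s : ℝ) (h : s ∈ Icc (2 / 5 : ℝ) (3 / 5)) :
    ((s, ((73 / 100 : ℝ), ((β / (n + 2) : ℝ) : ℂ))) : R4) ∈ K3 δ' := by
  apply Geo.Reg_K3
  have hb : 0 < β := hp.k0.trans hp.k1
  have hb1 : β < 1 / 5 := by linarith [Geo.num_hi hp, hp.k0]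
  have d0 := (Geo.hδ' hp).1
  have h1 : 0 < β / ((n : ℝ) + 2) := by positivity
  have h2 : β / ((n : ℝ) + 2) ≤ β := by
    rw [div_le_iff₀ (by positivity)]
    have : (0 : ℝ) ≤ n := by positivity
    nlinarith
  have e : rsq 1 ((s, ((73 / 100 : ℝ), ((β / (n + 2) : ℝ) : ℂ))) : R4) =
      (27 / 100) ^ 2 + (β / ((n : ℝ) + 2)) ^ 2 := by
    rw [Geo.rsq1]
    simp only [Complex.ofReal_re, Complex.ofReal_im]
    ring
  refine ⟨by linarith [h.1], by linarith [h.2], ?_, ?_⟩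
  · rw [e]; nlinarith
  · rw [e]; nlinarith

theorem gn_lev (r : ℝ) : 2 / 5 + step r / 5 ∈ Icc (2 / 5 : ℝ) (3 / 5) := by
  obtain ⟨h1, h2⟩ := step_mem r
  constructor <;> linarith

include hG

theorem contDiff_gn (n : ℕ) : ContDiff ℝ ∞ (gn G β n) := by
  rw [contDiff_iff_contDiffAt]
  intro r
  have h1 := (ld_iff.1 (hG.1 _ (gn_mem hp n _ (gn_lev hp r)))).1.self_of_nhds
  have h2 : ContDiff ℝ ∞ (fun r : ℝ =>
      ((2 / 5 + step r / 5, ((73 / 100 : ℝ), ((β / (n + 2) : ℝ) : ℂ))) : R4)) := by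
    have := contDiff_step
    exact (contDiff_const.add (this.div_const _)).prodMk contDiff_const
  exact ContDiffAt.comp r h1 h2.contDiffAt

theorem gn_hits (n : ℕ) {s : ℝ} (h : s ∈ Icc (11 / 25 : ℝ) (14 / 25)) :
    ∃ r, gn G β n r = G (s, ((73 / 100 : ℝ), ((β / (n + 2) : ℝ) : ℂ))) := by
  have h1 : 5 * (s - 2 / 5) ∈ Icc (step 0) (step 1) := by
    rw [Pool.Agent.Helper27.BI.step_zero, Pool.Agent.Helper27.BI.step_one]
    constructor <;> linarith [h.1, h.2]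
  obtain ⟨r, -, hr⟩ := intermediate_value_Icc zero_le_one contDiff_step.continuous.continuousOn h1
  refine ⟨r, ?_⟩
  unfold gn
  rw [hr]
  congr 2
  ring

end

/-- one sphere: its class in `D` is equal up to `W` to a class in `D'` -/
theorem side (hSQS : StSQS) (hGP1X : StGP1X) (hHCL : StHCL) (hXL : StXL)
    {F T T' : R4 → R4} {ε δ δ' κ β : ℝ} {D D' : ArcD} (hp : Par δ δ' κ β) (hfb : FingB T T')
    (hG : EmbOn I4 (fun p => F (sq ε p)) (K3 δ')) (hD : HatOk δ T' (fun p => F (sq ε p)) D)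
    (hD' : HatOk δ' T' (fun p => F (sq ε p)) D') {g : R3 → R4} {f : ℝ → ℝ → R4}
    {Hh : ℝ × ℝ × ℝ → R4}
    (f1 : ContinuousOn (fun z : ℝ × ℝ => f z.1 z.2)
      (Icc (0 : ℝ) 1 ×ˢ Icc (9 / 20 : ℝ) (11 / 20)))
    (f2 : ∀ q ∈ Icc (0 : ℝ) 1, ∀ s ∈ Icc (9 / 20 : ℝ) (11 / 20),
        (∀ p ∈ XX δ' κ β, f q s ≠ F (sq ε p)) ∧
        ((q = 0 ∨ q = 1 ∨ s = 9 / 20 ∨ s = 11 / 20) → f q s = F (sq ε (s, (73 / 100, 0)))) ∧
        Hh (0, q, s) = f q s ∧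
        Hh (1, q, s) = g (mm q s) + (F (sq ε (s, (73 / 100, 0))) - bp F))
    (f3 : ContinuousOn Hh (Icc (0 : ℝ) 1 ×ˢ (Icc (0 : ℝ) 1 ×ˢ Icc (9 / 20 : ℝ) (11 / 20))))
    (f4 : ∀ u ∈ Icc (0 : ℝ) 1, ∀ q ∈ Icc (0 : ℝ) 1, ∀ s ∈ Icc (9 / 20 : ℝ) (11 / 20),
        (∀ p ∈ wallS δ ∪ wallS δ', Hh (u, q, s) ≠ F (sq ε p)) ∧
        ((q = 0 ∨ q = 1 ∨ s = 9 / 20 ∨ s = 11 / 20) →
          Hh (u, q, s) = F (sq ε (s, (73 / 100, 0)))))
    {W χ : R4 → R4} (hW : IsW W) (hχ : HasCl D (bp F) (fun q s => g (mm q s)) χ) :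
    ∃ χ', HasCl D' (bp F) (fun q s => g (mm q s)) χ' ∧ WR W χ χ' := by
  set G : R4 → R4 := fun p => F (sq ε p) with hGdef
  have hδ : δ ≤ δ' := by linarith [hp.d0, hp.d1]
  obtain ⟨Dc, u1, u2, u3, u4, u5, u6⟩ := exists_Dc hp hG hδ hD
  have hz : ∀ s ∈ Icc (9 / 20 : ℝ) (11 / 20), z0 s = ((73 / 100 : ℝ), (0 : ℂ)) := by
    intro s h
    rw [Geo.z0_def, bfin_mid ⟨by linarith [h.1], by linarith [h.2]⟩]
    norm_num
  have hin : ∀ s ∈ Icc (9 / 20 : ℝ) (11 / 20), s ∈ Icc (11 / 25 : ℝ) (14 / 25) := fun s hs =>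
    ⟨by linarith [hs.1], by linarith [hs.2]⟩
  have hcD : ∀ s ∈ Icc (9 / 20 : ℝ) (11 / 20), D.c s = F (sq ε (s, (73 / 100, 0))) := by
    intro s h
    rw [XF.c_eq hD (mid hp hδ hD (hin s h)), hz s h]
  have hcD' : ∀ s ∈ Icc (9 / 20 : ℝ) (11 / 20), D'.c s = F (sq ε (s, (73 / 100, 0))) := by
    intro s h
    rw [XF.c_eq hD' (mid hp le_rfl hD' (hin s h)), hz s h]
  have hcc : ∀ s ∈ Icc (11 / 25 : ℝ) (14 / 25), D'.c s = D.c s := by
    intro s h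
    rw [XF.c_eq hD' (mid hp le_rfl hD' h), XF.c_eq hD (mid hp hδ hD h)]
  have hUD : Dc.U ⊆ D.U := by
    rw [u1, hD.U]
    exact compl_subset_compl.2 (image_mono (Geo.wall_XX' hp))
  have hUD' : Dc.U ⊆ D'.U := by
    rw [u1, hD'.U]
    exact compl_subset_compl.2 (image_mono (Geo.wall_XX hp))
  -- the square in the channel datum
  have hsq : SqOK Dc f := by
    refine ⟨?_, ?_, ?_⟩
    · rw [u3, u4]; exact f1
    · intro q hq s hs
      rw [u3, u4] at hs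
      rw [u1]
      rintro ⟨p, hpX, e⟩
      exact (f2 q hq s hs).1 p hpX e.symm
    · intro q hq s hs hb
      rw [u3, u4] at hs hb
      rw [(f2 q hq s hs).2.1 hb, u6, hcD s hs]
  obtain ⟨c₀, l0, sh0⟩ := hSQS Dc f hsq
  obtain ⟨c₁, l1, emb1, sh1, cur1⟩ := hGP1X Dc c₀ (gn G β) l0 (contDiff_gn hp hG) (by
    intro n s hs r e
    rw [u2, u5] at hs
    rw [u6, XF.c_eq hD (mid hp hδ hD hs)] at e
    have h1 := hG.2 (Geo.Reg_K3 (z0_Reg hp hδ hD (mid hp hδ hD hs)))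
      (gn_mem hp n _ (gn_lev hp r)) e
    have h2 : z0 s = ((73 / 100 : ℝ), ((β / (n + 2) : ℝ) : ℂ)) := congrArg Prod.snd h1
    rw [Geo.z0_def] at h2
    have h3 := congrArg Prod.snd h2
    have h4 : (0 : ℂ) = ((β / (n + 2) : ℝ) : ℂ) := h3
    have h5 : (0 : ℝ) = β / (n + 2) := by exact_mod_cast h4
    have hb : 0 < β := hp.k0.trans hp.k1
    have h6 : 0 < β / ((n : ℝ) + 2) := by positivity
    linarith)
  have hX1 : ∀ q ∈ Icc (0 : ℝ) 1, ∀ s ∈ Icc (9 / 20 : ℝ) (11 / 20),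
      c₁ q s ∉ G '' XX δ' κ β := by
    intro q hq s hs
    have := l1.inU q hq s (by rw [u3, u4]; exact hs)
    rw [u1] at this
    exact this
  obtain ⟨lD, eD⟩ := loop_of hp hδ hD (Geo.wall_XX' hp) u1 u2 u3 u4 u5
    (fun s _ => by rw [u6]) l1 emb1
  obtain ⟨lD', eD'⟩ := loop_of hp le_rfl hD' (Geo.wall_XX hp) u1 u2 u3 u4 u5
    (fun s hs => by rw [u6]; exact (hcc s hs).symm) l1 emb1
  simp only [u6, sub_self, add_zero] at lD eD lD' eD'
  obtain ⟨χ₁, hχ₁⟩ := exists_cls lD eD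
  obtain ⟨χ', hχ'⟩ := exists_cls lD' eD'
  have hx := hXL G T T' δ δ' κ β D D' c₁ W χ₁ χ' hW hp hfb hG hD hD' lD hX1 eD
    (by
      intro n q hq s hs s' hs' e
      obtain ⟨r, hr⟩ := gn_hits hp hG n hs'
      exact cur1 n q hq s (by rw [u2, u5]; exact hin s hs) r (e.trans hr.symm)) hχ₁ hχ'
  -- the homotopies in `D`
  have shD : ∀ D₁ : ArcD, D₁.m₀ = 9 / 20 → D₁.m₁ = 11 / 20 →
      (∀ s ∈ Icc (9 / 20 : ℝ) (11 / 20), D₁.c s = F (sq ε (s, (73 / 100, 0)))) →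
      (∀ x, x ∉ D₁.U → ∃ p ∈ wallS δ ∪ wallS δ', G p = x) →
      SH D₁ f (shp D₁ (bp F) (fun q s => g (mm q s))) := by
    intro D₁ m0 m1 hc hU
    refine ⟨Hh, by rw [m0, m1]; exact f3, fun q hq s hs => ?_, fun u hu q hq s hs => ?_⟩
    · rw [m0, m1] at hs
      obtain ⟨-, -, h3, h4⟩ := f2 q hq s hs
      refine ⟨h3, ?_⟩
      rw [h4, ← hc s hs]
      rfl
    · rw [m0, m1] at hs
      obtain ⟨h3, h4⟩ := f4 u hu q hq s hs
      refine ⟨?_, fun hb => ?_⟩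
      · by_contra hn
        obtain ⟨p, hp1, hp2⟩ := hU _ hn
        exact h3 p hp1 hp2.symm
      · rw [m0, m1] at hb
        rw [h4 hb, hc s hs]
  have hD1 : HasCl D (bp F) (fun q s => g (mm q s)) χ₁ := by
    refine hasCl_chain hHCL lD hχ₁ (f₁ := c₀) (f₂ := f)
      (sh_transfer sh1 (by rw [u3, hD.m₀]) (by rw [u4, hD.m₁]) hUD (fun s _ => by rw [u6])
        (fun _ _ _ => rfl) (fun _ _ _ => rfl))
      (sh_transfer sh0 (by rw [u3, hD.m₀]) (by rw [u4, hD.m₁]) hUD (fun s _ => by rw [u6])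
        (fun _ _ _ => rfl) (fun _ _ _ => rfl))
      (shD D hD.m₀ hD.m₁ hcD ?_)
    intro x hx
    rw [hD.U, mem_compl_iff, not_not] at hx
    obtain ⟨p, hp1, hp2⟩ := hx
    exact ⟨p, Or.inl hp1, hp2⟩
  have hD2 : HasCl D' (bp F) (fun q s => g (mm q s)) χ' := by
    have hc' : ∀ s ∈ Icc D'.m₀ D'.m₁, Dc.c s = D'.c s := by
      intro s hs
      rw [hD'.m₀, hD'.m₁] at hs
      rw [u6, hcc s (hin s hs)]
    refine hasCl_chain hHCL lD' hχ' (f₁ := c₀) (f₂ := f)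
      (sh_transfer sh1 (by rw [u3, hD'.m₀]) (by rw [u4, hD'.m₁]) hUD' hc'
        (fun q s hs => ?_) (fun _ _ _ => rfl))
      (sh_transfer sh0 (by rw [u3, hD'.m₀]) (by rw [u4, hD'.m₁]) hUD' hc'
        (fun _ _ _ => rfl) (fun _ _ _ => rfl))
      (shD D' hD'.m₀ hD'.m₁ hcD' ?_)
    · rw [hD'.m₀, hD'.m₁] at hs
      show c₁ q s + (D'.c s - D.c s) = c₁ q s
      rw [hcc s (hin s hs), sub_self, add_zero]
    · intro x hx
      rw [hD'.U, mem_compl_iff, not_not] at hx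
      obtain ⟨p, hp1, hp2⟩ := hx
      exact ⟨p, Or.inr hp1, hp2⟩
  refine ⟨χ', hD2, ?_⟩
  have w1 : WR W χ χ₁ := (hHCL D (bp F)).2.2.2.2.2.2 W _ χ χ₁ hW hχ hD1
  have w0 : CIsot I4 χ χ := (hHCL D (bp F)).2.2.2.2.2.1 _ χ hχ
  exact WR.trans hW w0 w1 hx

end CRN

end Pool.Agent.Helper27.S5


end

/-! ## Helper27.BI.S5.CRNc -/

section

/-!
# Project BI, stage 5: the crossing lemma for nice spheres
-/

set_option autoImplicit false
set_option linter.unusedSectionVars false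

open scoped Manifold ContDiff Topology ComplexConjugate
open Set Filter Pool.Agent.Helper65.Barb Pool.Agent.Helper18.BI
open Pool.Agent.Helper70.BI (I4 LD NearEq IsW ld_iff embOn_comp)
open Pool.Agent.Helper27.BI (e1)
open Pool.Agent.Helper27.H
open Pool.Agent.Helper18.BI.H (mm)
open Pool.Agent.Helper18.BI.R (LoopOK SH HasCl shp StHCL S2 bp)
open Pool.Agent.Helper18.BI.S5 (SqOK StSQS HatD DR StEX)
open Pool.Agent.Helper34.S5 (StCRN NicePath fill pcat hcirc BH Bs dr_of_bh dr_trans dr_symm Gc)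

namespace Pool.Agent.Helper27.S5

namespace CRN

/-- the crossing lemma for the spheres with spirals -/
theorem dr_spiral (hSQS : StSQS) (hGP1X : StGP1X) (hHCL : StHCL) (hXL : StXL) (hSHD : StSHD)
    {F : R4 → R4} {δ₀ τ δ' κ β δ₁ : ℝ} {g g' : R3 → R4} (hF : EmbOn I4 F (SP ∪ shell δ₀))
    (hSQF : ∀ δ δ' κ β : ℝ, Par δ δ' κ β → δ' ≤ δ₀ → ∀ g : R3 → R4, ContinuousOn g S2 →
      (∀ m ∈ S2, 9 / 10 ≤ m.1 → g m = F (1 / 2, (73 / 100, ((10 * (1 - m.1) * τ : ℝ) : ℂ)))) →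
      (∀ m ∈ S2, m.1 ≤ 9 / 10 → ∀ p ∈ XX δ' κ β, g m ≠ F (sq 0 p)) →
      ∃ ε₀ > 0, ∀ ε ∈ Ioo 0 ε₀, ∃ (f : ℝ → ℝ → R4) (H : ℝ × ℝ × ℝ → R4),
        ContinuousOn (fun z : ℝ × ℝ => f z.1 z.2)
          (Icc (0 : ℝ) 1 ×ˢ Icc (9 / 20 : ℝ) (11 / 20)) ∧
        (∀ q ∈ Icc (0 : ℝ) 1, ∀ s ∈ Icc (9 / 20 : ℝ) (11 / 20),
          (∀ p ∈ XX δ' κ β, f q s ≠ F (sq ε p)) ∧
          ((q = 0 ∨ q = 1 ∨ s = 9 / 20 ∨ s = 11 / 20) → f q s = F (sq ε (s, (73 / 100, 0)))) ∧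
          H (0, q, s) = f q s ∧
          H (1, q, s) = g (mm q s) + (F (sq ε (s, (73 / 100, 0))) - bp F)) ∧
        ContinuousOn H (Icc (0 : ℝ) 1 ×ˢ (Icc (0 : ℝ) 1 ×ˢ Icc (9 / 20 : ℝ) (11 / 20))) ∧
        ∀ u ∈ Icc (0 : ℝ) 1, ∀ q ∈ Icc (0 : ℝ) 1, ∀ s ∈ Icc (9 / 20 : ℝ) (11 / 20),
          (∀ p ∈ wallS δ ∪ wallS δ', H (u, q, s) ≠ F (sq ε p)) ∧
          ((q = 0 ∨ q = 1 ∨ s = 9 / 20 ∨ s = 11 / 20) →
            H (u, q, s) = F (sq ε (s, (73 / 100, 0)))))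
    (hδ₁ : 0 < δ₁) (hδ' : δ' ≤ δ₀) (hp : ∀ δ ∈ Ioo 0 δ₁, Par δ δ' κ β) (hg : NS F τ δ' κ β g)
    (hg' : NS F τ δ' κ β g') (hB : BHO F (sq 0 '' wallS δ') g g') : DR F g g' := by
  have hpm : Par (δ₁ / 2) δ' κ β := hp _ ⟨by linarith, by linarith⟩
  have d' := Geo.hδ' hpm
  obtain ⟨εh, h1, eh⟩ := hSHD F δ₀ δ' g g' hF hδ' d' hB
  have hLc : IsCompact (SP ∪ shell δ₀) := (hS4.2.2.2.2.2.2.2.2.1).union (isCompact_shell δ₀)
  obtain ⟨εK, h2, eK⟩ := hT6 R4 R4 I4 R4 F (K3 δ') _ (isCompact_K3 δ') hLc (fun p hp => by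
    rcases sq0_K3 hp with h | h
    · exact Or.inl h
    · exact Or.inr ⟨h.1, by linarith [h.2.1], h.2.2⟩) hF
  refine ⟨1, one_pos, δ₁, hδ₁, fun δ hδ => ?_⟩
  have hP := hp δ hδ
  obtain ⟨ε1, h3, e1⟩ := hSQF δ δ' κ β hP hδ' g hg.cont hg.coll hg.off
  obtain ⟨ε2, h4, e2⟩ := hSQF δ δ' κ β hP hδ' g' hg'.cont hg'.coll hg'.off
  refine ⟨min (min εh εK) (min ε1 ε2), by positivity, ?_⟩
  rintro ε ⟨hε, hε'⟩ D hD - W χ χ' hW hχ hχ'
  have i1 : ε ∈ Ioo 0 εh := ⟨hε, lt_of_lt_of_le hε' ((min_le_left _ _).trans (min_le_left _ _))⟩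
  have i2 : ε ∈ Ioo 0 εK := ⟨hε, lt_of_lt_of_le hε' ((min_le_left _ _).trans (min_le_right _ _))⟩
  have i3 : ε ∈ Ioo 0 ε1 := ⟨hε, lt_of_lt_of_le hε' ((min_le_right _ _).trans (min_le_left _ _))⟩
  have i4 : ε ∈ Ioo 0 ε2 := ⟨hε, lt_of_lt_of_le hε' ((min_le_right _ _).trans (min_le_right _ _))⟩
  obtain ⟨T, T', hfb, -, -, hDo⟩ := hD
  have hG : EmbOn I4 (fun p => F (sq ε p)) (K3 δ') := (eK ε i2).1
  obtain ⟨D', hD'⟩ := hHARC T T' (fun p => F (sq ε p)) δ' hfb.ok d' hG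
  obtain ⟨f, Hf, a1, a2, a3, a4⟩ := e1 ε i3
  obtain ⟨f', Hf', b1, b2, b3, b4⟩ := e2 ε i4
  obtain ⟨χ₁, c1, c2⟩ := side hSQS hGP1X hHCL hXL hP hfb hG hDo hD' a1 a2 a3 a4 hW hχ
  obtain ⟨χ₂, c3, c4⟩ := side hSQS hGP1X hHCL hXL hP hfb hG hDo hD' b1 b2 b3 b4 hW hχ'
  obtain ⟨Hh, g1, g2, g3⟩ := eh ε i1
  have hcD' : ∀ s ∈ Icc (9 / 20 : ℝ) (11 / 20), D'.c s = F (sq ε (s, (73 / 100, 0))) := by
    intro s h
    have hs : s ∈ Icc D'.s₀ D'.s₁ := ⟨by linarith [h.1, hD'.s₀.2], by linarith [h.2, hD'.s₁.1]⟩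
    have hz : z0 s = ((73 / 100 : ℝ), (0 : ℂ)) := by
      rw [Geo.z0_def, bfin_mid ⟨by linarith [h.1], by linarith [h.2]⟩]
      norm_num
    rw [XF.c_eq hD' hs, hz]
  have c5 : HasCl D' (bp F) (fun q s => g' (mm q s)) χ₁ := by
    refine (hHCL D' (bp F)).2.2.2.1 _ _ χ₁ c1 ⟨Hh, ?_, fun q hq s hs => ?_,
      fun u hu q hq s hs => ?_⟩
    · rw [hD'.m₀, hD'.m₁]; exact g1
    · rw [hD'.m₀, hD'.m₁] at hs
      obtain ⟨k1, k2⟩ := g2 q hq s hs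
      rw [k1, k2, ← hcD' s hs]
      exact ⟨rfl, rfl⟩
    · rw [hD'.m₀, hD'.m₁] at hs
      obtain ⟨k1, k2⟩ := g3 u hu q hq s hs
      refine ⟨?_, fun hb => ?_⟩
      · rw [hD'.U]
        rintro ⟨p, hp1, hp2⟩
        exact k1 p hp1 hp2.symm
      · rw [hD'.m₀, hD'.m₁] at hb
        rw [k2 hb, hcD' s hs]
  have w1 : WR W χ₁ χ₂ := (hHCL D' (bp F)).2.2.2.2.2.2 W _ χ₁ χ₂ hW c5 c3
  have r0 : CIsot I4 χ χ := (hHCL D (bp F)).2.2.2.2.2.1 _ χ hχ
  have r1 : CIsot I4 χ' χ' := (hHCL D (bp F)).2.2.2.2.2.1 _ χ' hχ'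
  exact WR.trans hW r0 (WR.trans hW r0 c2 w1) (WR.symm hW r1 c4)

end CRN

open CRN

/-- **CRN.** -/
theorem m_CRN (hSQS : StSQS) (hGP1X : StGP1X) (hHCL : StHCL) (hXL : StXL) (hSHD : StSHD)
    (hPRM : StPRM) (hSQF : StSQF') (hEX : StEX) : StCRN := by
  intro F hF
  obtain ⟨δ₀, hδ₀, hFδ, r₀, hr₀, hP⟩ := hPRM F hF
  obtain ⟨τ₀, hτ₀, hS⟩ := hSQF F δ₀ hFδ
  refine ⟨min r₀ τ₀, by positivity, ?_⟩
  intro r hr τ₁ hτ ξ k hξ hξ1 hk hkK hk1
  have hr' : r ∈ Ioo (0 : ℝ) r₀ := ⟨hr.1, lt_of_lt_of_le hr.2 (min_le_left _ _)⟩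
  have hτ' : τ₁ ∈ Ioo (0 : ℝ) r₀ := ⟨hτ.1, lt_of_lt_of_le hτ.2 (min_le_left _ _)⟩
  have hτ2 : 4 / 5 * τ₁ ∈ Ioo (0 : ℝ) τ₀ := by
    have h1 := hτ.1
    have h2 := lt_of_lt_of_le hτ.2 (min_le_right _ _)
    constructor <;> linarith
  obtain ⟨δ', κ, β, δ₁, g, g', a1, a2, a3, a4, a5, a6, a7, a8⟩ :=
    hP r hr' τ₁ hτ' ξ k hξ hξ1 hk hkK hk1
  have hD := dr_spiral hSQS hGP1X hHCL hXL hSHD hFδ (hS _ hτ2) a1 a2 a3 a4 a5 a8
  have bs : ∀ {f f' : R3 → R4}, BH F f f' → ContinuousOn f' S2 → Bs F f' := by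
    rintro f f' ⟨H, h1, h2, h3⟩ hc
    have h01 : (1 : ℝ) ∈ Icc (0 : ℝ) 1 := by simp
    refine ⟨hc, fun m hm => ?_, ?_⟩
    · rw [← h3 m hm]
      exact h1.off 1 h01 m hm
    · rw [← h3 _ Pool.Agent.Helper34.S5.base_mem]
      exact h1.track 1 h01
  have d1 := dr_of_bh hF hHCL a6
  have d2 := dr_symm hHCL hT2 hCI (dr_of_bh hF hHCL a7)
  exact dr_trans hF hHCL hT2 hCI hEX (bs a6 a4.cont) d1
    (dr_trans hF hHCL hT2 hCI hEX (bs a7 a5.cont) hD d2)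

end Pool.Agent.Helper27.S5


end

/-! ## Helper76.BI5.M_IO1 -/

section

/-!
# Project BI, stage 5, module IO1 (the map which retracts the second finger and fills in the second hole)
-/

set_option autoImplicit false
set_option linter.unusedSectionVars false

open scoped Manifold ContDiff Topology ComplexConjugate
open Set Filter Pool.Agent.Helper65.Barb Pool.Agent.Helper18.BI
open Pool.Agent.Helper70.BI (I4 LD ld_iff ld_comp ld_congr contDiff_dfam contDiff_dfam_inv)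
open Pool.Agent.Helper34.BI (rade)
open Pool.Agent.Helper27.BI (e1 imp_image imp_off)
open Pool.Agent.Helper27.H

namespace Pool.Agent.Helper27.S5

namespace IO1

/-- the closed set removed: the two walls and the second arc -/
def BB (δ κ β c a b : ℝ) : Set R4 :=
  (wallS δ ∪ wall2 δ κ β) ∪ {p | p.1 ∈ Icc a b ∧ p.2 = z2 c β p.1}

theorem continuous_step' : Continuous step := by
  unfold Pool.Agent.Helper65.Barb.step
  exact Real.smoothTransition.continuous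

theorem continuous_lam (c : ℝ) : Continuous (lam c) := by
  unfold lam
  have h := continuous_step'
  exact continuous_const.sub (continuous_const.mul
    ((h.comp (by fun_prop : Continuous fun s : ℝ => (s - 7 / 20) / (2 / 25))).mul
      (h.comp (by fun_prop : Continuous fun s : ℝ => (13 / 20 - s) / (2 / 25)))))

theorem continuous_z2 (c β : ℝ) : Continuous (z2 c β) := by
  unfold z2
  exact contDiff_z0.continuous.add
    (((continuous_lam c).mul continuous_const).smul continuous_const)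

theorem isClosed_BB (δ κ β c a b : ℝ) : IsClosed (BB δ κ β c a b) := by
  refine ((Geo.isClosed_wallS δ).union (Geo.isClosed_wall2 δ κ β)).union ?_
  have h : Continuous fun p : R4 => z2 c β p.1 := (continuous_z2 c β).comp continuous_fst
  exact (isClosed_Icc.preimage continuous_fst).inter (isClosed_eq continuous_snd h)

section
variable {G T T' : R4 → R4} {δ δ' κ β c : ℝ} {D D' : ArcD} {H : DFam 𝓘(ℝ, R4) R4} {a b : ℝ}

theorem hio_a {p : R4} (h : rsq 1 (sgi κ β p) < 1 / 25 - 2 * δ') :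
    hio H δ' κ β p = H.f (1, p) := by
  unfold hio
  rw [if_pos h]

theorem hio_b {p : R4} (h : 1 / 25 - 2 * δ' ≤ rsq 1 (sgi κ β p)) :
    hio H δ' κ β p = H.f (1, rad2 δ' κ β (H.g (1, p))) := by
  unfold hio
  rw [if_neg (not_lt.2 h)]

variable (hS : Sys G T T' δ δ' κ β c D D' H a b)
include hS

theorem far {p : R4} (hp : p ∈ Reg δ' \ BB δ' κ β c a b) : 1 / 25 - δ' < rsq 1 p := by
  by_contra h
  push Not at h
  exact hp.2 (Or.inl (Or.inl ⟨hp.1.1, hp.1.2.1, hp.1.2.2.1, h⟩))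

theorem dich {p : R4} (hp : p ∈ Reg δ' \ BB δ' κ β c a b) :
    rsq 1 (sgi κ β p) < 1 / 25 - 3 * δ' ∨ 1 / 25 - δ' < rsq 1 (sgi κ β p) := by
  by_contra h
  push Not at h
  exact hp.2 (Or.inl (Or.inr ⟨hp.1.1, hp.1.2.1, h.1, h.2⟩))

theorem pos2 {p : R4} (hp : p ∈ Reg δ' \ BB δ' κ β c a b)
    (h3 : 1 / 25 - δ' < rsq 1 (sgi κ β p)) : 0 < rsq 1 (sgi κ β (H.g (1, p))) := by
  rw [Geo.sgi_pos_iff hS.par.k0]
  intro h
  have h1 : H.g (1, p) = ((H.g (1, p)).1, P2 β) := Prod.ext rfl h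
  set s := (H.g (1, p)).1
  have h2 : p = (s, z2 c β s) := by
    rw [← Geo.H_P2 hS.th hS.par s, ← h1, H.fg]
  have h4 : s ∈ Icc a b := by
    by_contra h5
    have h6 := Geo.H_P2_out hS.th hS.par hS.mc (Geo.hδ' hS.par) hS.ab h5
    rw [← h2] at h6
    exact absurd h6 (not_le.2 h3)
  exact hp.2 (Or.inr ⟨by rw [h2]; exact h4, by rw [h2]⟩)

/-- the images of the points near the second hole are in the region, off the first wall -/
theorem near_val {q : R4} (h0 : 0 ≤ q.1) (h1 : q.1 ≤ 1) (h : rsq 1 (sgi κ β q) ≤ 1 / 25) :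
    H.f (1, q) ∈ Reg δ' ∧ 1 / 25 - δ' < rsq 1 (H.f (1, q)) := by
  have d' := Geo.hδ' hS.par
  have hn := Geo.near_of hS.par h
  have hq := Geo.H_near_rsq hS.th hS.par hS.mc hn
  have e3 : (H.f (1, q)).1 = q.1 := by
    rw [Geo.H_near hS.th hS.par hn]
  exact ⟨⟨by rw [e3]; exact h0, by rw [e3]; exact h1, by linarith [hq.1, d'.1], hq.2⟩, hq.1⟩

theorem val {p : R4} (hp : p ∈ Reg δ' \ BB δ' κ β c a b) :
    hio H δ' κ β p ∈ Reg δ' ∧ 1 / 25 - δ' < rsq 1 (hio H δ' κ β p) := by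
  have d' := Geo.hδ' hS.par
  have k0 := hS.par.k0
  rcases dich hS hp with h | h
  · rw [hio_a (by linarith [d'.1])]
    exact near_val hS hp.1.1 hp.1.2.1 (by linarith [d'.1])
  · rw [hio_b (by linarith [d'.1])]
    rcases le_or_gt (1 / 25 - δ') (rsq 1 (sgi κ β (H.g (1, p)))) with h4 | h4
    · rw [Geo.rad2_fix d' k0 β h4, H.fg]
      exact ⟨hp.1, far hS hp⟩
    · have h6 := Geo.rad2_le d' k0 β (pos2 hS hp h) h4.le
      have hl := Geo.H_reg_g hS.th (t := 1) hp.1.1 hp.1.2.1 hp.1.2.2.2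
      exact near_val hS (q := rad2 δ' κ β (H.g (1, p))) hl.1 hl.2.1 (by linarith [d'.1])

theorem maps : MapsTo (hio H δ' κ β) (Reg δ' \ BB δ' κ β c a b) (Reg δ') :=
  fun _ hp => (val hS hp).1

theorem ld {p : R4} (hp : p ∈ Reg δ' \ BB δ' κ β c a b) : LD (hio H δ' κ β) p := by
  have d' := Geo.hδ' hS.par
  have hf : ContDiff ℝ ∞ (fun q : R4 => H.f (1, q)) :=
    (contDiff_dfam H).comp (contDiff_prodMk_right (1 : ℝ))
  have hg : ContDiff ℝ ∞ (fun q : R4 => H.g (1, q)) :=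
    (contDiff_dfam_inv H).comp (contDiff_prodMk_right (1 : ℝ))
  have lf : ∀ x : R4, LD (fun q : R4 => H.f (1, q)) x := fun x =>
    Geo.ld_of_inv hf hg (fun x => H.gf 1 x) (fun x => H.fg 1 x) x
  have lg : ∀ x : R4, LD (fun q : R4 => H.g (1, q)) x := fun x =>
    Geo.ld_of_inv hg hf (fun x => H.fg 1 x) (fun x => H.gf 1 x) x
  rcases dich hS hp with h | h
  · refine ld_congr ?_ (lf p)
    have h1 : ∀ᶠ q : R4 in 𝓝 p, rsq 1 (sgi κ β q) < 1 / 25 - 3 * δ' :=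
      (Geo.continuous_rsq_sgi κ β).continuousAt.eventually (Iio_mem_nhds h)
    filter_upwards [h1] with q hq
    rw [hio_a (by linarith [d'.1])]
  · have l2 : LD (rad2 δ' κ β ∘ fun q : R4 => H.g (1, q)) p :=
      ld_comp (F := rad2 δ' κ β) (m := fun q : R4 => H.g (1, q)) (lg p)
        ((Geo.rad2_emb d' hS.par.k0 β).1 _ (pos2 hS hp h))
    have l3 : LD ((fun q : R4 => H.f (1, q)) ∘ (rad2 δ' κ β ∘ fun q : R4 => H.g (1, q))) p :=
      ld_comp (F := fun q : R4 => H.f (1, q)) (m := rad2 δ' κ β ∘ fun q : R4 => H.g (1, q)) l2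
        (lf _)
    refine ld_congr ?_ l3
    have h1 : ∀ᶠ q : R4 in 𝓝 p, 1 / 25 - δ' < rsq 1 (sgi κ β q) :=
      (Geo.continuous_rsq_sgi κ β).continuousAt.eventually (Ioi_mem_nhds h)
    filter_upwards [h1] with q hq
    rw [hio_b (by linarith [d'.1])]
    rfl

theorem inj : InjOn (hio H δ' κ β) (Reg δ' \ BB δ' κ β c a b) := by
  have d' := Geo.hδ' hS.par
  have k0 := hS.par.k0
  have fi : ∀ x y : R4, H.f (1, x) = H.f (1, y) → x = y := by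
    intro x y h
    rw [← H.gf 1 x, h, H.gf]
  have key : ∀ p ∈ Reg δ' \ BB δ' κ β c a b, ∀ q ∈ Reg δ' \ BB δ' κ β c a b,
      rsq 1 (sgi κ β p) < 1 / 25 - 3 * δ' → 1 / 25 - δ' < rsq 1 (sgi κ β q) →
      hio H δ' κ β p ≠ hio H δ' κ β q := by
    intro p _ q hq h1 h2 h
    rw [hio_a (by linarith [d'.1]), hio_b (by linarith [d'.1])] at h
    have h3 := fi _ _ h
    have h4 := Geo.rad2_low d' k0 β (pos2 hS hq h2)
    rw [← h3] at h4
    exact absurd h4 (not_le.2 h1)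
  intro p hp q hq h
  rcases dich hS hp with h1 | h1 <;> rcases dich hS hq with h2 | h2
  · rw [hio_a (by linarith [d'.1]), hio_a (by linarith [d'.1])] at h
    exact fi _ _ h
  · exact absurd h (key p hp q hq h1 h2)
  · exact absurd h.symm (key q hq p hp h2 h1)
  · rw [hio_b (by linarith [d'.1]), hio_b (by linarith [d'.1])] at h
    have h3 := fi _ _ h
    have h4 := (Geo.rad2_emb d' k0 β).2 (pos2 hS hp h1) (pos2 hS hq h2) h3
    rw [← H.fg 1 p, h4, H.fg]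

theorem front {p : R4} (hp : p ∈ Reg δ' \ BB δ' κ β c a b) :
    ∀ᶠ q in 𝓝 p, q ∉ Reg δ' → hio H δ' κ β q = q := by
  have d' := Geo.hδ' hS.par
  have h1 : ∀ᶠ q : R4 in 𝓝 p, 1 / 25 - δ' < rsq 1 q :=
    Geo.continuous_rsq1.continuousAt.eventually (Ioi_mem_nhds (far hS hp))
  have hsupp : ∀ q : R4, 1 / 25 - δ' < rsq 1 q → q ∉ Reg δ' →
      H.f (1, q) = q ∧ H.g (1, q) = q := by
    intro q hq1 hqR
    have h4 : q.1 ≤ 1 / 20 ∨ 19 / 20 ≤ q.1 ∨ 49 / 100 ≤ rsq 1 q := by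
      by_contra h
      push Not at h
      exact hqR ⟨by linarith [h.1], by linarith [h.2.1], by linarith [d'.1], h.2.2.le⟩
    exact ⟨hS.th.supp 1 q h4, Geo.H_supp_g hS.th (t := 1) h4⟩
  rcases dich hS hp with h | h
  · have h2 : ∀ᶠ q : R4 in 𝓝 p, rsq 1 (sgi κ β q) < 1 / 25 - 3 * δ' :=
      (Geo.continuous_rsq_sgi κ β).continuousAt.eventually (Iio_mem_nhds h)
    filter_upwards [h1, h2] with q hq1 hq2 hqR
    rw [hio_a (by linarith [d'.1])]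
    exact (hsupp q hq1 hqR).1
  · have h2 : ∀ᶠ q : R4 in 𝓝 p, 1 / 25 - δ' < rsq 1 (sgi κ β q) :=
      (Geo.continuous_rsq_sgi κ β).continuousAt.eventually (Ioi_mem_nhds h)
    filter_upwards [h1, h2] with q hq1 hq2 hqR
    rw [hio_b (by linarith [d'.1]), (hsupp q hq1 hqR).2, Geo.rad2_fix d' hS.par.k0 β hq2.le]
    exact (hsupp q hq1 hqR).1

theorem injG : InjOn G (Reg δ') := hS.emb.2.mono Geo.Reg_K3

theorem good {p : R4} (hp : p ∈ Reg δ') (h : G p ∈ U2 G δ' κ β \ A2 G H β a b) :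
    p ∈ Reg δ' \ BB δ' κ β c a b := by
  refine ⟨hp, ?_⟩
  rintro (h1 | h1)
  · exact h.1 ⟨p, h1, rfl⟩
  · refine h.2 ⟨(p.1, P2 β), ⟨rfl, h1.1.1, h1.1.2⟩, ?_⟩
    show G (H.f (1, (p.1, P2 β))) = G p
    rw [Geo.H_P2 hS.th hS.par, ← h1.2]

theorem sub : U2 G δ' κ β \ A2 G H β a b ⊆ (G '' (Reg δ' ∩ BB δ' κ β c a b))ᶜ := by
  rintro y hy ⟨p, ⟨hp, hB⟩, rfl⟩
  exact (good hS hp hy).2 hB

/-- points of the base arc are in the region -/
theorem arc_pt {y : R4} (hy : y ∈ D'.A) : ∃ s : ℝ, y = G (s, z0 s) ∧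
    ((s, z0 s) : R4) ∈ Reg δ' := by
  obtain ⟨p, ⟨h1, h2, h3⟩, rfl⟩ := hy
  refine ⟨p.1, ?_, ?_⟩
  · rw [hS.hat'.J]
    show G (p.1, z0 p.1 + p.2) = _
    rw [h3, add_zero]
  · have b1 : 1 / 25 - δ' ≤ bfin p.1 ^ 2 := by
      rcases eq_or_lt_of_le h1 with h | h
      · rw [← h, hS.hat'.b₀]
      · rcases eq_or_lt_of_le h2 with h' | h'
        · rw [h', hS.hat'.b₁]
        · exact (hS.hat'.b p.1 ⟨h, h'⟩).le
    have b2 := bfin_le p.1
    have b3 := bfin_nonneg p.1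
    have r := rsq1_z0 p.1
    have d' := (Geo.hδ' hS.par).1
    refine ⟨by linarith [hS.hat'.s₀.1], by linarith [hS.hat'.s₁.2], ?_, ?_⟩
    · rw [r]; linarith
    · rw [r]; nlinarith

/-- near the base arc the model map is the identity -/
theorem near_id (s : ℝ) : ∀ᶠ q in 𝓝 ((s, z0 s) : R4), hio H δ' κ β q = q := by
  have d' := Geo.hδ' hS.par
  have k0 := hS.par.k0
  have k1 := hS.par.k1
  have hg : Continuous (fun q : R4 => H.g (1, q)) :=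
    ((contDiff_dfam_inv H).comp (contDiff_prodMk_right (1 : ℝ))).continuous
  have h1 : 1 < rsq 1 (sgi κ β ((s, z0 s) : R4)) := by
    rw [Geo.rsq_sgi k0]
    have e2 : nsq (((s, z0 s) : R4).2 - P2 β) = bfin s ^ 2 + β ^ 2 := by
      show nsq (z0 s - P2 β) = _
      rw [Geo.z0_def, Geo.nsq_def]
      unfold P2
      simp
    rw [e2, lt_div_iff₀ (by positivity), one_mul]
    nlinarith [sq_nonneg (bfin s)]
  have h2 : 1 < rsq 1 (sgi κ β (H.g (1, ((s, z0 s) : R4)))) := by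
    rw [Geo.H_g_line hS.th]
    exact Geo.sgi_e1 hS.par s
  have h3 : ∀ᶠ q : R4 in 𝓝 ((s, z0 s) : R4), 1 < rsq 1 (sgi κ β q) :=
    (Geo.continuous_rsq_sgi κ β).continuousAt.eventually (Ioi_mem_nhds h1)
  have h4 : ∀ᶠ q : R4 in 𝓝 ((s, z0 s) : R4), 1 < rsq 1 (sgi κ β (H.g (1, q))) :=
    ((Geo.continuous_rsq_sgi κ β).comp hg).continuousAt.eventually (Ioi_mem_nhds h2)
  filter_upwards [h3, h4] with q hq3 hq4
  rw [hio_b (by linarith [d'.1]), Geo.rad2_fix d' k0 β (by linarith [d'.1]), H.fg]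

end

end IO1

theorem m_IO1 (hGH : StGH) : StIO1 := by
  intro G T T' δ δ' κ β c D D' H a b hS
  have hG : EmbOn I4 G (Reg δ') :=
    Pool.Agent.Helper70.BI.EmbOn.mono' hS.emb Geo.Reg_K3
  have hGi := IO1.injG hS
  have h := hGH G (hio H δ' κ β) (Reg δ') (IO1.BB δ' κ β c a b)
    (Geo.isCompact_Reg δ') (IO1.isClosed_BB δ' κ β c a b) hG
    (fun p hp => IO1.ld hS hp) (IO1.inj hS) (IO1.maps hS) (fun p hp => IO1.front hS hp)
  refine ⟨Pool.Agent.Helper70.BI.EmbOn.mono' h (IO1.sub hS), ?_, ?_⟩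
  · intro x hx
    rw [hS.hat'.U]
    by_cases hxR : x ∈ G '' Reg δ'
    · obtain ⟨p, hp, rfl⟩ := hxR
      have hv := IO1.val hS (IO1.good hS hp hx)
      unfold io
      rw [imp_image hGi hp]
      rintro ⟨w, hw, hwe⟩
      have h1 := hGi (Geo.wall_Reg hS.par hw) hv.1 hwe
      rw [← h1] at hv
      exact absurd hw.2.2.2 (not_le.2 hv.2)
    · unfold io
      rw [imp_off hxR]
      rintro ⟨w, hw, hwe⟩
      exact hx.1 ⟨w, Or.inl hw, hwe⟩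
  · intro x hx _
    obtain ⟨s, hs, hR⟩ := IO1.arc_pt hS hx
    obtain ⟨N, hN1, hN2, hN3⟩ := eventually_nhds_iff.1 (IO1.near_id hS s)
    have hcomp : IsCompact (Reg δ' \ N) := (Geo.isCompact_Reg δ').diff hN2
    have hcont : ContinuousOn G (Reg δ' \ N) := fun p hp =>
      ((hG.1 p hp.1).contMDiffAt.continuousAt).continuousWithinAt
    have hcl : IsClosed (G '' (Reg δ' \ N)) := (hcomp.image_of_continuousOn hcont).isClosed
    have hxn : x ∈ (G '' (Reg δ' \ N))ᶜ := by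
      rintro ⟨q, hq, hqx⟩
      have h1 := hGi hq.1 hR (hqx.trans hs)
      rw [h1] at hq
      exact hq.2 hN3
    filter_upwards [hcl.isOpen_compl.mem_nhds hxn] with y hy
    by_cases hyR : y ∈ G '' Reg δ'
    · obtain ⟨q, hq, rfl⟩ := hyR
      unfold io
      rw [imp_image hGi hq]
      have hqN : q ∈ N := by
        by_contra h1
        exact hy ⟨q, ⟨hq, h1⟩, rfl⟩
      rw [hN1 q hqN]
    · unfold io
      exact imp_off hyR

end Pool.Agent.Helper27.S5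


end
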