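import Pool.Agent.Helper65.Barb.Defs
import Pool.Agent.Helper70.BI.C.P37
import Pool.Agent.Helper70.BI.C.P41

/-!
# Project BI (MP_8e98f2_gt): collected modules, part 71

The contents of the modules
* Helper7.BI5.M_IO3
* Helper73.BI5.M_D2
* Helper85.BI5.M_SHAT
* Helper99.BI5.M_JO

in one file, so that the whole proof builds in a short time.
-/

namespace Pool.Agent.Helper18.BI
end Pool.Agent.Helper18.BI

namespace Pool.Agent.Helper27.BI
end Pool.Agent.Helper27.BI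

namespace Pool.Agent.Helper27.H
end Pool.Agent.Helper27.H

namespace Pool.Agent.Helper34.BI
end Pool.Agent.Helper34.BI

namespace Pool.Agent.Helper65.Barb
end Pool.Agent.Helper65.Barb

namespace Pool.Agent.Helper70.BI
end Pool.Agent.Helper70.BI


/-! ## Helper7.BI5.M_IO3 -/

section

/-!
# Project BI, stage 5, module IO3: `io` is homotopic to the inclusion in the complement of the wall
-/

set_option autoImplicit false
set_option linter.unusedSectionVars false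

open scoped Manifold ContDiff Topology ComplexConjugate
open Set Filter Pool.Agent.Helper65.Barb Pool.Agent.Helper18.BI
open Pool.Agent.Helper70.BI (I4 LD NearEq ld_iff contDiff_dfam contDiff_dfam_inv)
open Pool.Agent.Helper34.BI (rade qe)
open Pool.Agent.Helper27.BI (e1 imp_image imp_off)
open Pool.Agent.Helper27.H

namespace Pool.Agent.Helper27.S5

namespace IO3

/-- near the image of `D` the transported family is `G ∘ h ∘ G⁻¹` -/
theorem near {G : R4 → R4} {h : ℝ × R4 → R4} {D : Set R4}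
    (hGI : InjOn G D) (Φ : PartialDiffeomorph 𝓘(ℝ, R4) I4 R4 R4 ∞) (hΦ1 : D ⊆ Φ.source)
    (hΦ2 : ∀ p ∈ Φ.source, Φ p = G p) {t : ℝ} {y : R4} (hy : y ∈ Φ.target)
    (hf : Φ.symm y ∉ D → h (t, Φ.symm y) = Φ.symm y) :
    imp G D (fun p => h (t, p)) y = G (h (t, Φ.symm y)) := by
  have hs : Φ.symm y ∈ Φ.source := Φ.map_target hy
  have h4 : G (Φ.symm y) = y := by
    rw [← hΦ2 _ hs]
    exact Φ.right_inv hy
  by_cases hD : Φ.symm y ∈ D
  · have h5 : imp G D (fun p => h (t, p)) (G (Φ.symm y)) = G (h (t, Φ.symm y)) :=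
      imp_image hGI hD
    rw [h4] at h5
    exact h5
  · rw [hf hD, h4]
    apply imp_off
    rintro ⟨r, hr, hrz⟩
    have hr1 : r ∈ Φ.source := hΦ1 hr
    have h6 : Φ r = y := by rw [hΦ2 r hr1, hrz]
    have h7 : Φ.symm y = r := by rw [← h6]; exact Φ.left_inv hr1
    rw [h7] at hD
    exact hD hr

/-- continuity of a transported homotopy -/
theorem cont_imp {G : R4 → R4} {h : ℝ × R4 → R4} {D B : Set R4} {I : Set ℝ} (hD : IsCompact D)
    (hG : EmbOn I4 G D) (h1 : ∀ t ∈ I, ∀ p ∈ D \ B, ContinuousAt h (t, p))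
    (h2 : ∀ t ∈ I, ∀ p ∈ D \ B, h (t, p) ∈ D)
    (h3 : ∀ t ∈ I, ∀ p ∈ D \ B, ∀ᶠ z : ℝ × R4 in 𝓝 (t, p), z.2 ∉ D → h z = z.2) :
    ContinuousOn (fun w : ℝ × R4 => imp G D (fun p => h (w.1, p)) w.2)
      (I ×ˢ (G '' (D ∩ B))ᶜ) := by
  obtain ⟨Φ, hΦ1, hΦ2⟩ := hA1 R4 R4 R4 I4 R4 G D hD hG.1 hG.2
  have hGc : ContinuousOn G D := fun p hp =>
    ((hG.1 p hp).contMDiffAt.continuousAt).continuousWithinAt
  have hGDc : IsClosed (G '' D) := (hD.image_of_continuousOn hGc).isClosed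
  rintro ⟨t, y⟩ ⟨ht, hy⟩
  apply ContinuousAt.continuousWithinAt
  by_cases hyD : y ∈ G '' D
  · obtain ⟨p, hp, hpy⟩ := hyD
    have hpB : p ∉ B := fun hb => hy ⟨p, ⟨hp, hb⟩, hpy⟩
    have hps : p ∈ Φ.source := hΦ1 hp
    have hΦp : Φ p = y := by rw [hΦ2 p hps, hpy]
    have hyt : y ∈ Φ.target := hΦp ▸ Φ.map_source hps
    have hsy : Φ.symm y = p := by
      rw [← hΦp]
      exact Φ.left_inv hps
    have hsymm : ContinuousAt Φ.symm y :=
      (Φ.contMDiffOn_invFun.contMDiffAt (Φ.open_target.mem_nhds hyt)).continuousAt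
    have c1 : ContinuousAt (fun w : ℝ × R4 => ((w.1, Φ.symm w.2) : ℝ × R4)) (t, y) := by
      apply ContinuousAt.prodMk continuousAt_fst
      exact ContinuousAt.comp (f := fun w : ℝ × R4 => w.2) (x := (t, y)) hsymm continuousAt_snd
    have e0 : ((t, Φ.symm y) : ℝ × R4) = (t, p) := by rw [hsy]
    have c2 : ∀ᶠ w : ℝ × R4 in 𝓝 (t, y), w.2 ∈ Φ.target :=
      continuousAt_snd.eventually (Φ.open_target.mem_nhds hyt)
    have c4 : ∀ᶠ w : ℝ × R4 in 𝓝 (t, y), Φ.symm w.2 ∉ D → h (w.1, Φ.symm w.2) = Φ.symm w.2 := by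
      apply c1.eventually (p := fun z : ℝ × R4 => z.2 ∉ D → h z = z.2)
      show ∀ᶠ z in 𝓝 ((t, Φ.symm y) : ℝ × R4), z.2 ∉ D → h z = z.2
      rw [e0]
      exact h3 t ht p ⟨hp, hpB⟩
    have c6 : ContinuousAt (fun w : ℝ × R4 => h (w.1, Φ.symm w.2)) (t, y) := by
      have k : ContinuousAt h (t, Φ.symm y) := by
        rw [e0]
        exact h1 t ht p ⟨hp, hpB⟩
      exact ContinuousAt.comp (f := fun w : ℝ × R4 => ((w.1, Φ.symm w.2) : ℝ × R4))
        (x := (t, y)) k c1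
    have c7 : ContinuousAt (fun w : ℝ × R4 => G (h (w.1, Φ.symm w.2))) (t, y) := by
      have k : ContinuousAt G (h (t, Φ.symm y)) := by
        rw [hsy]
        exact (hG.1 _ (h2 t ht p ⟨hp, hpB⟩)).contMDiffAt.continuousAt
      exact ContinuousAt.comp (f := fun w : ℝ × R4 => h (w.1, Φ.symm w.2)) (x := (t, y)) k c6
    refine c7.congr ?_
    filter_upwards [c2, c4] with v v2 v4
    exact (near hG.2 Φ hΦ1 hΦ2 v2 v4).symm
  · have c1 : ∀ᶠ w : ℝ × R4 in 𝓝 (t, y), w.2 ∉ G '' D :=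
      (continuousAt_snd (p := ((t, y) : ℝ × R4))).eventually (hGDc.isOpen_compl.mem_nhds hyD)
    refine (continuousAt_snd (p := ((t, y) : ℝ × R4))).congr ?_
    filter_upwards [c1] with v hv
    exact (imp_off hv).symm

theorem ev_lt {f : ℝ × R4 → ℝ} (hf : Continuous f) {z : ℝ × R4} {r : ℝ} (h : f z < r) :
    ∀ᶠ w in 𝓝 z, f w < r := (isOpen_lt hf continuous_const).mem_nhds h

theorem ev_gt {f : ℝ × R4 → ℝ} (hf : Continuous f) {z : ℝ × R4} {r : ℝ} (h : r < f z) :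
    ∀ᶠ w in 𝓝 z, r < f w := (isOpen_lt continuous_const hf).mem_nhds h

theorem nsq_conv {x y : R3} {t r : ℝ} (ht : t ∈ Icc (0 : ℝ) 1) (hx : nsq x ≤ r) (hy : nsq y ≤ r) :
    nsq ((1 - t) • x + t • y) ≤ r := by
  rw [Geo.nsq_def] at hx hy
  have e : nsq ((1 - t) • x + t • y) = ((1 - t) * x.1 + t * y.1) ^ 2 +
      ((1 - t) * x.2.re + t * y.2.re) ^ 2 + ((1 - t) * x.2.im + t * y.2.im) ^ 2 := by
    rw [Geo.nsq_def]
    simp
  rw [e]
  have key : ∀ u v : ℝ, ((1 - t) * u + t * v) ^ 2 ≤ (1 - t) * u ^ 2 + t * v ^ 2 := by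
    intro u v
    nlinarith [mul_nonneg (mul_nonneg ht.1 (sub_nonneg.2 ht.2)) (sq_nonneg (u - v))]
  have k1 := key x.1 y.1
  have k2 := key x.2.re y.2.re
  have k3 := key x.2.im y.2.im
  have k4 := mul_le_mul_of_nonneg_left hx (sub_nonneg.2 ht.2)
  have k5 := mul_le_mul_of_nonneg_left hy ht.1
  nlinarith

/-- the homotopy inside the second hole -/
noncomputable def hA (c : ℝ) (z : ℝ × R4) : R4 :=
  (z.2.1, z.2.2 - (min (2 * z.1) 1 * bfin z.2.1) • e1 -
    (max (2 * z.1 - 1) 0 * (1 - lam c z.2.1)) • (z.2.2 - e1))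

/-- the homotopy outside the second hole -/
noncomputable def hB (H : DFam 𝓘(ℝ, R4) R4) (δ κ β : ℝ) (z : ℝ × R4) : R4 :=
  H.f (1, (1 - z.1) • H.g (1, z.2) + z.1 • rad2 δ κ β (H.g (1, z.2)))

/-- the homotopy -/
noncomputable def hh (H : DFam 𝓘(ℝ, R4) R4) (c δ κ β : ℝ) (z : ℝ × R4) : R4 :=
  open Classical in if rsq 1 (sgi κ β z.2) < 1 / 25 - 2 * δ then hA c z else hB H δ κ β z

theorem continuous_lam (c : ℝ) : Continuous (lam c) := by
  unfold lam
  have hs : Continuous step := Real.smoothTransition.continuous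
  fun_prop

theorem continuous_hA (c : ℝ) : Continuous (hA c) := by
  have h1 := continuous_lam c
  have h2 : Continuous bfin := contDiff_bfin.continuous
  unfold hA
  fun_prop

theorem hh_a {H : DFam 𝓘(ℝ, R4) R4} {c δ κ β : ℝ} {z : ℝ × R4}
    (h : rsq 1 (sgi κ β z.2) < 1 / 25 - 2 * δ) : hh H c δ κ β z = hA c z := by
  unfold hh
  rw [if_pos h]

theorem hh_b {H : DFam 𝓘(ℝ, R4) R4} {c δ κ β : ℝ} {z : ℝ × R4}
    (h : ¬ rsq 1 (sgi κ β z.2) < 1 / 25 - 2 * δ) : hh H c δ κ β z = hB H δ κ β z := by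
  unfold hh
  rw [if_neg h]

/-- the exceptional set -/
def BB (δ κ β c a b : ℝ) : Set R4 :=
  wallS δ ∪ wall2 δ κ β ∪ {p | p.2 = z2 c β p.1 ∧ a ≤ p.1 ∧ p.1 ≤ b}

section sys
variable {G T T' : R4 → R4} {δ δ' κ β c : ℝ} {D D' : ArcD} {H : DFam 𝓘(ℝ, R4) R4} {a b : ℝ}
  (hS : Sys G T T' δ δ' κ β c D D' H a b)
include hS

theorem rsq_gt {p : R4} (h : p ∈ Reg δ' \ BB δ' κ β c a b) : 1 / 25 - δ' < rsq 1 p := by
  by_contra h1
  push Not at h1
  exact h.2 (Or.inl (Or.inl ⟨h.1.1, h.1.2.1, h.1.2.2.1, h1⟩))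

theorem sgi_or {p : R4} (h : p ∈ Reg δ' \ BB δ' κ β c a b) :
    rsq 1 (sgi κ β p) < 1 / 25 - 3 * δ' ∨ 1 / 25 - δ' < rsq 1 (sgi κ β p) := by
  by_contra h1
  push Not at h1
  exact h.2 (Or.inl (Or.inr ⟨h.1.1, h.1.2.1, h1.1, h1.2⟩))

theorem embReg : EmbOn I4 G (Reg δ') :=
  ⟨fun p hp => hS.emb.1 p (Geo.Reg_K3 hp), hS.emb.2.mono Geo.Reg_K3⟩

theorem pos_q {p : R4} (h : p ∈ Reg δ' \ BB δ' κ β c a b)
    (hb : 1 / 25 - δ' < rsq 1 (sgi κ β p)) : 0 < rsq 1 (sgi κ β (H.g (1, p))) := by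
  rw [Geo.sgi_pos_iff hS.par.k0]
  intro hq
  have e1' : H.g (1, p) = ((H.g (1, p)).1, P2 β) := Prod.ext rfl hq
  have e2 : p = ((H.g (1, p)).1, z2 c β (H.g (1, p)).1) := by
    rw [← Geo.H_P2 hS.th hS.par, ← e1', H.fg]
  have e3' := congrArg (fun r : R4 => r.1) e2
  have e3 : p.1 = (H.g (1, p)).1 := e3'
  rw [← e3] at e2
  by_cases hs : p.1 ∈ Icc a b
  · exact h.2 (Or.inr ⟨congrArg Prod.snd e2, hs.1, hs.2⟩)
  · have h1 := Geo.H_P2_out hS.th hS.par hS.mc (Geo.hδ' hS.par) hS.ab hs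
    rw [← e2] at h1
    exact absurd hb (not_lt.2 h1)

/-- the homotopy stays off the wall -/
theorem maps {t : ℝ} (ht : t ∈ Icc (0 : ℝ) 1) {p : R4} (h : p ∈ Reg δ' \ BB δ' κ β c a b) :
    hh H c δ' κ β (t, p) ∈ Reg δ' ∧ 1 / 25 - δ' < rsq 1 (hh H c δ' κ β (t, p)) := by
  have hp := hS.par
  have hd := Geo.hδ' hp
  have hpos : 0 < δ' := hd.1
  suffices hv : 0 ≤ (hh H c δ' κ β (t, p)).1 ∧ (hh H c δ' κ β (t, p)).1 ≤ 1 ∧
      1 / 25 - δ' < rsq 1 (hh H c δ' κ β (t, p)) ∧ rsq 1 (hh H c δ' κ β (t, p)) ≤ 49 / 100 by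
    exact ⟨⟨hv.1, hv.2.1, by linarith [hv.2.2.1], hv.2.2.2⟩, hv.2.2.1⟩
  rcases sgi_or hS h with h1 | h1
  · rw [hh_a (z := (t, p)) (show rsq 1 (sgi κ β p) < 1 / 25 - 2 * δ' by linarith)]
    refine ⟨h.1.1, h.1.2.1, ?_⟩
    obtain ⟨g1, g2, g3⟩ := Geo.comp hp (Geo.near_of hp (p := p) (by linarith))
    set u : ℝ := min (2 * t) 1 with hu
    set v : ℝ := max (2 * t - 1) 0 with hv
    have u0 : 0 ≤ u := le_min (by linarith [ht.1]) (by norm_num)
    have u1 : u ≤ 1 := min_le_right _ _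
    have v0 : 0 ≤ v := le_max_right _ _
    have v1 : v ≤ 1 := max_le (by linarith [ht.2]) (by norm_num)
    have l0 := Geo.lam_pos hS.mc p.1
    have l1 := Geo.lam_le hS.mc p.1
    set m : ℝ := 1 - v * (1 - lam c p.1) with hm
    have m0 : 0 < m := by
      have : v * (1 - lam c p.1) ≤ 1 * (1 - lam c p.1) :=
        mul_le_mul_of_nonneg_right v1 (by linarith)
      linarith
    have m1 : m ≤ 1 := by
      have := mul_nonneg v0 (sub_nonneg.2 l1)
      linarith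
    have e : rsq 1 (hA c (t, p)) = (m * (p.2.1 - 1) - u * bfin p.1) ^ 2 + (m * p.2.2.re) ^ 2 +
        (m * p.2.2.im) ^ 2 := by
      rw [Geo.rsq1]
      unfold hA
      simp only [Geo.e1_def, ← hu, ← hv, hm]
      simp
      ring
    rw [e]
    have e2 : nsq (p.2 - e1) = (p.2.1 - 1) ^ 2 + p.2.2.re ^ 2 + p.2.2.im ^ 2 := by
      rw [Geo.nsq_def, Geo.e1_def]
      simp
    rw [e2] at g3
    have b0 := bfin_nonneg p.1
    have b1 := bfin_le p.1
    have n1 := Geo.num_lo hp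
    have n2 := Geo.num_hi hp
    have n3 := Geo.num_k hp
    have k0 := hp.k0
    have a1 : |m * (p.2.1 - 1)| ≤ κ := by
      rw [abs_mul, abs_of_pos m0]
      calc m * |p.2.1 - 1| ≤ 1 * |p.2.1 - 1| := mul_le_mul_of_nonneg_right m1 (abs_nonneg _)
        _ ≤ κ := by rw [one_mul]; exact g1
    rw [abs_le] at a1
    obtain ⟨a1, a1'⟩ := a1
    have ub0 : 0 ≤ u * bfin p.1 := mul_nonneg u0 b0
    have ub1 : u * bfin p.1 ≤ 27 / 100 := by
      calc u * bfin p.1 ≤ 1 * bfin p.1 := mul_le_mul_of_nonneg_right u1 b0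
        _ ≤ 27 / 100 := by rw [one_mul]; exact b1
    constructor
    · by_cases hl : v * (1 - lam c p.1) = 0
      · have hm1 : m = 1 := by rw [hm, hl, sub_zero]
        rw [hm1, one_mul, one_mul, one_mul]
        have q1 : (β - κ) ^ 2 ≤ p.2.2.re ^ 2 := pow_le_pow_left₀ (by linarith [hp.k1]) g2 2
        have q2 := hp.lo
        have q3 := sq_nonneg (p.2.1 - 1 - u * bfin p.1)
        have q4 := sq_nonneg p.2.2.im
        linarith
      · have hl1 : lam c p.1 ≠ 1 := by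
          intro hl1
          exact hl (by rw [hl1, sub_self, mul_zero])
        have hv0 : v ≠ 0 := by
          intro hv0
          exact hl (by rw [hv0, zero_mul])
        have ht2 : 0 < 2 * t - 1 := by
          by_contra hcon
          push Not at hcon
          exact hv0 (by rw [hv]; exact max_eq_right hcon)
        have hu1 : u = 1 := by rw [hu]; exact min_eq_right (by linarith)
        rw [hu1, one_mul, Geo.bfin_of_lam hl1]
        have q1 : (1 / 4) ^ 2 ≤ (m * (p.2.1 - 1) - 27 / 100) ^ 2 := by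
          rw [← neg_sq (m * (p.2.1 - 1) - 27 / 100)]
          exact pow_le_pow_left₀ (by norm_num) (by linarith) 2
        have q3 := sq_nonneg (m * p.2.2.re)
        have q4 := sq_nonneg (m * p.2.2.im)
        norm_num at q1
        linarith
    · have a2 : (m * (p.2.1 - 1) - u * bfin p.1) ^ 2 ≤ (3 / 10) ^ 2 := by
        apply sq_le_sq'
        · linarith
        · linarith
      have a3 : (m * p.2.2.re) ^ 2 + (m * p.2.2.im) ^ 2 ≤ 1 / 25 := by
        have q0 : (β + κ) ^ 2 ≤ 1 / 25 := by linarith [hp.hi, hp.d0]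
        have q1 : p.2.2.re ^ 2 + p.2.2.im ^ 2 ≤ 1 / 25 := by
          linarith [sq_nonneg (p.2.1 - 1)]
        have q2 : m ^ 2 ≤ 1 := pow_le_one₀ m0.le m1
        have q3 : (m * p.2.2.re) ^ 2 + (m * p.2.2.im) ^ 2 =
            m ^ 2 * (p.2.2.re ^ 2 + p.2.2.im ^ 2) := by ring
        rw [q3]
        calc m ^ 2 * (p.2.2.re ^ 2 + p.2.2.im ^ 2) ≤
              1 * (p.2.2.re ^ 2 + p.2.2.im ^ 2) :=
              mul_le_mul_of_nonneg_right q2 (by positivity)
          _ ≤ 1 / 25 := by rw [one_mul]; exact q1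
      norm_num at a2
      linarith
  · rw [hh_b (z := (t, p)) (show ¬ rsq 1 (sgi κ β p) < 1 / 25 - 2 * δ' by linarith)]
    unfold hB
    show 0 ≤ (H.f (1, (1 - t) • H.g (1, p) + t • rad2 δ' κ β (H.g (1, p)))).1 ∧ _
    obtain ⟨r1, r2, r3⟩ := Geo.H_reg_g hS.th (t := 1) h.1.1 h.1.2.1 h.1.2.2.2
    rcases le_or_gt (1 / 25 - δ') (rsq 1 (sgi κ β (H.g (1, p)))) with h2 | h2
    · rw [Geo.rad2_fix hd hp.k0 β h2, ← add_smul, sub_add_cancel, one_smul, H.fg]
      exact ⟨h.1.1, h.1.2.1, rsq_gt hS h, h.1.2.2.2⟩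
    · have hq := pos_q hS h h1
      have k1 : nsq ((H.g (1, p)).2 - P2 β) ≤ κ ^ 2 := Geo.near_of hp (by linarith)
      have k2 : nsq ((rad2 δ' κ β (H.g (1, p))).2 - P2 β) ≤ κ ^ 2 :=
        Geo.near_of hp (by linarith [Geo.rad2_le hd hp.k0 β hq h2.le])
      set w : R4 := (1 - t) • H.g (1, p) + t • rad2 δ' κ β (H.g (1, p)) with hw
      have w1 : w.1 = (H.g (1, p)).1 := by
        rw [hw]
        show (1 - t) * (H.g (1, p)).1 + t * (rad2 δ' κ β (H.g (1, p))).1 = _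
        rw [Geo.rad2_fst]
        ring
      have w2 : nsq (w.2 - P2 β) ≤ κ ^ 2 := by
        have e : w.2 - P2 β = (1 - t) • ((H.g (1, p)).2 - P2 β) +
            t • ((rad2 δ' κ β (H.g (1, p))).2 - P2 β) := by
          rw [hw]
          show (1 - t) • (H.g (1, p)).2 + t • (rad2 δ' κ β (H.g (1, p))).2 - P2 β = _
          rw [smul_sub, smul_sub, sub_smul, sub_smul, one_smul, one_smul]
          abel
        rw [e]
        exact nsq_conv ht k1 k2
      obtain ⟨v1, v2⟩ := Geo.H_near_rsq hS.th hp hS.mc w2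
      have v3 : (H.f (1, w)).1 = w.1 := by rw [Geo.H_near hS.th hp w2]
      rw [v3, w1]
      exact ⟨r1, r2, v1, v2⟩

theorem cont_at (t : ℝ) {p : R4} (h : p ∈ Reg δ' \ BB δ' κ β c a b) :
    ContinuousAt (hh H c δ' κ β) (t, p) := by
  have hp := hS.par
  have hd := Geo.hδ' hp
  have hpos : 0 < δ' := hd.1
  have hc : Continuous (fun z : ℝ × R4 => rsq 1 (sgi κ β z.2)) :=
    (Geo.continuous_rsq_sgi κ β).comp continuous_snd
  rcases sgi_or hS h with h1 | h1
  · have h2 : ∀ᶠ z : ℝ × R4 in 𝓝 (t, p), rsq 1 (sgi κ β z.2) < 1 / 25 - 2 * δ' :=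
      ev_lt hc (show rsq 1 (sgi κ β p) < 1 / 25 - 2 * δ' by linarith)
    refine (continuous_hA c).continuousAt.congr ?_
    filter_upwards [h2] with z hz
    exact (hh_a hz).symm
  · have h2 : ∀ᶠ z : ℝ × R4 in 𝓝 (t, p), 1 / 25 - 2 * δ' < rsq 1 (sgi κ β z.2) :=
      ev_gt hc (show 1 / 25 - 2 * δ' < rsq 1 (sgi κ β p) by linarith)
    have c1 : Continuous (fun z : ℝ × R4 => H.g (1, z.2)) :=
      (contDiff_dfam_inv H).continuous.comp (continuous_const.prodMk continuous_snd)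
    have c2 : ContinuousAt (rad2 δ' κ β) (H.g (1, p)) :=
      (((Geo.rad2_emb hd hp.k0 β).1 _ (pos_q hS h h1)).contMDiffAt).continuousAt
    have c3 : ContinuousAt (fun z : ℝ × R4 => rad2 δ' κ β (H.g (1, z.2))) (t, p) :=
      ContinuousAt.comp (f := fun z : ℝ × R4 => H.g (1, z.2)) (x := (t, p)) c2 c1.continuousAt
    have c4 : ContinuousAt (fun z : ℝ × R4 => (1 - z.1) • H.g (1, z.2) +
        z.1 • rad2 δ' κ β (H.g (1, z.2))) (t, p) := by
      have k1 : ContinuousAt (fun z : ℝ × R4 => 1 - z.1) (t, p) :=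
        (continuous_const.sub continuous_fst).continuousAt
      have k2 : ContinuousAt (fun z : ℝ × R4 => z.1) (t, p) := continuous_fst.continuousAt
      exact (k1.smul c1.continuousAt).add (k2.smul c3)
    have c5 : ContinuousAt (hB H δ' κ β) (t, p) := by
      have k : Continuous (fun q : R4 => H.f (1, q)) :=
        (contDiff_dfam H).continuous.comp (continuous_const.prodMk continuous_id)
      exact ContinuousAt.comp (g := fun q : R4 => H.f (1, q)) (x := (t, p)) k.continuousAt c4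
    refine c5.congr ?_
    filter_upwards [h2] with z hz
    exact (hh_b (not_lt.2 hz.le)).symm

theorem ev_fix (t : ℝ) {p : R4} (h : p ∈ Reg δ' \ BB δ' κ β c a b) :
    ∀ᶠ z : ℝ × R4 in 𝓝 (t, p), z.2 ∉ Reg δ' → hh H c δ' κ β z = z.2 := by
  have hp := hS.par
  have hd := Geo.hδ' hp
  have hpos : 0 < δ' := hd.1
  have hc : Continuous (fun z : ℝ × R4 => rsq 1 (sgi κ β z.2)) :=
    (Geo.continuous_rsq_sgi κ β).comp continuous_snd
  have hr : Continuous (fun z : ℝ × R4 => rsq 1 z.2) := Geo.continuous_rsq1.comp continuous_snd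
  have h3 : ∀ᶠ z : ℝ × R4 in 𝓝 (t, p), 1 / 25 - 3 * δ' < rsq 1 z.2 :=
    ev_gt hr (show 1 / 25 - 3 * δ' < rsq 1 p by linarith [rsq_gt hS h])
  rcases sgi_or hS h with h1 | h1
  · have h2 : ∀ᶠ z : ℝ × R4 in 𝓝 (t, p), rsq 1 (sgi κ β z.2) < 1 / 25 - 2 * δ' :=
      ev_lt hc (show rsq 1 (sgi κ β p) < 1 / 25 - 2 * δ' by linarith)
    have h4 : ∀ᶠ z : ℝ × R4 in 𝓝 (t, p), rsq 1 z.2 < 49 / 100 := by
      apply ev_lt hr
      have := Geo.rsq_hi hp (Geo.near_of hp (p := p) (by linarith))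
      show rsq 1 p < 49 / 100
      linarith [hp.d0]
    filter_upwards [h2, h3, h4] with z z2' z3 z4 hz
    rw [hh_a z2']
    have hs : z.2.1 ≤ 0 ∨ 1 ≤ z.2.1 := by
      by_contra hcon
      push Not at hcon
      exact hz ⟨hcon.1.le, hcon.2.le, z3.le, z4.le⟩
    have b : bfin z.2.1 = 0 := bfin_out (by rcases hs with hs | hs
                                            · left; linarith
                                            · right; linarith)
    have l : lam c z.2.1 = 1 := Geo.lam_out c (by rcases hs with hs | hs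
                                                  · left; linarith
                                                  · right; linarith)
    unfold hA
    rw [b, l, mul_zero, zero_smul, sub_zero, sub_self, mul_zero, zero_smul, sub_zero]
  · have h2 : ∀ᶠ z : ℝ × R4 in 𝓝 (t, p), 1 / 25 - δ' < rsq 1 (sgi κ β z.2) :=
      ev_gt hc (show 1 / 25 - δ' < rsq 1 (sgi κ β p) by linarith)
    filter_upwards [h2, h3] with z z2' z3 hz
    rw [hh_b (by linarith)]
    have hs : z.2.1 ≤ 1 / 20 ∨ 19 / 20 ≤ z.2.1 ∨ 49 / 100 ≤ rsq 1 z.2 := by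
      by_contra hcon
      push Not at hcon
      exact hz ⟨by linarith [hcon.1], by linarith [hcon.2.1], z3.le, hcon.2.2.le⟩
    unfold hB
    rw [Geo.H_supp_g hS.th hs, Geo.rad2_fix hd hp.k0 β z2'.le, ← add_smul, sub_add_cancel,
      one_smul, hS.th.supp 1 _ hs]

theorem sub_BB {x : R4} (hx : x ∈ U2 G δ' κ β \ A2 G H β a b) :
    x ∉ G '' (Reg δ' ∩ BB δ' κ β c a b) := by
  rintro ⟨p, ⟨-, hpB⟩, rfl⟩
  rcases hpB with hpB | ⟨h1, h2, h3⟩
  · exact hx.1 ⟨p, hpB, rfl⟩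
  · refine hx.2 ⟨(p.1, P2 β), ⟨rfl, h2, h3⟩, ?_⟩
    show G (H.f (1, (p.1, P2 β))) = G p
    rw [Geo.H_P2 hS.th hS.par, ← h1]

theorem hh_zero {p : R4} : hh H c δ' κ β (0, p) = p := by
  by_cases h : rsq 1 (sgi κ β p) < 1 / 25 - 2 * δ'
  · rw [hh_a (z := (0, p)) h]
    unfold hA
    have e1' : min (2 * (0 : ℝ)) 1 = 0 := by norm_num
    have e2 : max (2 * (0 : ℝ) - 1) 0 = 0 := by norm_num
    simp only [e1', e2, zero_mul, zero_smul, sub_zero]
  · rw [hh_b (z := (0, p)) h]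
    unfold hB
    simp only [sub_zero, one_smul, zero_smul, add_zero]
    exact H.fg 1 p

theorem hh_one {p : R4} : hh H c δ' κ β (1, p) = hio H δ' κ β p := by
  have hp := hS.par
  have hd := Geo.hδ' hp
  have hpos : 0 < δ' := hd.1
  unfold hio
  by_cases h : rsq 1 (sgi κ β p) < 1 / 25 - 2 * δ'
  · rw [hh_a (z := (1, p)) h, if_pos h,
      Geo.H_near hS.th hp (Geo.near_of hp (p := p) (by linarith))]
    unfold hA
    have e1' : min (2 * (1 : ℝ)) 1 = 1 := by norm_num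
    have e2 : max (2 * (1 : ℝ) - 1) 0 = 1 := by norm_num
    simp only [e1', e2, one_mul]
    refine Prod.ext rfl ?_
    show p.2 - bfin p.1 • e1 - (1 - lam c p.1) • (p.2 - e1) =
      (1 - bfin p.1) • e1 + lam c p.1 • (p.2 - e1)
    rw [sub_smul, sub_smul, one_smul, one_smul]
    abel
  · rw [hh_b (z := (1, p)) h, if_neg h]
    unfold hB
    simp only [sub_self, zero_smul, one_smul, zero_add]

end sys

end IO3

open IO3 in
/-- **IO3.** -/
theorem m_IO3 : StIO3 := by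
  intro G T T' δ δ' κ β c D D' H a b hS
  have hp := hS.par
  have hd := Geo.hδ' hp
  have hpos : 0 < δ' := hd.1
  have hG := embReg hS
  refine ⟨fun z => imp G (Reg δ') (fun p => hh H c δ' κ β (z.1, p)) z.2, ?_, ?_, ?_⟩
  · refine (cont_imp (I := Icc (0 : ℝ) 1) (B := BB δ' κ β c a b) (Geo.isCompact_Reg δ') hG
      (fun t _ p h => cont_at hS t h) (fun t ht p h => (maps hS ht h).1)
      (fun t _ p h => ev_fix hS t h)).mono ?_
    rintro ⟨t, x⟩ ⟨ht, hx⟩
    exact ⟨ht, sub_BB hS hx⟩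
  · intro x hx
    by_cases hxR : x ∈ G '' Reg δ'
    · obtain ⟨p, hpR, rfl⟩ := hxR
      constructor
      · show imp G (Reg δ') (fun p => hh H c δ' κ β (0, p)) (G p) = G p
        rw [imp_image hG.2 hpR, hh_zero hS]
      · show imp G (Reg δ') (fun p => hh H c δ' κ β (1, p)) (G p) = io G H δ' κ β (G p)
        unfold io
        rw [imp_image hG.2 hpR, imp_image hG.2 hpR, hh_one hS]
    · constructor
      · exact imp_off hxR
      · show imp G (Reg δ') (fun p => hh H c δ' κ β (1, p)) x = io G H δ' κ β x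
        unfold io
        rw [imp_off hxR, imp_off hxR]
  · intro t ht x hx
    by_cases hxR : x ∈ G '' Reg δ'
    · obtain ⟨p, hpR, rfl⟩ := hxR
      have hpB : p ∈ Reg δ' \ BB δ' κ β c a b :=
        ⟨hpR, fun h => sub_BB hS hx ⟨p, ⟨hpR, h⟩, rfl⟩⟩
      have hv := maps hS ht hpB
      show imp G (Reg δ') (fun p => hh H c δ' κ β (t, p)) (G p) ∈ D'.U ∧
        (G p ∈ D'.A → imp G (Reg δ') (fun p => hh H c δ' κ β (t, p)) (G p) = G p)
      rw [imp_image hG.2 hpR]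
      constructor
      · rw [hS.hat'.U]
        rintro ⟨q, hq, hqe⟩
        have hqR : q ∈ Reg δ' := Geo.wall_Reg hp hq
        have e := hG.2 hqR hv.1 hqe
        rw [← e] at hv
        exact absurd hv.2 (not_lt.2 hq.2.2.2)
      · rintro ⟨r, hr, hre⟩
        rw [hS.hat'.J] at hre
        have hr2 : r.2 = 0 := hr.2.2
        have hre' : G (r.1, z0 r.1) = G p := by
          rw [← hre]
          show _ = G (r.1, z0 r.1 + r.2)
          rw [hr2, add_zero]
        have hb : 1 / 25 - δ' ≤ bfin r.1 ^ 2 := by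
          rcases hr.1.lt_or_eq with g1 | g1
          · rcases hr.2.1.lt_or_eq with g2 | g2
            · exact (hS.hat'.b _ ⟨g1, g2⟩).le
            · rw [g2]; exact hS.hat'.b₁.ge
          · rw [← g1]; exact hS.hat'.b₀.ge
        have e3 : rsq 1 ((r.1, z0 r.1) : R4) = bfin r.1 ^ 2 := by
          rw [Geo.rsq1, Geo.z0_def]
          simp
        have hrR : ((r.1, z0 r.1) : R4) ∈ Reg δ' := by
          refine ⟨?_, ?_, ?_, ?_⟩
          · have := hr.1; have := hS.hat'.s₀.1; show 0 ≤ r.1; linarith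
          · have := hr.2.1; have := hS.hat'.s₁.2; show r.1 ≤ 1; linarith
          · rw [e3]; linarith
          · rw [e3]
            have b0 := bfin_nonneg r.1
            have b1 := bfin_le r.1
            nlinarith
        have e4 : ((r.1, z0 r.1) : R4) = p := hG.2 hrR hpR hre'
        rw [← e4]
        have e5 : ¬ rsq 1 (sgi κ β ((r.1, z0 r.1) : R4)) < 1 / 25 - 2 * δ' := by
          rw [Geo.rsq_sgi hp.k0, not_lt, le_div_iff₀ (by have := hp.k0; positivity)]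
          have e6 : nsq (((r.1, z0 r.1) : R4).2 - P2 β) = bfin r.1 ^ 2 + β ^ 2 := by
            rw [Geo.nsq_def]
            show (z0 r.1 - P2 β).1 ^ 2 + (z0 r.1 - P2 β).2.re ^ 2 + (z0 r.1 - P2 β).2.im ^ 2 = _
            rw [Geo.z0_def]
            unfold P2
            simp
          rw [e6]
          have k0 := hp.k0
          have k1 := hp.k1
          have k2 : κ ^ 2 ≤ β ^ 2 := pow_le_pow_left₀ k0.le k1.le 2
          nlinarith [sq_nonneg (bfin r.1), sq_nonneg κ]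
        rw [hh_b (z := (t, (r.1, z0 r.1))) e5]
        unfold hB
        show G (H.f (1, (1 - t) • H.g (1, (r.1, z0 r.1)) +
          t • rad2 δ' κ β (H.g (1, (r.1, z0 r.1))))) = _
        rw [Geo.H_g_line hS.th, Geo.rad2_e1 hp, ← add_smul, sub_add_cancel, one_smul,
          hS.th.line]
    · have e : imp G (Reg δ') (fun p => hh H c δ' κ β (t, p)) x = x := imp_off hxR
      show imp G (Reg δ') (fun p => hh H c δ' κ β (t, p)) x ∈ D'.U ∧
        (x ∈ D'.A → imp G (Reg δ') (fun p => hh H c δ' κ β (t, p)) x = x)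
      rw [e]
      refine ⟨?_, fun _ => rfl⟩
      rw [hS.hat'.U]
      rintro ⟨q, hq, hqe⟩
      exact hx.1 ⟨q, Or.inl hq, hqe⟩

end Pool.Agent.Helper27.S5


end

/-! ## Helper73.BI5.M_D2 -/

section

/-!
# Project BI, stage 5: MODULE D2, the arc datum of the second wall
-/

set_option autoImplicit false
set_option linter.unusedSectionVars false

open scoped Manifold ContDiff Topology ComplexConjugate
open Set Filter Pool.Agent.Helper65.Barb Pool.Agent.Helper18.BI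
open Pool.Agent.Helper70.BI (I4 LD NearEq IsW embOn_comp ld_comp ld_iff)
open Pool.Agent.Helper34.BI (rade qe)
open Pool.Agent.Helper27.BI (e1)
open Pool.Agent.Helper27.H

namespace Pool.Agent.Helper27.S5

namespace D2

section mo
variable {δ' : ℝ} {H : DFam 𝓘(ℝ, R4) R4} {S' M M' : R4 → R4} (hM : MOk δ' H S' M M')
include hM

theorem M_inj {p q : R4} (h : M p = M q) : p = q := by
  rw [← hM.left p, h, hM.left]

theorem M'_inj {p q : R4} (h : M' p = M' q) : p = q := by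
  rw [← hM.right p, h, hM.right]

theorem M'_fix {p : R4} (h : M p = p) : M' p = p := by
  conv_lhs => rw [← h]
  exact hM.left p

theorem M_low {p : R4} (h : rsq 1 p < 1 / 25 - 3 * δ') : M p = p := by
  obtain ⟨ρ, hρ, h1⟩ := hM.low
  exact h1 p (by linarith)

/-- `M` preserves the region -/
theorem M_reg {p : R4} (h0 : 0 ≤ p.1) (h1 : p.1 ≤ 1) (h2 : rsq 1 p ≤ 49 / 100) :
    0 ≤ (M p).1 ∧ (M p).1 ≤ 1 ∧ rsq 1 (M p) ≤ 49 / 100 := by
  by_contra hcon
  have h3 : (M p).1 ≤ 1 / 20 ∨ 19 / 20 ≤ (M p).1 ∨ 49 / 100 ≤ rsq 1 (M p) := by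
    by_contra h4
    push Not at h4
    exact hcon ⟨by linarith [h4.1], by linarith [h4.2.1], h4.2.2.le⟩
  have h4 : M p = p := M_inj hM (hM.out _ h3)
  rw [h4] at hcon
  exact hcon ⟨h0, h1, h2⟩

/-- `M'` preserves the region -/
theorem M'_reg {p : R4} (h0 : 0 ≤ p.1) (h1 : p.1 ≤ 1) (h2 : rsq 1 p ≤ 49 / 100) :
    0 ≤ (M' p).1 ∧ (M' p).1 ≤ 1 ∧ rsq 1 (M' p) ≤ 49 / 100 := by
  by_contra hcon
  have h3 : (M' p).1 ≤ 1 / 20 ∨ 19 / 20 ≤ (M' p).1 ∨ 49 / 100 ≤ rsq 1 (M' p) := by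
    by_contra h4
    push Not at h4
    exact hcon ⟨by linarith [h4.1], by linarith [h4.2.1], h4.2.2.le⟩
  have h4 := hM.out _ h3
  rw [hM.right] at h4
  rw [← h4] at hcon
  exact hcon ⟨h0, h1, h2⟩

theorem M_Reg {p : R4} (h : p ∈ Reg δ') : M p ∈ Reg δ' := by
  obtain ⟨h0, h1, h2, h3⟩ := h
  obtain ⟨a0, a1, a2⟩ := M_reg hM h0 h1 h3
  refine ⟨a0, a1, ?_, a2⟩
  by_contra hc
  push Not at hc
  have h4 : M p = p := M_inj hM (M_low hM hc)
  rw [h4] at hc
  linarith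

theorem M'_Reg {p : R4} (h : p ∈ Reg δ') : M' p ∈ Reg δ' := by
  obtain ⟨h0, h1, h2, h3⟩ := h
  obtain ⟨a0, a1, a2⟩ := M'_reg hM h0 h1 h3
  refine ⟨a0, a1, ?_, a2⟩
  by_contra hc
  push Not at hc
  have h4 := M_low hM hc
  rw [hM.right] at h4
  rw [← h4] at hc
  linarith

end mo

section sh
variable {c : ℝ} {S S' : R4 → R4} (hS : SHat c S S')
include hS

theorem S_e1 (s : ℝ) : S (s, e1) = (s, z0 s) := by
  have h := hS.near s 0 (by simp [Geo.nsq_def])
  rw [add_zero, smul_zero, add_zero] at h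
  exact h

variable {δ δ' κ β : ℝ} (hp : Par δ δ' κ β) (hc : c ∈ Ioo (0 : ℝ) 1)
include hp

/-- points near the second hole are fixed by `S` -/
theorem S_near {p : R4} (h : nsq (p.2 - P2 β) ≤ κ ^ 2) : S p = p :=
  hS.thin p.1 p.2 fun _ _ => Geo.line_dist' hp h _

include hc

theorem S'_ne (s : ℝ) : 0 < rsq 1 (S' (s, z2 c β s)) := by
  rw [Geo.rsq1_pos_iff]
  intro h
  have h1 : S' (s, z2 c β s) = ((S' (s, z2 c β s)).1, e1) := Prod.ext rfl h
  have h2 := hS.right (s, z2 c β s)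
  rw [h1, S_e1 hS] at h2
  have h3 : (S' (s, z2 c β s)).1 = s := congrArg Prod.fst h2
  have h4 : z0 (S' (s, z2 c β s)).1 = z2 c β s := congrArg Prod.snd h2
  rw [h3] at h4
  have h5 := Geo.nsq_z20 c β s
  rw [← h4, sub_self] at h5
  have h6 : (lam c s * β) ^ 2 = 0 := by
    rw [← h5]
    simp [Geo.nsq_def]
  have h7 : 0 < lam c s * β := mul_pos (Geo.lam_pos hc s) (hp.k0.trans hp.k1)
  have h8 : 0 < (lam c s * β) ^ 2 := by positivity
  exact absurd h6 h8.ne'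

/-- the points of the second arc over the outer levels -/
theorem S'_out {s : ℝ} (h : s ≤ 7 / 20 ∨ 13 / 20 ≤ s) : S' (s, z2 c β s) = (s, z2 c β s) := by
  have h1 : S (s, z2 c β s) = (s, z2 c β s) := by
    apply hS.thin
    intro τ _
    have e : nsq (z2 c β s - (1 - τ * bfin s) • e1) =
        (1 - bfin s - (1 - τ * bfin s)) ^ 2 + (lam c s * β) ^ 2 := by
      rw [Geo.nsq_def, Geo.z2_def, Geo.e1_def]
      simp
    rw [e, Geo.lam_out c h, one_mul]
    have h2 := Geo.num_lo hp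
    have h3 := hp.k0
    nlinarith [sq_nonneg (1 - bfin s - (1 - τ * bfin s))]
  conv_lhs => rw [← h1]
  exact hS.left _

end sh

section par
variable {T : R4 → R4} {δ δ' κ β c : ℝ} {H : DFam 𝓘(ℝ, R4) R4} {S S' M M' : R4 → R4}
  (hp : Par δ δ' κ β) (hc : c ∈ Ioo (0 : ℝ) 1) (hH : THat T c H) (hS : SHat c S S')
  (hM : MOk δ' H S' M M')

theorem rsq_P2 (β s : ℝ) : rsq 1 (s, P2 β) = β ^ 2 := by
  rw [rsq1_eq]
  show nsq (P2 β - e1) = _
  rw [Geo.P2_sub, Geo.nsq_def]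
  simp

include hp

theorem P2_far (s : ℝ) : 1 / 25 - δ' < rsq 1 (s, P2 β) := by
  rw [rsq_P2]
  have h1 := hp.lo
  have h2 := hp.k0
  have h3 := hp.k1
  have h4 : (β - κ) ^ 2 ≤ β ^ 2 := by nlinarith
  linarith

theorem P2_Reg {s : ℝ} (h0 : 0 ≤ s) (h1 : s ≤ 1) : (s, P2 β) ∈ Reg δ' := by
  refine ⟨h0, h1, ?_, ?_⟩
  · linarith [P2_far hp s, (Geo.hδ' hp).1]
  · rw [rsq_P2]
    have h2 := Geo.num_hi hp
    have h3 := hp.k0
    have h4 := hp.k1
    nlinarith

include hc hH hS hM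

/-- the second arc -/
theorem m_eq (s : ℝ) : M (s, P2 β) = rade δ' 1 (S' (s, z2 c β s)) := by
  have h1 := hM.eq (s, P2 β) (by
    rw [rsq_P2]
    have := hp.k0
    have := hp.k1
    have : 0 < β := by linarith
    positivity)
  rwa [Geo.rade_fix (Geo.hδ' hp) (P2_far hp s).le, Geo.H_P2 hH hp] at h1

/-- (i) -/
theorem m_out {s : ℝ} (h : s ≤ 7 / 20 ∨ 13 / 20 ≤ s) : M (s, P2 β) = (s, z2 c β s) := by
  rw [m_eq hp hc hH hS hM, S'_out hS hp hc h]
  apply Geo.rade_fix (Geo.hδ' hp)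
  rw [Geo.rsq_z2, Geo.lam_out c h, one_mul]
  have h1 := hp.lo
  have h2 := hp.k0
  have h3 := hp.k1
  have h4 : (β - κ) ^ 2 ≤ β ^ 2 := by nlinarith
  nlinarith [sq_nonneg (bfin s)]

theorem m_out_rsq {s : ℝ} (h : s ≤ 7 / 20 ∨ 13 / 20 ≤ s) :
    rsq 1 (sgi κ β (M (s, P2 β))) = bfin s ^ 2 / κ ^ 2 := by
  rw [m_out hp hc hH hS hM h, Geo.rsq_sgi hp.k0]
  show nsq (z2 c β s - P2 β) / κ ^ 2 = _
  rw [Geo.nsq_z2, Geo.lam_out c h]
  ring

/-- (ii) -/
theorem m_mid {s : ℝ} (h : s ∈ Icc (3 / 10 : ℝ) (7 / 10)) :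
    1 / 25 - δ' < rsq 1 (sgi κ β (M (s, P2 β))) := by
  by_contra hcon
  push Not at hcon
  have hd := Geo.hδ' hp
  have h1 := Geo.near_of hp (hcon.trans (by linarith [hd.1]))
  have h2 := Geo.rsq_lo hp h1
  have h3 := m_eq hp hc hH hS hM s
  rw [h3] at h2
  have h4 := Geo.rade_out hd (S'_ne hS hp hc s) h2.le
  rw [h4] at h3
  have h5 := S_near hS hp h1
  rw [h3, hS.right] at h5
  have h6 : nsq (z2 c β s - P2 β) ≤ κ ^ 2 := by
    have : M (s, P2 β) = (s, z2 c β s) := by rw [h3, ← h5]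
    rw [this] at h1
    exact h1
  rw [Geo.nsq_z2, bfin_mid h] at h6
  have h7 := Geo.num_k hp
  have h8 := hp.k0
  have h9 : 0 ≤ (1 - lam c s) ^ 2 * β ^ 2 := by positivity
  nlinarith

variable {a b : ℝ} (hab : Arc2 δ' κ a b)
include hab

/-- the second arc is outside the second wall in the levels between `a` and `b` -/
theorem m_in {s : ℝ} (h : s ∈ Ioo a b) : 1 / 25 - δ' < rsq 1 (sgi κ β (M (s, P2 β))) := by
  by_cases h1 : s ∈ Icc (3 / 10 : ℝ) (7 / 10)
  · exact m_mid hp hc hH hS hM h1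
  · have h2 : s ≤ 7 / 20 ∨ 13 / 20 ≤ s := by
      by_contra h3
      push Not at h3
      exact h1 ⟨by linarith [h3.1], by linarith [h3.2]⟩
    rw [m_out_rsq hp hc hH hS hM h2, lt_div_iff₀ (by have := hp.k0; positivity)]
    have := hab.ins s h
    linarith

/-- the other points are in the second wall or the second hole -/
theorem m_off {s : ℝ} (h : s ∉ Ioo a b) : rsq 1 (sgi κ β (M (s, P2 β))) ≤ 1 / 25 - δ' := by
  have h1 := hab.out s h
  have k0 := hp.k0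
  have h2 : s ≤ 7 / 20 ∨ 13 / 20 ≤ s := by
    by_contra h3
    push Not at h3
    rw [bfin_mid ⟨by linarith [h3.1], by linarith [h3.2]⟩] at h1
    have h4 := Geo.num_k hp
    have hd := (Geo.hδ' hp)
    have h5 : κ ^ 2 ≤ (7 / 500) ^ 2 := by nlinarith
    nlinarith [hd.1, hd.2]
  rw [m_out_rsq hp hc hH hS hM h2, div_le_iff₀ (by positivity)]
  linarith

end par

end D2

/-- **D2.** -/
theorem m_D2 (hGH : StGH) : StD2 := by
  intro G T T' S S' M M' δ δ' κ β c D D' H a b hs hS hM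
  have hp := hs.par
  have hc := hs.mc
  have hH := hs.th
  have hab := hs.ab
  have hG := hs.emb
  have hd := Geo.hδ' hp
  have ha := hab.ma
  have hb := hab.mb
  have h01 : ∀ s ∈ Icc a b, 0 ≤ s ∧ s ≤ 1 := fun s h =>
    ⟨by linarith [h.1, ha.1], by linarith [h.2, hb.2]⟩
  have hmReg : ∀ s ∈ Icc a b, M (s, P2 β) ∈ Reg δ' := fun s h =>
    D2.M_Reg hM (D2.P2_Reg hp (h01 s h).1 (h01 s h).2)
  have hmK : ∀ s ∈ Icc a b, M (s, P2 β) ∈ K3 δ' := fun s h => Geo.Reg_K3 (hmReg s h)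
  have hcl : ContDiff ℝ ∞ (fun s : ℝ => ((s, P2 β) : R4)) := contDiff_id.prodMk contDiff_const
  have hm : ContDiff ℝ ∞ (fun s : ℝ => M (s, P2 β)) := hM.smooth.comp hcl
  obtain ⟨cc, hcc, hcG⟩ := exists_smooth_ext (f := fun s => G (M (s, P2 β))) (a := a) (b := b)
    (by linarith [ha.2, hb.1]) (by
      intro s hs'
      have h1 := (ld_iff.1 (hG.1 _ (hmK s hs'))).1
      have h2 : ContinuousAt (fun s : ℝ => M (s, P2 β)) s := hm.continuous.continuousAt
      filter_upwards [h2.eventually h1] with t ht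
      exact ht.comp t hm.contDiffAt)
  have hcG' : ∀ s ∈ Icc a b, cc s = G (M (s, P2 β)) := fun s hs => (hcG s hs).self_of_nhds
  have hwK : wall2 δ' κ β ⊆ K3 δ' := fun p h => Geo.Reg_K3 (Geo.wall2_Reg hp h)
  have hwc : IsCompact (wall2 δ' κ β) :=
    (Geo.isCompact_Reg δ').of_isClosed_subset (Geo.isClosed_wall2 δ' κ β) (Geo.wall2_Reg hp)
  have hga : a ∈ Icc a b := ⟨le_rfl, by linarith [ha.2, hb.1]⟩
  have hgb : b ∈ Icc a b := ⟨by linarith [ha.2, hb.1], le_rfl⟩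
  -- the two end points are in the wall
  have hend : ∀ s ∈ Icc a b, (s ≤ 7 / 20 ∨ 13 / 20 ≤ s) →
      bfin s ^ 2 = κ ^ 2 * (1 / 25 - δ') → cc s ∈ G '' wall2 δ' κ β := by
    intro s h1 h2 h3
    rw [hcG' s h1]
    refine ⟨_, ?_, rfl⟩
    have e : rsq 1 (sgi κ β (M (s, P2 β))) = 1 / 25 - δ' := by
      rw [D2.m_out_rsq hp hc hH hS hM h2, h3]
      have := hp.k0
      field_simp
    refine ⟨(hmReg s h1).1, (hmReg s h1).2.1, ?_, ?_⟩
    · rw [e]; linarith [hd.1]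
    · rw [e]
  have hemb : EmbOn I4 (imp G (Reg δ' \ hol δ' κ β) (fun p => rad2 δ' κ β (M' p)))
      (G '' ((Reg δ' \ hol δ' κ β) ∩
        (wall2 δ' κ β ∪ (fun s : ℝ => M (s, P2 β)) '' Icc a b)))ᶜ := by
    have key : ∀ p ∈ (Reg δ' \ hol δ' κ β) \
        (wall2 δ' κ β ∪ (fun s : ℝ => M (s, P2 β)) '' Icc a b),
        1 / 25 - δ' < rsq 1 (sgi κ β p) ∧ 0 < rsq 1 (sgi κ β (M' p)) := by
      rintro p ⟨⟨hpR, hph⟩, hpB⟩
      have h1 : 1 / 25 - δ' < rsq 1 (sgi κ β p) := by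
        by_contra h
        push Not at h
        apply hpB
        left
        refine ⟨hpR.1, hpR.2.1, ?_, h⟩
        by_contra h2
        exact hph ⟨hpR.1, hpR.2.1, not_le.1 h2⟩
      refine ⟨h1, ?_⟩
      rw [Geo.sgi_pos_iff hp.k0]
      intro h2
      have h3 : M' p = ((M' p).1, P2 β) := Prod.ext rfl h2
      have h4 : p = M ((M' p).1, P2 β) := by rw [← h3, hM.right]
      by_cases h5 : (M' p).1 ∈ Icc a b
      · exact hpB (Or.inr ⟨_, h5, h4.symm⟩)
      · have h6 := D2.m_off hp hc hH hS hM hab (s := (M' p).1)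
          (fun h => h5 ⟨h.1.le, h.2.le⟩)
        rw [← h4] at h6
        linarith
    apply hGH G _ _ _ (Geo.isCompact_Reg_hol δ' κ β)
    · exact (Geo.isClosed_wall2 δ' κ β).union (isCompact_Icc.image hm.continuous).isClosed
    · exact Pool.Agent.Helper27.BI.EmbOn.mono hG fun p h => Geo.Reg_K3 h.1
    · intro p hpp
      have l1 : LD M' p := Geo.ld_of_inv hM.smooth' hM.smooth hM.right hM.left p
      have l2 : LD (rad2 δ' κ β) (M' p) := (Geo.rad2_emb hd hp.k0 β).1 _ (key p hpp).2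
      have l3 : LD (rad2 δ' κ β ∘ M') p := ld_comp l1 l2
      exact l3
    · intro p hpp q hqq h
      exact D2.M'_inj hM ((Geo.rad2_emb hd hp.k0 β).2 (key p hpp).2 (key q hqq).2 h)
    · intro p hpp
      have hq := D2.M'_Reg hM hpp.1.1
      have hq0 := (key p hpp).2
      show rad2 δ' κ β (M' p) ∈ Reg δ' \ hol δ' κ β
      rcases le_or_gt (1 / 25 - δ') (rsq 1 (sgi κ β (M' p))) with h3 | h3
      · rw [Geo.rad2_fix hd hp.k0 β h3]
        exact ⟨hq, fun h => absurd h.2.2 (not_lt.2 (by linarith [hd.1]))⟩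
      · have h4 := Geo.rad2_le hd hp.k0 β hq0 h3.le
        have h5 := Geo.rad2_low hd hp.k0 β hq0
        refine ⟨Geo.near_Reg hp (Geo.near_of hp (by linarith [hd.1])) hq.1 hq.2.1, fun h => ?_⟩
        exact absurd h.2.2 (not_lt.2 h5)
    · intro p hpp
      have hev : ∀ᶠ q in 𝓝 p, 1 / 25 - δ' < rsq 1 (sgi κ β q) :=
        (Geo.continuous_rsq_sgi κ β).continuousAt.eventually (lt_mem_nhds (key p hpp).1)
      filter_upwards [hev] with q hq1 hq2
      have hq3 : q ∉ Reg δ' := fun h =>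
        hq2 ⟨h, fun h' => absurd h'.2.2 (not_lt.2 (by linarith [hd.1]))⟩
      have hq4 : M q = q := by
        by_cases h1 : rsq 1 q < 1 / 25 - 3 * δ'
        · exact D2.M_low hM h1
        · apply hM.out
          by_contra h2
          push Not at h2
          exact hq3 ⟨by linarith [h2.1], by linarith [h2.2.1], not_lt.1 h1, h2.2.2.le⟩
      show rad2 δ' κ β (M' q) = q
      rw [D2.M'_fix hM hq4]
      exact Geo.rad2_fix hd hp.k0 β hq1.le
  refine ⟨⟨(G '' wall2 δ' κ β)ᶜ, a, 9 / 20, 11 / 20, b, fun p => G (M (p.1, P2 β + p.2)), cc,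
    imp G (Reg δ' \ hol δ' κ β) (fun p => rad2 δ' κ β (M' p)), ?_, by linarith [ha.2],
    by norm_num, by linarith [hb.1], hcc, ?_, ?_, ?_, ?_, ?_, ?_⟩, rfl, rfl, rfl, rfl, rfl, rfl,
    rfl⟩
  · have h1 : ContinuousOn G (wall2 δ' κ β) := fun p hpp =>
      ((ld_iff.1 (hG.1 p (hwK hpp))).1.self_of_nhds.continuousAt).continuousWithinAt
    exact (hwc.image_of_continuousOn h1).isClosed.isOpen_compl
  · intro s hs'
    show G (M (s, P2 β + 0)) = cc s
    rw [add_zero, hcG' s hs']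
  · have l1 : EmbOn I4 M univ :=
      ⟨fun p _ => Geo.ld_of_inv hM.smooth hM.smooth' hM.left hM.right p,
        fun p _ q _ h => D2.M_inj hM h⟩
    have l2 : EmbOn I4 (shr fun _ => P2 β) (seg a b) := embOn_shr contDiff_const _
    have l3 : EmbOn I4 (M ∘ shr fun _ => P2 β) (seg a b) := embOn_comp l1 l2 fun _ _ => mem_univ _
    have l4 : EmbOn I4 (G ∘ (M ∘ shr fun _ => P2 β)) (seg a b) := by
      apply embOn_comp hG l3
      rintro ⟨s, y⟩ ⟨h1, h2, h3⟩
      have h3' : y = 0 := h3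
      subst h3'
      show M (s, P2 β + 0) ∈ K3 δ'
      rw [add_zero]
      exact hmK s ⟨h1, h2⟩
    exact l4
  · intro s hs' h
    obtain ⟨p, hpw, hpe⟩ := h
    rw [hcG' s ⟨hs'.1.le, hs'.2.le⟩] at hpe
    have h1 := hG.2 (hwK hpw) (hmK s ⟨hs'.1.le, hs'.2.le⟩) hpe
    have h2 := D2.m_in hp hc hH hS hM hab hs'
    rw [← h1] at h2
    exact absurd h2 (not_lt.2 hpw.2.2.2)
  · exact fun h => h (hend a hga (Or.inl (by linarith [ha.2])) hab.ea)
  · exact fun h => h (hend b hgb (Or.inr (by linarith [hb.1])) hab.eb)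
  · apply Pool.Agent.Helper27.BI.EmbOn.mono hemb
    rintro y ⟨hy1, hy2⟩ ⟨p, ⟨hp1, hp2 | ⟨s, hs', hs''⟩⟩, rfl⟩
    · exact hy1 ⟨p, hp2, rfl⟩
    · apply hy2
      refine ⟨(s, 0), ⟨hs'.1, hs'.2, rfl⟩, ?_⟩
      show G (M (s, P2 β + 0)) = G p
      rw [add_zero]
      exact congrArg G hs''

end Pool.Agent.Helper27.S5


end

/-! ## Helper85.BI5.M_SHAT -/

section

/-!
# Project BI, stage 5, module SHAT: a thin finger push shrunk by the factor `lam c s`
-/

set_option autoImplicit false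

open scoped Manifold ContDiff Topology ComplexConjugate
open Set Filter Pool.Agent.Helper65.Barb Pool.Agent.Helper18.BI
open Pool.Agent.Helper70.BI (I4 LD NearEq)
open Pool.Agent.Helper27.BI (e1)
open Pool.Agent.Helper27.H

namespace Pool.Agent.Helper27.S5

namespace SHAT

theorem contDiff_lam (c : ℝ) : ContDiff ℝ ∞ (lam c) := by
  have h1 : ContDiff ℝ ∞ (fun s : ℝ => step ((s - 7 / 20) / (2 / 25))) :=
    contDiff_step.comp ((contDiff_id.sub contDiff_const).div_const _)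
  have h2 : ContDiff ℝ ∞ (fun s : ℝ => step ((13 / 20 - s) / (2 / 25))) :=
    contDiff_step.comp ((contDiff_const.sub contDiff_id).div_const _)
  exact contDiff_const.sub (contDiff_const.mul (h1.mul h2))

theorem lam_mem {c : ℝ} (hc : c ∈ Ioo (0 : ℝ) 1) (s : ℝ) : c ≤ lam c s ∧ lam c s ≤ 1 := by
  have h1 := step_mem ((s - 7 / 20) / (2 / 25))
  have h2 := step_mem ((13 / 20 - s) / (2 / 25))
  have h3 : 0 ≤ step ((s - 7 / 20) / (2 / 25)) * step ((13 / 20 - s) / (2 / 25)) :=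
    mul_nonneg h1.1 h2.1
  have h4 : step ((s - 7 / 20) / (2 / 25)) * step ((13 / 20 - s) / (2 / 25)) ≤ 1 :=
    mul_le_one₀ h1.2 h2.1 h2.2
  obtain ⟨hc0, hc1⟩ := hc
  unfold lam
  constructor <;> nlinarith

theorem lam_out (c : ℝ) {s : ℝ} (h : s ≤ 7 / 20 ∨ 13 / 20 ≤ s) : lam c s = 1 := by
  unfold lam
  rcases h with h | h
  · rw [step_of_nonpos (s := (s - 7 / 20) / (2 / 25))
      (div_nonpos_of_nonpos_of_nonneg (by linarith) (by norm_num))]
    ring
  · rw [step_of_nonpos (s := (13 / 20 - s) / (2 / 25))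
      (div_nonpos_of_nonpos_of_nonneg (by linarith) (by norm_num))]
    ring

/-- the germs -/
noncomputable def Jg (c w : ℝ) (p : R4) : R4 :=
  (p.1, e1 + (1 - w + w * lam c p.1) • (p.2 - e1))

/-- the inverses of the germs -/
noncomputable def Jgi (c w : ℝ) (p : R4) : R4 :=
  (p.1, e1 + (1 - w + w * lam c p.1)⁻¹ • (p.2 - e1))

theorem contDiff_J2 (c : ℝ) :
    ContDiff ℝ ∞ (fun z : (ℝ × ℝ) × R4 => Jg c z.1.2 z.2) := by
  have hw : ContDiff ℝ ∞ (fun z : (ℝ × ℝ) × R4 => z.1.2) := contDiff_snd.comp contDiff_fst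
  have hs : ContDiff ℝ ∞ (fun z : (ℝ × ℝ) × R4 => z.2.1) := contDiff_fst.comp contDiff_snd
  have hx : ContDiff ℝ ∞ (fun z : (ℝ × ℝ) × R4 => z.2.2) := contDiff_snd.comp contDiff_snd
  have hl : ContDiff ℝ ∞ (fun z : (ℝ × ℝ) × R4 => lam c z.2.1) := (contDiff_lam c).comp hs
  exact hs.prodMk (contDiff_const.add
    (((contDiff_const.sub hw).add (hw.mul hl)).smul (hx.sub contDiff_const)))

theorem contDiff_J (c w : ℝ) : ContDiff ℝ ∞ (Jg c w) := by
  have h := (contDiff_J2 c).comp (f := fun p : R4 => (((0 : ℝ), w), p))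
    (contDiff_const.prodMk contDiff_id)
  exact h

theorem fac_pos {c : ℝ} (hc : c ∈ Ioo (0 : ℝ) 1) {w : ℝ} (hw : w ∈ Icc (0 : ℝ) 1) (s : ℝ) :
    0 < 1 - w + w * lam c s := by
  have h1 := lam_mem hc s
  obtain ⟨hw0, hw1⟩ := hw
  have hc0 := hc.1
  nlinarith

theorem fac_le {c : ℝ} (hc : c ∈ Ioo (0 : ℝ) 1) {w : ℝ} (hw : w ∈ Icc (0 : ℝ) 1) (s : ℝ) :
    1 - w + w * lam c s ≤ 1 := by
  have h1 := lam_mem hc s
  obtain ⟨hw0, hw1⟩ := hw
  nlinarith

theorem contDiff_Ji {c : ℝ} (hc : c ∈ Ioo (0 : ℝ) 1) {w : ℝ} (hw : w ∈ Icc (0 : ℝ) 1) :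
    ContDiff ℝ ∞ (Jgi c w) := by
  have hs : ContDiff ℝ ∞ (fun z : R4 => z.1) := contDiff_fst
  have hx : ContDiff ℝ ∞ (fun z : R4 => z.2) := contDiff_snd
  have hl : ContDiff ℝ ∞ (fun z : R4 => lam c z.1) := (contDiff_lam c).comp hs
  have hm : ContDiff ℝ ∞ (fun z : R4 => (1 - w + w * lam c z.1)⁻¹) :=
    (contDiff_const.add (contDiff_const.mul hl)).inv (fun z => (fac_pos hc hw z.1).ne')
  exact hs.prodMk (contDiff_const.add (hm.smul (hx.sub contDiff_const)))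

theorem Ji_J {c : ℝ} (hc : c ∈ Ioo (0 : ℝ) 1) {w : ℝ} (hw : w ∈ Icc (0 : ℝ) 1) (p : R4) :
    Jgi c w (Jg c w p) = p := by
  have h := (fac_pos hc hw p.1).ne'
  unfold Jgi Jg
  simp only [add_sub_cancel_left]
  rw [smul_smul, inv_mul_cancel₀ h, one_smul, add_sub_cancel]

theorem emb_J {c : ℝ} (hc : c ∈ Ioo (0 : ℝ) 1) {w : ℝ} (hw : w ∈ Icc (0 : ℝ) 1) (L : Set R4) :
    EmbOn I4 (Jg c w) L := by
  rw [Pool.Agent.Helper70.BI.embOn_iff]
  refine ⟨fun p _ => ⟨Eventually.of_forall fun q => (contDiff_J c w).contDiffAt, ?_⟩, ?_⟩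
  · have h1 : DifferentiableAt ℝ (Jg c w) p :=
      (contDiff_J c w).contDiffAt.differentiableAt (by simp)
    have h2 : DifferentiableAt ℝ (Jgi c w) (Jg c w p) :=
      (contDiff_Ji hc hw).contDiffAt.differentiableAt (by simp)
    have h3 := fderiv_comp p h2 h1
    have h4 : Jgi c w ∘ Jg c w = id := funext fun q => Ji_J hc hw q
    rw [h4, fderiv_id] at h3
    intro x y hxy
    have h5 : (ContinuousLinearMap.id ℝ R4) x = (ContinuousLinearMap.id ℝ R4) y := by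
      rw [h3, ContinuousLinearMap.comp_apply, ContinuousLinearMap.comp_apply, hxy]
    exact h5
  · intro p _ q _ hpq
    rw [← Ji_J hc hw p, ← Ji_J hc hw q, hpq]

/-- the tube around the line over `e1` -/
def Lt : Set R4 := {p | 3 / 10 ≤ p.1 ∧ p.1 ≤ 7 / 10 ∧ nsq (p.2 - e1) ≤ (1 / 200) ^ 2}

/-- the open tube which contains the support -/
def Ut : Set R4 := {p | 3 / 10 < p.1 ∧ p.1 < 7 / 10 ∧ nsq (p.2 - e1) < (1 / 100) ^ 2}

/-- the frozen part -/
def Vt : Set R4 := {p | p.1 < 7 / 20 ∨ 13 / 20 < p.1}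

theorem continuous_nsq : Continuous nsq := by
  unfold nsq
  fun_prop

theorem continuous_d : Continuous (fun p : R4 => nsq (p.2 - e1)) :=
  continuous_nsq.comp (continuous_snd.sub continuous_const)

theorem norm_le {y : R3} (h : nsq y ≤ 1) : ‖y‖ ≤ 1 := by
  have h1 : y.1 ^ 2 ≤ 1 := by
    unfold nsq at h
    nlinarith [sq_nonneg y.2.re, sq_nonneg y.2.im]
  have h2 : ‖y.2‖ ^ 2 ≤ 1 := by
    rw [Complex.sq_norm, Complex.normSq_apply]
    unfold nsq at h
    nlinarith [sq_nonneg y.1]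
  rw [Prod.norm_def, sup_le_iff]
  constructor
  · rw [Real.norm_eq_abs]
    exact abs_le_one_iff_mul_self_le_one.mpr (by nlinarith)
  · nlinarith [norm_nonneg y.2]

theorem isCompact_Lt : IsCompact Lt := by
  have hcl : IsClosed Lt := by
    have h1 : IsClosed {p : R4 | 3 / 10 ≤ p.1} := isClosed_le continuous_const continuous_fst
    have h2 : IsClosed {p : R4 | p.1 ≤ 7 / 10} := isClosed_le continuous_fst continuous_const
    have h3 : IsClosed {p : R4 | nsq (p.2 - e1) ≤ (1 / 200) ^ 2} :=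
      isClosed_le continuous_d continuous_const
    exact h1.inter (h2.inter h3)
  refine (isCompact_Icc.prod (isCompact_closedBall e1 1)).of_isClosed_subset hcl
    (s := (Icc (3 / 10 : ℝ) (7 / 10)) ×ˢ Metric.closedBall e1 1) ?_
  rintro p ⟨h1, h2, h3⟩
  refine ⟨⟨h1, h2⟩, ?_⟩
  rw [Metric.mem_closedBall, dist_eq_norm]
  exact norm_le (h3.trans (by norm_num))

theorem isOpen_Ut : IsOpen Ut := by
  have h1 : IsOpen {p : R4 | 3 / 10 < p.1} := isOpen_lt continuous_const continuous_fst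
  have h2 : IsOpen {p : R4 | p.1 < 7 / 10} := isOpen_lt continuous_fst continuous_const
  have h3 : IsOpen {p : R4 | nsq (p.2 - e1) < (1 / 100) ^ 2} :=
    isOpen_lt continuous_d continuous_const
  exact h1.inter (h2.inter h3)

theorem isOpen_Vt : IsOpen Vt := by
  have h1 : IsOpen {p : R4 | p.1 < 7 / 20} := isOpen_lt continuous_fst continuous_const
  have h2 : IsOpen {p : R4 | 13 / 20 < p.1} := isOpen_lt continuous_const continuous_fst
  exact h1.union h2

theorem nsq_smul_le {m r : ℝ} {y : R3} (hm0 : 0 ≤ m) (hm1 : m ≤ 1) (h : nsq y ≤ r) :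
    nsq (m • y) ≤ r := by
  have h0 : 0 ≤ nsq y := by unfold nsq; positivity
  have h1 : nsq (m • y) = m ^ 2 * nsq y := by
    unfold nsq
    simp only [Prod.smul_fst, Prod.smul_snd, smul_eq_mul, Complex.real_smul, Complex.mul_re,
      Complex.mul_im, Complex.ofReal_re, Complex.ofReal_im]
    ring
  rw [h1]
  have h2 : m ^ 2 ≤ 1 := by nlinarith
  nlinarith

theorem fam {c : ℝ} (hc : c ∈ Ioo (0 : ℝ) 1) : Fam2 Q2 Lt Vt Ut (fun a => Jg c a.2) where
  smooth a _ p _ := Eventually.of_forall fun _ => (contDiff_J2 c).contDiffAt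
  emb a ha := emb_J hc ha.2 Lt
  froz a _ b _ p hp := by
    have hl : lam c p.1 = 1 := by
      rcases hp with h | h
      · exact lam_out c (Or.inl h.le)
      · exact lam_out c (Or.inr h.le)
    unfold Jg
    rw [hl]
    congr 3
    ring
  inU a ha p hp hpV := by
    have h1 : ¬ p.1 < 7 / 20 := fun h => hpV (Or.inl h)
    have h2 : ¬ 13 / 20 < p.1 := fun h => hpV (Or.inr h)
    push Not at h1 h2
    refine ⟨?_, ?_, ?_⟩
    · change 3 / 10 < p.1
      linarith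
    · change p.1 < 7 / 10
      linarith
    · change nsq (e1 + (1 - a.2 + a.2 * lam c p.1) • (p.2 - e1) - e1) < (1 / 100) ^ 2
      rw [add_sub_cancel_left]
      refine lt_of_le_of_lt (nsq_smul_le (fac_pos hc ha.2 p.1).le (fac_le hc ha.2 p.1) hp.2.2) ?_
      norm_num

end SHAT

open SHAT in
/-- **SHAT.** -/
theorem m_SHAT (hCh : StCH4) : StSHAT := by
  intro T T' hT c hc
  obtain ⟨Θ, F, f0, f1, ⟨K, hK, hKU, hs⟩, N, hN, hLN, ht⟩ :=
    exists_lpush1 hCh isCompact_Lt isOpen_Vt isOpen_Ut (J := fun w => Jg c w) (fam hc)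
  have hT0 := hT.ok
  have hsm : ContDiff ℝ ∞ (fun x : R4 => F.f (1, x)) :=
    contMDiff_iff_contDiff.1 (F.smooth_f.comp (contMDiff_const.prodMk contMDiff_id))
  have hsm' : ContDiff ℝ ∞ (fun x : R4 => F.g (1, x)) :=
    contMDiff_iff_contDiff.1 (F.smooth_g.comp (contMDiff_const.prodMk contMDiff_id))
  have hid : ∀ p : R4, p ∉ Ut → F.f (1, p) = p := fun p hp => hs 1 p fun h => hp (hKU h)
  have hJ0 : ∀ p : R4, Jg c 0 p = p := by
    intro p
    unfold Jg
    rw [zero_mul, add_zero, sub_zero, one_smul, add_sub_cancel]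
  have hin : ∀ p ∈ Lt, F.f (1, p) = (p.1, e1 + lam c p.1 • (p.2 - e1)) := by
    intro p hp
    have h := ht 1 (by simp) p (hLN hp)
    rw [Pool.Agent.Helper27.BI.step_one] at h
    change F.f (1, Jg c 0 p) = Jg c 1 p at h
    rw [hJ0] at h
    rw [h]
    unfold Jg
    rw [sub_self, zero_add, one_mul]
  refine ⟨fun x => T (F.f (1, x)), fun x => F.g (1, T' x), ?_, ?_, ?_, ?_, ?_, ?_, ?_⟩
  · exact hT0.smooth.comp hsm
  · exact hsm'.comp hT0.smooth'
  · intro x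
    rw [hT0.left, F.gf]
  · intro x
    rw [F.fg, hT0.right]
  · intro s y hy
    by_cases h : 3 / 10 ≤ s ∧ s ≤ 7 / 10
    · have hmem : ((s, e1 + y) : R4) ∈ Lt := by
        refine ⟨h.1, h.2, ?_⟩
        change nsq (e1 + y - e1) ≤ (1 / 200) ^ 2
        rw [add_sub_cancel_left]
        exact hy
      rw [hin _ hmem]
      simp only [add_sub_cancel_left]
      apply hT0.tube
      refine nsq_smul_le (hc.1.le.trans (lam_mem hc s).1) (lam_mem hc s).2 (hy.trans ?_)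
      norm_num
    · have hnot : ((s, e1 + y) : R4) ∉ Ut := fun h' => h ⟨h'.1.le, h'.2.1.le⟩
      have hl : lam c s = 1 := by
        apply lam_out
        by_contra h'
        push Not at h'
        exact h ⟨by linarith [h'.1], by linarith [h'.2]⟩
      rw [hid _ hnot, hl, one_smul]
      apply hT0.tube
      exact hy.trans (by norm_num)
  · intro s x hx
    have h0 := hx 0 (by simp)
    rw [zero_mul, sub_zero, one_smul] at h0
    have hnot : ((s, x) : R4) ∉ Ut := by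
      rintro ⟨-, -, h⟩
      change nsq (x - e1) < (1 / 100) ^ 2 at h
      linarith [show ((1 : ℝ) / 100) ^ 2 < (1 / 50) ^ 2 by norm_num]
    rw [hid _ hnot]
    exact hT.thin s x hx
  · intro s x hs'
    have hnot : ((s, x) : R4) ∉ Ut := by
      rintro ⟨h1, h2, -⟩
      change 3 / 10 < s at h1
      change s < 7 / 10 at h2
      rcases hs' with h | h <;> linarith
    rw [hid _ hnot]
    exact hT0.out s x hs'

end Pool.Agent.Helper27.S5


end

/-! ## Helper99.BI5.M_JO -/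

section

/-!
# Project BI, stage 5: MODULE JO, the map which retracts the first finger
-/

set_option autoImplicit false
set_option linter.unusedSectionVars false

open scoped Manifold ContDiff Topology ComplexConjugate
open Set Filter Pool.Agent.Helper65.Barb Pool.Agent.Helper18.BI
open Pool.Agent.Helper70.BI (I4 LD NearEq IsW embOn_comp ld_comp ld_iff)
open Pool.Agent.Helper34.BI (rade qe)
open Pool.Agent.Helper27.BI (e1 imp_image imp_off)
open Pool.Agent.Helper27.H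

namespace Pool.Agent.Helper27.S5

namespace JO

section sh
variable {c : ℝ} {S S' : R4 → R4} (hS : SHat c S S')
include hS

theorem S'_inj {p q : R4} (h : S' p = S' q) : p = q := by
  rw [← hS.right p, h, hS.right]

theorem S'_fix {p : R4} (h : S p = p) : S' p = p := by
  conv_lhs => rw [← h]
  exact hS.left p

/-- far from the line everything is fixed -/
theorem S_far {p : R4} (h : 49 / 100 ≤ rsq 1 p) : S p = p := by
  refine hS.thin p.1 p.2 fun τ hτ => ?_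
  have b0 := bfin_nonneg p.1
  have b1 := bfin_le p.1
  have e : nsq (p.2 - (1 - τ * bfin p.1) • e1) =
      (p.2.1 - (1 - τ * bfin p.1)) ^ 2 + p.2.2.re ^ 2 + p.2.2.im ^ 2 := by
    rw [Geo.nsq_def, Geo.e1_def]
    simp
  rw [e]
  rw [Geo.rsq1] at h
  have w0 : 0 ≤ τ * bfin p.1 := mul_nonneg hτ.1 b0
  have w1 : τ * bfin p.1 ≤ 27 / 100 := by
    calc τ * bfin p.1 ≤ 1 * bfin p.1 := mul_le_mul_of_nonneg_right hτ.2 b0
      _ ≤ 27 / 100 := by rw [one_mul]; exact b1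
  generalize τ * bfin p.1 = w at w0 w1
  by_contra hcon
  push Not at hcon
  have h1 : (p.2.1 - (1 - w)) ^ 2 ≤ (1 / 50) ^ 2 := by
    nlinarith [sq_nonneg p.2.2.re, sq_nonneg p.2.2.im]
  have h2 := abs_le.1 (abs_le_of_sq_le_sq h1 (by norm_num))
  have h3 : (p.2.1 - 1) ^ 2 ≤ (29 / 100) ^ 2 := by
    apply sq_le_sq'
    · linarith [h2.1]
    · linarith [h2.2]
  have h4 := sq_nonneg (p.2.1 - (1 - w))
  norm_num at h3 hcon
  linarith

/-- `S'` preserves the region -/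
theorem S'_reg {p : R4} (h0 : 0 ≤ p.1) (h1 : p.1 ≤ 1) (h2 : rsq 1 p ≤ 49 / 100) :
    0 ≤ (S' p).1 ∧ (S' p).1 ≤ 1 ∧ rsq 1 (S' p) ≤ 49 / 100 := by
  by_contra hcon
  have h3 : S (S' p) = S' p := by
    rcases le_or_gt (49 / 100) (rsq 1 (S' p)) with h4 | h4
    · exact S_far hS h4
    · refine hS.out (S' p).1 (S' p).2 ?_
      by_contra h5
      push Not at h5
      exact hcon ⟨by linarith [h5.1], by linarith [h5.2], h4.le⟩
  rw [hS.right] at h3
  rw [← h3] at hcon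
  exact hcon ⟨h0, h1, h2⟩

variable {δ δ' κ β : ℝ} (hp : Par δ δ' κ β)
include hp

/-- the points whose value is near the second hole are fixed -/
theorem h_near {p : R4} (h0 : 0 < rsq 1 (S' p))
    (h : nsq ((rade δ' 1 (S' p)).2 - P2 β) ≤ κ ^ 2) : rade δ' 1 (S' p) = p := by
  have h2 := Geo.rsq_lo hp h
  have h4 := Geo.rade_out (Geo.hδ' hp) h0 h2.le
  rw [h4] at h ⊢
  have h5 := D2.S_near hS hp h
  rw [hS.right] at h5
  exact h5.symm

theorem h_Reg {p : R4} (hR : p ∈ Reg δ') (h0 : 0 < rsq 1 (S' p)) :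
    rade δ' 1 (S' p) ∈ Reg δ' := by
  have hd := Geo.hδ' hp
  obtain ⟨a0, a1, a2⟩ := S'_reg hS hR.1 hR.2.1 hR.2.2.2
  refine ⟨a0, a1, Geo.rade_low' hd h0, ?_⟩
  rcases le_or_gt (1 / 25 - δ') (rsq 1 (S' p)) with h3 | h3
  · rw [Geo.rade_fix hd h3]
    exact a2
  · have := Geo.rade_le hd h0 h3.le
    linarith [hd.1]

end sh

/-! ### the arcs -/

section arcs
variable {G T' : R4 → R4} {δ' : ℝ} {D' : ArcD} (hD : HatOk δ' T' G D')
include hD

theorem mem_A (y : R4) : y ∈ D'.A ↔ ∃ s ∈ Icc D'.s₀ D'.s₁, G (s, z0 s) = y := by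
  constructor
  · rintro ⟨⟨s, y'⟩, ⟨h1, h2, h3⟩, rfl⟩
    have h4 : y' = 0 := h3
    subst h4
    refine ⟨s, ⟨h1, h2⟩, ?_⟩
    rw [hD.J]
    show G (s, z0 s) = G (s, z0 s + 0)
    rw [add_zero]
  · rintro ⟨s, hs, rfl⟩
    refine ⟨(s, 0), ⟨hs.1, hs.2, rfl⟩, ?_⟩
    rw [hD.J]
    show G (s, z0 s + 0) = _
    rw [add_zero]

/-- a point of the line over the finger, outside the wall, is on the first arc -/
theorem line_mem {s : ℝ} (h : 1 / 25 - δ' < rsq 1 (s, z0 s)) : s ∈ Icc D'.s₀ D'.s₁ := by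
  rw [rsq1_z0] at h
  by_contra hcon
  exact absurd (hD.b' s fun h' => hcon ⟨h'.1.le, h'.2.le⟩) (not_le.2 h)

end arcs

theorem mem_A2 {G T : R4 → R4} {δ δ' κ β c a b : ℝ} {H : DFam 𝓘(ℝ, R4) R4} (hH : THat T c H)
    (hp : Par δ δ' κ β) (y : R4) :
    y ∈ A2 G H β a b ↔ ∃ s ∈ Icc a b, G (s, z2 c β s) = y := by
  constructor
  · rintro ⟨⟨s, x⟩, ⟨h1, h2, h3⟩, rfl⟩
    have h4 : x = P2 β := h1
    subst h4
    exact ⟨s, ⟨h2, h3⟩, congrArg G (Geo.H_P2 hH hp s).symm⟩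
  · rintro ⟨s, hs, rfl⟩
    exact ⟨(s, P2 β), ⟨rfl, hs.1, hs.2⟩, congrArg G (Geo.H_P2 hH hp s)⟩

/-- the closed set which is removed -/
def Bs (D' : ArcD) (δ' κ β : ℝ) : Set R4 :=
  wallS δ' ∪ wall2 δ' κ β ∪ (fun s : ℝ => ((s, z0 s) : R4)) '' Icc D'.s₀ D'.s₁

theorem isClosed_Bs (D' : ArcD) (δ' κ β : ℝ) : IsClosed (Bs D' δ' κ β) :=
  ((Geo.isClosed_wallS δ').union (Geo.isClosed_wall2 δ' κ β)).union
    (isCompact_Icc.image (continuous_id.prodMk contDiff_z0.continuous)).isClosed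

/-- a map which is an embedding near a compact set gives a constant isotopy -/
theorem ci_const {F : R4 → R4} {K : Set R4} {Θ Θ' : R4 → R4} (hK : IsCompact K)
    (hF : EmbOn I4 F K) (hΘ : SDiff K Θ Θ') : CIsot I4 (imp F K Θ) (imp F K Θ) := by
  have hfam : FamOn I4 (fun w : ℝ × R4 => F w.2) K := by
    constructor
    · refine ⟨{w | w.2 ∈ interior {q | ContDiffAt ℝ ∞ F q}},
        isOpen_interior.preimage continuous_snd, ?_, ?_⟩
      · rintro z ⟨-, hz⟩
        exact mem_interior_iff_mem_nhds.2 (ld_iff.1 (hF.1 _ hz)).1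
      · intro w hw
        have hw' : ContDiffAt ℝ ∞ F w.2 := interior_subset hw
        have hw2 : ContDiffAt ℝ ∞ (fun w : ℝ × R4 => F w.2) w := hw'.comp w contDiffAt_snd
        exact hw2.contMDiffAt.contMDiffWithinAt
    · intro t _
      exact hF
  exact hA3 R4 R4 I4 R4 (fun w : ℝ × R4 => F w.2) K Θ Θ' hK hfam hΘ

theorem mapsTo_sdiff {K : Set R4} {Θ Θ' : R4 → R4} (hΘ : SDiff K Θ Θ') : MapsTo Θ K K := by
  intro x hx
  by_contra h
  have h1 := hΘ.2.2.2.2 _ h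
  have h2 : Θ x = x := by
    have := congrArg Θ' h1
    rwa [hΘ.2.2.2.1, hΘ.2.2.2.1] at this
  exact h (by rw [h2]; exact hx)

/-! ### the system -/

section sys
variable {G T T' S S' M M' : R4 → R4} {δ δ' κ β c : ℝ} {D D' D₂ : ArcD}
  {H : DFam 𝓘(ℝ, R4) R4} {a b : ℝ} (hs : Sys G T T' δ δ' κ β c D D' H a b) (hS : SHat c S S')
  (hM : MOk δ' H S' M M') (hD₂ : D2Ok G M M' δ' κ β a b D₂)
include hs

theorem embR : EmbOn I4 G (Reg δ') := Pool.Agent.Helper27.BI.EmbOn.mono hs.emb Geo.Reg_K3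

theorem injR : InjOn G (Reg δ') := (embR hs).2

theorem injRh : InjOn G (Reg δ' \ hol δ' κ β) := (embR hs).2.mono sdiff_subset

/-- the points of the region off the walls -/
theorem far {p : R4} (hR : p ∈ Reg δ' \ hol δ' κ β) (hB : p ∉ wallS δ' ∪ wall2 δ' κ β) :
    1 / 25 - δ' < rsq 1 p ∧ 1 / 25 - δ' < rsq 1 (sgi κ β p) := by
  obtain ⟨hpR, hph⟩ := hR
  constructor
  · by_contra h
    push Not at h
    exact hB (Or.inl ⟨hpR.1, hpR.2.1, hpR.2.2.1, h⟩)
  · by_contra h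
    push Not at h
    apply hB
    right
    refine ⟨hpR.1, hpR.2.1, ?_, h⟩
    by_contra h2
    exact hph ⟨hpR.1, hpR.2.1, not_le.1 h2⟩

include hS in
theorem key {p : R4} (hpp : p ∈ (Reg δ' \ hol δ' κ β) \ Bs D' δ' κ β) :
    1 / 25 - δ' < rsq 1 p ∧ 1 / 25 - δ' < rsq 1 (sgi κ β p) ∧ 0 < rsq 1 (S' p) := by
  obtain ⟨h1, h2⟩ := far hs hpp.1 fun h => hpp.2 (Or.inl h)
  refine ⟨h1, h2, ?_⟩
  rw [Geo.rsq1_pos_iff]
  intro h3
  have h4 : S' p = ((S' p).1, e1) := Prod.ext rfl h3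
  have h5 : p = ((S' p).1, z0 (S' p).1) := by
    rw [← D2.S_e1 hS (S' p).1, ← h4, hS.right]
  apply hpp.2
  right
  refine ⟨(S' p).1, ?_, h5.symm⟩
  apply line_mem hs.hat'
  rw [← h5]
  exact h1

/-- the points of the domain which come from the region -/
theorem notB {p : R4} (hR : p ∈ Reg δ' \ hol δ' κ β) (hx : G p ∈ U2 G δ' κ β \ D'.A) :
    p ∉ Bs D' δ' κ β := by
  rintro (h | ⟨s, h1, h2⟩)
  · exact hx.1 ⟨p, h, rfl⟩
  · exact hx.2 ((mem_A hs.hat' _).2 ⟨s, h1, by rw [← h2]⟩)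

include hS

theorem h_R {p : R4} (hpp : p ∈ (Reg δ' \ hol δ' κ β) \ Bs D' δ' κ β) :
    rade δ' 1 (S' p) ∈ Reg δ' \ hol δ' κ β := by
  have hp := hs.par
  have h0 := (key hs hS hpp).2.2
  refine ⟨h_Reg hS hp hpp.1.1 h0, fun h => ?_⟩
  rw [h_near hS hp h0 (Geo.hol_near hp h)] at h
  exact hpp.1.2 h

theorem jo_emb (hGH : StGH) : EmbOn I4 (jo G S' δ' κ β) (U2 G δ' κ β \ D'.A) := by
  have hp := hs.par
  have hd := Geo.hδ' hp
  have hemb : EmbOn I4 (imp G (Reg δ' \ hol δ' κ β) (fun p => rade δ' 1 (S' p)))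
      (G '' ((Reg δ' \ hol δ' κ β) ∩ Bs D' δ' κ β))ᶜ := by
    apply hGH G _ _ _ (Geo.isCompact_Reg_hol δ' κ β) (isClosed_Bs D' δ' κ β)
    · exact Pool.Agent.Helper27.BI.EmbOn.mono (embR hs) sdiff_subset
    · intro p hpp
      have l1 : LD S' p := Geo.ld_of_inv hS.smooth' hS.smooth hS.right hS.left p
      have l2 : LD (rade δ' 1) (S' p) := (rade_emb hd).1 _ (key hs hS hpp).2.2
      have l3 : LD (rade δ' 1 ∘ S') p := ld_comp l1 l2
      exact l3
    · intro p hpp q hqq h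
      exact S'_inj hS ((rade_emb hd).2 (key hs hS hpp).2.2 (key hs hS hqq).2.2 h)
    · exact fun p hpp => h_R hs hS hpp
    · intro p hpp
      have e1 : ∀ᶠ q in 𝓝 p, 1 / 25 - δ' < rsq 1 (sgi κ β q) :=
        (Geo.continuous_rsq_sgi κ β).continuousAt.eventually (lt_mem_nhds (key hs hS hpp).2.1)
      have e2 : ∀ᶠ q in 𝓝 p, 1 / 25 - δ' < rsq 1 q :=
        Geo.continuous_rsq1.continuousAt.eventually (lt_mem_nhds (key hs hS hpp).1)
      filter_upwards [e1, e2] with q hq1 hq2 hq3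
      have hq4 : q ∉ Reg δ' := fun h =>
        hq3 ⟨h, fun h' => absurd h'.2.2 (not_lt.2 (by linarith [hd.1]))⟩
      have hq5 : S q = q := by
        by_cases h1 : 49 / 100 ≤ rsq 1 q
        · exact S_far hS h1
        · refine hS.out q.1 q.2 ?_
          by_contra h2
          push Not at h2 h1
          exact hq4 ⟨by linarith [h2.1], by linarith [h2.2], by linarith [hd.1], h1.le⟩
      show rade δ' 1 (S' q) = q
      rw [S'_fix hS hq5]
      exact Geo.rade_fix hd hq2.le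
  apply Pool.Agent.Helper27.BI.EmbOn.mono hemb
  rintro y hy ⟨p, ⟨hp1, hp2⟩, rfl⟩
  exact notB hs hp1 hy hp2

theorem jo_val {p : R4} (hR : p ∈ Reg δ' \ hol δ' κ β) :
    jo G S' δ' κ β (G p) = G (rade δ' 1 (S' p)) := imp_image (injRh hs) hR

include hD₂ in
theorem jo_maps : MapsTo (jo G S' δ' κ β) (U2 G δ' κ β \ D'.A) D₂.U := by
  have hp := hs.par
  intro y hy
  rw [hD₂.U]
  by_cases hyR : y ∈ G '' (Reg δ' \ hol δ' κ β)
  · obtain ⟨p, hpR, rfl⟩ := hyR
    have hpB := notB hs hpR hy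
    rw [jo_val hs hS hpR]
    rintro ⟨q, hq, hqe⟩
    have h1 := h_R hs hS ⟨hpR, hpB⟩
    have h2 : q = rade δ' 1 (S' p) := injR hs (Geo.wall2_Reg hp hq) h1.1 hqe
    rw [h2] at hq
    rw [h_near hS hp (key hs hS ⟨hpR, hpB⟩).2.2 (Geo.wall2_near hp hq)] at hq
    exact hpB (Or.inl (Or.inr hq))
  · have h1 : jo G S' δ' κ β y = y := imp_off hyR
    rw [h1]
    rintro ⟨q, hq, hqe⟩
    exact hy.1 ⟨q, Or.inr hq, hqe⟩

omit hS in
/-- the points of the second arc are inside the region -/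
theorem arc_in {s : ℝ} (h : s ∈ Ioo a b) : 1 / 10 < s ∧ s < 9 / 10 ∧
    1 / 25 - δ' < rsq 1 (s, z2 c β s) ∧ rsq 1 (s, z2 c β s) < 49 / 100 ∧
      1 / 25 - δ' < rsq 1 (sgi κ β (s, z2 c β s)) := by
  have hp := hs.par
  have hc := hs.mc
  have k0 := hp.k0
  have n1 := Geo.num_lo hp
  have n2 := Geo.num_hi hp
  have hab := hs.ab
  have h2 : nsq (((s, P2 β) : R4).2 - P2 β) ≤ κ ^ 2 := by
    show nsq (P2 β - P2 β) ≤ κ ^ 2
    rw [sub_self]
    simp [Geo.nsq_def]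
    positivity
  have h3 := (Geo.H_near_rsq hs.th hp hc h2).1
  rw [Geo.H_P2 hs.th hp] at h3
  refine ⟨by linarith [h.1, hab.ma.1], by linarith [h.2, hab.mb.2], h3, ?_, ?_⟩
  · rw [Geo.rsq_z2]
    have b0 := bfin_nonneg s
    have b1 := bfin_le s
    have l0 := Geo.lam_pos hc s
    have l1 := Geo.lam_le hc s
    have q1 : bfin s ^ 2 ≤ (27 / 100) ^ 2 := pow_le_pow_left₀ b0 b1 2
    have q2 : lam c s * β ≤ 1 / 5 := by
      calc lam c s * β ≤ 1 * β := mul_le_mul_of_nonneg_right l1 (by linarith)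
        _ ≤ 1 / 5 := by linarith
    have q3 : (lam c s * β) ^ 2 ≤ (1 / 5) ^ 2 :=
      pow_le_pow_left₀ (mul_nonneg l0.le (by linarith)) q2 2
    norm_num at q1 q3
    linarith
  · rw [Geo.rsq_sgi k0]
    show _ < nsq (z2 c β s - P2 β) / κ ^ 2
    rw [Geo.nsq_z2, lt_div_iff₀ (by positivity)]
    have h4 := hab.ins s h
    have h5 : 0 ≤ (1 - lam c s) ^ 2 * β ^ 2 := by positivity
    linarith

omit hS in
theorem arc_R {s : ℝ} (h : s ∈ Ioo a b) : (s, z2 c β s) ∈ Reg δ' \ hol δ' κ β := by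
  have hd := Geo.hδ' hs.par
  obtain ⟨h1, h2, h3, h4, h5⟩ := arc_in hs h
  refine ⟨⟨?_, ?_, ?_, h4.le⟩, fun h6 => absurd h6.2.2 (not_lt.2 (by linarith [hd.1]))⟩
  · show (0 : ℝ) ≤ s
    linarith
  · show s ≤ (1 : ℝ)
    linarith
  · linarith [hd.1]

omit hS in
/-- the points of the second arc are in the domain of `jo` -/
theorem arc_dom {s : ℝ} (h : s ∈ Ioo a b) : G (s, z2 c β s) ∈ U2 G δ' κ β \ D'.A := by
  have hp := hs.par
  obtain ⟨h1, h2, h3, h4, h5⟩ := arc_in hs h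
  have hR := arc_R hs h
  constructor
  · rintro ⟨q, hq, hqe⟩
    have hq' : q ∈ Reg δ' := hq.elim (fun h => Geo.wall_Reg hp h) (fun h => Geo.wall2_Reg hp h)
    have h6 : q = (s, z2 c β s) := injR hs hq' hR.1 hqe
    rw [h6] at hq
    rcases hq with hq | hq
    · exact absurd hq.2.2.2 (not_le.2 h3)
    · have h7 : rsq 1 (sgi κ β (s, z2 c β s)) ≤ 1 / 25 - δ' := hq.2.2.2
      exact absurd h7 (not_le.2 h5)
  · intro h6
    obtain ⟨t, ht, hte⟩ := (mem_A hs.hat' _).1 h6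
    have ht1 : D'.s₀ ∈ Ioo (1 / 10 : ℝ) (3 / 10) := hs.hat'.s₀
    have ht2 : D'.s₁ ∈ Ioo (7 / 10 : ℝ) (9 / 10) := hs.hat'.s₁
    have hd := Geo.hδ' hp
    have h7 : ((t, z0 t) : R4) ∈ Reg δ' := by
      have b0 := bfin_nonneg t
      have b1 := bfin_le t
      have h8 : 1 / 25 - δ' ≤ bfin t ^ 2 := by
        rcases ht.1.eq_or_lt with h9 | h9
        · rw [← h9, hs.hat'.b₀]
        · rcases ht.2.eq_or_lt with h10 | h10
          · rw [h10, hs.hat'.b₁]
          · exact (hs.hat'.b t ⟨h9, h10⟩).le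
      refine ⟨?_, ?_, ?_, ?_⟩
      · show (0 : ℝ) ≤ t
        linarith [ht.1, ht1.1]
      · show t ≤ (1 : ℝ)
        linarith [ht.2, ht2.2]
      · rw [rsq1_z0]
        linarith [hd.1]
      · rw [rsq1_z0]
        nlinarith
    have h8 := injR hs h7 hR.1 hte
    have h9 : t = s := congrArg Prod.fst h8
    have h10 : z0 t = z2 c β s := congrArg Prod.snd h8
    subst h9
    have h11 := Geo.nsq_z20 c β t
    rw [← h10, sub_self] at h11
    have h12 : (lam c t * β) ^ 2 = 0 := by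
      rw [← h11]
      simp [Geo.nsq_def]
    have h13 : 0 < lam c t * β := mul_pos (Geo.lam_pos hs.mc t) (hp.k0.trans hp.k1)
    have h14 : 0 < (lam c t * β) ^ 2 := by positivity
    exact absurd h12 h14.ne'

include hM hD₂ in
theorem jo_arc {s : ℝ} (h : s ∈ Ioo a b) : ∀ᶠ p in 𝓝 ((s, 0) : R4),
    D₂.J p = jo G S' δ' κ β (G (H.f (1, (p.1, P2 β + p.2)))) := by
  have hp := hs.par
  have hd := Geo.hδ' hp
  obtain ⟨h1, h2, h3, h4, h5⟩ := arc_in hs h
  have cv : Continuous fun p : R4 => ((p.1, P2 β + p.2) : R4) := by fun_prop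
  have cH : Continuous fun p : R4 => H.f (1, (p.1, P2 β + p.2)) :=
    H.smooth_f.continuous.comp (continuous_const.prodMk cv)
  have e0 : H.f (1, (((s, 0) : R4).1, P2 β + ((s, 0) : R4).2)) = (s, z2 c β s) := by
    show H.f (1, (s, P2 β + 0)) = _
    rw [add_zero, Geo.H_P2 hs.th hp]
  have e0' : ((((s, 0) : R4).1, P2 β + ((s, 0) : R4).2) : R4) = (s, P2 β) := by
    show ((s, P2 β + 0) : R4) = _
    rw [add_zero]
  have c1 : ∀ᶠ p : R4 in 𝓝 ((s, 0) : R4), 0 < (H.f (1, (p.1, P2 β + p.2))).1 :=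
    (continuous_fst.comp cH).continuousAt.eventually (lt_mem_nhds (by
      show 0 < (H.f (1, (((s, 0) : R4).1, P2 β + ((s, 0) : R4).2))).1
      rw [e0]
      show 0 < s
      linarith))
  have c2 : ∀ᶠ p : R4 in 𝓝 ((s, 0) : R4), (H.f (1, (p.1, P2 β + p.2))).1 < 1 :=
    (continuous_fst.comp cH).continuousAt.eventually (gt_mem_nhds (by
      show (H.f (1, (((s, 0) : R4).1, P2 β + ((s, 0) : R4).2))).1 < 1
      rw [e0]
      show s < 1
      linarith))
  have c3 : ∀ᶠ p : R4 in 𝓝 ((s, 0) : R4), 1 / 25 - δ' < rsq 1 (H.f (1, (p.1, P2 β + p.2))) :=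
    (Geo.continuous_rsq1.comp cH).continuousAt.eventually (lt_mem_nhds (by
      show 1 / 25 - δ' < rsq 1 (H.f (1, (((s, 0) : R4).1, P2 β + ((s, 0) : R4).2)))
      rw [e0]
      exact h3))
  have c4 : ∀ᶠ p : R4 in 𝓝 ((s, 0) : R4), rsq 1 (H.f (1, (p.1, P2 β + p.2))) < 49 / 100 :=
    (Geo.continuous_rsq1.comp cH).continuousAt.eventually (gt_mem_nhds (by
      show rsq 1 (H.f (1, (((s, 0) : R4).1, P2 β + ((s, 0) : R4).2))) < 49 / 100
      rw [e0]
      exact h4))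
  have c5 : ∀ᶠ p : R4 in 𝓝 ((s, 0) : R4),
      1 / 25 - δ' < rsq 1 (sgi κ β (H.f (1, (p.1, P2 β + p.2)))) :=
    ((Geo.continuous_rsq_sgi κ β).comp cH).continuousAt.eventually (lt_mem_nhds (by
      show 1 / 25 - δ' < rsq 1 (sgi κ β (H.f (1, (((s, 0) : R4).1, P2 β + ((s, 0) : R4).2))))
      rw [e0]
      exact h5))
  have c6 : ∀ᶠ p : R4 in 𝓝 ((s, 0) : R4), 1 / 25 - δ' < rsq 1 (p.1, P2 β + p.2) :=
    (Geo.continuous_rsq1.comp cv).continuousAt.eventually (lt_mem_nhds (by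
      show 1 / 25 - δ' < rsq 1 (((s, 0) : R4).1, P2 β + ((s, 0) : R4).2)
      rw [e0']
      exact D2.P2_far hp s))
  filter_upwards [c1, c2, c3, c4, c5, c6] with p k1 k2 k3 k4 k5 k6
  have hR : H.f (1, (p.1, P2 β + p.2)) ∈ Reg δ' \ hol δ' κ β :=
    ⟨⟨k1.le, k2.le, by linarith [hd.1], k4.le⟩,
      fun h6 => absurd h6.2.2 (not_lt.2 (by linarith [hd.1]))⟩
  rw [jo_val hs hS hR, ← hM.eq _ (by linarith [hd.2]), Geo.rade_fix hd k6.le, hD₂.J]

include hM in
/-- the two embeddings agree -/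
theorem EE_eq {x : R4} (hx : x ∈ U2 G δ' κ β \ (D'.A ∪ A2 G H β a b)) :
    EE G H δ' κ β x =
      imp G (Reg δ' \ hol δ' κ β) (fun p => rad2 δ' κ β (M' p)) (jo G S' δ' κ β x) := by
  have hp := hs.par
  have hd := Geo.hδ' hp
  have hx1 : x ∈ U2 G δ' κ β \ D'.A := ⟨hx.1, fun h => hx.2 (Or.inl h)⟩
  by_cases hxR : x ∈ G '' (Reg δ' \ hol δ' κ β)
  · obtain ⟨p, hpR, rfl⟩ := hxR
    have hpB := notB hs hpR hx1
    have hk := key hs hS ⟨hpR, hpB⟩
    rw [jo_val hs hS hpR, imp_image (injRh hs) (h_R hs hS ⟨hpR, hpB⟩)]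
    have h1 : EE G H δ' κ β (G p) = G (rade δ' 1 (rad2 δ' κ β (H.g (1, p)))) :=
      imp_image (injRh hs) hpR
    rw [h1]
    have hq : p = H.f (1, H.g (1, p)) := (H.fg 1 p).symm
    have q0 : 0 < rsq 1 (H.g (1, p)) := by
      rw [Geo.rsq1_pos_iff]
      intro h3
      have h4 : H.g (1, p) = ((H.g (1, p)).1, e1) := Prod.ext rfl h3
      have h5 := Geo.H_e1 hs.th h4
      apply hpB
      right
      refine ⟨_, ?_, h5.symm⟩
      apply line_mem hs.hat'
      rw [← h5]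
      exact hk.1
    have q1 : 0 < rsq 1 (sgi κ β (H.g (1, p))) := by
      rw [Geo.sgi_pos_iff hp.k0]
      intro h3
      have h4 : H.g (1, p) = ((H.g (1, p)).1, P2 β) := Prod.ext rfl h3
      rw [h4, Geo.H_P2 hs.th hp] at hq
      by_cases h5 : (H.g (1, p)).1 ∈ Icc a b
      · exact hx.2 (Or.inr ((mem_A2 hs.th hp _).2 ⟨_, h5, by rw [← hq]⟩))
      · have h6 := Geo.H_P2_out hs.th hp hs.mc hd hs.ab h5
        rw [← hq] at h6
        exact absurd hk.2.1 (not_lt.2 h6)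
    have h2 : rade δ' 1 (S' p) = M (rade δ' 1 (H.g (1, p))) := by
      rw [hM.eq _ q0, ← hq]
    rw [h2, hM.left, Geo.rad2_rade hp q0 q1]
  · have h1 : jo G S' δ' κ β x = x := imp_off hxR
    rw [h1, imp_off hxR]
    exact imp_off hxR

end sys

end JO

/-- **JO.** -/
theorem m_JO (hGH : StGH) : StJO := by
  intro G T T' S S' M M' δ δ' κ β c D D' D₂ H a b hs hS hM hD₂
  have hp := hs.par
  have hemb := JO.jo_emb hs hS hGH
  have hmaps := JO.jo_maps hs hS hD₂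
  refine ⟨hemb, hmaps, fun s h => JO.jo_arc hs hS hM hD₂ h, ?_⟩
  intro K Θ Θ' hK hKs hΘ
  have hK1 : K ⊆ U2 G δ' κ β \ D'.A := fun x hx => ⟨(hKs hx).1, fun h => (hKs hx).2 (Or.inl h)⟩
  have hJ : ∀ s, D₂.J (s, 0) = G (M (s, P2 β)) := by
    intro s
    rw [hD₂.J]
    show G (M (s, P2 β + 0)) = _
    rw [add_zero]
  have hsub : jo G S' δ' κ β '' K ⊆ D₂.U \ D₂.A := by
    rintro _ ⟨x, hx, rfl⟩
    refine ⟨hmaps (hK1 hx), ?_⟩
    rintro ⟨⟨s, y⟩, ⟨h1, h2, h3⟩, h4⟩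
    have h5 : y = 0 := h3
    subst h5
    rw [hD₂.s₀] at h1
    rw [hD₂.s₁] at h2
    have hab : D₂.s₀ ≤ D₂.s₁ := (D₂.h₀.trans (D₂.h₁.trans D₂.h₂)).le
    have hU := hmaps (hK1 hx)
    rw [← h4] at hU
    have h1' : a < s := by
      rcases h1.eq_or_lt with h6 | h6
      · exfalso
        have h7 := D₂.core D₂.s₀ ⟨le_rfl, hab⟩
        rw [hD₂.s₀, h6] at h7
        apply D₂.off₀
        rw [hD₂.s₀, h6, ← h7]
        exact hU
      · exact h6
    have h2' : s < b := by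
      rcases h2.eq_or_lt with h6 | h6
      · exfalso
        have h7 := D₂.core D₂.s₁ ⟨hab, le_rfl⟩
        rw [hD₂.s₁, ← h6] at h7
        apply D₂.off₁
        rw [hD₂.s₁, ← h6, ← h7]
        exact hU
      · exact h6
    have h6 := (JO.jo_arc hs hS hM hD₂ ⟨h1', h2'⟩).self_of_nhds
    have h7 : D₂.J (s, 0) = jo G S' δ' κ β (G (s, z2 c β s)) := by
      rw [h6]
      show jo G S' δ' κ β (G (H.f (1, (s, P2 β + 0)))) = _
      rw [add_zero, Geo.H_P2 hs.th hp]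
    rw [h7] at h4
    have h8 := hemb.2 (JO.arc_dom hs ⟨h1', h2'⟩) (hK1 hx) h4
    exact (hKs hx).2 (Or.inr ((JO.mem_A2 hs.th hp _).2 ⟨s, ⟨h1'.le, h2'.le⟩, h8⟩))
  refine ⟨hsub, ?_⟩
  have hjK : EmbOn I4 (jo G S' δ' κ β) K := Pool.Agent.Helper27.BI.EmbOn.mono hemb hK1
  have heK : EmbOn I4 D₂.e (jo G S' δ' κ β '' K) :=
    Pool.Agent.Helper27.BI.EmbOn.mono D₂.embe hsub
  have hcK : EmbOn I4 (D₂.e ∘ jo G S' δ' κ β) K := embOn_comp heK hjK (mapsTo_image _ _)
  have hEq : EqOn (D₂.e ∘ jo G S' δ' κ β) (EE G H δ' κ β) K := by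
    intro x hx
    show D₂.e (jo G S' δ' κ β x) = _
    rw [JO.EE_eq hs hS hM (hKs hx), hD₂.e]
  have hmK := JO.mapsTo_sdiff hΘ
  have e1 : imp (D₂.e ∘ jo G S' δ' κ β) K Θ = imp (EE G H δ' κ β) K Θ :=
    Pool.Agent.Helper27.BI.imp_congr hcK.2 hEq hmK
  have e2 : imp (D₂.e ∘ jo G S' δ' κ β) K Θ =
      imp D₂.e (jo G S' δ' κ β '' K) (imp (jo G S' δ' κ β) K Θ) :=
    (hImp R4 R4 I4 R4 D₂.e (jo G S' δ' κ β '' K) Θ heK.2).2.2.2.2.2.2.2
      (jo G S' δ' κ β) K hjK.2 rfl hmK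
  rw [← e1, ← e2]
  exact JO.ci_const hK hcK hΘ

end Pool.Agent.Helper27.S5


end
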