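import Pool.Agent.Helper65.Barb.Defs
import Pool.Agent.Helper70.BI.C.P41
import Pool.Agent.Helper70.BI.C.P64

/-!
# Project BI (MP_8e98f2_gt): collected modules, part 72

The contents of the modules
* Helper34.BI5.M_SHD
* Helper34.BI5.M_PRM

in one file, so that the whole proof builds in a short time.
-/

namespace Pool.Agent.Helper18.BI
end Pool.Agent.Helper18.BI

namespace Pool.Agent.Helper18.BI.H
end Pool.Agent.Helper18.BI.H

namespace Pool.Agent.Helper18.BI.R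
end Pool.Agent.Helper18.BI.R

namespace Pool.Agent.Helper18.BI.R.HEP
end Pool.Agent.Helper18.BI.R.HEP

namespace Pool.Agent.Helper27.BI
end Pool.Agent.Helper27.BI

namespace Pool.Agent.Helper27.H
end Pool.Agent.Helper27.H

namespace Pool.Agent.Helper27.S5
end Pool.Agent.Helper27.S5

namespace Pool.Agent.Helper65.Barb
end Pool.Agent.Helper65.Barb

namespace Pool.Agent.Helper70.BI
end Pool.Agent.Helper70.BI


/-! ## Helper34.BI5.M_SHD -/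

section

/-!
# SHD: squares of homotopies off the limit of the wall
-/

set_option autoImplicit false

open scoped Manifold ContDiff Topology ComplexConjugate
open Set Filter Pool.Agent.Helper65.Barb Pool.Agent.Helper18.BI
open Pool.Agent.Helper70.BI (I4)
open Pool.Agent.Helper27.H
open Pool.Agent.Helper27.S5
open Pool.Agent.Helper18.BI.H
open Pool.Agent.Helper18.BI.R

namespace Pool.Agent.Helper34.S5

theorem sq0_wall {δ : ℝ} (hδ : 0 < δ) {p : R4} (hp : p ∈ wallS δ) : sq 0 p = (1 / 2, p.2) :=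
  hS4.2.2.1 p (Or.inr (Or.inl (by linarith [hp.2.2.2])))

theorem sq0_wall_shell {δ δ₀ : ℝ} (hδ : 0 < δ) (hd : δ ≤ δ₀) {p : R4} (hp : p ∈ wallS δ) :
    sq 0 p ∈ shell δ₀ := by
  rw [sq0_wall hδ hp]
  refine ⟨rfl, ?_, ?_⟩
  · show 1 / 25 - 3 * δ₀ ≤ rsq 1 p
    linarith [hp.2.2.1]
  · show rsq 1 p ≤ 1 / 25
    linarith [hp.2.2.2]

theorem isCompact_sq0wall {δ : ℝ} (hδ : δ ∈ Ioo (0 : ℝ) (1 / 100)) : IsCompact (sq 0 '' wallS δ) := by
  have h : sq 0 '' wallS δ = (fun p : R4 => ((1 / 2 : ℝ), p.2)) '' wallS δ :=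
    image_congr fun p hp => sq0_wall hδ.1 hp
  rw [h]
  exact (isCompact_wall hδ).image (by fun_prop)

theorem m_SHD : StSHD := by
  rintro F δ₀ δ' g g' hF hd hδ' ⟨h, hc, hb, he, ho⟩
  have hSP : IsCompact SP := hS4.2.2.2.2.2.2.2.2.1
  obtain ⟨O, hO, hLO, hFO, hFc⟩ := emb_open (hSP.union (isCompact_shell δ₀)) hF
  have hKO : sq 0 '' wallS δ' ⊆ O := by
    rintro _ ⟨p, hp, rfl⟩
    exact hLO (Or.inr (sq0_wall_shell hδ'.1 hd hp))
  have hA : IsCompact (F '' (sq 0 '' wallS δ')) :=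
    (isCompact_sq0wall hδ').image_of_continuousOn (hFc.mono hKO)
  obtain ⟨κ, h1, hκ⟩ := ((margin (isCompact_Icc.prod isCompact_S2) hc hA
    fun z hz => ho z.1 hz.1 z.2 hz.2).and self_mem_nhdsWithin).exists
  have hκ : 0 < κ := hκ
  have hW : IsOpen (O ∩ F ⁻¹' (Metric.thickening κ (F '' (sq 0 '' wallS δ')))) :=
    hFc.isOpen_inter_preimage hO Metric.isOpen_thickening
  obtain ⟨ε₁, hε₁, e1⟩ := exists_eps (isCompact_wall hδ') hW fun p hp =>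
    ⟨hKO (mem_image_of_mem _ hp), Metric.self_subset_thickening hκ _
      (mem_image_of_mem F (mem_image_of_mem (sq 0) hp))⟩
  obtain ⟨ε₂, hε₂, e2⟩ := m_NRB F (Pool.Agent.Helper27.BI.EmbOn.mono hF subset_union_left) (κ / 2)
    (by positivity)
  obtain ⟨ε₃, hε₃, e3⟩ := exists_eps
    (K := (fun s : ℝ => ((s, ((73 / 100 : ℝ), (0 : ℂ))) : R4)) '' Icc (9 / 20) (11 / 20)) (U := O)
    (isCompact_Icc.image (by fun_prop)) hO (by
      rintro _ ⟨s, -, rfl⟩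
      have e : sq 0 (s, ((73 / 100 : ℝ), (0 : ℂ))) = bar (73 / 100) :=
        hS4.2.2.1 _ (Or.inr (Or.inr ⟨by norm_num, by norm_num, rfl⟩))
      rw [e]
      exact hLO (Or.inl (bar_mem_SP (by norm_num) (by norm_num))))
  refine ⟨min ε₁ (min ε₂ ε₃), by positivity, fun ε hε => ?_⟩
  have hε1 : ε ∈ Ioo 0 ε₁ := ⟨hε.1, lt_of_lt_of_le hε.2 (min_le_left _ _)⟩
  have hε2 : ε ∈ Ioo 0 ε₂ :=
    ⟨hε.1, lt_of_lt_of_le hε.2 ((min_le_right _ _).trans (min_le_left _ _))⟩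
  have hε3 : ε ∈ Ioo 0 ε₃ :=
    ⟨hε.1, lt_of_lt_of_le hε.2 ((min_le_right _ _).trans (min_le_right _ _))⟩
  have harc : ContinuousOn (fun s : ℝ => F (sq ε (s, ((73 / 100 : ℝ), (0 : ℂ)))))
      (Icc (9 / 20) (11 / 20)) := by
    refine hFc.comp ?_ fun s hs => e3 ε hε3 _ (mem_image_of_mem _ hs)
    exact ((continuous_sq hε.1).comp
      (f := fun s : ℝ => ((s, ((73 / 100 : ℝ), (0 : ℂ))) : R4)) (by fun_prop)).continuousOn
  refine ⟨fun z => h (z.1, mm z.2.1 z.2.2) + (F (sq ε (z.2.2, ((73 / 100 : ℝ), 0))) - bp F), ?_, ?_, ?_⟩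
  · refine ContinuousOn.add ?_ (ContinuousOn.sub ?_ continuousOn_const)
    · refine hc.comp (f := fun z : ℝ × ℝ × ℝ => (z.1, mm z.2.1 z.2.2)) ?_ ?_
      · exact (continuous_fst.prodMk (continuous_mm.comp continuous_snd)).continuousOn
      · intro z hz
        exact ⟨hz.1, mm_S2 _ _⟩
    · exact harc.comp (Continuous.continuousOn (by fun_prop)) fun z hz => hz.2.2
  · intro q _ s _
    show h (0, mm q s) + _ = g (mm q s) + _ ∧ h (1, mm q s) + _ = g' (mm q s) + _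
    rw [(he _ (mm_S2 q s)).1, (he _ (mm_S2 q s)).2]
    exact ⟨rfl, rfl⟩
  · intro u hu q hq s hs
    have hs' : s ∈ Icc (3 / 10 : ℝ) (7 / 10) := ⟨by linarith [hs.1], by linarith [hs.2]⟩
    refine ⟨fun p hp hn => ?_, fun hbd => ?_⟩
    · have h7 : F (sq ε p) ∈ Metric.thickening κ (F '' (sq 0 '' wallS δ')) := (e1 ε hε1 p hp).2
      obtain ⟨y, hy, hd⟩ := Metric.mem_thickening_iff.1 h7
      have h3 := h1 (u, mm q s) ⟨hu, mm_S2 q s⟩ y hy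
      have h4 := e2 ε hε2 s hs'
      rw [← hn] at hd
      have h5 : dist (h (u, mm q s))
          (h (u, mm q s) + (F (sq ε (s, ((73 / 100 : ℝ), 0))) - bp F)) ≤ κ / 2 := by
        rw [dist_self_add_right, ← dist_eq_norm]
        exact h4
      have h6 := dist_triangle (h (u, mm q s))
        (h (u, mm q s) + (F (sq ε (s, ((73 / 100 : ℝ), 0))) - bp F)) y
      have hd' : dist (h (u, mm q s) + (F (sq ε (s, ((73 / 100 : ℝ), 0))) - bp F)) y < κ := hd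
      linarith
    · show h (u, mm q s) + (F (sq ε (s, ((73 / 100 : ℝ), 0))) - bp F) = _
      rw [mm_bd hbd, hb u hu]
      abel

end Pool.Agent.Helper34.S5


end

/-! ## Helper34.BI5.M_PRM -/

section

/-!
# PRM: the parameters; half circles replaced by spirals
-/

set_option autoImplicit false

open scoped Manifold ContDiff Topology ComplexConjugate
open Set Filter Pool.Agent.Helper65.Barb Pool.Agent.Helper18.BI
open Pool.Agent.Helper70.BI (I4)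
open Pool.Agent.Helper27.BI (e1)
open Pool.Agent.Helper27.H
open Pool.Agent.Helper27.S5
open Pool.Agent.Helper18.BI.H
open Pool.Agent.Helper18.BI.R
open Pool.Agent.Helper18.BI.R.HEP (dbd)

namespace Pool.Agent.Helper34.S5

private theorem PRM_a {x a b : ℝ} (h : (x - 1) ^ 2 + a ^ 2 + b ^ 2 ≤ 49 / 100) : 3 / 10 ≤ x := by
  by_contra hc
  rw [not_le] at hc
  have h1 : 0 < (3 / 10 - x) * (17 / 10 - x) := mul_pos (by linarith) (by linarith)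
  linarith [sq_nonneg a, sq_nonneg b]

private theorem PRM_b {x a b : ℝ} (h3 : 3 / 10 ≤ x) (h : x ^ 2 + a ^ 2 + b ^ 2 = 1 / 25) : False := by
  have h1 : 0 ≤ (x - 3 / 10) * (x + 3 / 10) := mul_nonneg (by linarith) (by linarith)
  linarith [sq_nonneg a, sq_nonneg b]

private theorem PRM_c {β : ℝ} (h1 : 0 < β) (h2 : β < 1 / 5) (h : β ^ 2 = 1 / 25) : False := by
  have h3 : 0 < (1 / 5 - β) * (1 / 5 + β) := mul_pos (by linarith) (by linarith)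
  linarith

private theorem PRM_d {ρ : ℝ} (h1 : 0 < ρ) (h : (1 / 5 + 1 * ρ) ^ 2 = 1 / 25) : False := by
  have h3 : 0 < ρ * (2 / 5 + ρ) := mul_pos h1 (by linarith)
  linarith

private theorem PRM_e {ρ : ℝ} (h1 : 0 < ρ) (h2 : ρ < 1 / 100) (h : (1 / 5 + -1 * ρ) ^ 2 = 1 / 25) :
    False := by
  have h3 : 0 < ρ * (2 / 5 - ρ) := mul_pos h1 (by linarith)
  linarith

private theorem PRM_f {w : ℝ} : 1 / 25 < (27 / 100) ^ 2 + w ^ 2 := by
  have h1 : (0 : ℝ) ≤ w ^ 2 := sq_nonneg w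
  linarith

private theorem PRM_g {s : ℝ} (h : 0 < s) : 1 / 25 < (1 / 5 + 1 * s) ^ 2 := by
  have h3 : 0 < s * (2 / 5 + s) := mul_pos h (by linarith)
  linarith

private theorem PRM_h {β u : ℝ} (h : 0 < 1 / 5 - β) (hu : u ≤ 1) :
    β ≤ 1 / 5 + (1 - 2 * u) * (1 / 5 - β) := by
  have h3 : 0 ≤ (1 - u) * (1 / 5 - β) := mul_nonneg (by linarith) h.le
  linarith

private theorem PRM_i {β δ A : ℝ} (h : β ≤ A) (h0 : 0 < β) (h1 : 1 / 25 - δ < β ^ 2)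
    (h2 : A ^ 2 ≤ 1 / 25 - δ) : False := by
  have h3 : 0 ≤ (A - β) * (A + β) := mul_nonneg (by linarith) (by linarith)
  linarith

private theorem PRM_j {δ r : ℝ} (h0 : 0 < r) (h1 : r ≤ δ) (h2 : r < 1 / 100) :
    1 / 25 - δ < (1 / 5 - r - r / 2) ^ 2 ∧ 1 / 25 - δ < (1 / 5 - r) ^ 2 ∧
      (1 / 5 - r + r / 2) ^ 2 < 1 / 25 := by
  have h3 : 0 < r * r := mul_pos h0 h0
  have h4 : 0 < r * (1 / 100 - r) := mul_pos h0 (by linarith)
  refine ⟨by linarith, by linarith, by linarith⟩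

private theorem PRM_k {δ δ' r : ℝ} (h0 : 0 < δ) (h1 : δ < δ' / 6) (h2 : δ' < 1 / 100)
    (h3 : δ < (1 / 25 - (1 / 5 - r + r / 2) ^ 2) / 6) (h4 : 0 < r) (h5 : r < 1 / 100)
    (hlo : 1 / 25 - δ' < (1 / 5 - r - r / 2) ^ 2) : Par δ δ' (r / 2) (1 / 5 - r) :=
  ⟨h0, by linarith only [h0, h1], h2, by linarith only [h4], by linarith only [h4, h5], hlo,
    by linarith only [h0, h3]⟩

private theorem PRM_l {r r₂ r₀ t : ℝ} (h0 : 0 < r₂) (h1 : r₂ < r) (h2 : r < r₀)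
    (ht : t ∈ Icc (0 : ℝ) 1) : r₂ + (r - r₂) * |2 * t - 1| ∈ Ioo 0 r₀ := by
  have h3 : |2 * t - 1| ≤ 1 := abs_le.2 ⟨by linarith only [ht.1], by linarith only [ht.2]⟩
  have h4 : 0 ≤ (r - r₂) * |2 * t - 1| := mul_nonneg (sub_nonneg.2 h1.le) (abs_nonneg _)
  have h5 : (r - r₂) * |2 * t - 1| ≤ (r - r₂) * 1 := mul_le_mul_of_nonneg_left h3 (sub_nonneg.2 h1.le)
  exact ⟨by linarith only [h0, h4], by linarith only [h2, h5]⟩

private theorem PRM_n {s τ r₀ : ℝ} (h0 : 0 ≤ s) (h1 : s ≤ 1) (hτ : τ ∈ Ioo 0 r₀) : |s * τ| < r₀ := by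
  rw [abs_of_nonneg (mul_nonneg h0 hτ.1.le)]
  exact lt_of_le_of_lt ((mul_le_mul_of_nonneg_right h1 hτ.1.le).trans_eq (one_mul _)) hτ.2

/-- points near the point `(1/2, (1, 1/5))` of the fixed cuff -/
noncomputable def Qp (x y : ℝ) : R4 := (1 / 2 + x, ((1 : ℝ), ((1 / 5 + y : ℝ) : ℂ)))

/-- points beside the bar -/
noncomputable def Lp (w : ℝ) : R4 := (1 / 2, ((73 / 100 : ℝ), (w : ℂ)))

theorem continuous_Qp : Continuous fun z : ℝ × ℝ => Qp z.1 z.2 := by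
  unfold Qp
  fun_prop

theorem continuous_Lp : Continuous Lp := by
  unfold Lp
  fun_prop

theorem nm_01 : nm ((0, 1) : R3) = 1 := by
  unfold nm nsq
  norm_num

theorem Gc_01 (c : ℂ) : Gc c ((0, 1) : R3) = Qp c.re c.im := by
  unfold Gc Qp
  rw [nm_01]
  refine Prod.ext rfl ?_
  refine Prod.ext ?_ ?_
  · show (1 : ℝ) + ((1 / 5 + c.im) * 1⁻¹) * 0 = 1
    ring
  · show (0 : ℂ) + ((1 / 5 + c.im) * 1⁻¹ : ℝ) • (1 : ℂ) = ((1 / 5 + c.im : ℝ) : ℂ)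
    rw [Complex.real_smul]
    simp

theorem rsq_Qp (x y : ℝ) : rsq 1 (Qp x y) = (1 / 5 + y) ^ 2 := by
  rw [Geo.rsq1]
  show ((1 : ℝ) - 1) ^ 2 + ((1 / 5 + y : ℝ) : ℂ).re ^ 2 + ((1 / 5 + y : ℝ) : ℂ).im ^ 2 = _
  rw [Complex.ofReal_re, Complex.ofReal_im]
  ring

theorem rsq_Lp (w : ℝ) : rsq 1 (Lp w) = (27 / 100) ^ 2 + w ^ 2 := by
  rw [Geo.rsq1]
  show ((73 / 100 : ℝ) - 1) ^ 2 + (w : ℂ).re ^ 2 + (w : ℂ).im ^ 2 = _
  rw [Complex.ofReal_re, Complex.ofReal_im]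
  ring

/-- the path on an ellipse or spiral -/
noncomputable def cp (F : R4 → R4) (ρ a t : ℝ) : R4 :=
  F (Qp (ρ * Real.cos (Real.pi * t)) (a * ρ * Real.sin (Real.pi * t)))

theorem hcirc_cp (F : R4 → R4) (r σ t : ℝ) (hσ : σ = 1 ∨ σ = -1) :
    hcirc F r (0, 1) σ t = cp F r σ t := by
  unfold hcirc cp
  rw [Gc_01]
  have h1 : ((r : ℂ) * Complex.exp (((σ * Real.pi * t : ℝ) : ℂ) * Complex.I)).re
      = r * Real.cos (σ * Real.pi * t) := by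
    rw [Complex.re_ofReal_mul, Complex.exp_ofReal_mul_I_re]
  have h2 : ((r : ℂ) * Complex.exp (((σ * Real.pi * t : ℝ) : ℂ) * Complex.I)).im
      = r * Real.sin (σ * Real.pi * t) := by
    rw [Complex.im_ofReal_mul, Complex.exp_ofReal_mul_I_im]
  rw [h1, h2]
  rcases hσ with rfl | rfl
  · rw [one_mul, one_mul]
  · rw [show (-1 : ℝ) * Real.pi * t = -(Real.pi * t) by ring, Real.cos_neg, Real.sin_neg]
    congr 2
    ring

/-! ### the forbidden region for `ε = 0` -/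

theorem sq0_far {δ : ℝ} {p : R4} (hp : p ∈ Reg δ) (h : 1 / 25 ≤ rsq 1 p) :
    sq 0 p ∈ sph 1 ∪ neck := by
  have h0 : sq 0 p ∈ SP := by
    apply hS4.1
    exact ⟨le_trans (by norm_num) (Geo.Reg_K3 hp).2.1, le_trans (by norm_num) h⟩
  have h2 : 3 / 10 ≤ p.2.1 := by
    have h1 := hp.2.2.2
    rw [Geo.rsq1] at h1
    exact PRM_a h1
  have h3 : 3 / 10 ≤ (sq 0 p).2.1 := by
    show 3 / 10 ≤ axc 0 p.2.1
    rcases le_or_gt p.2.1 (6 / 5) with h4 | h4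
    · rw [S4.axc0_mid (by linarith) h4]; exact h2
    · rw [S4.axc0_right h4.le]; norm_num
  rcases h0 with (h1 | h1) | h1
  · exfalso
    have h4 : rsq 0 (sq 0 p) = 1 / 25 := h1.2
    have h5 : rsq 0 (sq 0 p)
        = ((sq 0 p).2.1) ^ 2 + ((sq 0 p).2.2.re) ^ 2 + ((sq 0 p).2.2.im) ^ 2 := by
      show nsq ((sq 0 p).2.1 - 0, (sq 0 p).2.2) = _
      unfold nsq
      rw [sub_zero]
    rw [h5] at h4
    exact PRM_b h3 h4
  · exact Or.inl h1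
  · exact Or.inr h1

theorem sq0_Reg {δ : ℝ} {p : R4} (hp : p ∈ Reg δ) : sq 0 p ∈ sph 1 ∪ neck ∪ shell δ := by
  rcases le_or_gt (1 / 25) (rsq 1 p) with h | h
  · exact Or.inl (sq0_far hp h)
  · right
    rw [hS4.2.2.1 p (Or.inr (Or.inl h.le))]
    exact ⟨rfl, hp.2.2.1, h.le⟩

theorem sq0_ne_P2 {δ κ β : ℝ} (hδ : δ ∈ Ioo (0 : ℝ) (1 / 100)) (hκ : 0 < κ) (hβ : 0 < β)
    (hβ' : β < 1 / 5) {p : R4} (hp : p ∈ XX δ κ β) : sq 0 p ≠ (1 / 2, P2 β) := by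
  intro h
  have hR : rsq 1 ((1 / 2, P2 β) : R4) = β ^ 2 := by
    rw [Geo.rsq1]
    show ((1 : ℝ) - 1) ^ 2 + (β : ℂ).re ^ 2 + (β : ℂ).im ^ 2 = _
    rw [Complex.ofReal_re, Complex.ofReal_im]
    ring
  rcases le_or_gt (rsq 1 p) (1 / 25) with h1 | h1
  · rw [hS4.2.2.1 p (Or.inr (Or.inl h1))] at h
    have h2 : p.2 = P2 β := congrArg Prod.snd h
    refine hp.2 (Or.inl ⟨hp.1.1, hp.1.2.1, ?_⟩)
    rw [Geo.rsq_sgi hκ, h2, sub_self]
    have h3 : nsq (0 : R3) = 0 := by simp [nsq]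
    rw [h3, zero_div]
    linarith [hδ.2]
  · rcases sq0_far hp.1 h1.le with h2 | h2
    · rw [h] at h2
      have h3 : rsq 1 ((1 / 2, P2 β) : R4) = 1 / 25 := h2.2
      rw [hR] at h3
      exact PRM_c hβ hβ' h3
    · rw [h] at h2
      have h3 : (β : ℂ) = 0 := h2.2.2.2
      exact hβ.ne' (by exact_mod_cast h3)

/-! ### whiskers -/

/-- a nice path and a moving path after it -/
theorem pcat_cont {ξ : ℝ → R4} {P : ℝ × ℝ → R4} (hξ : ContinuousOn ξ (Icc (0 : ℝ) 1))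
    (hP : ContinuousOn P (Icc (0 : ℝ) 1 ×ˢ Icc (0 : ℝ) 1))
    (h : ∀ u ∈ Icc (0 : ℝ) 1, P (u, 0) = ξ 1) :
    ContinuousOn (fun z : ℝ × ℝ => pcat ξ (fun t => P (z.1, t)) z.2)
      (Icc (0 : ℝ) 1 ×ˢ Icc (0 : ℝ) 1) := by
  rw [continuousOn_iff_continuous_domRestrict]
  have hc : Continuous fun x : ↥(Icc (0 : ℝ) 1 ×ˢ Icc (0 : ℝ) 1) =>
      if (x : ℝ × ℝ).2 ≤ 1 / 2 then ξ (max 0 (min (2 * (x : ℝ × ℝ).2) 1))
      else P ((x : ℝ × ℝ).1, max 0 (min (2 * (x : ℝ × ℝ).2 - 1) 1)) := by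
    refine Continuous.if_le ?_ ?_ ?_ ?_ ?_
    · refine hξ.comp_continuous (by fun_prop) fun x => ⟨le_max_left _ _,
        max_le zero_le_one (min_le_right _ _)⟩
    · refine hP.comp_continuous (by fun_prop) fun x => ⟨x.2.1, le_max_left _ _,
        max_le zero_le_one (min_le_right _ _)⟩
    · fun_prop
    · fun_prop
    · intro x hx
      rw [hx]
      norm_num
      exact (h _ x.2.1).symm
  refine hc.congr fun x => ?_
  obtain ⟨⟨u, t⟩, hu, ht⟩ := x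
  have ht' : 0 ≤ t ∧ t ≤ 1 := ht
  show (if t ≤ 1 / 2 then ξ (max 0 (min (2 * t) 1)) else P (u, max 0 (min (2 * t - 1) 1)))
    = (if t ≤ 1 / 2 then ξ (2 * t) else P (u, 2 * t - 1))
  split_ifs with h1
  · rw [min_eq_left (by linarith), max_eq_right (by linarith [ht'.1])]
  · rw [not_le] at h1
    rw [min_eq_left (by linarith [ht'.2]), max_eq_right (by linarith)]

theorem pcat_off {K : Set R4} {ξ P : ℝ → R4} (hξ : ∀ t ∈ Icc (0 : ℝ) 1, ξ t ∉ K)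
    (hP : ∀ t ∈ Icc (0 : ℝ) 1, P t ∉ K) {t : ℝ} (ht : t ∈ Icc (0 : ℝ) 1) : pcat ξ P t ∉ K := by
  unfold pcat
  split_ifs with h
  · exact hξ _ ⟨by linarith [ht.1], by linarith⟩
  · rw [not_le] at h
    exact hP _ ⟨by linarith, by linarith [ht.2]⟩

theorem pcat_zero (ξ P : ℝ → R4) : pcat ξ P 0 = ξ 0 := by
  unfold pcat
  rw [if_pos (by norm_num), mul_zero]

theorem pcat_one (ξ P : ℝ → R4) : pcat ξ P 1 = P 1 := by
  unfold pcat
  rw [if_neg (by norm_num)]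
  norm_num

theorem pcat_congr {ξ P P' : ℝ → R4} (h : ∀ t ∈ Icc (0 : ℝ) 1, P t = P' t) {t : ℝ}
    (ht : t ∈ Icc (0 : ℝ) 1) : pcat ξ P t = pcat ξ P' t := by
  unfold pcat
  split_ifs with h1
  · rfl
  · rw [not_le] at h1
    exact h _ ⟨by linarith, by linarith [ht.2]⟩

theorem fill_cont1 {a : R3 → R4} {b : ℝ → R4} (ha : ContinuousOn a S2)
    (hb : ContinuousOn b (Icc (0 : ℝ) 1)) (h : a (1, 0) = b 1) : ContinuousOn (fill a b) S2 := by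
  have h1 := fill_cont (a := fun z => a z.2) (b := fun z => b z.2)
    (ha.comp continuousOn_snd fun z hz => hz.2) (hb.comp continuousOn_snd fun z hz => hz.2)
    fun u _ => h
  exact h1.comp (f := fun m : R3 => ((0 : ℝ), m)) (by fun_prop)
    fun m hm => ⟨⟨le_rfl, zero_le_one⟩, hm⟩

/-! ### points on the spirals -/

section
variable {F : R4 → R4} {O : Set R4} {r₀ : ℝ} (hSPO : SP ⊆ O) (hi : InjOn F O)
  (hFc : ContinuousOn F O) (hQ : ∀ x y, |x| < r₀ → |y| < r₀ → Qp x y ∈ O)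
  (hL : ∀ w, |w| < r₀ → Lp w ∈ O) (hr₀ : r₀ ≤ 1 / 100)

include hQ in
theorem cp_mem {ρ a : ℝ} (hρ : ρ ∈ Ioo 0 r₀) (ha : |a| ≤ 1) (t : ℝ) :
    Qp (ρ * Real.cos (Real.pi * t)) (a * ρ * Real.sin (Real.pi * t)) ∈ O := by
  have h1 := Real.abs_cos_le_one (Real.pi * t)
  have h2 := Real.abs_sin_le_one (Real.pi * t)
  refine hQ _ _ ?_ ?_
  · rw [abs_mul, abs_of_pos hρ.1]
    calc ρ * |Real.cos (Real.pi * t)| ≤ ρ * 1 := mul_le_mul_of_nonneg_left h1 hρ.1.le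
      _ < r₀ := by rw [mul_one]; exact hρ.2
  · rw [abs_mul, abs_mul, abs_of_pos hρ.1]
    calc |a| * ρ * |Real.sin (Real.pi * t)| ≤ 1 * ρ * 1 := by
          refine mul_le_mul (mul_le_mul_of_nonneg_right ha hρ.1.le) h2 (abs_nonneg _) ?_
          rw [one_mul]
          exact hρ.1.le
      _ < r₀ := by rw [mul_one, one_mul]; exact hρ.2

include hFc hQ in
theorem cp_cont {ρ : ℝ × ℝ → ℝ} {a : ℝ → ℝ} (hρ : Continuous ρ) (ha : Continuous a)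
    (h1 : ∀ z ∈ Icc (0 : ℝ) 1 ×ˢ Icc (0 : ℝ) 1, ρ z ∈ Ioo 0 r₀)
    (h2 : ∀ u ∈ Icc (0 : ℝ) 1, |a u| ≤ 1) :
    ContinuousOn (fun z : ℝ × ℝ => cp F (ρ z) (a z.1) z.2) (Icc (0 : ℝ) 1 ×ˢ Icc (0 : ℝ) 1) := by
  unfold cp
  refine hFc.comp (f := fun z : ℝ × ℝ => Qp (ρ z * Real.cos (Real.pi * z.2))
    (a z.1 * ρ z * Real.sin (Real.pi * z.2))) ?_ ?_
  · refine (continuous_Qp.comp (f := fun z : ℝ × ℝ => (ρ z * Real.cos (Real.pi * z.2),
      a z.1 * ρ z * Real.sin (Real.pi * z.2))) ?_).continuousOn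
    fun_prop
  · intro z hz
    exact cp_mem hQ (h1 z hz) (h2 z.1 hz.1) z.2

include hi hQ in
theorem cp_half {z : R4} (hz : z ∈ O) (hz1 : z.1 = 1 / 2) {ρ a t : ℝ} (hρ : ρ ∈ Ioo 0 r₀)
    (ha : |a| ≤ 1) (ht : t ∈ Icc (0 : ℝ) 1) (h : F z = cp F ρ a t) :
    t = 1 / 2 ∧ z = Qp 0 (a * ρ) := by
  have h1 : z = Qp (ρ * Real.cos (Real.pi * t)) (a * ρ * Real.sin (Real.pi * t)) :=
    hi hz (cp_mem hQ hρ ha t) h
  have h2 : 1 / 2 + ρ * Real.cos (Real.pi * t) = 1 / 2 := by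
    have h3 := congrArg Prod.fst h1
    rw [hz1] at h3
    exact h3.symm
  have h3 : Real.cos (Real.pi * t) = 0 := by
    rcases mul_eq_zero.1 (show ρ * Real.cos (Real.pi * t) = 0 by linarith) with h4 | h4
    · exact absurd h4 hρ.1.ne'
    · exact h4
  have h4 : Real.pi * t = Real.pi / 2 := by
    refine Real.injOn_cos ⟨mul_nonneg Real.pi_pos.le ht.1, ?_⟩ ⟨by positivity, by linarith [Real.pi_pos]⟩ ?_
    · calc Real.pi * t ≤ Real.pi * 1 := mul_le_mul_of_nonneg_left ht.2 Real.pi_pos.le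
        _ = Real.pi := mul_one _
    · rw [h3, Real.cos_pi_div_two]
  have h5 : t = 1 / 2 := by
    have h6 : Real.pi * (t - 1 / 2) = 0 := by linarith
    rcases mul_eq_zero.1 h6 with h7 | h7
    · exact absurd h7 Real.pi_ne_zero
    · linarith
  refine ⟨h5, ?_⟩
  rw [h1, h4, Real.cos_pi_div_two, Real.sin_pi_div_two, mul_zero, mul_one]

include hSPO hi hQ hr₀ in
theorem cp_off_sph1 {ρ σ t : ℝ} (hρ : ρ ∈ Ioo 0 r₀) (hσ : σ = 1 ∨ σ = -1)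
    (ht : t ∈ Icc (0 : ℝ) 1) : cp F ρ σ t ∉ F '' sph 1 := by
  rintro ⟨z, hz, h⟩
  have ha : |σ| ≤ 1 := by rcases hσ with rfl | rfl <;> norm_num
  obtain ⟨-, h2⟩ := cp_half hi hQ (hSPO (sph1_subset_SP hz)) hz.1 hρ ha ht h
  have h3 : rsq 1 z = 1 / 25 := hz.2
  rw [h2, rsq_Qp] at h3
  have h4 := hρ.1
  have h5 : ρ < 1 / 100 := lt_of_lt_of_le hρ.2 hr₀
  rcases hσ with rfl | rfl
  · exact PRM_d h4 h3
  · exact PRM_e h4 h5 h3

include hSPO hi hL in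
theorem Lp_off_sph1 {w : ℝ} (hw : |w| < r₀) : F (Lp w) ∉ F '' sph 1 := by
  rintro ⟨z, hz, h⟩
  have h1 := hi (hSPO (sph1_subset_SP hz)) (hL w hw) h
  have h3 : rsq 1 z = 1 / 25 := hz.2
  rw [h1, rsq_Lp] at h3
  exact PRM_f.ne' h3

include hSPO hi hL in
theorem nice_off {τ₁ : ℝ} (hτ : τ₁ ∈ Ioo 0 r₀) {ξ : ℝ → R4} (hξ : NicePath F τ₁ ξ) {t : ℝ}
    (ht : t ∈ Icc (0 : ℝ) 1) : ξ t ∉ F '' sph 1 := by
  rcases le_or_gt t (1 / 2) with h | h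
  · rw [hξ.start t ⟨ht.1, h⟩]
    refine Lp_off_sph1 hSPO hi hL ?_
    exact PRM_n (by linarith only [ht.1]) (by linarith only [h]) hτ
  · intro h1
    exact hξ.off t ⟨h.le, ht.2⟩ (image_mono subset_union_left h1)

include hSPO hi hFc hQ hL hr₀ in
/-- the half circles are homotopic to the spirals -/
theorem bh_spiral {r τ₁ σ : ℝ} (hr : r ∈ Ioo 0 r₀) (hτ : τ₁ ∈ Ioo 0 r₀) {ξ : ℝ → R4}
    {k : R3 → R4} (hξ : NicePath F τ₁ ξ) (hξ1 : ξ 1 = F (Qp r 0)) (hk : ContinuousOn k S2)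
    (hkK : ∀ m ∈ S2, k m ∉ F '' sph 1) (hk0 : k (1, 0) = F (Qp (-r) 0)) (hσ : σ = 1 ∨ σ = -1)
    {ϱ : ℝ → ℝ} (hϱ : Continuous ϱ) (h0 : ϱ 0 = r) (h1 : ϱ 1 = r)
    (h2 : ∀ t ∈ Icc (0 : ℝ) 1, ϱ t ∈ Ioo 0 r₀) :
    BH F (fill k (pcat ξ (hcirc F r (0, 1) σ))) (fill k (pcat ξ (fun t => cp F (ϱ t) σ t))) := by
  have ha : |σ| ≤ 1 := by rcases hσ with rfl | rfl <;> norm_num
  have hρ : ∀ z ∈ Icc (0 : ℝ) 1 ×ˢ Icc (0 : ℝ) 1, (1 - z.1) * r + z.1 * ϱ z.2 ∈ Ioo 0 r₀ := by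
    rintro ⟨u, t⟩ ⟨hu, ht⟩
    have h3 := h2 t ht
    exact convex_Ioo 0 r₀ hr h3 (by linarith [hu.2]) hu.1 (by ring)
  have e0 : ∀ u : ℝ, cp F ((1 - u) * r + u * ϱ 0) σ 0 = F (Qp r 0) := by
    intro u
    unfold cp
    rw [h0, mul_zero, Real.cos_zero, Real.sin_zero, mul_zero]
    congr 2
    ring
  have e1 : ∀ u : ℝ, cp F ((1 - u) * r + u * ϱ 1) σ 1 = F (Qp (-r) 0) := by
    intro u
    unfold cp
    rw [h1, mul_one, Real.cos_pi, Real.sin_pi, mul_zero]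
    congr 2
    ring
  have hP := cp_cont (F := F) hFc hQ (ρ := fun z => (1 - z.1) * r + z.1 * ϱ z.2)
    (a := fun _ => σ) (by fun_prop) continuous_const hρ fun _ _ => ha
  have hB := bh_fill_htpy (F := F) (k := k)
    (P := fun z => pcat ξ (fun t => cp F ((1 - z.1) * r + z.1 * ϱ t) σ t) z.2) hk hkK
    (pcat_cont hξ.cont hP fun u _ => (e0 u).trans hξ1.symm) (by
      intro u hu t ht
      exact pcat_off (fun t ht => nice_off hSPO hi hL hτ hξ ht)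
        (fun t ht => cp_off_sph1 hSPO hi hQ hr₀ (hρ (u, t) ⟨hu, ht⟩) hσ ht) ht) (by
      intro u _
      show pcat ξ _ 0 = _
      rw [pcat_zero, hξ.start 0 ⟨le_rfl, by norm_num⟩]
      show F (1 / 2, ((73 / 100 : ℝ), ((2 * 0 * τ₁ : ℝ) : ℂ))) = F (bar (73 / 100))
      norm_num
      rfl) (by
      intro u _
      show pcat ξ _ 1 = _
      rw [pcat_one, hk0]
      exact e1 u)
  obtain ⟨H, c1, c2, c3⟩ := hB
  refine ⟨H, c1, fun m hm => (c2 m hm).trans (fill_congr (fun _ _ => rfl) (fun t ht => ?_) hm),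
    fun m hm => (c3 m hm).trans (fill_congr (fun _ _ => rfl) (fun t ht => ?_) hm)⟩
  · refine pcat_congr (fun t _ => ?_) ht
    rw [hcirc_cp F r σ t hσ]
    congr 1
    ring
  · refine pcat_congr (fun t _ => ?_) ht
    congr 1
    ring

/-- the part of the collar outside the bar -/
theorem Lp_ne {δ : ℝ} {z : R4} (hz : z ∈ sph 1 ∪ neck ∪ shell δ) {w : ℝ} (hw : 0 < w) : z ≠ Lp w := by
  rintro rfl
  have h1 : 1 / 25 < rsq 1 (Lp w) := by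
    rw [rsq_Lp]
    exact PRM_f
  rcases hz with (hz | hz) | hz
  · exact h1.ne' hz.2
  · have h2 : (w : ℂ) = 0 := hz.2.2.2
    exact hw.ne' (by exact_mod_cast h2)
  · exact absurd hz.2.2 (not_le.2 h1)

include hSPO hi hFc hQ hL hr₀ in
theorem ns_spiral {r τ₁ σ : ℝ} (hr : r ∈ Ioo 0 r₀) (hτ : τ₁ ∈ Ioo 0 r₀) {ξ : ℝ → R4}
    {k : R3 → R4} (hξ : NicePath F τ₁ ξ) (hξ1 : ξ 1 = F (Qp r 0)) (hk : ContinuousOn k S2)
    (hk0 : k (1, 0) = F (Qp (-r) 0)) (hσ : σ = 1 ∨ σ = -1)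
    {ϱ : ℝ → ℝ} (hϱ : Continuous ϱ) (h0 : ϱ 0 = r) (h1 : ϱ 1 = r)
    (h2 : ∀ t ∈ Icc (0 : ℝ) 1, ϱ t ∈ Ioo 0 r₀) {δ κ β : ℝ} (hδ : δ ∈ Ioo (0 : ℝ) (1 / 100))
    (hκ : 0 < κ) (hβ : 0 < β) (h3 : ϱ (1 / 2) = 1 / 5 - β) (hsh : shell δ ⊆ O)
    (hkC : ∀ m ∈ S2, ∀ z ∈ sph 1 ∪ neck ∪ shell δ, k m ≠ F z)
    (hξC : ∀ t ∈ Icc (1 / 2 : ℝ) 1, ∀ z ∈ sph 1 ∪ neck ∪ shell δ, ξ t ≠ F z) :
    NS F (4 / 5 * τ₁) δ κ β (fill k (pcat ξ (fun t => cp F (ϱ t) σ t))) := by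
  have ha : |σ| ≤ 1 := by rcases hσ with rfl | rfl <;> norm_num
  have hzO : ∀ z ∈ sph 1 ∪ neck ∪ shell δ, z ∈ O := by
    rintro z (hz | hz)
    · exact hSPO (sphneck_subset_SP hz)
    · exact hsh hz
  have hmem : ∀ z ∈ Icc (0 : ℝ) 1 ×ˢ Icc (0 : ℝ) 1, ϱ z.2 ∈ Ioo 0 r₀ := fun z hz => h2 z.2 hz.2
  have hP := cp_cont (F := F) hFc hQ (ρ := fun z => ϱ z.2)
    (a := fun _ => σ) (by fun_prop) continuous_const hmem fun _ _ => ha
  have hP1 : ContinuousOn (pcat ξ (fun t => cp F (ϱ t) σ t)) (Icc (0 : ℝ) 1) := by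
    have h4 := pcat_cont hξ.cont hP fun u _ => by
      show cp F (ϱ 0) σ 0 = _
      rw [hξ1]
      unfold cp
      rw [h0, mul_zero, Real.cos_zero, Real.sin_zero, mul_zero, mul_one]
    exact h4.comp (f := fun t : ℝ => ((0 : ℝ), t)) (by fun_prop)
      fun t ht => ⟨⟨le_rfl, zero_le_one⟩, ht⟩
  refine ⟨?_, ?_, ?_⟩
  · refine fill_cont1 hk hP1 ?_
    rw [pcat_one, hk0]
    unfold cp
    rw [h1, mul_one, Real.cos_pi, Real.sin_pi, mul_zero, mul_neg, mul_one]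
  · intro m hm hm1
    have h4 := (dbd hm).1
    unfold fill
    rw [if_neg (by linarith), max_eq_left (by linarith)]
    unfold pcat
    rw [if_pos (by linarith), hξ.start _ ⟨by linarith, by linarith⟩]
    congr 4
    ring
  · intro m hm hm1 p hp
    have hz := sq0_Reg hp.1
    unfold fill
    split_ifs with h4
    · exact hkC _ (sg0_mem hm) _ hz
    · rw [not_le] at h4
      rw [max_eq_left (by linarith)]
      unfold pcat
      split_ifs with h5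
      · rcases le_or_gt (1 / 2) (2 * (2 * (1 - m.1))) with h6 | h6
        · exact hξC _ ⟨h6, by linarith⟩ _ hz
        · rw [hξ.start _ ⟨by linarith, h6.le⟩]
          intro h7
          have h8 : 0 < 2 * (2 * (2 * (1 - m.1))) * τ₁ :=
            mul_pos (by linarith only [hm1, h4, h5, h6]) hτ.1
          have h9 : |2 * (2 * (2 * (1 - m.1))) * τ₁| < r₀ :=
            PRM_n (by linarith only [hm1, h4, h5, h6]) (by linarith only [hm1, h4, h5, h6]) hτ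
          exact Lp_ne hz h8 (hi (hzO _ hz) (hL _ h9) h7.symm)
      · rw [not_le] at h5
        intro h6
        have ht : 2 * (2 * (1 - m.1)) - 1 ∈ Icc (0 : ℝ) 1 := ⟨by linarith, by linarith⟩
        have hz1 : (sq 0 p).1 = 1 / 2 := by
          rcases hz with (hz | hz) | hz
          · exact hz.1
          · exact hz.1
          · exact hz.1
        obtain ⟨h7, h8⟩ := cp_half hi hQ (hzO _ hz) hz1 (h2 _ ht) ha ht h6.symm
        rw [h7, h3] at h8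
        have h9 : (1 / 5 - β) ∈ Ioo 0 r₀ := h3 ▸ h2 _ ⟨by norm_num, by norm_num⟩
        rcases hσ with rfl | rfl
        · rw [h8] at hz
          have h10 : 1 / 25 < rsq 1 (Qp 0 (1 * (1 / 5 - β))) := by
            rw [rsq_Qp]
            exact PRM_g h9.1
          rcases hz with (hz | hz) | hz
          · exact h10.ne' hz.2
          · have h11 : ((1 / 5 + 1 * (1 / 5 - β) : ℝ) : ℂ) = 0 := hz.2.2.2
            have h12 : (1 / 5 + 1 * (1 / 5 - β) : ℝ) = 0 := by exact_mod_cast h11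
            linarith [h9.1]
          · exact absurd hz.2.2 (not_le.2 h10)
        · refine sq0_ne_P2 hδ hκ hβ (by linarith [h9.1]) hp ?_
          rw [h8]
          unfold Qp P2
          rw [add_zero]
          congr 3
          ring

include hSPO hi hFc hQ hL in
theorem bho_spiral {r τ₁ : ℝ} (hr : r ∈ Ioo 0 r₀) (hτ : τ₁ ∈ Ioo 0 r₀) {ξ : ℝ → R4}
    {k : R3 → R4} (hξ : NicePath F τ₁ ξ) (hξ1 : ξ 1 = F (Qp r 0)) (hk : ContinuousOn k S2)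
    (hk0 : k (1, 0) = F (Qp (-r) 0))
    {ϱ : ℝ → ℝ} (hϱ : Continuous ϱ) (h0 : ϱ 0 = r) (h1 : ϱ 1 = r)
    (h2 : ∀ t ∈ Icc (0 : ℝ) 1, ϱ t ∈ Ioo 0 r₀) {δ β : ℝ} (hδ : δ ∈ Ioo (0 : ℝ) (1 / 100))
    (hβ : 0 < β) (hβ2 : 1 / 25 - δ < β ^ 2) (h3 : ϱ (1 / 2) = 1 / 5 - β) (hsh : shell δ ⊆ O)
    (hkC : ∀ m ∈ S2, ∀ z ∈ sph 1 ∪ neck ∪ shell δ, k m ≠ F z)
    (hξC : ∀ t ∈ Icc (1 / 2 : ℝ) 1, ∀ z ∈ sph 1 ∪ neck ∪ shell δ, ξ t ≠ F z) :
    BHO F (sq 0 '' wallS δ) (fill k (pcat ξ (fun t => cp F (ϱ t) 1 t)))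
      (fill k (pcat ξ (fun t => cp F (ϱ t) (-1) t))) := by
  have ha : ∀ u ∈ Icc (0 : ℝ) 1, |1 - 2 * u| ≤ 1 := fun u hu =>
    abs_le.2 ⟨by linarith [hu.2], by linarith [hu.1]⟩
  have hmem : ∀ z ∈ Icc (0 : ℝ) 1 ×ˢ Icc (0 : ℝ) 1, ϱ z.2 ∈ Ioo 0 r₀ := fun z hz => h2 z.2 hz.2
  have hP := cp_cont (F := F) hFc hQ (ρ := fun z => ϱ z.2)
    (a := fun u => 1 - 2 * u) (by fun_prop) (by fun_prop) hmem ha
  have hP1 := pcat_cont hξ.cont hP fun u _ => by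
    show cp F (ϱ 0) (1 - 2 * u) 0 = _
    rw [hξ1]
    unfold cp
    rw [h0, mul_zero, Real.cos_zero, Real.sin_zero, mul_zero, mul_one]
  refine ⟨fun z => fill k (pcat ξ (fun t => cp F (ϱ t) (1 - 2 * z.1) t)) z.2, ?_, ?_, ?_, ?_⟩
  · refine fill_cont (a := fun z => k z.2)
      (b := fun z => pcat ξ (fun t => cp F (ϱ t) (1 - 2 * z.1) t) z.2)
      (hk.comp continuousOn_snd fun z hz => hz.2) hP1 fun u _ => ?_
    show k (1, 0) = pcat ξ _ 1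
    rw [pcat_one, hk0]
    unfold cp
    rw [h1, mul_one, Real.cos_pi, Real.sin_pi, mul_zero, mul_neg, mul_one]
  · intro u _
    show fill k _ (1, 0) = bp F
    rw [fill_base, pcat_zero, hξ.start 0 ⟨le_rfl, by norm_num⟩]
    show F (1 / 2, ((73 / 100 : ℝ), ((2 * 0 * τ₁ : ℝ) : ℂ))) = F (bar (73 / 100))
    norm_num
    rfl
  · intro m hm
    constructor
    · refine fill_congr (fun _ _ => rfl) (fun t ht => pcat_congr (fun t _ => ?_) ht) hm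
      show cp F (ϱ t) (1 - 2 * 0) t = _
      congr 1
      ring
    · refine fill_congr (fun _ _ => rfl) (fun t ht => pcat_congr (fun t _ => ?_) ht) hm
      show cp F (ϱ t) (1 - 2 * 1) t = _
      congr 1
      ring
  · intro u hu m hm
    have hW : ∀ z ∈ sq 0 '' wallS δ, z ∈ shell δ ∧ rsq 1 z ≤ 1 / 25 - δ := by
      rintro _ ⟨p, hp, rfl⟩
      refine ⟨sq0_wall_shell hδ.1 le_rfl hp, ?_⟩
      rw [sq0_wall hδ.1 hp]
      exact hp.2.2.2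
    refine fill_off (K := F '' (sq 0 '' wallS δ)) (a := k) (fun m hm => ?_) (fun t ht => ?_) hm
    · rintro ⟨z, hz, h⟩
      exact hkC m hm z (Or.inr (hW z hz).1) h.symm
    · refine pcat_off (fun t ht => ?_) (fun t ht => ?_) ht
      · rintro ⟨z, hz, h⟩
        rcases le_or_gt (1 / 2) t with h6 | h6
        · exact hξC t ⟨h6, ht.2⟩ z (Or.inr (hW z hz).1) h.symm
        · rw [hξ.start t ⟨ht.1, h6.le⟩] at h
          have h9 : |2 * t * τ₁| < r₀ := PRM_n (by linarith only [ht.1]) (by linarith only [h6]) hτ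
          have h10 := hi (hsh (hW z hz).1) (hL _ h9) h
          have h11 := (hW z hz).2
          rw [h10, rsq_Lp] at h11
          have h12 := PRM_f (w := 2 * t * τ₁)
          have h13 := hδ.1
          linarith only [h11, h12, h13]
      · rintro ⟨z, hz, h⟩
        obtain ⟨h7, h8⟩ := cp_half hi hQ (hsh (hW z hz).1) (hW z hz).1.1 (h2 _ ht) (ha u hu) ht h
        have h11 := (hW z hz).2
        rw [h7, h3] at h8
        rw [h8, rsq_Qp] at h11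
        have h9 : (1 / 5 - β) ∈ Ioo 0 r₀ := h3 ▸ h2 _ ⟨by norm_num, by norm_num⟩
        exact PRM_i (PRM_h h9.1 hu.2) hβ hβ2 h11

end

theorem m_PRM : StPRM := by
  intro F hF
  have hSP : IsCompact SP := hS4.2.2.2.2.2.2.2.2.1
  obtain ⟨O, hO, hSPO, hFO, hFc⟩ := emb_open hSP hF
  obtain ⟨δ₀, hδ₀, hsh₀⟩ := exists_shell hO (fun p hp => hSPO (sph1_subset_SP hp))
  obtain ⟨ε₁, hε₁, hb₁⟩ := Metric.isOpen_iff.1 (hO.preimage continuous_Qp) (0, 0) (by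
    refine hSPO (sph1_subset_SP ⟨?_, ?_⟩)
    · show 1 / 2 + (0 : ℝ) = 1 / 2
      ring
    · show rsq 1 (Qp 0 0) = 1 / 25
      rw [rsq_Qp]
      norm_num)
  obtain ⟨ε₂, hε₂, hb₂⟩ := Metric.isOpen_iff.1 (hO.preimage continuous_Lp) 0 (by
    have h1 : Lp 0 = bar (73 / 100) := by
      unfold Lp
      norm_num
      rfl
    show Lp 0 ∈ O
    rw [h1]
    exact hSPO (bar_mem_SP (by norm_num) (by norm_num)))
  refine ⟨δ₀, hδ₀.1, Pool.Agent.Helper27.BI.EmbOn.mono hFO (union_subset hSPO hsh₀),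
    min (min ε₁ ε₂) (1 / 100), by positivity, ?_⟩
  intro r hr τ₁ hτ ξ k hξ hξ1 hk hkN hk1
  have hQ : ∀ x y, |x| < min (min ε₁ ε₂) (1 / 100) → |y| < min (min ε₁ ε₂) (1 / 100) →
      Qp x y ∈ O := by
    intro x y hx hy
    refine hb₁ (a := (x, y)) ?_
    rw [Metric.mem_ball, Prod.dist_eq, max_lt_iff, Real.dist_eq, Real.dist_eq]
    show |x - 0| < ε₁ ∧ |y - 0| < ε₁
    rw [sub_zero, sub_zero]
    exact ⟨lt_of_lt_of_le hx ((min_le_left _ _).trans (min_le_left _ _)),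
      lt_of_lt_of_le hy ((min_le_left _ _).trans (min_le_left _ _))⟩
  have hL : ∀ w, |w| < min (min ε₁ ε₂) (1 / 100) → Lp w ∈ O := by
    intro w hw
    refine hb₂ (a := w) ?_
    rw [mem_ball_zero_iff]
    exact lt_of_lt_of_le hw ((min_le_left _ _).trans (min_le_right _ _))
  have hr₀ : min (min ε₁ ε₂) (1 / 100) ≤ 1 / 100 := min_le_right _ _
  generalize min (min ε₁ ε₂) (1 / 100) = r₀ at hr hτ hQ hL hr₀
  have hξ1' : ξ 1 = F (Qp r 0) := by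
    rw [hξ1, Gc_01]
    rfl
  have hk1' : k (1, 0) = F (Qp (-r) 0) := by
    rw [hk1, Gc_01]
    congr 2
    simp
  -- the compact set to be avoided
  have hC : IsCompact (k '' S2 ∪ ξ '' Icc (1 / 2) 1) :=
    (isCompact_S2.image_of_continuousOn hk).union
      (isCompact_Icc.image_of_continuousOn (hξ.cont.mono (Icc_subset_Icc (by norm_num) le_rfl)))
  have hO' : IsOpen (O ∩ F ⁻¹' (k '' S2 ∪ ξ '' Icc (1 / 2) 1)ᶜ) :=
    hFc.isOpen_inter_preimage hO hC.isClosed.isOpen_compl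
  have hN : ∀ z ∈ sph 1 ∪ neck, F z ∉ k '' S2 ∪ ξ '' Icc (1 / 2) 1 := by
    rintro z hz (⟨m, hm, h⟩ | ⟨t, ht, h⟩)
    · exact hkN m hm ⟨z, hz, h.symm⟩
    · exact hξ.off t ht ⟨z, hz, h.symm⟩
  obtain ⟨δ₂, hδ₂, hsh₂⟩ := exists_shell hO' (fun p hp =>
    ⟨hSPO (sph1_subset_SP hp), hN p (Or.inl hp)⟩)
  obtain ⟨δ', hδ', hδδ₀, hδδ₂⟩ : ∃ δ' ∈ Ioo (0 : ℝ) (1 / 100), δ' ≤ δ₀ ∧ δ' ≤ δ₂ :=
    ⟨min δ₀ δ₂, ⟨lt_min hδ₀.1 hδ₂.1, lt_of_le_of_lt (min_le_left _ _) hδ₀.2⟩, min_le_left _ _,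
      min_le_right _ _⟩
  have hshell : shell δ' ⊆ O ∩ F ⁻¹' (k '' S2 ∪ ξ '' Icc (1 / 2) 1)ᶜ := fun p hp =>
    hsh₂ ⟨hp.1, by linarith [hp.2.1], hp.2.2⟩
  have hsh : shell δ' ⊆ O := fun p hp => (hshell hp).1
  have hCC : ∀ z ∈ sph 1 ∪ neck ∪ shell δ', F z ∉ k '' S2 ∪ ξ '' Icc (1 / 2) 1 := by
    rintro z (hz | hz)
    · exact hN z hz
    · exact (hshell hz).2
  have hkC : ∀ m ∈ S2, ∀ z ∈ sph 1 ∪ neck ∪ shell δ', k m ≠ F z := fun m hm z hz h =>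
    hCC z hz (Or.inl ⟨m, hm, h⟩)
  have hξC : ∀ t ∈ Icc (1 / 2 : ℝ) 1, ∀ z ∈ sph 1 ∪ neck ∪ shell δ', ξ t ≠ F z :=
    fun t ht z hz h => hCC z hz (Or.inr ⟨t, ht, h⟩)
  -- the parameters
  obtain ⟨r₂, hr₂, hr₂r, hr₂δ⟩ : ∃ r₂ > 0, r₂ < r ∧ r₂ ≤ δ' :=
    ⟨min (r / 2) δ', lt_min (by linarith [hr.1]) hδ'.1,
      lt_of_le_of_lt (min_le_left _ _) (by linarith [hr.1]), min_le_right _ _⟩
  have hr₂2 : r₂ < 1 / 100 := by linarith [hδ'.2]
  have hβ : 0 < 1 / 5 - r₂ := by linarith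
  obtain ⟨hlo, hlo', hhi⟩ := PRM_j hr₂ hr₂δ hr₂2
  let ϱ : ℝ → ℝ := fun t => r₂ + (r - r₂) * |2 * t - 1|
  have hϱ : Continuous ϱ := by fun_prop
  have h0 : ϱ 0 = r := by
    show r₂ + (r - r₂) * |2 * 0 - 1| = r
    norm_num
  have h1 : ϱ 1 = r := by
    show r₂ + (r - r₂) * |2 * 1 - 1| = r
    norm_num
  have h12 : ϱ (1 / 2) = 1 / 5 - (1 / 5 - r₂) := by
    show r₂ + (r - r₂) * |2 * (1 / 2) - 1| = _
    norm_num
  have h2 : ∀ t ∈ Icc (0 : ℝ) 1, ϱ t ∈ Ioo 0 r₀ := by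
    intro t ht
    exact PRM_l hr₂ hr₂r hr.2 ht
  have hkK : ∀ m ∈ S2, k m ∉ F '' sph 1 := fun m hm h => hkN m hm (image_mono subset_union_left h)
  refine ⟨δ', r₂ / 2, 1 / 5 - r₂, min (δ' / 6) ((1 / 25 - (1 / 5 - r₂ + r₂ / 2) ^ 2) / 6),
    fill k (pcat ξ (fun t => cp F (ϱ t) 1 t)), fill k (pcat ξ (fun t => cp F (ϱ t) (-1) t)),
    lt_min (by linarith [hδ'.1]) (by linarith), hδδ₀, ?_, ?_, ?_, ?_, ?_, ?_⟩
  · intro δ hδ
    have h3 : δ < δ' / 6 := lt_of_lt_of_le hδ.2 (min_le_left _ _)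
    have h4 : δ < (1 / 25 - (1 / 5 - r₂ + r₂ / 2) ^ 2) / 6 := lt_of_lt_of_le hδ.2 (min_le_right _ _)
    exact PRM_k hδ.1 h3 hδ'.2 h4 hr₂ hr₂2 hlo
  · exact ns_spiral hSPO (hFO.2) hFc hQ hL hr₀ hr hτ hξ hξ1' hk hk1' (Or.inl rfl) hϱ h0 h1 h2 hδ'
      (by positivity) hβ h12 hsh hkC hξC
  · exact ns_spiral hSPO (hFO.2) hFc hQ hL hr₀ hr hτ hξ hξ1' hk hk1' (Or.inr rfl) hϱ h0 h1 h2 hδ'
      (by positivity) hβ h12 hsh hkC hξC
  · exact bh_spiral hSPO (hFO.2) hFc hQ hL hr₀ hr hτ hξ hξ1' hk hkK hk1' (Or.inl rfl) hϱ h0 h1 h2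
  · exact bh_spiral hSPO (hFO.2) hFc hQ hL hr₀ hr hτ hξ hξ1' hk hkK hk1' (Or.inr rfl) hϱ h0 h1 h2
  · exact bho_spiral hSPO (hFO.2) hFc hQ hL hr hτ hξ hξ1' hk hk1' hϱ h0 h1 h2 hδ' hβ hlo' h12 hsh
      hkC hξC

end Pool.Agent.Helper34.S5


end
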