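import Pool.Agent.Helper65.Barb.Defs
import Pool.Agent.Helper70.BI.C.P37
import Pool.Agent.Helper70.BI.C.P41

/-!
# Project BI (MP_8e98f2_gt): collected modules, part 73

The contents of the modules
* Helper37.BI5.M_SPL
* Helper62.BI5.M_THAT
* Helper63.BI5.M_MH
* Helper67.BI5.M_IO2
* Helper71.BI5.M_HE
* Helper84.BI5.M_E1
* Helper89.BI5.M_N2b
* Helper89.BI5.M_EXA

in one file, so that the whole proof builds in a short time.
-/

namespace Pool.Agent.Helper18.BI
end Pool.Agent.Helper18.BI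

namespace Pool.Agent.Helper18.BI.R
end Pool.Agent.Helper18.BI.R

namespace Pool.Agent.Helper27.BI
end Pool.Agent.Helper27.BI

namespace Pool.Agent.Helper27.H
end Pool.Agent.Helper27.H

namespace Pool.Agent.Helper34.BI
end Pool.Agent.Helper34.BI

namespace Pool.Agent.Helper34.BI.RE
end Pool.Agent.Helper34.BI.RE

namespace Pool.Agent.Helper65.Barb
end Pool.Agent.Helper65.Barb

namespace Pool.Agent.Helper70.BI
end Pool.Agent.Helper70.BI


/-! ## Helper37.BI5.M_SPL -/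

section

/-!
# Project BI, stage 5, module SPL: splitting a loop of pairs of arcs
-/

set_option autoImplicit false

open scoped Manifold ContDiff Topology ComplexConjugate
open Set Filter Pool.Agent.Helper65.Barb Pool.Agent.Helper18.BI
open Pool.Agent.Helper70.BI (I4 LD NearEq IsW)
open Pool.Agent.Helper27.H

namespace Pool.Agent.Helper27.S5

namespace SPL

open Pool.Agent.Helper70.BI (ld_iff ld_comp)

theorem cd_f (F : DFam 𝓘(ℝ, R4) R4) : ContDiff ℝ ∞ F.f := by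
  have h := F.smooth_f
  rw [← contMDiff_iff_contDiff, modelWithCornersSelf_prod, ← chartedSpaceSelf_prod]
  exact h

theorem cd_f' (F : DFam 𝓘(ℝ, R4) R4) (t : ℝ) : ContDiff ℝ ∞ (fun x => F.f (t, x)) :=
  (cd_f F).comp (contDiff_const.prodMk contDiff_id)

theorem ld_f (F : DFam 𝓘(ℝ, R4) R4) (t : ℝ) (x : R4) : LD (fun x => F.f (t, x)) x := by
  rw [ld_iff]
  refine ⟨Filter.Eventually.of_forall fun y => (cd_f' F t).contDiffAt, ?_⟩
  have h1 : (fun y => F.g (t, y)) ∘ (fun y => F.f (t, y)) = id := funext fun y => F.gf t y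
  have h2 : fderiv ℝ ((fun y => F.g (t, y)) ∘ (fun y => F.f (t, y))) x =
      (fderiv ℝ (fun y => F.g (t, y)) (F.f (t, x))).comp (fderiv ℝ (fun y => F.f (t, y)) x) :=
    fderiv_comp x ((cd_f' F.inv t).contDiffAt.differentiableAt (by simp))
      ((cd_f' F t).contDiffAt.differentiableAt (by simp))
  rw [h1, fderiv_id] at h2
  intro v w hvw
  have h3 := congrArg (fun L : R4 →L[ℝ] R4 => L v) h2
  have h4 := congrArg (fun L : R4 →L[ℝ] R4 => L w) h2
  simp only [ContinuousLinearMap.comp_apply, ContinuousLinearMap.id_apply] at h3 h4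
  rw [h3, h4]
  exact congrArg _ hvw

theorem mem_supp {F : DFam 𝓘(ℝ, R4) R4} {K : Set R4} (h : ∀ t x, x ∉ K → F.f (t, x) = x)
    (t : ℝ) {x : R4} (hx : x ∈ K) : F.f (t, x) ∈ K := by
  by_contra hc
  have h1 := h t _ hc
  have h2 : F.f (t, x) = x := by
    have h3 := congrArg (fun y => F.g (t, y)) h1
    simp only [F.gf] at h3
    exact h3
  rw [h2] at hc
  exact hc hx

theorem ld_continuousAt {J : R4 → R4} {p : R4} (h : LD J p) : ContinuousAt J p :=
  (ld_iff.1 h).1.self_of_nhds.continuousAt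

end SPL

open SPL in
/-- splitting a loop of pairs of arcs -/
theorem m_SPL (hCh : StCH4) : StSPL := by
  intro U C₁ C₂ J F hU hC1 hC2 hJ hJC2 hF0 hFs hF
  obtain ⟨K, hK, hKU, hFK⟩ := hFs
  have hU1 : IsOpen (U \ J '' C₂) := hU.sdiff hJC2.isClosed
  have hfam : Fam2 Q2 C₁ (interior {p | J p ∉ K}) (U \ J '' C₂)
      (fun a => (fun q p => F.f (q, J p)) a.2) := by
    refine ⟨fun a ha p hp => ?_, fun a ha => ⟨fun p hp => ?_, ?_⟩, fun a ha b hb p hp => ?_,
      fun a ha p hp hpV => ?_⟩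
    · have h1 := (Pool.Agent.Helper70.BI.ld_iff.1 (hJ.1 p hp)).1
      have h2 : ContinuousAt (fun z : (ℝ × ℝ) × R4 => z.2) (a, p) := continuous_snd.continuousAt
      filter_upwards [h2.eventually h1] with z hz
      have h3 : ContDiffAt ℝ ∞ (fun z : (ℝ × ℝ) × R4 => J z.2) z :=
        ContDiffAt.comp (g := J) (f := fun z : (ℝ × ℝ) × R4 => z.2) z hz contDiff_snd.contDiffAt
      have h4 : ContDiffAt ℝ ∞ (fun z : (ℝ × ℝ) × R4 => z.1.2) z :=
        (contDiff_snd.comp contDiff_fst).contDiffAt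
      exact ContDiffAt.comp (g := F.f) (f := fun z : (ℝ × ℝ) × R4 => (z.1.2, J z.2)) z
        (cd_f F).contDiffAt (h4.prodMk h3)
    · exact Pool.Agent.Helper70.BI.ld_comp (hJ.1 p hp) (ld_f F a.2 (J p))
    · intro p hp q hq h
      refine hJ.2 hp hq ?_
      have h3 := congrArg (fun y => F.g (a.2, y)) h
      simp only [F.gf] at h3
      exact h3
    · have h1 : J p ∉ K := interior_subset hp
      show F.f (a.2, J p) = F.f (b.2, J p)
      rw [hFK _ _ h1, hFK _ _ h1]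
    · have hJK : J p ∈ K := by
        by_contra hc
        refine hpV (mem_interior_iff_mem_nhds.2 ?_)
        exact (ld_continuousAt (hJ.1 p hp)) (hK.isClosed.isOpen_compl.mem_nhds hc)
      exact ⟨hKU (mem_supp hFK _ hJK), hF a.2 ha.2 p hp⟩
  obtain ⟨Θ, A₀, hA0, -, hAs, N, hN, hCN, hAN⟩ :=
    exists_lpush1 (J := fun q p => F.f (q, J p)) hCh hC1 isOpen_interior hU1 hfam
  obtain ⟨O, hO, hCO, hJO, -⟩ := emb_open hC1 hJ
  have hst : ∀ t, step t ∈ Icc (0 : ℝ) 1 := step_mem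
  have hstep0 : step 0 = 0 := Pool.Agent.Helper27.BI.step_zero
  obtain ⟨KA, hKA, hKAU, hKAs⟩ := hAs
  have hAJ : ∀ t, ∀ p ∈ N, A₀.f (step t, J p) = F.f (step (step t), J p) := by
    intro t p hp
    have h1 := hAN (step t) (hst t) p hp
    simp only [hF0] at h1
    exact h1
  -- an open neighbourhood of the first arc
  have hOpen : IsOpen (J '' (N ∩ O)) := by
    rw [isOpen_iff_mem_nhds]
    rintro _ ⟨p, hp, rfl⟩
    obtain ⟨Φ, hΦp, hΦ⟩ := hJO.1 p hp.2
    have h1 : IsOpen (Φ '' (Φ.source ∩ (N ∩ O))) := by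
      have := Φ.toOpenPartialHomeomorph.isOpen_image_source_inter (hN.inter hO)
      exact this
    refine Filter.mem_of_superset (h1.mem_nhds ⟨p, ⟨hΦp, hp⟩, (hΦ hΦp).symm⟩) ?_
    rintro _ ⟨q, hq, rfl⟩
    exact ⟨q, hq.2, hΦ hq.1⟩
  have hsτ : ContDiff ℝ ∞ (fun t => step (step t)) := contDiff_step.comp contDiff_step
  refine ⟨A₀.reparam step contDiff_step,
    ((A₀.reparam step contDiff_step).inv).comp (F.reparam (fun t => step (step t)) hsτ),
    fun x => ?_, fun x => ?_, ⟨KA, hKA, hKAU, fun t x hx => hKAs _ x hx⟩,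
    ⟨(K ∪ KA) \ J '' (N ∩ O), (hK.union hKA).diff hOpen, ?_, ?_⟩,
    ⟨N, hN, hCN, fun t p hp => hAJ t p hp⟩, fun t x => ?_⟩
  · change A₀.f (step 0, x) = x
    rw [hstep0, hA0]
  · change A₀.g (step 0, F.f (step (step 0), x)) = x
    rw [hstep0, hstep0, hF0]
    have h1 := A₀.gf 0 x
    rw [hA0] at h1
    exact h1
  · rintro x ⟨hx, hx2⟩
    refine ⟨?_, fun hc => hx2 ?_⟩
    · rcases hx with hx | hx
      · exact hKU hx
      · exact (hKAU hx).1
    · obtain ⟨p, hp, rfl⟩ := hc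
      exact ⟨p, ⟨hCN hp, hCO hp⟩, rfl⟩
  · intro t x hx
    change A₀.g (step t, F.f (step (step t), x)) = x
    by_cases hxO : x ∈ J '' (N ∩ O)
    · obtain ⟨p, hp, rfl⟩ := hxO
      rw [← hAJ t p hp.1, A₀.gf]
    · have hx1 : x ∉ K ∪ KA := fun hc => hx ⟨hc, hxO⟩
      have hx2 : x ∉ K := fun hc => hx1 (Or.inl hc)
      have hx3 : x ∉ KA := fun hc => hx1 (Or.inr hc)
      rw [hFK _ _ hx2]
      have h1 := A₀.gf (step t) x
      rw [hKAs _ _ hx3] at h1
      exact h1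
  · change A₀.f (step t, A₀.g (step t, F.f (step (step t), x))) = _
    rw [A₀.fg]

end Pool.Agent.Helper27.S5


end

/-! ## Helper62.BI5.M_THAT -/

section

/-!
# Project BI, stage 5, module THAT

The isotopy from the thin finger push to a finger push which drags along the whole ball of radius `41/200`.
-/

set_option autoImplicit false
set_option linter.unusedSectionVars false
set_option linter.unusedVariables false

open scoped Manifold ContDiff Topology ComplexConjugate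
open Set Filter Pool.Agent.Helper65.Barb Pool.Agent.Helper18.BI
open Pool.Agent.Helper70.BI (I4 LD NearEq ld_iff)
open Pool.Agent.Helper27.BI (e1 nsq_add_le)
open Pool.Agent.Helper27.H

namespace Pool.Agent.Helper27.S5

namespace THAT

/-- a smooth map with a smooth left inverse is a local diffeomorphism -/
theorem ld_of_left {F G : R4 → R4} (hF : ContDiff ℝ ∞ F) (hG : ContDiff ℝ ∞ G)
    (h : ∀ x, G (F x) = x) (p : R4) : LD F p := by
  rw [ld_iff]
  refine ⟨Eventually.of_forall fun q => hF.contDiffAt, ?_⟩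
  have d1 : HasFDerivAt F (fderiv ℝ F p) p := (hF.differentiable (by simp) p).hasFDerivAt
  have d2 : HasFDerivAt G (fderiv ℝ G (F p)) (F p) :=
    (hG.differentiable (by simp) (F p)).hasFDerivAt
  have d3 : HasFDerivAt (G ∘ F) ((fderiv ℝ G (F p)).comp (fderiv ℝ F p)) p := d2.comp p d1
  have e : G ∘ F = id := funext h
  rw [e] at d3
  have d4 := d3.unique (hasFDerivAt_id p)
  intro u v huv
  have h1 : (fderiv ℝ G (F p)) ((fderiv ℝ F p) u) = u := by
    have := congrArg (fun L : R4 →L[ℝ] R4 => L u) d4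
    simpa using this
  have h2 : (fderiv ℝ G (F p)) ((fderiv ℝ F p) v) = v := by
    have := congrArg (fun L : R4 →L[ℝ] R4 => L v) d4
    simpa using this
  rw [← h1, ← h2, huv]

/-- the scale factor -/
noncomputable def kap (c w s : ℝ) : ℝ := 1 - w + w * lam c s

/-- the germs -/
noncomputable def Jt (c : ℝ) (a : ℝ × ℝ) (p : R4) : R4 :=
  (p.1, e1 + (a.1 * -(bfin p.1)) • e1 + kap c a.2 p.1 • (p.2 - e1))

/-- the inverses -/
noncomputable def Jti (c : ℝ) (a : ℝ × ℝ) (p : R4) : R4 :=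
  (p.1, e1 + (kap c a.2 p.1)⁻¹ • (p.2 - (e1 + (a.1 * -(bfin p.1)) • e1)))

theorem contDiff_lam (c : ℝ) : ContDiff ℝ ∞ (lam c) := by
  have h1 : ContDiff ℝ ∞ (fun s : ℝ => step ((s - 7 / 20) / (2 / 25))) :=
    contDiff_step.comp ((contDiff_id.sub contDiff_const).div_const _)
  have h2 : ContDiff ℝ ∞ (fun s : ℝ => step ((13 / 20 - s) / (2 / 25))) :=
    contDiff_step.comp ((contDiff_const.sub contDiff_id).div_const _)
  exact contDiff_const.sub (contDiff_const.mul (h1.mul h2))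

theorem lam_mem {c : ℝ} (hc : c ∈ Ioo (0 : ℝ) 1) (s : ℝ) : 0 < lam c s ∧ lam c s ≤ 1 := by
  have h1 := step_mem ((s - 7 / 20) / (2 / 25))
  have h2 := step_mem ((13 / 20 - s) / (2 / 25))
  have h3 : 0 ≤ step ((s - 7 / 20) / (2 / 25)) * step ((13 / 20 - s) / (2 / 25)) :=
    mul_nonneg h1.1 h2.1
  have h4 : step ((s - 7 / 20) / (2 / 25)) * step ((13 / 20 - s) / (2 / 25)) ≤ 1 :=
    mul_le_one₀ h1.2 h2.1 h2.2
  have hc1 := hc.1
  have hc2 := hc.2
  unfold lam
  constructor <;> nlinarith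

theorem lam_out (c : ℝ) {s : ℝ} (hs : s ≤ 7 / 20 ∨ 13 / 20 ≤ s) : lam c s = 1 := by
  unfold lam
  rcases hs with h | h
  · rw [step_of_nonpos (s := (s - 7 / 20) / (2 / 25))
      (div_nonpos_of_nonpos_of_nonneg (by linarith) (by norm_num))]
    ring
  · rw [step_of_nonpos (s := (13 / 20 - s) / (2 / 25))
      (div_nonpos_of_nonpos_of_nonneg (by linarith) (by norm_num))]
    ring

theorem kap_mem {c : ℝ} (hc : c ∈ Ioo (0 : ℝ) 1) {w : ℝ} (hw : w ∈ Icc (0 : ℝ) 1) (s : ℝ) :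
    0 < kap c w s ∧ kap c w s ≤ 1 := by
  obtain ⟨h1, h2⟩ := lam_mem hc s
  obtain ⟨h3, h4⟩ := hw
  unfold kap
  constructor
  · rcases h4.lt_or_eq with h5 | h5
    · nlinarith
    · rw [h5]; linarith
  · nlinarith

theorem contDiff_Jt (c : ℝ) :
    ContDiff ℝ ∞ (fun z : (ℝ × ℝ) × R4 => Jt c z.1 z.2) := by
  have hl : ContDiff ℝ ∞ (fun z : (ℝ × ℝ) × R4 => lam c z.2.1) :=
    (contDiff_lam c).comp (contDiff_fst.comp contDiff_snd)
  have hb : ContDiff ℝ ∞ (fun z : (ℝ × ℝ) × R4 => bfin z.2.1) :=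
    contDiff_bfin.comp (contDiff_fst.comp contDiff_snd)
  have hk : ContDiff ℝ ∞ (fun z : (ℝ × ℝ) × R4 => kap c z.1.2 z.2.1) := by
    unfold kap
    fun_prop
  unfold Jt
  fun_prop

theorem contDiff_Jt1 (c : ℝ) (a : ℝ × ℝ) : ContDiff ℝ ∞ (Jt c a) :=
  (contDiff_Jt c).comp (f := fun p : R4 => (a, p)) (contDiff_const.prodMk contDiff_id)

theorem contDiff_Jti {c : ℝ} (hc : c ∈ Ioo (0 : ℝ) 1) {a : ℝ × ℝ} (ha : a ∈ Q2) :
    ContDiff ℝ ∞ (Jti c a) := by
  have hl : ContDiff ℝ ∞ (fun z : R4 => lam c z.1) := (contDiff_lam c).comp contDiff_fst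
  have hb : ContDiff ℝ ∞ (fun z : R4 => bfin z.1) := contDiff_bfin.comp contDiff_fst
  have hk : ContDiff ℝ ∞ (fun z : R4 => (kap c a.2 z.1)⁻¹) := by
    apply ContDiff.inv
    · unfold kap
      fun_prop
    · intro z
      exact (kap_mem hc ha.2 z.1).1.ne'
  unfold Jti
  fun_prop

theorem Jti_Jt {c : ℝ} (hc : c ∈ Ioo (0 : ℝ) 1) {a : ℝ × ℝ} (ha : a ∈ Q2) (p : R4) :
    Jti c a (Jt c a p) = p := by
  have hk := (kap_mem hc ha.2 p.1).1.ne'
  unfold Jti Jt
  ext1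
  · rfl
  · simp only
    rw [add_sub_cancel_left, smul_smul, inv_mul_cancel₀ hk, one_smul]
    abel

theorem Jt_zero (c : ℝ) (p : R4) : Jt c (0, 0) p = p := by
  unfold Jt kap
  ext1
  · rfl
  · simp

/-- the compact set of the parameters -/
def Lt : Set R4 := {p | 0 ≤ p.1 ∧ p.1 ≤ 1 ∧ nsq (p.2 - e1) ≤ (41 / 200) ^ 2}

/-- the frozen part -/
def Vt : Set R4 := {p | p.1 < 1 / 10 ∨ 9 / 10 < p.1}

/-- the support -/
def Ut : Set R4 := {p | 1 / 20 < p.1 ∧ p.1 < 19 / 20 ∧ nsq (p.2 - e1) < 49 / 100}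

theorem continuous_dist1 : Continuous (fun p : R4 => nsq (p.2 - e1)) :=
  H.continuous_nsq.comp (continuous_snd.sub continuous_const)

theorem isOpen_Vt : IsOpen Vt :=
  (isOpen_lt continuous_fst continuous_const).union (isOpen_lt continuous_const continuous_fst)

theorem isOpen_Ut : IsOpen Ut :=
  (isOpen_lt continuous_const continuous_fst).inter
    ((isOpen_lt continuous_fst continuous_const).inter
      (isOpen_lt continuous_dist1 continuous_const))

theorem isCompact_Lt : IsCompact Lt := by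
  have h : Lt = (fun q : ℝ × R3 => ((q.1, e1 + q.2) : R4)) ''
      (Icc 0 1 ×ˢ {y : R3 | nsq y ≤ (41 / 200) ^ 2}) := by
    ext p
    constructor
    · rintro ⟨h1, h2, h3⟩
      exact ⟨(p.1, p.2 - e1), ⟨⟨h1, h2⟩, h3⟩, by simp⟩
    · rintro ⟨q, ⟨hq1, hq2⟩, rfl⟩
      refine ⟨hq1.1, hq1.2, ?_⟩
      show nsq (e1 + q.2 - e1) ≤ _
      rw [add_sub_cancel_left]
      exact hq2
  rw [h]
  exact (isCompact_Icc.prod (Pool.Agent.Helper27.BI.CH.isCompact_nsq _)).image
    (continuous_fst.prodMk (continuous_const.add continuous_snd))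

theorem fam2_Jt {c : ℝ} (hc : c ∈ Ioo (0 : ℝ) 1) : Fam2 Q2 Lt Vt Ut (Jt c) where
  smooth a ha p hp := Eventually.of_forall fun z => (contDiff_Jt c).contDiffAt
  emb a ha := by
    refine ⟨fun p hp => ld_of_left (contDiff_Jt1 c a) (contDiff_Jti hc ha) (Jti_Jt hc ha) p, ?_⟩
    intro p hp q hq h
    rw [← Jti_Jt hc ha p, h, Jti_Jt hc ha q]
  froz a ha b hb p hp := by
    have h1 : bfin p.1 = 0 := bfin_out (hp.imp le_of_lt le_of_lt)
    have h2 : lam c p.1 = 1 := by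
      apply lam_out
      rcases hp with hp | hp
      · left; linarith
      · right; linarith
    unfold Jt kap
    rw [h1, h2]
    simp
  inU a ha p hp hpV := by
    have hp1 : 1 / 10 ≤ p.1 := by
      by_contra h
      push Not at h
      exact hpV (Or.inl h)
    have hp2 : p.1 ≤ 9 / 10 := by
      by_contra h
      push Not at h
      exact hpV (Or.inr h)
    refine ⟨?_, ?_, ?_⟩
    · show 1 / 20 < p.1
      linarith
    · show p.1 < 19 / 20
      linarith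
    · show nsq (e1 + (a.1 * -(bfin p.1)) • e1 + kap c a.2 p.1 • (p.2 - e1) - e1) < 49 / 100
      have e : e1 + (a.1 * -(bfin p.1)) • e1 + kap c a.2 p.1 • (p.2 - e1) - e1 =
          (a.1 * -(bfin p.1)) • e1 + kap c a.2 p.1 • (p.2 - e1) := by abel
      rw [e]
      obtain ⟨ha1, ha2⟩ := ha.1
      have hb1 := bfin_nonneg p.1
      have hb2 := bfin_le p.1
      obtain ⟨hk1, hk2⟩ := kap_mem hc ha.2 p.1
      have h1 : nsq ((a.1 * -(bfin p.1)) • e1) ≤ (27 / 100) ^ 2 := by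
        rw [H.nsq_smul, H.nsq_e1, mul_one]
        have h2 : a.1 * bfin p.1 ≤ 27 / 100 := by nlinarith
        have h3 : 0 ≤ a.1 * bfin p.1 := mul_nonneg ha1 hb1
        nlinarith
      have h2 : nsq (kap c a.2 p.1 • (p.2 - e1)) ≤ (41 / 200) ^ 2 := by
        rw [H.nsq_smul]
        have h3 := hp.2.2
        have h4 := BI.nsq_nonneg (p.2 - e1)
        have h5 : kap c a.2 p.1 ^ 2 ≤ 1 := by nlinarith
        calc kap c a.2 p.1 ^ 2 * nsq (p.2 - e1) ≤ 1 * nsq (p.2 - e1) :=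
              mul_le_mul_of_nonneg_right h5 h4
          _ ≤ _ := by linarith
      have h3 := nsq_add_le (by norm_num) (by norm_num) h1 h2
      have h4 : ((27 : ℝ) / 100 + 41 / 200) ^ 2 < 49 / 100 := by norm_num
      linarith

end THAT

open THAT in
/-- **THAT.** -/
theorem m_THAT (hCh : StCH4) : StTHAT := by
  intro T T' hT c hc
  obtain ⟨ok, -, F₂, g0, g1, gt, gl, gout, gfar⟩ := hT
  obtain ⟨P, hP, N, hN, hLN, K, hK, hKU, hPF⟩ := hCh Q2 Lt Vt Ut (Jt c) isCompact_Q2 convex_Q2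
    isCompact_Lt isOpen_Vt isOpen_Ut (fam2_Jt hc)
  have hb : ContDiff ℝ ∞ (fun t : ℝ => (step (step t), step t)) :=
    (contDiff_step.comp contDiff_step).prodMk contDiff_step
  have h00 : ((0 : ℝ), (0 : ℝ)) ∈ Q2 := by simp [Q2]
  obtain ⟨F₁, hF, fs, ft⟩ := hPF (fun _ => (0, 0)) (fun t => (step (step t), step t))
    contDiff_const hb (fun _ => h00) (fun t => ⟨step_mem _, step_mem _⟩)
  have f0 : ∀ x, F₁.f (0, x) = x := by
    intro x
    rw [hF, BI.step_zero, BI.step_zero]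
    exact hP _ h00 x
  have fU : ∀ t x, x ∉ Ut → F₁.f (t, x) = x := fun t x hx => fs t x fun h => hx (hKU h)
  have ft' : ∀ (t s : ℝ) (y : R3), s ∈ Icc (0 : ℝ) 1 → nsq y ≤ (41 / 200) ^ 2 →
      F₁.f (t, (s, e1 + y)) =
        (s, (1 - step (step t) * bfin s) • e1 + kap c (step t) s • y) := by
    intro t s y hs hy
    have h1 : ((s, e1 + y) : R4) ∈ N := by
      apply hLN
      refine ⟨hs.1, hs.2, ?_⟩
      show nsq (e1 + y - e1) ≤ _
      rw [add_sub_cancel_left]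
      exact hy
    have h2 := ft t _ h1
    rw [Jt_zero] at h2
    rw [h2]
    show ((s, e1 + (step (step t) * -(bfin s)) • e1 + kap c (step t) s • (e1 + y - e1)) : R4) = _
    rw [add_sub_cancel_left, sub_smul, one_smul, mul_neg, neg_smul, sub_eq_add_neg]
  -- the family
  let H : DFam 𝓘(ℝ, R4) R4 := (F₂.freeze 1).comp (F₂.inv.comp F₁)
  have hH : ∀ t x, H.f (t, x) = F₂.f (1, F₂.g (t, F₁.f (t, x))) := fun t x => rfl
  have hsupp : ∀ (t : ℝ) (p : R4), (p.1 ≤ 1 / 20 ∨ 19 / 20 ≤ p.1 ∨ 49 / 100 ≤ rsq 1 p) →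
      H.f (t, p) = p := by
    intro t p hp
    have h1 : p ∉ Ut := by
      rintro ⟨h1, h2, h3⟩
      rcases hp with hp | hp | hp
      · linarith
      · linarith
      · rw [rsq1_eq] at hp
        linarith
    have h2 : ∀ t, F₂.f (t, p) = p := by
      intro t
      rcases hp with hp | hp | hp
      · exact gout t p.1 p.2 (Or.inl (by linarith))
      · exact gout t p.1 p.2 (Or.inr (by linarith))
      · exact gfar t p (le_trans (by norm_num) hp)
    rw [hH, fU t p h1, DFam.g_eq (h2 t), h2 1]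
  refine ⟨H, ?_, ?_, hsupp, ?_⟩
  · intro x
    rw [hH, f0, DFam.g_eq (g0 x), g1]
  · intro t s
    by_cases hs : s ∈ Icc (0 : ℝ) 1
    · have h1 := ft' t s 0 hs (by norm_num [nsq])
      have h2 := gt t s 0 (by norm_num [nsq])
      have h3 := gt 1 s 0 (by norm_num [nsq])
      rw [add_zero] at h1 h2 h3
      rw [smul_zero] at h1
      rw [hH, h1, ← h2, F₂.gf, h3, BI.step_one, BI.step_one, one_mul, add_zero]
      rfl
    · have hs' : s ≤ 1 / 20 ∨ 19 / 20 ≤ s := by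
        rcases le_or_gt s 0 with h | h
        · left; linarith
        · right
          by_contra h'
          push Not at h'
          exact hs ⟨h.le, by linarith⟩
      have h1 := hsupp t (s, e1) (hs'.imp id Or.inl)
      have h2 : bfin s = 0 := bfin_out (by
        rcases hs' with h | h
        · left; linarith
        · right; linarith)
      rw [h1]
      unfold z0
      rw [h2, sub_zero, one_smul]
  · intro s y hy
    by_cases hs : s ∈ Icc (0 : ℝ) 1
    · rw [hH, F₂.fg, ft' 1 s y hs hy, BI.step_one, BI.step_one, one_mul]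
      unfold z0 THAT.kap
      rw [sub_self, zero_add, one_mul]
    · have hs' : s ≤ 1 / 20 ∨ 19 / 20 ≤ s := by
        rcases le_or_gt s 0 with h | h
        · left; linarith
        · right
          by_contra h'
          push Not at h'
          exact hs ⟨h.le, by linarith⟩
      have h1 := hsupp 1 (s, e1 + y) (hs'.imp id Or.inl)
      have h2 : bfin s = 0 := bfin_out (by
        rcases hs' with h | h
        · left; linarith
        · right; linarith)
      have h3 : lam c s = 1 := lam_out c (by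
        rcases hs' with h | h
        · left; linarith
        · right; linarith)
      rw [h1]
      unfold z0
      rw [h2, h3, sub_zero, one_smul, one_smul]

end Pool.Agent.Helper27.S5


end

/-! ## Helper63.BI5.M_MH -/

section

/-!
# Project BI, stage 5: module MH
-/

set_option autoImplicit false

open scoped Manifold ContDiff Topology ComplexConjugate
open Set Filter Pool.Agent.Helper65.Barb Pool.Agent.Helper18.BI
open Pool.Agent.Helper70.BI (I4 LD NearEq IsW contDiff_dfam contDiff_dfam_inv)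
open Pool.Agent.Helper34.BI (rade qe)
open Pool.Agent.Helper34.BI.RE (rade_eq_rad rsq_rad qe_prf qe_eq qe_low)
open Pool.Agent.Helper27.BI (e1)
open Pool.Agent.Helper27.H

namespace Pool.Agent.Helper27.S5

namespace MH

theorem contMDiff_of {F : ℝ × R4 → R4} (h : ContDiff ℝ ∞ F) :
    ContMDiff (𝓘(ℝ, ℝ).prod 𝓘(ℝ, R4)) 𝓘(ℝ, R4) ∞ F := by
  rw [← contMDiff_iff_contDiff, modelWithCornersSelf_prod, ← chartedSpaceSelf_prod] at h
  exact h

/-- conjugation of a compactly supported diffeomorphism by an embedding of its support -/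
theorem conjR {R N N' : R4 → R4} {K : Set R4} (hK : IsCompact K) (hR : EmbOn I4 R K)
    (hN : ContDiff ℝ ∞ N) (hN' : ContDiff ℝ ∞ N') (h1 : ∀ x, N' (N x) = x)
    (h2 : ∀ x, N (N' x) = x) (h3 : ∀ x, x ∉ K → N x = x) :
    ∃ M M' : R4 → R4, ContDiff ℝ ∞ M ∧ ContDiff ℝ ∞ M' ∧ (∀ x, M' (M x) = x) ∧
      (∀ x, M (M' x) = x) ∧ (∀ x ∈ K, M (R x) = R (N x)) ∧ ∀ y, y ∉ R '' K → M y = y := by
  obtain ⟨ε, hε1, hε2⟩ := hA1 R4 R4 R4 I4 R4 R K hK hR.1 hR.2
  let Φ : DFam 𝓘(ℝ, R4) R4 :=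
    { f := fun q => N q.2
      g := fun q => N' q.2
      smooth_f := contMDiff_of (hN.comp contDiff_snd)
      smooth_g := contMDiff_of (hN'.comp contDiff_snd)
      fg := fun _ x => h2 x
      gf := fun _ x => h1 x }
  have hΦ : ∀ (t : ℝ) (x : R4), x ∉ K → Φ.f (t, x) = x := fun _ x hx => h3 x hx
  let Ψ : DFam 𝓘(ℝ, R4) R4 := Φ.push ε hK hε1 hΦ
  have him : ε '' K = R '' K := image_congr fun p hp => hε2 p (hε1 hp)
  refine ⟨fun y => Ψ.f (0, y), fun y => Ψ.g (0, y), ?_, ?_, fun x => Ψ.gf 0 x,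
    fun x => Ψ.fg 0 x, fun x hx => ?_, fun y hy => ?_⟩
  · exact (contDiff_dfam Ψ).comp (contDiff_prodMk_right 0)
  · exact (contDiff_dfam_inv Ψ).comp (contDiff_prodMk_right 0)
  · have h5 : N x ∈ K := Φ.mapsTo hΦ 0 hx
    show push ε (fun x => Φ.f (0, x)) (R x) = R (N x)
    rw [← hε2 x (hε1 hx), push_of_mem ε _ (hε1 hx), ← hε2 (N x) (hε1 h5)]
  · show push ε (fun x => Φ.f (0, x)) y = y
    apply push_of_notMem ε _ hε1 (fun x hx => hΦ 0 x hx)
    rwa [him]

/-- the region of the conjugated map -/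
def KM : Set R4 := {p | 0 ≤ p.1 ∧ p.1 ≤ 1 ∧ (1 / 400) ^ 2 ≤ rsq 1 p ∧ rsq 1 p ≤ 49 / 100}

theorem isClosed_KM : IsClosed KM :=
  (isClosed_le continuous_const continuous_fst).inter
    ((isClosed_le continuous_fst continuous_const).inter
      ((isClosed_le continuous_const Geo.continuous_rsq1).inter
        (isClosed_le Geo.continuous_rsq1 continuous_const)))

theorem KM_ball4 : KM ⊆ ball4 := by
  rintro p ⟨h1, h2, -, h4⟩
  rw [Geo.rsq1] at h4
  have a : |p.2.1 - 1| ≤ 7 / 10 := by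
    apply abs_le_of_sq_le_sq _ (by norm_num)
    nlinarith [sq_nonneg p.2.2.re, sq_nonneg p.2.2.im]
  rw [abs_le] at a
  have e0 : rsq 0 p = p.2.1 ^ 2 + p.2.2.re ^ 2 + p.2.2.im ^ 2 := by
    rw [rsq0_eq, Geo.nsq_def]
  refine ⟨by linarith, by linarith, ?_⟩
  rw [e0]
  nlinarith

theorem isCompact_KM : IsCompact KM :=
  Geo.isCompact_ball4.of_isClosed_subset isClosed_KM KM_ball4

/-- the thin finger push is the identity far from the line -/
theorem S_far {c : ℝ} {S S' : R4 → R4} (hS : SHat c S S') {p : R4} (h : 49 / 100 ≤ rsq 1 p) :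
    S p = p := by
  apply hS.thin p.1 p.2
  intro τ hτ
  have b0 := bfin_nonneg p.1
  have b1 := bfin_le p.1
  rw [Geo.rsq1] at h
  have e : nsq (p.2 - (1 - τ * bfin p.1) • e1) =
      (p.2.1 - 1 + τ * bfin p.1) ^ 2 + p.2.2.re ^ 2 + p.2.2.im ^ 2 := by
    rw [Geo.nsq_def, Geo.e1_def]
    simp
    ring
  rw [e]
  have t0 : 0 ≤ τ * bfin p.1 := mul_nonneg hτ.1 b0
  have t1 : τ * bfin p.1 ≤ 27 / 100 := by
    calc τ * bfin p.1 ≤ 1 * bfin p.1 := mul_le_mul_of_nonneg_right hτ.2 b0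
      _ ≤ 27 / 100 := by rw [one_mul]; exact b1
  by_contra hcon
  push Not at hcon
  have r1 := sq_nonneg p.2.2.re
  have r2 := sq_nonneg p.2.2.im
  have a1 : |p.2.1 - 1 + τ * bfin p.1| ≤ 1 / 50 := by
    apply abs_le_of_sq_le_sq _ (by norm_num)
    linarith
  rw [abs_le] at a1
  have a2 : (p.2.1 - 1) ^ 2 ≤ (29 / 100) ^ 2 := by
    apply sq_le_sq'
    · linarith [a1.1]
    · linarith [a1.2]
  have a3 := sq_nonneg (p.2.1 - 1 + τ * bfin p.1)
  norm_num at a2 hcon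
  linarith

section
variable {T S S' : R4 → R4} {δ c : ℝ} {H : DFam 𝓘(ℝ, R4) R4}

theorem S'_fix (hS : SHat c S S') {p : R4} (h : S p = p) : S' p = p := by
  have h1 := hS.left p
  rwa [h] at h1

theorem N_out (hH : THat T c H) (hS : SHat c S S') {p : R4}
    (h : p.1 ≤ 1 / 20 ∨ 19 / 20 ≤ p.1 ∨ 49 / 100 ≤ rsq 1 p) : S' (H.f (1, p)) = p := by
  rw [hH.supp 1 p h]
  apply S'_fix hS
  rcases h with h | h | h
  · exact hS.out p.1 p.2 (Or.inl (by linarith))
  · exact hS.out p.1 p.2 (Or.inr (by linarith))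
  · exact S_far hS h

theorem N_near (hH : THat T c H) (hS : SHat c S S') {p : R4}
    (h : rsq 1 p ≤ (1 / 200) ^ 2) : S' (H.f (1, p)) = p := by
  rw [Geo.H_ball hH (h.trans (by norm_num))]
  have h1 := hS.near p.1 (p.2 - e1) (by rw [← rsq1_eq]; exact h)
  rw [add_sub_cancel] at h1
  rw [← h1]
  exact hS.left p

theorem N_KM (hH : THat T c H) (hS : SHat c S S') {p : R4} (h : p ∉ KM) :
    S' (H.f (1, p)) = p := by
  by_cases h1 : p.1 ≤ 1 / 20 ∨ 19 / 20 ≤ p.1 ∨ 49 / 100 ≤ rsq 1 p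
  · exact N_out hH hS h1
  · push Not at h1
    apply N_near hH hS
    by_contra h2
    push Not at h2
    apply h
    refine ⟨by linarith [h1.1], by linarith [h1.2.1], ?_, h1.2.2.le⟩
    refine le_trans ?_ h2.le
    norm_num

end

end MH

open MH in
/-- **MH.** -/
theorem m_MH : StMH := by
  intro T S S' δ c H hδ _ hH hS
  have hpos : ∀ p ∈ KM, 0 < rsq 1 p := fun p hp => by
    have := hp.2.2.1
    norm_num at this
    linarith
  have hinj : InjOn (rade δ 1) {p | 0 < rsq 1 p} := (rade_emb hδ).2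
  have hR : EmbOn I4 (rade δ 1) KM :=
    ⟨fun p hp => (rade_emb hδ).1 p (hpos p hp), hinj.mono hpos⟩
  obtain ⟨M, M', a1, a2, a3, a4, a5, a6⟩ := conjR (N := fun p => S' (H.f (1, p)))
    (N' := fun p => H.g (1, S p)) isCompact_KM hR
    (hS.smooth'.comp ((contDiff_dfam H).comp (contDiff_prodMk_right 1)))
    (((contDiff_dfam_inv H).comp (contDiff_prodMk_right 1)).comp hS.smooth)
    (fun x => by
      show H.g (1, S (S' (H.f (1, x)))) = x
      rw [hS.right, H.gf])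
    (fun x => by
      show S' (H.f (1, H.g (1, S x))) = x
      rw [H.fg, hS.left])
    (fun x hx => N_KM hH hS hx)
  refine ⟨M, M', a1, a2, a3, a4, ?_, ?_, ?_⟩
  · intro p hp
    by_cases h : p ∈ KM
    · exact a5 p h
    · rw [N_KM hH hS h]
      apply a6
      rintro ⟨q, hq, hqe⟩
      have := hinj (hpos q hq) hp hqe
      exact h (this ▸ hq)
  · have m := Geo.qe_mono hδ
    have l : 1 / 25 - 3 * δ < qe δ ((1 / 400) ^ 2) :=
      lt_of_le_of_lt (qe_low hδ.1 hδ.2 le_rfl) (m (by norm_num))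
    refine ⟨(qe δ ((1 / 400) ^ 2) - (1 / 25 - 3 * δ)) / 2, by linarith, fun p hp => ?_⟩
    apply a6
    rintro ⟨q, hq, hqe⟩
    have h1 := Geo.rsq_rade hδ (hpos q hq)
    have h2 := m.monotone hq.2.2.1
    rw [← hqe, h1] at hp
    linarith
  · intro p hp
    by_cases h : p ∈ rade δ 1 '' KM
    · obtain ⟨q, hq, rfl⟩ := h
      rw [a5 q hq]
      congr 1
      apply N_out hH hS
      rcases hp with hp | hp | hp
      · exact Or.inl hp
      · exact Or.inr (Or.inl hp)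
      · right; right
        rw [Geo.rsq_rade hδ (hpos q hq)] at hp
        by_contra h3
        push Not at h3
        have h4 := Geo.qe_mono hδ h3
        rw [qe_eq hδ.1 (q := 49 / 100) (by linarith [hδ.1])] at h4
        linarith
    · exact a6 p h

end Pool.Agent.Helper27.S5


end

/-! ## Helper67.BI5.M_IO2 -/

section

/-!
# Project BI, stage 5: module IO2
-/

set_option autoImplicit false
set_option linter.unusedSectionVars false

open scoped Manifold ContDiff Topology ComplexConjugate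
open Set Filter Pool.Agent.Helper65.Barb Pool.Agent.Helper18.BI
open Pool.Agent.Helper70.BI (I4 LD NearEq IsW)
open Pool.Agent.Helper34.BI (rade qe)
open Pool.Agent.Helper27.BI (e1 imp_image imp_off imp_congr imp_comp)
open Pool.Agent.Helper27.H

namespace Pool.Agent.Helper27.S5

namespace IO2

/-- the constant family -/
noncomputable def cfam {T T' : R4 → R4} (h1 : ContDiff ℝ ∞ T) (h2 : ContDiff ℝ ∞ T')
    (h3 : ∀ p, T (T' p) = p) (h4 : ∀ p, T' (T p) = p) : DFam 𝓘(ℝ, R4) R4 where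
  f := fun z => T z.2
  g := fun z => T' z.2
  smooth_f := (contMDiff_iff_contDiff.2 h1).comp contMDiff_snd
  smooth_g := (contMDiff_iff_contDiff.2 h2).comp contMDiff_snd
  fg := fun _ x => h3 x
  gf := fun _ x => h4 x

theorem inv_off {K : Set R4} {T T' : R4 → R4} (h : SDiff K T T') : ∀ p, p ∉ K → T' p = p := by
  intro p hp
  have h1 := h.2.2.2.2 p hp
  have h2 := h.2.2.2.1 p
  rwa [h1] at h2

theorem mapsTo' {K : Set R4} {T T' : R4 → R4} (h : SDiff K T T') : MapsTo T K K := by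
  intro p hp
  by_contra h1
  have h2 := h.2.2.2.2 _ h1
  have h3 := congrArg T' h2
  rw [h.2.2.2.1, h.2.2.2.1] at h3
  rw [h3] at h1
  exact h1 hp

theorem contDiff_imp {ι : R4 → R4} {K : Set R4} {T T' : R4 → R4} (hι : EmbOn I4 ι K)
    (hK : IsCompact K) (h : SDiff K T T') : ContDiff ℝ ∞ (imp ι K T) := by
  obtain ⟨A', hA, -, -⟩ := m_PF ι K (cfam h.1 h.2.1 h.2.2.1 h.2.2.2.1) hι hK
    (fun t x hx => h.2.2.2.2 x hx)
  have e : imp ι K T = fun y => A'.f (0, y) := by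
    funext y
    exact (hA 0 y).symm
  rw [e]
  have h1 : ContMDiff 𝓘(ℝ, R4) 𝓘(ℝ, R4) ∞ (fun y : R4 => A'.f ((0 : ℝ), y)) :=
    A'.smooth_f.comp (contMDiff_const.prodMk contMDiff_id)
  exact contMDiff_iff_contDiff.1 h1

theorem sdiff_imp {ι : R4 → R4} {K : Set R4} {T T' : R4 → R4} (hι : EmbOn I4 ι K)
    (hK : IsCompact K) (h : SDiff K T T') : SDiff (ι '' K) (imp ι K T) (imp ι K T') := by
  have h' : SDiff K T' T := ⟨h.2.1, h.1, h.2.2.2.1, h.2.2.1, inv_off h⟩
  refine ⟨contDiff_imp hι hK h, contDiff_imp hι hK h', fun p => ?_, fun p => ?_, fun p hp => imp_off hp⟩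
  · rw [← imp_comp hι.2 (mapsTo' h')]
    by_cases hp : p ∈ ι '' K
    · obtain ⟨q, hq, rfl⟩ := hp
      rw [imp_image hι.2 hq, h.2.2.1]
    · exact imp_off hp
  · rw [← imp_comp hι.2 (mapsTo' h)]
    by_cases hp : p ∈ ι '' K
    · obtain ⟨q, hq, rfl⟩ := hp
      rw [imp_image hι.2 hq, h.2.2.2.1]
    · exact imp_off hp

section main
variable {G T T' : R4 → R4} {δ δ' κ β c : ℝ} {D D' : ArcD} {H : DFam 𝓘(ℝ, R4) R4} {a b : ℝ}
  (hS : Sys G T T' δ δ' κ β c D D' H a b)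
include hS

theorem inj : InjOn G (Reg δ') := hS.emb.2.mono Geo.Reg_K3

/-- the key: the value of `io` and of the composition -/
theorem key {p : R4} (hp : p ∈ Reg δ') (h1 : p ∉ wallS δ') (h2 : p ∉ wall2 δ' κ β)
    (h3 : G p ∉ A2 G H β a b) : hio H δ' κ β p ∈ Reg δ' ∧
    EE G H δ' κ β (G p) = G (rade δ' 1 (H.g (1, hio H δ' κ β p))) := by
  have hP := hS.par
  have d' := Geo.hδ' hP
  have k0 := hP.k0
  have hr : 1 / 25 - δ' < rsq 1 p := by
    by_contra h
    exact h1 ⟨hp.1, hp.2.1, hp.2.2.1, not_lt.1 h⟩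
  by_cases hh : p ∈ hol δ' κ β
  · -- inside the hole
    have e1 : hio H δ' κ β p = H.f (1, p) := by
      unfold hio
      rw [if_pos (by linarith [hh.2.2, d'.1])]
    have hn := Geo.hol_near hP hh
    have hq := Geo.H_near_rsq hS.th hP hS.mc hn
    have hl := Geo.H_reg_f hS.th (t := 1) hp.1 hp.2.1 hp.2.2.2
    rw [e1, H.gf, Geo.rade_fix d' hr.le]
    refine ⟨⟨hl.1, hl.2.1, by linarith [hq.1, d'.1], hl.2.2⟩, ?_⟩
    unfold EE
    apply imp_off
    rintro ⟨q, hq1, hq2⟩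
    have := inj hS hq1.1 hp hq2
    rw [this] at hq1
    exact hq1.2 hh
  · have hg : 1 / 25 - δ' < rsq 1 (sgi κ β p) := by
      have a1 : 1 / 25 - 3 * δ' ≤ rsq 1 (sgi κ β p) := by
        by_contra h
        exact hh ⟨hp.1, hp.2.1, not_le.1 h⟩
      by_contra h
      exact h2 ⟨hp.1, hp.2.1, a1, not_lt.1 h⟩
    have e1 : hio H δ' κ β p = H.f (1, rad2 δ' κ β (H.g (1, p))) := by
      unfold hio
      rw [if_neg (by linarith [d'.1])]
    have e2 : EE G H δ' κ β (G p) = G (rade δ' 1 (rad2 δ' κ β (H.g (1, p)))) := by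
      unfold EE
      rw [imp_image ((inj hS).mono sdiff_subset) ⟨hp, hh⟩]
    rw [e1, e2, H.gf]
    refine ⟨?_, rfl⟩
    rcases le_or_gt (1 / 25 - δ') (rsq 1 (sgi κ β (H.g (1, p)))) with h4 | h4
    · rw [Geo.rad2_fix d' k0 β h4, H.fg]
      exact hp
    · have h5 : 0 < rsq 1 (sgi κ β (H.g (1, p))) := by
        rw [Geo.sgi_pos_iff k0]
        intro h6
        have h7 : p = ((H.g (1, p)).1, z2 c β (H.g (1, p)).1) := by
          rw [← Geo.H_P2 hS.th hP, ← h6]
          exact (H.fg 1 p).symm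
        by_cases hs : (H.g (1, p)).1 ∈ Icc a b
        · apply h3
          refine ⟨((H.g (1, p)).1, P2 β), ⟨rfl, hs.1, hs.2⟩, ?_⟩
          show G (H.f (1, ((H.g (1, p)).1, P2 β))) = G p
          rw [Geo.H_P2 hS.th hP, ← h7]
        · have h8 := Geo.H_P2_out hS.th hP hS.mc d' hS.ab hs
          rw [← h7] at h8
          linarith
      have h6 := Geo.rad2_le d' k0 β h5 h4.le
      have hn := Geo.near_of hP (by linarith [d'.1] : rsq 1 (sgi κ β (rad2 δ' κ β (H.g (1, p)))) ≤ 1 / 25)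
      have hq := Geo.H_near_rsq hS.th hP hS.mc hn
      have hl := Geo.H_reg_g hS.th (t := 1) hp.1 hp.2.1 hp.2.2.2
      have e3 : (H.f (1, rad2 δ' κ β (H.g (1, p)))).1 = (H.g (1, p)).1 := by
        rw [Geo.H_near hS.th hP hn]
        rfl
      refine ⟨?_, ?_, by linarith [hq.1, d'.1], hq.2⟩
      · rw [e3]; exact hl.1
      · rw [e3]; exact hl.2.1

/-- the second map factors through `io` -/
theorem fac {x : R4} (hx : x ∈ U2 G δ' κ β \ A2 G H β a b) :
    EE G H δ' κ β x = hatE G δ' (fun p => H.g (1, p)) (io G H δ' κ β x) := by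
  by_cases hG : x ∈ G '' Reg δ'
  · obtain ⟨p, hp, rfl⟩ := hG
    have h1 : p ∉ wallS δ' := fun h => hx.1 ⟨p, Or.inl h, rfl⟩
    have h2 : p ∉ wall2 δ' κ β := fun h => hx.1 ⟨p, Or.inr h, rfl⟩
    obtain ⟨h3, h4⟩ := key hS hp h1 h2 hx.2
    rw [h4]
    unfold io hatE
    rw [imp_image (inj hS) hp, imp_image (inj hS) h3]
  · have e1 : EE G H δ' κ β x = x := by
      unfold EE
      apply imp_off
      rintro ⟨q, hq, rfl⟩
      exact hG ⟨q, hq.1, rfl⟩
    have e2 : io G H δ' κ β x = x := by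
      unfold io
      exact imp_off hG
    rw [e1, e2]
    unfold hatE
    rw [imp_off hG]

/-- points of the base arc are in the region -/
theorem arc_pt {y : R4} (hy : y ∈ D'.A) : ∃ s ∈ Icc D'.s₀ D'.s₁, y = G (s, z0 s) ∧
    ((s, z0 s) : R4) ∈ Reg δ' := by
  obtain ⟨p, ⟨h1, h2, h3⟩, rfl⟩ := hy
  refine ⟨p.1, ⟨h1, h2⟩, ?_, ?_⟩
  · rw [hS.hat'.J]
    show G (p.1, z0 p.1 + p.2) = _
    rw [h3, add_zero]
  · have b1 : 1 / 25 - δ' ≤ bfin p.1 ^ 2 := by
      rcases eq_or_lt_of_le h1 with h | h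
      · rw [← h, hS.hat'.b₀]
      · rcases eq_or_lt_of_le h2 with h' | h'
        · rw [h', hS.hat'.b₁]
        · exact (hS.hat'.b p.1 ⟨h, h'⟩).le
    have b2 := bfin_le p.1
    have b3 := bfin_nonneg p.1
    have r := rsq1_z0 p.1
    have d' := (Geo.hδ' hS.par).1
    refine ⟨by linarith [hS.hat'.s₀.1], by linarith [hS.hat'.s₁.2], ?_, ?_⟩
    · rw [r]; linarith
    · rw [r]; nlinarith

theorem arc_U2 {y : R4} (hy : y ∈ D'.A) (hU : y ∈ D'.U) : y ∈ U2 G δ' κ β \ A2 G H β a b := by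
  have hP := hS.par
  have d' := Geo.hδ' hP
  have k0 := hP.k0
  have k1 := hP.k1
  obtain ⟨s, hs, e, hr⟩ := arc_pt hS hy
  rw [hS.hat'.U] at hU
  constructor
  · rintro ⟨p, hp | hp, hpe⟩
    · exact hU ⟨p, hp, hpe⟩
    · have h1 := inj hS (Geo.wall2_Reg hP hp) hr (hpe.trans e)
      have h2 := Geo.wall2_near hP hp
      rw [h1] at h2
      have e2 : nsq (z0 s - P2 β) = bfin s ^ 2 + β ^ 2 := by
        rw [Geo.z0_def, Geo.nsq_def]
        unfold P2
        simp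
      have h3 : nsq (z0 s - P2 β) ≤ κ ^ 2 := h2
      rw [e2] at h3
      nlinarith [sq_nonneg (bfin s)]
  · rintro ⟨p, ⟨hp1, hp2, hp3⟩, hpe⟩
    have hpp : p = (p.1, P2 β) := Prod.ext rfl hp1
    have h0 : G (H.f (1, p)) = y := hpe
    rw [hpp, Geo.H_P2 hS.th hP] at h0
    have hn : nsq (((p.1, P2 β) : R4).2 - P2 β) ≤ κ ^ 2 := by
      show nsq (P2 β - P2 β) ≤ κ ^ 2
      rw [sub_self]
      simp [Geo.nsq_def]
      positivity
    have hq := Geo.H_near_rsq hS.th hP hS.mc hn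
    rw [Geo.H_P2 hS.th hP] at hq
    have hreg : ((p.1, z2 c β p.1) : R4) ∈ Reg δ' :=
      ⟨by show (0 : ℝ) ≤ p.1; linarith [hS.ab.ma.1], by show p.1 ≤ (1 : ℝ); linarith [hS.ab.mb.2],
        by linarith [hq.1, d'.1], hq.2⟩
    have h1 := inj hS hreg hr (h0.trans e)
    have h2 : p.1 = s := congrArg Prod.fst h1
    have h3 : z2 c β p.1 = z0 s := congrArg Prod.snd h1
    rw [h2, Geo.z2_def, Geo.z0_def] at h3
    have h4 := congrArg (fun x : R3 => x.2.re) h3
    simp only [Complex.ofReal_re, Complex.zero_re] at h4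
    have h5 := Geo.lam_pos hS.mc s
    have h6 : 0 < β := k0.trans k1
    have h7 := mul_pos h5 h6
    linarith

end main

end IO2

theorem m_IO2 (h1 : StIO1) (hHE : StHE) : StIO2 := by
  intro G T T' δ δ' κ β c D D' H a b hS K Θ Θ' hK hKs hΘ
  obtain ⟨e1, m1, f1⟩ := h1 G T T' δ δ' κ β c D D' H a b hS
  have hP := hS.par
  have d' := Geo.hδ' hP
  obtain ⟨e2, c2⟩ := hHE G T T' δ' c D' H hS.fb d' hS.emb hS.hat' hS.th
  have hK1 : K ⊆ U2 G δ' κ β \ A2 G H β a b := fun x hx =>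
    ⟨(hKs hx).1, fun h => (hKs hx).2 (Or.inr h)⟩
  have hιK : EmbOn I4 (io G H δ' κ β) K := ⟨fun p hp => e1.1 p (hK1 hp), e1.2.mono hK1⟩
  have hK' : io G H δ' κ β '' K ⊆ D'.U \ D'.A := by
    rintro _ ⟨x, hx, rfl⟩
    refine ⟨m1 (hK1 hx), fun hA => ?_⟩
    have hU := m1 (hK1 hx)
    have h3 := IO2.arc_U2 hS hA hU
    have h4 := (f1 _ hA h3.1).self_of_nhds
    have h5 := e1.2 h3 (hK1 hx) h4
    rw [h5] at hA
    exact (hKs hx).2 (Or.inl hA)
  refine ⟨hK', ?_⟩
  have hcont : ContinuousOn (io G H δ' κ β) K := fun x hx =>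
    (hιK.1 x hx).contMDiffAt.continuousAt.continuousWithinAt
  have hKc : IsCompact (io G H δ' κ β '' K) := hK.image_of_continuousOn hcont
  have hSD := IO2.sdiff_imp hιK hK hΘ
  have h6 := c2 _ _ _ hKc hK' hSD
  have hmap := IO2.mapsTo' hΘ
  have hinj : InjOn (fun p => hatE G δ' (fun p => H.g (1, p)) (io G H δ' κ β p)) K := by
    intro x hx y hy hxy
    exact hιK.2 hx hy (e2.2 (hK' ⟨x, hx, rfl⟩) (hK' ⟨y, hy, rfl⟩) hxy)
  have h7 : imp (EE G H δ' κ β) K Θ =
      imp (fun p => hatE G δ' (fun p => H.g (1, p)) (io G H δ' κ β p)) K Θ :=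
    (imp_congr hinj (fun x hx => (IO2.fac hS (hK1 hx)).symm) hmap).symm
  have h8 : imp (fun p => hatE G δ' (fun p => H.g (1, p)) (io G H δ' κ β p)) K Θ =
      imp (hatE G δ' (fun p => H.g (1, p))) (io G H δ' κ β '' K) (imp (io G H δ' κ β) K Θ) :=
    (hImp R4 R4 I4 R4 (hatE G δ' (fun p => H.g (1, p))) (io G H δ' κ β '' K) Θ
      (e2.2.mono hK')).2.2.2.2.2.2.2 (io G H δ' κ β) K hιK.2 rfl hmap
  rw [h7, h8]
  exact (hCI R4 R4 I4 R4).2.1 _ _ h6

end Pool.Agent.Helper27.S5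


end

/-! ## Helper71.BI5.M_HE -/

section

/-!
# Project BI, stage 5, module HE (the embedding defined by the big finger push)
-/

set_option autoImplicit false
set_option linter.unusedSectionVars false

open scoped Manifold ContDiff Topology ComplexConjugate
open Set Filter Pool.Agent.Helper65.Barb Pool.Agent.Helper18.BI
open Pool.Agent.Helper70.BI (I4 LD ld_iff ld_comp contDiff_dfam contDiff_dfam_inv)
open Pool.Agent.Helper34.BI (rade)
open Pool.Agent.Helper27.BI (e1 imp_image imp_off imp_congr)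
open Pool.Agent.Helper27.H

namespace Pool.Agent.Helper27.S5

namespace HE

/-- the closed set removed: the wall and the finger -/
def BB (δ : ℝ) (D : ArcD) : Set R4 := wallS δ ∪ {p | p.1 ∈ Icc D.s₀ D.s₁ ∧ p.2 = z0 p.1}

theorem isClosed_BB (δ : ℝ) (D : ArcD) : IsClosed (BB δ D) := by
  refine (Geo.isClosed_wallS δ).union ?_
  have h : Continuous fun p : R4 => z0 p.1 := contDiff_z0.continuous.comp continuous_fst
  exact (isClosed_Icc.preimage continuous_fst).inter (isClosed_eq continuous_snd h)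

theorem rsq_z0 (s : ℝ) : rsq 1 (s, z0 s) = bfin s ^ 2 := by
  rw [Geo.rsq1, Geo.z0_def]
  simp

section
variable {G T T' : R4 → R4} {δ c : ℝ} {D : ArcD} {H : DFam 𝓘(ℝ, R4) R4} (hB : FingB T T')
  (hδ : δ ∈ Ioo (0 : ℝ) (1 / 100)) (hG : EmbOn I4 G (K3 δ)) (hD : HatOk δ T' G D)
  (hH : THat T c H)
include hB hδ hG hD hH

theorem far {p : R4} (hp : p ∈ Reg δ \ BB δ D) : 1 / 25 - δ < rsq 1 p := by
  by_contra h
  push Not at h
  exact hp.2 (Or.inl ⟨hp.1.1, hp.1.2.1, hp.1.2.2.1, h⟩)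

theorem pos {p : R4} (hp : p ∈ Reg δ \ BB δ D) (t : ℝ) : 0 < rsq 1 (H.g (t, p)) := by
  rw [Geo.rsq1_pos_iff]
  intro h
  have h1 : H.g (t, p) = ((H.g (t, p)).1, e1) := Prod.ext rfl h
  have h2 := Geo.H_e1 hH h1
  set s := (H.g (t, p)).1
  have h3 := far hB hδ hG hD hH hp
  rw [h2, rsq_z0] at h3
  have h4 : s ∈ Ioo D.s₀ D.s₁ := by
    by_contra h5
    exact absurd (hD.b' s h5) (not_le.2 h3)
  exact hp.2 (Or.inr ⟨by rw [h2]; exact ⟨h4.1.le, h4.2.le⟩, by rw [h2]⟩)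

theorem maps (t : ℝ) : MapsTo (fun p => rade δ 1 (H.g (t, p))) (Reg δ \ BB δ D) (Reg δ) := by
  intro p hp
  obtain ⟨h1, h2, h3⟩ := Geo.H_reg_g hH (t := t) hp.1.1 hp.1.2.1 hp.1.2.2.2
  have h4 := pos hB hδ hG hD hH hp t
  refine ⟨h1, h2, Geo.rade_low' hδ h4, ?_⟩
  rcases le_or_gt (1 / 25 - δ) (rsq 1 (H.g (t, p))) with h | h
  · show rsq 1 (rade δ 1 (H.g (t, p))) ≤ _
    rw [Geo.rade_fix hδ h]
    exact h3
  · have := Geo.rade_lt hδ h4 h
    show rsq 1 (rade δ 1 (H.g (t, p))) ≤ _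
    linarith [hδ.1]

theorem ld {p : R4} (hp : p ∈ Reg δ \ BB δ D) (t : ℝ) :
    LD (fun p => rade δ 1 (H.g (t, p))) p := by
  have hf : ContDiff ℝ ∞ (fun q : R4 => H.f (t, q)) :=
    (contDiff_dfam H).comp (contDiff_prodMk_right t)
  have hg : ContDiff ℝ ∞ (fun q : R4 => H.g (t, q)) :=
    (contDiff_dfam_inv H).comp (contDiff_prodMk_right t)
  have l1 : LD (fun q : R4 => H.g (t, q)) p :=
    Geo.ld_of_inv hg hf (fun x => H.fg t x) (fun x => H.gf t x) p
  exact ld_comp (F := rade δ 1) (m := fun q : R4 => H.g (t, q)) l1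
    ((rade_emb hδ).1 _ (pos hB hδ hG hD hH hp t))

theorem inj (t : ℝ) : InjOn (fun p => rade δ 1 (H.g (t, p))) (Reg δ \ BB δ D) := by
  intro p hp q hq h
  have h1 := (rade_emb hδ).2 (pos hB hδ hG hD hH hp t) (pos hB hδ hG hD hH hq t) h
  rw [← H.fg t p, h1, H.fg]

theorem front {p : R4} (hp : p ∈ Reg δ \ BB δ D) (t : ℝ) :
    ∀ᶠ z : ℝ × R4 in 𝓝 (t, p), z.2 ∉ Reg δ → rade δ 1 (H.g z) = z.2 := by
  have h1 : ∀ᶠ z : ℝ × R4 in 𝓝 (t, p), 1 / 25 - δ < rsq 1 z.2 := by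
    have c : ContinuousAt (fun z : ℝ × R4 => rsq 1 z.2) (t, p) :=
      (Geo.continuous_rsq1.comp continuous_snd).continuousAt
    exact c.eventually (Ioi_mem_nhds (far hB hδ hG hD hH hp))
  filter_upwards [h1] with z hz hzR
  have h2 : z.2.1 ≤ 1 / 20 ∨ 19 / 20 ≤ z.2.1 ∨ 49 / 100 ≤ rsq 1 z.2 := by
    by_contra h
    push Not at h
    exact hzR ⟨by linarith [h.1], by linarith [h.2.1], by linarith [hδ.1], h.2.2.le⟩
  have h3 : H.g z = z.2 := Geo.H_supp_g hH (t := z.1) h2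
  rw [h3, Geo.rade_fix hδ hz.le]

theorem smooth {p : R4} (hp : p ∈ Reg δ \ BB δ D) (t : ℝ) :
    ∀ᶠ z : ℝ × R4 in 𝓝 (t, p), ContDiffAt ℝ ∞ (fun z => rade δ 1 (H.g z)) z := by
  have hg := contDiff_dfam_inv H
  have h1 : ∀ᶠ z : ℝ × R4 in 𝓝 (t, p), 0 < rsq 1 (H.g z) := by
    have c : ContinuousAt (fun z : ℝ × R4 => rsq 1 (H.g z)) (t, p) :=
      (Geo.continuous_rsq1.comp hg.continuous).continuousAt
    exact c.eventually (Ioi_mem_nhds (pos hB hδ hG hD hH hp t))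
  filter_upwards [h1] with z hz
  have h2 : ContDiffAt ℝ ∞ (rade δ 1) (H.g z) :=
    (ld_iff.1 ((rade_emb hδ).1 _ hz)).1.self_of_nhds
  exact ContDiffAt.comp (f := H.g) z h2 hg.contDiffAt

theorem compl : (G '' (Reg δ ∩ BB δ D))ᶜ = D.U \ D.A := by
  have h1 : G '' (Reg δ ∩ BB δ D) = G '' wallS δ ∪ D.A := by
    ext y
    constructor
    · rintro ⟨p, ⟨-, hp | ⟨h1, h2⟩⟩, rfl⟩
      · exact Or.inl ⟨p, hp, rfl⟩
      · refine Or.inr ⟨(p.1, 0), ⟨h1.1, h1.2, rfl⟩, ?_⟩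
        rw [hD.J]
        show G (p.1, z0 p.1 + 0) = G p
        rw [add_zero, ← h2]
    · rintro (⟨p, hp, rfl⟩ | ⟨p, ⟨h1, h2, h3⟩, rfl⟩)
      · exact ⟨p, ⟨⟨hp.1, hp.2.1, hp.2.2.1, by linarith [hp.2.2.2, hδ.1]⟩, Or.inl hp⟩, rfl⟩
      · rw [hD.J]
        show G (p.1, z0 p.1 + p.2) ∈ _
        rw [h3, add_zero]
        refine ⟨(p.1, z0 p.1), ⟨⟨?_, ?_, ?_, ?_⟩, Or.inr ⟨⟨h1, h2⟩, rfl⟩⟩, rfl⟩
        · show 0 ≤ p.1
          linarith [hD.s₀.1]
        · show p.1 ≤ 1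
          linarith [hD.s₁.2]
        · rw [rsq_z0]
          by_cases h4 : p.1 ∈ Ioo D.s₀ D.s₁
          · linarith [hD.b _ h4, hδ.1]
          · rcases h1.eq_or_lt with h5 | h5
            · rw [← h5, hD.b₀]
              linarith [hδ.1]
            · rcases h2.eq_or_lt with h6 | h6
              · rw [h6, hD.b₁]
                linarith [hδ.1]
              · exact absurd ⟨h5, h6⟩ h4
        · rw [rsq_z0]
          have h5 := bfin_nonneg p.1
          have h6 := bfin_le p.1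
          nlinarith
  rw [h1, compl_union, hD.U]
  rfl

theorem eqOn : EqOn D.e (imp G (Reg δ) (fun p => rade δ 1 (H.g (0, p)))) (D.U \ D.A) := by
  intro y hy
  have hDR : Dreg δ ⊆ Reg δ := fun p hp =>
    ⟨hp.1, hp.2.1, by linarith [hp.2.2.1, hδ.1], by linarith [hp.2.2.2]⟩
  have hg0 : ∀ p, H.g (0, p) = T' p := fun p => by
    have h1 : H.f (0, T' p) = p := by rw [hH.zero, hB.ok.right]
    conv_lhs => rw [← h1]
    rw [H.gf]
  rw [← compl hB hδ hG hD hH] at hy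
  rw [hD.e]
  by_cases hyR : y ∈ G '' Reg δ
  · obtain ⟨p, hp, rfl⟩ := hyR
    have hpB : p ∉ BB δ D := fun h => hy ⟨p, ⟨hp, h⟩, rfl⟩
    rw [imp_image (hG.2.mono Geo.Reg_K3) hp, hg0]
    by_cases hpD : p ∈ Dreg δ
    · rw [imp_image (hG.2.mono (hDR.trans Geo.Reg_K3)) hpD]
      rfl
    · rw [imp_off]
      · have h1 : 1 / 9 ≤ rsq 1 p := by
          by_contra h
          push Not at h
          exact hpD ⟨hp.1, hp.2.1, (far hB hδ hG hD hH ⟨hp, hpB⟩).le, h.le⟩
        have h2 : e0 δ T' p = p := e0_far hB.ok hδ h1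
        have h3 : rade δ 1 (T' p) = p := h2
        rw [h3]
      · rintro ⟨q, hq, hqp⟩
        have := hG.2 (Geo.Reg_K3 (hDR hq)) (Geo.Reg_K3 hp) hqp
        rw [this] at hq
        exact hpD hq
  · rw [imp_off hyR, imp_off]
    rintro ⟨q, hq, hqp⟩
    exact hyR ⟨q, hDR hq, hqp⟩

end

end HE

open HE in
theorem m_HE (hGH : StGH) (hGHF : StGHF) : StHE := by
  intro G T T' δ c D H hB hδ hG hD hH
  have hGR : EmbOn I4 G (Reg δ) :=
    ⟨fun p hp => hG.1 p (Geo.Reg_K3 hp), hG.2.mono Geo.Reg_K3⟩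
  have hc := compl hB hδ hG hD hH
  constructor
  · have h1 := hGH G (fun p => rade δ 1 (H.g (1, p))) (Reg δ) (BB δ D) (Geo.isCompact_Reg δ)
      (isClosed_BB δ D) hGR (fun p hp => ld hB hδ hG hD hH hp 1) (inj hB hδ hG hD hH 1)
      (maps hB hδ hG hD hH 1) (by
        intro p hp
        have c : ContinuousAt (fun q : R4 => (((1 : ℝ), q) : ℝ × R4)) p :=
          (continuous_const.prodMk continuous_id).continuousAt
        exact c.eventually (front hB hδ hG hD hH hp 1))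
    rw [hc] at h1
    exact h1
  · intro K Θ Θ' hK hKs hΘ
    have h1 := hGHF G (fun z => rade δ 1 (H.g z)) (Reg δ) (BB δ D) (Geo.isCompact_Reg δ)
      (isClosed_BB δ D) hGR (fun t _ p hp => smooth hB hδ hG hD hH hp t)
      (fun t _ => ⟨fun p hp => ld hB hδ hG hD hH hp t, inj hB hδ hG hD hH t,
        maps hB hδ hG hD hH t⟩)
      (fun t _ p hp => front hB hδ hG hD hH hp t) K Θ Θ' hK (by rw [hc]; exact hKs) hΘ
    have h2 : imp D.e K Θ =
        imp (imp G (Reg δ) (fun p => rade δ 1 (H.g (0, p)))) K Θ :=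
      imp_congr (D.embe.2.mono hKs) ((eqOn hB hδ hG hD hH).mono hKs)
        (A3.mapsTo hΘ.2.2.2.1 hΘ.2.2.2.2)
    rw [h2]
    exact h1

end Pool.Agent.Helper27.S5


end

/-! ## Helper84.BI5.M_E1 -/

section

/-!
# Project BI, stage 5, module E1 (the embedding of the complement of the two walls and the two arcs)
-/

set_option autoImplicit false
set_option linter.unusedSectionVars false

open scoped Manifold ContDiff Topology ComplexConjugate
open Set Filter Pool.Agent.Helper65.Barb Pool.Agent.Helper18.BI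
open Pool.Agent.Helper70.BI (I4 LD ld_iff ld_comp contDiff_dfam contDiff_dfam_inv)
open Pool.Agent.Helper34.BI (rade)
open Pool.Agent.Helper27.BI (e1)
open Pool.Agent.Helper27.H

namespace Pool.Agent.Helper27.S5

namespace E1

/-- the closed set removed: the two walls and the two arcs -/
def BB (δ κ β c a b : ℝ) (D : ArcD) : Set R4 :=
  (wallS δ ∪ wall2 δ κ β) ∪ ({p | p.1 ∈ Icc D.s₀ D.s₁ ∧ p.2 = z0 p.1} ∪
    {p | p.1 ∈ Icc a b ∧ p.2 = z2 c β p.1})

theorem continuous_step' : Continuous step := by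
  unfold Pool.Agent.Helper65.Barb.step
  exact Real.smoothTransition.continuous

theorem continuous_lam (c : ℝ) : Continuous (lam c) := by
  unfold lam
  have h := continuous_step'
  exact continuous_const.sub (continuous_const.mul
    ((h.comp (by fun_prop : Continuous fun s : ℝ => (s - 7 / 20) / (2 / 25))).mul
      (h.comp (by fun_prop : Continuous fun s : ℝ => (13 / 20 - s) / (2 / 25)))))

theorem continuous_z2 (c β : ℝ) : Continuous (z2 c β) := by
  unfold z2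
  exact contDiff_z0.continuous.add
    (((continuous_lam c).mul continuous_const).smul continuous_const)

theorem isClosed_BB (δ κ β c a b : ℝ) (D : ArcD) : IsClosed (BB δ κ β c a b D) := by
  refine ((Geo.isClosed_wallS δ).union (Geo.isClosed_wall2 δ κ β)).union (IsClosed.union ?_ ?_)
  · have h : Continuous fun p : R4 => z0 p.1 := contDiff_z0.continuous.comp continuous_fst
    exact (isClosed_Icc.preimage continuous_fst).inter (isClosed_eq continuous_snd h)
  · have h : Continuous fun p : R4 => z2 c β p.1 := (continuous_z2 c β).comp continuous_fst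
    exact (isClosed_Icc.preimage continuous_fst).inter (isClosed_eq continuous_snd h)

theorem rsq_z0 (s : ℝ) : rsq 1 (s, z0 s) = bfin s ^ 2 := by
  rw [Geo.rsq1, Geo.z0_def]
  simp

/-- the region -/
abbrev RR (δ κ β : ℝ) : Set R4 := Reg δ \ hol δ κ β

/-- the model map -/
noncomputable abbrev hm (H : DFam 𝓘(ℝ, R4) R4) (δ κ β : ℝ) (p : R4) : R4 :=
  rade δ 1 (rad2 δ κ β (H.g (1, p)))

section
variable {G T T' : R4 → R4} {δ δ' κ β c : ℝ} {D D' : ArcD} {H : DFam 𝓘(ℝ, R4) R4} {a b : ℝ}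
  (hS : Sys G T T' δ δ' κ β c D D' H a b)
include hS

theorem far {p : R4} (hp : p ∈ RR δ' κ β \ BB δ' κ β c a b D') : 1 / 25 - δ' < rsq 1 p := by
  by_contra h
  push Not at h
  exact hp.2 (Or.inl (Or.inl ⟨hp.1.1.1, hp.1.1.2.1, hp.1.1.2.2.1, h⟩))

theorem far2 {p : R4} (hp : p ∈ RR δ' κ β \ BB δ' κ β c a b D') :
    1 / 25 - δ' < rsq 1 (sgi κ β p) := by
  by_contra h
  push Not at h
  have h1 : 1 / 25 - 3 * δ' ≤ rsq 1 (sgi κ β p) := by
    by_contra h2
    exact hp.1.2 ⟨hp.1.1.1, hp.1.1.2.1, not_le.1 h2⟩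
  exact hp.2 (Or.inl (Or.inr ⟨hp.1.1.1, hp.1.1.2.1, h1, h⟩))

theorem pos1 {p : R4} (hp : p ∈ RR δ' κ β \ BB δ' κ β c a b D') :
    0 < rsq 1 (H.g (1, p)) := by
  rw [Geo.rsq1_pos_iff]
  intro h
  have h1 : H.g (1, p) = ((H.g (1, p)).1, e1) := Prod.ext rfl h
  have h2 := Geo.H_e1 hS.th h1
  set s := (H.g (1, p)).1
  have h3 := far hS hp
  rw [h2, rsq_z0] at h3
  have h4 : s ∈ Ioo D'.s₀ D'.s₁ := by
    by_contra h5
    exact absurd (hS.hat'.b' s h5) (not_le.2 h3)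
  exact hp.2 (Or.inr (Or.inl ⟨by rw [h2]; exact ⟨h4.1.le, h4.2.le⟩, by rw [h2]⟩))

theorem pos2 {p : R4} (hp : p ∈ RR δ' κ β \ BB δ' κ β c a b D') :
    0 < rsq 1 (sgi κ β (H.g (1, p))) := by
  rw [Geo.sgi_pos_iff hS.par.k0]
  intro h
  have h1 : H.g (1, p) = ((H.g (1, p)).1, P2 β) := Prod.ext rfl h
  set s := (H.g (1, p)).1
  have h2 : p = (s, z2 c β s) := by
    rw [← Geo.H_P2 hS.th hS.par s, ← h1, H.fg]
  have h3 := far2 hS hp
  have h4 : s ∈ Icc a b := by
    by_contra h5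
    have h6 := Geo.H_P2_out hS.th hS.par hS.mc (Geo.hδ' hS.par) hS.ab h5
    rw [← h2] at h6
    exact absurd h6 (not_le.2 h3)
  exact hp.2 (Or.inr (Or.inr ⟨by rw [h2]; exact h4, by rw [h2]⟩))

/-- the image under `rad2` is off the line over `e1` -/
theorem pos3 {q : R4} (h1 : 0 < rsq 1 q) (h2 : 0 < rsq 1 (sgi κ β q)) :
    0 < rsq 1 (rad2 δ' κ β q) := by
  have k0 := hS.par.k0
  have d' := Geo.hδ' hS.par
  rcases le_or_gt (1 / 25 - δ') (rsq 1 (sgi κ β q)) with h | h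
  · rw [Geo.rad2_fix d' k0 β h]
    exact h1
  · have h5 := Geo.rad2_le d' k0 β h2 h.le
    have h6 := Geo.rsq_lo hS.par (Geo.near_of hS.par (p := rad2 δ' κ β q) (by linarith [d'.1]))
    linarith [d'.2]

theorem le3 {q : R4} (h1 : rsq 1 q ≤ 49 / 100) (h2 : 0 < rsq 1 (sgi κ β q)) :
    rsq 1 (rad2 δ' κ β q) ≤ 49 / 100 := by
  have k0 := hS.par.k0
  have d' := Geo.hδ' hS.par
  rcases le_or_gt (1 / 25 - δ') (rsq 1 (sgi κ β q)) with h | h
  · rw [Geo.rad2_fix d' k0 β h]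
    exact h1
  · have h5 := Geo.rad2_le d' k0 β h2 h.le
    have h6 := Geo.rsq_hi hS.par (Geo.near_of hS.par (p := rad2 δ' κ β q) (by linarith [d'.1]))
    linarith [hS.par.d0]

theorem maps : MapsTo (hm H δ' κ β) (RR δ' κ β \ BB δ' κ β c a b D') (RR δ' κ β) := by
  intro p hp
  have d' := Geo.hδ' hS.par
  obtain ⟨h1, h2, h3⟩ := Geo.H_reg_g hS.th (t := 1) hp.1.1.1 hp.1.1.2.1 hp.1.1.2.2.2
  have h4 := pos1 hS hp
  have h5 := pos2 hS hp
  have h6 := pos3 hS h4 h5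
  have h7 := le3 hS h3 h5
  have h8 := Geo.rad2_low d' hS.par.k0 β h5
  refine ⟨⟨h1, h2, Geo.rade_low' d' h6, ?_⟩, ?_⟩
  · rcases le_or_gt (1 / 25 - δ') (rsq 1 (rad2 δ' κ β (H.g (1, p)))) with h | h
    · show rsq 1 (rade δ' 1 (rad2 δ' κ β (H.g (1, p)))) ≤ _
      rw [Geo.rade_fix d' h]
      exact h7
    · have := Geo.rade_lt d' h6 h
      show rsq 1 (rade δ' 1 (rad2 δ' κ β (H.g (1, p)))) ≤ _
      linarith [d'.1]
  · rintro ⟨-, -, h9⟩
    have h9' : rsq 1 (sgi κ β (rade δ' 1 (rad2 δ' κ β (H.g (1, p))))) < 1 / 25 - 3 * δ' := h9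
    rcases le_or_gt (1 / 25 - δ') (rsq 1 (rad2 δ' κ β (H.g (1, p)))) with h | h
    · rw [Geo.rade_fix d' h] at h9'
      exact absurd h8 (not_le.2 h9')
    · have h10 := Geo.rade_lt d' h6 h
      have h11 := Geo.rsq_lo hS.par (Geo.near_of hS.par
        (p := rade δ' 1 (rad2 δ' κ β (H.g (1, p)))) (by linarith [d'.1]))
      linarith

theorem ld {p : R4} (hp : p ∈ RR δ' κ β \ BB δ' κ β c a b D') : LD (hm H δ' κ β) p := by
  have d' := Geo.hδ' hS.par
  have hf : ContDiff ℝ ∞ (fun q : R4 => H.f (1, q)) :=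
    (contDiff_dfam H).comp (contDiff_prodMk_right (1 : ℝ))
  have hg : ContDiff ℝ ∞ (fun q : R4 => H.g (1, q)) :=
    (contDiff_dfam_inv H).comp (contDiff_prodMk_right (1 : ℝ))
  have l1 : LD (fun q : R4 => H.g (1, q)) p :=
    Geo.ld_of_inv hg hf (fun x => H.fg 1 x) (fun x => H.gf 1 x) p
  have l2 : LD (rad2 δ' κ β ∘ fun q : R4 => H.g (1, q)) p :=
    ld_comp (F := rad2 δ' κ β) (m := fun q : R4 => H.g (1, q)) l1
      ((Geo.rad2_emb d' hS.par.k0 β).1 _ (pos2 hS hp))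
  exact ld_comp (F := rade δ' 1) (m := rad2 δ' κ β ∘ fun q : R4 => H.g (1, q)) l2
    ((rade_emb d').1 _ (pos3 hS (pos1 hS hp) (pos2 hS hp)))

theorem inj : InjOn (hm H δ' κ β) (RR δ' κ β \ BB δ' κ β c a b D') := by
  intro p hp q hq h
  have d' := Geo.hδ' hS.par
  have h1 := (rade_emb d').2 (pos3 hS (pos1 hS hp) (pos2 hS hp))
    (pos3 hS (pos1 hS hq) (pos2 hS hq)) h
  have h2 := (Geo.rad2_emb d' hS.par.k0 β).2 (pos2 hS hp) (pos2 hS hq) h1
  rw [← H.fg 1 p, h2, H.fg]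

theorem front {p : R4} (hp : p ∈ RR δ' κ β \ BB δ' κ β c a b D') :
    ∀ᶠ q in 𝓝 p, q ∉ RR δ' κ β → hm H δ' κ β q = q := by
  have d' := Geo.hδ' hS.par
  have h1 : ∀ᶠ q : R4 in 𝓝 p, 1 / 25 - δ' < rsq 1 q :=
    Geo.continuous_rsq1.continuousAt.eventually (Ioi_mem_nhds (far hS hp))
  have h2 : ∀ᶠ q : R4 in 𝓝 p, 1 / 25 - δ' < rsq 1 (sgi κ β q) :=
    (Geo.continuous_rsq_sgi κ β).continuousAt.eventually (Ioi_mem_nhds (far2 hS hp))
  filter_upwards [h1, h2] with q hq1 hq2 hqR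
  have h3 : q ∉ hol δ' κ β := fun h => absurd h.2.2 (not_lt.2 (by linarith [d'.1]))
  have h4 : q.1 ≤ 1 / 20 ∨ 19 / 20 ≤ q.1 ∨ 49 / 100 ≤ rsq 1 q := by
    by_contra h
    push Not at h
    exact hqR ⟨⟨by linarith [h.1], by linarith [h.2.1], by linarith [d'.1], h.2.2.le⟩, h3⟩
  have h5 : H.g (1, q) = q := Geo.H_supp_g hS.th (t := 1) h4
  show rade δ' 1 (rad2 δ' κ β (H.g (1, q))) = q
  rw [h5, Geo.rad2_fix d' hS.par.k0 β hq2.le, Geo.rade_fix d' hq1.le]

theorem sub : U2 G δ' κ β \ (D'.A ∪ A2 G H β a b) ⊆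
    (G '' (RR δ' κ β ∩ BB δ' κ β c a b D'))ᶜ := by
  rintro y ⟨h1, h2⟩ ⟨p, ⟨-, (hp | (hp | hp))⟩, rfl⟩
  · exact h1 ⟨p, hp, rfl⟩
  · refine h2 (Or.inl ⟨(p.1, 0), ⟨hp.1.1, hp.1.2, rfl⟩, ?_⟩)
    rw [hS.hat'.J]
    show G (p.1, z0 p.1 + 0) = G p
    rw [add_zero, ← hp.2]
  · refine h2 (Or.inr ⟨(p.1, P2 β), ⟨rfl, hp.1.1, hp.1.2⟩, ?_⟩)
    show G (H.f (1, (p.1, P2 β))) = G p
    rw [Geo.H_P2 hS.th hS.par, ← hp.2]

end

end E1

theorem m_E1 (hGH : StGH) : StE1 := by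
  intro G T T' δ δ' κ β c D D' H a b hS
  have hG : EmbOn I4 G (E1.RR δ' κ β) :=
    Pool.Agent.Helper70.BI.EmbOn.mono' hS.emb (fun p hp => Geo.Reg_K3 hp.1)
  have h := hGH G (E1.hm H δ' κ β) (E1.RR δ' κ β) (E1.BB δ' κ β c a b D')
    (Geo.isCompact_Reg_hol δ' κ β) (E1.isClosed_BB δ' κ β c a b D') hG
    (fun p hp => E1.ld hS hp) (E1.inj hS) (E1.maps hS) (fun p hp => E1.front hS hp)
  exact Pool.Agent.Helper70.BI.EmbOn.mono' h (E1.sub hS)

end Pool.Agent.Helper27.S5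


end

/-! ## Helper89.BI5.M_N2b -/

section

/-!
# Project BI, stage 5, module N2b: pushing off the thick sphere
-/

set_option autoImplicit false

open scoped Topology
open Set Pool.Agent.Helper65.Barb Pool.Agent.Helper18.BI
open Pool.Agent.Helper27.BI (e1)
open Pool.Agent.Helper27.H

namespace Pool.Agent.Helper27.S5

namespace N2b

theorem cont_rsq : Continuous (fun p : R4 => rsq 1 p) := by
  unfold rsq nsq
  fun_prop

theorem rsq_nonneg (p : R4) : 0 ≤ rsq 1 p := by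
  unfold rsq nsq
  positivity

/-- the norm function -/
noncomputable def N (δ : ℝ) (p : R4) : ℝ :=
  max (2 * |p.1 - 1 / 2|) (|rsq 1 p - (1 / 25 - 2 * δ)| / δ)

theorem cont_N (δ : ℝ) : Continuous (N δ) := by
  unfold N
  have h := cont_rsq
  fun_prop

theorem N_pos {δ : ℝ} (hδ : 0 < δ) {p : R4} (h : ¬(p.1 = 1 / 2 ∧ rsq 1 p = 1 / 25 - 2 * δ)) :
    0 < N δ p := by
  unfold N
  by_cases h1 : p.1 = 1 / 2
  · have h2 : rsq 1 p - (1 / 25 - 2 * δ) ≠ 0 := fun h3 => h ⟨h1, by linarith⟩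
    exact lt_max_of_lt_right (div_pos (abs_pos.2 h2) hδ)
  · exact lt_max_of_lt_left (mul_pos two_pos (abs_pos.2 (sub_ne_zero.2 h1)))

theorem N_gt {δ : ℝ} (hδ : 0 < δ) {p : R4} (h : p ∉ wallS δ) : 1 < N δ p := by
  by_contra hN
  push Not at hN
  unfold N at hN
  have h1 := (le_max_left _ _).trans hN
  have h2 := (le_max_right _ _).trans hN
  rw [div_le_one hδ, abs_le] at h2
  have h3 : |p.1 - 1 / 2| ≤ 1 / 2 := by linarith
  rw [abs_le] at h3
  exact h ⟨by linarith, by linarith, by linarith, by linarith⟩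

theorem not_wall {δ : ℝ} (hδ : 0 < δ) {p : R4} (h : 1 < N δ p) : p ∉ wallS δ := by
  rintro ⟨h1, h2, h3, h4⟩
  have h5 : |p.1 - 1 / 2| ≤ 1 / 2 := abs_le.2 ⟨by linarith, by linarith⟩
  have h6 : |rsq 1 p - (1 / 25 - 2 * δ)| ≤ δ := abs_le.2 ⟨by linarith, by linarith⟩
  have h7 : N δ p ≤ 1 := max_le (by linarith) ((div_le_one hδ).2 h6)
  linarith

/-- the stretching factor -/
noncomputable def tt (δ ν : ℝ) (p : R4) : ℝ := max 1 (ν / N δ p)

/-- the radial factor -/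
noncomputable def fac2 (δ ν : ℝ) (p : R4) : ℝ :=
  Real.sqrt (1 + (tt δ ν p - 1) * (rsq 1 p - (1 / 25 - 2 * δ)) / max (rsq 1 p) (1 / 500))

/-- the push -/
noncomputable def om (δ ν : ℝ) (p : R4) : R4 :=
  (1 / 2 + tt δ ν p * (p.1 - 1 / 2), e1 + fac2 δ ν p • (p.2 - e1))

theorem rsq_om (δ ν : ℝ) (p : R4) : rsq 1 (om δ ν p) = fac2 δ ν p ^ 2 * rsq 1 p := by
  unfold om rsq nsq e1
  simp only [Prod.fst_add, Prod.snd_add, Prod.smul_fst, Prod.smul_snd, Prod.fst_sub, Prod.snd_sub,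
    smul_eq_mul, Complex.add_re, Complex.add_im, Complex.zero_re, Complex.zero_im,
    Complex.real_smul, Complex.mul_re, Complex.mul_im, Complex.ofReal_re, Complex.ofReal_im,
    Complex.sub_re, Complex.sub_im]
  ring

theorem om_eq {δ ν : ℝ} (hν : 1 < ν) {p : R4} (h : ν ≤ N δ p) : om δ ν p = p := by
  have h1 : tt δ ν p = 1 := by
    unfold tt
    refine max_eq_left ((div_le_one ?_).2 h)
    linarith
  have h2 : fac2 δ ν p = 1 := by
    unfold fac2
    rw [h1]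
    simp
  unfold om
  rw [h1, h2]
  refine Prod.ext ?_ ?_
  · show 1 / 2 + 1 * (p.1 - 1 / 2) = p.1
    ring
  · show e1 + (1 : ℝ) • (p.2 - e1) = p.2
    rw [one_smul]
    abel

theorem om_N {δ ν : ℝ} (hδ : 0 < δ) (hδ' : δ < 1 / 100) (hν' : ν ≤ 5 / 4) {p : R4}
    (h0 : 0 < N δ p) (h : N δ p < ν) : N δ (om δ ν p) = ν := by
  have ht : tt δ ν p = ν / N δ p := by
    unfold tt
    exact max_eq_right ((one_le_div h0).2 h.le)
  have ht1 : 1 ≤ tt δ ν p := le_max_left _ _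
  have htN : tt δ ν p * N δ p = ν := by
    rw [ht]
    exact div_mul_cancel₀ _ h0.ne'
  have hr : |rsq 1 p - (1 / 25 - 2 * δ)| ≤ N δ p * δ := by
    have h1 : |rsq 1 p - (1 / 25 - 2 * δ)| / δ ≤ N δ p := le_max_right _ _
    rwa [div_le_iff₀ hδ] at h1
  have hr2 : |tt δ ν p * (rsq 1 p - (1 / 25 - 2 * δ))| ≤ ν * δ := by
    rw [abs_mul, abs_of_nonneg (by linarith)]
    calc tt δ ν p * |rsq 1 p - (1 / 25 - 2 * δ)| ≤ tt δ ν p * (N δ p * δ) :=
          mul_le_mul_of_nonneg_left hr (by linarith)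
      _ = ν * δ := by rw [← mul_assoc, htN]
  have hνδ : ν * δ ≤ 5 / 4 * δ := mul_le_mul_of_nonneg_right hν' hδ.le
  have hNδ : N δ p * δ ≤ 5 / 4 * δ := mul_le_mul_of_nonneg_right (h.le.trans hν') hδ.le
  have hrp : 1 / 500 ≤ rsq 1 p := by
    have := (abs_le.1 hr).1
    nlinarith
  have hk : 0 ≤ (1 / 25 - 2 * δ) + tt δ ν p * (rsq 1 p - (1 / 25 - 2 * δ)) := by
    have := (abs_le.1 hr2).1
    nlinarith
  have hmax : max (rsq 1 p) (1 / 500) = rsq 1 p := max_eq_left hrp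
  have hrp0 : 0 < rsq 1 p := by linarith
  have hid : 1 + (tt δ ν p - 1) * (rsq 1 p - (1 / 25 - 2 * δ)) / rsq 1 p =
      ((1 / 25 - 2 * δ) + tt δ ν p * (rsq 1 p - (1 / 25 - 2 * δ))) / rsq 1 p := by
    rw [eq_div_iff hrp0.ne', add_mul, one_mul, div_mul_cancel₀ _ hrp0.ne']
    ring
  have hrom : rsq 1 (om δ ν p) =
      (1 / 25 - 2 * δ) + tt δ ν p * (rsq 1 p - (1 / 25 - 2 * δ)) := by
    rw [rsq_om]
    unfold fac2
    rw [hmax, hid, Real.sq_sqrt (div_nonneg hk hrp0.le), div_mul_cancel₀ _ hrp0.ne']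
  have h1 : (om δ ν p).1 - 1 / 2 = tt δ ν p * (p.1 - 1 / 2) := by
    unfold om
    ring
  have h2 : rsq 1 (om δ ν p) - (1 / 25 - 2 * δ) = tt δ ν p * (rsq 1 p - (1 / 25 - 2 * δ)) := by
    rw [hrom]
    ring
  have ht0 : 0 ≤ tt δ ν p := by linarith
  unfold N
  rw [h1, h2, abs_mul, abs_mul, abs_of_nonneg ht0]
  have h3 : 2 * (tt δ ν p * |p.1 - 1 / 2|) = tt δ ν p * (2 * |p.1 - 1 / 2|) := by ring
  have h4 : tt δ ν p * |rsq 1 p - (1 / 25 - 2 * δ)| / δ =
      tt δ ν p * (|rsq 1 p - (1 / 25 - 2 * δ)| / δ) := by ring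
  rw [h3, h4, ← mul_max_of_nonneg _ _ ht0]
  exact htN

end N2b

open N2b in
/-- module N2b -/
theorem m_N2b : StN2b := by
  intro δ hδ K hK hdis
  obtain ⟨hδ0, hδ1⟩ := hδ
  -- the number `ν`
  obtain ⟨ν, hν1, hν2, hνK⟩ : ∃ ν : ℝ, 1 < ν ∧ ν ≤ 5 / 4 ∧ ∀ p ∈ K, ν ≤ N δ p := by
    rcases K.eq_empty_or_nonempty with rfl | hne
    · exact ⟨5 / 4, by norm_num, le_rfl, fun p hp => absurd hp (notMem_empty p)⟩
    · obtain ⟨p₀, hp₀, hmin⟩ := hK.exists_isMinOn hne (cont_N δ).continuousOn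
      refine ⟨min (N δ p₀) (5 / 4), lt_min ?_ (by norm_num), min_le_right _ _, ?_⟩
      · exact N_gt hδ0 (disjoint_left.1 hdis hp₀)
      · intro p hp
        exact (min_le_left _ _).trans (hmin hp)
  refine ⟨om δ ν, ?_, ?_, ?_⟩
  · -- continuity
    have hN : ContinuousOn (N δ) {p : R4 | ¬(p.1 = 1 / 2 ∧ rsq 1 p = 1 / 25 - 2 * δ)} :=
      (cont_N δ).continuousOn
    have ht : ContinuousOn (tt δ ν) {p : R4 | ¬(p.1 = 1 / 2 ∧ rsq 1 p = 1 / 25 - 2 * δ)} := by
      unfold tt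
      exact ContinuousOn.sup continuousOn_const
        (continuousOn_const.div hN fun p hp => (N_pos hδ0 hp).ne')
    have hr : ContinuousOn (fun p : R4 => rsq 1 p)
        {p : R4 | ¬(p.1 = 1 / 2 ∧ rsq 1 p = 1 / 25 - 2 * δ)} := cont_rsq.continuousOn
    have hf : ContinuousOn (fac2 δ ν) {p : R4 | ¬(p.1 = 1 / 2 ∧ rsq 1 p = 1 / 25 - 2 * δ)} := by
      unfold fac2
      refine ContinuousOn.sqrt (continuousOn_const.add (ContinuousOn.div
        ((ht.sub continuousOn_const).mul (hr.sub continuousOn_const))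
        (ContinuousOn.sup hr continuousOn_const) ?_))
      intro p _
      have : (1 / 500 : ℝ) ≤ max (rsq 1 p) (1 / 500) := le_max_right _ _
      linarith
    unfold om
    refine ContinuousOn.prodMk ?_ ?_
    · exact continuousOn_const.add (ht.mul (continuous_fst.continuousOn.sub continuousOn_const))
    · exact continuousOn_const.add
        (hf.smul (continuous_snd.continuousOn.sub continuousOn_const))
  · intro p hp
    refine not_wall hδ0 ?_
    rcases le_or_gt ν (N δ p) with h | h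
    · rw [om_eq hν1 h]
      linarith
    · rw [om_N hδ0 hδ1 hν2 (N_pos hδ0 hp) h]
      exact hν1
  · intro p hp
    exact om_eq hν1 (hνK p hp)

end Pool.Agent.Helper27.S5


end

/-! ## Helper89.BI5.M_EXA -/

section

/-!
# Project BI, stage 5, module EXA: exactness
-/

set_option autoImplicit false

open scoped Manifold ContDiff Topology ComplexConjugate
open Set Filter Pool.Agent.Helper65.Barb Pool.Agent.Helper18.BI
open Pool.Agent.Helper70.BI (I4 LD NearEq IsW)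
open Pool.Agent.Helper34.BI (rade qe)
open Pool.Agent.Helper27.BI (e1)
open Pool.Agent.Helper27.H
open Pool.Agent.Helper18.BI.R (LoopOK SH)

namespace Pool.Agent.Helper27.S5

namespace EXA

open Geo

theorem K3_mono {δ δ' : ℝ} (h : δ ≤ δ') : K3 δ ⊆ K3 δ' :=
  fun _ hp => ⟨hp.1, hp.2.1, by linarith [hp.2.2]⟩

theorem Reg_mono {δ δ' : ℝ} (h : δ ≤ δ') : Reg δ ⊆ Reg δ' :=
  fun _ hp => ⟨hp.1, hp.2.1, by linarith [hp.2.2.1], hp.2.2.2⟩

theorem rsq_z0 (s : ℝ) : rsq 1 (s, z0 s) = bfin s ^ 2 := by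
  rw [rsq1, z0_def]
  simp

section par
variable {δ δ' κ β c : ℝ} (hp : Par δ δ' κ β)
include hp

/-- the finger over `e1` -/
theorem z0_XX {s : ℝ} (h0 : 0 ≤ s) (h1 : s ≤ 1) (hs : 1 / 25 - δ' ≤ bfin s ^ 2) :
    (s, z0 s) ∈ XX δ' κ β ∨ (s, z0 s) ∈ tb c := by
  by_cases hm : 11 / 25 < s ∧ s < 14 / 25
  · right
    refine ⟨hm.1, hm.2, ?_⟩
    show nsq (z0 s - z0 s) ≤ _
    rw [sub_self]
    have : nsq (0 : R3) = 0 := (nsq_zero_iff 0).2 rfl
    rw [this]
    positivity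
  · left
    refine ⟨⟨h0, h1, ?_, ?_⟩, ?_⟩
    · rw [rsq_z0]
      linarith [(hδ' hp).1]
    · rw [rsq_z0]
      have a1 := bfin_le s
      have a2 := bfin_nonneg s
      nlinarith
    · rintro (h2 | h2)
      · have h3 := line_dist hp (hol_near hp h2) (1 - bfin s)
        have h4 : ((s, z0 s) : R4).2 - (1 - bfin s) • e1 = 0 := by
          show z0 s - (1 - bfin s) • e1 = 0
          unfold z0
          exact sub_self _
        rw [h4, (nsq_zero_iff 0).2 rfl] at h3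
        have h5 := num_lo hp
        nlinarith
      · exact hm ⟨h2.1, h2.2.1⟩

variable {a b : ℝ} (hab : Arc2 δ' κ a b)
include hab

/-- the second finger -/
theorem z2_XX {s : ℝ} (hs : s ∈ Icc a b) (hc : c ∈ Ioo (0 : ℝ) 1) :
    (s, z2 c β s) ∈ XX δ' κ β ∨ (s, z2 c β s) ∈ tb c := by
  have hb : κ ^ 2 * (1 / 25 - δ') ≤ bfin s ^ 2 := by
    obtain ⟨h1, h2⟩ := hs
    rcases h1.lt_or_eq with h1 | rfl
    · rcases h2.lt_or_eq with h2 | rfl
      · exact (hab.ins s ⟨h1, h2⟩).le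
      · exact hab.eb.ge
    · exact hab.ea.ge
  have n1 := num_lo hp
  have n2 := num_hi hp
  have k0 := hp.k0
  have d' := hδ' hp
  by_cases hm : 11 / 25 < s ∧ s < 14 / 25
  · right
    refine ⟨hm.1, hm.2, ?_⟩
    show nsq (z2 c β s - z0 s) ≤ _
    rw [nsq_z20, lam_mid c ⟨by linarith [hm.1], by linarith [hm.2]⟩]
    have h1 : 0 ≤ c * β := mul_nonneg hc.1.le (by linarith)
    have h2 : c * β ≤ c * (41 / 200) := mul_le_mul_of_nonneg_left (by linarith) hc.1.le
    exact pow_le_pow_left₀ h1 h2 2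
  · left
    have l0 := lam_pos hc s
    have l1 := lam_le hc s
    have b0 := bfin_nonneg s
    have b1 := bfin_le s
    have hβ : 0 < β := by linarith
    refine ⟨⟨by linarith [hab.ma.1, hs.1], by linarith [hab.mb.2, hs.2], ?_, ?_⟩, ?_⟩
    · rw [rsq_z2]
      by_cases hl : lam c s = 1
      · rw [hl, one_mul]
        have h1 : (β - κ) ^ 2 ≤ β ^ 2 := pow_le_pow_left₀ (by linarith) (by linarith) 2
        have h2 := hp.lo
        nlinarith [sq_nonneg (bfin s)]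
      · rw [bfin_of_lam hl]
        have h1 := sq_nonneg (lam c s * β)
        norm_num
        linarith [d'.1]
    · rw [rsq_z2]
      have h1 : bfin s ^ 2 ≤ (27 / 100) ^ 2 := pow_le_pow_left₀ b0 b1 2
      have h2 : lam c s * β ≤ 1 / 5 := by nlinarith
      have h3 : (lam c s * β) ^ 2 ≤ (1 / 5) ^ 2 := pow_le_pow_left₀ (by positivity) h2 2
      norm_num at h1 h3
      linarith
    · rintro (h2 | h2)
      · have h3 := h2.2.2
        rw [rsq_sgi k0] at h3
        have h4 : nsq (((s, z2 c β s) : R4).2 - P2 β) = bfin s ^ 2 + (1 - lam c s) ^ 2 * β ^ 2 :=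
          nsq_z2 c β s
        rw [h4, div_lt_iff₀ (by positivity)] at h3
        have h5 : 0 ≤ (1 - lam c s) ^ 2 * β ^ 2 := by positivity
        have h6 : 0 < κ ^ 2 := by positivity
        nlinarith [d'.1, mul_pos d'.1 h6]
      · exact hm ⟨h2.1, h2.2.1⟩

end par

theorem A_off {T' G : R4 → R4} {D : ArcD} {δ δ' δ'' κ β c : ℝ} (hp : Par δ δ' κ β)
    (hd : δ'' ≤ δ') (hD : HatOk δ'' T' G D) {x : R4} (hx : x ∈ D.A) :
    x ∈ G '' XX δ' κ β ∨ x ∈ G '' tb c := by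
  obtain ⟨p, ⟨h1, h2, h3⟩, rfl⟩ := hx
  have hg : 1 / 25 - δ'' ≤ bfin p.1 ^ 2 := by
    rcases h1.lt_or_eq with h1 | h1
    · rcases h2.lt_or_eq with h2 | h2
      · exact (hD.b p.1 ⟨h1, h2⟩).le
      · rw [h2]
        exact hD.b₁.ge
    · rw [← h1]
      exact hD.b₀.ge
  have e : D.J p = G (p.1, z0 p.1) := by
    rw [hD.J]
    show G (p.1, z0 p.1 + p.2) = _
    rw [h3, add_zero]
  rw [e]
  rcases z0_XX (c := c) hp (s := p.1) (by linarith [hD.s₀.1]) (by linarith [hD.s₁.2])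
    (by linarith) with h | h
  · exact Or.inl ⟨_, h, rfl⟩
  · exact Or.inr ⟨_, h, rfl⟩

end EXA

open EXA Geo in
/-- module EXA -/
theorem m_EXA (hHE : StHE) : StEXA := by
  intro G T T' δ δ' κ β c D D' H a b hS K Θ Θ' hK hKX hKt hSD
  have hp := hS.par
  have d := hδ hp
  have d' := hδ' hp
  have hdd : δ ≤ δ' := by linarith [hp.d0, hp.d1]
  have offX : ∀ x ∈ K, ∀ p ∈ XX δ' κ β, G p ≠ x := fun x hx p hpX h =>
    hKX hx ⟨p, hpX, h⟩
  have offt : ∀ x ∈ K, ∀ p ∈ tb c, G p ≠ x := fun x hx p hpt h =>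
    disjoint_left.1 hKt hx ⟨p, hpt, h⟩
  have offXt : ∀ x ∈ K, ¬(x ∈ G '' XX δ' κ β ∨ x ∈ G '' tb c) := by
    rintro x hx (⟨p, h1, h2⟩ | ⟨p, h1, h2⟩)
    · exact offX x hx p h1 h2
    · exact offt x hx p h1 h2
  have hK1 : K ⊆ D.U \ D.A := by
    intro x hx
    refine ⟨?_, fun h => offXt x hx (A_off hp hdd hS.hat h)⟩
    rw [hS.hat.U]
    rintro ⟨p, h1, h2⟩
    exact offX x hx p (wall_XX' hp h1) h2
  have hK2 : K ⊆ U2 G δ' κ β \ (D'.A ∪ A2 G H β a b) := by
    intro x hx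
    refine ⟨?_, ?_⟩
    · rintro ⟨p, h1 | h1, h2⟩
      · exact offX x hx p (wall_XX hp h1) h2
      · exact offX x hx p (wall2_XX hp h1) h2
    · rintro (h | ⟨p, ⟨h1, h2, h3⟩, h4⟩)
      · exact offXt x hx (A_off hp le_rfl hS.hat' h)
      · have h5 : p = (p.1, P2 β) := Prod.ext rfl h1
        have h6 : H.f (1, p) = (p.1, z2 c β p.1) := by
          rw [h5]
          exact H_P2 hS.th hp p.1
        have h7 : G (p.1, z2 c β p.1) = x := by
          rw [← h6]
          exact h4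
        rcases z2_XX hp hS.ab (s := p.1) ⟨h2, h3⟩ hS.mc with h | h
        · exact offX x hx _ h h7
        · exact offt x hx _ h h7
  have hGδ : EmbOn I4 G (K3 δ) :=
    ⟨fun p hp' => hS.emb.1 p (K3_mono hdd hp'), hS.emb.2.mono (K3_mono hdd)⟩
  obtain ⟨hE1, hE2⟩ := hHE G T T' δ c D H hS.fb d hGδ hS.hat hS.th
  refine ⟨hK1, hK2, ?_⟩
  have hC := hE2 K Θ Θ' hK hK1 hSD
  -- the two embeddings agree on `K`
  have hinj : InjOn G (Reg δ') := hS.emb.2.mono Reg_K3
  have hEq : EqOn (hatE G δ (fun p => H.g (1, p))) (EE G H δ' κ β) K := by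
    intro x hx
    have i1 := hImp R4 R4 I4 R4 G (Reg δ) (fun p => rade δ 1 (H.g (1, p)))
      (hinj.mono (Reg_mono hdd))
    have i2 := hImp R4 R4 I4 R4 G (Reg δ' \ hol δ' κ β)
      (fun p => rade δ' 1 (rad2 δ' κ β (H.g (1, p)))) (hinj.mono sdiff_subset)
    show imp G (Reg δ) (fun p => rade δ 1 (H.g (1, p))) x =
      imp G (Reg δ' \ hol δ' κ β) (fun p => rade δ' 1 (rad2 δ' κ β (H.g (1, p)))) x
    by_cases hxR : x ∈ G '' Reg δ'
    · obtain ⟨p, hpR, rfl⟩ := hxR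
      have hpX : p ∉ XX δ' κ β := fun h => offX _ hx p h rfl
      have hpc : p ∈ hol δ' κ β ∪ Chn := by
        by_contra h
        exact hpX ⟨hpR, h⟩
      rcases hpc with hh | hh
      · rw [i1.2.1, i2.2.1]
        · rintro ⟨q, hq, hqp⟩
          have := hinj hq.1 hpR hqp
          subst this
          exact hq.2 hh
        · rintro ⟨q, hq, hqp⟩
          have := hinj (Reg_mono hdd hq) hpR hqp
          subst this
          exact absurd (rsq_hi hp (hol_near hp hh)) (not_lt.2 hq.2.2.1)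
      · have hr := Chn_rsq hp hh
        have hp1 : p ∈ Reg δ := ⟨hpR.1, hpR.2.1, by norm_num at hr; linarith [d.1], hpR.2.2.2⟩
        have hp2 : p ∈ Reg δ' \ hol δ' κ β := ⟨hpR, fun h => not_Chn hp (hol_near hp h) hh⟩
        have hpt : p ∉ tb c := fun h => offt _ hx p h rfl
        have hq : (41 / 200) ^ 2 < rsq 1 (H.g (1, p)) := by
          by_contra hq
          push Not at hq
          have h1 := H_ball hS.th hq
          rw [H.fg] at h1
          obtain ⟨h2, h3⟩ := Prod.ext_iff.1 h1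
          replace h2 : p.1 = (H.g (1, p)).1 := h2
          replace h3 : p.2 = z0 (H.g (1, p)).1 +
            lam c (H.g (1, p)).1 • ((H.g (1, p)).2 - e1) := h3
          rw [← h2, lam_mid c ⟨by linarith [hh.1], by linarith [hh.2.1]⟩] at h3
          refine hpt ⟨hh.1, hh.2.1, ?_⟩
          rw [h3, add_sub_cancel_left, Pool.Agent.Helper27.H.nsq_smul, mul_pow, ← rsq1_eq]
          exact mul_le_mul_of_nonneg_left hq (sq_nonneg c)
        have hq25 : 1 / 25 < rsq 1 (H.g (1, p)) := by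
          norm_num at hq
          linarith
        have hs25 : 1 / 25 < rsq 1 (sgi κ β (H.g (1, p))) := by
          by_contra h
          push Not at h
          have h1 := rsq_hi hp (near_of hp h)
          linarith [d.1]
        rw [i1.1 p hp1, i2.1 p hp2, rade_fix d (by linarith [d.1]),
          rad2_fix d' hp.k0 β (by linarith [d'.1]), rade_fix d' (by linarith [d'.1])]
    · rw [i1.2.1 x fun h => hxR (image_mono (Reg_mono hdd) h),
        i2.2.1 x fun h => hxR (image_mono sdiff_subset h)]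
  have hΘ : MapsTo Θ K K := by
    intro x hx
    by_contra h
    obtain ⟨-, -, -, h4, h5⟩ := hSD
    have h6 := h5 _ h
    have h7 : Θ x = x := by
      have h8 := h4 (Θ x)
      rw [h6, h4 x] at h8
      exact h8.symm
    rw [h7] at h
    exact h hx
  have hI := (hImp R4 R4 I4 R4 (hatE G δ (fun p => H.g (1, p))) K Θ
    (hE1.2.mono hK1)).2.2.2.2.2.1 (EE G H δ' κ β) hEq hΘ
  rw [← hI]
  exact hC

end Pool.Agent.Helper27.S5


end
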