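import Pool.Agent.Helper70.BI.C.P62
import Pool.Agent.Helper70.BI.C.P74

/-!
# Project BI (MP_8e98f2_gt): stage 5, the final theorems
-/

set_option autoImplicit false

namespace Pool.Agent.Helper70.T

theorem topHom : StHom := stHom Pool.Agent.Helper27.S5.hFinal8

theorem topElem : StElem := stElem Pool.Agent.Helper27.S5.hFinal8

end Pool.Agent.Helper70.T
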