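import Pool.Agent.Helper65.Barb.Defs
import Pool.Agent.Helper70.BI.C.P25
import Pool.Agent.Helper70.BI.C.P26
import Pool.Agent.Helper70.BI.C.P27
import Pool.Agent.Helper70.BI.C.P33

/-!
# Project BI (MP_8e98f2_gt): collected modules, part 34

The contents of the modules
* Helper70.BI.M_XC
* Helper70.BI.M_OB1
* Helper70.BI.StF2
* Helper70.BI.M_EI
* Helper70.BI.M_X2c
* Helper70.BI.M_ThM
* Helper70.BI.M_W4
* Helper70.BI.M_Final2
* Helper18.BI.H.M_F3

in one file, so that the whole proof builds in a short time.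
-/

namespace Pool.Agent.Helper18.BI
end Pool.Agent.Helper18.BI

namespace Pool.Agent.Helper27.BI
end Pool.Agent.Helper27.BI

namespace Pool.Agent.Helper65.Barb
end Pool.Agent.Helper65.Barb

namespace Pool.Agent.Helper70.BI
end Pool.Agent.Helper70.BI

namespace Pool.Agent.Helper70.BI.Fin2
end Pool.Agent.Helper70.BI.Fin2


/-! ## Helper70.BI.M_XC -/

section

/-!
# Project BI, module XC: extended cores
-/

set_option autoImplicit false

open scoped Manifold ContDiff Topology ComplexConjugate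
open Set Filter Pool.Agent.Helper65.Barb Pool.Agent.Helper18.BI

namespace Pool.Agent.Helper70.BI

namespace XC

theorem ax_contDiff : ContDiff ℝ ∞ ax :=
  contDiff_const.prodMk (contDiff_id.prodMk contDiff_const)

theorem ax_hasDerivAt (u : ℝ) : HasDerivAt ax ((0, (1, 0)) : R4) u := by
  have h1 : HasDerivAt (fun _ : ℝ => (1 / 2 : ℝ)) 0 u := hasDerivAt_const u _
  have h2 : HasDerivAt (fun x : ℝ => x) 1 u := hasDerivAt_id u
  have h3 : HasDerivAt (fun _ : ℝ => (0 : ℂ)) 0 u := hasDerivAt_const u _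
  exact h1.prodMk (h2.prodMk h3)

theorem v_ne : ((0, (1, 0)) : R4) ≠ 0 := by
  intro h
  have h8 := congrArg (fun p : R4 => p.2.1) h
  simp at h8

theorem ax_inj {a b : ℝ} (h : ax a = ax b) : a = b := congrArg (fun p : R4 => p.2.1) h

theorem norm_strand (d a : ℝ) (hd : d = 1 ∨ d = -1) :
    ‖((1 / 2 + d * (a - 2 / 5), pc 1) : R4) - ax 1‖ = |a - 2 / 5| := by
  have h1 : ((1 / 2 + d * (a - 2 / 5), pc 1) : R4) - ax 1 = (d * (a - 2 / 5), 0) := by
    simp only [ax, pc, Prod.mk_sub_mk, sub_self]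
    ring_nf
  have hd1 : |d| = 1 := by rcases hd with h | h <;> rw [h] <;> norm_num
  rw [h1, Prod.norm_mk, norm_zero, Real.norm_eq_abs, abs_mul, hd1, one_mul,
    max_eq_left (abs_nonneg _)]

theorem norm_ax (a : ℝ) : ‖ax a - ax 1‖ = |a - 1| := by
  have h1 : ax a - ax 1 = ((0, (a - 1, 0)) : R4) := by
    simp only [ax, Prod.mk_sub_mk, sub_self]
  rw [h1, Prod.norm_mk, Prod.norm_mk, norm_zero, norm_zero, Real.norm_eq_abs,
    max_eq_left (abs_nonneg (a - 1)), max_eq_right (abs_nonneg (a - 1))]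

theorem ax_SP {a : ℝ} (h0 : 1 / 5 ≤ a) (h1 : a ≤ 4 / 5) : ax a ∈ SP := Or.inr ⟨rfl, h0, h1, rfl⟩

theorem rsq_ax (c a : ℝ) : rsq c (ax a) = (a - c) ^ 2 := by
  simp [rsq, nsq, ax]

theorem ax_flat {a : ℝ} (h0 : 4 / 5 ≤ a) (h1 : a ≤ 1) : ax a ∈ flat 1 := by
  refine ⟨rfl, ?_⟩
  rw [rsq_ax]
  nlinarith

theorem ax_sph {a : ℝ} (h : ax a ∈ sph 0) (h0 : 0 ≤ a) : a = 1 / 5 := by
  have h1 := h.2
  rw [rsq_ax] at h1
  nlinarith

theorem ax_mem_sph : ax (1 / 5) ∈ sph 0 := ⟨rfl, by rw [rsq_ax]; norm_num⟩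

/-- the cut off core -/
noncomputable def ecut (F : R4 → R4) (ν μ a : ℝ) : R4 :=
  if a < 1 - μ / 2 then Real.smoothTransition ((a - (1 / 5 - 2 * ν / 3)) / (ν / 3)) • F (ax a)
  else ax a

theorem psi_one {ν a : ℝ} (hν : 0 < ν) (h : 1 / 5 - ν / 3 ≤ a) :
    Real.smoothTransition ((a - (1 / 5 - 2 * ν / 3)) / (ν / 3)) = 1 := by
  apply Real.smoothTransition.one_of_one_le
  rw [le_div_iff₀ (by positivity)]
  linarith

theorem psi_zero {ν a : ℝ} (hν : 0 < ν) (h : a ≤ 1 / 5 - 2 * ν / 3) :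
    Real.smoothTransition ((a - (1 / 5 - 2 * ν / 3)) / (ν / 3)) = 0 := by
  apply Real.smoothTransition.zero_of_nonpos
  apply div_nonpos_of_nonpos_of_nonneg <;> linarith

theorem cut_high {F : R4 → R4} {ν μ δ : ℝ} (hν : 0 < ν) (hμ : 0 < μ) (hμδ : μ ≤ δ)
    (hδ : δ ≤ 1 / 100) (hnear : ∀ p, ‖p - ax 1‖ < δ → F p = p) {a : ℝ} (ha : 1 - μ < a) :
    ecut F ν μ a = ax a := by
  unfold ecut
  split_ifs with h
  · rw [psi_one hν (by linarith), one_smul]
    apply hnear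
    rw [norm_ax, abs_lt]
    constructor <;> linarith
  · rfl

theorem cut_core {F : R4 → R4} {ν μ δ : ℝ} (hν : 0 < ν) (hμ : 0 < μ) (hμδ : μ ≤ δ)
    (hnear : ∀ p, ‖p - ax 1‖ < δ → F p = p) {a : ℝ} (ha : 1 / 5 - ν / 3 ≤ a) (ha1 : a ≤ 1) :
    ecut F ν μ a = F (ax a) := by
  unfold ecut
  split_ifs with h
  · rw [psi_one hν (by linarith), one_smul]
  · push Not at h
    symm
    apply hnear
    rw [norm_ax, abs_lt]
    constructor <;> linarith

theorem cut_smooth {F : R4 → R4} {ν μ δ : ℝ} (hν : 0 < ν) (hμ : 0 < μ) (hμδ : μ ≤ δ)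
    (hδ : δ ≤ 1 / 100) (hnear : ∀ p, ‖p - ax 1‖ < δ → F p = p)
    (hsm : ∀ a, 1 / 5 - ν < a → a ≤ 1 → ContDiffAt ℝ ∞ F (ax a)) :
    ContDiff ℝ ∞ (ecut F ν μ) := by
  rw [contDiff_iff_contDiffAt]
  intro a
  rcases lt_or_ge (1 - μ) a with h1 | h1
  · have h2 : ecut F ν μ =ᶠ[𝓝 a] ax := by
      filter_upwards [lt_mem_nhds h1] with b hb
      exact cut_high hν hμ hμδ hδ hnear hb
    exact ax_contDiff.contDiffAt.congr_of_eventuallyEq h2
  · have h2 : ecut F ν μ =ᶠ[𝓝 a]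
        fun a => Real.smoothTransition ((a - (1 / 5 - 2 * ν / 3)) / (ν / 3)) • F (ax a) := by
      filter_upwards [gt_mem_nhds (show a < 1 - μ / 2 by linarith)] with b hb
      unfold ecut
      rw [if_pos hb]
    refine ContDiffAt.congr_of_eventuallyEq ?_ h2
    rcases lt_or_ge (1 / 5 - ν) a with h3 | h3
    · have h5 : ContDiff ℝ ∞ (fun a : ℝ =>
          Real.smoothTransition ((a - (1 / 5 - 2 * ν / 3)) / (ν / 3))) :=
        Real.smoothTransition.contDiff.comp ((contDiff_id.sub contDiff_const).div_const _)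
      exact h5.contDiffAt.smul ((hsm a h3 (by linarith)).comp a ax_contDiff.contDiffAt)
    · have h4 : (fun a => Real.smoothTransition ((a - (1 / 5 - 2 * ν / 3)) / (ν / 3)) • F (ax a))
          =ᶠ[𝓝 a] fun _ => (0 : R4) := by
        filter_upwards [gt_mem_nhds (show a < 1 / 5 - 2 * ν / 3 by linarith)] with b hb
        rw [psi_zero hν hb.le, zero_smul]
      exact contDiffAt_const.congr_of_eventuallyEq h4

theorem cut_imm {F : R4 → R4} {ν μ δ : ℝ} (hν : 0 < ν) (hμ : 0 < μ) (hμδ : μ ≤ δ)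
    (hδ : δ ≤ 1 / 100) (hnear : ∀ p, ‖p - ax 1‖ < δ → F p = p)
    (hld : ∀ a, 1 / 5 ≤ a → a ≤ 1 → LD F (ax a)) {a : ℝ} (h0 : 1 / 5 ≤ a) (h1 : a ≤ 1) :
    deriv (ecut F ν μ) a ≠ 0 := by
  rcases lt_or_ge (1 - μ) a with h2 | h2
  · have h3 : ecut F ν μ =ᶠ[𝓝 a] ax := by
      filter_upwards [lt_mem_nhds h2] with b hb
      exact cut_high hν hμ hμδ hδ hnear hb
    rw [h3.deriv_eq, (ax_hasDerivAt a).deriv]
    exact v_ne
  · have h3 : ecut F ν μ =ᶠ[𝓝 a] fun a => F (ax a) := by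
      filter_upwards [lt_mem_nhds (show 1 / 5 - ν / 3 < a by linarith),
        gt_mem_nhds (show a < 1 by linarith)] with b hb hb'
      exact cut_core hν hμ hμδ hnear hb.le hb'.le
    have h4 := ld_iff.1 (hld a h0 h1)
    have h5 : HasDerivAt (fun a => F (ax a)) (fderiv ℝ F (ax a) ((0, (1, 0)) : R4)) a :=
      (((h4.1.self_of_nhds).differentiableAt (by simp)).hasFDerivAt).comp_hasDerivAt a
        (ax_hasDerivAt a)
    rw [h3.deriv_eq, h5.deriv]
    intro h6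
    exact v_ne (h4.2 (by rw [h6, map_zero]))

/-- everything except the last field -/
theorem xcore {F : R4 → R4} {d δ r ν μ : ℝ} {S : Set R4} (hν : 0 < ν)
    (hμ : 0 < μ) (hμδ : μ ≤ δ) (nb : NB 1 F (2 / 5) d δ) (hS : S = F '' sph 0)
    (hsm : ∀ a, 1 / 5 - ν < a → a ≤ 1 → ContDiffAt ℝ ∞ F (ax a))
    (hball : ∀ a ∈ Icc (2 / 5 - 3 / 4 * r) (2 / 5 : ℝ), ‖ecut F ν μ a - ax 1‖ < r) :
    XCore F S d μ r (ecut F ν μ) := by
  have br := nb.br
  have hδ := nb.small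
  have hnear := nb.near
  have hinjF : InjOn F (flat 1 ∪ sph 0) := by
    have := br.injF
    rwa [sub_self] at this
  have hcore : ∀ a, 1 / 5 ≤ a → a ≤ 1 → ecut F ν μ a = F (ax a) := fun a h0 h1 =>
    cut_core hν hμ hμδ hnear (by linarith) h1
  have hF1 : F (ax 1) = ax 1 := hnear _ (by rw [sub_self, norm_zero]; exact nb.pos)
  have hF2 : F (ax (2 / 5)) = ax 1 := by
    have := nb.str (2 / 5) (by rw [sub_self, abs_zero]; exact nb.pos)
    rw [sub_self, mul_zero, add_zero] at this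
    exact this
  have honly : ∀ a, 1 / 5 ≤ a → a ≤ 4 / 5 → ∀ p ∈ flat 1, F (ax a) = F p →
      a = 4 / 5 ∨ a = 2 / 5 := by
    intro a h0 h1 p hp h
    rcases br.only a ⟨h0, h1⟩ ⟨p, hp, h.symm⟩ with h2 | h2
    · left
      rw [h2]
      norm_num
    · exact Or.inr h2
  have hmix : ∀ a b, 1 / 5 ≤ a → a < 4 / 5 → 4 / 5 ≤ b → b < 1 → F (ax a) ≠ F (ax b) := by
    intro a b h0 h1 h2 h3 h
    rcases honly a h0 h1.le _ (ax_flat h2 h3.le) h with h4 | h4
    · linarith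
    · rw [h4, hF2, ← hF1] at h
      have := ax_inj (hinjF (Or.inl (ax_flat (by norm_num) le_rfl)) (Or.inl (ax_flat h2 h3.le)) h)
      linarith
  refine ⟨cut_smooth hν hμ hμδ hδ hnear hsm, fun a ha => hcore a ha.1 ha.2,
    fun a ha => cut_high hν hμ hμδ hδ hnear ha, ?_, ?_, ?_, ?_, ?_, hball⟩
  · intro a ha
    rw [abs_lt] at ha
    rw [hcore a (by linarith [ha.1]) (by linarith [ha.2])]
    exact nb.str a (by rw [abs_lt]; constructor <;> linarith [ha.1, ha.2])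
  · intro a ha b hb h
    rw [hcore a ha.1 ha.2.le, hcore b hb.1 hb.2.le] at h
    rcases lt_or_ge a (4 / 5) with h1 | h1
    · rcases lt_or_ge b (4 / 5) with h2 | h2
      · exact ax_inj (br.inj (ax_SP ha.1 h1.le) (ax_SP hb.1 h2.le) h)
      · exact absurd h (hmix a b ha.1 h1 h2 hb.2)
    · rcases lt_or_ge b (4 / 5) with h2 | h2
      · exact absurd h.symm (hmix b a hb.1 h2 h1 ha.2)
      · exact ax_inj (hinjF (Or.inl (ax_flat h1 ha.2.le)) (Or.inl (ax_flat h2 hb.2.le)) h)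
  · intro a ha h
    rw [hcore a ha.1 ha.2.le, ← hF1] at h
    have h1f : ax 1 ∈ flat 1 := ax_flat (by norm_num) le_rfl
    rcases lt_or_ge a (4 / 5) with h1 | h1
    · rcases honly a ha.1 h1.le _ h1f h with h2 | h2
      · linarith
      · exact h2
    · have := ax_inj (hinjF (Or.inl (ax_flat h1 ha.2.le)) (Or.inl h1f) h)
      linarith [ha.2]
  · intro a ha
    refine cut_imm hν hμ hμδ hδ hnear ?_ ha.1 ha.2
    intro b h0 h1
    rcases le_or_gt b (4 / 5) with h2 | h2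
    · exact br.loc _ (Or.inl (ax_SP h0 h2))
    · exact br.loc _ (Or.inr (ax_flat h2.le h1))
  · intro a ha h
    rw [hS, hcore a ha.1.le ha.2.le] at h
    obtain ⟨p, hp, hpa⟩ := h
    rcases lt_or_ge a (4 / 5) with h1 | h1
    · have h2 := br.inj (Or.inl (Or.inl hp)) (ax_SP ha.1.le h1.le) hpa
      rw [h2] at hp
      have := ax_sph hp (by linarith [ha.1])
      linarith [ha.1]
    · have h2 := hinjF (Or.inr hp) (Or.inl (ax_flat h1 ha.2.le)) hpa
      rw [h2] at hp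
      have := ax_sph hp (by linarith [ha.1])
      linarith [ha.1]

/-- smoothness to the left of the foot -/
theorem left_smooth {F : R4 → R4} {d γ : ℝ} (br : Br 1 F γ d) :
    ∃ ν > 0, ∀ ν' ≤ ν, ∀ a, 1 / 5 - ν' < a → a ≤ 1 → ContDiffAt ℝ ∞ F (ax a) := by
  have h1 := (ld_iff.1 (br.loc _ (Or.inl (ax_SP (a := 1 / 5) le_rfl (by norm_num))))).1
  have h2 := ax_contDiff.continuous.continuousAt.eventually h1
  obtain ⟨ν, hν, h3⟩ := Metric.eventually_nhds_iff.1 h2
  refine ⟨ν, hν, fun ν' hν' a h4 h5 => ?_⟩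
  rcases lt_or_ge a (1 / 5) with h6 | h6
  · apply h3
    rw [Real.dist_eq, abs_lt]
    constructor <;> linarith
  · rcases le_or_gt a (4 / 5) with h7 | h7
    · exact (ld_iff.1 (br.loc _ (Or.inl (ax_SP h6 h7)))).1.self_of_nhds
    · exact (ld_iff.1 (br.loc _ (Or.inr (ax_flat h7.le h5)))).1.self_of_nhds

end XC

open XC in
/-- **XC.** -/
theorem m_XC : StXC := by
  intro F F' d δ δ' r hd hL
  obtain ⟨U, hU, hsU, hFU⟩ := hL.near
  obtain ⟨ν₁, hν₁, hs₁⟩ := left_smooth hL.nb.br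
  obtain ⟨ν₂, hν₂, hs₂⟩ := left_smooth hL.nb'.br
  have h1 : ∀ᶠ a in 𝓝 (1 / 5 : ℝ), ax a ∈ U :=
    ax_contDiff.continuous.continuousAt.eventually_mem (hU.mem_nhds (hsU ax_mem_sph))
  obtain ⟨ν₃, hν₃, h2⟩ := Metric.eventually_nhds_iff.1 h1
  obtain ⟨ν, hν, hνa, hνb, hνc⟩ : ∃ ν : ℝ, 0 < ν ∧ ν ≤ ν₁ ∧ ν ≤ ν₂ ∧ ν ≤ ν₃ :=
    ⟨min ν₁ (min ν₂ ν₃), lt_min hν₁ (lt_min hν₂ hν₃), min_le_left _ _,
      (min_le_right _ _).trans (min_le_left _ _), (min_le_right _ _).trans (min_le_right _ _)⟩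
  have hr := hL.pos
  have hrδ := hL.lt
  have hδ := hL.nb.small
  have hμ : 0 < min δ δ' := lt_min hL.nb.pos hL.nb'.pos
  have hμ1 : min δ δ' ≤ δ := min_le_left _ _
  have hμ2 : min δ δ' ≤ δ' := min_le_right _ _
  have hSS : F '' sph 0 = F' '' sph 0 := (hFU.mono hsU).image_eq
  have hb : ∀ a ∈ Icc (2 / 5 - 3 / 4 * r) (2 / 5 : ℝ), ‖core F a - ax 1‖ < r := by
    intro a ha
    have h3 : |a - 2 / 5| ≤ 3 / 4 * r := by
      rw [abs_le]
      constructor <;> linarith [ha.1, ha.2]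
    rw [hL.nb.str a (by linarith), norm_strand d a hd]
    linarith
  refine ⟨ecut F ν (min δ δ'), ecut F' ν (min δ δ'), min δ δ', hμ, hμ1, hμ2,
    xcore hν hμ hμ1 hL.nb rfl (hs₁ ν hνa) ?_, xcore hν hμ hμ2 hL.nb' hSS (hs₂ ν hνb) ?_, ?_⟩
  · intro a ha
    rw [cut_core hν hμ hμ1 hL.nb.near (by linarith [ha.1]) (by linarith [ha.2])]
    exact hb a ha
  · intro a ha
    rw [cut_core hν hμ hμ2 hL.nb'.near (by linarith [ha.1]) (by linarith [ha.2])]
    rcases le_or_gt a (2 / 5 - r / 2) with h3 | h3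
    · have h4 := hL.low a ⟨by linarith [ha.1], h3⟩
      have h5 : F' (ax a) = core F a := h4
      rw [h5]
      exact hb a ha
    · exact hL.high a ⟨h3.le, by linarith [ha.2]⟩
  · intro a ha
    have h3 : a < 1 - min δ δ' / 2 := by linarith
    unfold ecut
    rw [if_pos h3, if_pos h3]
    rcases le_or_gt a (1 / 5 - 2 * ν / 3) with h4 | h4
    · rw [psi_zero hν h4, zero_smul, zero_smul]
    · rcases lt_or_ge a (1 / 5) with h5 | h5
      · have h6 : ax a ∈ U := h2 (by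
          rw [Real.dist_eq, abs_lt]
          constructor <;> linarith)
        rw [hFU h6]
      · have h6 : F' (ax a) = F (ax a) := hL.low a ⟨h5, ha⟩
        rw [h6]

end Pool.Agent.Helper70.BI


end

/-! ## Helper70.BI.M_OB1 -/

section

/-!
# Project BI, part (E), module OB1: the class of a germ with `Br 1` is `1` or `W`
-/

set_option autoImplicit false

open scoped Manifold ContDiff Topology ComplexConjugate
open Set Filter Pool.Agent.Helper65.Barb Pool.Agent.Helper18.BI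

namespace Pool.Agent.Helper70.BI

open Pool.Agent.Helper27.BI (refh refs swp StVanT StRefH StRefS StR2sw)

namespace OB1

/-- `refh` as a linear map -/
private noncomputable def L : R4 →L[ℝ] R4 :=
  (ContinuousLinearMap.id ℝ ℝ).prodMap ((ContinuousLinearMap.id ℝ ℝ).prodMap
    (Complex.conjCLE : ℂ →L[ℝ] ℂ))

private theorem refh_eq : refh = fun p => L p := rfl

private theorem inv (p : R4) : refh (refh p) = p := by simp [refh]

private theorem det_conj : LinearMap.det ((Complex.conjCLE : ℂ →L[ℝ] ℂ) : ℂ →ₗ[ℝ] ℂ) = -1 :=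
  Complex.det_conjAe

private theorem det_L : L.det = -1 := by
  have h : (L : R4 →ₗ[ℝ] R4) = (LinearMap.id : ℝ →ₗ[ℝ] ℝ).prodMap
      ((LinearMap.id : ℝ →ₗ[ℝ] ℝ).prodMap ((Complex.conjCLE : ℂ →L[ℝ] ℂ) : ℂ →ₗ[ℝ] ℂ)) := rfl
  rw [ContinuousLinearMap.det, h, LinearMap.det_prodMap, LinearMap.det_prodMap, det_conj,
    LinearMap.det_id]
  norm_num

private theorem det_comp' (A B : R4 →L[ℝ] R4) : (A.comp B).det = A.det * B.det := by
  rw [ContinuousLinearMap.det, ContinuousLinearMap.det, ContinuousLinearMap.det,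
    ContinuousLinearMap.toLinearMap_comp, LinearMap.det_comp]

private theorem der (p : R4) : HasFDerivAt refh L p := by
  rw [refh_eq]
  exact L.hasFDerivAt

private theorem ld (p : R4) : LD refh p := by
  rw [ld_iff]
  refine ⟨Eventually.of_forall fun q => ?_, ?_⟩
  · rw [refh_eq]
    exact L.contDiff.contDiffAt
  · rw [(der p).fderiv]
    intro x y hxy
    have h : refh x = refh y := hxy
    rw [← inv x, h, inv]

private theorem injective : Function.Injective refh := fun x y hxy => by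
  rw [← inv x, hxy, inv]

private theorem rsq_h (c : ℝ) (p : R4) : rsq c (refh p) = rsq c p := by
  simp [rsq, nsq, refh]

private theorem SPm {p : R4} (hp : p ∈ SP) : refh p ∈ SP := by
  rcases hp with (hp | hp) | hp
  · exact Or.inl (Or.inl ⟨hp.1, by rw [rsq_h]; exact hp.2⟩)
  · exact Or.inl (Or.inr ⟨hp.1, by rw [rsq_h]; exact hp.2⟩)
  · exact Or.inr ⟨hp.1, hp.2.1, hp.2.2.1, by simp [refh, hp.2.2.2]⟩

private theorem flatm {c : ℝ} {p : R4} (hp : p ∈ flat c) : refh p ∈ flat c :=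
  ⟨hp.1, by rw [rsq_h]; exact hp.2⟩

private theorem sphm {c : ℝ} {p : R4} (hp : p ∈ sph c) : refh p ∈ sph c :=
  ⟨hp.1, by rw [rsq_h]; exact hp.2⟩

private theorem ax_h (a : ℝ) : refh (ax a) = ax a := by simp [refh, ax]

private theorem fd {F : R4 → R4} {p : R4} (hF : LD F (refh p)) :
    fderiv ℝ (fun p => F (refh p)) p = (fderiv ℝ F (refh p)).comp L := by
  have h1 : DifferentiableAt ℝ F (refh p) :=
    ((ld_iff.1 hF).1.self_of_nhds).differentiableAt (by simp)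
  exact (h1.hasFDerivAt.comp p (der p)).fderiv

private theorem rsq_half (c : ℝ) (x : R3) : rsq c ((1 / 2 : ℝ), x) = nsq (x - pc c) := by
  simp [rsq, pc, nsq]

private theorem br {c : ℝ} {F : R4 → R4} {γ e : ℝ} (hF : Br c F γ e) :
    Br c (fun p => F (refh p)) γ e where
  loc p hp := by
    refine ld_comp (ld p) (hF.loc _ ?_)
    rcases hp with hp | hp
    · exact Or.inl (SPm hp)
    · exact Or.inr (flatm hp)
  inj p hp q hq he := injective (hF.inj (SPm hp) (SPm hq) he)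
  injF p hp q hq he := by
    have hm : ∀ p ∈ flat c ∪ sph (1 - c), refh p ∈ flat c ∪ sph (1 - c) := by
      rintro p (hp | hp)
      · exact Or.inl (flatm hp)
      · exact Or.inr (sphm hp)
    exact injective (hF.injF (hm p hp) (hm q hq) he)
  mem := hF.mem
  cr := by
    obtain ⟨x₀, h1, h2, l, v, h3, h4⟩ := hF.cr
    have hx₀ : ((1 / 2 : ℝ), x₀) ∈ flat c := ⟨rfl, by rw [rsq_half]; exact h1.le⟩
    have e2 : refh (1 / 2, (refh (1 / 2, x₀)).2) = (1 / 2, x₀) := inv (1 / 2, x₀)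
    refine ⟨(refh (1 / 2, x₀)).2, ?_, ?_, (L (l, v)).1, (L (l, v)).2, ?_, ?_⟩
    · have e4 : rsq c ((1 / 2 : ℝ), (refh (1 / 2, x₀)).2) = rsq c ((1 / 2 : ℝ), x₀) :=
        rsq_h c (1 / 2, x₀)
      rw [← rsq_half, e4, rsq_half]
      exact h1
    · change F (refh (ax γ)) = F (refh (1 / 2, (refh (1 / 2, x₀)).2))
      rw [ax_h, e2]
      exact h2
    · exact h3
    · have hg : ax γ ∈ SP := Or.inr ⟨rfl, hF.mem.1.le, hF.mem.2.le, rfl⟩
      rw [fd (p := ax γ) (by rw [ax_h]; exact hF.loc _ (Or.inl hg)),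
        fd (p := (1 / 2, (refh (1 / 2, x₀)).2)) (by rw [e2]; exact hF.loc _ (Or.inr hx₀)), ax_h,
        e2]
      simp only [ContinuousLinearMap.comp_apply, Prod.mk.eta]
      have e5 : L (L (l, v)) = (l, v) := inv (l, v)
      have e6 : L ((0 : ℝ), ((1 : ℝ), (0 : ℂ))) = ((0 : ℝ), ((1 : ℝ), (0 : ℂ))) := by simp [L]
      rw [e5, e6]
      exact h4
  only a ha hmem := by
    refine hF.only a ha ?_
    obtain ⟨p, hp, he⟩ := hmem
    refine ⟨refh p, flatm hp, ?_⟩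
    have : F (refh p) = F (refh (ax a)) := he
    rw [this, ax_h]
    rfl

end OB1

open OB1 in
theorem m_OB1 (hOBP : StOBP) (hRefH : StRefH) (hT2 : StT2) (hCI : StCI) : StOB1 := by
  intro W F γ e hW he hF φ hφ
  obtain ⟨-, -, -, -, -, -, tvii⟩ := hT2 R4 R4 I4 R4
  obtain ⟨-, cs, -, ct, cc, ci, cex, -, -, -⟩ := hCI R4 R4 I4 R4
  have h0 : ax (4 / 5) ∈ SP := Or.inr ⟨rfl, by norm_num [ax], by norm_num [ax], rfl⟩
  have hld : LD F (ax (4 / 5)) := hF.loc _ (Or.inl h0)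
  have hne : (fderiv ℝ F (ax (4 / 5))).det ≠ 0 := by
    intro h
    have h1 : LinearMap.det ((fderiv ℝ F (ax (4 / 5)) : R4 →L[ℝ] R4) : R4 →ₗ[ℝ] R4) = 0 := h
    have h2 := LinearMap.bot_lt_ker_of_det_eq_zero h1
    rw [LinearMap.ker_eq_bot.2 (ld_iff.1 hld).2] at h2
    exact lt_irrefl _ h2
  rcases lt_or_gt_of_ne hne with hneg | hpos
  · obtain ⟨φ', -, i1, i2⟩ := cex φ (tvii F φ hφ)
    have t1 : Thin I4 (fun p => F (refh p)) φ' :=
      (hRefH R4 R4 I4 R4 F φ φ' ⟨fun p hp => hF.loc p (Or.inl hp), hF.inj⟩ i1 i2).1 hφ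
    have hd : 0 < (fderiv ℝ (fun p => F (refh p)) (ax (4 / 5))).det := by
      rw [fd (by rw [ax_h]; exact hld), det_comp', det_L, ax_h]
      linarith
    rcases hOBP W _ γ e hW he (br hF) hd φ' t1 with h | h
    · exact Or.inl (ci φ' (fun x => x) φ (fun x => x) h i2 (fun x => rfl))
    · right
      obtain ⟨F₀, α₀, β₀, -, hr⟩ := hW.rep
      obtain ⟨W', hW', j1, j2⟩ := cex W (tvii F₀ W hr)
      have h1 : CIsot I4 φ W' := ci φ' W φ W' h i2 j1
      have h2 := cc _ _ W' W' hW.sq hW'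
      have h3 : (fun x => W (W (W' x))) = W := funext fun x => by rw [j1]
      have h4 : CIsot I4 W W' := by
        have h5 : CIsot I4 (fun x => W (W (W' x))) W' := h2
        rwa [h3] at h5
      exact ct _ _ _ h1 (cs _ _ h4)
  · exact hOBP W F γ e hW he hF hpos φ hφ

end Pool.Agent.Helper70.BI


end

/-! ## Helper70.BI.StF2 -/

section

/-!
# Project BI, stage 2: the transfer to the 4-sphere

Statements (as `Prop` definitions) with complete proofs in the docstrings.  A module `M_X` proves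
`theorem m_X : StX` (possibly from other statements as hypotheses `(h : StY)`).
-/

set_option autoImplicit false

open scoped Manifold ContDiff Topology ComplexConjugate
open Set Filter Pool.Agent.Helper65.Barb Pool.Agent.Helper18.BI

namespace Pool.Agent.Helper70.BI

open Pool.Agent.Helper27.BI (refh refs swp StVanT StRefH StRefS StR2sw)

section
variable {E : Type*} [NormedAddCommGroup E] [NormedSpace ℝ E] {H : Type*} [TopologicalSpace H]
  (I : ModelWithCorners ℝ E H) {M : Type*} [TopologicalSpace M] [ChartedSpace H M]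

/-- The bar of `F` crosses, at the parameter `γ`, the interior of the image of the flat ball around
`(1/2, (c, 0))`, transversally: near `γ` the bar is the image of a curve `y` of `R4` which crosses
the ball transversally at the parameter `γ`. -/
def CrossM (F : R4 → M) (c γ : ℝ) : Prop :=
  ∃ y : ℝ → R4, ContDiffAt ℝ ∞ y γ ∧ (y γ).1 = 1 / 2 ∧ rsq c (y γ) < 1 / 25 ∧
    (deriv y γ).1 ≠ 0 ∧ ∀ᶠ a in 𝓝 γ, F (1 / 2, (a, 0)) = F (y a)

/-- `F : R4 → M` is a local diffeomorphism along the spine and the two flat balls bounded by the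
cuffs; the spine is embedded, the two balls are embedded and disjoint, and each ball is crossed
exactly once by the bar, transversally: first, at the parameter `β`, the ball at the far end (the
ball bounded by the second cuff), then, at the parameter `α > β`, the ball at the near end. -/
structure ThetaM (F : R4 → M) (α β : ℝ) : Prop where
  loc : ∀ p ∈ FB, IsLocalDiffeomorphAt 𝓘(ℝ, R4) I ∞ F p
  inj : InjOn F SP
  balls : InjOn F (flat 0 ∪ flat 1)
  ord : 1 / 5 < β ∧ β < α ∧ α < 4 / 5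
  cross0 : CrossM F 0 α
  cross1 : CrossM F 1 β
  only0 : ∀ a ∈ Icc (1 / 5 : ℝ) (4 / 5), F (1 / 2, (a, 0)) ∈ F '' flat 0 → a = 1 / 5 ∨ a = α
  only1 : ∀ a ∈ Icc (1 / 5 : ℝ) (4 / 5), F (1 / 2, (a, 0)) ∈ F '' flat 1 → a = 4 / 5 ∨ a = β

end

/-- **EI** (images of three-dimensional compact sets have empty interior).
*Proof.* Every `p ∈ L` has a closed ball `K_p` (a compact neighbourhood of `p`) on which `G` coincides with a partial diffeomorphism `Φ_p`; finitely many interiors of the `K_p` cover `L`.  `Φ_p '' (K_p ∩ L)` is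
closed (compact) with empty interior: an open set `O ⊆ Φ_p '' (K_p ∩ L)` gives the open set `Φ_p.symm '' O = Φ_p ⁻¹' O ∩ source ⊆ {s = 1/2}`, which is empty.  A finite union of closed sets with empty interior has empty interior
(`interior_union_isClosed_of_interior_empty`, induction). -/
def StEI : Prop :=
  ∀ (E : Type) [NormedAddCommGroup E] [NormedSpace ℝ E] (H : Type) [TopologicalSpace H]
    (I : ModelWithCorners ℝ E H) (M : Type) [TopologicalSpace M] [ChartedSpace H M] [T2Space M]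
    (G : R4 → M) (L : Set R4), IsCompact L → (∀ p ∈ L, p.1 = 1 / 2) →
    (∀ p ∈ L, IsLocalDiffeomorphAt 𝓘(ℝ, R4) I ∞ G p) →
    IsCompact (G '' L) ∧ interior (G '' L) = ∅

/-- **X2c** (a chart of the 4-sphere containing a given compact set).
*Proof.* As in module X2 (`Pool/Agent/Helper18/BI/M_X2.lean`): a compact set with empty interior is not everything; stereographic projection from a point of the complement. -/
def StX2c : Prop :=
  ∀ K : Set S4, IsCompact K → interior K = ∅ → ∃ c : R4 → S4, EmbOn (𝓡 4) c univ ∧ K ⊆ range c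

/-- **ThM** (theta germs: the two definitions, transport).
*Proof.* (i) `SP ⊆ FB` (`sph c ⊆ flat c`).  `e` = sign of the `s`-component `l` of `deriv y α`; `CrossAt F 0 α e` with `x₀ = (y α).2` (`y α = (1/2, x₀)`, `nsq (x₀ - pc 0) = rsq 0 (y α) < 1/25`), `(l, v) = deriv y α`: differentiate
`F (1/2, (a, 0)) = F (y a)` at `α` (chain rule; `F` is differentiable at `ax α` and at `y α ∈ flat 0`).  Same at `β`.
(ii) The fields only involve local diffeomorphisms, injectivity, images and equations of the form `F p = F q`; `Ψ` is injective on `U ⊇ F '' FB` and a local diffeomorphism there (`IsLocalDiffeomorphAt.comp`; a point where `F (1/2,(a,0)) = F (y a)`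
gives `Ψ (F ..) = Ψ (F ..)`; for `only`: `Ψ (F (1/2,(a,0))) = Ψ (F q)`, `q ∈ flat c`, so `F (1/2,(a,0)) = F q` because both are in `F '' FB`).
(iii) Congruence: `G = F` on an open set containing `FB` (`y a` is near `y γ ∈ flat c` for `a` near `γ`). -/
def StThM : Prop :=
  (∀ (F : R4 → R4) (α β : ℝ), ThetaM I4 F α β → ∃ e d : ℝ, (e = 1 ∨ e = -1) ∧ (d = 1 ∨ d = -1) ∧
    Theta F α β e d) ∧
  (∀ (F : R4 → R4) (α β e d : ℝ), Theta F α β e d → ThetaM I4 F α β) ∧
  (∀ (E : Type) [NormedAddCommGroup E] [NormedSpace ℝ E] (H : Type) [TopologicalSpace H]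
    (I : ModelWithCorners ℝ E H) (M : Type) [TopologicalSpace M] [ChartedSpace H M]
    (E' : Type) [NormedAddCommGroup E'] [NormedSpace ℝ E'] (H' : Type) [TopologicalSpace H']
    (I' : ModelWithCorners ℝ E' H') (M' : Type) [TopologicalSpace M'] [ChartedSpace H' M']
    (F : R4 → M) (Ψ : M → M') (α β : ℝ), ThetaM I F α β → InjOn Ψ (F '' FB) →
    (∀ y ∈ F '' FB, IsLocalDiffeomorphAt I I' ∞ Ψ y) → ThetaM I' (fun p => Ψ (F p)) α β) ∧
  ∀ (E : Type) [NormedAddCommGroup E] [NormedSpace ℝ E] (H : Type) [TopologicalSpace H]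
    (I : ModelWithCorners ℝ E H) (M : Type) [TopologicalSpace M] [ChartedSpace H M]
    (F G : R4 → M) (U : Set R4) (α β : ℝ), ThetaM I F α β → IsOpen U → FB ⊆ U → EqOn F G U →
    ThetaM I G α β

/-- **W4** (the class `W` in the 4-sphere) (uses `StEI`, `StX2c`, `StThM`, `StX1`, `StX3`, `StT2`, `StCI`, `StS4`).
*Proof.* `F₀` from `IsW.rep`; `c₀` any chart (`StX2c` for `K = ∅`), `W₄ = imp c₀ univ W`.
(a) Let `G : R4 → S4` be `ThetaM`.  `G '' FB` and `(c₀ ∘ F₀) '' FB` are compact with empty interior (`StEI`; `FB` is compact, `StS4`), so there is a chart `c` whose image contains both (`StX2c` for the union, `interior_union_isClosed_of_interior_empty`).  `F p = Function.invFun c (G p)`: `c (F p) = G p` on `FB` and near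
`FB` (the image of `c` is open); `Function.invFun c` is a local diffeomorphism at the points of the image of `c` (`c` is an injective local diffeomorphism; or use `StX3` for `L = SP`, `flat 0`, ... and the proof of X3), so `F` is `ThetaM` (`StThM` (iii)) and `Theta`, `Thin F W` (`IsW.all`), and `Thin (c ∘ F) (imp c univ W)` (`StX1`),
`Thin G (imp c univ W)` (`StT2` (v)).  The same for `c₀ ∘ F₀` (which is `ThetaM` by `StThM` (ii), (iii)): `Thin (c₀ ∘ F₀) (imp c univ W)`; also `Thin (c₀ ∘ F₀) (imp c₀ univ W)` by `StX1`.  By uniqueness `CIsot (imp c univ W) W₄`, so `Thin G W₄` (`StT2` (iv)).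
(b) For every chart `c`: `c ∘ F₀` is `ThetaM`, so `Thin (c ∘ F₀) W₄` by (a) and `Thin (c ∘ F₀) (imp c univ W)` by `StX1`: `CIsot (imp c univ W) W₄`.
(c) `CIsot (W₄ ∘ W₄) id`: `StX1` (`imp c univ` is multiplicative and respects `CIsot`; `imp c univ id = id`).
(d) `Ψ` a diffeomorphism of `S4` with inverse `Ψ'`: `Ψ ∘ G` is `ThetaM` for `G = c₀ ∘ F₀`, so `Thin (Ψ ∘ G) W₄`, and `Thin (Ψ ∘ G) (Ψ ∘ W₄ ∘ Ψ')` (`StT2` (vi)). -/
def StW4 : Prop :=
  ∀ W : R4 → R4, IsW W → ∃ (W₄ : S4 → S4) (c₀ F₀ : R4 → S4) (α₀ β₀ : ℝ),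
    (∀ (G : R4 → S4) (α β : ℝ), ThetaM (𝓡 4) G α β → Thin (𝓡 4) G W₄) ∧
    (∀ c : R4 → S4, EmbOn (𝓡 4) c univ → CIsot (𝓡 4) (imp c univ W) W₄) ∧
    CIsot (𝓡 4) (fun x => W₄ (W₄ x)) (fun x => x) ∧
    (∀ Ψ Ψ' : S4 → S4, ContMDiff (𝓡 4) (𝓡 4) ∞ Ψ → ContMDiff (𝓡 4) (𝓡 4) ∞ Ψ' →
      (∀ x, Ψ (Ψ' x) = x) → (∀ x, Ψ' (Ψ x) = x) →
      CIsot (𝓡 4) (fun x => Ψ (W₄ (Ψ' x))) W₄) ∧
    EmbOn (𝓡 4) c₀ univ ∧ ThetaM (𝓡 4) F₀ α₀ β₀ ∧ Thin (𝓡 4) F₀ W₄

/-- **THE MAIN THEOREM OF STAGE 2.** -/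
def StFinal2 : Prop :=
  ∃ (W : S4 → S4) (B₀ δ₀ : PartialDiffeomorph 𝓘(ℝ, R4) (𝓡 4) R4 S4 ∞),
    -- `W` is an implantation of a barbell whose cuffs bound disjoint balls
    (Pool.Agent.Helper65.Barb.NB ⊆ B₀.source ∧ flat 0 ∪ flat 1 ⊆ δ₀.source ∧ (∀ p ∈ sph 0 ∪ sph 1, δ₀ p = B₀ p) ∧
      W = implantation B₀ barMap) ∧
    -- `W` has order at most two and is central
    Isot (𝓡 4) (fun x => W (W x)) (fun x => x) ∧
    (∀ Ψ Ψ' : S4 → S4, ContMDiff (𝓡 4) (𝓡 4) ∞ Ψ → ContMDiff (𝓡 4) (𝓡 4) ∞ Ψ' →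
      (∀ x, Ψ (Ψ' x) = x) → (∀ x, Ψ' (Ψ x) = x) →
      Isot (𝓡 4) (fun x => Ψ (W (Ψ' x))) W) ∧
    -- theta barbells
    (∀ (B : PartialDiffeomorph 𝓘(ℝ, R4) (𝓡 4) R4 S4 ∞) (β : R4 → R4) (G : R4 → S4)
      (U : Set R4) (a b : ℝ), Pool.Agent.Helper65.Barb.NB ⊆ B.source → IsBarbellMap β → ThetaM (𝓡 4) G a b →
      IsOpen U → SP ⊆ U → EqOn B G U → Isot (𝓡 4) (implantation B β) W) ∧
    -- bar independence up to `W`
    ∀ (B B' : PartialDiffeomorph 𝓘(ℝ, R4) (𝓡 4) R4 S4 ∞) (β β' : R4 → R4) (U : Set R4),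
      Pool.Agent.Helper65.Barb.NB ⊆ B.source → Pool.Agent.Helper65.Barb.NB ⊆ B'.source → IsBarbellMap β → IsBarbellMap β' → IsOpen U →
      sph 0 ∪ sph 1 ⊆ U → EqOn B B' U →
      Isot (𝓡 4) (implantation B' β') (implantation B β) ∨
        Isot (𝓡 4) (implantation B' β') (fun x => W (implantation B β x))

end Pool.Agent.Helper70.BI


end

/-! ## Helper70.BI.M_EI -/

section

/-!
# Project BI, stage 2, module EI: images of compact subsets of the hyperplane have empty interior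
-/

set_option autoImplicit false

open scoped Manifold ContDiff Topology ComplexConjugate
open Set Filter Pool.Agent.Helper65.Barb Pool.Agent.Helper18.BI

namespace Pool.Agent.Helper70.BI

namespace EI
variable {E : Type*} [NormedAddCommGroup E] [NormedSpace ℝ E] {H : Type*} [TopologicalSpace H]
  {I : ModelWithCorners ℝ E H} {M : Type*} [TopologicalSpace M] [ChartedSpace H M] [T2Space M]

theorem piece (Φ : PartialDiffeomorph 𝓘(ℝ, R4) I R4 M ∞) {K : Set R4} (hK : IsCompact K)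
    (hs : K ⊆ Φ.source) (h1 : ∀ p ∈ K, p.1 = 1 / 2) :
    IsCompact (Φ '' K) ∧ interior (Φ '' K) = ∅ := by
  refine ⟨hK.image_of_continuousOn (Φ.contMDiffOn_toFun.continuousOn.mono hs), ?_⟩
  rw [eq_empty_iff_forall_notMem]
  intro y hy
  have hc : ContinuousOn Φ Φ.source := Φ.contMDiffOn_toFun.continuousOn
  have hV : IsOpen (Φ.source ∩ Φ ⁻¹' interior (Φ '' K)) :=
    hc.isOpen_inter_preimage Φ.open_source isOpen_interior
  have hVS : Φ.source ∩ Φ ⁻¹' interior (Φ '' K) ⊆ K := by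
    rintro p ⟨hp1, hp2⟩
    obtain ⟨p', hp', he⟩ := interior_subset hp2
    have := Φ.injOn (hs hp') hp1 he
    rwa [← this]
  obtain ⟨p, hp, he⟩ := interior_subset hy
  have hpV : p ∈ Φ.source ∩ Φ ⁻¹' interior (Φ '' K) := ⟨hs hp, by
    change Φ p ∈ interior (Φ '' K)
    rw [he]
    exact hy⟩
  have h2 : IsOpen ((fun q : R4 => q.1) '' (Φ.source ∩ Φ ⁻¹' interior (Φ '' K))) :=
    isOpenMap_fst _ hV
  have h3 : (fun q : R4 => q.1) '' (Φ.source ∩ Φ ⁻¹' interior (Φ '' K)) ⊆ {1 / 2} := by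
    rintro _ ⟨q, hq, rfl⟩
    exact h1 q (hVS hq)
  have h4 : p.1 ∈ interior ({1 / 2} : Set ℝ) :=
    interior_maximal h3 h2 (mem_image_of_mem (fun q : R4 => q.1) hpV)
  rw [interior_singleton] at h4
  exact h4

end EI

theorem m_EI : StEI := by
  intro E _ _ H _ I M _ _ _ G L hL h1 hloc
  have hcont : ContinuousOn G L := by
    intro p hp
    obtain ⟨Φ, hpΦ, heq⟩ := hloc p hp
    have hc : ContinuousAt Φ p :=
      Φ.contMDiffOn_toFun.continuousOn.continuousAt (Φ.open_source.mem_nhds hpΦ)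
    have he : (Φ : R4 → M) =ᶠ[𝓝 p] G := by
      filter_upwards [Φ.open_source.mem_nhds hpΦ] with q hq
      exact (heq hq).symm
    exact (hc.congr he).continuousWithinAt
  have hcomp : IsCompact (G '' L) := hL.image_of_continuousOn hcont
  refine ⟨hcomp, ?_⟩
  have key : interior (closure (G '' L)) = ∅ := by
    refine hL.induction_on (p := fun S => interior (closure (G '' S)) = ∅) ?_ ?_ ?_ ?_
    · simp
    · intro s t hst ht
      exact eq_empty_of_subset_empty (ht ▸ interior_mono (closure_mono (image_mono hst)))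
    · intro s t hs ht
      rw [image_union, closure_union,
        interior_union_isClosed_of_interior_empty isClosed_closure ht, hs]
    · intro p hp
      obtain ⟨Φ, hpΦ, heq⟩ := hloc p hp
      obtain ⟨r, hr, hball⟩ := Metric.nhds_basis_closedBall.mem_iff.1 (Φ.open_source.mem_nhds hpΦ)
      have hK : IsCompact (Metric.closedBall p r ∩ L) := (isCompact_closedBall p r).inter hL
      obtain ⟨k1, k2⟩ := EI.piece Φ hK (inter_subset_left.trans hball) (fun q hq => h1 q hq.2)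
      have e : G '' (Metric.closedBall p r ∩ L) = Φ '' (Metric.closedBall p r ∩ L) :=
        image_congr fun q hq => heq (hball hq.1)
      refine ⟨Metric.closedBall p r ∩ L, ?_, ?_⟩
      · exact inter_mem (mem_nhdsWithin_of_mem_nhds (Metric.closedBall_mem_nhds p hr))
          self_mem_nhdsWithin
      · rw [e, k1.isClosed.closure_eq, k2]
  rwa [hcomp.isClosed.closure_eq] at key

end Pool.Agent.Helper70.BI


end

/-! ## Helper70.BI.M_X2c -/

section

/-!
# Project BI, stage 2, module X2c: a chart of the 4-sphere containing a given compact set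
-/

set_option autoImplicit false

open scoped Manifold ContDiff Topology ComplexConjugate
open Set Filter Pool.Agent.Helper65.Barb Pool.Agent.Helper18.BI

namespace Pool.Agent.Helper70.BI

theorem m_X2c : StX2c := by
  intro K _ hK
  obtain ⟨v, hv⟩ : ∃ v : S4, v ∉ K := by
    by_contra hne
    push Not at hne
    have h1 : K = univ := eq_univ_of_forall hne
    rw [h1, interior_univ] at hK
    have h3 : (⟨EuclideanSpace.single 0 1, by simp⟩ : S4) ∈ (univ : Set S4) := mem_univ _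
    rw [hK] at h3
    exact h3
  obtain ⟨e⟩ := X2.exists_equiv
  have : Fact (Module.finrank ℝ (EuclideanSpace ℝ (Fin 5)) = 4 + 1) := ⟨by simp⟩
  have hsrc : (chartAt (EuclideanSpace ℝ (Fin 4)) (-v : S4)).source = {v}ᶜ := by
    change (stereographic' 4 (- -v)).source = _
    rw [neg_neg, stereographic'_source]
  have htgt : (chartAt (EuclideanSpace ℝ (Fin 4)) (-v : S4)).target = univ := by
    change (stereographic' 4 (- -v)).target = _
    rw [stereographic'_target]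
  have hs1 : ContMDiffOn (𝓡 4) (𝓡 4) ∞ (chartAt (EuclideanSpace ℝ (Fin 4)) (-v : S4))
      (chartAt (EuclideanSpace ℝ (Fin 4)) (-v : S4)).source := contMDiffOn_chart
  have hs2 : ContMDiffOn (𝓡 4) (𝓡 4) ∞ (chartAt (EuclideanSpace ℝ (Fin 4)) (-v : S4)).symm
      (chartAt (EuclideanSpace ℝ (Fin 4)) (-v : S4)).target := contMDiffOn_chart_symm
  generalize chartAt (EuclideanSpace ℝ (Fin 4)) (-v : S4) = ch at hsrc htgt hs1 hs2
  have he : ContMDiff 𝓘(ℝ, R4) (𝓡 4) ∞ e := e.contDiff.contMDiff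
  have he' : ContMDiff (𝓡 4) 𝓘(ℝ, R4) ∞ e.symm := e.symm.contDiff.contMDiff
  let δ : PartialDiffeomorph 𝓘(ℝ, R4) (𝓡 4) R4 S4 ∞ :=
    { toFun := fun p => ch.symm (e p)
      invFun := fun y => e.symm (ch y)
      source := univ
      target := ch.source
      map_source' := fun p _ => ch.map_target (by rw [htgt]; exact mem_univ _)
      map_target' := fun y _ => mem_univ _
      left_inv' := fun p _ => by
        rw [ch.right_inv (by rw [htgt]; exact mem_univ _), e.symm_apply_apply]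
      right_inv' := fun y hy => by
        rw [e.apply_symm_apply, ch.left_inv hy]
      open_source := isOpen_univ
      open_target := ch.open_source
      contMDiffOn_toFun := hs2.comp he.contMDiffOn (fun p _ => by rw [htgt]; exact mem_univ _)
      contMDiffOn_invFun := he'.comp_contMDiffOn hs1 }
  have hr : ∀ y, y ≠ v → y ∈ range (fun p => ch.symm (e p)) := by
    intro y hy
    refine ⟨e.symm (ch y), ?_⟩
    change ch.symm (e (e.symm (ch y))) = y
    rw [e.apply_symm_apply, ch.left_inv (by rw [hsrc]; exact hy)]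
  refine ⟨fun p => ch.symm (e p), ⟨fun p _ => ⟨δ, mem_univ _, fun _ _ => rfl⟩, δ.injOn⟩, ?_⟩
  intro y hy
  exact hr y (fun hyv => hv (hyv ▸ hy))

end Pool.Agent.Helper70.BI


end

/-! ## Helper70.BI.M_ThM -/

section

/-!
# Project BI, stage 2, module ThM: theta germs, the two definitions, transport
-/

set_option autoImplicit false

open scoped Manifold ContDiff Topology ComplexConjugate
open Set Filter Pool.Agent.Helper65.Barb Pool.Agent.Helper18.BI

namespace Pool.Agent.Helper70.BI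

namespace ThM

theorem sph_sub_flat (c : ℝ) : sph c ⊆ flat c := fun _ hp => ⟨hp.1, hp.2.le⟩

theorem SP_sub_FB : SP ⊆ FB := by
  rintro p ((hp | hp) | hp)
  · exact Or.inl (Or.inl (sph_sub_flat 0 hp))
  · exact Or.inl (Or.inr (sph_sub_flat 1 hp))
  · exact Or.inr hp

theorem flat_sub_FB {c : ℝ} (hc : c = 0 ∨ c = 1) : flat c ⊆ FB := by
  rcases hc with rfl | rfl
  · exact fun p hp => Or.inl (Or.inl hp)
  · exact fun p hp => Or.inl (Or.inr hp)

theorem ax_mem {a : ℝ} (h : a ∈ Icc (1 / 5 : ℝ) (4 / 5)) : ax a ∈ FB :=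
  Or.inr ⟨rfl, h.1, h.2, rfl⟩

theorem nsq_sub (c : ℝ) (x : R3) : nsq (x - pc c) = rsq c (1 / 2, x) := by
  unfold rsq nsq pc
  simp

theorem contDiff_ax : ContDiff ℝ ∞ ax := by
  unfold ax
  exact contDiff_const.prodMk (contDiff_id.prodMk contDiff_const)

theorem hasDerivAt_ax (a : ℝ) : HasDerivAt ax (0, ((1 : ℝ), (0 : ℂ))) a :=
  (hasDerivAt_const a _).prodMk ((hasDerivAt_id a).prodMk (hasDerivAt_const a _))

theorem core_deriv {F : R4 → R4} {γ : ℝ} (h : LD F (ax γ)) :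
    HasDerivAt (core F) (fderiv ℝ F (ax γ) (0, ((1 : ℝ), (0 : ℂ)))) γ := by
  have h1 : HasFDerivAt F (fderiv ℝ F (ax γ)) (ax γ) :=
    ((ld_iff.1 h).1.self_of_nhds.differentiableAt (by simp)).hasFDerivAt
  exact h1.comp_hasDerivAt γ (hasDerivAt_ax γ)

theorem crossAt_of {F : R4 → R4} {c γ : ℝ} (hγ : LD F (ax γ)) (hf : ∀ p ∈ flat c, LD F p)
    (h : CrossM F c γ) : ∃ e : ℝ, (e = 1 ∨ e = -1) ∧ CrossAt F c γ e := by
  obtain ⟨y, hy, hy1, hy2, hl, hev⟩ := h
  have hyx : y γ = (1 / 2, (y γ).2) := by rw [← hy1]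
  obtain ⟨e, he, hel⟩ : ∃ e : ℝ, (e = 1 ∨ e = -1) ∧ 0 < e * (deriv y γ).1 := by
    rcases lt_or_gt_of_ne hl with h | h
    · exact ⟨-1, Or.inr rfl, by linarith⟩
    · exact ⟨1, Or.inl rfl, by linarith⟩
  refine ⟨e, he, (y γ).2, ?_, ?_, (deriv y γ).1, (deriv y γ).2, hel, ?_⟩
  · rw [nsq_sub, ← hyx]; exact hy2
  · rw [← hyx]; exact hev.self_of_nhds
  · have hmem : y γ ∈ flat c := ⟨hy1, hy2.le⟩
    have d1 := core_deriv hγ
    have d2 : HasDerivAt (fun a => F (y a)) (fderiv ℝ F (y γ) (deriv y γ)) γ := by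
      have h1 : HasFDerivAt F (fderiv ℝ F (y γ)) (y γ) :=
        ((ld_iff.1 (hf _ hmem)).1.self_of_nhds.differentiableAt (by simp)).hasFDerivAt
      exact h1.comp_hasDerivAt γ (hy.differentiableAt (by simp)).hasDerivAt
    have d3 := d2.congr_of_eventuallyEq (f₁ := core F) hev
    rw [d1.unique d3, ← hyx]

theorem crossM_of {F : R4 → R4} {c γ e : ℝ} (hγ : LD F (ax γ)) (hf : ∀ p ∈ flat c, LD F p)
    (h : CrossAt F c γ e) : CrossM F c γ := by
  obtain ⟨x₀, hx, hcore, l, v, hl, hd⟩ := h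
  have hmem : ((1 / 2 : ℝ), x₀) ∈ flat c := by
    refine ⟨rfl, ?_⟩
    rw [← nsq_sub]; exact hx.le
  obtain ⟨Φ, hΦ, heq⟩ := hf _ hmem
  have hcont : ContDiffAt ℝ ∞ (core F) γ :=
    ((ld_iff.1 hγ).1.self_of_nhds).comp γ contDiff_ax.contDiffAt
  have htgt : core F γ ∈ Φ.target := by
    rw [hcore, heq hΦ]
    exact Φ.map_source hΦ
  have hsymm : ContDiffAt ℝ ∞ Φ.symm (core F γ) := by
    have h1 : ContMDiffOn 𝓘(ℝ, R4) 𝓘(ℝ, R4) ∞ Φ.symm Φ.target := Φ.contMDiffOn_invFun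
    exact (contMDiffOn_iff_contDiffOn.1 h1).contDiffAt (Φ.open_target.mem_nhds htgt)
  have hyγ : Φ.symm (core F γ) = (1 / 2, x₀) := by
    rw [hcore, heq hΦ]
    exact Φ.left_inv hΦ
  have hy : ContDiffAt ℝ ∞ (fun a => Φ.symm (core F a)) γ := hsymm.comp γ hcont
  have hev : ∀ᶠ a in 𝓝 γ, F (1 / 2, (a, 0)) = F (Φ.symm (core F a)) := by
    filter_upwards [hcont.continuousAt.preimage_mem_nhds (Φ.open_target.mem_nhds htgt)] with a ha
    have h1 : Φ.symm (core F a) ∈ Φ.source := Φ.map_target ha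
    rw [heq h1]
    exact (Φ.right_inv ha).symm
  refine ⟨fun a => Φ.symm (core F a), hy, ?_, ?_, ?_, hev⟩
  · show (Φ.symm (core F γ)).1 = 1 / 2
    rw [hyγ]
  · show rsq c (Φ.symm (core F γ)) < 1 / 25
    rw [hyγ, ← nsq_sub]; exact hx
  · have d1 := core_deriv hγ
    have d2 : HasDerivAt (fun a => F (Φ.symm (core F a)))
        (fderiv ℝ F (1 / 2, x₀) (deriv (fun a => Φ.symm (core F a)) γ)) γ := by
      have h1 : HasFDerivAt F (fderiv ℝ F (1 / 2, x₀)) (Φ.symm (core F γ)) := by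
        rw [hyγ]
        exact ((ld_iff.1 (hf _ hmem)).1.self_of_nhds.differentiableAt (by simp)).hasFDerivAt
      exact HasFDerivAt.comp_hasDerivAt (f := fun a => Φ.symm (core F a)) γ h1
        (hy.differentiableAt (by simp)).hasDerivAt
    have d3 := d2.congr_of_eventuallyEq (f₁ := core F) hev
    have h2 := d1.unique d3
    rw [hd] at h2
    have h3 := (ld_iff.1 (hf _ hmem)).2 h2
    rw [← h3]
    intro h0
    simp only at h0
    rw [h0, mul_zero] at hl
    exact lt_irrefl _ hl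

section
variable {E : Type*} [NormedAddCommGroup E] [NormedSpace ℝ E] {H : Type*} [TopologicalSpace H]
  {I : ModelWithCorners ℝ E H} {M : Type*} [TopologicalSpace M] [ChartedSpace H M]

theorem congr_ldM {f g : R4 → M} {V : Set R4} (hV : IsOpen V) (hfg : EqOn f g V) {x : R4}
    (hx : x ∈ V) (h : IsLocalDiffeomorphAt 𝓘(ℝ, R4) I ∞ f x) :
    IsLocalDiffeomorphAt 𝓘(ℝ, R4) I ∞ g x := by
  obtain ⟨Φ, hxΦ, hΦ⟩ := h
  have hsub : Φ.source ∩ V ⊆ Φ.source := inter_subset_left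
  have hop : IsOpen (Φ.source ∩ V) := Φ.open_source.inter hV
  let Ψ : PartialDiffeomorph 𝓘(ℝ, R4) I R4 M ∞ :=
    { toFun := Φ
      invFun := Φ.symm
      source := Φ.source ∩ V
      target := Φ.target ∩ Φ.symm ⁻¹' V
      map_source' := fun p hp => ⟨Φ.map_source hp.1, by
        show Φ.symm (Φ p) ∈ V
        have : Φ.symm (Φ p) = p := Φ.left_inv hp.1
        rw [this]; exact hp.2⟩
      map_target' := fun y hy => ⟨Φ.map_target hy.1, hy.2⟩
      left_inv' := fun p hp => Φ.left_inv hp.1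
      right_inv' := fun y hy => Φ.right_inv hy.1
      open_source := hop
      open_target := by
        have hc : ContinuousOn Φ.symm Φ.target := Φ.contMDiffOn_invFun.continuousOn
        exact hc.isOpen_inter_preimage Φ.open_target hV
      contMDiffOn_toFun := Φ.contMDiffOn_toFun.mono hsub
      contMDiffOn_invFun := Φ.contMDiffOn_invFun.mono inter_subset_left }
  exact ⟨Ψ, ⟨hxΦ, hx⟩, fun p hp => (hfg hp.2).symm.trans (hΦ hp.1)⟩

end

end ThM

open ThM in
theorem m_ThM : StThM := by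
  refine ⟨?_, ?_, ?_, ?_⟩
  · intro F α β h
    have hα : α ∈ Ioo (1 / 5 : ℝ) (4 / 5) := ⟨h.ord.1.trans h.ord.2.1, h.ord.2.2⟩
    have hβ : β ∈ Ioo (1 / 5 : ℝ) (4 / 5) := ⟨h.ord.1, h.ord.2.1.trans h.ord.2.2⟩
    obtain ⟨e, he, hce⟩ := crossAt_of (h.loc _ (ax_mem ⟨hα.1.le, hα.2.le⟩))
      (fun p hp => h.loc p (flat_sub_FB (Or.inl rfl) hp)) h.cross0
    obtain ⟨d, hd, hcd⟩ := crossAt_of (h.loc _ (ax_mem ⟨hβ.1.le, hβ.2.le⟩))
      (fun p hp => h.loc p (flat_sub_FB (Or.inr rfl) hp)) h.cross1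
    refine ⟨e, d, he, hd, ?_, ?_, ?_, h.ord.2.1⟩
    · refine ⟨?_, h.inj, ?_, hα, hce, ?_⟩
      · rintro p (hp | hp)
        · exact h.loc p (SP_sub_FB hp)
        · exact h.loc p (flat_sub_FB (Or.inl rfl) hp)
      · refine h.balls.mono ?_
        rintro p (hp | hp)
        · exact Or.inl hp
        · rw [sub_zero] at hp
          exact Or.inr (sph_sub_flat 1 hp)
      · intro a ha hm
        rcases h.only0 a ha hm with h1 | h1
        · left; rw [h1]; norm_num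
        · exact Or.inr h1
    · refine ⟨?_, h.inj, ?_, hβ, hcd, ?_⟩
      · rintro p (hp | hp)
        · exact h.loc p (SP_sub_FB hp)
        · exact h.loc p (flat_sub_FB (Or.inr rfl) hp)
      · refine h.balls.mono ?_
        rintro p (hp | hp)
        · exact Or.inr hp
        · rw [sub_self] at hp
          exact Or.inl (sph_sub_flat 0 hp)
      · intro a ha hm
        rcases h.only1 a ha hm with h1 | h1
        · left; rw [h1]; norm_num
        · exact Or.inr h1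
    · rw [Set.disjoint_left]
      rintro _ ⟨p, hp, rfl⟩ ⟨q, hq, he⟩
      have hpq : q = p := h.balls (Or.inr hq) (Or.inl hp) he
      subst hpq
      have h1 : rsq 0 q ≤ 1 / 25 := hp.2
      have h2 : rsq 1 q ≤ 1 / 25 := hq.2
      unfold rsq nsq at h1 h2
      simp only at h1 h2
      nlinarith [sq_nonneg q.2.2.re, sq_nonneg q.2.2.im, sq_nonneg (2 * q.2.1 - 1)]
  · intro F α β e d h
    have hFB : ∀ p ∈ FB, LD F p := by
      rintro p ((hp | hp) | hp)
      · exact h.a.loc p (Or.inr hp)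
      · exact h.b.loc p (Or.inr hp)
      · exact h.a.loc p (Or.inl (Or.inr hp))
    refine ⟨hFB, h.a.inj, ?_, ⟨h.b.mem.1, h.ord, h.a.mem.2⟩,
      crossM_of (hFB _ (ax_mem ⟨h.a.mem.1.le, h.a.mem.2.le⟩)) (fun p hp => h.a.loc p (Or.inr hp))
        h.a.cr,
      crossM_of (hFB _ (ax_mem ⟨h.b.mem.1.le, h.b.mem.2.le⟩)) (fun p hp => h.b.loc p (Or.inr hp))
        h.b.cr, ?_, ?_⟩
    · rintro p (hp | hp) q (hq | hq) he
      · exact h.a.injF (Or.inl hp) (Or.inl hq) he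
      · exact (Set.disjoint_left.1 h.dis ⟨p, hp, rfl⟩ ⟨q, hq, he.symm⟩).elim
      · exact (Set.disjoint_left.1 h.dis ⟨q, hq, rfl⟩ ⟨p, hp, he⟩).elim
      · exact h.b.injF (Or.inl hp) (Or.inl hq) he
    · intro a ha hm
      rcases h.a.only a ha hm with h1 | h1
      · left; rw [h1]; norm_num
      · exact Or.inr h1
    · intro a ha hm
      rcases h.b.only a ha hm with h1 | h1
      · left; rw [h1]; norm_num
      · exact Or.inr h1
  · intro E _ _ H _ I M _ _ E' _ _ H' _ I' M' _ _ F Ψ α β h hinj hloc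
    have hcr : ∀ c γ : ℝ, CrossM F c γ → CrossM (fun p => Ψ (F p)) c γ := by
      rintro c γ ⟨y, h1, h2, h3, h4, h5⟩
      refine ⟨y, h1, h2, h3, h4, ?_⟩
      filter_upwards [h5] with a ha
      rw [ha]
    have honly : ∀ c, (c = 0 ∨ c = 1) → ∀ a ∈ Icc (1 / 5 : ℝ) (4 / 5),
        Ψ (F (1 / 2, (a, 0))) ∈ (fun p => Ψ (F p)) '' flat c → F (1 / 2, (a, 0)) ∈ F '' flat c := by
      rintro c hc a ha ⟨q, hq, he⟩
      exact ⟨q, hq, hinj ⟨q, flat_sub_FB hc hq, rfl⟩ ⟨_, ax_mem ha, rfl⟩ he⟩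
    refine ⟨fun p hp => ?_, ?_, ?_, h.ord, hcr _ _ h.cross0, hcr _ _ h.cross1,
      fun a ha hm => h.only0 a ha (honly 0 (Or.inl rfl) a ha hm),
      fun a ha hm => h.only1 a ha (honly 1 (Or.inr rfl) a ha hm)⟩
    · exact IsLocalDiffeomorphAt.comp (K := I') (P := M') (hf := h.loc p hp) (hg := hloc _ ⟨p, hp, rfl⟩)
    · intro p hp q hq he
      exact h.inj hp hq (hinj ⟨p, SP_sub_FB hp, rfl⟩ ⟨q, SP_sub_FB hq, rfl⟩ he)
    · intro p hp q hq he
      exact h.balls hp hq (hinj ⟨p, Or.inl hp, rfl⟩ ⟨q, Or.inl hq, rfl⟩ he)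
  · intro E _ _ H _ I M _ _ F G U α β h hU hFB heq
    have hα : α ∈ Ioo (1 / 5 : ℝ) (4 / 5) := ⟨h.ord.1.trans h.ord.2.1, h.ord.2.2⟩
    have hβ : β ∈ Ioo (1 / 5 : ℝ) (4 / 5) := ⟨h.ord.1, h.ord.2.1.trans h.ord.2.2⟩
    have hcr : ∀ c γ : ℝ, (c = 0 ∨ c = 1) → γ ∈ Ioo (1 / 5 : ℝ) (4 / 5) → CrossM F c γ →
        CrossM G c γ := by
      rintro c γ hc hγ ⟨y, h1, h2, h3, h4, h5⟩
      refine ⟨y, h1, h2, h3, h4, ?_⟩
      have m1 : ∀ᶠ a in 𝓝 γ, y a ∈ U :=
        h1.continuousAt.preimage_mem_nhds (hU.mem_nhds (hFB (flat_sub_FB hc ⟨h2, h3.le⟩)))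
      filter_upwards [h5, m1, isOpen_Ioo.mem_nhds hγ] with a ha ha1 ha2
      rw [← heq ha1, ← ha]
      exact (heq (hFB (ax_mem ⟨ha2.1.le, ha2.2.le⟩))).symm
    have himg : ∀ c, (c = 0 ∨ c = 1) → G '' flat c = F '' flat c := fun c hc =>
      image_congr fun p hp => (heq (hFB (flat_sub_FB hc hp))).symm
    refine ⟨fun p hp => ?_, ?_, ?_, h.ord, hcr _ _ (Or.inl rfl) hα h.cross0,
      hcr _ _ (Or.inr rfl) hβ h.cross1, fun a ha hm => ?_, fun a ha hm => ?_⟩
    · exact congr_ldM hU heq (hFB hp) (h.loc p hp)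
    · exact h.inj.congr fun p hp => heq (hFB (SP_sub_FB hp))
    · exact h.balls.congr fun p hp => heq (hFB (Or.inl hp))
    · have e : G (1 / 2, (a, 0)) = F (1 / 2, (a, 0)) := (heq (hFB (ax_mem ha))).symm
      rw [e, himg 0 (Or.inl rfl)] at hm
      exact h.only0 a ha hm
    · have e : G (1 / 2, (a, 0)) = F (1 / 2, (a, 0)) := (heq (hFB (ax_mem ha))).symm
      rw [e, himg 1 (Or.inr rfl)] at hm
      exact h.only1 a ha hm

end Pool.Agent.Helper70.BI


end

/-! ## Helper70.BI.M_W4 -/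

section

/-!
# Project BI, stage 2, module W4: the class `W` in the 4-sphere
-/

set_option autoImplicit false

open scoped Manifold ContDiff Topology ComplexConjugate
open Set Filter Pool.Agent.Helper65.Barb Pool.Agent.Helper18.BI

namespace Pool.Agent.Helper70.BI

namespace W4

theorem invFun_ld {c : R4 → S4} (hc : EmbOn (𝓡 4) c univ) {y : S4} (hy : y ∈ range c) :
    IsLocalDiffeomorphAt (𝓡 4) 𝓘(ℝ, R4) ∞ (Function.invFun c) y := by
  obtain ⟨x, rfl⟩ := hy
  obtain ⟨Φ, hx, heq⟩ := hc.1 x (mem_univ x)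
  refine ⟨Φ.symm, ?_, ?_⟩
  · rw [heq hx]
    exact Φ.map_source hx
  · intro z hz
    have hz' : z ∈ Φ.target := hz
    have h1 : Φ.symm z ∈ Φ.source := Φ.map_target hz'
    have h2 : c (Φ.symm z) = z := by
      rw [heq h1]
      exact Φ.right_inv hz'
    have h3 : c (Function.invFun c z) = z := Function.invFun_eq ⟨_, h2⟩
    exact hc.2 (mem_univ _) (mem_univ _) (h3.trans h2.symm)

theorem isOpen_range {c : R4 → S4} (hc : EmbOn (𝓡 4) c univ) : IsOpen (range c) := by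
  rw [isOpen_iff_mem_nhds]
  rintro _ ⟨x, rfl⟩
  obtain ⟨Φ, hx, heq⟩ := hc.1 x (mem_univ x)
  have h1 : Φ.target ∈ 𝓝 (c x) := by
    rw [heq hx]
    exact Φ.open_target.mem_nhds (Φ.map_source hx)
  filter_upwards [h1] with z hz
  have h2 : Φ.symm z ∈ Φ.source := Φ.map_target hz
  have h3 : c (Φ.symm z) = z := by
    rw [heq h2]
    exact Φ.right_inv hz
  exact ⟨Φ.symm z, h3⟩

theorem imp_id {c : R4 → S4} : imp c univ (fun p => p) = fun y => y := by
  funext y
  unfold imp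
  split_ifs with h
  · exact h.choose_spec.2
  · rfl

theorem ld_continuousAt {G : R4 → S4} {p : R4}
    (h : IsLocalDiffeomorphAt 𝓘(ℝ, R4) (𝓡 4) ∞ G p) : ContinuousAt G p := by
  obtain ⟨Φ, hp, heq⟩ := h
  have hc : ContinuousAt Φ p :=
    Φ.contMDiffOn_toFun.continuousOn.continuousAt (Φ.open_source.mem_nhds hp)
  have he : (Φ : R4 → S4) =ᶠ[𝓝 p] G := by
    filter_upwards [Φ.open_source.mem_nhds hp] with q hq
    exact (heq hq).symm
  exact hc.congr he

end W4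

open W4 in
theorem m_W4 (hEI : StEI) (hX2c : StX2c) (hThM : StThM) (hX1 : StX1) (hT2 : StT2)
    (hCI : StCI) (hS4 : StS4) : StW4 := by
  intro W hW
  obtain ⟨F₀, α₀, β₀, hF₀, hF₀W⟩ := hW.rep
  obtain ⟨th1, th2, th3, -⟩ := hThM
  obtain ⟨-, tii, -, tiv, tv, tvi, -⟩ := hT2 _ _ (𝓡 4) S4
  obtain ⟨-, cs, cself, ct, cc, -, -, -, -, -⟩ := hCI _ _ (𝓡 4) S4
  have hFBc : IsCompact FB := hS4.2.2.2.2.2.2.2.2.2.1
  have hFB1 : ∀ p ∈ FB, p.1 = 1 / 2 := by
    rintro p ((hp | hp) | hp)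
    · exact hp.1
    · exact hp.1
    · exact hp.1
  have hF₀M : ThetaM I4 F₀ α₀ β₀ := th2 F₀ α₀ β₀ 1 1 hF₀
  -- charts composed with the theta germ
  have stepA : ∀ c : R4 → S4, EmbOn (𝓡 4) c univ →
      ThetaM (𝓡 4) (fun p => c (F₀ p)) α₀ β₀ := by
    intro c hc
    exact th3 _ _ 𝓘(ℝ, R4) R4 _ _ (𝓡 4) S4 F₀ c α₀ β₀ hF₀M (hc.2.mono (subset_univ _))
      (fun y _ => hc.1 y (mem_univ y))
  have stepA' : ∀ c : R4 → S4, EmbOn (𝓡 4) c univ →
      Thin (𝓡 4) (fun p => c (F₀ p)) (imp c univ W) := by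
    intro c hc
    exact (hX1 _ _ (𝓡 4) S4 c hc).2.2.1 F₀ W hF₀W
  -- theta germs in a chart
  have stepB : ∀ (G : R4 → S4) (α β : ℝ) (c : R4 → S4), ThetaM (𝓡 4) G α β →
      EmbOn (𝓡 4) c univ → G '' FB ⊆ range c → Thin (𝓡 4) G (imp c univ W) := by
    intro G α β c hG hc hsub
    have hinv : ∀ y ∈ range c, c (Function.invFun c y) = y := fun y hy => Function.invFun_eq hy
    have hF : ThetaM 𝓘(ℝ, R4) (fun p => Function.invFun c (G p)) α β := by
      refine th3 _ _ (𝓡 4) S4 _ _ 𝓘(ℝ, R4) R4 G (Function.invFun c) α β hG ?_ ?_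
      · intro y hy z hz he
        rw [← hinv y (hsub hy), ← hinv z (hsub hz), he]
      · intro y hy
        exact invFun_ld hc (hsub hy)
    obtain ⟨e, d, he, hd, hth⟩ := th1 _ α β hF
    have t1 : Thin 𝓘(ℝ, R4) (fun p => Function.invFun c (G p)) W := hW.all _ α β e d he hd hth
    have t2 := (hX1 _ _ (𝓡 4) S4 c hc).2.2.1 _ W t1
    refine tv _ G (interior {p | c (Function.invFun c (G p)) = G p}) _ isOpen_interior ?_ ?_ t2
    · intro p hp
      rw [mem_interior_iff_mem_nhds]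
      have hp' : p ∈ FB := ThM.SP_sub_FB hp
      have h1 : ContinuousAt G p := ld_continuousAt (hG.loc p hp')
      filter_upwards [h1.preimage_mem_nhds ((isOpen_range hc).mem_nhds (hsub ⟨p, hp', rfl⟩))]
        with q hq
      exact hinv _ hq
    · intro p hp
      have h1 : p ∈ {p | c (Function.invFun c (G p)) = G p} := interior_subset hp
      exact h1
  -- compact images
  have himg : ∀ (G : R4 → S4) (α β : ℝ), ThetaM (𝓡 4) G α β →
      IsCompact (G '' FB) ∧ interior (G '' FB) = ∅ := by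
    intro G α β hG
    exact hEI _ _ (𝓡 4) S4 G FB hFBc hFB1 hG.loc
  have stepC : ∀ c₁ c₂ : R4 → S4, EmbOn (𝓡 4) c₁ univ → EmbOn (𝓡 4) c₂ univ →
      CIsot (𝓡 4) (imp c₁ univ W) (imp c₂ univ W) := by
    intro c₁ c₂ h₁ h₂
    obtain ⟨k1, k2⟩ := himg _ _ _ (stepA c₁ h₁)
    obtain ⟨k3, k4⟩ := himg _ _ _ (stepA c₂ h₂)
    obtain ⟨c, hc, hsub⟩ := hX2c _ (k1.union k3)
      (by rw [interior_union_isClosed_of_interior_empty k1.isClosed k4, k2])
    have s1 := stepB _ _ _ c (stepA c₁ h₁) hc (subset_union_left.trans hsub)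
    have s2 := stepB _ _ _ c (stepA c₂ h₂) hc (subset_union_right.trans hsub)
    exact ct _ _ _ (tii _ _ _ (stepA' c₁ h₁) s1) (tii _ _ _ s2 (stepA' c₂ h₂))
  obtain ⟨c₀, hc₀, -⟩ := hX2c ∅ isCompact_empty interior_empty
  have hall : ∀ (G : R4 → S4) (α β : ℝ), ThetaM (𝓡 4) G α β → Thin (𝓡 4) G (imp c₀ univ W) := by
    intro G α β hG
    obtain ⟨k1, k2⟩ := himg G α β hG
    obtain ⟨c, hc, hsub⟩ := hX2c _ k1 k2
    exact tiv _ _ _ (stepB G α β c hG hc hsub) (stepC c c₀ hc hc₀)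
  refine ⟨imp c₀ univ W, c₀, fun p => c₀ (F₀ p), α₀, β₀, hall, fun c hc => stepC c c₀ hc hc₀, ?_,
    ?_, hc₀, stepA c₀ hc₀, stepA' c₀ hc₀⟩
  · obtain ⟨z1, -, -, z4, -⟩ := hX1 _ _ (𝓡 4) S4 c₀ hc₀
    have h := z1 _ _ hW.sq
    rw [imp_id] at h
    have e : imp c₀ univ (fun x => W (W x)) = fun y => imp c₀ univ W (imp c₀ univ W y) :=
      funext (z4 W W)
    rwa [e] at h
  · intro Ψ Ψ' hΨ hΨ' i1 i2
    have h1 : ThetaM (𝓡 4) (fun p => Ψ (c₀ (F₀ p))) α₀ β₀ :=
      th3 _ _ (𝓡 4) S4 _ _ (𝓡 4) S4 _ Ψ α₀ β₀ (stepA c₀ hc₀)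
        (fun y _ z _ he => by rw [← i2 y, ← i2 z, he])
        (fun y _ => Pool.Agent.Helper18.BI.T2.diff_ld hΨ hΨ' i1 i2 y)
    exact tii _ _ _ (tvi _ _ Ψ Ψ' hΨ hΨ' i1 i2 (stepA' c₀ hc₀)) (hall _ _ _ h1)

end Pool.Agent.Helper70.BI


end

/-! ## Helper70.BI.M_Final2 -/

section

/-!
# Project BI, stage 2: the main theorem in the 4-sphere, from `StW4` and `StMain2`
-/

set_option autoImplicit false

open scoped Manifold ContDiff Topology ComplexConjugate
open Set Filter Pool.Agent.Helper65.Barb Pool.Agent.Helper18.BI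

namespace Pool.Agent.Helper70.BI

namespace Fin2

theorem sph_sub_flat (c : ℝ) : sph c ⊆ flat c := fun _ hp => ⟨hp.1, hp.2.le⟩

theorem SP_sub_FB : SP ⊆ FB := by
  rintro p ((hp | hp) | hp)
  · exact Or.inl (Or.inl (sph_sub_flat 0 hp))
  · exact Or.inl (Or.inr (sph_sub_flat 1 hp))
  · exact Or.inr hp

theorem isCompact_flat (c : ℝ) : IsCompact (flat c) := by
  apply Metric.isCompact_of_isClosed_isBounded
  · apply IsClosed.inter (isClosed_eq continuous_fst continuous_const)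
    exact isClosed_le (continuous_rsq c) continuous_const
  · exact (isBounded_of_rsq c (1 / 25) (1 / 2) (1 / 2)).subset
      (fun p hp => ⟨hp.1.ge, hp.1.le, hp.2⟩)

theorem SP_sub_NB : SP ⊆ Pool.Agent.Helper65.Barb.NB := by
  have rsq_eq : ∀ (c : ℝ) (p : R4),
      rsq c p = (p.2.1 - c) ^ 2 + p.2.2.re ^ 2 + p.2.2.im ^ 2 := fun _ _ => rfl
  rintro p ((hp | hp) | hp)
  · obtain ⟨h1, h2⟩ := hp
    rw [rsq_eq] at h2
    refine ⟨⟨by rw [h1]; norm_num, by rw [h1]; norm_num, ?_⟩, ?_, ?_⟩ <;> rw [rsq_eq]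
    · nlinarith [sq_nonneg p.2.2.re, sq_nonneg p.2.2.im]
    · nlinarith [sq_nonneg p.2.2.re, sq_nonneg p.2.2.im]
    · have h3 : p.2.1 ^ 2 ≤ (1 / 5) ^ 2 := by
        nlinarith [sq_nonneg p.2.2.re, sq_nonneg p.2.2.im]
      have h4 : p.2.1 ≤ 1 / 5 := abs_le_of_sq_le_sq' h3 (by norm_num) |>.2
      nlinarith [sq_nonneg p.2.2.re, sq_nonneg p.2.2.im]
  · obtain ⟨h1, h2⟩ := hp
    rw [rsq_eq] at h2
    have h3 : (p.2.1 - 1) ^ 2 ≤ (1 / 5) ^ 2 := by
      nlinarith [sq_nonneg p.2.2.re, sq_nonneg p.2.2.im]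
    have h4 := abs_le_of_sq_le_sq' h3 (by norm_num)
    refine ⟨⟨by rw [h1]; norm_num, by rw [h1]; norm_num, ?_⟩, ?_, ?_⟩ <;> rw [rsq_eq]
    · nlinarith [sq_nonneg p.2.2.re, sq_nonneg p.2.2.im]
    · nlinarith [sq_nonneg p.2.2.re, sq_nonneg p.2.2.im]
    · nlinarith [sq_nonneg p.2.2.re, sq_nonneg p.2.2.im]
  · obtain ⟨h1, h2, h3, h4⟩ := hp
    refine ⟨⟨by rw [h1]; norm_num, by rw [h1]; norm_num, ?_⟩, ?_, ?_⟩ <;> rw [rsq_eq, h4] <;>
      simp only [Complex.zero_re, Complex.zero_im] <;> nlinarith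

end Fin2

open Fin2 in
theorem m_Final2 (hW4 : StW4) (hMain : StMain2) (hR3 : Pool.Agent.Helper18.BI.StR3)
    (hA1 : StA1) (hT2 : StT2) (hT4 : StT4) (hX1 : StX1) (hX2 : StX2) (hX3 : StX3) (hCI : StCI)
    {W : R4 → R4} (hW : IsW W) : StFinal2 := by
  obtain ⟨W₄, c₀, F₀, α₀, β₀, k1, k2, k3, k4, k5, k6, k7⟩ := hW4 W hW
  obtain ⟨-, tii, -, -, tv, -, -⟩ := hT2 _ _ (𝓡 4) S4
  obtain ⟨-, cs, cself, ct, cc, -, -, cconj, ciso, -⟩ := hCI _ _ (𝓡 4) S4
  have hE₀ : EmbOn (𝓡 4) F₀ SP := ⟨fun p hp => k6.loc p (SP_sub_FB hp), k6.inj⟩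
  obtain ⟨B₀, hB₀, hBF, hiso⟩ := hR3 _ _ (𝓡 4) S4 F₀ W₄ hE₀ k7
  obtain ⟨δ₀, hδ, hδF⟩ := hA1 R4 _ _ (𝓡 4) S4 F₀ (flat 0 ∪ flat 1)
    ((isCompact_flat 0).union (isCompact_flat 1))
    (fun p hp => k6.loc p (Or.inl hp)) k6.balls
  have hWi : implantation B₀ barMap = push B₀ barMap :=
    implantation_eq_push B₀ hB₀ isBarbellMap_barMap
  rw [← hWi] at hiso
  have sW : CIsot (𝓡 4) (implantation B₀ barMap) (implantation B₀ barMap) :=
    ct _ _ _ (cs _ _ hiso) hiso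
  refine ⟨implantation B₀ barMap, B₀, δ₀, ⟨hB₀, hδ, fun p hp => ?_, rfl⟩, ?_, ?_, ?_, ?_⟩
  · have hp' : p ∈ flat 0 ∪ flat 1 := hp.imp (fun h => sph_sub_flat 0 h) fun h => sph_sub_flat 1 h
    rw [hδF p (hδ hp'), hBF p hp]
  · -- order two
    have h1 := cc _ _ _ _ hiso hiso
    exact ciso _ _ (ct _ _ _ (cs _ _ h1) k3)
  · -- centrality
    intro Ψ Ψ' hΨ hΨ' i1 i2
    have h1 := cconj _ _ Ψ Ψ' hiso hΨ hΨ' i1 i2
    exact ciso _ _ (ct _ _ _ (cs _ _ h1) (ct _ _ _ (k4 Ψ Ψ' hΨ hΨ' i1 i2) hiso))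
  · -- theta barbells
    intro B β G U a b hB hβ hG hU hsU heq
    obtain ⟨-, hT⟩ := hT4 B β hB hβ
    have h1 : Thin (𝓡 4) B W₄ :=
      tv G B U W₄ hU hsU (fun p hp => (heq hp).symm) (k1 G a b hG)
    exact ciso _ _ (ct _ _ _ (tii _ _ _ hT h1) hiso)
  · -- bar independence
    intro B B' β β' U hB hB' hβ hβ' hU hsU heq
    obtain ⟨hE, hT⟩ := hT4 B β hB hβ
    obtain ⟨hE', hT'⟩ := hT4 B' β' hB' hβ'
    obtain ⟨c, hc, hBc, hBc'⟩ := hX2 B B' (SP_sub_NB.trans hB) (SP_sub_NB.trans hB')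
    obtain ⟨hF, U1, hU1o, hU1s, hU1⟩ := hX3 _ _ (𝓡 4) S4 c B SP hc hE hBc
    obtain ⟨hF', U2, hU2o, hU2s, hU2⟩ := hX3 _ _ (𝓡 4) S4 c B' SP hc hE' hBc'
    obtain ⟨z1, -, z3, z4, -⟩ := hX1 _ _ (𝓡 4) S4 c hc
    obtain ⟨ε₁, hε₁, hφ⟩ := (hT2 _ _ 𝓘(ℝ, R4) R4).1 _ hF
    obtain ⟨ε₂, hε₂, hφ'⟩ := (hT2 _ _ 𝓘(ℝ, R4) R4).1 _ hF'
    have hφ := hφ (ε₁ / 2) ⟨by positivity, by linarith⟩
    have hφ' := hφ' (ε₂ / 2) ⟨by positivity, by linarith⟩
    generalize imp ((fun p => Function.invFun c (B p)) ∘ sq (ε₁ / 2)) bsupp barMap = φ at hφ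
    generalize imp ((fun p => Function.invFun c (B' p)) ∘ sq (ε₂ / 2)) bsupp barMap = φ' at hφ'
    have hor := hMain W _ _ φ φ' U hW hF hF' hU hsU
      (by
        intro p hp
        have : B p = B' p := heq hp
        simp only [this]) hφ hφ'
    have q1 : CIsot (𝓡 4) (imp c univ φ) (implantation B β) :=
      tii B _ _ (tv _ _ U1 _ hU1o hU1s (fun p hp => hU1 p hp) (z3 _ _ hφ)) hT
    have q2 : CIsot (𝓡 4) (imp c univ φ') (implantation B' β') :=
      tii B' _ _ (tv _ _ U2 _ hU2o hU2s (fun p hp => hU2 p hp) (z3 _ _ hφ')) hT'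
    rcases hor with h | h
    · exact Or.inl (ciso _ _ (ct _ _ _ (cs _ _ q2) (ct _ _ _ (z1 _ _ h) q1)))
    · right
      have h1 := z1 _ _ h
      have e : imp c univ (fun x => W (φ x)) = fun y => imp c univ W (imp c univ φ y) :=
        funext (z4 W φ)
      rw [e] at h1
      have h2 : CIsot (𝓡 4) (imp c univ W) (implantation B₀ barMap) := ct _ _ _ (k2 c hc) hiso
      have h3 := cc _ _ _ _ h2 q1
      exact ciso _ _ (ct _ _ _ (cs _ _ q2) (ct _ _ _ h1 h3))

end Pool.Agent.Helper70.BI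


end

/-! ## Helper18.BI.H.M_F3 -/

section

/-!
# Project BI, stage 3 (H): the main theorem in the 4-sphere
-/

set_option autoImplicit false

open scoped Manifold ContDiff Topology ComplexConjugate
open Set Filter Pool.Agent.Helper65.Barb Pool.Agent.Helper18.BI
open Pool.Agent.Helper70.BI (I4 IsW MW StW4 StEI StX2c)
open Pool.Agent.Helper70.BI.Fin2 (SP_sub_NB sph_sub_flat SP_sub_FB isCompact_flat)

namespace Pool.Agent.Helper18.BI.H

namespace F3

/-- the spine of a barbell in the 4-sphere is compact with empty interior -/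
theorem spine_small (hEI : StEI) (hS4 : StS4) (B : PartialDiffeomorph 𝓘(ℝ, R4) (𝓡 4) R4 S4 ∞)
    (hB : NB ⊆ B.source) : IsCompact (B '' SP) ∧ interior (B '' SP) = ∅ := by
  refine hEI _ _ (𝓡 4) S4 B SP hS4.2.2.2.2.2.2.2.2.1 ?_ ?_
  · rintro p ((hp | hp) | hp)
    · exact hp.1
    · exact hp.1
    · exact hp.1
  · intro p hp
    exact ⟨B, hB (SP_sub_NB hp), fun _ _ => rfl⟩

/-- transfer of a barbell to a chart -/
theorem transfer (hT2 : StT2) (hT4 : StT4) (hX1 : StX1) (hX3 : StX3) (c : R4 → S4)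
    (hc : EmbOn (𝓡 4) c univ) (B : PartialDiffeomorph 𝓘(ℝ, R4) (𝓡 4) R4 S4 ∞) (β : R4 → R4)
    (hB : NB ⊆ B.source) (hβ : IsBarbellMap β) (hBc : B '' SP ⊆ range c) :
    EmbOn I4 (fun p => Function.invFun c (B p)) SP ∧
      (∃ φ, Thin I4 (fun p => Function.invFun c (B p)) φ) ∧
      ∀ φ, Thin I4 (fun p => Function.invFun c (B p)) φ →
        CIsot (𝓡 4) (imp c univ φ) (implantation B β) := by
  obtain ⟨-, tii, -, -, tv, -, -⟩ := hT2 _ _ (𝓡 4) S4
  obtain ⟨hE, hT⟩ := hT4 B β hB hβ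
  obtain ⟨hF, U1, hU1o, hU1s, hU1⟩ := hX3 _ _ (𝓡 4) S4 c B SP hc hE hBc
  obtain ⟨-, -, z3, -⟩ := hX1 _ _ (𝓡 4) S4 c hc
  refine ⟨hF, ?_, ?_⟩
  · obtain ⟨ε₁, hε₁, hφ⟩ := (hT2 _ _ 𝓘(ℝ, R4) R4).1 _ hF
    exact ⟨_, hφ (ε₁ / 2) ⟨by positivity, by linarith⟩⟩
  · intro φ hφ
    exact tii B _ _ (tv _ _ U1 _ hU1o hU1s (fun p hp => hU1 p hp) (z3 _ _ hφ)) hT

theorem invFun_continuousAt {c : R4 → S4} (hc : EmbOn (𝓡 4) c univ) {y : S4}
    (hy : y ∈ range c) : ContinuousAt (Function.invFun c) y :=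
  (Pool.Agent.Helper70.BI.W4.invFun_ld hc hy).contMDiffAt.continuousAt

end F3

open F3 in
theorem m_F3 (hW4 : StW4) (hHC : StHC) (hNULC : StNULC) (hSMH : StSMH) (hR3 : StR3) (hA1 : StA1)
    (hS4 : StS4) (hT2 : StT2) (hT4 : StT4) (hX1 : StX1) (hX2c : StX2c) (hX3 : StX3) (hEI : StEI)
    (hCI : StCI) {W : R4 → R4} (hW : IsW W) : StFinal3 := by
  obtain ⟨W₄, c₀, F₀, α₀, β₀, k1, k2, k3, k4, k5, k6, k7⟩ := hW4 W hW
  obtain ⟨-, tii, -, -, tv, -, -⟩ := hT2 _ _ (𝓡 4) S4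
  obtain ⟨-, cs, cself, ct, cc, -, -, cconj, ciso, -⟩ := hCI _ _ (𝓡 4) S4
  have hE₀ : EmbOn (𝓡 4) F₀ SP := ⟨fun p hp => k6.loc p (SP_sub_FB hp), k6.inj⟩
  obtain ⟨B₀, hB₀, hBF, hiso⟩ := hR3 _ _ (𝓡 4) S4 F₀ W₄ hE₀ k7
  obtain ⟨δ₀, hδ, hδF⟩ := hA1 R4 _ _ (𝓡 4) S4 F₀ (flat 0 ∪ flat 1)
    ((isCompact_flat 0).union (isCompact_flat 1))
    (fun p hp => k6.loc p (Or.inl hp)) k6.balls
  have hWi : implantation B₀ barMap = push B₀ barMap :=
    implantation_eq_push B₀ hB₀ isBarbellMap_barMap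
  rw [← hWi] at hiso
  refine ⟨implantation B₀ barMap, ⟨⟨B₀, δ₀, hB₀, hδ, fun p hp => ?_, rfl⟩, ?_, ?_⟩, ?_⟩
  · have hp' : p ∈ flat 0 ∪ flat 1 := hp.imp (fun h => sph_sub_flat 0 h) fun h => sph_sub_flat 1 h
    rw [hδF p (hδ hp'), hBF p hp]
  · -- order two
    have h1 := cc _ _ _ _ hiso hiso
    exact ciso _ _ (ct _ _ _ (cs _ _ h1) k3)
  · -- centrality
    intro Ψ Ψ' hΨ hΨ' i1 i2
    have h1 := cconj _ _ Ψ Ψ' hiso hΨ hΨ' i1 i2
    exact ciso _ _ (ct _ _ _ (cs _ _ h1) (ct _ _ _ (k4 Ψ Ψ' hΨ hΨ' i1 i2) hiso))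
  intro B β c d hB hβ hcd
  have hsd : ∀ e : ℝ, (e = 0 ∨ e = 1) → sph e ⊆ SP := by
    rintro e (rfl | rfl) p hp
    · exact Or.inl (Or.inl hp)
    · exact Or.inl (Or.inr hp)
  have hc01 : c = 0 ∨ c = 1 := by rcases hcd with h | h <;> simp [h.1]
  have hd01 : d = 0 ∨ d = 1 := by rcases hcd with h | h <;> simp [h.2]
  -- compact sets
  have hfixc : IsCompact (B '' sph c) := by
    have h1 : IsCompact (sph c) := by
      have h2 : IsCompact (flat c) := isCompact_flat c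
      refine h2.of_isClosed_subset ?_ (sph_sub_flat c)
      apply IsClosed.inter (isClosed_eq continuous_fst continuous_const)
      exact isClosed_eq (continuous_rsq c) continuous_const
    refine h1.image_of_continuousOn ?_
    intro p hp
    have : IsLocalDiffeomorphAt 𝓘(ℝ, R4) (𝓡 4) ∞ B p :=
      ⟨B, hB (SP_sub_NB (hsd c hc01 hp)), fun _ _ => rfl⟩
    exact this.contMDiffAt.continuousAt.continuousWithinAt
  have hsphd : IsCompact (sph d) := by
    have h2 : IsCompact (flat d) := isCompact_flat d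
    refine h2.of_isClosed_subset ?_ (sph_sub_flat d)
    apply IsClosed.inter (isClosed_eq continuous_fst continuous_const)
    exact isClosed_eq (continuous_rsq d) continuous_const
  have hsm : ∀ (B' : PartialDiffeomorph 𝓘(ℝ, R4) (𝓡 4) R4 S4 ∞), NB ⊆ B'.source →
      ∀ p ∈ sph d, ContMDiffAt 𝓘(ℝ, R4) (𝓡 4) ∞ B' p := by
    intro B' hB' p hp
    have : IsLocalDiffeomorphAt 𝓘(ℝ, R4) (𝓡 4) ∞ B' p :=
      ⟨B', hB' (SP_sub_NB (hsd d hd01 hp)), fun _ _ => rfl⟩
    exact this.contMDiffAt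
  have hdom : IsCompact (Icc (0 : ℝ) 1 ×ˢ sph d) := isCompact_Icc.prod hsphd
  refine ⟨?_, ?_⟩
  · intro B' β' U h hB' hβ' hU hcU hEq hh h0 h1 hoff
    obtain ⟨h', hh', h0', h1', hoff', hint⟩ := hSMH B B' h (B '' sph c) d hfixc (hsm B hB)
      (hsm B' hB') hh h0 h1 hoff
    obtain ⟨s1, s2⟩ := spine_small hEI hS4 B hB
    obtain ⟨s3, s4⟩ := spine_small hEI hS4 B' hB'
    have s5 : IsCompact (h' '' (Icc (0 : ℝ) 1 ×ˢ sph d)) := hdom.image_of_continuousOn hh'
    obtain ⟨ch, hch, hsub⟩ := hX2c ((B '' SP ∪ B' '' SP) ∪ h' '' (Icc (0 : ℝ) 1 ×ˢ sph d))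
      ((s1.union s3).union s5) (by
        rw [interior_union_isClosed_of_interior_empty (s1.union s3).isClosed hint,
          interior_union_isClosed_of_interior_empty s1.isClosed s4, s2])
    obtain ⟨hF, ⟨φ, hφ⟩, hT⟩ := transfer hT2 hT4 hX1 hX3 ch hch B β hB hβ
      ((subset_union_left.trans subset_union_left).trans hsub)
    obtain ⟨hF', ⟨φ', hφ'⟩, hT'⟩ := transfer hT2 hT4 hX1 hX3 ch hch B' β' hB' hβ'
      ((subset_union_right.trans subset_union_left).trans hsub)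
    have hhr : ∀ z ∈ Icc (0 : ℝ) 1 ×ˢ sph d, h' z ∈ range ch := fun z hz =>
      hsub (Or.inr (mem_image_of_mem _ hz))
    have hinv : ∀ y ∈ range ch, ch (Function.invFun ch y) = y := fun y hy => Function.invFun_eq hy
    obtain ⟨z1, -, -, z4, -⟩ := hX1 _ _ (𝓡 4) S4 ch hch
    have hor := hHC (fun p => Function.invFun ch (B p)) (fun p => Function.invFun ch (B' p)) U
      (fun z => Function.invFun ch (h' z)) W c d hW hcd hF hF' hU hcU
      (fun p hp => by
        have : B p = B' p := hEq hp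
        simp only [this])
      (fun z hz => (invFun_continuousAt hch (hhr z hz)).comp_continuousWithinAt (hh' z hz))
      (fun p hp => by simp only [h0' p hp]) (fun p hp => by simp only [h1' p hp])
      (fun u hu p hp => by
        rintro ⟨q, hq, he⟩
        have he' : Function.invFun ch (B q) = Function.invFun ch (h' (u, p)) := he
        have hBq : B q ∈ range ch :=
          hsub (Or.inl (Or.inl (mem_image_of_mem _ (hsd c hc01 hq))))
        have e1 : B q = h' (u, p) := by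
          rw [← hinv _ hBq, he', hinv _ (hhr (u, p) ⟨hu, hp⟩)]
        exact hoff' u hu p hp ⟨q, hq, e1⟩)
      φ φ' hφ hφ'
    have q1 := hT φ hφ
    have q2 := hT' φ' hφ'
    rcases hor with e | e
    · exact Or.inl (ciso _ _ (ct _ _ _ (cs _ _ q2) (ct _ _ _ (z1 _ _ e) q1)))
    · right
      have h1 := z1 _ _ e
      have e : imp ch univ (fun x => W (φ x)) = fun y => imp ch univ W (imp ch univ φ y) :=
        funext (z4 W φ)
      rw [e] at h1
      have h2 : CIsot (𝓡 4) (imp ch univ W) (implantation B₀ barMap) := ct _ _ _ (k2 ch hch) hiso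
      have h3 := cc _ _ _ _ h2 q1
      exact ciso _ _ (ct _ _ _ (cs _ _ q2) (ct _ _ _ h1 h3))
  · intro h y hh h0 h1 hoff
    obtain ⟨h', hh', h0', h1', hoff', hint⟩ := hSMH B (fun _ => y) h (B '' sph c) d hfixc (hsm B hB)
      (fun p _ => contMDiffAt_const) hh h0 h1 hoff
    obtain ⟨s1, s2⟩ := spine_small hEI hS4 B hB
    have s5 : IsCompact (h' '' (Icc (0 : ℝ) 1 ×ˢ sph d)) := hdom.image_of_continuousOn hh'
    obtain ⟨ch, hch, hsub⟩ := hX2c (B '' SP ∪ h' '' (Icc (0 : ℝ) 1 ×ˢ sph d))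
      (s1.union s5) (by
        rw [interior_union_isClosed_of_interior_empty s1.isClosed hint, s2])
    obtain ⟨hF, ⟨φ, hφ⟩, hT⟩ := transfer hT2 hT4 hX1 hX3 ch hch B β hB hβ
      (subset_union_left.trans hsub)
    have hhr : ∀ z ∈ Icc (0 : ℝ) 1 ×ˢ sph d, h' z ∈ range ch := fun z hz =>
      hsub (Or.inr (mem_image_of_mem _ hz))
    have hinv : ∀ y ∈ range ch, ch (Function.invFun ch y) = y := fun y hy => Function.invFun_eq hy
    obtain ⟨z1, -, -, z4, -⟩ := hX1 _ _ (𝓡 4) S4 ch hch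
    have hor := hNULC (fun p => Function.invFun ch (B p))
      (fun z => Function.invFun ch (h' z)) (Function.invFun ch y) W φ c d hW hcd hF
      (fun z hz => (invFun_continuousAt hch (hhr z hz)).comp_continuousWithinAt (hh' z hz))
      (fun p hp => by simp only [h0' p hp]) (fun p hp => by simp only [h1' p hp])
      (fun u hu p hp => by
        rintro ⟨q, hq, he⟩
        have he' : Function.invFun ch (B q) = Function.invFun ch (h' (u, p)) := he
        have hBq : B q ∈ range ch :=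
          hsub (Or.inl (mem_image_of_mem _ (hsd c hc01 hq)))
        have e1 : B q = h' (u, p) := by
          rw [← hinv _ hBq, he', hinv _ (hhr (u, p) ⟨hu, hp⟩)]
        exact hoff' u hu p hp ⟨q, hq, e1⟩)
      hφ
    have q1 := hT φ hφ
    rcases hor with e | e
    · left
      have h2 := z1 _ _ e
      rw [Pool.Agent.Helper70.BI.W4.imp_id] at h2
      exact ciso _ _ (ct _ _ _ (cs _ _ q1) h2)
    · right
      have h2 : CIsot (𝓡 4) (imp ch univ W) (implantation B₀ barMap) := ct _ _ _ (k2 ch hch) hiso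
      exact ciso _ _ (ct _ _ _ (cs _ _ q1) (ct _ _ _ (z1 _ _ e) h2))

end Pool.Agent.Helper18.BI.H


end
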