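import Pool.Agent.Helper65.Barb.Defs
import Pool.Agent.Helper70.BI.C.P07
import Pool.Agent.Helper70.BI.C.P13
import Pool.Agent.Helper70.BI.C.P14
import Pool.Agent.Helper70.BI.C.P16

/-!
# Project BI (MP_8e98f2_gt): collected modules, part 48

The contents of the modules
* Helper34.BI.M_CO
* Helper34.BI.M_CH
* Helper34.BI.H.M_BAR
* Helper70.BI.M_ARL
* Helper34.BI.M_RC
* Helper70.BI.M_CL
* Helper70.BI.M_NF2

in one file, so that the whole proof builds in a short time.
-/

namespace Pool.Agent.Helper18.BI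
end Pool.Agent.Helper18.BI

namespace Pool.Agent.Helper18.BI.H
end Pool.Agent.Helper18.BI.H

namespace Pool.Agent.Helper27.BI
end Pool.Agent.Helper27.BI

namespace Pool.Agent.Helper34.BI
end Pool.Agent.Helper34.BI

namespace Pool.Agent.Helper65.Barb
end Pool.Agent.Helper65.Barb


/-! ## Helper34.BI.M_CO -/

section

/-!
# Project BI, module CO: global core functions
-/

set_option autoImplicit false

open Module Set Filter Topology
open scoped ContDiff Manifold ComplexConjugate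
open Pool.Agent.Helper65.Barb Pool.Agent.Helper18.BI Pool.Agent.Helper27.BI

namespace Pool.Agent.Helper34.BI

/-- the axis of the neck -/
private noncomputable def eCO (u : ℝ) : R4 := (1 / 2, u, 0)

private theorem eCO_contDiff : ContDiff ℝ ∞ eCO :=
  contDiff_const.prodMk (contDiff_id.prodMk contDiff_const)

private theorem eCO_hasDerivAt (u : ℝ) : HasDerivAt eCO ((0, 1, 0) : R4) u := by
  have h1 : HasDerivAt (fun _ : ℝ => (1 / 2 : ℝ)) 0 u := hasDerivAt_const u _
  have h2 : HasDerivAt (fun x : ℝ => x) 1 u := hasDerivAt_id u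
  have h3 : HasDerivAt (fun _ : ℝ => (0 : ℂ)) 0 u := hasDerivAt_const u _
  exact h1.prodMk (h2.prodMk h3)

private theorem eCO_mem {u : ℝ} (hu : u ∈ Icc (1 / 5 : ℝ) (4 / 5)) : eCO u ∈ SP :=
  Or.inr ⟨rfl, hu.1, hu.2, rfl⟩

private theorem abs_CO {u : ℝ} (hu : u ∈ Icc (1 / 5 : ℝ) (4 / 5)) : |u - 1 / 2| ≤ 3 / 10 := by
  rw [abs_le]
  constructor <;> linarith [hu.1, hu.2]

/-- a germ is smooth near the axis -/
private theorem nbhd_CO (F : R4 → R4) (hF : EmbOn 𝓘(ℝ, R4) F SP) :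
    ∃ r > 0, ∀ u : ℝ, |u - 1 / 2| < 3 / 10 + r → ContDiffAt ℝ ∞ F (eCO u) := by
  have hO : IsOpen (eCO ⁻¹' (interior {p : R4 | ContDiffAt ℝ ∞ F p})) :=
    isOpen_interior.preimage eCO_contDiff.continuous
  have hsub : Metric.closedBall (1 / 2 : ℝ) (3 / 10) ⊆
      eCO ⁻¹' (interior {p : R4 | ContDiffAt ℝ ∞ F p}) := by
    intro u hu
    rw [Metric.mem_closedBall, Real.dist_eq, abs_le] at hu
    have hm : u ∈ Icc (1 / 5 : ℝ) (4 / 5) := ⟨by linarith [hu.1], by linarith [hu.2]⟩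
    have := eventually_contDiffAt (hF.1 _ (eCO_mem hm))
    exact mem_interior_iff_mem_nhds.2 this
  obtain ⟨r, hr, hr2⟩ := (isCompact_closedBall (1 / 2 : ℝ) (3 / 10)).exists_thickening_subset_open
    hO hsub
  refine ⟨r, hr, fun u hu => ?_⟩
  have h1 : u ∈ Metric.thickening r (Metric.closedBall (1 / 2 : ℝ) (3 / 10)) := by
    rw [thickening_closedBall hr (by norm_num), Metric.mem_ball, Real.dist_eq]
    linarith
  exact interior_subset (hr2 h1)

/-- the cut off core function of one germ -/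
private theorem cut_CO (F : R4 → R4) (hF : EmbOn 𝓘(ℝ, R4) F SP) {r : ℝ} (hr : 0 < r)
    (hsm : ∀ u : ℝ, |u - 1 / 2| < 3 / 10 + r → ContDiffAt ℝ ∞ F (eCO u))
    (Ψ : ℝ → ℝ) (hΨ : ContDiff ℝ ∞ Ψ) (h1 : ∀ u : ℝ, |u - 1 / 2| ≤ 3 / 10 + r / 3 → Ψ u = 1)
    (h0 : ∀ u : ℝ, 3 / 10 + 2 * r / 3 ≤ |u - 1 / 2| → Ψ u = 0) :
    ContDiff ℝ ∞ (fun u => Ψ u • F (eCO u)) ∧
      ∀ u ∈ Icc (1 / 5 : ℝ) (4 / 5), deriv (fun u => Ψ u • F (eCO u)) u ≠ 0 := by
  have hc : Continuous (fun u : ℝ => |u - 1 / 2|) := (continuous_id.sub continuous_const).abs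
  constructor
  · rw [contDiff_iff_contDiffAt]
    intro u
    rcases lt_or_ge (|u - 1 / 2|) (3 / 10 + r) with h | h
    · exact hΨ.contDiffAt.smul ((hsm u h).comp u eCO_contDiff.contDiffAt)
    · have h2 : ∀ᶠ v : ℝ in 𝓝 u, 3 / 10 + 2 * r / 3 < |v - 1 / 2| :=
        hc.continuousAt.eventually_const_lt (by linarith)
      have h3 : (fun u => Ψ u • F (eCO u)) =ᶠ[𝓝 u] fun _ => (0 : R4) := by
        filter_upwards [h2] with v hv
        rw [h0 v hv.le, zero_smul]
      exact contDiffAt_const.congr_of_eventuallyEq h3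
  · intro u hu
    have hu' := abs_CO hu
    have h2 : ∀ᶠ v : ℝ in 𝓝 u, |v - 1 / 2| < 3 / 10 + r / 3 :=
      hc.continuousAt.eventually_lt_const (by linarith)
    have h3 : (fun u => Ψ u • F (eCO u)) =ᶠ[𝓝 u] fun u => F (eCO u) := by
      filter_upwards [h2] with v hv
      rw [h1 v hv.le, one_smul]
    have h4 : HasDerivAt (fun u => F (eCO u)) (fderiv ℝ F (eCO u) ((0, 1, 0) : R4)) u :=
      (((hsm u (by linarith)).differentiableAt (by simp)).hasFDerivAt).comp_hasDerivAt u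
        (eCO_hasDerivAt u)
    rw [h3.deriv_eq, h4.deriv]
    intro h5
    have h6 := injective_fderiv (hF.1 _ (eCO_mem hu))
    have h7 : ((0, 1, 0) : R4) = 0 := h6 (by rw [h5, map_zero])
    have h8 := congrArg (fun p : R4 => p.2.1) h7
    simp at h8

/-- **CO.** The two core arcs extended to smooth functions on the line. -/
theorem m_CO : StCO := by
  intro F F' U hF hF' hU hsU hFF
  obtain ⟨r₁, hr₁, hs₁⟩ := nbhd_CO F hF
  obtain ⟨r₂, hr₂, hs₂⟩ := nbhd_CO F' hF'
  have hV : IsOpen (eCO ⁻¹' U) := hU.preimage eCO_contDiff.continuous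
  have ha : (1 / 5 : ℝ) ∈ eCO ⁻¹' U := by
    refine hsU (Or.inl ⟨rfl, ?_⟩)
    simp only [rsq, nsq, eCO]
    norm_num
  have hb : (4 / 5 : ℝ) ∈ eCO ⁻¹' U := by
    refine hsU (Or.inr ⟨rfl, ?_⟩)
    simp only [rsq, nsq, eCO]
    norm_num
  obtain ⟨r₃, hr₃, hs₃⟩ := Metric.isOpen_iff.1 hV _ ha
  obtain ⟨r₄, hr₄, hs₄⟩ := Metric.isOpen_iff.1 hV _ hb
  obtain ⟨r, hr, hra, hrb, hrc, hrd, hre⟩ : ∃ r : ℝ, 0 < r ∧ r ≤ r₁ ∧ r ≤ r₂ ∧ r ≤ r₃ ∧ r ≤ r₄ ∧
      r ≤ 1 / 10 :=
    ⟨min (min r₁ r₂) (min (min r₃ r₄) (1 / 10)), by positivity,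
      (min_le_left _ _).trans (min_le_left _ _), (min_le_left _ _).trans (min_le_right _ _),
      (min_le_right _ _).trans ((min_le_left _ _).trans (min_le_left _ _)),
      (min_le_right _ _).trans ((min_le_left _ _).trans (min_le_right _ _)),
      (min_le_right _ _).trans (min_le_right _ _)⟩
  let Ψ : ContDiffBump (1 / 2 : ℝ) := ⟨3 / 10 + r / 3, 3 / 10 + 2 * r / 3, by positivity,
    by linarith⟩
  have hΨ : ContDiff ℝ ∞ Ψ := Ψ.contDiff
  have h1 : ∀ u : ℝ, |u - 1 / 2| ≤ 3 / 10 + r / 3 → Ψ u = 1 := fun u hu =>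
    Ψ.one_of_mem_closedBall (by rw [Metric.mem_closedBall, Real.dist_eq]; exact hu)
  have h0 : ∀ u : ℝ, 3 / 10 + 2 * r / 3 ≤ |u - 1 / 2| → Ψ u = 0 := fun u hu =>
    Ψ.zero_of_le_dist (by rw [Real.dist_eq]; exact hu)
  obtain ⟨hc₀, hd₀⟩ := cut_CO F hF hr (fun u hu => hs₁ u (by linarith)) Ψ hΨ h1 h0
  obtain ⟨hc₁, hd₁⟩ := cut_CO F' hF' hr (fun u hu => hs₂ u (by linarith)) Ψ hΨ h1 h0
  refine ⟨fun u => Ψ u • F (eCO u), fun u => Ψ u • F' (eCO u), r / 3, by positivity, by linarith,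
    hc₀, hc₁, fun u hu => ?_, fun u hu => ?_, fun u hu => ⟨hd₀ u hu, hd₁ u hu⟩⟩
  · have h := abs_CO hu
    have h2 := h1 u (by linarith)
    simp only [h2, one_smul]
    exact ⟨rfl, rfl⟩
  · rcases lt_or_ge (|u - 1 / 2|) (3 / 10 + 2 * r / 3) with h | h
    · rw [abs_lt] at h
      have h2 : eCO u ∈ U := by
        rcases hu with h3 | h3
        · refine hs₃ ?_
          rw [Metric.mem_ball, Real.dist_eq, abs_lt]
          constructor <;> linarith [h.1, h.2]
        · refine hs₄ ?_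
          rw [Metric.mem_ball, Real.dist_eq, abs_lt]
          constructor <;> linarith [h.1, h.2]
      simp only [hFF h2]
    · have h2 := h0 u h
      simp only [h2, zero_smul]

end Pool.Agent.Helper34.BI


end

/-! ## Helper34.BI.M_CH -/

section

/-!
# Project BI, module CH: charts of the cuffs by stereographic projection
-/

set_option autoImplicit false

open Module Set Filter Topology
open scoped ContDiff Manifold ComplexConjugate
open Pool.Agent.Helper65.Barb Pool.Agent.Helper18.BI Pool.Agent.Helper27.BI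

namespace Pool.Agent.Helper34.BI

namespace CH

theorem rsq_eq (c : ℝ) (p : R4) : rsq c p = (p.2.1 - c) ^ 2 + p.2.2.re ^ 2 + p.2.2.im ^ 2 := rfl

theorem cont_rsq (c : ℝ) : Continuous (rsq c) := by
  have : rsq c = fun p : R4 => (p.2.1 - c) ^ 2 + p.2.2.re ^ 2 + p.2.2.im ^ 2 := by
    funext p; exact rsq_eq c p
  rw [this]
  fun_prop

theorem closed_sph (c : ℝ) : IsClosed (sph c) :=
  IsClosed.inter (isClosed_eq continuous_fst continuous_const)
    (isClosed_eq (cont_rsq c) continuous_const)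

theorem cpt_sph (c : ℝ) : IsCompact (sph c) := by
  apply Metric.isCompact_of_isClosed_isBounded (closed_sph c)
  apply (Metric.isBounded_iff_subset_closedBall (0 : R4)).2
  refine ⟨|c| + 1, ?_⟩
  rintro p ⟨h1, h2⟩
  rw [rsq_eq] at h2
  have hc := abs_nonneg c
  rw [mem_closedBall_zero_iff, Prod.norm_def, Prod.norm_def]
  refine max_le ?_ (max_le ?_ ?_)
  · rw [h1, Real.norm_eq_abs, abs_of_pos (by norm_num : (0 : ℝ) < 1 / 2)]
    linarith
  · have h3 : (p.2.1 - c) ^ 2 ≤ 1 ^ 2 := by nlinarith [sq_nonneg p.2.2.re, sq_nonneg p.2.2.im]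
    have h4 := abs_le_of_sq_le_sq h3 (by norm_num)
    rw [Real.norm_eq_abs]
    have h5 : p.2.1 = c + (p.2.1 - c) := by ring
    rw [h5]
    exact (abs_add_le _ _).trans (by linarith)
  · have h3 : ‖p.2.2‖ ^ 2 ≤ 1 ^ 2 := by
      rw [Complex.sq_norm, Complex.normSq_apply]
      nlinarith [sq_nonneg (p.2.1 - c)]
    have h4 := abs_le_of_sq_le_sq h3 (by norm_num)
    rw [abs_of_nonneg (norm_nonneg _)] at h4
    linarith

theorem npos (y : ℂ) : 0 < Complex.normSq y + 1 := by
  have := Complex.normSq_nonneg y; linarith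

/-- `|st y| = 1` -/
theorem st_sq (y : ℂ) : (st y).1 ^ 2 + (st y).2.re ^ 2 + (st y).2.im ^ 2 = 1 := by
  have h := (npos y).ne'
  simp only [st, Complex.real_smul, Complex.mul_re, Complex.mul_im, Complex.ofReal_re,
    Complex.ofReal_im, zero_mul, sub_zero, add_zero]
  rw [Complex.normSq_apply] at h ⊢
  field_simp
  ring

theorem st_lt (y : ℂ) : (st y).1 < 1 := by
  have h := npos y
  simp only [st]
  rw [div_lt_one h]
  linarith

theorem ctd_st : ContDiff ℝ ∞ st := by
  have hn : ContDiff ℝ ∞ (fun y : ℂ => Complex.normSq y) := by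
    have : (fun y : ℂ => Complex.normSq y) = fun y : ℂ => y.re * y.re + y.im * y.im := by
      funext y; exact Complex.normSq_apply y
    rw [this]
    have h1 : ContDiff ℝ ∞ (fun y : ℂ => y.re) := Complex.reCLM.contDiff
    have h2 : ContDiff ℝ ∞ (fun y : ℂ => y.im) := Complex.imCLM.contDiff
    exact (h1.mul h1).add (h2.mul h2)
  have hd : ∀ y : ℂ, Complex.normSq y + 1 ≠ 0 := fun y => (npos y).ne'
  have hs : ContDiff ℝ ∞ (fun y : ℂ => Complex.normSq y + 1) := hn.add contDiff_const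
  exact ((hn.sub contDiff_const).div hs hd).prodMk
    ((contDiff_const.div hs hd).smul contDiff_id)

theorem ctd_cst (b : Bool) : ContDiff ℝ ∞ (cst b) := by
  have h1 : ContDiff ℝ ∞ (fun y => (st y).1) := contDiff_fst.comp ctd_st
  have h2 : ContDiff ℝ ∞ (fun y => (st y).2) := contDiff_snd.comp ctd_st
  cases b
  · exact contDiff_const.prodMk ((h1.div_const 5).prodMk (h2.const_smul (1 / 5 : ℝ)))
  · exact contDiff_const.prodMk
      ((contDiff_const.sub (h1.div_const 5)).prodMk (h2.const_smul (1 / 5 : ℝ)))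

/-- the centre of the cuff -/
def cen (b : Bool) : ℝ := if b then 1 else 0

theorem cst_mem (b : Bool) (y : ℂ) : cst b y ∈ sph (cen b) := by
  have h := st_sq y
  refine ⟨rfl, ?_⟩
  rw [rsq_eq]
  cases b <;>
  · simp only [cst, cen, Complex.real_smul, Complex.mul_re, Complex.mul_im, Complex.ofReal_re,
      Complex.ofReal_im, zero_mul, sub_zero, add_zero, if_true, if_false, Bool.false_eq_true]
    linear_combination (1 / 25) * h

theorem sph_sub (b : Bool) : sph (cen b) ⊆ sph 0 ∪ sph 1 := by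
  cases b
  · exact subset_union_left
  · exact subset_union_right

theorem sub_SP : sph 0 ∪ sph 1 ⊆ SP := subset_union_left

/-- the first coordinate on the unit sphere -/
noncomputable def xx (b : Bool) (p : R4) : ℝ := if b then 5 * (1 - p.2.1) else 5 * p.2.1

/-- the inverse of `cst b` -/
noncomputable def cinv (b : Bool) (p : R4) : ℂ := (5 / (1 - xx b p)) • p.2.2

theorem cont_xx (b : Bool) : Continuous (xx b) := by
  cases b
  · exact (by fun_prop : Continuous fun p : R4 => 5 * p.2.1)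
  · exact (by fun_prop : Continuous fun p : R4 => 5 * (1 - p.2.1))

theorem xx_sq {b : Bool} {p : R4} (hp : p ∈ sph (cen b)) :
    xx b p ^ 2 + (5 * p.2.2.re) ^ 2 + (5 * p.2.2.im) ^ 2 = 1 := by
  have h := hp.2
  rw [rsq_eq] at h
  cases b
  · simp only [xx, cen, if_false, Bool.false_eq_true] at h ⊢
    linear_combination 25 * h
  · simp only [xx, cen, if_true] at h ⊢
    linear_combination 25 * h

theorem cst_cinv {b : Bool} {p : R4} (hp : p ∈ sph (cen b)) (hx : xx b p ≠ 1) :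
    cst b (cinv b p) = p := by
  have h := xx_sq hp
  have hx' : 1 - xx b p ≠ 0 := fun h0 => hx (by linarith)
  set x := xx b p with hxd
  have hN : Complex.normSq (cinv b p) + 1 = 2 / (1 - x) := by
    rw [Complex.normSq_apply]
    simp only [cinv, ← hxd, Complex.real_smul, Complex.mul_re, Complex.mul_im, Complex.ofReal_re,
      Complex.ofReal_im, zero_mul, sub_zero, add_zero]
    field_simp
    linear_combination h
  have h1 : (st (cinv b p)).1 = x := by
    have : (st (cinv b p)).1 = (Complex.normSq (cinv b p) + 1 - 2) / (Complex.normSq (cinv b p) + 1) := by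
      simp only [st]; ring
    rw [this, hN]
    field_simp
    ring
  have h2 : (st (cinv b p)).2 = (5 : ℝ) • p.2.2 := by
    have : (st (cinv b p)).2 = (2 / (Complex.normSq (cinv b p) + 1)) • cinv b p := rfl
    rw [this, hN, cinv, ← hxd, smul_smul]
    congr 1
    field_simp
  have h3 : (1 / 5 : ℝ) • (st (cinv b p)).2 = p.2.2 := by
    rw [h2, smul_smul]; norm_num
  have h0 : p.1 = 1 / 2 := hp.1
  cases b
  · have hx5 : x = 5 * p.2.1 := rfl
    refine Prod.ext h0.symm (Prod.ext ?_ h3)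
    change (st (cinv false p)).1 / 5 = p.2.1
    rw [h1, hx5]; ring
  · have hx5 : x = 5 * (1 - p.2.1) := rfl
    refine Prod.ext h0.symm (Prod.ext ?_ h3)
    change 1 - (st (cinv true p)).1 / 5 = p.2.1
    rw [h1, hx5]; ring

theorem xx_cst (b : Bool) (y : ℂ) : xx b (cst b y) = (st y).1 := by
  cases b
  · change 5 * ((st y).1 / 5) = (st y).1
    ring
  · change 5 * (1 - (1 - (st y).1 / 5)) = (st y).1
    ring

theorem cinv_cst (b : Bool) (y : ℂ) : cinv b (cst b y) = y := by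
  have h2 : (cst b y).2.2 = (1 / 5 : ℝ) • (st y).2 := by cases b <;> rfl
  have h3 : (st y).2 = (2 / (Complex.normSq y + 1)) • y := rfl
  have h4 : 1 - (st y).1 = 2 / (Complex.normSq y + 1) := by
    have := (npos y).ne'
    simp only [st]
    field_simp
    ring
  have h5 := (npos y).ne'
  rw [cinv, xx_cst, h4, h2, h3, smul_smul, smul_smul]
  have : 5 / (2 / (Complex.normSq y + 1)) * (1 / 5) * (2 / (Complex.normSq y + 1)) = 1 := by
    field_simp
  rw [this, one_smul]

/-- `F` is smooth at the points of the spine -/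
theorem smooth_at {F : R4 → R4} (hF : EmbOn 𝓘(ℝ, R4) F SP) {p : R4} (hp : p ∈ SP) :
    ContDiffAt ℝ ∞ F p := (eventually_contDiffAt (hF.1 p hp)).self_of_nhds

/-- the side of the cuff -/
def side (b : Bool) : Set R4 := if b then {p | 1 / 2 < p.2.1} else {p | p.2.1 < 1 / 2}

theorem open_side (b : Bool) : IsOpen (side b) := by
  cases b
  · exact isOpen_lt (by fun_prop : Continuous fun p : R4 => p.2.1) continuous_const
  · exact isOpen_lt continuous_const (by fun_prop : Continuous fun p : R4 => p.2.1)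

theorem bnd {c : ℝ} {p : R4} (hp : p ∈ sph c) : c - 1 / 5 ≤ p.2.1 ∧ p.2.1 ≤ c + 1 / 5 := by
  have h := hp.2
  rw [rsq_eq] at h
  have h3 : (p.2.1 - c) ^ 2 ≤ (1 / 5) ^ 2 := by nlinarith [sq_nonneg p.2.2.re, sq_nonneg p.2.2.im]
  have h4 := abs_le_of_sq_le_sq' h3 (by norm_num)
  constructor <;> linarith [h4.1, h4.2]

theorem sph_side (b : Bool) {p : R4} (hp : p ∈ sph (cen b)) : p ∈ side b := by
  have h := bnd hp
  cases b
  · change p.2.1 < 1 / 2
    simp only [cen, if_false, Bool.false_eq_true] at h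
    linarith
  · change 1 / 2 < p.2.1
    simp only [cen, if_true] at h
    linarith

theorem side_sph {b : Bool} {p : R4} (hp : p ∈ sph 0 ∪ sph 1) (hs : p ∈ side b) :
    p ∈ sph (cen b) := by
  cases b
  · rcases hp with hp | hp
    · exact hp
    · have h := bnd hp
      have hs' : p.2.1 < 1 / 2 := hs
      linarith
  · rcases hp with hp | hp
    · have h := bnd hp
      have hs' : 1 / 2 < p.2.1 := hs
      linarith
    · exact hp

theorem foot {b : Bool} {p : R4} (hp : p ∈ sph (cen b)) (hx : xx b p = 1) :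
    p = (1 / 2, (if b then 4 / 5 else 1 / 5), 0) := by
  have h := xx_sq hp
  rw [hx] at h
  have h1 : p.2.2.re = 0 := by nlinarith [sq_nonneg p.2.2.re, sq_nonneg p.2.2.im]
  have h2 : p.2.2.im = 0 := by nlinarith [sq_nonneg p.2.2.re, sq_nonneg p.2.2.im]
  refine Prod.ext hp.1 (Prod.ext ?_ (Complex.ext h1 h2))
  cases b
  · have : 5 * p.2.1 = 1 := hx
    change p.2.1 = 1 / 5
    linarith
  · have : 5 * (1 - p.2.1) = 1 := hx
    change p.2.1 = 4 / 5
    linarith

/-- the derivative of `cst b` along a line -/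
theorem deriv_cst (b : Bool) (y : ℂ) (v : R4) (h1 : v.1 = 0) (h2 : drsq (cen b) (cst b y) v = 0) :
    ∃ η : ℂ, fderiv ℝ (cst b) y η = v := by
  obtain ⟨v0, v1, w⟩ := v
  simp only at h1
  subst h1
  set N : ℝ := Complex.normSq y + 1 with hN
  have hN0 : N ≠ 0 := (npos y).ne'
  -- the vector in three-space
  set α : ℝ := if b then -5 * v1 else 5 * v1 with hα
  have hN2 : N = y.re * y.re + y.im * y.im + 1 := by rw [hN, Complex.normSq_apply]
  have h3 : (N - 2) * α + 10 * (y.re * w.re + y.im * w.im) = 0 := by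
    have h21 : drsq (cen b) (cst b y) (0, v1, w) =
        ((cst b y).2.1 - cen b) * v1 + ((cst b y).2.2.re * w.re + (cst b y).2.2.im * w.im) := rfl
    rw [h21] at h2
    cases b
    · simp only [cst, st, cen, Complex.real_smul, Complex.mul_re, Complex.mul_im,
        Complex.ofReal_re, Complex.ofReal_im, zero_mul, sub_zero, add_zero, if_false,
        Bool.false_eq_true, ← hN] at h2
      simp only [hα, if_false, Bool.false_eq_true]
      have e : Complex.normSq y - 1 = N - 2 := by rw [hN]; ring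
      rw [e] at h2
      field_simp at h2
      linear_combination 5 * h2
    · simp only [cst, st, cen, Complex.real_smul, Complex.mul_re, Complex.mul_im,
        Complex.ofReal_re, Complex.ofReal_im, zero_mul, sub_zero, add_zero, if_true, ← hN] at h2
      simp only [hα, if_true]
      have e : Complex.normSq y - 1 = N - 2 := by rw [hN]; ring
      rw [e] at h2
      field_simp at h2
      linear_combination 5 * h2
  set η : ℂ := (N / 2) • ((5 : ℝ) • w + α • y) with hη
  have hre : η.re = N / 2 * (5 * w.re + α * y.re) := by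
    simp [hη]
    ring
  have him : η.im = N / 2 * (5 * w.im + α * y.im) := by
    simp [hη]
    ring
  refine ⟨η, ?_⟩
  have hdf : DifferentiableAt ℝ (cst b) y := (ctd_cst b).differentiable (by simp) y
  have hl : HasDerivAt (fun t : ℝ => y + t • η) η 0 := by
    have := ((hasDerivAt_id (0 : ℝ)).smul_const η).const_add y
    simpa using this
  have hc : HasDerivAt (fun t : ℝ => cst b (y + t • η)) (fderiv ℝ (cst b) y η) 0 := by
    have h0 : HasFDerivAt (cst b) (fderiv ℝ (cst b) y) (y + (0 : ℝ) • η) := by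
      rw [zero_smul, add_zero]; exact hdf.hasFDerivAt
    exact h0.comp_hasDerivAt (0 : ℝ) hl
  -- the components
  have hre' : HasDerivAt (fun t : ℝ => (y + t • η).re) η.re 0 := by
    have : (fun t : ℝ => (y + t • η).re) = fun t : ℝ => y.re + t * η.re := by
      funext t; simp
    rw [this]
    simpa using ((hasDerivAt_id (0 : ℝ)).mul_const η.re).const_add y.re
  have him' : HasDerivAt (fun t : ℝ => (y + t • η).im) η.im 0 := by
    have : (fun t : ℝ => (y + t • η).im) = fun t : ℝ => y.im + t * η.im := by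
      funext t; simp
    rw [this]
    simpa using ((hasDerivAt_id (0 : ℝ)).mul_const η.im).const_add y.im
  have hNN : HasDerivAt (fun t : ℝ => Complex.normSq (y + t • η) + 1) (α * N ^ 2 / 2) 0 := by
    have h5 : (fun t : ℝ => Complex.normSq (y + t • η) + 1) =
        fun t : ℝ => (y + t • η).re * (y + t • η).re + (y + t • η).im * (y + t • η).im + 1 := by
      funext t; rw [Complex.normSq_apply]
    rw [h5]
    have h6 := ((hre'.mul hre').add (him'.mul him')).add_const 1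
    simp only [zero_smul, add_zero] at h6
    refine h6.congr_deriv ?_
    rw [hre, him]
    linear_combination (N / 2) * h3 + (-(N * α)) * hN2
  have hN' : Complex.normSq (y + (0 : ℝ) • η) + 1 = N := by rw [zero_smul, add_zero]
  have hinv : HasDerivAt (fun t : ℝ => 2 / (Complex.normSq (y + t • η) + 1)) (-α) 0 := by
    have h6 := (hasDerivAt_const (0 : ℝ) (2 : ℝ)).div hNN (by rw [hN']; exact hN0)
    rw [hN'] at h6
    refine h6.congr_deriv ?_
    field_simp
    ring
  have hs1 : HasDerivAt (fun t : ℝ => (st (y + t • η)).1) α 0 := by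
    have h7 : (fun t : ℝ => (st (y + t • η)).1) =
        fun t : ℝ => 1 - 2 / (Complex.normSq (y + t • η) + 1) := by
      funext t
      have := (npos (y + t • η)).ne'
      simp only [st]
      field_simp
      ring
    rw [h7]
    simpa using hinv.const_sub 1
  have hs2 : HasDerivAt (fun t : ℝ => (st (y + t • η)).2) ((5 : ℝ) • w) 0 := by
    have h8 : HasDerivAt (fun t : ℝ => (2 / (Complex.normSq (y + t • η) + 1)) • (y + t • η))
        ((2 / (Complex.normSq (y + (0 : ℝ) • η) + 1)) • η + (-α) • (y + (0 : ℝ) • η)) 0 :=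
      hinv.smul hl
    have h9 : (2 / (Complex.normSq (y + (0 : ℝ) • η) + 1)) • η + (-α) • (y + (0 : ℝ) • η) =
        (5 : ℝ) • w := by
      rw [hN', hη, smul_smul]
      have e : 2 / N * (N / 2) = 1 := by field_simp
      rw [e, one_smul, zero_smul, add_zero, neg_smul]
      abel
    rw [h9] at h8
    exact h8
  have hgoal : HasDerivAt (fun t : ℝ => cst b (y + t • η)) ((0 : ℝ), v1, w) 0 := by
    have h10 : HasDerivAt (fun t : ℝ => (1 / 5 : ℝ) • (st (y + t • η)).2) w 0 := by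
      have := hs2.const_smul (1 / 5 : ℝ)
      refine this.congr_deriv ?_
      rw [smul_smul]
      norm_num
    cases b
    · have h11 : HasDerivAt (fun t : ℝ => (st (y + t • η)).1 / 5) v1 0 := by
        refine (hs1.div_const 5).congr_deriv ?_
        rw [hα]
        simp
      exact (hasDerivAt_const (0 : ℝ) (1 / 2 : ℝ)).prodMk (h11.prodMk h10)
    · have h11 : HasDerivAt (fun t : ℝ => 1 - (st (y + t • η)).1 / 5) v1 0 := by
        refine ((hs1.div_const 5).const_sub 1).congr_deriv ?_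
        rw [hα]
        simp only [if_true]
        ring
      exact (hasDerivAt_const (0 : ℝ) (1 / 2 : ℝ)).prodMk (h11.prodMk h10)
  exact hc.unique hgoal

theorem crv_mem (b : Bool) (θ : ℝ) : crv b θ ∈ sph (cen b) := by
  refine ⟨rfl, ?_⟩
  have h := Real.sin_sq_add_cos_sq θ
  rw [rsq_eq]
  cases b
  · simp only [crv, cen, if_false, Bool.false_eq_true]
    linear_combination (1 / 25) * h
  · simp only [crv, cen, if_true]
    linear_combination (1 / 25) * h

theorem ctd_crv (b : Bool) : ContDiff ℝ ∞ (crv b) := by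
  have h1 : ContDiff ℝ ∞ (fun θ : ℝ => ((⟨0, Real.sin θ / 5⟩ : ℂ))) := by
    have : (fun θ : ℝ => ((⟨0, Real.sin θ / 5⟩ : ℂ))) =
        fun θ : ℝ => (Real.sin θ / 5) • Complex.I := by
      funext θ
      apply Complex.ext
      · change (0 : ℝ) = _
        rw [Complex.real_smul, Complex.mul_re, Complex.I_re, Complex.I_im, Complex.ofReal_im]
        ring
      · change Real.sin θ / 5 = _
        rw [Complex.real_smul, Complex.mul_im, Complex.I_re, Complex.I_im, Complex.ofReal_re]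
        ring
    rw [this]
    exact (Real.contDiff_sin.div_const 5).smul contDiff_const
  exact contDiff_const.prodMk ((contDiff_const.add (Real.contDiff_cos.div_const 5)).prodMk h1)

theorem exists_angle {a c : ℝ} (h : a ^ 2 + c ^ 2 = 1) : ∃ θ : ℝ, Real.cos θ = a ∧ Real.sin θ = c := by
  have h1 : ‖(⟨a, c⟩ : ℂ)‖ = 1 := by
    rw [← sq_eq_sq₀ (norm_nonneg _) (by norm_num), Complex.sq_norm, Complex.normSq_apply]
    simp only
    linear_combination h
  obtain ⟨θ, hθ⟩ := (Complex.norm_eq_one_iff _).1 h1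
  refine ⟨θ, ?_, ?_⟩
  · have := congrArg Complex.re hθ
    rwa [Complex.exp_ofReal_mul_I_re] at this
  · have := congrArg Complex.im hθ
    rwa [Complex.exp_ofReal_mul_I_im] at this

theorem crv_surj {b : Bool} {p : R4} (hp : p ∈ sph (cen b)) (h0 : p.2.2.re = 0) :
    ∃ θ, crv b θ = p := by
  have h := hp.2
  rw [rsq_eq, h0] at h
  obtain ⟨θ, h1, h2⟩ := exists_angle (a := 5 * (p.2.1 - cen b)) (c := 5 * p.2.2.im)
    (by linear_combination 25 * h)
  refine ⟨θ, ?_⟩
  refine Prod.ext hp.1.symm (Prod.ext ?_ (Complex.ext ?_ ?_))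
  · change cen b + Real.cos θ / 5 = p.2.1
    rw [h1]; ring
  · exact h0.symm
  · change Real.sin θ / 5 = p.2.2.im
    rw [h2]; ring

end CH

open CH in
theorem m_CH : StCH := by
  intro F hF
  have hsub : ∀ b y, cst b y ∈ SP := fun b y => sub_SP (sph_sub b (cst_mem b y))
  refine ⟨⟨?_, fun _ => isOpen_univ, ?_, ?_, ?_, ?_⟩, ?_, ?_, ?_, ?_, ?_, ?_⟩
  · -- closed
    have hc : ContinuousOn F (sph 0 ∪ sph 1) := fun p hp =>
      (smooth_at hF (sub_SP hp)).continuousAt.continuousWithinAt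
    exact (((cpt_sph 0).union (cpt_sph 1)).image_of_continuousOn hc).isClosed
  · -- smooth
    intro b y _
    exact ((smooth_at hF (hsub b y)).comp y (ctd_cst b).contDiffAt).contDiffWithinAt
  · -- mem
    intro b y _
    exact ⟨cst b y, sph_sub b (cst_mem b y), rfl⟩
  · -- cover
    rintro x ⟨p, hp, rfl⟩ h1 h2
    have key : ∀ b : Bool, p ∈ sph (cen b) →
        F p ≠ F (1 / 2, (if b then 4 / 5 else 1 / 5), 0) →
        ∃ i, ∃ y ∈ (univ : Set ℂ), F (cst i y) = F p := by
      intro b hb hne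
      refine ⟨b, cinv b p, mem_univ _, ?_⟩
      rw [cst_cinv hb]
      intro hx
      exact hne (congrArg F (foot hb hx))
    rcases hp with hp | hp
    · exact key false hp h1
    · exact key true hp h2
  · -- nhds
    intro b y _ V hV
    obtain ⟨V₀, hV₀, hV₀o, hy⟩ := mem_nhds_iff.1 hV
    set U : Set R4 := {p | xx b p ≠ 1} with hU
    have hUo : IsOpen U := isOpen_ne_fun (cont_xx b) continuous_const
    have hcc : ContinuousOn (cinv b) U := by
      intro p hp
      have hp' : 1 - xx b p ≠ 0 := fun h0 => hp (by linarith)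
      have h1 : ContinuousAt (fun p : R4 => 5 / (1 - xx b p)) p :=
        continuousAt_const.div (continuousAt_const.sub (cont_xx b).continuousAt) hp'
      exact (h1.smul (by fun_prop : Continuous fun p : R4 => p.2.2).continuousAt).continuousWithinAt
    have hO : IsOpen (U ∩ cinv b ⁻¹' V₀) := hcc.isOpen_inter_preimage hUo hV₀o
    set K : Set R4 := (sph 0 ∪ sph 1) \ ((U ∩ cinv b ⁻¹' V₀) ∩ side b) with hK
    have hKc : IsCompact K := ((cpt_sph 0).union (cpt_sph 1)).diff (hO.inter (open_side b))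
    have hKF : IsClosed (F '' K) := by
      have hc : ContinuousOn F K := fun p hp =>
        (smooth_at hF (sub_SP hp.1)).continuousAt.continuousWithinAt
      exact (hKc.image_of_continuousOn hc).isClosed
    refine ⟨(F '' K)ᶜ, hKF.isOpen_compl.mem_nhds ?_, ?_⟩
    · rintro ⟨q, hq, hqe⟩
      have : q = cst b y := hF.2 (sub_SP hq.1) (hsub b y) hqe
      apply hq.2
      rw [this]
      refine ⟨⟨?_, ?_⟩, sph_side b (cst_mem b y)⟩
      · change xx b (cst b y) ≠ 1
        rw [xx_cst]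
        exact (st_lt y).ne
      · change cinv b (cst b y) ∈ V₀
        rw [cinv_cst]
        exact hy
    · rintro x ⟨⟨p, hp, rfl⟩, hx⟩
      have hpK : p ∈ (U ∩ cinv b ⁻¹' V₀) ∩ side b := by
        by_contra hcon
        exact hx ⟨p, ⟨hp, hcon⟩, rfl⟩
      refine ⟨cinv b p, hV₀ hpK.1.2, ?_⟩
      change F (cst b (cinv b p)) = F p
      rw [cst_cinv (side_sph hp hpK.2) hpK.1.1]
  · intro p hp hne
    refine ⟨cinv false p, cst_cinv (b := false) hp ?_⟩
    intro hx
    exact hne (foot (b := false) hp hx)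
  · intro p hp hne
    refine ⟨cinv true p, cst_cinv (b := true) hp ?_⟩
    intro hx
    exact hne (foot (b := true) hp hx)
  · -- tangent vectors
    intro b y v h1 h2
    obtain ⟨η, hη⟩ := deriv_cst b y v h1 h2
    refine ⟨η, ?_⟩
    have hd1 : HasFDerivAt F (fderiv ℝ F (cst b y)) (cst b y) :=
      ((smooth_at hF (hsub b y)).differentiableAt (by simp)).hasFDerivAt
    have hd2 : HasFDerivAt (cst b) (fderiv ℝ (cst b) y) y :=
      ((ctd_cst b).differentiable (by simp) y).hasFDerivAt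
    have hd3 : HasFDerivAt (fun y => F (cst b y))
        ((fderiv ℝ F (cst b y)).comp (fderiv ℝ (cst b) y)) y := hd1.comp y hd2
    rw [hd3.fderiv, ContinuousLinearMap.comp_apply, hη]
  · intro b
    rw [contDiff_iff_contDiffAt]
    intro θ
    exact (smooth_at hF (sub_SP (sph_sub b (crv_mem b θ)))).comp θ (ctd_crv b).contDiffAt
  · intro p hp h0
    exact crv_surj (b := false) hp h0
  · intro p hp h0
    exact crv_surj (b := true) hp h0

end Pool.Agent.Helper34.BI


end

/-! ## Helper34.BI.H.M_BAR -/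

section

/-!
# Project BI, stage 3, section 7: module BAR
-/

set_option autoImplicit false

open Module Set Filter Topology MeasureTheory
open scoped ContDiff Manifold
open Pool.Agent.Helper65.Barb Pool.Agent.Helper18.BI
open Pool.Agent.Helper18.BI.H (neckE foot0 bar StBAR)
open Pool.Agent.Helper34.BI

namespace Pool.Agent.Helper34.BI.H

namespace Bar

/-- the tent function -/
noncomputable def tent (s τ : ℝ) : ℝ := max 0 (min τ (s / 4 - τ))

/-- the given bar is followed back and forth before and after the path `ζ` -/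
noncomputable def zz (ζ c : ℝ → R4) (x : ℝ × ℝ) : R4 :=
  ζ (max 0 (min 1 ((x.2 - x.1 / 4) / (1 - x.1 / 2)))) +
    (c (3 / 5 - 2 / 5 * tent x.1 x.2) - c (3 / 5)) +
    (c (1 / 5 + 2 / 5 * tent x.1 (1 - x.2)) - c (1 / 5))

theorem clamp_mem (x : ℝ) : max 0 (min 1 x) ∈ Icc (0 : ℝ) 1 :=
  ⟨le_max_left _ _, max_le zero_le_one (min_le_left _ _)⟩

theorem tent_zero {s τ : ℝ} (h : τ ≤ 0 ∨ s / 4 ≤ τ) : tent s τ = 0 := by
  unfold tent
  rcases h with h | h
  · exact max_eq_left ((min_le_left _ _).trans h)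
  · exact max_eq_left ((min_le_right _ _).trans (by linarith))

theorem tent_le {s τ : ℝ} (hs : s ∈ Icc (0 : ℝ) 1) : tent s τ ∈ Icc (0 : ℝ) (1 / 8) := by
  refine ⟨le_max_left _ _, max_le (by norm_num) ?_⟩
  rcases le_or_gt τ (1 / 8) with h | h
  · exact (min_le_left _ _).trans h
  · exact (min_le_right _ _).trans (by linarith [hs.2])

theorem tent_one {τ : ℝ} (h0 : 0 ≤ τ) (h1 : τ ≤ 1 / 8) : tent 1 τ = τ := by
  unfold tent
  rw [min_eq_left (by linarith), max_eq_right h0]

section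
variable {ζ c : ℝ → R4}

theorem zz_left {s τ : ℝ} (hs : s ∈ Icc (0 : ℝ) 1) (hτ : τ ≤ s / 4) (h0 : ζ 0 = c (3 / 5)) :
    zz ζ c (s, τ) = c (3 / 5 - 2 / 5 * tent s τ) := by
  have h1 : (τ - s / 4) / (1 - s / 2) ≤ 0 :=
    div_nonpos_of_nonpos_of_nonneg (by linarith) (by linarith [hs.2])
  have h2 : max 0 (min 1 ((τ - s / 4) / (1 - s / 2))) = 0 :=
    max_eq_left ((min_le_right _ _).trans h1)
  have h3 : tent s (1 - τ) = 0 := tent_zero (Or.inr (by linarith [hs.2]))
  unfold zz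
  simp only [h2, h3, mul_zero, add_zero, sub_self, h0]
  abel

theorem zz_right {s τ : ℝ} (hs : s ∈ Icc (0 : ℝ) 1) (hτ : 1 - s / 4 ≤ τ) (h1' : ζ 1 = c (1 / 5)) :
    zz ζ c (s, τ) = c (1 / 5 + 2 / 5 * tent s (1 - τ)) := by
  have h1 : 1 ≤ (τ - s / 4) / (1 - s / 2) := by
    rw [le_div_iff₀ (by linarith [hs.2])]
    linarith
  have h2 : max 0 (min 1 ((τ - s / 4) / (1 - s / 2))) = 1 := by
    rw [min_eq_left h1, max_eq_right zero_le_one]
  have h3 : tent s τ = 0 := tent_zero (Or.inr (by linarith [hs.2]))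
  unfold zz
  simp only [h2, h3, mul_zero, sub_zero, sub_self, h1', add_zero]
  abel

theorem zz_mid {s τ : ℝ} (h1 : s / 4 ≤ τ) (h2 : τ ≤ 1 - s / 4) :
    zz ζ c (s, τ) = ζ (max 0 (min 1 ((τ - s / 4) / (1 - s / 2)))) := by
  have h3 : tent s τ = 0 := tent_zero (Or.inr h1)
  have h4 : tent s (1 - τ) = 0 := tent_zero (Or.inr (by linarith))
  unfold zz
  simp only [h3, h4, mul_zero, sub_zero, sub_self, add_zero]

/-- the values -/
theorem zz_cases {s τ : ℝ} (hs : s ∈ Icc (0 : ℝ) 1) (h0 : ζ 0 = c (3 / 5))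
    (h1 : ζ 1 = c (1 / 5)) : (∃ x ∈ Icc (0 : ℝ) 1, zz ζ c (s, τ) = ζ x) ∨
      ∃ u ∈ Icc (1 / 5 : ℝ) (3 / 5), zz ζ c (s, τ) = c u := by
  rcases le_or_gt τ (s / 4) with h | h
  · refine Or.inr ⟨_, ?_, zz_left hs h h0⟩
    have := tent_le (τ := τ) hs
    exact ⟨by linarith [this.2], by linarith [this.1]⟩
  · rcases le_or_gt (1 - s / 4) τ with h' | h'
    · refine Or.inr ⟨_, ?_, zz_right hs h' h1⟩
      have := tent_le (τ := 1 - τ) hs
      exact ⟨by linarith [this.1], by linarith [this.2]⟩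
    · exact Or.inl ⟨_, clamp_mem _, zz_mid h.le h'.le⟩

theorem zz_zero {τ : ℝ} (hτ : τ ∈ Icc (0 : ℝ) 1) : zz ζ c (0, τ) = ζ τ := by
  rw [zz_mid (by linarith [hτ.1]) (by linarith [hτ.2])]
  congr 1
  rw [zero_div, sub_zero, zero_div, sub_zero, div_one, min_eq_right hτ.2, max_eq_right hτ.1]

theorem zz_start {s : ℝ} (hs : s ∈ Icc (0 : ℝ) 1) (h0 : ζ 0 = c (3 / 5)) :
    zz ζ c (s, 0) = c (3 / 5) := by
  rw [zz_left hs (by linarith [hs.1]) h0, tent_zero (Or.inl le_rfl)]
  norm_num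

theorem zz_stop {s : ℝ} (hs : s ∈ Icc (0 : ℝ) 1) (h1 : ζ 1 = c (1 / 5)) :
    zz ζ c (s, 1) = c (1 / 5) := by
  rw [zz_right hs (by linarith [hs.1]) h1, tent_zero (Or.inl (by norm_num))]
  norm_num

theorem M_BAR_zr (z1 : ζ 1 = c (1 / 5)) {u : ℝ} (h : 1 / 5 ≤ u) (hu : u ≤ 1 / 4) :
    zz ζ c (1, (3 / 5 - u) * (5 / 2)) = c u := by
  rw [zz_right ⟨zero_le_one, le_rfl⟩ (by linarith only [hu]) z1,
    tent_one (by linarith only [h]) (by linarith only [hu])]
  congr 1
  ring

theorem M_BAR_zl (z0 : ζ 0 = c (3 / 5)) {u : ℝ} (h : u ≤ 3 / 5) (hu : 11 / 20 ≤ u) :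
    zz ζ c (1, (3 / 5 - u) * (5 / 2)) = c u := by
  rw [zz_left ⟨zero_le_one, le_rfl⟩ (by linarith only [hu]) z0,
    tent_one (by linarith only [h]) (by linarith only [hu])]
  congr 1
  ring

theorem M_BAR_close {v w : R4} {κ u x : ℝ} (hv : ‖v‖ < κ / 8) (hw : ‖w‖ < κ / 8) (hx0 : 0 ≤ x)
    (hx1 : x ≤ 1) (hu0 : 0 ≤ u) (hu1 : u ≤ 1) : ‖x • (v + u • w)‖ ≤ κ / 4 := by
  rw [norm_smul, Real.norm_eq_abs, abs_of_nonneg hx0]
  have h4 : ‖v + u • w‖ ≤ κ / 8 + κ / 8 := by
    refine (norm_add_le _ _).trans (add_le_add hv.le ?_)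
    rw [norm_smul, Real.norm_eq_abs, abs_of_nonneg hu0]
    have : u * ‖w‖ ≤ 1 * ‖w‖ := mul_le_mul_of_nonneg_right hu1 (norm_nonneg _)
    linarith only [this, hw]
  have h5 : x * ‖v + u • w‖ ≤ 1 * ‖v + u • w‖ := mul_le_mul_of_nonneg_right hx1 (norm_nonneg _)
  linarith only [h4, h5]

theorem M_BAR_avoid {K : Set R4} {a b : R4} {κ x : ℝ} (hx0 : 0 ≤ x) (hx1 : x ≤ 1)
    (hab : dist b a < κ) (hfar : ∀ y, dist y a < κ → y ∉ K) : a + x • (b - a) ∉ K := by
  refine hfar _ ?_
  rw [dist_eq_norm, add_sub_cancel_left, norm_smul, Real.norm_eq_abs, abs_of_nonneg hx0]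
  rw [dist_eq_norm] at hab
  have h4 : x * ‖b - a‖ ≤ 1 * ‖b - a‖ := mul_le_mul_of_nonneg_right hx1 (norm_nonneg _)
  linarith only [hab, h4]

theorem continuousOn_zz (hζ : ContinuousOn ζ (Icc 0 1)) (hc : Continuous c) :
    ContinuousOn (zz ζ c) {x | x.1 < 2} := by
  have ht : Continuous (fun x : ℝ × ℝ => tent x.1 x.2) := by
    unfold tent; fun_prop
  have ht' : Continuous (fun x : ℝ × ℝ => tent x.1 (1 - x.2)) := by
    unfold tent; fun_prop
  have h1 : ContinuousOn (fun x : ℝ × ℝ => max 0 (min 1 ((x.2 - x.1 / 4) / (1 - x.1 / 2))))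
      {x | x.1 < 2} := by
    have : ContinuousOn (fun x : ℝ × ℝ => (x.2 - x.1 / 4) / (1 - x.1 / 2)) {x | x.1 < 2} := by
      refine ContinuousOn.div (by fun_prop) (by fun_prop) ?_
      intro x hx
      have : x.1 < 2 := hx
      have : (0 : ℝ) < 1 - x.1 / 2 := by linarith
      exact this.ne'
    have hg : Continuous (fun y : ℝ => max 0 (min 1 y)) := by fun_prop
    exact hg.comp_continuousOn this
  have h2 : ContinuousOn (fun x : ℝ × ℝ => ζ (max 0 (min 1 ((x.2 - x.1 / 4) / (1 - x.1 / 2)))))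
      {x | x.1 < 2} := hζ.comp h1 (fun x _ => clamp_mem _)
  have h3 : Continuous (fun x : ℝ × ℝ => c (3 / 5 - 2 / 5 * tent x.1 x.2) - c (3 / 5)) :=
    (hc.comp (continuous_const.sub (continuous_const.mul ht))).sub continuous_const
  have h4 : Continuous (fun x : ℝ × ℝ => c (1 / 5 + 2 / 5 * tent x.1 (1 - x.2)) - c (1 / 5)) :=
    (hc.comp (continuous_const.add (continuous_const.mul ht'))).sub continuous_const
  exact (h2.add h3.continuousOn).add h4.continuousOn

end

end Bar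

open Bar BarP

theorem m_BAR : StBAR := by
  intro F ζ hF hζ hζ0 hζ1 hζK
  obtain ⟨c₀, c₁', δ', -, -, s₀, -, core', -, imm'⟩ := m_CO F F univ hF hF isOpen_univ
    (subset_univ _) (fun _ _ => rfl)
  have core : ∀ u ∈ Icc (1 / 5 : ℝ) (4 / 5), F (1 / 2, u, 0) = c₀ u := fun u hu => (core' u hu).1
  have imm : ∀ u ∈ Icc (1 / 5 : ℝ) (4 / 5), deriv c₀ u ≠ 0 := fun u hu => (imm' u hu).1
  have z0 : ζ 0 = c₀ (3 / 5) := by rw [hζ0]; exact core _ (by norm_num)
  have z1 : ζ 1 = c₀ (1 / 5) := by rw [hζ1]; exact core _ (by norm_num)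
  have inj₀ : InjOn c₀ (Icc (1 / 5) (4 / 5)) := by
    intro a ha b hb h
    rw [← core a ha, ← core b hb] at h
    have := hF.2 (Or.inr (mem_neck ha.1 ha.2)) (Or.inr (mem_neck hb.1 hb.2)) h
    exact congrArg (fun p : R4 => p.2.1) this
  have dis₀ : ∀ a ∈ Ioo (1 / 5 : ℝ) (4 / 5), c₀ a ∉ F '' (sph 0 ∪ sph 1) := by
    rintro a ha ⟨p, hp, he⟩
    rw [← core a ⟨ha.1.le, ha.2.le⟩] at he
    have := hF.2 (Or.inl hp) (Or.inr (mem_neck ha.1.le ha.2.le)) he
    subst this
    rcases hp with hp | hp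
    · have := sph_zero_le hp
      simp only at this
      linarith only [ha.1, this]
    · have := le_sph_one hp
      simp only at this
      linarith only [ha.2, this]
  -- the complement of the fixed cuff
  have hKc : IsCompact (F '' sph 1) := by
    have h1 : IsCompact (sph 1) := by
      have h2 : sph 1 = {p | p.1 = 1 / 2} ∩ {p | rsq 1 p = 1 / 25} := rfl
      have hcont : Continuous (fun p : R4 => rsq 1 p) := by
        unfold rsq nsq
        fun_prop
      refine m_S4.2.2.2.2.2.2.2.2.1.of_isClosed_subset ?_ (fun p hp => Or.inl (Or.inr hp))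
      rw [h2]
      exact (isClosed_eq continuous_fst continuous_const).inter (isClosed_eq hcont continuous_const)
    refine h1.image_of_continuousOn fun p hp => ?_
    exact (eventually_contDiffAt (hF.1 p (Or.inl (Or.inr hp)))).self_of_nhds.continuousAt.continuousWithinAt
  have hKo : IsOpen (F '' sph 1)ᶜ := hKc.isClosed.isOpen_compl
  have cK : ∀ u ∈ Icc (1 / 5 : ℝ) (3 / 5), c₀ u ∉ F '' sph 1 := by
    rintro u hu ⟨p, hp, he⟩
    rw [← core u ⟨hu.1, by linarith only [hu.2]⟩] at he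
    have := hF.2 (Or.inl (Or.inr hp)) (Or.inr (mem_neck hu.1 (by linarith only [hu.2]))) he
    subst this
    have := le_sph_one hp
    simp only at this
    linarith only [hu.2, this]
  have hzK : ∀ s ∈ Icc (0 : ℝ) 1, ∀ τ, zz ζ c₀ (s, τ) ∉ F '' sph 1 := by
    intro s hs τ
    rcases zz_cases (τ := τ) hs z0 z1 with ⟨x, hx, h⟩ | ⟨u, hu, h⟩
    · rw [h]; exact hζK x hx
    · rw [h]; exact cK u hu
  have hzc : ContinuousOn (zz ζ c₀) {x | x.1 < 2} := continuousOn_zz hζ s₀.continuous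
  have hZc : IsCompact (zz ζ c₀ '' (Icc (0 : ℝ) 1 ×ˢ Icc (0 : ℝ) 1)) := by
    refine (isCompact_Icc.prod isCompact_Icc).image_of_continuousOn (hzc.mono ?_)
    rintro ⟨s, τ⟩ ⟨hs, -⟩
    have : s ≤ 1 := hs.2
    show s < 2
    linarith only [this]
  obtain ⟨κ, hκ, hκK⟩ := hZc.exists_thickening_subset_open hKo (by
    rintro _ ⟨⟨s, τ⟩, ⟨hs, -⟩, rfl⟩
    exact hzK s hs τ)
  have hfar : ∀ s ∈ Icc (0 : ℝ) 1, ∀ τ ∈ Icc (0 : ℝ) 1, ∀ y, dist y (zz ζ c₀ (s, τ)) < κ →
      y ∉ F '' sph 1 := by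
    intro s hs τ hτ y hy
    exact hκK (Metric.mem_thickening_iff.2 ⟨_, ⟨(s, τ), ⟨hs, hτ⟩, rfl⟩, hy⟩)
  -- the continuous arc
  let cl : ℝ → ℝ := fun u => max (1 / 5) (min (3 / 5) u)
  have hcl : Continuous cl := by fun_prop
  have hclm : ∀ u, cl u ∈ Icc (1 / 5 : ℝ) (3 / 5) := fun u =>
    ⟨le_max_left _ _, max_le (by norm_num) (min_le_left _ _)⟩
  have hcle : ∀ u ∈ Icc (1 / 5 : ℝ) (3 / 5), cl u = u := by
    intro u hu
    show max (1 / 5) (min (3 / 5) u) = u
    rw [min_eq_right hu.2, max_eq_right hu.1]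
  let γ₀ : ℝ → R4 := fun u => zz ζ c₀ (1, (3 / 5 - cl u) * (5 / 2)) + (c₀ u - c₀ (cl u))
  have hγ₀c : Continuous γ₀ := by
    have h1 : Continuous (fun u => zz ζ c₀ (1, (3 / 5 - cl u) * (5 / 2))) := by
      rw [← continuousOn_univ]
      refine hzc.comp (by fun_prop) (fun u _ => ?_)
      show (1 : ℝ) < 2
      norm_num
    exact h1.add (s₀.continuous.sub (s₀.continuous.comp hcl))
  have hγ₀z : ∀ τ ∈ Icc (0 : ℝ) 1, γ₀ (3 / 5 - 2 / 5 * τ) = zz ζ c₀ (1, τ) := by
    intro τ hτ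
    have h1 : cl (3 / 5 - 2 / 5 * τ) = 3 / 5 - 2 / 5 * τ :=
      hcle _ ⟨by linarith only [hτ.2], by linarith only [hτ.1]⟩
    show zz ζ c₀ (1, (3 / 5 - cl (3 / 5 - 2 / 5 * τ)) * (5 / 2)) + (c₀ _ - c₀ (cl _)) = _
    rw [h1, sub_self, add_zero]
    congr 2
    ring
  have h11 : (1 : ℝ) ∈ Icc (0 : ℝ) 1 := by simp
  have hγ₀r : ∀ u, 11 / 20 ≤ u → γ₀ u = c₀ u := by
    intro u hu
    rcases le_or_gt u (3 / 5) with h | h
    · have h1 : cl u = u := hcle u ⟨by linarith only [hu], h⟩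
      show zz ζ c₀ (1, (3 / 5 - cl u) * (5 / 2)) + (c₀ u - c₀ (cl u)) = _
      rw [h1, sub_self, add_zero, M_BAR_zl z0 h hu]
    · have h1 : cl u = 3 / 5 := by
        show max (1 / 5) (min (3 / 5) u) = 3 / 5
        rw [min_eq_left h.le]
        norm_num
      show zz ζ c₀ (1, (3 / 5 - cl u) * (5 / 2)) + (c₀ u - c₀ (cl u)) = _
      rw [h1, sub_self, zero_mul, zz_start h11 z0]
      abel
  have hγ₀l : ∀ u, u ≤ 1 / 4 → γ₀ u = c₀ u := by
    intro u hu
    rcases le_or_gt (1 / 5) u with h | h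
    · have h1 : cl u = u := hcle u ⟨h, by linarith only [hu]⟩
      show zz ζ c₀ (1, (3 / 5 - cl u) * (5 / 2)) + (c₀ u - c₀ (cl u)) = _
      rw [h1, sub_self, add_zero, M_BAR_zr z1 h hu]
    · have h1 : cl u = 1 / 5 := by
        show max (1 / 5) (min (3 / 5) u) = 1 / 5
        exact max_eq_left ((min_le_right _ _).trans h.le)
      have h2 : (3 / 5 - 1 / 5 : ℝ) * (5 / 2) = 1 := by norm_num
      show zz ζ c₀ (1, (3 / 5 - cl u) * (5 / 2)) + (c₀ u - c₀ (cl u)) = _
      rw [h1, h2, zz_stop h11 z1]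
      abel
  clear_value γ₀
  clear hclm hcle hcl cl hKc hKo hZc hκK
  -- smoothing
  obtain ⟨γ, hγ, hγd, hγe, -⟩ := hγ₀c.exists_contDiff_approx_and_eqOn ⊤
    (ε := fun _ => κ / 2) continuous_const (fun _ => by positivity)
    (S := Iic (6 / 25) ∪ Ici (14 / 25)) (U := Iio (1 / 4) ∪ Ioi (11 / 20))
    (isClosed_Iic.union isClosed_Ici)
    ((isOpen_Iio.union isOpen_Ioi).mem_nhdsSet.2 (by
      rintro u (hu | hu)
      · left; simp only [mem_Iic] at hu; simp only [mem_Iio]; linarith only [hu]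
      · right; simp only [mem_Ici] at hu; simp only [mem_Ioi]; linarith only [hu]))
    (s₀.contDiffOn.congr (by
      rintro u (hu | hu)
      · exact hγ₀l u (le_of_lt hu)
      · exact hγ₀r u (le_of_lt hu)))
  have hγ' : ContDiff ℝ ∞ γ := hγ
  have hγc : ∀ u, (u ≤ 6 / 25 ∨ 14 / 25 ≤ u) → γ u = c₀ u := by
    intro u hu
    rw [hγe hu]
    rcases hu with hu | hu
    · exact hγ₀l u (by linarith only [hu])
    · exact hγ₀r u (by linarith only [hu])
  -- general position
  obtain ⟨charts, -, -, -, -, -, -⟩ := m_CH F hF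
  obtain ⟨v, w, hv, hw, gi, gd, ga⟩ := exists_arc (γ := γ) (χ := hat (6 / 25) (14 / 25))
    (f := fun b y => F (cst b y)) hγ' (contDiff_hat _ _)
    (fun b => contDiffOn_univ.1 (charts.smooth b)) (ε := κ / 8) (by positivity)
  let χ : ℝ → ℝ := hat (6 / 25) (14 / 25)
  have hχ : ContDiff ℝ ∞ χ := contDiff_hat _ _
  let c₁ : ℝ → R4 := fun u => γ u + χ u • (v + u • w)
  have s₁ : ContDiff ℝ ∞ c₁ :=
    hγ'.add (hχ.smul (contDiff_const.add (contDiff_id.smul contDiff_const)))
  have hfr : ∀ u, (u ≤ 6 / 25 ∨ 14 / 25 ≤ u) → c₁ u = c₀ u := by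
    intro u hu
    show γ u + χ u • (v + u • w) = c₀ u
    rw [show χ u = 0 from hat_eq_zero hu, zero_smul, add_zero, hγc u hu]
  have hact : ∀ u, (u ≤ 6 / 25 ∨ 14 / 25 ≤ u) ∨ χ u ≠ 0 := by
    intro u
    by_cases h : χ u = 0
    · left
      by_contra hcon
      push Not at hcon
      exact hat_ne_zero.2 hcon h
    · exact Or.inr h
  have inj₁ : InjOn c₁ (Icc (1 / 5) (4 / 5)) := by
    intro u hu u' hu' he
    rcases hact u with h | h
    · rcases hact u' with h' | h'
      · rw [hfr u h, hfr u' h'] at he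
        exact inj₀ hu hu' he
      · by_contra hne
        exact gi u u' hne (Or.inr h') he
    · by_contra hne
      exact gi u u' hne (Or.inl h) he
  have imm₁ : ∀ u ∈ Icc (1 / 5 : ℝ) (4 / 5), deriv c₁ u ≠ 0 := by
    intro u hu
    rcases hact u with h | h
    · have hd0 : DifferentiableAt ℝ c₀ u := s₀.differentiable (by simp) u
      have hd1 : DifferentiableAt ℝ c₁ u := s₁.differentiable (by simp) u
      have : deriv c₁ u = deriv c₀ u := by
        rcases h with h | h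
        · have h1 : HasDerivWithinAt c₀ (deriv c₁ u) (Iic u) u :=
            (hd1.hasDerivAt.hasDerivWithinAt (s := Iic u)).congr
              (fun r hr => (hfr r (Or.inl (le_trans hr h))).symm) (hfr u (Or.inl h)).symm
          exact ((uniqueDiffOn_Iic u) u (by simp)).eq_deriv _ h1 hd0.hasDerivAt.hasDerivWithinAt
        · have h1 : HasDerivWithinAt c₀ (deriv c₁ u) (Ici u) u :=
            (hd1.hasDerivAt.hasDerivWithinAt (s := Ici u)).congr
              (fun r hr => (hfr r (Or.inr (le_trans h hr))).symm) (hfr u (Or.inr h)).symm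
          exact ((uniqueDiffOn_Ici u) u (by simp)).eq_deriv _ h1 hd0.hasDerivAt.hasDerivWithinAt
      rw [this]
      exact imm u hu
    · exact gd u h
  have e15 : c₁ (1 / 5) = c₀ (1 / 5) := hfr _ (Or.inl (by norm_num))
  have e35 : c₁ (3 / 5) = c₀ (3 / 5) := hfr _ (Or.inr (by norm_num))
  have e45 : c₁ (4 / 5) = c₀ (4 / 5) := hfr _ (Or.inr (by norm_num))
  have m15 : (1 / 5 : ℝ) ∈ Icc (1 / 5 : ℝ) (4 / 5) := by norm_num
  have m45 : (4 / 5 : ℝ) ∈ Icc (1 / 5 : ℝ) (4 / 5) := by norm_num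
  have dis₁ : ∀ a ∈ Ioo (1 / 5 : ℝ) (4 / 5), c₁ a ∉ F '' (sph 0 ∪ sph 1) := by
    intro a ha hm
    have ham : a ∈ Icc (1 / 5 : ℝ) (4 / 5) := ⟨ha.1.le, ha.2.le⟩
    rcases hact a with h | h
    · rw [hfr a h] at hm
      exact dis₀ a ha hm
    · obtain ⟨b, y, -, he⟩ := charts.cover _ hm (by
        intro he
        rw [core _ m15, ← e15] at he
        exact ha.1.ne' (inj₁ ham m15 he)) (by
        intro he
        rw [core _ m45, ← e45] at he
        exact ha.2.ne (inj₁ ham m45 he))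
      exact ga b a y h he.symm
  have hclose : ∀ u ∈ Icc (1 / 5 : ℝ) (3 / 5), dist (c₁ u) (γ₀ u) < κ := by
    intro u hu
    have h1 := hγd u

    have h2 : dist (c₁ u) (γ u) ≤ κ / 4 := by
      rw [dist_eq_norm]
      have e : c₁ u - γ u = χ u • (v + u • w) := by
        show γ u + χ u • (v + u • w) - γ u = _
        abel
      rw [e]
      exact M_BAR_close hv hw (hat_nonneg _ _ _) (hat_le_one _ _ _) (by linarith only [hu.1])
        (by linarith only [hu.2])
    have h3 := dist_triangle (c₁ u) (γ u) (γ₀ u)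
    linarith only [h1, h2, h3, hκ]
  clear_value c₁
  clear gi gd ga hact hχ χ hγ' hγ hγd hγe hγc hγ₀r hγ₀l hγ₀c cK dis₀ imm imm' inj₀ hv hw e45 m15 m45
  -- the germ
  let H : ℝ × ℝ → R4 := fun x => c₁ x.2
  have hH : ContDiff ℝ ∞ H := s₁.comp contDiff_snd
  have hHd : ∀ a, fderiv ℝ H (0, a) (0, 1) = deriv c₁ a := by
    intro a
    have l : HasDerivAt (fun r : ℝ => (((0 : ℝ), r) : ℝ × ℝ)) (0, 1) a :=
      (hasDerivAt_const a _).prodMk (hasDerivAt_id a)
    have h1 : HasDerivAt (fun r => H (0, r)) (fderiv ℝ H (0, a) (0, 1)) a :=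
      HasFDerivAt.comp_hasDerivAt_of_eq a
        ((hH.differentiable (by simp) ((0 : ℝ), a)).hasFDerivAt) l rfl
    exact h1.deriv.symm
  have DB : BarData F c₀ H (1 / 100) := {
    loc := hF.1
    pos := by norm_num
    small := by norm_num
    smooth_c := s₀
    smooth_H := hH
    core := core
    frozen := by
      intro t a ha
      refine hfr a ?_
      rcases ha with ha | ha
      · left; linarith only [ha]
      · right; linarith only [ha] }
  let F' : R4 → R4 := fun p => barFam F c₀ H (1 / 100) (0, p)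
  have hF' : EmbOn 𝓘(ℝ, R4) F' SP := by
    refine DB.embOn (t := 0) (fun a ha => ?_) (hF.2.mono fun p hp => Or.inl hp) inj₁ dis₁
    rw [hHd]
    exact imm₁ a ha
  have hneck : ∀ a ∈ Icc (1 / 5 : ℝ) (4 / 5), F' (bar a) = c₁ a := fun a ha =>
    DB.barFam_neck ha.1 ha.2
  let P : ℝ × ℝ → R4 := fun x => zz ζ c₀ (min (2 * x.1) 1, x.2) +
    (max 0 (2 * x.1 - 1)) • (c₁ (3 / 5 - 2 / 5 * x.2) - zz ζ c₀ (1, x.2))
  refine ⟨F', {p | p.2.1 < 1 / 5 + 1 / 200} ∪ {p | 14 / 25 < p.2.1}, P, hF', ?_, ?_, ?_, ?_,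
    ?_, ?_, ?_, ?_, ?_⟩
  · have hcont : Continuous (fun q : R4 => q.2.1) := by fun_prop
    exact (isOpen_lt hcont continuous_const).union (isOpen_lt continuous_const hcont)
  · rintro p ((hp | hp) | hp)
    · left
      have := sph_zero_le hp
      show p.2.1 < 1 / 5 + 1 / 200
      linarith only [this]
    · right
      have := le_sph_one hp
      show 14 / 25 < p.2.1
      linarith only [this]
    · right
      have := hp.2
      show 14 / 25 < p.2.1
      linarith only [this]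
  · rintro p (hp | hp)
    · have hp' : p.2.1 < 1 / 5 + 1 / 200 := hp
      exact (DB.barFam_eq (t := 0) (p := p) (Or.inl (by linarith only [hp']))).symm
    · have hp' : 14 / 25 < p.2.1 := hp
      have e1 : H (0, p.2.1) = c₀ p.2.1 := hfr _ (Or.inr hp'.le)
      have e2 : fderiv ℝ H (0, p.2.1) (0, 1) = deriv c₀ p.2.1 := by
        rw [hHd]
        apply Filter.EventuallyEq.deriv_eq
        filter_upwards [Ioi_mem_nhds hp'] with r hr
        exact hfr r (Or.inr (le_of_lt hr))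
      show F p = barFam F c₀ H (1 / 100) (0, p)
      simp only [barFam, thick, thickB, e1, e2, sub_self, map_zero, ContinuousLinearMap.zero_comp,
        ContinuousLinearMap.zero_apply, add_zero, smul_zero]
  · -- continuity
    have h1 : ContinuousOn (fun x : ℝ × ℝ => zz ζ c₀ (min (2 * x.1) 1, x.2)) univ := by
      refine hzc.comp (by fun_prop) (fun x _ => ?_)
      show min (2 * x.1) 1 < 2
      exact lt_of_le_of_lt (min_le_right _ _) (by norm_num)
    have h2 : ContinuousOn (fun x : ℝ × ℝ => zz ζ c₀ (1, x.2)) univ := by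
      refine hzc.comp (by fun_prop) (fun x _ => ?_)
      show (1 : ℝ) < 2
      norm_num
    have h3 : Continuous (fun x : ℝ × ℝ => c₁ (3 / 5 - 2 / 5 * x.2)) :=
      s₁.continuous.comp (by fun_prop)
    have h4 : Continuous (fun x : ℝ × ℝ => max 0 (2 * x.1 - 1)) := by fun_prop
    rw [continuousOn_univ] at h1 h2
    exact (h1.add (h4.smul (h3.sub h2))).continuousOn
  · intro τ hτ
    show zz ζ c₀ (min (2 * 0) 1, τ) + (max 0 (2 * 0 - 1 : ℝ)) • _ = ζ τ
    have e1 : min (2 * 0) (1 : ℝ) = 0 := by norm_num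
    have e2 : max 0 (2 * 0 - 1 : ℝ) = 0 := by norm_num
    rw [e1, e2, zero_smul, add_zero, zz_zero hτ]
  · intro τ hτ
    rw [hneck _ ⟨by linarith only [hτ.2], by linarith only [hτ.1]⟩]
    show zz ζ c₀ (min (2 * 1) 1, τ) + (max 0 (2 * 1 - 1 : ℝ)) • _ = _
    have e1 : min (2 * 1) (1 : ℝ) = 1 := by norm_num
    have e2 : max 0 (2 * 1 - 1 : ℝ) = 1 := by norm_num
    rw [e1, e2, one_smul]
    abel
  · intro u hu
    show zz ζ c₀ (min (2 * u) 1, 0) + _ • (c₁ (3 / 5 - 2 / 5 * 0) - zz ζ c₀ (1, 0)) = _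
    have hm : min (2 * u) 1 ∈ Icc (0 : ℝ) 1 :=
      ⟨le_min (by linarith only [hu.1]) zero_le_one, min_le_right _ _⟩
    rw [mul_zero, sub_zero, e35, zz_start h11 z0, zz_start hm z0, sub_self, smul_zero, add_zero]
    exact (core _ (by norm_num)).symm
  · intro u hu
    show zz ζ c₀ (min (2 * u) 1, 1) + _ • (c₁ (3 / 5 - 2 / 5 * 1) - zz ζ c₀ (1, 1)) = _
    have hm : min (2 * u) 1 ∈ Icc (0 : ℝ) 1 :=
      ⟨le_min (by linarith only [hu.1]) zero_le_one, min_le_right _ _⟩
    have e : (3 / 5 - 2 / 5 * 1 : ℝ) = 1 / 5 := by norm_num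
    rw [e, e15, zz_stop h11 z1, zz_stop hm z1, sub_self, smul_zero, add_zero]
    exact (core _ (by norm_num)).symm
  · intro u hu τ hτ
    rcases le_or_gt u (1 / 2) with h | h
    · have e1 : max 0 (2 * u - 1) = 0 := max_eq_left (by linarith only [h])
      have e2 : min (2 * u) 1 = 2 * u := min_eq_left (by linarith only [h])
      show zz ζ c₀ (min (2 * u) 1, τ) + (max 0 (2 * u - 1)) • _ ∉ _
      rw [e1, e2, zero_smul, add_zero]
      exact hzK _ ⟨by linarith only [hu.1], by linarith only [h]⟩ τ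
    · have e1 : max 0 (2 * u - 1) = 2 * u - 1 := max_eq_right (by linarith only [h])
      have e2 : min (2 * u) 1 = 1 := min_eq_right (by linarith only [h])
      show zz ζ c₀ (min (2 * u) 1, τ) + (max 0 (2 * u - 1)) • _ ∉ _
      rw [e1, e2]
      have h3 := hclose (3 / 5 - 2 / 5 * τ) ⟨by linarith only [hτ.2], by linarith only [hτ.1]⟩
      rw [hγ₀z τ hτ] at h3
      exact M_BAR_avoid (by linarith only [h]) (by linarith only [hu.2]) h3 (hfar 1 h11 τ hτ)

end Pool.Agent.Helper34.BI.H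


end

/-! ## Helper70.BI.M_ARL -/

section

/-!
# Project BI, module ARL: the family of arcs joining the core of a lasso to the core of the germ
-/

set_option autoImplicit false

open scoped Manifold ContDiff Topology ComplexConjugate
open Set Filter Pool.Agent.Helper65.Barb Pool.Agent.Helper18.BI

namespace Pool.Agent.Helper70.BI

namespace ARL

open Pool.Agent.Helper34.BI (hat hat_nonneg hat_le_one contDiff_hat hat_ne_zero hat_eq_zero fam
  GenPos exists_genPos isolated cst crv StCH)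

/-- the cutoff: zero near the strand through `ax 1` and near the ends -/
noncomputable def cutf (r δ₂ a : ℝ) : ℝ :=
  hat (2 / 5 - 3 / 4 * r) (2 / 5 - δ₂) a + hat (2 / 5 + δ₂) (1 - δ₂) a

/-- the linear family -/
noncomputable def lin (c c' : ℝ → R4) (x : ℝ × ℝ) : R4 :=
  (1 - Real.smoothTransition x.1) • c' x.2 + Real.smoothTransition x.1 • c x.2

theorem cutf_nonneg (r δ₂ a : ℝ) : 0 ≤ cutf r δ₂ a := add_nonneg (hat_nonneg _ _ _) (hat_nonneg _ _ _)

theorem contDiff_cutf (r δ₂ : ℝ) : ContDiff ℝ ∞ (cutf r δ₂) :=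
  (contDiff_hat _ _).add (contDiff_hat _ _)

theorem cutf_le_one {r δ₂ a : ℝ} (hδ : 0 < δ₂) (ha : a ≤ 2 / 5) : cutf r δ₂ a ≤ 1 := by
  unfold cutf
  rw [hat_eq_zero (a := 2 / 5 + δ₂) (Or.inl (by linarith)), add_zero]
  exact hat_le_one _ _ _

theorem cutf_zero_iff {r δ₂ a : ℝ} : cutf r δ₂ a = 0 ↔
    hat (2 / 5 - 3 / 4 * r) (2 / 5 - δ₂) a = 0 ∧ hat (2 / 5 + δ₂) (1 - δ₂) a = 0 := by
  unfold cutf
  constructor
  · intro h
    have h1 := hat_nonneg (2 / 5 - 3 / 4 * r) (2 / 5 - δ₂) a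
    have h2 := hat_nonneg (2 / 5 + δ₂) (1 - δ₂) a
    constructor <;> linarith
  · rintro ⟨h1, h2⟩
    rw [h1, h2, add_zero]

/-- where the cutoff vanishes -/
theorem cutf_zero {r δ₂ a : ℝ} (h : cutf r δ₂ a = 0) :
    a ≤ 2 / 5 - 3 / 4 * r ∨ |a - 2 / 5| ≤ δ₂ ∨ 1 - δ₂ ≤ a := by
  obtain ⟨h1, h2⟩ := cutf_zero_iff.1 h
  by_contra hcon
  rw [not_or, not_or, not_le, not_le, not_le] at hcon
  obtain ⟨c1, c2, c3⟩ := hcon
  rcases lt_abs.1 c2 with h3 | h3
  · exact hat_ne_zero.2 ⟨by linarith, c3⟩ h2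
  · exact hat_ne_zero.2 ⟨c1, by linarith⟩ h1

theorem cutf_of_low {r δ₂ a : ℝ} (hr : 0 < r) (hδ : 0 < δ₂) (h : a ≤ 2 / 5 - 3 / 4 * r) :
    cutf r δ₂ a = 0 :=
  cutf_zero_iff.2 ⟨hat_eq_zero (Or.inl h), hat_eq_zero (Or.inl (by linarith))⟩

theorem cutf_of_mid {r δ₂ a : ℝ} (h : |a - 2 / 5| ≤ δ₂) : cutf r δ₂ a = 0 := by
  rw [abs_le] at h
  exact cutf_zero_iff.2 ⟨hat_eq_zero (Or.inr (by linarith [h.1])),
    hat_eq_zero (Or.inl (by linarith [h.2]))⟩

theorem cutf_of_high {r δ₂ a : ℝ} (hδ : δ₂ < 1 / 4) (h : 1 - δ₂ ≤ a) :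
    cutf r δ₂ a = 0 :=
  cutf_zero_iff.2 ⟨hat_eq_zero (Or.inr (by linarith)), hat_eq_zero (Or.inr h)⟩

theorem contDiff_lin {c c' : ℝ → R4} (hc : ContDiff ℝ ∞ c) (hc' : ContDiff ℝ ∞ c') :
    ContDiff ℝ ∞ (lin c c') := by
  have e1 : ContDiff ℝ ∞ (fun x : ℝ × ℝ => Real.smoothTransition x.1) :=
    Real.smoothTransition.contDiff.comp contDiff_fst
  have e2 : ContDiff ℝ ∞ (fun x : ℝ × ℝ => c' x.2) := hc'.comp contDiff_snd
  have e3 : ContDiff ℝ ∞ (fun x : ℝ × ℝ => c x.2) := hc.comp contDiff_snd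
  exact ((contDiff_const.sub e1).smul e2).add (e1.smul e3)

/-- the perturbed family -/
noncomputable def HH (c c' : ℝ → R4) (r δ₂ : ℝ) (v w : R4) : ℝ × ℝ → R4 :=
  fam (lin c c') (hat 0 1) (cutf r δ₂) v w

theorem contDiff_HH {c c' : ℝ → R4} (hc : ContDiff ℝ ∞ c) (hc' : ContDiff ℝ ∞ c') (r δ₂ : ℝ)
    (v w : R4) : ContDiff ℝ ∞ (HH c c' r δ₂ v w) := by
  have e1 : ContDiff ℝ ∞ (fun x : ℝ × ℝ => hat 0 1 x.1) := (contDiff_hat _ _).comp contDiff_fst
  have e2 : ContDiff ℝ ∞ (fun x : ℝ × ℝ => cutf r δ₂ x.2) := (contDiff_cutf _ _).comp contDiff_snd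
  exact (contDiff_lin hc hc').add
    ((e1.mul e2).smul (contDiff_const.add (contDiff_snd.smul contDiff_const)))

theorem HH_left (c c' : ℝ → R4) (r δ₂ : ℝ) (v w : R4) (t a : ℝ) (ht : t ≤ 0) :
    HH c c' r δ₂ v w (t, a) = c' a := by
  have e1 : hat 0 1 t = 0 := hat_eq_zero (Or.inl ht)
  have e2 : Real.smoothTransition t = 0 := Real.smoothTransition.zero_of_nonpos ht
  simp [HH, fam, lin, e1, e2]

theorem HH_right (c c' : ℝ → R4) (r δ₂ : ℝ) (v w : R4) (t a : ℝ) (ht : 1 ≤ t) :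
    HH c c' r δ₂ v w (t, a) = c a := by
  have e1 : hat 0 1 t = 0 := hat_eq_zero (Or.inr ht)
  have e2 : Real.smoothTransition t = 1 := Real.smoothTransition.one_of_one_le ht
  simp [HH, fam, lin, e1, e2]

theorem HH_frozen {c c' : ℝ → R4} {r δ₂ : ℝ} (v w : R4) (t : ℝ) {a : ℝ} (h : cutf r δ₂ a = 0)
    (he : c a = c' a) : HH c c' r δ₂ v w (t, a) = c' a := by
  simp only [HH, fam, lin, h, he]
  module

/-- derivative along the arcs -/
theorem HH_der {c c' : ℝ → R4} (hc : ContDiff ℝ ∞ c) (hc' : ContDiff ℝ ∞ c') (r δ₂ : ℝ)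
    (v w : R4) (t u : ℝ) : HasDerivAt (fun a => HH c c' r δ₂ v w (t, a))
      (fderiv ℝ (HH c c' r δ₂ v w) (t, u) (0, 1)) u := by
  have l : HasDerivAt (fun r : ℝ => ((t, r) : ℝ × ℝ)) (0, 1) u :=
    (hasDerivAt_const u t).prodMk (hasDerivAt_id u)
  exact HasFDerivAt.comp_hasDerivAt_of_eq u
    (((contDiff_HH hc hc' r δ₂ v w).differentiable (by simp) (t, u)).hasFDerivAt) l rfl

/-- the derivative where the cutoff vanishes -/
theorem HH_der_frozen {c c' : ℝ → R4} (hc : ContDiff ℝ ∞ c) (hc' : ContDiff ℝ ∞ c') {r δ₂ : ℝ}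
    (v w : R4) (t : ℝ) {u : ℝ} (h2 : cutf r δ₂ u = 0) (he : c =ᶠ[𝓝 u] c') :
    fderiv ℝ (HH c c' r δ₂ v w) (t, u) (0, 1) = deriv c' u := by
  have hd0 : HasDerivAt c' (deriv c' u) u := (hc'.differentiable (by simp) u).hasDerivAt
  have hmin : deriv (cutf r δ₂) u = 0 := by
    have : IsLocalMin (cutf r δ₂) u := Eventually.of_forall fun r' => by
      show cutf r δ₂ u ≤ cutf r δ₂ r'
      rw [h2]; exact cutf_nonneg _ _ _
    exact this.deriv_eq_zero
  have d2 : HasDerivAt (cutf r δ₂) 0 u := by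
    rw [← hmin]
    exact ((contDiff_cutf r δ₂).differentiable (by simp) u).hasDerivAt
  have d3 : HasDerivAt (fun a : ℝ => (hat 0 1 t * cutf r δ₂ a) • (v + a • w)) 0 u := by
    have a1 : HasDerivAt (fun a : ℝ => hat 0 1 t * cutf r δ₂ a) (hat 0 1 t * 0) u := d2.const_mul _
    have a2 : HasDerivAt (fun a : ℝ => v + a • w) w u := by
      simpa using ((hasDerivAt_id u).smul_const w).const_add v
    have a3 := a1.smul a2
    refine a3.congr_deriv ?_
    simp [h2]
  have d4 : HasDerivAt (fun a => HH c c' r δ₂ v w (t, a)) (deriv c' u) u := by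
    have d5 := hd0.add d3
    rw [add_zero] at d5
    refine d5.congr_of_eventuallyEq ?_
    filter_upwards [he] with a ha
    simp only [HH, fam, lin, ha, Pi.add_apply]
    module
  exact (HH_der hc hc' r δ₂ v w t u).unique d4

/-- `χ = 0` implies that the two arcs agree nearby -/
theorem agree {F F' : R4 → R4} {S : Set R4} {d μ r δ₂ : ℝ} {c c' : ℝ → R4} (hr : 0 < r)
    (hδ : δ₂ < μ) (hc : XCore F S d μ r c) (hc' : XCore F' S d μ r c')
    (heq : ∀ a, a ≤ 2 / 5 - r / 2 → c a = c' a) {u : ℝ} (h : cutf r δ₂ u = 0) :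
    c =ᶠ[𝓝 u] c' := by
  rcases cutf_zero h with h1 | h1 | h1
  · filter_upwards [gt_mem_nhds (show u < 2 / 5 - r / 2 by linarith)] with a ha
    exact heq a ha.le
  · have h2 : |u - 2 / 5| < μ := by linarith
    have h3 : ∀ᶠ a in 𝓝 u, |a - 2 / 5| < μ :=
      (by fun_prop : Continuous fun a : ℝ => |a - 2 / 5|).continuousAt.eventually_lt
        continuousAt_const h2
    filter_upwards [h3] with a ha
    rw [hc.mid a ha, hc'.mid a ha]
  · filter_upwards [lt_mem_nhds (show 1 - μ < u by linarith)] with a ha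
    rw [hc.high a ha, hc'.high a ha]

/-- a uniform bound for the low parts of the two arcs -/
theorem exists_bound {c c' : ℝ → R4} {r : ℝ} (hr : 0 < r) (hc : Continuous c) (hc' : Continuous c')
    (h : ∀ a ∈ Icc (2 / 5 - 3 / 4 * r) (2 / 5 : ℝ), ‖c a - ax 1‖ < r)
    (h' : ∀ a ∈ Icc (2 / 5 - 3 / 4 * r) (2 / 5 : ℝ), ‖c' a - ax 1‖ < r) :
    ∃ m < r, ∀ a ∈ Icc (2 / 5 - 3 / 4 * r) (2 / 5 : ℝ), ‖c a - ax 1‖ ≤ m ∧ ‖c' a - ax 1‖ ≤ m := by
  have hne : (Icc (2 / 5 - 3 / 4 * r) (2 / 5 : ℝ)).Nonempty := nonempty_Icc.2 (by linarith)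
  obtain ⟨x, hx, hx'⟩ := isCompact_Icc.exists_isMaxOn hne
    (f := fun a => ‖c a - ax 1‖) (by fun_prop : Continuous fun a => ‖c a - ax 1‖).continuousOn
  obtain ⟨y, hy, hy'⟩ := isCompact_Icc.exists_isMaxOn hne
    (f := fun a => ‖c' a - ax 1‖) (by fun_prop : Continuous fun a => ‖c' a - ax 1‖).continuousOn
  refine ⟨max ‖c x - ax 1‖ ‖c' y - ax 1‖, max_lt (h x hx) (h' y hy), fun a ha => ⟨?_, ?_⟩⟩
  · exact le_trans (hx' ha) (le_max_left _ _)
  · exact le_trans (hy' ha) (le_max_right _ _)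

/-- the low part of the family stays near `ax 1` -/
theorem HH_near {c c' : ℝ → R4} {r δ₂ m : ℝ} {v w : R4} (hr : r ≤ 1 / 100) (hδ : 0 < δ₂)
    (hv : ‖v‖ < (r - m) / 2) (hw : ‖w‖ < (r - m) / 2) {a : ℝ}
    (ha : a ∈ Icc (2 / 5 - 3 / 4 * r) (2 / 5 : ℝ)) (h : ‖c a - ax 1‖ ≤ m)
    (h' : ‖c' a - ax 1‖ ≤ m) (t : ℝ) : ‖HH c c' r δ₂ v w (t, a) - ax 1‖ < r := by
  have hτ0 := Real.smoothTransition.nonneg t
  have hτ1 := Real.smoothTransition.le_one t
  set τ := Real.smoothTransition t with hτ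
  have e1 : HH c c' r δ₂ v w (t, a) - ax 1 = ((1 - τ) • (c' a - ax 1) + τ • (c a - ax 1)) +
      (hat 0 1 t * cutf r δ₂ a) • (v + a • w) := by
    simp only [HH, fam, lin, ← hτ]
    module
  have e2 : ‖(1 - τ) • (c' a - ax 1) + τ • (c a - ax 1)‖ ≤ m := by
    calc ‖(1 - τ) • (c' a - ax 1) + τ • (c a - ax 1)‖
        ≤ ‖(1 - τ) • (c' a - ax 1)‖ + ‖τ • (c a - ax 1)‖ := norm_add_le _ _
      _ = (1 - τ) * ‖c' a - ax 1‖ + τ * ‖c a - ax 1‖ := by
          rw [norm_smul, norm_smul, Real.norm_eq_abs, Real.norm_eq_abs, abs_of_nonneg hτ0,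
            abs_of_nonneg (by linarith : (0 : ℝ) ≤ 1 - τ)]
      _ ≤ (1 - τ) * m + τ * m := by
          have := mul_le_mul_of_nonneg_left h' (by linarith : (0 : ℝ) ≤ 1 - τ)
          have := mul_le_mul_of_nonneg_left h hτ0
          linarith
      _ = m := by ring
  have hk0 : 0 ≤ hat 0 1 t * cutf r δ₂ a := mul_nonneg (hat_nonneg _ _ _) (cutf_nonneg _ _ _)
  have hk1 : hat 0 1 t * cutf r δ₂ a ≤ 1 :=
    mul_le_one₀ (hat_le_one _ _ _) (cutf_nonneg _ _ _) (cutf_le_one hδ ha.2)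
  have ha1 : |a| ≤ 1 := by
    rw [abs_le]
    constructor <;> linarith [ha.1, ha.2]
  have e3 : ‖(hat 0 1 t * cutf r δ₂ a) • (v + a • w)‖ ≤ ‖v‖ + ‖w‖ := by
    rw [norm_smul, Real.norm_eq_abs, abs_of_nonneg hk0]
    have e4 : ‖v + a • w‖ ≤ ‖v‖ + ‖w‖ := by
      refine (norm_add_le _ _).trans (add_le_add_right ?_ _)
      rw [norm_smul, Real.norm_eq_abs]
      exact mul_le_of_le_one_left (norm_nonneg _) ha1
    calc (hat 0 1 t * cutf r δ₂ a) * ‖v + a • w‖ ≤ 1 * ‖v + a • w‖ :=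
          mul_le_mul_of_nonneg_right hk1 (norm_nonneg _)
      _ ≤ ‖v‖ + ‖w‖ := by rw [one_mul]; exact e4
  rw [e1]
  refine lt_of_le_of_lt (norm_add_le _ _) ?_
  linarith

theorem finrank_R4 : Module.finrank ℝ R4 = 4 := by
  simp [Module.finrank_prod]

/-- continuity of a germ on the first cuff: the image is closed -/
theorem closed_image {F : R4 → R4} {γ d : ℝ} (br : Br 1 F γ d) : IsClosed (F '' sph 0) := by
  refine ((Pool.Agent.Helper34.BI.CH.cpt_sph 0).image_of_continuousOn ?_).isClosed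
  intro p hp
  exact (ld_iff.1 (br.loc p (Or.inl (Or.inl (Or.inl hp))))).1.self_of_nhds.continuousAt
    |>.continuousWithinAt

end ARL

open ARL in
open Pool.Agent.Helper34.BI (hat hat_nonneg hat_le_one contDiff_hat hat_ne_zero hat_eq_zero fam
  GenPos exists_genPos isolated cst crv StCH) in
/-- **ARL.** -/
theorem m_ARL (hCH : Pool.Agent.Helper34.BI.StCH) : StARL := by
  intro F F' d δ δ' r μ c c' hd hL hμ hμδ hμδ' hc hc' heq
  have hr := hL.pos
  have hrδ := hL.lt
  have hδs := hL.nb.small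
  have hEmb : EmbOn I4 F SP := ⟨fun p hp => hL.nb.br.loc p (Or.inl hp), hL.nb.br.inj⟩
  obtain ⟨charts, hcov, -, -, hcrv, -, -⟩ := hCH F hEmb
  obtain ⟨δ₂, hδ₂, hδ₂r, hδ₂μ⟩ : ∃ δ₂ : ℝ, 0 < δ₂ ∧ δ₂ < r / 4 ∧ δ₂ < μ / 4 := by
    refine ⟨min r μ / 8, by positivity, ?_, ?_⟩
    · have := min_le_left r μ
      linarith
    · have := min_le_right r μ
      linarith
  obtain ⟨m, hm, hmc⟩ := exists_bound hr hc.smooth.continuous hc'.smooth.continuous hc.ball hc'.ball
  have hg : ∀ k : Bool, ContDiff ℝ ∞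
      (fun θ : ℝ => if k then ax 1 else F (crv false θ)) := by
    intro k
    cases k
    · simpa using hcrv false
    · simpa using (contDiff_const : ContDiff ℝ ∞ fun _ : ℝ => ax 1)
  have hfs : ContDiffOn ℝ ∞ (fun y : ℂ => F (cst false y)) univ := charts.smooth false
  obtain ⟨v, w, hv, hw, hgp⟩ := exists_genPos (h := lin c c') (ρ := hat 0 1) (χ := cutf r δ₂)
    finrank_R4 Complex.finrank_real_complex (contDiff_lin hc.smooth hc'.smooth) (contDiff_hat _ _)
    (contDiff_cutf _ _) (ι := Unit) (κ := Bool) (f := fun _ y => F (cst false y))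
    (T := fun _ => univ) (fun _ => isOpen_univ) (fun _ => hfs)
    (g := fun k θ => if k then ax 1 else F (crv false θ)) hg
    (ε := (r - m) / 2) (by linarith)
  set H : ℝ × ℝ → R4 := HH c c' r δ₂ v w with hHdef
  have hgp' : GenPos H (hat 0 1) (cutf r δ₂) (fun (_ : Unit) y => F (cst false y))
      (fun _ => univ) (fun (k : Bool) θ => if k then ax 1 else F (crv false θ)) := hgp
  have hHs : ContDiff ℝ ∞ H := contDiff_HH hc.smooth hc'.smooth r δ₂ v w
  have hleft : ∀ t a, t ≤ 0 → H (t, a) = c' a := HH_left c c' r δ₂ v w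
  have hright : ∀ t a, 1 ≤ t → H (t, a) = c a := HH_right c c' r δ₂ v w
  have hag : ∀ u, cutf r δ₂ u = 0 → c =ᶠ[𝓝 u] c' := fun u hu =>
    agree hr (by linarith) hc hc' heq hu
  have hfroz : ∀ t u, cutf r δ₂ u = 0 → H (t, u) = c' u := fun t u hu =>
    HH_frozen v w t hu (hag u hu).self_of_nhds
  have hρt : ∀ t : ℝ, 0 < t → t < 1 → hat 0 1 t ≠ 0 := fun t h1 h2 => hat_ne_zero.2 ⟨h1, h2⟩
  have hcases : ∀ t : ℝ, t ≤ 0 ∨ 1 ≤ t ∨ (0 < t ∧ t < 1) := by
    intro t
    rcases le_or_gt t 0 with h1 | h1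
    · exact Or.inl h1
    · rcases le_or_gt 1 t with h2 | h2
      · exact Or.inr (Or.inl h2)
      · exact Or.inr (Or.inr ⟨h1, h2⟩)
  have hinj : ∀ t, InjOn (fun a => H (t, a)) (Ico (1 / 5) 1) := by
    intro t u hu u' hu' he
    simp only at he
    rcases hcases t with h1 | h1 | h1
    · rw [hleft t u h1, hleft t u' h1] at he
      exact hc'.inj hu hu' he
    · rw [hright t u h1, hright t u' h1] at he
      exact hc.inj hu hu' he
    · by_cases h2 : cutf r δ₂ u = 0
      · by_cases h3 : cutf r δ₂ u' = 0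
        · rw [hfroz t u h2, hfroz t u' h3] at he
          exact hc'.inj hu hu' he
        · by_contra hne
          exact hgp'.inj t u u' (hρt t h1.1 h1.2) hne (Or.inr h3) he
      · by_contra hne
        exact hgp'.inj t u u' (hρt t h1.1 h1.2) hne (Or.inl h2) he
  have hne1 : ∀ t, ∀ a ∈ Ico (1 / 5 : ℝ) 1, H (t, a) = ax 1 → a = 2 / 5 := by
    intro t a ha he
    rcases hcases t with h1 | h1 | h1
    · rw [hleft t a h1] at he
      exact hc'.ne a ha he
    · rw [hright t a h1] at he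
      exact hc.ne a ha he
    · by_cases h2 : cutf r δ₂ a = 0
      · rw [hfroz t a h2] at he
        exact hc'.ne a ha he
      · exact absurd he (by simpa using hgp'.curve t a true 0 (hρt t h1.1 h1.2) h2)
  have himm : ∀ t, ∀ a ∈ Icc (1 / 5 : ℝ) 1, fderiv ℝ H (t, a) (0, 1) ≠ 0 := by
    intro t u hu
    have hder := HH_der hc.smooth hc'.smooth r δ₂ v w t u
    rcases hcases t with h1 | h1 | h1
    · have e : (fun a => HH c c' r δ₂ v w (t, a)) = c' := funext fun a => hleft t a h1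
      rw [← hder.deriv, e]
      exact hc'.imm u hu
    · have e : (fun a => HH c c' r δ₂ v w (t, a)) = c := funext fun a => hright t a h1
      rw [← hder.deriv, e]
      exact hc.imm u hu
    · by_cases h2 : cutf r δ₂ u = 0
      · rw [hHdef, HH_der_frozen hc.smooth hc'.smooth v w t h2 (hag u h2)]
        exact hc'.imm u hu
      · exact hgp'.imm t u (hρt t h1.1 h1.2) h2
  have hact : ∀ t, ∀ a ∈ Ioo (1 / 5 : ℝ) 1, H (t, a) ∈ F '' sph 0 →
      (0 < t ∧ t < 1) ∧ cutf r δ₂ a ≠ 0 := by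
    intro t a ha hmem
    rcases hcases t with h1 | h1 | h1
    · rw [hleft t a h1] at hmem
      exact absurd hmem (hc'.off a ha)
    · rw [hright t a h1] at hmem
      exact absurd hmem (hc.off a ha)
    · refine ⟨h1, fun h2 => ?_⟩
      rw [hfroz t a h2] at hmem
      exact hc'.off a ha hmem
  have hlate : ∀ t, ∀ a ∈ Ioo (1 / 5 : ℝ) 1, H (t, a) ∈ F '' sph 0 →
      0 < t ∧ t < 1 ∧ 2 / 5 < a := by
    intro t a ha hmem
    obtain ⟨h1, h2⟩ := hact t a ha hmem
    refine ⟨h1.1, h1.2, ?_⟩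
    by_contra hcon
    rw [not_lt] at hcon
    rcases le_or_gt a (2 / 5 - 3 / 4 * r) with h3 | h3
    · exact h2 (cutf_of_low hr hδ₂ h3)
    · have h4 : a ∈ Icc (2 / 5 - 3 / 4 * r) (2 / 5 : ℝ) := ⟨h3.le, hcon⟩
      have h5 := HH_near (c := c) (c' := c') (by linarith) hδ₂ hv hw h4 (hmc a h4).1 (hmc a h4).2 t
      obtain ⟨p, hp, hpe⟩ := hmem
      have h6 := hL.far p hp
      rw [hpe] at h6
      exact absurd h5 (not_lt.2 h6.le)
  have hfoot : ∀ t, H (t, 1 / 5) = F (1 / 2, 1 / 5, 0) := by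
    intro t
    have h1 : cutf r δ₂ (1 / 5) = 0 := cutf_of_low hr hδ₂ (by linarith)
    rw [hfroz t _ h1, ← (hag _ h1).self_of_nhds]
    exact hc.core (1 / 5) ⟨le_rfl, by norm_num⟩
  have hcover : ∀ t, ∀ a ∈ Ioo (1 / 5 : ℝ) 1, H (t, a) ∈ F '' sph 0 →
      ∃ y, F (cst false y) = H (t, a) := by
    intro t a ha hmem
    obtain ⟨p, hp, hpe⟩ := hmem
    have h1 : p ≠ (1 / 2, 1 / 5, 0) := by
      intro h2
      rw [h2, ← hfoot t] at hpe
      have := hinj t ⟨le_rfl, by norm_num⟩ ⟨ha.1.le, ha.2⟩ hpe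
      exact absurd this ha.1.ne
    obtain ⟨y, hy⟩ := hcov p hp h1
    exact ⟨y, by rw [hy, hpe]⟩
  have hcmem : ∀ y, F (cst false y) ∈ F '' sph 0 := fun y =>
    ⟨_, Pool.Agent.Helper34.BI.CH.cst_mem false y, rfl⟩
  have htrans : ∀ t, ∀ a ∈ Ioo (1 / 5 : ℝ) 1, ∀ y : ℂ, H (t, a) = F (cst false y) →
      ∀ ζ η, fderiv ℝ H (t, a) ζ = fderiv ℝ (fun y => F (cst false y)) y η → ζ = 0 ∧ η = 0 := by
    intro t a ha y he
    obtain ⟨h1, h2⟩ := hact t a ha (he ▸ hcmem y)
    exact hgp'.trans t a () y (hρt t h1.1 h1.2) h2 (mem_univ _) he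
  have hsingle : ∀ t, ∀ a ∈ Ioo (1 / 5 : ℝ) 1, ∀ a' ∈ Ioo (1 / 5 : ℝ) 1, H (t, a) ∈ F '' sph 0 →
      H (t, a') ∈ F '' sph 0 → a = a' := by
    intro t a ha a' ha' hm1 hm2
    obtain ⟨h1, h2⟩ := hact t a ha hm1
    obtain ⟨-, h3⟩ := hact t a' ha' hm2
    obtain ⟨y, hy⟩ := hcover t a ha hm1
    obtain ⟨y', hy'⟩ := hcover t a' ha' hm2
    by_contra hne
    exact hgp'.cross t a a' () () y y' (hρt t h1.1 h1.2) hne h2 h3 (mem_univ _) (mem_univ _)
      hy.symm hy'.symm
  have havoid : ∀ t, ∀ a ∈ Ioo (1 / 5 : ℝ) 1, H (t, a) ∈ F '' sph 0 →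
      ∀ θ, H (t, a) ≠ F (crv false θ) := by
    intro t a ha hmem θ
    obtain ⟨h1, h2⟩ := hact t a ha hmem
    simpa using hgp'.curve t a false θ (hρt t h1.1 h1.2) h2
  have hfin : {x : ℝ × ℝ | x.2 ∈ Ioo (1 / 5 : ℝ) 1 ∧ H x ∈ F '' sph 0}.Finite := by
    by_contra hinf
    have hinf' : Set.Infinite {x : ℝ × ℝ | x.2 ∈ Ioo (1 / 5 : ℝ) 1 ∧ H x ∈ F '' sph 0} := hinf
    have hsub : {x : ℝ × ℝ | x.2 ∈ Ioo (1 / 5 : ℝ) 1 ∧ H x ∈ F '' sph 0} ⊆
        Icc (0 : ℝ) 1 ×ˢ Icc (2 / 5 : ℝ) (1 - δ₂) := by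
      rintro ⟨t, u⟩ ⟨hu, hmem⟩
      obtain ⟨h1, h2, h3⟩ := hlate t u hu hmem
      obtain ⟨-, h4⟩ := hact t u hu hmem
      refine ⟨⟨h1.le, h2.le⟩, h3.le, ?_⟩
      by_contra hcon
      exact h4 (cutf_of_high (by linarith) (not_le.1 hcon).le)
    obtain ⟨x, hx, hacc⟩ := hinf'.exists_accPt_of_subset_isCompact
      (isCompact_Icc.prod isCompact_Icc) hsub
    obtain ⟨t, u⟩ := x
    have hu : u ∈ Ioo (1 / 5 : ℝ) 1 := ⟨by linarith [hx.2.1], by linarith [hx.2.2]⟩
    have hmem : H (t, u) ∈ F '' sph 0 := by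
      have hcl : IsClosed (H ⁻¹' (F '' sph 0)) := (closed_image hL.nb.br).preimage hHs.continuous
      have h1 : (t, u) ∈ closure (H ⁻¹' (F '' sph 0)) := by
        rw [mem_closure_iff_clusterPt]
        refine hacc.clusterPt.mono ?_
        rw [Filter.principal_mono]
        exact fun x hx => hx.2
      rw [hcl.closure_eq] at h1
      exact h1
    obtain ⟨y, he⟩ := hcover t u hu hmem
    obtain ⟨U, hU, V, hV, hUV⟩ := isolated finrank_R4 Complex.finrank_real_complex hHs
      isOpen_univ hfs (mem_univ y) he.symm (htrans t u hu y he.symm)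
    obtain ⟨W, hW, hAW⟩ := charts.nhds false y (mem_univ _) V hV
    rw [he] at hW
    have hW' : H ⁻¹' W ∈ 𝓝 (t, u) := hHs.continuous.continuousAt hW
    rw [accPt_iff_nhds] at hacc
    obtain ⟨x', ⟨hx'1, hx'2⟩, hne⟩ := hacc (U ∩ H ⁻¹' W) (inter_mem hU hW')
    have hx'3 : H x' ∈ F '' (sph 0 ∪ sph 1) := image_mono subset_union_left hx'2.2
    obtain ⟨y', hy', he'⟩ := hAW ⟨hx'3, hx'1.2⟩
    exact hne (hUV x' hx'1.1 y' hy' he'.symm)
  refine ⟨δ₂, H, by linarith, by linarith, ?_⟩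
  exact {
    pos := hδ₂
    small := hδ₂r
    smooth := hHs
    left := fun t a ht => by rw [hleft t a ht, hleft 0 a le_rfl]
    right := fun t a ht => by rw [hright t a ht, hright 1 a le_rfl]
    start := fun a ha => by rw [hleft 0 a le_rfl]; exact hc'.core a ha
    stop := fun a ha => by rw [hright 1 a le_rfl]; exact hc.core a ha
    low := fun t a ha => by
      rw [hfroz t a (cutf_of_low hr hδ₂ ha), hfroz 0 a (cutf_of_low hr hδ₂ ha)]
    mid := fun t a ha => by
      rw [hfroz t a (cutf_of_mid ha)]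
      exact hc'.mid a (by linarith)
    high := fun t a ha => by
      rw [hfroz t a (cutf_of_high (by linarith) ha)]
      exact hc'.high a (by linarith)
    inj := hinj
    ne := hne1
    imm := himm
    finite := hfin
    late := hlate
    single := hsingle
    trans := htrans
    avoid := havoid }

end Pool.Agent.Helper70.BI


end

/-! ## Helper34.BI.M_RC -/

section

/-!
# Project BI, module RC: the contraction
-/

set_option autoImplicit false

open Module Set Filter Topology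
open scoped ContDiff Manifold ComplexConjugate
open Pool.Agent.Helper65.Barb Pool.Agent.Helper18.BI Pool.Agent.Helper27.BI

namespace Pool.Agent.Helper34.BI

private theorem nsq_eq_RC (x : ℝ × ℂ) : nsq x = x.1 ^ 2 + x.2.re ^ 2 + x.2.im ^ 2 := rfl

private theorem nsq_contDiff_RC : ContDiff ℝ ∞ (fun p : R4 => nsq p.2) := by
  have h1 : ContDiff ℝ ∞ (fun p : R4 => p.2.1) := contDiff_fst.comp contDiff_snd
  have h2 : ContDiff ℝ ∞ (fun p : R4 => p.2.2.re) :=
    Complex.reCLM.contDiff.comp (contDiff_snd.comp contDiff_snd)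
  have h3 : ContDiff ℝ ∞ (fun p : R4 => p.2.2.im) :=
    Complex.imCLM.contDiff.comp (contDiff_snd.comp contDiff_snd)
  exact ((h1.pow 2).add (h2.pow 2)).add (h3.pow 2)

private theorem cfac_contDiff_RC : ContDiff ℝ ∞ (fun q : ℝ × ℝ => cfac q.1 q.2) := by
  unfold cfac
  exact contDiff_fst.add ((contDiff_const.sub contDiff_fst).mul
    (contDiff_step.comp ((contDiff_snd.sub contDiff_const).div_const _)))

private theorem cl_contDiff_RC : ContDiff ℝ ∞ (fun q : ℝ × R4 => cl q.1 q.2) := by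
  have h1 : ContDiff ℝ ∞ (fun q : ℝ × R4 => cfac q.1 (nsq q.2.2)) :=
    cfac_contDiff_RC.comp (contDiff_fst.prodMk (nsq_contDiff_RC.comp contDiff_snd))
  exact (contDiff_fst.comp contDiff_snd).prodMk (h1.smul (contDiff_snd.comp contDiff_snd))

private theorem step_mem_RC (s : ℝ) : 0 ≤ step s ∧ step s ≤ 1 :=
  ⟨Real.smoothTransition.nonneg s, Real.smoothTransition.le_one s⟩

private theorem cfac_mono_RC {lam : ℝ} (h : lam ≤ 1) : Monotone (cfac lam) := by
  intro a b hab
  unfold cfac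
  have h1 : step ((a - 1 / 20) / (1 / 25)) ≤ step ((b - 1 / 20) / (1 / 25)) :=
    Real.smoothTransition.monotone (by
      apply div_le_div_of_nonneg_right _ (by norm_num)
      linarith)
  nlinarith

private theorem cfac_ge_RC {lam : ℝ} (h : lam ≤ 1) (q : ℝ) : lam ≤ cfac lam q := by
  unfold cfac
  have := (step_mem_RC ((q - 1 / 20) / (1 / 25))).1
  nlinarith

private theorem cfac_le_RC {lam : ℝ} (h : lam ≤ 1) (q : ℝ) : cfac lam q ≤ 1 := by
  unfold cfac
  have := (step_mem_RC ((q - 1 / 20) / (1 / 25))).2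
  nlinarith

private theorem nsq_smul_RC (l : ℝ) (x : ℝ × ℂ) : nsq (l • x) = l ^ 2 * nsq x := by
  rw [nsq_eq_RC, nsq_eq_RC]
  simp only [Prod.smul_fst, Prod.smul_snd, smul_eq_mul, Complex.real_smul, Complex.mul_re,
    Complex.mul_im, Complex.ofReal_re, Complex.ofReal_im]
  ring

private theorem nsq_nonneg_RC (x : ℝ × ℂ) : 0 ≤ nsq x := by
  rw [nsq_eq_RC]
  positivity

private theorem smono_RC {lam : ℝ} (h0 : 0 < lam) (h1 : lam ≤ 1) {a b : ℝ} (ha : 0 ≤ a)
    (hab : a < b) : cfac lam a ^ 2 * a < cfac lam b ^ 2 * b := by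
  have h2 := cfac_mono_RC h1 hab.le
  have h3 := cfac_ge_RC h1 a
  have h4 : cfac lam a ^ 2 ≤ cfac lam b ^ 2 := by nlinarith
  have h5 : 0 < cfac lam b ^ 2 := by
    have : 0 < cfac lam b := by linarith
    positivity
  nlinarith

private theorem inj_RC {lam : ℝ} (h0 : 0 < lam) (h1 : lam ≤ 1) : Function.Injective (cl lam) := by
  intro p p' h
  have e1 : (cl lam p).1 = (cl lam p').1 := congrArg Prod.fst h
  have e2 : (cl lam p).2 = (cl lam p').2 := congrArg Prod.snd h
  change p.1 = p'.1 at e1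
  change cfac lam (nsq p.2) • p.2 = cfac lam (nsq p'.2) • p'.2 at e2
  have e3 : nsq p.2 = nsq p'.2 := by
    have h2 := congrArg nsq e2
    rw [nsq_smul_RC, nsq_smul_RC] at h2
    rcases lt_trichotomy (nsq p.2) (nsq p'.2) with h3 | h3 | h3
    · exact absurd h2 (smono_RC h0 h1 (nsq_nonneg_RC _) h3).ne
    · exact h3
    · exact absurd h2 (smono_RC h0 h1 (nsq_nonneg_RC _) h3).ne'
  rw [e3] at e2
  have h4 : cfac lam (nsq p'.2) ≠ 0 := by
    have := cfac_ge_RC h1 (nsq p'.2)
    intro h5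
    linarith
  exact Prod.ext e1 (smul_right_injective _ h4 e2)

private theorem line_deriv_RC (x y : ℝ) : HasDerivAt (fun t : ℝ => x + t * y) y 0 := by
  have := ((hasDerivAt_id (0 : ℝ)).mul_const y).const_add x
  simpa using this

private theorem fderiv_RC {lam : ℝ} (h0 : 0 < lam) (h1 : lam ≤ 1) (p v : R4)
    (hv : fderiv ℝ (cl lam) p v = 0) : v = 0 := by
  have hcd : ContDiff ℝ ∞ (cl lam) := cl_contDiff_RC.comp (contDiff_const.prodMk contDiff_id)
  have hfd : ContDiff ℝ ∞ (cfac lam) := cfac_contDiff_RC.comp (contDiff_const.prodMk contDiff_id)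
  have hd : DifferentiableAt ℝ (cl lam) p := hcd.differentiable (by simp) p
  obtain ⟨s, a, w⟩ := p
  obtain ⟨σ, b, z⟩ := v
  have hline : HasDerivAt (fun t : ℝ => ((s, a, w) : R4) + t • ((σ, b, z) : R4)) (σ, b, z) 0 := by
    have := ((hasDerivAt_id (0 : ℝ)).smul_const ((σ, b, z) : R4)).const_add ((s, a, w) : R4)
    simpa using this
  have hline0 : ((s, a, w) : R4) + (0 : ℝ) • ((σ, b, z) : R4) = (s, a, w) := by
    rw [zero_smul, add_zero]
  have hc : HasDerivAt (fun t : ℝ => cl lam ((s, a, w) + t • (σ, b, z))) 0 0 := by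
    have h2 : HasFDerivAt (cl lam) (fderiv ℝ (cl lam) (s, a, w))
        (((s, a, w) : R4) + (0 : ℝ) • ((σ, b, z) : R4)) := by
      rw [hline0]
      exact hd.hasFDerivAt
    have h3 := h2.comp_hasDerivAt (0 : ℝ) hline
    rw [hv] at h3
    exact h3
  -- the squared radius along the line
  set R : ℝ → ℝ := fun t => (a + t * b) ^ 2 + (w.re + t * z.re) ^ 2 + (w.im + t * z.im) ^ 2 with hR
  set D : ℝ := 2 * (a * b + w.re * z.re + w.im * z.im) with hD
  have hRd : HasDerivAt R D 0 := by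
    have h3 := (((line_deriv_RC a b).pow 2).add ((line_deriv_RC w.re z.re).pow 2)).add
      ((line_deriv_RC w.im z.im).pow 2)
    refine h3.congr_deriv ?_
    simp only [zero_mul, add_zero, hD]
    ring
  set L : ℝ := deriv (cfac lam) (R 0) with hL
  have hLd : HasDerivAt (cfac lam) L (R 0) := (hfd.differentiable (by simp) _).hasDerivAt
  have hL0 : 0 ≤ L := (cfac_mono_RC h1).deriv_nonneg
  set f : ℝ → ℝ := fun t => cfac lam (R t) with hf
  have hfd' : HasDerivAt f (L * D) 0 := hLd.comp (0 : ℝ) hRd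
  have hf0 : 0 < f 0 := lt_of_lt_of_le h0 (cfac_ge_RC h1 _)
  have e1 : ∀ t : ℝ, cl lam ((s, a, w) + t • (σ, b, z)) =
      (s + t * σ, f t * (a + t * b), ((f t : ℝ) : ℂ) * (w + t * z)) := by
    intro t
    have h2 : nsq (((s, a, w) : R4) + t • ((σ, b, z) : R4)).2 = R t := by
      rw [nsq_eq_RC]
      simp [hR]
    unfold cl
    rw [h2]
    refine Prod.ext ?_ (Prod.ext ?_ ?_)
    · simp
    · simp [hf]
    · simp [hf]
      ring
  simp only [e1] at hc
  have hσ : σ = 0 := by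
    have h2 := (ContinuousLinearMap.fst ℝ ℝ (ℝ × ℂ)).hasFDerivAt.comp_hasDerivAt (0 : ℝ) hc
    have h5 := (line_deriv_RC s σ).unique h2
    simpa using h5
  have hb : L * D * a + f 0 * b = 0 := by
    have h2 := ((ContinuousLinearMap.fst ℝ ℝ ℂ).comp
      (ContinuousLinearMap.snd ℝ ℝ (ℝ × ℂ))).hasFDerivAt.comp_hasDerivAt (0 : ℝ) hc
    have h3 := hfd'.mul (line_deriv_RC a b)
    have h4 := h3.unique h2
    simpa using h4
  have hre : L * D * w.re + f 0 * z.re = 0 := by
    have h2 := (Complex.reCLM.comp ((ContinuousLinearMap.snd ℝ ℝ ℂ).comp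
      (ContinuousLinearMap.snd ℝ ℝ (ℝ × ℂ)))).hasFDerivAt.comp_hasDerivAt (0 : ℝ) hc
    have h3 := hfd'.mul (line_deriv_RC w.re z.re)
    have e2 : ((Complex.reCLM.comp ((ContinuousLinearMap.snd ℝ ℝ ℂ).comp
        (ContinuousLinearMap.snd ℝ ℝ (ℝ × ℂ)))) ∘ fun t : ℝ =>
        ((s + t * σ, f t * (a + t * b), ((f t : ℝ) : ℂ) * (w + t * z)) : R4)) =
        (f * fun t : ℝ => w.re + t * z.re) := by
      ext t
      simp
    rw [e2] at h2
    have h4 := h3.unique h2
    simpa using h4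
  have him : L * D * w.im + f 0 * z.im = 0 := by
    have h2 := (Complex.imCLM.comp ((ContinuousLinearMap.snd ℝ ℝ ℂ).comp
      (ContinuousLinearMap.snd ℝ ℝ (ℝ × ℂ)))).hasFDerivAt.comp_hasDerivAt (0 : ℝ) hc
    have h3 := hfd'.mul (line_deriv_RC w.im z.im)
    have e2 : ((Complex.imCLM.comp ((ContinuousLinearMap.snd ℝ ℝ ℂ).comp
        (ContinuousLinearMap.snd ℝ ℝ (ℝ × ℂ)))) ∘ fun t : ℝ =>
        ((s + t * σ, f t * (a + t * b), ((f t : ℝ) : ℂ) * (w + t * z)) : R4)) =
        (f * fun t : ℝ => w.im + t * z.im) := by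
      ext t
      simp
    rw [e2] at h2
    have h4 := h3.unique h2
    simpa using h4
  have hR0 : 0 ≤ R 0 := by
    simp only [hR]
    positivity
  have hD0 : D = 0 := by
    have h3 : (L * D * a + f 0 * b) * a + (L * D * w.re + f 0 * z.re) * w.re +
        (L * D * w.im + f 0 * z.im) * w.im = (L * R 0 + f 0 / 2) * D := by
      simp only [hR, hD]
      ring
    rw [hb, hre, him] at h3
    have h4 : 0 < L * R 0 + f 0 / 2 := by
      have := mul_nonneg hL0 hR0
      linarith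
    rcases mul_eq_zero.1 (show (L * R 0 + f 0 / 2) * D = 0 by rw [← h3]; ring) with h5 | h5
    · exact absurd h5 h4.ne'
    · exact h5
  have key : ∀ x y : ℝ, L * D * x + f 0 * y = 0 → y = 0 := by
    intro x y h
    rw [hD0, mul_zero, zero_mul, zero_add] at h
    rcases mul_eq_zero.1 h with h3 | h3
    · exact absurd h3 hf0.ne'
    · exact h3
  have hb0 := key _ _ hb
  have hz : z = 0 := Complex.ext (key _ _ hre) (key _ _ him)
  rw [hσ, hb0, hz]
  rfl

private theorem loc_RC {lam : ℝ} (h0 : 0 < lam) (h1 : lam ≤ 1) (p : R4) :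
    IsLocalDiffeomorphAt 𝓘(ℝ, R4) 𝓘(ℝ, R4) ∞ (cl lam) p := by
  have hcd : ContDiff ℝ ∞ (cl lam) := cl_contDiff_RC.comp (contDiff_const.prodMk contDiff_id)
  refine isLocalDiffeomorphAt_of_injective rfl (Eventually.of_forall fun q => hcd.contDiffAt) ?_
  rw [injective_iff_map_eq_zero]
  exact fun v hv => fderiv_RC h0 h1 p v hv

theorem m_RC : StRC := by
  refine ⟨cl_contDiff_RC, ?_, ?_⟩
  · intro p
    unfold cl cfac
    simp
  · rintro lam ⟨h0, h1⟩
    refine ⟨⟨fun p _ => loc_RC h0 h1 p, (inj_RC h0 h1).injOn⟩, fun p => rfl, ?_, ?_, ?_, ?_, ?_, ?_⟩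
    · intro p hp
      unfold cl cfac
      rw [step_of_nonpos (div_nonpos_of_nonpos_of_nonneg (by linarith) (by norm_num)), mul_zero,
        add_zero]
    · intro p hp
      unfold cl cfac
      rw [step_of_one_le (by rw [le_div_iff₀ (by norm_num)]; linarith)]
      simp
    · intro p hp
      change (cfac lam (nsq p.2) • p.2).2 = 0
      rw [Prod.smul_snd, hp, smul_zero]
    · intro p
      change nsq (cfac lam (nsq p.2) • p.2) ≤ nsq p.2
      rw [nsq_smul_RC]
      have h2 := cfac_ge_RC h1 (nsq p.2)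
      have h3 := cfac_le_RC h1 (nsq p.2)
      have h4 := nsq_nonneg_RC p.2
      have h5 : cfac lam (nsq p.2) ^ 2 ≤ 1 := by nlinarith
      nlinarith
    · rintro p ⟨-, h2, h3, -⟩
      change 0 < (cfac lam (nsq p.2) • p.2).1 ∧ (cfac lam (nsq p.2) • p.2).1 ≤ 4 / 5
      rw [Prod.smul_fst, smul_eq_mul]
      have h4 := cfac_ge_RC h1 (nsq p.2)
      have h5 := cfac_le_RC h1 (nsq p.2)
      constructor
      · exact mul_pos (by linarith) (by linarith)
      · nlinarith
    · intro p hp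
      change 0 < nsq (cfac lam (nsq p.2) • p.2)
      rw [nsq_smul_RC]
      have h4 := cfac_ge_RC h1 (nsq p.2)
      have h5 : 0 < cfac lam (nsq p.2) := by linarith
      positivity

end Pool.Agent.Helper34.BI


end

/-! ## Helper70.BI.M_CL -/

section

/-!
# Project BI, module CL: the contraction around the points `(1/2, c, 0)`
-/

set_option autoImplicit false

open scoped Manifold ContDiff Topology ComplexConjugate
open Set Filter Pool.Agent.Helper65.Barb Pool.Agent.Helper18.BI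

namespace Pool.Agent.Helper70.BI

open Pool.Agent.Helper34.BI (cfac cl m_RC)

namespace CL

theorem cfac_contDiff : ContDiff ℝ ∞ (fun q : ℝ × ℝ => cfac q.1 q.2) := by
  unfold cfac
  exact contDiff_fst.add ((contDiff_const.sub contDiff_fst).mul
    (contDiff_step.comp ((contDiff_snd.sub contDiff_const).div_const _)))

theorem cfac_mono {lam : ℝ} (h : lam ≤ 1) : Monotone (cfac lam) := by
  intro a b hab
  unfold cfac
  have h1 : step ((a - 1 / 20) / (1 / 25)) ≤ step ((b - 1 / 20) / (1 / 25)) :=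
    Real.smoothTransition.monotone (by
      apply div_le_div_of_nonneg_right _ (by norm_num)
      linarith)
  nlinarith

theorem cfac_ge {lam : ℝ} (h : lam ≤ 1) (q : ℝ) : lam ≤ cfac lam q := by
  unfold cfac
  have : 0 ≤ step ((q - 1 / 20) / (1 / 25)) := Real.smoothTransition.nonneg _
  nlinarith

/-- the translation vector -/
noncomputable def tv (c : ℝ) : R4 := (0, pc c)

theorem clc_eq (c lam : ℝ) (p : R4) : clc c lam p = cl lam (p - tv c) + tv c := by
  have h1 : nsq (p - tv c).2 = rsq c p := by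
    unfold rsq tv pc nsq
    simp
  unfold clc cl
  rw [h1]
  refine Prod.ext ?_ ?_
  · simp [tv]
  · change pc c + cfac lam (rsq c p) • (p.2 - pc c) = cfac lam (rsq c p) • (p.2 - pc c) + pc c
    rw [add_comm]

theorem rsq_eq (c : ℝ) (p : R4) : rsq c p = nsq (p - tv c).2 := by
  unfold rsq tv pc nsq
  simp

theorem ld_add (v p : R4) : LD (fun q => q + v) p := by
  rw [ld_iff]
  refine ⟨Eventually.of_forall fun q => (contDiff_id.add contDiff_const).contDiffAt, ?_⟩
  have h : fderiv ℝ (fun q : R4 => q + v) p = ContinuousLinearMap.id ℝ R4 := by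
    have h1 : HasFDerivAt (fun q : R4 => q + v) (ContinuousLinearMap.id ℝ R4) p :=
      (hasFDerivAt_id p).add_const v
    exact h1.fderiv
  rw [h]
  exact fun a b hab => hab

end CL

open CL

theorem m_CL : StCL := by
  intro c _
  obtain ⟨hsm, hone, hrc⟩ := m_RC
  refine ⟨?_, ?_, ?_⟩
  · have h1 : ContDiff ℝ ∞ (fun q : ℝ × R4 => (q.1, q.2 - tv c)) :=
      contDiff_fst.prodMk (contDiff_snd.sub contDiff_const)
    have h2 : ContDiff ℝ ∞ (fun q : ℝ × R4 => cl q.1 (q.2 - tv c) + tv c) :=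
      (hsm.comp h1).add contDiff_const
    have e : (fun q : ℝ × R4 => clc c q.1 q.2) =
        fun q : ℝ × R4 => cl q.1 (q.2 - tv c) + tv c := funext fun q => clc_eq c q.1 q.2
    rw [e]
    exact h2
  · intro p
    rw [clc_eq, hone, sub_add_cancel]
  · intro lam hlam
    obtain ⟨⟨hld, hinj⟩, h1, hin, hout, -, hle, -, -⟩ := hrc lam hlam
    refine ⟨⟨?_, ?_⟩, fun p => rfl, ?_, ?_, ?_, ?_, ?_⟩
    · intro p _
      have e : (clc c lam) = (fun q => q + tv c) ∘ (cl lam ∘ fun q => q + (- tv c)) := by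
        funext q
        rw [clc_eq, sub_eq_add_neg]
        rfl
      rw [e]
      exact ld_comp (ld_comp (ld_add _ _) (hld _ (mem_univ _))) (ld_add _ _)
    · intro p _ q _ h
      rw [clc_eq, clc_eq] at h
      have h2 := hinj (mem_univ _) (mem_univ _) (add_right_cancel h)
      exact sub_left_injective h2
    · intro p hp
      rw [rsq_eq] at hp
      rw [clc_eq, hin _ hp]
      refine Prod.ext ?_ ?_
      · simp [tv]
      · change lam • (p.2 - pc c) + pc c = pc c + lam • (p.2 - pc c)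
        rw [add_comm]
    · intro p hp
      rw [rsq_eq] at hp
      rw [clc_eq, hout _ hp, sub_add_cancel]
    · intro a
      have h2 : rsq c (ax a) = (a - c) ^ 2 := by
        unfold rsq ax nsq
        simp
      unfold clc
      rw [h2]
      refine Prod.ext rfl ?_
      change pc c + cfac lam ((a - c) ^ 2) • (((a, 0) : ℝ × ℂ) - pc c) =
        (c + cfac lam ((a - c) ^ 2) * (a - c), 0)
      unfold pc
      refine Prod.ext ?_ ?_
      · simp
      · simp
    · intro p
      rw [rsq_eq, rsq_eq, clc_eq, add_sub_cancel_right]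
      exact hle _
    · intro a
      have hfd : ContDiff ℝ ∞ (cfac lam) :=
        cfac_contDiff.comp (contDiff_const.prodMk contDiff_id)
      set L : ℝ := deriv (cfac lam) ((a - c) ^ 2) with hL
      have hLd : HasDerivAt (cfac lam) L ((a - c) ^ 2) :=
        (hfd.differentiable (by simp) _).hasDerivAt
      have hL0 : 0 ≤ L := (cfac_mono hlam.2).deriv_nonneg
      have h2 : HasDerivAt (fun a : ℝ => a - c) 1 a := (hasDerivAt_id a).sub_const c
      have h3 : HasDerivAt (fun a : ℝ => (a - c) ^ 2) (2 * (a - c)) a := by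
        have h9 := h2.mul h2
        refine (h9.congr_deriv (by ring)).congr_of_eventuallyEq ?_
        exact Eventually.of_forall fun x => by
          simp only [Pi.mul_apply]; ring
      have h4 : HasDerivAt (fun a : ℝ => cfac lam ((a - c) ^ 2)) (L * (2 * (a - c))) a :=
        HasDerivAt.comp (h₂ := cfac lam) (h := fun a : ℝ => (a - c) ^ 2) a hLd h3
      have h5 := (h4.mul h2).const_add c
      have h6 : deriv (fun a => c + cfac lam ((a - c) ^ 2) * (a - c)) a =
          L * (2 * (a - c)) * (a - c) + cfac lam ((a - c) ^ 2) * 1 := h5.deriv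
      rw [h6]
      have h7 := cfac_ge hlam.2 ((a - c) ^ 2)
      have h8 : 0 ≤ L * (2 * (a - c)) * (a - c) := by
        have : L * (2 * (a - c)) * (a - c) = 2 * L * (a - c) ^ 2 := by ring
        rw [this]; positivity
      have := hlam.1
      linarith

end Pool.Agent.Helper70.BI


end

/-! ## Helper70.BI.M_NF2 -/

section

/-!
# Project BI, part (E): module NF2 (reparametrization of a germ in normal form)
-/

set_option autoImplicit false

open scoped Manifold ContDiff Topology ComplexConjugate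
open Set Filter Pool.Agent.Helper65.Barb Pool.Agent.Helper18.BI

namespace Pool.Agent.Helper70.BI

namespace NF2

/-- the axis has velocity `(0, (1, 0))` -/
private theorem hasDerivAt_ax (a : ℝ) : HasDerivAt ax ((0 : ℝ), ((1 : ℝ), (0 : ℂ))) a := by
  unfold ax
  exact (hasDerivAt_const a (1 / 2 : ℝ)).prodMk ((hasDerivAt_id a).prodMk
    (hasDerivAt_const a (0 : ℂ)))

private theorem sph_subset_flat (c : ℝ) : sph c ⊆ flat c := fun _ hp => ⟨hp.1, hp.2.le⟩

private theorem ax_mem_flat (c : ℝ) : ax c ∈ flat c := by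
  refine ⟨rfl, ?_⟩
  simp [rsq, nsq, ax]

end NF2

/-- **MODULE NF2.** -/
theorem m_NF2 (hRG : StRG) : StNF2 := by
  intro c F γ γ' e τ m hc he hB hid hτ hst hm hγ' hmτ
  obtain ⟨h1, h2, h3, h4, h5, h6⟩ := hRG m hm
  have hF : EmbOn I4 F SP := ⟨fun p hp => hB.loc p (Or.inl hp), hB.inj⟩
  obtain ⟨hG, -⟩ := h6 F hF
  have hc' : (1 - c = 0 ∨ 1 - c = 1) := by
    rcases hc with rfl | rfl
    · right; norm_num
    · left; norm_num
  -- `F'` near flat points
  have hfl : ∀ d : ℝ, (d = 0 ∨ d = 1) → ∀ p ∈ flat d, F =ᶠ[𝓝 p] fun p => F (repm m p) := by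
    intro d hd p hp
    filter_upwards [h3 d hd p hp] with q hq
    rw [hq]
  have hfl' : ∀ d : ℝ, (d = 0 ∨ d = 1) → ∀ p ∈ flat d, F (repm m p) = F p := fun d hd p hp =>
    (hfl d hd p hp).self_of_nhds.symm
  have hcore : ∀ a, core (fun p => F (repm m p)) a = core F (m a) := by
    intro a
    simp only [core, h2]
  have hee : e * e = 1 := by rcases he with rfl | rfl <;> norm_num
  -- the strand
  have hlim : Tendsto (fun a : ℝ => 1 / 2 + e * (a - γ')) (𝓝 γ') (𝓝 (1 / 2)) := by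
    have : ContinuousAt (fun a : ℝ => 1 / 2 + e * (a - γ')) γ' := by fun_prop
    have h := this.tendsto
    simpa using h
  have hidax : ∀ᶠ s in 𝓝 (1 / 2 : ℝ), F (s, pc c) = (s, pc c) := by
    have : ContinuousAt (fun s : ℝ => ((s, pc c) : R4)) (1 / 2) := by fun_prop
    exact this.eventually hid
  have hstr : ∀ᶠ a in 𝓝 γ', core (fun p => F (repm m p)) a = (1 / 2 + e * (a - γ'), pc c) := by
    filter_upwards [hmτ, hlim.eventually hst, hlim.eventually hidax] with a e1 e2 e3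
    rw [hcore, e1, ← e2, e3]
  have hnear : ∀ᶠ q in 𝓝 (ax c), F (repm m q) = q := by
    filter_upwards [hid, h3 c hc (ax c) (NF2.ax_mem_flat c)] with q e1 e2
    rw [e2, e1]
  have hgc : m γ' = γ := by
    have h7 := hmτ.self_of_nhds
    rwa [sub_self, mul_zero, add_zero, hτ] at h7
  have hfoot : m (1 / 5 + 3 / 5 * c) = 1 / 5 + 3 / 5 * c := by
    obtain ⟨-, -, η, hη, hid'⟩ := hm
    rcases hc with rfl | rfl
    · exact hid' _ (Or.inl (by linarith))
    · exact hid' _ (Or.inr (by linarith))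
  have himg : (fun p => F (repm m p)) '' flat c = F '' flat c :=
    image_congr fun p hp => hfl' c hc p hp
  have hbr : Br c (fun p => F (repm m p)) γ' e := by
    refine ⟨?_, hG.2, ?_, hγ', ?_, ?_⟩
    · rintro p (hp | hp)
      · exact hG.1 p hp
      · exact ld_congr (hfl c hc p hp) (hB.loc p (Or.inr hp))
    · refine hB.injF.congr ?_
      rintro p (hp | hp)
      · exact (hfl' c hc p hp).symm
      · exact (hfl' (1 - c) hc' p (NF2.sph_subset_flat _ hp)).symm
    · refine ⟨pc c, by simp [nsq], ?_, e, 0, by rw [hee]; exact one_pos, ?_⟩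
      · have e1 := hstr.self_of_nhds
        rw [e1]
        have e2 := hnear.self_of_nhds
        have e3 : ((1 / 2, pc c) : R4) = ax c := rfl
        simp only [sub_self, mul_zero, add_zero]
        rw [e3, e2]
      · -- the derivatives
        have hn : ax γ' ∈ SP := Or.inr ⟨rfl, hγ'.1.le, hγ'.2.le, rfl⟩
        have hd : DifferentiableAt ℝ (fun p => F (repm m p)) (ax γ') :=
          (ld_iff.1 (hG.1 _ hn)).1.self_of_nhds.differentiableAt (by simp)
        have d1 : HasDerivAt (core (fun p => F (repm m p)))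
            (fderiv ℝ (fun p => F (repm m p)) (ax γ') ((0 : ℝ), ((1 : ℝ), (0 : ℂ)))) γ' :=
          hd.hasFDerivAt.comp_hasDerivAt γ' (NF2.hasDerivAt_ax γ')
        have d2 : HasDerivAt (fun a : ℝ => ((1 / 2 + e * (a - γ'), pc c) : R4)) (e, 0) γ' := by
          have h7 : HasDerivAt (fun a : ℝ => 1 / 2 + e * (a - γ')) e γ' := by
            have := (((hasDerivAt_id γ').sub_const γ').const_mul e).const_add (1 / 2)
            simpa using this
          exact h7.prodMk (hasDerivAt_const γ' (pc c))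
        have d3 := d1.unique (d2.congr_of_eventuallyEq hstr)
        have d4 : fderiv ℝ (fun p => F (repm m p)) (1 / 2, pc c) =
            ContinuousLinearMap.id ℝ R4 := by
          have h8 : (fun p => F (repm m p)) =ᶠ[𝓝 ((1 / 2, pc c) : R4)] fun p => p := hnear
          rw [h8.fderiv_eq]
          exact fderiv_fun_id
        rw [d3, d4]
        rfl
    · intro a ha hmem
      rw [himg, hcore] at hmem
      rcases hB.only (m a) (h4 a ha) hmem with h7 | h7
      · left
        exact h5.injective (h7.trans hfoot.symm)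
      · right
        exact h5.injective (h7.trans hgc.symm)
  obtain ⟨δ₁, hδ₁, hn⟩ := Metric.eventually_nhds_iff.1 hnear
  obtain ⟨δ₂, hδ₂, hs⟩ := Metric.eventually_nhds_iff.1 hstr
  refine ⟨min (1 / 100) (min δ₁ δ₂), by positivity, fun δ hδ => ⟨hbr, hδ.1, ?_, ?_, ?_⟩⟩
  · exact hδ.2.trans (min_le_left _ _)
  · intro p hp
    refine hn ?_
    rw [dist_eq_norm]
    exact lt_of_lt_of_le hp (hδ.2.trans ((min_le_right _ _).trans (min_le_left _ _)))
  · intro a ha
    refine hs ?_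
    rw [Real.dist_eq]
    exact lt_of_lt_of_le ha (hδ.2.trans ((min_le_right _ _).trans (min_le_right _ _)))

end Pool.Agent.Helper70.BI


end
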