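import Pool.Agent.Helper65.Barb.Defs
import Pool.Agent.Helper70.BI.C.P11

/-!
# Project BI (MP_8e98f2_gt): collected modules, part 49

The contents of the modules
* Helper70.BI.M_HOM

in one file, so that the whole proof builds in a short time.
-/

namespace Pool.Agent.Helper18.BI
end Pool.Agent.Helper18.BI

namespace Pool.Agent.Helper34.BI
end Pool.Agent.Helper34.BI

namespace Pool.Agent.Helper65.Barb
end Pool.Agent.Helper65.Barb


/-! ## Helper70.BI.M_HOM -/

section

/-!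
# Project BI, part (E), module HOM: uniqueness of the normal form
-/

set_option autoImplicit false

open scoped Manifold ContDiff Topology ComplexConjugate
open Set Filter Pool.Agent.Helper65.Barb Pool.Agent.Helper18.BI

namespace Pool.Agent.Helper70.BI

open Pool.Agent.Helper34.BI (cfac BarData barFam fam GenPos exists_genPos hat hat_eq_zero
  hat_ne_zero hat_nonneg contDiff_hat fderiv_fam)

namespace HOM

/-! ## elementary facts -/

theorem norm_ax (a c : ℝ) : ‖ax a - ax c‖ = |a - c| := by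
  simp [ax, Prod.norm_def]

theorem rsq_ax (c a : ℝ) : rsq c (ax a) = (a - c) ^ 2 := by
  simp [rsq, nsq, ax]

theorem ax_inj {a b : ℝ} (h : ax a = ax b) : a = b := by
  simpa [ax] using h

theorem contDiff_ax : ContDiff ℝ ∞ ax := by
  unfold ax
  exact contDiff_const.prodMk (contDiff_id.prodMk contDiff_const)

theorem hasDerivAt_ax (a : ℝ) : HasDerivAt ax ((0 : ℝ), ((1 : ℝ), (0 : ℂ))) a := by
  unfold ax
  exact (hasDerivAt_const a _).prodMk ((hasDerivAt_id a).prodMk (hasDerivAt_const a _))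

theorem ax_mem_flat0 {a : ℝ} (h0 : 0 ≤ a) (h1 : a ≤ 1 / 5) : ax a ∈ flat 0 :=
  ⟨rfl, by rw [rsq_ax]; nlinarith⟩

theorem ax_mem_flat1 {a : ℝ} (h0 : 4 / 5 ≤ a) (h1 : a ≤ 1) : ax a ∈ flat 1 :=
  ⟨rfl, by rw [rsq_ax]; nlinarith⟩

theorem ax_mem_neck {a : ℝ} (h0 : 1 / 5 ≤ a) (h1 : a ≤ 4 / 5) : ax a ∈ neck :=
  ⟨rfl, h0, h1, rfl⟩

theorem NB_mono {c γ e δ δ₀ : ℝ} {F : R4 → R4} (h : NB c F γ e δ) (h0 : 0 < δ₀) (h1 : δ₀ ≤ δ) :
    NB c F γ e δ₀ :=
  ⟨h.br, h0, h1.trans h.small, fun p hp => h.near p (hp.trans_le h1),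
    fun a ha => h.str a (ha.trans_le h1)⟩

theorem NF_mono {e d δ δ₀ : ℝ} {F : R4 → R4} (h : NF F e d δ) (h0 : 0 < δ₀) (h1 : δ₀ ≤ δ) :
    NF F e d δ₀ := ⟨h.th, NB_mono h.a h0 h1, NB_mono h.b h0 h1⟩

/-! ## the extended core -/

/-- the extended core -/
noncomputable def ec (F : R4 → R4) (δ a : ℝ) : R4 :=
  if δ / 2 ≤ a ∧ a ≤ 1 - δ / 2 then core F a else ax a

section
variable {F : R4 → R4} {e d δ : ℝ} (N : NF F e d δ)
include N

theorem core_ax0 {a : ℝ} (h : |a| < δ) : core F a = ax a :=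
  N.a.near _ (by rw [norm_ax]; simpa using h)

theorem core_ax1 {a : ℝ} (h : |a - 1| < δ) : core F a = ax a :=
  N.b.near _ (by rw [norm_ax]; exact h)

theorem ec_core {a : ℝ} (h1 : -δ < a) (h2 : a < 1 + δ) : ec F δ a = core F a := by
  unfold ec
  have hδ := N.a.pos
  split_ifs with h
  · rfl
  · by_cases h3 : δ / 2 ≤ a
    · have h4 : 1 - δ / 2 < a := by
        by_contra h5
        exact h ⟨h3, by linarith⟩
      exact (core_ax1 N (abs_lt.2 ⟨by linarith, by linarith⟩)).symm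
    · exact (core_ax0 N (abs_lt.2 ⟨by linarith, by linarith⟩)).symm

theorem ec_ax {a : ℝ} (h : a < δ ∨ 1 - δ < a) : ec F δ a = ax a := by
  unfold ec
  have hδ := N.a.pos
  split_ifs with h1
  · rcases h with h | h
    · exact core_ax0 N (abs_lt.2 ⟨by linarith, h⟩)
    · exact core_ax1 N (abs_lt.2 ⟨by linarith, by linarith [h1.2]⟩)
  · rfl

theorem ld_ax {a : ℝ} (ha : a ∈ Icc (0 : ℝ) 1) : LD F (ax a) := by
  rcases le_or_gt a (1 / 5) with h | h
  · exact N.a.br.loc _ (Or.inr (ax_mem_flat0 ha.1 h))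
  · rcases le_or_gt a (4 / 5) with h' | h'
    · exact N.a.br.loc _ (Or.inl (Or.inr (ax_mem_neck h.le h')))
    · exact N.b.br.loc _ (Or.inr (ax_mem_flat1 h'.le ha.2))

theorem ec_eventually {a : ℝ} (ha : a ∈ Icc (0 : ℝ) 1) : ec F δ =ᶠ[𝓝 a] fun r => F (ax r) := by
  have hδ := N.a.pos
  filter_upwards [Ioo_mem_nhds (show -δ < a by linarith [ha.1]) (show a < 1 + δ by linarith [ha.2])]
    with r hr
  exact ec_core N hr.1 hr.2

theorem contDiff_ec : ContDiff ℝ ∞ (ec F δ) := by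
  have hδ := N.a.pos
  rw [contDiff_iff_contDiffAt]
  intro a
  by_cases ha : a ∈ Icc (0 : ℝ) 1
  · have h1 : ContDiffAt ℝ ∞ F (ax a) := (ld_iff.1 (ld_ax N ha)).1.self_of_nhds
    exact (h1.comp a contDiff_ax.contDiffAt).congr_of_eventuallyEq (ec_eventually N ha)
  · refine contDiff_ax.contDiffAt.congr_of_eventuallyEq ?_
    by_cases h0 : 0 ≤ a
    · have h1 : 1 < a := by
        by_contra h2
        exact ha ⟨h0, not_lt.1 h2⟩
      filter_upwards [Ioi_mem_nhds (show 1 - δ < a by linarith)] with r hr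
      exact ec_ax N (Or.inr hr)
    · filter_upwards [Iio_mem_nhds (show a < δ by linarith [not_le.1 h0])] with r hr
      exact ec_ax N (Or.inl hr)

theorem deriv_ec {a : ℝ} (ha : a ∈ Icc (0 : ℝ) 1) : deriv (ec F δ) a ≠ 0 := by
  have h1 := ld_iff.1 (ld_ax N ha)
  have h2 : HasFDerivAt F (fderiv ℝ F (ax a)) (ax a) :=
    (h1.1.self_of_nhds.differentiableAt (by simp)).hasFDerivAt
  have h3 : HasDerivAt (fun r => F (ax r)) (fderiv ℝ F (ax a) ((0 : ℝ), ((1 : ℝ), (0 : ℂ)))) a :=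
    HasFDerivAt.comp_hasDerivAt_of_eq a h2 (hasDerivAt_ax a) rfl
  rw [(ec_eventually N ha).deriv_eq, h3.deriv]
  intro h0
  have h4 := h1.2 (h0.trans (map_zero _).symm)
  simp at h4

theorem core_35 {a : ℝ} (h : |a - 3 / 5| < δ) : core F a = (1 / 2 + e * (a - 3 / 5), pc 0) :=
  N.a.str a h

theorem core_25 {a : ℝ} (h : |a - 2 / 5| < δ) : core F a = (1 / 2 + d * (a - 2 / 5), pc 1) :=
  N.b.str a h

theorem foot0 : F (ax 0) = ax 0 := core_ax0 N (by simpa using N.a.pos)

theorem foot1 : F (ax 1) = ax 1 := core_ax1 N (by simpa using N.a.pos)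

theorem cross0 : core F (3 / 5) = ax 0 := by
  rw [core_35 N (by simpa using N.a.pos)]
  simp [ax, pc]

theorem cross1 : core F (2 / 5) = ax 1 := by
  rw [core_25 N (by simpa using N.a.pos)]
  simp [ax, pc]

theorem disj {p q : R4} (hp : p ∈ flat 0) (hq : q ∈ flat 1) (h : F p = F q) : False :=
  (Set.disjoint_left.1 N.th.dis) ⟨p, hp, rfl⟩ ⟨q, hq, h.symm⟩

theorem core_inj {a b : ℝ} (ha : 0 ≤ a) (hab : a < b) (hb : b ≤ 1) (h : core F a = core F b) :
    (a = 0 ∧ b = 3 / 5) ∨ (a = 2 / 5 ∧ b = 1) := by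
  have z0 : ax 0 ∈ flat 0 := ax_mem_flat0 le_rfl (by norm_num)
  have z1 : ax 1 ∈ flat 1 := ax_mem_flat1 (by norm_num) le_rfl
  have h' : F (ax a) = F (ax b) := h
  rcases le_or_gt a (1 / 5) with h1 | h1
  · have fa := ax_mem_flat0 ha h1
    rcases le_or_gt b (1 / 5) with h2 | h2
    · have h3 := N.a.br.injF (Or.inl fa) (Or.inl (ax_mem_flat0 (ha.trans hab.le) h2)) h'
      exact absurd (ax_inj h3) hab.ne
    · rcases le_or_gt b (4 / 5) with h3 | h3
      · rcases N.a.br.only b ⟨h2.le, h3⟩ ⟨ax a, fa, h'⟩ with h4 | h4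
        · exfalso
          rw [h4] at h2
          norm_num at h2
        · left
          refine ⟨?_, h4⟩
          rw [h4] at h
          have h5 : F (ax a) = F (ax 0) := by
            rw [foot0 N, ← cross0 N]
            exact h
          exact ax_inj (N.a.br.injF (Or.inl fa) (Or.inl z0) h5)
      · exact (disj N fa (ax_mem_flat1 h3.le hb) h').elim
  · rcases le_or_gt a (4 / 5) with h2 | h2
    · rcases le_or_gt b (4 / 5) with h3 | h3
      · have h4 := N.a.br.inj (Or.inr (ax_mem_neck h1.le h2))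
          (Or.inr (ax_mem_neck (h1.le.trans hab.le) h3)) h'
        exact absurd (ax_inj h4) hab.ne
      · have fb := ax_mem_flat1 h3.le hb
        rcases N.b.br.only a ⟨h1.le, h2⟩ ⟨ax b, fb, h'.symm⟩ with h4 | h4
        · have h5 : a = 4 / 5 := by rw [h4]; norm_num
          have h6 := N.b.br.injF (Or.inl (ax_mem_flat1 h5.ge (by linarith))) (Or.inl fb) h'
          exact absurd (ax_inj h6) hab.ne
        · right
          refine ⟨h4, ?_⟩
          rw [h4] at h
          have h5 : F (ax b) = F (ax 1) := by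
            rw [foot1 N, ← cross1 N]
            exact h.symm
          exact ax_inj (N.b.br.injF (Or.inl fb) (Or.inl z1) h5)
    · have h6 := N.b.br.injF (Or.inl (ax_mem_flat1 h2.le (hab.le.trans hb)))
        (Or.inl (ax_mem_flat1 (h2.le.trans hab.le) hb)) h'
      exact absurd (ax_inj h6) hab.ne

theorem ec_inj {a b : ℝ} (ha : 0 ≤ a) (hab : a < b) (hb : b ≤ 1) (h : ec F δ a = ec F δ b) :
    (a = 0 ∧ b = 3 / 5) ∨ (a = 2 / 5 ∧ b = 1) := by
  have hδ := N.a.pos
  rw [ec_core N (by linarith) (by linarith), ec_core N (by linarith) (by linarith)] at h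
  exact core_inj N ha hab hb h

end

/-- the cores of two germs in normal form agree near the frozen part -/
theorem ec_agree {F F' : R4 → R4} {e d δ : ℝ} (N : NF F e d δ) (N' : NF F' e d δ) {a : ℝ}
    (h : a < δ ∨ |a - 2 / 5| < δ ∨ |a - 3 / 5| < δ ∨ 1 - δ < a) : ec F δ a = ec F' δ a := by
  have hδ := N.a.pos
  have hs := N.a.small
  rcases h with h | h | h | h
  · rw [ec_ax N (Or.inl h), ec_ax N' (Or.inl h)]
  · have h' := abs_lt.1 h
    rw [ec_core N (by linarith) (by linarith), ec_core N' (by linarith) (by linarith), core_25 N h,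
      core_25 N' h]
  · have h' := abs_lt.1 h
    rw [ec_core N (by linarith) (by linarith), ec_core N' (by linarith) (by linarith), core_35 N h,
      core_35 N' h]
  · rw [ec_ax N (Or.inr h), ec_ax N' (Or.inr h)]

/-! ## the family of arcs -/

/-- the sum of three hats -/
noncomputable def chi (δ a : ℝ) : ℝ :=
  hat (δ / 2) (2 / 5 - δ / 2) a + hat (2 / 5 + δ / 2) (3 / 5 - δ / 2) a +
    hat (3 / 5 + δ / 2) (1 - δ / 2) a

theorem contDiff_chi (δ : ℝ) : ContDiff ℝ ∞ (chi δ) := by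
  unfold chi
  exact ((contDiff_hat _ _).add (contDiff_hat _ _)).add (contDiff_hat _ _)

theorem chi_nonneg (δ a : ℝ) : 0 ≤ chi δ a :=
  add_nonneg (add_nonneg (hat_nonneg _ _ _) (hat_nonneg _ _ _)) (hat_nonneg _ _ _)

/-- the frozen part -/
def Fz (δ a : ℝ) : Prop := a ≤ δ / 2 ∨ |a - 2 / 5| ≤ δ / 2 ∨ |a - 3 / 5| ≤ δ / 2 ∨ 1 - δ / 2 ≤ a

theorem chi_eq_zero {δ a : ℝ} (hδ : 0 < δ) (hs : δ ≤ 1 / 100) (h : Fz δ a) : chi δ a = 0 := by
  unfold chi
  rcases h with h | h | h | h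
  · rw [hat_eq_zero (Or.inl h), hat_eq_zero (Or.inl (by linarith)),
      hat_eq_zero (Or.inl (by linarith))]
    norm_num
  · have h' := abs_le.1 h
    rw [hat_eq_zero (Or.inr (by linarith)), hat_eq_zero (Or.inl (by linarith)),
      hat_eq_zero (Or.inl (by linarith))]
    norm_num
  · have h' := abs_le.1 h
    rw [hat_eq_zero (Or.inr (by linarith)), hat_eq_zero (Or.inr (by linarith)),
      hat_eq_zero (Or.inl (by linarith))]
    norm_num
  · rw [hat_eq_zero (Or.inr (by linarith)), hat_eq_zero (Or.inr (by linarith)),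
      hat_eq_zero (Or.inr h)]
    norm_num

theorem fz_of_chi {δ a : ℝ} (h : chi δ a = 0) : Fz δ a := by
  unfold chi at h
  have n1 := hat_nonneg (δ / 2) (2 / 5 - δ / 2) a
  have n2 := hat_nonneg (2 / 5 + δ / 2) (3 / 5 - δ / 2) a
  have n3 := hat_nonneg (3 / 5 + δ / 2) (1 - δ / 2) a
  have z1 : hat (δ / 2) (2 / 5 - δ / 2) a = 0 := by linarith
  have z2 : hat (2 / 5 + δ / 2) (3 / 5 - δ / 2) a = 0 := by linarith
  have z3 : hat (3 / 5 + δ / 2) (1 - δ / 2) a = 0 := by linarith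
  by_contra hcon
  unfold Fz at hcon
  push Not at hcon
  obtain ⟨c1, c2, c3, c4⟩ := hcon
  rcases lt_abs.1 c2 with h2 | h2
  · rcases lt_abs.1 c3 with h3 | h3
    · exact hat_ne_zero.2 ⟨by linarith, c4⟩ z3
    · exact hat_ne_zero.2 ⟨by linarith, by linarith⟩ z2
  · exact hat_ne_zero.2 ⟨c1, by linarith⟩ z1

/-- partial derivatives -/
theorem fderiv_snd {G : ℝ × ℝ → R4} (hG : ContDiff ℝ ∞ G) (t u : ℝ) :
    HasDerivAt (fun r => G (t, r)) (fderiv ℝ G (t, u) (0, 1)) u := by
  have l : HasDerivAt (fun r : ℝ => ((t, r) : ℝ × ℝ)) (0, 1) u :=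
    (hasDerivAt_const u t).prodMk (hasDerivAt_id u)
  exact HasFDerivAt.comp_hasDerivAt_of_eq u
    ((hG.differentiable (by simp) (t, u)).hasFDerivAt) l rfl

/-- The generic family of arcs. -/
theorem exists_fam {F F' : R4 → R4} {e d δ : ℝ} (N : NF F e d δ) (N' : NF F' e d δ) :
    ∃ H : ℝ × ℝ → R4, ContDiff ℝ ∞ H ∧ (∀ a, H (0, a) = ec F δ a) ∧ (∀ a, H (1, a) = ec F' δ a) ∧
      (∀ t a, Fz δ a → H (t, a) = ec F δ a) ∧
      (∀ t ∈ Icc (0 : ℝ) 1, ∀ a ∈ Icc (0 : ℝ) 1, fderiv ℝ H (t, a) (0, 1) ≠ 0) ∧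
      ∀ t ∈ Icc (0 : ℝ) 1, ∀ a b, 0 ≤ a → a < b → b ≤ 1 → H (t, a) = H (t, b) →
        (a = 0 ∧ b = 3 / 5) ∨ (a = 2 / 5 ∧ b = 1) := by
  have hδ := N.a.pos
  have hs := N.a.small
  let ρ : ℝ → ℝ := hat 0 1
  let χ : ℝ → ℝ := chi δ
  have hρ : ContDiff ℝ ∞ ρ := contDiff_hat _ _
  have hχ : ContDiff ℝ ∞ χ := contDiff_chi δ
  have hc := contDiff_ec N
  have hc' := contDiff_ec N'
  let h : ℝ × ℝ → R4 := fun x => (1 - step x.1) • ec F δ x.2 + step x.1 • ec F' δ x.2
  have hh : ContDiff ℝ ∞ h := by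
    have e1 : ContDiff ℝ ∞ (fun x : ℝ × ℝ => step x.1) := contDiff_step.comp contDiff_fst
    have e2 : ContDiff ℝ ∞ (fun x : ℝ × ℝ => ec F δ x.2) := hc.comp contDiff_snd
    have e3 : ContDiff ℝ ∞ (fun x : ℝ × ℝ => ec F' δ x.2) := hc'.comp contDiff_snd
    exact ((contDiff_const.sub e1).smul e2).add (e1.smul e3)
  have hE : Module.finrank ℝ R4 = 4 := by
    simp [Complex.finrank_real_complex]
  obtain ⟨v, w, -, -, hgp⟩ := exists_genPos (E := R4) (Y := ℂ) (h := h) (ρ := ρ) (χ := χ) hE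
    Complex.finrank_real_complex hh hρ hχ (ι := Empty) (κ := Empty)
    (f := fun i _ => i.elim) (T := fun i => i.elim) (g := fun i _ => i.elim) (fun i => i.elim)
    (fun i => i.elim) (fun i => i.elim) (ε := 1) one_pos
  let H : ℝ × ℝ → R4 := fam h ρ χ v w
  have hval : ∀ t a, H (t, a) = (1 - step t) • ec F δ a + step t • ec F' δ a +
      (hat 0 1 t * chi δ a) • (v + a • w) := fun t a => rfl
  have hH : ContDiff ℝ ∞ H := by
    have e1 : ContDiff ℝ ∞ (fun x : ℝ × ℝ => ρ x.1) := hρ.comp contDiff_fst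
    have e2 : ContDiff ℝ ∞ (fun x : ℝ × ℝ => χ x.2) := hχ.comp contDiff_snd
    exact hh.add ((e1.mul e2).smul (contDiff_const.add (contDiff_snd.smul contDiff_const)))
  have start : ∀ a, H (0, a) = ec F δ a := by
    intro a
    rw [hval, hat_eq_zero (Or.inl le_rfl), step_of_nonpos le_rfl]
    simp
  have stop : ∀ a, H (1, a) = ec F' δ a := by
    intro a
    rw [hval, hat_eq_zero (Or.inr le_rfl), step_of_one_le le_rfl]
    simp
  have frz : ∀ t a, Fz δ a → H (t, a) = ec F δ a := by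
    intro t a ha
    have e1 : ec F δ a = ec F' δ a := by
      refine ec_agree N N' ?_
      rcases ha with h1 | h1 | h1 | h1
      · exact Or.inl (by linarith)
      · exact Or.inr (Or.inl (by linarith))
      · exact Or.inr (Or.inr (Or.inl (by linarith)))
      · exact Or.inr (Or.inr (Or.inr (by linarith)))
    rw [hval, chi_eq_zero hδ hs ha, ← e1]
    module
  have tcase : ∀ t ∈ Icc (0 : ℝ) 1, t = 0 ∨ t = 1 ∨ ρ t ≠ 0 := by
    intro t ht
    rcases eq_or_lt_of_le ht.1 with h1 | h1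
    · exact Or.inl h1.symm
    · rcases eq_or_lt_of_le ht.2 with h2 | h2
      · exact Or.inr (Or.inl h2)
      · exact Or.inr (Or.inr (hat_ne_zero.2 ⟨h1, h2⟩))
  refine ⟨H, hH, start, stop, frz, ?_, ?_⟩
  · intro t ht a ha
    rcases tcase t ht with rfl | rfl | hρt
    · have e1 := fderiv_snd hH 0 a
      have e2 : (fun r => H (0, r)) = ec F δ := funext start
      rw [e2] at e1
      rw [← e1.deriv]
      exact deriv_ec N ha
    · have e1 := fderiv_snd hH 1 a
      have e2 : (fun r => H (1, r)) = ec F' δ := funext stop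
      rw [e2] at e1
      rw [← e1.deriv]
      exact deriv_ec N' ha
    · by_cases hχa : χ a = 0
      · have hf := fz_of_chi hχa
        have e1 : deriv χ a = 0 := by
          refine IsLocalMin.deriv_eq_zero (Eventually.of_forall fun r => ?_)
          rw [hχa]
          exact chi_nonneg δ r
        have e2 := fderiv_fam hh hρ hχ v w t a
        rw [e1, hχa] at e2
        have e3 : fderiv ℝ H (t, a) (0, 1) = fderiv ℝ h (t, a) (0, 1) := by
          rw [show fderiv ℝ H (t, a) (0, 1) = fderiv ℝ (fam h ρ χ v w) (t, a) (0, 1) from rfl, e2]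
          simp
        rw [e3]
        have e4 := fderiv_snd hh t a
        have e5 : (fun r => h (t, r)) =ᶠ[𝓝 a] ec F δ := by
          have hop : ∀ᶠ r in 𝓝 a, r < δ ∨ |r - 2 / 5| < δ ∨ |r - 3 / 5| < δ ∨ 1 - δ < r := by
            rcases hf with h1 | h1 | h1 | h1
            · filter_upwards [Iio_mem_nhds (show a < δ by linarith)] with r hr
              exact Or.inl hr
            · have hcont : Continuous fun r : ℝ => |r - 2 / 5| := by fun_prop
              filter_upwards [(isOpen_lt hcont continuous_const).mem_nhds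
                (show |a - 2 / 5| < δ by linarith)] with r hr
              exact Or.inr (Or.inl hr)
            · have hcont : Continuous fun r : ℝ => |r - 3 / 5| := by fun_prop
              filter_upwards [(isOpen_lt hcont continuous_const).mem_nhds
                (show |a - 3 / 5| < δ by linarith)] with r hr
              exact Or.inr (Or.inr (Or.inl hr))
            · filter_upwards [Ioi_mem_nhds (show 1 - δ < a by linarith)] with r hr
              exact Or.inr (Or.inr (Or.inr hr))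
          filter_upwards [hop] with r hr
          change (1 - step t) • ec F δ r + step t • ec F' δ r = ec F δ r
          rw [← ec_agree N N' hr]
          module
        rw [← e4.deriv, e5.deriv_eq]
        exact deriv_ec N ha
      · exact hgp.imm t a hρt hχa
  · intro t ht a b ha hab hb he
    rcases tcase t ht with rfl | rfl | hρt
    · rw [start, start] at he
      exact ec_inj N ha hab hb he
    · rw [stop, stop] at he
      exact ec_inj N' ha hab hb he
    · by_cases hor : χ a ≠ 0 ∨ χ b ≠ 0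
      · exact absurd he (hgp.inj t a b hρt hab.ne hor)
      · push Not at hor
        rw [frz t a (fz_of_chi hor.1), frz t b (fz_of_chi hor.2)] at he
        exact ec_inj N ha hab hb he

/-- distances to the two exceptional points -/
theorem exists_mu {F : R4 → R4} {e d δ : ℝ} (N : NF F e d δ) {H : ℝ × ℝ → R4}
    (hH : ContDiff ℝ ∞ H) (frz : ∀ t a, Fz δ a → H (t, a) = ec F δ a)
    (inj : ∀ t ∈ Icc (0 : ℝ) 1, ∀ a b, 0 ≤ a → a < b → b ≤ 1 → H (t, a) = H (t, b) →
        (a = 0 ∧ b = 3 / 5) ∨ (a = 2 / 5 ∧ b = 1)) :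
    ∃ μ : ℝ, 0 < μ ∧
      (∀ t ∈ Icc (0 : ℝ) 1, ∀ a ∈ Icc (δ / 2) 1, δ / 2 ≤ |a - 3 / 5| → μ ≤ ‖H (t, a) - ax 0‖) ∧
      ∀ t ∈ Icc (0 : ℝ) 1, ∀ a ∈ Icc 0 (1 - δ / 2), δ / 2 ≤ |a - 2 / 5| →
        μ ≤ ‖H (t, a) - ax 1‖ := by
  have hδ := N.a.pos
  have hs := N.a.small
  have key : ∀ (S : Set ℝ) (z : R4), IsCompact S → (∀ t ∈ Icc (0 : ℝ) 1, ∀ a ∈ S, H (t, a) ≠ z) →
      ∃ μ : ℝ, 0 < μ ∧ ∀ t ∈ Icc (0 : ℝ) 1, ∀ a ∈ S, μ ≤ ‖H (t, a) - z‖ := by
    intro S z hS hne
    rcases S.eq_empty_or_nonempty with h0 | ⟨s, hs⟩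
    · exact ⟨1, one_pos, fun t _ a ha => by rw [h0] at ha; exact ha.elim⟩
    · have hK : IsCompact (Icc (0 : ℝ) 1 ×ˢ S) := isCompact_Icc.prod hS
      have hc : ContinuousOn (fun x : ℝ × ℝ => ‖H x - z‖) (Icc (0 : ℝ) 1 ×ˢ S) :=
        (hH.continuous.sub continuous_const).norm.continuousOn
      obtain ⟨x, hx, hmin⟩ := hK.exists_isMinOn ⟨(0, s), ⟨le_rfl, zero_le_one⟩, hs⟩ hc
      refine ⟨‖H x - z‖, norm_pos_iff.2 (sub_ne_zero.2 (hne x.1 hx.1 x.2 hx.2)), ?_⟩
      intro t ht a ha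
      exact hmin (show (t, a) ∈ Icc (0 : ℝ) 1 ×ˢ S from ⟨ht, ha⟩)
  have c3 : Continuous fun a : ℝ => |a - 3 / 5| := by fun_prop
  have c2 : Continuous fun a : ℝ => |a - 2 / 5| := by fun_prop
  have e0 : ∀ t, H (t, 0) = ax 0 := fun t => by
    rw [frz t 0 (Or.inl (by linarith)), ec_ax N (Or.inl hδ)]
  have e1 : ∀ t, H (t, 1) = ax 1 := fun t => by
    rw [frz t 1 (Or.inr (Or.inr (Or.inr (by linarith)))), ec_ax N (Or.inr (by linarith))]
  obtain ⟨μ₁, p1, h1⟩ := key (Icc (δ / 2) 1 ∩ {a | δ / 2 ≤ |a - 3 / 5|}) (ax 0)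
    (isCompact_Icc.inter_right (isClosed_le continuous_const c3)) (by
      rintro t ht a ⟨ha, ha'⟩ he
      have ha'' : δ / 2 ≤ |a - 3 / 5| := ha'
      rcases inj t ht 0 a le_rfl (by linarith [ha.1]) ha.2 ((e0 t).trans he.symm) with h | h
      · rw [h.2] at ha''
        norm_num at ha''
        linarith
      · linarith [h.1])
  obtain ⟨μ₂, p2, h2⟩ := key (Icc 0 (1 - δ / 2) ∩ {a | δ / 2 ≤ |a - 2 / 5|}) (ax 1)
    (isCompact_Icc.inter_right (isClosed_le continuous_const c2)) (by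
      rintro t ht a ⟨ha, ha'⟩ he
      have ha'' : δ / 2 ≤ |a - 2 / 5| := ha'
      rcases inj t ht a 1 ha.1 (by linarith [ha.2]) le_rfl (he.trans (e1 t).symm) with h | h
      · linarith [h.2]
      · rw [h.1] at ha''
        norm_num at ha''
        linarith)
  exact ⟨min μ₁ μ₂, lt_min p1 p2, fun t ht a ha h => (min_le_left _ _).trans (h1 t ht a ⟨ha, h⟩),
    fun t ht a ha h => (min_le_right _ _).trans (h2 t ht a ⟨ha, h⟩)⟩

/-! ## the contraction -/

/-- the contracted germ -/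
noncomputable def Fl (F : R4 → R4) (lam : ℝ) (p : R4) : R4 := F (clc 0 lam (clc 1 lam p))

theorem rsq0_of_flat1 {p : R4} (h : p ∈ flat 1) : 9 / 100 ≤ rsq 0 p := by
  have h2 := h.2
  simp only [rsq, nsq] at h2 ⊢
  have h3 : (p.2.1 - 1) ^ 2 ≤ (1 / 5) ^ 2 := by
    nlinarith [sq_nonneg p.2.2.re, sq_nonneg p.2.2.im]
  have h4 := abs_le_of_sq_le_sq' h3 (by norm_num)
  nlinarith [h4.1, h4.2, sq_nonneg p.2.2.re, sq_nonneg p.2.2.im]

theorem rsq1_of_flat0 {p : R4} (h : p ∈ flat 0) : 9 / 100 ≤ rsq 1 p := by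
  have h2 := h.2
  simp only [rsq, nsq] at h2 ⊢
  have h3 : (p.2.1 - 0) ^ 2 ≤ (1 / 5) ^ 2 := by
    nlinarith [sq_nonneg p.2.2.re, sq_nonneg p.2.2.im]
  have h4 := abs_le_of_sq_le_sq' h3 (by norm_num)
  nlinarith [h4.1, h4.2, sq_nonneg p.2.2.re, sq_nonneg p.2.2.im]

theorem cfac_bounds {lam : ℝ} (hl : lam ∈ Ioc (0 : ℝ) 1) (q : ℝ) :
    0 < cfac lam q ∧ cfac lam q ≤ 1 := by
  have h0 : 0 ≤ step ((q - 1 / 20) / (1 / 25)) := Real.smoothTransition.nonneg _
  have h1 : step ((q - 1 / 20) / (1 / 25)) ≤ 1 := Real.smoothTransition.le_one _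
  unfold cfac
  constructor
  · have : 0 ≤ (1 - lam) * step ((q - 1 / 20) / (1 / 25)) :=
      mul_nonneg (by linarith [hl.2]) h0
    linarith [hl.1]
  · nlinarith [hl.1, hl.2]

theorem sph_flat {c : ℝ} {p : R4} (h : p ∈ sph c) : p ∈ flat c := ⟨h.1, h.2.le⟩

/-- contraction does not change the class of a germ in normal form -/
theorem eqv_Fl (hCL : StCL) (hCTR : StCTR) {F : R4 → R4} {e d δ : ℝ} (N : NF F e d δ) {lam : ℝ}
    (hl : lam ∈ Ioc (0 : ℝ) 1) : EmbOn I4 (Fl F lam) SP ∧ Eqv F (Fl F lam) := by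
  obtain ⟨-, -, h⟩ := hCL 0 (Or.inl rfl)
  obtain ⟨hemb, hfst, hin, hfix, hax, hle, -⟩ := h lam hl
  have a1 := hCTR 0 F (3 / 5) (Or.inl rfl) N.a.br.loc N.a.br.inj N.a.br.injF
    ((cross0 N).trans (foot0 N).symm) N.a.br.only lam hl
  set F1 : R4 → R4 := fun p => F (clc 0 lam p) with hF1
  have fx : ∀ p ∈ flat 1, clc 0 lam p = p := fun p hp => hfix p (rsq0_of_flat1 hp)
  have fx' : ∀ p ∈ flat 1, F1 p = F p := fun p hp => by rw [hF1]; simp only [fx p hp]
  have im : F1 '' flat 1 = F '' flat 1 := image_congr fx'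
  have sp0 : ∀ p ∈ sph 0, clc 0 lam p ∈ flat 0 := fun p hp =>
    ⟨by rw [hfst]; exact hp.1, (hle p).trans hp.2.le⟩
  have a2 := hCTR 1 F1 (2 / 5) (Or.inr rfl) ?_ a1.1.2 ?_ ?_ ?_ lam hl
  · exact ⟨a2.1, a1.2.trans a2.2⟩
  · rintro p (hp | hp)
    · exact a1.1.1 p hp
    · refine ld_comp (hemb.1 p (mem_univ _)) ?_
      rw [fx p hp]
      exact N.b.br.loc p (Or.inr hp)
  · rw [show (1 : ℝ) - 1 = 0 by norm_num]
    rintro p (hp | hp) q (hq | hq) he
    · rw [fx' p hp, fx' q hq] at he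
      exact N.b.br.injF (Or.inl hp) (Or.inl hq) he
    · rw [fx' p hp] at he
      exact (disj N (sp0 q hq) hp he.symm).elim
    · rw [fx' q hq] at he
      exact (disj N (sp0 p hp) hq he).elim
    · exact a1.1.2 (Or.inl (Or.inl hp)) (Or.inl (Or.inl hq)) he
  · have z1 : ax 1 ∈ flat 1 := ax_mem_flat1 (by norm_num) le_rfl
    have e1 : core F1 (2 / 5) = core F (2 / 5) := by
      have : clc 0 lam (ax (2 / 5)) = ax (2 / 5) := hfix _ (by rw [rsq_ax]; norm_num)
      rw [hF1]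
      simp only [core, this]
    rw [e1, cross1 N, fx' _ z1, foot1 N]
  · intro a ha hca
    rw [im] at hca
    have e1 : core F1 a = core F (0 + cfac lam ((a - 0) ^ 2) * (a - 0)) := by
      rw [hF1]
      simp only [core, hax]
    rw [e1] at hca
    set b := 0 + cfac lam ((a - 0) ^ 2) * (a - 0) with hb
    have k := cfac_bounds hl ((a - 0) ^ 2)
    have hba : b ≤ a := by rw [hb]; nlinarith [ha.1]
    have hb0 : 0 < b := by
      rw [hb]
      have := mul_pos k.1 (show 0 < a - 0 by linarith [ha.1])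
      linarith
    rcases le_or_gt (3 / 10) a with h3 | h3
    · have e2 : b = a := by
        have h5 := hax a
        rw [hfix (ax a) (by rw [rsq_ax]; nlinarith)] at h5
        exact (ax_inj h5).symm
      rw [e2] at hca
      exact N.b.br.only a ha hca
    · exfalso
      rcases le_or_gt (1 / 5) b with h4 | h4
      · rcases N.b.br.only b ⟨h4, by linarith⟩ hca with h5 | h5
        · rw [h5] at hba; linarith
        · rw [h5] at hba; linarith
      · obtain ⟨q, hq, hq'⟩ := hca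
        exact disj N (ax_mem_flat0 hb0.le h4.le) hq hq'.symm

/-- the axial coordinate of the contracted bar -/
noncomputable def gx (lam c a : ℝ) : ℝ := c + cfac lam ((a - c) ^ 2) * (a - c)

/-- the axial coordinate of the doubly contracted bar -/
noncomputable def be (lam a : ℝ) : ℝ := gx lam 0 (gx lam 1 a)

theorem contDiff_gx (lam c : ℝ) : ContDiff ℝ ∞ (gx lam c) := by
  unfold gx cfac
  have h1 : ContDiff ℝ ∞ (fun a : ℝ => ((a - c) ^ 2 - 1 / 20) / (1 / 25)) := by fun_prop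
  have h2 : ContDiff ℝ ∞ (fun a : ℝ => step (((a - c) ^ 2 - 1 / 20) / (1 / 25))) :=
    contDiff_step.comp h1
  exact contDiff_const.add ((contDiff_const.add (contDiff_const.mul h2)).mul
    (contDiff_id.sub contDiff_const))

theorem contDiff_be (lam : ℝ) : ContDiff ℝ ∞ (be lam) := (contDiff_gx lam 0).comp (contDiff_gx lam 1)

section
variable (hCL : StCL) {lam : ℝ} (hl : lam ∈ Ioc (0 : ℝ) 1)
include hCL hl

theorem gx_ax {c : ℝ} (hc : c = 0 ∨ c = 1) (a : ℝ) : clc c lam (ax a) = ax (gx lam c a) :=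
  ((hCL c hc).2.2 lam hl).2.2.2.2.1 a

theorem be_ax (a : ℝ) : clc 0 lam (clc 1 lam (ax a)) = ax (be lam a) := by
  rw [gx_ax hCL hl (Or.inr rfl), gx_ax hCL hl (Or.inl rfl)]
  rfl

theorem gx_deriv {c : ℝ} (hc : c = 0 ∨ c = 1) (a : ℝ) : 0 < deriv (gx lam c) a :=
  ((hCL c hc).2.2 lam hl).2.2.2.2.2.2 a

theorem gx_mono {c : ℝ} (hc : c = 0 ∨ c = 1) : StrictMono (gx lam c) :=
  strictMono_of_deriv_pos (gx_deriv hCL hl hc)

theorem be_deriv (a : ℝ) : 0 < deriv (be lam) a := by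
  have h1 : HasDerivAt (gx lam 1) (deriv (gx lam 1) a) a :=
    ((contDiff_gx lam 1).differentiable (by simp) a).hasDerivAt
  have h2 : HasDerivAt (gx lam 0) (deriv (gx lam 0) (gx lam 1 a)) (gx lam 1 a) :=
    ((contDiff_gx lam 0).differentiable (by simp) _).hasDerivAt
  have h3 : HasDerivAt (be lam) (deriv (gx lam 0) (gx lam 1 a) * deriv (gx lam 1) a) a :=
    h2.comp a h1
  rw [h3.deriv]
  exact mul_pos (gx_deriv hCL hl (Or.inl rfl) _) (gx_deriv hCL hl (Or.inr rfl) _)

theorem be_mono : StrictMono (be lam) := strictMono_of_deriv_pos (be_deriv hCL hl)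

theorem gx_near {c a : ℝ} (hc : c = 0 ∨ c = 1) (h : |a - c| ≤ 11 / 50) :
    gx lam c a = c + lam * (a - c) := by
  have h1 : (a - c) ^ 2 ≤ 1 / 20 := by
    have := sq_le_sq' (abs_le.1 h).1 (abs_le.1 h).2
    nlinarith
  have h2 := ((hCL c hc).2.2 lam hl).2.2.1 (ax a) (by rw [rsq_ax]; exact h1)
  rw [gx_ax hCL hl hc] at h2
  have h3 := congrArg (fun p : R4 => p.2.1) h2
  simpa [ax, pc] using h3

theorem gx_far {c a : ℝ} (hc : c = 0 ∨ c = 1) (h : 3 / 10 ≤ |a - c|) : gx lam c a = a := by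
  have h1 : 9 / 100 ≤ (a - c) ^ 2 := by
    rw [← sq_abs (a - c)]
    nlinarith
  have h2 := ((hCL c hc).2.2 lam hl).2.2.2.1 (ax a) (by rw [rsq_ax]; exact h1)
  rw [gx_ax hCL hl hc] at h2
  exact ax_inj h2

theorem be_left {a : ℝ} (h : |a| ≤ 11 / 50) : be lam a = lam * a := by
  unfold be
  have h' := abs_le.1 h
  rw [gx_far hCL hl (Or.inr rfl) (a := a) (by
      rw [abs_of_neg (by linarith)]; linarith)]
  rw [gx_near hCL hl (Or.inl rfl) (by simpa using h)]
  ring

theorem be_right {a : ℝ} (h : |a - 1| ≤ 11 / 50) : be lam a = 1 + lam * (a - 1) := by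
  unfold be
  have h' := abs_le.1 h
  rw [gx_near hCL hl (Or.inr rfl) h]
  refine gx_far hCL hl (Or.inl rfl) ?_
  have h1 : -(11 / 50) ≤ lam * (a - 1) := by nlinarith [hl.1, hl.2]
  rw [abs_of_pos (by linarith)]
  linarith

end

/-- points of the unit scale near the centre -/
theorem norm_le_of_nsq {x : R3} {r : ℝ} (hr : 0 ≤ r) (h : nsq x ≤ r ^ 2) : ‖x‖ ≤ r := by
  unfold nsq at h
  rw [Prod.norm_def]
  refine max_le ?_ ?_
  · rw [Real.norm_eq_abs]
    exact abs_le_of_sq_le_sq (by nlinarith [sq_nonneg x.2.re, sq_nonneg x.2.im]) hr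
  · refine abs_le_of_sq_le_sq (a := ‖x.2‖) ?_ hr |> fun h => (le_abs_self _).trans h
    rw [Complex.sq_norm, Complex.normSq_apply]
    nlinarith [sq_nonneg x.1]

theorem nsq_smul (l : ℝ) (x : R3) : nsq (l • x) = l ^ 2 * nsq x := by
  unfold nsq
  simp
  ring

/-- the contraction on the two cuffs -/
theorem cuff0 (hCL : StCL) {lam : ℝ} (hl : lam ∈ Ioc (0 : ℝ) 1) {p : R4} (hp : p ∈ sph 0) :
    ∃ x : R3, clc 0 lam (clc 1 lam p) = (1 / 2, x) ∧ nsq x = lam ^ 2 / 25 := by
  obtain ⟨-, hfst1, -, hfix1, -, -, -⟩ := (hCL 1 (Or.inr rfl)).2.2 lam hl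
  obtain ⟨-, hfst0, hin0, -, -, -, -⟩ := (hCL 0 (Or.inl rfl)).2.2 lam hl
  have e1 : clc 1 lam p = p := hfix1 p (rsq1_of_flat0 (sph_flat hp))
  have e2 := hin0 p (by rw [hp.2]; norm_num)
  refine ⟨pc 0 + lam • (p.2 - pc 0), ?_, ?_⟩
  · rw [e1, e2, hp.1]
  · have h0 : pc 0 = 0 := rfl
    have h2 := hp.2
    have h3 : rsq 0 p = nsq p.2 := by simp [rsq, nsq]
    rw [h0, zero_add, sub_zero, nsq_smul, ← h3, h2]
    ring

theorem cuff1 (hCL : StCL) {lam : ℝ} (hl : lam ∈ Ioc (0 : ℝ) 1) {p : R4} (hp : p ∈ sph 1) :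
    ∃ x : R3, clc 0 lam (clc 1 lam p) = (1 / 2, pc 1 + x) ∧ nsq x = lam ^ 2 / 25 := by
  obtain ⟨-, hfst1, hin1, -, -, hle1, -⟩ := (hCL 1 (Or.inr rfl)).2.2 lam hl
  obtain ⟨-, hfst0, -, hfix0, -, -, -⟩ := (hCL 0 (Or.inl rfl)).2.2 lam hl
  have e1 := hin1 p (by rw [hp.2]; norm_num)
  have e2 : clc 0 lam (clc 1 lam p) = clc 1 lam p :=
    hfix0 _ (rsq0_of_flat1 ⟨by rw [hfst1]; exact hp.1, (hle1 p).trans hp.2.le⟩)
  refine ⟨lam • (p.2 - pc 1), ?_, ?_⟩
  · rw [e2, e1, hp.1]
  · have h3 : rsq 1 p = nsq (p.2 - pc 1) := by simp [rsq, nsq, pc]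
    rw [nsq_smul, ← h3, hp.2]
    ring

end HOM

open HOM

/-- **HOM** (uniqueness of the normal form). -/
theorem m_HOM (hCL : StCL) (hCTR : StCTR) (hHL : StHL) : StHOM := by
  intro F F' e d δ₁ δ₂ he hd N₁ N₂
  -- a common constant
  set δ := min δ₁ δ₂ with hδdef
  have hδ : 0 < δ := lt_min N₁.a.pos N₂.a.pos
  have N := NF_mono N₁ hδ (min_le_left _ _)
  have N' := NF_mono N₂ hδ (min_le_right _ _)
  have hs := N.a.small
  obtain ⟨H, hH, H0, H1, frz, imm, inj⟩ := exists_fam N N'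
  obtain ⟨μ, hμ, far0, far1⟩ := exists_mu N hH frz inj
  -- the contraction factor
  obtain ⟨lam, hlam0, hlam⟩ : ∃ lam : ℝ, 0 < lam ∧ lam < min (min μ (δ / 2)) 1 :=
    ⟨min (min μ (δ / 2)) 1 / 2, by positivity, by
      have : 0 < min (min μ (δ / 2)) 1 := by positivity
      linarith⟩
  have lμ : lam < μ := hlam.trans_le ((min_le_left _ _).trans (min_le_left _ _))
  have lδ : lam < δ / 2 := hlam.trans_le ((min_le_left _ _).trans (min_le_right _ _))
  have l1 : lam < 1 := hlam.trans_le (min_le_right _ _)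
  have hl : lam ∈ Ioc (0 : ℝ) 1 := ⟨hlam0, l1.le⟩
  obtain ⟨emb, eqv⟩ := eqv_Fl hCL hCTR N hl
  obtain ⟨emb', eqv'⟩ := eqv_Fl hCL hCTR N' hl
  refine eqv.trans (Eqv.trans ?_ eqv'.symm)
  have bmono := be_mono hCL hl
  have b15 : be lam (1 / 5) = lam / 5 := by
    rw [be_left hCL hl (by rw [abs_of_pos] <;> norm_num)]; ring
  have b45 : be lam (4 / 5) = 1 - lam / 5 := by
    rw [be_right hCL hl (by rw [abs_of_neg] <;> norm_num)]; ring
  have bmem : ∀ a ∈ Icc (1 / 5 : ℝ) (4 / 5), be lam a ∈ Icc (lam / 5) (1 - lam / 5) := by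
    intro a ha
    exact ⟨b15 ▸ bmono.monotone ha.1, b45 ▸ bmono.monotone ha.2⟩
  have bmem' : ∀ a ∈ Ioo (1 / 5 : ℝ) (4 / 5), be lam a ∈ Ioo (lam / 5) (1 - lam / 5) := by
    intro a ha
    exact ⟨b15 ▸ bmono ha.1, b45 ▸ bmono ha.2⟩
  have hbs : ContDiff ℝ ∞ (fun x : ℝ × ℝ => (x.1, be lam x.2)) :=
    contDiff_fst.prodMk ((contDiff_be lam).comp contDiff_snd)
  have hHl : ContDiff ℝ ∞ (fun x : ℝ × ℝ => H (x.1, be lam x.2)) := hH.comp hbs
  -- the cuffs
  have sm : ∀ x : R3, nsq x = lam ^ 2 / 25 → ‖x‖ ≤ lam / 5 := fun x hx =>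
    norm_le_of_nsq (by linarith) (by rw [hx]; nlinarith)
  have q0 : ∀ (K : R4 → R4), NF K e d δ → ∀ p ∈ sph 0, ∃ x : R3,
      clc 0 lam (clc 1 lam p) = (1 / 2, x) ∧ nsq x = lam ^ 2 / 25 ∧
      ‖clc 0 lam (clc 1 lam p) - ax 0‖ ≤ lam / 5 ∧ Fl K lam p = (1 / 2, x) := by
    intro K NK p hp
    obtain ⟨x, h1, h2⟩ := cuff0 hCL hl hp
    have h3 : ‖clc 0 lam (clc 1 lam p) - ax 0‖ ≤ lam / 5 := by
      rw [h1]
      have : ((1 / 2, x) : R4) - ax 0 = (0, x) := by
        simp [ax]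
      rw [this, Prod.norm_def]
      simpa using sm x h2
    refine ⟨x, h1, h2, h3, ?_⟩
    rw [← h1]
    exact NK.a.near _ (by linarith)
  have q1 : ∀ (K : R4 → R4), NF K e d δ → ∀ p ∈ sph 1, ∃ x : R3,
      clc 0 lam (clc 1 lam p) = (1 / 2, pc 1 + x) ∧ nsq x = lam ^ 2 / 25 ∧
      ‖clc 0 lam (clc 1 lam p) - ax 1‖ ≤ lam / 5 ∧ Fl K lam p = (1 / 2, pc 1 + x) := by
    intro K NK p hp
    obtain ⟨x, h1, h2⟩ := cuff1 hCL hl hp
    have h3 : ‖clc 0 lam (clc 1 lam p) - ax 1‖ ≤ lam / 5 := by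
      rw [h1]
      have : ((1 / 2, pc 1 + x) : R4) - ax 1 = (0, x) := by
        simp [ax, pc]
      rw [this, Prod.norm_def]
      simpa using sm x h2
    refine ⟨x, h1, h2, h3, ?_⟩
    rw [← h1]
    exact NK.b.near _ (by linarith)
  have cm : Continuous fun p : R4 => clc 0 lam (clc 1 lam p) := by
    have c0 : Continuous (clc 0 lam) :=
      ((hCL 0 (Or.inl rfl)).1.comp (contDiff_prodMk_right lam)).continuous
    have c1 : Continuous (clc 1 lam) :=
      ((hCL 1 (Or.inr rfl)).1.comp (contDiff_prodMk_right lam)).continuous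
    exact c0.comp c1
  refine hHL (Fl F lam) (Fl F' lam) (fun a => ec F δ (be lam a))
    (fun x => H (x.1, be lam x.2)) (1 / 50) emb emb' ?_ ?_ ?_ ?_ ?_ ?_
  · -- the germs agree near the cuffs
    refine nearEq_of_eventuallyEq ?_
    rintro p (hp | hp)
    · obtain ⟨x, -, -, h3, -⟩ := q0 F N p hp
      have hopen : IsOpen {q : R4 | ‖clc 0 lam (clc 1 lam q) - ax 0‖ < δ} :=
        isOpen_lt (cm.sub continuous_const).norm continuous_const
      filter_upwards [hopen.mem_nhds (show ‖clc 0 lam (clc 1 lam p) - ax 0‖ < δ by linarith)]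
        with q hq
      exact (N.a.near _ hq).trans (N'.a.near _ hq).symm
    · obtain ⟨x, -, -, h3, -⟩ := q1 F N p hp
      have hopen : IsOpen {q : R4 | ‖clc 0 lam (clc 1 lam q) - ax 1‖ < δ} :=
        isOpen_lt (cm.sub continuous_const).norm continuous_const
      filter_upwards [hopen.mem_nhds (show ‖clc 0 lam (clc 1 lam p) - ax 1‖ < δ by linarith)]
        with q hq
      exact (N.b.near _ hq).trans (N'.b.near _ hq).symm
  · -- the bar data
    refine ⟨emb.1, by norm_num, by norm_num, (contDiff_ec N).comp (contDiff_be lam), hHl, ?_, ?_⟩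
    · intro a ha
      have h1 := bmem a ha
      have h2 : Fl F lam (1 / 2, a, 0) = core F (be lam a) := by
        change F (clc 0 lam (clc 1 lam (ax a))) = F (ax (be lam a))
        rw [be_ax hCL hl]
      rw [h2]
      exact (ec_core N (by linarith [h1.1]) (by linarith [h1.2])).symm
    · intro t a ha
      refine frz t _ ?_
      rcases ha with ha | ha
      · have h1 : be lam a ≤ be lam (11 / 50) := bmono.monotone (by linarith)
        rw [be_left hCL hl (a := 11 / 50) (by rw [abs_of_pos] <;> norm_num)] at h1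
        exact Or.inl (by linarith)
      · have h1 : be lam (39 / 50) ≤ be lam a := bmono.monotone (by linarith)
        rw [be_right hCL hl (a := 39 / 50) (by rw [abs_of_neg] <;> norm_num)] at h1
        exact Or.inr (Or.inr (Or.inr (by linarith)))
  · -- the ends of the family
    intro a ha
    refine ⟨H0 _, ?_⟩
    have h1 := bmem a ha
    change H (1, be lam a) = F' (clc 0 lam (clc 1 lam (ax a)))
    rw [H1, be_ax hCL hl]
    exact ec_core N' (by linarith [h1.1]) (by linarith [h1.2])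
  · -- immersed
    intro t ht a ha
    have h1 := bmem a ha
    have e1 := fderiv_snd hHl t a
    have e2 : HasDerivAt (fun r => H (t, be lam r))
        (deriv (be lam) a • fderiv ℝ H (t, be lam a) (0, 1)) a :=
      (fderiv_snd hH t (be lam a)).scomp a
        (((contDiff_be lam).differentiable (by simp) a).hasDerivAt)
    rw [e1.unique e2]
    exact smul_ne_zero (be_deriv hCL hl a).ne'
      (imm t ht _ ⟨by linarith [h1.1], by linarith [h1.2]⟩)
  · -- embedded
    intro t ht a ha b hb hab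
    have h1 := bmem a ha
    have h2 := bmem b hb
    have hab' : H (t, be lam a) = H (t, be lam b) := hab
    refine bmono.injective ?_
    rcases lt_trichotomy (be lam a) (be lam b) with h3 | h3 | h3
    · exfalso
      rcases inj t ht _ _ (by linarith [h1.1]) h3 (by linarith [h2.2]) hab' with h4 | h4
      · linarith [h1.1, h4.1]
      · linarith [h2.2, h4.2]
    · exact h3
    · exfalso
      rcases inj t ht _ _ (by linarith [h2.1]) h3 (by linarith [h1.2]) hab'.symm with h4 | h4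
      · linarith [h2.1, h4.1]
      · linarith [h1.2, h4.2]
  · -- off the cuffs
    rintro t ht a ha ⟨q, hq | hq, hqe⟩
    · have h1 := bmem' a ha
      obtain ⟨x, e1, e2, e3, e4⟩ := q0 F N q hq
      have hqe' : ((1 / 2, x) : R4) = H (t, be lam a) := e4.symm.trans hqe
      set u := be lam a with hu
      rcases le_or_gt u (δ / 2) with h2 | h2
      · rw [frz t u (Or.inl h2), ec_ax N (Or.inl (by linarith))] at hqe'
        have h3 : x = (u, 0) := congrArg Prod.snd hqe'
        rw [h3] at e2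
        simp only [nsq, Complex.zero_re, Complex.zero_im] at e2
        nlinarith [h1.1]
      · rcases lt_or_ge |u - 3 / 5| (δ / 2) with h3 | h3
        · have h3' := abs_lt.1 h3
          rw [frz t u (Or.inr (Or.inr (Or.inl h3.le))), ec_core N (by linarith) (by linarith),
            core_35 N (by linarith)] at hqe'
          have h4 : x = pc 0 := congrArg Prod.snd hqe'
          rw [h4] at e2
          simp only [nsq, pc, Complex.zero_re, Complex.zero_im] at e2
          nlinarith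
        · have h4 := far0 t ht u ⟨h2.le, by linarith [h1.2]⟩ h3
          rw [← hqe', ← e1] at h4
          linarith
    · have h1 := bmem' a ha
      obtain ⟨x, e1, e2, e3, e4⟩ := q1 F N q hq
      have hqe' : ((1 / 2, pc 1 + x) : R4) = H (t, be lam a) := e4.symm.trans hqe
      set u := be lam a with hu
      rcases le_or_gt (1 - δ / 2) u with h2 | h2
      · rw [frz t u (Or.inr (Or.inr (Or.inr h2))), ec_ax N (Or.inr (by linarith))] at hqe'
        have h3 : pc 1 + x = (u, 0) := congrArg Prod.snd hqe'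
        have h4 : x = (u - 1, 0) := by
          rw [eq_sub_of_add_eq' h3]
          simp [pc]
        rw [h4] at e2
        simp only [nsq, Complex.zero_re, Complex.zero_im] at e2
        nlinarith [h1.2]
      · rcases lt_or_ge |u - 2 / 5| (δ / 2) with h3 | h3
        · have h3' := abs_lt.1 h3
          rw [frz t u (Or.inr (Or.inl h3.le)), ec_core N (by linarith) (by linarith),
            core_25 N (by linarith)] at hqe'
          have h4 : pc 1 + x = pc 1 := congrArg Prod.snd hqe'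
          have h5 : x = 0 := by simpa using h4
          rw [h5] at e2
          simp only [nsq, Prod.fst_zero, Prod.snd_zero, Complex.zero_re, Complex.zero_im] at e2
          nlinarith
        · have h4 := far1 t ht u ⟨by linarith [h1.1], h2.le⟩ h3
          rw [← hqe', ← e1] at h4
          linarith

end Pool.Agent.Helper70.BI


end
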