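import Pool.Agent.Helper65.Barb.Defs
import Pool.Agent.Helper70.BI.C.P13
import Pool.Agent.Helper70.BI.C.P18

/-!
# Project BI (MP_8e98f2_gt): collected modules, part 50

The contents of the modules
* Helper70.BI.M_SYM
* Helper70.BI.M_R3T
* Helper70.BI.M_V1
* Helper70.BI.M_NO1
* Helper70.BI.M_NO
* Helper70.BI.M_FML
* Helper70.BI.M_OBP
* Helper34.BI.Main
* Helper70.BI.M_Main2
* Helper70.BI.M_DET

in one file, so that the whole proof builds in a short time.
-/

namespace Pool.Agent.Helper18.BI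
end Pool.Agent.Helper18.BI

namespace Pool.Agent.Helper27.BI
end Pool.Agent.Helper27.BI

namespace Pool.Agent.Helper34.BI
end Pool.Agent.Helper34.BI

namespace Pool.Agent.Helper65.Barb
end Pool.Agent.Helper65.Barb


/-! ## Helper70.BI.M_SYM -/

section

/-!
# Project BI, part (E): symmetries of theta germs
-/

set_option autoImplicit false

open scoped Manifold ContDiff Topology ComplexConjugate
open Set Filter Pool.Agent.Helper65.Barb Pool.Agent.Helper18.BI

namespace Pool.Agent.Helper70.BI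

open Pool.Agent.Helper27.BI (refh refs swp)

namespace SYM

/-- an affine symmetry `R = L + v` of `R4` exchanging the ends `c` and `c'` -/
private structure Sy (R : R4 → R4) (L : R4 →L[ℝ] R4) (c c' σ ε : ℝ) (m : ℝ → ℝ) : Prop where
  aff : ∃ v : R4, ∀ p, R p = L p + v
  inv : ∀ p, R (R p) = p
  LL : ∀ v, L (L v) = v
  half : ∀ p : R4, p.1 = 1 / 2 → (R p).1 = 1 / 2
  rs : ∀ p, rsq c (R p) = rsq c' p
  rs' : ∀ p, rsq (1 - c) (R p) = rsq (1 - c') p
  SPm : ∀ p ∈ SP, R p ∈ SP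
  ax : ∀ a, R (ax a) = ax (m a)
  mm : ∀ a, m (m a) = a
  mIoo : ∀ a ∈ Ioo (1 / 5 : ℝ) (4 / 5), m a ∈ Ioo (1 / 5 : ℝ) (4 / 5)
  mIcc : ∀ a ∈ Icc (1 / 5 : ℝ) (4 / 5), m a ∈ Icc (1 / 5 : ℝ) (4 / 5)
  foot : m (1 / 5 + 3 / 5 * c) = 1 / 5 + 3 / 5 * c'
  L1 : L (0, ((1 : ℝ), (0 : ℂ))) = σ • (0, ((1 : ℝ), (0 : ℂ)))
  Le : ∀ (l : ℝ) (v : R3), (L (l, v)).1 = ε * l
  ss : σ * σ = 1
  ee : ε * ε = 1

private theorem Sy.der {R : R4 → R4} {L : R4 →L[ℝ] R4} {c c' σ ε : ℝ} {m : ℝ → ℝ}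
    (h : Sy R L c c' σ ε m) (p : R4) : HasFDerivAt R L p := by
  obtain ⟨v, hv⟩ := h.aff
  have e : R = fun p => L p + v := funext hv
  rw [e]
  exact L.hasFDerivAt.add_const v

private theorem Sy.ld {R : R4 → R4} {L : R4 →L[ℝ] R4} {c c' σ ε : ℝ} {m : ℝ → ℝ}
    (h : Sy R L c c' σ ε m) (p : R4) : LD R p := by
  rw [ld_iff]
  obtain ⟨v, hv⟩ := h.aff
  have e : R = fun p => L p + v := funext hv
  refine ⟨Eventually.of_forall fun q => ?_, ?_⟩
  · rw [e]
    exact (L.contDiff.add contDiff_const).contDiffAt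
  · rw [(h.der p).fderiv]
    intro x y hxy
    rw [← h.LL x, hxy, h.LL]

private theorem Sy.injective {R : R4 → R4} {L : R4 →L[ℝ] R4} {c c' σ ε : ℝ} {m : ℝ → ℝ}
    (h : Sy R L c c' σ ε m) : Function.Injective R := fun x y hxy => by
  rw [← h.inv x, hxy, h.inv]

private theorem Sy.flatm {R : R4 → R4} {L : R4 →L[ℝ] R4} {c c' σ ε : ℝ} {m : ℝ → ℝ}
    (h : Sy R L c c' σ ε m) {p : R4} (hp : p ∈ flat c') : R p ∈ flat c :=
  ⟨h.half p hp.1, by rw [h.rs]; exact hp.2⟩

private theorem Sy.sphm {R : R4 → R4} {L : R4 →L[ℝ] R4} {c c' σ ε : ℝ} {m : ℝ → ℝ}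
    (h : Sy R L c c' σ ε m) {p : R4} (hp : p ∈ sph (1 - c')) : R p ∈ sph (1 - c) :=
  ⟨h.half p hp.1, by rw [h.rs']; exact hp.2⟩

private theorem Sy.fd {R : R4 → R4} {L : R4 →L[ℝ] R4} {c c' σ ε : ℝ} {m : ℝ → ℝ}
    (h : Sy R L c c' σ ε m) {F : R4 → R4} {p : R4} (hF : LD F (R p)) :
    fderiv ℝ (fun p => F (R p)) p = (fderiv ℝ F (R p)).comp L := by
  have h1 : DifferentiableAt ℝ F (R p) :=
    ((ld_iff.1 hF).1.self_of_nhds).differentiableAt (by simp)
  exact (h1.hasFDerivAt.comp p (h.der p)).fderiv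

private theorem Sy.br {R : R4 → R4} {L : R4 →L[ℝ] R4} {c c' σ ε : ℝ} {m : ℝ → ℝ}
    (h : Sy R L c c' σ ε m) {F : R4 → R4} {γ e : ℝ} (hF : Br c F γ e) :
    Br c' (fun p => F (R p)) (m γ) (ε * σ * e) where
  loc p hp := by
    refine ld_comp (h.ld p) (hF.loc _ ?_)
    rcases hp with hp | hp
    · exact Or.inl (h.SPm p hp)
    · exact Or.inr (h.flatm hp)
  inj p hp q hq he := h.injective (hF.inj (h.SPm p hp) (h.SPm q hq) he)
  injF p hp q hq he := by
    have hm : ∀ p ∈ flat c' ∪ sph (1 - c'), R p ∈ flat c ∪ sph (1 - c) := by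
      rintro p (hp | hp)
      · exact Or.inl (h.flatm hp)
      · exact Or.inr (h.sphm hp)
    exact h.injective (hF.injF (hm p hp) (hm q hq) he)
  mem := h.mIoo _ hF.mem
  cr := by
    obtain ⟨x₀, h1, h2, l, v, h3, h4⟩ := hF.cr
    have hx₀ : ((1 / 2 : ℝ), x₀) ∈ flat c := ⟨rfl, by
      have : rsq c ((1 / 2 : ℝ), x₀) = nsq (x₀ - pc c) := by
        simp [rsq, pc, nsq]
      rw [this]; exact h1.le⟩
    set p' : R4 := R (1 / 2, x₀) with hp'
    have e1 : ((1 / 2 : ℝ), p'.2) = p' := Prod.ext (h.half _ rfl).symm rfl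
    have e2 : R p' = (1 / 2, x₀) := h.inv _
    refine ⟨p'.2, ?_, ?_, (L (σ • (l, v))).1, (L (σ • (l, v))).2, ?_, ?_⟩
    · have e3 : nsq (p'.2 - pc c') = rsq c' p' := by
        simp [rsq, pc, nsq]
      have e4 : rsq c' p' = rsq c (R p') := (h.rs p').symm
      have e5 : rsq c ((1 / 2 : ℝ), x₀) = nsq (x₀ - pc c) := by
        simp [rsq, pc, nsq]
      rw [e3, e4, e2, e5]
      exact h1
    · change F (R (BI.ax (m γ))) = F (R (1 / 2, p'.2))
      rw [h.ax, h.mm, e1, e2]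
      exact h2
    · have e3 : (L (σ • (l, v))).1 = ε * (σ * l) := by
        rw [Prod.smul_mk, h.Le]; rfl
      rw [e3]
      have := h.ss
      have := h.ee
      have e4 : ε * σ * e * (ε * (σ * l)) = (ε * ε) * (σ * σ) * (e * l) := by ring
      rw [e4, h.ss, h.ee, one_mul, one_mul]
      exact h3
    · have hg : BI.ax γ ∈ SP := by
        refine Or.inr ⟨rfl, hF.mem.1.le, hF.mem.2.le, rfl⟩
      have hR : R (BI.ax (m γ)) = BI.ax γ := by rw [h.ax, h.mm]
      rw [h.fd (p := BI.ax (m γ)) (by rw [hR]; exact hF.loc _ (Or.inl hg)),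
        h.fd (p := (1 / 2, p'.2)) (by rw [e1, e2]; exact hF.loc _ (Or.inr hx₀)), hR]
      rw [e1, e2]
      simp only [ContinuousLinearMap.comp_apply, Prod.mk.eta]
      rw [h.LL, h.L1, map_smul, map_smul, h4]
  only a ha hmem := by
    have h1 : core F (m a) ∈ F '' flat c := by
      obtain ⟨p, hp, he⟩ := hmem
      refine ⟨R p, h.flatm hp, ?_⟩
      have : F (R p) = F (R (BI.ax a)) := he
      rw [this, h.ax]
      rfl
    rcases hF.only (m a) (h.mIcc a ha) h1 with h2 | h2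
    · left
      rw [← h.foot, ← h2, h.mm]
    · right
      rw [← h2, h.mm]

private theorem Sy.image {R : R4 → R4} {L : R4 →L[ℝ] R4} {c c' σ ε : ℝ} {m : ℝ → ℝ}
    (h : Sy R L c c' σ ε m) (F : R4 → R4) :
    (fun p => F (R p)) '' flat c' ⊆ F '' flat c := by
  rintro _ ⟨p, hp, rfl⟩
  exact ⟨R p, h.flatm hp, rfl⟩

private noncomputable def LH : R4 →L[ℝ] R4 :=
  (ContinuousLinearMap.id ℝ ℝ).prodMap ((ContinuousLinearMap.id ℝ ℝ).prodMap
    (Complex.conjCLE : ℂ →L[ℝ] ℂ))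

private noncomputable def LS : R4 →L[ℝ] R4 :=
  (-(ContinuousLinearMap.id ℝ ℝ)).prodMap ((ContinuousLinearMap.id ℝ ℝ).prodMap
    (ContinuousLinearMap.id ℝ ℂ))

private noncomputable def LW : R4 →L[ℝ] R4 :=
  (ContinuousLinearMap.id ℝ ℝ).prodMap ((-(ContinuousLinearMap.id ℝ ℝ)).prodMap
    (Complex.conjCLE : ℂ →L[ℝ] ℂ))

private theorem det_neg_id : LinearMap.det (-(LinearMap.id : ℝ →ₗ[ℝ] ℝ)) = -1 := by
  have h : (-(LinearMap.id : ℝ →ₗ[ℝ] ℝ)) = (-1 : ℝ) • LinearMap.id := by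
    refine LinearMap.ext fun x => ?_
    change -x = (-1 : ℝ) * x
    ring
  rw [h, LinearMap.det_smul]
  simp

private theorem det_conj : LinearMap.det ((Complex.conjCLE : ℂ →L[ℝ] ℂ) : ℂ →ₗ[ℝ] ℂ) = -1 :=
  Complex.det_conjAe

private theorem det_LH : LH.det = -1 := by
  have h : (LH : R4 →ₗ[ℝ] R4) = (LinearMap.id : ℝ →ₗ[ℝ] ℝ).prodMap
      ((LinearMap.id : ℝ →ₗ[ℝ] ℝ).prodMap ((Complex.conjCLE : ℂ →L[ℝ] ℂ) : ℂ →ₗ[ℝ] ℂ)) := rfl
  rw [ContinuousLinearMap.det, h, LinearMap.det_prodMap, LinearMap.det_prodMap, det_conj,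
    LinearMap.det_id]
  norm_num

private theorem det_LS : LS.det = -1 := by
  have h : (LS : R4 →ₗ[ℝ] R4) = (-(LinearMap.id : ℝ →ₗ[ℝ] ℝ)).prodMap
      ((LinearMap.id : ℝ →ₗ[ℝ] ℝ).prodMap (LinearMap.id : ℂ →ₗ[ℝ] ℂ)) := rfl
  rw [ContinuousLinearMap.det, h, LinearMap.det_prodMap, LinearMap.det_prodMap, det_neg_id,
    LinearMap.det_id, LinearMap.det_id]
  norm_num

private theorem det_LW : LW.det = 1 := by
  have h : (LW : R4 →ₗ[ℝ] R4) = (LinearMap.id : ℝ →ₗ[ℝ] ℝ).prodMap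
      ((-(LinearMap.id : ℝ →ₗ[ℝ] ℝ)).prodMap ((Complex.conjCLE : ℂ →L[ℝ] ℂ) : ℂ →ₗ[ℝ] ℂ)) := rfl
  rw [ContinuousLinearMap.det, h, LinearMap.det_prodMap, LinearMap.det_prodMap, det_conj,
    LinearMap.det_id, det_neg_id]
  norm_num

private theorem SP_of {R : R4 → R4} (h0 : ∀ p, rsq 0 (R p) = rsq 0 p)
    (h1 : ∀ p, rsq 1 (R p) = rsq 1 p) (hh : ∀ p : R4, p.1 = 1 / 2 → (R p).1 = 1 / 2)
    (ha : ∀ p, (R p).2.1 = p.2.1) (hw : ∀ p : R4, p.2.2 = 0 → (R p).2.2 = 0) :
    ∀ p ∈ SP, R p ∈ SP := by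
  rintro p ((hp | hp) | hp)
  · exact Or.inl (Or.inl ⟨hh p hp.1, by rw [h0]; exact hp.2⟩)
  · exact Or.inl (Or.inr ⟨hh p hp.1, by rw [h1]; exact hp.2⟩)
  · exact Or.inr ⟨hh p hp.1, by rw [ha]; exact hp.2.1, by rw [ha]; exact hp.2.2.1,
      hw p hp.2.2.2⟩

private theorem rsq_h (c : ℝ) (p : R4) : rsq c (refh p) = rsq c p := by
  simp [rsq, nsq, refh]

private theorem rsq_s (c : ℝ) (p : R4) : rsq c (refs p) = rsq c p := rfl

private theorem rsq_w (c : ℝ) (p : R4) : rsq c (swp p) = rsq (1 - c) p := by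
  simp only [rsq, nsq, swp, Complex.conj_re, Complex.conj_im]; ring

private theorem syH (c : ℝ) : Sy refh LH c c 1 1 (fun a => a) where
  aff := ⟨0, fun p => by rw [add_zero]; rfl⟩
  inv p := by simp [refh]
  LL v := Prod.ext rfl (Prod.ext rfl (Complex.conj_conj _))
  half p hp := hp
  rs := rsq_h c
  rs' := rsq_h (1 - c)
  SPm := SP_of (rsq_h 0) (rsq_h 1) (fun p hp => hp) (fun p => rfl) (fun p hp => by
    simp [refh, hp])
  ax a := by simp [refh, BI.ax]
  mm a := rfl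
  mIoo a ha := ha
  mIcc a ha := ha
  foot := rfl
  L1 := by simp [LH]
  Le l v := by simp [LH]
  ss := by norm_num
  ee := by norm_num

private theorem syS (c : ℝ) : Sy refs LS c c 1 (-1) (fun a => a) where
  aff := ⟨(1, (0, 0)), fun p => by
    refine Prod.ext ?_ (Prod.ext ?_ ?_)
    · change 1 - p.1 = -p.1 + 1
      ring
    · change p.2.1 = p.2.1 + 0
      ring
    · change p.2.2 = p.2.2 + 0
      ring⟩
  inv p := by simp [refs]
  LL v := Prod.ext (neg_neg _) rfl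
  half p hp := by
    change 1 - p.1 = 1 / 2
    rw [hp]; norm_num
  rs := rsq_s c
  rs' := rsq_s (1 - c)
  SPm := SP_of (rsq_s 0) (rsq_s 1) (fun p hp => by
    change 1 - p.1 = 1 / 2
    rw [hp]; norm_num) (fun p => rfl) (fun p hp => hp)
  ax a := by
    refine Prod.ext ?_ rfl
    change 1 - (1 / 2 : ℝ) = 1 / 2
    norm_num
  mm a := rfl
  mIoo a ha := ha
  mIcc a ha := ha
  foot := rfl
  L1 := by simp [LS]
  Le l v := by simp [LS]
  ss := by norm_num
  ee := by norm_num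

private theorem syW (c : ℝ) (hc : c = 0 ∨ c = 1) :
    Sy swp LW c (1 - c) (-1) 1 (fun a => 1 - a) where
  aff := ⟨(0, (1, 0)), fun p => by
    refine Prod.ext ?_ (Prod.ext ?_ ?_)
    · change p.1 = p.1 + 0
      ring
    · change 1 - p.2.1 = -p.2.1 + 1
      ring
    · change conj p.2.2 = conj p.2.2 + 0
      ring⟩
  inv p := by simp [swp]
  LL v := Prod.ext rfl (Prod.ext (neg_neg _) (Complex.conj_conj _))
  half p hp := hp
  rs p := by rw [rsq_w]
  rs' p := by rw [rsq_w]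
  SPm := by
    rintro p ((hp | hp) | hp)
    · exact Or.inl (Or.inr ⟨hp.1, by rw [rsq_w, sub_self]; exact hp.2⟩)
    · exact Or.inl (Or.inl ⟨hp.1, by rw [rsq_w, sub_zero]; exact hp.2⟩)
    · refine Or.inr ⟨hp.1, ?_, ?_, ?_⟩
      · change 1 / 5 ≤ 1 - p.2.1
        linarith [hp.2.2.1]
      · change 1 - p.2.1 ≤ 4 / 5
        linarith [hp.2.1]
      · change conj p.2.2 = 0
        rw [hp.2.2.2, map_zero]
  ax a := by
    refine Prod.ext rfl (Prod.ext rfl ?_)
    change conj (0 : ℂ) = 0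
    rw [map_zero]
  mm a := by ring
  mIoo a ha := ⟨by linarith [ha.2], by linarith [ha.1]⟩
  mIcc a ha := ⟨by linarith [ha.2], by linarith [ha.1]⟩
  foot := by ring
  L1 := by
    refine Prod.ext ?_ (Prod.ext ?_ ?_)
    · simp [LW]
    · simp [LW]
    · simp [LW]
  Le l v := by simp [LW]
  ss := by norm_num
  ee := by norm_num

private theorem det_comp' (A B : R4 →L[ℝ] R4) : (A.comp B).det = A.det * B.det := by
  rw [ContinuousLinearMap.det, ContinuousLinearMap.det, ContinuousLinearMap.det,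
    ContinuousLinearMap.toLinearMap_comp, LinearMap.det_comp]

end SYM

open SYM in
theorem m_SYM : StSYM := by
  intro F α β e d hF
  have h0 : ax (1 / 2) ∈ SP := Or.inr ⟨rfl, by norm_num [ax], by norm_num [ax], rfl⟩
  have hld : LD F (ax (1 / 2)) := hF.a.loc _ (Or.inl h0)
  have hfH : (fderiv ℝ (fun p => F (refh p)) (ax (1 / 2))).det =
      -(fderiv ℝ F (ax (1 / 2))).det := by
    have e1 : refh (ax (1 / 2)) = ax (1 / 2) := (syH 0).ax _
    rw [(syH 0).fd (by rw [e1]; exact hld), det_comp', det_LH, e1]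
    ring
  have hfS : (fderiv ℝ (fun p => F (refs p)) (ax (1 / 2))).det =
      -(fderiv ℝ F (ax (1 / 2))).det := by
    have e1 : refs (ax (1 / 2)) = ax (1 / 2) := (syS 0).ax _
    rw [(syS 0).fd (by rw [e1]; exact hld), det_comp', det_LS, e1]
    ring
  have hfW : (fderiv ℝ (fun p => F (swp p)) (ax (1 / 2))).det =
      (fderiv ℝ F (ax (1 / 2))).det := by
    have e1 : swp (ax (1 / 2)) = ax (1 / 2) := by
      rw [(syW 0 (Or.inl rfl)).ax]
      norm_num
    rw [(syW 0 (Or.inl rfl)).fd (by rw [e1]; exact hld), det_comp', det_LW, e1]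
    ring
  refine ⟨⟨?_, fun h => by rw [hfH]; linarith, fun h => by rw [hfH]; linarith⟩,
    ⟨?_, fun h => by rw [hfS]; linarith⟩, ⟨?_, fun h => by rw [hfW]; exact h⟩, ?_⟩
  · refine ⟨?_, ?_, hF.dis.mono ((syH 0).image F) ((syH 1).image F), hF.ord⟩
    · have := (syH 0).br hF.a
      rwa [one_mul, one_mul] at this
    · have := (syH 1).br hF.b
      rwa [one_mul, one_mul] at this
  · refine ⟨?_, ?_, hF.dis.mono ((syS 0).image F) ((syS 1).image F), hF.ord⟩
    · have := (syS 0).br hF.a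
      rwa [mul_one, neg_one_mul] at this
    · have := (syS 1).br hF.b
      rwa [mul_one, neg_one_mul] at this
  · refine ⟨?_, ?_, ?_, ?_⟩
    · have := (syW 1 (Or.inr rfl)).br hF.b
      rwa [one_mul, neg_one_mul, sub_self] at this
    · have := (syW 0 (Or.inl rfl)).br hF.a
      rwa [one_mul, neg_one_mul, sub_zero] at this
    · have h1 := (syW 1 (Or.inr rfl)).image F
      have h2 := (syW 0 (Or.inl rfl)).image F
      rw [sub_self] at h1
      rw [sub_zero] at h2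
      exact hF.dis.symm.mono h1 h2
    · have := hF.ord
      linarith
  · intro h
    have h1 : LinearMap.det ((fderiv ℝ F (ax (1 / 2)) : R4 →L[ℝ] R4) : R4 →ₗ[ℝ] R4) = 0 := h
    have h2 := LinearMap.bot_lt_ker_of_det_eq_zero h1
    have h3 := (ld_iff.1 hld).2
    rw [LinearMap.ker_eq_bot.2 h3] at h2
    exact lt_irrefl _ h2

end Pool.Agent.Helper70.BI


end

/-! ## Helper70.BI.M_R3T -/

section

/-!
# Module R3T: the two factors are theta germs
-/

set_option autoImplicit false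

open scoped Manifold ContDiff Topology ComplexConjugate
open Set Filter Pool.Agent.Helper65.Barb Pool.Agent.Helper18.BI

namespace Pool.Agent.Helper70.BI

open Pool.Agent.Helper27.BI (IsKap)

namespace R3T

private theorem rsq_eq (c : ℝ) (p : R4) :
    rsq c p = (p.2.1 - c) ^ 2 + p.2.2.re ^ 2 + p.2.2.im ^ 2 := rfl

private theorem flat0_le {p : R4} (h : p ∈ flat 0) : p.2.1 ≤ 1 / 5 := by
  have h2 : rsq 0 p ≤ 1 / 25 := h.2
  rw [rsq_eq] at h2
  nlinarith [sq_nonneg p.2.2.re, sq_nonneg p.2.2.im]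

private theorem flat1_ge {p : R4} (h : p ∈ flat 1) : 4 / 5 ≤ p.2.1 := by
  have h2 : rsq 1 p ≤ 1 / 25 := h.2
  rw [rsq_eq] at h2
  nlinarith [sq_nonneg p.2.2.re, sq_nonneg p.2.2.im]

private theorem ax_mem_neck {a : ℝ} (h : a ∈ Icc (1 / 5 : ℝ) (4 / 5)) : ax a ∈ neck :=
  ⟨rfl, h.1, h.2, rfl⟩

private theorem neck_ax {p : R4} (h : p ∈ neck) : ∃ a ∈ Icc (1 / 5 : ℝ) (4 / 5), p = ax a := by
  obtain ⟨h1, h2, h3, h4⟩ := h
  refine ⟨p.2.1, ⟨h2, h3⟩, ?_⟩
  exact Prod.ext h1 (Prod.ext rfl h4)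

private theorem fderiv_core {J : R4 → R4} {a : ℝ} (hJ : LD J (ax a)) {c : ℝ → R4} {c' : R4}
    (h : core J =ᶠ[𝓝 a] c) (hc : HasDerivAt c c' a) :
    fderiv ℝ J (ax a) (0, ((1 : ℝ), (0 : ℂ))) = c' := by
  have hd : HasFDerivAt J (fderiv ℝ J (ax a)) (ax a) :=
    ((ld_iff.1 hJ).1.self_of_nhds.differentiableAt (by simp)).hasFDerivAt
  have hax : HasDerivAt ax (0, ((1 : ℝ), (0 : ℂ))) a :=
    (hasDerivAt_const a (1 / 2 : ℝ)).prodMk ((hasDerivAt_id a).prodMk (hasDerivAt_const a (0 : ℂ)))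
  have h1 : HasDerivAt (core J) (fderiv ℝ J (ax a) (0, ((1 : ℝ), (0 : ℂ)))) a :=
    hd.comp_hasDerivAt a hax
  exact h1.unique (hc.congr_of_eventuallyEq h)

private theorem fderiv_id_of {F : R4 → R4} {p : R4} (h : ∀ᶠ q in 𝓝 p, F q = q) :
    fderiv ℝ F p = ContinuousLinearMap.id ℝ R4 := by
  have h1 : F =ᶠ[𝓝 p] id := h
  rw [h1.fderiv_eq, fderiv_id]

/-- what we need of the pushing map -/
private structure KH (k : R4 → R4) (y z : R3) : Prop where
  inj : Function.Injective k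
  ld : ∀ p, LD k p
  fst : ∀ p, (k p).1 = p.1
  far : ∀ p : R4, 17 / 100 ≤ p.2.1 → k p = p
  small : ∀ p, rsq 0 p ≤ 1 / 25 → rsq 0 (k p) ≤ 1 / 25
  ne : ∀ p ∈ flat 0, k p ≠ (1 / 2, z)
  near : ∀ᶠ p in 𝓝 ((1 / 2, y) : R4), k p = p

private theorem core_strand {J : R4 → R4} {d : ℝ} (hJ : IsJ1 J d) :
    fderiv ℝ J (ax (2 / 5)) (0, ((1 : ℝ), (0 : ℂ))) = (d, 0) := by
  have hm : ax (2 / 5) ∈ FB := Or.inr (ax_mem_neck (by constructor <;> norm_num))
  refine fderiv_core (hJ.loc _ hm) (c := fun a => (1 / 2 + d * (a - 2 / 5), pc 1)) ?_ ?_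
  · have : ∀ᶠ a : ℝ in 𝓝 (2 / 5), |a - 2 / 5| < 1 / 100 := by
      have := Metric.ball_mem_nhds (2 / 5 : ℝ) (show (0 : ℝ) < 1 / 100 by norm_num)
      filter_upwards [this] with a ha
      simpa [Real.dist_eq] using ha
    filter_upwards [this] with a ha using hJ.strand a ha.le
  · have h1 : HasDerivAt (fun a : ℝ => 1 / 2 + d * (a - 2 / 5)) d (2 / 5) := by
      have := (((hasDerivAt_id (2 / 5 : ℝ)).sub_const (2 / 5)).const_mul d).const_add (1 / 2)
      simpa using this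
    exact h1.prodMk (hasDerivAt_const _ _)

private theorem core_para {J : R4 → R4} {d : ℝ} (hJ : IsJ1 J d) {γ : ℝ}
    (hγ : |γ - 3 / 5| < 3 / 200) :
    fderiv ℝ J (ax γ) (0, ((1 : ℝ), (0 : ℂ))) = (-20 * (100 * (γ - 3 / 5)), ((0 : ℝ), (5 : ℂ))) := by
  have hm : ax γ ∈ FB := Or.inr (ax_mem_neck (by
    rw [abs_lt] at hγ
    constructor <;> linarith [hγ.1, hγ.2]))
  refine fderiv_core (hJ.loc _ hm) (c := fun a => (1 / 2 + (1 - (100 * (a - 3 / 5)) ^ 2) / 10,
      ((0 : ℝ), (((1 + 100 * (a - 3 / 5)) / 20 : ℝ) : ℂ)))) ?_ ?_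
  · have : ∀ᶠ a : ℝ in 𝓝 γ, |a - 3 / 5| < 3 / 200 := by
      have hc : Continuous fun a : ℝ => |a - 3 / 5| := by fun_prop
      exact hc.continuousAt.eventually (gt_mem_nhds hγ)
    filter_upwards [this] with a ha using hJ.para a ha.le
  · have h0 : HasDerivAt (fun a : ℝ => 100 * (a - 3 / 5)) 100 γ := by
      simpa using ((hasDerivAt_id γ).sub_const (3 / 5)).const_mul 100
    have h1 : HasDerivAt (fun a : ℝ => 1 / 2 + (1 - (100 * (a - 3 / 5)) ^ 2) / 10)
        (-20 * (100 * (γ - 3 / 5))) γ := by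
      have := (((h0.pow 2).const_sub 1).div_const 10).const_add (1 / 2)
      refine this.congr_deriv ?_
      simp
      ring
    have h2 : HasDerivAt (fun a : ℝ => (((1 + 100 * (a - 3 / 5)) / 20 : ℝ) : ℂ)) 5 γ := by
      have h3 : HasDerivAt (fun a : ℝ => (1 + 100 * (a - 3 / 5)) / 20) 5 γ := by
        refine ((h0.const_add 1).div_const 20).congr_deriv ?_
        norm_num
      exact_mod_cast h3.ofReal_comp
    exact h1.prodMk ((hasDerivAt_const _ _).prodMk h2)

private theorem core_end0 {J : R4 → R4} {d : ℝ} (hJ : IsJ1 J d) : core J (1 / 5) = ax (1 / 5) :=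
  hJ.ends _ (Or.inl (by change (1 / 5 : ℝ) ≤ 9 / 40; norm_num))

private theorem core_end1 {J : R4 → R4} {d : ℝ} (hJ : IsJ1 J d) : core J (4 / 5) = ax (4 / 5) :=
  hJ.ends _ (Or.inr (by change (31 / 40 : ℝ) ≤ 4 / 5; norm_num))

private theorem core_flat0 {J : R4 → R4} {d : ℝ} (hJ : IsJ1 J d) {a : ℝ}
    (ha : a ∈ Icc (1 / 5 : ℝ) (4 / 5)) (h : core J a ∈ flat 0) :
    a = 1 / 5 ∨ a = 59 / 100 ∨ a = 61 / 100 := by
  rcases eq_or_lt_of_le ha.1 with h1 | h1
  · exact Or.inl h1.symm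
  rcases eq_or_lt_of_le ha.2 with h2 | h2
  · rw [h2, core_end1 hJ] at h
    have h3 : (4 / 5 : ℝ) ≤ 1 / 5 := flat0_le h
    norm_num at h3
  by_cases h3 : |a - 2 / 5| ≤ 1 / 100
  · rw [hJ.strand a h3] at h
    have h4 : (1 : ℝ) ≤ 1 / 5 := flat0_le h
    norm_num at h4
  by_cases h4 : |a - 3 / 5| ≤ 3 / 200
  · rw [hJ.para a h4] at h
    have h5 : 1 / 2 + (1 - (100 * (a - 3 / 5)) ^ 2) / 10 = 1 / 2 := h.1
    have h6 : (100 * (a - 3 / 5) - 1) * (100 * (a - 3 / 5) + 1) = 0 := by linarith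
    rcases mul_eq_zero.1 h6 with h7 | h7
    · right; right; linarith
    · right; left; linarith
  · rcases hJ.off a ⟨h1, h2⟩ (not_le.1 h3) (not_le.1 h4) with h5 | h5
    · exact absurd h.1 h5
    · linarith [flat0_le h, h5.1]

private theorem core_flat1 {J : R4 → R4} {d : ℝ} (hd : d = 1 ∨ d = -1) (hJ : IsJ1 J d) {a : ℝ}
    (ha : a ∈ Icc (1 / 5 : ℝ) (4 / 5)) (h : core J a ∈ flat 1) : a = 4 / 5 ∨ a = 2 / 5 := by
  rcases eq_or_lt_of_le ha.2 with h2 | h2
  · exact Or.inl h2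
  rcases eq_or_lt_of_le ha.1 with h1 | h1
  · rw [← h1, core_end0 hJ] at h
    have h3 : (4 / 5 : ℝ) ≤ 1 / 5 := flat1_ge h
    norm_num at h3
  by_cases h3 : |a - 2 / 5| ≤ 1 / 100
  · rw [hJ.strand a h3] at h
    have h4 : 1 / 2 + d * (a - 2 / 5) = 1 / 2 := h.1
    right
    rcases hd with rfl | rfl <;> linarith
  by_cases h4 : |a - 3 / 5| ≤ 3 / 200
  · rw [hJ.para a h4] at h
    have h5 : (4 / 5 : ℝ) ≤ 0 := flat1_ge h
    norm_num at h5
  · rcases hJ.off a ⟨h1, h2⟩ (not_le.1 h3) (not_le.1 h4) with h5 | h5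
    · exact absurd h.1 h5
    · linarith [flat1_ge h, h5.2]

private theorem main (hDET : StDET) {J : R4 → R4} {d : ℝ} (hd : d = 1 ∨ d = -1) (hJ : IsJ1 J d)
    {k : R4 → R4} {y z : R3} (hk : KH k y z) {γ γ' e l : ℝ} {v : R3}
    (hγ : core J γ = (1 / 2, y)) (hγ' : core J γ' = (1 / 2, z)) (hy1 : y.1 = 0)
    (hy2 : nsq y < 1 / 25)
    (hset : ∀ a ∈ Icc (1 / 5 : ℝ) (4 / 5), core J a ∈ flat 0 → a = 1 / 5 ∨ a = γ ∨ a = γ')
    (hγm : γ ∈ Ioo (2 / 5 : ℝ) (4 / 5)) (hel : 0 < e * l)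
    (hder : fderiv ℝ J (ax γ) (0, ((1 : ℝ), (0 : ℂ))) = (l, v)) :
    Theta (fun p => J (k p)) γ (2 / 5) e d ∧
      0 < (fderiv ℝ (fun p => J (k p)) (ax (1 / 2))).det := by
  have kflat : ∀ p ∈ flat 0, k p ∈ flat 0 := fun p hp => ⟨(hk.fst p).trans hp.1, hk.small p hp.2⟩
  have k1 : ∀ p ∈ flat 1, k p = p := fun p hp => hk.far p (by linarith [flat1_ge hp])
  have kn : ∀ p ∈ neck, k p = p := fun p hp => hk.far p (by linarith [hp.2.1])
  have F0 : ∀ p ∈ flat 0, J (k p) = k p := fun p hp =>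
    hJ.ends _ (Or.inl (by linarith [flat0_le (kflat p hp)]))
  have F1 : ∀ p ∈ flat 1, J (k p) = p := fun p hp => by
    rw [k1 p hp]
    exact hJ.ends _ (Or.inr (by linarith [flat1_ge hp]))
  have Fn : ∀ p ∈ neck, J (k p) = J p := fun p hp => by rw [kn p hp]
  have Fc : ∀ a ∈ Icc (1 / 5 : ℝ) (4 / 5), core (fun p => J (k p)) a = core J a := fun a ha =>
    Fn _ (ax_mem_neck ha)
  have kFB : ∀ p ∈ FB, k p ∈ FB := by
    rintro p ((hp | hp) | hp)
    · exact Or.inl (Or.inl (kflat p hp))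
    · rw [k1 p hp]; exact Or.inl (Or.inr hp)
    · rw [kn p hp]; exact Or.inr hp
  have loc : ∀ p ∈ FB, LD (fun p => J (k p)) p := fun p hp =>
    ld_comp (hk.ld p) (hJ.loc _ (kFB p hp))
  have s0 : sph 0 ⊆ flat 0 := fun p hp => ⟨hp.1, hp.2.le⟩
  have s1 : sph 1 ⊆ flat 1 := fun p hp => ⟨hp.1, hp.2.le⟩
  have disj : ∀ p, p ∈ flat 0 → p ∈ flat 1 → False := fun p h0 h1 => by
    linarith [flat0_le h0, flat1_ge h1]
  have injF : InjOn (fun p => J (k p)) (flat 0 ∪ flat 1) := by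
    rintro p (hp | hp) q (hq | hq) h
    · simp only [F0 p hp, F0 q hq] at h
      exact hk.inj h
    · simp only [F0 p hp, F1 q hq] at h
      exact (disj q (h ▸ kflat p hp) hq).elim
    · simp only [F1 p hp, F0 q hq] at h
      exact (disj p (h ▸ kflat q hq) hp).elim
    · simp only [F1 p hp, F1 q hq] at h
      exact h
  have hyk : k (1 / 2, y) = (1 / 2, y) := hk.near.self_of_nhds
  -- mixed pairs
  have mix0 : ∀ p ∈ sph 0, ∀ q ∈ neck, J (k p) = J (k q) → p = q := by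
    intro p hp q hq h
    obtain ⟨a, ha, rfl⟩ := neck_ax hq
    have h1 : k p = core J a := by
      rw [F0 p (s0 hp), Fn _ hq] at h
      exact h
    have h2 : core J a ∈ flat 0 := h1 ▸ kflat p (s0 hp)
    rcases hset a ha h2 with h3 | h3 | h3
    · rw [h3, core_end0 hJ] at h1
      rw [h3]
      apply hk.inj
      rw [h1, kn _ (ax_mem_neck (by constructor <;> norm_num))]
    · rw [h3, hγ, ← hyk] at h1
      have h4 := hk.inj h1
      have h5 : rsq 0 p = 1 / 25 := hp.2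
      rw [h4] at h5
      have h6 : rsq 0 (1 / 2, y) = nsq y := by
        simp only [rsq, sub_zero]
      linarith
    · rw [h3, hγ'] at h1
      exact (hk.ne p (s0 hp) h1).elim
  have mix1 : ∀ p ∈ sph 1, ∀ q ∈ neck, J (k p) = J (k q) → p = q := by
    intro p hp q hq h
    obtain ⟨a, ha, rfl⟩ := neck_ax hq
    have h1 : p = core J a := by
      rw [F1 p (s1 hp), Fn _ hq] at h
      exact h
    have h2 : core J a ∈ flat 1 := h1 ▸ s1 hp
    rcases core_flat1 hd hJ ha h2 with h3 | h3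
    · rw [h1, h3, core_end1 hJ]
    · have h4 := hJ.strand (2 / 5) (by norm_num)
      rw [h1, h3, h4] at hp
      have h5 : rsq 1 (1 / 2 + d * (2 / 5 - 2 / 5), pc 1) = 1 / 25 := hp.2
      rw [rsq_eq] at h5
      simp only [pc, Complex.zero_re, Complex.zero_im] at h5
      norm_num at h5
  have inj : InjOn (fun p => J (k p)) SP := by
    have hs : ∀ p, p ∈ sph 0 ∪ sph 1 → p ∈ flat 0 ∪ flat 1 := by
      rintro p (hp | hp)
      · exact Or.inl (s0 hp)
      · exact Or.inr (s1 hp)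
    rintro p (hp | hp) q (hq | hq) h
    · exact injF (hs p hp) (hs q hq) h
    · rcases hp with hp | hp
      · exact mix0 p hp q hq h
      · exact mix1 p hp q hq h
    · rcases hq with hq | hq
      · exact (mix0 q hq p hp h.symm).symm
      · exact (mix1 q hq p hp h.symm).symm
    · simp only [Fn p hp, Fn q hq] at h
      exact hJ.inj (Or.inr hp) (Or.inr hq) h
  have himg0 : (fun p => J (k p)) '' flat 0 ⊆ flat 0 := by
    rintro _ ⟨p, hp, rfl⟩
    change J (k p) ∈ flat 0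
    rw [F0 p hp]; exact kflat p hp
  have himg1 : (fun p => J (k p)) '' flat 1 ⊆ flat 1 := by
    rintro _ ⟨p, hp, rfl⟩
    change J (k p) ∈ flat 1
    rw [F1 p hp]; exact hp
  have hγI : γ ∈ Icc (1 / 5 : ℝ) (4 / 5) := ⟨by linarith [hγm.1], hγm.2.le⟩
  -- near points of the neck `F = J`
  have nearn : ∀ a : ℝ, 17 / 100 < a → (fun p => J (k p)) =ᶠ[𝓝 (ax a)] J := by
    intro a ha
    have hc : ContinuousAt (fun p : R4 => p.2.1) (ax a) := by fun_prop
    filter_upwards [hc.eventually (lt_mem_nhds (show 17 / 100 < (ax a).2.1 from ha))] with p hp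
    rw [hk.far p hp.le]
  refine ⟨⟨⟨?_, inj, ?_, ⟨by linarith [hγm.1], hγm.2⟩, ?_, ?_⟩,
    ⟨?_, inj, ?_, by constructor <;> norm_num, ?_, ?_⟩, ?_, hγm.1⟩, ?_⟩
  · rintro p (((hp | hp) | hp) | hp)
    · exact loc p (Or.inl (Or.inl (s0 hp)))
    · exact loc p (Or.inl (Or.inr (s1 hp)))
    · exact loc p (Or.inr hp)
    · exact loc p (Or.inl (Or.inl hp))
  · rw [sub_zero]
    exact injF.mono (union_subset_union Subset.rfl s1)
  · refine ⟨y, ?_, ?_, l, v, hel, ?_⟩
    · have : y - pc 0 = y := by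
        simp only [pc]
        exact sub_zero y
      rw [this]; exact hy2
    · rw [Fc γ hγI, hγ]
      change _ = J (k (1 / 2, y))
      rw [hyk]
      exact (hJ.ends _ (Or.inl (by change y.1 ≤ _; rw [hy1]; norm_num))).symm
    · rw [(nearn γ (by linarith [hγm.1])).fderiv_eq, hder, fderiv_id_of]
      · rfl
      · have hc : ContinuousAt (fun p : R4 => p.2.1) ((1 / 2, y) : R4) := by fun_prop
        have h1 : ((1 / 2, y) : R4).2.1 < 9 / 40 := by
          change y.1 < _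
          rw [hy1]; norm_num
        filter_upwards [hk.near, hc.eventually (gt_mem_nhds h1)] with q e1 e2
        rw [e1]
        exact hJ.ends _ (Or.inl e2.le)
  · intro a ha h
    rw [Fc a ha] at h
    rcases hset a ha (himg0 h) with h3 | h3 | h3
    · left; rw [h3]; norm_num
    · right; exact h3
    · exfalso
      rw [h3, hγ'] at h
      obtain ⟨p, hp, h4⟩ := h
      simp only [F0 p hp] at h4
      exact hk.ne p hp h4
  · rintro p (((hp | hp) | hp) | hp)
    · exact loc p (Or.inl (Or.inl (s0 hp)))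
    · exact loc p (Or.inl (Or.inr (s1 hp)))
    · exact loc p (Or.inr hp)
    · exact loc p (Or.inl (Or.inr hp))
  · rw [sub_self]
    rw [union_comm]
    exact injF.mono (union_subset_union s0 Subset.rfl)
  · have h25 : (2 / 5 : ℝ) ∈ Icc (1 / 5 : ℝ) (4 / 5) := by constructor <;> norm_num
    have hc1 : core J (2 / 5) = (1 / 2, pc 1) := by
      rw [hJ.strand (2 / 5) (by norm_num)]
      simp
    have hm1 : ((1 / 2, pc 1) : R4) ∈ flat 1 := by
      refine ⟨rfl, ?_⟩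
      rw [rsq_eq]
      simp only [pc, Complex.zero_re, Complex.zero_im]
      norm_num
    refine ⟨pc 1, ?_, ?_, d, 0, ?_, ?_⟩
    · rw [sub_self]
      simp only [nsq, Prod.fst_zero, Prod.snd_zero, Complex.zero_re, Complex.zero_im]
      norm_num
    · rw [Fc _ h25, hc1]
      exact (F1 _ hm1).symm
    · rcases hd with rfl | rfl <;> norm_num
    · rw [(nearn (2 / 5) (by norm_num)).fderiv_eq, core_strand hJ, fderiv_id_of]
      · rfl
      · have hc : ContinuousAt (fun p : R4 => p.2.1) ((1 / 2, pc 1) : R4) := by fun_prop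
        have h1 : 31 / 40 < ((1 / 2, pc 1) : R4).2.1 := by
          change (31 / 40 : ℝ) < 1
          norm_num
        filter_upwards [hc.eventually (lt_mem_nhds h1)] with q e2
        rw [hk.far q (by linarith)]
        exact hJ.ends _ (Or.inr e2.le)
  · intro a ha h
    rw [Fc a ha] at h
    rcases core_flat1 hd hJ ha (himg1 h) with h3 | h3
    · left; rw [h3]; norm_num
    · right; exact h3
  · rw [Set.disjoint_left]
    intro q h0 h1
    exact disj q (himg0 h0) (himg1 h1)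
  · refine hDET _ FB (Or.inl rfl) loc (ax (1 / 5))
      (Or.inr (ax_mem_neck (by constructor <;> norm_num))) (ax (1 / 2))
      (Or.inr (ax_mem_neck (by constructor <;> norm_num))) ?_
    rw [(nearn (1 / 5) (by norm_num)).fderiv_eq, fderiv_id_of]
    · simp [ContinuousLinearMap.det]
    · have hc : ContinuousAt (fun p : R4 => p.2.1) (ax (1 / 5)) := by fun_prop
      have h1 : (ax (1 / 5)).2.1 < 9 / 40 := by
        change (1 / 5 : ℝ) < _
        norm_num
      filter_upwards [hc.eventually (gt_mem_nhds h1)] with q e2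
      exact hJ.ends _ (Or.inl e2.le)

private theorem flat_ball {p : R4} (hp : p ∈ flat 0) : p ∈ ball4 := by
  refine ⟨by rw [hp.1]; norm_num, by rw [hp.1]; norm_num, ?_⟩
  linarith [hp.2]

private theorem isKap_KH {x₀ y : R3} {δ r : ℝ} {k : R4 → R4} (hr : 0 < r) (h : IsKap x₀ δ r k)
    (hf : ∀ p : R4, 17 / 100 ≤ p.2.1 → k p = p) (hy : δ < ‖y.2 - x₀.2‖) : KH k y x₀ where
  inj := fun p q hpq => h.emb.2 (mem_univ p) (mem_univ q) hpq
  ld := fun p => h.emb.1 p (mem_univ p)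
  fst := h.fst
  far := hf
  small := h.small
  ne := by
    intro p hp he
    apply h.away p (flat_ball hp)
    rw [he]
    change nsq (x₀ - x₀) < r ^ 2
    rw [sub_self]
    simp only [nsq, Prod.fst_zero, Prod.snd_zero, Complex.zero_re, Complex.zero_im]
    have := pow_pos hr 2
    linarith
  near := by
    have hc : ContinuousAt (fun p : R4 => ‖p.2.2 - x₀.2‖) ((1 / 2, y) : R4) := by fun_prop
    filter_upwards [hc.eventually (lt_mem_nhds (show δ < ‖((1 / 2, y) : R4).2.2 - x₀.2‖ from hy))]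
      with p hp
    exact h.off_w p hp.le

end R3T

theorem m_R3T (hDET : StDET) : StR3T := by
  intro J d r k1 k2 hd hJ hr h1 h2 hf _
  have e59 : core J (59 / 100) = (1 / 2, (0 : R3)) := by
    rw [hJ.para (59 / 100) (by rw [abs_le]; constructor <;> norm_num)]
    norm_num
  have e61 : core J (61 / 100) = (1 / 2, x2) := by
    rw [hJ.para (61 / 100) (by rw [abs_le]; constructor <;> norm_num)]
    norm_num [x2]
  have n10 : ‖((1 / 10 : ℝ) : ℂ)‖ = 1 / 10 := by
    rw [Complex.norm_real]; norm_num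
  refine ⟨?_, ?_⟩
  · refine R3T.main hDET hd hJ (R3T.isKap_KH (y := 0) hr h1 (fun p hp => (hf p hp).1) ?_) e59 e61 rfl
      ?_ ?_ (by constructor <;> norm_num) (l := 20) (v := ((0 : ℝ), (5 : ℂ))) (by norm_num) ?_
    · change 1 / 80 < ‖(0 : ℂ) - ((1 / 10 : ℝ) : ℂ)‖
      rw [zero_sub, norm_neg, n10]; norm_num
    · simp only [nsq, Prod.fst_zero, Prod.snd_zero, Complex.zero_re, Complex.zero_im]
      norm_num
    · intro a ha h
      exact R3T.core_flat0 hJ ha h
    · rw [R3T.core_para hJ (by rw [abs_lt]; constructor <;> norm_num)]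
      norm_num
  · refine R3T.main hDET hd hJ (R3T.isKap_KH (y := x2) hr h2 (fun p hp => (hf p hp).2) ?_) e61 e59 rfl
      ?_ ?_ (by constructor <;> norm_num) (l := -20) (v := ((0 : ℝ), (5 : ℂ))) (by norm_num) ?_
    · change 1 / 80 < ‖((1 / 10 : ℝ) : ℂ) - (0 : ℂ)‖
      rw [sub_zero, n10]; norm_num
    · simp only [nsq, x2, Complex.ofReal_re, Complex.ofReal_im]
      norm_num
    · intro a ha h
      rcases R3T.core_flat0 hJ ha h with h3 | h3 | h3
      · exact Or.inl h3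
      · exact Or.inr (Or.inr h3)
      · exact Or.inr (Or.inl h3)
    · rw [R3T.core_para hJ (by rw [abs_lt]; constructor <;> norm_num)]
      norm_num

end Pool.Agent.Helper70.BI


end

/-! ## Helper70.BI.M_V1 -/

section

/-!
# Project BI, part (E): module V1 (a germ which extends over the second flat ball is trivial).
-/

set_option autoImplicit false

open scoped Manifold ContDiff Topology ComplexConjugate
open Set Filter Pool.Agent.Helper65.Barb Pool.Agent.Helper18.BI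

namespace Pool.Agent.Helper70.BI

open Pool.Agent.Helper27.BI (swp StVanT StR2sw)
open Pool.Agent.Helper34.BI (swp_swp swp_mem_neck swp_mem_sph_one rsq_one_swp
  isLocalDiffeomorphAt_swp)

namespace V1

theorem sp_sub : SP ⊆ flat 1 ∪ neck ∪ sph 0 := by
  rintro p ((h | h) | h)
  · exact Or.inr h
  · exact Or.inl (Or.inl ⟨h.1, h.2.le⟩)
  · exact Or.inl (Or.inr h)

theorem swp_sub {p : R4} (h : p ∈ flat 0 ∪ sph 1 ∪ neck) : swp p ∈ flat 1 ∪ neck ∪ sph 0 := by
  rcases h with (h | h) | h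
  · exact Or.inl (Or.inl ⟨h.1, (rsq_one_swp p).le.trans h.2⟩)
  · exact Or.inr (Pool.Agent.Helper34.BI.swp_mem_sph_zero h)
  · exact Or.inl (Or.inr (swp_mem_neck h))

end V1

/-- MODULE V1. -/
theorem m_V1 (hV : StVanT) (hSw : StR2sw) : StV1 := by
  intro F hF
  have hSP : EmbOn I4 F SP := EmbOn.mono' hF V1.sp_sub
  have h1 : EmbOn I4 (fun p => F (swp p)) (flat 0 ∪ sph 1 ∪ neck) := by
    refine ⟨fun p hp => isLocalDiffeomorphAt_swp (hF.1 (swp p) (V1.swp_sub hp)), ?_⟩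
    intro p hp q hq he
    have h2 := hF.2 (V1.swp_sub hp) (V1.swp_sub hq) he
    rw [← swp_swp p, h2, swp_swp]
  have h2 : Thin I4 (fun p => F (swp p)) (fun x => x) :=
    hV R4 R4 I4 R4 (fun p => F (swp p)) h1
  exact (hSw R4 R4 I4 R4 F (fun x => x) (fun x => x) hSP (fun _ => rfl) (fun _ => rfl)).2 h2

end Pool.Agent.Helper70.BI


end

/-! ## Helper70.BI.M_NO1 -/

section

/-!
# Project BI, module E-NO1: a path which stays near the ball but does not cross it
-/

set_option autoImplicit false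

open scoped Manifold ContDiff Topology ComplexConjugate
open Set Filter Pool.Agent.Helper65.Barb Pool.Agent.Helper18.BI

namespace Pool.Agent.Helper70.BI

namespace NO1

open Pool.Agent.Helper34.BI (hat contDiff_hat hat_ne_zero hat_eq_zero hat_nonneg hat_le_one fam
  GenPos exists_genPos)

/-- the part of the ball where the path is allowed -/
def UU (d r lam : ℝ) : Set R4 :=
  {p | ‖p - ax 1‖ < r ∧ (d * (p.1 - 1 / 2) < 0 ∨ p.2.1 < 1 - lam / 5)}

theorem norm_lt {p : R4} {r : ℝ} (h1 : |p.1 - 1 / 2| < r) (h2 : |p.2.1 - 1| < r)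
    (h3 : ‖p.2.2‖ < r) : ‖p - ax 1‖ < r := by
  rw [Prod.norm_def, max_lt_iff]
  refine ⟨h1, ?_⟩
  rw [Prod.norm_def, max_lt_iff]
  refine ⟨h2, ?_⟩
  change ‖p.2.2 - 0‖ < r
  rwa [sub_zero]

theorem isOpen_UU (d r lam : ℝ) : IsOpen (UU d r lam) := by
  have h0 : IsOpen {p : R4 | ‖p - ax 1‖ < r} :=
    isOpen_lt (by fun_prop) continuous_const
  have h1 : IsOpen {p : R4 | d * (p.1 - 1 / 2) < 0} :=
    isOpen_lt (by fun_prop) continuous_const
  have h2 : IsOpen {p : R4 | p.2.1 < 1 - lam / 5} :=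
    isOpen_lt (by fun_prop) continuous_const
  exact h0.inter (h1.union h2)

theorem isPreconnected_UU {d r lam : ℝ} (hd : d = 1 ∨ d = -1) (hlam : 0 < lam) (hlr : lam < r) :
    IsPreconnected (UU d r lam) := by
  have cB : Convex ℝ {p : R4 | ‖p - ax 1‖ < r} := by
    have : {p : R4 | ‖p - ax 1‖ < r} = Metric.ball (ax 1) r := by
      ext p
      simp [dist_eq_norm]
    rw [this]
    exact convex_ball _ _
  have c1 : Convex ℝ {p : R4 | d * (p.1 - 1 / 2) < 0} := by
    rcases hd with h | h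
    · have : {p : R4 | d * (p.1 - 1 / 2) < 0} = {p : R4 | p.1 < 1 / 2} := by
        ext p
        simp only [mem_setOf_eq, h]
        constructor <;> intro h <;> linarith
      rw [this]
      exact convex_halfSpace_lt (LinearMap.fst ℝ ℝ (ℝ × ℂ)).isLinear _
    · have : {p : R4 | d * (p.1 - 1 / 2) < 0} = {p : R4 | 1 / 2 < p.1} := by
        ext p
        simp only [mem_setOf_eq, h]
        constructor <;> intro h <;> linarith
      rw [this]
      exact convex_halfSpace_gt (LinearMap.fst ℝ ℝ (ℝ × ℂ)).isLinear _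
  have c2 : Convex ℝ {p : R4 | p.2.1 < 1 - lam / 5} :=
    convex_halfSpace_lt ((LinearMap.fst ℝ ℝ ℂ).comp (LinearMap.snd ℝ ℝ (ℝ × ℂ))).isLinear _
  have key := IsPreconnected.union ((1 / 2 - d * (r / 2), (1 - lam / 2, 0)) : R4) ?_ ?_
    (cB.inter c1).isPreconnected (cB.inter c2).isPreconnected
  · have : UU d r lam = ({p : R4 | ‖p - ax 1‖ < r} ∩ {p : R4 | d * (p.1 - 1 / 2) < 0}) ∪
        ({p : R4 | ‖p - ax 1‖ < r} ∩ {p : R4 | p.2.1 < 1 - lam / 5}) := by
      rw [← inter_union_distrib_left]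
      rfl
    rw [this]
    exact key
  all_goals
    have hr : 0 < r := hlam.trans hlr
    have hn : ‖((1 / 2 - d * (r / 2), (1 - lam / 2, 0)) : R4) - ax 1‖ < r := by
      refine norm_lt ?_ ?_ ?_
      · change |1 / 2 - d * (r / 2) - 1 / 2| < r
        rw [abs_lt]
        rcases hd with h | h <;> rw [h] <;> constructor <;> linarith
      · change |1 - lam / 2 - 1| < r
        rw [abs_lt]
        constructor <;> linarith
      · change ‖(0 : ℂ)‖ < r
        rwa [norm_zero]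
    refine ⟨hn, ?_⟩
  · change d * (1 / 2 - d * (r / 2) - 1 / 2) < 0
    rcases hd with h | h <;> rw [h] <;> linarith
  · change 1 - lam / 2 < 1 - lam / 5
    linarith

end NO1

open NO1 Pool.Agent.Helper34.BI in
theorem m_NO1 (hPATH : StPATH) : StNO1 := by
  intro c d δ r lam hd hlam hlr hrδ hδ hc hinj hder hmid hend
  have hr : 0 < r := hlam.trans hlr
  have hdd : d * d = 1 := by rcases hd with h | h <;> rw [h] <;> norm_num
  -- the path
  have side1 : ∀ a ∈ Icc (2 / 5 - r / 2) (2 / 5 - r / 2 + r / 4), c a ∈ UU d r lam := by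
    rintro a ⟨h1, h2⟩
    have h3 : |a - 2 / 5| < δ := by rw [abs_lt]; constructor <;> linarith
    rw [hmid a h3]
    refine ⟨norm_lt ?_ ?_ ?_, Or.inl ?_⟩
    · change |1 / 2 + d * (a - 2 / 5) - 1 / 2| < r
      rw [abs_lt]
      rcases hd with h | h <;> rw [h] <;> constructor <;> linarith
    · change |(1 : ℝ) - 1| < r
      rwa [sub_self, abs_zero]
    · change ‖(0 : ℂ)‖ < r
      rwa [norm_zero]
    · change d * (1 / 2 + d * (a - 2 / 5) - 1 / 2) < 0
      have : d * (1 / 2 + d * (a - 2 / 5) - 1 / 2) = (d * d) * (a - 2 / 5) := by ring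
      rw [this, hdd]
      linarith
  have side2 : ∀ a ∈ Icc (79 / 100 - r / 4) (79 / 100 : ℝ), c a ∈ UU d r lam := by
    rintro a ⟨h1, h2⟩
    have h3 : a ∈ Icc (39 / 50 : ℝ) (4 / 5) := ⟨by linarith, by linarith⟩
    rw [hend a h3]
    refine ⟨norm_lt ?_ ?_ ?_, Or.inr ?_⟩
    · change |(1 / 2 : ℝ) - 1 / 2| < r
      rwa [sub_self, abs_zero]
    · change |1 - lam * (1 - a) - 1| < r
      rw [abs_lt]
      constructor <;> nlinarith
    · change ‖(0 : ℂ)‖ < r
      rwa [norm_zero]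
    · change 1 - lam * (1 - a) < 1 - lam / 5
      nlinarith
  obtain ⟨q₀, hq₀, hl, hR, hU⟩ := hPATH (UU d r lam) (2 / 5 - r / 2) (79 / 100) (r / 4) c c
    (isOpen_UU d r lam) (isPreconnected_UU hd hlam hlr) (by linarith) (by linarith) hc hc side1 side2
  -- the room around the path
  obtain ⟨ε, hε, hball⟩ : ∃ ε : ℝ, 0 < ε ∧ ∀ a ∈ Icc (2 / 5 - r / 2) (79 / 100 : ℝ), ∀ e : R4,
      ‖e‖ < ε → q₀ a + e ∈ UU d r lam := by
    have hK : IsCompact (q₀ '' Icc (2 / 5 - r / 2) (79 / 100 : ℝ)) :=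
      isCompact_Icc.image hq₀.continuous
    have hsub : q₀ '' Icc (2 / 5 - r / 2) (79 / 100 : ℝ) ⊆ UU d r lam := by
      rintro _ ⟨a, ha, rfl⟩
      exact hU a ha
    obtain ⟨ε, hε, hth⟩ := hK.exists_thickening_subset_open (isOpen_UU d r lam) hsub
    refine ⟨ε, hε, fun a ha e he => hth ?_⟩
    rw [Metric.mem_thickening_iff]
    refine ⟨q₀ a, ⟨a, ha, rfl⟩, ?_⟩
    rw [dist_eq_norm, add_sub_cancel_left]
    exact he
  let h : ℝ × ℝ → R4 := fun p => q₀ p.2
  let χ : ℝ → ℝ := hat (2 / 5 - r / 2) (79 / 100)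
  have hχ : ContDiff ℝ ∞ χ := contDiff_hat _ _
  have hh : ContDiff ℝ ∞ h := hq₀.comp contDiff_snd
  have hE : Module.finrank ℝ R4 = 4 := by
    simp [R4, Complex.finrank_real_complex]
  obtain ⟨v, w, hv, hw, hgp⟩ := exists_genPos (E := R4) (Y := ℂ) (h := h) (ρ := fun _ => 1)
    (χ := χ) hE Complex.finrank_real_complex hh contDiff_const hχ (ι := Empty) (κ := Empty)
    (f := fun i => i.elim) (T := fun i => i.elim) (fun i => i.elim) (fun i => i.elim)
    (g := fun i => i.elim) (fun i => i.elim) (half_pos hε)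
  let H : ℝ × ℝ → R4 := fam h (fun _ => 1) χ v w
  have hH : ContDiff ℝ ∞ H := by
    have e1 : ContDiff ℝ ∞ (fun p : ℝ × ℝ => χ p.2) := hχ.comp contDiff_snd
    have e2 : ContDiff ℝ ∞ (fun p : ℝ × ℝ => v + p.2 • w) := by fun_prop
    exact hh.add ((contDiff_const.mul e1).smul e2)
  let q : ℝ → R4 := fun a => H (0, a)
  have hqd : ∀ a, q a = q₀ a + χ a • (v + a • w) := by
    intro a
    change q₀ a + (1 * χ a) • (v + a • w) = _
    rw [one_mul]
  have hq : ContDiff ℝ ∞ q := hH.comp (contDiff_const.prodMk contDiff_id)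
  have hql : ∀ a, a ≤ 2 / 5 - r / 2 → q a = c a := by
    intro a ha
    have e1 : χ a = 0 := hat_eq_zero (Or.inl ha)
    rw [hqd, e1, zero_smul, add_zero, hl a (by linarith)]
  have hqr : ∀ a, 79 / 100 ≤ a → q a = c a := by
    intro a ha
    have e1 : χ a = 0 := hat_eq_zero (Or.inr ha)
    rw [hqd, e1, zero_smul, add_zero, hR a (by linarith)]
  have hone : (1 : ℝ) ≠ 0 := one_ne_zero
  refine ⟨q, hq, hql, hqr, ?_, ?_, ?_⟩
  · intro a ha
    have e2 : ‖χ a • (v + a • w)‖ < ε := by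
      have f1 : ‖χ a‖ ≤ 1 := by
        rw [Real.norm_eq_abs, abs_of_nonneg (hat_nonneg _ _ _)]
        exact hat_le_one _ _ _
      have f2 : ‖a • w‖ ≤ ‖w‖ := by
        rw [norm_smul, Real.norm_eq_abs]
        have : |a| ≤ 1 := by rw [abs_le]; constructor <;> linarith [ha.1, ha.2]
        nlinarith [norm_nonneg w]
      have f3 : ‖v + a • w‖ ≤ ‖v‖ + ‖a • w‖ := norm_add_le _ _
      rw [norm_smul]
      have f4 : ‖χ a‖ * ‖v + a • w‖ ≤ 1 * ‖v + a • w‖ :=
        mul_le_mul_of_nonneg_right f1 (norm_nonneg _)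
      linarith
    have e3 := hball a ha _ e2
    rw [← hqd] at e3
    exact e3
  · intro u hu u' hu' he
    by_contra hne
    by_cases k : χ u = 0 ∧ χ u' = 0
    · have side : ∀ x, χ x = 0 → q x = c x := by
        intro x hx
        have h5 : ¬ (2 / 5 - r / 2 < x ∧ x < 79 / 100) := fun h => (hat_ne_zero.2 h) hx
        rcases le_or_gt x (2 / 5 - r / 2) with h6 | h6
        · exact hql x h6
        · exact hqr x (not_lt.1 fun h7 => h5 ⟨h6, h7⟩)
      rw [side u k.1, side u' k.2] at he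
      exact hne (hinj hu hu' he)
    · have k' : χ u ≠ 0 ∨ χ u' ≠ 0 := by
        by_contra hcon
        push Not at hcon
        exact k hcon
      exact hgp.inj 0 u u' hone hne k' he
  · intro a ha
    rcases le_or_gt a (2 / 5 - r / 2) with h6 | h6
    · have d1 : derivWithin q (Iic (2 / 5 - r / 2)) a = deriv q a :=
        (hq.differentiable (by simp) a).derivWithin (uniqueDiffOn_Iic _ a h6)
      have d2 : derivWithin c (Iic (2 / 5 - r / 2)) a = deriv c a :=
        (hc.differentiable (by simp) a).derivWithin (uniqueDiffOn_Iic _ a h6)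
      have d3 : derivWithin q (Iic (2 / 5 - r / 2)) a = derivWithin c (Iic (2 / 5 - r / 2)) a :=
        derivWithin_congr (fun x hx => hql x hx) (hql a h6)
      rw [← d1, d3, d2]
      exact hder a ha
    · rcases lt_or_ge a (79 / 100) with h7 | h7
      · have h8 := hgp.imm 0 a hone (hat_ne_zero.2 ⟨h6, h7⟩)
        have h9 : HasDerivAt q (fderiv ℝ H (0, a) (0, 1)) a := by
          have g1 : HasFDerivAt H (fderiv ℝ H (0, a)) (0, a) :=
            (hH.differentiable (by simp) (0, a)).hasFDerivAt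
          have g2 : HasDerivAt (fun a : ℝ => ((0 : ℝ), a)) ((0 : ℝ), (1 : ℝ)) a :=
            (hasDerivAt_const a (0 : ℝ)).prodMk (hasDerivAt_id a)
          exact g1.comp_hasDerivAt a g2
        rw [h9.deriv]
        exact h8
      · have d1 : derivWithin q (Ici (79 / 100)) a = deriv q a :=
          (hq.differentiable (by simp) a).derivWithin (uniqueDiffOn_Ici _ a h7)
        have d2 : derivWithin c (Ici (79 / 100)) a = deriv c a :=
          (hc.differentiable (by simp) a).derivWithin (uniqueDiffOn_Ici _ a h7)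
        have d3 : derivWithin q (Ici (79 / 100)) a = derivWithin c (Ici (79 / 100)) a :=
          derivWithin_congr (fun x hx => hqr x hx) (hqr a h7)
        rw [← d1, d3, d2]
        exact hder a ha

end Pool.Agent.Helper70.BI


end

/-! ## Helper70.BI.M_NO -/

section

/-!
# Project BI, part (E), module NO: a germ whose bar stays near the ball but does not cross it
-/

set_option autoImplicit false

open scoped Manifold ContDiff Topology ComplexConjugate
open Set Filter Pool.Agent.Helper65.Barb Pool.Agent.Helper18.BI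

namespace Pool.Agent.Helper70.BI

open Pool.Agent.Helper34.BI (cfac BarData barFam)
open NF1

namespace NO

theorem isCompact_sph (c : ℝ) : IsCompact (sph c) := by
  apply Metric.isCompact_of_isClosed_isBounded
  · apply IsClosed.inter (isClosed_eq continuous_fst continuous_const)
    exact isClosed_eq (continuous_rsq c) continuous_const
  · exact (isBounded_of_rsq c (1 / 25) (1 / 2) (1 / 2)).subset
      (fun p hp => ⟨hp.1.ge, hp.1.le, hp.2.le⟩)

/-- a continuous function which omits a value on a compact set stays away from it -/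
theorem exists_far {X : Type*} [TopologicalSpace X] {K : Set X} (hK : IsCompact K) {f : X → R4}
    (hf : ContinuousOn f K) {y : R4} (hy : ∀ p ∈ K, f p ≠ y) :
    ∃ m : ℝ, 0 < m ∧ ∀ p ∈ K, m ≤ ‖f p - y‖ := by
  have h1 : IsClosed (f '' K) := (hK.image_of_continuousOn hf).isClosed
  have h2 : y ∈ (f '' K)ᶜ := by
    rintro ⟨p, hp, he⟩
    exact hy p hp he
  obtain ⟨m, hm, h3⟩ := Metric.isOpen_iff.1 h1.isOpen_compl y h2
  refine ⟨m, hm, fun p hp => ?_⟩
  by_contra hlt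
  push Not at hlt
  exact h3 (Metric.mem_ball.2 (by rwa [dist_eq_norm])) ⟨p, hp, rfl⟩

theorem norm_ax_sub (a b : ℝ) : ‖ax a - ax b‖ = |a - b| := by
  unfold ax
  rw [Prod.norm_def, Prod.norm_def]
  simp

theorem sph_zero_le {p : R4} (h : p ∈ sph 0) : p.2.1 ≤ 1 / 5 := by
  have h1 := sq_le_rsq p
  rw [h.2] at h1
  have h2 : p.2.1 ^ 2 ≤ (1 / 5 : ℝ) ^ 2 := h1.trans (by norm_num)
  have h3 : |p.2.1| ≤ 1 / 5 := abs_le_of_sq_le_sq h2 (by norm_num)
  exact (le_abs_self _).trans h3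

theorem le_flat_one {p : R4} (h : p ∈ flat 1) : 4 / 5 ≤ p.2.1 := by
  have h1 := sq_le_rsq_one p
  have h2 : rsq 1 p ≤ 1 / 25 := h.2
  have h4 : (p.2.1 - 1) ^ 2 ≤ (1 / 5 : ℝ) ^ 2 := (h1.trans h2).trans (by norm_num)
  have h5 : |p.2.1 - 1| ≤ 1 / 5 := abs_le_of_sq_le_sq h4 (by norm_num)
  have h3 : -(1 / 5) ≤ p.2.1 - 1 := (abs_le.1 h5).1
  linarith only [h3]

theorem neck_eq {p : R4} (h : p ∈ neck) : p = ax p.2.1 :=
  Prod.ext h.1 (Prod.ext rfl h.2.2.2)

theorem fix_of_le {p : R4} (h : p.2.1 ≤ 7 / 10) : 9 / 100 ≤ rsq 1 p := by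
  have h1 := sq_le_rsq_one p
  have h2 : (3 / 10 : ℝ) ^ 2 ≤ (1 - p.2.1) ^ 2 := pow_le_pow_left₀ (by norm_num) (by linarith) 2
  have h3 : (1 - p.2.1) ^ 2 = (p.2.1 - 1) ^ 2 := by ring
  rw [h3] at h2
  exact (show (9 / 100 : ℝ) ≤ (3 / 10) ^ 2 by norm_num).trans (h2.trans h1)

theorem norm_ax_line {lam a : ℝ} (hl : 0 < lam) (ha : a ≤ 1) :
    ‖ax (1 - lam * (1 - a)) - ax 1‖ = lam * (1 - a) := by
  rw [norm_ax_sub, show 1 - lam * (1 - a) - 1 = -(lam * (1 - a)) by ring, abs_neg,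
    abs_of_nonneg (mul_nonneg hl.le (sub_nonneg.2 ha))]

theorem fderiv_snd_aux {q : ℝ → R4} (hq : ContDiff ℝ ∞ q) (a : ℝ) :
    fderiv ℝ (fun z : ℝ × ℝ => q z.2) (0, a) (0, 1) = deriv q a := by
  have h1 : HasDerivAt q (deriv q a) a := (hq.differentiable (by simp) a).hasDerivAt
  have h2 : HasFDerivAt (fun z : ℝ × ℝ => z.2) (ContinuousLinearMap.snd ℝ ℝ ℝ) (0, a) :=
    hasFDerivAt_snd
  have h3 : HasFDerivAt (fun z : ℝ × ℝ => q z.2)
      ((ContinuousLinearMap.toSpanSingleton ℝ (deriv q a)).comp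
        (ContinuousLinearMap.snd ℝ ℝ ℝ)) (0, a) :=
    HasFDerivAt.comp (g := q) (f := fun z : ℝ × ℝ => z.2) ((0 : ℝ), a) h1.hasFDerivAt h2
  rw [h3.fderiv]
  simp

theorem low_lt {p : R4} (h : p ∈ sph 0) (h' : p ∈ flat 1) : False := by
  have h1 := sph_zero_le h
  have h2 := le_flat_one h'
  linarith only [h1, h2]

theorem abs_aux {x : ℝ} (h : |x - 2 / 5| < 1 / 100) :
    1 / 5 ≤ x ∧ x ≤ 7 / 10 ∧ x ≤ 4 / 5 := by
  obtain ⟨h1, h2⟩ := abs_lt.1 h
  exact ⟨by linarith only [h1], by linarith only [h2], by linarith only [h2]⟩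

theorem mul_lt_aux {lam x y b : ℝ} (hl : 0 < lam) (hx : x ≤ b) (h : lam * b < y) : lam * x < y :=
  (mul_le_mul_of_nonneg_left hx hl.le).trans_lt h

end NO

open NO

theorem m_NO (hNO1 : StNO1) (hCTR : StCTR) (hCL : StCL)
    (hCO : Pool.Agent.Helper34.BI.StCO) : StNO := by
  intro F d δ r₁ hd hNB hr₁
  have hδ := hNB.pos
  have hδ1 := hNB.small
  have hbr := hNB.br
  have hz : (1 : ℝ) - 1 = 0 := by norm_num
  have hinjF : InjOn F (flat 1 ∪ sph 0) := by
    have := hbr.injF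
    rwa [hz] at this
  have hfoot : (1 : ℝ) / 5 + 3 / 5 * 1 = 4 / 5 := by norm_num
  have hcen : F (ax 1) = ax 1 := hNB.near _ (by rw [sub_self, norm_zero]; exact hδ)
  have hc25 : core F (2 / 5) = ax 1 := by
    rw [hNB.str (2 / 5) (by rw [sub_self, abs_zero]; exact hδ)]
    unfold ax pc
    simp
  -- the two distances
  have hF0 : ContinuousOn F (sph 0) := fun p hp =>
    ((ld_iff.1 (hbr.loc p (Or.inl (Or.inl (Or.inl hp))))).1.self_of_nhds.continuousAt).continuousWithinAt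
  obtain ⟨m₁, hm₁, hfar₁⟩ := exists_far (isCompact_sph 0) hF0 (y := ax 1) (by
    intro p hp he
    have h1 : p = ax 1 := hinjF (Or.inr hp) (Or.inl (centre_mem_flat 1)) (he.trans hcen.symm)
    have h2 := sph_zero_le hp
    rw [h1] at h2
    simp only [ax] at h2
    norm_num at h2)
  have hax : Continuous ax := by
    unfold ax
    fun_prop
  have hK : IsCompact (Icc (1 / 5 : ℝ) (4 / 5) ∩ {a | δ ≤ |a - 2 / 5|}) :=
    isCompact_Icc.inter_right (isClosed_le continuous_const (by fun_prop))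
  have hFc : ContinuousOn (core F) (Icc (1 / 5 : ℝ) (4 / 5) ∩ {a | δ ≤ |a - 2 / 5|}) := by
    intro a ha
    have h1 : ax a ∈ SP := Or.inr (ax_mem_neck ha.1.1 ha.1.2)
    have h2 : ContinuousAt F (ax a) := (ld_iff.1 (hbr.loc _ (Or.inl h1))).1.self_of_nhds.continuousAt
    have h3 : ContinuousAt (core F) a :=
      ContinuousAt.comp (g := F) (f := ax) h2 hax.continuousAt
    exact h3.continuousWithinAt
  obtain ⟨m₂, hm₂, hfar₂⟩ := exists_far hK hFc (y := ax 1) (by
    intro a ha he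
    have h1 : ax a ∈ SP := Or.inr (ax_mem_neck ha.1.1 ha.1.2)
    have h2 : ax (2 / 5) ∈ SP := Or.inr (ax_mem_neck (by norm_num) (by norm_num))
    have h3 : ax a = ax (2 / 5) := hbr.inj h1 h2 (he.trans hc25.symm)
    have h4 : a = 2 / 5 := congrArg (fun p : R4 => p.2.1) h3
    have h5 : δ ≤ |a - 2 / 5| := ha.2
    rw [h4, sub_self, abs_zero] at h5
    linarith only [h5, hδ])
  set r : ℝ := min (min (m₁ / 2) (m₂ / 2)) (min (δ / 2) (r₁ / 2)) with hrdef
  have hr0 : 0 < r := lt_min (lt_min (half_pos hm₁) (half_pos hm₂)) (lt_min (half_pos hδ) (half_pos hr₁))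
  have hrm₁ : r < m₁ := by
    have : r ≤ m₁ / 2 := (min_le_left _ _).trans (min_le_left _ _)
    exact this.trans_lt (half_lt_self hm₁)
  have hrm₂ : r < m₂ := by
    have : r ≤ m₂ / 2 := (min_le_left _ _).trans (min_le_right _ _)
    exact this.trans_lt (half_lt_self hm₂)
  have hrδ : r < δ := by
    have : r ≤ δ / 2 := (min_le_right _ _).trans (min_le_left _ _)
    exact this.trans_lt (half_lt_self hδ)
  have hrr₁ : r < r₁ := by
    have : r ≤ r₁ / 2 := (min_le_right _ _).trans (min_le_right _ _)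
    exact this.trans_lt (half_lt_self hr₁)
  clear_value r
  have hsph : ∀ p ∈ sph 0, r < ‖F p - ax 1‖ := fun p hp => hrm₁.trans_le (hfar₁ p hp)
  refine ⟨r, r, hr0, hrr₁, hrδ, hr0, hsph,
    fun a ha h => hrm₂.trans_le (hfar₂ a ⟨ha, h⟩), ?_⟩
  intro lam hlam
  have hl0 := hlam.1
  have hlr := hlam.2
  have hlmem : lam ∈ Ioc (0 : ℝ) 1 := ⟨hl0, by linarith only [hlr, hrδ, hδ1]⟩
  obtain ⟨-, -, hcl⟩ := hCL 1 (Or.inr rfl)
  obtain ⟨hemb, hfst, hin, hout, -, hle, -⟩ := hcl lam hlmem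
  -- the contracted germ
  have hEl : EmbOn I4 (fun p => F (clc 1 lam p)) SP :=
    (hCTR 1 F (2 / 5) (Or.inr rfl) hbr.loc hbr.inj hbr.injF (hc25.trans hcen.symm) hbr.only
      lam hlmem).1
  have hloc : ∀ p ∈ flat 1, LD (fun p => F (clc 1 lam p)) p := fun p hp =>
    ld_comp (F := F) (m := clc 1 lam) (hemb.1 p (mem_univ _))
      (hbr.loc _ (Or.inr ⟨(hfst p).trans hp.1, (hle p).trans hp.2⟩))
  set Fl : R4 → R4 := fun p => F (clc 1 lam p) with hFl
  have hFlv : ∀ p, Fl p = F (clc 1 lam p) := fun _ => rfl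
  clear_value Fl
  have hFleq : ∀ p : R4, p.2.1 ≤ 7 / 10 → Fl p = F p := fun p hp => by
    rw [hFlv p, hout p (fix_of_le hp)]
  have hflat : ∀ p ∈ flat 1, clc 1 lam p ∈ flat 1 := fun p hp =>
    ⟨(hfst p).trans hp.1, (hle p).trans hp.2⟩
  -- values on the flat ball
  have hFlflat : ∀ p ∈ flat 1, (Fl p).1 = 1 / 2 ∧ 1 - lam / 5 ≤ (Fl p).2.1 := by
    intro p hp
    have h1 : clc 1 lam p = (p.1, pc 1 + lam • (p.2 - pc 1)) := hin p (hp.2.trans (by norm_num))
    have hx := sq_le_rsq_one p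
    have hx2 : rsq 1 p ≤ 1 / 25 := hp.2
    have hp1 : |p.2.1 - 1| ≤ 1 / 5 := by
      apply abs_le_of_sq_le_sq _ (by norm_num)
      linarith only [hx, hx2]
    have hp2 : ‖p.2.2‖ ≤ 1 / 5 := by
      have h3 : ‖p.2.2‖ ^ 2 ≤ (1 / 5) ^ 2 := by
        rw [← Complex.normSq_eq_norm_sq, Complex.normSq_apply]
        unfold rsq nsq at hx2
        simp only at hx2
        linarith only [hx2, sq_nonneg (p.2.1 - 1)]
      exact le_of_sq_le_sq h3 (by norm_num)
    have h2 : ‖clc 1 lam p - ax 1‖ < δ := by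
      rw [h1, hp.1, Prod.norm_def, Prod.norm_def]
      refine max_lt ?_ (max_lt ?_ ?_)
      · simp [ax, hδ]
      · simp only [ax, pc, Prod.snd_sub, Prod.fst_sub, Prod.fst_add, Prod.smul_fst,
          smul_eq_mul, Real.norm_eq_abs]
        rw [show 1 + lam * (p.2.1 - 1) - 1 = lam * (p.2.1 - 1) by ring, abs_mul, abs_of_pos hl0]
        exact mul_lt_aux hl0 hp1 (by linarith only [hlr, hrδ, hl0])
      · simp only [ax, pc, Prod.snd_sub, Prod.snd_add, Prod.smul_snd, zero_add, sub_zero]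
        rw [norm_smul, Real.norm_eq_abs, abs_of_pos hl0]
        exact mul_lt_aux hl0 hp2 (by linarith only [hlr, hrδ, hl0])
    have h3 : Fl p = clc 1 lam p := (hFlv p).trans (hNB.near _ h2)
    rw [h3, h1]
    refine ⟨hp.1, ?_⟩
    simp only [pc, Prod.fst_add, Prod.smul_fst, Prod.fst_sub, smul_eq_mul]
    have := mul_le_mul_of_nonneg_left (abs_le.1 hp1).1 hl0.le
    linarith only [this]
  -- the core
  obtain ⟨c₀, _c₁, _δ', -, -, hc₀, -, hc1, -, hc2⟩ := hCO Fl Fl univ hEl hEl isOpen_univ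
    (subset_univ _) (fun _ _ => rfl)
  have hcore : ∀ a ∈ Icc (1 / 5 : ℝ) (4 / 5), Fl (ax a) = c₀ a := fun a ha => (hc1 a ha).1
  have hinjc : InjOn c₀ (Icc (1 / 5) (4 / 5)) := by
    intro a ha b hb he
    rw [← hcore a ha, ← hcore b hb] at he
    have h1 := hEl.2 (Or.inr (ax_mem_neck ha.1 ha.2)) (Or.inr (ax_mem_neck hb.1 hb.2)) he
    exact congrArg (fun p : R4 => p.2.1) h1
  have hlow : ∀ a ∈ Icc (1 / 5 : ℝ) (4 / 5), a ≤ 7 / 10 → c₀ a = core F a := fun a ha h => by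
    rw [← hcore a ha]
    exact hFleq (ax a) h
  have hmid : ∀ a, |a - 2 / 5| < δ → c₀ a = (1 / 2 + d * (a - 2 / 5), pc 1) := by
    intro a ha
    obtain ⟨h1, h2, h3⟩ := abs_aux (ha.trans_le hδ1)
    exact (hlow a ⟨h1, h3⟩ h2).trans (hNB.str a ha)
  have hhigh : ∀ a ∈ Icc (39 / 50 : ℝ) (4 / 5), c₀ a = ax (1 - lam * (1 - a)) := by
    intro a ha
    have h0 : c₀ a = F (clc 1 lam (ax a)) :=
      (hcore a ⟨le_trans (by norm_num) ha.1, ha.2⟩).symm.trans (hFlv (ax a))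
    have h1 : clc 1 lam (ax a) = ax (1 - lam * (1 - a)) := by
      rw [hin (ax a) (by
        rw [rsq_ax]
        exact (sq_le_sq' (b := 11 / 50) (by linarith only [ha.1]) (by linarith only [ha.2])).trans
          (by norm_num))]
      refine Prod.ext rfl (Prod.ext ?_ ?_)
      · simp only [ax, pc, Prod.fst_add, Prod.smul_fst, Prod.fst_sub, smul_eq_mul]
        ring
      · simp [ax, pc]
    rw [h0, h1]
    apply hNB.near
    rw [norm_ax_line hl0 (ha.2.trans (by norm_num))]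
    exact mul_lt_aux (b := 1) hl0 (by linarith only [ha.1]) (by linarith only [hlr, hrδ])
  obtain ⟨q, hq, hqlow, hqhigh, hqmid, hqinj, hqd⟩ := hNO1 c₀ d δ r lam hd hl0 hlr hrδ hδ1 hc₀
    hinjc (fun a ha => (hc2 a ha).1) hmid hhigh
  -- the family
  have hH : ContDiff ℝ ∞ (fun z : ℝ × ℝ => q z.2) := hq.comp contDiff_snd
  have D : BarData Fl c₀ (fun z => q z.2) (1 / 100) := by
    refine ⟨hEl.1, by norm_num, by norm_num, hc₀, hH, hcore, ?_⟩
    rintro t a (h | h)
    · exact hqlow a (by linarith only [h, hrδ, hδ1])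
    · exact hqhigh a (by linarith only [h])
  have himm : ∀ a ∈ Icc (1 / 5 : ℝ) (4 / 5),
      fderiv ℝ (fun z : ℝ × ℝ => q z.2) (0, a) (0, 1) ≠ 0 := fun a ha => by
    rw [fderiv_snd_aux hq]
    exact hqd a ha
  -- the path does not meet the contracted ball before its end
  have hoff : ∀ a ∈ Ico (1 / 5 : ℝ) (4 / 5), q a ∉ Fl '' flat 1 := by
    intro a ha hm
    have ha' : a ∈ Icc (1 / 5 : ℝ) (4 / 5) := ⟨ha.1, ha.2.le⟩
    obtain ⟨p, hp, he⟩ := hm
    rcases le_or_gt a (2 / 5 - r / 2) with h1 | h1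
    · have e0 : q a = core F a := (hqlow a h1).trans (hlow a ha' (by linarith only [h1, hr0]))
      have h2 : core F a ∈ F '' flat 1 :=
        ⟨clc 1 lam p, hflat p hp, (hFlv p).symm.trans (he.trans e0)⟩
      rcases hbr.only a ha' h2 with h3 | h3
      · rw [h3, hfoot] at ha
        exact lt_irrefl _ ha.2
      · rw [h3] at h1
        linarith only [h1, hr0]
    · obtain ⟨e1, e2⟩ := hFlflat p hp
      rcases le_or_gt a (79 / 100) with h2 | h2
      · rw [he] at e1 e2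
        rcases (hqmid a ⟨h1.le, h2⟩).2 with h3 | h3
        · rw [e1] at h3
          simp at h3
        · linarith only [h3, e2, hlr, hl0]
      · have e0 : Fl p = ax (1 - lam * (1 - a)) :=
          he.trans ((hqhigh a h2.le).trans (hhigh a ⟨le_trans (by norm_num) h2.le, ha.2.le⟩))
        rw [e0] at e2
        change 1 - lam / 5 ≤ 1 - lam * (1 - a) at e2
        have h5 := mul_lt_mul_of_pos_left (show (1 / 5 : ℝ) < 1 - a by linarith only [ha.2]) hl0
        linarith only [h5, e2]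
  have hdis : ∀ a ∈ Ioo (1 / 5 : ℝ) (4 / 5), q a ∉ Fl '' (sph 0 ∪ sph 1) := by
    intro a ha hm
    have ha' : a ∈ Icc (1 / 5 : ℝ) (4 / 5) := ⟨ha.1.le, ha.2.le⟩
    obtain ⟨p, hp | hp, he⟩ := hm
    · by_cases hc : a ∈ Icc (2 / 5 - r / 2) (79 / 100 : ℝ)
      · have h1 := (hqmid a hc).1
        rw [← he, hFleq p (by linarith only [sph_zero_le hp])] at h1
        exact lt_asymm h1 (hsph p hp)
      · have h1 : q a = Fl (ax a) := by
          rw [hcore a ha']
          rcases le_or_gt a (2 / 5 - r / 2) with h2 | h2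
          · exact hqlow a h2
          · refine hqhigh a ?_
            by_contra h3
            push Not at h3
            exact hc ⟨h2.le, h3.le⟩
        rw [h1] at he
        have h2 := hEl.2 (Or.inl (Or.inl hp)) (Or.inr (ax_mem_neck ha'.1 ha'.2)) he
        rw [h2] at hp
        have h3 := sph_zero_le hp
        simp only [ax] at h3
        linarith only [h3, ha.1]
    · exact hoff a ⟨ha.1.le, ha.2⟩ ⟨p, ⟨hp.1, hp.2.le⟩, he⟩
  have hES : EmbOn I4 (fun p => barFam Fl c₀ (fun z => q z.2) (1 / 100) (0, p)) SP :=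
    D.embOn himm (hEl.2.mono fun p hp => Or.inl hp) hqinj hdis
  set G : R4 → R4 := fun p => barFam Fl c₀ (fun z => q z.2) (1 / 100) (0, p) with hG
  have hGlow : ∀ p : R4, p.2.1 ≤ 1 / 5 + 1 / 200 → G p = Fl p := fun p hp =>
    D.barFam_eq (Or.inl (by linarith only [hp]))
  have hGhigh : ∀ p : R4, 4 / 5 - 1 / 200 ≤ p.2.1 → G p = Fl p := fun p hp =>
    D.barFam_eq (Or.inr (by linarith only [hp]))
  have hGcore : ∀ a ∈ Icc (1 / 5 : ℝ) (4 / 5), core G a = q a := fun a ha =>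
    D.barFam_neck ha.1 ha.2
  clear_value G
  have hGflat : ∀ p ∈ flat 1, G p = Fl p := fun p hp =>
    hGhigh p (le_trans (by norm_num) (le_flat_one hp))
  have hFlinj : ∀ p ∈ flat 1, ∀ p' ∈ flat 1, Fl p = Fl p' → p = p' := fun p hp p' hp' he =>
    hemb.2 (mem_univ _) (mem_univ _) (hinjF (Or.inl (hflat p hp)) (Or.inl (hflat p' hp'))
      ((hFlv p).symm.trans (he.trans (hFlv p'))))
  -- a point of the flat ball and a point of the spine
  have key : ∀ p ∈ flat 1, ∀ p' ∈ SP, G p = G p' → p = p' := by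
    intro p hp p' hp' he
    rw [hGflat p hp] at he
    rcases hp' with (h | h) | h
    · exfalso
      have e1 : G p' = F p' := (hGlow p' ((sph_zero_le h).trans (by norm_num))).trans
        (hFleq p' ((sph_zero_le h).trans (by norm_num)))
      have h1 : clc 1 lam p = p' :=
        hinjF (Or.inl (hflat p hp)) (Or.inr h) ((hFlv p).symm.trans (he.trans e1))
      exact low_lt h (h1 ▸ hflat p hp)
    · have h' : p' ∈ flat 1 := ⟨h.1, h.2.le⟩
      exact hFlinj p hp p' h' (he.trans (hGflat p' h'))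
    · rcases eq_or_lt_of_le h.2.2.1 with h1 | h1
      · have h' : p' ∈ flat 1 := by
          have := foot_mem_flat (c := 1) (Or.inr rfl)
          rw [hfoot, ← h1, ← neck_eq h] at this
          exact this
        exact hFlinj p hp p' h' (he.trans (hGflat p' h'))
      · exfalso
        have h2 : G p' = q p'.2.1 := by
          conv_lhs => rw [neck_eq h]
          exact hGcore _ ⟨h.2.1, h1.le⟩
        rw [h2] at he
        exact hoff p'.2.1 ⟨h.2.1, h1⟩ ⟨p, hp, he⟩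
  refine ⟨G, ⟨?_, ?_⟩, fun p hp => ?_, fun p hp => (hGhigh p hp).trans (hFlv p),
    fun a ha => ?_, fun a ha => ?_⟩
  · rintro p (hp | hp)
    · exact hES.1 p hp
    · have h1 : Fl =ᶠ[𝓝 p] G := by
        have h2 : ∀ᶠ y : R4 in 𝓝 p, 4 / 5 - 1 / 200 < y.2.1 := by
          have hcont : Continuous (fun y : R4 => y.2.1) := by fun_prop
          exact (isOpen_lt continuous_const hcont).mem_nhds
            (show (4 / 5 - 1 / 200 : ℝ) < p.2.1 from lt_of_lt_of_le (by norm_num) (le_flat_one hp))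
        filter_upwards [h2] with y hy
        exact (hGhigh y hy.le).symm
      exact ld_congr h1 (hloc p hp)
  · rintro p (hp | hp) p' (hp' | hp') he
    · exact hES.2 hp hp' he
    · exact (key p' hp' p hp he.symm).symm
    · exact key p hp p' hp' he
    · exact hFlinj p hp p' hp' ((hGflat p hp).symm.trans (he.trans (hGflat p' hp')))
  · exact (hGlow p hp).trans (hFleq p (hp.trans (by norm_num)))
  · have h1 : a ≤ 7 / 10 := by linarith only [ha.2, hr0]
    have h2 : a ∈ Icc (1 / 5 : ℝ) (4 / 5) := ⟨ha.1, h1.trans (by norm_num)⟩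
    exact (hGcore a h2).trans ((hqlow a ha.2).trans (hlow a h2 h1))
  · rw [hGcore a ⟨by linarith only [ha.1, hrδ, hδ1], ha.2⟩]
    rcases le_or_gt a (79 / 100) with h | h
    · exact (hqmid a ⟨ha.1, h⟩).1
    · have e1 : q a = ax (1 - lam * (1 - a)) :=
        (hqhigh a h.le).trans (hhigh a ⟨le_trans (by norm_num) h.le, ha.2⟩)
      rw [e1, norm_ax_line hl0 (ha.2.trans (by norm_num))]
      exact mul_lt_aux (b := 1) hl0 (by linarith only [h]) (by linarith only [hlr])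

end Pool.Agent.Helper70.BI


end

/-! ## Helper70.BI.M_FML -/

section

/-!
# Project BI, part (E), module E-FML: the family of germs joining a germ to its lasso
-/

set_option autoImplicit false

open scoped Manifold ContDiff Topology ComplexConjugate
open Set Filter Pool.Agent.Helper65.Barb Pool.Agent.Helper18.BI

namespace Pool.Agent.Helper70.BI

open Pool.Agent.Helper34.BI (cfac BarData barFam PreCross BFam GenData cst crv mem_neck
  sph_zero_le le_sph_one rsq_nonneg_aux neck_eq)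

namespace FML

/-- the contraction used in this file -/
structure Contr (lam : ℝ) : Prop where
  pos : 0 < lam
  cont : Continuous (clc 1 lam)
  emb : EmbOn I4 (clc 1 lam) univ
  fst : ∀ p, (clc 1 lam p).1 = p.1
  form : ∀ p : R4, rsq 1 p ≤ 1 / 20 → clc 1 lam p = (p.1, pc 1 + lam • (p.2 - pc 1))
  far : ∀ p : R4, 9 / 100 ≤ rsq 1 p → clc 1 lam p = p
  axis : ∀ a, clc 1 lam (ax a) = ax (bb lam a)
  le : ∀ p : R4, rsq 1 (clc 1 lam p) ≤ rsq 1 p
  mono : StrictMono (bb lam)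

theorem contr (hCL : StCL) {lam : ℝ} (h0 : 0 < lam) (h1 : lam ≤ 1) : Contr lam := by
  obtain ⟨c1, -, c3⟩ := hCL 1 (Or.inr rfl)
  obtain ⟨c4, c5, c6, c7, c8, c9, c10⟩ := c3 lam ⟨h0, h1⟩
  refine ⟨h0, ?_, c4, c5, c6, c7, c8, c9, strictMono_of_deriv_pos c10⟩
  exact c1.continuous.comp (f := fun p : R4 => (lam, p)) (by fun_prop)

theorem continuous_rsq' (c : ℝ) : Continuous (rsq c) := by
  unfold rsq nsq
  fun_prop

theorem far_sph_zero {p : R4} (hp : p ∈ sph 0) : 9 / 100 < rsq 1 p := by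
  have h1 := rsq_nonneg_aux 1 p
  have h2 := sph_zero_le hp
  nlinarith

theorem le_flat {p : R4} (hp : p ∈ flat 1) : 4 / 5 ≤ p.2.1 := by
  have h1 := rsq_nonneg_aux 1 p
  have h2 := hp.2
  nlinarith

theorem ax_inj {a b : ℝ} (h : ax a = ax b) : a = b := congrArg (fun p : R4 => p.2.1) h

theorem rsq_ax (a : ℝ) : rsq 1 (ax a) = (a - 1) ^ 2 := by
  simp [rsq, nsq, ax]

theorem ax_one_mem : ax 1 ∈ flat 1 := by
  refine ⟨rfl, ?_⟩
  rw [rsq_ax]
  norm_num

namespace Contr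
variable {lam : ℝ} (C : Contr lam)
include C

theorem bb_eq {a : ℝ} (h : a ≤ 7 / 10) : bb lam a = a := by
  apply ax_inj
  rw [← C.axis a, C.far]
  rw [rsq_ax]
  nlinarith

omit C in
theorem bb_one : bb lam 1 = 1 := by
  simp [bb]

theorem bb_mem {a : ℝ} (h : a ∈ Icc (1 / 5 : ℝ) (4 / 5)) : bb lam a ∈ Icc (1 / 5 : ℝ) 1 := by
  constructor
  · have h1 := C.mono.monotone h.1
    rwa [C.bb_eq (by norm_num : (1 / 5 : ℝ) ≤ 7 / 10)] at h1
  · have h1 := C.mono.monotone (show a ≤ 1 by linarith [h.2])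
    rwa [bb_one] at h1

theorem mem_flat {p : R4} (h : p ∈ flat 1) : clc 1 lam p ∈ flat 1 :=
  ⟨(C.fst p).trans h.1, (C.le p).trans h.2⟩

/-- near the flat ball the contraction takes values near the centre -/
theorem near {p : R4} (h : p ∈ flat 1) {ε : ℝ} (hε : lam < ε) :
    ∀ᶠ q in 𝓝 p, ‖clc 1 lam q - ax 1‖ < ε := by
  have hc : Continuous (fun q => ‖clc 1 lam q - ax 1‖) := (C.cont.sub continuous_const).norm
  refine (isOpen_lt hc continuous_const).mem_nhds ?_
  show ‖clc 1 lam p - ax 1‖ < ε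
  have h2 : rsq 1 p ≤ 1 / 25 := h.2
  rw [C.form p (h2.trans (by norm_num))]
  have e : ((p.1, pc 1 + lam • (p.2 - pc 1)) : R4) - ax 1 = (0, lam • (p.2 - pc 1)) := by
    have h1 : p.1 = 1 / 2 := h.1
    have e1 : ax 1 = ((1 / 2, pc 1) : R4) := rfl
    rw [e1, Prod.mk_sub_mk, h1, sub_self, add_sub_cancel_left]
  rw [e]
  have h3 : ‖p.2 - pc 1‖ ≤ 1 := by
    have h4 : (p.2.1 - 1) ^ 2 + p.2.2.re ^ 2 + p.2.2.im ^ 2 ≤ 1 / 25 := h2
    refine (norm_prod_le_iff).2 ⟨?_, ?_⟩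
    · have : (p.2 - pc 1).1 = p.2.1 - 1 := rfl
      rw [this, Real.norm_eq_abs, abs_le]
      constructor <;> nlinarith [sq_nonneg p.2.2.re, sq_nonneg p.2.2.im]
    · have : (p.2 - pc 1).2 = p.2.2 := by
        show p.2.2 - 0 = p.2.2
        rw [sub_zero]
      rw [this]
      have h5 := Complex.sq_norm p.2.2
      rw [Complex.normSq_apply] at h5
      nlinarith [norm_nonneg p.2.2, sq_nonneg (p.2.1 - 1)]
  refine lt_of_le_of_lt ?_ hε
  refine (norm_prod_le_iff).2 ⟨by simpa using C.pos.le, ?_⟩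
  show ‖lam • (p.2 - pc 1)‖ ≤ lam
  rw [norm_smul, Real.norm_of_nonneg C.pos.le]
  nlinarith [C.pos]

/-- near the flat ball the contracted germ is the contraction -/
theorem eq_flat {F : R4 → R4} {γ e δ : ℝ} (N : NB 1 F γ e δ) (hl : lam < δ) {p : R4}
    (h : p ∈ flat 1) : (fun p => F (clc 1 lam p)) =ᶠ[𝓝 p] clc 1 lam := by
  filter_upwards [C.near h hl] with q hq
  exact N.near _ hq

/-- near the first cuff the contraction is the identity -/
theorem eq_sph {p : R4} (h : p ∈ sph 0) : ∀ᶠ q in 𝓝 p, clc 1 lam q = q := by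
  have h1 : ∀ᶠ q in 𝓝 p, 9 / 100 < rsq 1 q :=
    (isOpen_lt continuous_const (continuous_rsq' 1)).mem_nhds (far_sph_zero h)
  filter_upwards [h1] with q hq
  exact C.far q (le_of_lt hq)

end Contr

theorem core_mid {F : R4 → R4} {d δ : ℝ} (N : NB 1 F (2 / 5) d δ) :
    core F (2 / 5) = F (ax 1) := by
  rw [N.str (2 / 5) (by simpa using N.pos), N.near (ax 1) (by simpa using N.pos)]
  simp [ax, pc]

/-- the framing lemma in the form used here -/
theorem eqv_fr (hFr : StFr) {F F' : R4 → R4} (h1 : EmbOn I4 F SP) (h2 : EmbOn I4 F' SP)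
    (h3 : ∀ p ∈ sph 0 ∪ sph 1, F =ᶠ[𝓝 p] F')
    (h4 : ∀ a ∈ Icc (1 / 5 : ℝ) (4 / 5), F (ax a) = F' (ax a)) : Eqv F F' := by
  obtain ⟨U, u1, u2, u3⟩ := nearEq_of_eventuallyEq h3
  refine hFr F F' U h1 h2 u1 u2 u3 fun p hp => ?_
  rw [neck_eq hp]
  exact h4 p.2.1 ⟨hp.2.1, hp.2.2.1⟩

theorem sph_sub_flat : sph 1 ⊆ flat 1 := fun _ hp => ⟨hp.1, hp.2.le⟩

end FML

open FML

/-- **FML.** The family of germs joining a germ to its lasso. -/
theorem m_FML (hFML1 : StFML1) (hCL : StCL) (hCTR : StCTR) (hFr : StFr)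
    (hCH : Pool.Agent.Helper34.BI.StCH) : StFML := by
  intro F F' d δ δ' r δ₂ H hd L hδ hδ' A
  obtain ⟨lam, l0, l1, l2, l3, -, G, only, late⟩ := hFML1 F F' d δ δ' r δ₂ H hd L hδ hδ' A
  have C : Contr lam := contr hCL l0 (by linarith)
  have z : (1 : ℝ) - 1 = 0 := by norm_num
  -- the contracted germs
  obtain ⟨eF, qF⟩ := hCTR 1 F (2 / 5) (Or.inr rfl) L.nb.br.loc L.nb.br.inj L.nb.br.injF
    (core_mid L.nb) L.nb.br.only lam ⟨l0, by linarith⟩
  obtain ⟨eF', qF'⟩ := hCTR 1 F' (2 / 5) (Or.inr rfl) L.nb'.br.loc L.nb'.br.inj L.nb'.br.injF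
    (core_mid L.nb') L.nb'.br.only lam ⟨l0, by linarith⟩
  set Fl : R4 → R4 := fun p => F (clc 1 lam p) with hFl
  set Gl : R4 → R4 := fun p => F' (clc 1 lam p) with hGl
  have near : ∀ p ∈ sph 0 ∪ sph 1, Fl =ᶠ[𝓝 p] Gl := by
    rintro p (hp | hp)
    · have h1 := L.near.eventuallyEq hp
      filter_upwards [C.eq_sph hp, h1] with q hq1 hq2
      show F (clc 1 lam q) = F' (clc 1 lam q)
      rw [hq1, hq2]
    · exact (C.eq_flat L.nb l2 (sph_sub_flat hp)).trans (C.eq_flat L.nb' l3 (sph_sub_flat hp)).symm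
  -- the family
  set c₀ : ℝ → R4 := fun a => H (0, bb lam a) with hc₀
  set Hl : ℝ × ℝ → R4 := fun z => H (z.1, bb lam z.2) with hHl
  set J : ℝ × R4 → R4 := barFam Gl c₀ Hl (1 / 50) with hJ
  have B : BarData Gl c₀ Hl (1 / 50) := G.bar
  have Jfl : ∀ (t : ℝ) (p : R4), 4 / 5 - 1 / 100 ≤ p.2.1 → J (t, p) = Gl p := fun t p hp =>
    B.barFam_eq (Or.inr (by linarith))
  have Jcuff : ∀ t : ℝ, ∀ p ∈ sph 0 ∪ sph 1, J (t, p) = Gl p := fun t p hp => G.cuff_val t hp
  have Jcuffe : ∀ t : ℝ, ∀ p ∈ sph 0 ∪ sph 1, Gl =ᶠ[𝓝 p] fun p => J (t, p) := by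
    intro t p hp
    have h1 := G.cuff_eventually t hp
    have hcont : Continuous (fun q : R4 => (t, q)) := by fun_prop
    filter_upwards [hcont.continuousAt.eventually h1] with q hq
    exact hq.symm
  have Jflat : ∀ t : ℝ, ∀ p ∈ flat 1, (fun p => J (t, p)) =ᶠ[𝓝 p] Gl := by
    intro t p hp
    have h1 : ∀ᶠ q : R4 in 𝓝 p, 4 / 5 - 1 / 100 < q.2.1 :=
      (isOpen_lt continuous_const (by fun_prop)).mem_nhds
        (show 4 / 5 - 1 / 100 < p.2.1 by linarith [le_flat hp])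
    filter_upwards [h1] with q hq
    exact Jfl t q hq.le
  have Jval : ∀ t : ℝ, ∀ p ∈ flat 1, J (t, p) = Gl p := fun t p hp =>
    Jfl t p (by linarith [le_flat hp])
  have Jneck : ∀ t : ℝ, ∀ a ∈ Icc (1 / 5 : ℝ) (4 / 5), J (t, ax a) = H (t, bb lam a) :=
    fun t a ha => B.barFam_neck ha.1 ha.2
  have Jax : ∀ t : ℝ, (fun p => J (t, p)) =ᶠ[𝓝 (ax 1)] clc 1 lam := fun t =>
    (Jflat t (ax 1) ax_one_mem).trans (C.eq_flat L.nb' l3 ax_one_mem)
  -- the members of the family at the ends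
  have e0 : EmbOn I4 (fun p => J (0, p)) SP := B.embOn (G.imm 0) G.injF (G.injH 0) G.dis₀
  have e1 : EmbOn I4 (fun p => J (1, p)) SP := B.embOn (G.imm 1) G.injF (G.injH 1) G.dis₁
  refine ⟨J, ?_, e0, e1, ?_, ?_⟩
  · refine ⟨fun t p hp => B.eventually_smooth t hp, ?_, (G.bfam hCH).finite, ?_, ?_, ?_, ?_, ?_⟩
    · rintro t p (hp | hp)
      · exact B.isLocalDiffeomorphAt (G.imm t) hp
      · exact ld_congr ((Jflat t p hp).trans (C.eq_flat L.nb' l3 hp)).symm (C.emb.1 p (mem_univ _))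
    · intro t ht
      obtain ⟨u, hu, hm⟩ := G.exists_crossing ht
      obtain ⟨h1, p, hp, he⟩ := late t u hu hm
      exact ⟨u, p, h1, G.preCross_zero hCH hu hp he⟩
    · intro t t' p hp
      rw [Jval t p hp, Jval t' p hp]
    · intro t p hp q hq he
      have key : ∀ p ∈ flat 1 ∪ sph 0, J (t, p) = Gl p ∧ clc 1 lam p ∈ flat 1 ∪ sph (1 - 1) := by
        rintro p (hp | hp)
        · exact ⟨Jval t p hp, Or.inl (C.mem_flat hp)⟩
        · refine ⟨Jcuff t p (Or.inl hp), Or.inr ?_⟩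
          rw [z, C.far p (far_sph_zero hp).le]
          exact hp
      simp only at he
      rw [(key p hp).1, (key q hq).1] at he
      exact C.emb.2 (mem_univ _) (mem_univ _)
        (L.nb'.br.injF (key p hp).2 (key q hq).2 he)
    · intro t
      have hm : (2 / 5 : ℝ) ∈ Icc (1 / 5 : ℝ) (4 / 5) := by constructor <;> norm_num
      have hval : ∀ a, |a - 2 / 5| < min δ₂ (1 / 10) →
          J (t, ax a) = (1 / 2 + d * (a - 2 / 5), pc 1) := by
        intro a ha
        have h1 := abs_lt.1 (lt_of_lt_of_le ha (min_le_right _ _))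
        rw [Jneck t a ⟨by linarith, by linarith⟩, C.bb_eq (by linarith)]
        exact A.mid t a (lt_of_lt_of_le ha (min_le_left _ _)).le
      have hpos : 0 < min δ₂ (1 / 10) := lt_min A.pos (by norm_num)
      have fix : clc 1 lam (ax 1) = ax 1 := by rw [C.axis, Contr.bb_one]
      refine ⟨pc 1, ?_, ?_, d, 0, ?_, ?_⟩
      · simp [nsq]
      · show J (t, ax (2 / 5)) = J (t, ax 1)
        rw [hval _ (by simpa using hpos), (Jax t).eq_of_nhds, fix]
        simp [ax, pc]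
      · rcases hd with rfl | rfl <;> norm_num
      · -- the derivative along the bar
        have hloc : LD (fun p => J (t, p)) (ax (2 / 5)) :=
          B.isLocalDiffeomorphAt (G.imm t) (Or.inr (mem_neck hm.1 hm.2))
        have d1 : HasFDerivAt (fun p => J (t, p)) (fderiv ℝ (fun p => J (t, p)) (ax (2 / 5)))
            (ax (2 / 5)) :=
          ((ld_iff.1 hloc).1.self_of_nhds.differentiableAt (by simp)).hasFDerivAt
        have l : HasDerivAt (fun a : ℝ => ax a) (0, ((1 : ℝ), (0 : ℂ))) (2 / 5) :=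
          (hasDerivAt_const _ _).prodMk ((hasDerivAt_id _).prodMk (hasDerivAt_const _ _))
        have d2 := HasFDerivAt.comp_hasDerivAt_of_eq (2 / 5 : ℝ) d1 l rfl
        have d3 : HasDerivAt (fun a : ℝ => (((1 / 2 + d * (a - 2 / 5), pc 1) : R4)))
            (d, 0) (2 / 5) := by
          have h1 : HasDerivAt (fun a : ℝ => 1 / 2 + d * (a - 2 / 5)) (d * 1) (2 / 5) :=
            (((hasDerivAt_id (2 / 5 : ℝ)).sub_const _).const_mul d).const_add _
          rw [mul_one] at h1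
          exact h1.prodMk (hasDerivAt_const _ _)
        have d4 : HasDerivAt ((fun p => J (t, p)) ∘ fun a => ax a) (d, 0) (2 / 5) := by
          refine d3.congr_of_eventuallyEq ?_
          have h1 : ∀ᶠ a : ℝ in 𝓝 (2 / 5), |a - 2 / 5| < min δ₂ (1 / 10) :=
            (isOpen_lt (by fun_prop) continuous_const).mem_nhds
              (show |(2 / 5 : ℝ) - 2 / 5| < min δ₂ (1 / 10) by simpa using hpos)
          filter_upwards [h1] with a ha
          exact hval a ha
        rw [d2.unique d4]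
        -- the derivative at the centre of the ball
        have g1 : (fun p => J (t, p)) =ᶠ[𝓝 (ax 1)]
            fun p : R4 => (p.1, pc 1 + lam • (p.2 - pc 1)) := by
          have h1 : ∀ᶠ q : R4 in 𝓝 (ax 1), rsq 1 q < 1 / 20 :=
            (isOpen_lt (continuous_rsq' 1) continuous_const).mem_nhds
              (show rsq 1 (ax 1) < 1 / 20 by rw [rsq_ax]; norm_num)
          filter_upwards [Jax t, h1] with q hq1 hq2
          rw [hq1, C.form q hq2.le]
        have g2 : HasFDerivAt (fun p : R4 => ((p.1, pc 1 + lam • (p.2 - pc 1)) : R4))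
            ((ContinuousLinearMap.fst ℝ ℝ R3).prod (lam • ContinuousLinearMap.snd ℝ ℝ R3))
            (ax 1) := by
          refine HasFDerivAt.prodMk (hasFDerivAt_fst) ?_
          exact ((hasFDerivAt_snd.sub_const _).const_smul lam).const_add _
        show ((d, 0) : R4) = fderiv ℝ (fun p => J (t, p)) (ax 1) (d, 0)
        rw [(g2.congr_of_eventuallyEq g1).fderiv]
        simp
    · intro t a ha hm
      refine only t a ha ?_
      obtain ⟨p, hp, he⟩ := hm
      refine ⟨p, hp, ?_⟩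
      rw [← Jneck t a ha]
      exact (Jval t p hp).symm.trans he
  · refine qF'.trans (eqv_fr hFr eF' e0 (Jcuffe 0) fun a ha => ?_)
    rw [Jneck 0 a ha]
    exact G.core a ha
  · refine qF.trans (eqv_fr hFr eF e1 (fun p hp => (near p hp).trans (Jcuffe 1 p hp))
      fun a ha => ?_)
    rw [Jneck 1 a ha, A.stop _ (C.bb_mem ha)]
    show F (clc 1 lam (ax a)) = F (ax (bb lam a))
    rw [C.axis]

end Pool.Agent.Helper70.BI


end

/-! ## Helper70.BI.M_OBP -/

section

/-!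
# Project BI, part (E), module OBP

`StOBP`: a germ with positive orientation whose second cuff bounds a flat ball met once by the bar
has class `1` or `W`.  Assembly of the statements of section L.
-/

set_option autoImplicit false

open scoped Manifold ContDiff Topology ComplexConjugate
open Set Filter Pool.Agent.Helper65.Barb Pool.Agent.Helper18.BI

namespace Pool.Agent.Helper70.BI

/-- Existence of a germ in normal form with the bar passing at the parameter `2/5`. -/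
private theorem exists_NB (hNF1 : StNF1) (hRM : StRM) (hRG : StRG) (hNF2 : StNF2) {F : R4 → R4}
    {γ e : ℝ} (he : e = 1 ∨ e = -1) (hF : Br 1 F γ e) (hd : 0 < (fderiv ℝ F (ax (4 / 5))).det) :
    ∃ (F₁ : R4 → R4) (δ : ℝ), Eqv F F₁ ∧ NB 1 F₁ (2 / 5) e δ := by
  have h45 : (1 / 5 + 3 / 5 * 1 : ℝ) = 4 / 5 := by norm_num
  obtain ⟨F₂, G, hE, hB, ⟨τ, τs, τv, τd, τF⟩, -, hid, -, -, -, -⟩ :=
    hNF1 1 F γ e univ (Or.inr rfl) hF (by rw [h45]; exact hd) isOpen_univ isPreconnected_univ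
      (mem_univ _) (mem_univ _)
  have ce : ContinuousAt (fun a : ℝ => 1 / 2 + e * (a - 2 / 5)) (2 / 5) := by fun_prop
  have ve : (1 / 2 + e * ((2 : ℝ) / 5 - 2 / 5) : ℝ) = 1 / 2 := by ring
  have μs : ∀ᶠ a in 𝓝 (2 / 5 : ℝ), ContDiffAt ℝ ∞ (fun a => τ (1 / 2 + e * (a - 2 / 5))) a := by
    have h1 : ∀ᶠ a in 𝓝 (2 / 5 : ℝ), ContDiffAt ℝ ∞ τ (1 / 2 + e * (a - 2 / 5)) := by
      have := ce.tendsto
      rw [ve] at this
      exact this.eventually τs
    filter_upwards [h1] with a ha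
    exact ha.comp a (by fun_prop)
  have μd : 0 < deriv (fun a => τ (1 / 2 + e * (a - 2 / 5))) (2 / 5) := by
    have h1 : HasDerivAt τ (deriv τ (1 / 2)) (1 / 2 + e * ((2 : ℝ) / 5 - 2 / 5)) := by
      rw [ve]
      exact (τs.self_of_nhds.differentiableAt (by simp)).hasDerivAt
    have h2 : HasDerivAt (fun a : ℝ => 1 / 2 + e * (a - 2 / 5)) (e * 1) (2 / 5) :=
      (((hasDerivAt_id (2 / 5 : ℝ)).sub_const _).const_mul e).const_add _
    have h3 : HasDerivAt (fun a : ℝ => τ (1 / 2 + e * (a - 2 / 5))) (deriv τ (1 / 2) * (e * 1))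
        (2 / 5) := HasDerivAt.comp (2 / 5 : ℝ) h1 h2
    rw [h3.deriv]
    nlinarith [τd]
  obtain ⟨m, ms, md, mμ, η, hη, mid⟩ := hRM.1 (1 / 5) (4 / 5) (2 / 5) γ
    (fun a => τ (1 / 2 + e * (a - 2 / 5))) (by norm_num) (by norm_num) hB.mem.1 hB.mem.2 μs
    (by show τ (1 / 2 + e * ((2 : ℝ) / 5 - 2 / 5)) = γ; rw [ve, τv]) μd
  have hm : RepOK m := ⟨ms, md, η, hη, mid⟩
  obtain ⟨δ₀, hδ, hNB⟩ := hNF2 1 F₂ γ (2 / 5) e τ m (Or.inr rfl) he hB hid τv τF hm
    ⟨by norm_num, by norm_num⟩ mμ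
  have hS : EmbOn I4 F₂ SP := ⟨fun p hp => hB.loc p (Or.inl hp), hB.inj⟩
  obtain ⟨-, -, -, -, -, h6⟩ := hRG m hm
  exact ⟨fun p => F₂ (repm m p), δ₀, hE.trans (h6 F₂ hS).2, hNB δ₀ ⟨hδ, le_rfl⟩⟩

theorem m_OBP (hLAS : StLAS) (hXC : StXC) (hARL : StARL) (hFML : StFML) (hTH : StTH)
    (hLGG : StLGG) (hMWL : StMWL) (hNF1 : StNF1) (hRM : StRM) (hRG : StRG) (hNF2 : StNF2) :
    StOBP := by
  intro W F γ e hW he hF hd φ hφ
  obtain ⟨F₁, δ, hE, hNB⟩ := exists_NB hNF1 hRM hRG hNF2 he hF hd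
  obtain ⟨r, δ', F', r0, -, rδ, far, farc, hNB', hid, near, low, high⟩ :=
    hLAS F₁ e δ 1 he hNB one_pos
  have hL : LasPair F₁ F' e δ δ' r := ⟨hNB, hNB', r0, rδ, far, farc, near, low, high⟩
  obtain ⟨c, c', μ, μ0, μδ, μδ', hc, hc', hcc⟩ := hXC F₁ F' e δ δ' r he hL
  obtain ⟨δ₂, H, h1, h2, hH⟩ := hARL F₁ F' e δ δ' r μ c c' he hL μ0 μδ μδ' hc hc' hcc
  obtain ⟨J, hJ, hJ0, hJ1, e0, e1⟩ := hFML F₁ F' e δ δ' r δ₂ H he hL h1 h2 hH
  obtain ⟨-, hrefl, hsymm, htrans, hfam, -, -⟩ := hMWL W hW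
  have key : MW W (fun p => J (0, p)) (fun p => J (1, p)) :=
    hLGG (MW W) J hrefl hsymm htrans (hfam J) hJ.smooth (fun t p hp => hJ.loc t p (Or.inl hp))
      hJ.finite (fun t hn ε hε => hTH W J e t ε hW he hJ hn hε) hJ0 hJ1
  exact key (fun x => x) φ ((e0 _).1 hid) ((e1 φ).1 ((hE φ).1 hφ))

end Pool.Agent.Helper70.BI


end

/-! ## Helper34.BI.Main -/

section

/-!
# Project BI: the main theorem of stage 1 (`StMain`) from the modules of parts (B), (D)
-/

set_option autoImplicit false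

open Module Set Filter Topology
open scoped ContDiff Manifold ComplexConjugate
open Pool.Agent.Helper65.Barb Pool.Agent.Helper18.BI Pool.Agent.Helper27.BI

namespace Pool.Agent.Helper34.BI

theorem finrank_R4 : finrank ℝ R4 = 4 := by
  simp [finrank_prod]

theorem stMain_of (hCH : StCH) (hCO : StCO) (hLG : StLG) (hFr : StFr) : StMain := by
  intro F F' φ φ' U hF hF' hU hs he hφ hφ'
  obtain ⟨c₀, c₁, δ, hδ, hδ2, s₀, s₁, core, hfr, imm⟩ := hCO F F' U hF hF' hU hs he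
  obtain ⟨charts, -, -, -, hcrv, -, -⟩ := hCH F hF
  have ha : (1 / 5 : ℝ) ∈ Icc (1 / 5 : ℝ) (4 / 5) := by norm_num
  have hb : (4 / 5 : ℝ) ∈ Icc (1 / 5 : ℝ) (4 / 5) := by norm_num
  rw [(core _ ha).1, (core _ hb).1] at charts
  have inj₁ : InjOn c₁ (Icc (1 / 5) (4 / 5)) := by
    intro a ha b hb h
    rw [← (core a ha).2, ← (core b hb).2] at h
    have := hF'.2 (Or.inr (mem_neck ha.1 ha.2)) (Or.inr (mem_neck hb.1 hb.2)) h
    exact congrArg (fun p : R4 => p.2.1) this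
  have inj₀ : InjOn c₀ (Icc (1 / 5) (4 / 5)) := by
    intro a ha b hb h
    rw [← (core a ha).1, ← (core b hb).1] at h
    have := hF.2 (Or.inr (mem_neck ha.1 ha.2)) (Or.inr (mem_neck hb.1 hb.2)) h
    exact congrArg (fun p : R4 => p.2.1) this
  have dis : ∀ (K : R4 → R4), EmbOn 𝓘(ℝ, R4) K SP → ∀ a ∈ Ioo (1 / 5 : ℝ) (4 / 5),
      K (1 / 2, a, 0) ∉ K '' (sph 0 ∪ sph 1) := by
    rintro K hK a ha ⟨p, hp, he⟩
    have := hK.2 (Or.inl hp) (Or.inr (mem_neck ha.1.le ha.2.le)) he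
    subst this
    rcases hp with hp | hp
    · have := sph_zero_le hp
      simp only at this
      linarith [ha.1]
    · have := le_sph_one hp
      simp only at this
      linarith [ha.2]
  have hA : F '' (sph 0 ∪ sph 1) = F' '' (sph 0 ∪ sph 1) := image_congr fun p hp => he (hs hp)
  have dis₀ : ∀ a ∈ Ioo (1 / 5 : ℝ) (4 / 5), c₀ a ∉ F '' (sph 0 ∪ sph 1) := by
    intro a ha
    rw [← (core a ⟨ha.1.le, ha.2.le⟩).1]
    exact dis F hF a ha
  have dis₁ : ∀ a ∈ Ioo (1 / 5 : ℝ) (4 / 5), c₁ a ∉ F '' (sph 0 ∪ sph 1) := by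
    intro a ha
    rw [← (core a ⟨ha.1.le, ha.2.le⟩).2, hA]
    exact dis F' hF' a ha
  obtain ⟨H, hH, avoid, -⟩ := exists_arcFamily (κ := Bool) (g := fun b θ => F (crv b θ))
    finrank_R4 (Complex.finrank_real_complex) hcrv hδ (by linarith) s₀ s₁ hfr
    inj₀ inj₁ (fun u hu => (imm u hu).1) (fun u hu => (imm u hu).2) charts dis₀ dis₁ one_pos
  have G : GenData F c₀ c₁ δ H := {
    emb := hF
    pos := hδ
    small := hδ2
    smooth₀ := s₀
    core := fun a ha => (core a ha).1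
    inj₁ := inj₁
    imm₀ := fun u hu => (imm u hu).1
    imm₁ := fun u hu => (imm u hu).2
    dis₁ := dis₁
    arcs := hH
    avoid := avoid }
  have hJ0 : (fun p => barFam F c₀ H δ (0, p)) = F := by
    funext p
    have e1 : H (0, p.2.1) = c₀ p.2.1 := hH.start 0 _ le_rfl
    have e2 : fderiv ℝ H (0, p.2.1) (0, 1) = deriv c₀ p.2.1 := by
      rw [← (G.hasDeriv 0 p.2.1).deriv]
      have e : (fun r => H (0, r)) = c₀ := funext fun r => hH.start 0 r le_rfl
      rw [e]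
    simp only [barFam, thick, thickB, e1, e2, sub_self, map_zero, ContinuousLinearMap.zero_comp,
      ContinuousLinearMap.zero_apply, add_zero, smul_zero]
  have emb1 : EmbOn 𝓘(ℝ, R4) (fun p => barFam F c₀ H δ (1, p)) SP := by
    refine G.bar.embOn (G.imm 1) G.injF (G.injH 1) ?_
    intro a ha
    rw [hH.stop 1 a le_rfl]
    exact dis₁ a ha
  have hMR := hLG _ (G.bfam hCH) (by rw [hJ0]; exact hF) emb1
  rw [hJ0] at hMR
  have hU' : IsOpen (U ∩ {p : R4 | p.2.1 < 1 / 5 + δ / 2 ∨ 4 / 5 - δ / 2 < p.2.1}) := by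
    have hcont : Continuous (fun q : R4 => q.2.1) := by fun_prop
    exact hU.inter ((isOpen_lt hcont continuous_const).union (isOpen_lt continuous_const hcont))
  have hT : Thin 𝓘(ℝ, R4) (fun p => barFam F c₀ H δ (1, p)) φ' := by
    refine (hFr _ F' _ emb1 hF' hU' ?_ ?_ ?_ φ').2 hφ'
    · intro p hp
      refine ⟨hs hp, ?_⟩
      rcases hp with hp | hp
      · exact Or.inl (by linarith [sph_zero_le hp])
      · exact Or.inr (by linarith [le_sph_one hp])
    · rintro p ⟨hp1, hp2⟩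
      show barFam F c₀ H δ (1, p) = F' p
      rw [G.bar.barFam_eq (hp2.imp le_of_lt le_of_lt)]
      exact he hp1
    · intro p hp
      show barFam F c₀ H δ (1, p) = F' p
      rw [neck_eq hp, G.bar.barFam_neck hp.2.1 hp.2.2.1, hH.stop 1 _ le_rfl,
        (core _ ⟨hp.2.1, hp.2.2.1⟩).2]
  exact hMR φ φ' hφ hT

end Pool.Agent.Helper34.BI


end

/-! ## Helper70.BI.M_Main2 -/

section

/-!
# Project BI, part (E): the main theorem of stage 2 for `R4`
-/

set_option autoImplicit false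

open scoped Manifold ContDiff Topology ComplexConjugate
open Set Filter Pool.Agent.Helper65.Barb Pool.Agent.Helper18.BI

namespace Pool.Agent.Helper70.BI

open Pool.Agent.Helper34.BI (BarData barFam PreCross BFam GenData StCH StCO exists_arcFamily
  finrank_R4 neck_eq swp_swp swp_mem_SP)
open Pool.Agent.Helper27.BI (swp)

namespace Main2

/-- one crossing with the first cuff -/
theorem crossing (hOB0 : StOB0) (hCRP : StCRP) (hMWL : StMWL) (hT2 : StT2) {W : R4 → R4}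
    (hW : IsW W) {J : ℝ × R4 → R4} {t₀ u₀ : ℝ} {p₀ : R4} (hp : PreCross J t₀ u₀ p₀) {ε : ℝ}
    (hε : 0 < ε) :
    ∃ t₁ ∈ Ioo (t₀ - ε) t₀, ∃ t₂ ∈ Ioo t₀ (t₀ + ε), EmbOn I4 (fun p => J (t₁, p)) SP ∧
      EmbOn I4 (fun p => J (t₂, p)) SP ∧ MW W (fun p => J (t₁, p)) (fun p => J (t₂, p)) := by
  obtain ⟨ti, -, -, -, -, -, tvii⟩ := hT2 R4 R4 𝓘(ℝ, R4) R4
  obtain ⟨-, -, -, ct, cc, -, -, -, -, -⟩ := m_CI R4 R4 𝓘(ℝ, R4) R4
  obtain ⟨-, -, hsymm, -, -, -, -⟩ := hMWL W hW
  obtain ⟨t₁, ht₁, t₂, ht₂, e₁, e₂, t', t'', hor, O, α, e, -, he, hBr, -, -, -, hcl⟩ :=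
    hCRP J t₀ u₀ p₀ hp ∅ isCompact_empty (empty_disjoint _) ε hε
  refine ⟨t₁, ht₁, t₂, ht₂, e₁, e₂, ?_⟩
  have hO : EmbOn I4 O SP := ⟨fun p hp => hBr.loc p (Or.inl hp), hBr.inj⟩
  obtain ⟨ε₀, hε₀, hT⟩ := ti O hO
  have hn := hT (ε₀ / 2) ⟨by linarith, by linarith⟩
  have hmw : MW W (fun p => J (t'', p)) (fun p => J (t', p)) := by
    intro φ'' φ' h'' h'
    have h1 := hcl φ' φ'' _ h' h'' hn
    have h2 := tvii _ φ'' h''
    rcases hOB0 W O α e hW he hBr _ hn with h3 | h3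
    · left
      exact ct _ _ _ h1 (cc _ (fun x => x) φ'' φ'' h3 h2)
    · right
      exact ct _ _ _ h1 (cc _ W φ'' φ'' h3 h2)
  rcases hor with ⟨ha, hb⟩ | ⟨ha, hb⟩
  · subst ha hb
    exact hsymm _ _ hmw
  · subst ha hb
    exact hmw

/-- a germ is embedded if the swapped germ is -/
theorem embOn_of_swp {F : R4 → R4} (hl : ∀ p ∈ SP, LD F p)
    (h : EmbOn I4 (fun p => F (swp p)) SP) : EmbOn I4 F SP := by
  refine ⟨hl, ?_⟩
  intro p hp q hq he
  have h1 := h.2 (swp_mem_SP hp) (swp_mem_SP hq) (by simpa only [swp_swp] using he)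
  rw [← swp_swp p, h1, swp_swp]

/-- the family of germs -/
theorem family (hOB0 : StOB0) (hCRP : StCRP) (hMWL : StMWL) (hLGG : StLGG) (hT2 : StT2)
    {W : R4 → R4} (hW : IsW W) {J : ℝ × R4 → R4} (hJ : BFam J)
    (h0 : EmbOn I4 (fun p => J (0, p)) SP) (h1 : EmbOn I4 (fun p => J (1, p)) SP) :
    MW W (fun p => J (0, p)) (fun p => J (1, p)) := by
  obtain ⟨-, hrefl, hsymm, htrans, hfam, hswp, -⟩ := hMWL W hW
  refine hLGG (MW W) J hrefl hsymm htrans (fun t₁ t₂ => hfam J t₁ t₂) hJ.smooth hJ.loc hJ.finite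
    ?_ h0 h1
  intro t ht ε hε
  rcases hJ.cross t ht with ⟨u, p, hp⟩ | ⟨u, p, hp⟩
  · exact crossing hOB0 hCRP hMWL hT2 hW hp hε
  · obtain ⟨t₁, ht₁, t₂, ht₂, e₁, e₂, hmw⟩ := crossing hOB0 hCRP hMWL hT2 hW hp hε
    have e₁' : EmbOn I4 (fun p => J (t₁, p)) SP := embOn_of_swp (hJ.loc t₁) e₁
    have e₂' : EmbOn I4 (fun p => J (t₂, p)) SP := embOn_of_swp (hJ.loc t₂) e₂
    exact ⟨t₁, ht₁, t₂, ht₂, e₁', e₂', hswp _ _ e₁' e₂' hmw⟩

/-- the construction of the family (as in `Pool/Agent/Helper34/BI/Main.lean`) -/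
theorem exists_family (hCH : StCH) (hCO : StCO) (hFr : StFr) {F F' : R4 → R4} {U : Set R4}
    (hF : EmbOn 𝓘(ℝ, R4) F SP) (hF' : EmbOn 𝓘(ℝ, R4) F' SP) (hU : IsOpen U)
    (hs : sph 0 ∪ sph 1 ⊆ U) (he : EqOn F F' U) :
    ∃ J : ℝ × R4 → R4, BFam J ∧ (fun p => J (0, p)) = F ∧
      EmbOn 𝓘(ℝ, R4) (fun p => J (1, p)) SP ∧
      ∀ φ, Thin 𝓘(ℝ, R4) (fun p => J (1, p)) φ ↔ Thin 𝓘(ℝ, R4) F' φ := by
  obtain ⟨c₀, c₁, δ, hδ, hδ2, s₀, s₁, core, hfr, imm⟩ := hCO F F' U hF hF' hU hs he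
  obtain ⟨charts, -, -, -, hcrv, -, -⟩ := hCH F hF
  have ha : (1 / 5 : ℝ) ∈ Icc (1 / 5 : ℝ) (4 / 5) := by norm_num
  have hb : (4 / 5 : ℝ) ∈ Icc (1 / 5 : ℝ) (4 / 5) := by norm_num
  rw [(core _ ha).1, (core _ hb).1] at charts
  have inj₁ : InjOn c₁ (Icc (1 / 5) (4 / 5)) := by
    intro a ha b hb h
    rw [← (core a ha).2, ← (core b hb).2] at h
    have := hF'.2 (Or.inr (Pool.Agent.Helper34.BI.mem_neck ha.1 ha.2))
      (Or.inr (Pool.Agent.Helper34.BI.mem_neck hb.1 hb.2)) h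
    exact congrArg (fun p : R4 => p.2.1) this
  have inj₀ : InjOn c₀ (Icc (1 / 5) (4 / 5)) := by
    intro a ha b hb h
    rw [← (core a ha).1, ← (core b hb).1] at h
    have := hF.2 (Or.inr (Pool.Agent.Helper34.BI.mem_neck ha.1 ha.2))
      (Or.inr (Pool.Agent.Helper34.BI.mem_neck hb.1 hb.2)) h
    exact congrArg (fun p : R4 => p.2.1) this
  have dis : ∀ (K : R4 → R4), EmbOn 𝓘(ℝ, R4) K SP → ∀ a ∈ Ioo (1 / 5 : ℝ) (4 / 5),
      K (1 / 2, a, 0) ∉ K '' (sph 0 ∪ sph 1) := by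
    rintro K hK a ha ⟨p, hp, he⟩
    have := hK.2 (Or.inl hp) (Or.inr (Pool.Agent.Helper34.BI.mem_neck ha.1.le ha.2.le)) he
    subst this
    rcases hp with hp | hp
    · have := Pool.Agent.Helper34.BI.sph_zero_le hp
      simp only at this
      linarith [ha.1]
    · have := Pool.Agent.Helper34.BI.le_sph_one hp
      simp only at this
      linarith [ha.2]
  have hA : F '' (sph 0 ∪ sph 1) = F' '' (sph 0 ∪ sph 1) := image_congr fun p hp => he (hs hp)
  have dis₀ : ∀ a ∈ Ioo (1 / 5 : ℝ) (4 / 5), c₀ a ∉ F '' (sph 0 ∪ sph 1) := by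
    intro a ha
    rw [← (core a ⟨ha.1.le, ha.2.le⟩).1]
    exact dis F hF a ha
  have dis₁ : ∀ a ∈ Ioo (1 / 5 : ℝ) (4 / 5), c₁ a ∉ F '' (sph 0 ∪ sph 1) := by
    intro a ha
    rw [← (core a ⟨ha.1.le, ha.2.le⟩).2, hA]
    exact dis F' hF' a ha
  obtain ⟨H, hH, avoid, -⟩ := exists_arcFamily (κ := Bool)
    (g := fun b θ => F (Pool.Agent.Helper34.BI.crv b θ))
    finrank_R4 (Complex.finrank_real_complex) hcrv hδ (by linarith) s₀ s₁ hfr
    inj₀ inj₁ (fun u hu => (imm u hu).1) (fun u hu => (imm u hu).2) charts dis₀ dis₁ one_pos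
  have G : GenData F c₀ c₁ δ H := {
    emb := hF
    pos := hδ
    small := hδ2
    smooth₀ := s₀
    core := fun a ha => (core a ha).1
    inj₁ := inj₁
    imm₀ := fun u hu => (imm u hu).1
    imm₁ := fun u hu => (imm u hu).2
    dis₁ := dis₁
    arcs := hH
    avoid := avoid }
  have hJ0 : (fun p => barFam F c₀ H δ (0, p)) = F := by
    funext p
    have e1 : H (0, p.2.1) = c₀ p.2.1 := hH.start 0 _ le_rfl
    have e2 : fderiv ℝ H (0, p.2.1) (0, 1) = deriv c₀ p.2.1 := by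
      rw [← (G.hasDeriv 0 p.2.1).deriv]
      have e : (fun r => H (0, r)) = c₀ := funext fun r => hH.start 0 r le_rfl
      rw [e]
    simp only [barFam, Pool.Agent.Helper34.BI.thick, Pool.Agent.Helper34.BI.thickB, e1, e2,
      sub_self, map_zero, ContinuousLinearMap.zero_comp,
      ContinuousLinearMap.zero_apply, add_zero, smul_zero]
  have emb1 : EmbOn 𝓘(ℝ, R4) (fun p => barFam F c₀ H δ (1, p)) SP := by
    refine G.bar.embOn (G.imm 1) G.injF (G.injH 1) ?_
    intro a ha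
    rw [hH.stop 1 a le_rfl]
    exact dis₁ a ha
  have hU' : IsOpen (U ∩ {p : R4 | p.2.1 < 1 / 5 + δ / 2 ∨ 4 / 5 - δ / 2 < p.2.1}) := by
    have hcont : Continuous (fun q : R4 => q.2.1) := by fun_prop
    exact hU.inter ((isOpen_lt hcont continuous_const).union (isOpen_lt continuous_const hcont))
  refine ⟨barFam F c₀ H δ, G.bfam hCH, hJ0, emb1, ?_⟩
  refine hFr _ F' _ emb1 hF' hU' ?_ ?_ ?_
  · intro p hp
    refine ⟨hs hp, ?_⟩
    rcases hp with hp | hp
    · exact Or.inl (by linarith [Pool.Agent.Helper34.BI.sph_zero_le hp])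
    · exact Or.inr (by linarith [Pool.Agent.Helper34.BI.le_sph_one hp])
  · rintro p ⟨hp1, hp2⟩
    show barFam F c₀ H δ (1, p) = F' p
    rw [G.bar.barFam_eq (hp2.imp le_of_lt le_of_lt)]
    exact he hp1
  · intro p hp
    show barFam F c₀ H δ (1, p) = F' p
    rw [neck_eq hp, G.bar.barFam_neck hp.2.1 hp.2.2.1, hH.stop 1 _ le_rfl,
      (core _ ⟨hp.2.1, hp.2.2.1⟩).2]

end Main2

theorem m_Main2 (hOB0 : StOB0) (hCRP : StCRP) (hMWL : StMWL) (hLGG : StLGG)
    (hCH : Pool.Agent.Helper34.BI.StCH) (hCO : Pool.Agent.Helper34.BI.StCO) (hFr : StFr)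
    (hT2 : StT2) : StMain2 := by
  intro W F F' φ φ' U hW hF hF' hU hs he hφ hφ'
  obtain ⟨J, hJ, hJ0, h1, hT⟩ := Main2.exists_family hCH hCO hFr hF hF' hU hs he
  have h0 : EmbOn I4 (fun p => J (0, p)) SP := by rw [hJ0]; exact hF
  have h := Main2.family hOB0 hCRP hMWL hLGG hT2 hW hJ h0 h1
  rw [hJ0] at h
  exact h φ φ' hφ ((hT φ').2 hφ')

end Pool.Agent.Helper70.BI


end

/-! ## Helper70.BI.M_DET -/

section

/-!
# Project BI, part (E), module DET
-/

set_option autoImplicit false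

open scoped Manifold ContDiff Topology ComplexConjugate
open Set Filter Pool.Agent.Helper65.Barb Pool.Agent.Helper18.BI

namespace Pool.Agent.Helper70.BI

namespace DET

private theorem convex_flat (c : ℝ) : Convex ℝ (flat c) := by
  rintro ⟨s, a, w⟩ ⟨hp1, hp2⟩ ⟨s', a', w'⟩ ⟨hq1, hq2⟩ x y hx hy hxy
  simp only [rsq, nsq] at hp2 hq2
  simp only at hp1 hq1
  have hy' : y = 1 - x := by linarith
  subst hy'
  refine ⟨?_, ?_⟩
  · simp only [Prod.smul_mk, Prod.mk_add_mk, smul_eq_mul, hp1, hq1]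
    ring
  · simp only [rsq, nsq, Prod.smul_mk, Prod.mk_add_mk, smul_eq_mul, Complex.add_re,
      Complex.add_im, Complex.real_smul, Complex.mul_re, Complex.mul_im, Complex.ofReal_re,
      Complex.ofReal_im, zero_mul, sub_zero, add_zero]
    nlinarith [mul_nonneg hx hy, mul_nonneg (mul_nonneg hx hy) (sq_nonneg (a - a')),
      mul_nonneg (mul_nonneg hx hy) (sq_nonneg (w.re - w'.re)),
      mul_nonneg (mul_nonneg hx hy) (sq_nonneg (w.im - w'.im)),
      mul_le_mul_of_nonneg_left hp2 hx, mul_le_mul_of_nonneg_left hq2 hy]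

private theorem convex_neck : Convex ℝ neck := by
  rintro ⟨s, a, w⟩ ⟨hp1, hp2, hp3, hp4⟩ ⟨s', a', w'⟩ ⟨hq1, hq2, hq3, hq4⟩ x y hx hy hxy
  simp only at hp1 hp2 hp3 hp4 hq1 hq2 hq3 hq4
  have hy' : y = 1 - x := by linarith
  subst hy'
  refine ⟨?_, ?_, ?_, ?_⟩
  · simp only [Prod.smul_mk, Prod.mk_add_mk, smul_eq_mul, hp1, hq1]
    ring
  · simp only [Prod.smul_mk, Prod.mk_add_mk, smul_eq_mul]
    nlinarith [mul_le_mul_of_nonneg_left hp2 hx, mul_le_mul_of_nonneg_left hq2 hy]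
  · simp only [Prod.smul_mk, Prod.mk_add_mk, smul_eq_mul]
    nlinarith [mul_le_mul_of_nonneg_left hp3 hx, mul_le_mul_of_nonneg_left hq3 hy]
  · simp only [Prod.smul_mk, Prod.mk_add_mk, hp4, hq4, smul_zero, add_zero]

private theorem pre_FB : IsPreconnected FB := by
  have h0 : IsPreconnected (flat 0 ∪ neck) := by
    refine IsPreconnected.union (ax (1 / 5)) ?_ ?_ (convex_flat 0).isPreconnected
      convex_neck.isPreconnected
    · refine ⟨rfl, ?_⟩
      simp only [ax, rsq, nsq, Complex.zero_re, Complex.zero_im]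
      norm_num
    · refine ⟨rfl, ?_, ?_, rfl⟩
      · simp only [ax]; norm_num
      · simp only [ax]; norm_num
  have h1 : IsPreconnected ((flat 0 ∪ neck) ∪ flat 1) := by
    refine IsPreconnected.union (ax (4 / 5)) ?_ ?_ h0 (convex_flat 1).isPreconnected
    · refine Or.inr ⟨rfl, ?_, ?_, rfl⟩
      · simp only [ax]; norm_num
      · simp only [ax]; norm_num
    · refine ⟨rfl, ?_⟩
      simp only [ax, rsq, nsq, Complex.zero_re, Complex.zero_im]
      norm_num
  have h2 : FB = (flat 0 ∪ neck) ∪ flat 1 := by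
    unfold FB
    ext p
    simp only [mem_union]
    tauto
  rw [h2]; exact h1

private theorem det_ne {F : R4 → R4} {p : R4} (h : LD F p) : (fderiv ℝ F p).det ≠ 0 := by
  have h1 := (ld_iff.1 h).2
  have h2 : LinearMap.ker (fderiv ℝ F p : R4 →ₗ[ℝ] R4) = ⊥ :=
    LinearMap.ker_eq_bot.2 h1
  intro h0
  have h3 : LinearMap.det (fderiv ℝ F p : R4 →ₗ[ℝ] R4) = 0 := h0
  have h4 := LinearMap.bot_lt_ker_of_det_eq_zero h3
  rw [h2] at h4
  exact lt_irrefl _ h4

private theorem det_cont {F : R4 → R4} {p : R4} (h : LD F p) :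
    ContinuousAt (fun q => (fderiv ℝ F q).det) p := by
  have h1 := (ld_iff.1 h).1.self_of_nhds
  have h2 : ContinuousAt (fderiv ℝ F) p :=
    (h1.fderiv_right (m := ∞) (by simp)).continuousAt
  exact ContinuousLinearMap.continuous_det.continuousAt.comp h2

end DET

theorem m_DET : StDET := by
  intro F L hL hLD p hp q hq h
  have hpre : IsPreconnected L := by
    rcases hL with rfl | rfl | rfl
    · exact DET.pre_FB
    · exact (DET.convex_flat 0).isPreconnected
    · exact (DET.convex_flat 1).isPreconnected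
  by_contra hneg
  have hq0 : (fderiv ℝ F q).det ≤ 0 := not_lt.1 hneg
  have hc : ContinuousOn (fun x => (fderiv ℝ F x).det) L :=
    fun x hx => (DET.det_cont (hLD x hx)).continuousWithinAt
  have h1 := hpre.intermediate_value hq hp hc
  obtain ⟨x, hx, hx0⟩ := h1 ⟨hq0, h.le⟩
  exact DET.det_ne (hLD x hx) hx0

end Pool.Agent.Helper70.BI


end
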