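import Pool.Agent.Helper65.Barb.Defs
import Pool.Agent.Helper70.BI.C.P15
import Pool.Agent.Helper70.BI.C.P29

/-!
# Project BI (MP_8e98f2_gt): collected modules, part 51

The contents of the modules
* Helper70.BI.M_PATH
* Helper70.BI.M_RM
* Helper70.BI.M_RG
* Helper18.BI.H.M_STR
* Helper18.BI.R.M_HCL
* Helper18.BI.R.M_STR2

in one file, so that the whole proof builds in a short time.
-/

namespace Pool.Agent.Helper18.BI
end Pool.Agent.Helper18.BI

namespace Pool.Agent.Helper18.BI.H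
end Pool.Agent.Helper18.BI.H

namespace Pool.Agent.Helper27.H
end Pool.Agent.Helper27.H

namespace Pool.Agent.Helper65.Barb
end Pool.Agent.Helper65.Barb

namespace Pool.Agent.Helper70.BI
end Pool.Agent.Helper70.BI


/-! ## Helper70.BI.M_PATH -/

section

set_option autoImplicit false

/-!
# Project BI, module PATH: smooth paths with prescribed ends in a connected open set
-/

open scoped Manifold ContDiff Topology ComplexConjugate
open Set Filter Pool.Agent.Helper65.Barb Pool.Agent.Helper18.BI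

namespace Pool.Agent.Helper70.BI

namespace PATH

/-- gluing two smooth curves which agree near the gluing point -/
theorem glue {f₁ f₂ : ℝ → R4} {c ε : ℝ} (hε : 0 < ε) (h₁ : ContDiff ℝ ∞ f₁)
    (h₂ : ContDiff ℝ ∞ f₂) (h : ∀ t, |t - c| < ε → f₁ t = f₂ t) :
    ContDiff ℝ ∞ (fun t => if t < c then f₁ t else f₂ t) := by
  rw [contDiff_iff_contDiffAt]
  intro s
  rcases lt_trichotomy s c with hs | hs | hs
  · refine h₁.contDiffAt.congr_of_eventuallyEq ?_
    filter_upwards [Iio_mem_nhds hs] with t ht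
    exact if_pos ht
  · refine h₂.contDiffAt.congr_of_eventuallyEq ?_
    filter_upwards [Metric.ball_mem_nhds s hε] with t ht
    rw [Metric.mem_ball, Real.dist_eq, hs] at ht
    split_ifs
    · exact h t ht
    · rfl
  · refine h₂.contDiffAt.congr_of_eventuallyEq ?_
    filter_upwards [Ioi_mem_nhds hs] with t ht
    exact if_neg (not_lt.2 (le_of_lt ht))

/-- the relation of step (1) -/
def Conn (U : Set R4) (x y : R4) : Prop :=
  ∃ g : ℝ → R4, ContDiff ℝ ∞ g ∧ (∀ t, g t ∈ U) ∧ (∀ t, t ≤ 0 → g t = x) ∧ ∀ t, 1 ≤ t → g t = y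

theorem Conn.symm {U : Set R4} {x y : R4} (h : Conn U x y) : Conn U y x := by
  obtain ⟨g, h1, h2, h3, h4⟩ := h
  exact ⟨fun t => g (1 - t), h1.comp (contDiff_const.sub contDiff_id), fun t => h2 _,
    fun t ht => h4 _ (by linarith), fun t ht => h3 _ (by linarith)⟩

theorem Conn.trans {U : Set R4} {x y z : R4} (h : Conn U x y) (h' : Conn U y z) :
    Conn U x z := by
  obtain ⟨g, h1, h2, h3, h4⟩ := h
  obtain ⟨g', h1', h2', h3', h4'⟩ := h'
  refine ⟨fun t => if t < 1 / 2 then g (3 * t) else g' (3 * t - 2),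
    glue (ε := 1 / 6) (by norm_num) (h1.comp (contDiff_const.mul contDiff_id))
      (h1'.comp ((contDiff_const.mul contDiff_id).sub contDiff_const)) ?_, ?_, ?_, ?_⟩
  · intro t ht
    rw [abs_lt] at ht
    rw [h4 _ (by linarith [ht.1]), h3' _ (by linarith [ht.2])]
  · intro t
    dsimp only
    split_ifs
    · exact h2 _
    · exact h2' _
  · intro t ht
    dsimp only
    rw [if_pos (by linarith)]
    exact h3 _ (by linarith)
  · intro t ht
    dsimp only
    rw [if_neg (by linarith)]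
    exact h4' _ (by linarith)

theorem conn_of_isPreconnected {U : Set R4} (hU : IsOpen U) (hU' : IsPreconnected U) {x y : R4}
    (hx : x ∈ U) (hy : y ∈ U) : Conn U x y := by
  refine hU'.induction₂ (Conn U) (fun x hx => ?_) (fun x y z _ _ _ h h' => h.trans h')
    (fun x y _ _ h => h.symm) hx hy
  obtain ⟨ε, hε, hb⟩ := Metric.isOpen_iff.1 hU x hx
  filter_upwards [mem_nhdsWithin_of_mem_nhds (Metric.ball_mem_nhds x hε)] with y hy
  refine ⟨fun t => x + step t • (y - x), contDiff_const.add (contDiff_step.smul contDiff_const),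
    fun t => hb ?_, fun t ht => ?_, fun t ht => ?_⟩
  · rw [Metric.mem_ball, dist_eq_norm] at hy ⊢
    rw [add_sub_cancel_left, norm_smul, Real.norm_eq_abs, abs_of_nonneg (step_mem t).1]
    calc step t * ‖y - x‖ ≤ 1 * ‖y - x‖ :=
          mul_le_mul_of_nonneg_right (step_mem t).2 (norm_nonneg _)
      _ < ε := by rw [one_mul]; exact hy
  · dsimp only
    rw [step_of_nonpos ht, zero_smul, add_zero]
  · dsimp only
    rw [step_of_one_le ht, one_smul, add_sub_cancel]

/-- step (2): the half path at the left end -/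
theorem half {U : Set R4} {a₀ η : ℝ} {c : ℝ → R4} (hη : 0 < η) (hc : ContDiff ℝ ∞ c)
    (h : ∀ a ∈ Icc a₀ (a₀ + η), c a ∈ U) :
    ∃ (f : ℝ → R4) (p : R4), ContDiff ℝ ∞ f ∧ p ∈ U ∧ (∀ a, a ≤ a₀ + η / 2 → f a = c a) ∧
      (∀ a, a₀ + 7 * η / 8 ≤ a → f a = p) ∧ ∀ a, a₀ ≤ a → f a ∈ U := by
  have hk : ContDiff ℝ ∞ (fun a : ℝ =>
      a + (a₀ + 5 * η / 8 - a) * step (8 * (a - a₀ - η / 2) / (3 * η))) := by
    refine contDiff_id.add ((contDiff_const.sub contDiff_id).mul (contDiff_step.comp ?_))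
    exact (contDiff_const.mul ((contDiff_id.sub contDiff_const).sub contDiff_const)).div_const _
  have e1 : ∀ a, a ≤ a₀ + η / 2 → step (8 * (a - a₀ - η / 2) / (3 * η)) = 0 := fun a ha =>
    step_of_nonpos (div_nonpos_of_nonpos_of_nonneg (by linarith) (by linarith))
  have e2 : ∀ a, a₀ + 7 * η / 8 ≤ a → step (8 * (a - a₀ - η / 2) / (3 * η)) = 1 := fun a ha =>
    step_of_one_le ((one_le_div (by linarith)).2 (by linarith))
  have hp : a₀ + 5 * η / 8 ∈ Icc a₀ (a₀ + η) := ⟨by linarith, by linarith⟩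
  have e3 : ∀ a, a₀ + 7 * η / 8 ≤ a →
      a + (a₀ + 5 * η / 8 - a) * step (8 * (a - a₀ - η / 2) / (3 * η)) = a₀ + 5 * η / 8 :=
    fun a ha => by rw [e2 a ha]; ring
  refine ⟨_, c (a₀ + 5 * η / 8), hc.comp hk, h _ hp, fun a ha => ?_, fun a ha => ?_,
    fun a ha => h _ ?_⟩
  · simp only [Function.comp_apply]
    rw [e1 a ha, mul_zero, add_zero]
  · simp only [Function.comp_apply]
    rw [e3 a ha]
  · dsimp only
    rcases le_or_gt a (a₀ + 7 * η / 8) with h7 | h7
    · have h0 := (step_mem (8 * (a - a₀ - η / 2) / (3 * η))).1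
      have h1 := (step_mem (8 * (a - a₀ - η / 2) / (3 * η))).2
      generalize step (8 * (a - a₀ - η / 2) / (3 * η)) = s at h0 h1
      constructor <;> nlinarith
    · rw [e3 a h7.le]; exact hp

end PATH

open PATH in
theorem m_PATH : StPATH := by
  intro U a₀ a₁ η c₀ c₁ hU hU' hη ha hc₀ hc₁ h₀ h₁
  obtain ⟨f, p, hf, hp, f1, f2, f3⟩ := half hη hc₀ h₀
  obtain ⟨g, q, hg, hq, g1, g2, g3⟩ := half (a₀ := -a₁) (c := fun a => c₁ (-a)) hη
    (hc₁.comp contDiff_neg) (fun a ha => h₁ _ ⟨by linarith [ha.2], by linarith [ha.1]⟩)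
  obtain ⟨m, hm, m1, m2, m3⟩ := conn_of_isPreconnected hU hU' hp hq
  have hL : 0 < a₁ - a₀ - 2 * η := by linarith
  have k1 : ∀ a, a ≤ a₀ + η → m ((a - (a₀ + η)) / (a₁ - a₀ - 2 * η)) = p := fun a ha =>
    m2 _ (div_nonpos_of_nonpos_of_nonneg (by linarith) hL.le)
  have k2 : ∀ a, a₁ - η ≤ a → m ((a - (a₀ + η)) / (a₁ - a₀ - 2 * η)) = q := fun a ha =>
    m3 _ ((one_le_div hL).2 (by linarith))
  have s1 : ContDiff ℝ ∞ (fun a => if a < a₁ - 15 * η / 16 then
      m ((a - (a₀ + η)) / (a₁ - a₀ - 2 * η)) else g (-a)) := by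
    refine glue (ε := η / 16) (by linarith)
      (hm.comp ((contDiff_id.sub contDiff_const).div_const _)) (hg.comp contDiff_neg) ?_
    intro t ht
    rw [abs_lt] at ht
    rw [k2 t (by linarith [ht.1]), g2 (-t) (by linarith [ht.2])]
  have s2 := glue (c := a₀ + 15 * η / 16) (ε := η / 16) (by linarith) hf s1 (by
    intro t ht
    rw [abs_lt] at ht
    rw [if_pos (by linarith [ht.2]), k1 t (by linarith [ht.2]), f2 t (by linarith [ht.1])])
  refine ⟨_, s2, fun a h => ?_, fun a h => ?_, fun a h => ?_⟩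
  · rw [if_pos (by linarith), f1 a h]
  · rw [if_neg (by linarith), if_neg (by linarith), g1 (-a) (by linarith), neg_neg]
  · split_ifs with h2 h3
    · exact f3 a h.1
    · exact m1 _
    · exact g3 (-a) (by linarith [h.2])

end Pool.Agent.Helper70.BI


end

/-! ## Helper70.BI.M_RM -/

section

/-!
# Project BI, module E-RM: increasing functions with prescribed germs
-/

set_option autoImplicit false

open scoped Manifold ContDiff Topology ComplexConjugate
open Set Filter Pool.Agent.Helper65.Barb Pool.Agent.Helper18.BI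

namespace Pool.Agent.Helper70.BI

namespace RM

/-- cutting off a germ -/
theorem contDiff_cut {p ε : ℝ} {g : ℝ → ℝ} (b : ContDiffBump p)
    (hb : b.rOut < ε) (hg : ∀ a ∈ Metric.ball p ε, ContDiffAt ℝ ∞ g a) :
    ContDiff ℝ ∞ (fun a => b a * g a) := by
  rw [contDiff_iff_contDiffAt]
  intro a
  by_cases ha : a ∈ Metric.ball p ε
  · exact b.contDiffAt.mul (hg a ha)
  · have h1 : b.rOut < dist a p := lt_of_lt_of_le hb (by simpa [Metric.mem_ball] using ha)
    have h2 : ∀ᶠ z in 𝓝 a, b.rOut < dist z p := by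
      have : ContinuousAt (fun z : ℝ => dist z p) a := by fun_prop
      exact this.eventually (lt_mem_nhds h1)
    have h3 : (fun z => b z * g z) =ᶠ[𝓝 a] fun _ => 0 := by
      filter_upwards [h2] with z hz
      rw [b.zero_of_le_dist hz.le, zero_mul]
    exact contDiffAt_const.congr_of_eventuallyEq h3

theorem cut_nonneg {p ε : ℝ} {g : ℝ → ℝ} (b : ContDiffBump p)
    (hb : b.rOut < ε) (hg : ∀ a ∈ Metric.ball p ε, 0 < g a) (a : ℝ) : 0 ≤ b a * g a := by
  by_cases ha : a ∈ Metric.ball p ε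
  · exact mul_nonneg b.nonneg (hg a ha).le
  · have h1 : b.rOut < dist a p := lt_of_lt_of_le hb (by simpa [Metric.mem_ball] using ha)
    rw [b.zero_of_le_dist h1.le, zero_mul]

theorem cut_le {p ε C : ℝ} {g : ℝ → ℝ} (b : ContDiffBump p)
    (hb : b.rOut < ε) (hg : ∀ a ∈ Metric.ball p ε, 0 < g a ∧ g a ≤ C) (a : ℝ) (hC : 0 ≤ C) :
    b a * g a ≤ C := by
  by_cases ha : a ∈ Metric.ball p ε
  · calc b a * g a ≤ 1 * g a := mul_le_mul_of_nonneg_right b.le_one (hg a ha).1.le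
      _ ≤ C := by rw [one_mul]; exact (hg a ha).2
  · have h1 : b.rOut < dist a p := lt_of_lt_of_le hb (by simpa [Metric.mem_ball] using ha)
    rw [b.zero_of_le_dist h1.le, zero_mul]; exact hC

theorem seg {p q c : ℝ} (hpq : p < q) (hc : 0 < c) {g h : ℝ → ℝ}
    (hg : ∀ᶠ a in 𝓝 p, ContDiffAt ℝ ∞ g a) (hh : ∀ᶠ a in 𝓝 q, ContDiffAt ℝ ∞ h a)
    (g0 : 0 < g p) (h0 : 0 < h q) :
    ∃ D : ℝ → ℝ, ContDiff ℝ ∞ D ∧ (∀ a ∈ Icc p q, 0 < D a) ∧ D =ᶠ[𝓝 p] g ∧ D =ᶠ[𝓝 q] h ∧
      ∫ a in p..q, D a = c := by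
  set C : ℝ := max (g p) (h q) + 1 with hCdef
  have hCp : g p < C := by rw [hCdef]; linarith [le_max_left (g p) (h q)]
  have hCq : h q < C := by rw [hCdef]; linarith [le_max_right (g p) (h q)]
  have hC0 : 0 < C := g0.trans hCp
  have e1 : ∀ᶠ a in 𝓝 p, ContDiffAt ℝ ∞ g a ∧ 0 < g a ∧ g a ≤ C := by
    have hcg : ContinuousAt g p := hg.self_of_nhds.continuousAt
    filter_upwards [hg, hcg.eventually (lt_mem_nhds g0), hcg.eventually (gt_mem_nhds hCp)]
      with a h1 h2 h3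
    exact ⟨h1, h2, h3.le⟩
  have e2 : ∀ᶠ a in 𝓝 q, ContDiffAt ℝ ∞ h a ∧ 0 < h a ∧ h a ≤ C := by
    have hcg : ContinuousAt h q := hh.self_of_nhds.continuousAt
    filter_upwards [hh, hcg.eventually (lt_mem_nhds h0), hcg.eventually (gt_mem_nhds hCq)]
      with a h1 h2 h3
    exact ⟨h1, h2, h3.le⟩
  obtain ⟨ε₁, hε₁, k1⟩ := Metric.eventually_nhds_iff_ball.1 e1
  obtain ⟨ε₂, hε₂, k2⟩ := Metric.eventually_nhds_iff_ball.1 e2
  obtain ⟨r, hr, r1, r2, r3, r4⟩ : ∃ r : ℝ, 0 < r ∧ 2 * r < ε₁ ∧ 2 * r < ε₂ ∧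
      8 * r ≤ q - p ∧ 4 * r * C < c := by
    refine ⟨min (min (ε₁ / 3) (ε₂ / 3)) (min ((q - p) / 8) (c / (8 * C))), ?_, ?_, ?_, ?_, ?_⟩
    · have : 0 < q - p := by linarith
      positivity
    · have := min_le_left (min (ε₁ / 3) (ε₂ / 3)) (min ((q - p) / 8) (c / (8 * C)))
      have := min_le_left (ε₁ / 3) (ε₂ / 3)
      linarith
    · have := min_le_left (min (ε₁ / 3) (ε₂ / 3)) (min ((q - p) / 8) (c / (8 * C)))
      have := min_le_right (ε₁ / 3) (ε₂ / 3)
      linarith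
    · have := min_le_right (min (ε₁ / 3) (ε₂ / 3)) (min ((q - p) / 8) (c / (8 * C)))
      have := min_le_left ((q - p) / 8) (c / (8 * C))
      linarith
    · have k3 := min_le_right (min (ε₁ / 3) (ε₂ / 3)) (min ((q - p) / 8) (c / (8 * C)))
      have k4 := min_le_right ((q - p) / 8) (c / (8 * C))
      have k5 := k3.trans k4
      have : 4 * min (min (ε₁ / 3) (ε₂ / 3)) (min ((q - p) / 8) (c / (8 * C))) * C ≤
          4 * (c / (8 * C)) * C := by gcongr
      have k6 : 4 * (c / (8 * C)) * C = c / 2 := by field_simp; ring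
      linarith
  let bp : ContDiffBump p := ⟨r, 2 * r, hr, by linarith⟩
  let bq : ContDiffBump q := ⟨r, 2 * r, hr, by linarith⟩
  let bm : ContDiffBump ((p + q) / 2) :=
    ⟨((q - p) / 2 - r) / 2, (q - p) / 2 - r, by linarith, by linarith⟩
  have sg : ContDiff ℝ ∞ (fun a => bp a * g a) :=
    contDiff_cut bp (ε := ε₁) r1 fun a ha => (k1 a ha).1
  have sh : ContDiff ℝ ∞ (fun a => bq a * h a) :=
    contDiff_cut bq (ε := ε₂) r2 fun a ha => (k2 a ha).1
  have sm : ContDiff ℝ ∞ (fun a => bm a) := bm.contDiff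
  have ng : ∀ a, 0 ≤ bp a * g a := cut_nonneg bp (ε := ε₁) r1 fun a ha => (k1 a ha).2.1
  have nh : ∀ a, 0 ≤ bq a * h a := cut_nonneg bq (ε := ε₂) r2 fun a ha => (k2 a ha).2.1
  have lg : ∀ a, bp a * g a ≤ C := fun a => cut_le bp (ε := ε₁) r1 (fun a ha => (k1 a ha).2) a hC0.le
  have lh : ∀ a, bq a * h a ≤ C := fun a => cut_le bq (ε := ε₂) r2 (fun a ha => (k2 a ha).2) a hC0.le
  have ii : ∀ {f : ℝ → ℝ} (u v : ℝ), ContDiff ℝ ∞ f →
      IntervalIntegrable f MeasureTheory.volume u v := fun u v hf => hf.continuous.intervalIntegrable u v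
  -- integrals
  have Ig : ∫ a in p..q, bp a * g a ≤ 2 * r * C := by
    rw [← intervalIntegral.integral_add_adjacent_intervals (ii p (p + 2 * r) sg) (ii (p + 2 * r) q sg)]
    have z : ∫ a in (p + 2 * r)..q, bp a * g a = 0 := by
      rw [intervalIntegral.integral_congr (g := fun _ => (0 : ℝ))]
      · simp
      · intro a ha
        rw [uIcc_of_le (by linarith)] at ha
        have : bp a = 0 := bp.zero_of_le_dist (by
          change 2 * r ≤ dist a p
          rw [Real.dist_eq, abs_of_nonneg (by linarith [ha.1])]; linarith [ha.1])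
        simp [this]
    rw [z, add_zero]
    have := intervalIntegral.integral_mono_on (a := p) (b := p + 2 * r) (by linarith)
      (ii p (p + 2 * r) sg) (intervalIntegrable_const (c := C)) fun a _ => lg a
    refine this.trans ?_
    rw [intervalIntegral.integral_const, smul_eq_mul]; linarith
  have Ih : ∫ a in p..q, bq a * h a ≤ 2 * r * C := by
    rw [← intervalIntegral.integral_add_adjacent_intervals (ii p (q - 2 * r) sh) (ii (q - 2 * r) q sh)]
    have z : ∫ a in p..(q - 2 * r), bq a * h a = 0 := by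
      rw [intervalIntegral.integral_congr (g := fun _ => (0 : ℝ))]
      · simp
      · intro a ha
        rw [uIcc_of_le (by linarith)] at ha
        have : bq a = 0 := bq.zero_of_le_dist (by
          change 2 * r ≤ dist a q
          rw [Real.dist_eq, abs_of_nonpos (by linarith [ha.2])]; linarith [ha.2])
        simp [this]
    rw [z, zero_add]
    have := intervalIntegral.integral_mono_on (a := q - 2 * r) (b := q) (by linarith)
      (ii (q - 2 * r) q sh) (intervalIntegrable_const (c := C)) fun a _ => lh a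
    refine this.trans ?_
    rw [intervalIntegral.integral_const, smul_eq_mul]; linarith
  set J : ℝ := ∫ a in p..q, bm a with hJ
  have J0 : 0 < J := by
    refine intervalIntegral.integral_pos hpq sm.continuous.continuousOn (fun a _ => bm.nonneg)
      ⟨(p + q) / 2, ⟨by linarith, by linarith⟩, ?_⟩
    exact bm.pos_of_mem_ball (Metric.mem_ball_self bm.rOut_pos)
  set I : ℝ := (∫ a in p..q, bp a * g a) + ∫ a in p..q, bq a * h a with hI
  have hk : 0 < (c - I) / J := div_pos (by linarith) J0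
  set κ : ℝ := (c - I) / J with hκ
  -- values near the ends
  have vm : ∀ a, a ≤ p + r ∨ q - r ≤ a → bm a = 0 := by
    intro a ha
    refine bm.zero_of_le_dist ?_
    change (q - p) / 2 - r ≤ dist a ((p + q) / 2)
    rw [Real.dist_eq]
    rcases ha with ha | ha
    · rw [abs_of_nonpos (by linarith)]; linarith
    · rw [abs_of_nonneg (by linarith)]; linarith
  have vp : ∀ a ∈ Metric.ball p r, bp a = 1 := fun a ha =>
    bp.one_of_mem_closedBall (Metric.ball_subset_closedBall ha)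
  have vq : ∀ a ∈ Metric.ball q r, bq a = 1 := fun a ha =>
    bq.one_of_mem_closedBall (Metric.ball_subset_closedBall ha)
  refine ⟨fun a => bp a * g a + bq a * h a + κ * bm a, (sg.add sh).add (contDiff_const.mul sm),
    ?_, ?_, ?_, ?_⟩
  · intro a ha
    by_cases h1 : 0 < bm a
    · have := mul_pos hk h1
      have := ng a
      have := nh a
      change 0 < bp a * g a + bq a * h a + κ * bm a
      linarith
    · have h2 : (q - p) / 2 - r ≤ dist a ((p + q) / 2) := by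
        by_contra h3
        exact h1 (bm.pos_of_mem_ball (not_le.1 h3))
      have h3 : 0 ≤ κ * bm a := mul_nonneg hk.le bm.nonneg
      rw [Real.dist_eq] at h2
      change 0 < bp a * g a + bq a * h a + κ * bm a
      rcases le_total a ((p + q) / 2) with h4 | h4
      · rw [abs_of_nonpos (by linarith)] at h2
        have h5 : bp a = 1 := bp.one_of_mem_closedBall (by
          rw [Metric.mem_closedBall, Real.dist_eq, abs_of_nonneg (by linarith [ha.1])]
          change a - p ≤ r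
          linarith)
        have h6 : 0 < g a := (k1 a (by
          rw [Metric.mem_ball, Real.dist_eq, abs_of_nonneg (by linarith [ha.1])]
          linarith)).2.1
        have := nh a
        rw [h5, one_mul]; linarith
      · rw [abs_of_nonneg (by linarith)] at h2
        have h5 : bq a = 1 := bq.one_of_mem_closedBall (by
          rw [Metric.mem_closedBall, Real.dist_eq, abs_of_nonpos (by linarith [ha.2])]
          change -(a - q) ≤ r
          linarith)
        have h6 : 0 < h a := (k2 a (by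
          rw [Metric.mem_ball, Real.dist_eq, abs_of_nonpos (by linarith [ha.2])]
          linarith)).2.1
        have := ng a
        rw [h5, one_mul]; linarith
  · filter_upwards [Metric.ball_mem_nhds p hr] with a ha
    have ha' := ha
    rw [Metric.mem_ball, Real.dist_eq, abs_lt] at ha'
    rw [vp a ha, vm a (Or.inl (by linarith)), bq.zero_of_le_dist (by
      change 2 * r ≤ dist a q
      rw [Real.dist_eq, abs_of_nonpos (by linarith)]; linarith)]
    ring
  · filter_upwards [Metric.ball_mem_nhds q hr] with a ha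
    have ha' := ha
    rw [Metric.mem_ball, Real.dist_eq, abs_lt] at ha'
    rw [vq a ha, vm a (Or.inr (by linarith)), bp.zero_of_le_dist (by
      change 2 * r ≤ dist a p
      rw [Real.dist_eq, abs_of_nonneg (by linarith)]; linarith)]
    ring
  · rw [intervalIntegral.integral_add (ii p q (sg.add sh)) (ii p q (contDiff_const.mul sm)),
      intervalIntegral.integral_add (ii p q sg) (ii p q sh),
      intervalIntegral.integral_const_mul, ← hI, ← hJ, hκ]
    field_simp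
    ring

/-- gluing -/
noncomputable def gl (q : ℝ) (D E : ℝ → ℝ) (a : ℝ) : ℝ := if a < q then D a else E a

theorem gl_le {q : ℝ} {D E : ℝ → ℝ} (h : D =ᶠ[𝓝 q] E) {a : ℝ} (ha : a ≤ q) : gl q D E a = D a := by
  unfold gl
  split_ifs with h1
  · rfl
  · have : a = q := le_antisymm ha (not_lt.1 h1)
    rw [this]; exact h.self_of_nhds.symm

theorem gl_ge {q : ℝ} {D E : ℝ → ℝ} {a : ℝ} (ha : q ≤ a) : gl q D E a = E a :=
  if_neg (not_lt.2 ha)

theorem gl_eq_left {q : ℝ} {D E : ℝ → ℝ} {a : ℝ} (ha : a < q) : gl q D E =ᶠ[𝓝 a] D := by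
  filter_upwards [Iio_mem_nhds ha] with z hz
  exact if_pos hz

theorem gl_eq_right {q : ℝ} {D E : ℝ → ℝ} {a : ℝ} (ha : q < a) : gl q D E =ᶠ[𝓝 a] E := by
  filter_upwards [Ioi_mem_nhds ha] with z hz
  exact if_neg (not_lt.2 (le_of_lt hz))

theorem gl_eq_mid {q : ℝ} {D E : ℝ → ℝ} (h : D =ᶠ[𝓝 q] E) : gl q D E =ᶠ[𝓝 q] D := by
  filter_upwards [h] with z hz
  unfold gl
  split_ifs
  · rfl
  · exact hz.symm

theorem gl_contDiff {q : ℝ} {D E : ℝ → ℝ} (h : D =ᶠ[𝓝 q] E) (hD : ContDiff ℝ ∞ D)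
    (hE : ContDiff ℝ ∞ E) : ContDiff ℝ ∞ (gl q D E) := by
  rw [contDiff_iff_contDiffAt]
  intro a
  rcases lt_trichotomy a q with h1 | h1 | h1
  · exact hD.contDiffAt.congr_of_eventuallyEq (gl_eq_left h1)
  · rw [h1]; exact hD.contDiffAt.congr_of_eventuallyEq (gl_eq_mid h)
  · exact hE.contDiffAt.congr_of_eventuallyEq (gl_eq_right h1)

theorem cd {μ : ℝ → ℝ} {a : ℝ} (h : ContDiffAt ℝ ∞ μ a) : ContDiffAt ℝ ∞ (deriv μ) a := by
  have h1 : ContDiffAt ℝ ∞ (fderiv ℝ μ) a := h.fderiv_right (by simp)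
  have h2 : ContDiffAt ℝ ∞ (fun z => fderiv ℝ μ z 1) a := h1.clm_apply contDiffAt_const
  exact h2

/-- two functions with the same derivative near a point -/
theorem germ {m E μ : ℝ → ℝ} {x : ℝ} (dm : ∀ a, HasDerivAt m (E a) a) (h : E =ᶠ[𝓝 x] deriv μ)
    (s : ∀ᶠ a in 𝓝 x, ContDiffAt ℝ ∞ μ a) (hx : m x = μ x) : ∀ᶠ a in 𝓝 x, m a = μ a := by
  obtain ⟨ε, hε, h1⟩ := Metric.eventually_nhds_iff_ball.1 (h.and s)
  filter_upwards [Metric.ball_mem_nhds x hε] with a ha
  refine Metric.isOpen_ball.eqOn_of_deriv_eq (convex_ball x ε).isPreconnected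
    (fun z _ => (dm z).differentiableAt.differentiableWithinAt)
    (fun z hz => ((h1 z hz).2.differentiableAt (by simp)).differentiableWithinAt)
    (fun z hz => ?_) (Metric.mem_ball_self hε) hx ha
  rw [(dm z).deriv]; exact (h1 z hz).1

theorem two {a₀ b₀ x₁ x₂ y₁ y₂ : ℝ} {μ₁ μ₂ : ℝ → ℝ} (h1 : a₀ < x₁) (h2 : x₁ < x₂) (h3 : x₂ < b₀)
    (h4 : a₀ < y₁) (h5 : y₁ < y₂) (h6 : y₂ < b₀) (s1 : ∀ᶠ a in 𝓝 x₁, ContDiffAt ℝ ∞ μ₁ a)
    (s2 : ∀ᶠ a in 𝓝 x₂, ContDiffAt ℝ ∞ μ₂ a) (v1 : μ₁ x₁ = y₁) (v2 : μ₂ x₂ = y₂)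
    (d1 : 0 < deriv μ₁ x₁) (d2 : 0 < deriv μ₂ x₂) :
    ∃ m : ℝ → ℝ, ContDiff ℝ ∞ m ∧ (∀ a, 0 < deriv m a) ∧ (∀ᶠ a in 𝓝 x₁, m a = μ₁ a) ∧
      (∀ᶠ a in 𝓝 x₂, m a = μ₂ a) ∧
      ∃ η : ℝ, 0 < η ∧ ∀ a, (a ≤ a₀ + η ∨ b₀ - η ≤ a) → m a = a := by
  obtain ⟨η, e0, e1, e2, e3, e4⟩ : ∃ η : ℝ, 0 < η ∧ a₀ + η < x₁ ∧ a₀ + η < y₁ ∧
      x₂ < b₀ - η ∧ y₂ < b₀ - η := by
    refine ⟨min (min (x₁ - a₀) (y₁ - a₀)) (min (b₀ - x₂) (b₀ - y₂)) / 2, ?_, ?_, ?_, ?_, ?_⟩
    · have : 0 < x₁ - a₀ := by linarith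
      have : 0 < y₁ - a₀ := by linarith
      have : 0 < b₀ - x₂ := by linarith
      have : 0 < b₀ - y₂ := by linarith
      positivity
    all_goals
      have := min_le_left (min (x₁ - a₀) (y₁ - a₀)) (min (b₀ - x₂) (b₀ - y₂))
      have := min_le_right (min (x₁ - a₀) (y₁ - a₀)) (min (b₀ - x₂) (b₀ - y₂))
      have := min_le_left (x₁ - a₀) (y₁ - a₀)
      have := min_le_right (x₁ - a₀) (y₁ - a₀)
      have := min_le_left (b₀ - x₂) (b₀ - y₂)
      have := min_le_right (b₀ - x₂) (b₀ - y₂)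
      linarith
  have c1 : ∀ᶠ a in 𝓝 x₁, ContDiffAt ℝ ∞ (deriv μ₁) a := s1.mono fun a ha => cd ha
  have c2 : ∀ᶠ a in 𝓝 x₂, ContDiffAt ℝ ∞ (deriv μ₂) a := s2.mono fun a ha => cd ha
  have one : ∀ z : ℝ, ∀ᶠ a in 𝓝 z, ContDiffAt ℝ ∞ (fun _ : ℝ => (1 : ℝ)) a := fun z =>
    Eventually.of_forall fun _ => contDiffAt_const
  obtain ⟨D₁, sD1, pD1, l1, r1, i1⟩ := seg (p := a₀ + η) (q := x₁) (c := y₁ - (a₀ + η)) e1
    (by linarith) (one _) c1 one_pos d1
  obtain ⟨D₂, sD2, pD2, l2, r2, i2⟩ := seg (p := x₁) (q := x₂) (c := y₂ - y₁) h2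
    (by linarith) c1 c2 d1 d2
  obtain ⟨D₃, sD3, pD3, l3, r3, i3⟩ := seg (p := x₂) (q := b₀ - η) (c := b₀ - η - y₂) e3
    (by linarith) c2 (one _) d2 one_pos
  -- the density
  set U : ℝ → ℝ := fun _ => 1 with hU
  set E₄ := gl (b₀ - η) D₃ U with hE4
  set E₃ := gl x₂ D₂ E₄ with hE3
  set E₂ := gl x₁ D₁ E₃ with hE2
  set E := gl (a₀ + η) U E₂ with hE
  have m4 : D₃ =ᶠ[𝓝 (b₀ - η)] U := r3
  have q4 : E₄ =ᶠ[𝓝 x₂] D₃ := gl_eq_left e3
  have m3 : D₂ =ᶠ[𝓝 x₂] E₄ := r2.trans (l3.symm.trans q4.symm)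
  have q3 : E₃ =ᶠ[𝓝 x₁] D₂ := gl_eq_left h2
  have m2 : D₁ =ᶠ[𝓝 x₁] E₃ := r1.trans (l2.symm.trans q3.symm)
  have q2 : E₂ =ᶠ[𝓝 (a₀ + η)] D₁ := gl_eq_left e1
  have m1 : U =ᶠ[𝓝 (a₀ + η)] E₂ := l1.symm.trans q2.symm
  have sU : ContDiff ℝ ∞ U := contDiff_const
  have sE : ContDiff ℝ ∞ E :=
    gl_contDiff m1 sU (gl_contDiff m2 sD1 (gl_contDiff m3 sD2 (gl_contDiff m4 sD3 sU)))
  have w0 : ∀ a, a ≤ a₀ + η → E a = 1 := fun a ha => gl_le m1 ha
  have w1 : ∀ a ∈ Icc (a₀ + η) x₁, E a = D₁ a := fun a ha => by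
    rw [hE, gl_ge ha.1, hE2, gl_le m2 ha.2]
  have w2 : ∀ a ∈ Icc x₁ x₂, E a = D₂ a := fun a ha => by
    rw [hE, gl_ge (by linarith [ha.1]), hE2, gl_ge ha.1, hE3, gl_le m3 ha.2]
  have w3 : ∀ a ∈ Icc x₂ (b₀ - η), E a = D₃ a := fun a ha => by
    rw [hE, gl_ge (by linarith [ha.1]), hE2, gl_ge (by linarith [ha.1]), hE3, gl_ge ha.1, hE4,
      gl_le m4 ha.2]
  have w4 : ∀ a, b₀ - η ≤ a → E a = 1 := fun a ha => by
    rw [hE, gl_ge (by linarith), hE2, gl_ge (by linarith), hE3, gl_ge (by linarith), hE4, gl_ge ha]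
  have pE : ∀ a, 0 < E a := by
    intro a
    rcases le_total a (a₀ + η) with t1 | t1
    · rw [w0 a t1]; exact one_pos
    rcases le_total a x₁ with t2 | t2
    · rw [w1 a ⟨t1, t2⟩]; exact pD1 a ⟨t1, t2⟩
    rcases le_total a x₂ with t3 | t3
    · rw [w2 a ⟨t2, t3⟩]; exact pD2 a ⟨t2, t3⟩
    rcases le_total a (b₀ - η) with t4 | t4
    · rw [w3 a ⟨t3, t4⟩]; exact pD3 a ⟨t3, t4⟩
    · rw [w4 a t4]; exact one_pos
  have g1 : E =ᶠ[𝓝 x₁] deriv μ₁ :=
    (gl_eq_right e1).trans ((gl_eq_mid m2).trans r1)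
  have g2 : E =ᶠ[𝓝 x₂] deriv μ₂ := by
    refine (gl_eq_right (by linarith)).trans ((gl_eq_right h2).trans ((gl_eq_mid m3).trans r2))
  have ii : ∀ u v : ℝ, IntervalIntegrable E MeasureTheory.volume u v := fun u v =>
    sE.continuous.intervalIntegrable u v
  set m : ℝ → ℝ := fun a => a₀ + η + ∫ t in (a₀ + η)..a, E t with hm
  have dm : ∀ a, HasDerivAt m (E a) a := fun a => by
    have := (sE.continuous.integral_hasStrictDerivAt (a₀ + η) a).hasDerivAt
    exact this.const_add (a₀ + η)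
  have dm' : deriv m = E := funext fun a => (dm a).deriv
  have J1 : ∫ t in (a₀ + η)..x₁, E t = y₁ - (a₀ + η) := by
    rw [← i1]
    refine intervalIntegral.integral_congr fun a ha => ?_
    rw [uIcc_of_le e1.le] at ha; exact w1 a ha
  have J2 : ∫ t in x₁..x₂, E t = y₂ - y₁ := by
    rw [← i2]
    refine intervalIntegral.integral_congr fun a ha => ?_
    rw [uIcc_of_le h2.le] at ha; exact w2 a ha
  have J3 : ∫ t in x₂..(b₀ - η), E t = b₀ - η - y₂ := by
    rw [← i3]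
    refine intervalIntegral.integral_congr fun a ha => ?_
    rw [uIcc_of_le e3.le] at ha; exact w3 a ha
  have M1 : m x₁ = y₁ := by rw [hm]; simp only [J1]; ring
  have M2 : m x₂ = y₂ := by
    rw [hm]; simp only
    rw [← intervalIntegral.integral_add_adjacent_intervals (ii _ x₁) (ii _ _), J1, J2]; ring
  have M3 : m (b₀ - η) = b₀ - η := by
    rw [hm]; simp only
    rw [← intervalIntegral.integral_add_adjacent_intervals (ii _ x₁) (ii _ _),
      ← intervalIntegral.integral_add_adjacent_intervals (ii x₁ x₂) (ii _ _), J1, J2, J3]; ring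
  refine ⟨m, ?_, fun a => ?_, germ dm g1 s1 (M1.trans v1.symm), germ dm g2 s2 (M2.trans v2.symm),
    η, e0, fun a ha => ?_⟩
  · rw [contDiff_infty_iff_deriv]
    exact ⟨fun a => (dm a).differentiableAt, by rw [dm']; exact sE⟩
  · rw [dm']; exact pE a
  · rcases ha with ha | ha
    · have : ∫ t in (a₀ + η)..a, E t = ∫ t in (a₀ + η)..a, (1 : ℝ) := by
        refine intervalIntegral.integral_congr fun t ht => ?_
        rw [uIcc_of_ge ha] at ht
        exact w0 t ht.2
      rw [hm]; simp only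
      rw [this, intervalIntegral.integral_const, smul_eq_mul]; ring
    · have h7 : m a = m (b₀ - η) + ∫ t in (b₀ - η)..a, E t := by
        rw [hm]; simp only
        rw [← intervalIntegral.integral_add_adjacent_intervals (ii _ (b₀ - η)) (ii _ a)]; ring
      have : ∫ t in (b₀ - η)..a, E t = ∫ t in (b₀ - η)..a, (1 : ℝ) := by
        refine intervalIntegral.integral_congr fun t ht => ?_
        rw [uIcc_of_le ha] at ht
        exact w4 t ht.1
      rw [h7, this, intervalIntegral.integral_const, smul_eq_mul, M3]; ring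

end RM

theorem m_RM : StRM := by
  refine ⟨fun a₀ b₀ x y μ h1 h2 h3 h4 h5 h6 h7 => ?_,
    fun x₁ x₂ y₁ y₂ μ₁ μ₂ h1 h2 h3 h4 h5 h6 s1 s2 v1 v2 d1 d2 => ?_⟩
  · -- a second dummy point
    have k1 : x < (x + b₀) / 2 := by linarith
    have k2 : (x + b₀) / 2 < b₀ := by linarith
    have k3 : y < (y + b₀) / 2 := by linarith
    have k4 : (y + b₀) / 2 < b₀ := by linarith
    obtain ⟨m, a1, a2, a3, -, a5⟩ := RM.two (μ₁ := μ)
      (μ₂ := fun a => a + ((y + b₀) / 2 - (x + b₀) / 2)) h1 k1 k2 h3 k3 k4 h5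
      (Eventually.of_forall fun a => by fun_prop) h6 (by ring) h7
      (by rw [deriv_add_const, deriv_id'']; exact one_pos)
    exact ⟨m, a1, a2, a3, a5⟩
  · obtain ⟨m, a1, a2, a3, a4, a5⟩ := RM.two h1 h2 h3 h4 h5 h6 s1 s2 v1 v2 d1 d2
    exact ⟨m, ⟨a1, a2, a5⟩, a3, a4⟩

end Pool.Agent.Helper70.BI


end

/-! ## Helper70.BI.M_RG -/

section

/-!
# Project BI, module E-RG: reparametrization of the bar
-/

set_option autoImplicit false

open scoped Manifold ContDiff Topology ComplexConjugate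
open Set Filter Pool.Agent.Helper65.Barb Pool.Agent.Helper18.BI

namespace Pool.Agent.Helper70.BI

namespace RG

theorem contDiff_repm {m : ℝ → ℝ} (h : ContDiff ℝ ∞ m) : ContDiff ℝ ∞ (repm m) := by
  unfold repm; fun_prop

theorem fderiv_inj {m : ℝ → ℝ} (h : RepOK m) (p : R4) :
    Function.Injective (fderiv ℝ (repm m) p) := by
  obtain ⟨h1, h2, -⟩ := h
  have dm : HasDerivAt m (deriv m p.2.1) p.2.1 := (h1.differentiable (by simp) _).hasDerivAt
  have f2 : HasFDerivAt (fun q : R4 => q.2.1)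
      ((ContinuousLinearMap.fst ℝ ℝ ℂ).comp (ContinuousLinearMap.snd ℝ ℝ (ℝ × ℂ))) p :=
    ((ContinuousLinearMap.fst ℝ ℝ ℂ).comp (ContinuousLinearMap.snd ℝ ℝ (ℝ × ℂ))).hasFDerivAt
  have f3 : HasFDerivAt (fun q : R4 => q.2.2)
      ((ContinuousLinearMap.snd ℝ ℝ ℂ).comp (ContinuousLinearMap.snd ℝ ℝ (ℝ × ℂ))) p :=
    ((ContinuousLinearMap.snd ℝ ℝ ℂ).comp (ContinuousLinearMap.snd ℝ ℝ (ℝ × ℂ))).hasFDerivAt
  have f1 : HasFDerivAt (fun q : R4 => q.1) (ContinuousLinearMap.fst ℝ ℝ (ℝ × ℂ)) p :=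
    (ContinuousLinearMap.fst ℝ ℝ (ℝ × ℂ)).hasFDerivAt
  have f4 : HasFDerivAt (fun q : R4 => m q.2.1) (deriv m p.2.1 •
      ((ContinuousLinearMap.fst ℝ ℝ ℂ).comp (ContinuousLinearMap.snd ℝ ℝ (ℝ × ℂ)))) p :=
    dm.comp_hasFDerivAt p f2
  have f5 := f1.prodMk (f4.prodMk f3)
  have f6 : fderiv ℝ (repm m) p = _ := f5.fderiv
  rw [f6, injective_iff_map_eq_zero]
  intro v hv
  obtain ⟨a, b, c⟩ := v
  simp only [ContinuousLinearMap.prod_apply, ContinuousLinearMap.coe_fst',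
    _root_.smul_apply, ContinuousLinearMap.comp_apply, ContinuousLinearMap.coe_snd',
    smul_eq_mul, Prod.mk_eq_zero, mul_eq_zero] at hv
  obtain ⟨e1, e2, e3⟩ := hv
  have e4 : b = 0 := e2.resolve_left (h2 _).ne'
  simp [e1, e4, e3]

theorem strictMono' {m : ℝ → ℝ} (h : RepOK m) : StrictMono m := strictMono_of_deriv_pos h.2.1

theorem inj {m : ℝ → ℝ} (h : RepOK m) : Function.Injective (repm m) := by
  rintro ⟨a, b, c⟩ ⟨a', b', c'⟩ he
  simp only [repm, Prod.mk.injEq] at he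
  obtain ⟨e1, e2, e3⟩ := he
  rw [e1, (strictMono' h).injective e2, e3]

theorem near_flat {m : ℝ → ℝ} (h : RepOK m) {c : ℝ} (hc : c = 0 ∨ c = 1) {p : R4}
    (hp : p ∈ flat c) : ∀ᶠ q in 𝓝 p, repm m q = q := by
  obtain ⟨-, -, η, h0, h3⟩ := h
  obtain ⟨-, hp2⟩ := hp
  unfold rsq nsq at hp2
  simp only at hp2
  have k1 : (p.2.1 - c) ^ 2 ≤ 1 / 25 := by nlinarith [sq_nonneg p.2.2.re, sq_nonneg p.2.2.im]
  have k2 : |p.2.1 - c| ≤ 1 / 5 := abs_le_of_sq_le_sq (by norm_num; linarith) (by norm_num)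
  have cont : ContinuousAt (fun q : R4 => q.2.1) p := by fun_prop
  rw [abs_le] at k2
  rcases hc with rfl | rfl
  · have : p.2.1 < 1 / 5 + η := by linarith [k2.2]
    filter_upwards [cont.eventually (gt_mem_nhds this)] with q hq
    unfold repm
    rw [h3 _ (Or.inl (le_of_lt hq))]
  · have : 4 / 5 - η < p.2.1 := by linarith [k2.1]
    filter_upwards [cont.eventually (lt_mem_nhds this)] with q hq
    unfold repm
    rw [h3 _ (Or.inr (le_of_lt hq))]

theorem fix_flat {m : ℝ → ℝ} (h : RepOK m) {c : ℝ} (hc : c = 0 ∨ c = 1) {p : R4}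
    (hp : p ∈ flat c) : repm m p = p := (near_flat h hc hp).self_of_nhds

theorem ends {m : ℝ → ℝ} (h : RepOK m) {a : ℝ} (ha : a ∈ Icc (1 / 5 : ℝ) (4 / 5)) :
    m a ∈ Icc (1 / 5 : ℝ) (4 / 5) := by
  have mono := (strictMono' h).monotone
  obtain ⟨-, -, η, h0, h3⟩ := h
  have e1 : m (1 / 5) = 1 / 5 := h3 _ (Or.inl (by linarith))
  have e2 : m (4 / 5) = 4 / 5 := h3 _ (Or.inr (by linarith))
  exact ⟨by rw [← e1]; exact mono ha.1, by rw [← e2]; exact mono ha.2⟩

theorem sph_sub (c : ℝ) : sph c ⊆ flat c := fun _ hp => ⟨hp.1, hp.2.le⟩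

theorem mapsTo {m : ℝ → ℝ} (h : RepOK m) {p : R4} (hp : p ∈ SP) : repm m p ∈ SP := by
  rcases hp with (hp | hp) | hp
  · rw [fix_flat h (Or.inl rfl) (sph_sub 0 hp)]; exact Or.inl (Or.inl hp)
  · rw [fix_flat h (Or.inr rfl) (sph_sub 1 hp)]; exact Or.inl (Or.inr hp)
  · obtain ⟨h1, h2, h3, h4⟩ := hp
    have h5 := ends h ⟨h2, h3⟩
    exact Or.inr ⟨h1, h5.1, h5.2, h4⟩

theorem embOn {m : ℝ → ℝ} (h : RepOK m) (L : Set R4) : EmbOn I4 (repm m) L := by
  rw [embOn_iff]
  exact ⟨fun p _ => ⟨Eventually.of_forall fun q => (contDiff_repm h.1).contDiffAt,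
    fderiv_inj h p⟩, (inj h).injOn⟩

/-- the linear homotopy -/
theorem homot {m : ℝ → ℝ} (h : RepOK m) {t : ℝ} (ht : t ∈ Icc (0 : ℝ) 1) :
    RepOK (fun a => (1 - t) * a + t * m a) := by
  obtain ⟨h1, h2, η, h0, h3⟩ := h
  refine ⟨by fun_prop, fun a => ?_, η, h0, fun a ha => ?_⟩
  · have dm : HasDerivAt m (deriv m a) a := (h1.differentiable (by simp) _).hasDerivAt
    have d2 : HasDerivAt (fun a => (1 - t) * a + t * m a) ((1 - t) * 1 + t * deriv m a) a :=
      ((hasDerivAt_id a).const_mul (1 - t)).add (dm.const_mul t)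
    rw [d2.deriv]
    rcases ht.2.lt_or_eq with h4 | h4
    · have := mul_nonneg ht.1 (h2 a).le
      linarith
    · rw [h4]; simp [h2 a]
  · simp only
    rw [h3 a ha]; ring

end RG

theorem m_RG (hF : StFam) : StRG := by
  intro m h
  refine ⟨RG.embOn h univ, fun a => rfl, fun c hc p hp => RG.near_flat h hc hp,
    fun a ha => RG.ends h ha, RG.strictMono' h, fun F hE => ⟨?_, ?_⟩⟩
  · exact embOn_comp hE (RG.embOn h SP) fun p hp => RG.mapsTo h hp
  · have key := eqv_precomp hF hE (m := fun z : ℝ × R4 =>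
        (z.2.1, ((1 - z.1) * z.2.2.1 + z.1 * m z.2.2.1, z.2.2.2))) ?_ ?_
    · simpa [repm] using key
    · refine famOn_of_contDiff ?_ ?_ ?_
      · have := h.1
        fun_prop
      · intro t ht p _
        exact RG.fderiv_inj (RG.homot h ht) p
      · intro t ht
        exact (RG.inj (RG.homot h ht)).injOn
    · intro t ht p hp
      exact RG.mapsTo (RG.homot h ht) hp

end Pool.Agent.Helper70.BI


end

/-! ## Helper18.BI.H.M_STR -/

section

/-!
# Project BI, stage 3 (H), module STR: stretching the bar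
-/

set_option autoImplicit false

open scoped Manifold ContDiff Topology ComplexConjugate
open Set Pool.Agent.Helper65.Barb Pool.Agent.Helper18.BI

namespace Pool.Agent.Helper18.BI.H

open Pool.Agent.Helper70.BI (ax repm RepOK StRM StRG m_RM m_RG stFam_of)

namespace STR

/-- the reparametrization -/
private theorem exists_rep {r : ℝ} (h0 : 0 < r) (h1 : r ≤ 1 / 20) : ∃ m : ℝ → ℝ, RepOK m ∧
    (∀ a, (a ≤ 1 / 4 ∨ 4 / 5 - r / 4 ≤ a) → m a = a) ∧ m (59 / 100) = 4 / 5 - r := by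
  obtain ⟨m, hm1, hm2, hm3, η, hη, hm4⟩ := m_RM.1 (1 / 4) (4 / 5 - r / 4) (59 / 100) (4 / 5 - r)
    (fun a => a + (4 / 5 - r - 59 / 100)) (by norm_num) (by linarith) (by linarith) (by linarith)
    (Filter.Eventually.of_forall fun a => by fun_prop) (by ring) (by
      have : HasDerivAt (fun a : ℝ => a + (4 / 5 - r - 59 / 100)) 1 (59 / 100) :=
        (hasDerivAt_id _).add_const _
      rw [this.deriv]
      norm_num)
  have hid : ∀ a, (a ≤ 1 / 4 ∨ 4 / 5 - r / 4 ≤ a) → m a = a := by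
    intro a ha
    apply hm4
    rcases ha with ha | ha
    · left; linarith
    · right; linarith
  refine ⟨m, ⟨hm1, hm2, r / 4, by linarith, fun a ha => hid a ?_⟩, hid, ?_⟩
  · rcases ha with ha | ha
    · left; linarith
    · right; exact ha
  · have h := hm3.self_of_nhds
    rw [h]
    ring

private theorem ax_of_neck {p : R4} (hp : p ∈ neck) : p = ax p.2.1 := by
  obtain ⟨h1, -, -, h4⟩ := hp
  exact Prod.ext h1 (Prod.ext rfl h4)

end STR

open STR

theorem m_STR : StSTR := by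
  intro F F' U hF hF' hU h1U hEq
  have hRG : StRG := m_RG (stFam_of hT2)
  -- the size of the neighbourhood
  have hax : Continuous ax := by
    unfold ax
    fun_prop
  have h45 : ax (4 / 5) ∈ U := by
    apply h1U
    refine ⟨rfl, ?_⟩
    simp only [rsq, nsq, ax]
    norm_num
  have hnh : ax ⁻¹' U ∈ 𝓝 (4 / 5 : ℝ) := hax.continuousAt.preimage_mem_nhds (hU.mem_nhds h45)
  obtain ⟨δ, hδ, hball⟩ := Metric.mem_nhds_iff.1 hnh
  obtain ⟨r, hr0, hr1, hrδ⟩ : ∃ r : ℝ, 0 < r ∧ r ≤ 1 / 20 ∧ r < δ :=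
    ⟨min (1 / 20) (δ / 2), lt_min (by norm_num) (by linarith), min_le_left _ _,
      lt_of_le_of_lt (min_le_right _ _) (by linarith)⟩
  have hUr : ∀ a, 4 / 5 - r ≤ a → a ≤ 4 / 5 → ax a ∈ U := by
    intro a h1 h2
    apply hball
    rw [Metric.mem_ball, Real.dist_eq, abs_lt]
    constructor <;> linarith
  obtain ⟨m, hm, hid, hmx⟩ := exists_rep hr0 hr1
  obtain ⟨-, hmax, -, hends, hmono, hG⟩ := hRG m hm
  have hfix : ∀ p : R4, (p.2.1 ≤ 1 / 4 ∨ 4 / 5 - r / 4 ≤ p.2.1) → repm m p = p := by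
    intro p hp
    show (p.1, (m p.2.1, p.2.2)) = p
    rw [hid _ hp]
  have hcont : Continuous (repm m) := by
    have hmc : Continuous m := hm.1.continuous
    show Continuous fun p : R4 => (p.1, (m p.2.1, p.2.2))
    fun_prop
  have hs1 : ∀ p ∈ sph 1, 4 / 5 ≤ p.2.1 := by
    intro p hp
    have h1 := sq_le_rsq_one p
    have h2 := hp.2
    nlinarith
  have hs0 : ∀ p ∈ sph 0, p.2.1 ≤ 1 / 5 := by
    intro p hp
    have h1 := sq_le_rsq p
    have h2 := hp.2
    nlinarith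
  refine ⟨fun p => F (repm m p), fun p => F' (repm m p),
    {p | p.2.1 < 1 / 4} ∪ {p | 4 / 5 - r / 4 < p.2.1}, repm m ⁻¹' U, (hG F hF).1, (hG F' hF').1,
    ?_, ?_, ?_, ?_, hU.preimage hcont, ?_, ?_, fun φ => ((hG F hF).2 φ).1,
    fun φ => ((hG F' hF').2 φ).1⟩
  · have hc : Continuous fun p : R4 => p.2.1 := by fun_prop
    exact (isOpen_lt hc continuous_const).union (isOpen_lt continuous_const hc)
  · rintro p (hp | hp)
    · left
      show p.2.1 < 1 / 4
      have := hs0 p hp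
      linarith
    · right
      show 4 / 5 - r / 4 < p.2.1
      have := hs1 p hp
      linarith
  · intro p hp
    show F (repm m p) = F p
    rw [hfix p]
    rcases hp with hp | hp
    · exact Or.inl (le_of_lt hp)
    · exact Or.inr (le_of_lt hp)
  · intro p hp
    show F' (repm m p) = F' p
    rw [hfix p]
    rcases hp with hp | hp
    · exact Or.inl (le_of_lt hp)
    · exact Or.inr (le_of_lt hp)
  · rintro p (hp | hp)
    · show repm m p ∈ U
      rw [hfix p (Or.inr (by have := hs1 p hp; linarith))]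
      exact h1U hp
    · show repm m p ∈ U
      obtain ⟨hp1, hp2⟩ := hp
      rw [ax_of_neck hp1, hmax]
      have h2 := hends p.2.1 ⟨by linarith, hp1.2.2.1⟩
      refine hUr _ ?_ h2.2
      have h3 : m (59 / 100) < m p.2.1 := hmono (by linarith)
      rw [hmx] at h3
      exact h3.le
  · intro p hp
    exact hEq hp

end Pool.Agent.Helper18.BI.H


end

/-! ## Helper18.BI.R.M_HCL -/

section

/-!
# Project BI, stage 4 (R): module HCL, the calculus of classes of squares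
-/

set_option autoImplicit false

open scoped Manifold ContDiff Topology ComplexConjugate
open Set Pool.Agent.Helper65.Barb Pool.Agent.Helper18.BI
open Pool.Agent.Helper70.BI (I4 IsW MW)
open Pool.Agent.Helper27.H (ArcD StArcH)
open Pool.Agent.Helper18.BI.H

namespace Pool.Agent.Helper18.BI.R

namespace HCL

/-! ### homotopies of squares -/

private theorem isClosed_box (D : ArcD) :
    IsClosed (Icc (0 : ℝ) 1 ×ˢ (Icc (0 : ℝ) 1 ×ˢ Icc D.m₀ D.m₁)) :=
  isClosed_Icc.prod (isClosed_Icc.prod isClosed_Icc)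

/-- gluing two functions, continuous on the box, along a hyperplane -/
private theorem glue_cont {B : Set (ℝ × ℝ × ℝ)} {f g : ℝ × ℝ × ℝ → R4} {p : ℝ × ℝ × ℝ → ℝ}
    (hp : Continuous p) (hf : ContinuousOn f (B ∩ {z | p z ≤ 1 / 2}))
    (hg : ContinuousOn g (B ∩ {z | 1 / 2 ≤ p z}))
    (he : ∀ z ∈ B, p z = 1 / 2 → f z = g z) :
    ContinuousOn (fun z => open Classical in if p z ≤ 1 / 2 then f z else g z) B := by
  classical
  intro z hz
  rcases lt_trichotomy (p z) (1 / 2) with h | h | h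
  · have hn : ∀ᶠ w in 𝓝 z, p w < 1 / 2 := hp.continuousAt.eventually (gt_mem_nhds h)
    have hc : ContinuousWithinAt f B z := by
      refine (hf z ⟨hz, h.le⟩).mono_of_mem_nhdsWithin ?_
      filter_upwards [self_mem_nhdsWithin, mem_nhdsWithin_of_mem_nhds hn] with w hw1 hw2
      exact ⟨hw1, hw2.le⟩
    refine hc.congr_of_eventuallyEq ?_ (if_pos h.le)
    filter_upwards [mem_nhdsWithin_of_mem_nhds hn] with w hw
    exact if_pos hw.le
  · have h1 : ContinuousWithinAt (fun z => open Classical in if p z ≤ 1 / 2 then f z else g z)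
        (B ∩ {z | p z ≤ 1 / 2}) z :=
      (hf z ⟨hz, h.le⟩).congr (fun w hw => if_pos hw.2) (if_pos h.le)
    have h2 : ContinuousWithinAt (fun z => open Classical in if p z ≤ 1 / 2 then f z else g z)
        (B ∩ {z | 1 / 2 ≤ p z}) z := by
      refine (hg z ⟨hz, h.ge⟩).congr (fun w hw => ?_) ?_
      · by_cases h' : p w ≤ 1 / 2
        · have : p w = 1 / 2 := le_antisymm h' hw.2
          simp only [h', if_true]
          exact he w hw.1 this
        · simp only [h', if_false]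
      · simp only [h, le_refl, if_true]
        exact he z hz h
    refine (h1.union h2).mono fun w hw => ?_
    rcases le_total (p w) (1 / 2) with h' | h'
    · exact Or.inl ⟨hw, h'⟩
    · exact Or.inr ⟨hw, h'⟩
  · have hn : ∀ᶠ w in 𝓝 z, 1 / 2 < p w := hp.continuousAt.eventually (lt_mem_nhds h)
    have hc : ContinuousWithinAt g B z := by
      refine (hg z ⟨hz, h.le⟩).mono_of_mem_nhdsWithin ?_
      filter_upwards [self_mem_nhdsWithin, mem_nhdsWithin_of_mem_nhds hn] with w hw1 hw2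
      exact ⟨hw1, hw2.le⟩
    refine hc.congr_of_eventuallyEq ?_ (if_neg (not_le.2 h))
    filter_upwards [mem_nhdsWithin_of_mem_nhds hn] with w hw
    exact if_neg (not_le.2 hw)

private theorem sh_symm {D : ArcD} {f g : ℝ → ℝ → R4} (h : SH D f g) : SH D g f := by
  obtain ⟨H, hc, he, hb⟩ := h
  refine ⟨fun z => H (1 - z.1, z.2.1, z.2.2), ?_, fun q hq s hs => ?_, fun u hu q hq s hs => ?_⟩
  · refine hc.comp (Continuous.continuousOn (by fun_prop)) ?_
    rintro ⟨u, q, s⟩ ⟨⟨h1, h2⟩, hq, hs⟩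
    exact ⟨⟨by simp only at h2 ⊢; linarith, by simp only at h1 ⊢; linarith⟩, hq, hs⟩
  · simp only [sub_zero, sub_self]
    exact ⟨(he q hq s hs).2, (he q hq s hs).1⟩
  · exact hb (1 - u) ⟨by linarith [hu.2], by linarith [hu.1]⟩ q hq s hs

private theorem sh_trans {D : ArcD} {f g k : ℝ → ℝ → R4} (h : SH D f g) (h' : SH D g k) :
    SH D f k := by
  classical
  obtain ⟨H, hc, he, hb⟩ := h
  obtain ⟨H', hc', he', hb'⟩ := h'
  refine ⟨fun z => if z.1 ≤ 1 / 2 then H (2 * z.1, z.2.1, z.2.2)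
    else H' (2 * z.1 - 1, z.2.1, z.2.2), ?_, fun q hq s hs => ?_, fun u hu q hq s hs => ?_⟩
  · have := glue_cont (B := Icc (0 : ℝ) 1 ×ˢ (Icc (0 : ℝ) 1 ×ˢ Icc D.m₀ D.m₁))
      (f := fun z => H (2 * z.1, z.2.1, z.2.2)) (g := fun z => H' (2 * z.1 - 1, z.2.1, z.2.2))
      (p := fun z => z.1) (by fun_prop) ?_ ?_ ?_
    · exact this
    · refine hc.comp (Continuous.continuousOn (by fun_prop)) ?_
      rintro ⟨u, q, s⟩ ⟨⟨⟨h1, h2⟩, hq, hs⟩, h3⟩
      simp only [mem_ofPred_eq] at h1 h2 h3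
      exact ⟨⟨by simp only; linarith, by simp only; linarith⟩, hq, hs⟩
    · refine hc'.comp (Continuous.continuousOn (by fun_prop)) ?_
      rintro ⟨u, q, s⟩ ⟨⟨⟨h1, h2⟩, hq, hs⟩, h3⟩
      simp only [mem_ofPred_eq] at h1 h2 h3
      exact ⟨⟨by simp only; linarith, by simp only; linarith⟩, hq, hs⟩
    · rintro ⟨u, q, s⟩ ⟨-, hq, hs⟩ h3
      simp only at h3
      subst h3
      have e1 : (2 : ℝ) * (1 / 2) = 1 := by norm_num
      have e2 : (2 : ℝ) * (1 / 2) - 1 = 0 := by norm_num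
      simp only [e1, sub_self]
      rw [(he q hq s hs).2, (he' q hq s hs).1]
  · have e1 : ¬ ((1 : ℝ) ≤ 1 / 2) := by norm_num
    have e2 : (0 : ℝ) ≤ 1 / 2 := by norm_num
    have e3 : (2 : ℝ) * 1 - 1 = 1 := by norm_num
    simp only [e1, e2, e3, if_true, if_false, mul_zero]
    exact ⟨(he q hq s hs).1, (he' q hq s hs).2⟩
  · by_cases h : u ≤ 1 / 2
    · simp only [h, if_true]
      exact hb (2 * u) ⟨by linarith [hu.1], by linarith⟩ q hq s hs
    · simp only [h, if_false]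
      exact hb' (2 * u - 1) ⟨by linarith [not_le.1 h], by linarith [hu.2]⟩ q hq s hs

/-! ### the constant loop -/

private theorem loopOK_const (D : ArcD) : LoopOK D (fun _ s => D.c s) where
  smooth := D.smooth.comp contDiff_snd
  froz _ _ _ _ := rfl
  inU _ _ s hs := D.mem s ⟨D.h₀.trans_le hs.1, hs.2.trans_lt D.h₂⟩
  start _ := rfl
  stop _ := rfl

private theorem hasCl_const (hCls : Pool.Agent.Helper27.H.StCls) (D : ArcD) (y₀ : R4) :
    HasCl D y₀ (fun _ _ => y₀) (fun x => x) := by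
  refine ⟨fun _ s => D.c s, loopOK_const D, (hCls D).2.2.2.2.2, fun z => D.c z.2.2,
    (D.smooth.continuous.comp (by fun_prop)).continuousOn, fun q hq s hs => ⟨rfl, ?_⟩,
    fun u hu q hq s hs => ⟨(loopOK_const D).inU q hq s hs, fun _ => rfl⟩⟩
  simp [shp]

/-! ### concatenation -/

private theorem step_le {q : ℝ} (h : q ≤ 1 / 2) : step (2 * q - 1) = 0 :=
  step_of_nonpos (by linarith)

private theorem step_ge {q : ℝ} (h : 1 / 2 ≤ q) : step (2 * q) = 1 :=
  step_of_one_le (by linarith)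

private theorem cat_le {D : ArcD} {c c' : ℝ → ℝ → R4} (hc' : LoopOK D c') {q : ℝ}
    (h : q ≤ 1 / 2) (s : ℝ) : cat D c c' q s = c (step (2 * q)) s := by
  unfold cat
  rw [step_le h, hc'.start]
  abel

private theorem cat_ge {D : ArcD} {c c' : ℝ → ℝ → R4} (hc : LoopOK D c) {q : ℝ}
    (h : 1 / 2 ≤ q) (s : ℝ) : cat D c c' q s = c' (step (2 * q - 1)) s := by
  unfold cat
  rw [step_ge h, hc.stop]
  abel

private theorem loopOK_cat {D : ArcD} {c c' : ℝ → ℝ → R4} (hc : LoopOK D c)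
    (hc' : LoopOK D c') : LoopOK D (cat D c c') where
  smooth := by
    have h1 : ContDiff ℝ ∞ (fun z : ℝ × ℝ => c (step (2 * z.1)) z.2) :=
      hc.smooth.comp (g := fun z : ℝ × ℝ => c z.1 z.2) (f := fun z : ℝ × ℝ =>
        (step (2 * z.1), z.2)) ((contDiff_step.comp (by fun_prop)).prodMk contDiff_snd)
    have h2 : ContDiff ℝ ∞ (fun z : ℝ × ℝ => c' (step (2 * z.1 - 1)) z.2) :=
      hc'.smooth.comp (g := fun z : ℝ × ℝ => c' z.1 z.2) (f := fun z : ℝ × ℝ =>
        (step (2 * z.1 - 1), z.2)) ((contDiff_step.comp (by fun_prop)).prodMk contDiff_snd)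
    exact (h1.add h2).sub (D.smooth.comp contDiff_snd)
  froz q hq s hs := by
    unfold cat
    rw [hc.froz _ (step_mem _) s hs, hc'.froz _ (step_mem _) s hs]
    abel
  inU q hq s hs := by
    rcases le_total q (1 / 2) with h | h
    · rw [cat_le hc' h]
      exact hc.inU _ (step_mem _) s hs
    · rw [cat_ge hc h]
      exact hc'.inU _ (step_mem _) s hs
  start s := by
    rw [cat_le hc' (by norm_num), mul_zero, step_of_nonpos le_rfl, hc.start]
  stop s := by
    rw [cat_ge hc (by norm_num), step_of_one_le (by norm_num), hc'.stop]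

private theorem mem_conv {u x y : ℝ} (hu : u ∈ Icc (0 : ℝ) 1) (hx : x ∈ Icc (0 : ℝ) 1)
    (hy : y ∈ Icc (0 : ℝ) 1) : (1 - u) * x + u * y ∈ Icc (0 : ℝ) 1 := by
  obtain ⟨hu0, hu1⟩ := hu
  obtain ⟨hx0, hx1⟩ := hx
  obtain ⟨hy0, hy1⟩ := hy
  constructor
  · have := mul_nonneg (sub_nonneg.2 hu1) hx0
    have := mul_nonneg hu0 hy0
    linarith
  · nlinarith [mul_nonneg (sub_nonneg.2 hu1) (sub_nonneg.2 hx1),
      mul_nonneg hu0 (sub_nonneg.2 hy1)]

private theorem SH_cat {D : ArcD} {y₀ : R4} {c c' f f' : ℝ → ℝ → R4} (hc : LoopOK D c)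
    (hc' : LoopOK D c') (h : SH D c (shp D y₀ f)) (h' : SH D c' (shp D y₀ f')) :
    SH D (cat D c c') (shp D y₀ (qcat f f')) := by
  classical
  obtain ⟨H, hH, he, hb⟩ := h
  obtain ⟨H', hH', he', hb'⟩ := h'
  have cs : Continuous step := contDiff_step.continuous
  have m0 : (0 : ℝ) ∈ Icc (0 : ℝ) 1 := ⟨le_rfl, zero_le_one⟩
  have m1 : (1 : ℝ) ∈ Icc (0 : ℝ) 1 := ⟨zero_le_one, le_rfl⟩
  have i1 : ∀ q : ℝ, q ∈ Icc (0 : ℝ) 1 → q ≤ 1 / 2 → 2 * q ∈ Icc (0 : ℝ) 1 := fun q hq h =>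
    ⟨by linarith [hq.1], by linarith⟩
  have i2 : ∀ q : ℝ, q ∈ Icc (0 : ℝ) 1 → 1 / 2 ≤ q → 2 * q - 1 ∈ Icc (0 : ℝ) 1 := fun q hq h =>
    ⟨by linarith, by linarith [hq.2]⟩
  refine ⟨fun z => if z.2.1 ≤ 1 / 2 then
      H (z.1, (1 - z.1) * step (2 * z.2.1) + z.1 * (2 * z.2.1), z.2.2)
    else H' (z.1, (1 - z.1) * step (2 * z.2.1 - 1) + z.1 * (2 * z.2.1 - 1), z.2.2), ?_,
    fun q hq s hs => ?_, fun u hu q hq s hs => ?_⟩
  · have := glue_cont (B := Icc (0 : ℝ) 1 ×ˢ (Icc (0 : ℝ) 1 ×ˢ Icc D.m₀ D.m₁))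
      (f := fun z => H (z.1, (1 - z.1) * step (2 * z.2.1) + z.1 * (2 * z.2.1), z.2.2))
      (g := fun z => H' (z.1, (1 - z.1) * step (2 * z.2.1 - 1) + z.1 * (2 * z.2.1 - 1), z.2.2))
      (p := fun z => z.2.1) (by fun_prop) ?_ ?_ ?_
    · exact this
    · refine hH.comp (Continuous.continuousOn (by fun_prop)) ?_
      rintro ⟨u, q, s⟩ ⟨⟨hu, hq, hs⟩, h3⟩
      exact ⟨hu, mem_conv hu (step_mem _) (i1 q hq h3), hs⟩
    · refine hH'.comp (Continuous.continuousOn (by fun_prop)) ?_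
      rintro ⟨u, q, s⟩ ⟨⟨hu, hq, hs⟩, h3⟩
      exact ⟨hu, mem_conv hu (step_mem _) (i2 q hq h3), hs⟩
    · rintro ⟨u, q, s⟩ ⟨hu, hq, hs⟩ h3
      simp only at h3
      subst h3
      have e1 : (2 : ℝ) * (1 / 2) = 1 := by norm_num
      simp only [e1, sub_self, step_of_one_le (le_refl (1 : ℝ)),
        step_of_nonpos (le_refl (0 : ℝ))]
      have e2 : (1 - u) * 1 + u * 1 = 1 := by ring
      have e3 : (1 - u) * 0 + u * 0 = 0 := by ring
      rw [e2, e3, (hb u hu 1 m1 s hs).2 (Or.inr (Or.inl rfl)),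
        (hb' u hu 0 m0 s hs).2 (Or.inl rfl)]
  · by_cases h : q ≤ 1 / 2
    · simp only [h, if_true, sub_zero, one_mul, zero_mul, add_zero, sub_self, zero_add]
      rw [cat_le hc' h, (he _ (step_mem _) s hs).1, (he _ (i1 q hq h) s hs).2]
      refine ⟨rfl, ?_⟩
      simp only [shp, qcat, h, if_true]
    · simp only [h, if_false, sub_zero, one_mul, zero_mul, add_zero, sub_self, zero_add]
      have h' := (not_le.1 h).le
      rw [cat_ge hc h', (he' _ (step_mem _) s hs).1, (he' _ (i2 q hq h') s hs).2]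
      refine ⟨rfl, ?_⟩
      simp only [shp, qcat, h, if_false]
  · by_cases h : q ≤ 1 / 2
    · simp only [h, if_true]
      have key := hb u hu _ (mem_conv hu (step_mem (2 * q)) (i1 q hq h)) s hs
      refine ⟨key.1, fun hh => key.2 ?_⟩
      rcases hh with rfl | rfl | hh
      · left
        rw [mul_zero, step_of_nonpos le_rfl]
        ring
      · norm_num at h
      · exact Or.inr (Or.inr hh)
    · simp only [h, if_false]
      have h' := (not_le.1 h).le
      have key := hb' u hu _ (mem_conv hu (step_mem (2 * q - 1)) (i2 q hq h')) s hs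
      refine ⟨key.1, fun hh => key.2 ?_⟩
      rcases hh with rfl | rfl | hh
      · norm_num at h
      · right; left
        rw [step_of_one_le (by norm_num)]
        ring
      · exact Or.inr (Or.inr hh)

/-! ### reversal -/

private theorem loopOK_rev {D : ArcD} {c : ℝ → ℝ → R4} (hc : LoopOK D c) :
    LoopOK D (fun q s => c (1 - q) s) where
  smooth := hc.smooth.comp (g := fun z : ℝ × ℝ => c z.1 z.2) (f := fun z : ℝ × ℝ =>
    (1 - z.1, z.2)) (by fun_prop)
  froz q hq s hs := hc.froz (1 - q) ⟨by linarith [hq.2], by linarith [hq.1]⟩ s hs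
  inU q hq s hs := hc.inU (1 - q) ⟨by linarith [hq.2], by linarith [hq.1]⟩ s hs
  start s := by simp only [sub_zero]; exact hc.stop s
  stop s := by simp only [sub_self]; exact hc.start s

private theorem SH_rev {D : ArcD} {y₀ : R4} {c f : ℝ → ℝ → R4} (h : SH D c (shp D y₀ f)) :
    SH D (fun q s => c (1 - q) s) (shp D y₀ (fun q s => f (1 - q) s)) := by
  obtain ⟨H, hH, he, hb⟩ := h
  have i1 : ∀ q : ℝ, q ∈ Icc (0 : ℝ) 1 → 1 - q ∈ Icc (0 : ℝ) 1 := fun q hq =>
    ⟨by linarith [hq.2], by linarith [hq.1]⟩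
  refine ⟨fun z => H (z.1, 1 - z.2.1, z.2.2), ?_, fun q hq s hs => ?_,
    fun u hu q hq s hs => ?_⟩
  · refine hH.comp (Continuous.continuousOn (by fun_prop)) ?_
    rintro ⟨u, q, s⟩ ⟨hu, hq, hs⟩
    exact ⟨hu, i1 q hq, hs⟩
  · exact he (1 - q) (i1 q hq) s hs
  · refine ⟨(hb u hu (1 - q) (i1 q hq) s hs).1, fun hh =>
      (hb u hu (1 - q) (i1 q hq) s hs).2 ?_⟩
    rcases hh with rfl | rfl | hh
    · exact Or.inr (Or.inl (by ring))
    · exact Or.inl (by ring)
    · exact Or.inr (Or.inr hh)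

end HCL

theorem m_HCL (hMULT : StMULT) (hINV : StINV) (hSMG : StSMG)
    (hCls : Pool.Agent.Helper27.H.StCls) (hArcH : Pool.Agent.Helper27.H.StArcH)
    (_hCI : StCI) : StHCL := by
  intro D y₀
  refine ⟨HCL.hasCl_const hCls D y₀, ?_, ?_, ?_, ?_, ?_, ?_⟩
  · rintro f f' χ χ' ⟨c, h1, h2, h3⟩ ⟨c', h1', h2', h3'⟩
    exact ⟨cat D c c', HCL.loopOK_cat h1 h1', hMULT D c c' χ χ' h1 h1' h2 h2',
      HCL.SH_cat h1 h1' h3 h3'⟩
  · rintro f χ χ' ⟨c, h1, h2, h3⟩ ha hb
    exact ⟨fun q s => c (1 - q) s, HCL.loopOK_rev h1, hINV D c χ χ' h1 h2 ha hb,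
      HCL.SH_rev h3⟩
  · rintro f f' χ ⟨c, h1, h2, h3⟩ h
    exact ⟨c, h1, h2, HCL.sh_trans h3 h⟩
  · rintro f χ χ' ⟨c, h1, h2, h3⟩ h
    exact ⟨c, h1, (hCls D).2.1 c χ χ' h2 h, h3⟩
  · rintro f χ ⟨c, h1, h2, h3⟩
    exact (hCls D).2.2.1 c χ h2
  · rintro W f χ χ' hW ⟨c, h1, h2, h3⟩ ⟨c', h1', h2', h3'⟩
    obtain ⟨g, hg, hg0, hg1⟩ := hSMG D c c' h1 h1' (HCL.sh_trans h3 (HCL.sh_symm h3'))
    have e0 : (fun q s => g (0, q, s)) = c := funext fun q => funext fun s => hg0 q s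
    have e1 : (fun q s => g (1, q, s)) = c' := funext fun q => funext fun s => hg1 q s
    have k0 : D.Cls (fun q s => g (0, q, s)) χ := by rw [e0]; exact h2
    have k1 : D.Cls (fun q s => g (1, q, s)) χ' := by rw [e1]; exact h2'
    exact hArcH D g W χ χ' hg (cls_imm_inj D g 0 χ hg.smooth k0)
      (cls_imm_inj D g 1 χ' hg.smooth k1) hW k0 k1

end Pool.Agent.Helper18.BI.R


end

/-! ## Helper18.BI.R.M_STR2 -/

section

/-!
# Project BI, stage 4 (R), module STR2: stretching the bar, the same for all germs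
-/

set_option autoImplicit false

open scoped Manifold ContDiff Topology ComplexConjugate
open Set Pool.Agent.Helper65.Barb Pool.Agent.Helper18.BI
open Pool.Agent.Helper18.BI.H

namespace Pool.Agent.Helper18.BI.R

open Pool.Agent.Helper70.BI (ax repm RepOK StRM StRG m_RM m_RG stFam_of I4)

namespace STR2

/-- the reparametrization -/
private theorem exists_rep {r : ℝ} (h0 : 0 < r) (h1 : r ≤ 1 / 20) : ∃ m : ℝ → ℝ, RepOK m ∧
    (∀ a, (a ≤ 1 / 4 ∨ 4 / 5 - r / 4 ≤ a) → m a = a) ∧ m (59 / 100) = 4 / 5 - r := by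
  obtain ⟨m, hm1, hm2, hm3, η, hη, hm4⟩ := m_RM.1 (1 / 4) (4 / 5 - r / 4) (59 / 100) (4 / 5 - r)
    (fun a => a + (4 / 5 - r - 59 / 100)) (by norm_num) (by linarith) (by linarith) (by linarith)
    (Filter.Eventually.of_forall fun a => by fun_prop) (by ring) (by
      have : HasDerivAt (fun a : ℝ => a + (4 / 5 - r - 59 / 100)) 1 (59 / 100) :=
        (hasDerivAt_id _).add_const _
      rw [this.deriv]
      norm_num)
  have hid : ∀ a, (a ≤ 1 / 4 ∨ 4 / 5 - r / 4 ≤ a) → m a = a := by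
    intro a ha
    apply hm4
    rcases ha with ha | ha
    · left; linarith
    · right; linarith
  refine ⟨m, ⟨hm1, hm2, r / 4, by linarith, fun a ha => hid a ?_⟩, hid, ?_⟩
  · rcases ha with ha | ha
    · left; linarith
    · right; exact ha
  · have h := hm3.self_of_nhds
    rw [h]
    ring

private theorem ax_of_neck {p : R4} (hp : p ∈ neck) : p = ax p.2.1 := by
  obtain ⟨h1, -, -, h4⟩ := hp
  exact Prod.ext h1 (Prod.ext rfl h4)

end STR2

open STR2

theorem m_STR2 : StSTR2 := by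
  intro U hU h1U
  have hRG : StRG := m_RG (stFam_of hT2)
  -- the size of the neighbourhood
  have hax : Continuous ax := by
    unfold ax
    fun_prop
  have h45 : ax (4 / 5) ∈ U := by
    apply h1U
    refine ⟨rfl, ?_⟩
    simp only [rsq, nsq, ax]
    norm_num
  have hnh : ax ⁻¹' U ∈ 𝓝 (4 / 5 : ℝ) := hax.continuousAt.preimage_mem_nhds (hU.mem_nhds h45)
  obtain ⟨δ, hδ, hball⟩ := Metric.mem_nhds_iff.1 hnh
  obtain ⟨r, hr0, hr1, hrδ⟩ : ∃ r : ℝ, 0 < r ∧ r ≤ 1 / 20 ∧ r < δ :=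
    ⟨min (1 / 20) (δ / 2), lt_min (by norm_num) (by linarith), min_le_left _ _,
      lt_of_le_of_lt (min_le_right _ _) (by linarith)⟩
  have hUr : ∀ a, 4 / 5 - r ≤ a → a ≤ 4 / 5 → ax a ∈ U := by
    intro a h1 h2
    apply hball
    rw [Metric.mem_ball, Real.dist_eq, abs_lt]
    constructor <;> linarith
  obtain ⟨m, hm, hid, hmx⟩ := exists_rep hr0 hr1
  obtain ⟨-, hmax, -, hends, hmono, hG⟩ := hRG m hm
  have hfix : ∀ p : R4, (p.2.1 ≤ 1 / 4 ∨ 4 / 5 - r / 4 ≤ p.2.1) → repm m p = p := by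
    intro p hp
    show (p.1, (m p.2.1, p.2.2)) = p
    rw [hid _ hp]
  have hcont : Continuous (repm m) := by
    have hmc : Continuous m := hm.1.continuous
    show Continuous fun p : R4 => (p.1, (m p.2.1, p.2.2))
    fun_prop
  have hs1 : ∀ p ∈ sph 1, 4 / 5 ≤ p.2.1 := by
    intro p hp
    have h1 := sq_le_rsq_one p
    have h2 := hp.2
    nlinarith
  have hs0 : ∀ p ∈ sph 0, p.2.1 ≤ 1 / 5 := by
    intro p hp
    have h1 := sq_le_rsq p
    have h2 := hp.2
    nlinarith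
  refine ⟨repm m, m (73 / 100),
    {p | p.2.1 < 1 / 4} ∪ {p | 4 / 5 - r / 4 < p.2.1}, repm m ⁻¹' U,
    ?_, ?_, ?_, hU.preimage hcont, ?_, fun p hp => hp, ?_, ?_, rfl,
    fun F hF => ⟨(hG F hF).1, fun φ => ((hG F hF).2 φ).1⟩⟩
  · have hc : Continuous fun p : R4 => p.2.1 := by fun_prop
    exact (isOpen_lt hc continuous_const).union (isOpen_lt continuous_const hc)
  · rintro p (hp | hp)
    · left
      show p.2.1 < 1 / 4
      have := hs0 p hp
      linarith
    · right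
      show 4 / 5 - r / 4 < p.2.1
      have := hs1 p hp
      linarith
  · intro p hp
    rcases hp with hp | hp
    · exact hfix p (Or.inl (le_of_lt hp))
    · exact hfix p (Or.inr (le_of_lt hp))
  · rintro p (hp | hp)
    · show repm m p ∈ U
      rw [hfix p (Or.inr (by have := hs1 p hp; linarith))]
      exact h1U hp
    · show repm m p ∈ U
      obtain ⟨hp1, hp2⟩ := hp
      rw [ax_of_neck hp1, hmax]
      have h2 := hends p.2.1 ⟨by linarith, hp1.2.2.1⟩
      refine hUr _ ?_ h2.2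
      have h3 : m (59 / 100) < m p.2.1 := hmono (by linarith)
      rw [hmx] at h3
      exact h3.le
  · have h := hmono (show (1 / 5 : ℝ) < 73 / 100 by norm_num)
    rwa [hid (1 / 5) (Or.inl (by norm_num))] at h
  · have h := hmono (show (73 / 100 : ℝ) < 4 / 5 by norm_num)
    rwa [hid (4 / 5) (Or.inr (by linarith))] at h

end Pool.Agent.Helper18.BI.R


end
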