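import Pool.Agent.Helper65.Barb.Defs
import Pool.Agent.Helper70.BI.C.P13
import Pool.Agent.Helper70.BI.C.P26

/-!
# Project BI (MP_8e98f2_gt): collected modules, part 52

The contents of the modules
* Helper70.BI.M_ARC3
* Helper70.BI.M_ROT
* Helper34.BI.M_D1a

in one file, so that the whole proof builds in a short time.
-/

namespace Pool.Agent.Helper18.BI
end Pool.Agent.Helper18.BI

namespace Pool.Agent.Helper27.BI
end Pool.Agent.Helper27.BI

namespace Pool.Agent.Helper34.BI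
end Pool.Agent.Helper34.BI

namespace Pool.Agent.Helper65.Barb
end Pool.Agent.Helper65.Barb


/-! ## Helper70.BI.M_ARC3 -/

section

/-!
# Project BI, module E-ARC3: a family of arcs pushed through a parabola
-/

set_option autoImplicit false

open scoped Manifold ContDiff Topology ComplexConjugate
open Set Filter Pool.Agent.Helper65.Barb Pool.Agent.Helper18.BI

namespace Pool.Agent.Helper70.BI

namespace ARC3

open Pool.Agent.Helper34.BI (hat contDiff_hat hat_ne_zero hat_eq_zero hat_nonneg hat_le_one fam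
  GenPos exists_genPos)

theorem isOpen_U3 : IsOpen U3 := by
  have h1 : IsOpen {p : R4 | p.1 ≠ 1 / 2} := isOpen_ne_fun continuous_fst continuous_const
  have h2 : IsOpen {p : R4 | 1 / 5 < p.2.1} :=
    isOpen_lt continuous_const (continuous_fst.comp continuous_snd)
  have h3 : IsOpen {p : R4 | p.2.1 < 4 / 5} :=
    isOpen_lt (continuous_fst.comp continuous_snd) continuous_const
  exact h1.union (h2.inter h3)

theorem isPreconnected_U3 : IsPreconnected U3 := by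
  have cA : Convex ℝ {p : R4 | 1 / 2 < p.1} :=
    convex_halfSpace_gt (LinearMap.fst ℝ ℝ (ℝ × ℂ)).isLinear _
  have cC : Convex ℝ {p : R4 | p.1 < 1 / 2} :=
    convex_halfSpace_lt (LinearMap.fst ℝ ℝ (ℝ × ℂ)).isLinear _
  have cB1 : Convex ℝ {p : R4 | 1 / 5 < p.2.1} :=
    convex_halfSpace_gt ((LinearMap.fst ℝ ℝ ℂ).comp (LinearMap.snd ℝ ℝ (ℝ × ℂ))).isLinear _
  have cB2 : Convex ℝ {p : R4 | p.2.1 < 4 / 5} :=
    convex_halfSpace_lt ((LinearMap.fst ℝ ℝ ℂ).comp (LinearMap.snd ℝ ℝ (ℝ × ℂ))).isLinear _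
  have cB := cB1.inter cB2
  have h1 : IsPreconnected ({p : R4 | 1 / 2 < p.1} ∪
      ({p : R4 | 1 / 5 < p.2.1} ∩ {p : R4 | p.2.1 < 4 / 5})) := by
    refine IsPreconnected.union ((1, 1 / 2, 0) : R4) ?_ ?_ cA.isPreconnected cB.isPreconnected
    · change (1 / 2 : ℝ) < 1
      norm_num
    · exact ⟨by change (1 / 5 : ℝ) < 1 / 2; norm_num, by change (1 / 2 : ℝ) < 4 / 5; norm_num⟩
  have h2 := IsPreconnected.union ((0, 1 / 2, 0) : R4)
    (Or.inr ⟨by change (1 / 5 : ℝ) < 1 / 2; norm_num, by change (1 / 2 : ℝ) < 4 / 5; norm_num⟩)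
    (by change (0 : ℝ) < 1 / 2; norm_num) h1 cC.isPreconnected
  have h3 : U3 = ({p : R4 | 1 / 2 < p.1} ∪
      ({p : R4 | 1 / 5 < p.2.1} ∩ {p : R4 | p.2.1 < 4 / 5})) ∪ {p : R4 | p.1 < 1 / 2} := by
    ext p
    constructor
    · rintro (h | h)
      · rcases lt_or_gt_of_ne h with h | h
        · exact Or.inr h
        · exact Or.inl (Or.inl h)
      · exact Or.inl (Or.inr h)
    · rintro ((h | h) | h)
      · exact Or.inl (ne_of_gt h)
      · exact Or.inr h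
      · exact Or.inl (ne_of_lt h)
  rw [h3]
  exact h2

/-- the strand over the centre of the second ball -/
noncomputable def strd (d a : ℝ) : R4 := (1 / 2 + d * (a - 2 / 5), pc 1)

/-- the parabola -/
noncomputable def para (a : ℝ) : R4 :=
  (1 / 2 - (100 * (a - 3 / 5)) ^ 2 / 10, ((0 : ℝ), (((1 + 100 * (a - 3 / 5)) / 20 : ℝ) : ℂ)))

theorem contDiff_ax : ContDiff ℝ ∞ (fun a : ℝ => ax a) := by
  unfold ax
  exact contDiff_const.prodMk (contDiff_id.prodMk contDiff_const)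

theorem contDiff_strd (d : ℝ) : ContDiff ℝ ∞ (strd d) := by
  have h1 : ContDiff ℝ ∞ (fun a : ℝ => 1 / 2 + d * (a - 2 / 5)) := by fun_prop
  exact h1.prodMk contDiff_const

theorem contDiff_para : ContDiff ℝ ∞ para := by
  have h1 : ContDiff ℝ ∞ (fun a : ℝ => 1 / 2 - (100 * (a - 3 / 5)) ^ 2 / 10) := by fun_prop
  have h2 : ContDiff ℝ ∞ (fun a : ℝ => (1 + 100 * (a - 3 / 5)) / 20) := by fun_prop
  have h3 : ContDiff ℝ ∞ (fun a : ℝ => (((1 + 100 * (a - 3 / 5)) / 20 : ℝ) : ℂ)) :=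
    Complex.ofRealCLM.contDiff.comp h2
  exact h1.prodMk (contDiff_const.prodMk h3)

/-- the cut off function of the parabola -/
noncomputable def kap (a : ℝ) : ℝ := step ((49 / 16 - (100 * (a - 3 / 5)) ^ 2) * (16 / 13))

theorem contDiff_kap : ContDiff ℝ ∞ kap := by
  have h1 : ContDiff ℝ ∞ (fun a : ℝ => (49 / 16 - (100 * (a - 3 / 5)) ^ 2) * (16 / 13)) := by
    fun_prop
  exact (Real.smoothTransition.contDiff).comp h1

theorem kap_zero {a : ℝ} (h : a ≤ 58 / 100 ∨ 62 / 100 ≤ a) : kap a = 0 := by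
  refine Real.smoothTransition.zero_of_nonpos ?_
  rcases h with h | h
  · nlinarith
  · nlinarith

theorem kap_one {a : ℝ} (h : |a - 3 / 5| ≤ 3 / 200) : kap a = 1 := by
  rw [abs_le] at h
  refine Real.smoothTransition.one_of_one_le ?_
  nlinarith [mul_nonneg (sub_nonneg.2 h.1) (sub_nonneg.2 h.2)]

theorem kap_mem (a : ℝ) : 0 ≤ kap a ∧ kap a ≤ 1 :=
  ⟨Real.smoothTransition.nonneg _, Real.smoothTransition.le_one _⟩

/-- the support function of the perturbation -/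
noncomputable def chi (a : ℝ) : ℝ :=
  hat (1 / 4) (39 / 100) a + hat (41 / 100) (58 / 100) a + hat (62 / 100) (3 / 4) a

theorem contDiff_chi : ContDiff ℝ ∞ chi :=
  ((contDiff_hat _ _).add (contDiff_hat _ _)).add (contDiff_hat _ _)

theorem chi_zero {a : ℝ} (h : a ≤ 1 / 4 ∨ (39 / 100 ≤ a ∧ a ≤ 41 / 100) ∨
    (58 / 100 ≤ a ∧ a ≤ 62 / 100) ∨ 3 / 4 ≤ a) : chi a = 0 := by
  unfold chi
  have e : hat (1 / 4) (39 / 100) a = 0 ∧ hat (41 / 100) (58 / 100) a = 0 ∧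
      hat (62 / 100) (3 / 4) a = 0 := by
    rcases h with h | h | h | h
    · exact ⟨hat_eq_zero (Or.inl h), hat_eq_zero (Or.inl (by linarith)),
        hat_eq_zero (Or.inl (by linarith))⟩
    · exact ⟨hat_eq_zero (Or.inr h.1), hat_eq_zero (Or.inl h.2),
        hat_eq_zero (Or.inl (by linarith))⟩
    · exact ⟨hat_eq_zero (Or.inr (by linarith)), hat_eq_zero (Or.inr h.1),
        hat_eq_zero (Or.inl h.2)⟩
    · exact ⟨hat_eq_zero (Or.inr (by linarith)), hat_eq_zero (Or.inr (by linarith)),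
        hat_eq_zero (Or.inr h)⟩
  rw [e.1, e.2.1, e.2.2]
  norm_num

theorem chi_ne {a : ℝ} (h : (1 / 4 < a ∧ a < 39 / 100) ∨ (41 / 100 < a ∧ a < 58 / 100) ∨
    (62 / 100 < a ∧ a < 3 / 4)) : chi a ≠ 0 := by
  have n1 := hat_nonneg (1 / 4) (39 / 100) a
  have n2 := hat_nonneg (41 / 100) (58 / 100) a
  have n3 := hat_nonneg (62 / 100) (3 / 4) a
  unfold chi
  rcases h with h | h | h
  · have := lt_of_le_of_ne n1 (hat_ne_zero.2 h).symm
    exact ne_of_gt (by linarith)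
  · have := lt_of_le_of_ne n2 (hat_ne_zero.2 h).symm
    exact ne_of_gt (by linarith)
  · have := lt_of_le_of_ne n3 (hat_ne_zero.2 h).symm
    exact ne_of_gt (by linarith)

theorem chi_abs (a : ℝ) : |chi a| ≤ 3 := by
  have n1 := hat_nonneg (1 / 4) (39 / 100) a
  have n2 := hat_nonneg (41 / 100) (58 / 100) a
  have n3 := hat_nonneg (62 / 100) (3 / 4) a
  have m1 := hat_le_one (1 / 4) (39 / 100) a
  have m2 := hat_le_one (41 / 100) (58 / 100) a
  have m3 := hat_le_one (62 / 100) (3 / 4) a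
  unfold chi
  rw [abs_le]
  constructor <;> linarith

/-- the four pieces where nothing is perturbed, and the rest -/
theorem pieces (a : ℝ) : chi a ≠ 0 ∨ a ≤ 1 / 4 ∨ (39 / 100 ≤ a ∧ a ≤ 41 / 100) ∨
    (58 / 100 ≤ a ∧ a ≤ 62 / 100) ∨ 3 / 4 ≤ a := by
  rcases le_or_gt a (1 / 4) with h1 | h1
  · exact Or.inr (Or.inl h1)
  rcases lt_or_ge a (39 / 100) with h2 | h2
  · exact Or.inl (chi_ne (Or.inl ⟨h1, h2⟩))
  rcases le_or_gt a (41 / 100) with h3 | h3
  · exact Or.inr (Or.inr (Or.inl ⟨h2, h3⟩))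
  rcases lt_or_ge a (58 / 100) with h4 | h4
  · exact Or.inl (chi_ne (Or.inr (Or.inl ⟨h3, h4⟩)))
  rcases le_or_gt a (62 / 100) with h5 | h5
  · exact Or.inr (Or.inr (Or.inr (Or.inl ⟨h4, h5⟩)))
  rcases lt_or_ge a (3 / 4) with h6 | h6
  · exact Or.inl (chi_ne (Or.inr (Or.inr ⟨h5, h6⟩)))
  · exact Or.inr (Or.inr (Or.inr (Or.inr h6)))

/-- immersion from one affine coordinate -/
theorem imm_aff {H : ℝ × ℝ → R4} (hH : ContDiff ℝ ∞ H) (t u : ℝ) (l : R4 →L[ℝ] ℝ)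
    {x y c0 c1 : ℝ} (hxy : x < y) (hu : u ∈ Icc x y)
    (h : ∀ r ∈ Icc x y, l (H (t, r)) = c0 + c1 * r) (hc : c1 ≠ 0) :
    fderiv ℝ H (t, u) (0, 1) ≠ 0 := by
  have l1 : HasDerivAt (fun r : ℝ => ((t, r) : ℝ × ℝ)) (0, 1) u :=
    (hasDerivAt_const u t).prodMk (hasDerivAt_id u)
  have h1 : HasDerivAt (fun r => H (t, r)) (fderiv ℝ H (t, u) (0, 1)) u :=
    HasFDerivAt.comp_hasDerivAt_of_eq u ((hH.differentiable (by simp) (t, u)).hasFDerivAt) l1 rfl
  have h2 : HasDerivAt (fun r => l (H (t, r))) (l (fderiv ℝ H (t, u) (0, 1))) u :=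
    l.hasFDerivAt.comp_hasDerivAt u h1
  have h3 : HasDerivAt (fun r : ℝ => c0 + c1 * r) c1 u := by
    simpa using ((hasDerivAt_id u).const_mul c1).const_add c0
  have h4 : HasDerivWithinAt (fun r => l (H (t, r))) c1 (Icc x y) u :=
    h3.hasDerivWithinAt.congr h (h u hu)
  have h5 := ((uniqueDiffOn_Icc hxy) u hu).eq_deriv _ h2.hasDerivWithinAt h4
  intro h0
  rw [h0, map_zero] at h5
  exact hc h5.symm

/-- the unperturbed family -/
noncomputable def hq (q : ℝ → R4) (x : ℝ × ℝ) : R4 :=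
  q x.2 + ((2 * step x.1 - 1) * kap x.2 / 10, 0)

theorem contDiff_hq {q : ℝ → R4} (h : ContDiff ℝ ∞ q) : ContDiff ℝ ∞ (hq q) := by
  have h1 : ContDiff ℝ ∞ (fun x : ℝ × ℝ => q x.2) := h.comp contDiff_snd
  have h2 : ContDiff ℝ ∞ (fun x : ℝ × ℝ => step x.1) :=
    (Real.smoothTransition.contDiff).comp contDiff_fst
  have h3 : ContDiff ℝ ∞ (fun x : ℝ × ℝ => kap x.2) := contDiff_kap.comp contDiff_snd
  have h4 : ContDiff ℝ ∞ (fun x : ℝ × ℝ => (2 * step x.1 - 1) * kap x.2 / 10) :=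
    (((contDiff_const.mul h2).sub contDiff_const).mul h3).div_const _
  exact h1.add (h4.prodMk contDiff_const)

theorem main (d : ℝ) (hd : d = 1 ∨ d = -1) (q : ℝ → R4) (hsq : ContDiff ℝ ∞ q)
    (q0 : ∀ a, a ≤ 1 / 4 → q a = ax a)
    (q1 : ∀ a, 39 / 100 ≤ a → a ≤ 41 / 100 → q a = strd d a)
    (q2 : ∀ a, 58 / 100 ≤ a → a ≤ 62 / 100 → q a = para a)
    (q3 : ∀ a, 3 / 4 ≤ a → q a = ax a)
    (u1 : ∀ a ∈ Icc (1 / 4 : ℝ) (39 / 100), q a ∈ U3)
    (u2 : ∀ a ∈ Icc (41 / 100 : ℝ) (58 / 100), q a ∈ U3)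
    (u3 : ∀ a ∈ Icc (62 / 100 : ℝ) (3 / 4), q a ∈ U3) :
    ∃ H : ℝ × ℝ → R4, ContDiff ℝ ∞ H ∧
    (∀ t a, (a ≤ 1 / 4 ∨ 3 / 4 ≤ a) → H (t, a) = ax a) ∧
    (∀ t a, |a - 2 / 5| ≤ 1 / 100 → H (t, a) = (1 / 2 + d * (a - 2 / 5), pc 1)) ∧
    (∀ t a, |a - 3 / 5| ≤ 3 / 200 → H (t, a) =
      (1 / 2 + ((2 * step t - 1) - (100 * (a - 3 / 5)) ^ 2) / 10,
        ((0 : ℝ), (((1 + 100 * (a - 3 / 5)) / 20 : ℝ) : ℂ)))) ∧
    (∀ t, ∀ a ∈ Ioo (1 / 5 : ℝ) (4 / 5), 1 / 100 < |a - 2 / 5| → 3 / 200 < |a - 3 / 5| →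
      H (t, a) ∈ U3) ∧
    (∀ t, InjOn (fun a => H (t, a)) (Icc (1 / 5) (4 / 5))) ∧
    ∀ t, ∀ a ∈ Icc (1 / 5 : ℝ) (4 / 5), fderiv ℝ H (t, a) (0, 1) ≠ 0 := by
  -- the size of the perturbation
  have hK : IsCompact (q '' (Icc (1 / 4 : ℝ) (39 / 100) ∪ Icc (41 / 100 : ℝ) (58 / 100) ∪
      Icc (62 / 100 : ℝ) (3 / 4))) :=
    ((isCompact_Icc.union isCompact_Icc).union isCompact_Icc).image hsq.continuous
  have hKU : q '' (Icc (1 / 4 : ℝ) (39 / 100) ∪ Icc (41 / 100 : ℝ) (58 / 100) ∪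
      Icc (62 / 100 : ℝ) (3 / 4)) ⊆ U3 := by
    rintro _ ⟨a, (ha | ha) | ha, rfl⟩
    · exact u1 a ha
    · exact u2 a ha
    · exact u3 a ha
  obtain ⟨ε, hε, hth⟩ := hK.exists_thickening_subset_open isOpen_U3 hKU
  have hE : Module.finrank ℝ R4 = 4 := by
    simp [R4, Module.finrank_prod, Complex.finrank_real_complex]
  obtain ⟨v, w, hv, hw, hgp⟩ := exists_genPos (h := hq q) (ρ := fun _ => (1 : ℝ)) (χ := chi)
    (Y := ℂ) hE Complex.finrank_real_complex (contDiff_hq hsq) contDiff_const contDiff_chi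
    (ι := Empty) (κ := Empty) (f := fun i => i.elim) (T := fun i => i.elim)
    (fun i => i.elim) (fun i => i.elim) (g := fun k => k.elim) (fun k => k.elim)
    (ε := ε / 6) (by positivity)
  let H : ℝ × ℝ → R4 := fam (hq q) (fun _ => (1 : ℝ)) chi v w
  have hHdef : ∀ t a, H (t, a) = hq q (t, a) + (1 * chi a) • (v + a • w) := fun t a => rfl
  have hH : ContDiff ℝ ∞ H := by
    have e2 : ContDiff ℝ ∞ (fun x : ℝ × ℝ => chi x.2) := contDiff_chi.comp contDiff_snd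
    exact (contDiff_hq hsq).add ((contDiff_const.mul e2).smul
      (contDiff_const.add (contDiff_snd.smul contDiff_const)))
  have hz : ∀ t a, chi a = 0 → H (t, a) = q a + ((2 * step t - 1) * kap a / 10, 0) := by
    intro t a ha
    rw [hHdef, ha, mul_zero, zero_smul, add_zero]
    rfl
  have hkz : ∀ t a, chi a = 0 → kap a = 0 → H (t, a) = q a := by
    intro t a ha hk
    rw [hz t a ha, hk]
    have e : (((2 * step t - 1) * 0 / 10, 0) : R4) = 0 := by
      rw [mul_zero, zero_div]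
      rfl
    rw [e, add_zero]
  -- the pieces
  have p0 : ∀ t a, a ≤ 1 / 4 → H (t, a) = ax a := fun t a ha => by
    rw [hkz t a (chi_zero (Or.inl ha)) (kap_zero (Or.inl (by linarith))), q0 a ha]
  have p1 : ∀ t a, 39 / 100 ≤ a → a ≤ 41 / 100 → H (t, a) = strd d a := fun t a h1 h2 => by
    rw [hkz t a (chi_zero (Or.inr (Or.inl ⟨h1, h2⟩))) (kap_zero (Or.inl (by linarith))),
      q1 a h1 h2]
  have p2 : ∀ t a, 58 / 100 ≤ a → a ≤ 62 / 100 →
      H (t, a) = para a + ((2 * step t - 1) * kap a / 10, 0) := fun t a h1 h2 => by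
    rw [hz t a (chi_zero (Or.inr (Or.inr (Or.inl ⟨h1, h2⟩)))), q2 a h1 h2]
  have p3 : ∀ t a, 3 / 4 ≤ a → H (t, a) = ax a := fun t a ha => by
    rw [hkz t a (chi_zero (Or.inr (Or.inr (Or.inr ha)))) (kap_zero (Or.inr (by linarith))),
      q3 a ha]
  have pU : ∀ t a, a ∈ Icc (1 / 4 : ℝ) (39 / 100) ∪ Icc (41 / 100 : ℝ) (58 / 100) ∪
      Icc (62 / 100 : ℝ) (3 / 4) → H (t, a) ∈ U3 := by
    intro t a ha
    apply hth
    rw [Metric.mem_thickening_iff]
    refine ⟨q a, ⟨a, ha, rfl⟩, ?_⟩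
    have hk : kap a = 0 := by
      rcases ha with (ha | ha) | ha
      · exact kap_zero (Or.inl (by linarith [ha.2]))
      · exact kap_zero (Or.inl ha.2)
      · exact kap_zero (Or.inr ha.1)
    have hab : |a| ≤ 1 := by
      rw [abs_le]
      rcases ha with (ha | ha) | ha
      · exact ⟨by linarith [ha.1], by linarith [ha.2]⟩
      · exact ⟨by linarith [ha.1], by linarith [ha.2]⟩
      · exact ⟨by linarith [ha.1], by linarith [ha.2]⟩
    have e1 : H (t, a) - q a = (1 * chi a) • (v + a • w) := by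
      have e : hq q (t, a) = q a := by
        change q a + ((2 * step t - 1) * kap a / 10, 0) = q a
        rw [hk]
        have e : (((2 * step t - 1) * 0 / 10, 0) : R4) = 0 := by
          rw [mul_zero, zero_div]
          rfl
        rw [e, add_zero]
      rw [hHdef, e, add_sub_cancel_left]
    rw [dist_eq_norm, e1, norm_smul, one_mul, Real.norm_eq_abs]
    have e2 : ‖v + a • w‖ ≤ ‖v‖ + ‖w‖ := by
      refine (norm_add_le _ _).trans ?_
      rw [norm_smul, Real.norm_eq_abs]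
      have := mul_le_mul_of_nonneg_right hab (norm_nonneg w)
      linarith
    have e3 := mul_le_mul (chi_abs a) e2 (norm_nonneg _) (by norm_num : (0 : ℝ) ≤ 3)
    linarith
  have rho : ∀ t : ℝ, (fun _ : ℝ => (1 : ℝ)) t ≠ 0 := fun _ => one_ne_zero
  -- the coordinate `a` of the pieces
  have c0 : ∀ t a, a ≤ 1 / 4 → (H (t, a)).2.1 = a := fun t a ha => by rw [p0 t a ha]; rfl
  have c1 : ∀ t a, 39 / 100 ≤ a → a ≤ 41 / 100 → (H (t, a)).2.1 = 1 := fun t a h1 h2 => by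
    rw [p1 t a h1 h2]; rfl
  have c2 : ∀ t a, 58 / 100 ≤ a → a ≤ 62 / 100 → (H (t, a)).2.1 = 0 := fun t a h1 h2 => by
    rw [p2 t a h1 h2]
    change (0 : ℝ) + 0 = 0
    rw [add_zero]
  have c3 : ∀ t a, 3 / 4 ≤ a → (H (t, a)).2.1 = a := fun t a ha => by rw [p3 t a ha]; rfl
  have s1 : ∀ t a, 39 / 100 ≤ a → a ≤ 41 / 100 → (H (t, a)).1 = 1 / 2 + d * (a - 2 / 5) :=
    fun t a h1 h2 => by rw [p1 t a h1 h2]; rfl
  have w2 : ∀ t a, 58 / 100 ≤ a → a ≤ 62 / 100 →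
      (H (t, a)).2.2.re = (1 + 100 * (a - 3 / 5)) / 20 := fun t a h1 h2 => by
    rw [p2 t a h1 h2]
    change (((((1 + 100 * (a - 3 / 5)) / 20 : ℝ) : ℂ)) + 0).re = _
    rw [add_zero, Complex.ofReal_re]
  have hd0 : d ≠ 0 := by
    rcases hd with h | h
    · rw [h]; norm_num
    · rw [h]; norm_num
  refine ⟨H, hH, ?_, ?_, ?_, ?_, ?_, ?_⟩
  · rintro t a (h | h)
    · exact p0 t a h
    · exact p3 t a h
  · intro t a h
    rw [abs_le] at h
    exact p1 t a (by linarith [h.1]) (by linarith [h.2])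
  · intro t a h
    have h' := abs_le.1 h
    rw [p2 t a (by linarith [h'.1]) (by linarith [h'.2]), kap_one h]
    refine Prod.ext ?_ (Prod.ext ?_ ?_)
    · change 1 / 2 - (100 * (a - 3 / 5)) ^ 2 / 10 + (2 * step t - 1) * 1 / 10 =
        1 / 2 + ((2 * step t - 1) - (100 * (a - 3 / 5)) ^ 2) / 10
      ring
    · change (0 : ℝ) + 0 = 0
      rw [add_zero]
    · change (((1 + 100 * (a - 3 / 5)) / 20 : ℝ) : ℂ) + 0 = _
      rw [add_zero]
  · intro t a ha h1 h2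
    rcases le_or_gt a (1 / 4) with g1 | g1
    · rw [p0 t a g1]
      exact Or.inr ⟨ha.1, by change a < 4 / 5; linarith⟩
    rcases le_or_gt (3 / 4) a with g6 | g6
    · rw [p3 t a g6]
      exact Or.inr ⟨by change 1 / 5 < a; linarith, ha.2⟩
    rcases le_or_gt a (39 / 100) with g2 | g2
    · exact pU t a (Or.inl (Or.inl ⟨g1.le, g2⟩))
    rcases le_or_gt (62 / 100) a with g5 | g5
    · exact pU t a (Or.inr ⟨g5, g6.le⟩)
    rcases lt_or_ge a (41 / 100) with g3 | g3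
    · exfalso
      have : |a - 2 / 5| < 1 / 100 := by
        rw [abs_lt]
        constructor <;> linarith
      linarith
    rcases le_or_gt a (58 / 100) with g4 | g4
    · exact pU t a (Or.inl (Or.inr ⟨g3, g4⟩))
    · refine Or.inl (ne_of_lt ?_)
      rw [p2 t a g4.le g5.le]
      change 1 / 2 - (100 * (a - 3 / 5)) ^ 2 / 10 + (2 * step t - 1) * kap a / 10 < 1 / 2
      have k1 := kap_mem a
      have k2 : (2 * step t - 1) * kap a ≤ 1 := by
        have k3 : step t ≤ 1 := Real.smoothTransition.le_one t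
        nlinarith [k1.1, k1.2]
      have k4 : 1 < (100 * (a - 3 / 5)) ^ 2 := by
        rw [lt_abs] at h2
        rcases h2 with h2 | h2
        · nlinarith
        · nlinarith
      linarith
  · intro t u hu u' hu' he
    by_contra hne
    have he' : H (t, u) = H (t, u') := he
    rcases pieces u with k | k
    · exact hgp.inj t u u' (rho t) hne (Or.inl k) he'
    rcases pieces u' with k' | k'
    · exact hgp.inj t u u' (rho t) hne (Or.inr k') he'
    have ea : (H (t, u)).2.1 = (H (t, u')).2.1 := by rw [he']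
    have es : (H (t, u)).1 = (H (t, u')).1 := by rw [he']
    have ew : (H (t, u)).2.2.re = (H (t, u')).2.2.re := by rw [he']
    rcases k with k | k | k | k
    · rw [c0 t u k] at ea
      rcases k' with k' | k' | k' | k'
      · rw [c0 t u' k'] at ea; exact hne ea
      · rw [c1 t u' k'.1 k'.2] at ea; linarith
      · rw [c2 t u' k'.1 k'.2] at ea; linarith [hu.1]
      · rw [c3 t u' k'] at ea; linarith
    · rw [c1 t u k.1 k.2] at ea
      rcases k' with k' | k' | k' | k'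
      · rw [c0 t u' k'] at ea; linarith
      · rw [s1 t u k.1 k.2, s1 t u' k'.1 k'.2] at es
        have e5 : d * (u - 2 / 5) = d * (u' - 2 / 5) := by linarith
        have e6 := mul_left_cancel₀ hd0 e5
        exact hne (by linarith)
      · rw [c2 t u' k'.1 k'.2] at ea; linarith
      · rw [c3 t u' k'] at ea; linarith [hu'.2]
    · rw [c2 t u k.1 k.2] at ea
      rcases k' with k' | k' | k' | k'
      · rw [c0 t u' k'] at ea; linarith [hu'.1]
      · rw [c1 t u' k'.1 k'.2] at ea; linarith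
      · rw [w2 t u k.1 k.2, w2 t u' k'.1 k'.2] at ew
        exact hne (by linarith)
      · rw [c3 t u' k'] at ea; linarith
    · rw [c3 t u k] at ea
      rcases k' with k' | k' | k' | k'
      · rw [c0 t u' k'] at ea; linarith
      · rw [c1 t u' k'.1 k'.2] at ea; linarith [hu.2]
      · rw [c2 t u' k'.1 k'.2] at ea; linarith
      · rw [c3 t u' k'] at ea; exact hne ea
  · intro t u hu
    rcases pieces u with k | k | k | k | k
    · exact hgp.imm t u (rho t) k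
    · refine imm_aff hH t u ((ContinuousLinearMap.fst ℝ ℝ ℂ).comp
        (ContinuousLinearMap.snd ℝ ℝ (ℝ × ℂ))) (x := 1 / 5) (y := 1 / 4) (c0 := 0) (c1 := 1)
        (by norm_num) ⟨hu.1, k⟩ (fun r hr => ?_) one_ne_zero
      change (H (t, r)).2.1 = _
      rw [c0 t r hr.2]
      ring
    · refine imm_aff hH t u (ContinuousLinearMap.fst ℝ ℝ (ℝ × ℂ)) (x := 39 / 100)
        (y := 41 / 100) (c0 := 1 / 2 - d * (2 / 5)) (c1 := d)
        (by norm_num) k (fun r hr => ?_) hd0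
      change (H (t, r)).1 = _
      rw [s1 t r hr.1 hr.2]
      ring
    · refine imm_aff hH t u (Complex.reCLM.comp ((ContinuousLinearMap.snd ℝ ℝ ℂ).comp
        (ContinuousLinearMap.snd ℝ ℝ (ℝ × ℂ)))) (x := 58 / 100)
        (y := 62 / 100) (c0 := -59 / 20) (c1 := 5)
        (by norm_num) k (fun r hr => ?_) (by norm_num)
      change (H (t, r)).2.2.re = _
      rw [w2 t r hr.1 hr.2]
      ring
    · refine imm_aff hH t u ((ContinuousLinearMap.fst ℝ ℝ ℂ).comp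
        (ContinuousLinearMap.snd ℝ ℝ (ℝ × ℂ))) (x := 3 / 4) (y := 4 / 5) (c0 := 0) (c1 := 1)
        (by norm_num) ⟨k, hu.2⟩ (fun r hr => ?_) one_ne_zero
      change (H (t, r)).2.1 = _
      rw [c3 t r hr.1]
      ring

end ARC3

open ARC3 in
theorem m_ARC3 (hPATH : StPATH) : StARC3 := by
  intro d hd
  have hd0 : d ≠ 0 := by
    rcases hd with h | h
    · rw [h]; norm_num
    · rw [h]; norm_num
  have uax : ∀ a : ℝ, 1 / 5 < a → a < 4 / 5 → ax a ∈ U3 := fun a h1 h2 => Or.inr ⟨h1, h2⟩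
  have ustr : ∀ a : ℝ, a ≠ 2 / 5 → strd d a ∈ U3 := by
    intro a ha
    refine Or.inl ?_
    change 1 / 2 + d * (a - 2 / 5) ≠ 1 / 2
    intro h
    have h1 : d * (a - 2 / 5) = 0 := by linarith
    rcases mul_eq_zero.1 h1 with h2 | h2
    · exact hd0 h2
    · exact ha (by linarith)
  have upar : ∀ a : ℝ, a ≠ 3 / 5 → para a ∈ U3 := by
    intro a ha
    refine Or.inl ?_
    change 1 / 2 - (100 * (a - 3 / 5)) ^ 2 / 10 ≠ 1 / 2
    intro h
    have h1 : (a - 3 / 5) ^ 2 = 0 := by nlinarith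
    have h2 : a - 3 / 5 = 0 := by
      exact pow_eq_zero_iff (two_ne_zero) |>.1 h1
    exact ha (by linarith)
  obtain ⟨k1, s1, l1, r1, m1⟩ := hPATH U3 (1 / 4) (39 / 100) (1 / 1000) (fun a => ax a) (strd d)
    isOpen_U3 isPreconnected_U3 (by norm_num) (by norm_num) contDiff_ax (contDiff_strd d)
    (fun a ha => uax a (by linarith [ha.1]) (by linarith [ha.2]))
    (fun a ha => ustr a (by intro h; rw [h] at ha; linarith [ha.2]))
  obtain ⟨k2, s2, l2, r2, m2⟩ := hPATH U3 (41 / 100) (58 / 100) (1 / 1000) (strd d) para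
    isOpen_U3 isPreconnected_U3 (by norm_num) (by norm_num) (contDiff_strd d) contDiff_para
    (fun a ha => ustr a (by intro h; rw [h] at ha; linarith [ha.1]))
    (fun a ha => upar a (by intro h; rw [h] at ha; linarith [ha.2]))
  obtain ⟨k3, s3, l3, r3, m3⟩ := hPATH U3 (62 / 100) (3 / 4) (1 / 1000) para (fun a => ax a)
    isOpen_U3 isPreconnected_U3 (by norm_num) (by norm_num) contDiff_para contDiff_ax
    (fun a ha => upar a (by intro h; rw [h] at ha; linarith [ha.1]))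
    (fun a ha => uax a (by linarith [ha.1]) (by linarith [ha.2]))
  let q : ℝ → R4 := fun a => k1 a + k2 a + k3 a - strd d a - para a
  have hq' : ∀ a, q a = k1 a + k2 a + k3 a - strd d a - para a := fun a => rfl
  have e1 : ∀ a, a ≤ 39 / 100 → q a = k1 a := fun a ha => by
    rw [hq', l2 a (by linarith), l3 a (by linarith)]
    abel
  have e2 : ∀ a, 39 / 100 ≤ a → a ≤ 58 / 100 → q a = k2 a := fun a h1 h2 => by
    rw [hq', r1 a (by linarith), l3 a (by linarith)]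
    abel
  have e3 : ∀ a, 58 / 100 ≤ a → q a = k3 a := fun a ha => by
    rw [hq', r1 a (by linarith), r2 a (by linarith)]
    abel
  refine main d hd q ((((s1.add s2).add s3).sub (contDiff_strd d)).sub contDiff_para)
    ?_ ?_ ?_ ?_ ?_ ?_ ?_
  · intro a ha
    rw [e1 a (by linarith), l1 a (by linarith)]
  · intro a h1 h2
    rw [e2 a h1 (by linarith), l2 a (by linarith)]
  · intro a h1 h2
    rw [e3 a h1, l3 a (by linarith)]
  · intro a ha
    rw [e3 a (by linarith), r3 a (by linarith)]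
  · intro a ha
    rw [e1 a ha.2]
    exact m1 a ha
  · intro a ha
    rw [e2 a (by linarith [ha.1]) ha.2]
    exact m2 a ha
  · intro a ha
    rw [e3 a (by linarith [ha.1])]
    exact m3 a ha

end Pool.Agent.Helper70.BI


end

/-! ## Helper70.BI.M_ROT -/

section

/-!
# Project BI, part (E): module ROT (rotation about `sph 1`)
-/

set_option autoImplicit false

open scoped Manifold ContDiff Topology ComplexConjugate
open Set Filter Pool.Agent.Helper65.Barb Pool.Agent.Helper18.BI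

namespace Pool.Agent.Helper70.BI

namespace ROT

/-- the distance from the vertical line through the centre -/
noncomputable def rho (p : R4) : ℝ := √(rsq 1 p)

/-- the angle -/
noncomputable def th (d ε t : ℝ) (p : R4) : ℝ :=
  2 * Real.pi * d * t * step (4 / 3 * (1 - tr p / ε ^ 2))

/-- the rotation by the angle `θ` -/
noncomputable def fo (θ : ℝ) (p : R4) : R4 :=
  (1 / 2 + (Real.cos θ * (p.1 - 1 / 2) - Real.sin θ * (rho p - 1 / 5)),
    pc 1 + ((1 / 5 + (Real.sin θ * (p.1 - 1 / 2) + Real.cos θ * (rho p - 1 / 5))) / rho p) •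
      (p.2 - pc 1))

open Classical in
/-- the family -/
noncomputable def Rf (d ε : ℝ) (z : ℝ × R4) : R4 :=
  if 1 / 10 < rho z.2 then fo (th d ε z.1 z.2) z.2 else z.2

theorem tr_def (p : R4) : tr p = (p.1 - 1 / 2) ^ 2 + (rho p - 1 / 5) ^ 2 := rfl

theorem rho_nonneg (p : R4) : 0 ≤ rho p := Real.sqrt_nonneg _

theorem rho_sq (p : R4) : rho p ^ 2 = rsq 1 p := Real.sq_sqrt (rsq_nonneg 1 p)

theorem rsq_eq_nsq (p : R4) : rsq 1 p = nsq (p.2 - pc 1) := by
  simp [rsq, nsq, pc]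

theorem nsq_smul_ROT (k : ℝ) (x : R3) : nsq (k • x) = k ^ 2 * nsq x := by
  simp only [nsq, Prod.smul_fst, Prod.smul_snd, smul_eq_mul, Complex.smul_re, Complex.smul_im]
  ring

theorem fo_zero {p : R4} (h : 0 < rho p) : fo 0 p = p := by
  have h1 : (1 / 5 + (Real.sin 0 * (p.1 - 1 / 2) + Real.cos 0 * (rho p - 1 / 5))) / rho p = 1 := by
    rw [Real.sin_zero, Real.cos_zero]
    have : 1 / 5 + (0 * (p.1 - 1 / 2) + 1 * (rho p - 1 / 5)) = rho p := by ring
    rw [this, div_self h.ne']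
  unfold fo
  rw [h1, one_smul, Real.sin_zero, Real.cos_zero]
  refine Prod.ext ?_ ?_
  · change 1 / 2 + (1 * (p.1 - 1 / 2) - 0 * (rho p - 1 / 5)) = p.1
    ring
  · change pc 1 + (p.2 - pc 1) = p.2
    abel

theorem rho_fo {θ : ℝ} {p : R4} (h : 0 < rho p)
    (hw : 0 ≤ 1 / 5 + (Real.sin θ * (p.1 - 1 / 2) + Real.cos θ * (rho p - 1 / 5))) :
    rho (fo θ p) = 1 / 5 + (Real.sin θ * (p.1 - 1 / 2) + Real.cos θ * (rho p - 1 / 5)) := by
  have h1 : rsq 1 (fo θ p) =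
      (1 / 5 + (Real.sin θ * (p.1 - 1 / 2) + Real.cos θ * (rho p - 1 / 5))) ^ 2 := by
    rw [rsq_eq_nsq]
    have h2 : (fo θ p).2 - pc 1 =
        ((1 / 5 + (Real.sin θ * (p.1 - 1 / 2) + Real.cos θ * (rho p - 1 / 5))) / rho p) •
          (p.2 - pc 1) := add_sub_cancel_left _ _
    rw [h2, nsq_smul_ROT, ← rsq_eq_nsq, ← rho_sq, div_pow, div_mul_cancel₀ _ (pow_ne_zero 2 h.ne')]
  change √(rsq 1 (fo θ p)) = _
  rw [h1, Real.sqrt_sq hw]

theorem tr_fo {θ : ℝ} {p : R4} (h : 0 < rho p)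
    (hw : 0 ≤ 1 / 5 + (Real.sin θ * (p.1 - 1 / 2) + Real.cos θ * (rho p - 1 / 5))) :
    tr (fo θ p) = tr p := by
  rw [tr_def, tr_def, rho_fo h hw]
  have h1 : (fo θ p).1 = 1 / 2 + (Real.cos θ * (p.1 - 1 / 2) - Real.sin θ * (rho p - 1 / 5)) := rfl
  rw [h1]
  linear_combination ((p.1 - 1 / 2) ^ 2 + (rho p - 1 / 5) ^ 2) * Real.sin_sq_add_cos_sq θ

theorem fo_fo {θ : ℝ} {p : R4} (h : 0 < rho p)
    (hw : 0 < 1 / 5 + (Real.sin θ * (p.1 - 1 / 2) + Real.cos θ * (rho p - 1 / 5))) :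
    fo (-θ) (fo θ p) = p := by
  have h0 := rho_fo h hw.le
  have h1 : (fo θ p).1 = 1 / 2 + (Real.cos θ * (p.1 - 1 / 2) - Real.sin θ * (rho p - 1 / 5)) := rfl
  have h2 : (fo θ p).2 - pc 1 =
      ((1 / 5 + (Real.sin θ * (p.1 - 1 / 2) + Real.cos θ * (rho p - 1 / 5))) / rho p) •
        (p.2 - pc 1) := add_sub_cancel_left _ _
  have hs := Real.sin_sq_add_cos_sq θ
  have e1 : Real.cos (-θ) * ((fo θ p).1 - 1 / 2) - Real.sin (-θ) * (rho (fo θ p) - 1 / 5) =
      p.1 - 1 / 2 := by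
    rw [Real.cos_neg, Real.sin_neg, h0, h1]
    linear_combination (p.1 - 1 / 2) * hs
  have e2 : Real.sin (-θ) * ((fo θ p).1 - 1 / 2) + Real.cos (-θ) * (rho (fo θ p) - 1 / 5) =
      rho p - 1 / 5 := by
    rw [Real.cos_neg, Real.sin_neg, h0, h1]
    linear_combination (rho p - 1 / 5) * hs
  have e3 : fo (-θ) (fo θ p) = (1 / 2 + (Real.cos (-θ) * ((fo θ p).1 - 1 / 2) -
      Real.sin (-θ) * (rho (fo θ p) - 1 / 5)), pc 1 + ((1 / 5 + (Real.sin (-θ) * ((fo θ p).1 - 1 / 2) +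
        Real.cos (-θ) * (rho (fo θ p) - 1 / 5))) / rho (fo θ p)) • ((fo θ p).2 - pc 1)) := rfl
  rw [e3, e1, e2, h0, h2, smul_smul]
  have e4 : (1 / 5 + (rho p - 1 / 5)) /
      (1 / 5 + (Real.sin θ * (p.1 - 1 / 2) + Real.cos θ * (rho p - 1 / 5))) *
      ((1 / 5 + (Real.sin θ * (p.1 - 1 / 2) + Real.cos θ * (rho p - 1 / 5))) / rho p) = 1 := by
    have : 1 / 5 + (rho p - 1 / 5) = rho p := by ring
    rw [this, div_mul_div_cancel₀ hw.ne', div_self h.ne']
  rw [e4, one_smul]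
  refine Prod.ext ?_ ?_
  · change 1 / 2 + (p.1 - 1 / 2) = p.1
    ring
  · change pc 1 + (p.2 - pc 1) = p.2
    abel

theorem w_pos {p : R4} (θ : ℝ) (h : tr p < (1 / 20) ^ 2) :
    1 / 10 < 1 / 5 + (Real.sin θ * (p.1 - 1 / 2) + Real.cos θ * (rho p - 1 / 5)) := by
  rw [tr_def] at h
  have hs := Real.sin_sq_add_cos_sq θ
  have h1 : (Real.sin θ * (p.1 - 1 / 2) + Real.cos θ * (rho p - 1 / 5)) ^ 2 < (1 / 20) ^ 2 := by
    have h2 : (Real.sin θ * (p.1 - 1 / 2) + Real.cos θ * (rho p - 1 / 5)) ^ 2 +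
        (Real.cos θ * (p.1 - 1 / 2) - Real.sin θ * (rho p - 1 / 5)) ^ 2 =
        (p.1 - 1 / 2) ^ 2 + (rho p - 1 / 5) ^ 2 := by
      linear_combination ((p.1 - 1 / 2) ^ 2 + (rho p - 1 / 5) ^ 2) * hs
    have h3 := sq_nonneg (Real.cos θ * (p.1 - 1 / 2) - Real.sin θ * (rho p - 1 / 5))
    linarith
  have h3 := (abs_lt_of_sq_lt_sq' h1 (by norm_num)).1
  linarith

theorem rho_of_tr {p : R4} (h : tr p < (1 / 20) ^ 2) : 3 / 20 < rho p := by
  rw [tr_def] at h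
  have h2 := sq_nonneg (p.1 - 1 / 2)
  have h1 : (rho p - 1 / 5) ^ 2 < (1 / 20) ^ 2 := by linarith
  have h3 := (abs_lt_of_sq_lt_sq' h1 (by norm_num)).1
  linarith

section
variable {d ε : ℝ}

theorem sq_lt (hε : ε ∈ Ioo (0 : ℝ) (1 / 20)) : ε ^ 2 < (1 / 20) ^ 2 :=
  pow_lt_pow_left₀ hε.2 hε.1.le two_ne_zero

theorem th_of_ge (hε : ε ∈ Ioo (0 : ℝ) (1 / 20)) (t : ℝ) {p : R4} (h : ε ^ 2 ≤ tr p) :
    th d ε t p = 0 := by
  have h1 : 1 ≤ tr p / ε ^ 2 := (one_le_div (pow_pos hε.1 2)).2 h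
  unfold th
  rw [step_of_nonpos (by linarith), mul_zero]

theorem Rf_fix (hε : ε ∈ Ioo (0 : ℝ) (1 / 20)) (t : ℝ) {p : R4} (h : ε ^ 2 ≤ tr p) :
    Rf d ε (t, p) = p := by
  unfold Rf
  split_ifs with h1
  · change fo (th d ε t p) p = p
    rw [th_of_ge hε t h]
    exact fo_zero (lt_trans (by norm_num) h1)
  · rfl

theorem Rf_in (hε : ε ∈ Ioo (0 : ℝ) (1 / 20)) (t : ℝ) {p : R4} (h : tr p < ε ^ 2) :
    Rf d ε (t, p) = fo (th d ε t p) p := by
  unfold Rf
  exact if_pos (lt_trans (by norm_num) (rho_of_tr (h.trans (sq_lt hε))))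

theorem tr_Rf (hε : ε ∈ Ioo (0 : ℝ) (1 / 20)) (t : ℝ) (p : R4) : tr (Rf d ε (t, p)) = tr p := by
  rcases lt_or_ge (tr p) (ε ^ 2) with h | h
  · rw [Rf_in hε t h]
    have h' := h.trans (sq_lt hε)
    exact tr_fo (lt_trans (by norm_num) (rho_of_tr h')) (le_trans (by norm_num) (w_pos _ h').le)
  · rw [Rf_fix hε t h]

theorem th_neg (t : ℝ) (p : R4) : th (-d) ε t p = -th d ε t p := by
  unfold th
  ring

theorem Rf_inv (hε : ε ∈ Ioo (0 : ℝ) (1 / 20)) (t : ℝ) (p : R4) :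
    Rf (-d) ε (t, Rf d ε (t, p)) = p := by
  rcases lt_or_ge (tr p) (ε ^ 2) with h | h
  · have h' := h.trans (sq_lt hε)
    have ht := tr_Rf (d := d) hε t p
    rw [Rf_in hε t (by rw [ht]; exact h), th_neg]
    have h2 : th d ε t (Rf d ε (t, p)) = th d ε t p := by
      unfold th
      rw [ht]
    rw [h2, Rf_in hε t h]
    exact fo_fo (lt_trans (by norm_num) (rho_of_tr h')) (lt_trans (by norm_num) (w_pos _ h'))
  · rw [Rf_fix hε t h, Rf_fix hε t h]

theorem continuous_rho : Continuous rho := (continuous_rsq 1).sqrt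

theorem contDiffAt_rho {p : R4} (h : 0 < rho p) : ContDiffAt ℝ ∞ rho p :=
  (contDiff_rsq 1).contDiffAt.sqrt (Real.sqrt_pos.1 h).ne'

theorem contDiff_Rf (hε : ε ∈ Ioo (0 : ℝ) (1 / 20)) : ContDiff ℝ ∞ (Rf d ε) := by
  rw [contDiff_iff_contDiffAt]
  intro z
  have hc : Continuous (fun z : ℝ × R4 => rho z.2) := continuous_rho.comp continuous_snd
  rcases lt_or_ge (1 / 10) (rho z.2) with h | h
  · have h0 : 0 < rho z.2 := lt_trans (by norm_num) h
    have c1 : ContDiffAt ℝ ∞ (fun z : ℝ × R4 => rho z.2) z :=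
      ContDiffAt.comp (g := rho) z (contDiffAt_rho h0) contDiffAt_snd
    have c2 : ContDiffAt ℝ ∞ (fun z : ℝ × R4 => z.2.1) z := contDiffAt_snd.fst
    have c3 : ContDiffAt ℝ ∞ (fun z : ℝ × R4 => tr z.2) z :=
      ((c2.sub contDiffAt_const).pow 2).add ((c1.sub contDiffAt_const).pow 2)
    have c4 : ContDiffAt ℝ ∞ (fun z : ℝ × R4 => th d ε z.1 z.2) z :=
      (contDiffAt_const.mul contDiffAt_fst).mul (ContDiffAt.comp z contDiff_step.contDiffAt
        (contDiffAt_const.mul (contDiffAt_const.sub (c3.div_const _))))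
    have c5 : ContDiffAt ℝ ∞ (fun z : ℝ × R4 => Real.cos (th d ε z.1 z.2)) z := c4.cos
    have c6 : ContDiffAt ℝ ∞ (fun z : ℝ × R4 => Real.sin (th d ε z.1 z.2)) z := c4.sin
    have c7 : ContDiffAt ℝ ∞ (fun z : ℝ × R4 => z.2.2 - pc 1) z :=
      contDiffAt_snd.snd.sub contDiffAt_const
    have c8 : ContDiffAt ℝ ∞ (fun z : ℝ × R4 => fo (th d ε z.1 z.2) z.2) z :=
      (contDiffAt_const.add ((c5.mul (c2.sub contDiffAt_const)).sub
        (c6.mul (c1.sub contDiffAt_const)))).prodMk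
        (contDiffAt_const.add (((contDiffAt_const.add ((c6.mul (c2.sub contDiffAt_const)).add
          (c5.mul (c1.sub contDiffAt_const)))).div c1 h0.ne').smul c7))
    refine c8.congr_of_eventuallyEq ?_
    filter_upwards [hc.continuousAt.eventually (lt_mem_nhds h)] with y hy
    exact if_pos hy
  · have h1 : rho z.2 < 3 / 20 := lt_of_le_of_lt h (by norm_num)
    refine (contDiffAt_snd (𝕜 := ℝ)).congr_of_eventuallyEq ?_
    filter_upwards [hc.continuousAt.eventually (gt_mem_nhds h1)] with y hy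
    have h2 : ε ^ 2 ≤ tr y.2 := by
      by_contra h3
      rw [not_le] at h3
      have := rho_of_tr (h3.trans (sq_lt hε))
      linarith
    exact Rf_fix (d := d) hε y.1 h2

/-- the family of diffeomorphisms -/
noncomputable def fam (d ε : ℝ) (hε : ε ∈ Ioo (0 : ℝ) (1 / 20)) : DFam I4 R4 where
  f := Rf d ε
  g := Rf (-d) ε
  smooth_f := contMDiff_of_contDiff (contDiff_Rf hε)
  smooth_g := contMDiff_of_contDiff (contDiff_Rf hε)
  fg t x := by
    have := Rf_inv (d := -d) hε t x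
    rwa [neg_neg] at this
  gf t x := Rf_inv hε t x

/-! ### the axis -/

theorem rho_ax {a : ℝ} (ha : a < 1) : rho (ax a) = 1 - a := by
  have h : rsq 1 (ax a) = (1 - a) ^ 2 := by
    simp only [rsq, nsq, ax, Complex.zero_re, Complex.zero_im]
    ring
  unfold rho
  rw [h, Real.sqrt_sq (by linarith)]

theorem tr_ax {a : ℝ} (ha : a < 1) : tr (ax a) = (4 / 5 - a) ^ 2 := by
  rw [tr_def, rho_ax ha]
  simp only [ax]
  ring

/-- the angle on the axis -/
noncomputable def T (d ε a : ℝ) : ℝ :=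
  2 * Real.pi * d * step (4 / 3 * (1 - (4 / 5 - a) ^ 2 / ε ^ 2))

theorem Rf_ax (hε : ε ∈ Ioo (0 : ℝ) (1 / 20)) {a : ℝ} (ha : a ∈ Ioo (4 / 5 - ε) (4 / 5 : ℝ)) :
    Rf d ε (1, ax a) = (1 / 2 - Real.sin (T d ε a) * (4 / 5 - a),
      ((4 / 5 - Real.cos (T d ε a) * (4 / 5 - a) : ℝ), (0 : ℂ))) := by
  have ha1 : a < 1 := by linarith [ha.2]
  have ht : tr (ax a) < ε ^ 2 := by
    rw [tr_ax ha1]
    exact pow_lt_pow_left₀ (by linarith [ha.1]) (by linarith [ha.2]) two_ne_zero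
  have hT : th d ε 1 (ax a) = T d ε a := by
    unfold th T
    rw [tr_ax ha1, mul_one]
  rw [Rf_in hε 1 ht, hT]
  unfold fo
  rw [rho_ax ha1]
  have hne : (1 - a) ≠ 0 := by linarith
  refine Prod.ext ?_ (Prod.ext ?_ ?_)
  · simp only [ax]
    ring
  · simp only [ax, pc, Prod.fst_add, Prod.smul_fst, Prod.fst_sub, smul_eq_mul]
    field_simp
    ring
  · simp [ax, pc]

theorem step_half : step (1 / 2) = 1 / 2 := by
  have h := step_symm (1 / 2)
  have h1 : (1 : ℝ) - 1 / 2 = 1 / 2 := by norm_num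
  rw [h1] at h
  linarith

theorem glue_pos {x : ℝ} (h : 0 < x) : expNegInvGlue x = Real.exp (-x⁻¹) := by
  unfold expNegInvGlue
  exact if_neg (not_le.2 h)

theorem step_eq_half {x : ℝ} (h : step x = 1 / 2) : x = 1 / 2 := by
  have h0 : 0 < x := by
    by_contra h1
    rw [step_of_nonpos (not_lt.1 h1)] at h
    norm_num at h
  have h1 : x < 1 := by
    by_contra h1
    rw [step_of_one_le (not_lt.1 h1)] at h
    norm_num at h
  have hd := Real.smoothTransition.pos_denom x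
  unfold step Real.smoothTransition at h
  rw [div_eq_iff hd.ne'] at h
  have h2 : expNegInvGlue x = expNegInvGlue (1 - x) := by linarith
  rw [glue_pos h0, glue_pos (by linarith : (0 : ℝ) < 1 - x), Real.exp_eq_exp, neg_inj, inv_inj] at h2
  linarith

theorem hasDerivAt_step_half : HasDerivAt step 2 (1 / 2) := by
  have hf : HasDerivAt expNegInvGlue (4 * Real.exp (-2)) (1 / 2) := by
    have h1 : HasDerivAt (fun x : ℝ => Real.exp (-x⁻¹)) (4 * Real.exp (-2)) (1 / 2) := by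
      have h2 : HasDerivAt (fun x : ℝ => -x⁻¹) 4 (1 / 2) :=
        (hasDerivAt_inv (x := (1 / 2 : ℝ)) (by norm_num)).neg.congr_deriv (by norm_num)
      refine h2.exp.congr_deriv ?_
      rw [show (-(1 / 2 : ℝ)⁻¹) = -2 by norm_num, mul_comm]
    refine h1.congr_of_eventuallyEq ?_
    filter_upwards [lt_mem_nhds (show (0 : ℝ) < 1 / 2 by norm_num)] with x hx
    exact glue_pos hx
  have hval : expNegInvGlue (1 / 2) = Real.exp (-2) := by
    rw [glue_pos (by norm_num)]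
    norm_num
  have hg : HasDerivAt (fun x : ℝ => expNegInvGlue (1 - x)) (-(4 * Real.exp (-2))) (1 / 2) := by
    have h1 : (1 : ℝ) - 1 / 2 = 1 / 2 := by norm_num
    have h2 : HasDerivAt expNegInvGlue (4 * Real.exp (-2)) ((fun x : ℝ => 1 - x) (1 / 2)) := by
      change HasDerivAt expNegInvGlue (4 * Real.exp (-2)) (1 - 1 / 2)
      rw [h1]
      exact hf
    have h3 := h2.comp (1 / 2 : ℝ) ((hasDerivAt_id (1 / 2 : ℝ)).const_sub 1)
    exact h3.congr_deriv (by ring)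
  have hd := Real.smoothTransition.pos_denom (1 / 2 : ℝ)
  have h5 : HasDerivAt step ((4 * Real.exp (-2) * (expNegInvGlue (1 / 2) + expNegInvGlue (1 - 1 / 2)) -
      expNegInvGlue (1 / 2) * (4 * Real.exp (-2) + -(4 * Real.exp (-2)))) /
      (expNegInvGlue (1 / 2) + expNegInvGlue (1 - 1 / 2)) ^ 2) (1 / 2) :=
    hf.div (hf.add hg) hd.ne'
  refine h5.congr_deriv ?_
  have h1 : (1 : ℝ) - 1 / 2 = 1 / 2 := by norm_num
  rw [h1, hval]
  have he := (Real.exp_pos (-2)).ne'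
  field_simp
  ring

theorem tau_half {τ : ℝ} (hτ : τ ∈ Icc (0 : ℝ) 1) (hs : Real.sin (2 * Real.pi * τ) = 0)
    (hc : Real.cos (2 * Real.pi * τ) ≤ 0) : τ = 1 / 2 := by
  have hpi := Real.pi_pos
  rcases lt_trichotomy τ (1 / 2) with h | h | h
  · exfalso
    rcases hτ.1.eq_or_lt with h0 | h0
    · rw [← h0, mul_zero, Real.cos_zero] at hc
      linarith
    · have h1 : 0 < Real.pi * τ := mul_pos hpi h0
      have h2 : Real.pi * τ < Real.pi * (1 / 2) := mul_lt_mul_of_pos_left h hpi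
      have := Real.sin_pos_of_pos_of_lt_pi (x := 2 * Real.pi * τ) (by linarith) (by linarith)
      linarith
  · exact h
  · exfalso
    rcases hτ.2.eq_or_lt with h0 | h0
    · rw [h0, mul_one, Real.cos_two_pi] at hc
      linarith
    · have h1 : Real.pi * (1 / 2) < Real.pi * τ := mul_lt_mul_of_pos_left h hpi
      have h2 : Real.pi * τ < Real.pi * 1 := mul_lt_mul_of_pos_left h0 hpi
      have := Real.sin_pos_of_pos_of_lt_pi (x := 2 * Real.pi * τ - Real.pi) (by linarith)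
        (by linarith)
      rw [Real.sin_sub_pi, hs] at this
      linarith

end

end ROT

open ROT in
/-- **MODULE ROT.** -/
theorem m_ROT : StROT := by
  intro d ε hd hε
  have hε0 := hε.1
  have hpi := Real.pi_pos
  set q : ℝ := √(5 / 8) with hq
  have hq2 : q ^ 2 = 5 / 8 := Real.sq_sqrt (by norm_num)
  have hq0 : 0 < q := Real.sqrt_pos.2 (by norm_num)
  have hq1 : q < 1 := lt_of_pow_lt_pow_left₀ 2 zero_le_one (by rw [hq2]; norm_num)
  have hqh : 1 / 2 < q := lt_of_pow_lt_pow_left₀ 2 hq0.le (by rw [hq2]; norm_num)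
  have hm1 : ε * q < ε * 1 := mul_lt_mul_of_pos_left hq1 hε0
  have hm2 : ε * (1 / 2) < ε * q := mul_lt_mul_of_pos_left hqh hε0
  have hm3 : 0 < ε * q := mul_pos hε0 hq0
  have hmem : 4 / 5 - ε * q ∈ Ioo (4 / 5 - ε) (4 / 5 - ε / 2) :=
    ⟨by linarith, by linarith⟩
  have hmem' : 4 / 5 - ε * q ∈ Ioo (4 / 5 - ε) (4 / 5 : ℝ) := ⟨hmem.1, by linarith⟩
  have hX : 4 / 3 * (1 - (4 / 5 - (4 / 5 - ε * q)) ^ 2 / ε ^ 2) = 1 / 2 := by
    have h1 : 4 / 5 - (4 / 5 - ε * q) = ε * q := by ring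
    rw [h1, mul_pow, mul_div_cancel_left₀ _ (pow_ne_zero 2 hε0.ne'), hq2]
    norm_num
  have hT : T d ε (4 / 5 - ε * q) = Real.pi * d := by
    unfold T
    rw [hX, step_half]
    ring
  have hsin : Real.sin (Real.pi * d) = 0 := by rcases hd with rfl | rfl <;> simp
  have hcos : Real.cos (Real.pi * d) = -1 := by rcases hd with rfl | rfl <;> simp
  have hdd : d * d = 1 := by rcases hd with rfl | rfl <;> norm_num
  refine ⟨fam d ε hε, 4 / 5 - ε * q, fun p => ?_, fun t p h => Rf_fix hε t h, fun t p => tr_Rf hε t p,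
    fun t p hp => ?_, fun p h => ?_, hmem, ?_, fun a ha hfl => ?_, ?_⟩
  · change Rf d ε (0, p) = p
    rcases lt_or_ge (tr p) (ε ^ 2) with h | h
    · rw [Rf_in hε 0 h]
      have h0 : th d ε 0 p = 0 := by
        unfold th
        ring
      rw [h0]
      exact fo_zero (lt_trans (by norm_num) (rho_of_tr (h.trans (sq_lt hε))))
    · exact Rf_fix hε 0 h
  · change Rf d ε (t, p) = p
    have hr : rho p = 1 / 5 := by
      unfold rho
      rw [hp.2]
      rw [show (1 : ℝ) / 25 = (1 / 5) ^ 2 by norm_num, Real.sqrt_sq (by norm_num)]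
    have h1 : tr p = 0 := by
      rw [tr_def, hr, hp.1]
      norm_num
    rw [Rf_in hε t (by rw [h1]; positivity)]
    unfold fo
    rw [hr, hp.1]
    refine Prod.ext ?_ ?_
    · change 1 / 2 + (Real.cos (th d ε t p) * (1 / 2 - 1 / 2) -
        Real.sin (th d ε t p) * (1 / 5 - 1 / 5)) = p.1
      rw [hp.1]
      ring
    · change pc 1 + ((1 / 5 + (Real.sin (th d ε t p) * (1 / 2 - 1 / 2) +
        Real.cos (th d ε t p) * (1 / 5 - 1 / 5))) / (1 / 5)) • (p.2 - pc 1) = p.2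
      have h2 : (1 / 5 + (Real.sin (th d ε t p) * (1 / 2 - 1 / 2) +
        Real.cos (th d ε t p) * (1 / 5 - 1 / 5))) / (1 / 5) = 1 := by
        rw [sub_self, sub_self, mul_zero, mul_zero, add_zero, add_zero]
        norm_num
      rw [h2, one_smul]
      abel
  · change Rf d ε (1, p) = p
    have h1 : tr p < ε ^ 2 := by
      have h0 : 0 < ε ^ 2 := pow_pos hε0 2
      linarith
    rw [Rf_in hε 1 h1]
    have h2 : tr p / ε ^ 2 < 1 / 4 := by
      rw [div_lt_iff₀ (by positivity)]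
      linarith
    have h3 : th d ε 1 p = 2 * Real.pi * d := by
      unfold th
      rw [step_of_one_le (by linarith)]
      ring
    have h4 : Real.sin (2 * Real.pi * d) = 0 := by rcases hd with rfl | rfl <;> simp
    have h5 : Real.cos (2 * Real.pi * d) = 1 := by rcases hd with rfl | rfl <;> simp
    have h6 : fo (2 * Real.pi * d) p = fo 0 p := by
      unfold fo
      rw [h4, h5, Real.sin_zero, Real.cos_zero]
    rw [h3, h6]
    exact fo_zero (lt_trans (by norm_num) (rho_of_tr (h1.trans (sq_lt hε))))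
  · change Rf d ε (1, ax (4 / 5 - ε * q)) = ax (8 / 5 - (4 / 5 - ε * q))
    rw [Rf_ax hε hmem', hT, hsin, hcos]
    refine Prod.ext ?_ (Prod.ext ?_ rfl)
    · simp [ax]
    · simp only [ax]
      ring
  · change Rf d ε (1, ax a) ∈ flat 1 at hfl
    rw [Rf_ax hε ha] at hfl
    have hv : 0 < 4 / 5 - a := by linarith [ha.2]
    have h1 : Real.sin (T d ε a) = 0 := by
      have := hfl.1
      have h2 : Real.sin (T d ε a) * (4 / 5 - a) = 0 := by
        change 1 / 2 - Real.sin (T d ε a) * (4 / 5 - a) = 1 / 2 at this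
        linarith
      exact (mul_eq_zero.1 h2).resolve_right hv.ne'
    have h2 : Real.cos (T d ε a) ≤ 0 := by
      have h3 := hfl.2
      simp only [rsq, nsq, Complex.zero_re, Complex.zero_im] at h3
      by_contra h4
      rw [not_le] at h4
      have h5 : 0 < Real.cos (T d ε a) * (4 / 5 - a) := mul_pos h4 hv
      generalize Real.cos (T d ε a) * (4 / 5 - a) = w at h3 h5
      have h6 : (4 / 5 - w - 1) ^ 2 + 0 ^ 2 + 0 ^ 2 = 1 / 25 + 2 / 5 * w + w * w := by ring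
      have h7 := mul_pos h5 h5
      linarith
    have h3 : Real.sin (2 * Real.pi * step (4 / 3 * (1 - (4 / 5 - a) ^ 2 / ε ^ 2))) = 0 := by
      unfold T at h1
      rcases hd with rfl | rfl
      · simpa using h1
      · have h4 : 2 * Real.pi * (-1) * step (4 / 3 * (1 - (4 / 5 - a) ^ 2 / ε ^ 2)) =
            -(2 * Real.pi * step (4 / 3 * (1 - (4 / 5 - a) ^ 2 / ε ^ 2))) := by ring
        rw [h4, Real.sin_neg, neg_eq_zero] at h1
        exact h1
    have h4 : Real.cos (2 * Real.pi * step (4 / 3 * (1 - (4 / 5 - a) ^ 2 / ε ^ 2))) ≤ 0 := by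
      unfold T at h2
      rcases hd with rfl | rfl
      · simpa using h2
      · have h4 : 2 * Real.pi * (-1) * step (4 / 3 * (1 - (4 / 5 - a) ^ 2 / ε ^ 2)) =
            -(2 * Real.pi * step (4 / 3 * (1 - (4 / 5 - a) ^ 2 / ε ^ 2))) := by ring
        rw [h4, Real.cos_neg] at h2
        exact h2
    have h5 := step_eq_half (tau_half (step_mem _) h3 h4)
    have h6 : (4 / 5 - a) ^ 2 / ε ^ 2 = 5 / 8 := by linarith
    rw [div_eq_iff (pow_ne_zero 2 hε0.ne')] at h6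
    have h7 : (4 / 5 - a) ^ 2 = (ε * q) ^ 2 := by
      rw [mul_pow, hq2, h6]
      ring
    have h8 := (pow_left_inj₀ hv.le (by positivity) two_ne_zero).1 h7
    linarith
  · have hev : (fun a => ((fam d ε hε).f (1, ax a)).1) =ᶠ[𝓝 (4 / 5 - ε * q)]
        fun a => 1 / 2 - Real.sin (T d ε a) * (4 / 5 - a) := by
      filter_upwards [Ioo_mem_nhds hmem'.1 hmem'.2] with a ha
      change (Rf d ε (1, ax a)).1 = _
      rw [Rf_ax hε ha]
    rw [hev.deriv_eq]
    have e1 : HasDerivAt (fun a : ℝ => 4 / 5 - a) (-1) (4 / 5 - ε * q) := by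
      simpa using (hasDerivAt_id (4 / 5 - ε * q)).const_sub (4 / 5 : ℝ)
    have e2 : HasDerivAt (fun a : ℝ => 4 / 3 * (1 - (4 / 5 - a) ^ 2 / ε ^ 2))
        (8 / 3 * q / ε) (4 / 5 - ε * q) := by
      have h1 := ((((e1.pow 2).div_const (ε ^ 2)).const_sub 1).const_mul (4 / 3 : ℝ))
      refine h1.congr_deriv ?_
      have h2 : 4 / 5 - (4 / 5 - ε * q) = ε * q := by ring
      simp only [h2, Nat.cast_ofNat, Nat.add_one_sub_one, pow_one]
      field_simp
      ring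
    have e3 : HasDerivAt step 2 ((fun a : ℝ => 4 / 3 * (1 - (4 / 5 - a) ^ 2 / ε ^ 2))
        (4 / 5 - ε * q)) := by
      change HasDerivAt step 2 (4 / 3 * (1 - (4 / 5 - (4 / 5 - ε * q)) ^ 2 / ε ^ 2))
      rw [hX]
      exact hasDerivAt_step_half
    have e4 : HasDerivAt (T d ε) (2 * Real.pi * d * (2 * (8 / 3 * q / ε))) (4 / 5 - ε * q) :=
      (e3.comp (4 / 5 - ε * q) e2).const_mul (2 * Real.pi * d)
    have e5 := (e4.sin.mul e1).const_sub (1 / 2 : ℝ)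
    rw [hT, hsin, hcos] at e5
    have e6 : HasDerivAt (fun a => 1 / 2 - Real.sin (T d ε a) * (4 / 5 - a))
        (2 * Real.pi * d * (2 * (8 / 3 * q / ε)) * (ε * q)) (4 / 5 - ε * q) := by
      exact e5.congr_deriv (by ring)
    rw [e6.deriv]
    have e7 : d * (2 * Real.pi * d * (2 * (8 / 3 * q / ε)) * (ε * q)) =
        (d * d) * (Real.pi * (32 / 3) * q ^ 2) := by
      field_simp
      ring
    rw [e7, hdd, hq2]
    positivity

end Pool.Agent.Helper70.BI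


end

/-! ## Helper34.BI.M_D1a -/

section

/-!
# Project BI, module D1a: local coordinates at a transverse crossing

Instead of `P` and `N` of the docstring of `StD1a` the inverse function theorem is applied once, to
`M (p, (t, u)) = (J (t₀, p) - J (t, (1/2, u, 0)), (p.1 - 1/2, rsq 0 p - 1/25))` on `R4 × (ℝ × ℝ)`.
-/

set_option autoImplicit false

open Module Set Filter Topology
open scoped ContDiff Manifold ComplexConjugate
open Pool.Agent.Helper65.Barb Pool.Agent.Helper18.BI Pool.Agent.Helper27.BI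

namespace Pool.Agent.Helper34.BI

/-- derivative of the squared radius -/
private theorem hasFDerivAt_rsq_D1a (p : R4) :
    ∃ L : R4 →L[ℝ] ℝ, HasFDerivAt (rsq 0) L p ∧ ∀ v, L v = 2 * drsq 0 p v := by
  have h0 : HasFDerivAt (fun p : R4 => p.2.1)
      ((ContinuousLinearMap.fst ℝ ℝ ℂ).comp (ContinuousLinearMap.snd ℝ ℝ (ℝ × ℂ))) p :=
    ((ContinuousLinearMap.fst ℝ ℝ ℂ).comp (ContinuousLinearMap.snd ℝ ℝ (ℝ × ℂ))).hasFDerivAt
  have h1 : HasFDerivAt (fun p : R4 => p.2.1 - 0)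
      ((ContinuousLinearMap.fst ℝ ℝ ℂ).comp (ContinuousLinearMap.snd ℝ ℝ (ℝ × ℂ))) p :=
    h0.sub_const (0 : ℝ)
  have h2 : HasFDerivAt (fun p : R4 => p.2.2.re)
      (Complex.reCLM.comp ((ContinuousLinearMap.snd ℝ ℝ ℂ).comp
        (ContinuousLinearMap.snd ℝ ℝ (ℝ × ℂ)))) p :=
    (Complex.reCLM.comp ((ContinuousLinearMap.snd ℝ ℝ ℂ).comp
        (ContinuousLinearMap.snd ℝ ℝ (ℝ × ℂ)))).hasFDerivAt
  have h3 : HasFDerivAt (fun p : R4 => p.2.2.im)
      (Complex.imCLM.comp ((ContinuousLinearMap.snd ℝ ℝ ℂ).comp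
        (ContinuousLinearMap.snd ℝ ℝ (ℝ × ℂ)))) p :=
    (Complex.imCLM.comp ((ContinuousLinearMap.snd ℝ ℝ ℂ).comp
        (ContinuousLinearMap.snd ℝ ℝ (ℝ × ℂ)))).hasFDerivAt
  refine ⟨_, ((h1.pow 2).add (h2.pow 2)).add (h3.pow 2), fun v => ?_⟩
  simp only [drsq, add_apply, smul_apply,
    ContinuousLinearMap.comp_apply, ContinuousLinearMap.coe_fst', ContinuousLinearMap.coe_snd',
    Complex.reCLM_apply, Complex.imCLM_apply, smul_eq_mul, nsmul_eq_mul]
  norm_num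
  ring

/-- the map to which the inverse function theorem is applied -/
private noncomputable def M_D1a (J : ℝ × R4 → R4) (t₀ : ℝ) (z : R4 × (ℝ × ℝ)) : R4 × (ℝ × ℝ) :=
  (J (t₀, z.1) - J (z.2.1, (1 / 2, z.2.2, 0)), (z.1.1 - 1 / 2, rsq 0 z.1 - 1 / 25))

/-- points of `FB` on the open neck -/
private theorem mem_FB_arc_D1a {q : R4} (hq : q ∈ FB) (h1 : 1 / 5 < q.2.1) (h2 : q.2.1 < 4 / 5) :
    q = (1 / 2, q.2.1, 0) := by
  rcases hq with (hq | hq) | hq
  · exfalso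
    have h := hq.2
    have h3 := sq_le_rsq q
    nlinarith
  · exfalso
    have h := hq.2
    have h3 := sq_le_rsq_one q
    nlinarith
  · exact Prod.ext hq.1 (Prod.ext rfl hq.2.2.2)

private theorem fst_of_mem_FB_D1a {q : R4} (hq : q ∈ FB) : q.1 = 1 / 2 := by
  rcases hq with (hq | hq) | hq
  · exact hq.1
  · exact hq.1
  · exact hq.1

/-- a smooth function with nonzero derivative at `0` is strictly monotone near `0` -/
private theorem mono_D1a {T : ℝ → ℝ} {O : Set ℝ} (hO : IsOpen O) (h0 : (0 : ℝ) ∈ O)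
    (hT : ContDiffOn ℝ ∞ T O) (hd : deriv T 0 ≠ 0) :
    ∃ η₀ : ℝ, 0 < η₀ ∧ Ioo (-η₀) η₀ ⊆ O ∧
      (StrictMonoOn T (Ioo (-η₀) η₀) ∨ StrictAntiOn T (Ioo (-η₀) η₀)) := by
  have hc : ContinuousAt (deriv T) 0 :=
    (hT.continuousOn_deriv_of_isOpen hO (by simp)).continuousAt (hO.mem_nhds h0)
  rcases lt_or_gt_of_ne hd with hneg | hpos
  · have h1 : ∀ᶠ r in 𝓝 (0 : ℝ), r ∈ O ∧ deriv T r < 0 :=
      Filter.Eventually.and (hO.mem_nhds h0) (hc.eventually_lt_const hneg)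
    obtain ⟨η₀, hη, hb⟩ := Metric.eventually_nhds_iff_ball.1 h1
    rw [Real.ball_eq_Ioo, zero_sub, zero_add] at hb
    refine ⟨η₀, hη, fun r hr => (hb r hr).1, Or.inr ?_⟩
    refine strictAntiOn_of_deriv_neg (convex_Ioo _ _)
      (hT.continuousOn.mono fun r hr => (hb r hr).1) fun r hr => ?_
    rw [interior_Ioo] at hr
    exact (hb r hr).2
  · have h1 : ∀ᶠ r in 𝓝 (0 : ℝ), r ∈ O ∧ 0 < deriv T r :=
      Filter.Eventually.and (hO.mem_nhds h0) (hc.eventually_const_lt hpos)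
    obtain ⟨η₀, hη, hb⟩ := Metric.eventually_nhds_iff_ball.1 h1
    rw [Real.ball_eq_Ioo, zero_sub, zero_add] at hb
    refine ⟨η₀, hη, fun r hr => (hb r hr).1, Or.inl ?_⟩
    refine strictMonoOn_of_deriv_pos (convex_Ioo _ _)
      (hT.continuousOn.mono fun r hr => (hb r hr).1) fun r hr => ?_
    rw [interior_Ioo] at hr
    exact (hb r hr).2

/-- the map `M_D1a` is a local diffeomorphism at the crossing, and a formula for its derivative -/
private theorem loc_D1a {J : ℝ × R4 → R4} {t₀ u₀ : ℝ} {p₀ : R4} (hP : PreCross J t₀ u₀ p₀) :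
    (∀ᶠ z in 𝓝 ((p₀, (t₀, u₀)) : R4 × (ℝ × ℝ)), ContDiffAt ℝ ∞ (M_D1a J t₀) z) ∧
    (∀ w : R4 × (ℝ × ℝ), fderiv ℝ (M_D1a J t₀) (p₀, (t₀, u₀)) w =
      (fderiv ℝ (fun p => J (t₀, p)) p₀ w.1 -
        fderiv ℝ (fun x : ℝ × ℝ => J (x.1, (1 / 2, x.2, 0))) (t₀, u₀) w.2,
        (w.1.1, 2 * drsq 0 p₀ w.1))) := by
  have hp₀ : p₀ ∈ SP := Or.inl (Or.inl hP.mem)
  have hq₀ : ((1 / 2, u₀, 0) : R4) ∈ SP := Or.inr ⟨rfl, hP.arc.1.le, hP.arc.2.le, rfl⟩
  have sF : ∀ᶠ p in 𝓝 p₀, ContDiffAt ℝ ∞ (fun p => J (t₀, p)) p :=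
    eventually_contDiffAt (hP.loc p₀ hp₀)
  have sH : ∀ᶠ x in 𝓝 (t₀, u₀), ContDiffAt ℝ ∞
      (fun x : ℝ × ℝ => J (x.1, (1 / 2, x.2, 0))) x := by
    have c : ContinuousAt (fun x : ℝ × ℝ => ((x.1, (1 / 2, x.2, 0)) : ℝ × R4)) (t₀, u₀) := by
      fun_prop
    have h : ∀ᶠ q in 𝓝 ((t₀, (1 / 2, u₀, 0)) : ℝ × R4), ContDiffAt ℝ ∞ J q :=
      hP.smooth _ hq₀
    filter_upwards [c.eventually h] with x hx
    have c2 : ContDiffAt ℝ ∞ (fun x : ℝ × ℝ => ((x.1, (1 / 2, x.2, 0)) : ℝ × R4)) x := by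
      fun_prop
    exact hx.comp x c2
  obtain ⟨L, hL, hLv⟩ := hasFDerivAt_rsq_D1a p₀
  have dF := (sF.self_of_nhds.differentiableAt (by simp)).hasFDerivAt
  have dH := (sH.self_of_nhds.differentiableAt (by simp)).hasFDerivAt
  refine ⟨?_, fun w => ?_⟩
  · have c1 : ContinuousAt (fun z : R4 × (ℝ × ℝ) => z.1) (p₀, (t₀, u₀)) := continuousAt_fst
    have c2 : ContinuousAt (fun z : R4 × (ℝ × ℝ) => z.2) (p₀, (t₀, u₀)) := continuousAt_snd
    filter_upwards [c1.eventually sF, c2.eventually sH] with z h1 h2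
    have e1 : ContDiffAt ℝ ∞ (fun z : R4 × (ℝ × ℝ) => J (t₀, z.1)) z := h1.comp z contDiffAt_fst
    have e2 : ContDiffAt ℝ ∞ (fun z : R4 × (ℝ × ℝ) => J (z.2.1, (1 / 2, z.2.2, 0))) z :=
      h2.comp z contDiffAt_snd
    have e3 : ContDiffAt ℝ ∞ (fun z : R4 × (ℝ × ℝ) => z.1.1 - 1 / 2) z := by fun_prop
    have e4 : ContDiffAt ℝ ∞ (fun z : R4 × (ℝ × ℝ) => rsq 0 z.1 - 1 / 25) z :=
      ((contDiff_rsq 0).contDiffAt.comp z contDiffAt_fst).sub contDiffAt_const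
    exact (e1.sub e2).prodMk (e3.prodMk e4)
  · have dF' : HasFDerivAt (fun p => J (t₀, p)) (fderiv ℝ (fun p => J (t₀, p)) p₀)
        ((p₀, (t₀, u₀)) : R4 × (ℝ × ℝ)).1 := dF
    have d1 : HasFDerivAt (fun z : R4 × (ℝ × ℝ) => J (t₀, z.1))
        ((fderiv ℝ (fun p => J (t₀, p)) p₀).comp (ContinuousLinearMap.fst ℝ R4 (ℝ × ℝ)))
        (p₀, (t₀, u₀)) := dF'.comp ((p₀, (t₀, u₀)) : R4 × (ℝ × ℝ)) hasFDerivAt_fst
    have dH' : HasFDerivAt (fun x : ℝ × ℝ => J (x.1, (1 / 2, x.2, 0)))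
        (fderiv ℝ (fun x : ℝ × ℝ => J (x.1, (1 / 2, x.2, 0))) (t₀, u₀))
        ((p₀, (t₀, u₀)) : R4 × (ℝ × ℝ)).2 := dH
    have d2 : HasFDerivAt (fun z : R4 × (ℝ × ℝ) => J (z.2.1, (1 / 2, z.2.2, 0)))
        ((fderiv ℝ (fun x : ℝ × ℝ => J (x.1, (1 / 2, x.2, 0))) (t₀, u₀)).comp
          (ContinuousLinearMap.snd ℝ R4 (ℝ × ℝ)))
        (p₀, (t₀, u₀)) := dH'.comp ((p₀, (t₀, u₀)) : R4 × (ℝ × ℝ)) hasFDerivAt_snd
    have d3 : HasFDerivAt (fun z : R4 × (ℝ × ℝ) => z.1.1 - 1 / 2)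
        ((ContinuousLinearMap.fst ℝ ℝ (ℝ × ℂ)).comp (ContinuousLinearMap.fst ℝ R4 (ℝ × ℝ)))
        (p₀, (t₀, u₀)) := by
      have h : HasFDerivAt (fun z : R4 × (ℝ × ℝ) => z.1.1)
          ((ContinuousLinearMap.fst ℝ ℝ (ℝ × ℂ)).comp (ContinuousLinearMap.fst ℝ R4 (ℝ × ℝ)))
          (p₀, (t₀, u₀)) :=
        ((ContinuousLinearMap.fst ℝ ℝ (ℝ × ℂ)).comp
          (ContinuousLinearMap.fst ℝ R4 (ℝ × ℝ))).hasFDerivAt
      exact h.sub_const (1 / 2 : ℝ)
    have hL' : HasFDerivAt (rsq 0) L ((p₀, (t₀, u₀)) : R4 × (ℝ × ℝ)).1 := hL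
    have d4 : HasFDerivAt (fun z : R4 × (ℝ × ℝ) => rsq 0 z.1 - 1 / 25)
        (L.comp (ContinuousLinearMap.fst ℝ R4 (ℝ × ℝ)))
        (p₀, (t₀, u₀)) := by
      have h : HasFDerivAt (fun z : R4 × (ℝ × ℝ) => rsq 0 z.1)
          (L.comp (ContinuousLinearMap.fst ℝ R4 (ℝ × ℝ))) (p₀, (t₀, u₀)) :=
        hL'.comp ((p₀, (t₀, u₀)) : R4 × (ℝ × ℝ)) hasFDerivAt_fst
      exact h.sub_const (1 / 25 : ℝ)
    have dM := (d1.sub d2).prodMk (d3.prodMk d4)
    have e : fderiv ℝ (M_D1a J t₀) (p₀, (t₀, u₀)) = _ := HasFDerivAt.fderiv dM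
    rw [e]
    refine Prod.ext rfl (Prod.ext rfl ?_)
    exact hLv w.1

theorem m_D1a : StD1a := by
  intro J t₀ u₀ p₀ hP hS
  have hp₀ : p₀ ∈ SP := Or.inl (Or.inl hP.mem)
  obtain ⟨sM, fM⟩ := loc_D1a hP
  have hA : Function.Injective (fderiv ℝ (fun p => J (t₀, p)) p₀) :=
    injective_fderiv (hP.loc p₀ hp₀)
  have hinj : Function.Injective (fderiv ℝ (M_D1a J t₀) (p₀, (t₀, u₀))) := by
    rw [injective_iff_map_eq_zero]
    intro w hw
    rw [fM] at hw
    have e1 : fderiv ℝ (fun p => J (t₀, p)) p₀ w.1 =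
        fderiv ℝ (fun x : ℝ × ℝ => J (x.1, (1 / 2, x.2, 0))) (t₀, u₀) w.2 :=
      sub_eq_zero.1 (congrArg Prod.fst hw)
    have e2 : w.1.1 = 0 := congrArg (fun z : R4 × (ℝ × ℝ) => z.2.1) hw
    have e3 : drsq 0 p₀ w.1 = 0 := by
      have h : 2 * drsq 0 p₀ w.1 = 0 := congrArg (fun z : R4 × (ℝ × ℝ) => z.2.2) hw
      linarith
    have e4 : w.2 = 0 := hP.trans w.2 w.1 e1.symm e2 e3
    have e6 : w.1 = 0 := by
      apply hA
      rw [e1, e4, map_zero, map_zero]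
    exact Prod.ext e6 e4
  obtain ⟨Ψ, hz, hΨ⟩ := isLocalDiffeomorphAt_of_injective rfl sM hinj
  have hgs : ContDiffOn ℝ ∞ Ψ.toPartialEquiv.symm Ψ.target :=
    contMDiffOn_iff_contDiffOn.1 Ψ.contMDiffOn_invFun
  let e : ℝ → R4 × (ℝ × ℝ) := fun r => (0, (0, r))
  have he : ContDiff ℝ ∞ e := contDiff_const.prodMk (contDiff_const.prodMk contDiff_id)
  have hM0 : M_D1a J t₀ (p₀, (t₀, u₀)) = e 0 := by
    refine Prod.ext ?_ (Prod.ext ?_ ?_)
    · change J (t₀, p₀) - J (t₀, (1 / 2, u₀, 0)) = 0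
      rw [hP.eq, sub_self]
    · change p₀.1 - 1 / 2 = 0
      rw [hP.mem.1, sub_self]
    · change rsq 0 p₀ - 1 / 25 = 0
      rw [hP.mem.2, sub_self]
  have hΨ0 : Ψ (p₀, (t₀, u₀)) = e 0 := by rw [← hM0]; exact (hΨ hz).symm
  have hOo : IsOpen (e ⁻¹' Ψ.target) := Ψ.open_target.preimage he.continuous
  have h0O : (0 : ℝ) ∈ e ⁻¹' Ψ.target := by
    change e 0 ∈ Ψ.target
    rw [← hΨ0]
    exact Ψ.toPartialEquiv.map_source hz
  let c : ℝ → R4 × (ℝ × ℝ) := fun r => Ψ.toPartialEquiv.symm (e r)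
  have hc : ContDiffOn ℝ ∞ c (e ⁻¹' Ψ.target) := hgs.comp he.contDiffOn (fun r hr => hr)
  have hc0 : c 0 = (p₀, (t₀, u₀)) := by
    change Ψ.toPartialEquiv.symm (e 0) = _
    rw [← hΨ0]
    exact Ψ.toPartialEquiv.left_inv hz
  have hMc : ∀ r ∈ e ⁻¹' Ψ.target, M_D1a J t₀ (c r) = e r := by
    intro r hr
    have h1 : c r ∈ Ψ.source := Ψ.toPartialEquiv.map_target hr
    rw [hΨ h1]
    exact Ψ.toPartialEquiv.right_inv hr
  -- the derivative of the curve
  have dc : HasDerivAt c (deriv c 0) 0 :=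
    ((hc.contDiffAt (hOo.mem_nhds h0O)).differentiableAt (by simp)).hasDerivAt
  have dM : HasFDerivAt (M_D1a J t₀) (fderiv ℝ (M_D1a J t₀) (p₀, (t₀, u₀))) (c 0) := by
    rw [hc0]
    exact (sM.self_of_nhds.differentiableAt (by simp)).hasFDerivAt
  have dMc : HasDerivAt (fun r => M_D1a J t₀ (c r))
      (fderiv ℝ (M_D1a J t₀) (p₀, (t₀, u₀)) (deriv c 0)) 0 := dM.comp_hasDerivAt 0 dc
  have de : HasDerivAt e ((0 : R4), ((0 : ℝ), (1 : ℝ))) 0 :=
    (hasDerivAt_const _ _).prodMk ((hasDerivAt_const _ _).prodMk (hasDerivAt_id _))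
  have heq : fderiv ℝ (M_D1a J t₀) (p₀, (t₀, u₀)) (deriv c 0) = ((0 : R4), ((0 : ℝ), (1 : ℝ))) := by
    refine dMc.unique (de.congr_of_eventuallyEq ?_)
    filter_upwards [hOo.mem_nhds h0O] with r hr
    exact hMc r hr
  have dT : HasDerivAt (fun r => (c r).2.1) (deriv c 0).2.1 0 := by
    have h1 := (ContinuousLinearMap.snd ℝ R4 (ℝ × ℝ)).hasFDerivAt.comp_hasDerivAt 0 dc
    exact (ContinuousLinearMap.fst ℝ ℝ ℝ).hasFDerivAt.comp_hasDerivAt 0 h1
  have hT : ContDiffOn ℝ ∞ (fun r => (c r).2.1) (e ⁻¹' Ψ.target) :=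
    contDiff_fst.comp_contDiffOn (contDiff_snd.comp_contDiffOn hc)
  have hT0 : deriv (fun r => (c r).2.1) 0 ≠ 0 := by
    rw [dT.deriv]
    intro h0
    rw [fM] at heq
    generalize deriv c 0 = w at h0 heq
    have e1 : fderiv ℝ (fun p => J (t₀, p)) p₀ w.1 =
        fderiv ℝ (fun x : ℝ × ℝ => J (x.1, (1 / 2, x.2, 0))) (t₀, u₀) w.2 :=
      sub_eq_zero.1 (congrArg Prod.fst heq)
    have e2 : w.1.1 = 0 := congrArg (fun z : R4 × (ℝ × ℝ) => z.2.1) heq
    have e3 : 2 * drsq 0 p₀ w.1 = 1 := congrArg (fun z : R4 × (ℝ × ℝ) => z.2.2) heq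
    by_cases h2 : w.2.2 = 0
    · have e4 : w.2 = 0 := Prod.ext h0 h2
      have e5 : w.1 = 0 := by
        apply hA
        rw [e1, e4, map_zero, map_zero]
      rw [e5] at e3
      simp [drsq] at e3
    · have e4 : w.2 = w.2.2 • ((0 : ℝ), (1 : ℝ)) := by
        refine Prod.ext ?_ ?_
        · simpa using h0
        · simp
      have e5 := hS (w.2.2⁻¹ • w.1) (by
        rw [map_smul, e1, e4, map_smul, smul_smul]
        simp [h2])
      apply e5
      change w.2.2⁻¹ * w.1.1 = 0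
      rw [e2, mul_zero]
  obtain ⟨η₀, hη, hsub, hmono⟩ := mono_D1a hOo h0O hT hT0
  have hcc : ContinuousAt c 0 := dc.continuousAt
  have hinjT : InjOn (fun r => (c r).2.1) (Ioo (-η₀) η₀) := by
    rcases hmono with h | h
    · exact h.injOn
    · exact h.injOn
  refine ⟨fun r => (c r).2.1, fun r => (c r).1, η₀, hη, hT.mono hsub, hmono, ?_, ?_, ?_, ?_, ?_⟩
  · change (c 0).2.1 = t₀
    rw [hc0]
  · exact continuousAt_fst.comp hcc
  · change (c 0).1 = p₀
    rw [hc0]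
  · intro r hr
    have h := hMc r (hsub hr)
    have h1 : (c r).1.1 - 1 / 2 = 0 := congrArg (fun z : R4 × (ℝ × ℝ) => z.2.1) h
    have h2 : rsq 0 (c r).1 - 1 / 25 = r := congrArg (fun z : R4 × (ℝ × ℝ) => z.2.2) h
    exact ⟨by linarith, by linarith⟩
  · have kT : ContinuousAt (fun r => (c r).2.1) (0 : ℝ) := dT.continuousAt
    have kr : Tendsto (fun q : ℝ × R4 × R4 => q.1) (𝓝 ((0 : ℝ), p₀, ((1 / 2, u₀, 0) : R4)))
        (𝓝 0) := continuousAt_fst
    have kp : Tendsto (fun q : ℝ × R4 × R4 => q.2.1) (𝓝 ((0 : ℝ), p₀, ((1 / 2, u₀, 0) : R4)))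
        (𝓝 p₀) := continuousAt_fst.comp continuousAt_snd
    have ku : Tendsto (fun q : ℝ × R4 × R4 => q.2.2.2.1)
        (𝓝 ((0 : ℝ), p₀, ((1 / 2, u₀, 0) : R4))) (𝓝 u₀) := by
      have : Continuous (fun q : ℝ × R4 × R4 => q.2.2.2.1) := by fun_prop
      exact this.tendsto' _ _ rfl
    have kT' : Tendsto (fun q : ℝ × R4 × R4 => (c q.1).2.1)
        (𝓝 ((0 : ℝ), p₀, ((1 / 2, u₀, 0) : R4))) (𝓝 t₀) := by
      have h : Tendsto (fun r => (c r).2.1) (𝓝 (0 : ℝ)) (𝓝 (c 0).2.1) := kT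
      rw [hc0] at h
      exact h.comp kr
    have k1 : ∀ᶠ q : ℝ × R4 × R4 in 𝓝 ((0 : ℝ), p₀, ((1 / 2, u₀, 0) : R4)),
        J ((c q.1).2.1, q.2.1) = J (t₀, q.2.1) :=
      (kT'.prodMk_nhds kp).eventually (hP.frozen p₀ (Or.inl hP.mem))
    have k2 : ∀ᶠ q : ℝ × R4 × R4 in 𝓝 ((0 : ℝ), p₀, ((1 / 2, u₀, 0) : R4)),
        ((q.2.1, ((c q.1).2.1, q.2.2.2.1)) : R4 × (ℝ × ℝ)) ∈ Ψ.source :=
      (kp.prodMk_nhds (kT'.prodMk_nhds ku)).eventually (Ψ.open_source.mem_nhds hz)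
    have k3 : ∀ᶠ q : ℝ × R4 × R4 in 𝓝 ((0 : ℝ), p₀, ((1 / 2, u₀, 0) : R4)),
        q.2.2.2.1 ∈ Ioo (1 / 5 : ℝ) (4 / 5) := ku.eventually (isOpen_Ioo.mem_nhds hP.arc)
    have k4 : ∀ᶠ q : ℝ × R4 × R4 in 𝓝 ((0 : ℝ), p₀, ((1 / 2, u₀, 0) : R4)),
        q.1 ∈ Ioo (-η₀) η₀ := kr.eventually (isOpen_Ioo.mem_nhds ⟨by linarith, hη⟩)
    have k5 : ∀ᶠ q : ℝ × R4 × R4 in 𝓝 ((0 : ℝ), p₀, ((1 / 2, u₀, 0) : R4)),
        rsq 0 q.2.1 - 1 / 25 ∈ Ioo (-η₀) η₀ := by
      have h : Tendsto (fun q : ℝ × R4 × R4 => rsq 0 q.2.1 - 1 / 25)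
          (𝓝 ((0 : ℝ), p₀, ((1 / 2, u₀, 0) : R4))) (𝓝 (rsq 0 p₀ - 1 / 25)) :=
        (((contDiff_rsq 0).continuous.tendsto p₀).comp kp).sub_const _
      refine h.eventually (isOpen_Ioo.mem_nhds ?_)
      rw [hP.mem.2, sub_self]
      exact ⟨by linarith, hη⟩
    filter_upwards [k1, k2, k3, k4, k5] with q h1 h2 h3 h4 h5 hF1 hF2 hJ
    have e1 : q.2.2 = (1 / 2, q.2.2.2.1, 0) := mem_FB_arc_D1a hF2 h3.1 h3.2
    have e2 : M_D1a J t₀ (q.2.1, ((c q.1).2.1, q.2.2.2.1)) = e (rsq 0 q.2.1 - 1 / 25) := by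
      refine Prod.ext ?_ (Prod.ext ?_ rfl)
      · change J (t₀, q.2.1) - J ((c q.1).2.1, (1 / 2, q.2.2.2.1, 0)) = 0
        rw [← e1, ← h1, sub_eq_zero]
        exact hJ
      · change q.2.1.1 - 1 / 2 = 0
        rw [fst_of_mem_FB_D1a hF1, sub_self]
    have e3 : ((q.2.1, ((c q.1).2.1, q.2.2.2.1)) : R4 × (ℝ × ℝ)) = c (rsq 0 q.2.1 - 1 / 25) := by
      have h6 : Ψ (q.2.1, ((c q.1).2.1, q.2.2.2.1)) = e (rsq 0 q.2.1 - 1 / 25) := by
        rw [← e2]; exact (hΨ h2).symm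
      change _ = Ψ.toPartialEquiv.symm (e (rsq 0 q.2.1 - 1 / 25))
      rw [← h6]
      exact (Ψ.toPartialEquiv.left_inv h2).symm
    have e4 := congrArg (fun z : R4 × (ℝ × ℝ) => z.2.1) e3
    have e5 : q.1 = rsq 0 q.2.1 - 1 / 25 := hinjT h4 h5 e4
    have e6 : q.2.1 = (c (rsq 0 q.2.1 - 1 / 25)).1 := congrArg Prod.fst e3
    rw [← e5] at e6
    exact e6

end Pool.Agent.Helper34.BI


end
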