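import Pool.Agent.Helper65.Barb.Defs
import Pool.Agent.Helper70.BI.C.P07
import Pool.Agent.Helper70.BI.C.P13
import Pool.Agent.Helper70.BI.C.P27

/-!
# Project BI (MP_8e98f2_gt): collected modules, part 53

The contents of the modules
* Helper70.BI.M_SPI
* Helper70.BI.M_FML1
* Helper70.BI.M_C1

in one file, so that the whole proof builds in a short time.
-/

namespace Pool.Agent.Helper18.BI
end Pool.Agent.Helper18.BI

namespace Pool.Agent.Helper34.BI
end Pool.Agent.Helper34.BI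

namespace Pool.Agent.Helper65.Barb
end Pool.Agent.Helper65.Barb


/-! ## Helper70.BI.M_SPI -/

section

/-!
# Project BI, part (E), module SPI: spinning the end of the bar once around the cuff
-/

set_option autoImplicit false

open scoped Manifold ContDiff Topology ComplexConjugate
open Set Filter Pool.Agent.Helper65.Barb Pool.Agent.Helper18.BI

namespace Pool.Agent.Helper70.BI

namespace SPI

private theorem rsq_ax (c a : ℝ) : rsq c (ax a) = (a - c) ^ 2 := by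
  simp [rsq, nsq, ax]

private theorem sqrt_ax {a : ℝ} (ha : a ≤ 1) : √(rsq 1 (ax a)) = 1 - a := by
  rw [rsq_ax, show (a - 1) ^ 2 = (1 - a) ^ 2 by ring]
  exact Real.sqrt_sq (by linarith)

private theorem tr_ax {a : ℝ} (ha : a ≤ 1) : tr (ax a) = (4 / 5 - a) ^ 2 := by
  unfold tr
  rw [sqrt_ax ha]
  have : (ax a).1 = 1 / 2 := rfl
  rw [this]
  ring

private theorem continuous_tr : Continuous tr := by
  unfold tr
  have h := (continuous_rsq 1).sqrt
  have h1 : Continuous (fun p : R4 => p.1) := continuous_fst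
  exact ((h1.sub continuous_const).pow 2).add ((h.sub continuous_const).pow 2)

private theorem tr_nonneg (p : R4) : 0 ≤ tr p := by
  unfold tr; positivity

private theorem tr_fst {e : ℝ} (he : 0 < e) {p : R4} (h : tr p < e ^ 2) : |p.1 - 1 / 2| < e :=
  abs_lt_of_sq_lt_sq (lt_of_le_of_lt (le_add_of_nonneg_right (sq_nonneg _)) h) he.le

private theorem tr_snd {e : ℝ} (he : 0 < e) {p : R4} (h : tr p < e ^ 2) :
    |√(rsq 1 p) - 1 / 5| < e := by
  exact abs_lt_of_sq_lt_sq (lt_of_le_of_lt (le_add_of_nonneg_left (sq_nonneg _)) h) he.le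

private theorem tr_zero {p : R4} (h : tr p ≤ 0) : p ∈ sph 1 := by
  have h1 : (p.1 - 1 / 2) ^ 2 = 0 :=
    le_antisymm (le_trans (le_add_of_nonneg_right (sq_nonneg _)) h) (sq_nonneg _)
  have h2 : (√(rsq 1 p) - 1 / 5) ^ 2 = 0 :=
    le_antisymm (le_trans (le_add_of_nonneg_left (sq_nonneg _)) h) (sq_nonneg _)
  have h3 : √(rsq 1 p) = 1 / 5 := sub_eq_zero.1 ((pow_eq_zero_iff two_ne_zero).1 h2)
  refine ⟨sub_eq_zero.1 ((pow_eq_zero_iff two_ne_zero).1 h1), ?_⟩
  rw [← Real.sq_sqrt (rsq_nonneg 1 p), h3]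
  norm_num

private theorem abs_a_le (p : R4) : |p.2.1 - 1| ≤ √(rsq 1 p) := by
  apply Real.le_sqrt_of_sq_le
  rw [sq_abs]
  exact sq_le_rsq_one p

private theorem norm_w_le (p : R4) : ‖p.2.2‖ ≤ √(rsq 1 p) := by
  apply Real.le_sqrt_of_sq_le
  have h : ‖p.2.2‖ ^ 2 = p.2.2.re ^ 2 + p.2.2.im ^ 2 := by
    rw [← Complex.normSq_eq_norm_sq, Complex.normSq_apply, pow_two, pow_two]
  have h2 : rsq 1 p = (p.2.1 - 1) ^ 2 + (p.2.2.re ^ 2 + p.2.2.im ^ 2) := add_assoc _ _ _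
  rw [h, h2]
  exact le_add_of_nonneg_left (sq_nonneg _)

private theorem norm_x_le (p : R4) : ‖p.2 - pc 1‖ ≤ √(rsq 1 p) := by
  rw [Prod.norm_def]
  refine max_le ?_ ?_
  · exact abs_a_le p
  · have : (p.2 - pc 1).2 = p.2.2 := by simp [pc]
    rw [this]
    exact norm_w_le p

private theorem sq_bd {x b c : ℝ} (h0 : 0 ≤ x) (h1 : x ≤ b) (h2 : b * b ≤ c) : x ^ 2 ≤ c := by
  rw [pow_two]
  exact (mul_le_mul h1 h1 h0 (h0.trans h1)).trans h2

private theorem tube_bd {p : R4} (hp : tr p ≤ 1) : -1 ≤ p.1 ∧ p.1 ≤ 2 ∧ rsq 1 p ≤ 4 := by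
  have h1 : |p.1 - 1 / 2| ≤ 1 :=
    (sq_le_one_iff_abs_le_one _).1 (le_trans (le_add_of_nonneg_right (sq_nonneg _)) hp)
  have h2 : |√(rsq 1 p) - 1 / 5| ≤ 1 :=
    (sq_le_one_iff_abs_le_one _).1 (le_trans (le_add_of_nonneg_left (sq_nonneg _)) hp)
  have h3 := abs_le.1 h1
  have h4 := (abs_le.1 h2).2
  clear hp h1 h2
  refine ⟨by linarith [h3.1], by linarith [h3.2], ?_⟩
  rw [← Real.sq_sqrt (rsq_nonneg 1 p)]
  exact sq_bd (b := 2) (Real.sqrt_nonneg _) (by linarith) (by norm_num)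

/-- a tube around the second cuff inside an open set -/
private theorem exists_tube {V : Set R4} (hV : IsOpen V) (hs : sph 1 ⊆ V) :
    ∃ m : ℝ, 0 < m ∧ ∀ p, tr p < m → p ∈ V := by
  have hK : IsCompact ({p : R4 | tr p ≤ 1} \ V) := by
    apply Metric.isCompact_of_isClosed_isBounded
    · exact (isClosed_le continuous_tr continuous_const).sdiff hV
    · refine (isBounded_of_rsq 1 4 (-1) 2).subset ?_
      rintro p ⟨hp, -⟩
      exact tube_bd hp
  rcases ({p : R4 | tr p ≤ 1} \ V).eq_empty_or_nonempty with h0 | h0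
  · refine ⟨1, one_pos, fun p hp => ?_⟩
    by_contra hn
    have : p ∈ ({p : R4 | tr p ≤ 1} \ V) := ⟨hp.le, hn⟩
    rw [h0] at this
    exact this
  · obtain ⟨q, hq, hmin⟩ := hK.exists_isMinOn h0 continuous_tr.continuousOn
    have hq0 : 0 < tr q := by
      by_contra hn
      exact hq.2 (hs (tr_zero (not_lt.1 hn)))
    refine ⟨min 1 (tr q), lt_min one_pos hq0, fun p hp => ?_⟩
    by_contra hn
    have h1 : p ∈ ({p : R4 | tr p ≤ 1} \ V) := ⟨(hp.trans_le (min_le_left _ _)).le, hn⟩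
    have h2 : tr q ≤ tr p := hmin h1
    exact absurd (hp.trans_le (min_le_right _ _)) (not_lt.2 h2)

private theorem hasDerivAt_ax (a : ℝ) : HasDerivAt ax ((0 : ℝ), ((1 : ℝ), (0 : ℂ))) a :=
  (hasDerivAt_const a (1 / 2 : ℝ)).prodMk ((hasDerivAt_id a).prodMk (hasDerivAt_const a (0 : ℂ)))

private noncomputable def LM (lam : ℝ) : R4 →L[ℝ] R4 :=
  (ContinuousLinearMap.id ℝ ℝ).prodMap (lam • ContinuousLinearMap.id ℝ R3)

private theorem det_LM (lam : ℝ) : (LM lam).det = lam ^ 3 := by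
  have h : (LM lam : R4 →ₗ[ℝ] R4) = (LinearMap.id : ℝ →ₗ[ℝ] ℝ).prodMap
      (lam • (LinearMap.id : R3 →ₗ[ℝ] R3)) := rfl
  rw [ContinuousLinearMap.det, h, LinearMap.det_prodMap, LinearMap.det_id, LinearMap.det_smul,
    LinearMap.det_id]
  have : Module.finrank ℝ R3 = 3 := by
    rw [Module.finrank_prod, Complex.finrank_real_complex, Module.finrank_self]
  rw [this]
  ring

private theorem hasFDerivAt_form (lam : ℝ) (p : R4) :
    HasFDerivAt (fun q : R4 => ((q.1, pc 1 + lam • (q.2 - pc 1)) : R4)) (LM lam) p := by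
  have h1 : HasFDerivAt (fun q : R4 => LM lam q + ((0 : ℝ), pc 1 - lam • pc 1)) (LM lam) p :=
    (LM lam).hasFDerivAt.add_const _
  refine h1.congr_of_eventuallyEq (Eventually.of_forall fun q => ?_)
  refine Prod.ext ?_ ?_
  · change q.1 = q.1 + 0
    rw [add_zero]
  · change pc 1 + lam • (q.2 - pc 1) = lam • q.2 + (pc 1 - lam • pc 1)
    rw [smul_sub]
    abel

private theorem ax_mem_neck {a : ℝ} (ha : a ∈ Icc (1 / 5 : ℝ) (4 / 5)) : ax a ∈ SP :=
  Or.inr ⟨rfl, ha.1, ha.2, rfl⟩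

private theorem exists_eps {r m : ℝ} (hr : 0 < r) (hm : 0 < m) :
    ∃ ε : ℝ, 0 < ε ∧ ε < 1 / 400 ∧ ε < r ∧ ε ^ 2 < m := by
  obtain ⟨e, he0, he⟩ : ∃ e : ℝ, 0 < e ∧ e ≤ 1 / 500 ∧ e ≤ r / 2 ∧ e ≤ 1 ∧ e ≤ m / 2 :=
    ⟨min (1 / 500) (min (r / 2) (min 1 (m / 2))),
      lt_min (by norm_num) (lt_min (half_pos hr) (lt_min one_pos (half_pos hm))),
      min_le_left _ _, (min_le_right _ _).trans (min_le_left _ _),
      (min_le_right _ _).trans ((min_le_right _ _).trans (min_le_left _ _)),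
      (min_le_right _ _).trans ((min_le_right _ _).trans (min_le_right _ _))⟩
  obtain ⟨h1, h2, h3, h4⟩ := he
  refine ⟨e, he0, lt_of_le_of_lt h1 (by norm_num), lt_of_le_of_lt h2 (half_lt_self hr), ?_⟩
  have h5 : e ^ 2 ≤ e := pow_le_of_le_one he0.le h3 two_ne_zero
  exact lt_of_le_of_lt (h5.trans h4) (half_lt_self hm)

private theorem near_aux {ε r : ℝ} (hε0 : 0 < ε) (hε1 : ε < 1 / 400) (hεr : ε < r) (q : R4)
    (hq : tr q < ε ^ 2) : 4 / 5 - 1 / 200 ≤ q.2.1 ∧ rsq 1 q ≤ 1 / 20 ∧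
      |q.1 - 1 / 2| < r ∧ ‖q.2 - pc 1‖ < 1 := by
  have h1 := tr_fst hε0 hq
  have h2 := (abs_lt.1 (tr_snd hε0 hq)).2
  have h3 := (abs_le.1 (abs_a_le q)).1
  have h4 := norm_x_le q
  have h5 := Real.sqrt_nonneg (rsq 1 q)
  have h6 := Real.sq_sqrt (rsq_nonneg 1 q)
  clear hq
  generalize √(rsq 1 q) = u at h2 h3 h4 h5 h6
  refine ⟨by linarith, ?_, h1.trans hεr, by linarith⟩
  rw [← h6]
  exact sq_bd (b := 1 / 5 + 1 / 400) h5 (by linarith) (by norm_num)

private theorem le_fifth {x : ℝ} (h : x ^ 2 ≤ 1 / 25) : x ≤ 1 / 5 := by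
  refine le_of_not_gt fun h4 => ?_
  have h5 : (1 / 5 : ℝ) * (1 / 5) < x * x := mul_lt_mul'' h4 h4 (by norm_num) (by norm_num)
  rw [pow_two] at h
  exact absurd (lt_of_lt_of_le h5 h) (by norm_num)

private theorem sq_ge {x : ℝ} (h : x ≤ 4 / 5) : (1 : ℝ) / 25 ≤ (x - 1) ^ 2 := by
  have h3 : (1 / 5 : ℝ) ≤ 1 - x := by linarith
  have h4 := mul_le_mul h3 h3 (by norm_num) (le_trans (by norm_num) h3)
  calc (1 / 25 : ℝ) = 1 / 5 * (1 / 5) := by norm_num
    _ ≤ (1 - x) * (1 - x) := h4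
    _ = (x - 1) ^ 2 := by ring

private theorem quarter {ε : ℝ} (h : 0 < ε) : ε / 4 * (ε / 4) < ε ^ 2 / 4 := by
  have h4 : 0 < ε * ε := mul_pos h h
  rw [pow_two]
  linarith

private theorem spine_aux {ε : ℝ} (hε0 : 0 < ε) {p : R4} (hp : p ∈ SP)
    (h : rsq 1 p ≤ (1 / 5 + ε / 4) ^ 2) : tr p < ε ^ 2 / 4 := by
  have hs : p.1 = 1 / 2 ∧ 1 / 25 ≤ rsq 1 p := by
    rcases hp with (hp | hp) | hp
    · refine ⟨hp.1, ?_⟩
      have h1 := sq_le_rsq p
      rw [hp.2] at h1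
      have h3 : p.2.1 ≤ 1 / 5 := le_fifth h1
      rw [rsq_one_eq, hp.2]
      clear h1 hp h
      linarith
    · exact ⟨hp.1, hp.2.ge⟩
    · refine ⟨hp.1, le_trans ?_ (sq_le_rsq_one p)⟩
      exact sq_ge hp.2.2.1
  have h1 : √(rsq 1 p) ≤ 1 / 5 + ε / 4 := Real.sqrt_le_iff.2 ⟨by linarith, h⟩
  have h2 : 1 / 5 ≤ √(rsq 1 p) := Real.le_sqrt_of_sq_le (le_trans (by norm_num) hs.2)
  have h3 : (√(rsq 1 p) - 1 / 5) ^ 2 ≤ ε / 4 * (ε / 4) :=
    sq_bd (b := ε / 4) (sub_nonneg.2 h2) (sub_le_iff_le_add'.2 h1) le_rfl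
  have h5 : tr p = (√(rsq 1 p) - 1 / 5) ^ 2 := by
    unfold tr
    rw [hs.1, sub_self, zero_pow two_ne_zero, zero_add]
  rw [h5]
  exact lt_of_le_of_lt h3 (quarter hε0)

private theorem ball_aux {ε : ℝ} (hε0 : 0 < ε) {x : ℝ} (hp : x ≤ 1 / 25) :
    x < (1 / 5 + ε / 4) ^ 2 := by
  have h4 : 0 < ε * ε := mul_pos hε0 hε0
  have : (1 / 5 + ε / 4) ^ 2 = 1 / 25 + ε / 10 + ε * ε / 16 := by ring
  rw [this]
  linarith

private theorem low_aux {ε : ℝ} (hε0 : 0 < ε) (hε1 : ε < 1 / 400) {p : R4}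
    (hp : p.2.1 ≤ 3 / 4) : ε ^ 2 ≤ tr p := by
  have h2 : 1 / 4 ≤ √(rsq 1 p) := by
    have := (abs_le.1 (abs_a_le p)).1
    linarith
  have h3 : ε ^ 2 ≤ (√(rsq 1 p) - 1 / 5) ^ 2 := by
    apply pow_le_pow_left₀ hε0.le
    linarith
  exact h3.trans (le_add_of_nonneg_left (sq_nonneg _))

private theorem sph_low {p : R4} (hp : p ∈ sph 0) : p.2.1 ≤ 3 / 4 := by
  have h1 := sq_le_rsq p
  rw [hp.2] at h1
  refine le_of_not_gt fun h4 => ?_
  have h5 : (3 / 4 : ℝ) * (3 / 4) < p.2.1 * p.2.1 :=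
    mul_lt_mul'' h4 h4 (by norm_num) (by norm_num)
  rw [pow_two] at h1
  linarith

private theorem sq_a_eq (a₁ : ℝ) :
    (3 / 5 - a₁) ^ 2 = 1 / 25 - (a₁ - 2 / 5) * (4 / 5 - a₁) := by ring

private theorem sq_a {a₁ : ℝ} (h1 : 2 / 5 ≤ a₁) (h2 : a₁ ≤ 4 / 5) : (3 / 5 - a₁) ^ 2 ≤ 1 / 25 := by
  rw [sq_a_eq]
  exact sub_le_self _ (mul_nonneg (sub_nonneg.2 h1) (sub_nonneg.2 h2))

private theorem sq_a_lt {a₁ : ℝ} (h1 : 2 / 5 < a₁) (h2 : a₁ < 4 / 5) :
    (3 / 5 - a₁) ^ 2 < 1 / 25 := by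
  rw [sq_a_eq]
  exact sub_lt_self _ (mul_pos (sub_pos.2 h1) (sub_pos.2 h2))

private theorem tube_ax {ε a : ℝ} (hε0 : 0 < ε) (h : a ≤ 4 / 5 - ε) : ε ^ 2 ≤ tr (ax a) := by
  rw [tr_ax (by linarith)]
  apply pow_le_pow_left₀ hε0.le
  linarith

private theorem not_flat_ax {a : ℝ} (h : a < 4 / 5) (h7 : rsq 1 (ax a) ≤ 1 / 25) : False := by
  rw [rsq_ax] at h7
  have h3 : (1 / 5 : ℝ) < 1 - a := by linarith
  have h4 : (1 / 5 : ℝ) * (1 / 5) < (1 - a) * (1 - a) := mul_lt_mul'' h3 h3 (by norm_num) (by norm_num)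
  have h5 : (a - 1) ^ 2 = (1 - a) * (1 - a) := by ring
  rw [h5] at h7
  linarith

private theorem fifth_aux {a : ℝ} (h : a < 4 / 5) : 4 / 5 - 1 / 200 ≤ 8 / 5 - a := by
  linarith

private theorem a_bds {ε a₁ : ℝ} (hε1 : ε < 1 / 400) (h1 : 4 / 5 - ε < a₁) : 3 / 4 < a₁ := by
  linarith

private theorem smul_lt {lam r x : ℝ} (hlam : 0 < lam) (hlr : lam < r) (hx : x < 1) :
    lam * x < r := (mul_lt_of_lt_one_right hlam hx).trans hlr

private theorem nsq_pc (a : ℝ) : nsq (pc (8 / 5 - a) - pc 1) = (3 / 5 - a) ^ 2 := by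
  simp only [nsq, pc, Prod.mk_sub_mk, sub_zero, Complex.zero_re, Complex.zero_im]
  ring

private theorem norm_pc {a : ℝ} (h1 : 2 / 5 ≤ a) (h2 : a ≤ 4 / 5) :
    ‖pc (8 / 5 - a) - pc 1‖ < 1 := by
  have h8 : pc (8 / 5 - a) - pc 1 = ((3 / 5 - a : ℝ), (0 : ℂ)) := by
    simp only [pc, Prod.mk_sub_mk, sub_zero]
    refine Prod.ext ?_ rfl
    change 8 / 5 - a - 1 = 3 / 5 - a
    ring
  rw [h8, Prod.norm_def]
  refine max_lt ?_ ?_
  · change |3 / 5 - a| < 1
    rw [abs_lt]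
    constructor <;> linarith
  · change ‖(0 : ℂ)‖ < 1
    rw [norm_zero]
    exact one_pos

private theorem sub_ax (q : R4) (lam : ℝ) : ((q.1, pc 1 + lam • (q.2 - pc 1)) : R4) - ax 1 =
    (q.1 - 1 / 2, lam • (q.2 - pc 1)) := by
  refine Prod.ext rfl ?_
  change pc 1 + lam • (q.2 - pc 1) - pc 1 = lam • (q.2 - pc 1)
  exact add_sub_cancel_left _ _

private theorem near_ax {r : ℝ} (hr : 0 < r) : ∀ᶠ q : R4 in 𝓝 (ax (4 / 5)),
    4 / 5 - 1 / 200 ≤ q.2.1 ∧ rsq 1 q ≤ 1 / 20 ∧ |q.1 - 1 / 2| < r := by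
  have c1 : ContinuousAt (fun q : R4 => q.2.1) (ax (4 / 5)) :=
    (continuous_fst.comp continuous_snd).continuousAt
  have c2 : ContinuousAt (fun q : R4 => |q.1 - 1 / 2|) (ax (4 / 5)) :=
    (continuous_fst.sub continuous_const).abs.continuousAt
  have h0 : rsq 1 (ax (4 / 5)) < 1 / 20 := by rw [rsq_ax]; norm_num
  have h1 : (4 / 5 - 1 / 200 : ℝ) < (ax (4 / 5)).2.1 := by
    change (4 / 5 - 1 / 200 : ℝ) < 4 / 5
    norm_num
  have h2 : |(ax (4 / 5)).1 - 1 / 2| < r := by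
    change |(1 / 2 : ℝ) - 1 / 2| < r
    rw [sub_self, abs_zero]
    exact hr
  have e1 := c1.eventually (lt_mem_nhds h1)
  have e2 := (continuous_rsq 1).continuousAt.eventually (gt_mem_nhds h0)
  have e3 := c2.eventually (gt_mem_nhds h2)
  exact (e1.and (e2.and e3)).mono fun q hq => ⟨hq.1.le, hq.2.1.le, hq.2.2⟩

private theorem det_near {G : R4 → R4} {lam r : ℝ} (hr : 0 < r) (hlam : 0 < lam)
    (hform : ∀ p : R4, 4 / 5 - 1 / 200 ≤ p.2.1 → rsq 1 p ≤ 1 / 20 → |p.1 - 1 / 2| < r →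
      G p = (p.1, pc 1 + lam • (p.2 - pc 1))) {F : R4 → R4} (hF : F =ᶠ[𝓝 (ax (4 / 5))] G) :
    0 < (fderiv ℝ F (ax (4 / 5))).det := by
  have h2 : F =ᶠ[𝓝 (ax (4 / 5))] (fun q : R4 => ((q.1, pc 1 + lam • (q.2 - pc 1)) : R4)) :=
    hF.trans ((near_ax hr).mono fun q hq => hform q hq.1 hq.2.1 hq.2.2)
  have h3 := (hasFDerivAt_form lam (ax (4 / 5))).congr_of_eventuallyEq h2
  have h4 : fderiv ℝ F (ax (4 / 5)) = LM lam := h3.fderiv
  rw [h4, det_LM]
  exact pow_pos hlam 3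

end SPI

open SPI in
theorem m_SPI (hROT : StROT) (hA1 : StA1) (hF : StFam) : StSPI := by
  classical
  intro G d r lam hd hr hlam hlr hG hform
  -- the open set `V`
  have hcomp : IsCompact (SP ∪ flat 1) := by
    refine X2.isCompact_SP.union ?_
    apply Metric.isCompact_of_isClosed_isBounded
    · apply IsClosed.inter (isClosed_eq continuous_fst continuous_const)
      exact isClosed_le (continuous_rsq 1) continuous_const
    · exact (isBounded_of_rsq 1 (1 / 25) (1 / 2) (1 / 2)).subset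
        (fun p hp => ⟨hp.1.ge, hp.1.le, hp.2⟩)
  obtain ⟨Φ, hΦ, hΦG⟩ := hA1 R4 _ _ 𝓘(ℝ, R4) R4 G (SP ∪ flat 1) hcomp hG.1 hG.2
  have hVo : IsOpen Φ.source := Φ.open_source
  have hGV : EmbOn I4 G Φ.source := by
    refine ⟨fun p hp => ⟨Φ, hp, fun q hq => (hΦG q hq).symm⟩, fun p hp q hq he => ?_⟩
    refine Φ.toPartialEquiv.injOn hp hq ?_
    have h1 : Φ p = Φ q := by rw [hΦG p hp, hΦG q hq, he]
    exact h1
  have hsub1 : sph 1 ⊆ Φ.source := fun p hp => hΦ (Or.inl (Or.inl (Or.inr hp)))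
  obtain ⟨m, hm, hmV⟩ := exists_tube hVo hsub1
  -- the radius
  obtain ⟨ε, hε0, hε1, hεr, hεm⟩ := exists_eps hr hm
  have htube : ∀ p, tr p < ε ^ 2 → p ∈ Φ.source := fun p hp => hmV p (hp.trans hεm)
  obtain ⟨R, a₁, hR0, hR1, hR2, hR3, hR4, ha₁, hRa, hR5, hR6⟩ :=
    hROT d ε hd ⟨hε0, hε1.trans (by norm_num)⟩
  obtain ⟨ha1, ha2⟩ := ha₁
  have ha75 : 3 / 4 < a₁ := a_bds hε1 ha1
  have ha45 : a₁ < 4 / 5 := ha2.trans (sub_lt_self _ (half_pos hε0))
  have ha24 : 2 / 5 < a₁ := lt_trans (by norm_num) ha75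
  have ha15 : 1 / 5 < a₁ := lt_trans (by norm_num) ha75
  -- points near the cuff
  have hnear : ∀ q, tr q < ε ^ 2 → 4 / 5 - 1 / 200 ≤ q.2.1 ∧ rsq 1 q ≤ 1 / 20 ∧
      |q.1 - 1 / 2| < r ∧ ‖q.2 - pc 1‖ < 1 := near_aux hε0 hε1 hεr
  have hVt : ∀ t : ℝ, ∀ p ∈ SP, R.f (t, p) ∈ Φ.source := by
    intro t p hp
    by_cases h : ε ^ 2 ≤ tr p
    · rw [hR1 t p h]
      exact hΦ (Or.inl hp)
    · exact htube _ (by rw [hR2]; exact not_le.1 h)
  -- the two germs
  set G₁ : R4 → R4 := fun p => G (R.f (1, p)) with hG₁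
  have hE₁ : EmbOn I4 G₁ SP := by
    have h := (famOn_iff.1 (famOn_dfam R SP)).2 1 ⟨by norm_num, le_rfl⟩
    exact embOn_comp hGV h (fun p hp => hVt 1 p hp)
  have hq₁ : Eqv G G₁ := by
    have h := eqv_precomp hF hGV (famOn_dfam R SP) (fun t _ p hp => hVt t p hp)
    have h0 : (fun p => G (R.f (0, p))) = G := funext fun p => by rw [hR0]
    rw [h0] at h
    exact h
  set F' : R4 → R4 := fun p => if rsq 1 p ≤ (1 / 5 + ε / 4) ^ 2 then G p else G₁ p with hF'
  have hcore1 : ∀ p, tr p < ε ^ 2 / 4 → G₁ p = G p := fun p hp => by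
    show G (R.f (1, p)) = G p
    rw [hR4 p hp]
  -- `F' = G₁` near the spine
  have hN1 : NearEq G₁ F' SP := by
    refine nearEq_of_eventuallyEq fun p hp => ?_
    by_cases h : rsq 1 p ≤ (1 / 5 + ε / 4) ^ 2
    · have ht : tr p < ε ^ 2 / 4 := spine_aux hε0 hp h
      filter_upwards [continuous_tr.continuousAt.eventually (gt_mem_nhds ht)] with q hq
      show G₁ q = if rsq 1 q ≤ (1 / 5 + ε / 4) ^ 2 then G q else G₁ q
      split_ifs
      · exact hcore1 q hq
      · rfl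
    · filter_upwards [(continuous_rsq 1).continuousAt.eventually (lt_mem_nhds (not_le.1 h))]
        with q hq
      show G₁ q = if rsq 1 q ≤ (1 / 5 + ε / 4) ^ 2 then G q else G₁ q
      rw [if_neg (not_le.2 hq)]
  -- `F' = G` near the ball
  have hN2 : ∀ p, rsq 1 p ≤ 1 / 25 → F' =ᶠ[𝓝 p] G := by
    intro p hp
    have h1 : rsq 1 p < (1 / 5 + ε / 4) ^ 2 := ball_aux hε0 hp
    filter_upwards [(continuous_rsq 1).continuousAt.eventually (gt_mem_nhds h1)] with q hq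
    show (if rsq 1 q ≤ (1 / 5 + ε / 4) ^ 2 then G q else G₁ q) = G q
    rw [if_pos (le_of_lt hq)]
  have hE' : EmbOn I4 F' SP := embOn_congr hN1 hE₁
  have hSPval : ∀ p ∈ SP, F' p = G (R.f (1, p)) := fun p hp =>
    ((hN1.eventuallyEq hp).self_of_nhds).symm
  have hflat : ∀ p ∈ flat 1, F' p = G p := fun p hp => (hN2 p hp.2).self_of_nhds
  have hlow : ∀ p : R4, p.2.1 ≤ 3 / 4 → F' p = G p := by
    intro p hp
    have h1 : ε ^ 2 ≤ tr p := low_aux hε0 hε1 hp
    show (if rsq 1 p ≤ (1 / 5 + ε / 4) ^ 2 then G p else G (R.f (1, p))) = G p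
    rw [hR1 1 p h1]
    split_ifs <;> rfl
  have hmem1 : ∀ a ∈ Icc (1 / 5 : ℝ) (4 / 5), core F' a = G (R.f (1, ax a)) := fun a ha =>
    hSPval _ (ax_mem_neck ha)
  have ha₁I : a₁ ∈ Icc (1 / 5 : ℝ) (4 / 5) := ⟨ha15.le, ha45.le⟩
  have hx0 : ax (8 / 5 - a₁) ∈ flat 1 := by
    refine ⟨rfl, ?_⟩
    rw [rsq_ax, show 8 / 5 - a₁ - 1 = 3 / 5 - a₁ by ring]
    exact sq_a ha24.le ha45.le
  have hcr : core F' a₁ = F' (ax (8 / 5 - a₁)) := by
    rw [hmem1 a₁ ha₁I, hRa, hflat _ hx0]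
  refine ⟨F', a₁, ha75, ?_, hq₁.trans (eqv_of_nearEq hF hE₁ hN1), hlow, ?_, ?_, ?_⟩
  · refine ⟨?_, hE'.2, ?_, ⟨ha15, ha45⟩, ?_, ?_⟩
    · rintro p (hp | hp)
      · exact hE'.1 p hp
      · exact ld_congr (hN2 p hp.2).symm (hG.1 p (Or.inr hp))
    · have hv : ∀ p ∈ flat 1 ∪ sph (1 - 1), F' p = G p ∧ p ∈ SP ∪ flat 1 := by
        rintro p (hp | hp)
        · exact ⟨hflat p hp, Or.inr hp⟩
        · rw [sub_self] at hp
          exact ⟨hlow p (sph_low hp), Or.inl (Or.inl (Or.inl hp))⟩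
      intro p hp q hq he
      rw [(hv p hp).1, (hv q hq).1] at he
      exact hG.2 (hv p hp).2 (hv q hq).2 he
    · refine ⟨pc (8 / 5 - a₁), ?_, hcr, ?_⟩
      · rw [nsq_pc]
        exact sq_a_lt ha24 ha45
      · have hld : LD G (ax (8 / 5 - a₁)) := hG.1 _ (Or.inr hx0)
        have hdG : HasFDerivAt G (fderiv ℝ G (ax (8 / 5 - a₁))) (R.f (1, ax a₁)) := by
          rw [hRa]
          exact ((ld_iff.1 hld).1.self_of_nhds.differentiableAt (by simp)).hasFDerivAt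
        have hdR : HasFDerivAt (fun q : R4 => R.f (1, q))
            (fderiv ℝ (fun q : R4 => R.f (1, q)) (ax a₁)) (ax a₁) :=
          ((ld_iff.1 (ld_dfam R 1 (ax a₁))).1.self_of_nhds.differentiableAt
            (by simp)).hasFDerivAt
        have hd1 : HasFDerivAt G₁ ((fderiv ℝ G (ax (8 / 5 - a₁))).comp
            (fderiv ℝ (fun q : R4 => R.f (1, q)) (ax a₁))) (ax a₁) := hdG.comp (ax a₁) hdR
        have hd2 : fderiv ℝ F' (ax a₁) = (fderiv ℝ G (ax (8 / 5 - a₁))).comp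
            (fderiv ℝ (fun q : R4 => R.f (1, q)) (ax a₁)) := by
          rw [← (hN1.eventuallyEq (ax_mem_neck ha₁I)).fderiv_eq]
          exact hd1.fderiv
        have hd3 : fderiv ℝ F' (1 / 2, pc (8 / 5 - a₁)) = fderiv ℝ G (ax (8 / 5 - a₁)) :=
          (hN2 (ax (8 / 5 - a₁)) hx0.2).fderiv_eq
        set κ : R4 := fderiv ℝ (fun q : R4 => R.f (1, q)) (ax a₁) (0, ((1 : ℝ), (0 : ℂ)))
          with hκ
        have hk : HasDerivAt (fun a => R.f (1, ax a)) κ a₁ :=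
          hdR.comp_hasDerivAt a₁ (hasDerivAt_ax a₁)
        have hk1 : HasDerivAt (fun a => (R.f (1, ax a)).1) κ.1 a₁ := hk.fst
        refine ⟨κ.1, κ.2, ?_, ?_⟩
        · rw [← hk1.deriv]
          exact hR6
        · rw [hd2, hd3]
          rfl
    · rintro a ha ⟨q, hq, he⟩
      rw [hmem1 a ha, hflat q hq] at he
      have hqa : q = R.f (1, ax a) :=
        hGV.2 (hΦ (Or.inr hq)) (hVt 1 _ (ax_mem_neck ha)) he
      rcases eq_or_lt_of_le ha.2 with h4 | h4
      · left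
        rw [h4]
        norm_num
      · right
        by_cases h5 : a ≤ 4 / 5 - ε
        · exfalso
          rw [hR1 1 _ (tube_ax hε0 h5)] at hqa
          rw [hqa] at hq
          exact not_flat_ax h4 hq.2
        · exact hR5 a ⟨not_le.1 h5, h4⟩ (hqa ▸ hq)
  · intro a ha
    by_cases h : ε ^ 2 ≤ tr (ax a)
    · left
      rw [hmem1 a ha, hR1 1 _ h]
      rfl
    · right
      have h1 : tr (R.f (1, ax a)) < ε ^ 2 := by rw [hR2]; exact not_le.1 h
      obtain ⟨h2, h3, h4, h5⟩ := hnear _ h1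
      rw [hmem1 a ha, hform _ h2 h3 h4]
      generalize R.f (1, ax a) = q at h2 h3 h4 h5
      rw [sub_ax, Prod.norm_def]
      refine max_lt ?_ ?_
      · exact h4
      · change ‖lam • (q.2 - pc 1)‖ < r
        rw [norm_smul, Real.norm_eq_abs, abs_of_pos hlam]
        exact smul_lt hlam hlr h5
  · exact det_near hr hlam hform (hN2 _ (by rw [rsq_ax]; norm_num))
  · rw [hmem1 a₁ ha₁I, hRa]
    have h2 : 4 / 5 - 1 / 200 ≤ (ax (8 / 5 - a₁)).2.1 := fifth_aux ha45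
    rw [hform (ax (8 / 5 - a₁)) h2 (hx0.2.trans (by norm_num)) (by
      change |(1 / 2 : ℝ) - 1 / 2| < r
      rw [sub_self, abs_zero]
      exact hr)]
    rw [sub_ax, Prod.norm_def]
    refine max_lt ?_ ?_
    · change |(1 / 2 : ℝ) - 1 / 2| < lam
      rw [sub_self, abs_zero]
      exact hlam
    · change ‖lam • (pc (8 / 5 - a₁) - pc 1)‖ < lam
      rw [norm_smul, Real.norm_eq_abs, abs_of_pos hlam]
      exact mul_lt_of_lt_one_right hlam (norm_pc ha24.le ha45.le)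

end Pool.Agent.Helper70.BI


end

/-! ## Helper70.BI.M_FML1 -/

section

/-!
# Project BI, part (E), module FML1: the contracted family of arcs
-/

set_option autoImplicit false

open scoped Manifold ContDiff Topology ComplexConjugate
open Set Filter Pool.Agent.Helper65.Barb Pool.Agent.Helper18.BI

namespace Pool.Agent.Helper70.BI

open Pool.Agent.Helper34.BI (cfac GenData ArcFamily cst crv st)

namespace FML1

/-! ### the function `bb lam` -/

private theorem cfac_one (lam q : ℝ) (h : 9 / 100 ≤ q) : cfac lam q = 1 := by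
  unfold cfac
  have : step ((q - 1 / 20) / (1 / 25)) = 1 :=
    Real.smoothTransition.one_of_one_le (by rw [le_div_iff₀ (by norm_num)]; linarith)
  rw [this]; ring

private theorem cfac_lam (lam q : ℝ) (h : q ≤ 1 / 20) : cfac lam q = lam := by
  unfold cfac
  have : step ((q - 1 / 20) / (1 / 25)) = 0 :=
    Real.smoothTransition.zero_of_nonpos (div_nonpos_of_nonpos_of_nonneg (by linarith)
      (by norm_num))
  rw [this]; ring

private theorem bb_low (lam : ℝ) {a : ℝ} (h : a ≤ 7 / 10) : bb lam a = a := by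
  unfold bb
  rw [cfac_one lam _ (by nlinarith)]; ring

private theorem bb_high (lam : ℝ) {a : ℝ} (h : 39 / 50 ≤ a) (h' : a ≤ 1) :
    bb lam a = 1 - lam * (1 - a) := by
  unfold bb
  rw [cfac_lam lam _ (by nlinarith)]; ring

private theorem contDiff_bb (lam : ℝ) : ContDiff ℝ ∞ (bb lam) := by
  have h : ContDiff ℝ ∞ (fun q : ℝ => cfac lam q) := by
    unfold cfac step
    exact contDiff_const.add (contDiff_const.mul
      (Real.smoothTransition.contDiff.comp ((contDiff_id.sub contDiff_const).div_const _)))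
  have h2 : ContDiff ℝ ∞ (fun a : ℝ => (a - 1) ^ 2) := by fun_prop
  unfold bb
  exact contDiff_const.add ((h.comp h2).mul (contDiff_id.sub contDiff_const))

private theorem deriv_bb (hCL : StCL) {lam : ℝ} (h : lam ∈ Ioc (0 : ℝ) 1) (a : ℝ) :
    0 < deriv (bb lam) a := by
  obtain ⟨-, -, h2⟩ := hCL 1 (Or.inr rfl)
  exact (h2 lam h).2.2.2.2.2.2 a

private theorem strictMono_bb (hCL : StCL) {lam : ℝ} (h : lam ∈ Ioc (0 : ℝ) 1) :
    StrictMono (bb lam) := strictMono_of_deriv_pos (deriv_bb hCL h)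

/-! ### norms -/

private theorem rsq_ax (a : ℝ) : rsq 1 (ax a) = (a - 1) ^ 2 := by
  simp [rsq, nsq, ax]

private theorem norm_ax_sub (x : ℝ) : ‖ax x - ax 1‖ = |x - 1| := by
  simp [ax, Prod.norm_def]

private theorem norm_le_of_rsq {q : R4} {e : ℝ} (he : 0 ≤ e) (h1 : q.1 = 1 / 2)
    (h2 : rsq 1 q ≤ e ^ 2) : ‖q - ax 1‖ ≤ e := by
  simp only [rsq, nsq] at h2
  have e1 : |q.2.1 - 1| ≤ e := by
    apply abs_le_of_sq_le_sq _ he
    linarith only [h2, sq_nonneg q.2.2.re, sq_nonneg q.2.2.im]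
  have e2 : ‖q.2.2‖ ≤ e := by
    apply le_of_sq_le_sq _ he
    rw [← Complex.normSq_eq_norm_sq, Complex.normSq_apply]
    linarith only [h2, sq_nonneg (q.2.1 - 1)]
  rw [Prod.norm_def, Prod.norm_def]
  refine max_le ?_ (max_le ?_ ?_)
  · simp [ax, h1, he]
  · simpa [ax] using e1
  · simpa [ax] using e2

private theorem sph0_far {p : R4} (h : p ∈ sph 0) : 9 / 100 ≤ rsq 1 p := by
  have h2 := h.2
  rw [rsq_one_eq, h2]
  have h3 := sq_le_rsq p
  rw [h2] at h3
  have h4 : p.2.1 ≤ 1 / 5 := by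
    refine (abs_le_of_sq_le_sq' ?_ (by norm_num)).2
    linarith only [h3]
  linarith

/-! ### the charts of the cuffs -/

private theorem nsq_st (y : ℂ) : nsq (st y) = 1 := by
  have h0 : 0 ≤ Complex.normSq y := Complex.normSq_nonneg y
  have h1 : Complex.normSq y + 1 ≠ 0 := by positivity
  have h2 : Complex.normSq y = y.re * y.re + y.im * y.im := Complex.normSq_apply y
  simp only [st, nsq, Complex.real_smul, Complex.mul_re, Complex.mul_im, Complex.ofReal_re,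
    Complex.ofReal_im, zero_mul, sub_zero, add_zero]
  have h3 : y.re ^ 2 = Complex.normSq y - y.im ^ 2 := by rw [h2]; ring
  field_simp
  rw [h3]
  ring

private theorem cst_false_mem (y : ℂ) : cst false y ∈ sph 0 := by
  have h := nsq_st y
  refine ⟨rfl, ?_⟩
  simp only [cst, rsq, nsq, Complex.real_smul, Complex.mul_re, Complex.mul_im, Complex.ofReal_re,
    Complex.ofReal_im, zero_mul, sub_zero, add_zero, Bool.false_eq_true, if_false] at h ⊢
  linear_combination (1 / 25) * h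

private theorem cst_true_mem (y : ℂ) : cst true y ∈ sph 1 := by
  have h := nsq_st y
  refine ⟨rfl, ?_⟩
  simp only [cst, rsq, nsq, Complex.real_smul, Complex.mul_re, Complex.mul_im, Complex.ofReal_re,
    Complex.ofReal_im, zero_mul, sub_zero, add_zero, if_true] at h ⊢
  nlinarith

private theorem crv_false_mem (θ : ℝ) : crv false θ ∈ sph 0 := by
  have h := Real.sin_sq_add_cos_sq θ
  refine ⟨rfl, ?_⟩
  simp only [crv, rsq, nsq, Bool.false_eq_true, if_false]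
  linear_combination (1 / 25) * h

private theorem crv_true_mem (θ : ℝ) : crv true θ ∈ sph 1 := by
  have h := Real.sin_sq_add_cos_sq θ
  refine ⟨rfl, ?_⟩
  simp only [crv, rsq, nsq, if_true]
  linear_combination (1 / 25) * h

/-! ### derivatives -/

private theorem fderiv_Hl {H : ℝ × ℝ → R4} (hH : ContDiff ℝ ∞ H) (lam : ℝ) (x ζ : ℝ × ℝ) :
    fderiv ℝ (fun z : ℝ × ℝ => H (z.1, bb lam z.2)) x ζ =
      fderiv ℝ H (x.1, bb lam x.2) (ζ.1, deriv (bb lam) x.2 * ζ.2) := by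
  have hb : HasDerivAt (bb lam) (deriv (bb lam) x.2) x.2 :=
    ((contDiff_bb lam).differentiable (by simp) x.2).hasDerivAt
  have h1 : HasFDerivAt (fun z : ℝ × ℝ => (z.1, bb lam z.2))
      ((ContinuousLinearMap.fst ℝ ℝ ℝ).prod
        ((ContinuousLinearMap.toSpanSingleton ℝ (deriv (bb lam) x.2)).comp
          (ContinuousLinearMap.snd ℝ ℝ ℝ))) x :=
    hasFDerivAt_fst.prodMk (hb.hasFDerivAt.comp x hasFDerivAt_snd)
  have h2 : HasFDerivAt H (fderiv ℝ H (x.1, bb lam x.2)) (x.1, bb lam x.2) :=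
    (hH.differentiable (by simp) _).hasFDerivAt
  have h3 := (h2.comp x h1).fderiv
  have h4 : (H ∘ fun z : ℝ × ℝ => (z.1, bb lam z.2)) = fun z : ℝ × ℝ => H (z.1, bb lam z.2) := rfl
  rw [h4] at h3
  rw [h3]
  simp [mul_comm]

private theorem deriv_Hl {H : ℝ × ℝ → R4} (hH : ContDiff ℝ ∞ H) (lam t a : ℝ) :
    deriv (fun a => H (t, bb lam a)) a =
      deriv (bb lam) a • fderiv ℝ H (t, bb lam a) (0, 1) := by
  have hb : HasDerivAt (bb lam) (deriv (bb lam) a) a :=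
    ((contDiff_bb lam).differentiable (by simp) a).hasDerivAt
  have h1 : HasDerivAt (fun a : ℝ => (t, bb lam a)) (0, deriv (bb lam) a) a :=
    (hasDerivAt_const a t).prodMk hb
  have h2 : HasFDerivAt H (fderiv ℝ H (t, bb lam a)) (t, bb lam a) :=
    (hH.differentiable (by simp) _).hasFDerivAt
  have h3 := (HasFDerivAt.comp_hasDerivAt_of_eq a h2 h1 rfl).deriv
  have h4 : (H ∘ fun a : ℝ => (t, bb lam a)) = fun a : ℝ => H (t, bb lam a) := rfl
  rw [h4] at h3
  rw [h3, ← map_smul]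
  simp

end FML1

open FML1 in
theorem m_FML1 (hCL : StCL) (hCTR : StCTR) : StFML1 := by
  intro F F' d δ δ' r δ₂ H hd hL h2δ h2δ' hA
  have hδ1 : δ ≤ 1 / 100 := hL.nb.small
  have hr1 : r < 1 / 100 := lt_of_lt_of_le hL.lt hδ1
  have hδ₂ := hA.pos
  have hδ₂r := hA.small
  have hr0 := hL.pos
  have hd0 : d ≠ 0 := by rcases hd with rfl | rfl <;> norm_num
  -- the lower bound
  obtain ⟨μ, hμ, hμ'⟩ : ∃ μ : ℝ, 0 < μ ∧ ∀ t, ∀ a ∈ Icc (1 / 5 : ℝ) (1 - δ₂), δ₂ ≤ |a - 2 / 5| →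
      μ ≤ ‖H (t, a) - ax 1‖ := by
    have hc : Continuous (fun z : ℝ × ℝ => ‖H z - ax 1‖) :=
      (hA.smooth.continuous.sub continuous_const).norm
    let K : Set (ℝ × ℝ) := Icc (0 : ℝ) 1 ×ˢ (Icc (1 / 5 : ℝ) (1 - δ₂) ∩ {a | δ₂ ≤ |a - 2 / 5|})
    have hK : IsCompact K := by
      refine isCompact_Icc.prod (isCompact_Icc.inter_right ?_)
      exact isClosed_le continuous_const (by fun_prop)
    have hne : K.Nonempty := by
      refine ⟨(0, 1 / 5), ⟨by norm_num, by norm_num⟩, ⟨le_rfl, by linarith only [hδ₂r, hr1]⟩, ?_⟩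
      change δ₂ ≤ |1 / 5 - 2 / 5|
      rw [abs_of_neg (by norm_num)]; linarith only [hδ₂r, hr1]
    obtain ⟨z, hz, hmin⟩ := hK.exists_isMinOn hne hc.continuousOn
    refine ⟨‖H z - ax 1‖, ?_, ?_⟩
    · rw [norm_pos_iff, sub_ne_zero]
      intro h
      obtain ⟨-, ⟨h3, h4⟩, h5⟩ := hz
      have h6 := hA.ne z.1 z.2 ⟨h3, by linarith only [h4, hδ₂]⟩ h
      have h7 : δ₂ ≤ |z.2 - 2 / 5| := h5
      rw [h6] at h7
      rw [sub_self, abs_zero] at h7
      linarith only [h7, hδ₂]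
    · intro t a ha ha'
      rcases le_total t 0 with ht | ht
      · rw [hA.left t a ht]
        exact hmin (show ((0 : ℝ), a) ∈ K from ⟨⟨le_rfl, zero_le_one⟩, ha, ha'⟩)
      · rcases le_total t 1 with ht' | ht'
        · exact hmin (show (t, a) ∈ K from ⟨⟨ht, ht'⟩, ha, ha'⟩)
        · rw [hA.right t a ht']
          exact hmin (show ((1 : ℝ), a) ∈ K from ⟨⟨zero_le_one, le_rfl⟩, ha, ha'⟩)
  -- the choice of `lam`
  have hδ0 : 0 < δ := hL.nb.pos
  have hδ'0 : 0 < δ' := hL.nb'.pos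
  obtain ⟨lam, hl0, hl1, hlμ, hlδ, hlδ', hlδ₂⟩ : ∃ lam : ℝ, 0 < lam ∧ lam ≤ 1 / 2 ∧ lam < μ ∧
      lam < δ ∧ lam < δ' ∧ lam < δ₂ := by
    have hm : 0 < min (1 / 2) (min μ (min δ (min δ' δ₂))) :=
      lt_min (by norm_num) (lt_min hμ (lt_min hδ0 (lt_min hδ'0 hδ₂)))
    refine ⟨min (1 / 2) (min μ (min δ (min δ' δ₂))) / 2, ?_, ?_, ?_, ?_, ?_, ?_⟩
    · exact half_pos hm
    · exact (half_lt_self hm).le.trans (min_le_left _ _)
    · exact (half_lt_self hm).trans_le ((min_le_right _ _).trans (min_le_left _ _))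
    · exact (half_lt_self hm).trans_le
        ((min_le_right _ _).trans ((min_le_right _ _).trans (min_le_left _ _)))
    · exact (half_lt_self hm).trans_le
        ((min_le_right _ _).trans ((min_le_right _ _).trans ((min_le_right _ _).trans
          (min_le_left _ _))))
    · exact (half_lt_self hm).trans_le
        ((min_le_right _ _).trans ((min_le_right _ _).trans ((min_le_right _ _).trans
          (min_le_right _ _))))
  have hlI : lam ∈ Ioc (0 : ℝ) 1 := ⟨hl0, by linarith only [hl1]⟩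
  obtain ⟨-, -, hCL'⟩ := hCL 1 (Or.inr rfl)
  obtain ⟨-, -, hclc, hclf, hclax, -, -⟩ := hCL' lam hlI
  have hbm : StrictMono (bb lam) := strictMono_bb hCL hlI
  have hbd := deriv_bb hCL hlI
  have hb1 : bb lam (1 / 5) = 1 / 5 := bb_low lam (by norm_num)
  have hb2 : bb lam (2 / 5) = 2 / 5 := bb_low lam (by norm_num)
  have hb4 : bb lam (4 / 5) = 1 - lam / 5 := by
    rw [bb_high lam (by norm_num) (by norm_num)]; ring
  have hbI : ∀ a ∈ Icc (1 / 5 : ℝ) (4 / 5), bb lam a ∈ Icc (1 / 5 : ℝ) (1 - lam / 5) := by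
    intro a ha
    rw [← hb1, ← hb4]
    rw [hb1]
    constructor
    · calc (1 / 5 : ℝ) = bb lam (1 / 5) := hb1.symm
        _ ≤ bb lam a := hbm.monotone ha.1
    · exact hbm.monotone ha.2
  have hbO : ∀ a ∈ Icc (1 / 5 : ℝ) (4 / 5), bb lam a ∈ Ico (1 / 5 : ℝ) 1 := fun a ha =>
    ⟨(hbI a ha).1, by linarith only [(hbI a ha).2, hl0]⟩
  have hbO' : ∀ a ∈ Ioo (1 / 5 : ℝ) (4 / 5), bb lam a ∈ Ioo (1 / 5 : ℝ) 1 := fun a ha =>
    ⟨by rw [← hb1]; rw [hb1]; calc (1 / 5 : ℝ) = bb lam (1 / 5) := hb1.symm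
                                  _ < bb lam a := hbm ha.1,
      (hbO a ⟨ha.1.le, ha.2.le⟩).2⟩
  -- the germ near the second flat ball
  have hfl : ∀ p ∈ flat 1, (F' (clc 1 lam p)).1 = 1 / 2 ∧
      rsq 1 (F' (clc 1 lam p)) = lam ^ 2 * rsq 1 p := by
    intro p hp
    have h1 := hclc p (hp.2.trans (by norm_num))
    have h2 : rsq 1 (clc 1 lam p) = lam ^ 2 * rsq 1 p := by
      rw [h1]
      simp only [rsq, nsq, pc, Prod.fst_add, Prod.snd_add, Prod.smul_fst, Prod.smul_snd,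
        Prod.fst_sub, Prod.snd_sub, smul_eq_mul, Complex.real_smul, Complex.add_re,
        Complex.add_im, Complex.zero_re, Complex.zero_im, Complex.mul_re, Complex.mul_im,
        Complex.ofReal_re, Complex.ofReal_im, Complex.sub_re, Complex.sub_im]
      ring
    have h3 : (clc 1 lam p).1 = 1 / 2 := by rw [h1]; exact hp.1
    have h4 : ‖clc 1 lam p - ax 1‖ ≤ lam := by
      refine norm_le_of_rsq hl0.le h3 ?_
      rw [h2]
      have h5 : rsq 1 p ≤ 1 := hp.2.trans (by norm_num)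
      calc lam ^ 2 * rsq 1 p ≤ lam ^ 2 * 1 := mul_le_mul_of_nonneg_left h5 (sq_nonneg lam)
        _ = lam ^ 2 := mul_one _
    rw [hL.nb'.near _ (lt_of_le_of_lt h4 hlδ')]
    exact ⟨h3, h2⟩
  -- the claim
  have claim : ∀ t, ∀ a ∈ Icc (1 / 5 : ℝ) (4 / 5), (H (t, bb lam a)).1 = 1 / 2 →
      rsq 1 (H (t, bb lam a)) ≤ (lam / 5) ^ 2 → a = 4 / 5 ∨ a = 2 / 5 := by
    intro t a ha h1 h2
    have hx := hbI a ha
    have hn := norm_le_of_rsq (by positivity) h1 h2
    rcases lt_or_ge |bb lam a - 2 / 5| δ₂ with h3 | h3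
    · right
      rw [hA.mid t _ h3.le] at h1
      have h4 : d * (bb lam a - 2 / 5) = 0 := by
        have h5 : 1 / 2 + d * (bb lam a - 2 / 5) = 1 / 2 := h1
        linarith only [h5]
      have h5 : bb lam a = bb lam (2 / 5) := by
        rw [hb2]
        rcases mul_eq_zero.1 h4 with h | h
        · exact absurd h hd0
        · linarith only [h]
      exact hbm.injective h5
    · rcases le_or_gt (bb lam a) (1 - δ₂) with h4 | h4
      · have := hμ' t (bb lam a) ⟨hx.1, h4⟩ h3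
        linarith only [this, hn, hlμ, hl0]
      · left
        rw [hA.high t _ h4.le, rsq_ax] at h2
        have h5 : |bb lam a - 1| ≤ lam / 5 := abs_le_of_sq_le_sq h2 (by positivity)
        rw [abs_le] at h5
        have h6 : bb lam a = bb lam (4 / 5) := by
          rw [hb4]; linarith only [h5.1, hx.2]
        exact hbm.injective h6
  have hflat : ∀ t, ∀ a ∈ Icc (1 / 5 : ℝ) (4 / 5),
      H (t, bb lam a) ∈ (fun p => F' (clc 1 lam p)) '' flat 1 → a = 4 / 5 ∨ a = 2 / 5 := by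
    rintro t a ha ⟨p, hp, he⟩
    have he' : F' (clc 1 lam p) = H (t, bb lam a) := he
    obtain ⟨h1, h2⟩ := hfl p hp
    rw [he'] at h1 h2
    refine claim t a ha h1 ?_
    rw [h2]
    have h3 : rsq 1 p ≤ 1 / 25 := hp.2
    calc lam ^ 2 * rsq 1 p ≤ lam ^ 2 * (1 / 25) := mul_le_mul_of_nonneg_left h3 (sq_nonneg lam)
      _ = (lam / 5) ^ 2 := by ring
  have hsph1 : ∀ t, ∀ a ∈ Ioo (1 / 5 : ℝ) (4 / 5), ∀ p ∈ sph 1,
      H (t, bb lam a) ≠ F' (clc 1 lam p) := by
    intro t a ha p hp he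
    have hpf : p ∈ flat 1 := ⟨hp.1, hp.2.le⟩
    rcases hflat t a ⟨ha.1.le, ha.2.le⟩ ⟨p, hpf, he.symm⟩ with h | h
    · exact ha.2.ne h
    · obtain ⟨h1, h2⟩ := hfl p hpf
      rw [← he, h, hb2, hA.mid t _ (by simpa using hδ₂.le), hp.2] at h2
      have h3 : rsq 1 ((1 / 2 + d * ((2 : ℝ) / 5 - 2 / 5), pc 1) : R4) = 0 := by
        simp [rsq, nsq, pc]
      rw [h3] at h2
      have : 0 < lam ^ 2 * (1 / 25) := mul_pos (pow_pos hl0 2) (by norm_num)
      exact absurd h2 this.ne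
  -- the germ near the first cuff
  obtain ⟨U, -, hU2, hU3⟩ := hL.near
  have hsph0 : ∀ p ∈ sph 0, F' (clc 1 lam p) = F p := by
    intro p hp
    rw [hclf p (sph0_far hp)]
    exact (hU3 (hU2 hp)).symm
  have hcuff : ∀ t, ∀ a ∈ Ioo (1 / 5 : ℝ) (4 / 5),
      H (t, bb lam a) ∈ (fun p => F' (clc 1 lam p)) '' (sph 0 ∪ sph 1) →
      H (t, bb lam a) ∈ F '' sph 0 := by
    rintro t a ha ⟨p, hp | hp, he⟩
    · exact ⟨p, hp, (hsph0 p hp).symm.trans he⟩
    · exact absurd he.symm (hsph1 t a ha p hp)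
  have hemb : EmbOn I4 (fun p => F' (clc 1 lam p)) SP := by
    refine (hCTR 1 F' (2 / 5) (Or.inr rfl) hL.nb'.br.loc hL.nb'.br.inj hL.nb'.br.injF ?_
      hL.nb'.br.only lam hlI).1
    rw [hL.nb'.str (2 / 5) (by simpa using hδ'0), hL.nb'.near (ax 1) (by simpa using hδ'0)]
    simp [ax, pc]
  have hsm : ContDiff ℝ ∞ (fun z : ℝ × ℝ => H (z.1, bb lam z.2)) :=
    hA.smooth.comp (contDiff_fst.prodMk ((contDiff_bb lam).comp contDiff_snd))
  have himm : ∀ t, ∀ a ∈ Icc (1 / 5 : ℝ) (4 / 5), deriv (fun a => H (t, bb lam a)) a ≠ 0 := by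
    intro t a ha
    rw [deriv_Hl hA.smooth]
    exact smul_ne_zero (hbd a).ne' (hA.imm t _ ⟨(hbO a ha).1, (hbO a ha).2.le⟩)
  have hinj : ∀ t, InjOn (fun a => H (t, bb lam a)) (Icc (1 / 5) (4 / 5)) := by
    intro t a ha a' ha' he
    exact hbm.injective (hA.inj t (hbO a ha) (hbO a' ha') he)
  have hlate : ∀ t, ∀ a ∈ Ioo (1 / 5 : ℝ) (4 / 5), H (t, bb lam a) ∈ F '' sph 0 →
      (0 < t ∧ t < 1) ∧ 2 / 5 < a := by
    intro t a ha h
    obtain ⟨h1, h2, h3⟩ := hA.late t _ (hbO' a ha) h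
    refine ⟨⟨h1, h2⟩, ?_⟩
    by_contra h4
    have := hbm.monotone (not_lt.1 h4)
    rw [hb2] at this
    exact absurd h3 (not_lt.2 this)
  have hup : ∀ u : ℝ, 39 / 50 ≤ u → 1 - δ₂ ≤ bb lam u := by
    intro u hu
    have h1 := hbm.monotone hu
    rw [bb_high lam le_rfl (by norm_num)] at h1
    linarith only [h1, hlδ₂, hl0]
  refine ⟨lam, hl0, hl1, hlδ, hlδ', hlδ₂, ?_, hflat, fun t a ha h => ?_⟩
  · refine ⟨hemb, by norm_num, by norm_num, ?_, ?_, hinj 1, himm 0, himm 1, ?_, ?_, ?_⟩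
    · exact hA.smooth.comp (contDiff_const.prodMk (contDiff_bb lam))
    · intro a ha
      have h1 : clc 1 lam ((1 / 2, a, 0) : R4) = ax (bb lam a) := hclax a
      change F' (clc 1 lam ((1 / 2, a, 0) : R4)) = _
      rw [h1]
      exact (hA.start _ ⟨(hbO a ha).1, (hbO a ha).2.le⟩).symm
    · intro a ha h
      have := (hlate 1 a ha (hcuff 1 a ha h)).1.2
      exact lt_irrefl _ this
    · refine ⟨hsm, ?_, ?_, ?_, fun t _ => hinj t, ?_, ?_, ?_, ?_, ?_⟩
      · intro t u ht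
        exact hA.left t _ ht
      · intro t u ht
        exact hA.right t _ ht
      · rintro t u (hu | hu)
        · refine hA.low t _ ?_
          rw [bb_low lam (by linarith only [hu])]
          linarith only [hu, hr1]
        · change H (t, bb lam u) = H (0, bb lam u)
          have := hup u (by linarith only [hu])
          rw [hA.high t _ this, hA.high 0 _ this]
      · intro t _ u hu
        rw [fderiv_Hl hA.smooth]
        have h1 : ((0 : ℝ), deriv (bb lam) u * 1) = deriv (bb lam) u • ((0 : ℝ), (1 : ℝ)) := by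
          simp
        simp only
        rw [h1, map_smul]
        exact smul_ne_zero (hbd u).ne' (hA.imm t _ ⟨(hbO u hu).1, (hbO u hu).2.le⟩)
      · have hf := hA.finite
        have hi : Function.Injective (fun z : ℝ × ℝ => (z.1, bb lam z.2)) := by
          rintro ⟨a, b⟩ ⟨a', b'⟩ h
          simp only [Prod.mk.injEq] at h
          ext
          · exact h.1
          · exact hbm.injective h.2
        refine (hf.preimage hi.injOn).subset ?_
        rintro ⟨t, u⟩ ⟨-, hu, h⟩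
        exact ⟨hbO' u hu, hcuff t u hu h⟩
      · intro t _ u hu h
        have h1 := hcuff t u hu h
        obtain ⟨h2, h3⟩ := hlate t u hu h1
        refine ⟨h2, by linarith only [h3], ?_⟩
        by_contra h4
        have h5 := hup u (by linarith only [not_lt.1 h4])
        rw [hA.high t _ h5] at h1
        obtain ⟨p, hp, he⟩ := h1
        have h6 := hL.far p hp
        rw [he, norm_ax_sub, abs_of_neg (by linarith only [(hbO' u hu).2])] at h6
        linarith only [h6, h5, hδ₂r, hr0]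
      · intro t _ u hu u' hu' h h'
        exact hbm.injective (hA.single t _ (hbO' u hu) _ (hbO' u' hu') (hcuff t u hu h)
          (hcuff t u' hu' h'))
      · intro t _ u hu i y _ he ζ η hζ
        cases i with
        | true => exact absurd he (hsph1 t u hu _ (cst_true_mem y))
        | false =>
          have e1 : (fun y => F' (clc 1 lam (cst false y))) = fun y => F (cst false y) :=
            funext fun y => hsph0 _ (cst_false_mem y)
          have he' : H (t, bb lam u) = F (cst false y) := he.trans (hsph0 _ (cst_false_mem y))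
          rw [fderiv_Hl hA.smooth] at hζ
          have hζ' : fderiv ℝ H (t, bb lam u) (ζ.1, deriv (bb lam) u * ζ.2) =
              fderiv ℝ (fun y => F (cst false y)) y η := by
            rw [← e1]; exact hζ
          obtain ⟨h1, h2⟩ := hA.trans t _ (hbO' u hu) y he' _ _ hζ'
          refine ⟨?_, h2⟩
          simp only [Prod.mk_eq_zero, mul_eq_zero, (hbd u).ne', false_or] at h1
          exact Prod.ext h1.1 h1.2
    · intro t _ u hu h b θ he
      cases b with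
      | true => exact hsph1 t u hu _ (crv_true_mem θ) he
      | false =>
        refine hA.avoid t _ (hbO' u hu) (hcuff t u hu h) θ ?_
        exact he.trans (hsph0 _ (crv_false_mem θ))
  · have h1 := hcuff t a ha h
    refine ⟨(hlate t a ha h1).2, ?_⟩
    obtain ⟨p, hp, he⟩ := h1
    exact ⟨p, hp, (hsph0 p hp).trans he⟩

end Pool.Agent.Helper70.BI


end

/-! ## Helper70.BI.M_C1 -/

section

/-!
# Project BI, part (E), module C1: centring
-/

set_option autoImplicit false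

open scoped Manifold ContDiff Topology ComplexConjugate
open Set Filter Pool.Agent.Helper65.Barb Pool.Agent.Helper18.BI

namespace Pool.Agent.Helper70.BI

namespace C1

open Pool.Agent.Helper34.BI (isLocalDiffeomorphAt_of_injective eventually_contDiffAt
  injective_fderiv)

theorem rsq_eq (c : ℝ) (p : R4) : rsq c p = nsq (p.2 - pc c) := by
  simp [rsq, pc, nsq]

theorem rsq_def (c : ℝ) (p : R4) :
    rsq c p = (p.2.1 - c) ^ 2 + (p.2.2.re ^ 2 + p.2.2.im ^ 2) := by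
  simp only [rsq, nsq]; ring

theorem sq_le_rsq (c : ℝ) (p : R4) : (p.2.1 - c) ^ 2 ≤ rsq c p := by
  rw [rsq_def]; nlinarith [sq_nonneg p.2.2.re, sq_nonneg p.2.2.im]

theorem rsq_ax (c a : ℝ) : rsq c (ax a) = (a - c) ^ 2 := by
  simp [rsq, nsq, ax]

theorem rsq_ax_ge {c a : ℝ} (hc : c = 0 ∨ c = 1) (ha : a ∈ Icc (1 / 5 : ℝ) (4 / 5)) :
    1 / 25 ≤ rsq c (ax a) := by
  rw [rsq_ax]
  obtain ⟨h1, h2⟩ := ha
  rcases hc with rfl | rfl <;> nlinarith

theorem sph_ge {c : ℝ} (hc : c = 0 ∨ c = 1) {p : R4} (hp : p ∈ sph (1 - c)) :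
    1 / 25 ≤ rsq c p := by
  have h1 := sq_le_rsq (1 - c) p
  have h2 := sq_le_rsq c p
  rw [hp.2] at h1
  rcases hc with rfl | rfl
  · have : 4 / 5 ≤ p.2.1 := by nlinarith
    nlinarith
  · have : p.2.1 ≤ 1 / 5 := by nlinarith
    nlinarith

theorem SP_ge {c : ℝ} (hc : c = 0 ∨ c = 1) {p : R4} (hp : p ∈ SP) : 1 / 25 ≤ rsq c p := by
  rcases hp with (h | h) | h
  · rcases hc with rfl | rfl
    · exact h.2.ge
    · exact sph_ge (Or.inr rfl) (by simpa using h)
  · rcases hc with rfl | rfl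
    · exact sph_ge (Or.inl rfl) (by simpa using h)
    · exact h.2.ge
  · have h1 : p = ax p.2.1 := by
      obtain ⟨h1, -, -, h4⟩ := h
      apply Prod.ext
      · exact h1
      · apply Prod.ext
        · rfl
        · exact h4
    rw [h1]
    exact rsq_ax_ge hc ⟨h.2.1, h.2.2.1⟩

theorem ax_SP {a : ℝ} (ha : a ∈ Icc (1 / 5 : ℝ) (4 / 5)) : ax a ∈ SP :=
  Or.inr ⟨rfl, ha.1, ha.2, rfl⟩

theorem ax_flat (c : ℝ) : ax c ∈ flat c := ⟨rfl, by rw [rsq_ax]; norm_num⟩

/-- level preserving diffeomorphisms, the identity away from the flat ball -/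
structure LP (c : ℝ) (G G' : R4 → R4) : Prop where
  sm : ContDiff ℝ ∞ G
  sm' : ContDiff ℝ ∞ G'
  gg : ∀ p, G (G' p) = p
  gg' : ∀ p, G' (G p) = p
  fst : ∀ p, (G p).1 = p.1
  off : ∃ η : ℝ, 0 < η ∧ ∀ p, 1 / 25 - η ≤ rsq c p → G p = p

namespace LP
variable {c : ℝ} {G G' : R4 → R4}

theorem symm (h : LP c G G') : LP c G' G := by
  obtain ⟨η, hη, h1⟩ := h.off
  refine ⟨h.sm', h.sm, h.gg', h.gg, fun p => ?_, η, hη, fun p hp => ?_⟩
  · have := h.fst (G' p)
    rw [h.gg] at this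
    exact this.symm
  · have := h.gg' p
    rwa [h1 p hp] at this

theorem fix (h : LP c G G') {p : R4} (hp : 1 / 25 ≤ rsq c p) : G p = p := by
  obtain ⟨η, hη, h1⟩ := h.off
  exact h1 p (by linarith)

theorem lt (h : LP c G G') {p : R4} (hp : rsq c p < 1 / 25) : rsq c (G p) < 1 / 25 := by
  by_contra hcon
  rw [not_lt] at hcon
  have h1 := h.fix hcon
  have h2 := h.gg' (G p)
  rw [h1, h.gg' p] at h2
  rw [← h2] at hcon
  linarith

theorem flat (h : LP c G G') {p : R4} (hp : p ∈ Pool.Agent.Helper18.BI.flat c) :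
    G p ∈ Pool.Agent.Helper18.BI.flat c := by
  refine ⟨by rw [h.fst]; exact hp.1, ?_⟩
  rcases hp.2.lt_or_eq with h1 | h1
  · exact (h.lt h1).le
  · rw [h.fix h1.ge]; exact h1.le

theorem fd (h : LP c G G') (p w : R4) : fderiv ℝ G (G' p) (fderiv ℝ G' p w) = w := by
  have d1 : HasFDerivAt G' (fderiv ℝ G' p) p := (h.sm'.differentiable (by simp) p).hasFDerivAt
  have d2 : HasFDerivAt G (fderiv ℝ G (G' p)) (G' p) :=
    (h.sm.differentiable (by simp) _).hasFDerivAt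
  have d3 := d2.comp p d1
  have d4 := d3.congr_of_eventuallyEq (f₁ := fun x : R4 => x)
    (Eventually.of_forall fun q => (h.gg q).symm)
  have d5 := d4.unique (hasFDerivAt_id p)
  exact congrArg (fun A : R4 →L[ℝ] R4 => A w) d5

theorem fd_fst (h : LP c G G') (p w : R4) : (fderiv ℝ G p w).1 = w.1 := by
  have d1 : HasFDerivAt G (fderiv ℝ G p) p := (h.sm.differentiable (by simp) p).hasFDerivAt
  have d2 := d1.fst
  have d3 := d2.congr_of_eventuallyEq (f₁ := fun q : R4 => q.1)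
    (Eventually.of_forall fun q => (h.fst q).symm)
  have d4 : HasFDerivAt (fun q : R4 => q.1) (ContinuousLinearMap.fst ℝ ℝ (ℝ × ℂ)) p :=
    hasFDerivAt_fst
  have d5 := d3.unique d4
  exact congrArg (fun A : R4 →L[ℝ] ℝ => A w) d5

theorem ld (h : LP c G G') (p : R4) : LD G p := by
  rw [ld_iff]
  refine ⟨Eventually.of_forall fun q => h.sm.contDiffAt, fun v w hvw => ?_⟩
  have h1 := h.symm.fd (p := p) (w := v)
  have h2 := h.symm.fd (p := p) (w := w)
  rw [hvw] at h1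
  exact h1.symm.trans h2

theorem image (h : LP c G G') (F : R4 → R4) :
    (fun p => F (G p)) '' Pool.Agent.Helper18.BI.flat c =
      F '' Pool.Agent.Helper18.BI.flat c := by
  ext y
  constructor
  · rintro ⟨p, hp, rfl⟩
    exact ⟨G p, h.flat hp, rfl⟩
  · rintro ⟨p, hp, rfl⟩
    exact ⟨G' p, h.symm.flat hp, by simp only [h.gg]⟩

theorem br (hc : c = 0 ∨ c = 1) (h : LP c G G') {F : R4 → R4} {γ e : ℝ} (hF : Br c F γ e) :
    Br c (fun p => F (G p)) γ e := by
  have hSP : ∀ p ∈ SP, G p = p := fun p hp => h.fix (SP_ge hc hp)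
  refine ⟨fun p hp => ?_, fun p hp q hq he => ?_, fun p hp q hq he => ?_, hF.mem, ?_,
    fun a ha hin => ?_⟩
  · have h1 : G p ∈ SP ∪ Pool.Agent.Helper18.BI.flat c := by
      rcases hp with hp | hp
      · rw [hSP p hp]; exact Or.inl hp
      · exact Or.inr (h.flat hp)
    exact ld_comp (h.ld p) (hF.loc _ h1)
  · have he' : F (G p) = F (G q) := he
    rw [hSP p hp, hSP q hq] at he'
    exact hF.inj hp hq he'
  · have key : ∀ p ∈ Pool.Agent.Helper18.BI.flat c ∪ sph (1 - c),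
        G p ∈ Pool.Agent.Helper18.BI.flat c ∪ sph (1 - c) := by
      rintro p (hp | hp)
      · exact Or.inl (h.flat hp)
      · rw [h.fix (sph_ge hc hp)]; exact Or.inr hp
    have h1 := hF.injF (key p hp) (key q hq) he
    rw [← h.gg' p, h1, h.gg' q]
  · obtain ⟨x₀, hx, hcore, l, v, hel, hder⟩ := hF.cr
    have hr : rsq c ((1 / 2, x₀) : R4) < 1 / 25 := by rw [rsq_eq]; exact hx
    have h1 := h.symm.lt hr
    have h2 : G' (1 / 2, x₀) = (1 / 2, (G' (1 / 2, x₀)).2) :=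
      Prod.ext (by rw [h.symm.fst]) rfl
    have hγ : ax γ ∈ SP := ax_SP ⟨hF.mem.1.le, hF.mem.2.le⟩
    refine ⟨(G' (1 / 2, x₀)).2, by rw [rsq_eq] at h1; exact h1, ?_, l,
      (fderiv ℝ G' (1 / 2, x₀) (l, v)).2, hel, ?_⟩
    · rw [← h2]
      change F (G (ax γ)) = F (G (G' (1 / 2, x₀)))
      rw [h.gg, hSP _ hγ]
      exact hcore
    · have e1 : fderiv ℝ (fun p => F (G p)) (ax γ) = fderiv ℝ F (ax γ) := by
        apply Filter.EventuallyEq.fderiv_eq
        obtain ⟨η, hη, h3⟩ := h.off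
        have h4 : 1 / 25 - η < rsq c (ax γ) := by linarith [SP_ge hc hγ]
        filter_upwards [(continuous_rsq c).continuousAt.eventually (lt_mem_nhds h4)] with q hq
        rw [h3 q hq.le]
      rw [e1, hder, ← h2]
      have hflat : ((1 / 2, x₀) : R4) ∈ Pool.Agent.Helper18.BI.flat c := ⟨rfl, hr.le⟩
      have e2 : HasFDerivAt F (fderiv ℝ F (1 / 2, x₀)) (G (G' (1 / 2, x₀))) := by
        rw [h.gg]
        exact ((eventually_contDiffAt (hF.loc _ (Or.inr hflat))).self_of_nhds.differentiableAt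
          (by simp)).hasFDerivAt
      have e3 : HasFDerivAt G (fderiv ℝ G (G' (1 / 2, x₀))) (G' (1 / 2, x₀)) :=
        (h.sm.differentiable (by simp) _).hasFDerivAt
      have e4 := (e2.comp _ e3).fderiv
      have e5 : fderiv ℝ (fun p => F (G p)) (G' (1 / 2, x₀)) =
          (fderiv ℝ F (1 / 2, x₀)).comp (fderiv ℝ G (G' (1 / 2, x₀))) := e4
      rw [e5]
      have e6 : ((l, (fderiv ℝ G' (1 / 2, x₀) (l, v)).2) : R4) =
          fderiv ℝ G' (1 / 2, x₀) (l, v) :=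
        Prod.ext (h.symm.fd_fst (1 / 2, x₀) (l, v)).symm rfl
      rw [e6, ContinuousLinearMap.comp_apply, h.fd]
  · rw [h.image F] at hin
    have h1 : core (fun p => F (G p)) a = core F a := by
      change F (G (ax a)) = F (ax a)
      rw [hSP _ (ax_SP ha)]
    rw [h1] at hin
    exact hF.only a ha hin

end LP

/-! ### the norm -/

theorem norm_sq_le (x : R3) : ‖x‖ ^ 2 ≤ nsq x := by
  have h1 : ‖x.2‖ ^ 2 = x.2.re ^ 2 + x.2.im ^ 2 := by
    rw [← Complex.normSq_eq_norm_sq, Complex.normSq_apply]; ring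
  have h2 : ‖x.1‖ ^ 2 = x.1 ^ 2 := by rw [Real.norm_eq_abs, sq_abs]
  rw [Prod.norm_def]
  unfold nsq
  rcases max_choice ‖x.1‖ ‖x.2‖ with h | h <;> rw [h]
  · rw [h2]; nlinarith [sq_nonneg x.2.re, sq_nonneg x.2.im]
  · rw [h1]; nlinarith [sq_nonneg x.1]

theorem convex_U (c : ℝ) : Convex ℝ {x : R3 | nsq (x - pc c) < 1 / 25} := by
  intro x hx y hy a b ha hb hab
  have hb' : b = 1 - a := by linarith
  simp only [mem_setOf_eq] at hx hy ⊢
  have key : nsq (a • x + b • y - pc c) = a * nsq (x - pc c) + b * nsq (y - pc c) -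
      a * b * nsq (x - y) := by
    subst hb'
    simp only [nsq, pc, Prod.fst_sub, Prod.snd_sub, Prod.fst_add, Prod.snd_add, Prod.smul_fst,
      Prod.smul_snd, Complex.sub_re, Complex.sub_im, Complex.add_re, Complex.add_im,
      Complex.real_smul, Complex.mul_re, Complex.mul_im, Complex.ofReal_re, Complex.ofReal_im,
      smul_eq_mul, Complex.zero_re, Complex.zero_im]
    ring
  have h0 : 0 ≤ nsq (x - y) := le_trans (sq_nonneg _) (norm_sq_le _)
  have h1 : 0 ≤ a * b * nsq (x - y) := by positivity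
  rw [key]
  have h2 : a * nsq (x - pc c) + b * nsq (y - pc c) < 1 / 25 := by
    rcases ha.eq_or_lt with h | h
    · subst h
      have : b = 1 := by linarith
      subst this
      linarith
    · nlinarith
  linarith

theorem contDiff_dfam3 (G : DFam 𝓘(ℝ, R3) R3) : ContDiff ℝ ∞ G.f := by
  rw [← contMDiff_iff_contDiff, modelWithCornersSelf_prod, ← chartedSpaceSelf_prod]
  exact G.smooth_f

theorem contDiff_dfam3_inv (G : DFam 𝓘(ℝ, R3) R3) : ContDiff ℝ ∞ G.g := by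
  rw [← contMDiff_iff_contDiff, modelWithCornersSelf_prod, ← chartedSpaceSelf_prod]
  exact G.smooth_g

theorem cut_nonneg (u : ℝ) : 0 ≤ cut u := Real.smoothTransition.nonneg _
theorem cut_le_one (u : ℝ) : cut u ≤ 1 := Real.smoothTransition.le_one _

theorem lip_b (c : ℝ) : ∃ C : ℝ, 0 ≤ C ∧ ∀ x y : R3,
    |cut (400 * nsq (x - pc c)) - cut (400 * nsq (y - pc c))| ≤ C * ‖x - y‖ := by
  have hcd : ContDiff ℝ ∞ (fun x : R3 => cut (400 * nsq (x - pc c))) :=
    contDiff_cut.comp (contDiff_const.mul (contDiff_nsq (contDiff_id.sub contDiff_const)))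
  have hcs : HasCompactSupport (fun x : R3 => cut (400 * nsq (x - pc c))) := by
    apply HasCompactSupport.intro (isCompact_closedBall (pc c) 1)
    intro x hx
    apply cut_of_ge
    rw [Metric.mem_closedBall, not_le, dist_eq_norm] at hx
    have := norm_sq_le (x - pc c)
    nlinarith
  obtain ⟨C, hC⟩ := hcd.lipschitzWith_of_hasCompactSupport hcs (by simp)
  refine ⟨C, C.2, fun x y => ?_⟩
  have := hC.dist_le_mul x y
  rwa [Real.dist_eq, dist_eq_norm] at this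

/-- straightening of the strand -/
theorem straighten (hPE : Pool.Agent.Helper27.BI.StPert) {c : ℝ} (hc : c = 0 ∨ c = 1)
    {F : R4 → R4} {γ e : ℝ} (h : Br c F γ e) (h0 : core F γ = F (ax c)) :
    ∃ G G' : R4 → R4, LP c G G' ∧ Strand c (fun p => F (G p)) γ e ∧ G (ax c) = ax c := by
  obtain ⟨x₀, hx, hcore, l, v, hel, hder⟩ := h.cr
  have hfl : ax c ∈ flat c := ax_flat c
  have hx' : ((1 / 2, x₀) : R4) ∈ flat c := ⟨rfl, by rw [rsq_eq]; exact hx.le⟩
  have hxe : ((1 / 2, x₀) : R4) = ax c := by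
    apply h.injF (Or.inl hx') (Or.inl hfl)
    rw [← hcore, h0]
  rw [hxe] at hder
  -- the local inverse of `F` at `ax c`
  have hLD := h.loc (ax c) (Or.inr hfl)
  obtain ⟨Φ, hΦs, hΦe⟩ := id hLD
  have hψ : ContDiffOn ℝ ∞ Φ.toPartialEquiv.symm Φ.target :=
    contMDiffOn_iff_contDiffOn.1 Φ.contMDiffOn_invFun
  let ψ : R4 → R4 := fun q => Φ.toPartialEquiv.symm q
  have hγ : ax γ ∈ SP := ax_SP ⟨h.mem.1.le, h.mem.2.le⟩
  have hax : ContDiff ℝ ∞ ax := by unfold ax; fun_prop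
  have hcs : ∀ᶠ a in 𝓝 γ, ContDiffAt ℝ ∞ (core F) a := by
    have h1 := eventually_contDiffAt (h.loc (ax γ) (Or.inl hγ))
    have h2 := (hax.continuous.continuousAt (x := γ)).eventually h1
    filter_upwards [h2] with a ha
    exact ha.comp a hax.contDiffAt
  have hc0 : core F γ = Φ (ax c) := by rw [h0]; exact hΦe hΦs
  have htgt : core F γ ∈ Φ.target := by rw [hc0]; exact Φ.toPartialEquiv.map_source hΦs
  have htgt' : ∀ᶠ a in 𝓝 γ, core F a ∈ Φ.target :=
    hcs.self_of_nhds.continuousAt.eventually (Φ.open_target.mem_nhds htgt)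
  set y : ℝ → R4 := fun a => ψ (core F a) with hy
  have hys : ∀ᶠ a in 𝓝 γ, ContDiffAt ℝ ∞ y a := by
    filter_upwards [hcs, htgt'] with a h1 h2
    exact (hψ.contDiffAt (Φ.open_target.mem_nhds h2)).comp a h1
  have hFy : ∀ᶠ a in 𝓝 γ, F (y a) = core F a := by
    filter_upwards [htgt'] with a h2
    have h3 : y a ∈ Φ.source := Φ.toPartialEquiv.map_target h2
    rw [hΦe h3]
    exact Φ.toPartialEquiv.right_inv h2
  have hyγ : y γ = ax c := by
    change ψ (core F γ) = ax c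
    rw [hc0]
    exact Φ.toPartialEquiv.left_inv hΦs
  have hyd : HasDerivAt y (deriv y γ) γ :=
    (hys.self_of_nhds.differentiableAt (by simp)).hasDerivAt
  have hFd : HasFDerivAt F (fderiv ℝ F (ax c)) (y γ) := by
    rw [hyγ]
    exact ((eventually_contDiffAt hLD).self_of_nhds.differentiableAt (by simp)).hasFDerivAt
  have hFyd : HasDerivAt (fun a => F (y a)) (fderiv ℝ F (ax c) (deriv y γ)) γ :=
    hFd.comp_hasDerivAt γ hyd
  have hcd : HasDerivAt (core F) (fderiv ℝ F (ax γ) (0, ((1 : ℝ), (0 : ℂ)))) γ := by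
    have h1 : HasFDerivAt F (fderiv ℝ F (ax γ)) (ax γ) :=
      ((eventually_contDiffAt (h.loc (ax γ) (Or.inl hγ))).self_of_nhds.differentiableAt
        (by simp)).hasFDerivAt
    have h2 : HasDerivAt ax ((0, ((1 : ℝ), (0 : ℂ))) : R4) γ :=
      (hasDerivAt_const γ (1 / 2 : ℝ)).prodMk ((hasDerivAt_id γ).prodMk (hasDerivAt_const γ (0 : ℂ)))
    exact h1.comp_hasDerivAt γ h2
  have hyl : deriv y γ = (l, v) := by
    apply injective_fderiv hLD
    rw [← hder]
    exact (hFyd.congr_of_eventuallyEq (hFy.mono fun a ha => ha.symm)).unique hcd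
  have hl0 : l ≠ 0 := by rintro rfl; simp at hel
  -- the level function and its local inverse
  have hσd : HasDerivAt (fun a => (y a).1) l γ := by
    have h1 := hyd.hasFDerivAt.fst.hasDerivAt
    rw [hyl] at h1
    simpa using h1
  have hLσ : IsLocalDiffeomorphAt 𝓘(ℝ, ℝ) 𝓘(ℝ, ℝ) ∞ (fun a => (y a).1) γ := by
    apply isLocalDiffeomorphAt_of_injective rfl
    · filter_upwards [hys] with a ha
      exact ha.fst
    · intro a b hab
      rw [hσd.hasFDerivAt.fderiv] at hab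
      simpa [hl0] using hab
  obtain ⟨Ψ, hΨs, hΨe⟩ := hLσ
  have hτ : ContDiffOn ℝ ∞ Ψ.toPartialEquiv.symm Ψ.target :=
    contMDiffOn_iff_contDiffOn.1 Ψ.contMDiffOn_invFun
  let τ : ℝ → ℝ := fun q => Ψ.toPartialEquiv.symm q
  have hΨγ : Ψ γ = 1 / 2 := by
    rw [← hΨe hΨs]
    simp only [hyγ]
    rfl
  have hΨt : (1 / 2 : ℝ) ∈ Ψ.target := by
    rw [← hΨγ]; exact Ψ.toPartialEquiv.map_source hΨs
  have hτ0 : τ (1 / 2) = γ := by
    rw [← hΨγ]; exact Ψ.toPartialEquiv.left_inv hΨs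
  have hτt : ∀ᶠ s in 𝓝 (1 / 2 : ℝ), s ∈ Ψ.target := Ψ.open_target.mem_nhds hΨt
  have hτs : ∀ᶠ s in 𝓝 (1 / 2 : ℝ), ContDiffAt ℝ ∞ τ s := by
    filter_upwards [hτt] with s hs
    exact hτ.contDiffAt (Ψ.open_target.mem_nhds hs)
  have hστ : ∀ᶠ s in 𝓝 (1 / 2 : ℝ), (y (τ s)).1 = s := by
    filter_upwards [hτt] with s hs
    have h3 : τ s ∈ Ψ.source := Ψ.toPartialEquiv.map_target hs
    have h4 := hΨe h3
    simp only at h4
    rw [h4]
    exact Ψ.toPartialEquiv.right_inv hs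
  have hτd : HasDerivAt τ (deriv τ (1 / 2)) (1 / 2) :=
    (hτs.self_of_nhds.differentiableAt (by simp)).hasDerivAt
  have hτc : Tendsto τ (𝓝 (1 / 2 : ℝ)) (𝓝 γ) := by
    have := hτd.continuousAt.tendsto
    rwa [hτ0] at this
  have hlτ : l * deriv τ (1 / 2) = 1 := by
    have h1 : HasDerivAt (fun a => (y a).1) l (τ (1 / 2)) := by rw [hτ0]; exact hσd
    have h2 := h1.comp (1 / 2 : ℝ) hτd
    have h3 := h2.congr_of_eventuallyEq (f₁ := fun s : ℝ => s) (hστ.mono fun s hs => hs.symm)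
    exact h3.unique (hasDerivAt_id _)
  have heτ : 0 < e * deriv τ (1 / 2) := by
    have h1 : deriv τ (1 / 2) ≠ 0 := by
      intro h2
      rw [h2] at hlτ
      simp at hlτ
    have h2 : e * deriv τ (1 / 2) = (e * l) * deriv τ (1 / 2) ^ 2 := by
      linear_combination (-(e * deriv τ (1 / 2))) * hlτ
    rw [h2]
    positivity
  -- the displacement
  set ζ : ℝ → R3 := fun s => (y (τ s)).2 - pc c with hζ
  have hζs : ∀ᶠ s in 𝓝 (1 / 2 : ℝ), ContDiffAt ℝ ∞ ζ s := by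
    filter_upwards [hτs, hτc.eventually hys] with s h1 h2
    exact ((h2.comp s h1).snd).sub contDiffAt_const
  have hζ0 : ζ (1 / 2) = 0 := by
    simp only [hζ, hτ0, hyγ]
    simp [ax, pc]
  obtain ⟨C, hC0, hC⟩ := lip_b c
  set κ : ℝ := 1 / (2 * (C + 1)) with hκ
  have hκ0 : 0 < κ := by positivity
  have hCκ : C * κ ≤ 1 / 2 := by
    rw [hκ, mul_one_div, div_le_iff₀ (by positivity)]
    linarith
  have hζκ : ∀ᶠ s in 𝓝 (1 / 2 : ℝ), ‖ζ s‖ < κ := by
    have h1 : Tendsto (fun s => ‖ζ s‖) (𝓝 (1 / 2 : ℝ)) (𝓝 0) := by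
      have := hζs.self_of_nhds.continuousAt.norm.tendsto
      rwa [hζ0, norm_zero] at this
    exact h1.eventually (gt_mem_nhds hκ0)
  obtain ⟨ρ, hρ0, hρ⟩ := Metric.eventually_nhds_iff.1 (hζs.and hζκ)
  set ε : ℝ := ρ / 3 with hε
  have hε0 : 0 < ε := by positivity
  set w : ℝ → R3 := fun s => cut (((s - 1 / 2) / ε) ^ 2) • ζ s with hw
  have hcut0 : ∀ s : ℝ, 2 * ε ≤ |s - 1 / 2| → cut (((s - 1 / 2) / ε) ^ 2) = 0 := by
    intro s hs
    apply cut_of_ge
    have h1 : 2 ≤ |(s - 1 / 2) / ε| := by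
      rw [abs_div, abs_of_pos hε0, le_div_iff₀ hε0]
      exact hs
    have h2 : |(s - 1 / 2) / ε| ^ 2 = ((s - 1 / 2) / ε) ^ 2 := sq_abs _
    nlinarith
  have hws : ContDiff ℝ ∞ w := by
    rw [contDiff_iff_contDiffAt]
    intro s
    rcases lt_or_ge |s - 1 / 2| (3 * ε) with hs | hs
    · have h1 : ContDiffAt ℝ ∞ ζ s := (hρ (by rw [Real.dist_eq]; linarith)).1
      have h2 : ContDiff ℝ ∞ (fun s : ℝ => cut (((s - 1 / 2) / ε) ^ 2)) :=
        contDiff_cut.comp (((contDiff_id.sub contDiff_const).div_const _).pow 2)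
      exact h2.contDiffAt.smul h1
    · have h1 : ∀ᶠ s' in 𝓝 s, w s' = 0 := by
        have h2 : 2 * ε < |s - 1 / 2| := by linarith
        have h3 : ContinuousAt (fun s : ℝ => |s - 1 / 2|) s := by fun_prop
        filter_upwards [h3.eventually (lt_mem_nhds h2)] with s' hs'
        simp only [hw]
        rw [hcut0 s' hs'.le, zero_smul]
      exact (contDiffAt_const (c := (0 : R3))).congr_of_eventuallyEq h1
  have hwκ : ∀ s, ‖w s‖ ≤ κ := by
    intro s
    rcases lt_or_ge |s - 1 / 2| (3 * ε) with hs | hs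
    · have h1 : ‖ζ s‖ < κ := (hρ (by rw [Real.dist_eq]; linarith)).2
      simp only [hw]
      rw [norm_smul, Real.norm_eq_abs, abs_of_nonneg (cut_nonneg _)]
      calc cut (((s - 1 / 2) / ε) ^ 2) * ‖ζ s‖ ≤ 1 * ‖ζ s‖ := by
            gcongr
            exact cut_le_one _
        _ ≤ κ := by linarith
    · simp only [hw]
      rw [hcut0 s (by linarith), zero_smul, norm_zero]
      exact hκ0.le
  obtain ⟨Fam, hFam⟩ := hPE
    (fun q : ℝ × R4 => cut (400 * nsq (q.2.2 - pc c)) • w q.2.1)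
    ((contDiff_cut.comp (contDiff_const.mul (contDiff_nsq
      (contDiff_snd.snd.sub contDiff_const)))).smul (hws.comp contDiff_snd.fst))
    (by
      intro t s x x'
      simp only
      rw [← sub_smul, norm_smul, Real.norm_eq_abs]
      calc |cut (400 * nsq (x - pc c)) - cut (400 * nsq (x' - pc c))| * ‖w s‖
          ≤ (C * ‖x - x'‖) * κ := by
            apply mul_le_mul (hC x x') (hwκ s) (norm_nonneg _)
            positivity
        _ = (C * κ) * ‖x - x'‖ := by ring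
        _ ≤ 1 / 2 * ‖x - x'‖ := by gcongr)
  have hG : ∀ p : R4, Fam.f (1, p) =
      (p.1, p.2 + cut (400 * nsq (p.2 - pc c)) • w p.1) := fun p => hFam 1 p.1 p.2
  have hLP : LP c (fun p => Fam.f (1, p)) (fun p => Fam.g (1, p)) := by
    refine ⟨(contDiff_dfam Fam).comp (contDiff_prodMk_right 1),
      (contDiff_dfam_inv Fam).comp (contDiff_prodMk_right 1), fun p => Fam.fg 1 p,
      fun p => Fam.gf 1 p, fun p => by simp only [hG], 3 / 100, by norm_num, fun p hp => ?_⟩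
    simp only [hG]
    rw [cut_of_ge (by rw [← rsq_eq]; linarith), zero_smul, add_zero]
  have hw0 : ∀ᶠ s in 𝓝 (1 / 2 : ℝ), w s = ζ s := by
    have h3 : ContinuousAt (fun s : ℝ => |s - 1 / 2|) (1 / 2) := by fun_prop
    have h4 : |(1 / 2 : ℝ) - 1 / 2| < ε := by simpa using hε0
    filter_upwards [h3.eventually (gt_mem_nhds h4)] with s hs
    simp only [hw]
    rw [cut_of_le, one_smul]
    have h1 : |(s - 1 / 2) / ε| ≤ 1 := by
      rw [abs_div, abs_of_pos hε0, div_le_iff₀ hε0]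
      linarith
    have h2 : |(s - 1 / 2) / ε| ^ 2 = ((s - 1 / 2) / ε) ^ 2 := sq_abs _
    nlinarith [abs_nonneg ((s - 1 / 2) / ε)]
  have hGpc : ∀ᶠ s in 𝓝 (1 / 2 : ℝ), Fam.f (1, ((s, pc c) : R4)) = y (τ s) := by
    filter_upwards [hw0, hστ] with s h1 h2
    rw [hG]
    simp only
    rw [cut_of_le (by simp [nsq]), one_smul, h1]
    apply Prod.ext
    · exact h2.symm
    · simp [hζ]
  refine ⟨fun p => Fam.f (1, p), fun p => Fam.g (1, p), hLP, ⟨τ, hτs, hτ0, heτ, ?_⟩, ?_⟩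
  · filter_upwards [hGpc, hτc.eventually hFy,
      hτc.eventually (Ioo_mem_nhds h.mem.1 h.mem.2)] with s h1 h2 h3
    change F (Fam.f (1, ((s, pc c) : R4))) = F (Fam.f (1, ax (τ s)))
    rw [h1, h2]
    have h4 : Fam.f (1, ax (τ s)) = ax (τ s) := hLP.fix (rsq_ax_ge hc ⟨h3.1.le, h3.2.le⟩)
    rw [h4]
    rfl
  · have h1 : Fam.f (1, ((1 / 2, pc c) : R4)) = y (τ (1 / 2)) := hGpc.self_of_nhds
    have h2 : ax c = ((1 / 2, pc c) : R4) := rfl
    simp only
    rw [h2, h1, hτ0, hyγ]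
    rfl

/-- moving the crossing point to the centre -/
theorem centre (hTR : StTR) (c : ℝ) (x₀ : R3) (hx : nsq (x₀ - pc c) < 1 / 25) :
    ∃ G G' : R4 → R4, LP c G G' ∧ G (ax c) = (1 / 2, x₀) := by
  have hUo : IsOpen {x : R3 | nsq (x - pc c) < 1 / 25} :=
    isOpen_lt ((contDiff_nsq (contDiff_id.sub contDiff_const)).continuous) continuous_const
  obtain ⟨Gm, -, ⟨C, hC, hCU, hCoff⟩, hev⟩ := (hTR R3).2 {x : R3 | nsq (x - pc c) < 1 / 25} (pc c)
    x₀ hUo (convex_U c).isPreconnected (by simp [nsq]) hx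
  have hsl : ContDiff ℝ ∞ (fun p : R4 => Gm.f (1, p.2)) :=
    (contDiff_dfam3 Gm).comp (contDiff_const.prodMk contDiff_snd)
  have hsl' : ContDiff ℝ ∞ (fun p : R4 => Gm.g (1, p.2)) :=
    (contDiff_dfam3_inv Gm).comp (contDiff_const.prodMk contDiff_snd)
  have hη : ∃ η : ℝ, 0 < η ∧ ∀ p : R4, 1 / 25 - η ≤ rsq c p → p.2 ∉ C := by
    rcases C.eq_empty_or_nonempty with rfl | hne
    · exact ⟨1, one_pos, fun p _ => notMem_empty _⟩
    · have hcont : ContinuousOn (fun x : R3 => nsq (x - pc c)) C :=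
        ((contDiff_nsq (contDiff_id.sub contDiff_const)).continuous).continuousOn
      obtain ⟨m, hm, hmax⟩ := hC.exists_isMaxOn hne hcont
      have h1 : nsq (m - pc c) < 1 / 25 := hCU hm
      refine ⟨(1 / 25 - nsq (m - pc c)) / 2, by linarith, fun p hp hpC => ?_⟩
      have h2 : nsq (p.2 - pc c) ≤ nsq (m - pc c) := hmax hpC
      rw [rsq_eq] at hp
      linarith
  obtain ⟨η₁, hη₁, hη₁'⟩ := hη
  refine ⟨fun p : R4 => (p.1, Gm.f (1, p.2)), fun p : R4 => (p.1, Gm.g (1, p.2)),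
    ⟨contDiff_fst.prodMk hsl, contDiff_fst.prodMk hsl', fun p => ?_, fun p => ?_,
      fun p => rfl, η₁, hη₁, fun p hp => ?_⟩, ?_⟩
  · simp only [Gm.fg]
  · simp only [Gm.gf]
  · simp only [hCoff 1 p.2 (hη₁' p hp)]
  · have h3 : Gm.f (1, pc c) = pc c + (x₀ - pc c) := hev.self_of_nhds
    change ((1 / 2, Gm.f (1, pc c)) : R4) = (1 / 2, x₀)
    rw [h3, add_sub_cancel]

end C1

open C1 in
/-- **C1** (centring). -/
theorem m_C1 (hTR : StTR) (hPE : Pool.Agent.Helper27.BI.StPert) : StC1 := by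
  intro c F γ e hc h
  obtain ⟨x₀, hx, hcore, -⟩ := h.cr
  obtain ⟨G₁, G₁', hLP₁, hG₁⟩ := centre hTR c x₀ hx
  have hB₁ := hLP₁.br hc h
  have hax : 1 / 25 ≤ rsq c (ax γ) := rsq_ax_ge hc ⟨h.mem.1.le, h.mem.2.le⟩
  have hcore₁ : core (fun p => F (G₁ p)) γ = (fun p => F (G₁ p)) (ax c) := by
    change F (G₁ (ax γ)) = F (G₁ (ax c))
    rw [hLP₁.fix hax, hG₁]
    exact hcore
  obtain ⟨G, G', hLP₂, hstr, hGc⟩ := straighten hPE hc hB₁ hcore₁
  refine ⟨_, hLP₂.br hc hB₁, ?_, ?_, hstr, ?_⟩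
  · obtain ⟨η₁, hη₁, h1⟩ := hLP₁.off
    obtain ⟨η₂, hη₂, h2⟩ := hLP₂.off
    refine ⟨min η₁ η₂, lt_min hη₁ hη₂, fun p hp => ?_⟩
    have e2 : G p = p := h2 p (by linarith [min_le_right η₁ η₂])
    have e1 : G₁ p = p := h1 p (by linarith [min_le_left η₁ η₂])
    simp only [e2, e1]
  · exact (hLP₂.image (fun p => F (G₁ p))).trans (hLP₁.image F)
  · change F (G₁ (G (ax γ))) = F (G₁ (G (ax c)))
    rw [hLP₂.fix hax, hGc]
    exact hcore₁

end Pool.Agent.Helper70.BI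


end
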