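import Pool.Agent.Helper65.Barb.Defs
import Pool.Agent.Helper70.BI.C.P11
import Pool.Agent.Helper70.BI.C.P16
import Pool.Agent.Helper70.BI.C.P20
import Pool.Agent.Helper70.BI.C.P22

/-!
# Project BI (MP_8e98f2_gt): collected modules, part 54

The contents of the modules
* Helper34.BI.M_Shr
* Helper34.BI.M_CR
* Helper34.BI.ShB
* Helper34.BI.M_D1aP
* Helper34.BI.M_CRP
* Helper34.BI.M_D2b

in one file, so that the whole proof builds in a short time.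
-/

namespace Pool.Agent.Helper18.BI
end Pool.Agent.Helper18.BI

namespace Pool.Agent.Helper27.BI
end Pool.Agent.Helper27.BI

namespace Pool.Agent.Helper65.Barb
end Pool.Agent.Helper65.Barb

namespace Pool.Agent.Helper70.BI
end Pool.Agent.Helper70.BI


/-! ## Helper34.BI.M_Shr -/

section

/-!
# Project BI (MP_8e98f2_gt), module SHR: the polynomial shear
-/

set_option autoImplicit false

open Module Set Filter Topology
open scoped ContDiff Manifold ComplexConjugate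
open Pool.Agent.Helper65.Barb Pool.Agent.Helper18.BI

namespace Pool.Agent.Helper34.BI

namespace Shr

/-- the exponent of the shear -/
noncomputable def gg (p : R4) : ℝ :=
  Complex.normSq p.2.2 * (rsq 1 p - 1 / 25) * (rsq 0 p - 1 / 25)

theorem shr_eq (c : ℝ) (p : R4) : shr c p = (p.1 + c * gg p, p.2) := by
  unfold shr gg
  ring_nf

theorem gg_snd (s s' : ℝ) (x : ℝ × ℂ) : gg (s, x) = gg (s', x) := rfl

theorem shr_neg (c : ℝ) (p : R4) : shr (-c) (shr c p) = p := by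
  obtain ⟨s, x⟩ := p
  rw [shr_eq, shr_eq]
  refine Prod.ext ?_ rfl
  show s + c * gg (s, x) + -c * gg (s + c * gg (s, x), x) = s
  rw [gg_snd (s + c * gg (s, x)) s x]
  ring

theorem shr_zero (p : R4) : shr 0 p = p := by
  rw [shr_eq]
  refine Prod.ext ?_ rfl
  show p.1 + 0 * gg p = p.1
  ring

theorem smooth_rsq (c : ℝ) : ContDiff ℝ ∞ (rsq c) := by
  have h1 : ContDiff ℝ ∞ (fun p : R4 => p.2.1) := contDiff_fst.comp contDiff_snd
  have h2 : ContDiff ℝ ∞ (fun p : R4 => p.2.2.re) :=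
    Complex.reCLM.contDiff.comp (contDiff_snd.comp contDiff_snd)
  have h3 : ContDiff ℝ ∞ (fun p : R4 => p.2.2.im) :=
    Complex.imCLM.contDiff.comp (contDiff_snd.comp contDiff_snd)
  have : rsq c = fun p : R4 => (p.2.1 - c) ^ 2 + p.2.2.re ^ 2 + p.2.2.im ^ 2 := rfl
  rw [this]
  exact (((h1.sub contDiff_const).pow 2).add (h2.pow 2)).add (h3.pow 2)

theorem smooth_nsq : ContDiff ℝ ∞ (fun p : R4 => Complex.normSq p.2.2) := by
  have h2 : ContDiff ℝ ∞ (fun p : R4 => p.2.2.re) :=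
    Complex.reCLM.contDiff.comp (contDiff_snd.comp contDiff_snd)
  have h3 : ContDiff ℝ ∞ (fun p : R4 => p.2.2.im) :=
    Complex.imCLM.contDiff.comp (contDiff_snd.comp contDiff_snd)
  have : (fun p : R4 => Complex.normSq p.2.2) =
      fun p : R4 => p.2.2.re * p.2.2.re + p.2.2.im * p.2.2.im :=
    funext fun p => Complex.normSq_apply _
  rw [this]
  exact (h2.mul h2).add (h3.mul h3)

theorem smooth_gg : ContDiff ℝ ∞ gg := by
  unfold gg
  exact (smooth_nsq.mul ((smooth_rsq 1).sub contDiff_const)).mul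
    ((smooth_rsq 0).sub contDiff_const)

theorem smooth_shr2 : ContDiff ℝ ∞ (fun q : ℝ × R4 => shr q.1 q.2) := by
  have : (fun q : ℝ × R4 => shr q.1 q.2) = fun q => (q.2.1 + q.1 * gg q.2, q.2.2) :=
    funext fun q => shr_eq _ _
  rw [this]
  exact ((contDiff_fst.comp contDiff_snd).add (contDiff_fst.mul (smooth_gg.comp
    contDiff_snd))).prodMk (contDiff_snd.comp contDiff_snd)

theorem smooth_shr (c : ℝ) : ContDiff ℝ ∞ (shr c) :=
  smooth_shr2.comp (contDiff_const.prodMk contDiff_id)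

theorem gg_line (s u : ℝ) : gg (s, u, 0) = 0 := by
  unfold gg
  simp

theorem gg_SP {p : R4} (hp : p ∈ SP) : gg p = 0 := by
  unfold gg
  rcases hp with (hp | hp) | hp
  · rw [show rsq 0 p = 1 / 25 from hp.2]; ring
  · rw [show rsq 1 p = 1 / 25 from hp.2]; ring
  · rw [show p.2.2 = 0 from hp.2.2.2]; simp

theorem fix (c : ℝ) {p : R4} (hp : p ∈ SP) : shr c p = p := by
  rw [shr_eq, gg_SP hp]
  refine Prod.ext ?_ rfl
  show p.1 + c * 0 = p.1
  ring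

theorem fix_line (c s u : ℝ) : shr c (s, u, 0) = (s, u, 0) := by
  rw [shr_eq, gg_line]
  refine Prod.ext ?_ rfl
  show s + c * 0 = s
  ring

/-- composition of a local diffeomorphism with the shear -/
theorem loc_comp {F : R4 → R4} {p : R4} (c : ℝ)
    (hF : IsLocalDiffeomorphAt 𝓘(ℝ, R4) 𝓘(ℝ, R4) ∞ F (shr c p)) :
    IsLocalDiffeomorphAt 𝓘(ℝ, R4) 𝓘(ℝ, R4) ∞ (fun p => F (shr c p)) p := by
  have h1 := eventually_contDiffAt hF
  have h2 := injective_fderiv hF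
  have hc : ContinuousAt (shr c) p := (smooth_shr c).continuous.continuousAt
  refine isLocalDiffeomorphAt_of_injective rfl ?_ ?_
  · filter_upwards [hc.eventually h1] with q hq
    exact hq.comp q (smooth_shr c).contDiffAt
  · have d1 : HasFDerivAt F (fderiv ℝ F (shr c p)) (shr c p) :=
      (h1.self_of_nhds.differentiableAt (by simp)).hasFDerivAt
    have d2 : HasFDerivAt (shr c) (fderiv ℝ (shr c) p) p :=
      ((smooth_shr c).contDiffAt.differentiableAt (by simp)).hasFDerivAt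
    have d3 : HasFDerivAt (shr (-c)) (fderiv ℝ (shr (-c)) (shr c p)) (shr c p) :=
      ((smooth_shr (-c)).contDiffAt.differentiableAt (by simp)).hasFDerivAt
    have e1 : fderiv ℝ (fun p => F (shr c p)) p =
        (fderiv ℝ F (shr c p)).comp (fderiv ℝ (shr c) p) := (d1.comp p d2).fderiv
    have e2 : HasFDerivAt (fun p : R4 => p)
        ((fderiv ℝ (shr (-c)) (shr c p)).comp (fderiv ℝ (shr c) p)) p := by
      have := d3.comp p d2
      refine this.congr_of_eventuallyEq (Eventually.of_forall fun q => ?_)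
      exact (shr_neg c q).symm
    have e3 := e2.unique (hasFDerivAt_id p)
    intro v w hvw
    rw [e1] at hvw
    have h4 : fderiv ℝ (shr c) p v = fderiv ℝ (shr c) p w := h2 hvw
    have h5 := congrArg (fderiv ℝ (shr (-c)) (shr c p)) h4
    have e4 : ∀ z, (fderiv ℝ (shr (-c)) (shr c p)) (fderiv ℝ (shr c) p z) = z := fun z =>
      congrArg (fun A : R4 →L[ℝ] R4 => A z) e3
    rw [e4, e4] at h5
    exact h5

/-- the family -/
theorem fam {F : R4 → R4} {τ : ℝ → ℝ} (hF : EmbOn 𝓘(ℝ, R4) F SP) (hτ : ContDiff ℝ ∞ τ) :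
    FamOn 𝓘(ℝ, R4) (fun q : ℝ × R4 => F (shr (τ q.1) q.2)) SP := by
  have hJ : ContDiff ℝ ∞ (fun q : ℝ × R4 => shr (τ q.1) q.2) :=
    smooth_shr2.comp ((hτ.comp contDiff_fst).prodMk contDiff_snd)
  refine ⟨⟨(fun q : ℝ × R4 => shr (τ q.1) q.2) ⁻¹' {p | ∀ᶠ q in 𝓝 p, ContDiffAt ℝ ∞ F q},
    (isOpen_setOfPred_eventually_nhds).preimage hJ.continuous, ?_, ?_⟩, ?_⟩
  · rintro ⟨t, p⟩ ⟨-, hp⟩
    show ∀ᶠ q in 𝓝 (shr (τ t) p), ContDiffAt ℝ ∞ F q
    rw [fix _ hp]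
    exact eventually_contDiffAt (hF.1 p hp)
  · rw [contMDiffOn_iff_contDiffOn]
    intro q hq
    have hq' : ∀ᶠ q' in 𝓝 (shr (τ q.1) q.2), ContDiffAt ℝ ∞ F q' := hq
    exact (hq'.self_of_nhds.comp q hJ.contDiffAt).contDiffWithinAt
  · intro t _
    refine ⟨fun p hp => ?_, ?_⟩
    · have h := hF.1 p hp
      rw [← fix (τ t) hp] at h
      exact loc_comp (τ t) h
    · intro p hp q hq hpq
      have h1 : F (shr (τ t) p) = F (shr (τ t) q) := hpq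
      rw [fix _ hp, fix _ hq] at h1
      exact hF.2 hp hq h1

/-- the derivative of the shear at a point of the first core sphere -/
theorem deriv_shr (c : ℝ) {p : R4} (hp : rsq 0 p = 1 / 25) (v : R4) :
    fderiv ℝ (shr c) p v = (v.1 + c * (2 * Complex.normSq p.2.2 * (rsq 1 p - 1 / 25) *
      drsq 0 p v), v.2) := by
  let A : R4 →L[ℝ] ℝ := (ContinuousLinearMap.fst ℝ ℝ ℂ).comp (ContinuousLinearMap.snd ℝ ℝ (ℝ × ℂ))
  let R : R4 →L[ℝ] ℝ := Complex.reCLM.comp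
    ((ContinuousLinearMap.snd ℝ ℝ ℂ).comp (ContinuousLinearMap.snd ℝ ℝ (ℝ × ℂ)))
  let M : R4 →L[ℝ] ℝ := Complex.imCLM.comp
    ((ContinuousLinearMap.snd ℝ ℝ ℂ).comp (ContinuousLinearMap.snd ℝ ℝ (ℝ × ℂ)))
  have hA : ∀ q : R4, A q = q.2.1 := fun q => rfl
  have hR : ∀ q : R4, R q = q.2.2.re := fun q => rfl
  have hM : ∀ q : R4, M q = q.2.2.im := fun q => rfl
  have h0 : HasFDerivAt (fun q : R4 => rsq 0 q - 1 / 25)
      ((2 * p.2.1) • A + (2 * p.2.2.re) • R + (2 * p.2.2.im) • M) p := by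
    have e : (fun q : R4 => rsq 0 q - 1 / 25) =
        fun q => (A q * A q + R q * R q + M q * M q) - 1 / 25 := by
      funext q
      rw [hA, hR, hM]
      show (q.2.1 - 0) ^ 2 + q.2.2.re ^ 2 + q.2.2.im ^ 2 - 1 / 25 = _
      ring
    rw [e]
    have := (((A.hasFDerivAt (x := p)).mul (A.hasFDerivAt (x := p))).add
      ((R.hasFDerivAt (x := p)).mul (R.hasFDerivAt (x := p)))).add
      ((M.hasFDerivAt (x := p)).mul (M.hasFDerivAt (x := p)))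
    refine (this.sub_const (1 / 25)).congr_fderiv ?_
    rw [← hA p, ← hR p, ← hM p]
    module
  have h1 : HasFDerivAt (fun q : R4 => Complex.normSq q.2.2 * (rsq 1 q - 1 / 25))
      (fderiv ℝ (fun q : R4 => Complex.normSq q.2.2 * (rsq 1 q - 1 / 25)) p) p :=
    ((smooth_nsq.mul ((smooth_rsq 1).sub contDiff_const)).contDiffAt.differentiableAt
      (by simp)).hasFDerivAt
  have h2 := h1.mul h0
  have h3 : HasFDerivAt gg ((Complex.normSq p.2.2 * (rsq 1 p - 1 / 25)) •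
      ((2 * p.2.1) • A + (2 * p.2.2.re) • R + (2 * p.2.2.im) • M)) p := by
    have h2' : HasFDerivAt gg _ p := h2
    refine h2'.congr_fderiv ?_
    rw [hp, sub_self, zero_smul, add_zero]
  have h4 : HasFDerivAt (shr c) (((ContinuousLinearMap.fst ℝ ℝ (ℝ × ℂ)) +
      c • ((Complex.normSq p.2.2 * (rsq 1 p - 1 / 25)) •
      ((2 * p.2.1) • A + (2 * p.2.2.re) • R + (2 * p.2.2.im) • M))).prod
      (ContinuousLinearMap.snd ℝ ℝ (ℝ × ℂ))) p := by
    have e : shr c = fun q : R4 => (q.1 + c * gg q, q.2) := funext fun q => shr_eq c q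
    rw [e]
    exact (hasFDerivAt_fst.add (h3.const_mul c)).prodMk hasFDerivAt_snd
  rw [h4.fderiv]
  refine Prod.ext ?_ rfl
  show v.1 + c * ((Complex.normSq p.2.2 * (rsq 1 p - 1 / 25)) *
      ((2 * p.2.1) * A v + (2 * p.2.2.re) * R v + (2 * p.2.2.im) * M v)) =
    v.1 + c * (2 * Complex.normSq p.2.2 * (rsq 1 p - 1 / 25) * drsq 0 p v)
  rw [hA, hR, hM]
  unfold drsq
  ring

end Shr

open Shr in
theorem m_Shr (t2 : StT2) : StShr := by
  refine ⟨fun F c hF => ⟨⟨fun p hp => ?_, fun p hp q hq hpq => ?_⟩, fun φ => ⟨fun h => ?_,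
    fun h => ?_⟩⟩, fun c p hp => fix c hp, ?_⟩
  · have h := hF.1 p hp
    rw [← fix c hp] at h
    exact loc_comp c h
  · have h1 : F (shr c p) = F (shr c q) := hpq
    rw [fix _ hp, fix _ hq] at h1
    exact hF.2 hp hq h1
  · -- from `F ∘ shr c` to `F`
    have h1 := (t2 R4 R4 𝓘(ℝ, R4) R4).2.2.1 _ φ
      (Shr.fam (τ := fun t => (1 - t) * c) hF ((contDiff_const.sub contDiff_id).mul contDiff_const))
    have e0 : (fun p : R4 => F (shr ((1 - (0 : ℝ)) * c) p)) = fun p => F (shr c p) := by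
      rw [sub_zero, one_mul]
    have e1 : (fun p : R4 => F (shr ((1 - (1 : ℝ)) * c) p)) = F := by
      funext p
      rw [sub_self, zero_mul, shr_zero]
    have h2 : Thin 𝓘(ℝ, R4) (fun p : R4 => F (shr ((1 - (0 : ℝ)) * c) p)) φ →
      Thin 𝓘(ℝ, R4) (fun p : R4 => F (shr ((1 - (1 : ℝ)) * c) p)) φ := h1
    rw [e0, e1] at h2
    exact h2 h
  · have h1 := (t2 R4 R4 𝓘(ℝ, R4) R4).2.2.1 _ φ
      (Shr.fam (τ := fun t => t * c) hF (contDiff_id.mul contDiff_const))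
    have e0 : (fun p : R4 => F (shr ((0 : ℝ) * c) p)) = F := by
      funext p
      rw [zero_mul, shr_zero]
    have e1 : (fun p : R4 => F (shr ((1 : ℝ) * c) p)) = fun p => F (shr c p) := by
      rw [one_mul]
    have h2 : Thin 𝓘(ℝ, R4) (fun p : R4 => F (shr ((0 : ℝ) * c) p)) φ →
      Thin 𝓘(ℝ, R4) (fun p : R4 => F (shr ((1 : ℝ) * c) p)) φ := h1
    rw [e0, e1] at h2
    exact h2 h
  · intro J t₀ u₀ p₀ hJ
    have hp₀ : p₀ ∈ SP := Or.inl (Or.inl hJ.mem)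
    have hq₀ : ((1 / 2, u₀, 0) : R4) ∈ SP :=
      Or.inr ⟨rfl, hJ.arc.1.le, hJ.arc.2.le, rfl⟩
    have hrs : rsq 0 p₀ = 1 / 25 := hJ.mem.2
    have hlocp := hJ.loc p₀ hp₀
    -- the strand does not change
    have hstr : ∀ c : ℝ, (fun x : ℝ × ℝ => J (x.1, shr c (1 / 2, x.2, 0))) =
        fun x : ℝ × ℝ => J (x.1, (1 / 2, x.2, 0)) := fun c => by
      funext x
      rw [fix_line]
    -- the derivative of the sheared germ
    have hder : ∀ (c : ℝ) (v : R4), fderiv ℝ (fun p => J (t₀, shr c p)) p₀ v =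
        fderiv ℝ (fun p => J (t₀, p)) p₀ (v.1 + c * (2 * Complex.normSq p₀.2.2 *
          (rsq 1 p₀ - 1 / 25) * drsq 0 p₀ v), v.2) := by
      intro c v
      have d1 : HasFDerivAt (fun p => J (t₀, p)) (fderiv ℝ (fun p => J (t₀, p)) p₀)
          (shr c p₀) := by
        rw [fix c hp₀]
        exact ((eventually_contDiffAt hlocp).self_of_nhds.differentiableAt (by simp)).hasFDerivAt
      have d2 : HasFDerivAt (shr c) (fderiv ℝ (shr c) p₀) p₀ :=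
        ((smooth_shr c).contDiffAt.differentiableAt (by simp)).hasFDerivAt
      have d3 : fderiv ℝ (fun p => J (t₀, shr c p)) p₀ = _ := (d1.comp p₀ d2).fderiv
      rw [d3, ← deriv_shr c hrs v]
      rfl
    have hcont : ∀ c : ℝ, ∀ p ∈ SP, Tendsto (fun q : ℝ × R4 => (q.1, shr c q.2)) (𝓝 (t₀, p))
        (𝓝 (t₀, p)) := by
      intro c p hp
      have h1 : Continuous (fun q : ℝ × R4 => (q.1, shr c q.2)) :=
        continuous_fst.prodMk ((smooth_shr c).continuous.comp continuous_snd)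
      have h2 := h1.tendsto (t₀, p)
      rw [show ((t₀, p).1, shr c (t₀, p).2) = (t₀, p) from Prod.ext rfl (fix c hp)] at h2
      exact h2
    have hall : ∀ c : ℝ, PreCross (fun q => J (q.1, shr c q.2)) t₀ u₀ p₀ := by
      intro c
      refine ⟨?_, ?_, ?_, hJ.mem, hJ.re, hJ.arc, ?_, ?_, ?_⟩
      · intro p hp
        filter_upwards [(hcont c p hp).eventually (hJ.smooth p hp)] with q hq
        have h1 : ContDiffAt ℝ ∞ (fun q : ℝ × R4 => (q.1, shr c q.2)) q :=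
          (contDiff_fst.prodMk ((smooth_shr c).comp contDiff_snd)).contDiffAt
        exact ContDiffAt.comp q hq h1
      · intro p hp
        have h := hJ.loc p hp
        rw [← fix c hp] at h
        exact loc_comp (F := fun p => J (t₀, p)) c h
      · intro p hp
        have hp' : p ∈ SP := Or.inl hp
        filter_upwards [(hcont c p hp').eventually (hJ.frozen p hp)] with q hq
        exact hq
      · show J (t₀, shr c p₀) = J (t₀, shr c (1 / 2, u₀, 0))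
        rw [fix c hp₀, fix c hq₀]
        exact hJ.eq
      · intro p hp q hq hpq
        have h1 : J (t₀, shr c p) = J (t₀, shr c q) := hpq
        rw [fix c hp, fix c hq] at h1
        exact hJ.inj p hp q hq h1
      · intro ζ v h h1 h2
        have h3 : fderiv ℝ (fun x : ℝ × ℝ => J (x.1, shr c (1 / 2, x.2, 0))) (t₀, u₀) ζ =
          fderiv ℝ (fun p => J (t₀, shr c p)) p₀ v := h
        rw [hstr c, hder c v, h2, mul_zero, mul_zero, add_zero] at h3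
        exact hJ.trans ζ v h3 h1 h2
    -- the vector `ξ`
    obtain ⟨ξ, hξ⟩ : ∃ ξ : R4, fderiv ℝ (fun p => J (t₀, p)) p₀ ξ =
        fderiv ℝ (fun x : ℝ × ℝ => J (x.1, (1 / 2, x.2, 0))) (t₀, u₀) (0, 1) := by
      have hinj : Function.Injective (fderiv ℝ (fun p => J (t₀, p)) p₀ : R4 →ₗ[ℝ] R4) :=
        injective_fderiv hlocp
      exact (LinearMap.injective_iff_surjective.1 hinj) _
    have hB : 0 < rsq 1 p₀ - 1 / 25 := by
      have h1 : (p₀.2.1 - 0) ^ 2 + p₀.2.2.re ^ 2 + p₀.2.2.im ^ 2 = 1 / 25 := hrs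
      have h2 : rsq 1 p₀ = (p₀.2.1 - 1) ^ 2 + p₀.2.2.re ^ 2 + p₀.2.2.im ^ 2 := rfl
      have h3 : p₀.2.1 ≤ 1 / 5 := by nlinarith [sq_nonneg p₀.2.2.re, sq_nonneg p₀.2.2.im]
      rw [h2]
      nlinarith
    have hN : 0 < Complex.normSq p₀.2.2 := by
      rw [Complex.normSq_pos]
      intro h
      exact hJ.re (by rw [h]; rfl)
    by_cases hξ1 : ξ.1 = 0
    · refine ⟨1, hall 1, ?_⟩
      have hξd : drsq 0 p₀ ξ ≠ 0 := by
        intro h
        have := hJ.trans (0, 1) ξ hξ.symm hξ1 h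
        exact one_ne_zero (congrArg Prod.snd this)
      intro v hv hv1
      have h3 : fderiv ℝ (fun x : ℝ × ℝ => J (x.1, shr 1 (1 / 2, x.2, 0))) (t₀, u₀) (0, 1) =
          fderiv ℝ (fun p => J (t₀, shr 1 p)) p₀ v := hv
      rw [hstr 1, hder 1 v, ← hξ] at h3
      have h4 := injective_fderiv hlocp h3
      have h5 : ξ.1 = v.1 + 1 * (2 * Complex.normSq p₀.2.2 * (rsq 1 p₀ - 1 / 25) *
          drsq 0 p₀ v) := congrArg Prod.fst h4
      have h6 : ξ.2 = v.2 := by rw [h4]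
      have h7 : drsq 0 p₀ v = drsq 0 p₀ ξ := by
        unfold drsq
        rw [h6]
      rw [hξ1, hv1, h7, zero_add, one_mul] at h5
      have h8 : 2 * Complex.normSq p₀.2.2 * (rsq 1 p₀ - 1 / 25) ≠ 0 :=
        mul_ne_zero (mul_ne_zero two_ne_zero hN.ne') hB.ne'
      exact mul_ne_zero h8 hξd h5.symm
    · refine ⟨0, hall 0, ?_⟩
      intro v hv hv1
      have h3 : fderiv ℝ (fun x : ℝ × ℝ => J (x.1, shr 0 (1 / 2, x.2, 0))) (t₀, u₀) (0, 1) =
          fderiv ℝ (fun p => J (t₀, shr 0 p)) p₀ v := hv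
      rw [hstr 0, hder 0 v, ← hξ] at h3
      have h4 := injective_fderiv hlocp h3
      have h5 : ξ.1 = v.1 + 0 * (2 * Complex.normSq p₀.2.2 * (rsq 1 p₀ - 1 / 25) *
          drsq 0 p₀ v) := congrArg Prod.fst h4
      rw [zero_mul, add_zero] at h5
      exact hξ1 (h5.trans hv1)

end Pool.Agent.Helper34.BI


end

/-! ## Helper34.BI.M_CR -/

section

/-!
# Project BI, module CR: invariance modulo `N` at a crossing
-/

set_option autoImplicit false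

open Module Set Filter Topology
open scoped ContDiff Manifold ComplexConjugate
open Pool.Agent.Helper65.Barb Pool.Agent.Helper18.BI Pool.Agent.Helper27.BI

namespace Pool.Agent.Helper34.BI

theorem shr_shr_neg (c : ℝ) (p : R4) : shr c (shr (-c) p) = p := by
  simp only [shr, rsq]
  ext1
  · simp only
    ring
  · rfl

theorem SP_subset_SH {η : ℝ} (hη : 0 ≤ η) : SP ⊆ SH η := by
  intro p hp
  refine ⟨?_, ?_, ?_⟩
  · rcases hp with (hp | hp) | hp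
    · exact Or.inl (Or.inl ⟨hp.1, hp.2.le⟩)
    · exact Or.inl (Or.inr ⟨hp.1, hp.2.le⟩)
    · exact Or.inr hp
  · rcases hp with (hp | hp) | hp
    · rw [hp.2]; linarith
    · have h1 := rsq_nonneg_aux 0 p
      have h2 := le_sph_one hp
      nlinarith
    · have h1 := rsq_nonneg_aux 0 p
      have h2 := hp.2.1
      nlinarith
  · rcases hp with (hp | hp) | hp
    · have h1 := rsq_nonneg_aux 1 p
      have h2 := sph_zero_le hp
      nlinarith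
    · rw [hp.2]; linarith
    · have h1 := rsq_nonneg_aux 1 p
      have h2 := hp.2.2.1
      nlinarith

/-- the crossing point is not on the spine at times `≠ 0` -/
theorem X_notMem_SP {J : ℝ × R4 → R4} {X : ℝ → R4} {η : ℝ} (C : Cross J X η) {r : ℝ}
    (hr : r ∈ Icc (-η) η) (h0 : r ≠ 0) : X r ∉ SP := by
  have h1 := C.small
  rintro ((h | h) | h)
  · have h2 := C.lvl r hr
    rw [h.2] at h2
    exact h0 (by linarith)
  · have h2 := C.lvl r hr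
    have h3 := rsq_nonneg_aux 0 (X r)
    have h4 := le_sph_one h
    nlinarith [hr.2]
  · have h2 := C.re r hr
    rw [h.2.2.2] at h2
    exact h2 rfl

theorem m_CR (hShr : StShr) (hD1a : StD1a) (hD1b : StD1b) (hD2 : StD2) (hMRL : StMRL) : StCR := by
  intro J t₀ u₀ p₀ hP ε hε
  obtain ⟨hS1, -, hS3⟩ := hShr
  obtain ⟨c, hP', hsl⟩ := hS3 J t₀ u₀ p₀ hP
  obtain ⟨T, X, η₀, hη₀, hT1, hTm, hT0, hX1, hX0, hX2, huniq⟩ := hD1a _ t₀ u₀ p₀ hP' hsl
  obtain ⟨η, hη, hηη, C, hclose⟩ := hD1b _ t₀ u₀ p₀ hP' T X η₀ hη₀ hT1 hT0 hX1 hX0 hX2 huniq ε hε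
  obtain ⟨r, hr, hMR⟩ := hD2 _ X η C
  -- the germs at the times `T s`
  have key : ∀ s ∈ Icc (-η) η, s ≠ 0 → EmbOn 𝓘(ℝ, R4) (fun p => J (T s, p)) SP ∧
      ∀ φ, (Thin 𝓘(ℝ, R4) (fun p => J (T s, p)) φ ↔
        Thin 𝓘(ℝ, R4) (fun p => J (T s, shr c p)) φ) := by
    intro s hs h0
    have e1 : EmbOn 𝓘(ℝ, R4) (fun p => J (T s, shr c p)) SP := by
      refine ⟨fun p hp => C.loc s hs p (SP_subset_SH hη.le hp), ?_⟩
      have hsub : SP ⊆ SH η \ {X s} := by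
        intro p hp
        refine ⟨SP_subset_SH hη.le hp, ?_⟩
        rintro rfl
        exact X_notMem_SP C hs h0 hp
      exact (C.inj s hs).mono hsub
    obtain ⟨e2, e3⟩ := hS1 _ (-c) e1
    simp only [shr_shr_neg] at e2 e3
    exact ⟨e2, e3⟩
  have hr1 : r ∈ Icc (-η) η := ⟨by linarith [hr.1], hr.2⟩
  have hr2 : -r ∈ Icc (-η) η := ⟨by linarith [hr.2], by linarith [hr.1]⟩
  obtain ⟨k1, k2⟩ := key r hr1 hr.1.ne'
  obtain ⟨k3, k4⟩ := key (-r) hr2 (neg_ne_zero.2 hr.1.ne')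
  have hMR' : MR (fun p => J (T r, p)) (fun p => J (T (-r), p)) := by
    intro φ ψ h1 h2
    exact hMR φ ψ ((k2 φ).1 h1) ((k4 ψ).1 h2)
  have c1 := abs_lt.1 (hclose r hr1)
  have c2 := abs_lt.1 (hclose (-r) hr2)
  have i1 : r ∈ Ioo (-η₀) η₀ := ⟨by linarith [hr1.1], by linarith [hr1.2]⟩
  have i2 : -r ∈ Ioo (-η₀) η₀ := ⟨by linarith [hr1.2], by linarith [hr1.1]⟩
  have i0 : (0 : ℝ) ∈ Ioo (-η₀) η₀ := ⟨by linarith, hη₀⟩
  have l1 : (0 : ℝ) < r := hr.1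
  have l2 : -r < 0 := by linarith
  rcases hTm with hTm | hTm
  · have a1 := hTm i0 i1 l1
    have a2 := hTm i2 i0 l2
    rw [hT0] at a1 a2
    exact ⟨T (-r), ⟨by linarith [c2.1], a2⟩, T r, ⟨a1, by linarith [c1.2]⟩, k3, k1,
      hMRL.2.1 _ _ hMR'⟩
  · have a1 := hTm i0 i1 l1
    have a2 := hTm i2 i0 l2
    rw [hT0] at a1 a2
    exact ⟨T r, ⟨by linarith [c1.1], a1⟩, T (-r), ⟨a2, by linarith [c2.2]⟩, k1, k3, hMR'⟩

end Pool.Agent.Helper34.BI


end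

/-! ## Helper34.BI.ShB -/

section

/-!
# Project BI: a shear with small support (stage 2 version of module SHR, after helper63)
-/

set_option autoImplicit false

open Module Set Filter Topology
open scoped ContDiff Manifold ComplexConjugate
open Pool.Agent.Helper65.Barb Pool.Agent.Helper18.BI

namespace Pool.Agent.Helper34.BI

/-- the coefficient of the shear: a smooth function of the point of three-space, zero on the axis
and for `3/10 ≤ a` -/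
structure BumpOK (β : R3 → ℝ) : Prop where
  smooth : ContDiff ℝ ∞ β
  axis : ∀ᶠ ε in 𝓝[>] (0 : ℝ), ∀ x : R3, ‖x.2‖ ≤ ε → β x = 0
  far : ∀ x : R3, 3 / 10 ≤ x.1 → β x = 0

/-- the shear with coefficient `β` -/
noncomputable def shb (β : R3 → ℝ) (c : ℝ) (p : R4) : R4 :=
  (p.1 + c * (β p.2 * (rsq 0 p - 1 / 25)), p.2)

namespace ShB

open Shr (smooth_rsq)

variable {β : R3 → ℝ}

/-- the exponent of the shear -/
noncomputable def gg (β : R3 → ℝ) (p : R4) : ℝ := β p.2 * (rsq 0 p - 1 / 25)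

theorem shr_eq (c : ℝ) (p : R4) : shb β c p = (p.1 + c * gg β p, p.2) := rfl

theorem gg_snd (s s' : ℝ) (x : ℝ × ℂ) : gg β (s, x) = gg β (s', x) := rfl

theorem shr_neg (c : ℝ) (p : R4) : shb β (-c) (shb β c p) = p := by
  obtain ⟨s, x⟩ := p
  rw [shr_eq, shr_eq]
  refine Prod.ext ?_ rfl
  show s + c * gg β (s, x) + -c * gg β (s + c * gg β (s, x), x) = s
  rw [gg_snd (s + c * gg β (s, x)) s x]
  ring

theorem shr_zero (p : R4) : shb β 0 p = p := by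
  rw [shr_eq]
  refine Prod.ext ?_ rfl
  show p.1 + 0 * gg β p = p.1
  ring

theorem smooth_gg (hβ : BumpOK β) : ContDiff ℝ ∞ (gg β) := by
  unfold gg
  exact (hβ.smooth.comp contDiff_snd).mul ((smooth_rsq 0).sub contDiff_const)

theorem smooth_shr2 (hβ : BumpOK β) : ContDiff ℝ ∞ (fun q : ℝ × R4 => shb β q.1 q.2) := by
  have : (fun q : ℝ × R4 => shb β q.1 q.2) = fun q => (q.2.1 + q.1 * gg β q.2, q.2.2) :=
    funext fun q => shr_eq _ _
  rw [this]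
  exact ((contDiff_fst.comp contDiff_snd).add (contDiff_fst.mul ((smooth_gg hβ).comp
    contDiff_snd))).prodMk (contDiff_snd.comp contDiff_snd)

theorem smooth_shr (hβ : BumpOK β) (c : ℝ) : ContDiff ℝ ∞ (shb β c) :=
  (smooth_shr2 hβ).comp (contDiff_const.prodMk contDiff_id)

theorem axis_zero (hβ : BumpOK β) (u : ℝ) : β (u, 0) = 0 := by
  obtain ⟨ε, hε, h⟩ := (hβ.axis.and self_mem_nhdsWithin).exists
  exact hε (u, 0) (by simpa using (le_of_lt h))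

theorem gg_line (hβ : BumpOK β) (s u : ℝ) : gg β (s, u, 0) = 0 := by
  unfold gg
  rw [show ((s, u, 0) : R4).2 = (u, 0) from rfl, axis_zero hβ, zero_mul]

theorem gg_SP (hβ : BumpOK β) {p : R4} (hp : p ∈ SP) : gg β p = 0 := by
  unfold gg
  rcases hp with (hp | hp) | hp
  · rw [show rsq 0 p = 1 / 25 from hp.2]; ring
  · rw [hβ.far p.2 (by linarith [le_sph_one hp]), zero_mul]
  · rw [show p.2 = (p.2.1, 0) from Prod.ext rfl hp.2.2.2, axis_zero hβ, zero_mul]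

theorem fix (hβ : BumpOK β) (c : ℝ) {p : R4} (hp : p ∈ SP) : shb β c p = p := by
  rw [shr_eq, gg_SP hβ hp]
  refine Prod.ext ?_ rfl
  show p.1 + c * 0 = p.1
  ring

theorem fix_line (hβ : BumpOK β) (c s u : ℝ) : shb β c (s, u, 0) = (s, u, 0) := by
  rw [shr_eq, gg_line hβ]
  refine Prod.ext ?_ rfl
  show s + c * 0 = s
  ring

/-- composition of a local diffeomorphism with the shear -/
theorem loc_comp (hβ : BumpOK β) {F : R4 → R4} {p : R4} (c : ℝ)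
    (hF : IsLocalDiffeomorphAt 𝓘(ℝ, R4) 𝓘(ℝ, R4) ∞ F (shb β c p)) :
    IsLocalDiffeomorphAt 𝓘(ℝ, R4) 𝓘(ℝ, R4) ∞ (fun p => F (shb β c p)) p := by
  have h1 := eventually_contDiffAt hF
  have h2 := injective_fderiv hF
  have hc : ContinuousAt (shb β c) p := (smooth_shr hβ c).continuous.continuousAt
  refine isLocalDiffeomorphAt_of_injective rfl ?_ ?_
  · filter_upwards [hc.eventually h1] with q hq
    exact hq.comp q (smooth_shr hβ c).contDiffAt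
  · have d1 : HasFDerivAt F (fderiv ℝ F (shb β c p)) (shb β c p) :=
      (h1.self_of_nhds.differentiableAt (by simp)).hasFDerivAt
    have d2 : HasFDerivAt (shb β c) (fderiv ℝ (shb β c) p) p :=
      ((smooth_shr hβ c).contDiffAt.differentiableAt (by simp)).hasFDerivAt
    have d3 : HasFDerivAt (shb β (-c)) (fderiv ℝ (shb β (-c)) (shb β c p)) (shb β c p) :=
      ((smooth_shr hβ (-c)).contDiffAt.differentiableAt (by simp)).hasFDerivAt
    have e1 : fderiv ℝ (fun p => F (shb β c p)) p =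
        (fderiv ℝ F (shb β c p)).comp (fderiv ℝ (shb β c) p) := (d1.comp p d2).fderiv
    have e2 : HasFDerivAt (fun p : R4 => p)
        ((fderiv ℝ (shb β (-c)) (shb β c p)).comp (fderiv ℝ (shb β c) p)) p := by
      have := d3.comp p d2
      refine this.congr_of_eventuallyEq (Eventually.of_forall fun q => ?_)
      exact (shr_neg c q).symm
    have e3 := e2.unique (hasFDerivAt_id p)
    intro v w hvw
    rw [e1] at hvw
    have h4 : fderiv ℝ (shb β c) p v = fderiv ℝ (shb β c) p w := h2 hvw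
    have h5 := congrArg (fderiv ℝ (shb β (-c)) (shb β c p)) h4
    have e4 : ∀ z, (fderiv ℝ (shb β (-c)) (shb β c p)) (fderiv ℝ (shb β c) p z) = z := fun z =>
      congrArg (fun A : R4 →L[ℝ] R4 => A z) e3
    rw [e4, e4] at h5
    exact h5

/-- the family -/
theorem fam (hβ : BumpOK β) {F : R4 → R4} {τ : ℝ → ℝ} (hF : EmbOn 𝓘(ℝ, R4) F SP) (hτ : ContDiff ℝ ∞ τ) :
    FamOn 𝓘(ℝ, R4) (fun q : ℝ × R4 => F (shb β (τ q.1) q.2)) SP := by
  have hJ : ContDiff ℝ ∞ (fun q : ℝ × R4 => shb β (τ q.1) q.2) :=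
    (smooth_shr2 hβ).comp ((hτ.comp contDiff_fst).prodMk contDiff_snd)
  refine ⟨⟨(fun q : ℝ × R4 => shb β (τ q.1) q.2) ⁻¹' {p | ∀ᶠ q in 𝓝 p, ContDiffAt ℝ ∞ F q},
    (isOpen_setOfPred_eventually_nhds).preimage hJ.continuous, ?_, ?_⟩, ?_⟩
  · rintro ⟨t, p⟩ ⟨-, hp⟩
    show ∀ᶠ q in 𝓝 (shb β (τ t) p), ContDiffAt ℝ ∞ F q
    rw [fix hβ _ hp]
    exact eventually_contDiffAt (hF.1 p hp)
  · rw [contMDiffOn_iff_contDiffOn]
    intro q hq
    have hq' : ∀ᶠ q' in 𝓝 (shb β (τ q.1) q.2), ContDiffAt ℝ ∞ F q' := hq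
    exact (hq'.self_of_nhds.comp q hJ.contDiffAt).contDiffWithinAt
  · intro t _
    refine ⟨fun p hp => ?_, ?_⟩
    · have h := hF.1 p hp
      rw [← fix hβ (τ t) hp] at h
      exact loc_comp hβ (τ t) h
    · intro p hp q hq hpq
      have h1 : F (shb β (τ t) p) = F (shb β (τ t) q) := hpq
      rw [fix hβ _ hp, fix hβ _ hq] at h1
      exact hF.2 hp hq h1

/-- the derivative of the shear at a point of the first core sphere -/
theorem deriv_shr (hβ : BumpOK β) (c : ℝ) {p : R4} (hp : rsq 0 p = 1 / 25) (v : R4) :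
    fderiv ℝ (shb β c) p v = (v.1 + c * (2 * β p.2 * drsq 0 p v), v.2) := by
  let A : R4 →L[ℝ] ℝ := (ContinuousLinearMap.fst ℝ ℝ ℂ).comp (ContinuousLinearMap.snd ℝ ℝ (ℝ × ℂ))
  let R : R4 →L[ℝ] ℝ := Complex.reCLM.comp
    ((ContinuousLinearMap.snd ℝ ℝ ℂ).comp (ContinuousLinearMap.snd ℝ ℝ (ℝ × ℂ)))
  let M : R4 →L[ℝ] ℝ := Complex.imCLM.comp
    ((ContinuousLinearMap.snd ℝ ℝ ℂ).comp (ContinuousLinearMap.snd ℝ ℝ (ℝ × ℂ)))
  have hA : ∀ q : R4, A q = q.2.1 := fun q => rfl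
  have hR : ∀ q : R4, R q = q.2.2.re := fun q => rfl
  have hM : ∀ q : R4, M q = q.2.2.im := fun q => rfl
  have h0 : HasFDerivAt (fun q : R4 => rsq 0 q - 1 / 25)
      ((2 * p.2.1) • A + (2 * p.2.2.re) • R + (2 * p.2.2.im) • M) p := by
    have e : (fun q : R4 => rsq 0 q - 1 / 25) =
        fun q => (A q * A q + R q * R q + M q * M q) - 1 / 25 := by
      funext q
      rw [hA, hR, hM]
      show (q.2.1 - 0) ^ 2 + q.2.2.re ^ 2 + q.2.2.im ^ 2 - 1 / 25 = _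
      ring
    rw [e]
    have := (((A.hasFDerivAt (x := p)).mul (A.hasFDerivAt (x := p))).add
      ((R.hasFDerivAt (x := p)).mul (R.hasFDerivAt (x := p)))).add
      ((M.hasFDerivAt (x := p)).mul (M.hasFDerivAt (x := p)))
    refine (this.sub_const (1 / 25)).congr_fderiv ?_
    rw [← hA p, ← hR p, ← hM p]
    module
  have h1 : HasFDerivAt (fun q : R4 => β q.2) (fderiv ℝ (fun q : R4 => β q.2) p) p :=
    ((hβ.smooth.comp contDiff_snd).contDiffAt.differentiableAt (by simp)).hasFDerivAt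
  have h2 := h1.mul h0
  have h3 : HasFDerivAt (gg β) ((β p.2) •
      ((2 * p.2.1) • A + (2 * p.2.2.re) • R + (2 * p.2.2.im) • M)) p := by
    have h2' : HasFDerivAt (gg β) _ p := h2
    refine h2'.congr_fderiv ?_
    rw [hp, sub_self, zero_smul, add_zero]
  have h4 : HasFDerivAt (shb β c) (((ContinuousLinearMap.fst ℝ ℝ (ℝ × ℂ)) +
      c • ((β p.2) •
      ((2 * p.2.1) • A + (2 * p.2.2.re) • R + (2 * p.2.2.im) • M))).prod
      (ContinuousLinearMap.snd ℝ ℝ (ℝ × ℂ))) p := by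
    have e : shb β c = fun q : R4 => (q.1 + c * gg β q, q.2) := funext fun q => shr_eq c q
    rw [e]
    exact (hasFDerivAt_fst.add (h3.const_mul c)).prodMk hasFDerivAt_snd
  rw [h4.fderiv]
  refine Prod.ext ?_ rfl
  show v.1 + c * ((β p.2) *
      ((2 * p.2.1) * A v + (2 * p.2.2.re) * R v + (2 * p.2.2.im) * M v)) =
    v.1 + c * (2 * β p.2 * drsq 0 p v)
  rw [hA, hR, hM]
  unfold drsq
  ring

/-- the shear does not change the classes -/
theorem class_shb (t2 : StT2) (hβ : BumpOK β) (F : R4 → R4) (c : ℝ) (hF : EmbOn 𝓘(ℝ, R4) F SP) :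
    EmbOn 𝓘(ℝ, R4) (fun p => F (shb β c p)) SP ∧
    ∀ φ, (Thin 𝓘(ℝ, R4) (fun p => F (shb β c p)) φ ↔ Thin 𝓘(ℝ, R4) F φ) := by
  refine ⟨⟨fun p hp => ?_, fun p hp q hq hpq => ?_⟩, fun φ => ⟨fun h => ?_, fun h => ?_⟩⟩
  · have h := hF.1 p hp
    rw [← fix hβ c hp] at h
    exact loc_comp hβ c h
  · have h1 : F (shb β c p) = F (shb β c q) := hpq
    rw [fix hβ _ hp, fix hβ _ hq] at h1
    exact hF.2 hp hq h1
  · -- from `F ∘ shb β c` to `F`
    have h1 := (t2 R4 R4 𝓘(ℝ, R4) R4).2.2.1 _ φ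
      (fam hβ (τ := fun t => (1 - t) * c) hF ((contDiff_const.sub contDiff_id).mul contDiff_const))
    have e0 : (fun p : R4 => F (shb β ((1 - (0 : ℝ)) * c) p)) = fun p => F (shb β c p) := by
      rw [sub_zero, one_mul]
    have e1 : (fun p : R4 => F (shb β ((1 - (1 : ℝ)) * c) p)) = F := by
      funext p
      rw [sub_self, zero_mul, shr_zero]
    have h2 : Thin 𝓘(ℝ, R4) (fun p : R4 => F (shb β ((1 - (0 : ℝ)) * c) p)) φ →
      Thin 𝓘(ℝ, R4) (fun p : R4 => F (shb β ((1 - (1 : ℝ)) * c) p)) φ := h1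
    rw [e0, e1] at h2
    exact h2 h
  · have h1 := (t2 R4 R4 𝓘(ℝ, R4) R4).2.2.1 _ φ
      (fam hβ (τ := fun t => t * c) hF (contDiff_id.mul contDiff_const))
    have e0 : (fun p : R4 => F (shb β ((0 : ℝ) * c) p)) = F := by
      funext p
      rw [zero_mul, shr_zero]
    have e1 : (fun p : R4 => F (shb β ((1 : ℝ) * c) p)) = fun p => F (shb β c p) := by
      rw [one_mul]
    have h2 : Thin 𝓘(ℝ, R4) (fun p : R4 => F (shb β ((0 : ℝ) * c) p)) φ →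
      Thin 𝓘(ℝ, R4) (fun p : R4 => F (shb β ((1 : ℝ) * c) p)) φ := h1
    rw [e0, e1] at h2
    exact h2 h
/-- the bump function at the crossing point -/
theorem exists_bump {J : ℝ × R4 → R4} {t₀ u₀ : ℝ} {p₀ : R4} (hJ : PreCross J t₀ u₀ p₀) :
    ∃ β : R3 → ℝ, BumpOK β ∧ β p₀.2 = 1 := by
  have hw : 0 < ‖p₀.2.2‖ := by
    rw [norm_pos_iff]
    intro h
    exact hJ.re (by rw [h]; rfl)
  have ha : p₀.2.1 ≤ 1 / 5 := sph_zero_le hJ.mem
  set R : ℝ := min (‖p₀.2.2‖ / 2) (1 / 20) with hR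
  have hR0 : 0 < R := lt_min (by positivity) (by norm_num)
  have hR1 : R ≤ ‖p₀.2.2‖ / 2 := min_le_left _ _
  have hR2 : R ≤ 1 / 20 := min_le_right _ _
  let f : ContDiffBump (p₀.2 : R3) := ⟨R / 2, R, by positivity, by linarith⟩
  refine ⟨f, ⟨f.contDiff, ?_, ?_⟩, ?_⟩
  · have h1 : ∀ᶠ ε in 𝓝[>] (0 : ℝ), ε < ‖p₀.2.2‖ / 2 :=
      mem_nhdsWithin_of_mem_nhds (Iio_mem_nhds (by positivity))
    filter_upwards [h1] with ε hε x hx
    apply f.zero_of_le_dist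
    show R ≤ dist x p₀.2
    have h2 : ‖x.2 - p₀.2.2‖ ≤ ‖x - p₀.2‖ := norm_snd_le (x - p₀.2)
    have h3 : ‖p₀.2.2‖ - ‖x.2‖ ≤ ‖x.2 - p₀.2.2‖ := by
      have := norm_sub_norm_le p₀.2.2 x.2
      rw [norm_sub_rev] at this
      exact this
    rw [dist_eq_norm]
    linarith
  · intro x hx
    apply f.zero_of_le_dist
    show R ≤ dist x p₀.2
    have h2 : |x.1 - p₀.2.1| ≤ ‖x - p₀.2‖ := norm_fst_le (x - p₀.2)
    have h3 := le_abs_self (x.1 - p₀.2.1)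
    rw [dist_eq_norm]
    linarith
  · apply f.one_of_mem_closedBall
    exact Metric.mem_closedBall_self (by positivity)

/-- the shear can be used to achieve `Slope` -/
theorem slope_shb (J : ℝ × R4 → R4) (t₀ u₀ : ℝ) (p₀ : R4) (hJ : PreCross J t₀ u₀ p₀) :
    ∃ β : R3 → ℝ, BumpOK β ∧ ∃ c : ℝ, PreCross (fun q => J (q.1, shb β c q.2)) t₀ u₀ p₀ ∧
      Slope (fun q => J (q.1, shb β c q.2)) t₀ u₀ p₀ := by
  obtain ⟨β, hβ, hβ1⟩ := exists_bump hJ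
  refine ⟨β, hβ, ?_⟩
  have hp₀ : p₀ ∈ SP := Or.inl (Or.inl hJ.mem)
  have hq₀ : ((1 / 2, u₀, 0) : R4) ∈ SP :=
    Or.inr ⟨rfl, hJ.arc.1.le, hJ.arc.2.le, rfl⟩
  have hrs : rsq 0 p₀ = 1 / 25 := hJ.mem.2
  have hlocp := hJ.loc p₀ hp₀
  -- the strand does not change
  have hstr : ∀ c : ℝ, (fun x : ℝ × ℝ => J (x.1, shb β c (1 / 2, x.2, 0))) =
      fun x : ℝ × ℝ => J (x.1, (1 / 2, x.2, 0)) := fun c => by
    funext x
    rw [fix_line hβ]
  -- the derivative of the sheared germ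
  have hder : ∀ (c : ℝ) (v : R4), fderiv ℝ (fun p => J (t₀, shb β c p)) p₀ v =
      fderiv ℝ (fun p => J (t₀, p)) p₀ (v.1 + c * (2 * β p₀.2 * drsq 0 p₀ v), v.2) := by
    intro c v
    have d1 : HasFDerivAt (fun p => J (t₀, p)) (fderiv ℝ (fun p => J (t₀, p)) p₀)
        (shb β c p₀) := by
      rw [fix hβ c hp₀]
      exact ((eventually_contDiffAt hlocp).self_of_nhds.differentiableAt (by simp)).hasFDerivAt
    have d2 : HasFDerivAt (shb β c) (fderiv ℝ (shb β c) p₀) p₀ :=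
      ((smooth_shr hβ c).contDiffAt.differentiableAt (by simp)).hasFDerivAt
    have d3 : fderiv ℝ (fun p => J (t₀, shb β c p)) p₀ = _ := (d1.comp p₀ d2).fderiv
    rw [d3, ← deriv_shr hβ c hrs v]
    rfl
  have hcont : ∀ c : ℝ, ∀ p ∈ SP, Tendsto (fun q : ℝ × R4 => (q.1, shb β c q.2)) (𝓝 (t₀, p))
      (𝓝 (t₀, p)) := by
    intro c p hp
    have h1 : Continuous (fun q : ℝ × R4 => (q.1, shb β c q.2)) :=
      continuous_fst.prodMk ((smooth_shr hβ c).continuous.comp continuous_snd)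
    have h2 := h1.tendsto (t₀, p)
    rw [show ((t₀, p).1, shb β c (t₀, p).2) = (t₀, p) from Prod.ext rfl (fix hβ c hp)] at h2
    exact h2
  have hall : ∀ c : ℝ, PreCross (fun q => J (q.1, shb β c q.2)) t₀ u₀ p₀ := by
    intro c
    refine ⟨?_, ?_, ?_, hJ.mem, hJ.re, hJ.arc, ?_, ?_, ?_⟩
    · intro p hp
      filter_upwards [(hcont c p hp).eventually (hJ.smooth p hp)] with q hq
      have h1 : ContDiffAt ℝ ∞ (fun q : ℝ × R4 => (q.1, shb β c q.2)) q :=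
        (contDiff_fst.prodMk ((smooth_shr hβ c).comp contDiff_snd)).contDiffAt
      exact ContDiffAt.comp q hq h1
    · intro p hp
      have h := hJ.loc p hp
      rw [← fix hβ c hp] at h
      exact loc_comp hβ (F := fun p => J (t₀, p)) c h
    · intro p hp
      have hp' : p ∈ SP := Or.inl hp
      filter_upwards [(hcont c p hp').eventually (hJ.frozen p hp)] with q hq
      exact hq
    · show J (t₀, shb β c p₀) = J (t₀, shb β c (1 / 2, u₀, 0))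
      rw [fix hβ c hp₀, fix hβ c hq₀]
      exact hJ.eq
    · intro p hp q hq hpq
      have h1 : J (t₀, shb β c p) = J (t₀, shb β c q) := hpq
      rw [fix hβ c hp, fix hβ c hq] at h1
      exact hJ.inj p hp q hq h1
    · intro ζ v h h1 h2
      have h3 : fderiv ℝ (fun x : ℝ × ℝ => J (x.1, shb β c (1 / 2, x.2, 0))) (t₀, u₀) ζ =
        fderiv ℝ (fun p => J (t₀, shb β c p)) p₀ v := h
      rw [hstr c, hder c v, h2, mul_zero, mul_zero, add_zero] at h3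
      exact hJ.trans ζ v h3 h1 h2
  -- the vector `ξ`
  obtain ⟨ξ, hξ⟩ : ∃ ξ : R4, fderiv ℝ (fun p => J (t₀, p)) p₀ ξ =
      fderiv ℝ (fun x : ℝ × ℝ => J (x.1, (1 / 2, x.2, 0))) (t₀, u₀) (0, 1) := by
    have hinj : Function.Injective (fderiv ℝ (fun p => J (t₀, p)) p₀ : R4 →ₗ[ℝ] R4) :=
      injective_fderiv hlocp
    exact (LinearMap.injective_iff_surjective.1 hinj) _
  by_cases hξ1 : ξ.1 = 0
  · refine ⟨1, hall 1, ?_⟩
    have hξd : drsq 0 p₀ ξ ≠ 0 := by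
      intro h
      have := hJ.trans (0, 1) ξ hξ.symm hξ1 h
      exact one_ne_zero (congrArg Prod.snd this)
    intro v hv hv1
    have h3 : fderiv ℝ (fun x : ℝ × ℝ => J (x.1, shb β 1 (1 / 2, x.2, 0))) (t₀, u₀) (0, 1) =
        fderiv ℝ (fun p => J (t₀, shb β 1 p)) p₀ v := hv
    rw [hstr 1, hder 1 v, ← hξ] at h3
    have h4 := injective_fderiv hlocp h3
    have h5 : ξ.1 = v.1 + 1 * (2 * β p₀.2 *
        drsq 0 p₀ v) := congrArg Prod.fst h4
    have h6 : ξ.2 = v.2 := by rw [h4]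
    have h7 : drsq 0 p₀ v = drsq 0 p₀ ξ := by
      unfold drsq
      rw [h6]
    rw [hξ1, hv1, h7, zero_add, one_mul] at h5
    have h8 : 2 * β p₀.2 ≠ 0 := by rw [hβ1]; norm_num
    exact mul_ne_zero h8 hξd h5.symm
  · refine ⟨0, hall 0, ?_⟩
    intro v hv hv1
    have h3 : fderiv ℝ (fun x : ℝ × ℝ => J (x.1, shb β 0 (1 / 2, x.2, 0))) (t₀, u₀) (0, 1) =
        fderiv ℝ (fun p => J (t₀, shb β 0 p)) p₀ v := hv
    rw [hstr 0, hder 0 v, ← hξ] at h3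
    have h4 := injective_fderiv hlocp h3
    have h5 : ξ.1 = v.1 + 0 * (2 * β p₀.2 *
        drsq 0 p₀ v) := congrArg Prod.fst h4
    rw [zero_mul, add_zero] at h5
    exact hξ1 (h5.trans hv1)

end ShB

end Pool.Agent.Helper34.BI


end

/-! ## Helper34.BI.M_D1aP -/

section

/-!
# Project BI, module D1aP: local coordinates at a transverse crossing, with the strand parameter

This is module D1a (by helper58) with two more outputs: the parameter `U r` of the strand and the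
slope.

Instead of `P` and `N` of the docstring of `StD1a` the inverse function theorem is applied once, to
`M (p, (t, u)) = (J (t₀, p) - J (t, (1/2, u, 0)), (p.1 - 1/2, rsq 0 p - 1/25))` on `R4 × (ℝ × ℝ)`.
-/

set_option autoImplicit false

open Module Set Filter Topology
open scoped ContDiff Manifold ComplexConjugate
open Pool.Agent.Helper65.Barb Pool.Agent.Helper18.BI Pool.Agent.Helper27.BI

namespace Pool.Agent.Helper34.BI

/-- **D1aP.** As `StD1a`, with the parameter `U r` of the strand at the crossing point `X r` and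
with the slope condition near the crossing. -/
def StD1aP : Prop :=
  ∀ (J : ℝ × R4 → R4) (t₀ u₀ : ℝ) (p₀ : R4), PreCross J t₀ u₀ p₀ → Slope J t₀ u₀ p₀ →
    ∃ (T U : ℝ → ℝ) (X : ℝ → R4) (η₀ : ℝ), 0 < η₀ ∧ ContDiffOn ℝ ∞ T (Ioo (-η₀) η₀) ∧
      (StrictMonoOn T (Ioo (-η₀) η₀) ∨ StrictAntiOn T (Ioo (-η₀) η₀)) ∧ T 0 = t₀ ∧
      ContinuousAt X 0 ∧ X 0 = p₀ ∧ ContinuousAt U 0 ∧ U 0 = u₀ ∧
      (∀ r ∈ Ioo (-η₀) η₀, (X r).1 = 1 / 2 ∧ rsq 0 (X r) = 1 / 25 + r) ∧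
      (∀ r ∈ Ioo (-η₀) η₀, J (t₀, X r) = J (T r, (1 / 2, U r, 0))) ∧
      (∀ᶠ r in 𝓝 (0 : ℝ), ∀ v : R4,
        fderiv ℝ (fun x : ℝ × ℝ => J (x.1, (1 / 2, x.2, 0))) (T r, U r) (0, 1) =
          fderiv ℝ (fun p => J (t₀, p)) (X r) v → v.1 ≠ 0) ∧
      ∀ᶠ q : ℝ × R4 × R4 in 𝓝 ((0 : ℝ), p₀, ((1 / 2, u₀, 0) : R4)), q.2.1 ∈ FB → q.2.2 ∈ FB →
        J (T q.1, q.2.1) = J (T q.1, q.2.2) → q.2.1 = X q.1

/-- the slope condition is open -/
private theorem slope_D1aP {F : R4 → R4} {H : ℝ × ℝ → R4} {p₀ : R4} {x₀ : ℝ × ℝ}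
    (hF : ContDiffAt ℝ ∞ F p₀) (hFi : Function.Injective (fderiv ℝ F p₀))
    (hH : ContDiffAt ℝ ∞ H x₀)
    (hS : ∀ v : R4, fderiv ℝ H x₀ (0, 1) = fderiv ℝ F p₀ v → v.1 ≠ 0) :
    ∀ᶠ z : R4 × (ℝ × ℝ) in 𝓝 (p₀, x₀), ∀ v : R4,
      fderiv ℝ H z.2 (0, 1) = fderiv ℝ F z.1 v → v.1 ≠ 0 := by
  let e : R4 ≃L[ℝ] R4 := (LinearEquiv.ofInjectiveEndo (fderiv ℝ F p₀ : R4 →ₗ[ℝ] R4)
    hFi).toContinuousLinearEquiv
  have he : (e : R4 →L[ℝ] R4) = fderiv ℝ F p₀ := ContinuousLinearMap.ext fun q => rfl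
  have c1 : ContinuousAt (fderiv ℝ F) p₀ := (hF.fderiv_right (m := ∞) (by simp)).continuousAt
  have c2 : ContinuousAt (fderiv ℝ H) x₀ := (hH.fderiv_right (m := ∞) (by simp)).continuousAt
  -- the inverse of the derivative
  have c3 : ContinuousAt (fun z : R4 × (ℝ × ℝ) => ContinuousLinearMap.inverse (fderiv ℝ F z.1))
      (p₀, x₀) := by
    have h1 : ContinuousAt (ContinuousLinearMap.inverse : (R4 →L[ℝ] R4) → (R4 →L[ℝ] R4))
        (fderiv ℝ F p₀) := by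
      rw [← he]
      exact (contDiffAt_map_inverse (n := 1) e).continuousAt
    exact ContinuousAt.comp (g := ContinuousLinearMap.inverse)
      (f := fun z : R4 × (ℝ × ℝ) => fderiv ℝ F z.1) (x := (p₀, x₀)) h1
      (ContinuousAt.comp (g := fderiv ℝ F) (f := Prod.fst) (x := (p₀, x₀)) c1 continuousAt_fst)
  have c4 : ContinuousAt (fun z : R4 × (ℝ × ℝ) => fderiv ℝ H z.2 (0, 1)) (p₀, x₀) := by
    have : ContinuousAt (fun z : R4 × (ℝ × ℝ) => fderiv ℝ H z.2) (p₀, x₀) :=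
      ContinuousAt.comp (g := fderiv ℝ H) (f := Prod.snd) (x := (p₀, x₀)) c2 continuousAt_snd
    exact this.clm_apply continuousAt_const
  have c5 : ContinuousAt (fun z : R4 × (ℝ × ℝ) =>
      (ContinuousLinearMap.inverse (fderiv ℝ F z.1) (fderiv ℝ H z.2 (0, 1))).1) (p₀, x₀) :=
    continuousAt_fst.comp (c3.clm_apply c4)
  have h0 : (ContinuousLinearMap.inverse (fderiv ℝ F p₀) (fderiv ℝ H x₀ (0, 1))).1 ≠ 0 := by
    apply hS
    rw [← he, ContinuousLinearMap.inverse_equiv]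
    exact (e.apply_symm_apply _).symm
  have hinv : ∀ᶠ z : R4 × (ℝ × ℝ) in 𝓝 (p₀, x₀),
      fderiv ℝ F z.1 ∈ range ((↑) : (R4 ≃L[ℝ] R4) → (R4 →L[ℝ] R4)) := by
    have hopen : IsOpen (range ((↑) : (R4 ≃L[ℝ] R4) → (R4 →L[ℝ] R4))) :=
      ContinuousLinearEquiv.isOpen
    have hc : ContinuousAt (fun z : R4 × (ℝ × ℝ) => fderiv ℝ F z.1) (p₀, x₀) :=
      ContinuousAt.comp (g := fderiv ℝ F) (f := Prod.fst) (x := (p₀, x₀)) c1 continuousAt_fst
    exact hc.eventually (hopen.mem_nhds ⟨e, he⟩)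
  filter_upwards [c5.eventually_ne h0, hinv] with z hz1 hz2 v hv
  obtain ⟨e', he'⟩ := hz2
  rw [hv, ← he', ContinuousLinearMap.inverse_equiv] at hz1
  have : (e'.symm : R4 →L[ℝ] R4) ((e' : R4 →L[ℝ] R4) v) = v := e'.symm_apply_apply v
  rw [this] at hz1
  exact hz1

/-- derivative of the squared radius -/
private theorem hasFDerivAt_rsq_D1aP (p : R4) :
    ∃ L : R4 →L[ℝ] ℝ, HasFDerivAt (rsq 0) L p ∧ ∀ v, L v = 2 * drsq 0 p v := by
  have h0 : HasFDerivAt (fun p : R4 => p.2.1)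
      ((ContinuousLinearMap.fst ℝ ℝ ℂ).comp (ContinuousLinearMap.snd ℝ ℝ (ℝ × ℂ))) p :=
    ((ContinuousLinearMap.fst ℝ ℝ ℂ).comp (ContinuousLinearMap.snd ℝ ℝ (ℝ × ℂ))).hasFDerivAt
  have h1 : HasFDerivAt (fun p : R4 => p.2.1 - 0)
      ((ContinuousLinearMap.fst ℝ ℝ ℂ).comp (ContinuousLinearMap.snd ℝ ℝ (ℝ × ℂ))) p :=
    h0.sub_const (0 : ℝ)
  have h2 : HasFDerivAt (fun p : R4 => p.2.2.re)
      (Complex.reCLM.comp ((ContinuousLinearMap.snd ℝ ℝ ℂ).comp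
        (ContinuousLinearMap.snd ℝ ℝ (ℝ × ℂ)))) p :=
    (Complex.reCLM.comp ((ContinuousLinearMap.snd ℝ ℝ ℂ).comp
        (ContinuousLinearMap.snd ℝ ℝ (ℝ × ℂ)))).hasFDerivAt
  have h3 : HasFDerivAt (fun p : R4 => p.2.2.im)
      (Complex.imCLM.comp ((ContinuousLinearMap.snd ℝ ℝ ℂ).comp
        (ContinuousLinearMap.snd ℝ ℝ (ℝ × ℂ)))) p :=
    (Complex.imCLM.comp ((ContinuousLinearMap.snd ℝ ℝ ℂ).comp
        (ContinuousLinearMap.snd ℝ ℝ (ℝ × ℂ)))).hasFDerivAt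
  refine ⟨_, ((h1.pow 2).add (h2.pow 2)).add (h3.pow 2), fun v => ?_⟩
  simp only [drsq, add_apply, smul_apply,
    ContinuousLinearMap.comp_apply, ContinuousLinearMap.coe_fst', ContinuousLinearMap.coe_snd',
    Complex.reCLM_apply, Complex.imCLM_apply, smul_eq_mul, nsmul_eq_mul]
  norm_num
  ring

/-- the map to which the inverse function theorem is applied -/
private noncomputable def M_D1aP (J : ℝ × R4 → R4) (t₀ : ℝ) (z : R4 × (ℝ × ℝ)) : R4 × (ℝ × ℝ) :=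
  (J (t₀, z.1) - J (z.2.1, (1 / 2, z.2.2, 0)), (z.1.1 - 1 / 2, rsq 0 z.1 - 1 / 25))

/-- points of `FB` on the open neck -/
private theorem mem_FB_arc_D1aP {q : R4} (hq : q ∈ FB) (h1 : 1 / 5 < q.2.1) (h2 : q.2.1 < 4 / 5) :
    q = (1 / 2, q.2.1, 0) := by
  rcases hq with (hq | hq) | hq
  · exfalso
    have h := hq.2
    have h3 := sq_le_rsq q
    nlinarith
  · exfalso
    have h := hq.2
    have h3 := sq_le_rsq_one q
    nlinarith
  · exact Prod.ext hq.1 (Prod.ext rfl hq.2.2.2)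

private theorem fst_of_mem_FB_D1aP {q : R4} (hq : q ∈ FB) : q.1 = 1 / 2 := by
  rcases hq with (hq | hq) | hq
  · exact hq.1
  · exact hq.1
  · exact hq.1

/-- a smooth function with nonzero derivative at `0` is strictly monotone near `0` -/
private theorem mono_D1aP {T : ℝ → ℝ} {O : Set ℝ} (hO : IsOpen O) (h0 : (0 : ℝ) ∈ O)
    (hT : ContDiffOn ℝ ∞ T O) (hd : deriv T 0 ≠ 0) :
    ∃ η₀ : ℝ, 0 < η₀ ∧ Ioo (-η₀) η₀ ⊆ O ∧
      (StrictMonoOn T (Ioo (-η₀) η₀) ∨ StrictAntiOn T (Ioo (-η₀) η₀)) := by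
  have hc : ContinuousAt (deriv T) 0 :=
    (hT.continuousOn_deriv_of_isOpen hO (by simp)).continuousAt (hO.mem_nhds h0)
  rcases lt_or_gt_of_ne hd with hneg | hpos
  · have h1 : ∀ᶠ r in 𝓝 (0 : ℝ), r ∈ O ∧ deriv T r < 0 :=
      Filter.Eventually.and (hO.mem_nhds h0) (hc.eventually_lt_const hneg)
    obtain ⟨η₀, hη, hb⟩ := Metric.eventually_nhds_iff_ball.1 h1
    rw [Real.ball_eq_Ioo, zero_sub, zero_add] at hb
    refine ⟨η₀, hη, fun r hr => (hb r hr).1, Or.inr ?_⟩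
    refine strictAntiOn_of_deriv_neg (convex_Ioo _ _)
      (hT.continuousOn.mono fun r hr => (hb r hr).1) fun r hr => ?_
    rw [interior_Ioo] at hr
    exact (hb r hr).2
  · have h1 : ∀ᶠ r in 𝓝 (0 : ℝ), r ∈ O ∧ 0 < deriv T r :=
      Filter.Eventually.and (hO.mem_nhds h0) (hc.eventually_const_lt hpos)
    obtain ⟨η₀, hη, hb⟩ := Metric.eventually_nhds_iff_ball.1 h1
    rw [Real.ball_eq_Ioo, zero_sub, zero_add] at hb
    refine ⟨η₀, hη, fun r hr => (hb r hr).1, Or.inl ?_⟩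
    refine strictMonoOn_of_deriv_pos (convex_Ioo _ _)
      (hT.continuousOn.mono fun r hr => (hb r hr).1) fun r hr => ?_
    rw [interior_Ioo] at hr
    exact (hb r hr).2

/-- the map `M_D1aP` is a local diffeomorphism at the crossing, and a formula for its derivative -/
private theorem loc_D1aP {J : ℝ × R4 → R4} {t₀ u₀ : ℝ} {p₀ : R4} (hP : PreCross J t₀ u₀ p₀) :
    (∀ᶠ z in 𝓝 ((p₀, (t₀, u₀)) : R4 × (ℝ × ℝ)), ContDiffAt ℝ ∞ (M_D1aP J t₀) z) ∧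
    (∀ w : R4 × (ℝ × ℝ), fderiv ℝ (M_D1aP J t₀) (p₀, (t₀, u₀)) w =
      (fderiv ℝ (fun p => J (t₀, p)) p₀ w.1 -
        fderiv ℝ (fun x : ℝ × ℝ => J (x.1, (1 / 2, x.2, 0))) (t₀, u₀) w.2,
        (w.1.1, 2 * drsq 0 p₀ w.1))) := by
  have hp₀ : p₀ ∈ SP := Or.inl (Or.inl hP.mem)
  have hq₀ : ((1 / 2, u₀, 0) : R4) ∈ SP := Or.inr ⟨rfl, hP.arc.1.le, hP.arc.2.le, rfl⟩
  have sF : ∀ᶠ p in 𝓝 p₀, ContDiffAt ℝ ∞ (fun p => J (t₀, p)) p :=
    eventually_contDiffAt (hP.loc p₀ hp₀)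
  have sH : ∀ᶠ x in 𝓝 (t₀, u₀), ContDiffAt ℝ ∞
      (fun x : ℝ × ℝ => J (x.1, (1 / 2, x.2, 0))) x := by
    have c : ContinuousAt (fun x : ℝ × ℝ => ((x.1, (1 / 2, x.2, 0)) : ℝ × R4)) (t₀, u₀) := by
      fun_prop
    have h : ∀ᶠ q in 𝓝 ((t₀, (1 / 2, u₀, 0)) : ℝ × R4), ContDiffAt ℝ ∞ J q :=
      hP.smooth _ hq₀
    filter_upwards [c.eventually h] with x hx
    have c2 : ContDiffAt ℝ ∞ (fun x : ℝ × ℝ => ((x.1, (1 / 2, x.2, 0)) : ℝ × R4)) x := by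
      fun_prop
    exact hx.comp x c2
  obtain ⟨L, hL, hLv⟩ := hasFDerivAt_rsq_D1aP p₀
  have dF := (sF.self_of_nhds.differentiableAt (by simp)).hasFDerivAt
  have dH := (sH.self_of_nhds.differentiableAt (by simp)).hasFDerivAt
  refine ⟨?_, fun w => ?_⟩
  · have c1 : ContinuousAt (fun z : R4 × (ℝ × ℝ) => z.1) (p₀, (t₀, u₀)) := continuousAt_fst
    have c2 : ContinuousAt (fun z : R4 × (ℝ × ℝ) => z.2) (p₀, (t₀, u₀)) := continuousAt_snd
    filter_upwards [c1.eventually sF, c2.eventually sH] with z h1 h2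
    have e1 : ContDiffAt ℝ ∞ (fun z : R4 × (ℝ × ℝ) => J (t₀, z.1)) z := h1.comp z contDiffAt_fst
    have e2 : ContDiffAt ℝ ∞ (fun z : R4 × (ℝ × ℝ) => J (z.2.1, (1 / 2, z.2.2, 0))) z :=
      h2.comp z contDiffAt_snd
    have e3 : ContDiffAt ℝ ∞ (fun z : R4 × (ℝ × ℝ) => z.1.1 - 1 / 2) z := by fun_prop
    have e4 : ContDiffAt ℝ ∞ (fun z : R4 × (ℝ × ℝ) => rsq 0 z.1 - 1 / 25) z :=
      ((contDiff_rsq 0).contDiffAt.comp z contDiffAt_fst).sub contDiffAt_const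
    exact (e1.sub e2).prodMk (e3.prodMk e4)
  · have dF' : HasFDerivAt (fun p => J (t₀, p)) (fderiv ℝ (fun p => J (t₀, p)) p₀)
        ((p₀, (t₀, u₀)) : R4 × (ℝ × ℝ)).1 := dF
    have d1 : HasFDerivAt (fun z : R4 × (ℝ × ℝ) => J (t₀, z.1))
        ((fderiv ℝ (fun p => J (t₀, p)) p₀).comp (ContinuousLinearMap.fst ℝ R4 (ℝ × ℝ)))
        (p₀, (t₀, u₀)) := dF'.comp ((p₀, (t₀, u₀)) : R4 × (ℝ × ℝ)) hasFDerivAt_fst
    have dH' : HasFDerivAt (fun x : ℝ × ℝ => J (x.1, (1 / 2, x.2, 0)))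
        (fderiv ℝ (fun x : ℝ × ℝ => J (x.1, (1 / 2, x.2, 0))) (t₀, u₀))
        ((p₀, (t₀, u₀)) : R4 × (ℝ × ℝ)).2 := dH
    have d2 : HasFDerivAt (fun z : R4 × (ℝ × ℝ) => J (z.2.1, (1 / 2, z.2.2, 0)))
        ((fderiv ℝ (fun x : ℝ × ℝ => J (x.1, (1 / 2, x.2, 0))) (t₀, u₀)).comp
          (ContinuousLinearMap.snd ℝ R4 (ℝ × ℝ)))
        (p₀, (t₀, u₀)) := dH'.comp ((p₀, (t₀, u₀)) : R4 × (ℝ × ℝ)) hasFDerivAt_snd
    have d3 : HasFDerivAt (fun z : R4 × (ℝ × ℝ) => z.1.1 - 1 / 2)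
        ((ContinuousLinearMap.fst ℝ ℝ (ℝ × ℂ)).comp (ContinuousLinearMap.fst ℝ R4 (ℝ × ℝ)))
        (p₀, (t₀, u₀)) := by
      have h : HasFDerivAt (fun z : R4 × (ℝ × ℝ) => z.1.1)
          ((ContinuousLinearMap.fst ℝ ℝ (ℝ × ℂ)).comp (ContinuousLinearMap.fst ℝ R4 (ℝ × ℝ)))
          (p₀, (t₀, u₀)) :=
        ((ContinuousLinearMap.fst ℝ ℝ (ℝ × ℂ)).comp
          (ContinuousLinearMap.fst ℝ R4 (ℝ × ℝ))).hasFDerivAt
      exact h.sub_const (1 / 2 : ℝ)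
    have hL' : HasFDerivAt (rsq 0) L ((p₀, (t₀, u₀)) : R4 × (ℝ × ℝ)).1 := hL
    have d4 : HasFDerivAt (fun z : R4 × (ℝ × ℝ) => rsq 0 z.1 - 1 / 25)
        (L.comp (ContinuousLinearMap.fst ℝ R4 (ℝ × ℝ)))
        (p₀, (t₀, u₀)) := by
      have h : HasFDerivAt (fun z : R4 × (ℝ × ℝ) => rsq 0 z.1)
          (L.comp (ContinuousLinearMap.fst ℝ R4 (ℝ × ℝ))) (p₀, (t₀, u₀)) :=
        hL'.comp ((p₀, (t₀, u₀)) : R4 × (ℝ × ℝ)) hasFDerivAt_fst
      exact h.sub_const (1 / 25 : ℝ)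
    have dM := (d1.sub d2).prodMk (d3.prodMk d4)
    have e : fderiv ℝ (M_D1aP J t₀) (p₀, (t₀, u₀)) = _ := HasFDerivAt.fderiv dM
    rw [e]
    refine Prod.ext rfl (Prod.ext rfl ?_)
    exact hLv w.1

theorem m_D1aP : StD1aP := by
  intro J t₀ u₀ p₀ hP hS
  have hp₀ : p₀ ∈ SP := Or.inl (Or.inl hP.mem)
  obtain ⟨sM, fM⟩ := loc_D1aP hP
  have hA : Function.Injective (fderiv ℝ (fun p => J (t₀, p)) p₀) :=
    injective_fderiv (hP.loc p₀ hp₀)
  have hinj : Function.Injective (fderiv ℝ (M_D1aP J t₀) (p₀, (t₀, u₀))) := by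
    rw [injective_iff_map_eq_zero]
    intro w hw
    rw [fM] at hw
    have e1 : fderiv ℝ (fun p => J (t₀, p)) p₀ w.1 =
        fderiv ℝ (fun x : ℝ × ℝ => J (x.1, (1 / 2, x.2, 0))) (t₀, u₀) w.2 :=
      sub_eq_zero.1 (congrArg Prod.fst hw)
    have e2 : w.1.1 = 0 := congrArg (fun z : R4 × (ℝ × ℝ) => z.2.1) hw
    have e3 : drsq 0 p₀ w.1 = 0 := by
      have h : 2 * drsq 0 p₀ w.1 = 0 := congrArg (fun z : R4 × (ℝ × ℝ) => z.2.2) hw
      linarith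
    have e4 : w.2 = 0 := hP.trans w.2 w.1 e1.symm e2 e3
    have e6 : w.1 = 0 := by
      apply hA
      rw [e1, e4, map_zero, map_zero]
    exact Prod.ext e6 e4
  obtain ⟨Ψ, hz, hΨ⟩ := isLocalDiffeomorphAt_of_injective rfl sM hinj
  have hgs : ContDiffOn ℝ ∞ Ψ.toPartialEquiv.symm Ψ.target :=
    contMDiffOn_iff_contDiffOn.1 Ψ.contMDiffOn_invFun
  let e : ℝ → R4 × (ℝ × ℝ) := fun r => (0, (0, r))
  have he : ContDiff ℝ ∞ e := contDiff_const.prodMk (contDiff_const.prodMk contDiff_id)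
  have hM0 : M_D1aP J t₀ (p₀, (t₀, u₀)) = e 0 := by
    refine Prod.ext ?_ (Prod.ext ?_ ?_)
    · change J (t₀, p₀) - J (t₀, (1 / 2, u₀, 0)) = 0
      rw [hP.eq, sub_self]
    · change p₀.1 - 1 / 2 = 0
      rw [hP.mem.1, sub_self]
    · change rsq 0 p₀ - 1 / 25 = 0
      rw [hP.mem.2, sub_self]
  have hΨ0 : Ψ (p₀, (t₀, u₀)) = e 0 := by rw [← hM0]; exact (hΨ hz).symm
  have hOo : IsOpen (e ⁻¹' Ψ.target) := Ψ.open_target.preimage he.continuous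
  have h0O : (0 : ℝ) ∈ e ⁻¹' Ψ.target := by
    change e 0 ∈ Ψ.target
    rw [← hΨ0]
    exact Ψ.toPartialEquiv.map_source hz
  let c : ℝ → R4 × (ℝ × ℝ) := fun r => Ψ.toPartialEquiv.symm (e r)
  have hc : ContDiffOn ℝ ∞ c (e ⁻¹' Ψ.target) := hgs.comp he.contDiffOn (fun r hr => hr)
  have hc0 : c 0 = (p₀, (t₀, u₀)) := by
    change Ψ.toPartialEquiv.symm (e 0) = _
    rw [← hΨ0]
    exact Ψ.toPartialEquiv.left_inv hz
  have hMc : ∀ r ∈ e ⁻¹' Ψ.target, M_D1aP J t₀ (c r) = e r := by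
    intro r hr
    have h1 : c r ∈ Ψ.source := Ψ.toPartialEquiv.map_target hr
    rw [hΨ h1]
    exact Ψ.toPartialEquiv.right_inv hr
  -- the derivative of the curve
  have dc : HasDerivAt c (deriv c 0) 0 :=
    ((hc.contDiffAt (hOo.mem_nhds h0O)).differentiableAt (by simp)).hasDerivAt
  have dM : HasFDerivAt (M_D1aP J t₀) (fderiv ℝ (M_D1aP J t₀) (p₀, (t₀, u₀))) (c 0) := by
    rw [hc0]
    exact (sM.self_of_nhds.differentiableAt (by simp)).hasFDerivAt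
  have dMc : HasDerivAt (fun r => M_D1aP J t₀ (c r))
      (fderiv ℝ (M_D1aP J t₀) (p₀, (t₀, u₀)) (deriv c 0)) 0 := dM.comp_hasDerivAt 0 dc
  have de : HasDerivAt e ((0 : R4), ((0 : ℝ), (1 : ℝ))) 0 :=
    (hasDerivAt_const _ _).prodMk ((hasDerivAt_const _ _).prodMk (hasDerivAt_id _))
  have heq : fderiv ℝ (M_D1aP J t₀) (p₀, (t₀, u₀)) (deriv c 0) = ((0 : R4), ((0 : ℝ), (1 : ℝ))) := by
    refine dMc.unique (de.congr_of_eventuallyEq ?_)
    filter_upwards [hOo.mem_nhds h0O] with r hr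
    exact hMc r hr
  have dT : HasDerivAt (fun r => (c r).2.1) (deriv c 0).2.1 0 := by
    have h1 := (ContinuousLinearMap.snd ℝ R4 (ℝ × ℝ)).hasFDerivAt.comp_hasDerivAt 0 dc
    exact (ContinuousLinearMap.fst ℝ ℝ ℝ).hasFDerivAt.comp_hasDerivAt 0 h1
  have hT : ContDiffOn ℝ ∞ (fun r => (c r).2.1) (e ⁻¹' Ψ.target) :=
    contDiff_fst.comp_contDiffOn (contDiff_snd.comp_contDiffOn hc)
  have hT0 : deriv (fun r => (c r).2.1) 0 ≠ 0 := by
    rw [dT.deriv]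
    intro h0
    rw [fM] at heq
    generalize deriv c 0 = w at h0 heq
    have e1 : fderiv ℝ (fun p => J (t₀, p)) p₀ w.1 =
        fderiv ℝ (fun x : ℝ × ℝ => J (x.1, (1 / 2, x.2, 0))) (t₀, u₀) w.2 :=
      sub_eq_zero.1 (congrArg Prod.fst heq)
    have e2 : w.1.1 = 0 := congrArg (fun z : R4 × (ℝ × ℝ) => z.2.1) heq
    have e3 : 2 * drsq 0 p₀ w.1 = 1 := congrArg (fun z : R4 × (ℝ × ℝ) => z.2.2) heq
    by_cases h2 : w.2.2 = 0
    · have e4 : w.2 = 0 := Prod.ext h0 h2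
      have e5 : w.1 = 0 := by
        apply hA
        rw [e1, e4, map_zero, map_zero]
      rw [e5] at e3
      simp [drsq] at e3
    · have e4 : w.2 = w.2.2 • ((0 : ℝ), (1 : ℝ)) := by
        refine Prod.ext ?_ ?_
        · simpa using h0
        · simp
      have e5 := hS (w.2.2⁻¹ • w.1) (by
        rw [map_smul, e1, e4, map_smul, smul_smul]
        simp [h2])
      apply e5
      change w.2.2⁻¹ * w.1.1 = 0
      rw [e2, mul_zero]
  obtain ⟨η₀, hη, hsub, hmono⟩ := mono_D1aP hOo h0O hT hT0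
  have hcc : ContinuousAt c 0 := dc.continuousAt
  have hinjT : InjOn (fun r => (c r).2.1) (Ioo (-η₀) η₀) := by
    rcases hmono with h | h
    · exact h.injOn
    · exact h.injOn
  refine ⟨fun r => (c r).2.1, fun r => (c r).2.2, fun r => (c r).1, η₀, hη, hT.mono hsub, hmono,
    ?_, ?_, ?_, ?_, ?_, ?_, ?_, ?_, ?_⟩
  · change (c 0).2.1 = t₀
    rw [hc0]
  · exact continuousAt_fst.comp hcc
  · change (c 0).1 = p₀
    rw [hc0]
  · exact continuousAt_snd.comp (continuousAt_snd.comp hcc)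
  · change (c 0).2.2 = u₀
    rw [hc0]
  · intro r hr
    have h := hMc r (hsub hr)
    have h1 : (c r).1.1 - 1 / 2 = 0 := congrArg (fun z : R4 × (ℝ × ℝ) => z.2.1) h
    have h2 : rsq 0 (c r).1 - 1 / 25 = r := congrArg (fun z : R4 × (ℝ × ℝ) => z.2.2) h
    exact ⟨by linarith, by linarith⟩
  · intro r hr
    have h := hMc r (hsub hr)
    have h1 : J (t₀, (c r).1) - J ((c r).2.1, (1 / 2, (c r).2.2, 0)) = 0 := congrArg Prod.fst h
    exact sub_eq_zero.1 h1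
  · have hq₀ : ((1 / 2, u₀, 0) : R4) ∈ SP := Or.inr ⟨rfl, hP.arc.1.le, hP.arc.2.le, rfl⟩
    have sH : ContDiffAt ℝ ∞ (fun x : ℝ × ℝ => J (x.1, (1 / 2, x.2, 0))) (t₀, u₀) := by
      have h : ∀ᶠ q in 𝓝 ((t₀, (1 / 2, u₀, 0)) : ℝ × R4), ContDiffAt ℝ ∞ J q :=
        hP.smooth _ hq₀
      have c2 : ContDiffAt ℝ ∞ (fun x : ℝ × ℝ => ((x.1, (1 / 2, x.2, 0)) : ℝ × R4)) (t₀, u₀) := by
        fun_prop
      exact ContDiffAt.comp (t₀, u₀) h.self_of_nhds c2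
    have sF : ContDiffAt ℝ ∞ (fun p => J (t₀, p)) p₀ :=
      (eventually_contDiffAt (hP.loc p₀ hp₀)).self_of_nhds
    have h1 := slope_D1aP sF hA sH hS
    have hcc' : Tendsto c (𝓝 0) (𝓝 (p₀, (t₀, u₀))) := by
      rw [← hc0]; exact hcc
    exact hcc'.eventually h1
  · have kT : ContinuousAt (fun r => (c r).2.1) (0 : ℝ) := dT.continuousAt
    have kr : Tendsto (fun q : ℝ × R4 × R4 => q.1) (𝓝 ((0 : ℝ), p₀, ((1 / 2, u₀, 0) : R4)))
        (𝓝 0) := continuousAt_fst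
    have kp : Tendsto (fun q : ℝ × R4 × R4 => q.2.1) (𝓝 ((0 : ℝ), p₀, ((1 / 2, u₀, 0) : R4)))
        (𝓝 p₀) := continuousAt_fst.comp continuousAt_snd
    have ku : Tendsto (fun q : ℝ × R4 × R4 => q.2.2.2.1)
        (𝓝 ((0 : ℝ), p₀, ((1 / 2, u₀, 0) : R4))) (𝓝 u₀) := by
      have : Continuous (fun q : ℝ × R4 × R4 => q.2.2.2.1) := by fun_prop
      exact this.tendsto' _ _ rfl
    have kT' : Tendsto (fun q : ℝ × R4 × R4 => (c q.1).2.1)
        (𝓝 ((0 : ℝ), p₀, ((1 / 2, u₀, 0) : R4))) (𝓝 t₀) := by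
      have h : Tendsto (fun r => (c r).2.1) (𝓝 (0 : ℝ)) (𝓝 (c 0).2.1) := kT
      rw [hc0] at h
      exact h.comp kr
    have k1 : ∀ᶠ q : ℝ × R4 × R4 in 𝓝 ((0 : ℝ), p₀, ((1 / 2, u₀, 0) : R4)),
        J ((c q.1).2.1, q.2.1) = J (t₀, q.2.1) :=
      (kT'.prodMk_nhds kp).eventually (hP.frozen p₀ (Or.inl hP.mem))
    have k2 : ∀ᶠ q : ℝ × R4 × R4 in 𝓝 ((0 : ℝ), p₀, ((1 / 2, u₀, 0) : R4)),
        ((q.2.1, ((c q.1).2.1, q.2.2.2.1)) : R4 × (ℝ × ℝ)) ∈ Ψ.source :=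
      (kp.prodMk_nhds (kT'.prodMk_nhds ku)).eventually (Ψ.open_source.mem_nhds hz)
    have k3 : ∀ᶠ q : ℝ × R4 × R4 in 𝓝 ((0 : ℝ), p₀, ((1 / 2, u₀, 0) : R4)),
        q.2.2.2.1 ∈ Ioo (1 / 5 : ℝ) (4 / 5) := ku.eventually (isOpen_Ioo.mem_nhds hP.arc)
    have k4 : ∀ᶠ q : ℝ × R4 × R4 in 𝓝 ((0 : ℝ), p₀, ((1 / 2, u₀, 0) : R4)),
        q.1 ∈ Ioo (-η₀) η₀ := kr.eventually (isOpen_Ioo.mem_nhds ⟨by linarith, hη⟩)
    have k5 : ∀ᶠ q : ℝ × R4 × R4 in 𝓝 ((0 : ℝ), p₀, ((1 / 2, u₀, 0) : R4)),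
        rsq 0 q.2.1 - 1 / 25 ∈ Ioo (-η₀) η₀ := by
      have h : Tendsto (fun q : ℝ × R4 × R4 => rsq 0 q.2.1 - 1 / 25)
          (𝓝 ((0 : ℝ), p₀, ((1 / 2, u₀, 0) : R4))) (𝓝 (rsq 0 p₀ - 1 / 25)) :=
        (((contDiff_rsq 0).continuous.tendsto p₀).comp kp).sub_const _
      refine h.eventually (isOpen_Ioo.mem_nhds ?_)
      rw [hP.mem.2, sub_self]
      exact ⟨by linarith, hη⟩
    filter_upwards [k1, k2, k3, k4, k5] with q h1 h2 h3 h4 h5 hF1 hF2 hJ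
    have e1 : q.2.2 = (1 / 2, q.2.2.2.1, 0) := mem_FB_arc_D1aP hF2 h3.1 h3.2
    have e2 : M_D1aP J t₀ (q.2.1, ((c q.1).2.1, q.2.2.2.1)) = e (rsq 0 q.2.1 - 1 / 25) := by
      refine Prod.ext ?_ (Prod.ext ?_ rfl)
      · change J (t₀, q.2.1) - J ((c q.1).2.1, (1 / 2, q.2.2.2.1, 0)) = 0
        rw [← e1, ← h1, sub_eq_zero]
        exact hJ
      · change q.2.1.1 - 1 / 2 = 0
        rw [fst_of_mem_FB_D1aP hF1, sub_self]
    have e3 : ((q.2.1, ((c q.1).2.1, q.2.2.2.1)) : R4 × (ℝ × ℝ)) = c (rsq 0 q.2.1 - 1 / 25) := by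
      have h6 : Ψ (q.2.1, ((c q.1).2.1, q.2.2.2.1)) = e (rsq 0 q.2.1 - 1 / 25) := by
        rw [← e2]; exact (hΨ h2).symm
      change _ = Ψ.toPartialEquiv.symm (e (rsq 0 q.2.1 - 1 / 25))
      rw [← h6]
      exact (Ψ.toPartialEquiv.left_inv h2).symm
    have e4 := congrArg (fun z : R4 × (ℝ × ℝ) => z.2.1) e3
    have e5 : q.1 = rsq 0 q.2.1 - 1 / 25 := hinjT h4 h5 e4
    have e6 : q.2.1 = (c (rsq 0 q.2.1 - 1 / 25)).1 := congrArg Prod.fst e3
    rw [← e5] at e6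
    exact e6

end Pool.Agent.Helper34.BI


end

/-! ## Helper34.BI.M_CRP -/

section

/-!
# Project BI, module CRP: the crossing lemma, form for stage 2
-/

set_option autoImplicit false

open Module Set Filter Topology
open scoped ContDiff Manifold ComplexConjugate
open Pool.Agent.Helper65.Barb Pool.Agent.Helper18.BI Pool.Agent.Helper27.BI

namespace Pool.Agent.Helper34.BI

open Pool.Agent.Helper70.BI (Br CrossAt LD core ax NearEq StCRP pc)

namespace CRP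

/-- smaller `η` -/
theorem cross_mono {J : ℝ × R4 → R4} {X : ℝ → R4} {η η' : ℝ} (C : Cross J X η) (h0 : 0 < η')
    (h1 : η' ≤ η) : Cross J X η' := by
  have hI : ∀ r ∈ Icc (-η') η', r ∈ Icc (-η) η := fun r hr =>
    ⟨by linarith [hr.1], by linarith [hr.2]⟩
  have hS := D1b.mono_SH h1
  have hC := D1b.mono_CL h1
  exact
    { pos := h0
      small := h1.trans C.small
      smooth := by
        obtain ⟨W, hW, hs, hd⟩ := C.smooth
        exact ⟨W, hW, (prod_mono (fun r hr => hI r hr) hS).trans hs, hd⟩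
      loc := fun r hr p hp => C.loc r (hI r hr) p (hS hp)
      inj := fun r hr => (C.inj r (hI r hr)).mono (diff_subset_diff_left hS)
      injA := fun r hr => (C.injA r (hI r hr)).mono hC
      fst := fun r hr => C.fst r (hI r hr)
      lvl := fun r hr => C.lvl r (hI r hr)
      re := fun r hr => C.re r (hI r hr) }

theorem ax_mem {a : ℝ} (ha : a ∈ Icc (1 / 5 : ℝ) (4 / 5)) : ax a ∈ SP :=
  Or.inr ⟨rfl, ha.1, ha.2, rfl⟩

theorem ax_inj {a b : ℝ} (h : ax a = ax b) : a = b := congrArg (fun p : R4 => p.2.1) h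

theorem br_congr {γ e : ℝ} {F F' : R4 → R4} (h : NearEq F F' (SP ∪ flat 0))
    (hF : Br 0 F γ e) : Br 0 F' γ e := by
  obtain ⟨U, hU, hs, he⟩ := h
  have hSP : ∀ p ∈ SP, F p = F' p := fun p hp => he (hs (Or.inl hp))
  have hfl : ∀ p ∈ flat 0, F p = F' p := fun p hp => he (hs (Or.inr hp))
  have hev : ∀ p ∈ SP ∪ flat 0, F =ᶠ[𝓝 p] F' := fun p hp =>
    he.eventuallyEq_of_mem (hU.mem_nhds (hs hp))
  have hcore : ∀ a ∈ Icc (1 / 5 : ℝ) (4 / 5), core F a = core F' a := fun a ha =>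
    hSP _ (ax_mem ha)
  have himg : F '' flat 0 = F' '' flat 0 := image_congr hfl
  have hγ : γ ∈ Icc (1 / 5 : ℝ) (4 / 5) := ⟨hF.mem.1.le, hF.mem.2.le⟩
  refine ⟨fun p hp => Pool.Agent.Helper70.BI.ld_congr (hev p hp) (hF.loc p hp),
    hF.inj.congr hSP, hF.injF.congr ?_, hF.mem, ?_, ?_⟩
  · rintro p (hp | hp)
    · exact hfl p hp
    · rw [sub_zero] at hp
      exact hSP p (Or.inl (Or.inr hp))
  · obtain ⟨x₀, h1, h2, l, v, h3, h4⟩ := hF.cr
    have hx : ((1 / 2, x₀) : R4) ∈ flat 0 := by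
      refine ⟨rfl, ?_⟩
      have : rsq 0 ((1 / 2, x₀) : R4) = nsq (x₀ - pc 0) := by
        simp [rsq, pc, nsq]
      rw [this]
      exact h1.le
    refine ⟨x₀, h1, ?_, l, v, h3, ?_⟩
    · rw [← hcore γ hγ, h2]
      exact hfl _ hx
    · rw [← (hev _ (Or.inl (ax_mem hγ))).fderiv_eq, ← (hev _ (Or.inr hx)).fderiv_eq]
      exact h4
  · intro a ha h
    rw [← hcore a ha, ← himg] at h
    exact hF.only a ha h

theorem rsq_ax (c a : ℝ) : rsq c (ax a) = (a - c) ^ 2 := by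
  simp [rsq, ax, nsq]

theorem continuous_rsq (c : ℝ) : Continuous (rsq c) := D1b.continuous_rsq c

/-- near the neck nothing changes -/
theorem near_ax {G : R4 → R4} {X : R4} {δ : ℝ} (hRE : StRE) (hδ : δ ∈ Ioo (0 : ℝ) (1 / 100))
    {x₂ : R3} {r : ℝ} {k₁ k₂ : R4 → R4} (hK : KK δ X x₂ r k₁ k₂) {a : ℝ}
    (ha : a ∈ Icc (1 / 5 : ℝ) (4 / 5)) :
    (fun p => G (Em δ (k₂ p))) =ᶠ[𝓝 (ax a)] G := by
  obtain ⟨-, hid, -⟩ := hRE δ hδ
  have h0 := hδ.1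
  have h1 : ∀ᶠ p in 𝓝 (ax a), 17 / 100 < p.2.1 := by
    have hc : Continuous fun p : R4 => p.2.1 := by fun_prop
    exact hc.continuousAt.eventually_const_lt (show 17 / 100 < (ax a).2.1 by
      show (17 / 100 : ℝ) < a
      linarith [ha.1])
  have h2 : ∀ c : ℝ, (c = 0 ∨ c = 1) → ∀ᶠ p in 𝓝 (ax a), 1 / 25 - δ < rsq c p := by
    intro c hc
    refine (continuous_rsq c).continuousAt.eventually_const_lt ?_
    rw [rsq_ax]
    rcases hc with rfl | rfl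
    · nlinarith [ha.1]
    · nlinarith [ha.2]
  filter_upwards [h1, h2 0 (Or.inl rfl), h2 1 (Or.inr rfl)] with p e1 e2 e3
  rw [(hK.off p e1.le).2, hid p e2.le e3.le]

/-- the points of the new first ball -/
theorem mem_flat {X : R4} {δ : ℝ} (hRE : StRE) (hδ : δ ∈ Ioo (0 : ℝ) (1 / 100))
    {x₂ : R3} {r : ℝ} {k₁ k₂ : R4 → R4} (hK : KK δ X x₂ r k₁ k₂) {p : R4} (hp : p ∈ flat 0) :
    Em δ (k₂ p) ∈ flat 0 ∧ 1 / 25 - 3 * δ ≤ rsq 0 (Em δ (k₂ p)) ∧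
      16 / 25 ≤ rsq 1 (Em δ (k₂ p)) := by
  obtain ⟨-, -, hfst, -, -, hlow, hE0, -⟩ := hRE δ hδ
  have h1 : rsq 0 (k₂ p) ≤ 1 / 25 := hK.kap2.small p hp.2
  have h2 : 0 < rsq 0 (k₂ p) := by
    have h3 := hK.kap2.away p (D2a.flat_ball4 hp)
    rw [D2a.mem_tube0, not_lt] at h3
    have := hK.pos
    exact lt_of_lt_of_le (by positivity) h3
  have h3 : 0 < rsq 1 (k₂ p) := by linarith [RE.far0 h1]
  have h4 := hE0 _ h2 h1
  have h5 : (Em δ (k₂ p)).1 = 1 / 2 := by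
    rw [hfst, hK.kap2.fst]
    exact hp.1
  exact ⟨⟨h5, h4.2⟩, (hlow _ h2 h3).1, RE.far0 h4.2⟩

theorem br_of (hRE : StRE) {G : R4 → R4} {X : R4} {δ η α : ℝ} (hδ : δ ∈ Ioo (0 : ℝ) (1 / 100))
    (h3 : 3 * δ ≤ η)
    (hloc : ∀ p ∈ SH η, LD G p) (hinj : InjOn G (SH η \ {X}))
    (hre : X.2.2.re ≠ 0) (hXS : X ∈ SH η)
    {x₂ : R3} {r : ℝ} {k₁ k₂ : R4 → R4} (hK : KK δ X x₂ r k₁ k₂)
    (e1 : EmbOn 𝓘(ℝ, R4) (fun p => G (Em δ (k₂ p))) SP)
    (e2 : EmbOn 𝓘(ℝ, R4) (fun p => G (Em δ (k₂ p))) (flat 0 ∪ sph 1))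
    (hα : α ∈ Ioo (1 / 5 : ℝ) (4 / 5)) (hGα : G (ax α) = G X)
    (hsl : ∀ v : R4, fderiv ℝ G (ax α) (0, ((1 : ℝ), (0 : ℂ))) = fderiv ℝ G X v → v.1 ≠ 0) :
    ∃ e : ℝ, (e = 1 ∨ e = -1) ∧ Br 0 (fun p => G (Em δ (k₂ p))) α e := by
  obtain ⟨hEm, hid, hfst, hsnd, -, hlow, hE0, -⟩ := hRE δ hδ
  have hδ0 := hδ.1
  have hη0 : 0 < η := by linarith
  set O : R4 → R4 := fun p => G (Em δ (k₂ p)) with hO
  have hnx : ∀ a ∈ Icc (1 / 5 : ℝ) (4 / 5), O =ᶠ[𝓝 (ax a)] G := fun a ha =>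
    near_ax hRE hδ hK ha
  have hαI : α ∈ Icc (1 / 5 : ℝ) (4 / 5) := ⟨hα.1.le, hα.2.le⟩
  have hax : ∀ a ∈ Icc (1 / 5 : ℝ) (4 / 5), ax a ∈ SH η \ {X} := by
    intro a ha
    refine ⟨SP_subset_SH hη0.le (ax_mem ha), ?_⟩
    rintro h
    apply hre
    rw [← show ax a = X from h]
    rfl
  -- the crossing point
  set q : R4 := (1 / 2, x₂) with hq
  have hqr : rsq 0 q = 1 / 100 := by
    rw [D2a.rsq_zero_eq]
    exact hK.norm
  have hqr1 : 16 / 25 ≤ rsq 1 q := RE.far0 (by rw [hqr]; norm_num)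
  have hEq : Em δ q = X := hK.eq
  have hkq : ∀ᶠ p in 𝓝 q, k₂ p = p := by
    have hw : |x₂.2.re| / 8 < ‖q.2.2 - (0 : R3).2‖ := by
      have h1 : (0 : R3).2 = 0 := rfl
      rw [h1, sub_zero]
      have h2 : |x₂.2.re| ≤ ‖x₂.2‖ := Complex.abs_re_le_norm _
      have h4 : 0 < |x₂.2.re| := abs_pos.2 hK.re
      show |x₂.2.re| / 8 < ‖x₂.2‖
      linarith
    have hc : Continuous fun p : R4 => ‖p.2.2 - (0 : R3).2‖ := by fun_prop
    filter_upwards [hc.continuousAt.eventually_const_lt hw] with p hp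
    exact hK.kap2.off_w p hp.le
  have hOq : O =ᶠ[𝓝 q] fun p => G (Em δ p) := by
    filter_upwards [hkq] with p hp
    show G (Em δ (k₂ p)) = _
    rw [hp]
  have hqE : q ∈ {p : R4 | 0 < rsq 0 p ∧ 0 < rsq 1 p} :=
    ⟨by rw [hqr]; norm_num, by linarith⟩
  have hEmq := hEm.1 q hqE
  have dE : HasFDerivAt (Em δ) (fderiv ℝ (Em δ) q) q :=
    ((eventually_contDiffAt hEmq).self_of_nhds.differentiableAt (by simp)).hasFDerivAt
  have dG : HasFDerivAt G (fderiv ℝ G X) (Em δ q) := by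
    rw [hEq]
    exact ((eventually_contDiffAt (hloc X hXS)).self_of_nhds.differentiableAt
      (by simp)).hasFDerivAt
  have dO : fderiv ℝ O q = (fderiv ℝ G X).comp (fderiv ℝ (Em δ) q) := by
    rw [hOq.fderiv_eq]
    exact (dG.comp q dE).fderiv
  have hE1 : ∀ v : R4, (fderiv ℝ (Em δ) q v).1 = v.1 := by
    intro v
    have a1 : HasFDerivAt (fun p : R4 => (Em δ p).1)
        ((ContinuousLinearMap.fst ℝ ℝ (ℝ × ℂ)).comp (fderiv ℝ (Em δ) q)) q := by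
      have a0 : HasFDerivAt (fun p : R4 => p.1) (ContinuousLinearMap.fst ℝ ℝ (ℝ × ℂ))
        (Em δ q) := hasFDerivAt_fst
      exact a0.comp q dE
    have a2 : HasFDerivAt (fun p : R4 => (Em δ p).1) (ContinuousLinearMap.fst ℝ ℝ (ℝ × ℂ)) q :=
      hasFDerivAt_fst.congr_of_eventuallyEq (Eventually.of_forall fun p => hfst p)
    exact congrArg (fun A : R4 →L[ℝ] ℝ => A v) (a1.unique a2)
  have surj : ∀ A : R4 →L[ℝ] R4, Function.Injective A → Function.Surjective A := fun A hA =>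
    (LinearMap.injective_iff_surjective (f := (A : R4 →ₗ[ℝ] R4))).1 hA
  obtain ⟨w, hw⟩ := surj _ (injective_fderiv (hloc X hXS))
    (fderiv ℝ G (ax α) (0, ((1 : ℝ), (0 : ℂ))))
  obtain ⟨w', hw'⟩ := surj _ (injective_fderiv hEmq) w
  have hw1 : w'.1 ≠ 0 := by
    rw [← hE1 w', hw']
    exact hsl w hw.symm
  refine ⟨if 0 < w'.1 then 1 else -1, by split_ifs <;> simp, ?_⟩
  refine ⟨?_, e1.2, ?_, hα, ?_, ?_⟩
  · rintro p (hp | hp)
    · exact e1.1 p hp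
    · exact e2.1 p (Or.inl hp)
  · rw [sub_zero]
    exact e2.2
  · refine ⟨x₂, ?_, ?_, w'.1, w'.2, ?_, ?_⟩
    · rw [show x₂ - pc 0 = x₂ from sub_zero x₂, hK.norm]
      norm_num
    · show O (ax α) = O q
      have b1 : O q = G (Em δ q) := hOq.self_of_nhds
      rw [(hnx α hαI).self_of_nhds, b1, hGα, hEq]
    · split_ifs with h
      · rw [one_mul]
        exact h
      · have : w'.1 < 0 := lt_of_le_of_ne (not_lt.1 h) hw1
        linarith
    · rw [(hnx α hαI).fderiv_eq]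
      show _ = fderiv ℝ O q (w'.1, w'.2)
      rw [dO, ← hw, ← hw']
      rfl
  · rintro a ha ⟨p, hp, hpa⟩
    obtain ⟨m1, m2, m3⟩ := mem_flat hRE hδ hK hp
    have m4 : Em δ (k₂ p) ∈ SH η := ⟨Or.inl (Or.inl m1), by linarith, by linarith⟩
    have h5 : G (Em δ (k₂ p)) = G (ax a) := by
      have h6 : core O a = G (ax a) := (hnx a ha).self_of_nhds
      rw [← h6]
      exact hpa
    by_cases hy : Em δ (k₂ p) = X
    · right
      rw [hy, ← hGα] at h5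
      exact (ax_inj (hinj (hax α hαI) (hax a ha) h5)).symm
    · left
      have h6 := hinj ⟨m4, hy⟩ (hax a ha) h5
      have h7 : rsq 0 (ax a) ≤ 1 / 25 := by
        rw [← h6]
        exact m1.2
      rw [rsq_ax] at h7
      have := ha.1
      nlinarith

/-- the derivative along the strand -/
theorem fderiv_strand {J : ℝ × R4 → R4} {t u : ℝ} (h : ContDiffAt ℝ ∞ J (t, ax u)) :
    fderiv ℝ (fun x : ℝ × ℝ => J (x.1, (1 / 2, x.2, 0))) (t, u) (0, 1) =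
      fderiv ℝ (fun p => J (t, p)) (ax u) (0, ((1 : ℝ), (0 : ℂ))) := by
  rw [D1b.fderiv_slice h]
  have h1 : HasFDerivAt J (fderiv ℝ J (t, ax u)) (t, ax u) :=
    (h.differentiableAt (by simp)).hasFDerivAt
  let M : ℝ × ℝ →L[ℝ] ℝ × R4 := (ContinuousLinearMap.fst ℝ ℝ ℝ).prod
    ((0 : ℝ × ℝ →L[ℝ] ℝ).prod ((ContinuousLinearMap.snd ℝ ℝ ℝ).prod (0 : ℝ × ℝ →L[ℝ] ℂ)))
  have h2 : HasFDerivAt (fun x : ℝ × ℝ => ((x.1, ((1 / 2 : ℝ), x.2, (0 : ℂ))) : ℝ × R4)) M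
      (t, u) :=
    hasFDerivAt_fst.prodMk ((hasFDerivAt_const _ _).prodMk
      (hasFDerivAt_snd.prodMk (hasFDerivAt_const _ _)))
  have h3 : HasFDerivAt (fun x : ℝ × ℝ => J (x.1, (1 / 2, x.2, 0)))
      ((fderiv ℝ J (t, ax u)).comp M) (t, u) := by
    have := HasFDerivAt.comp (t, u) (g := J) (f := fun x : ℝ × ℝ =>
      ((x.1, ((1 / 2 : ℝ), x.2, (0 : ℂ))) : ℝ × R4)) (by exact h1) h2
    exact this
  rw [h3.fderiv]
  rfl

/-- the final form of the germ `O` -/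
noncomputable def OO (F : R4 → R4) (β : R3 → ℝ) (c δ : ℝ) (k : R4 → R4) (p : R4) : R4 :=
  F (shb β c (rade δ 0 (k p)))

theorem OO_near {X : R4} {δ : ℝ} (hδ : δ ∈ Ioo (0 : ℝ) (1 / 100))
    {x₂ : R3} {r : ℝ} {k₁ k₂ : R4 → R4} (hK : KK δ X x₂ r k₁ k₂) (F : R4 → R4) (β : R3 → ℝ)
    (c : ℝ) :
    NearEq (fun p => F (shb β c (Em δ (k₂ p)))) (OO F β c δ k₂) (SP ∪ flat 0) := by
  have h0 := hδ.1
  have hc : Continuous k₂ := hK.kap2.smooth.continuous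
  refine ⟨{p | 1 / 25 - δ < rsq 1 (k₂ p)},
    isOpen_lt continuous_const ((continuous_rsq 1).comp hc), ?_, ?_⟩
  · intro p hp
    show 1 / 25 - δ < rsq 1 (k₂ p)
    have hfl : ∀ p ∈ flat 0, 1 / 25 - δ < rsq 1 (k₂ p) := by
      intro p hp
      have := RE.far0 (hK.kap2.small p hp.2)
      linarith
    rcases hp with hp | hp
    · have h1 := (D2a.SP_rsq hp).2
      rcases hp with (hp | hp) | hp
      · exact hfl p ⟨hp.1, hp.2.le⟩
      · rw [(hK.off p (by linarith [le_sph_one hp])).2]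
        linarith
      · rw [(hK.off p (by linarith [hp.2.1])).2]
        linarith
    · exact hfl p hp
  · intro p hp
    have hp' : 1 / 25 - δ < rsq 1 (k₂ p) := hp
    show F (shb β c (Em δ (k₂ p))) = F (shb β c (rade δ 0 (k₂ p)))
    unfold Em
    rw [RE.rade_id h0 hδ.2 1 hp'.le]

theorem OO_far {X : R4} {δ : ℝ} (hδ : δ ∈ Ioo (0 : ℝ) (1 / 100))
    {x₂ : R3} {r : ℝ} {k₁ k₂ : R4 → R4} (hK : KK δ X x₂ r k₁ k₂) (F : R4 → R4) {β : R3 → ℝ}
    (hβ : BumpOK β) (c : ℝ) (p : R4) (hp : 1 / 2 < p.2.1) : OO F β c δ k₂ p = F p := by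
  have h0 := hδ.1
  unfold OO
  rw [(hK.off p (by linarith)).2, RE.rade_id h0 hδ.2 0]
  · congr 1
    rw [ShB.shr_eq]
    unfold ShB.gg
    rw [hβ.far p.2 (by linarith)]
    refine Prod.ext ?_ rfl
    show p.1 + c * (0 * _) = p.1
    ring
  · have := D2a.sq_le_rsq 0 p
    nlinarith

end CRP

open CRP in
theorem m_CRP (hRE : StRE) (hT2 : StT2) (hCI : StCI) (hD1aP : StD1aP) (hD1b : StD1b)
    (hD2aP : StD2aP) (hD2b : StD2b) : StCRP := by
  intro J t₀ u₀ p₀ hP C hC hdis ε hε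
  obtain ⟨β, hβ, c, hP', hsl⟩ := ShB.slope_shb J t₀ u₀ p₀ hP
  set J' : ℝ × R4 → R4 := fun q => J (q.1, shb β c q.2) with hJ'
  obtain ⟨T, U, X, η₀, hη₀, hT1, hTm, hT0, hX1, hX0, hU1, hU0, hX2, hX3, hsl', huniq⟩ :=
    hD1aP J' t₀ u₀ p₀ hP' hsl
  obtain ⟨η₁, hη₁, hηη, C₁, hclose⟩ :=
    hD1b J' t₀ u₀ p₀ hP' T X η₀ hη₀ hT1 hT0 hX1 hX0 hX2 huniq ε hε
  have hTc : ContinuousAt T 0 :=
    (hT1.contDiffAt (isOpen_Ioo.mem_nhds ⟨by linarith, hη₀⟩)).continuousAt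
  -- the parameter of the strand
  have hα1 : ∀ᶠ r in 𝓝 (0 : ℝ), U r ∈ Ioo (1 / 5 : ℝ) (4 / 5) ∧ |U r - u₀| < ε := by
    have h1 : ∀ᶠ r in 𝓝 (0 : ℝ), U r ∈ Ioo (1 / 5 : ℝ) (4 / 5) :=
      hU1.eventually (isOpen_Ioo.mem_nhds (by rw [hU0]; exact hP.arc))
    have h2 : ∀ᶠ r in 𝓝 (0 : ℝ), |U r - u₀| < ε := by
      have c3 : ContinuousAt (fun r => |U r - u₀|) 0 := (hU1.sub continuousAt_const).abs
      apply c3.eventually_lt continuousAt_const
      rw [hU0, sub_self, abs_zero]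
      exact hε
    exact h1.and h2
  -- frozen near the crossing
  have hfr : ∀ᶠ r in 𝓝 (0 : ℝ), ∀ᶠ q in 𝓝 (T r, X r), J' q = J' (t₀, q.2) := by
    have h1 : ContinuousAt (fun r => (T r, X r)) 0 := hTc.prodMk hX1
    have h2 := (hP'.frozen p₀ (Or.inl hP'.mem)).eventually_nhds
    have h3 : (T 0, X 0) = (t₀, p₀) := by rw [hT0, hX0]
    rw [← h3] at h2
    exact h1.eventually h2
  -- smooth near the strand
  have hst : ∀ᶠ r in 𝓝 (0 : ℝ), ContDiffAt ℝ ∞ J' (T r, ax (U r)) := by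
    have h1 : ContinuousAt (fun r => (T r, ax (U r))) 0 := by
      refine hTc.prodMk ?_
      have h2 : Continuous ax := by
        unfold Pool.Agent.Helper70.BI.ax
        fun_prop
      exact h2.continuousAt.comp hU1
    have h2 := hP'.smooth (ax u₀) (ax_mem ⟨hP.arc.1.le, hP.arc.2.le⟩)
    have h3 : (T 0, ax (U 0)) = (t₀, ax u₀) := by rw [hT0, hU0]
    rw [← h3] at h2
    exact h1.eventually h2
  -- the compact set
  have hdC : ∀ᶠ η in 𝓝[>] (0 : ℝ), ∀ r ∈ Icc (-η) η, ∀ p ∈ CL η, ∀ q ∈ CL η,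
      rsq 0 p ≤ 1 / 25 → J' (T r, p) ∉ C := by
    refine D1b.shrink CL (sph 0 ∪ sph 1) D1b.cpt_CL D1b.mono_CL (fun p => D1b.sph_of_CL)
      {x | rsq 0 x.2.1 ≤ 1 / 25 → J' (T x.1, x.2.1) ∉ C} ?_
    intro p hp q hq
    by_cases h0 : p ∈ sph 0
    · have h1 : J' (t₀, p) ∉ C := by
        have h2 : J' (t₀, p) = J (t₀, p) := by
          show J (t₀, shb β c p) = _
          rw [ShB.fix hβ c (Or.inl (Or.inl h0))]
        rw [h2]
        intro h3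
        exact disjoint_left.1 hdis h3 ⟨p, h0, rfl⟩
      have h2 : ContinuousAt (fun x : ℝ × R4 × R4 => J' (T x.1, x.2.1)) ((0 : ℝ), p, q) := by
        have h3 : ContinuousAt J' (T 0, p) := by
          rw [hT0]
          exact (hP'.smooth p (Or.inl (Or.inl h0))).self_of_nhds.continuousAt
        have h4 : ContinuousAt (fun x : ℝ × R4 × R4 => (T x.1, x.2.1)) ((0 : ℝ), p, q) := by
          refine ContinuousAt.prodMk ?_ (by fun_prop)
          exact ContinuousAt.comp (f := fun x : ℝ × R4 × R4 => x.1) (g := T) hTc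
            continuousAt_fst
        exact ContinuousAt.comp (f := fun x : ℝ × R4 × R4 => (T x.1, x.2.1)) (g := J') h3 h4
      have h3 : Cᶜ ∈ 𝓝 ((fun x : ℝ × R4 × R4 => J' (T x.1, x.2.1)) ((0 : ℝ), p, q)) := by
        apply hC.isClosed.isOpen_compl.mem_nhds
        show J' (T 0, p) ∉ C
        rw [hT0]
        exact h1
      filter_upwards [h2 h3] with x hx _
      exact hx
    · have h1 : p ∈ sph 1 := hp.resolve_left h0
      have h2 : 1 / 25 < rsq 0 p := by linarith [RE.far1 h1.2.le]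
      have h3 : Continuous fun x : ℝ × R4 × R4 => rsq 0 x.2.1 :=
        (D1b.continuous_rsq 0).comp (by fun_prop)
      filter_upwards [h3.continuousAt.eventually_const_lt
        (show 1 / 25 < (fun x : ℝ × R4 × R4 => rsq 0 x.2.1) ((0 : ℝ), p, q) from h2)] with x hx hx'
      exact absurd hx' (not_le.2 hx)
  have hall : ∀ᶠ r in 𝓝 (0 : ℝ), (U r ∈ Ioo (1 / 5 : ℝ) (4 / 5) ∧ |U r - u₀| < ε) ∧
      (∀ᶠ q in 𝓝 (T r, X r), J' q = J' (t₀, q.2)) ∧ ContDiffAt ℝ ∞ J' (T r, ax (U r)) ∧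
      ∀ v : R4, fderiv ℝ (fun x : ℝ × ℝ => J' (x.1, (1 / 2, x.2, 0))) (T r, U r) (0, 1) =
          fderiv ℝ (fun p => J' (t₀, p)) (X r) v → v.1 ≠ 0 :=
    hα1.and (hfr.and (hst.and hsl'))
  obtain ⟨ρ, hρ, hρ'⟩ := Metric.eventually_nhds_iff.1 hall
  have hIoo : ∀ᶠ η in 𝓝[>] (0 : ℝ), η ∈ Ioo (0 : ℝ) (min ρ η₁) :=
    Ioo_mem_nhdsGT (lt_min hρ hη₁)
  obtain ⟨η, ⟨hη, hηl⟩, hηC⟩ := (hIoo.and hdC).exists
  have hη1 : η ≤ η₁ := hηl.le.trans (min_le_right _ _)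
  have hηρ : η < ρ := lt_of_lt_of_le hηl (min_le_left _ _)
  have C₂ := cross_mono C₁ hη hη1
  have h2 := C₂.small
  set δ := η / 3 with hδ
  have hδm : δ ∈ Ioo (0 : ℝ) (1 / 100) := ⟨by positivity, by rw [hδ]; linarith⟩
  have h3 : 3 * δ ≤ η := by rw [hδ]; linarith
  obtain ⟨-, -, -, -, -, -, -, -, hmono, -, hid, hlow, -⟩ := hRE δ hδm
  have e1 : qe δ (1 / 25) = 1 / 25 := hid _ (by linarith [hδm.1])
  have e2 : qe δ (1 / 100) < 1 / 25 := by
    rw [← e1]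
    exact hmono (by norm_num)
  have e3 := hlow (1 / 100) (by norm_num)
  set r₁ := 1 / 25 - qe δ (1 / 100) with hr₁
  have h4 : 0 < r₁ := by rw [hr₁]; linarith
  have h5 : r₁ ≤ η := by rw [hr₁]; linarith
  have m1 : -r₁ ∈ Icc (-η) η := ⟨by linarith, by linarith⟩
  have m2 : r₁ ∈ Icc (-η) η := ⟨by linarith, by linarith⟩
  have lv : rsq 0 (X (-r₁)) = qe δ (1 / 100) := by rw [C₂.lvl _ m1, hr₁]; ring
  obtain ⟨x₂, r, k₁, k₂, hK, f1, f2, n, ψ, hn, hψ, hφ⟩ :=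
    hD2aP (fun p => J' (T (-r₁), p)) (X (-r₁)) δ η hδm h3 h2 (C₂.loc _ m1) (C₂.inj _ m1)
      (C₂.injA _ m1) (C₂.fst _ m1) lv (C₂.re _ m1)
  have hψ' := hD2b _ X δ η r₁ C₂ hδm h3 hr₁ h4 h5 x₂ r k₁ hK.pos hK.norm hK.re hK.eq hK.kap1.emb
    hK.kap1.fst (fun p hp => (hK.off p hp).1) hK.kap1.small hK.axis hK.kap1.away ψ hψ
  have hXS : X (-r₁) ∈ SH η := by
    have h6 : rsq 0 (X (-r₁)) ≤ 1 / 25 := by rw [lv]; exact e2.le
    refine ⟨Or.inl (Or.inl ⟨C₂.fst _ m1, h6⟩), ?_, ?_⟩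
    · rw [lv]; linarith
    · linarith [RE.far0 h6]
  obtain ⟨⟨g1, g2⟩, g3, g4, g5⟩ := hρ' (show dist (-r₁) 0 < ρ by
    rw [Real.dist_eq, sub_zero, abs_neg, abs_of_pos h4]; linarith)
  have i0 : (0 : ℝ) ∈ Ioo (-η₀) η₀ := ⟨by linarith, hη₀⟩
  have i1 : r₁ ∈ Ioo (-η₀) η₀ := ⟨by linarith, by linarith⟩
  have i2 : -r₁ ∈ Ioo (-η₀) η₀ := ⟨by linarith, by linarith⟩
  -- values at the crossing
  have g6 : J' (T (-r₁), ax (U (-r₁))) = J' (T (-r₁), X (-r₁)) := by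
    rw [g3.self_of_nhds]
    exact (hX3 _ i2).symm
  have g7 : (fun p => J' (T (-r₁), p)) =ᶠ[𝓝 (X (-r₁))] fun p => J' (t₀, p) := by
    have h6 : ContinuousAt (fun p : R4 => (T (-r₁), p)) (X (-r₁)) := by fun_prop
    exact h6.eventually g3
  obtain ⟨e, he, hBr⟩ := br_of hRE hδm h3 (C₂.loc _ m1) (C₂.inj _ m1) (C₂.re _ m1) hXS hK f1 f2
    g1 g6 (by
      intro v hv
      apply g5 v
      rw [fderiv_strand g4, hv, g7.fderiv_eq])
  have hne : NearEq (fun p => J' (T (-r₁), Em δ (k₂ p)))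
      (OO (fun p => J (T (-r₁), p)) β c δ k₂) (SP ∪ flat 0) :=
    OO_near hδm hK (fun p => J (T (-r₁), p)) β c
  have hBr' := br_congr hne hBr
  -- the germs at the times `T s`
  have key : ∀ s ∈ Icc (-η) η, s ≠ 0 → EmbOn 𝓘(ℝ, R4) (fun p => J (T s, p)) SP ∧
      ∀ φ, (Thin 𝓘(ℝ, R4) (fun p => J (T s, p)) φ ↔
        Thin 𝓘(ℝ, R4) (fun p => J' (T s, p)) φ) := by
    intro s hs h0
    have e1 : EmbOn 𝓘(ℝ, R4) (fun p => J' (T s, p)) SP := by
      refine ⟨fun p hp => C₂.loc s hs p (SP_subset_SH hη.le hp), ?_⟩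
      have hsub : SP ⊆ SH η \ {X s} := by
        intro p hp
        refine ⟨SP_subset_SH hη.le hp, ?_⟩
        rintro rfl
        exact X_notMem_SP C₂ hs h0 hp
      exact (C₂.inj s hs).mono hsub
    obtain ⟨e2, e3⟩ := ShB.class_shb hT2 hβ _ (-c) e1
    have e4 : ∀ p, shb β c (shb β (-c) p) = p := by
      intro p
      have := ShB.shr_neg (β := β) (-c) p
      rwa [neg_neg] at this
    simp only [hJ', e4] at e2 e3
    exact ⟨e2, e3⟩
  obtain ⟨k1, k2⟩ := key r₁ m2 h4.ne'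
  obtain ⟨k3, k4⟩ := key (-r₁) m1 (neg_ne_zero.2 h4.ne')
  have c1 := abs_lt.1 (hclose r₁ ⟨by linarith, by linarith⟩)
  have c2 := abs_lt.1 (hclose (-r₁) ⟨by linarith, by linarith⟩)
  -- the conclusion for the ordered times
  have fin : ∀ t₁ t₂ : ℝ, (T (-r₁) = t₁ ∧ T r₁ = t₂ ∨ T (-r₁) = t₂ ∧ T r₁ = t₁) →
      ∃ t' t'' : ℝ, (t' = t₁ ∧ t'' = t₂ ∨ t' = t₂ ∧ t'' = t₁) ∧
      ∃ (O : R4 → R4) (α e : ℝ), |α - u₀| < ε ∧ (e = 1 ∨ e = -1) ∧ Br 0 O α e ∧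
        (∀ a ∈ Icc (1 / 5 : ℝ) (4 / 5), core O a = core (fun p => J (t', p)) a) ∧
        (∀ p : R4, 1 / 2 < p.2.1 → O p = J (t', p)) ∧ Disjoint C (O '' flat 0) ∧
        ∀ φ' φ'' n : R4 → R4, Thin 𝓘(ℝ, R4) (fun p => J (t', p)) φ' →
          Thin 𝓘(ℝ, R4) (fun p => J (t'', p)) φ'' →
          Thin 𝓘(ℝ, R4) O n → CIsot 𝓘(ℝ, R4) φ' (fun x => n (φ'' x)) := by
    intro t₁ t₂ ht
    refine ⟨T (-r₁), T r₁, ht, OO (fun p => J (T (-r₁), p)) β c δ k₂, U (-r₁), e, g2, he, hBr',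
      ?_, fun p hp => OO_far hδm hK (fun p => J (T (-r₁), p)) hβ c p hp, ?_, ?_⟩
    · intro a ha
      have b1 : J' (T (-r₁), Em δ (k₂ (ax a))) = J' (T (-r₁), ax a) :=
        (near_ax (G := fun p => J' (T (-r₁), p)) hRE hδm hK ha).self_of_nhds
      have b2 : J' (T (-r₁), Em δ (k₂ (ax a))) = OO (fun p => J (T (-r₁), p)) β c δ k₂ (ax a) :=
        (hne.eventuallyEq (Or.inl (ax_mem ha))).self_of_nhds
      show OO (fun p => J (T (-r₁), p)) β c δ k₂ (ax a) = J (T (-r₁), ax a)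
      rw [← b2, b1]
      show J (T (-r₁), shb β c (ax a)) = _
      rw [ShB.fix hβ c (ax_mem ha)]
    · rw [disjoint_left]
      rintro y hy ⟨p, hp, rfl⟩
      obtain ⟨n1, n2, n3⟩ := mem_flat hRE hδm hK hp
      have b2 : J' (T (-r₁), Em δ (k₂ p)) = OO (fun p => J (T (-r₁), p)) β c δ k₂ p :=
        (hne.eventuallyEq (Or.inr hp)).self_of_nhds
      rw [← b2] at hy
      have n4 : Em δ (k₂ p) ∈ CL η :=
        ⟨⟨Or.inl (Or.inl n1), by linarith, by linarith⟩, Or.inl n1.2⟩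
      exact hηC _ m1 _ n4 _ n4 n1.2 hy
    · intro φ' φ'' n' t1 t2 t3
      obtain ⟨-, hsym, -, htrans, hcomp, -⟩ := hCI R4 R4 𝓘(ℝ, R4) R4
      obtain ⟨-, huni, -, -, hloc, -⟩ := hT2 R4 R4 𝓘(ℝ, R4) R4
      have a1 := hφ φ' ((k4 φ').1 t1)
      have a2 := huni _ _ _ hψ' ((k2 φ'').1 t2)
      obtain ⟨V, hV, hVs, hVe⟩ := hne
      have a3 := hloc _ _ V n' hV (subset_union_left.trans hVs) hVe.symm t3
      have a4 := huni _ _ _ hn a3
      exact htrans _ _ _ a1 (hcomp _ _ _ _ a4 a2)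
  have l2 : -r₁ < 0 := by linarith
  rcases hTm with hTm | hTm
  · have a1 := hTm i0 i1 h4
    have a2 := hTm i2 i0 l2
    rw [hT0] at a1 a2
    exact ⟨T (-r₁), ⟨by linarith [c2.1], a2⟩, T r₁, ⟨a1, by linarith [c1.2]⟩, k3, k1,
      fin _ _ (Or.inl ⟨rfl, rfl⟩)⟩
  · have a1 := hTm i0 i1 h4
    have a2 := hTm i2 i0 l2
    rw [hT0] at a1 a2
    exact ⟨T r₁, ⟨by linarith [c1.1], a1⟩, T (-r₁), ⟨a2, by linarith [c2.2]⟩, k1, k3,
      fin _ _ (Or.inr ⟨rfl, rfl⟩)⟩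

end Pool.Agent.Helper34.BI


end

/-! ## Helper34.BI.M_D2b -/

section

/-!
# Project BI, module D2b: the other factor is the class on the other side of the crossing
-/

set_option autoImplicit false

open Module Set Filter Topology
open scoped ContDiff Manifold ComplexConjugate
open Pool.Agent.Helper65.Barb Pool.Agent.Helper18.BI Pool.Agent.Helper27.BI

namespace Pool.Agent.Helper34.BI

namespace D2b

/-! ## coordinates -/

theorem rsq_eq (c : ℝ) (p : R4) : rsq c p = (p.2.1 - c) ^ 2 + p.2.2.re ^ 2 + p.2.2.im ^ 2 := rfl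

theorem nsq_eq (x : R3) : nsq x = x.1 ^ 2 + x.2.re ^ 2 + x.2.im ^ 2 := rfl

theorem rsq_zero_eq (p : R4) : rsq 0 p = nsq p.2 := by
  rw [rsq_eq, nsq_eq, sub_zero]

theorem continuous_rsq (c : ℝ) : Continuous (rsq c) := by
  unfold rsq nsq
  fun_prop

theorem isOpen_G : IsOpen {p : R4 | 0 < rsq 0 p ∧ 0 < rsq 1 p} :=
  (isOpen_lt continuous_const (continuous_rsq 0)).inter
    (isOpen_lt continuous_const (continuous_rsq 1))

/-! ## compositions -/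

theorem embOn_comp {F G : R4 → R4} {K L : Set R4} (hF : EmbOn 𝓘(ℝ, R4) F L)
    (hG : EmbOn 𝓘(ℝ, R4) G K) (h : MapsTo G K L) : EmbOn 𝓘(ℝ, R4) (fun p => F (G p)) K := by
  refine ⟨fun p hp => IsLocalDiffeomorphAt.comp _ _ (hG.1 p hp) (hF.1 (G p) (h hp)), ?_⟩
  intro p hp q hq hpq
  exact hG.2 hp hq (hF.2 (h hp) (h hq) hpq)

theorem contDiffAt_of_emb {F : R4 → R4} {L : Set R4} (hF : EmbOn 𝓘(ℝ, R4) F L) {p : R4}
    (hp : p ∈ L) : ContDiffAt ℝ ∞ F p := (eventually_contDiffAt (hF.1 p hp)).self_of_nhds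

/-- composition of the family with the crossing family -/
theorem famOn_of {J : ℝ × R4 → R4} {X : ℝ → R4} {η : ℝ} (hJ : Cross J X η) {T : ℝ → ℝ}
    (hT : ContDiff ℝ ∞ T) (hT1 : ∀ t ∈ Icc (0 : ℝ) 1, T t ∈ Icc (-η) η) {m : ℝ × R4 → R4}
    (hm : ∀ t ∈ Icc (0 : ℝ) 1, ∀ p ∈ SP, ∀ᶠ q in 𝓝 (t, p), ContDiffAt ℝ ∞ m q)
    (he : ∀ t ∈ Icc (0 : ℝ) 1, EmbOn 𝓘(ℝ, R4) (fun p => m (t, p)) SP)
    (hmem : ∀ t ∈ Icc (0 : ℝ) 1, ∀ p ∈ SP, m (t, p) ∈ SH η ∧ m (t, p) ≠ X (T t)) :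
    FamOn 𝓘(ℝ, R4) (fun q => J (T q.1, m q)) SP := by
  obtain ⟨W, hWo, hW, hWJ⟩ := hJ.smooth
  refine ⟨⟨{q | ∀ᶠ q' in 𝓝 q, ContDiffAt ℝ ∞ (fun q => J (T q.1, m q)) q'},
    isOpen_setOf_eventually_nhds, ?_, ?_⟩, ?_⟩
  · rintro ⟨t, p⟩ ⟨ht, hp⟩
    have hc : ContinuousAt (fun q : ℝ × R4 => (T q.1, m q)) (t, p) := by
      have h1 : ContinuousAt (fun q : ℝ × R4 => T q.1) (t, p) :=
        (hT.continuous.comp continuous_fst).continuousAt
      exact h1.prodMk (hm t ht p hp).self_of_nhds.continuousAt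
    have hW' : W ∈ 𝓝 (T t, m (t, p)) :=
      hWo.mem_nhds (hW ⟨hT1 t ht, (hmem t ht p hp).1⟩)
    have h2 : ∀ᶠ q in 𝓝 (t, p), (T q.1, m q) ∈ W := hc hW'
    show ∀ᶠ q' in 𝓝 (t, p), ContDiffAt ℝ ∞ (fun q => J (T q.1, m q)) q'
    filter_upwards [h2, hm t ht p hp] with q hq1 hq2
    have h3 : ContDiffAt ℝ ∞ J (T q.1, m q) := hWJ.contDiffAt (hWo.mem_nhds hq1)
    have h4 : ContDiffAt ℝ ∞ (fun q : ℝ × R4 => (T q.1, m q)) q :=
      ((hT.comp contDiff_fst).contDiffAt).prodMk hq2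
    exact ContDiffAt.comp q h3 h4
  · rw [contMDiffOn_iff_contDiffOn]
    intro q hq
    exact (Filter.Eventually.self_of_nhds hq).contDiffWithinAt
  · intro t ht
    refine ⟨fun p hp => ?_, fun p hp q hq hpq => ?_⟩
    · exact IsLocalDiffeomorphAt.comp _ _ ((he t ht).1 p hp)
        (hJ.loc (T t) (hT1 t ht) (m (t, p)) (hmem t ht p hp).1)
    · exact (he t ht).2 hp hq (hJ.inj (T t) (hT1 t ht) ⟨(hmem t ht p hp).1, (hmem t ht p hp).2⟩
        ⟨(hmem t ht q hq).1, (hmem t ht q hq).2⟩ hpq)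

/-! ## the position of the points -/

/-- the points through which the families run -/
def AA : Set R4 := {q | q.1 = 1 / 2 ∧ q ∈ ball4 ∧ (q ∈ sph 1 ∨ (q.2.2 = 0 ∧ 0 < q.2.1 ∧
  q.2.1 ≤ 4 / 5) ∨ (0 < rsq 0 q ∧ rsq 0 q ≤ 1 / 25))}

theorem ball4_of {q : R4} (h1 : q.1 = 1 / 2) (h2 : rsq 0 q ≤ 81 / 4) : q ∈ ball4 := by
  refine ⟨?_, ?_, ?_⟩
  · rw [h1]; norm_num
  · rw [h1]; norm_num
  · refine h2.trans ?_; norm_num

theorem sph_one_bounds {p : R4} (h : p ∈ sph 1) : 4 / 5 ≤ p.2.1 ∧ 16 / 25 ≤ rsq 0 p ∧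
    rsq 0 p ≤ 81 / 4 := by
  have h1 := le_sph_one h
  have h2 := h.2
  rw [rsq_eq] at h2
  have h3 := sq_nonneg p.2.2.re
  have h4 := sq_nonneg p.2.2.im
  have h5 : p.2.1 ≤ 6 / 5 := by nlinarith
  refine ⟨h1, ?_, ?_⟩
  · rw [rsq_eq]; nlinarith
  · rw [rsq_eq]; nlinarith

theorem small_bounds {q : R4} (h : rsq 0 q ≤ 1 / 25) : 16 / 25 ≤ rsq 1 q := by
  rw [rsq_eq] at h ⊢
  have h3 := sq_nonneg q.2.2.re
  have h4 := sq_nonneg q.2.2.im
  have h5 : q.2.1 ≤ 1 / 5 := by nlinarith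
  nlinarith

theorem AA_pos {q : R4} (hq : q ∈ AA) : 0 < rsq 0 q ∧ 0 < rsq 1 q := by
  obtain ⟨-, -, h | ⟨h1, h2, h3⟩ | ⟨h1, h2⟩⟩ := hq
  · have h1 := sph_one_bounds h
    rw [h.2]
    constructor
    · linarith
    · norm_num
  · rw [rsq_eq, rsq_eq, h1]
    simp only [Complex.zero_re, Complex.zero_im]
    constructor <;> nlinarith
  · exact ⟨h1, by linarith [small_bounds h2]⟩

/-- the properties of the diffeomorphism `k` used (they hold for the identity as well) -/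
structure KK (k : R4 → R4) (ρ : ℝ) : Prop where
  emb : EmbOn 𝓘(ℝ, R4) k univ
  fst : ∀ p, (k p).1 = p.1
  far : ∀ p : R4, 17 / 100 ≤ p.2.1 → k p = p
  ball : ∀ p, rsq 0 p ≤ 1 / 25 → rsq 0 (k p) ≤ 1 / 25
  axis : ∀ p : R4, ‖p.2.2‖ ≤ ρ → k p = p

theorem KK_id (ρ : ℝ) : KK (fun p => p) ρ where
  emb := by
    refine ⟨fun p _ => isLocalDiffeomorphAt_of_injective rfl
      (Eventually.of_forall fun q => contDiff_id.contDiffAt) ?_, Function.injective_id.injOn⟩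
    intro v w hvw
    have h : fderiv ℝ (fun p : R4 => p) p = ContinuousLinearMap.id ℝ R4 := fderiv_id
    rw [h] at hvw
    exact hvw
  fst _ := rfl
  far _ _ := rfl
  ball _ h := h
  axis _ _ := rfl

theorem rsq_nonneg (c : ℝ) (p : R4) : 0 ≤ rsq c p := by
  rw [rsq_eq]; positivity

theorem k_AA {k : R4 → R4} {ρ : ℝ} (hk : KK k ρ) (hρ : 0 ≤ ρ) {q : R4} (hq : q ∈ AA) :
    k q ∈ AA := by
  obtain ⟨h0, hb, h | ⟨h1, h2, h3⟩ | ⟨h1, h2⟩⟩ := hq
  · have : k q = q := hk.far q (by linarith [(sph_one_bounds h).1])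
    rw [this]
    exact ⟨h0, hb, Or.inl h⟩
  · have : k q = q := hk.axis q (by rw [h1, norm_zero]; exact hρ)
    rw [this]
    exact ⟨h0, hb, Or.inr (Or.inl ⟨h1, h2, h3⟩)⟩
  · have e1 := hk.ball q h2
    have e0 : (k q).1 = 1 / 2 := (hk.fst q).trans h0
    refine ⟨e0, ball4_of e0 (e1.trans (by norm_num)), Or.inr (Or.inr ⟨?_, e1⟩)⟩
    rcases (rsq_nonneg 0 (k q)).lt_or_eq with h | h
    · exact h
    · exfalso
      have h' := h.symm
      rw [rsq_eq] at h'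
      have a1 := sq_nonneg ((k q).2.1 - 0)
      have a2 := sq_nonneg (k q).2.2.re
      have a3 := sq_nonneg (k q).2.2.im
      have b2 : (k q).2.2.re = 0 := by
        have : (k q).2.2.re ^ 2 = 0 := by linarith
        exact pow_eq_zero_iff (two_ne_zero) |>.1 this
      have b3 : (k q).2.2.im = 0 := by
        have : (k q).2.2.im ^ 2 = 0 := by linarith
        exact pow_eq_zero_iff (two_ne_zero) |>.1 this
      have b4 : (k q).2.2 = 0 := Complex.ext b2 b3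
      have b5 : k (k q) = k q := hk.axis _ (by rw [b4, norm_zero]; exact hρ)
      have b6 : k q = q := hk.emb.2 (mem_univ _) (mem_univ _) b5
      rw [b6] at h
      linarith

theorem neck_bounds {p : R4} (hp : p ∈ neck) : rsq 0 p ≤ 81 / 4 := by
  obtain ⟨-, h1, h2, h3⟩ := hp
  rw [rsq_eq, h3]
  simp only [Complex.zero_re, Complex.zero_im]
  nlinarith

theorem cl_AA (hRC : StRC) {lam : ℝ} (hl : lam ∈ Ioc (0 : ℝ) 1) {p : R4} (hp : p ∈ SP) :
    cl lam p ∈ AA := by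
  obtain ⟨-, -, h⟩ := hRC
  obtain ⟨-, h1, h2, h3, h4, h5, h6, -⟩ := h lam hl
  rcases hp with (hp | hp) | hp
  · have e0 : (cl lam p).1 = 1 / 2 := (h1 p).trans hp.1
    have e1 : nsq p.2 = 1 / 25 := by rw [← rsq_zero_eq]; exact hp.2
    have e2 : rsq 0 (cl lam p) ≤ 1 / 25 := by
      rw [rsq_zero_eq, ← e1]; exact h5 p
    refine ⟨e0, ball4_of e0 (e2.trans (by norm_num)), Or.inr (Or.inr ⟨?_, e2⟩)⟩
    rw [h2 p (by rw [e1]; norm_num), rsq_zero_eq, nsq_eq]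
    rw [nsq_eq] at e1
    have : (lam • p.2).1 ^ 2 + (lam • p.2).2.re ^ 2 + (lam • p.2).2.im ^ 2 =
        lam ^ 2 * (p.2.1 ^ 2 + p.2.2.re ^ 2 + p.2.2.im ^ 2) := by
      simp
      ring
    rw [this, e1]
    have := hl.1
    positivity
  · have e1 := sph_one_bounds hp
    have e2 : cl lam p = p := h3 p (by rw [← rsq_zero_eq]; linarith [e1.2.1])
    rw [e2]
    exact ⟨hp.1, ball4_of hp.1 e1.2.2, Or.inl hp⟩
  · have e0 : (cl lam p).1 = 1 / 2 := (h1 p).trans hp.1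
    have e1 := h6 p hp
    have e2 : rsq 0 (cl lam p) ≤ 81 / 4 := by
      have := h5 p
      rw [← rsq_zero_eq, ← rsq_zero_eq] at this
      exact this.trans (neck_bounds hp)
    exact ⟨e0, ball4_of e0 e2, Or.inr (Or.inl ⟨h4 p hp.2.2.2, e1.1, e1.2⟩)⟩

theorem Em_SH (hRE : StRE) {δ η : ℝ} (hδ : δ ∈ Ioo (0 : ℝ) (1 / 100)) (h3 : 3 * δ ≤ η) {q : R4}
    (hq : q ∈ AA) : Em δ q ∈ SH η := by
  obtain ⟨-, r2, r3, -, -, r6, r7, r8, -⟩ := hRE δ hδ
  have hpos := AA_pos hq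
  have e1 := r6 q hpos.1 hpos.2
  refine ⟨?_, by linarith [e1.1], by linarith [e1.2]⟩
  have e0 : (Em δ q).1 = 1 / 2 := (r3 q).trans hq.1
  obtain ⟨h0, -, h | ⟨k1, k2, k3⟩ | ⟨-, k2⟩⟩ := hq
  · exact Or.inl (Or.inr ⟨e0, r8 q hpos.2 (le_of_eq h.2)⟩)
  · rcases le_or_gt q.2.1 (1 / 5) with h | h
    · refine Or.inl (Or.inl ⟨e0, (r7 q hpos.1 ?_).2⟩)
      rw [rsq_eq, k1]
      simp only [Complex.zero_re, Complex.zero_im]
      nlinarith
    · have e2 : Em δ q = q := by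
        refine r2 q ?_ ?_
        · rw [rsq_eq, k1]
          simp only [Complex.zero_re, Complex.zero_im]
          nlinarith [hδ.1]
        · rw [rsq_eq, k1]
          simp only [Complex.zero_re, Complex.zero_im]
          nlinarith [hδ.1]
      rw [e2]
      exact Or.inr ⟨h0, h.le, k3, k1⟩
  · exact Or.inl (Or.inl ⟨e0, (r7 q hpos.1 k2).2⟩)

/-! ## the families -/

theorem emb_fam (hRE : StRE) (hRC : StRC) {δ : ℝ} (hδ : δ ∈ Ioo (0 : ℝ) (1 / 100))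
    {k : R4 → R4} {ρ : ℝ} (hk : KK k ρ) (hρ : 0 ≤ ρ) {lam : ℝ} (hl : lam ∈ Ioc (0 : ℝ) 1) :
    EmbOn 𝓘(ℝ, R4) (fun p => Em δ (k (cl lam p))) SP := by
  have h1 : EmbOn 𝓘(ℝ, R4) (cl lam) SP := by
    have := (hRC.2.2 lam hl).1
    exact ⟨fun p _ => this.1 p (mem_univ _), this.2.mono (subset_univ _)⟩
  have h2 : EmbOn 𝓘(ℝ, R4) (fun p => k (cl lam p)) SP :=
    embOn_comp hk.emb h1 (fun p _ => mem_univ _)
  exact embOn_comp (hRE δ hδ).1 h2 (fun p hp => AA_pos (k_AA hk hρ (cl_AA hRC hl hp)))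

theorem smooth_fam (hRE : StRE) (hRC : StRC) {δ : ℝ} (hδ : δ ∈ Ioo (0 : ℝ) (1 / 100))
    {k : R4 → R4} {ρ : ℝ} (hk : KK k ρ) (hρ : 0 ≤ ρ) {ℓ : ℝ → ℝ} (hℓ : ContDiff ℝ ∞ ℓ) {t : ℝ}
    (ht : ℓ t ∈ Ioc (0 : ℝ) 1) {p : R4} (hp : p ∈ SP) :
    ∀ᶠ q in 𝓝 (t, p), ContDiffAt ℝ ∞ (fun q : ℝ × R4 => Em δ (k (cl (ℓ q.1) q.2))) q := by
  have hk1 : ContDiff ℝ ∞ k := contDiff_iff_contDiffAt.2 fun q =>
    contDiffAt_of_emb hk.emb (mem_univ q)
  have h1 : ContDiff ℝ ∞ (fun q : ℝ × R4 => cl (ℓ q.1) q.2) :=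
    hRC.1.comp ((hℓ.comp contDiff_fst).prodMk contDiff_snd)
  have h2 : ContDiff ℝ ∞ (fun q : ℝ × R4 => k (cl (ℓ q.1) q.2)) := hk1.comp h1
  have h3 : ∀ᶠ q in 𝓝 (t, p), k (cl (ℓ q.1) q.2) ∈ {p : R4 | 0 < rsq 0 p ∧ 0 < rsq 1 p} :=
    h2.continuous.continuousAt (isOpen_G.mem_nhds (AA_pos (k_AA hk hρ (cl_AA hRC ht hp))))
  filter_upwards [h3] with q hq
  have h4 : ContDiffAt ℝ ∞ (Em δ) (k (cl (ℓ q.1) q.2)) := contDiffAt_of_emb (hRE δ hδ).1 hq
  exact ContDiffAt.comp (g := Em δ) (f := fun q : ℝ × R4 => k (cl (ℓ q.1) q.2)) q h4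
    h2.contDiffAt

/-- a point of the deeper side is not in the spine with collars -/
theorem not_mem_SH {η r : ℝ} {x : R4} (h1 : rsq 0 x = 1 / 25 + r) (h2 : 0 < r)
    (h3 : r ≤ 1 / 100) (h4 : x.2.2.re ≠ 0) : x ∉ SH η := by
  rintro ⟨(h | h) | h, -⟩
  · have := h.2
    linarith
  · have h5 := h.2
    rw [rsq_eq] at h5 h1
    have a1 := sq_nonneg x.2.2.re
    have a2 := sq_nonneg x.2.2.im
    nlinarith
  · apply h4
    rw [h.2.2.2]
    rfl

/-- one step of the deformation -/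
theorem thin_step (hRE : StRE) (hRC : StRC) (hT2 : StT2) {J : ℝ × R4 → R4} {X : ℝ → R4}
    {η δ : ℝ} (hJ : Cross J X η) (hδ : δ ∈ Ioo (0 : ℝ) (1 / 100)) (h3 : 3 * δ ≤ η)
    {k : R4 → R4} {ρ : ℝ} (hk : KK k ρ) (hρ : 0 ≤ ρ) {T ℓ : ℝ → ℝ} (hT : ContDiff ℝ ∞ T)
    (hT1 : ∀ t ∈ Icc (0 : ℝ) 1, T t ∈ Icc (-η) η) (hℓ : ContDiff ℝ ∞ ℓ)
    (hℓ1 : ∀ t ∈ Icc (0 : ℝ) 1, ℓ t ∈ Ioc (0 : ℝ) 1)
    (hne : ∀ t ∈ Icc (0 : ℝ) 1, ∀ p ∈ SP, Em δ (k (cl (ℓ t) p)) ≠ X (T t)) {ψ : R4 → R4}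
    (h : Thin 𝓘(ℝ, R4) (fun p => J (T 0, Em δ (k (cl (ℓ 0) p)))) ψ) :
    Thin 𝓘(ℝ, R4) (fun p => J (T 1, Em δ (k (cl (ℓ 1) p)))) ψ := by
  obtain ⟨-, -, hT3, -⟩ := hT2 R4 R4 𝓘(ℝ, R4) R4
  have hfam : FamOn 𝓘(ℝ, R4) (fun q : ℝ × R4 => J (T q.1, Em δ (k (cl (ℓ q.1) q.2)))) SP := by
    refine famOn_of (T := T) (m := fun q : ℝ × R4 => Em δ (k (cl (ℓ q.1) q.2))) hJ hT hT1 ?_ ?_ ?_
    · intro t ht p hp
      exact smooth_fam hRE hRC hδ hk hρ hℓ (hℓ1 t ht) hp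
    · intro t ht
      exact emb_fam hRE hRC hδ hk hρ (hℓ1 t ht)
    · intro t ht p hp
      exact ⟨Em_SH hRE hδ h3 (k_AA hk hρ (cl_AA hRC (hℓ1 t ht) hp)), hne t ht p hp⟩
  exact hT3 (fun q : ℝ × R4 => J (T q.1, Em δ (k (cl (ℓ q.1) q.2)))) ψ hfam h

theorem lin_mem {a b t : ℝ} (ha : a ∈ Ioc (0 : ℝ) 1) (hb : b ∈ Ioc (0 : ℝ) 1)
    (ht : t ∈ Icc (0 : ℝ) 1) : a + t * (b - a) ∈ Ioc (0 : ℝ) 1 := by
  obtain ⟨a1, a2⟩ := ha
  obtain ⟨b1, b2⟩ := hb
  obtain ⟨t1, t2⟩ := ht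
  constructor
  · rcases t2.lt_or_eq with h | h
    · nlinarith
    · subst h; linarith
  · nlinarith

theorem contDiff_lin (a b : ℝ) : ContDiff ℝ ∞ (fun t : ℝ => a + t * (b - a)) :=
  contDiff_const.add (contDiff_id.mul contDiff_const)

/-- near the spine the diffeomorphism `k` may be omitted after the contraction -/
theorem step2 (hRC : StRC) (hT2 : StT2) {k : R4 → R4} {ρ : ℝ} (hk : KK k ρ) (hρ : 0 < ρ)
    {lam : ℝ} (hl : lam ∈ Ioc (0 : ℝ) 1) (hl2 : lam ≤ ρ) (G : R4 → R4) {ψ : R4 → R4}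
    (h : Thin 𝓘(ℝ, R4) (fun p => G (k (cl lam p))) ψ) :
    Thin 𝓘(ℝ, R4) (fun p => G (cl lam p)) ψ := by
  obtain ⟨-, -, -, -, hT5, -⟩ := hT2 R4 R4 𝓘(ℝ, R4) R4
  have hclc : Continuous (cl lam) := by
    have : ContDiff ℝ ∞ (fun p : R4 => cl lam p) := hRC.1.comp (contDiff_const.prodMk contDiff_id)
    exact this.continuous
  obtain ⟨-, -, c3, c4, c5, -, -, -⟩ := hRC.2.2 lam hl
  refine hT5 (fun p => G (k (cl lam p))) (fun p => G (cl lam p))
    {p | 17 / 100 < (cl lam p).2.1 ∨ ‖(cl lam p).2.2‖ < ρ} ψ ?_ ?_ ?_ h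
  · exact (isOpen_lt continuous_const (continuous_fst.comp (continuous_snd.comp hclc))).union
      (isOpen_lt (continuous_norm.comp (continuous_snd.comp (continuous_snd.comp hclc)))
        continuous_const)
  · intro p hp
    rcases hp with (hp | hp) | hp
    · right
      have e1 : nsq p.2 = 1 / 25 := by rw [← rsq_zero_eq]; exact hp.2
      have e4 := c3 p (by rw [e1]; norm_num)
      have e5 : (cl lam p).2.2 = lam • p.2.2 := by rw [e4]; rfl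
      show ‖(cl lam p).2.2‖ < ρ
      have e2 : ‖p.2.2‖ ≤ 1 / 5 := by
        rw [nsq_eq] at e1
        have e3 : ‖p.2.2‖ ^ 2 ≤ 1 / 25 := by
          rw [← Complex.normSq_eq_norm_sq, Complex.normSq_apply]
          nlinarith [sq_nonneg p.2.1]
        nlinarith [norm_nonneg p.2.2]
      rw [e5, norm_smul, Real.norm_of_nonneg hl.1.le]
      nlinarith [norm_nonneg p.2.2, hl.1]
    · left
      have e1 := sph_one_bounds hp
      have e2 : cl lam p = p := c4 p (by rw [← rsq_zero_eq]; linarith [e1.2.1])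
      show 17 / 100 < (cl lam p).2.1
      rw [e2]
      linarith
    · right
      show ‖(cl lam p).2.2‖ < ρ
      rw [c5 p hp.2.2.2, norm_zero]
      exact hρ
  · intro p hp
    have : k (cl lam p) = cl lam p := by
      rcases hp with hp | hp
      · exact hk.far _ (le_of_lt hp)
      · exact hk.axis _ (le_of_lt hp)
    show G (k (cl lam p)) = G (cl lam p)
    rw [this]

/-- near the spine `Em δ` is the identity -/
theorem step5 (hRE : StRE) (hT2 : StT2) {δ : ℝ} (hδ : δ ∈ Ioo (0 : ℝ) (1 / 100)) (G : R4 → R4)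
    {ψ : R4 → R4} (h : Thin 𝓘(ℝ, R4) (fun p => G (Em δ p)) ψ) : Thin 𝓘(ℝ, R4) G ψ := by
  obtain ⟨-, -, -, -, hT5, -⟩ := hT2 R4 R4 𝓘(ℝ, R4) R4
  obtain ⟨-, rE2, -⟩ := hRE δ hδ
  have hd := hδ.1
  refine hT5 (fun p => G (Em δ p)) G {p | 1 / 25 - δ < rsq 0 p ∧ 1 / 25 - δ < rsq 1 p} ψ
    ?_ ?_ ?_ h
  · exact (isOpen_lt continuous_const (continuous_rsq 0)).inter
      (isOpen_lt continuous_const (continuous_rsq 1))
  · intro p hp
    rcases hp with (hp | hp) | hp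
    · refine ⟨by rw [hp.2]; linarith, ?_⟩
      have := small_bounds (le_of_eq hp.2)
      linarith
    · refine ⟨?_, by rw [hp.2]; linarith⟩
      have := (sph_one_bounds hp).2.1
      linarith
    · obtain ⟨-, h1, h2, h3⟩ := hp
      refine ⟨?_, ?_⟩
      · rw [rsq_eq, h3]
        simp only [Complex.zero_re, Complex.zero_im]
        nlinarith
      · rw [rsq_eq, h3]
        simp only [Complex.zero_re, Complex.zero_im]
        nlinarith
  · intro p hp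
    show G (Em δ p) = G p
    rw [rE2 p hp.1.le hp.2.le]

/-- step (3): the germs do not meet the strand -/
theorem ne3 (hRE : StRE) (hRC : StRC) {J : ℝ × R4 → R4} {X : ℝ → R4} {η δ : ℝ}
    (hJ : Cross J X η) (hδ : δ ∈ Ioo (0 : ℝ) (1 / 100)) {lam r : ℝ} (hl : lam ∈ Ioc (0 : ℝ) 1)
    (hl1 : lam ≤ 1 / 4) (hr : r ∈ Icc (-η) η) (hr2 : qe δ (1 / 100) ≤ 1 / 25 + r) {p : R4}
    (hp : p ∈ SP) : Em δ (cl lam p) ≠ X r := by
  obtain ⟨-, rE2, -, -, rE5, -, rE7, -, rE9, -⟩ := hRE δ hδ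
  obtain ⟨-, -, c3, c4, c5, -, -, -⟩ := hRC.2.2 lam hl
  have hc : cl lam p ∈ AA := cl_AA hRC hl hp
  have hXl := hJ.lvl r hr
  have hl0 := hl.1
  intro h
  rcases hp with (hp | hp) | hp
  · have e1 : nsq p.2 = 1 / 25 := by rw [← rsq_zero_eq]; exact hp.2
    have e2 : rsq 0 (cl lam p) = lam ^ 2 * (1 / 25) := by
      rw [c3 p (by rw [e1]; norm_num), rsq_zero_eq, nsq_eq, ← e1, nsq_eq]
      simp
      ring
    have e3 := (rE7 (cl lam p) (AA_pos hc).1 (by rw [e2]; nlinarith)).1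
    have e4 : qe δ (rsq 0 (cl lam p)) < qe δ (1 / 100) := by
      apply rE9
      rw [e2]; nlinarith
    rw [← h, e3] at hXl
    linarith
  · have e1 := sph_one_bounds hp
    have e2 : cl lam p = p := c4 p (by rw [← rsq_zero_eq]; linarith [e1.2.1])
    have e3 : Em δ p = p := by
      refine rE2 p ?_ ?_
      · linarith [e1.2.1, hδ.1]
      · rw [hp.2]; linarith [hδ.1]
    rw [e2, e3] at h
    rw [← h] at hXl
    have := hr.2
    have := hJ.small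
    linarith [e1.2.1]
  · have e1 : (Em δ (cl lam p)).2.2 = 0 := rE5 _ (c5 p hp.2.2.2)
    apply hJ.re r hr
    rw [← h, e1]
    rfl

end D2b

open D2b

theorem m_D2b (hRE : StRE) (hRC : StRC) (hT2 : StT2) : StD2b := by
  intro J X δ η r₁ hJ hδ hδη hr₁ hr0 hr1 x₂ r k hr hx2 hxre hEx hk hkf hkfar hkball hkaxis hkt
    ψ hψ
  obtain ⟨rE1, -⟩ := hRE δ hδ
  obtain ⟨ρ, hρd⟩ : ∃ ρ : ℝ, ρ = |x₂.2.re| / 2 := ⟨_, rfl⟩
  have hρ : 0 < ρ := by
    have := abs_pos.2 hxre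
    rw [hρd]; positivity
  rw [← hρd] at hkaxis
  have hK : D2b.KK k ρ := ⟨hk, hkf, hkfar, hkball, hkaxis⟩
  obtain ⟨lam₀, hl0, hl1, hl2⟩ : ∃ lam₀ : ℝ, 0 < lam₀ ∧ lam₀ ≤ 1 / 4 ∧ lam₀ ≤ ρ :=
    ⟨min (1 / 4) ρ, lt_min (by norm_num) hρ, min_le_left _ _, min_le_right _ _⟩
  have hl01 : lam₀ ∈ Ioc (0 : ℝ) 1 := ⟨hl0, by linarith⟩
  have h11 : (1 : ℝ) ∈ Ioc (0 : ℝ) 1 := ⟨one_pos, le_rfl⟩
  have hη1 : η ≤ 1 / 100 := hJ.small
  have hηp : 0 < η := hJ.pos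
  have hmr₁ : -r₁ ∈ Icc (-η) η := ⟨by linarith, by linarith⟩
  have hpr₁ : r₁ ∈ Icc (-η) η := ⟨by linarith, hr1⟩
  -- the point over x₂
  have hx2pos : ((1 / 2, x₂) : R4) ∈ {p : R4 | 0 < rsq 0 p ∧ 0 < rsq 1 p} := by
    have h1 : rsq 0 ((1 / 2, x₂) : R4) = 1 / 100 := by rw [D2b.rsq_zero_eq]; exact hx2
    refine ⟨by rw [h1]; norm_num, ?_⟩
    have := small_bounds (q := ((1 / 2, x₂) : R4)) (by rw [h1]; norm_num)
    linarith
  -- step 1
  have s1 : Thin 𝓘(ℝ, R4) (fun p => J (-r₁, Em δ (k (cl lam₀ p)))) ψ := by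
    have h0 : Thin 𝓘(ℝ, R4) (fun p => J (-r₁, Em δ (k (cl (1 + 0 * (lam₀ - 1)) p)))) ψ := by
      have e : (fun p : R4 => J (-r₁, Em δ (k (cl (1 + 0 * (lam₀ - 1)) p)))) =
          fun p => J (-r₁, Em δ (k p)) := by
        funext p
        rw [zero_mul, add_zero, hRC.2.1 p]
      rw [e]; exact hψ
    have h1 := thin_step hRE hRC hT2 hJ hδ hδη hK hρ.le (T := fun _ => -r₁)
      (ℓ := fun t => 1 + t * (lam₀ - 1)) contDiff_const (fun t _ => hmr₁) (contDiff_lin 1 lam₀)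
      (fun t ht => lin_mem h11 hl01 ht) (by
        intro t ht p hp h
        have hc : cl (1 + t * (lam₀ - 1)) p ∈ AA := cl_AA hRC (lin_mem h11 hl01 ht) hp
        have hkc := k_AA hK hρ.le hc
        have h1 : Em δ (k (cl (1 + t * (lam₀ - 1)) p)) = Em δ (1 / 2, x₂) := h.trans hEx.symm
        have h2 := rE1.2 (AA_pos hkc) hx2pos h1
        apply hkt _ hc.2.1
        rw [h2]
        show nsq (x₂ - x₂) < r ^ 2
        rw [sub_self, nsq_eq]
        have : 0 < r ^ 2 := by positivity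
        simpa using this) h0
    have e : (1 : ℝ) + 1 * (lam₀ - 1) = lam₀ := by ring
    simp only [e] at h1
    exact h1
  -- step 2
  have s2 : Thin 𝓘(ℝ, R4) (fun p => J (-r₁, Em δ (cl lam₀ p))) ψ :=
    step2 hRC hT2 hK hρ hl01 hl2 (fun q => J (-r₁, Em δ q)) s1
  -- step 3
  have hI := KK_id ρ
  have s3 : Thin 𝓘(ℝ, R4) (fun p => J (r₁, Em δ (cl lam₀ p))) ψ := by
    have hTm : ∀ t ∈ Icc (0 : ℝ) 1, -r₁ + 2 * r₁ * t ∈ Icc (-η) η := by
      intro t ht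
      obtain ⟨t1, t2⟩ := ht
      constructor <;> nlinarith
    have h0 : Thin 𝓘(ℝ, R4) (fun p => J (-r₁ + 2 * r₁ * 0, Em δ (cl lam₀ p))) ψ := by
      rw [mul_zero, add_zero]; exact s2
    have h1 := thin_step hRE hRC hT2 hJ hδ hδη hI hρ.le (T := fun t => -r₁ + 2 * r₁ * t)
      (ℓ := fun _ => lam₀) (contDiff_const.add (contDiff_const.mul contDiff_id)) hTm
      contDiff_const (fun _ _ => hl01) (by
        intro t ht p hp
        refine ne3 hRE hRC hJ hδ hl01 hl1 (hTm t ht) ?_ hp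
        have : 0 ≤ 2 * r₁ * t := by have := ht.1; positivity
        linarith) h0
    have e : -r₁ + 2 * r₁ * 1 = r₁ := by ring
    simp only [e] at h1
    exact h1
  -- step 4
  have s4 : Thin 𝓘(ℝ, R4) (fun p => J (r₁, Em δ p)) ψ := by
    have hX1 : X r₁ ∉ SH η :=
      not_mem_SH (hJ.lvl r₁ hpr₁) hr0 (hr1.trans hη1) (hJ.re r₁ hpr₁)
    have h0 : Thin 𝓘(ℝ, R4) (fun p => J (r₁, Em δ (cl (lam₀ + 0 * (1 - lam₀)) p))) ψ := by
      rw [zero_mul, add_zero]; exact s3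
    have h1 := thin_step hRE hRC hT2 hJ hδ hδη hI hρ.le (T := fun _ => r₁)
      (ℓ := fun t => lam₀ + t * (1 - lam₀)) contDiff_const (fun t _ => hpr₁)
      (contDiff_lin lam₀ 1) (fun t ht => lin_mem hl01 h11 ht) (by
        intro t ht p hp h
        apply hX1
        rw [← h]
        exact Em_SH hRE hδ hδη (cl_AA hRC (lin_mem hl01 h11 ht) hp)) h0
    have e : lam₀ + 1 * (1 - lam₀) = 1 := by ring
    simp only [e, hRC.2.1] at h1
    exact h1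
  -- step 5
  exact step5 hRE hT2 hδ (fun q => J (r₁, q)) s4

end Pool.Agent.Helper34.BI


end
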