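import Pool.Agent.Helper65.Barb.Defs
import Pool.Agent.Helper70.BI.C.P11
import Pool.Agent.Helper70.BI.C.P16

/-!
# Project BI (MP_8e98f2_gt): collected modules, part 55

The contents of the modules
* Helper70.BI.M_SM
* Helper70.BI.M_LOC
* Helper70.BI.H.StN
* Helper70.BI.H.M_NCT
* Helper70.BI.H.M_SLD
* Helper70.BI.H.M_CEN
* Helper70.BI.H.M_GLL
* Helper70.BI.H.M_LOCL
* Helper70.BI.H.M_SML

in one file, so that the whole proof builds in a short time.
-/

namespace Pool.Agent.Helper18.BI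
end Pool.Agent.Helper18.BI

namespace Pool.Agent.Helper27.H
end Pool.Agent.Helper27.H

namespace Pool.Agent.Helper34.BI
end Pool.Agent.Helper34.BI

namespace Pool.Agent.Helper65.Barb
end Pool.Agent.Helper65.Barb

namespace Pool.Agent.Helper70.BI
end Pool.Agent.Helper70.BI


/-! ## Helper70.BI.M_SM -/

section

/-!
# Project BI, part (E): germs close to the identity are realized by isotopies
-/

set_option autoImplicit false

open scoped Manifold ContDiff Topology ComplexConjugate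
open Set Filter Pool.Agent.Helper65.Barb Pool.Agent.Helper18.BI

namespace Pool.Agent.Helper70.BI

namespace SM

variable {E : Type} [NormedAddCommGroup E] [NormedSpace ℝ E]

private theorem smooth_aux (b : E → ℝ) (hb : ContDiff ℝ ∞ b) (hb0 : ∀ x, 2 ≤ ‖x‖ → b x = 0)
    (h : E → E) (y₀ : E) (r : ℝ) (hr : 0 < r)
    (hh : ∀ y, ‖y - y₀‖ < 3 * r → ContDiffAt ℝ ∞ h y) :
    ContDiff ℝ ∞ (fun y => b (r⁻¹ • (y - y₀)) • h y) := by
  rw [contDiff_iff_contDiffAt]
  intro y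
  by_cases hy : ‖y - y₀‖ < 3 * r
  · refine ContDiffAt.smul ?_ (hh y hy)
    exact (hb.comp (contDiff_const.smul (contDiff_id.sub contDiff_const))).contDiffAt
  · have h1 : ∀ᶠ z in 𝓝 y, 2 * r < ‖z - y₀‖ := by
      have hc : Continuous fun z : E => ‖z - y₀‖ := by fun_prop
      exact hc.continuousAt.eventually (lt_mem_nhds (by linarith [not_lt.1 hy]))
    have h2 : (fun y => b (r⁻¹ • (y - y₀)) • h y) =ᶠ[𝓝 y] fun _ => (0 : E) := by
      filter_upwards [h1] with z hz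
      rw [hb0, zero_smul]
      rw [norm_smul, norm_inv, Real.norm_of_nonneg hr.le, ← div_eq_inv_mul, le_div_iff₀ hr]
      exact hz.le
    exact contDiffAt_const.congr_of_eventuallyEq h2

private theorem lip_aux (b : E → ℝ) (K c : ℝ) (hK : 0 ≤ K) (hc : 0 ≤ c)
    (hb : ∀ x y, ‖b x - b y‖ ≤ K * ‖x - y‖) (hb1 : ∀ x, ‖b x‖ ≤ 1)
    (hb0 : ∀ x, 2 ≤ ‖x‖ → b x = 0)
    (h : E → E) (y₀ : E) (r : ℝ) (hr : 0 < r) (h0 : h y₀ = 0)
    (hh : ∀ x y, ‖x - y₀‖ ≤ 2 * r → ‖y - y₀‖ ≤ 2 * r → ‖h x - h y‖ ≤ c * ‖x - y‖) (x y : E) :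
    ‖b (r⁻¹ • (x - y₀)) • h x - b (r⁻¹ • (y - y₀)) • h y‖ ≤ c * (1 + 2 * K) * ‖x - y‖ := by
  have hout : ∀ z : E, 2 * r < ‖z - y₀‖ → b (r⁻¹ • (z - y₀)) = 0 := by
    intro z hz
    apply hb0
    rw [norm_smul, norm_inv, Real.norm_of_nonneg hr.le, ← div_eq_inv_mul, le_div_iff₀ hr]
    exact hz.le
  have hbd : ∀ z : E, ‖z - y₀‖ ≤ 2 * r → ‖h z‖ ≤ c * (2 * r) := by
    intro z hz
    have := hh z y₀ hz (by rw [sub_self, norm_zero]; positivity)
    rw [h0, sub_zero] at this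
    exact this.trans (by gcongr)
  have hbl : ∀ z w : E, ‖b (r⁻¹ • (z - y₀)) - b (r⁻¹ • (w - y₀))‖ ≤ K * (r⁻¹ * ‖z - w‖) := by
    intro z w
    refine (hb _ _).trans (le_of_eq ?_)
    rw [← smul_sub, norm_smul, norm_inv, Real.norm_of_nonneg hr.le]
    congr 3
    abel
  have hone : ∀ z w : E, ‖z - y₀‖ ≤ 2 * r →
      ‖(b (r⁻¹ • (z - y₀)) - b (r⁻¹ • (w - y₀))) • h z‖ ≤ c * (2 * K) * ‖z - w‖ := by
    intro z w hz
    rw [norm_smul]
    calc _ ≤ (K * (r⁻¹ * ‖z - w‖)) * (c * (2 * r)) := by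
          gcongr
          · exact hbl z w
          · exact hbd z hz
      _ = c * (2 * K) * ‖z - w‖ := by field_simp
  have key : ∀ x y : E, ‖x - y₀‖ ≤ 2 * r →
      ‖b (r⁻¹ • (x - y₀)) • h x - b (r⁻¹ • (y - y₀)) • h y‖ ≤ c * (1 + 2 * K) * ‖x - y‖ := by
    intro x y hx
    by_cases hy : ‖y - y₀‖ ≤ 2 * r
    · have e : b (r⁻¹ • (x - y₀)) • h x - b (r⁻¹ • (y - y₀)) • h y =
          (b (r⁻¹ • (x - y₀)) - b (r⁻¹ • (y - y₀))) • h x +
            b (r⁻¹ • (y - y₀)) • (h x - h y) := by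
        have e' : ∀ (s t : ℝ) (u v : E), s • u - t • v = (s - t) • u + t • (u - v) := by
          intro s t u v
          rw [sub_smul, smul_sub]; abel
        exact e' _ _ _ _
      rw [e]
      refine (norm_add_le _ _).trans ?_
      have h1 := hone x y hx
      have h2 : ‖b (r⁻¹ • (y - y₀)) • (h x - h y)‖ ≤ 1 * (c * ‖x - y‖) := by
        rw [norm_smul]
        gcongr
        · exact hb1 _
        · exact hh x y hx hy
      calc _ ≤ c * (2 * K) * ‖x - y‖ + 1 * (c * ‖x - y‖) := add_le_add h1 h2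
        _ = c * (1 + 2 * K) * ‖x - y‖ := by ring
    · have e : b (r⁻¹ • (x - y₀)) • h x - b (r⁻¹ • (y - y₀)) • h y =
          (b (r⁻¹ • (x - y₀)) - b (r⁻¹ • (y - y₀))) • h x := by
        rw [hout y (not_le.1 hy), zero_smul, sub_zero, sub_zero]
      rw [e]
      refine (hone x y hx).trans ?_
      have : 0 ≤ c * ‖x - y‖ := by positivity
      nlinarith
  by_cases hx : ‖x - y₀‖ ≤ 2 * r
  · exact key x y hx
  by_cases hy : ‖y - y₀‖ ≤ 2 * r
  · rw [norm_sub_rev, norm_sub_rev x y]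
    exact key y x hy
  · rw [hout x (not_le.1 hx), hout y (not_le.1 hy), zero_smul, zero_smul, sub_zero, norm_zero]
    positivity

end SM

open SM in
theorem m_SM (hPT : StPT) : StSM := by
  intro E _ _ _
  have : ProperSpace E := FiniteDimensional.proper_real E
  let B : ContDiffBump (0 : E) := ⟨1, 2, one_pos, one_lt_two⟩
  have hBs : ContDiff ℝ ∞ (B : E → ℝ) := B.contDiff
  obtain ⟨K₀, hK₀⟩ := (B.hasCompactSupport.fderiv ℝ).exists_bound_of_continuous
    (hBs.continuous_fderiv (by simp))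
  set K : ℝ := max K₀ 0 with hKdef
  have hK : 0 ≤ K := le_max_right _ _
  have hBl : ∀ x y, ‖B x - B y‖ ≤ K * ‖x - y‖ := by
    intro x y
    exact Convex.norm_image_sub_le_of_norm_fderiv_le (s := univ)
      (fun z _ => hBs.differentiable (by simp) z)
      (fun z _ => (hK₀ z).trans (le_max_left _ _)) convex_univ (mem_univ _) (mem_univ _)
  have hB1 : ∀ x, ‖B x‖ ≤ 1 := fun x => by
    rw [Real.norm_of_nonneg B.nonneg]; exact B.le_one
  have hB0 : ∀ x, 2 ≤ ‖x‖ → B x = 0 := fun x hx =>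
    B.zero_of_le_dist (by rw [dist_zero_right]; exact hx)
  refine ⟨1 / (2 * (1 + 2 * K)), by positivity, ?_⟩
  set c : ℝ := 1 / (2 * (1 + 2 * K)) with hc
  have hc0 : 0 < c := by positivity
  have hcK : c * (1 + 2 * K) = 1 / 2 := by rw [hc]; field_simp
  intro U y₀ f hU hy₀ hf hfix hd
  have hf0 : ContDiffAt ℝ ∞ f y₀ := hf.self_of_nhds
  have hcont : ContinuousAt (fun y => ‖fderiv ℝ f y - ContinuousLinearMap.id ℝ E‖) y₀ := by
    have h1 : ContDiffAt ℝ ∞ (fderiv ℝ f) y₀ := hf0.fderiv_right (by simp)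
    exact (h1.continuousAt.sub continuousAt_const).norm
  have hev : ∀ᶠ y in 𝓝 y₀, ContDiffAt ℝ ∞ f y ∧
      ‖fderiv ℝ f y - ContinuousLinearMap.id ℝ E‖ < c ∧ y ∈ U :=
    hf.and ((hcont.eventually (gt_mem_nhds hd)).and (hU.mem_nhds hy₀))
  obtain ⟨ε, hε, hball⟩ := Metric.eventually_nhds_iff.1 hev
  set r : ℝ := ε / 4 with hr
  have hr0 : 0 < r := by positivity
  have hb3 : ∀ y, ‖y - y₀‖ < 3 * r → ContDiffAt ℝ ∞ f y ∧
      ‖fderiv ℝ f y - ContinuousLinearMap.id ℝ E‖ < c ∧ y ∈ U := by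
    intro y hy
    apply hball
    rw [dist_eq_norm]
    linarith
  set h : E → E := fun y => f y - y with hh
  have hhs : ∀ y, ‖y - y₀‖ < 3 * r → ContDiffAt ℝ ∞ h y := fun y hy =>
    (hb3 y hy).1.sub contDiffAt_id
  have hhl : ∀ x y, ‖x - y₀‖ ≤ 2 * r → ‖y - y₀‖ ≤ 2 * r → ‖h x - h y‖ ≤ c * ‖x - y‖ := by
    intro x y hx hy
    have hfd : ∀ z ∈ Metric.ball y₀ (3 * r), HasFDerivWithinAt h
        (fderiv ℝ f z - ContinuousLinearMap.id ℝ E) (Metric.ball y₀ (3 * r)) z := by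
      intro z hz
      rw [Metric.mem_ball, dist_eq_norm] at hz
      exact (((hb3 z hz).1.differentiableAt (by simp)).hasFDerivAt.sub
        (hasFDerivAt_id z)).hasFDerivWithinAt
    refine Convex.norm_image_sub_le_of_norm_hasFDerivWithin_le hfd ?_ (convex_ball _ _) ?_ ?_
    · intro z hz
      rw [Metric.mem_ball, dist_eq_norm] at hz
      exact (hb3 z hz).2.1.le
    · rw [Metric.mem_ball, dist_eq_norm]; linarith
    · rw [Metric.mem_ball, dist_eq_norm]; linarith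
  have hsm := smooth_aux (fun x => B x) hBs hB0 h y₀ r hr0 hhs
  obtain ⟨F, hF⟩ := hPT E (fun q : ℝ × E => step q.1 • (B (r⁻¹ • (q.2 - y₀)) • h q.2))
    ((Real.smoothTransition.contDiff.comp contDiff_fst).smul (hsm.comp contDiff_snd)) (by
      intro t x y
      have h1 := lip_aux (fun x => B x) K c hK hc0.le hBl hB1 hB0 h y₀ r hr0
        (by simp [hh, hfix]) hhl x y
      rw [hcK] at h1
      have h2 : ‖step t‖ ≤ 1 := by
        rw [step, Real.norm_of_nonneg (Real.smoothTransition.nonneg t)]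
        exact Real.smoothTransition.le_one t
      simp only
      rw [← smul_sub, norm_smul]
      calc _ ≤ 1 * (1 / 2 * ‖x - y‖) := by gcongr
        _ = _ := one_mul _)
  refine ⟨F, fun y => ?_, ⟨Metric.closedBall y₀ (2 * r), isCompact_closedBall _ _, ?_, ?_⟩, ?_⟩
  · rw [hF]
    simp [step, Real.smoothTransition.zero]
  · intro y hy
    rw [Metric.mem_closedBall, dist_eq_norm] at hy
    exact (hb3 y (by linarith)).2.2
  · intro t y hy
    rw [Metric.mem_closedBall, dist_eq_norm, not_le] at hy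
    have h0 : B (r⁻¹ • (y - y₀)) = 0 := by
      apply hB0
      rw [norm_smul, norm_inv, Real.norm_of_nonneg hr0.le, ← div_eq_inv_mul, le_div_iff₀ hr0]
      exact hy.le
    rw [hF]
    simp only
    rw [h0, zero_smul, smul_zero, add_zero]
  · filter_upwards [Metric.ball_mem_nhds y₀ hr0] with y hy
    rw [Metric.mem_ball, dist_eq_norm] at hy
    have h1 : B (r⁻¹ • (y - y₀)) = 1 := by
      apply B.one_of_mem_closedBall
      rw [Metric.mem_closedBall, dist_zero_right, norm_smul, norm_inv,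
        Real.norm_of_nonneg hr0.le, ← div_eq_inv_mul, div_le_iff₀ hr0]
      change ‖y - y₀‖ ≤ 1 * r
      linarith
    rw [hF]
    simp only
    rw [h1, step, Real.smoothTransition.one, one_smul, one_smul]
    simp [hh]

end Pool.Agent.Helper70.BI


end

/-! ## Helper70.BI.M_LOC -/

section

/-!
# Project BI, part (E), module LOC: a germ of an orientation preserving diffeomorphism is undone by
an isotopy with small support
-/

set_option autoImplicit false

open scoped Manifold ContDiff Topology ComplexConjugate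
open Set Filter Pool.Agent.Helper65.Barb Pool.Agent.Helper18.BI

namespace Pool.Agent.Helper70.BI

namespace LOC

/-- The linear germ `y ↦ z + A (y - z)` is realized, for `0 < det A`. -/
theorem linGerm (hSM : StSM) (hTR : StTR) (hGL : StGL) (A : R4 →L[ℝ] R4) (hA : 0 < A.det) :
    ∀ (U : Set R4) (z : R4), IsOpen U → z ∈ U → RealG U z (fun y => z + A (y - z)) := by
  refine hGL R4 (fun A => ∀ (U : Set R4) (z : R4), IsOpen U → z ∈ U →
    RealG U z (fun y => z + A (y - z))) ?_ ?_ A hA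
  · intro A B hPA hPB U z hU hz
    have h1 := hPB U z hU hz
    have e1 : (fun y : R4 => z + B (y - z)) z = z := by simp
    have h2 : RealG U ((fun y : R4 => z + B (y - z)) z) (fun y => z + A (y - z)) := by
      rw [e1]; exact hPA U z hU hz
    have hc : ContinuousAt (fun y : R4 => z + B (y - z)) z := by fun_prop
    have h3 := (hTR R4).1 U z _ _ h1 h2 hc
    have e2 : (fun y : R4 => (fun y => z + A (y - z)) ((fun y : R4 => z + B (y - z)) y)) =
        fun y => z + (A.comp B) (y - z) := by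
      funext y
      simp
    rw [e2] at h3
    exact h3
  · obtain ⟨c, hc, h⟩ := hSM R4
    refine ⟨c, hc, fun A hA U z hU hz => ?_⟩
    apply h U z _ hU hz
    · refine Filter.Eventually.of_forall fun y => ?_
      exact (contDiff_const.add (A.contDiff.comp (contDiff_id.sub contDiff_const))).contDiffAt
    · simp
    · have e3 : HasFDerivAt (fun y : R4 => z + A (y - z)) A z := by
        have h4 : HasFDerivAt (fun y : R4 => y - z) (ContinuousLinearMap.id ℝ R4) z :=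
          (hasFDerivAt_id z).sub_const z
        have h5 : HasFDerivAt (fun y : R4 => A (y - z)) (A.comp (ContinuousLinearMap.id ℝ R4)) z :=
          HasFDerivAt.comp (g := fun y : R4 => A y) (f := fun y : R4 => y - z) z
            (A.hasFDerivAt (x := z - z)) h4
        rw [ContinuousLinearMap.comp_id] at h5
        exact h5.const_add z
      rw [e3.fderiv]
      exact hA

end LOC

theorem m_LOC (hSM : StSM) (hTR : StTR) (hGL : StGL) : StLOC := by
  intro F p U hLD hdet hU hUc hFp hp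
  have hF := ld_iff.1 hLD
  -- the local inverse
  obtain ⟨f, hf⟩ : ∃ f : R4 → R4, f = hLD.localInverse := ⟨_, rfl⟩
  have hfs : ContMDiffOn 𝓘(ℝ, R4) 𝓘(ℝ, R4) ∞ f hLD.localInverse.source := by
    rw [hf]; exact hLD.localInverse_contMDiffOn
  have hsrc : IsOpen hLD.localInverse.source := hLD.localInverse_open_source
  have hmem : F p ∈ hLD.localInverse.source := hLD.localInverse_mem_source
  have hfsm : ∀ᶠ y in 𝓝 (F p), ContDiffAt ℝ ∞ f y := by
    filter_upwards [hsrc.mem_nhds hmem] with y hy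
    exact (contMDiffOn_iff_contDiffOn.1 hfs).contDiffAt (hsrc.mem_nhds hy)
  have hleft : f ∘ F =ᶠ[𝓝 p] id := by
    rw [hf]; exact hLD.localInverse_eventuallyEq_left
  have hfp : f (F p) = p := hleft.self_of_nhds
  have dF : DifferentiableAt ℝ F p := hF.1.self_of_nhds.differentiableAt (by simp)
  have df : DifferentiableAt ℝ f (F p) := hfsm.self_of_nhds.differentiableAt (by simp)
  set L : R4 →L[ℝ] R4 := fderiv ℝ f (F p) with hL
  set K : R4 →L[ℝ] R4 := fderiv ℝ F p with hK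
  have hLK : L.comp K = ContinuousLinearMap.id ℝ R4 := by
    have h1 : fderiv ℝ (f ∘ F) p = L.comp K := fderiv_comp p df dF
    rw [← h1, hleft.fderiv_eq, fderiv_id]
  have hLK' : ∀ x, L (K x) = x := fun x => by
    have := congrArg (fun T : R4 →L[ℝ] R4 => T x) hLK
    simpa using this
  have hKL' : ∀ x, K (L x) = x := by
    have h1 : (L : R4 →ₗ[ℝ] R4) ∘ₗ (K : R4 →ₗ[ℝ] R4) = LinearMap.id := by
      apply LinearMap.ext; intro x; simp [hLK']
    have h2 := (LinearMap.comp_eq_id_comm (R := ℝ) (M := R4)).1 h1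
    intro x
    have := congrArg (fun T : R4 →ₗ[ℝ] R4 => T x) h2
    simpa using this
  have hdetL : 0 < L.det := by
    have h1 : (L : R4 →ₗ[ℝ] R4) ∘ₗ (K : R4 →ₗ[ℝ] R4) = LinearMap.id := by
      apply LinearMap.ext; intro x; simp [hLK']
    have h2 : LinearMap.det (L : R4 →ₗ[ℝ] R4) * LinearMap.det (K : R4 →ₗ[ℝ] R4) = 1 := by
      rw [← LinearMap.det_comp, h1, LinearMap.det_id]
    have h3 : 0 < LinearMap.det (K : R4 →ₗ[ℝ] R4) := hdet
    have h4 : 0 < LinearMap.det (L : R4 →ₗ[ℝ] R4) := by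
      by_contra h5
      push Not at h5
      nlinarith
    exact h4
  -- step (2)
  obtain ⟨c, hc, hS⟩ := hSM R4
  have hk : RealG U (F p) (fun y => F p + K (f y - p)) := by
    apply hS U (F p) _ hU hFp
    · filter_upwards [hfsm] with y hy
      exact contDiffAt_const.add (K.contDiff.contDiffAt.comp y (hy.sub contDiffAt_const))
    · simp [hfp]
    · have h1 : HasFDerivAt (fun y => F p + K (f y - p)) (K.comp L) (F p) := by
        have h2 : HasFDerivAt (fun y => f y - p) L (F p) := df.hasFDerivAt.sub_const p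
        have h4 : HasFDerivAt (fun y => K (f y - p)) (K.comp L) (F p) :=
          HasFDerivAt.comp (g := fun y : R4 => K y) (f := fun y => f y - p) (F p)
            (K.hasFDerivAt (x := f (F p) - p)) h2
        exact h4.const_add (F p)
      have h3 : K.comp L = ContinuousLinearMap.id ℝ R4 := by
        apply ContinuousLinearMap.ext
        intro x
        simp [hKL']
      rw [h1.fderiv, h3, sub_self, norm_zero]
      exact hc
  have kc : ContinuousAt (fun y => F p + K (f y - p)) (F p) :=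
    continuousAt_const.add (K.continuous.continuousAt.comp (df.continuousAt.sub continuousAt_const))
  -- step (1) and composition
  have hlin := LOC.linGerm hSM hTR hGL L hdetL U (F p) hU hFp
  have e1 : F p + K (f (F p) - p) = F p := by simp [hfp]
  have h2 : RealG U (F p) (fun y => (fun y => F p + L (y - F p)) ((fun y => F p + K (f y - p)) y)) := by
    refine (hTR R4).1 U (F p) (fun y => F p + K (f y - p)) (fun y => F p + L (y - F p)) hk ?_ kc
    rw [e1]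
    exact hlin
  have e2 : (fun y => (fun y => F p + L (y - F p)) ((fun y => F p + K (f y - p)) y)) =
      fun y => F p + (f y - p) := by
    funext y
    simp [hLK']
  rw [e2] at h2
  have h3 : RealG U (F p) (fun y => y + (p - F p)) := (hTR R4).2 U (F p) p hU hUc hFp hp
  have c2 : ContinuousAt (fun y => F p + (f y - p)) (F p) :=
    continuousAt_const.add (df.continuousAt.sub continuousAt_const)
  have h4 : RealG U (F p) (fun y => (fun y => y + (p - F p)) ((fun y => F p + (f y - p)) y)) := by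
    refine (hTR R4).1 U (F p) (fun y => F p + (f y - p)) (fun y => y + (p - F p)) h2 ?_ c2
    have e3 : F p + (f (F p) - p) = F p := by simp [hfp]
    rw [e3]
    exact h3
  obtain ⟨G, h0, hsup, h1⟩ := h4
  refine ⟨G, h0, hsup, ?_⟩
  have cF : ContinuousAt F p := dF.continuousAt
  filter_upwards [cF.eventually h1, hleft] with q hq1 hq2
  rw [hq1]
  have hq3 : f (F q) = q := hq2
  simp only [hq3]
  abel

end Pool.Agent.Helper70.BI


end

/-! ## Helper70.BI.H.StN -/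

section

/-!
# Project BI, stage 3 (H), section NORM: normalization of the crossing germs

Statements (as `Prop` definitions) with complete proofs in the docstrings.  A module `M_X` proves
`theorem m_X : StX` (possibly from other statements as hypotheses `(h : StY)`).

Plan.  A crossing germ `T` (`ArcD.XG`) has two flat balls, each of which meets the base arc in its
centre.  (1) By a precomposition with an isotopy of `R4` supported near the two centres and
preserving the vertical lines through the centres we make `T` equal to a translate of `D.J` near the two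
centres (`StCEN`).  (2) We contract the two flat balls (`StNCT`).  (3) We slide the two small balls along
the base arc (`StSLD`) to prescribed positions.  Any two germs normalized in this way have the same cuffs, and the
main theorem of stage 2 (`StMain2`) applies (`StNORM`).
-/

set_option autoImplicit false

open scoped Manifold ContDiff Topology ComplexConjugate
open Set Filter Pool.Agent.Helper65.Barb Pool.Agent.Helper18.BI

namespace Pool.Agent.Helper70.H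

open Pool.Agent.Helper27.H (ArcD seg)
open Pool.Agent.Helper70.BI (I4 LD Eqv NearEq pc StPT StGL)

/-- the centre of `flat 0` -/
noncomputable def z0 : R4 := (1 / 2, ((0 : ℝ), (0 : ℂ)))

/-- The germ of `f` at `y₀` is realized by the end of an isotopy of `R4`, starting at the identity, with
support in a compact subset of `U`, which preserves the vertical line `{y | y.2 = 0}`. -/
def RealL (U : Set R4) (y₀ : R4) (f : R4 → R4) : Prop :=
  ∃ G : DFam I4 R4, (∀ y, G.f (0, y) = y) ∧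
    (∃ C : Set R4, IsCompact C ∧ C ⊆ U ∧ ∀ t y, y ∉ C → G.f (t, y) = y) ∧
    (∀ t y, (G.f (t, y)).2 = 0 ↔ y.2 = 0) ∧ ∀ᶠ y in 𝓝 y₀, G.f (1, y) = f y

/-- **SML** (germs close to the identity which preserve the line) (uses `StPT`).
*Proof.* Adapt `Pool/Agent/Helper70/BI/M_SM.lean` (`m_SM`, for `E = R4`; copy its auxiliary lemmas `smooth_aux`, `lip_aux`).  Choose the radius `ε` there so small that
in addition `y.2 = 0 → (f y).2 = 0` for `‖y - y₀‖ < ε`.  The family is `F.f (t, y) = y + g (t, y)`, `g (t, y) = step t • (B (r⁻¹ • (y - y₀)) • (f y - y))`, and `g (t, ·)` is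
`1/2`-Lipschitz.  If `y.2 = 0` then `(g (t, y)).2 = 0`: either the bump function vanishes or `y` is near `y₀` and `(f y).2 = 0 = y.2`; so `(F.f (t, y)).2 = 0`.
If `y.2 ≠ 0`, let `y' = (y.1, 0)`: `(g (t, y')).2 = 0`, so `‖(g (t, y)).2‖ = ‖(g (t, y) - g (t, y')).2‖ ≤ ‖g (t, y) - g (t, y')‖ ≤ 1/2 ‖y - y'‖ = 1/2 ‖y.2‖ < ‖y.2‖`, and
`(F.f (t, y)).2 = y.2 + (g (t, y)).2 ≠ 0`. -/
def StSML : Prop :=
  ∃ c : ℝ, 0 < c ∧ ∀ (U : Set R4) (y₀ : R4) (f : R4 → R4), IsOpen U → y₀ ∈ U →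
    (∀ᶠ y in 𝓝 y₀, ContDiffAt ℝ ∞ f y) → f y₀ = y₀ →
    (∀ᶠ y in 𝓝 y₀, y.2 = 0 → (f y).2 = 0) →
    ‖fderiv ℝ f y₀ - ContinuousLinearMap.id ℝ R4‖ < c → RealL U y₀ f

/-- **GLL** (linear maps which preserve the line) (uses `StSML`, `StGL`).
*Proof.* Let `P A` be the statement `∀ U z, IsOpen U → z ∈ U → z.2 = 0 → RealL U z (fun y => z + A (y - z))`.
(0) `P A`, `P B` imply `P (A ∘ B)`: compose the two families (`DFam.comp`, see `m_TR`), the supports are compact in `U`, the line condition is transitive; both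
germs fix `z`.  (1) `P A` if `‖A - id‖ < c` and `A` preserves the line: `StSML`.
(2) Write `A (σ, v) = (a σ + l v, M v)`, `a = (A (1, 0)).1 > 0`, `l v = (A (0, v)).1`, `M v = (A (0, v)).2`.  `A = S ∘ D_a ∘ D_M` with `D_M (σ, v) = (σ, M v)`,
`D_a (σ, v) = (a σ, v)`, `S (σ, v) = (σ + l' v, v)`, `l' = l ∘ M⁻¹` (`M` is invertible because `A` is: if `M v = 0` then `A (- l v / a, v) = 0`; so `v = 0`).
(3) `P D_M` for all `M : R3 →L R3` with `0 < M.det`: `StGL` for `E = R3` and the property `M ↦ P D_M` (multiplicative by (0), true near the identity by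
(1): `‖D_M - id‖ ≤ ‖M - id‖`).  (4) `P D_a` for `a > 0`: `StGL` for `E = ℝ` and `P' A' := P (D_{A' 1})` (or: `D_a = (D_{a^(1/n)})^n`).
(5) `P S_l` for all `l : R3 →L ℝ`: `S_l = (S_{l/n})^n`, near the identity for large `n`; induction on the number of factors.
(6) `0 < M.det`: `M.det ≠ 0`; `A.det = S.det * D_a.det * D_M.det`, with `S = S_{l'/2} ∘ S_{l'/2}` and `D_a = D_√a ∘ D_√a` of positive determinant (squares, invertible), and
`D_M.det = M.det` (`LinearMap.det_prodMap`, or: if `M.det < 0` choose the reflection `ρ (a, w) = (-a, w)` of `R3`; `(ρ M).det > 0`, so `D_{ρ M}` is a product of maps near the identity (property `0 < D_M.det` in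
`StGL` for `E = R3`: multiplicative, true near the identity by continuity of the determinant), so `0 < (D_ρ).det * (D_M).det`, and `(D_ρ).det < 0`, so `D_M.det < 0`, contradiction). -/
def StGLL : Prop :=
  ∀ (A : R4 →L[ℝ] R4) (U : Set R4) (z : R4), IsOpen U → z ∈ U → z.2 = 0 →
    (∀ s : ℝ, (A (s, 0)).2 = 0) → 0 < (A (1, 0)).1 → 0 < A.det →
    RealL U z (fun y => z + A (y - z))

/-- **LOCL** (germs which preserve the line) (uses `StSML`, `StGLL`).
*Proof.* Compare `Pool/Agent/Helper70/BI/M_LOC.lean`.  `L = fderiv ℝ h z` is invertible (`0 < L.det`), let `K = L⁻¹`.  `(L (s, 0)).2 = 0`: differentiate `s ↦ (h (z + (s, 0))).2`, which is `0` near `s = 0`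
(`z.2 = 0`).  `k y = z + K (h y - z)`: smooth near `z`, `k z = z`, `fderiv k z = K ∘ L = id`; it preserves the line near `z`: `L (1, 0) = (a, 0)`, `a > 0`, so `K (s, 0) = (s / a, 0)`.
`StSML`: `RealL U z k`.  `StGLL` for `L`: `RealL U z (fun y => z + L (y - z))`.  Compose (`DFam.comp`, see `m_TR`; `k` is continuous at `z`): `z + L (k y - z) = h y`. -/
def StLOCL : Prop :=
  ∀ (U : Set R4) (z : R4) (h : R4 → R4), IsOpen U → z ∈ U → z.2 = 0 → LD h z → h z = z →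
    (∀ᶠ y in 𝓝 z, y.2 = 0 → (h y).2 = 0) → 0 < (fderiv ℝ h z (1, 0)).1 →
    0 < (fderiv ℝ h z).det → RealL U z h

/-- `T` is a germ of an embedding at `z0`, which maps the vertical line through `z0` into the base arc. -/
structure StrA (D : ArcD) (T : R4 → R4) (σ : ℝ → ℝ) (ε : ℝ) : Prop where
  pos : 0 < ε
  loc : ∀ p ∈ Metric.ball z0 ε, LD T p
  inj : InjOn T (Metric.ball z0 ε)
  smooth : ContDiffAt ℝ ∞ σ (1 / 2)
  dpos : 0 < deriv σ (1 / 2)
  lo : D.s₀ < σ (1 / 2)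
  hi : σ (1 / 2) < D.s₁
  str : ∀ᶠ s in 𝓝 (1 / 2 : ℝ), T (s, ((0 : ℝ), (0 : ℂ))) = D.J (σ s, 0)
  orient : 0 < (fderiv ℝ T z0).det * (fderiv ℝ D.J (σ (1 / 2), 0)).det

/-- **CEN** (centring) (uses `StLOCL`).
*Proof.* (1) There is `r ∈ (0, ε)` such that `T p ∈ D.A` implies `p.2 = 0` for `p ∈ ball z0 r`.  The set `S = {s | T (s, 0) = D.J (σ s, 0), (s, 0) ∈ ball z0 ε}` is a neighbourhood of `1/2`; `σ` has a nonzero strict derivative
at `1/2`, so `σ '' S` is a neighbourhood of `σ (1/2)` (`HasStrictDerivAt.map_nhds_eq`), it contains an open set `O ∋ σ (1/2)`.  `K = D.J '' {p ∈ D.L | p.1 ∉ O}` is compact (`D.J` is continuous at the points of the compact set `D.L`), and does not contain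
`T z0 = D.J (σ (1/2), 0)` (`D.J` is injective on `D.L`), so `T p ∉ K` for `p` near `z0`.  If moreover `T p ∈ D.A = D.J '' D.L` then `T p = D.J (a, 0)` with `a ∈ O`, so `a = σ s`, `s ∈ S`, `T p = T (s, 0)`, and `p = (s, 0)` by `inj`.
(2) Let `f` be a local inverse of `T` at `z0` (`IsLocalDiffeomorphAt.localInverse`) and `h p = f (D.J (σ (1/2) + (p.1 - 1/2), p.2))`.  At `p = z0` the argument of `f` is `D.J (σ (1/2), 0) = T z0` (`str` at `1/2`), so `h z0 = z0`, `LD h z0`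
(`D.J` is a local diffeomorphism at `(σ (1/2), 0) ∈ D.L`; composition of local diffeomorphisms), and `T (h p) = D.J (σ (1/2) + (p.1 - 1/2), p.2)` near `z0`.  The chain rule gives
`(fderiv T z0).det * (fderiv h z0).det = (fderiv D.J (σ (1/2), 0)).det`, so `0 < (fderiv h z0).det` by `orient`.  For `p` near `z0` with `p.2 = 0`: `T (h p) = D.J (.., 0) ∈ D.A` (`lo`, `hi`) and `h p ∈ ball z0 r`, so
`(h p).2 = 0` by (1).  So `h (s, 0) = (κ s, 0)` near `s = 1/2`, `D.J (σ (κ s), 0) = T (κ s, 0) = D.J (σ (1/2) + (s - 1/2), 0)`, and `σ (κ s) = σ (1/2) + (s - 1/2)` (injectivity on `D.L`); differentiate: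
`σ' (1/2) κ' (1/2) = 1`, so `0 < κ' (1/2) = (fderiv h z0 (1, 0)).1`.
(3) `StLOCL` for `U = ball z0 r`, `z = z0`: `R`.  Near `z0`: `T (R.f (1, p)) = T (h p)`. -/
def StCEN : Prop :=
  ∀ (D : ArcD) (T : R4 → R4) (σ : ℝ → ℝ) (ε : ℝ), StrA D T σ ε →
    ∃ (R : DFam I4 R4) (r : ℝ), 0 < r ∧ r < ε ∧ (∀ y, R.f (0, y) = y) ∧
      (∃ C : Set R4, IsCompact C ∧ C ⊆ Metric.ball z0 r ∧ ∀ t y, y ∉ C → R.f (t, y) = y) ∧
      (∀ t y, (R.f (t, y)).2 = 0 ↔ y.2 = 0) ∧
      (∀ p ∈ Metric.ball z0 r, T p ∈ D.A → p.2 = 0) ∧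
      ∀ᶠ p in 𝓝 z0, T (R.f (1, p)) = D.J (σ (1 / 2) + (p.1 - 1 / 2), p.2)

/-- `T` is a germ along the spine, disjoint from the base arc, whose cuffs are small linking spheres of the base arc,
of radius `lam / 5`, around the points with parameters `a`, `b`. -/
structure NC (D : ArcD) (a b lam : ℝ) (T : R4 → R4) : Prop where
  emb : EmbOn I4 T SP
  off : ∀ p ∈ SP, T p ∈ D.U \ D.A
  c0 : ∀ p ∈ sph 0, ∀ᶠ q in 𝓝 p, T q = D.J (a + (q.1 - 1 / 2), lam • q.2)
  c1 : ∀ p ∈ sph 1, ∀ᶠ q in 𝓝 p, T q = D.J (b + (q.1 - 1 / 2), lam • (q.2 - pc 1))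

/-- **NCT** (crossing germs are equivalent to germs with small round cuffs) (uses `StCEN`, `StCL`, `StFam`, `StDET`, `StA1`).
*Proof.* Write `zc = (1/2, pc c)`, `c = 0, 1`, `Tc p = T (p + (0, pc c))`.  `StA1`: `T` is an injective local diffeomorphism on an open `V ⊇ FB`; shrink `V` so that `T '' V ⊆ D.U`.  Choose `ε < 1/10` with
`ball z0 ε ⊆ V`, `ball z1 ε ⊆ V`.  `XG.str` gives `StrA D T0 σ ε`, `StrA D T1 τ ε`, `a = σ (1/2)`, `b = τ (1/2)`; `orient` for `T1`: the signs of `(fderiv T ·).det` at `z0`, `z1` agree (`StDET` for `FB`, the local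
diffeomorphisms have nonzero determinant), and the signs of `(fderiv D.J ·).det` at `(σ (1/2), 0)`, `(τ (1/2), 0)` agree (`seg` is convex, same proof as `M_DET.lean`).
`StCEN`: `R0, r0`, `R1, r1`.  `R1' (t, p) = R1.f (t, p - (0, pc 1)) + (0, pc 1)`.  For `lam ∈ (0, 1]` let `l t = 1 - t (1 - lam)`, `k (t, p) = clc 0 (l t) (clc 1 (l t) p)`, `m (t, p) = R0.f (t, R1' (t, k (t, p)))`,
`J (t, p) = D.e (T (m (t, p)))`, `T₁ p = T (m (1, p))`.
(A) For `t ∈ [0, 1]`, `p ∈ SP`: `k (t, p) ∈ FB \ {z0, z1}`: on `sph 0`: `clc 1` is the identity and `clc 0` multiplies `x` by `l t`; on `sph 1`: `clc 1` maps `p` to `(1/2, pc 1 + l t (x - pc 1)) ∈ flat 1`, where `clc 0` is the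
identity (`9/100 ≤ rsq 0`); `ax a`, `a ∈ [1/5, 4/5]`, goes to `ax b₁`, `b₁ = 1 + cfac (..) (a - 1) ∈ [a, 1)` and then to `ax b₂`, `b₂ = cfac (..) b₁ ∈ (0, b₁]` (`0 < l t ≤ cfac ≤ 1`); all `ax b` with `0 < b < 1` are in `FB \ {z0, z1}`.
(B) Let `q ∈ FB \ {z0, z1}`.  If `q ∈ ball z1 r1` then `R1' (t, q) ∈ ball z1 r1` (a diffeomorphism which is the identity off a subset of the ball maps the ball to itself) and `(R1' (t, q)).2 ≠ pc 1` because `q.1 = 1/2`, `q ≠ z1`, so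
`q.2 ≠ pc 1`; `T (R1' (t, q)) ∉ D.A` by `StCEN`; `R0` is the identity on `ball z1 r1` (`r0, r1 < 1/10`).  Otherwise `R1' (t, q) = q`; if `q ∈ ball z0 r0` the same argument applies to `R0`; otherwise `m = q`, `T q ∉ D.A` by `XG.arc`.  So
`T (R0.f (t, R1' (t, q))) ∈ D.U \ D.A` and `R0.f (t, R1' (t, q)) ∈ V`.
(C) `J` is `FamOn SP` (`famOn_iff`): `m` is smooth on `ℝ × R4` (`StCL`, `contDiff_dfam`), each `m (t, ·)`, `t ∈ [0, 1]`, is an injective local diffeomorphism; `T` is one on `V`, `D.e` on `D.U \ D.A` (open: `D.A` is compact).  See `famOn_comp`, `famOn_of_contDiff`,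
`famOn_const` in `Base.lean`.  `m (0, p) = p`.  `StFam`: `Eqv (D.e ∘ T) (D.e ∘ T₁)`.  `emb`, `off` of `NC`: the same at `t = 1` without `D.e`.
(D) `c0`: let `δ > 0` be such that `T (R0.f (1, q)) = D.J (a + (q.1 - 1/2), q.2)` for `‖q - z0‖ < δ` and the analogous formula holds for `R1`, `δ ≤ r0, r1`.  `lam₀ = δ` works: near `p ∈ sph 0`, `k (1, q) = (q.1, lam • q.2)` (`rsq 0 q < 1/20`, `9/100 ≤ rsq 1 q`), which is in `ball z0 δ`
(`‖q.2‖ ≤ 1/2`, `|q.1 - 1/2| < δ`), and `R1'` is the identity there.  `c1`: near `p ∈ sph 1`, `k (1, q) = (q.1, pc 1 + lam • (q.2 - pc 1))`, `R1' (1, ·)` of this is near `z1`, where `R0` is the identity, and `T (R1' (1, ·)) = T1 (R1.f (1, (q.1, lam • (q.2 - pc 1))))`. -/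
def StNCT : Prop :=
  ∀ (D : ArcD) (T : R4 → R4), D.XG T → ∃ a b lam₀ : ℝ, D.s₀ < a ∧ a < b ∧ b < D.s₁ ∧
    0 < lam₀ ∧ ∀ lam ∈ Ioo (0 : ℝ) lam₀, ∃ T₁ : R4 → R4, NC D a b lam T₁ ∧
      Eqv (fun p => D.e (T p)) (fun p => D.e (T₁ p))

/-- **SLD** (sliding along the base arc) (uses `StRM`, `StA1`).
*Proof.* (1) There is a smooth `m : ℝ → ℝ`, `m' > 0`, `m s = s` for `s ≤ s₀ + η` and `s ≥ s₁ - η`, `m s = s + (a' - a)` near `a`, `m s = s + (b' - b)` near `b`: `StRM` (2) for `(1/5, 4/5)`, conjugated with the affine bijection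
`x ↦ s₀ + (5/3) (s₁ - s₀) (x - 1/5)` from `(1/5, 4/5)` to `(s₀, s₁)`.  Decrease `η`.
(2) `D.J` is an injective local diffeomorphism on an open set `V ⊇ D.L` (`StA1`).  For `s ∈ [s₀ + η, s₁ - η]` we have `D.J (s, 0) = D.c s ∈ D.U`; by compactness there is `ρ > 0` such that `K = {p | s₀ + η ≤ p.1 ≤ s₁ - η, ‖p.2‖ ≤ ρ}` satisfies `K ⊆ V`, `D.J '' K ⊆ D.U`.
(3) `χ : R3 → ℝ` smooth with values in `[0, 1]`, `χ x = 1` for `‖x‖ < ρ/3`, `χ x = 0` for `‖x‖ ≥ ρ/2` (`ContDiffBump`).  `Σ (t, (s, x)) = (s + t χ x (m s - s), x)`: for `t ∈ [0, 1]` an injective local diffeomorphism of `R4`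
(`∂/∂s = (1 - tχ) + tχ m' > 0`), the identity off `K`, maps `K` onto `K` (for fixed `x` it is increasing in `s` and fixes the ends), preserves the line `{x = 0}` and its complement.
(4) `S (t, y) = D.J (Σ (t, p))` if `y = D.J p`, `p ∈ K`, and `S (t, y) = y` if `y ∉ D.J '' K`.  Smooth: near a point `(t, y)` with `y ∈ D.J '' V` it is `D.J ∘ Σ (t, ·) ∘ δ⁻¹` with the partial diffeomorphism `δ` of `StA1` (also for `p ∈ V \ K`, where `Σ (t, p) = p`), and
`D.J '' K` is closed, off it `S (t, y) = y`.  (Here `Σ (t, p)` must be in `V`: `Σ (t, ·)` maps `K` to itself and `Σ (t, p) = p` off `K`; to have this also for `t ∉ [0, 1]`, use `step t` instead of `t`.)  For `t ∈ [0, 1]` it is injective and a local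
diffeomorphism (the same formulas).
(5) `S (t, y) ∈ D.A` implies `y ∈ D.A`: if `y ∉ D.J '' K` this is clear; if `y = D.J p`, `p ∈ K`, then `D.J (Σ (t, p)) ∈ D.J '' D.L`, `Σ (t, p) ∈ D.L` (injectivity on `V`), so `p.2 = 0`, `p ∈ D.L`.  `S (t, y) ∈ D.U` for `y ∈ D.U`, as `D.J '' K ⊆ D.U`.
(6) The last two claims: `δ ≤ ρ/3`, and for `|s - a| < δ`: `m s = s + (a' - a)`; if `(s, x) ∉ K` (`‖x‖ < ρ`) then `m s = s` and `S (1, D.J (s, x)) = D.J (s, x)` (choose `δ` with `{(s, x) | |s - a| < δ, ‖x‖ < δ} ⊆ V`), consistent. -/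
def StSLD : Prop :=
  ∀ (D : ArcD) (a b a' b' : ℝ), D.s₀ < a → a < b → b < D.s₁ → D.s₀ < a' → a' < b' → b' < D.s₁ →
    ∃ (S : ℝ × R4 → R4) (δ : ℝ), ContDiff ℝ ∞ S ∧ (∀ y, S (0, y) = y) ∧ 0 < δ ∧
      (∀ t ∈ Icc (0 : ℝ) 1, EmbOn I4 (fun y => S (t, y)) univ) ∧
      (∀ t ∈ Icc (0 : ℝ) 1, ∀ y ∈ D.U \ D.A, S (t, y) ∈ D.U \ D.A) ∧
      (∀ p : R4, |p.1 - a| < δ → ‖p.2‖ < δ → S (1, D.J p) = D.J (p.1 + (a' - a), p.2)) ∧
      ∀ p : R4, |p.1 - b| < δ → ‖p.2‖ < δ → S (1, D.J p) = D.J (p.1 + (b' - b), p.2)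

end Pool.Agent.Helper70.H


end

/-! ## Helper70.BI.H.M_NCT -/

section

/-!
# Project BI, stage 3 (H), section NORM, module NCT: crossing germs are equivalent to germs with
small round cuffs
-/

set_option autoImplicit false

open scoped Manifold ContDiff Topology ComplexConjugate
open Set Filter Pool.Agent.Helper65.Barb Pool.Agent.Helper18.BI

namespace Pool.Agent.Helper70.H

open Pool.Agent.Helper27.H (ArcD seg)
open Pool.Agent.Helper70.BI (I4 LD Eqv NearEq pc StPT StGL)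

namespace NCT

open Pool.Agent.Helper70.BI (ax clc core ld_iff ld_comp ld_congr famOn_iff contDiff_dfam
  contDiff_dfam_inv ld_dfam)
open Pool.Agent.Helper34.BI (cfac)

/-! ### elementary facts on the spine -/

private theorem cfac_pos {lam : ℝ} (hl : lam ∈ Ioc (0 : ℝ) 1) (q : ℝ) :
    0 < cfac lam q ∧ cfac lam q ≤ 1 := by
  have h0 : 0 ≤ step ((q - 1 / 20) / (1 / 25)) := Real.smoothTransition.nonneg _
  have h1 : step ((q - 1 / 20) / (1 / 25)) ≤ 1 := Real.smoothTransition.le_one _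
  unfold cfac
  constructor
  · have : 0 ≤ (1 - lam) * step ((q - 1 / 20) / (1 / 25)) :=
      mul_nonneg (by linarith [hl.2]) h0
    linarith [hl.1]
  · nlinarith [hl.1, hl.2]

private theorem rsq_ax (c a : ℝ) : rsq c (ax a) = (a - c) ^ 2 := by
  simp [rsq, nsq, ax]

private theorem neck_eq {p : R4} (h : p ∈ neck) : p = ax p.2.1 :=
  Prod.ext h.1 (Prod.ext rfl h.2.2.2)

private theorem ax_notMem {c : ℝ} (hc : c = 0 ∨ c = 1) : ax c ∉ SP := by
  intro h
  rcases h with (h | h) | h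
  · have := h.2
    rw [rsq_ax] at this
    rcases hc with rfl | rfl <;> norm_num at this
  · have := h.2
    rw [rsq_ax] at this
    rcases hc with rfl | rfl <;> norm_num at this
  · have h1 := h.2.1
    have h2 := h.2.2.1
    simp only [ax] at h1 h2
    rcases hc with rfl | rfl
    · norm_num at h1
    · norm_num at h2

private theorem fb_fst {p : R4} (h : p ∈ FB) : p.1 = 1 / 2 := by
  rcases h with (h | h) | h
  · exact h.1
  · exact h.1
  · exact h.1

private theorem far1 {p : R4} (h : p ∈ flat 0) : 1 / 10 < rsq 1 p := by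
  have h2 := h.2
  simp only [rsq, nsq] at h2 ⊢
  have h3 : (p.2.1 - 0) ^ 2 ≤ (1 / 5) ^ 2 := by
    nlinarith [sq_nonneg p.2.2.re, sq_nonneg p.2.2.im]
  have h4 := abs_le_of_sq_le_sq' h3 (by norm_num)
  nlinarith [h4.1, h4.2, sq_nonneg p.2.2.re, sq_nonneg p.2.2.im]

private theorem far0 {p : R4} (h : p ∈ flat 1) : 1 / 10 < rsq 0 p := by
  have h2 := h.2
  simp only [rsq, nsq] at h2 ⊢
  have h3 : (p.2.1 - 1) ^ 2 ≤ (1 / 5) ^ 2 := by
    nlinarith [sq_nonneg p.2.2.re, sq_nonneg p.2.2.im]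
  have h4 := abs_le_of_sq_le_sq' h3 (by norm_num)
  nlinarith [h4.1, h4.2, sq_nonneg p.2.2.re, sq_nonneg p.2.2.im]

private theorem ax_mem_FB {b : ℝ} (h0 : 0 < b) (h1 : b < 1) : ax b ∈ FB := by
  by_cases h2 : b < 1 / 5
  · refine Or.inl (Or.inl ⟨rfl, ?_⟩)
    rw [rsq_ax]; nlinarith
  · by_cases h3 : b ≤ 4 / 5
    · refine Or.inr ⟨rfl, ?_, ?_, rfl⟩
      · simp only [ax]; linarith
      · simp only [ax]; linarith
    · refine Or.inl (Or.inr ⟨rfl, ?_⟩)
      rw [rsq_ax]; nlinarith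

private theorem norm_le_of_rsq {c : ℝ} {q : R4} (h : rsq c q < 1 / 20) :
    ‖q.2 - pc c‖ ≤ 1 / 2 := by
  simp only [rsq, nsq] at h
  rw [Prod.norm_def]
  refine max_le ?_ ?_
  · simp only [pc, Prod.fst_sub, Real.norm_eq_abs]
    refine abs_le_of_sq_le_sq ?_ (by norm_num)
    nlinarith [sq_nonneg q.2.2.re, sq_nonneg q.2.2.im]
  · simp only [pc, Prod.snd_sub, sub_zero]
    have h1 : ‖q.2.2‖ ^ 2 ≤ (1 / 2) ^ 2 := by
      rw [← Complex.normSq_eq_norm_sq, Complex.normSq_apply]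
      nlinarith [sq_nonneg (q.2.1 - c)]
    exact le_of_sq_le_sq h1 (by norm_num)

private theorem rsq_cont (c : ℝ) : Continuous (rsq c) := by
  unfold rsq nsq
  fun_prop

/-! ### the contraction of both cuffs -/

/-- the contraction of both cuffs maps the spine into the filled spine, off the centres -/
private theorem maps (hCL : Pool.Agent.Helper70.BI.StCL) {mu : ℝ} (hm : mu ∈ Ioc (0 : ℝ) 1)
    {p : R4} (hp : p ∈ SP) : clc 0 mu (clc 1 mu p) ∈ FB ∧ clc 0 mu (clc 1 mu p) ≠ ax 0 ∧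
      clc 0 mu (clc 1 mu p) ≠ ax 1 := by
  obtain ⟨-, -, h0⟩ := hCL 0 (Or.inl rfl)
  obtain ⟨-, -, h1⟩ := hCL 1 (Or.inr rfl)
  obtain ⟨emb0, fst0, -, fix0, ax0, le0, -⟩ := h0 mu hm
  obtain ⟨emb1, fst1, -, fix1, ax1, le1, -⟩ := h1 mu hm
  have a01 : clc 1 mu (ax 0) = ax 0 := fix1 _ (by rw [rsq_ax]; norm_num)
  have a10 : clc 0 mu (ax 1) = ax 1 := fix0 _ (by rw [rsq_ax]; norm_num)
  have a00 : clc 0 mu (ax 0) = ax 0 := by rw [ax0]; simp
  have a11 : clc 1 mu (ax 1) = ax 1 := by rw [ax1]; simp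
  refine ⟨?_, fun h => ?_, fun h => ?_⟩
  · rcases hp with (h | h) | h
    · have hf : p ∈ flat 0 := ⟨h.1, h.2.le⟩
      rw [fix1 p (by linarith [far1 hf])]
      exact Or.inl (Or.inl ⟨by rw [fst0]; exact h.1, (le0 p).trans h.2.le⟩)
    · have hf : clc 1 mu p ∈ flat 1 := ⟨by rw [fst1]; exact h.1, (le1 p).trans h.2.le⟩
      rw [fix0 _ (by linarith [far0 hf])]
      exact Or.inl (Or.inr hf)
    · rw [neck_eq h, ax1, ax0]
      obtain ⟨k0, k1⟩ := cfac_pos hm ((p.2.1 - 1) ^ 2)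
      set k := cfac mu ((p.2.1 - 1) ^ 2)
      obtain ⟨l0, l1⟩ := cfac_pos hm ((1 + k * (p.2.1 - 1) - 0) ^ 2)
      set l := cfac mu ((1 + k * (p.2.1 - 1) - 0) ^ 2)
      have a1 := h.2.1
      have a2 := h.2.2.1
      have b0 : 0 < 1 + k * (p.2.1 - 1) := by nlinarith
      have b1 : 1 + k * (p.2.1 - 1) < 1 := by nlinarith
      refine ax_mem_FB ?_ ?_
      · have := mul_pos l0 b0
        linarith
      · have : l * (1 + k * (p.2.1 - 1)) ≤ 1 * (1 + k * (p.2.1 - 1)) :=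
          mul_le_mul_of_nonneg_right l1 b0.le
        linarith
  · have e1 : clc 1 mu p = ax 0 := emb0.2 (mem_univ _) (mem_univ _) (h.trans a00.symm)
    have e2 : p = ax 0 := emb1.2 (mem_univ _) (mem_univ _) (e1.trans a01.symm)
    exact ax_notMem (Or.inl rfl) (e2 ▸ hp)
  · have e1 : clc 1 mu p = ax 1 := emb0.2 (mem_univ _) (mem_univ _) (h.trans a10.symm)
    have e2 : p = ax 1 := emb1.2 (mem_univ _) (mem_univ _) (e1.trans a11.symm)
    exact ax_notMem (Or.inr rfl) (e2 ▸ hp)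

/-! ### determinants -/

private theorem det_ne {F : R4 → R4} {p : R4} (h : LD F p) : (fderiv ℝ F p).det ≠ 0 := by
  have h1 := (ld_iff.1 h).2
  have h2 : LinearMap.ker (fderiv ℝ F p : R4 →ₗ[ℝ] R4) = ⊥ :=
    LinearMap.ker_eq_bot.2 h1
  intro h0
  have h3 : LinearMap.det (fderiv ℝ F p : R4 →ₗ[ℝ] R4) = 0 := h0
  have h4 := LinearMap.bot_lt_ker_of_det_eq_zero h3
  rw [h2] at h4
  exact lt_irrefl _ h4

private theorem det_cont {F : R4 → R4} {p : R4} (h : LD F p) :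
    ContinuousAt (fun q => (fderiv ℝ F q).det) p := by
  have h1 := (ld_iff.1 h).1.self_of_nhds
  have h2 : ContinuousAt (fderiv ℝ F) p :=
    (h1.fderiv_right (m := ∞) (by simp)).continuousAt
  exact ContinuousLinearMap.continuous_det.continuousAt.comp h2

private theorem pos_of_pre {F : R4 → R4} {L : Set R4} (hL : IsPreconnected L)
    (hLD : ∀ p ∈ L, LD F p) {p q : R4} (hp : p ∈ L) (hq : q ∈ L)
    (h : 0 < (fderiv ℝ F p).det) : 0 < (fderiv ℝ F q).det := by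
  by_contra hneg
  have hq0 : (fderiv ℝ F q).det ≤ 0 := not_lt.1 hneg
  have hc : ContinuousOn (fun x => (fderiv ℝ F x).det) L :=
    fun x hx => (det_cont (hLD x hx)).continuousWithinAt
  have h1 := hL.intermediate_value hq hp hc
  obtain ⟨x, hx, hx0⟩ := h1 ⟨hq0, h.le⟩
  exact det_ne (hLD x hx) hx0

private theorem convex_seg (s₀ s₁ : ℝ) : Convex ℝ (seg s₀ s₁) := by
  rintro ⟨s, v⟩ ⟨hp1, hp2, hp3⟩ ⟨s', v'⟩ ⟨hq1, hq2, hq3⟩ x y hx hy hxy
  simp only at hp1 hp2 hp3 hq1 hq2 hq3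
  have hy' : y = 1 - x := by linarith
  subst hy'
  refine ⟨?_, ?_, ?_⟩
  · simp only [Prod.smul_mk, Prod.mk_add_mk, smul_eq_mul]
    nlinarith [mul_le_mul_of_nonneg_left hp1 hx, mul_le_mul_of_nonneg_left hq1 hy]
  · simp only [Prod.smul_mk, Prod.mk_add_mk, smul_eq_mul]
    nlinarith [mul_le_mul_of_nonneg_left hp2 hx, mul_le_mul_of_nonneg_left hq2 hy]
  · simp only [Prod.smul_mk, Prod.mk_add_mk, hp3, hq3, smul_zero, add_zero]

/-- signs of products -/
private theorem sign_aux {x y z w : ℝ} (h : 0 < x * z) (hy : y ≠ 0) (hw : w ≠ 0)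
    (h1 : 0 < x → 0 < y) (h2 : 0 < y → 0 < x) (h3 : 0 < z → 0 < w) (h4 : 0 < w → 0 < z) :
    0 < y * w := by
  rcases lt_trichotomy x 0 with hx | hx | hx
  · have hz : z < 0 := by
      by_contra hz
      nlinarith [not_lt.1 hz]
    have hy' : y < 0 := lt_of_le_of_ne (not_lt.1 fun h' => absurd (h2 h') (not_lt.2 hx.le)) hy
    have hw' : w < 0 := lt_of_le_of_ne (not_lt.1 fun h' => absurd (h4 h') (not_lt.2 hz.le)) hw
    exact mul_pos_of_neg_of_neg hy' hw'
  · rw [hx] at h; simp at h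
  · have hz : 0 < z := by
      by_contra hz
      nlinarith [not_lt.1 hz]
    exact mul_pos (h1 hx) (h3 hz)

/-! ### families of diffeomorphisms -/

/-- the translation vector -/
private noncomputable def vv : R4 := (0, ((1 : ℝ), (0 : ℂ)))

/-- conjugation of a family of diffeomorphisms with a translation -/
private noncomputable def shD (R : DFam I4 R4) : DFam I4 R4 where
  f q := R.f (q.1, q.2 - vv) + vv
  g q := R.g (q.1, q.2 - vv) + vv
  smooth_f := by
    have h1 : ContDiff ℝ ∞ (fun q : ℝ × R4 => R.f (q.1, q.2 - vv) + vv) :=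
      ((contDiff_dfam R).comp (contDiff_fst.prodMk (contDiff_snd.sub contDiff_const))).add
        contDiff_const
    rw [← contMDiff_iff_contDiff, modelWithCornersSelf_prod, ← chartedSpaceSelf_prod] at h1
    exact h1
  smooth_g := by
    have h1 : ContDiff ℝ ∞ (fun q : ℝ × R4 => R.g (q.1, q.2 - vv) + vv) :=
      ((contDiff_dfam_inv R).comp (contDiff_fst.prodMk (contDiff_snd.sub contDiff_const))).add
        contDiff_const
    rw [← contMDiff_iff_contDiff, modelWithCornersSelf_prod, ← chartedSpaceSelf_prod] at h1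
    exact h1
  fg t x := by simp [R.fg]
  gf t x := by simp [R.gf]

private theorem dfam_inj (G : DFam I4 R4) (t : ℝ) {x y : R4} (h : G.f (t, x) = G.f (t, y)) :
    x = y := by
  rw [← G.gf t x, h, G.gf]

/-- a diffeomorphism which is the identity off a subset of `B` maps `B` to itself -/
private theorem maps_self {G : DFam I4 R4} {B C : Set R4} (hC : C ⊆ B)
    (h : ∀ t y, y ∉ C → G.f (t, y) = y) (t : ℝ) {y : R4} (hy : y ∈ B) : G.f (t, y) ∈ B := by
  by_contra hn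
  have h1 := h t (G.f (t, y)) fun h' => hn (hC h')
  have h2 := dfam_inj G t h1
  rw [h2] at hn
  exact hn hy

private theorem ball_abs {c r : ℝ} {y : R4} (h : y ∈ Metric.ball (ax c) r) : |y.2.1 - c| < r := by
  have h1 : dist y (ax c) < r := h
  have h2 : dist y.2 (ax c).2 ≤ dist y (ax c) := by rw [Prod.dist_eq]; exact le_max_right _ _
  have h3 : dist y.2.1 (ax c).2.1 ≤ dist y.2 (ax c).2 := by
    rw [Prod.dist_eq]; exact le_max_left _ _
  have h4 : dist y.2.1 (ax c).2.1 = |y.2.1 - c| := Real.dist_eq _ _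
  linarith

private theorem ball_disj {y : R4} (h0 : y ∈ Metric.ball z0 (1 / 10))
    (h1 : y ∈ Metric.ball (ax 1) (1 / 10)) : False := by
  have e0 := abs_lt.1 (ball_abs (c := 0) h0)
  have e1 := abs_lt.1 (ball_abs h1)
  linarith [e0.2, e1.1]

private theorem z0_eq : z0 = ax 0 := rfl

private theorem ax1_eq : (ax 1 : R4) = z0 + vv := by
  simp [ax, z0, vv]

private theorem mem_ball_sub {r : ℝ} {y : R4} :
    y ∈ Metric.ball (ax 1) r ↔ y - vv ∈ Metric.ball z0 r := by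
  rw [Metric.mem_ball, Metric.mem_ball, dist_eq_norm, dist_eq_norm, ax1_eq]
  rw [show y - (z0 + vv) = y - vv - z0 by abel]

private theorem nfam {D : ArcD} {T : R4 → R4} (hT : D.XG T) {V : Set R4}
    (hVU : ∀ p ∈ V, T p ∈ D.U) (hFV : FB ⊆ V) {R0 R1 : DFam I4 R4} {r0 r1 : ℝ}
    (h0 : r0 < 1 / 10) (h1 : r1 < 1 / 10) (b0 : Metric.ball z0 r0 ⊆ V)
    (b1 : Metric.ball (ax 1) r1 ⊆ V)
    (S0 : ∃ C : Set R4, IsCompact C ∧ C ⊆ Metric.ball z0 r0 ∧ ∀ t y, y ∉ C → R0.f (t, y) = y)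
    (S1 : ∃ C : Set R4, IsCompact C ∧ C ⊆ Metric.ball z0 r1 ∧ ∀ t y, y ∉ C → R1.f (t, y) = y)
    (L0 : ∀ t y, (R0.f (t, y)).2 = 0 ↔ y.2 = 0) (L1 : ∀ t y, (R1.f (t, y)).2 = 0 ↔ y.2 = 0)
    (A0 : ∀ p ∈ Metric.ball z0 r0, T p ∈ D.A → p.2 = 0)
    (A1 : ∀ p ∈ Metric.ball z0 r1, T (p + vv) ∈ D.A → p.2 = 0) :
    (∀ t, ∀ q ∈ FB, q ≠ ax 0 → q ≠ ax 1 → (R0.comp (shD R1)).f (t, q) ∈ V ∧
      T ((R0.comp (shD R1)).f (t, q)) ∈ D.U \ D.A) ∧
    (∀ t, ∀ q ∈ Metric.ball z0 (1 / 10), (R0.comp (shD R1)).f (t, q) = R0.f (t, q)) ∧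
    (∀ t, ∀ q ∈ Metric.ball (ax 1) (1 / 10),
      (R0.comp (shD R1)).f (t, q) = R1.f (t, q - vv) + vv) := by
  obtain ⟨C0, -, hC0, F0⟩ := S0
  obtain ⟨C1, -, hC1, F1⟩ := S1
  have hb0 : Metric.ball z0 r0 ⊆ Metric.ball z0 (1 / 10) := Metric.ball_subset_ball h0.le
  have hb1 : Metric.ball z0 r1 ⊆ Metric.ball z0 (1 / 10) := Metric.ball_subset_ball h1.le
  have hcomp : ∀ t q, (R0.comp (shD R1)).f (t, q) = R0.f (t, R1.f (t, q - vv) + vv) :=
    fun _ _ => rfl
  -- the second family is the identity off the ball around `ax 1`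
  have i1 : ∀ t q, q ∉ Metric.ball (ax 1) r1 → R1.f (t, q - vv) + vv = q := by
    intro t q hq
    rw [F1 t (q - vv) fun h => hq (mem_ball_sub.2 (hC1 h))]
    simp
  have i0 : ∀ t q, q ∉ Metric.ball z0 r0 → R0.f (t, q) = q := fun t q hq =>
    F0 t q fun h => hq (hC0 h)
  have m1 : ∀ t q, ∀ r, r1 ≤ r → q ∈ Metric.ball (ax 1) r →
      R1.f (t, q - vv) + vv ∈ Metric.ball (ax 1) r := by
    intro t q r hr hq
    rw [mem_ball_sub] at hq ⊢
    rw [add_sub_cancel_right]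
    exact maps_self (hC1.trans (Metric.ball_subset_ball hr)) F1 t hq
  have k1 : ∀ t, ∀ q ∈ Metric.ball (ax 1) (1 / 10),
      (R0.comp (shD R1)).f (t, q) = R1.f (t, q - vv) + vv := by
    intro t q hq
    rw [hcomp]
    exact i0 t _ fun h => ball_disj (hb0 h) (m1 t q _ h1.le hq)
  have k0 : ∀ t, ∀ q ∈ Metric.ball z0 (1 / 10),
      (R0.comp (shD R1)).f (t, q) = R0.f (t, q) := by
    intro t q hq
    rw [hcomp, i1 t q fun h => ball_disj hq (Metric.ball_subset_ball h1.le h)]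
  refine ⟨fun t q hq hq0 hq1 => ?_, k0, k1⟩
  by_cases c1 : q ∈ Metric.ball (ax 1) r1
  · have e1 := k1 t q (Metric.ball_subset_ball h1.le c1)
    rw [e1]
    have e2 := m1 t q r1 le_rfl c1
    refine ⟨b1 e2, hVU _ (b1 e2), fun hA => ?_⟩
    have e3 : R1.f (t, q - vv) ∈ Metric.ball z0 r1 := by
      rw [mem_ball_sub, add_sub_cancel_right] at e2
      exact e2
    have e4 := A1 _ e3 hA
    rw [L1] at e4
    refine hq1 (Prod.ext (fb_fst hq) ?_)
    have e5 : q.2 - ((1 : ℝ), (0 : ℂ)) = 0 := e4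
    have e6 := sub_eq_zero.1 e5
    exact e6
  · by_cases c0 : q ∈ Metric.ball z0 r0
    · have e1 := k0 t q (hb0 c0)
      rw [e1]
      have e2 : R0.f (t, q) ∈ Metric.ball z0 r0 := maps_self hC0 F0 t c0
      refine ⟨b0 e2, hVU _ (b0 e2), fun hA => ?_⟩
      have e4 := A0 _ e2 hA
      rw [L0] at e4
      exact hq0 (Prod.ext (fb_fst hq) e4)
    · rw [hcomp, i1 t q c1, i0 t q c0]
      refine ⟨hFV hq, hVU _ (hFV hq), fun hA => ?_⟩
      rcases hT.arc q hq hA with h | h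
      · exact hq0 h
      · exact hq1 h

/-- a neighbourhood of the filled spine on which `T` is an embedding into `D.U` -/
private theorem exV (hA1 : StA1) {D : ArcD} {T : R4 → R4} (h : D.XG T) :
    ∃ V : Set R4, IsOpen V ∧ FB ⊆ V ∧ (∀ p ∈ V, LD T p) ∧ InjOn T V ∧ ∀ p ∈ V, T p ∈ D.U := by
  obtain ⟨δ, hs, he⟩ := hA1 R4 R4 R4 I4 R4 T FB Pool.Agent.Helper34.BI.D1b.cpt_FB h.emb.1 h.emb.2
  refine ⟨δ.source ∩ δ ⁻¹' D.U, ?_, ?_, ?_, ?_, ?_⟩
  · exact δ.toOpenPartialHomeomorph.continuousOn.isOpen_inter_preimage δ.open_source D.openU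
  · intro p hp
    refine ⟨hs hp, ?_⟩
    show δ p ∈ D.U
    rw [he p (hs hp)]
    exact h.inU p hp
  · rintro p ⟨hp, -⟩
    exact ⟨δ, hp, fun q hq => (he q hq).symm⟩
  · rintro p ⟨hp, -⟩ q ⟨hq, -⟩ hpq
    rw [← he p hp, ← he q hq] at hpq
    exact δ.toOpenPartialHomeomorph.injOn hp hq hpq
  · rintro p ⟨hp, hpU⟩
    rw [← he p hp]
    exact hpU

private theorem ld_add (v p : R4) : LD (fun q => q + v) p := by
  rw [ld_iff]
  refine ⟨Eventually.of_forall fun q => contDiffAt_id.add contDiffAt_const, ?_⟩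
  have h1 : fderiv ℝ (fun q : R4 => q + v) p = ContinuousLinearMap.id ℝ R4 := by
    rw [fderiv_add_const]
    exact fderiv_id'
  rw [h1]
  exact fun _ _ h => h

/-- the family of germs -/
private theorem fam (hCL : Pool.Agent.Helper70.BI.StCL) (hF : Pool.Agent.Helper70.BI.StFam)
    {D : ArcD} {T : R4 → R4} {V : Set R4} (hLD : ∀ p ∈ V, LD T p) (hinj : InjOn T V)
    {N : DFam I4 R4} (N0 : ∀ y, N.f (0, y) = y)
    (hN : ∀ t, ∀ q ∈ FB, q ≠ ax 0 → q ≠ ax 1 → N.f (t, q) ∈ V ∧ T (N.f (t, q)) ∈ D.U \ D.A)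
    {lam : ℝ} (hlam : lam ∈ Ioc (0 : ℝ) 1) :
    EmbOn I4 (fun p => T (N.f (1, clc 0 lam (clc 1 lam p)))) SP ∧
    (∀ p ∈ SP, T (N.f (1, clc 0 lam (clc 1 lam p))) ∈ D.U \ D.A) ∧
    Eqv (fun p => D.e (T p)) (fun p => D.e (T (N.f (1, clc 0 lam (clc 1 lam p))))) := by
  obtain ⟨hs0, one0, h0⟩ := hCL 0 (Or.inl rfl)
  obtain ⟨hs1, one1, h1⟩ := hCL 1 (Or.inr rfl)
  have hmu : ∀ t ∈ Icc (0 : ℝ) 1, 1 - t * (1 - lam) ∈ Ioc (0 : ℝ) 1 := by
    intro t ht
    constructor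
    · nlinarith [ht.1, ht.2, hlam.1, hlam.2]
    · nlinarith [ht.1, ht.2, hlam.1, hlam.2]
  have hmem : ∀ t, ∀ mu ∈ Ioc (0 : ℝ) 1, ∀ p ∈ SP, N.f (t, clc 0 mu (clc 1 mu p)) ∈ V ∧
      T (N.f (t, clc 0 mu (clc 1 mu p))) ∈ D.U \ D.A := by
    intro t mu hm p hp
    obtain ⟨a1, a2, a3⟩ := maps hCL hm hp
    exact hN t _ a1 a2 a3
  have hld : ∀ t, ∀ mu ∈ Ioc (0 : ℝ) 1, ∀ p, LD (fun q => N.f (t, clc 0 mu (clc 1 mu q))) p := by
    intro t mu hm p
    have e1 := (h1 mu hm).1.1 p (mem_univ _)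
    have e0 := (h0 mu hm).1.1 (clc 1 mu p) (mem_univ _)
    have e2 : LD (fun q => clc 0 mu (clc 1 mu q)) p := ld_comp e1 e0
    exact ld_comp e2 (ld_dfam N t _)
  have hinj' : ∀ t, ∀ mu ∈ Ioc (0 : ℝ) 1, ∀ p ∈ SP, ∀ q ∈ SP,
      T (N.f (t, clc 0 mu (clc 1 mu p))) = T (N.f (t, clc 0 mu (clc 1 mu q))) → p = q := by
    intro t mu hm p hp q hq he
    have e1 := hinj (hmem t mu hm p hp).1 (hmem t mu hm q hq).1 he
    have e2 := dfam_inj N t e1
    have e3 := (h0 mu hm).1.2 (mem_univ _) (mem_univ _) e2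
    exact (h1 mu hm).1.2 (mem_univ _) (mem_univ _) e3
  have hLe : ∀ p ∈ V, T p ∈ D.U \ D.A → LD (fun q => D.e (T q)) p := fun p hp hq =>
    ld_comp (hLD p hp) (D.embe.1 (T p) hq)
  have hm : ContDiff ℝ ∞ (fun z : ℝ × R4 => N.f (z.1, clc 0 (1 - z.1 * (1 - lam))
      (clc 1 (1 - z.1 * (1 - lam)) z.2))) := by
    have g1 : ContDiff ℝ ∞ (fun z : ℝ × R4 => 1 - z.1 * (1 - lam)) :=
      contDiff_const.sub (contDiff_fst.mul contDiff_const)
    have g2 : ContDiff ℝ ∞ (fun z : ℝ × R4 => clc 1 (1 - z.1 * (1 - lam)) z.2) :=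
      hs1.comp (g1.prodMk contDiff_snd)
    have g3 : ContDiff ℝ ∞ (fun z : ℝ × R4 => clc 0 (1 - z.1 * (1 - lam))
        (clc 1 (1 - z.1 * (1 - lam)) z.2)) := hs0.comp (g1.prodMk g2)
    exact (contDiff_dfam N).comp (contDiff_fst.prodMk g3)
  have hfam : FamOn I4 (fun z : ℝ × R4 => D.e (T (N.f (z.1, clc 0 (1 - z.1 * (1 - lam))
      (clc 1 (1 - z.1 * (1 - lam)) z.2))))) SP := by
    rw [famOn_iff]
    refine ⟨fun t ht p hp => ?_, fun t ht => ⟨fun p hp => ?_, fun p hp q hq he => ?_⟩⟩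
    · obtain ⟨a1, a2⟩ := hmem t _ (hmu t ht) p hp
      have g1 := (ld_iff.1 (hLe _ a1 a2)).1
      have g2 : ContinuousAt (fun z : ℝ × R4 => N.f (z.1, clc 0 (1 - z.1 * (1 - lam))
          (clc 1 (1 - z.1 * (1 - lam)) z.2))) (t, p) := hm.continuous.continuousAt
      filter_upwards [g2.eventually g1] with z hz
      exact ContDiffAt.comp (g := fun q => D.e (T q)) z hz hm.contDiffAt
    · obtain ⟨a1, a2⟩ := hmem t _ (hmu t ht) p hp
      exact ld_comp (F := fun q => D.e (T q)) (hld t _ (hmu t ht) p) (hLe _ a1 a2)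
    · obtain ⟨-, a2⟩ := hmem t _ (hmu t ht) p hp
      obtain ⟨-, b2⟩ := hmem t _ (hmu t ht) q hq
      exact hinj' t _ (hmu t ht) p hp q hq (D.embe.2 a2 b2 he)
  refine ⟨⟨fun p hp => ?_, fun p hp q hq he => hinj' 1 lam hlam p hp q hq he⟩,
    fun p hp => (hmem 1 lam hlam p hp).2, ?_⟩
  · exact ld_comp (hld 1 lam hlam p) (hLD _ (hmem 1 lam hlam p hp).1)
  · have h := hF _ hfam
    have e0 : (fun p : R4 => D.e (T (N.f (((0 : ℝ), p).1, clc 0 (1 - ((0 : ℝ), p).1 * (1 - lam))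
        (clc 1 (1 - ((0 : ℝ), p).1 * (1 - lam)) ((0 : ℝ), p).2))))) = fun p => D.e (T p) := by
      funext p
      simp [one0, one1, N0]
    have e1 : (fun p : R4 => D.e (T (N.f (((1 : ℝ), p).1, clc 0 (1 - ((1 : ℝ), p).1 * (1 - lam))
        (clc 1 (1 - ((1 : ℝ), p).1 * (1 - lam)) ((1 : ℝ), p).2))))) =
        fun p => D.e (T (N.f (1, clc 0 lam (clc 1 lam p)))) := by
      funext p
      simp
    rw [e0, e1] at h
    exact h

/-- the two centres satisfy the hypotheses of `StCEN` -/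
private theorem stra (hDET : Pool.Agent.Helper70.BI.StDET) {D : ArcD} {T : R4 → R4}
    (hT : D.XG T) {V : Set R4} (hLD : ∀ p ∈ V, LD T p) (hinj : InjOn T V) {ε : ℝ} (hε : 0 < ε)
    (hb0 : Metric.ball (ax 0) ε ⊆ V) (hb1 : Metric.ball (ax 1) ε ⊆ V) :
    ∃ σ τ : ℝ → ℝ, D.s₀ < σ (1 / 2) ∧ σ (1 / 2) < τ (1 / 2) ∧ τ (1 / 2) < D.s₁ ∧
      StrA D T σ ε ∧ StrA D (fun p => T (p + vv)) τ ε := by
  obtain ⟨σ, τ, hσ, hτ, dσ, dτ, l0, l1, l2, e0, e1, hor⟩ := hT.str
  have m0 : (ax 0 : R4) ∈ FB := Or.inl (Or.inl ⟨rfl, by rw [rsq_ax]; norm_num⟩)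
  have m1 : (ax 1 : R4) ∈ FB := Or.inl (Or.inr ⟨rfl, by rw [rsq_ax]; norm_num⟩)
  have hball : ∀ p ∈ Metric.ball z0 ε, p + vv ∈ Metric.ball (ax 1 : R4) ε := by
    intro p hp
    rw [mem_ball_sub, add_sub_cancel_right]
    exact hp
  have h12 : D.s₀ < D.s₁ := by linarith
  refine ⟨σ, τ, l0, l1, l2, ⟨hε, fun p hp => hLD p (hb0 hp), hinj.mono hb0, hσ, dσ, l0,
    l1.trans l2, e0, hor⟩, ⟨hε, fun p hp => ?_, fun p hp q hq he => ?_, hτ, dτ, l0.trans l1, l2,
    ?_, ?_⟩⟩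
  · exact ld_comp (ld_add vv p) (hLD _ (hb1 (hball p hp)))
  · have h1 := hinj (hb1 (hball p hp)) (hb1 (hball q hq)) he
    exact add_right_cancel h1
  · filter_upwards [e1] with s hs
    have h1 : ((s, ((0 : ℝ), (0 : ℂ))) : R4) + vv = (s, ((1 : ℝ), (0 : ℂ))) := by
      simp [vv]
    simp only [h1]
    exact hs
  · have g1 : fderiv ℝ (fun p => T (p + vv)) z0 = fderiv ℝ T (ax 1) := by
      rw [fderiv_comp_add_right, ax1_eq]
    rw [g1]
    have hseg : IsPreconnected (seg D.s₀ D.s₁) := (convex_seg _ _).isPreconnected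
    have a1 : ((σ (1 / 2), 0) : R4) ∈ seg D.s₀ D.s₁ := ⟨l0.le, (l1.trans l2).le, rfl⟩
    have a2 : ((τ (1 / 2), 0) : R4) ∈ seg D.s₀ D.s₁ := ⟨(l0.trans l1).le, l2.le, rfl⟩
    exact sign_aux hor (det_ne (hT.emb.1 _ m1)) (det_ne (D.emb.1 _ a2))
      (hDET T FB (Or.inl rfl) hT.emb.1 _ m0 _ m1) (hDET T FB (Or.inl rfl) hT.emb.1 _ m1 _ m0)
      (pos_of_pre hseg D.emb.1 a1 a2) (pos_of_pre hseg D.emb.1 a2 a1)

end NCT

/-- **NCT** (crossing germs are equivalent to germs with small round cuffs). -/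
theorem m_NCT (hCEN : StCEN) (hCL : Pool.Agent.Helper70.BI.StCL)
    (hF : Pool.Agent.Helper70.BI.StFam) (hDET : Pool.Agent.Helper70.BI.StDET) (hA1 : StA1) :
    StNCT := by
  intro D T hT
  obtain ⟨V, hV, hFV, hLD, hinj, hVU⟩ := NCT.exV hA1 hT
  have m0 : (Pool.Agent.Helper70.BI.ax 0 : R4) ∈ FB :=
    Or.inl (Or.inl ⟨rfl, by rw [NCT.rsq_ax]; norm_num⟩)
  have m1 : (Pool.Agent.Helper70.BI.ax 1 : R4) ∈ FB :=
    Or.inl (Or.inr ⟨rfl, by rw [NCT.rsq_ax]; norm_num⟩)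
  obtain ⟨ε0, hε0, hb0⟩ := Metric.isOpen_iff.1 hV _ (hFV m0)
  obtain ⟨ε1, hε1, hb1⟩ := Metric.isOpen_iff.1 hV _ (hFV m1)
  obtain ⟨ε, hε, le0, le1, le2⟩ : ∃ ε : ℝ, 0 < ε ∧ ε ≤ ε0 ∧ ε ≤ ε1 ∧ ε ≤ 1 / 20 :=
    ⟨min (min ε0 ε1) (1 / 20), by positivity, (min_le_left _ _).trans (min_le_left _ _),
      (min_le_left _ _).trans (min_le_right _ _), min_le_right _ _⟩
  have hb0' := (Metric.ball_subset_ball le0).trans hb0
  have hb1' := (Metric.ball_subset_ball le1).trans hb1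
  obtain ⟨σ, τ, l0, l1, l2, SA0, SA1⟩ := NCT.stra hDET hT hLD hinj hε hb0' hb1'
  obtain ⟨R0, r0, r0p, r0l, R00, S0, L0, A0, G0⟩ := hCEN D T σ ε SA0
  obtain ⟨R1, r1, r1p, r1l, R10, S1, L1, A1, G1⟩ := hCEN D _ τ ε SA1
  obtain ⟨kB, k0, k1⟩ := NCT.nfam hT hVU hFV (R0 := R0) (R1 := R1) (r0 := r0) (r1 := r1)
    (by linarith) (by linarith) ((Metric.ball_subset_ball r0l.le).trans hb0')
    ((Metric.ball_subset_ball r1l.le).trans hb1') S0 S1 L0 L1 A0 A1
  have N0 : ∀ y, (R0.comp (NCT.shD R1)).f (0, y) = y := by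
    intro y
    show R0.f (0, R1.f (0, y - NCT.vv) + NCT.vv) = y
    rw [R00, R10, sub_add_cancel]
  rw [Metric.eventually_nhds_iff] at G0 G1
  obtain ⟨δ0, hδ0, G0⟩ := G0
  obtain ⟨δ1, hδ1, G1⟩ := G1
  obtain ⟨δ, hδ, d0, d1, d2⟩ : ∃ δ : ℝ, 0 < δ ∧ δ ≤ δ0 ∧ δ ≤ δ1 ∧ δ ≤ 1 / 20 :=
    ⟨min (min δ0 δ1) (1 / 20), by positivity, (min_le_left _ _).trans (min_le_left _ _),
      (min_le_left _ _).trans (min_le_right _ _), min_le_right _ _⟩
  refine ⟨σ (1 / 2), τ (1 / 2), δ, l0, l1, l2, hδ, fun lam hlam => ?_⟩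
  have hl : lam ∈ Ioc (0 : ℝ) 1 := ⟨hlam.1, by linarith [hlam.2]⟩
  obtain ⟨f1, f2, f3⟩ := NCT.fam hCL hF hLD hinj N0 kB hl
  obtain ⟨-, -, h0⟩ := hCL 0 (Or.inl rfl)
  obtain ⟨-, -, h1⟩ := hCL 1 (Or.inr rfl)
  obtain ⟨-, -, con0, fix0, -, -, -⟩ := h0 lam hl
  obtain ⟨-, -, con1, fix1, -, -, -⟩ := h1 lam hl
  -- points close to the centre
  have hdist : ∀ (s : ℝ) (x : R3), |s - 1 / 2| < δ → ‖x‖ ≤ 1 / 2 →
      dist ((s, lam • x) : R4) z0 < δ := by
    intro s x hs hx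
    rw [Prod.dist_eq]
    refine max_lt ?_ ?_
    · rw [Real.dist_eq]
      exact hs
    · have e1 : dist (lam • x) ((0 : ℝ), (0 : ℂ)) = ‖lam • x‖ := dist_zero_right _
      have e2 : ‖lam • x‖ = lam * ‖x‖ := by
        rw [norm_smul, Real.norm_of_nonneg hlam.1.le]
      show dist (lam • x) ((0 : ℝ), (0 : ℂ)) < δ
      rw [e1, e2]
      nlinarith [hlam.1, hlam.2, norm_nonneg x]
  refine ⟨_, ⟨f1, f2, ?_, ?_⟩, f3⟩
  · intro p hp
    have c1 : ∀ᶠ q in 𝓝 p, rsq 0 q < 1 / 20 :=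
      (NCT.rsq_cont 0).continuousAt.eventually (gt_mem_nhds (by rw [hp.2]; norm_num))
    have c2 : ∀ᶠ q in 𝓝 p, 1 / 10 < rsq 1 q :=
      (NCT.rsq_cont 1).continuousAt.eventually (lt_mem_nhds (NCT.far1 ⟨hp.1, hp.2.le⟩))
    have c3 : ∀ᶠ q : R4 in 𝓝 p, |q.1 - 1 / 2| < δ := by
      have : Continuous fun q : R4 => |q.1 - 1 / 2| := by fun_prop
      refine this.continuousAt.eventually (gt_mem_nhds ?_)
      show |p.1 - 1 / 2| < δ
      rw [hp.1]
      simpa using hδ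
    filter_upwards [c1, c2, c3] with q q1 q2 q3
    have hn : ‖q.2‖ ≤ 1 / 2 := by
      have := NCT.norm_le_of_rsq q1
      rwa [show pc 0 = 0 from rfl, sub_zero] at this
    have e1 : Pool.Agent.Helper70.BI.clc 1 lam q = q := fix1 q (by linarith)
    have e2 : Pool.Agent.Helper70.BI.clc 0 lam q = (q.1, lam • q.2) := by
      rw [con0 q q1.le]
      rw [show pc 0 = 0 from rfl, sub_zero, zero_add]
    have hd := hdist q.1 q.2 q3 hn
    rw [e1, e2, k0 1 _ (lt_of_lt_of_le hd (by linarith))]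
    have := G0 (lt_of_lt_of_le hd d0)
    exact this
  · intro p hp
    have c1 : ∀ᶠ q in 𝓝 p, rsq 1 q < 1 / 20 :=
      (NCT.rsq_cont 1).continuousAt.eventually (gt_mem_nhds (by rw [hp.2]; norm_num))
    have c3 : ∀ᶠ q : R4 in 𝓝 p, |q.1 - 1 / 2| < δ := by
      have : Continuous fun q : R4 => |q.1 - 1 / 2| := by fun_prop
      refine this.continuousAt.eventually (gt_mem_nhds ?_)
      show |p.1 - 1 / 2| < δ
      rw [hp.1]
      simpa using hδ
    filter_upwards [c1, c3] with q q1 q3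
    have hn : ‖q.2 - pc 1‖ ≤ 1 / 2 := NCT.norm_le_of_rsq q1
    have hd := hdist q.1 (q.2 - pc 1) q3 hn
    have e1 : Pool.Agent.Helper70.BI.clc 1 lam q = (q.1, pc 1 + lam • (q.2 - pc 1)) :=
      con1 q q1.le
    have e4 : ((q.1, pc 1 + lam • (q.2 - pc 1)) : R4) - NCT.vv = (q.1, lam • (q.2 - pc 1)) := by
      refine Prod.ext ?_ ?_
      · simp [NCT.vv]
      · show pc 1 + lam • (q.2 - pc 1) - ((1 : ℝ), (0 : ℂ)) = lam • (q.2 - pc 1)
        exact add_sub_cancel_left _ _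
    have hmem : ((q.1, pc 1 + lam • (q.2 - pc 1)) : R4) ∈
        Metric.ball (Pool.Agent.Helper70.BI.ax 1) (1 / 10) := by
      rw [NCT.mem_ball_sub, e4]
      exact lt_of_lt_of_le hd (by linarith)
    have e2 : Pool.Agent.Helper70.BI.clc 0 lam (q.1, pc 1 + lam • (q.2 - pc 1)) =
        (q.1, pc 1 + lam • (q.2 - pc 1)) := by
      refine fix0 _ ?_
      have h3 := abs_lt.1 (NCT.ball_abs hmem)
      simp only [rsq, nsq] at h3 ⊢
      nlinarith [h3.1, h3.2, sq_nonneg (pc 1 + lam • (q.2 - pc 1)).2.re,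
        sq_nonneg (pc 1 + lam • (q.2 - pc 1)).2.im]
    rw [e1, e2, k1 1 _ hmem, e4]
    have := G1 (lt_of_lt_of_le hd d1)
    exact this

end Pool.Agent.Helper70.H


end

/-! ## Helper70.BI.H.M_SLD -/

section

/-!
# Project BI, stage 3 (H), section NORM: sliding along the base arc (`StSLD`)
-/

set_option autoImplicit false

open scoped Manifold ContDiff Topology ComplexConjugate
open Set Filter Pool.Agent.Helper65.Barb Pool.Agent.Helper18.BI

namespace Pool.Agent.Helper70.H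

open Pool.Agent.Helper27.H (ArcD seg)
open Pool.Agent.Helper70.BI (I4 LD Eqv NearEq pc StPT StGL ld_iff ld_comp ld_congr)

namespace SLD

/-- the reparametrization of the base arc -/
theorem exists_rep (hRM : Pool.Agent.Helper70.BI.StRM) {s₀ s₁ a b a' b' : ℝ} (h1 : s₀ < a)
    (h2 : a < b) (h3 : b < s₁) (h4 : s₀ < a') (h5 : a' < b') (h6 : b' < s₁) :
    ∃ (m : ℝ → ℝ) (η : ℝ), 0 < η ∧ ContDiff ℝ ∞ m ∧ (∀ s, 0 < deriv m s) ∧
      (∀ s, (s ≤ s₀ + η ∨ s₁ - η ≤ s) → m s = s) ∧ (∀ᶠ s in 𝓝 a, m s = s + (a' - a)) ∧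
      ∀ᶠ s in 𝓝 b, m s = s + (b' - b) := by
  obtain ⟨c, hc⟩ : ∃ c : ℝ, c = 5 / 3 * (s₁ - s₀) := ⟨_, rfl⟩
  have hcpos : 0 < c := by rw [hc]; linarith
  have hcne : c ≠ 0 := hcpos.ne'
  obtain ⟨φ, hφ⟩ : ∃ φ : ℝ → ℝ, φ = fun s => 1 / 5 + (s - s₀) / c := ⟨_, rfl⟩
  have φdef : ∀ s, φ s = 1 / 5 + (s - s₀) / c := fun s => by rw [hφ]
  have φlt : ∀ s t, s < t → φ s < φ t := by
    intro s t hst
    rw [φdef, φdef]
    have : (s - s₀) / c < (t - s₀) / c := div_lt_div_of_pos_right (by linarith) hcpos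
    linarith
  have φ0 : φ s₀ = 1 / 5 := by rw [φdef]; simp
  have φ1 : φ s₁ = 4 / 5 := by
    have h01 : s₁ - s₀ = 3 / 5 * c := by rw [hc]; ring
    rw [φdef, h01, mul_div_assoc, div_self hcne]
    norm_num
  have φc : ContDiff ℝ ∞ φ := by
    rw [hφ]
    exact contDiff_const.add ((contDiff_id.sub contDiff_const).div_const c)
  have φd : ∀ s, HasDerivAt φ (1 / c) s := by
    intro s
    rw [hφ]
    have h := (((hasDerivAt_id s).sub_const s₀).div_const c).const_add (1 / 5)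
    exact h
  obtain ⟨m₀, ⟨m0c, m0d, η₀, hη₀, m0id⟩, m0a, m0b⟩ := hRM.2 (φ a) (φ b) (φ a') (φ b')
    (fun x => x + (φ a' - φ a)) (fun x => x + (φ b' - φ b))
    (by rw [← φ0]; exact φlt _ _ h1) (φlt _ _ h2) (by rw [← φ1]; exact φlt _ _ h3)
    (by rw [← φ0]; exact φlt _ _ h4) (φlt _ _ h5) (by rw [← φ1]; exact φlt _ _ h6)
    (Eventually.of_forall fun x => contDiffAt_id.add contDiffAt_const)
    (Eventually.of_forall fun x => contDiffAt_id.add contDiffAt_const)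
    (by simp) (by simp)
    (by
      have : HasDerivAt (fun x : ℝ => x + (φ a' - φ a)) 1 (φ a) :=
        (hasDerivAt_id (φ a)).add_const _
      rw [this.deriv]; exact one_pos)
    (by
      have : HasDerivAt (fun x : ℝ => x + (φ b' - φ b)) 1 (φ b) :=
        (hasDerivAt_id (φ b)).add_const _
      rw [this.deriv]; exact one_pos)
  have key : ∀ s, s₀ + c * (φ s - 1 / 5) = s := by
    intro s
    rw [φdef]
    have : c * (1 / 5 + (s - s₀) / c - 1 / 5) = s - s₀ := by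
      rw [add_sub_cancel_left]
      exact mul_div_cancel₀ _ hcne
    rw [this]; ring
  refine ⟨fun s => s₀ + c * (m₀ (φ s) - 1 / 5), c * η₀, mul_pos hcpos hη₀, ?_, ?_, ?_, ?_, ?_⟩
  · exact contDiff_const.add (contDiff_const.mul ((m0c.comp φc).sub contDiff_const))
  · intro s
    have hm : HasDerivAt m₀ (deriv m₀ (φ s)) (φ s) :=
      (m0c.differentiable (by simp) (φ s)).hasDerivAt
    have h := (((hm.comp s (φd s)).sub_const (1 / 5)).const_mul c).const_add s₀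
    have e : deriv (fun s => s₀ + c * (m₀ (φ s) - 1 / 5)) s = c * (deriv m₀ (φ s) * (1 / c)) :=
      h.deriv
    rw [e]
    have h0 := m0d (φ s)
    have h1' : 0 < 1 / c := by positivity
    positivity
  · rintro s (hs | hs)
    · have h : φ s ≤ 1 / 5 + η₀ := by
        rw [φdef]
        have : (s - s₀) / c ≤ η₀ := by
          rw [div_le_iff₀ hcpos]; linarith
        linarith
      show s₀ + c * (m₀ (φ s) - 1 / 5) = s
      rw [m0id _ (Or.inl h), key]
    · have h : 4 / 5 - η₀ ≤ φ s := by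
        have e : (4 / 5 : ℝ) = φ s₁ := φ1.symm
        rw [e, φdef, φdef]
        have : (s₁ - s) / c ≤ η₀ := by
          rw [div_le_iff₀ hcpos]; linarith
        have e2 : (s₁ - s₀) / c - (s - s₀) / c = (s₁ - s) / c := by
          rw [← sub_div]; congr 1; ring
        linarith
      show s₀ + c * (m₀ (φ s) - 1 / 5) = s
      rw [m0id _ (Or.inr h), key]
  · have hcont : ContinuousAt φ a := φc.continuous.continuousAt
    filter_upwards [hcont.eventually m0a] with s hs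
    show s₀ + c * (m₀ (φ s) - 1 / 5) = s + (a' - a)
    rw [hs]
    have k1 := key s
    have k2 := key a
    have k3 := key a'
    linarith
  · have hcont : ContinuousAt φ b := φc.continuous.continuousAt
    filter_upwards [hcont.eventually m0b] with s hs
    show s₀ + c * (m₀ (φ s) - 1 / 5) = s + (b' - b)
    rw [hs]
    have k1 := key s
    have k2 := key b
    have k3 := key b'
    linarith

/-- the model slide -/
noncomputable def Sig (χ : R3 → ℝ) (m : ℝ → ℝ) (t : ℝ) (p : R4) : R4 :=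
  (p.1 + step t * χ p.2 * (m p.1 - p.1), p.2)

theorem contDiff_Sig {χ : R3 → ℝ} {m : ℝ → ℝ} (hχ : ContDiff ℝ ∞ χ) (hm : ContDiff ℝ ∞ m) :
    ContDiff ℝ ∞ (fun z : ℝ × R4 => Sig χ m z.1 z.2) := by
  have h1 : ContDiff ℝ ∞ (fun z : ℝ × R4 => z.2.1) := contDiff_fst.comp contDiff_snd
  have h2 : ContDiff ℝ ∞ (fun z : ℝ × R4 => z.2.2) := contDiff_snd.comp contDiff_snd
  have h3 : ContDiff ℝ ∞ (fun z : ℝ × R4 => step z.1) := contDiff_step.comp contDiff_fst
  exact (h1.add ((h3.mul (hχ.comp h2)).mul ((hm.comp h1).sub h1))).prodMk h2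

theorem Sig_snd (χ : R3 → ℝ) (m : ℝ → ℝ) (t : ℝ) (p : R4) : (Sig χ m t p).2 = p.2 := rfl

theorem Sig_zero (χ : R3 → ℝ) (m : ℝ → ℝ) (p : R4) : Sig χ m 0 p = p := by
  simp [Sig, step_of_nonpos (le_refl (0 : ℝ))]

theorem theta_mem {χ : R3 → ℝ} (hχ : ∀ x, χ x ∈ Icc (0 : ℝ) 1) (t : ℝ) (x : R3) :
    step t * χ x ∈ Icc (0 : ℝ) 1 := by
  have h1 := step_mem t
  have h2 := hχ x
  exact ⟨mul_nonneg h1.1 h2.1, mul_le_one₀ h1.2 h2.1 h2.2⟩

theorem Sig_injective {χ : R3 → ℝ} {m : ℝ → ℝ} (hχ : ∀ x, χ x ∈ Icc (0 : ℝ) 1)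
    (hm : StrictMono m) (t : ℝ) : Function.Injective (Sig χ m t) := by
  intro p q hpq
  have e20 := congrArg Prod.snd hpq
  have e10 := congrArg Prod.fst hpq
  have e2 : p.2 = q.2 := e20
  have e1 : p.1 + step t * χ p.2 * (m p.1 - p.1) = q.1 + step t * χ q.2 * (m q.1 - q.1) := e10
  rw [← e2] at e1
  obtain ⟨θ, hθ⟩ : ∃ θ : ℝ, θ = step t * χ p.2 := ⟨_, rfl⟩
  have hθm : θ ∈ Icc (0 : ℝ) 1 := by rw [hθ]; exact theta_mem hχ t p.2
  rw [← hθ] at e1
  have aux : ∀ u v : ℝ, u < v → u + θ * (m u - u) < v + θ * (m v - v) := by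
    intro u v huv
    have h1 := hm huv
    rcases hθm.1.lt_or_eq with h | h
    · have h3 : 0 < θ * (m v - m u) := mul_pos h (by linarith)
      have h4 : 0 ≤ (1 - θ) * (v - u) := mul_nonneg (by linarith [hθm.2]) (by linarith)
      nlinarith
    · rw [← h]; linarith
  have e3 : p.1 = q.1 := by
    rcases lt_trichotomy p.1 q.1 with h | h | h
    · exact absurd e1 (aux _ _ h).ne
    · exact h
    · exact absurd e1 (aux _ _ h).ne'
  exact Prod.ext e3 e2

theorem ld_Sig {χ : R3 → ℝ} {m : ℝ → ℝ} (hχs : ContDiff ℝ ∞ χ) (hms : ContDiff ℝ ∞ m)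
    (hχ : ∀ x, χ x ∈ Icc (0 : ℝ) 1) (hm : ∀ s, 0 < deriv m s) (t : ℝ) (p : R4) :
    LD (Sig χ m t) p := by
  have hs : ContDiff ℝ ∞ (Sig χ m t) := (contDiff_Sig hχs hms).comp (contDiff_prodMk_right t)
  rw [ld_iff]
  refine ⟨Eventually.of_forall fun q => hs.contDiffAt, ?_⟩
  have d1 : HasFDerivAt (fun q : R4 => q.1) (ContinuousLinearMap.fst ℝ ℝ R3) p := hasFDerivAt_fst
  have d2 : HasFDerivAt (fun q : R4 => q.2) (ContinuousLinearMap.snd ℝ ℝ R3) p := hasFDerivAt_snd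
  have d3 : HasFDerivAt χ (fderiv ℝ χ p.2) p.2 := (hχs.differentiable (by simp) p.2).hasFDerivAt
  have d4 : HasFDerivAt (fun q : R4 => χ q.2)
      ((fderiv ℝ χ p.2).comp (ContinuousLinearMap.snd ℝ ℝ R3)) p := d3.comp p d2
  have d5 : HasDerivAt m (deriv m p.1) p.1 := (hms.differentiable (by simp) p.1).hasDerivAt
  have d6 : HasFDerivAt (fun q : R4 => m q.1)
      (deriv m p.1 • ContinuousLinearMap.fst ℝ ℝ R3) p := d5.comp_hasFDerivAt p d1
  have d7 := (d1.add ((d4.const_mul (step t)).mul (d6.sub d1))).prodMk d2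
  have d8 : HasFDerivAt (Sig χ m t) _ p := d7
  rw [d8.fderiv]
  rw [injective_iff_map_eq_zero]
  intro v hv
  have hv2 : v.2 = 0 := by
    have := congrArg Prod.snd hv
    simpa using this
  have hv1 := congrArg Prod.fst hv
  simp [hv2] at hv1
  obtain ⟨θ, hθ⟩ : ∃ θ : ℝ, θ = step t * χ p.2 := ⟨_, rfl⟩
  have hθm : θ ∈ Icc (0 : ℝ) 1 := by rw [hθ]; exact theta_mem hχ t p.2
  have e : v.1 * ((1 - θ) + θ * deriv m p.1) = 0 := by
    rw [hθ]
    linarith [hv1]
  have hpos : 0 < (1 - θ) + θ * deriv m p.1 := by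
    rcases hθm.1.lt_or_eq with h | h
    · have := mul_pos h (hm p.1)
      linarith [hθm.2]
    · rw [← h]; linarith
  have e1 : v.1 = 0 := by
    rcases mul_eq_zero.1 e with h | h
    · exact h
    · exact absurd h hpos.ne'
  exact Prod.ext e1 hv2

/-- the box -/
def Kbox (l u ρ : ℝ) : Set R4 := Icc l u ×ˢ Metric.closedBall (0 : R3) ρ

theorem Sig_off {χ : R3 → ℝ} {m : ℝ → ℝ} {l u ρ : ℝ} (h0 : ∀ x, ρ < ‖x‖ → χ x = 0)
    (hm : ∀ s, (s ≤ l ∨ u ≤ s) → m s = s) (t : ℝ) {p : R4} (hp : p ∉ Kbox l u ρ) :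
    Sig χ m t p = p := by
  have key : step t * χ p.2 * (m p.1 - p.1) = 0 := by
    by_cases h1 : p.1 ≤ l ∨ u ≤ p.1
    · rw [hm _ h1, sub_self, mul_zero]
    · push Not at h1
      have h2 : ρ < ‖p.2‖ := by
        by_contra h
        push Not at h
        exact hp ⟨⟨h1.1.le, h1.2.le⟩, mem_closedBall_zero_iff.2 h⟩
      rw [h0 _ h2, mul_zero, zero_mul]
  show (p.1 + step t * χ p.2 * (m p.1 - p.1), p.2) = p
  rw [key, add_zero]

theorem Sig_mem {χ : R3 → ℝ} {m : ℝ → ℝ} {l u ρ : ℝ} (hχ : ∀ x, χ x ∈ Icc (0 : ℝ) 1)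
    (hmono : StrictMono m) (hm : ∀ s, (s ≤ l ∨ u ≤ s) → m s = s) (t : ℝ) {p : R4}
    (hp : p ∈ Kbox l u ρ) : Sig χ m t p ∈ Kbox l u ρ := by
  have hθm := theta_mem hχ t p.2
  have h1 : l ≤ m p.1 := by
    have := hmono.monotone hp.1.1
    rwa [hm l (Or.inl le_rfl)] at this
  have h2 : m p.1 ≤ u := by
    have := hmono.monotone hp.1.2
    rwa [hm u (Or.inr le_rfl)] at this
  refine ⟨⟨?_, ?_⟩, hp.2⟩
  · show l ≤ p.1 + step t * χ p.2 * (m p.1 - p.1)
    have e : p.1 + step t * χ p.2 * (m p.1 - p.1) =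
      l + ((1 - step t * χ p.2) * (p.1 - l) + step t * χ p.2 * (m p.1 - l)) := by ring
    rw [e]
    have h3 := mul_nonneg (sub_nonneg.2 hθm.2) (sub_nonneg.2 hp.1.1)
    have h4 := mul_nonneg hθm.1 (sub_nonneg.2 h1)
    linarith
  · show p.1 + step t * χ p.2 * (m p.1 - p.1) ≤ u
    have e : p.1 + step t * χ p.2 * (m p.1 - p.1) =
      u - ((1 - step t * χ p.2) * (u - p.1) + step t * χ p.2 * (u - m p.1)) := by ring
    rw [e]
    have h3 := mul_nonneg (sub_nonneg.2 hθm.2) (sub_nonneg.2 hp.1.2)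
    have h4 := mul_nonneg hθm.1 (sub_nonneg.2 h2)
    linarith

theorem isCompact_Kbox (l u ρ : ℝ) : IsCompact (Kbox l u ρ) :=
  isCompact_Icc.prod (isCompact_closedBall 0 ρ)

/-- tube lemma -/
theorem exists_tube {O : Set R4} (hO : IsOpen O) {l u : ℝ}
    (h : ∀ s ∈ Icc l u, ((s, 0) : R4) ∈ O) : ∃ ρ : ℝ, 0 < ρ ∧ Kbox l u ρ ⊆ O := by
  have hs : Icc l u ×ˢ {(0 : R3)} ⊆ O := by
    rintro ⟨s, x⟩ ⟨h1, h2⟩
    have h3 : x = 0 := h2
    rw [h3]; exact h s h1
  obtain ⟨a, b, -, hb, h1, h2, h3⟩ := generalized_tube_lemma isCompact_Icc isCompact_singleton hO hs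
  obtain ⟨ρ, hρ, hρb⟩ := Metric.nhds_basis_closedBall.mem_iff.1
    (hb.mem_nhds (h2 (mem_singleton (0 : R3))))
  exact ⟨ρ, hρ, fun p hp => h3 ⟨h1 hp.1, hρb hp.2⟩⟩

theorem isCompact_seg (s₀ s₁ : ℝ) : IsCompact (seg s₀ s₁) := by
  have : seg s₀ s₁ = Icc s₀ s₁ ×ˢ {(0 : R3)} := by
    ext p
    constructor
    · rintro ⟨h1, h2, h3⟩
      exact ⟨⟨h1, h2⟩, h3⟩
    · rintro ⟨⟨h1, h2⟩, h3⟩
      exact ⟨h1, h2, h3⟩
  rw [this]
  exact isCompact_Icc.prod isCompact_singleton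

end SLD

open SLD

theorem m_SLD (hRM : Pool.Agent.Helper70.BI.StRM) (hA1 : StA1) : StSLD := by
  classical
  intro D a b a' b' h1 h2 h3 h4 h5 h6
  obtain ⟨m, η, hη, mc, md, mid, ma, mb⟩ := exists_rep hRM h1 h2 h3 h4 h5 h6
  have mmono : StrictMono m := strictMono_of_deriv_pos md
  -- the diffeomorphism onto its image
  obtain ⟨Φ, hL, hΦ⟩ := hA1 R4 R4 R4 I4 R4 D.J (seg D.s₀ D.s₁) (isCompact_seg _ _) D.emb.1 D.emb.2
  have so : IsOpen Φ.source := Φ.open_source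
  have tgo : IsOpen Φ.target := Φ.open_target
  have Φc : ContDiffOn ℝ ∞ Φ Φ.source := contMDiffOn_iff_contDiffOn.1 Φ.contMDiffOn_toFun
  have Φs : ContDiffOn ℝ ∞ Φ.symm Φ.target := contMDiffOn_iff_contDiffOn.1 Φ.contMDiffOn_invFun
  have Φl : ∀ p ∈ Φ.source, Φ.symm (Φ p) = p := fun p hp => Φ.left_inv hp
  have Φr : ∀ y ∈ Φ.target, Φ (Φ.symm y) = y := fun y hy => Φ.right_inv hy
  have Φmt : ∀ p ∈ Φ.source, Φ p ∈ Φ.target := fun p hp => Φ.map_source hp
  have Φms : ∀ y ∈ Φ.target, Φ.symm y ∈ Φ.source := fun y hy => Φ.map_target hy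
  have Φinj : ∀ p ∈ Φ.source, ∀ q ∈ Φ.source, Φ p = Φ q → p = q := by
    intro p hp q hq h
    rw [← Φl p hp, h, Φl q hq]
  have ldΦ : ∀ p ∈ Φ.source, LD Φ p := fun p hp => ⟨Φ, hp, fun _ _ => rfl⟩
  have ldΦs : ∀ y ∈ Φ.target, LD Φ.symm y := fun y hy => ⟨Φ.symm, hy, fun _ _ => rfl⟩
  -- the tube
  have hO : IsOpen (Φ.source ∩ Φ ⁻¹' D.U) := Φc.continuousOn.isOpen_inter_preimage so D.openU
  obtain ⟨ρ, hρ, hK⟩ := exists_tube (l := D.s₀ + η) (u := D.s₁ - η) hO (by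
    intro s hs
    have hs1 : D.s₀ ≤ s := by linarith [hs.1]
    have hs2 : s ≤ D.s₁ := by linarith [hs.2]
    have hp : ((s, 0) : R4) ∈ Φ.source := hL ⟨hs1, hs2, rfl⟩
    refine ⟨hp, ?_⟩
    show Φ (s, 0) ∈ D.U
    rw [hΦ _ hp, D.core s ⟨hs1, hs2⟩]
    exact D.mem s ⟨by linarith [hs.1], by linarith [hs.2]⟩)
  obtain ⟨K, hKdef⟩ : ∃ K : Set R4, K = Kbox (D.s₀ + η) (D.s₁ - η) ρ := ⟨_, rfl⟩
  rw [← hKdef] at hK
  have Kc : IsCompact K := by rw [hKdef]; exact isCompact_Kbox _ _ _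
  have Ks : K ⊆ Φ.source := fun p hp => (hK hp).1
  have KU : ∀ p ∈ K, Φ p ∈ D.U := fun p hp => (hK hp).2
  have CK : IsClosed (Φ '' K) := (Kc.image_of_continuousOn (Φc.continuousOn.mono Ks)).isClosed
  have Ct : Φ '' K ⊆ Φ.target := by
    rintro y ⟨p, hp, rfl⟩
    exact Φmt p (Ks hp)
  -- the bump function
  obtain ⟨χ, χc, χm, χ1, χ0⟩ : ∃ χ : R3 → ℝ, ContDiff ℝ ∞ χ ∧ (∀ x, χ x ∈ Icc (0 : ℝ) 1) ∧
      (∀ x, ‖x‖ ≤ ρ / 3 → χ x = 1) ∧ (∀ x, ρ < ‖x‖ → χ x = 0) := by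
    obtain ⟨f⟩ : Nonempty (ContDiffBump (0 : R3)) := inferInstance
    refine ⟨(⟨ρ / 3, ρ / 2, by positivity, by linarith⟩ : ContDiffBump (0 : R3)), ?_, ?_, ?_, ?_⟩
    · exact ContDiffBump.contDiff _
    · exact fun x => ⟨ContDiffBump.nonneg _, ContDiffBump.le_one _⟩
    · exact fun x hx => ContDiffBump.one_of_mem_closedBall _ (mem_closedBall_zero_iff.2 hx)
    · intro x hx
      refine ContDiffBump.zero_of_le_dist _ ?_
      rw [dist_zero_right]
      show ρ / 2 ≤ ‖x‖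
      linarith
  obtain ⟨σ, hσ⟩ : ∃ σ : ℝ → R4 → R4, σ = Sig χ m := ⟨_, rfl⟩
  have σc : ContDiff ℝ ∞ (fun z : ℝ × R4 => σ z.1 z.2) := by rw [hσ]; exact contDiff_Sig χc mc
  have σ2 : ∀ t p, (σ t p).2 = p.2 := by rw [hσ]; exact fun _ _ => rfl
  have σ0 : ∀ p, σ 0 p = p := by rw [hσ]; exact Sig_zero χ m
  have σi : ∀ t, Function.Injective (σ t) := by rw [hσ]; exact Sig_injective χm mmono
  have σld : ∀ t p, LD (σ t) p := by rw [hσ]; exact ld_Sig χc mc χm md
  have σoff : ∀ t p, p ∉ K → σ t p = p := by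
    rw [hσ, hKdef]; exact fun t p hp => Sig_off χ0 mid t hp
  have σmem : ∀ t, ∀ p ∈ K, σ t p ∈ K := by
    rw [hσ, hKdef]; exact fun t p hp => Sig_mem χm mmono mid t hp
  have σsrc : ∀ t, ∀ p ∈ Φ.source, σ t p ∈ Φ.source := by
    intro t p hp
    by_cases h : p ∈ K
    · exact Ks (σmem t p h)
    · rw [σoff t p h]; exact hp
  obtain ⟨S, hS⟩ : ∃ S : ℝ × R4 → R4, S = fun z =>
      if z.2 ∈ Φ '' K then Φ (σ z.1 (Φ.symm z.2)) else z.2 := ⟨_, rfl⟩
  have Sin : ∀ t y, y ∈ Φ '' K → S (t, y) = Φ (σ t (Φ.symm y)) := by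
    intro t y hy; rw [hS]; exact if_pos hy
  have Sout : ∀ t y, y ∉ Φ '' K → S (t, y) = y := by
    intro t y hy; rw [hS]; exact if_neg hy
  have Stgt : ∀ t y, y ∈ Φ.target → S (t, y) = Φ (σ t (Φ.symm y)) := by
    intro t y hy
    by_cases h : y ∈ Φ '' K
    · exact Sin t y h
    · have h' : Φ.symm y ∉ K := fun h' => h ⟨_, h', Φr y hy⟩
      rw [Sout t y h, σoff t _ h', Φr y hy]
  have symK : ∀ y ∈ Φ '' K, Φ.symm y ∈ K := by
    rintro y ⟨p, hp, rfl⟩
    rw [Φl p (Ks hp)]; exact hp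
  have Smem : ∀ t y, y ∈ Φ '' K → S (t, y) ∈ Φ '' K := by
    intro t y hy
    rw [Sin t y hy]
    exact ⟨_, σmem t _ (symK y hy), rfl⟩
  -- smoothness
  have Sc : ContDiff ℝ ∞ S := by
    rw [contDiff_iff_contDiffAt]
    rintro ⟨t, y⟩
    by_cases hy : y ∈ Φ.target
    · have e : S =ᶠ[𝓝 (t, y)] fun z => Φ (σ z.1 (Φ.symm z.2)) := by
        have : ∀ᶠ z : ℝ × R4 in 𝓝 (t, y), z.2 ∈ Φ.target :=
          continuousAt_snd.eventually (tgo.mem_nhds hy)
        filter_upwards [this] with z hz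
        exact Stgt z.1 z.2 hz
      refine ContDiffAt.congr_of_eventuallyEq ?_ e
      have c1 : ContDiffAt ℝ ∞ (fun z : ℝ × R4 => Φ.symm z.2) (t, y) :=
        (Φs.contDiffAt (tgo.mem_nhds hy)).comp (t, y) contDiffAt_snd
      have c2 : ContDiffAt ℝ ∞ (fun z : ℝ × R4 => σ z.1 (Φ.symm z.2)) (t, y) :=
        ContDiffAt.comp (t, y) (g := fun z : ℝ × R4 => σ z.1 z.2)
          (f := fun z : ℝ × R4 => (z.1, Φ.symm z.2)) σc.contDiffAt (contDiffAt_fst.prodMk c1)
      have hsrc : σ t (Φ.symm y) ∈ Φ.source := σsrc t _ (Φms y hy)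
      exact ContDiffAt.comp (t, y) (g := Φ) (f := fun z : ℝ × R4 => σ z.1 (Φ.symm z.2))
        (Φc.contDiffAt (so.mem_nhds hsrc)) c2
    · have hy' : y ∉ Φ '' K := fun h => hy (Ct h)
      have e : S =ᶠ[𝓝 (t, y)] fun z => z.2 := by
        have : ∀ᶠ z : ℝ × R4 in 𝓝 (t, y), z.2 ∈ (Φ '' K)ᶜ :=
          continuousAt_snd.eventually (CK.isOpen_compl.mem_nhds hy')
        filter_upwards [this] with z hz
        exact Sout z.1 z.2 hz
      exact contDiffAt_snd.congr_of_eventuallyEq e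
  -- embeddings
  have Se : ∀ t, EmbOn I4 (fun y => S (t, y)) univ := by
    intro t
    refine ⟨fun y _ => ?_, ?_⟩
    · by_cases hy : y ∈ Φ.target
      · have l1 : LD (σ t ∘ Φ.symm) y := ld_comp (ldΦs y hy) (σld t _)
        have l2 : LD (Φ ∘ (σ t ∘ Φ.symm)) y := ld_comp l1 (ldΦ _ (σsrc t _ (Φms y hy)))
        refine ld_congr ?_ l2
        filter_upwards [tgo.mem_nhds hy] with z hz
        exact (Stgt t z hz).symm
      · have hy' : y ∉ Φ '' K := fun h => hy (Ct h)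
        have l0 : LD (fun z : R4 => z) y := by
          rw [ld_iff]
          refine ⟨Eventually.of_forall fun q => contDiffAt_id, ?_⟩
          rw [fderiv_fun_id]
          exact fun v w h => h
        refine ld_congr ?_ l0
        filter_upwards [CK.isOpen_compl.mem_nhds hy'] with z hz
        exact (Sout t z hz).symm
    · intro y _ y' _ h
      have h : S (t, y) = S (t, y') := h
      by_cases hy : y ∈ Φ '' K
      · by_cases hy' : y' ∈ Φ '' K
        · rw [Sin t y hy, Sin t y' hy'] at h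
          have e := σi t (Φinj _ (Ks (σmem t _ (symK y hy))) _ (Ks (σmem t _ (symK y' hy'))) h)
          rw [← Φr y (Ct hy), e, Φr y' (Ct hy')]
        · exfalso
          have h7 := Smem t y hy
          rw [h, Sout t y' hy'] at h7
          exact hy' h7
      · by_cases hy' : y' ∈ Φ '' K
        · exfalso
          have h7 := Smem t y' hy'
          rw [← h, Sout t y hy] at h7
          exact hy h7
        · rwa [Sout t y hy, Sout t y' hy'] at h
  -- the values near the two points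
  have near : ∀ c c' : ℝ, D.s₀ < c → c < D.s₁ → (∀ᶠ s in 𝓝 c, m s = s + (c' - c)) →
      ∃ δ : ℝ, 0 < δ ∧ ∀ p : R4, |p.1 - c| < δ → ‖p.2‖ < δ →
        S (1, D.J p) = D.J (p.1 + (c' - c), p.2) := by
    intro c c' hc1 hc2 hmc
    obtain ⟨δ₁, hδ₁, H1⟩ := Metric.eventually_nhds_iff.1 hmc
    have hsrc : ((c, 0) : R4) ∈ Φ.source := hL ⟨hc1.le, hc2.le, rfl⟩
    obtain ⟨δ₂, hδ₂, H2⟩ := Metric.isOpen_iff.1 so _ hsrc
    refine ⟨min (min δ₁ δ₂) (ρ / 3), lt_min (lt_min hδ₁ hδ₂) (by positivity), ?_⟩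
    intro p hp1 hp2
    have b1 : |p.1 - c| < δ₁ := hp1.trans_le ((min_le_left _ _).trans (min_le_left _ _))
    have b2 : |p.1 - c| < δ₂ := hp1.trans_le ((min_le_left _ _).trans (min_le_right _ _))
    have b3 : ‖p.2‖ < δ₂ := hp2.trans_le ((min_le_left _ _).trans (min_le_right _ _))
    have b4 : ‖p.2‖ ≤ ρ / 3 := (hp2.trans_le (min_le_right _ _)).le
    have hps : p ∈ Φ.source := by
      refine H2 ?_
      rw [Metric.mem_ball, Prod.dist_eq]
      refine max_lt ?_ ?_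
      · show dist p.1 c < δ₂
        rwa [Real.dist_eq]
      · show dist p.2 0 < δ₂
        rwa [dist_zero_right]
    have hm1 : m p.1 = p.1 + (c' - c) := H1 (by rwa [Real.dist_eq])
    have e1 : σ 1 p = (p.1 + (c' - c), p.2) := by
      rw [hσ]
      show (p.1 + step 1 * χ p.2 * (m p.1 - p.1), p.2) = (p.1 + (c' - c), p.2)
      rw [step_of_one_le le_rfl, χ1 _ b4, hm1]
      congr 1; ring
    have hs' : σ 1 p ∈ Φ.source := σsrc 1 p hps
    rw [← hΦ p hps, Stgt 1 _ (Φmt p hps), Φl p hps, hΦ _ hs', e1]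
  obtain ⟨δa, hδa, Ha⟩ := near a a' h1 (h2.trans h3) ma
  obtain ⟨δb, hδb, Hb⟩ := near b b' (h1.trans h2) h3 mb
  refine ⟨S, min δa δb, Sc, ?_, lt_min hδa hδb, fun t _ => Se t, ?_, ?_, ?_⟩
  · intro y
    by_cases hy : y ∈ Φ '' K
    · rw [Sin 0 y hy, σ0, Φr y (Ct hy)]
    · exact Sout 0 y hy
  · rintro t - y ⟨hyU, hyA⟩
    by_cases hy : y ∈ Φ '' K
    · have hk := symK y hy
      have hk' := σmem t _ hk
      rw [Sin t y hy]
      refine ⟨KU _ hk', ?_⟩
      rintro ⟨q, hq, hqe⟩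
      have hq' : q ∈ seg D.s₀ D.s₁ := hq
      have hqs : q ∈ Φ.source := hL hq'
      rw [← hΦ q hqs] at hqe
      have e : q = σ t (Φ.symm y) := Φinj _ hqs _ (Ks hk') hqe
      have e2 : (Φ.symm y).2 = 0 := by
        rw [← σ2 t (Φ.symm y), ← e]; exact hq'.2.2
      apply hyA
      refine ⟨Φ.symm y, ?_, ?_⟩
      · rw [hKdef] at hk
        have hk1 := hk.1
        show D.s₀ ≤ (Φ.symm y).1 ∧ (Φ.symm y).1 ≤ D.s₁ ∧ (Φ.symm y).2 = 0
        exact ⟨by linarith [hk1.1], by linarith [hk1.2], e2⟩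
      · rw [← hΦ _ (Ks hk), Φr y (Ct hy)]
    · rw [Sout t y hy]; exact ⟨hyU, hyA⟩
  · exact fun p hp1 hp2 => Ha p (hp1.trans_le (min_le_left _ _)) (hp2.trans_le (min_le_left _ _))
  · exact fun p hp1 hp2 => Hb p (hp1.trans_le (min_le_right _ _)) (hp2.trans_le (min_le_right _ _))

end Pool.Agent.Helper70.H


end

/-! ## Helper70.BI.H.M_CEN -/

section

/-!
# Project BI, stage 3 (H), module N-CEN (helper99): centring of a crossing germ
-/

set_option autoImplicit false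

open scoped Manifold ContDiff Topology ComplexConjugate
open Set Filter Pool.Agent.Helper65.Barb Pool.Agent.Helper18.BI

namespace Pool.Agent.Helper70.H

open Pool.Agent.Helper27.H (ArcD seg)
open Pool.Agent.Helper70.BI (I4 LD Eqv NearEq pc StPT StGL)

namespace CEN

/-- the vertical line through `z0` -/
noncomputable def ln (s : ℝ) : R4 := (s, ((0 : ℝ), (0 : ℂ)))

theorem ln_half : ln (1 / 2) = z0 := rfl

theorem ln_zero (s : ℝ) : (ln s) = (s, (0 : ℝ × ℂ)) := rfl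

theorem continuous_ln : Continuous ln := by
  unfold ln
  fun_prop

theorem hasDerivAt_ln (s : ℝ) : HasDerivAt ln ((1, 0) : R4) s :=
  HasDerivAt.prodMk (hasDerivAt_id s) (hasDerivAt_const s ((0 : ℝ), (0 : ℂ)))

theorem isCompact_seg (a b : ℝ) : IsCompact (seg a b) := by
  have h : seg a b = Icc a b ×ˢ {(0 : ℝ × ℂ)} := by
    ext p
    simp only [seg, mem_ofPred_eq, mem_prod, mem_Icc, mem_singleton_iff]
    tauto
  rw [h]
  exact isCompact_Icc.prod isCompact_singleton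

theorem ld_continuousAt {F : R4 → R4} {p : R4} (h : LD F p) : ContinuousAt F p :=
  (Pool.Agent.Helper70.BI.ld_iff.1 h).1.self_of_nhds.continuousAt

theorem ld_differentiableAt {F : R4 → R4} {p : R4} (h : LD F p) : DifferentiableAt ℝ F p :=
  (Pool.Agent.Helper70.BI.ld_iff.1 h).1.self_of_nhds.differentiableAt (by simp)

/-- step (1) -/
theorem step1 {D : ArcD} {T : R4 → R4} {σ : ℝ → ℝ} {ε : ℝ} (h : StrA D T σ ε) :
    ∃ r : ℝ, 0 < r ∧ r < ε ∧ ∀ p ∈ Metric.ball z0 r, T p ∈ D.A → p.2 = 0 := by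
  have hz : z0 ∈ Metric.ball z0 ε := Metric.mem_ball_self h.pos
  have hS : {s : ℝ | T (ln s) = D.J (σ s, 0) ∧ ln s ∈ Metric.ball z0 ε} ∈ 𝓝 (1 / 2 : ℝ) := by
    have h1 : ∀ᶠ s in 𝓝 (1 / 2 : ℝ), ln s ∈ Metric.ball z0 ε :=
      continuous_ln.continuousAt.eventually (Metric.isOpen_ball.mem_nhds (by rw [ln_half]; exact hz))
    filter_upwards [h.str, h1] with s e1 e2
    exact ⟨e1, e2⟩
  have hσ : HasStrictDerivAt σ (deriv σ (1 / 2)) (1 / 2) := h.smooth.hasStrictDerivAt (by simp)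
  have hO : σ '' {s : ℝ | T (ln s) = D.J (σ s, 0) ∧ ln s ∈ Metric.ball z0 ε} ∈ 𝓝 (σ (1 / 2)) := by
    rw [← hσ.map_nhds_eq h.dpos.ne']
    exact image_mem_map hS
  obtain ⟨O, hO1, hO2, hO3⟩ := mem_nhds_iff.1 hO
  have hcont : ContinuousOn D.J D.L := fun p hp => (ld_continuousAt (D.emb.1 p hp)).continuousWithinAt
  have hK : IsCompact (D.J '' (D.L ∩ {p | p.1 ∉ O})) := by
    have h1 : IsClosed {p : R4 | p.1 ∉ O} := (hO2.preimage continuous_fst).isClosed_compl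
    exact ((isCompact_seg _ _).inter_right h1).image_of_continuousOn (hcont.mono inter_subset_left)
  have hTz : T z0 = D.J (σ (1 / 2), 0) := h.str.self_of_nhds
  have hmem : ((σ (1 / 2), 0) : R4) ∈ D.L := ⟨h.lo.le, h.hi.le, rfl⟩
  have hnot : T z0 ∉ D.J '' (D.L ∩ {p | p.1 ∉ O}) := by
    rintro ⟨p, ⟨hp1, hp2⟩, hp3⟩
    rw [hTz] at hp3
    have h1 := D.emb.2 hp1 hmem hp3
    apply hp2
    rw [h1]
    exact hO3
  have hev : ∀ᶠ p in 𝓝 z0, T p ∉ D.J '' (D.L ∩ {p | p.1 ∉ O}) :=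
    (ld_continuousAt (h.loc z0 hz)).eventually (hK.isClosed.isOpen_compl.mem_nhds hnot)
  obtain ⟨r, hr, hr2⟩ := Metric.eventually_nhds_iff_ball.1 hev
  have hp := h.pos
  refine ⟨min r (ε / 2), lt_min hr (by linarith), lt_of_le_of_lt (min_le_right _ _) (by linarith), fun p hp1 hp2 => ?_⟩
  have hp3 : p ∈ Metric.ball z0 r := Metric.ball_subset_ball (min_le_left _ _) hp1
  have hp4 : p ∈ Metric.ball z0 ε := Metric.ball_subset_ball ((min_le_right _ _).trans (by linarith)) hp1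
  obtain ⟨q, hq, hqp⟩ := hp2
  have hqO : q.1 ∈ O := by
    by_contra hc
    exact hr2 p hp3 ⟨q, ⟨hq, hc⟩, hqp⟩
  obtain ⟨s, ⟨hs1, hs2⟩, hs3⟩ := hO1 hqO
  have hq2 : q = ((σ s, 0) : R4) := Prod.ext hs3.symm hq.2.2
  have h1 : T p = T (ln s) := by rw [hs1, ← hqp, hq2]
  rw [h.inj hp4 hs2 h1]
  rfl

/-- the translation -/
theorem ld_tr (a : ℝ) (p : R4) :
    LD (fun p : R4 => ((a + (p.1 - 1 / 2), p.2) : R4)) p ∧
      fderiv ℝ (fun p : R4 => ((a + (p.1 - 1 / 2), p.2) : R4)) p = ContinuousLinearMap.id ℝ R4 := by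
  have e : (fun p : R4 => ((a + (p.1 - 1 / 2), p.2) : R4)) = fun p => p + ((a - 1 / 2, 0) : R4) := by
    funext p
    refine Prod.ext ?_ ?_
    · show a + (p.1 - 1 / 2) = p.1 + (a - 1 / 2)
      ring
    · show p.2 = p.2 + 0
      rw [add_zero]
  have h1 : HasFDerivAt (fun p : R4 => p + ((a - 1 / 2, 0) : R4)) (ContinuousLinearMap.id ℝ R4) p :=
    (hasFDerivAt_id p).add_const _
  rw [e]
  refine ⟨Pool.Agent.Helper70.BI.ld_iff.2 ⟨Eventually.of_forall fun q => ?_, ?_⟩, h1.fderiv⟩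
  · exact (contDiff_id.add contDiff_const).contDiffAt
  · rw [h1.fderiv]
    exact Function.injective_id

end CEN

open CEN in
/-- **MODULE N-CEN** -/
theorem m_CEN (hLOCL : StLOCL) : StCEN := by
  intro D T σ ε hA
  obtain ⟨r, hr, hrε, hr1⟩ := step1 hA
  have hz : z0 ∈ Metric.ball z0 ε := Metric.mem_ball_self hA.pos
  have hT := hA.loc z0 hz
  have hTz : T z0 = D.J (σ (1 / 2), 0) := hA.str.self_of_nhds
  have hmem : ((σ (1 / 2), 0) : R4) ∈ D.L := ⟨hA.lo.le, hA.hi.le, rfl⟩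
  obtain ⟨f, hf⟩ : ∃ f : R4 → R4, f = hT.localInverse := ⟨_, rfl⟩
  have hfl : LD f (T z0) := by rw [hf]; exact hT.localInverse_isLocalDiffeomorphAt
  have hright : T ∘ f =ᶠ[𝓝 (T z0)] id := by rw [hf]; exact hT.localInverse_eventuallyEq_right
  have hleft : f ∘ T =ᶠ[𝓝 z0] id := by rw [hf]; exact hT.localInverse_eventuallyEq_left
  have hfz : f (T z0) = z0 := hleft.self_of_nhds
  -- the translate of `D.J`
  obtain ⟨g, hg⟩ : ∃ g : R4 → R4, g = fun p => D.J (σ (1 / 2) + (p.1 - 1 / 2), p.2) := ⟨_, rfl⟩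
  obtain ⟨htr1, htr2⟩ := ld_tr (σ (1 / 2)) z0
  have htrz : (fun p : R4 => ((σ (1 / 2) + (p.1 - 1 / 2), p.2) : R4)) z0 = ((σ (1 / 2), 0) : R4) := by
    refine Prod.ext ?_ rfl
    show σ (1 / 2) + (1 / 2 - 1 / 2) = σ (1 / 2)
    ring
  have hJ : LD D.J ((fun p : R4 => ((σ (1 / 2) + (p.1 - 1 / 2), p.2) : R4)) z0) := by
    rw [htrz]; exact D.emb.1 _ hmem
  have hgl : LD g z0 := by
    rw [hg]
    exact Pool.Agent.Helper70.BI.ld_comp htr1 hJ
  have hgz : g z0 = T z0 := by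
    rw [hg, hTz]
    exact congrArg D.J htrz
  have hgd : fderiv ℝ g z0 = fderiv ℝ D.J (σ (1 / 2), 0) := by
    have h1 : g = D.J ∘ (fun p : R4 => ((σ (1 / 2) + (p.1 - 1 / 2), p.2) : R4)) := hg
    have h2 : ((σ (1 / 2) + ((z0 : R4).1 - 1 / 2), (z0 : R4).2) : R4) = ((σ (1 / 2), 0) : R4) := htrz
    rw [h1, fderiv_comp z0 (ld_differentiableAt hJ) (ld_differentiableAt htr1), htr2, ContinuousLinearMap.comp_id, h2]
  -- the germ `h`
  obtain ⟨h, hh⟩ : ∃ h : R4 → R4, h = f ∘ g := ⟨_, rfl⟩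
  have hhl : LD h z0 := by
    rw [hh]
    exact Pool.Agent.Helper70.BI.ld_comp hgl (by rw [hgz]; exact hfl)
  have hhz : h z0 = z0 := by
    rw [hh]
    show f (g z0) = z0
    rw [hgz, hfz]
  have hTh : T ∘ h =ᶠ[𝓝 z0] g := by
    have h1 : ∀ᶠ p in 𝓝 z0, (T ∘ f) (g p) = id (g p) := by
      have h2 : ContinuousAt g z0 := ld_continuousAt hgl
      have h3 : ∀ᶠ y in 𝓝 (g z0), (T ∘ f) y = id y := by
        rw [hgz]
        exact hright
      exact h2.eventually h3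
    filter_upwards [h1] with p hp
    rw [hh]
    exact hp
  have hdh : DifferentiableAt ℝ h z0 := ld_differentiableAt hhl
  have hdet : 0 < (fderiv ℝ h z0).det := by
    have h1 : fderiv ℝ (T ∘ h) z0 = (fderiv ℝ T (h z0)).comp (fderiv ℝ h z0) :=
      fderiv_comp z0 (by rw [hhz]; exact ld_differentiableAt hT) hdh
    rw [hTh.fderiv_eq, hgd, hhz] at h1
    have h2 : (fderiv ℝ D.J (σ (1 / 2), 0)).det = (fderiv ℝ T z0).det * (fderiv ℝ h z0).det := by
      rw [h1]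
      exact LinearMap.det_comp (fderiv ℝ T z0 : R4 →ₗ[ℝ] R4) (fderiv ℝ h z0 : R4 →ₗ[ℝ] R4)
    have h3 := hA.orient
    rw [h2] at h3
    have h4 : 0 < ((fderiv ℝ T z0).det) ^ 2 * (fderiv ℝ h z0).det := by
      have e : ((fderiv ℝ T z0).det) ^ 2 * (fderiv ℝ h z0).det =
        (fderiv ℝ T z0).det * ((fderiv ℝ T z0).det * (fderiv ℝ h z0).det) := by ring
      rw [e]; exact h3
    exact (pos_iff_pos_of_mul_pos h4).1 (by
      rcases (sq_nonneg ((fderiv ℝ T z0).det)).lt_or_eq with h5 | h5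
      · exact h5
      · rw [← h5, zero_mul] at h4
        exact absurd h4 (lt_irrefl _))
  -- the line condition
  have hhc : ContinuousAt h z0 := hdh.continuousAt
  have hev1 : ∀ᶠ p in 𝓝 z0, h p ∈ Metric.ball z0 r :=
    hhc.eventually (Metric.isOpen_ball.mem_nhds (by rw [hhz]; exact Metric.mem_ball_self hr))
  have hev2 : ∀ᶠ p : R4 in 𝓝 z0, σ (1 / 2) + (p.1 - 1 / 2) ∈ Ioo D.s₀ D.s₁ := by
    have h1 : ContinuousAt (fun p : R4 => σ (1 / 2) + (p.1 - 1 / 2)) z0 := by fun_prop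
    refine h1.eventually (isOpen_Ioo.mem_nhds ?_)
    have h2 : σ (1 / 2) + ((z0 : R4).1 - 1 / 2) = σ (1 / 2) := by
      show σ (1 / 2) + (1 / 2 - 1 / 2) = σ (1 / 2)
      ring
    show σ (1 / 2) + ((z0 : R4).1 - 1 / 2) ∈ Ioo D.s₀ D.s₁
    rw [h2]
    exact ⟨hA.lo, hA.hi⟩
  have hline : ∀ᶠ p in 𝓝 z0, p.2 = 0 → (h p).2 = 0 := by
    filter_upwards [hev1, hev2, hTh] with p e1 e2 e3 hp
    apply hr1 (h p) e1
    have e4 : T (h p) = g p := e3
    rw [e4, hg]
    exact ⟨((σ (1 / 2) + (p.1 - 1 / 2), p.2) : R4), ⟨e2.1.le, e2.2.le, hp⟩, rfl⟩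
  -- the derivative along the line
  have hpos : 0 < (fderiv ℝ h z0 (1, 0)).1 := by
    have hκd : HasDerivAt (fun s => (h (ln s)).1) ((fderiv ℝ h z0 (1, 0)).1) (1 / 2) := by
      have h1 : HasDerivAt (fun s => h (ln s)) (fderiv ℝ h z0 (1, 0)) (1 / 2) :=
        HasFDerivAt.comp_hasDerivAt (1 / 2) (by rw [ln_half]; exact hdh.hasFDerivAt) (hasDerivAt_ln _)
      exact (hasFDerivAt_fst (𝕜 := ℝ) (p := h (ln (1 / 2)))).comp_hasDerivAt (1 / 2) h1
    have hκ : (fun s => (h (ln s)).1) (1 / 2) = 1 / 2 := by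
      show (h (ln (1 / 2))).1 = 1 / 2
      rw [ln_half, hhz]
      rfl
    have hσd : HasDerivAt σ (deriv σ (1 / 2)) ((fun s => (h (ln s)).1) (1 / 2)) := by
      rw [hκ]
      exact (hA.smooth.differentiableAt (by simp)).hasDerivAt
    have hcomp := HasDerivAt.comp (1 / 2 : ℝ) hσd hκd
    have hln : Tendsto ln (𝓝 (1 / 2)) (𝓝 z0) := continuous_ln.tendsto (1 / 2)
    have hκt : Tendsto (fun s => (h (ln s)).1) (𝓝 (1 / 2)) (𝓝 (1 / 2)) := by
      have h1 : Tendsto (fun s => (h (ln s)).1) (𝓝 (1 / 2)) (𝓝 ((h (ln (1 / 2))).1)) :=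
        hκd.continuousAt.tendsto
      have h2 : (h (ln (1 / 2))).1 = 1 / 2 := hκ
      rw [h2] at h1
      exact h1
    have hσt : Tendsto (fun s => σ ((h (ln s)).1)) (𝓝 (1 / 2)) (𝓝 (σ (1 / 2))) :=
      hA.smooth.continuousAt.tendsto.comp hκt
    have heq : (σ ∘ fun s => (h (ln s)).1) =ᶠ[𝓝 (1 / 2)] fun s => σ (1 / 2) + (s - 1 / 2) := by
      filter_upwards [hln.eventually hline, hln.eventually hTh, hκt.eventually hA.str, hln.eventually hev2,
        hσt.eventually (isOpen_Ioo.mem_nhds ⟨hA.lo, hA.hi⟩)] with s e1 e2 e3 e4 e5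
      have e6 : (h (ln s)).2 = 0 := e1 rfl
      have e7 : h (ln s) = ln ((h (ln s)).1) := Prod.ext rfl e6
      have e8 : T (h (ln s)) = g (ln s) := e2
      have e9 : T (ln ((h (ln s)).1)) = D.J (σ ((h (ln s)).1), 0) := e3
      have e10 : T (h (ln s)) = T (ln ((h (ln s)).1)) := congrArg T e7
      rw [e8, hg, e9] at e10
      have m1 : ((σ (1 / 2) + ((ln s).1 - 1 / 2), (ln s).2) : R4) ∈ D.L := ⟨e4.1.le, e4.2.le, rfl⟩
      have m2 : ((σ ((h (ln s)).1), 0) : R4) ∈ D.L := ⟨e5.1.le, e5.2.le, rfl⟩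
      have e11 := D.emb.2 m1 m2 e10
      exact (congrArg Prod.fst e11).symm
    have hd2 : HasDerivAt (fun s : ℝ => σ (1 / 2) + (s - 1 / 2)) 1 (1 / 2) :=
      ((hasDerivAt_id (1 / 2 : ℝ)).sub_const (1 / 2)).const_add _
    have hu := hcomp.unique (hd2.congr_of_eventuallyEq heq)
    have h6 : 0 < deriv σ (1 / 2) * (fderiv ℝ h z0 (1, 0)).1 := by rw [hu]; norm_num
    exact (pos_iff_pos_of_mul_pos h6).1 hA.dpos
  obtain ⟨G, hG0, hGs, hGl, hG1⟩ := hLOCL (Metric.ball z0 r) z0 h Metric.isOpen_ball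
    (Metric.mem_ball_self hr) rfl hhl hhz hline hpos hdet
  refine ⟨G, r, hr, hrε, hG0, hGs, hGl, hr1, ?_⟩
  filter_upwards [hG1, hTh] with p e1 e2
  rw [e1]
  have e3 : T (h p) = g p := e2
  rw [e3, hg]

end Pool.Agent.Helper70.H


end

/-! ## Helper70.BI.H.M_GLL -/

section

/-!
# Project BI, stage 3 (H), section NORM, module GLL: linear maps which preserve the line
-/

set_option autoImplicit false

open scoped Manifold ContDiff Topology ComplexConjugate
open Set Filter Pool.Agent.Helper65.Barb Pool.Agent.Helper18.BI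

namespace Pool.Agent.Helper70.H

open Pool.Agent.Helper27.H (ArcD seg)
open Pool.Agent.Helper70.BI (I4 LD Eqv NearEq pc StPT StGL)

namespace GLL

/-- the linear germ of `A` is realized near every point of the line -/
def Pg (A : R4 →L[ℝ] R4) : Prop :=
  ∀ (U : Set R4) (z : R4), IsOpen U → z ∈ U → z.2 = 0 → RealL U z (fun y => z + A (y - z))

theorem realL_comp {U : Set R4} {y₀ : R4} {f₁ f₂ : R4 → R4} (h₁ : RealL U y₀ f₁)
    (h₂ : RealL U (f₁ y₀) f₂) (hc : ContinuousAt f₁ y₀) : RealL U y₀ (fun y => f₂ (f₁ y)) := by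
  obtain ⟨G₁, a₁, ⟨C₁, c₁, s₁, t₁⟩, l₁, e₁⟩ := h₁
  obtain ⟨G₂, a₂, ⟨C₂, c₂, s₂, t₂⟩, l₂, e₂⟩ := h₂
  refine ⟨G₂.comp G₁, ?_, ⟨C₁ ∪ C₂, c₁.union c₂, union_subset s₁ s₂, ?_⟩, ?_, ?_⟩
  · intro y
    change G₂.f (0, G₁.f (0, y)) = y
    rw [a₁, a₂]
  · intro t y hy
    rw [mem_union, not_or] at hy
    change G₂.f (t, G₁.f (t, y)) = y
    rw [t₁ t y hy.1, t₂ t y hy.2]
  · intro t y
    change (G₂.f (t, G₁.f (t, y))).2 = 0 ↔ y.2 = 0
    rw [l₂, l₁]
  · filter_upwards [e₁, hc.eventually e₂] with y h3 h4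
    change G₂.f (1, G₁.f (1, y)) = f₂ (f₁ y)
    rw [h3, h4]

theorem pg_comp {A B : R4 →L[ℝ] R4} (hA : Pg A) (hB : Pg B) : Pg (A.comp B) := by
  intro U z hU hz hz2
  have e1 : (fun y : R4 => z + B (y - z)) z = z := by simp
  have h2 : RealL U ((fun y : R4 => z + B (y - z)) z) (fun y => z + A (y - z)) := by
    rw [e1]; exact hA U z hU hz hz2
  have hc : ContinuousAt (fun y : R4 => z + B (y - z)) z := by fun_prop
  have h3 := realL_comp (hB U z hU hz hz2) h2 hc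
  have e2 : (fun y : R4 => (fun y => z + A (y - z)) ((fun y : R4 => z + B (y - z)) y)) =
      fun y => z + (A.comp B) (y - z) := by
    funext y
    simp
  rw [e2] at h3
  exact h3

theorem pg_near (hSML : StSML) : ∃ c : ℝ, 0 < c ∧ ∀ A : R4 →L[ℝ] R4,
    (∀ s : ℝ, (A (s, 0)).2 = 0) → ‖A - ContinuousLinearMap.id ℝ R4‖ < c → Pg A := by
  obtain ⟨c, hc, h⟩ := hSML
  refine ⟨c, hc, fun A hl hA U z hU hz hz2 => ?_⟩
  apply h U z _ hU hz
  · refine Filter.Eventually.of_forall fun y => ?_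
    exact (contDiff_const.add (A.contDiff.comp (contDiff_id.sub contDiff_const))).contDiffAt
  · simp
  · refine Filter.Eventually.of_forall fun y hy => ?_
    have e : y - z = (y.1 - z.1, 0) := by
      refine Prod.ext rfl ?_
      change y.2 - z.2 = 0
      rw [hy, hz2, sub_zero]
    have h1 := hl (y.1 - z.1)
    change z.2 + (A (y - z)).2 = 0
    rw [e, h1, hz2, add_zero]
  · have e3 : HasFDerivAt (fun y : R4 => z + A (y - z)) A z := by
      have h4 : HasFDerivAt (fun y : R4 => y - z) (ContinuousLinearMap.id ℝ R4) z :=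
        (hasFDerivAt_id z).sub_const z
      have h5 : HasFDerivAt (fun y : R4 => A (y - z)) (A.comp (ContinuousLinearMap.id ℝ R4)) z :=
        HasFDerivAt.comp (g := fun y : R4 => A y) (f := fun y : R4 => y - z) z
          (A.hasFDerivAt (x := z - z)) h4
      rw [ContinuousLinearMap.comp_id] at h5
      exact h5.const_add z
    rw [e3.fderiv]
    exact hA

/-- block diagonal maps -/
noncomputable def DD (a : ℝ →L[ℝ] ℝ) (M : R3 →L[ℝ] R3) : R4 →L[ℝ] R4 := a.prodMap M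

theorem DD_apply (a : ℝ →L[ℝ] ℝ) (M : R3 →L[ℝ] R3) (y : R4) : DD a M y = (a y.1, M y.2) := rfl

theorem DD_comp (a b : ℝ →L[ℝ] ℝ) (M N : R3 →L[ℝ] R3) :
    (DD a M).comp (DD b N) = DD (a.comp b) (M.comp N) := rfl

/-- the shears -/
noncomputable def SS (l : R3 →L[ℝ] ℝ) : R4 →L[ℝ] R4 :=
  ContinuousLinearMap.id ℝ R4 +
    (ContinuousLinearMap.inl ℝ ℝ R3).comp (l.comp (ContinuousLinearMap.snd ℝ ℝ R3))

theorem SS_apply (l : R3 →L[ℝ] ℝ) (y : R4) : SS l y = (y.1 + l y.2, y.2) := by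
  refine Prod.ext rfl ?_
  change y.2 + 0 = y.2
  exact add_zero _

theorem SS_comp (l m : R3 →L[ℝ] ℝ) : (SS l).comp (SS m) = SS (l + m) := by
  refine ContinuousLinearMap.ext fun y => ?_
  rw [ContinuousLinearMap.comp_apply, SS_apply, SS_apply, SS_apply]
  refine Prod.ext ?_ rfl
  change y.1 + m y.2 + l y.2 = y.1 + (l + m) y.2
  rw [add_apply]
  ring

theorem norm_DD_left (M : R3 →L[ℝ] R3) :
    ‖DD (ContinuousLinearMap.id ℝ ℝ) M - ContinuousLinearMap.id ℝ R4‖ ≤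
      ‖M - ContinuousLinearMap.id ℝ R3‖ := by
  refine ContinuousLinearMap.opNorm_le_bound _ (norm_nonneg _) fun y => ?_
  have e : (DD (ContinuousLinearMap.id ℝ ℝ) M - ContinuousLinearMap.id ℝ R4) y =
      (0, (M - ContinuousLinearMap.id ℝ R3) y.2) := by
    refine Prod.ext ?_ rfl
    change y.1 - y.1 = 0
    exact sub_self _
  rw [e, Prod.norm_def]
  refine max_le ?_ ?_
  · rw [norm_zero]; positivity
  · exact (ContinuousLinearMap.le_opNorm _ _).trans
      (mul_le_mul_of_nonneg_left (norm_snd_le y) (norm_nonneg _))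

theorem norm_DD_right (a : ℝ →L[ℝ] ℝ) :
    ‖DD a (ContinuousLinearMap.id ℝ R3) - ContinuousLinearMap.id ℝ R4‖ ≤
      ‖a - ContinuousLinearMap.id ℝ ℝ‖ := by
  refine ContinuousLinearMap.opNorm_le_bound _ (norm_nonneg _) fun y => ?_
  have e : (DD a (ContinuousLinearMap.id ℝ R3) - ContinuousLinearMap.id ℝ R4) y =
      ((a - ContinuousLinearMap.id ℝ ℝ) y.1, 0) := by
    refine Prod.ext rfl ?_
    change y.2 - y.2 = 0
    exact sub_self _
  rw [e, Prod.norm_def]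
  refine max_le ?_ ?_
  · exact (ContinuousLinearMap.le_opNorm _ _).trans
      (mul_le_mul_of_nonneg_left (norm_fst_le y) (norm_nonneg _))
  · rw [norm_zero]; positivity

theorem norm_SS (l : R3 →L[ℝ] ℝ) : ‖SS l - ContinuousLinearMap.id ℝ R4‖ ≤ ‖l‖ := by
  refine ContinuousLinearMap.opNorm_le_bound _ (norm_nonneg _) fun y => ?_
  have e : (SS l - ContinuousLinearMap.id ℝ R4) y = (l y.2, 0) := by
    rw [sub_apply, SS_apply]
    refine Prod.ext ?_ ?_
    · change y.1 + l y.2 - y.1 = l y.2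
      ring
    · change y.2 - y.2 = 0
      exact sub_self _
  rw [e, Prod.norm_def]
  refine max_le ?_ ?_
  · exact (ContinuousLinearMap.le_opNorm _ _).trans
      (mul_le_mul_of_nonneg_left (norm_snd_le y) (norm_nonneg _))
  · rw [norm_zero]; positivity

theorem pg_left (hSML : StSML) (hGL : StGL) (M : R3 →L[ℝ] R3) (hM : 0 < M.det) :
    Pg (DD (ContinuousLinearMap.id ℝ ℝ) M) := by
  obtain ⟨c, hc, h⟩ := pg_near hSML
  refine hGL R3 (fun M => Pg (DD (ContinuousLinearMap.id ℝ ℝ) M)) ?_ ⟨c, hc, ?_⟩ M hM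
  · intro A B hA hB
    have h1 := pg_comp hA hB
    rw [DD_comp, ContinuousLinearMap.comp_id] at h1
    exact h1
  · intro A hA
    refine h _ (fun s => ?_) (lt_of_le_of_lt (norm_DD_left A) hA)
    rw [DD_apply]
    exact map_zero A

theorem pg_right (hSML : StSML) (hGL : StGL) (a : ℝ →L[ℝ] ℝ) (ha : 0 < a.det) :
    Pg (DD a (ContinuousLinearMap.id ℝ R3)) := by
  obtain ⟨c, hc, h⟩ := pg_near hSML
  refine hGL ℝ (fun a => Pg (DD a (ContinuousLinearMap.id ℝ R3))) ?_ ⟨c, hc, ?_⟩ a ha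
  · intro A B hA hB
    have h1 := pg_comp hA hB
    rw [DD_comp, ContinuousLinearMap.comp_id] at h1
    exact h1
  · intro A hA
    refine h _ (fun s => ?_) (lt_of_le_of_lt (norm_DD_right A) hA)
    rw [DD_apply]
    rfl

theorem pg_SS (hSML : StSML) (l : R3 →L[ℝ] ℝ) : Pg (SS l) := by
  obtain ⟨c, hc, h⟩ := pg_near hSML
  obtain ⟨n, hn⟩ := exists_nat_gt (‖l‖ / c)
  have hn0 : 0 < (n : ℝ) := lt_of_le_of_lt (by positivity) hn
  have hl : ∀ (m : R3 →L[ℝ] ℝ) (s : ℝ), (SS m (s, 0)).2 = 0 := fun m s => by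
    rw [SS_apply]
  have h1 : Pg (SS ((1 / (n : ℝ)) • l)) := by
    refine h _ (hl _) (lt_of_le_of_lt (norm_SS _) ?_)
    rw [norm_smul, Real.norm_of_nonneg (by positivity), one_div, inv_mul_eq_div,
      div_lt_iff₀ hn0]
    rw [div_lt_iff₀ hc] at hn
    linarith
  have h2 : ∀ k : ℕ, Pg (SS ((k : ℝ) • ((1 / (n : ℝ)) • l))) := by
    intro k
    induction k with
    | zero =>
      refine h _ (hl _) (lt_of_le_of_lt (norm_SS _) ?_)
      simp [hc]
    | succ k ih =>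
      have h3 := pg_comp ih h1
      rw [SS_comp] at h3
      have e : ((k : ℝ) • ((1 / (n : ℝ)) • l) + (1 / (n : ℝ)) • l) =
          ((k + 1 : ℕ) : ℝ) • ((1 / (n : ℝ)) • l) := by
        push_cast
        rw [add_smul, one_smul]
      rw [e] at h3
      exact h3
  have h4 := h2 n
  rw [smul_smul, mul_one_div_cancel hn0.ne', one_smul] at h4
  exact h4

theorem det_comp' (A B : R4 →L[ℝ] R4) : (A.comp B).det = A.det * B.det :=
  LinearMap.det_comp (A : R4 →ₗ[ℝ] R4) (B : R4 →ₗ[ℝ] R4)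

theorem det_DD (a : ℝ →L[ℝ] ℝ) (M : R3 →L[ℝ] R3) : (DD a M).det = a.det * M.det :=
  LinearMap.det_prodMap (a : ℝ →ₗ[ℝ] ℝ) (M : R3 →ₗ[ℝ] R3)

theorem det_SS_nonneg (l : R3 →L[ℝ] ℝ) : 0 ≤ (SS l).det := by
  have h : SS l = (SS ((1 / 2 : ℝ) • l)).comp (SS ((1 / 2 : ℝ) • l)) := by
    rw [SS_comp, ← add_smul, add_halves, one_smul]
  rw [h, det_comp']
  exact mul_self_nonneg _

end GLL

open GLL

theorem m_GLL (hSML : StSML) (hGL : StGL) : StGLL := by
  intro A U z hU hz hz2 hline hpos hdet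
  obtain ⟨a, ha⟩ : ∃ a : ℝ, a = (A (1, 0)).1 := ⟨_, rfl⟩
  rw [← ha] at hpos
  obtain ⟨l, hlv⟩ : ∃ l : R3 →L[ℝ] ℝ, ∀ v : R3, l v = (A (0, v)).1 :=
    ⟨(ContinuousLinearMap.fst ℝ ℝ R3).comp (A.comp (ContinuousLinearMap.inr ℝ ℝ R3)),
      fun v => rfl⟩
  obtain ⟨M, hMv⟩ : ∃ M : R3 →L[ℝ] R3, ∀ v : R3, M v = (A (0, v)).2 :=
    ⟨(ContinuousLinearMap.snd ℝ ℝ R3).comp (A.comp (ContinuousLinearMap.inr ℝ ℝ R3)),
      fun v => rfl⟩
  have hA1 : ∀ s : ℝ, A (s, 0) = (s * a, 0) := by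
    intro s
    have e1 : ((s, 0) : R4) = s • ((1, 0) : R4) := by
      rw [Prod.smul_mk, smul_eq_mul, mul_one, smul_zero]
    refine Prod.ext ?_ (hline s)
    rw [e1, map_smul, ha]
    rfl
  have hdec : A = ((DD (a • ContinuousLinearMap.id ℝ ℝ) (ContinuousLinearMap.id ℝ R3)).comp
      (DD (ContinuousLinearMap.id ℝ ℝ) M)).comp (SS (a⁻¹ • l)) := by
    refine ContinuousLinearMap.ext fun y => ?_
    have e1 : y = (y.1, (0 : R3)) + ((0 : ℝ), y.2) := by
      refine Prod.ext ?_ ?_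
      · change y.1 = y.1 + 0
        rw [add_zero]
      · change y.2 = 0 + y.2
        rw [zero_add]
    have e2 : A y = (y.1 * a + l y.2, M y.2) := by
      conv_lhs => rw [e1]
      rw [map_add, hA1]
      refine Prod.ext ?_ ?_
      · change y.1 * a + (A (0, y.2)).1 = y.1 * a + l y.2
        rw [hlv]
      · change 0 + (A (0, y.2)).2 = M y.2
        rw [zero_add, hMv]
    rw [e2, ContinuousLinearMap.comp_apply, ContinuousLinearMap.comp_apply, SS_apply, DD_apply,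
      DD_apply]
    refine Prod.ext ?_ rfl
    change y.1 * a + l y.2 = a * (y.1 + a⁻¹ * l y.2)
    field_simp
  have hdeta : (a • ContinuousLinearMap.id ℝ ℝ : ℝ →L[ℝ] ℝ).det = a := by
    have h1 : LinearMap.det (a • LinearMap.id : ℝ →ₗ[ℝ] ℝ) = a := by
      rw [LinearMap.det_smul, LinearMap.det_id, Module.finrank_self, pow_one, mul_one]
    exact h1
  have hdet1 : (ContinuousLinearMap.id ℝ ℝ).det = 1 := LinearMap.det_id
  have hdet3 : (ContinuousLinearMap.id ℝ R3).det = 1 := LinearMap.det_id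
  have hMdet : 0 < M.det := by
    rw [hdec, det_comp', det_comp', det_DD, det_DD, hdeta, hdet1, hdet3, mul_one, one_mul] at hdet
    have h1 := det_SS_nonneg (a⁻¹ • l)
    by_contra h2
    push Not at h2
    have h3 : a * M.det ≤ 0 := mul_nonpos_of_nonneg_of_nonpos hpos.le h2
    have h4 : a * M.det * (SS (a⁻¹ • l)).det ≤ 0 := mul_nonpos_of_nonpos_of_nonneg h3 h1
    linarith
  have hPa : Pg (DD (a • ContinuousLinearMap.id ℝ ℝ) (ContinuousLinearMap.id ℝ R3)) :=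
    pg_right hSML hGL _ (by rw [hdeta]; exact hpos)
  have hPA : Pg A := by
    rw [hdec]
    exact pg_comp (pg_comp hPa (pg_left hSML hGL M hMdet)) (pg_SS hSML _)
  exact hPA U z hU hz hz2

end Pool.Agent.Helper70.H


end

/-! ## Helper70.BI.H.M_LOCL -/

section

/-!
# Project BI, stage 3 (H), section NORM, module LOCL: germs which preserve the line
-/

set_option autoImplicit false

open scoped Manifold ContDiff Topology ComplexConjugate
open Set Filter Pool.Agent.Helper65.Barb Pool.Agent.Helper18.BI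

namespace Pool.Agent.Helper70.H

open Pool.Agent.Helper27.H (ArcD seg)
open Pool.Agent.Helper70.BI (I4 LD Eqv NearEq pc StPT StGL)

namespace LOCL

/-- the derivative of a map which preserves the line preserves the line -/
theorem fderiv_line {z : R4} {h : R4 → R4} (hz2 : z.2 = 0) (dh : DifferentiableAt ℝ h z)
    (hline : ∀ᶠ y in 𝓝 z, y.2 = 0 → (h y).2 = 0) (s : ℝ) :
    (fderiv ℝ h z ((s, 0) : R4)).2 = 0 := by
  have hγ : HasDerivAt (fun t : ℝ => z + t • ((s, 0) : R4)) ((s, 0) : R4) 0 := by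
    have h1 : HasDerivAt (fun t : ℝ => t • ((s, 0) : R4)) ((1 : ℝ) • ((s, 0) : R4)) 0 :=
      (hasDerivAt_id (0 : ℝ)).smul_const _
    rw [one_smul] at h1
    exact h1.const_add z
  have h2 : HasDerivAt (fun t : ℝ => h (z + t • ((s, 0) : R4))) (fderiv ℝ h z ((s, 0) : R4)) 0 := by
    have h3 : HasFDerivAt h (fderiv ℝ h z) (z + (0 : ℝ) • ((s, 0) : R4)) := by
      rw [zero_smul, add_zero]
      exact dh.hasFDerivAt
    exact h3.comp_hasDerivAt (0 : ℝ) hγ
  have h4 : HasDerivAt (fun t : ℝ => (h (z + t • ((s, 0) : R4))).2)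
      (fderiv ℝ h z ((s, 0) : R4)).2 0 :=
    (ContinuousLinearMap.snd ℝ ℝ R3).hasFDerivAt.comp_hasDerivAt (0 : ℝ) h2
  have h5 : (fun t : ℝ => (h (z + t • ((s, 0) : R4))).2) =ᶠ[𝓝 0] fun _ => (0 : R3) := by
    have h6 : Tendsto (fun t : ℝ => z + t • ((s, 0) : R4)) (𝓝 0) (𝓝 z) := by
      have h7 := hγ.continuousAt.tendsto
      rw [zero_smul, add_zero] at h7
      exact h7
    filter_upwards [h6.eventually hline] with t ht
    apply ht
    change z.2 + t • (0 : R3) = 0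
    rw [hz2, smul_zero, add_zero]
  have h7 : HasDerivAt (fun t : ℝ => (h (z + t • ((s, 0) : R4))).2) (0 : R3) 0 :=
    (hasDerivAt_const (0 : ℝ) (0 : R3)).congr_of_eventuallyEq h5
  exact h4.unique h7

end LOCL

theorem m_LOCL (hSML : StSML) (hGLL : StGLL) : StLOCL := by
  intro U z h hU hz hz2 hLD hfix hline hpos hdet
  have hF := Pool.Agent.Helper70.BI.ld_iff.1 hLD
  have dh : DifferentiableAt ℝ h z := hF.1.self_of_nhds.differentiableAt (by simp)
  have hl1 := LOCL.fderiv_line hz2 dh hline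
  obtain ⟨L, hL⟩ : ∃ L : R4 →L[ℝ] R4, L = fderiv ℝ h z := ⟨_, rfl⟩
  rw [← hL] at hl1 hpos hdet
  -- the inverse of the derivative
  obtain ⟨K, hKL, hLK⟩ : ∃ K : R4 →L[ℝ] R4, (∀ x, K (L x) = x) ∧ ∀ x, L (K x) = x := by
    refine ⟨((L.toContinuousLinearEquivOfDetNeZero hdet.ne').symm : R4 →L[ℝ] R4), fun x => ?_,
      fun x => ?_⟩
    · exact (L.toContinuousLinearEquivOfDetNeZero hdet.ne').symm_apply_apply x
    · exact (L.toContinuousLinearEquivOfDetNeZero hdet.ne').apply_symm_apply x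
  have hl2 : ∀ s : ℝ, (K (s, 0)).2 = 0 := by
    intro s
    have h1 : ((s, 0) : R4) = L ((s / (L (1, 0)).1, 0) : R4) := by
      have h2 : ((s / (L (1, 0)).1, 0) : R4) = (s / (L (1, 0)).1) • ((1, 0) : R4) := by
        refine Prod.ext ?_ ?_
        · change s / (L (1, 0)).1 = s / (L (1, 0)).1 * 1
          rw [mul_one]
        · change (0 : R3) = (s / (L (1, 0)).1) • (0 : R3)
          rw [smul_zero]
      rw [h2, map_smul]
      refine Prod.ext ?_ ?_
      · change s = s / (L (1, 0)).1 * (L (1, 0)).1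
        rw [div_mul_cancel₀ _ hpos.ne']
      · change (0 : R3) = (s / (L (1, 0)).1) • (L (1, 0)).2
        rw [hl1, smul_zero]
    rw [h1, hKL]
  -- the germ `k`
  have hk : RealL U z (fun y => z + K (h y - z)) := by
    obtain ⟨c, hc, hS⟩ := hSML
    apply hS U z _ hU hz
    · filter_upwards [hF.1] with y hy
      exact contDiffAt_const.add (K.contDiff.contDiffAt.comp y (hy.sub contDiffAt_const))
    · simp [hfix]
    · filter_upwards [hline] with y hy hy2
      have e : h y - z = ((h y).1 - z.1, 0) := by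
        refine Prod.ext rfl ?_
        change (h y).2 - z.2 = 0
        rw [hy hy2, hz2, sub_zero]
      change z.2 + (K (h y - z)).2 = 0
      rw [e, hl2, hz2, add_zero]
    · have h1 : HasFDerivAt (fun y => z + K (h y - z)) (K.comp L) z := by
        have h2 : HasFDerivAt (fun y => h y - z) L z := by
          rw [hL]
          exact dh.hasFDerivAt.sub_const z
        have h4 : HasFDerivAt (fun y => K (h y - z)) (K.comp L) z :=
          HasFDerivAt.comp (g := fun y : R4 => K y) (f := fun y => h y - z) z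
            (K.hasFDerivAt (x := h z - z)) h2
        exact h4.const_add z
      have h3 : K.comp L = ContinuousLinearMap.id ℝ R4 := by
        apply ContinuousLinearMap.ext
        intro x
        exact hKL x
      rw [h1.fderiv, h3, sub_self, norm_zero]
      exact hc
  have kc : ContinuousAt (fun y => z + K (h y - z)) z :=
    continuousAt_const.add (K.continuous.continuousAt.comp (dh.continuousAt.sub continuousAt_const))
  have h2 : RealL U ((fun y => z + K (h y - z)) z) (fun y => z + L (y - z)) := by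
    have e1 : (fun y => z + K (h y - z)) z = z := by simp [hfix]
    rw [e1]
    exact hGLL L U z hU hz hz2 hl1 hpos hdet
  have h3 := GLL.realL_comp hk h2 kc
  have e2 : (fun y => (fun y => z + L (y - z)) ((fun y => z + K (h y - z)) y)) = h := by
    funext y
    change z + L (z + K (h y - z) - z) = h y
    rw [add_sub_cancel_left, hLK, add_sub_cancel]
  rw [e2] at h3
  exact h3

end Pool.Agent.Helper70.H


end

/-! ## Helper70.BI.H.M_SML -/

section

/-!
# Project BI, stage 3 (H): germs close to the identity which preserve the vertical line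
-/

set_option autoImplicit false

open scoped Manifold ContDiff Topology ComplexConjugate
open Set Filter Pool.Agent.Helper65.Barb Pool.Agent.Helper18.BI

namespace Pool.Agent.Helper70.H

open Pool.Agent.Helper27.H (ArcD seg)
open Pool.Agent.Helper70.BI (I4 LD Eqv NearEq pc StPT StGL)

namespace SML

variable {E : Type} [NormedAddCommGroup E] [NormedSpace ℝ E]

private theorem smooth_aux (b : E → ℝ) (hb : ContDiff ℝ ∞ b) (hb0 : ∀ x, 2 ≤ ‖x‖ → b x = 0)
    (h : E → E) (y₀ : E) (r : ℝ) (hr : 0 < r)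
    (hh : ∀ y, ‖y - y₀‖ < 3 * r → ContDiffAt ℝ ∞ h y) :
    ContDiff ℝ ∞ (fun y => b (r⁻¹ • (y - y₀)) • h y) := by
  rw [contDiff_iff_contDiffAt]
  intro y
  by_cases hy : ‖y - y₀‖ < 3 * r
  · refine ContDiffAt.smul ?_ (hh y hy)
    exact (hb.comp (contDiff_const.smul (contDiff_id.sub contDiff_const))).contDiffAt
  · have h1 : ∀ᶠ z in 𝓝 y, 2 * r < ‖z - y₀‖ := by
      have hc : Continuous fun z : E => ‖z - y₀‖ := by fun_prop
      exact hc.continuousAt.eventually (lt_mem_nhds (by linarith [not_lt.1 hy]))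
    have h2 : (fun y => b (r⁻¹ • (y - y₀)) • h y) =ᶠ[𝓝 y] fun _ => (0 : E) := by
      filter_upwards [h1] with z hz
      rw [hb0, zero_smul]
      rw [norm_smul, norm_inv, Real.norm_of_nonneg hr.le, ← div_eq_inv_mul, le_div_iff₀ hr]
      exact hz.le
    exact contDiffAt_const.congr_of_eventuallyEq h2

private theorem lip_aux (b : E → ℝ) (K c : ℝ) (hK : 0 ≤ K) (hc : 0 ≤ c)
    (hb : ∀ x y, ‖b x - b y‖ ≤ K * ‖x - y‖) (hb1 : ∀ x, ‖b x‖ ≤ 1)
    (hb0 : ∀ x, 2 ≤ ‖x‖ → b x = 0)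
    (h : E → E) (y₀ : E) (r : ℝ) (hr : 0 < r) (h0 : h y₀ = 0)
    (hh : ∀ x y, ‖x - y₀‖ ≤ 2 * r → ‖y - y₀‖ ≤ 2 * r → ‖h x - h y‖ ≤ c * ‖x - y‖) (x y : E) :
    ‖b (r⁻¹ • (x - y₀)) • h x - b (r⁻¹ • (y - y₀)) • h y‖ ≤ c * (1 + 2 * K) * ‖x - y‖ := by
  have hout : ∀ z : E, 2 * r < ‖z - y₀‖ → b (r⁻¹ • (z - y₀)) = 0 := by
    intro z hz
    apply hb0
    rw [norm_smul, norm_inv, Real.norm_of_nonneg hr.le, ← div_eq_inv_mul, le_div_iff₀ hr]
    exact hz.le
  have hbd : ∀ z : E, ‖z - y₀‖ ≤ 2 * r → ‖h z‖ ≤ c * (2 * r) := by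
    intro z hz
    have := hh z y₀ hz (by rw [sub_self, norm_zero]; positivity)
    rw [h0, sub_zero] at this
    exact this.trans (by gcongr)
  have hbl : ∀ z w : E, ‖b (r⁻¹ • (z - y₀)) - b (r⁻¹ • (w - y₀))‖ ≤ K * (r⁻¹ * ‖z - w‖) := by
    intro z w
    refine (hb _ _).trans (le_of_eq ?_)
    rw [← smul_sub, norm_smul, norm_inv, Real.norm_of_nonneg hr.le]
    congr 3
    abel
  have hone : ∀ z w : E, ‖z - y₀‖ ≤ 2 * r →
      ‖(b (r⁻¹ • (z - y₀)) - b (r⁻¹ • (w - y₀))) • h z‖ ≤ c * (2 * K) * ‖z - w‖ := by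
    intro z w hz
    rw [norm_smul]
    calc _ ≤ (K * (r⁻¹ * ‖z - w‖)) * (c * (2 * r)) := by
          gcongr
          · exact hbl z w
          · exact hbd z hz
      _ = c * (2 * K) * ‖z - w‖ := by field_simp
  have key : ∀ x y : E, ‖x - y₀‖ ≤ 2 * r →
      ‖b (r⁻¹ • (x - y₀)) • h x - b (r⁻¹ • (y - y₀)) • h y‖ ≤ c * (1 + 2 * K) * ‖x - y‖ := by
    intro x y hx
    by_cases hy : ‖y - y₀‖ ≤ 2 * r
    · have e : b (r⁻¹ • (x - y₀)) • h x - b (r⁻¹ • (y - y₀)) • h y =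
          (b (r⁻¹ • (x - y₀)) - b (r⁻¹ • (y - y₀))) • h x +
            b (r⁻¹ • (y - y₀)) • (h x - h y) := by
        have e' : ∀ (s t : ℝ) (u v : E), s • u - t • v = (s - t) • u + t • (u - v) := by
          intro s t u v
          rw [sub_smul, smul_sub]; abel
        exact e' _ _ _ _
      rw [e]
      refine (norm_add_le _ _).trans ?_
      have h1 := hone x y hx
      have h2 : ‖b (r⁻¹ • (y - y₀)) • (h x - h y)‖ ≤ 1 * (c * ‖x - y‖) := by
        rw [norm_smul]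
        gcongr
        · exact hb1 _
        · exact hh x y hx hy
      calc _ ≤ c * (2 * K) * ‖x - y‖ + 1 * (c * ‖x - y‖) := add_le_add h1 h2
        _ = c * (1 + 2 * K) * ‖x - y‖ := by ring
    · have e : b (r⁻¹ • (x - y₀)) • h x - b (r⁻¹ • (y - y₀)) • h y =
          (b (r⁻¹ • (x - y₀)) - b (r⁻¹ • (y - y₀))) • h x := by
        rw [hout y (not_le.1 hy), zero_smul, sub_zero, sub_zero]
      rw [e]
      refine (hone x y hx).trans ?_
      have : 0 ≤ c * ‖x - y‖ := by positivity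
      nlinarith
  by_cases hx : ‖x - y₀‖ ≤ 2 * r
  · exact key x y hx
  by_cases hy : ‖y - y₀‖ ≤ 2 * r
  · rw [norm_sub_rev, norm_sub_rev x y]
    exact key y x hy
  · rw [hout x (not_le.1 hx), hout y (not_le.1 hy), zero_smul, zero_smul, sub_zero, norm_zero]
    positivity

end SML

open SML in
theorem m_SML (hPT : StPT) : StSML := by
  let B : ContDiffBump (0 : R4) := ⟨1, 2, one_pos, one_lt_two⟩
  have hBs : ContDiff ℝ ∞ (B : R4 → ℝ) := B.contDiff
  obtain ⟨K₀, hK₀⟩ := (B.hasCompactSupport.fderiv ℝ).exists_bound_of_continuous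
    (hBs.continuous_fderiv (by simp))
  set K : ℝ := max K₀ 0 with hKdef
  have hK : 0 ≤ K := le_max_right _ _
  have hBl : ∀ x y, ‖B x - B y‖ ≤ K * ‖x - y‖ := by
    intro x y
    exact Convex.norm_image_sub_le_of_norm_fderiv_le (s := univ)
      (fun z _ => hBs.differentiable (by simp) z)
      (fun z _ => (hK₀ z).trans (le_max_left _ _)) convex_univ (mem_univ _) (mem_univ _)
  have hB1 : ∀ x, ‖B x‖ ≤ 1 := fun x => by
    rw [Real.norm_of_nonneg B.nonneg]; exact B.le_one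
  have hB0 : ∀ x, 2 ≤ ‖x‖ → B x = 0 := fun x hx =>
    B.zero_of_le_dist (by rw [dist_zero_right]; exact hx)
  refine ⟨1 / (2 * (1 + 2 * K)), by positivity, ?_⟩
  set c : ℝ := 1 / (2 * (1 + 2 * K)) with hc
  have hc0 : 0 < c := by positivity
  have hcK : c * (1 + 2 * K) = 1 / 2 := by rw [hc]; field_simp
  intro U y₀ f hU hy₀ hf hfix hline hd
  have hf0 : ContDiffAt ℝ ∞ f y₀ := hf.self_of_nhds
  have hcont : ContinuousAt (fun y => ‖fderiv ℝ f y - ContinuousLinearMap.id ℝ R4‖) y₀ := by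
    have h1 : ContDiffAt ℝ ∞ (fderiv ℝ f) y₀ := hf0.fderiv_right (by simp)
    exact (h1.continuousAt.sub continuousAt_const).norm
  have hev : ∀ᶠ y in 𝓝 y₀, ContDiffAt ℝ ∞ f y ∧
      ‖fderiv ℝ f y - ContinuousLinearMap.id ℝ R4‖ < c ∧ y ∈ U ∧ (y.2 = 0 → (f y).2 = 0) :=
    hf.and ((hcont.eventually (gt_mem_nhds hd)).and
      (Filter.Eventually.and (hU.mem_nhds hy₀) hline))
  obtain ⟨ε, hε, hball⟩ := Metric.eventually_nhds_iff.1 hev
  set r : ℝ := ε / 4 with hr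
  have hr0 : 0 < r := by positivity
  have hb3 : ∀ y, ‖y - y₀‖ < 3 * r → ContDiffAt ℝ ∞ f y ∧
      ‖fderiv ℝ f y - ContinuousLinearMap.id ℝ R4‖ < c ∧ y ∈ U ∧ (y.2 = 0 → (f y).2 = 0) := by
    intro y hy
    apply hball
    rw [dist_eq_norm]
    linarith
  set h : R4 → R4 := fun y => f y - y with hh
  have hhs : ∀ y, ‖y - y₀‖ < 3 * r → ContDiffAt ℝ ∞ h y := fun y hy =>
    (hb3 y hy).1.sub contDiffAt_id
  have hhl : ∀ x y, ‖x - y₀‖ ≤ 2 * r → ‖y - y₀‖ ≤ 2 * r → ‖h x - h y‖ ≤ c * ‖x - y‖ := by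
    intro x y hx hy
    have hfd : ∀ z ∈ Metric.ball y₀ (3 * r), HasFDerivWithinAt h
        (fderiv ℝ f z - ContinuousLinearMap.id ℝ R4) (Metric.ball y₀ (3 * r)) z := by
      intro z hz
      rw [Metric.mem_ball, dist_eq_norm] at hz
      exact (((hb3 z hz).1.differentiableAt (by simp)).hasFDerivAt.sub
        (hasFDerivAt_id z)).hasFDerivWithinAt
    refine Convex.norm_image_sub_le_of_norm_hasFDerivWithin_le hfd ?_ (convex_ball _ _) ?_ ?_
    · intro z hz
      rw [Metric.mem_ball, dist_eq_norm] at hz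
      exact (hb3 z hz).2.1.le
    · rw [Metric.mem_ball, dist_eq_norm]; linarith
    · rw [Metric.mem_ball, dist_eq_norm]; linarith
  have hsm := smooth_aux (fun x => B x) hBs hB0 h y₀ r hr0 hhs
  have hstep : ∀ t : ℝ, ‖step t‖ ≤ 1 := by
    intro t
    rw [step, Real.norm_of_nonneg (Real.smoothTransition.nonneg t)]
    exact Real.smoothTransition.le_one t
  set g : ℝ × R4 → R4 := fun q => step q.1 • (B (r⁻¹ • (q.2 - y₀)) • h q.2) with hg
  have hgl : ∀ t x y, ‖g (t, x) - g (t, y)‖ ≤ 1 / 2 * ‖x - y‖ := by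
    intro t x y
    have h1 := lip_aux (fun x => B x) K c hK hc0.le hBl hB1 hB0 h y₀ r hr0
      (by simp [hh, hfix]) hhl x y
    rw [hcK] at h1
    simp only [hg]
    rw [← smul_sub, norm_smul]
    calc _ ≤ 1 * (1 / 2 * ‖x - y‖) := by
          gcongr
          exact hstep t
      _ = _ := one_mul _
  have hg0 : ∀ t y, 2 * r < ‖y - y₀‖ → g (t, y) = 0 := by
    intro t y hy
    have h0 : B (r⁻¹ • (y - y₀)) = 0 := by
      apply hB0
      rw [norm_smul, norm_inv, Real.norm_of_nonneg hr0.le, ← div_eq_inv_mul, le_div_iff₀ hr0]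
      exact hy.le
    simp only [hg]
    rw [h0, zero_smul, smul_zero]
  have hgline : ∀ (t : ℝ) (y : R4), y.2 = 0 → (g (t, y)).2 = 0 := by
    intro t y hy
    by_cases hyr : ‖y - y₀‖ ≤ 2 * r
    · have h1 : (f y).2 = 0 := (hb3 y (by linarith)).2.2.2 hy
      have h2 : (h y).2 = 0 := by
        simp only [hh]
        rw [Prod.snd_sub, h1, hy, sub_zero]
      simp only [hg]
      rw [Prod.smul_snd, Prod.smul_snd, h2, smul_zero, smul_zero]
    · rw [hg0 t y (not_le.1 hyr)]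
      rfl
  obtain ⟨F, hF⟩ := hPT R4 g
    ((Real.smoothTransition.contDiff.comp contDiff_fst).smul (hsm.comp contDiff_snd)) hgl
  refine ⟨F, fun y => ?_, ⟨Metric.closedBall y₀ (2 * r), isCompact_closedBall _ _, ?_, ?_⟩,
    ?_, ?_⟩
  · rw [hF]
    simp [hg, step, Real.smoothTransition.zero]
  · intro y hy
    rw [Metric.mem_closedBall, dist_eq_norm] at hy
    exact (hb3 y (by linarith)).2.2.1
  · intro t y hy
    rw [Metric.mem_closedBall, dist_eq_norm, not_le] at hy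
    rw [hF, hg0 t y hy, add_zero]
  · intro t y
    rw [hF, Prod.snd_add]
    constructor
    · intro h1
      by_contra h2
      have h3 : (g (t, (y.1, 0))).2 = 0 := hgline t (y.1, 0) rfl
      have h4 : ‖(g (t, y)).2‖ ≤ ‖g (t, y) - g (t, (y.1, 0))‖ := by
        calc ‖(g (t, y)).2‖ = ‖(g (t, y) - g (t, (y.1, 0))).2‖ := by
              rw [Prod.snd_sub, h3, sub_zero]
          _ ≤ _ := norm_snd_le _
      have h5 : ‖y - (y.1, (0 : R3))‖ = ‖y.2‖ := by
        have e : y - (y.1, (0 : R3)) = ((0 : ℝ), y.2) := by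
          ext <;> simp
        rw [e, Prod.norm_def, norm_zero]
        exact max_eq_right (norm_nonneg _)
      have h6 := h4.trans (hgl t y (y.1, 0))
      rw [h5] at h6
      have h7 : (g (t, y)).2 = - y.2 := eq_neg_of_add_eq_zero_right h1
      rw [h7, norm_neg] at h6
      have h8 : 0 < ‖y.2‖ := norm_pos_iff.2 h2
      linarith
    · intro h1
      rw [h1, hgline t y h1, add_zero]
  · filter_upwards [Metric.ball_mem_nhds y₀ hr0] with y hy
    rw [Metric.mem_ball, dist_eq_norm] at hy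
    have h1 : B (r⁻¹ • (y - y₀)) = 1 := by
      apply B.one_of_mem_closedBall
      rw [Metric.mem_closedBall, dist_zero_right, norm_smul, norm_inv,
        Real.norm_of_nonneg hr0.le, ← div_eq_inv_mul, div_le_iff₀ hr0]
      change ‖y - y₀‖ ≤ 1 * r
      linarith
    rw [hF]
    simp only [hg]
    rw [h1, step, Real.smoothTransition.one, one_smul, one_smul]
    simp [hh]

end Pool.Agent.Helper70.H


end
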