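import Pool.Agent.Helper65.Barb.Defs
import Pool.Agent.Helper70.BI.C.P23
import Pool.Agent.Helper70.BI.C.P32
import Pool.Agent.Helper70.BI.C.P34
import Pool.Agent.Helper70.BI.C.P37
import Pool.Agent.Helper70.BI.C.P48
import Pool.Agent.Helper70.BI.C.P49
import Pool.Agent.Helper70.BI.C.P50
import Pool.Agent.Helper70.BI.C.P51
import Pool.Agent.Helper70.BI.C.P52
import Pool.Agent.Helper70.BI.C.P53
import Pool.Agent.Helper70.BI.C.P54
import Pool.Agent.Helper70.BI.C.P55
import Pool.Agent.Helper70.BI.C.P56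

/-!
# Project BI (MP_8e98f2_gt): collected modules, part 57

The contents of the modules
* Helper70.BI.M_NF
* Helper70.BI.M_W
* Helper70.BI.M_MWL
* Helper70.BI.M_TH
* Helper34.BI.M_MRL
* Helper34.BI.M_LG
* Helper34.BI.M_Add2
* Helper34.BI.M_D2
* Helper34.BI.AsmD0
* Helper34.BI.AsmD
* Helper70.BI.M_PT
* Helper70.BI.M_TR
* Helper70.BI.M_GL
* Helper70.BI.M_CTR
* Helper70.BI.AsmE0
* Helper70.BI.AsmE
* Helper27.BI.R.M_MULT

in one file, so that the whole proof builds in a short time.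
-/

namespace Pool.Agent.Helper18.BI
end Pool.Agent.Helper18.BI

namespace Pool.Agent.Helper18.BI.H
end Pool.Agent.Helper18.BI.H

namespace Pool.Agent.Helper18.BI.R
end Pool.Agent.Helper18.BI.R

namespace Pool.Agent.Helper27.BI
end Pool.Agent.Helper27.BI

namespace Pool.Agent.Helper27.H
end Pool.Agent.Helper27.H

namespace Pool.Agent.Helper34.BI
end Pool.Agent.Helper34.BI

namespace Pool.Agent.Helper65.Barb
end Pool.Agent.Helper65.Barb

namespace Pool.Agent.Helper70.BI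
end Pool.Agent.Helper70.BI

namespace Pool.Agent.Helper70.BI.NF1
end Pool.Agent.Helper70.BI.NF1


/-! ## Helper70.BI.M_NF -/

section

/-!
# Project BI, part (E), module NF: normal form at both ends
-/

set_option autoImplicit false

open scoped Manifold ContDiff Topology ComplexConjugate
open Set Filter Pool.Agent.Helper65.Barb Pool.Agent.Helper18.BI

namespace Pool.Agent.Helper70.BI

namespace NF

open Pool.Agent.Helper70.BI.NF1

private theorem sph_subset {c : ℝ} (hc : c = 0 ∨ c = 1) : sph (1 - c) ⊆ SP := by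
  rcases hc with rfl | rfl
  · rw [sub_zero]
    exact fun p hp => Or.inl (Or.inr hp)
  · rw [sub_self]
    exact fun p hp => Or.inl (Or.inl hp)

/-- the data `Br` depend on the germ along `SP ∪ flat c` only -/
private theorem br_congr {c γ e : ℝ} {F F' : R4 → R4} (hc : c = 0 ∨ c = 1) (h : Br c F γ e)
    (hN : ∀ p ∈ SP ∪ flat c, F =ᶠ[𝓝 p] F') : Br c F' γ e := by
  have hE : ∀ p ∈ SP ∪ flat c, F p = F' p := fun p hp => (hN p hp).self_of_nhds
  have hsub : flat c ∪ sph (1 - c) ⊆ SP ∪ flat c := by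
    rintro p (hp | hp)
    · exact Or.inr hp
    · exact Or.inl (sph_subset hc hp)
  have hnk : ∀ a ∈ Icc (1 / 5 : ℝ) (4 / 5), ax a ∈ SP ∪ flat c := fun a ha =>
    Or.inl (Or.inr (ax_mem_neck ha.1 ha.2))
  have himg : F' '' flat c = F '' flat c :=
    image_congr fun p hp => (hE p (Or.inr hp)).symm
  refine ⟨fun p hp => ld_congr (hN p hp) (h.loc p hp),
    h.inj.congr fun p hp => hE p (Or.inl hp), h.injF.congr fun p hp => hE p (hsub hp), h.mem,
    ?_, ?_⟩
  · obtain ⟨x₀, h1, h2, l, v, h3, h4⟩ := h.cr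
    have m1 : ax γ ∈ SP ∪ flat c := hnk γ ⟨h.mem.1.le, h.mem.2.le⟩
    have m2 : ((1 / 2 : ℝ), x₀) ∈ SP ∪ flat c := Or.inr (ball_mem_flat h1)
    refine ⟨x₀, h1, ?_, l, v, h3, ?_⟩
    · show F' (ax γ) = F' (1 / 2, x₀)
      rw [← hE _ m1, ← hE _ m2]
      exact h2
    · rw [← (hN _ m1).fderiv_eq, ← (hN _ m2).fderiv_eq]
      exact h4
  · intro a ha hm
    refine h.only a ha ?_
    rw [himg] at hm
    have h5 : core F' a = core F a := (hE _ (hnk a ha)).symm
    rwa [h5] at hm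

private theorem rsq_flat_other {c : ℝ} (hc : c = 0 ∨ c = 1) {p : R4} (hp : p ∈ flat (1 - c)) :
    1 / 25 ≤ rsq c p := by
  have e : rsq 1 p = rsq 0 p - 2 * p.2.1 + 1 := rsq_one_eq p
  have h0 := sq_le_rsq p
  have h1 := sq_le_rsq_one p
  obtain ⟨-, h2⟩ := hp
  rcases hc with rfl | rfl
  · rw [sub_zero] at h2
    have h3 : 4 / 5 ≤ p.2.1 := by nlinarith
    nlinarith
  · rw [sub_self] at h2
    have h3 : p.2.1 ≤ 1 / 5 := by nlinarith
    nlinarith

/-- transport of the data at the other end -/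
private theorem br_other {c γ e η : ℝ} {F F' : R4 → R4} (hc : c = 0 ∨ c = 1) (G : DFam I4 R4)
    (h : Br (1 - c) F γ e) (hη : 0 < η)
    (h1 : ∀ p, 1 / 25 - η ≤ rsq c p → F' p = G.f (1, F p)) : Br (1 - c) F' γ e := by
  have hc' : 1 - c = 0 ∨ 1 - c = 1 := by
    rcases hc with rfl | rfl
    · right; norm_num
    · left; norm_num
  refine br_congr hc' (br_post h G) fun p hp => ?_
  have h2 : 1 / 25 ≤ rsq c p := by
    rcases hp with hp | hp
    · exact le_rsq_of_mem_SP hc hp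
    · exact rsq_flat_other hc hp
  have hopen : IsOpen {p : R4 | 1 / 25 - η < rsq c p} :=
    isOpen_lt continuous_const (continuous_rsq c)
  have h3 : p ∈ {p : R4 | 1 / 25 - η < rsq c p} := by
    show 1 / 25 - η < rsq c p
    linarith
  filter_upwards [hopen.mem_nhds h3] with q hq
  exact (h1 q (le_of_lt hq)).symm

private theorem image_other {c η : ℝ} {F F' : R4 → R4} (hc : c = 0 ∨ c = 1) (G : DFam I4 R4)
    (hη : 0 < η) (h1 : ∀ p, 1 / 25 - η ≤ rsq c p → F' p = G.f (1, F p)) :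
    F' '' flat (1 - c) = (fun y => G.f (1, y)) '' (F '' flat (1 - c)) := by
  rw [image_image]
  refine image_congr fun p hp => h1 p ?_
  have := rsq_flat_other hc hp
  linarith

private theorem disj_image (G : DFam I4 R4) {A B : Set R4} (h : Disjoint A B) :
    Disjoint ((fun y => G.f (1, y)) '' A) ((fun y => G.f (1, y)) '' B) :=
  (disjoint_image_iff (inj_dfam G)).2 h

private theorem locFB {F : R4 → R4} {α β e d : ℝ} (ha : Br 0 F α e) (hb : Br 1 F β d) :
    ∀ p ∈ FB, LD F p := by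
  rintro p ((hp | hp) | hp)
  · exact ha.loc p (Or.inr hp)
  · exact hb.loc p (Or.inr hp)
  · exact ha.loc p (Or.inl (Or.inr hp))

private theorem det_id {F : R4 → R4} {p : R4} (h : ∀ᶠ q in 𝓝 p, F q = q) :
    0 < (fderiv ℝ F p).det := by
  have h1 : F =ᶠ[𝓝 p] fun q => q := h
  rw [h1.fderiv_eq, fderiv_fun_id, ContinuousLinearMap.det]
  simp

private theorem rank_R4 : 1 < Module.rank ℝ R4 := by
  have h : Module.finrank ℝ R4 = 4 := by
    simp [Module.finrank_prod]
  rw [← Module.finrank_eq_rank, h]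
  norm_num

/-- composition of a strand function with the affine parametrization -/
private theorem affine_strand {τ : ℝ → ℝ} {γ e x : ℝ}
    (hs : ∀ᶠ s in 𝓝 (1 / 2 : ℝ), ContDiffAt ℝ ∞ τ s) (hv : τ (1 / 2) = γ)
    (hd : 0 < e * deriv τ (1 / 2)) :
    (∀ᶠ a in 𝓝 x, ContDiffAt ℝ ∞ (fun a => τ (1 / 2 + e * (a - x))) a) ∧
      τ (1 / 2 + e * (x - x)) = γ ∧ 0 < deriv (fun a => τ (1 / 2 + e * (a - x))) x := by
  have hlim : Tendsto (fun a : ℝ => 1 / 2 + e * (a - x)) (𝓝 x) (𝓝 (1 / 2)) := by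
    have : ContinuousAt (fun a : ℝ => 1 / 2 + e * (a - x)) x := by fun_prop
    have h := this.tendsto
    simpa using h
  refine ⟨?_, ?_, ?_⟩
  · filter_upwards [hlim.eventually hs] with a ha
    exact ha.comp a (by fun_prop)
  · rw [sub_self, mul_zero, add_zero, hv]
  · have h7 : HasDerivAt (fun a : ℝ => 1 / 2 + e * (a - x)) e x := by
      have := (((hasDerivAt_id x).sub_const x).const_mul e).const_add (1 / 2)
      simpa using this
    have h8 : HasDerivAt τ (deriv τ (1 / 2)) (1 / 2 + e * (x - x)) := by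
      rw [sub_self, mul_zero, add_zero]
      exact (hs.self_of_nhds.differentiableAt (by simp)).hasDerivAt
    have h9 := (h8.comp x h7).deriv
    have h10 : deriv (fun a => τ (1 / 2 + e * (a - x))) x = deriv τ (1 / 2) * e := h9
    rw [h10]
    linarith

end NF

open NF NF1 in
/-- **MODULE NF.** -/
theorem m_NF (hNF1 : StNF1) (hNF2 : StNF2) (hRM : StRM) (hRG : StRG) (hDET : StDET)
    (hF : StFam) : StNF := by
  have _ := hF
  intro F α β e d he hd hT hdet
  have hneck : ∀ a ∈ Icc (1 / 5 : ℝ) (4 / 5), ax a ∈ FB := fun a ha =>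
    Or.inr (ax_mem_neck ha.1 ha.2)
  -- first end
  have hdet0 : 0 < (fderiv ℝ F (ax (1 / 5 + 3 / 5 * 0))).det := by
    refine hDET F FB (Or.inl rfl) (locFB hT.a hT.b) _ (hneck (1 / 2) ⟨by norm_num, by norm_num⟩) _
      (hneck _ ⟨by norm_num, by norm_num⟩) hdet
  obtain ⟨F₁, G, hE1, hA1, hS1, hc1, hid1, -, -, ⟨η, hη, hG1⟩, himg1⟩ :=
    hNF1 0 F α e univ (Or.inl rfl) hT.a hdet0 isOpen_univ isPreconnected_univ (mem_univ _)
      (mem_univ _)
  have hB1 : Br 1 F₁ β d := by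
    have h := br_other (c := 0) (Or.inl rfl) G (F := F) (F' := F₁) (γ := β) (e := d) (η := η)
      (by rw [sub_zero]; exact hT.b) hη hG1
    rwa [sub_zero] at h
  have hdis1 : Disjoint (F₁ '' flat 0) (F₁ '' flat 1) := by
    have h := image_other (c := 0) (Or.inl rfl) G hη hG1
    rw [sub_zero] at h
    rw [himg1, h]
    exact disj_image G hT.dis
  -- second end
  have hdet1 : 0 < (fderiv ℝ F₁ (ax (1 / 5 + 3 / 5 * 1))).det := by
    refine hDET F₁ FB (Or.inl rfl) (locFB hA1 hB1) (ax 0) (Or.inl (Or.inl (centre_mem_flat 0))) _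
      (hneck _ ⟨by norm_num, by norm_num⟩) (det_id hid1)
  have hU1 : core F₁ β ∈ ({ax 0}ᶜ : Set R4) := by
    intro h
    obtain ⟨x₀, h1, h2, -⟩ := hB1.cr
    have m1 : ax 0 ∈ F₁ '' flat 0 := ⟨ax 0, centre_mem_flat 0, hid1.self_of_nhds⟩
    have m2 : ax 0 ∈ F₁ '' flat 1 := by
      refine ⟨(1 / 2, x₀), ball_mem_flat h1, ?_⟩
      rw [← h2]
      exact h
    exact Set.disjoint_left.1 hdis1 m1 m2
  have hU2 : ax 1 ∈ ({ax 0}ᶜ : Set R4) := by
    intro h
    have h1 : (1 : ℝ) = 0 := congrArg (fun p : R4 => p.2.1) h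
    exact one_ne_zero h1
  obtain ⟨F₂, G', hE2, hB2, hS2, hc2, hid2, -, ⟨C, hC, hCU, hG'C⟩, ⟨η', hη', hG2⟩, himg2⟩ :=
    hNF1 1 F₁ β d {ax 0}ᶜ (Or.inr rfl) hB1 hdet1 isOpen_compl_singleton
      (isConnected_compl_singleton_of_one_lt_rank rank_R4 _).isPreconnected hU1 hU2
  have hA2 : Br 0 F₂ α e := by
    have h := br_other (c := 1) (Or.inr rfl) G' (F := F₁) (F' := F₂) (γ := α) (e := e) (η := η')
      (by rw [sub_self]; exact hA1) hη' hG2
    rwa [sub_self] at h
  have hdis2 : Disjoint (F₂ '' flat 0) (F₂ '' flat 1) := by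
    have h := image_other (c := 1) (Or.inr rfl) G' hη' hG2
    rw [sub_self] at h
    rw [himg2, h]
    exact disj_image G' hdis1
  -- `F₂` near `ax 0`
  have hG'id : ∀ᶠ y in 𝓝 (ax 0), G'.f (1, y) = y := by
    have h1 : ax 0 ∈ Cᶜ := fun h => hCU h rfl
    filter_upwards [hC.isClosed.isOpen_compl.mem_nhds h1] with y hy
    exact hG'C 1 y hy
  have hopen : IsOpen {p : R4 | 1 / 25 - η' < rsq 1 p} :=
    isOpen_lt continuous_const (continuous_rsq 1)
  have hax0 : ax 0 ∈ {p : R4 | 1 / 25 - η' < rsq 1 p} := by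
    show 1 / 25 - η' < rsq 1 (ax 0)
    rw [rsq_ax]
    norm_num
    linarith
  have hF2near : ∀ᶠ q in 𝓝 (ax 0), F₂ q = G'.f (1, F₁ q) := by
    filter_upwards [hopen.mem_nhds hax0] with q hq
    exact hG2 q (le_of_lt hq)
  have hid20 : ∀ᶠ q in 𝓝 (ax 0), F₂ q = q := by
    filter_upwards [hF2near, hid1, hG'id] with q h1 h2 h3
    rw [h1, h2, h3]
  -- the strands
  obtain ⟨τ₀, t1, t2, t3, t4⟩ := hS1
  obtain ⟨τ₁, u1, u2, u3, u4⟩ := hS2
  have t5 : ∀ᶠ s in 𝓝 (1 / 2 : ℝ), F₂ (s, pc 0) = core F₂ (τ₀ s) := by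
    have c1 : ContinuousAt τ₀ (1 / 2) := t1.self_of_nhds.continuousAt
    have c2 : ∀ᶠ s in 𝓝 (1 / 2 : ℝ), τ₀ s < 4 / 5 := by
      refine c1.eventually (Iio_mem_nhds ?_)
      rw [t2]
      exact hA1.mem.2
    have c3 : ContinuousAt (fun s : ℝ => ((s, pc 0) : R4)) (1 / 2) := by fun_prop
    have c4 : ∀ᶠ s in 𝓝 (1 / 2 : ℝ), F₂ (s, pc 0) = G'.f (1, F₁ (s, pc 0)) :=
      c3.eventually hF2near
    filter_upwards [c2, c4, t4] with s h1 h2 h3
    have h4 : core F₂ (τ₀ s) = G'.f (1, core F₁ (τ₀ s)) := by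
      refine hG2 _ ?_
      rw [rsq_ax]
      nlinarith
    rw [h2, h3, h4]
  obtain ⟨p1, p2, p3⟩ := affine_strand (x := 3 / 5) t1 t2 t3
  obtain ⟨q1, q2, q3⟩ := affine_strand (x := 2 / 5) u1 u2 u3
  obtain ⟨m, hm, hm1, hm2⟩ := hRM.2 (2 / 5) (3 / 5) β α
    (fun a => τ₁ (1 / 2 + d * (a - 2 / 5))) (fun a => τ₀ (1 / 2 + e * (a - 3 / 5)))
    (by norm_num) (by norm_num) (by norm_num) hB1.mem.1 hT.ord hA1.mem.2 q1 p1 q2 p2 q3 p3
  obtain ⟨δ₀, hδ₀, n0⟩ := hNF2 0 F₂ α (3 / 5) e τ₀ m (Or.inl rfl) he hA2 hid20 t2 t5 hm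
    ⟨by norm_num, by norm_num⟩ hm2
  obtain ⟨δ₁, hδ₁, n1⟩ := hNF2 1 F₂ β (2 / 5) d τ₁ m (Or.inr rfl) hd hB2 hid2 u2 u4 hm
    ⟨by norm_num, by norm_num⟩ hm1
  have hδ : 0 < min δ₀ δ₁ := lt_min hδ₀ hδ₁
  have N0 := n0 (min δ₀ δ₁) ⟨hδ, min_le_left _ _⟩
  have N1 := n1 (min δ₀ δ₁) ⟨hδ, min_le_right _ _⟩
  obtain ⟨-, -, r3, -, -, r6⟩ := hRG m hm
  have himg : ∀ c : ℝ, (c = 0 ∨ c = 1) → (fun p => F₂ (repm m p)) '' flat c = F₂ '' flat c := by
    intro c hc
    refine image_congr fun p hp => ?_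
    rw [(r3 c hc p hp).self_of_nhds]
  refine ⟨fun p => F₂ (repm m p), min δ₀ δ₁, ⟨⟨N0.br, N1.br, ?_, by norm_num⟩, N0, N1⟩, ?_⟩
  · rw [himg 0 (Or.inl rfl), himg 1 (Or.inr rfl)]
    exact hdis2
  · exact hE1.trans (hE2.trans (r6 F₂ (embOn_of_br hA2)).2)

end Pool.Agent.Helper70.BI


end

/-! ## Helper70.BI.M_W -/

section

/-!
# Project BI, part (E), module W: the class of theta germs
-/

set_option autoImplicit false

open scoped Manifold ContDiff Topology ComplexConjugate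
open Set Filter Pool.Agent.Helper65.Barb Pool.Agent.Helper18.BI

namespace Pool.Agent.Helper70.BI

open Pool.Agent.Helper27.BI (refh refs swp IsKap StVanT StRefH StRefS StR2sw StADD2)

theorem Br.embOn {c γ e : ℝ} {F : R4 → R4} (h : Br c F γ e) : EmbOn I4 F SP :=
  ⟨fun p hp => h.loc p (Or.inl hp), h.inj⟩

theorem m_W (hUT : StUT) (hSYM : StSYM) (hR3 : StR3) (hT2 : StT2) (hCI : StCI)
    (hRefH : StRefH) (hRefS : StRefS) (hSw : StR2sw) : StW := by
  obtain ⟨-, tii, -, tiv, -, -, tvii⟩ := hT2 R4 R4 I4 R4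
  obtain ⟨-, cs, cself, ct, cc, -, cex, -, -, -⟩ := hCI R4 R4 I4 R4
  -- the symmetry `refs ∘ refh`
  have step1 : ∀ (F φ : R4 → R4) (α β e d : ℝ), Theta F α β e d →
      0 < (fderiv ℝ F (ax (1 / 2))).det → Thin I4 F φ →
      ∃ G : R4 → R4, Theta G α β (-e) (-d) ∧ 0 < (fderiv ℝ G (ax (1 / 2))).det ∧
        Thin I4 G φ := by
    intro F φ α β e d hF o ht
    obtain ⟨φ', -, i1, i2⟩ := cex φ (tvii F φ ht)
    obtain ⟨⟨h1, -, h2⟩, -, -, -⟩ := hSYM F α β e d hF
    have t1 : Thin I4 (fun p => F (refh p)) φ' :=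
      (hRefH R4 R4 I4 R4 F φ φ' hF.a.embOn i1 i2).1 ht
    obtain ⟨-, ⟨h3, h4⟩, -, -⟩ := hSYM _ α β e d h1
    have t2 : Thin I4 (fun p => F (refh (refs p))) φ :=
      (hRefS R4 R4 I4 R4 (fun p => F (refh p)) φ' φ h1.a.embOn i2 i1).1 t1
    exact ⟨_, h3, h4 (h2 o), t2⟩
  -- uniqueness
  have uniq : ∀ (F G φ : R4 → R4) (α β α' β' e d : ℝ), (e = 1 ∨ e = -1) → (d = 1 ∨ d = -1) →
      Theta F α β e d → Theta G α' β' e d → 0 < (fderiv ℝ F (ax (1 / 2))).det →
      0 < (fderiv ℝ G (ax (1 / 2))).det → Thin I4 F φ → Thin I4 G φ := by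
    intro F G φ α β α' β' e d he hd hF hG oF oG ht
    exact (hUT F G α β α' β' e d he hd hF hG oF oG φ).1 ht
  obtain ⟨F₁, F₂, α₁, α₂, β₁, β₂, W, φ₂, th1, th2, o1, o2, t1, t2, h12⟩ := hR3 1 (Or.inl rfl)
  obtain ⟨W', hW', i1, i2⟩ := cex W (tvii F₁ W t1)
  -- `W ~ W'`
  have hWW : CIsot I4 W W' := by
    obtain ⟨G, g1, g2, g3⟩ := step1 F₁ W α₁ β₁ 1 1 th1 o1 t1
    obtain ⟨-, -, ⟨s1, s2⟩, -⟩ := hSYM F₁ α₁ β₁ 1 1 th1
    have s3 : Thin I4 (fun p => F₁ (swp p)) W' :=
      (hSw R4 R4 I4 R4 F₁ W W' th1.a.embOn i1 i2).1 t1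
    have s4 : Thin I4 G W' :=
      uniq _ G W' _ _ _ _ (-1) (-1) (Or.inr rfl) (Or.inr rfl) s1 g1 (s2 o1) g2 s3
    exact tii G W W' g3 s4
  have hsq : CIsot I4 (fun x => W (W x)) (fun x => x) := by
    have h := cc W W W W' (cself W W' hWW) hWW
    have e : (fun x => W (W' x)) = fun x => x := funext i1
    rwa [e] at h
  -- the class of `F₂`
  have t2' : Thin I4 F₂ W := by
    have h := cc _ _ W' W' h12 hW'
    have e : (fun x => φ₂ (W (W' x))) = φ₂ := funext fun x => by rw [i1]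
    have h' : CIsot I4 W' φ₂ := by
      have e' : (fun x => φ₂ (W (W' x))) = φ₂ := e
      simpa [e'] using h
    exact tiv F₂ φ₂ W t2 (ct _ _ _ (cs _ _ h') (cs _ _ hWW))
  -- one positive germ for each pair of signs
  have ex : ∀ e d : ℝ, (e = 1 ∨ e = -1) → (d = 1 ∨ d = -1) → ∃ (G : R4 → R4) (α β : ℝ),
      Theta G α β e d ∧ 0 < (fderiv ℝ G (ax (1 / 2))).det ∧ Thin I4 G W := by
    intro e d he hd
    rcases he with rfl | rfl <;> rcases hd with rfl | rfl
    · exact ⟨F₁, α₁, β₁, th1, o1, t1⟩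
    · obtain ⟨G, g1, g2, g3⟩ := step1 F₂ W α₂ β₂ (-1) 1 th2 o2 t2'
      rw [neg_neg] at g1
      exact ⟨G, α₂, β₂, g1, g2, g3⟩
    · exact ⟨F₂, α₂, β₂, th2, o2, t2'⟩
    · obtain ⟨G, g1, g2, g3⟩ := step1 F₁ W α₁ β₁ 1 1 th1 o1 t1
      exact ⟨G, α₁, β₁, g1, g2, g3⟩
  -- positive germs
  have pos : ∀ (F : R4 → R4) (α β e d : ℝ), (e = 1 ∨ e = -1) → (d = 1 ∨ d = -1) →
      Theta F α β e d → 0 < (fderiv ℝ F (ax (1 / 2))).det → Thin I4 F W := by
    intro F α β e d he hd hF o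
    obtain ⟨G, α', β', g1, g2, g3⟩ := ex e d he hd
    exact uniq G F W _ _ _ _ e d he hd g1 hF g2 o g3
  refine ⟨W, F₁, α₁, β₁, th1, t1, hsq, ?_⟩
  intro F α β e d he hd hF
  obtain ⟨⟨h1, h2, -⟩, -, -, h0⟩ := hSYM F α β e d hF
  rcases lt_or_gt_of_ne h0 with hneg | hpos
  · have h3 := pos _ α β e d he hd h1 (h2 hneg)
    have h4 : Thin I4 F W' := (hRefH R4 R4 I4 R4 F W' W hF.a.embOn i2 i1).2 h3
    exact tiv F W' W h4 (cs _ _ hWW)
  · exact pos F α β e d he hd hF hpos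

end Pool.Agent.Helper70.BI


end

/-! ## Helper70.BI.M_MWL -/

section

/-!
# Project BI, part (E), module E-MWL: the relation `MW`, and `W` is central
-/

set_option autoImplicit false

open scoped Manifold ContDiff Topology ComplexConjugate
open Set Filter Pool.Agent.Helper65.Barb Pool.Agent.Helper18.BI

namespace Pool.Agent.Helper70.BI

open Pool.Agent.Helper27.BI (swp StR2sw)

namespace MWL

/-- a map compactly supported isotopic to itself is smooth -/
private theorem smooth_of_cisot {φ : R4 → R4} (h : CIsot I4 φ φ) : ContMDiff I4 I4 ∞ φ := by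
  obtain ⟨G, -, -, h1⟩ := h
  have e : φ = fun x => G.f (1, x) := funext fun x => (h1 x).symm
  rw [e]
  exact contMDiff_iff_contDiff.2 ((contDiff_dfam G).comp (contDiff_prodMk_right (1 : ℝ)))

/-- theta germs composed with diffeomorphisms -/
private theorem theta_post {φ : R4 → R4} (h : CIsot I4 φ φ) {F : R4 → R4} {α β e d : ℝ}
    (hF : Theta F α β e d) : Theta (fun p => φ (F p)) α β e d := by
  obtain ⟨G, -, -, h1⟩ := h
  have e : φ = fun x => G.f (1, x) := funext fun x => (h1 x).symm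
  rw [e]
  refine ⟨NF1.br_post hF.a G, NF1.br_post hF.b G, ?_, hF.ord⟩
  rw [Set.disjoint_left]
  rintro y ⟨p, hp, rfl⟩ ⟨q, hq, he⟩
  have h2 : F q = F p := NF1.inj_dfam G he
  exact Set.disjoint_left.1 hF.dis ⟨p, hp, rfl⟩ ⟨q, hq, h2⟩

end MWL

/-- **MWL.** Properties of the relation `MW`, and `W` is central. -/
theorem m_MWL (hT2 : StT2) (hCI : StCI) (hSw : StR2sw) : StMWL := by
  intro W hW
  obtain ⟨ti, tii, tiii, -, -, tvi, tvii⟩ := hT2 R4 R4 I4 R4
  obtain ⟨-, cs, -, ct, cc, cinv, cex, -, -, -⟩ := hCI R4 R4 I4 R4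
  have sw := hSw R4 R4 I4 R4
  obtain ⟨F₀, α₀, β₀, hθ, hF₀⟩ := hW.rep
  have hWW : CIsot I4 W W := tvii F₀ W hF₀
  have hsq : ∀ ψ : R4 → R4, CIsot I4 ψ ψ → CIsot I4 (fun x => W (W (ψ x))) ψ := fun ψ hψ =>
    cc (fun x => W (W x)) (fun x => x) ψ ψ hW.sq hψ
  have hcen : ∀ φ : R4 → R4, CIsot I4 φ φ → CIsot I4 (fun x => W (φ x)) (fun x => φ (W x)) := by
    intro φ hφ
    obtain ⟨φ', hφ', h1, h2⟩ := cex φ hφ
    have a1 : Thin I4 (fun p => φ (F₀ p)) W :=
      hW.all _ α₀ β₀ 1 1 (Or.inl rfl) (Or.inl rfl) (MWL.theta_post hφ hθ)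
    have a2 : Thin I4 (fun p => φ (F₀ p)) (fun x => φ (W (φ' x))) :=
      tvi F₀ W φ φ' (MWL.smooth_of_cisot hφ) (MWL.smooth_of_cisot hφ') h1 h2 hF₀
    have a3 := tii _ _ _ a1 a2
    have a4 := cc W (fun x => φ (W (φ' x))) φ φ a3 hφ
    have a5 : (fun x => φ (W (φ' (φ x)))) = fun x => φ (W x) := funext fun x => by rw [h2]
    rwa [a5] at a4
  refine ⟨hcen, ?_, ?_, ?_, ?_, ?_, ?_⟩
  · intro F φ ψ hφ hψ
    exact Or.inl (tii F ψ φ hψ hφ)
  · intro F G h φ ψ hφ hψ
    rcases h ψ φ hψ hφ with h1 | h1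
    · exact Or.inl (cs _ _ h1)
    · refine Or.inr (cs _ _ ?_)
      exact ct _ _ _ (cc W W φ (fun x => W (ψ x)) hWW h1) (hsq ψ (tvii F ψ hψ))
  · intro F G H hG h1 h2 φ ψ hφ hψ
    obtain ⟨ε₀, hε₀, hT⟩ := ti G hG
    have hχ := hT (ε₀ / 2) ⟨by linarith, by linarith⟩
    rcases h1 φ _ hφ hχ with c1 | c1
    · rcases h2 _ ψ hχ hψ with c2 | c2
      · exact Or.inl (ct _ _ _ c2 c1)
      · exact Or.inr (ct _ _ _ c2 (cc W W _ φ hWW c1))
    · rcases h2 _ ψ hχ hψ with c2 | c2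
      · exact Or.inr (ct _ _ _ c2 c1)
      · exact Or.inl (ct _ _ _ c2 (ct _ _ _ (cc W W _ (fun x => W (φ x)) hWW c1)
          (hsq φ (tvii F φ hφ))))
  · intro J t₁ t₂ ht hs he φ ψ hφ hψ
    refine Or.inl ?_
    set a : ℝ × R4 → ℝ × R4 := fun q => (t₁ + q.1 * (t₂ - t₁), q.2) with ha
    have hac : ContDiff ℝ ∞ a :=
      (contDiff_const.add (contDiff_fst.mul contDiff_const)).prodMk contDiff_snd
    have hmem : ∀ t ∈ Icc (0 : ℝ) 1, t₁ + t * (t₂ - t₁) ∈ Icc t₁ t₂ := by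
      intro t h
      constructor
      · nlinarith [h.1]
      · nlinarith [h.2]
    have hfam : FamOn I4 (fun q => J (a q)) SP := by
      rw [famOn_iff]
      refine ⟨fun t h p hp => ?_, fun t h => he _ (hmem t h)⟩
      have h1 := hs (t₁ + t * (t₂ - t₁)) (hmem t h) p hp
      have h2 : Tendsto a (𝓝 (t, p)) (𝓝 (t₁ + t * (t₂ - t₁), p)) :=
        hac.continuous.tendsto (t, p)
      filter_upwards [h2.eventually h1] with q hq
      exact ContDiffAt.comp q hq hac.contDiffAt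
    have h0 : (fun p : R4 => J (a (0, p))) = fun p => J (t₁, p) := by
      funext p; simp [ha]
    have h1 : (fun p : R4 => J (a (1, p))) = fun p => J (t₂, p) := by
      funext p; simp [ha]
    have h2 := tiii (fun q => J (a q)) φ hfam (by rw [h0]; exact hφ)
    rw [h1] at h2
    exact tii _ _ _ hψ h2
  · intro F G hF hG h φ ψ hφ hψ
    obtain ⟨φ', -, hφ1, hφ2⟩ := cex φ (tvii F φ hφ)
    obtain ⟨ψ', -, hψ1, hψ2⟩ := cex ψ (tvii G ψ hψ)
    have b1 := (sw F φ φ' hF hφ1 hφ2).1 hφ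
    have b2 := (sw G ψ ψ' hG hψ1 hψ2).1 hψ
    rcases h φ' ψ' b1 b2 with c1 | c1
    · exact Or.inl (cinv ψ' φ' ψ φ c1 hψ2 hφ2)
    · refine Or.inr ?_
      obtain ⟨W', hW', w1, w2⟩ := cex W hWW
      have d1 : CIsot I4 ψ (fun x => φ (W' x)) :=
        cinv ψ' (fun x => W (φ' x)) ψ (fun x => φ (W' x)) c1 hψ2 fun x => by rw [hφ2, w1]
      have d2 : CIsot I4 W W' := by
        have d3 := cc W' W' (fun x => W (W x)) (fun x => x) hW' hW.sq
        have d4 : (fun x => W' (W (W x))) = W := funext fun x => w2 (W x)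
        rwa [d4] at d3
      exact ct _ _ _ d1 (ct _ _ _ (cc φ φ W' W (tvii F φ hφ) (cs _ _ d2))
        (cs _ _ (hcen φ (tvii F φ hφ))))
  · intro F F' G h hFG φ ψ hφ hψ
    exact hFG φ ψ ((h φ).2 hφ) hψ

end Pool.Agent.Helper70.BI


end

/-! ## Helper70.BI.M_TH -/

section

/-!
# Project BI, part (E), module TH: the obstruction germ is a theta germ
-/

set_option autoImplicit false

open scoped Manifold ContDiff Topology ComplexConjugate
open Set Filter Pool.Agent.Helper65.Barb Pool.Agent.Helper18.BI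

namespace Pool.Agent.Helper70.BI

namespace TH

private theorem isCompact_flat (c : ℝ) : IsCompact (flat c) := by
  apply Metric.isCompact_of_isClosed_isBounded
  · apply IsClosed.inter (isClosed_eq continuous_fst continuous_const)
    exact isClosed_le (continuous_rsq c) continuous_const
  · exact (isBounded_of_rsq c (1 / 25) (1 / 2) (1 / 2)).subset
      (fun p hp => ⟨hp.1.ge, hp.1.le, hp.2⟩)

private theorem lt_of_flat {p : R4} (hp : p ∈ flat 1) : 1 / 2 < p.2.1 := by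
  have h1 := sq_le_rsq_one p
  have h2 := hp.2
  nlinarith

private theorem lt_of_sph {p : R4} (hp : p ∈ sph 0) : p.2.1 < 1 / 2 := by
  have h1 := sq_le_rsq p
  have h2 := hp.2
  nlinarith

private theorem sph_sub_flat (c : ℝ) : sph c ⊆ flat c := fun _ hp => ⟨hp.1, hp.2.le⟩

private theorem ax_mem_SP {a : ℝ} (h1 : 1 / 5 ≤ a) (h2 : a ≤ 4 / 5) : ax a ∈ SP :=
  Or.inr ⟨rfl, h1, h2, rfl⟩

private theorem ball_mem_flat {c : ℝ} {x₀ : R3} (h : nsq (x₀ - pc c) < 1 / 25) :
    ((1 / 2 : ℝ), x₀) ∈ flat c := by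
  refine ⟨rfl, ?_⟩
  have e : rsq c ((1 / 2 : ℝ), x₀) = nsq (x₀ - pc c) := by
    simp [rsq, nsq, pc]
  rw [e]
  exact h.le

private theorem hasDerivAt_core {J : R4 → R4} {a : ℝ} (hJ : LD J (ax a)) :
    HasDerivAt (core J) (fderiv ℝ J (ax a) (0, ((1 : ℝ), (0 : ℂ)))) a := by
  have hd : HasFDerivAt J (fderiv ℝ J (ax a)) (ax a) :=
    ((ld_iff.1 hJ).1.self_of_nhds.differentiableAt (by simp)).hasFDerivAt
  have hax : HasDerivAt ax (0, ((1 : ℝ), (0 : ℂ))) a :=
    (hasDerivAt_const a (1 / 2 : ℝ)).prodMk ((hasDerivAt_id a).prodMk (hasDerivAt_const a (0 : ℂ)))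
  exact hd.comp_hasDerivAt a hax

private theorem eventuallyEq_of_lt {O G : R4 → R4} (h : ∀ p : R4, 1 / 2 < p.2.1 → O p = G p)
    {p : R4} (hp : 1 / 2 < p.2.1) : O =ᶠ[𝓝 p] G := by
  have hc : Continuous fun q : R4 => q.2.1 := by fun_prop
  filter_upwards [(isOpen_lt continuous_const hc).mem_nhds hp] with q hq
  exact h q hq

/-- the second cuff of the obstruction germ bounds a flat ball which is met once by the bar -/
private theorem br_one {J : ℝ × R4 → R4} {d t₀ t' α e : ℝ} {O : R4 → R4} (hJ : BFam1 J d)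
    (hO : Br 0 O α e)
    (hcore : ∀ a ∈ Icc (1 / 5 : ℝ) (4 / 5), core O a = core (fun p => J (t', p)) a)
    (hright : ∀ p : R4, 1 / 2 < p.2.1 → O p = J (t', p))
    (hdis : Disjoint ((fun p => J (t₀, p)) '' flat 1) (O '' flat 0)) : Br 1 O (2 / 5) d := by
  have hflat : ∀ p ∈ flat 1, O p = J (t', p) := fun p hp => hright p (lt_of_flat hp)
  have himg : O '' flat 1 = (fun p => J (t', p)) '' flat 1 := image_congr hflat
  have hne : ∀ p ∈ flat 1, ∀ q ∈ sph 0, O p ≠ O q := by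
    intro p hp q hq he
    refine (Set.disjoint_left.1 hdis) (a := O p) ⟨p, hp, ?_⟩ ⟨q, sph_sub_flat 0 hq, he.symm⟩
    rw [hflat p hp]
    exact hJ.const t₀ t' p hp
  refine ⟨?_, hO.inj, ?_, ⟨by norm_num, by norm_num⟩, ?_, ?_⟩
  · rintro p (hp | hp)
    · exact hO.loc p (Or.inl hp)
    · exact ld_congr (eventuallyEq_of_lt hright (lt_of_flat hp)).symm (hJ.loc t' p (Or.inr hp))
  · have e0 : (1 : ℝ) - 1 = 0 := by norm_num
    rw [e0]
    rintro p (hp | hp) q (hq | hq) he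
    · rw [hflat p hp, hflat q hq] at he
      exact hJ.injF t' (Or.inl hp) (Or.inl hq) he
    · exact absurd he (hne p hp q hq)
    · exact absurd he.symm (hne q hq p hp)
    · exact hO.inj (Or.inl (Or.inl hp)) (Or.inl (Or.inl hq)) he
  · obtain ⟨x₀, h1, h2, l, v, h3, h4⟩ := hJ.cr t'
    have hx : ((1 / 2 : ℝ), x₀) ∈ flat 1 := ball_mem_flat h1
    have hγ : (2 / 5 : ℝ) ∈ Icc (1 / 5 : ℝ) (4 / 5) := ⟨by norm_num, by norm_num⟩
    have hax : ax (2 / 5) ∈ SP := ax_mem_SP hγ.1 hγ.2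
    refine ⟨x₀, h1, ?_, l, v, h3, ?_⟩
    · rw [hcore _ hγ, hflat _ hx]
      exact h2
    · have hd1 := hasDerivAt_core (hO.loc _ (Or.inl hax))
      have hd2 := hasDerivAt_core (hJ.loc t' _ (Or.inl hax))
      have hev : core O =ᶠ[𝓝 (2 / 5 : ℝ)] core (fun p => J (t', p)) := by
        filter_upwards [Ioo_mem_nhds (show (1 / 5 : ℝ) < 2 / 5 by norm_num)
          (show (2 / 5 : ℝ) < 4 / 5 by norm_num)] with a ha
        exact hcore a ⟨ha.1.le, ha.2.le⟩
      have e1 := hd1.unique (hd2.congr_of_eventuallyEq hev)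
      have e2 := (eventuallyEq_of_lt hright (lt_of_flat hx)).fderiv_eq (𝕜 := ℝ)
      rw [e1, e2]
      exact h4
  · intro a ha hm
    have e0 : (1 : ℝ) / 5 + 3 / 5 * 1 = 4 / 5 := by norm_num
    rw [e0]
    rw [hcore a ha, himg] at hm
    exact hJ.only t' a ha hm

end TH

open TH

theorem m_TH (hCRP : StCRP) (hMWL : StMWL) : StTH := by
  intro W J d t₀ ε hW hd hJ ht₀ hε
  obtain ⟨u₀, p₀, hu, hpre⟩ := hJ.cross t₀ ht₀
  have hC : IsCompact ((fun p => J (t₀, p)) '' flat 1) := by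
    refine (isCompact_flat 1).image_of_continuousOn fun p hp => ?_
    exact ((ld_iff.1 (hJ.loc t₀ p (Or.inr hp))).1.self_of_nhds.continuousAt).continuousWithinAt
  have hdis : Disjoint ((fun p => J (t₀, p)) '' flat 1) ((fun p => J (t₀, p)) '' sph 0) := by
    rw [Set.disjoint_left]
    rintro _ ⟨p, hp, rfl⟩ ⟨q, hq, he⟩
    have h1 : q = p := hJ.injF t₀ (Or.inr hq) (Or.inl hp) he
    have h2 := lt_of_flat hp
    have h3 := lt_of_sph hq
    rw [h1] at h3
    exact lt_asymm h2 h3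
  have hε' : 0 < min ε (u₀ - 2 / 5) := lt_min hε (by linarith)
  obtain ⟨t₁, ht₁, t₂, ht₂, hE₁, hE₂, t', t'', htt, O, α, e, hα, he, hBr, hcore, hright, hdisO,
    hcl⟩ := hCRP J t₀ u₀ p₀ hpre _ hC hdis _ hε'
  have hα' : 2 / 5 < α := by
    have h1 := (abs_lt.1 (lt_of_lt_of_le hα (min_le_right _ _))).1
    linarith
  have hB1 : Br 1 O (2 / 5) d := br_one hJ hBr hcore hright hdisO
  have himg : O '' flat 1 = (fun p => J (t₀, p)) '' flat 1 := by
    refine image_congr fun p hp => ?_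
    rw [hright p (lt_of_flat hp)]
    exact hJ.const t' t₀ p hp
  have hTh : Theta O α (2 / 5) e d := by
    refine ⟨hBr, hB1, ?_, hα'⟩
    rw [himg]
    exact hdisO.symm
  have hO : Thin I4 O W := hW.all O α (2 / 5) e d he hd hTh
  have hMW : MW W (fun p => J (t'', p)) (fun p => J (t', p)) := fun φ ψ hφ hψ =>
    Or.inr (hcl ψ φ W hψ hφ hO)
  have hle := min_le_left ε (u₀ - 2 / 5)
  refine ⟨t₁, ⟨by linarith [ht₁.1], ht₁.2⟩, t₂, ⟨ht₂.1, by linarith [ht₂.2]⟩, hE₁, hE₂, ?_⟩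
  obtain ⟨-, -, hsymm, -⟩ := hMWL W hW
  rcases htt with ⟨rfl, rfl⟩ | ⟨rfl, rfl⟩
  · exact hsymm _ _ hMW
  · exact hMW

end Pool.Agent.Helper70.BI


end

/-! ## Helper34.BI.M_MRL -/

section

/-!
# Project BI: module MRL (the relation `MR`)
-/

set_option autoImplicit false

open Module Set Filter Topology
open scoped ContDiff Manifold ComplexConjugate
open Pool.Agent.Helper65.Barb Pool.Agent.Helper18.BI Pool.Agent.Helper27.BI

namespace Pool.Agent.Helper34.BI

theorem m_MRL (t2 : StT2) (n1 : StN1) (ci : StCI) (sw : StSwap) : StMRL := by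
  obtain ⟨ti, tii, tiii, tiv, -, -, tvii⟩ := t2 R4 R4 𝓘(ℝ, R4) R4
  obtain ⟨na, -, nc⟩ := n1 R4 R4 𝓘(ℝ, R4) R4
  obtain ⟨-, cs, -, ct, cc, cinv, cex, -, -, -⟩ := ci R4 R4 𝓘(ℝ, R4) R4
  refine ⟨?_, ?_, ?_, ?_, ?_, ?_⟩
  · intro F φ ψ hφ hψ
    exact ⟨fun x => x, InN.one, tii F ψ φ hψ hφ⟩
  · intro F G h φ ψ hφ hψ
    obtain ⟨n, hn, hc⟩ := h ψ φ hψ hφ
    obtain ⟨n', hn', h1, h2⟩ := cex n (na n hn)
    refine ⟨n', InN.inv n n' hn h1 h2, cs _ _ ?_⟩
    have h3 := cc n' n' φ (fun x => n (ψ x)) hn' hc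
    have h4 : (fun x => n' (n (ψ x))) = ψ := funext fun x => h2 (ψ x)
    rwa [h4] at h3
  · intro F G H hG h1 h2 φ ψ hφ hψ
    obtain ⟨ε₀, hε₀, hT⟩ := ti G hG
    have hχ := hT (ε₀ / 2) ⟨by linarith, by linarith⟩
    obtain ⟨m₁, hm₁, hc₁⟩ := h1 φ _ hφ hχ
    obtain ⟨m₂, hm₂, hc₂⟩ := h2 _ ψ hχ hψ
    exact ⟨fun x => m₂ (m₁ x), InN.mul m₂ m₁ hm₂ hm₁,
      ct _ _ _ hc₂ (cc m₂ m₂ _ _ (na m₂ hm₂) hc₁)⟩
  · intro J t₁ t₂ ht hs he φ ψ hφ hψ
    refine ⟨fun x => x, InN.one, ?_⟩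
    set a : ℝ × R4 → ℝ × R4 := fun q => (t₁ + q.1 * (t₂ - t₁), q.2) with ha
    have hac : ContDiff ℝ ∞ a :=
      (contDiff_const.add (contDiff_fst.mul contDiff_const)).prodMk contDiff_snd
    have hmem : ∀ t ∈ Icc (0 : ℝ) 1, t₁ + t * (t₂ - t₁) ∈ Icc t₁ t₂ := by
      intro t h
      constructor
      · nlinarith [h.1]
      · nlinarith [h.2]
    have hfam : FamOn 𝓘(ℝ, R4) (fun q => J (a q)) SP := by
      refine ⟨⟨{q | ∀ᶠ q' in 𝓝 q, ContDiffAt ℝ ∞ (fun q => J (a q)) q'},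
        isOpen_setOfPred_eventually_nhds, ?_, ?_⟩, ?_⟩
      · rintro ⟨t, p⟩ ⟨h, hp⟩
        have h1 := hs (t₁ + t * (t₂ - t₁)) (hmem t h) p hp
        have h2 : Tendsto a (𝓝 (t, p)) (𝓝 (t₁ + t * (t₂ - t₁), p)) :=
          hac.continuous.tendsto (t, p)
        filter_upwards [h2.eventually h1] with q hq
        exact ContDiffAt.comp q hq hac.contDiffAt
      · rw [contMDiffOn_iff_contDiffOn]
        intro q hq
        exact (Filter.Eventually.self_of_nhds hq).contDiffWithinAt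
      · intro t h
        exact he _ (hmem t h)
    have h0 : (fun p : R4 => J (a (0, p))) = fun p => J (t₁, p) := by
      funext p; simp [ha]
    have h1 : (fun p : R4 => J (a (1, p))) = fun p => J (t₂, p) := by
      funext p; simp [ha]
    have h2 := tiii (fun q => J (a q)) φ hfam (by rw [h0]; exact hφ)
    rw [h1] at h2
    exact tii _ _ _ hψ h2
  · intro F G hF hG h φ ψ hφ hψ
    obtain ⟨φ', -, hφ1, hφ2⟩ := cex φ (tvii F φ hφ)
    obtain ⟨ψ', -, hψ1, hψ2⟩ := cex ψ (tvii G ψ hψ)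
    obtain ⟨n, hn, hc⟩ := h φ' ψ' (sw F φ φ' hF hφ1 hφ2 hφ) (sw G ψ ψ' hG hψ1 hψ2 hψ)
    obtain ⟨m, hm, hm1, hm2⟩ := cex n (na n hn)
    have hmN : InN 𝓘(ℝ, R4) m := InN.inv n m hn hm1 hm2
    have h3 : CIsot 𝓘(ℝ, R4) ψ (fun x => φ (m x)) :=
      cinv ψ' (fun x => n (φ' x)) ψ (fun x => φ (m x)) hc hψ2
        (fun x => by rw [hφ2, hm1])
    obtain ⟨n', hn', he⟩ := nc φ m hmN (tvii F φ hφ)
    refine ⟨n', hn', ?_⟩
    have h4 : (fun x => φ (m x)) = fun x => n' (φ x) := funext he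
    rwa [h4] at h3
  · intro F F' G h hFG φ ψ hφ hψ
    exact hFG φ ψ ((h φ).2 hφ) hψ

end Pool.Agent.Helper34.BI


end

/-! ## Helper34.BI.M_LG -/

section

/-!
# Project BI (MP_8e98f2_gt), module LG: from local to global in time
-/

set_option autoImplicit false

open Module Set Filter Topology
open scoped ContDiff Manifold ComplexConjugate
open Pool.Agent.Helper65.Barb Pool.Agent.Helper18.BI Pool.Agent.Helper27.BI

namespace Pool.Agent.Helper34.BI

namespace LG

/-- off the exceptional times the members of the family are germs of embeddings -/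
private theorem embOn_of {J : ℝ × R4 → R4} (hJ : BFam J) {t : ℝ}
    (ht : InjOn (fun p => J (t, p)) SP) : EmbOn 𝓘(ℝ, R4) (fun p => J (t, p)) SP :=
  ⟨hJ.loc t, ht⟩

/-- two times with no exceptional time between them -/
private theorem fam {J : ℝ × R4 → R4} (h1 : StMRL) (hJ : BFam J) {a b : ℝ}
    (h : ∀ t ∈ uIcc a b, InjOn (fun p => J (t, p)) SP) :
    MR (fun p => J (a, p)) (fun p => J (b, p)) := by
  obtain ⟨-, hsymm, -, hfam, -⟩ := h1
  rcases le_total a b with hab | hab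
  · rw [uIcc_of_le hab] at h
    exact hfam J a b hab (fun t _ => hJ.smooth t) (fun t ht => embOn_of hJ (h t ht))
  · rw [uIcc_of_ge hab] at h
    exact hsymm _ _ (hfam J b a hab (fun t _ => hJ.smooth t) (fun t ht => embOn_of hJ (h t ht)))

/-- the crossing at an exceptional time -/
private theorem crossing {J : ℝ × R4 → R4} (h1 : StMRL) (h2 : StCR) (hJ : BFam J) {t ε : ℝ}
    (ht : ¬ InjOn (fun p => J (t, p)) SP) (hε : 0 < ε)
    (hloc : ∀ s ∈ Ioo (t - ε) (t + ε), s ≠ t → InjOn (fun p => J (s, p)) SP) :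
    ∃ t₁ ∈ Ioo (t - ε) t, ∃ t₂ ∈ Ioo t (t + ε), MR (fun p => J (t₁, p)) (fun p => J (t₂, p)) := by
  rcases hJ.cross t ht with ⟨u, p, hp⟩ | ⟨u, p, hp⟩
  · obtain ⟨t₁, ht₁, t₂, ht₂, -, -, h⟩ := h2 J t u p hp ε hε
    exact ⟨t₁, ht₁, t₂, ht₂, h⟩
  · obtain ⟨t₁, ht₁, t₂, ht₂, -, -, h⟩ := h2 _ t u p hp ε hε
    refine ⟨t₁, ht₁, t₂, ht₂, ?_⟩
    have e₁ : EmbOn 𝓘(ℝ, R4) (fun p => J (t₁, p)) SP :=
      embOn_of hJ (hloc t₁ ⟨ht₁.1, by linarith [ht₁.2]⟩ (ne_of_lt ht₁.2))
    have e₂ : EmbOn 𝓘(ℝ, R4) (fun p => J (t₂, p)) SP :=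
      embOn_of hJ (hloc t₂ ⟨by linarith [ht₂.1], ht₂.2⟩ (ne_of_gt ht₂.1))
    exact h1.2.2.2.2.1 _ _ e₁ e₂ h

/-- the local claim -/
private theorem local_claim {J : ℝ × R4 → R4} (h1 : StMRL) (h2 : StCR) (hJ : BFam J) (t : ℝ) :
    ∃ ε > 0, ∀ a ∈ Ioo (t - ε) (t + ε), ∀ b ∈ Ioo (t - ε) (t + ε),
      InjOn (fun p => J (a, p)) SP → InjOn (fun p => J (b, p)) SP →
        MR (fun p => J (a, p)) (fun p => J (b, p)) := by
  have hfin : ({s | ¬ InjOn (fun p => J (s, p)) SP} \ {t}).Finite := hJ.finite.subset sdiff_subset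
  obtain ⟨ε, hε, hball⟩ := Metric.isOpen_iff.1 hfin.isClosed.isOpen_compl t
    (fun h => h.2 rfl)
  rw [Real.ball_eq_Ioo] at hball
  have hloc : ∀ s ∈ Ioo (t - ε) (t + ε), s ≠ t → InjOn (fun p => J (s, p)) SP := by
    intro s hs hst
    by_contra hc
    exact hball hs ⟨hc, hst⟩
  refine ⟨ε, hε, ?_⟩
  -- the oriented version
  have key : ∀ a ∈ Ioo (t - ε) (t + ε), ∀ b ∈ Ioo (t - ε) (t + ε), a ≤ b →
      InjOn (fun p => J (a, p)) SP → InjOn (fun p => J (b, p)) SP →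
        MR (fun p => J (a, p)) (fun p => J (b, p)) := by
    intro a ha b hb hab hia hib
    by_cases hc : InjOn (fun p => J (t, p)) SP ∨ t ∉ Icc a b
    · refine fam h1 hJ (fun s hs => ?_)
      rw [uIcc_of_le hab] at hs
      by_cases hst : s = t
      · rcases hc with hc | hc
        · rw [hst]
          exact hc
        · rw [hst] at hs
          exact absurd hs hc
      · exact hloc s ⟨lt_of_lt_of_le ha.1 hs.1, lt_of_le_of_lt hs.2 hb.2⟩ hst
    · push Not at hc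
      obtain ⟨hct, hmem⟩ := hc
      have hat : a < t := lt_of_le_of_ne hmem.1 (fun h => hct (h ▸ hia))
      have htb : t < b := lt_of_le_of_ne hmem.2 (fun h => hct (h.symm ▸ hib))
      obtain ⟨t₁, ht₁, t₂, ht₂, hm⟩ := crossing h1 h2 hJ hct hε hloc
      have e₁ : InjOn (fun p => J (t₁, p)) SP :=
        hloc t₁ ⟨ht₁.1, by linarith [ht₁.2]⟩ (ne_of_lt ht₁.2)
      have e₂ : InjOn (fun p => J (t₂, p)) SP :=
        hloc t₂ ⟨by linarith [ht₂.1], ht₂.2⟩ (ne_of_gt ht₂.1)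
      have m₁ : MR (fun p => J (a, p)) (fun p => J (t₁, p)) := by
        refine fam h1 hJ (fun s hs => hloc s ?_ ?_)
        · rw [mem_uIcc] at hs
          constructor
          · rcases hs with hs | hs <;> linarith [ha.1, ht₁.1, hs.1]
          · rcases hs with hs | hs <;> linarith [hs.2, ht₁.2]
        · rw [mem_uIcc] at hs
          apply ne_of_lt
          rcases hs with hs | hs <;> linarith [hs.2, ht₁.2]
      have m₂ : MR (fun p => J (t₂, p)) (fun p => J (b, p)) := by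
        refine fam h1 hJ (fun s hs => hloc s ?_ ?_)
        · rw [mem_uIcc] at hs
          constructor
          · rcases hs with hs | hs <;> linarith [ht₂.1, hs.1]
          · rcases hs with hs | hs <;> linarith [hs.2, ht₂.2, hb.2]
        · rw [mem_uIcc] at hs
          apply ne_of_gt
          rcases hs with hs | hs <;> linarith [hs.1, ht₂.1]
      exact h1.2.2.1 _ _ _ (embOn_of hJ e₁) m₁ (h1.2.2.1 _ _ _ (embOn_of hJ e₂) hm m₂)
  intro a ha b hb hia hib
  rcases le_total a b with hab | hab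
  · exact key a ha b hb hab hia hib
  · exact h1.2.1 _ _ (key b hb a ha hab hib hia)

end LG

open LG in
theorem m_LG (h1 : StMRL) (h2 : StCR) : StLG := by
  intro J hJ h0 h1'
  have hopen : IsOpen {t : ℝ | ∀ᶠ s in 𝓝 t, InjOn (fun p => J (s, p)) SP →
      MR (fun p => J (0, p)) (fun p => J (s, p))} := isOpen_setOfPred_eventually_nhds
  have hclosed : IsClosed {t : ℝ | ∀ᶠ s in 𝓝 t, InjOn (fun p => J (s, p)) SP →
      MR (fun p => J (0, p)) (fun p => J (s, p))} := by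
    rw [← closure_subset_iff_isClosed]
    intro t ht
    obtain ⟨ε, hε, hloc⟩ := local_claim h1 h2 hJ t
    have hO : IsOpen (Ioo (t - ε) (t + ε)) := isOpen_Ioo
    have htO : t ∈ Ioo (t - ε) (t + ε) := ⟨by linarith, by linarith⟩
    obtain ⟨s, hsO, hs⟩ := mem_closure_iff.1 ht _ hO htO
    have hs' : ∀ᶠ r in 𝓝 s, InjOn (fun p => J (r, p)) SP →
      MR (fun p => J (0, p)) (fun p => J (r, p)) := hs
    obtain ⟨V, hV, hVo, hsV⟩ := eventually_nhds_iff.1 (hs'.and (hO.mem_nhds hsO))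
    have hdense : Dense ({t | ¬ InjOn (fun p => J (t, p)) SP}ᶜ : Set ℝ) :=
      hJ.finite.countable.dense_compl ℝ
    obtain ⟨r, hr, hrC⟩ := hdense.exists_mem_open hVo ⟨s, hsV⟩
    have hri : InjOn (fun p => J (r, p)) SP := by
      by_contra hc
      exact hr hc
    obtain ⟨hm, hrO⟩ := hV r hrC
    filter_upwards [hO.mem_nhds htO] with x hx hxi
    exact h1.2.2.1 _ _ _ (embOn_of hJ hri) (hm hri) (hloc r hrO x hx hri hxi)
  have hne : ({t : ℝ | ∀ᶠ s in 𝓝 t, InjOn (fun p => J (s, p)) SP →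
      MR (fun p => J (0, p)) (fun p => J (s, p))}).Nonempty := by
    refine ⟨0, ?_⟩
    obtain ⟨ε, hε, hloc⟩ := local_claim h1 h2 hJ 0
    have hO : IsOpen (Ioo ((0 : ℝ) - ε) (0 + ε)) := isOpen_Ioo
    have htO : (0 : ℝ) ∈ Ioo ((0 : ℝ) - ε) (0 + ε) := ⟨by linarith, by linarith⟩
    show ∀ᶠ s in 𝓝 (0 : ℝ), _
    filter_upwards [hO.mem_nhds htO] with x hx hxi
    exact hloc 0 htO x hx h0.2 hxi
  have huniv := IsClopen.eq_univ ⟨hclosed, hopen⟩ hne
  have h1mem : (1 : ℝ) ∈ {t : ℝ | ∀ᶠ s in 𝓝 t, InjOn (fun p => J (s, p)) SP →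
      MR (fun p => J (0, p)) (fun p => J (s, p))} := by
    rw [huniv]
    exact mem_univ _
  exact (show ∀ᶠ s in 𝓝 (1 : ℝ), InjOn (fun p => J (s, p)) SP →
      MR (fun p => J (0, p)) (fun p => J (s, p)) from h1mem).self_of_nhds h1'.2

end Pool.Agent.Helper34.BI


end

/-! ## Helper34.BI.M_Add2 -/

section

/-!
# Project BI: the interface to part (C)
-/

set_option autoImplicit false

open Module Set Filter Topology
open scoped ContDiff Manifold ComplexConjugate
open Pool.Agent.Helper65.Barb Pool.Agent.Helper18.BI Pool.Agent.Helper27.BI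

namespace Pool.Agent.Helper34.BI

theorem m_Add2 (h : StADD2) : StAdd2 := by
  intro x₂ h1 h2
  obtain ⟨r, k₁, k₂, hr, hr2, -, kap1, kap2, hoff, haxis, ht1, ht2, hadd⟩ := h x₂ h1 h2
  refine ⟨r, k₁, k₂, hr, by linarith, ?_, haxis, fun p hp => ⟨kap1.away p hp, kap2.away p hp⟩,
    fun p => ⟨ht1 p, ht2 p⟩, ?_⟩
  · rintro k (rfl | rfl)
    · exact ⟨kap1.emb, kap1.fst, kap1.ball, fun p hp => (hoff p hp).1, kap1.small⟩
    · exact ⟨kap2.emb, kap2.fst, kap2.ball, fun p hp => (hoff p hp).2, kap2.small⟩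
  · intro E _ _ H _ I M _ _ _ F hF
    exact hadd E H I M F hF

theorem m_Swap (h : StR2sw) : StSwap := by
  intro F φ φ' hF h1 h2 hT
  exact (h R4 R4 𝓘(ℝ, R4) R4 F φ φ' hF h1 h2).1 hT

end Pool.Agent.Helper34.BI


end

/-! ## Helper34.BI.M_D2 -/

section

/-!
# Project BI, module D2: the crossing theorem from its two halves
-/

set_option autoImplicit false

open Module Set Filter Topology
open scoped ContDiff Manifold ComplexConjugate
open Pool.Agent.Helper65.Barb Pool.Agent.Helper18.BI Pool.Agent.Helper27.BI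

namespace Pool.Agent.Helper34.BI

theorem m_D2 (hRE : StRE) (hT2 : StT2) (hN1 : StN1) (hCI : StCI) (hD2a : StD2a)
    (hD2b : StD2b) : StD2 := by
  intro J X η C
  have h1 := C.pos
  have h2 := C.small
  set δ := η / 3 with hδ
  have hδm : δ ∈ Ioo (0 : ℝ) (1 / 100) := ⟨by positivity, by rw [hδ]; linarith⟩
  have h3 : 3 * δ ≤ η := by rw [hδ]; linarith
  obtain ⟨-, -, -, -, -, -, -, -, hmono, -, hid, hlow, -⟩ := hRE δ hδm
  have e1 : qe δ (1 / 25) = 1 / 25 := hid _ (by linarith [hδm.1])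
  have e2 : qe δ (1 / 100) < 1 / 25 := by
    rw [← e1]
    exact hmono (by norm_num)
  have e3 := hlow (1 / 100) (by norm_num)
  set r₁ := 1 / 25 - qe δ (1 / 100) with hr₁
  have h4 : 0 < r₁ := by rw [hr₁]; linarith
  have h5 : r₁ ≤ η := by rw [hr₁]; linarith
  have m1 : -r₁ ∈ Icc (-η) η := ⟨by linarith, by linarith⟩
  obtain ⟨x₂, r, k, hr, -, hx, hre, hE, hk1, hk2, hk3, hk4, hk5, hk6, n, ψ, hn, hψ, hφ⟩ :=
    hD2a (fun p => J (-r₁, p)) (X (-r₁)) δ η hδm h3 h2 (C.loc _ m1) (C.inj _ m1) (C.injA _ m1)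
      (C.fst _ m1) (by rw [C.lvl _ m1, hr₁]; ring) (C.re _ m1)
  have hψ' := hD2b J X δ η r₁ C hδm h3 hr₁ h4 h5 x₂ r k hr hx hre hE hk1 hk2 hk3 hk4 hk5 hk6 ψ hψ
  refine ⟨r₁, ⟨h4, h5⟩, ?_⟩
  intro φ φ' t1 t2
  refine ⟨n, hn, ?_⟩
  obtain ⟨-, -, -, htrans, hcomp, -⟩ := hCI R4 R4 𝓘(ℝ, R4) R4
  have a1 := hφ φ' t2
  have a2 := (hT2 R4 R4 𝓘(ℝ, R4) R4).2.1 _ _ _ hψ' t1
  have a3 := (hN1 R4 R4 𝓘(ℝ, R4) R4).1 n hn
  exact htrans _ _ _ a1 (hcomp _ _ _ _ a3 a2)

end Pool.Agent.Helper34.BI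


end

/-! ## Helper34.BI.AsmD0 -/

section

/-!
# Project BI: parts (B) and (D), assembled (without the charts of the cuffs)
-/

set_option autoImplicit false

open Pool.Agent.Helper18.BI Pool.Agent.Helper27.BI

namespace Pool.Agent.Helper34.BI

theorem hRE : StRE := m_RE
theorem hRC : StRC := m_RC
theorem hAdd2 : StAdd2 := m_Add2 hADD2
theorem hSwap : StSwap := m_Swap hR2sw
theorem hD2a : StD2a := m_D2a hRE hAdd2 hImp hCI hS3 hS4 hT2 hT3 hT5 hT6
theorem hD2b : StD2b := m_D2b hRE hRC hT2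
theorem hD2 : StD2 := m_D2 hRE hT2 hN1 hCI hD2a hD2b
theorem hD2aP : StD2aP := m_D2aP hRE hADD2 hImp hCI hS3 hS4 hT2 hT3 hT5 hT6
theorem hD1a : StD1a := m_D1a
theorem hD1aP : StD1aP := m_D1aP
theorem hD1b : StD1b := m_D1b
theorem hShr : StShr := m_Shr hT2
theorem hMRL : StMRL := m_MRL hT2 hN1 hCI hSwap
theorem hCR : StCR := m_CR hShr hD1a hD1b hD2 hMRL
theorem hLG : StLG := m_LG hMRL hCR
theorem hCO : StCO := m_CO
theorem hCRP : Pool.Agent.Helper70.BI.StCRP := m_CRP hRE hT2 hCI hD1aP hD1b hD2aP hD2b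

/-- stage 1, from the charts of the cuffs -/
theorem hMain_of (hCH : StCH) : StMain := stMain_of hCH hCO hLG hFr

end Pool.Agent.Helper34.BI


end

/-! ## Helper34.BI.AsmD -/

section

/-!
# Project BI: stage 1 (bar independence modulo `N`), unconditionally
-/

set_option autoImplicit false

open Pool.Agent.Helper18.BI Pool.Agent.Helper27.BI

namespace Pool.Agent.Helper34.BI

theorem hCH : StCH := m_CH
theorem hMain : StMain := hMain_of hCH

end Pool.Agent.Helper34.BI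


end

/-! ## Helper70.BI.M_PT -/

section

/-!
# Project BI, module PT: perturbation of the identity of a finite dimensional space
-/

set_option autoImplicit false

open scoped Manifold ContDiff Topology ComplexConjugate
open Set Filter Pool.Agent.Helper65.Barb Pool.Agent.Helper18.BI

namespace Pool.Agent.Helper70.BI

namespace PT

variable {E : Type} [NormedAddCommGroup E] [NormedSpace ℝ E]

/-- the level preserving map -/
def mp (g : ℝ × E → E) (p : ℝ × E) : ℝ × E := (p.1, p.2 + g p)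

theorem exists_pre [FiniteDimensional ℝ E] (g : ℝ × E → E)
    (hg : ∀ t x y, ‖g (t, x) - g (t, y)‖ ≤ 1 / 2 * ‖x - y‖) (t : ℝ) (y : E) :
    ∃ x : E, x + g (t, x) = y := by
  haveI : CompleteSpace E := FiniteDimensional.complete ℝ E
  have hl : LipschitzWith (1 / 2) (fun x : E => y - g (t, x)) := by
    refine LipschitzWith.of_dist_le_mul fun a b => ?_
    rw [dist_eq_norm, dist_eq_norm]
    have e : y - g (t, a) - (y - g (t, b)) = g (t, b) - g (t, a) := by abel
    rw [e]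
    have := hg t b a
    rw [norm_sub_rev b a] at this
    simpa using this
  have hc : ContractingWith (1 / 2) (fun x : E => y - g (t, x)) := ⟨by norm_num, hl⟩
  refine ⟨hc.fixedPoint, ?_⟩
  have h := hc.fixedPoint_isFixedPt
  have h2 : y - g (t, hc.fixedPoint) = hc.fixedPoint := h
  calc hc.fixedPoint + g (t, hc.fixedPoint) =
      (y - g (t, hc.fixedPoint)) + g (t, hc.fixedPoint) := by rw [h2]
    _ = y := by abel

theorem key (g : ℝ × E → E)
    (hg : ∀ t x y, ‖g (t, x) - g (t, y)‖ ≤ 1 / 2 * ‖x - y‖) (t : ℝ) (x x' : E) :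
    ‖x - x'‖ ≤ 2 * ‖(x + g (t, x)) - (x' + g (t, x'))‖ := by
  have h1 := hg t x x'
  have h2 : ‖x - x'‖ ≤ ‖(x + g (t, x)) - (x' + g (t, x'))‖ + ‖g (t, x) - g (t, x')‖ := by
    have e : x - x' = ((x + g (t, x)) - (x' + g (t, x'))) - (g (t, x) - g (t, x')) := by abel
    calc ‖x - x'‖ = ‖((x + g (t, x)) - (x' + g (t, x'))) - (g (t, x) - g (t, x'))‖ := by rw [← e]
      _ ≤ _ := norm_sub_le _ _
  linarith

/-- the inverse -/
noncomputable def iv [FiniteDimensional ℝ E] (g : ℝ × E → E)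
    (hg : ∀ t x y, ‖g (t, x) - g (t, y)‖ ≤ 1 / 2 * ‖x - y‖) (q : ℝ × E) : E :=
  (exists_pre g hg q.1 q.2).choose

theorem iv_spec [FiniteDimensional ℝ E] (g : ℝ × E → E)
    (hg : ∀ t x y, ‖g (t, x) - g (t, y)‖ ≤ 1 / 2 * ‖x - y‖) (q : ℝ × E) :
    iv g hg q + g (q.1, iv g hg q) = q.2 :=
  (exists_pre g hg q.1 q.2).choose_spec

theorem iv_mp [FiniteDimensional ℝ E] (g : ℝ × E → E)
    (hg : ∀ t x y, ‖g (t, x) - g (t, y)‖ ≤ 1 / 2 * ‖x - y‖) (p : ℝ × E) :
    iv g hg (mp g p) = p.2 := by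
  have h := iv_spec g hg (mp g p)
  have h2 := key g hg p.1 (iv g hg (mp g p)) p.2
  have h3 : iv g hg (mp g p) + g (p.1, iv g hg (mp g p)) = p.2 + g (p.1, p.2) := h
  rw [h3, sub_self, norm_zero, mul_zero] at h2
  exact sub_eq_zero.1 (norm_le_zero_iff.1 h2)

theorem iv_cont [FiniteDimensional ℝ E] (g : ℝ × E → E) (hc : Continuous g)
    (hg : ∀ t x y, ‖g (t, x) - g (t, y)‖ ≤ 1 / 2 * ‖x - y‖) : Continuous (iv g hg) := by
  rw [continuous_iff_continuousAt]
  intro q₀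
  set x₀ := iv g hg q₀ with hx₀
  have h0 : x₀ + g (q₀.1, x₀) = q₀.2 := iv_spec g hg q₀
  have h1 : ∀ q, ‖iv g hg q - x₀‖ ≤ 2 * ‖q.2 - (x₀ + g (q.1, x₀))‖ := by
    intro q
    have := key g hg q.1 (iv g hg q) x₀
    rwa [iv_spec g hg q] at this
  have h2 : Filter.Tendsto (fun q : ℝ × E => 2 * ‖q.2 - (x₀ + g (q.1, x₀))‖) (𝓝 q₀)
      (𝓝 0) := by
    have hcont : Continuous (fun q : ℝ × E => 2 * ‖q.2 - (x₀ + g (q.1, x₀))‖) := by
      fun_prop
    have h3 := hcont.tendsto q₀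
    rw [h0, sub_self, norm_zero, mul_zero] at h3
    exact h3
  rw [ContinuousAt, tendsto_iff_norm_sub_tendsto_zero]
  exact squeeze_zero (fun _ => norm_nonneg _) h1 h2

/-- the homeomorphism -/
noncomputable def hm [FiniteDimensional ℝ E] (g : ℝ × E → E) (hc : Continuous g)
    (hg : ∀ t x y, ‖g (t, x) - g (t, y)‖ ≤ 1 / 2 * ‖x - y‖) :
    (ℝ × E) ≃ₜ (ℝ × E) where
  toFun := mp g
  invFun q := (q.1, iv g hg q)
  left_inv p := by
    show (p.1, iv g hg (mp g p)) = p
    rw [iv_mp]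
  right_inv q := by
    show (q.1, iv g hg q + g (q.1, iv g hg q)) = q
    rw [iv_spec]
  continuous_toFun := by
    unfold mp
    fun_prop
  continuous_invFun := by
    have := iv_cont g hc hg
    fun_prop

theorem fderiv_small (g : ℝ × E → E) (hs : ContDiff ℝ ∞ g)
    (hg : ∀ t x y, ‖g (t, x) - g (t, y)‖ ≤ 1 / 2 * ‖x - y‖) (p : ℝ × E) (ξ : E) :
    ‖fderiv ℝ g p (0, ξ)‖ ≤ 1 / 2 * ‖ξ‖ := by
  have h1 : HasFDerivAt g (fderiv ℝ g p) p :=
    (hs.differentiable (by simp) p).hasFDerivAt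
  let e : E →L[ℝ] ℝ × E := ContinuousLinearMap.inr ℝ ℝ E
  have h2 : HasFDerivAt (fun x : E => ((p.1, x) : ℝ × E)) e p.2 := by
    have h3 : HasFDerivAt (fun x : E => e x + ((p.1, 0) : ℝ × E)) e p.2 :=
      e.hasFDerivAt.add_const _
    refine h3.congr_of_eventuallyEq (Filter.Eventually.of_forall fun x => ?_)
    show ((p.1, x) : ℝ × E) = (0, x) + (p.1, 0)
    simp
  have h4 : HasFDerivAt (fun x : E => g (p.1, x)) ((fderiv ℝ g p).comp e) p.2 := by
    exact HasFDerivAt.comp p.2 h1 h2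
  have hl : LipschitzWith (1 / 2) (fun x : E => g (p.1, x)) := by
    refine LipschitzWith.of_dist_le_mul fun a b => ?_
    rw [dist_eq_norm, dist_eq_norm]
    simpa using hg p.1 a b
  have h5 := h4.le_of_lipschitz hl
  have h6 := ContinuousLinearMap.le_opNorm ((fderiv ℝ g p).comp e) ξ
  have h7 : ((fderiv ℝ g p).comp e) ξ = fderiv ℝ g p (0, ξ) := rfl
  rw [h7] at h6
  refine h6.trans (mul_le_mul_of_nonneg_right ?_ (norm_nonneg _))
  simpa using h5

theorem exists_equiv [FiniteDimensional ℝ E] (g : ℝ × E → E) (hs : ContDiff ℝ ∞ g)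
    (hg : ∀ t x y, ‖g (t, x) - g (t, y)‖ ≤ 1 / 2 * ‖x - y‖) (p : ℝ × E) :
    ∃ L : (ℝ × E) ≃L[ℝ] (ℝ × E), HasFDerivAt (mp g) (L : (ℝ × E) →L[ℝ] (ℝ × E)) p := by
  have h1 : HasFDerivAt g (fderiv ℝ g p) p :=
    (hs.differentiable (by simp) p).hasFDerivAt
  let A : (ℝ × E) →L[ℝ] E := ContinuousLinearMap.snd ℝ ℝ E + fderiv ℝ g p
  let D : (ℝ × E) →L[ℝ] (ℝ × E) := (ContinuousLinearMap.fst ℝ ℝ E).prod A
  have hD : HasFDerivAt (mp g) D p := by
    have a1 : HasFDerivAt (fun q : ℝ × E => q.1) (ContinuousLinearMap.fst ℝ ℝ E) p :=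
      (ContinuousLinearMap.fst ℝ ℝ E).hasFDerivAt
    have a3 : HasFDerivAt (fun q : ℝ × E => q.2) (ContinuousLinearMap.snd ℝ ℝ E) p :=
      (ContinuousLinearMap.snd ℝ ℝ E).hasFDerivAt
    exact a1.prodMk (a3.add h1)
  have hinj : Function.Injective D := by
    rw [injective_iff_map_eq_zero]
    rintro ⟨τ, ξ⟩ h
    have b1 : τ = 0 := congrArg Prod.fst h
    have b3 : ξ + fderiv ℝ g p (τ, ξ) = 0 := congrArg Prod.snd h
    subst b1
    have b4 := fderiv_small g hs hg p ξ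
    have b5 : fderiv ℝ g p (0, ξ) = -ξ := by
      rw [← add_eq_zero_iff_eq_neg']
      exact b3
    rw [b5, norm_neg] at b4
    have b6 : ‖ξ‖ ≤ 0 := by linarith [norm_nonneg ξ]
    rw [norm_le_zero_iff.1 b6]
    rfl
  refine ⟨(LinearEquiv.ofInjectiveEndo (D : (ℝ × E) →ₗ[ℝ] (ℝ × E)) hinj).toContinuousLinearEquiv, ?_⟩
  have hcoe : ((LinearEquiv.ofInjectiveEndo (D : (ℝ × E) →ₗ[ℝ] (ℝ × E))
      hinj).toContinuousLinearEquiv : (ℝ × E) →L[ℝ] (ℝ × E)) = D := by
    refine ContinuousLinearMap.ext fun v => ?_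
    rfl
  rw [hcoe]
  exact hD

end PT

open PT in
theorem m_PT : StPT := by
  intro E _ _ _ g hs hg
  haveI : CompleteSpace E := FiniteDimensional.complete ℝ E
  have hc := hs.continuous
  choose L hL using exists_equiv g hs hg
  have hmp : ContDiff ℝ ∞ (mp g) := by
    unfold mp
    fun_prop
  have hinv : ContDiff ℝ ∞ (hm g hc hg).symm :=
    (hm g hc hg).contDiff_symm (f₀' := L) hL hmp
  refine ⟨⟨fun p => p.2 + g p, fun q => iv g hg q, ?_, ?_, ?_, ?_⟩, ?_⟩
  · have h : ContDiff ℝ ∞ (fun p : ℝ × E => (p.2 + g p : E)) := by fun_prop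
    have := h.contMDiff
    rwa [modelWithCornersSelf_prod, ← chartedSpaceSelf_prod] at this
  · have h : ContDiff ℝ ∞ (fun q : ℝ × E => (iv g hg q : E)) := hinv.snd
    have := h.contMDiff
    rwa [modelWithCornersSelf_prod, ← chartedSpaceSelf_prod] at this
  · intro t x
    show iv g hg (t, x) + g (t, iv g hg (t, x)) = x
    exact iv_spec g hg (t, x)
  · intro t x
    show iv g hg (mp g (t, x)) = x
    rw [iv_mp]
  · intro t x
    rfl

end Pool.Agent.Helper70.BI


end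

/-! ## Helper70.BI.M_TR -/

section

/-!
# Project BI, module TR: compositions and translations
-/

set_option autoImplicit false

open scoped Manifold ContDiff Topology ComplexConjugate
open Set Filter Pool.Agent.Helper65.Barb Pool.Agent.Helper18.BI

namespace Pool.Agent.Helper70.BI

namespace TR

variable {E : Type} [NormedAddCommGroup E] [NormedSpace ℝ E]

theorem realG_comp {U : Set E} {y₀ : E} {f₁ f₂ : E → E} (h₁ : RealG U y₀ f₁)
    (h₂ : RealG U (f₁ y₀) f₂) (hc : ContinuousAt f₁ y₀) : RealG U y₀ (fun y => f₂ (f₁ y)) := by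
  obtain ⟨G₁, a₁, ⟨C₁, c₁, s₁, t₁⟩, e₁⟩ := h₁
  obtain ⟨G₂, a₂, ⟨C₂, c₂, s₂, t₂⟩, e₂⟩ := h₂
  refine ⟨G₂.comp G₁, ?_, ⟨C₁ ∪ C₂, c₁.union c₂, union_subset s₁ s₂, ?_⟩, ?_⟩
  · intro y
    change G₂.f (0, G₁.f (0, y)) = y
    rw [a₁, a₂]
  · intro t y hy
    rw [mem_union, not_or] at hy
    change G₂.f (t, G₁.f (t, y)) = y
    rw [t₁ t y hy.1, t₂ t y hy.2]
  · filter_upwards [e₁, hc.eventually e₂] with y h3 h4
    change G₂.f (1, G₁.f (1, y)) = f₂ (f₁ y)
    rw [h3, h4]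

theorem small [FiniteDimensional ℝ E] (hPT : StPT) {U : Set E} (hU : IsOpen U) {y₀ : E}
    (hy₀ : y₀ ∈ U) : ∃ ε : ℝ, 0 < ε ∧ ∀ z ∈ Metric.ball y₀ ε, ∀ z' ∈ Metric.ball y₀ ε,
      RealG U z (fun y => y + (z' - z)) := by
  have hprop : ProperSpace E := FiniteDimensional.proper_real E
  obtain ⟨r, hr, hrU⟩ := Metric.isOpen_iff.1 hU y₀ hy₀
  let b : ContDiffBump y₀ := ⟨r / 4, r / 2, by positivity, by linarith⟩
  have hbsm : ContDiff ℝ ∞ (b : E → ℝ) := b.contDiff
  obtain ⟨K, hK⟩ := ContDiff.lipschitzWith_of_hasCompactSupport b.hasCompactSupport hbsm (by simp)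
  have hK0 : (0 : ℝ) ≤ K := K.2
  refine ⟨min (r / 8) (1 / (4 * (K + 1))), by positivity, ?_⟩
  intro z hz z' hz'
  rw [Metric.mem_ball] at hz hz'
  have hz1 : dist z y₀ < r / 8 := lt_of_lt_of_le hz (min_le_left _ _)
  have hv : ‖z' - z‖ ≤ 1 / (2 * (K + 1)) := by
    have h1 : dist z y₀ < 1 / (4 * (K + 1)) := lt_of_lt_of_le hz (min_le_right _ _)
    have h2 : dist z' y₀ < 1 / (4 * (K + 1)) := lt_of_lt_of_le hz' (min_le_right _ _)
    have h3 : ‖z' - z‖ ≤ dist z' y₀ + dist z y₀ := by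
      rw [← dist_eq_norm]
      exact dist_triangle_right _ _ _
    have h4 : 1 / (2 * ((K : ℝ) + 1)) = 1 / (4 * (K + 1)) + 1 / (4 * (K + 1)) := by
      field_simp
      norm_num
    rw [h4]
    linarith
  let g : ℝ × E → E := fun q => (step q.1 * b q.2) • (z' - z)
  have hg : ContDiff ℝ ∞ g :=
    ((contDiff_step.comp contDiff_fst).mul (hbsm.comp contDiff_snd)).smul contDiff_const
  have hstep : ∀ t, 0 ≤ step t ∧ step t ≤ 1 := fun t =>
    ⟨Real.smoothTransition.nonneg t, Real.smoothTransition.le_one t⟩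
  have hlip : ∀ t x y, ‖g (t, x) - g (t, y)‖ ≤ 1 / 2 * ‖x - y‖ := by
    intro t x y
    have e1 : g (t, x) - g (t, y) = (step t * (b x - b y)) • (z' - z) := by
      simp only [g]
      rw [← sub_smul, mul_sub]
    rw [e1, norm_smul, norm_mul, Real.norm_of_nonneg (hstep t).1]
    have h1 : ‖b x - b y‖ ≤ K * ‖x - y‖ := by
      have := hK.dist_le_mul x y
      rwa [dist_eq_norm, dist_eq_norm] at this
    have h2 : step t * ‖b x - b y‖ ≤ K * ‖x - y‖ := by
      have := mul_le_mul_of_nonneg_right (hstep t).2 (norm_nonneg (b x - b y))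
      linarith
    have h3 : step t * ‖b x - b y‖ * ‖z' - z‖ ≤ K * ‖x - y‖ * (1 / (2 * (K + 1))) :=
      mul_le_mul h2 hv (norm_nonneg _) (by positivity)
    refine h3.trans ?_
    have h4 : (K : ℝ) * (1 / (2 * (K + 1))) ≤ 1 / 2 := by
      rw [mul_one_div, div_le_div_iff₀ (by positivity) (by norm_num)]
      linarith
    calc (K : ℝ) * ‖x - y‖ * (1 / (2 * (K + 1))) = (K * (1 / (2 * (K + 1)))) * ‖x - y‖ := by ring
      _ ≤ 1 / 2 * ‖x - y‖ := mul_le_mul_of_nonneg_right h4 (norm_nonneg _)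
  obtain ⟨F, hF⟩ := hPT E g hg hlip
  refine ⟨F, ?_, ⟨Metric.closedBall y₀ (r / 2), isCompact_closedBall _ _, ?_, ?_⟩, ?_⟩
  · intro y
    rw [hF]
    simp only [g]
    rw [step_of_nonpos le_rfl, zero_mul, zero_smul, add_zero]
  · exact (Metric.closedBall_subset_ball (by linarith)).trans hrU
  · intro t y hy
    rw [hF]
    simp only [g]
    rw [Metric.mem_closedBall, not_le] at hy
    rw [b.zero_of_le_dist hy.le, mul_zero, zero_smul, add_zero]
  · filter_upwards [Metric.ball_mem_nhds z (show (0 : ℝ) < r / 8 by linarith)] with y hy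
    rw [Metric.mem_ball] at hy
    rw [hF]
    simp only [g]
    have h5 : dist y y₀ ≤ r / 4 := by
      have := dist_triangle y z y₀
      linarith
    rw [step_of_one_le le_rfl, b.one_of_mem_closedBall (Metric.mem_closedBall.2 h5), mul_one,
      one_smul]

end TR

theorem m_TR (hPT : StPT) : StTR := by
  intro E _ _ _
  refine ⟨fun U y₀ f₁ f₂ h₁ h₂ hc => TR.realG_comp h₁ h₂ hc, ?_⟩
  intro U y₀ y₁ hU hconn hy₀ hy₁
  refine hconn.induction₂' (fun z z' => RealG U z (fun y => y + (z' - z))) ?_ ?_ hy₀ hy₁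
  · intro z hz
    obtain ⟨ε, hε, h⟩ := TR.small hPT hU hz
    have hb : Metric.ball z ε ∈ 𝓝[U] z := mem_nhdsWithin_of_mem_nhds (Metric.ball_mem_nhds z hε)
    filter_upwards [hb] with z' hz'
    exact ⟨h z (Metric.mem_ball_self hε) z' hz', h z' hz' z (Metric.mem_ball_self hε)⟩
  · intro z z' z'' _ _ _ h1 h2
    have h3 := TR.realG_comp (f₂ := fun y => y + (z'' - z')) h1 (by simpa using h2)
      (by fun_prop)
    have e : (fun y : E => y + (z'' - z)) = fun y => y + (z' - z) + (z'' - z') := by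
      funext y
      abel
    rw [e]
    exact h3

end Pool.Agent.Helper70.BI


end

/-! ## Helper70.BI.M_GL -/

section

/-!
# Project BI, part (E): module GL

The group of linear maps with positive determinant is generated by every neighbourhood of the
identity.
-/

set_option autoImplicit false

open scoped Manifold ContDiff Topology ComplexConjugate
open Set Filter Pool.Agent.Helper65.Barb Pool.Agent.Helper18.BI

namespace Pool.Agent.Helper70.BI

namespace GLgen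

variable {n : Type} [Fintype n] [DecidableEq n]

lemma pow_mem {Q : Matrix n n ℝ → Prop} (hmul : ∀ A B, Q A → Q B → Q (A * B))
    {A : Matrix n n ℝ} (hA : Q A) (k : ℕ) : Q (A ^ (k + 1)) := by
  induction k with
  | zero => simpa using hA
  | succ k ih => rw [pow_succ]; exact hmul _ _ ih hA

/-- one-parameter groups -/
lemma one_param {Q : Matrix n n ℝ → Prop} (hmul : ∀ A B, Q A → Q B → Q (A * B))
    (hnear : ∀ᶠ M in 𝓝 (1 : Matrix n n ℝ), Q M) (f : ℝ → Matrix n n ℝ) (hf : Continuous f)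
    (h0 : f 0 = 1) (hadd : ∀ s t, f (s + t) = f s * f t) (t : ℝ) : Q (f t) := by
  have hpow : ∀ (k : ℕ) (s : ℝ), f (((k + 1 : ℕ) : ℝ) * s) = f s ^ (k + 1) := by
    intro k s
    induction k with
    | zero => simp
    | succ k ih =>
      rw [pow_succ, ← ih, ← hadd]
      congr 1
      push_cast
      ring
  have hlim : Tendsto (fun N : ℕ => f (t * (1 / ((N : ℝ) + 1)))) atTop (𝓝 1) := by
    rw [← h0]
    have h1 : Tendsto (fun N : ℕ => t * (1 / ((N : ℝ) + 1))) atTop (𝓝 (t * 0)) :=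
      tendsto_const_nhds.mul tendsto_one_div_add_atTop_nhds_zero_nat
    rw [mul_zero] at h1
    exact (hf.tendsto 0).comp h1
  obtain ⟨N, hN⟩ := (hlim.eventually hnear).exists
  have h2 := pow_mem hmul hN N
  rw [← hpow] at h2
  have h3 : (((N + 1 : ℕ) : ℝ) * (t * (1 / ((N : ℝ) + 1)))) = t := by
    push_cast
    have : (N : ℝ) + 1 ≠ 0 := by positivity
    field_simp
  rwa [h3] at h2

lemma transv {Q : Matrix n n ℝ → Prop} (hmul : ∀ A B, Q A → Q B → Q (A * B))
    (hnear : ∀ᶠ M in 𝓝 (1 : Matrix n n ℝ), Q M) (i j : n) (hij : i ≠ j) (c : ℝ) :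
    Q (Matrix.transvection i j c) := by
  refine one_param hmul hnear (fun c => Matrix.transvection i j c) ?_ ?_ ?_ c
  · unfold Matrix.transvection
    refine continuous_const.add ?_
    refine continuous_matrix fun a b => ?_
    by_cases h : i = a ∧ j = b
    · obtain ⟨rfl, rfl⟩ := h
      simpa using continuous_id'
    · simp only [Matrix.single_apply, h, if_false]
      exact continuous_const
  · exact Matrix.transvection_zero i j
  · intro s t
    exact (Matrix.transvection_mul_transvection_same i j hij s t).symm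

lemma diag_pos {Q : Matrix n n ℝ → Prop} (hmul : ∀ A B, Q A → Q B → Q (A * B))
    (hnear : ∀ᶠ M in 𝓝 (1 : Matrix n n ℝ), Q M) (D : n → ℝ) (hD : ∀ i, 0 < D i) :
    Q (Matrix.diagonal D) := by
  have h := one_param hmul hnear
    (fun t => Matrix.diagonal (fun i => Real.exp (t * Real.log (D i)))) ?_ ?_ ?_ 1
  · have h1 : (fun i => Real.exp (1 * Real.log (D i))) = D := by
      funext i
      rw [one_mul, Real.exp_log (hD i)]
    rw [h1] at h
    exact h
  · exact Continuous.matrix_diagonal (by fun_prop)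
  · simp
  · intro s t
    rw [Matrix.diagonal_mul_diagonal]
    congr 1
    funext i
    rw [← Real.exp_add]
    congr 1
    ring

/-- the rotation by `π` in the `(i, j)`-plane -/
lemma rot {Q : Matrix n n ℝ → Prop} (hmul : ∀ A B, Q A → Q B → Q (A * B))
    (hnear : ∀ᶠ M in 𝓝 (1 : Matrix n n ℝ), Q M) (i j : n) (hij : i ≠ j) :
    Q (Matrix.diagonal (fun k => if k = i ∨ k = j then (-1 : ℝ) else 1)) := by
  have h1 := transv hmul hnear i j hij 1
  have h2 := transv hmul hnear j i hij.symm (-1)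
  have h3 := hmul _ _ (hmul _ _ h1 h2) h1
  have h4 := hmul _ _ h3 h3
  have hji := hij.symm
  have hw : Matrix.transvection i j (1 : ℝ) * Matrix.transvection j i (-1) *
      Matrix.transvection i j 1 =
      1 + Matrix.single i j 1 - Matrix.single j i 1 - Matrix.single i i 1 - Matrix.single j j 1 := by
    unfold Matrix.transvection
    have e1 : Matrix.single j i (-1 : ℝ) = - Matrix.single j i 1 := by
      ext a b; simp [Matrix.single_apply]; split_ifs <;> simp
    rw [e1]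
    simp only [mul_add, add_mul, mul_one, one_mul, mul_neg, neg_mul,
      Matrix.single_mul_single_same, Matrix.single_mul_single_of_ne _ _ _ _ hji,
      Matrix.single_mul_single_of_ne _ _ _ _ hij]
    abel
  rw [hw] at h4
  convert h4 using 1
  have hd : (Matrix.diagonal (fun k => if k = i ∨ k = j then (-1 : ℝ) else 1)) =
      1 - (Matrix.single i i 1 + Matrix.single j j 1) - (Matrix.single i i 1 + Matrix.single j j 1) := by
    ext a b
    by_cases hab : a = b
    · subst hab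
      by_cases hai : a = i
      · subst hai
        simp [hij, hji]
      · by_cases haj : a = j
        · subst haj
          simp [hij, hji]
        · have hia : ¬ i = a := fun h => hai h.symm
          have hja : ¬ j = a := fun h => haj h.symm
          simp [hai, haj, hia, hja]
    · have h5 : ¬ (i = a ∧ i = b) := fun h => hab (h.1.symm.trans h.2)
      have h6 : ¬ (j = a ∧ j = b) := fun h => hab (h.1.symm.trans h.2)
      simp [hab, h5, h6]
  rw [hd]
  simp only [mul_add, add_mul, mul_sub, sub_mul, mul_one, one_mul,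
      Matrix.single_mul_single_same, Matrix.single_mul_single_of_ne _ _ _ _ hji,
      Matrix.single_mul_single_of_ne _ _ _ _ hij]
  abel

lemma diag_det {Q : Matrix n n ℝ → Prop} (hmul : ∀ A B, Q A → Q B → Q (A * B))
    (hnear : ∀ᶠ M in 𝓝 (1 : Matrix n n ℝ), Q M) (k : ℕ) :
    ∀ D : n → ℝ, (Finset.univ.filter (fun i => D i < 0)).card ≤ k → 0 < ∏ i, D i →
      Q (Matrix.diagonal D) := by
  induction k with
  | zero =>
    intro D hD hp
    refine diag_pos hmul hnear D fun i => ?_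
    have h1 : ¬ D i < 0 := by
      intro hi
      have : i ∈ Finset.univ.filter (fun i => D i < 0) := by simp [hi]
      rw [Finset.card_eq_zero.mp (Nat.le_zero.mp hD)] at this
      simp at this
    have h2 : D i ≠ 0 := by
      intro h0
      have := Finset.prod_eq_zero (Finset.mem_univ i) h0
      linarith
    exact lt_of_le_of_ne (not_lt.mp h1) h2.symm
  | succ k ih =>
    intro D hD hp
    have hne : ∀ i, D i ≠ 0 := by
      intro i h0
      have := Finset.prod_eq_zero (Finset.mem_univ i) h0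
      linarith
    by_cases hneg : ∃ i, D i < 0
    · obtain ⟨i, hi⟩ := hneg
      have hj : ∃ j, j ≠ i ∧ D j < 0 := by
        by_contra hcon
        push Not at hcon
        have h1 : 0 < ∏ x ∈ Finset.univ.erase i, D x := by
          refine Finset.prod_pos fun x hx => ?_
          exact lt_of_le_of_ne (hcon x (Finset.ne_of_mem_erase hx)) (hne x).symm
        rw [← Finset.mul_prod_erase Finset.univ D (Finset.mem_univ i)] at hp
        nlinarith
      obtain ⟨j, hji, hj⟩ := hj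
      have hij := hji.symm
      have hprod := ih (fun x => if x = i ∨ x = j then - D x else D x) ?_ ?_
      · have h2 := hmul _ _ (rot hmul hnear i j hij) hprod
        rw [Matrix.diagonal_mul_diagonal] at h2
        have h5 : (fun x => (if x = i ∨ x = j then (-1 : ℝ) else 1) *
            if x = i ∨ x = j then - D x else D x) = D := by
          funext x
          by_cases hx : x = i ∨ x = j
          · simp [hx]
          · simp [hx]
        rwa [h5] at h2
      · have hsub : (Finset.univ.filter (fun x => (if x = i ∨ x = j then - D x else D x) < 0)) ⊆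
            (Finset.univ.filter (fun x => D x < 0)).erase i := by
          intro x hx
          simp only [Finset.mem_filter, Finset.mem_univ, true_and, Finset.mem_erase] at hx ⊢
          by_cases hx' : x = i ∨ x = j
          · rw [if_pos hx'] at hx
            rcases hx' with rfl | rfl <;> linarith
          · rw [if_neg hx'] at hx
            push Not at hx'
            exact ⟨hx'.1, hx⟩
        have hmem : i ∈ Finset.univ.filter (fun x => D x < 0) := by simp [hi]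
        have := Finset.card_le_card hsub
        rw [Finset.card_erase_of_mem hmem] at this
        omega
      · have h3 : ∏ x, (if x = i ∨ x = j then - D x else D x) =
            (∏ x, (if x = i ∨ x = j then (-1 : ℝ) else 1)) * ∏ x, D x := by
          rw [← Finset.prod_mul_distrib]
          refine Finset.prod_congr rfl fun x _ => ?_
          by_cases hx : x = i ∨ x = j
          · simp [hx]
          · simp [hx]
        have h4 : (∏ x, (if x = i ∨ x = j then (-1 : ℝ) else 1)) = 1 := by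
          rw [Finset.prod_ite, Finset.prod_const, Finset.prod_const_one, mul_one]
          have : (Finset.univ.filter (fun x => x = i ∨ x = j)) = {i, j} := by
            ext x; simp
          rw [this, Finset.card_pair hij]
          norm_num
        rw [h3, h4, one_mul]
        exact hp
    · push Not at hneg
      exact diag_pos hmul hnear D fun i => lt_of_le_of_ne (hneg i) (hne i).symm

end GLgen

theorem m_GL : StGL := by
  intro E _ _ _ P hP hnear A hA
  obtain ⟨c, hc, hnear⟩ := hnear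
  let b := Module.finBasis ℝ E
  let Φ : Matrix (Fin (Module.finrank ℝ E)) (Fin (Module.finrank ℝ E)) ℝ →ₗ[ℝ] (E →L[ℝ] E) :=
    (LinearMap.toContinuousLinearMap : (E →ₗ[ℝ] E) ≃ₗ[ℝ] (E →L[ℝ] E)).toLinearMap ∘ₗ
      (Matrix.toLin b b).toLinearMap
  have hΦ : ∀ M, Φ M = LinearMap.toContinuousLinearMap (Matrix.toLin b b M) := fun M => rfl
  have hcont : Continuous Φ := LinearMap.continuous_of_finiteDimensional Φ
  have h1 : Φ 1 = ContinuousLinearMap.id ℝ E := by
    rw [hΦ, Matrix.toLin_one]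
    ext x
    rfl
  have hmul : ∀ M N, P (Φ M) → P (Φ N) → P (Φ (M * N)) := by
    intro M N hM hN
    have h2 : Φ (M * N) = (Φ M).comp (Φ N) := by
      rw [hΦ, hΦ, hΦ, Matrix.toLin_mul b b b]
      ext x
      rfl
    rw [h2]
    exact hP _ _ hM hN
  have hn : ∀ᶠ M in 𝓝 (1 : Matrix (Fin (Module.finrank ℝ E)) (Fin (Module.finrank ℝ E)) ℝ),
      P (Φ M) := by
    have h3 : Tendsto Φ (𝓝 1) (𝓝 (ContinuousLinearMap.id ℝ E)) := by
      rw [← h1]
      exact hcont.tendsto 1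
    have h4 := h3.eventually (Metric.ball_mem_nhds (ContinuousLinearMap.id ℝ E) hc)
    filter_upwards [h4] with M hM
    refine hnear _ ?_
    rwa [dist_eq_norm] at hM
  have hfin : P (Φ (LinearMap.toMatrix b b (A : E →ₗ[ℝ] E))) := by
    refine Matrix.diagonal_transvection_induction (fun M => P (Φ M)) _ ?_ ?_ hmul
    · intro D hD
      refine GLgen.diag_det hmul hn _ D le_rfl ?_
      rw [Matrix.det_diagonal, LinearMap.det_toMatrix] at hD
      rw [hD]
      exact hA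
    · intro t
      exact GLgen.transv (Q := fun M => P (Φ M)) hmul hn t.i t.j t.hij t.c
  rw [hΦ, Matrix.toLin_toMatrix] at hfin
  have h5 : LinearMap.toContinuousLinearMap (A : E →ₗ[ℝ] E) = A := by
    ext x
    rfl
  rwa [h5] at hfin

end Pool.Agent.Helper70.BI


end

/-! ## Helper70.BI.M_CTR -/

section

/-!
# Project BI, part (E), module CTR: contraction does not change the class
-/

set_option autoImplicit false

open scoped Manifold ContDiff Topology ComplexConjugate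
open Set Filter Pool.Agent.Helper65.Barb Pool.Agent.Helper18.BI

namespace Pool.Agent.Helper70.BI

open Pool.Agent.Helper34.BI (cfac BarData barFam)

namespace CTR

private theorem cfac_pos {lam : ℝ} (hl : lam ∈ Ioc (0 : ℝ) 1) (q : ℝ) :
    0 < cfac lam q ∧ cfac lam q ≤ 1 := by
  have h0 : 0 ≤ step ((q - 1 / 20) / (1 / 25)) := Real.smoothTransition.nonneg _
  have h1 : step ((q - 1 / 20) / (1 / 25)) ≤ 1 := Real.smoothTransition.le_one _
  unfold cfac
  constructor
  · have : 0 ≤ (1 - lam) * step ((q - 1 / 20) / (1 / 25)) :=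
      mul_nonneg (by linarith [hl.2]) h0
    linarith [hl.1]
  · nlinarith [hl.1, hl.2]

private theorem rsq_ax (c a : ℝ) : rsq c (ax a) = (a - c) ^ 2 := by
  simp [rsq, nsq, ax]

private theorem rsq_self (c : ℝ) : rsq c (ax c) = 0 := by
  rw [rsq_ax]; ring

private theorem mem_sp {c : ℝ} (hc : c = 0 ∨ c = 1) {p : R4} (hp : p ∈ SP) :
    p ∈ sph c ∨ p ∈ sph (1 - c) ∨ p ∈ neck := by
  rcases hc with rfl | rfl
  · rcases hp with (h | h) | h
    · exact Or.inl h
    · rw [show (1 : ℝ) - 0 = 1 by norm_num]; exact Or.inr (Or.inl h)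
    · exact Or.inr (Or.inr h)
  · rcases hp with (h | h) | h
    · rw [show (1 : ℝ) - 1 = 0 by norm_num]; exact Or.inr (Or.inl h)
    · exact Or.inl h
    · exact Or.inr (Or.inr h)

private theorem sph_sub_flat (c : ℝ) {p : R4} (h : p ∈ sph c) : p ∈ flat c := ⟨h.1, h.2.le⟩

private theorem sph_far {c : ℝ} (hc : c = 0 ∨ c = 1) {p : R4} (h : p ∈ sph (1 - c)) :
    9 / 100 ≤ rsq c p := by
  have h2 := h.2
  simp only [rsq, nsq] at h2 ⊢
  have h3 : (p.2.1 - (1 - c)) ^ 2 ≤ (1 / 5) ^ 2 := by nlinarith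
  have h4 := abs_le_of_sq_le_sq' h3 (by norm_num)
  rcases hc with rfl | rfl
  · nlinarith [h4.1, h4.2, sq_nonneg p.2.2.re, sq_nonneg p.2.2.im]
  · nlinarith [h4.1, h4.2, sq_nonneg p.2.2.re, sq_nonneg p.2.2.im]

private theorem neck_eq {p : R4} (h : p ∈ neck) : p = ax p.2.1 :=
  Prod.ext h.1 (Prod.ext rfl h.2.2.2)

private theorem ax_notMem {c : ℝ} (hc : c = 0 ∨ c = 1) : ax c ∉ SP := by
  intro h
  rcases h with (h | h) | h
  · have := h.2
    rw [rsq_ax] at this
    rcases hc with rfl | rfl <;> norm_num at this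
  · have := h.2
    rw [rsq_ax] at this
    rcases hc with rfl | rfl <;> norm_num at this
  · have h1 := h.2.1
    have h2 := h.2.2.1
    simp only [ax] at h1 h2
    rcases hc with rfl | rfl
    · norm_num at h1
    · norm_num at h2

/-- the contraction maps the spine into the spine with the flat ball -/
private theorem maps (hCL : StCL) {c : ℝ} (hc : c = 0 ∨ c = 1) {mu : ℝ}
    (hm : mu ∈ Ioc (0 : ℝ) 1) {p : R4} (hp : p ∈ SP) : clc c mu p ∈ SP ∪ flat c := by
  obtain ⟨-, -, h⟩ := hCL c hc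
  obtain ⟨-, hfst, -, hfix, hax, hle, -⟩ := h mu hm
  rcases mem_sp hc hp with h | h | h
  · exact Or.inr ⟨by rw [hfst]; exact h.1, (hle p).trans h.2.le⟩
  · rw [hfix p (sph_far hc h)]
    exact Or.inl hp
  · rw [neck_eq h, hax]
    obtain ⟨k0, k1⟩ := cfac_pos hm ((p.2.1 - c) ^ 2)
    set k := cfac mu ((p.2.1 - c) ^ 2) with hk
    have a1 := h.2.1
    have a2 := h.2.2.1
    rcases hc with rfl | rfl
    · by_cases hb : 1 / 5 ≤ k * p.2.1
      · refine Or.inl (Or.inr ⟨rfl, ?_, ?_, rfl⟩)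
        · simp only [ax]; linarith
        · simp only [ax]; nlinarith
      · refine Or.inr ⟨rfl, ?_⟩
        rw [rsq_ax]
        have : 0 < k * p.2.1 := mul_pos k0 (by linarith)
        simp only [sub_zero, zero_add]
        nlinarith
    · by_cases hb : 1 + k * (p.2.1 - 1) ≤ 4 / 5
      · refine Or.inl (Or.inr ⟨rfl, ?_, ?_, rfl⟩)
        · simp only [ax]; nlinarith
        · simp only [ax]; linarith
      · refine Or.inr ⟨rfl, ?_⟩
        rw [rsq_ax]
        have : k * (p.2.1 - 1) < 0 := mul_neg_of_pos_of_neg k0 (by linarith)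
        have h5 : -(1 / 5) < k * (p.2.1 - 1) := by linarith
        nlinarith

/-- no double points between the contracted cuff and the bar -/
private theorem key (hCL : StCL) {c : ℝ} (hc : c = 0 ∨ c = 1) {F : R4 → R4} {γ : ℝ}
    (injF : InjOn F (flat c ∪ sph (1 - c))) (hγ : core F γ = F (ax c))
    (only : ∀ a ∈ Icc (1 / 5 : ℝ) (4 / 5), core F a ∈ F '' flat c → a = 1 / 5 + 3 / 5 * c ∨ a = γ)
    {mu : ℝ} (hm : mu ∈ Ioc (0 : ℝ) 1) {p₀ q : R4} (hp₀ : p₀ ∈ SP) (hp : clc c mu p₀ ∈ flat c)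
    (hq : q ∈ SP) (he : F (clc c mu p₀) = F q) : clc c mu p₀ = q := by
  obtain ⟨-, -, h⟩ := hCL c hc
  obtain ⟨hemb, -, -, -, hax, -, -⟩ := h mu hm
  rcases mem_sp hc hq with h | h | h
  · exact injF (Or.inl hp) (Or.inl (sph_sub_flat c h)) he
  · exact injF (Or.inl hp) (Or.inr h) he
  · have hc' : ax c ∈ flat c := ⟨rfl, by rw [rsq_self]; norm_num⟩
    have h1 : core F q.2.1 ∈ F '' flat c := by
      refine ⟨clc c mu p₀, hp, ?_⟩
      unfold core
      rw [← neck_eq h]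
      exact he
    rcases only q.2.1 ⟨h.2.1, h.2.2.1⟩ h1 with h2 | h2
    · refine injF (Or.inl hp) (Or.inl ?_) he
      rw [neck_eq h, h2]
      refine ⟨rfl, ?_⟩
      rw [rsq_ax]
      rcases hc with rfl | rfl <;> norm_num
    · exfalso
      have h3 : F (clc c mu p₀) = F (ax c) := by
        rw [← hγ, he, ← h2]
        unfold core
        rw [← neck_eq h]
      have h4 : clc c mu p₀ = ax c := injF (Or.inl hp) (Or.inl hc') h3
      have h5 : clc c mu (ax c) = ax c := by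
        rw [hax]
        simp
      have h6 : p₀ = ax c := hemb.2 (mem_univ _) (mem_univ _) (h4.trans h5.symm)
      exact ax_notMem hc (h6 ▸ hp₀)

/-- the germ is injective on the contracted spine -/
private theorem inj (hCL : StCL) {c : ℝ} (hc : c = 0 ∨ c = 1) {F : R4 → R4} {γ : ℝ}
    (injS : InjOn F SP) (injF : InjOn F (flat c ∪ sph (1 - c))) (hγ : core F γ = F (ax c))
    (only : ∀ a ∈ Icc (1 / 5 : ℝ) (4 / 5), core F a ∈ F '' flat c → a = 1 / 5 + 3 / 5 * c ∨ a = γ)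
    {mu : ℝ} (hm : mu ∈ Ioc (0 : ℝ) 1) : InjOn (fun p => F (clc c mu p)) SP := by
  intro p hp q hq he
  obtain ⟨-, -, h⟩ := hCL c hc
  obtain ⟨hemb, -, -, -, -, -, -⟩ := h mu hm
  have he' : F (clc c mu p) = F (clc c mu q) := he
  refine hemb.2 (mem_univ _) (mem_univ _) ?_
  rcases maps hCL hc hm hp with h1 | h1
  · rcases maps hCL hc hm hq with h2 | h2
    · exact injS h1 h2 he'
    · exact (key hCL hc injF hγ only hm hq h2 h1 he'.symm).symm
  · rcases maps hCL hc hm hq with h2 | h2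
    · exact key hCL hc injF hγ only hm hp h1 h2 he'
    · exact injF (Or.inl h1) (Or.inl h2) he'

end CTR

/-- **CTR** (contraction does not change the class). -/
theorem m_CTR (hCL : StCL) (hF : StFam) : StCTR := by
  intro c F γ hc hloc injS injF hγ only lam hlam
  obtain ⟨hsm, hone, hcl⟩ := hCL c hc
  have emb : ∀ mu ∈ Ioc (0 : ℝ) 1, EmbOn I4 (fun p => F (clc c mu p)) SP := by
    intro mu hm
    refine ⟨fun p hp => ?_, CTR.inj hCL hc injS injF hγ only hm⟩
    exact ld_comp ((hcl mu hm).1.1 p (mem_univ p)) (hloc _ (CTR.maps hCL hc hm hp))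
  have hmu : ∀ t ∈ Icc (0 : ℝ) 1, 1 - t * (1 - lam) ∈ Ioc (0 : ℝ) 1 := by
    intro t ht
    constructor
    · nlinarith [ht.1, ht.2, hlam.1, hlam.2]
    · nlinarith [ht.1, ht.2, hlam.1, hlam.2]
  have hm : ContDiff ℝ ∞ (fun z : ℝ × R4 => clc c (1 - z.1 * (1 - lam)) z.2) := by
    have h1 : ContDiff ℝ ∞ (fun z : ℝ × R4 => ((1 - z.1 * (1 - lam), z.2) : ℝ × R4)) :=
      (contDiff_const.sub (contDiff_fst.mul contDiff_const)).prodMk contDiff_snd
    exact hsm.comp h1
  have hfam : FamOn I4 (fun z : ℝ × R4 => F (clc c (1 - z.1 * (1 - lam)) z.2)) SP := by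
    rw [famOn_iff]
    refine ⟨fun t ht p hp => ?_, fun t ht => emb _ (hmu t ht)⟩
    have h1 := (ld_iff.1 (hloc _ (CTR.maps hCL hc (hmu t ht) hp))).1
    have h2 : ContinuousAt (fun z : ℝ × R4 => clc c (1 - z.1 * (1 - lam)) z.2) (t, p) :=
      hm.continuous.continuousAt
    filter_upwards [h2.eventually h1] with z hz
    exact hz.comp z hm.contDiffAt
  refine ⟨emb lam hlam, ?_⟩
  have h := hF _ hfam
  have e0 : (fun p : R4 => F (clc c (1 - ((0 : ℝ), p).1 * (1 - lam)) ((0 : ℝ), p).2)) = F := by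
    funext p
    simp [hone]
  have e1 : (fun p : R4 => F (clc c (1 - ((1 : ℝ), p).1 * (1 - lam)) ((1 : ℝ), p).2)) =
      fun p => F (clc c lam p) := by
    funext p
    simp
  rw [e0, e1] at h
  exact h

end Pool.Agent.Helper70.BI


end

/-! ## Helper70.BI.AsmE0 -/

section

/-!
# Project BI, part (E): assembly (all modules except `StR3J`, `StLAS`)
-/

set_option autoImplicit false

open Pool.Agent.Helper18.BI

namespace Pool.Agent.Helper70.BI

open Pool.Agent.Helper27.BI (hVanT hR2sw hRefH hRefS hADD2 m_PERT)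
open Pool.Agent.Helper34.BI (hCH hCO hCRP)

theorem hFam : StFam := stFam_of hT2
theorem hPT : StPT := m_PT
theorem hSM : StSM := m_SM hPT
theorem hTR : StTR := m_TR hPT
theorem hGL : StGL := m_GL
theorem hLOC : StLOC := m_LOC hSM hTR hGL
theorem hDET : StDET := m_DET
theorem hC1 : StC1 := m_C1 hTR m_PERT
theorem hCL : StCL := m_CL
theorem hCTR : StCTR := m_CTR hCL hFam
theorem hRM : StRM := m_RM
theorem hRG : StRG := m_RG hFam
theorem hHL : StHL := m_HL hFam hFr
theorem hNF1 : StNF1 := m_NF1 hC1 hLOC hDET hFam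
theorem hNF2 : StNF2 := m_NF2 hRG
theorem hNF : StNF := m_NF hNF1 hNF2 hRM hRG hDET hFam
theorem hHOM : StHOM := m_HOM hCL hCTR hHL
theorem hUT : StUT := stUT hNF hHOM
theorem hSYM : StSYM := m_SYM
theorem hPATH : StPATH := m_PATH
theorem hARC3 : StARC3 := m_ARC3 hPATH
theorem hAG : StAG := m_AG hADD2 hT2 hT3 hT5 hT6 hImp hS4 hA1 hCI
theorem hR3T : StR3T := m_R3T hDET
theorem hV1 : StV1 := m_V1 hVanT hR2sw
theorem hROT : StROT := m_ROT
theorem hNO1 : StNO1 := m_NO1 hPATH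
theorem hNO : StNO := m_NO hNO1 hCTR hCL hCO
theorem hSPI : StSPI := m_SPI hROT hA1 hFam
theorem hXC : StXC := m_XC
theorem hARL : StARL := m_ARL hCH
theorem hFML1 : StFML1 := m_FML1 hCL hCTR
theorem hFML : StFML := m_FML hFML1 hCL hCTR hFr hCH
theorem hMWL : StMWL := m_MWL hT2 hCI hR2sw
theorem hLGG : StLGG := m_LGG
theorem hTH : StTH := m_TH hCRP hMWL
theorem hEI : StEI := m_EI
theorem hX2c : StX2c := m_X2c
theorem hThM : StThM := m_ThM
theorem hW4 : StW4 := m_W4 hEI hX2c hThM hX1 hT2 hCI hS4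

theorem hR3_of (hR3J : StR3J) : StR3 := m_R3 hR3J hAG hR3T hT2
theorem hW_of (hR3J : StR3J) : StW := m_W hUT hSYM (hR3_of hR3J) hT2 hCI hRefH hRefS hR2sw
theorem hOBP_of (hLAS : StLAS) : StOBP :=
  m_OBP hLAS hXC hARL hFML hTH hLGG hMWL hNF1 hRM hRG hNF2
theorem hOB1_of (hLAS : StLAS) : StOB1 := m_OB1 (hOBP_of hLAS) hRefH hT2 hCI
theorem hOB0_of (hLAS : StLAS) : StOB0 := m_OB0 (hOB1_of hLAS) hR2sw hT2 hCI
theorem hMain2_of (hLAS : StLAS) : StMain2 :=
  m_Main2 (hOB0_of hLAS) hCRP hMWL hLGG hCH hCO hFr hT2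

end Pool.Agent.Helper70.BI


end

/-! ## Helper70.BI.AsmE -/

section

/-!
# Project BI, part (E): assembly; the main theorem of stage 2, unconditionally
-/

set_option autoImplicit false

open Pool.Agent.Helper18.BI Pool.Agent.Helper65.Barb

namespace Pool.Agent.Helper70.BI

theorem hR3J : StR3J := m_R3J hARC3 hFam Pool.Agent.Helper27.BI.hVanT
theorem hR3a : StR3 := hR3_of hR3J
theorem hW : StW := hW_of hR3J
theorem hLAS : StLAS := m_LAS hNO hV1 hSPI hNF1 hRM hRG hNF2 hCL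
theorem hMain2 : StMain2 := hMain2_of hLAS

theorem hR0real : Pool.Agent.Helper18.BI.StR0 := m_R0
theorem hR1real : Pool.Agent.Helper18.BI.StR1 := m_R1 hS0 hS1 hS2 hS3 hS4 hR0real
theorem hR2real : Pool.Agent.Helper18.BI.StR2 := m_R2 hA0 hR0real
theorem hR3real : Pool.Agent.Helper18.BI.StR3 :=
  Pool.Agent.Helper18.BI.m_R3 hA1 hA2 hA3 hImp hCI hS3 hS4 hS6 hR1real hR2real

theorem exists_isW' : ∃ W : R4 → R4, IsW W := exists_isW hW

theorem hFinal2 : StFinal2 := by
  obtain ⟨W, hWW⟩ := exists_isW'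
  exact m_Final2 hW4 hMain2 hR3real hA1 hT2 hT4 hX1 hX2 hX3 hCI hWW

end Pool.Agent.Helper70.BI


end

/-! ## Helper27.BI.R.M_MULT -/

section

/-!
# Project BI, stage 4 (R): modules MULT and INV
-/

set_option autoImplicit false

open scoped Manifold ContDiff Topology ComplexConjugate
open Set Filter Pool.Agent.Helper65.Barb Pool.Agent.Helper18.BI
open Pool.Agent.Helper70.BI (I4 NearEq)
open Pool.Agent.Helper27.H
open Pool.Agent.Helper18.BI.H (cls_imm_inj)
open Pool.Agent.Helper18.BI.R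

namespace Pool.Agent.Helper27.R

section
variable {D : ArcD} {c c' : ℝ → ℝ → R4}

/-- a loop as a constant homotopy -/
theorem loop_htpy (hc : LoopOK D c) : D.Htpy (fun z => c z.2.1 z.2.2) where
  smooth := hc.smooth.comp (g := fun z : ℝ × ℝ => c z.1 z.2)
    (f := fun z : ℝ × ℝ × ℝ => (z.2.1, z.2.2)) (by fun_prop)
  froz _ _ q hq s hs := hc.froz q hq s hs
  inU _ _ q hq s hs := hc.inU q hq s hs
  start _ _ s := hc.start s
  stop _ _ s := hc.stop s

theorem cat_le (hc' : LoopOK D c') {q : ℝ} (h : q ≤ 1 / 2) (s : ℝ) :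
    cat D c c' q s = c (step (2 * q)) s := by
  unfold cat
  rw [step_of_nonpos (by linarith : 2 * q - 1 ≤ 0), hc'.start]
  abel

theorem cat_ge (hc : LoopOK D c) {q : ℝ} (h : 1 / 2 ≤ q) (s : ℝ) :
    cat D c c' q s = c' (step (2 * q - 1)) s := by
  unfold cat
  rw [step_of_one_le (by linarith : 1 ≤ 2 * q), hc.stop]
  abel

theorem loopOK_cat (hc : LoopOK D c) (hc' : LoopOK D c') : LoopOK D (cat D c c') where
  smooth := by
    have h1 : ContDiff ℝ ∞ (fun z : ℝ × ℝ => c (step (2 * z.1)) z.2) :=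
      hc.smooth.comp (g := fun z : ℝ × ℝ => c z.1 z.2) (f := fun z : ℝ × ℝ =>
        (step (2 * z.1), z.2)) ((contDiff_step.comp (by fun_prop)).prodMk contDiff_snd)
    have h2 : ContDiff ℝ ∞ (fun z : ℝ × ℝ => c' (step (2 * z.1 - 1)) z.2) :=
      hc'.smooth.comp (g := fun z : ℝ × ℝ => c' z.1 z.2) (f := fun z : ℝ × ℝ =>
        (step (2 * z.1 - 1), z.2)) ((contDiff_step.comp (by fun_prop)).prodMk contDiff_snd)
    exact (h1.add h2).sub (D.smooth.comp contDiff_snd)
  froz q hq s hs := by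
    unfold cat
    rw [hc.froz _ (step_mem _) s hs, hc'.froz _ (step_mem _) s hs]
    abel
  inU q hq s hs := by
    rcases le_total q (1 / 2) with h | h
    · rw [cat_le hc' h]
      exact hc.inU _ (step_mem _) s hs
    · rw [cat_ge hc h]
      exact hc'.inU _ (step_mem _) s hs
  start s := by
    rw [cat_le hc' (by norm_num), mul_zero, step_of_nonpos le_rfl, hc.start]
  stop s := by
    rw [cat_ge hc (by norm_num), step_of_one_le (by norm_num), hc'.stop]

theorem loopOK_rev (hc : LoopOK D c) : LoopOK D (fun q s => c (1 - q) s) where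
  smooth := hc.smooth.comp (g := fun z : ℝ × ℝ => c z.1 z.2) (f := fun z : ℝ × ℝ =>
    (1 - z.1, z.2)) (by fun_prop)
  froz q hq s hs := hc.froz (1 - q) ⟨by linarith [hq.2], by linarith [hq.1]⟩ s hs
  inU q hq s hs := hc.inU (1 - q) ⟨by linarith [hq.2], by linarith [hq.1]⟩ s hs
  start s := by simp only [sub_zero]; exact hc.stop s
  stop s := by simp only [sub_self]; exact hc.start s

end

section
variable (hCh : StCH4) (hFr : StFRAME) (hTh : StTHK) (hPhi : StPhi)

include hTh in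
/-- the canonical thick family of a loop of embedded arcs -/
theorem loop_fam {D : ArcD} {c : ℝ → ℝ → R4} (hc : LoopOK D c)
    (he : ∀ q ∈ Icc (0 : ℝ) 1, D.Imm (fun z => c z.2.1 z.2.2) 0 q ∧
      D.Inj (fun z => c z.2.1 z.2.2) 0 q) :
    Fam2 Q2 D.L D.V D.U (fun a => thk D.J D.c (c a.2)) ∧
      (∀ q, ∀ s ∈ Icc D.s₀ D.s₁, thk D.J D.c (c q) (s, 0) = c q s) ∧
      thk D.J D.c (c 0) = D.J ∧ thk D.J D.c (c 1) = D.J := by
  obtain ⟨h1, h2, h3⟩ := can_fam hTh D (loop_htpy hc) (u := 0) (u' := 0) le_rfl le_rfl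
    zero_le_one (fun v hv => by
      rw [Icc_self] at hv
      rw [hv]
      exact he)
  exact ⟨h1, fun q s hs => h2 0 q s hs, (h3 0 (by simp)).1, (h3 0 (by simp)).2⟩

include hCh hFr hTh hPhi in
/-- canonical representatives of the class of a loop -/
theorem loop_can {D : ArcD} {c : ℝ → ℝ → R4} {χ : R4 → R4} (hc : LoopOK D c) (h : D.Cls c χ) :
    Fam2 Q2 D.L D.V D.U (fun a => thk D.J D.c (c a.2)) ∧
      (∀ q, ∀ s ∈ Icc D.s₀ D.s₁, thk D.J D.c (c q) (s, 0) = c q s) ∧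
      thk D.J D.c (c 0) = D.J ∧ thk D.J D.c (c 1) = D.J ∧
      ∃ Θ, LPush D.U D.L (fun q => thk D.J D.c (c q)) Θ ∧ LIso D.U D.L D.J D.J Θ Θ ∧
        D.Phi Θ χ := by
  have he := cls_imm_inj D (fun z => c z.2.1 z.2.2) 0 χ (loop_htpy hc).smooth h
  obtain ⟨h1, h2, h3, h4⟩ := loop_fam hTh hc he
  obtain ⟨Θ, χ₀, e1, e2, e3⟩ := can_exists hCh hTh hPhi D (loop_htpy hc) (u := 0) (by simp) he
  have c0 := can_cls hTh D (loop_htpy hc) (u := 0) (by simp) he e1 e3
  exact ⟨h1, h2, h3, h4, Θ, e1, e2,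
    (hPhi D).2.2.2.2.2.1 Θ χ₀ χ e3 (cls_unique hFr hPhi D c0 h)⟩

include hCh hFr hTh hPhi in
theorem m_MULT : StMULT := by
  intro D c c' χ χ' hc hc' h h'
  obtain ⟨f1, f2, f3, f4, Θ, g1, g2, g3⟩ := loop_can hCh hFr hTh hPhi hc h
  obtain ⟨f1', f2', f3', f4', Θ', g1', g2', g3'⟩ := loop_can hCh hFr hTh hPhi hc' h'
  have he := cls_imm_inj D (fun z => c z.2.1 z.2.2) 0 χ (loop_htpy hc).smooth h
  have he' := cls_imm_inj D (fun z => c' z.2.1 z.2.2) 0 χ' (loop_htpy hc').smooth h'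
  have hcc := loopOK_cat hc hc'
  -- the arcs of the concatenation
  have ele : ∀ q : ℝ, q ≤ 1 / 2 → cat D c c' q = c (step (2 * q)) := fun q hq =>
    funext fun s => cat_le hc' hq s
  have ege : ∀ q : ℝ, 1 / 2 ≤ q → cat D c c' q = c' (step (2 * q - 1)) := fun q hq =>
    funext fun s => cat_ge hc hq s
  have hecc : ∀ q ∈ Icc (0 : ℝ) 1, D.Imm (fun z => cat D c c' z.2.1 z.2.2) 0 q ∧
      D.Inj (fun z => cat D c c' z.2.1 z.2.2) 0 q := by
    intro q hq
    rcases le_total q (1 / 2) with hq' | hq'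
    · have := he (step (2 * q)) (step_mem _)
      have e : ∀ s, cat D c c' q s = c (step (2 * q)) s := fun s => cat_le hc' hq' s
      constructor
      · intro s hs
        have := this.1 s hs
        show deriv (fun s => cat D c c' q s) s ≠ 0
        rw [funext e]
        exact this
      · have := this.2
        show InjOn (fun s => cat D c c' q s) _
        rw [funext e]
        exact this
    · have := he' (step (2 * q - 1)) (step_mem _)
      have e : ∀ s, cat D c c' q s = c' (step (2 * q - 1)) s := fun s => cat_ge hc hq' s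
      constructor
      · intro s hs
        have := this.1 s hs
        show deriv (fun s => cat D c c' q s) s ≠ 0
        rw [funext e]
        exact this
      · have := this.2
        show InjOn (fun s => cat D c c' q s) _
        rw [funext e]
        exact this
  obtain ⟨k1, k2, k3, k4⟩ := loop_fam hTh hcc hecc
  have m0 : ((0 : ℝ), (0 : ℝ)) ∈ Q2 := by simp [Q2]
  have mh : ((0 : ℝ), (1 / 2 : ℝ)) ∈ Q2 := by
    refine ⟨by simp, ?_, ?_⟩ <;> simp only <;> norm_num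
  have m1 : ((0 : ℝ), (1 : ℝ)) ∈ Q2 := by simp [Q2]
  obtain ⟨Θ1, p1⟩ := exists_lpush hCh D.isCompact_L D.isOpen_V D.openU isCompact_Q2 convex_Q2 k1 m0 mh
  obtain ⟨Θ2, p2⟩ := exists_lpush hCh D.isCompact_L D.isOpen_V D.openU isCompact_Q2 convex_Q2 k1 mh m1
  obtain ⟨Θ3, p3⟩ := exists_lpush hCh D.isCompact_L D.isOpen_V D.openU isCompact_Q2 convex_Q2 k1 m0 m1
  have tri := triangle4 hCh D.isCompact_L D.isOpen_V D.openU isCompact_Q2 convex_Q2 k1 m0 mh m1
    p1 p2 p3
  -- the first half is a reparametrization of the first loop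
  have q1 : LPush D.U D.L (fun q => thk D.J D.c (c (step q))) Θ1 := by
    refine p1.congr ⟨univ, isOpen_univ, subset_univ _, fun q hq p _ => ?_⟩
    have e : (((0 : ℝ), (0 : ℝ)) + q • (((0 : ℝ), (1 / 2 : ℝ)) - ((0 : ℝ), (0 : ℝ)))).2 = q / 2 := by
      simp; ring
    simp only [e]
    rw [ele (q / 2) (by linarith [hq.2])]
    have e' : 2 * (q / 2) = q := by ring
    rw [e']
  have q2 : LPush D.U D.L (fun q => thk D.J D.c (c' (step q))) Θ2 := by
    refine p2.congr ⟨univ, isOpen_univ, subset_univ _, fun q hq p _ => ?_⟩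
    have e : (((0 : ℝ), (1 / 2 : ℝ)) + q • (((0 : ℝ), (1 : ℝ)) - ((0 : ℝ), (1 / 2 : ℝ)))).2 =
        1 / 2 + q / 2 := by
      simp; ring
    simp only [e]
    rw [ege (1 / 2 + q / 2) (by linarith [hq.1])]
    have e' : 2 * (1 / 2 + q / 2) - 1 = q := by ring
    rw [e']
  have q3 : LPush D.U D.L (fun q => thk D.J D.c (cat D c c' q)) Θ3 := by
    refine p3.congr ⟨univ, isOpen_univ, subset_univ _, fun q hq p _ => ?_⟩
    have e : (((0 : ℝ), (0 : ℝ)) + q • (((0 : ℝ), (1 : ℝ)) - ((0 : ℝ), (0 : ℝ)))).2 = q := by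
      simp
    simp only [e]
  have st0 : step 0 = 0 := step_of_nonpos le_rfl
  have st1 : step 1 = 1 := step_of_one_le le_rfl
  have r1 : LIso D.U D.L D.J D.J Θ Θ1 := by
    have := push_reparam hCh D.isCompact_L D.isOpen_V D.openU (J := fun q => thk D.J D.c (c q))
      f1 contDiff_step (fun q _ => step_mem q) st0 st1 g1 q1
    rwa [f3, f4] at this
  have r2 : LIso D.U D.L D.J D.J Θ' Θ2 := by
    have := push_reparam hCh D.isCompact_L D.isOpen_V D.openU (J := fun q => thk D.J D.c (c' q))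
      f1' contDiff_step (fun q _ => step_mem q) st0 st1 g1' q2
    rwa [f3', f4'] at this
  have tri' : LIso D.U D.L D.J D.J (fun x => Θ2 (Θ1 x)) Θ3 := by
    have := tri
    simp only [k3, k4] at this
    exact this
  have all : LIso D.U D.L D.J D.J (fun x => Θ' (Θ x)) Θ3 := (r2.comp r1).trans tri'
  have ph : D.Phi (fun x => Θ' (Θ x)) (fun x => χ' (χ x)) :=
    (hPhi D).2.2.2.1 Θ' Θ χ' χ g2' g2 g3' g3
  have ph3 : D.Phi Θ3 (fun x => χ' (χ x)) := (hPhi D).1 _ _ _ all ph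
  refine ⟨fun q => thk D.J D.c (cat D c c' q), fun q _ s hs => k2 q s hs, D.V, D.isOpen_V,
    D.mem_V₀, D.mem_V₁, k1, fun p _ => congrFun k3 p, ?_, ?_, Θ3, q3, ph3⟩
  · simp only [k3]
    exact nearEq_refl _ _
  · simp only [k4]
    exact nearEq_refl _ _

include hCh hFr hTh hPhi in
theorem m_INV (hCI : StCI) : StINV := by
  intro D c χ χ' hc h ha hb
  obtain ⟨f1, f2, f3, f4, Θ, g1, g2, g3⟩ := loop_can hCh hFr hTh hPhi hc h
  obtain ⟨Θ', i1, i2, i3⟩ := g2.exists_inv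
  have p' := g1.reverse i2
  obtain ⟨χ'', hχ''⟩ := (hPhi D).2.1 Θ' Θ' i1
  -- `χ ∘ χ''` is the class of the identity
  obtain ⟨-, cs, cself, ct, cc, cinv, -⟩ := hCI _ _ 𝓘(ℝ, R4) R4
  have e1 : D.Phi (fun x => Θ (Θ' x)) (fun x => χ (χ'' x)) :=
    (hPhi D).2.2.2.1 Θ Θ' χ χ'' g2 i1 g3 hχ''
  have e2 : (fun x => Θ (Θ' x)) = fun x => x := funext i2
  rw [e2] at e1
  have e3 : CIsot I4 (fun x => χ (χ'' x)) (fun x => x) :=
    (hPhi D).2.2.1 (fun x => x) _ _ (LIso.one D.J) e1 (hPhi D).2.2.2.2.1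
  have χχ : CIsot I4 χ χ := (hPhi D).2.2.2.2.2.2 Θ χ g3
  have χ'χ' : CIsot I4 χ' χ' := cinv χ χ χ' χ' χχ ha ha
  have e4 : CIsot I4 (fun x => χ' (χ (χ'' x))) (fun x => χ' x) :=
    cc χ' χ' (fun x => χ (χ'' x)) (fun x => x) χ'χ' e3
  have e5 : (fun x => χ' (χ (χ'' x))) = χ'' := funext fun x => hb (χ'' x)
  rw [e5] at e4
  have ph : D.Phi Θ' χ' := (hPhi D).2.2.2.2.2.1 Θ' χ'' χ' hχ'' e4
  have hfam : Fam2 Q2 D.L D.V D.U (fun a => thk D.J D.c (c (1 - a.2))) := by
    refine f1.comp (θ := fun a => (a.1, 1 - a.2)) (by fun_prop) ?_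
    rintro ⟨x, q⟩ ⟨hx, hq1, hq2⟩
    simp only at hq1 hq2
    exact ⟨hx, by simp only; linarith, by simp only; linarith⟩
  refine ⟨fun q => thk D.J D.c (c (1 - q)), fun q _ s hs => f2 (1 - q) s hs, D.V, D.isOpen_V,
    D.mem_V₀, D.mem_V₁, hfam, fun p _ => ?_, ?_, ?_, Θ', p', ph⟩
  · simp only [sub_zero, f4]
  · simp only [sub_zero, f4]
    exact nearEq_refl _ _
  · simp only [sub_self, f3]
    exact nearEq_refl _ _

end

end Pool.Agent.Helper27.R


end
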