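import Pool.Agent.Helper65.Barb.Defs
import Pool.Agent.Helper70.BI.C.P64

/-!
# Project BI (MP_8e98f2_gt): collected modules, part 65

The contents of the modules
* Helper18.BI.S5.M_REL6
* Helper34.BI5.VK4
* Helper34.BI5.VK8
* Helper34.BI5.M_CRL

in one file, so that the whole proof builds in a short time.
-/

namespace Pool.Agent.Helper18.BI
end Pool.Agent.Helper18.BI

namespace Pool.Agent.Helper18.BI.H
end Pool.Agent.Helper18.BI.H

namespace Pool.Agent.Helper18.BI.R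
end Pool.Agent.Helper18.BI.R

namespace Pool.Agent.Helper18.BI.S5
end Pool.Agent.Helper18.BI.S5

namespace Pool.Agent.Helper27.H
end Pool.Agent.Helper27.H

namespace Pool.Agent.Helper65.Barb
end Pool.Agent.Helper65.Barb

namespace Pool.Agent.Helper70.BI
end Pool.Agent.Helper70.BI


/-! ## Helper18.BI.S5.M_REL6 -/

section

/-!
# Project BI, stage 5, module REL6: the relation theorem in `R4` for arbitrary spheres
-/

set_option autoImplicit false
set_option linter.unusedSectionVars false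

open scoped Manifold ContDiff Topology ComplexConjugate
open Set Filter Pool.Agent.Helper65.Barb Pool.Agent.Helper18.BI
open Pool.Agent.Helper70.BI (I4 IsW MW StMWL)
open Pool.Agent.Helper27.H (ArcD)
open Pool.Agent.Helper18.BI.H
open Pool.Agent.Helper18.BI.R

namespace Pool.Agent.Helper18.BI.S5

namespace REL6

/-- two descriptions of the square of a word -/
theorem evS_evM {n : ℕ} (y : R4) (g : Fin n → R3 → R4) (l : List (Fin n × Bool)) (q s : ℝ) :
    evS y g l q s = evM y g l q s := by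
  induction l generalizing q with
  | nil => rfl
  | cons p l ih =>
    obtain ⟨i, b⟩ := p
    rcases b with _ | _
    · show qcat _ _ q s = qcatM _ _ q s
      unfold qcat qcatM
      split_ifs
      · rfl
      · exact ih _
    · show qcat _ _ q s = qcatM _ _ q s
      unfold qcat qcatM
      split_ifs
      · rfl
      · exact ih _

/-- concatenation of a homotopy with the inverse of another one -/
theorem concat_inv {A : Set R4} {k k' : ℝ × R3 → R4}
    (hk : ContinuousOn k (Icc (0 : ℝ) 1 ×ˢ S2)) (hk' : ContinuousOn k' (Icc (0 : ℝ) 1 ×ˢ S2))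
    (he : ∀ m ∈ S2, k (1, m) = k' (1, m))
    (ho : ∀ u ∈ Icc (0 : ℝ) 1, ∀ m ∈ S2, k (u, m) ∉ A)
    (ho' : ∀ u ∈ Icc (0 : ℝ) 1, ∀ m ∈ S2, k' (u, m) ∉ A) :
    ∃ L : ℝ × R3 → R4, ContinuousOn L (Icc (0 : ℝ) 1 ×ˢ S2) ∧ (∀ m ∈ S2, L (0, m) = k (0, m)) ∧
      (∀ m ∈ S2, L (1, m) = k' (0, m)) ∧ ∀ u ∈ Icc (0 : ℝ) 1, ∀ m ∈ S2, L (u, m) ∉ A := by
  let L : ℝ × R3 → R4 := fun z => if z.1 ≤ 1 / 2 then k (2 * z.1, z.2) else k' (2 - 2 * z.1, z.2)
  have ka : ∀ u ∈ Icc (0 : ℝ) (1 / 2), ∀ m ∈ S2, L (u, m) = k (2 * u, m) :=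
    fun u hu m _ => if_pos hu.2
  have kb : ∀ u ∈ Icc (1 / 2 : ℝ) 1, ∀ m ∈ S2, L (u, m) = k' (2 - 2 * u, m) := by
    intro u hu m hm
    by_cases h2 : u ≤ 1 / 2
    · have h3 : u = 1 / 2 := le_antisymm h2 hu.1
      subst h3
      rw [ka _ ⟨by norm_num, le_rfl⟩ m hm]
      have e1 : (2 * (1 / 2) : ℝ) = 1 := by norm_num
      have e2 : (2 - 2 * (1 / 2) : ℝ) = 1 := by norm_num
      rw [e2, e1, he m hm]
    · exact if_neg h2
  refine ⟨L, ?_, ?_, ?_, ?_⟩
  · have e : Icc (0 : ℝ) 1 ×ˢ S2 = (Icc 0 (1 / 2) ×ˢ S2) ∪ (Icc (1 / 2) 1 ×ˢ S2) := by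
      rw [← Set.union_prod, Icc_union_Icc_eq_Icc (by norm_num) (by norm_num)]
    rw [e]
    refine ContinuousOn.union_of_isClosed ?_ ?_ (isClosed_Icc.prod isCompact_S2.isClosed)
      (isClosed_Icc.prod isCompact_S2.isClosed)
    · refine ContinuousOn.congr (f := fun z : ℝ × R3 => k (2 * z.1, z.2)) ?_ ?_
      · refine hk.comp (Continuous.continuousOn (by fun_prop)) ?_
        rintro ⟨u, m⟩ hz
        have hz1 : 0 ≤ u ∧ u ≤ 1 / 2 := hz.1
        exact ⟨⟨by show (0 : ℝ) ≤ 2 * u; linarith, by show 2 * u ≤ (1 : ℝ); linarith⟩, hz.2⟩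
      · rintro ⟨u, m⟩ hz
        exact ka u hz.1 m hz.2
    · refine ContinuousOn.congr (f := fun z : ℝ × R3 => k' (2 - 2 * z.1, z.2)) ?_ ?_
      · refine hk'.comp (Continuous.continuousOn (by fun_prop)) ?_
        rintro ⟨u, m⟩ hz
        have hz1 : 1 / 2 ≤ u ∧ u ≤ 1 := hz.1
        exact ⟨⟨by show (0 : ℝ) ≤ 2 - 2 * u; linarith, by show 2 - 2 * u ≤ (1 : ℝ); linarith⟩, hz.2⟩
      · rintro ⟨u, m⟩ hz
        exact kb u hz.1 m hz.2
  · intro m hm
    rw [ka 0 ⟨le_rfl, by norm_num⟩ m hm, mul_zero]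
  · intro m hm
    rw [kb 1 ⟨by norm_num, le_rfl⟩ m hm]
    norm_num
  · intro u hu m hm
    rcases le_total u (1 / 2) with h2 | h2
    · rw [ka u ⟨hu.1, h2⟩ m hm]
      exact ho _ ⟨by linarith [hu.1], by linarith⟩ m hm
    · rw [kb u ⟨h2, hu.2⟩ m hm]
      exact ho' _ ⟨by linarith [hu.2], by linarith⟩ m hm

end REL6

open REL6 in
/-- **REL6.** -/
theorem m_REL6 (hSTR2 : StSTR2) (hMOVE : StMOVE) (hFREE : StFREE) (hHAT : StHATk) (hBAS : StBAS)
    (hNRB : StNRB) (hHCL : StHCL) (hEX : StEX) (hDRIFT : StDRIFT) (hMWL : StMWL) (hT2 : StT2)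
    (hCI : StCI) : StREL6 := by
  intro n F Gr P Fi φ U b h W l N hW hF hU hsU hG0 hP ⟨hh, h1, h0, hoff⟩ ⟨hN, hN01, hNoff⟩
  obtain ⟨cid, cs, cself, ct, cc, cinv, cex, -⟩ := hCI _ _ 𝓘(ℝ, R4) R4
  have tself := (hT2 _ _ 𝓘(ℝ, R4) R4).2.2.2.2.2.2
  obtain ⟨K, b', U₁, V, hU₁, hsU₁, hK, hV, hsV, hKV, hb1, hb2, hKb, hKF⟩ := hSTR2 U hU hsU
  obtain ⟨Ψ, hΨc, hΨ0, hΨ1, hΨoff⟩ := hMOVE F (1 / 2) b' hF (by constructor <;> norm_num) ⟨hb1, hb2⟩
  -- the stretched germs
  have hF₁ : EmbOn I4 (fun p => F (K p)) SP := (hKF F hF).1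
  have hG : ∀ i ∈ Gr, EmbOn I4 (fun p => Fi i (K p)) SP := fun i hi => (hKF _ (hG0 i hi).1).1
  have hEG : ∀ i ∈ Gr, EqOn (fun p => F (K p)) (fun p => Fi i (K p)) V := fun i hi p hp =>
    (hG0 i hi).2.1 (hKV p hp)
  have hTG : ∀ i ∈ Gr, Thin I4 (fun p => Fi i (K p)) (φ i) := fun i hi =>
    (hKF _ (hG0 i hi).1).2 _ (hG0 i hi).2.2.1
  have hbp : bp (fun p => F (K p)) = F (bar b') := by
    show F (K (bar (73 / 100))) = F (bar b')
    rw [hKb]
  have him : (fun p => F (K p)) '' sph 1 = F '' sph 1 :=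
    image_congr fun p hp => by rw [hK p (hsU₁ (Or.inr hp))]
  -- the homotopies with moved base points
  let k : Fin n → ℝ × R3 → R4 := fun i z =>
    if z.1 ≤ 1 / 2 then Ψ (1 - 2 * z.1, h i (0, z.2)) else h i (2 * z.1 - 1, z.2)
  have ka : ∀ i, ∀ u ∈ Icc (0 : ℝ) (1 / 2), ∀ m ∈ S2, k i (u, m) = Ψ (1 - 2 * u, h i (0, m)) :=
    fun i u hu m _ => if_pos hu.2
  have kb : ∀ i, ∀ u ∈ Icc (1 / 2 : ℝ) 1, ∀ m ∈ S2, k i (u, m) = h i (2 * u - 1, m) := by
    intro i u hu m hm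
    by_cases h2 : u ≤ 1 / 2
    · have h3 : u = 1 / 2 := le_antisymm h2 hu.1
      subst h3
      rw [ka i _ ⟨by norm_num, le_rfl⟩ m hm]
      have e1 : (1 - 2 * (1 / 2) : ℝ) = 0 := by norm_num
      have e2 : (2 * (1 / 2) - 1 : ℝ) = 0 := by norm_num
      rw [e1, e2, hΨ0]
    · exact if_neg h2
  have kc : ∀ i, ContinuousOn (k i) (Icc (0 : ℝ) 1 ×ˢ S2) := by
    intro i
    have e : Icc (0 : ℝ) 1 ×ˢ S2 = (Icc 0 (1 / 2) ×ˢ S2) ∪ (Icc (1 / 2) 1 ×ˢ S2) := by
      rw [← Set.union_prod, Icc_union_Icc_eq_Icc (by norm_num) (by norm_num)]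
    rw [e]
    refine ContinuousOn.union_of_isClosed ?_ ?_ (isClosed_Icc.prod isCompact_S2.isClosed)
      (isClosed_Icc.prod isCompact_S2.isClosed)
    · refine ContinuousOn.congr (f := fun z : ℝ × R3 => Ψ (1 - 2 * z.1, h i (0, z.2))) ?_ ?_
      · refine hΨc.comp_continuousOn ?_
        refine ContinuousOn.prodMk (Continuous.continuousOn (by fun_prop)) ?_
        refine (hh i).comp (Continuous.continuousOn (by fun_prop)) ?_
        rintro ⟨u, m⟩ hz
        exact ⟨⟨le_rfl, zero_le_one⟩, hz.2⟩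
      · rintro ⟨u, m⟩ hz
        exact ka i u hz.1 m hz.2
    · refine ContinuousOn.congr (f := fun z : ℝ × R3 => h i (2 * z.1 - 1, z.2)) ?_ ?_
      · refine (hh i).comp (Continuous.continuousOn (by fun_prop)) ?_
        rintro ⟨u, m⟩ hz
        have hz1 : 1 / 2 ≤ u ∧ u ≤ 1 := hz.1
        exact ⟨⟨by show (0 : ℝ) ≤ 2 * u - 1; linarith, by show 2 * u - 1 ≤ (1 : ℝ); linarith⟩, hz.2⟩
      · rintro ⟨u, m⟩ hz
        exact kb i u hz.1 m hz.2
  have k1' : ∀ i, ∀ m ∈ S2, k i (1, m) = b i m := by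
    intro i m hm
    rw [kb i 1 ⟨by norm_num, le_rfl⟩ m hm]
    have e1 : (2 * 1 - 1 : ℝ) = 1 := by norm_num
    rw [e1, h1 i m hm]
  have k1 : ∀ i ∈ Gr, ∀ m ∈ S2, k i (1, m) = (fun p => Fi i (K p)) (1 / 2, (1 / 5 : ℝ) • m) := by
    intro i hi m hm
    rw [k1' i m hm, (hG0 i hi).2.2.2 m hm]
    show _ = Fi i (K _)
    rw [hK _ (hsU₁ (Or.inl (cuff_mem hm)))]
  have k0' : ∀ i, ∀ m ∈ S2, k i (0, m) = Ψ (1, h i (0, m)) := by
    intro i m hm
    rw [ka i 0 ⟨le_rfl, by norm_num⟩ _ hm]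
    norm_num
  have k0 : ∀ i, k i (0, (1, 0)) = bp (fun p => F (K p)) := by
    intro i
    rw [k0' i _ base_mem_S2, h0 i, hbp, hΨ1]
  have koff : ∀ i, ∀ u ∈ Icc (0 : ℝ) 1, ∀ m ∈ S2, k i (u, m) ∉ (fun p => F (K p)) '' sph 1 := by
    intro i u hu m hm
    rw [him]
    rcases le_total u (1 / 2) with h2 | h2
    · rw [ka i u ⟨hu.1, h2⟩ m hm]
      exact hΨoff _ _ (hoff i 0 ⟨le_rfl, zero_le_one⟩ m hm)
    · rw [kb i u ⟨h2, hu.2⟩ m hm]
      exact hoff i _ ⟨by linarith, by linarith [hu.2]⟩ m hm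
  -- the germs with the right bars
  choose G φ₂ V₂ H hG₂ hV₂ hsV₂ hE₂ hT₂ hor hHc hH0 hH1 hHb hHoff using fun i : Gr =>
    hFREE (fun p => F (K p)) (fun p => Fi i (K p)) V W (φ i) (k i) hW hF₁ (hG i i.2) hV hsV
      (hEG i i.2) (hTG i i.2) (kc i) (k1 i i.2) (k0 i) (koff i)
  -- the pairs
  have hDR : ∀ x : P, DR (fun p => F (K p)) (fun m => Ψ (1, h x.1.1 (0, m)))
      (fun m => Ψ (1, h x.1.2 (0, m))) := by
    rintro ⟨⟨i, j⟩, hx⟩
    obtain ⟨L, hL1, hL2, hL3, hL4⟩ := concat_inv (kc i) (kc j)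
      (fun m hm => by rw [k1' i m hm, k1' j m hm]; exact hP _ hx hm) (koff i) (koff j)
    have h2 := hDRIFT (fun p => F (K p)) L hF₁ hL1 (by rw [hL2 _ base_mem_S2, k0])
      (by rw [hL3 _ base_mem_S2, k0]) hL4
    obtain ⟨κ, hκ, δ₀, hδ₀, h3⟩ := h2
    refine ⟨κ, hκ, δ₀, hδ₀, fun δ hδ => ?_⟩
    obtain ⟨ε₀, hε₀, h3⟩ := h3 δ hδ
    refine ⟨ε₀, hε₀, fun ε hε D hD hDU W χ χ' hW c1 c2 => h3 ε hε D hD hDU W χ χ' hW ?_ ?_⟩
    · have e : (fun q s => L (0, mm q s)) = fun q s => Ψ (1, h i (0, mm q s)) := by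
        funext q s
        rw [hL2 _ (mm_S2 q s), k0' i _ (mm_S2 q s)]
      show HasCl D _ (fun q s => L (0, mm q s)) χ
      rw [e]
      exact c1
    · have e : (fun q s => L (1, mm q s)) = fun q s => Ψ (1, h j (0, mm q s)) := by
        funext q s
        rw [hL3 _ (mm_S2 q s), k0' j _ (mm_S2 q s)]
      show HasCl D _ (fun q s => L (1, mm q s)) χ'
      rw [e]
      exact c2
  choose κd hκd δd hδd hdr₀ using hDR
  -- constants
  choose κb hκb εb hεb hbas using fun i : Gr => hBAS (fun p => F (K p)) (G i) (V₂ i) hF₁ (hG₂ i)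
    (hV₂ i) (hsV₂ i) (hE₂ i)
  have hAc : IsCompact (F '' sph 1) := by
    have h1 : IsCompact (sph 1) := by
      refine hS4.2.2.2.2.2.2.2.2.1.of_isClosed_subset ?_ (fun p hp => Or.inl (Or.inr hp))
      apply IsClosed.inter (isClosed_eq continuous_fst continuous_const)
      exact isClosed_eq (continuous_rsq 1) continuous_const
    exact h1.image_of_continuousOn
      ((embOn_continuousOn hF).mono fun p hp => Or.inl (Or.inr hp))
  have hbox : IsCompact box := isCompact_Icc.prod (isCompact_Icc.prod isCompact_Icc)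
  obtain ⟨κ, hκ0, hκ1, hκ2, hκ3, hκ4, hκ5⟩ : ∃ κ : ℝ, 0 < κ ∧ (∀ i, κ ≤ κb i) ∧
      (∀ i, ∀ z ∈ Icc (0 : ℝ) 1 ×ˢ S2, ∀ y ∈ F '' sph 1, 2 * κ ≤ dist (H i z) y) ∧
      (∀ z ∈ box, ∀ y ∈ F '' sph 1, 2 * κ ≤ dist (Ψ (1, N z)) y) ∧ (∀ x, κ ≤ κd x) ∧
      ∀ i, ∀ m ∈ S2, ∀ y ∈ F '' sph 1, 2 * κ ≤ dist (Ψ (1, h i (0, m))) y := by
    have a1 : ∀ᶠ κ in 𝓝[>] (0 : ℝ), ∀ i, κ ≤ κb i := eventually_all.2 fun i => by
      filter_upwards [Ioo_mem_nhdsGT (hκb i)] with κ hκ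
      exact hκ.2.le
    have a2 : ∀ᶠ κ in 𝓝[>] (0 : ℝ), ∀ i, ∀ z ∈ Icc (0 : ℝ) 1 ×ˢ S2, ∀ y ∈ F '' sph 1,
        2 * κ ≤ dist (H i z) y := eventually_all.2 fun i =>
      margin (isCompact_Icc.prod isCompact_S2) (hHc i) hAc (by
        rintro ⟨u, m⟩ hz
        have := hHoff i u hz.1 m hz.2
        rwa [him] at this)
    have a3 := margin (f := fun z => Ψ (1, N z)) hbox
      (hΨc.comp_continuousOn (continuousOn_const.prodMk hN)) hAc (by
        rintro ⟨u, q, s⟩ hz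
        exact hΨoff _ _ (hNoff u hz.1 q hz.2.1 s hz.2.2).1)
    have a4 : ∀ᶠ κ in 𝓝[>] (0 : ℝ), ∀ x, κ ≤ κd x := eventually_all.2 fun x => by
      filter_upwards [Ioo_mem_nhdsGT (hκd x)] with κ hκ
      exact hκ.2.le
    have a5 : ∀ᶠ κ in 𝓝[>] (0 : ℝ), ∀ i, ∀ m ∈ S2, ∀ y ∈ F '' sph 1,
        2 * κ ≤ dist (Ψ (1, h i (0, m))) y := eventually_all.2 fun i =>
      margin (f := fun m => Ψ (1, h i (0, m))) isCompact_S2
        (hΨc.comp_continuousOn (continuousOn_const.prodMk ((hh i).comp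
          (Continuous.continuousOn (by fun_prop)) fun m hm => ⟨⟨le_rfl, zero_le_one⟩, hm⟩))) hAc
        (fun m hm => hΨoff _ _ (hoff i 0 ⟨le_rfl, zero_le_one⟩ m hm))
    obtain ⟨κ, b1, b2, b3, b4, b5, b6⟩ :=
      (a1.and (a2.and (a3.and (a4.and (a5.and self_mem_nhdsWithin))))).exists
    exact ⟨κ, b6, b1, b2, b3, b4, b5⟩
  obtain ⟨δH, hδH, hHAT'⟩ := hHAT Gr (fun p => F (K p)) G φ₂ (⋂ i, V₂ i) hF₁ hG₂
    (isOpen_iInter_of_finite hV₂) (subset_iInter hsV₂)
    (fun i p hp => hE₂ i (mem_iInter.1 hp i)) hT₂ κ hκ0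
  obtain ⟨δ, hδ1, hδ2⟩ : ∃ δ : ℝ, δ ∈ Ioo 0 δH ∧ ∀ x, δ ∈ Ioo 0 (δd x) := by
    have a1 : ∀ᶠ δ in 𝓝[>] (0 : ℝ), δ ∈ Ioo 0 δH := Ioo_mem_nhdsGT hδH
    have a2 : ∀ᶠ δ in 𝓝[>] (0 : ℝ), ∀ x, δ ∈ Ioo 0 (δd x) := eventually_all.2 fun x =>
      Ioo_mem_nhdsGT (hδd x)
    exact (a1.and a2).exists
  choose εd hεd hdr using fun x => hdr₀ x δ (hδ2 x)
  have e1 := near_iff.1 (hHAT' δ hδ1)
  have e2 : ∀ᶠ ε in 𝓝[>] (0 : ℝ), ∀ i, ε ∈ Ioo 0 (εb i) := eventually_all.2 fun i =>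
    Ioo_mem_nhdsGT (hεb i)
  have e3 := near_iff.1 (hNRB (fun p => F (K p)) hF₁ κ hκ0)
  have e4 : ∀ᶠ ε in 𝓝[>] (0 : ℝ), ∀ x, ε ∈ Ioo 0 (εd x) := eventually_all.2 fun x =>
    Ioo_mem_nhdsGT (hεd x)
  obtain ⟨ε, f1, f2, f3, f4⟩ := (e1.and (e2.and (e3.and e4))).exists
  obtain ⟨D, hHD, hm₀, hm₁, hDU, hDc, hcl⟩ := f1
  have hnear : ∀ s ∈ Icc D.m₀ D.m₁, dist (D.c s) (bp (fun p => F (K p))) ≤ κ := by
    intro s hs
    rw [hm₀, hm₁] at hs
    have hs' : s ∈ Icc (3 / 10 : ℝ) (7 / 10) := ⟨by linarith [hs.1], by linarith [hs.2]⟩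
    rw [hDc s hs']
    exact f3 s hs'
  have hinU : ∀ x : R4, (∀ y ∈ F '' sph 1, 2 * κ ≤ dist x y) → ∀ s ∈ Icc D.m₀ D.m₁,
      x + (D.c s - bp (fun p => F (K p))) ∈ D.U := by
    intro x hx s hs
    by_contra hcon
    obtain ⟨y, hy, hd⟩ := hDU _ hcon
    rw [him] at hy
    have h1 := hx y hy
    have h2 := hnear s hs
    have h3 : dist x (x + (D.c s - bp (fun p => F (K p)))) ≤ κ := by
      rw [dist_eq_norm] at h2 ⊢
      rw [show x - (x + (D.c s - bp (fun p => F (K p)))) = -(D.c s - bp (fun p => F (K p))) by abel,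
        norm_neg]
      exact h2
    have h4 := dist_triangle x (x + (D.c s - bp (fun p => F (K p)))) y
    linarith
  obtain ⟨hnil, hcat, hinv, hhom, hcls, hself, hrel⟩ := hHCL D (bp (fun p => F (K p)))
  have hsc : Continuous fun s => D.c s := D.smooth.continuous
  have hmm : ∀ q s, (q = 0 ∨ q = 1 ∨ s = D.m₀ ∨ s = D.m₁) → mm q s = (1, 0) := by
    intro q s hbd
    rw [hm₀, hm₁] at hbd
    rcases hbd with h | h | h | h
    · exact mm_ends q s (Or.inl h)
    · exact mm_ends q s (Or.inr h)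
    · exact mm_edge q s (Or.inl h.le)
    · exact mm_edge q s (Or.inr h.ge)
  -- the classes of the based spheres
  have hex : ∀ i, ∃ χ, HasCl D (bp (fun p => F (K p))) (fun q s => Ψ (1, h i (0, mm q s))) χ := by
    intro i
    refine hEX D _ _ ⟨?_, ?_, ?_⟩
    · refine ContinuousOn.add ?_ (Continuous.continuousOn ?_)
      · refine Continuous.comp_continuousOn (g := fun x : R4 => Ψ (1, x)) (by fun_prop) ?_
        refine (hh i).comp (Continuous.continuousOn ?_) ?_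
        · exact continuous_const.prodMk continuous_mm
        · rintro ⟨q, s⟩ hz
          exact ⟨⟨le_rfl, zero_le_one⟩, mm_S2 _ _⟩
      · exact (hsc.comp continuous_snd).sub continuous_const
    · intro q hq s hs
      exact hinU _ (hκ5 i _ (mm_S2 q s)) s hs
    · intro q hq s hs hbd
      show Ψ (1, h i (0, mm q s)) + _ = _
      rw [hmm q s hbd, h0 i, hΨ1, hbp]
      abel
  choose ψ hψ using hex
  have hgen : ∀ i : Gr, HasCl D (bp (fun p => F (K p))) (fun q s => Ψ (1, h i (0, mm q s)))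
      (φ₂ i) := by
    intro i
    obtain ⟨c1, c2⟩ := hbas i ε (f2 i) D hm₀ hm₁ hDc (fun x hx => by
      obtain ⟨y, hy, hd⟩ := hDU x hx
      exact ⟨y, hy, hd.trans_le (hκ1 i)⟩)
    refine hhom (fun q s => G i (nu (mm q s))) _ _ ⟨_, c1, hcl i, c2⟩
      ⟨fun z => H i (1 - z.1, mm z.2.1 z.2.2) + (D.c z.2.2 - bp (fun p => F (K p))), ?_, ?_, ?_⟩
    · refine ContinuousOn.add ?_ (Continuous.continuousOn ?_)
      · refine (hHc i).comp (Continuous.continuousOn ?_) ?_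
        · exact (continuous_const.sub continuous_fst).prodMk (continuous_mm.comp continuous_snd)
        · rintro ⟨u, q, s⟩ hz
          have hz1 : 0 ≤ u ∧ u ≤ 1 := hz.1
          exact ⟨⟨by show (0 : ℝ) ≤ 1 - u; linarith, by show 1 - u ≤ (1 : ℝ); linarith⟩, mm_S2 _ _⟩
      · exact (hsc.comp (continuous_snd.comp continuous_snd)).sub continuous_const
    · intro q hq s hs
      constructor
      · show H i (1 - 0, mm q s) + _ = G i (nu (mm q s)) + _
        rw [sub_zero, hH1 i _ (mm_S2 q s)]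
      · show H i (1 - 1, mm q s) + _ = Ψ (1, h i (0, mm q s)) + _
        rw [sub_self, hH0 i _ (mm_S2 q s), k0' i _ (mm_S2 q s)]
    · intro u hu q hq s hs
      have hu' : 1 - u ∈ Icc (0 : ℝ) 1 := ⟨by linarith [hu.2], by linarith [hu.1]⟩
      refine ⟨hinU _ (hκ2 i (1 - u, mm q s) ⟨hu', mm_S2 q s⟩) s hs, fun hbd => ?_⟩
      show H i (1 - u, mm q s) + _ = _
      rw [hmm q s hbd, hHb i _ hu']
      abel
  have hψs : ∀ i, CIsot I4 (ψ i) (ψ i) := fun i => hself _ _ (hψ i)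
  choose ψ' hψ' j1 j2 using fun i => cex (ψ i) (hψs i)
  have hword : ∀ l, HasCl D (bp (fun p => F (K p)))
      (evS (bp (fun p => F (K p))) (fun i m => Ψ (1, h i (0, m))) l) (evD ψ ψ' l) := by
    intro l
    induction l with
    | nil => exact hnil
    | cons p l ih =>
      obtain ⟨i, b⟩ := p
      rcases b with _ | _
      · exact hcat (fun q s => Ψ (1, h i (0, mm (1 - q) s))) _ (ψ' i) (evD ψ ψ' l)
          (hinv (fun q s => Ψ (1, h i (0, mm q s))) (ψ i) (ψ' i) (hψ i) (j1 i) (j2 i)) ih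
      · exact hcat (fun q s => Ψ (1, h i (0, mm q s))) _ (ψ i) (evD ψ ψ' l) (hψ i) ih
  have hb : bp (fun p => F (K p)) = Ψ (1, F (bar (1 / 2))) := by rw [hΨ1, hbp]
  have hev : ∀ q s, evS (bp (fun p => F (K p))) (fun i m => Ψ (1, h i (0, m))) l q s =
      Ψ (1, evM (F (bar (1 / 2))) (fun i m => h i (0, m)) l q s) := by
    intro q s
    rw [hb, ← evS_evM]
    exact evS_map (fun x => Ψ (1, x)) (F (bar (1 / 2))) (fun i m => h i (0, m)) l q s
  have hfin : HasCl D (bp (fun p => F (K p))) (fun _ _ => bp (fun p => F (K p)))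
      (evD ψ ψ' l) := by
    refine hhom _ _ _ (hword l)
      ⟨fun z => Ψ (1, N z) + (D.c z.2.2 - bp (fun p => F (K p))), ?_, ?_, ?_⟩
    · rw [hm₀, hm₁]
      refine ContinuousOn.add (hΨc.comp_continuousOn (continuousOn_const.prodMk hN))
        (Continuous.continuousOn ?_)
      exact (hsc.comp (continuous_snd.comp continuous_snd)).sub continuous_const
    · intro q hq s hs
      rw [hm₀, hm₁] at hs
      obtain ⟨a1, a2⟩ := hN01 q hq s hs
      constructor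
      · show Ψ (1, N (0, q, s)) + _ = evS _ _ l q s + _
        rw [a1, hev]
      · show Ψ (1, N (1, q, s)) + _ = bp (fun p => F (K p)) + _
        rw [a2, hb]
    · intro u hu q hq s hs
      have hs' := hs
      rw [hm₀, hm₁] at hs'
      refine ⟨hinU _ (hκ3 (u, q, s) ⟨hu, hq, hs'⟩) s hs, fun hbd => ?_⟩
      rw [hm₀, hm₁] at hbd
      show Ψ (1, N (u, q, s)) + _ = _
      rw [(hNoff u hu q hq s hs').2 hbd, ← hb]
      abel
  have hor2 : R.RW W (fun x => x) (evD ψ ψ' l) := hrel W _ _ _ hW hfin hnil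
  have hψs' : ∀ i, CIsot I4 (ψ' i) (ψ' i) := fun i => cinv _ _ _ _ (hψs i) (j1 i) (j1 i)
  have sD := evD_self hCI hψs hψs' l
  refine ⟨ψ, ψ', j1, j2, hψs, fun i hi => ?_, fun x hx => ?_, ?_⟩
  · have r1 : R.RW W (ψ i) (φ₂ ⟨i, hi⟩) := hrel W _ _ _ hW (hgen ⟨i, hi⟩) (hψ i)
    have r2 : R.RW W (φ₂ ⟨i, hi⟩) (φ i) := hor ⟨i, hi⟩
    exact rw_trans hT2 hCI hW (tself _ _ (hG0 i hi).2.2.1) r1 r2
  · have r1 : R.RW W (ψ x.2) (ψ x.1) := hdr ⟨x, hx⟩ ε (f4 ⟨x, hx⟩) D hHD (fun y hy => by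
      obtain ⟨w, hw, hd⟩ := hDU y hy
      exact ⟨w, hw, hd.trans_le (hκ4 ⟨x, hx⟩)⟩) W _ _ hW (hψ x.1) (hψ x.2)
    exact rw_symm hT2 hCI hW (hψs x.1) r1
  · exact rw_symm hT2 hCI hW sD hor2

end Pool.Agent.Helper18.BI.S5


end

/-! ## Helper34.BI5.VK4 -/

section

/-!
# Two paths in the complement are related if the relation is invariant under one meridian
-/

set_option autoImplicit false

open Set Metric unitInterval
open scoped Topology

namespace Pool.Agent.Helper34.S5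

section
variable {E : Type} [NormedAddCommGroup E] [NormedSpace ℝ E] {K : Set E}

theorem local_pc (hK : IsClosed K) (h : ∀ p ∈ K, ∀ O ∈ 𝓝 p, ∃ U : Set E, IsOpen U ∧ p ∈ U ∧
    U ⊆ O ∧ IsPathConnected (U \ K)) (p : E) {O : Set E} (hO : O ∈ 𝓝 p) :
    ∃ U : Set E, IsOpen U ∧ p ∈ U ∧ U ⊆ O ∧ IsPathConnected (U \ K) := by
  by_cases hp : p ∈ K
  · exact h p hp O hO
  · obtain ⟨r, hr, hr'⟩ := Metric.mem_nhds_iff.1 (Filter.inter_mem hO (hK.isOpen_compl.mem_nhds hp))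
    refine ⟨ball p r, isOpen_ball, mem_ball_self hr, hr'.trans inter_subset_left, ?_⟩
    have h1 : ball p r \ K = ball p r := by
      rw [sdiff_eq_left]
      exact disjoint_left.2 fun x hx hxK => (hr' hx).2 hxK
    rw [h1]
    exact (convex_ball p r).isPathConnected ⟨p, mem_ball_self hr⟩

theorem ball_pc (hK : IsClosed K) (h : ∀ p ∈ K, ∀ O ∈ 𝓝 p, ∃ U : Set E, IsOpen U ∧ p ∈ U ∧
    U ⊆ O ∧ IsPathConnected (U \ K)) (c : E) (r : ℝ) (hr : 0 < r) :
    IsPathConnected (ball c r \ K) := by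
  have h' := local_pc hK h
  choose! U hU hpU hUB hUpc using fun (p : E) (hp : p ∈ ball c r) =>
    h' p (isOpen_ball.mem_nhds hp)
  have hne : ∀ W : Set E, IsOpen W → W.Nonempty → (W \ K).Nonempty := by
    rintro W hW ⟨x, hx⟩
    obtain ⟨U', -, -, h1, h2⟩ := h' x (hW.mem_nhds hx)
    obtain ⟨y, hy⟩ := h2.nonempty
    exact ⟨y, h1 hy.1, hy.2⟩
  have hcc : c ∈ ball c r := mem_ball_self hr
  rw [isPathConnected_iff]
  refine ⟨hne _ isOpen_ball ⟨c, hcc⟩, ?_⟩
  intro x hx y hy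
  have key : ∀ a ∈ U x \ K, ∀ b ∈ U y \ K, JoinedIn (ball c r \ K) a b := by
    refine IsPreconnected.induction₂' (convex_ball c r).isPreconnected
      (fun p q => ∀ a ∈ U p \ K, ∀ b ∈ U q \ K, JoinedIn (ball c r \ K) a b) ?_ ?_ hx.1 hy.1
    · intro p hp
      have h1 : ∀ᶠ q in 𝓝[ball c r] p, q ∈ U p ∩ ball c r :=
        Filter.inter_mem (mem_nhdsWithin_of_mem_nhds ((hU p hp).mem_nhds (hpU p hp)))
          self_mem_nhdsWithin
      filter_upwards [h1] with q hq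
      obtain ⟨d, hd⟩ := hne (U p ∩ U q) ((hU p hp).inter (hU q hq.2)) ⟨q, hq.1, hpU q hq.2⟩
      have h2 : ∀ a ∈ U p \ K, JoinedIn (ball c r \ K) a d := fun a ha =>
        ((hUpc p hp).joinedIn a ha d ⟨hd.1.1, hd.2⟩).mono
          (sdiff_subset_sdiff_left (hUB p hp))
      have h3 : ∀ b ∈ U q \ K, JoinedIn (ball c r \ K) b d := fun b hb =>
        ((hUpc q hq.2).joinedIn b hb d ⟨hd.1.2, hd.2⟩).mono
          (sdiff_subset_sdiff_left (hUB q hq.2))
      exact ⟨fun a ha b hb => (h2 a ha).trans (h3 b hb).symm,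
        fun a ha b hb => (h3 a ha).trans (h2 b hb).symm⟩
    · intro p q q' hp hq hq' h1 h2 a ha b hb
      obtain ⟨d, hd⟩ := (hUpc q hq).nonempty
      exact (h1 a ha d hd).trans (h2 d hd b hb)
  exact key x ⟨hpU x hx.1, hx.2⟩ y ⟨hpU y hy.1, hy.2⟩

variable {V : Type} [NormedAddCommGroup V] [NormedSpace ℝ V] (T : Tub K V)
variable {y₀ : Off K} {R : ∀ y : Off K, Hom K y₀ y → Hom K y₀ y → Prop}

/-- **The van Kampen argument.** -/
theorem vk (hK : IsClosed K) (hR : RelP K y₀ R) {z : ℂ × V}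
    (hz : z ∈ {ℓ : ℂ | ℓ.re < T.κ} ×ˢ T.P) {y₁ : Off K} (hy₁ : T.Q z = y₁) {m : Path y₁ y₁}
    (hm : T.IsMer z 1 m) (h : ∀ g : Hom K y₀ y₁, R y₁ (g.trans (cl m)) g) (y : Off K)
    (g g' : Hom K y₀ y) : R y g g' := by
  induction g using Path.Homotopic.Quotient.ind with | mk w =>
  induction g' using Path.Homotopic.Quotient.ind with | mk w' =>
  refine all_rel hR (ball_pc hK fun p hp O hO => T.pc hp hO) ?_ y w w'
  intro p
  by_cases hp : p ∈ K
  · obtain ⟨U, hU, hpU, hG⟩ := T.good hR hz hy₁ hm h hp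
    obtain ⟨r, hr, hr'⟩ := Metric.mem_nhds_iff.1 (hU.mem_nhds hpU)
    exact ⟨r, hr, hG.mono hr'⟩
  · obtain ⟨r, hr, hr'⟩ := Metric.mem_nhds_iff.1 (hK.isOpen_compl.mem_nhds hp)
    refine ⟨r, hr, ?_⟩
    intro y y' b b' hb hb' g
    let a : Path (y : E) (y' : E) := b.map continuous_subtype_val
    let a' : Path (y : E) (y' : E) := b'.map continuous_subtype_val
    have h1 : cl b = cl b' := lift_hom (q := fun x : E => x) (convex_ball p r)
      continuous_id.continuousOn (fun x hx => hr' hx) a a' b b' hb hb' (fun t => rfl)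
      fun t => rfl
    rw [h1]
    exact hR.refl _ _

end

end Pool.Agent.Helper34.S5


end

/-! ## Helper34.BI5.VK8 -/

section

/-!
# `StDRIFT` from the crossing lemma `StCRL`
-/

set_option autoImplicit false

open scoped Manifold ContDiff Topology ComplexConjugate
open Set Pool.Agent.Helper65.Barb Pool.Agent.Helper18.BI
open Pool.Agent.Helper70.BI (I4 IsW)
open Pool.Agent.Helper27.H (ArcD)
open Pool.Agent.Helper18.BI.H
open Pool.Agent.Helper18.BI.R
open Pool.Agent.Helper18.BI.S5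

namespace Pool.Agent.Helper34.S5

/-- a path in the complement as a function -/
noncomputable def pf {K : Set R4} {x y : Off K} (w : Path x y) (u : ℝ) : R4 := (w.extend u : Off K)

section
variable {K : Set R4}

theorem pf_cont {x y : Off K} (w : Path x y) : Continuous (pf w) :=
  continuous_subtype_val.comp w.continuous_extend

theorem pf_off {x y : Off K} (w : Path x y) (u : ℝ) : pf w u ∉ K := (w.extend u : Off K).2

theorem pf_coe {x y : Off K} (w : Path x y) (t : unitInterval) : pf w (t : ℝ) = w t := by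
  show ((w (projIcc 0 1 zero_le_one (t : ℝ)) : Off K) : R4) = w t
  rw [projIcc_val]

theorem pf_zero {x y : Off K} (w : Path x y) : pf w 0 = x := by
  have := pf_coe w 0
  rw [w.source] at this
  exact this

theorem pf_one {x y : Off K} (w : Path x y) : pf w 1 = y := by
  have := pf_coe w 1
  rw [w.target] at this
  exact this

theorem pf_trans {x y z : Off K} (w : Path x y) (w' : Path y z) {u : ℝ}
    (hu : u ∈ Icc (0 : ℝ) 1) : pf (w.trans w') u = pcat (pf w) (pf w') u := by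
  have h1 : pf (w.trans w') u = (w.trans w') ⟨u, hu⟩ := pf_coe (w.trans w') ⟨u, hu⟩
  rw [h1, Path.trans_apply]
  unfold pcat
  by_cases h2 : u ≤ 1 / 2
  · rw [dif_pos h2, if_pos h2]
    exact (pf_coe w ⟨2 * u, _⟩).symm
  · rw [dif_neg h2, if_neg h2]
    exact (pf_coe w' ⟨2 * u - 1, _⟩).symm

end

section
variable {F : R4 → R4}

/-- the base point -/
theorem bp_off (hF : EmbOn I4 F SP) : bp F ∉ F '' sph 1 := by
  rintro ⟨p, hp, h⟩
  have hb : bar (73 / 100) ∈ SP :=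
    Or.inr ⟨rfl, by show (1 / 5 : ℝ) ≤ 73 / 100; norm_num, by show (73 / 100 : ℝ) ≤ 4 / 5; norm_num,
      rfl⟩
  have h1 := hF.2 (sph1_subset_SP hp) hb h
  rw [h1] at hp
  exact bar_not_sph1 (by norm_num) hp

variable (hHCL : StHCL) (hT2 : StT2) (hCI : StCI) (hEX : StEX) (hF : EmbOn I4 F SP)
include hHCL hT2 hCI hEX hF

/-- homotopic tracks -/
theorem dr_tracks {x y : Off (F '' sph 1)} (hx : (x : R4) = bp F) {w w' : Path x y}
    (hw : cl w = cl w') {h h' : ℝ × R3 → R4} (hh : FH F h (pf w)) (hh' : FH F h' (pf w'))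
    (h1 : ∀ m ∈ S2, h (1, m) = h' (1, m)) : DR F (fun m => h (0, m)) (fun m => h' (0, m)) := by
  -- chain: h 0, fill (h 0) const, fill (h 1) w, fill (h' 1) w', fill (h' 0) const, h' 0
  have hbp := bp_off hF
  have key : ∀ (v : Path x y) (k : ℝ × R3 → R4), FH F k (pf v) →
      Bs F (fill (fun m => k (1, m)) (pf v)) ∧
      DR F (fun m => k (0, m)) (fill (fun m => k (1, m)) (pf v)) := by
    intro v k hk
    have hv0 : pf v 0 = bp F := by rw [pf_zero, hx]
    have hbs := hk.bs hv0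
    have b1 : BH F (fill (fun m => k (0, m)) (fun _ => bp F)) (fun m => k (0, m)) :=
      bh_fill_const hbs.cont hbs.base hbs.off
    have b2 := bh_fill_track hk (pf_cont v).continuousOn hv0 fun t _ => pf_off v t
    have hbs1 : Bs F (fill (fun m => k (0, m)) (fun _ => bp F)) := by
      obtain ⟨H, hH, e0, -⟩ := b1
      have := hH.bs rfl
      exact ⟨this.cont.congr fun m hm => (e0 m hm).symm, fun m hm => by
        rw [← e0 m hm]; exact this.off m hm, by rw [← e0 _ base_mem]; exact this.base⟩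
    have hbs2 : Bs F (fill (fun m => k (1, m)) (pf v)) := by
      obtain ⟨H, hH, -, e1⟩ := b2
      have hc : ContinuousOn (fun m => H (1, m)) S2 :=
        hH.cont.comp (Continuous.continuousOn (by fun_prop)) fun m hm =>
          ⟨⟨zero_le_one, le_rfl⟩, hm⟩
      exact ⟨hc.congr fun m hm => (e1 m hm).symm, fun m hm => by
        rw [← e1 m hm]; exact hH.off 1 ⟨zero_le_one, le_rfl⟩ m hm, by
        rw [← e1 _ base_mem]; exact hH.track 1 ⟨zero_le_one, le_rfl⟩⟩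
    exact ⟨hbs2, dr_trans hF hHCL hT2 hCI hEX hbs1
      (dr_symm hHCL hT2 hCI (dr_of_bh hF hHCL b1)) (dr_of_bh hF hHCL b2)⟩
  obtain ⟨b1, d1⟩ := key w h hh
  obtain ⟨b2, d2⟩ := key w' h' hh'
  have hk1 : ContinuousOn (fun m => h (1, m)) S2 :=
    hh.cont.comp (Continuous.continuousOn (by fun_prop)) fun m hm => ⟨⟨zero_le_one, le_rfl⟩, hm⟩
  obtain ⟨P⟩ := Path.Homotopic.Quotient.eq.1 hw
  let Pf : ℝ × ℝ → R4 := fun z =>
    ((P (projIcc 0 1 zero_le_one z.1, projIcc 0 1 zero_le_one z.2) : Off (F '' sph 1)) : R4)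
  have hPc : Continuous Pf := by
    refine continuous_subtype_val.comp (P.continuous.comp ?_)
    exact (continuous_projIcc.comp continuous_fst).prodMk (continuous_projIcc.comp continuous_snd)
  have e0 : ∀ t, Pf (0, t) = pf w t := by
    intro t
    show ((P (projIcc 0 1 zero_le_one (0 : ℝ), projIcc 0 1 zero_le_one t) : Off (F '' sph 1)) : R4)
      = _
    rw [projIcc_left]
    exact congrArg Subtype.val (P.apply_zero _)
  have e1 : ∀ t, Pf (1, t) = pf w' t := by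
    intro t
    show ((P (projIcc 0 1 zero_le_one (1 : ℝ), projIcc 0 1 zero_le_one t) : Off (F '' sph 1)) : R4)
      = _
    rw [projIcc_right]
    exact congrArg Subtype.val (P.apply_one _)
  have b3 : BH F (fill (fun m => h (1, m)) (fun t => Pf (0, t)))
      (fill (fun m => h (1, m)) (fun t => Pf (1, t))) := by
    refine bh_fill_htpy hk1 (hh.off 1 ⟨zero_le_one, le_rfl⟩) hPc.continuousOn ?_ ?_ ?_
    · intro u _ t _
      exact (P (projIcc 0 1 zero_le_one u, projIcc 0 1 zero_le_one t) : Off (F '' sph 1)).2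
    · intro u _
      show ((P (projIcc 0 1 zero_le_one u, projIcc 0 1 zero_le_one (0 : ℝ)) : Off (F '' sph 1)) : R4)
        = _
      rw [projIcc_left, ← hx]
      exact congrArg Subtype.val (P.source _)
    · intro u _
      show ((P (projIcc 0 1 zero_le_one u, projIcc 0 1 zero_le_one (1 : ℝ)) : Off (F '' sph 1)) : R4)
        = _
      rw [projIcc_right, hh.track 1 ⟨zero_le_one, le_rfl⟩, pf_one]
      exact congrArg Subtype.val (P.target _)
  have e0' : (fun t => Pf (0, t)) = pf w := funext e0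
  have e1' : (fun t => Pf (1, t)) = pf w' := funext e1
  rw [e0', e1'] at b3
  have b4 : BH F (fill (fun m => h (1, m)) (pf w)) (fill (fun m => h' (1, m)) (pf w')) := by
    obtain ⟨H, hH, a0, a1⟩ := b3
    exact ⟨H, hH, a0, fun m hm => by
      rw [a1 m hm]
      exact fill_congr h1 (fun _ _ => rfl) hm⟩
  have T := fun {f g f' : R3 → R4} => dr_trans (f := f) (g := g) (f' := f') hF hHCL hT2 hCI hEX
  exact T b1 d1 (T b2 (dr_of_bh hF hHCL b4) (dr_symm hHCL hT2 hCI d2))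

omit hHCL hT2 hCI hEX in
/-- the relation of paths -/
def RR (F : R4 → R4) (x : Off (F '' sph 1)) (y : Off (F '' sph 1))
    (g g' : Hom (F '' sph 1) x y) : Prop :=
  ∀ (w w' : Path x y) (h h' : ℝ × R3 → R4), cl w = g → cl w' = g' → FH F h (pf w) →
    FH F h' (pf w') → (∀ m ∈ S2, h (1, m) = h' (1, m)) →
    DR F (fun m => h (0, m)) (fun m => h' (0, m))

omit hHCL hT2 hCI hEX hF in
theorem exists_transport {x y : Off (F '' sph 1)} (w : Path x y) {k : R3 → R4}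
    (hk : ContinuousOn k S2) (hkK : ∀ m ∈ S2, k m ∉ F '' sph 1) (hy : k (1, 0) = y) :
    ∃ h : ℝ × R3 → R4, FH F h (pf w) ∧ ∀ m ∈ S2, h (1, m) = k m := by
  obtain ⟨h, h1, h2, -⟩ := transport (F := F) (k := k) (w := pf w) hk (pf_cont w).continuousOn
    (by rw [pf_one, hy]) hkK fun t _ => pf_off w t
  exact ⟨h, h1, h2⟩

omit hHCL hT2 hCI hEX hF in
theorem FH.one_cont {h : ℝ × R3 → R4} {w : ℝ → R4} (hh : FH F h w) (u : ℝ)
    (hu : u ∈ Icc (0 : ℝ) 1) : ContinuousOn (fun m => h (u, m)) S2 :=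
  hh.cont.comp (Continuous.continuousOn (by fun_prop)) fun _ hm => ⟨hu, hm⟩

theorem relP_RR {x : Off (F '' sph 1)} (hx : (x : R4) = bp F) : RelP (F '' sph 1) x (RR F x) where
  refl y g := by
    intro w w' h h' hw hw' hh hh' h1
    exact dr_tracks hHCL hT2 hCI hEX hF hx (hw.trans hw'.symm) hh hh' h1
  symm y g g' H := by
    intro w w' h h' hw hw' hh hh' h1
    exact dr_symm hHCL hT2 hCI (H w' w h' h hw' hw hh' hh fun m hm => (h1 m hm).symm)
  trans y g g' g'' H H' := by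
    intro w w'' h h'' hw hw'' hh hh'' h1
    obtain ⟨w', hw'⟩ := Path.Homotopic.Quotient.mk_surjective g'
    obtain ⟨h', hh', h1'⟩ := exists_transport w' (hh.one_cont 1 ⟨zero_le_one, le_rfl⟩)
      (hh.off 1 ⟨zero_le_one, le_rfl⟩) (by rw [hh.track 1 ⟨zero_le_one, le_rfl⟩, pf_one])
    exact dr_trans hF hHCL hT2 hCI hEX (hh'.bs (by rw [pf_zero, hx]))
      (H w w' h h' hw hw' hh hh' fun m hm => (h1' m hm).symm)
      (H' w' w'' h' h'' hw' hw'' hh' hh'' fun m hm => (h1' m hm).trans (h1 m hm))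
  comp y y' g g' b H := by
    intro w w' h h' hw hw' hh hh' h1
    obtain ⟨β, hβ⟩ := Path.Homotopic.Quotient.mk_surjective b
    obtain ⟨v, hv⟩ := Path.Homotopic.Quotient.mk_surjective g
    obtain ⟨v', hv'⟩ := Path.Homotopic.Quotient.mk_surjective g'
    obtain ⟨k, hk, hk1⟩ := exists_transport β (hh.one_cont 1 ⟨zero_le_one, le_rfl⟩)
      (hh.off 1 ⟨zero_le_one, le_rfl⟩) (by rw [hh.track 1 ⟨zero_le_one, le_rfl⟩, pf_one])
    have hk0 := hk.track 0 ⟨le_rfl, zero_le_one⟩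
    rw [pf_zero] at hk0
    obtain ⟨l, hl, hl1⟩ := exists_transport v (hk.one_cont 0 ⟨le_rfl, zero_le_one⟩)
      (hk.off 0 ⟨le_rfl, zero_le_one⟩) hk0
    obtain ⟨l', hl', hl1'⟩ := exists_transport v' (hk.one_cont 0 ⟨le_rfl, zero_le_one⟩)
      (hk.off 0 ⟨le_rfl, zero_le_one⟩) hk0
    have d0 := H v v' l l' hv hv' hl hl' fun m hm => (hl1 m hm).trans (hl1' m hm).symm
    have c1 : FH F (hcat l k) (pf (v.trans β)) :=
      (fh_cat hl hk hl1).congr (fun _ _ _ _ => rfl) fun u hu => pf_trans v β hu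
    have c1' : FH F (hcat l' k) (pf (v'.trans β)) :=
      (fh_cat hl' hk hl1').congr (fun _ _ _ _ => rfl) fun u hu => pf_trans v' β hu
    have e : cl w = cl (v.trans β) := by
      rw [hw, ← hv, ← hβ]
      rfl
    have e' : cl (v'.trans β) = cl w' := by
      rw [hw', ← hv', ← hβ]
      rfl
    have d1 := dr_tracks hHCL hT2 hCI hEX hF hx e hh c1 fun m hm => by
      rw [hcat_one]
      exact (hk1 m hm).symm
    have d2 := dr_tracks hHCL hT2 hCI hEX hF hx e' c1' hh' fun m hm => by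
      rw [hcat_one]
      exact (hk1 m hm).trans (h1 m hm)
    have z1 : (fun m => hcat l k (0, m)) = fun m => l (0, m) := funext fun m => hcat_zero l k m
    have z2 : (fun m => hcat l' k (0, m)) = fun m => l' (0, m) := funext fun m => hcat_zero l' k m
    rw [z1] at d1
    rw [z2] at d2
    have T := fun {f g f' : R3 → R4} => dr_trans (f := f) (g := g) (f' := f') hF hHCL hT2 hCI hEX
    exact T (hl.bs (by rw [pf_zero, hx])) d1 (T (hl'.bs (by rw [pf_zero, hx])) d0 d2)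

end

/-- **DRIFT.** -/
theorem m_DRIFT (hHCL : StHCL) (hT2 : StT2) (hCI : StCI) (hEX : StEX) (hCRL : StCRL) :
    StDRIFT := by
  intro F h hF hh h0 h1 hoff
  obtain ⟨η, hη, T, hκ, hP, hQ⟩ := exists_tub I4 hF
  obtain ⟨r, hr, v, hv, hC⟩ := hCRL F hF η hη
  have hrη : Real.log r < Real.log η := Real.log_lt_log hr.1 hr.2
  have hz : (((Real.log r : ℝ) : ℂ), v) ∈ {ℓ : ℂ | ℓ.re < T.κ} ×ˢ T.P := by
    rw [hκ, hP]
    exact ⟨by show ((Real.log r : ℝ) : ℂ).re < Real.log η; rw [Complex.ofReal_re]; exact hrη, hv⟩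
  have hexp : ∀ θ : ℝ, Complex.exp (((Real.log r : ℝ) : ℂ) + (θ : ℂ) * Complex.I)
      = r * Complex.exp ((θ : ℂ) * Complex.I) := by
    intro θ
    rw [Complex.exp_add, ← Complex.ofReal_exp, Real.exp_log hr.1]
  -- points and half circles
  have hcirc_eq : ∀ σ u : ℝ, hcirc F r v σ u
      = T.Q (((Real.log r : ℝ) : ℂ) + ((σ * Real.pi * u : ℝ) : ℂ) * Complex.I, v) := by
    intro σ u
    rw [hQ, hexp]
    rfl
  have hzθ : ∀ θ : ℝ, ((((Real.log r : ℝ) : ℂ) + (θ : ℂ) * Complex.I, v) : ℂ × R3) ∈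
      {ℓ : ℂ | ℓ.re < T.κ} ×ˢ T.P := by
    intro θ
    refine ⟨?_, hz.2⟩
    show (((Real.log r : ℝ) : ℂ) + (θ : ℂ) * Complex.I).re < T.κ
    rw [Complex.add_re, Complex.ofReal_re, Complex.mul_re, Complex.ofReal_re, Complex.I_re,
      Complex.ofReal_im, Complex.I_im, hκ]
    linarith
  have hcoff : ∀ σ u : ℝ, hcirc F r v σ u ∉ F '' sph 1 := by
    intro σ u
    rw [hcirc_eq]
    exact T.off _ (hzθ _)
  have hccont : ∀ σ : ℝ, Continuous (hcirc F r v σ) := by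
    intro σ
    have h2 : hcirc F r v σ = fun u =>
        T.Q (((Real.log r : ℝ) : ℂ) + ((σ * Real.pi * u : ℝ) : ℂ) * Complex.I, v) :=
      funext (hcirc_eq σ)
    rw [h2]
    refine T.contQ (by fun_prop) continuous_const (fun u => (hzθ _).1) fun _ => hz.2
  have hc0 : ∀ σ : ℝ, hcirc F r v σ 0 = F (Gc r v) := by
    intro σ
    unfold hcirc
    simp
  have hc1 : hcirc F r v (-1) 1 = hcirc F r v 1 1 := by
    unfold hcirc
    have e1 : Complex.exp (((-1 * Real.pi * 1 : ℝ) : ℂ) * Complex.I) = -1 := by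
      have : (((-1 * Real.pi * 1 : ℝ) : ℂ) * Complex.I) = -(Real.pi * Complex.I) := by
        push_cast
        ring
      rw [this, Complex.exp_neg, Complex.exp_pi_mul_I]
      norm_num
    have e2 : Complex.exp (((1 * Real.pi * 1 : ℝ) : ℂ) * Complex.I) = -1 := by
      have : (((1 * Real.pi * 1 : ℝ) : ℂ) * Complex.I) = Real.pi * Complex.I := by
        push_cast
        ring
      rw [this, Complex.exp_pi_mul_I]
    rw [e1, e2]
  let y₁ : Off (F '' sph 1) := ⟨F (Gc r v), by rw [← hc0 1]; exact hcoff 1 0⟩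
  let y₂ : Off (F '' sph 1) := ⟨hcirc F r v 1 1, hcoff 1 1⟩
  let k : Path y₁ y₂ :=
    { toFun := fun t => ⟨hcirc F r v 1 t, hcoff 1 t⟩
      continuous_toFun := ((hccont 1).comp continuous_subtype_val).subtype_mk _
      source' := Subtype.ext (hc0 1)
      target' := rfl }
  let k' : Path y₁ y₂ :=
    { toFun := fun t => ⟨hcirc F r v (-1) t, hcoff (-1) t⟩
      continuous_toFun := ((hccont (-1)).comp continuous_subtype_val).subtype_mk _
      source' := Subtype.ext (hc0 (-1))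
      target' := Subtype.ext hc1 }
  have hy₁ : T.Q (((Real.log r : ℝ) : ℂ), v) = y₁ := by
    rw [hQ]
    show F (Gc (Complex.exp ((Real.log r : ℝ) : ℂ)) v) = F (Gc r v)
    rw [← Complex.ofReal_exp, Real.exp_log hr.1]
  -- the meridian
  have hm : T.IsMer (((Real.log r : ℝ) : ℂ), v) 1 (k.trans k'.symm) := by
    intro t
    rw [Path.trans_apply]
    split_ifs with ht
    · show hcirc F r v 1 (2 * (t : ℝ)) = _
      rw [hcirc_eq]
      congr 2
      show ((Real.log r : ℝ) : ℂ) + _ = ((Real.log r : ℝ) : ℂ) + _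
      unfold tpi
      push_cast
      ring
    · show hcirc F r v (-1) (1 - (2 * (t : ℝ) - 1)) = _
      rw [hcirc_eq, ← T.per]
      congr 2
      show ((Real.log r : ℝ) : ℂ) + _ + _ = ((Real.log r : ℝ) : ℂ) + _
      unfold tpi
      push_cast
      ring
  -- the relation
  let x₀ : Off (F '' sph 1) := ⟨bp F, bp_off hF⟩
  have hR := relP_RR hHCL hT2 hCI hEX hF (x := x₀) rfl
  have hkk : ∀ g : Hom (F '' sph 1) x₀ y₁, RR F x₀ y₂ (g.trans (cl k)) (g.trans (cl k')) := by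
    intro g
    obtain ⟨w, rfl⟩ := Path.Homotopic.Quotient.mk_surjective g
    intro v₁ v₂ l l' hv₁ hv₂ hl hl' hll
    have ho := hl.track 1 ⟨zero_le_one, le_rfl⟩
    rw [pf_one] at ho
    obtain ⟨a, ha, ha1⟩ := exists_transport (w.trans k) (hl.one_cont 1 ⟨zero_le_one, le_rfl⟩)
      (hl.off 1 ⟨zero_le_one, le_rfl⟩) ho
    obtain ⟨a', ha', ha1'⟩ := exists_transport (w.trans k') (hl.one_cont 1 ⟨zero_le_one, le_rfl⟩)
      (hl.off 1 ⟨zero_le_one, le_rfl⟩) ho
    have d1 := dr_tracks hHCL hT2 hCI hEX hF (x := x₀) rfl (w := v₁) (w' := w.trans k) hv₁ hl ha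
      fun m hm => (ha1 m hm).symm
    have d2 := dr_tracks hHCL hT2 hCI hEX hF (x := x₀) rfl (w := w.trans k') (w' := v₂) hv₂.symm
      ha' hl' fun m hm => (ha1' m hm).trans (hll m hm)
    have hpk : ∀ u ∈ Icc (0 : ℝ) 1, pf k u = hcirc F r v 1 u := fun u hu => pf_coe k ⟨u, hu⟩
    have hpk' : ∀ u ∈ Icc (0 : ℝ) 1, pf k' u = hcirc F r v (-1) u := fun u hu => pf_coe k' ⟨u, hu⟩
    have c1 : FH F a (pcat (pf w) (hcirc F r v 1)) := by
      refine ha.congr (fun _ _ _ _ => rfl) fun u hu => ?_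
      rw [pf_trans w k hu]
      unfold pcat
      split_ifs with h2
      · rfl
      · rw [not_le] at h2
        exact (hpk _ ⟨by linarith, by linarith [hu.2]⟩).symm
    have c2 : FH F a' (pcat (pf w) (hcirc F r v (-1))) := by
      refine ha'.congr (fun _ _ _ _ => rfl) fun u hu => ?_
      rw [pf_trans w k' hu]
      unfold pcat
      split_ifs with h2
      · rfl
      · rw [not_le] at h2
        exact (hpk' _ ⟨by linarith, by linarith [hu.2]⟩).symm
    have d3 := hC (pf w) a a' (pf_zero w) c1 c2 fun m hm => (ha1 m hm).trans (ha1' m hm).symm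
    have T := fun {f g f' : R3 → R4} => dr_trans (f := f) (g := g) (f' := f') hF hHCL hT2 hCI hEX
    exact T (ha.bs (pf_zero _)) d1 (T (ha'.bs (pf_zero _)) d3 d2)
  have hinv : ∀ g : Hom (F '' sph 1) x₀ y₁, RR F x₀ y₁ (g.trans (cl (k.trans k'.symm))) g := by
    intro g
    have h2 := hR.comp _ _ _ _ (cl k').symm (hkk g)
    simp only [Path.Homotopic.Quotient.trans_assoc, Path.Homotopic.Quotient.trans_symm,
      Path.Homotopic.Quotient.trans_refl] at h2
    exact h2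
  have hall := vk T (isCompact_K hF).isClosed hR hz hy₁ hm hinv x₀
  -- the track
  have htr : ContinuousOn (fun u : ℝ => h (u, (1, 0))) (Icc 0 1) :=
    hh.comp (Continuous.continuousOn (by fun_prop)) fun u hu => ⟨hu, base_mem⟩
  let γ : Path x₀ x₀ :=
    { toFun := fun t => ⟨h ((t : ℝ), (1, 0)), hoff t t.2 _ base_mem⟩
      continuous_toFun := (htr.comp_continuous continuous_subtype_val fun t => t.2).subtype_mk _
      source' := Subtype.ext h0
      target' := Subtype.ext h1 }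
  have f1 : FH F h (pf γ) := ⟨hh, hoff, fun u hu => (pf_coe γ ⟨u, hu⟩).symm⟩
  have f2 : FH F (fun z => h (1, z.2)) (pf (Path.refl x₀)) := by
    refine ⟨?_, fun _ _ => hoff 1 ⟨zero_le_one, le_rfl⟩, fun u _ => ?_⟩
    · exact hh.comp (Continuous.continuousOn (by fun_prop)) fun z hz =>
        ⟨⟨zero_le_one, le_rfl⟩, hz.2⟩
    · exact h1
  exact hall (cl γ) (cl (Path.refl x₀)) γ (Path.refl x₀) h (fun z => h (1, z.2)) rfl rfl f1 f2
    fun _ _ => rfl

end Pool.Agent.Helper34.S5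


end

/-! ## Helper34.BI5.M_CRL -/

section

/-!
# `StCRL` from the crossing lemma for nice spheres `StCRN`
-/

set_option autoImplicit false

open scoped Manifold ContDiff Topology ComplexConjugate
open Set Pool.Agent.Helper65.Barb Pool.Agent.Helper18.BI
open Pool.Agent.Helper70.BI (I4 IsW)
open Pool.Agent.Helper27.H (ArcD)
open Pool.Agent.Helper18.BI.H
open Pool.Agent.Helper18.BI.R
open Pool.Agent.Helper18.BI.S5

namespace Pool.Agent.Helper34.S5

theorem dr_congr {F : R4 → R4} {g g' k k' : R3 → R4} (h : DR F g g') (e : ∀ m ∈ S2, k m = g m)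
    (e' : ∀ m ∈ S2, k' m = g' m) : DR F k k' := by
  have h1 : (fun q s => k (mm q s)) = fun q s => g (mm q s) :=
    funext fun q => funext fun s => e _ (mm_S2 q s)
  have h2 : (fun q s => k' (mm q s)) = fun q s => g' (mm q s) :=
    funext fun q => funext fun s => e' _ (mm_S2 q s)
  unfold DR
  rw [h1, h2]
  exact h

theorem Bs.congr {F : R4 → R4} {g k : R3 → R4} (h : Bs F g) (e : ∀ m ∈ S2, k m = g m) :
    Bs F k where
  cont := h.cont.congr e
  off m hm := by rw [e m hm]; exact h.off m hm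
  base := by rw [e _ base_mem]; exact h.base

/-- the point beside the base point -/
noncomputable def sd (τ : ℝ) : R4 := (1 / 2, ((73 / 100 : ℝ), (τ : ℂ)))

theorem continuous_sd : Continuous sd := by
  unfold sd
  fun_prop

theorem sd_off {τ : ℝ} (h : τ ≠ 0) : sd τ ∉ neck := by
  rintro ⟨-, -, -, h1⟩
  have h2 : (τ : ℂ) = 0 := h1
  exact h (by exact_mod_cast h2)

theorem sd_off_sph (τ : ℝ) : sd τ ∉ sph 1 := by
  rintro ⟨-, h1⟩
  have h2 : rsq 1 (sd τ) = (73 / 100 - 1) ^ 2 + τ ^ 2 := by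
    show nsq (_, _) = _
    simp [nsq, sd]
  rw [h2] at h1
  have h3 := sq_nonneg τ
  norm_num at h1
  nlinarith

theorem Gc_real (r : ℝ) : Gc r (0, 1) = (1 / 2 + r, ((1 : ℝ), ((1 / 5 : ℝ) : ℂ))) := by
  have h1 : nm ((0, 1) : R3) = 1 := by
    unfold nm nsq
    simp
  unfold Gc
  rw [h1]
  refine Prod.ext ?_ (Prod.ext ?_ ?_)
  · show 1 / 2 + (r : ℂ).re = 1 / 2 + r
    rw [Complex.ofReal_re]
  · simp
  · simp

theorem exists_radius {F : R4 → R4} (hF : EmbOn I4 F SP) : ∃ η > 0,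
    (∀ τ, |τ| < η → ContinuousAt F (sd τ)) ∧ (∀ τ, |τ| < η → F (sd τ) ∉ F '' sph 1) ∧
    (∀ τ, |τ| < η → τ ≠ 0 → F (sd τ) ∉ F '' (sph 1 ∪ neck)) ∧
    ∀ r : ℝ, |r| < η → r ≠ 0 → F (Gc r (0, 1)) ∉ F '' (sph 1 ∪ neck) := by
  obtain ⟨δ, hδ, hδF⟩ := hA1 R4 R4 R4 I4 R4 F SP X2.isCompact_SP hF.1 hF.2
  have hN : IsOpen δ.source := δ.open_source
  have hFc : ContinuousOn F δ.source := by
    refine ContinuousOn.congr δ.contMDiffOn_toFun.continuousOn ?_
    intro p hp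
    exact (hδF p hp).symm
  have hFi : InjOn F δ.source := by
    intro p hp q hq h
    rw [← hδF p hp, ← hδF q hq] at h
    exact δ.injOn hp hq h
  have h0 : sd 0 ∈ δ.source := by
    refine hδ (neck_subset_SP ⟨rfl, ?_, ?_, ?_⟩)
    · show (1 / 5 : ℝ) ≤ 73 / 100; norm_num
    · show (73 / 100 : ℝ) ≤ 4 / 5; norm_num
    · show (((0 : ℝ) : ℂ)) = 0
      simp
  have h1 : Gc ((0 : ℝ) : ℂ) (0, 1) ∈ δ.source := by
    refine hδ (sph1_subset_SP ?_)
    rw [Gc_real]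
    refine ⟨by show (1 / 2 + 0 : ℝ) = 1 / 2; norm_num, ?_⟩
    show nsq (_, _) = _
    simp [nsq]
    norm_num
  have hc : Continuous fun r : ℝ => Gc r (0, 1) := by
    have e : (fun r : ℝ => Gc r (0, 1)) = fun r : ℝ =>
        ((1 / 2 + r, ((1 : ℝ), ((1 / 5 : ℝ) : ℂ))) : R4) := funext Gc_real
    rw [e]
    fun_prop
  obtain ⟨a, ha, ha'⟩ := Metric.mem_nhds_iff.1 ((hN.preimage continuous_sd).mem_nhds h0)
  obtain ⟨b, hb, hb'⟩ := Metric.mem_nhds_iff.1 ((hN.preimage hc).mem_nhds h1)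
  have hmemK : ∀ q ∈ δ.source, ∀ A ⊆ SP, F q ∈ F '' A → q ∈ A := by
    rintro q hq A hA ⟨q', hq', h⟩
    rwa [← hFi (hδ (hA hq')) hq h]
  have hτ : ∀ τ : ℝ, |τ| < min (min a b) (1 / 10) → sd τ ∈ δ.source := by
    intro τ hτ
    refine ha' ?_
    rw [mem_ball_zero_iff, Real.norm_eq_abs]
    exact lt_of_lt_of_le hτ ((min_le_left _ _).trans (min_le_left _ _))
  refine ⟨min (min a b) (1 / 10), by positivity, ?_, ?_, ?_, ?_⟩
  · intro τ h
    exact hFc.continuousAt (hN.mem_nhds (hτ τ h))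
  · intro τ h hK
    exact sd_off_sph τ (hmemK _ (hτ τ h) _ sph1_subset_SP hK)
  · intro τ h h2 hK
    rcases hmemK _ (hτ τ h) _ sphneck_subset_SP hK with h3 | h3
    · exact sd_off_sph τ h3
    · exact sd_off h2 h3
  · intro r h h2 hK
    have h4 : Gc r (0, 1) ∈ δ.source := by
      refine hb' ?_
      rw [mem_ball_zero_iff, Real.norm_eq_abs]
      exact lt_of_lt_of_le h ((min_le_left _ _).trans (min_le_right _ _))
    have h5 : (Gc r (0, 1)).1 = 1 / 2 := by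
      rcases hmemK _ h4 _ sphneck_subset_SP hK with h3 | h3 <;> exact h3.1
    rw [Gc_real] at h5
    apply h2
    have h6 : (1 / 2 + r : ℝ) = 1 / 2 := h5
    linarith

/-- the sphere is parametrised by the plane -/
theorem S2_subset_range : S2 ⊆ range (fun z : ℝ × ℝ =>
    ((Real.cos z.1, ((Real.sin z.1 : ℝ) : ℂ) * Complex.exp ((z.2 : ℂ) * Complex.I)) : R3)) := by
  intro m hm
  have h1 : m.1 ^ 2 + ‖m.2‖ ^ 2 = 1 := by
    have h2 : m.1 ^ 2 + m.2.re ^ 2 + m.2.im ^ 2 = 1 := hm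
    have h3 : ‖m.2‖ ^ 2 = m.2.re ^ 2 + m.2.im ^ 2 := by
      rw [← Complex.normSq_eq_norm_sq, Complex.normSq_apply]
      ring
    rw [h3]
    linarith
  set z : ℂ := ⟨m.1, ‖m.2‖⟩ with hz
  have h4 : ‖z‖ = 1 := by
    have h5 : ‖z‖ ^ 2 = 1 := by
      rw [← Complex.normSq_eq_norm_sq, Complex.normSq_apply, ← h1]
      show m.1 * m.1 + ‖m.2‖ * ‖m.2‖ = _
      ring
    nlinarith [norm_nonneg z]
  have hz0 : z ≠ 0 := by
    intro h
    rw [h, norm_zero] at h4
    norm_num at h4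
  have h6 : Real.cos z.arg = m.1 := by
    rw [Complex.cos_arg hz0, h4, div_one]
  have h7 : Real.sin z.arg = ‖m.2‖ := by
    rw [Complex.sin_arg, h4, div_one]
  refine ⟨(z.arg, m.2.arg), Prod.ext h6 ?_⟩
  show ((Real.sin z.arg : ℝ) : ℂ) * Complex.exp ((m.2.arg : ℂ) * Complex.I) = m.2
  rw [h7]
  exact Complex.norm_mul_exp_arg_mul_I m.2

section
variable {F : R4 → R4} (hHCL : StHCL) (hT2 : StT2) (hCI : StCI) (hEX : StEX)
  (hF : EmbOn I4 F SP)
include hHCL hT2 hCI hEX hF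

/-- replacing the track and the sphere by homotopic ones -/
theorem dr_replace {x y z : Off (F '' sph 1)} (hx : (x : R4) = bp F) {w v : Path x y}
    {c : Path y z} (hw : cl w = cl v) {h : ℝ × R3 → R4} (hh : FH F h (pf (w.trans c)))
    {k : R3 → R4} (hk : ContinuousOn k S2) (hkK : ∀ m ∈ S2, k m ∉ F '' sph 1)
    (hkz : k (1, 0) = z) {G : ℝ × R3 → R4} (hG : FH F G (fun _ => (z : R4)))
    (hG0 : ∀ m ∈ S2, G (0, m) = k m) (hG1 : ∀ m ∈ S2, G (1, m) = h (1, m)) :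
    Bs F (fill k (pf (v.trans c))) ∧ DR F (fun m => h (0, m)) (fill k (pf (v.trans c))) := by
  obtain ⟨a, ha, ha1, ha0⟩ := transport (F := F) (k := k) (w := pf (v.trans c)) hk
    (pf_cont _).continuousOn (by rw [pf_one, hkz]) hkK fun t _ => pf_off _ t
  have hb : FH F (hcat a G) (pf ((v.trans c).trans (Path.refl z))) := by
    refine (fh_cat ha hG fun m hm => (ha1 m hm).trans (hG0 m hm).symm).congr
      (fun _ _ _ _ => rfl) fun u hu => ?_
    rw [pf_trans _ _ hu]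
    unfold pcat
    split_ifs
    · rfl
    · show pf (Path.refl z) _ = (z : R4)
      unfold pf
      simp
  have e : cl (w.trans c) = cl ((v.trans c).trans (Path.refl z)) := by
    have e1 : cl (w.trans c) = (cl w).trans (cl c) := rfl
    have e2 : cl ((v.trans c).trans (Path.refl z)) = ((cl v).trans (cl c)).trans
      (cl (Path.refl z)) := rfl
    rw [e1, e2, hw]
    exact (Path.Homotopic.Quotient.trans_refl _).symm
  have d := dr_tracks hHCL hT2 hCI hEX hF hx e hh hb fun m hm => by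
    rw [hcat_one]
    exact (hG1 m hm).symm
  have hbs : Bs F (fun m => a (0, m)) := ha.bs (by rw [pf_zero, hx])
  refine ⟨hbs.congr fun m hm => (ha0 m hm).symm, dr_congr d (fun _ _ => rfl) fun m hm => ?_⟩
  show fill k (pf (v.trans c)) m = hcat a G (0, m)
  rw [hcat_zero, ha0 m hm]

omit hHCL hT2 hCI hEX in
/-- the nice path in the class of a path -/
theorem exists_nice {x y : Off (F '' sph 1)} (hx : (x : R4) = bp F) (w : Path x y)
    (hy : (y : R4) ∉ F '' (sph 1 ∪ neck)) {τ₁ : ℝ} (hτ : 0 < τ₁)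
    (hc : ∀ τ, |τ| ≤ τ₁ → ContinuousAt F (sd τ)) (hK : ∀ τ, |τ| ≤ τ₁ → F (sd τ) ∉ F '' sph 1)
    (hN : ∀ τ, |τ| ≤ τ₁ → τ ≠ 0 → F (sd τ) ∉ F '' (sph 1 ∪ neck)) :
    ∃ v : Path x y, cl w = cl v ∧ NicePath F τ₁ (pf v) := by
  have hab : ∀ t : unitInterval, |(t : ℝ) * τ₁| ≤ τ₁ := fun t => by
    rw [abs_of_nonneg (mul_nonneg t.2.1 hτ.le)]
    exact mul_le_of_le_one_left hτ.le t.2.2
  let z : Off (F '' sph 1) := ⟨F (sd τ₁), hK τ₁ (abs_of_pos hτ).le⟩
  have hsd0 : F (sd 0) = x := by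
    rw [hx]
    show F (1 / 2, ((73 / 100 : ℝ), ((0 : ℝ) : ℂ))) = F (1 / 2, ((73 / 100 : ℝ), (0 : ℂ)))
    rw [Complex.ofReal_zero]
  let σ : Path x z :=
    { toFun := fun t => ⟨F (sd ((t : ℝ) * τ₁)), hK _ (hab t)⟩
      continuous_toFun := by
        refine Continuous.subtype_mk ?_ _
        rw [continuous_iff_continuousAt]
        intro t
        have h1 : ContinuousAt (fun t : unitInterval => sd ((t : ℝ) * τ₁)) t :=
          (continuous_sd.comp (continuous_subtype_val.mul continuous_const)).continuousAt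
        exact ContinuousAt.comp (hc _ (hab t)) h1
      source' := by
        refine Subtype.ext ?_
        show F (sd (((0 : unitInterval) : ℝ) * τ₁)) = x
        rw [Set.Icc.coe_zero, zero_mul, hsd0]
      target' := by
        refine Subtype.ext ?_
        show F (sd (((1 : unitInterval) : ℝ) * τ₁)) = F (sd τ₁)
        rw [Set.Icc.coe_one, one_mul] }
  have hzN : (z : R4) ∉ F '' (sph 1 ∪ neck) := hN τ₁ (abs_of_pos hτ).le hτ.ne'
  let w' : Path z y := σ.symm.trans w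
  -- general position relative to the end points
  obtain ⟨ρ, hρ, hm⟩ : ∃ ρ > 0, ∀ t ∈ ({0, 1} : Set ℝ), ∀ q ∈ F '' (sph 1 ∪ neck),
      2 * ρ ≤ dist (pf w' t) q := by
    have h1 : ∀ t ∈ ({0, 1} : Set ℝ), pf w' t ∉ F '' (sph 1 ∪ neck) := by
      rintro t (rfl | rfl)
      · rw [pf_zero]; exact hzN
      · rw [pf_one]; exact hy
    obtain ⟨ρ, h2, hρ⟩ := ((margin (Set.toFinite _).isCompact (pf_cont w').continuousOn
      (isCompact_N hF) h1).and self_mem_nhdsWithin).exists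
    exact ⟨ρ, hρ, h2⟩
  obtain ⟨H, hHc, H0, HY, HK, HN⟩ := exists_gp hF (X := Icc (0 : ℝ) 1) (Y := {0, 1})
    isCompact_Icc (p := fun z : ℝ × ℝ => z.1) contDiff_fst (fun t _ => ⟨(t, 0), rfl⟩)
    (pf_cont w').continuousOn (fun t _ => pf_off w' t) hρ hm
  have hH1c : Continuous fun t : unitInterval => H (1, (t : ℝ)) :=
    hHc.comp_continuous (by fun_prop) fun t => ⟨⟨zero_le_one, le_rfl⟩, t.2⟩
  let v' : Path z y :=
    { toFun := fun t => ⟨H (1, (t : ℝ)), HK 1 ⟨zero_le_one, le_rfl⟩ _ t.2⟩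
      continuous_toFun := hH1c.subtype_mk _
      source' := by
        refine Subtype.ext ?_
        show H (1, ((0 : unitInterval) : ℝ)) = z
        rw [Set.Icc.coe_zero, HY 0 (by simp), pf_zero]
      target' := by
        refine Subtype.ext ?_
        show H (1, ((1 : unitInterval) : ℝ)) = y
        rw [Set.Icc.coe_one, HY 1 (by simp), pf_one] }
  have hv' : Path.Homotopic w' v' := by
    refine ⟨{ toFun := fun s => ⟨H ((s.1 : ℝ), (s.2 : ℝ)), HK _ s.1.2 _ s.2.2⟩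
              continuous_toFun := ?_
              map_zero_left := ?_
              map_one_left := ?_
              prop' := ?_ }⟩
    · refine Continuous.subtype_mk ?_ _
      exact hHc.comp_continuous (by fun_prop) fun s => ⟨s.1.2, s.2.2⟩
    · intro t
      refine Subtype.ext ?_
      show H (((0 : unitInterval) : ℝ), (t : ℝ)) = w' t
      rw [Set.Icc.coe_zero, H0 _ t.2, pf_coe]
    · intro t
      rfl
    · rintro s t (rfl | rfl)
      · refine Subtype.ext ?_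
        show H ((s : ℝ), ((0 : unitInterval) : ℝ)) = w' 0
        rw [Set.Icc.coe_zero, HY 0 (by simp), pf_zero, w'.source]
      · refine Subtype.ext ?_
        show H ((s : ℝ), ((1 : unitInterval) : ℝ)) = w' 1
        rw [Set.Icc.coe_one, HY 1 (by simp), pf_one, w'.target]
  have e1 : cl w' = cl v' := Path.Homotopic.Quotient.eq.2 hv'
  refine ⟨σ.trans v', ?_, ?_⟩
  · have e2 : cl (σ.trans v') = (cl σ).trans (cl v') := rfl
    have e3 : cl w' = (cl σ).symm.trans (cl w) := rfl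
    rw [e2, ← e1, e3, ← Path.Homotopic.Quotient.trans_assoc, Path.Homotopic.Quotient.trans_symm,
      Path.Homotopic.Quotient.refl_trans]
  · refine ⟨(pf_cont _).continuousOn, ?_, ?_⟩
    · intro t ht
      rw [pf_trans _ _ ⟨ht.1, by linarith [ht.2]⟩]
      unfold pcat
      rw [if_pos ht.2]
      exact pf_coe σ ⟨2 * t, by linarith [ht.1], by linarith [ht.2]⟩
    · intro t ht
      rw [pf_trans _ _ ⟨by linarith [ht.1], ht.2⟩]
      unfold pcat
      split_ifs with h1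
      · have h2 : 2 * t = 1 := by linarith [ht.1]
        rw [h2, pf_one]
        exact hzN
      · rw [not_le] at h1
        have h2 : pf v' (2 * t - 1) = H (1, 2 * t - 1) :=
          pf_coe v' ⟨2 * t - 1, by linarith, by linarith [ht.2]⟩
        rw [h2]
        exact HN _ ⟨by linarith, by linarith [ht.2]⟩

omit hHCL hT2 hCI hEX in
/-- the nice sphere in the class of a sphere -/
theorem exists_nice_sphere {k₁ : R3 → R4} (hk : ContinuousOn k₁ S2)
    (hkK : ∀ m ∈ S2, k₁ m ∉ F '' sph 1) (hb : k₁ (1, 0) ∉ F '' (sph 1 ∪ neck)) :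
    ∃ (k : R3 → R4) (G : ℝ × R3 → R4), ContinuousOn k S2 ∧
      (∀ m ∈ S2, k m ∉ F '' (sph 1 ∪ neck)) ∧ k (1, 0) = k₁ (1, 0) ∧
      FH F G (fun _ => k₁ (1, 0)) ∧ (∀ m ∈ S2, G (0, m) = k m) ∧ ∀ m ∈ S2, G (1, m) = k₁ m := by
  obtain ⟨ρ, hρ, hm⟩ : ∃ ρ > 0, ∀ t ∈ ({(1, 0)} : Set R3), ∀ q ∈ F '' (sph 1 ∪ neck),
      2 * ρ ≤ dist (k₁ t) q := by
    obtain ⟨ρ, h2, hρ⟩ := ((margin (C := ({(1, 0)} : Set R3)) (f := k₁) isCompact_singleton
      (hk.mono (by rintro _ rfl; exact base_mem)) (isCompact_N hF)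
      (by rintro _ rfl; exact hb)).and self_mem_nhdsWithin).exists
    exact ⟨ρ, hρ, h2⟩
  have hp : ContDiff ℝ ∞ fun z : ℝ × ℝ =>
      ((Real.cos z.1, ((Real.sin z.1 : ℝ) : ℂ) * Complex.exp ((z.2 : ℂ) * Complex.I)) : R3) := by
    refine ContDiff.prodMk (Real.contDiff_cos.comp contDiff_fst) ?_
    refine ContDiff.mul (Complex.ofRealCLM.contDiff.comp (Real.contDiff_sin.comp contDiff_fst)) ?_
    refine ContDiff.cexp ?_
    exact (Complex.ofRealCLM.contDiff.comp contDiff_snd).mul contDiff_const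
  obtain ⟨H, hHc, H0, HY, HK, HN⟩ := exists_gp hF (X := S2) (Y := {(1, 0)})
    isCompact_S2 hp S2_subset_range hk hkK hρ hm
  have hmem : ∀ u ∈ Icc (0 : ℝ) 1, 1 - u ∈ Icc (0 : ℝ) 1 := fun u hu =>
    ⟨by linarith [hu.2], by linarith [hu.1]⟩
  refine ⟨fun m => H (1, m), fun z => H (1 - z.1, z.2), ?_, HN, HY _ rfl _, ⟨?_, ?_, ?_⟩, ?_, ?_⟩
  · exact hHc.comp (Continuous.continuousOn (by fun_prop)) fun m hm =>
      ⟨⟨zero_le_one, le_rfl⟩, hm⟩
  · exact hHc.comp (Continuous.continuousOn (by fun_prop)) fun z hz => ⟨hmem _ hz.1, hz.2⟩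
  · intro u hu m hm
    exact HK _ (hmem u hu) m hm
  · intro u _
    exact HY _ rfl _
  · intro m _
    show H (1 - 0, m) = H (1, m)
    rw [sub_zero]
  · intro m hm
    show H (1 - 1, m) = k₁ m
    rw [sub_self, H0 m hm]

end

/-- **CRL from CRN.** -/
theorem m_CRL (hHCL : StHCL) (hT2 : StT2) (hCI : StCI) (hEX : StEX) (hCRN : StCRN) : StCRL := by
  intro F hF η hη
  obtain ⟨η₁, hη₁, T, hκ, hP, hQ⟩ := exists_tub I4 hF
  obtain ⟨η₂, hη₂, hFc, hK, hN, hGc⟩ := exists_radius hF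
  obtain ⟨r₀, hr₀, hC⟩ := hCRN F hF
  obtain ⟨r, hr, hr'⟩ : ∃ r : ℝ, 0 < r ∧ r < min (min η η₁) (min η₂ r₀) :=
    exists_between (by positivity)
  have hrη : r < η := lt_of_lt_of_le hr' ((min_le_left _ _).trans (min_le_left _ _))
  have hrη₁ : r < η₁ := lt_of_lt_of_le hr' ((min_le_left _ _).trans (min_le_right _ _))
  have hrη₂ : r < η₂ := lt_of_lt_of_le hr' ((min_le_right _ _).trans (min_le_left _ _))
  have hrr₀ : r < r₀ := lt_of_lt_of_le hr' ((min_le_right _ _).trans (min_le_right _ _))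
  have hv : ((0, 1) : R3) ≠ 0 := fun h => one_ne_zero (congrArg Prod.snd h)
  refine ⟨r, ⟨hr, hrη⟩, (0, 1), hv, ?_⟩
  intro w h h' hw0 hh hh' h1
  -- the half circles
  have hexp : ∀ θ : ℝ, Complex.exp (((Real.log r : ℝ) : ℂ) + (θ : ℂ) * Complex.I)
      = r * Complex.exp ((θ : ℂ) * Complex.I) := by
    intro θ
    rw [Complex.exp_add, ← Complex.ofReal_exp, Real.exp_log hr]
  have hcirc_eq : ∀ σ u : ℝ, hcirc F r (0, 1) σ u
      = T.Q (((Real.log r : ℝ) : ℂ) + ((σ * Real.pi * u : ℝ) : ℂ) * Complex.I, (0, 1)) := by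
    intro σ u
    rw [hQ, hexp]
    rfl
  have hzθ : ∀ θ : ℝ, ((((Real.log r : ℝ) : ℂ) + (θ : ℂ) * Complex.I, (0, 1)) : ℂ × R3) ∈
      {ℓ : ℂ | ℓ.re < T.κ} ×ˢ T.P := by
    intro θ
    refine ⟨?_, by rw [hP]; exact hv⟩
    show (((Real.log r : ℝ) : ℂ) + (θ : ℂ) * Complex.I).re < T.κ
    rw [Complex.add_re, Complex.ofReal_re, Complex.mul_re, Complex.ofReal_re, Complex.I_re,
      Complex.ofReal_im, Complex.I_im, hκ]
    have := Real.log_lt_log hr hrη₁
    linarith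
  have hcoff : ∀ σ u : ℝ, hcirc F r (0, 1) σ u ∉ F '' sph 1 := by
    intro σ u
    rw [hcirc_eq]
    exact T.off _ (hzθ _)
  have hccont : ∀ σ : ℝ, Continuous (hcirc F r (0, 1) σ) := by
    intro σ
    have h2 : hcirc F r (0, 1) σ = fun u =>
        T.Q (((Real.log r : ℝ) : ℂ) + ((σ * Real.pi * u : ℝ) : ℂ) * Complex.I, (0, 1)) :=
      funext (hcirc_eq σ)
    rw [h2]
    refine T.contQ (by fun_prop) continuous_const (fun u => (hzθ _).1) fun _ => ?_
    rw [hP]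
    exact hv
  have hc0 : ∀ σ : ℝ, hcirc F r (0, 1) σ 0 = F (Gc r (0, 1)) := by
    intro σ
    unfold hcirc
    simp
  have hcm : hcirc F r (0, 1) 1 1 = F (Gc ((-r : ℝ) : ℂ) (0, 1)) := by
    unfold hcirc
    have : (((1 * Real.pi * 1 : ℝ) : ℂ) * Complex.I) = Real.pi * Complex.I := by
      push_cast
      ring
    rw [this, Complex.exp_pi_mul_I]
    congr 2
    push_cast
    ring
  have hcm' : hcirc F r (0, 1) (-1) 1 = F (Gc ((-r : ℝ) : ℂ) (0, 1)) := by
    unfold hcirc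
    have : (((-1 * Real.pi * 1 : ℝ) : ℂ) * Complex.I) = -(Real.pi * Complex.I) := by
      push_cast
      ring
    rw [this, Complex.exp_neg, Complex.exp_pi_mul_I]
    congr 2
    push_cast
    norm_num
  let y : Off (F '' sph 1) := ⟨F (Gc r (0, 1)), by rw [← hc0 1]; exact hcoff 1 0⟩
  let z : Off (F '' sph 1) := ⟨F (Gc ((-r : ℝ) : ℂ) (0, 1)), by rw [← hcm]; exact hcoff 1 1⟩
  let x : Off (F '' sph 1) := ⟨bp F, bp_off hF⟩
  let c : Path y z :=
    { toFun := fun t => ⟨hcirc F r (0, 1) 1 t, hcoff 1 t⟩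
      continuous_toFun := ((hccont 1).comp continuous_subtype_val).subtype_mk _
      source' := Subtype.ext (hc0 1)
      target' := Subtype.ext hcm }
  let c' : Path y z :=
    { toFun := fun t => ⟨hcirc F r (0, 1) (-1) t, hcoff (-1) t⟩
      continuous_toFun := ((hccont (-1)).comp continuous_subtype_val).subtype_mk _
      source' := Subtype.ext (hc0 (-1))
      target' := Subtype.ext hcm' }
  have hpc : ∀ u ∈ Icc (0 : ℝ) 1, pf c u = hcirc F r (0, 1) 1 u := fun u hu => pf_coe c ⟨u, hu⟩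
  have hpc' : ∀ u ∈ Icc (0 : ℝ) 1, pf c' u = hcirc F r (0, 1) (-1) u :=
    fun u hu => pf_coe c' ⟨u, hu⟩
  -- the path `w`
  have htr : ContinuousOn (fun u : ℝ => h (u, (1, 0))) (Icc 0 1) :=
    hh.cont.comp (Continuous.continuousOn (by fun_prop)) fun u hu => ⟨hu, base_mem⟩
  have hwt : ∀ t ∈ Icc (0 : ℝ) 1, w t = h (t / 2, (1, 0)) := by
    intro t ht
    rw [hh.track _ ⟨by linarith [ht.1], by linarith [ht.2]⟩]
    unfold pcat
    rw [if_pos (by linarith [ht.2])]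
    congr 1
    ring
  have hw1 : w 1 = F (Gc r (0, 1)) := by
    rw [hwt 1 ⟨zero_le_one, le_rfl⟩, ← hc0 1]
    have l1 : Filter.Tendsto (fun u : ℝ => h (u, (1, 0))) (𝓝[>] (1 / 2 : ℝ))
        (𝓝 (h (1 / 2, (1, 0)))) := by
      have h2 : ContinuousAt (fun u : ℝ => h (u, (1, 0))) (1 / 2) :=
        htr.continuousAt (Icc_mem_nhds (by norm_num) (by norm_num))
      exact h2.tendsto.mono_left nhdsWithin_le_nhds
    have l2 : Filter.Tendsto (fun u : ℝ => hcirc F r (0, 1) 1 (2 * u - 1)) (𝓝[>] (1 / 2 : ℝ))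
        (𝓝 (hcirc F r (0, 1) 1 0)) := by
      have h2 : Continuous fun u : ℝ => hcirc F r (0, 1) 1 (2 * u - 1) :=
        (hccont 1).comp (by fun_prop)
      have h3 := h2.tendsto (1 / 2 : ℝ)
      norm_num at h3
      exact h3.mono_left nhdsWithin_le_nhds
    refine tendsto_nhds_unique (l1.congr' ?_) l2
    filter_upwards [Ioo_mem_nhdsGT (show (1 / 2 : ℝ) < 1 by norm_num)] with u hu
    rw [hh.track u ⟨by linarith [hu.1], hu.2.le⟩]
    unfold pcat
    rw [if_neg (not_le.2 hu.1)]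
  have hwoff : ∀ t ∈ Icc (0 : ℝ) 1, w t ∉ F '' sph 1 := by
    intro t ht
    rw [hwt t ht]
    exact hh.off _ ⟨by linarith [ht.1], by linarith [ht.2]⟩ _ base_mem
  have hwc : ContinuousOn w (Icc (0 : ℝ) 1) := by
    refine ContinuousOn.congr (f := fun t => h (t / 2, (1, 0))) ?_ hwt
    exact htr.comp (f := fun t : ℝ => t / 2) (Continuous.continuousOn (by fun_prop)) fun t ht =>
      ⟨by linarith [ht.1], by linarith [ht.2]⟩
  let wp : Path x y :=
    { toFun := fun t => ⟨w t, hwoff t t.2⟩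
      continuous_toFun := (hwc.comp_continuous continuous_subtype_val fun t => t.2).subtype_mk _
      source' := Subtype.ext (by show w ((0 : unitInterval) : ℝ) = bp F
                                 rw [Set.Icc.coe_zero, hw0])
      target' := Subtype.ext (by show w ((1 : unitInterval) : ℝ) = F (Gc r (0, 1))
                                 rw [Set.Icc.coe_one, hw1]) }
  have hpw : ∀ u ∈ Icc (0 : ℝ) 1, pf wp u = w u := fun u hu => pf_coe wp ⟨u, hu⟩
  have hpcat : ∀ (a : Path x y) (b : ℝ → R4) (σ : ℝ) (d : Path y z),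
      (∀ u ∈ Icc (0 : ℝ) 1, pf a u = b u) → (∀ u ∈ Icc (0 : ℝ) 1, pf d u = hcirc F r (0, 1) σ u) →
      ∀ u ∈ Icc (0 : ℝ) 1, pf (a.trans d) u = pcat b (hcirc F r (0, 1) σ) u := by
    intro a b σ d ha hd u hu
    rw [pf_trans a d hu]
    unfold pcat
    split_ifs with h2
    · exact ha _ ⟨by linarith [hu.1], by linarith⟩
    · rw [not_le] at h2
      exact hd _ ⟨by linarith, by linarith [hu.2]⟩
  have f1 : FH F h (pf (wp.trans c)) :=
    hh.congr (fun _ _ _ _ => rfl) fun u hu => hpcat wp w 1 c hpw hpc u hu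
  have f2 : FH F h' (pf (wp.trans c')) :=
    hh'.congr (fun _ _ _ _ => rfl) fun u hu => hpcat wp w (-1) c' hpw hpc' u hu
  -- the nice path
  have hyN : (y : R4) ∉ F '' (sph 1 ∪ neck) := hGc r (by rw [abs_of_pos hr]; exact hrη₂) hr.ne'
  have hzN : (z : R4) ∉ F '' (sph 1 ∪ neck) :=
    hGc (-r) (by rw [abs_neg, abs_of_pos hr]; exact hrη₂) (neg_ne_zero.2 hr.ne')
  obtain ⟨v, hvw, hnv⟩ := exists_nice hF (x := x) rfl wp hyN hr
    (fun τ hτ => hFc τ (lt_of_le_of_lt hτ hrη₂)) (fun τ hτ => hK τ (lt_of_le_of_lt hτ hrη₂))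
    (fun τ hτ => hN τ (lt_of_le_of_lt hτ hrη₂))
  -- the nice sphere
  have hk1 : h (1, (1, 0)) = z := by
    rw [f1.track 1 ⟨zero_le_one, le_rfl⟩, pf_one]
  obtain ⟨k, G, hkc, hkN, hkb, hG, hG0, hG1⟩ := exists_nice_sphere hF
    (k₁ := fun m => h (1, m)) (hh.one_cont 1 ⟨zero_le_one, le_rfl⟩)
    (hh.off 1 ⟨zero_le_one, le_rfl⟩) (by rw [hk1]; exact hzN)
  have hkz : k (1, 0) = z := by rw [hkb, hk1]
  have hkK : ∀ m ∈ S2, k m ∉ F '' sph 1 := by
    rintro m hm ⟨q, hq, e⟩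
    exact hkN m hm ⟨q, Or.inl hq, e⟩
  have hG' : FH F G (fun _ => (z : R4)) := hG.congr (fun _ _ _ _ => rfl) fun _ _ => hk1.symm
  obtain ⟨b1, d1⟩ := dr_replace hHCL hT2 hCI hEX hF (x := x) rfl (c := c) hvw f1 hkc hkK hkz hG'
    hG0 hG1
  obtain ⟨b2, d2⟩ := dr_replace hHCL hT2 hCI hEX hF (x := x) rfl (c := c') hvw f2 hkc hkK hkz hG'
    hG0 fun m hm => (hG1 m hm).trans (h1 m hm)
  have d3 := hC r ⟨hr, hrr₀⟩ r ⟨hr, hrr₀⟩ (pf v) k hnv (pf_one v) hkc hkN (by
    rw [hkz]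
    show F (Gc ((-r : ℝ) : ℂ) (0, 1)) = _
    rw [Complex.ofReal_neg])
  have d4 : DR F (fill k (pf (v.trans c))) (fill k (pf (v.trans c'))) :=
    dr_congr d3
      (fun m hm => fill_congr (fun _ _ => rfl) (hpcat v (pf v) 1 c (fun _ _ => rfl) hpc) hm)
      fun m hm => fill_congr (fun _ _ => rfl) (hpcat v (pf v) (-1) c' (fun _ _ => rfl) hpc') hm
  exact dr_trans hF hHCL hT2 hCI hEX b1 d1
    (dr_trans hF hHCL hT2 hCI hEX b2 d4 (dr_symm hHCL hT2 hCI d2))

end Pool.Agent.Helper34.S5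


end
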