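import Pool.Agent.Helper18.BI.R.FinDefs
import Pool.Agent.Helper65.Barb.Defs
import Pool.Agent.Helper70.BI.C.P45

/-!
# Project BI (MP_8e98f2_gt): collected modules, part 75

The contents of the modules
* Helper4.BI6.M_SQR
* Helper67.BI6.M_PP
* Helper99.BI6.M_SQD

in one file, so that the whole proof builds in a short time.
-/

namespace Pool.Agent.Helper18.BI
end Pool.Agent.Helper18.BI

namespace Pool.Agent.Helper18.BI.R
end Pool.Agent.Helper18.BI.R

namespace Pool.Agent.Helper18.FinR
end Pool.Agent.Helper18.FinR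

namespace Pool.Agent.Helper65.Barb
end Pool.Agent.Helper65.Barb


/-! ## Helper4.BI6.M_SQR -/

section

/-!
# Project BI, stage 6 (T), module SQR: two parametrizations of the sphere by the square
-/

set_option autoImplicit false

open scoped Topology unitInterval Manifold ContDiff ComplexConjugate
open Set Pool.Agent.Helper65.Barb Pool.Agent.Helper18.BI
open Pool.Agent.Helper18.FinR (sqr)
open Pool.Agent.Helper18.BI.R (S2)

namespace Pool.Agent.Helper70.T

namespace SQR

private theorem PP_re (ρ v : ℝ) : (PP ρ v).2.re = Real.sin (Real.pi * v) * Real.cos ρ := by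
  unfold PP
  simp only [Complex.mul_re, Complex.ofReal_re, Complex.ofReal_im, zero_mul, sub_zero]
  rw [Complex.exp_ofReal_mul_I_re]

private theorem PP_im (ρ v : ℝ) : (PP ρ v).2.im = Real.sin (Real.pi * v) * Real.sin ρ := by
  unfold PP
  simp only [Complex.mul_im, Complex.ofReal_re, Complex.ofReal_im, zero_mul, add_zero]
  rw [Complex.exp_ofReal_mul_I_im]

private theorem PP_fst (ρ v : ℝ) : (PP ρ v).1 = Real.cos (Real.pi * v) := rfl

private theorem PP_nsq (ρ v : ℝ) : nsq (PP ρ v) = 1 := by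
  unfold nsq
  rw [PP_re, PP_im, PP_fst]
  have h1 : Real.cos (Real.pi * v) ^ 2 = 1 - Real.sin (Real.pi * v) ^ 2 := Real.cos_sq' _
  have h2 : Real.cos ρ ^ 2 = 1 - Real.sin ρ ^ 2 := Real.cos_sq' _
  linear_combination h1 + Real.sin (Real.pi * v) ^ 2 * h2

private theorem PP_zero (ρ : ℝ) : PP ρ 0 = (1, 0) := by
  unfold PP
  simp

private theorem PP_one (ρ : ℝ) : PP ρ 1 = PP 0 1 := by
  unfold PP
  simp

private theorem PP_two_pi (v : ℝ) : PP (2 * Real.pi) v = PP 0 v := by
  refine Prod.ext rfl (Complex.ext ?_ ?_)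
  · rw [PP_re, PP_re, Real.cos_two_pi, Real.cos_zero]
  · rw [PP_im, PP_im, Real.sin_two_pi, Real.sin_zero]

private theorem PP_cont : Continuous fun z : ℝ × ℝ => PP z.1 z.2 := by
  unfold PP
  fun_prop

private theorem lam_cont : Continuous lam := by
  unfold lam
  fun_prop

private theorem rho_cont : Continuous rho := by
  unfold rho
  fun_prop

private theorem tau_cont : Continuous tau := by
  unfold tau
  fun_prop

private theorem rho_lo {θ : ℝ} (h : θ ≤ 1 / 3) : rho θ = 0 := by
  unfold rho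
  rw [max_eq_left ((min_le_right _ _).trans (by linarith)), mul_zero]

private theorem rho_hi {θ : ℝ} (h : 2 / 3 ≤ θ) : rho θ = 2 * Real.pi := by
  unfold rho
  rw [min_eq_left (by linarith), max_eq_right zero_le_one, mul_one]

private theorem lam_mid {θ : ℝ} (h : 1 / 3 ≤ θ) (h' : θ ≤ 2 / 3) : lam θ = 1 := by
  unfold lam
  exact min_eq_left (le_min (by linarith) (by linarith))

private theorem lam_le (θ : ℝ) : lam θ ≤ 1 := min_le_left _ _

private theorem lam_nn {θ : ℝ} (h : 0 ≤ θ) (h' : θ ≤ 1) : 0 ≤ lam θ :=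
  le_min zero_le_one (le_min (by linarith) (by linarith))

private theorem tau_nn {s : ℝ} (h : 0 ≤ s) (h' : s ≤ 1) : 0 ≤ tau s :=
  le_min (by linarith) (by linarith)

private theorem tau_le (s : ℝ) : tau s ≤ 1 := by
  unfold tau
  rcases le_total s (1 / 2) with h | h
  · exact (min_le_left _ _).trans (by linarith)
  · exact (min_le_right _ _).trans (by linarith)

private theorem tau_half : tau (1 / 2) = 1 := by
  unfold tau
  norm_num

private theorem PP_glue (θ : ℝ) : PP (rho θ) (lam θ) = PP 0 (lam θ) := by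
  rcases le_total θ (1 / 3) with h | h
  · rw [rho_lo h]
  · rcases le_total θ (2 / 3) with h' | h'
    · rw [lam_mid h h', PP_one]
    · rw [rho_hi h', PP_two_pi]

private theorem qq_cont : Continuous qq := by
  unfold qq
  refine Continuous.if_le (f := fun t : Fin 2 → I => (t 1 : ℝ)) (g := fun _ => 1 / 2) ?_ ?_
    (by fun_prop) continuous_const (fun t ht => ?_)
  · exact PP_cont.comp ((rho_cont.comp (by fun_prop)).prodMk
      ((lam_cont.comp (by fun_prop)).mul (tau_cont.comp (by fun_prop))))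
  · exact PP_cont.comp (continuous_const.prodMk
      ((lam_cont.comp (by fun_prop)).mul (tau_cont.comp (by fun_prop))))
  · rw [ht, tau_half, mul_one, PP_glue]

private theorem sqr_cont : Continuous sqr := by
  have h : Continuous fun t : Fin 2 → I =>
      ((1 - 2 * Real.sin (Real.pi * t 0) ^ 2 * Real.sin (Real.pi * t 1) ^ 2,
        Complex.equivRealProdCLM.symm
          (-(2 * Real.sin (Real.pi * t 0) * Real.sin (Real.pi * t 1) * Real.cos (Real.pi * t 1)),
          2 * Real.sin (Real.pi * t 0) * Real.cos (Real.pi * t 0) *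
            Real.sin (Real.pi * t 1) ^ 2)) : ℝ × ℂ) := by
    fun_prop
  exact h

private theorem sqr_nsq (t : Fin 2 → I) : nsq (sqr t) = 1 := by
  unfold nsq sqr
  simp only
  have h1 : Real.cos (Real.pi * t 0) ^ 2 = 1 - Real.sin (Real.pi * t 0) ^ 2 := Real.cos_sq' _
  have h2 : Real.cos (Real.pi * t 1) ^ 2 = 1 - Real.sin (Real.pi * t 1) ^ 2 := Real.cos_sq' _
  generalize Real.sin (Real.pi * t 0) = a at *
  generalize Real.sin (Real.pi * t 1) = b at *
  linear_combination (4 * a ^ 2 * b ^ 4) * h1 + (4 * a ^ 2 * b ^ 2) * h2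

private theorem qq_nsq (t : Fin 2 → I) : nsq (qq t) = 1 := by
  unfold qq
  split_ifs <;> exact PP_nsq _ _

private theorem qq_bd {t : Fin 2 → I} (ht : t ∈ Cube.boundary (Fin 2)) : qq t = (1, 0) := by
  have h0 : lam (t 0) * tau (t 1) = 0 := by
    obtain ⟨i, hi⟩ := ht
    fin_cases i
    · rcases hi with hi | hi
      · have : ((t 0 : I) : ℝ) = 0 := by
          have := congrArg Subtype.val hi
          simpa using this
        rw [this]; unfold lam; norm_num
      · have : ((t 0 : I) : ℝ) = 1 := by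
          have := congrArg Subtype.val hi
          simpa using this
        rw [this]; unfold lam; norm_num
    · rcases hi with hi | hi
      · have : ((t 1 : I) : ℝ) = 0 := by
          have := congrArg Subtype.val hi
          simpa using this
        rw [this]; unfold tau; norm_num
      · have : ((t 1 : I) : ℝ) = 1 := by
          have := congrArg Subtype.val hi
          simpa using this
        rw [this]; unfold tau; norm_num
  unfold qq
  rw [h0, PP_zero, PP_zero, ite_self]

private theorem sqr_bd {t : Fin 2 → I} (ht : t ∈ Cube.boundary (Fin 2)) : sqr t = (1, 0) := by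
  have h0 : Real.sin (Real.pi * t 0) = 0 ∨ Real.sin (Real.pi * t 1) = 0 := by
    obtain ⟨i, hi⟩ := ht
    fin_cases i
    · left
      rcases hi with hi | hi
      · have : ((t 0 : I) : ℝ) = 0 := by
          have := congrArg Subtype.val hi
          simpa using this
        rw [this, mul_zero, Real.sin_zero]
      · have : ((t 0 : I) : ℝ) = 1 := by
          have := congrArg Subtype.val hi
          simpa using this
        rw [this, mul_one, Real.sin_pi]
    · right
      rcases hi with hi | hi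
      · have : ((t 1 : I) : ℝ) = 0 := by
          have := congrArg Subtype.val hi
          simpa using this
        rw [this, mul_zero, Real.sin_zero]
      · have : ((t 1 : I) : ℝ) = 1 := by
          have := congrArg Subtype.val hi
          simpa using this
        rw [this, mul_one, Real.sin_pi]
  unfold sqr
  rcases h0 with h | h
  · rw [h]
    refine Prod.ext (by simp) (Complex.ext (by simp) (by simp))
  · rw [h]
    refine Prod.ext (by simp) (Complex.ext (by simp) (by simp))

/-- the two parametrizations agree on the middle line -/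
private theorem mid {t : Fin 2 → I} (ht : (t 0 : ℝ) = 1 / 2) : qq t = sqr t := by
  have hr : rho (1 / 2) = Real.pi := by
    unfold rho
    norm_num
    ring
  have hl : lam (1 / 2) = 1 := lam_mid (by norm_num) (by norm_num)
  have hc : Real.cos (Real.pi * (2 * t 1)) = 1 - 2 * Real.sin (Real.pi * t 1) ^ 2 := by
    rw [show Real.pi * (2 * (t 1 : ℝ)) = 2 * (Real.pi * t 1) by ring, Real.cos_two_mul,
      Real.cos_sq']
    ring
  have hs : Real.sin (Real.pi * (2 * t 1)) =
      2 * Real.sin (Real.pi * t 1) * Real.cos (Real.pi * t 1) := by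
    rw [show Real.pi * (2 * (t 1 : ℝ)) = 2 * (Real.pi * t 1) by ring, Real.sin_two_mul]
  have e1 : Real.sin (Real.pi * (1 / 2)) = 1 := by
    rw [mul_one_div, Real.sin_pi_div_two]
  have e2 : Real.cos (Real.pi * (1 / 2)) = 0 := by
    rw [mul_one_div, Real.cos_pi_div_two]
  have hsq : sqr t = (Real.cos (Real.pi * (2 * t 1)), ⟨-Real.sin (Real.pi * (2 * t 1)), 0⟩) := by
    unfold sqr
    rw [ht, e1, e2, hc, hs]
    refine Prod.ext (by simp) (Complex.ext ?_ ?_)
    · simp
    · simp
  rw [hsq]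
  unfold qq
  rw [ht, hr, hl, one_mul]
  split_ifs with h
  · have ht1 : tau (t 1) = 2 * t 1 := by
      unfold tau
      exact min_eq_left (by linarith)
    rw [ht1]
    refine Prod.ext rfl (Complex.ext ?_ ?_)
    · rw [PP_re, Real.cos_pi]
      simp
    · rw [PP_im, Real.sin_pi]
      simp
  · have ht1 : tau (t 1) = 2 - 2 * t 1 := by
      unfold tau
      exact min_eq_right (by linarith)
    have e : Real.pi * (2 - 2 * (t 1 : ℝ)) = 2 * Real.pi - Real.pi * (2 * t 1) := by ring
    rw [ht1]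
    refine Prod.ext ?_ (Complex.ext ?_ ?_)
    · rw [PP_fst, e, Real.cos_two_pi_sub]
    · rw [PP_re, e, Real.sin_two_pi_sub, Real.cos_zero]
      simp
    · rw [PP_im, Real.sin_zero]
      simp

private theorem qq_im (t : Fin 2 → I) : (qq t).2.im =
    (if (t 1 : ℝ) ≤ 1 / 2 then Real.sin (Real.pi * (lam (t 0) * tau (t 1))) * Real.sin (rho (t 0))
      else 0) := by
  unfold qq
  split_ifs with h
  · rw [PP_im]
  · rw [PP_im, Real.sin_zero, mul_zero]

private theorem sin_lt_nn (t : Fin 2 → I) :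
    0 ≤ Real.sin (Real.pi * (lam (t 0) * tau (t 1))) := by
  have h0 := (t 0).2.1
  have h1 := (t 0).2.2
  have h2 := (t 1).2.1
  have h3 := (t 1).2.2
  have hl := lam_nn h0 h1
  have ht := tau_nn h2 h3
  have hm : lam (t 0) * tau (t 1) ≤ 1 := by
    have := mul_le_mul (lam_le (t 0)) (tau_le (t 1)) ht zero_le_one
    simpa using this
  refine Real.sin_nonneg_of_nonneg_of_le_pi (mul_nonneg Real.pi_pos.le (mul_nonneg hl ht)) ?_
  have := mul_le_mul_of_nonneg_left hm Real.pi_pos.le
  simpa using this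

/-- the two parametrizations are never antipodal -/
private theorem not_anti (t : Fin 2 → I) (h1 : (qq t).1 = -(sqr t).1)
    (h2 : (qq t).2.re = -(sqr t).2.re) (h3 : (qq t).2.im = -(sqr t).2.im) : False := by
  have heq : qq t = sqr t → False := by
    intro h
    have hn := sqr_nsq t
    rw [h] at h1 h2 h3
    unfold nsq at hn
    have a1 : (sqr t).1 = 0 := by linarith
    have a2 : (sqr t).2.re = 0 := by linarith
    have a3 : (sqr t).2.im = 0 := by linarith
    rw [a1, a2, a3] at hn
    norm_num at hn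
  have hnb : t ∉ Cube.boundary (Fin 2) := by
    intro hb
    exact heq ((qq_bd hb).trans (sqr_bd hb).symm)
  have hcoord : ∀ i, 0 < (t i : ℝ) ∧ (t i : ℝ) < 1 := by
    intro i
    constructor
    · refine lt_of_le_of_ne (t i).2.1 fun h => hnb ⟨i, Or.inl (Subtype.ext h.symm)⟩
    · refine lt_of_le_of_ne (t i).2.2 fun h => hnb ⟨i, Or.inr (Subtype.ext h)⟩
  obtain ⟨p0, p1⟩ := hcoord 0
  obtain ⟨q0, q1⟩ := hcoord 1
  have hb : 0 < Real.sin (Real.pi * t 1) := by
    refine Real.sin_pos_of_pos_of_lt_pi (mul_pos Real.pi_pos q0) ?_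
    have := mul_lt_mul_of_pos_left q1 Real.pi_pos
    simpa using this
  have ha : 0 < Real.sin (Real.pi * t 0) := by
    refine Real.sin_pos_of_pos_of_lt_pi (mul_pos Real.pi_pos p0) ?_
    have := mul_lt_mul_of_pos_left p1 Real.pi_pos
    simpa using this
  have him : (sqr t).2.im =
      2 * Real.sin (Real.pi * t 0) * Real.cos (Real.pi * t 0) * Real.sin (Real.pi * t 1) ^ 2 := rfl
  have hr1 : 0 ≤ rho (t 0) := by
    unfold rho
    have : (0 : ℝ) ≤ max 0 (min 1 (3 * (t 0 : ℝ) - 1)) := le_max_left _ _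
    have := Real.pi_pos
    positivity
  have hr2 : rho (t 0) ≤ 2 * Real.pi := by
    unfold rho
    have h : max 0 (min 1 (3 * (t 0 : ℝ) - 1)) ≤ 1 := max_le zero_le_one (min_le_left _ _)
    have := mul_le_mul_of_nonneg_left h (by have := Real.pi_pos; positivity : 0 ≤ 2 * Real.pi)
    simpa using this
  rcases lt_trichotomy (t 0 : ℝ) (1 / 2) with h | h | h
  · have hA : 0 < Real.cos (Real.pi * t 0) := by
      refine Real.cos_pos_of_mem_Ioo ⟨?_, ?_⟩
      · have := mul_pos Real.pi_pos p0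
        have := Real.pi_pos
        linarith
      · have := mul_lt_mul_of_pos_left h Real.pi_pos
        linarith
    have hpos : 0 < (sqr t).2.im := by rw [him]; positivity
    have hr3 : rho (t 0) ≤ Real.pi := by
      unfold rho
      have h : max 0 (min 1 (3 * (t 0 : ℝ) - 1)) ≤ 1 / 2 :=
        max_le (by norm_num) ((min_le_right _ _).trans (by linarith))
      have := mul_le_mul_of_nonneg_left h (by have := Real.pi_pos; positivity : 0 ≤ 2 * Real.pi)
      linarith
    have hq : 0 ≤ (qq t).2.im := by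
      rw [qq_im]
      split_ifs
      · exact mul_nonneg (sin_lt_nn t) (Real.sin_nonneg_of_nonneg_of_le_pi hr1 hr3)
      · exact le_rfl
    linarith
  · exact heq (mid h)
  · have hA : Real.cos (Real.pi * t 0) < 0 := by
      refine Real.cos_neg_of_pi_div_two_lt_of_lt ?_ ?_
      · have := mul_lt_mul_of_pos_left h Real.pi_pos
        linarith
      · have := mul_lt_mul_of_pos_left p1 Real.pi_pos
        have := Real.pi_pos
        linarith
    have hneg : (sqr t).2.im < 0 := by
      rw [him]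
      have h1 : 2 * Real.sin (Real.pi * t 0) * Real.cos (Real.pi * t 0) < 0 :=
        mul_neg_of_pos_of_neg (by positivity) hA
      exact mul_neg_of_neg_of_pos h1 (by positivity)
    have hr3 : Real.pi ≤ rho (t 0) := by
      unfold rho
      have h : 1 / 2 ≤ max 0 (min 1 (3 * (t 0 : ℝ) - 1)) :=
        (le_min (by norm_num) (by linarith)).trans (le_max_right _ _)
      have := mul_le_mul_of_nonneg_left h (by have := Real.pi_pos; positivity : 0 ≤ 2 * Real.pi)
      linarith
    have hsr : Real.sin (rho (t 0)) ≤ 0 := by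
      have h5 : Real.sin (rho (t 0)) = Real.sin (rho (t 0) - 2 * Real.pi) :=
        (Real.sin_sub_two_pi _).symm
      rw [h5]
      exact Real.sin_nonpos_of_nonpos_of_neg_pi_le (by linarith) (by linarith)
    have hq : (qq t).2.im ≤ 0 := by
      rw [qq_im]
      split_ifs
      · exact mul_nonpos_of_nonneg_of_nonpos (sin_lt_nn t) hsr
      · exact le_rfl
    linarith

/-- the linear homotopy -/
private noncomputable def vv (z : ℝ × (Fin 2 → I)) : ℝ × ℂ := (1 - z.1) • qq z.2 + z.1 • sqr z.2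

private theorem vv_cont : Continuous vv := by
  unfold vv
  exact ((continuous_const.sub continuous_fst).smul (qq_cont.comp continuous_snd)).add
    (continuous_fst.smul (sqr_cont.comp continuous_snd))

private theorem vv_pos {u : ℝ} (hu : u ∈ Icc (0 : ℝ) 1) (t : Fin 2 → I) : 0 < nsq (vv (u, t)) := by
  have n1 := qq_nsq t
  have n2 := sqr_nsq t
  have hna := not_anti t
  have hv : nsq (vv (u, t)) = ((1 - u) * (qq t).1 + u * (sqr t).1) ^ 2 +
      ((1 - u) * (qq t).2.re + u * (sqr t).2.re) ^ 2 +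
      ((1 - u) * (qq t).2.im + u * (sqr t).2.im) ^ 2 := by
    unfold nsq vv
    simp only [Prod.fst_add, Prod.snd_add, Prod.smul_fst, Prod.smul_snd, Complex.add_re,
      Complex.add_im, Complex.smul_re, Complex.smul_im, smul_eq_mul]
  rw [hv]
  unfold nsq at n1 n2
  generalize (qq t).1 = a at *
  generalize (qq t).2.re = b at *
  generalize (qq t).2.im = c at *
  generalize (sqr t).1 = a' at *
  generalize (sqr t).2.re = b' at *
  generalize (sqr t).2.im = c' at *
  have hs : 0 < (a + a') ^ 2 + (b + b') ^ 2 + (c + c') ^ 2 := by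
    by_contra h
    have h1 : (a + a') ^ 2 = 0 := by
      nlinarith [sq_nonneg (a + a'), sq_nonneg (b + b'), sq_nonneg (c + c')]
    have h2 : (b + b') ^ 2 = 0 := by
      nlinarith [sq_nonneg (a + a'), sq_nonneg (b + b'), sq_nonneg (c + c')]
    have h3 : (c + c') ^ 2 = 0 := by
      nlinarith [sq_nonneg (a + a'), sq_nonneg (b + b'), sq_nonneg (c + c')]
    have h1' : a + a' = 0 := pow_eq_zero_iff (two_ne_zero) |>.mp h1
    have h2' : b + b' = 0 := pow_eq_zero_iff (two_ne_zero) |>.mp h2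
    have h3' : c + c' = 0 := pow_eq_zero_iff (two_ne_zero) |>.mp h3
    exact hna (by linarith) (by linarith) (by linarith)
  have hid : ((1 - u) * a + u * a') ^ 2 + ((1 - u) * b + u * b') ^ 2 +
      ((1 - u) * c + u * c') ^ 2 =
      (1 - 2 * u) ^ 2 + (u * (1 - u)) * ((a + a') ^ 2 + (b + b') ^ 2 + (c + c') ^ 2) := by
    linear_combination ((1 - u) ^ 2 - u * (1 - u)) * n1 + (u ^ 2 - u * (1 - u)) * n2
  rw [hid]
  rcases eq_or_lt_of_le hu.1 with h0 | h0
  · rw [← h0]; norm_num
  · rcases eq_or_lt_of_le hu.2 with h1 | h1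
    · rw [h1]; norm_num
    · have : 0 < u * (1 - u) := mul_pos h0 (by linarith)
      have h5 := mul_pos this hs
      have h6 := sq_nonneg (1 - 2 * u)
      linarith

private theorem nsq_cont : Continuous nsq := by
  unfold nsq
  fun_prop

private theorem nsq_smul' (c : ℝ) (x : ℝ × ℂ) : nsq (c • x) = c ^ 2 * nsq x := by
  unfold nsq
  simp only [Prod.smul_fst, Prod.smul_snd, Complex.smul_re, Complex.smul_im, smul_eq_mul]
  ring

end SQR

open SQR in
theorem m_SQR : StSQR := by
  refine ⟨fun z => (√(nsq (vv z)))⁻¹ • vv z, ?_, ?_, ?_, ?_, ?_⟩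
  · have h1 : ContinuousOn (fun z : ℝ × (Fin 2 → I) => (√(nsq (vv z)))⁻¹)
        (Icc (0 : ℝ) 1 ×ˢ univ) := by
      refine ContinuousOn.inv₀ (nsq_cont.comp vv_cont).sqrt.continuousOn ?_
      rintro ⟨u, t⟩ ⟨hu, -⟩
      exact (Real.sqrt_pos.mpr (vv_pos hu t)).ne'
    exact h1.smul vv_cont.continuousOn
  · intro u hu t
    show nsq _ = 1
    have h := vv_pos hu t
    rw [nsq_smul', inv_pow, Real.sq_sqrt h.le, inv_mul_cancel₀ h.ne']
  · intro t
    have h : vv (0, t) = qq t := by
      unfold vv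
      simp
    simp only [h, qq_nsq, Real.sqrt_one, inv_one, one_smul]
  · intro t
    have h : vv (1, t) = sqr t := by
      unfold vv
      simp
    simp only [h, sqr_nsq, Real.sqrt_one, inv_one, one_smul]
  · intro u hu t ht
    have h : vv (u, t) = (1, 0) := by
      unfold vv
      simp only
      rw [qq_bd ht, sqr_bd ht, ← add_smul, sub_add_cancel, one_smul]
    have h2 : nsq ((1, 0) : ℝ × ℂ) = 1 := by
      unfold nsq
      simp
    simp only [h, h2, Real.sqrt_one, inv_one, one_smul]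

end Pool.Agent.Helper70.T


end

/-! ## Helper67.BI6.M_PP -/

section

/-!
# Project BI, stage 6, module PP: coordinates on the unit sphere
-/

set_option autoImplicit false

open scoped Topology unitInterval Manifold ContDiff ComplexConjugate
open Set Pool.Agent.Helper65.Barb Pool.Agent.Helper18.BI
open Pool.Agent.Helper18.BI.R (S2)

namespace Pool.Agent.Helper70.T

private theorem nsq_PP (c s : ℝ) (ρ : ℝ) (h : c ^ 2 + s ^ 2 = 1) :
    nsq (c, (s : ℂ) * Complex.exp (ρ * Complex.I)) = 1 := by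
  have h1 : ((s : ℂ) * Complex.exp (ρ * Complex.I)).re = s * Real.cos ρ := by
    rw [Complex.re_ofReal_mul, Complex.exp_ofReal_mul_I_re]
  have h2 : ((s : ℂ) * Complex.exp (ρ * Complex.I)).im = s * Real.sin ρ := by
    rw [Complex.im_ofReal_mul, Complex.exp_ofReal_mul_I_im]
  rw [nsq]
  simp only
  rw [h1, h2]
  have h3 := Real.sin_sq_add_cos_sq ρ
  calc c ^ 2 + (s * Real.cos ρ) ^ 2 + (s * Real.sin ρ) ^ 2
      = c ^ 2 + s ^ 2 * (Real.sin ρ ^ 2 + Real.cos ρ ^ 2) := by ring
    _ = 1 := by rw [h3, mul_one, h]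

private theorem mem_PP (ρ v : ℝ) : PP ρ v ∈ S2 := by
  refine nsq_PP _ _ ρ ?_
  rw [add_comm]
  exact Real.sin_sq_add_cos_sq _

private theorem lat_PP {ρ v : ℝ} (hv : v ∈ Icc (0 : ℝ) 1) : lat (PP ρ v) = v := by
  have hpi := Real.pi_pos
  change Real.arccos (Real.cos (Real.pi * v)) / Real.pi = v
  rw [Real.arccos_cos (mul_nonneg hpi.le hv.1) (by nlinarith [hv.2])]
  field_simp

private theorem arg_PP {r θ : ℝ} (hr : 0 < r) (hθ : θ ∈ Ioc (-Real.pi) Real.pi) :
    Complex.arg ((r : ℂ) * Complex.exp (θ * Complex.I)) = θ := by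
  rw [Complex.exp_mul_I]
  exact Complex.arg_mul_cos_add_sin_mul_I hr hθ

private theorem lon_PP {ρ v : ℝ} (hρ : ρ ∈ Ico (0 : ℝ) (2 * Real.pi)) (hv : v ∈ Ioo (0 : ℝ) 1) :
    lon (PP ρ v) = ρ := by
  have hpi := Real.pi_pos
  have hs : 0 < Real.sin (Real.pi * v) :=
    Real.sin_pos_of_pos_of_lt_pi (mul_pos hpi hv.1) (by nlinarith [hv.2])
  change (if 0 ≤ Complex.arg ((Real.sin (Real.pi * v) : ℂ) * Complex.exp (ρ * Complex.I)) then
    Complex.arg ((Real.sin (Real.pi * v) : ℂ) * Complex.exp (ρ * Complex.I)) else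
    Complex.arg ((Real.sin (Real.pi * v) : ℂ) * Complex.exp (ρ * Complex.I)) + 2 * Real.pi) = ρ
  rcases le_or_gt ρ Real.pi with h | h
  · have h1 := arg_PP hs (θ := ρ) ⟨by linarith [hρ.1], h⟩
    rw [h1, if_pos hρ.1]
  · have h1 := arg_PP hs (θ := ρ - 2 * Real.pi) ⟨by linarith, by linarith [hρ.2]⟩
    have h2 : Complex.exp (((ρ - 2 * Real.pi : ℝ) : ℂ) * Complex.I) =
        Complex.exp (ρ * Complex.I) := by
      push_cast
      rw [sub_mul, Complex.exp_sub, Complex.exp_two_pi_mul_I, div_one]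
    rw [h2] at h1
    rw [h1, if_neg (by linarith [hρ.2])]
    ring

private theorem sph_PP {X : Type} [TopologicalSpace X] (A : Act X) (γ : ℝ → X)
    (h0 : γ 0 ∈ A.Fix) (h1 : γ 1 ∈ A.Fix) (ρ : ℝ) (hρ : ρ ∈ Icc (0 : ℝ) (2 * Real.pi))
    (v : ℝ) (hv : v ∈ Icc (0 : ℝ) 1) : A.sph γ (PP ρ v) = A.R ρ (γ v) := by
  rw [Act.sph, lat_PP hv]
  rcases eq_or_lt_of_le hv.1 with h | h
  · rw [← h, h0, h0]
  rcases eq_or_lt_of_le hv.2 with h' | h'
  · rw [h', h1, h1]
  rcases eq_or_lt_of_le hρ.2 with h2 | h2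
  · have hpi := Real.pi_pos
    have hs : 0 < Real.sin (Real.pi * v) :=
      Real.sin_pos_of_pos_of_lt_pi (mul_pos hpi h) (by nlinarith)
    have h3 : Complex.exp (ρ * Complex.I) = Complex.exp (((0 : ℝ) : ℂ) * Complex.I) := by
      rw [h2]
      push_cast
      rw [Complex.exp_two_pi_mul_I]
      simp
    have h4 : PP ρ v = PP 0 v := by
      rw [PP, PP, h3]
    rw [h4, lon_PP ⟨le_rfl, by positivity⟩ ⟨h, h'⟩, h2, A.zero, A.per]
  · rw [lon_PP ⟨hρ.1, h2⟩ ⟨h, h'⟩]

private theorem inv_PP {m : R3} (hm : m ∈ S2) : PP (lon m) (lat m) = m ∧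
    lon m ∈ Icc (0 : ℝ) (2 * Real.pi) ∧ lat m ∈ Icc (0 : ℝ) 1 := by
  have hpi := Real.pi_pos
  have hm' : m.1 ^ 2 + m.2.re ^ 2 + m.2.im ^ 2 = 1 := hm
  have hlat : Real.pi * lat m = Real.arccos m.1 := by
    rw [lat]
    field_simp
  have hle : m.1 ^ 2 ≤ 1 := by nlinarith [sq_nonneg m.2.re, sq_nonneg m.2.im]
  have hab := abs_le.1 (abs_le_one_iff_mul_self_le_one.2 (by nlinarith : m.1 * m.1 ≤ 1))
  have hnorm : Real.sqrt (1 - m.1 ^ 2) = ‖m.2‖ := by
    rw [Complex.norm_def, Complex.normSq_apply]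
    congr 1
    nlinarith [hm']
  have hexp : (‖m.2‖ : ℂ) * Complex.exp (lon m * Complex.I) = m.2 := by
    have h1 : Complex.exp (lon m * Complex.I) = Complex.exp (m.2.arg * Complex.I) := by
      rw [lon]
      split_ifs
      · rfl
      · push_cast
        rw [add_mul, Complex.exp_add, Complex.exp_two_pi_mul_I, mul_one]
    rw [h1]
    exact Complex.norm_mul_exp_arg_mul_I m.2
  refine ⟨?_, ?_, ?_⟩
  · rw [PP, hlat, Real.cos_arccos hab.1 hab.2, Real.sin_arccos, hnorm, hexp]
  · rw [lon]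
    have h1 := Complex.neg_pi_lt_arg m.2
    have h2 := Complex.arg_le_pi m.2
    split_ifs with h
    · exact ⟨h, by linarith⟩
    · exact ⟨by linarith, by linarith⟩
  · constructor
    · exact div_nonneg (Real.arccos_nonneg _) hpi.le
    · rw [lat, div_le_one hpi]
      exact Real.arccos_le_pi _

private theorem cont_PP : Continuous fun z : ℝ × ℝ => PP z.1 z.2 := by
  unfold PP
  refine Continuous.prodMk ?_ ?_
  · exact Real.continuous_cos.comp (continuous_const.mul continuous_snd)
  · refine Continuous.mul ?_ ?_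
    · exact Complex.continuous_ofReal.comp
        (Real.continuous_sin.comp (continuous_const.mul continuous_snd))
    · exact Complex.continuous_exp.comp
        ((Complex.continuous_ofReal.comp continuous_fst).mul continuous_const)

theorem m_PP : StPP := by
  refine ⟨mem_PP, fun X _ A γ h0 h1 ρ hρ v hv => sph_PP A γ h0 h1 ρ hρ v hv,
    fun m hm => inv_PP hm, ?_⟩
  intro X Z _ _ A Γ hΓ h0 h1
  -- the quotient map
  let K : Type := ↥(Icc (0 : ℝ) (2 * Real.pi)) × ↥(Icc (0 : ℝ) 1)
  let P : K → ↥S2 := fun k => ⟨PP k.1 k.2, mem_PP _ _⟩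
  have hPc : Continuous P := by
    refine Continuous.subtype_mk ?_ _
    exact cont_PP.comp ((continuous_subtype_val.comp continuous_fst).prodMk
      (continuous_subtype_val.comp continuous_snd))
  have hPp : IsProperMap P := Continuous.isProperMap hPc
  have hqp : IsProperMap (Prod.map (id : Z → Z) P) := isProperMap_id.prodMap hPp
  have hPs : Function.Surjective P := by
    rintro ⟨m, hm⟩
    obtain ⟨e, hl, hv⟩ := inv_PP hm
    exact ⟨(⟨lon m, hl⟩, ⟨lat m, hv⟩), Subtype.ext e⟩
  have hq : Topology.IsQuotientMap (Prod.map (id : Z → Z) P) :=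
    hqp.isClosedMap.isQuotientMap hqp.continuous (Function.surjective_id.prodMap hPs)
  -- the map on `Z × S2`
  have hf : Continuous fun p : Z × ↥S2 => A.sph (fun v => Γ (p.1, v)) p.2 := by
    rw [hq.continuous_iff]
    have e : (fun p : Z × ↥S2 => A.sph (fun v => Γ (p.1, v)) p.2) ∘ (Prod.map (id : Z → Z) P) =
        fun p : Z × K => A.R p.2.1 (Γ (p.1, p.2.2)) := by
      funext p
      exact sph_PP A (fun v => Γ (p.1, v)) (h0 p.1) (h1 p.1) p.2.1 p.2.1.2 p.2.2 p.2.2.2
    rw [e]
    have h2 : Continuous fun p : Z × K => Γ (p.1, (p.2.2 : ℝ)) := by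
      refine hΓ.comp_continuous ?_ ?_
      · exact continuous_fst.prodMk (continuous_subtype_val.comp
          (continuous_snd.comp continuous_snd))
      · intro p
        exact ⟨mem_univ _, p.2.2.2⟩
    exact A.cont.comp ((continuous_subtype_val.comp (continuous_fst.comp continuous_snd)).prodMk h2)
  rw [continuousOn_iff_continuous_domRestrict]
  have hg : Continuous fun p : ↥((univ : Set Z) ×ˢ S2) => ((p.1.1, ⟨p.1.2, p.2.2⟩) : Z × ↥S2) := by
    refine Continuous.prodMk (continuous_fst.comp continuous_subtype_val) ?_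
    exact Continuous.subtype_mk (continuous_snd.comp continuous_subtype_val) _
  exact hf.comp hg

end Pool.Agent.Helper70.T


end

/-! ## Helper99.BI6.M_SQD -/

section

/-!
# Project BI, stage 6 (T), module SQD: homotopies of the square constant on the boundary
-/

set_option autoImplicit false

open scoped Topology unitInterval
open Set Pool.Agent.Helper65.Barb Pool.Agent.Helper18.BI
open Pool.Agent.Helper18.FinR (sqr)
open Pool.Agent.Helper18.BI.R (S2)

namespace Pool.Agent.Helper70.T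

private theorem sin_zero_SQD (x : I) (h : Real.sin (Real.pi * x) = 0) : x = 0 ∨ x = 1 := by
  have hp := Real.pi_pos
  have h0 : (0 : ℝ) ≤ x := x.2.1
  have h1 : (x : ℝ) ≤ 1 := x.2.2
  by_contra hx
  rw [not_or] at hx
  have h2 : (0 : ℝ) < x := lt_of_le_of_ne h0 (fun h => hx.1 (Subtype.ext h.symm))
  have h3 : (x : ℝ) < 1 := lt_of_le_of_ne h1 (fun h => hx.2 (Subtype.ext h))
  have : 0 < Real.sin (Real.pi * x) := by
    apply Real.sin_pos_of_pos_of_lt_pi
    · positivity
    · nlinarith
  linarith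

private theorem sin_nn_SQD (x : I) : 0 ≤ Real.sin (Real.pi * x) := by
  have hp := Real.pi_pos
  have h0 : (0 : ℝ) ≤ x := x.2.1
  have h1 : (x : ℝ) ≤ 1 := x.2.2
  apply Real.sin_nonneg_of_nonneg_of_le_pi
  · positivity
  · nlinarith

private theorem cos_inj_SQD (x y : I) (h : Real.cos (Real.pi * x) = Real.cos (Real.pi * y)) :
    x = y := by
  have hp := Real.pi_pos
  have hm : ∀ z : I, Real.pi * z ∈ Icc (0 : ℝ) Real.pi := by
    intro z
    have h0 : (0 : ℝ) ≤ z := z.2.1
    have h1 : (z : ℝ) ≤ 1 := z.2.2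
    exact ⟨by positivity, by nlinarith⟩
  have h2 := Real.injOn_cos (hm x) (hm y) h
  exact Subtype.ext (mul_left_cancel₀ hp.ne' h2)

private theorem inj_SQD (t t' : Fin 2 → I) (h : sqr t = sqr t') :
    t = t' ∨ (t ∈ Cube.boundary (Fin 2) ∧ t' ∈ Cube.boundary (Fin 2)) := by
  obtain ⟨a, ha⟩ : ∃ a, a = Real.sin (Real.pi * t 0) := ⟨_, rfl⟩
  obtain ⟨b, hb⟩ : ∃ b, b = Real.sin (Real.pi * t 1) := ⟨_, rfl⟩
  obtain ⟨a', ha'⟩ : ∃ a, a = Real.sin (Real.pi * t' 0) := ⟨_, rfl⟩
  obtain ⟨b', hb'⟩ : ∃ b, b = Real.sin (Real.pi * t' 1) := ⟨_, rfl⟩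
  obtain ⟨A, hA⟩ : ∃ a, a = Real.cos (Real.pi * t 0) := ⟨_, rfl⟩
  obtain ⟨B, hB⟩ : ∃ b, b = Real.cos (Real.pi * t 1) := ⟨_, rfl⟩
  obtain ⟨A', hA'⟩ : ∃ a, a = Real.cos (Real.pi * t' 0) := ⟨_, rfl⟩
  obtain ⟨B', hB'⟩ : ∃ b, b = Real.cos (Real.pi * t' 1) := ⟨_, rfl⟩
  have a0 : 0 ≤ a := ha ▸ sin_nn_SQD _
  have b0 : 0 ≤ b := hb ▸ sin_nn_SQD _
  have a0' : 0 ≤ a' := ha' ▸ sin_nn_SQD _
  have b0' : 0 ≤ b' := hb' ▸ sin_nn_SQD _
  have h1 := congrArg Prod.fst h
  have h2 := congrArg (fun z => z.2.re) h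
  have h3 := congrArg (fun z => z.2.im) h
  simp only [sqr, ← ha, ← hb, ← ha', ← hb', ← hA, ← hB, ← hA', ← hB'] at h1 h2 h3
  have hsq : (a * b) ^ 2 = (a' * b') ^ 2 := by nlinarith
  have hab : a * b = a' * b' := by
    rwa [pow_left_inj₀ (by positivity) (by positivity) (by norm_num)] at hsq
  by_cases hz : a * b = 0
  · right
    have key : ∀ s : Fin 2 → I, Real.sin (Real.pi * s 0) * Real.sin (Real.pi * s 1) = 0 →
        s ∈ Cube.boundary (Fin 2) := by
      intro s hs
      rcases mul_eq_zero.mp hs with h | h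
      · exact ⟨0, sin_zero_SQD _ h⟩
      · exact ⟨1, sin_zero_SQD _ h⟩
    refine ⟨key t (by rw [← ha, ← hb]; exact hz), key t' (by rw [← ha', ← hb', ← hab]; exact hz)⟩
  · left
    have hz' : a' * b' ≠ 0 := hab ▸ hz
    have hBB : B = B' := by
      have e : a * b * B = a * b * B' := by
        have : a * b * B = a' * b' * B' := by linarith
        rw [this, hab]
      exact mul_left_cancel₀ hz e
    have h11 : t 1 = t' 1 := cos_inj_SQD _ _ (by rw [← hB, ← hB']; exact hBB)
    have hbb : b = b' := by rw [hb, hb', h11]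
    have hb1 : b ≠ 0 := fun h => hz (by rw [h, mul_zero])
    have ha1 : a ≠ 0 := fun h => hz (by rw [h, zero_mul])
    have haa : a = a' := by
      rw [← hbb] at hab
      exact mul_right_cancel₀ hb1 hab
    have hAA : A = A' := by
      rw [← hbb, ← haa] at h3
      have e : (a * b ^ 2) * A = (a * b ^ 2) * A' := by linarith
      exact mul_left_cancel₀ (mul_ne_zero ha1 (pow_ne_zero 2 hb1)) e
    have h00 : t 0 = t' 0 := cos_inj_SQD _ _ (by rw [← hA, ← hA']; exact hAA)
    funext i
    fin_cases i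
    · exact h00
    · exact h11

private theorem cont_SQD : Continuous sqr := by
  unfold Pool.Agent.Helper18.FinR.sqr
  refine Continuous.prodMk (by fun_prop) ?_
  have : (fun t : Fin 2 → I =>
      (⟨-(2 * Real.sin (Real.pi * t 0) * Real.sin (Real.pi * t 1) * Real.cos (Real.pi * t 1)),
      2 * Real.sin (Real.pi * t 0) * Real.cos (Real.pi * t 0) * Real.sin (Real.pi * t 1) ^ 2⟩ :
        ℂ)) = fun t => Complex.equivRealProdCLM.symm
      (-(2 * Real.sin (Real.pi * t 0) * Real.sin (Real.pi * t 1) * Real.cos (Real.pi * t 1)),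
      2 * Real.sin (Real.pi * t 0) * Real.cos (Real.pi * t 0) * Real.sin (Real.pi * t 1) ^ 2) := by
    funext t
    apply Complex.ext
    · simp
    · simp
  rw [this]
  exact Complex.equivRealProdCLM.symm.continuous.comp (by fun_prop)

/-- MODULE SQD. -/
theorem m_SQD : StSQD := by
  intro X _ F hF hbd
  obtain ⟨-, hS, -, hsurj, -⟩ := Helper18.BI.R.m_MQ
  have hmem : ∀ t, sqr t ∈ S2 := fun t => hS (t 0) (t 1)
  have hex : ∀ m : R3, m ∈ S2 → ∃ t, sqr t = m := by
    intro m hm
    obtain ⟨x, hx, y, hy, hxy⟩ := hsurj m hm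
    exact ⟨![⟨x, hx⟩, ⟨y, hy⟩], hxy⟩
  classical
  let T : R3 → (Fin 2 → I) := fun m => if h : ∃ t, sqr t = m then h.choose else fun _ => 0
  have hT : ∀ t, sqr (T (sqr t)) = sqr t := by
    intro t
    have h : ∃ t', sqr t' = sqr t := ⟨t, rfl⟩
    simp only [T, dif_pos h]
    exact h.choose_spec
  have hFT : ∀ u ∈ Icc (0 : ℝ) 1, ∀ t, F (u, T (sqr t)) = F (u, t) := by
    intro u hu t
    rcases inj_SQD _ _ (hT t) with h | h
    · rw [h]
    · exact hbd u hu _ h.1 _ h.2
  refine ⟨fun z => F (z.1, T z.2), ?_, hFT⟩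
  let q : Icc (0 : ℝ) 1 × (Fin 2 → I) → Icc (0 : ℝ) 1 × S2 := fun z => (z.1, ⟨sqr z.2, hmem z.2⟩)
  have hqc : Continuous q :=
    continuous_fst.prodMk ((cont_SQD.comp continuous_snd).subtype_mk _)
  have hqs : Function.Surjective q := by
    rintro ⟨u, m, hm⟩
    obtain ⟨t, ht⟩ := hex m hm
    exact ⟨(u, t), Prod.ext rfl (Subtype.ext ht)⟩
  have hq : Topology.IsQuotientMap q := (hqc.isClosedMap).isQuotientMap hqc hqs
  let g : Icc (0 : ℝ) 1 × S2 → X := fun z => F ((z.1 : ℝ), T z.2)
  have hg : Continuous g := by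
    rw [hq.continuous_iff]
    have e : g ∘ q = fun z : Icc (0 : ℝ) 1 × (Fin 2 → I) => F ((z.1 : ℝ), z.2) := by
      funext z
      exact hFT z.1 z.1.2 z.2
    rw [e]
    exact hF.comp_continuous (by fun_prop) (fun z => ⟨z.1.2, mem_univ _⟩)
  rw [continuousOn_iff_continuous_domRestrict]
  have e : (Icc (0 : ℝ) 1 ×ˢ S2).domRestrict (fun z : ℝ × R3 => F (z.1, T z.2)) =
      g ∘ fun z : (Icc (0 : ℝ) 1 ×ˢ S2 : Set (ℝ × R3)) =>
        ((⟨z.1.1, z.2.1⟩ : Icc (0 : ℝ) 1), (⟨z.1.2, z.2.2⟩ : S2)) := rfl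
  rw [e]
  refine hg.comp (Continuous.prodMk ?_ ?_)
  · exact (continuous_fst.comp continuous_subtype_val).subtype_mk _
  · exact (continuous_snd.comp continuous_subtype_val).subtype_mk _

end Pool.Agent.Helper70.T


end
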