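import Pool.Agent.Helper18.BI.R.FinDefs
import Pool.Agent.Helper65.Barb.Defs
import Pool.Agent.Helper70.BI.C.P15

/-!
# Project BI (MP_8e98f2_gt): collected modules, part 78

The contents of the modules
* Helper70.BI.T.M_MUL
* Helper65.Barb.Main1
* Helper65.Barb.Main2
* Helper65.Barb.Sph

in one file, so that the whole proof builds in a short time.
-/

namespace Pool.Agent.Helper18.BI
end Pool.Agent.Helper18.BI

namespace Pool.Agent.Helper18.BI.R
end Pool.Agent.Helper18.BI.R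

namespace Pool.Agent.Helper18.FinR
end Pool.Agent.Helper18.FinR

namespace Pool.Agent.Helper65.Barb
end Pool.Agent.Helper65.Barb


/-! ## Helper70.BI.T.M_MUL -/

section

/-!
# Project BI, stage 6 (T), module MUL: concatenation of swept spheres
-/

set_option autoImplicit false

open scoped Topology unitInterval Manifold ContDiff ComplexConjugate
open Set Pool.Agent.Helper65.Barb Pool.Agent.Helper18.BI
open Pool.Agent.Helper18.FinR (sqr)
open Pool.Agent.Helper18.BI.R (S2)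

namespace Pool.Agent.Helper70.T

section
variable {X : Type} [TopologicalSpace X]

theorem hcl_eq_of {y : X} {f g : GenLoop (Fin 2) X y} (F : I × (Fin 2 → I) → X)
    (hF : Continuous F) (h0 : ∀ t, F (0, t) = f t) (h1 : ∀ t, F (1, t) = g t)
    (hb : ∀ u, ∀ t ∈ Cube.boundary (Fin 2), F (u, t) = y) : hcl f = hcl g := by
  refine Quotient.sound ⟨⟨⟨⟨F, hF⟩, h0, h1⟩, ?_⟩⟩
  intro u t ht
  show F (u, t) = f t
  rw [hb u t ht]
  exact (f.2 t ht).symm

theorem Hfree.mk' {f g : (Fin 2 → I) → X} (F : I × (Fin 2 → I) → X) (hF : Continuous F)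
    (h0 : ∀ t, F (0, t) = f t) (h1 : ∀ t, F (1, t) = g t)
    (hb : ∀ u, ∀ t ∈ Cube.boundary (Fin 2), ∀ t' ∈ Cube.boundary (Fin 2), F (u, t) = F (u, t')) :
    Hfree f g := by
  refine ⟨fun z => F (projIcc 0 1 zero_le_one z.1, z.2), ?_, ?_, ?_, ?_⟩
  · exact (hF.comp ((continuous_projIcc.comp continuous_fst).prodMk continuous_snd)).continuousOn
  · intro t
    show F (projIcc 0 1 zero_le_one 0, t) = f t
    rw [projIcc_left]
    exact h0 t
  · intro t
    show F (projIcc 0 1 zero_le_one 1, t) = g t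
    rw [projIcc_right]
    exact h1 t
  · intro u _ t ht t' ht'
    exact hb _ t ht t' ht'

theorem Hfree.trans {f g k : (Fin 2 → I) → X} (h : Hfree f g) (h' : Hfree g k) : Hfree f k := by
  obtain ⟨F, c, a0, a1, ab⟩ := h
  obtain ⟨F', c', b0, b1, bb⟩ := h'
  have cc : Continuous fun z : I × (Fin 2 → I) => F (z.1, z.2) :=
    c.comp_continuous (by fun_prop) fun z => ⟨z.1.2, mem_univ _⟩
  have cc' : Continuous fun z : I × (Fin 2 → I) => F' (z.1, z.2) :=
    c'.comp_continuous (by fun_prop) fun z => ⟨z.1.2, mem_univ _⟩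
  let j : I × (Fin 2 → I) → I := fun z => projIcc 0 1 zero_le_one (2 * (z.1 : ℝ))
  let j' : I × (Fin 2 → I) → I := fun z => projIcc 0 1 zero_le_one (2 * (z.1 : ℝ) - 1)
  have cj : Continuous j := continuous_projIcc.comp (by fun_prop)
  have cj' : Continuous j' := continuous_projIcc.comp (by fun_prop)
  refine Hfree.mk' (fun z => if (z.1 : ℝ) ≤ 1 / 2 then F (j z, z.2) else F' (j' z, z.2)) ?_ ?_ ?_ ?_
  · refine Continuous.if_le (cc.comp (cj.prodMk continuous_snd)) (cc'.comp (cj'.prodMk continuous_snd))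
      (by fun_prop) continuous_const ?_
    intro z hz
    have e1 : (j z : ℝ) = 1 := by
      show ((projIcc 0 1 zero_le_one (2 * (z.1 : ℝ)) : I) : ℝ) = 1
      rw [hz]
      norm_num
    have e2 : (j' z : ℝ) = 0 := by
      show ((projIcc 0 1 zero_le_one (2 * (z.1 : ℝ) - 1) : I) : ℝ) = 0
      rw [hz]
      norm_num
    show F (j z, z.2) = F' (j' z, z.2)
    rw [e1, e2, a1, b0]
  · intro t
    have e1 : (j (0, t) : ℝ) = 0 := by
      show ((projIcc 0 1 zero_le_one (2 * ((0 : I) : ℝ)) : I) : ℝ) = 0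
      norm_num
    show (if ((0 : I) : ℝ) ≤ 1 / 2 then F (j (0, t), t) else F' (j' (0, t), t)) = f t
    rw [if_pos (by norm_num), e1, a0]
  · intro t
    have e1 : (j' (1, t) : ℝ) = 1 := by
      show ((projIcc 0 1 zero_le_one (2 * ((1 : I) : ℝ) - 1) : I) : ℝ) = 1
      norm_num
    show (if ((1 : I) : ℝ) ≤ 1 / 2 then F (j (1, t), t) else F' (j' (1, t), t)) = k t
    rw [if_neg (by norm_num), e1, b1]
  · intro u t ht t' ht'
    show (if (u : ℝ) ≤ 1 / 2 then F (j (u, t), t) else F' (j' (u, t), t)) =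
      if (u : ℝ) ≤ 1 / 2 then F (j (u, t'), t') else F' (j' (u, t'), t')
    split_ifs
    · exact ab _ (j (u, t)).2 t ht t' ht'
    · exact bb _ (j' (u, t)).2 t ht t' ht'

/-- the value of the swept sphere, with two angles -/
noncomputable def TS (A : Act X) (γ : ℝ → X) (a b v t : ℝ) : X :=
  if t ≤ 1 / 2 then (if v ≤ 1 / 2 then A.R a (γ v) else A.R b (γ v)) else γ v

variable {A : Act X} {γ : ℝ → X}

theorem cont_TS {Z : Type} [TopologicalSpace Z] {a b h t : Z → ℝ} (ha : Continuous a)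
    (hb : Continuous b) (hh : Continuous h) (ht : Continuous t) (hI : ∀ z, h z ∈ Icc (0 : ℝ) 1)
    (hγ : ContinuousOn γ (Icc (0 : ℝ) 1))
    (c1 : ∀ z, t z = 1 / 2 → h z ≤ 1 / 2 → A.R (a z) (γ (h z)) = γ (h z))
    (c2 : ∀ z, t z = 1 / 2 → ¬ h z ≤ 1 / 2 → A.R (b z) (γ (h z)) = γ (h z))
    (c3 : ∀ z, h z = 1 / 2 → A.R (a z) (γ (h z)) = A.R (b z) (γ (h z))) :
    Continuous fun z => TS A γ (a z) (b z) (h z) (t z) := by
  have hγh : Continuous fun z => γ (h z) := hγ.comp_continuous hh hI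
  refine Continuous.if_le (Continuous.if_le (A.cont.comp (ha.prodMk hγh))
    (A.cont.comp (hb.prodMk hγh)) hh continuous_const c3) hγh ht continuous_const ?_
  intro z hz
  show (if h z ≤ 1 / 2 then A.R (a z) (γ (h z)) else A.R (b z) (γ (h z))) = γ (h z)
  split_ifs with h1
  · exact c1 z hz h1
  · exact c2 z hz h1

/-! ### the profile functions -/

theorem cont_lam : Continuous lam := by unfold lam; fun_prop
theorem cont_rho : Continuous rho := by unfold rho; fun_prop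
theorem cont_tau : Continuous tau := by unfold tau; fun_prop

theorem lam_mem {θ : ℝ} (h0 : 0 ≤ θ) (h1 : θ ≤ 1) : lam θ ∈ Icc (0 : ℝ) 1 := by
  unfold lam
  refine ⟨le_min zero_le_one (le_min (by linarith) (by linarith)), min_le_left _ _⟩

theorem tau_mem {t : ℝ} (h0 : 0 ≤ t) (h1 : t ≤ 1) : tau t ∈ Icc (0 : ℝ) 1 := by
  unfold tau
  refine ⟨le_min (by linarith) (by linarith), ?_⟩
  rcases le_total t (1 / 2) with h | h
  · exact (min_le_left _ _).trans (by linarith)
  · exact (min_le_right _ _).trans (by linarith)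

theorem lam_mid {θ : ℝ} (h0 : 1 / 3 ≤ θ) (h1 : θ ≤ 2 / 3) : lam θ = 1 := by
  unfold lam
  rw [min_eq_left]
  exact le_min (by linarith) (by linarith)

theorem lam_zero : lam 0 = 0 := by unfold lam; norm_num
theorem lam_one : lam 1 = 0 := by unfold lam; norm_num
theorem tau_half : tau (1 / 2) = 1 := by unfold tau; norm_num
theorem tau_zero : tau 0 = 0 := by unfold tau; norm_num
theorem tau_one : tau 1 = 0 := by unfold tau; norm_num

theorem rho_lo {θ : ℝ} (h : θ ≤ 1 / 3) : rho θ = 0 := by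
  unfold rho
  rw [max_eq_left, mul_zero]
  exact (min_le_right _ _).trans (by linarith)

theorem rho_hi {θ : ℝ} (h : 2 / 3 ≤ θ) : rho θ = 2 * Real.pi := by
  unfold rho
  rw [min_eq_left (by linarith), max_eq_right zero_le_one, mul_one]

theorem rho_mem (θ : ℝ) : rho θ ∈ Icc (0 : ℝ) (2 * Real.pi) := by
  have hp := Real.pi_pos
  unfold rho
  constructor
  · positivity
  · have h1 : max 0 (min 1 (3 * θ - 1)) ≤ 1 := max_le zero_le_one (min_le_left _ _)
    nlinarith

/-- the condition on the angles and the height at the middle line -/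
def Gd (a b l : ℝ) : Prop :=
  0 ≤ l ∧ l ≤ 1 ∧ (a = 0 ∨ a = 2 * Real.pi ∨ 1 / 2 ≤ l) ∧ (b = 0 ∨ b = 2 * Real.pi ∨ l = 1)

theorem R_fix {a : ℝ} (h : a = 0 ∨ a = 2 * Real.pi) (x : X) : A.R a x = x := by
  rcases h with rfl | rfl
  · exact A.zero x
  · exact A.per x

theorem gd_lo (hf : γ (1 / 2) ∈ A.Fix) {a b l : ℝ} (h : Gd a b l) (hl : l ≤ 1 / 2) :
    A.R a (γ l) = γ l := by
  obtain ⟨-, -, h1, -⟩ := h
  rcases h1 with h1 | h1 | h1
  · exact R_fix (Or.inl h1) _
  · exact R_fix (Or.inr h1) _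
  · rw [le_antisymm hl h1]
    exact hf a

theorem gd_hi (h1f : γ 1 ∈ A.Fix) {a b l : ℝ} (h : Gd a b l) : A.R b (γ l) = γ l := by
  obtain ⟨-, -, -, h1⟩ := h
  rcases h1 with h1 | h1 | h1
  · exact R_fix (Or.inl h1) _
  · exact R_fix (Or.inr h1) _
  · rw [h1]
    exact h1f b

/-- the square of the path with given angle and height functions -/
noncomputable def tsq (A : Act X) (γ : ℝ → X) (a b l : ℝ → ℝ) (t : Fin 2 → I) : X :=
  TS A γ (a (t 0)) (b (t 0)) (l (t 0) * tau (t 1)) (t 1)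

theorem mul_tau_mem {l : ℝ} (h0 : 0 ≤ l) (h1 : l ≤ 1) (t : I) : l * tau t ∈ Icc (0 : ℝ) 1 := by
  have h := tau_mem t.2.1 t.2.2
  exact ⟨mul_nonneg h0 h.1, mul_le_one₀ h1 h.1 h.2⟩

theorem mem_bd {t : Fin 2 → I} (h : t ∈ Cube.boundary (Fin 2)) :
    t 0 = 0 ∨ t 0 = 1 ∨ t 1 = 0 ∨ t 1 = 1 := by
  obtain ⟨i, hi⟩ := h
  fin_cases i
  · rcases hi with hi | hi
    · exact Or.inl hi
    · exact Or.inr (Or.inl hi)
  · rcases hi with hi | hi
    · exact Or.inr (Or.inr (Or.inl hi))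
    · exact Or.inr (Or.inr (Or.inr hi))

theorem mul_tau_bd {l : ℝ → ℝ} (h0 : l 0 = 0) (h1 : l 1 = 0) {t : Fin 2 → I}
    (ht : t ∈ Cube.boundary (Fin 2)) : l (t 0) * tau (t 1) = 0 := by
  rcases mem_bd ht with h | h | h | h <;> rw [h]
  · rw [Icc.coe_zero, h0, zero_mul]
  · rw [Icc.coe_one, h1, zero_mul]
  · rw [Icc.coe_zero, tau_zero, mul_zero]
  · rw [Icc.coe_one, tau_one, mul_zero]

theorem TS_zero (hf0 : γ 0 ∈ A.Fix) (a b t : ℝ) : TS A γ a b 0 t = γ 0 := by
  unfold TS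
  rw [if_pos (show (0 : ℝ) ≤ 1 / 2 by norm_num)]
  split_ifs
  · exact hf0 a
  · rfl

theorem cont_tsq {Z : Type} [TopologicalSpace Z] {a b l : Z → ℝ} {s : Z → I} (ha : Continuous a)
    (hb : Continuous b) (hl : Continuous l) (hs : Continuous s) (hγ : ContinuousOn γ (Icc (0 : ℝ) 1))
    (hf : γ (1 / 2) ∈ A.Fix) (h1f : γ 1 ∈ A.Fix) (hG : ∀ z, Gd (a z) (b z) (l z)) :
    Continuous fun z => TS A γ (a z) (b z) (l z * tau (s z)) (s z) := by
  refine cont_TS ha hb (hl.mul (cont_tau.comp (continuous_subtype_val.comp hs)))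
    (continuous_subtype_val.comp hs) (fun z => mul_tau_mem (hG z).1 (hG z).2.1 _) hγ ?_ ?_ ?_
  · intro z hz h
    have e : l z * tau (s z) = l z := by rw [hz, tau_half, mul_one]
    rw [e] at h ⊢
    exact gd_lo hf (hG z) h
  · intro z hz h
    have e : l z * tau (s z) = l z := by rw [hz, tau_half, mul_one]
    rw [e]
    exact gd_hi h1f (hG z)
  · intro z hz
    show A.R _ (γ (l z * tau (s z))) = A.R _ (γ (l z * tau (s z)))
    rw [hz]
    exact (hf _).trans (hf _).symm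

/-- the based square -/
noncomputable def gsq {y₀ : X} (A : Act X) (γ : ℝ → X) (a b l : ℝ → ℝ)
    (ha : Continuous a) (hb : Continuous b) (hl : Continuous l) (l0 : l 0 = 0) (l1 : l 1 = 0)
    (hγ : ContinuousOn γ (Icc (0 : ℝ) 1)) (h0 : γ 0 = y₀) (hf0 : γ 0 ∈ A.Fix)
    (hf : γ (1 / 2) ∈ A.Fix) (h1f : γ 1 ∈ A.Fix)
    (hG : ∀ θ ∈ Icc (0 : ℝ) 1, Gd (a θ) (b θ) (l θ)) : GenLoop (Fin 2) X y₀ :=
  ⟨⟨tsq A γ a b l, cont_tsq (ha.comp (by fun_prop)) (hb.comp (by fun_prop))
    (hl.comp (by fun_prop)) (by fun_prop) hγ hf h1f fun t => hG _ (t 0).2⟩, by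
    intro t ht
    show TS A γ _ _ (l (t 0) * tau (t 1)) _ = y₀
    rw [mul_tau_bd l0 l1 ht, TS_zero hf0, h0]⟩

theorem gd_conv {a b l a' b' l' : ℝ → ℝ} {y₀ : X}
    (ha : Continuous a) (hb : Continuous b) (hl : Continuous l) (l0 : l 0 = 0) (l1 : l 1 = 0)
    (ha' : Continuous a') (hb' : Continuous b') (hl' : Continuous l') (l0' : l' 0 = 0)
    (l1' : l' 1 = 0) (hγ : ContinuousOn γ (Icc (0 : ℝ) 1)) (h0 : γ 0 = y₀) (hf0 : γ 0 ∈ A.Fix)
    (hf : γ (1 / 2) ∈ A.Fix) (h1f : γ 1 ∈ A.Fix)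
    (hG : ∀ u ∈ Icc (0 : ℝ) 1, ∀ θ ∈ Icc (0 : ℝ) 1, Gd ((1 - u) * a θ + u * a' θ)
      ((1 - u) * b θ + u * b' θ) ((1 - u) * l θ + u * l' θ)) {f g : GenLoop (Fin 2) X y₀}
    (hfe : ∀ t, f t = tsq A γ a b l t) (hge : ∀ t, g t = tsq A γ a' b' l' t) : hcl f = hcl g := by
  refine hcl_eq_of (fun z => TS A γ ((1 - (z.1 : ℝ)) * a (z.2 0) + z.1 * a' (z.2 0))
    ((1 - (z.1 : ℝ)) * b (z.2 0) + z.1 * b' (z.2 0))
    (((1 - (z.1 : ℝ)) * l (z.2 0) + z.1 * l' (z.2 0)) * tau (z.2 1)) (z.2 1)) ?_ ?_ ?_ ?_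
  · exact cont_tsq (by fun_prop) (by fun_prop) (by fun_prop) (by fun_prop) hγ hf h1f
      fun z => hG _ z.1.2 _ (z.2 0).2
  · intro t
    rw [hfe]
    simp only [tsq, Icc.coe_zero, sub_zero, one_mul, zero_mul, add_zero]
  · intro t
    rw [hge]
    simp only [tsq, Icc.coe_one, sub_self, one_mul, zero_mul, zero_add]
  · intro u t ht
    have e : ((1 - (u : ℝ)) * l (t 0) + u * l' (t 0)) * tau (t 1) = 0 := by
      have e1 := mul_tau_bd l0 l1 ht
      have e2 := mul_tau_bd l0' l1' ht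
      calc ((1 - (u : ℝ)) * l (t 0) + u * l' (t 0)) * tau (t 1)
          = (1 - (u : ℝ)) * (l (t 0) * tau (t 1)) + u * (l' (t 0) * tau (t 1)) := by ring
        _ = 0 := by rw [e1, e2]; ring
    show TS A γ _ _ (((1 - (u : ℝ)) * l (t 0) + u * l' (t 0)) * tau (t 1)) _ = y₀
    rw [e, TS_zero hf0, h0]

/-! ### the steps -/

/-- the height function with a longer plateau -/
noncomputable def lam2 (θ : ℝ) : ℝ := min 1 (min (6 * θ) (6 - 6 * θ))

/-- the height function of the concatenation -/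
noncomputable def lf (θ : ℝ) : ℝ := max (lam (2 * θ) / 2) (lam (2 * θ - 1))

theorem cont_lam2 : Continuous lam2 := by unfold lam2; fun_prop

theorem cont_lf : Continuous lf := by
  have h := cont_lam
  unfold lf
  fun_prop

theorem lam2_mem {θ : ℝ} (h0 : 0 ≤ θ) (h1 : θ ≤ 1) : lam2 θ ∈ Icc (0 : ℝ) 1 := by
  unfold lam2
  refine ⟨le_min zero_le_one (le_min (by linarith) (by linarith)), min_le_left _ _⟩

theorem lam2_mid {θ : ℝ} (h0 : 1 / 6 ≤ θ) (h1 : θ ≤ 5 / 6) : lam2 θ = 1 := by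
  unfold lam2
  rw [min_eq_left]
  exact le_min (by linarith) (by linarith)

theorem lam_neg {θ : ℝ} (h : θ ≤ 0) : lam θ ≤ 0 := by
  unfold lam
  exact (min_le_right _ _).trans ((min_le_left _ _).trans (by linarith))

theorem lam_neg' {θ : ℝ} (h : 1 ≤ θ) : lam θ ≤ 0 := by
  unfold lam
  exact (min_le_right _ _).trans ((min_le_right _ _).trans (by linarith))

theorem lf_lo {θ : ℝ} (h0 : 0 ≤ θ) (h : θ ≤ 1 / 2) : lf θ = lam (2 * θ) / 2 := by
  unfold lf
  rw [max_eq_left]
  have h1 := (lam_mem (θ := 2 * θ) (by linarith) (by linarith)).1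
  have h2 := lam_neg (θ := 2 * θ - 1) (by linarith)
  linarith

theorem lf_hi {θ : ℝ} (h : 1 / 2 ≤ θ) (h1 : θ ≤ 1) : lf θ = lam (2 * θ - 1) := by
  unfold lf
  rw [max_eq_right]
  have h1 := (lam_mem (θ := 2 * θ - 1) (by linarith) (by linarith)).1
  have h2 := lam_neg' (θ := 2 * θ) (by linarith)
  linarith

theorem lf_mem {θ : ℝ} (h0 : 0 ≤ θ) (h1 : θ ≤ 1) : lf θ ∈ Icc (0 : ℝ) 1 := by
  rcases le_total θ (1 / 2) with h | h
  · rw [lf_lo h0 h]
    have := lam_mem (θ := 2 * θ) (by linarith) (by linarith)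
    exact ⟨by linarith [this.1], by linarith [this.2]⟩
  · rw [lf_hi h h1]
    exact lam_mem (by linarith) (by linarith)

theorem conv_mem {u x y : ℝ} (hu : u ∈ Icc (0 : ℝ) 1) (hx : x ∈ Icc (0 : ℝ) 1)
    (hy : y ∈ Icc (0 : ℝ) 1) : 0 ≤ (1 - u) * x + u * y ∧ (1 - u) * x + u * y ≤ 1 := by
  obtain ⟨u0, u1⟩ := hu
  obtain ⟨x0, x1⟩ := hx
  obtain ⟨y0, y1⟩ := hy
  constructor
  · exact add_nonneg (mul_nonneg (by linarith) x0) (mul_nonneg u0 y0)
  · nlinarith

theorem conv_self (u x : ℝ) : (1 - u) * x + u * x = x := by ring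

theorem gd_B {u θ : ℝ} (hu : u ∈ Icc (0 : ℝ) 1) (hθ : θ ∈ Icc (0 : ℝ) 1) :
    Gd ((1 - u) * rho θ + u * rho θ) ((1 - u) * rho θ + u * rho θ)
      ((1 - u) * lam θ + u * lam2 θ) := by
  rw [conv_self]
  obtain ⟨a1, a2⟩ := conv_mem hu (lam_mem hθ.1 hθ.2) (lam2_mem hθ.1 hθ.2)
  refine ⟨a1, a2, ?_, ?_⟩
  · rcases le_total θ (1 / 3) with h | h
    · exact Or.inl (rho_lo h)
    rcases le_total (2 / 3) θ with h' | h'
    · exact Or.inr (Or.inl (rho_hi h'))
    · rw [lam_mid h h', lam2_mid (by linarith) (by linarith), conv_self]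
      exact Or.inr (Or.inr (by norm_num))
  · rcases le_total θ (1 / 3) with h | h
    · exact Or.inl (rho_lo h)
    rcases le_total (2 / 3) θ with h' | h'
    · exact Or.inr (Or.inl (rho_hi h'))
    · rw [lam_mid h h', lam2_mid (by linarith) (by linarith), conv_self]
      exact Or.inr (Or.inr rfl)

theorem gd_C {u θ : ℝ} (hu : u ∈ Icc (0 : ℝ) 1) (hθ : θ ∈ Icc (0 : ℝ) 1) :
    Gd ((1 - u) * rho θ + u * rho (2 * θ)) ((1 - u) * rho θ + u * rho (2 * θ - 1))
      ((1 - u) * lam2 θ + u * lam2 θ) := by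
  rw [conv_self u (lam2 θ)]
  obtain ⟨a1, a2⟩ := lam2_mem hθ.1 hθ.2
  refine ⟨a1, a2, ?_, ?_⟩
  · rcases le_total θ (1 / 6) with h | h
    · left
      rw [rho_lo (by linarith), rho_lo (by linarith), conv_self]
    rcases le_total (5 / 6) θ with h' | h'
    · right; left
      rw [rho_hi (by linarith), rho_hi (by linarith), conv_self]
    · rw [lam2_mid h h']
      exact Or.inr (Or.inr (by norm_num))
  · rcases le_total θ (1 / 6) with h | h
    · left
      rw [rho_lo (by linarith), rho_lo (by linarith), conv_self]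
    rcases le_total (5 / 6) θ with h' | h'
    · right; left
      rw [rho_hi (by linarith), rho_hi (by linarith), conv_self]
    · rw [lam2_mid h h']
      exact Or.inr (Or.inr rfl)

theorem gd_D {u θ : ℝ} (hu : u ∈ Icc (0 : ℝ) 1) (hθ : θ ∈ Icc (0 : ℝ) 1) :
    Gd ((1 - u) * rho (2 * θ) + u * rho (2 * θ)) ((1 - u) * rho (2 * θ - 1) + u * rho (2 * θ - 1))
      ((1 - u) * lam2 θ + u * lf θ) := by
  rw [conv_self, conv_self]
  obtain ⟨a1, a2⟩ := conv_mem hu (lam2_mem hθ.1 hθ.2) (lf_mem hθ.1 hθ.2)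
  refine ⟨a1, a2, ?_, ?_⟩
  · rcases le_total θ (1 / 6) with h | h
    · exact Or.inl (rho_lo (by linarith))
    rcases le_total (1 / 3) θ with h' | h'
    · exact Or.inr (Or.inl (rho_hi (by linarith)))
    · right; right
      rw [lam2_mid h (by linarith), lf_lo hθ.1 (by linarith), lam_mid (by linarith) (by linarith)]
      linarith [hu.1, hu.2]
  · rcases le_total θ (2 / 3) with h | h
    · exact Or.inl (rho_lo (by linarith))
    rcases le_total (5 / 6) θ with h' | h'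
    · exact Or.inr (Or.inl (rho_hi (by linarith)))
    · right; right
      rw [lam2_mid (by linarith) h', lf_hi (by linarith) hθ.2, lam_mid (by linarith) (by linarith),
        conv_self]

theorem two_pi_gd {θ : ℝ} (hθ : θ ∈ Icc (0 : ℝ) 1) : Gd (2 * Real.pi) (rho θ) (lam θ) := by
  obtain ⟨a1, a2⟩ := lam_mem hθ.1 hθ.2
  refine ⟨a1, a2, Or.inr (Or.inl rfl), ?_⟩
  rcases le_total θ (1 / 3) with h | h
  · exact Or.inl (rho_lo h)
  rcases le_total (2 / 3) θ with h' | h'
  · exact Or.inr (Or.inl (rho_hi h'))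
  · exact Or.inr (Or.inr (lam_mid h h'))

theorem rho_gd {θ : ℝ} (hθ : θ ∈ Icc (0 : ℝ) 1) : Gd (rho θ) (rho θ) (lam θ) := by
  have h := gd_B (u := 0) ⟨le_rfl, zero_le_one⟩ hθ
  simpa using h

/-- the sphere of a path in the parametrization `qq` -/
theorem sph_qq (hPP : StPP) (h0 : γ 0 ∈ A.Fix) (h1 : γ 1 ∈ A.Fix) (t : Fin 2 → I) :
    A.sph γ (qq t) = tsq A γ rho rho lam t := by
  have hv := mul_tau_mem (lam_mem (t 0).2.1 (t 0).2.2).1 (lam_mem (t 0).2.1 (t 0).2.2).2 (t 1)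
  unfold qq tsq TS
  split_ifs with h h'
  · exact hPP.2.1 X A γ h0 h1 _ (rho_mem _) _ hv
  · exact hPP.2.1 X A γ h0 h1 _ (rho_mem _) _ hv
  · rw [hPP.2.1 X A γ h0 h1 0 ⟨le_rfl, by positivity⟩ _ hv]
    exact A.zero _

theorem sph_base (hPP : StPP) (h0 : γ 0 ∈ A.Fix) (h1 : γ 1 ∈ A.Fix) : A.sph γ (1, 0) = γ 0 := by
  have h := hPP.2.1 X A γ h0 h1 0 ⟨le_rfl, by positivity⟩ 0 ⟨le_rfl, zero_le_one⟩
  have e : PP 0 0 = (1, 0) := by
    unfold PP
    simp
  rw [e] at h
  rw [h]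
  exact A.zero _

theorem sph_cont (hPP : StPP) (hγ : ContinuousOn γ (Icc (0 : ℝ) 1)) (h0 : γ 0 ∈ A.Fix)
    (h1 : γ 1 ∈ A.Fix) : ContinuousOn (A.sph γ) S2 := by
  have h := hPP.2.2.2 X Unit A (fun z => γ z.2)
    (hγ.comp continuous_snd.continuousOn fun z hz => hz.2) (fun _ => h0) (fun _ => h1)
  have h' : ContinuousOn (fun m : R3 => ((), m)) S2 := by fun_prop
  exact h.comp h' fun m hm => ⟨mem_univ _, hm⟩

theorem hfree_qq_sqr (hPP : StPP) (hSQR : StSQR) (hγ : ContinuousOn γ (Icc (0 : ℝ) 1))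
    (h0 : γ 0 ∈ A.Fix) (h1 : γ 1 ∈ A.Fix) :
    ∃ F : I × (Fin 2 → I) → X, Continuous F ∧ (∀ t, F (0, t) = tsq A γ rho rho lam t) ∧
      (∀ t, F (1, t) = A.sph γ (sqr t)) ∧ ∀ u, ∀ t ∈ Cube.boundary (Fin 2), F (u, t) = γ 0 := by
  obtain ⟨G, g1, g2, g3, g4, g5⟩ := hSQR
  have gc : Continuous fun z : I × (Fin 2 → I) => G (z.1, z.2) :=
    g1.comp_continuous (by fun_prop) fun z => ⟨z.1.2, mem_univ _⟩
  refine ⟨fun z => A.sph γ (G (z.1, z.2)), (sph_cont hPP hγ h0 h1).comp_continuous gc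
    fun z => g2 _ z.1.2 _, ?_, ?_, ?_⟩
  · intro t
    show A.sph γ (G (((0 : I) : ℝ), t)) = _
    rw [Icc.coe_zero, g3, sph_qq hPP h0 h1]
  · intro t
    show A.sph γ (G (((1 : I) : ℝ), t)) = _
    rw [Icc.coe_one, g4]
  · intro u t ht
    show A.sph γ (G ((u : ℝ), t)) = _
    rw [g5 _ u.2 t ht, sph_base hPP h0 h1]

theorem hcl_qq (hPP : StPP) (hSQR : StSQR) {y₀ : X} (hγ : ContinuousOn γ (Icc (0 : ℝ) 1))
    (h00 : γ 0 = y₀) (h0 : γ 0 ∈ A.Fix) (h1 : γ 1 ∈ A.Fix) {f g : GenLoop (Fin 2) X y₀}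
    (hf : ∀ t, f t = A.sph γ (sqr t)) (hg : ∀ t, g t = tsq A γ rho rho lam t) :
    hcl f = hcl g := by
  obtain ⟨F, f1, f2, f3, f4⟩ := hfree_qq_sqr hPP hSQR hγ h0 h1
  refine (hcl_eq_of F f1 (fun t => ?_) (fun t => ?_) fun u t ht => ?_).symm
  · rw [f2, hg]
  · rw [f3, hf]
  · rw [f4 u t ht, h00]

theorem hcl_trans {y : X} (p q : GenLoop (Fin 2) X y) :
    hcl (GenLoop.transAt 0 p q) = hcl p * hcl q := by
  have h : hcl q * hcl p = hcl (GenLoop.transAt 0 p q) :=
    HomotopyGroup.mul_spec (i := (0 : Fin 2)) (p := q) (q := p)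
  rw [← h, mul_comm]

theorem split_lo {t : Fin 2 → I} (h : (t 0 : ℝ) ≤ 1 / 2) :
    tsq A γ (fun θ => rho (2 * θ)) (fun θ => rho (2 * θ - 1)) lf t =
      tsq A (fun v => γ (v / 2)) rho rho lam
        (Function.update t 0 (projIcc 0 1 zero_le_one (2 * (t 0 : ℝ)))) := by
  have e0 : ((Function.update t 0 (projIcc 0 1 zero_le_one (2 * (t 0 : ℝ))) 0 : I) : ℝ) =
      2 * (t 0 : ℝ) := by
    rw [Function.update_self, projIcc_of_mem zero_le_one (x := 2 * (t 0 : ℝ))
      ⟨by linarith [(t 0).2.1], by linarith⟩]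
  have e1 : Function.update t 0 (projIcc 0 1 zero_le_one (2 * (t 0 : ℝ))) 1 = t 1 :=
    Function.update_of_ne (by decide) _ _
  have hv := mul_tau_mem (lam_mem (θ := 2 * (t 0 : ℝ)) (by linarith [(t 0).2.1]) (by linarith)).1
    (lam_mem (θ := 2 * (t 0 : ℝ)) (by linarith [(t 0).2.1]) (by linarith)).2 (t 1)
  have e2 : lf (t 0) * tau (t 1) = lam (2 * (t 0 : ℝ)) * tau (t 1) / 2 := by
    rw [lf_lo (t 0).2.1 h]
    ring
  unfold tsq TS
  rw [e0, e1, e2]
  have h2 : lam (2 * (t 0 : ℝ)) * tau (t 1) / 2 ≤ 1 / 2 := by linarith [hv.2]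
  rw [if_pos h2]
  split_ifs <;> rfl

theorem split_hi {t : Fin 2 → I} (h : ¬ (t 0 : ℝ) ≤ 1 / 2) :
    tsq A γ (fun θ => rho (2 * θ)) (fun θ => rho (2 * θ - 1)) lf t =
      tsq A γ (fun _ => 2 * Real.pi) rho lam
        (Function.update t 0 (projIcc 0 1 zero_le_one (2 * (t 0 : ℝ) - 1))) := by
  have h' : 1 / 2 < (t 0 : ℝ) := not_le.1 h
  have e0 : ((Function.update t 0 (projIcc 0 1 zero_le_one (2 * (t 0 : ℝ) - 1)) 0 : I) : ℝ) =
      2 * (t 0 : ℝ) - 1 := by
    rw [Function.update_self, projIcc_of_mem zero_le_one (x := 2 * (t 0 : ℝ) - 1)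
      ⟨by linarith, by linarith [(t 0).2.2]⟩]
  have e1 : Function.update t 0 (projIcc 0 1 zero_le_one (2 * (t 0 : ℝ) - 1)) 1 = t 1 :=
    Function.update_of_ne (by decide) _ _
  unfold tsq TS
  dsimp only
  rw [e0, e1, lf_hi h'.le (t 0).2.2, rho_hi (θ := 2 * (t 0 : ℝ)) (by linarith)]

/-- the free homotopy: moving the base point along the first path -/
theorem hfree_X (hPP : StPP) (hSQR : StSQR) (hγ : ContinuousOn γ (Icc (0 : ℝ) 1))
    (hf0 : γ 0 ∈ A.Fix) (hf : γ (1 / 2) ∈ A.Fix) (h1f : γ 1 ∈ A.Fix) :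
    Hfree (tsq A γ (fun _ => 2 * Real.pi) rho lam)
      (fun t => A.sph (fun v => γ (1 / 2 + v / 2)) (sqr t)) := by
  have clam := cont_lam
  have crho := cont_rho
  have ctau := cont_tau
  have hlt : ∀ t : Fin 2 → I, lam (t 0) * tau (t 1) ∈ Icc (0 : ℝ) 1 := fun t =>
    mul_tau_mem (lam_mem (t 0).2.1 (t 0).2.2).1 (lam_mem (t 0).2.1 (t 0).2.2).2 (t 1)
  -- the value `h = 1` or a trivial rotation
  have key : ∀ (θ : I) (h : ℝ), (lam θ = 1 → h = 1) → A.R (rho θ) (γ h) = γ h := by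
    intro θ h hh
    rcases (two_pi_gd θ.2).2.2.2 with h1 | h1 | h1
    · exact R_fix (Or.inl h1) _
    · exact R_fix (Or.inr h1) _
    · rw [hh h1]
      exact h1f _
  -- step 1
  have s1 : Hfree (tsq A γ (fun _ => 2 * Real.pi) rho lam)
      (fun t => TS A γ (2 * Real.pi) (rho (t 0)) (max (lam (t 0) * tau (t 1)) (1 / 2)) (t 1)) := by
    refine Hfree.mk' (fun z => TS A γ (2 * Real.pi) (rho (z.2 0))
      (max (lam (z.2 0) * tau (z.2 1)) ((z.1 : ℝ) / 2)) (z.2 1)) ?_ ?_ ?_ ?_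
    · refine cont_TS (by fun_prop) (by fun_prop) (by fun_prop) (by fun_prop) ?_ hγ ?_ ?_ ?_
      · intro z
        exact ⟨le_max_of_le_left (hlt z.2).1, max_le (hlt z.2).2 (by linarith [z.1.2.2])⟩
      · intro z _ _
        exact A.per _
      · intro z hz _
        refine key (z.2 0) _ fun h1 => ?_
        rw [hz, tau_half, mul_one, h1]
        exact max_eq_left (by linarith [z.1.2.2])
      · intro z hz
        show A.R _ (γ (max (lam (z.2 0) * tau (z.2 1)) ((z.1 : ℝ) / 2))) =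
          A.R _ (γ (max (lam (z.2 0) * tau (z.2 1)) ((z.1 : ℝ) / 2)))
        rw [hz]
        exact (hf _).trans (hf _).symm
    · intro t
      show TS A γ _ _ (max (lam (t 0) * tau (t 1)) (((0 : I) : ℝ) / 2)) _ = _
      rw [Icc.coe_zero, zero_div, max_eq_left (hlt t).1]
      rfl
    · intro t
      show TS A γ _ _ (max (lam (t 0) * tau (t 1)) (((1 : I) : ℝ) / 2)) _ = _
      rw [Icc.coe_one]
    · have hb : ∀ (u : I) (t : Fin 2 → I), t ∈ Cube.boundary (Fin 2) →
          TS A γ (2 * Real.pi) (rho (t 0)) (max (lam (t 0) * tau (t 1)) ((u : ℝ) / 2)) (t 1) =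
            γ ((u : ℝ) / 2) := by
        intro u t ht
        rw [mul_tau_bd lam_zero lam_one ht, max_eq_right (by linarith [u.2.1])]
        unfold TS
        rw [if_pos (show (u : ℝ) / 2 ≤ 1 / 2 by linarith [u.2.2])]
        split_ifs
        · exact A.per _
        · rfl
      intro u t ht t' ht'
      exact (hb u t ht).trans (hb u t' ht').symm
  -- step 2
  have s2 : Hfree
      (fun t => TS A γ (2 * Real.pi) (rho (t 0)) (max (lam (t 0) * tau (t 1)) (1 / 2)) (t 1))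
      (fun t => TS A γ (2 * Real.pi) (rho (t 0)) (1 / 2 + lam (t 0) * tau (t 1) / 2) (t 1)) := by
    refine Hfree.mk' (fun z => TS A γ (2 * Real.pi) (rho (z.2 0))
      ((1 - (z.1 : ℝ)) * max (lam (z.2 0) * tau (z.2 1)) (1 / 2) +
        z.1 * (1 / 2 + lam (z.2 0) * tau (z.2 1) / 2)) (z.2 1)) ?_ ?_ ?_ ?_
    · refine cont_TS (by fun_prop) (by fun_prop) (by fun_prop) (by fun_prop) ?_ hγ ?_ ?_ ?_
      · intro z
        refine conv_mem z.1.2 ⟨le_max_of_le_left (hlt z.2).1, max_le (hlt z.2).2 (by norm_num)⟩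
          ⟨by linarith [(hlt z.2).1], by linarith [(hlt z.2).2]⟩
      · intro z _ _
        exact A.per _
      · intro z hz _
        refine key (z.2 0) _ fun h1 => ?_
        rw [hz, tau_half, mul_one, h1, max_eq_left (by norm_num)]
        ring
      · intro z hz
        simp only [hz]
        exact (hf _).trans (hf _).symm
    · intro t
      simp only [Icc.coe_zero, sub_zero, one_mul, zero_mul, add_zero]
    · intro t
      simp only [Icc.coe_one, sub_self, one_mul, zero_mul, zero_add]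
    · have hb : ∀ (u : I) (t : Fin 2 → I), t ∈ Cube.boundary (Fin 2) →
          TS A γ (2 * Real.pi) (rho (t 0))
            ((1 - (u : ℝ)) * max (lam (t 0) * tau (t 1)) (1 / 2) +
              u * (1 / 2 + lam (t 0) * tau (t 1) / 2)) (t 1) = γ (1 / 2) := by
        intro u t ht
        rw [mul_tau_bd lam_zero lam_one ht, max_eq_right (by norm_num)]
        have e : (1 - (u : ℝ)) * (1 / 2) + u * (1 / 2 + 0 / 2) = 1 / 2 := by ring
        rw [e]
        unfold TS
        rw [if_pos (show (1 / 2 : ℝ) ≤ 1 / 2 from le_rfl)]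
        split_ifs
        · exact A.per _
        · rfl
      intro u t ht t' ht'
      exact (hb u t ht).trans (hb u t' ht').symm
  -- step 3
  have hγk : ContinuousOn (fun v : ℝ => γ (1 / 2 + v / 2)) (Icc (0 : ℝ) 1) := by
    refine hγ.comp (by fun_prop) ?_
    intro v hv
    exact ⟨by linarith [hv.1], by linarith [hv.2]⟩
  have hk0 : (fun v : ℝ => γ (1 / 2 + v / 2)) 0 ∈ A.Fix := by
    show γ (1 / 2 + 0 / 2) ∈ A.Fix
    have e : (1 / 2 + 0 / 2 : ℝ) = 1 / 2 := by norm_num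
    rw [e]
    exact hf
  have hk1 : (fun v : ℝ => γ (1 / 2 + v / 2)) 1 ∈ A.Fix := by
    show γ (1 / 2 + 1 / 2) ∈ A.Fix
    have e : (1 / 2 + 1 / 2 : ℝ) = 1 := by norm_num
    rw [e]
    exact h1f
  obtain ⟨F, f1, f2, f3, f4⟩ := hfree_qq_sqr (A := A) hPP hSQR hγk hk0 hk1
  have s3 : Hfree
      (fun t => TS A γ (2 * Real.pi) (rho (t 0)) (1 / 2 + lam (t 0) * tau (t 1) / 2) (t 1))
      (fun t => A.sph (fun v => γ (1 / 2 + v / 2)) (sqr t)) := by
    refine Hfree.mk' F f1 ?_ f3 ?_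
    · intro t
      rw [f2]
      unfold tsq TS
      split_ifs with h1 h2 h3 h3
      · have e : lam (t 0) * tau (t 1) = 0 := by linarith [(hlt t).1]
        show A.R _ (γ (1 / 2 + lam (t 0) * tau (t 1) / 2)) =
          A.R _ (γ (1 / 2 + lam (t 0) * tau (t 1) / 2))
        rw [e]
        have e' : (1 / 2 + 0 / 2 : ℝ) = 1 / 2 := by norm_num
        rw [e']
        exact (hf _).trans (hf _).symm
      · rfl
      · have e : lam (t 0) * tau (t 1) = 0 := by linarith [(hlt t).1]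
        show A.R _ (γ (1 / 2 + lam (t 0) * tau (t 1) / 2)) =
          A.R _ (γ (1 / 2 + lam (t 0) * tau (t 1) / 2))
        rw [e]
        have e' : (1 / 2 + 0 / 2 : ℝ) = 1 / 2 := by norm_num
        rw [e']
        exact (hf _).trans (hf _).symm
      · rfl
      · rfl
    · intro u t ht t' ht'
      rw [f4 u t ht, f4 u t' ht']
  exact (s1.trans s2).trans s3

end

theorem m_MUL (hPP : StPP) (hSQR : StSQR) : StMUL := by
  intro X _ A γ y₀ hγ h00 hf0 hf h1f f g hfe hge
  have clam := cont_lam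
  have crho := cont_rho
  have clam2 := cont_lam2
  have clf := cont_lf
  have l20 : lam2 0 = 0 := by unfold lam2; norm_num
  have l21 : lam2 1 = 0 := by unfold lam2; norm_num
  have lf0 : lf 0 = 0 := by
    rw [lf_lo le_rfl (by norm_num), mul_zero, lam_zero, zero_div]
  have lf1 : lf 1 = 0 := by
    rw [lf_hi (by norm_num) le_rfl]
    have e : (2 * 1 - 1 : ℝ) = 1 := by norm_num
    rw [e, lam_one]
  have hu0 : (0 : ℝ) ∈ Icc (0 : ℝ) 1 := ⟨le_rfl, zero_le_one⟩
  have hu1 : (1 : ℝ) ∈ Icc (0 : ℝ) 1 := ⟨zero_le_one, le_rfl⟩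
  let G0 : GenLoop (Fin 2) X y₀ := gsq A γ rho rho lam crho crho clam lam_zero lam_one hγ h00 hf0 hf
    h1f fun θ hθ => rho_gd hθ
  let G2 : GenLoop (Fin 2) X y₀ := gsq A γ rho rho lam2 crho crho clam2 l20 l21 hγ h00 hf0 hf h1f
    fun θ hθ => by simpa using gd_B hu1 hθ
  let G3 : GenLoop (Fin 2) X y₀ := gsq A γ (fun θ => rho (2 * θ)) (fun θ => rho (2 * θ - 1)) lam2
    (by fun_prop) (by fun_prop) clam2 l20 l21 hγ h00 hf0 hf h1f
    fun θ hθ => by simpa using gd_C hu1 hθ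
  let G4 : GenLoop (Fin 2) X y₀ := gsq A γ (fun θ => rho (2 * θ)) (fun θ => rho (2 * θ - 1)) lf
    (by fun_prop) (by fun_prop) clf lf0 lf1 hγ h00 hf0 hf h1f
    fun θ hθ => by simpa using gd_D hu1 hθ
  let G5 : GenLoop (Fin 2) X y₀ := gsq A γ (fun _ => 2 * Real.pi) rho lam continuous_const crho clam
    lam_zero lam_one hγ h00 hf0 hf h1f fun θ hθ => two_pi_gd hθ
  have e1 : hcl f = hcl G0 := hcl_qq hPP hSQR hγ h00 hf0 h1f hfe fun t => rfl
  have e2 : hcl G0 = hcl G2 := gd_conv crho crho clam lam_zero lam_one crho crho clam2 l20 l21 hγ h00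
    hf0 hf h1f (fun u hu θ hθ => gd_B hu hθ) (fun t => rfl) fun t => rfl
  have e3 : hcl G2 = hcl G3 := gd_conv crho crho clam2 l20 l21 (by fun_prop) (by fun_prop) clam2 l20
    l21 hγ h00 hf0 hf h1f (fun u hu θ hθ => gd_C hu hθ) (fun t => rfl) fun t => rfl
  have e4 : hcl G3 = hcl G4 := gd_conv (by fun_prop) (by fun_prop) clam2 l20 l21 (by fun_prop)
    (by fun_prop) clf lf0 lf1 hγ h00 hf0 hf h1f (fun u hu θ hθ => gd_D hu hθ) (fun t => rfl)
    fun t => rfl
  -- the first path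
  have hγp : ContinuousOn (fun v : ℝ => γ (v / 2)) (Icc (0 : ℝ) 1) := by
    refine hγ.comp (by fun_prop) ?_
    intro v hv
    exact ⟨by linarith [hv.1], by linarith [hv.2]⟩
  have hp0 : (fun v : ℝ => γ (v / 2)) 0 = γ 0 := by
    show γ (0 / 2) = γ 0
    rw [zero_div]
  have hp1 : (fun v : ℝ => γ (v / 2)) 1 ∈ A.Fix := hf
  have hpf : (fun v : ℝ => γ (v / 2)) 0 ∈ A.Fix := by rw [hp0]; exact hf0
  obtain ⟨F, f1, f2, f3, f4⟩ := hfree_qq_sqr (A := A) hPP hSQR hγp hpf hp1
  let P : GenLoop (Fin 2) X y₀ := ⟨⟨tsq A (fun v : ℝ => γ (v / 2)) rho rho lam, by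
      have h : tsq A (fun v : ℝ => γ (v / 2)) rho rho lam = fun t => F (0, t) :=
        funext fun t => (f2 t).symm
      rw [h]
      exact f1.comp (by fun_prop)⟩, by
      intro t ht
      show tsq A (fun v : ℝ => γ (v / 2)) rho rho lam t = y₀
      rw [← f2, f4 0 t ht]
      exact hp0.trans h00⟩
  have e6 : hcl g = hcl P := hcl_qq hPP hSQR hγp (hp0.trans h00) hpf hp1 hge fun t => rfl
  have e5 : G4 = GenLoop.transAt 0 P G5 := by
    refine GenLoop.ext _ _ fun t => ?_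
    show tsq A γ (fun θ => rho (2 * θ)) (fun θ => rho (2 * θ - 1)) lf t =
      if (t 0 : ℝ) ≤ 1 / 2 then
        tsq A (fun v : ℝ => γ (v / 2)) rho rho lam
          (Function.update t 0 (projIcc 0 1 zero_le_one (2 * (t 0 : ℝ))))
      else tsq A γ (fun _ => 2 * Real.pi) rho lam
        (Function.update t 0 (projIcc 0 1 zero_le_one (2 * (t 0 : ℝ) - 1)))
    split_ifs with h
    · exact split_lo h
    · exact split_hi h
  refine ⟨G5, ?_, hfree_X hPP hSQR hγ hf0 hf h1f⟩
  rw [e1, e2, e3, e4, e5, hcl_trans, e6]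

end Pool.Agent.Helper70.T


end

/-! ## Helper65.Barb.Main1 -/

section

/-!
# Equivariant barbells: the abstract theorems
-/

set_option autoImplicit false
set_option linter.unusedSectionVars false
set_option linter.unusedVariables false

open scoped Manifold ContDiff Topology ComplexConjugate
open Set

namespace Pool.Agent.Helper65.Barb

section
variable {E : Type*} [NormedAddCommGroup E] [NormedSpace ℝ E] {H : Type*} [TopologicalSpace H]
  {I : ModelWithCorners ℝ E H} {M : Type*} [TopologicalSpace M] [ChartedSpace H M] [T2Space M]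
  {A : CircleAction I M}

theorem reduce (hfree : Dense {x : M | ∀ θ, A.act θ x = x → ∃ k : ℤ, θ = k * (2 * Real.pi)})
    (B : PartialDiffeomorph 𝓘(ℝ, R4) I R4 M ∞) (hNB : NB ⊆ B.source)
    (he : ∀ p ∈ NB, ∀ θ, B (rotp θ p) = A.act θ (B p)) (b0 b1 b2 : Prop)
    (hb0 : b0 → BoundsBall A B 0 (1 / 5)) (hb1 : b1 → BoundsBall A B 1 (1 / 5))
    (hb2 : b2 → BoundsBall A B 0 2) :
    ∃ Z Z' : M → M, Isot I (push B barMap) Z ∧ (∀ y, Z (Z' y) = y) ∧ (∀ y, Z' (Z y) = y) ∧
      (∀ y, (¬ b0 → y ∉ B '' Core 0 (1 / 5)) → (¬ b1 → y ∉ B '' Core 1 (1 / 5)) →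
        (¬ b2 → y ∉ B '' Core 0 2) → A.LB Z y) ∧
      (¬ b0 → ∀ p ∈ NShell 0 (1 / 5), Z (B p) = B (barMap p)) ∧
      (¬ b1 → ∀ p ∈ NShell 1 (1 / 5), Z (B p) = B (barMap p)) ∧
      (¬ b2 → ∀ p ∈ NShell 0 2, Z (B p) = B (barMap p)) := by
  have hS0 := Shell_zero_subset.trans hNB
  have hS1 := Shell_one_subset.trans hNB
  have hS2 := Shell_two_subset.trans hNB
  have he0 : ∀ p ∈ Shell 0 (1 / 5), ∀ θ, B (rotp θ p) = A.act θ (B p) :=
    fun p hp => he p (Shell_zero_subset hp)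
  have he1 : ∀ p ∈ Shell 1 (1 / 5), ∀ θ, B (rotp θ p) = A.act θ (B p) :=
    fun p hp => he p (Shell_one_subset hp)
  have he2 : ∀ p ∈ Shell 0 2, ∀ θ, B (rotp θ p) = A.act θ (B p) :=
    fun p hp => he p (Shell_two_subset hp)
  have r5 : (0 : ℝ) < 1 / 5 := by norm_num
  have r2 : (0 : ℝ) < 2 := by norm_num
  obtain ⟨G0, G0', i0, l0, l0', t0, n0, L0, k01, k02⟩ := exists_G (A := A) hfree r5 r5 r2
    hS0 hS1 hS2 he1 he2 disj_zero_one disj_zero_two disj_one_two b0 hb0
  obtain ⟨G1, G1', i1, l1, l1', t1, n1, L1, k10, k12⟩ := exists_G (A := A) hfree r5 r5 r2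
    hS1 hS0 hS2 he0 he2 disj_zero_one.symm disj_one_two disj_zero_two b1 hb1
  obtain ⟨G2, G2', i2, l2, l2', t2, n2, L2, k20, k21⟩ := exists_G (A := A) hfree r2 r5 r5
    hS2 hS0 hS1 he0 he1 disj_zero_two.symm disj_one_two.symm disj_zero_one b2 hb2
  have hf0 : Isot I (push B barMap) (push B barMap) :=
    isot_push_barbellMap B hNB isBarbellMap_barMap isBarbellMap_barMap
  obtain ⟨f', hf', hff', hf'f⟩ := IsDiffeo.exists_inv hf0
  -- the value of `f` on the image of `B`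
  have hfB : ∀ p ∈ NB, push B barMap (B p) = B (barMap p) :=
    fun p hp => push_of_mem B _ (hNB hp)
  have hLf : ∀ y, y ∉ B '' Core 0 (1 / 5) → y ∉ B '' Core 1 (1 / 5) → y ∉ B '' Core 0 2 →
      A.LB (push B barMap) y := by
    intro y h0 h1 h2
    by_cases hy : y ∈ B '' bsupp
    · obtain ⟨p, hp, rfl⟩ := hy
      have hc0 : p ∉ Core 0 (1 / 5) := fun h => h0 ⟨p, h, rfl⟩
      have hc1 : p ∉ Core 1 (1 / 5) := fun h => h1 ⟨p, h, rfl⟩
      have hc2 : p ∉ Core 0 2 := fun h => h2 ⟨p, h, rfl⟩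
      obtain ⟨⟨hp1, hp2, hp3⟩, hp4, hp5⟩ := hp
      have e0 : (2 / 5) ^ 2 < rsq 0 p := by
        by_contra hcon
        exact hc0 ⟨hp1, hp2, (not_lt.1 hcon).trans (by norm_num), hp4⟩
      have e1 : (2 / 5) ^ 2 < rsq 1 p := by
        by_contra hcon
        exact hc1 ⟨hp1, hp2, (not_lt.1 hcon).trans (by norm_num), hp5⟩
      have e2 : rsq 0 p < 2 ^ 2 := by
        by_contra hcon
        exact hc2 ⟨hp1, hp2, hp3, not_lt.1 hcon⟩
      let U : Set R4 := {q | -1 < q.1 ∧ q.1 < 2 ∧ (2 / 5) ^ 2 < rsq 0 q ∧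
        (2 / 5) ^ 2 < rsq 1 q ∧ rsq 0 q < 2 ^ 2}
      have hUo : IsOpen U := by
        apply IsOpen.inter (isOpen_lt continuous_const continuous_fst)
        apply IsOpen.inter (isOpen_lt continuous_fst continuous_const)
        apply IsOpen.inter (isOpen_lt continuous_const (continuous_rsq 0))
        apply IsOpen.inter (isOpen_lt continuous_const (continuous_rsq 1))
        exact isOpen_lt (continuous_rsq 0) continuous_const
      have hUN : U ⊆ NB := by
        rintro q ⟨h1, h2, h3, h4, h5⟩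
        exact ⟨⟨h1.le, h2.le, h5.le.trans (by norm_num)⟩, le_trans (by norm_num) h3.le,
          le_trans (by norm_num) h4.le⟩
      apply LB_rot (A := A) B hUo (hUN.trans hNB) _ (fun q hq => he q (hUN hq)) contDiff_ang
        (fun q θ => ang_rotp θ q) _ (p := p) ⟨by linarith, by linarith, e0, e1, e2⟩
      · rintro q ⟨h1, h2, h3, h4, h5⟩ θ
        exact ⟨h1, h2, by rwa [rsq_rotp], by rwa [rsq_rotp], by rwa [rsq_rotp]⟩
      · intro q hq
        rw [hfB q (hUN hq), barMap_mid hq.2.2.1.le hq.2.2.2.1.le hq.2.2.2.2.le]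
        rfl
    · apply LB_off (A := A) B isCompact_bsupp (bsupp_subset.trans hNB) _
        (fun q hq => he q (bsupp_subset hq)) _ hy
      · rintro q ⟨⟨h1, h2, h3⟩, h4, h5⟩ θ
        exact ⟨⟨h1, h2, by rwa [rsq_rotp]⟩, by rwa [rsq_rotp], by rwa [rsq_rotp]⟩
      · intro z hz
        exact push_of_notMem B _ (bsupp_subset.trans hNB) (fun x hx => barMap_off hx) hz
  have hopen : ∀ {c r : ℝ}, 0 < r → Shell c r ⊆ B.source → IsOpen (B '' NShell c r) :=
    fun hr h => isOpen_image B (isOpen_NShell _ _) ((NShell_subset_Shell hr).trans h)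
  -- local behaviour near the cores of the spheres that have been filled
  have hcore : ∀ {c r : ℝ} (hr : 0 < r) (hSN : Shell c r ⊆ NB) {F : M → M} {p : R4}
      (hp : p ∈ Core c r)
      (hF : ∀ q ∈ NShell c r, F (B q) = B (rotp (ang q) q)), A.LB F (B p) := by
    intro c r hr hSN F p hp hF
    exact LB_rot (A := A) B (isOpen_NShell c r) ((NShell_subset_Shell hr).trans (hSN.trans hNB))
      (fun q hq θ => rotp_mem_NShell θ hq)
      (fun q hq => he q (hSN (NShell_subset_Shell hr hq))) contDiff_ang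
      (fun q θ => ang_rotp θ q) hF (Core_subset_NShell hr hp)
  have hcore' : ∀ {c r : ℝ} (hr : 0 < r) (hSN : Shell c r ⊆ NB) {F : M → M} {p : R4}
      (hp : p ∈ Core c r) (hF : ∀ q ∈ NShell c r, F (B q) = B q), A.LB F (B p) := by
    intro c r hr hSN F p hp hF
    apply LB_rot (A := A) B (isOpen_NShell c r)
      ((NShell_subset_Shell hr).trans (hSN.trans hNB))
      (fun q hq θ => rotp_mem_NShell θ hq)
      (fun q hq => he q (hSN (NShell_subset_Shell hr hq))) (φ := fun _ => 0) contDiff_const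
      (fun q θ => rfl) _ (Core_subset_NShell hr hp)
    intro q hq
    rw [hF q hq]
    simp [rotp]
  refine ⟨fun y => push B barMap (G1 (G0 (G2' y))), fun y => G2 (G0' (G1' (f' y))), ?_, ?_, ?_,
    ?_, ?_, ?_, ?_⟩
  · have i2' : Isot I (fun x => x) G2' := i2.inv (fun x => rfl) l2
    exact hf0.comp (i1.comp (i0.comp i2'))
  · intro y
    simp only [l2', l0, l1, hff']
  · intro y
    simp only [l2, l0', l1', hf'f]
  · intro y hy0 hy1 hy2
    by_cases c0 : y ∈ B '' Core 0 (1 / 5)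
    · have hb : b0 := by
        by_contra h
        exact hy0 h c0
      obtain ⟨p, hp, rfl⟩ := c0
      apply hcore r5 Shell_zero_subset hp
      intro q hq
      have hqS := NShell_subset_Shell r5 hq
      rw [(k20 q hq).2, (t0 hb q hqS).1, (k10 _ (twist_mem_NShell hq)).1,
        hfB _ (Shell_zero_subset (twist_mem_Shell hqS)), barMap_shell_zero hqS]
      rfl
    · by_cases c1 : y ∈ B '' Core 1 (1 / 5)
      · have hb : b1 := by
          by_contra h
          exact hy1 h c1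
        obtain ⟨p, hp, rfl⟩ := c1
        apply hcore r5 Shell_one_subset hp
        intro q hq
        have hqS := NShell_subset_Shell r5 hq
        rw [(k21 q hq).2, (k01 q hq).1, (t1 hb q hqS).1,
          hfB _ (Shell_one_subset (twist_mem_Shell hqS)), barMap_shell_one hqS]
        rfl
      · by_cases c2 : y ∈ B '' Core 0 2
        · have hb : b2 := by
            by_contra h
            exact hy2 h c2
          obtain ⟨p, hp, rfl⟩ := c2
          apply hcore' r2 Shell_two_subset hp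
          intro q hq
          have hqS := NShell_subset_Shell r2 hq
          rw [(t2 hb q hqS).2, (k02 _ (twist_inv_mem_NShell hq)).1,
            (k12 _ (twist_inv_mem_NShell hq)).1,
            hfB _ (Shell_two_subset (twist_inv_mem_Shell hqS)), barMap_shell_two hqS]
        · exact (hLf y c0 c1 c2).comp ((L1 y c1).comp ((L0 y c0).comp ((L2 y c2).inv l2')))
  · intro hb p hp
    simp only
    rw [(k20 p hp).2, (n0 hb _).1, (k10 p hp).1,
      hfB p (Shell_zero_subset (NShell_subset_Shell r5 hp))]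
  · intro hb p hp
    simp only
    rw [(k21 p hp).2, (k01 p hp).1, (n1 hb _).1,
      hfB p (Shell_one_subset (NShell_subset_Shell r5 hp))]
  · intro hb p hp
    simp only
    rw [(n2 hb _).2, (k02 p hp).1, (k12 p hp).1,
      hfB p (Shell_two_subset (NShell_subset_Shell r2 hp))]

end

end Pool.Agent.Helper65.Barb


end

/-! ## Helper65.Barb.Main2 -/

section

/-!
# Equivariant barbells: the abstract theorems
-/

set_option autoImplicit false
set_option linter.unusedSectionVars false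
set_option linter.unusedVariables false

open scoped Manifold ContDiff Topology ComplexConjugate
open Set

namespace Pool.Agent.Helper65.Barb

theorem rotp_add (s t : ℝ) (p : R4) : rotp (s + t) p = rotp s (rotp t p) := by
  simp only [rotp]
  rw [← mul_assoc, ← Complex.exp_add]
  push_cast
  rw [add_mul]

theorem rotp_zero (p : R4) : rotp 0 p = p := by simp [rotp]

theorem rotp_neg (t : ℝ) (p : R4) : rotp t (rotp (-t) p) = p := by
  rw [← rotp_add, add_neg_cancel, rotp_zero]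

theorem exists_barMap_zero {q : R4} (hq : q ∈ NShell 0 (1 / 5)) :
    ∃ p ∈ NShell 0 (1 / 5), barMap p = q := by
  have hq' : rotp (-ang q) q ∈ NShell 0 (1 / 5) := rotp_mem_NShell _ hq
  refine ⟨(twist 0 (1 / 5)).f (1, rotp (-ang q) q), twist_mem_NShell hq', ?_⟩
  rw [barMap_shell_zero (NShell_subset_Shell (by norm_num) hq')]
  exact rotp_neg _ _

theorem exists_barMap_one {q : R4} (hq : q ∈ NShell 1 (1 / 5)) :
    ∃ p ∈ NShell 1 (1 / 5), barMap p = q := by
  have hq' : rotp (-ang q) q ∈ NShell 1 (1 / 5) := rotp_mem_NShell _ hq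
  refine ⟨(twist 1 (1 / 5)).f (1, rotp (-ang q) q), twist_mem_NShell hq', ?_⟩
  rw [barMap_shell_one (NShell_subset_Shell (by norm_num) hq')]
  exact rotp_neg _ _

theorem exists_barMap_two {q : R4} (hq : q ∈ NShell 0 2) :
    ∃ p ∈ NShell 0 2, barMap p = q :=
  ⟨(twist 0 2).g (1, q), twist_inv_mem_NShell hq,
    barMap_shell_two (NShell_subset_Shell (by norm_num) hq)⟩

section
variable {E : Type*} [NormedAddCommGroup E] [NormedSpace ℝ E] {H : Type*} [TopologicalSpace H]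
  {I : ModelWithCorners ℝ E H} {M : Type*} [TopologicalSpace M] [ChartedSpace H M] [T2Space M]
  {A : CircleAction I M}

/-- a map which is locally a bulk rotation is globally one -/
def CircleAction.Global (A : CircleAction I M) : Prop :=
  ∀ F : M → M, (∀ x, A.LB F x) → ∃ h : M → ℝ, ContMDiff I 𝓘(ℝ, ℝ) ∞ h ∧
    (∀ x θ, h (A.act θ x) = h x) ∧ ∀ x, F x = A.act (h x) x

theorem isot_id_of_LB (hglob : A.Global) {F : M → M} (hF : ∀ x, A.LB F x) :
    Isot I F (fun y => y) := by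
  obtain ⟨h, hs, hi, hFh⟩ := hglob F hF
  have : F = fun x => A.act (h x) x := funext hFh
  rw [this]
  exact (A.isot_bulk hs hi).symm

/-- If the three spheres of an equivariant barbell bound invariant balls, then the implantation is
isotopic to the identity. -/
theorem trivial_of_balls
    (hfree : Dense {x : M | ∀ θ, A.act θ x = x → ∃ k : ℤ, θ = k * (2 * Real.pi)})
    (hglob : A.Global) (B : PartialDiffeomorph 𝓘(ℝ, R4) I R4 M ∞) (hNB : NB ⊆ B.source)
    (he : ∀ p ∈ NB, ∀ θ, B (rotp θ p) = A.act θ (B p))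
    (h0 : BoundsBall A B 0 (1 / 5)) (h1 : BoundsBall A B 1 (1 / 5)) (h2 : BoundsBall A B 0 2)
    {β : R4 → R4} (hβ : IsBarbellMap β) : Isot I (push B β) (fun y => y) := by
  obtain ⟨Z, Z', hi, -, -, hL, -⟩ := reduce (A := A) hfree B hNB he True True True
    (fun _ => h0) (fun _ => h1) (fun _ => h2)
  have hL' : ∀ y, A.LB Z y := fun y =>
    hL y (fun h => absurd trivial h) (fun h => absurd trivial h) (fun h => absurd trivial h)
  exact (isot_push_barbellMap B hNB isBarbellMap_barMap hβ).trans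
    (hi.trans (isot_id_of_LB hglob hL'))

/-- Comparison of two equivariant barbells. -/
theorem isot_of_same
    (hfree : Dense {x : M | ∀ θ, A.act θ x = x → ∃ k : ℤ, θ = k * (2 * Real.pi)})
    (hglob : A.Global) (B B' : PartialDiffeomorph 𝓘(ℝ, R4) I R4 M ∞) (hNB : NB ⊆ B.source)
    (hNB' : NB ⊆ B'.source)
    (he : ∀ p ∈ NB, ∀ θ, B (rotp θ p) = A.act θ (B p))
    (he' : ∀ p ∈ NB, ∀ θ, B' (rotp θ p) = A.act θ (B' p))
    (h0 : (∀ p ∈ Shell 0 (1 / 5), B p = B' p) ∨
      (BoundsBall A B 0 (1 / 5) ∧ BoundsBall A B' 0 (1 / 5)))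
    (h1 : (∀ p ∈ Shell 1 (1 / 5), B p = B' p) ∨
      (BoundsBall A B 1 (1 / 5) ∧ BoundsBall A B' 1 (1 / 5)))
    (h2 : (∀ p ∈ Shell 0 2, B p = B' p) ∨ (BoundsBall A B 0 2 ∧ BoundsBall A B' 0 2))
    {β β' : R4 → R4} (hβ : IsBarbellMap β) (hβ' : IsBarbellMap β') :
    Isot I (push B β) (push B' β') := by
  have r5 : (0 : ℝ) < 1 / 5 := by norm_num
  have r2 : (0 : ℝ) < 2 := by norm_num
  obtain ⟨Z, Z1, hi, hZ, hZ', hL, k0, k1, k2⟩ := reduce (A := A) hfree B hNB he
    (BoundsBall A B 0 (1 / 5) ∧ BoundsBall A B' 0 (1 / 5))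
    (BoundsBall A B 1 (1 / 5) ∧ BoundsBall A B' 1 (1 / 5))
    (BoundsBall A B 0 2 ∧ BoundsBall A B' 0 2)
    (fun h => h.1) (fun h => h.1) (fun h => h.1)
  obtain ⟨Y, Y1, hi', hY, hY', hL', l0, l1, l2⟩ := reduce (A := A) hfree B' hNB' he'
    (BoundsBall A B 0 (1 / 5) ∧ BoundsBall A B' 0 (1 / 5))
    (BoundsBall A B 1 (1 / 5) ∧ BoundsBall A B' 1 (1 / 5))
    (BoundsBall A B 0 2 ∧ BoundsBall A B' 0 2)
    (fun h => h.2) (fun h => h.2) (fun h => h.2)
  -- behaviour near a common sphere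
  have hcommon : ∀ {c r : ℝ} (hr : 0 < r) (hS : Shell c r ⊆ NB)
      (hsame : ∀ p ∈ Shell c r, B p = B' p)
      (hex : ∀ q ∈ NShell c r, ∃ p ∈ NShell c r, barMap p = q)
      (hZk : ∀ p ∈ NShell c r, Z (B p) = B (barMap p))
      (hYk : ∀ p ∈ NShell c r, Y (B' p) = B' (barMap p)) {y : M} (hy : y ∈ B '' Core c r),
      A.LB (fun x => Z (Y1 x)) y := by
    intro c r hr hS hsame hex hZk hYk y hy
    apply (CircleAction.LB.id A y).congr (W := B '' NShell c r)
      (isOpen_image B (isOpen_NShell c r) ((NShell_subset_Shell hr).trans (hS.trans hNB)))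
      (image_mono (Core_subset_NShell hr) hy)
    · rintro _ ⟨q, hq, rfl⟩ θ
      exact ⟨rotp θ q, rotp_mem_NShell θ hq, he q (hS (NShell_subset_Shell hr hq)) θ⟩
    · rintro _ ⟨q, hq, rfl⟩
      obtain ⟨p, hp, rfl⟩ := hex q hq
      have hqS := NShell_subset_Shell hr hq
      have hpS := NShell_subset_Shell hr hp
      have e1 : Y1 (B (barMap p)) = B' p := by
        rw [hsame _ hqS, ← hYk p hp, hY']
      rw [e1, ← hsame p hpS, hZk p hp]
  have himg : ∀ {c r : ℝ} (hr : 0 < r) (hsame : ∀ p ∈ Shell c r, B p = B' p),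
      B '' Core c r = B' '' Core c r := by
    intro c r hr hsame
    exact image_congr fun p hp => hsame p (Core_subset_Shell hr hp)
  have hX : ∀ y, A.LB (fun x => Z (Y1 x)) y := by
    intro y
    by_cases c0 : ¬ (BoundsBall A B 0 (1 / 5) ∧ BoundsBall A B' 0 (1 / 5)) ∧
        y ∈ B '' Core 0 (1 / 5)
    · exact hcommon r5 Shell_zero_subset (h0.resolve_right c0.1)
        (fun q hq => exists_barMap_zero hq) (k0 c0.1) (l0 c0.1) c0.2
    by_cases c1 : ¬ (BoundsBall A B 1 (1 / 5) ∧ BoundsBall A B' 1 (1 / 5)) ∧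
        y ∈ B '' Core 1 (1 / 5)
    · exact hcommon r5 Shell_one_subset (h1.resolve_right c1.1)
        (fun q hq => exists_barMap_one hq) (k1 c1.1) (l1 c1.1) c1.2
    by_cases c2 : ¬ (BoundsBall A B 0 2 ∧ BoundsBall A B' 0 2) ∧ y ∈ B '' Core 0 2
    · exact hcommon r2 Shell_two_subset (h2.resolve_right c2.1)
        (fun q hq => exists_barMap_two hq) (k2 c2.1) (l2 c2.1) c2.2
    refine (hL y (fun h => ?_) (fun h => ?_) (fun h => ?_)).comp
      ((hL' y (fun h => ?_) (fun h => ?_) (fun h => ?_)).inv hY')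
    · exact fun h' => c0 ⟨h, h'⟩
    · exact fun h' => c1 ⟨h, h'⟩
    · exact fun h' => c2 ⟨h, h'⟩
    · rw [← himg r5 (h0.resolve_right h)]
      exact fun h' => c0 ⟨h, h'⟩
    · rw [← himg r5 (h1.resolve_right h)]
      exact fun h' => c1 ⟨h, h'⟩
    · rw [← himg r2 (h2.resolve_right h)]
      exact fun h' => c2 ⟨h, h'⟩
  have e1 : Isot I (fun x => Z (Y1 x)) (fun x => x) := isot_id_of_LB hglob hX
  have e2 : Isot I (fun x => Y x) (fun x => Y x) := hi'.right
  have e3 : Isot I Z Y := by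
    have := e1.comp e2
    simpa only [hY'] using this
  exact (isot_push_barbellMap B hNB isBarbellMap_barMap hβ).trans
    ((hi.trans (e3.trans hi'.symm)).trans
      (isot_push_barbellMap B' hNB' isBarbellMap_barMap hβ').symm)

end

end Pool.Agent.Helper65.Barb


end

/-! ## Helper65.Barb.Sph -/

section

/-!
# The rotation of the 4-sphere
-/

set_option autoImplicit false
set_option linter.unusedSectionVars false
set_option linter.unusedVariables false

open scoped Manifold ContDiff Topology ComplexConjugate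
open Set

namespace Pool.Agent.Helper65.Barb

theorem ext5 {x y : EuclideanSpace ℝ (Fin 5)} (h0 : x 0 = y 0) (h1 : x 1 = y 1) (h2 : x 2 = y 2)
    (h3 : x 3 = y 3) (h4 : x 4 = y 4) : x = y := by
  ext i
  fin_cases i <;> assumption

theorem contDiff_turn :
    ContDiff ℝ ∞ (fun p : ℝ × EuclideanSpace ℝ (Fin 5) => turn p.1 p.2) := by
  rw [contDiff_euclidean]
  have hx : ∀ i : Fin 5, ContDiff ℝ ∞ (fun p : ℝ × EuclideanSpace ℝ (Fin 5) => p.2 i) := by
    intro i
    exact contDiff_euclidean.1 contDiff_snd i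
  have hc : ContDiff ℝ ∞ (fun p : ℝ × EuclideanSpace ℝ (Fin 5) => Real.cos p.1) :=
    Real.contDiff_cos.comp contDiff_fst
  have hs : ContDiff ℝ ∞ (fun p : ℝ × EuclideanSpace ℝ (Fin 5) => Real.sin p.1) :=
    Real.contDiff_sin.comp contDiff_fst
  intro i
  fin_cases i
  · exact hx 0
  · exact hx 1
  · exact hx 2
  · exact (hc.mul (hx 3)).sub (hs.mul (hx 4))
  · exact (hs.mul (hx 3)).add (hc.mul (hx 4))

@[simp] theorem spin4_coe (θ : ℝ) (x : S4) :
    (spin4 θ x : EuclideanSpace ℝ (Fin 5)) = turn θ x := rfl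

/-- The action of the circle on the 4-sphere by rotation of the last two coordinates. -/
noncomputable def rot4 : CircleAction (𝓡 4) S4 where
  act θ x := spin4 θ x
  zero x := by
    apply Subtype.ext
    apply ext5 <;> simp
  add s t x := by
    apply Subtype.ext
    apply ext5
    · simp
    · simp
    · simp
    · simp only [spin4_coe, turn_3, turn_4, Real.cos_add, Real.sin_add]; ring
    · simp only [spin4_coe, turn_3, turn_4, Real.cos_add, Real.sin_add]; ring
  period x := by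
    apply Subtype.ext
    apply ext5 <;> simp
  smooth := by
    have : Fact (Module.finrank ℝ (EuclideanSpace ℝ (Fin 5)) = 4 + 1) :=
      ⟨finrank_euclideanSpace_fin⟩
    have h1 : ContMDiff (𝓘(ℝ, ℝ).prod (𝓡 4)) 𝓘(ℝ, EuclideanSpace ℝ (Fin 5)) ∞
        (fun p : ℝ × S4 => turn p.1 p.2) := by
      have h2 : ContMDiff (𝓘(ℝ, ℝ).prod 𝓘(ℝ, EuclideanSpace ℝ (Fin 5)))
          𝓘(ℝ, EuclideanSpace ℝ (Fin 5)) ∞
          (fun p : ℝ × EuclideanSpace ℝ (Fin 5) => turn p.1 p.2) := by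
        have := contDiff_turn.contMDiff
        rwa [modelWithCornersSelf_prod, ← chartedSpaceSelf_prod] at this
      exact h2.comp (contMDiff_fst.prodMk (contMDiff_coe_sphere.comp contMDiff_snd))
    exact h1.codRestrict_sphere (fun p => turn_mem p.1 p.2)

theorem rot4_coe (θ : ℝ) (x : S4) :
    (rot4.act θ x : EuclideanSpace ℝ (Fin 5)) = turn θ x := rfl

theorem rot4_free {x : S4} (hx : x.1 3 ≠ 0 ∨ x.1 4 ≠ 0) {θ : ℝ} (h : rot4.act θ x = x) :
    ∃ k : ℤ, θ = k * (2 * Real.pi) := by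
  have h0 : turn θ x = x := congrArg Subtype.val h
  have h3 : Real.cos θ * x.1 3 - Real.sin θ * x.1 4 = x.1 3 := by
    rw [← turn_3, h0]
  have h4 : Real.sin θ * x.1 3 + Real.cos θ * x.1 4 = x.1 4 := by
    rw [← turn_4, h0]
  have hpos : 0 < x.1 3 ^ 2 + x.1 4 ^ 2 := by
    rcases hx with h | h
    · positivity
    · positivity
  have hc : Real.cos θ = 1 := by
    have : (Real.cos θ - 1) * (x.1 3 ^ 2 + x.1 4 ^ 2) = 0 := by
      linear_combination x.1 3 * h3 + x.1 4 * h4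
    rcases mul_eq_zero.1 this with h | h
    · linarith
    · exact absurd h hpos.ne'
  obtain ⟨k, hk⟩ := (Real.cos_eq_one_iff θ).1 hc
  exact ⟨k, hk.symm⟩

theorem rot4_dense :
    Dense {x : S4 | ∀ θ, rot4.act θ x = x → ∃ k : ℤ, θ = k * (2 * Real.pi)} := by
  intro x
  by_cases hx : x.1 3 ≠ 0 ∨ x.1 4 ≠ 0
  · exact subset_closure (fun θ h => rot4_free hx h)
  · push Not at hx
    obtain ⟨h3, h4⟩ := hx
    have hx1 := mem_S4.1 x.2
    rw [h3, h4] at hx1
    let c0 : ℝ → EuclideanSpace ℝ (Fin 5) := fun t =>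
      !₂[Real.cos t * x.1 0, Real.cos t * x.1 1, Real.cos t * x.1 2, Real.sin t, 0]
    have hc0 : ∀ t, c0 t ∈ Metric.sphere (0 : EuclideanSpace ℝ (Fin 5)) 1 := by
      intro t
      rw [mem_S4]
      change (Real.cos t * x.1 0) ^ 2 + (Real.cos t * x.1 1) ^ 2 + (Real.cos t * x.1 2) ^ 2 +
        Real.sin t ^ 2 + 0 ^ 2 = 1
      linear_combination Real.cos t ^ 2 * hx1 + Real.sin_sq_add_cos_sq t
    have hcc : Continuous c0 := by
      have : ContDiff ℝ 0 c0 := by
        rw [contDiff_euclidean]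
        intro i
        have hc : ContDiff ℝ 0 Real.cos := Real.contDiff_cos
        have hs : ContDiff ℝ 0 Real.sin := Real.contDiff_sin
        fin_cases i
        · exact hc.mul contDiff_const
        · exact hc.mul contDiff_const
        · exact hc.mul contDiff_const
        · exact hs
        · exact contDiff_const
      exact this.continuous
    let c : ℝ → S4 := fun t => ⟨c0 t, hc0 t⟩
    have hcont : Continuous c := hcc.subtype_mk _
    have hc00 : c 0 = x := by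
      apply Subtype.ext
      apply ext5
      · change Real.cos 0 * x.1 0 = x.1 0; simp
      · change Real.cos 0 * x.1 1 = x.1 1; simp
      · change Real.cos 0 * x.1 2 = x.1 2; simp
      · change Real.sin 0 = x.1 3; simp [h3]
      · change (0 : ℝ) = x.1 4; simp [h4]
    have ht : Filter.Tendsto c (𝓝[>] 0) (𝓝 x) := by
      have := hcont.tendsto 0
      rw [hc00] at this
      exact this.mono_left nhdsWithin_le_nhds
    apply mem_closure_of_tendsto ht
    have hev : ∀ᶠ t in 𝓝[>] (0 : ℝ), t ∈ Ioo (0 : ℝ) Real.pi := Ioo_mem_nhdsGT Real.pi_pos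
    filter_upwards [hev] with t hts
    intro θ h
    apply rot4_free (Or.inl _) h
    change Real.sin t ≠ 0
    exact (Real.sin_pos_of_mem_Ioo hts).ne'

/-- the squared norm of the first three coordinates -/
noncomputable def n3 (y : ℝ × ℝ × ℝ) : ℝ := y.1 ^ 2 + y.2.1 ^ 2 + y.2.2 ^ 2

/-- radial retraction factor onto the unit ball -/
noncomputable def sc (y : ℝ × ℝ × ℝ) : ℝ := 1 / max 1 (√(n3 y))

theorem sc_le (y : ℝ × ℝ × ℝ) : (sc y) ^ 2 * n3 y ≤ 1 := by
  have h1 : 0 ≤ n3 y := by unfold n3; positivity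
  have h2 : (1 : ℝ) ≤ max 1 (√(n3 y)) := le_max_left _ _
  have h3 : √(n3 y) ≤ max 1 (√(n3 y)) := le_max_right _ _
  have h4 : n3 y ≤ (max 1 (√(n3 y))) ^ 2 := by
    calc n3 y = √(n3 y) ^ 2 := (Real.sq_sqrt h1).symm
      _ ≤ _ := by
        apply pow_le_pow_left₀ (Real.sqrt_nonneg _) h3
  rw [sc, div_pow, one_pow, one_div, inv_mul_le_iff₀ (by positivity), mul_one]
  exact h4

theorem sc_eq {y : ℝ × ℝ × ℝ} (h : n3 y ≤ 1) : sc y = 1 := by
  have h1 : √(n3 y) ≤ 1 := Real.sqrt_le_one.2 h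
  rw [sc, max_eq_left h1, div_one]

theorem continuous_sc : Continuous sc := by
  unfold sc
  apply Continuous.div continuous_const
  · apply continuous_const.max
    apply Real.continuous_sqrt.comp
    unfold n3
    fun_prop
  · intro y
    have h2 : (1 : ℝ) ≤ max 1 (√(n3 y)) := le_max_left _ _
    positivity

theorem rot4_global : rot4.Global := by
  intro F hF
  let κ0 : ℝ × ℝ × ℝ → EuclideanSpace ℝ (Fin 5) := fun y =>
    !₂[sc y * y.1, sc y * y.2.1, sc y * y.2.2, √(1 - sc y ^ 2 * n3 y), 0]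
  have hκ0 : ∀ y, κ0 y ∈ Metric.sphere (0 : EuclideanSpace ℝ (Fin 5)) 1 := by
    intro y
    rw [mem_S4]
    change (sc y * y.1) ^ 2 + (sc y * y.2.1) ^ 2 + (sc y * y.2.2) ^ 2 +
      √(1 - sc y ^ 2 * n3 y) ^ 2 + 0 ^ 2 = 1
    rw [Real.sq_sqrt (by linarith [sc_le y])]
    unfold n3
    ring
  have hκc : Continuous κ0 := by
    have : ∀ i, Continuous fun y => κ0 y i := by
      intro i
      have h3 : Continuous fun y => sc y ^ 2 * n3 y := by
        apply (continuous_sc.pow 2).mul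
        unfold n3
        fun_prop
      fin_cases i
      · exact continuous_sc.mul continuous_fst
      · exact continuous_sc.mul (continuous_fst.comp continuous_snd)
      · exact continuous_sc.mul (continuous_snd.comp continuous_snd)
      · exact Real.continuous_sqrt.comp (continuous_const.sub h3)
      · exact continuous_const
    exact (PiLp.continuous_toLp 2 _).comp (continuous_pi this)
  let κ : ℝ × ℝ × ℝ → S4 := fun y => ⟨κ0 y, hκ0 y⟩
  have hκ : Continuous κ := hκc.subtype_mk _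
  have hcoord : ∀ i : Fin 5, Continuous fun x : S4 => x.1 i := by
    intro i
    exact (continuous_apply i).comp ((PiLp.continuous_ofLp 2 _).comp continuous_subtype_val)
  obtain ⟨h, hs, hi, hFh⟩ := CircleAction.exists_lift (A := rot4) rot4_dense (F := F)
    (W := univ) (V := univ) isOpen_univ (subset_univ _) (fun x _ => hF x) κ hκ
    (fun _ => mem_univ _) (fun x : S4 => ((x.1 0, x.1 1, x.1 2) : ℝ × ℝ × ℝ))
    (((hcoord 0).prodMk ((hcoord 1).prodMk (hcoord 2))).continuousOn)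
    (fun x _ θ => rfl)
    (by
      intro x _
      have hx := mem_S4.1 x.2
      have hn : n3 (x.1 0, x.1 1, x.1 2) ≤ 1 := by
        unfold n3
        simp only
        nlinarith [sq_nonneg (x.1 3), sq_nonneg (x.1 4)]
      have hs := sc_eq hn
      have hw : √(1 - sc (x.1 0, x.1 1, x.1 2) ^ 2 * n3 (x.1 0, x.1 1, x.1 2)) =
          ‖(⟨x.1 3, x.1 4⟩ : ℂ)‖ := by
        rw [hs, Complex.norm_def, Complex.normSq_mk]
        congr 1
        unfold n3
        simp only
        linarith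
      refine ⟨Complex.arg ⟨x.1 3, x.1 4⟩, ?_⟩
      have hz := Complex.norm_mul_exp_arg_mul_I ⟨x.1 3, x.1 4⟩
      have hre := congrArg Complex.re hz
      have him := congrArg Complex.im hz
      rw [Complex.exp_mul_I] at hre him
      simp only [← Complex.ofReal_cos, ← Complex.ofReal_sin, Complex.mul_re, Complex.mul_im,
        Complex.add_re, Complex.add_im, Complex.ofReal_re, Complex.ofReal_im, Complex.I_re,
        Complex.I_im] at hre him
      apply Subtype.ext
      rw [rot4_coe]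
      apply ext5
      · change sc (x.1 0, x.1 1, x.1 2) * x.1 0 = x.1 0
        rw [hs, one_mul]
      · change sc (x.1 0, x.1 1, x.1 2) * x.1 1 = x.1 1
        rw [hs, one_mul]
      · change sc (x.1 0, x.1 1, x.1 2) * x.1 2 = x.1 2
        rw [hs, one_mul]
      · rw [turn_3]
        change _ * √(1 - sc (x.1 0, x.1 1, x.1 2) ^ 2 * n3 (x.1 0, x.1 1, x.1 2)) - _ * 0 = _
        rw [hw]
        linarith
      · rw [turn_4]
        change _ * √(1 - sc (x.1 0, x.1 1, x.1 2) ^ 2 * n3 (x.1 0, x.1 1, x.1 2)) + _ * 0 = _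
        rw [hw]
        linarith)
  exact ⟨h, contMDiffOn_univ.1 hs, fun x θ => hi x (mem_univ _) θ, fun x => hFh x (mem_univ _)⟩

end Pool.Agent.Helper65.Barb


end
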