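import Pool.Agent.Helper18.BI.R.FinDefs
import Pool.Agent.Helper18.BI.R.FinDefs3
import Pool.Agent.Helper18.BI.S5.FinDefs8
import Pool.Agent.Helper65.Barb.Defs
import Pool.Agent.Helper70.BI.FinDefs
import Pool.Agent.Helper70.BI.C.P61
import Pool.Agent.Helper70.BI.C.P63
import Pool.Agent.Helper70.BI.C.P78

/-!
# Project BI (MP_8e98f2_gt): collected modules, part 79

The contents of the modules
* Helper70.BI.T.M_SPN

in one file, so that the whole proof builds in a short time.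
-/

namespace Pool.Agent.Helper18.BI
end Pool.Agent.Helper18.BI

namespace Pool.Agent.Helper18.BI.R
end Pool.Agent.Helper18.BI.R

namespace Pool.Agent.Helper18.FinR
end Pool.Agent.Helper18.FinR

namespace Pool.Agent.Helper65.Barb
end Pool.Agent.Helper65.Barb

namespace Pool.Agent.Helper70.Fin
end Pool.Agent.Helper70.Fin


/-! ## Helper70.BI.T.M_SPN -/

section

/-!
# Project BI, stage 6 (T), module SPN: rotation invariant barbells are elementary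
-/

set_option autoImplicit false

open scoped Topology unitInterval Manifold ContDiff ComplexConjugate
open Set Pool.Agent.Helper65.Barb Pool.Agent.Helper18.BI
open Pool.Agent.Helper18.FinR (sqr Pi2 cls FreeClass)
open Pool.Agent.Helper18.BI.R (S2)
open Pool.Agent.Helper70.Fin (coreSphere)

namespace Pool.Agent.Helper70.T

namespace SPN

/-- the rotation on the complement of an invariant set -/
noncomputable def actOff (S : Set S4) (hS : ∀ θ, ∀ x ∈ S, spin4 θ x ∈ S) :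
    Act {x : S4 // x ∉ S} where
  R ρ x := ⟨spin4 ρ x, fun h => x.2 (by
    have h1 := hS (-ρ) _ h
    have h2 : spin4 (-ρ) (spin4 ρ (x : S4)) = x := by
      have h3 := rot4.add (-ρ) ρ (x : S4)
      rw [neg_add_cancel, rot4.zero] at h3
      exact h3.symm
    rwa [h2] at h1)⟩
  cont := Continuous.subtype_mk (rot4.smooth.continuous.comp
    (continuous_fst.prodMk (continuous_subtype_val.comp continuous_snd))) _
  zero x := Subtype.ext (rot4.zero _)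
  per x := Subtype.ext (rot4.period _)

theorem sqr_mem (hPP : StPP) (t : Fin 2 → I) : sqr t ∈ S2 := by
  show (sqr t).1 ^ 2 + (sqr t).2.re ^ 2 + (sqr t).2.im ^ 2 = 1
  simp only [sqr]
  have h0 := Real.sin_sq_add_cos_sq (Real.pi * (t 0 : ℝ))
  have h1 := Real.sin_sq_add_cos_sq (Real.pi * (t 1 : ℝ))
  have h0' : Real.cos (Real.pi * (t 0 : ℝ)) ^ 2 = 1 - Real.sin (Real.pi * (t 0 : ℝ)) ^ 2 := by
    linarith
  have h1' : Real.cos (Real.pi * (t 1 : ℝ)) ^ 2 = 1 - Real.sin (Real.pi * (t 1 : ℝ)) ^ 2 := by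
    linarith
  generalize Real.sin (Real.pi * (t 0 : ℝ)) = a at *
  generalize Real.sin (Real.pi * (t 1 : ℝ)) = b at *
  generalize Real.cos (Real.pi * (t 0 : ℝ)) = A at *
  generalize Real.cos (Real.pi * (t 1 : ℝ)) = B at *
  have e : (1 - 2 * a ^ 2 * b ^ 2) ^ 2 + (-(2 * a * b * B)) ^ 2 + (2 * a * A * b ^ 2) ^ 2 =
      (1 - 2 * a ^ 2 * b ^ 2) ^ 2 + 4 * a ^ 2 * b ^ 2 * B ^ 2 + 4 * a ^ 2 * b ^ 4 * A ^ 2 := by ring
  rw [e, h0', h1']
  ring

theorem sqr_bd {t : Fin 2 → I} (ht : t ∈ Cube.boundary (Fin 2)) : sqr t = (1, 0) := by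
  unfold sqr
  rcases mem_bd ht with h | h | h | h <;> rw [h]
  · simp
    rfl
  · simp
    rfl
  · simp
    rfl
  · simp
    rfl

/-- freely homotopic maps of the sphere -/
theorem fc {S : Set S4} {y₀ : {x : S4 // x ∉ S}} (x : GenLoop (Fin 2) {x : S4 // x ∉ S} y₀)
    (h : ℝ × R3 → {x : S4 // x ∉ S}) (hc : ContinuousOn h (Icc (0 : ℝ) 1 ×ˢ S2))
    (h0 : ∀ t, h (0, sqr t) = x t) (k : R4 → S4)
    (hk : ∀ p ∈ coreSphere 0, k p = h (1, (5 : ℝ) • p.2)) : FreeClass S y₀ k (hcl x) := by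
  have h5 : ∀ p ∈ coreSphere 0, (5 : ℝ) • p.2 ∈ S2 := by
    intro p hp
    rw [R.RELS.coreSphere_eq] at hp
    exact (R.EXC.scaled hp).1
  refine ⟨x, fun z => h (z.1, (5 : ℝ) • z.2.2), rfl, ?_, ?_, ?_, ?_⟩
  · refine continuous_subtype_val.comp_continuousOn (hc.comp ?_ ?_)
    · exact Continuous.continuousOn (by fun_prop)
    · rintro z ⟨hz, hz'⟩
      exact ⟨hz, h5 _ hz'⟩
  · intro t
    show ((h (0, (5 : ℝ) • ((1 / 5 : ℝ) • sqr t)) : {x : S4 // x ∉ S}) : S4) = x t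
    rw [smul_smul]
    norm_num
    rw [h0]
  · intro p hp
    exact (hk p hp).symm
  · intro u _ p _
    exact (h _).2

theorem drift_sub (hSQD : StSQD) (hMQ : R.StMQ) {S : Set S4} {y₀ : {x : S4 // x ∉ S}}
    {v : Pi2 S y₀} (hv : v ∈ drift y₀) :
    ∃ (k : R4 → S4) (x x' : Pi2 S y₀), FreeClass S y₀ k x ∧ FreeClass S y₀ k x' ∧
      v = x * x'⁻¹ := by
  obtain ⟨x, x', κ, ⟨F, f1, f2, f3, f4⟩, ⟨F', f1', f2', f3', f4'⟩, rfl⟩ := hv
  obtain ⟨h, h1, h2⟩ := hSQD _ F f1 f4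
  obtain ⟨h', h1', h2'⟩ := hSQD _ F' f1' f4'
  have hu0 : (0 : ℝ) ∈ Icc (0 : ℝ) 1 := ⟨le_rfl, zero_le_one⟩
  have hu1 : (1 : ℝ) ∈ Icc (0 : ℝ) 1 := ⟨zero_le_one, le_rfl⟩
  refine ⟨fun p => h (1, (5 : ℝ) • p.2), hcl x, hcl x', ?_, ?_, rfl⟩
  · exact fc x h h1 (fun t => (h2 0 hu0 t).trans (f2 t)) _ fun p _ => rfl
  · refine fc x' h' h1' (fun t => (h2' 0 hu0 t).trans (f2' t)) _ ?_
    intro p hp
    rw [R.RELS.coreSphere_eq] at hp
    obtain ⟨a, ha, b, hb, hab⟩ := hMQ.2.2.2.1 _ (R.EXC.scaled hp).1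
    have hs : sqr ![⟨a, ha⟩, ⟨b, hb⟩] = (5 : ℝ) • p.2 := by
      rw [← hab]
      rfl
    show ((h (1, (5 : ℝ) • p.2) : {x : S4 // x ∉ S}) : S4) = h' (1, (5 : ℝ) • p.2)
    rw [← hs, h2 1 hu1, h2' 1 hu1, f3, f3']

/-! ### the path -/

/-- from the middle of the bar to the first cuff, then along a meridian of it -/
noncomputable def bet (v : ℝ) : R4 :=
  if v ≤ 1 / 2 then (1 / 2, (1 / 2 - 3 / 5 * v, 0))
  else (1 / 2, (1 / 5 : ℝ) • PP 0 (2 * v - 1))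

theorem cont_PP : Continuous fun z : ℝ × ℝ => PP z.1 z.2 := by
  unfold PP
  fun_prop

theorem cont_bet : Continuous bet := by
  refine Continuous.if_le (by fun_prop) ?_ continuous_id continuous_const ?_
  · have h : Continuous fun v : ℝ => PP 0 (2 * v - 1) := by
      unfold PP
      fun_prop
    exact continuous_const.prodMk (h.const_smul (1 / 5 : ℝ))
  · intro v hv
    have hv' : v = 1 / 2 := hv
    rw [hv']
    unfold PP
    norm_num

theorem bet_lo {v : ℝ} (h : v ≤ 1 / 2) : bet v = (1 / 2, (1 / 2 - 3 / 5 * v, 0)) := if_pos h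

theorem bet_hi {v : ℝ} (h : 1 / 2 ≤ v) : bet v = (1 / 2, (1 / 5 : ℝ) • PP 0 (2 * v - 1)) := by
  unfold bet
  split_ifs with h'
  · have hv : v = 1 / 2 := le_antisymm h' h
    rw [hv]
    unfold PP
    norm_num
  · rfl

theorem fifth_sph {m : R3} (hm : m ∈ S2) : ((1 / 2, (1 / 5 : ℝ) • m) : R4) ∈ sph 0 := by
  have h : m.1 ^ 2 + m.2.re ^ 2 + m.2.im ^ 2 = 1 := hm
  refine ⟨rfl, ?_⟩
  show ((1 / 5 : ℝ) • m.1 - 0) ^ 2 + ((1 / 5 : ℝ) • m.2).re ^ 2 + ((1 / 5 : ℝ) • m.2).im ^ 2 = 1 / 25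
  simp only [Complex.smul_re, Complex.smul_im, smul_eq_mul, sub_zero]
  linear_combination (1 / 25 : ℝ) * h

theorem bet_SP (hPP : StPP) {v : ℝ} (h0 : 0 ≤ v) (h1 : v ≤ 1) : bet v ∈ SP := by
  rcases le_total v (1 / 2) with h | h
  · rw [bet_lo h]
    exact Or.inr ⟨rfl, by show (1 / 5 : ℝ) ≤ 1 / 2 - 3 / 5 * v; linarith,
      by show (1 / 2 - 3 / 5 * v : ℝ) ≤ 4 / 5; linarith, rfl⟩
  · rw [bet_hi h]
    exact Or.inl (Or.inl (fifth_sph (hPP.1 _ _)))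

theorem bet_not (hPP : StPP) {v : ℝ} (h0 : 0 ≤ v) (h1 : v ≤ 1) : bet v ∉ sph 1 := by
  rintro ⟨-, hr⟩
  rcases le_total v (1 / 2) with h | h
  · rw [bet_lo h] at hr
    have hr' : (1 / 2 - 3 / 5 * v - 1) ^ 2 + (0 : ℂ).re ^ 2 + (0 : ℂ).im ^ 2 = 1 / 25 := hr
    rw [Complex.zero_re, Complex.zero_im] at hr'
    have h5 := pow_le_pow_left₀ (by norm_num : (0 : ℝ) ≤ 1 / 2)
      (by linarith : (1 / 2 : ℝ) ≤ 1 / 2 + 3 / 5 * v) 2
    linarith
  · rw [bet_hi h] at hr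
    exact R.EXC.sph0_not_sph1 (fifth_sph (hPP.1 _ _)) ⟨rfl, hr⟩

theorem rotp_fix {θ : ℝ} {p : R4} (h : p.2.2 = 0) : rotp θ p = p := by
  unfold rotp
  rw [h, mul_zero]
  exact Prod.ext rfl (Prod.ext rfl h.symm)

/-! ### the chart is an open embedding -/

theorem open_emb {c : R4 → S4} (hc : EmbOn (𝓡 4) c univ) : Topology.IsOpenEmbedding c := by
  have h1 : IsLocalDiffeomorph 𝓘(ℝ, R4) (𝓡 4) ∞ c := fun p => hc.1 p (mem_univ p)
  have h2 : Function.Injective c := fun x y h => hc.2 (mem_univ x) (mem_univ y) h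
  exact Topology.IsOpenEmbedding.of_continuous_injective_isOpenMap h1.contMDiff.continuous h2
    h1.isOpenMap

theorem gc_pole (ζ : ℂ) : Helper34.S5.Gc ζ (-1, 0) = (1 / 2 + ζ.re, (4 / 5 - ζ.im, 0)) := by
  have h : Helper34.S5.nm (-1, 0) = 1 := by
    unfold Helper34.S5.nm
    have e : nsq ((-1, 0) : ℝ × ℂ) = 1 := by
      show (-1 : ℝ) ^ 2 + (0 : ℂ).re ^ 2 + (0 : ℂ).im ^ 2 = 1
      norm_num
    rw [e, Real.sqrt_one]
  unfold Helper34.S5.Gc
  rw [h, inv_one, mul_one]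
  refine Prod.ext rfl (Prod.ext ?_ ?_)
  · show (1 : ℝ) + (1 / 5 + ζ.im) * (-1) = 4 / 5 - ζ.im
    ring
  · show (0 : ℂ) + (1 / 5 + ζ.im) • (0 : ℂ) = 0
    simp

theorem gc_NB {ζ : ℂ} (h : ‖ζ‖ ≤ 1 / 40) : ((1 / 2 + ζ.re, (4 / 5 - ζ.im, 0)) : R4) ∈ NB := by
  have h1 := (Complex.abs_re_le_norm ζ).trans h
  have h2 := (Complex.abs_im_le_norm ζ).trans h
  rw [abs_le] at h1 h2
  refine ⟨⟨?_, ?_, ?_⟩, ?_, ?_⟩
  · show -1 ≤ 1 / 2 + ζ.re
    linarith
  · show 1 / 2 + ζ.re ≤ 2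
    linarith
  · show (4 / 5 - ζ.im - 0) ^ 2 + (0 : ℂ).re ^ 2 + (0 : ℂ).im ^ 2 ≤ (9 / 2) ^ 2
    have h5 := pow_le_pow_left₀ (by linarith : (0 : ℝ) ≤ 4 / 5 - ζ.im)
      (by linarith : 4 / 5 - ζ.im ≤ 9 / 2) 2
    rw [Complex.zero_re, Complex.zero_im]
    linarith
  · show (3 / 20) ^ 2 ≤ (4 / 5 - ζ.im - 0) ^ 2 + (0 : ℂ).re ^ 2 + (0 : ℂ).im ^ 2
    have h5 := pow_le_pow_left₀ (by norm_num : (0 : ℝ) ≤ 3 / 20)
      (by linarith : 3 / 20 ≤ 4 / 5 - ζ.im) 2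
    rw [Complex.zero_re, Complex.zero_im]
    linarith
  · show (3 / 20) ^ 2 ≤ (4 / 5 - ζ.im - 1) ^ 2 + (0 : ℂ).re ^ 2 + (0 : ℂ).im ^ 2
    have h5 := pow_le_pow_left₀ (by norm_num : (0 : ℝ) ≤ 3 / 20)
      (by linarith : 3 / 20 ≤ 1 / 5 + ζ.im) 2
    rw [Complex.zero_re, Complex.zero_im]
    linarith

theorem rotp_PP (θ v : ℝ) : rotp θ (1 / 2, (1 / 5 : ℝ) • PP 0 v) =
    (1 / 2, (1 / 5 : ℝ) • PP θ v) := by
  unfold rotp PP
  refine Prod.ext rfl (Prod.ext rfl ?_)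
  show Complex.exp (θ * Complex.I) * ((1 / 5 : ℝ) •
    ((Real.sin (Real.pi * v) : ℂ) * Complex.exp (((0 : ℝ) : ℂ) * Complex.I))) =
    (1 / 5 : ℝ) • ((Real.sin (Real.pi * v) : ℂ) * Complex.exp (θ * Complex.I))
  simp only [Complex.ofReal_zero, zero_mul, Complex.exp_zero, mul_one, Complex.real_smul]
  ring

/-- lifting a path along an open embedding -/
theorem lift_path {c : R4 → S4} (hc : Topology.IsOpenEmbedding c) {x y : S4} (p : Path x y)
    (hp : ∀ t, p t ∈ range c) {K : Set R4} {x' y' : Helper34.S5.Off K} (hx : c x' = x)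
    (hy : c y' = y) (hK : ∀ t z, c z = p t → z ∉ K) :
    ∃ q : Path x' y', ∀ t, c (q t) = p t := by
  choose g hg using hp
  have hgc : Continuous g := by
    rw [hc.isEmbedding.continuous_iff]
    have : c ∘ g = p := funext hg
    rw [this]
    exact p.continuous
  refine ⟨⟨⟨fun t => ⟨g t, hK t _ (hg t)⟩, hgc.subtype_mk _⟩, ?_, ?_⟩, hg⟩
  · refine Subtype.ext (hc.injective ?_)
    show c (g 0) = c x'
    rw [hg, p.source, hx]
  · refine Subtype.ext (hc.injective ?_)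
    show c (g 1) = c y'
    rw [hg, p.target, hy]

end SPN

open SPN in
theorem m_SPN (hPP : StPP) (hSQD : StSQD) (hABS : StABS) (hFIXP : StFIXP) (hCHT : StCHT)
    (hMQ : R.StMQ) : StSPN := by
  rintro B ⟨hNB, hB⟩
  have hSPs : SP ⊆ B.source := (BI.Fin2.SP_sub_NB).trans hNB
  have hinj : ∀ p ∈ NB, ∀ q ∈ NB, B p = B q → p = q := fun p hp q hq h =>
    B.injOn (hNB hp) (hNB hq) h
  have hSN : ∀ {p : R4}, p ∈ SP → p ∈ NB := fun hp => BI.Fin2.SP_sub_NB hp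
  have h1S : ∀ {p : R4}, p ∈ sph 1 → p ∈ SP := fun hp => Or.inl (Or.inr hp)
  -- the fixed cuff
  set S : Set S4 := Helper18.FinS.fixedCuff B with hS
  have hSe : S = B '' sph 1 := by
    rw [hS]
    unfold Helper18.FinS.fixedCuff Helper18.FinS.mp
    rw [R.RELS.coreSphere_eq]
  have hrot1 : ∀ θ, ∀ p ∈ sph 1, rotp θ p ∈ sph 1 := by
    rintro θ p ⟨h1, h2⟩
    refine ⟨h1, ?_⟩
    have e : Complex.normSq (Complex.exp (θ * Complex.I) * p.2.2) = Complex.normSq p.2.2 := by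
      rw [Complex.normSq_mul, Complex.normSq_eq_norm_sq, Complex.norm_exp_ofReal_mul_I]
      norm_num
    rw [Complex.normSq_apply, Complex.normSq_apply] at e
    have h2' : (p.2.1 - 1) ^ 2 + p.2.2.re ^ 2 + p.2.2.im ^ 2 = 1 / 25 := h2
    show (p.2.1 - 1) ^ 2 + (Complex.exp (θ * Complex.I) * p.2.2).re ^ 2 +
      (Complex.exp (θ * Complex.I) * p.2.2).im ^ 2 = 1 / 25
    linear_combination h2' + e
  have hSinv : ∀ θ, ∀ x ∈ S, spin4 θ x ∈ S := by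
    intro θ x hx
    rw [hSe] at hx ⊢
    obtain ⟨p, hp, rfl⟩ := hx
    exact ⟨rotp θ p, hrot1 θ p hp, hB p (hSN (h1S hp)) θ⟩
  obtain ⟨c, G, U, hc, hcfix, hG, hUo, hSPU, hU, hK⟩ := hCHT B hSPs
  have hco := open_emb hc
  set K : Set R4 := G '' sph 1 with hKdef
  have hKc : ∀ x : R4, x ∉ K → c x ∉ S := by
    intro x hx h
    rw [hSe] at h
    exact hx ((hK x).2 h)
  let e : Helper34.S5.Off K → {x : S4 // x ∉ S} := fun x => ⟨c x, hKc _ x.2⟩
  have he : Continuous e := (hco.continuous.comp continuous_subtype_val).subtype_mk _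
  let A : Act {x : S4 // x ∉ S} := actOff S hSinv
  have hGc : ContinuousOn G SP := fun p hp => (hG.1 p hp).contMDiffAt.continuousAt.continuousWithinAt
  have hKcl : IsClosed K := by
    refine IsCompact.isClosed (IsCompact.image_of_continuousOn ?_ (hGc.mono fun p hp => h1S hp))
    exact R.RELS.isCompact_sph 1
  have hcG : ∀ {p : R4}, p ∈ SP → c (G p) = B p := fun hp => hU _ (hSPU hp)
  -- the path
  have hbK : ∀ v ∈ Icc (0 : ℝ) 1, G (bet v) ∉ K := by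
    intro v hv h
    have h2 := (hK _).1 h
    rw [hcG (bet_SP hPP hv.1 hv.2)] at h2
    obtain ⟨q, hq, h3⟩ := h2
    have h4 := hinj q (hSN (h1S hq)) _ (hSN (bet_SP hPP hv.1 hv.2)) h3
    exact bet_not hPP hv.1 hv.2 (h4 ▸ hq)
  have hu0 : (0 : ℝ) ∈ Icc (0 : ℝ) 1 := ⟨le_rfl, zero_le_one⟩
  have hu1 : (1 : ℝ) ∈ Icc (0 : ℝ) 1 := ⟨zero_le_one, le_rfl⟩
  let a₀ : Helper34.S5.Off K := ⟨G (bet 0), hbK 0 hu0⟩
  let a₁ : Helper34.S5.Off K := ⟨G (bet 1), hbK 1 hu1⟩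
  let p : Path a₀ a₁ := ⟨⟨fun t => ⟨G (bet t), hbK t t.2⟩, Continuous.subtype_mk
    (hGc.comp_continuous (cont_bet.comp continuous_subtype_val)
      fun t => bet_SP hPP t.2.1 t.2.2) _⟩, by
        refine Subtype.ext ?_
        show G (bet ((0 : I) : ℝ)) = G (bet 0)
        rw [Icc.coe_zero], by
        refine Subtype.ext ?_
        show G (bet ((1 : I) : ℝ)) = G (bet 1)
        rw [Icc.coe_one]⟩
  have hpe : ∀ v ∈ Icc (0 : ℝ) 1, ((e (p.extend v) : {x : S4 // x ∉ S}) : S4) = B (bet v) := by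
    intro v hv
    rw [Path.extend_apply p hv]
    show c (G (bet v)) = B (bet v)
    exact hcG (bet_SP hPP hv.1 hv.2)
  have hfixB : ∀ {q : R4}, q ∈ SP → q.2.2 = 0 → ∀ θ, spin4 θ (B q) = B q := by
    intro q hq h θ
    rw [← hB q (hSN hq) θ, rotp_fix h]
  have hfixb : ∀ v ∈ Icc (0 : ℝ) 1, (v ≤ 1 / 2 ∨ v = 1) → e (p.extend v) ∈ A.Fix := by
    intro v hv hv' θ
    refine Subtype.ext ?_
    show spin4 θ ((e (p.extend v) : {x : S4 // x ∉ S}) : S4) = (e (p.extend v) : {x : S4 // x ∉ S})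
    rw [hpe v hv]
    refine hfixB (bet_SP hPP hv.1 hv.2) ?_ θ
    rcases hv' with h | h
    · rw [bet_lo h]
    · rw [h, bet_hi (by norm_num)]
      show (1 / 5 : ℝ) • (PP 0 (2 * 1 - 1)).2 = 0
      have e1 : (2 * 1 - 1 : ℝ) = 1 := by norm_num
      rw [e1]
      unfold PP
      simp
  -- the path of fixed points
  have hpole : ∀ x ∈ S, (∀ θ, spin4 θ x = x) → x = B (1 / 2, (4 / 5, 0)) ∨
      x = B (1 / 2, (6 / 5, 0)) := by
    intro x hx hfx
    rw [hSe] at hx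
    obtain ⟨q, hq, rfl⟩ := hx
    have h2 : rotp Real.pi q = q := by
      refine hinj _ (hSN (h1S (hrot1 _ q hq))) _ (hSN (h1S hq)) ?_
      rw [hB q (hSN (h1S hq)), hfx]
    have h3 : Complex.exp (Real.pi * Complex.I) * q.2.2 = q.2.2 := congrArg (fun p : R4 => p.2.2) h2
    rw [Complex.exp_pi_mul_I] at h3
    have h4 : q.2.2 = 0 := by
      have h5 : (2 : ℂ) * q.2.2 = 0 := by linear_combination -h3
      exact (mul_eq_zero.1 h5).resolve_left two_ne_zero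
    obtain ⟨h6, h7⟩ := hq
    have h7' : (q.2.1 - 1) ^ 2 + q.2.2.re ^ 2 + q.2.2.im ^ 2 = 1 / 25 := h7
    rw [h4, Complex.zero_re, Complex.zero_im] at h7'
    have h8 : (q.2.1 - 4 / 5) * (q.2.1 - 6 / 5) = 0 := by linear_combination h7'
    rcases mul_eq_zero.1 h8 with h | h
    · left
      congr 1
      exact Prod.ext h6 (Prod.ext (by show q.2.1 = 4 / 5; linarith only [h]) h4)
    · right
      congr 1
      exact Prod.ext h6 (Prod.ext (by show q.2.1 = 6 / 5; linarith only [h]) h4)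
  have hpS : B (1 / 2, (4 / 5, 0)) ∈ S ∧ B (1 / 2, (6 / 5, 0)) ∈ S := by
    rw [hSe]
    refine ⟨⟨_, ⟨rfl, ?_⟩, rfl⟩, ⟨_, ⟨rfl, ?_⟩, rfl⟩⟩
    · show (4 / 5 - 1 : ℝ) ^ 2 + (0 : ℂ).re ^ 2 + (0 : ℂ).im ^ 2 = 1 / 25
      rw [Complex.zero_re, Complex.zero_im]
      norm_num
    · show (6 / 5 - 1 : ℝ) ^ 2 + (0 : ℂ).re ^ 2 + (0 : ℂ).im ^ 2 = 1 / 25
      rw [Complex.zero_re, Complex.zero_im]
      norm_num
  have hnS : ∀ v ∈ Icc (0 : ℝ) 1, B (bet v) ∉ S := by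
    intro v hv h
    rw [← hpe v hv] at h
    exact (e (p.extend v)).2 h
  have hfx0 : ∀ θ, spin4 θ (B (bet 0)) = B (bet 0) := by
    intro θ
    have h := congrArg Subtype.val (hfixb 0 hu0 (Or.inl (by norm_num)) θ)
    rw [← hpe 0 hu0]
    exact h
  have hfx1 : ∀ θ, spin4 θ (B (bet 1)) = B (bet 1) := by
    intro θ
    have h := congrArg Subtype.val (hfixb 1 hu1 (Or.inr rfl) θ)
    rw [← hpe 1 hu1]
    exact h
  obtain ⟨p4, hp4⟩ := hFIXP (B (1 / 2, (4 / 5, 0))) (B (1 / 2, (6 / 5, 0))) (B (bet 0)) (B (bet 1))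
    (fun h => hnS 0 hu0 (h ▸ hpS.1)) (fun h => hnS 0 hu0 (h ▸ hpS.2))
    (fun h => hnS 1 hu1 (h ▸ hpS.1)) (fun h => hnS 1 hu1 (h ▸ hpS.2)) hfx0 hfx1
  obtain ⟨p', hp'⟩ := lift_path (K := K) (x' := a₀) (y' := a₁) hco p4
    (fun t => hcfix _ (hp4 t).2.2) (hcG (bet_SP hPP le_rfl zero_le_one))
    (hcG (bet_SP hPP zero_le_one le_rfl)) (by
      intro t z hz hzK
      have h2 := (hK z).1 hzK
      rw [hz, ← hSe] at h2
      rcases hpole _ h2 (hp4 t).2.2 with h3 | h3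
      · exact (hp4 t).1 h3
      · exact (hp4 t).2.1 h3)
  have hfixp' : ∀ t, e (p' t) ∈ A.Fix := by
    intro t θ
    refine Subtype.ext ?_
    show spin4 θ (c (p' t)) = c (p' t)
    rw [hp']
    exact (hp4 t).2.2 θ
  -- the tube
  obtain ⟨η, hη, T, hTκ, hTP, hTQ⟩ := Helper34.S5.exists_tub 𝓘(ℝ, R4) hG
  have hcont0 : ContinuousAt (fun ζ : ℂ => Helper34.S5.Gc ζ (-1, 0)) 0 := by
    have h : (fun ζ : ℂ => Helper34.S5.Gc ζ (-1, 0)) =
        fun ζ : ℂ => ((1 / 2 + ζ.re, (4 / 5 - ζ.im, 0)) : R4) := funext gc_pole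
    rw [h]
    fun_prop
  have hU0 : (fun ζ : ℂ => Helper34.S5.Gc ζ (-1, 0)) ⁻¹' U ∈ 𝓝 (0 : ℂ) := by
    refine hcont0 (hUo.mem_nhds (hSPU (h1S ?_)))
    show Helper34.S5.Gc 0 (-1, 0) ∈ sph 1
    rw [gc_pole]
    refine ⟨by show (1 / 2 + (0 : ℂ).re : ℝ) = 1 / 2; simp, ?_⟩
    show (4 / 5 - (0 : ℂ).im - 1) ^ 2 + (0 : ℂ).re ^ 2 + (0 : ℂ).im ^ 2 = 1 / 25
    rw [Complex.zero_re, Complex.zero_im]
    norm_num
  obtain ⟨r₀, hr₀, hr₀'⟩ := Metric.mem_nhds_iff.1 hU0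
  set r : ℝ := min (min (r₀ / 2) (η / 2)) (1 / 40) with hr
  have hrpos : 0 < r := by positivity
  have hr1 : r < r₀ := lt_of_le_of_lt ((min_le_left _ _).trans (min_le_left _ _)) (half_lt_self hr₀)
  have hr2 : r < η := lt_of_le_of_lt ((min_le_left _ _).trans (min_le_right _ _)) (half_lt_self hη)
  have hr3 : r ≤ 1 / 40 := min_le_right _ _
  have hz : (((Real.log r : ℝ) : ℂ), ((-1, 0) : R3)) ∈ {ℓ : ℂ | ℓ.re < T.κ} ×ˢ T.P := by
    rw [hTκ, hTP]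
    refine ⟨?_, ?_⟩
    · show ((Real.log r : ℝ) : ℂ).re < Real.log η
      rw [Complex.ofReal_re]
      exact Real.log_lt_log hrpos hr2
    · show ((-1, 0) : R3) ≠ 0
      intro h
      have h2 : (-1 : ℝ) = 0 := congrArg Prod.fst h
      norm_num at h2
  have hmer : ∀ (t : ℝ) (y' : Helper34.S5.Off K),
      (y' : R4) = T.Q (((Real.log r : ℝ) : ℂ) + (t : ℂ) * Helper34.S5.tpi, ((-1, 0) : R3)) →
      e y' ∈ A.Fix := by
    intro t y' hy' θ
    rw [hTQ] at hy'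
    set ζ : ℂ := Complex.exp (((Real.log r : ℝ) : ℂ) + (t : ℂ) * Helper34.S5.tpi) with hζ
    have hn : ‖ζ‖ = r := by
      rw [hζ, Complex.norm_exp, Complex.add_re, Helper34.S5.Tub.tpi_re, add_zero, Complex.ofReal_re,
        Real.exp_log hrpos]
    have hqU : Helper34.S5.Gc ζ (-1, 0) ∈ U := by
      refine hr₀' ?_
      rw [mem_ball_zero_iff, hn]
      exact hr1
    have h5 : c (y' : R4) = B (1 / 2 + ζ.re, (4 / 5 - ζ.im, 0)) := by
      rw [hy', hU _ hqU, gc_pole]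
    refine Subtype.ext ?_
    show spin4 θ (c y') = c y'
    rw [h5, ← hB _ (gc_NB (by rw [hn]; exact hr3)) θ, rotp_fix rfl]
  -- the based sphere of the path
  have hγ : ContinuousOn (fun v : ℝ => e (p.extend v)) (Icc (0 : ℝ) 1) :=
    (he.comp p.continuous_extend).continuousOn
  have hγ0 : (fun v : ℝ => e (p.extend v)) 0 ∈ A.Fix := hfixb 0 hu0 (Or.inl (by norm_num))
  have hγ1 : (fun v : ℝ => e (p.extend v)) 1 ∈ A.Fix := hfixb 1 hu1 (Or.inr rfl)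
  let f : GenLoop (Fin 2) {x : S4 // x ∉ S} (e a₀) :=
    ⟨⟨fun t => A.sph (fun v : ℝ => e (p.extend v)) (sqr t),
      (sph_cont hPP hγ hγ0 hγ1).comp_continuous R.EXC.continuous_sqr fun t => sqr_mem hPP t⟩, by
      intro t ht
      show A.sph (fun v : ℝ => e (p.extend v)) (sqr t) = e a₀
      rw [sqr_bd ht, sph_base hPP hγ0 hγ1]
      show e (p.extend 0) = e a₀
      rw [p.extend_zero]⟩
  have hmem := hABS _ A K e R3 T _ a₀ a₁ p p' hKcl he hz hmer hfixp' f fun t => rfl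
  refine Helper18.FinT.Elementary.sum B (e a₀) 0 (fun i => i.elim0) (fun i => i.elim0) (hcl f) hNB
    ?_ (fun i => i.elim0) (fun i => i.elim0) (fun i => i.elim0) ?_ ?_
  · show c (G (bet 0)) = B (1 / 2, (1 / 2, 0))
    rw [hcG (bet_SP hPP le_rfl zero_le_one), bet_lo (by norm_num)]
    norm_num
  · refine Subgroup.closure_mono ?_ hmem
    intro v hv
    exact Or.inr (drift_sub hSQD hMQ hv)
  · have hcc := hPP.2.2.2 {x : S4 // x ∉ S} I A
      (fun z => e (p.extend ((z.1 : ℝ) / 2 + (1 - (z.1 : ℝ) / 2) * z.2)))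
      (he.comp (p.continuous_extend.comp (by fun_prop))).continuousOn
      (fun z => hfixb _ ⟨by show (0 : ℝ) ≤ (z : ℝ) / 2 + (1 - (z : ℝ) / 2) * 0; linarith only [z.2.1],
        by show (z : ℝ) / 2 + (1 - (z : ℝ) / 2) * 0 ≤ 1; linarith only [z.2.2]⟩
        (Or.inl (by show (z : ℝ) / 2 + (1 - (z : ℝ) / 2) * 0 ≤ 1 / 2; linarith only [z.2.2])))
      (fun z => by
        have e1 : ((z : ℝ) / 2 + (1 - (z : ℝ) / 2) * 1) = 1 := by ring
        show e (p.extend ((z : ℝ) / 2 + (1 - (z : ℝ) / 2) * 1)) ∈ A.Fix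
        rw [e1]
        exact hγ1)
    refine fc f (fun z => A.sph (fun v => e (p.extend
      (((projIcc (0 : ℝ) 1 zero_le_one z.1 : I) : ℝ) / 2 +
        (1 - ((projIcc (0 : ℝ) 1 zero_le_one z.1 : I) : ℝ) / 2) * v))) z.2) ?_ ?_ _ ?_
    · refine hcc.comp (f := fun z : ℝ × R3 => ((projIcc (0 : ℝ) 1 zero_le_one z.1, z.2) : I × R3))
        ?_ fun z hz => ⟨mem_univ _, hz.2⟩
      exact ((continuous_projIcc.comp continuous_fst).prodMk continuous_snd).continuousOn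
    · intro t
      show A.sph (fun v => e (p.extend
        (((projIcc (0 : ℝ) 1 zero_le_one 0 : I) : ℝ) / 2 +
        (1 - ((projIcc (0 : ℝ) 1 zero_le_one 0 : I) : ℝ) / 2) * v))) (sqr t) =
        A.sph (fun v : ℝ => e (p.extend v)) (sqr t)
      rw [projIcc_left]
      congr 1
      funext v
      simp only [zero_div, sub_zero, one_mul, zero_add]
    · intro q hq
      rw [R.RELS.coreSphere_eq] at hq
      obtain ⟨hm, hmq⟩ := R.EXC.scaled hq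
      set m : R3 := (5 : ℝ) • q.2 with hmdef
      obtain ⟨h1, h2, h3⟩ := hPP.2.2.1 m hm
      show B q = spin4 (lon m) ((e (p.extend
        (((projIcc (0 : ℝ) 1 zero_le_one 1 : I) : ℝ) / 2 +
        (1 - ((projIcc (0 : ℝ) 1 zero_le_one 1 : I) : ℝ) / 2) * lat m)) : {x : S4 // x ∉ S}) : S4)
      rw [projIcc_right]
      have e1 : ((1 : ℝ) / 2 + (1 - 1 / 2) * lat m) ∈ Icc (0 : ℝ) 1 :=
        ⟨by linarith only [h3.1], by linarith only [h3.2]⟩
      show B q = spin4 (lon m) ((e (p.extend ((1 : ℝ) / 2 + (1 - 1 / 2) * lat m)) :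
        {x : S4 // x ∉ S}) : S4)
      rw [hpe _ e1, bet_hi (by linarith only [h3.1])]
      have e2 : 2 * ((1 : ℝ) / 2 + (1 - 1 / 2) * lat m) - 1 = lat m := by ring
      rw [e2]
      have e3 : ((1 / 2, (1 / 5 : ℝ) • PP 0 (lat m)) : R4) ∈ NB :=
        hSN (Or.inl (Or.inl (fifth_sph (hPP.1 _ _))))
      rw [← hB _ e3, rotp_PP, h1, hmq]

end Pool.Agent.Helper70.T


end
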