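import Pool.Agent.Helper18.BI.R.FinDefs
import Pool.Agent.Helper65.Barb.Defs
import Pool.Agent.Helper70.BI.C.P57
import Pool.Agent.Helper70.BI.C.P65
import Pool.Agent.Helper70.BI.C.P75
import Pool.Agent.Helper70.BI.C.P79

/-!
# Project BI (MP_8e98f2_gt): collected modules, part 81

The contents of the modules
* Helper61.BI6.M_FIXP
* Helper71.BI6.M_CHT
* Helper70.BI.T.AsmT0
* Helper8.BI6.M_ABS
* Helper70.BI.T.AsmT

in one file, so that the whole proof builds in a short time.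
-/

namespace Pool.Agent.Helper18.BI
end Pool.Agent.Helper18.BI

namespace Pool.Agent.Helper18.BI.R
end Pool.Agent.Helper18.BI.R

namespace Pool.Agent.Helper18.FinR
end Pool.Agent.Helper18.FinR

namespace Pool.Agent.Helper34.S5
end Pool.Agent.Helper34.S5

namespace Pool.Agent.Helper65.Barb
end Pool.Agent.Helper65.Barb


/-! ## Helper61.BI6.M_FIXP -/

section

/-!
# Fixed points of the rotation of the 4-sphere: paths avoiding two points
-/

set_option autoImplicit false

open scoped unitInterval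
open Set Pool.Agent.Helper65.Barb

namespace Pool.Agent.Helper70.T

namespace FIXP

/-- three-space -/
abbrev E3 : Type := EuclideanSpace ℝ (Fin 3)

/-- the 2-sphere -/
abbrev Sp2 : Type := Metric.sphere (0 : E3) 1

theorem mem_Sp2 {x : E3} :
    x ∈ Metric.sphere (0 : E3) 1 ↔ x 0 ^ 2 + x 1 ^ 2 + x 2 ^ 2 = 1 := by
  rw [mem_sphere_zero_iff_norm, EuclideanSpace.norm_eq, Real.sqrt_eq_one]
  simp only [Fin.sum_univ_three, Real.norm_eq_abs, sq_abs]

/-- two points of the sphere are joined by a path avoiding two given points -/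
theorem core (a b u v : Sp2) (hua : u ≠ a) (hub : u ≠ b) (hva : v ≠ a) (hvb : v ≠ b) :
    ∃ p : Path u v, ∀ t, p t ≠ a ∧ p t ≠ b := by
  have ha : ‖(a : E3)‖ = 1 := mem_sphere_zero_iff_norm.1 a.2
  have hfr : Module.finrank ℝ E3 = 2 + 1 := by simp
  have hF : Fact (Module.finrank ℝ E3 = 2 + 1) := ⟨hfr⟩
  have ha0 : (a : E3) ≠ 0 := by
    intro h
    rw [h, norm_zero] at ha
    exact zero_ne_one ha
  have hfr2 : Module.finrank ℝ (ℝ ∙ (a : E3))ᗮ = 2 :=
    Submodule.finrank_orthogonal_span_singleton ha0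
  have hrk : 1 < Module.rank ℝ (ℝ ∙ (a : E3))ᗮ := by
    rw [← Module.finrank_eq_rank, hfr2]
    exact_mod_cast one_lt_two
  have hinv : ∀ x : Sp2, x ≠ a → stereoInvFun ha (stereoToFun (a : E3) x) = x := by
    intro x hx
    apply stereo_left_inv ha
    intro h
    exact hx (Subtype.ext h)
  have hne : ∀ w, stereoInvFun ha w ≠ a := by
    intro w
    exact stereoInvFun_ne_north_pole ha w
  have key : ∃ q : Path (stereoToFun (a : E3) u) (stereoToFun (a : E3) v),
      ∀ t, stereoInvFun ha (q t) ≠ b := by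
    by_cases hba : b = a
    · refine ⟨PathConnectedSpace.somePath _ _, fun t => ?_⟩
      rw [hba]
      exact hne _
    · have hc := isPathConnected_compl_singleton_of_one_lt_rank hrk (stereoToFun (a : E3) b)
      have hu : stereoToFun (a : E3) u ∈ ({stereoToFun (a : E3) b}ᶜ : Set (ℝ ∙ (a : E3))ᗮ) := by
        intro h
        apply hub
        rw [← hinv u hua, ← hinv b hba, mem_singleton_iff.1 h]
      have hv : stereoToFun (a : E3) v ∈ ({stereoToFun (a : E3) b}ᶜ : Set (ℝ ∙ (a : E3))ᗮ) := by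
        intro h
        apply hvb
        rw [← hinv v hva, ← hinv b hba, mem_singleton_iff.1 h]
      have hj := hc.joinedIn _ hu _ hv
      refine ⟨hj.somePath, fun t h => ?_⟩
      have h2 := hj.somePath_mem t
      apply h2
      rw [mem_singleton_iff, ← stereo_right_inv ha (hj.somePath t), h]
  obtain ⟨q, hq⟩ := key
  refine ⟨((q.map (continuous_stereoInvFun ha)).cast (hinv u hua).symm (hinv v hva).symm),
    fun t => ⟨hne _, hq t⟩⟩

/-- the point of the sphere with coordinate `i` equal to `1` -/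
noncomputable def pt (i : Fin 3) : Sp2 :=
  ⟨EuclideanSpace.single i 1, by simp⟩

theorem pt_inj {i j : Fin 3} (h : pt i = pt j) : i = j := by
  have h2 : (pt i : E3) i = (pt j : E3) i := by rw [h]
  by_contra hc
  simp [pt, hc] at h2

theorem third (u v : Sp2) : ∃ c : Sp2, c ≠ u ∧ c ≠ v := by
  by_contra hc
  have h : ∀ c : Sp2, c ≠ u → c = v := by
    intro c hcu
    by_contra hcv
    exact hc ⟨c, hcu, hcv⟩
  have d01 : pt 0 ≠ pt 1 := fun e => absurd (pt_inj e) (by decide)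
  have d02 : pt 0 ≠ pt 2 := fun e => absurd (pt_inj e) (by decide)
  have d12 : pt 1 ≠ pt 2 := fun e => absurd (pt_inj e) (by decide)
  by_cases h0 : pt 0 = u
  · have h1 : pt 1 = v := h _ (fun e => d01 (h0.trans e.symm))
    have h2 : pt 2 = v := h _ (fun e => d02 (h0.trans e.symm))
    exact d12 (h1.trans h2.symm)
  · have h0v : pt 0 = v := h _ h0
    by_cases h1 : pt 1 = u
    · have h2 : pt 2 = v := h _ (fun e => d12 (h1.trans e.symm))
      exact d02 (h0v.trans h2.symm)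
    · exact d01 (h0v.trans (h _ h1).symm)

/-- the fixed sphere -/
noncomputable def emb (u : Sp2) : S4 :=
  ⟨!₂[(u : E3) 0, (u : E3) 1, (u : E3) 2, 0, 0], by
    have h := mem_Sp2.1 u.2
    rw [mem_S4]
    simp only [Fin.isValue, PiLp.toLp_apply]
    simp
    linarith⟩

theorem emb_cont : Continuous emb := by
  unfold emb
  refine Continuous.subtype_mk ?_ _
  refine (PiLp.continuous_toLp 2 _).comp ?_
  refine continuous_pi ?_
  intro i
  fin_cases i
  · exact (EuclideanSpace.proj (𝕜 := ℝ) (0 : Fin 3)).continuous.comp continuous_subtype_val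
  · exact (EuclideanSpace.proj (𝕜 := ℝ) (1 : Fin 3)).continuous.comp continuous_subtype_val
  · exact (EuclideanSpace.proj (𝕜 := ℝ) (2 : Fin 3)).continuous.comp continuous_subtype_val
  · exact continuous_const
  · exact continuous_const

theorem emb_fix (u : Sp2) (θ : ℝ) : spin4 θ (emb u) = emb u := by
  apply Subtype.ext
  ext i
  change turn θ (emb u).1 i = (emb u).1 i
  fin_cases i
  · rfl
  · rfl
  · rfl
  · change Real.cos θ * (0 : ℝ) - Real.sin θ * (0 : ℝ) = 0
    ring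
  · change Real.sin θ * (0 : ℝ) + Real.cos θ * (0 : ℝ) = 0
    ring

theorem fix_coord {x : S4} (h : ∀ θ, spin4 θ x = x) : (x : EuclideanSpace ℝ (Fin 5)) 3 = 0 ∧
    (x : EuclideanSpace ℝ (Fin 5)) 4 = 0 := by
  have h1 : turn Real.pi x.1 = x.1 := congrArg Subtype.val (h Real.pi)
  have h3 : turn Real.pi x.1 3 = x.1 3 := by rw [h1]
  have h4 : turn Real.pi x.1 4 = x.1 4 := by rw [h1]
  rw [turn_3, Real.cos_pi, Real.sin_pi] at h3
  rw [turn_4, Real.cos_pi, Real.sin_pi] at h4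
  constructor <;> linarith

theorem exists_emb {x : S4} (h : ∀ θ, spin4 θ x = x) : ∃ u : Sp2, emb u = x := by
  obtain ⟨h3, h4⟩ := fix_coord h
  have hx := mem_S4.1 x.2
  refine ⟨⟨!₂[x.1 0, x.1 1, x.1 2], ?_⟩, ?_⟩
  · rw [mem_Sp2]
    change x.1 0 ^ 2 + x.1 1 ^ 2 + x.1 2 ^ 2 = 1
    rw [h3, h4] at hx
    linarith
  · apply Subtype.ext
    ext i
    fin_cases i
    · rfl
    · rfl
    · rfl
    · exact h3.symm
    · exact h4.symm

theorem emb_inj {u v : Sp2} (h : emb u = emb v) : u = v := by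
  have h0 : (emb u).1 0 = (emb v).1 0 := by rw [h]
  have h1 : (emb u).1 1 = (emb v).1 1 := by rw [h]
  have h2 : (emb u).1 2 = (emb v).1 2 := by rw [h]
  apply Subtype.ext
  ext i
  fin_cases i
  · exact h0
  · exact h1
  · exact h2

/-- the point of the 2-sphere to be avoided -/
theorem avoid (a : S4) (u v : Sp2) (hu : emb u ≠ a) (hv : emb v ≠ a) :
    ∃ a' : Sp2, u ≠ a' ∧ v ≠ a' ∧ ∀ w : Sp2, w ≠ a' → emb w ≠ a := by
  by_cases h : ∃ a' : Sp2, emb a' = a
  · obtain ⟨a', rfl⟩ := h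
    exact ⟨a', fun e => hu (by rw [e]), fun e => hv (by rw [e]), fun w hw e => hw (emb_inj e)⟩
  · obtain ⟨c, hcu, hcv⟩ := third u v
    exact ⟨c, hcu.symm, hcv.symm, fun w _ e => h ⟨w, e⟩⟩

end FIXP

open FIXP in
/-- MODULE FIXP -/
theorem m_FIXP : StFIXP := by
  intro a b x y hxa hxb hya hyb hx hy
  obtain ⟨u, rfl⟩ := exists_emb hx
  obtain ⟨v, rfl⟩ := exists_emb hy
  obtain ⟨a', hua, hva, ha⟩ := avoid a u v hxa hya
  obtain ⟨b', hub, hvb, hb⟩ := avoid b u v hxb hyb
  obtain ⟨p, hp⟩ := core a' b' u v hua hub hva hvb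
  exact ⟨p.map emb_cont, fun t => ⟨ha _ (hp t).1, hb _ (hp t).2, fun θ => emb_fix _ θ⟩⟩

end Pool.Agent.Helper70.T


end

/-! ## Helper71.BI6.M_CHT -/

section

/-!
# Project BI, stage 6 (T), module CHT (a chart containing the spine and the fixed points)
-/

set_option autoImplicit false

open scoped Topology unitInterval Manifold ContDiff ComplexConjugate
open Set Pool.Agent.Helper65.Barb Pool.Agent.Helper18.BI

namespace Pool.Agent.Helper70.T

namespace CHT

/-- the fixed points of the rotation -/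
def L : Set S4 := {x | x.1 3 = 0 ∧ x.1 4 = 0}

theorem mem_L {x : S4} (h : ∀ θ, spin4 θ x = x) : x ∈ L := by
  have h1 : turn Real.pi x = x.1 := congrArg Subtype.val (h Real.pi)
  have h3 := congrArg (fun z : EuclideanSpace ℝ (Fin 5) => z 3) h1
  have h4 := congrArg (fun z : EuclideanSpace ℝ (Fin 5) => z 4) h1
  simp only [turn_3, turn_4, Real.cos_pi, Real.sin_pi] at h3 h4
  constructor
  · linarith
  · linarith

theorem continuous_coord (i : Fin 5) : Continuous fun x : S4 => x.1 i :=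
  (EuclideanSpace.proj (𝕜 := ℝ) i).continuous.comp continuous_subtype_val

theorem isClosed_L : IsClosed L :=
  (isClosed_eq (continuous_coord 3) continuous_const).inter
    (isClosed_eq (continuous_coord 4) continuous_const)

/-- moving a point of `L` in the third coordinate -/
noncomputable def mv (x : EuclideanSpace ℝ (Fin 5)) (θ : ℝ) : EuclideanSpace ℝ (Fin 5) :=
  !₂[Real.cos θ * x 0, Real.cos θ * x 1, Real.cos θ * x 2, Real.sin θ, 0]

theorem mv_mem {x : S4} (hx : x ∈ L) (θ : ℝ) :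
    mv x.1 θ ∈ Metric.sphere (0 : EuclideanSpace ℝ (Fin 5)) 1 := by
  have h := mem_S4.1 x.2
  rw [hx.1, hx.2] at h
  rw [mem_S4]
  show (Real.cos θ * x.1 0) ^ 2 + (Real.cos θ * x.1 1) ^ 2 + (Real.cos θ * x.1 2) ^ 2 +
    (Real.sin θ) ^ 2 + 0 ^ 2 = 1
  have h2 := Real.sin_sq_add_cos_sq θ
  linear_combination (Real.cos θ) ^ 2 * h + h2

theorem continuous_mv (x : EuclideanSpace ℝ (Fin 5)) : Continuous (mv x) := by
  unfold mv
  refine (PiLp.continuous_toLp 2 _).comp (continuous_pi fun i => ?_)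
  fin_cases i
  · exact Real.continuous_cos.mul continuous_const
  · exact Real.continuous_cos.mul continuous_const
  · exact Real.continuous_cos.mul continuous_const
  · exact Real.continuous_sin
  · exact continuous_const

theorem mv_zero {x : S4} (hx : x ∈ L) : mv x.1 0 = x.1 := by
  ext i
  fin_cases i
  · show Real.cos 0 * x.1 0 = x.1 0
    rw [Real.cos_zero, one_mul]
  · show Real.cos 0 * x.1 1 = x.1 1
    rw [Real.cos_zero, one_mul]
  · show Real.cos 0 * x.1 2 = x.1 2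
    rw [Real.cos_zero, one_mul]
  · show Real.sin 0 = x.1 3
    rw [Real.sin_zero, hx.1]
  · show (0 : ℝ) = x.1 4
    rw [hx.2]

theorem interior_L : interior L = ∅ := by
  rw [eq_empty_iff_forall_notMem]
  intro x hx
  have hxL : x ∈ L := interior_subset hx
  have hf : Continuous fun θ : ℝ => (⟨mv x.1 θ, mv_mem hxL θ⟩ : S4) :=
    (continuous_mv x.1).subtype_mk _
  have h0 : (⟨mv x.1 0, mv_mem hxL 0⟩ : S4) = x := Subtype.ext (mv_zero hxL)
  have h1 : ∀ᶠ θ in 𝓝 (0 : ℝ), (⟨mv x.1 θ, mv_mem hxL θ⟩ : S4) ∈ interior L := by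
    apply hf.continuousAt.eventually
    show ∀ᶠ z in 𝓝 (⟨mv x.1 0, mv_mem hxL 0⟩ : S4), z ∈ interior L
    rw [h0]
    exact isOpen_interior.mem_nhds hx
  obtain ⟨ε, hε, h2⟩ := Metric.eventually_nhds_iff.1 h1
  set θ : ℝ := min (ε / 2) 1 with hθ
  have t0 : 0 < θ := lt_min (by linarith) one_pos
  have t1 : θ < ε := (min_le_left _ _).trans_lt (by linarith)
  have t2 : θ < Real.pi := (min_le_right _ _).trans_lt (by linarith [Real.pi_gt_three])
  have h3 := interior_subset (h2 (y := θ) (by rw [Real.dist_0_eq_abs, abs_of_pos t0]; exact t1))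
  have h4 : Real.sin θ = 0 := h3.1
  exact absurd h4 (Real.sin_pos_of_pos_of_lt_pi t0 t2).ne'

end CHT

open CHT in
theorem m_CHT (hX2c : Pool.Agent.Helper70.BI.StX2c) (hX3 : StX3) : StCHT := by
  intro B hB
  have hcl := X2.closed_image B hB
  have hint : interior (B '' SP ∪ L) = ∅ := by
    rw [interior_union_isClosed_of_interior_empty hcl interior_L]
    exact X2.interior_image B hB
  obtain ⟨c, hc, hcr⟩ := hX2c (B '' SP ∪ L) (hcl.union isClosed_L).isCompact hint
  have hBE : EmbOn (𝓡 4) B SP :=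
    ⟨fun p hp => ⟨B, hB hp, fun q _ => rfl⟩, B.toPartialEquiv.injOn.mono hB⟩
  obtain ⟨h1, U, hU, hSU, h2⟩ := hX3 (EuclideanSpace ℝ (Fin 4)) (EuclideanSpace ℝ (Fin 4)) (𝓡 4) S4
    c B SP hc hBE (subset_union_left.trans hcr)
  refine ⟨c, fun p => Function.invFun c (B p), U, hc, fun x hx => hcr (Or.inr (mem_L hx)), h1, hU,
    hSU, h2, fun x => ⟨?_, ?_⟩⟩
  · rintro ⟨p, hp, rfl⟩
    exact ⟨p, hp, (h2 p (hSU (Or.inl (Or.inr hp)))).symm⟩
  · rintro ⟨p, hp, he⟩
    refine ⟨p, hp, ?_⟩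
    exact hc.2 (mem_univ _) (mem_univ _) ((h2 p (hSU (Or.inl (Or.inr hp)))).trans he)

end Pool.Agent.Helper70.T


end

/-! ## Helper70.BI.T.AsmT0 -/

section

/-!
# Project BI, stage 6 (T): assembly
-/

set_option autoImplicit false

open Pool.Agent.Helper18.BI Pool.Agent.Helper65.Barb

namespace Pool.Agent.Helper70.T

theorem hMUL : StMUL := m_MUL m_PP m_SQR

theorem hCHT : StCHT := m_CHT Pool.Agent.Helper70.BI.hX2c Pool.Agent.Helper18.BI.hX3

theorem hSPN_of (hABS : StABS) (hFIXP : StFIXP) : StSPN :=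
  m_SPN m_PP m_SQD hABS hFIXP hCHT Pool.Agent.Helper18.BI.R.m_MQ

end Pool.Agent.Helper70.T


end

/-! ## Helper8.BI6.M_ABS -/

section

/-!
# Project BI, stage 6 (T), module ABS: the van Kampen argument for swept spheres
-/

set_option autoImplicit false

open scoped Topology unitInterval Manifold ContDiff ComplexConjugate
open Set Pool.Agent.Helper65.Barb Pool.Agent.Helper18.BI
open Pool.Agent.Helper18.FinR (sqr)
open Pool.Agent.Helper18.BI.R (S2)
open Pool.Agent.Helper34.S5 (Off Hom cl RelP Tub tpi vk)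

namespace Pool.Agent.Helper70.T

namespace ABS

/-! ### the parametrization of the sphere by the square -/

theorem sqr_cont : Continuous sqr := by
  unfold Pool.Agent.Helper18.FinR.sqr
  refine Continuous.prodMk (by fun_prop) ?_
  have : (fun t : Fin 2 → I =>
      (⟨-(2 * Real.sin (Real.pi * t 0) * Real.sin (Real.pi * t 1) * Real.cos (Real.pi * t 1)),
      2 * Real.sin (Real.pi * t 0) * Real.cos (Real.pi * t 0) * Real.sin (Real.pi * t 1) ^ 2⟩ :
        ℂ)) = fun t => Complex.equivRealProdCLM.symm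
      (-(2 * Real.sin (Real.pi * t 0) * Real.sin (Real.pi * t 1) * Real.cos (Real.pi * t 1)),
      2 * Real.sin (Real.pi * t 0) * Real.cos (Real.pi * t 0) * Real.sin (Real.pi * t 1) ^ 2) := by
    funext t
    apply Complex.ext
    · simp
    · simp
  rw [this]
  exact Complex.equivRealProdCLM.symm.continuous.comp (by fun_prop)

theorem sqr_S2 (t : Fin 2 → I) : sqr t ∈ S2 := by
  show nsq (sqr t) = 1
  unfold nsq Pool.Agent.Helper18.FinR.sqr
  simp only
  have h1 : Real.cos (Real.pi * t 0) ^ 2 = 1 - Real.sin (Real.pi * t 0) ^ 2 := Real.cos_sq' _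
  have h2 : Real.cos (Real.pi * t 1) ^ 2 = 1 - Real.sin (Real.pi * t 1) ^ 2 := Real.cos_sq' _
  generalize Real.sin (Real.pi * t 0) = a at *
  generalize Real.sin (Real.pi * t 1) = b at *
  linear_combination (4 * a ^ 2 * b ^ 4) * h1 + (4 * a ^ 2 * b ^ 2) * h2

theorem sqr_bd {t : Fin 2 → I} (ht : t ∈ Cube.boundary (Fin 2)) : sqr t = (1, 0) := by
  have hs : Real.sin (Real.pi * t 0) = 0 ∨ Real.sin (Real.pi * t 1) = 0 := by
    rcases mem_bd ht with h | h | h | h
    · left; rw [h, Icc.coe_zero, mul_zero, Real.sin_zero]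
    · left; rw [h, Icc.coe_one, mul_one, Real.sin_pi]
    · right; rw [h, Icc.coe_zero, mul_zero, Real.sin_zero]
    · right; rw [h, Icc.coe_one, mul_one, Real.sin_pi]
  unfold Pool.Agent.Helper18.FinR.sqr
  rcases hs with h | h
  · rw [h]
    refine Prod.ext (by simp) (Complex.ext (by simp) (by simp))
  · rw [h]
    refine Prod.ext (by simp) (Complex.ext (by simp) (by simp))

section
variable {X : Type} [TopologicalSpace X] {A : Act X}

/-- the swept sphere only depends on the values in `[0, 1]` -/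
theorem sph_congr (hPP : StPP) {γ γ' : ℝ → X} (h : ∀ v ∈ Icc (0 : ℝ) 1, γ v = γ' v) {m : R3}
    (hm : m ∈ S2) : A.sph γ m = A.sph γ' m := by
  unfold Act.sph
  rw [h _ (hPP.2.2.1 m hm).2.2]

/-- homotopies -/
theorem hcl_htpy (hPP : StPP) {x₀ : X} (Γ : I × ℝ → X)
    (hΓ : ContinuousOn Γ (univ ×ˢ Icc (0 : ℝ) 1)) (h00 : x₀ ∈ A.Fix) (h0 : ∀ u, Γ (u, 0) = x₀)
    (h1 : ∀ u, Γ (u, 1) ∈ A.Fix) {f g : GenLoop (Fin 2) X x₀}
    (hf : ∀ t, f t = A.sph (fun v => Γ (0, v)) (sqr t))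
    (hg : ∀ t, g t = A.sph (fun v => Γ (1, v)) (sqr t)) : hcl f = hcl g := by
  have hF0 : ∀ u, Γ (u, 0) ∈ A.Fix := fun u => by rw [h0 u]; exact h00
  have hc := hPP.2.2.2 X I A Γ hΓ hF0 h1
  refine hcl_eq_of (fun z => A.sph (fun v => Γ (z.1, v)) (sqr z.2)) ?_ (fun t => (hf t).symm)
    (fun t => (hg t).symm) ?_
  · exact hc.comp_continuous (continuous_fst.prodMk (sqr_cont.comp continuous_snd))
      fun z => ⟨mem_univ _, sqr_S2 _⟩
  · intro u t ht
    show A.sph (fun v => Γ (u, v)) (sqr t) = x₀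
    rw [sqr_bd ht, sph_base hPP (γ := fun v => Γ (u, v)) (hF0 u) (h1 u)]
    exact h0 u

variable {K : Set R4} {e : Off K → X}

/-- the swept sphere of a path -/
noncomputable def sgl (hPP : StPP) (A : Act X) (he : Continuous e) {y₀ y₁ : Off K}
    (h0 : e y₀ ∈ A.Fix) (h1 : e y₁ ∈ A.Fix) (p : Path y₀ y₁) : GenLoop (Fin 2) X (e y₀) :=
  ⟨⟨fun t => A.sph (fun v => e (p.extend v)) (sqr t), by
    have hγ : ContinuousOn (fun v => e (p.extend v)) (Icc (0 : ℝ) 1) :=
      (he.comp p.continuous_extend).continuousOn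
    exact (sph_cont (A := A) hPP hγ (by simpa using h0) (by simpa using h1)).comp_continuous sqr_cont
      sqr_S2⟩, by
    intro t ht
    show A.sph (fun v => e (p.extend v)) (sqr t) = e y₀
    rw [sqr_bd ht, sph_base hPP (γ := fun v => e (p.extend v)) (by simpa using h0)
      (by simpa using h1)]
    simp⟩

theorem sgl_apply (hPP : StPP) (he : Continuous e) {y₀ y₁ : Off K}
    (h0 : e y₀ ∈ A.Fix) (h1 : e y₁ ∈ A.Fix) (p : Path y₀ y₁) (t : Fin 2 → I) :
    sgl hPP A he h0 h1 p t = A.sph (fun v => e (p.extend v)) (sqr t) := rfl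

/-- (0) homotopic paths -/
theorem sgl_htpy (hPP : StPP) (he : Continuous e) {y₀ y₁ : Off K}
    (h0 : e y₀ ∈ A.Fix) (h1 : e y₁ ∈ A.Fix) {p p' : Path y₀ y₁} (h : cl p = cl p') :
    hcl (sgl hPP A he h0 h1 p) = hcl (sgl hPP A he h0 h1 p') := by
  obtain ⟨P⟩ := Path.Homotopic.Quotient.eq.1 h
  refine hcl_htpy (A := A) hPP (fun z : I × ℝ => e (P (z.1, projIcc 0 1 zero_le_one z.2))) ?_ h0
    ?_ ?_ ?_ ?_
  · exact (he.comp (P.continuous.comp (continuous_fst.prodMk
      (continuous_projIcc.comp continuous_snd)))).continuousOn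
  · intro u
    show e (P (u, projIcc 0 1 zero_le_one (0 : ℝ))) = e y₀
    rw [projIcc_left]
    exact congrArg e (P.source _)
  · intro u
    show e (P (u, projIcc 0 1 zero_le_one (1 : ℝ))) ∈ A.Fix
    rw [projIcc_right]
    have := P.target u
    rw [show (P (u, ⟨1, _⟩)) = y₁ from this]
    exact h1
  · intro t
    rw [sgl_apply]
    refine sph_congr hPP (fun v hv => ?_) (sqr_S2 t)
    show e (p.extend v) = e (P (0, projIcc 0 1 zero_le_one v))
    rw [P.apply_zero]
    rfl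
  · intro t
    rw [sgl_apply]
    refine sph_congr hPP (fun v hv => ?_) (sqr_S2 t)
    show e (p'.extend v) = e (P (1, projIcc 0 1 zero_le_one v))
    rw [P.apply_one]
    rfl

theorem ext_lo {x y z : Off K} (p : Path x y) (k : Path y z) {v : ℝ} (hv : v ∈ Icc (0 : ℝ) 1) :
    (p.trans k).extend (v / 2) = p.extend v := by
  have h1 : v / 2 ∈ Icc (0 : ℝ) 1 := ⟨by linarith [hv.1], by linarith [hv.2]⟩
  rw [Path.extend_apply _ h1, Path.trans_apply, dif_pos (show ((⟨v / 2, h1⟩ : I) : ℝ) ≤ 1 / 2 by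
    show v / 2 ≤ 1 / 2
    linarith [hv.2]), Path.extend_apply _ hv]
  congr 1
  apply Subtype.ext
  show 2 * (v / 2) = v
  ring

theorem ext_hi {x y z : Off K} (p : Path x y) (k : Path y z) {v : ℝ} (hv : v ∈ Icc (0 : ℝ) 1) :
    (p.trans k).extend (1 / 2 + v / 2) = k.extend v := by
  have h1 : 1 / 2 + v / 2 ∈ Icc (0 : ℝ) 1 := ⟨by linarith [hv.1], by linarith [hv.2]⟩
  rw [Path.extend_apply _ h1, Path.trans_apply]
  by_cases h2 : ((⟨1 / 2 + v / 2, h1⟩ : I) : ℝ) ≤ 1 / 2
  · have h3 : v = 0 := by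
      have h4 : 1 / 2 + v / 2 ≤ 1 / 2 := h2
      linarith [hv.1]
    subst h3
    rw [dif_pos h2]
    have h5 : (⟨2 * ((⟨1 / 2 + 0 / 2, h1⟩ : I) : ℝ), (unitInterval.mul_pos_mem_iff zero_lt_two).2
        ⟨(⟨1 / 2 + 0 / 2, h1⟩ : I).2.1, h2⟩⟩ : I) = 1 := by
      apply Subtype.ext
      show 2 * (1 / 2 + 0 / 2 : ℝ) = 1
      norm_num
    rw [h5, p.target]
    simp
  · rw [dif_neg h2, Path.extend_apply _ hv]
    congr 1
    apply Subtype.ext
    show 2 * (1 / 2 + v / 2) - 1 = v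
    ring

/-- (1) concatenation -/
theorem sgl_mul (hPP : StPP) (hMUL : StMUL) (he : Continuous e) {y₀ y₁ y₂ : Off K}
    (h0 : e y₀ ∈ A.Fix) (h1 : e y₁ ∈ A.Fix) (h2 : e y₂ ∈ A.Fix) (p : Path y₀ y₁)
    (k : Path y₁ y₂) : ∃ x : GenLoop (Fin 2) X (e y₀),
      hcl (sgl hPP A he h0 h2 (p.trans k)) = hcl (sgl hPP A he h0 h1 p) * hcl x ∧
      Hfree x (fun t => A.sph (fun v => e (k.extend v)) (sqr t)) := by
  have hhalf : (p.trans k).extend (1 / 2) = y₁ := by
    have h := ext_lo p k (v := 1) ⟨zero_le_one, le_rfl⟩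
    rw [h]
    simp
  obtain ⟨x, hx1, hx2⟩ := hMUL X A (fun v => e ((p.trans k).extend v)) (e y₀)
    (he.comp (p.trans k).continuous_extend).continuousOn (by simp) (by simpa using h0)
    (by show e ((p.trans k).extend (1 / 2)) ∈ A.Fix; rw [hhalf]; exact h1) (by simpa using h2)
    (sgl hPP A he h0 h2 (p.trans k)) (sgl hPP A he h0 h1 p) (fun t => rfl) (fun t => by
      rw [sgl_apply]
      refine sph_congr hPP (fun v hv => ?_) (sqr_S2 t)
      show e (p.extend v) = e ((p.trans k).extend (v / 2))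
      rw [ext_lo p k hv])
  refine ⟨x, hx1, ?_⟩
  have e1 : (fun t => A.sph (fun v => e ((p.trans k).extend (1 / 2 + v / 2))) (sqr t)) =
      fun t => A.sph (fun v => e (k.extend v)) (sqr t) := by
    funext t
    refine sph_congr hPP (fun v hv => ?_) (sqr_S2 t)
    show e ((p.trans k).extend (1 / 2 + v / 2)) = e (k.extend v)
    rw [ext_hi p k hv]
  rw [← e1]
  exact hx2

/-- (2) a tail of fixed points -/
theorem sgl_tail (hPP : StPP) (he : Continuous e) {y₀ y₁ y₂ : Off K}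
    (h0 : e y₀ ∈ A.Fix) (h1 : e y₁ ∈ A.Fix) (h2 : e y₂ ∈ A.Fix) (p : Path y₀ y₁)
    (m : Path y₁ y₂) (hm : ∀ t, e (m t) ∈ A.Fix) :
    hcl (sgl hPP A he h0 h2 (p.trans m)) = hcl (sgl hPP A he h0 h1 p) := by
  refine hcl_htpy (A := A) hPP (fun z : I × ℝ => e ((p.trans m).extend ((1 - (z.1 : ℝ) / 2) * z.2)))
    ?_ h0 ?_ ?_ ?_ ?_
  · exact (he.comp ((p.trans m).continuous_extend.comp (by fun_prop))).continuousOn
  · intro u
    show e ((p.trans m).extend ((1 - (u : ℝ) / 2) * 0)) = e y₀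
    rw [mul_zero]
    simp
  · intro u
    show e ((p.trans m).extend ((1 - (u : ℝ) / 2) * 1)) ∈ A.Fix
    have hu : 1 - (u : ℝ) ∈ Icc (0 : ℝ) 1 := ⟨by linarith [u.2.2], by linarith [u.2.1]⟩
    have e1 : (1 - (u : ℝ) / 2) * 1 = 1 / 2 + (1 - (u : ℝ)) / 2 := by ring
    rw [e1, ext_hi p m hu, Path.extend_apply _ hu]
    exact hm _
  · intro t
    rw [sgl_apply]
    refine sph_congr hPP (fun v hv => ?_) (sqr_S2 t)
    show e ((p.trans m).extend v) = e ((p.trans m).extend ((1 - ((0 : I) : ℝ) / 2) * v))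
    rw [Icc.coe_zero]
    congr 2
    ring
  · intro t
    rw [sgl_apply]
    refine sph_congr hPP (fun v hv => ?_) (sqr_S2 t)
    show e (p.extend v) = e ((p.trans m).extend ((1 - ((1 : I) : ℝ) / 2) * v))
    rw [Icc.coe_one, ← ext_lo p m hv]
    congr 2
    ring

/-- (2) a path of fixed points -/
theorem sgl_fix (hPP : StPP) (he : Continuous e) {y₀ y₁ : Off K}
    (h0 : e y₀ ∈ A.Fix) (h1 : e y₁ ∈ A.Fix) (p : Path y₀ y₁) (hp : ∀ t, e (p t) ∈ A.Fix) :
    hcl (sgl hPP A he h0 h1 p) = 1 := by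
  rw [HomotopyGroup.one_def]
  refine hcl_htpy (A := A) hPP (fun z : I × ℝ => e (p.extend ((1 - (z.1 : ℝ)) * z.2)))
    ?_ h0 ?_ ?_ ?_ ?_
  · exact (he.comp (p.continuous_extend.comp (by fun_prop))).continuousOn
  · intro u
    show e (p.extend ((1 - (u : ℝ)) * 0)) = e y₀
    rw [mul_zero]
    simp
  · intro u
    show e (p.extend ((1 - (u : ℝ)) * 1)) ∈ A.Fix
    have hu : (1 - (u : ℝ)) * 1 ∈ Icc (0 : ℝ) 1 := ⟨by linarith [u.2.2], by linarith [u.2.1]⟩
    rw [Path.extend_apply _ hu]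
    exact hp _
  · intro t
    rw [sgl_apply]
    refine sph_congr hPP (fun v hv => ?_) (sqr_S2 t)
    show e (p.extend v) = e (p.extend ((1 - ((0 : I) : ℝ)) * v))
    rw [Icc.coe_zero]
    congr 2
    ring
  · intro t
    show e y₀ = A.R (lon (sqr t)) (e (p.extend ((1 - ((1 : I) : ℝ)) * lat (sqr t))))
    have e1 : (1 - ((1 : I) : ℝ)) * lat (sqr t) = 0 := by rw [Icc.coe_one]; ring
    rw [e1, Path.extend_zero]
    exact (h0 _).symm

/-- (3) the relation -/
def Rel (hPP : StPP) (A : Act X) (he : Continuous e) {y₀ : Off K} (h0 : e y₀ ∈ A.Fix) (y : Off K)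
    (g g' : Hom K y₀ y) : Prop :=
  ∀ (w w' : Path y₀ y) (y₁ : Off K) (h1 : e y₁ ∈ A.Fix) (b : Path y y₁), cl w = g → cl w' = g' →
    hcl (sgl hPP A he h0 h1 (w.trans b)) * (hcl (sgl hPP A he h0 h1 (w'.trans b)))⁻¹ ∈
      Subgroup.closure (drift (e y₀))

theorem cl_trans {x y z : Off K} {p p' : Path x y} (k : Path y z) (h : cl p = cl p') :
    cl (p.trans k) = cl (p'.trans k) := by
  show (cl p).trans (cl k) = (cl p').trans (cl k)
  rw [h]

theorem cl_assoc {x y z w : Off K} (p : Path x y) (k : Path y z) (l : Path z w) :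
    cl ((p.trans k).trans l) = cl (p.trans (k.trans l)) := by
  show ((cl p).trans (cl k)).trans (cl l) = (cl p).trans ((cl k).trans (cl l))
  rw [Path.Homotopic.Quotient.trans_assoc]

theorem relP (hPP : StPP) (he : Continuous e) {y₀ : Off K} (h0 : e y₀ ∈ A.Fix) :
    RelP K y₀ (Rel hPP A he h0) where
  refl y g := by
    intro w w' y₁ h1 b hw hw'
    rw [sgl_htpy hPP he h0 h1 (cl_trans b (hw.trans hw'.symm)), mul_inv_cancel]
    exact Subgroup.one_mem _
  symm y g g' H := by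
    intro w w' y₁ h1 b hw hw'
    have h := Subgroup.inv_mem _ (H w' w y₁ h1 b hw' hw)
    rwa [mul_inv_rev, inv_inv] at h
  trans y g g' g'' H H' := by
    intro w w'' y₁ h1 b hw hw''
    obtain ⟨w', hw'⟩ := Path.Homotopic.Quotient.mk_surjective g'
    have h := Subgroup.mul_mem _ (H w w' y₁ h1 b hw hw') (H' w' w'' y₁ h1 b hw' hw'')
    have e1 : ∀ a b c : HomotopyGroup (Fin 2) X (e y₀), a * b⁻¹ * (b * c⁻¹) = a * c⁻¹ := by
      intro a b c
      rw [mul_assoc, inv_mul_cancel_left]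
    rwa [e1] at h
  comp y y' g g' β H := by
    intro w w' y₁ h1 b hw hw'
    obtain ⟨β', hβ⟩ := Path.Homotopic.Quotient.mk_surjective β
    obtain ⟨v, hv⟩ := Path.Homotopic.Quotient.mk_surjective g
    obtain ⟨v', hv'⟩ := Path.Homotopic.Quotient.mk_surjective g'
    have h := H v v' y₁ h1 (β'.trans b) hv hv'
    have e1 : cl (w.trans b) = cl (v.trans (β'.trans b)) := by
      rw [← cl_assoc]
      refine cl_trans b ?_
      rw [hw, ← hv, ← hβ]
      rfl
    have e2 : cl (w'.trans b) = cl (v'.trans (β'.trans b)) := by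
      rw [← cl_assoc]
      refine cl_trans b ?_
      rw [hw', ← hv', ← hβ]
      rfl
    rw [sgl_htpy hPP he h0 h1 e1, sgl_htpy hPP he h0 h1 e2]
    exact h

/-- (4) the meridian -/
theorem rel_mer (hPP : StPP) (hMUL : StMUL) (he : Continuous e) {y₀ : Off K}
    (h0 : e y₀ ∈ A.Fix) {y₁ : Off K} (h1 : e y₁ ∈ A.Fix) (m : Path y₁ y₁)
    (hm : ∀ t, e (m t) ∈ A.Fix) (g : Hom K y₀ y₁) : Rel hPP A he h0 y₁ (g.trans (cl m)) g := by
  intro w w' y₂ h2 b hw hw'
  obtain ⟨v, hv⟩ := Path.Homotopic.Quotient.mk_surjective g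
  have e1 : cl (w.trans b) = cl ((v.trans m).trans b) := by
    refine cl_trans b ?_
    rw [hw, ← hv]
    rfl
  have e2 : cl (w'.trans b) = cl (v.trans b) := by
    refine cl_trans b ?_
    rw [hw', ← hv]
  rw [sgl_htpy hPP he h0 h2 e1, sgl_htpy hPP he h0 h2 e2]
  obtain ⟨x, hx1, hx2⟩ := sgl_mul (A := A) hPP hMUL he h0 h1 h2 (v.trans m) b
  obtain ⟨x', hx1', hx2'⟩ := sgl_mul (A := A) hPP hMUL he h0 h1 h2 v b
  rw [hx1, hx1', sgl_tail hPP he h0 h1 h1 v m hm]
  refine Subgroup.subset_closure ⟨x, x', _, hx2, hx2', ?_⟩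
  have e3 : ∀ a b c : HomotopyGroup (Fin 2) X (e y₀), a * b * (a * c)⁻¹ = b * c⁻¹ := by
    intro a b c
    rw [mul_comm a b, mul_inv_rev, mul_comm c⁻¹ a⁻¹, mul_assoc, mul_inv_cancel_left]
  exact e3 _ _ _

end

end ABS

open ABS in
/-- MODULE ABS. -/
theorem m_ABS (hPP : StPP) (hMUL : StMUL) : StABS := by
  intro X _ A K e V _ _ T z y₀ y p p' hK he hz hfix hp' f hf
  have h0 : e y₀ ∈ A.Fix := by
    have h := hp' 0
    rwa [p'.source] at h
  have hy : e y ∈ A.Fix := by
    have h := hp' 1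
    rwa [p'.target] at h
  have hre : ∀ t : ℝ, (z.1 + (t : ℂ) * tpi).re < T.κ := by
    intro t
    rw [Complex.add_re, Tub.tpi_re, add_zero]
    exact hz.1
  -- the meridian
  let y₁ : Off K := ⟨T.Q z, T.off z hz⟩
  have hcont : Continuous fun t : I => T.Q (z.1 + (((t : ℝ) : ℂ)) * tpi, z.2) :=
    T.contQ (by fun_prop) continuous_const (fun t => hre _) fun _ => hz.2
  let m : Path y₁ y₁ :=
    { toFun := fun t => ⟨T.Q (z.1 + (((t : ℝ) : ℂ)) * tpi, z.2), T.off _ ⟨hre _, hz.2⟩⟩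
      continuous_toFun := hcont.subtype_mk _
      source' := by
        apply Subtype.ext
        show T.Q (z.1 + (((0 : I) : ℝ) : ℂ) * tpi, z.2) = T.Q z
        simp
      target' := by
        apply Subtype.ext
        show T.Q (z.1 + (((1 : I) : ℝ) : ℂ) * tpi, z.2) = T.Q z
        rw [Icc.coe_one, Complex.ofReal_one, one_mul, T.per] }
  have hm : T.IsMer z 1 m := by
    intro t
    show T.Q (z.1 + (((t : ℝ) : ℂ)) * tpi, z.2) = _
    simp
  have hmf : ∀ t, e (m t) ∈ A.Fix := fun t => hfix t (m t) rfl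
  have h1 : e y₁ ∈ A.Fix := by
    have h := hmf 0
    rwa [m.source] at h
  have hall := vk T hK (relP (A := A) hPP he h0) hz (y₁ := y₁) rfl hm
    (rel_mer (A := A) hPP hMUL he h0 h1 m hmf) y (cl p) (cl p')
  have h := hall p p' y hy (Path.refl y) rfl rfl
  have r1 : ∀ w : Path y₀ y, cl (w.trans (Path.refl y)) = cl w := by
    intro w
    show (cl w).trans (cl (Path.refl y)) = cl w
    exact Path.Homotopic.Quotient.trans_refl _
  rw [sgl_htpy hPP he h0 hy (r1 p), sgl_htpy hPP he h0 hy (r1 p'), sgl_fix hPP he h0 hy p' hp',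
    inv_one, mul_one] at h
  have e1 : f = sgl hPP A he h0 hy p := GenLoop.ext _ _ fun t => hf t
  rw [e1]
  exact h

end Pool.Agent.Helper70.T


end

/-! ## Helper70.BI.T.AsmT -/

section

/-!
# Project BI, stage 6 (T): final assembly
-/

set_option autoImplicit false

open Pool.Agent.Helper18.BI Pool.Agent.Helper65.Barb

namespace Pool.Agent.Helper70.T

theorem hSPN : StSPN := hSPN_of (m_ABS m_PP hMUL) m_FIXP

end Pool.Agent.Helper70.T


end
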