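import Pool.Agent.Helper70.BI.C.P62
import Pool.Agent.Helper70.BI.C.P74
import Pool.Agent.Helper70.BI.C.P81

/-!
# Project BI (MP_8e98f2_gt): stage 6, the final theorem
-/

set_option autoImplicit false

namespace Pool.Agent.Helper70.T

theorem topSpun : StSpun := stSpun Pool.Agent.Helper27.S5.hFinal8 hSPN

end Pool.Agent.Helper70.T
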