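import Pool.Agent.Helper18.BI.R.FinDefs
import Pool.Agent.Helper18.BI.R.FinDefs2
import Pool.Agent.Helper18.BI.R.FinDefs3
import Pool.Agent.Helper18.BI.S5.FinDefs8
import Pool.Agent.Helper65.Barb.Defs
import Pool.Agent.Helper70.BI.FinDefs
import Pool.Agent.Helper70.BI.C.P32
import Pool.Agent.Helper70.BI.C.P58
import Pool.Agent.Helper70.BI.C.P61

/-!
# Project BI (MP_8e98f2_gt): collected modules, part 62

The contents of the modules
* Helper18.BI.R.M_FIN4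
* Helper18.BI.R.M_NULS
* Helper18.BI.R.M_FIN5
* Helper18.BI.S5.StB
* Helper18.BI.S5.M_RELS6
* Helper18.BI.S5.M_FIN6
* Helper18.BI.S5.M_FIN8
* Helper70.BI.T.Fin9

in one file, so that the whole proof builds in a short time.
-/

namespace Pool.Agent.Helper18
end Pool.Agent.Helper18

namespace Pool.Agent.Helper18.BI
end Pool.Agent.Helper18.BI

namespace Pool.Agent.Helper18.BI.H
end Pool.Agent.Helper18.BI.H

namespace Pool.Agent.Helper18.BI.H.F3
end Pool.Agent.Helper18.BI.H.F3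

namespace Pool.Agent.Helper18.BI.R
end Pool.Agent.Helper18.BI.R

namespace Pool.Agent.Helper18.BI.R.FIN4
end Pool.Agent.Helper18.BI.R.FIN4

namespace Pool.Agent.Helper18.BI.R.FIN5
end Pool.Agent.Helper18.BI.R.FIN5

namespace Pool.Agent.Helper18.BI.R.RELS
end Pool.Agent.Helper18.BI.R.RELS

namespace Pool.Agent.Helper18.BI.S5.RELS6
end Pool.Agent.Helper18.BI.S5.RELS6

namespace Pool.Agent.Helper18.FinR
end Pool.Agent.Helper18.FinR

namespace Pool.Agent.Helper18.FinS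
end Pool.Agent.Helper18.FinS

namespace Pool.Agent.Helper27.BI
end Pool.Agent.Helper27.BI

namespace Pool.Agent.Helper34.BI
end Pool.Agent.Helper34.BI

namespace Pool.Agent.Helper65.Barb
end Pool.Agent.Helper65.Barb

namespace Pool.Agent.Helper70.BI
end Pool.Agent.Helper70.BI

namespace Pool.Agent.Helper70.BI.Fin2
end Pool.Agent.Helper70.BI.Fin2

namespace Pool.Agent.Helper70.Fin
end Pool.Agent.Helper70.Fin


/-! ## Helper18.BI.R.M_FIN4 -/

section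

/-!
# Project BI, stage 4 (R): the homomorphism from the relation theorem
-/

set_option autoImplicit false
set_option linter.unusedSectionVars false

open scoped Manifold ContDiff Topology ComplexConjugate unitInterval
open Set Filter Pool.Agent.Helper65.Barb Pool.Agent.Helper18.BI
open Pool.Agent.Helper70.BI (I4 IsW StEI StX2c)
open Pool.Agent.Helper70.BI.Fin2 (SP_sub_NB)
open Pool.Agent.Helper18.BI.H (IsW4)
open Pool.Agent.Helper70.Fin (Emb coreSphere IsImplantation BoundsDisjointBalls IsCentral)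
open Pool.Agent.Helper18.FinR (sqr Pi2 cls FreeClass SameFixed parallel UpTo)

namespace Pool.Agent.Helper18.BI.R

namespace FIN4

/-! ### calculus up to `W` in the 4-sphere -/

section
variable {W : S4 → S4} (hCI : StCI) (hW : IsW4 W)
include hCI

theorem c_iff {φ ψ : S4 → S4} : CIsot (𝓡 4) φ ψ ↔ Isot (𝓡 4) φ ψ := by
  obtain ⟨-, -, -, -, -, -, -, -, ciso, ccomp⟩ := hCI _ _ (𝓡 4) S4
  exact ⟨ciso φ ψ, ccomp inferInstance φ ψ⟩

include hW

theorem WW : CIsot (𝓡 4) W W :=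
  (c_iff hCI).2 (hW.2.2 (fun x => x) (fun x => x) contMDiff_id contMDiff_id (fun _ => rfl)
    fun _ => rfl)

theorem W2 : CIsot (𝓡 4) (fun x => W (W x)) (fun x => x) := (c_iff hCI).2 hW.2.1

theorem Wcomm {χ : S4 → S4} (h : CIsot (𝓡 4) χ χ) :
    CIsot (𝓡 4) (fun x => χ (W x)) (fun x => W (χ x)) := by
  obtain ⟨-, -, -, ct, cc, -, cex, -, -, -⟩ := hCI _ _ (𝓡 4) S4
  obtain ⟨χ', h', i1, i2⟩ := cex χ h
  have hs : ∀ χ : S4 → S4, CIsot (𝓡 4) χ χ → ContMDiff (𝓡 4) (𝓡 4) ∞ χ := by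
    rintro χ ⟨F, -, hF, -⟩
    have h1 : χ = fun x => F.f (0, x) := funext fun x => (hF x).symm
    rw [h1]
    exact F.smooth_f.comp (contMDiff_const.prodMk contMDiff_id)
  have h1 : CIsot (𝓡 4) (fun x => χ (W (χ' x))) W :=
    (c_iff hCI).2 (hW.2.2 χ χ' (hs χ h) (hs χ' h') i1 i2)
  have h2 := cc _ _ _ _ h1 h
  simp only [i2] at h2
  exact h2

end

/-- equal up to `W`, with compactly supported isotopies -/
def RW4 (W φ ψ : S4 → S4) : Prop := CIsot (𝓡 4) φ ψ ∨ CIsot (𝓡 4) φ (fun x => W (ψ x))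

theorem rw4_iff (hCI : StCI) {W φ ψ : S4 → S4} : RW4 W φ ψ ↔ UpTo W φ ψ :=
  or_congr (c_iff hCI) (c_iff hCI)

section
variable {W : S4 → S4} (hCI : StCI) (hW : IsW4 W)
include hCI hW

theorem r_symm {φ ψ : S4 → S4} (hψ : CIsot (𝓡 4) ψ ψ) (h : RW4 W φ ψ) : RW4 W ψ φ := by
  obtain ⟨-, cs, cself, ct, cc, -⟩ := hCI _ _ (𝓡 4) S4
  rcases h with h | h
  · exact Or.inl (cs _ _ h)
  · right
    have e1 : CIsot (𝓡 4) (fun x => W (φ x)) (fun x => W (W (ψ x))) :=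
      cc W W _ _ (WW hCI hW) h
    have e2 : CIsot (𝓡 4) (fun x => W (W (ψ x))) ψ :=
      cc (fun x => W (W x)) (fun x => x) ψ ψ (W2 hCI hW) hψ
    exact cs _ _ (ct _ _ _ e1 e2)

theorem r_trans {φ ψ χ : S4 → S4} (hχ : CIsot (𝓡 4) χ χ) (h : RW4 W φ ψ) (h' : RW4 W ψ χ) :
    RW4 W φ χ := by
  obtain ⟨-, cs, cself, ct, cc, -⟩ := hCI _ _ (𝓡 4) S4
  rcases h with h | h
  · rcases h' with h' | h'
    · exact Or.inl (ct _ _ _ h h')
    · exact Or.inr (ct _ _ _ h h')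
  · rcases h' with h' | h'
    · exact Or.inr (ct _ _ _ h (cc W W _ _ (WW hCI hW) h'))
    · left
      refine ct _ _ _ h (ct _ _ _ (cc W W _ _ (WW hCI hW) h') ?_)
      exact cc (fun x => W (W x)) (fun x => x) χ χ (W2 hCI hW) hχ

/-- cancellation: if `φ' ∘ ψ` is trivial up to `W` and `φ'` is inverse to `φ`, then `ψ` and `φ` are
equal up to `W` -/
theorem r_cancel {φ φ' ψ : S4 → S4} (hφ : CIsot (𝓡 4) φ φ) (i1 : ∀ x, φ (φ' x) = x)
    (h : RW4 W (fun x => φ' (ψ x)) (fun x => x)) : RW4 W ψ φ := by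
  obtain ⟨-, cs, cself, ct, cc, -⟩ := hCI _ _ (𝓡 4) S4
  rcases h with h | h
  · left
    have h1 := cc _ _ _ _ hφ h
    simp only [i1] at h1
    exact h1
  · right
    have h1 := cc _ _ _ _ hφ h
    simp only [i1] at h1
    exact ct _ _ _ h1 (Wcomm hCI hW hφ)

end

/-! ### families of germs -/

/-- A family of germs with the same fixed cuff as `B`, their implantation classes and the classes of their
moved cuffs. -/
structure Fam (B : R4 → S4) (A : Set S4) (y₀ : {x : S4 // x ∉ A}) {ι : Type}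
    (G : ι → R4 → S4) (φ : ι → Equiv.Perm S4) (z : ι → Pi2 A y₀) : Prop where
  emb : ∀ i, EmbOn (𝓡 4) (G i) SP
  near : ∀ i, ∃ U : Set R4, IsOpen U ∧ sph 1 ⊆ U ∧ EqOn B (G i) U
  thin : ∀ i, Thin (𝓡 4) (G i) (φ i)
  free : ∀ i, FreeClass A y₀ (G i) (z i)

theorem comp_word {ι M : Type} (φ : ι → Equiv.Perm M) (l : List (ι × Bool)) {n : ℕ}
    (e : Fin n → ι) (l' : List (Fin n × Bool)) (h : l'.map (fun p => (e p.1, p.2)) = l) (x : M) :
    (FreeGroup.lift φ (FreeGroup.mk l.reverse)) x =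
      evD (fun i => ⇑(φ (e i))) (fun i => ⇑(φ (e i))⁻¹) l' x := by
  subst h
  induction l' generalizing x with
  | nil => rfl
  | cons p l ih =>
    obtain ⟨i, b⟩ := p
    rw [List.map_cons, List.reverse_cons, ← FreeGroup.mul_mk, map_mul, Equiv.Perm.mul_apply]
    rcases b with _ | _
    · show _ = evD _ _ l ((φ (e i))⁻¹ x)
      rw [← ih]
      congr 1
    · show _ = evD _ _ l (φ (e i) x)
      rw [← ih]
      congr 1

theorem prod_rev {G : Type} [Group G] (hc : ∀ a b : G, a * b = b * a) (L : List G) :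
    L.reverse.prod = L.prod := by
  induction L with
  | nil => rfl
  | cons a L ih => rw [List.reverse_cons, List.prod_append, ih, List.prod_cons, List.prod_cons,
      List.prod_nil, mul_one, hc]

theorem pi2_comm {A : Set S4} {y₀ : {x : S4 // x ∉ A}} (a b : Pi2 A y₀) : a * b = b * a :=
  @mul_comm _ (HomotopyGroup.commGroup (N := Fin 2)).toCommMagma a b

theorem rel_free {W : S4 → S4} (hRel : RelS W) {B : R4 → S4} {A : Set S4}
    {y₀ : {x : S4 // x ∉ A}} (hB : EmbOn (𝓡 4) B SP) (hA : A = B '' sph 1)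
    (hy : (y₀ : S4) = B (1 / 2, (1 / 2, 0))) {ι : Type} (G : ι → R4 → S4)
    (φ : ι → Equiv.Perm S4) (z : ι → Pi2 A y₀) (hF : Fam B A y₀ G φ z) (w : FreeGroup ι)
    (hw : FreeGroup.lift z w = 1) : UpTo W (⇑(FreeGroup.lift φ w)) (fun x => x) := by
  classical
  choose U hU hsU hE using hF.near
  let l : List (ι × Bool) := w.toWord.reverse
  have hlw : FreeGroup.mk l.reverse = w := by
    show FreeGroup.mk w.toWord.reverse.reverse = w
    rw [List.reverse_reverse, FreeGroup.mk_toWord]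
  let e : Fin l.length → ι := fun k => (l.get k).1
  let l' : List (Fin l.length × Bool) := List.ofFn fun k => (k, (l.get k).2)
  have hl' : l'.map (fun p => (e p.1, p.2)) = l := by
    show (List.ofFn fun k => (k, (l.get k).2)).map (fun p => (e p.1, p.2)) = l
    rw [List.map_ofFn]
    exact List.ofFn_get l
  have hmap : (l'.map fun p => if p.2 then z (e p.1) else (z (e p.1))⁻¹) =
      l.map fun p => if p.2 then z p.1 else (z p.1)⁻¹ := by
    conv_rhs => rw [← hl']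
    rw [List.map_map]
    rfl
  have hprod : (l'.map fun p => if p.2 then z (e p.1) else (z (e p.1))⁻¹).prod = 1 := by
    rw [hmap]
    have h1 : FreeGroup.lift z (FreeGroup.mk w.toWord) = 1 := by rw [FreeGroup.mk_toWord, hw]
    rw [FreeGroup.lift_mk] at h1
    rw [show l = w.toWord.reverse from rfl, List.map_reverse, prod_rev pi2_comm, ← h1]
    congr 1
    apply List.map_congr_left
    rintro ⟨i, b⟩ _
    rcases b with _ | _ <;> rfl
  have h := hRel l.length B (fun k => G (e k)) (fun k => ⇑(φ (e k))) (fun k => ⇑(φ (e k))⁻¹)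
    (⋂ k, U (e k)) A y₀ (fun k => z (e k)) l' hB (fun k => hF.emb _)
    (isOpen_iInter_of_finite fun k => hU _) (subset_iInter fun k => hsU _)
    (fun k p hp => hE (e k) (mem_iInter.1 hp k)) (fun k => hF.thin _)
    (fun k x => (φ (e k)).apply_symm_apply x) (fun k x => (φ (e k)).symm_apply_apply x) hA hy
    (fun k => hF.free _) hprod
  have h2 : (⇑(FreeGroup.lift φ w) : S4 → S4) =
      evD (fun i => ⇑(φ (e i))) (fun i => ⇑(φ (e i))⁻¹) l' := by
    funext x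
    rw [← comp_word φ l e l' hl' x, hlw]
  rw [h2]
  exact h

theorem free_self (hCI : StCI) {ι : Type} (φ : ι → Equiv.Perm S4)
    (h : ∀ i, CIsot (𝓡 4) (⇑(φ i)) (φ i)) (w : FreeGroup ι) :
    CIsot (𝓡 4) (⇑(FreeGroup.lift φ w)) (FreeGroup.lift φ w) := by
  obtain ⟨cid, -, -, -, cc, cinv, -⟩ := hCI _ _ (𝓡 4) S4
  induction w using FreeGroup.induction_on with
  | C1 => exact cid
  | of i =>
    rw [FreeGroup.lift_apply_of]
    exact h i
  | inv_of i _ =>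
    rw [map_inv, FreeGroup.lift_apply_of]
    exact cinv _ _ _ _ (h i) (φ i).apply_symm_apply (φ i).apply_symm_apply
  | mul a b ha hb =>
    rw [map_mul]
    exact cc (⇑(FreeGroup.lift φ a)) (⇑(FreeGroup.lift φ a)) (⇑(FreeGroup.lift φ b))
      (⇑(FreeGroup.lift φ b)) ha hb

/-- the classes of moved cuffs of germs with the same fixed cuff -/
def RepG (B : R4 → S4) (A : Set S4) (y₀ : {x : S4 // x ∉ A}) : Set (Pi2 A y₀) :=
  {z | ∃ (G : R4 → S4) (φ : Equiv.Perm S4), EmbOn (𝓡 4) G SP ∧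
    (∃ U : Set R4, IsOpen U ∧ sph 1 ⊆ U ∧ EqOn B G U) ∧ Thin (𝓡 4) G φ ∧ FreeClass A y₀ G z}

/-- existence of the homomorphism, for germs -/
theorem exists_hom (hT2 : StT2) (hCI : StCI) {W : S4 → S4} (hW : IsW4 W) (hRel : RelS W)
    {B : R4 → S4} {A : Set S4} {y₀ : {x : S4 // x ∉ A}} (hB : EmbOn (𝓡 4) B SP)
    (hA : A = B '' sph 1) (hy : (y₀ : S4) = B (1 / 2, (1 / 2, 0))) :
    ∃ Φ : Pi2 A y₀ → S4 → S4, (∀ z, CIsot (𝓡 4) (Φ z) (Φ z)) ∧
      (∀ z ∈ Subgroup.closure (RepG B A y₀), ∀ z' ∈ Subgroup.closure (RepG B A y₀),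
        RW4 W (Φ (z * z')) (fun x => Φ z (Φ z' x))) ∧
      ∀ (G : R4 → S4) (φ : S4 → S4) (z : Pi2 A y₀), EmbOn (𝓡 4) G SP →
        (∃ U : Set R4, IsOpen U ∧ sph 1 ⊆ U ∧ EqOn B G U) → Thin (𝓡 4) G φ →
        FreeClass A y₀ G z → RW4 W φ (Φ z) := by
  classical
  obtain ⟨cid, cs, cself, ct, cc, cinv, cex, cconj, ciso, -⟩ := hCI _ _ (𝓡 4) S4
  have tself := (hT2 _ _ (𝓡 4) S4).2.2.2.2.2.2
  choose G φ hG1 hG2 hG3 hG4 using fun z : {z // z ∈ RepG B A y₀} => z.2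
  have hφs : ∀ i, CIsot (𝓡 4) (⇑(φ i)) (φ i) := fun i => tself _ _ (hG3 i)
  have hrange : ∀ z ∈ Subgroup.closure (RepG B A y₀),
      ∃ w : FreeGroup {z // z ∈ RepG B A y₀}, FreeGroup.lift (fun i => i.1) w = z := by
    intro z hz
    have h1 : (FreeGroup.lift (fun i : {z // z ∈ RepG B A y₀} => i.1)).range =
        Subgroup.closure (RepG B A y₀) := by
      rw [FreeGroup.range_lift_eq_closure, Subtype.range_coe]
    rw [← h1] at hz
    exact hz
  let Φ : Pi2 A y₀ → S4 → S4 := fun z =>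
    if h : ∃ w : FreeGroup {z // z ∈ RepG B A y₀}, FreeGroup.lift (fun i => i.1) w = z then
      FreeGroup.lift φ h.choose else fun x => x
  have hΦ : ∀ z ∈ Subgroup.closure (RepG B A y₀), ∃ w : FreeGroup {z // z ∈ RepG B A y₀},
      FreeGroup.lift (fun i => i.1) w = z ∧ Φ z = FreeGroup.lift φ w := by
    intro z hz
    have h := hrange z hz
    exact ⟨h.choose, h.choose_spec, dif_pos h⟩
  have hΦs : ∀ z, CIsot (𝓡 4) (Φ z) (Φ z) := by
    intro z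
    by_cases h : ∃ w : FreeGroup {z // z ∈ RepG B A y₀}, FreeGroup.lift (fun i => i.1) w = z
    · have e : Φ z = FreeGroup.lift φ h.choose := dif_pos h
      rw [e]
      exact free_self hCI φ hφs _
    · have e : Φ z = fun x => x := dif_neg h
      rw [e]
      exact cid
  refine ⟨Φ, hΦs, ?_, ?_⟩
  · intro z hz z' hz'
    obtain ⟨w₁, h1, e1⟩ := hΦ z hz
    obtain ⟨w₂, h2, e2⟩ := hΦ z' hz'
    obtain ⟨w₃, h3, e3⟩ := hΦ (z * z') (mul_mem hz hz')
    have h := rel_free hRel hB hA hy G φ (fun i => i.1) ⟨hG1, hG2, hG3, hG4⟩ (w₃⁻¹ * (w₁ * w₂))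
      (by rw [map_mul, map_mul, map_inv, h1, h2, h3, inv_mul_cancel])
    rw [← rw4_iff hCI, map_mul, map_mul, map_inv] at h
    rw [e1, e2, e3]
    refine r_symm hCI hW (free_self hCI φ hφs w₃) ?_
    exact r_cancel hCI hW (φ := ⇑(FreeGroup.lift φ w₃)) (φ' := ⇑(FreeGroup.lift φ w₃)⁻¹)
      (free_self hCI φ hφs w₃) (fun x => (FreeGroup.lift φ w₃).apply_symm_apply x) h
  · intro G' φ₀ z hG' hU' hT' hfr
    have s0 := tself _ _ hT'
    obtain ⟨φ₀', -, i1, i2⟩ := cex φ₀ s0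
    let P : Equiv.Perm S4 := ⟨φ₀, φ₀', i2, i1⟩
    have hz : z ∈ RepG B A y₀ := ⟨G', P, hG', hU', hT', hfr⟩
    obtain ⟨w, h1, e1⟩ := hΦ z (Subgroup.subset_closure hz)
    let G₂ : Option {z // z ∈ RepG B A y₀} → R4 → S4 := fun o => o.elim G' G
    let φ₂ : Option {z // z ∈ RepG B A y₀} → Equiv.Perm S4 := fun o => o.elim P φ
    let z₂ : Option {z // z ∈ RepG B A y₀} → Pi2 A y₀ := fun o => o.elim z (fun i => i.1)
    have hF2 : Fam B A y₀ G₂ φ₂ z₂ := by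
      refine ⟨?_, ?_, ?_, ?_⟩
      · rintro (_ | i)
        · exact hG'
        · exact hG1 i
      · rintro (_ | i)
        · exact hU'
        · exact hG2 i
      · rintro (_ | i)
        · exact hT'
        · exact hG3 i
      · rintro (_ | i)
        · exact hfr
        · exact hG4 i
    have hm1 : (FreeGroup.lift z₂).comp (FreeGroup.map some) =
        FreeGroup.lift (fun i : {z // z ∈ RepG B A y₀} => i.1) := by
      ext i
      simp [z₂]
    have hm2 : (FreeGroup.lift φ₂).comp (FreeGroup.map some) = FreeGroup.lift φ := by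
      ext i
      simp [φ₂]
    have hm1' := DFunLike.congr_fun hm1 w
    have hm2' := DFunLike.congr_fun hm2 w
    rw [MonoidHom.comp_apply] at hm1' hm2'
    have h := rel_free hRel hB hA hy G₂ φ₂ z₂ hF2 ((FreeGroup.of none)⁻¹ * FreeGroup.map some w)
      (by
        rw [map_mul, map_inv, hm1', h1, FreeGroup.lift_apply_of]
        exact inv_mul_cancel z)
    rw [← rw4_iff hCI, map_mul, map_inv, hm2', FreeGroup.lift_apply_of] at h
    rw [e1]
    have h3 : RW4 W (⇑(FreeGroup.lift φ w)) φ₀ := r_cancel hCI hW (φ := φ₀) (φ' := φ₀') s0 i1 h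
    exact r_symm hCI hW s0 h3

/-- a free homotopy off `A` does not change the classes -/
theorem free_trans {A : Set S4} {y₀ : {x : S4 // x ∉ A}} {k k' : R4 → S4} {z : Pi2 A y₀}
    (h : FreeClass A y₀ k z) (h' : ℝ × R4 → S4)
    (hc : ContinuousOn h' (Icc (0 : ℝ) 1 ×ˢ coreSphere 0))
    (h0 : ∀ p ∈ coreSphere 0, h' (0, p) = k p) (h1 : ∀ p ∈ coreSphere 0, h' (1, p) = k' p)
    (hoff : ∀ u ∈ Icc (0 : ℝ) 1, ∀ p ∈ coreSphere 0, h' (u, p) ∉ A) : FreeClass A y₀ k' z := by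
  obtain ⟨f, g, hf, gc, g0, g1, goff⟩ := h
  have ka : ∀ u ∈ Icc (0 : ℝ) (1 / 2), ∀ p ∈ coreSphere 0,
      (if u ≤ 1 / 2 then g (2 * u, p) else h' (2 * u - 1, p)) = g (2 * u, p) :=
    fun u hu p _ => if_pos hu.2
  have kb : ∀ u ∈ Icc (1 / 2 : ℝ) 1, ∀ p ∈ coreSphere 0,
      (if u ≤ 1 / 2 then g (2 * u, p) else h' (2 * u - 1, p)) = h' (2 * u - 1, p) := by
    intro u hu p hp
    by_cases h2 : u ≤ 1 / 2
    · have h3 : u = 1 / 2 := le_antisymm h2 hu.1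
      subst h3
      rw [if_pos le_rfl]
      have e1 : (2 * (1 / 2) : ℝ) = 1 := by norm_num
      rw [e1, sub_self, h0 p hp, g1 p hp]
    · exact if_neg h2
  have hcl : IsClosed (coreSphere 0) := by
    rw [RELS.coreSphere_eq]
    exact (RELS.isCompact_sph 0).isClosed
  refine ⟨f, fun x => if x.1 ≤ 1 / 2 then g (2 * x.1, x.2) else h' (2 * x.1 - 1, x.2), hf, ?_, ?_,
    ?_, ?_⟩
  · have e : Icc (0 : ℝ) 1 ×ˢ coreSphere 0 = (Icc 0 (1 / 2) ×ˢ coreSphere 0) ∪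
        (Icc (1 / 2) 1 ×ˢ coreSphere 0) := by
      rw [← Set.union_prod, Icc_union_Icc_eq_Icc (by norm_num) (by norm_num)]
    rw [e]
    refine ContinuousOn.union_of_isClosed ?_ ?_ (isClosed_Icc.prod hcl) (isClosed_Icc.prod hcl)
    · refine ContinuousOn.congr (f := fun x : ℝ × R4 => g (2 * x.1, x.2)) ?_ ?_
      · refine gc.comp (Continuous.continuousOn (by fun_prop)) ?_
        rintro ⟨u, p⟩ hz
        have hz1 : 0 ≤ u ∧ u ≤ 1 / 2 := hz.1
        exact ⟨⟨by show (0 : ℝ) ≤ 2 * u; linarith, by show 2 * u ≤ (1 : ℝ); linarith⟩, hz.2⟩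
      · rintro ⟨u, p⟩ hz
        exact ka u hz.1 p hz.2
    · refine ContinuousOn.congr (f := fun x : ℝ × R4 => h' (2 * x.1 - 1, x.2)) ?_ ?_
      · refine hc.comp (Continuous.continuousOn (by fun_prop)) ?_
        rintro ⟨u, p⟩ hz
        have hz1 : 1 / 2 ≤ u ∧ u ≤ 1 := hz.1
        exact ⟨⟨by show (0 : ℝ) ≤ 2 * u - 1; linarith, by show 2 * u - 1 ≤ (1 : ℝ); linarith⟩,
          hz.2⟩
      · rintro ⟨u, p⟩ hz
        exact kb u hz.1 p hz.2
  · intro t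
    show (if (0 : ℝ) ≤ 1 / 2 then g (2 * 0, (1 / 2, (1 / 5 : ℝ) • sqr t)) else _) = _
    rw [if_pos (by norm_num), mul_zero, g0]
  · intro p hp
    show (if (1 : ℝ) ≤ 1 / 2 then _ else h' (2 * 1 - 1, p)) = _
    have e1 : (2 * 1 - 1 : ℝ) = 1 := by norm_num
    rw [if_neg (by norm_num), e1, h1 p hp]
  · intro u hu p hp
    show (if u ≤ 1 / 2 then g (2 * u, p) else h' (2 * u - 1, p)) ∉ A
    rcases le_total u (1 / 2) with h2 | h2
    · rw [ka u ⟨hu.1, h2⟩ p hp]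
      exact goff _ ⟨by linarith [hu.1], by linarith⟩ p hp
    · rw [kb u ⟨h2, hu.2⟩ p hp]
      exact hoff _ ⟨by linarith, by linarith [hu.2]⟩ p hp

end FIN4

/-- The parallel copy of the fixed cuff, joined to it by a suitable bar, has trivial class up to `W`. -/
def StPARS (W : S4 → S4) : Prop :=
  ∀ B : Emb, NB ⊆ B.source → ∃ (G : R4 → S4) (φ : S4 → S4) (h : ℝ × R4 → S4),
    EmbOn (𝓡 4) G SP ∧ (∃ U : Set R4, IsOpen U ∧ sph 1 ⊆ U ∧ EqOn B G U) ∧ Thin (𝓡 4) G φ ∧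
    (CIsot (𝓡 4) φ (fun x => x) ∨ CIsot (𝓡 4) φ W) ∧
    ContinuousOn h (Icc (0 : ℝ) 1 ×ˢ sph 0) ∧ (∀ p ∈ sph 0, h (0, p) = parallel B p) ∧
    (∀ p ∈ sph 0, h (1, p) = G p) ∧ ∀ u ∈ Icc (0 : ℝ) 1, ∀ p ∈ sph 0, h (u, p) ∉ B '' sph 1

/-- The classes of the moved cuffs of the barbells with the same fixed cuff as `B`, and the class of the parallel copy
of the fixed cuff. -/
def MovedClasses (B : Emb) (y₀ : {x : S4 // x ∉ B '' coreSphere 1}) :
    Set (Pi2 (B '' coreSphere 1) y₀) :=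
  {z | (∃ B' : Emb, NB ⊆ B'.source ∧ SameFixed B B' ∧ FreeClass (B '' coreSphere 1) y₀ B' z) ∨
    FreeClass (B '' coreSphere 1) y₀ (parallel B) z}

/-- **THE MAIN THEOREM OF STAGE 4.** -/
def StFinal4 : Prop :=
  ∃ (W : S4 → S4) (B₀ : Emb), IsImplantation B₀ W ∧ BoundsDisjointBalls B₀ ∧
    Isot (𝓡 4) (fun x => W (W x)) (fun x => x) ∧ IsCentral W ∧
    ∀ (B : Emb) (y₀ : {x : S4 // x ∉ B '' coreSphere 1}), NB ⊆ B.source →
      (y₀ : S4) = B (1 / 2, (1 / 2, 0)) →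
      ∃ Φ : Pi2 (B '' coreSphere 1) y₀ → S4 → S4,
        (∀ z ∈ Subgroup.closure (MovedClasses B y₀), ∀ z' ∈ Subgroup.closure (MovedClasses B y₀),
          UpTo W (Φ (z * z')) (fun x => Φ z (Φ z' x))) ∧
        (∀ (B' : Emb) (φ : S4 → S4) (z : Pi2 (B '' coreSphere 1) y₀), IsImplantation B' φ →
          SameFixed B B' → FreeClass (B '' coreSphere 1) y₀ B' z → UpTo W φ (Φ z)) ∧
        ∀ z : Pi2 (B '' coreSphere 1) y₀, FreeClass (B '' coreSphere 1) y₀ (parallel B) z →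
          UpTo W (Φ z) (fun x => x)

open FIN4 in
theorem m_FIN4 (hPARS : ∀ W W', IsW W → IsPush W W' → StPARS W') (hRelS : StRelS) (hT4 : StT4)
    (hT2 : StT2) (hCI : StCI) {W₀ : R4 → R4} (hW₀ : IsW W₀) : StFinal4 := by
  obtain ⟨W, hW, hpush, hRel⟩ := hRelS W₀ hW₀
  have hPAR := hPARS W₀ W hW₀ hpush
  obtain ⟨B₀, δ₀, k1, k2, k3, k4⟩ := hW.1
  have tself := (hT2 _ _ (𝓡 4) S4).2.2.2.2.2.2
  obtain ⟨cid, cs, cself, ct, cc, cinv, cex, cconj, ciso, -⟩ := hCI _ _ (𝓡 4) S4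
  have hflat : ∀ c, Pool.Agent.Helper70.Fin.flatBall c = flat c := fun c => by
    have e : (1 / 5 : ℝ) ^ 2 = 1 / 25 := by norm_num
    rw [Pool.Agent.Helper70.Fin.flatBall, flat, e]
  refine ⟨W, B₀, ⟨k1, barMap, isBarbellMap_barMap, k4⟩, ⟨δ₀, ?_, ?_⟩, hW.2.1, hW.2.2, ?_⟩
  · rw [hflat, hflat]
    exact k2
  · rw [RELS.coreSphere_eq, RELS.coreSphere_eq]
    exact k3
  intro B y₀ hNB hy
  have hB : EmbOn (𝓡 4) B SP := (hT4 B barMap hNB isBarbellMap_barMap).1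
  have hA : B '' coreSphere 1 = B '' sph 1 := by rw [RELS.coreSphere_eq]
  obtain ⟨Φ, hs, hmul, hrep⟩ := exists_hom hT2 hCI hW hRel hB hA hy
  have hsame : ∀ B' : Emb, SameFixed B B' → ∃ U : Set R4, IsOpen U ∧ sph 1 ⊆ U ∧ EqOn B B' U := by
    rintro B' ⟨U, h1, h2, h3⟩
    rw [RELS.coreSphere_eq] at h2
    exact ⟨U, h1, h2, h3⟩
  have hperm : ∀ (G : R4 → S4) (φ : S4 → S4), Thin (𝓡 4) G φ → ∃ P : Equiv.Perm S4, φ = P := by
    intro G φ hT
    obtain ⟨φ', -, i1, i2⟩ := cex φ (tself _ _ hT)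
    exact ⟨⟨φ, φ', i2, i1⟩, rfl⟩
  -- the parallel copy
  have hpar : ∀ z : Pi2 (B '' coreSphere 1) y₀,
      FreeClass (B '' coreSphere 1) y₀ (parallel B) z → ∃ (G : R4 → S4) (φ : S4 → S4),
        EmbOn (𝓡 4) G SP ∧ (∃ U : Set R4, IsOpen U ∧ sph 1 ⊆ U ∧ EqOn B G U) ∧
        Thin (𝓡 4) G φ ∧ FreeClass (B '' coreSphere 1) y₀ G z ∧
        (CIsot (𝓡 4) φ (fun x => x) ∨ CIsot (𝓡 4) φ W) := by
    intro z hz
    obtain ⟨G, φ, h, g1, g2, g3, g4, g5, g6, g7, g8⟩ := hPAR B hNB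
    refine ⟨G, φ, g1, g2, g3, ?_, g4⟩
    refine free_trans hz h ?_ ?_ ?_ ?_
    · rw [RELS.coreSphere_eq]
      exact g5
    · rw [RELS.coreSphere_eq]
      exact g6
    · rw [RELS.coreSphere_eq]
      exact g7
    · rw [RELS.coreSphere_eq, RELS.coreSphere_eq]
      exact g8
  have hsub : MovedClasses B y₀ ⊆ RepG B (B '' coreSphere 1) y₀ := by
    rintro z (⟨B', hB', hsf, hfr⟩ | hz)
    · obtain ⟨e1, e2⟩ := hT4 B' barMap hB' isBarbellMap_barMap
      obtain ⟨P, hP⟩ := hperm _ _ e2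
      rw [hP] at e2
      exact ⟨B', P, e1, hsame B' hsf, e2, hfr⟩
    · obtain ⟨G, φ, g1, g2, g3, g4, -⟩ := hpar z hz
      obtain ⟨P, hP⟩ := hperm _ _ g3
      rw [hP] at g3
      exact ⟨G, P, g1, g2, g3, g4⟩
  have hcl := Subgroup.closure_mono hsub
  refine ⟨Φ, fun z hz z' hz' => (rw4_iff hCI).1 (hmul z (hcl hz) z' (hcl hz')), ?_, ?_⟩
  · rintro B' φ z ⟨hB', β, hβ, rfl⟩ hsf hfr
    obtain ⟨e1, e2⟩ := hT4 B' β hB' hβ
    exact (rw4_iff hCI).1 (hrep B' _ z e1 (hsame B' hsf) e2 hfr)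
  · intro z hz
    obtain ⟨G, φ, g1, g2, g3, g4, g5⟩ := hpar z hz
    have h1 : RW4 W φ (Φ z) := hrep G φ z g1 g2 g3 g4
    have h2 : RW4 W φ (fun x => x) := g5
    exact (rw4_iff hCI).1 (r_trans hCI hW cid (r_symm hCI hW (hs z) h1) h2)

/-- The parallel copy in the 4-sphere. -/
theorem m_PARS (hPAR4 : StPAR4) (hEI : StEI) (hX2c : StX2c) (hX1 : StX1) (hX3 : StX3)
    (hT4 : StT4) (hS4 : StS4) (hCI : StCI) :
    ∀ W W', IsW W → IsPush W W' → StPARS W' := by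
  intro W W' hW hpush B hNB
  have hB : EmbOn (𝓡 4) B SP := (hT4 B barMap hNB isBarbellMap_barMap).1
  obtain ⟨cid, cs, cself, ct, cc, cinv, cex, cconj, ciso, -⟩ := hCI _ _ (𝓡 4) S4
  obtain ⟨s1, s2⟩ := RELS.spine_smallG hEI hS4 B hB
  obtain ⟨c, hc, hsub⟩ := hX2c (B '' SP) s1 s2
  obtain ⟨hF, U1, hU1o, hU1s, hU1⟩ := hX3 _ _ (𝓡 4) S4 c B SP hc hB hsub
  obtain ⟨z1, z2, z3, z4, -⟩ := hX1 _ _ (𝓡 4) S4 c hc
  -- small shifts stay in `U1`
  obtain ⟨r, hr, hrU⟩ : ∃ r > 0, ∀ η ∈ Ioo (0 : ℝ) r, ∀ p ∈ sph 1, (p.1 + η, p.2) ∈ U1 := by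
    obtain ⟨r, hr, h1⟩ := (RELS.isCompact_sph 1).exists_thickening_subset_open hU1o
      (RELS.sph1_sub.trans hU1s)
    refine ⟨r, hr, fun η hη p hp => h1 ?_⟩
    rw [Metric.mem_thickening_iff]
    refine ⟨p, hp, ?_⟩
    rw [Prod.dist_eq, dist_self, max_lt_iff]
    refine ⟨?_, hr⟩
    show dist (p.1 + η) p.1 < r
    rw [Real.dist_eq, add_sub_cancel_left, abs_of_pos hη.1]
    exact hη.2
  obtain ⟨η, hη, F', φ', U, hF', hU, hsU, hE, hT, hor, hcuff⟩ :=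
    hPAR4 (fun p => Function.invFun c (B p)) W hW hF (min r (1 / 4)) (lt_min hr (by norm_num))
  have hη1 : η ∈ Ioo (0 : ℝ) r := ⟨hη.1, hη.2.trans_le (min_le_left _ _)⟩
  have hη2 : η < 1 / 4 := hη.2.trans_le (min_le_right _ _)
  have hsh : ∀ p ∈ sph 0, ((p.1, (p.2.1 + 1, p.2.2)) : R4) ∈ sph 1 := by
    rintro p ⟨h1, h2⟩
    refine ⟨h1, ?_⟩
    have h3 : rsq 1 (p.1, (p.2.1 + 1, p.2.2)) = rsq 0 p := by
      simp [rsq]
    rw [h3, h2]
  have hnb : ∀ p ∈ sph 0, ∀ v ∈ Icc (0 : ℝ) 1, ((p.1 + v, (p.2.1 + 1, p.2.2)) : R4) ∈ NB := by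
    rintro p ⟨h1, h2⟩ v hv
    have h3 : rsq 1 (p.1 + v, (p.2.1 + 1, p.2.2)) = rsq 0 p := by simp [rsq]
    have h4 : rsq 0 p = p.2.1 ^ 2 + Complex.normSq p.2.2 := by
      simp [rsq, nsq, Complex.normSq_apply]
      ring
    have h5 : rsq 0 (p.1 + v, (p.2.1 + 1, p.2.2)) = (p.2.1 + 1) ^ 2 + Complex.normSq p.2.2 := by
      simp [rsq, nsq, Complex.normSq_apply]
      ring
    have h6 : p.2.1 ^ 2 ≤ 1 / 25 := by
      have := Complex.normSq_nonneg p.2.2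
      rw [h2] at h4
      linarith
    have h7 : -1 / 5 ≤ p.2.1 := by nlinarith
    have h8 : p.2.1 ≤ 1 / 5 := by nlinarith
    refine ⟨⟨?_, ?_, ?_⟩, ?_, ?_⟩
    · show -1 ≤ p.1 + v
      rw [h1]
      linarith [hv.1]
    · show p.1 + v ≤ 2
      rw [h1]
      linarith [hv.2]
    · rw [h5]
      have : (p.2.1 + 1) ^ 2 + Complex.normSq p.2.2 = 2 * p.2.1 + 1 + 1 / 25 := by
        rw [h2] at h4
        linarith
      rw [this]
      norm_num
      linarith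
    · rw [h5]
      have : (p.2.1 + 1) ^ 2 + Complex.normSq p.2.2 = 2 * p.2.1 + 1 + 1 / 25 := by
        rw [h2] at h4
        linarith
      rw [this]
      norm_num
      linarith
    · rw [h3, h2]
      norm_num
  refine ⟨fun p => c (F' p), imp c univ φ',
    fun x => B (x.2.1 + (1 / 2 + x.1 * (η - 1 / 2)), (x.2.2.1 + 1, x.2.2.2)), z2 _ _ hF',
    ⟨U ∩ U1, hU.inter hU1o, subset_inter hsU (RELS.sph1_sub.trans hU1s), fun p hp => ?_⟩,
    z3 _ _ hT, ?_, ?_, ?_, ?_, ?_⟩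
  · have e1 : Function.invFun c (B p) = F' p := hE hp.1
    show B p = c (F' p)
    rw [← e1, hU1 p hp.2]
  · rcases hor with e | e
    · left
      have h2 := z1 _ _ e
      rw [Pool.Agent.Helper70.BI.W4.imp_id] at h2
      exact h2
    · exact Or.inr (ct _ _ _ (z1 _ _ e) (hpush c hc))
  · have hcont : ContinuousOn B B.source := B.contMDiffOn_toFun.continuousOn
    refine hcont.comp (Continuous.continuousOn (by fun_prop)) ?_
    rintro ⟨u, p⟩ hz
    have hu : 0 ≤ u ∧ u ≤ 1 := hz.1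
    refine hNB (hnb p hz.2 (1 / 2 + u * (η - 1 / 2)) ⟨?_, ?_⟩)
    · nlinarith [hη.1]
    · nlinarith [hη.1]
  · intro p hp
    show B (p.1 + (1 / 2 + 0 * (η - 1 / 2)), (p.2.1 + 1, p.2.2)) = parallel B p
    rw [zero_mul, add_zero]
    rfl
  · intro p hp
    show B (p.1 + (1 / 2 + 1 * (η - 1 / 2)), (p.2.1 + 1, p.2.2)) = c (F' p)
    rw [hcuff p hp]
    have e1 : (1 / 2 + 1 * (η - 1 / 2) : ℝ) = η := by ring
    have e2 := hU1 (p.1 + η, (p.2.1 + 1, p.2.2)) (hrU η hη1 _ (hsh p hp))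
    rw [e1, e2]
  · rintro u hu p hp ⟨q, hq, he⟩
    have hv : 0 < 1 / 2 + u * (η - 1 / 2) := by nlinarith [hη.1, hu.1, hu.2]
    have hv1 : 1 / 2 + u * (η - 1 / 2) ≤ 1 := by nlinarith [hη.1, hu.1, hu.2]
    have h1 := B.toPartialEquiv.injOn (hNB (SP_sub_NB (RELS.sph1_sub hq)))
      (hNB (hnb p hp (1 / 2 + u * (η - 1 / 2)) ⟨hv.le, hv1⟩)) he
    have h2 : q.1 = p.1 + (1 / 2 + u * (η - 1 / 2)) := by rw [h1]
    have h3 : q.1 = 1 / 2 := hq.1
    have h4 : p.1 = 1 / 2 := hp.1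
    rw [h3, h4] at h2
    linarith

end Pool.Agent.Helper18.BI.R


end

/-! ## Helper18.BI.R.M_NULS -/

section

/-!
# Project BI, stage 4 (R): null-homotopic cuffs in the 4-sphere, for every transport of `W`
-/

set_option autoImplicit false

open scoped Manifold ContDiff Topology ComplexConjugate unitInterval
open Set Filter Pool.Agent.Helper65.Barb Pool.Agent.Helper18.BI
open Pool.Agent.Helper70.BI (I4 IsW StEI StX2c)
open Pool.Agent.Helper70.BI.Fin2 (SP_sub_NB)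
open Pool.Agent.Helper18.BI.H (StNULC StSMH)
open Pool.Agent.Helper18.BI.H.F3 (invFun_continuousAt spine_small)
open Pool.Agent.Helper70.Fin (Emb)

namespace Pool.Agent.Helper18.BI.R

/-- A barbell one of whose cuffs is null-homotopic in the complement of the other one has class `1` or `W'`. -/
def NulS (W' : S4 → S4) : Prop :=
  ∀ (B : Emb) (φ : S4 → S4) (h : ℝ × R4 → S4) (y : S4) (c d : ℝ), NB ⊆ B.source →
    (c = 0 ∧ d = 1 ∨ c = 1 ∧ d = 0) → Thin (𝓡 4) B φ →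
    ContinuousOn h (Icc (0 : ℝ) 1 ×ˢ sph d) → (∀ p ∈ sph d, h (0, p) = B p) →
    (∀ p ∈ sph d, h (1, p) = y) → (∀ u ∈ Icc (0 : ℝ) 1, ∀ p ∈ sph d, h (u, p) ∉ B '' sph c) →
    CIsot (𝓡 4) φ (fun x => x) ∨ CIsot (𝓡 4) φ W'

theorem m_NULS (hNULC : StNULC) (hSMH : StSMH) (hS4 : StS4) (hT2 : StT2) (hT4 : StT4)
    (hX1 : StX1) (hX2c : StX2c) (hX3 : StX3) (hEI : StEI) (hCI : StCI) :
    ∀ (W : R4 → R4) (W' : S4 → S4), IsW W → IsPush W W' → NulS W' := by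
  intro W W' hW hpush B φ₀ h y c d hB hcd hφ₀ hh h0 h1 hoff
  obtain ⟨-, cs, cself, ct, cc, -, -, cconj, ciso, -⟩ := hCI _ _ (𝓡 4) S4
  have hsd : ∀ e : ℝ, (e = 0 ∨ e = 1) → sph e ⊆ SP := by
    rintro e (rfl | rfl) p hp
    · exact Or.inl (Or.inl hp)
    · exact Or.inl (Or.inr hp)
  have hc01 : c = 0 ∨ c = 1 := by rcases hcd with h | h <;> simp [h.1]
  have hd01 : d = 0 ∨ d = 1 := by rcases hcd with h | h <;> simp [h.2]
  have hE : EmbOn (𝓡 4) B SP := (hT4 B barMap hB isBarbellMap_barMap).1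
  have hfixc : IsCompact (B '' sph c) := by
    refine (RELS.isCompact_sph c).image_of_continuousOn fun p hp => ?_
    exact (hE.1 p (hsd c hc01 hp)).contMDiffAt.continuousAt.continuousWithinAt
  have hdom : IsCompact (Icc (0 : ℝ) 1 ×ˢ sph d) := isCompact_Icc.prod (RELS.isCompact_sph d)
  obtain ⟨h', hh', h0', h1', hoff', hint⟩ := hSMH B (fun _ => y) h (B '' sph c) d hfixc
    (fun p hp => (hE.1 p (hsd d hd01 hp)).contMDiffAt)
    (fun p _ => contMDiffAt_const) hh h0 h1 hoff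
  obtain ⟨s1, s2⟩ := spine_small hEI hS4 B hB
  have s5 : IsCompact (h' '' (Icc (0 : ℝ) 1 ×ˢ sph d)) := hdom.image_of_continuousOn hh'
  obtain ⟨ch, hch, hsub⟩ := hX2c (B '' SP ∪ h' '' (Icc (0 : ℝ) 1 ×ˢ sph d))
    (s1.union s5) (by
      rw [interior_union_isClosed_of_interior_empty s1.isClosed hint, s2])
  obtain ⟨hF, φ, hφ, hT⟩ := RELS.transferG hT2 hX1 hX3 ch hch B φ₀ hE hφ₀
    (subset_union_left.trans hsub)
  have hhr : ∀ z ∈ Icc (0 : ℝ) 1 ×ˢ sph d, h' z ∈ range ch := fun z hz =>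
    hsub (Or.inr (mem_image_of_mem _ hz))
  have hinv : ∀ y ∈ range ch, ch (Function.invFun ch y) = y := fun y hy => Function.invFun_eq hy
  obtain ⟨z1, -, -, z4, -⟩ := hX1 _ _ (𝓡 4) S4 ch hch
  have hor := hNULC (fun p => Function.invFun ch (B p))
    (fun z => Function.invFun ch (h' z)) (Function.invFun ch y) W φ c d hW hcd hF
    (fun z hz => (invFun_continuousAt hch (hhr z hz)).comp_continuousWithinAt (hh' z hz))
    (fun p hp => by simp only [h0' p hp]) (fun p hp => by simp only [h1' p hp])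
    (fun u hu p hp => by
      rintro ⟨q, hq, he⟩
      have he' : Function.invFun ch (B q) = Function.invFun ch (h' (u, p)) := he
      have hBq : B q ∈ range ch :=
        hsub (Or.inl (mem_image_of_mem _ (hsd c hc01 hq)))
      have e1 : B q = h' (u, p) := by
        rw [← hinv _ hBq, he', hinv _ (hhr (u, p) ⟨hu, hp⟩)]
      exact hoff' u hu p hp ⟨q, hq, e1⟩)
    hφ
  rcases hor with e | e
  · left
    have h2 := z1 _ _ e
    rw [Pool.Agent.Helper70.BI.W4.imp_id] at h2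
    exact ct _ _ _ (cs _ _ hT) h2
  · right
    exact ct _ _ _ (cs _ _ hT) (ct _ _ _ (z1 _ _ e) (hpush ch hch))

end Pool.Agent.Helper18.BI.R


end

/-! ## Helper18.BI.R.M_FIN5 -/

section

/-!
# Project BI, stage 4 (R): the final theorem
-/

set_option autoImplicit false
set_option linter.unusedSectionVars false

open scoped Manifold ContDiff Topology ComplexConjugate unitInterval
open Set Filter Pool.Agent.Helper65.Barb Pool.Agent.Helper18.BI
open Pool.Agent.Helper27.BI (swp StR2sw)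
open Pool.Agent.Helper34.BI (swp_swp swp_mem_SP isLocalDiffeomorphAt_swp)
open Pool.Agent.Helper70.BI (I4 IsW StEI StX2c)
open Pool.Agent.Helper70.BI.Fin2 (SP_sub_NB)
open Pool.Agent.Helper18.BI.H (IsW4)
open Pool.Agent.Helper70.Fin (Emb coreSphere IsImplantation BoundsDisjointBalls IsCentral)
open Pool.Agent.Helper18.FinR (sqr Pi2 cls FreeClass SameFixed parallel UpTo MovedUnknotted
  exch Elementary ElementaryClasses)

namespace Pool.Agent.Helper18.BI.R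

/-- **THE MAIN THEOREM OF STAGE 4, final form.** -/
def StFinal5 : Prop :=
  ∃ (W : S4 → S4) (B₀ : Emb), IsImplantation B₀ W ∧ BoundsDisjointBalls B₀ ∧
    Isot (𝓡 4) (fun x => W (W x)) (fun x => x) ∧ IsCentral W ∧
    (∀ (B : Emb) (y₀ : {x : S4 // x ∉ B '' coreSphere 1}), NB ⊆ B.source →
      (y₀ : S4) = B (1 / 2, (1 / 2, 0)) →
      (∀ B' : Emb, NB ⊆ B'.source → SameFixed B B' →
        ∃ z, FreeClass (B '' coreSphere 1) y₀ B' z) ∧
      ∃ Φ : Pi2 (B '' coreSphere 1) y₀ → S4 → S4,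
        (∀ z ∈ Subgroup.closure (FinR.MovedClasses B y₀),
          ∀ z' ∈ Subgroup.closure (FinR.MovedClasses B y₀),
          UpTo W (Φ (z * z')) (fun x => Φ z (Φ z' x))) ∧
        (∀ (B' : Emb) (φ : S4 → S4) (z : Pi2 (B '' coreSphere 1) y₀), IsImplantation B' φ →
          SameFixed B B' → FreeClass (B '' coreSphere 1) y₀ B' z → UpTo W φ (Φ z)) ∧
        ∀ z ∈ Subgroup.closure (ElementaryClasses B y₀), UpTo W (Φ z) (fun x => x)) ∧
    ∀ (B : Emb) (φ : S4 → S4), Elementary B → IsImplantation B φ → UpTo W φ (fun x => x)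

open FIN4

namespace FIN5

theorem embOn_swpS {G : R4 → S4} (hG : EmbOn (𝓡 4) G SP) :
    EmbOn (𝓡 4) (fun p => G (swp p)) SP :=
  ⟨fun p hp => isLocalDiffeomorphAt_swpS (hG.1 _ (swp_mem_SP hp)), fun p hp q hq hpq => by
    have := hG.2 (swp_mem_SP hp) (swp_mem_SP hq) hpq
    rw [← swp_swp p, this, swp_swp]⟩
where
  isLocalDiffeomorphAt_swpS {f : R4 → S4} {p : R4}
      (h : IsLocalDiffeomorphAt 𝓘(ℝ, R4) (𝓡 4) ∞ f (swp p)) :
      IsLocalDiffeomorphAt 𝓘(ℝ, R4) (𝓡 4) ∞ (fun p => f (swp p)) p := by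
    have h1 : IsLocalDiffeomorphAt 𝓘(ℝ, R4) 𝓘(ℝ, R4) ∞ swp p := by
      have hid : IsLocalDiffeomorphAt 𝓘(ℝ, R4) 𝓘(ℝ, R4) ∞ (fun q : R4 => q) (swp p) :=
        ⟨(Diffeomorph.refl 𝓘(ℝ, R4) R4 ∞).toPartialDiffeomorph, mem_univ _, fun _ _ => rfl⟩
      exact isLocalDiffeomorphAt_swp hid
    exact IsLocalDiffeomorphAt.comp (K := 𝓡 4) (P := S4) (hf := h1) (hg := h)

section
variable (hT2 : StT2) (hT4 : StT4) (hCI : StCI) {W : S4 → S4} (hW : IsW4 W)
include hT2 hT4 hCI hW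

/-- the inverse of a diffeomorphism which is trivial up to `W` -/
theorem inv_triv {φ φ' : S4 → S4} (hφ' : CIsot (𝓡 4) φ' φ') (i2 : ∀ x, φ' (φ x) = x)
    (h : RW4 W φ (fun x => x)) : RW4 W φ' (fun x => x) := by
  obtain ⟨cid, cs, cself, ct, cc, cinv, cex, cconj, ciso, -⟩ := hCI _ _ (𝓡 4) S4
  rcases h with h | h
  · left
    have h1 := cc _ _ _ _ hφ' h
    simp only [i2] at h1
    exact cs _ _ h1
  · right
    have h1 : CIsot (𝓡 4) (fun x => φ' (φ x)) (fun x => φ' (W x)) := cc φ' φ' φ W hφ' h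
    simp only [i2] at h1
    have h2 : CIsot (𝓡 4) (fun x => W x) (fun x => φ' (W (W x))) :=
      cc (fun x => x) (fun x => φ' (W x)) W W h1 (FIN4.WW hCI hW)
    have h3 : CIsot (𝓡 4) (fun x => φ' (W (W x))) φ' :=
      cc φ' φ' (fun x => W (W x)) (fun x => x) hφ' (W2 hCI hW)
    exact cs _ _ (ct _ _ _ h2 h3)

theorem mul_triv {φ ψ : S4 → S4} (h : RW4 W φ (fun x => x)) (h' : RW4 W ψ (fun x => x)) :
    RW4 W (fun x => φ (ψ x)) (fun x => x) := by
  obtain ⟨cid, cs, cself, ct, cc, cinv, cex, cconj, ciso, -⟩ := hCI _ _ (𝓡 4) S4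
  rcases h with h | h <;> rcases h' with h' | h'
  · left
    exact cc φ (fun x => x) ψ (fun x => x) h h'
  · right
    exact cc φ (fun x => x) ψ W h h'
  · right
    exact cc φ W ψ (fun x => x) h h'
  · left
    exact ct _ _ _ (cc φ W ψ W h h') (W2 hCI hW)

/-- a map which is multiplicative up to `W` on a subgroup and trivial up to `W` on generators -/
theorem key_closure {Γ : Type} [Group Γ] (Φ : Γ → S4 → S4) (hs : ∀ z, CIsot (𝓡 4) (Φ z) (Φ z))
    (R : Set Γ) (hmul : ∀ z ∈ Subgroup.closure R, ∀ z' ∈ Subgroup.closure R,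
      RW4 W (Φ (z * z')) (fun x => Φ z (Φ z' x))) (T : Set Γ) (hTR : T ⊆ R)
    (hT : ∀ z ∈ T, RW4 W (Φ z) (fun x => x)) :
    ∀ z ∈ Subgroup.closure T, RW4 W (Φ z) (fun x => x) := by
  obtain ⟨cid, cs, cself, ct, cc, cinv, cex, cconj, ciso, -⟩ := hCI _ _ (𝓡 4) S4
  have hclT := Subgroup.closure_mono hTR
  have hone : RW4 W (Φ 1) (fun x => x) := by
    have h1 := hmul 1 (one_mem _) 1 (one_mem _)
    rw [one_mul] at h1
    obtain ⟨Φ', hs', i1, i2⟩ := cex _ (hs 1)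
    have h2 : RW4 W (fun x => Φ' (Φ 1 x)) (fun x => Φ' (Φ 1 (Φ 1 x))) := by
      rcases h1 with h1 | h1
      · exact Or.inl (cc _ _ _ _ hs' h1)
      · right
        have h3 : CIsot (𝓡 4) (fun x => Φ' (Φ 1 x)) (fun x => Φ' (W (Φ 1 (Φ 1 x)))) :=
          cc Φ' Φ' (Φ 1) (fun x => W (Φ 1 (Φ 1 x))) hs' h1
        have h4 : CIsot (𝓡 4) (fun x => Φ' (W (Φ 1 (Φ 1 x)))) (fun x => W (Φ' (Φ 1 (Φ 1 x)))) :=
          cc (fun x => Φ' (W x)) (fun x => W (Φ' x)) (fun x => Φ 1 (Φ 1 x))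
            (fun x => Φ 1 (Φ 1 x)) (Wcomm hCI hW hs') (cc _ _ _ _ (hs 1) (hs 1))
        exact ct _ _ _ h3 h4
    simp only [i2] at h2
    exact r_symm hCI hW (hs 1) h2
  intro z hz
  refine Subgroup.closure_induction (p := fun z _ => RW4 W (Φ z) (fun x => x)) ?_ ?_ ?_ ?_ hz
  · exact hT
  · exact hone
  · intro a b ha hb iha ihb
    exact r_trans hCI hW cid (hmul a (hclT ha) b (hclT hb)) (mul_triv hT2 hT4 hCI hW iha ihb)
  · intro a ha iha
    have h1 := hmul a (hclT ha) a⁻¹ (inv_mem (hclT ha))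
    rw [mul_inv_cancel] at h1
    have h2 : RW4 W (fun x => Φ a (Φ a⁻¹ x)) (fun x => x) :=
      r_trans hCI hW cid (r_symm hCI hW (cc _ _ _ _ (hs a) (hs a⁻¹)) h1) hone
    rcases iha with iha | iha
    · have h3 : CIsot (𝓡 4) (fun x => Φ a (Φ a⁻¹ x)) (Φ a⁻¹) :=
        cc (Φ a) (fun x => x) (Φ a⁻¹) (Φ a⁻¹) iha (hs a⁻¹)
      exact r_trans hCI hW cid (Or.inl (cs _ _ h3)) h2
    · have h3 : CIsot (𝓡 4) (fun x => Φ a (Φ a⁻¹ x)) (fun x => W (Φ a⁻¹ x)) :=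
        cc (Φ a) W (Φ a⁻¹) (Φ a⁻¹) iha (hs a⁻¹)
      exact r_trans hCI hW cid (r_symm hCI hW (hs a⁻¹) (Or.inr h3)) h2

/-- all diffeomorphisms of a germ have the same class -/
theorem thin_triv {G : R4 → S4} {φ ψ : S4 → S4} (hφ : Thin (𝓡 4) G φ) (hψ : Thin (𝓡 4) G ψ)
    (h : RW4 W φ (fun x => x)) : RW4 W ψ (fun x => x) := by
  obtain ⟨-, tii, -⟩ := hT2 _ _ (𝓡 4) S4
  obtain ⟨cid, cs, cself, ct, cc, cinv, cex, cconj, ciso, -⟩ := hCI _ _ (𝓡 4) S4
  exact r_trans hCI hW cid (Or.inl (tii G _ _ hψ hφ)) h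

/-- the parallel copy -/
theorem par_rep (hPAR : StPARS W) (B : Emb) (hNB : NB ⊆ B.source)
    (y₀ : {x : S4 // x ∉ B '' coreSphere 1}) (z : Pi2 (B '' coreSphere 1) y₀)
    (hz : FreeClass (B '' coreSphere 1) y₀ (parallel B) z) : ∃ (G : R4 → S4) (φ : S4 → S4),
      EmbOn (𝓡 4) G SP ∧ (∃ U : Set R4, IsOpen U ∧ sph 1 ⊆ U ∧ EqOn B G U) ∧
      Thin (𝓡 4) G φ ∧ FreeClass (B '' coreSphere 1) y₀ G z ∧ RW4 W φ (fun x => x) := by
  obtain ⟨G, φ, h, g1, g2, g3, g4, g5, g6, g7, g8⟩ := hPAR B hNB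
  refine ⟨G, φ, g1, g2, g3, ?_, g4⟩
  refine free_trans hz h ?_ ?_ ?_ ?_
  · rw [RELS.coreSphere_eq]
    exact g5
  · rw [RELS.coreSphere_eq]
    exact g6
  · rw [RELS.coreSphere_eq]
    exact g7
  · rw [RELS.coreSphere_eq, RELS.coreSphere_eq]
    exact g8

omit hT4 hW in
theorem rep_of (B : Emb) (y₀ : {x : S4 // x ∉ B '' coreSphere 1})
    {G : R4 → S4} {φ : S4 → S4} {z : Pi2 (B '' coreSphere 1) y₀} (h1 : EmbOn (𝓡 4) G SP)
    (h2 : ∃ U : Set R4, IsOpen U ∧ sph 1 ⊆ U ∧ EqOn B G U) (h3 : Thin (𝓡 4) G φ)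
    (h4 : FreeClass (B '' coreSphere 1) y₀ G z) : z ∈ RepG B (B '' coreSphere 1) y₀ := by
  have tself := (hT2 _ _ (𝓡 4) S4).2.2.2.2.2.2
  obtain ⟨cid, cs, cself, ct, cc, cinv, cex, cconj, ciso, -⟩ := hCI _ _ (𝓡 4) S4
  obtain ⟨φ', -, i1, i2⟩ := cex φ (tself _ _ h3)
  exact ⟨G, ⟨φ, φ', i2, i1⟩, h1, h2, h3, h4⟩

omit hT2 hT4 hCI hW in
theorem same_near {B B' : Emb} (h : SameFixed B B') :
    ∃ U : Set R4, IsOpen U ∧ sph 1 ⊆ U ∧ EqOn B B' U := by
  obtain ⟨U, h1, h2, h3⟩ := h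
  rw [RELS.coreSphere_eq] at h2
  exact ⟨U, h1, h2, h3⟩

/-- **elementary barbells** -/
theorem elem (hRel : RelS W) (hNul : NulS W) (hPAR : StPARS W) (hEXC : StEXC) (hUNK : StUNK)
    (hsw : StR2sw) (B : Emb) (hB : Elementary B) :
    NB ⊆ B.source ∧ ∀ φ, Thin (𝓡 4) B φ → RW4 W φ (fun x => x) := by
  obtain ⟨cid, cs, cself, ct, cc, cinv, cex, cconj, ciso, -⟩ := hCI _ _ (𝓡 4) S4
  have tself := (hT2 _ _ (𝓡 4) S4).2.2.2.2.2.2
  induction hB with
  | unknotted B hB hu =>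
    refine ⟨hB, fun φ hφ => ?_⟩
    obtain ⟨δ, e1, e2⟩ := hu
    have hflat : Pool.Agent.Helper70.Fin.flatBall 0 = flat 0 := by
      have e : (1 / 5 : ℝ) ^ 2 = 1 / 25 := by norm_num
      rw [Pool.Agent.Helper70.Fin.flatBall, flat, e]
    rw [hflat] at e1
    rw [RELS.coreSphere_eq] at e2
    obtain ⟨h, y, f1, f2, f3, f4⟩ := hUNK B hB ⟨δ, e1, e2⟩
    exact hNul B φ h y 0 1 hB (Or.inl ⟨rfl, rfl⟩) hφ f1 f2 f3 f4
  | exchange B B' U _ hB' hU hsU hEq ih =>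
    obtain ⟨hB, ih⟩ := ih
    refine ⟨hB', fun ψ hψ => ?_⟩
    obtain ⟨e1, e2⟩ := hT4 B barMap hB isBarbellMap_barMap
    obtain ⟨f1, f2⟩ := hT4 B' barMap hB' isBarbellMap_barMap
    obtain ⟨φ', hφ', i1, i2⟩ := cex _ (tself _ _ e2)
    have hG : Thin (𝓡 4) (fun p => B (swp p)) φ' := (hsw _ _ (𝓡 4) S4 B _ φ' e1 i1 i2).1 e2
    have hGE : EmbOn (𝓡 4) (fun p => B (swp p)) SP := embOn_swpS e1
    have hφ't : RW4 W φ' (fun x => x) := inv_triv hT2 hT4 hCI hW hφ' i2 (ih _ e2)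
    have hy : B' (1 / 2, (1 / 2, 0)) ∉ B' '' coreSphere 1 := by
      rintro ⟨q, hq, he⟩
      rw [RELS.coreSphere_eq] at hq
      have hm : ((1 / 2, (1 / 2, 0)) : R4) ∈ SP := Or.inr ⟨rfl, by norm_num, by norm_num, rfl⟩
      have h1 := B'.toPartialEquiv.injOn (hB' (SP_sub_NB (RELS.sph1_sub hq)))
        (hB' (SP_sub_NB hm)) he
      rw [h1] at hq
      have h2 : rsq 1 (1 / 2, (1 / 2, (0 : ℂ))) = 1 / 25 := hq.2
      simp [rsq, nsq] at h2
      norm_num at h2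
    obtain ⟨z, hz⟩ := hEXC B' B' (B' '' coreSphere 1) ⟨_, hy⟩ hB' hB'
      ⟨univ, isOpen_univ, subset_univ _, fun _ _ => rfl⟩ rfl rfl
    obtain ⟨Φ, hs, hmul, hrep⟩ := exists_hom hT2 hCI hW hRel f1
      (by rw [RELS.coreSphere_eq]) (y₀ := ⟨B' (1 / 2, (1 / 2, 0)), hy⟩) rfl
    rw [RELS.coreSphere_eq, RELS.coreSphere_eq] at hsU
    have h1 : RW4 W ψ (Φ z) := hrep B' ψ z f1 ⟨univ, isOpen_univ, subset_univ _, fun _ _ => rfl⟩
      hψ hz
    have hz' : FreeClass (B' '' coreSphere 1) ⟨B' (1 / 2, (1 / 2, 0)), hy⟩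
        (fun p => B (swp p)) z := by
      obtain ⟨f, h, g1, g2, g3, g4, g5⟩ := hz
      refine ⟨f, h, g1, g2, g3, fun p hp => ?_, g5⟩
      rw [g4 p hp]
      rw [RELS.coreSphere_eq] at hp
      exact hEq (hsU (Or.inl hp))
    have h2 : RW4 W φ' (Φ z) := hrep _ φ' z hGE
      ⟨U, hU, fun p hp => hsU (Or.inr hp), fun p hp => hEq hp⟩ hG hz'
    exact r_trans hCI hW cid h1 (r_trans hCI hW cid (r_symm hCI hW (hs z) h2) hφ't)
  | sum B y₀ n C w z hNB hy _ hsf hfr hz hfB ih =>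
    refine ⟨hNB, fun ψ hψ => ?_⟩
    obtain ⟨f1, f2⟩ := hT4 B barMap hNB isBarbellMap_barMap
    obtain ⟨Φ, hs, hmul, hrep⟩ := exists_hom hT2 hCI hW hRel f1
      (by rw [RELS.coreSphere_eq]) (y₀ := y₀) hy
    have hgen : ∀ v ∈ Set.range w ∪ {v | FreeClass (B '' coreSphere 1) y₀ (parallel B) v},
        ∃ (G : R4 → S4) (φ : S4 → S4), EmbOn (𝓡 4) G SP ∧
          (∃ U : Set R4, IsOpen U ∧ sph 1 ⊆ U ∧ EqOn B G U) ∧
          Thin (𝓡 4) G φ ∧ FreeClass (B '' coreSphere 1) y₀ G v ∧ RW4 W φ (fun x => x) := by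
      rintro v (⟨i, rfl⟩ | hv)
      · obtain ⟨e1, e2⟩ := hT4 (C i) barMap (ih i).1 isBarbellMap_barMap
        exact ⟨C i, _, e1, same_near (hsf i), e2, hfr i, (ih i).2 _ e2⟩
      · exact par_rep hT2 hT4 hCI hW hPAR B hNB y₀ v hv
    have h1 : RW4 W (Φ z) (fun x => x) := by
      refine key_closure hT2 hT4 hCI hW Φ hs _ hmul _ ?_ ?_ z hz
      · intro v hv
        obtain ⟨G, φ, g1, g2, g3, g4, -⟩ := hgen v hv
        exact rep_of hT2 hCI B y₀ g1 g2 g3 g4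
      · intro v hv
        obtain ⟨G, φ, g1, g2, g3, g4, g5⟩ := hgen v hv
        exact r_trans hCI hW cid (r_symm hCI hW (hs v) (hrep G φ v g1 g2 g3 g4)) g5
    exact r_trans hCI hW cid
      (hrep B ψ z f1 ⟨univ, isOpen_univ, subset_univ _, fun _ _ => rfl⟩ hψ hfB) h1

end

end FIN5

open FIN5 in
theorem m_FIN5 (hPARS : ∀ W W', IsW W → IsPush W W' → StPARS W') (hRelS : StRelS)
    (hNULS : ∀ W W', IsW W → IsPush W W' → NulS W') (hEXC : StEXC) (hUNK : StUNK)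
    (hsw : StR2sw) (hT4 : StT4) (hT2 : StT2) (hCI : StCI) {W₀ : R4 → R4} (hW₀ : IsW W₀) :
    StFinal5 := by
  obtain ⟨W, hW, hpush, hRel⟩ := hRelS W₀ hW₀
  have hPAR := hPARS W₀ W hW₀ hpush
  have hNul := hNULS W₀ W hW₀ hpush
  obtain ⟨B₀, δ₀, k1, k2, k3, k4⟩ := hW.1
  obtain ⟨cid, cs, cself, ct, cc, cinv, cex, cconj, ciso, -⟩ := hCI _ _ (𝓡 4) S4
  have hflat : ∀ c, Pool.Agent.Helper70.Fin.flatBall c = flat c := fun c => by
    have e : (1 / 5 : ℝ) ^ 2 = 1 / 25 := by norm_num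
    rw [Pool.Agent.Helper70.Fin.flatBall, flat, e]
  have hel := elem hT2 hT4 hCI hW hRel hNul hPAR hEXC hUNK hsw
  refine ⟨W, B₀, ⟨k1, barMap, isBarbellMap_barMap, k4⟩, ⟨δ₀, ?_, ?_⟩, hW.2.1, hW.2.2, ?_, ?_⟩
  · rw [hflat, hflat]
    exact k2
  · rw [RELS.coreSphere_eq, RELS.coreSphere_eq]
    exact k3
  · intro B y₀ hNB hy
    have hB : EmbOn (𝓡 4) B SP := (hT4 B barMap hNB isBarbellMap_barMap).1
    obtain ⟨Φ, hs, hmul, hrep⟩ := exists_hom hT2 hCI hW hRel hB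
      (by rw [RELS.coreSphere_eq]) (y₀ := y₀) hy
    have hsub : FinR.MovedClasses B y₀ ⊆ RepG B (B '' coreSphere 1) y₀ := by
      rintro z (⟨B', hB', hsf, hfr⟩ | hz)
      · obtain ⟨e1, e2⟩ := hT4 B' barMap hB' isBarbellMap_barMap
        exact rep_of hT2 hCI B y₀ e1 (same_near hsf) e2 hfr
      · obtain ⟨G, φ, g1, g2, g3, g4, -⟩ := par_rep hT2 hT4 hCI hW hPAR B hNB y₀ z hz
        exact rep_of hT2 hCI B y₀ g1 g2 g3 g4
    have hcl := Subgroup.closure_mono hsub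
    refine ⟨fun B' hB' hsf => hEXC B B' _ y₀ hNB hB' hsf rfl hy, Φ,
      fun z hz z' hz' => (rw4_iff hCI).1 (hmul z (hcl hz) z' (hcl hz')), ?_, ?_⟩
    · rintro B' φ z ⟨hB', β, hβ, rfl⟩ hsf hfr
      obtain ⟨e1, e2⟩ := hT4 B' β hB' hβ
      exact (rw4_iff hCI).1 (hrep B' _ z e1 (same_near hsf) e2 hfr)
    · have htriv : ∀ z ∈ ElementaryClasses B y₀, ∃ (G : R4 → S4) (φ : S4 → S4),
          EmbOn (𝓡 4) G SP ∧ (∃ U : Set R4, IsOpen U ∧ sph 1 ⊆ U ∧ EqOn B G U) ∧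
          Thin (𝓡 4) G φ ∧ FreeClass (B '' coreSphere 1) y₀ G z ∧ RW4 W φ (fun x => x) := by
        rintro z (⟨B', hE, hsf, hfr⟩ | hz)
        · obtain ⟨hB', h2⟩ := hel B' hE
          obtain ⟨e1, e2⟩ := hT4 B' barMap hB' isBarbellMap_barMap
          exact ⟨B', _, e1, same_near hsf, e2, hfr, h2 _ e2⟩
        · exact par_rep hT2 hT4 hCI hW hPAR B hNB y₀ z hz
      intro z hz
      refine (rw4_iff hCI).1 (key_closure hT2 hT4 hCI hW Φ hs _ hmul _ ?_ ?_ z hz)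
      · intro v hv
        obtain ⟨G, φ, g1, g2, g3, g4, -⟩ := htriv v hv
        exact rep_of hT2 hCI B y₀ g1 g2 g3 g4
      · intro v hv
        obtain ⟨G, φ, g1, g2, g3, g4, g5⟩ := htriv v hv
        exact r_trans hCI hW cid (r_symm hCI hW (hs v) (hrep G φ v g1 g2 g3 g4)) g5
  · rintro B φ hE ⟨hB, β, hβ, rfl⟩
    obtain ⟨e1, e2⟩ := hT4 B β hB hβ
    exact (rw4_iff hCI).1 ((hel B hE).2 _ e2)

end Pool.Agent.Helper18.BI.R


end

/-! ## Helper18.BI.S5.StB -/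

section

/-!
# Project BI, stage 5: arbitrary spheres (part B: the 4-sphere)
-/

set_option autoImplicit false

open scoped Manifold ContDiff Topology ComplexConjugate unitInterval
open Set Pool.Agent.Helper65.Barb Pool.Agent.Helper18.BI
open Pool.Agent.Helper70.BI (I4 IsW)
open Pool.Agent.Helper18.BI.H (IsW4)
open Pool.Agent.Helper70.Fin (Emb coreSphere)
open Pool.Agent.Helper18.FinR (sqr Pi2 cls FreeClass)
open Pool.Agent.Helper18.BI.R

namespace Pool.Agent.Helper18.BI.S5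

/-- The relation theorem in the 4-sphere, for arbitrary spheres; `k i` for `i ∈ G` is a germ with the fixed cuff of
`B`, `(i, j) ∈ P` implies that `k i = k j` on the moved cuff. -/
def RelS6 (W : S4 → S4) : Prop :=
  ∀ (n : ℕ) (B : R4 → S4) (G : Set (Fin n)) (P : Set (Fin n × Fin n)) (k : Fin n → R4 → S4)
    (φ : Fin n → S4 → S4) (U : Set R4) (A : Set S4) (y₀ : {x : S4 // x ∉ A})
    (z : Fin n → Pi2 A y₀) (l : List (Fin n × Bool)), EmbOn (𝓡 4) B SP → IsOpen U → sph 1 ⊆ U →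
    (∀ i ∈ G, EmbOn (𝓡 4) (k i) SP ∧ EqOn B (k i) U ∧ Thin (𝓡 4) (k i) (φ i)) →
    (∀ i, ∃ L : NNReal, LipschitzOnWith L (fun m : R3 => k i (1 / 2, (1 / 5 : ℝ) • m)) S2) →
    (∀ x ∈ P, EqOn (k x.1) (k x.2) (coreSphere 0)) → A = B '' sph 1 →
    (y₀ : S4) = B (1 / 2, (1 / 2, 0)) → (∀ i, FreeClass A y₀ (k i) (z i)) →
    (l.map fun p => if p.2 then z p.1 else (z p.1)⁻¹).prod = 1 →
    ∃ ψ ψ' : Fin n → S4 → S4, (∀ i x, ψ i (ψ' i x) = x) ∧ (∀ i x, ψ' i (ψ i x) = x) ∧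
      (∀ i, CIsot (𝓡 4) (ψ i) (ψ i)) ∧ (∀ i ∈ G, FIN4.RW4 W (ψ i) (φ i)) ∧
      (∀ x ∈ P, FIN4.RW4 W (ψ x.1) (ψ x.2)) ∧ FIN4.RW4 W (evD ψ ψ' l) (fun x => x)

/-- RELS6 (helper18). -/
def StRelS6 : Prop :=
  ∀ W : R4 → R4, IsW W → ∃ W' : S4 → S4, IsW4 W' ∧ IsPush W W' ∧ RelS W' ∧ RelS6 W'

end Pool.Agent.Helper18.BI.S5


end

/-! ## Helper18.BI.S5.M_RELS6 -/

section

/-!
# Project BI, stage 5, module RELS6: the relation theorem in the 4-sphere, for arbitrary spheres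
-/

set_option autoImplicit false
set_option linter.unusedSectionVars false

open scoped Manifold ContDiff Topology ComplexConjugate unitInterval
open Set Filter Pool.Agent.Helper65.Barb Pool.Agent.Helper18.BI
open Pool.Agent.Helper70.BI (I4 IsW StW4 StEI StX2c)
open Pool.Agent.Helper18.BI.H (IsW4)
open Pool.Agent.Helper18.BI.H.F3 (invFun_continuousAt)
open Pool.Agent.Helper70.Fin (coreSphere)
open Pool.Agent.Helper18.FinR (sqr Pi2 cls FreeClass UpTo)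
open Pool.Agent.Helper18.BI.R
open Pool.Agent.Helper18.BI.R.RELS
open Pool.Agent.Helper18.BI.R.FIN4 (RW4 c_iff r_symm r_trans Wcomm W2)

namespace Pool.Agent.Helper18.BI.S5

namespace RELS6

section
variable {W : S4 → S4} (hCI : StCI) (hW : IsW4 W)
include hCI hW

theorem r_comp {φ φ' ψ ψ' : S4 → S4} (hφ : CIsot (𝓡 4) φ' φ') (hψ : CIsot (𝓡 4) ψ' ψ')
    (h : RW4 W φ φ') (h' : RW4 W ψ ψ') : RW4 W (fun x => ψ (φ x)) (fun x => ψ' (φ' x)) := by
  obtain ⟨cid, cs, cself, ct, cc, -⟩ := hCI _ _ (𝓡 4) S4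
  have hWW := FIN4.WW hCI hW
  have V2 : CIsot (𝓡 4) (fun x => ψ' (W (φ' x))) (fun x => W (ψ' (φ' x))) :=
    cc (fun x => ψ' (W x)) (fun x => W (ψ' x)) φ' φ' (Wcomm hCI hW hψ) hφ
  rcases h with h | h
  · rcases h' with h' | h'
    · exact Or.inl (cc ψ ψ' φ φ' h' h)
    · exact Or.inr (cc ψ (fun x => W (ψ' x)) φ φ' h' h)
  · rcases h' with h' | h'
    · right
      have e1 : CIsot (𝓡 4) (fun x => ψ (φ x)) (fun x => ψ' (W (φ' x))) :=
        cc ψ ψ' φ (fun x => W (φ' x)) h' h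
      exact ct _ _ _ e1 V2
    · left
      have e1 : CIsot (𝓡 4) (fun x => ψ (φ x)) (fun x => W (ψ' (W (φ' x)))) :=
        cc ψ (fun x => W (ψ' x)) φ (fun x => W (φ' x)) h' h
      have e2 : CIsot (𝓡 4) (fun x => W (ψ' (W (φ' x)))) (fun x => W (W (ψ' (φ' x)))) :=
        cc W W _ _ hWW V2
      have e3 : CIsot (𝓡 4) (fun x => W (W (ψ' (φ' x)))) (fun x => ψ' (φ' x)) :=
        cc (fun x => W (W x)) (fun x => x) (fun x => ψ' (φ' x)) (fun x => ψ' (φ' x)) (W2 hCI hW)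
          (cc ψ' ψ' φ' φ' hψ hφ)
      exact ct _ _ _ e1 (ct _ _ _ e2 e3)

theorem r_inv {φ φ' ψ ψ' : S4 → S4} (h : RW4 W φ ψ) (hψ : CIsot (𝓡 4) ψ ψ)
    (i1 : ∀ x, φ (φ' x) = x) (i3 : ∀ x, ψ (ψ' x) = x) : RW4 W φ' ψ' := by
  obtain ⟨-, cs, cself, ct, cc, cinv, cex, -⟩ := hCI _ _ (𝓡 4) S4
  have hWW := FIN4.WW hCI hW
  have hψ' : CIsot (𝓡 4) ψ' ψ' := cinv _ _ _ _ hψ i3 i3
  rcases h with h | h
  · exact Or.inl (cinv _ _ _ _ h i1 i3)
  · right
    obtain ⟨W', hW', j1, j2⟩ := cex W hWW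
    have e1 : CIsot (𝓡 4) φ' (fun x => ψ' (W' x)) :=
      cinv φ (fun x => W (ψ x)) φ' (fun x => ψ' (W' x)) h i1 (fun x => by rw [i3, j1])
    have e2 : CIsot (𝓡 4) (fun x => W (W (W' x))) W' :=
      cc (fun x => W (W x)) (fun x => x) W' W' (W2 hCI hW) hW'
    have e3 : (fun x => W (W (W' x))) = W := by
      funext x
      rw [j1]
    rw [e3] at e2
    have e4 : CIsot (𝓡 4) (fun x => ψ' (W' x)) (fun x => ψ' (W x)) := cc _ _ _ _ hψ' (cs _ _ e2)
    exact ct _ _ _ e1 (ct _ _ _ e4 (Wcomm hCI hW hψ'))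

omit hW in
theorem evD_self4 {n : ℕ} {φ φ' : Fin n → S4 → S4}
    (h : ∀ i, CIsot (𝓡 4) (φ i) (φ i)) (h' : ∀ i, CIsot (𝓡 4) (φ' i) (φ' i)) :
    ∀ l, CIsot (𝓡 4) (evD φ φ' l) (evD φ φ' l) :=
  RELS.evD_isot hCI h h'

theorem evD_rw4 {n : ℕ} {φ φ' ψ ψ' : Fin n → S4 → S4}
    (hψ : ∀ i, CIsot (𝓡 4) (ψ i) (ψ i)) (hψ' : ∀ i, CIsot (𝓡 4) (ψ' i) (ψ' i))
    (h : ∀ i, RW4 W (φ i) (ψ i)) (h' : ∀ i, RW4 W (φ' i) (ψ' i)) :
    ∀ l, RW4 W (evD φ φ' l) (evD ψ ψ' l) := by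
  obtain ⟨cid, -, -, -, cc, -⟩ := hCI _ _ (𝓡 4) S4
  intro l
  induction l with
  | nil => exact Or.inl cid
  | cons p l ih =>
    obtain ⟨i, b⟩ := p
    rcases b with _ | _
    · exact r_comp (φ := φ' i) (φ' := ψ' i) (ψ := evD φ φ' l) (ψ' := evD ψ ψ' l) hCI hW
        (hψ' i) (evD_self4 hCI hψ hψ' l) (h' i) ih
    · exact r_comp (φ := φ i) (φ' := ψ i) (ψ := evD φ φ' l) (ψ' := evD ψ ψ' l) hCI hW
        (hψ i) (evD_self4 hCI hψ hψ' l) (h i) ih

end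

/-- the relation theorem for germs is a special case -/
theorem rels_of_rels6 (hT2 : StT2) (hCI : StCI) {W : S4 → S4} (hW : IsW4 W) (h : RelS6 W) :
    RelS W := by
  intro n B Bi φ φ' U A y₀ z l hB hBi hU hsU hE hT hi1 hi2 hA hy hz hprod
  obtain ⟨cid, cs, cself, ct, cc, cinv, cex, cconj, ciso, -⟩ := hCI _ _ (𝓡 4) S4
  have tself := (hT2 _ _ (𝓡 4) S4).2.2.2.2.2.2
  obtain ⟨ψ, ψ', j1, j2, hs, hG, -, hw⟩ := h n B univ ∅ Bi φ U A y₀ z l hB hU hsU
    (fun i _ => ⟨hBi i, hE i, hT i⟩) (fun i => cuff_lip (Bi i) (hBi i)) (fun x hx => hx.elim) hA hy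
    hz hprod
  have hφs : ∀ i, CIsot (𝓡 4) (φ i) (φ i) := fun i => tself _ _ (hT i)
  have hψ's : ∀ i, CIsot (𝓡 4) (ψ' i) (ψ' i) := fun i => cinv _ _ _ _ (hs i) (j1 i) (j1 i)
  have r1 : ∀ i, RW4 W (φ i) (ψ i) := fun i => r_symm hCI hW (hφs i) (hG i (mem_univ i))
  have r2 : ∀ i, RW4 W (φ' i) (ψ' i) := fun i =>
    r_inv hCI hW (r1 i) (hs i) (hi1 i) (j1 i)
  exact (FIN4.rw4_iff hCI).1 (r_trans hCI hW cid (evD_rw4 hCI hW hs hψ's r1 r2 l) hw)

end RELS6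

open RELS6 in
/-- **RELS6.** -/
theorem m_RELS6 (hREL6 : StREL6) (hREP : StREP) (hWRD : StWRD) (hEVM : StEVM)
    (hW4 : StW4) (hEI : StEI) (hX2c : StX2c) (hR3 : StR3) (hA1 : StA1) (hS4 : StS4)
    (hX1 : StX1) (hX3 : StX3) (hT2 : StT2) (hCI : StCI) : StRelS6 := by
  classical
  intro W hW
  obtain ⟨W', hW', hcW⟩ := w4_exists hW4 hR3 hA1 hCI hW
  suffices hmain : RelS6 W' from ⟨W', hW', hcW, rels_of_rels6 hT2 hCI hW' hmain, hmain⟩
  intro n B Gr P Bi φ U A y₀ z l hB hU hsU hBi hLip hP hA hy hz hprod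
  obtain ⟨cid, cs, cself, ct, cc, cinv, cex, cconj, ciso, -⟩ := hCI _ _ (𝓡 4) S4
  choose f h hzf hhc hh0 hh1 hhoff using hz
  -- the homotopies of spheres
  have hmap : ∀ m ∈ S2, ((1 / 2, (1 / 5 : ℝ) • m) : R4) ∈ coreSphere 0 := fun m hm => by
    rw [coreSphere_eq]
    exact cuff_mem hm
  have hAc : IsCompact A := by
    rw [hA]
    refine (isCompact_sph 1).image_of_continuousOn fun p hp => ?_
    exact (hB.1 p (sph1_sub hp)).contMDiffAt.continuousAt.continuousWithinAt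
  have hbase : sqr (fun _ => 0) = (1, 0) := by
    simp only [sqr]
    ext1
    · simp
    · apply Complex.ext <;> simp
  have hfree : FreeOff A (y₀ : S4) (fun i m => Bi i (1 / 2, (1 / 5 : ℝ) • m))
      (fun i z => h i (z.1, (1 / 2, (1 / 5 : ℝ) • z.2))) := by
    refine ⟨fun i => ?_, fun i m hm => hh1 i _ (hmap m hm), fun i => ?_, fun i u hu m hm =>
      hhoff i u hu _ (hmap m hm)⟩
    · refine (hhc i).comp (Continuous.continuousOn (by fun_prop)) ?_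
      rintro ⟨u, m⟩ hz
      exact ⟨hz.1, hmap m hz.2⟩
    · have h1 := hh0 i (fun _ => 0)
      rw [hbase] at h1
      show h i (0, (1 / 2, (1 / 5 : ℝ) • ((1, 0) : R3))) = _
      rw [h1]
      exact congrArg Subtype.val ((f i).2 (fun _ => 0) ⟨0, Or.inl rfl⟩)
  have hprod' : (l.map fun p => if p.2 then cls (f p.1) else (cls (f p.1))⁻¹).prod = 1 := by
    rw [← hprod]
    congr 1
    apply List.map_congr_left
    intro p _
    rw [hzf p.1]
  obtain ⟨N, hN⟩ := hWRD A y₀ n f (fun i m => h i (0, (1 / 2, (1 / 5 : ℝ) • m))) l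
    (fun i t => hh0 i t) hprod'
  obtain ⟨h', N', hfree', hN', hint1, hint2⟩ := hREP n A (y₀ : S4)
    (fun i m => Bi i (1 / 2, (1 / 5 : ℝ) • m)) _ l N hAc hLip hfree hN
  -- compact sets
  have hbox : IsCompact box := isCompact_Icc.prod (isCompact_Icc.prod isCompact_Icc)
  have s1 := spine_smallG hEI hS4 B hB
  have s2 := fun i : Gr => spine_smallG hEI hS4 (Bi i) (hBi i i.2).1
  have s3 : ∀ i, IsCompact (h' i '' (Icc (0 : ℝ) 1 ×ˢ S2)) := fun i =>
    (isCompact_Icc.prod Pool.Agent.Helper18.BI.R.isCompact_S2).image_of_continuousOn (hfree'.1 i)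
  have s4 : IsCompact (N' '' box) := hbox.image_of_continuousOn hN'.1
  have c2 : IsCompact (⋃ i : Gr, Bi i '' SP) := isCompact_iUnion fun i => (s2 i).1
  have c3 : IsCompact (⋃ i, h' i '' (Icc (0 : ℝ) 1 ×ˢ S2)) := isCompact_iUnion s3
  have i2 : interior (⋃ i : Gr, Bi i '' SP) = ∅ :=
    interior_iUnion_fin _ (fun i => (s2 i).1.isClosed) fun i => (s2 i).2
  have i3 : interior (⋃ i, h' i '' (Icc (0 : ℝ) 1 ×ˢ S2)) = ∅ :=
    interior_iUnion_fin _ (fun i => (s3 i).isClosed) hint1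
  obtain ⟨c, hc, hsub⟩ := hX2c (((B '' SP ∪ ⋃ i : Gr, Bi i '' SP) ∪
      ⋃ i, h' i '' (Icc (0 : ℝ) 1 ×ˢ S2)) ∪ N' '' box)
    (((s1.1.union c2).union c3).union s4) (by
      rw [interior_union_isClosed_of_interior_empty ((s1.1.union c2).union c3).isClosed hint2,
        interior_union_isClosed_of_interior_empty (s1.1.union c2).isClosed i3,
        interior_union_isClosed_of_interior_empty s1.1.isClosed i2, s1.2])
  have r1 : B '' SP ⊆ range c :=
    (subset_union_left.trans (subset_union_left.trans subset_union_left)).trans hsub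
  have r2 : ∀ i : Gr, Bi i '' SP ⊆ range c := fun i =>
    ((subset_iUnion (fun i : Gr => Bi i '' SP) i).trans
      (subset_union_right.trans (subset_union_left.trans subset_union_left))).trans hsub
  have r3 : ∀ i, ∀ z ∈ Icc (0 : ℝ) 1 ×ˢ S2, h' i z ∈ range c := fun i z hz =>
    hsub (Or.inl (Or.inr (mem_iUnion.2 ⟨i, mem_image_of_mem _ hz⟩)))
  have r4 : ∀ z ∈ box, N' z ∈ range c := fun z hz => hsub (Or.inr (mem_image_of_mem _ hz))
  -- pulling back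
  have hinv : ∀ y ∈ range c, c (Function.invFun c y) = y := fun y hy => Function.invFun_eq hy
  obtain ⟨z1, -, -, z4, -⟩ := hX1 _ _ (𝓡 4) S4 c hc
  obtain ⟨hF, -⟩ := hX3 _ _ (𝓡 4) S4 c B SP hc hB r1
  choose hFi ψ₀ hψ₀ hψφ using fun i : Gr =>
    transferG hT2 hX1 hX3 c hc (Bi i) (φ i) (hBi i i.2).1 (hBi i i.2).2.2 (r2 i)
  have hoffA : ∀ y ∈ range c, y ∉ A →
      Function.invFun c y ∉ (fun p => Function.invFun c (B p)) '' sph 1 := by
    rintro y hy hyA ⟨q, hq, he⟩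
    have he' : Function.invFun c (B q) = Function.invFun c y := he
    have hBq : B q ∈ range c := r1 (mem_image_of_mem _ (sph1_sub hq))
    have e1 : B q = y := by rw [← hinv _ hBq, he', hinv _ hy]
    exact hyA (hA ▸ ⟨q, hq, e1⟩)
  have hbar : Function.invFun c (y₀ : S4) = Function.invFun c (B (H.bar (1 / 2))) := by
    show _ = Function.invFun c (B (1 / 2, (1 / 2, 0)))
    rw [hy]
  -- the diffeomorphisms of the germs, extended by the identity to the other indices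
  let φ₄ : Fin n → R4 → R4 := fun i => if hi : i ∈ Gr then ψ₀ ⟨i, hi⟩ else fun x => x
  have hφ₄ : ∀ i : Gr, φ₄ i = ψ₀ i := fun i => dif_pos i.2
  obtain ⟨ψ, ψ', j1, j2, hψs, hψG, hψP, hψl⟩ := hREL6 n (fun p => Function.invFun c (B p)) Gr P
    (fun i p => Function.invFun c (Bi i p)) φ₄ U
    (fun i m => Function.invFun c (Bi i (1 / 2, (1 / 5 : ℝ) • m)))
    (fun i z => Function.invFun c (h' i z)) W l (fun z => Function.invFun c (N' z)) hW hF hU hsU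
    (fun i hi => ⟨hFi ⟨i, hi⟩, fun p hp => by
      have : B p = Bi i p := (hBi i hi).2.1 hp
      simp only [this], by
        rw [hφ₄ ⟨i, hi⟩]
        exact hψ₀ ⟨i, hi⟩, fun m _ => rfl⟩)
    (fun x hx m hm => by
      have : Bi x.1 (1 / 2, (1 / 5 : ℝ) • m) = Bi x.2 (1 / 2, (1 / 5 : ℝ) • m) :=
        hP x hx (hmap m hm)
      simp only [this])
    ⟨fun i z hz => (invFun_continuousAt hc (r3 i z hz)).comp_continuousWithinAt (hfree'.1 i z hz),
      fun i m hm => by simp only [hfree'.2.1 i m hm],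
      fun i => by
        show Function.invFun c (h' i (0, (1, 0))) = _
        rw [hfree'.2.2.1 i, hbar],
      fun i u hu m hm => hoffA _ (r3 i (u, m) ⟨hu, hm⟩) (hfree'.2.2.2 i u hu m hm)⟩
    ⟨fun z hz => (invFun_continuousAt hc (r4 z hz)).comp_continuousWithinAt (hN'.1 z hz),
      fun q hq s hs => by
        obtain ⟨a1, a2⟩ := hN'.2.1 q hq s hs
        constructor
        · show Function.invFun c (N' (0, q, s)) = _
          rw [a1, ← hbar]
          exact (hEVM.1 _ _ n (Function.invFun c) (y₀ : S4) (fun i m => h' i (0, m)) l q s).symm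
        · show Function.invFun c (N' (1, q, s)) = _
          rw [a2, hbar],
      fun u hu q hq s hs => by
        obtain ⟨a1, a2⟩ := hN'.2.2 u hu q hq s hs
        refine ⟨hoffA _ (r4 (u, q, s) ⟨hu, hq, hs⟩) a1, fun hbd => ?_⟩
        show Function.invFun c (N' (u, q, s)) = _
        rw [a2 hbd, hbar]⟩
  -- pushing forward
  have hWimp : ∀ χ : R4 → R4, imp c univ (fun x => W (χ x)) =
      fun y => imp c univ W (imp c univ χ y) := fun χ => funext fun y => z4 W χ y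
  have hpf : ∀ χ χ' : R4 → R4, CIsot I4 χ' χ' → RU W χ χ' →
      RW4 W' (imp c univ χ) (imp c univ χ') := by
    rintro χ χ' hχ' (e | e)
    · exact Or.inl (z1 _ _ e)
    · right
      have h1 := z1 _ _ e
      rw [hWimp χ'] at h1
      exact ct _ _ _ h1 (cc _ _ _ _ (hcW c hc) (z1 _ _ hχ'))
  have hid : imp c univ (fun x => x) = fun x => x := Pool.Agent.Helper70.BI.W4.imp_id
  have hid4 : CIsot I4 (fun x : R4 => x) (fun x => x) := (hCI _ _ 𝓘(ℝ, R4) R4).1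
  refine ⟨fun i => imp c univ (ψ i), fun i => imp c univ (ψ' i), ?_, ?_, ?_, ?_, ?_, ?_⟩
  · intro i x
    show imp c univ (ψ i) (imp c univ (ψ' i) x) = x
    rw [← z4 (ψ i) (ψ' i) x]
    have : (fun p => ψ i (ψ' i p)) = fun p => p := funext (j1 i)
    rw [this, hid]
  · intro i x
    show imp c univ (ψ' i) (imp c univ (ψ i) x) = x
    rw [← z4 (ψ' i) (ψ i) x]
    have : (fun p => ψ' i (ψ i p)) = fun p => p := funext (j2 i)
    rw [this, hid]
  · exact fun i => z1 _ _ (hψs i)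
  · intro i hi
    have h1 := hψG i hi
    rw [hφ₄ ⟨i, hi⟩] at h1
    have h2 := hpf _ _ ((hT2 _ _ 𝓘(ℝ, R4) R4).2.2.2.2.2.2 _ _ (hψ₀ ⟨i, hi⟩)) h1
    exact r_trans hCI hW' ((hT2 _ _ (𝓡 4) S4).2.2.2.2.2.2 _ _ (hBi i hi).2.2) h2
      (Or.inl (hψφ ⟨i, hi⟩))
  · intro x hx
    exact hpf _ _ (hψs x.2) (hψP x hx)
  · have h1 := hpf _ _ hid4 hψl
    rw [imp_evD hX1 c hc, hid] at h1
    exact h1

end Pool.Agent.Helper18.BI.S5


end

/-! ## Helper18.BI.S5.M_FIN6 -/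

section

/-!
# Project BI, stage 5: the final theorem
-/

set_option autoImplicit false
set_option linter.unusedSectionVars false

open scoped Manifold ContDiff Topology ComplexConjugate unitInterval
open Set Filter Pool.Agent.Helper65.Barb Pool.Agent.Helper18.BI
open Pool.Agent.Helper27.BI (swp StR2sw)
open Pool.Agent.Helper34.BI (swp_swp swp_mem_SP isLocalDiffeomorphAt_swp)
open Pool.Agent.Helper70.BI (I4 IsW StEI StX2c)
open Pool.Agent.Helper70.BI.Fin2 (SP_sub_NB)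
open Pool.Agent.Helper18.BI.H (IsW4)
open Pool.Agent.Helper70.Fin (Emb coreSphere)
open Pool.Agent.Helper18.FinR (sqr Pi2 cls FreeClass)
open Pool.Agent.Helper18.BI.R
open Pool.Agent.Helper18.BI.R.FIN4
open Pool.Agent.Helper18.BI.S5.RELS6 (evD_rw4 r_inv)

namespace Pool.Agent.Helper18.BI.S5

namespace FIN6

/-- approximation of an arbitrary map of the sphere by a Lipschitz map -/
theorem lip_map (hLIP : StLIP) {A : Set S4} {y₀ : {x : S4 // x ∉ A}} (hA : IsCompact A)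
    {k : R4 → S4} {x x' : Pi2 A y₀} (hx : FreeClass A y₀ k x) (hx' : FreeClass A y₀ k x') :
    ∃ k' : R4 → S4, (∃ L : NNReal,
      LipschitzOnWith L (fun m : R3 => k' (1 / 2, (1 / 5 : ℝ) • m)) S2) ∧
      FreeClass A y₀ k' x ∧ FreeClass A y₀ k' x' := by
  have hc : IsCompact (coreSphere 0) := by
    rw [RELS.coreSphere_eq]
    exact RELS.isCompact_sph 0
  have hk : ContinuousOn k (coreSphere 0) ∧ ∀ p ∈ coreSphere 0, k p ∉ A := by
    obtain ⟨f, h, -, h1, -, h3, h4⟩ := hx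
    constructor
    · refine ContinuousOn.congr (f := fun p => h (1, p)) ?_ fun p hp => (h3 p hp).symm
      exact h1.comp (Continuous.continuousOn (by fun_prop)) fun p hp => ⟨⟨zero_le_one, le_rfl⟩, hp⟩
    · intro p hp
      rw [← h3 p hp]
      exact h4 1 ⟨zero_le_one, le_rfl⟩ p hp
  obtain ⟨g, H, ⟨L, hL⟩, hHc, hH01, hHoff, -⟩ := hLIP R4 (coreSphere 0) ∅ A k hc (empty_subset _)
    hA hk.1 ⟨0, fun _ h => h.elim⟩ hk.2
  refine ⟨g, ?_, free_trans hx H hHc (fun p hp => (hH01 p hp).1) (fun p hp => (hH01 p hp).2) hHoff,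
    free_trans hx' H hHc (fun p hp => (hH01 p hp).1) (fun p hp => (hH01 p hp).2) hHoff⟩
  have h1 : LipschitzWith 1 (fun m : R3 => ((1 / 2, (1 / 5 : ℝ) • m) : R4)) := by
    refine LipschitzWith.of_dist_le_mul fun m m' => ?_
    rw [Prod.dist_eq, dist_self]
    show max 0 (dist ((1 / 5 : ℝ) • m) ((1 / 5 : ℝ) • m')) ≤ _
    rw [dist_smul₀, NNReal.coe_one, one_mul, max_le_iff]
    refine ⟨dist_nonneg, ?_⟩
    have : ‖(1 / 5 : ℝ)‖ ≤ 1 := by norm_num
    exact mul_le_of_le_one_left dist_nonneg this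
  refine ⟨L * 1, hL.comp h1.lipschitzOnWith ?_⟩
  intro m hm
  rw [RELS.coreSphere_eq]
  exact cuff_mem hm

theorem rel_free6 (hT2 : StT2) (hCI : StCI) {W : S4 → S4} (hW : IsW4 W) (hRel : RelS6 W)
    {B : R4 → S4} {A : Set S4} {y₀ : {x : S4 // x ∉ A}} (hB : EmbOn (𝓡 4) B SP)
    (hA : A = B '' sph 1) (hy : (y₀ : S4) = B (1 / 2, (1 / 2, 0))) {ι J : Type}
    (G : ι → R4 → S4) (φ : ι → Equiv.Perm S4) (z : ι → Pi2 A y₀) (hF : Fam B A y₀ G φ z)
    (k : J → R4 → S4) (x x' : J → Pi2 A y₀)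
    (hk : ∀ j, ∃ L : NNReal, LipschitzOnWith L (fun m : R3 => k j (1 / 2, (1 / 5 : ℝ) • m)) S2)
    (hx : ∀ j, FreeClass A y₀ (k j) (x j)) (hx' : ∀ j, FreeClass A y₀ (k j) (x' j))
    (w₁ : FreeGroup ι) (w₂ : FreeGroup J)
    (hw : FreeGroup.lift z w₁ = FreeGroup.lift (fun j => x j * (x' j)⁻¹) w₂) :
    RW4 W (⇑(FreeGroup.lift φ w₁)) (fun x => x) := by
  classical
  obtain ⟨cid, cs, cself, ct, cc, cinv, cex, cconj, ciso, -⟩ := hCI _ _ (𝓡 4) S4
  have tself := (hT2 _ _ (𝓡 4) S4).2.2.2.2.2.2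
  choose U hU hsU hE using hF.near
  let K : ι ⊕ (J × Bool) → R4 → S4 := Sum.elim G (fun p => k p.1)
  let Z : ι ⊕ (J × Bool) → Pi2 A y₀ := Sum.elim z (fun p => if p.2 then x p.1 else x' p.1)
  let φ₀ : ι ⊕ (J × Bool) → S4 → S4 := Sum.elim (fun i => ⇑(φ i)) (fun _ => id)
  let U' : ι ⊕ (J × Bool) → Set R4 := Sum.elim U (fun _ => univ)
  let θ : FreeGroup J →* FreeGroup (ι ⊕ (J × Bool)) := FreeGroup.lift fun j =>
    FreeGroup.of (Sum.inr (j, true)) * (FreeGroup.of (Sum.inr (j, false)))⁻¹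
  let w : FreeGroup (ι ⊕ (J × Bool)) := FreeGroup.map Sum.inl w₁ * (θ w₂)⁻¹
  have hm1 : (FreeGroup.lift Z).comp (FreeGroup.map Sum.inl) = FreeGroup.lift z := by
    ext i
    simp [Z]
  have hm2 : (FreeGroup.lift Z).comp θ = FreeGroup.lift (fun j => x j * (x' j)⁻¹) := by
    ext j
    simp [Z, θ]
  have hZw : FreeGroup.lift Z w = 1 := by
    have e1 := DFunLike.congr_fun hm1 w₁
    have e2 := DFunLike.congr_fun hm2 w₂
    rw [MonoidHom.comp_apply] at e1 e2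
    show FreeGroup.lift Z (FreeGroup.map Sum.inl w₁ * (θ w₂)⁻¹) = 1
    rw [map_mul, map_inv, e1, e2, hw, mul_inv_cancel]
  let l : List ((ι ⊕ (J × Bool)) × Bool) := w.toWord.reverse
  have hlw : FreeGroup.mk l.reverse = w := by
    show FreeGroup.mk w.toWord.reverse.reverse = w
    rw [List.reverse_reverse, FreeGroup.mk_toWord]
  let e : Fin l.length → ι ⊕ (J × Bool) := fun k => (l.get k).1
  let l' : List (Fin l.length × Bool) := List.ofFn fun k => (k, (l.get k).2)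
  have hl' : l'.map (fun p => (e p.1, p.2)) = l := by
    show (List.ofFn fun k => (k, (l.get k).2)).map (fun p => (e p.1, p.2)) = l
    rw [List.map_ofFn]
    exact List.ofFn_get l
  have hmap : (l'.map fun p => if p.2 then Z (e p.1) else (Z (e p.1))⁻¹) =
      l.map fun p => if p.2 then Z p.1 else (Z p.1)⁻¹ := by
    conv_rhs => rw [← hl']
    rw [List.map_map]
    rfl
  have hprod : (l'.map fun p => if p.2 then Z (e p.1) else (Z (e p.1))⁻¹).prod = 1 := by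
    rw [hmap]
    have h1 : FreeGroup.lift Z (FreeGroup.mk w.toWord) = 1 := by rw [FreeGroup.mk_toWord, hZw]
    rw [FreeGroup.lift_mk] at h1
    rw [show l = w.toWord.reverse from rfl, List.map_reverse, prod_rev pi2_comm, ← h1]
    congr 1
    apply List.map_congr_left
    rintro ⟨i, b⟩ _
    rcases b with _ | _ <;> rfl
  obtain ⟨ψ, ψ', j1, j2, hs, hG, hP, hfin⟩ := hRel l.length B {a | ∃ i, e a = Sum.inl i}
    {p | K (e p.1) = K (e p.2)} (fun a => K (e a)) (fun a => φ₀ (e a)) (⋂ a, U' (e a)) A y₀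
    (fun a => Z (e a)) l' hB
    (isOpen_iInter_of_finite fun a => by
      rcases h : e a with i | p
      · exact hU i
      · exact isOpen_univ)
    (subset_iInter fun a => by
      rcases h : e a with i | p
      · exact hsU i
      · exact subset_univ _)
    (by
      rintro a ⟨i, hi⟩
      have h2 : ∀ p ∈ (⋂ a, U' (e a)), p ∈ U i := fun p hp => by
        have h3 := mem_iInter.1 hp a
        rw [hi] at h3
        exact h3
      show EmbOn (𝓡 4) (K (e a)) SP ∧ EqOn B (K (e a)) (⋂ a, U' (e a)) ∧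
        Thin (𝓡 4) (K (e a)) (φ₀ (e a))
      rw [hi]
      exact ⟨hF.emb i, fun p hp => hE i (h2 p hp), hF.thin i⟩)
    (fun a => by
      show ∃ L : NNReal, LipschitzOnWith L (fun m : R3 => K (e a) (1 / 2, (1 / 5 : ℝ) • m)) S2
      rcases h : e a with i | p
      · exact RELS.cuff_lip (G i) (hF.emb i)
      · exact hk p.1)
    (fun p hp y _ => congrFun hp y) hA hy
    (fun a => by
      show FreeClass A y₀ (K (e a)) (Z (e a))
      rcases h : e a with i | ⟨j, b⟩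
      · exact hF.free i
      · rcases b with _ | _
        · exact hx' j
        · exact hx j)
    hprod
  -- diffeomorphisms for the letters
  let χ : J → Equiv.Perm S4 := fun j =>
    if h : ∃ a, K (e a) = k j then ⟨ψ h.choose, ψ' h.choose, j2 _, j1 _⟩ else 1
  let Ψ : ι ⊕ (J × Bool) → Equiv.Perm S4 := Sum.elim φ (fun p => χ p.1)
  have hΨ : ∀ a, RW4 W (⇑(Ψ (e a))) (ψ a) := by
    intro a
    rcases h : e a with i | p
    · have h1 : RW4 W (ψ a) (φ₀ (e a)) := hG a ⟨i, h⟩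
      rw [h] at h1
      exact r_symm hCI hW (tself _ _ (hF.thin i)) h1
    · have h0 : ∃ a, K (e a) = k p.1 := ⟨a, by rw [h]; rfl⟩
      have h1 : χ p.1 = ⟨ψ h0.choose, ψ' h0.choose, j2 _, j1 _⟩ := dif_pos h0
      have h2 : (⇑(Ψ (Sum.inr p)) : S4 → S4) = ψ h0.choose := by
        show (⇑(χ p.1) : S4 → S4) = _
        rw [h1]
        rfl
      rw [h2]
      refine hP (h0.choose, a) ?_
      show K (e h0.choose) = K (e a)
      rw [h0.choose_spec, h]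
      rfl
  have hψ's : ∀ i, CIsot (𝓡 4) (ψ' i) (ψ' i) := fun i => cinv _ _ _ _ (hs i) (j1 i) (j1 i)
  have h1 := evD_rw4 hCI hW hs hψ's hΨ (fun a => r_inv hCI hW (φ := ⇑(Ψ (e a)))
    (φ' := ⇑(Ψ (e a))⁻¹) (hΨ a) (hs a) (fun x => (Ψ (e a)).apply_symm_apply x) (j1 a)) l'
  have h2 : (⇑(FreeGroup.lift Ψ w) : S4 → S4) =
      evD (fun i => ⇑(Ψ (e i))) (fun i => ⇑(Ψ (e i))⁻¹) l' := by
    funext x
    rw [← comp_word Ψ l e l' hl' x, hlw]
  have h3 : RW4 W (⇑(FreeGroup.lift Ψ w)) (fun x => x) := by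
    rw [h2]
    exact r_trans hCI hW cid h1 hfin
  have hn1 : (FreeGroup.lift Ψ).comp (FreeGroup.map Sum.inl) = FreeGroup.lift φ := by
    ext i
    simp [Ψ]
  have hn2 : (FreeGroup.lift Ψ).comp θ = 1 := by
    ext j
    simp [Ψ, θ]
  have e1 := DFunLike.congr_fun hn1 w₁
  have e2 := DFunLike.congr_fun hn2 w₂
  rw [MonoidHom.comp_apply] at e1 e2
  have h4 : FreeGroup.lift Ψ w = FreeGroup.lift φ w₁ := by
    show FreeGroup.lift Ψ (FreeGroup.map Sum.inl w₁ * (θ w₂)⁻¹) = _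
    rw [map_mul, map_inv, e1, e2, MonoidHom.one_apply, inv_one, mul_one]
  rw [h4] at h3
  exact h3

/-- quotients of freely homotopic elements -/
def DriftR (A : Set S4) (y₀ : {x : S4 // x ∉ A}) : Set (Pi2 A y₀) :=
  {v | ∃ (k : R4 → S4) (x x' : Pi2 A y₀), FreeClass A y₀ k x ∧ FreeClass A y₀ k x' ∧
    v = x * x'⁻¹}

/-- in a commutative group, elements of a closure of a union -/
theorem closure_union {A : Set S4} {y₀ : {x : S4 // x ∉ A}} {S T : Set (Pi2 A y₀)}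
    {z : Pi2 A y₀} (hz : z ∈ Subgroup.closure (S ∪ T)) :
    ∃ t ∈ Subgroup.closure S, ∃ d ∈ Subgroup.closure T, z = t * d := by
  refine Subgroup.closure_induction
    (p := fun z _ => ∃ t ∈ Subgroup.closure S, ∃ d ∈ Subgroup.closure T, z = t * d)
    ?_ ?_ ?_ ?_ hz
  · rintro v (hv | hv)
    · exact ⟨v, Subgroup.subset_closure hv, 1, one_mem _, (mul_one v).symm⟩
    · exact ⟨1, one_mem _, v, Subgroup.subset_closure hv, (one_mul v).symm⟩
  · exact ⟨1, one_mem _, 1, one_mem _, (mul_one 1).symm⟩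
  · rintro a b _ _ ⟨t, ht, d, hd, rfl⟩ ⟨t', ht', d', hd', rfl⟩
    refine ⟨t * t', mul_mem ht ht', d * d', mul_mem hd hd', ?_⟩
    rw [mul_assoc, mul_assoc, ← mul_assoc d, ← mul_assoc t', pi2_comm d t']
  · rintro a _ ⟨t, ht, d, hd, rfl⟩
    exact ⟨t⁻¹, inv_mem ht, d⁻¹, inv_mem hd, by rw [mul_inv_rev, pi2_comm]⟩

/-- existence of the homomorphism, for germs, with the triviality on freely homotopic elements -/
theorem exists_hom6 (hLIP : StLIP) (hT2 : StT2) (hCI : StCI) {W : S4 → S4} (hW : IsW4 W)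
    (hRel6 : RelS6 W) {B : R4 → S4} {A : Set S4} {y₀ : {x : S4 // x ∉ A}}
    (hB : EmbOn (𝓡 4) B SP) (hA : A = B '' sph 1) (hy : (y₀ : S4) = B (1 / 2, (1 / 2, 0))) :
    ∃ Φ : Pi2 A y₀ → S4 → S4, (∀ z, CIsot (𝓡 4) (Φ z) (Φ z)) ∧
      (∀ z ∈ Subgroup.closure (RepG B A y₀), ∀ z' ∈ Subgroup.closure (RepG B A y₀),
        RW4 W (Φ (z * z')) (fun x => Φ z (Φ z' x))) ∧
      (∀ (G : R4 → S4) (φ : S4 → S4) (z : Pi2 A y₀), EmbOn (𝓡 4) G SP →
        (∃ U : Set R4, IsOpen U ∧ sph 1 ⊆ U ∧ EqOn B G U) → Thin (𝓡 4) G φ →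
        FreeClass A y₀ G z → RW4 W φ (Φ z)) ∧
      ∀ T : Set (Pi2 A y₀), T ⊆ RepG B A y₀ → (∀ z ∈ T, RW4 W (Φ z) (fun x => x)) →
        ∀ z ∈ Subgroup.closure (RepG B A y₀), z ∈ Subgroup.closure (T ∪ DriftR A y₀) →
          RW4 W (Φ z) (fun x => x) := by
  classical
  have hRel := RELS6.rels_of_rels6 hT2 hCI hW hRel6
  obtain ⟨cid, cs, cself, ct, cc, cinv, cex, cconj, ciso, -⟩ := hCI _ _ (𝓡 4) S4
  have tself := (hT2 _ _ (𝓡 4) S4).2.2.2.2.2.2
  have hAc : IsCompact A := by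
    rw [hA]
    refine (RELS.isCompact_sph 1).image_of_continuousOn fun p hp => ?_
    exact (hB.1 p (RELS.sph1_sub hp)).contMDiffAt.continuousAt.continuousWithinAt
  choose G φ hG1 hG2 hG3 hG4 using fun z : {z // z ∈ RepG B A y₀} => z.2
  have hφs : ∀ i, CIsot (𝓡 4) (⇑(φ i)) (φ i) := fun i => tself _ _ (hG3 i)
  have hrange : ∀ (S : Set (Pi2 A y₀)), ∀ z ∈ Subgroup.closure S,
      ∃ w : FreeGroup {z // z ∈ S}, FreeGroup.lift (fun i => i.1) w = z := by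
    intro S z hz
    have h1 : (FreeGroup.lift (fun i : {z // z ∈ S} => i.1)).range = Subgroup.closure S := by
      rw [FreeGroup.range_lift_eq_closure, Subtype.range_coe]
    rw [← h1] at hz
    exact hz
  let Φ : Pi2 A y₀ → S4 → S4 := fun z =>
    if h : ∃ w : FreeGroup {z // z ∈ RepG B A y₀}, FreeGroup.lift (fun i => i.1) w = z then
      FreeGroup.lift φ h.choose else fun x => x
  have hΦ : ∀ z ∈ Subgroup.closure (RepG B A y₀), ∃ w : FreeGroup {z // z ∈ RepG B A y₀},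
      FreeGroup.lift (fun i => i.1) w = z ∧ Φ z = FreeGroup.lift φ w := by
    intro z hz
    have h := hrange _ z hz
    exact ⟨h.choose, h.choose_spec, dif_pos h⟩
  have hΦs : ∀ z, CIsot (𝓡 4) (Φ z) (Φ z) := by
    intro z
    by_cases h : ∃ w : FreeGroup {z // z ∈ RepG B A y₀}, FreeGroup.lift (fun i => i.1) w = z
    · have e : Φ z = FreeGroup.lift φ h.choose := dif_pos h
      rw [e]
      exact free_self hCI φ hφs _
    · have e : Φ z = fun x => x := dif_neg h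
      rw [e]
      exact cid
  have hmul : ∀ z ∈ Subgroup.closure (RepG B A y₀), ∀ z' ∈ Subgroup.closure (RepG B A y₀),
      RW4 W (Φ (z * z')) (fun x => Φ z (Φ z' x)) := by
    intro z hz z' hz'
    obtain ⟨w₁, h1, e1⟩ := hΦ z hz
    obtain ⟨w₂, h2, e2⟩ := hΦ z' hz'
    obtain ⟨w₃, h3, e3⟩ := hΦ (z * z') (mul_mem hz hz')
    have h := rel_free hRel hB hA hy G φ (fun i => i.1) ⟨hG1, hG2, hG3, hG4⟩ (w₃⁻¹ * (w₁ * w₂))
      (by rw [map_mul, map_mul, map_inv, h1, h2, h3, inv_mul_cancel])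
    rw [← rw4_iff hCI, map_mul, map_mul, map_inv] at h
    rw [e1, e2, e3]
    refine r_symm hCI hW (free_self hCI φ hφs w₃) ?_
    exact r_cancel hCI hW (φ := ⇑(FreeGroup.lift φ w₃)) (φ' := ⇑(FreeGroup.lift φ w₃)⁻¹)
      (free_self hCI φ hφs w₃) (fun x => (FreeGroup.lift φ w₃).apply_symm_apply x) h
  refine ⟨Φ, hΦs, hmul, ?_, ?_⟩
  · intro G' φ₀ z hG' hU' hT' hfr
    have s0 := tself _ _ hT'
    obtain ⟨φ₀', -, i1, i2⟩ := cex φ₀ s0
    let P : Equiv.Perm S4 := ⟨φ₀, φ₀', i2, i1⟩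
    have hz : z ∈ RepG B A y₀ := ⟨G', P, hG', hU', hT', hfr⟩
    obtain ⟨w, h1, e1⟩ := hΦ z (Subgroup.subset_closure hz)
    let G₂ : Option {z // z ∈ RepG B A y₀} → R4 → S4 := fun o => o.elim G' G
    let φ₂ : Option {z // z ∈ RepG B A y₀} → Equiv.Perm S4 := fun o => o.elim P φ
    let z₂ : Option {z // z ∈ RepG B A y₀} → Pi2 A y₀ := fun o => o.elim z (fun i => i.1)
    have hF2 : Fam B A y₀ G₂ φ₂ z₂ := by
      refine ⟨?_, ?_, ?_, ?_⟩
      · rintro (_ | i)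
        · exact hG'
        · exact hG1 i
      · rintro (_ | i)
        · exact hU'
        · exact hG2 i
      · rintro (_ | i)
        · exact hT'
        · exact hG3 i
      · rintro (_ | i)
        · exact hfr
        · exact hG4 i
    have hm1 : (FreeGroup.lift z₂).comp (FreeGroup.map some) =
        FreeGroup.lift (fun i : {z // z ∈ RepG B A y₀} => i.1) := by
      ext i
      simp [z₂]
    have hm2 : (FreeGroup.lift φ₂).comp (FreeGroup.map some) = FreeGroup.lift φ := by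
      ext i
      simp [φ₂]
    have hm1' := DFunLike.congr_fun hm1 w
    have hm2' := DFunLike.congr_fun hm2 w
    rw [MonoidHom.comp_apply] at hm1' hm2'
    have h := rel_free hRel hB hA hy G₂ φ₂ z₂ hF2 ((FreeGroup.of none)⁻¹ * FreeGroup.map some w)
      (by
        rw [map_mul, map_inv, hm1', h1, FreeGroup.lift_apply_of]
        exact inv_mul_cancel z)
    rw [← rw4_iff hCI, map_mul, map_inv, hm2', FreeGroup.lift_apply_of] at h
    rw [e1]
    have h3 : RW4 W (⇑(FreeGroup.lift φ w)) φ₀ := r_cancel hCI hW (φ := φ₀) (φ' := φ₀') s0 i1 h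
    exact r_symm hCI hW s0 h3
  · -- the elements of the closure of the quotients of freely homotopic elements
    have hdr : ∀ z ∈ Subgroup.closure (RepG B A y₀), z ∈ Subgroup.closure (DriftR A y₀) →
        RW4 W (Φ z) (fun x => x) := by
      intro z hz hz'
      obtain ⟨w₁, h1, e1⟩ := hΦ z hz
      obtain ⟨w₂, h2⟩ := hrange _ z hz'
      have hj : ∀ v : {v // v ∈ DriftR A y₀}, ∃ (k' : R4 → S4) (x x' : Pi2 A y₀),
          (∃ L : NNReal, LipschitzOnWith L (fun m : R3 => k' (1 / 2, (1 / 5 : ℝ) • m)) S2) ∧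
          FreeClass A y₀ k' x ∧ FreeClass A y₀ k' x' ∧ v.1 = x * x'⁻¹ := by
        rintro ⟨v, k, x, x', hx, hx', hv⟩
        obtain ⟨k', hk', hx1, hx2⟩ := lip_map hLIP hAc hx hx'
        exact ⟨k', x, x', hk', hx1, hx2, hv⟩
      choose k x x' hk hx hx' hv using hj
      rw [e1]
      refine rel_free6 hT2 hCI hW hRel6 hB hA hy G φ (fun i => i.1) ⟨hG1, hG2, hG3, hG4⟩ k x x'
        hk hx hx' w₁ w₂ ?_
      rw [h1, ← h2]
      congr 1
      congr 1
      funext v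
      exact hv v
    intro T hTR hT z hz hz'
    obtain ⟨t, ht, d, hd, rfl⟩ := closure_union hz'
    have ht' := Subgroup.closure_mono hTR ht
    have hd' : d ∈ Subgroup.closure (RepG B A y₀) := by
      have h1 := mul_mem (inv_mem ht') hz
      rwa [inv_mul_cancel_left] at h1
    have h1 : RW4 W (Φ t) (fun x => x) := by
      refine Subgroup.closure_induction
        (p := fun z _ => RW4 W (Φ z) (fun x => x)) hT ?_ ?_ ?_ ht
      · exact hdr 1 (one_mem _) (one_mem _)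
      · intro a b ha hb iha ihb
        have h3 := hmul a (Subgroup.closure_mono hTR ha) b (Subgroup.closure_mono hTR hb)
        exact r_trans hCI hW cid h3 (RELS6.r_comp (φ := Φ b) (ψ := Φ a) (φ' := fun x => x)
          (ψ' := fun x => x) hCI hW cid cid ihb iha)
      · intro a ha iha
        have h3 := hmul a (Subgroup.closure_mono hTR ha) a⁻¹
          (inv_mem (Subgroup.closure_mono hTR ha))
        rw [mul_inv_cancel] at h3
        have h4 : RW4 W (fun x => Φ a (Φ a⁻¹ x)) (fun x => x) :=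
          r_trans hCI hW cid (r_symm hCI hW (cc _ _ _ _ (hΦs a) (hΦs a⁻¹)) h3)
            (hdr 1 (one_mem _) (one_mem _))
        have h5 : RW4 W (fun x => Φ a (Φ a⁻¹ x)) (Φ a⁻¹) := RELS6.r_comp (φ := Φ a⁻¹) (ψ := Φ a)
          (φ' := Φ a⁻¹) (ψ' := fun x => x) hCI hW (hΦs _) cid (Or.inl (hΦs _)) iha
        exact r_trans hCI hW cid (r_symm hCI hW (hΦs _) h5) h4
    exact r_trans hCI hW cid (hmul t ht' d hd') (RELS6.r_comp (φ := Φ d) (ψ := Φ t)
      (φ' := fun x => x) (ψ' := fun x => x) hCI hW cid cid (hdr d hd' hd) h1)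

end FIN6

end Pool.Agent.Helper18.BI.S5


end

/-! ## Helper18.BI.S5.M_FIN8 -/

section

/-!
# Project BI, stage 5: the final theorem in the vocabulary of the hand-ins
-/

set_option autoImplicit false
set_option linter.unusedSectionVars false

open scoped Manifold ContDiff Topology ComplexConjugate unitInterval
open Set Filter Pool.Agent.Helper65.Barb Pool.Agent.Helper18.BI
open Pool.Agent.Helper27.BI (swp StR2sw)
open Pool.Agent.Helper34.BI (swp_swp swp_mem_SP)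
open Pool.Agent.Helper70.BI (I4 IsW StEI StX2c)
open Pool.Agent.Helper70.BI.Fin2 (SP_sub_NB)
open Pool.Agent.Helper18.BI.H (IsW4)
open Pool.Agent.Helper70.Fin (Emb coreSphere)
open Pool.Agent.Helper18.FinR (Pi2 FreeClass parallel)
open Pool.Agent.Helper18.FinS (Off fixedCuff IsBarbell IsBase IsClass gen Isotopic)
open Pool.Agent.Helper18.BI.R
open Pool.Agent.Helper18.BI.R.FIN4
open Pool.Agent.Helper18.BI.R.FIN5

namespace Pool.Agent.Helper18.BI.S5

/-- **THE MAIN THEOREM OF STAGE 5.** -/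
def StFinal8 : Prop :=
  ∃ (W : S4 → S4) (B₀ : Emb), FinS.IsImplantation B₀ W ∧ FinS.BoundsDisjointBalls B₀ ∧
    Isotopic (fun x => W (W x)) (fun x => x) ∧ FinS.IsCentral W ∧
    (∀ (B : Emb) (y₀ : Off B), IsBarbell B → IsBase B y₀ →
      (∀ B' : Emb, IsBarbell B' → FinS.SameFixed B B' → ∃ z, IsClass B y₀ B' z) ∧
      ∃ Φ : Pi2 (fixedCuff B) y₀ → S4 → S4,
        (∀ z ∈ gen (FinS.MovedClasses B y₀), ∀ z' ∈ gen (FinS.MovedClasses B y₀),
          FinS.UpTo W (Φ (z * z')) (fun x => Φ z (Φ z' x))) ∧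
        (∀ (B' : Emb) (φ : S4 → S4) (z : Pi2 (fixedCuff B) y₀), FinS.IsImplantation B' φ →
          FinS.SameFixed B B' → IsClass B y₀ B' z → FinS.UpTo W φ (Φ z)) ∧
        ∀ z ∈ gen (FinS.MovedClasses B y₀),
          z ∈ gen (FinT.ElementaryClasses B y₀ ∪ FinT.Drift B y₀) →
          FinS.UpTo W (Φ z) (fun x => x)) ∧
    (∀ (B : Emb) (y₀ : Off B) (B₁ B₂ : Emb) (φ₁ φ₂ : S4 → S4) (z₁ z₂ : Pi2 (fixedCuff B) y₀),
      IsBarbell B → IsBase B y₀ → FinS.IsImplantation B₁ φ₁ → FinS.IsImplantation B₂ φ₂ →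
      FinS.SameFixed B B₁ → FinS.SameFixed B B₂ → IsClass B y₀ B₁ z₁ → IsClass B y₀ B₂ z₂ →
      z₁ * z₂⁻¹ ∈ gen (FinT.ElementaryClasses B y₀ ∪ FinT.Drift B y₀) → FinS.UpTo W φ₁ φ₂) ∧
    ∀ (B : Emb) (φ : S4 → S4), FinT.Elementary B → FinS.IsImplantation B φ →
      FinS.UpTo W φ (fun x => x)

namespace FIN8

theorem impl_iff (B : Emb) (φ : S4 → S4) :
    FinS.IsImplantation B φ ↔ Helper70.Fin.IsImplantation B φ := by
  constructor
  · rintro ⟨hB, β, hβ, h1, h2⟩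
    refine ⟨hB, β, hβ, ?_⟩
    funext y
    unfold implantation
    split_ifs with hy
    · obtain ⟨p, hp, rfl⟩ := hy
      have hs : B.toPartialEquiv.symm (B p) = p := B.toPartialEquiv.left_inv (hB hp)
      rw [hs]
      exact h1 p hp
    · exact h2 y hy
  · rintro ⟨hB, β, hβ, rfl⟩
    refine ⟨hB, β, hβ, ?_, ?_⟩
    · intro p hp
      have hs : B.toPartialEquiv.symm (B p) = p := B.toPartialEquiv.left_inv (hB hp)
      show implantation B β (B p) = B (β p)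
      unfold implantation
      rw [if_pos ⟨p, hp, rfl⟩, hs]
    · intro y hy
      unfold implantation
      exact if_neg hy

section
variable (hLIP : StLIP) (hT2 : StT2) (hT4 : StT4) (hCI : StCI) {W : S4 → S4} (hW : IsW4 W)
include hLIP hT2 hT4 hCI hW

/-- **elementary barbells** -/
theorem elem (hRel6 : RelS6 W) (hNul : NulS W) (hPAR : StPARS W) (hEXC : StEXC) (hUNK : StUNK)
    (hsw : StR2sw) (B : Emb) (hB : FinT.Elementary B) :
    NB ⊆ B.source ∧ ∀ φ, Thin (𝓡 4) B φ → RW4 W φ (fun x => x) := by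
  have hRel := RELS6.rels_of_rels6 hT2 hCI hW hRel6
  obtain ⟨cid, cs, cself, ct, cc, cinv, cex, cconj, ciso, -⟩ := hCI _ _ (𝓡 4) S4
  have tself := (hT2 _ _ (𝓡 4) S4).2.2.2.2.2.2
  induction hB with
  | unknotted B hB hu =>
    have hB : NB ⊆ B.source := hB
    refine ⟨hB, fun φ hφ => ?_⟩
    obtain ⟨δ, e1, e2⟩ := hu
    have e1 : Pool.Agent.Helper70.Fin.flatBall 0 ⊆ δ.source := e1
    have e2 : ∀ p ∈ coreSphere 0, δ p = B p := e2
    have hflat : Pool.Agent.Helper70.Fin.flatBall 0 = flat 0 := by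
      have e : (1 / 5 : ℝ) ^ 2 = 1 / 25 := by norm_num
      rw [Pool.Agent.Helper70.Fin.flatBall, flat, e]
    rw [hflat] at e1
    rw [RELS.coreSphere_eq] at e2
    obtain ⟨h, y, f1, f2, f3, f4⟩ := hUNK B hB ⟨δ, e1, e2⟩
    exact hNul B φ h y 0 1 hB (Or.inl ⟨rfl, rfl⟩) hφ f1 f2 f3 f4
  | exchange B B' _ hB' hex ih =>
    obtain ⟨U, hU, hsU, hEq⟩ := hex
    have hB' : NB ⊆ B'.source := hB'
    obtain ⟨hB, ih⟩ := ih
    refine ⟨hB', fun ψ hψ => ?_⟩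
    obtain ⟨e1, e2⟩ := hT4 B barMap hB isBarbellMap_barMap
    obtain ⟨f1, f2⟩ := hT4 B' barMap hB' isBarbellMap_barMap
    obtain ⟨φ', hφ', i1, i2⟩ := cex _ (tself _ _ e2)
    have hG : Thin (𝓡 4) (fun p => B (swp p)) φ' := (hsw _ _ (𝓡 4) S4 B _ φ' e1 i1 i2).1 e2
    have hGE : EmbOn (𝓡 4) (fun p => B (swp p)) SP := embOn_swpS e1
    have hφ't : RW4 W φ' (fun x => x) := inv_triv hT2 hT4 hCI hW hφ' i2 (ih _ e2)
    have hy : B' (1 / 2, (1 / 2, 0)) ∉ B' '' coreSphere 1 := by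
      rintro ⟨q, hq, he⟩
      rw [RELS.coreSphere_eq] at hq
      have hm : ((1 / 2, (1 / 2, 0)) : R4) ∈ SP := Or.inr ⟨rfl, by norm_num, by norm_num, rfl⟩
      have h1 := B'.toPartialEquiv.injOn (hB' (SP_sub_NB (RELS.sph1_sub hq)))
        (hB' (SP_sub_NB hm)) he
      rw [h1] at hq
      have h2 : rsq 1 (1 / 2, (1 / 2, (0 : ℂ))) = 1 / 25 := hq.2
      simp [rsq, nsq] at h2
      norm_num at h2
    obtain ⟨z, hz⟩ := hEXC B' B' (B' '' coreSphere 1) ⟨_, hy⟩ hB' hB'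
      ⟨univ, isOpen_univ, subset_univ _, fun _ _ => rfl⟩ rfl rfl
    obtain ⟨Φ, hs, hmul, hrep⟩ := exists_hom hT2 hCI hW hRel f1
      (by rw [RELS.coreSphere_eq]) (y₀ := ⟨B' (1 / 2, (1 / 2, 0)), hy⟩) rfl
    rw [RELS.coreSphere_eq, RELS.coreSphere_eq] at hsU
    have h1 : RW4 W ψ (Φ z) := hrep B' ψ z f1 ⟨univ, isOpen_univ, subset_univ _, fun _ _ => rfl⟩
      hψ hz
    have hz' : FreeClass (B' '' coreSphere 1) ⟨B' (1 / 2, (1 / 2, 0)), hy⟩
        (fun p => B (swp p)) z := by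
      obtain ⟨f, h, g1, g2, g3, g4, g5⟩ := hz
      refine ⟨f, h, g1, g2, g3, fun p hp => ?_, g5⟩
      rw [g4 p hp]
      rw [RELS.coreSphere_eq] at hp
      exact hEq (hsU (Or.inl hp))
    have h2 : RW4 W φ' (Φ z) := hrep _ φ' z hGE
      ⟨U, hU, fun p hp => hsU (Or.inr hp), fun p hp => hEq hp⟩ hG hz'
    exact r_trans hCI hW cid h1 (r_trans hCI hW cid (r_symm hCI hW (hs z) h2) hφ't)
  | sum B y₀ n C w z hNB hy _ hsf hfr hz hfB ih =>
    have hNB : NB ⊆ B.source := hNB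
    refine ⟨hNB, fun ψ hψ => ?_⟩
    obtain ⟨f1, f2⟩ := hT4 B barMap hNB isBarbellMap_barMap
    obtain ⟨Φ, hs, hmul, hrep, hdr⟩ := FIN6.exists_hom6 hLIP hT2 hCI hW hRel6 f1
      (A := fixedCuff B) (by
        show B '' coreSphere 1 = B '' sph 1
        rw [RELS.coreSphere_eq]) (y₀ := y₀) hy
    have hgen : ∀ v ∈ Set.range w ∪ {v | FreeClass (fixedCuff B) y₀ (parallel B) v},
        ∃ (G : R4 → S4) (φ : S4 → S4), EmbOn (𝓡 4) G SP ∧
          (∃ U : Set R4, IsOpen U ∧ sph 1 ⊆ U ∧ EqOn B G U) ∧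
          Thin (𝓡 4) G φ ∧ FreeClass (fixedCuff B) y₀ G v ∧ RW4 W φ (fun x => x) := by
      rintro v (⟨i, rfl⟩ | hv)
      · obtain ⟨e1, e2⟩ := hT4 (C i) barMap (ih i).1 isBarbellMap_barMap
        exact ⟨C i, _, e1, same_near (hsf i), e2, hfr i, (ih i).2 _ e2⟩
      · exact par_rep hT2 hT4 hCI hW hPAR B hNB y₀ v hv
    have hzB : z ∈ RepG B (fixedCuff B) y₀ :=
      rep_of hT2 hCI B y₀ f1 ⟨univ, isOpen_univ, subset_univ _, fun _ _ => rfl⟩ f2 hfB
    have h1 : RW4 W (Φ z) (fun x => x) := by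
      refine hdr (Set.range w ∪ {v | FreeClass (fixedCuff B) y₀ (parallel B) v}) ?_ ?_ z
        (Subgroup.subset_closure hzB) hz
      · intro v hv
        obtain ⟨G, φ, g1, g2, g3, g4, -⟩ := hgen v hv
        exact rep_of hT2 hCI B y₀ g1 g2 g3 g4
      · intro v hv
        obtain ⟨G, φ, g1, g2, g3, g4, g5⟩ := hgen v hv
        exact r_trans hCI hW cid (r_symm hCI hW (hs v) (hrep G φ v g1 g2 g3 g4)) g5
    exact r_trans hCI hW cid
      (hrep B ψ z f1 ⟨univ, isOpen_univ, subset_univ _, fun _ _ => rfl⟩ hψ hfB) h1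

/-- the homomorphism for a fixed cuff -/
theorem main (hRel6 : RelS6 W) (hNul : NulS W) (hPAR : StPARS W) (hEXC : StEXC) (hUNK : StUNK)
    (hsw : StR2sw) (B : Emb) (y₀ : Off B) (hNB : NB ⊆ B.source) (hy : IsBase B y₀) :
    (∀ B' : Emb, IsBarbell B' → FinS.SameFixed B B' → ∃ z, IsClass B y₀ B' z) ∧
      ∃ Φ : Pi2 (fixedCuff B) y₀ → S4 → S4, (∀ z, CIsot (𝓡 4) (Φ z) (Φ z)) ∧
        (∀ z ∈ gen (FinS.MovedClasses B y₀), ∀ z' ∈ gen (FinS.MovedClasses B y₀),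
          RW4 W (Φ (z * z')) (fun x => Φ z (Φ z' x))) ∧
        (∀ (B' : Emb) (φ : S4 → S4) (z : Pi2 (fixedCuff B) y₀), FinS.IsImplantation B' φ →
          FinS.SameFixed B B' → IsClass B y₀ B' z → CIsot (𝓡 4) φ φ ∧ RW4 W φ (Φ z)) ∧
        ∀ z ∈ gen (FinS.MovedClasses B y₀),
          z ∈ gen (FinT.ElementaryClasses B y₀ ∪ FinT.Drift B y₀) →
          RW4 W (Φ z) (fun x => x) := by
  obtain ⟨cid, cs, cself, ct, cc, cinv, cex, cconj, ciso, -⟩ := hCI _ _ (𝓡 4) S4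
  have tself := (hT2 _ _ (𝓡 4) S4).2.2.2.2.2.2
  have hel := elem hLIP hT2 hT4 hCI hW hRel6 hNul hPAR hEXC hUNK hsw
  have hB : EmbOn (𝓡 4) B SP := (hT4 B barMap hNB isBarbellMap_barMap).1
  obtain ⟨Φ, hs, hmul, hrep, hdr⟩ := FIN6.exists_hom6 hLIP hT2 hCI hW hRel6 hB
    (A := fixedCuff B) (by
      show B '' coreSphere 1 = B '' sph 1
      rw [RELS.coreSphere_eq]) (y₀ := y₀) hy
  have hsub : FinS.MovedClasses B y₀ ⊆ RepG B (fixedCuff B) y₀ := by
    rintro z (⟨B', hB', hsf, hfr⟩ | hz)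
    · obtain ⟨e1, e2⟩ := hT4 B' barMap hB' isBarbellMap_barMap
      exact rep_of hT2 hCI B y₀ e1 (same_near hsf) e2 hfr
    · obtain ⟨G, φ, g1, g2, g3, g4, -⟩ := par_rep hT2 hT4 hCI hW hPAR B hNB y₀ z hz
      exact rep_of hT2 hCI B y₀ g1 g2 g3 g4
  have hcl := Subgroup.closure_mono hsub
  refine ⟨fun B' hB' hsf => hEXC B B' _ y₀ hNB hB' hsf rfl hy, Φ, hs,
    fun z hz z' hz' => hmul z (hcl hz) z' (hcl hz'), ?_, ?_⟩
  · intro B' φ z hφ hsf hfr
    obtain ⟨hB', β, hβ, rfl⟩ := (impl_iff B' φ).1 hφ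
    obtain ⟨e1, e2⟩ := hT4 B' β hB' hβ
    exact ⟨tself _ _ e2, hrep B' _ z e1 (same_near hsf) e2 hfr⟩
  · have htriv : ∀ z ∈ FinT.ElementaryClasses B y₀, ∃ (G : R4 → S4) (φ : S4 → S4),
        EmbOn (𝓡 4) G SP ∧ (∃ U : Set R4, IsOpen U ∧ sph 1 ⊆ U ∧ EqOn B G U) ∧
        Thin (𝓡 4) G φ ∧ FreeClass (fixedCuff B) y₀ G z ∧ RW4 W φ (fun x => x) := by
      rintro z (⟨B', hE, hsf, hfr⟩ | hz)
      · obtain ⟨hB', h2⟩ := hel B' hE
        obtain ⟨e1, e2⟩ := hT4 B' barMap hB' isBarbellMap_barMap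
        exact ⟨B', _, e1, same_near hsf, e2, hfr, h2 _ e2⟩
      · exact par_rep hT2 hT4 hCI hW hPAR B hNB y₀ z hz
    intro z hz hz'
    refine hdr (FinT.ElementaryClasses B y₀) ?_ ?_ z (hcl hz) hz'
    · intro v hv
      obtain ⟨G, φ, g1, g2, g3, g4, -⟩ := htriv v hv
      exact rep_of hT2 hCI B y₀ g1 g2 g3 g4
    · intro v hv
      obtain ⟨G, φ, g1, g2, g3, g4, g5⟩ := htriv v hv
      exact r_trans hCI hW cid (r_symm hCI hW (hs v) (hrep G φ v g1 g2 g3 g4)) g5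

end

end FIN8

open FIN8 in
theorem m_FIN8 (hPARS : ∀ W W', IsW W → IsPush W W' → StPARS W') (hRelS : StRelS6)
    (hNULS : ∀ W W', IsW W → IsPush W W' → NulS W') (hEXC : StEXC) (hUNK : StUNK)
    (hLIP : StLIP) (hsw : StR2sw) (hT4 : StT4) (hT2 : StT2) (hCI : StCI) {W₀ : R4 → R4}
    (hW₀ : IsW W₀) : StFinal8 := by
  obtain ⟨W, hW, hpush, -, hRel⟩ := hRelS W₀ hW₀
  have hPAR := hPARS W₀ W hW₀ hpush
  have hNul := hNULS W₀ W hW₀ hpush
  obtain ⟨B₀, δ₀, k1, k2, k3, k4⟩ := hW.1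
  obtain ⟨cid, cs, cself, ct, cc, cinv, cex, cconj, ciso, -⟩ := hCI _ _ (𝓡 4) S4
  have hflat : ∀ c, Pool.Agent.Helper70.Fin.flatBall c = flat c := fun c => by
    have e : (1 / 5 : ℝ) ^ 2 = 1 / 25 := by norm_num
    rw [Pool.Agent.Helper70.Fin.flatBall, flat, e]
  have hup : ∀ φ ψ, RW4 W φ ψ → FinS.UpTo W φ ψ := fun φ ψ h => (rw4_iff hCI).1 h
  refine ⟨W, B₀, (impl_iff B₀ W).2 ⟨k1, barMap, isBarbellMap_barMap, k4⟩, ⟨δ₀, ?_, ?_⟩, hW.2.1,
    hW.2.2, ?_, ?_, ?_⟩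
  · show Pool.Agent.Helper70.Fin.flatBall 0 ∪ Pool.Agent.Helper70.Fin.flatBall 1 ⊆ δ₀.source
    rw [hflat, hflat]
    exact k2
  · show ∀ p ∈ coreSphere 0 ∪ coreSphere 1, δ₀ p = B₀ p
    rw [RELS.coreSphere_eq, RELS.coreSphere_eq]
    exact k3
  · intro B y₀ hNB hy
    obtain ⟨h1, Φ, -, h3, h4, h5⟩ :=
      main hLIP hT2 hT4 hCI hW hRel hNul hPAR hEXC hUNK hsw B y₀ hNB hy
    exact ⟨h1, Φ, fun z hz z' hz' => hup _ _ (h3 z hz z' hz'),
      fun B' φ z a b c => hup _ _ (h4 B' φ z a b c).2, fun z hz hz' => hup _ _ (h5 z hz hz')⟩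
  · intro B y₀ B₁ B₂ φ₁ φ₂ z₁ z₂ hNB hy i1 i2 s1 s2 c1 c2 hz
    obtain ⟨-, Φ, hs, h3, h4, h5⟩ :=
      main hLIP hT2 hT4 hCI hW hRel hNul hPAR hEXC hUNK hsw B y₀ hNB hy
    have m1 : z₁ ∈ gen (FinS.MovedClasses B y₀) :=
      Subgroup.subset_closure (Or.inl ⟨B₁, i1.1, s1, c1⟩)
    have m2 : z₂ ∈ gen (FinS.MovedClasses B y₀) :=
      Subgroup.subset_closure (Or.inl ⟨B₂, i2.1, s2, c2⟩)
    have m3 : z₁ * z₂⁻¹ ∈ gen (FinS.MovedClasses B y₀) :=
      (Subgroup.closure (FinS.MovedClasses B y₀)).mul_mem m1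
        ((Subgroup.closure (FinS.MovedClasses B y₀)).inv_mem m2)
    have r0 := h3 _ m3 _ m2
    rw [inv_mul_cancel_right] at r0
    have r1 := h5 _ m3 hz
    have r2 : RW4 W (Φ z₁) (Φ z₂) := r_trans hCI hW (hs z₂) r0
      (RELS6.r_comp (φ := Φ z₂) (φ' := Φ z₂) (ψ := Φ (z₁ * z₂⁻¹)) (ψ' := fun x => x) hCI hW (hs z₂)
        cid (Or.inl (hs z₂)) r1)
    obtain ⟨t1, r3⟩ := h4 B₁ φ₁ z₁ i1 s1 c1
    obtain ⟨t2, r4⟩ := h4 B₂ φ₂ z₂ i2 s2 c2
    exact hup _ _ (r_trans hCI hW t2 r3 (r_trans hCI hW t2 r2 (r_symm hCI hW (hs z₂) r4)))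
  · rintro B φ hE hφ
    obtain ⟨hB, β, hβ, rfl⟩ := (impl_iff B φ).1 hφ
    obtain ⟨e1, e2⟩ := hT4 B β hB hβ
    exact hup _ _ ((elem hLIP hT2 hT4 hCI hW hRel hNul hPAR hEXC hUNK hsw B hE).2 _ e2)

end Pool.Agent.Helper18.BI.S5


end

/-! ## Helper70.BI.T.Fin9 -/

section

/-!
# Project BI, stages 5 and 6: the three final theorems in the vocabulary of the hand-ins
-/

set_option autoImplicit false

open scoped Manifold ContDiff
open Pool.Agent.Helper65.Barb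
open Pool.Agent.Helper70.Fin (Emb)
open Pool.Agent.Helper18.FinR (Pi2)
open Pool.Agent.Helper18 Pool.Agent.Helper18.FinS

namespace Pool.Agent.Helper70.T

/-- the homomorphism -/
def StHom : Prop :=
  ∃ (W : S4 → S4) (B₀ : Emb), IsImplantation B₀ W ∧ BoundsDisjointBalls B₀ ∧
    Isotopic (fun x => W (W x)) (fun x => x) ∧ IsCentral W ∧
    ∀ (B : Emb) (y₀ : Off B), IsBarbell B → IsBase B y₀ →
      (∀ B' : Emb, IsBarbell B' → SameFixed B B' → ∃ z, IsClass B y₀ B' z) ∧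
      ∃ Φ : Pi2 (fixedCuff B) y₀ → S4 → S4,
        (∀ z ∈ gen (MovedClasses B y₀), ∀ z' ∈ gen (MovedClasses B y₀),
          UpTo W (Φ (z * z')) (fun x => Φ z (Φ z' x))) ∧
        (∀ (B' : Emb) (φ : S4 → S4) (z : Pi2 (fixedCuff B) y₀), IsImplantation B' φ →
          SameFixed B B' → IsClass B y₀ B' z → UpTo W φ (Φ z)) ∧
        ∀ z ∈ gen (MovedClasses B y₀), z ∈ gen ({v | IsParallelClass B y₀ v} ∪ FinT.Drift B y₀) →
          UpTo W (Φ z) (fun x => x)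

/-- elementary barbells -/
def StElem : Prop :=
  ∃ (W : S4 → S4) (B₀ : Emb), IsImplantation B₀ W ∧ BoundsDisjointBalls B₀ ∧
    Isotopic (fun x => W (W x)) (fun x => x) ∧ IsCentral W ∧
    ∀ (B : Emb) (φ : S4 → S4), FinT.Elementary B → IsImplantation B φ → UpTo W φ (fun x => x)

/-- rotation invariant barbells -/
def StSpun : Prop :=
  ∃ (W : S4 → S4) (B₀ : Emb), IsImplantation B₀ W ∧ BoundsDisjointBalls B₀ ∧
    Isotopic (fun x => W (W x)) (fun x => x) ∧ IsCentral W ∧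
    ∀ (B : Emb) (φ : S4 → S4), IsSpun B → IsImplantation B φ → UpTo W φ (fun x => x)

theorem stHom (h : Pool.Agent.Helper18.BI.S5.StFinal8) : StHom := by
  obtain ⟨W, B₀, h1, h2, h3, h4, h5, -, -⟩ := h
  refine ⟨W, B₀, h1, h2, h3, h4, fun B y₀ hB hy => ?_⟩
  obtain ⟨e1, Φ, e2, e3, e4⟩ := h5 B y₀ hB hy
  refine ⟨e1, Φ, e2, e3, fun z hz hz' => e4 z hz ?_⟩
  refine Subgroup.closure_mono ?_ hz'
  rintro v (hv | hv)
  · exact Or.inl (Or.inr hv)
  · exact Or.inr hv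

theorem stElem (h : Pool.Agent.Helper18.BI.S5.StFinal8) : StElem := by
  obtain ⟨W, B₀, h1, h2, h3, h4, -, -, h5⟩ := h
  exact ⟨W, B₀, h1, h2, h3, h4, h5⟩

theorem stSpun (h : Pool.Agent.Helper18.BI.S5.StFinal8) (hS : StSPN) : StSpun := by
  obtain ⟨W, B₀, h1, h2, h3, h4, -, -, h5⟩ := h
  exact ⟨W, B₀, h1, h2, h3, h4, fun B φ hB => h5 B φ (hS B hB)⟩

end Pool.Agent.Helper70.T


end
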