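import Pool.Agent.Helper18.BI.R.FinDefs
import Pool.Agent.Helper65.Barb.Defs
import Pool.Agent.Helper70.BI.C.P15

/-!
# Project BI (MP_8e98f2_gt): collected modules, part 67

The contents of the modules
* Helper70.BI.HH.StHA
* Helper70.BI.HH.Cells
* Helper70.BI.HH.StHB
* Helper70.BI.HH.StHC
* Helper2.BI7.M_UNT
* Helper70.BI.HH.StHE
* Helper73.BI7.M_NAT
* Helper79.BI7.M_COB
* Helper85.BI7.M_CCD
* Helper92.BI7.M_KAP
* Helper94.BI7.M_CCA

in one file, so that the whole proof builds in a short time.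
-/

namespace Pool.Agent.Helper18.BI
end Pool.Agent.Helper18.BI

namespace Pool.Agent.Helper18.BI.R
end Pool.Agent.Helper18.BI.R

namespace Pool.Agent.Helper18.FinR
end Pool.Agent.Helper18.FinR

namespace Pool.Agent.Helper65.Barb
end Pool.Agent.Helper65.Barb

namespace Pool.Agent.Helper70.T
end Pool.Agent.Helper70.T


/-! ## Helper70.BI.HH.StHA -/

section

/-!
# Project BI, stage 7 (H): third homology of the knot group (statements, part A)

Goal: for the complement `X` of a knotted 2-sphere in the 4-sphere the second homotopy group modulo `drift` (the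
coinvariants) is a quotient of `H_3(pi_1 X; Z)`.

Part A: classes of spheres modulo drift; classes of closed 2-cells.  A 2-cell is a path in the space of paths
`Path x y`.  Statements as `Prop` definitions, with complete proofs in the docstrings; a module `M_X` proves
`theorem m_X : StX` (possibly from other statements as hypotheses `(h : StY)`).
-/

set_option autoImplicit false

open scoped Topology unitInterval
open Set Pool.Agent.Helper65.Barb Pool.Agent.Helper18.BI
open Pool.Agent.Helper18.FinR (sqr)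
open Pool.Agent.Helper18.BI.R (S2)
open Pool.Agent.Helper70.T

namespace Pool.Agent.Helper70.HH

/-- the second homotopy group modulo drift, written additively -/
abbrev MM (X : Type) [TopologicalSpace X] (y₀ : X) : Type :=
  Additive (HomotopyGroup (Fin 2) X y₀ ⧸ Subgroup.closure (drift y₀))

/-- the class modulo drift -/
noncomputable def mcl {X : Type} [TopologicalSpace X] {y₀ : X} (f : GenLoop (Fin 2) X y₀) :
    MM X y₀ :=
  Additive.ofMul (QuotientGroup.mk (hcl f))

/-- `sq` assigns to a map of the square which is constant on the boundary its class modulo drift -/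
structure IsSC (X : Type) [TopologicalSpace X] (y₀ : X) (sq : ((Fin 2 → I) → X) → MM X y₀) :
    Prop where
  base : ∀ f : GenLoop (Fin 2) X y₀, sq f = mcl f
  free : ∀ f g : (Fin 2 → I) → X, Hfree f g → sq f = sq g
  add : ∀ (y : X) (f g x : GenLoop (Fin 2) X y), hcl f = hcl g * hcl x → sq f = sq g + sq x

/-- MODULE SC.  Classes of free spheres modulo drift.
Proof.  Let `r : Path y₀ y`, `f : GenLoop (Fin 2) X y`.  For `t : Fin 2 → I` let `d t = min (min (t 0) (1 - t 0)) (min (t 1) (1 - t 1))` (as a real number in `[0, 1/2]`; `d t = 0` iff `t` is in the boundary), `c u = (1 - u) / 4` and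
`F (u, t) = r.extend (u + 4 d t)` if `d t ≤ c u`, and `= f (fun i => projIcc 0 1 _ ((t i - c u) / (1 - 2 c u)))` otherwise (for `u ∈ [0,1]`; at `d t = c u` both formulas give `y`: `u + 4 c u = 1`, and one of the coordinates of the argument of `f` is `0` or `1`).
`F` is continuous on `Icc 0 1 ×ˢ univ` (`ContinuousOn.if'`, or on the two closed sets `d t ≤ c u` and `c u ≤ d t`), `F (u, t) = r.extend u` on the boundary, `F (1, t) = f t`.  `rf = F (0, ·)` is a `GenLoop` at `y₀`, and `Hfree rf f`.
(A) For a map `f` of the square with `Hfree f f` (in particular continuous, and constant on the boundary, value `y`) there is `x : GenLoop (Fin 2) X y₀` with `Hfree x f`: `X` is path connected.  Define `sq f = mcl x` for a chosen `x` if there is an `x` with `Hfree x f`, and `0` otherwise.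
(B) If `Hfree x f` and `Hfree x' f` then `hcl x * (hcl x')⁻¹ ∈ drift y₀`, so `mcl x = mcl x'`: `sq f = mcl x` for every `x` with `Hfree x f`.  `base`: `Hfree f f` (constant homotopy).  `free`: `Hfree` is symmetric and transitive (`u ↦ 1 - u`; `2 u`, `2 u - 1`).
(C) `add`: let `y`, `f`, `g`, `x` be given; `r : Path y₀ y`; `F^g`, `F^x` the homotopies above for `g` and `x`.  By `HomotopyGroup.mul_spec` (`⟦p⟧ * ⟦q⟧ = ⟦transAt i q p⟧`) `hcl f = hcl (transAt 0 x g)`, so `f` and `transAt 0 x g` are homotopic rel boundary, hence `Hfree`.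
The concatenations (in the coordinate `t 0`, `t 0 ≤ 1/2`: `F^x (u, 2 t 0, t 1)`, `t 0 ≥ 1/2`: `F^g (u, 2 t 0 - 1, t 1)`) are continuous, constant on the boundary (value `r.extend u`), for `u = 1` this is `transAt 0 x g`, for `u = 0` it is `transAt 0 rx rg`.
So `Hfree (transAt 0 rx rg) f`, and `sq f = mcl (transAt 0 rx rg) = mcl rg + mcl rx = sq g + sq x`. -/
def StSC : Prop :=
  ∀ (X : Type) [TopologicalSpace X] [PathConnectedSpace X] (y₀ : X), ∃ sq, IsSC X y₀ sq

/-- the map of the sphere with the value `H (ρ / 2π, v)` at the point with longitude `ρ` and colatitude `π v` -/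
noncomputable def sph2 {X : Type} (H : ℝ × ℝ → X) (m : R3) : X := H (lon m / (2 * Real.pi), lat m)

/-- MODULE PQ.  Families of spheres given in polar coordinates.
Proof.  As in module PP (`Pool/Agent/Helper67/BI6/M_PP.lean`, `m_PP`, part (4)): the map `(z, ρ, v) ↦ (z, PP (2 π ρ) v)` from `Z × Icc 0 1 × Icc 0 1` to `Z × S2` is a quotient map, and the composition of the map in question with it is `Γ` (second claim).
Second claim: `m = PP (2 π ρ) v`: `lat m = v` (`Real.arccos_cos`); if `0 < v < 1` and `ρ < 1` then `lon m = 2 π ρ`; if `ρ = 1`, `lon m = 0` and `Γ (z, 0, v) = Γ (z, 1, v)`; if `v = 0` or `v = 1` then `Γ (z, ·, v)` is constant on `[0,1]` (and `lon m / 2π ∈ [0,1]`).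
(The proof of `m_PP` can be copied: there `Γ (z, ρ, v)` is `A.R (2 π ρ) (Γ (z, v))`.) -/
def StPQ : Prop :=
  ∀ (X Z : Type) [TopologicalSpace X] [TopologicalSpace Z] (Γ : Z × ℝ × ℝ → X),
    ContinuousOn Γ (univ ×ˢ (Icc (0 : ℝ) 1 ×ˢ Icc (0 : ℝ) 1)) →
    (∀ z, ∀ v ∈ Icc (0 : ℝ) 1, Γ (z, 0, v) = Γ (z, 1, v)) →
    (∀ z, ∀ ρ ∈ Icc (0 : ℝ) 1, Γ (z, ρ, 0) = Γ (z, 0, 0)) →
    (∀ z, ∀ ρ ∈ Icc (0 : ℝ) 1, Γ (z, ρ, 1) = Γ (z, 0, 1)) →
    ContinuousOn (fun p : Z × R3 => sph2 (fun q => Γ (p.1, q)) p.2) (univ ×ˢ S2) ∧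
    ∀ z, ∀ ρ ∈ Icc (0 : ℝ) 1, ∀ v ∈ Icc (0 : ℝ) 1,
      sph2 (fun q => Γ (z, q)) (PP (2 * Real.pi * ρ) v) = Γ (z, ρ, v)

/-- the unit sphere and the disk in the plane `p.1 = 0` -/
def UU : Set R3 := S2 ∪ {p | p.1 = 0 ∧ nsq p ≤ 1}

/-- MODULE ADD.  Additivity: a map of the sphere with the equatorial disk.
Proof (from `StPP`, `StMUL`).  Let `U` be the subtype of `UU`, with the rotation `R ρ (h, w) = (h, exp (ρ I) w)` (an `Act U`, `Act.Fix` contains the points with `w = 0`).  Let `γ : ℝ → U`: `γ v = (cos 2πv, sin 2πv)` for `v ≤ 1/4`, `(0, 2 - 4v)` for `1/4 ≤ v ≤ 1/2`, `(0, 4v - 2)` for `1/2 ≤ v ≤ 3/4`,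
`(cos (2πv - π), sin (2πv - π)) = (- cos 2πv, - sin 2πv)` for `v ≥ 3/4` (extended constantly outside `[0,1]`): from the north pole to the equator, to the centre, to the equator, to the south pole.  `StMUL` (with `y₀ = γ 0 = (1, 0)`) gives GenLoops `f`, `g`, `x` in `U` with `f = A.sph γ ∘ sqr`, `g = A.sph (γ (·/2)) ∘ sqr`,
`hcl f = hcl g * hcl x` and `Hfree x (A.sph (γ (1/2 + ·/2)) ∘ sqr)`.  Compose with `Φ : U → X` (induced map on `HomotopyGroup`: if `hcl f = hcl g * hcl x` then the same for `Φ ∘ f` etc.: `HomotopyGroup.mul_spec`, `Quotient.exact`, compose the homotopy with `Φ`).  By `IsSC.add`, `IsSC.free`: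
`sq (Φ ∘ A.sph γ ∘ sqr) = sq (Φ ∘ A.sph (γ (·/2)) ∘ sqr) + sq (Φ ∘ A.sph (γ (1/2 + ·/2)) ∘ sqr)`.
It remains to see, with `StPP` (4) (`Z = unitInterval`, a homotopy of paths in `U` whose ends are fixed points) and `A.sph δ (PP ρ v) = A.R ρ (δ v)`:
(1) `A.sph γ` is homotopic in `U` to the inclusion `m ↦ m`, which is `A.sph δ` for `δ v = (cos πv, sin πv)`: `γ` is homotopic to `δ` rel ends in the plane set `{(h, x) : h² + x² = 1 or h = 0, 0 ≤ x ≤ 1}`: the part `x = 1 → 0 → 1` of `γ` shrinks (`max x u`), then reparametrize.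
(2) `A.sph (γ (·/2))` is homotopic to `m ↦ (max m.1 0, m.2)`, which is `A.sph δ'`, `δ' v = (max (cos πv) 0, sin πv)`; `γ (v/2)` and `δ' v` are both `(cos, sin)` for `v ≤ 1/2`, and go from `(0,1)` to `(0,0)` in the segment for `v ≥ 1/2` (linear homotopy there; at `v = 1` both are `(0,0)`).
(3) Similarly `A.sph (γ (1/2 + ·/2))` and `m ↦ (min m.1 0, m.2)`.
The value on `S2` of `A.sph δ` is the claimed one by `StPP` (3). -/
def StADD : Prop :=
  ∀ (X : Type) [TopologicalSpace X] (y₀ : X) (sq : ((Fin 2 → I) → X) → MM X y₀),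
    IsSC X y₀ sq → ∀ Φ : R3 → X, ContinuousOn Φ UU →
      sq (fun t => Φ (sqr t)) = sq (fun t => Φ (max (sqr t).1 0, (sqr t).2)) +
        sq (fun t => Φ (min (sqr t).1 0, (sqr t).2))

/-! ## closed 2-cells -/

section cells

variable {X : Type} [TopologicalSpace X]

/-- homotopy classes of 2-cells: `p` and `q` are points of the space `Path x y` -/
abbrev Q2 {x y : X} (p q : Path x y) : Type := Path.Homotopic.Quotient p q

/-- horizontal composition of 2-cells -/
noncomputable def hcP {x y z : X} {p p' : Path x y} {q q' : Path y z} (γ : Path p p')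
    (δ : Path q q') : Path (p.trans q) (p'.trans q') where
  toFun s := (γ s).trans (δ s)
  continuous_toFun := γ.continuous.path_trans δ.continuous
  source' := by rw [γ.source, δ.source]
  target' := by rw [γ.target, δ.target]

/-- the sphere of a closed 2-cell -/
noncomputable def sphP {x y : X} {p q : Path x y} (γ : Path p q) (t : Fin 2 → I) : X :=
  sph2 (fun z => γ (projIcc (0 : ℝ) 1 zero_le_one z.1) (projIcc (0 : ℝ) 1 zero_le_one z.2)) (sqr t)

end cells

/-- MODULE CCA.  Homotopic closed 2-cells; cyclic invariance.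
Proof.  (i) A homotopy gives continuous `K : I × I → Path x y` with `K (u, 0) = K (u, 1) = p`; `Γ (u, ρ, v) = K (u, ρ) v` (with `projIcc`): continuous (evaluation `Path x y × I → X` is continuous); `StPQ` with `Z = I` and the two ends give an `Hfree` (with `sqr` continuous, `sqr t ∈ S2`, `sqr t = (1, 0)` on the boundary; see `SPN.sqr_mem`, `SPN.sqr_bd` in
`Pool/Agent/Helper70/BI/T/M_SPN.lean`, `R.EXC.continuous_sqr`); the value on the boundary is `Γ (u, 0, 0) = x`.
(ii) `γ : Path p q`, `δ : Path q p`.  `E ρ = (γ.trans δ)` extended periodically to `ℝ` (period 1): with `σ ρ = Int.fract ρ`, `E (ρ) = (γ.trans δ).extend (Int.fract ρ)`, continuous as a map `ℝ → Path x y` (as the values at `0` and `1` agree; Mathlib: `Function.Periodic`, `AddCircle.liftIco`, or direct).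
`Γ (u, ρ, v) = E (ρ + u / 2) v`: at `u = 0` the sphere of `γ.trans δ`, at `u = 1` the sphere of `δ.trans γ`. -/
def StCCA : Prop :=
  ∀ (X : Type) [TopologicalSpace X] (y₀ : X) (sq : ((Fin 2 → I) → X) → MM X y₀),
    IsSC X y₀ sq →
    (∀ (x y : X) (p : Path x y) (γ γ' : Path p p), γ.Homotopic γ' → sq (sphP γ) = sq (sphP γ')) ∧
    ∀ (x y : X) (p q : Path x y) (γ : Path p q) (δ : Path q p),
      sq (sphP (γ.trans δ)) = sq (sphP (δ.trans γ))

/-- MODULE CCB.  Vertical composition of closed 2-cells.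
Proof (from `StPQ`, `StADD`, `StSC` not needed).  Let `Γ (ρ, v) = (γ.trans δ) ρ v` and `f = sph2 Γ` (continuous on `S2`, `StPQ` with `Z = Unit`): `f (PP (2πρ) v) = γ (2ρ) v` for `ρ ≤ 1/2`, `δ (2ρ - 1) v` for `ρ ≥ 1/2`, so the points of `S2` with `Im w ≥ 0` are mapped by `γ`, those with `Im w ≤ 0` by `δ`, and those with `Im w = 0` by `p` (value `p (lat m)`).
Let `e (h, w) = p (arccos h / π)` (`h ∈ [-1, 1]`) and `Ψ : R3 → X`, `Ψ m = f m` on `S2`, `Ψ m = e m` on the disk `D = {Im w = 0, nsq ≤ 1}`: continuous on `S2 ∪ D` (closed sets, agree on the intersection).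
Let `T_θ (h, w) = (h cos θ + Im w sin θ, Re w + I (- h sin θ + Im w cos θ))` be the rotation of the `(h, Im w)`-plane; `T = T_{π/2} (h, w) = (Im w, Re w - I h)`, inverse `T⁻¹ (h, w) = (- Im w, Re w + I h)`.
`Φ = Ψ ∘ T⁻¹` is continuous on `UU` (`T⁻¹` maps `h = 0` to `Im w = 0`).  `StADD`: `sq (Φ ∘ sqr) = sq (Φ (max ..)) + sq (Φ (min ..))`.
`Φ` on `S2` is `f ∘ T⁻¹`, freely homotopic to `f` (`f ∘ T_{-θ}`; on the boundary of the square `sqr t = (1, 0)` is constant): `sq (Φ ∘ sqr) = sq (f ∘ sqr)`.
`m ↦ Φ (max m.1 0, m.2) = Ψ (T⁻¹ (max m.1 0, m.2))` is `G ∘ T⁻¹` with `G (m) = Ψ (m.1, Re m.2 + I max (Im m.2) 0)` (for `m ∈ S2`), freely homotopic to `G` on `S2`; `G (PP (2πρ) v) = γ (2ρ) v` for `ρ ≤ 1/2`, `= p v` for `ρ ≥ 1/2` (there `G m = e m`, `m.1 = cos πv`), so `G = sph2 Γ'` with `Γ' (ρ, v) = γ (min 1 (2ρ)) v`, homotopic to the sphere of `γ` by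
`Γ (u, ρ, v) = γ (min 1 ((2 - u) ρ)) v` (`StPQ`, `Z = I`; `γ 0 = γ 1 = p`).  In the same way `min` gives `δ (max 0 (2ρ - 1)) v`, homotopic to the sphere of `δ` (`γ`, `δ` closed). -/
def StCCB : Prop :=
  ∀ (X : Type) [TopologicalSpace X] (y₀ : X) (sq : ((Fin 2 → I) → X) → MM X y₀),
    IsSC X y₀ sq → ∀ (x y : X) (p : Path x y) (γ δ : Path p p),
      sq (sphP (γ.trans δ)) = sq (sphP γ) + sq (sphP δ)

/-- MODULE CCC.  Horizontal composition of closed 2-cells.
Proof (from `StPQ`, `StADD`).  `γ : Path p p`, `δ : Path q q`, `p : Path x y`, `q : Path y z`.  The sphere of `hcP γ δ` is `f = sph2 Γ`, `Γ (ρ, v) = γ ρ (2v)` for `v ≤ 1/2`, `δ ρ (2v - 1)` for `v ≥ 1/2`; on the equator `m.1 = 0` (`v = 1/2`) the value is `y`.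
`Φ m = f m` on `S2`, `Φ m = y` on the disk: continuous on `UU`.  `StADD`.  `m ↦ Φ (max m.1 0, m.2)` is on `S2` equal to `sph2 Γ'`, `Γ' (ρ, v) = γ ρ (min 1 (2v))`, homotopic to the sphere of `γ` by `γ ρ (min 1 ((2 - u) v))` (`StPQ`, `Z = I`), and `m ↦ Φ (min m.1 0, m.2)` is `sph2` of `δ ρ (max 0 (2v - 1))`, homotopic to the sphere of `δ` by
`δ ρ (max 0 (1 - (2 - u) (1 - v)))` (the value at `v = 0` is `y`, constant). -/
def StCCC : Prop :=
  ∀ (X : Type) [TopologicalSpace X] (y₀ : X) (sq : ((Fin 2 → I) → X) → MM X y₀),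
    IsSC X y₀ sq → ∀ (x y z : X) (p : Path x y) (q : Path y z) (γ : Path p p) (δ : Path q q),
      sq (sphP (hcP γ δ)) = sq (sphP γ) + sq (sphP δ)

/-- MODULE CCD.  The sphere of a closed 2-cell at the constant path.
Proof (from `StSQR`, `StPQ`).  `γ : Path (refl y₀) (refl y₀)` (as points of `Path y₀ y₀`) with `γ s t = f ![s, t]`, `f : GenLoop`.  The sphere is `h = sph2 (fun z => f ![z.1, z.2])` (with `projIcc`), continuous on `S2` (`StPQ`; all boundary values are `y₀`).
By `StSQR` `h ∘ sqr` and `h ∘ qq` are homotopic rel boundary (compose `G` with `h`), so `sq (sphP γ) = sq (h ∘ qq)`.  By `StPQ` (second claim): `h (qq t) = f ![rho (t 0) / 2π, lam (t 0) * tau (t 1)]` if `t 1 ≤ 1/2`; if `t 1 ≥ 1/2`, `qq t = PP 0 (..)` and `h (qq t) = f ![0, ..] = y₀`.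
Here `rho (t 0) / 2π = max 0 (min 1 (3 t 0 - 1))`, and if this is in `(0,1)` then `t 0 ∈ (1/3, 2/3)` and `lam (t 0) = 1`.  So `h (qq t) = f ![max 0 (min 1 (3 t 0 - 1)), min 1 (2 t 1)]` for ALL `t` (both sides are `y₀` if the first coordinate is `0` or `1` or `t 1 ≥ 1/2`; `f` is `y₀` on the boundary).
This is homotopic rel boundary to `f` by `f ![max 0 (min 1 ((3 - 2u) t 0 - (1 - u))), min 1 ((2 - u) t 1)]` (at `u = 1`: `f t`; on the boundary of the square: `t 0 = 0`: the first coordinate is `0`; `t 0 = 1`: `(3 - 2u) - (1 - u) = 2 - u ≥ 1`: it is `1`; `t 1 = 0`: `0`; `t 1 = 1`: `1`). -/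
def StCCD : Prop :=
  ∀ (X : Type) [TopologicalSpace X] (y₀ : X) (sq : ((Fin 2 → I) → X) → MM X y₀),
    IsSC X y₀ sq → ∀ (f : GenLoop (Fin 2) X y₀) (γ : Path (Path.refl y₀) (Path.refl y₀)),
      (∀ s t, γ s t = f ![s, t]) → sq (sphP γ) = mcl f

end Pool.Agent.Helper70.HH


end

/-! ## Helper70.BI.HH.Cells -/

section

/-!
# Project BI, stage 7 (H): 2-cells, basic definitions
-/

set_option autoImplicit false

open scoped Topology unitInterval
open Set

namespace Pool.Agent.Helper70.HH

section cells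

variable {X : Type} [TopologicalSpace X]

/-- a continuous family of paths is a path in the space of paths -/
def mkP {x y : X} {p q : Path x y} (H : C(I × I, X)) (h0 : ∀ t, H (0, t) = p t)
    (h1 : ∀ t, H (1, t) = q t) (hx : ∀ s, H (s, 0) = x) (hy : ∀ s, H (s, 1) = y) : Path p q where
  toFun s := ⟨⟨fun t => H (s, t), by fun_prop⟩, hx s, hy s⟩
  continuous_toFun := by
    rw [← Path.continuous_uncurry_iff]
    exact H.continuous
  source' := by
    ext t
    exact h0 t
  target' := by
    ext t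
    exact h1 t

theorem mkP_apply {x y : X} {p q : Path x y} (H : C(I × I, X)) (h0 : ∀ t, H (0, t) = p t)
    (h1 : ∀ t, H (1, t) = q t) (hx : ∀ s, H (s, 0) = x) (hy : ∀ s, H (s, 1) = y) (s t : I) :
    mkP H h0 h1 hx hy s t = H (s, t) := rfl

/-- the square of a 2-cell -/
def raw {x y : X} {p q : Path x y} (γ : Path p q) : C(I × I, X) :=
  ⟨fun z => γ z.1 z.2, Path.continuous_uncurry_iff.2 γ.continuous⟩

theorem raw_apply {x y : X} {p q : Path x y} (γ : Path p q) (z : I × I) : raw γ z = γ z.1 z.2 :=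
  rfl

/-- horizontal composition of classes of 2-cells -/
noncomputable def hc {x y z : X} {p p' : Path x y} {q q' : Path y z} (α : Q2 p p')
    (β : Q2 q q') : Q2 (p.trans q) (p'.trans q') :=
  Path.Homotopic.Quotient.map (Path.Homotopic.prod α β)
    ⟨fun u : Path x y × Path y z => u.1.trans u.2, continuous_fst.path_trans continuous_snd⟩

theorem hc_mk {x y z : X} {p p' : Path x y} {q q' : Path y z} (γ : Path p p') (δ : Path q q') :
    hc (Path.Homotopic.Quotient.mk γ) (Path.Homotopic.Quotient.mk δ) =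
      Path.Homotopic.Quotient.mk (hcP γ δ) := by
  unfold hc
  rfl

/-- the reparametrization which transforms `(p q) r` into `p (q r)` -/
noncomputable def phi (t : ℝ) : ℝ := if t ≤ 1 / 2 then t / 2 else if t ≤ 3 / 4 then t - 1 / 4
  else 2 * t - 1

theorem continuous_phi : Continuous phi := by
  unfold phi
  refine Continuous.if_le (by fun_prop) ?_ continuous_id continuous_const ?_
  · refine Continuous.if_le (by fun_prop) (by fun_prop) continuous_id continuous_const ?_
    intro t ht
    have : t = 3 / 4 := ht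
    rw [this]
    norm_num
  · intro t ht
    have : t = 1 / 2 := ht
    rw [this]
    norm_num

/-- `(p q) r` in the new parametrization is `p (q r)` -/
theorem phi_trans {x y z w : X} (p : Path x y) (q : Path y z) (r : Path z w) (t : ℝ) :
    ((p.trans q).trans r).extend (phi t) = (p.trans (q.trans r)).extend t := by
  by_cases h1 : t ≤ 1 / 2
  · have hp : phi t = t / 2 := if_pos h1
    rw [hp, Path.extend_trans_of_le_half _ _ (by linarith : t / 2 ≤ 1 / 2),
      Path.extend_trans_of_le_half _ _ (by linarith : 2 * (t / 2) ≤ 1 / 2),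
      Path.extend_trans_of_le_half _ _ h1]
    congr 1
    ring
  · by_cases h2 : t ≤ 3 / 4
    · have hp : phi t = t - 1 / 4 := by unfold phi; rw [if_neg h1, if_pos h2]
      rw [hp, Path.extend_trans_of_le_half _ _ (by linarith : t - 1 / 4 ≤ 1 / 2),
        Path.extend_trans_of_half_le _ _ (by linarith : 1 / 2 ≤ 2 * (t - 1 / 4)),
        Path.extend_trans_of_half_le _ _ (by linarith : 1 / 2 ≤ t),
        Path.extend_trans_of_le_half _ _ (by linarith : 2 * t - 1 ≤ 1 / 2)]
      congr 1
      ring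
    · have hp : phi t = 2 * t - 1 := by unfold phi; rw [if_neg h1, if_neg h2]
      rw [hp, Path.extend_trans_of_half_le _ _ (by linarith : 1 / 2 ≤ 2 * t - 1),
        Path.extend_trans_of_half_le _ _ (by linarith : 1 / 2 ≤ t),
        Path.extend_trans_of_half_le _ _ (by linarith : 1 / 2 ≤ 2 * t - 1)]

/-- the associator -/
noncomputable def ascP {x y z w : X} (p : Path x y) (q : Path y z) (r : Path z w) :
    Path ((p.trans q).trans r) (p.trans (q.trans r)) :=
  mkP ⟨fun u => ((p.trans q).trans r).extend ((1 - (u.1 : ℝ)) * u.2 + (u.1 : ℝ) * phi u.2), by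
      refine (Path.continuous_extend _).comp ?_
      have := continuous_phi
      fun_prop⟩ (by
      intro t
      show ((p.trans q).trans r).extend ((1 - ((0 : I) : ℝ)) * t + ((0 : I) : ℝ) * phi t) = _
      rw [Icc.coe_zero, sub_zero, one_mul, zero_mul, add_zero]
      exact Path.extend_apply _ t.2) (by
      intro t
      show ((p.trans q).trans r).extend ((1 - ((1 : I) : ℝ)) * t + ((1 : I) : ℝ) * phi t) = _
      rw [Icc.coe_one, sub_self, zero_mul, zero_add, one_mul, phi_trans]
      exact Path.extend_apply _ t.2) (by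
      intro s
      show ((p.trans q).trans r).extend ((1 - (s : ℝ)) * ((0 : I) : ℝ) +
        (s : ℝ) * phi ((0 : I) : ℝ)) = x
      have : phi 0 = 0 := by unfold phi; norm_num
      rw [Icc.coe_zero, this, mul_zero, mul_zero, add_zero, Path.extend_zero]) (by
      intro s
      show ((p.trans q).trans r).extend ((1 - (s : ℝ)) * ((1 : I) : ℝ) +
        (s : ℝ) * phi ((1 : I) : ℝ)) = w
      have : phi 1 = 1 := by unfold phi; norm_num
      rw [Icc.coe_one, this, mul_one, mul_one, sub_add_cancel, Path.extend_one])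

theorem ascP_apply {x y z w : X} (p : Path x y) (q : Path y z) (r : Path z w) (s t : I) :
    ascP p q r s t =
      ((p.trans q).trans r).extend ((1 - (s : ℝ)) * t + (s : ℝ) * phi t) := rfl

/-- the class of the associator -/
noncomputable def asc {x y z w : X} (p : Path x y) (q : Path y z) (r : Path z w) :
    Q2 ((p.trans q).trans r) (p.trans (q.trans r)) := Path.Homotopic.Quotient.mk (ascP p q r)

end cells

end Pool.Agent.Helper70.HH


end

/-! ## Helper70.BI.HH.StHB -/

section

/-!
# Project BI, stage 7 (H): statements, part B (calculus of 2-cells)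

Typed calculus: `Q2 p q` = homotopy classes of paths from `p` to `q` in the space `Path x y`; horizontal composition
`hc`, associator `asc`.  Untyped calculus: a 2-cell is a map `K : C(I × I, X)`, `K (s, t)`, with `K (·, 0)` and
`K (·, 1)` constant (`IsCell`).
-/

set_option autoImplicit false

open scoped Topology unitInterval
open Set

namespace Pool.Agent.Helper70.HH

/-- MODULE HL.  Functoriality of the horizontal composition.
Proof.  `Path.Homotopic.prod`, `Path.Homotopic.Quotient.map` are functorial: `Path.Homotopic.comp_prod_eq_prod_comp` (Mathlib, `Topology/Homotopy/Product.lean`), `Path.Homotopic.Quotient.map` of a `trans` (or: choose representatives, `hc_mk`; `hcP (γ.trans γ') (δ.trans δ')` and `(hcP γ δ).trans (hcP γ' δ')` are EQUAL as paths: both are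
`(γ (2s)).trans (δ (2s))` for `s ≤ 1/2` and `(γ' (2s-1)).trans (δ' (2s-1))` for `s > 1/2`, `Path.ext`, `Path.trans_apply`; `hcP (refl p) (refl q) = refl (p.trans q)`). -/
def StHL : Prop :=
  ∀ (X : Type) [TopologicalSpace X] (x y z : X),
    (∀ (p p' p'' : Path x y) (q q' q'' : Path y z) (α : Q2 p p') (α' : Q2 p' p'') (β : Q2 q q')
      (β' : Q2 q' q''), hc (α.trans α') (β.trans β') = (hc α β).trans (hc α' β')) ∧
    ∀ (p : Path x y) (q : Path y z),
      hc (Path.Homotopic.Quotient.refl p) (Path.Homotopic.Quotient.refl q) = Path.Homotopic.Quotient.refl (p.trans q)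

/-- MODULE CNV.  Two 2-cells which factor through the same map of a normed space are homotopic if the factorizations
agree on the boundary.
Proof.  `K (r, s) (t) = Φ ((1 - r) • h (s, t) + r • h' (s, t))` is a homotopy between the paths `γ` and `γ'` in `Path x y`: for fixed `(r, s)` a path from `x` to `y` (at `t = 0` and `t = 1` `h = h'` and `Φ (h (s, 0)) = γ s 0 = x`); continuity of `I × I → Path x y` with `Path.continuous_uncurry_iff`; for `s = 0`, `s = 1` it is `γ s`
(`Path.Homotopic` = existence of `Path.Homotopy` = `ContinuousMap.HomotopyRel`). -/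
def StCNV : Prop :=
  ∀ (X : Type) [TopologicalSpace X] (E : Type) [NormedAddCommGroup E] [NormedSpace ℝ E] (x y : X)
    (p q : Path x y) (γ γ' : Path p q) (Φ : C(E, X)) (h h' : C(I × I, E)),
    (∀ s t, γ s t = Φ (h (s, t))) → (∀ s t, γ' s t = Φ (h' (s, t))) →
    (∀ s t, (s = 0 ∨ s = 1 ∨ t = 0 ∨ t = 1) → h (s, t) = h' (s, t)) → γ.Homotopic γ'

/-- MODULE NAT.  Naturality of the associator.
Proof.  Choose representatives `γ`, `δ`, `ε` of `α`, `β`, `ε`.  `G : I × I → Path x w`, `G (s, u) = ascP (γ s) (δ s) (ε s) u`, is continuous (`Path.continuous_uncurry_iff`; `(s, u, t) ↦ (((γ s).trans (δ s)).trans (ε s)).extend ((1-u) t + u phi t)`; `Continuous.path_trans`, evaluation is continuous).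
`G (·, 0) = hcP (hcP γ δ) ε`, `G (1, ·) = ascP p' q' r'`, `G (0, ·) = ascP p q r`, `G (·, 1) = hcP γ (hcP δ ε)` (`phi_trans`, `Path.ext`).  In `I × I` the paths `(s, 0)` then `(1, u)` and `(0, u)` then `(s, 1)` are homotopic (straight line, convex); compose with `G`. -/
def StNAT : Prop :=
  ∀ (X : Type) [TopologicalSpace X] (x y z w : X) (p p' : Path x y) (q q' : Path y z)
    (r r' : Path z w) (α : Q2 p p') (β : Q2 q q') (ε : Q2 r r'),
    (hc (hc α β) ε).trans (asc p' q' r') = (asc p q r).trans (hc α (hc β ε))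

/-- MODULE PEN.  The pentagon.
Proof.  (from `StCNV`)  Let `Φ : C(ℝ, X)` be `(((p.trans q).trans r).trans s).extend`.  All five 2-cells have the form `Φ (g (σ, t))` with `g : I × I → ℝ` continuous (`g` with values in `[0,1]`), with `Path.extend_trans_of_le_half`, `Path.extend_trans_of_half_le`, `phi_trans`:
(1) `ascP (p.trans q) r s`: `g₁ (σ, t) = (1 - σ) t + σ phi t`.  (2) `ascP p q (r.trans s)`: `((p q)(r s)).extend u = Φ (phi u)`, so `g₂ (σ, t) = phi ((1 - σ) t + σ phi t)`.
(3) `hcP (ascP p q r) (refl s)`: for `t ≤ 1/2` it is `((p q) r).extend ((1-σ) 2t + σ phi (2t)) = Φ (((1-σ) 2t + σ phi (2t)) / 2)`, for `t ≥ 1/2`: `Φ t`: `g₃ = ((1-σ) 2 min(t,1/2) + σ phi (2 min(t,1/2))) / 2 + max (t - 1/2) 0`.  Let `k t = g₃ (1, t)`; `((p (q r)) s).extend t = Φ (k t)`.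
(4) `ascP p (q.trans r) s`: `g₄ (σ, t) = k ((1 - σ) t + σ phi t)`.  (5) `hcP (refl p) (ascP q r s)`: for `t ≤ 1/2` `p (2t) = Φ (t / 4)`, for `t ≥ 1/2` `((q r) s).extend u`, `u = (1-σ) (2t-1) + σ phi (2t-1)`; `((q r) s).extend u = Φ (j u)` with `j u = ` : `(p ((q r) s)).extend ((1+u)/2) = Φ (k (phi ((1+u)/2)))`.  So
`g₅ (σ, t) = k (phi (min t (1/2) + ((1-σ) (2t-1)⁺ + σ phi ((2t-1)⁺)) / 2))`, `(2t-1)⁺ = max (2t-1) 0` (for `t ≤ 1/2` this is `k (phi t)`, and `Φ (k (phi t)) = (p ((q r) s)).extend t = p (2t)`).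
The two sides are (classes of) concatenations of these cells; they factor through `Φ` by the concatenations of `g₁, g₂` and of `g₃, (g₄, g₅)` (continuous: `g₁ (1, t) = phi t = g₂ (0, t)`, `g₃ (1, t) = k t = g₄ (0, t)`, `g₄ (1, t) = k (phi t) = g₅ (0, t)`).  They agree for `σ = 0` (`t`) and for `t = 0`, `t = 1`.  For `σ = 1`: `g₂ (1, t) = phi (phi t)`
and `g₅ (1, t) = k (phi (ψ t))`, `ψ t = t` for `t ≤ 1/2`, `(1 + phi (2t - 1)) / 2` for `t ≥ 1/2`.  Claim: `phi (phi t) = k (phi (ψ t))` for `t ∈ [0,1]`: `t ≤ 1/2`: `t/4` and `k (t/2) = phi t / 2 = t/4`; `1/2 ≤ t ≤ 3/4`: `phi (t - 1/4) = (t-1/4)/2` and `ψ t = (1 + (2t-1)/2)/2 = t/2 + 1/4 ∈ [1/2, 5/8]`, `phi = t/2`, `k (t/2) = phi t / 2 = (t - 1/4)/2`;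
`3/4 ≤ t ≤ 7/8`: `phi (2t-1) = 2t - 1 - 1/4` (as `2t - 1 ≤ 3/4`) and `ψ t = (1 + 2t - 5/4)/2 = t - 1/8 ∈ [5/8, 3/4]`, `phi = t - 3/8 ∈ [3/8, 1/2]`, `k = phi (2t - 3/4)/2 = (4t - 3/2 - 1)/2 = 2t - 5/4`; `t ≥ 7/8`: `2 (2t-1) - 1 = 4t - 3` and `ψ t = (1 + 2(2t-1) - 1)/2 = 2t - 1 ≥ 3/4`, `phi = 4t - 3 ≥ 1/2`, `k = 4t - 3`. -/
def StPEN : Prop :=
  ∀ (X : Type) [TopologicalSpace X] (x y z w v : X) (p : Path x y) (q : Path y z) (r : Path z w)
    (s : Path w v),
    (asc (p.trans q) r s).trans (asc p q (r.trans s)) =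
      (hc (asc p q r) (Path.Homotopic.Quotient.refl s)).trans
        ((asc p (q.trans r) s).trans (hc (Path.Homotopic.Quotient.refl p) (asc q r s)))

/-! ## the cocycle -/

/-- properties of the class of closed 2-cells -/
structure IsCC (X : Type) [TopologicalSpace X] (M : Type) [AddCommGroup M]
    (cc : ∀ {x y : X} (p : Path x y), Q2 p p → M) : Prop where
  mul : ∀ {x y : X} (p : Path x y) (α β : Q2 p p), cc p (α.trans β) = cc p α + cc p β
  cyc : ∀ {x y : X} (p q : Path x y) (α : Q2 p q) (β : Q2 q p),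
    cc p (α.trans β) = cc q (β.trans α)
  hor : ∀ {x y z : X} (p : Path x y) (q : Path y z) (α : Q2 p p) (β : Q2 q q),
    cc (p.trans q) (hc α β) = cc p α + cc q β

/-- an additive function on 2-cells which extends the class of closed 2-cells -/
structure IsW (X : Type) [TopologicalSpace X] (M : Type) [AddCommGroup M]
    (cc : ∀ {x y : X} (p : Path x y), Q2 p p → M)
    (w : ∀ {x y : X} {p q : Path x y}, Q2 p q → M)
    (f : ∀ {x y z : X}, Path x y → Path y z → M) : Prop where
  add : ∀ {x y : X} {p q r : Path x y} (α : Q2 p q) (β : Q2 q r), w (α.trans β) = w α + w β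
  closed : ∀ {x y : X} (p : Path x y) (α : Q2 p p), w α = cc p α
  hor : ∀ {x y z : X} {p p' : Path x y} {q q' : Path y z} (α : Q2 p p') (β : Q2 q q'),
    w (hc α β) = w α + w β + f p' q' - f p q

/-- MODULE WEX.  Existence of `w` and `f`.
Proof (from `StHL`).  (A) Abstract lemma 1: let `Z` be a topological space (here `Path x y`), `c : ∀ p : Z, Path.Homotopic.Quotient p p → M` with `c p (α.trans β) = c p α + c p β` and `c p (α.trans β) = c q (β.trans α)` (`α : p → q`, `β : q → p`).  Then there is `w : ∀ p q : Z, Quotient p q → M` with `w (α.trans β) = w α + w β`, `w α = c p α` for closed `α`.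
Proof: `p ~ q` iff `Quotient p q` is nonempty (an equivalence relation on `Z`).  `ρ p` = the chosen representative of the class of `p` (`Quotient.out` of the class for the setoid), so `ρ p = ρ q` if `p ~ q`; choose `k p : Quotient p (ρ p)`.  For `α : Quotient p q` let `w α = c p (α.trans ((k q).trans ((k p).symm.cast ..)))`, where the cast uses `ρ p = ρ q`
(write `back p q (h : p ~ q) : Quotient q p := (k q).trans ((k p).symm.cast (ρ-equality) rfl)`; then for `p ~ q ~ r`: `back q r` then `back p q` = `back p r` [`(k r) (k q)⁻¹ (k q) (k p)⁻¹`; to deal with the casts prove: for `a b c : Z` with `a = b = c` .. by `subst` in an auxiliary lemma] and `back p p = refl`).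
`w (α β) = c p (α β (back p r)) = c p (α β (back q r) (back p q))`, and `α (β (back q r)) (back p q)`: let `μ = β (back q r) : q → q`, `ν = (back p q) α : q → q`; by `cyc` `c p ((α μ) (back p q)) = c q ((back p q) (α μ)) = c q (ν μ) = c q ν + c q μ = c q ((back p q) α) + w β = c p (α (back p q)) + w β = w α + w β`.  Closed: `back p p = refl`.
(B) Abstract lemma 2: if `u : ∀ p q : Z, Quotient p q → M` is additive and `u α = 0` for closed `α` then there is `g : Z → M` with `u α = g q - g p` (`g p = - u (k p)`: `u α = u (k p) - u (k q)` because `α (k q) (k p)⁻¹` is closed; casts as before).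
(C) Apply (A) to `Z = Path x y` for all `x`, `y` (`choose`).  For `x y z` apply (B) to `Z = Path x y × Path y z` and `u γ = w (map by trans) - w (first projection) - w (second projection)` (every class in the product is `Path.Homotopic.prod α β`, `Path.Homotopic.prod_projLeft_projRight`): additive by `StHL` and `w`, zero on closed ones by `cc.hor`.  `f p q = g (p, q)`. -/
def StWEX : Prop :=
  ∀ (X : Type) [TopologicalSpace X] (M : Type) [AddCommGroup M]
    (cc : ∀ {x y : X} (p : Path x y), Q2 p p → M), IsCC X M cc →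
    ∃ (w : ∀ {x y : X} {p q : Path x y}, Q2 p q → M) (f : ∀ {x y z : X}, Path x y → Path y z → M),
      IsW X M cc w f

/-- the 3-cocycle identity for a function of three composable classes of paths -/
def IsK (X : Type) [TopologicalSpace X] (M : Type) [AddCommGroup M]
    (κ : ∀ {x y z w : X}, Path.Homotopic.Quotient x y → Path.Homotopic.Quotient y z → Path.Homotopic.Quotient z w → M) : Prop :=
  ∀ {x y z w v : X} (g : Path.Homotopic.Quotient x y) (h : Path.Homotopic.Quotient y z) (k : Path.Homotopic.Quotient z w) (l : Path.Homotopic.Quotient w v),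
    κ h k l - κ (g.trans h) k l + κ g (h.trans k) l - κ g h (k.trans l) + κ g h k = 0

/-- MODULE KAP.  The cocycle.
Proof (from `StHL`, `StNAT`, `StPEN`).  `κ' p q r = w (asc p q r) - f q r - f p (q.trans r) + f p q + f (p.trans q) r`.  If `α : Q2 p p'`, `β : Q2 q q'`, `ε : Q2 r r'` then `κ' p q r = κ' p' q' r'`: apply `w` to `StNAT`: `w (hc (hc α β) ε) = w α + w β + f p' q' - f p q + w ε + f (p' q') r' - f (p q) r` and
`w (hc α (hc β ε)) = w α + (w β + w ε + f q' r' - f q r) + f p' (q' r') - f p (q r)`; `w` is additive.  Homotopic paths have a 2-cell between them (from a `Path.Homotopy`: `mkP`), so `κ g h k = κ' g.out h.out k.out` satisfies `κ (mk p) (mk q) (mk r) = κ' p q r` (`Quotient.mk_out`, `Path.Homotopic.Quotient.exact`).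
Cocycle identity: choose representatives, `mk p` trans `mk q` is `mk (p.trans q)`; apply `w` to `StPEN`: `w (hc (asc p q r) refl) = w (asc p q r) + 0 + f (p (q r)) s - f ((p q) r) s` (`w refl = 0` by additivity), `w (hc refl (asc q r s)) = w (asc q r s) + f p (q (r s)) - f p ((q r) s)`, and insert `w (asc ..) = κ + f + f - f - f`; all `f` cancel (`abel`/`linear_combination`). -/
def StKAP : Prop :=
  ∀ (X : Type) [TopologicalSpace X] (M : Type) [AddCommGroup M]
    (cc : ∀ {x y : X} (p : Path x y), Q2 p p → M)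
    (w : ∀ {x y : X} {p q : Path x y}, Q2 p q → M)
    (f : ∀ {x y z : X}, Path x y → Path y z → M), IsW X M cc w f →
    ∃ κ : ∀ {x y z w : X}, Path.Homotopic.Quotient x y → Path.Homotopic.Quotient y z → Path.Homotopic.Quotient z w → M, IsK X M κ ∧
      ∀ {x y z v : X} (p : Path x y) (q : Path y z) (r : Path z v),
        w (asc p q r) = κ (Path.Homotopic.Quotient.mk p) (Path.Homotopic.Quotient.mk q) (Path.Homotopic.Quotient.mk r) + f q r +
          f p (q.trans r) - f p q - f (p.trans q) r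

/-- MODULE COB.  A cocycle which is a coboundary at `y₀` is a coboundary.
Proof.  Choose `P x : Quotient y₀ x`; `ρ g = ((P x).trans g).trans (P y).symm : Quotient y₀ y₀` for `g : Quotient x y`; `ν x = (P x).symm : Quotient x y₀`; `g.trans (ν y) = (ν x).trans (ρ g)`, `ρ (g.trans h) = (ρ g).trans (ρ h)` (groupoid laws of `Path.Homotopic.Quotient`: `trans_assoc`, `symm_trans`, `trans_symm`, `refl_trans`, `trans_refl`).
`S g h = κ (ν x) (ρ g) (ρ h) - κ g (ν y) (ρ h) + κ g h (ν z)`.  The combination `D (ν x, ρ g, ρ h, ρ k) - D (g, ν y, ρ h, ρ k) + D (g, h, ν z, ρ k) - D (g, h, k, ν t)` of cocycle identities (`D (g, h, k, l)` = the identity in `IsK`) gives `κ (ρ g) (ρ h) (ρ k) - κ g h k = S h k - S (gh) k + S g (hk) - S g h` (rewrite `(ν x).trans (ρ g)` as `g.trans (ν y)` etc.).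
So `b' g h = b (ρ g) (ρ h) - S g h` works. -/
def StCOB : Prop :=
  ∀ (X : Type) [TopologicalSpace X] [PathConnectedSpace X] (y₀ : X) (V : Type) [AddCommGroup V]
    (κ : ∀ {x y z w : X}, Path.Homotopic.Quotient x y → Path.Homotopic.Quotient y z → Path.Homotopic.Quotient z w → V), IsK X V κ →
    ∀ b : Path.Homotopic.Quotient y₀ y₀ → Path.Homotopic.Quotient y₀ y₀ → V,
      (∀ g h k : Path.Homotopic.Quotient y₀ y₀, κ g h k = b h k - b (g.trans h) k + b g (h.trans k) - b g h) →
      ∃ b' : ∀ {x y z : X}, Path.Homotopic.Quotient x y → Path.Homotopic.Quotient y z → V,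
        ∀ {x y z w : X} (g : Path.Homotopic.Quotient x y) (h : Path.Homotopic.Quotient y z) (k : Path.Homotopic.Quotient z w),
          κ g h k = b' h k - b' (g.trans h) k + b' g (h.trans k) - b' g h

/-! ## the untyped calculus -/

/-- `t ↦ t / 2` -/
noncomputable def hl : C(I, I) :=
  ⟨fun t => ⟨(t : ℝ) / 2, by constructor <;> linarith [t.2.1, t.2.2]⟩, by fun_prop⟩

/-- `t ↦ (1 + t) / 2` -/
noncomputable def hr : C(I, I) :=
  ⟨fun t => ⟨(1 + (t : ℝ)) / 2, by constructor <;> linarith [t.2.1, t.2.2]⟩, by fun_prop⟩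

theorem phi_mem (t : I) : phi t ∈ I := by
  have h0 := t.2.1
  have h1 := t.2.2
  unfold phi
  split_ifs with h h' <;> constructor <;> linarith

/-- the reparametrization as a map of the unit interval -/
noncomputable def phiI : C(I, I) :=
  ⟨fun t => ⟨phi t, phi_mem t⟩, (continuous_phi.comp continuous_subtype_val).subtype_mk _⟩

/-- the point `1/2` -/
noncomputable def mid : I := ⟨1 / 2, by constructor <;> norm_num⟩

section

variable {X : Type} [TopologicalSpace X]

/-- 2-cells -/
def IsCell (K : C(I × I, X)) : Prop := ∀ s : I, K (s, 0) = K (0, 0) ∧ K (s, 1) = K (0, 1)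

/-- the path `t ↦ K (s, t)` -/
def row (K : C(I × I, X)) (s : I) : C(I, X) := ⟨fun t => K (s, t), by fun_prop⟩

/-- `K (s / 2, t)` -/
noncomputable def lowS (K : C(I × I, X)) : C(I × I, X) := ⟨fun z => K (hl z.1, z.2), by fun_prop⟩

/-- `K ((1 + s) / 2, t)` -/
noncomputable def upS (K : C(I × I, X)) : C(I × I, X) := ⟨fun z => K (hr z.1, z.2), by fun_prop⟩

/-- `K (s, t / 2)` -/
noncomputable def lowT (K : C(I × I, X)) : C(I × I, X) := ⟨fun z => K (z.1, hl z.2), by fun_prop⟩

/-- `K (s, (1 + t) / 2)` -/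
noncomputable def upT (K : C(I × I, X)) : C(I × I, X) := ⟨fun z => K (z.1, hr z.2), by fun_prop⟩

/-- the 2-cell `R ((1 - s) t + s phi t)` -/
noncomputable def ascU (R : C(I, X)) : C(I × I, X) :=
  ⟨fun z => R ⟨(1 - (z.1 : ℝ)) * z.2 + (z.1 : ℝ) * (phiI z.2 : ℝ), by
    constructor
    · nlinarith [z.1.2.1, z.1.2.2, z.2.2.1, z.2.2.2, (phiI z.2).2.1, (phiI z.2).2.2]
    · nlinarith [z.1.2.1, z.1.2.2, z.2.2.1, z.2.2.2, (phiI z.2).2.1, (phiI z.2).2.2]⟩, by
    have h : Continuous fun z : I × I => ((phiI z.2 : I) : ℝ) :=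
      continuous_subtype_val.comp (phiI.continuous.comp continuous_snd)
    refine R.continuous.comp (Continuous.subtype_mk ?_ _)
    fun_prop⟩

end

/-- The untyped calculus: `w` is defined on 2-cells, `v R` is the value of `f` on the two halves of the path `R`. -/
structure IsU (X : Type) [TopologicalSpace X] (V : Type) [AddCommGroup V] (w : C(I × I, X) → V)
    (v : C(I, X) → V) : Prop where
  vert : ∀ K, IsCell K → w K = w (lowS K) + w (upS K)
  hor : ∀ K, IsCell K → (∀ s, K (s, mid) = K (0, mid)) →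
    w K = w (lowT K) + w (upT K) + v (row K 1) - v (row K 0)
  hom : ∀ (K K' : C(I × I, X)) (L : C(I × (I × I), X)), IsCell K → (∀ z, L (0, z) = K z) →
    (∀ z, L (1, z) = K' z) →
    (∀ r s t, (s = 0 ∨ s = 1 ∨ t = 0 ∨ t = 1) → L (r, (s, t)) = L (0, (s, t))) → w K = w K'
  assoc : ∀ R : C(I, X), w (ascU R) = v ((R.comp phiI).comp hr) + v (R.comp phiI) - v (R.comp hl) -
    v R

/-- MODULE UNT.  From the typed to the untyped calculus.
Proof.  `v R = f P Q` with `P : Path (R 0) (R mid)`, `P t = R (t / 2)`, `Q : Path (R mid) (R 1)`, `Q t = R ((1 + t)/2)`.  For a 2-cell `K`: `toP K hK : Path (row K 0) (row K 1)` (as points of `Path (K (0,0)) (K (0,1))`, with `mkP`), `w K = w (mk (toP K hK))`, and `0` if `K` is not a cell.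
(A) Congruence: if `γ : Path p q` (`p q : Path x y`) and `K (s, t) = γ s t` for all `s`, `t` then `K` is a cell and `w K = w (mk γ)`: `x = K (0,0)`, `y = K (0,1)`: `subst` (state it with `x`, `y` variables), then `p`, `q` are equal to the rows (`Path.ext`), `subst`, then `γ = toP K hK`.  In the same way `v R = f P Q` if `P : Path x y`, `Q : Path y z` and
`R t = (P.trans Q) t` (or: `P t = R (t/2)`, `Q t = R ((1+t)/2)`).
(B) `vert`: `K = (toP (lowS K)).trans (toP (upS K))` pointwise: represent `lowS K` and `upS K` by typed cells with the same end points (the row `1` of `lowS K` is the row `0` of `upS K` = `row K mid`); `w.add`.  (C) `hor`: `K (s, t) = hcP γ δ s t` with `γ s t = K (s, t/2)`, `δ s t = K (s, (1+t)/2)`; `IsW.hor`; `v (row K i) = f (γ i) (δ i)`.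
(D) `hom`: `L` gives a homotopy of paths in `Path x y` (`Path.continuous_uncurry_iff`), so the classes are equal.  (E) `assoc`: `R` is `((p.trans q).trans r)` with `p t = R (t/4)`, `q t = R ((1+t)/4)`, `r t = R ((1+t)/2)`; `ascU R` is represented by `ascP p q r`; `R.comp phiI` is `p.trans (q.trans r)` (`phi_trans`), `(R.comp phiI).comp hr` is `q.trans r`, `R.comp hl` is `p.trans q`. -/
def StUNT : Prop :=
  ∀ (X : Type) [TopologicalSpace X] (V : Type) [AddCommGroup V]
    (w : ∀ {x y : X} {p q : Path x y}, Q2 p q → V) (f : ∀ {x y z : X}, Path x y → Path y z → V),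
    (∀ {x y : X} {p q r : Path x y} (α : Q2 p q) (β : Q2 q r), w (α.trans β) = w α + w β) →
    (∀ {x y z : X} {p p' : Path x y} {q q' : Path y z} (α : Q2 p p') (β : Q2 q q'),
      w (hc α β) = w α + w β + f p' q' - f p q) →
    (∀ {x y z v : X} (p : Path x y) (q : Path y z) (r : Path z v),
      w (asc p q r) = f q r + f p (q.trans r) - f p q - f (p.trans q) r) →
    ∃ (w' : C(I × I, X) → V) (v' : C(I, X) → V), IsU X V w' v' ∧
      ∀ {x y : X} {p q : Path x y} (γ : Path p q), w' (raw γ) = w (Path.Homotopic.Quotient.mk γ)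

end Pool.Agent.Helper70.HH


end

/-! ## Helper70.BI.HH.StHC -/

section

/-!
# Project BI, stage 7 (H): statements, part C (a 2-cocycle on squares)
-/

set_option autoImplicit false

open scoped Topology unitInterval
open Set

namespace Pool.Agent.Helper70.HH

section

variable {X : Type} [TopologicalSpace X]

/-! ## linear 2-cells in a normed space -/

/-- the 2-cell `(1 - s) p t + s q t` -/
noncomputable def lnm {E : Type} [NormedAddCommGroup E] [NormedSpace ℝ E] (p q : C(I, E)) :
    C(I × I, E) :=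
  ⟨fun z => (1 - (z.1 : ℝ)) • p z.2 + (z.1 : ℝ) • q z.2, by fun_prop⟩

/-- `p` and `q` have the same ends -/
def Same {E : Type} [TopologicalSpace E] (p q : C(I, E)) : Prop := p 0 = q 0 ∧ p 1 = q 1

/-- MODULE WWL.  Laws for linear 2-cells.
Proof.  Write `W p q = w (Φ.comp (lnm p q))`; this is a cell if `Same p q`.
(0) `CONV`: if `h h' : C(I × I, E)` agree on the boundary and `Φ.comp h` is a cell then `w (Φ.comp h) = w (Φ.comp h')` (`IsU.hom` with `L (r, z) = Φ ((1 - r) • h z + r • h' z)`).
(5) `W p p = 0`: `K = Φ.comp (lnm p p)`, `K (s, t) = Φ (p t)`, `lowS K = K = upS K` so `w K = w K + w K`.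
(1) Let `h (s, t) = lnm p q (2s, t)` for `s ≤ 1/2`, `lnm q r (2s - 1, t)` for `s ≥ 1/2`.  `K = Φ.comp h`: `lowS K = Φ.comp (lnm p q)`, `upS K = Φ.comp (lnm q r)`; `h` and `lnm p r` agree on the boundary (`s = 0`: `p t`, `s = 1`: `r t`; `t = 0`, `t = 1`: constant, all the same): `W p r = w K = W p q + W q r`.
(2) `K = Φ.comp (lnm p q)`: `K (s, mid) = Φ (p mid)` constant; `lowT K = Φ.comp (lnm (p.comp hl) (q.comp hl))`, `upT` similar, `row K 0 = Φ.comp p`, `row K 1 = Φ.comp q` (`ContinuousMap.ext`): `IsU.hor`.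
(3) `ascU (Φ.comp R) = Φ.comp h` with `h (s, t) = R ((1-s) t + s phi t)` which agrees with `lnm R (R.comp phiI)` on the boundary (`s = 0`: `R t`; `s = 1`: `R (phi t)`; `t = 0`: `R 0` as `phi 0 = 0`; `t = 1`: `R 1`): `IsU.assoc` and (0).
(4) `Φ.comp (ι.comp (lnm p q)) = Φ.comp (lnm (ι.comp p) (ι.comp q))` because `ι` is affine. -/
def StWWL : Prop :=
  ∀ (X : Type) [TopologicalSpace X] (V : Type) [AddCommGroup V] (w : C(I × I, X) → V)
    (v : C(I, X) → V), IsU X V w v →
    ∀ (E : Type) [NormedAddCommGroup E] [NormedSpace ℝ E] (Φ : C(E, X)),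
      (∀ h h' : C(I × I, E), IsCell (Φ.comp h) →
        (∀ s t, (s = 0 ∨ s = 1 ∨ t = 0 ∨ t = 1) → h (s, t) = h' (s, t)) →
        w (Φ.comp h) = w (Φ.comp h')) ∧
      (∀ p q r : C(I, E), Same p q → Same q r →
        w (Φ.comp (lnm p r)) = w (Φ.comp (lnm p q)) + w (Φ.comp (lnm q r))) ∧
      (∀ p q : C(I, E), Same p q → p mid = q mid →
        w (Φ.comp (lnm p q)) = w (Φ.comp (lnm (p.comp hl) (q.comp hl))) +
          w (Φ.comp (lnm (p.comp hr) (q.comp hr))) + v (Φ.comp q) - v (Φ.comp p)) ∧
      (∀ R : C(I, E), w (Φ.comp (lnm R (R.comp phiI))) =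
        v (Φ.comp ((R.comp phiI).comp hr)) + v (Φ.comp (R.comp phiI)) - v (Φ.comp (R.comp hl)) -
          v (Φ.comp R)) ∧
      (∀ p : C(I, E), w (Φ.comp (lnm p p)) = 0)

/-! ## squares -/

/-- bottom side, then right side of the square: `(min 1 (2t), max 0 (2t - 1))` -/
noncomputable def brm : C(I, I × I) :=
  ⟨fun t => (⟨min 1 (2 * (t : ℝ)), by
      constructor
      · exact le_min zero_le_one (by linarith [t.2.1])
      · exact min_le_left _ _⟩,
    ⟨max 0 (2 * (t : ℝ) - 1), by
      constructor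
      · exact le_max_left _ _
      · exact max_le zero_le_one (by linarith [t.2.2])⟩), by fun_prop⟩

/-- left side, then top side: `(max 0 (2t - 1), min 1 (2t))` -/
noncomputable def ltm : C(I, I × I) := ⟨fun t => (brm t).swap, by fun_prop⟩

/-- the 2-cell from `brm` to `ltm` in the square -/
noncomputable def cellm : C(I × I, I × I) :=
  ⟨fun z => (⟨(1 - (z.1 : ℝ)) * (brm z.2).1 + (z.1 : ℝ) * (brm z.2).2, by
      constructor
      · nlinarith [z.1.2.1, z.1.2.2, (brm z.2).1.2.1, (brm z.2).2.2.1, (brm z.2).1.2.2,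
          (brm z.2).2.2.2]
      · nlinarith [z.1.2.1, z.1.2.2, (brm z.2).1.2.1, (brm z.2).2.2.1, (brm z.2).1.2.2,
          (brm z.2).2.2.2]⟩,
    ⟨(1 - (z.1 : ℝ)) * (brm z.2).2 + (z.1 : ℝ) * (brm z.2).1, by
      constructor
      · nlinarith [z.1.2.1, z.1.2.2, (brm z.2).1.2.1, (brm z.2).2.2.1, (brm z.2).1.2.2,
          (brm z.2).2.2.2]
      · nlinarith [z.1.2.1, z.1.2.2, (brm z.2).1.2.1, (brm z.2).2.2.1, (brm z.2).1.2.2,
          (brm z.2).2.2.2]⟩), by fun_prop⟩

/-- the value of a square -/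
noncomputable def aa {V : Type} [AddCommGroup V] (w : C(I × I, X) → V) (v : C(I, X) → V)
    (S : C(I × I, X)) : V :=
  w (S.comp cellm) + v (S.comp brm) - v (S.comp ltm)

/-- the sides of a square: bottom `y = 0`, top `y = 1`, left `x = 0`, right `x = 1` -/
def botm : C(I, I × I) := ⟨fun x => (x, 0), by fun_prop⟩
def topm : C(I, I × I) := ⟨fun x => (x, 1), by fun_prop⟩
def lefm : C(I, I × I) := ⟨fun y => (0, y), by fun_prop⟩
def rigm : C(I, I × I) := ⟨fun y => (1, y), by fun_prop⟩

/-- the faces of a cube -/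
def fx (c : I) : C(I × I, I × (I × I)) := ⟨fun z => (c, (z.1, z.2)), by fun_prop⟩
def fy (c : I) : C(I × I, I × (I × I)) := ⟨fun z => (z.1, (c, z.2)), by fun_prop⟩
def fz (c : I) : C(I × I, I × (I × I)) := ⟨fun z => (z.1, (z.2, c)), by fun_prop⟩

/-- A 2-cochain `a` on squares which vanishes on boundaries of cubes and is compatible with bisection. -/
structure IsCoc (X : Type) [TopologicalSpace X] (V : Type) [AddCommGroup V] (a : C(I × I, X) → V)
    (v : C(I, X) → V) : Prop where
  cube : ∀ C : C(I × (I × I), X), a (C.comp (fx 1)) - a (C.comp (fx 0)) -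
    (a (C.comp (fy 1)) - a (C.comp (fy 0))) + (a (C.comp (fz 1)) - a (C.comp (fz 0))) = 0
  sdh : ∀ S : C(I × I, X), a S = a (lowS S) + a (upS S) + v (S.comp topm) - v (S.comp botm)
  sdv : ∀ S : C(I × I, X), a S = a (lowT S) + a (upT S) + v (S.comp lefm) - v (S.comp rigm)

/-- MODULE CUB.  The value of squares vanishes on the boundary of a cube.
Proof (from `StWWL`).  `E = ℝ × ℝ × ℝ`, `Φ = C ∘ clamp : C(E, X)` (`projIcc 0 1` in each coordinate).  For points `P₀ P₁ P₂ ∈ E` let `sg P₀ P₁` = the linear path, `s2 P₀ P₁ P₂` = `P₀ → P₁ → P₂` (`t ≤ 1/2`: `P₀ + 2t (P₁ - P₀)`; then `P₁ + (2t - 1) (P₂ - P₁)`), and for `p q : C(I, E)` with `p 1 = q 0` `ct p q` = the concatenation: `(ct p q).comp hl = p`, `(ct p q).comp hr = q`, `ct (sg ..) (sg ..) = s2`.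
Write `W p q = w (Φ.comp (lnm p q))`, `v p = v (Φ.comp p)`.  Laws: (W1) `W p r = W p q + W q r`; (W2) `W (ct p q) (ct p' q') = W p p' + W q q' + v (ct p' q') - v (ct p q)`; (W3) `W (ct (s2 a b c) (sg c d)) (ct (sg a b) (s2 b c d)) = v (s2 b c d) + v (ct (sg a b) (s2 b c d)) - v (s2 a b c) - v (ct (s2 a b c) (sg c d))`
(`(ct (s2 a b c) (sg c d)).comp phiI = ct (sg a b) (s2 b c d)`); (W5) `W p p = 0`, `W q p = - W p q`.
For a face with corners `A = (0,0)`, `B = (1,0)`, `B' = (0,1)`, `D = (1,1)` (coordinates of the square, mapped to the cube) `aa w v (face) = W (s2 A B D) (s2 A B' D) + v (s2 A B D) - v (s2 A B' D)` (`Φ ∘ s2 A B D = face ∘ brm`, `Φ ∘ lnm .. = face ∘ cellm`: equality of maps).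
Vertices `000` etc.  `P₁ = ct (s2 000 100 110) (sg 110 111)`, `P₂ = ct (sg 000 100) (s2 100 110 111)`, `P₃ = ct (sg 000 100) (s2 100 101 111)`, `P₄ = ct (s2 000 100 101) (sg 101 111)`, `P₅ = ct (s2 000 001 101) (sg 101 111)`, `P₆ = ct (sg 000 001) (s2 001 101 111)`, `P₇ = ct (sg 000 001) (s2 001 011 111)`;
`Q₂ = ct (s2 000 010 110) (sg 110 111)`, `Q₃ = ct (sg 000 010) (s2 010 110 111)`, `Q₄ = ct (sg 000 010) (s2 010 011 111)`, `Q₅ = ct (s2 000 010 011) (sg 011 111)`, `Q₆ = ct (s2 000 001 011) (sg 011 111)`, and `Q₇ = P₇ = ct (sg 000 001) (s2 001 011 111)`.  `W P₁ P₇` by (W1) along `P₁ .. P₇` and along `P₁, Q₂, .., Q₆, P₇`: steps `P₂ → P₃` (face `x = 1`), `P₄ → P₅`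
(face `y = 0`), `P₆ → P₇` (face `z = 1`), `P₁ → Q₂` (face `z = 0`), `Q₃ → Q₄` (face `y = 1`), `Q₅ → Q₆` (face `x = 0`) by (W2), (W5), the other steps by (W3) or its inverse.  The resulting identity is the claim (`linear_combination`; all `v` terms cancel). -/
def StCUB : Prop :=
  ∀ (X : Type) [TopologicalSpace X] (V : Type) [AddCommGroup V] (w : C(I × I, X) → V)
    (v : C(I, X) → V), IsU X V w v → ∀ C : C(I × (I × I), X),
      aa w v (C.comp (fx 1)) - aa w v (C.comp (fx 0)) -
        (aa w v (C.comp (fy 1)) - aa w v (C.comp (fy 0))) +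
        (aa w v (C.comp (fz 1)) - aa w v (C.comp (fz 0))) = 0

/-- MODULE BIS.  The value of squares and bisection.
Proof (from `StWWL`; notation of module CUB with `E = ℝ × ℝ`, `Φ = S ∘ clamp`).  (H) Points `A = (0,0)`, `M = (1/2,0)`, `B = (1,0)`, `A' = (0,1)`, `M' = (1/2,1)`, `B' = (1,1)`.  Note `sg A B = ct (sg A M) (sg M B)`, `sg A' B' = ct (sg A' M') (sg M' B')`.
`R₁ = ct (s2 A M B) (sg B B') = s2 A B B'`, `R₂ = ct (sg A M) (s2 M B B')`, `R₃ = ct (sg A M) (s2 M M' B')`, `R₄ = ct (s2 A M M') (sg M' B')`, `R₅ = ct (s2 A A' M') (sg M' B')`, `R₆ = ct (sg A A') (s2 A' M' B') = s2 A A' B'`.  `W R₁ R₆` = sum of the steps: (W3), face `upS S` (right half), inverse of (W3), face `lowS S` (left half), (W3); `linear_combination`: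
`aa S = aa (lowS S) + aa (upS S) + v (s2 A' M' B') - v (s2 A M B)`, where `Φ ∘ s2 A' M' B' = S ∘ topm`, `Φ ∘ s2 A M B = S ∘ botm`.
(V) Points `A = (0,0)`, `N = (0,1/2)`, `A' = (0,1)`, `B = (1,0)`, `N' = (1,1/2)`, `B' = (1,1)`.  `T₁ = s2 A B B' = ct (sg A B) (s2 B N' B')`, `T₂ = ct (s2 A B N') (sg N' B')`, `T₃ = ct (s2 A N N') (sg N' B')`, `T₄ = ct (sg A N) (s2 N N' B')`, `T₅ = ct (sg A N) (s2 N A' B')`, `T₆ = ct (s2 A N A') (sg A' B') = s2 A A' B'`.
Steps: inverse of (W3), face `lowT S`, (W3), face `upT S`, inverse of (W3). -/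
def StBIS : Prop :=
  ∀ (X : Type) [TopologicalSpace X] (V : Type) [AddCommGroup V] (w : C(I × I, X) → V)
    (v : C(I, X) → V), IsU X V w v → ∀ S : C(I × I, X),
      aa w v S = aa w v (lowS S) + aa w v (upS S) + v (S.comp topm) - v (S.comp botm) ∧
      aa w v S = aa w v (lowT S) + aa w v (upT S) + v (S.comp lefm) - v (S.comp rigm)

/-- MODULE BDC.  The value of a square which is constant on the boundary.
Proof.  `S` is `y` on the boundary.  `v (S.comp brm) = v (S.comp ltm)` (both maps are constant `y`).  Let `Φ : C(ℝ × ℝ, X)`, `Φ = S ∘ clamp`: `Φ z = y` if `z` is not in the open square `(0,1)²`.  `c = (1/2, 1/2)`.  Both `S.comp cellm = Φ ∘ ψ` with `ψ = cellm` and the transposed square `Φ ∘ ψ'`, `ψ' (s, t) = (t, s)`.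
`ψ` and `ψ'` map the boundary of the square to its boundary (`ψ (0, t) = brm t`, `ψ (1, t) = ltm t`, `ψ (s, 0) = (0,0)`, `ψ (s, 1) = (1,1)`).  Put `ψ_λ = c + λ (ψ - c)`, same for `ψ'`.  Three steps with `IsU.hom` (the homotopies are `y` on the boundary): (a) `Φ ∘ ψ_λ`, `λ ∈ [1, 3]` (boundary values outside the open square, as `|ψ - c|_∞ = 1/2` there);
(b) `Φ ∘ ((1 - u) ψ_3 + u ψ'_3)`: on the boundary one needs `|(1 - u) (ψ - c) + u (ψ' - c)|_∞ ≥ 1/6`.  `s = 0`: `ψ' = (t, 0)`, `ψ = (min 1 (2t), max 0 (2t-1))`: for `t ≤ 1/2` second coordinate `0 - 1/2`.  For `t ≥ 1/2` the point is `(1 - u + u t, (1 - u) (2t - 1))`: if `(1-u)(2t-1) ≤ 1/3` the second coordinate minus `1/2` is `≤ -1/6`; otherwise `1 - u > 1/3`, `2t - 1 > 1/3`, so `u < 2/3`,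
`1 - t < 1/3`, `u (1 - t) < 2/9` and the first coordinate minus `1/2` is `1/2 - u (1 - t) ≥ 5/18`.  `s = 1`: swap the coordinates and use the symmetry (`ψ (1, t) = (max 0 (2t-1), min 1 (2t))`, `ψ' (1, t) = (t, 1)`): for `t ≥ 1/2` second coordinate `1`; for `t ≤ 1/2` the point is `(u t, (1-u) 2t + u)`: if `(1-u) 2t + u ≥ 2/3` fine; otherwise `u < 2/3` and `t < 1/3` so `u t < 2/9 < 1/3`: first coordinate minus `1/2 ≤ -1/6`.
`t = 0`: `ψ = (0,0)`, `ψ' = (0, s)`: first coordinate `0`.  `t = 1`: `ψ = (1,1)`, `ψ' = (1, s)`: first coordinate `1`.  (c) back from `ψ'_3` to `ψ'`. -/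
def StBDC : Prop :=
  ∀ (X : Type) [TopologicalSpace X] (V : Type) [AddCommGroup V] (w : C(I × I, X) → V)
    (v : C(I, X) → V), IsU X V w v → ∀ (S T : C(I × I, X)) (y : X),
      (∀ s t, (s = 0 ∨ s = 1 ∨ t = 0 ∨ t = 1) → S (s, t) = y) → (∀ s t, T (s, t) = S (t, s)) →
      aa w v S = w T

end

end Pool.Agent.Helper70.HH


end

/-! ## Helper2.BI7.M_UNT -/

section

/-!
# Project BI, stage 7 (H), module UNT: from the typed to the untyped calculus
-/

set_option autoImplicit false

open scoped Topology unitInterval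
open Set

namespace Pool.Agent.Helper70.HH

namespace UNT

theorem hl0 : hl 0 = 0 := by
  apply Subtype.ext
  show ((0 : I) : ℝ) / 2 = ((0 : I) : ℝ)
  rw [Icc.coe_zero]
  norm_num

theorem hl1 : hl 1 = mid := by
  apply Subtype.ext
  show ((1 : I) : ℝ) / 2 = 1 / 2
  rw [Icc.coe_one]

theorem hr0 : hr 0 = mid := by
  apply Subtype.ext
  show (1 + ((0 : I) : ℝ)) / 2 = 1 / 2
  rw [Icc.coe_zero]
  norm_num

theorem hr1 : hr 1 = 1 := by
  apply Subtype.ext
  show (1 + ((1 : I) : ℝ)) / 2 = ((1 : I) : ℝ)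
  rw [Icc.coe_one]
  norm_num

/-- two functions on the interval which agree on both halves are equal -/
theorem halves {Y : Type} (F G : I → Y) (h1 : ∀ u, F (hl u) = G (hl u))
    (h2 : ∀ u, F (hr u) = G (hr u)) (t : I) : F t = G t := by
  by_cases h : (t : ℝ) ≤ 1 / 2
  · have ht : t = hl ⟨2 * (t : ℝ), ⟨by linarith [t.2.1], by linarith⟩⟩ := by
      apply Subtype.ext
      show (t : ℝ) = 2 * (t : ℝ) / 2
      ring
    rw [ht]
    exact h1 _
  · have ht : t = hr ⟨2 * (t : ℝ) - 1, ⟨by linarith, by linarith [t.2.2]⟩⟩ := by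
      apply Subtype.ext
      show (t : ℝ) = (1 + (2 * (t : ℝ) - 1)) / 2
      ring
    rw [ht]
    exact h2 _

variable {X : Type} [TopologicalSpace X]

theorem ext_eq {x y : X} (P : Path x y) (t : I) : P.extend (t : ℝ) = P t :=
  Path.extend_apply _ t.2

theorem trl {x y z : X} (P : Path x y) (Q : Path y z) (t : I) : (P.trans Q) (hl t) = P t := by
  rw [← ext_eq, ← ext_eq P]
  show (P.trans Q).extend ((t : ℝ) / 2) = _
  rw [Path.extend_trans_of_le_half _ _ (by linarith [t.2.2] : (t : ℝ) / 2 ≤ 1 / 2)]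
  congr 1
  ring

theorem trr {x y z : X} (P : Path x y) (Q : Path y z) (t : I) : (P.trans Q) (hr t) = Q t := by
  rw [← ext_eq, ← ext_eq Q]
  show (P.trans Q).extend ((1 + (t : ℝ)) / 2) = _
  rw [Path.extend_trans_of_half_le _ _ (by linarith [t.2.1] : 1 / 2 ≤ (1 + (t : ℝ)) / 2)]
  congr 1
  ring

section uniq

variable {V : Type}

theorem uniqW (w : ∀ {x y : X} {p q : Path x y}, Q2 p q → V) {x y x' y' : X} {p q : Path x y}
    {p' q' : Path x' y'} (γ : Path p q) (γ' : Path p' q') (h : ∀ s t, γ s t = γ' s t) :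
    w (Path.Homotopic.Quotient.mk γ) = w (Path.Homotopic.Quotient.mk γ') := by
  have hx : x = x' := by
    have := h 0 0
    rw [γ.source, γ'.source, p.source, p'.source] at this
    exact this
  have hy : y = y' := by
    have := h 0 1
    rw [γ.source, γ'.source, p.target, p'.target] at this
    exact this
  subst hx
  subst hy
  have hp : p = p' := by
    apply Path.ext
    funext t
    have := h 0 t
    rw [γ.source, γ'.source] at this
    exact this
  have hq : q = q' := by
    apply Path.ext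
    funext t
    have := h 1 t
    rw [γ.target, γ'.target] at this
    exact this
  subst hp
  subst hq
  have hγ : γ = γ' := by
    apply Path.ext
    funext s
    apply Path.ext
    funext t
    exact h s t
  rw [hγ]

theorem uniqF (f : ∀ {x y z : X}, Path x y → Path y z → V) {x y z x' y' z' : X} (P : Path x y)
    (Q : Path y z) (P' : Path x' y') (Q' : Path y' z')
    (h : ∀ t, (P.trans Q) t = (P'.trans Q') t) : f P Q = f P' Q' := by
  have hP : ∀ t, P t = P' t := fun t => by rw [← trl P Q, h, trl]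
  have hQ : ∀ t, Q t = Q' t := fun t => by rw [← trr P Q, h, trr]
  have hx : x = x' := by
    have := hP 0
    rw [P.source, P'.source] at this
    exact this
  have hy : y = y' := by
    have := hP 1
    rw [P.target, P'.target] at this
    exact this
  have hz : z = z' := by
    have := hQ 1
    rw [Q.target, Q'.target] at this
    exact this
  subst hx
  subst hy
  subst hz
  have h1 : P = P' := Path.ext (funext hP)
  have h2 : Q = Q' := Path.ext (funext hQ)
  rw [h1, h2]

/-- a typed representative of a square -/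
def HasW (K : C(I × I, X)) : Prop :=
  ∃ (x y : X) (p q : Path x y) (γ : Path p q), ∀ s t, γ s t = K (s, t)

/-- a typed representative of a path -/
def HasF (R : C(I, X)) : Prop :=
  ∃ (x y z : X) (P : Path x y) (Q : Path y z), ∀ t, (P.trans Q) t = R t

variable [AddCommGroup V]

open Classical in
/-- the value of a square -/
noncomputable def W (w : ∀ {x y : X} {p q : Path x y}, Q2 p q → V) (K : C(I × I, X)) : V :=
  if h : HasW K then
    w (Path.Homotopic.Quotient.mk h.choose_spec.choose_spec.choose_spec.choose_spec.choose)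
  else 0

open Classical in
/-- the value of a path -/
noncomputable def F (f : ∀ {x y z : X}, Path x y → Path y z → V) (R : C(I, X)) : V :=
  if h : HasF R then f h.choose_spec.choose_spec.choose_spec.choose
    h.choose_spec.choose_spec.choose_spec.choose_spec.choose
  else 0

theorem W_eq (w : ∀ {x y : X} {p q : Path x y}, Q2 p q → V) (K : C(I × I, X)) {x y : X}
    {p q : Path x y} (γ : Path p q) (h : ∀ s t, γ s t = K (s, t)) :
    W w K = w (Path.Homotopic.Quotient.mk γ) := by
  have hK : HasW K := ⟨x, y, p, q, γ, h⟩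
  unfold W
  rw [dif_pos hK]
  apply uniqW
  intro s t
  rw [hK.choose_spec.choose_spec.choose_spec.choose_spec.choose_spec s t, h]

theorem F_eq (f : ∀ {x y z : X}, Path x y → Path y z → V) (R : C(I, X)) {x y z : X}
    (P : Path x y) (Q : Path y z) (h : ∀ t, (P.trans Q) t = R t) : F f R = f P Q := by
  have hR : HasF R := ⟨x, y, z, P, Q, h⟩
  unfold F
  rw [dif_pos hR]
  apply uniqF
  intro t
  rw [hR.choose_spec.choose_spec.choose_spec.choose_spec.choose_spec t, h]

end uniq

/-- the rows of a cell -/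
def rowP (K : C(I × I, X)) (hK : IsCell K) (s : I) : Path (K (0, 0)) (K (0, 1)) where
  toFun t := K (s, t)
  continuous_toFun := by fun_prop
  source' := (hK s).1
  target' := (hK s).2

/-- the path `t ↦ K (s, hl t)` -/
noncomputable def rowL (K : C(I × I, X)) (hK : IsCell K) (hm : ∀ s, K (s, mid) = K (0, mid))
    (s : I) : Path (K (0, 0)) (K (0, mid)) where
  toFun t := K (s, hl t)
  continuous_toFun := by fun_prop
  source' := by rw [hl0]; exact (hK s).1
  target' := by rw [hl1]; exact hm s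

/-- the path `t ↦ K (s, hr t)` -/
noncomputable def rowR (K : C(I × I, X)) (hK : IsCell K) (hm : ∀ s, K (s, mid) = K (0, mid))
    (s : I) : Path (K (0, mid)) (K (0, 1)) where
  toFun t := K (s, hr t)
  continuous_toFun := by fun_prop
  source' := by rw [hr0]; exact hm s
  target' := by rw [hr1]; exact (hK s).2

/-- a path from a continuous map of the interval -/
def ofM (R : C(I, X)) {x y : X} (h0 : R 0 = x) (h1 : R 1 = y) : Path x y where
  toFun := R
  continuous_toFun := R.continuous
  source' := h0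
  target' := h1

theorem main (V : Type) [AddCommGroup V]
    (w : ∀ {x y : X} {p q : Path x y}, Q2 p q → V) (f : ∀ {x y z : X}, Path x y → Path y z → V)
    (hadd : ∀ {x y : X} {p q r : Path x y} (α : Q2 p q) (β : Q2 q r), w (α.trans β) = w α + w β)
    (hhor : ∀ {x y z : X} {p p' : Path x y} {q q' : Path y z} (α : Q2 p p') (β : Q2 q q'),
      w (hc α β) = w α + w β + f p' q' - f p q)
    (hasc : ∀ {x y z v : X} (p : Path x y) (q : Path y z) (r : Path z v),
      w (asc p q r) = f q r + f p (q.trans r) - f p q - f (p.trans q) r) :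
    IsU X V (W w) (F f) where
  vert K hK := by
    let γ1 : Path (rowP K hK 0) (rowP K hK mid) := mkP (lowS K)
      (fun t => by show K (hl 0, t) = K (0, t); rw [hl0])
      (fun t => by show K (hl 1, t) = K (mid, t); rw [hl1])
      (fun s => (hK (hl s)).1) (fun s => (hK (hl s)).2)
    let γ2 : Path (rowP K hK mid) (rowP K hK 1) := mkP (upS K)
      (fun t => by show K (hr 0, t) = K (mid, t); rw [hr0])
      (fun t => by show K (hr 1, t) = K (1, t); rw [hr1])
      (fun s => (hK (hr s)).1) (fun s => (hK (hr s)).2)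
    have e1 : W w (lowS K) = w (Path.Homotopic.Quotient.mk γ1) := W_eq w _ γ1 fun s t => rfl
    have e2 : W w (upS K) = w (Path.Homotopic.Quotient.mk γ2) := W_eq w _ γ2 fun s t => rfl
    have e3 : W w K = w (Path.Homotopic.Quotient.mk (γ1.trans γ2)) := by
      refine W_eq w _ (γ1.trans γ2) fun s t => ?_
      refine halves (fun s => (γ1.trans γ2) s t) (fun s => K (s, t)) ?_ ?_ s
      · intro u
        show ((γ1.trans γ2) (hl u)) t = K (hl u, t)
        rw [trl]
        rfl
      · intro u
        show ((γ1.trans γ2) (hr u)) t = K (hr u, t)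
        rw [trr]
        rfl
    rw [e1, e2, e3, Path.Homotopic.Quotient.mk_trans, hadd]
  hor K hK hm := by
    let γ : Path (rowL K hK hm 0) (rowL K hK hm 1) := mkP (lowT K)
      (fun t => rfl) (fun t => rfl)
      (fun s => by show K (s, hl 0) = _; rw [hl0]; exact (hK s).1)
      (fun s => by show K (s, hl 1) = _; rw [hl1]; exact hm s)
    let δ : Path (rowR K hK hm 0) (rowR K hK hm 1) := mkP (upT K)
      (fun t => rfl) (fun t => rfl)
      (fun s => by show K (s, hr 0) = _; rw [hr0]; exact hm s)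
      (fun s => by show K (s, hr 1) = _; rw [hr1]; exact (hK s).2)
    have e1 : W w (lowT K) = w (Path.Homotopic.Quotient.mk γ) := W_eq w _ γ fun s t => rfl
    have e2 : W w (upT K) = w (Path.Homotopic.Quotient.mk δ) := W_eq w _ δ fun s t => rfl
    have e3 : W w K = w (Path.Homotopic.Quotient.mk (hcP γ δ)) := by
      refine W_eq w _ (hcP γ δ) fun s t => ?_
      refine halves (fun t => (hcP γ δ) s t) (fun t => K (s, t)) ?_ ?_ t
      · intro u
        show ((γ s).trans (δ s)) (hl u) = K (s, hl u)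
        rw [trl]
        rfl
      · intro u
        show ((γ s).trans (δ s)) (hr u) = K (s, hr u)
        rw [trr]
        rfl
    have e4 : ∀ s : I, F f (row K s) = f (rowL K hK hm s) (rowR K hK hm s) := by
      intro s
      refine F_eq f _ _ _ fun t => ?_
      refine halves (fun t => ((rowL K hK hm s).trans (rowR K hK hm s)) t) (fun t => row K s t)
        ?_ ?_ t
      · intro u
        show ((rowL K hK hm s).trans (rowR K hK hm s)) (hl u) = _
        rw [trl]
        rfl
      · intro u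
        show ((rowL K hK hm s).trans (rowR K hK hm s)) (hr u) = _
        rw [trr]
        rfl
    rw [e1, e2, e3, e4, e4, ← hc_mk, hhor]
  hom K K' L hK h0 h1 hb := by
    let γ : Path (rowP K hK 0) (rowP K hK 1) := mkP K (fun t => rfl) (fun t => rfl)
      (fun s => (hK s).1) (fun s => (hK s).2)
    have hL : ∀ r s t, (s = 0 ∨ s = 1 ∨ t = 0 ∨ t = 1) → L (r, (s, t)) = K (s, t) := by
      intro r s t h
      rw [hb r s t h, h0]
    let γ' : Path (rowP K hK 0) (rowP K hK 1) := mkP K'
      (fun t => by rw [← h1, hL 1 0 t (Or.inl rfl)]; rfl)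
      (fun t => by rw [← h1, hL 1 1 t (Or.inr (Or.inl rfl))]; rfl)
      (fun s => by rw [← h1, hL 1 s 0 (Or.inr (Or.inr (Or.inl rfl)))]; exact (hK s).1)
      (fun s => by rw [← h1, hL 1 s 1 (Or.inr (Or.inr (Or.inr rfl)))]; exact (hK s).2)
    have e1 : W w K = w (Path.Homotopic.Quotient.mk γ) := W_eq w _ γ fun s t => rfl
    have e2 : W w K' = w (Path.Homotopic.Quotient.mk γ') := W_eq w _ γ' fun s t => rfl
    have hh : γ.Homotopic γ' := by
      let T : I × I → Path (K (0, 0)) (K (0, 1)) := fun z =>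
        ⟨⟨fun t => L (z.1, (z.2, t)), by fun_prop⟩,
          by
            show L (z.1, (z.2, 0)) = _
            rw [hL _ _ _ (Or.inr (Or.inr (Or.inl rfl)))]
            exact (hK _).1,
          by
            show L (z.1, (z.2, 1)) = _
            rw [hL _ _ _ (Or.inr (Or.inr (Or.inr rfl)))]
            exact (hK _).2⟩
      have hT : Continuous T := by
        rw [← Path.continuous_uncurry_iff]
        show Continuous fun z : (I × I) × I => L (z.1.1, (z.1.2, z.2))
        fun_prop
      exact ⟨{ toFun := T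
               continuous_toFun := hT
               map_zero_left := fun s => by
                 apply Path.ext
                 funext t
                 exact h0 (s, t)
               map_one_left := fun s => by
                 apply Path.ext
                 funext t
                 exact h1 (s, t)
               prop' := fun r s hs => by
                 have hs' : s = 0 ∨ s = 1 := by simpa using hs
                 apply Path.ext
                 funext t
                 show L (r, (s, t)) = K (s, t)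
                 rcases hs' with h | h
                 · exact hL r s t (Or.inl h)
                 · exact hL r s t (Or.inr (Or.inl h)) }⟩
    rw [e1, e2]
    congr 1
    exact Quotient.sound hh
  assoc R := by
    let p : Path (R 0) (R (hl mid)) := ofM ((R.comp hl).comp hl)
      (by show R (hl (hl 0)) = _; rw [hl0, hl0]) (by show R (hl (hl 1)) = _; rw [hl1])
    let q : Path (R (hl mid)) (R mid) := ofM ((R.comp hl).comp hr)
      (by show R (hl (hr 0)) = _; rw [hr0]) (by show R (hl (hr 1)) = _; rw [hr1, hl1])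
    let r : Path (R mid) (R 1) := ofM (R.comp hr)
      (by show R (hr 0) = _; rw [hr0]) (by show R (hr 1) = _; rw [hr1])
    have a1 : ∀ t, (p.trans q) t = R (hl t) := by
      intro t
      refine halves (fun t => (p.trans q) t) (fun t => R (hl t)) ?_ ?_ t
      · intro u
        show (p.trans q) (hl u) = _
        rw [trl]
        rfl
      · intro u
        show (p.trans q) (hr u) = _
        rw [trr]
        rfl
    have a2 : ∀ t, ((p.trans q).trans r) t = R t := by
      intro t
      refine halves (fun t => ((p.trans q).trans r) t) (fun t => R t) ?_ ?_ t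
      · intro u
        show ((p.trans q).trans r) (hl u) = _
        rw [trl, a1]
      · intro u
        show ((p.trans q).trans r) (hr u) = _
        rw [trr]
        rfl
    have a3 : ∀ t, (p.trans (q.trans r)) t = R (phiI t) := by
      intro t
      rw [← ext_eq, ← phi_trans, ← a2 (phiI t), ← ext_eq]
      rfl
    have a4 : ∀ t, (q.trans r) t = R (phiI (hr t)) := by
      intro t
      rw [← a3, trr]
    have e0 : W w (ascU R) = w (asc p q r) := by
      refine W_eq w _ (ascP p q r) fun s t => ?_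
      let u : I := ⟨(1 - (s : ℝ)) * t + (s : ℝ) * (phiI t : ℝ), by
        constructor
        · nlinarith [s.2.1, s.2.2, t.2.1, t.2.2, (phiI t).2.1, (phiI t).2.2]
        · nlinarith [s.2.1, s.2.2, t.2.1, t.2.2, (phiI t).2.1, (phiI t).2.2]⟩
      exact (ext_eq ((p.trans q).trans r) u).trans (a2 u)
    have e1 : F f ((R.comp phiI).comp hr) = f q r := F_eq f _ _ _ a4
    have e2 : F f (R.comp phiI) = f p (q.trans r) := F_eq f _ _ _ a3
    have e3 : F f (R.comp hl) = f p q := F_eq f _ _ _ a1
    have e4 : F f R = f (p.trans q) r := F_eq f _ _ _ a2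
    rw [e0, e1, e2, e3, e4, hasc]

end UNT

theorem m_UNT : StUNT := by
  intro X _ V _ w f hadd hhor hasc
  refine ⟨UNT.W w, UNT.F f, UNT.main V w f hadd hhor hasc, ?_⟩
  intro x y p q γ
  exact UNT.W_eq w _ γ fun s t => rfl

end Pool.Agent.Helper70.HH


end

/-! ## Helper70.BI.HH.StHE -/

section

/-!
# Project BI, stage 7 (H): statements, part E (group homology; the complement of a knotted sphere in the 4-sphere)
-/

set_option autoImplicit false

open scoped Topology unitInterval Manifold ContDiff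
open Set Pool.Agent.Helper65.Barb Pool.Agent.Helper18.BI

namespace Pool.Agent.Helper70.HH

/-- the third homology group of a group, with integer coefficients -/
noncomputable abbrev H3 (G : Type) [Group G] : ModuleCat ℤ :=
  groupHomology (Rep.trivial ℤ G ℤ) 3

/-- MODULE GHA.  A 3-cocycle and the third homology group.
Proof.  `A = Rep.trivial ℤ G ℤ`, `C n = (Fin n → G) →₀ ℤ`, `d n : C (n+1) → C n` = `groupHomology.inhomogeneousChains.d A n` (`d_single`; the action is trivial).  `K : C 3 →ₗ[ℤ] M`, `K = Finsupp.linearCombination ℤ (fun x => F (x 0) (x 1) (x 2))`.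
(1) `K ∘ d 3 = 0`: on `single x 1`, `x = (g, h, k, l)`: by `d_single` and `Fin.sum_univ_four` it is `F h k l - F (gh) k l + F g (hk) l - F g h (kl) + F g h k` (`Fin.contractNth` evaluated at `0, 1, 2`: `Fin.contractNth_apply_of_lt`, `_of_eq`, `_of_gt` or `simp [Fin.contractNth]`).
(2) `θ`: the map `iCycles ≫ K : cycles A 3 ⟶ ModuleCat.of ℤ M` vanishes on `toCycles 4 3` (`toCycles_i`, `d_def`, (1)), so it descends to homology: `HomologicalComplex.homologyIsCokernel` (`CokernelCofork.IsColimit.desc'`) or `(inhomogeneousChains A).descOpcycles ..` with `homologyι`; `θ (π (cyclesMk f)) = K f` for `f : C 3` with `d 2 f = 0` (`iCycles_mk`).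
(3) Surjective: let `N` be the range of `θ` (an additive subgroup of `M`), and assume `N ≠ ⊤`.  There is a character `χ' : M ⧸ N →+ AddCircle (1 : ℚ)` different from `0` (`CharacterModule.exists_character_apply_ne_zero_of_ne_zero`); `χ : M →+ AddCircle 1` the composition with `M → M ⧸ N`, `χ ≠ 0`.
`χ ∘ K : C 3 →+ AddCircle 1` vanishes on `ker (d 2)` (`K f = θ (..) ∈ N`), so it factors through the range `R` of `d 2` in `C 2` (`LinearMap.quotKerEquivRange`, `Submodule.liftQ`), and extends to `β : C 2 →+ AddCircle 1` (`CharacterModule.dual_surjective_of_injective` for `R.subtype`, `Mathlib/Algebra/Module/CharacterModule.lean`): `χ (K f) = β (d 2 f)`.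
`b g h = β (single ![g, h] 1)`: for `f = single ![g, h, k] 1` `d 2 f = (h, k) - (gh, k) + (g, hk) - (g, h)`, so `χ (F g h k) = b h k - b (gh) k + b g (hk) - b g h` and `χ = 0` by the hypothesis: a contradiction. -/
def StGHA : Prop :=
  ∀ (G : Type) [Group G] (M : Type) [AddCommGroup M] (F : G → G → G → M),
    (∀ g h k l : G, F h k l - F (g * h) k l + F g (h * k) l - F g h (k * l) + F g h k = 0) →
    (∀ (χ : M →+ AddCircle (1 : ℚ)) (b : G → G → AddCircle (1 : ℚ)),
      (∀ g h k : G, χ (F g h k) = b h k - b (g * h) k + b g (h * k) - b g h) → χ = 0) →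
    ∃ θ : H3 G →+ M, Function.Surjective θ

/-- every 2-cocycle on `X` has the same value on a square which is constant on the boundary and on a constant square -/
def VAN (X : Type) [TopologicalSpace X] : Prop :=
  ∀ (V : Type) [AddCommGroup V] (a : C(I × I, X) → V) (v : C(I, X) → V), IsCoc X V a v →
    ∀ (S : C(I × I, X)) (y : X), (∀ s t, (s = 0 ∨ s = 1 ∨ t = 0 ∨ t = 1) → S (s, t) = y) →
      a S = a (ContinuousMap.const _ y)

/-- MODULE PCN.  The complement of the fixed cuff is path connected.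
Proof.  (1) For `G : R4 → R4`, `EmbOn 𝓘(ℝ, R4) G SP`, `K = G '' sph 1`: `exists_tub` (`Pool/Agent/Helper34/BI5/VK5.lean`) gives `T : Tub K R3`; `T.pc` (`VK3.lean`) and `ball_pc` (`VK4.lean`; `K` is compact, hence closed): `ball c r \ K` is path connected for all balls, so any two points of `Off K` can be joined in `Off K`.
(2) Let `x, y` be points off `A = B '' sph 1`.  `B '' SP ∪ {x, y}` is compact with empty interior (as in module CHT: `Pool/Agent/Helper71/BI6/M_CHT.lean`), so by `StX2c` there is a chart `c` with `B '' SP ∪ {x, y} ⊆ range c`.  `StX3` (for `c`, `B`, `L = SP`): `G = fun p => invFun c (B p)`, `c (G p) = B p` on `SP`; `K = G '' sph 1 = c ⁻¹' A`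
(`c` is injective).  Join `c⁻¹ x` and `c⁻¹ y` in `Off K` and apply `c`. -/
def StPCN : Prop :=
  ∀ B : PartialDiffeomorph 𝓘(ℝ, R4) (𝓡 4) R4 S4 ∞, SP ⊆ B.source →
    ∀ A : Set S4, A = B '' sph 1 → ∀ x y : {x : S4 // x ∉ A}, Joined x y

/-- MODULE CHV.  2-cocycles on the complement of the fixed cuff in the 4-sphere.
Proof (from `StLIP`, `StDIM`, `StX2c`, `StX3`, `StMVU`, `StMVF`).  Let `X = {x // x ∉ A}`, `A` compact, `S`, `y`, `(a, v)` be given.
(1) `StLIP` for `X := ℝ × ℝ`, `P = Icc 0 1 ×ˢ Icc 0 1`, `P₀` = the boundary of the square, `f z = S (projIcc .. z.1, projIcc .. z.2)` (as a point of `S4`; constant `y` on `P₀`), `K := A`: `g` Lipschitz on `P`, and a homotopy `H` off `A`, constant on `P₀`.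
`StDIM` for `(u, q, s) ↦ g (q, s)` on `Icc 0 1 ×ˢ Icc 0 1 ×ˢ Icc 0 1`: `g '' P` is compact with empty interior.
(2) `IsCoc.cube` for `C (u, (q, s)) = H (u, (q, s))` (as a point of `X`): the faces `fy`, `fz` are the constant square `y`, so `a S = a S'`, `S' z = g z`.
(3) `g '' P ∪ B '' SP` is compact with empty interior (for `B '' SP` see `Pool/Agent/Helper71/BI6/M_CHT.lean`), so there is a chart `c` (`StX2c`) whose range contains it; `StX3`: `G = fun p => invFun c (B p)`, `EmbOn 𝓘(ℝ, R4) G SP`, `c (G p) = B p` on `SP`; `K = G '' sph 1`: `x ∈ K ↔ c x ∈ A`.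
`c` restricts to `c' : C(Off K, X)`; `a' T = a (c'.comp T)`, `v' e = v (c'.comp e)` is a cocycle on `Off K` (`IsCoc`; compositions are definitionally equal).  `S' = c'.comp S''` with `S'' z = c⁻¹ (g z)` (continuous: `c` is an open embedding), constant on the boundary.
(4) `StMVU` for `G` gives `N`, `ρ` and `HasU a' N ρ`, `StMVF`: `a' S'' = a' (const)`, so `a S' = a (const y)`. -/
def StCHV : Prop :=
  ∀ B : PartialDiffeomorph 𝓘(ℝ, R4) (𝓡 4) R4 S4 ∞, SP ⊆ B.source →
    ∀ A : Set S4, A = B '' sph 1 → VAN {x : S4 // x ∉ A}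

/-- MODULE SUR (helper70).  The second homotopy group modulo drift is a quotient of the third homology group of the
fundamental group. -/
def StSUR : Prop :=
  ∀ (X : Type) [TopologicalSpace X] [PathConnectedSpace X] (y₀ : X), VAN X →
    ∃ θ : H3 (FundamentalGroup X y₀) →+ MM X y₀, Function.Surjective θ

end Pool.Agent.Helper70.HH


end

/-! ## Helper73.BI7.M_NAT -/

section

/-!
# Project BI, stage 7 (H): MODULE NAT, naturality of the associator
-/

set_option autoImplicit false

open scoped Topology unitInterval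
open Set

namespace Pool.Agent.Helper70.HH

namespace NAT

section conv

variable {Z : Type} [TopologicalSpace Z]

/-- the coordinates of the path along the bottom and the right side -/
noncomputable def c1 (t : ℝ) : ℝ := min 1 (2 * t)

noncomputable def c2 (t : ℝ) : ℝ := max 0 (2 * t - 1)

theorem continuous_c1 : Continuous c1 := by
  unfold c1
  fun_prop

theorem continuous_c2 : Continuous c2 := by
  unfold c2
  fun_prop

/-- clamping -/
noncomputable def cl (t : ℝ) : I := projIcc 0 1 zero_le_one t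

theorem continuous_cl : Continuous cl := continuous_projIcc (h := zero_le_one)

theorem cl_coe (t : I) : cl t = t := projIcc_val _ t

theorem cl_zero {t : ℝ} (h : t ≤ 0) : cl t = 0 := projIcc_of_le_left _ h

theorem cl_one {t : ℝ} (h : 1 ≤ t) : cl t = 1 := projIcc_of_right_le _ h

/-- the boundary paths of a square are homotopic -/
theorem sqHom {a b c d : Z} (G : C(I × I, Z)) (A : Path a b) (B : Path b d) (A' : Path a c)
    (B' : Path c d) (hA : ∀ s, A s = G (s, 0)) (hB : ∀ u, B u = G (1, u))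
    (hA' : ∀ u, A' u = G (0, u)) (hB' : ∀ s, B' s = G (s, 1)) :
    (A.trans B).Homotopic (A'.trans B') := by
  have e1 : ∀ s : I, (A.trans B) s = G (cl (c1 s), cl (c2 s)) := by
    intro s
    rw [Path.trans_apply]
    split_ifs with h
    · rw [hA]
      have h1 : c2 s = 0 := max_eq_left (by linarith)
      have h2 : c1 s = 2 * s := min_eq_right (by linarith)
      rw [h1, h2, cl_zero le_rfl]
      congr 2
      exact (projIcc_of_mem _ _).symm
    · push Not at h
      rw [hB]
      have h1 : c2 s = 2 * s - 1 := max_eq_right (by linarith)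
      have h2 : c1 s = 1 := min_eq_left (by linarith)
      rw [h1, h2, cl_one le_rfl]
      congr 2
      exact (projIcc_of_mem _ _).symm
  have e2 : ∀ s : I, (A'.trans B') s = G (cl (c2 s), cl (c1 s)) := by
    intro s
    rw [Path.trans_apply]
    split_ifs with h
    · rw [hA']
      have h1 : c2 s = 0 := max_eq_left (by linarith)
      have h2 : c1 s = 2 * s := min_eq_right (by linarith)
      rw [h1, h2, cl_zero le_rfl]
      congr 2
      exact (projIcc_of_mem _ _).symm
    · push Not at h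
      rw [hB']
      have h1 : c2 s = 2 * s - 1 := max_eq_right (by linarith)
      have h2 : c1 s = 1 := min_eq_left (by linarith)
      rw [h1, h2, cl_one le_rfl]
      congr 2
      exact (projIcc_of_mem _ _).symm
  have k1 := continuous_c1
  have k2 := continuous_c2
  have k3 := continuous_cl
  refine ⟨⟨⟨⟨fun z : I × I => G (cl ((1 - (z.1 : ℝ)) * c1 z.2 + z.1 * c2 z.2),
    cl ((1 - (z.1 : ℝ)) * c2 z.2 + z.1 * c1 z.2)), ?_⟩, ?_, ?_⟩, ?_⟩⟩
  · refine G.continuous.comp (Continuous.prodMk (k3.comp ?_) (k3.comp ?_))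
    · fun_prop
    · fun_prop
  · intro s
    show G (cl ((1 - ((0 : I) : ℝ)) * c1 s + ((0 : I) : ℝ) * c2 s),
      cl ((1 - ((0 : I) : ℝ)) * c2 s + ((0 : I) : ℝ) * c1 s)) = (A.trans B) s
    rw [e1, Icc.coe_zero, sub_zero, one_mul, one_mul, zero_mul, zero_mul, add_zero, add_zero]
  · intro s
    show G (cl ((1 - ((1 : I) : ℝ)) * c1 s + ((1 : I) : ℝ) * c2 s),
      cl ((1 - ((1 : I) : ℝ)) * c2 s + ((1 : I) : ℝ) * c1 s)) = (A'.trans B') s
    rw [e2, Icc.coe_one, sub_self, one_mul, one_mul, zero_mul, zero_mul, zero_add, zero_add]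
  · intro v s hs
    have h10 : c1 0 = 0 := by unfold c1; norm_num
    have h20 : c2 0 = 0 := by unfold c2; norm_num
    have h11 : c1 1 = 1 := by unfold c1; norm_num
    have h21 : c2 1 = 1 := by unfold c2; norm_num
    show G (cl ((1 - (v : ℝ)) * c1 s + (v : ℝ) * c2 s),
      cl ((1 - (v : ℝ)) * c2 s + (v : ℝ) * c1 s)) = (A.trans B) s
    rcases hs with rfl | hs
    · rw [e1, Icc.coe_zero, h10, h20]
      simp
    · have hs' : s = 1 := hs
      subst hs'
      rw [e1, Icc.coe_one, h11, h21]
      simp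

end conv

variable {X : Type} [TopologicalSpace X]

/-- the associators of a family of triples of paths -/
noncomputable def G {x y z w : X} {p p' : Path x y} {q q' : Path y z} {r r' : Path z w}
    (γ : Path p p') (δ : Path q q') (e : Path r r') : C(I × I, Path x w) where
  toFun u := ascP (γ u.1) (δ u.1) (e u.1) u.2
  continuous_toFun := by
    rw [← Path.continuous_uncurry_iff]
    show Continuous fun v : (I × I) × I => (((γ v.1.1).trans (δ v.1.1)).trans (e v.1.1)).extend
      ((1 - (v.1.2 : ℝ)) * v.2 + (v.1.2 : ℝ) * phi v.2)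
    have hphi := continuous_phi
    have h1 : Continuous fun v : (I × I) × I => ((γ v.1.1).trans (δ v.1.1)).trans (e v.1.1) := by
      have a1 : Continuous fun v : (I × I) × I => γ v.1.1 :=
        γ.continuous.comp (continuous_fst.comp continuous_fst)
      have a2 : Continuous fun v : (I × I) × I => δ v.1.1 :=
        δ.continuous.comp (continuous_fst.comp continuous_fst)
      have a3 : Continuous fun v : (I × I) × I => e v.1.1 :=
        e.continuous.comp (continuous_fst.comp continuous_fst)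
      exact (a1.path_trans a2).path_trans a3
    refine Continuous.pathExtend (Path.continuous_uncurry_iff.2 h1) ?_
    fun_prop

theorem G_apply {x y z w : X} {p p' : Path x y} {q q' : Path y z} {r r' : Path z w}
    (γ : Path p p') (δ : Path q q') (e : Path r r') (u : I × I) :
    G γ δ e u = ascP (γ u.1) (δ u.1) (e u.1) u.2 := rfl

theorem asc_congr {x y z w : X} {p p' : Path x y} {q q' : Path y z} {r r' : Path z w}
    (hp : p = p') (hq : q = q') (hr : r = r') (u : I) :
    (ascP p q r u : Path x w) = ascP p' q' r' u := by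
  subst hp hq hr
  rfl

theorem nat {x y z w : X} {p p' : Path x y} {q q' : Path y z} {r r' : Path z w}
    (γ : Path p p') (δ : Path q q') (e : Path r r') :
    ((hcP (hcP γ δ) e).trans (ascP p' q' r')).Homotopic
      ((ascP p q r).trans (hcP γ (hcP δ e))) := by
  refine sqHom (G γ δ e) _ _ _ _ ?_ ?_ ?_ ?_
  · intro s
    rw [G_apply]
    exact (ascP (γ s) (δ s) (e s)).source.symm
  · intro u
    rw [G_apply]
    exact asc_congr γ.target.symm δ.target.symm e.target.symm u
  · intro u
    rw [G_apply]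
    exact asc_congr γ.source.symm δ.source.symm e.source.symm u
  · intro s
    rw [G_apply]
    exact (ascP (γ s) (δ s) (e s)).target.symm

end NAT

/-- **NAT.** -/
theorem m_NAT : StNAT := by
  intro X _ x y z w p p' q q' r r' α β ε
  induction α using Path.Homotopic.Quotient.ind with | mk γ =>
  induction β using Path.Homotopic.Quotient.ind with | mk δ =>
  induction ε using Path.Homotopic.Quotient.ind with | mk e =>
  unfold asc
  rw [hc_mk, hc_mk, hc_mk, hc_mk, ← Path.Homotopic.Quotient.mk_trans,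
    ← Path.Homotopic.Quotient.mk_trans]
  exact Path.Homotopic.Quotient.eq.2 (NAT.nat γ δ e)

end Pool.Agent.Helper70.HH


end

/-! ## Helper79.BI7.M_COB -/

section

/-!
# Project BI, stage 7 (H): module COB

A cocycle on the fundamental groupoid which is a coboundary at the base point is a coboundary.
-/

set_option autoImplicit false

open scoped Topology unitInterval
open Set

namespace Pool.Agent.Helper70.HH

theorem m_COB : StCOB := by
  intro X _ _ y₀ V _ κ hκ b hb
  let P : ∀ x : X, Path.Homotopic.Quotient y₀ x := fun x =>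
    Path.Homotopic.Quotient.mk (PathConnectedSpace.somePath y₀ x)
  let ρ : ∀ {x y : X}, Path.Homotopic.Quotient x y → Path.Homotopic.Quotient y₀ y₀ :=
    fun {x y} g => ((P x).trans g).trans (P y).symm
  let ν : ∀ x : X, Path.Homotopic.Quotient x y₀ := fun x => (P x).symm
  have e1 : ∀ {x y : X} (g : Path.Homotopic.Quotient x y), (ν x).trans (ρ g) = g.trans (ν y) := by
    intro x y g
    show (P x).symm.trans (((P x).trans g).trans (P y).symm) = g.trans (P y).symm
    rw [← Path.Homotopic.Quotient.trans_assoc, ← Path.Homotopic.Quotient.trans_assoc,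
      Path.Homotopic.Quotient.symm_trans, Path.Homotopic.Quotient.refl_trans]
  have e2 : ∀ {x y z : X} (g : Path.Homotopic.Quotient x y) (h : Path.Homotopic.Quotient y z),
      (ρ g).trans (ρ h) = ρ (g.trans h) := by
    intro x y z g h
    show (((P x).trans g).trans (P y).symm).trans (((P y).trans h).trans (P z).symm) =
      ((P x).trans (g.trans h)).trans (P z).symm
    simp only [Path.Homotopic.Quotient.trans_assoc]
    rw [← Path.Homotopic.Quotient.trans_assoc (P y).symm (P y), Path.Homotopic.Quotient.symm_trans,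
      Path.Homotopic.Quotient.refl_trans]
  let S : ∀ {x y z : X}, Path.Homotopic.Quotient x y → Path.Homotopic.Quotient y z → V :=
    fun {x y z} g h => κ (ν x) (ρ g) (ρ h) - κ g (ν y) (ρ h) + κ g h (ν z)
  refine ⟨fun {x y z} g h => b (ρ g) (ρ h) - S g h, ?_⟩
  intro x y z w g h k
  have D1 := hκ (ν x) (ρ g) (ρ h) (ρ k)
  have D2 := hκ g (ν y) (ρ h) (ρ k)
  have D3 := hκ g h (ν z) (ρ k)
  have D4 := hκ g h k (ν w)
  rw [e1, e2, e2] at D1
  rw [e1, e2] at D2
  rw [e1] at D3
  have hb' := hb (ρ g) (ρ h) (ρ k)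
  rw [e2, e2] at hb'
  have key : κ g h k = κ (ρ g) (ρ h) (ρ k) - (S h k - S (g.trans h) k + S g (h.trans k) - S g h) := by
    have : (κ (ρ g) (ρ h) (ρ k) - (S h k - S (g.trans h) k + S g (h.trans k) - S g h)) - κ g h k
        = (κ (ρ g) (ρ h) (ρ k) - κ (g.trans (ν y)) (ρ h) (ρ k) + κ (ν x) (ρ (g.trans h)) (ρ k)
            - κ (ν x) (ρ g) (ρ (h.trans k)) + κ (ν x) (ρ g) (ρ h))
          - (κ (ν y) (ρ h) (ρ k) - κ (g.trans (ν y)) (ρ h) (ρ k) + κ g (h.trans (ν z)) (ρ k)
            - κ g (ν y) (ρ (h.trans k)) + κ g (ν y) (ρ h))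
          + (κ h (ν z) (ρ k) - κ (g.trans h) (ν z) (ρ k) + κ g (h.trans (ν z)) (ρ k)
            - κ g h (k.trans (ν w)) + κ g h (ν z))
          - (κ h k (ν w) - κ (g.trans h) k (ν w) + κ g (h.trans k) (ν w)
            - κ g h (k.trans (ν w)) + κ g h k) := by
      simp only [S]
      abel
    rw [D1, D2, D3, D4] at this
    have h0 : (κ (ρ g) (ρ h) (ρ k) - (S h k - S (g.trans h) k + S g (h.trans k) - S g h)) - κ g h k
        = 0 := by
      rw [this]
      abel
    exact (sub_eq_zero.1 h0).symm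
  show κ g h k = (b (ρ h) (ρ k) - S h k) - (b (ρ (g.trans h)) (ρ k) - S (g.trans h) k) +
    (b (ρ g) (ρ (h.trans k)) - S g (h.trans k)) - (b (ρ g) (ρ h) - S g h)
  rw [key, hb']
  abel

end Pool.Agent.Helper70.HH


end

/-! ## Helper85.BI7.M_CCD -/

section

/-!
# Project BI, stage 7 (H), module CCD: the sphere of a closed 2-cell at the constant path
-/

set_option autoImplicit false

open scoped Topology unitInterval
open Set Pool.Agent.Helper65.Barb Pool.Agent.Helper18.BI
open Pool.Agent.Helper18.FinR (sqr)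
open Pool.Agent.Helper18.BI.R (S2)
open Pool.Agent.Helper70.T

namespace Pool.Agent.Helper70.HH

namespace CCD

/-- the projection to the unit interval -/
private noncomputable def pr (x : ℝ) : I := projIcc (0 : ℝ) 1 zero_le_one x

private theorem cont_pr : Continuous pr := continuous_projIcc (h := zero_le_one)

private theorem pr_of_mem {x : ℝ} (h : x ∈ Icc (0 : ℝ) 1) : pr x = ⟨x, h⟩ :=
  projIcc_of_mem zero_le_one h

private theorem pr_coe (x : I) : pr (x : ℝ) = x := projIcc_val zero_le_one x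

private theorem pr_le {x : ℝ} (h : x ≤ 0) : pr x = 0 := projIcc_of_le_left zero_le_one h

private theorem pr_ge {x : ℝ} (h : 1 ≤ x) : pr x = 1 := projIcc_of_right_le zero_le_one h

variable {X : Type} [TopologicalSpace X] {y₀ : X}

private theorem f_bd (f : GenLoop (Fin 2) X y₀) (a b : I)
    (h : a = 0 ∨ a = 1 ∨ b = 0 ∨ b = 1) : f ![a, b] = y₀ := by
  refine f.2 _ ?_
  rcases h with h | h | h | h
  · exact ⟨0, Or.inl h⟩
  · exact ⟨0, Or.inr h⟩
  · exact ⟨1, Or.inl h⟩
  · exact ⟨1, Or.inr h⟩

private theorem cont_vec {Y : Type} [TopologicalSpace Y] {a b : Y → I} (ha : Continuous a)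
    (hb : Continuous b) : Continuous fun y => (![a y, b y] : Fin 2 → I) := by
  refine continuous_pi fun i => ?_
  fin_cases i
  · exact ha
  · exact hb

private theorem vec_eta (t : Fin 2 → I) : (![t 0, t 1] : Fin 2 → I) = t := by
  funext i
  fin_cases i <;> rfl

private theorem lam_mem (t : I) : lam t ∈ Icc (0 : ℝ) 1 := by
  have h0 : (0 : ℝ) ≤ t := t.2.1
  have h1 : (t : ℝ) ≤ 1 := t.2.2
  unfold lam
  exact ⟨le_min zero_le_one (le_min (by linarith) (by linarith)), min_le_left _ _⟩

private theorem tau_mem (t : I) : tau t ∈ Icc (0 : ℝ) 1 := by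
  have h0 : (0 : ℝ) ≤ t := t.2.1
  have h1 : (t : ℝ) ≤ 1 := t.2.2
  unfold tau
  refine ⟨le_min (by linarith) (by linarith), ?_⟩
  rcases le_total (t : ℝ) (1 / 2) with h | h
  · exact (min_le_left _ _).trans (by linarith)
  · exact (min_le_right _ _).trans (by linarith)

/-- the map of the sphere -/
private noncomputable def hh (f : GenLoop (Fin 2) X y₀) (m : R3) : X :=
  sph2 (fun z => f ![pr z.1, pr z.2]) m

private theorem val_qq (f : GenLoop (Fin 2) X y₀)
    (hv : ∀ ρ ∈ Icc (0 : ℝ) 1, ∀ v ∈ Icc (0 : ℝ) 1,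
      hh f (PP (2 * Real.pi * ρ) v) = f ![pr ρ, pr v]) (t : Fin 2 → I) :
    hh f (T.qq t) = f ![pr (3 * (t 0 : ℝ) - 1), pr (2 * (t 1 : ℝ))] := by
  have hl := lam_mem (t 0)
  have ht := tau_mem (t 1)
  have hlt : lam (t 0) * tau (t 1) ∈ Icc (0 : ℝ) 1 :=
    ⟨mul_nonneg hl.1 ht.1, mul_le_one₀ hl.2 ht.1 ht.2⟩
  unfold T.qq
  split_ifs with h
  · have hρ : max 0 (min 1 (3 * (t 0 : ℝ) - 1)) ∈ Icc (0 : ℝ) 1 :=
      ⟨le_max_left _ _, max_le zero_le_one (min_le_left _ _)⟩
    unfold rho
    rw [hv _ hρ _ hlt]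
    rcases le_or_gt (3 * (t 0 : ℝ) - 1) 0 with h1 | h1
    · rw [f_bd _ _ _ (Or.inl (pr_le h1)), f_bd _ _ _ (Or.inl (pr_le ?_))]
      exact max_le le_rfl ((min_le_right _ _).trans h1)
    rcases le_or_gt 1 (3 * (t 0 : ℝ) - 1) with h2 | h2
    · rw [f_bd _ _ _ (Or.inr (Or.inl (pr_ge h2))), f_bd _ _ _ (Or.inr (Or.inl (pr_ge ?_)))]
      exact le_max_of_le_right (le_min le_rfl h2)
    · have e1 : max 0 (min 1 (3 * (t 0 : ℝ) - 1)) = 3 * (t 0 : ℝ) - 1 := by
        rw [min_eq_right h2.le, max_eq_right h1.le]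
      have e2 : lam (t 0) = 1 := by
        unfold lam
        rw [min_eq_left]
        exact le_min (by linarith) (by linarith)
      have e3 : tau (t 1) = 2 * (t 1 : ℝ) := by
        unfold tau
        rw [min_eq_left]
        linarith
      rw [e1, e2, e3, one_mul]
  · have h' : 1 ≤ 2 * (t 1 : ℝ) := by
      rw [not_le] at h
      linarith
    have e : (0 : ℝ) = 2 * Real.pi * 0 := by ring
    rw [e, hv 0 ⟨le_rfl, zero_le_one⟩ _ hlt, f_bd _ _ _ (Or.inl (pr_le le_rfl)),
      f_bd _ _ _ (Or.inr (Or.inr (Or.inr (pr_ge h'))))]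

/-- the homotopy to `f` -/
private theorem free_qq (f : GenLoop (Fin 2) X y₀)
    (hv : ∀ ρ ∈ Icc (0 : ℝ) 1, ∀ v ∈ Icc (0 : ℝ) 1,
      hh f (PP (2 * Real.pi * ρ) v) = f ![pr ρ, pr v]) :
    Hfree (fun t => hh f (T.qq t)) f := by
  refine ⟨fun z => f ![pr ((3 - 2 * z.1) * (z.2 0 : ℝ) - (1 - z.1)), pr ((2 - z.1) * (z.2 1 : ℝ))],
    ?_, ?_, ?_, ?_⟩
  · refine Continuous.continuousOn (f.1.continuous.comp (cont_vec ?_ ?_))
    · exact cont_pr.comp (by fun_prop)
    · exact cont_pr.comp (by fun_prop)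
  · intro t
    show f ![pr ((3 - 2 * (0 : ℝ)) * (t 0 : ℝ) - (1 - 0)), pr ((2 - (0 : ℝ)) * (t 1 : ℝ))] =
      hh f (T.qq t)
    rw [val_qq f hv t]
    have e1 : (3 - 2 * (0 : ℝ)) * (t 0 : ℝ) - (1 - 0) = 3 * (t 0 : ℝ) - 1 := by ring
    have e2 : (2 - (0 : ℝ)) * (t 1 : ℝ) = 2 * (t 1 : ℝ) := by ring
    simp only [e1, e2]
  · intro t
    have e1 : (3 - 2 * (1 : ℝ)) * (t 0 : ℝ) - (1 - 1) = t 0 := by ring
    have e2 : (2 - (1 : ℝ)) * (t 1 : ℝ) = t 1 := by ring
    simp only [e1, e2, pr_coe, vec_eta]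
  · have key : ∀ u ∈ Icc (0 : ℝ) 1, ∀ t ∈ Cube.boundary (Fin 2),
        f ![pr ((3 - 2 * u) * (t 0 : ℝ) - (1 - u)), pr ((2 - u) * (t 1 : ℝ))] = y₀ := by
      rintro u ⟨hu0, hu1⟩ t ht
      refine f_bd _ _ _ ?_
      obtain ⟨i, hi⟩ := ht
      fin_cases i
      · rcases hi with hi | hi
        · left
          have h : t 0 = 0 := hi
          rw [h]
          refine pr_le ?_
          show (3 - 2 * u) * (0 : ℝ) - (1 - u) ≤ 0
          linarith
        · right
          left
          have h : t 0 = 1 := hi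
          rw [h]
          refine pr_ge ?_
          show 1 ≤ (3 - 2 * u) * (1 : ℝ) - (1 - u)
          linarith
      · rcases hi with hi | hi
        · right
          right
          left
          have h : t 1 = 0 := hi
          rw [h]
          refine pr_le ?_
          show (2 - u) * (0 : ℝ) ≤ 0
          linarith
        · right
          right
          right
          have h : t 1 = 1 := hi
          rw [h]
          refine pr_ge ?_
          show 1 ≤ (2 - u) * (1 : ℝ)
          linarith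
    intro u hu t ht t' ht'
    show f _ = f _
    rw [key u hu t ht, key u hu t' ht']

end CCD

open CCD in
/-- MODULE CCD.  The sphere of a closed 2-cell at the constant path. -/
theorem m_CCD (hSQR : StSQR) (hPQ : StPQ) : StCCD := by
  intro X _ y₀ sq hsq f γ hγ
  have a1 : Continuous fun z : Unit × ℝ × ℝ => f ![pr z.2.1, pr z.2.2] :=
    f.1.continuous.comp (cont_vec (cont_pr.comp (continuous_fst.comp continuous_snd))
      (cont_pr.comp (continuous_snd.comp continuous_snd)))
  have a2 : ∀ v : ℝ, f ![pr 0, pr v] = y₀ := fun v => f_bd f _ _ (Or.inl (pr_le le_rfl))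
  have a3 : ∀ v : ℝ, f ![pr 1, pr v] = y₀ := fun v => f_bd f _ _ (Or.inr (Or.inl (pr_ge le_rfl)))
  have a4 : ∀ ρ : ℝ, f ![pr ρ, pr 0] = y₀ := fun ρ =>
    f_bd f _ _ (Or.inr (Or.inr (Or.inl (pr_le le_rfl))))
  have a5 : ∀ ρ : ℝ, f ![pr ρ, pr 1] = y₀ := fun ρ =>
    f_bd f _ _ (Or.inr (Or.inr (Or.inr (pr_ge le_rfl))))
  obtain ⟨hc, hv⟩ := hPQ X Unit (fun z => f ![pr z.2.1, pr z.2.2]) a1.continuousOn
    (fun _ v _ => (a2 v).trans (a3 v).symm) (fun _ ρ _ => (a4 ρ).trans (a2 0).symm)
    (fun _ ρ _ => (a5 ρ).trans (a2 1).symm)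
  have hcont : ContinuousOn (hh f) S2 := by
    have h1 : Continuous fun m : R3 => (((), m) : Unit × R3) :=
      continuous_const.prodMk continuous_id
    have h2 := hc.comp h1.continuousOn (s := S2) (fun m hm => ⟨mem_univ _, hm⟩)
    have h3 : (fun p : Unit × R3 => sph2 (fun q => f ![pr q.1, pr q.2]) p.2) ∘
        (fun m : R3 => (((), m) : Unit × R3)) = hh f := rfl
    rw [← h3]
    exact h2
  have e : sphP γ = fun t => hh f (sqr t) := by
    funext t
    unfold sphP CCD.hh sph2
    exact hγ _ _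
  obtain ⟨G, g1, g2, g3, g4, g5⟩ := hSQR
  have h1 : Hfree (fun t => hh f (T.qq t)) (fun t => hh f (sqr t)) := by
    refine ⟨fun z => hh f (G z), hcont.comp g1 fun z hz => g2 z.1 hz.1 z.2, ?_, ?_, ?_⟩
    · intro t
      show hh f (G (0, t)) = _
      rw [g3]
    · intro t
      show hh f (G (1, t)) = _
      rw [g4]
    · intro u hu t ht t' ht'
      show hh f (G (u, t)) = hh f (G (u, t'))
      rw [g5 u hu t ht, g5 u hu t' ht']
  rw [e, ← hsq.free _ _ h1, hsq.free _ _ (free_qq f (fun ρ hρ v hv' => hv () ρ hρ v hv')),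
    hsq.base]

end Pool.Agent.Helper70.HH


end

/-! ## Helper92.BI7.M_KAP -/

section

/-!
# Project BI, stage 7 (H), module KAP: the 3-cocycle
-/

set_option autoImplicit false

open scoped Topology unitInterval
open Set

namespace Pool.Agent.Helper70.HH

namespace KAP

variable {X : Type} [TopologicalSpace X]

/-- a representative of a class of paths -/
noncomputable def rp {x y : X} (g : Path.Homotopic.Quotient x y) : Path x y :=
  (Path.Homotopic.Quotient.mk_surjective g).choose

theorem mk_rp {x y : X} (g : Path.Homotopic.Quotient x y) :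
    Path.Homotopic.Quotient.mk (rp g) = g :=
  (Path.Homotopic.Quotient.mk_surjective g).choose_spec

/-- homotopic paths have a 2-cell between them -/
theorem exists_cell {x y : X} {p p' : Path x y} (h : p.Homotopic p') : Nonempty (Q2 p p') := by
  obtain ⟨F⟩ := h
  exact ⟨Path.Homotopic.Quotient.mk (mkP ⟨fun z => F z, F.continuous⟩ (fun t => F.apply_zero t)
    (fun t => F.apply_one t) (fun s => F.source s) (fun s => F.target s))⟩

variable {M : Type} [AddCommGroup M]

/-- the combination -/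
noncomputable def kk (w : ∀ {x y : X} {p q : Path x y}, Q2 p q → M)
    (f : ∀ {x y z : X}, Path x y → Path y z → M) {x y z v : X} (p : Path x y) (q : Path y z)
    (r : Path z v) : M :=
  w (asc p q r) - f q r - f p (q.trans r) + f p q + f (p.trans q) r

theorem kk_inv (hNAT : StNAT) {cc : ∀ {x y : X} (p : Path x y), Q2 p p → M}
    {w : ∀ {x y : X} {p q : Path x y}, Q2 p q → M} {f : ∀ {x y z : X}, Path x y → Path y z → M}
    (hW : IsW X M cc w f) {x y z v : X} {p p' : Path x y} {q q' : Path y z} {r r' : Path z v}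
    (α : Q2 p p') (β : Q2 q q') (ε : Q2 r r') : kk w f p q r = kk w f p' q' r' := by
  have h := congrArg (fun c => w c) (hNAT X x y z v p p' q q' r r' α β ε)
  simp only [hW.add, hW.hor] at h
  unfold kk
  have h2 := sub_eq_zero.2 h
  apply eq_of_sub_eq_zero
  rw [← neg_eq_zero, ← h2]
  abel

theorem kk_inv' (hNAT : StNAT) {cc : ∀ {x y : X} (p : Path x y), Q2 p p → M}
    {w : ∀ {x y : X} {p q : Path x y}, Q2 p q → M} {f : ∀ {x y z : X}, Path x y → Path y z → M}
    (hW : IsW X M cc w f) {x y z v : X} {p p' : Path x y} {q q' : Path y z} {r r' : Path z v}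
    (h1 : Path.Homotopic.Quotient.mk p = Path.Homotopic.Quotient.mk p')
    (h2 : Path.Homotopic.Quotient.mk q = Path.Homotopic.Quotient.mk q')
    (h3 : Path.Homotopic.Quotient.mk r = Path.Homotopic.Quotient.mk r') :
    kk w f p q r = kk w f p' q' r' := by
  obtain ⟨α⟩ := exists_cell (Path.Homotopic.Quotient.exact h1)
  obtain ⟨β⟩ := exists_cell (Path.Homotopic.Quotient.exact h2)
  obtain ⟨ε⟩ := exists_cell (Path.Homotopic.Quotient.exact h3)
  exact kk_inv hNAT hW α β ε

theorem w_refl {cc : ∀ {x y : X} (p : Path x y), Q2 p p → M}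
    {w : ∀ {x y : X} {p q : Path x y}, Q2 p q → M} {f : ∀ {x y z : X}, Path x y → Path y z → M}
    (hW : IsW X M cc w f) {x y : X} (p : Path x y) :
    w (Path.Homotopic.Quotient.refl p) = 0 := by
  have h := hW.add (Path.Homotopic.Quotient.refl p) (Path.Homotopic.Quotient.refl p)
  rw [Path.Homotopic.Quotient.trans_refl] at h
  exact left_eq_add.1 h

theorem kk_coc (hPEN : StPEN) {cc : ∀ {x y : X} (p : Path x y), Q2 p p → M}
    {w : ∀ {x y : X} {p q : Path x y}, Q2 p q → M} {f : ∀ {x y z : X}, Path x y → Path y z → M}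
    (hW : IsW X M cc w f) {x y z u v : X} (p : Path x y) (q : Path y z) (r : Path z u)
    (s : Path u v) :
    kk w f q r s - kk w f (p.trans q) r s + kk w f p (q.trans r) s - kk w f p q (r.trans s) +
      kk w f p q r = 0 := by
  have h := congrArg (fun c => w c) (hPEN X x y z u v p q r s)
  simp only [hW.add, hW.hor, w_refl hW] at h
  unfold kk
  have h2 := sub_eq_zero.2 h
  rw [← neg_eq_zero, ← h2]
  abel

end KAP

open KAP in
/-- **KAP.** -/
theorem m_KAP (hHL : StHL) (hNAT : StNAT) (hPEN : StPEN) : StKAP := by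
  intro X _ M _ cc w f hW
  have _ := hHL
  have key : ∀ {x y z v : X} (p : Path x y) (q : Path y z) (r : Path z v),
      kk w f (rp (Path.Homotopic.Quotient.mk p)) (rp (Path.Homotopic.Quotient.mk q))
        (rp (Path.Homotopic.Quotient.mk r)) = kk w f p q r := fun p q r =>
    kk_inv' hNAT hW (mk_rp _) (mk_rp _) (mk_rp _)
  refine ⟨fun {x y z v} g h k => kk w f (rp g) (rp h) (rp k), ?_, ?_⟩
  · intro x y z u v g h k l
    induction g using Path.Homotopic.Quotient.ind with | mk p => ?_
    induction h using Path.Homotopic.Quotient.ind with | mk q => ?_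
    induction k using Path.Homotopic.Quotient.ind with | mk r => ?_
    induction l using Path.Homotopic.Quotient.ind with | mk s => ?_
    simp only [← Path.Homotopic.Quotient.mk_trans, key]
    exact kk_coc hPEN hW p q r s
  · intro x y z v p q r
    show w (asc p q r) = kk w f (rp (Path.Homotopic.Quotient.mk p))
      (rp (Path.Homotopic.Quotient.mk q)) (rp (Path.Homotopic.Quotient.mk r)) + f q r +
        f p (q.trans r) - f p q - f (p.trans q) r
    rw [key]
    unfold kk
    abel

end Pool.Agent.Helper70.HH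


end

/-! ## Helper94.BI7.M_CCA -/

section

/-!
# Project BI, stage 7 (H), module CCA: homotopic closed 2-cells, cyclic invariance (helper94)
-/

set_option autoImplicit false

open scoped Topology unitInterval
open Set Pool.Agent.Helper65.Barb Pool.Agent.Helper18.BI
open Pool.Agent.Helper18.FinR (sqr)
open Pool.Agent.Helper18.BI.R (S2)
open Pool.Agent.Helper70.T

namespace Pool.Agent.Helper70.HH

namespace CCA

theorem cont_sqr : Continuous sqr := by
  have h0 : Continuous fun t : Fin 2 → unitInterval => ((t 0 : unitInterval) : ℝ) :=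
    continuous_subtype_val.comp (continuous_apply 0)
  have h1 : Continuous fun t : Fin 2 → unitInterval => ((t 1 : unitInterval) : ℝ) :=
    continuous_subtype_val.comp (continuous_apply 1)
  have s0 := Real.continuous_sin.comp (continuous_const.mul h0 (f := fun _ => Real.pi))
  have s1 := Real.continuous_sin.comp (continuous_const.mul h1 (f := fun _ => Real.pi))
  have c0 := Real.continuous_cos.comp (continuous_const.mul h0 (f := fun _ => Real.pi))
  have c1 := Real.continuous_cos.comp (continuous_const.mul h1 (f := fun _ => Real.pi))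
  unfold sqr
  refine Continuous.prodMk ?_ ?_
  · exact continuous_const.sub ((continuous_const.mul (s0.pow 2)).mul (s1.pow 2))
  · refine Complex.equivRealProdCLM.symm.continuous.comp (Continuous.prodMk ?_ ?_)
    · exact (((continuous_const.mul s0).mul s1).mul c1).neg
    · exact ((continuous_const.mul s0).mul c0).mul (s1.pow 2)

theorem sqr_mem (t : Fin 2 → I) : sqr t ∈ S2 := by
  show (sqr t).1 ^ 2 + (sqr t).2.re ^ 2 + (sqr t).2.im ^ 2 = 1
  simp only [sqr]
  have h0 := Real.sin_sq_add_cos_sq (Real.pi * (t 0 : ℝ))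
  have h1 := Real.sin_sq_add_cos_sq (Real.pi * (t 1 : ℝ))
  have h0' : Real.cos (Real.pi * (t 0 : ℝ)) ^ 2 = 1 - Real.sin (Real.pi * (t 0 : ℝ)) ^ 2 := by
    linarith
  have h1' : Real.cos (Real.pi * (t 1 : ℝ)) ^ 2 = 1 - Real.sin (Real.pi * (t 1 : ℝ)) ^ 2 := by
    linarith
  generalize Real.sin (Real.pi * (t 0 : ℝ)) = a at *
  generalize Real.sin (Real.pi * (t 1 : ℝ)) = b at *
  generalize Real.cos (Real.pi * (t 0 : ℝ)) = A at *
  generalize Real.cos (Real.pi * (t 1 : ℝ)) = B at *
  have e : (1 - 2 * a ^ 2 * b ^ 2) ^ 2 + (-(2 * a * b * B)) ^ 2 + (2 * a * A * b ^ 2) ^ 2 =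
      (1 - 2 * a ^ 2 * b ^ 2) ^ 2 + 4 * a ^ 2 * b ^ 2 * B ^ 2 + 4 * a ^ 2 * b ^ 4 * A ^ 2 := by ring
  rw [e, h0', h1']
  ring

theorem bd_cases {t : Fin 2 → I} (h : t ∈ Cube.boundary (Fin 2)) :
    t 0 = 0 ∨ t 0 = 1 ∨ t 1 = 0 ∨ t 1 = 1 := by
  obtain ⟨i, hi⟩ := h
  fin_cases i
  · rcases hi with hi | hi
    · exact Or.inl hi
    · exact Or.inr (Or.inl hi)
  · rcases hi with hi | hi
    · exact Or.inr (Or.inr (Or.inl hi))
    · exact Or.inr (Or.inr (Or.inr hi))

theorem sqr_bd {t : Fin 2 → I} (ht : t ∈ Cube.boundary (Fin 2)) : sqr t = (1, 0) := by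
  unfold sqr
  rcases bd_cases ht with h | h | h | h <;> rw [h]
  · simp
    rfl
  · simp
    rfl
  · simp
    rfl
  · simp
    rfl

theorem lon_le (m : R3) : lon m / (2 * Real.pi) ∈ Icc (0 : ℝ) 1 := by
  have hpi := Real.pi_pos
  have h1 := Complex.neg_pi_lt_arg m.2
  have h2 := Complex.arg_le_pi m.2
  have h3 : 0 ≤ lon m ∧ lon m ≤ 2 * Real.pi := by
    unfold lon
    split_ifs with h
    · exact ⟨h, by linarith⟩
    · exact ⟨by linarith, by linarith [not_le.1 h]⟩
  refine ⟨div_nonneg h3.1 (by linarith), ?_⟩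
  rw [div_le_one (by linarith)]
  exact h3.2

/-- a family of spheres given in polar coordinates is a free homotopy -/
theorem hfree (hPQ : StPQ) {X : Type} [TopologicalSpace X] (Γ : I × ℝ × ℝ → X)
    (hc : Continuous Γ) (x y : X) (h1 : ∀ z, ∀ v ∈ Icc (0 : ℝ) 1, Γ (z, 0, v) = Γ (z, 1, v))
    (h2 : ∀ z, ∀ ρ ∈ Icc (0 : ℝ) 1, Γ (z, ρ, 0) = x)
    (h3 : ∀ z, ∀ ρ ∈ Icc (0 : ℝ) 1, Γ (z, ρ, 1) = y) :
    Hfree (fun t => sph2 (fun q => Γ (0, q)) (sqr t)) (fun t => sph2 (fun q => Γ (1, q)) (sqr t)) := by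
  have h00 : (0 : ℝ) ∈ Icc (0 : ℝ) 1 := ⟨le_rfl, zero_le_one⟩
  have hk := (hPQ X I Γ hc.continuousOn h1 (fun z ρ hρ => by rw [h2 z ρ hρ, h2 z 0 h00])
    (fun z ρ hρ => by rw [h3 z ρ hρ, h3 z 0 h00])).1
  refine ⟨fun z => sph2 (fun q => Γ (projIcc (0 : ℝ) 1 zero_le_one z.1, q)) (sqr z.2), ?_, ?_, ?_, ?_⟩
  · have hm : Continuous fun z : ℝ × (Fin 2 → I) =>
        ((projIcc (0 : ℝ) 1 zero_le_one z.1, sqr z.2) : I × R3) :=
      (continuous_projIcc.comp continuous_fst).prodMk (cont_sqr.comp continuous_snd)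
    exact (hk.comp_continuous hm fun z => ⟨mem_univ _, sqr_mem _⟩).continuousOn
  · intro t
    have : projIcc (0 : ℝ) 1 zero_le_one 0 = 0 := projIcc_left _
    simp only [this]
  · intro t
    have : projIcc (0 : ℝ) 1 zero_le_one 1 = 1 := projIcc_right _
    simp only [this]
  · intro u _ t ht t' ht'
    simp only [sqr_bd ht, sqr_bd ht']

theorem pr0 : projIcc (0 : ℝ) 1 zero_le_one 0 = 0 := projIcc_left _

theorem pr1 : projIcc (0 : ℝ) 1 zero_le_one 1 = 1 := projIcc_right _

/-- homotopic closed 2-cells -/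
theorem part1 (hPQ : StPQ) {X : Type} [TopologicalSpace X] {x y : X} {p : Path x y}
    (γ γ' : Path p p) (h : γ.Homotopic γ') : Hfree (sphP γ) (sphP γ') := by
  obtain ⟨K⟩ := h
  have hc : Continuous fun z : I × ℝ × ℝ =>
      K (z.1, projIcc (0 : ℝ) 1 zero_le_one z.2.1) (projIcc (0 : ℝ) 1 zero_le_one z.2.2) := by
    have e1 : Continuous fun z : I × ℝ × ℝ => K (z.1, projIcc (0 : ℝ) 1 zero_le_one z.2.1) :=
      K.continuous.comp (continuous_fst.prodMk (continuous_projIcc.comp
        (continuous_fst.comp continuous_snd)))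
    have e2 : Continuous fun z : I × ℝ × ℝ => projIcc (0 : ℝ) 1 zero_le_one z.2.2 :=
      continuous_projIcc.comp (continuous_snd.comp continuous_snd)
    exact e1.eval e2
  have key := hfree hPQ (fun z : I × ℝ × ℝ =>
      K (z.1, projIcc (0 : ℝ) 1 zero_le_one z.2.1) (projIcc (0 : ℝ) 1 zero_le_one z.2.2)) hc x y
    (by
      intro z v _
      simp only [pr0, pr1]
      rw [Path.Homotopy.source, Path.Homotopy.target])
    (by
      intro z ρ _
      simp only [pr0]
      exact Path.source _)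
    (by
      intro z ρ _
      simp only [pr1]
      exact Path.target _)
  have e0 : (fun t : Fin 2 → I => sph2 (fun q : ℝ × ℝ =>
      K ((0 : I), projIcc (0 : ℝ) 1 zero_le_one q.1) (projIcc (0 : ℝ) 1 zero_le_one q.2)) (sqr t)) =
      sphP γ := by
    funext t
    simp only [sphP, sph2]
    rw [K.apply_zero]
    rfl
  have e1 : (fun t : Fin 2 → I => sph2 (fun q : ℝ × ℝ =>
      K ((1 : I), projIcc (0 : ℝ) 1 zero_le_one q.1) (projIcc (0 : ℝ) 1 zero_le_one q.2)) (sqr t)) =
      sphP γ' := by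
    funext t
    simp only [sphP, sph2]
    rw [K.apply_one]
    rfl
  rw [← e0, ← e1]
  exact key

/-- the periodic extension -/
noncomputable def per {Y : Type} [TopologicalSpace Y] {a : Y} (γ : Path a a) (s : ℝ) : Y :=
  if s ≤ 1 then γ.extend s else γ.extend (s - 1)

theorem cont_per {Y : Type} [TopologicalSpace Y] {a : Y} (γ : Path a a) : Continuous (per γ) := by
  unfold per
  refine Continuous.if_le γ.continuous_extend (γ.continuous_extend.comp (by fun_prop))
    continuous_id continuous_const ?_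
  intro s hs
  have : s = 1 := hs
  subst this
  rw [sub_self, Path.extend_zero, Path.extend_one]

theorem per_add {Y : Type} [TopologicalSpace Y] {a : Y} (γ : Path a a) {s : ℝ}
    (h0 : 0 ≤ s) (h1 : s ≤ 1) : per γ s = per γ (1 + s) := by
  unfold per
  rw [if_pos h1]
  rcases eq_or_lt_of_le h0 with h | h
  · subst h
    rw [add_zero, if_pos le_rfl, Path.extend_zero, Path.extend_one]
  · rw [if_neg (by linarith)]
    congr 1
    ring

/-- cyclic invariance -/
theorem part2 (hPQ : StPQ) {X : Type} [TopologicalSpace X] {x y : X} {p q : Path x y}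
    (γ : Path p q) (δ : Path q p) : Hfree (sphP (γ.trans δ)) (sphP (δ.trans γ)) := by
  have hc : Continuous fun z : I × ℝ × ℝ =>
      per (γ.trans δ) (z.2.1 + (z.1 : ℝ) / 2) (projIcc (0 : ℝ) 1 zero_le_one z.2.2) := by
    have e1 : Continuous fun z : I × ℝ × ℝ => per (γ.trans δ) (z.2.1 + (z.1 : ℝ) / 2) :=
      (cont_per (γ.trans δ)).comp (by fun_prop)
    have e2 : Continuous fun z : I × ℝ × ℝ => projIcc (0 : ℝ) 1 zero_le_one z.2.2 :=
      continuous_projIcc.comp (continuous_snd.comp continuous_snd)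
    exact e1.eval e2
  have key := hfree hPQ (fun z : I × ℝ × ℝ =>
      per (γ.trans δ) (z.2.1 + (z.1 : ℝ) / 2) (projIcc (0 : ℝ) 1 zero_le_one z.2.2)) hc x y
    (by
      intro z v _
      have hz0 := z.2.1
      have hz1 := z.2.2
      show per (γ.trans δ) (0 + (z : ℝ) / 2) _ = per (γ.trans δ) (1 + (z : ℝ) / 2) _
      rw [zero_add, per_add _ (by linarith) (by linarith)])
    (by
      intro z ρ _
      simp only [pr0]
      exact Path.source _)
    (by
      intro z ρ _
      simp only [pr1]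
      exact Path.target _)
  have e0 : (fun t : Fin 2 → I => sph2 (fun r : ℝ × ℝ =>
      per (γ.trans δ) (r.1 + ((0 : I) : ℝ) / 2) (projIcc (0 : ℝ) 1 zero_le_one r.2)) (sqr t)) =
      sphP (γ.trans δ) := by
    funext t
    simp only [sphP, sph2]
    have h := lon_le (sqr t)
    generalize lon (sqr t) / (2 * Real.pi) = ρ at h ⊢
    rw [Icc.coe_zero, zero_div, add_zero]
    unfold per
    rw [if_pos h.2]
    rfl
  have e1 : (fun t : Fin 2 → I => sph2 (fun r : ℝ × ℝ =>
      per (γ.trans δ) (r.1 + ((1 : I) : ℝ) / 2) (projIcc (0 : ℝ) 1 zero_le_one r.2)) (sqr t)) =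
      sphP (δ.trans γ) := by
    funext t
    simp only [sphP, sph2]
    have h := lon_le (sqr t)
    generalize lon (sqr t) / (2 * Real.pi) = ρ at h ⊢
    have e : per (γ.trans δ) (ρ + ((1 : I) : ℝ) / 2) = (δ.trans γ).extend ρ := by
      rw [Icc.coe_one]
      unfold per
      split_ifs with h1
      · have h2 : ρ ≤ 1 / 2 := by linarith
        rw [Path.extend_trans_of_half_le _ _ (by linarith [h.1] : 1 / 2 ≤ ρ + 1 / 2),
          Path.extend_trans_of_le_half _ _ h2]
        congr 1
        ring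
      · have h2 : 1 / 2 ≤ ρ := by linarith [not_le.1 h1]
        rw [Path.extend_trans_of_le_half _ _ (by linarith [h.2] : ρ + 1 / 2 - 1 ≤ 1 / 2),
          Path.extend_trans_of_half_le _ _ h2]
        congr 1
        ring
    rw [e]
    rfl
  rw [← e0, ← e1]
  exact key

end CCA

theorem m_CCA (hPQ : StPQ) : StCCA := by
  intro X _ y₀ sq hsq
  refine ⟨fun x y p γ γ' h => hsq.free _ _ (CCA.part1 hPQ γ γ' h), ?_⟩
  intro x y p q γ δ
  exact hsq.free _ _ (CCA.part2 hPQ γ δ)

end Pool.Agent.Helper70.HH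


end
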