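import Pool.Agent.Helper18.BI.R.FinDefs
import Pool.Agent.Helper18.BI.R.FinDefs3
import Pool.Agent.Helper18.BI.S5.FinDefs8
import Pool.Agent.Helper65.Barb.Defs
import Pool.Agent.Helper70.BI.FinDefs
import Pool.Agent.Helper70.BI.C.P62
import Pool.Agent.Helper70.BI.C.P65
import Pool.Agent.Helper70.BI.C.P67
import Pool.Agent.Helper70.BI.C.P79

/-!
# Project BI (MP_8e98f2_gt): collected modules, part 80

The contents of the modules
* Helper48.BI7.M_PCN
* Helper70.BI.HH.StHF
* Helper71.BI7.M_SC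

in one file, so that the whole proof builds in a short time.
-/

namespace Pool.Agent.Helper18.BI
end Pool.Agent.Helper18.BI

namespace Pool.Agent.Helper18.BI.R
end Pool.Agent.Helper18.BI.R

namespace Pool.Agent.Helper18.FinR
end Pool.Agent.Helper18.FinR

namespace Pool.Agent.Helper18.FinS
end Pool.Agent.Helper18.FinS

namespace Pool.Agent.Helper18.FinT
end Pool.Agent.Helper18.FinT

namespace Pool.Agent.Helper34.S5
end Pool.Agent.Helper34.S5

namespace Pool.Agent.Helper65.Barb
end Pool.Agent.Helper65.Barb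

namespace Pool.Agent.Helper70.Fin
end Pool.Agent.Helper70.Fin

namespace Pool.Agent.Helper70.T
end Pool.Agent.Helper70.T


/-! ## Helper48.BI7.M_PCN -/

section

/-!
# Project BI, stage 7 (H), module PCN (the complement of the fixed cuff is path connected)
-/

set_option autoImplicit false

open scoped Topology unitInterval Manifold ContDiff
open Set Pool.Agent.Helper65.Barb Pool.Agent.Helper18.BI

namespace Pool.Agent.Helper70.HH

namespace PCN

theorem rank_R5 : 1 < Module.rank ℝ (EuclideanSpace ℝ (Fin 5)) := by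
  rw [← Module.finrank_eq_rank, finrank_euclideanSpace_fin]
  norm_num

instance : ConnectedSpace S4 :=
  isConnected_iff_connectedSpace.1 (isConnected_sphere rank_R5 0 zero_le_one)

theorem ne_neg {v : EuclideanSpace ℝ (Fin 5)} (h : ‖v‖ = 1) : v ≠ -v := by
  intro he
  have h3 : v + v = 0 := by
    have h4 : v + v = v + -v := congrArg (fun w => v + w) he
    rw [h4]
    exact add_neg_cancel v
  have h5 : (2 : ℝ) • v = 0 := by
    rw [two_smul]
    exact h3
  rcases smul_eq_zero.1 h5 with h6 | h6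
  · norm_num at h6
  · rw [h6, norm_zero] at h
    exact zero_ne_one h

instance : Nontrivial S4 := by
  have h : ‖EuclideanSpace.basisFun (Fin 5) ℝ 0‖ = 1 :=
    (EuclideanSpace.basisFun (Fin 5) ℝ).orthonormal.1 0
  have h1 : EuclideanSpace.basisFun (Fin 5) ℝ 0 ∈
      Metric.sphere (0 : EuclideanSpace ℝ (Fin 5)) 1 := by
    rw [mem_sphere_zero_iff_norm]
    exact h
  have h2 : -EuclideanSpace.basisFun (Fin 5) ℝ 0 ∈
      Metric.sphere (0 : EuclideanSpace ℝ (Fin 5)) 1 := by
    rw [mem_sphere_zero_iff_norm, norm_neg]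
    exact h
  exact ⟨⟨_, h1⟩, ⟨_, h2⟩, fun he => ne_neg h (congrArg Subtype.val he)⟩

theorem interior_pair (x y : S4) : interior ({x, y} : Set S4) = ∅ := by
  have h : ({x, y} : Set S4) = {x} ∪ {y} := rfl
  rw [h, interior_union_isClosed_of_interior_empty isClosed_singleton (interior_singleton y)]
  exact interior_singleton x

end PCN

open PCN Pool.Agent.Helper34.S5 in
theorem m_PCN (hX2c : Pool.Agent.Helper70.BI.StX2c) (hX3 : StX3) : StPCN := by
  rintro B hB A rfl x y
  have hcl := X2.closed_image B hB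
  have hfin : IsClosed ({x.1, y.1} : Set S4) := (Set.toFinite _).isClosed
  have hint : interior (B '' SP ∪ {x.1, y.1}) = ∅ := by
    rw [interior_union_isClosed_of_interior_empty hcl (interior_pair _ _)]
    exact X2.interior_image B hB
  obtain ⟨c, hc, hcr⟩ := hX2c (B '' SP ∪ {x.1, y.1}) (hcl.union hfin).isCompact hint
  have hBE : EmbOn (𝓡 4) B SP :=
    ⟨fun p hp => ⟨B, hB hp, fun q _ => rfl⟩, B.toPartialEquiv.injOn.mono hB⟩
  obtain ⟨h1, U, hU, hSU, h2⟩ := hX3 (EuclideanSpace ℝ (Fin 4)) (EuclideanSpace ℝ (Fin 4)) (𝓡 4) S4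
    c B SP hc hBE (subset_union_left.trans hcr)
  have hci : ∀ p q : R4, c p = c q → p = q := fun p q h => hc.2 (mem_univ p) (mem_univ q) h
  have hcc : Continuous c := continuous_iff_continuousAt.2 fun p =>
    (hc.1 p (mem_univ p)).contMDiffAt.continuousAt
  set G : R4 → R4 := fun p => Function.invFun c (B p) with hG
  have hK : IsClosed (G '' sph 1) := (isCompact_K h1).isClosed
  obtain ⟨η, -, T, -, -, -⟩ := exists_tub 𝓘(ℝ, R4) h1
  have hPC : ∀ (q : R4) (r : ℝ), 0 < r → IsPathConnected (Metric.ball q r \ G '' sph 1) :=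
    fun q r hr => ball_pc hK (fun p hp O hO => T.pc hp hO) q r hr
  have hmem : ∀ p : R4, p ∉ G '' sph 1 → c p ∉ B '' sph 1 := by
    rintro p hp ⟨q, hq, he⟩
    refine hp ⟨q, hq, ?_⟩
    exact hci _ _ ((h2 q (hSU (sph1_subset_SP hq))).trans he)
  obtain ⟨x', hx'⟩ := hcr (Or.inr (Or.inl rfl) : x.1 ∈ B '' SP ∪ {x.1, y.1})
  obtain ⟨y', hy'⟩ := hcr (Or.inr (Or.inr rfl) : y.1 ∈ B '' SP ∪ {x.1, y.1})
  have hoff : ∀ (p : R4) (z : {z : S4 // z ∉ B '' sph 1}), c p = z.1 → p ∉ G '' sph 1 := by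
    rintro p z he ⟨q, hq, hqe⟩
    refine z.2 ⟨q, hq, ?_⟩
    rw [← he, ← hqe]
    exact (h2 q (hSU (sph1_subset_SP hq))).symm
  obtain ⟨b, -⟩ := exists_path (K := G '' sph 1) hPC x' (r := dist y' x' + 1)
    (by positivity) ⟨x', hoff x' x hx'⟩ ⟨y', hoff y' y hy'⟩
    (Metric.mem_ball_self (by positivity)) (Metric.mem_ball.2 (lt_add_one _))
  exact ⟨{ toFun := fun t => ⟨c (b t).1, hmem _ (b t).2⟩
           continuous_toFun := (hcc.comp (continuous_subtype_val.comp b.continuous)).subtype_mk _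
           source' := Subtype.ext (by
             show c (b 0).1 = x.1
             rw [b.source]
             exact hx')
           target' := Subtype.ext (by
             show c (b 1).1 = y.1
             rw [b.target]
             exact hy') }⟩

end Pool.Agent.Helper70.HH


end

/-! ## Helper70.BI.HH.StHF -/

section

/-!
# Project BI, stage 7 (H): the final theorem in the vocabulary of the hand-ins
-/

set_option autoImplicit false

open scoped Topology unitInterval Manifold ContDiff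
open Set Pool.Agent.Helper65.Barb Pool.Agent.Helper18.BI
open Pool.Agent.Helper70.Fin (Emb coreSphere)
open Pool.Agent.Helper18.FinR (Pi2)
open Pool.Agent.Helper18.FinS
open Pool.Agent.Helper18.FinT (Drift)

namespace Pool.Agent.Helper70.HH

/-- the second homotopy group of the complement of the fixed cuff of `B` modulo the quotients of freely homotopic
elements, written additively -/
abbrev Coinv (B : Emb) (y₀ : Off B) : Type :=
  Additive (Pi2 (fixedCuff B) y₀ ⧸ Subgroup.closure (Drift B y₀))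

/-- the class of `z` modulo drift -/
noncomputable def cv {B : Emb} {y₀ : Off B} (z : Pi2 (fixedCuff B) y₀) : Coinv B y₀ :=
  Additive.ofMul (QuotientGroup.mk z)

/-- the third homology group bounds the implantations -/
def StGHB : Prop :=
  ∃ (W : S4 → S4) (B₀ : Emb), IsImplantation B₀ W ∧ BoundsDisjointBalls B₀ ∧
    Isotopic (fun x => W (W x)) (fun x => x) ∧ IsCentral W ∧
    (∀ (B : Emb) (y₀ : Off B), IsBarbell B → IsBase B y₀ →
      ∃ (θ : H3 (FundamentalGroup (Off B) y₀) →+ Coinv B y₀)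
        (Ψ : H3 (FundamentalGroup (Off B) y₀) → S4 → S4), Function.Surjective θ ∧
        (∀ h h' : H3 (FundamentalGroup (Off B) y₀), (∃ z ∈ gen (MovedClasses B y₀), θ h = cv z) →
          (∃ z ∈ gen (MovedClasses B y₀), θ h' = cv z) →
          UpTo W (Ψ (h + h')) (fun x => Ψ h (Ψ h' x))) ∧
        (∀ (B' : Emb) (φ : S4 → S4) (z : Pi2 (fixedCuff B) y₀)
          (h : H3 (FundamentalGroup (Off B) y₀)), IsImplantation B' φ → SameFixed B B' →
          IsClass B y₀ B' z → θ h = cv z → UpTo W φ (Ψ h)) ∧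
        ∀ h : H3 (FundamentalGroup (Off B) y₀),
          (∃ z ∈ gen {v | IsParallelClass B y₀ v}, θ h = cv z) → UpTo W (Ψ h) (fun x => x)) ∧
    ∀ (B B' : Emb) (y₀ : Off B) (φ : S4 → S4), IsBarbell B → IsBase B y₀ →
      (Subsingleton (H3 (FundamentalGroup (Off B) y₀)) ∨
        Nonempty (FundamentalGroup (Off B) y₀ ≃* Multiplicative ℤ)) →
      (B' = B ∨ Exchanged B B') → IsImplantation B' φ → UpTo W φ (fun x => x)

namespace GHB

/-! ### calculus up to `W` -/

section
variable {W : S4 → S4} (hCI : StCI) (h2 : Isotopic (fun x => W (W x)) (fun x => x))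
  (hc : IsCentral W)
include hCI

theorem c_iff {φ ψ : S4 → S4} : CIsot (𝓡 4) φ ψ ↔ Isot (𝓡 4) φ ψ := by
  obtain ⟨-, -, -, -, -, -, -, -, ciso, ccomp⟩ := hCI _ _ (𝓡 4) S4
  exact ⟨ciso φ ψ, ccomp inferInstance φ ψ⟩

theorem i_self {φ ψ : S4 → S4} (h : UpTo W φ ψ) : Isotopic φ φ := by
  obtain ⟨-, -, cself, -⟩ := hCI _ _ (𝓡 4) S4
  rcases h with h | h
  · exact (c_iff hCI).1 (cself _ _ ((c_iff hCI).2 h))
  · exact (c_iff hCI).1 (cself _ _ ((c_iff hCI).2 h))

theorem i_symm {φ ψ : S4 → S4} (h : Isotopic φ ψ) : Isotopic ψ φ := by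
  obtain ⟨-, cs, -⟩ := hCI _ _ (𝓡 4) S4
  exact (c_iff hCI).1 (cs _ _ ((c_iff hCI).2 h))

theorem i_trans {φ ψ χ : S4 → S4} (h : Isotopic φ ψ) (h' : Isotopic ψ χ) : Isotopic φ χ := by
  obtain ⟨-, -, -, ct, -⟩ := hCI _ _ (𝓡 4) S4
  exact (c_iff hCI).1 (ct _ _ _ ((c_iff hCI).2 h) ((c_iff hCI).2 h'))

theorem i_comp {φ ψ φ' ψ' : S4 → S4} (h : Isotopic φ ψ) (h' : Isotopic φ' ψ') :
    Isotopic (fun x => φ (φ' x)) (fun x => ψ (ψ' x)) := by
  obtain ⟨-, -, -, -, cc, -⟩ := hCI _ _ (𝓡 4) S4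
  exact (c_iff hCI).1 (cc _ _ _ _ ((c_iff hCI).2 h) ((c_iff hCI).2 h'))

omit hCI in
include hc in
theorem WW : Isotopic W W :=
  hc (fun x => x) (fun x => x) contMDiff_id contMDiff_id (fun _ => rfl) fun _ => rfl

include h2 hc

theorem u_trans {φ ψ χ : S4 → S4} (hχ : Isotopic χ χ) (h : UpTo W φ ψ) (h' : UpTo W ψ χ) :
    UpTo W φ χ := by
  rcases h with h | h
  · rcases h' with h' | h'
    · exact Or.inl (i_trans hCI h h')
    · exact Or.inr (i_trans hCI h h')
  · rcases h' with h' | h'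
    · exact Or.inr (i_trans hCI h (i_comp hCI (WW hc) h'))
    · left
      refine i_trans hCI h (i_trans hCI (i_comp hCI (WW hc) h') ?_)
      exact i_comp hCI (φ := fun x => W (W x)) (ψ := fun x => x) (φ' := χ) (ψ' := χ) h2 hχ

theorem u_symm {φ ψ : S4 → S4} (hψ : Isotopic ψ ψ) (h : UpTo W φ ψ) : UpTo W ψ φ := by
  rcases h with h | h
  · exact Or.inl (i_symm hCI h)
  · right
    have e1 : Isotopic (fun x => W (φ x)) (fun x => W (W (ψ x))) :=
      i_comp hCI (WW hc) h
    have e2 : Isotopic (fun x => W (W (ψ x))) ψ :=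
      i_comp hCI (φ := fun x => W (W x)) (ψ := fun x => x) (φ' := ψ) (ψ' := ψ) h2 hψ
    exact i_symm hCI (i_trans hCI e1 e2)

theorem u_mul {φ ψ χ : S4 → S4} (hχ : Isotopic χ χ) (h : UpTo W φ (fun x => ψ (χ x)))
    (h' : UpTo W ψ (fun x => x)) : UpTo W φ χ := by
  refine u_trans hCI h2 hc hχ h ?_
  rcases h' with h' | h'
  · exact Or.inl (i_comp hCI (ψ := fun x => x) (φ' := χ) (ψ' := χ) h' hχ)
  · exact Or.inr (i_comp hCI (ψ := fun x => W x) (φ' := χ) (ψ' := χ) h' hχ)

end

theorem gen_mono {B : Emb} {y₀ : Off B} {S T : Set (Pi2 (fixedCuff B) y₀)} (h : S ⊆ T) {z}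
    (hz : z ∈ gen S) : z ∈ gen T := Subgroup.closure_mono h hz

theorem gen_mul {B : Emb} {y₀ : Off B} {S : Set (Pi2 (fixedCuff B) y₀)} {z z'}
    (hz : z ∈ gen S) (hz' : z' ∈ gen S) : z * z' ∈ gen S :=
  (Subgroup.closure S).mul_mem hz hz'

theorem gen_inv {B : Emb} {y₀ : Off B} {S : Set (Pi2 (fixedCuff B) y₀)} {z}
    (hz : z ∈ gen S) : z⁻¹ ∈ gen S :=
  (Subgroup.closure S).inv_mem hz

theorem fixedCuff_eq (B : Emb) : fixedCuff B = B '' sph 1 := by
  unfold fixedCuff
  rw [R.RELS.coreSphere_eq]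
  rfl

end GHB

theorem ghb (hCI : StCI) (hSQD : T.StSQD) (hMQ : R.StMQ) (h8 : S5.StFinal8) (hPCN : StPCN)
    (hCHV : StCHV) (hSUR : StSUR) (hCYC : ∀ (G : Type) [Group G],
      Nonempty (G ≃* Multiplicative ℤ) → Subsingleton (H3 G)) : StGHB := by
  obtain ⟨W, B₀, w1, w2, w3, w4, w5, -, w7⟩ := h8
  -- the surjection
  have hθ : ∀ (B : Emb) (y₀ : Off B), IsBarbell B →
      ∃ θ : H3 (FundamentalGroup (Off B) y₀) →+ Coinv B y₀, Function.Surjective θ := by
    intro B y₀ hB
    have hSP : SP ⊆ B.source := fun p hp => hB (Helper70.BI.Fin2.SP_sub_NB hp)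
    have : PathConnectedSpace (Off B) :=
      ⟨⟨y₀⟩, fun x y => hPCN B hSP _ (GHB.fixedCuff_eq B) x y⟩
    obtain ⟨θ, hθ⟩ := hSUR (Off B) y₀ (hCHV B hSP _ (GHB.fixedCuff_eq B))
    have hsub : Subgroup.closure (T.drift y₀) ≤
        (Subgroup.closure (Drift B y₀)).comap (MonoidHom.id _) := by
      rw [Subgroup.closure_le]
      intro v hv
      obtain ⟨k, x, x', h1, h2, h3⟩ := T.SPN.drift_sub hSQD hMQ hv
      exact Subgroup.subset_closure ⟨k, x, x', h1, h2, h3⟩
    refine ⟨(MonoidHom.toAdditive (QuotientGroup.map _ _ (MonoidHom.id _) hsub)).comp θ, ?_⟩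
    intro m
    obtain ⟨z, hz⟩ := QuotientGroup.mk_surjective (Additive.toMul m)
    obtain ⟨h, hh⟩ := hθ (Additive.ofMul (QuotientGroup.mk z))
    refine ⟨h, ?_⟩
    show MonoidHom.toAdditive (QuotientGroup.map _ _ (MonoidHom.id _) hsub) (θ h) = m
    rw [hh]
    exact congrArg Additive.ofMul hz
  have hcv : ∀ (B : Emb) (y₀ : Off B) (z z' : Pi2 (fixedCuff B) y₀), cv z = cv z' →
      z' * z⁻¹ ∈ Subgroup.closure (Drift B y₀) := by
    intro B y₀ z z' h
    have h1 : (QuotientGroup.mk z : Pi2 (fixedCuff B) y₀ ⧸ Subgroup.closure (Drift B y₀)) =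
      QuotientGroup.mk z' := h
    have h2 := QuotientGroup.eq.1 h1
    rwa [R.FIN4.pi2_comm] at h2
  refine ⟨W, B₀, w1, w2, w3, w4, ?_, ?_⟩
  · intro B y₀ hB hy
    obtain ⟨θ, hθs⟩ := hθ B y₀ hB
    obtain ⟨e1, Φ, e2, e3, e4⟩ := w5 B y₀ hB hy
    classical
    -- representatives
    let P : H3 (FundamentalGroup (Off B) y₀) → Prop := fun h =>
      ∃ z ∈ gen (MovedClasses B y₀), θ h = cv z
    have hone : (1 : Pi2 (fixedCuff B) y₀) ∈ gen (MovedClasses B y₀) :=
      Subgroup.one_mem (Subgroup.closure (MovedClasses B y₀))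
    have hself : ∀ z ∈ gen (MovedClasses B y₀), Isotopic (Φ z) (Φ z) := by
      intro z hz
      have h1 := GHB.i_self hCI (e2 z hz 1 hone)
      rwa [mul_one] at h1
    -- change of the representative
    have hrep : ∀ z ∈ gen (MovedClasses B y₀), ∀ z' ∈ gen (MovedClasses B y₀), cv z = cv z' →
        UpTo W (Φ z') (Φ z) := by
      intro z hz z' hz' h
      have h1 : z' * z⁻¹ ∈ gen (MovedClasses B y₀) := GHB.gen_mul hz' (GHB.gen_inv hz)
      have h2 := e2 _ h1 z hz
      rw [inv_mul_cancel_right] at h2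
      refine GHB.u_mul hCI w3 w4 (hself z hz) h2 (e4 _ h1 ?_)
      exact GHB.gen_mono subset_union_right (hcv B y₀ z z' h)
    have hΨ : ∃ Ψ : H3 (FundamentalGroup (Off B) y₀) → S4 → S4, ∀ h, P h →
        ∃ z ∈ gen (MovedClasses B y₀), θ h = cv z ∧ Ψ h = Φ z := by
      refine ⟨fun h => if hh : P h then Φ (Classical.choose hh) else fun x => x, fun h hh => ?_⟩
      obtain ⟨a1, a2⟩ := Classical.choose_spec hh
      exact ⟨Classical.choose hh, a1, a2, dif_pos hh⟩
    obtain ⟨Ψ, hΨ⟩ := hΨ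
    refine ⟨θ, Ψ, hθs, ?_, ?_, ?_⟩
    · intro h h' hh hh'
      have hs : P (h + h') := by
        obtain ⟨z, hz, hz2⟩ := hh
        obtain ⟨z', hz', hz2'⟩ := hh'
        refine ⟨z * z', GHB.gen_mul hz hz', ?_⟩
        rw [map_add, hz2, hz2']
        rfl
      obtain ⟨z, a1, a2, a3⟩ := hΨ h hh
      obtain ⟨z', b1, b2, b3⟩ := hΨ h' hh'
      obtain ⟨z'', c1, c2, c3⟩ := hΨ _ hs
      rw [a3, b3, c3]
      have h1 : cv (z * z') = cv z'' := by
        rw [← c2, map_add, a2, b2]
        rfl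
      have h2 := hrep _ (GHB.gen_mul a1 b1) _ c1 h1
      exact GHB.u_trans hCI w3 w4 (GHB.i_comp hCI (hself _ a1) (hself _ b1)) h2 (e2 _ a1 _ b1)
    · intro B' φ z h hφ hsf hcl hz
      have hzm : z ∈ gen (MovedClasses B y₀) :=
        Subgroup.subset_closure (Or.inl ⟨B', hφ.1, hsf, hcl⟩)
      obtain ⟨z', a1, a2, a3⟩ := hΨ h ⟨z, hzm, hz⟩
      rw [a3]
      have h1 : UpTo W (Φ z) (Φ z') := hrep _ a1 _ hzm (a2.symm.trans hz)
      exact GHB.u_trans hCI w3 w4 (hself _ a1) (e3 B' φ z hφ hsf hcl) h1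
    · rintro h ⟨z, hz, hz2⟩
      have hzm : z ∈ gen (MovedClasses B y₀) := GHB.gen_mono (fun v hv => Or.inr hv) hz
      obtain ⟨z', a1, a2, a3⟩ := hΨ h ⟨z, hzm, hz2⟩
      rw [a3]
      refine e4 _ a1 ?_
      have h1 := hcv B y₀ z _ (hz2.symm.trans a2)
      have h3 : z' * z⁻¹ * z ∈
          gen (Helper18.FinT.ElementaryClasses B y₀ ∪ Drift B y₀) :=
        GHB.gen_mul (GHB.gen_mono subset_union_right h1)
          (GHB.gen_mono (fun v hv => Or.inl (Or.inr hv)) hz)
      rwa [inv_mul_cancel_right] at h3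
  · intro B B' y₀ φ hB hy hH' hBB' hφ
    have hH : Subsingleton (H3 (FundamentalGroup (Off B) y₀)) := hH'.elim id (hCYC _)
    obtain ⟨θ, hθs⟩ := hθ B y₀ hB
    obtain ⟨e1, -⟩ := w5 B y₀ hB hy
    obtain ⟨z, hz⟩ := e1 B hB ⟨univ, isOpen_univ, subset_univ _, fun _ _ => rfl⟩
    have hzd : z ∈ Subgroup.closure (Drift B y₀) := by
      obtain ⟨h, hh⟩ := hθs (cv z)
      have h0 : h = 0 := Subsingleton.elim _ _
      rw [h0, map_zero] at hh
      have h1 := hcv B y₀ 1 z (show cv (1 : Pi2 (fixedCuff B) y₀) = cv z from hh)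
      rwa [inv_one, mul_one] at h1
    have hel : Helper18.FinT.Elementary B := by
      refine Helper18.FinT.Elementary.sum B y₀ 0 (fun i => i.elim0) (fun i => i.elim0) z hB hy
        (fun i => i.elim0) (fun i => i.elim0) (fun i => i.elim0) ?_ hz
      exact GHB.gen_mono subset_union_right hzd
    rcases hBB' with rfl | hex
    · exact w7 _ φ hel hφ
    · exact w7 B' φ (Helper18.FinT.Elementary.exchange B B' hel hφ.1 hex) hφ

end Pool.Agent.Helper70.HH


end

/-! ## Helper71.BI7.M_SC -/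

section

/-!
# Project BI, stage 7 (H), module SC: classes of free spheres modulo drift
-/

set_option autoImplicit false

open scoped Topology unitInterval
open Set Pool.Agent.Helper65.Barb Pool.Agent.Helper18.BI
open Pool.Agent.Helper18.FinR (sqr)
open Pool.Agent.Helper18.BI.R (S2)
open Pool.Agent.Helper70.T

namespace Pool.Agent.Helper70.HH

namespace SC

variable {X : Type} [TopologicalSpace X]

/-- distance to the boundary -/
private noncomputable def dd (t : Fin 2 → I) : ℝ :=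
  min (min (t 0 : ℝ) (1 - (t 0 : ℝ))) (min (t 1 : ℝ) (1 - (t 1 : ℝ)))

private theorem cont_dd : Continuous dd := by
  unfold dd
  fun_prop

private theorem dd_nonneg (t : Fin 2 → I) : 0 ≤ dd t :=
  le_min (le_min (t 0).2.1 (by linarith [(t 0).2.2])) (le_min (t 1).2.1 (by linarith [(t 1).2.2]))

private theorem dd_bd {t : Fin 2 → I} (h : t ∈ Cube.boundary (Fin 2)) : dd t = 0 := by
  refine le_antisymm ?_ (dd_nonneg t)
  unfold dd
  rcases mem_bd h with h | h | h | h
  · rw [h]
    exact (min_le_left _ _).trans ((min_le_left _ _).trans (by norm_num))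
  · rw [h]
    exact (min_le_left _ _).trans ((min_le_right _ _).trans (by norm_num))
  · rw [h]
    exact (min_le_right _ _).trans ((min_le_left _ _).trans (by norm_num))
  · rw [h]
    exact (min_le_right _ _).trans ((min_le_right _ _).trans (by norm_num))

private noncomputable def cc (u : I) : ℝ := (1 - (u : ℝ)) / 4

private theorem cc_pos (u : I) : 0 < 1 - 2 * cc u := by
  unfold cc
  linarith [u.2.1]

/-- the inner coordinates -/
private noncomputable def inn (z : I × (Fin 2 → I)) (i : Fin 2) : I :=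
  projIcc 0 1 zero_le_one (((z.2 i : ℝ) - cc z.1) / (1 - 2 * cc z.1))

private theorem cont_inn : Continuous inn := by
  refine continuous_pi fun i => continuous_projIcc.comp ?_
  have h1 : Continuous fun z : I × (Fin 2 → I) => (z.2 i : ℝ) := by fun_prop
  have h2 : Continuous fun z : I × (Fin 2 → I) => cc z.1 := by
    unfold cc
    fun_prop
  exact (h1.sub h2).div (continuous_const.sub (continuous_const.mul h2)) fun z => (cc_pos z.1).ne'

private theorem inn_bd {z : I × (Fin 2 → I)} (h : dd z.2 = cc z.1) :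
    inn z ∈ Cube.boundary (Fin 2) := by
  have key : ∃ i : Fin 2, (z.2 i : ℝ) = cc z.1 ∨ 1 - (z.2 i : ℝ) = cc z.1 := by
    unfold dd at h
    rcases min_choice (min (z.2 0 : ℝ) (1 - (z.2 0 : ℝ))) (min (z.2 1 : ℝ) (1 - (z.2 1 : ℝ)))
      with e | e
    · rw [e] at h
      rcases min_choice (z.2 0 : ℝ) (1 - (z.2 0 : ℝ)) with e' | e'
      · exact ⟨0, Or.inl (e'.symm.trans h)⟩
      · exact ⟨0, Or.inr (e'.symm.trans h)⟩
    · rw [e] at h
      rcases min_choice (z.2 1 : ℝ) (1 - (z.2 1 : ℝ)) with e' | e'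
      · exact ⟨1, Or.inl (e'.symm.trans h)⟩
      · exact ⟨1, Or.inr (e'.symm.trans h)⟩
  obtain ⟨i, hi⟩ := key
  refine ⟨i, ?_⟩
  rcases hi with hi | hi
  · left
    unfold inn
    rw [hi, sub_self, zero_div, projIcc_left]
    rfl
  · right
    unfold inn
    have e : (z.2 i : ℝ) - cc z.1 = 1 - 2 * cc z.1 := by linarith
    rw [e, div_self (cc_pos z.1).ne', projIcc_right]
    rfl

private theorem transport {y₀ y : X} (r : Path y₀ y) (f : GenLoop (Fin 2) X y) :
    ∃ (g : GenLoop (Fin 2) X y₀) (F : I × (Fin 2 → I) → X), Continuous F ∧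
      (∀ t, F (0, t) = g t) ∧ (∀ t, F (1, t) = f t) ∧
      ∀ u : I, ∀ t ∈ Cube.boundary (Fin 2), F (u, t) = r.extend u := by
  let F : I × (Fin 2 → I) → X := fun z =>
    if dd z.2 ≤ cc z.1 then r.extend ((z.1 : ℝ) + 4 * dd z.2) else f (inn z)
  have hF : Continuous F := by
    have h2 : Continuous fun z : I × (Fin 2 → I) => cc z.1 := by
      unfold cc
      fun_prop
    have h3 : Continuous fun z : I × (Fin 2 → I) => dd z.2 := cont_dd.comp continuous_snd
    refine Continuous.if_le (r.continuous_extend.comp ?_) (f.1.continuous.comp cont_inn) h3 h2 ?_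
    · exact (continuous_subtype_val.comp continuous_fst).add (continuous_const.mul h3)
    · intro z hz
      have e : (z.1 : ℝ) + 4 * dd z.2 = 1 := by
        rw [hz]
        unfold cc
        ring
      show r.extend ((z.1 : ℝ) + 4 * dd z.2) = f (inn z)
      rw [e, r.extend_one]
      exact (f.2 _ (inn_bd hz)).symm
  have hb : ∀ u : I, ∀ t ∈ Cube.boundary (Fin 2), F (u, t) = r.extend u := by
    intro u t ht
    show (if dd t ≤ cc u then r.extend ((u : ℝ) + 4 * dd t) else f (inn (u, t))) = _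
    rw [dd_bd ht, if_pos (by unfold cc; linarith [u.2.2]), mul_zero, add_zero]
  have h1 : ∀ t, F (1, t) = f t := by
    intro t
    have c1 : cc 1 = 0 := by
      unfold cc
      simp
    show (if dd t ≤ cc 1 then r.extend (((1 : I) : ℝ) + 4 * dd t) else f (inn (1, t))) = _
    by_cases h : dd t ≤ cc 1
    · rw [if_pos h]
      rw [c1] at h
      have h0 : dd t = 0 := le_antisymm h (dd_nonneg t)
      have hi : inn (1, t) = t := by
        funext i
        unfold inn
        show projIcc 0 1 zero_le_one (((t i : ℝ) - cc 1) / (1 - 2 * cc 1)) = t i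
        rw [c1, mul_zero, sub_zero, sub_zero, div_one]
        exact projIcc_val _ _
      have hm : t ∈ Cube.boundary (Fin 2) := by
        have := inn_bd (z := (1, t)) (by show dd t = cc 1; rw [c1, h0])
        rwa [hi] at this
      rw [h0, mul_zero, add_zero, Icc.coe_one, r.extend_one]
      exact (f.2 t hm).symm
    · rw [if_neg h]
      congr 1
      funext i
      unfold inn
      show projIcc 0 1 zero_le_one (((t i : ℝ) - cc 1) / (1 - 2 * cc 1)) = t i
      rw [c1, mul_zero, sub_zero, sub_zero, div_one]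
      exact projIcc_val _ _
  refine ⟨⟨⟨fun t => F (0, t), hF.comp (by fun_prop)⟩, ?_⟩, F, hF, fun t => rfl, h1, hb⟩
  intro t ht
  show F (0, t) = y₀
  rw [hb 0 t ht, Icc.coe_zero, r.extend_zero]

private theorem Hfree_symm {f g : (Fin 2 → I) → X} (h : Hfree f g) : Hfree g f := by
  obtain ⟨F, c, a0, a1, ab⟩ := h
  refine ⟨fun z => F (1 - z.1, z.2), ?_, ?_, ?_, ?_⟩
  · refine c.comp (by fun_prop) ?_
    rintro z ⟨hz, -⟩
    exact ⟨⟨by linarith [hz.2], by linarith [hz.1]⟩, mem_univ _⟩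
  · intro t
    show F (1 - 0, t) = g t
    rw [sub_zero, a1]
  · intro t
    show F (1 - 1, t) = f t
    rw [sub_self, a0]
  · intro u hu t ht t' ht'
    exact ab (1 - u) ⟨by linarith [hu.2], by linarith [hu.1]⟩ t ht t' ht'

private theorem Hfree_self {y : X} (f : GenLoop (Fin 2) X y) : Hfree (f : (Fin 2 → I) → X) f := by
  refine Hfree.mk' (fun z => f z.2) (f.1.continuous.comp continuous_snd) (fun _ => rfl)
    (fun _ => rfl) ?_
  intro u t ht t' ht'
  exact (f.2 t ht).trans (f.2 t' ht').symm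

private theorem Hfree_of_hcl {y : X} {f g : GenLoop (Fin 2) X y} (h : hcl f = hcl g) :
    Hfree (f : (Fin 2 → I) → X) g := by
  obtain ⟨H⟩ := Quotient.exact h
  refine Hfree.mk' (fun z => H z) H.continuous (fun t => H.map_zero_left t)
    (fun t => H.map_one_left t) ?_
  intro u t ht t' ht'
  exact ((H.eq_fst u ht).trans (f.2 t ht)).trans ((H.eq_fst u ht').trans (f.2 t' ht')).symm

private theorem mcl_eq {y₀ : X} {x x' : GenLoop (Fin 2) X y₀} {f : (Fin 2 → I) → X}
    (h : Hfree x f) (h' : Hfree x' f) : mcl x = mcl x' := by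
  unfold mcl
  congr 1
  rw [QuotientGroup.eq]
  have hm : hcl x' * (hcl x)⁻¹ ∈ drift y₀ := ⟨x', x, f, h', h, rfl⟩
  rw [mul_comm]
  exact Subgroup.subset_closure hm

/-- concatenation of homotopies -/
private theorem conc {y₀ y : X} {r : ℝ → X} {g x : GenLoop (Fin 2) X y}
    {rg rx : GenLoop (Fin 2) X y₀} {F G : I × (Fin 2 → I) → X} (hF : Continuous F)
    (hG : Continuous G) (F0 : ∀ t, F (0, t) = rg t) (G0 : ∀ t, G (0, t) = rx t)
    (F1 : ∀ t, F (1, t) = g t) (G1 : ∀ t, G (1, t) = x t)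
    (Fb : ∀ u : I, ∀ t ∈ Cube.boundary (Fin 2), F (u, t) = r u)
    (Gb : ∀ u : I, ∀ t ∈ Cube.boundary (Fin 2), G (u, t) = r u) :
    Hfree (GenLoop.transAt 0 rg rx : GenLoop (Fin 2) X y₀)
      (GenLoop.transAt 0 g x : GenLoop (Fin 2) X y) := by
  let a : I × (Fin 2 → I) → I × (Fin 2 → I) := fun z =>
    (z.1, Function.update z.2 0 (projIcc 0 1 zero_le_one (2 * (z.2 0 : ℝ))))
  let b : I × (Fin 2 → I) → I × (Fin 2 → I) := fun z =>
    (z.1, Function.update z.2 0 (projIcc 0 1 zero_le_one (2 * (z.2 0 : ℝ) - 1)))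
  have ca : Continuous a := by
    refine continuous_fst.prodMk ?_
    refine Continuous.update continuous_snd 0 (continuous_projIcc.comp ?_)
    fun_prop
  have cb : Continuous b := by
    refine continuous_fst.prodMk ?_
    refine Continuous.update continuous_snd 0 (continuous_projIcc.comp ?_)
    fun_prop
  refine Hfree.mk' (fun z => if (z.2 0 : ℝ) ≤ 1 / 2 then F (a z) else G (b z)) ?_ ?_ ?_ ?_
  · refine Continuous.if_le (hF.comp ca) (hG.comp cb) (by fun_prop) continuous_const ?_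
    intro z hz
    have e1 : (a z).2 ∈ Cube.boundary (Fin 2) := by
      refine ⟨0, Or.inr ?_⟩
      show Function.update z.2 0 (projIcc 0 1 zero_le_one (2 * (z.2 0 : ℝ))) 0 = 1
      rw [Function.update_self, hz]
      norm_num
    have e2 : (b z).2 ∈ Cube.boundary (Fin 2) := by
      refine ⟨0, Or.inl ?_⟩
      show Function.update z.2 0 (projIcc 0 1 zero_le_one (2 * (z.2 0 : ℝ) - 1)) 0 = 0
      rw [Function.update_self, hz]
      norm_num
    show F (z.1, (a z).2) = G (z.1, (b z).2)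
    rw [Fb _ _ e1, Gb _ _ e2]
  · intro t
    show (if (t 0 : ℝ) ≤ 1 / 2 then
        F (0, Function.update t 0 (projIcc 0 1 zero_le_one (2 * (t 0 : ℝ))))
      else G (0, Function.update t 0 (projIcc 0 1 zero_le_one (2 * (t 0 : ℝ) - 1)))) =
      if (t 0 : ℝ) ≤ 1 / 2 then
        rg (Function.update t 0 (projIcc 0 1 zero_le_one (2 * (t 0 : ℝ))))
      else rx (Function.update t 0 (projIcc 0 1 zero_le_one (2 * (t 0 : ℝ) - 1)))
    rw [F0, G0]
  · intro t
    show (if (t 0 : ℝ) ≤ 1 / 2 then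
        F (1, Function.update t 0 (projIcc 0 1 zero_le_one (2 * (t 0 : ℝ))))
      else G (1, Function.update t 0 (projIcc 0 1 zero_le_one (2 * (t 0 : ℝ) - 1)))) =
      if (t 0 : ℝ) ≤ 1 / 2 then
        g (Function.update t 0 (projIcc 0 1 zero_le_one (2 * (t 0 : ℝ))))
      else x (Function.update t 0 (projIcc 0 1 zero_le_one (2 * (t 0 : ℝ) - 1)))
    rw [F1, G1]
  · have hbd : ∀ u : I, ∀ t ∈ Cube.boundary (Fin 2),
        (if (t 0 : ℝ) ≤ 1 / 2 then F (a (u, t)) else G (b (u, t))) = r u := by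
      intro u t ht
      split_ifs with h
      · refine Fb u _ ?_
        rcases mem_bd ht with h' | h' | h' | h'
        · refine ⟨0, Or.inl ?_⟩
          show Function.update t 0 (projIcc 0 1 zero_le_one (2 * (t 0 : ℝ))) 0 = 0
          rw [Function.update_self, h']
          norm_num
        · rw [h'] at h
          norm_num at h
        · refine ⟨1, Or.inl ?_⟩
          show Function.update t 0 (projIcc 0 1 zero_le_one (2 * (t 0 : ℝ))) 1 = 0
          rw [Function.update_of_ne (by decide), h']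
        · refine ⟨1, Or.inr ?_⟩
          show Function.update t 0 (projIcc 0 1 zero_le_one (2 * (t 0 : ℝ))) 1 = 1
          rw [Function.update_of_ne (by decide), h']
      · refine Gb u _ ?_
        rcases mem_bd ht with h' | h' | h' | h'
        · rw [h'] at h
          norm_num at h
        · refine ⟨0, Or.inr ?_⟩
          show Function.update t 0 (projIcc 0 1 zero_le_one (2 * (t 0 : ℝ) - 1)) 0 = 1
          rw [Function.update_self, h']
          norm_num
        · refine ⟨1, Or.inl ?_⟩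
          show Function.update t 0 (projIcc 0 1 zero_le_one (2 * (t 0 : ℝ) - 1)) 1 = 0
          rw [Function.update_of_ne (by decide), h']
        · refine ⟨1, Or.inr ?_⟩
          show Function.update t 0 (projIcc 0 1 zero_le_one (2 * (t 0 : ℝ) - 1)) 1 = 1
          rw [Function.update_of_ne (by decide), h']
    intro u t ht t' ht'
    exact (hbd u t ht).trans (hbd u t' ht').symm

open Classical in
/-- the class -/
private noncomputable def sqc (X : Type) [TopologicalSpace X] (y₀ : X) (f : (Fin 2 → I) → X) :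
    MM X y₀ :=
  if h : ∃ x : GenLoop (Fin 2) X y₀, Hfree x f then mcl (Classical.choose h) else 0

private theorem sqc_eq {y₀ : X} {f : (Fin 2 → I) → X} {x : GenLoop (Fin 2) X y₀}
    (h : Hfree x f) : sqc X y₀ f = mcl x := by
  unfold sqc
  rw [dif_pos ⟨x, h⟩]
  exact mcl_eq (Classical.choose_spec (⟨x, h⟩ : ∃ x : GenLoop (Fin 2) X y₀, Hfree x f)) h

end SC

open SC in
theorem m_SC : StSC := by
  intro X _ _ y₀
  refine ⟨sqc X y₀, fun f => sqc_eq (Hfree_self f), ?_, ?_⟩
  · intro f g h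
    by_cases hx : ∃ x : GenLoop (Fin 2) X y₀, Hfree x f
    · obtain ⟨x, hx⟩ := hx
      rw [sqc_eq hx, sqc_eq (Hfree.trans hx h)]
    · have hx' : ¬ ∃ x : GenLoop (Fin 2) X y₀, Hfree x g := by
        rintro ⟨x, hx'⟩
        exact hx ⟨x, Hfree.trans hx' (Hfree_symm h)⟩
      unfold sqc
      rw [dif_neg hx, dif_neg hx']
  · intro y f g x h
    obtain ⟨r⟩ := PathConnectedSpace.joined y₀ y
    obtain ⟨rg, F, F1, F2, F3, F4⟩ := transport r g
    obtain ⟨rx, G, G1, G2, G3, G4⟩ := transport r x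
    have hg : Hfree rg g := Hfree.mk' F F1 F2 F3 fun u t ht t' ht' => by rw [F4 u t ht, F4 u t' ht']
    have hx : Hfree rx x := Hfree.mk' G G1 G2 G3 fun u t ht t' ht' => by rw [G4 u t ht, G4 u t' ht']
    have h1 := conc F1 G1 F2 G2 F3 G3 F4 G4
    rw [← hcl_trans] at h
    have h2 := Hfree.trans h1 (Hfree_symm (Hfree_of_hcl h))
    rw [sqc_eq h2, sqc_eq hg, sqc_eq hx]
    unfold mcl
    rw [hcl_trans]
    rfl

end Pool.Agent.Helper70.HH


end
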