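import Pool.Agent.Helper70.BI.C.P67

/-!
# Project BI (MP_8e98f2_gt): collected modules, part 68

The contents of the modules
* Helper2.BI7.M_BDC
* Helper89.BI7.M_GHA
* Helper27.BI.H.M_CYC
* Helper61.BI7.M_CNV
* Helper67.BI7.M_BIS
* Helper68.BI7.M_WWL
* Helper8.BI7.M_CUB
* Helper80.BI7.M_PEN
* Helper84.BI7.M_WEX
* Helper70.BI.HH.M_SUR

in one file, so that the whole proof builds in a short time.
-/

namespace Pool.Agent.Helper18.BI
end Pool.Agent.Helper18.BI

namespace Pool.Agent.Helper65.Barb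
end Pool.Agent.Helper65.Barb

namespace Pool.Agent.Helper70.T
end Pool.Agent.Helper70.T


/-! ## Helper2.BI7.M_BDC -/

section

/-!
# Project BI, stage 7 (H), module BDC: a square which is constant on the boundary
-/

set_option autoImplicit false

open scoped Topology unitInterval
open Set

namespace Pool.Agent.Helper70.HH

namespace BDC

/-- the sides of the square -/
theorem bv (t : I) : ((t : ℝ) ≤ 1 / 2 ∧ ((brm t).1 : ℝ) = 2 * t ∧ ((brm t).2 : ℝ) = 0) ∨
    (1 / 2 ≤ (t : ℝ) ∧ ((brm t).1 : ℝ) = 1 ∧ ((brm t).2 : ℝ) = 2 * t - 1) := by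
  have e1 : ((brm t).1 : ℝ) = min 1 (2 * (t : ℝ)) := rfl
  have e2 : ((brm t).2 : ℝ) = max 0 (2 * (t : ℝ) - 1) := rfl
  rcases le_total (t : ℝ) (1 / 2) with h | h
  · refine Or.inl ⟨h, ?_, ?_⟩
    · rw [e1, min_eq_right (by linarith)]
    · rw [e2, max_eq_left (by linarith)]
  · refine Or.inr ⟨h, ?_, ?_⟩
    · rw [e1, min_eq_left (by linarith)]
    · rw [e2, max_eq_right (by linarith)]

theorem c1 (s t : I) : ((cellm (s, t)).1 : ℝ) =
    (1 - (s : ℝ)) * (brm t).1 + (s : ℝ) * (brm t).2 := rfl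

theorem c2 (s t : I) : ((cellm (s, t)).2 : ℝ) =
    (1 - (s : ℝ)) * (brm t).2 + (s : ℝ) * (brm t).1 := rfl

/-- the complement of the open square -/
def Out (z : ℝ × ℝ) : Prop := z.1 ≤ 0 ∨ 1 ≤ z.1 ∨ z.2 ≤ 0 ∨ 1 ≤ z.2

variable {X : Type} [TopologicalSpace X] {V : Type} [AddCommGroup V]

theorem step (w : C(I × I, X) → V) (v : C(I, X) → V) (hU : IsU X V w v) (Φ : C(ℝ × ℝ, X))
    (y : X) (out : ∀ z, Out z → Φ z = y) (h0 h1 : C(I × I, ℝ × ℝ))
    (hb : ∀ (u s t : I), (s = 0 ∨ s = 1 ∨ t = 0 ∨ t = 1) →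
      Out ((1 - (u : ℝ)) * (h0 (s, t)).1 + (u : ℝ) * (h1 (s, t)).1,
        (1 - (u : ℝ)) * (h0 (s, t)).2 + (u : ℝ) * (h1 (s, t)).2)) :
    w (Φ.comp h0) = w (Φ.comp h1) := by
  let L : C(I × (I × I), X) :=
    ⟨fun z => Φ ((1 - (z.1 : ℝ)) * (h0 z.2).1 + (z.1 : ℝ) * (h1 z.2).1,
      (1 - (z.1 : ℝ)) * (h0 z.2).2 + (z.1 : ℝ) * (h1 z.2).2), by fun_prop⟩
  have hL : ∀ u s t : I, (s = 0 ∨ s = 1 ∨ t = 0 ∨ t = 1) → L (u, (s, t)) = y :=
    fun u s t h => out _ (hb u s t h)
  have h00 : ∀ z, L (0, z) = (Φ.comp h0) z := by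
    intro z
    show Φ ((1 - ((0 : I) : ℝ)) * (h0 z).1 + ((0 : I) : ℝ) * (h1 z).1,
      (1 - ((0 : I) : ℝ)) * (h0 z).2 + ((0 : I) : ℝ) * (h1 z).2) = Φ (h0 z)
    rw [Icc.coe_zero, sub_zero, one_mul, zero_mul, add_zero, one_mul, zero_mul, add_zero]
  have h11 : ∀ z, L (1, z) = (Φ.comp h1) z := by
    intro z
    show Φ ((1 - ((1 : I) : ℝ)) * (h0 z).1 + ((1 : I) : ℝ) * (h1 z).1,
      (1 - ((1 : I) : ℝ)) * (h0 z).2 + ((1 : I) : ℝ) * (h1 z).2) = Φ (h1 z)
    rw [Icc.coe_one, sub_self, zero_mul, one_mul, zero_add, zero_mul, one_mul, zero_add]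
  refine hU.hom (Φ.comp h0) (Φ.comp h1) L ?_ h00 h11 ?_
  · intro s
    constructor
    · rw [← h00, ← h00, hL _ _ _ (Or.inr (Or.inr (Or.inl rfl))), hL _ _ _ (Or.inl rfl)]
    · rw [← h00, ← h00, hL _ _ _ (Or.inr (Or.inr (Or.inr rfl))), hL _ _ _ (Or.inl rfl)]
  · intro r s t h
    rw [hL _ _ _ h, hL _ _ _ h]

/-- the map `cellm` with values in the plane -/
noncomputable def ps : C(I × I, ℝ × ℝ) :=
  ⟨fun z => (((cellm z).1 : ℝ), ((cellm z).2 : ℝ)), by fun_prop⟩

/-- the transposition with values in the plane -/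
def pt : C(I × I, ℝ × ℝ) := ⟨fun z => ((z.2 : ℝ), (z.1 : ℝ)), by fun_prop⟩

/-- expansion from the centre of the square by the factor three -/
noncomputable def big (h : C(I × I, ℝ × ℝ)) : C(I × I, ℝ × ℝ) :=
  ⟨fun z => (3 * (h z).1 - 1, 3 * (h z).2 - 1), by fun_prop⟩

/-- a point with a coordinate `0` or `1` -/
def Bd (z : ℝ × ℝ) : Prop := z.1 = 0 ∨ z.1 = 1 ∨ z.2 = 0 ∨ z.2 = 1

theorem ps_bd (s t : I) (h : s = 0 ∨ s = 1 ∨ t = 0 ∨ t = 1) : Bd (ps (s, t)) := by
  have e1 : (ps (s, t)).1 = (1 - (s : ℝ)) * (brm t).1 + (s : ℝ) * (brm t).2 := rfl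
  have e2 : (ps (s, t)).2 = (1 - (s : ℝ)) * (brm t).2 + (s : ℝ) * (brm t).1 := rfl
  unfold Bd
  rw [e1, e2]
  have hb := bv t
  rcases h with h | h | h | h
  · rw [h, Icc.coe_zero]
    rcases hb with ⟨_, _, b⟩ | ⟨_, b, _⟩
    · refine Or.inr (Or.inr (Or.inl ?_))
      rw [b]
      ring
    · refine Or.inr (Or.inl ?_)
      rw [b]
      ring
  · rw [h, Icc.coe_one]
    rcases hb with ⟨_, _, b⟩ | ⟨_, b, _⟩
    · refine Or.inl ?_
      rw [b]
      ring
    · refine Or.inr (Or.inr (Or.inr ?_))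
      rw [b]
      ring
  · have h0 : (t : ℝ) = 0 := by rw [h, Icc.coe_zero]
    rcases hb with ⟨_, a, b⟩ | ⟨a, _, _⟩
    · refine Or.inl ?_
      rw [a, b, h0]
      ring
    · exfalso
      rw [h0] at a
      norm_num at a
  · have h0 : (t : ℝ) = 1 := by rw [h, Icc.coe_one]
    rcases hb with ⟨a, _, _⟩ | ⟨_, a, b⟩
    · exfalso
      rw [h0] at a
      norm_num at a
    · refine Or.inr (Or.inl ?_)
      rw [a, b, h0]
      ring

theorem pt_bd (s t : I) (h : s = 0 ∨ s = 1 ∨ t = 0 ∨ t = 1) : Bd (pt (s, t)) := by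
  have e1 : (pt (s, t)).1 = (t : ℝ) := rfl
  have e2 : (pt (s, t)).2 = (s : ℝ) := rfl
  unfold Bd
  rw [e1, e2]
  rcases h with h | h | h | h
  · exact Or.inr (Or.inr (Or.inl (by rw [h, Icc.coe_zero])))
  · exact Or.inr (Or.inr (Or.inr (by rw [h, Icc.coe_one])))
  · exact Or.inl (by rw [h, Icc.coe_zero])
  · exact Or.inr (Or.inl (by rw [h, Icc.coe_one]))

theorem out_up (u : I) (z : ℝ × ℝ) (h : Bd z) :
    Out ((1 - (u : ℝ)) * z.1 + (u : ℝ) * (3 * z.1 - 1),
      (1 - (u : ℝ)) * z.2 + (u : ℝ) * (3 * z.2 - 1)) := by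
  have h0 := u.2.1
  rcases h with h | h | h | h
  · refine Or.inl ?_
    show (1 - (u : ℝ)) * z.1 + (u : ℝ) * (3 * z.1 - 1) ≤ 0
    rw [h]
    linarith
  · refine Or.inr (Or.inl ?_)
    show 1 ≤ (1 - (u : ℝ)) * z.1 + (u : ℝ) * (3 * z.1 - 1)
    rw [h]
    linarith
  · refine Or.inr (Or.inr (Or.inl ?_))
    show (1 - (u : ℝ)) * z.2 + (u : ℝ) * (3 * z.2 - 1) ≤ 0
    rw [h]
    linarith
  · refine Or.inr (Or.inr (Or.inr ?_))
    show 1 ≤ (1 - (u : ℝ)) * z.2 + (u : ℝ) * (3 * z.2 - 1)
    rw [h]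
    linarith

theorem out_dn (u : I) (z : ℝ × ℝ) (h : Bd z) :
    Out ((1 - (u : ℝ)) * (3 * z.1 - 1) + (u : ℝ) * z.1,
      (1 - (u : ℝ)) * (3 * z.2 - 1) + (u : ℝ) * z.2) := by
  have h0 := u.2.2
  rcases h with h | h | h | h
  · refine Or.inl ?_
    show (1 - (u : ℝ)) * (3 * z.1 - 1) + (u : ℝ) * z.1 ≤ 0
    rw [h]
    linarith
  · refine Or.inr (Or.inl ?_)
    show 1 ≤ (1 - (u : ℝ)) * (3 * z.1 - 1) + (u : ℝ) * z.1
    rw [h]
    linarith
  · refine Or.inr (Or.inr (Or.inl ?_))
    show (1 - (u : ℝ)) * (3 * z.2 - 1) + (u : ℝ) * z.2 ≤ 0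
    rw [h]
    linarith
  · refine Or.inr (Or.inr (Or.inr ?_))
    show 1 ≤ (1 - (u : ℝ)) * (3 * z.2 - 1) + (u : ℝ) * z.2
    rw [h]
    linarith

/-- the middle step: the interpolation avoids the square with side `1/3` on the boundary -/
theorem mid_step (u s t : I) (h : s = 0 ∨ s = 1 ∨ t = 0 ∨ t = 1) :
    Out ((1 - (u : ℝ)) * (big ps (s, t)).1 + (u : ℝ) * (big pt (s, t)).1,
      (1 - (u : ℝ)) * (big ps (s, t)).2 + (u : ℝ) * (big pt (s, t)).2) := by
  have e1 : (big ps (s, t)).1 = 3 * ((1 - (s : ℝ)) * (brm t).1 + (s : ℝ) * (brm t).2) - 1 := rfl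
  have e2 : (big ps (s, t)).2 = 3 * ((1 - (s : ℝ)) * (brm t).2 + (s : ℝ) * (brm t).1) - 1 := rfl
  have e3 : (big pt (s, t)).1 = 3 * (t : ℝ) - 1 := rfl
  have e4 : (big pt (s, t)).2 = 3 * (s : ℝ) - 1 := rfl
  rw [e1, e2, e3, e4]
  have u0 := u.2.1
  have u1 := u.2.2
  have t0 := t.2.1
  have t1 := t.2.2
  generalize (u : ℝ) = a at u0 u1 ⊢
  have hb := bv t
  rcases h with h | h | h | h
  · rw [h, Icc.coe_zero]
    rcases hb with ⟨_, _, b⟩ | ⟨c, b, b'⟩
    · refine Or.inr (Or.inr (Or.inl ?_))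
      show (1 - a) * (3 * ((1 - 0) * ((brm t).2 : ℝ) + 0 * ((brm t).1 : ℝ)) - 1) +
        a * (3 * 0 - 1) ≤ 0
      rw [b]
      nlinarith
    · rw [b, b']
      by_cases hh : (1 - a) * (2 * (t : ℝ) - 1) ≤ 1 / 3
      · refine Or.inr (Or.inr (Or.inl ?_))
        show (1 - a) * (3 * ((1 - 0) * (2 * (t : ℝ) - 1) + 0 * 1) - 1) + a * (3 * 0 - 1) ≤ 0
        nlinarith
      · refine Or.inr (Or.inl ?_)
        show 1 ≤ (1 - a) * (3 * ((1 - 0) * 1 + 0 * (2 * (t : ℝ) - 1)) - 1) +
          a * (3 * (t : ℝ) - 1)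
        have h1 : 1 / 3 ≤ 1 - a := by
          by_contra hc
          push Not at hc hh
          nlinarith
        have h2 : (1 - (t : ℝ)) ≤ 1 / 2 := by linarith
        nlinarith [mul_nonneg u0 (sub_nonneg.2 h2)]
  · rw [h, Icc.coe_one]
    rcases hb with ⟨c, b, b'⟩ | ⟨_, b, _⟩
    · rw [b, b']
      by_cases hh : 2 / 3 ≤ (1 - a) * (2 * (t : ℝ)) + a
      · refine Or.inr (Or.inr (Or.inr ?_))
        show 1 ≤ (1 - a) * (3 * ((1 - 1) * 0 + 1 * (2 * (t : ℝ))) - 1) + a * (3 * 1 - 1)
        nlinarith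
      · refine Or.inl ?_
        show (1 - a) * (3 * ((1 - 1) * (2 * (t : ℝ)) + 1 * 0) - 1) + a * (3 * (t : ℝ) - 1) ≤ 0
        push Not at hh
        have h1 : a ≤ 2 / 3 := by
          have : 0 ≤ (1 - a) * (2 * (t : ℝ)) := mul_nonneg (by linarith) (by linarith)
          linarith
        nlinarith [mul_nonneg u0 (sub_nonneg.2 c)]
    · refine Or.inr (Or.inr (Or.inr ?_))
      show 1 ≤ (1 - a) * (3 * ((1 - 1) * ((brm t).2 : ℝ) + 1 * ((brm t).1 : ℝ)) - 1) +
        a * (3 * 1 - 1)
      rw [b]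
      nlinarith
  · have h0 : (t : ℝ) = 0 := by rw [h, Icc.coe_zero]
    rcases hb with ⟨_, b, b'⟩ | ⟨c, _, _⟩
    · refine Or.inl ?_
      show (1 - a) * (3 * ((1 - (s : ℝ)) * ((brm t).1 : ℝ) + (s : ℝ) * ((brm t).2 : ℝ)) - 1) +
        a * (3 * (t : ℝ) - 1) ≤ 0
      rw [b, b', h0]
      nlinarith
    · exfalso
      rw [h0] at c
      norm_num at c
  · have h0 : (t : ℝ) = 1 := by rw [h, Icc.coe_one]
    rcases hb with ⟨c, _, _⟩ | ⟨_, b, b'⟩
    · exfalso
      rw [h0] at c
      norm_num at c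
    · refine Or.inr (Or.inl ?_)
      show 1 ≤ (1 - a) * (3 * ((1 - (s : ℝ)) * ((brm t).1 : ℝ) +
        (s : ℝ) * ((brm t).2 : ℝ)) - 1) + a * (3 * (t : ℝ) - 1)
      rw [b, b', h0]
      nlinarith

end BDC

theorem m_BDC : StBDC := by
  intro X _ V _ w v hU S T y hS hT
  have eb : S.comp brm = S.comp ltm := by
    apply ContinuousMap.ext
    intro t
    have h1 : S (brm t) = y := by
      have h : S ((brm t).1, (brm t).2) = y := by
        apply hS
        rcases BDC.bv t with ⟨_, _, b⟩ | ⟨_, b, _⟩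
        · exact Or.inr (Or.inr (Or.inl (Subtype.ext (b.trans Icc.coe_zero.symm))))
        · exact Or.inr (Or.inl (Subtype.ext (b.trans Icc.coe_one.symm)))
      exact h
    have h2 : S (ltm t) = y := by
      have h : S ((brm t).2, (brm t).1) = y := by
        apply hS
        rcases BDC.bv t with ⟨_, _, b⟩ | ⟨_, b, _⟩
        · exact Or.inl (Subtype.ext (b.trans Icc.coe_zero.symm))
        · exact Or.inr (Or.inr (Or.inr (Subtype.ext (b.trans Icc.coe_one.symm))))
      exact h
    show S (brm t) = S (ltm t)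
    rw [h1, h2]
  let Φ : C(ℝ × ℝ, X) := ⟨fun z => S (projIcc (0 : ℝ) 1 zero_le_one z.1,
    projIcc (0 : ℝ) 1 zero_le_one z.2), by fun_prop⟩
  have hΦ : ∀ a b : I, Φ ((a : ℝ), (b : ℝ)) = S (a, b) := by
    intro a b
    show S (projIcc (0 : ℝ) 1 zero_le_one (a : ℝ), projIcc (0 : ℝ) 1 zero_le_one (b : ℝ)) = _
    rw [projIcc_val, projIcc_val]
  have out : ∀ z, BDC.Out z → Φ z = y := by
    intro z hz
    show S (projIcc (0 : ℝ) 1 zero_le_one z.1, projIcc (0 : ℝ) 1 zero_le_one z.2) = y
    apply hS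
    rcases hz with h | h | h | h
    · exact Or.inl (projIcc_of_le_left _ h)
    · exact Or.inr (Or.inl (projIcc_of_right_le _ h))
    · exact Or.inr (Or.inr (Or.inl (projIcc_of_le_left _ h)))
    · exact Or.inr (Or.inr (Or.inr (projIcc_of_right_le _ h)))
  have k1 : w (Φ.comp BDC.ps) = w (Φ.comp (BDC.big BDC.ps)) :=
    BDC.step w v hU Φ y out _ _ fun u s t h => BDC.out_up u _ (BDC.ps_bd s t h)
  have k2 : w (Φ.comp (BDC.big BDC.ps)) = w (Φ.comp (BDC.big BDC.pt)) :=
    BDC.step w v hU Φ y out _ _ fun u s t h => BDC.mid_step u s t h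
  have k3 : w (Φ.comp (BDC.big BDC.pt)) = w (Φ.comp BDC.pt) :=
    BDC.step w v hU Φ y out _ _ fun u s t h => BDC.out_dn u _ (BDC.pt_bd s t h)
  have e1 : S.comp cellm = Φ.comp BDC.ps := by
    apply ContinuousMap.ext
    intro z
    exact (hΦ (cellm z).1 (cellm z).2).symm
  have e2 : T = Φ.comp BDC.pt := by
    apply ContinuousMap.ext
    intro z
    exact (hT z.1 z.2).trans (hΦ z.2 z.1).symm
  unfold aa
  rw [eb, e1, k1, k2, k3, ← e2, add_sub_cancel_right]

end Pool.Agent.Helper70.HH


end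

/-! ## Helper89.BI7.M_GHA -/

section

/-!
# Project BI, stage 7 (H), module GHA: a 3-cocycle and the third homology group of a group
-/

set_option autoImplicit false

open CategoryTheory

namespace Pool.Agent.Helper70.HH

namespace GHAaux

/-- extension of a linear map along a linear map with smaller kernel, values in a divisible group -/
theorem extend_char {C D : Type} [AddCommGroup C] [AddCommGroup D]
    (δ : C →ₗ[ℤ] D) (φ : C →ₗ[ℤ] AddCircle (1 : ℚ)) (h : ∀ x, δ x = 0 → φ x = 0) :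
    ∃ β : D →+ AddCircle (1 : ℚ), ∀ x, β (δ x) = φ x := by
  have hk : LinearMap.ker δ ≤ LinearMap.ker φ := fun x hx => by
    rw [LinearMap.mem_ker] at hx ⊢
    exact h x hx
  have hinj : Function.Injective ((LinearMap.ker δ).liftQ δ le_rfl) := by
    rw [← LinearMap.ker_eq_bot]
    exact Submodule.ker_liftQ_eq_bot _ _ _ le_rfl
  obtain ⟨β, hβ⟩ := CharacterModule.dual_surjective_of_injective
    ((LinearMap.ker δ).liftQ δ le_rfl) hinj
    (((LinearMap.ker δ).liftQ φ hk).toAddMonoidHom : CharacterModule (C ⧸ LinearMap.ker δ))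
  refine ⟨β, fun x => ?_⟩
  have := DFunLike.congr_fun hβ ((LinearMap.ker δ).mkQ x)
  exact this

theorem contr3 {G : Type} [Group G] (g h k : G) :
    Fin.contractNth 0 (· * ·) ![g, h, k] = ![g * h, k] ∧
    Fin.contractNth 1 (· * ·) ![g, h, k] = ![g, h * k] ∧
    Fin.contractNth 2 (· * ·) ![g, h, k] = ![g, h] := by
  refine ⟨?_, ?_, ?_⟩ <;> ext i <;> fin_cases i <;> rfl

theorem contr4 {G : Type} [Group G] (g h k l : G) :
    Fin.contractNth 0 (· * ·) ![g, h, k, l] = ![g * h, k, l] ∧
    Fin.contractNth 1 (· * ·) ![g, h, k, l] = ![g, h * k, l] ∧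
    Fin.contractNth 2 (· * ·) ![g, h, k, l] = ![g, h, k * l] ∧
    Fin.contractNth 3 (· * ·) ![g, h, k, l] = ![g, h, k] := by
  refine ⟨?_, ?_, ?_, ?_⟩ <;> ext i <;> fin_cases i <;> rfl

theorem tail3 {G : Type} (g h k : G) : (fun i : Fin 2 => ![g, h, k] i.succ) = ![h, k] := by
  ext i; fin_cases i <;> rfl

theorem tail4 {G : Type} (g h k l : G) :
    (fun i : Fin 3 => ![g, h, k, l] i.succ) = ![h, k, l] := by
  ext i; fin_cases i <;> rfl

/-- the differential from the 3-chains to the 2-chains -/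
theorem d2_single {G : Type} [Group G] (g h k : G) :
    (groupHomology.inhomogeneousChains.d (Rep.trivial ℤ G ℤ) 2)
        (Finsupp.single ![g, h, k] (1 : ℤ)) =
      (Finsupp.single ![h, k] (1 : ℤ) - Finsupp.single ![g * h, k] 1
        + Finsupp.single ![g, h * k] 1 - Finsupp.single ![g, h] 1 : (Fin 2 → G) →₀ ℤ) := by
  obtain ⟨h0, h1, h2⟩ := contr3 g h k
  rw [groupHomology.inhomogeneousChains.d_single, Fin.sum_univ_three, h0, h1, h2, tail3]
  simp
  abel

/-- the differential from the 4-chains to the 3-chains -/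
theorem d3_single {G : Type} [Group G] (g h k l : G) :
    (groupHomology.inhomogeneousChains.d (Rep.trivial ℤ G ℤ) 3)
        (Finsupp.single ![g, h, k, l] (1 : ℤ)) =
      (Finsupp.single ![h, k, l] (1 : ℤ) - Finsupp.single ![g * h, k, l] 1
        + Finsupp.single ![g, h * k, l] 1 - Finsupp.single ![g, h, k * l] 1
        + Finsupp.single ![g, h, k] 1 : (Fin 3 → G) →₀ ℤ) := by
  obtain ⟨h0, h1, h2, h3⟩ := contr4 g h k l
  rw [groupHomology.inhomogeneousChains.d_single, Fin.sum_univ_four, h0, h1, h2, h3, tail4]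
  simp
  abel

section

variable {G : Type} [Group G] {M : Type} [AddCommGroup M] (F : G → G → G → M)

/-- the value of a function of three variables on the 3-chains -/
noncomputable def KL : ((Fin 3 → G) →₀ ℤ) →ₗ[ℤ] M :=
  Finsupp.linearCombination ℤ (fun x => F (x 0) (x 1) (x 2))

omit [Group G] in
theorem KL_single (g h k : G) : KL F (Finsupp.single ![g, h, k] 1) = F g h k := by
  simp [KL, Finsupp.linearCombination_single]

/-- the same as a morphism -/
noncomputable def KM :
    (groupHomology.inhomogeneousChains (Rep.trivial ℤ G ℤ)).X 3 ⟶ ModuleCat.of ℤ M :=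
  ModuleCat.ofHom (KL F)

theorem KM_zero
    (hF : ∀ g h k l : G, F h k l - F (g * h) k l + F g (h * k) l - F g h (k * l) + F g h k = 0) :
    (groupHomology.inhomogeneousChains (Rep.trivial ℤ G ℤ)).d 4 3 ≫ KM F = 0 := by
  rw [groupHomology.inhomogeneousChains.d_def]
  refine ModuleCat.hom_ext (Finsupp.lhom_ext' fun x => LinearMap.ext_ring ?_)
  obtain ⟨g, h, k, l, rfl⟩ : ∃ g h k l : G, x = ![g, h, k, l] :=
    ⟨x 0, x 1, x 2, x 3, by ext i; fin_cases i <;> rfl⟩
  change KL F ((groupHomology.inhomogeneousChains.d (Rep.trivial ℤ G ℤ) 3)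
    (Finsupp.single ![g, h, k, l] (1 : ℤ))) = 0
  rw [d3_single, map_add, map_sub, map_add, map_sub, KL_single, KL_single, KL_single, KL_single,
    KL_single]
  exact hF g h k l

/-- the homomorphism from the third homology group -/
noncomputable def TH
    (hF : ∀ g h k l : G, F h k l - F (g * h) k l + F g (h * k) l - F g h (k * l) + F g h k = 0) :
    H3 G ⟶ ModuleCat.of ℤ M :=
  (groupHomology.inhomogeneousChains (Rep.trivial ℤ G ℤ)).homologyι 3 ≫
    (groupHomology.inhomogeneousChains (Rep.trivial ℤ G ℤ)).descOpcycles (KM F) 4 (by simp)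
      (KM_zero F hF)

theorem TH_pi
    (hF : ∀ g h k l : G, F h k l - F (g * h) k l + F g (h * k) l - F g h (k * l) + F g h k = 0) :
    groupHomology.π (Rep.trivial ℤ G ℤ) 3 ≫ TH F hF =
      groupHomology.iCycles (Rep.trivial ℤ G ℤ) 3 ≫ KM F := by
  rw [TH]
  erw [HomologicalComplex.homology_π_ι_assoc]
  rw [HomologicalComplex.p_descOpcycles]

/-- a cycle is mapped to the value of `KL` -/
theorem TH_cycle
    (hF : ∀ g h k l : G, F h k l - F (g * h) k l + F g (h * k) l - F g h (k * l) + F g h k = 0)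
    (f : (Fin 3 → G) →₀ ℤ)
    (hf : (groupHomology.inhomogeneousChains.d (Rep.trivial ℤ G ℤ) 2) f = 0) :
    ∃ z : H3 G, (TH F hF) z = KL F f := by
  have hf' : (groupHomology.inhomogeneousChains (Rep.trivial ℤ G ℤ)).d 3 2 f = 0 := by
    rw [groupHomology.inhomogeneousChains.d_def]
    exact hf
  refine ⟨groupHomology.π (Rep.trivial ℤ G ℤ) 3
    (groupHomology.cyclesMk (A := Rep.trivial ℤ G ℤ) 3 2 (by simp) f hf'), ?_⟩
  have h1 := ConcreteCategory.congr_hom (TH_pi F hF)
    (groupHomology.cyclesMk (A := Rep.trivial ℤ G ℤ) 3 2 (by simp) f hf')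
  rw [ConcreteCategory.comp_apply, ConcreteCategory.comp_apply] at h1
  rw [h1]
  erw [groupHomology.iCycles_mk]
  rfl

end

end GHAaux

open GHAaux in
theorem m_GHA : StGHA := by
  intro G _ M _ F hF hχ
  refine ⟨(TH F hF).hom.toAddMonoidHom, ?_⟩
  change Function.Surjective (TH F hF).hom
  refine CharacterModule.surjective_of_dual_injective (TH F hF).hom ?_
  rw [injective_iff_map_eq_zero]
  intro χ h0
  have hker : ∀ f : (Fin 3 → G) →₀ ℤ,
      (groupHomology.inhomogeneousChains.d (Rep.trivial ℤ G ℤ) 2).hom f = 0 →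
      (AddMonoidHom.toIntLinearMap (AddMonoidHom.comp χ (KL F).toAddMonoidHom)) f = 0 := by
    intro f hf
    obtain ⟨z, hz⟩ := TH_cycle F hF f hf
    have h2 := DFunLike.congr_fun h0 z
    change χ (KL F f) = 0
    rw [← hz]
    exact h2
  obtain ⟨β, hβ⟩ := extend_char (groupHomology.inhomogeneousChains.d (Rep.trivial ℤ G ℤ) 2).hom
    (AddMonoidHom.toIntLinearMap (AddMonoidHom.comp χ (KL F).toAddMonoidHom)) hker
  refine hχ χ (fun g h => β (Finsupp.single ![g, h] (1 : ℤ))) fun g h k => ?_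
  have h3 := hβ (Finsupp.single ![g, h, k] (1 : ℤ))
  have h4 : (AddMonoidHom.toIntLinearMap (AddMonoidHom.comp χ (KL F).toAddMonoidHom))
      (Finsupp.single ![g, h, k] (1 : ℤ)) = χ (F g h k) := by
    change χ (KL F _) = _
    rw [KL_single]
  rw [h4] at h3
  refine Eq.trans h3.symm ?_
  change β ((groupHomology.inhomogeneousChains.d (Rep.trivial ℤ G ℤ) 2)
    (Finsupp.single ![g, h, k] (1 : ℤ))) = _
  rw [d2_single]
  erw [map_sub, map_add, map_sub]

end Pool.Agent.Helper70.HH


end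

/-! ## Helper27.BI.H.M_CYC -/

section

/-!
# Project BI, stage 7 (H), module CYC: the third homology group of an infinite cyclic group vanishes
-/

set_option autoImplicit false

open CategoryTheory

namespace Pool.Agent.Helper70.HH

/-- MODULE CYC.  The third homology group of an infinite cyclic group is zero. -/
def StCYC : Prop :=
  ∀ (G : Type) [Group G], Nonempty (G ≃* Multiplicative ℤ) → Subsingleton (H3 G)

namespace CYC

open GHAaux

theorem exists_sum {V : Type} [AddCommGroup V] (a : ℤ → V) :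
    ∃ S : ℤ → V, S 0 = 0 ∧ ∀ n, S (n + 1) = S n + a n := by
  refine ⟨fun n => (∑ i ∈ Finset.range n.toNat, a i) -
    ∑ i ∈ Finset.range (-n).toNat, a (-((i : ℤ) + 1)), by simp, fun n => ?_⟩
  rcases le_or_gt 0 n with h | h
  · obtain ⟨k, rfl⟩ := Int.eq_ofNat_of_zero_le h
    have h1 : ((k : ℤ) + 1).toNat = k + 1 := by omega
    have h2 : (-((k : ℤ) + 1)).toNat = 0 := by omega
    have h3 : (-(k : ℤ)).toNat = 0 := by omega
    have h4 : ((k : ℤ)).toNat = k := by omega
    simp only [h1, h2, h3, h4, Finset.sum_range_succ, Finset.range_zero, Finset.sum_empty,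
      sub_zero]
  · obtain ⟨k, hk⟩ := Int.eq_ofNat_of_zero_le (show 0 ≤ -n - 1 by omega)
    obtain rfl : n = -((k : ℤ) + 1) := by omega
    have h1 : (-((k : ℤ) + 1) + 1).toNat = 0 := by omega
    have h2 : (-(-((k : ℤ) + 1) + 1)).toNat = k := by omega
    have h3 : (- -((k : ℤ) + 1)).toNat = k + 1 := by omega
    have h4 : (-((k : ℤ) + 1)).toNat = 0 := by omega
    simp only [h1, h2, h3, h4, Finset.sum_range_succ, Finset.range_zero, Finset.sum_empty,
      zero_sub]
    abel

theorem int_ind {V : Type} [AddCommGroup V] (f g : ℤ → V) (h0 : f 0 = g 0)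
    (h : ∀ n, f (n + 1) - f n = g (n + 1) - g n) : ∀ n, f n = g n := by
  intro n
  induction n using Int.induction_on with
  | zero => exact h0
  | succ i ih =>
    have := h i
    rw [ih] at this
    exact sub_left_injective this
  | pred i ih =>
    have := h (-(i : ℤ) - 1)
    rw [sub_add_cancel, ih] at this
    exact sub_right_injective this

/-- the sums -/
noncomputable def SS {V : Type} [AddCommGroup V] (a : ℤ → V) : ℤ → V := (exists_sum a).choose

theorem SS_zero {V : Type} [AddCommGroup V] (a : ℤ → V) : SS a 0 = 0 := (exists_sum a).choose_spec.1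

theorem SS_succ {V : Type} [AddCommGroup V] (a : ℤ → V) (n : ℤ) : SS a (n + 1) = SS a n + a n :=
  (exists_sum a).choose_spec.2 n

section

variable {G : Type} [Group G] (t : ℤ → G) (ν : G → ℤ)

/-- the contraction on the 2-chains -/
noncomputable def s2 : ((Fin 2 → G) →₀ ℤ) →ₗ[ℤ] ((Fin 3 → G) →₀ ℤ) :=
  Finsupp.linearCombination ℤ (fun x => Finsupp.single ![1, 1, x 1] (1 : ℤ) -
    SS (fun i => Finsupp.single ![t 1, t i, x 1] (1 : ℤ)) (ν (x 0)))

/-- the contraction on the 3-chains -/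
noncomputable def s3 : ((Fin 3 → G) →₀ ℤ) →ₗ[ℤ] ((Fin 4 → G) →₀ ℤ) :=
  Finsupp.linearCombination ℤ (fun x => Finsupp.single ![1, 1, x 1, x 2] (1 : ℤ) -
    SS (fun i => Finsupp.single ![t 1, t i, x 1, x 2] (1 : ℤ)) (ν (x 0)))

theorem s2_single (g h : G) : s2 t ν (Finsupp.single ![g, h] (1 : ℤ)) =
    Finsupp.single ![1, 1, h] (1 : ℤ) -
      SS (fun i => Finsupp.single ![t 1, t i, h] (1 : ℤ)) (ν g) := by
  simp [s2, Finsupp.linearCombination_single]

theorem s3_single (g h k : G) : s3 t ν (Finsupp.single ![g, h, k] (1 : ℤ)) =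
    Finsupp.single ![1, 1, h, k] (1 : ℤ) -
      SS (fun i => Finsupp.single ![t 1, t i, h, k] (1 : ℤ)) (ν g) := by
  simp [s3, Finsupp.linearCombination_single]

/-- the two differentials as linear maps -/
noncomputable def D2 (G : Type) [Group G] : ((Fin 3 → G) →₀ ℤ) →ₗ[ℤ] ((Fin 2 → G) →₀ ℤ) :=
  (groupHomology.inhomogeneousChains.d (Rep.trivial ℤ G ℤ) 2).hom

/-- the two differentials as linear maps -/
noncomputable def D3 (G : Type) [Group G] : ((Fin 4 → G) →₀ ℤ) →ₗ[ℤ] ((Fin 3 → G) →₀ ℤ) :=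
  (groupHomology.inhomogeneousChains.d (Rep.trivial ℤ G ℤ) 3).hom

theorem D2_single (g h k : G) : D2 G (Finsupp.single ![g, h, k] (1 : ℤ)) =
    Finsupp.single ![h, k] (1 : ℤ) - Finsupp.single ![g * h, k] 1
        + Finsupp.single ![g, h * k] 1 - Finsupp.single ![g, h] 1 := d2_single g h k

theorem D3_single (g h k l : G) : D3 G (Finsupp.single ![g, h, k, l] (1 : ℤ)) =
    Finsupp.single ![h, k, l] (1 : ℤ) - Finsupp.single ![g * h, k, l] 1
        + Finsupp.single ![g, h * k, l] 1 - Finsupp.single ![g, h, k * l] 1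
        + Finsupp.single ![g, h, k] 1 := d3_single g h k l

theorem key (ht : ∀ m n, t (m + n) = t m * t n) (ht0 : t 0 = 1) (hν : ∀ n, ν (t n) = n)
    (n p : ℤ) (k : G) :
    Finsupp.single ![t n, t p, k] (1 : ℤ) =
      D3 G (s3 t ν (Finsupp.single ![t n, t p, k] (1 : ℤ))) +
        s2 t ν (D2 G (Finsupp.single ![t n, t p, k] (1 : ℤ))) := by
  revert n
  have hν1 : ν 1 = 0 := by rw [← ht0, hν]
  refine int_ind _ _ ?_ ?_
  · simp only [s3_single, D2_single, D3_single, map_add, map_sub, s2_single, hν, ht0, SS_zero,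
      one_mul, map_zero, hν1]
    abel
  · intro n
    have e0 : t (n + 1) = t n * t 1 := ht _ _
    have ec : t 1 * t n = t n * t 1 := by rw [← ht, ← ht, add_comm]
    have e1 : ν (t n * t 1) = n + 1 := by rw [← ht, hν]
    have e2 : ν (t n * t 1 * t p) = n + p + 1 := by rw [← ht, ← ht, hν]; ring
    have e3 : ν (t n * t p) = n + p := by rw [← ht, hν]
    have e5 : t (n + p) = t n * t p := ht _ _
    simp only [s3_single, D2_single, map_add, map_sub, s2_single, e0, e1, e2, e3, hν, SS_succ,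
      D3_single, ec, e5]
    abel

end

end CYC

open CYC GHAaux in
theorem m_CYC : StCYC := by
  rintro G _ ⟨e⟩
  set t : ℤ → G := fun n => e.symm (Multiplicative.ofAdd n) with ht_def
  set ν : G → ℤ := fun g => Multiplicative.toAdd (e g) with hν_def
  have ht : ∀ m n, t (m + n) = t m * t n := fun m n => by simp [ht_def, ofAdd_add]
  have ht0 : t 0 = 1 := by simp [ht_def]
  have hν : ∀ n, ν (t n) = n := fun n => by simp [ht_def, hν_def]
  have htν : ∀ g, t (ν g) = g := fun g => by simp [ht_def, hν_def]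
  have hid : ∀ f : (Fin 3 → G) →₀ ℤ, f = D3 G (s3 t ν f) + s2 t ν (D2 G f) := by
    have : (LinearMap.id : ((Fin 3 → G) →₀ ℤ) →ₗ[ℤ] _) =
        (D3 G).comp (s3 t ν) + (s2 t ν).comp (D2 G) := by
      refine Finsupp.lhom_ext' fun x => LinearMap.ext_ring ?_
      obtain ⟨g, h, k, rfl⟩ : ∃ g h k : G, x = ![g, h, k] :=
        ⟨x 0, x 1, x 2, by ext i; fin_cases i <;> rfl⟩
      have := key t ν ht ht0 hν (ν g) (ν h) k
      rw [htν, htν] at this
      exact this
    intro f
    exact DFunLike.congr_fun this f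
  refine ⟨fun x y => ?_⟩
  suffices h : ∀ z : H3 G, z = 0 by rw [h x, h y]
  intro z
  induction z using groupHomology_induction_on with
  | h c =>
    have h1 : D2 G (groupHomology.iCycles (Rep.trivial ℤ G ℤ) 3 c) = 0 := by
      have h2 := ConcreteCategory.congr_hom
        ((groupHomology.inhomogeneousChains (Rep.trivial ℤ G ℤ)).iCycles_d 3 2) c
      rw [groupHomology.inhomogeneousChains.d_def] at h2
      exact h2
    have h3 := hid (groupHomology.iCycles (Rep.trivial ℤ G ℤ) 3 c)
    rw [h1, map_zero, add_zero] at h3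
    set w := s3 t ν (groupHomology.iCycles (Rep.trivial ℤ G ℤ) 3 c) with hw
    have h4 : c = groupHomology.toCycles (Rep.trivial ℤ G ℤ) 4 3 w := by
      have hmono : Function.Injective (groupHomology.iCycles (Rep.trivial ℤ G ℤ) 3) :=
        (ModuleCat.mono_iff_injective _).1 inferInstance
      apply hmono
      have h5 := ConcreteCategory.congr_hom
        ((groupHomology.inhomogeneousChains (Rep.trivial ℤ G ℤ)).toCycles_i 4 3) w
      rw [groupHomology.inhomogeneousChains.d_def] at h5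
      exact h3.trans h5.symm
    rw [h4]
    have h6 := ConcreteCategory.congr_hom
      ((groupHomology.inhomogeneousChains (Rep.trivial ℤ G ℤ)).toCycles_comp_homologyπ 4 3) w
    exact h6

end Pool.Agent.Helper70.HH


end

/-! ## Helper61.BI7.M_CNV -/

section

/-!
# Two 2-cells which factor through a normed space and agree on the boundary are homotopic
-/

set_option autoImplicit false

open scoped Topology unitInterval
open Set

namespace Pool.Agent.Helper70.HH

theorem m_CNV : StCNV := by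
  intro X _ E _ _ x y p q γ γ' Φ h h' e1 e2 e3
  have key : ∀ (r s t : I), (s = 0 ∨ s = 1 ∨ t = 0 ∨ t = 1) →
      Φ ((1 - (r : ℝ)) • h (s, t) + (r : ℝ) • h' (s, t)) = γ s t := by
    intro r s t hst
    rw [← e3 s t hst, ← add_smul, sub_add_cancel, one_smul, ← e1]
  have src : ∀ r s : I, Φ ((1 - (r : ℝ)) • h (s, 0) + (r : ℝ) • h' (s, 0)) = x := by
    intro r s
    rw [key r s 0 (Or.inr (Or.inr (Or.inl rfl)))]
    exact (γ s).source
  have tgt : ∀ r s : I, Φ ((1 - (r : ℝ)) • h (s, 1) + (r : ℝ) • h' (s, 1)) = y := by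
    intro r s
    rw [key r s 1 (Or.inr (Or.inr (Or.inr rfl)))]
    exact (γ s).target
  let g : I × I → Path x y := fun z =>
    ⟨⟨fun t => Φ ((1 - (z.1 : ℝ)) • h (z.2, t) + (z.1 : ℝ) • h' (z.2, t)), by fun_prop⟩,
      src z.1 z.2, tgt z.1 z.2⟩
  have hg : Continuous g := by
    rw [← Path.continuous_uncurry_iff]
    show Continuous (fun u : (I × I) × I =>
      Φ ((1 - (u.1.1 : ℝ)) • h (u.1.2, u.2) + (u.1.1 : ℝ) • h' (u.1.2, u.2)))
    fun_prop
  refine ⟨⟨⟨⟨g, hg⟩, ?_, ?_⟩, ?_⟩⟩
  · intro s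
    ext t
    show Φ ((1 - ((0 : I) : ℝ)) • h (s, t) + ((0 : I) : ℝ) • h' (s, t)) = γ s t
    rw [Icc.coe_zero, sub_zero, one_smul, zero_smul, add_zero, ← e1]
  · intro s
    ext t
    show Φ ((1 - ((1 : I) : ℝ)) • h (s, t) + ((1 : I) : ℝ) • h' (s, t)) = γ' s t
    rw [Icc.coe_one, sub_self, zero_smul, zero_add, one_smul, ← e2]
  · intro r s hs
    ext t
    show Φ ((1 - (r : ℝ)) • h (s, t) + (r : ℝ) • h' (s, t)) = γ s t
    apply key r s t
    rcases hs with hs | hs
    · exact Or.inl hs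
    · exact Or.inr (Or.inl hs)

end Pool.Agent.Helper70.HH


end

/-! ## Helper67.BI7.M_BIS -/

section

/-!
# Project BI, stage 7 (H), module BIS: bisection of squares
-/

set_option autoImplicit false

open scoped Topology unitInterval
open Set

namespace Pool.Agent.Helper70.HH.BIS

abbrev E2 : Type := ℝ × ℝ

/-- the segment -/
noncomputable def sg (P Q : E2) : Path P Q where
  toFun t := (1 - (t : ℝ)) • P + (t : ℝ) • Q
  continuous_toFun := by fun_prop
  source' := by simp
  target' := by simp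

theorem sg_apply (P Q : E2) (t : I) : sg P Q t = (1 - (t : ℝ)) • P + (t : ℝ) • Q := rfl

theorem sg_half (P M Q : E2) (h : (2 : ℝ) • M = P + Q) : sg P Q = (sg P M).trans (sg M Q) := by
  have hM : M = (1 / 2 : ℝ) • (P + Q) := by
    rw [← h, smul_smul]
    norm_num
  ext1
  funext t
  rw [Path.trans_apply]
  split_ifs with ht
  · rw [sg_apply, sg_apply, hM]
    module
  · rw [sg_apply, sg_apply, hM]
    module

theorem s2_apply (P M Q : E2) (t : I) :
    ((sg P M).trans (sg M Q)) t =
      P + ((brm t).1 : ℝ) • (M - P) + ((brm t).2 : ℝ) • (Q - M) := by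
  have h1 : ((brm t).1 : ℝ) = min 1 (2 * (t : ℝ)) := rfl
  have h2 : ((brm t).2 : ℝ) = max 0 (2 * (t : ℝ) - 1) := rfl
  rw [Path.trans_apply, h1, h2]
  split_ifs with ht
  · rw [sg_apply, min_eq_right (by linarith), max_eq_left (by linarith)]
    show (1 - 2 * (t : ℝ)) • P + (2 * (t : ℝ)) • M = _
    module
  · rw [sg_apply, min_eq_left (by linarith), max_eq_right (by linarith)]
    show (1 - (2 * (t : ℝ) - 1)) • M + (2 * (t : ℝ) - 1) • Q = _
    module

theorem trans_hl {a b c : E2} (p : Path a b) (q : Path b c) :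
    (p.trans q).toContinuousMap.comp hl = p.toContinuousMap := by
  ext1 t
  show (p.trans q) (hl t) = p t
  rw [Path.trans_apply]
  have h : ((hl t : I) : ℝ) = (t : ℝ) / 2 := rfl
  rw [dif_pos (by rw [h]; linarith [t.2.2])]
  congr 1
  apply Subtype.ext
  show 2 * ((hl t : I) : ℝ) = t
  rw [h]
  ring

theorem trans_hr {a b c : E2} (p : Path a b) (q : Path b c) :
    (p.trans q).toContinuousMap.comp hr = q.toContinuousMap := by
  ext1 t
  show (p.trans q) (hr t) = q t
  rw [Path.trans_apply]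
  have h : ((hr t : I) : ℝ) = (1 + (t : ℝ)) / 2 := rfl
  split_ifs with ht
  · have h0 : t = 0 := by
      apply Subtype.ext
      show (t : ℝ) = 0
      rw [h] at ht
      linarith [t.2.1]
    have h1 : (⟨2 * ((hr t : I) : ℝ), (unitInterval.mul_pos_mem_iff zero_lt_two).2
        ⟨(hr t).2.1, ht⟩⟩ : I) = 1 := by
      apply Subtype.ext
      show 2 * ((hr t : I) : ℝ) = 1
      rw [h, h0]
      norm_num
    rw [h1, h0, p.target, q.source]
  · congr 1
    apply Subtype.ext
    show 2 * ((hr t : I) : ℝ) - 1 = t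
    rw [h]
    ring

theorem trans_mid {a b c : E2} (p : Path a b) (q : Path b c) : (p.trans q) mid = b := by
  rw [Path.trans_apply]
  have h : ((mid : I) : ℝ) = 1 / 2 := rfl
  rw [dif_pos (by rw [h])]
  have h1 : (⟨2 * ((mid : I) : ℝ), (unitInterval.mul_pos_mem_iff zero_lt_two).2
      ⟨mid.2.1, by rw [h]⟩⟩ : I) = 1 := by
    apply Subtype.ext
    show 2 * ((mid : I) : ℝ) = 1
    rw [h]
    norm_num
  rw [h1, p.target]

theorem trans_phi {a b c d : E2} (p : Path a b) (q : Path b c) (r : Path c d) :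
    ((p.trans q).trans r).toContinuousMap.comp phiI = (p.trans (q.trans r)).toContinuousMap := by
  ext1 t
  show ((p.trans q).trans r) (phiI t) = (p.trans (q.trans r)) t
  have h := phi_trans p q r (t : ℝ)
  rw [Path.extend_apply _ (phi_mem t), Path.extend_apply _ t.2] at h
  exact h

section

variable {X : Type} [TopologicalSpace X] {V : Type} [AddCommGroup V] (w : C(I × I, X) → V)
  (v : C(I, X) → V) (Φ : C(E2, X))

/-- the value of the linear 2-cell -/
noncomputable def W {a b : E2} (p q : Path a b) : V :=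
  w (Φ.comp (lnm p.toContinuousMap q.toContinuousMap))

/-- the value of a path -/
noncomputable def vv {a b : E2} (p : Path a b) : V := v (Φ.comp p.toContinuousMap)

theorem same {a b : E2} (p q : Path a b) : Same p.toContinuousMap q.toContinuousMap :=
  ⟨p.source.trans q.source.symm, p.target.trans q.target.symm⟩

/-- the laws -/
structure Laws : Prop where
  one : ∀ {a b : E2} (p q r : Path a b), W w Φ p r = W w Φ p q + W w Φ q r
  two : ∀ {a b c : E2} (p p' : Path a b) (q q' : Path b c),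
    W w Φ (p.trans q) (p'.trans q') = W w Φ p p' + W w Φ q q' + vv v Φ (p'.trans q') -
      vv v Φ (p.trans q)
  three : ∀ {a b c d : E2} (p : Path a b) (q : Path b c) (r : Path c d),
    W w Φ ((p.trans q).trans r) (p.trans (q.trans r)) = vv v Φ (q.trans r) +
      vv v Φ (p.trans (q.trans r)) - vv v Φ (p.trans q) - vv v Φ ((p.trans q).trans r)
  refl : ∀ {a b : E2} (p : Path a b), W w Φ p p = 0

theorem laws (hWWL : StWWL) (hU : IsU X V w v) : Laws w v Φ := by
  obtain ⟨-, h1, h2, h3, h5⟩ := hWWL X V w v hU E2 Φ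
  refine ⟨?_, ?_, ?_, ?_⟩
  · intro a b p q r
    exact h1 _ _ _ (same p q) (same q r)
  · intro a b c p p' q q'
    have h := h2 (p.trans q).toContinuousMap (p'.trans q').toContinuousMap
      (same (p.trans q) (p'.trans q')) ((trans_mid p q).trans (trans_mid p' q').symm)
    rw [trans_hl, trans_hl, trans_hr, trans_hr] at h
    exact h
  · intro a b c d p q r
    have h := h3 ((p.trans q).trans r).toContinuousMap
    rw [trans_phi, trans_hr, trans_hl] at h
    exact h
  · intro a b p
    exact h5 _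

variable {w v Φ}

theorem Laws.inv (L : Laws w v Φ) {a b : E2} (p q : Path a b) : W w Φ q p = - W w Φ p q := by
  have h := L.one p q p
  rw [L.refl] at h
  exact (neg_eq_of_add_eq_zero_right h.symm).symm

theorem face (S : C(I × I, X)) (A B B' D : E2) (hD : D = B + B' - A)
    (hS : ∀ z : I × I, S z = Φ (A + (z.1 : ℝ) • (B - A) + (z.2 : ℝ) • (B' - A))) :
    aa w v S = W w Φ ((sg A B).trans (sg B D)) ((sg A B').trans (sg B' D)) +
      vv v Φ ((sg A B).trans (sg B D)) - vv v Φ ((sg A B').trans (sg B' D)) := by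
  have h1 : S.comp brm = Φ.comp ((sg A B).trans (sg B D)).toContinuousMap := by
    ext1 t
    show S (brm t) = Φ (((sg A B).trans (sg B D)) t)
    rw [hS, s2_apply, hD]
    congr 1
    module
  have h2 : S.comp ltm = Φ.comp ((sg A B').trans (sg B' D)).toContinuousMap := by
    ext1 t
    show S (brm t).swap = Φ (((sg A B').trans (sg B' D)) t)
    rw [hS, s2_apply, hD, Prod.fst_swap, Prod.snd_swap]
    congr 1
    module
  have h3 : S.comp cellm = Φ.comp (lnm ((sg A B).trans (sg B D)).toContinuousMap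
      ((sg A B').trans (sg B' D)).toContinuousMap) := by
    ext1 z
    show S (cellm z) = Φ ((1 - (z.1 : ℝ)) • ((sg A B).trans (sg B D)) z.2 +
      (z.1 : ℝ) • ((sg A B').trans (sg B' D)) z.2)
    have e1 : (((cellm z).1 : I) : ℝ) = (1 - (z.1 : ℝ)) * (brm z.2).1 + (z.1 : ℝ) * (brm z.2).2 :=
      rfl
    have e2 : (((cellm z).2 : I) : ℝ) = (1 - (z.1 : ℝ)) * (brm z.2).2 + (z.1 : ℝ) * (brm z.2).1 :=
      rfl
    rw [hS, s2_apply, s2_apply, hD, e1, e2]
    congr 1
    module
  unfold aa W vv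
  rw [h1, h2, h3]

end

/-- the projection of the plane to the square -/
noncomputable def clamp : C(E2, I × I) :=
  ⟨fun z => (projIcc 0 1 zero_le_one z.1, projIcc 0 1 zero_le_one z.2),
    (continuous_projIcc.comp continuous_fst).prodMk (continuous_projIcc.comp continuous_snd)⟩

theorem clamp_coe (x y : I) : clamp ((x : ℝ), (y : ℝ)) = (x, y) := by
  show (projIcc 0 1 zero_le_one (x : ℝ), projIcc 0 1 zero_le_one (y : ℝ)) = (x, y)
  rw [projIcc_val, projIcc_val]

theorem clamp_eq (z : E2) (x y : I) (h1 : z.1 = x) (h2 : z.2 = y) : clamp z = (x, y) := by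
  rw [← clamp_coe x y, ← h1, ← h2]

/-- the module -/
theorem m_BIS (hWWL : StWWL) : StBIS := by
  intro X _ V _ w v hU S
  have L := laws w v (S.comp clamp) hWWL hU
  constructor
  · have hf : aa w v S = _ := face (w := w) (v := v) (Φ := S.comp clamp) S (0, 0) (1, 0) (0, 1)
      (1, 1) (by ext <;> simp) (fun z => congrArg S (clamp_eq _ z.1 z.2 (by simp) (by simp)).symm)
    have hl' : aa w v (lowS S) = _ := face (w := w) (v := v) (Φ := S.comp clamp) (lowS S) (0, 0)
      (1 / 2, 0) (0, 1) (1 / 2, 1) (by ext <;> simp) (fun z =>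
        congrArg S (clamp_eq _ (hl z.1) z.2 (by
          show _ = (z.1 : ℝ) / 2
          simp
          ring) (by simp)).symm)
    have hu' : aa w v (upS S) = _ := face (w := w) (v := v) (Φ := S.comp clamp) (upS S) (1 / 2, 0)
      (1, 0) (1 / 2, 1) (1, 1) (by ext <;> simp) (fun z =>
        congrArg S (clamp_eq _ (hr z.1) z.2 (by
          show _ = (1 + (z.1 : ℝ)) / 2
          simp
          ring) (by simp)).symm)
    have hb : v (S.comp botm) = vv v (S.comp clamp) ((sg (0, 0) (1 / 2, 0)).trans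
        (sg (1 / 2, 0) (1, 0))) := by
      rw [← sg_half _ _ _ (by ext <;> simp)]
      unfold vv
      congr 1
      ext1 t
      exact congrArg S (clamp_eq _ t 0 (by simp [sg_apply]) (by simp [sg_apply])).symm
    have ht : v (S.comp topm) = vv v (S.comp clamp) ((sg (0, 1) (1 / 2, 1)).trans
        (sg (1 / 2, 1) (1, 1))) := by
      rw [← sg_half _ _ _ (by ext <;> simp <;> norm_num)]
      unfold vv
      congr 1
      ext1 t
      exact congrArg S (clamp_eq _ t 1 (by simp [sg_apply]) (by simp [sg_apply])).symm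
    rw [hf, hl', hu', hb, ht, sg_half (0, 0) (1 / 2, 0) (1, 0) (by ext <;> simp),
      sg_half (0, 1) (1 / 2, 1) (1, 1) (by ext <;> simp <;> norm_num)]
    set p := sg (0, 0) (1 / 2, 0)
    set q := sg (1 / 2, 0) (1, 0)
    set r := sg (1, 0) (1, 1)
    set m := sg (1 / 2, 0) (1 / 2, 1)
    set p' := sg (0, 1) (1 / 2, 1)
    set q' := sg (1 / 2, 1) (1, 1)
    set l := sg (0, 0) (0, 1)
    have w12 := L.three p q r
    have w23 := L.two p p (q.trans r) (m.trans q')
    have w34 := L.inv ((p.trans m).trans q') (p.trans (m.trans q'))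
    have w43 := L.three p m q'
    have w45 := L.two (p.trans m) (l.trans p') q' q'
    have w56 := L.three l p' q'
    rw [L.refl] at w23 w45
    rw [L.one ((p.trans q).trans r) (p.trans (q.trans r)) (l.trans (p'.trans q')),
      L.one (p.trans (q.trans r)) (p.trans (m.trans q')) (l.trans (p'.trans q')),
      L.one (p.trans (m.trans q')) ((p.trans m).trans q') (l.trans (p'.trans q')),
      L.one ((p.trans m).trans q') ((l.trans p').trans q') (l.trans (p'.trans q')),
      w12, w23, w34, w43, w45, w56]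
    abel
  · have hf : aa w v S = _ := face (w := w) (v := v) (Φ := S.comp clamp) S (0, 0) (1, 0) (0, 1)
      (1, 1) (by ext <;> simp) (fun z => congrArg S (clamp_eq _ z.1 z.2 (by simp) (by simp)).symm)
    have hl' : aa w v (lowT S) = _ := face (w := w) (v := v) (Φ := S.comp clamp) (lowT S) (0, 0)
      (1, 0) (0, 1 / 2) (1, 1 / 2) (by ext <;> simp) (fun z =>
        congrArg S (clamp_eq _ z.1 (hl z.2) (by simp) (by
          show _ = (z.2 : ℝ) / 2
          simp
          ring)).symm)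
    have hu' : aa w v (upT S) = _ := face (w := w) (v := v) (Φ := S.comp clamp) (upT S) (0, 1 / 2)
      (1, 1 / 2) (0, 1) (1, 1) (by ext <;> simp) (fun z =>
        congrArg S (clamp_eq _ z.1 (hr z.2) (by simp) (by
          show _ = (1 + (z.2 : ℝ)) / 2
          simp
          ring)).symm)
    have hb : v (S.comp lefm) = vv v (S.comp clamp) ((sg (0, 0) (0, 1 / 2)).trans
        (sg (0, 1 / 2) (0, 1))) := by
      rw [← sg_half _ _ _ (by ext <;> simp)]
      unfold vv
      congr 1
      ext1 t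
      exact congrArg S (clamp_eq _ 0 t (by simp [sg_apply]) (by simp [sg_apply])).symm
    have ht : v (S.comp rigm) = vv v (S.comp clamp) ((sg (1, 0) (1, 1 / 2)).trans
        (sg (1, 1 / 2) (1, 1))) := by
      rw [← sg_half _ _ _ (by ext <;> simp <;> norm_num)]
      unfold vv
      congr 1
      ext1 t
      exact congrArg S (clamp_eq _ 1 t (by simp [sg_apply]) (by simp [sg_apply])).symm
    rw [hf, hl', hu', hb, ht, sg_half (0, 0) (0, 1 / 2) (0, 1) (by ext <;> simp),
      sg_half (1, 0) (1, 1 / 2) (1, 1) (by ext <;> simp <;> norm_num)]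
    set p := sg (0, 0) (0, 1 / 2)
    set q := sg (0, 1 / 2) (0, 1)
    set r := sg (0, 1) (1, 1)
    set m := sg (0, 1 / 2) (1, 1 / 2)
    set p' := sg (1, 0) (1, 1 / 2)
    set q' := sg (1, 1 / 2) (1, 1)
    set l := sg (0, 0) (1, 0)
    have w12 := L.inv ((l.trans p').trans q') (l.trans (p'.trans q'))
    have w21 := L.three l p' q'
    have w23 := L.two (l.trans p') (p.trans m) q' q'
    have w34 := L.three p m q'
    have w45 := L.two p p (m.trans q') (q.trans r)
    have w56 := L.inv ((p.trans q).trans r) (p.trans (q.trans r))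
    have w65 := L.three p q r
    rw [L.refl] at w23 w45
    rw [L.one (l.trans (p'.trans q')) ((l.trans p').trans q') ((p.trans q).trans r),
      L.one ((l.trans p').trans q') ((p.trans m).trans q') ((p.trans q).trans r),
      L.one ((p.trans m).trans q') (p.trans (m.trans q')) ((p.trans q).trans r),
      L.one (p.trans (m.trans q')) (p.trans (q.trans r)) ((p.trans q).trans r),
      w12, w21, w23, w34, w45, w56, w65]
    abel

end Pool.Agent.Helper70.HH.BIS

namespace Pool.Agent.Helper70.HH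

/-- module BIS -/
theorem m_BIS (hWWL : StWWL) : StBIS := BIS.m_BIS hWWL

end Pool.Agent.Helper70.HH


end

/-! ## Helper68.BI7.M_WWL -/

section

/-!
# Project BI, stage 7 (H), module WWL : laws of linear 2-cells (helper68)
-/

set_option autoImplicit false

open scoped Topology unitInterval
open Set

namespace Pool.Agent.Helper70.HH

section WWL

variable {E : Type} [NormedAddCommGroup E] [NormedSpace ℝ E]

private theorem lnm_apply_WWL (p q : C(I, E)) (s t : I) :
    lnm p q (s, t) = (1 - (s : ℝ)) • p t + (s : ℝ) • q t := rfl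

private theorem comb_WWL (s : ℝ) (x : E) : (1 - s) • x + s • x = x := by
  rw [← add_smul, sub_add_cancel, one_smul]

private theorem lnm_zero_WWL (p q : C(I, E)) (t : I) : lnm p q (0, t) = p t := by
  rw [lnm_apply_WWL]
  simp

private theorem lnm_one_WWL (p q : C(I, E)) (t : I) : lnm p q (1, t) = q t := by
  rw [lnm_apply_WWL]
  simp

private theorem lnm_eq_WWL (p q : C(I, E)) (s t : I) (h : p t = q t) : lnm p q (s, t) = p t := by
  rw [lnm_apply_WWL, ← h, comb_WWL]

private theorem cell_lnm_WWL {X : Type} [TopologicalSpace X] (Φ : C(E, X)) (p q : C(I, E))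
    (h : Same p q) : IsCell (Φ.comp (lnm p q)) := by
  intro s
  constructor
  · change Φ (lnm p q (s, 0)) = Φ (lnm p q (0, 0))
    rw [lnm_eq_WWL p q s 0 h.1, lnm_zero_WWL]
  · change Φ (lnm p q (s, 1)) = Φ (lnm p q (0, 1))
    rw [lnm_eq_WWL p q s 1 h.2, lnm_zero_WWL]

private theorem conv_WWL {X : Type} [TopologicalSpace X] {V : Type} [AddCommGroup V]
    {w : C(I × I, X) → V} {v : C(I, X) → V} (hU : IsU X V w v) (Φ : C(E, X)) (h h' : C(I × I, E))
    (hc : IsCell (Φ.comp h))
    (hb : ∀ s t, (s = 0 ∨ s = 1 ∨ t = 0 ∨ t = 1) → h (s, t) = h' (s, t)) :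
    w (Φ.comp h) = w (Φ.comp h') := by
  refine hU.hom (Φ.comp h) (Φ.comp h')
    ⟨fun z : I × (I × I) => Φ ((1 - (z.1 : ℝ)) • h z.2 + (z.1 : ℝ) • h' z.2), by fun_prop⟩ hc ?_ ?_ ?_
  · intro z
    change Φ ((1 - ((0 : I) : ℝ)) • h z + ((0 : I) : ℝ) • h' z) = Φ (h z)
    simp
  · intro z
    change Φ ((1 - ((1 : I) : ℝ)) • h z + ((1 : I) : ℝ) • h' z) = Φ (h' z)
    simp
  · intro r s t hst
    change Φ ((1 - (r : ℝ)) • h (s, t) + (r : ℝ) • h' (s, t)) =
      Φ ((1 - ((0 : I) : ℝ)) • h (s, t) + ((0 : I) : ℝ) • h' (s, t))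
    rw [← hb s t hst, comb_WWL, comb_WWL]

/-- the concatenation of two linear cells -/
private noncomputable def cat_WWL (p q r : C(I, E)) : C(I × I, E) :=
  ⟨fun z => p z.2 + (min 1 (2 * (z.1 : ℝ))) • (q z.2 - p z.2) +
    (max 0 (2 * (z.1 : ℝ) - 1)) • (r z.2 - q z.2), by fun_prop⟩

private theorem phiI_zero_WWL : phiI 0 = 0 := by
  apply Subtype.ext
  change phi ((0 : I) : ℝ) = 0
  unfold phi
  norm_num

private theorem phiI_one_WWL : phiI 1 = 1 := by
  apply Subtype.ext
  change phi ((1 : I) : ℝ) = 1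
  unfold phi
  norm_num

end WWL

theorem m_WWL : StWWL := by
  intro X _ V _ w v hU E _ _ Φ
  refine ⟨fun h h' hc hb => conv_WWL hU Φ h h' hc hb, ?_, ?_, ?_, ?_⟩
  · -- concatenation in the first variable
    intro p q r hpq hqr
    have hcell : IsCell (Φ.comp (cat_WWL p q r)) := by
      intro s
      constructor
      · change Φ (p 0 + (min 1 (2 * (s : ℝ))) • (q 0 - p 0) +
          (max 0 (2 * (s : ℝ) - 1)) • (r 0 - q 0)) =
          Φ (p 0 + (min 1 (2 * ((0 : I) : ℝ))) • (q 0 - p 0) +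
          (max 0 (2 * ((0 : I) : ℝ) - 1)) • (r 0 - q 0))
        rw [hpq.1, hqr.1]
        simp
      · change Φ (p 1 + (min 1 (2 * (s : ℝ))) • (q 1 - p 1) +
          (max 0 (2 * (s : ℝ) - 1)) • (r 1 - q 1)) =
          Φ (p 1 + (min 1 (2 * ((0 : I) : ℝ))) • (q 1 - p 1) +
          (max 0 (2 * ((0 : I) : ℝ) - 1)) • (r 1 - q 1))
        rw [hpq.2, hqr.2]
        simp
    have hlow : lowS (Φ.comp (cat_WWL p q r)) = Φ.comp (lnm p q) := by
      ext ⟨s, t⟩
      change Φ (p t + (min 1 (2 * ((s : ℝ) / 2))) • (q t - p t) +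
        (max 0 (2 * ((s : ℝ) / 2) - 1)) • (r t - q t)) = Φ ((1 - (s : ℝ)) • p t + (s : ℝ) • q t)
      have h0 := s.2.1
      have h1 := s.2.2
      rw [show 2 * ((s : ℝ) / 2) = s by ring, min_eq_right h1, max_eq_left (by linarith)]
      congr 1
      module
    have hup : upS (Φ.comp (cat_WWL p q r)) = Φ.comp (lnm q r) := by
      ext ⟨s, t⟩
      change Φ (p t + (min 1 (2 * ((1 + (s : ℝ)) / 2))) • (q t - p t) +
        (max 0 (2 * ((1 + (s : ℝ)) / 2) - 1)) • (r t - q t)) =
        Φ ((1 - (s : ℝ)) • q t + (s : ℝ) • r t)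
      have h0 := s.2.1
      have h1 := s.2.2
      rw [show 2 * ((1 + (s : ℝ)) / 2) = 1 + s by ring, min_eq_left (by linarith),
        max_eq_right (by linarith)]
      congr 1
      module
    have hconv : w (Φ.comp (cat_WWL p q r)) = w (Φ.comp (lnm p r)) := by
      apply conv_WWL hU Φ _ _ hcell
      intro s t hst
      change p t + (min 1 (2 * (s : ℝ))) • (q t - p t) +
        (max 0 (2 * (s : ℝ) - 1)) • (r t - q t) = lnm p r (s, t)
      rcases hst with rfl | rfl | rfl | rfl
      · rw [lnm_zero_WWL]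
        simp
      · rw [lnm_one_WWL]
        norm_num
      · rw [lnm_eq_WWL p r s 0 (hpq.1.trans hqr.1), hpq.1, hqr.1]
        simp
      · rw [lnm_eq_WWL p r s 1 (hpq.2.trans hqr.2), hpq.2, hqr.2]
        simp
    rw [← hconv, hU.vert _ hcell, hlow, hup]
  · -- horizontal decomposition
    intro p q hpq hmid
    have hcell := cell_lnm_WWL Φ p q hpq
    have h1 := hU.hor (Φ.comp (lnm p q)) hcell (by
      intro s
      change Φ (lnm p q (s, mid)) = Φ (lnm p q (0, mid))
      rw [lnm_eq_WWL p q s mid hmid, lnm_zero_WWL])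
    have e1 : lowT (Φ.comp (lnm p q)) = Φ.comp (lnm (p.comp hl) (q.comp hl)) := rfl
    have e2 : upT (Φ.comp (lnm p q)) = Φ.comp (lnm (p.comp hr) (q.comp hr)) := rfl
    have e3 : row (Φ.comp (lnm p q)) 1 = Φ.comp q := by
      ext t
      change Φ (lnm p q (1, t)) = Φ (q t)
      rw [lnm_one_WWL]
    have e4 : row (Φ.comp (lnm p q)) 0 = Φ.comp p := by
      ext t
      change Φ (lnm p q (0, t)) = Φ (p t)
      rw [lnm_zero_WWL]
    rw [e1, e2, e3, e4] at h1
    exact h1
  · -- the associator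
    intro R
    have hsame : Same R (R.comp phiI) := by
      constructor
      · change R 0 = R (phiI 0)
        rw [phiI_zero_WWL]
      · change R 1 = R (phiI 1)
        rw [phiI_one_WWL]
    have hcell := cell_lnm_WWL Φ R (R.comp phiI) hsame
    have h1 : w (Φ.comp (lnm R (R.comp phiI))) = w (Φ.comp (ascU R)) := by
      apply conv_WWL hU Φ _ _ hcell
      intro s t hst
      have hasc : ∀ (a : I), (1 - (s : ℝ)) * t + (s : ℝ) * (phiI t : ℝ) = a →
          ascU R (s, t) = R a := by
        intro a ha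
        change R ⟨(1 - (s : ℝ)) * t + (s : ℝ) * (phiI t : ℝ), _⟩ = R a
        congr 1
        exact Subtype.ext ha
      rcases hst with rfl | rfl | rfl | rfl
      · rw [lnm_zero_WWL, hasc t (by simp)]
      · rw [lnm_one_WWL, hasc (phiI t) (by simp)]
        rfl
      · rw [lnm_eq_WWL _ _ s 0 hsame.1, hasc 0 (by rw [phiI_zero_WWL]; simp)]
      · rw [lnm_eq_WWL _ _ s 1 hsame.2, hasc 1 (by rw [phiI_one_WWL]; simp)]
    have h2 : ascU (Φ.comp R) = Φ.comp (ascU R) := rfl
    have h3 := hU.assoc (Φ.comp R)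
    rw [h2] at h3
    rw [h1, h3]
    rfl
  · -- constant cells
    intro p
    have hcell := cell_lnm_WWL Φ p p ⟨rfl, rfl⟩
    have h1 := hU.vert (Φ.comp (lnm p p)) hcell
    have hval : ∀ s t : I, lnm p p (s, t) = p t := fun s t => lnm_eq_WWL p p s t rfl
    have e1 : lowS (Φ.comp (lnm p p)) = Φ.comp (lnm p p) := by
      ext ⟨s, t⟩
      change Φ (lnm p p (hl s, t)) = Φ (lnm p p (s, t))
      rw [hval, hval]
    have e2 : upS (Φ.comp (lnm p p)) = Φ.comp (lnm p p) := by
      ext ⟨s, t⟩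
      change Φ (lnm p p (hr s, t)) = Φ (lnm p p (s, t))
      rw [hval, hval]
    rw [e1, e2] at h1
    exact left_eq_add.mp h1

end Pool.Agent.Helper70.HH


end

/-! ## Helper8.BI7.M_CUB -/

section

/-!
# Project BI, stage 7, module CUB: the value of squares vanishes on the boundary of a cube
-/

set_option autoImplicit false

open scoped Topology unitInterval
open Set

namespace Pool.Agent.Helper70.HH

namespace CUBH

/-- clamp to the unit interval -/
noncomputable def cl (x : ℝ) : I := projIcc (0 : ℝ) 1 zero_le_one x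

theorem continuous_cl : Continuous cl := continuous_projIcc (h := zero_le_one)

theorem cl_coe (x : I) : cl (x : ℝ) = x := projIcc_val zero_le_one x

theorem cl_le (x : ℝ) (h : x ≤ 0) : cl x = 0 := projIcc_of_le_left zero_le_one h

theorem cl_ge (x : ℝ) (h : 1 ≤ x) : cl x = 1 := projIcc_of_right_le zero_le_one h

theorem cl_val (x : ℝ) (h0 : 0 ≤ x) (h1 : x ≤ 1) : ((cl x : I) : ℝ) = x := by
  unfold cl
  rw [coe_projIcc, min_eq_right h1, max_eq_right h0]

section cc

variable {E : Type} [NormedAddCommGroup E] [NormedSpace ℝ E]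

/-- concatenation -/
noncomputable def ct (p q : C(I, E)) : C(I, E) :=
  ⟨fun t => p (cl (2 * (t : ℝ))) + q (cl (2 * (t : ℝ) - 1)) - q 0, by
    have h := continuous_cl
    have h1 : Continuous fun t : I => cl (2 * (t : ℝ)) := h.comp (by fun_prop)
    have h2 : Continuous fun t : I => cl (2 * (t : ℝ) - 1) := h.comp (by fun_prop)
    exact ((p.continuous.comp h1).add (q.continuous.comp h2)).sub continuous_const⟩

theorem ct_apply (p q : C(I, E)) (t : I) :
    ct p q t = p (cl (2 * (t : ℝ))) + q (cl (2 * (t : ℝ) - 1)) - q 0 := rfl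

/-- the linear path -/
noncomputable def sg (a b : E) : C(I, E) :=
  ⟨fun t => (1 - (t : ℝ)) • a + (t : ℝ) • b, by fun_prop⟩

theorem sg_apply (a b : E) (t : I) : sg a b t = (1 - (t : ℝ)) • a + (t : ℝ) • b := rfl

/-- the broken path -/
noncomputable def s2 (a b c : E) : C(I, E) := ct (sg a b) (sg b c)

theorem sg_zero (a b : E) : sg a b 0 = a := by
  rw [sg_apply, Icc.coe_zero, sub_zero, one_smul, zero_smul, add_zero]

theorem sg_one (a b : E) : sg a b 1 = b := by
  rw [sg_apply, Icc.coe_one, sub_self, one_smul, zero_smul, zero_add]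

theorem ct_zero (p q : C(I, E)) : ct p q 0 = p 0 := by
  rw [ct_apply, Icc.coe_zero, cl_le _ (by norm_num), cl_le _ (by norm_num), add_sub_cancel_right]

theorem ct_one (p q : C(I, E)) (h : p 1 = q 0) : ct p q 1 = q 1 := by
  rw [ct_apply, Icc.coe_one, cl_ge _ (by norm_num), cl_ge _ (by norm_num), h]
  abel

theorem ct_hl (p q : C(I, E)) : (ct p q).comp hl = p := by
  ext t
  show ct p q (hl t) = p t
  have e : ((hl t : I) : ℝ) = (t : ℝ) / 2 := rfl
  rw [ct_apply, e, show 2 * ((t : ℝ) / 2) = t by ring, cl_coe, cl_le _ (by linarith [t.2.2]),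
    add_sub_cancel_right]

theorem ct_hr (p q : C(I, E)) (h : p 1 = q 0) : (ct p q).comp hr = q := by
  ext t
  show ct p q (hr t) = q t
  have e : ((hr t : I) : ℝ) = (1 + (t : ℝ)) / 2 := rfl
  rw [ct_apply, e, show 2 * ((1 + (t : ℝ)) / 2) - 1 = t by ring, cl_coe,
    cl_ge _ (by linarith [t.2.1]), h]
  abel

theorem ct_phi (p q r : C(I, E)) (h1 : p 1 = q 0) (_h2 : q 1 = r 0) :
    (ct (ct p q) r).comp phiI = ct p (ct q r) := by
  ext t
  show ct (ct p q) r (phiI t) = ct p (ct q r) t
  have e : ((phiI t : I) : ℝ) = phi t := rfl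
  have t0 := t.2.1
  have t1 := t.2.2
  rw [ct_apply (ct p q) r, ct_apply p (ct q r), e, ct_zero q r]
  by_cases h : (t : ℝ) ≤ 1 / 2
  · have hp : phi t = t / 2 := if_pos h
    rw [hp, show 2 * ((t : ℝ) / 2) = t by ring, cl_coe, cl_le ((t : ℝ) - 1) (by linarith),
      cl_le (2 * (t : ℝ) - 1) (by linarith), ct_zero, ct_apply p q, cl_le (2 * (t : ℝ) - 1) (by linarith)]
    abel
  · by_cases h' : (t : ℝ) ≤ 3 / 4
    · have hp : phi t = t - 1 / 4 := by unfold phi; rw [if_neg h, if_pos h']
      have e1 : ct p q (cl (2 * ((t : ℝ) - 1 / 4))) = q (cl (4 * (t : ℝ) - 2)) := by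
        rw [ct_apply, cl_val _ (by linarith) (by linarith),
          cl_ge (2 * (2 * ((t : ℝ) - 1 / 4))) (by linarith), h1,
          show 2 * (2 * ((t : ℝ) - 1 / 4)) - 1 = 4 * (t : ℝ) - 2 by ring]
        abel
      have e2 : ct q r (cl (2 * (t : ℝ) - 1)) = q (cl (4 * (t : ℝ) - 2)) := by
        rw [ct_apply, cl_val _ (by linarith) (by linarith),
          cl_le (2 * (2 * (t : ℝ) - 1) - 1) (by linarith),
          show 2 * (2 * (t : ℝ) - 1) = 4 * (t : ℝ) - 2 by ring]
        abel
      rw [hp, e1, e2, cl_le (2 * ((t : ℝ) - 1 / 4) - 1) (by linarith),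
        cl_ge (2 * (t : ℝ)) (by linarith), h1]
      abel
    · have hp : phi t = 2 * t - 1 := by unfold phi; rw [if_neg h, if_neg h']
      have e2 : ct q r (cl (2 * (t : ℝ) - 1)) = q 1 + r (cl (4 * (t : ℝ) - 3)) - r 0 := by
        rw [ct_apply, cl_val _ (by linarith) (by linarith),
          cl_ge (2 * (2 * (t : ℝ) - 1)) (by linarith),
          show 2 * (2 * (t : ℝ) - 1) - 1 = 4 * (t : ℝ) - 3 by ring]
      rw [hp, e2, cl_ge (2 * (2 * (t : ℝ) - 1)) (by linarith), ct_one p q h1,
        show 2 * (2 * (t : ℝ) - 1) - 1 = 4 * (t : ℝ) - 3 by ring,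
        cl_ge (2 * (t : ℝ)) (by linarith), h1]
      abel

theorem s2_zero (a b c : E) : s2 a b c 0 = a := by
  unfold s2
  rw [ct_zero, sg_zero]

theorem s2_one (a b c : E) : s2 a b c 1 = c := by
  unfold s2
  rw [ct_one _ _ (by rw [sg_one, sg_zero]), sg_one]

/-- `(x y z) u` -/
noncomputable def pl (x y z u : E) : C(I, E) := ct (s2 x y z) (sg z u)

/-- `x (y z u)` -/
noncomputable def pr (x y z u : E) : C(I, E) := ct (sg x y) (s2 y z u)

theorem pl_zero (x y z u : E) : pl x y z u 0 = x := by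
  unfold pl
  rw [ct_zero, s2_zero]

theorem pl_one (x y z u : E) : pl x y z u 1 = u := by
  unfold pl
  rw [ct_one _ _ (by rw [s2_one, sg_zero]), sg_one]

theorem pr_zero (x y z u : E) : pr x y z u 0 = x := by
  unfold pr
  rw [ct_zero, sg_zero]

theorem pr_one (x y z u : E) : pr x y z u 1 = u := by
  unfold pr
  rw [ct_one _ _ (by rw [s2_zero, sg_one]), s2_one]

/-- the laws of module WWL in a convenient form -/
structure Laws {V : Type} [AddCommGroup V] (W : C(I, E) → C(I, E) → V) (vv : C(I, E) → V) :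
    Prop where
  w1 : ∀ p q r, Same p q → Same q r → W p r = W p q + W q r
  w2 : ∀ p q p' q', Same p p' → Same q q' → p 1 = q 0 →
    W (ct p q) (ct p' q') = W p p' + W q q' + vv (ct p' q') - vv (ct p q)
  w3 : ∀ p q r, p 1 = q 0 → q 1 = r 0 → W (ct (ct p q) r) (ct p (ct q r)) =
    vv (ct q r) + vv (ct p (ct q r)) - vv (ct p q) - vv (ct (ct p q) r)
  w5 : ∀ p, W p p = 0

section laws

variable {V : Type} [AddCommGroup V] {W : C(I, E) → C(I, E) → V} {vv : C(I, E) → V}

theorem same_ll (x y z y' z' u : E) : Same (pl x y z u) (pl x y' z' u) :=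
  ⟨by rw [pl_zero, pl_zero], by rw [pl_one, pl_one]⟩

theorem same_lr (x y z y' z' u : E) : Same (pl x y z u) (pr x y' z' u) :=
  ⟨by rw [pl_zero, pr_zero], by rw [pl_one, pr_one]⟩

theorem same_rl (x y z y' z' u : E) : Same (pr x y z u) (pl x y' z' u) :=
  ⟨by rw [pl_zero, pr_zero], by rw [pl_one, pr_one]⟩

theorem same_rr (x y z y' z' u : E) : Same (pr x y z u) (pr x y' z' u) :=
  ⟨by rw [pr_zero, pr_zero], by rw [pr_one, pr_one]⟩

theorem st3 (L : Laws W vv) (x y z u : E) : W (pl x y z u) (pr x y z u) =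
    vv (s2 y z u) + vv (pr x y z u) - vv (s2 x y z) - vv (pl x y z u) :=
  L.w3 (sg x y) (sg y z) (sg z u) (by rw [sg_one, sg_zero]) (by rw [sg_one, sg_zero])

theorem st3' (L : Laws W vv) (x y z u : E) : W (pr x y z u) (pl x y z u) =
    -(vv (s2 y z u) + vv (pr x y z u) - vv (s2 x y z) - vv (pl x y z u)) := by
  have h := L.w1 (pl x y z u) (pr x y z u) (pl x y z u) (same_lr _ _ _ _ _ _)
    (same_rl _ _ _ _ _ _)
  rw [L.w5, st3 L] at h
  exact eq_neg_of_add_eq_zero_right h.symm

theorem st2r (L : Laws W vv) (x y z z' u : E) : W (pr x y z u) (pr x y z' u) =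
    W (s2 y z u) (s2 y z' u) + vv (pr x y z' u) - vv (pr x y z u) := by
  have h := L.w2 (sg x y) (s2 y z u) (sg x y) (s2 y z' u) ⟨rfl, rfl⟩
    ⟨by rw [s2_zero, s2_zero], by rw [s2_one, s2_one]⟩ (by rw [sg_one, s2_zero])
  rw [L.w5, zero_add] at h
  exact h

theorem st2l (L : Laws W vv) (x y y' z u : E) : W (pl x y z u) (pl x y' z u) =
    W (s2 x y z) (s2 x y' z) + vv (pl x y' z u) - vv (pl x y z u) := by
  have h := L.w2 (s2 x y z) (sg z u) (s2 x y' z) (sg z u)
    ⟨by rw [s2_zero, s2_zero], by rw [s2_one, s2_one]⟩ ⟨rfl, rfl⟩ (by rw [s2_one, sg_zero])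
  rw [L.w5, add_zero] at h
  exact h

/-- the value of the face with the corners `a`, `b`, `b'`, `d` -/
noncomputable def fc (W : C(I, E) → C(I, E) → V) (vv : C(I, E) → V) (a b b' d : E) : V :=
  W (s2 a b d) (s2 a b' d) + vv (s2 a b d) - vv (s2 a b' d)

theorem hexagon (L : Laws W vv) (o a b c ab ac bc d : E) :
    fc W vv a ab ac d + fc W vv o a c ac + fc W vv c ac bc d =
      fc W vv o a b ab + fc W vv b ab bc d + fc W vv o b c bc := by
  have e1 := L.w1 (pl o a ab d) (pr o a ab d) (pr o c bc d) (same_lr _ _ _ _ _ _)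
    (same_rr _ _ _ _ _ _)
  have e2 := L.w1 (pr o a ab d) (pr o a ac d) (pr o c bc d) (same_rr _ _ _ _ _ _)
    (same_rr _ _ _ _ _ _)
  have e3 := L.w1 (pr o a ac d) (pl o a ac d) (pr o c bc d) (same_rl _ _ _ _ _ _)
    (same_lr _ _ _ _ _ _)
  have e4 := L.w1 (pl o a ac d) (pl o c ac d) (pr o c bc d) (same_ll _ _ _ _ _ _)
    (same_lr _ _ _ _ _ _)
  have e5 := L.w1 (pl o c ac d) (pr o c ac d) (pr o c bc d) (same_lr _ _ _ _ _ _)
    (same_rr _ _ _ _ _ _)
  have f1 := L.w1 (pl o a ab d) (pl o b ab d) (pr o c bc d) (same_ll _ _ _ _ _ _)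
    (same_lr _ _ _ _ _ _)
  have f2 := L.w1 (pl o b ab d) (pr o b ab d) (pr o c bc d) (same_lr _ _ _ _ _ _)
    (same_rr _ _ _ _ _ _)
  have f3 := L.w1 (pr o b ab d) (pr o b bc d) (pr o c bc d) (same_rr _ _ _ _ _ _)
    (same_rr _ _ _ _ _ _)
  have f4 := L.w1 (pr o b bc d) (pl o b bc d) (pr o c bc d) (same_rl _ _ _ _ _ _)
    (same_lr _ _ _ _ _ _)
  have f5 := L.w1 (pl o b bc d) (pl o c bc d) (pr o c bc d) (same_ll _ _ _ _ _ _)
    (same_lr _ _ _ _ _ _)
  have key : W (pl o a ab d) (pr o c bc d) =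
      (vv (s2 a ab d) + vv (pr o a ab d) - vv (s2 o a ab) - vv (pl o a ab d)) +
      ((W (s2 a ab d) (s2 a ac d) + vv (pr o a ac d) - vv (pr o a ab d)) +
      (-(vv (s2 a ac d) + vv (pr o a ac d) - vv (s2 o a ac) - vv (pl o a ac d)) +
      ((W (s2 o a ac) (s2 o c ac) + vv (pl o c ac d) - vv (pl o a ac d)) +
      ((vv (s2 c ac d) + vv (pr o c ac d) - vv (s2 o c ac) - vv (pl o c ac d)) +
      (W (s2 c ac d) (s2 c bc d) + vv (pr o c bc d) - vv (pr o c ac d)))))) := by
    rw [e1, e2, e3, e4, e5, st3 L o a ab d, st2r L o a ab ac d, st3' L o a ac d,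
      st2l L o a c ac d, st3 L o c ac d, st2r L o c ac bc d]
  have key' : W (pl o a ab d) (pr o c bc d) =
      (W (s2 o a ab) (s2 o b ab) + vv (pl o b ab d) - vv (pl o a ab d)) +
      ((vv (s2 b ab d) + vv (pr o b ab d) - vv (s2 o b ab) - vv (pl o b ab d)) +
      ((W (s2 b ab d) (s2 b bc d) + vv (pr o b bc d) - vv (pr o b ab d)) +
      (-(vv (s2 b bc d) + vv (pr o b bc d) - vv (s2 o b bc) - vv (pl o b bc d)) +
      ((W (s2 o b bc) (s2 o c bc) + vv (pl o c bc d) - vv (pl o b bc d)) +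
      (vv (s2 c bc d) + vv (pr o c bc d) - vv (s2 o c bc) - vv (pl o c bc d)))))) := by
    rw [f1, f2, f3, f4, f5, st2l L o a b ab d, st3 L o b ab d, st2r L o b ab bc d,
      st3' L o b bc d, st2l L o b c bc d, st3 L o c bc d]
  have fin := key.symm.trans key'
  unfold fc
  rw [← sub_eq_zero] at fin ⊢
  rw [← fin]
  abel

end laws

theorem s2_sq (a b b' d : E) (hd : d = b + (b' - a)) (t : I) :
    s2 a b d t = a + ((brm t).1 : ℝ) • (b - a) + ((brm t).2 : ℝ) • (b' - a) := by
  have t0 := t.2.1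
  have t1 := t.2.2
  have e1 : ((cl (2 * (t : ℝ)) : I) : ℝ) = ((brm t).1 : ℝ) := by
    show ((cl (2 * (t : ℝ)) : I) : ℝ) = min 1 (2 * (t : ℝ))
    unfold cl
    rw [coe_projIcc]
    exact max_eq_right (le_min zero_le_one (by linarith))
  have e2 : ((cl (2 * (t : ℝ) - 1) : I) : ℝ) = ((brm t).2 : ℝ) := by
    show ((cl (2 * (t : ℝ) - 1) : I) : ℝ) = max 0 (2 * (t : ℝ) - 1)
    unfold cl
    rw [coe_projIcc, min_eq_right (by linarith)]
  unfold s2
  rw [ct_apply, sg_zero, sg_apply, sg_apply, e1, e2, hd]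
  module

theorem face {X V : Type} [TopologicalSpace X] [AddCommGroup V] (w : C(I × I, X) → V)
    (v : C(I, X) → V) (Φ : C(E, X)) (S : C(I × I, X)) (a b b' d : E) (hd : d = b + (b' - a))
    (hS : ∀ x y : I, S (x, y) = Φ (a + (x : ℝ) • (b - a) + (y : ℝ) • (b' - a))) :
    aa w v S = fc (fun p q => w (Φ.comp (lnm p q))) (fun p => v (Φ.comp p)) a b b' d := by
  have hd' : d = b' + (b - a) := by rw [hd]; abel
  have l1 : ∀ t : I, s2 a b d t = a + ((brm t).1 : ℝ) • (b - a) + ((brm t).2 : ℝ) • (b' - a) :=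
    s2_sq a b b' d hd
  have l2 : ∀ t : I, s2 a b' d t = a + ((brm t).2 : ℝ) • (b - a) + ((brm t).1 : ℝ) • (b' - a) := by
    intro t
    rw [s2_sq a b' b d hd' t]
    abel
  have k1 : S.comp brm = Φ.comp (s2 a b d) := by
    ext t
    show S (brm t) = Φ (s2 a b d t)
    rw [l1]
    exact hS _ _
  have k2 : S.comp ltm = Φ.comp (s2 a b' d) := by
    ext t
    show S ((brm t).2, (brm t).1) = Φ (s2 a b' d t)
    rw [l2]
    exact hS _ _
  have k3 : S.comp cellm = Φ.comp (lnm (s2 a b d) (s2 a b' d)) := by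
    ext z
    show S (cellm z) = Φ ((1 - (z.1 : ℝ)) • s2 a b d z.2 + (z.1 : ℝ) • s2 a b' d z.2)
    have e1 : ((cellm z).1 : ℝ) = (1 - (z.1 : ℝ)) * (brm z.2).1 + (z.1 : ℝ) * (brm z.2).2 := rfl
    have e2 : ((cellm z).2 : ℝ) = (1 - (z.1 : ℝ)) * (brm z.2).2 + (z.1 : ℝ) * (brm z.2).1 := rfl
    have e : S (cellm z) = S ((cellm z).1, (cellm z).2) := rfl
    rw [e, hS, l1, l2, e1, e2]
    congr 1
    module
  unfold aa fc
  rw [k1, k2, k3]

end cc

/-- the extension of `C` to `ℝ × (ℝ × ℝ)` -/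
noncomputable def ext3 {X : Type} [TopologicalSpace X] (C : C(I × (I × I), X)) :
    C(ℝ × (ℝ × ℝ), X) :=
  ⟨fun e => C (cl e.1, (cl e.2.1, cl e.2.2)), by
    have h := continuous_cl
    exact C.continuous.comp ((h.comp continuous_fst).prodMk
      ((h.comp (continuous_fst.comp continuous_snd)).prodMk
        (h.comp (continuous_snd.comp continuous_snd))))⟩

theorem ext3_eq {X : Type} [TopologicalSpace X] (C : C(I × (I × I), X)) (x y z : I)
    (e : ℝ × (ℝ × ℝ)) (h1 : e.1 = (x : ℝ)) (h2 : e.2.1 = (y : ℝ)) (h3 : e.2.2 = (z : ℝ)) :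
    C (x, (y, z)) = ext3 C e := by
  show C (x, (y, z)) = C (cl e.1, (cl e.2.1, cl e.2.2))
  rw [h1, h2, h3, cl_coe, cl_coe, cl_coe]

theorem laws_of (hWWL : StWWL) {X : Type} [TopologicalSpace X] {V : Type} [AddCommGroup V]
    {w : C(I × I, X) → V} {v : C(I, X) → V} (hU : IsU X V w v) {E : Type}
    [NormedAddCommGroup E] [NormedSpace ℝ E] (Φ : C(E, X)) :
    Laws (fun p q : C(I, E) => w (Φ.comp (lnm p q))) (fun p => v (Φ.comp p)) := by
  obtain ⟨-, h1, h2, h3, h5⟩ := hWWL X V w v hU E Φ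
  refine ⟨h1, ?_, ?_, h5⟩
  · intro p q p' q' hp hq h
    have h' : p' 1 = q' 0 := by rw [← hp.2, ← hq.1, h]
    have hs : Same (ct p q) (ct p' q') :=
      ⟨by rw [ct_zero, ct_zero, hp.1], by rw [ct_one p q h, ct_one p' q' h', hq.2]⟩
    have hm : ct p q mid = ct p' q' mid := by
      have e : ((mid : I) : ℝ) = 1 / 2 := rfl
      rw [ct_apply, ct_apply, e, cl_ge (2 * (1 / 2 : ℝ)) (by norm_num),
        cl_le (2 * (1 / 2 : ℝ) - 1) (by norm_num), add_sub_cancel_right, add_sub_cancel_right,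
        hp.2]
    have k := h2 (ct p q) (ct p' q') hs hm
    rw [ct_hl, ct_hl, ct_hr p q h, ct_hr p' q' h'] at k
    exact k
  · intro p q r hp hq
    have k := h3 (ct (ct p q) r)
    rw [ct_phi p q r hp hq, ct_hr p (ct q r) (by rw [ct_zero, hp]), ct_hl] at k
    exact k

end CUBH

open CUBH

theorem m_CUB (hWWL : StWWL) : StCUB := by
  intro X _ V _ w v hU C
  have L := laws_of hWWL hU (ext3 C)
  have H := hexagon L (0, (0, 0)) (1, (0, 0)) (0, (1, 0)) (0, (0, 1)) (1, (1, 0)) (1, (0, 1))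
    (0, (1, 1)) (1, (1, 1))
  have X1 : aa w v (C.comp (fx 1)) = fc (fun p q => w ((ext3 C).comp (lnm p q)))
      (fun p => v ((ext3 C).comp p)) (1, (0, 0)) (1, (1, 0)) (1, (0, 1)) (1, (1, 1)) := by
    refine face w v (ext3 C) _ _ _ _ _ (by ext <;> norm_num) ?_
    intro x y
    refine ext3_eq C 1 x y _ ?_ ?_ ?_ <;> simp
  have X0 : aa w v (C.comp (fx 0)) = fc (fun p q => w ((ext3 C).comp (lnm p q)))
      (fun p => v ((ext3 C).comp p)) (0, (0, 0)) (0, (1, 0)) (0, (0, 1)) (0, (1, 1)) := by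
    refine face w v (ext3 C) _ _ _ _ _ (by ext <;> norm_num) ?_
    intro x y
    refine ext3_eq C 0 x y _ ?_ ?_ ?_ <;> simp
  have Y1 : aa w v (C.comp (fy 1)) = fc (fun p q => w ((ext3 C).comp (lnm p q)))
      (fun p => v ((ext3 C).comp p)) (0, (1, 0)) (1, (1, 0)) (0, (1, 1)) (1, (1, 1)) := by
    refine face w v (ext3 C) _ _ _ _ _ (by ext <;> norm_num) ?_
    intro x y
    refine ext3_eq C x 1 y _ ?_ ?_ ?_ <;> simp
  have Y0 : aa w v (C.comp (fy 0)) = fc (fun p q => w ((ext3 C).comp (lnm p q)))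
      (fun p => v ((ext3 C).comp p)) (0, (0, 0)) (1, (0, 0)) (0, (0, 1)) (1, (0, 1)) := by
    refine face w v (ext3 C) _ _ _ _ _ (by ext <;> norm_num) ?_
    intro x y
    refine ext3_eq C x 0 y _ ?_ ?_ ?_ <;> simp
  have Z1 : aa w v (C.comp (fz 1)) = fc (fun p q => w ((ext3 C).comp (lnm p q)))
      (fun p => v ((ext3 C).comp p)) (0, (0, 1)) (1, (0, 1)) (0, (1, 1)) (1, (1, 1)) := by
    refine face w v (ext3 C) _ _ _ _ _ (by ext <;> norm_num) ?_
    intro x y
    refine ext3_eq C x y 1 _ ?_ ?_ ?_ <;> simp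
  have Z0 : aa w v (C.comp (fz 0)) = fc (fun p q => w ((ext3 C).comp (lnm p q)))
      (fun p => v ((ext3 C).comp p)) (0, (0, 0)) (1, (0, 0)) (0, (1, 0)) (1, (1, 0)) := by
    refine face w v (ext3 C) _ _ _ _ _ (by ext <;> norm_num) ?_
    intro x y
    refine ext3_eq C x y 0 _ ?_ ?_ ?_ <;> simp
  rw [X1, X0, Y1, Y0, Z1, Z0]
  rw [← sub_eq_zero] at H
  rw [← H]
  abel

end Pool.Agent.Helper70.HH


end

/-! ## Helper80.BI7.M_PEN -/

section

/-! Project BI, stage 7: module PEN (the pentagon) -/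

set_option autoImplicit false

open scoped Topology unitInterval
open Set

namespace Pool.Agent.Helper70.HH

namespace PENmod

theorem phi_zero : phi 0 = 0 := by unfold phi; norm_num
theorem phi_one : phi 1 = 1 := by unfold phi; norm_num

theorem phi_le_one {v : ℝ} (hv : v ≤ 1) : phi v ≤ 1 := by
  unfold phi
  split_ifs <;> linarith

theorem phi_nonneg {v : ℝ} (hv : 0 ≤ v) : 0 ≤ phi v := by
  unfold phi
  split_ifs <;> linarith

/-- the reparametrization of `(p (q r)) s` -/
noncomputable def kk (t : ℝ) : ℝ := phi (2 * min t (1 / 2)) / 2 + max (t - 1 / 2) 0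

noncomputable def g1 (ρ t : ℝ) : ℝ := (1 - ρ) * t + ρ * phi t
noncomputable def g2 (ρ t : ℝ) : ℝ := phi ((1 - ρ) * t + ρ * phi t)
noncomputable def g3 (ρ t : ℝ) : ℝ :=
  ((1 - ρ) * (2 * min t (1 / 2)) + ρ * phi (2 * min t (1 / 2))) / 2 + max (t - 1 / 2) 0
noncomputable def g4 (ρ t : ℝ) : ℝ := kk ((1 - ρ) * t + ρ * phi t)
noncomputable def g5 (ρ t : ℝ) : ℝ :=
  kk (phi (min t (1 / 2) +
    ((1 - ρ) * max (2 * t - 1) 0 + ρ * phi (max (2 * t - 1) 0)) / 2))

theorem continuous_kk : Continuous kk := by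
  have := continuous_phi
  unfold kk
  fun_prop

/-- concatenation of functions in the first variable -/
noncomputable def cc2 (a b : ℝ → ℝ → ℝ) (c : ℝ → ℝ) (ρ t : ℝ) : ℝ :=
  a (min (2 * ρ) 1) t + b (max (2 * ρ - 1) 0) t - c t

theorem cc2_le {a b : ℝ → ℝ → ℝ} {c : ℝ → ℝ} (hb : ∀ t, b 0 t = c t) {ρ : ℝ} (t : ℝ)
    (h : ρ ≤ 1 / 2) : cc2 a b c ρ t = a (2 * ρ) t := by
  unfold cc2
  rw [min_eq_left (by linarith), max_eq_right (by linarith), hb]
  ring

theorem cc2_ge {a b : ℝ → ℝ → ℝ} {c : ℝ → ℝ} (ha : ∀ t, a 1 t = c t) {ρ : ℝ} (t : ℝ)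
    (h : 1 / 2 ≤ ρ) : cc2 a b c ρ t = b (2 * ρ - 1) t := by
  unfold cc2
  rw [min_eq_right (by linarith), max_eq_left (by linarith), ha]
  ring

theorem g1_one (t : ℝ) : g1 1 t = phi t := by unfold g1; ring
theorem g2_zero (t : ℝ) : g2 0 t = phi t := by
  unfold g2
  congr 1
  ring
theorem g3_one (t : ℝ) : g3 1 t = kk t := by
  unfold g3 kk
  ring
theorem g4_zero (t : ℝ) : g4 0 t = kk t := by
  unfold g4
  congr 1
  ring
theorem g4_one (t : ℝ) : g4 1 t = kk (phi t) := by
  unfold g4
  congr 1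
  ring

theorem min_max_half (t : ℝ) : min t (1 / 2) + max (2 * t - 1) 0 / 2 = t := by
  rcases le_total t (1 / 2) with h | h
  · rw [min_eq_left h, max_eq_right (by linarith)]
    ring
  · rw [min_eq_right h, max_eq_left (by linarith)]
    ring

theorem g5_zero (t : ℝ) : g5 0 t = kk (phi t) := by
  unfold g5
  have h : min t (1 / 2) + ((1 - 0) * max (2 * t - 1) 0 + 0 * phi (max (2 * t - 1) 0)) / 2 = t := by
    have := min_max_half t
    linarith
  rw [h]

theorem g5_one (t : ℝ) : g5 1 t = kk (phi (min t (1 / 2) + phi (max (2 * t - 1) 0) / 2)) := by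
  unfold g5
  congr 2
  ring

theorem g3_zero (t : ℝ) : g3 0 t = t := by
  unfold g3
  rcases le_total t (1 / 2) with h | h
  · rw [min_eq_left h, max_eq_right (by linarith)]
    ring
  · rw [min_eq_right h, max_eq_left (by linarith)]
    ring

/-- the pentagon for the reparametrizations -/
theorem penta (t : ℝ) :
    phi (phi t) = kk (phi (min t (1 / 2) + phi (max (2 * t - 1) 0) / 2)) := by
  have kle : ∀ u : ℝ, u ≤ 1 / 2 → kk u = phi (2 * u) / 2 := by
    intro u hu
    unfold kk
    rw [min_eq_left hu, max_eq_right (by linarith), add_zero]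
  have kge : ∀ u : ℝ, 1 / 2 ≤ u → kk u = u := by
    intro u hu
    unfold kk
    rw [min_eq_right hu, max_eq_left (by linarith)]
    norm_num [phi_one]
  have p1 : ∀ u : ℝ, u ≤ 1 / 2 → phi u = u / 2 := fun u hu => if_pos hu
  have p2 : ∀ u : ℝ, 1 / 2 ≤ u → u ≤ 3 / 4 → phi u = u - 1 / 4 := by
    intro u hu hu'
    rcases eq_or_lt_of_le hu with h | h
    · rw [p1 u h.ge, ← h]
      norm_num
    · unfold phi
      rw [if_neg (not_le.2 h), if_pos hu']
  have p3 : ∀ u : ℝ, 3 / 4 ≤ u → phi u = 2 * u - 1 := by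
    intro u hu
    rcases eq_or_lt_of_le hu with h | h
    · rw [p2 u (by linarith) h.ge, ← h]
      norm_num
    · unfold phi
      rw [if_neg (by linarith), if_neg (not_le.2 h)]
  rcases le_total t (1 / 2) with h | h
  · rw [min_eq_left h, max_eq_right (by linarith), phi_zero, zero_div, add_zero, p1 t h,
      p1 (t / 2) (by linarith), kle (t / 2) (by linarith), p1 (2 * (t / 2)) (by linarith)]
    ring
  · rw [min_eq_right h, max_eq_left (by linarith)]
    rcases le_total t (3 / 4) with h' | h'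
    · rw [p2 t h h', p1 (t - 1 / 4) (by linarith), p1 (2 * t - 1) (by linarith),
        p2 (1 / 2 + (2 * t - 1) / 2 / 2) (by linarith) (by linarith),
        kle _ (by linarith), p2 _ (by linarith) (by linarith)]
      ring
    · rw [p3 t h']
      rcases le_total t (7 / 8) with h'' | h''
      · rw [p2 (2 * t - 1) (by linarith) (by linarith),
          p2 (1 / 2 + (2 * t - 1 - 1 / 4) / 2) (by linarith) (by linarith),
          kle _ (by linarith), p3 _ (by linarith)]
        ring
      · rw [p3 (2 * t - 1) (by linarith),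
          p3 (1 / 2 + (2 * (2 * t - 1) - 1) / 2) (by linarith), kge _ (by linarith)]
        ring

section

variable {X : Type} [TopologicalSpace X] {x y z w v : X} (p : Path x y) (q : Path y z)
  (r : Path z w) (s : Path w v)

/-- the parametrization `kk` -/
theorem ext_kk (u : ℝ) : ((p.trans (q.trans r)).trans s).extend u =
    (((p.trans q).trans r).trans s).extend (kk u) := by
  rcases le_total u (1 / 2) with h | h
  · have hk : kk u = phi (2 * u) / 2 := by
      unfold kk
      rw [min_eq_left h, max_eq_right (by linarith), add_zero]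
    have h1 : phi (2 * u) ≤ 1 := phi_le_one (by linarith)
    have e1 : ((p.trans (q.trans r)).trans s).extend u = (p.trans (q.trans r)).extend (2 * u) :=
      Path.extend_trans_of_le_half _ _ h
    have e2 : (((p.trans q).trans r).trans s).extend (phi (2 * u) / 2) =
        ((p.trans q).trans r).extend (2 * (phi (2 * u) / 2)) :=
      Path.extend_trans_of_le_half _ _ (by linarith)
    rw [hk, e1, e2, ← phi_trans]
    congr 1
    ring
  · have hk : kk u = u := by
      unfold kk
      rw [min_eq_right h, max_eq_left (by linarith)]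
      norm_num [phi_one]
    rw [hk, Path.extend_trans_of_half_le _ _ h, Path.extend_trans_of_half_le _ _ h]

theorem c1 (ρ t : I) : ascP (p.trans q) r s ρ t =
    (((p.trans q).trans r).trans s).extend (g1 ρ t) := ascP_apply _ _ _ _ _

theorem c2 (ρ t : I) : ascP p q (r.trans s) ρ t =
    (((p.trans q).trans r).trans s).extend (g2 ρ t) := by
  rw [ascP_apply]
  unfold g2
  rw [phi_trans]

theorem c3 (ρ t : I) : hcP (ascP p q r) (Path.refl s) ρ t =
    (((p.trans q).trans r).trans s).extend (g3 ρ t) := by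
  show ((ascP p q r ρ).trans s) t = _
  have hρ0 := ρ.2.1
  have hρ1 := ρ.2.2
  have ht0 := t.2.1
  have ht1 := t.2.2
  rw [Path.trans_apply]
  split_ifs with h
  · rw [ascP_apply]
    have e : g3 ρ t = ((1 - (ρ : ℝ)) * (2 * t) + (ρ : ℝ) * phi (2 * t)) / 2 := by
      unfold g3
      rw [min_eq_left h, max_eq_right (by linarith), add_zero]
    have hb : (1 - (ρ : ℝ)) * (2 * t) + (ρ : ℝ) * phi (2 * t) ≤ 1 := by
      have h1 : phi (2 * (t : ℝ)) ≤ 1 := phi_le_one (by linarith)
      nlinarith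
    have e2 : (((p.trans q).trans r).trans s).extend
        (((1 - (ρ : ℝ)) * (2 * t) + (ρ : ℝ) * phi (2 * t)) / 2) =
        ((p.trans q).trans r).extend
          (2 * (((1 - (ρ : ℝ)) * (2 * t) + (ρ : ℝ) * phi (2 * t)) / 2)) :=
      Path.extend_trans_of_le_half _ _ (by linarith)
    rw [e, e2]
    congr 1
    show (1 - (ρ : ℝ)) * (2 * t) + (ρ : ℝ) * phi (2 * t) = _
    ring
  · have h' : (1 : ℝ) / 2 ≤ t := by linarith
    have e : g3 ρ t = t := by
      unfold g3
      rw [min_eq_right h', max_eq_left (by linarith)]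
      norm_num [phi_one]
    rw [e, Path.extend_trans_of_half_le _ _ h']
    exact (Path.extend_apply s _).symm

theorem c4 (ρ t : I) : ascP p (q.trans r) s ρ t =
    (((p.trans q).trans r).trans s).extend (g4 ρ t) := by
  rw [ascP_apply]
  unfold g4
  rw [ext_kk]

theorem c5 (ρ t : I) : hcP (Path.refl p) (ascP q r s) ρ t =
    (((p.trans q).trans r).trans s).extend (g5 ρ t) := by
  show (p.trans (ascP q r s ρ)) t = _
  have hρ0 := ρ.2.1
  have hρ1 := ρ.2.2
  have ht0 := t.2.1
  have ht1 := t.2.2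
  unfold g5
  rw [← ext_kk, phi_trans, Path.trans_apply]
  split_ifs with h
  · rw [min_eq_left h, max_eq_right (by linarith), phi_zero]
    have e : (t : ℝ) + ((1 - (ρ : ℝ)) * 0 + (ρ : ℝ) * 0) / 2 = t := by ring
    rw [e, Path.extend_trans_of_le_half _ _ h]
    exact (Path.extend_apply p _).symm
  · have h' : (1 : ℝ) / 2 ≤ t := by linarith
    have h2 : (0 : ℝ) ≤ 2 * t - 1 := by linarith
    rw [min_eq_right h', max_eq_left h2, ascP_apply]
    have hn : 0 ≤ (1 - (ρ : ℝ)) * (2 * t - 1) + (ρ : ℝ) * phi (2 * t - 1) := by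
      have h3 : 0 ≤ phi (2 * (t : ℝ) - 1) := phi_nonneg h2
      have h4 : 0 ≤ 1 - (ρ : ℝ) := by linarith
      positivity
    have e2 : (p.trans ((q.trans r).trans s)).extend
        (1 / 2 + ((1 - (ρ : ℝ)) * (2 * t - 1) + (ρ : ℝ) * phi (2 * t - 1)) / 2) =
        ((q.trans r).trans s).extend
          (2 * (1 / 2 + ((1 - (ρ : ℝ)) * (2 * t - 1) + (ρ : ℝ) * phi (2 * t - 1)) / 2) - 1) :=
      Path.extend_trans_of_half_le _ _ (by linarith)
    rw [e2]
    congr 1
    show (1 - (ρ : ℝ)) * (2 * t - 1) + (ρ : ℝ) * phi (2 * t - 1) = _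
    ring

end

/-- concatenation of cells -/
theorem trans_cell {X : Type} [TopologicalSpace X] {x y : X} {p q r : Path x y} (γ : Path p q)
    (δ : Path q r) (Φ : ℝ → X) (a b : ℝ → ℝ → ℝ) (c : ℝ → ℝ) (hb : ∀ t, b 0 t = c t)
    (ha : ∀ t, a 1 t = c t) (h1 : ∀ ρ t : I, γ ρ t = Φ (a ρ t))
    (h2 : ∀ ρ t : I, δ ρ t = Φ (b ρ t)) (ρ t : I) :
    (γ.trans δ) ρ t = Φ (cc2 a b c ρ t) := by
  rw [Path.trans_apply]
  split_ifs with h
  · rw [h1, cc2_le hb _ h]
  · rw [h2, cc2_ge ha _ (by linarith)]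

theorem continuous_cc2 {a b : ℝ → ℝ → ℝ} {c : ℝ → ℝ} (ha : Continuous fun z : ℝ × ℝ => a z.1 z.2)
    (hb : Continuous fun z : ℝ × ℝ => b z.1 z.2) (hc : Continuous c) :
    Continuous fun z : ℝ × ℝ => cc2 a b c z.1 z.2 := by
  unfold cc2
  have h1 : Continuous fun z : ℝ × ℝ => a (min (2 * z.1) 1) z.2 :=
    ha.comp (by fun_prop : Continuous fun z : ℝ × ℝ => (min (2 * z.1) 1, z.2))
  have h2 : Continuous fun z : ℝ × ℝ => b (max (2 * z.1 - 1) 0) z.2 :=
    hb.comp (by fun_prop : Continuous fun z : ℝ × ℝ => (max (2 * z.1 - 1) 0, z.2))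
  exact (h1.add h2).sub (hc.comp continuous_snd)

theorem cont_g1 : Continuous fun z : ℝ × ℝ => g1 z.1 z.2 := by
  have := continuous_phi
  unfold g1
  fun_prop
theorem cont_g2 : Continuous fun z : ℝ × ℝ => g2 z.1 z.2 := continuous_phi.comp cont_g1
theorem cont_g3 : Continuous fun z : ℝ × ℝ => g3 z.1 z.2 := by
  have := continuous_phi
  unfold g3
  fun_prop
theorem cont_g4 : Continuous fun z : ℝ × ℝ => g4 z.1 z.2 := continuous_kk.comp cont_g1
theorem cont_g5 : Continuous fun z : ℝ × ℝ => g5 z.1 z.2 := by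
  have := continuous_phi
  have := continuous_kk
  unfold g5
  fun_prop

end PENmod

open PENmod

theorem m_PEN (hCNV : StCNV) : StPEN := by
  intro X _ x y z w v p q r s
  rw [← Path.Homotopic.Quotient.mk_refl, ← Path.Homotopic.Quotient.mk_refl]
  unfold asc
  rw [hc_mk, hc_mk, ← Path.Homotopic.Quotient.mk_trans, ← Path.Homotopic.Quotient.mk_trans,
    ← Path.Homotopic.Quotient.mk_trans]
  apply Quotient.sound
  have hg45 : Continuous fun z : ℝ × ℝ => cc2 g4 g5 (fun t => kk (phi t)) z.1 z.2 :=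
    continuous_cc2 cont_g4 cont_g5 (continuous_kk.comp continuous_phi)
  have hL : Continuous fun z : ℝ × ℝ => cc2 g1 g2 phi z.1 z.2 :=
    continuous_cc2 cont_g1 cont_g2 continuous_phi
  have hR : Continuous fun z : ℝ × ℝ =>
      cc2 g3 (cc2 g4 g5 (fun t => kk (phi t))) kk z.1 z.2 :=
    continuous_cc2 cont_g3 hg45 continuous_kk
  have hi : Continuous fun z : I × I => ((z.1 : ℝ), (z.2 : ℝ)) := by fun_prop
  have h45z : ∀ t : ℝ, cc2 g4 g5 (fun t => kk (phi t)) 0 t = kk t := by
    intro t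
    rw [cc2_le g5_zero _ (by norm_num), mul_zero, g4_zero]
  have h45o : ∀ t : ℝ, cc2 g4 g5 (fun t => kk (phi t)) 1 t = g5 1 t := by
    intro t
    rw [cc2_ge g4_one _ (by norm_num)]
    norm_num
  refine hCNV X ℝ x v _ _ _ _ ⟨(((p.trans q).trans r).trans s).extend,
    Path.continuous_extend _⟩ ⟨fun z => cc2 g1 g2 phi z.1 z.2, hL.comp hi⟩
    ⟨fun z => cc2 g3 (cc2 g4 g5 (fun t => kk (phi t))) kk z.1 z.2, hR.comp hi⟩ ?_ ?_ ?_
  · intro ρ t
    exact trans_cell _ _ (((p.trans q).trans r).trans s).extend g1 g2 phi g2_zero g1_one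
      (c1 p q r s) (c2 p q r s) ρ t
  · intro ρ t
    refine trans_cell _ _ (((p.trans q).trans r).trans s).extend g3
      (cc2 g4 g5 (fun t => kk (phi t))) kk h45z g3_one (c3 p q r s) ?_ ρ t
    intro ρ t
    exact trans_cell _ _ (((p.trans q).trans r).trans s).extend g4 g5 (fun t => kk (phi t))
      g5_zero g4_one (c4 p q r s) (c5 p q r s) ρ t
  · intro ρ t h
    show cc2 g1 g2 phi (ρ : ℝ) (t : ℝ) =
      cc2 g3 (cc2 g4 g5 (fun t => kk (phi t))) kk (ρ : ℝ) (t : ℝ)
    have ht0 := t.2.1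
    have ht1 := t.2.2
    rcases h with rfl | rfl | rfl | rfl
    · rw [Icc.coe_zero, cc2_le g2_zero _ (by norm_num), cc2_le h45z _ (by norm_num), mul_zero,
        g3_zero]
      unfold g1
      ring
    · rw [Icc.coe_one, cc2_ge g1_one _ (by norm_num), cc2_ge g3_one _ (by norm_num)]
      have e : (2 : ℝ) * 1 - 1 = 1 := by norm_num
      rw [e, h45o, g5_one, ← penta]
      unfold g2
      congr 1
      ring
    · have kz : kk 0 = 0 := by
        unfold kk
        rw [min_eq_left (by norm_num), max_eq_right (by norm_num)]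
        norm_num [phi_zero]
      rw [Icc.coe_zero]
      have a1 : ∀ ρ : ℝ, g1 ρ 0 = 0 := by
        intro ρ
        unfold g1
        rw [phi_zero]
        ring
      have a2 : ∀ ρ : ℝ, g2 ρ 0 = 0 := by
        intro ρ
        have := a1 ρ
        unfold g1 at this
        unfold g2
        rw [this, phi_zero]
      have a3 : ∀ ρ : ℝ, g3 ρ 0 = 0 := by
        intro ρ
        unfold g3
        rw [min_eq_left (by norm_num), max_eq_right (by norm_num)]
        norm_num [phi_zero]
      have a4 : ∀ ρ : ℝ, g4 ρ 0 = 0 := by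
        intro ρ
        have := a1 ρ
        unfold g1 at this
        unfold g4
        rw [this, kz]
      have a5 : ∀ ρ : ℝ, g5 ρ 0 = 0 := by
        intro ρ
        unfold g5
        rw [min_eq_left (by norm_num), max_eq_right (by norm_num)]
        norm_num [phi_zero, kz]
      unfold cc2
      simp only [a1, a2, a3, a4, a5, phi_zero, kz]
      norm_num
    · have ko : kk 1 = 1 := by
        unfold kk
        rw [min_eq_right (by norm_num), max_eq_left (by norm_num)]
        norm_num [phi_one]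
      rw [Icc.coe_one]
      have a1 : ∀ ρ : ℝ, g1 ρ 1 = 1 := by
        intro ρ
        unfold g1
        rw [phi_one]
        ring
      have a2 : ∀ ρ : ℝ, g2 ρ 1 = 1 := by
        intro ρ
        have := a1 ρ
        unfold g1 at this
        unfold g2
        rw [this, phi_one]
      have a3 : ∀ ρ : ℝ, g3 ρ 1 = 1 := by
        intro ρ
        unfold g3
        rw [min_eq_right (by norm_num), max_eq_left (by norm_num)]
        norm_num [phi_one]
      have a4 : ∀ ρ : ℝ, g4 ρ 1 = 1 := by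
        intro ρ
        have := a1 ρ
        unfold g1 at this
        unfold g4
        rw [this, ko]
      have a5 : ∀ ρ : ℝ, g5 ρ 1 = 1 := by
        intro ρ
        unfold g5
        rw [min_eq_right (by norm_num), max_eq_left (by norm_num)]
        have e : (2 : ℝ) * 1 - 1 = 1 := by norm_num
        rw [e, phi_one]
        have e2 : (1 : ℝ) / 2 + ((1 - ρ) * 1 + ρ * 1) / 2 = 1 := by ring
        rw [e2, phi_one, ko]
      unfold cc2
      simp only [a1, a2, a3, a4, a5, phi_one, ko]
      norm_num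

end Pool.Agent.Helper70.HH


end

/-! ## Helper84.BI7.M_WEX -/

section

/-!
# Project BI, stage 7 (H): module WEX
-/

set_option autoImplicit false

open scoped Topology unitInterval
open Set

namespace Pool.Agent.Helper70.HH

namespace WEX

open Path.Homotopic

theorem cancel₁ {Z : Type} [TopologicalSpace Z] {p q r : Z} (a : Path.Homotopic.Quotient p q)
    (b : Path.Homotopic.Quotient p r) : a.trans (a.symm.trans b) = b := by
  rw [← Quotient.trans_assoc, Quotient.trans_symm, Quotient.refl_trans]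

theorem cancel₂ {Z : Type} [TopologicalSpace Z] {p q r : Z} (a : Path.Homotopic.Quotient p q)
    (b : Path.Homotopic.Quotient q r) : a.symm.trans (a.trans b) = b := by
  rw [← Quotient.trans_assoc, Quotient.symm_trans, Quotient.refl_trans]

theorem map_tr {Z Y : Type} [TopologicalSpace Z] [TopologicalSpace Y] {p q r : Z}
    (a : Path.Homotopic.Quotient p q) (b : Path.Homotopic.Quotient q r) (f : C(Z, Y)) :
    (a.trans b).map f = (a.map f).trans (b.map f) := by
  induction a using Path.Homotopic.Quotient.ind with | mk a =>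
  induction b using Path.Homotopic.Quotient.ind with | mk b =>
  rw [← Quotient.mk_trans, ← Quotient.mk_map, ← Quotient.mk_map, ← Quotient.mk_map,
    ← Quotient.mk_trans, Path.map_trans]

/-- choice of 2-cells to a representative of each component -/
theorem reps (Z : Type) [TopologicalSpace Z] :
    ∃ (C : Type) (cl : Z → C) (out : C → Z)
      (_ : ∀ (p : Z) (d : C), cl p = d → Path.Homotopic.Quotient p (out d)),
      ∀ p q : Z, Nonempty (Path.Homotopic.Quotient p q) → cl p = cl q := by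
  let s : Setoid Z :=
    { r := fun p q => Nonempty (Path.Homotopic.Quotient p q)
      iseqv :=
        { refl := fun p => ⟨Quotient.refl p⟩
          symm := fun ⟨a⟩ => ⟨a.symm⟩
          trans := fun ⟨a⟩ ⟨b⟩ => ⟨a.trans b⟩ } }
  refine ⟨_root_.Quotient s, fun p => _root_.Quotient.mk s p, fun d => d.out, fun p d h =>
    Classical.choice ?_, fun p q h => _root_.Quotient.sound h⟩
  have h1 : _root_.Quotient.mk s p = _root_.Quotient.mk s d.out :=
    (show _root_.Quotient.mk s p = d from h).trans (_root_.Quotient.out_eq d).symm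
  exact _root_.Quotient.exact h1

theorem wexA (Z : Type) [TopologicalSpace Z] (M : Type) [AddCommGroup M]
    (c : ∀ p : Z, Path.Homotopic.Quotient p p → M)
    (hmul : ∀ (p : Z) (α β : Path.Homotopic.Quotient p p), c p (α.trans β) = c p α + c p β)
    (hcyc : ∀ (p q : Z) (α : Path.Homotopic.Quotient p q) (β : Path.Homotopic.Quotient q p),
      c p (α.trans β) = c q (β.trans α)) :
    ∃ w : ∀ p q : Z, Path.Homotopic.Quotient p q → M,
      (∀ (p q r : Z) (α : Path.Homotopic.Quotient p q) (β : Path.Homotopic.Quotient q r),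
        w p r (α.trans β) = w p q α + w q r β) ∧
      ∀ (p : Z) (α : Path.Homotopic.Quotient p p), w p p α = c p α := by
  obtain ⟨C, cl, out, k, hcl⟩ := reps Z
  let V : ∀ (d : C) (p q : Z), cl p = d → cl q = d → Path.Homotopic.Quotient p q → M :=
    fun d p q hp hq α => c p (α.trans ((k q d hq).trans (k p d hp).symm))
  let w : ∀ p q : Z, Path.Homotopic.Quotient p q → M :=
    fun p q α => V (cl p) p q rfl (hcl p q ⟨α⟩).symm α
  have hw : ∀ (d : C) (p q : Z) (hp : cl p = d) (hq : cl q = d)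
      (α : Path.Homotopic.Quotient p q), V d p q hp hq α = w p q α := by
    intro d p q hp hq α
    subst hp
    rfl
  refine ⟨w, ?_, ?_⟩
  · intro p q r α β
    have hq : cl q = cl p := (hcl p q ⟨α⟩).symm
    have hr : cl r = cl p := (hcl p r ⟨α.trans β⟩).symm
    rw [← hw (cl p) p r rfl hr, ← hw (cl p) p q rfl hq, ← hw (cl p) q r hq hr]
    have e1 : V (cl p) q r hq hr β =
        c p (((k p (cl p) rfl).trans (k q (cl p) hq).symm).trans
          ((β.trans ((k r (cl p) hr).trans (k q (cl p) hq).symm)).trans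
            ((k q (cl p) hq).trans (k p (cl p) rfl).symm))) := by
      rw [hcyc]
      show c q _ = c q _
      congr 1
      simp only [Quotient.trans_assoc, cancel₂]
    rw [e1]
    show c p _ = c p _ + c p _
    rw [← hmul]
    congr 1
    simp only [Quotient.trans_assoc, cancel₂, cancel₁]
  · intro p α
    show c p _ = c p _
    congr 1
    rw [Quotient.trans_symm, Quotient.trans_refl]

theorem wexB (Z : Type) [TopologicalSpace Z] (M : Type) [AddCommGroup M]
    (u : ∀ p q : Z, Path.Homotopic.Quotient p q → M)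
    (hadd : ∀ (p q r : Z) (α : Path.Homotopic.Quotient p q) (β : Path.Homotopic.Quotient q r),
        u p r (α.trans β) = u p q α + u q r β)
    (hz : ∀ (p : Z) (α : Path.Homotopic.Quotient p p), u p p α = 0) :
    ∃ g : Z → M, ∀ (p q : Z) (α : Path.Homotopic.Quotient p q), u p q α = g q - g p := by
  obtain ⟨C, cl, out, k, hcl⟩ := reps Z
  let G : ∀ (d : C) (p : Z), cl p = d → M := fun d p hp => - u p (out d) (k p d hp)
  let g : Z → M := fun p => G (cl p) p rfl
  have hg : ∀ (d : C) (p : Z) (hp : cl p = d), G d p hp = g p := by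
    intro d p hp
    subst hp
    rfl
  refine ⟨g, ?_⟩
  intro p q α
  have hq : cl q = cl p := (hcl p q ⟨α⟩).symm
  rw [← hg (cl p) q hq, ← hg (cl p) p rfl]
  show u p q α = - u q _ _ - - u p _ _
  have h1 := hz p (α.trans ((k q (cl p) hq).trans (k p (cl p) rfl).symm))
  rw [hadd, hadd] at h1
  have h2 := hz p ((k p (cl p) rfl).trans (k p (cl p) rfl).symm)
  rw [hadd] at h2
  have h3 : u p q α + u q (out (cl p)) (k q (cl p) hq) = u p (out (cl p)) (k p (cl p) rfl) := by
    have : u p q α + u q (out (cl p)) (k q (cl p) hq) - u p (out (cl p)) (k p (cl p) rfl) =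
        (u p q α + (u q (out (cl p)) (k q (cl p) hq) +
          u (out (cl p)) p (k p (cl p) rfl).symm)) -
        (u p (out (cl p)) (k p (cl p) rfl) + u (out (cl p)) p (k p (cl p) rfl).symm) := by
      abel
    rw [h1, h2, sub_zero] at this
    exact sub_eq_zero.1 this
  rw [← h3]
  abel

end WEX

open WEX in
theorem m_WEX (hHL : StHL) : StWEX := by
  have _ := hHL
  intro X _ M _ cc hcc
  have hA := fun x y : X => wexA (Path x y) M (fun p => cc p)
    (fun p α β => hcc.mul p α β) (fun p q α β => hcc.cyc p q α β)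
  choose W hWadd hWcl using hA
  have hB : ∀ x y z : X, ∃ g : Path x y × Path y z → M,
      ∀ (P Q : Path x y × Path y z) (γ : Path.Homotopic.Quotient P Q),
        W x z (P.1.trans P.2) (Q.1.trans Q.2)
            (γ.map ⟨fun u : Path x y × Path y z => u.1.trans u.2,
              continuous_fst.path_trans continuous_snd⟩) -
          W x y P.1 Q.1 (Path.Homotopic.projLeft γ) -
          W y z P.2 Q.2 (Path.Homotopic.projRight γ) = g Q - g P := by
    intro x y z
    refine wexB (Path x y × Path y z) M (fun P Q γ =>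
        W x z (P.1.trans P.2) (Q.1.trans Q.2)
            (γ.map ⟨fun u : Path x y × Path y z => u.1.trans u.2,
              continuous_fst.path_trans continuous_snd⟩) -
          W x y P.1 Q.1 (Path.Homotopic.projLeft γ) -
          W y z P.2 Q.2 (Path.Homotopic.projRight γ)) ?_ ?_
    · intro P Q R α β
      show W x z _ _ _ - W x y _ _ _ - W y z _ _ _ = _
      unfold Path.Homotopic.projLeft Path.Homotopic.projRight
      rw [map_tr, map_tr, map_tr]
      have e1 := hWadd x z (P.1.trans P.2) (Q.1.trans Q.2) (R.1.trans R.2)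
        (α.map ⟨fun u : Path x y × Path y z => u.1.trans u.2,
              continuous_fst.path_trans continuous_snd⟩)
        (β.map ⟨fun u : Path x y × Path y z => u.1.trans u.2,
              continuous_fst.path_trans continuous_snd⟩)
      have e2 := hWadd x y P.1 Q.1 R.1 (α.map ⟨_, continuous_fst⟩) (β.map ⟨_, continuous_fst⟩)
      have e3 := hWadd y z P.2 Q.2 R.2 (α.map ⟨_, continuous_snd⟩) (β.map ⟨_, continuous_snd⟩)
      erw [e1, e2, e3]
      abel
    · rintro ⟨p, q⟩ α
      have h1 := hWcl x z (p.trans q) (hc (Path.Homotopic.projLeft α) (Path.Homotopic.projRight α))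
      have h2 := hWcl x y p (Path.Homotopic.projLeft α)
      have h3 := hWcl y z q (Path.Homotopic.projRight α)
      have h4 := hcc.hor p q (Path.Homotopic.projLeft α) (Path.Homotopic.projRight α)
      have h5 : hc (Path.Homotopic.projLeft α) (Path.Homotopic.projRight α) =
          α.map ⟨fun u : Path x y × Path y z => u.1.trans u.2,
              continuous_fst.path_trans continuous_snd⟩ := by
        show Path.Homotopic.Quotient.map (Path.Homotopic.prod (Path.Homotopic.projLeft α)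
          (Path.Homotopic.projRight α)) _ = _
        rw [Path.Homotopic.prod_projLeft_projRight]
      rw [h5] at h1 h4
      show W x z (p.trans q) (p.trans q) _ - W x y p p _ - W y z q q _ = 0
      erw [h1, h2, h3, h4]
      abel
  choose g hg using hB
  refine ⟨fun {x y} {p q} α => W x y p q α, fun {x y z} p q => g x y z (p, q), ?_⟩
  constructor
  · intro x y p q r α β
    exact hWadd x y p q r α β
  · intro x y p α
    exact hWcl x y p α
  · intro x y z p p' q q' α β
    have h := hg x y z (p, q) (p', q') (Path.Homotopic.prod α β)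
    rw [Path.Homotopic.projLeft_prod, Path.Homotopic.projRight_prod] at h
    have h' : W x z (p.trans q) (p'.trans q') (hc α β) - W x y p p' α - W y z q q' β =
      g x y z (p', q') - g x y z (p, q) := h
    show W x z (p.trans q) (p'.trans q') (hc α β) = W x y p p' α + W y z q q' β +
      g x y z (p', q') - g x y z (p, q)
    have : W x z (p.trans q) (p'.trans q') (hc α β) =
      (W x z (p.trans q) (p'.trans q') (hc α β) - W x y p p' α - W y z q q' β) +
        W x y p p' α + W y z q q' β := by abel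
    rw [this, h']
    abel

end Pool.Agent.Helper70.HH


end

/-! ## Helper70.BI.HH.M_SUR -/

section

/-!
# Project BI, stage 7 (H): the second homotopy group modulo drift is a quotient of `H_3` of the fundamental group
-/

set_option autoImplicit false

open scoped Topology unitInterval Manifold ContDiff
open Set Pool.Agent.Helper65.Barb Pool.Agent.Helper18.BI
open Pool.Agent.Helper70.T

namespace Pool.Agent.Helper70.HH

namespace SUR

variable {X : Type} [TopologicalSpace X]

theorem mk_eq {x y : X} {p p' : Path x y} (α : Q2 p p') :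
    Path.Homotopic.Quotient.mk p = Path.Homotopic.Quotient.mk p' := by
  induction α using Path.Homotopic.Quotient.ind with | mk γ =>
  refine Path.Homotopic.Quotient.eq.2 ⟨⟨⟨raw γ, ?_, ?_⟩, ?_⟩⟩
  · intro t
    show γ 0 t = p t
    rw [γ.source]
  · intro t
    show γ 1 t = p' t
    rw [γ.target]
  · rintro s t (rfl | rfl)
    · show γ s 0 = p 0
      rw [(γ s).source, p.source]
    · show γ s 1 = p 1
      rw [(γ s).target, p.target]

/-- the class of a closed 2-cell -/
noncomputable def cc {M : Type} (sq : ((Fin 2 → I) → X) → M) {x y : X} (p : Path x y)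
    (α : Q2 p p) : M := sq (sphP (Quotient.out α))

theorem mcl_surj {y₀ : X} (m : MM X y₀) : ∃ g : GenLoop (Fin 2) X y₀, mcl g = m := by
  obtain ⟨z, hz⟩ := QuotientGroup.mk_surjective (Additive.toMul m)
  induction z using Quotient.inductionOn with | h g =>
  exact ⟨g, congrArg Additive.ofMul hz⟩

theorem mcl_const {y₀ : X} : mcl (GenLoop.const : GenLoop (Fin 2) X y₀) = 0 := by
  have h : hcl (GenLoop.const : GenLoop (Fin 2) X y₀) = 1 := HomotopyGroup.one_def.symm
  unfold mcl
  rw [h]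
  rfl

end SUR

theorem m_SUR (hSC : StSC) (hCCA : StCCA) (hCCB : StCCB) (hCCC : StCCC) (hCCD : StCCD)
    (hWEX : StWEX) (hKAP : StKAP) (hCOB : StCOB) (hUNT : StUNT) (hCUB : StCUB) (hBIS : StBIS)
    (hBDC : StBDC) (hGHA : StGHA) : StSUR := by
  intro X _ _ y₀ hvan
  obtain ⟨sq, hsq⟩ := hSC X y₀
  obtain ⟨hA1, hA2⟩ := hCCA X y₀ sq hsq
  have hcc : ∀ {x y : X} (p : Path x y) (γ : Path p p),
      SUR.cc sq p (Path.Homotopic.Quotient.mk γ) = sq (sphP γ) := by
    intro x y p γ
    exact hA1 x y p _ γ (Path.Homotopic.Quotient.exact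
      (Quotient.out_eq (Path.Homotopic.Quotient.mk γ)))
  have hCC : IsCC X (MM X y₀) (fun {x y} p α => SUR.cc sq p α) := by
    constructor
    · intro x y p α β
      induction α using Path.Homotopic.Quotient.ind with | mk γ =>
      induction β using Path.Homotopic.Quotient.ind with | mk δ =>
      rw [← Path.Homotopic.Quotient.mk_trans]
      simp only [hcc]
      exact hCCB X y₀ sq hsq x y p γ δ
    · intro x y p q α β
      induction α using Path.Homotopic.Quotient.ind with | mk γ =>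
      induction β using Path.Homotopic.Quotient.ind with | mk δ =>
      rw [← Path.Homotopic.Quotient.mk_trans, ← Path.Homotopic.Quotient.mk_trans]
      simp only [hcc]
      exact hA2 x y p q γ δ
    · intro x y z p q α β
      induction α using Path.Homotopic.Quotient.ind with | mk γ =>
      induction β using Path.Homotopic.Quotient.ind with | mk δ =>
      rw [hc_mk]
      simp only [hcc]
      exact hCCC X y₀ sq hsq x y z p q γ δ
  obtain ⟨w, f, hw⟩ := hWEX X (MM X y₀) (fun {x y} p α => SUR.cc sq p α) hCC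
  obtain ⟨κ, hκ, hκ'⟩ := hKAP X (MM X y₀) (fun {x y} p α => SUR.cc sq p α) w f hw
  refine hGHA (FundamentalGroup X y₀) (MM X y₀) (fun g h k => κ (x := y₀) (y := y₀) (z := y₀)
    (w := y₀) k h g) ?_ ?_
  · intro g h k l
    have h1 := hκ (x := y₀) (y := y₀) (z := y₀) (w := y₀) (v := y₀) l k h g
    show κ (x := y₀) (y := y₀) (z := y₀) (w := y₀) l k h -
      κ (x := y₀) (y := y₀) (z := y₀) (w := y₀) l k
        (Path.Homotopic.Quotient.trans (x₀ := y₀) (x₁ := y₀) (x₂ := y₀) h g) +
      κ (x := y₀) (y := y₀) (z := y₀) (w := y₀) l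
        (Path.Homotopic.Quotient.trans (x₀ := y₀) (x₁ := y₀) (x₂ := y₀) k h) g -
      κ (x := y₀) (y := y₀) (z := y₀) (w := y₀)
        (Path.Homotopic.Quotient.trans (x₀ := y₀) (x₁ := y₀) (x₂ := y₀) l k) h g +
      κ (x := y₀) (y := y₀) (z := y₀) (w := y₀) k h g = 0
    rw [← h1]
    abel
  · intro χ b hb
    -- the coboundary on the groupoid
    obtain ⟨b', hb'⟩ := hCOB X y₀ (AddCircle (1 : ℚ))
      (fun {x y z w} g h k => χ (κ (x := x) (y := y) (z := z) (w := w) g h k)) (by
        intro x y z w v g h k l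
        have h1 := hκ g h k l
        show χ (κ h k l) - χ (κ (g.trans h) k l) + χ (κ g (h.trans k) l) -
          χ (κ g h (k.trans l)) + χ (κ g h k) = 0
        rw [← map_sub, ← map_add, ← map_sub, ← map_add, h1, map_zero])
      (fun g h => - b h g) (by
        intro g h k
        have h1 := hb k h g
        show χ (κ (x := y₀) (y := y₀) (z := y₀) (w := y₀) g h k) = _
        refine h1.trans ?_
        show b h g - b (Path.Homotopic.Quotient.trans (x₀ := y₀) (x₁ := y₀) (x₂ := y₀) h k) g +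
          b k (Path.Homotopic.Quotient.trans (x₀ := y₀) (x₁ := y₀) (x₂ := y₀) g h) - b k h =
          -b k h - -b k (Path.Homotopic.Quotient.trans (x₀ := y₀) (x₁ := y₀) (x₂ := y₀) g h) +
          -b (Path.Homotopic.Quotient.trans (x₀ := y₀) (x₁ := y₀) (x₂ := y₀) h k) g - -b h g
        abel)
    obtain ⟨w', v', hU, hraw⟩ := hUNT X (AddCircle (1 : ℚ)) (fun {x y p q} α => χ (w α))
      (fun {x y z} p q => χ (f p q) +
        b' (Path.Homotopic.Quotient.mk p) (Path.Homotopic.Quotient.mk q)) (by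
        intro x y p q r α β
        show χ (w (α.trans β)) = χ (w α) + χ (w β)
        rw [hw.add, map_add]) (by
        intro x y z p p' q q' α β
        show χ (w (hc α β)) = χ (w α) + χ (w β) +
          (χ (f p' q') + b' (Path.Homotopic.Quotient.mk p') (Path.Homotopic.Quotient.mk q')) -
          (χ (f p q) + b' (Path.Homotopic.Quotient.mk p) (Path.Homotopic.Quotient.mk q))
        rw [hw.hor, SUR.mk_eq α, SUR.mk_eq β, map_sub, map_add, map_add]
        abel) (by
        intro x y z v p q r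
        show χ (w (asc p q r)) =
          χ (f q r) + b' (Path.Homotopic.Quotient.mk q) (Path.Homotopic.Quotient.mk r) +
          (χ (f p (q.trans r)) +
            b' (Path.Homotopic.Quotient.mk p) (Path.Homotopic.Quotient.mk (q.trans r))) -
          (χ (f p q) + b' (Path.Homotopic.Quotient.mk p) (Path.Homotopic.Quotient.mk q)) -
          (χ (f (p.trans q) r) +
            b' (Path.Homotopic.Quotient.mk (p.trans q)) (Path.Homotopic.Quotient.mk r))
        have h1 := hb' (Path.Homotopic.Quotient.mk p) (Path.Homotopic.Quotient.mk q)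
          (Path.Homotopic.Quotient.mk r)
        rw [hκ' p q r, map_sub, map_sub, map_add, map_add, Path.Homotopic.Quotient.mk_trans,
          Path.Homotopic.Quotient.mk_trans, h1]
        abel)
    have hcoc : IsCoc X (AddCircle (1 : ℚ)) (aa w' v') v' :=
      ⟨hCUB X _ w' v' hU, fun S => (hBIS X _ w' v' hU S).1, fun S => (hBIS X _ w' v' hU S).2⟩
    -- the value of the cocycle on the square of a based sphere
    have key : ∀ (g : GenLoop (Fin 2) X y₀) (S : C(I × I, X)), (∀ x y, S (x, y) = g ![y, x]) →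
        aa w' v' S = χ (mcl g) := by
      intro g S hS
      have hg : ∀ s t : I, (s = 0 ∨ s = 1 ∨ t = 0 ∨ t = 1) → g ![s, t] = y₀ := by
        rintro s t (h | h | h | h)
        · exact g.2 _ ⟨0, Or.inl (by simpa using h)⟩
        · exact g.2 _ ⟨0, Or.inr (by simpa using h)⟩
        · exact g.2 _ ⟨1, Or.inl (by simpa using h)⟩
        · exact g.2 _ ⟨1, Or.inr (by simpa using h)⟩
      have hcont : Continuous fun z : I × I => g ![z.1, z.2] := by
        refine (map_continuous g.1).comp ?_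
        refine continuous_pi fun i => ?_
        fin_cases i
        · exact continuous_fst
        · exact continuous_snd
      let K : C(I × I, X) := ⟨fun z => g ![z.1, z.2], hcont⟩
      let γ : Path (Path.refl y₀) (Path.refl y₀) := mkP K (fun t => hg _ _ (Or.inl rfl))
        (fun t => hg _ _ (Or.inr (Or.inl rfl))) (fun s => hg _ _ (Or.inr (Or.inr (Or.inl rfl))))
        (fun s => hg _ _ (Or.inr (Or.inr (Or.inr rfl))))
      have hγ : ∀ s t, γ s t = g ![s, t] := fun s t => rfl
      have h1 : aa w' v' S = w' (raw γ) := by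
        refine hBDC X _ w' v' hU S (raw γ) y₀ ?_ ?_
        · intro s t hst
          rw [hS]
          refine hg _ _ ?_
          rcases hst with h | h | h | h
          · exact Or.inr (Or.inr (Or.inl h))
          · exact Or.inr (Or.inr (Or.inr h))
          · exact Or.inl h
          · exact Or.inr (Or.inl h)
        · intro s t
          rw [hS]
          rfl
      rw [h1, hraw γ]
      show χ (w (Path.Homotopic.Quotient.mk γ)) = _
      rw [hw.closed]
      show χ (SUR.cc sq _ (Path.Homotopic.Quotient.mk γ)) = _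
      rw [hcc, hCCD X y₀ sq hsq g γ hγ]
    have hmcl : ∀ g : GenLoop (Fin 2) X y₀, χ (mcl g) = 0 := by
      intro g
      have hcont : Continuous fun z : I × I => g ![z.2, z.1] := by
        refine (map_continuous g.1).comp ?_
        refine continuous_pi fun i => ?_
        fin_cases i
        · exact continuous_snd
        · exact continuous_fst
      let S : C(I × I, X) := ⟨fun z => g ![z.2, z.1], hcont⟩
      have hS : ∀ x y, S (x, y) = g ![y, x] := fun x y => rfl
      have h1 := hvan (AddCircle (1 : ℚ)) (aa w' v') v' hcoc S y₀ (by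
        rintro s t (h | h | h | h)
        · exact g.2 _ ⟨1, Or.inl (by simpa using h)⟩
        · exact g.2 _ ⟨1, Or.inr (by simpa using h)⟩
        · exact g.2 _ ⟨0, Or.inl (by simpa using h)⟩
        · exact g.2 _ ⟨0, Or.inr (by simpa using h)⟩)
      rw [key g S hS, key GenLoop.const (ContinuousMap.const _ y₀) (fun x y => rfl),
        SUR.mcl_const, map_zero] at h1
      exact h1
    refine AddMonoidHom.ext fun m => ?_
    obtain ⟨g, rfl⟩ := SUR.mcl_surj m
    rw [hmcl, AddMonoidHom.zero_apply]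

end Pool.Agent.Helper70.HH


end
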