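import Pool.Agent.Helper65.Barb.Defs
import Pool.Agent.Helper70.BI.C.P63
import Pool.Agent.Helper70.BI.C.P67

/-!
# Project BI (MP_8e98f2_gt): collected modules, part 76

The contents of the modules
* Helper70.BI.HH.StHD
* Helper52.BI7.M_TDA
* Helper75.BI7.M_MVA
* Helper95.BI7.M_GRD
* Helper89.BI7.M_MVF

in one file, so that the whole proof builds in a short time.
-/

namespace Pool.Agent.Helper18.BI
end Pool.Agent.Helper18.BI

namespace Pool.Agent.Helper34.S5
end Pool.Agent.Helper34.S5

namespace Pool.Agent.Helper65.Barb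
end Pool.Agent.Helper65.Barb


/-! ## Helper70.BI.HH.StHD -/

section

/-!
# Project BI, stage 7 (H): statements, part D (Mayer-Vietoris: 2-cocycles on the complement of a knotted sphere)
-/

set_option autoImplicit false

open scoped Topology unitInterval Manifold ContDiff
open Set Pool.Agent.Helper65.Barb Pool.Agent.Helper18.BI
open Pool.Agent.Helper34.S5 (zc Gc nm Off)

namespace Pool.Agent.Helper70.HH

/-- Every 1-cocycle on the paths of `E` is a coboundary. -/
def SC1 (E : Type) [TopologicalSpace E] : Prop :=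
  ∀ (V : Type) [AddCommGroup V] (θ : C(I, E) → V),
    (∀ S : C(I × I, E), θ (S.comp botm) + θ (S.comp rigm) - θ (S.comp lefm) - θ (S.comp topm) = 0) →
    (∀ x : E, θ (ContinuousMap.const I x) = 0) → ∃ φ : E → V, ∀ e : C(I, E), θ e = φ (e 1) - φ (e 0)

/-- MODULE SCA.  Simply connected spaces.
Proof.  `E` is path connected and two paths with the same ends are homotopic (`SimplyConnectedSpace.paths_homotopic`).  Fix `e₀`, choose `γ x : Path e₀ x`, `φ x = θ (γ x)`.  (a) `θ` of homotopic paths is equal: a homotopy `H : Path.Homotopy p q` (`H (s, t)`) gives the square `S (x, y) = H (y, x)` with bottom `p`, top `q`, constant left and right sides (`θ = 0` there).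
(b) `θ (p.trans q) = θ p + θ q` for `p : Path a b`, `q : Path b c`: the square `S (x, y) = (p.trans q) (y + (1 - y) x / 2)` has bottom `x ↦ (p.trans q) (x / 2) = p x`, right side `y ↦ (p.trans q) ((1 + y)/2) = q y`, left side `p.trans q`, top side constant.  For `e` from `x` to `y` (as a path): `(γ x).trans e` is homotopic to `γ y`. -/
def StSCA : Prop :=
  ∀ (E : Type) [TopologicalSpace E] [SimplyConnectedSpace E], SC1 E

/-- the covering space of the punctured tube: logarithm of the transversal coordinate and direction -/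
abbrev EE (κ : ℝ) : Type := {z : ℂ × R3 // z.1.re < κ ∧ nsq z.2 = 1}

/-- MODULE SCB.  The covering space of the punctured tube is simply connected.
Proof.  The half plane `re < κ` is convex.  The unit sphere `S = {m : R3 | nsq m = 1}` (`R3 = ℝ × ℂ`; `nsq m = m.1² + m.2.re² + m.2.im²`) is path connected, and two paths `p`, `q` in it with the same ends `a`, `b` are homotopic:
(i) every path in `S` is homotopic (rel ends) to a polygonal path followed by radial projection: `N` large with `|p u - p u'| < 1` for `|u - u'| ≤ 1/N`, `p' ` = the piecewise linear interpolation of `p` at `j/N` (`|p' u - p u| < 1` in the Euclidean norm), and the homotopy is the radial projection of `(1 - s) p + s p'` (nonzero).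
(ii) The cone over a polygonal path `p'` and its ends is contained in a finite union of linear subspaces of dimension `≤ 2` (spanned by two consecutive vertices), which is not all of `R3`: there is `d ∈ S` such that `d` is not in the union of these planes for `p'` and `q'` (`Subspace.biUnion_ne_univ_of_top_notMem` or a measure argument).  So `p'` and `q'` are paths in `S \ {d}` (the projected ones), which is homeomorphic to a plane by stereographic projection
(or: `S \ {d}`: the radial projection of `(1 - s) x + s (-d)` is a contraction to `-d`: `(1 - s) x - s d = 0` with `|x| = |d| = 1` only if `s = 1/2`, `x = d`); paths with the same ends in a contractible space are homotopic.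
Alternative: `S` is the union of the open contractible sets `m.1 > -1/2`, `m.1 < 1/2` with path connected intersection: Lebesgue number argument.  Finally `EE κ` is homeomorphic to the product of the half plane and `S`; the product of two simply connected spaces: paths are homotopic componentwise (`Path.Homotopic.prodHomotopy`); `simply_connected_iff_paths_homotopic'`. -/
def StSCB : Prop := ∀ κ : ℝ, SimplyConnectedSpace (EE κ)

/-- MODULE MVA.  The deck transformation.
Proof.  (1) For `e : C(I, E)` let `P e : C(I × I, X)`, `P e (t, s) = D (s, e t)`, `ũ e = a (P e)`.  For `S : C(I × I, E)` apply `IsCoc.cube` to `C (x, (y, s)) = D (s, S (x, y))`: faces `fx 1`: `P (S.comp rigm)`, `fx 0`: `P (S.comp lefm)`, `fy 1`: `P (S.comp topm)`, `fy 0`: `P (S.comp botm)`, `fz 1`: `(x, y) ↦ D (1, S (x, y))`, `fz 0`: `Q.comp S`.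
So `a (Q.comp S) - a (D₁ S) = ũ (bot) + ũ (right) - ũ (left) - ũ (top)`.
(2) `θ e = ũ (τ e) - ũ e`: the right side of (1) is the same for `τ S` and `S` (`Q τ = Q`, `D₁ τ = D₁`), so `θ (bot) + θ (right) - θ (left) - θ (top) = 0`.  `θ (const z) = 0`: a square `S` with `S (t, s) = c s` (independent of `t`) has `lowS S = S = upS S`, so `a S = v (S.comp botm) - v (S.comp topm) = v (const (c 0)) - v (const (c 1))` by `IsCoc.sdh`; for `c s = D (s, τ z)` and `c s = D (s, z)` the end points agree.
By `SC1 E` `θ e = φ (e 1) - φ (e 0)`.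
(3) There is `Ψ : E → V` with `Ψ (τ z) = Ψ z + φ z`: `z₀ = τ^(-deg z) z`, `Ψ z = G (deg z)` with `G 0 = 0`, `G (n + 1) = G n + φ (τ^n z₀)` for `n : ℤ` (`G n = ∑ i ∈ range n.toNat, φ (τ^i z₀) - ∑ i ∈ range (-n).toNat, φ (τ^(-(i+1)) z₀)`); `(τ z)₀ = z₀`.
(4) `U e = ũ e - (Ψ (e 1) - Ψ (e 0))`: the correction is a coboundary (the sum over the four sides of a square is `0`), and `U (τ e) - U e = θ e - (φ (e 1) - φ (e 0)) = 0`. -/
def StMVA : Prop :=
  ∀ (X E : Type) [TopologicalSpace X] [TopologicalSpace E] (V : Type) [AddCommGroup V]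
    (a : C(I × I, X) → V) (v : C(I, X) → V), IsCoc X V a v → SC1 E →
    ∀ (Q : C(E, X)) (D : C(I × E, X)) (τ : E ≃ₜ E) (deg : E → ℤ), (∀ z, D (0, z) = Q z) →
      (∀ z, Q (τ z) = Q z) → (∀ z, D (1, τ z) = D (1, z)) → (∀ z, deg (τ z) = deg z + 1) →
      ∃ U : C(I, E) → V, (∀ e e' : C(I, E), (∀ t, e' t = τ (e t)) → U e' = U e) ∧
        ∀ (S : C(I × I, E)) (S₀ S₁ : C(I × I, X)), (∀ z, S₀ z = Q (S z)) →
          (∀ z, S₁ z = D (1, S z)) →
          a S₀ - a S₁ = U (S.comp botm) + U (S.comp rigm) - U (S.comp lefm) - U (S.comp topm)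

/-- MODULE TDA.  The tube around a knotted sphere.
Proof.  As in `exists_tub` (`Pool/Agent/Helper34/BI5/VK5.lean`): `hA1` gives a partial diffeomorphism `δ` with `SP ⊆ δ.source` and `F = δ` there; `{p | ‖zc p‖ < η} ⊆ δ.source` for small `η` (there: `htube`, `Gc c v ∈ δ.source` for `‖c‖ < η`, `v ≠ 0`; and `p = Gc (zc p) (p.2 - (1, 0))` by `Gc_zc`; `p.2 ≠ (1, 0)` because otherwise `‖zc p‖ ≥ 1/5`).
`g = δ.symm`. -/
def StTDA : Prop :=
  ∀ F : R4 → R4, EmbOn 𝓘(ℝ, R4) F SP → ∃ η ∈ Ioc (0 : ℝ) (1 / 5), ∃ g : R4 → R4,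
    IsOpen (F '' {p | ‖zc p‖ < η}) ∧ ContinuousOn F {p | ‖zc p‖ < η} ∧
    ContinuousOn g (F '' {p | ‖zc p‖ < η}) ∧ ∀ p, ‖zc p‖ < η → g (F p) = p

/-- MODULE TDB.  Logarithms of nonvanishing functions on the interval and on the square.
Proof.  `Complex.exp` is a covering map onto `{0}ᶜ` (Mathlib: `Complex.isCoveringMapOn_exp` or similar, in `Mathlib/Analysis/SpecialFunctions/...`; search `isCoveringMap` and `exp`); lifting of maps from simply connected, locally path connected spaces (`Mathlib/Topology/Homotopy/Lifting.lean`).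
Direct proof for `Y = I × I` (the interval follows by composing with the projection `I × I → I`): by uniform continuity there is `n` with `|c y / c y' - 1| < 1` if `dist y y' ≤ 1/n`.  `ℓ (x, t) = log c (0, 0) + ∑ k < n, Log (c ((k+1)/n · (x, t)) / c (k/n · (x, t)))` (principal branch; the quotients are in the disk of radius `1` around `1`, where `Log` is continuous; `exp` of the sum telescopes). -/
def StTDB : Prop :=
  (∀ c : C(I, ℂ), (∀ y, c y ≠ 0) → ∃ ℓ : C(I, ℂ), ∀ y, Complex.exp (ℓ y) = c y) ∧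
  ∀ c : C(I × I, ℂ), (∀ y, c y ≠ 0) → ∃ ℓ : C(I × I, ℂ), ∀ y, Complex.exp (ℓ y) = c y

/-- The 2-cocycle `a` on the complement of `K` extends, up to a coboundary, over a neighbourhood `N` of `K`:
`a S = a (ρ S) + ` (sum of `u` over the sides) for squares `S` in `N \ K`. -/
def HasU {K : Set R4} {V : Type} [AddCommGroup V] (a : C(I × I, Off K) → V) (N : Set R4)
    (ρ : R4 → R4) : Prop :=
  ∃ u : C(I, Off K) → V, ∀ S S' : C(I × I, Off K), (∀ z, (S z : R4) ∈ N) →
    (∀ z, (S' z : R4) = ρ (S z)) →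
    a S - a S' = u (S.comp botm) + u (S.comp rigm) - u (S.comp lefm) - u (S.comp topm)

/-- MODULE MVU.  The neighbourhood.
Proof (from `StTDA`, `StTDB`, `StSCA`, `StSCB`, `StMVA`).  `K = F '' sph 1`, `η`, `g` from `StTDA`, `T = {p | ‖zc p‖ < η}`, `N = F '' T` (open, contains `K` because `zc p = 0` iff `p ∈ sph 1`, `zc_eq_zero`).  `κ = log η`, `E = EE κ`, `ℓ₀ = κ - 1`.  For `(ℓ, m) ∈ E`: `Gc (exp ℓ) m ∈ T`, not in `sph 1` (`zc (Gc c m) = c` for `m ≠ 0`, `-(1/5) < c.im`: `zc_Gc`; `‖exp ℓ‖ < η ≤ 1/5`), so `F (Gc (exp ℓ) m) ∉ K` (`F` is injective on `T`).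
`Q (ℓ, m) = F (Gc (exp ℓ) m)`, `D (s, (ℓ, m)) = F (Gc (exp ((1 - s) ℓ + s ℓ₀)) m)`, `τ (ℓ, m) = (ℓ + 2 π i, m)`, `deg (ℓ, m) = ⌊im ℓ / 2 π⌋` (continuity: `continuousOn_Gc`).  `ρ x = F (Gc (exp ℓ₀) (g x - (1,0)))` where `(g x).2 - (1, 0) ≠ 0` for `x ∈ N`: precisely `ρ x = F (Gc (exp ℓ₀) ((g x).2 - (1, 0)))`; continuous on `N`, not in `K`; `ρ (Q z) = D (1, z)` (`Gc_snd`, `Gc_smul`: the direction of `(Gc c m).2 - (1,0)` is `m`).
`StMVA` gives `U`.  Lifts: for `e : C(Y, Off K)` (`Y = I` or `I × I`) with values in `N`: `c y = zc (g (e y)) ≠ 0`, `ℓ` from `StTDB`, `m y = (nm w)⁻¹ • w`, `w = (g (e y)).2 - (1, 0)`: `(ℓ y, m y) ∈ E` (`‖exp ℓ‖ = ‖c‖ < η`), `Q (ℓ y, m y) = e y` (`Gc_zc`, `Gc_smul`).  Two lifts of the same path differ by `τ^n` for a fixed `n` (the difference of the logarithms is a continuous function with values in `2 π i ℤ`, the directions agree), so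
`U` has the same value on them (induction on `n`).  `u e = U (some lift)` (`0` if `e` is not in `N`).  For a square `S` in `N` take a lift `S̃`; its sides are lifts of the sides of `S`. -/
def StMVU : Prop :=
  ∀ F : R4 → R4, EmbOn 𝓘(ℝ, R4) F SP → ∃ (N : Set R4) (ρ : R4 → R4), IsOpen N ∧
    F '' sph 1 ⊆ N ∧ ContinuousOn ρ N ∧ (∀ x ∈ N, ρ x ∉ F '' sph 1) ∧
    ∀ (V : Type) [AddCommGroup V] (a : C(I × I, Off (F '' sph 1)) → V)
      (v : C(I, Off (F '' sph 1)) → V), IsCoc (Off (F '' sph 1)) V a v → HasU a N ρ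

section

variable {X : Type} [TopologicalSpace X] {V : Type} [AddCommGroup V]

/-- sum over the `4 ^ k` dyadic subsquares -/
noncomputable def sumS (a : C(I × I, X) → V) : ℕ → C(I × I, X) → V
  | 0, S => a S
  | k + 1, S => sumS a k (lowT (lowS S)) + sumS a k (upT (lowS S)) + sumS a k (lowT (upS S)) +
      sumS a k (upT (upS S))

/-- sum over the `2 ^ k` dyadic subintervals -/
noncomputable def sumE (u : C(I, X) → V) : ℕ → C(I, X) → V
  | 0, e => u e
  | k + 1, e => sumE u k (e.comp hl) + sumE u k (e.comp hr)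

/-- the boundary term of the iterated bisection -/
noncomputable def bisE (v : C(I, X) → V) : ℕ → C(I, X) → V
  | 0, _ => 0
  | k + 1, e => v e + bisE v k (e.comp hl) + bisE v k (e.comp hr)

/-- alternating sum over the faces of a cube -/
def dC (a : C(I × I, X) → V) (C : C(I × (I × I), X)) : V :=
  a (C.comp (fx 1)) - a (C.comp (fx 0)) - (a (C.comp (fy 1)) - a (C.comp (fy 0))) +
    (a (C.comp (fz 1)) - a (C.comp (fz 0)))

/-- the halves of a cube in the three directions; `h = hl` or `hr` -/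
def halfX (h : C(I, I)) (C : C(I × (I × I), X)) : C(I × (I × I), X) :=
  ⟨fun z => C (h z.1, (z.2.1, z.2.2)), by fun_prop⟩
def halfY (h : C(I, I)) (C : C(I × (I × I), X)) : C(I × (I × I), X) :=
  ⟨fun z => C (z.1, (h z.2.1, z.2.2)), by fun_prop⟩
def halfZ (h : C(I, I)) (C : C(I × (I × I), X)) : C(I × (I × I), X) :=
  ⟨fun z => C (z.1, (z.2.1, h z.2.2)), by fun_prop⟩

/-- the subcube of a cube -/
def sub8 (h h' h'' : C(I, I)) (C : C(I × (I × I), X)) : C(I × (I × I), X) :=
  halfX h (halfY h' (halfZ h'' C))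

/-- all dyadic subcubes of level `k` have the property `P` -/
def AllSub (P : C(I × (I × I), X) → Prop) : ℕ → C(I × (I × I), X) → Prop
  | 0, C => P C
  | k + 1, C => ∀ h h' h'' : C(I, I), (h = hl ∨ h = hr) → (h' = hl ∨ h' = hr) →
      (h'' = hl ∨ h'' = hr) → AllSub P k (sub8 h h' h'' C)

end

/-- MODULE GRD.  Iterated bisection.
Proof.  (1) Induction on `k`.  `dC (sumS g (k+1)) C` is the sum of `dC (sumS g k)` over the 8 subcubes: a face such as `fx 1` of `C` has the four quarters `fx 1` of the subcubes with `h = hr` (`lowS`, `upS` act on the first coordinate of the face, `lowT`, `upT` on the second; equality of maps by `ContinuousMap.ext`, `hr 1 = 1`, `hl 0 = 0`), and the interior faces cancel (`hl 1 = hr 0`).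
(2), (3) Induction on `k` with `IsCoc.sdh` for `S` and `IsCoc.sdv` for `lowS S`, `upS S`: `a S = a (lowT (lowS S)) + a (upT (lowS S)) + a (lowT (upS S)) + a (upT (upS S)) + v (top) - v (bot) + v (left) - v (right)` (the vertical middle line `(lowS S).comp rigm = (upS S).comp lefm` cancels), and the boundary terms of the four quarters add up: `(lowS S)` etc. sides: e.g. `(lowT (lowS S)).comp botm = (S.comp botm).comp hl`.
(4) Let `λ` be a Lebesgue number of the cover of the compact set `range C` by the open sets `Kᶜ` and `N`, and `δ > 0` with `dist (C z) (C z') < λ` for `dist z z' < δ`.  By induction on `k`: if `∀ z z', dist z z' * 2^(-k) < δ → dist (C z) (C z') < λ'` .. : for a cube `C'` with modulus `M δ C' := ∀ z z', dist z z' < δ → dist (C' z) (C' z') < λ` the subcubes satisfy `M (2 δ)`, and if `δ > 1` then `C'` has image of diameter `< λ`, so it is in `Kᶜ` or in `N` (all images are in `range C`). -/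
def StGRD : Prop :=
  (∀ (X V : Type) [TopologicalSpace X] [AddCommGroup V] (g : C(I × I, X) → V)
    (P : C(I × (I × I), X) → Prop), (∀ C, P C → dC g C = 0) →
    ∀ (k : ℕ) (C : C(I × (I × I), X)), AllSub P k C → dC (sumS g k) C = 0) ∧
  (∀ (X V : Type) [TopologicalSpace X] [AddCommGroup V] (a : C(I × I, X) → V) (v : C(I, X) → V),
    IsCoc X V a v → ∀ (k : ℕ) (S : C(I × I, X)),
      a S = sumS a k S + bisE v k (S.comp topm) - bisE v k (S.comp botm) +
        bisE v k (S.comp lefm) - bisE v k (S.comp rigm)) ∧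
  (∀ (X V : Type) [TopologicalSpace X] [AddCommGroup V] (u : C(I, X) → V) (k : ℕ)
    (S : C(I × I, X)),
      sumS (fun S => u (S.comp botm) + u (S.comp rigm) - u (S.comp lefm) - u (S.comp topm)) k S =
        sumE u k (S.comp botm) + sumE u k (S.comp rigm) - sumE u k (S.comp lefm) -
          sumE u k (S.comp topm)) ∧
  (∀ (K N : Set R4), IsClosed K → IsOpen N → K ⊆ N → ∀ C : C(I × (I × I), R4), ∃ k : ℕ,
    AllSub (fun C => (∀ z, C z ∉ K) ∨ ∀ z, C z ∈ N) k C)

/-- MODULE MVF.  A 2-cocycle on the complement of `K` vanishes on spheres.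
Proof (from `StGRD`).  For `T : C(I × I, R4)` with values outside `K` write `T° : C(I × I, Off K)`.  `u' e = u e` if the path `e` in `Off K` is in `N`, and `0` otherwise; `∂ T = u' (bot) + u' (right) - u' (left) - u' (top)`.  Let `g T = a T° - ∂ T°` if `T` avoids `K`; `g T = a (ρ T)` (`ρ T : C(I × I, Off K)`, continuous as `ContinuousOn ρ N`) if `T` meets `K` and is in `N`; `0` otherwise.
(1) If `T` is in `N` then `g T = a (ρ T)`: by `HasU` if `T` avoids `K` (all sides are in `N`, `u' = u`).  (2) `dC g C = 0` if `C` avoids `K` (`IsCoc.cube` for `C°`; the `∂` terms cancel: each edge of the cube occurs twice) or if `C` is in `N` (`IsCoc.cube` for `ρ C`).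
(3) `C (x, (t, z)) = (1 - z) • S (x, t) + z • y : C(I × (I × I), R4)`.  `k` from `StGRD` (4); `dC (sumS g k) C = 0` by (1) of `StGRD`.  The faces `fx 0`, `fx 1`, `fy 0`, `fy 1` are the constant square `y`, `fz 1` is the constant square, `fz 0` is `S`: so `sumS g k S = sumS g k (const y)`.
(4) For `T` avoiding `K` (all its subsquares avoid `K`): `sumS g k T = sumS a k T° - sumS ∂ k T°` (induction on `k`), and `sumS ∂ k S° = 0 = sumS ∂ k (const y)` by `StGRD` (3), because the four sides of `S°` are the constant path.  So `sumS a k S° = sumS a k (const y)`; `StGRD` (2): `a S° = a (const y)`. -/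
def StMVF : Prop :=
  ∀ (K N : Set R4) (ρ : R4 → R4), IsClosed K → IsOpen N → K ⊆ N → ContinuousOn ρ N →
    (∀ x ∈ N, ρ x ∉ K) → ∀ (V : Type) [AddCommGroup V] (a : C(I × I, Off K) → V)
    (v : C(I, Off K) → V), IsCoc (Off K) V a v → HasU a N ρ →
    ∀ (S : C(I × I, Off K)) (y : Off K),
      (∀ s t, (s = 0 ∨ s = 1 ∨ t = 0 ∨ t = 1) → S (s, t) = y) → a S = a (ContinuousMap.const _ y)

end Pool.Agent.Helper70.HH


end

/-! ## Helper52.BI7.M_TDA -/

section

/-!
# Project BI, stage 7 (H): module TDA (the tube around a knotted sphere)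
-/

set_option autoImplicit false

open scoped Topology unitInterval Manifold ContDiff
open Set Metric Pool.Agent.Helper65.Barb Pool.Agent.Helper18.BI
open Pool.Agent.Helper34.S5

namespace Pool.Agent.Helper70.HH

theorem m_TDA : StTDA := by
  intro F hF
  obtain ⟨δ, hδ, hδF⟩ := hA1 R4 R4 R4 𝓘(ℝ, R4) R4 F SP X2.isCompact_SP hF.1 hF.2
  have hN : IsOpen δ.source := δ.open_source
  have hFc : ContinuousOn F δ.source := by
    refine ContinuousOn.congr δ.contMDiffOn_toFun.continuousOn ?_
    intro p hp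
    exact (hδF p hp).symm
  have hopen : ∀ W : Set R4, IsOpen W → W ⊆ δ.source → IsOpen (F '' W) := by
    intro W hW hWs
    have h1 : F '' W = δ.toOpenPartialHomeomorph '' W := image_congr fun p hp => (hδF p (hWs hp)).symm
    rw [h1]
    exact δ.toOpenPartialHomeomorph.isOpen_image_of_subset_source hW hWs
  -- the tube
  have htube : ∃ η : ℝ, 0 < η ∧ η ≤ 1 / 5 ∧ ∀ c : ℂ, ‖c‖ < η → ∀ v : R3, v ≠ 0 →
      Gc c v ∈ δ.source := by
    have h1 : IsOpen ((univ ×ˢ {v : R3 | v ≠ 0}) ∩ (fun z : ℂ × R3 => Gc z.1 z.2) ⁻¹' δ.source) :=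
      continuousOn_Gc.isOpen_inter_preimage (isOpen_univ.prod isOpen_ne) hN
    have h2 : ({0} : Set ℂ) ×ˢ R.S2 ⊆ (univ ×ˢ {v : R3 | v ≠ 0}) ∩
        (fun z : ℂ × R3 => Gc z.1 z.2) ⁻¹' δ.source := by
      rintro ⟨c, v⟩ ⟨hc, hv⟩
      have hc' : c = 0 := hc
      have hv0 : v ≠ 0 := by
        rintro rfl
        have h3 : nsq (0 : R3) = 1 := hv
        rw [nsq_eq_zero.2 rfl] at h3
        norm_num at h3
      refine ⟨⟨mem_univ _, hv0⟩, hδ (sph1_subset_SP ?_)⟩
      show Gc c v ∈ sph 1
      rw [hc', ← zc_eq_zero]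
      exact zc_Gc (by norm_num) hv0
    obtain ⟨u, v, hu, hv, h3, h4, h5⟩ := generalized_tube_lemma isCompact_singleton
      R.isCompact_S2 h1 h2
    obtain ⟨r, hr, hr'⟩ := Metric.mem_nhds_iff.1 (hu.mem_nhds (h3 (mem_singleton _)))
    refine ⟨min r (1 / 5), by positivity, min_le_right _ _, ?_⟩
    intro c hc w hw
    have h6 : (nm w)⁻¹ • w ∈ R.S2 := by
      show nsq ((nm w)⁻¹ • w) = 1
      rw [Helper34.S5.nsq_smul, nm, inv_pow, Real.sq_sqrt (nsq_nonneg w)]
      exact inv_mul_cancel₀ fun h => hw (nsq_eq_zero.1 h)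
    have h7 := (h5 (mk_mem_prod (hr' (by rw [mem_ball_zero_iff]; exact lt_of_lt_of_le hc (min_le_left _ _))) (h4 h6))).2
    have h8 : Gc c ((nm w)⁻¹ • w) ∈ δ.source := h7
    rwa [Gc_smul c (inv_pos.2 (nm_pos hw)) hw] at h8
  obtain ⟨η, hη, hη5, hηN⟩ := htube
  have hsub : {p : R4 | ‖zc p‖ < η} ⊆ δ.source := by
    intro p hp
    have hp' : ‖zc p‖ < η := hp
    have h0 : p.2 - (1, 0) ≠ 0 := by
      intro h
      have h1 : (zc p).im = -(1 / 5) := by
        show nm (p.2 - (1, 0)) - 1 / 5 = -(1 / 5)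
        rw [h, nm, nsq_eq_zero.2 rfl, Real.sqrt_zero]
        ring
      have h2 := Complex.abs_im_le_norm (zc p)
      rw [h1, abs_neg, abs_of_pos (by norm_num : (0 : ℝ) < 1 / 5)] at h2
      linarith
    rw [← Gc_zc h0]
    exact hηN _ hp' _ h0
  have hT : IsOpen {p : R4 | ‖zc p‖ < η} := isOpen_lt (continuous_norm.comp continuous_zc) continuous_const
  refine ⟨η, ⟨hη, hη5⟩, fun y => δ.symm y, hopen _ hT hsub, hFc.mono hsub, ?_, ?_⟩
  · refine δ.contMDiffOn_invFun.continuousOn.mono ?_
    rintro _ ⟨q, hq, rfl⟩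
    rw [← hδF q (hsub hq)]
    exact δ.map_source' (hsub hq)
  · intro p hp
    show δ.symm (F p) = p
    rw [← hδF p (hsub hp)]
    exact δ.left_inv' (hsub hp)

end Pool.Agent.Helper70.HH


end

/-! ## Helper75.BI7.M_MVA -/

section

/-!
# Project BI, stage 7 (H), module MVA: the deck transformation
-/

set_option autoImplicit false

open scoped Topology unitInterval
open Set

namespace Pool.Agent.Helper70.HH

private def gMVA {V : Type} [AddCommGroup V] (g : ℤ → V) : ℤ → V
  | Int.ofNat k => ∑ i ∈ Finset.range k, g (i : ℤ)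
  | Int.negSucc k => -∑ i ∈ Finset.range (k + 1), g (-((i : ℤ) + 1))

private theorem gMVA_succ {V : Type} [AddCommGroup V] (g : ℤ → V) (n : ℤ) :
    gMVA g (n + 1) = gMVA g n + g n := by
  rcases n with k | k
  · have h : (Int.ofNat k + 1 : ℤ) = Int.ofNat (k + 1) := rfl
    rw [h]
    simp only [gMVA]
    rw [Finset.sum_range_succ]
    rfl
  · rcases k with _ | k
    · have h : (Int.negSucc 0 + 1 : ℤ) = Int.ofNat 0 := rfl
      rw [h]
      simp only [gMVA]
      simp
    · have h : (Int.negSucc (k + 1) + 1 : ℤ) = Int.negSucc k := rfl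
      rw [h]
      simp only [gMVA]
      rw [Finset.sum_range_succ _ (k + 1)]
      have h2 : (-(((k + 1 : ℕ) : ℤ) + 1)) = Int.negSucc (k + 1) := by
        rw [Int.negSucc_eq]
      rw [h2]
      abel

/-- the function `Ψ` -/
private theorem psi_MVA {E V : Type} [AddCommGroup V] (sg : Equiv.Perm E) (deg : E → ℤ)
    (hd : ∀ z, deg (sg z) = deg z + 1) (φ : E → V) :
    ∃ Ψ : E → V, ∀ z, Ψ (sg z) = Ψ z + φ z := by
  refine ⟨fun z => gMVA (fun n => φ ((sg ^ n) ((sg ^ (-deg z)) z))) (deg z), fun z => ?_⟩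
  have h1 : (sg ^ (-deg (sg z))) (sg z) = (sg ^ (-deg z)) z := by
    rw [hd z]
    have : (sg ^ (-(deg z + 1))) (sg z) = (sg ^ (-(deg z + 1)) * sg) z := rfl
    rw [this]
    congr 1
    rw [← zpow_add_one]
    congr 1
    ring
  have h2 : (sg ^ deg z) ((sg ^ (-deg z)) z) = z := by
    have : (sg ^ deg z) ((sg ^ (-deg z)) z) = (sg ^ deg z * sg ^ (-deg z)) z := rfl
    rw [this, ← zpow_add, add_neg_cancel, zpow_zero]
    rfl
  show gMVA (fun n => φ ((sg ^ n) ((sg ^ (-deg (sg z))) (sg z)))) (deg (sg z)) = _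
  rw [h1, hd z, gMVA_succ]
  congr 1
  show φ ((sg ^ deg z) ((sg ^ (-deg z)) z)) = φ z
  rw [h2]

/-- the square `(t, s) ↦ D (s, e t)` -/
private def pMVA {X E : Type} [TopologicalSpace X] [TopologicalSpace E] (D : C(I × E, X))
    (e : C(I, E)) : C(I × I, X) :=
  ⟨fun z => D (z.2, e z.1), by fun_prop⟩

private theorem const_MVA {X : Type} [TopologicalSpace X] {V : Type} [AddCommGroup V]
    {a : C(I × I, X) → V} {v : C(I, X) → V} (h : IsCoc X V a v) (S : C(I × I, X)) (c : I → X)
    (hS : ∀ z, S z = c z.2) :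
    a S = v (ContinuousMap.const I (c 0)) - v (ContinuousMap.const I (c 1)) := by
  have h1 : lowS S = S := by
    ext z
    show S (hl z.1, z.2) = S z
    rw [hS, hS]
  have h2 : upS S = S := by
    ext z
    show S (hr z.1, z.2) = S z
    rw [hS, hS]
  have h3 : S.comp topm = ContinuousMap.const I (c 1) := by
    ext x
    show S (x, 1) = c 1
    rw [hS]
  have h4 : S.comp botm = ContinuousMap.const I (c 0) := by
    ext x
    show S (x, 0) = c 0
    rw [hS]
  have h5 := h.sdh S
  rw [h1, h2, h3, h4] at h5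
  have h6 : a S - a S = a S + v (ContinuousMap.const I (c 1)) -
      v (ContinuousMap.const I (c 0)) := by
    calc a S - a S = (a S + a S + v (ContinuousMap.const I (c 1)) -
      v (ContinuousMap.const I (c 0))) - a S := by rw [← h5]
      _ = _ := by abel
  rw [sub_self] at h6
  have h7 : a S = v (ContinuousMap.const I (c 0)) - v (ContinuousMap.const I (c 1)) := by
    have : a S - (v (ContinuousMap.const I (c 0)) - v (ContinuousMap.const I (c 1))) = 0 := by
      rw [h6]; abel
    exact sub_eq_zero.1 this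
  exact h7

private theorem cube_MVA {X E : Type} [TopologicalSpace X] [TopologicalSpace E] {V : Type}
    [AddCommGroup V] {a : C(I × I, X) → V} {v : C(I, X) → V} (h : IsCoc X V a v) (Q : C(E, X))
    (D : C(I × E, X)) (hD : ∀ z, D (0, z) = Q z) (S : C(I × I, E)) (S₀ S₁ : C(I × I, X))
    (h0 : ∀ z, S₀ z = Q (S z)) (h1 : ∀ z, S₁ z = D (1, S z)) :
    a S₀ - a S₁ = a (pMVA D (S.comp botm)) + a (pMVA D (S.comp rigm)) -
      a (pMVA D (S.comp lefm)) - a (pMVA D (S.comp topm)) := by
  let C : C(I × (I × I), X) := ⟨fun z => D (z.2.2, S (z.1, z.2.1)), by fun_prop⟩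
  have e1 : C.comp (fx 1) = pMVA D (S.comp rigm) := by ext z; rfl
  have e2 : C.comp (fx 0) = pMVA D (S.comp lefm) := by ext z; rfl
  have e3 : C.comp (fy 1) = pMVA D (S.comp topm) := by ext z; rfl
  have e4 : C.comp (fy 0) = pMVA D (S.comp botm) := by ext z; rfl
  have e5 : C.comp (fz 1) = S₁ := by
    ext z
    show D (1, S (z.1, z.2)) = S₁ z
    rw [h1]
  have e6 : C.comp (fz 0) = S₀ := by
    ext z
    show D (0, S (z.1, z.2)) = S₀ z
    rw [h0, hD]
  have h2 := h.cube C
  rw [e1, e2, e3, e4, e5, e6] at h2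
  have h3 : a S₀ - a S₁ - (a (pMVA D (S.comp botm)) + a (pMVA D (S.comp rigm)) -
      a (pMVA D (S.comp lefm)) - a (pMVA D (S.comp topm))) =
      -(a (pMVA D (S.comp rigm)) - a (pMVA D (S.comp lefm)) -
        (a (pMVA D (S.comp topm)) - a (pMVA D (S.comp botm))) + (a S₁ - a S₀)) := by
    abel
  rw [h2, neg_zero] at h3
  exact sub_eq_zero.1 h3

theorem m_MVA : StMVA := by
  intro X E _ _ V _ a v hc hsc Q D τ deg hD hQ hD1 hdeg
  -- the image of a path under the deck transformation
  let tp : C(I, E) → C(I, E) := fun e => ⟨fun t => τ (e t), by fun_prop⟩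
  let θ : C(I, E) → V := fun e => a (pMVA D (tp e)) - a (pMVA D e)
  have hθ1 : ∀ S : C(I × I, E),
      θ (S.comp botm) + θ (S.comp rigm) - θ (S.comp lefm) - θ (S.comp topm) = 0 := by
    intro S
    let S₀ : C(I × I, X) := ⟨fun z => Q (S z), by fun_prop⟩
    let S₁ : C(I × I, X) := ⟨fun z => D (1, S z), by fun_prop⟩
    let S' : C(I × I, E) := ⟨fun z => τ (S z), by fun_prop⟩
    have h1 := cube_MVA hc Q D hD S S₀ S₁ (fun _ => rfl) (fun _ => rfl)
    have h2 := cube_MVA hc Q D hD S' S₀ S₁ (fun z => (hQ (S z)).symm)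
      (fun z => (hD1 (S z)).symm)
    have e1 : S'.comp botm = tp (S.comp botm) := rfl
    have e2 : S'.comp rigm = tp (S.comp rigm) := rfl
    have e3 : S'.comp lefm = tp (S.comp lefm) := rfl
    have e4 : S'.comp topm = tp (S.comp topm) := rfl
    rw [e1, e2, e3, e4] at h2
    have h3 : (a (pMVA D (tp (S.comp botm))) + a (pMVA D (tp (S.comp rigm))) -
      a (pMVA D (tp (S.comp lefm))) - a (pMVA D (tp (S.comp topm)))) -
      (a (pMVA D (S.comp botm)) + a (pMVA D (S.comp rigm)) -
      a (pMVA D (S.comp lefm)) - a (pMVA D (S.comp topm))) = 0 := by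
      rw [← h1, ← h2, sub_self]
    show (a (pMVA D (tp (S.comp botm))) - a (pMVA D (S.comp botm))) +
      (a (pMVA D (tp (S.comp rigm))) - a (pMVA D (S.comp rigm))) -
      (a (pMVA D (tp (S.comp lefm))) - a (pMVA D (S.comp lefm))) -
      (a (pMVA D (tp (S.comp topm))) - a (pMVA D (S.comp topm))) = 0
    rw [← h3]
    abel
  have hθ2 : ∀ x : E, θ (ContinuousMap.const I x) = 0 := by
    intro x
    show a (pMVA D (tp (ContinuousMap.const I x))) - a (pMVA D (ContinuousMap.const I x)) = 0
    rw [const_MVA hc (pMVA D (tp (ContinuousMap.const I x))) (fun s => D (s, τ x))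
      (fun z => rfl), const_MVA hc (pMVA D (ContinuousMap.const I x)) (fun s => D (s, x))
      (fun z => rfl)]
    rw [hD, hD, hQ, hD1, sub_self]
  obtain ⟨φ, hφ⟩ := hsc V θ hθ1 hθ2
  obtain ⟨Ψ, hΨ⟩ := psi_MVA τ.toEquiv deg hdeg φ
  refine ⟨fun e => a (pMVA D e) - (Ψ (e 1) - Ψ (e 0)), ?_, ?_⟩
  · intro e e' he
    have h1 : e' = tp e := by
      ext t
      exact he t
    have h2 := hφ e
    have h3 : Ψ (e' 1) = Ψ (e 1) + φ (e 1) := by
      rw [he 1]
      exact hΨ (e 1)
    have h4 : Ψ (e' 0) = Ψ (e 0) + φ (e 0) := by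
      rw [he 0]
      exact hΨ (e 0)
    show a (pMVA D e') - (Ψ (e' 1) - Ψ (e' 0)) = a (pMVA D e) - (Ψ (e 1) - Ψ (e 0))
    rw [h3, h4, h1]
    have h5 : a (pMVA D (tp e)) = φ (e 1) - φ (e 0) + a (pMVA D e) := by
      rw [← h2]
      show a (pMVA D (tp e)) = a (pMVA D (tp e)) - a (pMVA D e) + a (pMVA D e)
      abel
    rw [h5]
    abel
  · intro S S₀ S₁ h0 h1
    rw [cube_MVA hc Q D hD S S₀ S₁ h0 h1]
    show _ = (a (pMVA D (S.comp botm)) - (Ψ (S (1, 0)) - Ψ (S (0, 0)))) +
      (a (pMVA D (S.comp rigm)) - (Ψ (S (1, 1)) - Ψ (S (1, 0)))) -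
      (a (pMVA D (S.comp lefm)) - (Ψ (S (0, 1)) - Ψ (S (0, 0)))) -
      (a (pMVA D (S.comp topm)) - (Ψ (S (1, 1)) - Ψ (S (0, 1))))
    abel

end Pool.Agent.Helper70.HH


end

/-! ## Helper95.BI7.M_GRD -/

section

/-! # Project BI stage 7, module GRD (helper95): iterated bisection -/

set_option autoImplicit false

open scoped Topology unitInterval Manifold ContDiff
open Set Pool.Agent.Helper65.Barb Pool.Agent.Helper18.BI
open Pool.Agent.Helper34.S5 (zc Gc nm Off)

namespace Pool.Agent.Helper70.HH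

private theorem grd_hl0 : hl 0 = 0 := by
  apply Subtype.ext
  simp [hl]

private theorem grd_hr1 : hr 1 = 1 := by
  apply Subtype.ext
  simp [hr]

private theorem grd_mid : hl 1 = hr 0 := by
  apply Subtype.ext
  simp [hl, hr]

section

variable {X : Type} [TopologicalSpace X]

private def GQx (C : C(I × (I × I), X)) (c : I) (h h' : C(I, I)) : C(I × I, X) :=
  ⟨fun z => C (c, (h z.1, h' z.2)), by fun_prop⟩
private def GQy (C : C(I × (I × I), X)) (c : I) (h h' : C(I, I)) : C(I × I, X) :=
  ⟨fun z => C (h z.1, (c, h' z.2)), by fun_prop⟩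
private def GQz (C : C(I × (I × I), X)) (c : I) (h h' : C(I, I)) : C(I × I, X) :=
  ⟨fun z => C (h z.1, (h' z.2, c)), by fun_prop⟩

private theorem grd_fx (C : C(I × (I × I), X)) (c : I) :
    lowT (lowS (C.comp (fx c))) = GQx C c hl hl ∧ upT (lowS (C.comp (fx c))) = GQx C c hl hr ∧
    lowT (upS (C.comp (fx c))) = GQx C c hr hl ∧ upT (upS (C.comp (fx c))) = GQx C c hr hr :=
  ⟨rfl, rfl, rfl, rfl⟩

private theorem grd_fy (C : C(I × (I × I), X)) (c : I) :
    lowT (lowS (C.comp (fy c))) = GQy C c hl hl ∧ upT (lowS (C.comp (fy c))) = GQy C c hl hr ∧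
    lowT (upS (C.comp (fy c))) = GQy C c hr hl ∧ upT (upS (C.comp (fy c))) = GQy C c hr hr :=
  ⟨rfl, rfl, rfl, rfl⟩

private theorem grd_fz (C : C(I × (I × I), X)) (c : I) :
    lowT (lowS (C.comp (fz c))) = GQz C c hl hl ∧ upT (lowS (C.comp (fz c))) = GQz C c hl hr ∧
    lowT (upS (C.comp (fz c))) = GQz C c hr hl ∧ upT (upS (C.comp (fz c))) = GQz C c hr hr :=
  ⟨rfl, rfl, rfl, rfl⟩

private theorem grd_sub (C : C(I × (I × I), X)) (c : I) (h h' h'' : C(I, I)) :
    (sub8 h h' h'' C).comp (fx c) = GQx C (h c) h' h'' ∧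
    (sub8 h h' h'' C).comp (fy c) = GQy C (h' c) h h'' ∧
    (sub8 h h' h'' C).comp (fz c) = GQz C (h'' c) h h' :=
  ⟨rfl, rfl, rfl⟩

private theorem grd_one {V : Type} [AddCommGroup V] (g : C(I × I, X) → V)
    (P : C(I × (I × I), X) → Prop) (hP : ∀ C, P C → dC g C = 0) :
    ∀ (k : ℕ) (C : C(I × (I × I), X)), AllSub P k C → dC (sumS g k) C = 0 := by
  intro k
  induction k with
  | zero => intro C hC; exact hP C hC
  | succ k ih =>
    intro C hC
    have key : ∀ h h' h'' : C(I, I), (h = hl ∨ h = hr) → (h' = hl ∨ h' = hr) →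
        (h'' = hl ∨ h'' = hr) →
        sumS g k (GQx C (h 1) h' h'') - sumS g k (GQx C (h 0) h' h'') -
          (sumS g k (GQy C (h' 1) h h'') - sumS g k (GQy C (h' 0) h h'')) +
          (sumS g k (GQz C (h'' 1) h h') - sumS g k (GQz C (h'' 0) h h')) = 0 := by
      intro h h' h'' e e' e''
      exact ih _ (hC h h' h'' e e' e'')
    have k1 := key hl hl hl (Or.inl rfl) (Or.inl rfl) (Or.inl rfl)
    have k2 := key hl hl hr (Or.inl rfl) (Or.inl rfl) (Or.inr rfl)
    have k3 := key hl hr hl (Or.inl rfl) (Or.inr rfl) (Or.inl rfl)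
    have k4 := key hl hr hr (Or.inl rfl) (Or.inr rfl) (Or.inr rfl)
    have k5 := key hr hl hl (Or.inr rfl) (Or.inl rfl) (Or.inl rfl)
    have k6 := key hr hl hr (Or.inr rfl) (Or.inl rfl) (Or.inr rfl)
    have k7 := key hr hr hl (Or.inr rfl) (Or.inr rfl) (Or.inl rfl)
    have k8 := key hr hr hr (Or.inr rfl) (Or.inr rfl) (Or.inr rfl)
    rw [grd_hl0, grd_mid] at k1 k2 k3 k4
    rw [grd_hr1] at k5 k6 k7 k8
    rw [grd_hr1] at k2 k3 k4
    rw [grd_hl0, grd_mid] at k5 k6 k7
    have hs : ∀ S : C(I × I, X), sumS g (k + 1) S = sumS g k (lowT (lowS S)) +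
        sumS g k (upT (lowS S)) + sumS g k (lowT (upS S)) + sumS g k (upT (upS S)) := fun S => rfl
    unfold dC
    rw [hs, hs, hs, hs, hs, hs]
    simp only [grd_fx, grd_fy, grd_fz]
    have hsum := congrArg₂ (· + ·) (congrArg₂ (· + ·) (congrArg₂ (· + ·) k1 k2)
      (congrArg₂ (· + ·) k3 k4)) (congrArg₂ (· + ·) (congrArg₂ (· + ·) k5 k6)
      (congrArg₂ (· + ·) k7 k8))
    simp only [add_zero] at hsum
    rw [← hsum]
    abel

private theorem grd_two {V : Type} [AddCommGroup V] (a : C(I × I, X) → V) (v : C(I, X) → V)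
    (ha : IsCoc X V a v) : ∀ (k : ℕ) (S : C(I × I, X)),
      a S = sumS a k S + bisE v k (S.comp topm) - bisE v k (S.comp botm) +
        bisE v k (S.comp lefm) - bisE v k (S.comp rigm) := by
  intro k
  induction k with
  | zero => intro S; simp [sumS, bisE]
  | succ k ih =>
    intro S
    have h1 := ha.sdh S
    have h2 := ha.sdv (lowS S)
    have h3 := ha.sdv (upS S)
    have e1 : (lowS S).comp lefm = S.comp lefm := by
      ext y
      change S (hl 0, y) = S (0, y)
      rw [grd_hl0]
    have e2 : (upS S).comp rigm = S.comp rigm := by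
      ext y
      change S (hr 1, y) = S (1, y)
      rw [grd_hr1]
    have e3 : (lowS S).comp rigm = (upS S).comp lefm := by
      ext y
      change S (hl 1, y) = S (hr 0, y)
      rw [grd_mid]
    rw [e1, e3] at h2
    rw [e2] at h3
    have q1 := ih (lowT (lowS S))
    have q2 := ih (upT (lowS S))
    have q3 := ih (lowT (upS S))
    have q4 := ih (upT (upS S))
    have b1 : (lowT (lowS S)).comp botm = (S.comp botm).comp hl := by
      ext x
      change S (hl x, hl 0) = S (hl x, 0)
      rw [grd_hl0]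
    have b2 : (upT (lowS S)).comp topm = (S.comp topm).comp hl := by
      ext x
      change S (hl x, hr 1) = S (hl x, 1)
      rw [grd_hr1]
    have b3 : (lowT (lowS S)).comp topm = (upT (lowS S)).comp botm := by
      ext x
      change S (hl x, hl 1) = S (hl x, hr 0)
      rw [grd_mid]
    have b4 : (lowT (upS S)).comp botm = (S.comp botm).comp hr := by
      ext x
      change S (hr x, hl 0) = S (hr x, 0)
      rw [grd_hl0]
    have b5 : (upT (upS S)).comp topm = (S.comp topm).comp hr := by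
      ext x
      change S (hr x, hr 1) = S (hr x, 1)
      rw [grd_hr1]
    have b6 : (lowT (upS S)).comp topm = (upT (upS S)).comp botm := by
      ext x
      change S (hr x, hl 1) = S (hr x, hr 0)
      rw [grd_mid]
    have c1 : (lowT (lowS S)).comp lefm = (S.comp lefm).comp hl := by
      ext x
      change S (hl 0, hl x) = S (0, hl x)
      rw [grd_hl0]
    have c2 : (upT (lowS S)).comp lefm = (S.comp lefm).comp hr := by
      ext x
      change S (hl 0, hr x) = S (0, hr x)
      rw [grd_hl0]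
    have c3 : (lowT (lowS S)).comp rigm = (lowT (upS S)).comp lefm := by
      ext x
      change S (hl 1, hl x) = S (hr 0, hl x)
      rw [grd_mid]
    have c4 : (upT (lowS S)).comp rigm = (upT (upS S)).comp lefm := by
      ext x
      change S (hl 1, hr x) = S (hr 0, hr x)
      rw [grd_mid]
    have c5 : (lowT (upS S)).comp rigm = (S.comp rigm).comp hl := by
      ext x
      change S (hr 1, hl x) = S (1, hl x)
      rw [grd_hr1]
    have c6 : (upT (upS S)).comp rigm = (S.comp rigm).comp hr := by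
      ext x
      change S (hr 1, hr x) = S (1, hr x)
      rw [grd_hr1]
    rw [b1, b3, c1, c3] at q1
    rw [b2, c2, c4] at q2
    rw [b4, b6, c5] at q3
    rw [b5, c6] at q4
    have hs : sumS a (k + 1) S = sumS a k (lowT (lowS S)) +
        sumS a k (upT (lowS S)) + sumS a k (lowT (upS S)) + sumS a k (upT (upS S)) := rfl
    have hb : ∀ e : C(I, X), bisE v (k + 1) e = v e + bisE v k (e.comp hl) +
        bisE v k (e.comp hr) := fun e => rfl
    rw [hs, hb, hb, hb, hb, h1, h2, h3, q1, q2, q3, q4]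
    abel

private theorem grd_three {V : Type} [AddCommGroup V] (u : C(I, X) → V) : ∀ (k : ℕ)
    (S : C(I × I, X)),
      sumS (fun S => u (S.comp botm) + u (S.comp rigm) - u (S.comp lefm) - u (S.comp topm)) k S =
        sumE u k (S.comp botm) + sumE u k (S.comp rigm) - sumE u k (S.comp lefm) -
          sumE u k (S.comp topm) := by
  intro k
  induction k with
  | zero => intro S; rfl
  | succ k ih =>
    intro S
    have q1 := ih (lowT (lowS S))
    have q2 := ih (upT (lowS S))
    have q3 := ih (lowT (upS S))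
    have q4 := ih (upT (upS S))
    have b1 : (lowT (lowS S)).comp botm = (S.comp botm).comp hl := by
      ext x
      change S (hl x, hl 0) = S (hl x, 0)
      rw [grd_hl0]
    have b2 : (upT (lowS S)).comp topm = (S.comp topm).comp hl := by
      ext x
      change S (hl x, hr 1) = S (hl x, 1)
      rw [grd_hr1]
    have b3 : (lowT (lowS S)).comp topm = (upT (lowS S)).comp botm := by
      ext x
      change S (hl x, hl 1) = S (hl x, hr 0)
      rw [grd_mid]
    have b4 : (lowT (upS S)).comp botm = (S.comp botm).comp hr := by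
      ext x
      change S (hr x, hl 0) = S (hr x, 0)
      rw [grd_hl0]
    have b5 : (upT (upS S)).comp topm = (S.comp topm).comp hr := by
      ext x
      change S (hr x, hr 1) = S (hr x, 1)
      rw [grd_hr1]
    have b6 : (lowT (upS S)).comp topm = (upT (upS S)).comp botm := by
      ext x
      change S (hr x, hl 1) = S (hr x, hr 0)
      rw [grd_mid]
    have c1 : (lowT (lowS S)).comp lefm = (S.comp lefm).comp hl := by
      ext x
      change S (hl 0, hl x) = S (0, hl x)
      rw [grd_hl0]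
    have c2 : (upT (lowS S)).comp lefm = (S.comp lefm).comp hr := by
      ext x
      change S (hl 0, hr x) = S (0, hr x)
      rw [grd_hl0]
    have c3 : (lowT (lowS S)).comp rigm = (lowT (upS S)).comp lefm := by
      ext x
      change S (hl 1, hl x) = S (hr 0, hl x)
      rw [grd_mid]
    have c4 : (upT (lowS S)).comp rigm = (upT (upS S)).comp lefm := by
      ext x
      change S (hl 1, hr x) = S (hr 0, hr x)
      rw [grd_mid]
    have c5 : (lowT (upS S)).comp rigm = (S.comp rigm).comp hl := by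
      ext x
      change S (hr 1, hl x) = S (1, hl x)
      rw [grd_hr1]
    have c6 : (upT (upS S)).comp rigm = (S.comp rigm).comp hr := by
      ext x
      change S (hr 1, hr x) = S (1, hr x)
      rw [grd_hr1]
    rw [b1, b3, c1, c3] at q1
    rw [b2, c2, c4] at q2
    rw [b4, b6, c5] at q3
    rw [b5, c6] at q4
    have hb : ∀ e : C(I, X), sumE u (k + 1) e = sumE u k (e.comp hl) +
        sumE u k (e.comp hr) := fun e => rfl
    rw [hb, hb, hb, hb]
    change sumS _ k (lowT (lowS S)) + sumS _ k (upT (lowS S)) + sumS _ k (lowT (upS S)) +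
      sumS _ k (upT (upS S)) = _
    rw [q1, q2, q3, q4]
    abel

end

private theorem grd_distI (a b : I) : dist a b ≤ 1 := by
  rw [Subtype.dist_eq, Real.dist_eq, abs_le]
  constructor
  · linarith [a.2.1, b.2.2]
  · linarith [a.2.2, b.2.1]

private theorem grd_half (h : C(I, I)) (hh : h = hl ∨ h = hr) (a b : I) :
    dist (h a) (h b) = dist a b / 2 := by
  have key : |((a : ℝ) - b) / 2| = |(a : ℝ) - b| / 2 := by
    rw [abs_div, abs_of_pos (by norm_num : (0 : ℝ) < 2)]
  rcases hh with rfl | rfl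
  · rw [Subtype.dist_eq, Subtype.dist_eq, Real.dist_eq, Real.dist_eq, ← key]
    congr 1
    change (a : ℝ) / 2 - (b : ℝ) / 2 = _
    ring
  · rw [Subtype.dist_eq, Subtype.dist_eq, Real.dist_eq, Real.dist_eq, ← key]
    congr 1
    change (1 + (a : ℝ)) / 2 - (1 + (b : ℝ)) / 2 = _
    ring

private theorem grd_four (K N : Set R4) (hK : IsClosed K) (hN : IsOpen N) (hKN : K ⊆ N)
    (C : C(I × (I × I), R4)) : ∃ k : ℕ,
    AllSub (fun C => (∀ z, C z ∉ K) ∨ ∀ z, C z ∈ N) k C := by
  have hcpt : IsCompact (Set.range C) := isCompact_range C.continuous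
  obtain ⟨l, hl0, hl⟩ := lebesgue_number_lemma_of_metric (s := Set.range C)
    (c := fun b : Bool => if b then Kᶜ else N) hcpt
    (by intro b; cases b <;> simp [hN, hK.isOpen_compl])
    (by
      intro x _
      rw [Set.mem_iUnion]
      by_cases hx : x ∈ K
      · exact ⟨false, by simpa using hKN hx⟩
      · exact ⟨true, by simpa using hx⟩)
  have huc : UniformContinuous C := CompactSpace.uniformContinuous_of_continuous C.continuous
  obtain ⟨d, hd0, hd⟩ := Metric.uniformContinuous_iff.1 huc l hl0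
  have key : ∀ (k : ℕ) (C' : C(I × (I × I), R4)) (d' : ℝ), (∀ z, C' z ∈ Set.range C) →
      (∀ z z', dist z z' < d' → dist (C' z) (C' z') < l) → 1 < 2 ^ k * d' →
      AllSub (fun C => (∀ z, C z ∉ K) ∨ ∀ z, C z ∈ N) k C' := by
    intro k
    induction k with
    | zero =>
      intro C' d' hr hm h1
      have h1' : 1 < d' := by simpa using h1
      obtain ⟨b, hb⟩ := hl (C' (0, (0, 0))) (hr _)
      have hall : ∀ z, C' z ∈ (if b then Kᶜ else N : Set R4) := by
        intro z
        apply hb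
        rw [Metric.mem_ball]
        apply hm
        refine lt_of_le_of_lt ?_ h1'
        rw [Prod.dist_eq, Prod.dist_eq]
        exact max_le (grd_distI _ _) (max_le (grd_distI _ _) (grd_distI _ _))
      cases b
      · right
        intro z
        simpa using hall z
      · left
        intro z
        simpa using hall z
    | succ k ih =>
      intro C' d' hr hm h1 h h' h'' e e' e''
      apply ih _ (2 * d')
      · intro z
        exact hr _
      · intro z z' hz
        apply hm
        rw [Prod.dist_eq, Prod.dist_eq] at hz ⊢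
        rw [max_lt_iff, max_lt_iff] at hz ⊢
        obtain ⟨z1, z2, z3⟩ := hz
        refine ⟨?_, ?_, ?_⟩
        · change dist (h z.1) (h z'.1) < d'
          rw [grd_half h e]
          linarith
        · change dist (h' z.2.1) (h' z'.2.1) < d'
          rw [grd_half h' e']
          linarith
        · change dist (h'' z.2.2) (h'' z'.2.2) < d'
          rw [grd_half h'' e'']
          linarith
      · calc (1 : ℝ) < 2 ^ (k + 1) * d' := h1
          _ = 2 ^ k * (2 * d') := by ring
  obtain ⟨k, hk⟩ := pow_unbounded_of_one_lt (1 / d) (by norm_num : (1 : ℝ) < 2)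
  refine ⟨k, key k C d (fun z => ⟨z, rfl⟩) (fun z z' hz => hd hz) ?_⟩
  rw [div_lt_iff₀ hd0] at hk
  exact hk

theorem m_GRD : StGRD := by
  refine ⟨?_, ?_, ?_, ?_⟩
  · intro X V _ _ g P hP k C hC
    exact grd_one g P hP k C hC
  · intro X V _ _ a v ha k S
    exact grd_two a v ha k S
  · intro X V _ _ u k S
    exact grd_three u k S
  · intro K N hK hN hKN C
    exact grd_four K N hK hN hKN C

end Pool.Agent.Helper70.HH


end

/-! ## Helper89.BI7.M_MVF -/

section

/-!
# Project BI, stage 7 (H), module MVF: a 2-cocycle on the complement vanishes on spheres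
-/

set_option autoImplicit false

open scoped Topology unitInterval Manifold ContDiff
open Set Pool.Agent.Helper65.Barb Pool.Agent.Helper18.BI
open Pool.Agent.Helper34.S5 (zc Gc nm Off)

namespace Pool.Agent.Helper70.HH

namespace MVFaux

/-- boundary sum of a function of paths -/
def bd {X : Type} [TopologicalSpace X] {V : Type} [AddCommGroup V] (u : C(I, X) → V)
    (S : C(I × I, X)) : V :=
  u (S.comp botm) + u (S.comp rigm) - u (S.comp lefm) - u (S.comp topm)

theorem dC_bd {X : Type} [TopologicalSpace X] {V : Type} [AddCommGroup V] (u : C(I, X) → V)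
    (C : C(I × (I × I), X)) : dC (bd u) C = 0 := by
  have a1 : (C.comp (fz 0)).comp rigm = (C.comp (fx 1)).comp botm := rfl
  have a2 : (C.comp (fz 0)).comp lefm = (C.comp (fx 0)).comp botm := rfl
  have a3 : (C.comp (fz 1)).comp rigm = (C.comp (fx 1)).comp topm := rfl
  have a4 : (C.comp (fz 1)).comp lefm = (C.comp (fx 0)).comp topm := rfl
  have b1 : (C.comp (fy 1)).comp rigm = (C.comp (fx 1)).comp rigm := rfl
  have b2 : (C.comp (fy 1)).comp lefm = (C.comp (fx 0)).comp rigm := rfl
  have b3 : (C.comp (fy 0)).comp rigm = (C.comp (fx 1)).comp lefm := rfl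
  have b4 : (C.comp (fy 0)).comp lefm = (C.comp (fx 0)).comp lefm := rfl
  have c1 : (C.comp (fz 0)).comp botm = (C.comp (fy 0)).comp botm := rfl
  have c2 : (C.comp (fz 0)).comp topm = (C.comp (fy 1)).comp botm := rfl
  have c3 : (C.comp (fz 1)).comp botm = (C.comp (fy 0)).comp topm := rfl
  have c4 : (C.comp (fz 1)).comp topm = (C.comp (fy 1)).comp topm := rfl
  simp only [dC, bd, a1, a2, a3, a4, b1, b2, b3, b4, c1, c2, c3, c4]
  abel

section

variable {K N : Set R4} {ρ : R4 → R4}

/-- a map avoiding `K` -/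
noncomputable def res {Y : Type} [TopologicalSpace Y] (T : C(Y, R4)) (h : ∀ z, T z ∉ K) : C(Y, Off K) :=
  ⟨fun z => ⟨T z, h z⟩, T.continuous.subtype_mk _⟩

/-- the composition with `ρ` -/
noncomputable def rh (hρ : ContinuousOn ρ N) (hρK : ∀ x ∈ N, ρ x ∉ K) {Y : Type} [TopologicalSpace Y]
    (T : C(Y, R4)) (h : ∀ z, T z ∈ N) : C(Y, Off K) :=
  ⟨fun z => ⟨ρ (T z), hρK _ (h z)⟩, (hρ.comp_continuous T.continuous h).subtype_mk _⟩

/-- forget that a map avoids `K` -/
noncomputable def down {Y : Type} [TopologicalSpace Y] (T : C(Y, Off K)) : C(Y, R4) :=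
  ⟨fun z => (T z : R4), by fun_prop⟩

open Classical in
/-- the modified edge function -/
noncomputable def um {V : Type} [AddCommGroup V] (N : Set R4) (u : C(I, Off K) → V)
    (e : C(I, Off K)) : V :=
  if ∀ t, (e t : R4) ∈ N then u e else 0

open Classical in
/-- the modified cocycle -/
noncomputable def gg (hρ : ContinuousOn ρ N) (hρK : ∀ x ∈ N, ρ x ∉ K) {V : Type} [AddCommGroup V]
    (a : C(I × I, Off K) → V) (u : C(I, Off K) → V) (T : C(I × I, R4)) : V :=
  if h : ∀ z, T z ∉ K then a (res T h) - bd (um N u) (res T h)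
  else if h' : ∀ z, T z ∈ N then a (rh hρ hρK T h') else 0

variable (hρ : ContinuousOn ρ N) (hρK : ∀ x ∈ N, ρ x ∉ K) {V : Type} [AddCommGroup V]
  {a : C(I × I, Off K) → V} {u : C(I, Off K) → V}

theorem gg_K (T : C(I × I, R4)) (h : ∀ z, T z ∉ K) :
    gg hρ hρK a u T = a (res T h) - bd (um N u) (res T h) := by
  rw [gg, dif_pos h]

theorem gg_N (hu : ∀ S S' : C(I × I, Off K), (∀ z, (S z : R4) ∈ N) →
    (∀ z, (S' z : R4) = ρ (S z)) →
    a S - a S' = u (S.comp botm) + u (S.comp rigm) - u (S.comp lefm) - u (S.comp topm))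
    (T : C(I × I, R4)) (h : ∀ z, T z ∈ N) :
    gg hρ hρK a u T = a (rh hρ hρK T h) := by
  by_cases hk : ∀ z, T z ∉ K
  · rw [gg_K hρ hρK T hk]
    have h1 := hu (res T hk) (rh hρ hρK T h) h (fun z => rfl)
    have e : ∀ m : C(I, I × I), um N u ((res T hk).comp m) = u ((res T hk).comp m) := by
      intro m
      rw [um, if_pos]
      exact fun t => h (m t)
    rw [bd, e, e, e, e, ← h1]
    abel
  · rw [gg, dif_neg hk, dif_pos h]

theorem dC_gg {v : C(I, Off K) → V} (hc : IsCoc (Off K) V a v)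
    (hu : ∀ S S' : C(I × I, Off K), (∀ z, (S z : R4) ∈ N) →
    (∀ z, (S' z : R4) = ρ (S z)) →
    a S - a S' = u (S.comp botm) + u (S.comp rigm) - u (S.comp lefm) - u (S.comp topm))
    (C : C(I × (I × I), R4)) (hC : (∀ z, C z ∉ K) ∨ ∀ z, C z ∈ N) :
    dC (gg hρ hρK a u) C = 0 := by
  rcases hC with hC | hC
  · have e : ∀ m : C(I × I, I × (I × I)), gg hρ hρK a u (C.comp m) =
        a ((res C hC).comp m) - bd (um N u) ((res C hC).comp m) := fun m =>
      gg_K hρ hρK (C.comp m) (fun z => hC (m z))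
    have h1 := hc.cube (res C hC)
    have h2 := dC_bd (um N u) (res C hC)
    rw [dC] at h2 ⊢
    rw [e, e, e, e, e, e]
    rw [← sub_eq_zero.2 (h1.trans h2.symm)]
    abel
  · have e : ∀ m : C(I × I, I × (I × I)), gg hρ hρK a u (C.comp m) =
        a ((rh hρ hρK C hC).comp m) := fun m =>
      gg_N hρ hρK hu (C.comp m) (fun z => hC (m z))
    rw [dC, e, e, e, e, e, e]
    exact hc.cube (rh hρ hρK C hC)

theorem sum_gg (k : ℕ) (T : C(I × I, Off K)) :
    sumS (gg hρ hρK a u) k (down T) = sumS a k T - sumS (bd (um N u)) k T := by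
  induction k generalizing T with
  | zero =>
    exact gg_K hρ hρK (down T) (fun z => (T z).2)
  | succ k ih =>
    have h1 := ih (lowT (lowS T))
    have h2 := ih (upT (lowS T))
    have h3 := ih (lowT (upS T))
    have h4 := ih (upT (upS T))
    have e : sumS (gg hρ hρK a u) (k + 1) (down T) =
      sumS (gg hρ hρK a u) k (down (lowT (lowS T))) +
      sumS (gg hρ hρK a u) k (down (upT (lowS T))) +
      sumS (gg hρ hρK a u) k (down (lowT (upS T))) +
      sumS (gg hρ hρK a u) k (down (upT (upS T))) := rfl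
    rw [e, h1, h2, h3, h4]
    simp only [sumS]
    abel

end

end MVFaux

open MVFaux in
theorem m_MVF (hGRD : StGRD) : StMVF := by
  obtain ⟨g1, g2, g3, g4⟩ := hGRD
  intro K N ρ hK hN hKN hρ hρK V _ a v hc hU S y hS
  obtain ⟨u, hu⟩ := hU
  -- the cube
  let C : C(I × (I × I), R4) :=
    ⟨fun p => (1 - (p.2.2 : ℝ)) • (S (p.1, p.2.1) : R4) + (p.2.2 : ℝ) • (y : R4), by fun_prop⟩
  obtain ⟨k, hk⟩ := g4 K N hK hN hKN C
  have h1 := g1 R4 V (gg hρ hρK a u) _ (dC_gg hρ hρK hc hu) k C hk
  have fx0 : C.comp (fx 0) = down (ContinuousMap.const (I × I) y) := by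
    ext1 z
    change (1 - (z.2 : ℝ)) • (S (0, z.1) : R4) + (z.2 : ℝ) • (y : R4) = (y : R4)
    rw [hS 0 z.1 (Or.inl rfl), ← add_smul]
    simp
  have fx1 : C.comp (fx 1) = down (ContinuousMap.const (I × I) y) := by
    ext1 z
    change (1 - (z.2 : ℝ)) • (S (1, z.1) : R4) + (z.2 : ℝ) • (y : R4) = (y : R4)
    rw [hS 1 z.1 (Or.inr (Or.inl rfl)), ← add_smul]
    simp
  have fy0 : C.comp (fy 0) = down (ContinuousMap.const (I × I) y) := by
    ext1 z
    change (1 - (z.2 : ℝ)) • (S (z.1, 0) : R4) + (z.2 : ℝ) • (y : R4) = (y : R4)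
    rw [hS z.1 0 (Or.inr (Or.inr (Or.inl rfl))), ← add_smul]
    simp
  have fy1 : C.comp (fy 1) = down (ContinuousMap.const (I × I) y) := by
    ext1 z
    change (1 - (z.2 : ℝ)) • (S (z.1, 1) : R4) + (z.2 : ℝ) • (y : R4) = (y : R4)
    rw [hS z.1 1 (Or.inr (Or.inr (Or.inr rfl))), ← add_smul]
    simp
  have fz1 : C.comp (fz 1) = down (ContinuousMap.const (I × I) y) := by
    ext1 z
    change (1 - ((1 : I) : ℝ)) • (S (z.1, z.2) : R4) + ((1 : I) : ℝ) • (y : R4) = (y : R4)
    simp
  have fz0 : C.comp (fz 0) = down S := by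
    ext1 z
    change (1 - ((0 : I) : ℝ)) • (S (z.1, z.2) : R4) + ((0 : I) : ℝ) • (y : R4) = (S z : R4)
    simp
  rw [dC, fx0, fx1, fy0, fy1, fz0, fz1, sub_self, zero_add,
    sub_eq_zero, sum_gg, sum_gg] at h1
  -- the sides
  have sb : S.comp botm = ContinuousMap.const I y := by
    ext1 x; exact hS x 0 (Or.inr (Or.inr (Or.inl rfl)))
  have st : S.comp topm = ContinuousMap.const I y := by
    ext1 x; exact hS x 1 (Or.inr (Or.inr (Or.inr rfl)))
  have sl : S.comp lefm = ContinuousMap.const I y := by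
    ext1 x; exact hS 0 x (Or.inl rfl)
  have sr : S.comp rigm = ContinuousMap.const I y := by
    ext1 x; exact hS 1 x (Or.inr (Or.inl rfl))
  have tb : (ContinuousMap.const (I × I) y).comp botm = ContinuousMap.const I y := rfl
  have tt : (ContinuousMap.const (I × I) y).comp topm = ContinuousMap.const I y := rfl
  have tl : (ContinuousMap.const (I × I) y).comp lefm = ContinuousMap.const I y := rfl
  have tr : (ContinuousMap.const (I × I) y).comp rigm = ContinuousMap.const I y := rfl
  have z1 : sumS (bd (um N u)) k S = 0 := by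
    have h := g3 (Off K) V (um N u) k S
    rw [sb, st, sl, sr] at h
    exact h.trans (by abel)
  have z2 : sumS (bd (um N u)) k (ContinuousMap.const (I × I) y) = 0 := by
    have h := g3 (Off K) V (um N u) k (ContinuousMap.const (I × I) y)
    rw [tb, tt, tl, tr] at h
    exact h.trans (by abel)
  rw [z1, z2, sub_zero, sub_zero] at h1
  have w1 := g2 (Off K) V a v hc k S
  have w2 := g2 (Off K) V a v hc k (ContinuousMap.const (I × I) y)
  rw [sb, st, sl, sr, ← h1] at w1
  rw [tb, tt, tl, tr] at w2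
  exact w1.trans w2.symm

end Pool.Agent.Helper70.HH


end
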