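import Pool.Agent.Helper65.Barb.Defs
import Pool.Agent.Helper70.BI.C.P34
import Pool.Agent.Helper70.BI.C.P75
import Pool.Agent.Helper70.BI.C.P76

/-!
# Project BI (MP_8e98f2_gt): collected modules, part 77

The contents of the modules
* Helper4.BI7.M_TDB
* Helper46.BI7.M_CHV
* Helper48.BI7.M_PQ
* Helper7.BI7.M_HL
* Helper71.BI7.M_MVU
* Helper99.BI7.M_SCA

in one file, so that the whole proof builds in a short time.
-/

namespace Pool.Agent.Helper18.BI
end Pool.Agent.Helper18.BI

namespace Pool.Agent.Helper18.BI.R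
end Pool.Agent.Helper18.BI.R

namespace Pool.Agent.Helper34.S5
end Pool.Agent.Helper34.S5

namespace Pool.Agent.Helper65.Barb
end Pool.Agent.Helper65.Barb

namespace Pool.Agent.Helper70.T
end Pool.Agent.Helper70.T


/-! ## Helper4.BI7.M_TDB -/

section

/-!
# Project BI, stage 7 (H): module TDB (logarithms of functions on the interval and on the square)
-/

set_option autoImplicit false

open scoped Topology unitInterval
open Set

namespace Pool.Agent.Helper70.HH

/-- Logarithm on a retract of a real normed space. -/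
theorem tdb_aux {E Y : Type} [NormedAddCommGroup E] [NormedSpace ℝ E] [TopologicalSpace Y]
    (r : C(E, Y)) (i : C(Y, E)) (hri : ∀ y, r (i y) = y) (c : C(Y, ℂ)) (hc : ∀ y, c y ≠ 0) :
    ∃ ℓ : C(Y, ℂ), ∀ y, Complex.exp (ℓ y) = c y := by
  have he : Complex.exp (Complex.log ((c.comp r) (0 : E))) = (c.comp r) (0 : E) :=
    Complex.exp_log (hc _)
  obtain ⟨F, ⟨-, hF⟩, -⟩ := Complex.isCoveringMapOn_exp.existsUnique_continuousMap_lifts
    (c.comp r) he (fun x => hc _)
  refine ⟨F.comp i, fun y => ?_⟩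
  have h := congrFun hF (i y)
  simp only [Function.comp_apply, ContinuousMap.comp_apply] at h
  rw [ContinuousMap.comp_apply, h, hri]

theorem m_TDB : StTDB := by
  have hp : ∀ t : I, projIcc (0 : ℝ) 1 zero_le_one (t : ℝ) = t := fun t => projIcc_val _ t
  constructor
  · exact fun c hc => tdb_aux (E := ℝ) ⟨projIcc (0 : ℝ) 1 zero_le_one, continuous_projIcc⟩
      ⟨fun t : I => (t : ℝ), continuous_subtype_val⟩ (fun t => hp t) c hc
  · exact fun c hc => tdb_aux (E := ℝ × ℝ)
      ⟨fun z => (projIcc (0 : ℝ) 1 zero_le_one z.1, projIcc (0 : ℝ) 1 zero_le_one z.2),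
        (continuous_projIcc.comp continuous_fst).prodMk (continuous_projIcc.comp continuous_snd)⟩
      ⟨fun z : I × I => ((z.1 : ℝ), (z.2 : ℝ)),
        (continuous_subtype_val.comp continuous_fst).prodMk
          (continuous_subtype_val.comp continuous_snd)⟩
      (fun z => Prod.ext (hp z.1) (hp z.2)) c hc

end Pool.Agent.Helper70.HH


end

/-! ## Helper46.BI7.M_CHV -/

section

/-!
# Project BI, stage 7 (H), module CHV (2-cocycles on the complement of the fixed cuff in the 4-sphere)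
-/

set_option autoImplicit false

open scoped Topology unitInterval Manifold ContDiff
open Set Pool.Agent.Helper65.Barb Pool.Agent.Helper18.BI
open Pool.Agent.Helper34.S5 (Off)

namespace Pool.Agent.Helper70.HH

namespace CHV

/-- the closed unit square in the plane -/
def P : Set (ℝ × ℝ) := Icc (0 : ℝ) 1 ×ˢ Icc (0 : ℝ) 1

/-- its boundary -/
def P₀ : Set (ℝ × ℝ) := {z | z ∈ P ∧ (z.1 = 0 ∨ z.1 = 1 ∨ z.2 = 0 ∨ z.2 = 1)}

theorem isCompact_P : IsCompact P := isCompact_Icc.prod isCompact_Icc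

/-- the square in the plane -/
def em (z : I × I) : ℝ × ℝ := ((z.1 : ℝ), (z.2 : ℝ))

theorem em_mem (z : I × I) : em z ∈ P := ⟨z.1.2, z.2.2⟩

theorem continuous_em : Continuous em :=
  (continuous_subtype_val.comp continuous_fst).prodMk (continuous_subtype_val.comp continuous_snd)

/-- `S` extended to the plane -/
noncomputable def ex {A : Set S4} (S : C(I × I, {x : S4 // x ∉ A})) (z : ℝ × ℝ) : S4 :=
  (S (projIcc 0 1 zero_le_one z.1, projIcc 0 1 zero_le_one z.2) : S4)

theorem continuous_ex {A : Set S4} (S : C(I × I, {x : S4 // x ∉ A})) : Continuous (ex S) := by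
  unfold ex
  exact continuous_subtype_val.comp (S.continuous.comp
    ((continuous_projIcc.comp continuous_fst).prodMk (continuous_projIcc.comp continuous_snd)))

theorem ex_em {A : Set S4} (S : C(I × I, {x : S4 // x ∉ A})) (z : I × I) :
    ex S (em z) = (S z : S4) := by
  unfold ex em
  rw [projIcc_val, projIcc_val]

/-- a family of squares is homotopic to a Lipschitz one -/
theorem step1 (hLIP : Pool.Agent.Helper18.BI.R.StLIP) {A : Set S4} (hA : IsCompact A)
    {V : Type} [AddCommGroup V] {a : C(I × I, {x : S4 // x ∉ A}) → V}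
    {v : C(I, {x : S4 // x ∉ A}) → V} (hco : IsCoc {x : S4 // x ∉ A} V a v)
    (S : C(I × I, {x : S4 // x ∉ A})) (y : {x : S4 // x ∉ A})
    (hy : ∀ s t, (s = 0 ∨ s = 1 ∨ t = 0 ∨ t = 1) → S (s, t) = y) :
    ∃ (g : ℝ × ℝ → S4) (S' : C(I × I, {x : S4 // x ∉ A})),
      (∃ L : NNReal, LipschitzOnWith L g P) ∧ (∀ z, (S' z : S4) = g (em z)) ∧
      (∀ s t, (s = 0 ∨ s = 1 ∨ t = 0 ∨ t = 1) → S' (s, t) = y) ∧ a S = a S' := by
  have hbd : ∀ z ∈ P₀, ex S z = (y : S4) := by
    rintro z ⟨hz, hz'⟩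
    have e1 : z = em (⟨z.1, hz.1⟩, ⟨z.2, hz.2⟩) := rfl
    rw [e1, ex_em]
    refine congrArg Subtype.val (hy _ _ ?_)
    rcases hz' with h | h | h | h
    · exact Or.inl (Subtype.ext h)
    · exact Or.inr (Or.inl (Subtype.ext h))
    · exact Or.inr (Or.inr (Or.inl (Subtype.ext h)))
    · exact Or.inr (Or.inr (Or.inr (Subtype.ext h)))
  obtain ⟨g, H, hgL, hHc, hH01, hHA, hH0⟩ := hLIP (ℝ × ℝ) P P₀ A (ex S) isCompact_P
    (fun z hz => hz.1) hA (continuous_ex S).continuousOn
    ⟨0, fun z hz w hw => by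
      rw [hbd z hz, hbd w hw, edist_self]
      exact bot_le⟩
    (fun z _ => (S (projIcc 0 1 zero_le_one z.1, projIcc 0 1 zero_le_one z.2)).2)
  let C : C(I × (I × I), {x : S4 // x ∉ A}) :=
    ⟨fun w => ⟨H ((w.1 : ℝ), em w.2), hHA _ w.1.2 _ (em_mem _)⟩, by
      refine Continuous.subtype_mk ?_ _
      refine hHc.comp_continuous ((continuous_subtype_val.comp continuous_fst).prodMk
        (continuous_em.comp continuous_snd)) fun w => ⟨w.1.2, em_mem _⟩⟩
  have h0 : C.comp (fx 0) = S := by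
    refine ContinuousMap.ext fun z => Subtype.ext ?_
    show H (0, em z) = (S z : S4)
    rw [(hH01 _ (em_mem z)).1, ex_em]
  have hP0 : ∀ s t : I, (s = 0 ∨ s = 1 ∨ t = 0 ∨ t = 1) → em (s, t) ∈ P₀ := by
    intro s t h
    refine ⟨em_mem _, ?_⟩
    rcases h with h | h | h | h
    · exact Or.inl (congrArg Subtype.val h)
    · exact Or.inr (Or.inl (congrArg Subtype.val h))
    · exact Or.inr (Or.inr (Or.inl (congrArg Subtype.val h)))
    · exact Or.inr (Or.inr (Or.inr (congrArg Subtype.val h)))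
  have hC : ∀ u s t : I, (s = 0 ∨ s = 1 ∨ t = 0 ∨ t = 1) → C (u, (s, t)) = y := by
    intro u s t h
    refine Subtype.ext ?_
    show H ((u : ℝ), em (s, t)) = (y : S4)
    rw [hH0 _ u.2 _ (hP0 s t h), hbd _ (hP0 s t h)]
  have hy0 : C.comp (fy 0) = ContinuousMap.const _ y :=
    ContinuousMap.ext fun z => hC z.1 0 z.2 (Or.inl rfl)
  have hy1 : C.comp (fy 1) = ContinuousMap.const _ y :=
    ContinuousMap.ext fun z => hC z.1 1 z.2 (Or.inr (Or.inl rfl))
  have hz0 : C.comp (fz 0) = ContinuousMap.const _ y :=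
    ContinuousMap.ext fun z => hC z.1 z.2 0 (Or.inr (Or.inr (Or.inl rfl)))
  have hz1 : C.comp (fz 1) = ContinuousMap.const _ y :=
    ContinuousMap.ext fun z => hC z.1 z.2 1 (Or.inr (Or.inr (Or.inr rfl)))
  refine ⟨g, C.comp (fx 1), hgL, fun z => ?_, fun s t h => hC 1 s t h, ?_⟩
  · show H (1, em z) = g (em z)
    exact (hH01 _ (em_mem z)).2
  · have h := hco.cube C
    rw [h0, hy0, hy1, hz0, hz1] at h
    have h' : a (C.comp (fx 1)) - a S = 0 := by
      rw [← h]
      abel
    exact (sub_eq_zero.1 h').symm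

theorem isCompact_A (B : PartialDiffeomorph 𝓘(ℝ, R4) (𝓡 4) R4 S4 ∞) (h : SP ⊆ B.source) :
    IsCompact (B '' sph 1) := by
  have h1 : IsCompact (sph 1) := by
    refine X2.isCompact_SP.of_isClosed_subset ?_ fun p hp => Or.inl (Or.inr hp)
    exact (isClosed_eq continuous_fst continuous_const).inter
      (isClosed_eq (continuous_rsq 1) continuous_const)
  exact h1.image_of_continuousOn
    (B.contMDiffOn_toFun.continuousOn.mono fun p hp => h (Or.inl (Or.inr hp)))

/-- the image of the square is small -/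
theorem step2 (hDIM : Pool.Agent.Helper18.BI.R.StDIM) {g : ℝ × ℝ → S4}
    (hg : ∃ L : NNReal, LipschitzOnWith L g P) :
    ∃ Q : Set S4, IsCompact Q ∧ interior Q = ∅ ∧ ∀ z ∈ P, g z ∈ Q := by
  obtain ⟨L, hL⟩ := hg
  have h := hDIM (fun w => g w.2) (Icc (0 : ℝ) 1 ×ˢ P) (isCompact_Icc.prod isCompact_P)
    ⟨L, fun w hw w' hw' => (hL hw.2 hw'.2).trans
      (mul_le_mul_right (le_max_right (edist w.1 w'.1) (edist w.2 w'.2)) _)⟩
  exact ⟨_, h.1, h.2, fun z hz => ⟨(0, z), ⟨⟨le_rfl, zero_le_one⟩, hz⟩, rfl⟩⟩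

end CHV

open CHV in
theorem m_CHV (hLIP : Pool.Agent.Helper18.BI.R.StLIP) (hDIM : Pool.Agent.Helper18.BI.R.StDIM)
    (hX2c : Pool.Agent.Helper70.BI.StX2c) (hX3 : StX3) (hMVU : StMVU) (hMVF : StMVF) :
    StCHV := by
  intro B hB A hA V _ a v hco S y hy
  have hAc : IsCompact A := by
    rw [hA]
    exact isCompact_A B hB
  obtain ⟨g, S', hgL, hS', hS'y, haS⟩ := step1 hLIP hAc hco S y hy
  obtain ⟨Q, hQc, hQi, hQ⟩ := step2 hDIM hgL
  have hcl := X2.closed_image B hB
  have hint : interior (B '' SP ∪ Q) = ∅ := by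
    rw [interior_union_isClosed_of_interior_empty hcl hQi]
    exact X2.interior_image B hB
  obtain ⟨c, hc, hcr⟩ := hX2c (B '' SP ∪ Q) (hcl.union hQc.isClosed).isCompact hint
  have hBE : EmbOn (𝓡 4) B SP :=
    ⟨fun p hp => ⟨B, hB hp, fun q _ => rfl⟩, B.toPartialEquiv.injOn.mono hB⟩
  obtain ⟨hG, U, hU, hSU, h2⟩ := hX3 (EuclideanSpace ℝ (Fin 4)) (EuclideanSpace ℝ (Fin 4)) (𝓡 4) S4
    c B SP hc hBE (subset_union_left.trans hcr)
  have hld : IsLocalDiffeomorph 𝓘(ℝ, R4) (𝓡 4) ∞ c := fun p => hc.1 p (mem_univ _)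
  have hinj : Function.Injective c := fun p q h => hc.2 (mem_univ _) (mem_univ _) h
  have hoe := hld.isLocalHomeomorph.isOpenEmbedding_of_injective hinj
  set G : R4 → R4 := fun p => Function.invFun c (B p) with hGd
  have hK : ∀ x, x ∈ G '' sph 1 ↔ c x ∈ A := by
    intro x
    rw [hA]
    constructor
    · rintro ⟨p, hp, rfl⟩
      exact ⟨p, hp, (h2 p (hSU (Or.inl (Or.inr hp)))).symm⟩
    · rintro ⟨p, hp, he⟩
      exact ⟨p, hp, hinj ((h2 p (hSU (Or.inl (Or.inr hp)))).trans he)⟩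
  have hKcl : IsClosed (G '' sph 1) := by
    have e : G '' sph 1 = c ⁻¹' A := ext fun x => hK x
    rw [e]
    exact hAc.isClosed.preimage hoe.continuous
  obtain ⟨N, ρ, hNo, hKN, hρ, hρK, hU'⟩ := hMVU G hG
  let c' : C(Off (G '' sph 1), {x : S4 // x ∉ A}) :=
    ⟨fun x => ⟨c x.1, fun h => x.2 ((hK _).2 h)⟩,
      (hoe.continuous.comp continuous_subtype_val).subtype_mk _⟩
  have hco' : IsCoc (Off (G '' sph 1)) V (fun T => a (c'.comp T)) (fun e => v (c'.comp e)) :=
    ⟨fun C => hco.cube (c'.comp C), fun T => hco.sdh (c'.comp T), fun T => hco.sdv (c'.comp T)⟩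
  have hcg : ∀ z : I × I, c (Function.invFun c (g (em z))) = g (em z) := fun z =>
    Function.invFun_eq (hcr (Or.inr (hQ _ (em_mem z))))
  let S'' : C(I × I, Off (G '' sph 1)) :=
    ⟨fun z => ⟨Function.invFun c (g (em z)), fun h => by
        have h1 := (hK _).1 h
        rw [hcg z, ← hS' z] at h1
        exact (S' z).2 h1⟩, by
      refine Continuous.subtype_mk ?_ _
      rw [hoe.toIsEmbedding.continuous_iff]
      have e : c ∘ (fun z : I × I => Function.invFun c (g (em z))) = fun z => (S' z : S4) := by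
        funext z
        show c (Function.invFun c (g (em z))) = _
        rw [hcg z, hS' z]
      rw [e]
      exact continuous_subtype_val.comp S'.continuous⟩
  have hS'' : c'.comp S'' = S' := by
    refine ContinuousMap.ext fun z => Subtype.ext ?_
    show c (Function.invFun c (g (em z))) = _
    rw [hcg z, hS' z]
  have hbd : ∀ s t : I, (s = 0 ∨ s = 1 ∨ t = 0 ∨ t = 1) → S'' (s, t) = S'' (0, 0) := by
    intro s t h
    refine Subtype.ext ?_
    show Function.invFun c (g (em (s, t))) = Function.invFun c (g (em (0, 0)))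
    rw [← hS', ← hS', hS'y s t h, hS'y 0 0 (Or.inl rfl)]
  have key := hMVF (G '' sph 1) N ρ hKcl hNo hKN hρ hρK V (fun T => a (c'.comp T))
    (fun e => v (c'.comp e)) hco' (hU' V _ _ hco') S'' (S'' (0, 0)) hbd
  have hk : c'.comp (ContinuousMap.const (I × I) (S'' (0, 0))) = ContinuousMap.const _ y := by
    refine ContinuousMap.ext fun z => ?_
    show c' (S'' (0, 0)) = y
    have := congrArg (fun T : C(I × I, {x : S4 // x ∉ A}) => T (0, 0)) hS''
    exact this.trans (hS'y 0 0 (Or.inl rfl))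
  have key' : a (c'.comp S'') = a (c'.comp (ContinuousMap.const (I × I) (S'' (0, 0)))) := key
  rw [hS'', hk] at key'
  rw [haS, key']

end Pool.Agent.Helper70.HH


end

/-! ## Helper48.BI7.M_PQ -/

section

/-!
# Project BI, stage 7, module PQ: families of spheres in polar coordinates
-/

set_option autoImplicit false

open scoped Topology unitInterval Manifold ContDiff ComplexConjugate
open Set Pool.Agent.Helper65.Barb Pool.Agent.Helper18.BI
open Pool.Agent.Helper18.BI.R (S2)
open Pool.Agent.Helper70.T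

namespace Pool.Agent.Helper70.HH

private theorem nsq_PP (c s : ℝ) (ρ : ℝ) (h : c ^ 2 + s ^ 2 = 1) :
    nsq (c, (s : ℂ) * Complex.exp (ρ * Complex.I)) = 1 := by
  have h1 : ((s : ℂ) * Complex.exp (ρ * Complex.I)).re = s * Real.cos ρ := by
    rw [Complex.re_ofReal_mul, Complex.exp_ofReal_mul_I_re]
  have h2 : ((s : ℂ) * Complex.exp (ρ * Complex.I)).im = s * Real.sin ρ := by
    rw [Complex.im_ofReal_mul, Complex.exp_ofReal_mul_I_im]
  rw [nsq]
  simp only
  rw [h1, h2]
  have h3 := Real.sin_sq_add_cos_sq ρ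
  calc c ^ 2 + (s * Real.cos ρ) ^ 2 + (s * Real.sin ρ) ^ 2
      = c ^ 2 + s ^ 2 * (Real.sin ρ ^ 2 + Real.cos ρ ^ 2) := by ring
    _ = 1 := by rw [h3, mul_one, h]

private theorem mem_PP (ρ v : ℝ) : PP ρ v ∈ S2 := by
  refine nsq_PP _ _ ρ ?_
  rw [add_comm]
  exact Real.sin_sq_add_cos_sq _

private theorem lat_PP {ρ v : ℝ} (hv : v ∈ Icc (0 : ℝ) 1) : lat (PP ρ v) = v := by
  have hpi := Real.pi_pos
  change Real.arccos (Real.cos (Real.pi * v)) / Real.pi = v
  rw [Real.arccos_cos (mul_nonneg hpi.le hv.1) (by nlinarith [hv.2])]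
  field_simp

private theorem arg_PP {r θ : ℝ} (hr : 0 < r) (hθ : θ ∈ Ioc (-Real.pi) Real.pi) :
    Complex.arg ((r : ℂ) * Complex.exp (θ * Complex.I)) = θ := by
  rw [Complex.exp_mul_I]
  exact Complex.arg_mul_cos_add_sin_mul_I hr hθ

private theorem lon_PP {ρ v : ℝ} (hρ : ρ ∈ Ico (0 : ℝ) (2 * Real.pi)) (hv : v ∈ Ioo (0 : ℝ) 1) :
    lon (PP ρ v) = ρ := by
  have hpi := Real.pi_pos
  have hs : 0 < Real.sin (Real.pi * v) :=
    Real.sin_pos_of_pos_of_lt_pi (mul_pos hpi hv.1) (by nlinarith [hv.2])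
  change (if 0 ≤ Complex.arg ((Real.sin (Real.pi * v) : ℂ) * Complex.exp (ρ * Complex.I)) then
    Complex.arg ((Real.sin (Real.pi * v) : ℂ) * Complex.exp (ρ * Complex.I)) else
    Complex.arg ((Real.sin (Real.pi * v) : ℂ) * Complex.exp (ρ * Complex.I)) + 2 * Real.pi) = ρ
  rcases le_or_gt ρ Real.pi with h | h
  · have h1 := arg_PP hs (θ := ρ) ⟨by linarith [hρ.1], h⟩
    rw [h1, if_pos hρ.1]
  · have h1 := arg_PP hs (θ := ρ - 2 * Real.pi) ⟨by linarith, by linarith [hρ.2]⟩
    have h2 : Complex.exp (((ρ - 2 * Real.pi : ℝ) : ℂ) * Complex.I) =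
        Complex.exp (ρ * Complex.I) := by
      push_cast
      rw [sub_mul, Complex.exp_sub, Complex.exp_two_pi_mul_I, div_one]
    rw [h2] at h1
    rw [h1, if_neg (by linarith [hρ.2])]
    ring

private theorem inv_PP {m : R3} (hm : m ∈ S2) : PP (lon m) (lat m) = m ∧
    lon m ∈ Icc (0 : ℝ) (2 * Real.pi) ∧ lat m ∈ Icc (0 : ℝ) 1 := by
  have hpi := Real.pi_pos
  have hm' : m.1 ^ 2 + m.2.re ^ 2 + m.2.im ^ 2 = 1 := hm
  have hlat : Real.pi * lat m = Real.arccos m.1 := by
    rw [lat]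
    field_simp
  have hle : m.1 ^ 2 ≤ 1 := by nlinarith [sq_nonneg m.2.re, sq_nonneg m.2.im]
  have hab := abs_le.1 (abs_le_one_iff_mul_self_le_one.2 (by nlinarith : m.1 * m.1 ≤ 1))
  have hnorm : Real.sqrt (1 - m.1 ^ 2) = ‖m.2‖ := by
    rw [Complex.norm_def, Complex.normSq_apply]
    congr 1
    nlinarith [hm']
  have hexp : (‖m.2‖ : ℂ) * Complex.exp (lon m * Complex.I) = m.2 := by
    have h1 : Complex.exp (lon m * Complex.I) = Complex.exp (m.2.arg * Complex.I) := by
      rw [lon]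
      split_ifs
      · rfl
      · push_cast
        rw [add_mul, Complex.exp_add, Complex.exp_two_pi_mul_I, mul_one]
    rw [h1]
    exact Complex.norm_mul_exp_arg_mul_I m.2
  refine ⟨?_, ?_, ?_⟩
  · rw [PP, hlat, Real.cos_arccos hab.1 hab.2, Real.sin_arccos, hnorm, hexp]
  · rw [lon]
    have h1 := Complex.neg_pi_lt_arg m.2
    have h2 := Complex.arg_le_pi m.2
    split_ifs with h
    · exact ⟨h, by linarith⟩
    · exact ⟨by linarith, by linarith⟩
  · constructor
    · exact div_nonneg (Real.arccos_nonneg _) hpi.le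
    · rw [lat, div_le_one hpi]
      exact Real.arccos_le_pi _

private theorem cont_PP : Continuous fun z : ℝ × ℝ => PP z.1 z.2 := by
  unfold PP
  refine Continuous.prodMk ?_ ?_
  · exact Real.continuous_cos.comp (continuous_const.mul continuous_snd)
  · refine Continuous.mul ?_ ?_
    · exact Complex.continuous_ofReal.comp
        (Real.continuous_sin.comp (continuous_const.mul continuous_snd))
    · exact Complex.continuous_exp.comp
        ((Complex.continuous_ofReal.comp continuous_fst).mul continuous_const)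

private theorem sph2_PP {X : Type} (H : ℝ × ℝ → X)
    (h01 : ∀ v ∈ Icc (0 : ℝ) 1, H (0, v) = H (1, v))
    (h0 : ∀ ρ ∈ Icc (0 : ℝ) 1, H (ρ, 0) = H (0, 0))
    (h1 : ∀ ρ ∈ Icc (0 : ℝ) 1, H (ρ, 1) = H (0, 1)) (ρ : ℝ) (hρ : ρ ∈ Icc (0 : ℝ) 1)
    (v : ℝ) (hv : v ∈ Icc (0 : ℝ) 1) : sph2 H (PP (2 * Real.pi * ρ) v) = H (ρ, v) := by
  have hpi := Real.pi_pos
  have hl : lon (PP (2 * Real.pi * ρ) v) / (2 * Real.pi) ∈ Icc (0 : ℝ) 1 := by
    have := (inv_PP (mem_PP (2 * Real.pi * ρ) v)).2.1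
    exact ⟨div_nonneg this.1 (by positivity), (div_le_one (by positivity)).2 this.2⟩
  rw [sph2, lat_PP hv]
  rcases eq_or_lt_of_le hv.1 with h | h
  · rw [← h] at hl ⊢
    rw [h0 _ hl, h0 _ hρ]
  rcases eq_or_lt_of_le hv.2 with h' | h'
  · rw [h'] at hl ⊢
    rw [h1 _ hl, h1 _ hρ]
  rcases eq_or_lt_of_le hρ.2 with h2 | h2
  · have h3 : Complex.exp (((2 * Real.pi * ρ : ℝ) : ℂ) * Complex.I) =
        Complex.exp (((0 : ℝ) : ℂ) * Complex.I) := by
      rw [h2]
      push_cast
      rw [mul_one, Complex.exp_two_pi_mul_I]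
      simp
    have h4 : PP (2 * Real.pi * ρ) v = PP 0 v := by
      rw [PP, PP, h3]
    rw [h4, lon_PP ⟨le_rfl, by positivity⟩ ⟨h, h'⟩, zero_div, h2, h01 v hv]
  · have h3 : 2 * Real.pi * ρ ∈ Ico (0 : ℝ) (2 * Real.pi) :=
      ⟨mul_nonneg (by positivity) hρ.1, by nlinarith⟩
    rw [lon_PP h3 ⟨h, h'⟩]
    congr 2
    field_simp

theorem m_PQ : StPQ := by
  intro X Z _ _ Γ hΓ h01 h0 h1
  have hpi := Real.pi_pos
  have key : ∀ z, ∀ ρ ∈ Icc (0 : ℝ) 1, ∀ v ∈ Icc (0 : ℝ) 1,
      sph2 (fun q => Γ (z, q)) (PP (2 * Real.pi * ρ) v) = Γ (z, ρ, v) := fun z ρ hρ v hv =>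
    sph2_PP (fun q => Γ (z, q)) (h01 z) (h0 z) (h1 z) ρ hρ v hv
  refine ⟨?_, key⟩
  -- the quotient map
  let K : Type := ↥(Icc (0 : ℝ) 1) × ↥(Icc (0 : ℝ) 1)
  let P : K → ↥S2 := fun k => ⟨PP (2 * Real.pi * k.1) k.2, mem_PP _ _⟩
  have hPc : Continuous P := by
    refine Continuous.subtype_mk ?_ _
    exact cont_PP.comp ((continuous_const.mul (continuous_subtype_val.comp continuous_fst)).prodMk
      (continuous_subtype_val.comp continuous_snd))
  have hPp : IsProperMap P := Continuous.isProperMap hPc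
  have hqp : IsProperMap (Prod.map (id : Z → Z) P) := isProperMap_id.prodMap hPp
  have hPs : Function.Surjective P := by
    rintro ⟨m, hm⟩
    obtain ⟨e, hl, hv⟩ := inv_PP hm
    have hl' : lon m / (2 * Real.pi) ∈ Icc (0 : ℝ) 1 :=
      ⟨div_nonneg hl.1 (by positivity), (div_le_one (by positivity)).2 hl.2⟩
    refine ⟨(⟨lon m / (2 * Real.pi), hl'⟩, ⟨lat m, hv⟩), Subtype.ext ?_⟩
    have e2 : 2 * Real.pi * (lon m / (2 * Real.pi)) = lon m := by field_simp
    change PP (2 * Real.pi * (lon m / (2 * Real.pi))) (lat m) = m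
    rw [e2, e]
  have hq : Topology.IsQuotientMap (Prod.map (id : Z → Z) P) :=
    hqp.isClosedMap.isQuotientMap hqp.continuous (Function.surjective_id.prodMap hPs)
  -- the map on `Z × S2`
  have hf : Continuous fun p : Z × ↥S2 => sph2 (fun q => Γ (p.1, q)) p.2 := by
    rw [hq.continuous_iff]
    have e : (fun p : Z × ↥S2 => sph2 (fun q => Γ (p.1, q)) p.2) ∘ (Prod.map (id : Z → Z) P) =
        fun p : Z × K => Γ (p.1, (p.2.1 : ℝ), (p.2.2 : ℝ)) := by
      funext p
      exact key p.1 p.2.1 p.2.1.2 p.2.2 p.2.2.2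
    rw [e]
    refine hΓ.comp_continuous ?_ ?_
    · exact continuous_fst.prodMk ((continuous_subtype_val.comp
        (continuous_fst.comp continuous_snd)).prodMk (continuous_subtype_val.comp
          (continuous_snd.comp continuous_snd)))
    · intro p
      exact ⟨mem_univ _, p.2.1.2, p.2.2.2⟩
  rw [continuousOn_iff_continuous_domRestrict]
  have hg : Continuous fun p : ↥((univ : Set Z) ×ˢ S2) => ((p.1.1, ⟨p.1.2, p.2.2⟩) : Z × ↥S2) := by
    refine Continuous.prodMk (continuous_fst.comp continuous_subtype_val) ?_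
    exact Continuous.subtype_mk (continuous_snd.comp continuous_subtype_val) _
  exact hf.comp hg

end Pool.Agent.Helper70.HH


end

/-! ## Helper7.BI7.M_HL -/

section

/-!
# Project BI, stage 7 (H), module HL: functoriality of the horizontal composition of 2-cells
-/

set_option autoImplicit false

open scoped Topology unitInterval
open Set

namespace Pool.Agent.Helper70.HH

private theorem HL_trans {X : Type} [TopologicalSpace X] {x y z : X} {p p' p'' : Path x y}
    {q q' q'' : Path y z} (γ : Path p p') (γ' : Path p' p'') (δ : Path q q') (δ' : Path q' q'') :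
    hcP (γ.trans γ') (δ.trans δ') = (hcP γ δ).trans (hcP γ' δ') := by
  apply Path.ext
  funext s
  have h : ∀ s, hcP (γ.trans γ') (δ.trans δ') s =
      ((γ.trans γ') s).trans ((δ.trans δ') s) := fun s => rfl
  rw [h, Path.trans_apply, Path.trans_apply, Path.trans_apply]
  split
  · rfl
  · rfl

private theorem HL_refl {X : Type} [TopologicalSpace X] {x y z : X} (p : Path x y) (q : Path y z) :
    hcP (Path.refl p) (Path.refl q) = Path.refl (p.trans q) := by
  apply Path.ext
  funext s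
  rfl

theorem m_HL : StHL := by
  intro X _ x y z
  refine ⟨?_, ?_⟩
  · intro p p' p'' q q' q'' α α' β β'
    obtain ⟨γ, rfl⟩ := Path.Homotopic.Quotient.mk_surjective α
    obtain ⟨γ', rfl⟩ := Path.Homotopic.Quotient.mk_surjective α'
    obtain ⟨δ, rfl⟩ := Path.Homotopic.Quotient.mk_surjective β
    obtain ⟨δ', rfl⟩ := Path.Homotopic.Quotient.mk_surjective β'
    rw [← Path.Homotopic.Quotient.mk_trans, ← Path.Homotopic.Quotient.mk_trans, hc_mk, hc_mk, hc_mk,
      ← Path.Homotopic.Quotient.mk_trans, HL_trans]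
  · intro p q
    rw [← Path.Homotopic.Quotient.mk_refl, ← Path.Homotopic.Quotient.mk_refl,
      ← Path.Homotopic.Quotient.mk_refl, hc_mk, HL_refl]

end Pool.Agent.Helper70.HH


end

/-! ## Helper71.BI7.M_MVU -/

section

/-!
# Project BI, stage 7 (H), module MVU: the neighbourhood of a knotted sphere
-/

set_option autoImplicit false

open scoped Topology unitInterval Manifold ContDiff
open Set Pool.Agent.Helper65.Barb Pool.Agent.Helper18.BI
open Pool.Agent.Helper34.S5 (zc Gc nm Off)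

namespace Pool.Agent.Helper70.HH

namespace MVU

/-- the data of the tube -/
private structure TubD (F : R4 → R4) (η : ℝ) (g : R4 → R4) : Prop where
  pos : 0 < η
  le : η ≤ 1 / 5
  cF : ContinuousOn F {p | ‖zc p‖ < η}
  cg : ContinuousOn g (F '' {p | ‖zc p‖ < η})
  gF : ∀ p, ‖zc p‖ < η → g (F p) = p

variable {F : R4 → R4} {η : ℝ} {g : R4 → R4}

private theorem TubD.inj (h : TubD F η g) {p q : R4} (hp : ‖zc p‖ < η) (hq : ‖zc q‖ < η)
    (e : F p = F q) : p = q := by
  rw [← h.gF p hp, ← h.gF q hq, e]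

private theorem TubD.mem_sph (h : TubD F η g) {p : R4} (hp : ‖zc p‖ < η)
    (hK : F p ∈ F '' sph 1) : zc p = 0 := by
  obtain ⟨q, hq, e⟩ := hK
  have h0 : zc q = 0 := Helper34.S5.zc_eq_zero.2 hq
  have h1 : q = p := h.inj (by rw [h0, norm_zero]; exact h.pos) hp e
  rw [← h1]
  exact h0

private theorem TubD.zcG (h : TubD F η g) {c : ℂ} (hc : ‖c‖ < η) {m : R3} (hm : m ≠ 0) :
    zc (Gc c m) = c := by
  refine Helper34.S5.zc_Gc ?_ hm
  have h1 := Complex.abs_im_le_norm c
  have h2 := (abs_le.1 h1).1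
  linarith [h.le]

private theorem TubD.ne (h : TubD F η g) {p : R4} (hp : ‖zc p‖ < η) : p.2 - (1, 0) ≠ 0 := by
  intro h0
  have h1 : (zc p).im = -(1 / 5) := by
    show nm (p.2 - (1, 0)) - 1 / 5 = _
    rw [h0, nm, Helper34.S5.nsq_eq_zero.2 rfl, Real.sqrt_zero]
    ring
  have h2 := Complex.abs_im_le_norm (zc p)
  rw [h1, abs_neg, abs_of_pos (by norm_num)] at h2
  linarith [h.le]

private theorem nexp {ℓ : ℂ} (hη : 0 < η) : ‖Complex.exp ℓ‖ < η ↔ ℓ.re < Real.log η := by
  rw [Complex.norm_exp, ← Real.lt_log_iff_exp_lt hη]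

/-- the half plane times the punctured space -/
private abbrev W (κ : ℝ) : Type := {z : ℂ × R3 // z.1.re < κ ∧ z.2 ≠ 0}

private noncomputable def q (h : TubD F η g) (z : W (Real.log η)) : Off (F '' sph 1) :=
  ⟨F (Gc (Complex.exp z.1.1) z.1.2), by
    intro hK
    have hc := (nexp h.pos).2 z.2.1
    have h1 := h.zcG hc z.2.2
    have h2 := h.mem_sph (by rw [h1]; exact hc) hK
    rw [h1] at h2
    exact Complex.exp_ne_zero _ h2⟩

private theorem cont_q (h : TubD F η g) : Continuous (q h) := by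
  refine Continuous.subtype_mk ?_ _
  have c1 : Continuous fun z : W (Real.log η) => ((Complex.exp z.1.1, z.1.2) : ℂ × R3) := by
    fun_prop
  have c2 : Continuous fun z : W (Real.log η) => Gc (Complex.exp z.1.1) z.1.2 :=
    Helper34.S5.continuousOn_Gc.comp_continuous c1 fun z => ⟨mem_univ _, z.2.2⟩
  refine h.cF.comp_continuous c2 fun z => ?_
  have hc := (nexp h.pos).2 z.2.1
  show ‖zc (Gc (Complex.exp z.1.1) z.1.2)‖ < η
  rw [h.zcG hc z.2.2]
  exact hc

private theorem EE_ne {κ : ℝ} (z : EE κ) : z.1.2 ≠ 0 := by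
  intro h
  have h1 := z.2.2
  rw [h, Helper34.S5.nsq_eq_zero.2 rfl] at h1
  norm_num at h1

private theorem nm_EE {κ : ℝ} (z : EE κ) : nm z.1.2 = 1 := by
  rw [nm, z.2.2, Real.sqrt_one]

/-- the covering map -/
private noncomputable def Q (h : TubD F η g) : C(EE (Real.log η), Off (F '' sph 1)) :=
  ⟨fun z => q h ⟨z.1, z.2.1, EE_ne z⟩, (cont_q h).comp (Continuous.subtype_mk
    continuous_subtype_val _)⟩

private theorem Q_apply (h : TubD F η g) (z : EE (Real.log η)) :
    (Q h z : R4) = F (Gc (Complex.exp z.1.1) z.1.2) := rfl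

private noncomputable def l0 (η : ℝ) : ℂ := ((Real.log η - 1 : ℝ) : ℂ)

private theorem l0_re : (l0 η).re < Real.log η := by
  unfold l0
  rw [Complex.ofReal_re]
  linarith

private noncomputable def D (h : TubD F η g) : C(I × EE (Real.log η), Off (F '' sph 1)) :=
  ⟨fun w => q h ⟨((1 - (w.1 : ℝ)) • w.2.1.1 + (w.1 : ℝ) • l0 η, w.2.1.2), by
      show ((1 - (w.1 : ℝ)) • w.2.1.1 + (w.1 : ℝ) • l0 η).re < Real.log η
      rw [Complex.add_re, Complex.real_smul, Complex.real_smul, Complex.re_ofReal_mul,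
        Complex.re_ofReal_mul]
      have h1 := w.2.2.1
      have h2 := l0_re (η := η)
      have a0 := w.1.2.1
      have a1 := w.1.2.2
      rcases eq_or_lt_of_le a0 with e | e
      · rw [← e]
        simpa using h1
      · have b1 : (w.1 : ℝ) * (l0 η).re < (w.1 : ℝ) * Real.log η := mul_lt_mul_of_pos_left h2 e
        have b2 : (1 - (w.1 : ℝ)) * w.2.1.1.re ≤ (1 - (w.1 : ℝ)) * Real.log η :=
          mul_le_mul_of_nonneg_left h1.le (by linarith)
        linarith, EE_ne w.2⟩, by
    refine (cont_q h).comp (Continuous.subtype_mk ?_ _)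
    have u1 : Continuous fun w : I × EE (Real.log η) => (w.1 : ℝ) :=
      continuous_subtype_val.comp continuous_fst
    have u2 : Continuous fun w : I × EE (Real.log η) => w.2.1.1 :=
      continuous_fst.comp (continuous_subtype_val.comp continuous_snd)
    have u3 : Continuous fun w : I × EE (Real.log η) => w.2.1.2 :=
      continuous_snd.comp (continuous_subtype_val.comp continuous_snd)
    exact (((continuous_const.sub u1).smul u2).add (u1.smul continuous_const)).prodMk u3⟩

private theorem D_apply (h : TubD F η g) (w : I × EE (Real.log η)) :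
    (D h w : R4) = F (Gc (Complex.exp ((1 - (w.1 : ℝ)) • w.2.1.1 + (w.1 : ℝ) • l0 η)) w.2.1.2) :=
  rfl

private theorem D_zero (h : TubD F η g) (z : EE (Real.log η)) : D h (0, z) = Q h z := by
  apply Subtype.ext
  rw [D_apply, Q_apply]
  show F (Gc (Complex.exp ((1 - ((0 : I) : ℝ)) • z.1.1 + ((0 : I) : ℝ) • l0 η)) z.1.2) = _
  rw [Icc.coe_zero, sub_zero, one_smul, zero_smul, add_zero]

private theorem D_one (h : TubD F η g) (z : EE (Real.log η)) :
    (D h (1, z) : R4) = F (Gc (Complex.exp (l0 η)) z.1.2) := by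
  rw [D_apply]
  show F (Gc (Complex.exp ((1 - ((1 : I) : ℝ)) • z.1.1 + ((1 : I) : ℝ) • l0 η)) z.1.2) = _
  rw [Icc.coe_one, sub_self, one_smul, zero_smul, zero_add]

/-- translation by a multiple of `2 π i` -/
private noncomputable def sh (κ : ℝ) (n : ℤ) (z : EE κ) : EE κ :=
  ⟨(z.1.1 + (n : ℂ) * (2 * Real.pi * Complex.I), z.1.2), by
    show (z.1.1 + (n : ℂ) * (2 * Real.pi * Complex.I)).re < κ
    have : ((n : ℂ) * (2 * Real.pi * Complex.I)).re = 0 := by
      simp
    rw [Complex.add_re, this, add_zero]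
    exact z.2.1, z.2.2⟩

private theorem cont_sh (κ : ℝ) (n : ℤ) : Continuous (sh κ n) := by
  refine Continuous.subtype_mk ?_ _
  fun_prop

private theorem sh_add (κ : ℝ) (n k : ℤ) (z : EE κ) : sh κ n (sh κ k z) = sh κ (k + n) z := by
  apply Subtype.ext
  refine Prod.ext ?_ rfl
  show z.1.1 + (k : ℂ) * (2 * Real.pi * Complex.I) + (n : ℂ) * (2 * Real.pi * Complex.I) =
    z.1.1 + ((k + n : ℤ) : ℂ) * (2 * Real.pi * Complex.I)
  push_cast
  ring

private theorem sh_zero (κ : ℝ) (z : EE κ) : sh κ 0 z = z := by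
  apply Subtype.ext
  refine Prod.ext ?_ rfl
  show z.1.1 + ((0 : ℤ) : ℂ) * (2 * Real.pi * Complex.I) = z.1.1
  simp

private noncomputable def tau (κ : ℝ) : EE κ ≃ₜ EE κ where
  toFun := sh κ 1
  invFun := sh κ (-1)
  left_inv z := by
    rw [sh_add]
    exact sh_zero κ z
  right_inv z := by
    rw [sh_add]
    exact sh_zero κ z
  continuous_toFun := cont_sh κ 1
  continuous_invFun := cont_sh κ (-1)

private theorem exp_sh (κ : ℝ) (n : ℤ) (z : EE κ) :
    Complex.exp (sh κ n z).1.1 = Complex.exp z.1.1 := by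
  show Complex.exp (z.1.1 + (n : ℂ) * (2 * Real.pi * Complex.I)) = _
  rw [Complex.exp_add, Complex.exp_int_mul_two_pi_mul_I, mul_one]

private theorem Q_sh (h : TubD F η g) (n : ℤ) (z : EE (Real.log η)) :
    Q h (sh _ n z) = Q h z := by
  apply Subtype.ext
  rw [Q_apply, Q_apply, exp_sh]
  rfl

private noncomputable def deg (κ : ℝ) (z : EE κ) : ℤ := ⌊z.1.1.im / (2 * Real.pi)⌋

private theorem deg_tau (κ : ℝ) (z : EE κ) : deg κ (tau κ z) = deg κ z + 1 := by
  show ⌊(z.1.1 + ((1 : ℤ) : ℂ) * (2 * Real.pi * Complex.I)).im / (2 * Real.pi)⌋ = _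
  have e : (z.1.1 + ((1 : ℤ) : ℂ) * (2 * Real.pi * Complex.I)).im / (2 * Real.pi) =
      z.1.1.im / (2 * Real.pi) + 1 := by
    have h1 : (((1 : ℤ) : ℂ) * (2 * Real.pi * Complex.I)).im = 2 * Real.pi := by
      simp
    rw [Complex.add_im, h1]
    have := Real.pi_pos
    field_simp
  rw [e, Int.floor_add_one]
  rfl

/-! ### lifts -/

private theorem Fg (h : TubD F η g) {x : R4} (hx : x ∈ F '' {p | ‖zc p‖ < η}) :
    F (g x) = x ∧ ‖zc (g x)‖ < η := by
  obtain ⟨p, hp, rfl⟩ := hx
  rw [h.gF p hp]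
  exact ⟨rfl, hp⟩

private theorem exists_lift (h : TubD F η g) {Y : Type} [TopologicalSpace Y]
    (hY : ∀ c : C(Y, ℂ), (∀ y, c y ≠ 0) → ∃ ℓ : C(Y, ℂ), ∀ y, Complex.exp (ℓ y) = c y)
    (e : C(Y, Off (F '' sph 1))) (he : ∀ y, (e y : R4) ∈ F '' {p | ‖zc p‖ < η}) :
    ∃ f : C(Y, EE (Real.log η)), ∀ y, Q h (f y) = e y := by
  have ce : Continuous fun y => (e y : R4) := continuous_subtype_val.comp e.continuous
  have cp : Continuous fun y => g (e y) := h.cg.comp_continuous ce he
  let c : C(Y, ℂ) := ⟨fun y => zc (g (e y)), Helper34.S5.continuous_zc.comp cp⟩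
  have hc : ∀ y, c y ≠ 0 := by
    intro y hy
    have h1 := Fg h (he y)
    have h2 : g (e y) ∈ sph 1 := Helper34.S5.zc_eq_zero.1 hy
    exact (e y).2 ⟨g (e y), h2, h1.1⟩
  obtain ⟨ℓ, hℓ⟩ := hY c hc
  let w : Y → R3 := fun y => (g (e y)).2 - (1, 0)
  have cw : Continuous w := (continuous_snd.comp cp).sub continuous_const
  have hw : ∀ y, w y ≠ 0 := fun y => h.ne (Fg h (he y)).2
  have cn : Continuous fun y => (nm (w y))⁻¹ • w y :=
    ((Helper34.S5.continuous_nm.comp cw).inv₀ fun y => (Helper34.S5.nm_pos (hw y)).ne').smul cw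
  refine ⟨⟨fun y => ⟨(ℓ y, (nm (w y))⁻¹ • w y), ?_, ?_⟩,
    Continuous.subtype_mk (ℓ.continuous.prodMk cn) _⟩, ?_⟩
  · show (ℓ y).re < Real.log η
    rw [← nexp h.pos, hℓ y]
    exact (Fg h (he y)).2
  · show nsq ((nm (w y))⁻¹ • w y) = 1
    rw [Helper34.S5.nsq_smul, nm, inv_pow, Real.sq_sqrt (Helper34.S5.nsq_nonneg _)]
    exact inv_mul_cancel₀ fun h => hw y (Helper34.S5.nsq_eq_zero.1 h)
  · intro y
    apply Subtype.ext
    show F (Gc (Complex.exp (ℓ y)) ((nm (w y))⁻¹ • w y)) = e y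
    rw [hℓ y, Helper34.S5.Gc_smul _ (inv_pos.2 (Helper34.S5.nm_pos (hw y))) (hw y)]
    show F (Gc (zc (g (e y))) ((g (e y)).2 - (1, 0))) = e y
    rw [Helper34.S5.Gc_zc (hw y)]
    exact (Fg h (he y)).1

private theorem lift_pt (h : TubD F η g) {z z' : EE (Real.log η)} (e : Q h z = Q h z') :
    ∃ n : ℤ, z' = sh _ n z := by
  have e1 : F (Gc (Complex.exp z.1.1) z.1.2) = F (Gc (Complex.exp z'.1.1) z'.1.2) :=
    congrArg Subtype.val e
  have hc := (nexp h.pos).2 z.2.1
  have hc' := (nexp h.pos).2 z'.2.1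
  have k := h.zcG hc (EE_ne z)
  have k' := h.zcG hc' (EE_ne z')
  have e2 : Gc (Complex.exp z.1.1) z.1.2 = Gc (Complex.exp z'.1.1) z'.1.2 :=
    h.inj (by rw [k]; exact hc) (by rw [k']; exact hc') e1
  have e3 : Complex.exp z.1.1 = Complex.exp z'.1.1 := by
    rw [← k, ← k', e2]
  have e4 : z.1.2 = z'.1.2 := by
    have h1 := Helper34.S5.Gc_snd (Complex.exp z.1.1) z.1.2
    have h2 := Helper34.S5.Gc_snd (Complex.exp z'.1.1) z'.1.2
    rw [← e2, ← e3, h1, nm_EE, nm_EE, inv_one, mul_one] at h2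
    have h3 : (0 : ℝ) < 1 / 5 + (Complex.exp z.1.1).im := by
      have h4 := Complex.abs_im_le_norm (Complex.exp z.1.1)
      have h5 := (abs_le.1 h4).1
      linarith [h.le]
    exact smul_right_injective R3 h3.ne' h2
  obtain ⟨n, hn⟩ := Complex.exp_eq_exp_iff_exists_int.1 e3.symm
  refine ⟨n, Subtype.ext (Prod.ext ?_ e4.symm)⟩
  exact hn

private theorem lift_unique (h : TubD F η g) {f f' : C(I, EE (Real.log η))}
    (e : ∀ t, Q h (f t) = Q h (f' t)) : ∃ n : ℤ, ∀ t, f' t = sh _ n (f t) := by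
  choose n hn using fun t => lift_pt h (e t)
  have c1 : Continuous fun t => ((n t : ℤ) : ℝ) := by
    have e1 : (fun t => ((n t : ℤ) : ℝ)) =
        fun t => ((f' t).1.1.im - (f t).1.1.im) / (2 * Real.pi) := by
      funext t
      have h1 : (f' t).1.1 = (f t).1.1 + (n t : ℂ) * (2 * Real.pi * Complex.I) :=
        congrArg (fun z : EE (Real.log η) => z.1.1) (hn t)
      have h2 : ((n t : ℂ) * (2 * Real.pi * Complex.I)).im = n t * (2 * Real.pi) := by
        simp
      rw [h1, Complex.add_im, h2]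
      have := Real.pi_pos
      field_simp
      ring
    rw [e1]
    have u1 : Continuous fun t => (f t).1.1.im := Complex.continuous_im.comp
      (continuous_fst.comp (continuous_subtype_val.comp f.continuous))
    have u2 : Continuous fun t => (f' t).1.1.im := Complex.continuous_im.comp
      (continuous_fst.comp (continuous_subtype_val.comp f'.continuous))
    exact (u2.sub u1).div_const _
  have c2 : Continuous n := Int.isClosedEmbedding_coe_real.isEmbedding.continuous_iff.2 c1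
  refine ⟨n 0, fun t => ?_⟩
  have h3 : n t = n 0 := PreconnectedSpace.constant inferInstance c2
  rw [← h3]
  exact hn t

private theorem U_sh {κ : ℝ} {V : Type} {U : C(I, EE κ) → V}
    (hU : ∀ e e' : C(I, EE κ), (∀ t, e' t = tau κ (e t)) → U e' = U e) (f : C(I, EE κ)) (n : ℤ) :
    U ⟨fun t => sh κ n (f t), (cont_sh κ n).comp f.continuous⟩ = U f := by
  have step : ∀ k : ℤ, U ⟨fun t => sh κ (k + 1) (f t), (cont_sh κ (k + 1)).comp f.continuous⟩ =
      U ⟨fun t => sh κ k (f t), (cont_sh κ k).comp f.continuous⟩ := by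
    intro k
    refine hU _ _ fun t => ?_
    show sh κ (k + 1) (f t) = sh κ 1 (sh κ k (f t))
    rw [sh_add]
  induction n using Int.induction_on with
  | zero =>
    congr 1
    ext1 t
    exact sh_zero κ (f t)
  | succ k ih => exact (step k).trans ih
  | pred k ih =>
    have h := step (-(k : ℤ) - 1)
    rw [← ih]
    have e : -(k : ℤ) - 1 + 1 = -(k : ℤ) := by ring
    rw [e] at h
    exact h.symm

end MVU

open MVU in
theorem m_MVU (hTDA : StTDA) (hTDB : StTDB) (hSCA : StSCA) (hSCB : StSCB) (hMVA : StMVA) :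
    StMVU := by
  intro F hF
  obtain ⟨η, hη, g, hNo, hFc, hgc, hgF⟩ := hTDA F hF
  have h : TubD F η g := ⟨hη.1, hη.2, hFc, hgc, hgF⟩
  let ρ : R4 → R4 := fun x => F (Gc (Complex.exp (l0 η)) ((g x).2 - (1, 0)))
  have hl0 : ‖Complex.exp (l0 η)‖ < η := (nexp h.pos).2 l0_re
  refine ⟨F '' {p | ‖zc p‖ < η}, ρ, hNo, ?_, ?_, ?_, ?_⟩
  · rintro _ ⟨p, hp, rfl⟩
    refine ⟨p, ?_, rfl⟩
    show ‖zc p‖ < η
    rw [Helper34.S5.zc_eq_zero.2 hp, norm_zero]
    exact h.pos
  · have c1 : ContinuousOn (fun x => ((Complex.exp (l0 η), (g x).2 - (1, 0)) : ℂ × R3))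
        (F '' {p | ‖zc p‖ < η}) :=
      continuousOn_const.prodMk ((continuous_snd.comp_continuousOn hgc).sub continuousOn_const)
    have c2 : ContinuousOn (fun x => Gc (Complex.exp (l0 η)) ((g x).2 - (1, 0)))
        (F '' {p | ‖zc p‖ < η}) :=
      Helper34.S5.continuousOn_Gc.comp c1 fun x hx => ⟨mem_univ _, h.ne (Fg h hx).2⟩
    refine hFc.comp c2 fun x hx => ?_
    show ‖zc (Gc (Complex.exp (l0 η)) ((g x).2 - (1, 0)))‖ < η
    rw [h.zcG hl0 (h.ne (Fg h hx).2)]
    exact hl0
  · intro x hx hK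
    have h1 := h.zcG hl0 (h.ne (Fg h hx).2)
    have h2 := h.mem_sph (by rw [h1]; exact hl0) hK
    rw [h1] at h2
    exact Complex.exp_ne_zero _ h2
  · intro V _ a v hcoc
    have := hSCB (Real.log η)
    obtain ⟨U, hU1, hU2⟩ := hMVA (Off (F '' sph 1)) (EE (Real.log η)) V a v hcoc
      (hSCA (EE (Real.log η))) (Q h) (D h) (tau _) (deg _) (D_zero h)
      (fun z => Q_sh h 1 z) (fun z => Subtype.ext (by rw [D_one, D_one]; rfl)) (deg_tau _)
    classical
    let u : C(I, Off (F '' sph 1)) → V := fun e =>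
      if hx : ∃ f : C(I, EE (Real.log η)), ∀ t, Q h (f t) = e t then U (Classical.choose hx) else 0
    have hu : ∀ (e : C(I, Off (F '' sph 1))) (f : C(I, EE (Real.log η))),
        (∀ t, Q h (f t) = e t) → u e = U f := by
      intro e f hf
      have hx : ∃ f : C(I, EE (Real.log η)), ∀ t, Q h (f t) = e t := ⟨f, hf⟩
      show (if hx : ∃ f : C(I, EE (Real.log η)), ∀ t, Q h (f t) = e t then
        U (Classical.choose hx) else 0) = U f
      rw [dif_pos hx]
      have hs := Classical.choose_spec hx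
      obtain ⟨n, hn⟩ := lift_unique h (f := f) (f' := Classical.choose hx)
        fun t => (hf t).trans (hs t).symm
      rw [← U_sh hU1 f n]
      congr 1
      ext1 t
      exact hn t
    refine ⟨u, ?_⟩
    intro S S' hS hS'
    obtain ⟨T, hT⟩ := exists_lift h hTDB.2 S hS
    have key := hU2 T S S' (fun z => (hT z).symm) (fun z => ?_)
    · rw [key, hu (S.comp botm) (T.comp botm) fun t => hT _,
        hu (S.comp rigm) (T.comp rigm) fun t => hT _,
        hu (S.comp lefm) (T.comp lefm) fun t => hT _,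
        hu (S.comp topm) (T.comp topm) fun t => hT _]
    · apply Subtype.ext
      rw [hS' z, D_one, ← hT z, Q_apply]
      show F (Gc (Complex.exp (l0 η)) ((g (F (Gc (Complex.exp (T z).1.1) (T z).1.2))).2 - (1, 0))) = _
      have hc := (nexp h.pos).2 (T z).2.1
      rw [h.gF _ (by rw [h.zcG hc (EE_ne _)]; exact hc), Helper34.S5.Gc_snd, nm_EE, inv_one,
        mul_one, Helper34.S5.Gc_smul _ _ (EE_ne _)]
      have h4 := Complex.abs_im_le_norm (Complex.exp (T z).1.1)
      have h5 := (abs_le.1 h4).1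
      linarith [h.le]

end Pool.Agent.Helper70.HH


end

/-! ## Helper99.BI7.M_SCA -/

section

/-!
# Module SCA (project BI, stage 7 (H)): 1-cocycles on paths of a simply connected space
-/

set_option autoImplicit false

open scoped Topology unitInterval
open Set

namespace Pool.Agent.Helper70.HH

section

variable {E : Type} [TopologicalSpace E] {V : Type} [AddCommGroup V]

private theorem sca_hom (θ : C(I, E) → V)
    (h1 : ∀ S : C(I × I, E), θ (S.comp botm) + θ (S.comp rigm) - θ (S.comp lefm)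
      - θ (S.comp topm) = 0)
    (h2 : ∀ x : E, θ (ContinuousMap.const I x) = 0) {a b : E} (p q : Path a b)
    (H : p.Homotopic q) : θ p.toContinuousMap = θ q.toContinuousMap := by
  obtain ⟨H⟩ := H
  let S : C(I × I, E) := ⟨fun z => H (z.2, z.1), by fun_prop⟩
  have e1 : S.comp botm = p.toContinuousMap := by
    ext x; simp [S, botm]
  have e2 : S.comp topm = q.toContinuousMap := by
    ext x; simp [S, topm]
  have e3 : S.comp lefm = ContinuousMap.const I a := by
    ext x; simp [S, lefm]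
  have e4 : S.comp rigm = ContinuousMap.const I b := by
    ext x; simp [S, rigm]
  have h := h1 S
  rw [e1, e2, e3, e4, h2, h2, add_zero, sub_zero] at h
  exact sub_eq_zero.mp h

/-- the reparametrisation of the square -/
private noncomputable def scaG : C(I × I, I) :=
  ⟨fun z => ⟨(z.2 : ℝ) + (1 - (z.2 : ℝ)) * ((z.1 : ℝ) / 2), by
    have h1 := z.1.2; have h2 := z.2.2
    constructor
    · have := mul_nonneg (sub_nonneg.mpr h2.2) h1.1
      nlinarith [h2.1]
    · nlinarith [h2.1, h2.2, h1.1, h1.2, mul_nonneg (sub_nonneg.mpr h2.2) (sub_nonneg.mpr h1.2)]⟩,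
    by fun_prop⟩

private theorem sca_trans (θ : C(I, E) → V)
    (h1 : ∀ S : C(I × I, E), θ (S.comp botm) + θ (S.comp rigm) - θ (S.comp lefm)
      - θ (S.comp topm) = 0)
    (h2 : ∀ x : E, θ (ContinuousMap.const I x) = 0) {a b c : E} (p : Path a b) (q : Path b c) :
    θ (p.trans q).toContinuousMap = θ p.toContinuousMap + θ q.toContinuousMap := by
  let S : C(I × I, E) := (p.trans q).toContinuousMap.comp scaG
  have e1 : S.comp botm = p.toContinuousMap := by
    ext x
    have hx := x.2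
    show (p.trans q) (scaG (x, 0)) = p x
    have hle : ((scaG (x, 0) : I) : ℝ) ≤ 1 / 2 := by
      simp only [scaG, ContinuousMap.coe_mk, Set.Icc.coe_zero]
      linarith [hx.2]
    rw [Path.trans_apply, dif_pos hle]
    congr 1
    apply Subtype.ext
    simp only [scaG, ContinuousMap.coe_mk, Set.Icc.coe_zero]
    ring
  have e2 : S.comp topm = ContinuousMap.const I c := by
    ext x
    show (p.trans q) (scaG (x, 1)) = c
    have : scaG (x, 1) = 1 := by
      apply Subtype.ext
      simp [scaG]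
    rw [this]; simp
  have e3 : S.comp lefm = (p.trans q).toContinuousMap := by
    ext x
    show (p.trans q) (scaG (0, x)) = (p.trans q) x
    congr 1
    apply Subtype.ext
    simp [scaG]
  have e4 : S.comp rigm = q.toContinuousMap := by
    ext x
    have hx := x.2
    show (p.trans q) (scaG (1, x)) = q x
    rw [Path.trans_apply]
    split_ifs with hle
    · have hx0 : x = 0 := by
        apply Subtype.ext
        simp only [scaG, ContinuousMap.coe_mk, Set.Icc.coe_one] at hle
        simp only [Set.Icc.coe_zero]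
        linarith [hx.1]
      subst hx0
      rw [q.source]
      have : (⟨2 * ((scaG (1, 0) : I) : ℝ), (unitInterval.mul_pos_mem_iff zero_lt_two).2
          ⟨(scaG (1, 0)).2.1, hle⟩⟩ : I) = 1 := by
        apply Subtype.ext
        simp [scaG]
      rw [this, p.target]
    · congr 1
      apply Subtype.ext
      simp only [scaG, ContinuousMap.coe_mk, Set.Icc.coe_one]
      ring
  have h := h1 S
  rw [e1, e2, e3, e4, h2, sub_zero] at h
  exact (sub_eq_zero.mp h).symm

end

/-- Module SCA. -/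
theorem m_SCA : StSCA := by
  intro E _ _ V _ θ h1 h2
  obtain ⟨e0⟩ : Nonempty E := inferInstance
  let γ : ∀ x : E, Path e0 x := fun x => (PathConnectedSpace.joined e0 x).somePath
  refine ⟨fun x => θ (γ x).toContinuousMap, fun e => ?_⟩
  let pe : Path (e 0) (e 1) := ⟨e, rfl, rfl⟩
  have hh := sca_hom θ h1 h2 ((γ (e 0)).trans pe) (γ (e 1))
    (SimplyConnectedSpace.paths_homotopic _ _)
  rw [sca_trans θ h1 h2] at hh
  have hpe : pe.toContinuousMap = e := rfl
  rw [hpe] at hh
  show θ e = θ (γ (e 1)).toContinuousMap - θ (γ (e 0)).toContinuousMap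
  rw [← hh]; abel

end Pool.Agent.Helper70.HH


end
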