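import Pool.Agent.Helper18.BI.R.FinDefs
import Pool.Agent.Helper65.Barb.Defs
import Pool.Agent.Helper70.BI.C.P76
import Pool.Agent.Helper70.BI.C.P79

/-!
# Project BI (MP_8e98f2_gt): collected modules, part 82

The contents of the modules
* Helper63.BI7.M_CCC
* Helper71.BI7.M_SCB

in one file, so that the whole proof builds in a short time.
-/

namespace Pool.Agent.Helper18.BI
end Pool.Agent.Helper18.BI

namespace Pool.Agent.Helper18.BI.R
end Pool.Agent.Helper18.BI.R

namespace Pool.Agent.Helper18.FinR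
end Pool.Agent.Helper18.FinR

namespace Pool.Agent.Helper65.Barb
end Pool.Agent.Helper65.Barb

namespace Pool.Agent.Helper70.T
end Pool.Agent.Helper70.T


/-! ## Helper63.BI7.M_CCC -/

section

/-!
# Project BI, stage 7 (H), module CCC: horizontal composition of closed 2-cells
-/

set_option autoImplicit false

open scoped Topology unitInterval
open Set Pool.Agent.Helper65.Barb Pool.Agent.Helper18.BI
open Pool.Agent.Helper18.FinR (sqr)
open Pool.Agent.Helper18.BI.R (S2)
open Pool.Agent.Helper70.T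

namespace Pool.Agent.Helper70.HH

namespace CCC

/-- the projection of the line onto the interval -/
noncomputable def pI (t : ℝ) : I := projIcc (0 : ℝ) 1 zero_le_one t

theorem cont_pI : Continuous pI := continuous_projIcc (h := zero_le_one)

theorem pI_lo {t : ℝ} (h : t ≤ 0) : pI t = 0 := projIcc_of_le_left _ h

theorem pI_hi {t : ℝ} (h : 1 ≤ t) : pI t = 1 := projIcc_of_right_le _ h

theorem pI_coe {t : ℝ} (h : t ∈ Icc (0 : ℝ) 1) : (pI t : ℝ) = t := by
  unfold pI
  rw [projIcc_of_mem _ h]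

/-- a homotopy in polar coordinates -/
theorem hfree {X : Type} [TopologicalSpace X] (hPP : StPP) (hPQ : StPQ) (Γ : ℝ × ℝ × ℝ → X)
    (hc : Continuous Γ) (h1 : ∀ z v, Γ (z, 0, v) = Γ (z, 1, v))
    (h2 : ∀ z ρ, Γ (z, ρ, 0) = Γ (z, 0, 0)) (h3 : ∀ z ρ, Γ (z, ρ, 1) = Γ (z, 0, 1)) :
    Hfree (fun t => sph2 (fun q => Γ (0, q)) (sqr t)) (fun t => sph2 (fun q => Γ (1, q)) (sqr t)) ∧
      ∀ z, ContinuousOn (sph2 (fun q => Γ (z, q))) S2 := by
  obtain ⟨a, -⟩ := hPQ X ℝ Γ hc.continuousOn (fun z v _ => h1 z v) (fun z ρ _ => h2 z ρ)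
    (fun z ρ _ => h3 z ρ)
  refine ⟨⟨fun p => sph2 (fun q => Γ (p.1, q)) (sqr p.2), ?_, fun _ => rfl, fun _ => rfl, ?_⟩, ?_⟩
  · refine a.comp (f := fun p : ℝ × (Fin 2 → I) => ((p.1, sqr p.2) : ℝ × R3)) ?_ ?_
    · exact (continuous_fst.prodMk (R.EXC.continuous_sqr.comp continuous_snd)).continuousOn
    · intro p _
      exact ⟨mem_univ _, SPN.sqr_mem hPP p.2⟩
  · intro u _ t ht t' ht'
    show sph2 (fun q => Γ (u, q)) (sqr t) = sph2 (fun q => Γ (u, q)) (sqr t')
    rw [SPN.sqr_bd ht, SPN.sqr_bd ht']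
  · intro z
    refine a.comp (f := fun m : R3 => ((z, m) : ℝ × R3)) ?_ ?_
    · exact (continuous_const.prodMk continuous_id).continuousOn
    · intro m hm
      exact ⟨mem_univ _, hm⟩

section
variable {X : Type} [TopologicalSpace X] {x y z : X}

theorem cont_cell {p q : Path x y} (γ : Path p q) {Z : Type} [TopologicalSpace Z]
    {a b : Z → ℝ} (ha : Continuous a) (hb : Continuous b) :
    Continuous fun u => γ (pI (a u)) (pI (b u)) := by
  have h : Continuous fun u : Z => raw γ (pI (a u), pI (b u)) :=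
    (raw γ).continuous.comp ((cont_pI.comp ha).prodMk (cont_pI.comp hb))
  exact h

theorem cell_0 {p : Path x y} (γ : Path p p) (v : I) : γ (pI 0) v = γ (pI 1) v := by
  rw [pI_lo le_rfl, pI_hi le_rfl, γ.source, γ.target]

theorem cell_l {p q : Path x y} (γ : Path p q) (ρ : I) {t : ℝ} (h : t ≤ 0) :
    γ ρ (pI t) = x := by
  rw [pI_lo h, Path.source]

theorem cell_r {p q : Path x y} (γ : Path p q) (ρ : I) {t : ℝ} (h : 1 ≤ t) :
    γ ρ (pI t) = y := by
  rw [pI_hi h, Path.target]

theorem hc_lo {p p' : Path x y} {q q' : Path y z} (γ : Path p p') (δ : Path q q') (s : I)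
    {v : ℝ} (h : v ≤ 1 / 2) : hcP γ δ s (pI v) = γ s (pI (2 * v)) :=
  Path.extend_trans_of_le_half (γ s) (δ s) h

theorem hc_hi {p p' : Path x y} {q q' : Path y z} (γ : Path p p') (δ : Path q q') (s : I)
    {v : ℝ} (h : 1 / 2 ≤ v) : hcP γ δ s (pI v) = δ s (pI (2 * v - 1)) :=
  Path.extend_trans_of_half_le (γ s) (δ s) h

end

theorem lat_half {m : R3} (h : m.1 = 0) : lat m = 1 / 2 := by
  unfold lat
  rw [h, Real.arccos_zero]
  field_simp

theorem lat_le {m : R3} (h : 0 ≤ m.1) : lat m ≤ 1 / 2 := by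
  unfold lat
  rw [div_le_iff₀ Real.pi_pos]
  have := Real.arccos_le_pi_div_two.2 h
  linarith

theorem lat_ge {m : R3} (h : m.1 ≤ 0) : 1 / 2 ≤ lat m := by
  unfold lat
  rw [le_div_iff₀ Real.pi_pos]
  have h1 : Real.pi / 2 ≤ Real.arccos m.1 := by
    by_contra h2
    push Not at h2
    have h3 := Real.arccos_lt_pi_div_two.1 h2
    linarith
  linarith

theorem S2_disk {m : R3} (hm : m ∈ S2) : nsq (0, m.2) ≤ 1 := by
  have h : m.1 ^ 2 + m.2.re ^ 2 + m.2.im ^ 2 = 1 := hm
  show (0 : ℝ) ^ 2 + m.2.re ^ 2 + m.2.im ^ 2 ≤ 1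
  nlinarith [sq_nonneg m.1]

theorem cont_nsq : Continuous nsq := by
  unfold nsq
  fun_prop

end CCC

open CCC in
/-- **CCC.** -/
theorem m_CCC (hPP : StPP) (hPQ : StPQ) (hADD : StADD) : StCCC := by
  intro X _ y₀ sq hsq x y z p q γ δ
  classical
  -- the sphere of the composition
  let f : R3 → X := sph2 fun w => hcP γ δ (pI w.1) (pI w.2)
  have hf : ContinuousOn f S2 := (hfree hPP hPQ (fun w => hcP γ δ (pI w.2.1) (pI w.2.2))
    (cont_cell _ (by fun_prop) (by fun_prop)) (fun _ v => cell_0 _ _)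
    (fun _ ρ => by rw [cell_l _ _ le_rfl, cell_l _ _ le_rfl])
    (fun _ ρ => by rw [cell_r _ _ le_rfl, cell_r _ _ le_rfl])).2 0
  let Φ : R3 → X := fun m => if nsq m = 1 then f m else y
  have hΦ1 : ∀ m ∈ S2, Φ m = f m := fun m hm => if_pos hm
  have hΦ2 : ∀ m : R3, m.1 = 0 → Φ m = y := by
    intro m hm
    by_cases h : nsq m = 1
    · rw [hΦ1 m h]
      show hcP γ δ (pI (lon m / (2 * Real.pi))) (pI (lat m)) = y
      rw [lat_half hm, hc_lo _ _ _ le_rfl]
      exact cell_r _ _ (by norm_num)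
    · exact if_neg h
  have hΦ : ContinuousOn Φ UU := by
    refine ContinuousOn.union_of_isClosed (hf.congr hΦ1) ?_ ?_ ?_
    · exact continuousOn_const.congr fun m hm => hΦ2 m hm.1
    · exact isClosed_eq cont_nsq continuous_const
    · exact (isClosed_eq continuous_fst continuous_const).inter
        (isClosed_le cont_nsq continuous_const)
  have h1 := hADD X y₀ sq hsq Φ hΦ
  have e1 : (fun t => Φ (sqr t)) = sphP (hcP γ δ) := by
    funext t
    exact hΦ1 _ (SPN.sqr_mem hPP t)
  rw [e1] at h1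
  have hpI0 : ((pI 0 : I) : ℝ) = 0 := by rw [pI_lo le_rfl]; rfl
  have hpI1 : ((pI 1 : I) : ℝ) = 1 := by rw [pI_hi le_rfl]; rfl
  -- the upper half
  have u1 := (hfree hPP hPQ (fun w => γ (pI w.2.1) (pI ((2 - (pI w.1 : ℝ)) * w.2.2)))
    (cont_cell _ (by fun_prop) (by
      have := cont_pI
      fun_prop)) (fun _ v => cell_0 _ _) (fun u ρ => by
      show γ (pI ρ) (pI ((2 - (pI u : ℝ)) * 0)) = γ (pI 0) (pI ((2 - (pI u : ℝ)) * 0))
      rw [mul_zero, cell_l _ _ le_rfl, cell_l _ _ le_rfl]) (fun u ρ => by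
      have h := (pI u).2.2
      show γ (pI ρ) (pI ((2 - (pI u : ℝ)) * 1)) = γ (pI 0) (pI ((2 - (pI u : ℝ)) * 1))
      rw [cell_r _ _ (by linarith), cell_r _ _ (by linarith)])).1
  have u2 := hsq.free _ _ u1
  have u3 : (fun t => Φ (max (sqr t).1 0, (sqr t).2)) = fun t =>
      sph2 (fun q : ℝ × ℝ => γ (pI q.1) (pI ((2 - (pI 0 : ℝ)) * q.2))) (sqr t) := by
    funext t
    have hm := SPN.sqr_mem hPP t
    generalize sqr t = m at hm
    show Φ (max m.1 0, m.2) =
      γ (pI (lon m / (2 * Real.pi))) (pI ((2 - (pI 0 : ℝ)) * lat m))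
    rw [hpI0, sub_zero]
    rcases le_total 0 m.1 with h | h
    · rw [max_eq_left h, hΦ1 m hm]
      exact hc_lo _ _ _ (lat_le h)
    · rw [max_eq_right h, hΦ2 _ rfl]
      exact (cell_r _ _ (by linarith [lat_ge h])).symm
  have u4 : (fun t => sph2 (fun q : ℝ × ℝ => γ (pI q.1) (pI ((2 - (pI 1 : ℝ)) * q.2))) (sqr t)) =
      sphP γ := by
    funext t
    show γ (pI (lon (sqr t) / (2 * Real.pi))) (pI ((2 - (pI 1 : ℝ)) * lat (sqr t))) =
      γ (pI (lon (sqr t) / (2 * Real.pi))) (pI (lat (sqr t)))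
    rw [hpI1]
    congr 2
    ring
  -- the lower half
  have v1 := (hfree hPP hPQ (fun w => δ (pI w.2.1) (pI (1 - (2 - (pI w.1 : ℝ)) * (1 - w.2.2))))
    (cont_cell _ (by fun_prop) (by
      have := cont_pI
      fun_prop)) (fun _ v => cell_0 _ _) (fun u ρ => by
      have h := (pI u).2.2
      show δ (pI ρ) (pI (1 - (2 - (pI u : ℝ)) * (1 - 0))) =
        δ (pI 0) (pI (1 - (2 - (pI u : ℝ)) * (1 - 0)))
      rw [cell_l _ _ (by linarith), cell_l _ _ (by linarith)]) (fun u ρ => by
      show δ (pI ρ) (pI (1 - (2 - (pI u : ℝ)) * (1 - 1))) =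
        δ (pI 0) (pI (1 - (2 - (pI u : ℝ)) * (1 - 1)))
      rw [cell_r _ _ (by linarith), cell_r _ _ (by linarith)])).1
  have v2 := hsq.free _ _ v1
  have v3 : (fun t => Φ (min (sqr t).1 0, (sqr t).2)) = fun t =>
      sph2 (fun q : ℝ × ℝ => δ (pI q.1) (pI (1 - (2 - (pI 0 : ℝ)) * (1 - q.2)))) (sqr t) := by
    funext t
    have hm := SPN.sqr_mem hPP t
    generalize sqr t = m at hm
    show Φ (min m.1 0, m.2) =
      δ (pI (lon m / (2 * Real.pi))) (pI (1 - (2 - (pI 0 : ℝ)) * (1 - lat m)))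
    rw [hpI0, sub_zero]
    rcases le_total 0 m.1 with h | h
    · rw [min_eq_right h, hΦ2 _ rfl]
      exact (cell_l _ _ (by linarith [lat_le h])).symm
    · rw [min_eq_left h, hΦ1 m hm]
      have e2 : (1 - 2 * (1 - lat m) : ℝ) = 2 * lat m - 1 := by ring
      rw [e2]
      exact hc_hi _ _ _ (lat_ge h)
  have v4 : (fun t => sph2 (fun q : ℝ × ℝ => δ (pI q.1)
      (pI (1 - (2 - (pI 1 : ℝ)) * (1 - q.2)))) (sqr t)) = sphP δ := by
    funext t
    show δ (pI (lon (sqr t) / (2 * Real.pi))) (pI (1 - (2 - (pI 1 : ℝ)) * (1 - lat (sqr t)))) =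
      δ (pI (lon (sqr t) / (2 * Real.pi))) (pI (lat (sqr t)))
    rw [hpI1]
    congr 2
    ring
  rw [h1, u3, v3, u2, v2, u4, v4]

end Pool.Agent.Helper70.HH


end

/-! ## Helper71.BI7.M_SCB -/

section

/-!
# Project BI, stage 7 (H), module SCB: the covering space of the punctured tube is simply connected
-/

set_option autoImplicit false

open scoped Topology unitInterval
open Set Pool.Agent.Helper65.Barb Pool.Agent.Helper18.BI

namespace Pool.Agent.Helper70.HH

namespace SCB

/-- the half plane times the punctured space -/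
private abbrev W (κ : ℝ) : Type := {z : ℂ × R3 // z.1.re < κ ∧ z.2 ≠ 0}

/-- the complement of a ray -/
private def Om (κ : ℝ) (d : R3) : Set (ℂ × R3) := {z | z.1.re < κ ∧ ∀ r : ℝ, 0 ≤ r → z.2 ≠ r • d}

private theorem Om_star (κ : ℝ) {d : R3} (hd : d ≠ 0) :
    StarConvex ℝ (((κ - 1 : ℝ) : ℂ), -d) (Om κ d) := by
  intro z hz a b ha hb hab
  refine ⟨?_, ?_⟩
  · show (a • (((κ - 1 : ℝ) : ℂ)) + b • z.1).re < κ
    rw [Complex.add_re, Complex.real_smul, Complex.real_smul, Complex.re_ofReal_mul,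
      Complex.re_ofReal_mul, Complex.ofReal_re]
    have h1 := hz.1
    have h2 : b * z.1.re ≤ b * κ := mul_le_mul_of_nonneg_left h1.le hb
    rcases eq_or_lt_of_le ha with h | h
    · have hb1 : b = 1 := by linarith
      rw [← h, hb1]
      linarith
    · have : a * (κ - 1) < a * κ := by nlinarith
      calc a * (κ - 1) + b * z.1.re < a * κ + b * κ := by linarith
        _ = κ := by rw [← add_mul, hab, one_mul]
  · intro r hr h
    have h' : a • -d + b • z.2 = r • d := h
    have h2 : b • z.2 = (r + a) • d := by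
      rw [add_smul, ← h', smul_neg]
      abel
    rcases eq_or_lt_of_le hb with h0 | h0
    · rw [← h0, zero_smul] at h2
      have ha1 : a = 1 := by linarith
      rcases smul_eq_zero.1 h2.symm with h3 | h3
      · rw [ha1] at h3
        linarith
      · exact hd h3
    · refine hz.2 ((r + a) / b) (div_nonneg (by linarith) hb) ?_
      rw [div_eq_inv_mul, mul_smul, ← h2, smul_smul, inv_mul_cancel₀ h0.ne', one_smul]

/-- a direction avoided by a smooth path -/
private theorem avoid {m : ℝ → R3} (hm : ContDiff ℝ 1 m) :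
    ∃ d : R3, d ≠ 0 ∧ ∀ t, m t ≠ 0 → ∀ r : ℝ, 0 ≤ r → m t ≠ r • d := by
  have hc : ContDiff ℝ 1 fun z : ℝ × ℝ => z.1 • m z.2 :=
    contDiff_fst.smul (hm.comp contDiff_snd)
  have hf : Module.finrank ℝ (ℝ × ℝ) < Module.finrank ℝ R3 := by
    have h1 : Module.finrank ℝ (ℝ × ℝ) = 2 := by simp
    have h2 : Module.finrank ℝ (ℝ × ℂ) = 3 := by
      rw [Module.finrank_prod, Module.finrank_self, Complex.finrank_real_complex]
    rw [h1]
    show 2 < Module.finrank ℝ (ℝ × ℂ)
    rw [h2]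
    norm_num
  obtain ⟨d, hd⟩ := (hc.dense_compl_range_of_finrank_lt_finrank hf).nonempty
  refine ⟨d, ?_, ?_⟩
  · rintro rfl
    exact hd ⟨(0, 0), by simp⟩
  · intro t h0 r hr h
    rcases eq_or_lt_of_le hr with h1 | h1
    · rw [← h1, zero_smul] at h
      exact h0 h
    · refine hd ⟨(r⁻¹, t), ?_⟩
      show r⁻¹ • m t = d
      rw [h, smul_smul, inv_mul_cancel₀ h1.ne', one_smul]

private theorem Om_sub {κ : ℝ} {d : R3} {z : ℂ × R3} (h : z ∈ Om κ d) : z.1.re < κ ∧ z.2 ≠ 0 :=
  ⟨h.1, by simpa using h.2 0 le_rfl⟩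

/-- the inclusion -/
private def jj (κ : ℝ) (d : R3) (z : Om κ d) : W κ := ⟨z.1, Om_sub z.2⟩

private theorem cont_jj (κ : ℝ) (d : R3) : Continuous (jj κ d) :=
  Continuous.subtype_mk continuous_subtype_val _

private theorem Om_sc (κ : ℝ) {d : R3} (hd : d ≠ 0) : SimplyConnectedSpace (Om κ d) := by
  have hne : (Om κ d).Nonempty := by
    refine ⟨(((κ - 1 : ℝ) : ℂ), -d), ?_, ?_⟩
    · show (((κ - 1 : ℝ) : ℂ)).re < κ
      rw [Complex.ofReal_re]
      linarith
    · intro r hr h
      have h' : -d = r • d := h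
      have h2 : (r + 1) • d = 0 := by
        rw [add_smul, one_smul, ← h']
        abel
      rcases smul_eq_zero.1 h2 with h3 | h3
      · linarith
      · exact hd h3
  have := (Om_star κ hd).contractibleSpace hne
  exact SimplyConnectedSpace.ofContractible _

/-- approximation of a loop by a polynomial loop -/
private theorem approx (m : I → R3) (hm : Continuous m) (x : R3) (h0 : m 0 = x) (h1 : m 1 = x)
    (δ : ℝ) (hδ : 0 < δ) : ∃ q : ℝ → R3, ContDiff ℝ 1 q ∧ q 0 = x ∧ q 1 = x ∧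
      ∀ t : I, ‖q t - m t‖ < δ := by
  let m' : ℝ → R3 := fun t => m (projIcc 0 1 zero_le_one t)
  have cm' : Continuous m' := hm.comp continuous_projIcc
  have e0 : m' 0 = x := by
    show m (projIcc 0 1 zero_le_one 0) = x
    rw [projIcc_left]
    exact h0
  have e1 : m' 1 = x := by
    show m (projIcc 0 1 zero_le_one 1) = x
    rw [projIcc_right]
    exact h1
  obtain ⟨p1, hp1⟩ := exists_polynomial_near_of_continuousOn 0 1 (fun t => (m' t).1)
    (by fun_prop) (δ / 8) (by linarith)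
  obtain ⟨p2, hp2⟩ := exists_polynomial_near_of_continuousOn 0 1 (fun t => (m' t).2.re)
    (by fun_prop) (δ / 8) (by linarith)
  obtain ⟨p3, hp3⟩ := exists_polynomial_near_of_continuousOn 0 1 (fun t => (m' t).2.im)
    (by fun_prop) (δ / 8) (by linarith)
  let P : ℝ → R3 := fun t => (p1.eval t, ((p2.eval t : ℝ) : ℂ) + ((p3.eval t : ℝ) : ℂ) * Complex.I)
  have cP : ContDiff ℝ 1 P := by
    have c1 : ContDiff ℝ 1 fun t : ℝ => p1.eval t := by
      simpa using p1.contDiff_aeval (𝕜 := ℝ) 1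
    have c2 : ContDiff ℝ 1 fun t : ℝ => p2.eval t := by
      simpa using p2.contDiff_aeval (𝕜 := ℝ) 1
    have c3 : ContDiff ℝ 1 fun t : ℝ => p3.eval t := by
      simpa using p3.contDiff_aeval (𝕜 := ℝ) 1
    exact c1.prodMk ((Complex.ofRealCLM.contDiff.comp c2).add
      ((Complex.ofRealCLM.contDiff.comp c3).mul contDiff_const))
  have hP : ∀ t ∈ Icc (0 : ℝ) 1, ‖P t - m' t‖ < δ / 2 := by
    intro t ht
    have a1 := hp1 t ht
    have a2 := hp2 t ht
    have a3 := hp3 t ht
    have hn : ‖P t - m' t‖ = max ‖(P t - m' t).1‖ ‖(P t - m' t).2‖ := Prod.norm_def _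
    rw [hn]
    refine max_lt ?_ ?_
    · show |p1.eval t - (m' t).1| < δ / 2
      linarith
    · have h2 : ‖(P t - m' t).2‖ ≤ |((P t - m' t).2).re| + |((P t - m' t).2).im| :=
        Complex.norm_le_abs_re_add_abs_im _
      have r1 : ((P t - m' t).2).re = p2.eval t - (m' t).2.re := by
        show ((((p2.eval t : ℝ) : ℂ) + ((p3.eval t : ℝ) : ℂ) * Complex.I) - (m' t).2).re = _
        simp
      have r2 : ((P t - m' t).2).im = p3.eval t - (m' t).2.im := by
        show ((((p2.eval t : ℝ) : ℂ) + ((p3.eval t : ℝ) : ℂ) * Complex.I) - (m' t).2).im = _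
        simp
      rw [r1, r2] at h2
      linarith
  refine ⟨fun t => P t + ((1 - t) • (x - P 0) + t • (x - P 1)), ?_, ?_, ?_, ?_⟩
  · exact cP.add (((contDiff_const.sub contDiff_id).smul contDiff_const).add
      (contDiff_id.smul contDiff_const))
  · show P 0 + ((1 - (0 : ℝ)) • (x - P 0) + (0 : ℝ) • (x - P 1)) = x
    rw [sub_zero, one_smul, zero_smul, add_zero]
    abel
  · show P 1 + ((1 - (1 : ℝ)) • (x - P 0) + (1 : ℝ) • (x - P 1)) = x
    rw [sub_self, one_smul, zero_smul, zero_add]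
    abel
  · intro t
    have k0 := hP 0 ⟨le_rfl, zero_le_one⟩
    have k1 := hP 1 ⟨zero_le_one, le_rfl⟩
    have kt := hP t t.2
    rw [e0, norm_sub_rev] at k0
    rw [e1, norm_sub_rev] at k1
    have et : m' t = m t := by
      show m (projIcc 0 1 zero_le_one (t : ℝ)) = m t
      rw [projIcc_val]
    rw [et] at kt
    have k2 : ‖(1 - (t : ℝ)) • (x - P 0) + (t : ℝ) • (x - P 1)‖ ≤ δ / 2 := by
      refine (norm_add_le _ _).trans ?_
      rw [norm_smul, norm_smul, Real.norm_of_nonneg (by linarith [t.2.2]),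
        Real.norm_of_nonneg t.2.1]
      have u1 : (1 - (t : ℝ)) * ‖x - P 0‖ ≤ (1 - (t : ℝ)) * (δ / 2) :=
        mul_le_mul_of_nonneg_left k0.le (by linarith [t.2.2])
      have u2 : (t : ℝ) * ‖x - P 1‖ ≤ (t : ℝ) * (δ / 2) := mul_le_mul_of_nonneg_left k1.le t.2.1
      linarith
    calc ‖P t + ((1 - (t : ℝ)) • (x - P 0) + (t : ℝ) • (x - P 1)) - m t‖
        = ‖(P t - m t) + ((1 - (t : ℝ)) • (x - P 0) + (t : ℝ) • (x - P 1))‖ := by
          congr 1
          abel
      _ ≤ ‖P t - m t‖ + ‖(1 - (t : ℝ)) • (x - P 0) + (t : ℝ) • (x - P 1)‖ := norm_add_le _ _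
      _ < δ := by linarith

private theorem nullW (κ : ℝ) (x : W κ) (p : Path x x) : Path.Homotopic p (Path.refl x) := by
  -- a lower bound
  have cm : Continuous fun t : I => (p t).1.2 :=
    continuous_snd.comp (continuous_subtype_val.comp p.continuous)
  obtain ⟨t₀, -, ht₀⟩ := isCompact_univ.exists_isMinOn (univ_nonempty : (univ : Set I).Nonempty)
    cm.norm.continuousOn
  have hδ : 0 < ‖(p t₀).1.2‖ := norm_pos_iff.2 (p t₀).2.2
  have hmin : ∀ t : I, ‖(p t₀).1.2‖ ≤ ‖(p t).1.2‖ := fun t => ht₀ (mem_univ t)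
  obtain ⟨q, cq, q0, q1, hq⟩ := approx (fun t => (p t).1.2) cm x.1.2 (by simp) (by simp) _ hδ
  -- the segment does not meet the origin
  have hseg : ∀ (s t : I), (1 - (s : ℝ)) • (p t).1.2 + (s : ℝ) • q t ≠ 0 := by
    intro s t h
    have h1 : (s : ℝ) • (q t - (p t).1.2) = -(p t).1.2 := by
      have h2 : (1 - (s : ℝ)) • (p t).1.2 + (s : ℝ) • q t =
        (p t).1.2 + (s : ℝ) • (q t - (p t).1.2) := by
        rw [sub_smul, one_smul, smul_sub]
        abel
      rw [h2] at h
      exact eq_neg_of_add_eq_zero_right h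
    have h3 : ‖(p t).1.2‖ ≤ ‖q t - (p t).1.2‖ := by
      rw [← norm_neg (p t).1.2, ← h1, norm_smul, Real.norm_of_nonneg s.2.1]
      exact mul_le_of_le_one_left (norm_nonneg _) s.2.2
    linarith [hmin t, hq t]
  have cq' : Continuous q := cq.continuous
  have hq0 : ∀ t : I, q t ≠ 0 := by
    intro t h
    have := hseg 1 t
    rw [Icc.coe_one, sub_self, zero_smul, one_smul, zero_add] at this
    exact this h
  obtain ⟨d, hd, hav⟩ := avoid cq
  -- the new path in the complement of the ray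
  have hmem : ∀ t : I, ((p t).1.1, q t) ∈ Om κ d := fun t => ⟨(p t).2.1, hav t (hq0 t)⟩
  have hx : x.1 ∈ Om κ d := by
    have h := hmem 0
    rw [p.source, Icc.coe_zero, q0] at h
    exact h
  have cl : Continuous fun t : I => (p t).1.1 :=
    continuous_fst.comp (continuous_subtype_val.comp p.continuous)
  let Q : Path (⟨x.1, hx⟩ : Om κ d) ⟨x.1, hx⟩ :=
    { toFun := fun t => ⟨((p t).1.1, q t), hmem t⟩
      continuous_toFun := Continuous.subtype_mk (cl.prodMk (cq'.comp continuous_subtype_val)) _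
      source' := by
        apply Subtype.ext
        show ((p 0).1.1, q ((0 : I) : ℝ)) = x.1
        rw [p.source, Icc.coe_zero, q0]
      target' := by
        apply Subtype.ext
        show ((p 1).1.1, q ((1 : I) : ℝ)) = x.1
        rw [p.target, Icc.coe_one, q1] }
  have := Om_sc κ hd
  obtain ⟨H⟩ : Path.Homotopic Q (Path.refl _) := SimplyConnectedSpace.paths_homotopic _ _
  -- the two homotopies
  let R : Path x x :=
    { toFun := fun t => ⟨((p t).1.1, q t), Om_sub (hmem t)⟩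
      continuous_toFun := Continuous.subtype_mk (cl.prodMk (cq'.comp continuous_subtype_val)) _
      source' := by
        apply Subtype.ext
        show ((p 0).1.1, q ((0 : I) : ℝ)) = x.1
        rw [p.source, Icc.coe_zero, q0]
      target' := by
        apply Subtype.ext
        show ((p 1).1.1, q ((1 : I) : ℝ)) = x.1
        rw [p.target, Icc.coe_one, q1] }
  have A : Path.Homotopic p R := by
    let F : I × I → W κ := fun z =>
      ⟨((p z.2).1.1, (1 - (z.1 : ℝ)) • (p z.2).1.2 + (z.1 : ℝ) • q z.2), (p z.2).2.1, hseg z.1 z.2⟩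
    have cF : Continuous F := by
      refine Continuous.subtype_mk ((cl.comp continuous_snd).prodMk ?_) _
      have u1 : Continuous fun z : I × I => (z.1 : ℝ) := continuous_subtype_val.comp continuous_fst
      have u2 : Continuous fun z : I × I => q (z.2 : ℝ) :=
        cq'.comp (continuous_subtype_val.comp continuous_snd)
      have u3 : Continuous fun z : I × I => (p z.2).1.2 := cm.comp continuous_snd
      exact ((continuous_const.sub u1).smul u3).add (u1.smul u2)
    refine ⟨⟨⟨⟨F, cF⟩, ?_, ?_⟩, ?_⟩⟩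
    · intro t
      apply Subtype.ext
      show ((p t).1.1, (1 - ((0 : I) : ℝ)) • (p t).1.2 + ((0 : I) : ℝ) • q t) = (p t).1
      rw [Icc.coe_zero, sub_zero, one_smul, zero_smul, add_zero]
    · intro t
      apply Subtype.ext
      show ((p t).1.1, (1 - ((1 : I) : ℝ)) • (p t).1.2 + ((1 : I) : ℝ) • q t) = ((p t).1.1, q t)
      rw [Icc.coe_one, sub_self, one_smul, zero_smul, zero_add]
    · intro s t ht
      apply Subtype.ext
      show ((p t).1.1, (1 - (s : ℝ)) • (p t).1.2 + (s : ℝ) • q t) = (p t).1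
      have e : q t = (p t).1.2 := by
        rcases ht with rfl | ht
        · rw [Icc.coe_zero, q0, p.source]
        · rw [mem_singleton_iff] at ht
          rw [ht, Icc.coe_one, q1, p.target]
      rw [e, ← add_smul, sub_add_cancel, one_smul]
  have B : Path.Homotopic R (Path.refl x) := by
    refine ⟨⟨⟨⟨fun z => jj κ d (H z), (cont_jj κ d).comp H.continuous⟩, ?_, ?_⟩, ?_⟩⟩
    · intro t
      exact (congrArg (jj κ d) (H.map_zero_left t)).trans rfl
    · intro t
      exact (congrArg (jj κ d) (H.map_one_left t)).trans rfl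
    · intro s t ht
      exact (congrArg (jj κ d) (H.eq_fst s ht)).trans rfl
  exact A.trans B

private theorem pathW (κ : ℝ) : PathConnectedSpace (W κ) := by
  refine ⟨⟨⟨(((κ - 1 : ℝ) : ℂ), (1, 0)), ?_, ?_⟩⟩, ?_⟩
  · show (((κ - 1 : ℝ) : ℂ)).re < κ
    rw [Complex.ofReal_re]
    linarith
  · intro h
    have := congrArg Prod.fst h
    simp at this
  · intro x y
    have hm : ContDiff ℝ 1 fun t : ℝ => (1 - t) • x.1.2 + t • y.1.2 :=
      ((contDiff_const.sub contDiff_id).smul contDiff_const).add (contDiff_id.smul contDiff_const)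
    obtain ⟨d, hd, hav⟩ := avoid hm
    have hx : x.1 ∈ Om κ d := by
      refine ⟨x.2.1, ?_⟩
      have := hav 0
      simp only [sub_zero, one_smul, zero_smul, add_zero] at this
      exact this x.2.2
    have hy : y.1 ∈ Om κ d := by
      refine ⟨y.2.1, ?_⟩
      have := hav 1
      simp only [sub_self, one_smul, zero_smul, zero_add] at this
      exact this y.2.2
    have := Om_sc κ hd
    have h : Joined (⟨x.1, hx⟩ : Om κ d) ⟨y.1, hy⟩ := PathConnectedSpace.joined _ _
    exact ⟨(h.somePath.map (cont_jj κ d)).cast rfl rfl⟩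

/-! ### radial projection -/

private theorem nsq_pos {v : R3} (h : v ≠ 0) : 0 < nsq v := by
  have h0 : 0 ≤ nsq v := by
    rw [nsq]
    positivity
  refine lt_of_le_of_ne h0 fun he => h ?_
  rw [nsq] at he
  have a := sq_nonneg v.1
  have b := sq_nonneg v.2.re
  have c := sq_nonneg v.2.im
  have a0 : v.1 ^ 2 = 0 := by linarith
  have b0 : v.2.re ^ 2 = 0 := by linarith
  have c0 : v.2.im ^ 2 = 0 := by linarith
  refine Prod.ext ?_ (Complex.ext ?_ ?_)
  · exact pow_eq_zero_iff (two_ne_zero) |>.1 a0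
  · exact pow_eq_zero_iff (two_ne_zero) |>.1 b0
  · exact pow_eq_zero_iff (two_ne_zero) |>.1 c0

private theorem nsq_smul (r : ℝ) (v : R3) : nsq (r • v) = r ^ 2 * nsq v := by
  rw [nsq, nsq]
  have h1 : (r • v).1 = r * v.1 := rfl
  have h2 : (r • v).2.re = r * v.2.re := by
    show (r • v.2).re = _
    rw [Complex.real_smul, Complex.re_ofReal_mul]
  have h3 : (r • v).2.im = r * v.2.im := by
    show (r • v.2).im = _
    rw [Complex.real_smul, Complex.im_ofReal_mul]
  rw [h1, h2, h3]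
  ring

private noncomputable def rp (κ : ℝ) (z : W κ) : EE κ :=
  ⟨(z.1.1, (Real.sqrt (nsq z.1.2))⁻¹ • z.1.2), z.2.1, by
    show nsq ((Real.sqrt (nsq z.1.2))⁻¹ • z.1.2) = 1
    have h := nsq_pos z.2.2
    rw [nsq_smul, inv_pow, Real.sq_sqrt h.le, inv_mul_cancel₀ h.ne']⟩

private theorem cont_rp (κ : ℝ) : Continuous (rp κ) := by
  have c1 : Continuous fun z : W κ => z.1.2 := continuous_snd.comp continuous_subtype_val
  have c2 : Continuous fun z : W κ => nsq z.1.2 := by
    unfold nsq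
    fun_prop
  refine Continuous.subtype_mk ((continuous_fst.comp continuous_subtype_val).prodMk ?_) _
  exact ((Real.continuous_sqrt.comp c2).inv₀ fun z =>
    (Real.sqrt_pos.2 (nsq_pos z.2.2)).ne').smul c1

private def ii (κ : ℝ) (z : EE κ) : W κ := ⟨z.1, z.2.1, by
  intro h
  have h1 := z.2.2
  rw [h] at h1
  rw [nsq] at h1
  simp at h1⟩

private theorem cont_ii (κ : ℝ) : Continuous (ii κ) := Continuous.subtype_mk continuous_subtype_val _

private theorem rp_ii (κ : ℝ) (z : EE κ) : rp κ (ii κ z) = z := by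
  apply Subtype.ext
  show (z.1.1, (Real.sqrt (nsq z.1.2))⁻¹ • z.1.2) = z.1
  rw [z.2.2, Real.sqrt_one, inv_one, one_smul]

end SCB

open SCB in
theorem m_SCB : StSCB := by
  intro κ
  rw [simply_connected_iff_loops_nullhomotopic]
  have := pathW κ
  have hs : Function.Surjective (rp κ) := fun z => ⟨ii κ z, rp_ii κ z⟩
  refine ⟨hs.pathConnectedSpace (cont_rp κ), ?_⟩
  intro x p
  obtain ⟨H⟩ := nullW κ (ii κ x) (p.map (cont_ii κ))
  refine ⟨⟨⟨⟨fun z => rp κ (H z), (cont_rp κ).comp H.continuous⟩, ?_, ?_⟩, ?_⟩⟩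
  · intro t
    exact (congrArg (rp κ) (H.map_zero_left t)).trans (rp_ii κ (p t))
  · intro t
    exact (congrArg (rp κ) (H.map_one_left t)).trans (rp_ii κ x)
  · intro s t ht
    exact (congrArg (rp κ) (H.eq_fst s ht)).trans (rp_ii κ (p t))

end Pool.Agent.Helper70.HH


end
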