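import Pool.Agent.Helper18.BI.R.FinDefs
import Pool.Agent.Helper65.Barb.Defs
import Pool.Agent.Helper70.BI.C.P67
import Pool.Agent.Helper70.BI.C.P75
import Pool.Agent.Helper70.BI.C.P79

/-!
# Project BI (MP_8e98f2_gt): collected modules, part 83

The contents of the modules
* Helper89.BI7.M_CCB

in one file, so that the whole proof builds in a short time.
-/

namespace Pool.Agent.Helper18.BI
end Pool.Agent.Helper18.BI

namespace Pool.Agent.Helper18.BI.R
end Pool.Agent.Helper18.BI.R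

namespace Pool.Agent.Helper18.FinR
end Pool.Agent.Helper18.FinR

namespace Pool.Agent.Helper65.Barb
end Pool.Agent.Helper65.Barb

namespace Pool.Agent.Helper70.T
end Pool.Agent.Helper70.T


/-! ## Helper89.BI7.M_CCB -/

section

/-!
# Project BI, stage 7 (H), module CCB: vertical composition of closed 2-cells
-/

set_option autoImplicit false

open scoped Topology unitInterval
open Set Pool.Agent.Helper65.Barb Pool.Agent.Helper18.BI
open Pool.Agent.Helper18.FinR (sqr)
open Pool.Agent.Helper18.BI.R (S2)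
open Pool.Agent.Helper70.T

namespace Pool.Agent.Helper70.HH

namespace CCB

section

variable {X : Type} [TopologicalSpace X] {x y : X}

/-- the values of a cell, with real parameters -/
noncomputable def cel {p q : Path x y} (γ : Path p q) (a b : ℝ) : X :=
  γ (projIcc (0 : ℝ) 1 zero_le_one a) (projIcc (0 : ℝ) 1 zero_le_one b)

theorem pj_cont : Continuous (projIcc (0 : ℝ) 1 zero_le_one) := continuous_projIcc

theorem cel_cont {p q : Path x y} (γ : Path p q) : Continuous fun z : ℝ × ℝ => cel γ z.1 z.2 := by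
  have h : Continuous fun z : ℝ × ℝ => ((projIcc (0 : ℝ) 1 zero_le_one z.1,
      projIcc (0 : ℝ) 1 zero_le_one z.2) : I × I) :=
    (pj_cont.comp continuous_fst).prodMk (pj_cont.comp continuous_snd)
  exact (raw γ).continuous.comp h

theorem cel_le {p q : Path x y} (γ : Path p q) {a : ℝ} (b : ℝ) (ha : a ≤ 0) :
    cel γ a b = p (projIcc (0 : ℝ) 1 zero_le_one b) := by
  unfold cel
  rw [projIcc_of_le_left _ ha]
  have h : γ (⟨0, left_mem_Icc.2 zero_le_one⟩ : I) = p := γ.source
  rw [h]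

theorem cel_ge {p q : Path x y} (γ : Path p q) {a : ℝ} (b : ℝ) (ha : 1 ≤ a) :
    cel γ a b = q (projIcc (0 : ℝ) 1 zero_le_one b) := by
  unfold cel
  rw [projIcc_of_right_le _ ha]
  have h : γ (⟨1, right_mem_Icc.2 zero_le_one⟩ : I) = q := γ.target
  rw [h]

theorem cel_zero {p q : Path x y} (γ : Path p q) (a : ℝ) : cel γ a 0 = x := by
  unfold cel
  rw [projIcc_left]
  exact (γ (projIcc (0 : ℝ) 1 zero_le_one a)).source

theorem cel_one {p q : Path x y} (γ : Path p q) (a : ℝ) : cel γ a 1 = y := by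
  unfold cel
  rw [projIcc_right]
  exact (γ (projIcc (0 : ℝ) 1 zero_le_one a)).target

theorem cel_lo {p q r : Path x y} (γ : Path p q) (δ : Path q r) {a : ℝ} (b : ℝ) (h0 : 0 ≤ a)
    (h1 : a ≤ 1 / 2) : cel (γ.trans δ) a b = cel γ (2 * a) b := by
  unfold cel
  have ha : a ∈ Icc (0 : ℝ) 1 := ⟨h0, by linarith⟩
  have ha2 : 2 * a ∈ Icc (0 : ℝ) 1 := ⟨by linarith, by linarith⟩
  rw [projIcc_of_mem _ ha, projIcc_of_mem _ ha2, Path.trans_apply, dif_pos h1]

theorem cel_hi {p q r : Path x y} (γ : Path p q) (δ : Path q r) {a : ℝ} (b : ℝ) (h0 : 1 / 2 < a)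
    (h1 : a ≤ 1) : cel (γ.trans δ) a b = cel δ (2 * a - 1) b := by
  unfold cel
  have ha : a ∈ Icc (0 : ℝ) 1 := ⟨by linarith, h1⟩
  have ha2 : 2 * a - 1 ∈ Icc (0 : ℝ) 1 := ⟨by linarith, by linarith⟩
  rw [projIcc_of_mem _ ha, projIcc_of_mem _ ha2, Path.trans_apply, dif_neg (not_le.2 h0)]

/-- families of spheres of a closed cell -/
theorem fam (hPQ : StPQ) {p : Path x y} (γ : Path p p) (φ : ℝ × ℝ → ℝ) (hφ : Continuous φ)
    (h0 : ∀ u, φ (u, 0) ≤ 0 ∨ 1 ≤ φ (u, 0)) (h1 : ∀ u, φ (u, 1) ≤ 0 ∨ 1 ≤ φ (u, 1)) :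
    ContinuousOn (fun w : ℝ × R3 => sph2 (fun z => cel γ (φ (w.1, z.1)) z.2) w.2)
      (univ ×ˢ S2) := by
  refine (hPQ X ℝ (fun w => cel γ (φ (w.1, w.2.1)) w.2.2) ?_ ?_ ?_ ?_).1
  · refine Continuous.continuousOn ?_
    exact (cel_cont γ).comp ((hφ.comp (continuous_fst.prodMk
      (continuous_fst.comp continuous_snd))).prodMk (continuous_snd.comp continuous_snd))
  · intro u v _
    have e0 : cel γ (φ (u, 0)) v = p (projIcc (0 : ℝ) 1 zero_le_one v) := by
      rcases h0 u with h | h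
      · exact cel_le γ v h
      · exact cel_ge γ v h
    have e1 : cel γ (φ (u, 1)) v = p (projIcc (0 : ℝ) 1 zero_le_one v) := by
      rcases h1 u with h | h
      · exact cel_le γ v h
      · exact cel_ge γ v h
    exact e0.trans e1.symm
  · intro u ρ _
    exact (cel_zero γ _).trans (cel_zero γ _).symm
  · intro u ρ _
    exact (cel_one γ _).trans (cel_one γ _).symm

theorem fam0 (hPQ : StPQ) {p : Path x y} (γ : Path p p) (φ : ℝ → ℝ) (hφ : Continuous φ)
    (h0 : φ 0 ≤ 0 ∨ 1 ≤ φ 0) (h1 : φ 1 ≤ 0 ∨ 1 ≤ φ 1) :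
    ContinuousOn (fun m : R3 => sph2 (fun z => cel γ (φ z.1) z.2) m) S2 := by
  have h : ContinuousOn (fun w : ℝ × R3 => sph2 (fun z => cel γ (φ z.1) z.2) w.2)
      (univ ×ˢ S2) := by
    have h5 : Continuous fun w : ℝ × ℝ => φ w.2 := hφ.comp continuous_snd
    exact fam hPQ γ (fun w => φ w.2) h5 (fun _ => h0) (fun _ => h1)
  have h2 : ContinuousOn (fun m : R3 => ((0 : ℝ), m)) S2 :=
    (continuous_const.prodMk continuous_id).continuousOn
  have h3 : MapsTo (fun m : R3 => ((0 : ℝ), m)) S2 (univ ×ˢ S2) := fun m hm => ⟨mem_univ _, hm⟩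
  have h4 := ContinuousOn.comp h h2 h3
  have h5 : ((fun w : ℝ × R3 => sph2 (fun z => cel γ (φ z.1) z.2) w.2) ∘
      fun m : R3 => ((0 : ℝ), m)) = fun m : R3 => sph2 (fun z => cel γ (φ z.1) z.2) m := by
    funext m
    rw [Function.comp_apply]
  rw [h5] at h4
  exact h4

theorem famH (hPP : StPP) (hPQ : StPQ) {p : Path x y} (γ : Path p p) (φ : ℝ × ℝ → ℝ)
    (hφ : Continuous φ) (h0 : ∀ u, φ (u, 0) ≤ 0 ∨ 1 ≤ φ (u, 0))
    (h1 : ∀ u, φ (u, 1) ≤ 0 ∨ 1 ≤ φ (u, 1)) :
    Hfree (fun t => sph2 (fun z => cel γ (φ (0, z.1)) z.2) (sqr t))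
      (fun t => sph2 (fun z => cel γ (φ (1, z.1)) z.2) (sqr t)) := by
  refine ⟨fun w => sph2 (fun z => cel γ (φ (w.1, z.1)) z.2) (sqr w.2), ?_, fun _ => rfl,
    fun _ => rfl, ?_⟩
  · have h := fam hPQ γ φ hφ h0 h1
    have h2 : ContinuousOn (fun w : ℝ × (Fin 2 → I) => (w.1, sqr w.2)) (Icc (0 : ℝ) 1 ×ˢ univ) :=
      (continuous_fst.prodMk (R.EXC.continuous_sqr.comp continuous_snd)).continuousOn
    exact h.comp h2 fun w _ => ⟨mem_univ _, SPN.sqr_mem hPP _⟩
  · intro u _ t ht t' ht'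
    show sph2 _ (sqr t) = sph2 _ (sqr t')
    rw [SPN.sqr_bd ht, SPN.sqr_bd ht']

end

/-! ## rotations -/

/-- rotation of the plane of the first coordinate and the imaginary part -/
noncomputable def Rt (θ : ℝ) (m : R3) : R3 :=
  (m.1 * Real.cos θ - m.2.im * Real.sin θ, ⟨m.2.re, m.1 * Real.sin θ + m.2.im * Real.cos θ⟩)

/-- the rotation by a right angle -/
noncomputable def Ti (m : R3) : R3 := (-m.2.im, ⟨m.2.re, m.1⟩)

theorem Rt_mem (θ : ℝ) {m : R3} (hm : m ∈ S2) : Rt θ m ∈ S2 := by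
  have h : m.1 ^ 2 + m.2.re ^ 2 + m.2.im ^ 2 = 1 := hm
  show (m.1 * Real.cos θ - m.2.im * Real.sin θ) ^ 2 + m.2.re ^ 2 +
    (m.1 * Real.sin θ + m.2.im * Real.cos θ) ^ 2 = 1
  have h1 := Real.sin_sq_add_cos_sq θ
  calc (m.1 * Real.cos θ - m.2.im * Real.sin θ) ^ 2 + m.2.re ^ 2 +
        (m.1 * Real.sin θ + m.2.im * Real.cos θ) ^ 2
      = (m.1 ^ 2 + m.2.im ^ 2) * (Real.sin θ ^ 2 + Real.cos θ ^ 2) + m.2.re ^ 2 := by ring
    _ = 1 := by rw [h1]; linarith

theorem Rt_cont : Continuous fun z : ℝ × R3 => Rt z.1 z.2 := by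
  have hc : Continuous fun z : ℝ × R3 => Real.cos z.1 := Real.continuous_cos.comp continuous_fst
  have hs : Continuous fun z : ℝ × R3 => Real.sin z.1 := Real.continuous_sin.comp continuous_fst
  have ha : Continuous fun z : ℝ × R3 => z.2.1 := continuous_fst.comp continuous_snd
  have hr : Continuous fun z : ℝ × R3 => z.2.2.re :=
    Complex.continuous_re.comp (continuous_snd.comp continuous_snd)
  have hi : Continuous fun z : ℝ × R3 => z.2.2.im :=
    Complex.continuous_im.comp (continuous_snd.comp continuous_snd)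
  refine Continuous.prodMk ((ha.mul hc).sub (hi.mul hs)) ?_
  exact Complex.equivRealProdCLM.symm.continuous.comp
    (hr.prodMk ((ha.mul hs).add (hi.mul hc)))

theorem Rt_zero (m : R3) : Rt 0 m = m := by
  refine Prod.ext ?_ (Complex.ext ?_ ?_) <;> simp [Rt]

theorem Rt_pi (m : R3) : Rt (Real.pi / 2) m = Ti m := by
  refine Prod.ext ?_ (Complex.ext ?_ ?_) <;> simp [Rt, Ti]

theorem Ti_mem {m : R3} (hm : m ∈ S2) : Ti m ∈ S2 := by
  rw [← Rt_pi]
  exact Rt_mem _ hm

theorem Ti_cont : Continuous Ti := by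
  have h : Ti = fun m => Rt (Real.pi / 2) m := funext fun m => (Rt_pi m).symm
  rw [h]
  exact Rt_cont.comp (continuous_const.prodMk continuous_id)

theorem S2_closed : IsClosed S2 := by
  have hr : Continuous fun m : R3 => m.2.re := Complex.continuous_re.comp continuous_snd
  have hi : Continuous fun m : R3 => m.2.im := Complex.continuous_im.comp continuous_snd
  have h : Continuous fun m : R3 => m.1 ^ 2 + m.2.re ^ 2 + m.2.im ^ 2 :=
    ((continuous_fst.pow 2).add (hr.pow 2)).add (hi.pow 2)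
  exact isClosed_eq h continuous_const

/-- rotation does not change the class -/
theorem rot (hPP : StPP) {X : Type} [TopologicalSpace X] {y₀ : X}
    {sq : ((Fin 2 → I) → X) → MM X y₀} (hsq : IsSC X y₀ sq) {G : R3 → X}
    (hG : ContinuousOn G S2) :
    sq (fun t => G (Ti (sqr t))) = sq (fun t => G (sqr t)) := by
  refine (hsq.free (fun t => G (sqr t)) (fun t => G (Ti (sqr t))) ?_).symm
  refine ⟨fun w => G (Rt (w.1 * (Real.pi / 2)) (sqr w.2)), ?_, ?_, ?_, ?_⟩
  · have h2 : ContinuousOn (fun w : ℝ × (Fin 2 → I) => Rt (w.1 * (Real.pi / 2)) (sqr w.2))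
        (Icc (0 : ℝ) 1 ×ˢ univ) :=
      (Rt_cont.comp ((continuous_fst.mul continuous_const).prodMk
        (R.EXC.continuous_sqr.comp continuous_snd))).continuousOn
    exact hG.comp h2 fun w _ => Rt_mem _ (SPN.sqr_mem hPP _)
  · intro t
    show G (Rt (0 * (Real.pi / 2)) (sqr t)) = G (sqr t)
    rw [zero_mul, Rt_zero]
  · intro t
    show G (Rt (1 * (Real.pi / 2)) (sqr t)) = G (Ti (sqr t))
    rw [one_mul, Rt_pi]
  · intro u _ t ht t' ht'
    show G (Rt (u * (Real.pi / 2)) (sqr t)) = G (Rt (u * (Real.pi / 2)) (sqr t'))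
    rw [SPN.sqr_bd ht, SPN.sqr_bd ht']

/-- longitude of the points with nonnegative imaginary part -/
theorem lon_lo {m : R3} (h : 0 ≤ m.2.im) : 0 ≤ lon m / (2 * Real.pi) ∧
    lon m / (2 * Real.pi) ≤ 1 / 2 := by
  have hpi := Real.pi_pos
  have h1 : 0 ≤ m.2.arg := Complex.arg_nonneg_iff.2 h
  have h2 := Complex.arg_le_pi m.2
  rw [lon, if_pos h1]
  constructor
  · positivity
  · rw [div_le_iff₀ (by positivity)]
    linarith

theorem lon_hi {m : R3} (h : m.2.im < 0) : 1 / 2 < lon m / (2 * Real.pi) ∧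
    lon m / (2 * Real.pi) ≤ 1 := by
  have hpi := Real.pi_pos
  have h1 : m.2.arg < 0 := Complex.arg_neg_iff.2 h
  have h2 := Complex.neg_pi_lt_arg m.2
  rw [lon, if_neg (not_le.2 h1)]
  constructor
  · rw [lt_div_iff₀ (by positivity)]
    linarith
  · rw [div_le_iff₀ (by positivity)]
    linarith

theorem lon_im {m : R3} (h : m.2.im = 0) : lon m / (2 * Real.pi) = 0 ∨
    lon m / (2 * Real.pi) = 1 / 2 := by
  have hpi := Real.pi_pos
  rcases le_or_gt 0 m.2.re with h1 | h1
  · left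
    have h2 : m.2.arg = 0 := Complex.arg_eq_zero_iff.2 ⟨h1, h⟩
    rw [lon, h2, if_pos le_rfl, zero_div]
  · right
    have h2 : m.2.arg = Real.pi := Complex.arg_eq_pi_iff.2 ⟨h1, h⟩
    rw [lon, h2, if_pos hpi.le]
    field_simp

end CCB

open CCB

theorem m_CCB (hPP : StPP) (hPQ : StPQ) (hADD : StADD) : StCCB := by
  intro X _ y₀ sq hsq x y p γ δ
  -- the value of `p` at the point with first coordinate `h`
  let e : ℝ → X := fun h => p (projIcc (0 : ℝ) 1 zero_le_one (Real.arccos h / Real.pi))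
  have he : Continuous e := p.continuous.comp (pj_cont.comp
    (Real.continuous_arccos.div_const _))
  let f : R3 → X := sph2 (fun z => cel (γ.trans δ) z.1 z.2)
  let G1 : R3 → X := sph2 (fun z => cel γ (2 * z.1) z.2)
  let G2 : R3 → X := sph2 (fun z => cel δ (2 * z.1 - 1) z.2)
  have hf : ContinuousOn f S2 :=
    fam0 hPQ (γ.trans δ) (fun a => a) continuous_id (Or.inl le_rfl) (Or.inr le_rfl)
  have hG1 : ContinuousOn G1 S2 :=
    fam0 hPQ γ (fun a => 2 * a) (continuous_const.mul continuous_id) (Or.inl (by norm_num))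
      (Or.inr (by norm_num))
  have hG2 : ContinuousOn G2 S2 :=
    fam0 hPQ δ (fun a => 2 * a - 1) ((continuous_const.mul continuous_id).sub continuous_const)
      (Or.inl (by norm_num)) (Or.inr (by norm_num))
  -- values
  have f_lo : ∀ m : R3, 0 ≤ m.2.im → f m = G1 m := fun m h =>
    cel_lo γ δ (lat m) (lon_lo h).1 (lon_lo h).2
  have f_hi : ∀ m : R3, m.2.im < 0 → f m = G2 m := fun m h =>
    cel_hi γ δ (lat m) (lon_hi h).1 (lon_hi h).2
  have G1_neg : ∀ m : R3, m.2.im ≤ 0 → G1 m = e m.1 := by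
    intro m h
    show cel γ (2 * (lon m / (2 * Real.pi))) (lat m) = _
    rcases lt_or_eq_of_le h with h | h
    · exact cel_ge γ _ (by linarith [(lon_hi h).1])
    · rcases lon_im h with h2 | h2
      · rw [h2]
        exact cel_le γ _ (by norm_num)
      · rw [h2]
        exact cel_ge γ _ (by norm_num)
  have G2_pos : ∀ m : R3, 0 ≤ m.2.im → G2 m = e m.1 := by
    intro m h
    show cel δ (2 * (lon m / (2 * Real.pi)) - 1) (lat m) = _
    exact cel_le δ _ (by linarith [(lon_lo h).2])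
  have f_im : ∀ m : R3, m.2.im = 0 → f m = e m.1 := fun m h =>
    (f_lo m h.ge).trans (G1_neg m h.le)
  -- the extension to the disk
  let Ψ : R3 → X := fun m => if m.2.im = 0 then e m.1 else f m
  have hΨf : ∀ m : R3, Ψ m = f m := by
    intro m
    show (if m.2.im = 0 then e m.1 else f m) = f m
    split_ifs with h
    · exact (f_im m h).symm
    · rfl
  have hΨe : ∀ m : R3, m.2.im = 0 → Ψ m = e m.1 := fun m h => if_pos h
  have hΨc : ContinuousOn Ψ (S2 ∪ {m : R3 | m.2.im = 0}) := by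
    refine ContinuousOn.union_of_isClosed ?_ ?_ S2_closed ?_
    · exact hf.congr fun m _ => hΨf m
    · exact ((he.comp continuous_fst).continuousOn).congr fun m hm => hΨe m hm
    · exact isClosed_eq (Complex.continuous_im.comp continuous_snd) continuous_const
  have hΦ : ContinuousOn (fun m => Ψ (Ti m)) UU := by
    refine hΨc.comp Ti_cont.continuousOn ?_
    rintro m (hm | hm)
    · exact Or.inl (Ti_mem hm)
    · exact Or.inr hm.1
  have key := hADD X y₀ sq hsq (fun m => Ψ (Ti m)) hΦ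
  have e1 : sq (fun t => Ψ (Ti (sqr t))) = sq (sphP (γ.trans δ)) := by
    have h1 : (fun t => Ψ (Ti (sqr t))) = fun t => f (Ti (sqr t)) := funext fun t => hΨf _
    rw [h1, rot hPP hsq hf]
    rfl
  have e2 : sq (fun t => Ψ (Ti (max (sqr t).1 0, (sqr t).2))) = sq (sphP γ) := by
    have h1 : (fun t => Ψ (Ti (max (sqr t).1 0, (sqr t).2))) = fun t => G1 (Ti (sqr t)) := by
      funext t
      rcases le_total (sqr t).1 0 with h | h
      · rw [max_eq_right h, hΨe _ rfl, G1_neg (Ti (sqr t)) h]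
        rfl
      · rw [max_eq_left h]
        exact (hΨf _).trans (f_lo _ h)
    rw [h1, rot hPP hsq hG1]
    have h2 := famH hPP hPQ γ (fun w => max 1 (2 - w.1) * w.2)
      ((continuous_const.max (continuous_const.sub continuous_fst)).mul continuous_snd)
      (fun u => Or.inl (by simp)) (fun u => Or.inr (by simp))
    have h3 := hsq.free _ _ h2
    have h4 : (fun t => sph2 (fun z => cel γ (max 1 (2 - (0 : ℝ)) * z.1) z.2) (sqr t)) =
        fun t => G1 (sqr t) := by
      funext t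
      have h5 : max 1 (2 - (0 : ℝ)) = 2 := by norm_num
      rw [h5]
    have h6 : (fun t => sph2 (fun z => cel γ (max 1 (2 - (1 : ℝ)) * z.1) z.2) (sqr t)) =
        sphP γ := by
      funext t
      have h5 : max 1 (2 - (1 : ℝ)) = 1 := by norm_num
      rw [h5]
      simp only [one_mul]
      rfl
    rw [← h4, ← h6]
    exact h3
  have e3 : sq (fun t => Ψ (Ti (min (sqr t).1 0, (sqr t).2))) = sq (sphP δ) := by
    have h1 : (fun t => Ψ (Ti (min (sqr t).1 0, (sqr t).2))) = fun t => G2 (Ti (sqr t)) := by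
      funext t
      rcases lt_or_ge (sqr t).1 0 with h | h
      · rw [min_eq_left h.le]
        exact (hΨf _).trans (f_hi _ h)
      · rw [min_eq_right h, hΨe _ rfl, G2_pos (Ti (sqr t)) h]
        rfl
    rw [h1, rot hPP hsq hG2]
    have h2 := famH hPP hPQ δ (fun w => 1 - max 1 (2 - w.1) * (1 - w.2))
      (continuous_const.sub ((continuous_const.max (continuous_const.sub continuous_fst)).mul
        (continuous_const.sub continuous_snd)))
      (fun u => Or.inl (by simp)) (fun u => Or.inr (by simp))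
    have h3 := hsq.free _ _ h2
    have h4 : (fun t => sph2 (fun z => cel δ (1 - max 1 (2 - (0 : ℝ)) * (1 - z.1)) z.2) (sqr t)) =
        fun t => G2 (sqr t) := by
      funext t
      have h5 : max 1 (2 - (0 : ℝ)) = 2 := by norm_num
      rw [h5]
      have h6 : ∀ a : ℝ, 1 - 2 * (1 - a) = 2 * a - 1 := fun a => by ring
      simp only [h6]
      rfl
    have h6 : (fun t => sph2 (fun z => cel δ (1 - max 1 (2 - (1 : ℝ)) * (1 - z.1)) z.2) (sqr t)) =
        sphP δ := by
      funext t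
      have h5 : max 1 (2 - (1 : ℝ)) = 1 := by norm_num
      rw [h5]
      have h6 : ∀ a : ℝ, 1 - 1 * (1 - a) = a := fun a => by ring
      simp only [h6]
      rfl
    rw [← h4, ← h6]
    exact h3
  rw [← e1, ← e2, ← e3]
  exact key

end Pool.Agent.Helper70.HH


end
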