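import Pool.Agent.Helper18.BI.R.FinDefs
import Pool.Agent.Helper65.Barb.Defs
import Pool.Agent.Helper70.BI.C.P67
import Pool.Agent.Helper70.BI.C.P78

/-!
# Project BI (MP_8e98f2_gt): collected modules, part 84

The contents of the modules
* Helper71.BI7.M_ADD

in one file, so that the whole proof builds in a short time.
-/

namespace Pool.Agent.Helper18.BI
end Pool.Agent.Helper18.BI

namespace Pool.Agent.Helper18.BI.R
end Pool.Agent.Helper18.BI.R

namespace Pool.Agent.Helper18.FinR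
end Pool.Agent.Helper18.FinR

namespace Pool.Agent.Helper65.Barb
end Pool.Agent.Helper65.Barb

namespace Pool.Agent.Helper70.T
end Pool.Agent.Helper70.T


/-! ## Helper71.BI7.M_ADD -/

section

/-!
# Project BI, stage 7 (H), module ADD: additivity for the sphere with equatorial disk
-/

set_option autoImplicit false

open scoped Topology unitInterval
open Set Pool.Agent.Helper65.Barb Pool.Agent.Helper18.BI
open Pool.Agent.Helper18.FinR (sqr)
open Pool.Agent.Helper18.BI.R (S2)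
open Pool.Agent.Helper70.T

namespace Pool.Agent.Helper70.HH

namespace ADD

/-! ### the parametrization of the sphere by the square -/

private theorem sqr_mem (t : Fin 2 → I) : sqr t ∈ S2 := by
  show (sqr t).1 ^ 2 + (sqr t).2.re ^ 2 + (sqr t).2.im ^ 2 = 1
  simp only [sqr]
  have h0 := Real.sin_sq_add_cos_sq (Real.pi * (t 0 : ℝ))
  have h1 := Real.sin_sq_add_cos_sq (Real.pi * (t 1 : ℝ))
  have h0' : Real.cos (Real.pi * (t 0 : ℝ)) ^ 2 = 1 - Real.sin (Real.pi * (t 0 : ℝ)) ^ 2 := by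
    linarith
  have h1' : Real.cos (Real.pi * (t 1 : ℝ)) ^ 2 = 1 - Real.sin (Real.pi * (t 1 : ℝ)) ^ 2 := by
    linarith
  generalize Real.sin (Real.pi * (t 0 : ℝ)) = a at *
  generalize Real.sin (Real.pi * (t 1 : ℝ)) = b at *
  generalize Real.cos (Real.pi * (t 0 : ℝ)) = A at *
  generalize Real.cos (Real.pi * (t 1 : ℝ)) = B at *
  have e : (1 - 2 * a ^ 2 * b ^ 2) ^ 2 + (-(2 * a * b * B)) ^ 2 + (2 * a * A * b ^ 2) ^ 2 =
      (1 - 2 * a ^ 2 * b ^ 2) ^ 2 + 4 * a ^ 2 * b ^ 2 * B ^ 2 + 4 * a ^ 2 * b ^ 4 * A ^ 2 := by ring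
  rw [e, h0', h1']
  ring

private theorem sqr_bd {t : Fin 2 → I} (ht : t ∈ Cube.boundary (Fin 2)) : sqr t = (1, 0) := by
  unfold sqr
  rcases mem_bd ht with h | h | h | h <;> rw [h]
  · simp
    rfl
  · simp
    rfl
  · simp
    rfl
  · simp
    rfl

private theorem continuous_sqr : Continuous sqr := by
  have h0 : Continuous fun t : Fin 2 → unitInterval => ((t 0 : unitInterval) : ℝ) :=
    continuous_subtype_val.comp (continuous_apply 0)
  have h1 : Continuous fun t : Fin 2 → unitInterval => ((t 1 : unitInterval) : ℝ) :=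
    continuous_subtype_val.comp (continuous_apply 1)
  have s0 := Real.continuous_sin.comp (continuous_const.mul h0 (f := fun _ => Real.pi))
  have s1 := Real.continuous_sin.comp (continuous_const.mul h1 (f := fun _ => Real.pi))
  have c0 := Real.continuous_cos.comp (continuous_const.mul h0 (f := fun _ => Real.pi))
  have c1 := Real.continuous_cos.comp (continuous_const.mul h1 (f := fun _ => Real.pi))
  unfold sqr
  refine Continuous.prodMk ?_ ?_
  · exact continuous_const.sub ((continuous_const.mul (s0.pow 2)).mul (s1.pow 2))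
  · refine Complex.equivRealProdCLM.symm.continuous.comp (Continuous.prodMk ?_ ?_)
    · exact (((continuous_const.mul s0).mul s1).mul c1).neg
    · exact ((continuous_const.mul s0).mul c0).mul (s1.pow 2)

/-! ### the space -/

private theorem mem_rot (ρ : ℝ) {p : R3} (hp : p ∈ UU) :
    ((p.1, Complex.exp (ρ * Complex.I) * p.2) : R3) ∈ UU := by
  have e : nsq (p.1, Complex.exp (ρ * Complex.I) * p.2) = nsq p := by
    have h1 : (Complex.exp (ρ * Complex.I) * p.2).re = Real.cos ρ * p.2.re - Real.sin ρ * p.2.im := by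
      rw [Complex.mul_re, Complex.exp_ofReal_mul_I_re, Complex.exp_ofReal_mul_I_im]
    have h2 : (Complex.exp (ρ * Complex.I) * p.2).im = Real.cos ρ * p.2.im + Real.sin ρ * p.2.re := by
      rw [Complex.mul_im, Complex.exp_ofReal_mul_I_re, Complex.exp_ofReal_mul_I_im]
    have h3 := Real.sin_sq_add_cos_sq ρ
    rw [nsq, nsq]
    simp only
    rw [h1, h2]
    calc p.1 ^ 2 + (Real.cos ρ * p.2.re - Real.sin ρ * p.2.im) ^ 2 +
          (Real.cos ρ * p.2.im + Real.sin ρ * p.2.re) ^ 2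
        = p.1 ^ 2 + (Real.sin ρ ^ 2 + Real.cos ρ ^ 2) * (p.2.re ^ 2 + p.2.im ^ 2) := by ring
      _ = p.1 ^ 2 + p.2.re ^ 2 + p.2.im ^ 2 := by rw [h3]; ring
  rcases hp with hp | hp
  · left
    show nsq _ = 1
    rw [e]
    exact hp
  · right
    exact ⟨hp.1, by rw [e]; exact hp.2⟩

private noncomputable def AU : Act {p : R3 // p ∈ UU} where
  R ρ x := ⟨(x.1.1, Complex.exp (ρ * Complex.I) * x.1.2), mem_rot ρ x.2⟩
  cont := by
    refine Continuous.subtype_mk ?_ _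
    fun_prop
  zero x := by
    apply Subtype.ext
    show (x.1.1, Complex.exp (((0 : ℝ) : ℂ) * Complex.I) * x.1.2) = x.1
    simp
  per x := by
    apply Subtype.ext
    show (x.1.1, Complex.exp (((2 * Real.pi : ℝ) : ℂ) * Complex.I) * x.1.2) = x.1
    have h : Complex.exp (((2 * Real.pi : ℝ) : ℂ) * Complex.I) = 1 := by
      push_cast
      exact Complex.exp_two_pi_mul_I
    rw [h, one_mul]

private theorem fix_of {x : {p : R3 // p ∈ UU}} (h : x.1.2 = 0) : x ∈ AU.Fix := by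
  intro ρ
  apply Subtype.ext
  show (x.1.1, Complex.exp (ρ * Complex.I) * x.1.2) = x.1
  rw [h, mul_zero, ← h]

/-- the plane set -/
private def PS (p : ℝ × ℝ) : Prop := p.1 ^ 2 + p.2 ^ 2 = 1 ∨ (p.1 = 0 ∧ p.2 ^ 2 ≤ 1)

private theorem PS.mem {p : ℝ × ℝ} (h : PS p) : ((p.1, (p.2 : ℂ)) : R3) ∈ UU := by
  rcases h with h | h
  · left
    show nsq _ = 1
    rw [nsq]
    simpa using h
  · right
    refine ⟨h.1, ?_⟩
    rw [nsq]
    simp only [Complex.ofReal_re, Complex.ofReal_im]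
    rw [h.1]
    nlinarith [h.2]

/-- the value of the swept sphere -/
private noncomputable def val (g : ℝ → ℝ × ℝ) (m : R3) : R3 :=
  ((g (lat m)).1, Complex.exp (lon m * Complex.I) * ((g (lat m)).2 : ℂ))

private noncomputable def cl (v : ℝ) : ℝ := (projIcc (0 : ℝ) 1 zero_le_one v : I)

private theorem cl_mem (v : ℝ) : cl v ∈ Icc (0 : ℝ) 1 := (projIcc (0 : ℝ) 1 zero_le_one v).2

private theorem cl_of {v : ℝ} (h : v ∈ Icc (0 : ℝ) 1) : cl v = v := by
  unfold cl
  rw [projIcc_of_mem _ h]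

private theorem cont_cl : Continuous cl := continuous_subtype_val.comp continuous_projIcc

/-- the path in the space -/
private noncomputable def lf (g : ℝ → ℝ × ℝ) (h : ∀ v ∈ Icc (0 : ℝ) 1, PS (g v)) (v : ℝ) :
    {p : R3 // p ∈ UU} :=
  ⟨((g (cl v)).1, ((g (cl v)).2 : ℂ)), (h _ (cl_mem v)).mem⟩

private theorem homo (hPP : StPP) {X : Type} [TopologicalSpace X] {Φ : R3 → X}
    (hΦ : ContinuousOn Φ UU) (c : ℝ × ℝ → ℝ × ℝ) (hc : Continuous c)
    (hP : ∀ u ∈ Icc (0 : ℝ) 1, ∀ v ∈ Icc (0 : ℝ) 1, PS (c (u, v)))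
    (h0 : ∀ u ∈ Icc (0 : ℝ) 1, (c (u, 0)).2 = 0) (h1 : ∀ u ∈ Icc (0 : ℝ) 1, (c (u, 1)).2 = 0) :
    Hfree (fun t => Φ (val (fun v => c (0, v)) (sqr t)))
      (fun t => Φ (val (fun v => c (1, v)) (sqr t))) := by
  let Γ : I × ℝ → {p : R3 // p ∈ UU} := fun z =>
    ⟨((c ((z.1 : ℝ), cl z.2)).1, ((c ((z.1 : ℝ), cl z.2)).2 : ℂ)), (hP _ z.1.2 _ (cl_mem z.2)).mem⟩
  have cΓ : Continuous Γ := by
    have h : Continuous fun z : I × ℝ => c ((z.1 : ℝ), cl z.2) :=
      hc.comp ((continuous_subtype_val.comp continuous_fst).prodMk (cont_cl.comp continuous_snd))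
    refine Continuous.subtype_mk ?_ _
    exact (continuous_fst.comp h).prodMk (Complex.continuous_ofReal.comp (continuous_snd.comp h))
  have c0 : cl 0 = 0 := cl_of ⟨le_rfl, zero_le_one⟩
  have c1 : cl 1 = 1 := cl_of ⟨zero_le_one, le_rfl⟩
  have hS := hPP.2.2.2 {p : R3 // p ∈ UU} I AU Γ cΓ.continuousOn
    (fun z => fix_of (by
      show ((c ((z : ℝ), cl 0)).2 : ℂ) = 0
      rw [c0, h0 _ z.2, Complex.ofReal_zero]))
    (fun z => fix_of (by
      show ((c ((z : ℝ), cl 1)).2 : ℂ) = 0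
      rw [c1, h1 _ z.2, Complex.ofReal_zero]))
  have hΦ' : Continuous fun x : {p : R3 // p ∈ UU} => Φ x.1 :=
    continuousOn_iff_continuous_domRestrict.1 hΦ
  have hl : ∀ t : Fin 2 → I, cl (lat (sqr t)) = lat (sqr t) := fun t =>
    cl_of (hPP.2.2.1 _ (sqr_mem t)).2.2
  refine ⟨fun z => Φ (AU.sph (fun v => Γ (projIcc (0 : ℝ) 1 zero_le_one z.1, v)) (sqr z.2)).1,
    ?_, ?_, ?_, ?_⟩
  · refine Continuous.continuousOn ?_
    refine hΦ'.comp ?_
    have h : Continuous fun z : ℝ × (Fin 2 → I) =>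
        ((projIcc (0 : ℝ) 1 zero_le_one z.1, sqr z.2) : I × R3) :=
      (continuous_projIcc.comp continuous_fst).prodMk
        (continuous_sqr.comp continuous_snd)
    exact hS.comp_continuous h fun z => ⟨mem_univ _, sqr_mem _⟩
  · intro t
    show Φ ((c (((projIcc (0 : ℝ) 1 zero_le_one 0 : I) : ℝ), cl (lat (sqr t)))).1,
      Complex.exp (lon (sqr t) * Complex.I) *
        ((c (((projIcc (0 : ℝ) 1 zero_le_one 0 : I) : ℝ), cl (lat (sqr t)))).2 : ℂ)) = _
    rw [projIcc_left, hl t]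
    rfl
  · intro t
    show Φ ((c (((projIcc (0 : ℝ) 1 zero_le_one 1 : I) : ℝ), cl (lat (sqr t)))).1,
      Complex.exp (lon (sqr t) * Complex.I) *
        ((c (((projIcc (0 : ℝ) 1 zero_le_one 1 : I) : ℝ), cl (lat (sqr t)))).2 : ℂ)) = _
    rw [projIcc_right, hl t]
    rfl
  · intro u _ t ht t' ht'
    show Φ (AU.sph (fun v => Γ (projIcc (0 : ℝ) 1 zero_le_one u, v)) (sqr t)).1 =
      Φ (AU.sph (fun v => Γ (projIcc (0 : ℝ) 1 zero_le_one u, v)) (sqr t')).1
    rw [sqr_bd ht, sqr_bd ht']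

/-! ### induced maps -/

private noncomputable def mp {U X : Type} [TopologicalSpace U] [TopologicalSpace X] (φ : U → X)
    (hφ : Continuous φ) {y : U} (f : GenLoop (Fin 2) U y) : GenLoop (Fin 2) X (φ y) :=
  ⟨⟨fun t => φ (f t), hφ.comp f.1.continuous⟩, by
    intro t ht
    exact congrArg φ (f.2 t ht)⟩

private theorem hcl_mp {U X : Type} [TopologicalSpace U] [TopologicalSpace X] (φ : U → X)
    (hφ : Continuous φ) {y : U} {f g x : GenLoop (Fin 2) U y} (h : hcl f = hcl g * hcl x) :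
    hcl (mp φ hφ f) = hcl (mp φ hφ g) * hcl (mp φ hφ x) := by
  rw [← hcl_trans] at h ⊢
  obtain ⟨H⟩ := Quotient.exact h
  refine hcl_eq_of (fun z => φ (H z)) (hφ.comp H.continuous) ?_ ?_ ?_
  · intro t
    exact congrArg φ (H.map_zero_left t)
  · intro t
    refine (congrArg φ (H.map_one_left t)).trans ?_
    show φ (if (t 0 : ℝ) ≤ 1 / 2 then
        g (Function.update t 0 (projIcc 0 1 zero_le_one (2 * (t 0 : ℝ))))
      else x (Function.update t 0 (projIcc 0 1 zero_le_one (2 * (t 0 : ℝ) - 1)))) =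
      if (t 0 : ℝ) ≤ 1 / 2 then
        φ (g (Function.update t 0 (projIcc 0 1 zero_le_one (2 * (t 0 : ℝ)))))
      else φ (x (Function.update t 0 (projIcc 0 1 zero_le_one (2 * (t 0 : ℝ) - 1))))
    split_ifs <;> rfl
  · intro u t ht
    exact congrArg φ ((H.eq_fst u ht).trans (f.2 t ht))

/-! ### the paths -/

private noncomputable def gk (κ v : ℝ) : ℝ × ℝ :=
  (Real.cos (2 * Real.pi * min v (1 / 4)) - Real.cos (2 * Real.pi * max v (3 / 4)),
    Real.sin (2 * Real.pi * min v (1 / 4)) - Real.sin (2 * Real.pi * max v (3 / 4)) - 1 -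
      κ * max 0 (1 - |4 * v - 2|))

private theorem cq : Real.cos (2 * Real.pi * (1 / 4)) = 0 := by
  rw [show 2 * Real.pi * (1 / 4) = Real.pi / 2 by ring, Real.cos_pi_div_two]

private theorem sq' : Real.sin (2 * Real.pi * (1 / 4)) = 1 := by
  rw [show 2 * Real.pi * (1 / 4) = Real.pi / 2 by ring, Real.sin_pi_div_two]

private theorem ct : Real.cos (2 * Real.pi * (3 / 4)) = 0 := by
  rw [show 2 * Real.pi * (3 / 4) = Real.pi / 2 + Real.pi by ring, Real.cos_add_pi,
    Real.cos_pi_div_two, neg_zero]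

private theorem st : Real.sin (2 * Real.pi * (3 / 4)) = -1 := by
  rw [show 2 * Real.pi * (3 / 4) = Real.pi / 2 + Real.pi by ring, Real.sin_add_pi,
    Real.sin_pi_div_two]

private theorem gk_lo {κ v : ℝ} (h : v ≤ 1 / 4) :
    gk κ v = (Real.cos (2 * Real.pi * v), Real.sin (2 * Real.pi * v)) := by
  unfold gk
  have e : max 0 (1 - |4 * v - 2|) = 0 := by
    apply max_eq_left
    rw [abs_of_nonpos (by linarith)]
    linarith
  rw [min_eq_left h, max_eq_right (by linarith), ct, st, e]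
  ext <;> simp

private theorem gk_mid {κ v : ℝ} (h : 1 / 4 ≤ v) (h' : v ≤ 3 / 4) :
    gk κ v = (0, 1 - κ * (1 - |4 * v - 2|)) := by
  unfold gk
  have e : max 0 (1 - |4 * v - 2|) = 1 - |4 * v - 2| := by
    apply max_eq_right
    have : |4 * v - 2| ≤ 1 := abs_le.2 ⟨by linarith, by linarith⟩
    linarith
  rw [min_eq_right h, max_eq_right h', ct, st, cq, sq', e]
  ext
  · simp
  · show (1 : ℝ) - -1 - 1 - _ = _
    ring

private theorem gk_hi {κ v : ℝ} (h : 3 / 4 ≤ v) :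
    gk κ v = (-Real.cos (2 * Real.pi * v), -Real.sin (2 * Real.pi * v)) := by
  unfold gk
  have e : max 0 (1 - |4 * v - 2|) = 0 := by
    apply max_eq_left
    rw [abs_of_nonneg (by linarith)]
    linarith
  rw [min_eq_right (by linarith), max_eq_left h, cq, sq', e]
  ext
  · simp
  · show (1 : ℝ) - _ - 1 - _ = _
    ring

private theorem gk_PS {κ v : ℝ} (hκ : κ ∈ Icc (0 : ℝ) 1) : PS (gk κ v) := by
  rcases le_total v (1 / 4) with h | h
  · left
    rw [gk_lo h]
    show Real.cos _ ^ 2 + Real.sin _ ^ 2 = 1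
    exact Real.cos_sq_add_sin_sq _
  rcases le_total v (3 / 4) with h' | h'
  · right
    rw [gk_mid h h']
    refine ⟨rfl, ?_⟩
    show (1 - κ * (1 - |4 * v - 2|)) ^ 2 ≤ 1
    have h1 : |4 * v - 2| ≤ 1 := abs_le.2 ⟨by linarith, by linarith⟩
    have h2 := abs_nonneg (4 * v - 2)
    have h3 : 0 ≤ κ * (1 - |4 * v - 2|) := mul_nonneg hκ.1 (by linarith)
    have h4 : κ * (1 - |4 * v - 2|) ≤ 1 := mul_le_one₀ hκ.2 (by linarith) (by linarith)
    nlinarith
  · left
    rw [gk_hi h']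
    show (-Real.cos _) ^ 2 + (-Real.sin _) ^ 2 = 1
    rw [neg_sq, neg_sq]
    exact Real.cos_sq_add_sin_sq _

private theorem gk_zero (κ : ℝ) : gk κ 0 = (1, 0) := by
  rw [gk_lo (by norm_num)]
  simp

private theorem gk_half : gk 1 (1 / 2) = (0, 0) := by
  rw [gk_mid (by norm_num) (by norm_num)]
  norm_num

private theorem gk_one (κ : ℝ) : gk κ 1 = (-1, 0) := by
  rw [gk_hi (by norm_num)]
  simp

/-! ### the homotopies -/

private theorem cont_gk : Continuous fun z : ℝ × ℝ => gk z.1 z.2 := by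
  unfold gk
  fun_prop

private theorem seg {a b u : ℝ} (ha : a ∈ Icc (0 : ℝ) 1) (hb : b ∈ Icc (0 : ℝ) 1)
    (hu : u ∈ Icc (0 : ℝ) 1) : ((1 - u) * a + u * b) ^ 2 ≤ 1 := by
  have h0 : 0 ≤ (1 - u) * a + u * b :=
    add_nonneg (mul_nonneg (by linarith [hu.2]) ha.1) (mul_nonneg hu.1 hb.1)
  have h1 : (1 - u) * a + u * b ≤ 1 := by
    have h2 : (1 - u) * a ≤ (1 - u) * 1 := mul_le_mul_of_nonneg_left ha.2 (by linarith [hu.2])
    have h3 : u * b ≤ u * 1 := mul_le_mul_of_nonneg_left hb.2 hu.1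
    linarith
  nlinarith

private theorem sin_mem {v : ℝ} (hv : v ∈ Icc (0 : ℝ) 1) : Real.sin (Real.pi * v) ∈ Icc (0 : ℝ) 1 :=
  ⟨Real.sin_nonneg_of_nonneg_of_le_pi (mul_nonneg Real.pi_pos.le hv.1)
    (by nlinarith [Real.pi_pos, hv.2]), Real.sin_le_one _⟩

private theorem cos_pos' {v : ℝ} (h0 : 0 ≤ v) (h : v ≤ 1 / 2) : 0 ≤ Real.cos (Real.pi * v) :=
  Real.cos_nonneg_of_neg_pi_div_two_le_of_le (by nlinarith [Real.pi_pos]) (by nlinarith [Real.pi_pos])

private theorem cos_neg' {v : ℝ} (h0 : 1 / 2 ≤ v) (h : v ≤ 1) : Real.cos (Real.pi * v) ≤ 0 :=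
  Real.cos_nonpos_of_pi_div_two_le_of_le (by nlinarith [Real.pi_pos]) (by nlinarith [Real.pi_pos])

/-- first homotopy -/
private noncomputable def c1 (z : ℝ × ℝ) : ℝ × ℝ := gk (1 - z.1) z.2

/-- second homotopy -/
private noncomputable def an (z : ℝ × ℝ) : ℝ :=
  (1 - z.1) * (2 * Real.pi * min z.2 (1 / 4) + 2 * Real.pi * (max z.2 (3 / 4) - 3 / 4)) +
    z.1 * (Real.pi * z.2)

private noncomputable def c2 (z : ℝ × ℝ) : ℝ × ℝ := (Real.cos (an z), Real.sin (an z))

private theorem c2_zero {v : ℝ} : c2 (0, v) = gk 0 v := by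
  unfold c2 an
  have e : (1 - (0 : ℝ)) * (2 * Real.pi * min v (1 / 4) + 2 * Real.pi * (max v (3 / 4) - 3 / 4)) +
      0 * (Real.pi * v) = 2 * Real.pi * min v (1 / 4) + 2 * Real.pi * (max v (3 / 4) - 3 / 4) := by
    ring
  show (Real.cos ((1 - (0 : ℝ)) * (2 * Real.pi * min v (1 / 4) +
      2 * Real.pi * (max v (3 / 4) - 3 / 4)) + 0 * (Real.pi * v)),
    Real.sin ((1 - (0 : ℝ)) * (2 * Real.pi * min v (1 / 4) +
      2 * Real.pi * (max v (3 / 4) - 3 / 4)) + 0 * (Real.pi * v))) = _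
  rw [e]
  rcases le_total v (1 / 4) with h | h
  · rw [gk_lo h, min_eq_left h, max_eq_right (by linarith), sub_self, mul_zero, add_zero]
  rcases le_total v (3 / 4) with h' | h'
  · rw [gk_mid h h', min_eq_right h, max_eq_right h', sub_self, mul_zero, add_zero, cq, sq']
    simp
  · rw [gk_hi h', min_eq_right (by linarith), max_eq_left h']
    have e2 : 2 * Real.pi * (1 / 4) + 2 * Real.pi * (v - 3 / 4) = 2 * Real.pi * v - Real.pi := by
      ring
    rw [e2, Real.cos_sub_pi, Real.sin_sub_pi]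

private theorem c2_one {v : ℝ} : c2 (1, v) = (Real.cos (Real.pi * v), Real.sin (Real.pi * v)) := by
  unfold c2 an
  have e : (1 - (1 : ℝ)) * (2 * Real.pi * min v (1 / 4) + 2 * Real.pi * (max v (3 / 4) - 3 / 4)) +
      1 * (Real.pi * v) = Real.pi * v := by
    ring
  show (Real.cos ((1 - (1 : ℝ)) * (2 * Real.pi * min v (1 / 4) +
      2 * Real.pi * (max v (3 / 4) - 3 / 4)) + 1 * (Real.pi * v)),
    Real.sin ((1 - (1 : ℝ)) * (2 * Real.pi * min v (1 / 4) +
      2 * Real.pi * (max v (3 / 4) - 3 / 4)) + 1 * (Real.pi * v))) = _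
  rw [e]

private theorem an_zero (u : ℝ) : an (u, 0) = 0 := by
  unfold an
  show (1 - u) * (2 * Real.pi * min 0 (1 / 4) + 2 * Real.pi * (max 0 (3 / 4) - 3 / 4)) +
    u * (Real.pi * 0) = 0
  rw [min_eq_left (by norm_num), max_eq_right (by norm_num)]
  ring

private theorem an_one (u : ℝ) : an (u, 1) = Real.pi := by
  unfold an
  show (1 - u) * (2 * Real.pi * min 1 (1 / 4) + 2 * Real.pi * (max 1 (3 / 4) - 3 / 4)) +
    u * (Real.pi * 1) = Real.pi
  rw [min_eq_right (by norm_num), max_eq_left (by norm_num)]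
  ring

private theorem gk_mid_mem {v : ℝ} (h : 1 / 4 ≤ v) (h' : v ≤ 3 / 4) :
    (1 - 1 * (1 - |4 * v - 2|)) ∈ Icc (0 : ℝ) 1 := by
  have h1 : |4 * v - 2| ≤ 1 := abs_le.2 ⟨by linarith, by linarith⟩
  have h2 := abs_nonneg (4 * v - 2)
  constructor <;> linarith

/-- third homotopy -/
private noncomputable def c3 (z : ℝ × ℝ) : ℝ × ℝ :=
  ((gk 1 (z.2 / 2)).1, (1 - z.1) * (gk 1 (z.2 / 2)).2 + z.1 * Real.sin (Real.pi * z.2))

/-- fourth homotopy -/
private noncomputable def c4 (z : ℝ × ℝ) : ℝ × ℝ :=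
  ((gk 1 (1 / 2 + z.2 / 2)).1,
    (1 - z.1) * (gk 1 (1 / 2 + z.2 / 2)).2 + z.1 * Real.sin (Real.pi * z.2))

private theorem c3_PS {u v : ℝ} (hu : u ∈ Icc (0 : ℝ) 1) (hv : v ∈ Icc (0 : ℝ) 1) :
    PS (c3 (u, v)) := by
  show PS ((gk 1 (v / 2)).1, (1 - u) * (gk 1 (v / 2)).2 + u * Real.sin (Real.pi * v))
  rcases le_total v (1 / 2) with h | h
  · left
    rw [gk_lo (by linarith), show 2 * Real.pi * (v / 2) = Real.pi * v by ring]
    show Real.cos (Real.pi * v) ^ 2 +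
      ((1 - u) * Real.sin (Real.pi * v) + u * Real.sin (Real.pi * v)) ^ 2 = 1
    have e : (1 - u) * Real.sin (Real.pi * v) + u * Real.sin (Real.pi * v) =
      Real.sin (Real.pi * v) := by ring
    rw [e]
    exact Real.cos_sq_add_sin_sq _
  · right
    have e := gk_mid (κ := 1) (v := v / 2) (by linarith) (by linarith [hv.2])
    rw [e]
    exact ⟨rfl, seg (gk_mid_mem (by linarith) (by linarith [hv.2])) (sin_mem hv) hu⟩

private theorem c4_PS {u v : ℝ} (hu : u ∈ Icc (0 : ℝ) 1) (hv : v ∈ Icc (0 : ℝ) 1) :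
    PS (c4 (u, v)) := by
  show PS ((gk 1 (1 / 2 + v / 2)).1,
    (1 - u) * (gk 1 (1 / 2 + v / 2)).2 + u * Real.sin (Real.pi * v))
  rcases le_total v (1 / 2) with h | h
  · right
    have e := gk_mid (κ := 1) (v := 1 / 2 + v / 2) (by linarith [hv.1]) (by linarith)
    rw [e]
    exact ⟨rfl, seg (gk_mid_mem (by linarith [hv.1]) (by linarith)) (sin_mem hv) hu⟩
  · left
    rw [gk_hi (by linarith), show 2 * Real.pi * (1 / 2 + v / 2) = Real.pi * v + Real.pi by ring,
      Real.cos_add_pi, Real.sin_add_pi, neg_neg, neg_neg]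
    show Real.cos (Real.pi * v) ^ 2 +
      ((1 - u) * Real.sin (Real.pi * v) + u * Real.sin (Real.pi * v)) ^ 2 = 1
    have e : (1 - u) * Real.sin (Real.pi * v) + u * Real.sin (Real.pi * v) =
      Real.sin (Real.pi * v) := by ring
    rw [e]
    exact Real.cos_sq_add_sin_sq _

private theorem c3_one {v : ℝ} (hv : v ∈ Icc (0 : ℝ) 1) :
    c3 (1, v) = (max (Real.cos (Real.pi * v)) 0, Real.sin (Real.pi * v)) := by
  show ((gk 1 (v / 2)).1, (1 - (1 : ℝ)) * (gk 1 (v / 2)).2 + 1 * Real.sin (Real.pi * v)) = _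
  have e : (1 - (1 : ℝ)) * (gk 1 (v / 2)).2 + 1 * Real.sin (Real.pi * v) =
    Real.sin (Real.pi * v) := by ring
  rw [e]
  rcases le_total v (1 / 2) with h | h
  · rw [gk_lo (by linarith), show 2 * Real.pi * (v / 2) = Real.pi * v by ring,
      max_eq_left (cos_pos' hv.1 h)]
  · rw [gk_mid (by linarith) (by linarith [hv.2]), max_eq_right (cos_neg' h hv.2)]

private theorem c4_one {v : ℝ} (hv : v ∈ Icc (0 : ℝ) 1) :
    c4 (1, v) = (min (Real.cos (Real.pi * v)) 0, Real.sin (Real.pi * v)) := by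
  show ((gk 1 (1 / 2 + v / 2)).1,
    (1 - (1 : ℝ)) * (gk 1 (1 / 2 + v / 2)).2 + 1 * Real.sin (Real.pi * v)) = _
  have e : (1 - (1 : ℝ)) * (gk 1 (1 / 2 + v / 2)).2 + 1 * Real.sin (Real.pi * v) =
    Real.sin (Real.pi * v) := by ring
  rw [e]
  rcases le_total v (1 / 2) with h | h
  · rw [gk_mid (by linarith [hv.1]) (by linarith), min_eq_right (cos_pos' hv.1 h)]
  · rw [gk_hi (by linarith), show 2 * Real.pi * (1 / 2 + v / 2) = Real.pi * v + Real.pi by ring,
      Real.cos_add_pi, neg_neg, min_eq_left (cos_neg' h hv.2)]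

private theorem gkc0 : gk 1 (0 / 2) = (1, 0) := by
  rw [zero_div]
  exact gk_zero 1

/-- coordinates -/
private theorem coords (hPP : StPP) (t : Fin 2 → I) :
    Real.cos (Real.pi * lat (sqr t)) = (sqr t).1 ∧
      Complex.exp (lon (sqr t) * Complex.I) * (Real.sin (Real.pi * lat (sqr t)) : ℂ) = (sqr t).2 := by
  have h := (hPP.2.2.1 _ (sqr_mem t)).1
  unfold PP at h
  have h1 := congrArg Prod.fst h
  have h2 := congrArg Prod.snd h
  refine ⟨h1, ?_⟩
  rw [mul_comm]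
  exact h2

private theorem lat_mem (hPP : StPP) (t : Fin 2 → I) : lat (sqr t) ∈ Icc (0 : ℝ) 1 :=
  (hPP.2.2.1 _ (sqr_mem t)).2.2

end ADD

open ADD in
theorem m_ADD (hPP : StPP) (hMUL : StMUL) : StADD := by
  intro X _ y₀ sq hsq Φ hΦ
  have h1I : (1 : ℝ) ∈ Icc (0 : ℝ) 1 := ⟨zero_le_one, le_rfl⟩
  have h0I : (0 : ℝ) ∈ Icc (0 : ℝ) 1 := ⟨le_rfl, zero_le_one⟩
  have hHI : (1 / 2 : ℝ) ∈ Icc (0 : ℝ) 1 := ⟨by norm_num, by norm_num⟩
  have hg : ∀ v ∈ Icc (0 : ℝ) 1, PS (gk 1 v) := fun v _ => gk_PS h1I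
  let γ : ℝ → {p : R3 // p ∈ UU} := lf (gk 1) hg
  have cγ : Continuous γ := by
    have h : Continuous fun v : ℝ => gk 1 (cl v) :=
      cont_gk.comp (continuous_const.prodMk cont_cl)
    refine Continuous.subtype_mk ?_ _
    exact (continuous_fst.comp h).prodMk (Complex.continuous_ofReal.comp (continuous_snd.comp h))
  have f0 : γ 0 ∈ AU.Fix := fix_of (by
    show ((gk 1 (cl 0)).2 : ℂ) = 0
    rw [cl_of h0I, gk_zero, Complex.ofReal_zero])
  have fh : γ (1 / 2) ∈ AU.Fix := fix_of (by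
    show ((gk 1 (cl (1 / 2))).2 : ℂ) = 0
    rw [cl_of hHI, gk_half, Complex.ofReal_zero])
  have f1 : γ 1 ∈ AU.Fix := fix_of (by
    show ((gk 1 (cl 1)).2 : ℂ) = 0
    rw [cl_of h1I, gk_one, Complex.ofReal_zero])
  have hp0 : (fun v : ℝ => γ (v / 2)) 0 = γ 0 := by
    show γ (0 / 2) = γ 0
    rw [zero_div]
  have hpf : (fun v : ℝ => γ (v / 2)) 0 ∈ AU.Fix := by rw [hp0]; exact f0
  have hp1 : (fun v : ℝ => γ (v / 2)) 1 ∈ AU.Fix := fh
  have cγ2 : Continuous fun v : ℝ => γ (v / 2) := cγ.comp (by fun_prop)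
  let f : GenLoop (Fin 2) {p : R3 // p ∈ UU} (γ 0) :=
    ⟨⟨fun t => AU.sph γ (sqr t),
      (sph_cont hPP cγ.continuousOn f0 f1).comp_continuous continuous_sqr sqr_mem⟩, by
      intro t ht
      show AU.sph γ (sqr t) = γ 0
      rw [sqr_bd ht, sph_base hPP f0 f1]⟩
  let g : GenLoop (Fin 2) {p : R3 // p ∈ UU} (γ 0) :=
    ⟨⟨fun t => AU.sph (fun v : ℝ => γ (v / 2)) (sqr t),
      (sph_cont hPP cγ2.continuousOn hpf hp1).comp_continuous continuous_sqr sqr_mem⟩, by
      intro t ht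
      show AU.sph (fun v : ℝ => γ (v / 2)) (sqr t) = γ 0
      rw [sqr_bd ht, sph_base hPP hpf hp1]
      exact hp0⟩
  obtain ⟨x, hx1, hx2⟩ := hMUL {p : R3 // p ∈ UU} AU γ (γ 0) cγ.continuousOn rfl f0 fh f1 f g
    (fun t => rfl) (fun t => rfl)
  have hΦ' : Continuous fun x : {p : R3 // p ∈ UU} => Φ x.1 :=
    continuousOn_iff_continuous_domRestrict.1 hΦ
  have key := hsq.add _ _ _ _ (hcl_mp (fun x : {p : R3 // p ∈ UU} => Φ x.1) hΦ' hx1)
  -- the left side
  have a1 := homo hPP hΦ c1 (by unfold c1 gk; fun_prop)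
    (fun u hu v _ => gk_PS ⟨by linarith [hu.2], by linarith [hu.1]⟩)
    (fun u _ => by show (gk (1 - u) 0).2 = 0; rw [gk_zero])
    (fun u _ => by show (gk (1 - u) 1).2 = 0; rw [gk_one])
  have a2 := homo hPP hΦ c2 (by unfold c2 an; fun_prop)
    (fun u _ v _ => Or.inl (Real.cos_sq_add_sin_sq _))
    (fun u _ => by show Real.sin (an (u, 0)) = 0; rw [an_zero, Real.sin_zero])
    (fun u _ => by show Real.sin (an (u, 1)) = 0; rw [an_one, Real.sin_pi])
  have e1 : (fun t => Φ (val (fun v => c1 (1, v)) (sqr t))) =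
      fun t => Φ (val (fun v => c2 (0, v)) (sqr t)) := by
    have h : (fun v => c1 (1, v)) = fun v => c2 (0, v) := by
      funext v
      rw [c2_zero]
      show gk (1 - 1) v = gk 0 v
      rw [sub_self]
    rw [h]
  rw [e1] at a1
  have a3 := Hfree.trans a1 a2
  have L0 : (fun t => Φ (val (fun v => c1 (0, v)) (sqr t))) =
      fun t => (mp (fun x : {p : R3 // p ∈ UU} => Φ x.1) hΦ' f) t := by
    funext t
    show Φ ((gk (1 - 0) (lat (sqr t))).1, _ * ((gk (1 - 0) (lat (sqr t))).2 : ℂ)) =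
      Φ ((gk 1 (cl (lat (sqr t)))).1, _ * ((gk 1 (cl (lat (sqr t)))).2 : ℂ))
    rw [cl_of (lat_mem hPP t), sub_zero]
  have L1 : (fun t => Φ (val (fun v => c2 (1, v)) (sqr t))) = fun t => Φ (sqr t) := by
    funext t
    have h := coords hPP t
    show Φ ((c2 (1, lat (sqr t))).1,
      Complex.exp (lon (sqr t) * Complex.I) * ((c2 (1, lat (sqr t))).2 : ℂ)) = _
    rw [c2_one]
    show Φ (Real.cos (Real.pi * lat (sqr t)),
      Complex.exp (lon (sqr t) * Complex.I) * (Real.sin (Real.pi * lat (sqr t)) : ℂ)) = _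
    rw [h.1, h.2]
  have b1 := hsq.free _ _ a3
  rw [L0, L1] at b1
  -- the first summand
  have a4 := homo hPP hΦ c3 (by unfold c3 gk; fun_prop) (fun u hu v hv => c3_PS hu hv)
    (fun u _ => by
      show (1 - u) * (gk 1 (0 / 2)).2 + u * Real.sin (Real.pi * 0) = 0
      rw [gkc0, mul_zero, mul_zero, Real.sin_zero, mul_zero, add_zero])
    (fun u _ => by
      show (1 - u) * (gk 1 (1 / 2)).2 + u * Real.sin (Real.pi * 1) = 0
      rw [gk_half, mul_zero, mul_one, Real.sin_pi, mul_zero, add_zero])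
  have M0 : (fun t => Φ (val (fun v => c3 (0, v)) (sqr t))) =
      fun t => (mp (fun x : {p : R3 // p ∈ UU} => Φ x.1) hΦ' g) t := by
    funext t
    have hl := lat_mem hPP t
    have e : (1 - (0 : ℝ)) * (gk 1 (lat (sqr t) / 2)).2 + 0 * Real.sin (Real.pi * lat (sqr t)) =
      (gk 1 (lat (sqr t) / 2)).2 := by ring
    show Φ ((gk 1 (lat (sqr t) / 2)).1, Complex.exp (lon (sqr t) * Complex.I) *
        (((1 - (0 : ℝ)) * (gk 1 (lat (sqr t) / 2)).2 +
          0 * Real.sin (Real.pi * lat (sqr t)) : ℝ) : ℂ)) =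
      Φ ((gk 1 (cl (lat (sqr t) / 2))).1, Complex.exp (lon (sqr t) * Complex.I) *
        ((gk 1 (cl (lat (sqr t) / 2))).2 : ℂ))
    rw [cl_of ⟨by linarith [hl.1], by linarith [hl.2]⟩, e]
  have M1 : (fun t => Φ (val (fun v => c3 (1, v)) (sqr t))) =
      fun t => Φ (max (sqr t).1 0, (sqr t).2) := by
    funext t
    have h := coords hPP t
    show Φ ((c3 (1, lat (sqr t))).1,
      Complex.exp (lon (sqr t) * Complex.I) * ((c3 (1, lat (sqr t))).2 : ℂ)) = _
    rw [c3_one (lat_mem hPP t)]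
    show Φ (max (Real.cos (Real.pi * lat (sqr t))) 0,
      Complex.exp (lon (sqr t) * Complex.I) * (Real.sin (Real.pi * lat (sqr t)) : ℂ)) = _
    rw [h.1, h.2]
  have b2 := hsq.free _ _ a4
  rw [M0, M1] at b2
  -- the second summand
  have a5 := homo hPP hΦ c4 (by unfold c4 gk; fun_prop) (fun u hu v hv => c4_PS hu hv)
    (fun u _ => by
      show (1 - u) * (gk 1 (1 / 2 + 0 / 2)).2 + u * Real.sin (Real.pi * 0) = 0
      rw [zero_div, add_zero, gk_half, mul_zero, mul_zero, Real.sin_zero, mul_zero, add_zero])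
    (fun u _ => by
      show (1 - u) * (gk 1 (1 / 2 + 1 / 2)).2 + u * Real.sin (Real.pi * 1) = 0
      rw [add_halves, gk_one, mul_zero, mul_one, Real.sin_pi, mul_zero, add_zero])
  have N0 : (fun t => Φ (val (fun v => c4 (0, v)) (sqr t))) =
      fun t => Φ (AU.sph (fun v : ℝ => γ (1 / 2 + v / 2)) (sqr t)).1 := by
    funext t
    have hl := lat_mem hPP t
    have e : (1 - (0 : ℝ)) * (gk 1 (1 / 2 + lat (sqr t) / 2)).2 +
      0 * Real.sin (Real.pi * lat (sqr t)) = (gk 1 (1 / 2 + lat (sqr t) / 2)).2 := by ring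
    show Φ ((gk 1 (1 / 2 + lat (sqr t) / 2)).1, Complex.exp (lon (sqr t) * Complex.I) *
        (((1 - (0 : ℝ)) * (gk 1 (1 / 2 + lat (sqr t) / 2)).2 +
          0 * Real.sin (Real.pi * lat (sqr t)) : ℝ) : ℂ)) =
      Φ ((gk 1 (cl (1 / 2 + lat (sqr t) / 2))).1, Complex.exp (lon (sqr t) * Complex.I) *
        ((gk 1 (cl (1 / 2 + lat (sqr t) / 2))).2 : ℂ))
    rw [cl_of ⟨by linarith [hl.1], by linarith [hl.2]⟩, e]
  have N1 : (fun t => Φ (val (fun v => c4 (1, v)) (sqr t))) =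
      fun t => Φ (min (sqr t).1 0, (sqr t).2) := by
    funext t
    have h := coords hPP t
    show Φ ((c4 (1, lat (sqr t))).1,
      Complex.exp (lon (sqr t) * Complex.I) * ((c4 (1, lat (sqr t))).2 : ℂ)) = _
    rw [c4_one (lat_mem hPP t)]
    show Φ (min (Real.cos (Real.pi * lat (sqr t))) 0,
      Complex.exp (lon (sqr t) * Complex.I) * (Real.sin (Real.pi * lat (sqr t)) : ℂ)) = _
    rw [h.1, h.2]
  have a6 : Hfree (fun t => (mp (fun x : {p : R3 // p ∈ UU} => Φ x.1) hΦ' x) t)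
      (fun t => Φ (AU.sph (fun v : ℝ => γ (1 / 2 + v / 2)) (sqr t)).1) := by
    obtain ⟨F, F1, F2, F3, F4⟩ := hx2
    refine ⟨fun z => Φ (F z).1, hΦ'.comp_continuousOn F1, ?_, ?_, ?_⟩
    · intro t
      show Φ (F (0, t)).1 = Φ (x t).1
      rw [F2 t]
    · intro t
      show Φ (F (1, t)).1 = _
      rw [F3 t]
    · intro u hu t ht t' ht'
      show Φ (F (u, t)).1 = Φ (F (u, t')).1
      rw [F4 u hu t ht t' ht']
  rw [← N0] at a6
  have b3 := hsq.free _ _ (Hfree.trans a6 a5)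
  rw [N1] at b3
  rw [← b1, ← b2, ← b3]
  exact key

end Pool.Agent.Helper70.HH


end
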