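import Pool.Agent.Helper70.BI.C.P57
import Pool.Agent.Helper70.BI.C.P68
import Pool.Agent.Helper70.BI.C.P77
import Pool.Agent.Helper70.BI.C.P80
import Pool.Agent.Helper70.BI.C.P82
import Pool.Agent.Helper70.BI.C.P83
import Pool.Agent.Helper70.BI.C.P84

/-!
# Project BI (MP_8e98f2_gt): collected modules, part 85

The contents of the modules
* Helper70.BI.HH.AsmH0
* Helper70.BI.HH.AsmH

in one file, so that the whole proof builds in a short time.
-/

namespace Pool.Agent.Helper70.T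
end Pool.Agent.Helper70.T


/-! ## Helper70.BI.HH.AsmH0 -/

section

/-!
# Project BI, stage 7 (H): assembly
-/

set_option autoImplicit false

open Pool.Agent.Helper70.T (m_PP m_SQR m_SQD m_MUL)

namespace Pool.Agent.Helper70.HH

theorem hADD : StADD := m_ADD m_PP (m_MUL m_PP m_SQR)

theorem hMVU : StMVU := m_MVU m_TDA m_TDB m_SCA m_SCB m_MVA

theorem hCHV : StCHV :=
  m_CHV Pool.Agent.Helper34.BI.R.m_LIP Pool.Agent.Helper34.BI.R.m_DIM
    Pool.Agent.Helper70.BI.hX2c Pool.Agent.Helper18.BI.hX3 hMVU (m_MVF m_GRD)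

theorem hPCN : StPCN := m_PCN Pool.Agent.Helper70.BI.hX2c Pool.Agent.Helper18.BI.hX3

theorem hKAP : StKAP := m_KAP m_HL m_NAT (m_PEN m_CNV)

theorem hSUR_of (hWWL : StWWL) : StSUR :=
  m_SUR m_SC (m_CCA m_PQ) (m_CCB m_PP m_PQ hADD) (m_CCC m_PP m_PQ hADD) (m_CCD m_SQR m_PQ)
    (m_WEX m_HL) hKAP m_COB m_UNT (m_CUB hWWL) (m_BIS hWWL) m_BDC m_GHA

theorem ghb_of (hWWL : StWWL) (h8 : Pool.Agent.Helper18.BI.S5.StFinal8) : StGHB :=
  ghb Pool.Agent.Helper18.BI.hCI m_SQD Pool.Agent.Helper18.BI.R.m_MQ h8 hPCN hCHV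
    (hSUR_of hWWL) m_CYC

end Pool.Agent.Helper70.HH


end

/-! ## Helper70.BI.HH.AsmH -/

section

/-!
# Project BI, stage 7 (H): final assembly
-/

set_option autoImplicit false

namespace Pool.Agent.Helper70.HH

theorem hSUR : StSUR := hSUR_of m_WWL

theorem topGHB (h8 : Pool.Agent.Helper18.BI.S5.StFinal8) : StGHB := ghb_of m_WWL h8

end Pool.Agent.Helper70.HH


end
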