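import Pool.Agent.Helper70.BI.C.P74
import Pool.Agent.Helper70.BI.C.P80
import Pool.Agent.Helper70.BI.C.P85

/-!
# Project BI (MP_8e98f2_gt): stage 7, the final theorem
-/

set_option autoImplicit false

namespace Pool.Agent.Helper70.T

theorem topGHB : HH.StGHB := HH.topGHB Pool.Agent.Helper27.S5.hFinal8

end Pool.Agent.Helper70.T
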