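import Pool.Agent.Helper70.BI.C.Q09

/-!
# Project BX (MP_8e98f2_gt): the final theorem
-/

set_option autoImplicit false

namespace Pool.Agent.Helper70.T

theorem topExact : Pool.Agent.Helper34.BX.StExact :=
  Pool.Agent.Helper34.BX.stExact Pool.Agent.Helper18.BI.hCI Pool.Agent.Helper34.BX.hXS

end Pool.Agent.Helper70.T
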