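import Pool.Agent.Helper65.Barb.Defs
import Pool.Agent.Helper70.BI.FinDefs
import Pool.Agent.Helper70.BI.C.P31
import Pool.Agent.Helper70.BI.C.P32
import Pool.Agent.Helper70.BI.C.P34

/-!
# Project BI (MP_8e98f2_gt): collected modules, part 35

The contents of the modules
* Helper34.BI.UNK2
* Helper13.BI5.M_N2a
* Helper34.BI.UNK1
* Helper34.BI.UNK3
* Helper18.BI.R.M_UNK
* Helper92.BI5.M_N2c

in one file, so that the whole proof builds in a short time.
-/

namespace Pool.Agent.Helper18.BI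
end Pool.Agent.Helper18.BI

namespace Pool.Agent.Helper18.BI.R
end Pool.Agent.Helper18.BI.R

namespace Pool.Agent.Helper27.BI
end Pool.Agent.Helper27.BI

namespace Pool.Agent.Helper27.H
end Pool.Agent.Helper27.H

namespace Pool.Agent.Helper34.BI.UNK1
end Pool.Agent.Helper34.BI.UNK1

namespace Pool.Agent.Helper34.BI.UNK3
end Pool.Agent.Helper34.BI.UNK3

namespace Pool.Agent.Helper65.Barb
end Pool.Agent.Helper65.Barb

namespace Pool.Agent.Helper70.BI
end Pool.Agent.Helper70.BI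

namespace Pool.Agent.Helper70.Fin
end Pool.Agent.Helper70.Fin


/-! ## Helper34.BI.UNK2 -/

section

/-!
# Project BI, module UNK, part 2: logarithm and null-homotopy off the standard unknotted sphere
-/

set_option autoImplicit false

open scoped Topology
open Set Pool.Agent.Helper65.Barb Pool.Agent.Helper18.BI Pool.Agent.Helper18.BI.R

namespace Pool.Agent.Helper34.BI.UNK2

/-- radial retraction to the unit disc -/
noncomputable def rt (z : ℂ) : ℂ := (max 1 ‖z‖)⁻¹ • z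

theorem rt_cont : Continuous rt := by
  unfold rt
  have hc : Continuous fun z : ℂ => max 1 ‖z‖ := continuous_const.max continuous_norm
  refine Continuous.smul (hc.inv₀ ?_) continuous_id
  intro z
  have : (1 : ℝ) ≤ max 1 ‖z‖ := le_max_left _ _
  linarith

theorem rt_le (z : ℂ) : ‖rt z‖ ≤ 1 := by
  unfold rt
  have h1 : (1 : ℝ) ≤ max 1 ‖z‖ := le_max_left _ _
  have h2 : ‖z‖ ≤ max 1 ‖z‖ := le_max_right _ _
  rw [norm_smul, norm_inv, Real.norm_of_nonneg (by linarith), ← div_eq_inv_mul]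
  exact (div_le_one (by linarith)).mpr h2

theorem rt_eq {z : ℂ} (hz : ‖z‖ ≤ 1) : rt z = z := by
  unfold rt
  rw [max_eq_left hz, inv_one, one_smul]

/-- the two hemispheres -/
noncomputable def hs (σ : ℝ) (z : ℂ) : R3 := (σ * Real.sqrt (1 - ‖rt z‖ ^ 2), rt z)

theorem hs_cont (σ : ℝ) : Continuous (hs σ) := by
  unfold hs
  refine Continuous.prodMk ?_ rt_cont
  exact continuous_const.mul (Real.continuous_sqrt.comp
    (continuous_const.sub ((rt_cont.norm).pow 2)))

theorem nsqC (z : ℂ) : ‖z‖ ^ 2 = z.re ^ 2 + z.im ^ 2 := by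
  rw [← Complex.normSq_eq_norm_sq, Complex.normSq_apply]
  ring

theorem mem_S2 {m : R3} : m ∈ S2 ↔ m.1 ^ 2 + m.2.re ^ 2 + m.2.im ^ 2 = 1 := Iff.rfl

theorem hs_mem {σ : ℝ} (hσ : σ ^ 2 = 1) (z : ℂ) : hs σ z ∈ S2 := by
  rw [mem_S2]
  unfold hs
  have h1 := rt_le z
  have h2 : 0 ≤ ‖rt z‖ := norm_nonneg _
  have h3 : 0 ≤ 1 - ‖rt z‖ ^ 2 := by nlinarith
  show (σ * Real.sqrt (1 - ‖rt z‖ ^ 2)) ^ 2 + (rt z).re ^ 2 + (rt z).im ^ 2 = 1
  rw [mul_pow, Real.sq_sqrt h3, hσ, add_assoc, ← nsqC]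
  ring

theorem lift_log (g : ℂ → ℂ) (hg : Continuous g) (h0 : ∀ z, g z ≠ 0) :
    ∃ L : ℂ → ℂ, Continuous L ∧ ∀ z, Complex.exp (L z) = g z := by
  obtain ⟨L, ⟨-, hL⟩, -⟩ := Complex.isCoveringMapOn_exp.existsUnique_continuousMap_lifts
    (⟨g, hg⟩ : C(ℂ, ℂ)) (a₀ := 0) (e₀ := Complex.log (g 0)) (Complex.exp_log (h0 0))
    (fun z => h0 z)
  exact ⟨L, L.continuous, fun z => congrFun hL z⟩

theorem log_S2 (F : R3 → ℂ) (hF : ContinuousOn F S2) (h0 : ∀ m ∈ S2, F m ≠ 0) :
    ∃ l : R3 → ℂ, ContinuousOn l S2 ∧ ∀ m ∈ S2, Complex.exp (l m) = F m := by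
  have s1 : (1 : ℝ) ^ 2 = 1 := by norm_num
  have s2 : (-1 : ℝ) ^ 2 = 1 := by norm_num
  obtain ⟨Lp, hLp, hLpe⟩ := lift_log (fun z => F (hs 1 z))
    (hF.comp_continuous (hs_cont 1) (hs_mem s1)) (fun z => h0 _ (hs_mem s1 z))
  obtain ⟨Lm, hLm, hLme⟩ := lift_log (fun z => F (hs (-1) z))
    (hF.comp_continuous (hs_cont (-1)) (hs_mem s2)) (fun z => h0 _ (hs_mem s2 z))
  -- the difference on the circle
  have hcirc : ∀ z ∈ Metric.sphere (0 : ℂ) 1, Complex.exp (Lp z - Lm z) = 1 := by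
    intro z hz
    have hz1 : ‖z‖ = 1 := by simpa using hz
    have e : hs 1 z = hs (-1) z := by
      unfold hs
      rw [rt_eq hz1.le, hz1]
      norm_num
    rw [Complex.exp_sub, hLpe, hLme, e, div_self (h0 _ (hs_mem s2 z))]
  have hpre : IsPreconnected (Metric.sphere (0 : ℂ) 1) :=
    isPreconnected_sphere (by rw [Complex.rank_real_complex]; norm_num) 0 1
  have hconst : ∀ z ∈ Metric.sphere (0 : ℂ) 1, Lp z - Lm z = Lp 1 - Lm 1 := by
    intro z hz
    have h1 : (1 : ℂ) ∈ Metric.sphere (0 : ℂ) 1 := by simp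
    have hdisc : DiscreteTopology (Complex.exp ⁻¹' {(1 : ℂ)} : Set ℂ) :=
      (Complex.isCoveringMapOn_exp (1 : ℂ) (by simp)).1
    refine hpre.constant_of_mapsTo (T := (Complex.exp ⁻¹' {(1 : ℂ)} : Set ℂ))
      (f := fun z => Lp z - Lm z) ⟨hdisc⟩ (hLp.sub hLm).continuousOn ?_ hz h1
    intro w hw
    exact hcirc w hw
  set κ : ℂ := Lp 1 - Lm 1 with hκ
  have hexpκ : Complex.exp κ = 1 := hcirc 1 (by simp)
  refine ⟨fun m => if 0 ≤ m.1 then Lp m.2 else Lm m.2 + κ, ?_, ?_⟩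
  · rw [continuousOn_iff_continuous_domRestrict]
    have hc : Continuous fun x : ↥S2 => if (0 : ℝ) ≤ (x : R3).1 then Lp (x : R3).2
        else Lm (x : R3).2 + κ := by
      refine Continuous.if_le ?_ ?_ ?_ ?_ ?_
      · fun_prop
      · fun_prop
      · fun_prop
      · fun_prop
      · intro x hx
        have hx2 := mem_S2.mp x.2
        rw [← hx] at hx2
        have hn : ‖(x : R3).2‖ ^ 2 = 1 := by rw [nsqC]; linarith
        have hn1 : ‖(x : R3).2‖ = 1 := by
          have := norm_nonneg (x : R3).2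
          nlinarith
        have := hconst (x : R3).2 (by simpa using hn1)
        rw [← this]
        ring
    exact hc
  · intro m hm
    have hm' := mem_S2.mp hm
    have hn : ‖m.2‖ ^ 2 = 1 - m.1 ^ 2 := by rw [nsqC]; linarith
    have hn1 : ‖m.2‖ ≤ 1 := by
      have := norm_nonneg m.2
      nlinarith [sq_nonneg m.1]
    show Complex.exp (if 0 ≤ m.1 then Lp m.2 else Lm m.2 + κ) = F m
    split_ifs with h
    · rw [hLpe]
      congr 1
      unfold hs
      rw [rt_eq hn1, hn, sub_sub_cancel, Real.sqrt_sq h, one_mul]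
    · rw [Complex.exp_add, hexpκ, mul_one, hLme]
      congr 1
      unfold hs
      rw [rt_eq hn1, hn, sub_sub_cancel, Real.sqrt_sq_eq_abs, abs_of_neg (not_le.mp h)]
      simp

/-- the coordinates of `sph 1` -/
noncomputable def ee (p : R4) : R3 := (5 : ℝ) • (p.2 - (1, 0))

noncomputable def ei (m : R3) : R4 := (1 / 2, (1, 0) + (1 / 5 : ℝ) • m)

theorem ee_mem {p : R4} (hp : p ∈ sph 1) : ee p ∈ S2 := by
  have h : (p.2.1 - 1) ^ 2 + p.2.2.re ^ 2 + p.2.2.im ^ 2 = 1 / 25 := hp.2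
  rw [mem_S2]
  unfold ee
  simp only [Prod.smul_fst, Prod.smul_snd, Prod.fst_sub, Prod.snd_sub, sub_zero, Complex.smul_re,
    Complex.smul_im, smul_eq_mul]
  nlinarith

theorem ei_mem {m : R3} (hm : m ∈ S2) : ei m ∈ sph 1 := by
  have hm' := mem_S2.mp hm
  refine ⟨rfl, ?_⟩
  show ((1 : ℝ) + ((1 / 5 : ℝ) • m).1 - 1) ^ 2 + ((0 : ℂ) + ((1 / 5 : ℝ) • m).2).re ^ 2 +
    ((0 : ℂ) + ((1 / 5 : ℝ) • m).2).im ^ 2 = 1 / 25
  simp only [Prod.smul_fst, Prod.smul_snd, zero_add, Complex.smul_re,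
    Complex.smul_im, smul_eq_mul]
  nlinarith

theorem ei_ee {p : R4} (hp : p ∈ sph 1) : ei (ee p) = p := by
  unfold ei ee
  rw [smul_smul]
  norm_num
  exact Prod.ext (by simpa using hp.1.symm) rfl

section

variable (v e : EuclideanSpace ℝ (Fin 5)) (k : R4 → S4) (l : R4 → ℂ)

/-- the unnormalised homotopy -/
noncomputable def ww (x : ℝ × R4) : EuclideanSpace ℝ (Fin 5) :=
  (Complex.exp (((1 - x.1 : ℝ) : ℂ) * l x.2)).re • v +
    (Complex.exp (((1 - x.1 : ℝ) : ℂ) * l x.2)).im • e +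
    (1 - x.1) • ((k x.2 : EuclideanSpace ℝ (Fin 5)) -
      inner ℝ (k x.2 : EuclideanSpace ℝ (Fin 5)) v • v -
      inner ℝ (k x.2 : EuclideanSpace ℝ (Fin 5)) e • e)

variable {v e}

theorem ww_v (hv : ‖v‖ = 1) (hve : inner ℝ v e = 0) (x : ℝ × R4) :
    inner ℝ (ww v e k l x) v = (Complex.exp (((1 - x.1 : ℝ) : ℂ) * l x.2)).re := by
  have hvv : inner ℝ v v = (1 : ℝ) := by rw [real_inner_self_eq_norm_sq, hv]; norm_num
  have hev : inner ℝ e v = (0 : ℝ) := by rw [real_inner_comm]; exact hve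
  unfold ww
  simp only [inner_add_left, inner_sub_left, inner_smul_left, hvv, hev, RCLike.conj_to_real]
  ring

theorem ww_e (he : ‖e‖ = 1) (hve : inner ℝ v e = 0) (x : ℝ × R4) :
    inner ℝ (ww v e k l x) e = (Complex.exp (((1 - x.1 : ℝ) : ℂ) * l x.2)).im := by
  have hee : inner ℝ e e = (1 : ℝ) := by rw [real_inner_self_eq_norm_sq, he]; norm_num
  unfold ww
  simp only [inner_add_left, inner_sub_left, inner_smul_left, hee, hve, RCLike.conj_to_real]
  ring

theorem ww_off (hv : ‖v‖ = 1) (he : ‖e‖ = 1) (hve : inner ℝ v e = 0) (x : ℝ × R4) :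
    inner ℝ (ww v e k l x) v ≠ 0 ∨ inner ℝ (ww v e k l x) e ≠ 0 := by
  rw [ww_v k l hv hve, ww_e k l he hve]
  by_contra hcon
  push Not at hcon
  exact Complex.exp_ne_zero _ (Complex.ext hcon.1 hcon.2)

theorem ww_ne (hv : ‖v‖ = 1) (he : ‖e‖ = 1) (hve : inner ℝ v e = 0) (x : ℝ × R4) :
    ww v e k l x ≠ 0 := by
  intro h
  have := ww_off k l hv he hve x
  rw [h] at this
  simp at this

end

theorem unk2 (v e : EuclideanSpace ℝ (Fin 5)) (hv : ‖v‖ = 1) (he : ‖e‖ = 1)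
    (hve : inner ℝ v e = 0) (k : R4 → S4) (hk : ContinuousOn k (sph 1))
    (hoff : ∀ p ∈ sph 1, inner ℝ (k p : EuclideanSpace ℝ (Fin 5)) v ≠ 0 ∨
      inner ℝ (k p : EuclideanSpace ℝ (Fin 5)) e ≠ 0) :
    ∃ (h : ℝ × R4 → S4) (y : S4), ContinuousOn h (Icc (0 : ℝ) 1 ×ˢ sph 1) ∧
      (∀ p ∈ sph 1, h (0, p) = k p) ∧ (∀ p ∈ sph 1, h (1, p) = y) ∧
      ∀ u ∈ Icc (0 : ℝ) 1, ∀ p ∈ sph 1,
        inner ℝ (h (u, p) : EuclideanSpace ℝ (Fin 5)) v ≠ 0 ∨
          inner ℝ (h (u, p) : EuclideanSpace ℝ (Fin 5)) e ≠ 0 := by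
  let z : R4 → ℂ := fun p => ⟨inner ℝ (k p : EuclideanSpace ℝ (Fin 5)) v,
    inner ℝ (k p : EuclideanSpace ℝ (Fin 5)) e⟩
  have hk' : ContinuousOn (fun p => (k p : EuclideanSpace ℝ (Fin 5))) (sph 1) :=
    continuous_subtype_val.comp_continuousOn hk
  have hz : ContinuousOn z (sph 1) := by
    have h1 : ContinuousOn (fun p => inner ℝ (k p : EuclideanSpace ℝ (Fin 5)) v) (sph 1) :=
      hk'.inner continuousOn_const
    have h2 : ContinuousOn (fun p => inner ℝ (k p : EuclideanSpace ℝ (Fin 5)) e) (sph 1) :=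
      hk'.inner continuousOn_const
    exact Complex.equivRealProdCLM.symm.continuous.comp_continuousOn (h1.prodMk h2)
  have hz0 : ∀ p ∈ sph 1, z p ≠ 0 := by
    intro p hp h
    rcases hoff p hp with h1 | h1
    · exact h1 (congrArg Complex.re h)
    · exact h1 (congrArg Complex.im h)
  have hei : Continuous ei := by
    unfold ei
    fun_prop
  have hee : Continuous ee := by
    unfold ee
    fun_prop
  obtain ⟨l₀, hl₀, hl₀e⟩ := log_S2 (fun m => z (ei m))
    (hz.comp hei.continuousOn (fun m hm => ei_mem hm)) (fun m hm => hz0 _ (ei_mem hm))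
  let l : R4 → ℂ := fun p => l₀ (ee p)
  have hl : ContinuousOn l (sph 1) := hl₀.comp hee.continuousOn (fun p hp => ee_mem hp)
  have hle : ∀ p ∈ sph 1, Complex.exp (l p) = z p := by
    intro p hp
    show Complex.exp (l₀ (ee p)) = z p
    rw [hl₀e _ (ee_mem hp), ei_ee hp]
  have hwc : ContinuousOn (ww v e k l) (Icc (0 : ℝ) 1 ×ˢ sph 1) := by
    have h1 : ContinuousOn (fun x : ℝ × R4 => l x.2) (Icc (0 : ℝ) 1 ×ˢ sph 1) :=
      hl.comp continuousOn_snd (fun x hx => hx.2)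
    have h2 : ContinuousOn (fun x : ℝ × R4 => (k x.2 : EuclideanSpace ℝ (Fin 5)))
        (Icc (0 : ℝ) 1 ×ˢ sph 1) :=
      hk'.comp continuousOn_snd (fun x hx => hx.2)
    have h3 : ContinuousOn (fun x : ℝ × R4 => Complex.exp (((1 - x.1 : ℝ) : ℂ) * l x.2))
        (Icc (0 : ℝ) 1 ×ˢ sph 1) := by
      refine Complex.continuous_exp.comp_continuousOn (ContinuousOn.mul ?_ h1)
      exact (Complex.continuous_ofReal.comp (by fun_prop : Continuous fun x : ℝ × R4 => 1 - x.1)).continuousOn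
    have h4 : ContinuousOn (fun x : ℝ × R4 => 1 - x.1) (Icc (0 : ℝ) 1 ×ˢ sph 1) := by fun_prop
    unfold ww
    refine ContinuousOn.add (ContinuousOn.add ?_ ?_) ?_
    · exact (Complex.continuous_re.comp_continuousOn h3).smul continuousOn_const
    · exact (Complex.continuous_im.comp_continuousOn h3).smul continuousOn_const
    · have h5 : ∀ a : EuclideanSpace ℝ (Fin 5), ContinuousOn (fun x : ℝ × R4 =>
          inner ℝ (k x.2 : EuclideanSpace ℝ (Fin 5)) a • a) (Icc (0 : ℝ) 1 ×ˢ sph 1) := by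
        intro a
        have h6 : ContinuousOn (fun x : ℝ × R4 =>
            inner ℝ (k x.2 : EuclideanSpace ℝ (Fin 5)) a) (Icc (0 : ℝ) 1 ×ˢ sph 1) :=
          h2.inner continuousOn_const
        exact h6.smul continuousOn_const
      exact h4.smul ((h2.sub (h5 v)).sub (h5 e))
  have hne := ww_ne k l hv he hve
  let h : ℝ × R4 → S4 := fun x => ⟨‖ww v e k l x‖⁻¹ • ww v e k l x, by
    rw [mem_sphere_zero_iff_norm, norm_smul, norm_inv, norm_norm]
    exact inv_mul_cancel₀ (norm_ne_zero_iff.mpr (hne x))⟩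
  refine ⟨h, ⟨v, by rw [mem_sphere_zero_iff_norm, hv]⟩, ?_, ?_, ?_, ?_⟩
  · rw [Topology.IsInducing.subtypeVal.continuousOn_iff]
    exact (hwc.norm.inv₀ (fun x _ => norm_ne_zero_iff.mpr (hne x))).smul hwc
  · intro p hp
    have hw : ww v e k l (0, p) = (k p : EuclideanSpace ℝ (Fin 5)) := by
      unfold ww
      simp only [sub_zero, Complex.ofReal_one, one_mul, one_smul, hle p hp]
      show inner ℝ (k p : EuclideanSpace ℝ (Fin 5)) v • v +
        inner ℝ (k p : EuclideanSpace ℝ (Fin 5)) e • e + _ = _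
      abel
    apply Subtype.ext
    show ‖ww v e k l (0, p)‖⁻¹ • ww v e k l (0, p) = _
    rw [hw]
    have : ‖(k p : EuclideanSpace ℝ (Fin 5))‖ = 1 := mem_sphere_zero_iff_norm.mp (k p).2
    rw [this, inv_one, one_smul]
  · intro p _
    have hw : ww v e k l (1, p) = v := by
      unfold ww
      simp
    apply Subtype.ext
    show ‖ww v e k l (1, p)‖⁻¹ • ww v e k l (1, p) = v
    rw [hw, hv, inv_one, one_smul]
  · intro u _ p _
    have hi : ‖ww v e k l (u, p)‖⁻¹ ≠ 0 := inv_ne_zero (norm_ne_zero_iff.mpr (hne (u, p)))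
    have := ww_off k l hv he hve (u, p)
    show inner ℝ (‖ww v e k l (u, p)‖⁻¹ • ww v e k l (u, p)) v ≠ 0 ∨
      inner ℝ (‖ww v e k l (u, p)‖⁻¹ • ww v e k l (u, p)) e ≠ 0
    rw [inner_smul_left, inner_smul_left]
    simp only [RCLike.conj_to_real]
    rcases this with h1 | h1
    · exact Or.inl (mul_ne_zero hi h1)
    · exact Or.inr (mul_ne_zero hi h1)

end Pool.Agent.Helper34.BI.UNK2


end

/-! ## Helper13.BI5.M_N2a -/

section

/-! # Project BI, stage 5, module N2a -/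

set_option autoImplicit false

open scoped Manifold ContDiff Topology ComplexConjugate
open Set Filter Pool.Agent.Helper65.Barb Pool.Agent.Helper18.BI

namespace Pool.Agent.Helper27.S5

namespace N2a

open Metric MeasureTheory

theorem exp_const (g : ℝ → ℂ) (hg : Continuous g) (h : ∀ t, Complex.exp (g t) = 1) (s t : ℝ) :
    g s = g t := by
  have hdisc : DiscreteTopology (Complex.exp ⁻¹' {(1 : ℂ)} : Set ℂ) :=
    (Complex.isCoveringMapOn_exp (1 : ℂ) (by simp)).1
  exact isPreconnected_univ.constant_of_mapsTo (T := (Complex.exp ⁻¹' {(1 : ℂ)} : Set ℂ))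
    (f := g) ⟨hdisc⟩ hg.continuousOn (fun w _ => h w) trivial trivial

/-- distance of a compact set to a disjoint closed set -/
theorem far {X E : Type*} [TopologicalSpace X] [NormedAddCommGroup E] {C : Set E}
    (hC : IsClosed C) {Q : Set X} (hQ : IsCompact Q) {H0 : X → E} (hH0 : Continuous H0)
    (h2 : ∀ z ∈ Q, H0 z ∉ C) : ∃ η : ℝ, 0 < η ∧ ∀ z ∈ Q, ∀ c ∈ C, η ≤ dist (H0 z) c := by
  have hd : Disjoint (H0 '' Q) C := by
    rw [Set.disjoint_left]
    rintro _ ⟨z, hz, rfl⟩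
    exact h2 z hz
  obtain ⟨η, hη, hdis⟩ := hd.exists_thickenings (hQ.image hH0) hC
  refine ⟨η, hη, fun z hz c hc => ?_⟩
  by_contra hlt
  push Not at hlt
  have h3 : H0 z ∈ thickening η (H0 '' Q) :=
    self_subset_thickening hη _ (mem_image_of_mem _ hz)
  have h4 : H0 z ∈ thickening η C := mem_thickening_iff.2 ⟨c, hc, hlt⟩
  exact Set.disjoint_left.1 hdis h3 h4

/-- general position: a map of a three-dimensional space misses a countable closed set -/
theorem avoid {E : Type*} [NormedAddCommGroup E] [NormedSpace ℝ E] [FiniteDimensional ℝ E]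
    (hE : 3 < Module.finrank ℝ E) {B C : Set E} (hB : B.Countable) (hBc : IsClosed B)
    (hBn : B.Nonempty) (hC : IsClosed C) {Q D : Set (ℝ × ℝ × ℝ)} (hQ : IsCompact Q)
    (hD : IsCompact D) {H0 : ℝ × ℝ × ℝ → E} (hH0 : Continuous H0) (h1 : ∀ z ∈ D, H0 z ∉ B)
    (h2 : ∀ z ∈ Q, H0 z ∉ C) :
    ∃ H2 : ℝ × ℝ × ℝ → E, Continuous H2 ∧ (∀ z ∈ D, H2 z = H0 z) ∧ (∀ z, H2 z ∉ B) ∧
      ∀ z ∈ Q, H2 z ∉ C := by
  borelize E
  obtain ⟨η₁, hη1, hfar1⟩ := far hBc hD hH0 h1
  obtain ⟨η₂, hη2, hfar2⟩ := far hC hQ hH0 h2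
  set η := min η₁ η₂ with hη
  have hη0 : 0 < η := lt_min hη1 hη2
  have hle1 : η ≤ η₁ := min_le_left _ _
  have hle2 : η ≤ η₂ := min_le_right _ _
  set d : ℝ × ℝ × ℝ → ℝ := fun z => infDist (H0 z) B with hd
  have hdc : Continuous d := (continuous_infDist_pt B).comp hH0
  set χ : ℝ × ℝ × ℝ → ℝ := fun z => max 0 (min 1 (2 - 2 / η * d z)) with hχ
  have hχc : Continuous χ := by fun_prop
  have hχ0 : ∀ z, 0 ≤ χ z := fun z => le_max_left _ _
  have hχ1 : ∀ z, χ z ≤ 1 := fun z => max_le zero_le_one (min_le_left _ _)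
  obtain ⟨H1, hH1, hH1d, -⟩ := hH0.exists_contDiff_approx (ε := fun _ => η / 4) ⊤
    continuous_const (fun _ => by positivity)
  -- the translation
  obtain ⟨v, hv, hvB⟩ : ∃ v : E, ‖v‖ < η / 4 ∧ ∀ z, H1 z + v ∉ B := by
    let μ : Measure E := Measure.addHaar
    have hnull : μ (⋃ b ∈ B, (fun z => b - H1 z) '' univ) = 0 := by
      rw [measure_biUnion_null_iff hB]
      intro b _
      refine Pool.Agent.Helper34.BI.null_image μ ?_ ?_
      · simpa using hE
      · have h3 : Differentiable ℝ H1 := hH1.differentiable (by simp)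
        exact (h3.const_sub b).differentiableOn
    have hpos : 0 < μ (ball (0 : E) (η / 4)) := measure_ball_pos μ 0 (by positivity)
    by_contra hno
    push Not at hno
    have hsub : ball (0 : E) (η / 4) ⊆ ⋃ b ∈ B, (fun z => b - H1 z) '' univ := by
      intro v hv
      rw [mem_ball_zero_iff] at hv
      obtain ⟨z, hz⟩ := hno v hv
      rw [mem_iUnion₂]
      refine ⟨H1 z + v, hz, z, trivial, ?_⟩
      simp
    exact hpos.ne' (measure_mono_null hsub hnull)
  set H2 : ℝ × ℝ × ℝ → E := fun z => H0 z + χ z • (H1 z - H0 z + v) with hH2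
  have hH2c : Continuous H2 := by
    have := hH1.continuous
    fun_prop
  have hclose : ∀ z, dist (H0 z) (H2 z) < η / 2 := by
    intro z
    rw [dist_comm, dist_eq_norm, hH2]
    simp only [add_sub_cancel_left]
    have h3 : ‖H1 z - H0 z‖ < η / 4 := by
      have := hH1d z
      rwa [dist_eq_norm] at this
    calc ‖χ z • (H1 z - H0 z + v)‖ = χ z * ‖H1 z - H0 z + v‖ := by
          rw [norm_smul, Real.norm_of_nonneg (hχ0 z)]
      _ ≤ 1 * ‖H1 z - H0 z + v‖ := mul_le_mul_of_nonneg_right (hχ1 z) (norm_nonneg _)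
      _ ≤ ‖H1 z - H0 z‖ + ‖v‖ := by
          rw [one_mul]
          exact norm_add_le _ _
      _ < η / 2 := by linarith
  refine ⟨H2, hH2c, ?_, ?_, ?_⟩
  · intro z hz
    have h3 : η ≤ d z := hle1.trans ((le_infDist hBn).2 fun y hy => hfar1 z hz y hy)
    have h4 : χ z = 0 := by
      refine max_eq_left ((min_le_right _ _).trans ?_)
      have h5 : 2 / η * η ≤ 2 / η * d z := mul_le_mul_of_nonneg_left h3 (by positivity)
      rw [div_mul_cancel₀ _ hη0.ne'] at h5
      linarith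
    rw [hH2]
    simp only [h4, zero_smul, add_zero]
  · intro z hz
    by_cases hdz : d z ≤ η / 2
    · have h4 : χ z = 1 := by
        have h5 : 2 / η * d z ≤ 2 / η * (η / 2) := mul_le_mul_of_nonneg_left hdz (by positivity)
        have h6 : 2 / η * (η / 2) = 1 := by field_simp
        rw [h6] at h5
        have h7 : min 1 (2 - 2 / η * d z) = 1 := min_eq_left (by linarith)
        rw [hχ]
        simp only [h7]
        norm_num
      apply hvB z
      rw [hH2] at hz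
      simp only [h4, one_smul] at hz
      convert hz using 1
      abel
    · push Not at hdz
      have h3 := infDist_le_dist_of_mem (x := H0 z) hz
      have h4 := hclose z
      have h5 : d z = infDist (H0 z) B := rfl
      linarith
  · intro z hz hzC
    have h3 := hfar2 z hz _ hzC
    have h4 := hclose z
    linarith

/-! ### the coordinates -/

/-- the first coordinate, rescaled -/
noncomputable def sgm (ρ : ℝ) (p : R4) : ℝ := (p.1 - 1 / 2) / ρ

/-- the squared norm of the second coordinate, rescaled -/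
noncomputable def n1 (ρ : ℝ) (p : R4) : ℝ := rsq 1 p / ρ ^ 2

/-- zero exactly on the round sphere -/
noncomputable def ZZ (ρ : ℝ) (p : R4) : ℂ := ⟨2 * sgm ρ p, n1 ρ p + sgm ρ p ^ 2 - 1⟩

noncomputable def NN (ρ : ℝ) (p : R4) : ℝ := n1 ρ p + sgm ρ p ^ 2 + 1

noncomputable def ww (ρ : ℝ) (p : R4) : ℝ × ℂ :=
  (2 / NN ρ p * ((p.2.1 - 1) / ρ), ((2 / NN ρ p / ρ : ℝ) : ℂ) * p.2.2)

noncomputable def rr (x : R4) : ℝ := Real.sqrt (1 - nsq x.2)

noncomputable def dd (x : R4) : ℝ := 1 - rr x * Real.sin x.1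

noncomputable def PP (ρ : ℝ) (x : R4) : R4 :=
  (1 / 2 + ρ * (rr x * Real.cos x.1 / dd x), (1 + ρ * (x.2.1 / dd x), ((ρ / dd x : ℝ) : ℂ) * x.2.2))

theorem n1_nonneg (ρ : ℝ) (p : R4) : 0 ≤ n1 ρ p := by
  unfold n1 rsq nsq
  positivity

theorem NN_pos (ρ : ℝ) (p : R4) : 0 < NN ρ p := by
  have := n1_nonneg ρ p
  unfold NN
  positivity

theorem ZZ_ne {ρ : ℝ} (hρ : 0 < ρ) {p : R4} (hp : ¬(p.1 = 1 / 2 ∧ rsq 1 p = ρ ^ 2)) :
    ZZ ρ p ≠ 0 := by
  intro h
  have h1 := congrArg Complex.re h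
  have h2 := congrArg Complex.im h
  simp only [ZZ, Complex.zero_re, Complex.zero_im] at h1 h2
  have h3 : sgm ρ p = 0 := by linarith
  rw [h3] at h2
  apply hp
  constructor
  · unfold sgm at h3
    rw [div_eq_zero_iff] at h3
    rcases h3 with h3 | h3
    · linarith
    · exact absurd h3 hρ.ne'
  · have h4 : n1 ρ p = 1 := by linarith
    unfold n1 at h4
    rw [div_eq_one_iff_eq (by positivity)] at h4
    exact h4

theorem nsq_ww {ρ : ℝ} (hρ : 0 < ρ) (p : R4) : nsq (ww ρ p) = 4 * n1 ρ p / NN ρ p ^ 2 := by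
  have hN := NN_pos ρ p
  have h1 : n1 ρ p = ((p.2.1 - 1) ^ 2 + p.2.2.re ^ 2 + p.2.2.im ^ 2) / ρ ^ 2 := rfl
  rw [h1]
  unfold nsq ww
  simp only [Complex.mul_re, Complex.mul_im, Complex.ofReal_re, Complex.ofReal_im, zero_mul,
    sub_zero, add_zero]
  field_simp
  ring

theorem one_sub_nsq {ρ : ℝ} (hρ : 0 < ρ) (p : R4) {R θ : ℝ} (h1 : 2 * sgm ρ p = R * Real.cos θ)
    (h2 : n1 ρ p + sgm ρ p ^ 2 - 1 = R * Real.sin θ) :
    1 - nsq (ww ρ p) = (R / NN ρ p) ^ 2 := by
  have hN := NN_pos ρ p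
  rw [nsq_ww hρ, div_pow, eq_div_iff (by positivity), sub_mul, div_mul_cancel₀ _ (by positivity)]
  have h3 : R ^ 2 = (R * Real.cos θ) ^ 2 + (R * Real.sin θ) ^ 2 := by
    have := Real.sin_sq_add_cos_sq θ
    nlinarith
  rw [h3, ← h1, ← h2]
  unfold NN
  ring

theorem rr_ww {ρ : ℝ} (hρ : 0 < ρ) (p : R4) {R θ : ℝ} (hR : 0 < R)
    (h1 : 2 * sgm ρ p = R * Real.cos θ) (h2 : n1 ρ p + sgm ρ p ^ 2 - 1 = R * Real.sin θ) :
    rr (θ, ww ρ p) = R / NN ρ p := by
  unfold rr
  rw [one_sub_nsq hρ p h1 h2]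
  exact Real.sqrt_sq (div_nonneg hR.le (NN_pos ρ p).le)

theorem dd_ww {ρ : ℝ} (hρ : 0 < ρ) (p : R4) {R θ : ℝ} (hR : 0 < R)
    (h1 : 2 * sgm ρ p = R * Real.cos θ) (h2 : n1 ρ p + sgm ρ p ^ 2 - 1 = R * Real.sin θ) :
    dd (θ, ww ρ p) = 2 / NN ρ p := by
  have hN := NN_pos ρ p
  unfold dd
  rw [rr_ww hρ p hR h1 h2]
  show 1 - R / NN ρ p * Real.sin θ = 2 / NN ρ p
  rw [div_mul_eq_mul_div, ← h2, eq_div_iff hN.ne', sub_mul, div_mul_cancel₀ _ hN.ne']
  unfold NN
  ring

theorem PP_ww {ρ : ℝ} (hρ : 0 < ρ) (p : R4) {R θ : ℝ} (hR : 0 < R)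
    (h1 : 2 * sgm ρ p = R * Real.cos θ) (h2 : n1 ρ p + sgm ρ p ^ 2 - 1 = R * Real.sin θ) :
    PP ρ (θ, ww ρ p) = p := by
  have hN := NN_pos ρ p
  unfold PP
  rw [rr_ww hρ p hR h1 h2, dd_ww hρ p hR h1 h2]
  refine Prod.ext ?_ (Prod.ext ?_ ?_)
  · show 1 / 2 + ρ * (R / NN ρ p * Real.cos θ / (2 / NN ρ p)) = p.1
    have h3 : R / NN ρ p * Real.cos θ / (2 / NN ρ p) = (R * Real.cos θ) / 2 := by
      field_simp
    rw [h3, ← h1]
    unfold sgm
    field_simp
    ring
  · show 1 + ρ * ((2 / NN ρ p * ((p.2.1 - 1) / ρ)) / (2 / NN ρ p)) = p.2.1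
    field_simp
    ring
  · show ((ρ / (2 / NN ρ p) : ℝ) : ℂ) * (((2 / NN ρ p / ρ : ℝ) : ℂ) * p.2.2) = p.2.2
    rw [← mul_assoc, ← Complex.ofReal_mul]
    have h3 : ρ / (2 / NN ρ p) * (2 / NN ρ p / ρ) = 1 := by
      field_simp
    rw [h3, Complex.ofReal_one, one_mul]

theorem nsq_lt {ρ : ℝ} (hρ : 0 < ρ) (p : R4) {R θ : ℝ} (hR : 0 < R)
    (h1 : 2 * sgm ρ p = R * Real.cos θ) (h2 : n1 ρ p + sgm ρ p ^ 2 - 1 = R * Real.sin θ) :
    nsq (ww ρ p) < 1 := by
  have h3 := one_sub_nsq hρ p h1 h2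
  have h4 : 0 < (R / NN ρ p) ^ 2 := by
    have := NN_pos ρ p
    positivity
  linarith

/-- the bad points -/
def BB : Set R4 := {x | x.2 = 0 ∧ Real.sin x.1 = 1}

theorem BB_closed : IsClosed BB :=
  (isClosed_eq continuous_snd continuous_const).inter
    (isClosed_eq (Real.continuous_sin.comp continuous_fst) continuous_const)

theorem BB_countable : BB.Countable := by
  refine (Set.countable_range (fun k : ℤ => ((Real.pi / 2 + k * (2 * Real.pi), 0) : R4))).mono ?_
  rintro ⟨θ, w⟩ ⟨h1, h2⟩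
  simp only at h1 h2
  obtain ⟨k, hk⟩ := Real.sin_eq_one_iff.1 h2
  exact ⟨k, by simp only [hk, h1]⟩

theorem BB_nonempty : BB.Nonempty := ⟨(Real.pi / 2, 0), rfl, Real.sin_pi_div_two⟩

theorem not_bad {ρ : ℝ} (hρ : 0 < ρ) (p : R4) {R θ : ℝ} (hR : 0 < R)
    (h1 : 2 * sgm ρ p = R * Real.cos θ) (h2 : n1 ρ p + sgm ρ p ^ 2 - 1 = R * Real.sin θ) :
    ((θ, ww ρ p) : R4) ∉ BB := by
  rintro ⟨h3, h4⟩
  simp only at h3 h4
  have hN := NN_pos ρ p
  have h5 : nsq (ww ρ p) = 0 := by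
    rw [h3]
    simp [nsq]
  rw [nsq_ww hρ, div_eq_zero_iff] at h5
  have h6 : n1 ρ p = 0 := by
    rcases h5 with h5 | h5
    · linarith
    · exact absurd h5 (by positivity)
  have h7 : Real.cos θ = 0 := by
    have := Real.sin_sq_add_cos_sq θ
    rw [h4] at this
    nlinarith
  rw [h7, mul_zero] at h1
  have h8 : sgm ρ p = 0 := by linarith
  rw [h6, h8, h4] at h2
  linarith

theorem nsq_nonneg (w : ℝ × ℂ) : 0 ≤ nsq w := by
  unfold nsq
  positivity

theorem dd_ne {x : R4} (h1 : nsq x.2 < 1) (h2 : x ∉ BB) : dd x ≠ 0 := by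
  intro h
  unfold dd at h
  have h3 : rr x * Real.sin x.1 = 1 := by linarith
  have h4 : rr x ^ 2 = 1 - nsq x.2 := Real.sq_sqrt (by linarith)
  have h5 := nsq_nonneg x.2
  have h6 := Real.sin_sq_add_cos_sq x.1
  have h7 : 0 ≤ rr x := Real.sqrt_nonneg _
  have h8 : rr x ≤ 1 := by nlinarith
  have h9 := Real.sin_le_one x.1
  have h10 : 0 < rr x := by
    rcases h7.lt_or_eq with h | h
    · exact h
    · rw [← h, zero_mul] at h3
      linarith
  have h11 : rr x = 1 := by nlinarith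
  have h12 : Real.sin x.1 = 1 := by
    rw [h11, one_mul] at h3
    exact h3
  apply h2
  refine ⟨?_, h12⟩
  rw [h11] at h4
  have h13 : nsq x.2 = 0 := by linarith
  unfold nsq at h13
  have e1 : x.2.1 = 0 := by nlinarith [sq_nonneg x.2.1, sq_nonneg x.2.2.re, sq_nonneg x.2.2.im]
  have e2 : x.2.2.re = 0 := by nlinarith [sq_nonneg x.2.1, sq_nonneg x.2.2.re, sq_nonneg x.2.2.im]
  have e3 : x.2.2.im = 0 := by nlinarith [sq_nonneg x.2.1, sq_nonneg x.2.2.re, sq_nonneg x.2.2.im]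
  exact Prod.ext e1 (Complex.ext e2 e3)

theorem PP_off {ρ : ℝ} (hρ : 0 < ρ) {x : R4} (h1 : nsq x.2 < 1) (h2 : x ∉ BB) :
    ¬((PP ρ x).1 = 1 / 2 ∧ rsq 1 (PP ρ x) = ρ ^ 2) := by
  rintro ⟨h3, h4⟩
  have hd := dd_ne h1 h2
  have h5 : rr x ^ 2 = 1 - nsq x.2 := Real.sq_sqrt (by linarith)
  have h6 : 0 < rr x := Real.sqrt_pos.2 (by linarith)
  have h7 : Real.cos x.1 = 0 := by
    have e : (PP ρ x).1 = 1 / 2 + ρ * (rr x * Real.cos x.1 / dd x) := rfl
    rw [e] at h3
    have e1 : ρ * (rr x * Real.cos x.1 / dd x) = 0 := by linarith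
    rw [mul_eq_zero, div_eq_zero_iff, mul_eq_zero] at e1
    rcases e1 with e1 | (e1 | e1) | e1
    · exact absurd e1 hρ.ne'
    · exact absurd e1 h6.ne'
    · exact e1
    · exact absurd e1 hd
  have h8 : rsq 1 (PP ρ x) = ρ ^ 2 * nsq x.2 / dd x ^ 2 := by
    unfold rsq nsq PP
    simp only [Complex.mul_re, Complex.mul_im, Complex.ofReal_re, Complex.ofReal_im, zero_mul,
      sub_zero, add_zero]
    field_simp
    ring
  rw [h8, div_eq_iff (by positivity)] at h4
  have h9 : nsq x.2 = dd x ^ 2 := by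
    have : ρ ^ 2 ≠ 0 := by positivity
    exact mul_left_cancel₀ this h4
  have h10 : Real.sin x.1 ^ 2 = 1 := by
    have := Real.sin_sq_add_cos_sq x.1
    rw [h7] at this
    linarith
  unfold dd at h9
  have h11 : rr x * Real.sin x.1 = rr x ^ 2 := by nlinarith
  have h12 : Real.sin x.1 = rr x := by
    rw [pow_two] at h11
    exact mul_left_cancel₀ h6.ne' h11
  have h13 : dd x = 0 := by
    unfold dd
    rw [← h12, ← pow_two, h10]
    norm_num
  exact hd h13

theorem cont_nsq : Continuous nsq := by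
  unfold nsq
  fun_prop

theorem cont_rr : Continuous rr :=
  Real.continuous_sqrt.comp (continuous_const.sub (cont_nsq.comp continuous_snd))

theorem cont_dd : Continuous dd :=
  continuous_const.sub (cont_rr.mul (Real.continuous_sin.comp continuous_fst))

theorem cont_PP (ρ : ℝ) {S : Set (ℝ × ℝ × ℝ)} {H2 : ℝ × ℝ × ℝ → R4} (hH : Continuous H2)
    (h : ∀ z ∈ S, dd (H2 z) ≠ 0) : ContinuousOn (fun z => PP ρ (H2 z)) S := by
  have hd : ContinuousOn (fun z => dd (H2 z)) S := (cont_dd.comp hH).continuousOn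
  have hr : ContinuousOn (fun z => rr (H2 z)) S := (cont_rr.comp hH).continuousOn
  have h1 : ContinuousOn (fun z => Real.cos (H2 z).1) S :=
    (Real.continuous_cos.comp (continuous_fst.comp hH)).continuousOn
  have h2 : ContinuousOn (fun z => (H2 z).2.1) S :=
    (continuous_fst.comp (continuous_snd.comp hH)).continuousOn
  have h3 : ContinuousOn (fun z => (H2 z).2.2) S :=
    (continuous_snd.comp (continuous_snd.comp hH)).continuousOn
  refine ContinuousOn.prodMk ?_ (ContinuousOn.prodMk ?_ ?_)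
  · exact continuousOn_const.add (continuousOn_const.mul ((hr.mul h1).div hd h))
  · exact continuousOn_const.add (continuousOn_const.mul (h2.div hd h))
  · exact (Complex.continuous_ofReal.comp_continuousOn (continuousOn_const.div hd h)).mul h3

theorem cont_n1 (ρ : ℝ) : Continuous (n1 ρ) := by
  unfold n1 rsq nsq
  fun_prop

theorem cont_sgm (ρ : ℝ) : Continuous (sgm ρ) := by
  unfold sgm
  fun_prop

theorem cont_ZZ (ρ : ℝ) : Continuous (ZZ ρ) := by
  have h1 := cont_n1 ρ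
  have h2 := cont_sgm ρ
  have h3 : ZZ ρ = fun p => ((2 * sgm ρ p : ℝ) : ℂ) +
      ((n1 ρ p + sgm ρ p ^ 2 - 1 : ℝ) : ℂ) * Complex.I := by
    funext p
    apply Complex.ext
    · simp only [ZZ, Complex.add_re, Complex.ofReal_re, Complex.mul_re, Complex.I_re,
        Complex.ofReal_im, Complex.I_im, mul_zero, zero_mul, sub_zero, add_zero]
    · simp only [ZZ, Complex.add_im, Complex.ofReal_im, Complex.mul_im, Complex.ofReal_re,
        Complex.I_im, Complex.I_re, mul_one, mul_zero, add_zero, zero_add]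
  rw [h3]
  exact (Complex.continuous_ofReal.comp (by fun_prop)).add
    ((Complex.continuous_ofReal.comp (by fun_prop)).mul continuous_const)

theorem cont_ww {ρ : ℝ} : Continuous (ww ρ) := by
  have h1 := cont_n1 ρ
  have h2 := cont_sgm ρ
  have h3 : Continuous (NN ρ) := by
    unfold NN
    fun_prop
  have h4 : ∀ p, NN ρ p ≠ 0 := fun p => (NN_pos ρ p).ne'
  have h5 : Continuous fun p => 2 / NN ρ p := continuous_const.div h3 h4
  refine Continuous.prodMk ?_ ?_
  · exact h5.mul (by fun_prop)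
  · exact (Complex.continuous_ofReal.comp (h5.div_const ρ)).mul (by fun_prop)

theorem nsq_conv {w w' : ℝ × ℂ} (h1 : nsq w < 1) (h2 : nsq w' < 1) {u : ℝ} (hu0 : 0 ≤ u)
    (hu1 : u ≤ 1) : nsq ((1 - u) • w + u • w') < 1 := by
  have h3 : nsq ((1 - u) • w + u • w') = (1 - u) * nsq w + u * nsq w' -
      u * (1 - u) * ((w.1 - w'.1) ^ 2 + (w.2.re - w'.2.re) ^ 2 + (w.2.im - w'.2.im) ^ 2) := by
    unfold nsq
    simp only [Prod.fst_add, Prod.snd_add, Prod.smul_fst, Prod.smul_snd, smul_eq_mul,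
      Complex.add_re, Complex.add_im, Complex.smul_re, Complex.smul_im]
    ring
  rw [h3]
  have h4 : 0 ≤ u * (1 - u) * ((w.1 - w'.1) ^ 2 + (w.2.re - w'.2.re) ^ 2 +
      (w.2.im - w'.2.im) ^ 2) := by
    have : 0 ≤ 1 - u := by linarith
    positivity
  rcases hu0.lt_or_eq with hu | hu
  · nlinarith
  · rw [← hu] at h4 ⊢
    linarith

end N2a

open N2a in
theorem m_N2a : StN2a := by
  intro ρ m₀ m₁ f γ hρ hm hf hoff hbd
  -- extend by projections
  set p1 : ℝ → ℝ := fun x => (projIcc (0 : ℝ) 1 zero_le_one x : ℝ) with hp1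
  set p2 : ℝ → ℝ := fun x => (projIcc m₀ m₁ hm.le x : ℝ) with hp2
  have hp1c : Continuous p1 := continuous_subtype_val.comp continuous_projIcc
  have hp2c : Continuous p2 := continuous_subtype_val.comp continuous_projIcc
  have hp1m : ∀ x, p1 x ∈ Icc (0 : ℝ) 1 := fun x => (projIcc (0 : ℝ) 1 zero_le_one x).2
  have hp2m : ∀ x, p2 x ∈ Icc m₀ m₁ := fun x => (projIcc m₀ m₁ hm.le x).2
  have hp1e : ∀ x ∈ Icc (0 : ℝ) 1, p1 x = x := fun x hx => by
    rw [hp1]
    simp only [projIcc_of_mem zero_le_one hx]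
  have hp2e : ∀ x ∈ Icc m₀ m₁, p2 x = x := fun x hx => by
    rw [hp2]
    simp only [projIcc_of_mem hm.le hx]
  have h0m : (0 : ℝ) ∈ Icc (0 : ℝ) 1 := ⟨le_rfl, zero_le_one⟩
  have h1m : (1 : ℝ) ∈ Icc (0 : ℝ) 1 := ⟨zero_le_one, le_rfl⟩
  have hm0 : m₀ ∈ Icc m₀ m₁ := ⟨le_rfl, hm.le⟩
  have hm1 : m₁ ∈ Icc m₀ m₁ := ⟨hm.le, le_rfl⟩
  set fe : ℝ × ℝ → R4 := fun z => f (p1 z.1, p2 z.2) with hfe
  have hfec : Continuous fe := by
    refine hf.comp_continuous ((hp1c.comp continuous_fst).prodMk (hp2c.comp continuous_snd)) ?_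
    intro z
    exact ⟨hp1m _, hp2m _⟩
  have hfoff : ∀ z, ¬((fe z).1 = 1 / 2 ∧ rsq 1 (fe z) = ρ ^ 2) := fun z =>
    hoff _ ⟨hp1m _, hp2m _⟩
  obtain ⟨L, hL, hLe⟩ := Pool.Agent.Helper34.BI.UNK2.lift_log (fun z : ℂ => ZZ ρ (fe (z.re, z.im)))
    ((cont_ZZ ρ).comp (hfec.comp (Complex.continuous_re.prodMk Complex.continuous_im)))
    (fun z => ZZ_ne hρ (hfoff _))
  set L' : ℝ × ℝ → ℂ := fun z => L ⟨z.1, z.2⟩ with hL'
  have hL'c : Continuous L' := by
    have h3 : L' = fun z => L ((z.1 : ℂ) + (z.2 : ℂ) * Complex.I) := by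
      funext z
      rw [hL']
      simp only
      congr 1
      apply Complex.ext <;> simp
    rw [h3]
    exact hL.comp (by fun_prop)
  have hLe' : ∀ z : ℝ × ℝ, Complex.exp (L' z) = ZZ ρ (fe z) := fun z => hLe ⟨z.1, z.2⟩
  -- radius and angle
  have hre : ∀ z : ℝ × ℝ, 2 * sgm ρ (fe z) = Real.exp (L' z).re * Real.cos (L' z).im := by
    intro z
    have h3 := congrArg Complex.re (hLe' z)
    rw [Complex.exp_re] at h3
    exact h3.symm
  have him : ∀ z : ℝ × ℝ, n1 ρ (fe z) + sgm ρ (fe z) ^ 2 - 1 =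
      Real.exp (L' z).re * Real.sin (L' z).im := by
    intro z
    have h3 := congrArg Complex.im (hLe' z)
    rw [Complex.exp_im] at h3
    exact h3.symm
  -- constancy on the boundary
  have hc0 : ∀ x y : ℝ, L' (x, m₀) = L' (y, m₀) := by
    intro x y
    have h3 := exp_const (fun t => L' (t, m₀) - L' (0, m₀)) (by fun_prop) (fun t => by
      rw [Complex.exp_sub, hLe', hLe']
      have e1 : fe (t, m₀) = γ m₀ := by
        rw [hfe]
        simp only [hp2e m₀ hm0]
        exact hbd _ (hp1m t) _ hm0 (Or.inr (Or.inr (Or.inl rfl)))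
      have e2 : fe (0, m₀) = γ m₀ := by
        rw [hfe]
        simp only [hp2e m₀ hm0]
        exact hbd _ (hp1m 0) _ hm0 (Or.inr (Or.inr (Or.inl rfl)))
      rw [e1, ← e2]
      exact div_self (ZZ_ne hρ (hfoff _))) x y
    simpa using h3
  have hc1 : ∀ x y : ℝ, L' (x, m₁) = L' (y, m₁) := by
    intro x y
    have h3 := exp_const (fun t => L' (t, m₁) - L' (0, m₁)) (by fun_prop) (fun t => by
      rw [Complex.exp_sub, hLe', hLe']
      have e1 : fe (t, m₁) = γ m₁ := by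
        rw [hfe]
        simp only [hp2e m₁ hm1]
        exact hbd _ (hp1m t) _ hm1 (Or.inr (Or.inr (Or.inr rfl)))
      have e2 : fe (0, m₁) = γ m₁ := by
        rw [hfe]
        simp only [hp2e m₁ hm1]
        exact hbd _ (hp1m 0) _ hm1 (Or.inr (Or.inr (Or.inr rfl)))
      rw [e1, ← e2]
      exact div_self (ZZ_ne hρ (hfoff _))) x y
    simpa using h3
  have hfe01 : ∀ s : ℝ, fe (1, s) = fe (0, s) := by
    intro s
    rw [hfe]
    simp only [hp1e 1 h1m, hp1e 0 h0m]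
    rw [hbd 1 h1m _ (hp2m s) (Or.inr (Or.inl rfl)), hbd 0 h0m _ (hp2m s) (Or.inl rfl)]
  have hc2 : ∀ s : ℝ, L' (1, s) = L' (0, s) := by
    intro s
    have h3 := exp_const (fun t => L' (1, t) - L' (0, t)) (by fun_prop) (fun t => by
      rw [Complex.exp_sub, hLe', hLe', hfe01]
      exact div_self (ZZ_ne hρ (hfoff _))) s m₀
    rw [hc0 1 0, sub_self] at h3
    exact sub_eq_zero.1 h3
  -- the maps into the model
  set F : ℝ × ℝ → R4 := fun z => ((L' z).im, ww ρ (fe z)) with hF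
  have hFc : Continuous F := by
    refine Continuous.prodMk (Complex.continuous_im.comp hL'c) (cont_ww.comp hfec)
  have hPF : ∀ z, PP ρ (F z) = fe z := fun z => PP_ww hρ _ (Real.exp_pos _) (hre z) (him z)
  have hFb : ∀ z, F z ∉ BB := fun z => not_bad hρ _ (Real.exp_pos _) (hre z) (him z)
  have hFn : ∀ z, nsq (F z).2 < 1 := fun z => nsq_lt hρ _ (Real.exp_pos _) (hre z) (him z)
  have hFbd : ∀ q ∈ Icc (0 : ℝ) 1, ∀ s ∈ Icc m₀ m₁, (q = 0 ∨ q = 1 ∨ s = m₀ ∨ s = m₁) →
      F (q, s) = F (0, s) := by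
    intro q hq s hs h
    have e1 : fe (q, s) = fe (0, s) := by
      rw [hfe]
      simp only [hp1e q hq, hp1e 0 h0m, hp2e s hs]
      rw [hbd q hq s hs h, hbd 0 h0m s hs (Or.inl rfl)]
    have e2 : L' (q, s) = L' (0, s) := by
      rcases h with h | h | h | h
      · rw [h]
      · rw [h]
        exact hc2 s
      · rw [h]
        exact hc0 _ _
      · rw [h]
        exact hc1 _ _
    rw [hF]
    simp only [e1, e2]
  set H0 : ℝ × ℝ × ℝ → R4 := fun z => (1 - p1 z.1) • F (z.2.1, z.2.2) + p1 z.1 • F (0, z.2.2)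
    with hH0
  have hH0c : Continuous H0 := by
    have e1 : Continuous fun z : ℝ × ℝ × ℝ => p1 z.1 := hp1c.comp continuous_fst
    have e2 : Continuous fun z : ℝ × ℝ × ℝ => F (z.2.1, z.2.2) := hFc.comp (by fun_prop)
    have e3 : Continuous fun z : ℝ × ℝ × ℝ => F (0, z.2.2) := hFc.comp (by fun_prop)
    exact ((continuous_const.sub e1).smul e2).add (e1.smul e3)
  set Q : Set (ℝ × ℝ × ℝ) := Icc (0 : ℝ) 1 ×ˢ (Icc (0 : ℝ) 1 ×ˢ Icc m₀ m₁) with hQ
  have hQc : IsCompact Q := isCompact_Icc.prod (isCompact_Icc.prod isCompact_Icc)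
  set D : Set (ℝ × ℝ × ℝ) := Q ∩ ({z | z.1 = 0} ∪ {z | z.1 = 1} ∪ {z | z.2.1 = 0} ∪
    {z | z.2.1 = 1} ∪ {z | z.2.2 = m₀} ∪ {z | z.2.2 = m₁}) with hD
  have hDc : IsCompact D := by
    refine hQc.inter_right ?_
    refine (((((IsClosed.union ?_ ?_).union ?_).union ?_).union ?_).union ?_)
    · exact isClosed_eq (by fun_prop) continuous_const
    · exact isClosed_eq (by fun_prop) continuous_const
    · exact isClosed_eq (by fun_prop) continuous_const
    · exact isClosed_eq (by fun_prop) continuous_const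
    · exact isClosed_eq (by fun_prop) continuous_const
    · exact isClosed_eq (by fun_prop) continuous_const
  -- the values on the boundary
  have hH00 : ∀ q s : ℝ, H0 (0, q, s) = F (q, s) := by
    intro q s
    rw [hH0]
    simp only [hp1e 0 h0m, sub_zero, one_smul, zero_smul, add_zero]
  have hH01 : ∀ q s : ℝ, H0 (1, q, s) = F (0, s) := by
    intro q s
    rw [hH0]
    simp only [hp1e 1 h1m, sub_self, one_smul, zero_smul, zero_add]
  have hH0b : ∀ u : ℝ, ∀ q ∈ Icc (0 : ℝ) 1, ∀ s ∈ Icc m₀ m₁,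
      (q = 0 ∨ q = 1 ∨ s = m₀ ∨ s = m₁) → H0 (u, q, s) = F (0, s) := by
    intro u q hq s hs h
    rw [hH0]
    simp only [hFbd q hq s hs h]
    rw [← add_smul, sub_add_cancel, one_smul]
  have hH0D : ∀ z ∈ D, H0 z ∉ BB := by
    rintro ⟨u, q, s⟩ ⟨⟨-, hq, hs⟩, hz⟩
    simp only [mem_union, mem_ofPred_eq] at hz
    simp only at hq hs
    rcases hz with ((((hz | hz) | hz) | hz) | hz) | hz
    · rw [hz, hH00]
      exact hFb _
    · rw [hz, hH01]
      exact hFb _
    · rw [hH0b u q hq s hs (Or.inl hz)]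
      exact hFb _
    · rw [hH0b u q hq s hs (Or.inr (Or.inl hz))]
      exact hFb _
    · rw [hH0b u q hq s hs (Or.inr (Or.inr (Or.inl hz)))]
      exact hFb _
    · rw [hH0b u q hq s hs (Or.inr (Or.inr (Or.inr hz)))]
      exact hFb _
  set C : Set R4 := {x | 1 ≤ nsq x.2} with hC
  have hCc : IsClosed C := isClosed_le continuous_const (cont_nsq.comp continuous_snd)
  have hH0C : ∀ z ∈ Q, H0 z ∉ C := by
    intro z _ hz
    have e1 : nsq (H0 z).2 < 1 := nsq_conv (hFn _) (hFn _) (hp1m z.1).1 (hp1m z.1).2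
    have e2 : 1 ≤ nsq (H0 z).2 := hz
    linarith
  have hfin : 3 < Module.finrank ℝ R4 := by
    simp [Module.finrank_prod, Complex.finrank_real_complex]
  obtain ⟨H2, hH2c, hH2D, hH2B, hH2C⟩ := avoid hfin BB_countable BB_closed BB_nonempty hCc hQc hDc
    hH0c hH0D hH0C
  have hn : ∀ z ∈ Q, nsq (H2 z).2 < 1 := by
    intro z hz
    by_contra h
    push Not at h
    exact hH2C z hz h
  have hmD : ∀ u ∈ Icc (0 : ℝ) 1, ∀ q ∈ Icc (0 : ℝ) 1, ∀ s ∈ Icc m₀ m₁,
      (u = 0 ∨ u = 1 ∨ q = 0 ∨ q = 1 ∨ s = m₀ ∨ s = m₁) → ((u, q, s) : ℝ × ℝ × ℝ) ∈ D := by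
    intro u hu q hq s hs h
    refine ⟨⟨hu, hq, hs⟩, ?_⟩
    simp only [mem_union, mem_ofPred_eq]
    tauto
  refine ⟨fun z => PP ρ (H2 z), ?_, ?_, ?_⟩
  · exact cont_PP ρ hH2c fun z hz => dd_ne (hn z hz) (hH2B z)
  · intro q hq s hs
    constructor
    · show PP ρ (H2 (0, q, s)) = f (q, s)
      rw [hH2D _ (hmD 0 h0m q hq s hs (Or.inl rfl)), hH00, hPF, hfe]
      simp only [hp1e q hq, hp2e s hs]
    · show PP ρ (H2 (1, q, s)) = γ s
      rw [hH2D _ (hmD 1 h1m q hq s hs (Or.inr (Or.inl rfl))), hH01, hPF, hfe]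
      simp only [hp1e 0 h0m, hp2e s hs]
      exact hbd 0 h0m s hs (Or.inl rfl)
  · intro u hu q hq s hs
    constructor
    · exact PP_off hρ (hn _ ⟨hu, hq, hs⟩) (hH2B _)
    · intro h
      show PP ρ (H2 (u, q, s)) = γ s
      rw [hH2D _ (hmD u hu q hq s hs (Or.inr (Or.inr h))), hH0b u q hq s hs h, hPF, hfe]
      simp only [hp1e 0 h0m, hp2e s hs]
      exact hbd 0 h0m s hs (Or.inl rfl)

end Pool.Agent.Helper27.S5


end

/-! ## Helper34.BI.UNK1 -/

section

/-!
# Project BI, module UNK, part 1: squeezing a flat ball, pushing homeomorphisms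
-/

set_option autoImplicit false
set_option linter.unusedSectionVars false

open scoped Topology
open Set Pool.Agent.Helper65.Barb Pool.Agent.Helper18.BI

namespace Pool.Agent.Helper34.BI.UNK1

/-! ## the radial squeeze -/

/-- the slope -/
noncomputable def Kk (l R : ℝ) : ℝ := (R - l) / (R - 1)

/-- the factor -/
noncomputable def th (l R r : ℝ) : ℝ := min 1 (Kk l R - (Kk l R - l) / max r 1)

/-- the inverse factor -/
noncomputable def ti (l R r : ℝ) : ℝ := max 1 ((Kk l R)⁻¹ + (1 - l / Kk l R) / max r l)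

section

variable {l R : ℝ} (hl0 : 0 < l) (hl1 : l < 1) (hR : 1 < R)
include hl0 hl1 hR

theorem Kk_pos : 1 < Kk l R := by
  unfold Kk
  rw [lt_div_iff₀ (by linarith)]
  linarith

theorem KR : Kk l R * (R - 1) = R - l := by
  unfold Kk
  exact div_mul_cancel₀ _ (by linarith)

theorem th_lo {r : ℝ} (h : r ≤ 1) : th l R r = l := by
  unfold th
  rw [max_eq_right h, div_one, sub_sub_cancel, min_eq_right hl1.le]

theorem th_mid {r : ℝ} (h1 : 1 ≤ r) (h2 : r ≤ R) : th l R r = Kk l R - (Kk l R - l) / r := by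
  unfold th
  rw [max_eq_left h1, min_eq_right]
  have hr : 0 < r := by linarith
  rw [sub_le_iff_le_add, ← sub_le_iff_le_add', le_div_iff₀ hr]
  have := KR hl0 hl1 hR
  have hK := Kk_pos hl0 hl1 hR
  nlinarith

theorem th_hi {r : ℝ} (h2 : R ≤ r) : th l R r = 1 := by
  unfold th
  rw [max_eq_left (by linarith), min_eq_left]
  have hr : 0 < r := by linarith
  rw [le_sub_iff_add_le, ← le_sub_iff_add_le', div_le_iff₀ hr]
  have := KR hl0 hl1 hR
  have hK := Kk_pos hl0 hl1 hR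
  nlinarith

theorem ti_lo {r : ℝ} (h : r ≤ l) : ti l R r = l⁻¹ := by
  have hK := Kk_pos hl0 hl1 hR
  have hK0 : Kk l R ≠ 0 := by linarith
  unfold ti
  rw [max_eq_right h]
  have e : (Kk l R)⁻¹ + (1 - l / Kk l R) / l = l⁻¹ := by
    field_simp
    ring
  rw [e, max_eq_right]
  exact (one_le_inv₀ hl0).mpr hl1.le

theorem ti_mid {r : ℝ} (h1 : l ≤ r) (h2 : r ≤ R) :
    ti l R r = (Kk l R)⁻¹ + (1 - l / Kk l R) / r := by
  have hK := Kk_pos hl0 hl1 hR
  have hK0 : 0 < Kk l R := by linarith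
  have hr : 0 < r := by linarith
  unfold ti
  rw [max_eq_left h1, max_eq_right]
  have e : (Kk l R)⁻¹ + (1 - l / Kk l R) / r = (r + (Kk l R - l)) / (Kk l R * r) := by
    field_simp
  rw [e, one_le_div (by positivity)]
  have := KR hl0 hl1 hR
  nlinarith

theorem ti_hi {r : ℝ} (h2 : R ≤ r) : ti l R r = 1 := by
  have hK := Kk_pos hl0 hl1 hR
  have hK0 : 0 < Kk l R := by linarith
  have hr : 0 < r := by linarith
  have e0 : max r l = r := max_eq_left (by linarith)
  unfold ti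
  rw [e0]
  apply max_eq_left
  have e : (Kk l R)⁻¹ + (1 - l / Kk l R) / r = (r + (Kk l R - l)) / (Kk l R * r) := by
    field_simp
  rw [e, div_le_one (by positivity)]
  have := KR hl0 hl1 hR
  nlinarith

theorem th_ti {r : ℝ} (_hr : 0 ≤ r) : th l R (ti l R r * r) * ti l R r = 1 := by
  have hK := Kk_pos hl0 hl1 hR
  have hK0 : 0 < Kk l R := by linarith
  have hKR := KR hl0 hl1 hR
  rcases le_total r l with h1 | h1
  · rw [ti_lo hl0 hl1 hR h1, th_lo hl0 hl1 hR]
    · exact mul_inv_cancel₀ hl0.ne'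
    · rw [← div_eq_inv_mul]
      exact (div_le_one hl0).mpr h1
  · rcases le_total r R with h2 | h2
    · have hr0 : 0 < r := by linarith
      have e : ti l R r * r = 1 + (r - l) / Kk l R := by
        rw [ti_mid hl0 hl1 hR h1 h2]
        field_simp
        ring
      have h3 : 1 ≤ ti l R r * r := by
        rw [e]
        have : 0 ≤ (r - l) / Kk l R := div_nonneg (by linarith) hK0.le
        linarith
      have h4 : ti l R r * r ≤ R := by
        rw [e]
        have : (r - l) / Kk l R ≤ R - 1 := by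
          rw [div_le_iff₀ hK0]
          nlinarith
        linarith
      rw [th_mid hl0 hl1 hR h3 h4]
      have h5 : 0 < ti l R r * r := by linarith
      have h6 : ti l R r ≠ 0 := by
        intro h
        rw [h, zero_mul] at h5
        exact lt_irrefl _ h5
      have h7 : (Kk l R - (Kk l R - l) / (ti l R r * r)) * ti l R r =
          (Kk l R * (ti l R r * r) - (Kk l R - l)) / r := by
        field_simp
      rw [h7, e, div_eq_one_iff_eq hr0.ne']
      field_simp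
      ring
    · rw [ti_hi hl0 hl1 hR h2, one_mul, th_hi hl0 hl1 hR h2, one_mul]

theorem ti_th {r : ℝ} (hr : 0 ≤ r) : ti l R (th l R r * r) * th l R r = 1 := by
  have hK := Kk_pos hl0 hl1 hR
  have hK0 : 0 < Kk l R := by linarith
  have hKR := KR hl0 hl1 hR
  rcases le_total r 1 with h1 | h1
  · rw [th_lo hl0 hl1 hR h1, ti_lo hl0 hl1 hR]
    · exact inv_mul_cancel₀ hl0.ne'
    · nlinarith
  · rcases le_total r R with h2 | h2
    · have hr0 : 0 < r := by linarith
      have e : th l R r * r = Kk l R * r - (Kk l R - l) := by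
        rw [th_mid hl0 hl1 hR h1 h2]
        field_simp
      have h3 : l ≤ th l R r * r := by
        rw [e]
        nlinarith
      have h4 : th l R r * r ≤ R := by
        rw [e]
        nlinarith
      rw [ti_mid hl0 hl1 hR h3 h4]
      have h5 : 0 < th l R r * r := by linarith
      have h6 : th l R r ≠ 0 := by
        intro h
        rw [h, zero_mul] at h5
        exact lt_irrefl _ h5
      have h7 : ((Kk l R)⁻¹ + (1 - l / Kk l R) / (th l R r * r)) * th l R r =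
          (th l R r * r + (Kk l R - l)) / (Kk l R * r) := by
        field_simp
      rw [h7, e, div_eq_one_iff_eq (by positivity)]
      ring
    · rw [th_hi hl0 hl1 hR h2, one_mul, ti_hi hl0 hl1 hR h2, one_mul]

theorem th_cont : Continuous (th l R) := by
  unfold th
  have h : Continuous fun r : ℝ => max r 1 := continuous_id.max continuous_const
  refine continuous_const.min (continuous_const.sub (continuous_const.div h ?_))
  intro r
  have : (1 : ℝ) ≤ max r 1 := le_max_right _ _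
  linarith

theorem ti_cont : Continuous (ti l R) := by
  unfold ti
  have h : Continuous fun r : ℝ => max r l := continuous_id.max continuous_const
  refine continuous_const.max (continuous_const.add (continuous_const.div h ?_))
  intro r
  have : l ≤ max r l := le_max_right _ _
  linarith

theorem th_nonneg (r : ℝ) : 0 ≤ th l R r := by
  have hK := Kk_pos hl0 hl1 hR
  unfold th
  refine le_min zero_le_one ?_
  have h : (1 : ℝ) ≤ max r 1 := le_max_right _ _
  have : (Kk l R - l) / max r 1 ≤ Kk l R - l := div_le_self (by linarith) h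
  linarith

theorem ti_nonneg (r : ℝ) : 0 ≤ ti l R r := by
  unfold ti
  exact zero_le_one.trans (le_max_left _ _)

end

/-- the centre -/
noncomputable def mc : R4 := (1 / 2, (0, 0))

/-- the gauge -/
noncomputable def Ng (η : ℝ) (q : R4) : ℝ := max (|q.1| / η) (5 * Real.sqrt (nsq q.2))

theorem Ng_cont (η : ℝ) : Continuous (Ng η) := by
  unfold Ng
  have h1 : Continuous fun q : R4 => |q.1| / η := (continuous_fst.abs).div_const _
  have h2 : Continuous fun q : R4 => nsq q.2 := by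
    unfold nsq
    fun_prop
  exact h1.max (continuous_const.mul (Real.continuous_sqrt.comp h2))

theorem Ng_nonneg (η : ℝ) (q : R4) : 0 ≤ Ng η q :=
  le_trans (by positivity) (le_max_right _ _)

theorem Ng_smul {η t : ℝ} (ht : 0 ≤ t) (q : R4) : Ng η (t • q) = t * Ng η q := by
  unfold Ng
  rw [mul_max_of_nonneg _ _ ht]
  congr 1
  · show |t * q.1| / η = t * (|q.1| / η)
    rw [abs_mul, abs_of_nonneg ht, mul_div_assoc]
  · have : nsq (t • q).2 = t ^ 2 * nsq q.2 := by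
      unfold nsq
      show (t * q.2.1) ^ 2 + (t • q.2.2).re ^ 2 + (t • q.2.2).im ^ 2 = _
      simp only [Complex.smul_re, Complex.smul_im, smul_eq_mul]
      ring
    rw [this, Real.sqrt_mul (sq_nonneg t), Real.sqrt_sq ht]
    ring

theorem nsq_nonneg' (x : R3) : 0 ≤ nsq x := by
  unfold nsq
  positivity

theorem norm_le_nsq (x : R3) : ‖x‖ ≤ Real.sqrt (nsq x) := by
  refine Real.le_sqrt_of_sq_le ?_
  have h0 : ‖x.2‖ ^ 2 = x.2.re ^ 2 + x.2.im ^ 2 := by
    rw [← Complex.normSq_eq_norm_sq, Complex.normSq_apply]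
    ring
  unfold nsq
  rw [Prod.norm_def]
  rcases max_choice ‖x.1‖ ‖x.2‖ with h | h
  · rw [h, Real.norm_eq_abs, sq_abs]
    nlinarith [sq_nonneg x.2.re, sq_nonneg x.2.im]
  · rw [h, h0]
    nlinarith [sq_nonneg x.1]

theorem rsq0 (p : R4) : rsq 0 p = nsq p.2 := by
  unfold rsq
  rw [sub_zero]

/-- **The squeeze.** -/
theorem exists_squeeze (U : Set R4) (hU : IsOpen U) (hf : flat 0 ⊆ U) (hfc : IsCompact (flat 0))
    (l : ℝ) (hl0 : 0 < l) (hl1 : l < 1) :
    ∃ (T : R4 ≃ₜ R4) (C : Set R4), IsCompact C ∧ C ⊆ U ∧ (∀ p, p ∉ C → T p = p) ∧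
      ∀ p ∈ flat 0, T p = mc + l • (p - mc) := by
  obtain ⟨δ, hδ, hδU⟩ := hfc.exists_cthickening_subset_open hU hf
  obtain ⟨R, hR1, hR2, hR3⟩ : ∃ R : ℝ, 1 < R ∧ (R - 1) / 5 ≤ δ ∧ R ≤ 2 :=
    ⟨min 2 (1 + 5 * δ), lt_min (by norm_num) (by linarith),
      by linarith [min_le_right (2 : ℝ) (1 + 5 * δ)], min_le_left _ _⟩
  set η : ℝ := δ / 2 with hη
  have hη0 : 0 < η := by positivity
  have hηR : η * R ≤ δ := by nlinarith
  let C : Set R4 := {p | Ng η (p - mc) ≤ R}
  have hCd : C ⊆ Metric.cthickening δ (flat 0) := by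
    intro p hp
    have hp1 : |(p - mc).1| / η ≤ R := (le_max_left _ _).trans hp
    have hp2 : 5 * Real.sqrt (nsq (p - mc).2) ≤ R := (le_max_right _ _).trans hp
    have hp1' : |(p - mc).1| ≤ η * R := by
      rw [div_le_iff₀ hη0] at hp1
      linarith
    have hm2 : (p - mc).2 = p.2 := Prod.ext (sub_zero _) (sub_zero _)
    rw [hm2] at hp2
    refine Metric.mem_cthickening_of_dist_le p ((1 / 2, R⁻¹ • p.2) : R4) δ (flat 0) ?_ ?_
    · refine ⟨rfl, ?_⟩
      rw [rsq0]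
      show nsq (R⁻¹ • p.2) ≤ 1 / 25
      have e : nsq (R⁻¹ • p.2) = (R⁻¹) ^ 2 * nsq p.2 := by
        unfold nsq
        show (R⁻¹ * p.2.1) ^ 2 + (R⁻¹ • p.2.2).re ^ 2 + (R⁻¹ • p.2.2).im ^ 2 = _
        simp only [Complex.smul_re, Complex.smul_im, smul_eq_mul]
        ring
      rw [e]
      have h1 : nsq p.2 = Real.sqrt (nsq p.2) ^ 2 := (Real.sq_sqrt (nsq_nonneg' _)).symm
      have h2 : R⁻¹ * Real.sqrt (nsq p.2) ≤ 1 / 5 := by
        rw [← div_eq_inv_mul, div_le_iff₀ (by linarith)]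
        linarith
      have h3 : 0 ≤ R⁻¹ * Real.sqrt (nsq p.2) := by positivity
      rw [h1]
      calc R⁻¹ ^ 2 * Real.sqrt (nsq p.2) ^ 2 = (R⁻¹ * Real.sqrt (nsq p.2)) ^ 2 := by ring
        _ ≤ (1 / 5) ^ 2 := pow_le_pow_left₀ h3 h2 2
        _ = 1 / 25 := by norm_num
    · rw [Prod.dist_eq]
      refine max_le ?_ ?_
      · rw [Real.dist_eq]
        have : (p - mc).1 = p.1 - 1 / 2 := rfl
        rw [← this]
        exact hp1'.trans hηR
      · rw [dist_eq_norm]
        show ‖p.2 - R⁻¹ • p.2‖ ≤ δ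
        have e : p.2 - R⁻¹ • p.2 = (1 - R⁻¹) • p.2 := by rw [sub_smul, one_smul]
        rw [e, norm_smul]
        have h1 : 0 ≤ 1 - R⁻¹ := by
          have : R⁻¹ ≤ 1 := inv_le_one_of_one_le₀ hR1.le
          linarith
        rw [Real.norm_of_nonneg h1]
        have h2 : ‖p.2‖ ≤ R / 5 := (norm_le_nsq _).trans (by linarith)
        calc (1 - R⁻¹) * ‖p.2‖ ≤ (1 - R⁻¹) * (R / 5) := mul_le_mul_of_nonneg_left h2 h1
          _ = (R - 1) / 5 := by
              have : R ≠ 0 := by linarith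
              field_simp
          _ ≤ δ := hR2
  have hCU : C ⊆ U := hCd.trans hδU
  have hCc : IsCompact C := by
    have hcl : IsClosed C :=
      isClosed_le ((Ng_cont η).comp (continuous_id.sub continuous_const)) continuous_const
    exact (hfc.cthickening (r := δ)).of_isClosed_subset hcl hCd
  let f : R4 → R4 := fun p => mc + th l R (Ng η (p - mc)) • (p - mc)
  let g : R4 → R4 := fun p => mc + ti l R (Ng η (p - mc)) • (p - mc)
  have hfm : ∀ p, f p - mc = th l R (Ng η (p - mc)) • (p - mc) := fun p => add_sub_cancel_left _ _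
  have hgm : ∀ p, g p - mc = ti l R (Ng η (p - mc)) • (p - mc) := fun p => add_sub_cancel_left _ _
  have hgf : ∀ p, g (f p) = p := by
    intro p
    show mc + ti l R (Ng η (f p - mc)) • (f p - mc) = p
    rw [hfm, Ng_smul (th_nonneg hl0 hl1 hR1 _), smul_smul,
      ti_th hl0 hl1 hR1 (Ng_nonneg η (p - mc)), one_smul, add_sub_cancel]
  have hfg : ∀ p, f (g p) = p := by
    intro p
    show mc + th l R (Ng η (g p - mc)) • (g p - mc) = p
    rw [hgm, Ng_smul (ti_nonneg hl0 hl1 hR1 _), smul_smul,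
      th_ti hl0 hl1 hR1 (Ng_nonneg η (p - mc)), one_smul, add_sub_cancel]
  have hN : Continuous fun p : R4 => Ng η (p - mc) :=
    (Ng_cont η).comp (continuous_id.sub continuous_const)
  have hfcont : Continuous f :=
    continuous_const.add (((th_cont hl0 hl1 hR1).comp hN).smul (continuous_id.sub continuous_const))
  have hgcont : Continuous g :=
    continuous_const.add (((ti_cont hl0 hl1 hR1).comp hN).smul (continuous_id.sub continuous_const))
  refine ⟨⟨⟨f, g, hgf, hfg⟩, hfcont, hgcont⟩, C, hCc, hCU, ?_, ?_⟩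
  · intro p hp
    have hp' : R < Ng η (p - mc) := not_le.mp hp
    show mc + th l R (Ng η (p - mc)) • (p - mc) = p
    rw [th_hi hl0 hl1 hR1 hp'.le, one_smul, add_sub_cancel]
  · intro p hp
    show mc + th l R (Ng η (p - mc)) • (p - mc) = mc + l • (p - mc)
    rw [th_lo hl0 hl1 hR1]
    have h1 : p.1 = 1 / 2 := hp.1
    have h2 := hp.2
    rw [rsq0] at h2
    have hm2 : (p - mc).2 = p.2 := Prod.ext (sub_zero _) (sub_zero _)
    have hm1 : (p - mc).1 = 0 := by
      show p.1 - 1 / 2 = 0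
      rw [h1, sub_self]
    unfold Ng
    rw [hm1, hm2, abs_zero, zero_div]
    refine max_le zero_le_one ?_
    have : Real.sqrt (nsq p.2) ≤ 1 / 5 := by
      rw [show (1 / 5 : ℝ) = Real.sqrt (1 / 25) by
        rw [show (1 / 25 : ℝ) = (1 / 5) ^ 2 by norm_num, Real.sqrt_sq (by norm_num)]]
      exact Real.sqrt_le_sqrt h2
    linarith

/-! ## pushing homeomorphisms -/

open Classical in
/-- **Push.** -/
theorem exists_push {X : Type} [TopologicalSpace X] [T2Space X] (δ : OpenPartialHomeomorph R4 X)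
    (T : R4 ≃ₜ R4) (C : Set R4) (hC : IsCompact C) (hCs : C ⊆ δ.source)
    (hT : ∀ p, p ∉ C → T p = p) : ∃ Ψ : X ≃ₜ X, ∀ p ∈ δ.source, Ψ (δ p) = δ (T p) := by
  have hTC : ∀ p, p ∈ C ↔ T p ∈ C := by
    intro p
    constructor
    · intro hp
      by_contra h
      have h1 := hT _ h
      have h2 : T p = p := T.injective h1
      rw [h2] at h
      exact h hp
    · intro hp
      by_contra h
      rw [hT _ h] at hp
      exact h hp
  have hTi : ∀ p, p ∉ C → T.symm p = p := by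
    intro p hp
    rw [← hT p hp, T.symm_apply_apply, hT p hp]
  have hTs : ∀ p ∈ δ.source, T p ∈ δ.source := by
    intro p hp
    by_cases h : p ∈ C
    · exact hCs ((hTC p).1 h)
    · rw [hT p h]; exact hp
  have hTis : ∀ p ∈ δ.source, T.symm p ∈ δ.source := by
    intro p hp
    by_cases h : p ∈ C
    · exact hCs ((hTC _).2 (by rw [T.apply_symm_apply]; exact h))
    · rw [hTi p h]; exact hp
  -- general push
  have key : ∀ S : R4 ≃ₜ R4, (∀ p, p ∉ C → S p = p) → (∀ p ∈ δ.source, S p ∈ δ.source) →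
      Continuous (fun y : X => if y ∈ δ.target then δ (S (δ.symm y)) else y) := by
    intro S hS hSs
    have hK : IsCompact (δ '' C) := hC.image_of_continuousOn (δ.continuousOn.mono hCs)
    rw [continuous_iff_continuousAt]
    intro y
    by_cases hy : y ∈ δ.target
    · have h1 : ContinuousOn (fun y : X => δ (S (δ.symm y))) δ.target := by
        refine δ.continuousOn.comp (S.continuous.comp_continuousOn δ.continuousOn_symm) ?_
        intro z hz
        exact hSs _ (δ.map_target hz)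
      refine (h1.continuousAt (δ.open_target.mem_nhds hy)).congr ?_
      filter_upwards [δ.open_target.mem_nhds hy] with z hz
      rw [if_pos hz]
    · have hy' : y ∉ δ '' C := by
        rintro ⟨p, hp, rfl⟩
        exact hy (δ.map_source (hCs hp))
      refine continuousAt_id.congr ?_
      filter_upwards [hK.isClosed.isOpen_compl.mem_nhds hy'] with z hz
      show z = _
      split_ifs with h
      · have : δ.symm z ∉ C := by
          intro hc
          exact hz ⟨δ.symm z, hc, δ.right_inv h⟩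
        rw [hS _ this, δ.right_inv h]
      · rfl
  let f : X → X := fun y => if y ∈ δ.target then δ (T (δ.symm y)) else y
  let g : X → X := fun y => if y ∈ δ.target then δ (T.symm (δ.symm y)) else y
  have hft : ∀ y, y ∈ δ.target → f y = δ (T (δ.symm y)) := fun y h => if_pos h
  have hfn : ∀ y, y ∉ δ.target → f y = y := fun y h => if_neg h
  have hgt : ∀ y, y ∈ δ.target → g y = δ (T.symm (δ.symm y)) := fun y h => if_pos h
  have hgn : ∀ y, y ∉ δ.target → g y = y := fun y h => if_neg h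
  have hgf : ∀ y, g (f y) = y := by
    intro y
    by_cases h : y ∈ δ.target
    · have h1 := hTs _ (δ.map_target h)
      rw [hft y h, hgt _ (δ.map_source h1), δ.left_inv h1, T.symm_apply_apply, δ.right_inv h]
    · rw [hfn y h, hgn y h]
  have hfg : ∀ y, f (g y) = y := by
    intro y
    by_cases h : y ∈ δ.target
    · have h1 := hTis _ (δ.map_target h)
      rw [hgt y h, hft _ (δ.map_source h1), δ.left_inv h1, T.apply_symm_apply, δ.right_inv h]
    · rw [hgn y h, hfn y h]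
  refine ⟨⟨⟨f, g, hgf, hfg⟩, key T hT hTs, key T.symm hTi hTis⟩, ?_⟩
  intro p hp
  show f (δ p) = δ (T p)
  rw [hft _ (δ.map_source hp), δ.left_inv hp]

end Pool.Agent.Helper34.BI.UNK1


end

/-! ## Helper34.BI.UNK3 -/

section

/-!
# Project BI, module UNK, part 1b: straightening an unknotted sphere in the 4-sphere
-/

set_option autoImplicit false

open scoped Manifold ContDiff Topology
open Set Pool.Agent.Helper65.Barb Pool.Agent.Helper18.BI
open Pool.Agent.Helper70.BI (I4 LD StLOC ld_iff)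
open Pool.Agent.Helper34.BI.UNK1

namespace Pool.Agent.Helper34.BI.UNK3

abbrev E5 : Type := EuclideanSpace ℝ (Fin 5)
abbrev Em : Type := PartialDiffeomorph 𝓘(ℝ, R4) (𝓡 4) R4 S4 ∞

/-! ## the chart -/

/-- linear coordinates -/
noncomputable def iotL (σ : ℝ) (hσ : σ * σ = 1) : R4 ≃ₗ[ℝ] EuclideanSpace ℝ (Fin 4) where
  toFun p := !₂[10 * (σ * p.1), 10 * p.2.1, 10 * p.2.2.re, 10 * p.2.2.im]
  map_add' p q := by
    ext i
    fin_cases i <;> simp <;> ring
  map_smul' t p := by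
    ext i
    fin_cases i <;> simp <;> ring
  invFun w := (σ * (w 0 / 10), (w 1 / 10, ⟨w 2 / 10, w 3 / 10⟩))
  left_inv p := by
    refine Prod.ext ?_ (Prod.ext ?_ (Complex.ext ?_ ?_))
    · show σ * ((10 * (σ * p.1)) / 10) = p.1
      have : σ * ((10 * (σ * p.1)) / 10) = (σ * σ) * p.1 := by ring
      rw [this, hσ, one_mul]
    · show (10 * p.2.1) / 10 = p.2.1
      ring
    · show (10 * p.2.2.re) / 10 = p.2.2.re
      ring
    · show (10 * p.2.2.im) / 10 = p.2.2.im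
      ring
  right_inv w := by
    ext i
    fin_cases i
    · show 10 * (σ * (σ * (w 0 / 10))) = w 0
      have : 10 * (σ * (σ * (w 0 / 10))) = (σ * σ) * w 0 := by ring
      rw [this, hσ, one_mul]
    · show 10 * (w 1 / 10) = w 1
      ring
    · show 10 * (w 2 / 10) = w 2
      ring
    · show 10 * (w 3 / 10) = w 3
      ring

theorem iotL_norm (σ : ℝ) (hσ : σ * σ = 1) (p : R4) :
    ‖iotL σ hσ p‖ ^ 2 = 100 * (p.1 ^ 2 + nsq p.2) := by
  rw [EuclideanSpace.norm_sq_eq, Fin.sum_univ_four]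
  show ‖10 * (σ * p.1)‖ ^ 2 + ‖10 * p.2.1‖ ^ 2 + ‖10 * p.2.2.re‖ ^ 2 + ‖10 * p.2.2.im‖ ^ 2 = _
  simp only [Real.norm_eq_abs, sq_abs]
  unfold nsq
  have : (10 * (σ * p.1)) ^ 2 = 100 * ((σ * σ) * p.1 ^ 2) := by ring
  rw [this, hσ]
  ring

theorem iotL_zero (σ : ℝ) (hσ : σ * σ = 1) (p : R4) : iotL σ hσ p 0 = 10 * (σ * p.1) := rfl

/-- The charts. -/
theorem exists_chart (v : S4) : ∃ (s : S4 → EuclideanSpace ℝ (Fin 4)) (e : E5), ‖e‖ = 1 ∧
    inner ℝ (v : E5) e = 0 ∧ ∀ (σ : ℝ) (hσ : σ * σ = 1), ∃ c : Em, c.source = univ ∧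
      c.target = {v}ᶜ ∧ (∀ y, c.symm y = mc + (iotL σ hσ).symm (s y)) ∧
      c '' sph 0 = {y : S4 | inner ℝ (y : E5) (v : E5) = 0 ∧ inner ℝ (y : E5) e = 0} := by
  have : Fact (Module.finrank ℝ (EuclideanSpace ℝ (Fin 5)) = 4 + 1) := ⟨by simp⟩
  set U : (Submodule.span ℝ {(v : E5)})ᗮ ≃ₗᵢ[ℝ] EuclideanSpace ℝ (Fin 4) :=
    (OrthonormalBasis.fromOrthogonalSpanSingleton 4 (ne_zero_of_mem_unit_sphere v)).repr with hU
  have hsymm : ∀ x : EuclideanSpace ℝ (Fin 4), ((stereographic' 4 v).symm x : E5) =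
      (‖(U.symm x : E5)‖ ^ 2 + 4)⁻¹ • (4 : ℝ) • (U.symm x : E5) +
        (‖(U.symm x : E5)‖ ^ 2 + 4)⁻¹ • (‖(U.symm x : E5)‖ ^ 2 - 4) • v.val :=
    fun x => stereographic'_symm_apply v x
  have hsrc : (chartAt (EuclideanSpace ℝ (Fin 4)) (-v : S4)).source = {v}ᶜ := by
    change (stereographic' 4 (- -v)).source = _
    rw [neg_neg, stereographic'_source]
  have htgt : (chartAt (EuclideanSpace ℝ (Fin 4)) (-v : S4)).target = univ := by
    change (stereographic' 4 (- -v)).target = _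
    rw [stereographic'_target]
  have hs1 : ContMDiffOn (𝓡 4) (𝓡 4) ∞ (chartAt (EuclideanSpace ℝ (Fin 4)) (-v : S4))
      (chartAt (EuclideanSpace ℝ (Fin 4)) (-v : S4)).source := contMDiffOn_chart
  have hs2 : ContMDiffOn (𝓡 4) (𝓡 4) ∞ (chartAt (EuclideanSpace ℝ (Fin 4)) (-v : S4)).symm
      (chartAt (EuclideanSpace ℝ (Fin 4)) (-v : S4)).target := contMDiffOn_chart_symm
  have hch : chartAt (EuclideanSpace ℝ (Fin 4)) (-v : S4) = stereographic' 4 v := by
    change stereographic' 4 (- -v) = _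
    rw [neg_neg]
  rw [hch] at hsrc htgt hs1 hs2
  have hvn : ‖(v : E5)‖ = 1 := norm_eq_of_mem_sphere v
  have hvv : inner ℝ (v : E5) (v : E5) = (1 : ℝ) := by
    rw [real_inner_self_eq_norm_sq, hvn]; norm_num
  have horth : ∀ w : (Submodule.span ℝ {(v : E5)})ᗮ, inner ℝ (w : E5) (v : E5) = 0 := by
    intro w
    rw [real_inner_comm]
    exact Submodule.mem_orthogonal_singleton_iff_inner_right.mp w.2
  generalize stereographic' 4 v = sv at hsymm hsrc htgt hs1 hs2
  let f0 : EuclideanSpace ℝ (Fin 4) := EuclideanSpace.single 0 1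
  let e : E5 := (U.symm f0 : E5)
  have he : ‖e‖ = 1 := by
    show ‖(U.symm f0 : E5)‖ = 1
    rw [← Submodule.coe_norm, U.symm.norm_map]
    simp [f0]
  have hve : inner ℝ (v : E5) e = 0 := by
    rw [real_inner_comm]
    exact horth _
  have hinner : ∀ w : (Submodule.span ℝ {(v : E5)})ᗮ, inner ℝ (w : E5) e = U w 0 := by
    intro w
    have h1 : inner ℝ (w : E5) e = inner ℝ w (U.symm f0) := rfl
    rw [h1, ← U.inner_map_map, U.apply_symm_apply, EuclideanSpace.inner_single_right]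
    simp
  refine ⟨fun y => sv y, e, he, hve, fun σ hσ => ?_⟩
  let L : R4 ≃L[ℝ] EuclideanSpace ℝ (Fin 4) := (iotL σ hσ).toContinuousLinearEquiv
  have hL : ∀ p, L p = iotL σ hσ p := fun p => rfl
  have hLs : ∀ p, L.symm p = (iotL σ hσ).symm p := fun p => rfl
  have hC1 : ContMDiff 𝓘(ℝ, R4) (𝓡 4) ∞ (fun p : R4 => L (p - mc)) :=
    (L.contDiff.comp (contDiff_id.sub contDiff_const)).contMDiff
  have hC2 : ContMDiff (𝓡 4) 𝓘(ℝ, R4) ∞ (fun x => mc + L.symm x) :=
    (contDiff_const.add L.symm.contDiff).contMDiff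
  let c : Em :=
    { toFun := fun p => sv.symm (L (p - mc))
      invFun := fun y => mc + L.symm (sv y)
      source := univ
      target := sv.source
      map_source' := fun p _ => sv.map_target (by rw [htgt]; exact mem_univ _)
      map_target' := fun y _ => mem_univ _
      left_inv' := fun p _ => by
        rw [sv.right_inv (by rw [htgt]; exact mem_univ _), L.symm_apply_apply, add_sub_cancel]
      right_inv' := fun y hy => by
        rw [add_sub_cancel_left, L.apply_symm_apply, sv.left_inv hy]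
      open_source := isOpen_univ
      open_target := sv.open_source
      contMDiffOn_toFun := hs2.comp hC1.contMDiffOn (fun p _ => by rw [htgt]; exact mem_univ _)
      contMDiffOn_invFun := hC2.comp_contMDiffOn hs1 }
  refine ⟨c, rfl, hsrc, fun y => rfl, ?_⟩
  apply Subset.antisymm
  · rintro _ ⟨p, hp, rfl⟩
    have hnorm : ‖(U.symm (L (p - mc)) : E5)‖ = 2 := by
      rw [← Submodule.coe_norm, U.symm.norm_map, hL]
      have h1 := iotL_norm σ hσ (p - mc)
      have h2 : (p - mc).1 = 0 := by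
        show p.1 - 1 / 2 = 0
        rw [hp.1, sub_self]
      have h3 : (p - mc).2 = p.2 := Prod.ext (sub_zero _) (sub_zero _)
      have h4 := hp.2
      rw [rsq0] at h4
      rw [h2, h3, h4] at h1
      have h5 := norm_nonneg (iotL σ hσ (p - mc))
      nlinarith
    have hcp : (c p : E5) = (1 / 2 : ℝ) • (U.symm (L (p - mc)) : E5) := by
      show (sv.symm (L (p - mc)) : E5) = _
      rw [hsymm, hnorm, smul_smul]
      norm_num
    constructor
    · show inner ℝ (c p : E5) (v : E5) = 0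
      rw [hcp, inner_smul_left, horth, mul_zero]
    · show inner ℝ (c p : E5) e = 0
      rw [hcp, inner_smul_left, hinner, U.apply_symm_apply, hL, iotL_zero]
      have h2 : (p - mc).1 = 0 := by
        show p.1 - 1 / 2 = 0
        rw [hp.1, sub_self]
      rw [h2]
      simp
  · rintro y ⟨hy1, hy2⟩
    have hy1' : inner ℝ (y : E5) (v : E5) = 0 := hy1
    have hy2' : inner ℝ (y : E5) e = 0 := hy2
    have hmem : (2 : ℝ) • (y : E5) ∈ (Submodule.span ℝ {(v : E5)})ᗮ := by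
      rw [Submodule.mem_orthogonal_singleton_iff_inner_right, inner_smul_right, real_inner_comm,
        hy1', mul_zero]
    let w : (Submodule.span ℝ {(v : E5)})ᗮ := ⟨(2 : ℝ) • (y : E5), hmem⟩
    have hwy : (w : E5) = (2 : ℝ) • (y : E5) := rfl
    let a := U w
    have ha0 : a 0 = 0 := by
      show U w 0 = 0
      rw [← hinner, hwy, inner_smul_left, hy2', mul_zero]
    have hna : ‖a‖ = 2 := by
      show ‖U w‖ = 2
      rw [U.norm_map, Submodule.coe_norm, hwy, norm_smul, norm_eq_of_mem_sphere y]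
      norm_num
    have hm : ∀ z : R4, mc + z - mc = z := fun z => add_sub_cancel_left _ _
    refine ⟨mc + L.symm a, ?_, ?_⟩
    · have h1 := iotL_norm σ hσ (L.symm a)
      have h0 : (iotL σ hσ) (L.symm a) = a := L.apply_symm_apply a
      have h2 := iotL_zero σ hσ (L.symm a)
      rw [h0] at h1 h2
      rw [ha0] at h2
      rw [hna] at h1
      have hσ0 : σ ≠ 0 := by
        intro h
        rw [h] at hσ
        norm_num at hσ
      have h3 : (L.symm a).1 = 0 := by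
        have : σ * (L.symm a).1 = 0 := by linarith
        exact (mul_eq_zero.mp this).resolve_left hσ0
      refine ⟨?_, ?_⟩
      · show 1 / 2 + (L.symm a).1 = 1 / 2
        rw [h3, add_zero]
      · rw [rsq0]
        have h4 : (mc + L.symm a).2 = (L.symm a).2 := Prod.ext (zero_add _) (zero_add _)
        rw [h4]
        rw [h3] at h1
        linarith
    · apply Subtype.ext
      show (sv.symm (L (mc + L.symm a - mc)) : E5) = (y : E5)
      rw [hm, L.apply_symm_apply, hsymm]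
      have h5 : U.symm a = w := U.symm_apply_apply w
      rw [h5, hwy, norm_smul, norm_eq_of_mem_sphere y, smul_smul, smul_smul]
      norm_num

/-! ## the straightening homeomorphism -/

theorem flat_squeeze {l : ℝ} (hl0 : 0 < l) (hl1 : l < 1) {p : R4} (hp : p ∈ flat 0) :
    mc + l • (p - mc) ∈ flat 0 ∧ ‖mc + l • (p - mc) - mc‖ ≤ l := by
  have h2 : (p - mc).1 = 0 := by
    show p.1 - 1 / 2 = 0
    rw [hp.1, sub_self]
  have h3 : (p - mc).2 = p.2 := Prod.ext (sub_zero _) (sub_zero _)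
  have h4 := hp.2
  rw [rsq0] at h4
  have hn : nsq (l • (p - mc)).2 = l ^ 2 * nsq p.2 := by
    have : (l • (p - mc)).2 = l • p.2 := by
      show l • (p - mc).2 = _
      rw [h3]
    rw [this]
    unfold nsq
    show (l * p.2.1) ^ 2 + (l • p.2.2).re ^ 2 + (l • p.2.2).im ^ 2 = _
    simp only [Complex.smul_re, Complex.smul_im, smul_eq_mul]
    ring
  constructor
  · refine ⟨?_, ?_⟩
    · show 1 / 2 + l * (p - mc).1 = 1 / 2
      rw [h2, mul_zero, add_zero]
    · rw [rsq0]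
      have h5 : (mc + l • (p - mc)).2 = (l • (p - mc)).2 := Prod.ext (zero_add _) (zero_add _)
      rw [h5, hn]
      have h6 := nsq_nonneg' p.2
      nlinarith
  · rw [add_sub_cancel_left, norm_smul, Real.norm_of_nonneg hl0.le]
    have h7 : ‖p - mc‖ ≤ 1 := by
      rw [Prod.norm_def, h2, h3, norm_zero]
      refine max_le zero_le_one ((norm_le_nsq _).trans ?_)
      rw [show (1 : ℝ) = Real.sqrt 1 by simp]
      exact Real.sqrt_le_sqrt (by linarith)
    nlinarith

theorem core (hLOC : StLOC) (hfc : IsCompact (flat 0)) (δ c : Em) (hδ : flat 0 ⊆ δ.source)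
    (hc : c.source = univ) (hct : δ '' flat 0 ⊆ c.target)
    (hLD : LD (fun p => c.symm (δ p)) mc)
    (hdet : 0 < (fderiv ℝ (fun p => c.symm (δ p)) mc).det) :
    ∃ Ψ : S4 ≃ₜ S4, ∀ p ∈ flat 0, Ψ (δ p) = c p := by
  obtain ⟨G, -, ⟨C, hC, -, hCid⟩, hev⟩ := hLOC (fun p => c.symm (δ p)) mc univ hLD hdet
    isOpen_univ isPreconnected_univ (mem_univ _) (mem_univ _)
  have hGf : Continuous fun x : R4 => G.f (1, x) :=
    G.smooth_f.continuous.comp (continuous_const.prodMk continuous_id)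
  have hGg : Continuous fun x : R4 => G.g (1, x) :=
    G.smooth_g.continuous.comp (continuous_const.prodMk continuous_id)
  let G₁ : R4 ≃ₜ R4 := ⟨⟨fun x => G.f (1, x), fun x => G.g (1, x), fun x => G.gf 1 x,
    fun x => G.fg 1 x⟩, hGf, hGg⟩
  have hG₁ : ∀ x, x ∉ C → G₁ x = x := fun x hx => hCid 1 x hx
  obtain ⟨r, hr, hball⟩ := Metric.eventually_nhds_iff.1 hev
  obtain ⟨l, hl0, hl1, hlr⟩ : ∃ l : ℝ, 0 < l ∧ l < 1 ∧ l < r :=
    ⟨min (1 / 2) (r / 2), lt_min (by norm_num) (by linarith),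
      lt_of_le_of_lt (min_le_left _ _) (by norm_num),
      lt_of_le_of_lt (min_le_right _ _) (by linarith)⟩
  obtain ⟨T, K, hK, hKs, hTid, hT⟩ := exists_squeeze δ.source δ.open_source hδ hfc l hl0 hl1
  obtain ⟨Ψ₁, h1⟩ := exists_push δ.toOpenPartialHomeomorph T K hK hKs hTid
  obtain ⟨Ψ₂, h2⟩ := exists_push c.toOpenPartialHomeomorph G₁ C hC
    (by intro x _; show x ∈ c.source; rw [hc]; exact mem_univ _) hG₁
  obtain ⟨Ψ₃, h3⟩ := exists_push c.toOpenPartialHomeomorph T K hK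
    (by intro x _; show x ∈ c.source; rw [hc]; exact mem_univ _) hTid
  refine ⟨Ψ₁.trans (Ψ₂.trans Ψ₃.symm), fun p hp => ?_⟩
  obtain ⟨hp', hpn⟩ := flat_squeeze hl0 hl1 hp
  set p' := mc + l • (p - mc) with hp'def
  have e1 : Ψ₁ (δ p) = δ p' := by
    have := h1 p (hδ hp)
    rw [hT p hp] at this
    exact this
  have e2 : Ψ₂ (δ p') = c p' := by
    have ht : δ p' ∈ c.target := hct ⟨p', hp', rfl⟩
    have e3 : c (c.symm (δ p')) = δ p' := c.toPartialEquiv.right_inv ht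
    have e4 := h2 (c.symm (δ p')) (by show _ ∈ c.source; rw [hc]; exact mem_univ _)
    have e5 : G₁ (c.symm (δ p')) = p' := hball (by
      rw [dist_eq_norm]
      exact lt_of_le_of_lt hpn hlr)
    rw [e5] at e4
    have e6 : Ψ₂ (c (c.symm (δ p'))) = c p' := e4
    rw [e3] at e6
    exact e6
  have e3 : Ψ₃ (c p) = c p' := by
    have := h3 p (by show _ ∈ c.source; rw [hc]; exact mem_univ _)
    rw [hT p hp] at this
    exact this
  show Ψ₃.symm (Ψ₂ (Ψ₁ (δ p))) = c p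
  rw [e1, e2, ← e3, Ψ₃.symm_apply_apply]

theorem mc_flat : mc ∈ flat 0 := by
  refine ⟨rfl, ?_⟩
  rw [rsq0]
  unfold nsq mc
  norm_num

/-- the reflection -/
noncomputable def Lr : R4 →L[ℝ] R4 :=
  (-(ContinuousLinearMap.id ℝ ℝ)).prodMap (ContinuousLinearMap.id ℝ R3)

theorem Lr_det : Lr.det = -1 := by
  have : (Lr : R4 →ₗ[ℝ] R4) = (-(LinearMap.id : ℝ →ₗ[ℝ] ℝ)).prodMap (LinearMap.id : R3 →ₗ[ℝ] R3) :=
    rfl
  rw [ContinuousLinearMap.det, this, LinearMap.det_prodMap, LinearMap.det_id, mul_one,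
    ← neg_one_smul ℝ (LinearMap.id : ℝ →ₗ[ℝ] ℝ), LinearMap.det_smul, LinearMap.det_id]
  simp

theorem det_ne {F : R4 → R4} {p : R4} (h : LD F p) : (fderiv ℝ F p).det ≠ 0 := by
  intro h0
  have hinj : Function.Injective (fderiv ℝ F p) := (ld_iff.1 h).2
  have h3 : LinearMap.det (fderiv ℝ F p : R4 →ₗ[ℝ] R4) = 0 := h0
  have h4 := LinearMap.bot_lt_ker_of_det_eq_zero h3
  rw [LinearMap.ker_eq_bot.2 hinj] at h4
  exact lt_irrefl _ h4

/-- **Straightening.** -/
theorem straight (hLOC : StLOC) (hfc : IsCompact (flat 0)) (δ : Em) (hδ : flat 0 ⊆ δ.source) :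
    ∃ (Ψ : S4 ≃ₜ S4) (v e : E5), ‖v‖ = 1 ∧ ‖e‖ = 1 ∧ inner ℝ v e = 0 ∧
      Ψ '' (δ '' sph 0) = {y : S4 | inner ℝ (y : E5) v = 0 ∧ inner ℝ (y : E5) e = 0} := by
  have hloc : ∀ p ∈ flat 0, IsLocalDiffeomorphAt 𝓘(ℝ, R4) (𝓡 4) ∞ δ p :=
    fun p hp => ⟨δ, hδ hp, fun _ _ => rfl⟩
  have hint := (Pool.Agent.Helper70.BI.m_EI (EuclideanSpace ℝ (Fin 4)) (EuclideanSpace ℝ (Fin 4))
    (𝓡 4) S4 δ (flat 0) hfc (fun p hp => hp.1) hloc).2
  obtain ⟨v, hv⟩ : ∃ v : S4, v ∉ δ '' flat 0 := by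
    by_contra hne
    push Not at hne
    have h1 : δ '' flat 0 = univ := eq_univ_of_forall hne
    rw [h1, interior_univ] at hint
    have h3 : (⟨EuclideanSpace.single 0 1, by simp⟩ : S4) ∈ (univ : Set S4) := mem_univ _
    rw [hint] at h3
    exact h3
  obtain ⟨s, e, he, hve, hch⟩ := exists_chart v
  have main : ∀ c : Em, c.source = univ → c.target = {v}ᶜ →
      0 < (fderiv ℝ (fun p => c.symm (δ p)) mc).det →
      c '' sph 0 = {y : S4 | inner ℝ (y : E5) (v : E5) = 0 ∧ inner ℝ (y : E5) e = 0} →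
      ∃ (Ψ : S4 ≃ₜ S4) (v e : E5), ‖v‖ = 1 ∧ ‖e‖ = 1 ∧ inner ℝ v e = 0 ∧
      Ψ '' (δ '' sph 0) = {y : S4 | inner ℝ (y : E5) v = 0 ∧ inner ℝ (y : E5) e = 0} := by
    intro c hc1 hc2 hdet hc3
    have hct : δ '' flat 0 ⊆ c.target := by
      rw [hc2]
      intro y hy hyv
      exact hv (hyv ▸ hy)
    have hLD : LD (fun p => c.symm (δ p)) mc := by
      have h1 : IsLocalDiffeomorphAt (𝓡 4) 𝓘(ℝ, R4) ∞ c.symm (δ mc) :=
        ⟨c.symm, hct ⟨mc, mc_flat, rfl⟩, fun _ _ => rfl⟩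
      exact IsLocalDiffeomorphAt.comp (hf := hloc mc mc_flat) (hg := h1)
    obtain ⟨Ψ, hΨ⟩ := core hLOC hfc δ c hδ hc1 hct hLD hdet
    refine ⟨Ψ, v, e, norm_eq_of_mem_sphere v, he, hve, ?_⟩
    rw [← hc3, image_image]
    refine image_congr fun p hp => hΨ p ⟨hp.1, hp.2.le⟩
  obtain ⟨c, hc1, hc2, hc3, hc4⟩ := hch 1 (by norm_num)
  obtain ⟨c', hc1', hc2', hc3', hc4'⟩ := hch (-1) (by norm_num)
  have hct : δ mc ∈ c.target := by
    rw [hc2]
    intro h
    exact hv ⟨mc, mc_flat, h⟩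
  have hLD : LD (fun p => c.symm (δ p)) mc := by
    have h1 : IsLocalDiffeomorphAt (𝓡 4) 𝓘(ℝ, R4) ∞ c.symm (δ mc) :=
      ⟨c.symm, hct, fun _ _ => rfl⟩
    exact IsLocalDiffeomorphAt.comp (hf := hloc mc mc_flat) (hg := h1)
  rcases lt_or_gt_of_ne (det_ne hLD) with hneg | hpos
  · refine main c' hc1' hc2' ?_ hc4'
    have heq : (fun p => c'.symm (δ p)) = fun p => mc + Lr (c.symm (δ p) - mc) := by
      funext p
      rw [hc3', hc3, add_sub_cancel_left]
      congr 1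
      refine Prod.ext ?_ rfl
      show -1 * (s (δ p) 0 / 10) = -(1 * (s (δ p) 0 / 10))
      ring
    rw [heq]
    have hd : DifferentiableAt ℝ (fun p => c.symm (δ p)) mc :=
      ((ld_iff.1 hLD).1.self_of_nhds).differentiableAt (by simp)
    have hF : HasFDerivAt (fun p => mc + Lr (c.symm (δ p) - mc))
        (Lr.comp (fderiv ℝ (fun p => c.symm (δ p)) mc)) mc := by
      have h5 : HasFDerivAt (fun p => c.symm (δ p) - mc) (fderiv ℝ (fun p => c.symm (δ p)) mc) mc :=
        hd.hasFDerivAt.sub_const mc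
      exact (Lr.hasFDerivAt.comp mc h5).const_add mc
    rw [hF.fderiv]
    have h6 : (Lr.comp (fderiv ℝ (fun p => c.symm (δ p)) mc)).det =
        Lr.det * (fderiv ℝ (fun p => c.symm (δ p)) mc).det := by
      exact LinearMap.det_comp _ _
    rw [h6, Lr_det]
    linarith
  · exact main c hc1 hc2 hpos hc4

end Pool.Agent.Helper34.BI.UNK3


end

/-! ## Helper18.BI.R.M_UNK -/

section

/-!
# Project BI, stage 4 (R), module UNK: maps of a 2-sphere to the complement of an unknotted sphere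
-/

set_option autoImplicit false

open scoped Manifold ContDiff Topology
open Set Pool.Agent.Helper65.Barb Pool.Agent.Helper18.BI
open Pool.Agent.Helper70.Fin (Emb coreSphere)

namespace Pool.Agent.Helper18.BI.R

theorem m_UNK (hLOC : Pool.Agent.Helper70.BI.StLOC) : StUNK := by
  rintro B hB ⟨δ, hδ, hδB⟩
  obtain ⟨Ψ, v, e, hv, he, hve, hΨ⟩ :=
    Pool.Agent.Helper34.BI.UNK3.straight hLOC (Pool.Agent.Helper70.BI.Fin2.isCompact_flat 0) δ hδ
  have himg : δ '' sph 0 = B '' sph 0 := image_congr hδB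
  have hsub : SP ⊆ B.source := fun p hp => hB (Pool.Agent.Helper70.BI.Fin2.SP_sub_NB hp)
  have h1 : sph 1 ⊆ B.source := fun p hp => hsub (Or.inl (Or.inr hp))
  have h0 : sph 0 ⊆ B.source := fun p hp => hsub (Or.inl (Or.inl hp))
  have hBc : ContinuousOn B (sph 1) := B.contMDiffOn_toFun.continuousOn.mono h1
  have hoffB : ∀ p ∈ sph 1, B p ∉ B '' sph 0 := by
    rintro p hp ⟨q, hq, hqp⟩
    have h2 : q = p := B.toPartialEquiv.injOn (h0 hq) (h1 hp) hqp
    have h3 := hq.2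
    have h4 := hp.2
    rw [h2] at h3
    unfold rsq nsq at h3 h4
    simp only [Prod.fst_sub, Prod.snd_sub, Complex.sub_re, Complex.sub_im] at h3 h4
    nlinarith [sq_nonneg p.2.2.re, sq_nonneg p.2.2.im, sq_nonneg (p.2.1 - 1 / 2)]
  have hoff : ∀ p ∈ sph 1, inner ℝ (Ψ (B p) : EuclideanSpace ℝ (Fin 5)) v ≠ 0 ∨
      inner ℝ (Ψ (B p) : EuclideanSpace ℝ (Fin 5)) e ≠ 0 := by
    intro p hp
    by_contra hcon
    push Not at hcon
    have h2 : Ψ (B p) ∈ Ψ '' (δ '' sph 0) := by rw [hΨ]; exact hcon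
    obtain ⟨y, hy, hye⟩ := h2
    have h3 : y = B p := Ψ.injective hye
    rw [h3, himg] at hy
    exact hoffB p hp hy
  obtain ⟨h, y, hc, hh0, hh1, hoffh⟩ := Pool.Agent.Helper34.BI.UNK2.unk2 v e hv he hve
    (fun p => Ψ (B p)) (Ψ.continuous.comp_continuousOn hBc) hoff
  refine ⟨fun x => Ψ.symm (h x), Ψ.symm y, Ψ.symm.continuous.comp_continuousOn hc, ?_, ?_, ?_⟩
  · intro p hp
    show Ψ.symm (h (0, p)) = B p
    rw [hh0 p hp, Ψ.symm_apply_apply]
  · intro p hp
    show Ψ.symm (h (1, p)) = Ψ.symm y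
    rw [hh1 p hp]
  · intro u hu p hp hmem
    rw [← himg] at hmem
    have h2 : h (u, p) ∈ Ψ '' (δ '' sph 0) := ⟨_, hmem, Ψ.apply_symm_apply _⟩
    rw [hΨ] at h2
    rcases hoffh u hu p hp with h3 | h3
    · exact h3 h2.1
    · exact h3 h2.2

end Pool.Agent.Helper18.BI.R


end

/-! ## Helper92.BI5.M_N2c -/

section

/-!
# Project BI, stage 5, module N2c: straightening the ball around the small wall
-/

set_option autoImplicit false

open scoped Manifold ContDiff Topology ComplexConjugate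
open Set Filter Pool.Agent.Helper65.Barb Pool.Agent.Helper18.BI
open Pool.Agent.Helper70.BI (I4 LD ld_iff embOn_comp)
open Pool.Agent.Helper27.BI (e1)
open Pool.Agent.Helper27.H
open Pool.Agent.Helper34.BI.UNK1 (th ti th_lo th_hi th_ti ti_th th_cont ti_cont th_nonneg
  ti_nonneg Ng Ng_cont Ng_nonneg Ng_smul nsq_nonneg' norm_le_nsq exists_push)
open Pool.Agent.Helper34.BI.UNK3 (Lr Lr_det det_ne)

namespace Pool.Agent.Helper27.S5

namespace N2c

/-- the centre -/
noncomputable def xc : R4 := (1 / 2, e1)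

/-- the gauge -/
noncomputable def Nn (p : R4) : ℝ := Ng (1 / 2) (p - xc)

theorem nsq_sub (p : R4) : nsq (p - xc).2 = rsq 1 p := by
  have h : (p - xc).2 = (p.2.1 - 1, p.2.2) := Prod.ext rfl (sub_zero _)
  rw [h]
  rfl

theorem Nn_nonneg (p : R4) : 0 ≤ Nn p := Ng_nonneg _ _

theorem Nn_cont : Continuous Nn := (Ng_cont _).comp (continuous_id.sub continuous_const)

theorem Nn_le {p : R4} {R : ℝ} (h : Nn p ≤ R) :
    |p.1 - 1 / 2| ≤ R / 2 ∧ Real.sqrt (rsq 1 p) ≤ R / 5 := by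
  have h1 : |(p - xc).1| / (1 / 2) ≤ R := (le_max_left _ _).trans h
  have h2 : 5 * Real.sqrt (nsq (p - xc).2) ≤ R := (le_max_right _ _).trans h
  rw [nsq_sub] at h2
  have h3 : (p - xc).1 = p.1 - 1 / 2 := rfl
  rw [h3, div_le_iff₀ (by norm_num)] at h1
  constructor <;> linarith

theorem Nn_le_of {p : R4} {R : ℝ} (h1 : |p.1 - 1 / 2| ≤ R / 2)
    (h2 : Real.sqrt (rsq 1 p) ≤ R / 5) : Nn p ≤ R := by
  have h3 : (p - xc).1 = p.1 - 1 / 2 := rfl
  refine max_le ?_ ?_
  · rw [h3, div_le_iff₀ (by norm_num)]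
    linarith
  · rw [nsq_sub]
    linarith

theorem rsq_nonneg (p : R4) : 0 ≤ rsq 1 p := nsq_nonneg' _

theorem wallS_Nn {δ : ℝ} (hδ : 0 ≤ δ) {p : R4} (hp : p ∈ wallS δ) : Nn p ≤ 1 := by
  obtain ⟨h1, h2, -, h4⟩ := hp
  refine Nn_le_of ?_ ?_
  · rw [abs_le]
    constructor <;> linarith
  · rw [show (1 / 5 : ℝ) = Real.sqrt (1 / 25) by
      rw [show (1 / 25 : ℝ) = (1 / 5) ^ 2 by norm_num, Real.sqrt_sq (by norm_num)]]
    exact Real.sqrt_le_sqrt (by linarith)

theorem Nn_Bq {p : R4} (h : Nn p ≤ 5 / 4) : p ∈ Bq := by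
  obtain ⟨h1, h2⟩ := Nn_le h
  rw [abs_le] at h1
  refine ⟨by linarith, by linarith, ?_⟩
  have h3 := Real.sq_sqrt (rsq_nonneg p)
  have h4 := Real.sqrt_nonneg (rsq 1 p)
  nlinarith

theorem norm_sub_le {p : R4} {R : ℝ} (hR : 0 ≤ R) (h : Nn p ≤ R) : ‖p - xc‖ ≤ R := by
  obtain ⟨h1, h2⟩ := Nn_le h
  rw [Prod.norm_def]
  refine max_le ?_ ?_
  · have h3 : (p - xc).1 = p.1 - 1 / 2 := rfl
    rw [h3, Real.norm_eq_abs]
    linarith
  · refine (norm_le_nsq _).trans ?_
    rw [nsq_sub]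
    linarith

theorem isCompact_Nn (R : ℝ) : IsCompact {p | Nn p ≤ R} := by
  rcases lt_or_ge R 0 with hR | hR
  · have : {p | Nn p ≤ R} = ∅ := by
      ext p
      simp only [Set.mem_ofPred_eq, mem_empty_iff_false, iff_false, not_le]
      exact lt_of_lt_of_le hR (Nn_nonneg _)
    rw [this]
    exact isCompact_empty
  · refine (isCompact_closedBall xc R).of_isClosed_subset (isClosed_le Nn_cont continuous_const) ?_
    intro p hp
    rw [Metric.mem_closedBall, dist_eq_norm]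
    exact norm_sub_le hR hp

/-- **The squeeze.** -/
theorem exists_sq (l : ℝ) (hl0 : 0 < l) (hl1 : l < 1) :
    ∃ T : R4 ≃ₜ R4, (∀ p, p ∉ {p | Nn p ≤ 5 / 4} → T p = p) ∧
      ∀ p, Nn p ≤ 1 → T p = xc + l • (p - xc) := by
  obtain ⟨R, hRdef⟩ : ∃ R : ℝ, R = 5 / 4 := ⟨_, rfl⟩
  have hR1 : 1 < R := by rw [hRdef]; norm_num
  let f : R4 → R4 := fun p => xc + th l R (Nn p) • (p - xc)
  let g : R4 → R4 := fun p => xc + ti l R (Nn p) • (p - xc)
  have hfm : ∀ p, f p - xc = th l R (Nn p) • (p - xc) := fun p => add_sub_cancel_left _ _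
  have hgm : ∀ p, g p - xc = ti l R (Nn p) • (p - xc) := fun p => add_sub_cancel_left _ _
  have hNf : ∀ p, Nn (f p) = th l R (Nn p) * Nn p := by
    intro p
    show Ng (1 / 2) (f p - xc) = _
    rw [hfm, Ng_smul (th_nonneg hl0 hl1 hR1 _)]
    rfl
  have hNg : ∀ p, Nn (g p) = ti l R (Nn p) * Nn p := by
    intro p
    show Ng (1 / 2) (g p - xc) = _
    rw [hgm, Ng_smul (ti_nonneg hl0 hl1 hR1 _)]
    rfl
  have hgf : ∀ p, g (f p) = p := by
    intro p
    show xc + ti l R (Nn (f p)) • (f p - xc) = p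
    rw [hfm, hNf, smul_smul, ti_th hl0 hl1 hR1 (Nn_nonneg _), one_smul, add_sub_cancel]
  have hfg : ∀ p, f (g p) = p := by
    intro p
    show xc + th l R (Nn (g p)) • (g p - xc) = p
    rw [hgm, hNg, smul_smul, th_ti hl0 hl1 hR1 (Nn_nonneg _), one_smul, add_sub_cancel]
  have hfcont : Continuous f :=
    continuous_const.add
      (((th_cont hl0 hl1 hR1).comp Nn_cont).smul (continuous_id.sub continuous_const))
  have hgcont : Continuous g :=
    continuous_const.add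
      (((ti_cont hl0 hl1 hR1).comp Nn_cont).smul (continuous_id.sub continuous_const))
  refine ⟨⟨⟨f, g, hgf, hfg⟩, hfcont, hgcont⟩, ?_, ?_⟩
  · intro p hp
    have hp' : R < Nn p := by
      rw [hRdef]
      exact not_le.mp hp
    show xc + th l R (Nn p) • (p - xc) = p
    rw [th_hi hl0 hl1 hR1 hp'.le, one_smul, add_sub_cancel]
  · intro p hp
    show xc + th l R (Nn p) • (p - xc) = _
    rw [th_lo hl0 hl1 hR1 hp]

theorem Nn_xc : Nn xc = 0 := by
  unfold Nn Ng
  rw [sub_self]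
  unfold nsq
  simp

theorem core (hLOC : Pool.Agent.Helper70.BI.StLOC) (G : R4 → R4) (hG : EmbOn I4 G Bq)
    (hdet : 0 < (fderiv ℝ G xc).det) :
    ∃ Ψ : R4 ≃ₜ R4, ∀ p, Nn p ≤ 1 → Ψ (G p) = p := by
  have hxc : xc ∈ Bq := Nn_Bq (by rw [Nn_xc]; norm_num)
  obtain ⟨D, -, -, hev⟩ := hLOC G xc univ (hG.1 xc hxc) hdet
    isOpen_univ isPreconnected_univ (mem_univ _) (mem_univ _)
  have hDf : Continuous fun x : R4 => D.f (1, x) :=
    D.smooth_f.continuous.comp (continuous_const.prodMk continuous_id)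
  have hDg : Continuous fun x : R4 => D.g (1, x) :=
    D.smooth_g.continuous.comp (continuous_const.prodMk continuous_id)
  let G₁ : R4 ≃ₜ R4 := ⟨⟨fun x => D.f (1, x), fun x => D.g (1, x), fun x => D.gf 1 x,
    fun x => D.fg 1 x⟩, hDf, hDg⟩
  obtain ⟨r, hr, hball⟩ := Metric.eventually_nhds_iff.1 hev
  obtain ⟨l, hl0, hl1, hlr⟩ : ∃ l : ℝ, 0 < l ∧ l < 1 ∧ l < r :=
    ⟨min (1 / 2) (r / 2), lt_min (by norm_num) (by linarith),
      lt_of_le_of_lt (min_le_left _ _) (by norm_num),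
      lt_of_le_of_lt (min_le_right _ _) (by linarith)⟩
  obtain ⟨T, hTid, hT⟩ := exists_sq l hl0 hl1
  have hsub : {p | Nn p ≤ 5 / 4} ⊆ Bq := fun p hp => Nn_Bq hp
  obtain ⟨δ, hδ, hδG⟩ := m_A1 R4 R4 R4 I4 R4 G {p | Nn p ≤ 5 / 4} (isCompact_Nn _)
    (fun p hp => hG.1 p (hsub hp)) (hG.2.mono hsub)
  obtain ⟨Ψ₁, h1⟩ := exists_push δ.toOpenPartialHomeomorph T {p | Nn p ≤ 5 / 4}
    (isCompact_Nn _) hδ hTid
  have hΨ₁ : ∀ p, Nn p ≤ 1 → Ψ₁ (G p) = G (xc + l • (p - xc)) ∧
      ‖(xc + l • (p - xc)) - xc‖ ≤ l := by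
    intro p hp
    have hn : Nn (xc + l • (p - xc)) = l * Nn p := by
      unfold Nn
      rw [add_sub_cancel_left, Ng_smul hl0.le]
    have hn1 : Nn (xc + l • (p - xc)) ≤ l := by
      rw [hn]
      nlinarith
    have hp1 : p ∈ δ.source := hδ (show Nn p ≤ 5 / 4 by linarith)
    have hp2 : xc + l • (p - xc) ∈ δ.source :=
      hδ (show Nn (xc + l • (p - xc)) ≤ 5 / 4 by linarith)
    refine ⟨?_, norm_sub_le hl0.le hn1⟩
    have := h1 p hp1
    rw [hT p hp] at this
    have e1 : Ψ₁ (δ p) = δ (xc + l • (p - xc)) := this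
    rw [hδG p hp1, hδG _ hp2] at e1
    exact e1
  refine ⟨Ψ₁.trans (G₁.trans T.symm), fun p hp => ?_⟩
  obtain ⟨e1, e2⟩ := hΨ₁ p hp
  show T.symm (G₁ (Ψ₁ (G p))) = p
  rw [e1]
  have e3 : G₁ (G (xc + l • (p - xc))) = xc + l • (p - xc) := hball (by
    rw [dist_eq_norm]
    exact lt_of_le_of_lt e2 hlr)
  rw [e3, ← hT p hp, T.symm_apply_apply]

/-- the reflection -/
noncomputable def rr (p : R4) : R4 := xc + Lr (p - xc)

theorem rr_eq (p : R4) : rr p = (1 - p.1, p.2) := by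
  refine Prod.ext ?_ ?_
  · show 1 / 2 + -(p.1 - 1 / 2) = 1 - p.1
    ring
  · show e1 + (p.2 - e1) = p.2
    rw [add_sub_cancel]

theorem rr_fderiv (p : R4) : HasFDerivAt rr Lr p := by
  have h1 : HasFDerivAt (fun q : R4 => q - xc) (ContinuousLinearMap.id ℝ R4) p :=
    (hasFDerivAt_id p).sub_const xc
  have h2 := (Lr.hasFDerivAt.comp p h1).const_add xc
  rw [ContinuousLinearMap.comp_id] at h2
  exact h2

theorem rr_contDiff : ContDiff ℝ ∞ rr :=
  contDiff_const.add (Lr.contDiff.comp (contDiff_id.sub contDiff_const))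

theorem Lr_inj : Function.Injective Lr := by
  intro a b h
  have h1 : (Lr a).1 = (Lr b).1 := by rw [h]
  have h2 : (Lr a).2 = (Lr b).2 := by rw [h]
  exact Prod.ext (neg_injective h1) h2

theorem rr_Bq {p : R4} (hp : p ∈ Bq) : rr p ∈ Bq := by
  obtain ⟨h1, h2, h3⟩ := hp
  rw [rr_eq]
  refine ⟨?_, ?_, h3⟩
  · show -(1 / 2) ≤ 1 - p.1
    linarith
  · show 1 - p.1 ≤ 3 / 2
    linarith

theorem rr_rr (p : R4) : rr (rr p) = p := by
  rw [rr_eq, rr_eq]
  refine Prod.ext ?_ rfl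
  show 1 - (1 - p.1) = p.1
  ring

theorem rr_wall {δ : ℝ} {p : R4} (hp : p ∈ wallS δ) : rr p ∈ wallS δ := by
  obtain ⟨h1, h2, h3, h4⟩ := hp
  rw [rr_eq]
  refine ⟨?_, ?_, h3, h4⟩
  · show 0 ≤ 1 - p.1
    linarith
  · show 1 - p.1 ≤ 1
    linarith

theorem rr_wallS (δ : ℝ) : rr '' wallS δ = wallS δ := by
  apply Subset.antisymm
  · rintro _ ⟨p, hp, rfl⟩
    exact rr_wall hp
  · intro p hp
    exact ⟨rr p, rr_wall hp, rr_rr p⟩

theorem embOn_rr : EmbOn I4 rr Bq := by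
  refine ⟨fun p _ => ?_, fun p _ q _ h => ?_⟩
  · have : LD rr p := by
      rw [ld_iff]
      refine ⟨Eventually.of_forall fun q => rr_contDiff.contDiffAt, ?_⟩
      rw [(rr_fderiv p).fderiv]
      exact Lr_inj
    exact this
  · rw [← rr_rr p, h, rr_rr]

theorem rr_xc : rr xc = xc := by
  unfold rr
  rw [sub_self, map_zero, add_zero]

end N2c

open N2c in
/-- **N2c.** -/
theorem m_N2c (hLOC : Pool.Agent.Helper70.BI.StLOC) : StN2c := by
  intro δ G hδ hG
  have hxc : xc ∈ Bq := Nn_Bq (by rw [Nn_xc]; norm_num)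
  have fin : ∀ G' : R4 → R4, EmbOn I4 G' Bq → 0 < (fderiv ℝ G' xc).det →
      ∃ Ψ : R4 ≃ₜ R4, Ψ '' (G' '' wallS δ) = wallS δ := by
    intro G' hG' hdet
    obtain ⟨Ψ, hΨ⟩ := core hLOC G' hG' hdet
    refine ⟨Ψ, ?_⟩
    rw [image_image]
    have : (fun p => Ψ (G' p)) '' wallS δ = (fun p => p) '' wallS δ :=
      image_congr fun p hp => hΨ p (wallS_Nn hδ.1.le hp)
    rw [this, image_id']
  have hLD : LD G xc := hG.1 xc hxc
  rcases lt_or_gt_of_ne (det_ne hLD) with hneg | hpos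
  · have h1 : EmbOn I4 (G ∘ rr) Bq := embOn_comp hG embOn_rr fun p hp => rr_Bq hp
    have hd : DifferentiableAt ℝ G (rr xc) := by
      rw [rr_xc]
      exact ((ld_iff.1 hLD).1.self_of_nhds).differentiableAt (by simp)
    have hF : HasFDerivAt (G ∘ rr) ((fderiv ℝ G (rr xc)).comp Lr) xc :=
      hd.hasFDerivAt.comp xc (rr_fderiv xc)
    have h2 : 0 < (fderiv ℝ (G ∘ rr) xc).det := by
      rw [hF.fderiv, rr_xc]
      have h6 : ((fderiv ℝ G xc).comp Lr).det = (fderiv ℝ G xc).det * Lr.det :=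
        LinearMap.det_comp _ _
      rw [h6, Lr_det]
      linarith
    obtain ⟨Ψ, hΨ⟩ := fin _ h1 h2
    refine ⟨Ψ, ?_⟩
    rw [image_comp, rr_wallS] at hΨ
    exact hΨ
  · exact fin G hG hpos

end Pool.Agent.Helper27.S5


end
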