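import Pool.Agent.Helper65.Barb.Defs
import Pool.Agent.Helper70.BI.C.P13
import Pool.Agent.Helper70.BI.C.P14

/-!
# Project BI (MP_8e98f2_gt): collected modules, part 43

The contents of the modules
* Helper34.BI.H.StH5a
* Helper34.BI.H.StH5b
* Helper34.BI.H.StH5c
* Helper34.BI.H.M_OPA
* Helper34.BI.H.M_XL
* Helper34.BI.H.M_CHT
* Helper34.BI.H.M_CHV
* Helper34.BI.H.M_L5
* Helper34.BI.H.M_XG5

in one file, so that the whole proof builds in a short time.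
-/

namespace Pool.Agent.Helper18.BI
end Pool.Agent.Helper18.BI

namespace Pool.Agent.Helper27.BI
end Pool.Agent.Helper27.BI

namespace Pool.Agent.Helper27.H
end Pool.Agent.Helper27.H

namespace Pool.Agent.Helper65.Barb
end Pool.Agent.Helper65.Barb

namespace Pool.Agent.Helper70.BI
end Pool.Agent.Helper70.BI


/-! ## Helper34.BI.H.StH5a -/

section

/-!
# Project BI, stage 3, section 5: the crossing, statements independent of thick arcs

Statements (as `Prop` definitions) with complete proofs in the docstrings.  A module `M_X`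
(`Pool/Agent/Helper34/BI/H/M_X.lean`) proves `theorem m_X : StX` (possibly from other statements as
hypotheses).
-/

set_option autoImplicit false

open Module Set Filter Topology
open scoped ContDiff Manifold
open Pool.Agent.Helper65.Barb Pool.Agent.Helper18.BI Pool.Agent.Helper27.BI

namespace Pool.Agent.Helper34.BI.H

/-- **OPN.** Openness of embeddings of germs in families, with exceptional double points.
`J (a, ·)`, `a ∈ A`, is a family of germs along `L`; at `a₀` it is locally diffeomorphic, and injective on `L`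
except for some pairs of points near which double points occur for bad parameters only.

*Proof.* Compare module D1b (`Pool/Agent/Helper34/BI/M_D1b.lean`, lemmas `eventually_good`, `eventually_inj`: for
each `x ∈ L` the map `(a, x) ↦ (a, J (a, x))` is smooth near `(a₀, x)` with injective derivative, so it is a local
diffeomorphism near `(a₀, x)`, injective near `(a₀, x)`, and `J (a, ·)` is a local diffeomorphism at `y` for
`(a, y)` near `(a₀, x)`).  So every `(x, y) ∈ L × L` satisfies: for all `(a, x', y')` near `(a₀, x, y)`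
with `x', y' ∈ L`: `J` is smooth near `(a, x')`, `J (a, ·)` is locally diffeomorphic at `x'`, and
`J (a, x') = J (a, y') → x' = y' ∨ bad a`: (i) `J (a₀, x) ≠ J (a₀, y)`: continuity; (ii) `x = y`: local injectivity;
(iii) otherwise: the hypothesis.  By compactness of `L ×ˢ L` (`IsCompact.eventually_forall_of_forall_eventually` or the
generalized tube lemma) this holds for all `(x', y') ∈ L × L` and all `a` near `a₀`. -/
def StOPN : Prop :=
  ∀ (A : Type) [NormedAddCommGroup A] [NormedSpace ℝ A] [FiniteDimensional ℝ A]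
    (J : A × R4 → R4) (a₀ : A) (L : Set R4) (bad : A → Prop), IsCompact L →
    (∀ x ∈ L, ∀ᶠ z in 𝓝 (a₀, x), ContDiffAt ℝ ∞ J z) →
    (∀ x ∈ L, IsLocalDiffeomorphAt 𝓘(ℝ, R4) 𝓘(ℝ, R4) ∞ (fun p => J (a₀, p)) x) →
    (∀ x ∈ L, ∀ y ∈ L, J (a₀, x) = J (a₀, y) → x = y ∨
      ∀ᶠ z : A × R4 × R4 in 𝓝 (a₀, x, y), z.2.1 ∈ L → z.2.2 ∈ L →
        J (z.1, z.2.1) = J (z.1, z.2.2) → bad z.1) →
    ∀ᶠ a in 𝓝 a₀, (∀ x ∈ L, ∀ᶠ z in 𝓝 (a, x), ContDiffAt ℝ ∞ J z) ∧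
      (∀ x ∈ L, IsLocalDiffeomorphAt 𝓘(ℝ, R4) 𝓘(ℝ, R4) ∞ (fun p => J (a, p)) x) ∧
      (bad a ∨ InjOn (fun p => J (a, p)) L)

/-- the arcs of the localized circle: `a + i h = 1 + κ (exp (2 π i q) - 1)`,
`X = (s - 1/2) κ (1 - cos 2 π q)` -/
noncomputable def warc (κ : ℝ → ℝ) (q s : ℝ) : R3 :=
  (1 + κ s * (Real.cos (2 * Real.pi * q) - 1),
    ⟨(s - 1 / 2) * (κ s * (1 - Real.cos (2 * Real.pi * q))), κ s * Real.sin (2 * Real.pi * q)⟩)

/-- **CIRC.** The barbell map is a push along the localized circle (uses `StCh`, `StSpin`).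

*Proof.* `barMap` is a push along `barPath q s = zarc (sin π q) (chi s) q s` relative to
`{rsq 0 ≤ (1/5)²}` with radius `1/5` (`isPush_barMap`, see `opening` in `Helper27/BI/AddMain.lean`).  Let
`Γ u q s = (1 - u) • zarc (sin π q) (chi s) q s + u • warc κ q s`.
Claim: `Γ u q s ≠ 0` for `u, q, s ∈ [0,1]`.  Write `S = sin π q ≥ 0`, `1 - cos 2πq = 2 S²`, `k = (1 - u) χ(s) + u κ(s)`:
`Γ = (1 + k (cos 2πq - 1), X + i k sin 2πq)`, `X = S [-(1 - u) sin φ(s) + 2 u (s - 1/2) κ(s) S]`.  Suppose `Γ = 0`.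
If `S = 0` then `cos 2πq = 1`, the first coordinate is `1`.  So `S > 0` and the bracket is zero.  For
`0 < s < 1/2`: `0 < φ(s) < π` (`step` is strictly increasing on `[0,1]` with `step (1/2) = 1/2`: `step_symm`;
`0 < step s < 1/2`), so `sin φ > 0` and both terms are `≤ 0`; for `1/2 < s < 1`: `π < φ < 2π`, both are
`≥ 0`.  So if `s ∈ (0,1)`, `s ≠ 1/2`: `(1 - u) sin φ = 0`, so `u = 1`, and `κ(s) = 0`, so `k = 0` and the first
coordinate is `1`.  If `s = 0` or `s = 1`: `χ = κ = 0`, `k = 0`, the same.  If `s = 1/2`: `χ = 1`, `κ = 1`, `k = 1`, and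
`Γ = (cos 2πq, .. + i sin 2πq) ≠ 0`.
By compactness `nsq (Γ u q s) ≥ (3 ρ₀)²` on the cube for some `ρ₀ > 0`; take also `ρ₀ ≤ 3/20`.  For `ρ < ρ₀` the
family is `SqOk (ctube 0 ρ) ρ` (`off`: `|x| ≤ ρ`, `|Γ| ≥ 3 ρ`; `inside`: `|zarc| ≤ 3`, `|warc| ≤ 3`, so `|Γ| ≤ 3`, `2ρ < 1`; `ends`: both are `e1`
for `s ≤ 0`, `s ≥ 1`; `sep` is empty for `Unit`).  `square` (Square.lean) with `Θ1 = barMap`, `Θ4 = Θ`, `Θ2 = Θ3 = id`
(for `q = 0`, `q = 1` all arcs are `e1`).  Existence of a push: `exists_push` for `(u, q) ↦ warc κ q`. -/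
def StCIRC : Prop :=
  ∀ κ : ℝ → ℝ, ContDiff ℝ ∞ κ → (∀ s, κ s ∈ Icc (0 : ℝ) 1) → κ (1 / 2) = 1 →
    (∀ s, (s ≤ 0 ∨ 1 ≤ s) → κ s = 0) →
    ∃ ρ₀ > 0, ∀ ρ ∈ Ioo 0 ρ₀,
      (∃ Θ, IsPush (ctube 0 ρ) ρ (fun (_ : Unit) q s => warc κ q s) Θ) ∧
      ∀ Θ, IsPush (ctube 0 ρ) ρ (fun (_ : Unit) q s => warc κ q s) Θ →
        TIso (ctube 0 ρ) ρ (fun (_ : Unit) _ => e1) (fun _ _ => e1) barMap Θ

end Pool.Agent.Helper34.BI.H


end

/-! ## Helper34.BI.H.StH5b -/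

section

/-!
# Project BI, stage 3, section 5: the chart at a transverse crossing of two strands

`c (v, b)` is the moving strand (parameter `v ∈ ℝ²`), `c0 t` the fixed strand.
-/

set_option autoImplicit false

open Module Set Filter Topology
open scoped ContDiff Manifold
open Pool.Agent.Helper65.Barb Pool.Agent.Helper18.BI Pool.Agent.Helper27.BI

namespace Pool.Agent.Helper34.BI.H

/-- `Y (v, b, t) = c (v, b) + (c0 t - c0 0)` -/
def yc (c : (ℝ × ℝ) × ℝ → R4) (c0 : ℝ → R4) (z : (ℝ × ℝ) × ℝ × ℝ) : R4 :=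
  c (z.1, z.2.1) + (c0 z.2.2 - c0 0)

/-- multiplication by the complex number `m`, on `ℝ × ℝ` -/
def mulc (m : ℝ × ℝ) (v : ℝ × ℝ) : ℝ × ℝ := (m.1 * v.1 - m.2 * v.2, m.1 * v.2 + m.2 * v.1)

/-- the coordinates: `p = (s, (a, X + i h))` -/
noncomputable def lam (v₀ m : ℝ × ℝ) (ε ν : ℝ) (p : R4) : (ℝ × ℝ) × ℝ × ℝ :=
  (v₀ + mulc m (p.2.1, p.2.2.im), ν * ((p.1 - 1 / 2) * p.2.1 + p.2.2.re),
    ε * ((p.1 - 1 / 2) * (1 - p.2.1) - p.2.2.re))

/-- the chart -/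
noncomputable def cht (c : (ℝ × ℝ) × ℝ → R4) (c0 : ℝ → R4) (v₀ m : ℝ × ℝ) (ε ν : ℝ) (p : R4) : R4 :=
  yc c c0 (lam v₀ m ε ν p)

/-- the closed box of radius `η` around `(v₀, 0, 0)` -/
def box (v₀ : ℝ × ℝ) (η : ℝ) : Set ((ℝ × ℝ) × ℝ × ℝ) := {z | ‖z - (v₀, 0, 0)‖ ≤ η}

/-- **CHT.** The chart.

*Proof.* `g = yc c c0` is smooth near `z₀ = (v₀, 0, 0)`, `fderiv g z₀ (v, b, t) = Dc (v, b) + t c0'(0)`, which is
`D(c - c0) (v, b, -t)`, so it is injective.  By `isLocalDiffeomorphAt_of_injective` (Loc.lean; both spaces have dimension 4)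
`g` is a local diffeomorphism at `z₀`: there is an open `V ∋ z₀` on which `g` is injective, smooth, with injective
derivative at all points, and `g z ∈ O` for `z ∈ V` (`g z₀ = c0 0 ∈ O` as `c (v₀, 0) = c0 0`).  Choose
`η₀ ≤ 1` with `box v₀ η₀ ⊆ V`.  (The closed box is `Metric.closedBall`; its points have a neighbourhood in `V`.)
`lam v₀ m ε ν` is a polynomial map, injective with injective derivative for `m ≠ 0`, `ε, ν > 0`: with
`σ = p.1 - 1/2`, `a`, `X`, `h`: `(a, h)` is determined by the first component (`mulc m` is injective for `m ≠ 0`), and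
`B = σ a + X`, `T = σ (1 - a) - X` determine `σ = B + T` and `X = B - σ a`; for the derivative: if the derivative of
`(a, h)`, `σ a + X`, `σ (1 - a) - X` in the direction `(σ', a', X', h')` is zero then `a' = h' = 0`, `σ' a + X' = 0`,
`σ' (1 - a) - X' = 0`, so `σ' = 0`, `X' = 0`.  For `p ∈ ball4`: `|p.1 - 1/2| ≤ 3/2`, `|a|, |X|, |h| ≤ 9/2`, so
`‖lam v₀ m ε ν p - (v₀, 0, 0)‖ ≤ 20 max ‖m‖ ε ν` (`|m₁ a - m₂ h| ≤ 9 ‖m‖`, `|σ a + X| ≤ 27/4 + 9/2`,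
`|σ (1 - a) - X| ≤ 3/2 · 11/2 + 9/2`).  So for `‖m‖, ε, ν < η₀ / 20` the map `lam` maps `ball4` into the box, and
`cht = g ∘ lam` is `EmbOn ball4` (chain rule for the derivatives, `isLocalDiffeomorphAt_of_injective` for `R4 → R4`). -/
def StCHT : Prop :=
  ∀ (c : (ℝ × ℝ) × ℝ → R4) (c0 : ℝ → R4) (v₀ : ℝ × ℝ) (O : Set R4),
    (∀ᶠ z in 𝓝 (v₀, (0 : ℝ)), ContDiffAt ℝ ∞ c z) → (∀ᶠ t in 𝓝 (0 : ℝ), ContDiffAt ℝ ∞ c0 t) →
    c (v₀, 0) = c0 0 →
    Function.Injective (fderiv ℝ (fun z : (ℝ × ℝ) × ℝ × ℝ => c (z.1, z.2.1) - c0 z.2.2)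
      (v₀, 0, 0)) → IsOpen O → c0 0 ∈ O →
    ∃ η₀ > 0, InjOn (yc c c0) (box v₀ η₀) ∧ MapsTo (yc c c0) (box v₀ η₀) O ∧
      (∀ z ∈ box v₀ η₀, ∀ᶠ w in 𝓝 z, ContDiffAt ℝ ∞ (yc c c0) w) ∧
      ∀ (m : ℝ × ℝ) (ε ν : ℝ), m ≠ 0 → ‖m‖ < η₀ / 20 → 0 < ε → ε < η₀ / 20 → 0 < ν →
        ν < η₀ / 20 → EmbOn 𝓘(ℝ, R4) (cht c c0 v₀ m ε ν) ball4 ∧
          MapsTo (lam v₀ m ε ν) ball4 (box v₀ η₀)

/-- the moving parameter: from `v₀ + m` around the circle with centre `v₀` -/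
noncomputable def circ (v₀ m : ℝ × ℝ) (q : ℝ) : ℝ × ℝ :=
  v₀ + mulc m (Real.cos (2 * Real.pi * q), Real.sin (2 * Real.pi * q))

/-- **CHV.** Values of the chart on the two lines and on the localized circle.

*Proof.* Direct computation: for `x = warc κ q s` one has `X = (s - 1/2) (1 - a)`, so the last component of `lam` is
zero and the second is `ν (s - 1/2)`; `(a, h) = (1, 0) + κ ((cos, sin) - (1, 0))` and `mulc m` is linear.  Conversely,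
if `p ∈ ball4` and `cht p = yc z` with `z ∈ box v₀ η₀` then `lam p = z` (injectivity); if `z = (v₀, 0, t)` then
`(a, h) = 0`, `B = 0` (second component), so `X = B - σ a = 0`: `p = (p.1, 0)`; if `z = (v₀ + m, b, 0)` then
`(a, h) = (1, 0)`, `T = 0`, `X = σ (1 - a) - T = 0`: `p = (p.1, e1)`. -/
def StCHV : Prop :=
  ∀ (c : (ℝ × ℝ) × ℝ → R4) (c0 : ℝ → R4) (v₀ m : ℝ × ℝ) (ε ν η₀ : ℝ), m ≠ 0 → 0 < ε → 0 < ν →
    c (v₀, 0) = c0 0 →
    (∀ s, cht c c0 v₀ m ε ν (s, 0) = c0 (ε * (s - 1 / 2))) ∧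
    (∀ s, cht c c0 v₀ m ε ν (s, e1) = c (v₀ + m, ν * (s - 1 / 2))) ∧
    (∀ (κ : ℝ → ℝ) (q s : ℝ), cht c c0 v₀ m ε ν (s, warc κ q s) =
      c (v₀ + m + κ s • (circ v₀ m q - (v₀ + m)), ν * (s - 1 / 2))) ∧
    (InjOn (yc c c0) (box v₀ η₀) → MapsTo (lam v₀ m ε ν) ball4 (box v₀ η₀) → ∀ p ∈ ball4,
      (∀ t, |t| ≤ η₀ → 0 ≤ η₀ → cht c c0 v₀ m ε ν p = c0 t →
        p = (p.1, 0) ∧ t = ε * (p.1 - 1 / 2)) ∧
      ∀ b, |b| ≤ η₀ → ‖m‖ ≤ η₀ → cht c c0 v₀ m ε ν p = c (v₀ + m, b) →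
        p = (p.1, e1) ∧ b = ν * (p.1 - 1 / 2))

end Pool.Agent.Helper34.BI.H


end

/-! ## Helper34.BI.H.StH5c -/

section

/-!
# Project BI, stage 3, section 5: the crossing, statements

Statements (as `Prop` definitions) with complete proofs in the docstrings.  A module `M_X`
(`Pool/Agent/Helper34/BI/H/M_X.lean`) proves `theorem m_X : StX` (possibly from other statements as
hypotheses `(h : StY)`).  Notation: `v₀ = (u₀, q₀)`.
-/

set_option autoImplicit false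

open Module Set Filter Topology
open scoped ContDiff Manifold
open Pool.Agent.Helper65.Barb Pool.Agent.Helper18.BI Pool.Agent.Helper27.BI
open Pool.Agent.Helper27.H (ArcD LIso LPush Fam2 Q2 SuppU thk seg)
open Pool.Agent.Helper70.BI (I4)

namespace Pool.Agent.Helper34.BI.H

/-! ## embedded arcs in families -/

/-- **OPA.** Openness of embeddings of arcs in families, with exceptional double points.

*Proof.* (Compare `near_diag` in `M_H4.lean` and `exists_delta` in `M_GPD.lean`; `locInj` is in `M_H4.lean`.)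
Every `(s, t) ∈ [s₀, s₁]²` satisfies: for all `(a, s', t')` near `(a₀, s, t)`: `x (a, s') = x (a, t') → s' = t' ∨ bad a`:
(i) `s = t`: the map `(a, s) ↦ (a, x (a, s))`, `A × ℝ → A × R4`, has injective derivative at `(a₀, s)`, so it is injective near
`(a₀, s)` (`locInj`); (ii) `s ≠ t`, `x (a₀, s) = x (a₀, t)`: the hypothesis (exchange `s`, `t` if `t < s`); (iii) `x (a₀, s) ≠ x (a₀, t)`: continuity.
For `s ∈ [s₀, s₁]`, `deriv (fun s => x (a, s)) s' = fderiv x (a, s') (0, 1) ≠ 0` for `(a, s')` near `(a₀, s)`.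
Compactness (`IsCompact.eventually_forall_of_forall_eventually`). -/
def StOPA : Prop :=
  ∀ (A : Type) [NormedAddCommGroup A] [NormedSpace ℝ A] [FiniteDimensional ℝ A]
    (x : A × ℝ → R4) (a₀ : A) (s₀ s₁ : ℝ) (bad : A → Prop), ContDiff ℝ ∞ x →
    (∀ s ∈ Icc s₀ s₁, deriv (fun s => x (a₀, s)) s ≠ 0) →
    (∀ s ∈ Icc s₀ s₁, ∀ t ∈ Icc s₀ s₁, s < t → x (a₀, s) = x (a₀, t) →
      ∀ᶠ z : A × ℝ × ℝ in 𝓝 (a₀, s, t), x (z.1, z.2.1) = x (z.1, z.2.2) → bad z.1) →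
    ∀ᶠ a in 𝓝 a₀, (∀ s ∈ Icc s₀ s₁, deriv (fun s => x (a, s)) s ≠ 0) ∧
      (bad a ∨ InjOn (fun s => x (a, s)) (Icc s₀ s₁))

/-- the velocity of the strand at `a` relative to the strand at `b` -/
noncomputable def lw (c : ℝ × ℝ × ℝ → R4) (u₀ q₀ a b : ℝ) (w : ℝ × ℝ) : R4 :=
  fderiv ℝ c (u₀, q₀, a) (w.1, w.2, 0) - fderiv ℝ c (u₀, q₀, b) (w.1, w.2, 0)

/-- The homotopy (`l ∈ [0,1]`) from the arc with parameters `(u₀, q₀) + v` to the arc where only the strand at `b` is moved;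
`m` is the base point of the circle on which `v` moves. -/
noncomputable def xl (c : ℝ × ℝ × ℝ → R4) (u₀ q₀ a b : ℝ) (κ₁ κ₂ : ℝ → ℝ) (l : ℝ) (m v : ℝ × ℝ)
    (s : ℝ) : R4 :=
  (1 - l) • c (u₀ + v.1, q₀ + v.2, s) +
    l • (c (u₀, q₀, s) - κ₁ (s - b) • lw c u₀ q₀ a b (m + κ₂ (s - b) • (v - m)))

/-- **XL.** (uses `StOPA`) The arcs of the homotopy are embedded.

*Proof.* `StOPA` with `A = ℝ × (ℝ × ℝ) × (ℝ × ℝ) ∋ (l, m, v)`, `x ((l, m, v), s) = xl .. l m v s` (smooth),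
`a₀ = (l₀, 0, 0)`, `l₀ ∈ [0,1]`, `bad (l, m, v) := v = 0`.  `x (a₀, s) = c (u₀, q₀, s)` for all `s` (`lw .. 0 = 0`), immersed.  If
`s < t` in `[s₀, s₁]` and `c (u₀, q₀, s) = c (u₀, q₀, t)` then `s = a`, `t = b` (`Xing.uniq`).  For `((l, m, v), s', t')` near
`(a₀, a, b)`: `κ₁ (t' - b) = κ₂ (t' - b) = 1`, `κ₁ (s' - b) = 0` (`|s' - b| > η`), so `x (.., t') - x (.., s') = F (l, v, s', t')`,
`F (l, v, s', t') = (1-l) • (c (v₀ + v, t') - c (v₀ + v, s')) + l • (c (v₀, t') - c (v₀, s') - lw v)` (`m` cancels: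
`m + 1 • (v - m) = v`).  `F` is smooth, `F (l, 0, a, b) = 0` for all `l`, and the derivative of
`G (l, v, s', t') = (l, F (l, v, s', t'))` at `(l₀, 0, a, b)` in the direction `(λ, w, σ, τ)` is `(λ, Dc(b)(w, τ) - Dc(a)(w, σ))`:
by linearity it is `(λ, λ * (∂_l F = 0) + ..)` and the two terms with factors `1 - l` and `l` are equal; it is injective by `Xing.trans`.
So `G` is injective near `(l₀, 0, a, b)` (`locInj`), and `F (l, v, s', t') = 0 = F (l, 0, a, b)` gives `v = 0`.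
Hence for all `(l, m, v)` near `(l₀, 0, 0)`: immersed, and `v = 0` or injective.  Also (tube lemma) `x ((l, m, v), s) ∈ U` for all
`s ∈ [m₀, m₁]` (`Htpy.inU`).  Compactness of `[0,1] ∋ l₀` gives `δ` (tube lemma for `[0,1] × {(0, 0)}`). -/
def StXL : Prop :=
  ∀ (D : ArcD) (c : ℝ × ℝ × ℝ → R4) (u₀ q₀ a b : ℝ) (κ₁ κ₂ : ℝ → ℝ) (η : ℝ), D.Htpy c →
    D.Xing c u₀ q₀ a b → D.Imm c u₀ q₀ → ContDiff ℝ ∞ κ₁ → ContDiff ℝ ∞ κ₂ →
    (∀ᶠ t in 𝓝 (0 : ℝ), κ₁ t = 1 ∧ κ₂ t = 1) → η < b - a → (∀ t, η ≤ |t| → κ₁ t = 0) →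
    ∃ δ > 0, ∀ l ∈ Icc (0 : ℝ) 1, ∀ m v : ℝ × ℝ, ‖m‖ < δ → ‖v‖ < δ → v ≠ 0 →
      (∀ s ∈ Icc D.s₀ D.s₁, deriv (xl c u₀ q₀ a b κ₁ κ₂ l m v) s ≠ 0) ∧
      InjOn (xl c u₀ q₀ a b κ₁ κ₂ l m v) (Icc D.s₀ D.s₁) ∧
      ∀ s ∈ Icc D.m₀ D.m₁, xl c u₀ q₀ a b κ₁ κ₂ l m v s ∈ D.U

/-! ## the localized circle of arcs -/

/-- A loop of arcs `y q`, where a short piece of the arc around the parameter `b` moves around the piece around
the parameter `a`, seen in the chart `T`. -/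
structure Mod5 (D : ArcD) (a b ε ν : ℝ) (κ : ℝ → ℝ) (T : R4 → R4) (y : ℝ → ℝ → R4) : Prop where
  smooth : ContDiff ℝ ∞ (fun z : ℝ × ℝ => y z.1 z.2)
  froz : ∀ q ∈ Icc (0 : ℝ) 1, ∀ s, (s ≤ D.m₀ ∨ D.m₁ ≤ s) → y q s = D.c s
  inU : ∀ q ∈ Icc (0 : ℝ) 1, ∀ s ∈ Icc D.m₀ D.m₁, y q s ∈ D.U
  imm : ∀ q ∈ Icc (0 : ℝ) 1, ∀ s ∈ Icc D.s₀ D.s₁, deriv (y q) s ≠ 0
  inj : ∀ q ∈ Icc (0 : ℝ) 1, InjOn (y q) (Icc D.s₀ D.s₁)
  loop : y 1 = y 0
  εpos : 0 < ε
  νpos : 0 < ν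
  ha : D.s₀ < a - 2 * ε
  hab : a + 2 * ε < b - 2 * ν
  hb : b + 2 * ν < D.s₁
  κs : ContDiff ℝ ∞ κ
  κ01 : ∀ s, κ s ∈ Icc (0 : ℝ) 1
  κh : κ (1 / 2) = 1
  κ0 : ∀ s, (s ≤ 0 ∨ 1 ≤ s) → κ s = 0
  emb : EmbOn 𝓘(ℝ, R4) T ball4
  TU : MapsTo T ball4 D.U
  c0 : ∀ s ∈ Icc (-1 : ℝ) 2, T (s, 0) = y 0 (a + ε * (s - 1 / 2))
  c1 : ∀ s ∈ Icc (-1 : ℝ) 2, T (s, e1) = y 0 (b + ν * (s - 1 / 2))
  cw : ∀ q ∈ Icc (0 : ℝ) 1, ∀ s ∈ Icc (-1 : ℝ) 2,
    T (s, warc κ q s) = y q (b + ν * (s - 1 / 2))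
  only : ∀ p ∈ ball4, ∀ s ∈ Icc D.s₀ D.s₁, T p = y 0 s →
    (p.2 = 0 ∧ s = a + ε * (p.1 - 1 / 2)) ∨ (p.2 = e1 ∧ s = b + ν * (p.1 - 1 / 2))
  const : ∀ q ∈ Icc (0 : ℝ) 1, ∀ s, (s ≤ b - ν / 2 ∨ b + ν / 2 ≤ s) → y q s = y 0 s

/-- **L5.** (uses `StXL`, `StCHT`, `StCHV`) The circle of arcs `c (circ v₀ m q, ·)` is homotopic through loops of
embedded arcs to one in the local model.

*Proof.* `A = lw c u₀ q₀ a b` is linear.  `cc (v, β) = c (u₀, q₀, b + β) - A (v - v₀)`, `c0 t = c (u₀, q₀, a + t)`; smooth,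
`cc (v₀, 0) = c0 0` (`Xing.eq`); `D(cc - c0)(w, β, t) = - A w + c'(b) β - c'(a) t = Dc(b)(w, β) - Dc(a)(w, t)` is injective
(`Xing.trans`).  `StCHT` with `O = U` (`c (v₀, a) ∈ U` as `a ∈ (m₀, m₁)`) gives `η₁`; let
`η₀ = min η₁, (b - a) / 3, (a - m₀) / 2, (m₁ - b) / 2` (all are positive).  Let
`O = U \ (c (v₀, ·) '' {s ∈ [s₀, s₁] | η₀ ≤ |s - a| ∧ η₀ ≤ |s - b|})`: open, contains `c0 0 = c (v₀, a)` (`Xing.uniq`: `c (v₀, s) = c (v₀, a)`, `s ≠ a`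
gives `s = b`).  `StCHT` with this `O` gives `η₂`.  Let `η = min η₀ η₂`, `ε = ν = η / 40`.  `κ₁ : ℝ → ℝ` smooth with values in `[0,1]`,
`κ₁ = 1` for `|β| ≤ η₀ / 4`, `κ₁ = 0` for `|β| ≥ η₀ / 2`; `κ₂` smooth with values in `[0,1]`, `1` for `|β| ≤ ν / 4`, `0` for `|β| ≥ ν / 2`
(e.g. `step (2 - 4 |β| / ..)` or `ContDiffBump`); `κ s = κ₂ (ν (s - 1/2))`.  `StXL` (with `η₀ / 2 < b - a`) gives `δ`.
`r₀ ≤ min (δ / 2) (η / 20)` and such that `circ v₀ m q ∈ Q2` for `‖m‖ < r₀` (`‖mulc m (cos, sin)‖ ≤ 2 ‖m‖`, `u₀, q₀ ∈ (0,1)`).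
`x l q s = xl .. l m (v' q) s`, `v' q = mulc m (cos 2πq, sin 2πq)`: `v' q ≠ 0` (`m ≠ 0`), `‖v' q‖ < δ`; `v' 0 = v' 1 = m`.
`T = cht cc c0 v₀ m ε ν`.
Frozen: `xl` with `κ₁ (s - b) = 0` for `s ≤ m₀`, `m₁ ≤ s`, and `Htpy.froz`.  (For `l ∉ [0,1]` nothing is needed.)
`emb`, `TU` from `StCHT` (`cht = yc ∘ lam`, `lam` maps `ball4` to the box, `yc` maps the box to `O ⊆ U`).
`c0`, `c1`, `cw`: `StCHV` (1)-(3), `|ν (s - 1/2)| ≤ 3ν/2 ≤ η₀ / 4`, so `κ₁ = 1`; `κ₁ (s - b) = 0` near `a`; `warc κ 0 s = e1`.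
`only`: let `T p = y 0 s = c (v₀, s) - κ₁ (s - b) A m`.  If `|s - a| ≤ η₀` then `κ₁ (s - b) = 0` and `T p = c0 (s - a)`: `StCHV` (4).
If `|s - b| ≤ η₀`: `y 0 s = yc (v₀ + κ₁(β) m, β, 0)`, `β = s - b`, and `T p = yc (lam p)`; both points are in the box of radius `η₁`, so
`lam p = (v₀ + κ₁(β) m, β, 0)`; with `p = (σ + 1/2, (a', X + i h))`: `mulc m (a', h) = κ₁(β) m` gives `a' = κ₁(β)`, `h = 0`;
`X = σ (1 - a')`, `β = ν (σ a' + X) = ν σ`, `|σ| ≤ 3/2`, so `|β| ≤ η₀ / 4`, `κ₁(β) = 1`, `a' = 1`, `X = 0`.  Otherwise `T p ∈ O` but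
`y 0 s = c (v₀, s) ∉ O`.
`const`: `κ₂ (s - b) = 0` for `|s - b| ≥ ν / 2`. -/
def StL5 : Prop :=
  ∀ (D : ArcD) (c : ℝ × ℝ × ℝ → R4) (u₀ q₀ a b : ℝ), D.Htpy c → D.Xing c u₀ q₀ a b →
    D.Imm c u₀ q₀ → D.m₀ < a → b < D.m₁ →
    ∃ r₀ > 0, ∀ m : ℝ × ℝ, m ≠ 0 → ‖m‖ < r₀ →
      ∃ (ε ν : ℝ) (κ : ℝ → ℝ) (T : R4 → R4) (x : ℝ → ℝ → ℝ → R4),
      ContDiff ℝ ∞ (fun z : (ℝ × ℝ) × ℝ => x z.1.1 z.1.2 z.2) ∧
      (∀ l ∈ Icc (0 : ℝ) 1, ∀ q ∈ Icc (0 : ℝ) 1,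
        (∀ s, (s ≤ D.m₀ ∨ D.m₁ ≤ s) → x l q s = D.c s) ∧
        (∀ s ∈ Icc D.m₀ D.m₁, x l q s ∈ D.U) ∧ InjOn (x l q) (Icc D.s₀ D.s₁) ∧
        ∀ s ∈ Icc D.s₀ D.s₁, deriv (x l q) s ≠ 0) ∧
      (∀ l, x l 1 = x l 0) ∧
      (∀ q s, x 0 q s = c ((circ (u₀, q₀) m q).1, (circ (u₀, q₀) m q).2, s)) ∧
      Mod5 D a b ε ν κ T (x 1)

/-! ## implanting in a chart -/

/-- **TPU.** `T` is a chart defined on `ball4`, with values in `U`, `J` is a germ along `L` whose values on `L` are in `T (ball4)`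
only at points of the two vertical lines.

*Proof.* (1) `StA1` (`hA1`, `Helper18/BI/AsmA.lean`) gives a partial diffeomorphism `δ` with `ball4 ⊆ δ.source`, `δ = T` on `δ.source`;
`F` is supported in the compact `K ⊆ interior ball4`; `G = DFam.push δ ..` (as in the proof of `StPush`,
`Helper18/BI/M_A3.lean`, or `M_IMP.lean`), `imp T ball4 (F_t) = push δ F_t` by `StImp` (5) (`hImp`); support
`T '' K`, or `T '' ball4`, compact, contained in `U`.  (2) The set `B = {p ∈ ball4 | ρ² ≤ nsq p.2 ∧ ρ² ≤ nsq (p.2 - e1)}` is compact and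
`T '' B` is disjoint from `J '' L`, so `N₀ = {p | J p ∉ T '' B}` is a neighbourhood of every point of `L`; `N = interior N₀`.  Let
`p ∈ N`.  If `J p ∉ T '' ball4` then `imp` fixes `J p` (`StImp` (2)).  Otherwise `J p = T z`, `z ∈ ball4`, `z ∉ B`, so `z` is in one of
the tubes, `φ z = z`, and `imp T ball4 φ (T z) = T (φ z) = T z` (`StImp` (1)). -/
def StTPU : Prop :=
  ∀ (U L : Set R4) (J T : R4 → R4), IsOpen U → IsCompact L → (∀ p ∈ L, ContinuousAt J p) →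
    EmbOn I4 T ball4 → MapsTo T ball4 U → (∀ p ∈ ball4, T p ∈ J '' L → p.2 = 0 ∨ p.2 = e1) →
    (∀ F : DFam 𝓘(ℝ, R4) R4, SuppB F → ∃ G : DFam 𝓘(ℝ, R4) R4, SuppU U G ∧
      (∀ t y, y ∉ T '' ball4 → G.f (t, y) = y) ∧
      ∀ t y, G.f (t, y) = imp T ball4 (fun p => F.f (t, p)) y) ∧
    ∀ ρ > 0, ∃ N : Set R4, IsOpen N ∧ L ⊆ N ∧ ∀ φ : R4 → R4,
      (∀ x ∈ ctube 0 ρ ∪ ctube e1 ρ, φ x = x) → ∀ p ∈ N, imp T ball4 φ (J p) = J p

/-- **M5.** (uses `StTPU`, `StCIRC`, `StCH4`, `StFRAME`, `StTHK`) The push along the localized circle is the barbell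
implantation in the chart.

*Proof.* Write `J₀ = thk D.J D.c (y 0)`, `L = D.L`.  By `StTHK` (for `x (l, q) = y q`): `q ↦ thk D.J D.c (y q)` is `Fam2 Q2 L D.V U`, with
cores `y q`.  `StTPU` applies to `J₀`, `T`: `J₀ '' L = y 0 '' [s₀, s₁]` and `Mod5.only`.
(a) `StCIRC` gives `ρ` and `Θ` with `IsPush (ctube 0 ρ) ρ (warc κ) Θ` (family `F`) and `TIso (ctube 0 ρ) ρ e1 e1 barMap Θ` (family `F'`).
(b) `LIso U L J₀ J₀ (imp T ball4 barMap) (imp T ball4 Θ)`: `StTPU` (1) for `F'`; (2) for `ρ`: `F'_t` is the identity on both tubes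
(`ctube 0 ρ` is fixed, and a point `(s, x)` with `nsq (x - e1) ≤ ρ²` is `(s, e1 + y)`).
(c) `G` from `StTPU` (1) for `F`.  Let `J^F q = fun p => G.f (q, J₀ p)`.  For `t ∈ [0,1]`, `F_t (s, e1 + y) = (s, warc κ (step t) s + y)`.
Cores: for `s ∈ [s₀, s₁]`, `q ∈ [0,1]`: `G.f (q, y 0 s) = y (step q) s`.  If `y 0 s = T p`, `p ∈ ball4`, then by `only` either `p = (p.1, 0)` and
`s = a + ε (p.1 - 1/2)`: `F_q p = p`, so `G.f (q, y 0 s) = y 0 s = y (step q) s` by `const` (`|s - b| > ν / 2` by `hab`, `p.1 ∈ [-1, 2]`); or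
`p = (p.1, e1)`, `s = b + ν (p.1 - 1/2)`: `F_q p = (p.1, warc κ (step q) p.1)` and `cw`.  If `y 0 s ∉ T '' ball4` then `G` fixes it, and
`y (step q) s = y 0 s` by `const` (if `|s - b| < ν/2` then `s = b + ν (σ - 1/2)` with `σ ∈ (0,1)` and `y 0 s = T (σ, e1) ∈ T '' ball4`).
(d) The push along `q ↦ J^F (step q)`... is `G`: more precisely `LPush U L J^F (G.f (1, ·))`, with the family `G.reparam step`:
`G.f (step t, J₀ p) = J^F (step t) p` and `J^F 0 = J₀`, as `G.f (0, x) = x`.  `G.f (1, x) = imp T ball4 Θ x`.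
(e) `StFRAME` for `J^F` and `J' q = thk D.J D.c (y (step q))` (`Fam2.comp`), with
`V = D.V ∩ interior {p | J₀ p ∉ T '' ball4}`: it contains the ends of `L` because `J₀ (s₀, 0) = D.c s₀ ∉ U ⊇ T '' ball4` (`D.off₀`, `D.off₁`; the set
`{p | J₀ p ∉ T '' ball4}` is a neighbourhood of these points by continuity of `J₀` there; `D.V` is open).
`Fam2 Q2 L V U J^F`: smooth (composition), `EmbOn` (`G_q` is a diffeomorphism; `IsLocalDiffeomorphAt.comp`), frozen on `V` (there `J^F q p = J₀ p`),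
in `U` on `L \ V` by the cores (`y (step q) s ∈ U` for `s ∈ (s₀, s₁)`: `inU` for `s ∈ [m₀, m₁]`, `froz` and `D.mem` otherwise;
`(s₀, 0), (s₁, 0) ∈ V`).  The same for `J'` (`Fam2.mono`).  `J^F 0 = J₀ = J' 0`.
`NearEq (J^F 1) (J' 1) L`: `J' 1 = thk .. (y 1) = J₀` (`loop`) and `J^F 1 = imp T ball4 Θ ∘ J₀ = J₀` near `L` by `StTPU` (2) (`Θ = F_1`
is the identity on both tubes, `warc κ 1 s = e1`).  So `LIso U L J₀ (J₁ := J^F 1) (imp T ball4 Θ) C'` for any push `C'` along `J'`, and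
`push_reparam` (Calc.lean): `C' ~ C`; replace `J^F 1` by `J₀` with `LIso.congr`.  With (b): the claim. -/
def StM5 : Prop :=
  ∀ (D : ArcD) (a b ε ν : ℝ) (κ : ℝ → ℝ) (T : R4 → R4) (y : ℝ → ℝ → R4), Mod5 D a b ε ν κ T y →
    ∀ C : R4 → R4, LPush D.U D.L (fun q => thk D.J D.c (y q)) C →
      LIso D.U D.L (thk D.J D.c (y 0)) (thk D.J D.c (y 0)) (imp T ball4 barMap) C

/-! ## the four squares -/

/-- the canonical thick arc with parameters `v` -/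
noncomputable def kk (D : ArcD) (c : ℝ × ℝ × ℝ → R4) (v : ℝ × ℝ) : R4 → R4 :=
  thk D.J D.c (fun s => c (v.1, v.2, s))

/-- **SQ5.** (uses `StCH4`, `StTHK`) The bottom, the top and the circle around the crossing.

*Proof.* For a smooth map `g : ℝ × ℝ → ℝ × ℝ` with `g '' Q2 ⊆ Q2 \ {v₀}` the family `a ↦ kk D c (g a)` is `Fam2 Q2 D.L D.V D.U` (`StTHK`), so
`square4`, `exists_lpush` and `push_htpy` (Calc.lean) apply.  `kk D c (u, 0) = kk D c (u, 1) = D.J` for `u ∈ [0,1]` (`Htpy.start`, `stop`; `thk G c c = G`).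
Let `p' = circ v₀ (0, r) 0 = (u₀, q₀ + r)`, `p = circ v₀ (0, r) (1/2) = (u₀, q₀ - r)`; `circ v₀ (0, r) q = (u₀ - r sin 2πq, q₀ + r cos 2πq)`.
Pushes: `b₀` along `x ↦ (1-x)(0,1) + x p'`, `d₀` along `x ↦ (1-x)(0,0) + x p`, `b₁` along `x ↦ (1-x)(1,1) + x p'`, `d₁` along `x ↦ (1-x)(1,0) + x p`,
`H` along `y ↦ circ (y/2)`, `H'` along `y ↦ circ (1/2 + y/2)`, `E₀'` along `y ↦ (0, 1-y)` (`LPush.reverse`: it is the inverse of `E₀`).
Squares (`J x y`, `x, y ∈ [0,1]`; `square4`: `Θ2 ∘ Θ1 ~ Θ4 ∘ Θ3`):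
(i) `g = (1-x) (0, 1-y) + x circ (y/2)`: `d₀ ∘ E₀' ~ H ∘ b₀`; the first coordinate is `x (u₀ - r sin πy) ≤ u₀`, with equality only for
`x = 1`, `sin πy = 0`, where the second coordinate is `q₀ ± r`.
(ii) `g = (1-x) (1, y) + x circ (1/2 + y/2)`: `b₁ ∘ E₁ ~ H' ∘ d₁`; the first coordinate is `(1-x) + x (u₀ + r sin πy) ≥ u₀`, similarly.
(iii) `g = (1-x) (y, 0) + x p`: `d₁ ~ d₀` (bottom edge `x = 0` constant `= D.J`, edge `x = 1` constant); second coordinate `< q₀`.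
(iv) `g = (1-x) (y, 1) + x p'`: `b₁ ~ b₀`; second coordinate `> q₀`.
(v) `g = circ (y (1+x) / 2)`: edge `x = 0`: `H`; `y = 1`: `H'` (`circ ((1+x)/2)`); `y = 0`: constant; `x = 1`: `C`.  So `H' ∘ H ~ C`.
All values are in `Q2` (convex, `|sin|, |cos| ≤ 1`).
`B = b₀`.  `E₁ ~ b₁⁻¹ H' d₁ ~ b₀⁻¹ H' d₀` and `d₀ ~ H b₀ E₀` (from (i)), so `E₁ ~ b₀⁻¹ H' H b₀ E₀ ~ b₀⁻¹ C b₀ E₀`; use
`LIso.comp`, `LIso.trans`, `LIso.inv`, `LIso.exists_inv`, `LPush.lIso`. -/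
def StSQ5 : Prop :=
  ∀ (D : ArcD) (c : ℝ × ℝ × ℝ → R4) (u₀ q₀ r : ℝ), D.Htpy c →
    (∀ u ∈ Icc (0 : ℝ) 1, ∀ q ∈ Icc (0 : ℝ) 1, D.Imm c u q) →
    (∀ u ∈ Icc (0 : ℝ) 1, ∀ q ∈ Icc (0 : ℝ) 1, (u, q) ≠ (u₀, q₀) → D.Inj c u q) →
    0 < r → 0 < u₀ - r → u₀ + r < 1 → 0 < q₀ - r → q₀ + r < 1 →
    ∀ E₀ E₁ C : R4 → R4, LPush D.U D.L (fun q => kk D c (0, q)) E₀ →
      LPush D.U D.L (fun q => kk D c (1, q)) E₁ →
      LPush D.U D.L (fun q => kk D c (circ (u₀, q₀) (0, r) q)) C →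
      ∃ B B' : R4 → R4, LIso D.U D.L D.J (kk D c (circ (u₀, q₀) (0, r) 0)) B B ∧
        (∀ x, B (B' x) = x) ∧ (∀ x, B' (B x) = x) ∧
        LIso D.U D.L D.J D.J E₁ (fun x => B' (C (B (E₀ x))))

/-! ## the germ of the crossing and the class of the implantation -/

/-- **XG5.** (uses `StTHK` for the cores of `thk D.J D.c (y 0)`)

*Proof.* Let `J₀ = thk D.J D.c (y 0)`, `T'' = Ψ' ∘ T`.  The family of `LIso` gives: `Ψ` and `Ψ'` are smooth and inverse to each other, equal to the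
identity off a compact `K ⊆ U` (so they preserve `U`), and `Ψ (D.J p) = J₀ p` for `p` near `L`; `J₀ (s, 0) = y 0 s`, so
`Ψ (D.J (s, 0)) = y 0 s` for `s ∈ [s₀, s₁]`.
`EmbOn T''` on `ball4`: composition with a diffeomorphism.  `T'' p ∈ D.A` means `T'' p = D.J (s, 0)`, so `T p = y 0 s`: `Mod5.only`.
`XG`: `FB ⊆ ball4`; all points of `FB` have `p.1 = 1/2`, so `only` gives `arc`.  `σ s = a + ε (s - 1/2)`, `τ s = b + ν (s - 1/2)`;
`T'' (s, 0) = Ψ' (y 0 (σ s)) = D.J (σ s, 0)` for `s` near `1/2` (`c0`), similarly `c1` (`e1 = (1, 0)`).  The sign: both determinants are nonzero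
(local diffeomorphisms, `StA0`).  If the product is negative take `T'' ∘ refh`: `refh` is linear with `det = -1`, maps `ball4` and `FB`
to themselves and fixes the points `(s, (x, 0))`, `x` real. -/
def StXG5 : Prop :=
  ∀ (D : ArcD) (a b ε ν : ℝ) (κ : ℝ → ℝ) (T : R4 → R4) (y : ℝ → ℝ → R4), Mod5 D a b ε ν κ T y →
    ∀ Ψ Ψ' : R4 → R4, LIso D.U D.L D.J (thk D.J D.c (y 0)) Ψ Ψ → (∀ x, Ψ (Ψ' x) = x) →
      (∀ x, Ψ' (Ψ x) = x) →
      EmbOn I4 (fun p => Ψ' (T p)) ball4 ∧ MapsTo (fun p => Ψ' (T p)) ball4 D.U ∧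
      (∀ p ∈ ball4, Ψ' (T p) ∈ D.A → p.2 = 0 ∨ p.2 = e1) ∧
      (D.XG (fun p => Ψ' (T p)) ∨ D.XG (fun p => Ψ' (T (refh p))))

/-- **PHT.** (uses `StTPU`, `StR1h` = `hR1h` of `Helper27/BI/AsmC.lean`; `hImp`, `hT2`, `hT3`, `hCI` of `Helper18/BI/AsmA.lean`)

*Proof.* (0) `StTPU` for `J = D.J`, `L = D.L` (`D.J '' D.L = D.A`).  (1) `StTPU` with the constant family: `barMap` is the end of an isotopy
supported in the interior of the ball, fixing both tubes of radius `1/5` (`bfam`; or: `refl_of` of `StVan`/`StR1h`).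
(2) `B = imp T ball4 barMap = imp T bsupp barMap` (`StImp` (3), `barMap_off`).  `K = T '' bsupp` is compact, in `U`, disjoint from `D.A`
(`bsupp ⊆ Ext`, so `p.2 ≠ 0, e1`), `B` is the identity off `K` (`StImp` (2)).  `imp D.e K B = imp (D.e ∘ T) bsupp barMap` (`StImp` (8) with
`κ = T`, `L = bsupp`; `D.e` is injective on `K`, `D.embe`).  `D.e ∘ T` is `EmbOn EB` (`T '' EB ⊆ U \ A`), so by `StT3` it is `Thin` of
`imp (D.e ∘ T) bsupp barMap`; by `StT2` (ii) the given `τ` is isotopic to it: `Phi`.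
(3) `StR1h`: `TIso ∅ (1/5) arc2 arc2 (refh ∘ barMap ∘ refh) barInv`; the inverses: `TIso ∅ (1/5) arc2 arc2 (refh ∘ barInv ∘ refh) barMap`
(`TIso.inv`); by `StTPU` (`arc2`: both tubes are fixed): `LIso .. (imp T ball4 (refh ∘ barInv ∘ refh)) (imp T ball4 barMap)`.
`imp (T ∘ refh) ball4 φ = imp T ball4 (refh ∘ φ ∘ refh)` (`StImp` (8) with `κ = refh`, `L = K = ball4`, or directly).
`imp (T ∘ refh) ball4 barInv` is the inverse of `imp (T ∘ refh) ball4 barMap` (`StImp` (4)).  So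
`imp T ball4 barMap ∘ imp (T ∘ refh) ball4 barMap ~ imp (T ∘ refh) ball4 barInv ∘ imp (T ∘ refh) ball4 barMap = id`
(`LIso.comp` with `LIso.refl_of` for `imp (T ∘ refh) ball4 barMap`, from (1) for `T ∘ refh`). -/
def StPHT : Prop :=
  ∀ (D : ArcD) (T : R4 → R4), EmbOn I4 T ball4 → MapsTo T ball4 D.U →
    (∀ p ∈ ball4, T p ∈ D.A → p.2 = 0 ∨ p.2 = e1) →
    LIso D.U D.L D.J D.J (imp T ball4 barMap) (imp T ball4 barMap) ∧
    (∀ τ : R4 → R4, Thin I4 (fun p => D.e (T p)) τ → D.Phi (imp T ball4 barMap) τ) ∧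
    LIso D.U D.L D.J D.J
      (fun x => imp T ball4 barMap (imp (fun p => T (refh p)) ball4 barMap x)) (fun x => x)

end Pool.Agent.Helper34.BI.H


end

/-! ## Helper34.BI.H.M_OPA -/

section

/-!
# Project BI, stage 3, module OPA
-/

set_option autoImplicit false

open Module Set Filter Topology
open scoped ContDiff Manifold
open Pool.Agent.Helper65.Barb Pool.Agent.Helper18.BI

namespace Pool.Agent.Helper34.BI.H

namespace OPA

variable {A : Type} [NormedAddCommGroup A] [NormedSpace ℝ A] [FiniteDimensional ℝ A]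

lemma hasDerivAt_arc {x : A × ℝ → R4} (hx : ContDiff ℝ ∞ x) (a : A) (s : ℝ) :
    HasDerivAt (fun r => x (a, r)) (fderiv ℝ x (a, s) (0, 1)) s := by
  have l : HasDerivAt (fun r : ℝ => ((a, r) : A × ℝ)) (0, 1) s :=
    (hasDerivAt_const s a).prodMk (hasDerivAt_id s)
  exact HasFDerivAt.comp_hasDerivAt_of_eq s ((hx.differentiable (by simp) (a, s)).hasFDerivAt)
    l rfl

lemma continuous_arc {x : A × ℝ → R4} (hx : ContDiff ℝ ∞ x) :
    Continuous (fun z : A × ℝ => fderiv ℝ x z (0, 1)) :=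
  (hx.continuous_fderiv (by simp)).clm_apply continuous_const

/-- no double points near an immersed point -/
lemma near_diag {x : A × ℝ → R4} (hx : ContDiff ℝ ∞ x) {a : A} {s : ℝ}
    (hne : fderiv ℝ x (a, s) (0, 1) ≠ 0) :
    ∀ᶠ z : A × ℝ × ℝ in 𝓝 (a, s, s), x (z.1, z.2.1) = x (z.1, z.2.2) → z.2.1 = z.2.2 := by
  obtain ⟨f, hf⟩ := SeparatingDual.exists_ne_zero (R := ℝ) hne
  have hcont : Continuous (fun z : A × ℝ => f (fderiv ℝ x z (0, 1))) :=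
    f.continuous.comp (continuous_arc hx)
  have hop : IsOpen {z : A × ℝ | f (fderiv ℝ x z (0, 1)) ≠ 0} :=
    isOpen_ne_fun hcont continuous_const
  obtain ⟨r, hr, hball⟩ := Metric.isOpen_iff.1 hop (a, s) hf
  have key : ∀ a' s' t', dist a' a < r → dist s' s < r → dist t' s < r → s' < t' →
      x (a', s') ≠ x (a', t') := by
    intro a' s' t' h1 h2 h3 hlt heq
    have hh : ∀ c, HasDerivAt (fun c => f (x (a', c))) (f (fderiv ℝ x (a', c) (0, 1))) c :=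
      fun c => f.hasFDerivAt.comp_hasDerivAt c (hasDerivAt_arc hx a' c)
    obtain ⟨c, hc, hc0⟩ := exists_deriv_eq_zero (f := fun c => f (x (a', c))) hlt
      (fun c _ => (hh c).continuousAt.continuousWithinAt) (by simp only [heq])
    rw [(hh c).deriv] at hc0
    refine hball (?_ : (a', c) ∈ Metric.ball (a, s) r) hc0
    rw [Metric.mem_ball, Prod.dist_eq, max_lt_iff]
    refine ⟨h1, ?_⟩
    simp only
    rw [Real.dist_eq, abs_lt] at h2 h3 ⊢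
    exact ⟨by linarith [hc.1], by linarith [hc.2]⟩
  filter_upwards [Metric.ball_mem_nhds ((a, s, s) : A × ℝ × ℝ) hr] with z hz he
  obtain ⟨a', s', t'⟩ := z
  rw [Metric.mem_ball, Prod.dist_eq, Prod.dist_eq, max_lt_iff, max_lt_iff] at hz
  obtain ⟨h1, h2, h3⟩ := hz
  simp only at h1 h2 h3 he
  by_contra hcon
  rcases lt_or_gt_of_ne hcon with h | h
  · exact key a' s' t' h1 h2 h3 h he
  · exact key a' t' s' h1 h3 h2 h he.symm

end OPA

open OPA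

theorem m_OPA : StOPA := by
  intro A _ _ _ x a₀ s₀ s₁ bad hx himm hdbl
  have hder : ∀ a s, deriv (fun s => x (a, s)) s = fderiv ℝ x (a, s) (0, 1) := fun a s =>
    (hasDerivAt_arc hx a s).deriv
  simp only [hder] at himm ⊢
  -- immersions
  have h1 : ∀ᶠ a in 𝓝 a₀, ∀ s ∈ Icc s₀ s₁, fderiv ℝ x (a, s) (0, 1) ≠ 0 := by
    apply isCompact_Icc.eventually_forall_of_forall_eventually
    intro s hs
    have hop : IsOpen {z : A × ℝ | fderiv ℝ x z (0, 1) ≠ 0} :=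
      isOpen_ne_fun (continuous_arc hx) continuous_const
    exact hop.mem_nhds (himm s hs)
  -- double points
  have h2 : ∀ᶠ a in 𝓝 a₀, ∀ z ∈ Icc s₀ s₁ ×ˢ Icc s₀ s₁, x (a, z.1) = x (a, z.2) →
      z.1 = z.2 ∨ bad a := by
    apply (isCompact_Icc.prod isCompact_Icc).eventually_forall_of_forall_eventually
    rintro ⟨s, t⟩ ⟨hs, ht⟩
    simp only at hs ht
    by_cases he : x (a₀, s) = x (a₀, t)
    · rcases lt_trichotomy s t with h | h | h
      · filter_upwards [hdbl s hs t ht h he] with z hz h'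
        exact Or.inr (hz h')
      · subst h
        filter_upwards [near_diag hx (himm s hs)] with z hz h'
        exact Or.inl (hz h')
      · have h3 := hdbl t ht s hs h he.symm
        have hc : Continuous (fun z : A × ℝ × ℝ => ((z.1, z.2.2, z.2.1) : A × ℝ × ℝ)) := by
          fun_prop
        have h4 := (hc.tendsto (a₀, s, t)).eventually h3
        filter_upwards [h4] with z hz h'
        exact Or.inr (hz h'.symm)
    · have hop : IsOpen {z : A × ℝ × ℝ | x (z.1, z.2.1) ≠ x (z.1, z.2.2)} :=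
        isOpen_ne_fun (hx.continuous.comp (by fun_prop)) (hx.continuous.comp (by fun_prop))
      filter_upwards [hop.mem_nhds he] with z hz h'
      exact absurd h' hz
  filter_upwards [h1, h2] with a ha1 ha2
  refine ⟨ha1, ?_⟩
  by_cases hb : bad a
  · exact Or.inl hb
  · refine Or.inr fun s hs t ht h => ?_
    rcases ha2 (s, t) ⟨hs, ht⟩ h with h' | h'
    · exact h'
    · exact absurd h' hb

end Pool.Agent.Helper34.BI.H


end

/-! ## Helper34.BI.H.M_XL -/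

section

/-!
# Project BI, stage 3, module XL: the arcs of the homotopy to the local model are embedded
-/

set_option autoImplicit false

open Module Set Filter Topology
open scoped ContDiff Manifold
open Pool.Agent.Helper65.Barb Pool.Agent.Helper18.BI Pool.Agent.Helper27.BI
open Pool.Agent.Helper27.H (ArcD)

namespace Pool.Agent.Helper34.BI.H

namespace XL

variable (c : ℝ × ℝ × ℝ → R4) (u₀ q₀ a b : ℝ)

lemma contDiff_lw : ContDiff ℝ ∞ (lw c u₀ q₀ a b) := by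
  unfold lw
  exact ((fderiv ℝ c (u₀, q₀, a)).contDiff.comp (by fun_prop)).sub
    ((fderiv ℝ c (u₀, q₀, b)).contDiff.comp (by fun_prop))

lemma lw_zero : lw c u₀ q₀ a b 0 = 0 := by
  simp only [lw, Prod.fst_zero, Prod.snd_zero]
  have : ((0, 0, 0) : ℝ × ℝ × ℝ) = 0 := rfl
  rw [this, map_zero, map_zero, sub_zero]

lemma lw_smul (r : ℝ) (w : ℝ × ℝ) : lw c u₀ q₀ a b (r • w) = r • lw c u₀ q₀ a b w := by
  simp only [lw, Prod.smul_fst, Prod.smul_snd]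
  have : ((r • w.1, r • w.2, 0) : ℝ × ℝ × ℝ) = r • (w.1, w.2, 0) := by
    simp
  rw [this, map_smul, map_smul, smul_sub]

variable {c}

lemma contDiff_xl (hc : ContDiff ℝ ∞ c) {κ₁ κ₂ : ℝ → ℝ} (h1 : ContDiff ℝ ∞ κ₁)
    (h2 : ContDiff ℝ ∞ κ₂) :
    ContDiff ℝ ∞ (fun z : (ℝ × (ℝ × ℝ) × (ℝ × ℝ)) × ℝ =>
      xl c u₀ q₀ a b κ₁ κ₂ z.1.1 z.1.2.1 z.1.2.2 z.2) := by
  unfold xl
  have e1 : ContDiff ℝ ∞ (fun z : (ℝ × (ℝ × ℝ) × (ℝ × ℝ)) × ℝ =>
      c (u₀ + z.1.2.2.1, q₀ + z.1.2.2.2, z.2)) := hc.comp (by fun_prop)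
  have e2 : ContDiff ℝ ∞ (fun z : (ℝ × (ℝ × ℝ) × (ℝ × ℝ)) × ℝ => c (u₀, q₀, z.2)) :=
    hc.comp (by fun_prop)
  have e3 : ContDiff ℝ ∞ (fun z : (ℝ × (ℝ × ℝ) × (ℝ × ℝ)) × ℝ => κ₁ (z.2 - b)) :=
    h1.comp (by fun_prop)
  have e4 : ContDiff ℝ ∞ (fun z : (ℝ × (ℝ × ℝ) × (ℝ × ℝ)) × ℝ => κ₂ (z.2 - b)) :=
    h2.comp (by fun_prop)
  have e5 : ContDiff ℝ ∞ (fun z : (ℝ × (ℝ × ℝ) × (ℝ × ℝ)) × ℝ =>
      lw c u₀ q₀ a b (z.1.2.1 + κ₂ (z.2 - b) • (z.1.2.2 - z.1.2.1))) := by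
    refine (contDiff_lw c u₀ q₀ a b).comp ?_
    have e6 : ContDiff ℝ ∞ (fun z : (ℝ × (ℝ × ℝ) × (ℝ × ℝ)) × ℝ => z.1.2.2 - z.1.2.1) := by
      fun_prop
    have e7 : ContDiff ℝ ∞ (fun z : (ℝ × (ℝ × ℝ) × (ℝ × ℝ)) × ℝ => z.1.2.1) := by fun_prop
    exact e7.add (e4.smul e6)
  have e8 : ContDiff ℝ ∞ (fun z : (ℝ × (ℝ × ℝ) × (ℝ × ℝ)) × ℝ => 1 - z.1.1) := by fun_prop
  have e9 : ContDiff ℝ ∞ (fun z : (ℝ × (ℝ × ℝ) × (ℝ × ℝ)) × ℝ => z.1.1) := by fun_prop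
  exact (e8.smul e1).add (e9.smul (e2.sub (e3.smul e5)))

/-- the difference of the two strands -/
noncomputable def FF (c : ℝ × ℝ × ℝ → R4) (u₀ q₀ a b : ℝ) (z : (ℝ × ℝ × ℝ) × ℝ × ℝ) : R4 :=
  (1 - z.1.1) • (c (u₀ + z.1.2.1, q₀ + z.1.2.2, z.2.2) - c (u₀ + z.1.2.1, q₀ + z.1.2.2, z.2.1)) +
    z.1.1 • (c (u₀, q₀, z.2.2) - c (u₀, q₀, z.2.1) - lw c u₀ q₀ a b z.1.2)

/-- with the parameter -/
noncomputable def GG (c : ℝ × ℝ × ℝ → R4) (u₀ q₀ a b : ℝ) (z : (ℝ × ℝ × ℝ) × ℝ × ℝ) : ℝ × R4 :=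
  (z.1.1, FF c u₀ q₀ a b z)

lemma contDiff_GG (hc : ContDiff ℝ ∞ c) : ContDiff ℝ ∞ (GG c u₀ q₀ a b) := by
  have e1 : ContDiff ℝ ∞ (fun z : (ℝ × ℝ × ℝ) × ℝ × ℝ =>
      c (u₀ + z.1.2.1, q₀ + z.1.2.2, z.2.2)) := hc.comp (by fun_prop)
  have e2 : ContDiff ℝ ∞ (fun z : (ℝ × ℝ × ℝ) × ℝ × ℝ =>
      c (u₀ + z.1.2.1, q₀ + z.1.2.2, z.2.1)) := hc.comp (by fun_prop)
  have e3 : ContDiff ℝ ∞ (fun z : (ℝ × ℝ × ℝ) × ℝ × ℝ => c (u₀, q₀, z.2.2)) :=
    hc.comp (by fun_prop)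
  have e4 : ContDiff ℝ ∞ (fun z : (ℝ × ℝ × ℝ) × ℝ × ℝ => c (u₀, q₀, z.2.1)) :=
    hc.comp (by fun_prop)
  have e5 : ContDiff ℝ ∞ (fun z : (ℝ × ℝ × ℝ) × ℝ × ℝ => lw c u₀ q₀ a b z.1.2) :=
    (contDiff_lw c u₀ q₀ a b).comp (by fun_prop)
  have e8 : ContDiff ℝ ∞ (fun z : (ℝ × ℝ × ℝ) × ℝ × ℝ => 1 - z.1.1) := by fun_prop
  have e9 : ContDiff ℝ ∞ (fun z : (ℝ × ℝ × ℝ) × ℝ × ℝ => z.1.1) := by fun_prop
  exact e9.prodMk ((e8.smul (e1.sub e2)).add (e9.smul ((e3.sub e4).sub e5)))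

lemma line_c (hc : ContDiff ℝ ∞ c) (p w : ℝ × ℝ × ℝ) :
    HasDerivAt (fun r : ℝ => c (p + r • w)) (fderiv ℝ c p w) 0 := by
  have l : HasDerivAt (fun r : ℝ => p + r • w) w 0 := by
    have := ((hasDerivAt_id (0 : ℝ)).smul_const w).const_add p
    simpa using this
  exact HasFDerivAt.comp_hasDerivAt_of_eq 0 ((hc.differentiable (by simp) p).hasFDerivAt)
    l (by simp)

lemma fderiv_FF (hc : ContDiff ℝ ∞ c) (heq : c (u₀, q₀, a) = c (u₀, q₀, b)) (l₀ : ℝ)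
    (w : (ℝ × ℝ × ℝ) × ℝ × ℝ) :
    fderiv ℝ (GG c u₀ q₀ a b) ((l₀, 0, 0), a, b) w =
      (w.1.1, fderiv ℝ c (u₀, q₀, b) (w.1.2.1, w.1.2.2, w.2.2) -
        fderiv ℝ c (u₀, q₀, a) (w.1.2.1, w.1.2.2, w.2.1)) := by
  obtain ⟨⟨lam, w1, w2⟩, σ, τ⟩ := w
  simp only
  set p : (ℝ × ℝ × ℝ) × ℝ × ℝ := ((l₀, 0, 0), a, b) with hp
  have l : HasDerivAt (fun r : ℝ => p + r • (((lam, w1, w2), σ, τ) : (ℝ × ℝ × ℝ) × ℝ × ℝ))
      ((lam, w1, w2), σ, τ) 0 := by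
    have := ((hasDerivAt_id (0 : ℝ)).smul_const
      (((lam, w1, w2), σ, τ) : (ℝ × ℝ × ℝ) × ℝ × ℝ)).const_add p
    simpa using this
  have h1 : HasDerivAt (fun r : ℝ => GG c u₀ q₀ a b
      (p + r • (((lam, w1, w2), σ, τ) : (ℝ × ℝ × ℝ) × ℝ × ℝ)))
      (fderiv ℝ (GG c u₀ q₀ a b) p ((lam, w1, w2), σ, τ)) 0 :=
    HasFDerivAt.comp_hasDerivAt_of_eq 0
      (((contDiff_GG u₀ q₀ a b hc).differentiable (by simp) p).hasFDerivAt) l (by simp)
  refine h1.unique ?_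
  -- compute
  have A1 := (line_c hc (u₀, q₀, b) (w1, w2, τ)).sub (line_c hc (u₀, q₀, a) (w1, w2, σ))
  have B1 := ((line_c hc (u₀, q₀, b) (0, 0, τ)).sub (line_c hc (u₀, q₀, a) (0, 0, σ))).sub
    ((hasDerivAt_id (0 : ℝ)).smul_const (lw c u₀ q₀ a b (w1, w2)))
  have hl : HasDerivAt (fun r : ℝ => l₀ + r * lam) lam 0 := by
    have := ((hasDerivAt_id (0 : ℝ)).mul_const lam).const_add l₀
    simpa using this
  have hl' : HasDerivAt (fun r : ℝ => 1 - (l₀ + r * lam)) (-lam) 0 := by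
    simpa using hl.const_sub 1
  have hF := (hl'.smul A1).add (hl.smul B1)
  have hG := hl.prodMk hF
  refine (hG.congr_deriv ?_).congr_of_eventuallyEq (Eventually.of_forall fun r => ?_)
  · have e0 : fderiv ℝ c (u₀, q₀, b) (0, 0, τ) - fderiv ℝ c (u₀, q₀, a) (0, 0, σ) -
        lw c u₀ q₀ a b (w1, w2) = fderiv ℝ c (u₀, q₀, b) (w1, w2, τ) -
        fderiv ℝ c (u₀, q₀, a) (w1, w2, σ) := by
      have d1 : ((w1, w2, τ) : ℝ × ℝ × ℝ) = (w1, w2, 0) + (0, 0, τ) := by simp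
      have d2 : ((w1, w2, σ) : ℝ × ℝ × ℝ) = (w1, w2, 0) + (0, 0, σ) := by simp
      rw [d1, d2, map_add, map_add]
      simp only [lw]
      abel
    refine Prod.ext rfl ?_
    simp only [Pi.sub_apply, id_eq, zero_smul, add_zero, zero_mul, heq, sub_self,
      smul_zero, one_smul, e0]
    rw [← add_smul]
    simp
  · simp only [GG, FF, hp, smul_eq_mul,
      zero_add, Pi.add_apply, Pi.sub_apply, Pi.smul_apply', id_eq, Prod.mk_add_mk, Prod.smul_mk,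
      mul_zero, add_zero]
    have e1 : lw c u₀ q₀ a b (r * w1, r * w2) = r • lw c u₀ q₀ a b (w1, w2) := by
      rw [← lw_smul]
      simp
    rw [e1]

lemma inj_GG (hc : ContDiff ℝ ∞ c) (heq : c (u₀, q₀, a) = c (u₀, q₀, b))
    (htr : ∀ ζ η σ τ : ℝ, fderiv ℝ c (u₀, q₀, a) (ζ, η, σ) = fderiv ℝ c (u₀, q₀, b) (ζ, η, τ) →
      ζ = 0 ∧ η = 0 ∧ σ = 0 ∧ τ = 0) (l₀ : ℝ) :
    ∃ U ∈ 𝓝 (((l₀, 0, 0), a, b) : (ℝ × ℝ × ℝ) × ℝ × ℝ), InjOn (GG c u₀ q₀ a b) U := by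
  refine H4m.locInj (by simp [Complex.finrank_real_complex]) (contDiff_GG u₀ q₀ a b hc) ?_
  rw [injective_iff_map_eq_zero]
  intro w hw
  rw [fderiv_FF u₀ q₀ a b hc heq] at hw
  obtain ⟨⟨lam, w1, w2⟩, σ, τ⟩ := w
  simp only at hw
  have h1 := congrArg Prod.fst hw
  have h2 := congrArg Prod.snd hw
  simp only [Prod.fst_zero, Prod.snd_zero] at h1 h2
  obtain ⟨k1, k2, k3, k4⟩ := htr w1 w2 σ τ (sub_eq_zero.1 h2).symm
  rw [h1, k1, k2, k3, k4]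
  rfl

end XL

open XL

theorem m_XL (hOPA : StOPA) : StXL := by
  intro D c u₀ q₀ a b κ₁ κ₂ η hc hX hImm hk1 hk2 hk hη hk0
  set x : (ℝ × (ℝ × ℝ) × (ℝ × ℝ)) × ℝ → R4 := fun z =>
    xl c u₀ q₀ a b κ₁ κ₂ z.1.1 z.1.2.1 z.1.2.2 z.2 with hx
  have hxs : ContDiff ℝ ∞ x := contDiff_xl u₀ q₀ a b hc.smooth hk1 hk2
  have hx0 : ∀ l₀ s, x ((l₀, 0, 0), s) = c (u₀, q₀, s) := by
    intro l₀ s
    simp only [hx, xl, Prod.fst_zero, Prod.snd_zero, add_zero, sub_zero, smul_zero, lw_zero]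
    rw [← add_smul]
    simp
  have key : ∀ l₀ : ℝ, ∀ᶠ w in 𝓝 ((l₀, 0, 0) : ℝ × (ℝ × ℝ) × (ℝ × ℝ)),
      ((∀ s ∈ Icc D.s₀ D.s₁, deriv (fun s => x (w, s)) s ≠ 0) ∧
      (w.2.2 = 0 ∨ InjOn (fun s => x (w, s)) (Icc D.s₀ D.s₁))) ∧
      ∀ s ∈ Icc D.m₀ D.m₁, x (w, s) ∈ D.U := by
    intro l₀
    refine (hOPA _ x (l₀, 0, 0) D.s₀ D.s₁ (fun w => w.2.2 = 0) hxs ?_ ?_).and ?_
    · intro s hs
      simp only [hx0]
      exact hImm s hs
    · intro s hs t ht hst he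
      rw [hx0, hx0] at he
      obtain ⟨rfl, rfl⟩ := hX.uniq s hs t ht hst he
      obtain ⟨U, hU, hUi⟩ := inj_GG u₀ q₀ s t hc.smooth hX.eq hX.trans l₀
      have c1 : Continuous (fun z : (ℝ × (ℝ × ℝ) × (ℝ × ℝ)) × ℝ × ℝ =>
          (((z.1.1, z.1.2.2.1, z.1.2.2.2), z.2.1, z.2.2) : (ℝ × ℝ × ℝ) × ℝ × ℝ)) := by fun_prop
      have c2 : Continuous (fun z : (ℝ × (ℝ × ℝ) × (ℝ × ℝ)) × ℝ × ℝ =>
          (((z.1.1, 0, 0), s, t) : (ℝ × ℝ × ℝ) × ℝ × ℝ)) := by fun_prop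
      have c3 : Continuous (fun z : (ℝ × (ℝ × ℝ) × (ℝ × ℝ)) × ℝ × ℝ => z.2.2 - t) := by fun_prop
      have c4 : Continuous (fun z : (ℝ × (ℝ × ℝ) × (ℝ × ℝ)) × ℝ × ℝ => t - z.2.1) := by fun_prop
      have n1 := (c1.tendsto ((l₀, 0, 0), s, t)).eventually (hU : ∀ᶠ y in _, y ∈ U)
      have n2 := (c2.tendsto ((l₀, 0, 0), s, t)).eventually (hU : ∀ᶠ y in _, y ∈ U)
      have t3 : Tendsto (fun z : (ℝ × (ℝ × ℝ) × (ℝ × ℝ)) × ℝ × ℝ => z.2.2 - t)
          (𝓝 ((l₀, 0, 0), s, t)) (𝓝 0) := by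
        have := c3.tendsto ((l₀, 0, 0), s, t)
        simp only [sub_self] at this
        exact this
      have n3 := t3.eventually hk
      have n4 : ∀ᶠ z in 𝓝 (((l₀, 0, 0), s, t) : (ℝ × (ℝ × ℝ) × (ℝ × ℝ)) × ℝ × ℝ),
          η < t - z.2.1 := (isOpen_lt continuous_const c4).mem_nhds hη
      filter_upwards [n1, n2, n3, n4] with z z1 z2 z3 z4 heq
      obtain ⟨⟨l, m, v⟩, s', t'⟩ := z
      simp only at z1 z2 z3 z4 heq ⊢
      have k0 : κ₁ (s' - t) = 0 := by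
        refine hk0 _ ?_
        rw [abs_sub_comm]
        exact z4.le.trans (le_abs_self _)
      have hF : FF c u₀ q₀ s t ((l, v.1, v.2), s', t') = 0 := by
        have : x ((l, m, v), t') - x ((l, m, v), s') = 0 := sub_eq_zero.2 heq.symm
        simp only [hx, xl, k0, z3.1, z3.2, one_smul, zero_smul, sub_zero,
          add_sub_cancel] at this
        rw [← this]
        simp only [FF, Prod.mk.eta]
        module
      have hF0 : FF c u₀ q₀ s t ((l, 0, 0), s, t) = 0 := by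
        simp only [FF, add_zero, hX.eq, sub_self, smul_zero, zero_add, zero_sub]
        have : ((0, 0) : ℝ × ℝ) = 0 := rfl
        rw [this, lw_zero]
        simp
      have := hUi z1 z2 (by simp only [GG, hF, hF0])
      simp only [Prod.mk.injEq] at this
      exact Prod.ext this.1.2.1 this.1.2.2
    · apply isCompact_Icc.eventually_forall_of_forall_eventually
      intro s hs
      have hop : IsOpen {z : (ℝ × (ℝ × ℝ) × (ℝ × ℝ)) × ℝ | x z ∈ D.U} :=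
        D.openU.preimage hxs.continuous
      refine hop.mem_nhds ?_
      simp only [mem_ofPred_eq, hx0]
      exact hc.inU u₀ ⟨hX.memu.1.le, hX.memu.2.le⟩ q₀ ⟨hX.memq.1.le, hX.memq.2.le⟩ s hs
  have key2 : ∀ᶠ p in 𝓝 (0 : (ℝ × ℝ) × (ℝ × ℝ)), ∀ l ∈ Icc (0 : ℝ) 1,
      ((∀ s ∈ Icc D.s₀ D.s₁, deriv (fun s => x ((l, p), s)) s ≠ 0) ∧
      (p.2 = 0 ∨ InjOn (fun s => x ((l, p), s)) (Icc D.s₀ D.s₁))) ∧
      ∀ s ∈ Icc D.m₀ D.m₁, x ((l, p), s) ∈ D.U := by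
    apply isCompact_Icc.eventually_forall_of_forall_eventually
    intro l₀ _
    have cs : Continuous (fun z : ((ℝ × ℝ) × (ℝ × ℝ)) × ℝ =>
        ((z.2, z.1) : ℝ × (ℝ × ℝ) × (ℝ × ℝ))) := by fun_prop
    exact (cs.tendsto (0, l₀)).eventually (key l₀)
  obtain ⟨δ, hδ, hball⟩ := Metric.eventually_nhds_iff.1 key2
  refine ⟨δ, hδ, fun l hl m v hm hv hv0 => ?_⟩
  have hmem : dist ((m, v) : (ℝ × ℝ) × (ℝ × ℝ)) 0 < δ := by
    rw [dist_zero_right, Prod.norm_def]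
    exact max_lt hm hv
  obtain ⟨⟨h1, h2⟩, h3⟩ := hball hmem l hl
  exact ⟨h1, h2.resolve_left hv0, h3⟩

end Pool.Agent.Helper34.BI.H


end

/-! ## Helper34.BI.H.M_CHT -/

section

/-!
# Project BI, stage 3: the chart at a transverse crossing of two strands (module CHT)
-/

set_option autoImplicit false

open Module Set Filter Topology
open scoped ContDiff Manifold
open Pool.Agent.Helper65.Barb Pool.Agent.Helper18.BI Pool.Agent.Helper27.BI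

namespace Pool.Agent.Helper34.BI.H

/-- the polynomial change of coordinates is smooth -/
private theorem contDiff_lam_CHT (v₀ m : ℝ × ℝ) (ε ν : ℝ) : ContDiff ℝ ∞ (lam v₀ m ε ν) := by
  have h1 : ContDiff ℝ ∞ (fun p : R4 => p.1) := contDiff_fst
  have h2 : ContDiff ℝ ∞ (fun p : R4 => p.2.1) := contDiff_fst.comp contDiff_snd
  have h3 : ContDiff ℝ ∞ (fun p : R4 => p.2.2.re) :=
    Complex.reCLM.contDiff.comp (contDiff_snd.comp contDiff_snd)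
  have h4 : ContDiff ℝ ∞ (fun p : R4 => p.2.2.im) :=
    Complex.imCLM.contDiff.comp (contDiff_snd.comp contDiff_snd)
  have k1 : ContDiff ℝ ∞ (fun p : R4 => v₀ + mulc m (p.2.1, p.2.2.im)) := by
    refine contDiff_const.add (ContDiff.prodMk ?_ ?_)
    · exact (contDiff_const.mul h2).sub (contDiff_const.mul h4)
    · exact (contDiff_const.mul h4).add (contDiff_const.mul h2)
  refine k1.prodMk (ContDiff.prodMk ?_ ?_)
  · exact contDiff_const.mul (((h1.sub contDiff_const).mul h2).add h3)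
  · exact contDiff_const.mul (((h1.sub contDiff_const).mul (contDiff_const.sub h2)).sub h3)

/-- the left inverse of the change of coordinates -/
private noncomputable def lami_CHT (v₀ m : ℝ × ℝ) (ε ν : ℝ) (z : (ℝ × ℝ) × ℝ × ℝ) : R4 :=
  (z.2.1 / ν + z.2.2 / ε + 1 / 2,
    ((m.1 * (z.1.1 - v₀.1) + m.2 * (z.1.2 - v₀.2)) / (m.1 ^ 2 + m.2 ^ 2),
      (((z.2.1 / ν - (z.2.1 / ν + z.2.2 / ε) *
        ((m.1 * (z.1.1 - v₀.1) + m.2 * (z.1.2 - v₀.2)) / (m.1 ^ 2 + m.2 ^ 2)) : ℝ) : ℂ) +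
        (((m.1 * (z.1.2 - v₀.2) - m.2 * (z.1.1 - v₀.1)) / (m.1 ^ 2 + m.2 ^ 2) : ℝ) : ℂ) *
          Complex.I)))

private theorem contDiff_lami_CHT (v₀ m : ℝ × ℝ) (ε ν : ℝ) :
    ContDiff ℝ ∞ (lami_CHT v₀ m ε ν) := by
  have h1 : ContDiff ℝ ∞ (fun z : (ℝ × ℝ) × ℝ × ℝ => z.1.1) := contDiff_fst.comp contDiff_fst
  have h2 : ContDiff ℝ ∞ (fun z : (ℝ × ℝ) × ℝ × ℝ => z.1.2) := contDiff_snd.comp contDiff_fst
  have h3 : ContDiff ℝ ∞ (fun z : (ℝ × ℝ) × ℝ × ℝ => z.2.1) := contDiff_fst.comp contDiff_snd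
  have h4 : ContDiff ℝ ∞ (fun z : (ℝ × ℝ) × ℝ × ℝ => z.2.2) := contDiff_snd.comp contDiff_snd
  have a1 : ContDiff ℝ ∞ (fun z : (ℝ × ℝ) × ℝ × ℝ =>
      (m.1 * (z.1.1 - v₀.1) + m.2 * (z.1.2 - v₀.2)) / (m.1 ^ 2 + m.2 ^ 2)) :=
    ((contDiff_const.mul (h1.sub contDiff_const)).add
      (contDiff_const.mul (h2.sub contDiff_const))).div_const _
  have a2 : ContDiff ℝ ∞ (fun z : (ℝ × ℝ) × ℝ × ℝ =>
      (m.1 * (z.1.2 - v₀.2) - m.2 * (z.1.1 - v₀.1)) / (m.1 ^ 2 + m.2 ^ 2)) :=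
    ((contDiff_const.mul (h2.sub contDiff_const)).sub
      (contDiff_const.mul (h1.sub contDiff_const))).div_const _
  have b1 : ContDiff ℝ ∞ (fun z : (ℝ × ℝ) × ℝ × ℝ => z.2.1 / ν) := h3.div_const _
  have b2 : ContDiff ℝ ∞ (fun z : (ℝ × ℝ) × ℝ × ℝ => z.2.2 / ε) := h4.div_const _
  refine ContDiff.prodMk ((b1.add b2).add contDiff_const) (ContDiff.prodMk a1 ?_)
  refine ContDiff.add ?_ (ContDiff.mul ?_ contDiff_const)
  · exact Complex.ofRealCLM.contDiff.comp (b1.sub ((b1.add b2).mul a1))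
  · exact Complex.ofRealCLM.contDiff.comp a2

private theorem lami_lam_CHT (v₀ m : ℝ × ℝ) (ε ν : ℝ) (hm : m ≠ 0) (hε : 0 < ε) (hν : 0 < ν)
    (p : R4) : lami_CHT v₀ m ε ν (lam v₀ m ε ν p) = p := by
  have hn : m.1 ^ 2 + m.2 ^ 2 ≠ 0 := by
    intro h
    apply hm
    have e1 : m.1 = 0 := by nlinarith [sq_nonneg m.1, sq_nonneg m.2]
    have e2 : m.2 = 0 := by nlinarith [sq_nonneg m.1, sq_nonneg m.2]
    exact Prod.ext e1 e2
  have e1 : (lam v₀ m ε ν p).1.1 - v₀.1 = m.1 * p.2.1 - m.2 * p.2.2.im := by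
    simp [lam, mulc]
  have e2 : (lam v₀ m ε ν p).1.2 - v₀.2 = m.1 * p.2.2.im + m.2 * p.2.1 := by
    simp [lam, mulc]
  have e3 : (lam v₀ m ε ν p).2.1 / ν = (p.1 - 1 / 2) * p.2.1 + p.2.2.re := by
    simp only [lam]
    field_simp
  have e4 : (lam v₀ m ε ν p).2.2 / ε = (p.1 - 1 / 2) * (1 - p.2.1) - p.2.2.re := by
    simp only [lam]
    field_simp
  have ea : (m.1 * (m.1 * p.2.1 - m.2 * p.2.2.im) + m.2 * (m.1 * p.2.2.im + m.2 * p.2.1)) /
      (m.1 ^ 2 + m.2 ^ 2) = p.2.1 := by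
    field_simp
    ring
  have eh : (m.1 * (m.1 * p.2.2.im + m.2 * p.2.1) - m.2 * (m.1 * p.2.1 - m.2 * p.2.2.im)) /
      (m.1 ^ 2 + m.2 ^ 2) = p.2.2.im := by
    field_simp
    ring
  unfold lami_CHT
  rw [e1, e2, e3, e4, ea, eh]
  refine Prod.ext ?_ (Prod.ext rfl ?_)
  · show (p.1 - 1 / 2) * p.2.1 + p.2.2.re + ((p.1 - 1 / 2) * (1 - p.2.1) - p.2.2.re) + 1 / 2 = p.1
    ring
  · apply Complex.ext
    · simp
      ring
    · simp

private theorem injective_fderiv_lam_CHT (v₀ m : ℝ × ℝ) (ε ν : ℝ) (hm : m ≠ 0) (hε : 0 < ε)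
    (hν : 0 < ν) (p : R4) : Function.Injective (fderiv ℝ (lam v₀ m ε ν) p) := by
  have d1 : HasFDerivAt (lam v₀ m ε ν) (fderiv ℝ (lam v₀ m ε ν) p) p :=
    ((contDiff_lam_CHT v₀ m ε ν).differentiable (by simp) p).hasFDerivAt
  have d2 : HasFDerivAt (lami_CHT v₀ m ε ν)
      (fderiv ℝ (lami_CHT v₀ m ε ν) (lam v₀ m ε ν p)) (lam v₀ m ε ν p) :=
    ((contDiff_lami_CHT v₀ m ε ν).differentiable (by simp) _).hasFDerivAt
  have d3 := d2.comp p d1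
  have d4 : HasFDerivAt (fun x : R4 => x)
      ((fderiv ℝ (lami_CHT v₀ m ε ν) (lam v₀ m ε ν p)).comp (fderiv ℝ (lam v₀ m ε ν) p)) p := by
    refine d3.congr_of_eventuallyEq (Filter.Eventually.of_forall fun q => ?_)
    exact (lami_lam_CHT v₀ m ε ν hm hε hν q).symm
  have d5 := d4.unique (hasFDerivAt_id p)
  have e1 : ∀ z, (fderiv ℝ (lami_CHT v₀ m ε ν) (lam v₀ m ε ν p))
      (fderiv ℝ (lam v₀ m ε ν) p z) = z := fun z =>
    congrArg (fun A : R4 →L[ℝ] R4 => A z) d5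
  intro v w hvw
  have := congrArg (fderiv ℝ (lami_CHT v₀ m ε ν) (lam v₀ m ε ν p)) hvw
  rw [e1, e1] at this
  exact this

/-- the size of the change of coordinates on the ball -/
private theorem mapsTo_lam_CHT (v₀ m : ℝ × ℝ) (ε ν η : ℝ) (hη : 0 < η) (hm : ‖m‖ < η / 20)
    (hε : 0 < ε) (hε' : ε < η / 20) (hν : 0 < ν) (hν' : ν < η / 20) :
    MapsTo (lam v₀ m ε ν) ball4 (box v₀ η) := by
  rintro p ⟨hp1, hp2, hp3⟩
  have hr : p.2.1 ^ 2 + p.2.2.re ^ 2 + p.2.2.im ^ 2 ≤ (9 / 2) ^ 2 := by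
    have : rsq 0 p = p.2.1 ^ 2 + p.2.2.re ^ 2 + p.2.2.im ^ 2 := by simp [rsq, nsq]
    rw [← this]
    exact hp3
  have y1 := sq_nonneg p.2.1
  have y2 := sq_nonneg p.2.2.re
  have y3 := sq_nonneg p.2.2.im
  have ha : |p.2.1| ≤ 9 / 2 := abs_le_of_sq_le_sq (by linarith) (by norm_num)
  have hX : |p.2.2.re| ≤ 9 / 2 := abs_le_of_sq_le_sq (by linarith) (by norm_num)
  have hh : |p.2.2.im| ≤ 9 / 2 := abs_le_of_sq_le_sq (by linarith) (by norm_num)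
  have hs : |p.1 - 1 / 2| ≤ 3 / 2 := abs_le.2 ⟨by linarith, by linarith⟩
  have h1a : |1 - p.2.1| ≤ 11 / 2 := by
    have := abs_le.1 ha
    exact abs_le.2 ⟨by linarith, by linarith⟩
  have hm1 : |m.1| ≤ η / 20 := (norm_fst_le m).trans hm.le
  have hm2 : |m.2| ≤ η / 20 := (norm_snd_le m).trans hm.le
  have hη0 : (0 : ℝ) ≤ η / 20 := by positivity
  show ‖lam v₀ m ε ν p - (v₀, 0, 0)‖ ≤ η
  refine norm_prod_le_iff.2 ⟨norm_prod_le_iff.2 ⟨?_, ?_⟩, norm_prod_le_iff.2 ⟨?_, ?_⟩⟩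
  · have e : (lam v₀ m ε ν p - (v₀, 0, 0)).1.1 = m.1 * p.2.1 - m.2 * p.2.2.im := by
      simp [lam, mulc]
    rw [e, Real.norm_eq_abs]
    have q1 : |m.1 * p.2.1| ≤ η / 20 * (9 / 2) := by
      rw [abs_mul]
      exact mul_le_mul hm1 ha (abs_nonneg _) hη0
    have q2 : |m.2 * p.2.2.im| ≤ η / 20 * (9 / 2) := by
      rw [abs_mul]
      exact mul_le_mul hm2 hh (abs_nonneg _) hη0
    have q3 := abs_sub (m.1 * p.2.1) (m.2 * p.2.2.im)
    linarith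
  · have e : (lam v₀ m ε ν p - (v₀, 0, 0)).1.2 = m.1 * p.2.2.im + m.2 * p.2.1 := by
      simp [lam, mulc]
    rw [e, Real.norm_eq_abs]
    have q1 : |m.1 * p.2.2.im| ≤ η / 20 * (9 / 2) := by
      rw [abs_mul]
      exact mul_le_mul hm1 hh (abs_nonneg _) hη0
    have q2 : |m.2 * p.2.1| ≤ η / 20 * (9 / 2) := by
      rw [abs_mul]
      exact mul_le_mul hm2 ha (abs_nonneg _) hη0
    have q3 := abs_add_le (m.1 * p.2.2.im) (m.2 * p.2.1)
    linarith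
  · have e : (lam v₀ m ε ν p - (v₀, 0, 0)).2.1 = ν * ((p.1 - 1 / 2) * p.2.1 + p.2.2.re) := by
      simp [lam]
    rw [e, Real.norm_eq_abs, abs_mul, abs_of_pos hν]
    have q1 : |(p.1 - 1 / 2) * p.2.1| ≤ 3 / 2 * (9 / 2) := by
      rw [abs_mul]
      exact mul_le_mul hs ha (abs_nonneg _) (by norm_num)
    have q3 := abs_add_le ((p.1 - 1 / 2) * p.2.1) p.2.2.re
    have q4 : ν * |(p.1 - 1 / 2) * p.2.1 + p.2.2.re| ≤ η / 20 * (45 / 4) :=
      mul_le_mul hν'.le (by linarith) (abs_nonneg _) hη0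
    linarith
  · have e : (lam v₀ m ε ν p - (v₀, 0, 0)).2.2 =
        ε * ((p.1 - 1 / 2) * (1 - p.2.1) - p.2.2.re) := by
      simp [lam]
    rw [e, Real.norm_eq_abs, abs_mul, abs_of_pos hε]
    have q1 : |(p.1 - 1 / 2) * (1 - p.2.1)| ≤ 3 / 2 * (11 / 2) := by
      rw [abs_mul]
      exact mul_le_mul hs h1a (abs_nonneg _) (by norm_num)
    have q3 := abs_sub ((p.1 - 1 / 2) * (1 - p.2.1)) p.2.2.re
    have q4 : ε * |(p.1 - 1 / 2) * (1 - p.2.1) - p.2.2.re| ≤ η / 20 * (51 / 4) :=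
      mul_le_mul hε'.le (by linarith) (abs_nonneg _) hη0
    linarith

/-- the first two coordinates -/
private noncomputable def prP_CHT : ((ℝ × ℝ) × ℝ × ℝ) →L[ℝ] (ℝ × ℝ) × ℝ :=
  (ContinuousLinearMap.fst ℝ (ℝ × ℝ) (ℝ × ℝ)).prod
    ((ContinuousLinearMap.fst ℝ ℝ ℝ).comp (ContinuousLinearMap.snd ℝ (ℝ × ℝ) (ℝ × ℝ)))

/-- the last coordinate -/
private noncomputable def prQ_CHT : ((ℝ × ℝ) × ℝ × ℝ) →L[ℝ] ℝ :=
  (ContinuousLinearMap.snd ℝ ℝ ℝ).comp (ContinuousLinearMap.snd ℝ (ℝ × ℝ) (ℝ × ℝ))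

private theorem injective_fderiv_yc_CHT (c : (ℝ × ℝ) × ℝ → R4) (c0 : ℝ → R4) (v₀ : ℝ × ℝ)
    (hc : ContDiffAt ℝ ∞ c (v₀, (0 : ℝ))) (hc0 : ContDiffAt ℝ ∞ c0 0)
    (hinj : Function.Injective (fderiv ℝ (fun z : (ℝ × ℝ) × ℝ × ℝ => c (z.1, z.2.1) - c0 z.2.2)
      (v₀, 0, 0))) : Function.Injective (fderiv ℝ (yc c c0) (v₀, 0, 0)) := by
  have dP : HasFDerivAt (fun z : (ℝ × ℝ) × ℝ × ℝ => (z.1, z.2.1)) prP_CHT (v₀, 0, 0) :=
    prP_CHT.hasFDerivAt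
  have dQ : HasFDerivAt (fun z : (ℝ × ℝ) × ℝ × ℝ => z.2.2) prQ_CHT (v₀, 0, 0) :=
    prQ_CHT.hasFDerivAt
  have dc : HasFDerivAt c (fderiv ℝ c (v₀, 0)) (v₀, 0) :=
    (hc.differentiableAt (by simp)).hasFDerivAt
  have dc0 : HasFDerivAt c0 (fderiv ℝ c0 0) 0 := (hc0.differentiableAt (by simp)).hasFDerivAt
  have d1 : HasFDerivAt (fun z : (ℝ × ℝ) × ℝ × ℝ => c (z.1, z.2.1))
      ((fderiv ℝ c (v₀, 0)).comp prP_CHT) (v₀, 0, 0) :=
    HasFDerivAt.comp (f := fun z : (ℝ × ℝ) × ℝ × ℝ => (z.1, z.2.1)) (v₀, 0, 0) dc dP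
  have d2 : HasFDerivAt (fun z : (ℝ × ℝ) × ℝ × ℝ => c0 z.2.2)
      ((fderiv ℝ c0 0).comp prQ_CHT) (v₀, 0, 0) :=
    HasFDerivAt.comp (f := fun z : (ℝ × ℝ) × ℝ × ℝ => z.2.2) (v₀, 0, 0) dc0 dQ
  have d3 := d1.sub d2
  have d4 : HasFDerivAt (yc c c0)
      ((fderiv ℝ c (v₀, 0)).comp prP_CHT + (fderiv ℝ c0 0).comp prQ_CHT) (v₀, 0, 0) :=
    d1.add (d2.sub_const _)
  have e3 := d3.fderiv
  have e3' : fderiv ℝ (fun z : (ℝ × ℝ) × ℝ × ℝ => c (z.1, z.2.1) - c0 z.2.2) (v₀, 0, 0) =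
      (fderiv ℝ c (v₀, 0)).comp prP_CHT - (fderiv ℝ c0 0).comp prQ_CHT := e3
  rw [e3'] at hinj
  rw [d4.fderiv]
  refine (injective_iff_map_eq_zero _).2 fun z hz => ?_
  have h0 : ((fderiv ℝ c (v₀, 0)).comp prP_CHT - (fderiv ℝ c0 0).comp prQ_CHT)
      (z.1, z.2.1, -z.2.2) = 0 := by
    have k1 : prP_CHT (z.1, z.2.1, -z.2.2) = prP_CHT z := rfl
    have k2 : prQ_CHT (z.1, z.2.1, -z.2.2) = -prQ_CHT z := rfl
    simp only [ContinuousLinearMap.sub_apply, ContinuousLinearMap.comp_apply, k1, k2, map_neg,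
      sub_neg_eq_add]
    simpa only [ContinuousLinearMap.add_apply, ContinuousLinearMap.comp_apply] using hz
  have h1 := (injective_iff_map_eq_zero _).1 hinj _ h0
  have q1 : z.1 = 0 := congrArg (fun w : (ℝ × ℝ) × ℝ × ℝ => w.1) h1
  have q2 : z.2.1 = 0 := congrArg (fun w : (ℝ × ℝ) × ℝ × ℝ => w.2.1) h1
  have q3 : -z.2.2 = 0 := congrArg (fun w : (ℝ × ℝ) × ℝ × ℝ => w.2.2) h1
  exact Prod.ext q1 (Prod.ext q2 (neg_eq_zero.1 q3))

theorem m_CHT : StCHT := by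
  intro c c0 v₀ O hc hc0 hcc hinj hO hcO
  -- `yc` is smooth near `z₀`
  have hsm : ∀ᶠ z in 𝓝 ((v₀, 0, 0) : (ℝ × ℝ) × ℝ × ℝ), ContDiffAt ℝ ∞ (yc c c0) z := by
    have cP : ContinuousAt (fun z : (ℝ × ℝ) × ℝ × ℝ => (z.1, z.2.1)) (v₀, 0, 0) :=
      prP_CHT.continuous.continuousAt
    have cQ : ContinuousAt (fun z : (ℝ × ℝ) × ℝ × ℝ => z.2.2) (v₀, 0, 0) :=
      prQ_CHT.continuous.continuousAt
    filter_upwards [cP.eventually hc, cQ.eventually hc0] with z h1 h2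
    have sP : ContDiffAt ℝ ∞ (fun z : (ℝ × ℝ) × ℝ × ℝ => (z.1, z.2.1)) z :=
      prP_CHT.contDiff.contDiffAt
    have sQ : ContDiffAt ℝ ∞ (fun z : (ℝ × ℝ) × ℝ × ℝ => z.2.2) z :=
      prQ_CHT.contDiff.contDiffAt
    have k1 : ContDiffAt ℝ ∞ (fun z : (ℝ × ℝ) × ℝ × ℝ => c (z.1, z.2.1)) z :=
      ContDiffAt.comp (f := fun z : (ℝ × ℝ) × ℝ × ℝ => (z.1, z.2.1)) z h1 sP
    have k2 : ContDiffAt ℝ ∞ (fun z : (ℝ × ℝ) × ℝ × ℝ => c0 z.2.2) z :=
      ContDiffAt.comp (f := fun z : (ℝ × ℝ) × ℝ × ℝ => z.2.2) z h2 sQ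
    exact k1.add (k2.sub contDiffAt_const)
  have hfi := injective_fderiv_yc_CHT c c0 v₀ hc.self_of_nhds hc0.self_of_nhds hinj
  have hdim : finrank ℝ ((ℝ × ℝ) × ℝ × ℝ) = finrank ℝ R4 := by
    have : finrank ℝ ℂ = 2 := Complex.finrank_real_complex
    rw [Module.finrank_prod, Module.finrank_prod, Module.finrank_prod, Module.finrank_prod, this]
    simp
  have hloc := isLocalDiffeomorphAt_of_injective hdim hsm hfi
  have hcont : ContinuousAt (yc c c0) (v₀, 0, 0) := hsm.self_of_nhds.continuousAt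
  have hz0 : yc c c0 (v₀, 0, 0) = c0 0 := by
    simp [yc, hcc]
  have hpre : yc c c0 ⁻¹' O ∈ 𝓝 ((v₀, 0, 0) : (ℝ × ℝ) × ℝ × ℝ) :=
    hcont.preimage_mem_nhds (hO.mem_nhds (by rw [hz0]; exact hcO))
  obtain ⟨Φ, hp, he⟩ := hloc
  have hW : Φ.source ∩ yc c c0 ⁻¹' O ∈ 𝓝 ((v₀, 0, 0) : (ℝ × ℝ) × ℝ × ℝ) :=
    Filter.inter_mem (Φ.open_source.mem_nhds hp) hpre
  obtain ⟨η, hη, hsub⟩ := Metric.nhds_basis_closedBall.mem_iff.1 hW
  have hbox : box v₀ η ⊆ Φ.source ∩ yc c c0 ⁻¹' O := by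
    intro z hz
    apply hsub
    rw [mem_closedBall_iff_norm]
    exact hz
  have hld : ∀ z ∈ box v₀ η, IsLocalDiffeomorphAt 𝓘(ℝ, (ℝ × ℝ) × ℝ × ℝ) 𝓘(ℝ, R4) ∞
      (yc c c0) z := fun z hz => ⟨Φ, (hbox hz).1, he⟩
  have hin : InjOn (yc c c0) (box v₀ η) := by
    intro z hz w hw hzw
    rw [he (hbox hz).1, he (hbox hw).1] at hzw
    exact Φ.toPartialEquiv.injOn (hbox hz).1 (hbox hw).1 hzw
  refine ⟨η, hη, hin, fun z hz => (hbox hz).2, fun z hz => eventually_contDiffAt (hld z hz), ?_⟩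
  intro m ε ν hm hm' hε hε' hν hν'
  have hmaps := mapsTo_lam_CHT v₀ m ε ν η hη hm' hε hε' hν hν'
  refine ⟨⟨fun p hp => ?_, fun p hp q hq hpq => ?_⟩, hmaps⟩
  · have hl := hld _ (hmaps hp)
    have s1 := eventually_contDiffAt hl
    have s2 := injective_fderiv hl
    have hlam := contDiff_lam_CHT v₀ m ε ν
    refine isLocalDiffeomorphAt_of_injective rfl ?_ ?_
    · filter_upwards [hlam.continuous.continuousAt.eventually s1] with q hq
      exact ContDiffAt.comp (g := yc c c0) (f := lam v₀ m ε ν) q hq hlam.contDiffAt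
    · have e : fderiv ℝ (cht c c0 v₀ m ε ν) p =
          (fderiv ℝ (yc c c0) (lam v₀ m ε ν p)).comp (fderiv ℝ (lam v₀ m ε ν) p) :=
        fderiv_comp (g := yc c c0) (f := lam v₀ m ε ν) p
          (s1.self_of_nhds.differentiableAt (by simp)) (hlam.differentiable (by simp) p)
      rw [e]
      exact s2.comp (injective_fderiv_lam_CHT v₀ m ε ν hm hε hν p)
  · have h1 := hin (hmaps hp) (hmaps hq) hpq
    have h2 := congrArg (lami_CHT v₀ m ε ν) h1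
    rwa [lami_lam_CHT v₀ m ε ν hm hε hν, lami_lam_CHT v₀ m ε ν hm hε hν] at h2

end Pool.Agent.Helper34.BI.H


end

/-! ## Helper34.BI.H.M_CHV -/

section

/-!
# Project BI, stage 3: module CHV, values of the chart
-/

set_option autoImplicit false

open Module Set Filter Topology
open scoped ContDiff Manifold
open Pool.Agent.Helper65.Barb Pool.Agent.Helper18.BI Pool.Agent.Helper27.BI

namespace Pool.Agent.Helper34.BI.H

private theorem mulc_inj_CHV {m v : ℝ × ℝ} (hm : m ≠ 0) (h : mulc m v = 0) : v = 0 := by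
  have h1 : m.1 * v.1 - m.2 * v.2 = 0 := by
    have := congrArg Prod.fst h
    simpa [mulc] using this
  have h2 : m.1 * v.2 + m.2 * v.1 = 0 := by
    have := congrArg Prod.snd h
    simpa [mulc] using this
  have hpos : 0 < m.1 ^ 2 + m.2 ^ 2 := by
    by_contra hn
    have e1 : m.1 = 0 := by nlinarith [sq_nonneg m.1, sq_nonneg m.2]
    have e2 : m.2 = 0 := by nlinarith [sq_nonneg m.1, sq_nonneg m.2]
    exact hm (Prod.ext e1 e2)
  have k1 : (m.1 ^ 2 + m.2 ^ 2) * v.1 = 0 := by linear_combination m.1 * h1 + m.2 * h2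
  have k2 : (m.1 ^ 2 + m.2 ^ 2) * v.2 = 0 := by linear_combination m.1 * h2 - m.2 * h1
  exact Prod.ext ((mul_eq_zero.1 k1).resolve_left hpos.ne')
    ((mul_eq_zero.1 k2).resolve_left hpos.ne')

theorem m_CHV : StCHV := by
  intro c c0 v₀ m ε ν η₀ hm hε hν hc
  refine ⟨fun s => ?_, fun s => ?_, fun κ q s => ?_, fun hinj hmap p hp => ⟨?_, ?_⟩⟩
  · have e : lam v₀ m ε ν (s, 0) = (v₀, 0, ε * (s - 1 / 2)) := by
      simp [lam, mulc]
    rw [cht, e]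
    simp [yc, hc]
  · have e : lam v₀ m ε ν (s, e1) = (v₀ + m, ν * (s - 1 / 2), 0) := by
      simp [lam, mulc, e1]
    rw [cht, e]
    simp [yc]
  · have e : lam v₀ m ε ν (s, warc κ q s) =
        (v₀ + m + κ s • (circ v₀ m q - (v₀ + m)), ν * (s - 1 / 2), 0) := by
      refine Prod.ext (Prod.ext ?_ ?_) (Prod.ext ?_ ?_)
      · simp only [lam, mulc, warc, circ, Prod.fst_add, Prod.smul_fst, Prod.fst_sub, smul_eq_mul]
        ring
      · simp only [lam, mulc, warc, circ, Prod.snd_add, Prod.smul_snd, Prod.snd_sub, smul_eq_mul]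
        ring
      · simp only [lam, warc]
        ring
      · simp only [lam, warc]
        ring
    rw [cht, e]
    simp [yc]
  · intro t ht h0 h
    have hz : ((v₀, 0, t) : (ℝ × ℝ) × ℝ × ℝ) ∈ box v₀ η₀ := by
      have : ((v₀, 0, t) : (ℝ × ℝ) × ℝ × ℝ) - (v₀, 0, 0) = ((0, 0, t) : (ℝ × ℝ) × ℝ × ℝ) := by
        simp
      change ‖((v₀, 0, t) : (ℝ × ℝ) × ℝ × ℝ) - (v₀, 0, 0)‖ ≤ η₀
      rw [this]
      simp only [Prod.norm_def, norm_zero, Real.norm_eq_abs]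
      exact max_le h0 (max_le h0 ht)
    have hy : yc c c0 (lam v₀ m ε ν p) = yc c c0 (v₀, 0, t) := by
      change cht c c0 v₀ m ε ν p = _
      rw [h]
      simp [yc, hc]
    have hl := hinj (hmap hp) hz hy
    have l1 : v₀ + mulc m (p.2.1, p.2.2.im) = v₀ := congrArg Prod.fst hl
    have l2 : ν * ((p.1 - 1 / 2) * p.2.1 + p.2.2.re) = 0 :=
      congrArg (fun z : (ℝ × ℝ) × ℝ × ℝ => z.2.1) hl
    have l3 : ε * ((p.1 - 1 / 2) * (1 - p.2.1) - p.2.2.re) = t :=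
      congrArg (fun z : (ℝ × ℝ) × ℝ × ℝ => z.2.2) hl
    have h1 : mulc m (p.2.1, p.2.2.im) = 0 := by simpa using l1
    have h2 := mulc_inj_CHV hm h1
    have ha : p.2.1 = 0 := congrArg Prod.fst h2
    have hh : p.2.2.im = 0 := congrArg Prod.snd h2
    have hX : p.2.2.re = 0 := by
      have := (mul_eq_zero.1 l2).resolve_left hν.ne'
      rw [ha] at this
      linarith
    refine ⟨Prod.ext rfl (Prod.ext ha (Complex.ext hX hh)), ?_⟩
    rw [← l3, ha, hX]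
    ring
  · intro b hb hmη h
    have h0 : 0 ≤ η₀ := le_trans (norm_nonneg _) hmη
    have hz : ((v₀ + m, b, 0) : (ℝ × ℝ) × ℝ × ℝ) ∈ box v₀ η₀ := by
      have : ((v₀ + m, b, 0) : (ℝ × ℝ) × ℝ × ℝ) - (v₀, 0, 0) = ((m, b, 0) : (ℝ × ℝ) × ℝ × ℝ) := by
        simp
      change ‖((v₀ + m, b, 0) : (ℝ × ℝ) × ℝ × ℝ) - (v₀, 0, 0)‖ ≤ η₀
      rw [this, Prod.norm_def]
      refine max_le hmη ?_
      simp only [Prod.norm_def, norm_zero, Real.norm_eq_abs]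
      exact max_le hb h0
    have hy : yc c c0 (lam v₀ m ε ν p) = yc c c0 (v₀ + m, b, 0) := by
      change cht c c0 v₀ m ε ν p = _
      rw [h]
      simp [yc]
    have hl := hinj (hmap hp) hz hy
    have l1 : v₀ + mulc m (p.2.1, p.2.2.im) = v₀ + m := congrArg Prod.fst hl
    have l2 : ν * ((p.1 - 1 / 2) * p.2.1 + p.2.2.re) = b :=
      congrArg (fun z : (ℝ × ℝ) × ℝ × ℝ => z.2.1) hl
    have l3 : ε * ((p.1 - 1 / 2) * (1 - p.2.1) - p.2.2.re) = 0 :=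
      congrArg (fun z : (ℝ × ℝ) × ℝ × ℝ => z.2.2) hl
    have h1 : mulc m (p.2.1, p.2.2.im) = m := by simpa using l1
    have h1' : mulc m (p.2.1 - 1, p.2.2.im) = 0 := by
      have e1' : m.1 * p.2.1 - m.2 * p.2.2.im = m.1 := congrArg Prod.fst h1
      have e2' : m.1 * p.2.2.im + m.2 * p.2.1 = m.2 := congrArg Prod.snd h1
      refine Prod.ext ?_ ?_
      · change m.1 * (p.2.1 - 1) - m.2 * p.2.2.im = 0
        linarith
      · change m.1 * p.2.2.im + m.2 * (p.2.1 - 1) = 0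
        linarith
    have h2 := mulc_inj_CHV hm h1'
    have ha : p.2.1 = 1 := by
      have : p.2.1 - 1 = 0 := congrArg Prod.fst h2
      linarith
    have hh : p.2.2.im = 0 := congrArg Prod.snd h2
    have hX : p.2.2.re = 0 := by
      have := (mul_eq_zero.1 l3).resolve_left hε.ne'
      rw [ha] at this
      linarith
    refine ⟨Prod.ext rfl (Prod.ext ?_ ?_), ?_⟩
    · simpa [e1] using ha
    · simpa [e1] using Complex.ext (by simpa using hX) (by simpa using hh)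
    · rw [← l2, ha, hX]
      ring

end Pool.Agent.Helper34.BI.H


end

/-! ## Helper34.BI.H.M_L5 -/

section

/-!
# Project BI, stage 3: module L5, the local model of a transverse crossing
-/

set_option autoImplicit false

open Module Set Filter Topology
open scoped ContDiff Manifold
open Pool.Agent.Helper65.Barb Pool.Agent.Helper18.BI Pool.Agent.Helper27.BI
open Pool.Agent.Helper27.H (ArcD LIso LPush Fam2 Q2 SuppU thk seg)
open Pool.Agent.Helper70.BI (I4)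

namespace Pool.Agent.Helper34.BI.H

private noncomputable def A_L5 (c : ℝ × ℝ × ℝ → R4) (u₀ q₀ a b : ℝ) : ℝ × ℝ →L[ℝ] R4 :=
  (fderiv ℝ c (u₀, q₀, a) - fderiv ℝ c (u₀, q₀, b)).comp
    ((ContinuousLinearMap.fst ℝ ℝ ℝ).prod ((ContinuousLinearMap.snd ℝ ℝ ℝ).prod 0))

private theorem lw_eq_L5 (c : ℝ × ℝ × ℝ → R4) (u₀ q₀ a b : ℝ) (w : ℝ × ℝ) :
    lw c u₀ q₀ a b w = A_L5 c u₀ q₀ a b w := by
  simp [lw, A_L5]

private theorem mulc_inj_L5 {m v : ℝ × ℝ} (hm : m ≠ 0) (h : mulc m v = 0) : v = 0 := by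
  have h1 : m.1 * v.1 - m.2 * v.2 = 0 := by
    have := congrArg Prod.fst h
    simpa [mulc] using this
  have h2 : m.1 * v.2 + m.2 * v.1 = 0 := by
    have := congrArg Prod.snd h
    simpa [mulc] using this
  have hpos : 0 < m.1 ^ 2 + m.2 ^ 2 := by
    by_contra hn
    have q1 := sq_nonneg m.1
    have q2 := sq_nonneg m.2
    have q3 := not_lt.1 hn
    have e1 : m.1 = 0 := (pow_eq_zero_iff two_ne_zero).1 (le_antisymm (by linarith only [q2, q3]) q1)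
    have e2 : m.2 = 0 := (pow_eq_zero_iff two_ne_zero).1 (le_antisymm (by linarith only [q1, q3]) q2)
    exact hm (Prod.ext e1 e2)
  have k1 : (m.1 ^ 2 + m.2 ^ 2) * v.1 = 0 := by linear_combination m.1 * h1 + m.2 * h2
  have k2 : (m.1 ^ 2 + m.2 ^ 2) * v.2 = 0 := by linear_combination m.1 * h2 - m.2 * h1
  exact Prod.ext ((mul_eq_zero.1 k1).resolve_left hpos.ne')
    ((mul_eq_zero.1 k2).resolve_left hpos.ne')

private theorem norm_mulc_L5 (m : ℝ × ℝ) (θ : ℝ) :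
    ‖mulc m (Real.cos θ, Real.sin θ)‖ ≤ 2 * ‖m‖ := by
  have h1 : |m.1| ≤ ‖m‖ := norm_fst_le m
  have h2 : |m.2| ≤ ‖m‖ := norm_snd_le m
  have hc := Real.abs_cos_le_one θ
  have hs := Real.abs_sin_le_one θ
  have k1 : |m.1 * Real.cos θ| ≤ ‖m‖ := by
    rw [abs_mul]; exact (mul_le_of_le_one_right (abs_nonneg _) hc).trans h1
  have k2 : |m.2 * Real.sin θ| ≤ ‖m‖ := by
    rw [abs_mul]; exact (mul_le_of_le_one_right (abs_nonneg _) hs).trans h2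
  have k3 : |m.1 * Real.sin θ| ≤ ‖m‖ := by
    rw [abs_mul]; exact (mul_le_of_le_one_right (abs_nonneg _) hs).trans h1
  have k4 : |m.2 * Real.cos θ| ≤ ‖m‖ := by
    rw [abs_mul]; exact (mul_le_of_le_one_right (abs_nonneg _) hc).trans h2
  rw [Prod.norm_def]
  refine max_le ?_ ?_
  · change |m.1 * Real.cos θ - m.2 * Real.sin θ| ≤ _
    have := abs_sub (m.1 * Real.cos θ) (m.2 * Real.sin θ)
    linarith
  · change |m.1 * Real.sin θ + m.2 * Real.cos θ| ≤ _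
    have := abs_add_le (m.1 * Real.sin θ) (m.2 * Real.cos θ)
    linarith

/-- the moving strand, linearized -/
private noncomputable def cc_L5 (c : ℝ × ℝ × ℝ → R4) (u₀ q₀ a b : ℝ) (z : (ℝ × ℝ) × ℝ) : R4 :=
  c (u₀, q₀, b + z.2) - A_L5 c u₀ q₀ a b (z.1 - (u₀, q₀))

/-- the fixed strand -/
private def c0_L5 (c : ℝ × ℝ × ℝ → R4) (u₀ q₀ a : ℝ) (t : ℝ) : R4 := c (u₀, q₀, a + t)

private theorem cc_smooth_L5 {c : ℝ × ℝ × ℝ → R4} (hc : ContDiff ℝ ∞ c) (u₀ q₀ a b : ℝ) :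
    ContDiff ℝ ∞ (cc_L5 c u₀ q₀ a b) := by
  have h1 : ContDiff ℝ ∞ (fun z : (ℝ × ℝ) × ℝ => c (u₀, q₀, b + z.2)) :=
    hc.comp (contDiff_const.prodMk (contDiff_const.prodMk (contDiff_const.add contDiff_snd)))
  have h2 : ContDiff ℝ ∞ (fun z : (ℝ × ℝ) × ℝ => A_L5 c u₀ q₀ a b (z.1 - (u₀, q₀))) :=
    (A_L5 c u₀ q₀ a b).contDiff.comp (contDiff_fst.sub contDiff_const)
  exact h1.sub h2

private theorem c0_smooth_L5 {c : ℝ × ℝ × ℝ → R4} (hc : ContDiff ℝ ∞ c) (u₀ q₀ a : ℝ) :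
    ContDiff ℝ ∞ (c0_L5 c u₀ q₀ a) :=
  hc.comp (contDiff_const.prodMk (contDiff_const.prodMk (contDiff_const.add contDiff_id)))

private theorem line_L5 {c : ℝ × ℝ × ℝ → R4} (hc : ContDiff ℝ ∞ c) (u₀ q₀ a : ℝ) :
    HasFDerivAt (fun t : ℝ => c (u₀, q₀, a + t))
      ((fderiv ℝ c (u₀, q₀, a)).comp
        ((0 : ℝ →L[ℝ] ℝ).prod ((0 : ℝ →L[ℝ] ℝ).prod (ContinuousLinearMap.id ℝ ℝ)))) 0 := by
  have h1 : HasFDerivAt c (fderiv ℝ c (u₀, q₀, a)) (u₀, q₀, a + 0) := by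
    rw [add_zero]
    exact (hc.differentiable (by simp) _).hasFDerivAt
  have h2 : HasFDerivAt (fun t : ℝ => ((u₀, q₀, a + t) : ℝ × ℝ × ℝ))
      ((0 : ℝ →L[ℝ] ℝ).prod ((0 : ℝ →L[ℝ] ℝ).prod (ContinuousLinearMap.id ℝ ℝ))) 0 :=
    (hasFDerivAt_const _ _).prodMk ((hasFDerivAt_const _ _).prodMk
      ((hasFDerivAt_id (0 : ℝ)).const_add a))
  exact h1.comp (0 : ℝ) h2

private theorem inj_L5 {c : ℝ × ℝ × ℝ → R4} (hc : ContDiff ℝ ∞ c) {u₀ q₀ a b : ℝ}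
    (htr : ∀ ζ η σ τ : ℝ, fderiv ℝ c (u₀, q₀, a) (ζ, η, σ) = fderiv ℝ c (u₀, q₀, b) (ζ, η, τ) →
      ζ = 0 ∧ η = 0 ∧ σ = 0 ∧ τ = 0) :
    Function.Injective (fderiv ℝ (fun z : (ℝ × ℝ) × ℝ × ℝ =>
      cc_L5 c u₀ q₀ a b (z.1, z.2.1) - c0_L5 c u₀ q₀ a z.2.2) ((u₀, q₀), 0, 0)) := by
  have h1 : HasFDerivAt (fun z : (ℝ × ℝ) × ℝ × ℝ => c (u₀, q₀, b + z.2.1))
      (((fderiv ℝ c (u₀, q₀, b)).comp
        ((0 : ℝ →L[ℝ] ℝ).prod ((0 : ℝ →L[ℝ] ℝ).prod (ContinuousLinearMap.id ℝ ℝ)))).comp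
        ((ContinuousLinearMap.fst ℝ ℝ ℝ).comp (ContinuousLinearMap.snd ℝ (ℝ × ℝ) (ℝ × ℝ))))
      ((u₀, q₀), 0, 0) :=
    HasFDerivAt.comp (g := fun t : ℝ => c (u₀, q₀, b + t))
      (f := fun z : (ℝ × ℝ) × ℝ × ℝ => z.2.1)
      (((u₀, q₀), 0, 0) : (ℝ × ℝ) × ℝ × ℝ) (line_L5 hc u₀ q₀ b)
      ((ContinuousLinearMap.fst ℝ ℝ ℝ).comp
        (ContinuousLinearMap.snd ℝ (ℝ × ℝ) (ℝ × ℝ))).hasFDerivAt
  have h2 : HasFDerivAt (fun z : (ℝ × ℝ) × ℝ × ℝ => c (u₀, q₀, a + z.2.2))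
      (((fderiv ℝ c (u₀, q₀, a)).comp
        ((0 : ℝ →L[ℝ] ℝ).prod ((0 : ℝ →L[ℝ] ℝ).prod (ContinuousLinearMap.id ℝ ℝ)))).comp
        ((ContinuousLinearMap.snd ℝ ℝ ℝ).comp (ContinuousLinearMap.snd ℝ (ℝ × ℝ) (ℝ × ℝ))))
      ((u₀, q₀), 0, 0) :=
    HasFDerivAt.comp (g := fun t : ℝ => c (u₀, q₀, a + t))
      (f := fun z : (ℝ × ℝ) × ℝ × ℝ => z.2.2)
      (((u₀, q₀), 0, 0) : (ℝ × ℝ) × ℝ × ℝ) (line_L5 hc u₀ q₀ a)
      ((ContinuousLinearMap.snd ℝ ℝ ℝ).comp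
        (ContinuousLinearMap.snd ℝ (ℝ × ℝ) (ℝ × ℝ))).hasFDerivAt
  have h3 : HasFDerivAt (fun z : (ℝ × ℝ) × ℝ × ℝ => A_L5 c u₀ q₀ a b (z.1 - (u₀, q₀)))
      ((A_L5 c u₀ q₀ a b).comp (ContinuousLinearMap.fst ℝ (ℝ × ℝ) (ℝ × ℝ)))
      ((u₀, q₀), 0, 0) :=
    HasFDerivAt.comp (((u₀, q₀), 0, 0) : (ℝ × ℝ) × ℝ × ℝ) (A_L5 c u₀ q₀ a b).hasFDerivAt
      ((ContinuousLinearMap.fst ℝ (ℝ × ℝ) (ℝ × ℝ)).hasFDerivAt.sub_const (u₀, q₀))
  have h4 := (h1.sub h3).sub h2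
  have e : fderiv ℝ (fun z : (ℝ × ℝ) × ℝ × ℝ =>
      cc_L5 c u₀ q₀ a b (z.1, z.2.1) - c0_L5 c u₀ q₀ a z.2.2) ((u₀, q₀), 0, 0) = _ := h4.fderiv
  rw [e]
  rw [← ContinuousLinearMap.coe_coe, ← LinearMap.ker_eq_bot, LinearMap.ker_eq_bot']
  rintro ⟨⟨w1, w2⟩, β, t⟩ hz
  have hz' : fderiv ℝ c (u₀, q₀, b) (0, 0, β) -
      (fderiv ℝ c (u₀, q₀, a) (w1, w2, 0) - fderiv ℝ c (u₀, q₀, b) (w1, w2, 0)) -
      fderiv ℝ c (u₀, q₀, a) (0, 0, t) = 0 := by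
    simpa [A_L5] using hz
  have s1 : ((w1, w2, t) : ℝ × ℝ × ℝ) = (w1, w2, 0) + (0, 0, t) := by simp
  have s2 : ((w1, w2, β) : ℝ × ℝ × ℝ) = (w1, w2, 0) + (0, 0, β) := by simp
  have key : fderiv ℝ c (u₀, q₀, a) (w1, w2, t) = fderiv ℝ c (u₀, q₀, b) (w1, w2, β) := by
    rw [s1, s2, map_add, map_add]
    rw [← sub_eq_zero]
    have : fderiv ℝ c (u₀, q₀, a) (w1, w2, 0) + fderiv ℝ c (u₀, q₀, a) (0, 0, t) -
        (fderiv ℝ c (u₀, q₀, b) (w1, w2, 0) + fderiv ℝ c (u₀, q₀, b) (0, 0, β)) =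
        -(fderiv ℝ c (u₀, q₀, b) (0, 0, β) -
      (fderiv ℝ c (u₀, q₀, a) (w1, w2, 0) - fderiv ℝ c (u₀, q₀, b) (w1, w2, 0)) -
      fderiv ℝ c (u₀, q₀, a) (0, 0, t)) := by abel
    rw [this, hz', neg_zero]
  obtain ⟨r1, r2, r3, r4⟩ := htr _ _ _ _ key
  subst r1 r2 r3 r4
  rfl

private theorem min6_L5 {a b c d e f : ℝ} (ha : 0 < a) (hb : 0 < b) (hc : 0 < c) (hd : 0 < d)
    (he : 0 < e) (hf : 0 < f) :
    ∃ r > 0, r ≤ a ∧ r ≤ b ∧ r ≤ c ∧ r ≤ d ∧ r ≤ e ∧ r ≤ f :=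
  ⟨min (min a b) (min (min c d) (min e f)),
    lt_min (lt_min ha hb) (lt_min (lt_min hc hd) (lt_min he hf)),
    (min_le_left _ _).trans (min_le_left _ _), (min_le_left _ _).trans (min_le_right _ _),
    (min_le_right _ _).trans ((min_le_left _ _).trans (min_le_left _ _)),
    (min_le_right _ _).trans ((min_le_left _ _).trans (min_le_right _ _)),
    (min_le_right _ _).trans ((min_le_right _ _).trans (min_le_left _ _)),
    (min_le_right _ _).trans ((min_le_right _ _).trans (min_le_right _ _))⟩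

/-- a smooth cutoff -/
private theorem bump_L5 {r : ℝ} (hr : 0 < r) : ∃ κ : ℝ → ℝ, ContDiff ℝ ∞ κ ∧
    (∀ t, κ t ∈ Icc (0 : ℝ) 1) ∧ (∀ t, |t| ≤ r / 4 → κ t = 1) ∧ ∀ t, r / 2 ≤ |t| → κ t = 0 := by
  let f : ContDiffBump (0 : ℝ) := ⟨r / 4, r / 2, by linarith, by linarith⟩
  refine ⟨f, f.contDiff, fun t => ⟨f.nonneg, f.le_one⟩, fun t ht => ?_, fun t ht => ?_⟩
  · apply f.one_of_mem_closedBall
    rw [mem_closedBall_zero_iff]
    exact ht
  · apply f.zero_of_le_dist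
    rw [dist_zero_right]
    exact ht

private theorem mulc_one_L5 (m : ℝ × ℝ) (k : ℝ) : mulc m (k, 0) = k • m := by
  refine Prod.ext ?_ ?_
  · change m.1 * k - m.2 * 0 = k * m.1
    ring
  · change m.1 * 0 + m.2 * k = k * m.2
    ring

private theorem mulc_sub_L5 (m v w : ℝ × ℝ) : mulc m (v - w) = mulc m v - mulc m w := by
  refine Prod.ext ?_ ?_
  · change m.1 * (v.1 - w.1) - m.2 * (v.2 - w.2) = (m.1 * v.1 - m.2 * v.2) - (m.1 * w.1 - m.2 * w.2)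
    ring
  · change m.1 * (v.2 - w.2) + m.2 * (v.1 - w.1) = (m.1 * v.2 + m.2 * v.1) - (m.1 * w.2 + m.2 * w.1)
    ring

/-- the parameter moving on the circle -/
private noncomputable def vq_L5 (m : ℝ × ℝ) (q : ℝ) : ℝ × ℝ :=
  mulc m (Real.cos (2 * Real.pi * q), Real.sin (2 * Real.pi * q))

private theorem vq_smooth_L5 (m : ℝ × ℝ) : ContDiff ℝ ∞ (vq_L5 m) := by
  have hc : ContDiff ℝ ∞ (fun q : ℝ => Real.cos (2 * Real.pi * q)) :=
    Real.contDiff_cos.comp (contDiff_const.mul contDiff_id)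
  have hs : ContDiff ℝ ∞ (fun q : ℝ => Real.sin (2 * Real.pi * q)) :=
    Real.contDiff_sin.comp (contDiff_const.mul contDiff_id)
  exact ((contDiff_const.mul hc).sub (contDiff_const.mul hs)).prodMk
    ((contDiff_const.mul hs).add (contDiff_const.mul hc))

private theorem vq_zero_L5 (m : ℝ × ℝ) : vq_L5 m 0 = m := by
  simp [vq_L5, mulc_one_L5]

private theorem vq_one_L5 (m : ℝ × ℝ) : vq_L5 m 1 = m := by
  simp [vq_L5, mulc_one_L5]

private theorem vq_ne_L5 {m : ℝ × ℝ} (hm : m ≠ 0) (q : ℝ) : vq_L5 m q ≠ 0 := by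
  intro h
  have h1 := mulc_inj_L5 hm h
  have h2 : Real.cos (2 * Real.pi * q) = 0 := congrArg Prod.fst h1
  have h3 : Real.sin (2 * Real.pi * q) = 0 := congrArg Prod.snd h1
  have h4 := Real.cos_sq_add_sin_sq (2 * Real.pi * q)
  rw [h2, h3] at h4
  norm_num at h4

theorem m_L5 (hXL : StXL) : StL5 := by
  intro D c u₀ q₀ a b hH hX hI ham hbm
  have hsm := hH.smooth
  have hu0 := hX.memu
  have hq0 := hX.memq
  have hu0' : u₀ ∈ Icc (0 : ℝ) 1 := ⟨hu0.1.le, hu0.2.le⟩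
  have hq0' : q₀ ∈ Icc (0 : ℝ) 1 := ⟨hq0.1.le, hq0.2.le⟩
  have hab := hX.lt
  have hD0 := D.h₀
  have hD1 := D.h₁
  have hD2 := D.h₂
  set v₀ : ℝ × ℝ := (u₀, q₀) with hv₀
  set A := A_L5 c u₀ q₀ a b with hA
  set cc := cc_L5 c u₀ q₀ a b with hcc
  set c0 := c0_L5 c u₀ q₀ a with hc0
  have hc00 : c0 0 = c (u₀, q₀, a) := by simp [hc0, c0_L5]
  have hcceq : cc (v₀, 0) = c0 0 := by
    rw [hc00, hX.eq]
    simp [hcc, cc_L5, hv₀]
  have hccs := cc_smooth_L5 hsm u₀ q₀ a b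
  have hc0s := c0_smooth_L5 hsm u₀ q₀ a
  have hinj := inj_L5 hsm hX.trans
  have haU : c (u₀, q₀, a) ∈ D.U := hH.inU _ hu0' _ hq0' _ ⟨ham.le, by linarith⟩
  obtain ⟨η₁, hη₁, hI1, hM1, -, hT1⟩ := m_CHT cc c0 v₀ D.U
    (Eventually.of_forall fun z => hccs.contDiffAt) (Eventually.of_forall fun t => hc0s.contDiffAt)
    hcceq hinj D.openU (by rw [hc00]; exact haU)
  -- the constant `η₀`
  obtain ⟨η₀, hη₀, h01, h02, h03, h04⟩ : ∃ η₀ > 0, η₀ ≤ η₁ ∧ 3 * η₀ ≤ b - a ∧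
      2 * η₀ ≤ a - D.m₀ ∧ 2 * η₀ ≤ D.m₁ - b := by
    obtain ⟨r, hr, q1, q2, q3, q4, -, -⟩ := min6_L5 hη₁ (show 0 < (b - a) / 3 by linarith only [hab])
      (show 0 < (a - D.m₀) / 2 by linarith only [ham]) (show 0 < (D.m₁ - b) / 2 by linarith only [hbm])
      hη₁ hη₁
    exact ⟨r, hr, q1, by linarith only [q2], by linarith only [q3], by linarith only [q4]⟩
  set S : Set ℝ := Icc D.s₀ D.s₁ ∩ {s | η₀ ≤ |s - a| ∧ η₀ ≤ |s - b|} with hS
  have hSc : IsCompact S := by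
    apply isCompact_Icc.inter_right
    exact (isClosed_le continuous_const (continuous_abs.comp (continuous_id.sub continuous_const))).inter
      (isClosed_le continuous_const (continuous_abs.comp (continuous_id.sub continuous_const)))
  have hcont : Continuous (fun s : ℝ => c (u₀, q₀, s)) :=
    hsm.continuous.comp (continuous_const.prodMk (continuous_const.prodMk continuous_id))
  set O : Set R4 := D.U \ ((fun s : ℝ => c (u₀, q₀, s)) '' S) with hO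
  have hOo : IsOpen O := D.openU.sdiff (hSc.image hcont).isClosed
  have hOa : c (u₀, q₀, a) ∈ O := by
    refine ⟨haU, ?_⟩
    rintro ⟨s, ⟨hs, hsa, hsb⟩, h⟩
    have h' : c (u₀, q₀, s) = c (u₀, q₀, a) := h
    rcases lt_trichotomy s a with h1 | h1 | h1
    · have := hX.uniq s hs a ⟨hX.mema.1.le, hX.mema.2.le⟩ h1 h'
      linarith [this.1]
    · rw [h1] at hsa
      simp at hsa
      linarith
    · have := hX.uniq a ⟨hX.mema.1.le, hX.mema.2.le⟩ s hs h1 h'.symm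
      rw [this.2] at hsb
      simp at hsb
      linarith
  obtain ⟨η₂, hη₂, -, hM2, -, hT2⟩ := m_CHT cc c0 v₀ O
    (Eventually.of_forall fun z => hccs.contDiffAt) (Eventually.of_forall fun t => hc0s.contDiffAt)
    hcceq hinj hOo (by rw [hc00]; exact hOa)
  set η := min η₀ η₂ with hη
  have hηpos : 0 < η := lt_min hη₀ hη₂
  have hη0 : η ≤ η₀ := min_le_left _ _
  have hη2 : η ≤ η₂ := min_le_right _ _
  set ε := η / 40 with hε
  have hεpos : 0 < ε := by rw [hε]; linarith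
  obtain ⟨κ₁, k1s, k1i, k1o, k1z⟩ := bump_L5 hη₀
  obtain ⟨κ₂, k2s, k2i, k2o, k2z⟩ := bump_L5 hεpos
  obtain ⟨δ, hδ, hXl⟩ := hXL D c u₀ q₀ a b κ₁ κ₂ (η₀ / 2) hH hX hI k1s k2s (by
    have h1 : ∀ᶠ t in 𝓝 (0 : ℝ), |t| < min (η₀ / 4) (ε / 4) := by
      have : Tendsto (fun t : ℝ => |t|) (𝓝 0) (𝓝 |0|) := continuous_abs.tendsto 0
      rw [abs_zero] at this
      exact this.eventually_lt_const (lt_min (by linarith) (by linarith))
    filter_upwards [h1] with t ht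
    exact ⟨k1o t (ht.le.trans (min_le_left _ _)), k2o t (ht.le.trans (min_le_right _ _))⟩)
    (by linarith) k1z
  -- the radius
  obtain ⟨r₀, hr₀, hr1, hr2, hr3, hr4, hr5, hr6⟩ : ∃ r₀ > 0, 2 * r₀ ≤ δ ∧ 20 * r₀ ≤ η ∧
      2 * r₀ ≤ u₀ ∧ 2 * r₀ ≤ 1 - u₀ ∧ 2 * r₀ ≤ q₀ ∧ 2 * r₀ ≤ 1 - q₀ := by
    have hu1 := hu0.1
    have hu2 := hu0.2
    have hq1 := hq0.1
    have hq2 := hq0.2
    obtain ⟨r₀, hr₀, q1, q2, q3, q4, q5, q6⟩ := min6_L5 (half_pos hδ)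
      (show 0 < η / 20 by linarith only [hηpos]) (half_pos hu1)
      (show 0 < (1 - u₀) / 2 by linarith only [hu2]) (half_pos hq1)
      (show 0 < (1 - q₀) / 2 by linarith only [hq2])
    exact ⟨r₀, hr₀, by linarith only [q1], by linarith only [q2], by linarith only [q3],
      by linarith only [q4], by linarith only [q5], by linarith only [q6]⟩
  refine ⟨r₀, hr₀, fun m hm hmr => ?_⟩
  have hmδ : ‖m‖ < δ := by linarith [norm_nonneg m]
  have hvn : ∀ q, ‖vq_L5 m q‖ < 2 * r₀ := fun q => by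
    have := norm_mulc_L5 m (2 * Real.pi * q)
    have h : ‖vq_L5 m q‖ ≤ 2 * ‖m‖ := this
    linarith
  have hvδ : ∀ q, ‖vq_L5 m q‖ < δ := fun q => (hvn q).trans_le hr1
  set x : ℝ → ℝ → ℝ → R4 := fun l q s => xl c u₀ q₀ a b κ₁ κ₂ l m (vq_L5 m q) s with hx
  set κ : ℝ → ℝ := fun s => κ₂ (ε * (s - 1 / 2)) with hκ
  -- explicit forms
  have hx1 : ∀ q s, x 1 q s = c (u₀, q₀, s) - κ₁ (s - b) • A (m + κ₂ (s - b) • (vq_L5 m q - m)) := by
    intro q s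
    simp only [hx, xl, lw_eq_L5, sub_self, zero_smul, zero_add, one_smul]
    rfl
  have hx10 : ∀ s, x 1 0 s = c (u₀, q₀, s) - κ₁ (s - b) • A m := by
    intro s
    rw [hx1, vq_zero_L5, sub_self, smul_zero, add_zero]
  have hxs : ContDiff ℝ ∞ (fun z : (ℝ × ℝ) × ℝ => x z.1.1 z.1.2 z.2) := by
    have p1 : ContDiff ℝ ∞ (fun z : (ℝ × ℝ) × ℝ => z.1.1) := contDiff_fst.comp contDiff_fst
    have p2 : ContDiff ℝ ∞ (fun z : (ℝ × ℝ) × ℝ => z.1.2) := contDiff_snd.comp contDiff_fst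
    have p3 : ContDiff ℝ ∞ (fun z : (ℝ × ℝ) × ℝ => z.2) := contDiff_snd
    have pv : ContDiff ℝ ∞ (fun z : (ℝ × ℝ) × ℝ => vq_L5 m z.1.2) := (vq_smooth_L5 m).comp p2
    have t1 : ContDiff ℝ ∞ (fun z : (ℝ × ℝ) × ℝ =>
        c (u₀ + (vq_L5 m z.1.2).1, q₀ + (vq_L5 m z.1.2).2, z.2)) :=
      hsm.comp ((contDiff_const.add (contDiff_fst.comp pv)).prodMk
        ((contDiff_const.add (contDiff_snd.comp pv)).prodMk p3))
    have t2 : ContDiff ℝ ∞ (fun z : (ℝ × ℝ) × ℝ => c (u₀, q₀, z.2)) :=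
      hsm.comp (contDiff_const.prodMk (contDiff_const.prodMk p3))
    have t3 : ContDiff ℝ ∞ (fun z : (ℝ × ℝ) × ℝ => κ₁ (z.2 - b)) :=
      k1s.comp (p3.sub contDiff_const)
    have t4 : ContDiff ℝ ∞ (fun z : (ℝ × ℝ) × ℝ => κ₂ (z.2 - b)) :=
      k2s.comp (p3.sub contDiff_const)
    have t5 : ContDiff ℝ ∞ (fun z : (ℝ × ℝ) × ℝ =>
        A (m + κ₂ (z.2 - b) • (vq_L5 m z.1.2 - m))) :=
      A.contDiff.comp (contDiff_const.add (t4.smul (pv.sub contDiff_const)))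
    have t6 := ((contDiff_const (c := (1 : ℝ))).sub p1).smul t1 |>.add (p1.smul (t2.sub (t3.smul t5)))
    refine (congrArg (ContDiff ℝ ∞) (funext fun z => ?_)).mpr t6
    simp only [hx, xl, lw_eq_L5]
    rfl
  have hfroz : ∀ l, ∀ q : ℝ, ∀ s, (s ≤ D.m₀ ∨ D.m₁ ≤ s) → x l q s = D.c s := by
    intro l q s hs
    have hv := hvn q
    have hv1 : |(vq_L5 m q).1| < 2 * r₀ := (norm_fst_le (vq_L5 m q)).trans_lt hv
    have hv2 : |(vq_L5 m q).2| < 2 * r₀ := (norm_snd_le (vq_L5 m q)).trans_lt hv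
    have hv1' := abs_lt.1 hv1
    have hv2' := abs_lt.1 hv2
    have e1 : c (u₀ + (vq_L5 m q).1, q₀ + (vq_L5 m q).2, s) = D.c s :=
      hH.froz _ ⟨by linarith, by linarith⟩ _ ⟨by linarith, by linarith⟩ s hs
    have e2 : c (u₀, q₀, s) = D.c s := hH.froz _ hu0' _ hq0' s hs
    have e3 : κ₁ (s - b) = 0 := by
      apply k1z
      rcases hs with hs | hs
      · rw [abs_of_neg (by linarith)]
        linarith
      · rw [abs_of_pos (by linarith)]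
        linarith
    simp only [hx, xl]
    rw [e1, e2, e3, zero_smul, sub_zero, ← add_smul]
    simp
  have hall : ∀ l ∈ Icc (0 : ℝ) 1, ∀ q ∈ Icc (0 : ℝ) 1,
      (∀ s, (s ≤ D.m₀ ∨ D.m₁ ≤ s) → x l q s = D.c s) ∧
      (∀ s ∈ Icc D.m₀ D.m₁, x l q s ∈ D.U) ∧ InjOn (x l q) (Icc D.s₀ D.s₁) ∧
      ∀ s ∈ Icc D.s₀ D.s₁, deriv (x l q) s ≠ 0 := by
    intro l hl q _
    obtain ⟨g1, g2, g3⟩ := hXl l hl m (vq_L5 m q) hmδ (hvδ q) (vq_ne_L5 hm q)
    exact ⟨hfroz l q, g3, g2, g1⟩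
  have hloop : ∀ l, x l 1 = x l 0 := by
    intro l
    simp only [hx, vq_zero_L5, vq_one_L5]
  have hmη : ‖m‖ < η / 20 := by linarith
  have hT2' := hT2 m ε ε hm (by linarith) hεpos (by rw [hε]; linarith) hεpos (by rw [hε]; linarith)
  have hT1' := hT1 m ε ε hm (by linarith) hεpos (by rw [hε]; linarith) hεpos (by rw [hε]; linarith)
  obtain ⟨V1, V2, V3, V4⟩ := m_CHV cc c0 v₀ m ε ε η₁ hm hεpos hεpos hcceq
  have hrange : ∀ s ∈ Icc (-1 : ℝ) 2, |ε * (s - 1 / 2)| ≤ η₀ / 20 := by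
    intro s hs
    rw [abs_mul, abs_of_pos hεpos]
    have : |s - 1 / 2| ≤ 3 / 2 := abs_le.2 ⟨by linarith [hs.1], by linarith [hs.2]⟩
    have h2 : ε * |s - 1 / 2| ≤ ε * (3 / 2) := mul_le_mul_of_nonneg_left this hεpos.le
    rw [hε] at h2 ⊢
    linarith
  have k1a : ∀ t, |t| ≤ η₀ → κ₁ (a + t - b) = 0 := by
    intro t ht
    apply k1z
    have := abs_le.1 ht
    rw [abs_of_neg (by linarith)]
    linarith
  refine ⟨ε, ε, κ, cht cc c0 v₀ m ε ε, x, hxs, hall, hloop, ?_, ?_⟩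
  · intro q s
    simp only [hx, xl, sub_zero, one_smul, zero_smul, add_zero]
    rfl
  · have h1mem : (1 : ℝ) ∈ Icc (0 : ℝ) 1 := ⟨zero_le_one, le_rfl⟩
    refine
      { smooth := ?_
        froz := fun q hq s hs => hfroz 1 q s hs
        inU := fun q hq => (hall 1 h1mem q hq).2.1
        imm := fun q hq => (hall 1 h1mem q hq).2.2.2
        inj := fun q hq => (hall 1 h1mem q hq).2.2.1
        loop := hloop 1
        εpos := hεpos
        νpos := hεpos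
        ha := by rw [hε]; linarith
        hab := by rw [hε]; linarith
        hb := by rw [hε]; linarith
        κs := k2s.comp (contDiff_const.mul (contDiff_id.sub contDiff_const))
        κ01 := fun s => k2i _
        κh := ?_
        κ0 := ?_
        emb := hT2'.1
        TU := fun p hp => (hM2 (hT2'.2 hp)).1
        c0 := ?_
        c1 := ?_
        cw := ?_
        only := ?_
        const := ?_ }
    · exact hxs.comp ((contDiff_const.prodMk contDiff_fst).prodMk contDiff_snd)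
    · simp only [hκ, sub_self, mul_zero]
      exact k2o 0 (by rw [abs_zero]; linarith)
    · intro s hs
      apply k2z
      rw [abs_mul, abs_of_pos hεpos]
      have : 1 / 2 ≤ |s - 1 / 2| := by
        rcases hs with hs | hs
        · rw [abs_of_neg (by linarith)]
          linarith
        · rw [abs_of_pos (by linarith)]
          linarith
      have h3 := mul_le_mul_of_nonneg_left this hεpos.le
      linarith only [h3]
    · intro s hs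
      rw [V1, hx10, k1a _ ((hrange s hs).trans (by linarith)), zero_smul, sub_zero]
      rfl
    · intro s hs
      rw [V2, hx10, show b + ε * (s - 1 / 2) - b = ε * (s - 1 / 2) by ring,
        k1o _ ((hrange s hs).trans (by linarith)), one_smul]
      simp only [hcc, cc_L5, hv₀, add_sub_cancel_left]
      rfl
    · intro q _ s hs
      rw [V3, hx1, show b + ε * (s - 1 / 2) - b = ε * (s - 1 / 2) by ring,
        k1o _ ((hrange s hs).trans (by linarith)), one_smul]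
      have e : v₀ + m + κ s • (circ v₀ m q - (v₀ + m)) - (u₀, q₀) =
          m + κ₂ (ε * (s - 1 / 2)) • (vq_L5 m q - m) := by
        have e1 : circ v₀ m q - (v₀ + m) = vq_L5 m q - m := by
          simp only [circ, vq_L5]
          abel
        rw [e1, ← hv₀]
        simp only [hκ]
        abel
      simp only [hcc, cc_L5, e]
      rfl
    · intro p hp s hs hps
      by_cases h1 : |s - a| ≤ η₀
      · left
        have hk : κ₁ (s - b) = 0 := by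
          have := k1a (s - a) h1
          rwa [show a + (s - a) - b = s - b by ring] at this
        rw [hx10, hk, zero_smul, sub_zero] at hps
        have hps' : cht cc c0 v₀ m ε ε p = c0 (s - a) := by
          rw [hps]
          simp [hc0, c0_L5]
        obtain ⟨g1, g2⟩ := (V4 hI1 hT1'.2 p hp).1 (s - a) (h1.trans h01) hη₁.le hps'
        exact ⟨congrArg Prod.snd g1, by linarith⟩
      · by_cases h2 : |s - b| ≤ η₀
        · right
          set β := s - b with hβ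
          have hz : ((v₀ + κ₁ β • m, β, 0) : (ℝ × ℝ) × ℝ × ℝ) ∈ box v₀ η₁ := by
            have e : ((v₀ + κ₁ β • m, β, 0) : (ℝ × ℝ) × ℝ × ℝ) - (v₀, 0, 0) =
                ((κ₁ β • m, β, 0) : (ℝ × ℝ) × ℝ × ℝ) := by simp
            change ‖((v₀ + κ₁ β • m, β, 0) : (ℝ × ℝ) × ℝ × ℝ) - (v₀, 0, 0)‖ ≤ η₁
            rw [e, Prod.norm_def]
            refine max_le ?_ ?_
            · change ‖κ₁ β • m‖ ≤ η₁
              rw [norm_smul, Real.norm_eq_abs, abs_of_nonneg (k1i β).1]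
              have h3 := mul_le_mul_of_nonneg_right (k1i β).2 (norm_nonneg m)
              rw [one_mul] at h3
              linarith only [h3, hmη, hη0, h01, hηpos]
            · rw [Prod.norm_def]
              refine max_le ?_ ?_
              · exact h2.trans h01
              · simp only [norm_zero]
                exact hη₁.le
          have hy : yc cc c0 (lam v₀ m ε ε p) = yc cc c0 (v₀ + κ₁ β • m, β, 0) := by
            change cht cc c0 v₀ m ε ε p = _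
            rw [hps, hx10]
            simp only [yc, sub_self, add_zero, hcc, cc_L5, hv₀, add_sub_cancel_left, map_smul]
            rw [show b + β = s by rw [hβ]; ring]
          have hl := hI1 (hT1'.2 hp) hz hy
          have l1 : v₀ + mulc m (p.2.1, p.2.2.im) = v₀ + κ₁ β • m := congrArg Prod.fst hl
          have l2 : ε * ((p.1 - 1 / 2) * p.2.1 + p.2.2.re) = β :=
            congrArg (fun z : (ℝ × ℝ) × ℝ × ℝ => z.2.1) hl
          have l3 : ε * ((p.1 - 1 / 2) * (1 - p.2.1) - p.2.2.re) = 0 :=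
            congrArg (fun z : (ℝ × ℝ) × ℝ × ℝ => z.2.2) hl
          have l1' : mulc m ((p.2.1, p.2.2.im) - (κ₁ β, 0)) = 0 := by
            rw [mulc_sub_L5, mulc_one_L5, add_left_cancel l1, sub_self]
          have l4 := mulc_inj_L5 hm l1'
          have ha' : p.2.1 = κ₁ β := sub_eq_zero.1 (congrArg Prod.fst l4)
          have hh : p.2.2.im = 0 := by
            have : p.2.2.im - 0 = 0 := congrArg Prod.snd l4
            linarith
          have hX' : p.2.2.re = (p.1 - 1 / 2) * (1 - p.2.1) := by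
            have := (mul_eq_zero.1 l3).resolve_left hεpos.ne'
            linarith
          have hβ' : β = ε * (p.1 - 1 / 2) := by
            rw [← l2, hX']
            ring
          have hκ1 : κ₁ β = 1 := by
            apply k1o
            rw [hβ']
            exact (hrange p.1 ⟨hp.1, hp.2.1⟩).trans (by linarith)
          rw [hκ1] at ha'
          have hX0 : p.2.2.re = 0 := by rw [hX', ha']; ring
          refine ⟨Prod.ext ?_ (Complex.ext ?_ ?_), by linarith⟩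
          · simpa [e1] using ha'
          · simpa [e1] using hX0
          · simpa [e1] using hh
        · exfalso
          have hO' := (hM2 (hT2'.2 hp)).2
          apply hO'
          refine ⟨s, ⟨hs, (not_le.1 h1).le, (not_le.1 h2).le⟩, ?_⟩
          have hk : κ₁ (s - b) = 0 := k1z _ (by linarith [not_le.1 h2])
          rw [hx10, hk, zero_smul, sub_zero] at hps
          exact hps.symm
    · intro q _ s hs
      have hk : κ₂ (s - b) = 0 := by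
        apply k2z
        rcases hs with hs | hs
        · rw [abs_of_neg (by linarith)]
          linarith
        · rw [abs_of_pos (by linarith)]
          linarith
      rw [hx10, hx1, hk, zero_smul, add_zero]

end Pool.Agent.Helper34.BI.H


end

/-! ## Helper34.BI.H.M_XG5 -/

section

/-!
# Project BI, stage 3, section 5, module XG5: the germ of the crossing
-/

set_option autoImplicit false

open Module Set Filter Topology
open scoped ContDiff Manifold ComplexConjugate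
open Pool.Agent.Helper65.Barb Pool.Agent.Helper18.BI Pool.Agent.Helper27.BI
open Pool.Agent.Helper27.H (ArcD LIso LPush Fam2 Q2 SuppU thk seg)
open Pool.Agent.Helper70.BI (I4 LD ld_iff ld_comp ld_dfam)

namespace Pool.Agent.Helper34.BI.H

namespace XG5

/-- `refh` as a linear map -/
private noncomputable def L : R4 →L[ℝ] R4 :=
  (ContinuousLinearMap.id ℝ ℝ).prodMap ((ContinuousLinearMap.id ℝ ℝ).prodMap
    (Complex.conjCLE : ℂ →L[ℝ] ℂ))

private theorem refh_eq : refh = fun p => L p := rfl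

private theorem inv (p : R4) : refh (refh p) = p := by simp [refh]

private theorem det_conj : LinearMap.det ((Complex.conjCLE : ℂ →L[ℝ] ℂ) : ℂ →ₗ[ℝ] ℂ) = -1 :=
  Complex.det_conjAe

private theorem det_L : L.det = -1 := by
  have h : (L : R4 →ₗ[ℝ] R4) = (LinearMap.id : ℝ →ₗ[ℝ] ℝ).prodMap
      ((LinearMap.id : ℝ →ₗ[ℝ] ℝ).prodMap ((Complex.conjCLE : ℂ →L[ℝ] ℂ) : ℂ →ₗ[ℝ] ℂ)) := rfl
  rw [ContinuousLinearMap.det, h, LinearMap.det_prodMap, LinearMap.det_prodMap, det_conj,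
    LinearMap.det_id]
  norm_num

private theorem det_comp' (A B : R4 →L[ℝ] R4) : (A.comp B).det = A.det * B.det := by
  rw [ContinuousLinearMap.det, ContinuousLinearMap.det, ContinuousLinearMap.det,
    ContinuousLinearMap.toLinearMap_comp, LinearMap.det_comp]

private theorem der (p : R4) : HasFDerivAt refh L p := by
  rw [refh_eq]
  exact L.hasFDerivAt

private theorem ld (p : R4) : LD refh p := by
  rw [ld_iff]
  refine ⟨Eventually.of_forall fun q => ?_, ?_⟩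
  · rw [refh_eq]
    exact L.contDiff.contDiffAt
  · rw [(der p).fderiv]
    intro x y hxy
    have h : refh x = refh y := hxy
    rw [← inv x, h, inv]

private theorem injective : Function.Injective refh := fun x y hxy => by
  rw [← inv x, hxy, inv]

private theorem rsq_h (c : ℝ) (p : R4) : rsq c (refh p) = rsq c p := by
  simp [rsq, nsq, refh]

private theorem fd {F : R4 → R4} {p : R4} (hF : LD F (refh p)) :
    fderiv ℝ (fun p => F (refh p)) p = (fderiv ℝ F (refh p)).comp L := by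
  have h1 : DifferentiableAt ℝ F (refh p) :=
    ((ld_iff.1 hF).1.self_of_nhds).differentiableAt (by simp)
  exact (h1.hasFDerivAt.comp p (der p)).fderiv

private theorem det_ne {F : R4 → R4} {p : R4} (h : LD F p) : (fderiv ℝ F p).det ≠ 0 := by
  have h1 := (ld_iff.1 h).2
  have h2 : LinearMap.ker (fderiv ℝ F p : R4 →ₗ[ℝ] R4) = ⊥ :=
    LinearMap.ker_eq_bot.2 h1
  intro h0
  have h3 : LinearMap.det (fderiv ℝ F p : R4 →ₗ[ℝ] R4) = 0 := h0
  have h4 := LinearMap.bot_lt_ker_of_det_eq_zero h3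
  rw [h2] at h4
  exact lt_irrefl _ h4

private theorem ballm {p : R4} (hp : p ∈ ball4) : refh p ∈ ball4 :=
  ⟨hp.1, hp.2.1, by rw [rsq_h]; exact hp.2.2⟩

private theorem fst_FB {p : R4} (hp : p ∈ FB) : p.1 = 1 / 2 := by
  rcases hp with (hp | hp) | hp
  · exact hp.1
  · exact hp.1
  · exact hp.1

private theorem FBball {p : R4} (hp : p ∈ FB) : p ∈ ball4 := by
  have h0 := fst_FB hp
  have key : rsq 0 p ≤ (9 / 2) ^ 2 := by
    rcases hp with (hp | hp) | hp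
    · have h1 : rsq 0 p ≤ 1 / 25 := hp.2
      linarith
    · have h1 : rsq 1 p ≤ 1 / 25 := hp.2
      simp only [rsq, nsq] at h1 ⊢
      nlinarith [sq_nonneg (p.2.1 - 1), sq_nonneg p.2.2.re, sq_nonneg p.2.2.im,
        sq_nonneg (p.2.1 - 2)]
    · obtain ⟨-, h1, h2, h3⟩ := hp
      simp only [rsq, nsq, h3, Complex.zero_re, Complex.zero_im]
      nlinarith
  refine ⟨?_, ?_, key⟩
  · rw [h0]; norm_num
  · rw [h0]; norm_num

private theorem FBh {p : R4} (hp : p ∈ FB) : refh p ∈ FB := by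
  rcases hp with (hp | hp) | hp
  · exact Or.inl (Or.inl ⟨hp.1, by rw [rsq_h]; exact hp.2⟩)
  · exact Or.inl (Or.inr ⟨hp.1, by rw [rsq_h]; exact hp.2⟩)
  · exact Or.inr ⟨hp.1, hp.2.1, hp.2.2.1, by simp [refh, hp.2.2.2]⟩

private theorem ld_mono {F : R4 → R4} {A B : Set R4} (h : EmbOn I4 F A) (hs : ∀ p ∈ B, p ∈ A) :
    EmbOn I4 F B := ⟨fun p hp => h.1 p (hs p hp), h.2.mono hs⟩

private theorem thk_core (D : ArcD) (y : ℝ → R4) {s : ℝ} (hs : s ∈ Icc D.s₀ D.s₁) :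
    thk D.J D.c y (s, 0) = y s := by
  unfold thk
  have h0 : fderiv ℝ D.J (s, 0) ((0 : ℝ), (0 : ℝ × ℂ)) = 0 := by
    have : (((0 : ℝ), (0 : ℝ × ℂ)) : R4) = 0 := rfl
    rw [this, map_zero]
  simp only [h0, map_zero, add_zero]
  rw [D.core s hs]
  abel

end XG5

open XG5 in
theorem m_XG5 : StXG5 := by
  intro D a b ε ν κ T y h Ψ Ψ' hL hΨ hΨ'
  obtain ⟨F, hF0, -, ⟨K, -, hKU, hK⟩, N, hNo, hLN, hN⟩ := hL
  have hΨF : ∀ x, Ψ x = F.f (0, x) := fun x => (hF0 x).symm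
  have hΨF' : ∀ x, Ψ' x = F.g (0, x) := fun x => by
    have h1 := hΨ' (F.g (0, x))
    rw [hΨF, F.fg] at h1
    exact h1
  -- `Ψ'` is a local diffeomorphism
  have ldΨ' : ∀ x, LD Ψ' x := by
    intro x
    have h1 := ld_dfam ⟨F.g, F.f, F.smooth_g, F.smooth_f, F.gf, F.fg⟩ 0 x
    have h2 : Ψ' = fun q => F.g (0, q) := funext hΨF'
    rw [h2]
    exact h1
  have injΨ' : Function.Injective Ψ' := fun x z hxz => by rw [← hΨ x, hxz, hΨ]
  -- the cores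
  have hcore : ∀ s ∈ Icc D.s₀ D.s₁, Ψ (D.J (s, 0)) = y 0 s := by
    intro s hs
    have h1 := hN 0 (s, 0) (hLN ⟨hs.1, hs.2, rfl⟩)
    rw [hΨF, h1, thk_core D (y 0) hs]
  have hcore' : ∀ s ∈ Icc D.s₀ D.s₁, Ψ' (y 0 s) = D.J (s, 0) := by
    intro s hs
    rw [← hcore s hs, hΨ']
  have hU : ∀ x ∈ D.U, Ψ' x ∈ D.U := by
    intro x hx
    by_contra hn
    have h1 : Ψ' x ∉ K := fun hk => hn (hKU hk)
    have h2 := hK 0 _ h1
    rw [← hΨF, hΨ] at h2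
    exact hn (h2 ▸ hx)
  have hemb : EmbOn I4 (fun p => Ψ' (T p)) ball4 :=
    ⟨fun p hp => ld_comp (h.emb.1 p hp) (ldΨ' (T p)), fun p hp q hq he =>
      h.emb.2 hp hq (injΨ' he)⟩
  have hmaps : MapsTo (fun p => Ψ' (T p)) ball4 D.U := fun p hp => hU _ (h.TU hp)
  have honly : ∀ p ∈ ball4, Ψ' (T p) ∈ D.A → p.2 = 0 ∨ p.2 = e1 := by
    intro p hp hA
    obtain ⟨p', ⟨h1, h2, h3⟩, h4⟩ := hA
    have h5 : p' = (p'.1, 0) := by rw [← h3]
    rw [h5] at h4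
    have h6 : T p = y 0 p'.1 := by
      rw [← hcore p'.1 ⟨h1, h2⟩, h4, hΨ]
    rcases h.only p hp p'.1 ⟨h1, h2⟩ h6 with h7 | h7
    · exact Or.inl h7.1
    · exact Or.inr h7.1
  refine ⟨hemb, hmaps, honly, ?_⟩
  have hε := h.εpos
  have hν := h.νpos
  have ha := h.ha
  have hab := h.hab
  have hb := h.hb
  -- the strands
  have hev : ∀ᶠ s in 𝓝 (1 / 2 : ℝ), s ∈ Icc (-1 : ℝ) 2 :=
    Icc_mem_nhds (by norm_num) (by norm_num)
  have str0 : ∀ s ∈ Icc (-1 : ℝ) 2, Ψ' (T (s, ((0 : ℝ), (0 : ℂ)))) =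
      D.J (a + ε * (s - 1 / 2), 0) := by
    intro s hs
    have h1 : T (s, ((0 : ℝ), (0 : ℂ))) = y 0 (a + ε * (s - 1 / 2)) := h.c0 s hs
    have h2 : ε * (s - 1 / 2) ≤ ε * (3 / 2) := by
      apply mul_le_mul_of_nonneg_left _ hε.le
      linarith [hs.2]
    have h3 : ε * (-(3 / 2)) ≤ ε * (s - 1 / 2) := by
      apply mul_le_mul_of_nonneg_left _ hε.le
      linarith [hs.1]
    rw [h1, hcore' _ ⟨by linarith, by linarith⟩]
  have str1 : ∀ s ∈ Icc (-1 : ℝ) 2, Ψ' (T (s, ((1 : ℝ), (0 : ℂ)))) =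
      D.J (b + ν * (s - 1 / 2), 0) := by
    intro s hs
    have h1 : T (s, ((1 : ℝ), (0 : ℂ))) = y 0 (b + ν * (s - 1 / 2)) := h.c1 s hs
    have h2 : ν * (s - 1 / 2) ≤ ν * (3 / 2) := by
      apply mul_le_mul_of_nonneg_left _ hν.le
      linarith [hs.2]
    have h3 : ν * (-(3 / 2)) ≤ ν * (s - 1 / 2) := by
      apply mul_le_mul_of_nonneg_left _ hν.le
      linarith [hs.1]
    rw [h1, hcore' _ ⟨by linarith, by linarith⟩]
  have hpt : ∀ p : R4, p.1 = 1 / 2 → (p.2 = 0 ∨ p.2 = e1) →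
      p = (1 / 2, ((0 : ℝ), (0 : ℂ))) ∨ p = (1 / 2, ((1 : ℝ), (0 : ℂ))) := by
    rintro ⟨s, x⟩ h1 (h2 | h2)
    · left
      simp only at h1 h2
      rw [h1, h2]
      rfl
    · right
      simp only at h1 h2
      rw [h1, h2]
      rfl
  have dσ : deriv (fun s : ℝ => a + ε * (s - 1 / 2)) (1 / 2) = ε := by
    have : HasDerivAt (fun s : ℝ => a + ε * (s - 1 / 2)) (ε * 1) (1 / 2) :=
      (((hasDerivAt_id (1 / 2 : ℝ)).sub_const _).const_mul ε).const_add a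
    rw [this.deriv, mul_one]
  have dτ : deriv (fun s : ℝ => b + ν * (s - 1 / 2)) (1 / 2) = ν := by
    have : HasDerivAt (fun s : ℝ => b + ν * (s - 1 / 2)) (ν * 1) (1 / 2) :=
      (((hasDerivAt_id (1 / 2 : ℝ)).sub_const _).const_mul ν).const_add b
    rw [this.deriv, mul_one]
  have hp0 : ((1 / 2, ((0 : ℝ), (0 : ℂ))) : R4) ∈ ball4 := by
    refine ⟨by norm_num, by norm_num, ?_⟩
    simp only [rsq, nsq, Complex.zero_re, Complex.zero_im]
    norm_num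
  -- the two determinants
  have hd1 : (fderiv ℝ (fun p => Ψ' (T p)) (1 / 2, ((0 : ℝ), (0 : ℂ)))).det ≠ 0 :=
    det_ne (hemb.1 _ hp0)
  have haI : a ∈ Icc D.s₀ D.s₁ := ⟨by linarith, by linarith⟩
  have hd2 : (fderiv ℝ D.J (a, 0)).det ≠ 0 := det_ne (D.emb.1 _ ⟨haI.1, haI.2, rfl⟩)
  -- the general statement
  have gen : ∀ S : R4 → R4, EmbOn I4 S ball4 → MapsTo S ball4 D.U →
      (∀ p ∈ ball4, S p ∈ D.A → p.2 = 0 ∨ p.2 = e1) →
      (∀ s ∈ Icc (-1 : ℝ) 2, S (s, ((0 : ℝ), (0 : ℂ))) = D.J (a + ε * (s - 1 / 2), 0)) →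
      (∀ s ∈ Icc (-1 : ℝ) 2, S (s, ((1 : ℝ), (0 : ℂ))) = D.J (b + ν * (s - 1 / 2), 0)) →
      0 < (fderiv ℝ S (1 / 2, ((0 : ℝ), (0 : ℂ)))).det * (fderiv ℝ D.J (a, 0)).det →
      D.XG S := by
    intro S e1' e2 e3 e4 e5 e6
    refine ⟨ld_mono e1' fun p hp => FBball hp, fun p hp => e2 (FBball hp), fun p hp hA =>
      hpt p (fst_FB hp) (e3 p (FBball hp) hA), fun s => a + ε * (s - 1 / 2),
      fun s => b + ν * (s - 1 / 2), by fun_prop, by fun_prop, ?_, ?_, ?_, ?_, ?_, ?_, ?_, ?_⟩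
    · rw [dσ]; exact hε
    · rw [dτ]; exact hν
    · simp only [sub_self, mul_zero, add_zero]; linarith
    · simp only [sub_self, mul_zero, add_zero]; linarith
    · simp only [sub_self, mul_zero, add_zero]; linarith
    · filter_upwards [hev] with s hs
      exact e4 s hs
    · filter_upwards [hev] with s hs
      exact e5 s hs
    · simp only [sub_self, mul_zero, add_zero]
      exact e6
  rcases lt_or_gt_of_ne (mul_ne_zero hd1 hd2) with hneg | hpos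
  · right
    refine gen (fun p => Ψ' (T (refh p))) ?_ ?_ ?_ ?_ ?_ ?_
    · exact ⟨fun p hp => ld_comp (F := fun p => Ψ' (T p)) (m := refh) (ld p)
        (hemb.1 _ (ballm hp)), fun p hp q hq he =>
        injective (hemb.2 (ballm hp) (ballm hq) he)⟩
    · exact fun p hp => hmaps (ballm hp)
    · intro p hp hA
      rcases honly _ (ballm hp) hA with h1 | h1
      · left
        have h2 : (refh p).2 = (refh (p.1, 0)).2 := by rw [h1]; simp [refh]; rfl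
        have h3 : refh p = refh (p.1, 0) := Prod.ext rfl h2
        have h4 := injective h3
        rw [h4]
      · right
        have h2 : (refh p).2 = (refh (p.1, e1)).2 := by rw [h1]; simp [refh, e1]
        have h3 : refh p = refh (p.1, e1) := Prod.ext rfl h2
        have h4 := injective h3
        rw [h4]
    · intro s hs
      have h1 : refh (s, ((0 : ℝ), (0 : ℂ))) = (s, ((0 : ℝ), (0 : ℂ))) := by simp [refh]
      simp only [h1]
      exact str0 s hs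
    · intro s hs
      have h1 : refh (s, ((1 : ℝ), (0 : ℂ))) = (s, ((1 : ℝ), (0 : ℂ))) := by simp [refh]
      simp only [h1]
      exact str1 s hs
    · have h1 : refh (1 / 2, ((0 : ℝ), (0 : ℂ))) = (1 / 2, ((0 : ℝ), (0 : ℂ))) := by simp [refh]
      have h2 : LD (fun p => Ψ' (T p)) (refh (1 / 2, ((0 : ℝ), (0 : ℂ)))) := by
        rw [h1]
        exact hemb.1 _ hp0
      have h3 := fd h2
      rw [h1] at h3
      rw [h3, det_comp', det_L]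
      linarith
  · left
    exact gen _ hemb hmaps honly str0 str1 hpos

end Pool.Agent.Helper34.BI.H


end
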