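import Pool.Agent.Helper65.Barb.Defs
import Pool.Agent.Helper70.BI.C.P31
import Pool.Agent.Helper70.BI.C.P37
import Pool.Agent.Helper70.BI.C.P43
import Pool.Agent.Helper70.BI.C.P44
import Pool.Agent.Helper70.BI.C.P45

/-!
# Project BI (MP_8e98f2_gt): collected modules, part 46

The contents of the modules
* Helper34.BI.H.M_CROSS
* Helper34.BI.H.M_TPU
* Helper34.BI.H.M_M5
* Helper34.BI.H.M_PHT
* Helper34.BI.H.M_SQ5
* Helper18.BI.R.M_MOVE
* Helper18.BI.R.M_REP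
* Helper2.BI5.M_TCF

in one file, so that the whole proof builds in a short time.
-/

namespace Pool.Agent.Helper18.BI
end Pool.Agent.Helper18.BI

namespace Pool.Agent.Helper18.BI.H
end Pool.Agent.Helper18.BI.H

namespace Pool.Agent.Helper27.BI
end Pool.Agent.Helper27.BI

namespace Pool.Agent.Helper27.H
end Pool.Agent.Helper27.H

namespace Pool.Agent.Helper65.Barb
end Pool.Agent.Helper65.Barb

namespace Pool.Agent.Helper70.BI
end Pool.Agent.Helper70.BI


/-! ## Helper34.BI.H.M_CROSS -/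

section

/-!
# Project BI, stage 3, section 5: the crossing theorem, assembly
-/

set_option autoImplicit false

open Module Set Filter Topology
open scoped ContDiff Manifold
open Pool.Agent.Helper65.Barb Pool.Agent.Helper18.BI Pool.Agent.Helper27.BI
open Pool.Agent.Helper27.H (ArcD LIso LPush Fam2 Q2 SuppU thk seg StCH4 StFRAME StTHK StPhi StCls
  StCROSS exists_lpush square4 isCompact_Q2 convex_Q2)
open Pool.Agent.Helper70.BI (I4)

namespace Pool.Agent.Helper34.BI.H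

namespace Cross

lemma norm_m {r : ℝ} (hr : 0 < r) : ‖((0, r) : ℝ × ℝ)‖ = r := by
  rw [Prod.norm_def]
  simp [abs_of_pos hr, hr.le]

lemma circ_zero (v₀ m : ℝ × ℝ) : circ v₀ m 0 = v₀ + m := by
  unfold circ mulc
  simp

section
variable (hCh : StCH4) (hFr : StFRAME) (hTh : StTHK) (hPhi : StPhi)
  (hSQ : StSQ5) (hM5 : StM5) (hXG : StXG5) (hPHT : StPHT) (hL5 : StL5)
include hCh hTh hPhi hSQ hM5 hXG hPHT hL5 hFr

theorem cross_aux (D : ArcD) (c : ℝ × ℝ × ℝ → R4) (u₀ q₀ a b : ℝ) (hc : D.Htpy c)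
    (hX : D.Xing c u₀ q₀ a b) (hImm : ∀ u ∈ Icc (0 : ℝ) 1, ∀ q ∈ Icc (0 : ℝ) 1, D.Imm c u q)
    (hInj : ∀ u ∈ Icc (0 : ℝ) 1, ∀ q ∈ Icc (0 : ℝ) 1, (u, q) ≠ (u₀, q₀) → D.Inj c u q)
    (hma : D.m₀ < a) (hbm : b < D.m₁) :
    ∃ T, D.XG T ∧ ∀ χ₀ χ₁ τ : R4 → R4, D.Cls (fun q s => c (0, q, s)) χ₀ →
      D.Cls (fun q s => c (1, q, s)) χ₁ → Thin I4 (fun p => D.e (T p)) τ →
      CIsot I4 χ₀ (fun x => τ (χ₁ x)) ∨ CIsot I4 χ₁ (fun x => τ (χ₀ x)) := by
  have hmu := hX.memu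
  have hmq := hX.memq
  obtain ⟨r₀, hr₀, h5⟩ := hL5 D c u₀ q₀ a b hc hX
    (hImm u₀ (Ioo_subset_Icc_self hmu) q₀ (Ioo_subset_Icc_self hmq)) hma hbm
  -- the radius
  obtain ⟨r, hr, h1, h2, h3, h4, h6⟩ : ∃ r > 0, r < r₀ ∧ 0 < u₀ - r ∧ u₀ + r < 1 ∧
      0 < q₀ - r ∧ q₀ + r < 1 := by
    refine ⟨min (r₀ / 2) (min (min (u₀ / 2) ((1 - u₀) / 2)) (min (q₀ / 2) ((1 - q₀) / 2))), ?_, ?_⟩
    · have := hmu.1
      have := hmu.2
      have := hmq.1
      have := hmq.2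
      refine lt_min (by linarith) (lt_min (lt_min ?_ ?_) (lt_min ?_ ?_)) <;> linarith
    · have := hmu.1
      have := hmu.2
      have := hmq.1
      have := hmq.2
      have k1 := min_le_left (r₀ / 2) (min (min (u₀ / 2) ((1 - u₀) / 2)) (min (q₀ / 2) ((1 - q₀) / 2)))
      have k2 := min_le_right (r₀ / 2) (min (min (u₀ / 2) ((1 - u₀) / 2)) (min (q₀ / 2) ((1 - q₀) / 2)))
      have k3 := k2.trans (min_le_left _ _)
      have k4 := k2.trans (min_le_right _ _)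
      have k5 := k3.trans (min_le_left _ _)
      have k6 := k3.trans (min_le_right _ _)
      have k7 := k4.trans (min_le_left _ _)
      have k8 := k4.trans (min_le_right _ _)
      refine ⟨?_, ?_, ?_, ?_, ?_⟩ <;> linarith
  have hm0 : ((0, r) : ℝ × ℝ) ≠ 0 := by
    intro h
    have : r = 0 := congrArg Prod.snd h
    exact hr.ne' this
  obtain ⟨ε, ν, κ, T, x, hxs, hx, hloop, hx0, hM⟩ := h5 (0, r) hm0 (by rwa [norm_m hr])
  -- the family
  have hfam : Fam2 Q2 D.L D.V D.U (fun a => thk D.J D.c (x a.1 a.2)) :=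
    (hTh Q2 D.s₀ D.m₀ D.m₁ D.s₁ D.U D.J D.c (fun a s => x a.1 a.2 s) D.h₀ D.h₁ D.h₂ D.openU D.emb
      D.smooth D.core hxs
      (fun a ha s hs => (hx a.1 ha.1 a.2 ha.2).1 s hs)
      (fun a ha s hs => (hx a.1 ha.1 a.2 ha.2).2.1 s hs)
      (fun a ha => (hx a.1 ha.1 a.2 ha.2).2.2.1)
      (fun a ha s hs => (hx a.1 ha.1 a.2 ha.2).2.2.2 s hs)).1
  have m00 : ((0 : ℝ), (0 : ℝ)) ∈ Q2 := by simp [Q2]
  have m01 : ((0 : ℝ), (1 : ℝ)) ∈ Q2 := by simp [Q2]
  have m10 : ((1 : ℝ), (0 : ℝ)) ∈ Q2 := by simp [Q2]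
  have m11 : ((1 : ℝ), (1 : ℝ)) ∈ Q2 := by simp [Q2]
  obtain ⟨R, hR⟩ := exists_lpush hCh D.isCompact_L D.isOpen_V D.openU isCompact_Q2 convex_Q2 hfam
    m00 m10
  obtain ⟨C, hC⟩ := exists_lpush hCh D.isCompact_L D.isOpen_V D.openU isCompact_Q2 convex_Q2 hfam
    m00 m01
  obtain ⟨C₁, hC₁⟩ := exists_lpush hCh D.isCompact_L D.isOpen_V D.openU isCompact_Q2 convex_Q2 hfam
    m10 m11
  replace hR : LPush D.U D.L (fun l => thk D.J D.c (x l 0)) R :=
    hR.congr ⟨univ, isOpen_univ, subset_univ _, fun q _ p _ => by simp⟩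
  replace hC : LPush D.U D.L (fun q => thk D.J D.c (x 0 q)) C :=
    hC.congr ⟨univ, isOpen_univ, subset_univ _, fun q _ p _ => by simp⟩
  replace hC₁ : LPush D.U D.L (fun q => thk D.J D.c (x 1 q)) C₁ :=
    hC₁.congr ⟨univ, isOpen_univ, subset_univ _, fun q _ p _ => by simp⟩
  have hR1 : LPush D.U D.L (fun l => thk D.J D.c (x l 1)) R := by
    simp only [hloop]
    exact hR
  have sq1 := square4 hCh D.isCompact_L D.isOpen_V D.openU
    (J := fun l q => thk D.J D.c (x l q)) hfam hC hR1 hR hC₁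
  simp only [hloop] at sq1
  -- the local model
  have hB := hM5 D a b ε ν κ T (x 1) hM C₁ hC₁
  obtain ⟨R', hR', hRR, hR'R⟩ := hR.lIso.exists_inv
  -- `C ~ R' ∘ imp T ball4 barMap ∘ R`
  have hCC : LIso D.U D.L (thk D.J D.c (x 0 0)) (thk D.J D.c (x 0 0)) C
      (fun y => R' (imp T ball4 barMap (R y))) := by
    have e1 : LIso D.U D.L (thk D.J D.c (x 0 0)) (thk D.J D.c (x 0 0))
        (fun y => R' (R (C y))) (fun y => R' (C₁ (R y))) := hR'.comp sq1
    have e2 : LIso D.U D.L (thk D.J D.c (x 0 0)) (thk D.J D.c (x 0 0))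
        (fun y => R' (C₁ (R y))) (fun y => R' (imp T ball4 barMap (R y))) :=
      hR'.comp (hB.symm.comp hR.lIso)
    exact (e1.trans e2).congr_fun (fun y => hR'R _) (fun y => rfl)
  -- the pushes along the two edges
  obtain ⟨E₀, χ₀', hE₀, hE₀', hE₀χ⟩ := Pool.Agent.Helper27.H.can_exists hCh hTh hPhi D hc
    (u := 0) (by simp) (fun q hq => ⟨hImm 0 (by simp) q hq, hInj 0 (by simp) q hq (fun h => by
      have := congrArg Prod.fst h
      simp only at this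
      linarith [hmu.1])⟩)
  obtain ⟨E₁, χ₁', hE₁, hE₁', hE₁χ⟩ := Pool.Agent.Helper27.H.can_exists hCh hTh hPhi D hc
    (u := 1) (by simp) (fun q hq => ⟨hImm 1 (by simp) q hq, hInj 1 (by simp) q hq (fun h => by
      have := congrArg Prod.fst h
      simp only at this
      linarith [hmu.2])⟩)
  have hcls0 := Pool.Agent.Helper27.H.can_cls hTh D hc (u := 0) (by simp) (fun q hq =>
    ⟨hImm 0 (by simp) q hq, hInj 0 (by simp) q hq (fun h => by
      have := congrArg Prod.fst h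
      simp only at this
      linarith [hmu.1])⟩) hE₀ hE₀χ
  have hcls1 := Pool.Agent.Helper27.H.can_cls hTh D hc (u := 1) (by simp) (fun q hq =>
    ⟨hImm 1 (by simp) q hq, hInj 1 (by simp) q hq (fun h => by
      have := congrArg Prod.fst h
      simp only at this
      linarith [hmu.2])⟩) hE₁ hE₁χ
  have hCk : LPush D.U D.L (fun q => kk D c (circ (u₀, q₀) (0, r) q)) C := by
    refine hC.congr ⟨univ, isOpen_univ, subset_univ _, fun q _ p _ => ?_⟩
    unfold kk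
    have : x 0 q = fun s => c ((circ (u₀, q₀) (0, r) q).1, (circ (u₀, q₀) (0, r) q).2, s) :=
      funext fun s => hx0 q s
    rw [this]
  obtain ⟨B, B', hBl, hBB, hB'B, hE⟩ := hSQ D c u₀ q₀ r hc hImm hInj hr h2 h3 h4 h6 E₀ E₁ C
    hE₀ hE₁ hCk
  have hk0 : kk D c (circ (u₀, q₀) (0, r) 0) = thk D.J D.c (x 0 0) := by
    unfold kk
    have : x 0 0 = fun s => c ((circ (u₀, q₀) (0, r) 0).1, (circ (u₀, q₀) (0, r) 0).2, s) :=
      funext fun s => hx0 0 s
    rw [this]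
  rw [hk0] at hBl
  have hBl' : LIso D.U D.L (thk D.J D.c (x 0 0)) D.J B' B' := hBl.inv hBB hBB
  -- the conjugating map
  let Ψ : R4 → R4 := fun y => R (B y)
  let Ψ' : R4 → R4 := fun y => B' (R' y)
  have hΨ : LIso D.U D.L D.J (thk D.J D.c (x 1 0)) Ψ Ψ := hR.lIso.comp hBl
  have hΨΨ' : ∀ y, Ψ (Ψ' y) = y := fun y => by
    change R (B (B' (R' y))) = y
    rw [hBB, hRR]
  have hΨ'Ψ : ∀ y, Ψ' (Ψ y) = y := fun y => by
    change B' (R' (R (B y))) = y
    rw [hR'R, hB'B]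
  obtain ⟨hT1, hT2', hT3', hT4'⟩ := hXG D a b ε ν κ T (x 1) hM Ψ Ψ' hΨ hΨΨ' hΨ'Ψ
  obtain ⟨p1, p2, p3⟩ := hPHT D (fun p => Ψ' (T p)) hT1 hT2' hT3'
  -- the relation between the two edges
  have himp : ∀ y, imp (fun p => Ψ' (T p)) ball4 barMap y = Ψ' (imp T ball4 barMap (Ψ y)) :=
    (hImp R4 R4 I4 R4 T ball4 barMap hM.emb.2).2.2.2.2.2.2.1 Ψ' Ψ hΨ'Ψ hΨΨ'
  have hE2 : LIso D.U D.L D.J D.J E₁
      (fun y => imp (fun p => Ψ' (T p)) ball4 barMap (E₀ y)) := by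
    have e1 : LIso D.U D.L D.J D.J (fun y => B' (C (B (E₀ y))))
        (fun y => B' (R' (imp T ball4 barMap (R (B (E₀ y)))))) :=
      hBl'.comp (hCC.comp (hBl.comp hE₀'))
    exact (hE.trans e1).congr_fun (fun y => rfl) (fun y => (himp (E₀ y)).symm)
  have hu := fun χ χ' h h' => Pool.Agent.Helper27.H.cls_unique hFr hPhi D
    (c := fun q s => c (0, q, s)) (χ := χ) (χ' := χ') h h'
  have hu1 := fun χ χ' h h' => Pool.Agent.Helper27.H.cls_unique hFr hPhi D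
    (c := fun q s => c (1, q, s)) (χ := χ) (χ' := χ') h h'
  obtain ⟨-, ci2, ci3, ci4, ci5, -⟩ := hCI R4 R4 I4 R4
  obtain ⟨f1, f2, f3, f4, f5, f6, f7⟩ := hPhi D
  rcases hT4' with hG | hG
  · refine ⟨_, hG, fun χ₀ χ₁ τ hχ₀ hχ₁ hτ => Or.inr ?_⟩
    have g1 := p2 τ hτ
    have g2 := f4 _ _ _ _ p1 hE₀' g1 hE₀χ
    have g3 := f1 _ _ _ hE2.symm g2
    have g4 : CIsot I4 χ₁' (fun x => τ (χ₀' x)) := f3 _ _ _ hE₁' hE₁χ g3
    have g5 : CIsot I4 (fun x => τ (χ₀' x)) (fun x => τ (χ₀ x)) :=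
      ci5 _ _ _ _ (f7 _ _ g1) (hu _ _ hcls0 hχ₀)
    exact ci4 _ _ _ (hu1 _ _ hχ₁ hcls1) (ci4 _ _ _ g4 g5)
  · refine ⟨_, hG, fun χ₀ χ₁ τ hχ₀ hχ₁ hτ => Or.inl ?_⟩
    -- the reflected chart
    have hmem : ∀ p ∈ ball4, refh p ∈ ball4 := by
      rintro p ⟨k1, k2, k3⟩
      exact ⟨k1, k2, by rwa [rsq_refh]⟩
    have hrc : ∀ p : R4, (refh p).2 = 0 ∨ (refh p).2 = e1 → p.2 = 0 ∨ p.2 = e1 := by
      intro p hp
      have hinv : p = refh (refh p) := (linvol_refh.inv p).symm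
      rcases hp with hp | hp
      · left
        rw [hinv]
        change ((refh p).2.1, _) = _
        rw [hp]
        simp
      · right
        rw [hinv]
        change ((refh p).2.1, _) = _
        rw [hp]
        simp [e1]
    have q0 : EmbOn I4 refh ball4 :=
      EmbOn.mono (emb_of_invol linvol_refh.toInvol) (subset_univ _)
    have q1 : EmbOn I4 (fun p => Ψ' (T (refh p))) ball4 :=
      EmbOn.comp (F := fun p => Ψ' (T p)) (k := refh) hT1 q0 hmem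
    obtain ⟨s1, s2, -⟩ := hPHT D (fun p => Ψ' (T (refh p))) q1 (fun p hp => hT2' (hmem p hp))
      (fun p hp h => hrc p (hT3' _ (hmem p hp) h))
    -- `B ∘ B₂ ~ id`, so `B₂ ∘ B ~ id`
    let P : R4 → R4 := imp (fun p => Ψ' (T p)) ball4 barMap
    let P₂ : R4 → R4 := imp (fun p => Ψ' (T (refh p))) ball4 barMap
    change LIso D.U D.L D.J D.J P P at p1
    change LIso D.U D.L D.J D.J P₂ P₂ at s1
    change LIso D.U D.L D.J D.J (fun y => P (P₂ y)) (fun y => y) at p3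
    change LIso D.U D.L D.J D.J E₁ (fun y => P (E₀ y)) at hE2
    obtain ⟨P', hP', hPP, hP'P⟩ := p1.exists_inv
    have t1 : LIso D.U D.L D.J D.J P₂ P' :=
      (hP'.comp p3).congr_fun (fun y => hP'P _) (fun y => rfl)
    have t2 : LIso D.U D.L D.J D.J (fun y => P₂ (E₁ y)) E₀ :=
      ((t1.comp hE2).congr_fun (fun y => rfl) (fun y => hP'P _))
    have g1 := s2 τ hτ
    have g2 := f4 _ _ _ _ s1 hE₁' g1 hE₁χ
    have g3 := f1 _ _ _ t2 g2
    have g4 : CIsot I4 χ₀' (fun x => τ (χ₁' x)) := f3 _ _ _ hE₀' hE₀χ g3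
    have g5 : CIsot I4 (fun x => τ (χ₁' x)) (fun x => τ (χ₁ x)) :=
      ci5 _ _ _ _ (f7 _ _ g1) (hu1 _ _ hcls1 hχ₁)
    exact ci4 _ _ _ (hu _ _ hχ₀ hcls0) (ci4 _ _ _ g4 g5)

theorem m_CROSS : StCROSS := by
  intro D c u₀ q₀ a b hc hX hImm hInj
  have ha := hX.mema
  have hb := hX.memb
  have hh₀ := D.h₀
  have hh₁ := D.h₁
  have hh₂ := D.h₂
  have k1 := min_le_left D.m₀ a
  have k2 := min_le_right D.m₀ a
  have k3 : D.s₀ < min D.m₀ a := lt_min hh₀ ha.1
  have k4 := le_max_left D.m₁ b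
  have k5 := le_max_right D.m₁ b
  have k6 : max D.m₁ b < D.s₁ := max_lt hh₂ hb.2
  let D' : ArcD := { D with
    m₀ := (D.s₀ + min D.m₀ a) / 2
    m₁ := (max D.m₁ b + D.s₁) / 2
    h₀ := by linarith
    h₁ := by linarith
    h₂ := by linarith }
  have hm₀ : D'.m₀ = (D.s₀ + min D.m₀ a) / 2 := rfl
  have hm₁ : D'.m₁ = (max D.m₁ b + D.s₁) / 2 := rfl
  have hc' : D'.Htpy c := by
    refine ⟨hc.smooth, fun u hu q hq s hs => ?_, fun u hu q hq s hs => ?_, hc.start, hc.stop⟩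
    · rw [hm₀, hm₁] at hs
      refine hc.froz u hu q hq s ?_
      rcases hs with hs | hs
      · left; linarith
      · right; linarith
    · rw [hm₀, hm₁] at hs
      by_cases h1 : s ∈ Icc D.m₀ D.m₁
      · exact hc.inU u hu q hq s h1
      · have h2 : s ≤ D.m₀ ∨ D.m₁ ≤ s := by
          by_contra hcon
          push Not at hcon
          exact h1 ⟨hcon.1.le, hcon.2.le⟩
        rw [hc.froz u hu q hq s h2]
        exact D.mem s ⟨by linarith [hs.1], by linarith [hs.2]⟩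
  have hX' : D'.Xing c u₀ q₀ a b :=
    ⟨hX.memu, hX.memq, hX.mema, hX.memb, hX.lt, hX.eq, hX.uniq, hX.trans⟩
  obtain ⟨T, hT, h⟩ := cross_aux hCh hFr hTh hPhi hSQ hM5 hXG hPHT hL5 D' c u₀ q₀ a b hc' hX'
    hImm hInj (by rw [hm₀]; linarith [ha.1]) (by rw [hm₁]; linarith [hb.2])
  exact ⟨T, ⟨hT.emb, hT.inU, hT.arc, hT.str⟩, h⟩

end

end Cross

end Pool.Agent.Helper34.BI.H


end

/-! ## Helper34.BI.H.M_TPU -/

section

/-!
# Project BI, stage 3, section 5: implanting in a chart (module TPU)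
-/

set_option autoImplicit false

open Module Set Filter Topology
open scoped ContDiff Manifold
open Pool.Agent.Helper65.Barb Pool.Agent.Helper18.BI Pool.Agent.Helper27.BI
open Pool.Agent.Helper27.H (ArcD LIso LPush Fam2 Q2 SuppU thk seg)
open Pool.Agent.Helper70.BI (I4)

namespace Pool.Agent.Helper34.BI.H

private theorem nsq_zero_TPU : nsq (0 : ℝ × ℂ) = 0 := by
  simp [nsq]

private theorem continuous_nsq_TPU : Continuous nsq := by
  unfold nsq
  fun_prop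

theorem m_TPU : StTPU := by
  intro U L J T hU hL hJ hT hTU hTJ
  obtain ⟨δ, hδs, hδ⟩ := m_A1 R4 R4 R4 𝓘(ℝ, R4) R4 T ball4 isCompact_ball4 hT.1 hT.2
  have hTc : ContinuousOn T ball4 := fun p hp =>
    (hT.1 p hp).contMDiffAt.continuousAt.continuousWithinAt
  refine ⟨fun F hF => ?_, fun ρ hρ => ?_⟩
  · obtain ⟨K, hK, hKb, hKF⟩ := hF
    have hsupp : ∀ t p, p ∉ ball4 → F.f (t, p) = p := fun t p hp =>
      hKF t p (fun h => hp (interior_subset (hKb h)))
    have hpush : ∀ t : ℝ, imp T ball4 (fun p => F.f (t, p)) = push δ (fun p => F.f (t, p)) :=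
      fun t => (m_Imp R4 R4 𝓘(ℝ, R4) R4 T ball4 (fun p => F.f (t, p)) hT.2).2.2.2.2.1 δ hδs
        (fun p hp => hδ p (hδs hp)) (fun p hp => F.mapsTo hsupp t hp) (fun p hp => hsupp t p hp)
    have him : δ '' ball4 = T '' ball4 := by
      apply image_congr
      intro p hp
      exact hδ p (hδs hp)
    refine ⟨F.push δ isCompact_ball4 hδs hsupp, ⟨δ '' ball4, ?_, ?_, ?_⟩, ?_, ?_⟩
    · exact isCompact_ball4.image_of_continuousOn (δ.contMDiffOn.continuousOn.mono hδs)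
    · rw [him]
      rintro _ ⟨p, hp, rfl⟩
      exact hTU hp
    · intro t x hx
      exact push_of_notMem δ _ hδs (fun p hp => hsupp t p hp) hx
    · intro t x hx
      rw [← him] at hx
      exact push_of_notMem δ _ hδs (fun p hp => hsupp t p hp) hx
    · intro t y
      rw [hpush t]
      rfl
  · set B : Set R4 := ball4 ∩ {p : R4 | ρ ^ 2 ≤ nsq p.2 ∧ ρ ^ 2 ≤ nsq (p.2 - e1)} with hB
    have hBc : IsCompact B := by
      apply isCompact_ball4.inter_right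
      apply IsClosed.inter
      · exact isClosed_le continuous_const (continuous_nsq_TPU.comp continuous_snd)
      · exact isClosed_le continuous_const
          (continuous_nsq_TPU.comp (continuous_snd.sub continuous_const))
    have hTB : IsClosed (T '' B) :=
      (hBc.image_of_continuousOn (hTc.mono inter_subset_left)).isClosed
    refine ⟨interior (J ⁻¹' (T '' B)ᶜ), isOpen_interior, fun p hp => ?_, fun φ hφ p hp => ?_⟩
    · have h1 : J p ∈ (T '' B)ᶜ := by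
        rintro ⟨z, ⟨hz, hz1, hz2⟩, hzp⟩
        have hρ2 : 0 < ρ ^ 2 := by positivity
        rcases hTJ z hz ⟨p, hp, hzp.symm⟩ with h | h
        · rw [h, nsq_zero_TPU] at hz1
          linarith
        · rw [h, sub_self, nsq_zero_TPU] at hz2
          linarith
      exact mem_interior_iff_mem_nhds.2 ((hJ p hp).preimage_mem_nhds (hTB.isOpen_compl.mem_nhds h1))
    · have h0 : p ∈ J ⁻¹' (T '' B)ᶜ := interior_subset hp
      have h1 : J p ∈ (T '' B)ᶜ := h0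
      have himp := m_Imp R4 R4 𝓘(ℝ, R4) R4 T ball4 φ hT.2
      by_cases h2 : J p ∈ T '' ball4
      · obtain ⟨z, hz, hzp⟩ := h2
        have hzB : z ∉ B := fun h => h1 ⟨z, h, hzp⟩
        have hzt : z ∈ ctube 0 ρ ∪ ctube e1 ρ := by
          by_contra h3
          apply hzB
          rw [mem_union, not_or] at h3
          obtain ⟨h4, h5⟩ := h3
          refine ⟨hz, ?_, ?_⟩
          · have h6 : ¬ nsq (z.2 - 0) ≤ ρ ^ 2 := h4
            rw [sub_zero] at h6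
            exact (not_le.1 h6).le
          · have h6 : ¬ nsq (z.2 - e1) ≤ ρ ^ 2 := h5
            exact (not_le.1 h6).le
        rw [← hzp, himp.1 z hz, hφ z hzt]
      · exact himp.2.1 _ h2

end Pool.Agent.Helper34.BI.H


end

/-! ## Helper34.BI.H.M_M5 -/

section

/-!
# Project BI, stage 3, section 5: the push along the localized circle (module M5)
-/

set_option autoImplicit false

open Module Set Filter Topology
open scoped ContDiff Manifold
open Pool.Agent.Helper65.Barb Pool.Agent.Helper18.BI Pool.Agent.Helper27.BI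
open Pool.Agent.Helper27.H (ArcD LIso LPush Fam2 Q2 SuppU thk seg StCH4 StFRAME StTHK)
open Pool.Agent.Helper70.BI (I4 NearEq ld_iff ld_comp ld_dfam contDiff_dfam)

namespace Pool.Agent.Helper34.BI.H

namespace M5

theorem nsq_zero : nsq (0 : ℝ × ℂ) = 0 := by
  simp [nsq]

theorem warc_zero (κ : ℝ → ℝ) (s : ℝ) : warc κ 0 s = e1 := by
  unfold warc e1
  simp
  rfl

theorem warc_one (κ : ℝ → ℝ) (s : ℝ) : warc κ 1 s = e1 := by
  unfold warc e1
  simp
  rfl

theorem mem_ball4 {σ : ℝ} (h0 : -1 ≤ σ) (h1 : σ ≤ 2) : ((σ, e1) : R4) ∈ ball4 := by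
  refine ⟨h0, h1, ?_⟩
  unfold rsq nsq e1
  norm_num

section
variable {D : ArcD} {a b ε ν : ℝ} {κ : ℝ → ℝ} {T : R4 → R4} {y : ℝ → ℝ → R4}

theorem inU (h : Mod5 D a b ε ν κ T y) {q s : ℝ} (hq : q ∈ Icc (0 : ℝ) 1)
    (hs : s ∈ Ioo D.s₀ D.s₁) : y q s ∈ D.U := by
  by_cases h1 : s ≤ D.m₀ ∨ D.m₁ ≤ s
  · rw [h.froz q hq s h1]
    exact D.mem s hs
  · rw [not_or, not_le, not_le] at h1
    exact h.inU q hq s ⟨h1.1.le, h1.2.le⟩

/-- the image of the core under the pushed family -/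
theorem core (h : Mod5 D a b ε ν κ T y) {ρ : ℝ} {F G : DFam 𝓘(ℝ, R4) R4}
    (ff : ∀ t ∈ Icc (0 : ℝ) 1, ∀ x ∈ ctube 0 ρ, F.f (t, x) = x)
    (ft : ∀ t ∈ Icc (0 : ℝ) 1, ∀ (_ : Unit) (s : ℝ) (x : R3), nsq x ≤ ρ ^ 2 →
      F.f (t, (s, warc κ 0 s + x)) = (s, warc κ (step t) s + x))
    (goff : ∀ t x, x ∉ T '' ball4 → G.f (t, x) = x)
    (gimp : ∀ t x, G.f (t, x) = imp T ball4 (fun p => F.f (t, p)) x) {q s : ℝ}
    (hq : q ∈ Icc (0 : ℝ) 1) (hs : s ∈ Icc D.s₀ D.s₁) : G.f (q, y 0 s) = y (step q) s := by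
  have hρ : 0 ≤ ρ ^ 2 := sq_nonneg ρ
  have hst := step_mem q
  have hν := h.νpos
  by_cases hy : y 0 s ∈ T '' ball4
  · obtain ⟨p, hp, hpy⟩ := hy
    have hval : G.f (q, y 0 s) = T (F.f (q, p)) := by
      rw [gimp, ← hpy]
      exact (m_Imp R4 R4 𝓘(ℝ, R4) R4 T ball4 (fun p => F.f (q, p)) h.emb.2).1 p hp
    rcases h.only p hp s hs hpy with ⟨h1, h2⟩ | ⟨h1, h2⟩
    · have h3 : p ∈ ctube 0 ρ := by
        show nsq (p.2 - 0) ≤ ρ ^ 2
        rw [h1, sub_zero, nsq_zero]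
        exact hρ
      rw [hval, ff q hq p h3, hpy]
      symm
      apply h.const _ hst
      left
      have h4 : p.1 ≤ 2 := hp.2.1
      have h5 := h.hab
      have h6 := h.εpos
      rw [h2]
      nlinarith
    · have h3 := ft q hq () p.1 0 (by rw [nsq_zero]; exact hρ)
      rw [add_zero, add_zero, warc_zero] at h3
      have h4 : p = (p.1, e1) := by rw [← h1]
      rw [hval, h4, h3, h.cw (step q) hst p.1 ⟨hp.1, hp.2.1⟩, ← h2]
  · rw [goff q _ hy]
    symm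
    apply h.const _ hst
    by_contra h1
    rw [not_or, not_le, not_le] at h1
    obtain ⟨h1, h2⟩ := h1
    apply hy
    have e1' : b + ν * ((s - b) / ν + 1 / 2 - 1 / 2) = s := by
      field_simp
      ring
    have l1 : -(1 / 2) < (s - b) / ν := by
      rw [lt_div_iff₀ hν]
      linarith
    have l2 : (s - b) / ν < 1 / 2 := by
      rw [div_lt_iff₀ hν]
      linarith
    refine ⟨((s - b) / ν + 1 / 2, e1), mem_ball4 (by linarith) (by linarith), ?_⟩
    rw [h.c1 _ ⟨by linarith, by linarith⟩, e1']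

end

end M5

open M5 in
theorem m_M5 (hTPU : StTPU) (hCIRC : StCIRC) (hCh : StCH4) (hFr : StFRAME) (hTh : StTHK) :
    StM5 := by
  intro D a b ε ν κ T y h C hC
  have key := hTh Q2 D.s₀ D.m₀ D.m₁ D.s₁ D.U D.J D.c (fun a s => y a.2 s) D.h₀ D.h₁ D.h₂ D.openU
    D.emb D.smooth D.core
    (h.smooth.comp ((contDiff_snd.comp contDiff_fst).prodMk contDiff_snd))
    (fun a ha s hs => h.froz a.2 ha.2 s hs) (fun a ha s hs => h.inU a.2 ha.2 s hs)
    (fun a ha => h.inj a.2 ha.2) (fun a ha s hs => h.imm a.2 ha.2 s hs)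
  have hfam : Fam2 Q2 D.L D.V D.U (fun a => thk D.J D.c (y a.2)) := key.1
  have hval : ∀ q, ∀ s ∈ Icc D.s₀ D.s₁, thk D.J D.c (y q) (s, 0) = y q s := fun q s hs =>
    key.2.1 (0, q) s hs
  have m0 : (0 : ℝ) ∈ Icc (0 : ℝ) 1 := by simp
  have m1 : (1 : ℝ) ∈ Icc (0 : ℝ) 1 := by simp
  have m00 : ((0 : ℝ), (0 : ℝ)) ∈ Q2 := ⟨m0, m0⟩
  set J₀ : R4 → R4 := thk D.J D.c (y 0) with hJ₀
  have hemb : EmbOn I4 J₀ D.L := hfam.emb (0, 0) m00
  have hcont : ∀ p ∈ D.L, ContinuousAt J₀ p := fun p hp =>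
    (ld_iff.1 (hemb.1 p hp)).1.self_of_nhds.continuousAt
  obtain ⟨TP1, TP2⟩ := hTPU D.U D.L J₀ T D.openU D.isCompact_L hcont h.emb h.TU (by
    rintro p hp ⟨z, hz, hzp⟩
    obtain ⟨hz1, hz2⟩ := Pool.Agent.Helper27.H.eq_of_mem_seg hz
    rw [hz2, hJ₀, hval 0 _ hz1] at hzp
    rcases h.only p hp z.1 hz1 hzp.symm with h1 | h1
    · exact Or.inl h1.1
    · exact Or.inr h1.1)
  obtain ⟨ρ₀, hρ₀, H⟩ := hCIRC κ h.κs h.κ01 h.κh h.κ0
  have hρ : 0 < ρ₀ / 2 := by linarith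
  obtain ⟨⟨Θ, hΘ⟩, hTI⟩ := H (ρ₀ / 2) ⟨hρ, by linarith⟩
  obtain ⟨F', f0', f1', fs', ff', ft'⟩ := hTI Θ hΘ
  obtain ⟨F, f0, f1, fs, ff, ft⟩ := hΘ
  obtain ⟨N, hN, hLN, hNφ⟩ := TP2 (ρ₀ / 2) hρ
  set ρ : ℝ := ρ₀ / 2
  -- (b)
  obtain ⟨G', gs', goff', gimp'⟩ := TP1 F' fs'
  have hB : LIso D.U D.L J₀ J₀ (imp T ball4 barMap) (imp T ball4 Θ) := by
    refine ⟨G', fun x => ?_, fun x => ?_, gs', N, hN, hLN, fun t p hp => ?_⟩
    · rw [gimp' 0 x, funext f0']
    · rw [gimp' 1 x, funext f1']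
    · rw [gimp' t]
      refine hNφ _ (fun x hx => ?_) p hp
      rcases hx with hx | hx
      · exact ff' t x hx
      · have h1 : nsq (x.2 - e1) ≤ ρ ^ 2 := hx
        have h2 := ft' t () x.1 (x.2 - e1) h1
        simp only [add_sub_cancel] at h2
        exact h2
  -- (c)
  obtain ⟨G, gs, goff, gimp⟩ := TP1 F fs
  have hcore : ∀ q ∈ Icc (0 : ℝ) 1, ∀ s ∈ Icc D.s₀ D.s₁, G.f (q, y 0 s) = y (step q) s :=
    fun q hq s hs => core h ff ft goff gimp hq hs
  have g0 : ∀ x, G.f (0, x) = x := by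
    intro x
    by_cases hx : x ∈ T '' ball4
    · obtain ⟨p, hp, rfl⟩ := hx
      rw [gimp, (m_Imp R4 R4 𝓘(ℝ, R4) R4 T ball4 (fun p => F.f (0, p)) h.emb.2).1 p hp, f0]
    · exact goff 0 x hx
  have g1 : ∀ x, G.f (1, x) = imp T ball4 Θ x := by
    intro x
    rw [gimp, funext f1]
  -- (d)
  have hPF : LPush D.U D.L (fun q p => G.f (q, J₀ p)) (imp T ball4 Θ) := by
    refine ⟨G.reparam step contDiff_step, fun x => ?_, fun x => ?_, gs.reparam _ _, univ,
      isOpen_univ, subset_univ _, fun t _ p _ => ?_⟩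
    · change G.f (step 0, x) = x
      rw [step_zero, g0]
    · change G.f (step 1, x) = _
      rw [step_one, g1]
    · change G.f (step t, G.f (0, J₀ p)) = G.f (step t, J₀ p)
      rw [g0]
  -- (e)
  have hTc : IsClosed (T '' ball4) :=
    (isCompact_ball4.image_of_continuousOn fun p hp =>
      (ld_iff.1 (h.emb.1 p hp)).1.self_of_nhds.continuousAt.continuousWithinAt).isClosed
  have hTU : T '' ball4 ⊆ D.U := by
    rintro _ ⟨p, hp, rfl⟩
    exact h.TU hp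
  set V' : Set R4 := D.V ∩ interior (J₀ ⁻¹' (T '' ball4)ᶜ) with hV'
  have hV'o : IsOpen V' := D.isOpen_V.inter isOpen_interior
  have hend : ∀ s, s ∈ Icc D.s₀ D.s₁ → (s ≤ D.m₀ ∨ D.m₁ ≤ s) → D.c s ∉ D.U →
      ((s, 0) : R4) ∈ interior (J₀ ⁻¹' (T '' ball4)ᶜ) := by
    intro s hs hm hc
    refine mem_interior_iff_mem_nhds.2 ((hcont _ (D.mem_L hs)).preimage_mem_nhds
      (hTc.isOpen_compl.mem_nhds fun h1 => hc ?_))
    have h2 := hTU h1
    rw [hJ₀, hval 0 s hs, h.froz 0 m0 s hm] at h2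
    exact h2
  have hV0 : ((D.s₀, 0) : R4) ∈ V' :=
    ⟨D.mem_V₀, hend _ ⟨le_rfl, D.le₀₁⟩ (Or.inl D.h₀.le) D.off₀⟩
  have hV1 : ((D.s₁, 0) : R4) ∈ V' :=
    ⟨D.mem_V₁, hend _ ⟨D.le₀₁, le_rfl⟩ (Or.inr D.h₂.le) D.off₁⟩
  have hVoff : ∀ p ∈ V', J₀ p ∉ T '' ball4 := by
    intro p hp
    have h1 : p ∈ J₀ ⁻¹' (T '' ball4)ᶜ := interior_subset hp.2
    exact h1
  have hIoo : ∀ p ∈ D.L, p ∉ V' → p.1 ∈ Ioo D.s₀ D.s₁ ∧ p = (p.1, 0) := by
    intro p hp hpV
    obtain ⟨⟨h1, h2⟩, h3⟩ := Pool.Agent.Helper27.H.eq_of_mem_seg hp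
    refine ⟨⟨lt_of_le_of_ne h1 fun e => hpV ?_, lt_of_le_of_ne h2 fun e => hpV ?_⟩, h3⟩
    · rw [h3, ← e]
      exact hV0
    · rw [h3, e]
      exact hV1
  have famF : Fam2 Q2 D.L V' D.U (fun a p => G.f (a.2, J₀ p)) := by
    refine ⟨fun a _ p hp => ?_, fun a _ => ⟨fun p hp => ?_, fun p hp p' hp' he => ?_⟩,
      fun a _ a' _ p hp => ?_, fun a ha p hp hpV => ?_⟩
    · have h1 := (ld_iff.1 (hemb.1 p hp)).1
      have h3 : ContinuousAt (fun z : (ℝ × ℝ) × R4 => z.2) (a, p) := continuousAt_snd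
      filter_upwards [h3.eventually h1] with z e1
      have e2 : ContDiffAt ℝ ∞ (fun z : (ℝ × ℝ) × R4 => J₀ z.2) z := e1.comp z contDiffAt_snd
      have e3 : ContDiffAt ℝ ∞ (fun z : (ℝ × ℝ) × R4 => (z.1.2, J₀ z.2)) z :=
        (contDiff_snd.comp contDiff_fst).contDiffAt.prodMk e2
      exact ContDiffAt.comp z (contDiff_dfam G).contDiffAt e3
    · exact ld_comp (F := fun x => G.f (a.2, x)) (m := J₀) (hemb.1 p hp) (ld_dfam G a.2 _)
    · apply hemb.2 hp hp'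
      have h1 := congrArg (fun x => G.g (a.2, x)) he
      simpa only [G.gf] using h1
    · rw [goff _ _ (hVoff p hp), goff _ _ (hVoff p hp)]
    · obtain ⟨h1, h2⟩ := hIoo p hp hpV
      rw [h2, hJ₀, hval 0 _ ⟨h1.1.le, h1.2.le⟩, hcore a.2 ha.2 _ ⟨h1.1.le, h1.2.le⟩]
      exact inU h (step_mem _) h1
  have famJ : Fam2 Q2 D.L V' D.U (fun a => thk D.J D.c (y (step a.2))) := by
    have h1 := hfam.comp (Q' := Q2) (θ := fun a => (a.1, step a.2))
      (contDiff_fst.prodMk (contDiff_step.comp contDiff_snd))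
      (fun a ha => ⟨ha.1, step_mem a.2⟩)
    refine h1.mono subset_rfl subset_rfl inter_subset_left subset_rfl fun a ha p hp _ hpV => ?_
    obtain ⟨h1, h2⟩ := hIoo p hp hpV
    change thk D.J D.c (y (step a.2)) p ∈ D.U
    rw [h2, hval _ _ ⟨h1.1.le, h1.2.le⟩]
    exact inU h (step_mem _) h1
  obtain ⟨C', hC'⟩ := Pool.Agent.Helper27.H.exists_lpush1 hCh D.isCompact_L hV'o D.openU
    (J := fun q => thk D.J D.c (y (step q))) famJ
  have e00 : thk D.J D.c (y (step 0)) = J₀ := by rw [step_zero]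
  have e01 : thk D.J D.c (y (step 1)) = J₀ := by rw [step_one, h.loop]
  have hN1 : ∀ p ∈ N, G.f (1, J₀ p) = J₀ p := by
    intro p hp
    rw [gimp]
    refine hNφ _ (fun x hx => ?_) p hp
    rcases hx with hx | hx
    · exact ff 1 m1 x hx
    · have h1 : nsq (x.2 - e1) ≤ ρ ^ 2 := hx
      have h2 := ft 1 m1 () x.1 (x.2 - e1) h1
      simp only [step_one, warc_zero, warc_one, add_sub_cancel] at h2
      exact h2
  have hfr := hFr D V' (fun q p => G.f (q, J₀ p)) (fun q => thk D.J D.c (y (step q)))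
    (imp T ball4 Θ) C' hV'o hV0 hV1 famF famJ
    (fun q hq s hs => by
      rw [hJ₀, hval _ _ hs, hval _ _ hs, hcore q hq s hs])
    (fun p _ => by rw [g0, e00])
    (fun s hs => by
      rw [g0, hJ₀, hval 0 s ⟨hs.1.le, hs.2.le⟩]
      exact inU h m0 hs)
    ⟨univ, isOpen_univ, subset_univ _, fun p _ => by
      change G.f (0, J₀ p) = thk D.J D.c (y (step 0)) p
      rw [g0, e00]⟩
    ⟨N, hN, hLN, fun p hp => by
      change G.f (1, J₀ p) = thk D.J D.c (y (step 1)) p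
      rw [hN1 p hp, e01]⟩ hPF hC'
  have hfr' : LIso D.U D.L J₀ J₀ (imp T ball4 Θ) C' := by
    refine hfr.congr ⟨univ, isOpen_univ, subset_univ _, fun p _ => ?_⟩
      ⟨N, hN, hLN, fun p hp => ?_⟩
    · exact g0 (J₀ p)
    · exact hN1 p hp
  have hrep := Pool.Agent.Helper27.H.push_reparam hCh D.isCompact_L D.isOpen_V D.openU
    (J := fun q => thk D.J D.c (y q)) hfam contDiff_step (fun q _ => step_mem q) step_zero
    step_one hC hC'
  have hrep' : LIso D.U D.L J₀ J₀ C C' := by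
    have e1 : thk D.J D.c (y 1) = J₀ := by rw [h.loop]
    change LIso D.U D.L J₀ (thk D.J D.c (y 1)) C C' at hrep
    rwa [e1] at hrep
  exact hB.trans (hfr'.trans hrep'.symm)

end Pool.Agent.Helper34.BI.H


end

/-! ## Helper34.BI.H.M_PHT -/

section

/-!
# Project BI, stage 3, section 5: the class of the implantation in the chart (module PHT)
-/

set_option autoImplicit false

open Module Set Filter Topology
open scoped ContDiff Manifold ComplexConjugate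
open Pool.Agent.Helper65.Barb Pool.Agent.Helper18.BI Pool.Agent.Helper27.BI
open Pool.Agent.Helper27.H (ArcD LIso LPush Fam2 Q2 SuppU thk seg)
open Pool.Agent.Helper70.BI (I4)

namespace Pool.Agent.Helper34.BI.H

/-- the barbell map fixes both tubes -/
private theorem tiso_bar_PHT : TIso ∅ (1 / 5) arc2 arc2 barMap barMap :=
  (isPush_pair hSpin).tIso.congr
      (by rintro (_ | _) s <;> simp [arc2, barPath_zero])
      (by rintro (_ | _) s <;> simp [arc2, barPath_one]) (fun _ => rfl) (fun _ => rfl)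

private theorem liso_PHT (hTPU : StTPU) (D : ArcD) (T : R4 → R4) (hT : EmbOn I4 T ball4)
    (hTU : MapsTo T ball4 D.U) (hTA : ∀ p ∈ ball4, T p ∈ D.A → p.2 = 0 ∨ p.2 = e1)
    {φ ψ : R4 → R4} (h : TIso ∅ (1 / 5) arc2 arc2 φ ψ) :
    LIso D.U D.L D.J D.J (imp T ball4 φ) (imp T ball4 ψ) := by
  obtain ⟨F, h0, h1, hs, -, ht⟩ := h
  obtain ⟨k1, k2⟩ := hTPU D.U D.L D.J T D.openU D.isCompact_L
    (fun p hp => (D.emb.1 p hp).contMDiffAt.continuousAt) hT hTU hTA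
  obtain ⟨G, hG, -, hGF⟩ := k1 F hs
  obtain ⟨N, hN, hLN, hφ⟩ := k2 (1 / 5) (by norm_num)
  have e0 : (fun p => F.f (0, p)) = φ := funext h0
  have e1' : (fun p => F.f (1, p)) = ψ := funext h1
  refine ⟨G, fun x => ?_, fun x => ?_, hG, N, hN, hLN, fun t p hp => ?_⟩
  · rw [hGF, e0]
  · rw [hGF, e1']
  · rw [hGF]
    refine hφ _ (fun x hx => ?_) p hp
    rcases hx with h | h
    · have h2 : nsq (x.2 - 0) ≤ (1 / 5) ^ 2 := h
      rw [sub_zero] at h2
      have e := ht t false x.1 x.2 h2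
      simpa [arc2] using e
    · have h2 : nsq (x.2 - e1) ≤ (1 / 5) ^ 2 := h
      have e := ht t true x.1 (x.2 - e1) h2
      simp only [arc2, if_true, add_sub_cancel] at e
      exact e

private theorem refh_refh_PHT (p : R4) : refh (refh p) = p := linvol_refh.inv p

private theorem refh_ball4_PHT {p : R4} (hp : p ∈ ball4) : refh p ∈ ball4 := by
  obtain ⟨h1, h2, h3⟩ := hp
  exact ⟨h1, h2, by rwa [rsq_refh]⟩

private theorem bsupp_ball4_PHT : bsupp ⊆ ball4 := fun _ hp =>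
  interior_subset (tsupp_subset_interior hp.1)

theorem m_PHT (hTPU : StTPU) : StPHT := by
  intro D T hT hTU hTA
  have L1 : LIso D.U D.L D.J D.J (imp T ball4 barMap) (imp T ball4 barMap) :=
    liso_PHT hTPU D T hT hTU hTA tiso_bar_PHT
  have hmap : MapsTo barMap bsupp bsupp := barMap_mapsTo subset_rfl
  have hE : MapsTo T EB (D.U \ D.A) := by
    intro p hp
    refine ⟨hTU hp.1, fun h => ?_⟩
    obtain ⟨h0, h1⟩ := hp.2
    rcases hTA p hp.1 h with h2 | h2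
    · rw [rsq_zero_eq, h2] at h0
      norm_num [nsq] at h0
    · rw [← nsq_sub_one, h2] at h1
      norm_num [nsq, e1] at h1
  refine ⟨L1, fun τ hτ => ?_, ?_⟩
  · have hsub : T '' bsupp ⊆ D.U \ D.A := by
      rintro _ ⟨p, hp, rfl⟩
      exact hE (hS4.2.2.2.2.2.2.1 hp)
    have hTc : ContinuousOn T bsupp := fun p hp =>
      (hT.1 p (bsupp_ball4_PHT hp)).contMDiffAt.continuousAt.continuousWithinAt
    have hBe : imp T ball4 barMap = imp T bsupp barMap :=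
      imp_mono hT.2 bsupp_ball4_PHT (fun p hp => barMap_off hp)
    have hTb : InjOn T bsupp := hT.2.mono bsupp_ball4_PHT
    have hein : InjOn D.e (T '' bsupp) := D.embe.2.mono hsub
    refine ⟨T '' bsupp, isCompact_bsupp.image_of_continuousOn hTc, hsub, fun x hx => ?_, ?_⟩
    · rw [hBe]
      exact imp_off hx
    · have h8 : imp (fun p => D.e (T p)) bsupp barMap =
          imp D.e (T '' bsupp) (imp T bsupp barMap) :=
        (hImp R4 R4 𝓘(ℝ, R4) R4 D.e (T '' bsupp) barMap hein).2.2.2.2.2.2.2 T bsupp hTb rfl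
          hmap
      rw [hBe, ← h8]
      have hem : EmbOn I4 (D.e ∘ T) EB :=
        EmbOn.comp D.embe (EmbOn.mono hT (fun p hp => hp.1)) hE
      have ht3 := hT3 R4 R4 𝓘(ℝ, R4) R4 (D.e ∘ T) hem
      exact (hT2 R4 R4 𝓘(ℝ, R4) R4).2.1 (D.e ∘ T) τ _ hτ ht3
  · have hT' : EmbOn I4 (fun p => T (refh p)) ball4 :=
      EmbOn.comp hT (EmbOn.mono (emb_of_invol linvol_refh.toInvol) (subset_univ _))
        (fun p hp => refh_ball4_PHT hp)
    have hTU' : MapsTo (fun p => T (refh p)) ball4 D.U := fun p hp => hTU (refh_ball4_PHT hp)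
    have hTA' : ∀ p ∈ ball4, T (refh p) ∈ D.A → p.2 = 0 ∨ p.2 = e1 := by
      intro p hp h
      have e : p.2 = ((refh p).2.1, conj (refh p).2.2) := by
        simp [refh]
      rcases hTA (refh p) (refh_ball4_PHT hp) h with h2 | h2
      · left
        rw [e, h2]
        simp
      · right
        rw [e, h2]
        simp [e1]
    have L2 := liso_PHT hTPU D (fun p => T (refh p)) hT' hTU' hTA' tiso_bar_PHT
    have hbi : ∀ p, barInv (barMap p) = p := fun p => bfam.gf 1 p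
    have hbi' : ∀ p, barMap (barInv p) = p := fun p => bfam.fg 1 p
    have hr : TIso ∅ (1 / 5) arc2 arc2 (fun p => refh (barInv (refh p))) barMap :=
      TIso.inv hR1h (fun x => by simp only [refh_refh_PHT, hbi']) (fun x => hbi x)
    have L3 := liso_PHT hTPU D T hT hTU hTA hr
    have hconj : imp T ball4 (fun p => refh (barInv (refh p))) =
        imp (fun p => T (refh p)) ball4 barInv := by
      apply imp_eq_of hT.2 hT'.2
      · intro p hp
        exact ⟨refh p, refh_ball4_PHT hp, rfl, by simp only [refh_refh_PHT]⟩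
      · intro q hq
        exact Or.inl ⟨refh q, refh_ball4_PHT hq, by simp only [refh_refh_PHT]⟩
    rw [hconj] at L3
    have L4 := LIso.comp L3.symm L2
    refine L4.congr_fun (fun x => rfl) (fun x => ?_)
    rw [← imp_comp hT'.2 (barMap_mapsTo bsupp_ball4_PHT)]
    simp only [hbi]
    by_cases hx : x ∈ (fun p => T (refh p)) '' ball4
    · obtain ⟨p, hp, rfl⟩ := hx
      rw [imp_image (F := fun p => T (refh p)) hT'.2 hp]
    · rw [imp_off hx]

end Pool.Agent.Helper34.BI.H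


end

/-! ## Helper34.BI.H.M_SQ5 -/

section

/-!
# Project BI, stage 3, module SQ5: the squares around the crossing
-/

set_option autoImplicit false
set_option linter.unusedSectionVars false

open Module Set Filter Topology
open scoped ContDiff Manifold
open Pool.Agent.Helper65.Barb Pool.Agent.Helper18.BI Pool.Agent.Helper27.BI
open Pool.Agent.Helper27.H

namespace Pool.Agent.Helper34.BI.H

namespace SQ5

/-- a good family of parameters -/
def Gd (v₀ : ℝ × ℝ) (g : ℝ × ℝ → ℝ × ℝ) : Prop :=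
  ContDiff ℝ ∞ g ∧ ∀ a ∈ Q2, g a ∈ Q2 ∧ g a ≠ v₀

lemma Gd.comp {v₀ : ℝ × ℝ} {g : ℝ × ℝ → ℝ × ℝ} (h : Gd v₀ g) {θ : ℝ × ℝ → ℝ × ℝ}
    (hθ : ContDiff ℝ ∞ θ) (hm : ∀ a ∈ Q2, θ a ∈ Q2) : Gd v₀ (fun a => g (θ a)) :=
  ⟨h.1.comp hθ, fun a ha => h.2 _ (hm a ha)⟩

lemma mem_Q2 {x y : ℝ} (hx : x ∈ Icc (0 : ℝ) 1) (hy : y ∈ Icc (0 : ℝ) 1) : (x, y) ∈ Q2 :=
  ⟨hx, hy⟩

/-- the edges of a good square are good paths -/
lemma Gd.edge {v₀ : ℝ × ℝ} {g : ℝ × ℝ → ℝ × ℝ} (h : Gd v₀ g) {y : ℝ} (hy : y ∈ Icc (0 : ℝ) 1) :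
    Gd v₀ (fun a => g (a.2, y)) :=
  h.comp (θ := fun a => (a.2, y)) (by fun_prop) (fun a ha => mem_Q2 ha.2 hy)

lemma Gd.edge' {v₀ : ℝ × ℝ} {g : ℝ × ℝ → ℝ × ℝ} (h : Gd v₀ g) {x : ℝ} (hx : x ∈ Icc (0 : ℝ) 1) :
    Gd v₀ (fun a => g (x, a.2)) :=
  h.comp (θ := fun a => (x, a.2)) (by fun_prop) (fun a ha => mem_Q2 hx ha.2)

/-- the points of the circle -/
lemma circ_eq (u₀ q₀ r q : ℝ) : circ (u₀, q₀) (0, r) q =
    (u₀ - r * Real.sin (2 * Real.pi * q), q₀ + r * Real.cos (2 * Real.pi * q)) := by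
  unfold circ mulc
  ext
  · simp only [Prod.fst_add]; ring
  · simp only [Prod.snd_add]; ring

lemma contDiff_circ (u₀ q₀ r : ℝ) : ContDiff ℝ ∞ (circ (u₀, q₀) (0, r)) := by
  have h : circ (u₀, q₀) (0, r) = fun q : ℝ =>
      (u₀ - r * Real.sin (2 * Real.pi * q), q₀ + r * Real.cos (2 * Real.pi * q)) :=
    funext fun q => circ_eq u₀ q₀ r q
  rw [h]
  fun_prop

section geo
variable {u₀ q₀ r : ℝ} (hr : 0 < r) (h1 : 0 < u₀ - r) (h2 : u₀ + r < 1) (h3 : 0 < q₀ - r)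
  (h4 : q₀ + r < 1)
include hr h1 h2 h3 h4

lemma circ_mem (q : ℝ) : circ (u₀, q₀) (0, r) q ∈ Q2 := by
  rw [circ_eq]
  have s1 := Real.sin_le_one (2 * Real.pi * q)
  have s2 := Real.neg_one_le_sin (2 * Real.pi * q)
  have c1 := Real.cos_le_one (2 * Real.pi * q)
  have c2 := Real.neg_one_le_cos (2 * Real.pi * q)
  refine ⟨⟨?_, ?_⟩, ⟨?_, ?_⟩⟩ <;> simp only <;> nlinarith

lemma conv_mem {x : ℝ} (hx : x ∈ Icc (0 : ℝ) 1) {v w : ℝ × ℝ} (hv : v ∈ Q2) (hw : w ∈ Q2) :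
    (1 - x) • v + x • w ∈ Q2 :=
  convex_Q2 hv hw (by linarith [hx.2]) hx.1 (by ring)

/-- a square between a path and a piece of the circle -/
lemma good_left : Gd (u₀, q₀) (fun a : ℝ × ℝ =>
    (1 - a.1) • ((0 : ℝ), 1 - a.2) + a.1 • circ (u₀, q₀) (0, r) (a.2 / 2)) := by
  have hc := contDiff_circ u₀ q₀ r
  have hc2 : ContDiff ℝ ∞ (fun a : ℝ × ℝ => circ (u₀, q₀) (0, r) (a.2 / 2)) :=
    hc.comp (contDiff_snd.div_const 2)
  refine ⟨by fun_prop, ?_⟩
  rintro ⟨x, y⟩ ⟨hx, hy⟩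
  simp only at hx hy ⊢
  refine ⟨conv_mem hr h1 h2 h3 h4 hx (mem_Q2 (by simp) ⟨by linarith [hy.2], by linarith [hy.1]⟩)
    (circ_mem hr h1 h2 h3 h4 _), fun e => ?_⟩
  rw [circ_eq] at e
  have e1 := congrArg Prod.fst e
  have e2 := congrArg Prod.snd e
  simp only [Prod.smul_mk, Prod.mk_add_mk, smul_eq_mul] at e1 e2
  have hs : 0 ≤ Real.sin (2 * Real.pi * (y / 2)) := by
    apply Real.sin_nonneg_of_nonneg_of_le_pi
    · have := Real.pi_pos
      have := hy.1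
      positivity
    · have := Real.pi_pos
      nlinarith [hy.2]
  have hcs := Real.sin_sq_add_cos_sq (2 * Real.pi * (y / 2))
  set S := Real.sin (2 * Real.pi * (y / 2)) with hS
  set C := Real.cos (2 * Real.pi * (y / 2)) with hC
  have hu : 0 < u₀ := by linarith
  have k1 : (1 - x) * u₀ + x * (r * S) = 0 := by nlinarith
  have k2 : 0 ≤ (1 - x) * u₀ := mul_nonneg (by linarith [hx.2]) hu.le
  have k3 : 0 ≤ x * (r * S) := mul_nonneg hx.1 (mul_nonneg hr.le hs)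
  have k4 : (1 - x) * u₀ = 0 := by linarith
  have k5 : x = 1 := by
    rcases mul_eq_zero.1 k4 with h | h
    · linarith
    · linarith
  subst k5
  have k6 : S = 0 := by
    have : 1 * (r * S) = 0 := by linarith
    rcases mul_eq_zero.1 (by linarith : r * S = 0) with h | h
    · linarith
    · exact h
  have k7 : C = 0 := by
    have : r * C = 0 := by linarith
    rcases mul_eq_zero.1 this with h | h
    · linarith
    · exact h
  rw [k6, k7] at hcs
  norm_num at hcs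

lemma good_right : Gd (u₀, q₀) (fun a : ℝ × ℝ =>
    (1 - a.1) • ((1 : ℝ), a.2) + a.1 • circ (u₀, q₀) (0, r) (1 / 2 + a.2 / 2)) := by
  have hc := contDiff_circ u₀ q₀ r
  have hc2 : ContDiff ℝ ∞ (fun a : ℝ × ℝ => circ (u₀, q₀) (0, r) (1 / 2 + a.2 / 2)) :=
    hc.comp (contDiff_const.add (contDiff_snd.div_const 2))
  refine ⟨by fun_prop, ?_⟩
  rintro ⟨x, y⟩ ⟨hx, hy⟩
  simp only at hx hy ⊢
  refine ⟨conv_mem hr h1 h2 h3 h4 hx (mem_Q2 (by simp) hy)
    (circ_mem hr h1 h2 h3 h4 _), fun e => ?_⟩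
  rw [circ_eq] at e
  have e1 := congrArg Prod.fst e
  have e2 := congrArg Prod.snd e
  simp only [Prod.smul_mk, Prod.mk_add_mk, smul_eq_mul] at e1 e2
  have hs : Real.sin (2 * Real.pi * (1 / 2 + y / 2)) ≤ 0 := by
    have e3 : 2 * Real.pi * (1 / 2 + y / 2) = Real.pi * y + Real.pi := by ring
    rw [e3, Real.sin_add_pi]
    have : 0 ≤ Real.sin (Real.pi * y) := by
      apply Real.sin_nonneg_of_nonneg_of_le_pi
      · exact mul_nonneg Real.pi_pos.le hy.1
      · have := Real.pi_pos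
        nlinarith [hy.2]
    linarith
  have hcs := Real.sin_sq_add_cos_sq (2 * Real.pi * (1 / 2 + y / 2))
  set S := Real.sin (2 * Real.pi * (1 / 2 + y / 2)) with hS
  set C := Real.cos (2 * Real.pi * (1 / 2 + y / 2)) with hC
  have hu : u₀ < 1 := by linarith
  have k1 : (1 - x) * (1 - u₀) + x * (r * (-S)) = 0 := by nlinarith
  have k2 : 0 ≤ (1 - x) * (1 - u₀) := mul_nonneg (by linarith [hx.2]) (by linarith)
  have k3 : 0 ≤ x * (r * (-S)) := mul_nonneg hx.1 (mul_nonneg hr.le (by linarith))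
  have k4 : (1 - x) * (1 - u₀) = 0 := by linarith
  have k5 : x = 1 := by
    rcases mul_eq_zero.1 k4 with h | h
    · linarith
    · linarith
  subst k5
  have k6 : S = 0 := by
    rcases mul_eq_zero.1 (by linarith : r * (-S) = 0) with h | h
    · linarith
    · linarith
  have k7 : C = 0 := by
    have : r * C = 0 := by linarith
    rcases mul_eq_zero.1 this with h | h
    · linarith
    · exact h
  rw [k6, k7] at hcs
  norm_num at hcs

lemma circ_half : circ (u₀, q₀) (0, r) (1 / 2) = (u₀, q₀ - r) := by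
  rw [circ_eq]
  have : 2 * Real.pi * (1 / 2) = Real.pi := by ring
  rw [this, Real.sin_pi, Real.cos_pi]
  ext <;> simp; ring

lemma circ_zero : circ (u₀, q₀) (0, r) 0 = (u₀, q₀ + r) := by
  rw [circ_eq]
  simp

lemma circ_one : circ (u₀, q₀) (0, r) 1 = circ (u₀, q₀) (0, r) 0 := by
  rw [circ_eq, circ_eq]
  simp

lemma good_bot : Gd (u₀, q₀) (fun a : ℝ × ℝ =>
    (1 - a.1) • (a.2, (0 : ℝ)) + a.1 • circ (u₀, q₀) (0, r) (1 / 2)) := by
  refine ⟨by fun_prop, ?_⟩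
  rintro ⟨x, y⟩ ⟨hx, hy⟩
  simp only at hx hy ⊢
  refine ⟨conv_mem hr h1 h2 h3 h4 hx (mem_Q2 hy (by simp))
    (circ_mem hr h1 h2 h3 h4 _), fun e => ?_⟩
  rw [circ_half hr h1 h2 h3 h4] at e
  have e2 := congrArg Prod.snd e
  simp only [Prod.smul_mk, Prod.mk_add_mk, smul_eq_mul] at e2
  have := hx.2
  nlinarith

lemma good_top : Gd (u₀, q₀) (fun a : ℝ × ℝ =>
    (1 - a.1) • (a.2, (1 : ℝ)) + a.1 • circ (u₀, q₀) (0, r) 0) := by
  refine ⟨by fun_prop, ?_⟩
  rintro ⟨x, y⟩ ⟨hx, hy⟩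
  simp only at hx hy ⊢
  refine ⟨conv_mem hr h1 h2 h3 h4 hx (mem_Q2 hy (by simp))
    (circ_mem hr h1 h2 h3 h4 _), fun e => ?_⟩
  rw [circ_zero hr h1 h2 h3 h4] at e
  have e2 := congrArg Prod.snd e
  simp only [Prod.smul_mk, Prod.mk_add_mk, smul_eq_mul] at e2
  have k1 : (1 - x) * (1 - q₀) + x * r = 0 := by nlinarith
  have k2 : 0 ≤ (1 - x) * (1 - q₀) := mul_nonneg (by linarith [hx.2]) (by linarith)
  have k3 : 0 ≤ x * r := mul_nonneg hx.1 hr.le
  have k4 : x * r = 0 := by linarith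
  rcases mul_eq_zero.1 k4 with h | h
  · subst h
    linarith
  · linarith

lemma good_circ : Gd (u₀, q₀) (fun a : ℝ × ℝ => circ (u₀, q₀) (0, r) (a.2 * (1 + a.1) / 2)) := by
  have hc := contDiff_circ u₀ q₀ r
  refine ⟨hc.comp (by fun_prop), fun a _ => ⟨circ_mem hr h1 h2 h3 h4 _, fun e => ?_⟩⟩
  simp only at e
  rw [circ_eq] at e
  have e1 := congrArg Prod.fst e
  have e2 := congrArg Prod.snd e
  simp only at e1 e2
  have hcs := Real.sin_sq_add_cos_sq (2 * Real.pi * (a.2 * (1 + a.1) / 2))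
  have k6 : Real.sin (2 * Real.pi * (a.2 * (1 + a.1) / 2)) = 0 := by
    have : r * Real.sin (2 * Real.pi * (a.2 * (1 + a.1) / 2)) = 0 := by linarith
    rcases mul_eq_zero.1 this with h | h
    · linarith
    · exact h
  have k7 : Real.cos (2 * Real.pi * (a.2 * (1 + a.1) / 2)) = 0 := by
    have : r * Real.cos (2 * Real.pi * (a.2 * (1 + a.1) / 2)) = 0 := by linarith
    rcases mul_eq_zero.1 this with h | h
    · linarith
    · exact h
  rw [k6, k7] at hcs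
  norm_num at hcs

end geo

section fam
variable {D : ArcD} {c : ℝ × ℝ × ℝ → R4} {v₀ : ℝ × ℝ}

lemma kk_base (hc : D.Htpy c) {u : ℝ} (hu : u ∈ Icc (0 : ℝ) 1) : kk D c (u, 0) = D.J := by
  have e : (fun s => c (u, 0, s)) = D.c := funext fun s => hc.start u hu s
  unfold kk
  simp only
  rw [e]
  funext p
  unfold thk
  simp

lemma kk_base' (hc : D.Htpy c) {u : ℝ} (hu : u ∈ Icc (0 : ℝ) 1) : kk D c (u, 1) = D.J := by
  have e : (fun s => c (u, 1, s)) = D.c := funext fun s => hc.stop u hu s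
  unfold kk
  simp only
  rw [e]
  funext p
  unfold thk
  simp

variable (hTh : StTHK) (hc : D.Htpy c)
  (hI : ∀ u ∈ Icc (0 : ℝ) 1, ∀ q ∈ Icc (0 : ℝ) 1, D.Imm c u q)
  (hJ : ∀ u ∈ Icc (0 : ℝ) 1, ∀ q ∈ Icc (0 : ℝ) 1, (u, q) ≠ v₀ → D.Inj c u q)
include hTh hc hI hJ

lemma kk_fam {g : ℝ × ℝ → ℝ × ℝ} (hg : Gd v₀ g) :
    Fam2 Q2 D.L D.V D.U (fun a => kk D c (g a)) := by
  have g1 := hg.1
  have hsm : ContDiff ℝ ∞ (fun z : (ℝ × ℝ) × ℝ => c ((g z.1).1, (g z.1).2, z.2)) := by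
    have := hc.smooth
    fun_prop
  exact (hTh Q2 D.s₀ D.m₀ D.m₁ D.s₁ D.U D.J D.c
    (fun a s => c ((g a).1, (g a).2, s)) D.h₀ D.h₁ D.h₂ D.openU D.emb D.smooth D.core
    hsm
    (fun a ha s hs => hc.froz _ (hg.2 a ha).1.1 _ (hg.2 a ha).1.2 s hs)
    (fun a ha s hs => hc.inU _ (hg.2 a ha).1.1 _ (hg.2 a ha).1.2 s hs)
    (fun a ha => hJ _ (hg.2 a ha).1.1 _ (hg.2 a ha).1.2 (hg.2 a ha).2)
    (fun a ha s hs => hI _ (hg.2 a ha).1.1 _ (hg.2 a ha).1.2 s hs)).1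

lemma kk_push (hCh : StCH4) {γ : ℝ → ℝ × ℝ} (hg : Gd v₀ (fun a => γ a.2)) :
    ∃ Θ, LPush D.U D.L (fun q => kk D c (γ q)) Θ :=
  exists_lpush1 hCh D.isCompact_L D.isOpen_V D.openU (J := fun q => kk D c (γ q))
    (kk_fam hTh hc hI hJ hg)

lemma kk_square (hCh : StCH4) {g : ℝ × ℝ → ℝ × ℝ} (hg : Gd v₀ g)
    {Θ1 Θ2 Θ3 Θ4 : R4 → R4} (h1 : LPush D.U D.L (fun q => kk D c (g (0, q))) Θ1)
    (h2 : LPush D.U D.L (fun q => kk D c (g (q, 1))) Θ2)
    (h3 : LPush D.U D.L (fun q => kk D c (g (q, 0))) Θ3)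
    (h4 : LPush D.U D.L (fun q => kk D c (g (1, q))) Θ4) :
    LIso D.U D.L (kk D c (g (0, 0))) (kk D c (g (1, 1))) (fun x => Θ2 (Θ1 x))
      (fun x => Θ4 (Θ3 x)) :=
  square4 hCh D.isCompact_L D.isOpen_V D.openU (J := fun x y => kk D c (g (x, y)))
    (kk_fam hTh hc hI hJ hg) h1 h2 h3 h4

end fam

lemma push_of_eq {D : ArcD} {J J' : ℝ → R4 → R4} {Θ : R4 → R4} (h : LPush D.U D.L J Θ)
    (e : ∀ q ∈ Icc (0 : ℝ) 1, J q = J' q) : LPush D.U D.L J' Θ :=
  h.congr ⟨univ, isOpen_univ, subset_univ _, fun q hq p _ => by rw [e q hq]⟩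

end SQ5

open SQ5 in
theorem m_SQ5 (hCh : StCH4) (hTh : StTHK) : StSQ5 := by
  intro D c u₀ q₀ r hc hI hJ hr h1 h2 h3 h4 E₀ E₁ C hE₀ hE₁ hC
  have gl := good_left hr h1 h2 h3 h4
  have gr := good_right hr h1 h2 h3 h4
  have gb := good_bot hr h1 h2 h3 h4
  have gt := good_top hr h1 h2 h3 h4
  have gc := good_circ hr h1 h2 h3 h4
  have z01 : (0 : ℝ) ∈ Icc (0 : ℝ) 1 := by simp
  have o01 : (1 : ℝ) ∈ Icc (0 : ℝ) 1 := by simp
  have k00 : kk D c (0, 0) = D.J := kk_base hc z01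
  have k01 : kk D c (0, 1) = D.J := kk_base' hc z01
  have k10 : kk D c (1, 0) = D.J := kk_base hc o01
  have k11 : kk D c (1, 1) = D.J := kk_base' hc o01
  obtain ⟨p', hp'⟩ : ∃ p', p' = circ (u₀, q₀) (0, r) 0 := ⟨_, rfl⟩
  obtain ⟨p, hp⟩ : ∃ p, p = circ (u₀, q₀) (0, r) (1 / 2) := ⟨_, rfl⟩
  have c1 : circ (u₀, q₀) (0, r) 1 = p' := (circ_one hr h1 h2 h3 h4).trans hp'.symm
  have gb' : Gd (u₀, q₀) (fun a : ℝ × ℝ => (1 - a.1) • (a.2, (0 : ℝ)) + a.1 • p) := by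
    rw [hp]; exact gb
  have gt' : Gd (u₀, q₀) (fun a : ℝ × ℝ => (1 - a.1) • (a.2, (1 : ℝ)) + a.1 • p') := by
    rw [hp']; exact gt
  have gH := gc.edge' z01
  have gH' := gc.edge o01
  -- the pushes
  obtain ⟨d₀, hd₀⟩ := kk_push hTh hc hI hJ hCh (γ := fun x => (1 - x) • ((0 : ℝ), (0 : ℝ)) + x • p)
    (gb'.edge z01)
  obtain ⟨d₁, hd₁⟩ := kk_push hTh hc hI hJ hCh (γ := fun x => (1 - x) • ((1 : ℝ), (0 : ℝ)) + x • p)
    (gb'.edge o01)
  obtain ⟨b₀, hb₀⟩ := kk_push hTh hc hI hJ hCh (γ := fun x => (1 - x) • ((0 : ℝ), (1 : ℝ)) + x • p')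
    (gt'.edge z01)
  obtain ⟨b₁, hb₁⟩ := kk_push hTh hc hI hJ hCh (γ := fun x => (1 - x) • ((1 : ℝ), (1 : ℝ)) + x • p')
    (gt'.edge o01)
  obtain ⟨H, hH⟩ := kk_push hTh hc hI hJ hCh
    (γ := fun y => circ (u₀, q₀) (0, r) (y * (1 + 0) / 2)) gH
  obtain ⟨H', hH'⟩ := kk_push hTh hc hI hJ hCh
    (γ := fun x => circ (u₀, q₀) (0, r) (1 * (1 + x) / 2)) gH'
  -- the inverse of `E₀`
  have lE₀ := hE₀.lIso
  rw [k00, k01] at lE₀
  obtain ⟨E₀', lE₀', i1, i2⟩ := lE₀.exists_inv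
  have hE₀' := hE₀.reverse i1
  -- the squares
  have s1 := kk_square hTh hc hI hJ hCh gl
    (push_of_eq hE₀' fun q _ => by simp)
    (push_of_eq hd₀ fun q _ => by simp [hp])
    (push_of_eq hb₀ fun q _ => by simp [hp'])
    (push_of_eq hH fun q _ => by simp)
  have s2 := kk_square hTh hc hI hJ hCh gr
    (push_of_eq hE₁ fun q _ => by simp)
    (push_of_eq hb₁ fun q _ => by
      have : (1 / 2 + 1 / 2 : ℝ) = 1 := by norm_num
      simp only [this, c1])
    (push_of_eq hd₁ fun q _ => by simp [hp])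
    (push_of_eq hH' fun q _ => by
      have e : (1 * (1 + q) / 2 : ℝ) = 1 / 2 + q / 2 := by ring
      rw [e]
      simp only [sub_self, zero_smul, one_smul, zero_add])
  have s3 := kk_square hTh hc hI hJ hCh gb'
    (push_of_eq (LPush.const (U := D.U) (L := D.L) D.J) fun q hq => by
      simp [kk_base hc hq])
    (push_of_eq hd₁ fun q _ => by simp [hp])
    (push_of_eq hd₀ fun q _ => by simp [hp])
    (push_of_eq (LPush.const (U := D.U) (L := D.L) (kk D c p)) fun q _ => by simp [hp])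
  have s4 := kk_square hTh hc hI hJ hCh gt'
    (push_of_eq (LPush.const (U := D.U) (L := D.L) D.J) fun q hq => by
      simp [kk_base' hc hq])
    (push_of_eq hb₁ fun q _ => by simp [hp'])
    (push_of_eq hb₀ fun q _ => by simp [hp'])
    (push_of_eq (LPush.const (U := D.U) (L := D.L) (kk D c p')) fun q _ => by simp [hp'])
  have s5 := kk_square hTh hc hI hJ hCh gc hH hH'
    (push_of_eq (LPush.const (U := D.U) (L := D.L) (kk D c p')) fun q _ => by simp [hp'])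
    (push_of_eq hC fun q _ => by
      have : (q * (1 + 1) / 2 : ℝ) = q := by ring
      simp only [this])
  simp only at s1 s2 s3 s4 s5
  have e1 : (1 - (0 : ℝ)) • ((0 : ℝ), 1 - (0 : ℝ)) + (0 : ℝ) • circ (u₀, q₀) (0, r) (0 / 2)
      = (0, 1) := by simp
  have e2 : (1 - (1 : ℝ)) • ((0 : ℝ), 1 - (1 : ℝ)) + (1 : ℝ) • circ (u₀, q₀) (0, r) (1 / 2)
      = p := by simp [hp]
  have e3 : (1 - (0 : ℝ)) • ((1 : ℝ), (0 : ℝ)) + (0 : ℝ) • circ (u₀, q₀) (0, r) (1 / 2 + 0 / 2)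
      = (1, 0) := by simp
  have e4 : (1 - (1 : ℝ)) • ((1 : ℝ), (1 : ℝ)) + (1 : ℝ) • circ (u₀, q₀) (0, r) (1 / 2 + 1 / 2)
      = p' := by
    have : (1 / 2 + 1 / 2 : ℝ) = 1 := by norm_num
    rw [this, c1]
    simp
  have e5 : (1 - (0 : ℝ)) • ((0 : ℝ), (0 : ℝ)) + (0 : ℝ) • p = (0, 0) := by simp
  have e6 : (1 - (1 : ℝ)) • ((1 : ℝ), (0 : ℝ)) + (1 : ℝ) • p = p := by simp
  have e7 : (1 - (0 : ℝ)) • ((0 : ℝ), (1 : ℝ)) + (0 : ℝ) • p' = (0, 1) := by simp
  have e8 : (1 - (1 : ℝ)) • ((1 : ℝ), (1 : ℝ)) + (1 : ℝ) • p' = p' := by simp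
  have e9 : circ (u₀, q₀) (0, r) (0 * (1 + 0) / 2) = p' := by simp [hp']
  have e10 : circ (u₀, q₀) (0, r) (1 * (1 + 1) / 2) = p' := by
    have : (1 * (1 + 1) / 2 : ℝ) = 1 := by norm_num
    rw [this, c1]
  rw [e1, e2, k01] at s1
  rw [e3, e4, k10] at s2
  rw [e5, e6, k00] at s3
  rw [e7, e8, k01] at s4
  rw [e9, e10] at s5
  -- the germs carried by the pushes
  have lH' : LIso D.U D.L (kk D c p) (kk D c p') H' H' := by
    have := hH'.lIso
    have f1 : (1 * (1 + 0) / 2 : ℝ) = 1 / 2 := by norm_num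
    rw [f1, e10, ← hp] at this
    exact this
  have lb₀ : LIso D.U D.L D.J (kk D c p') b₀ b₀ := by
    have := hb₀.lIso
    have f1 : (1 - (1 : ℝ)) • ((0 : ℝ), (1 : ℝ)) + (1 : ℝ) • p' = p' := by simp
    rw [e7, f1, k01] at this
    exact this
  obtain ⟨B', lB', j1, j2⟩ := lb₀.exists_inv
  obtain ⟨b₁', lb₁', m1, m2⟩ := s4.refl_of.exists_inv
  -- `d₀ ~ H b₀ E₀`
  have t1 := (s1.comp lE₀).congr_fun (φ' := d₀) (ψ' := fun x => H (b₀ (E₀ x)))
    (fun x => by rw [i2]) (fun _ => rfl)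
  have t2 := s3.trans t1
  have t3 := s2.trans (lH'.comp t2)
  have t4 := s5.comp (lb₀.comp lE₀)
  have t5 := t3.trans t4
  have t6 := s4.inv m1 j1
  have t7 := t6.comp t5
  rw [hp'] at lb₀
  exact ⟨b₀, B', lb₀, j1, j2, t7.congr_fun (fun x => by rw [m2]) (fun _ => rfl)⟩

end Pool.Agent.Helper34.BI.H


end

/-! ## Helper18.BI.R.M_MOVE -/

section

/-!
# Project BI, stage 4 (R), module MOVE: moving a point of the bar
-/

set_option autoImplicit false

open scoped Manifold ContDiff Topology ComplexConjugate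
open Set Pool.Agent.Helper65.Barb Pool.Agent.Helper18.BI
open Pool.Agent.Helper70.BI (I4 IsW MW)
open Pool.Agent.Helper27.H (ArcD StArcH)
open Pool.Agent.Helper18.BI.H

namespace Pool.Agent.Helper18.BI.R

namespace MOVE

/-- the bump function -/
noncomputable def lam (a η : ℝ) (p : R4) : ℝ :=
  max 0 (1 - (|p.2.1 - a| + |p.1 - 1 / 2| + ‖p.2.2‖) / η)

/-- the motion -/
noncomputable def mot (a b η : ℝ) (z : ℝ × R4) : R4 :=
  (z.2.1, (z.2.2.1 + max 0 (min 1 z.1) * lam a η z.2 * (b - a), z.2.2.2))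

/-- the box -/
def box (a b η : ℝ) : Set R4 :=
  Icc (1 / 2 - η) (1 / 2 + η) ×ˢ (Icc (min a b - η) (max a b + η) ×ˢ Metric.closedBall (0 : ℂ) η)

theorem continuous_lam (a η : ℝ) : Continuous (lam a η) := by
  unfold lam
  fun_prop

theorem continuous_mot (a b η : ℝ) : Continuous (mot a b η) := by
  have h := continuous_lam a η
  unfold mot
  fun_prop

theorem isCompact_box (a b η : ℝ) : IsCompact (box a b η) :=
  isCompact_Icc.prod (isCompact_Icc.prod (isCompact_closedBall _ _))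

theorem lam_nonneg (a η : ℝ) (p : R4) : 0 ≤ lam a η p := le_max_left _ _

theorem lam_le_one {a η : ℝ} (hη : 0 < η) (p : R4) : lam a η p ≤ 1 := by
  unfold lam
  refine max_le zero_le_one ?_
  have : 0 ≤ (|p.2.1 - a| + |p.1 - 1 / 2| + ‖p.2.2‖) / η := by positivity
  linarith

/-- where the bump function is nonzero -/
theorem lam_pos {a η : ℝ} (hη : 0 < η) {p : R4} (h : lam a η p ≠ 0) :
    |p.2.1 - a| + |p.1 - 1 / 2| + ‖p.2.2‖ < η := by
  by_contra hc
  push Not at hc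
  apply h
  unfold lam
  refine max_eq_left ?_
  have : 1 ≤ (|p.2.1 - a| + |p.1 - 1 / 2| + ‖p.2.2‖) / η := by
    rw [le_div_iff₀ hη]
    linarith
  linarith

theorem mem_box {a b η : ℝ} {p : R4} (h1 : |p.1 - 1 / 2| ≤ η) (h2 : min a b - η ≤ p.2.1)
    (h3 : p.2.1 ≤ max a b + η) (h4 : ‖p.2.2‖ ≤ η) : p ∈ box a b η := by
  have h5 := abs_le.1 h1
  refine ⟨⟨?_, ?_⟩, ⟨h2, h3⟩, ?_⟩
  · linarith [h5.1]
  · linarith [h5.2]
  · rwa [mem_closedBall_zero_iff]

theorem lam_off {a b η : ℝ} (hη : 0 < η) {p : R4} (h : p ∉ box a b η) : lam a η p = 0 := by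
  by_contra hc
  have h1 := lam_pos hη hc
  have h2 := abs_nonneg (p.2.1 - a)
  have h3 := abs_nonneg (p.1 - 1 / 2)
  have h4 := norm_nonneg p.2.2
  have h5 : |p.2.1 - a| < η := by linarith
  have h6 := abs_lt.1 h5
  exact h (mem_box (by linarith) (by linarith [min_le_left a b, h6.1])
    (by linarith [le_max_left a b, h6.2]) (by linarith))

theorem mot_off {a b η : ℝ} (hη : 0 < η) {p : R4} (h : p ∉ box a b η) (t : ℝ) :
    mot a b η (t, p) = p := by
  unfold mot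
  simp only
  rw [lam_off hη h]
  simp

theorem mot_mem {a b η : ℝ} (hη : 0 < η) {p : R4} (h : p ∈ box a b η) (t : ℝ) :
    mot a b η (t, p) ∈ box a b η := by
  rcases eq_or_ne (lam a η p) 0 with h0 | h0
  · have : mot a b η (t, p) = p := by
      unfold mot
      simp only
      rw [h0]
      simp
    rw [this]
    exact h
  obtain ⟨h1, h2, h3⟩ := h
  refine ⟨h1, ?_, h3⟩
  have h4 := lam_pos hη h0
  have h5 : |p.2.1 - a| < η := by
    linarith [abs_nonneg (p.1 - 1 / 2), norm_nonneg p.2.2]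
  have h6 := abs_lt.1 h5
  have h7 : 0 ≤ max 0 (min 1 t) * lam a η p := mul_nonneg (le_max_left _ _) (lam_nonneg _ _ _)
  have h8 : max 0 (min 1 t) * lam a η p ≤ 1 :=
    mul_le_one₀ (max_le zero_le_one (min_le_left _ _)) (lam_nonneg _ _ _) (lam_le_one hη p)
  show p.2.1 + max 0 (min 1 t) * lam a η p * (b - a) ∈ Icc (min a b - η) (max a b + η)
  set c := max 0 (min 1 t) * lam a η p with hc
  rcases le_total a b with hab | hab
  · rw [min_eq_left hab, max_eq_right hab]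
    constructor
    · nlinarith [mul_nonneg h7 (sub_nonneg.2 hab)]
    · nlinarith [mul_nonneg (sub_nonneg.2 h8) (sub_nonneg.2 hab)]
  · rw [min_eq_right hab, max_eq_left hab]
    constructor
    · nlinarith [mul_nonneg (sub_nonneg.2 h8) (sub_nonneg.2 hab)]
    · nlinarith [mul_nonneg h7 (sub_nonneg.2 hab)]

theorem sph_one_le {p : R4} (hp : p ∈ sph 1) : 4 / 5 ≤ p.2.1 := by
  have h := hp.2
  have e : rsq 1 p = (p.2.1 - 1) ^ 2 + p.2.2.re ^ 2 + p.2.2.im ^ 2 := rfl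
  rw [e] at h
  nlinarith [sq_nonneg p.2.2.re, sq_nonneg p.2.2.im]

/-- a thin box around the piece of the bar in an open set -/
theorem exists_box {a b : ℝ} {N : Set R4} (hN : IsOpen N) (hb : max a b < 4 / 5)
    (h : ∀ x ∈ Icc (min a b) (max a b), bar x ∈ N) :
    ∃ η > 0, box a b η ⊆ N ∧ max a b + η < 4 / 5 := by
  have hc : IsCompact (bar '' Icc (min a b) (max a b)) := by
    refine isCompact_Icc.image ?_
    exact continuous_const.prodMk (continuous_id.prodMk continuous_const)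
  obtain ⟨δ, hδ, hδ2⟩ := hc.exists_thickening_subset_open hN (by
    rintro _ ⟨x, hx, rfl⟩
    exact h x hx)
  refine ⟨min (δ / 2) ((4 / 5 - max a b) / 2), by
    refine lt_min (by linarith) (by linarith), ?_, ?_⟩
  · rintro p ⟨⟨h1, h2⟩, ⟨h3, h4⟩, h5⟩
    set η := min (δ / 2) ((4 / 5 - max a b) / 2) with hη
    have hηδ : η ≤ δ / 2 := min_le_left _ _
    apply hδ2
    rw [Metric.mem_thickening_iff]
    have hmm : min a b ≤ max a b := min_le_max
    refine ⟨bar (max (min a b) (min (max a b) p.2.1)), ⟨_, ⟨le_max_left _ _,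
      max_le hmm (min_le_left _ _)⟩, rfl⟩, ?_⟩
    have e1 : dist p (bar (max (min a b) (min (max a b) p.2.1))) =
        max (dist p.1 (1 / 2)) (max (dist p.2.1 (max (min a b) (min (max a b) p.2.1)))
          (dist p.2.2 0)) := rfl
    rw [e1]
    have hη0 : 0 ≤ η := le_min (by linarith) (by linarith)
    refine max_lt ?_ (max_lt ?_ ?_)
    · rw [Real.dist_eq]
      have : |p.1 - 1 / 2| ≤ η := abs_le.2 ⟨by linarith, by linarith⟩
      linarith
    · rw [Real.dist_eq]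
      have : |p.2.1 - max (min a b) (min (max a b) p.2.1)| ≤ η := by
        rcases le_total p.2.1 (max a b) with h6 | h6
        · rw [min_eq_right h6]
          rcases le_total (min a b) p.2.1 with h7 | h7
          · rw [max_eq_right h7, sub_self, abs_zero]
            exact hη0
          · rw [max_eq_left h7]
            exact abs_le.2 ⟨by linarith, by linarith⟩
        · rw [min_eq_left h6, max_eq_right hmm]
          exact abs_le.2 ⟨by linarith, by linarith⟩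
      linarith
    · rw [dist_zero_right]
      rw [mem_closedBall_zero_iff] at h5
      linarith
  · have := min_le_right (δ / 2) ((4 / 5 - max a b) / 2)
    linarith

end MOVE

open Classical in
/-- **MOVE.** A point of the bar is moved to another one by a homotopy of self-maps of the
complement of the fixed cuff. -/
theorem m_MOVE : StMOVE := by
  intro F a b hF ha hb
  obtain ⟨δ, hδ1, hδ2⟩ := m_A1 R4 R4 R4 I4 R4 F SP X2.isCompact_SP hF.1 hF.2
  have hbar : ∀ x ∈ Icc (min a b) (max a b), bar x ∈ δ.source := by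
    intro x hx
    apply hδ1
    right
    refine ⟨rfl, ?_, ?_, rfl⟩
    · exact le_trans (le_min ha.1.le hb.1.le) hx.1
    · exact le_trans hx.2 (max_le ha.2.le hb.2.le)
  obtain ⟨η, hη, hbox, hlt⟩ := MOVE.exists_box δ.open_source (max_lt ha.2 hb.2) hbar
  have hFc : ContinuousOn F δ.source :=
    (δ.contMDiffOn_toFun.continuousOn).congr fun p hp => (hδ2 p hp).symm
  have hinj : InjOn F δ.source := by
    intro p hp q hq h
    rw [← hδ2 p hp, ← hδ2 q hq] at h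
    exact δ.toPartialEquiv.injOn hp hq h
  have hmem : ∀ t, ∀ p ∈ δ.source, MOVE.mot a b η (t, p) ∈ δ.source := by
    intro t p hp
    by_cases h : p ∈ MOVE.box a b η
    · exact hbox (MOVE.mot_mem hη h t)
    · rw [MOVE.mot_off hη h t]
      exact hp
  have hsF : ∀ y ∈ δ.target, F (δ.symm y) = y := by
    intro y hy
    have h1 := hδ2 _ (δ.toPartialEquiv.map_target hy)
    exact h1.symm.trans (δ.toPartialEquiv.right_inv hy)
  have hFt : ∀ p ∈ δ.source, F p ∈ δ.target ∧ δ.symm (F p) = p := by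
    intro p hp
    rw [← hδ2 p hp]
    exact ⟨δ.toPartialEquiv.map_source hp, δ.toPartialEquiv.left_inv hp⟩
  have hΨoff : ∀ t, ∀ y ∈ δ.target, y ∉ F '' MOVE.box a b η →
      F (MOVE.mot a b η (t, δ.symm y)) = y := by
    intro t y hy h
    have h1 : δ.symm y ∉ MOVE.box a b η := fun h2 => h ⟨_, h2, hsF y hy⟩
    rw [MOVE.mot_off hη h1 t]
    exact hsF y hy
  refine ⟨fun z => if z.2 ∈ δ.target then F (MOVE.mot a b η (z.1, δ.symm z.2)) else z.2,
    ?_, ?_, ?_, ?_⟩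
  · rw [continuous_iff_continuousAt]
    rintro ⟨t, y⟩
    by_cases hy : y ∈ δ.target
    · have h1 : ∀ᶠ z : ℝ × R4 in 𝓝 (t, y), z.2 ∈ δ.target :=
        continuous_snd.continuousAt.eventually (δ.open_target.mem_nhds hy)
      have h2 : ContinuousAt (fun z : ℝ × R4 => F (MOVE.mot a b η (z.1, δ.symm z.2))) (t, y) := by
        have e1 : ContinuousAt δ.symm y :=
          (δ.contMDiffOn_invFun.continuousOn).continuousAt (δ.open_target.mem_nhds hy)
        have e2 : ContinuousAt (fun z : ℝ × R4 => (z.1, δ.symm z.2)) (t, y) :=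
          continuous_fst.continuousAt.prodMk
            (ContinuousAt.comp (g := δ.symm) (f := fun z : ℝ × R4 => z.2) e1
              continuous_snd.continuousAt)
        have e3 : ContinuousAt (fun z : ℝ × R4 => MOVE.mot a b η (z.1, δ.symm z.2)) (t, y) :=
          (MOVE.continuous_mot a b η).continuousAt.comp e2
        have e4 : ContinuousAt F (MOVE.mot a b η (t, δ.symm y)) :=
          hFc.continuousAt (δ.open_source.mem_nhds
            (hmem t _ (δ.toPartialEquiv.map_target hy)))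
        exact ContinuousAt.comp (g := F)
          (f := fun z : ℝ × R4 => MOVE.mot a b η (z.1, δ.symm z.2)) e4 e3
      refine h2.congr ?_
      filter_upwards [h1] with z hz
      exact (if_pos hz).symm
    · have hc : IsCompact (F '' MOVE.box a b η) :=
        (MOVE.isCompact_box a b η).image_of_continuousOn (hFc.mono hbox)
      have hy2 : y ∉ F '' MOVE.box a b η := by
        rintro ⟨p, hp, rfl⟩
        exact hy (hFt p (hbox hp)).1
      have h0 : ∀ᶠ x : R4 in 𝓝 y, x ∉ F '' MOVE.box a b η :=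
        hc.isClosed.isOpen_compl.mem_nhds hy2
      have h1 : ∀ᶠ z : ℝ × R4 in 𝓝 (t, y), z.2 ∉ F '' MOVE.box a b η :=
        (continuous_snd.continuousAt (x := (t, y))).eventually h0
      refine (continuous_snd.continuousAt (x := (t, y))).congr ?_
      filter_upwards [h1] with z hz
      by_cases h3 : z.2 ∈ δ.target
      · rw [if_pos h3, hΨoff _ _ h3 hz]
      · rw [if_neg h3]
  · intro x
    by_cases hx : x ∈ δ.target
    · simp only [hx, if_true]
      have : MOVE.mot a b η (0, δ.symm x) = δ.symm x := by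
        unfold MOVE.mot
        simp
      rw [this]
      exact hsF x hx
    · simp only [hx, if_false]
  · have h1 : bar a ∈ δ.source := hbar a ⟨min_le_left _ _, le_max_left _ _⟩
    have h2 := hFt _ h1
    simp only [h2.1, if_true]
    rw [h2.2]
    have h3 : MOVE.mot a b η (1, bar a) = bar b := by
      unfold MOVE.mot MOVE.lam bar
      simp
    rw [h3]
  · intro t x hx
    by_cases h : x ∈ δ.target
    · simp only [h, if_true]
      by_cases h1 : x ∈ F '' MOVE.box a b η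
      · obtain ⟨p, hp, rfl⟩ := h1
        rw [(hFt p (hbox hp)).2]
        rintro ⟨z, hz, hz2⟩
        have h4 : z ∈ δ.source := hδ1 (Or.inl (Or.inr hz))
        have h5 := hinj h4 (hmem t p (hbox hp)) hz2
        have h6 := MOVE.mot_mem hη hp t
        rw [← h5] at h6
        have h7 := h6.2.1.2
        have h8 := MOVE.sph_one_le hz
        linarith
      · rw [hΨoff t x h h1]
        exact hx
    · simp only [h, if_false]
      exact hx

end Pool.Agent.Helper18.BI.R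


end

/-! ## Helper18.BI.R.M_REP -/

section

/-!
# Project BI, stage 4 (R), module REP (helper8)

Lipschitz replacement of free homotopies and null-homotopies.
-/

set_option autoImplicit false

open scoped Manifold ContDiff Topology unitInterval
open Set Pool.Agent.Helper65.Barb Pool.Agent.Helper18.BI
open Pool.Agent.Helper18.BI.H (mm)

namespace Pool.Agent.Helper18.BI.R

namespace REP

/-- the squares of a word only depend on the values of the spheres on `S2` -/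
private theorem evM_congr {M : Type} {n : ℕ} (y : M) (g g' : Fin n → R3 → M)
    (hg : ∀ i, ∀ m ∈ S2, g i m = g' i m) :
    ∀ (l : List (Fin n × Bool)) (q s : ℝ), evM y g l q s = evM y g' l q s
  | [], _, _ => rfl
  | (i, true) :: l, q, s => by
      show qcatM _ _ q s = qcatM _ _ q s
      unfold qcatM
      split_ifs
      · exact hg i _ (mm_S2 _ _)
      · exact evM_congr y g g' hg l _ _
  | (i, false) :: l, q, s => by
      show qcatM _ _ q s = qcatM _ _ q s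
      unfold qcatM
      split_ifs
      · exact hg i _ (mm_S2 _ _)
      · exact evM_congr y g g' hg l _ _

private theorem evM_off {M : Type} {n : ℕ} (A : Set M) (y : M) (hy : y ∉ A) (g : Fin n → R3 → M)
    (hg : ∀ i, ∀ m ∈ S2, g i m ∉ A) :
    ∀ (l : List (Fin n × Bool)) (q s : ℝ), evM y g l q s ∉ A
  | [], _, _ => hy
  | (i, true) :: l, q, s => by
      show qcatM _ _ q s ∉ A
      unfold qcatM
      split_ifs
      · exact hg i _ (mm_S2 _ _)
      · exact evM_off A y hy g hg l _ _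
  | (i, false) :: l, q, s => by
      show qcatM _ _ q s ∉ A
      unfold qcatM
      split_ifs
      · exact hg i _ (mm_S2 _ _)
      · exact evM_off A y hy g hg l _ _

private theorem base_S2 : ((1, 0) : R3) ∈ S2 := by
  show nsq (1, 0) = 1
  simp [nsq]

private theorem dist_S4 (x y : S4) : dist x y ≤ 2 := by
  have h1 : ‖(x : EuclideanSpace ℝ (Fin 5))‖ = 1 := norm_eq_of_mem_sphere x
  have h2 : ‖(y : EuclideanSpace ℝ (Fin 5))‖ = 1 := norm_eq_of_mem_sphere y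
  rw [Subtype.dist_eq, dist_eq_norm]
  calc ‖(x : EuclideanSpace ℝ (Fin 5)) - y‖ ≤ ‖(x : EuclideanSpace ℝ (Fin 5))‖ + ‖(y : EuclideanSpace ℝ (Fin 5))‖ :=
        norm_sub_le _ _
    _ = 2 := by rw [h1, h2]; norm_num

/-- gluing two functions on `[0, 1/2]` and `[1/2, 1]` -/
private theorem glue {X M : Type} [TopologicalSpace X] [TopologicalSpace M] {C : Set X}
    {f g : ℝ × X → M} (hf : ContinuousOn f (Icc (0 : ℝ) 1 ×ˢ C))
    (hg : ContinuousOn g (Icc (0 : ℝ) 1 ×ˢ C)) (h : ∀ x ∈ C, f (0, x) = g (0, x)) :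
    ContinuousOn (fun z : ℝ × X => if z.1 ≤ 1 / 2 then f (1 - 2 * z.1, z.2) else g (2 * z.1 - 1, z.2))
      (Icc (0 : ℝ) 1 ×ˢ C) := by
  have h1 : ContinuousOn (fun z : ℝ × X => f (1 - 2 * z.1, z.2)) (Icc (0 : ℝ) (1 / 2) ×ˢ C) := by
    refine hf.comp (Continuous.continuousOn (by fun_prop)) ?_
    rintro ⟨u, x⟩ ⟨⟨h0, h1⟩, hx⟩
    refine ⟨⟨?_, ?_⟩, hx⟩ <;> simp only at h0 h1 ⊢ <;> linarith
  have h2 : ContinuousOn (fun z : ℝ × X => g (2 * z.1 - 1, z.2)) (Icc (1 / 2 : ℝ) 1 ×ˢ C) := by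
    refine hg.comp (Continuous.continuousOn (by fun_prop)) ?_
    rintro ⟨u, x⟩ ⟨⟨h0, h1⟩, hx⟩
    refine ⟨⟨?_, ?_⟩, hx⟩ <;> simp only at h0 h1 ⊢ <;> linarith
  have hcl : ∀ z : ℝ × X, z ∈ Icc (0 : ℝ) 1 ×ˢ C → z.1 ∈ Icc (0 : ℝ) 1 ∧ z.2 ∈ C := fun z hz => hz
  refine ContinuousOn.if ?_ ?_ ?_
  · rintro ⟨u, x⟩ ⟨⟨-, hx⟩, hfr⟩
    have hu : u = 1 / 2 := by
      have h3 : (u, x) ∈ {a : ℝ × X | a.1 = 1 / 2} :=
        frontier_le_subset_eq continuous_fst continuous_const hfr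
      exact h3
    have e1 : (1 : ℝ) - 2 * u = 0 := by rw [hu]; norm_num
    have e2 : 2 * u - 1 = (0 : ℝ) := by rw [hu]; norm_num
    show f (1 - 2 * u, x) = g (2 * u - 1, x)
    rw [e1, e2]
    exact h x hx
  · refine h1.mono ?_
    rintro ⟨u, x⟩ ⟨⟨⟨h0, -⟩, hx⟩, hc⟩
    have h3 : (u, x) ∈ {a : ℝ × X | a.1 ≤ 1 / 2} := by
      have : IsClosed {a : ℝ × X | a.1 ≤ 1 / 2} := isClosed_le continuous_fst continuous_const
      exact this.closure_subset hc
    exact ⟨⟨h0, h3⟩, hx⟩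
  · refine h2.mono ?_
    rintro ⟨u, x⟩ ⟨⟨⟨-, h0⟩, hx⟩, hc⟩
    have h3 : (u, x) ∈ {a : ℝ × X | 1 / 2 ≤ a.1} := by
      have : IsClosed {a : ℝ × X | 1 / 2 ≤ a.1} := isClosed_le continuous_const continuous_fst
      refine this.closure_subset (closure_mono ?_ hc)
      intro z hz
      have hz' : ¬ z.1 ≤ 1 / 2 := hz
      exact le_of_lt (not_le.1 hz')
    exact ⟨⟨h3, h0⟩, hx⟩

/-- a function, Lipschitz on the slices over two values at distance at least `1` -/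
private theorem lip_slices {X : Type} [MetricSpace X] {C : Set X} {f : ℝ × X → S4} {L₀ L₁ : NNReal}
    (h0 : LipschitzOnWith L₀ (fun x => f (0, x)) C) (h1 : LipschitzOnWith L₁ (fun x => f (1, x)) C) :
    ∃ L : NNReal, LipschitzOnWith L f (({0, 1} : Set ℝ) ×ˢ C) := by
  refine ⟨max (max L₀ L₁) 2, LipschitzOnWith.of_dist_le_mul ?_⟩
  rintro ⟨u, x⟩ ⟨hu, hx⟩ ⟨u', x'⟩ ⟨hu', hx'⟩
  have hsnd : dist x x' ≤ dist ((u, x) : ℝ × X) (u', x') := le_max_right _ _
  have hfst : dist u u' ≤ dist ((u, x) : ℝ × X) (u', x') := le_max_left _ _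
  have hL0 : (L₀ : ℝ) ≤ ((max (max L₀ L₁) 2 : NNReal) : ℝ) :=
    NNReal.coe_le_coe.2 ((le_max_left _ _).trans (le_max_left _ _))
  have hL1 : (L₁ : ℝ) ≤ ((max (max L₀ L₁) 2 : NNReal) : ℝ) :=
    NNReal.coe_le_coe.2 ((le_max_right _ _).trans (le_max_left _ _))
  have hL2 : (2 : ℝ) ≤ ((max (max L₀ L₁) 2 : NNReal) : ℝ) :=
    NNReal.coe_le_coe.2 (le_max_right (max L₀ L₁) 2)
  have hd : 0 ≤ dist x x' := dist_nonneg
  rcases hu with hu | hu <;> rcases hu' with hu' | hu'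
  · subst hu
    subst hu'
    calc dist (f (0, x)) (f (0, x')) ≤ L₀ * dist x x' := h0.dist_le_mul _ hx _ hx'
      _ ≤ _ := by
        refine mul_le_mul hL0 hsnd hd (by positivity)
  · have hu'' : u' = 1 := hu'
    subst hu
    subst hu''
    have : (1 : ℝ) ≤ dist ((0, x) : ℝ × X) (1, x') := by
      refine le_trans ?_ hfst
      rw [Real.dist_eq]
      norm_num
    calc dist (f (0, x)) (f (1, x')) ≤ 2 * 1 := by linarith [dist_S4 (f (0, x)) (f (1, x'))]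
      _ ≤ _ := mul_le_mul hL2 this (by norm_num) (by positivity)
  · have hu'' : u = 1 := hu
    subst hu''
    subst hu'
    have : (1 : ℝ) ≤ dist ((1, x) : ℝ × X) (0, x') := by
      refine le_trans ?_ hfst
      rw [Real.dist_eq]
      norm_num
    calc dist (f (1, x)) (f (0, x')) ≤ 2 * 1 := by linarith [dist_S4 (f (1, x)) (f (0, x'))]
      _ ≤ _ := mul_le_mul hL2 this (by norm_num) (by positivity)
  · have e1 : u = 1 := hu
    have e2 : u' = 1 := hu'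
    subst e1
    subst e2
    calc dist (f (1, x)) (f (1, x')) ≤ L₁ * dist x x' := h1.dist_le_mul _ hx _ hx'
      _ ≤ _ := by
        refine mul_le_mul hL1 hsnd hd (by positivity)

end REP

open REP

/-- MODULE REP. -/
theorem m_REP (hLIP : StLIP) (hDIM : StDIM) (hMQ : StMQ) (hEVM : StEVM) : StREP := by
  intro n A y b h l N hA hb hfree hnull
  obtain ⟨hf1, hf2, hf3, hf4⟩ := hfree
  obtain ⟨hn1, hn2, hn3⟩ := hnull
  obtain ⟨-, hqS, -, hq4, Lq, hq5⟩ := hMQ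
  obtain ⟨-, he2, he3, he4⟩ := hEVM
  have hm9 : (9 / 20 : ℝ) ∈ Icc (9 / 20 : ℝ) (11 / 20) := ⟨le_refl _, by norm_num⟩
  have h0I : (0 : ℝ) ∈ Icc (0 : ℝ) 1 := ⟨le_refl _, zero_le_one⟩
  have h1I : (1 : ℝ) ∈ Icc (0 : ℝ) 1 := ⟨zero_le_one, le_refl _⟩
  have hy : y ∉ A := by
    have h1 := (hn3 1 h1I 0 h0I (9 / 20) hm9).1
    rwa [(hn2 0 h0I (9 / 20) hm9).2] at h1
  -- step (1)
  have hstep1 : ∀ i, ∃ (g : R3 → S4) (H : ℝ × R3 → S4), (∃ L : NNReal, LipschitzOnWith L g S2) ∧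
      ContinuousOn H (Icc (0 : ℝ) 1 ×ˢ S2) ∧ (∀ x ∈ S2, H (0, x) = h i (0, x) ∧ H (1, x) = g x) ∧
      (∀ u ∈ Icc (0 : ℝ) 1, ∀ x ∈ S2, H (u, x) ∉ A) ∧
      ∀ u ∈ Icc (0 : ℝ) 1, ∀ x ∈ ({(1, 0)} : Set R3), H (u, x) = h i (0, x) := by
    intro i
    refine hLIP R3 S2 {(1, 0)} A (fun m => h i (0, m)) isCompact_S2 ?_ hA ?_ ?_ ?_
    · rintro _ rfl
      exact base_S2
    · refine (hf1 i).comp (Continuous.continuousOn (by fun_prop)) ?_
      intro m hm
      exact ⟨h0I, hm⟩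
    · refine ⟨0, ?_⟩
      rintro a rfl c rfl
      simp
    · intro m hm
      exact hf4 i 0 h0I m hm
  choose g' k hg' hk1 hk2 hk3 hk4 using hstep1
  have hkb : ∀ i, ∀ u ∈ Icc (0 : ℝ) 1, k i (u, (1, 0)) = y := by
    intro i u hu
    rw [hk4 i u hu (1, 0) rfl, hf3]
  have hgb : ∀ i, g' i (1, 0) = y := by
    intro i
    rw [← (hk2 i (1, 0) base_S2).2, hkb i 1 h1I]
  -- step (2)
  have hstep2 : ∀ i, ∃ h' : ℝ × R3 → S4, (∃ L : NNReal, LipschitzOnWith L h' (Icc (0 : ℝ) 1 ×ˢ S2)) ∧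
      (∀ m ∈ S2, h' (0, m) = g' i m ∧ h' (1, m) = b i m) ∧
      ∀ u ∈ Icc (0 : ℝ) 1, ∀ m ∈ S2, h' (u, m) ∉ A := by
    intro i
    set f : ℝ × R3 → S4 := fun z =>
      if z.1 ≤ 1 / 2 then k i (1 - 2 * z.1, z.2) else h i (2 * z.1 - 1, z.2) with hf
    have hfc : ContinuousOn f (Icc (0 : ℝ) 1 ×ˢ S2) :=
      glue (hk1 i) (hf1 i) fun x hx => (hk2 i x hx).1
    have hf0 : ∀ m ∈ S2, f (0, m) = g' i m := by
      intro m hm
      have e1 : f (0, m) = k i (1 - 2 * 0, m) := if_pos (by norm_num)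
      rw [e1, mul_zero, sub_zero, (hk2 i m hm).2]
    have hf1' : ∀ m ∈ S2, f (1, m) = b i m := by
      intro m hm
      have e1 : f (1, m) = h i (2 * 1 - 1, m) := if_neg (by norm_num)
      have e2 : (2 * 1 - 1 : ℝ) = 1 := by norm_num
      rw [e1, e2, hf2 i m hm]
    obtain ⟨L₀, hL₀⟩ := hg' i
    obtain ⟨L₁, hL₁⟩ := hb i
    have hfoff : ∀ z ∈ Icc (0 : ℝ) 1 ×ˢ S2, f z ∉ A := by
      rintro ⟨u, m⟩ ⟨⟨hu0, hu1⟩, hm⟩
      simp only at hu0 hu1 hm
      by_cases hu : u ≤ 1 / 2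
      · have e1 : f (u, m) = k i (1 - 2 * u, m) := if_pos hu
        rw [e1]
        exact hk3 i _ ⟨by linarith, by linarith⟩ m hm
      · have e1 : f (u, m) = h i (2 * u - 1, m) := if_neg hu
        rw [e1]
        rw [not_le] at hu
        exact hf4 i _ ⟨by linarith, by linarith⟩ m hm
    obtain ⟨g, H, hg1, hH1, hH2, hH3, hH4⟩ := hLIP (ℝ × R3) (Icc (0 : ℝ) 1 ×ˢ S2)
      (({0, 1} : Set ℝ) ×ˢ S2) A f (isCompact_Icc.prod isCompact_S2) (by
        rintro ⟨u, m⟩ ⟨hu, hm⟩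
        refine ⟨?_, hm⟩
        rcases hu with hu | hu
        · have e : u = 0 := hu
          show u ∈ Icc (0 : ℝ) 1
          rw [e]
          exact h0I
        · have e : u = 1 := hu
          show u ∈ Icc (0 : ℝ) 1
          rw [e]
          exact h1I) hA hfc
      (lip_slices (L₀ := L₀) (L₁ := L₁)
        (LipschitzOnWith.of_dist_le_mul fun x hx z hz => by
          simp only [hf0 x hx, hf0 z hz]
          exact hL₀.dist_le_mul x hx z hz)
        (LipschitzOnWith.of_dist_le_mul fun x hx z hz => by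
          simp only [hf1' x hx, hf1' z hz]
          exact hL₁.dist_le_mul x hx z hz)) hfoff
    refine ⟨g, hg1, ?_, ?_⟩
    · intro m hm
      have z0 : ((0, m) : ℝ × R3) ∈ Icc (0 : ℝ) 1 ×ˢ S2 := ⟨h0I, hm⟩
      have z1 : ((1, m) : ℝ × R3) ∈ Icc (0 : ℝ) 1 ×ˢ S2 := ⟨h1I, hm⟩
      constructor
      · rw [← (hH2 _ z0).2, hH4 1 h1I (0, m) ⟨Or.inl rfl, hm⟩, hf0 m hm]
      · rw [← (hH2 _ z1).2, hH4 1 h1I (1, m) ⟨Or.inr rfl, hm⟩, hf1' m hm]
    · intro u hu m hm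
      have z0 : ((u, m) : ℝ × R3) ∈ Icc (0 : ℝ) 1 ×ˢ S2 := ⟨hu, hm⟩
      rw [← (hH2 _ z0).2]
      exact hH3 1 h1I _ z0
  choose h' hh1 hh2 hh3 using hstep2
  -- step (3)
  set G : ℝ → Fin n → R3 → S4 := fun τ i m => k i (τ, m) with hG
  have hGb : ∀ τ ∈ Icc (0 : ℝ) 1, ∀ i, G τ i (1, 0) = y := fun τ hτ i => hkb i τ hτ
  set f : ℝ × ℝ × ℝ → S4 := fun z =>
    if z.1 ≤ 1 / 2 then evM y (G (1 - 2 * z.1)) l z.2.1 z.2.2 else N (2 * z.1 - 1, z.2) with hf
  have hev : ∀ q s : ℝ, evM y (G 0) l q s = evM y (fun i m => h i (0, m)) l q s := fun q s =>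
    evM_congr y _ _ (fun i m hm => (hk2 i m hm).1) l q s
  have hev1 : ∀ q s : ℝ, evM y (G 1) l q s = evM y g' l q s := fun q s =>
    evM_congr y _ _ (fun i m hm => (hk2 i m hm).2) l q s
  have hfc : ContinuousOn f box := by
    have h1 : ContinuousOn (fun z : ℝ × ℝ × ℝ => evM y (G z.1) l z.2.1 z.2.2)
        (Icc (0 : ℝ) 1 ×ˢ (Icc (0 : ℝ) 1 ×ˢ Icc (9 / 20 : ℝ) (11 / 20))) := by
      refine (he3 ℝ S4 (Icc (0 : ℝ) 1) n y k l isClosed_Icc hk1 (fun i τ hτ => hkb i τ hτ)).mono ?_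
      rintro ⟨u, q, s⟩ ⟨hu, hq, -⟩
      exact ⟨hu, hq, mem_univ _⟩
    refine glue (f := fun z : ℝ × ℝ × ℝ => evM y (G z.1) l z.2.1 z.2.2) (g := N) h1 hn1 ?_
    rintro ⟨q, s⟩ ⟨hq, hs⟩
    show evM y (G 0) l q s = N (0, q, s)
    rw [hev, (hn2 q hq s hs).1]
  have hfle : ∀ u q s : ℝ, u ≤ 1 / 2 → f (u, q, s) = evM y (G (1 - 2 * u)) l q s :=
    fun u q s hu => if_pos hu
  have hfgt : ∀ u q s : ℝ, ¬ u ≤ 1 / 2 → f (u, q, s) = N (2 * u - 1, q, s) :=
    fun u q s hu => if_neg hu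
  have hf0 : ∀ q s : ℝ, f (0, q, s) = evM y g' l q s := by
    intro q s
    rw [hfle 0 q s (by norm_num), mul_zero, sub_zero, hev1]
  have hf1' : ∀ q ∈ Icc (0 : ℝ) 1, ∀ s ∈ Icc (9 / 20 : ℝ) (11 / 20), f (1, q, s) = y := by
    intro q hq s hs
    have e2 : (2 * 1 - 1 : ℝ) = 1 := by norm_num
    rw [hfgt 1 q s (by norm_num), e2, (hn2 q hq s hs).2]
  have hfb : ∀ u ∈ Icc (0 : ℝ) 1, ∀ q ∈ Icc (0 : ℝ) 1, ∀ s ∈ Icc (9 / 20 : ℝ) (11 / 20),
      f (u, q, s) ∉ A ∧ ((q = 0 ∨ q = 1 ∨ s = 9 / 20 ∨ s = 11 / 20) → f (u, q, s) = y) := by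
    rintro u ⟨hu0, hu1⟩ q hq s hs
    by_cases hu : u ≤ 1 / 2
    · rw [hfle u q s hu]
      have hτ : 1 - 2 * u ∈ Icc (0 : ℝ) 1 := ⟨by linarith, by linarith⟩
      refine ⟨evM_off A y hy _ (fun i m hm => hk3 i _ hτ m hm) l q s, ?_⟩
      intro hqs
      apply he2 S4 n y _ l q s (hGb _ hτ)
      rcases hqs with h1 | h1 | h1 | h1
      · exact Or.inl h1
      · exact Or.inr (Or.inl h1)
      · exact Or.inr (Or.inr (Or.inl h1.le))
      · exact Or.inr (Or.inr (Or.inr h1.ge))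
    · rw [hfgt u q s hu]
      rw [not_le] at hu
      exact hn3 _ ⟨by linarith, by linarith⟩ q hq s hs
  -- the Lipschitz property on the boundary
  set P₀ : Set (ℝ × ℝ × ℝ) := {z | z ∈ box ∧ (z.1 = 0 ∨ z.1 = 1 ∨ z.2.1 = 0 ∨ z.2.1 = 1 ∨
    z.2.2 = 9 / 20 ∨ z.2.2 = 11 / 20)} with hP₀
  obtain ⟨L₀, hL₀⟩ := he4 S4 n y g' l hg' hgb
  have hval : ∀ z ∈ P₀, z.1 ≠ 0 → f z = y := by
    rintro ⟨u, q, s⟩ ⟨⟨hu, hq, hs⟩, hz⟩ hu0
    rcases hz with h1 | h1 | h1
    · exact absurd h1 hu0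
    · have e : u = 1 := h1
      rw [e]
      exact hf1' q hq s hs
    · exact (hfb u hu q hq s hs).2 h1
  have hside : ∀ q s q' s' : ℝ, (q, s) ∈ Icc (0 : ℝ) 1 ×ˢ Icc (9 / 20 : ℝ) (11 / 20) →
      (q', s') ∈ Icc (0 : ℝ) 1 ×ˢ Icc (9 / 20 : ℝ) (11 / 20) →
      dist (f (0, q, s)) (f (0, q', s')) ≤ L₀ * dist ((q, s) : ℝ × ℝ) (q', s') := by
    intro q s q' s' h1 h2
    rw [hf0, hf0]
    exact hL₀.dist_le_mul (q, s) h1 (q', s') h2
  have hmix : ∀ z ∈ P₀, ∀ z' ∈ P₀, z.1 = 0 → z'.1 ≠ 0 →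
      dist (f z) (f z') ≤ (max L₀ 2 : NNReal) * dist z z' := by
    rintro ⟨u, q, s⟩ ⟨⟨hu, hq, hs⟩, hz⟩ ⟨u', q', s'⟩ ⟨⟨hu', hq', hs'⟩, hz'⟩ hu0 hu0'
    have e : u = 0 := hu0
    have hfz' : f (u', q', s') = y := hval _ ⟨⟨hu', hq', hs'⟩, hz'⟩ hu0'
    have hL0 : (L₀ : ℝ) ≤ ((max L₀ 2 : NNReal) : ℝ) := NNReal.coe_le_coe.2 (le_max_left _ _)
    have hL2 : (2 : ℝ) ≤ ((max L₀ 2 : NNReal) : ℝ) := NNReal.coe_le_coe.2 (le_max_right L₀ 2)
    have hsnd : dist ((q, s) : ℝ × ℝ) (q', s') ≤ dist ((u, q, s) : ℝ × ℝ × ℝ) (u', q', s') :=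
      le_max_right _ _
    have hfst : dist u u' ≤ dist ((u, q, s) : ℝ × ℝ × ℝ) (u', q', s') := le_max_left _ _
    rcases hz' with h1 | h1 | h1
    · exact absurd h1 hu0'
    · have e' : u' = 1 := h1
      have : (1 : ℝ) ≤ dist ((u, q, s) : ℝ × ℝ × ℝ) (u', q', s') := by
        refine le_trans ?_ hfst
        rw [e, e', Real.dist_eq]
        norm_num
      calc dist (f (u, q, s)) (f (u', q', s')) ≤ 2 * 1 := by
            linarith [dist_S4 (f (u, q, s)) (f (u', q', s'))]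
        _ ≤ _ := mul_le_mul hL2 this (by norm_num) (by positivity)
    · have hp : f (0, q', s') = y := (hfb 0 h0I q' hq' s' hs').2 h1
      rw [hfz', ← hp]
      subst e
      calc dist (f (0, q, s)) (f (0, q', s')) ≤ L₀ * dist ((q, s) : ℝ × ℝ) (q', s') :=
            hside q s q' s' ⟨hq, hs⟩ ⟨hq', hs'⟩
        _ ≤ _ := mul_le_mul hL0 hsnd dist_nonneg (by positivity)
  have hlip : ∃ L : NNReal, LipschitzOnWith L f P₀ := by
    refine ⟨max L₀ 2, LipschitzOnWith.of_dist_le_mul ?_⟩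
    intro z hz z' hz'
    by_cases h1 : z.1 = 0
    · by_cases h2 : z'.1 = 0
      · obtain ⟨u, q, s⟩ := z
        obtain ⟨u', q', s'⟩ := z'
        have e1 : u = 0 := h1
        have e2 : u' = 0 := h2
        subst e1
        subst e2
        have hL0 : (L₀ : ℝ) ≤ ((max L₀ 2 : NNReal) : ℝ) := NNReal.coe_le_coe.2 (le_max_left _ _)
        have hsnd : dist ((q, s) : ℝ × ℝ) (q', s') ≤ dist ((0, q, s) : ℝ × ℝ × ℝ) (0, q', s') :=
          le_max_right _ _
        calc dist (f (0, q, s)) (f (0, q', s')) ≤ L₀ * dist ((q, s) : ℝ × ℝ) (q', s') :=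
              hside q s q' s' ⟨hz.1.2.1, hz.1.2.2⟩ ⟨hz'.1.2.1, hz'.1.2.2⟩
          _ ≤ _ := mul_le_mul hL0 hsnd dist_nonneg (by positivity)
      · exact hmix z hz z' hz' h1 h2
    · by_cases h2 : z'.1 = 0
      · rw [dist_comm, dist_comm z z']
        exact hmix z' hz' z hz h2 h1
      · rw [hval z hz h1, hval z' hz' h2, dist_self]
        positivity
  have hboxc : IsCompact box := isCompact_Icc.prod (isCompact_Icc.prod isCompact_Icc)
  obtain ⟨N', H, hN1, hH1, hH2, hH3, hH4⟩ := hLIP (ℝ × ℝ × ℝ) box P₀ A f hboxc (fun z hz => hz.1) hA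
    hfc hlip (by
      rintro ⟨u, q, s⟩ ⟨hu, hq, hs⟩
      exact (hfb u hu q hq s hs).1)
  have hNP : ∀ z ∈ P₀, N' z = f z := by
    intro z hz
    rw [← (hH2 z hz.1).2, hH4 1 h1I z hz]
  refine ⟨h', N', ⟨?_, ?_, ?_, ?_⟩, ⟨?_, ?_, ?_⟩, ?_, ?_⟩
  · intro i
    obtain ⟨L, hL⟩ := hh1 i
    exact hL.continuousOn
  · intro i m hm
    exact (hh2 i m hm).2
  · intro i
    rw [(hh2 i (1, 0) base_S2).1, hgb]
  · exact fun i u hu m hm => hh3 i u hu m hm
  · obtain ⟨L, hL⟩ := hN1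
    exact hL.continuousOn
  · intro q hq s hs
    constructor
    · rw [hNP (0, q, s) ⟨⟨h0I, hq, hs⟩, Or.inl rfl⟩, hf0]
      exact evM_congr y _ _ (fun i m hm => ((hh2 i m hm).1).symm) l q s
    · rw [hNP (1, q, s) ⟨⟨h1I, hq, hs⟩, Or.inr (Or.inl rfl)⟩]
      exact hf1' q hq s hs
  · intro u hu q hq s hs
    constructor
    · have hz : ((u, q, s) : ℝ × ℝ × ℝ) ∈ box := ⟨hu, hq, hs⟩
      rw [← (hH2 _ hz).2]
      exact hH3 1 h1I _ hz
    · intro hqs
      rw [hNP (u, q, s) ⟨⟨hu, hq, hs⟩, Or.inr (Or.inr hqs)⟩]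
      exact (hfb u hu q hq s hs).2 hqs
  · intro i
    obtain ⟨L, hL⟩ := hh1 i
    set C : Set (ℝ × ℝ × ℝ) := Icc (0 : ℝ) 1 ×ˢ (Icc (0 : ℝ) 1 ×ˢ Icc (0 : ℝ) 1) with hC
    have hCc : IsCompact C := isCompact_Icc.prod (isCompact_Icc.prod isCompact_Icc)
    have hψ : LipschitzOnWith (max 1 Lq) (fun z : ℝ × ℝ × ℝ => ((z.1, mq z.2.1 z.2.2) : ℝ × R3)) C := by
      refine LipschitzOnWith.of_dist_le_mul ?_
      rintro ⟨u, p, q⟩ ⟨hu, hp⟩ ⟨u', p', q'⟩ ⟨hu', hp'⟩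
      have h1 : ((1 : NNReal) : ℝ) ≤ ((max 1 Lq : NNReal) : ℝ) := NNReal.coe_le_coe.2 (le_max_left 1 Lq)
      have h2 : (Lq : ℝ) ≤ ((max 1 Lq : NNReal) : ℝ) := NNReal.coe_le_coe.2 (le_max_right 1 Lq)
      refine max_le ?_ ?_
      · calc dist u u' ≤ ((1 : NNReal) : ℝ) * dist ((u, p, q) : ℝ × ℝ × ℝ) (u', p', q') := by
              rw [NNReal.coe_one, one_mul]
              exact le_max_left _ _
          _ ≤ _ := mul_le_mul_of_nonneg_right h1 dist_nonneg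
      · calc dist (mq p q) (mq p' q') ≤ Lq * dist ((p, q) : ℝ × ℝ) (p', q') :=
              hq5.dist_le_mul (p, q) hp (p', q') hp'
          _ ≤ _ := mul_le_mul h2 (le_max_right _ _) dist_nonneg (by positivity)
    have hmap : MapsTo (fun z : ℝ × ℝ × ℝ => ((z.1, mq z.2.1 z.2.2) : ℝ × R3)) C (Icc (0 : ℝ) 1 ×ˢ S2) := by
      rintro ⟨u, p, q⟩ ⟨hu, -⟩
      exact ⟨hu, hqS p q⟩
    have h3 := hDIM (fun z : ℝ × ℝ × ℝ => h' i (z.1, mq z.2.1 z.2.2)) C hCc
      ⟨L * max 1 Lq, hL.comp hψ hmap⟩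
    refine Set.eq_empty_of_subset_empty ?_
    rw [← h3.2]
    refine interior_mono ?_
    rintro _ ⟨⟨u, m⟩, ⟨hu, hm⟩, rfl⟩
    obtain ⟨p, hp, q, hq, hpq⟩ := hq4 m hm
    refine ⟨(u, p, q), ⟨hu, hp, hq⟩, ?_⟩
    show h' i (u, mq p q) = h' i (u, m)
    rw [hpq]
  · exact (hDIM N' box hboxc hN1).2

end Pool.Agent.Helper18.BI.R


end

/-! ## Helper2.BI5.M_TCF -/

section

/-!
# Project BI, stage 5, module TCF: the class of the end of an isotopy
-/

set_option autoImplicit false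

open scoped Manifold ContDiff Topology ComplexConjugate
open Set Filter Pool.Agent.Helper65.Barb Pool.Agent.Helper18.BI
open Pool.Agent.Helper70.BI (I4 LD NearEq IsW ld_iff ld_dfam embOn_comp contDiff_dfam)
open Pool.Agent.Helper27.H

namespace Pool.Agent.Helper27.S5

namespace TCF

/-- a family with support in `K` maps `K` into itself -/
theorem maps_supp {A : DFam 𝓘(ℝ, R4) R4} {K : Set R4} (hK : ∀ t x, x ∉ K → A.f (t, x) = x)
    {t : ℝ} {x : R4} (hx : x ∈ K) : A.f (t, x) ∈ K := by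
  by_contra hcon
  have h1 : A.f (t, A.f (t, x)) = A.f (t, x) := hK t _ hcon
  have h2 : A.g (t, A.f (t, A.f (t, x))) = A.g (t, A.f (t, x)) := congrArg (fun y => A.g (t, y)) h1
  rw [A.gf, A.gf] at h2
  exact hcon (h2.symm ▸ hx)

end TCF

theorem m_TCF : StTCF := by
  intro D A χ h0 hS hN hχ
  obtain ⟨K, hKc, hKU, hK⟩ := hS
  obtain ⟨N, hNo, hLN, hN1⟩ := hN
  have hcont : ∀ p ∈ D.L, ContinuousAt D.J p := fun p hp =>
    (ld_iff.1 (D.emb.1 p hp)).1.self_of_nhds.continuousAt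
  have hnear : ∀ p ∈ D.L, D.J p ∉ K → p ∈ interior {p | D.J p ∉ K} := by
    intro p hp hpK
    rw [mem_interior_iff_mem_nhds]
    exact (hcont p hp).eventually (hKc.isClosed.isOpen_compl.mem_nhds hpK)
  have hV : ∀ p ∈ interior {p | D.J p ∉ K}, D.J p ∉ K := fun p hp => interior_subset hp
  refine ⟨fun q p => A.f (q, D.J p), ?_, interior {p | D.J p ∉ K}, isOpen_interior, ?_, ?_, ?_,
    ?_, ?_, ?_, fun x => A.f (1, x), ?_, hχ⟩
  · intro q _ s hs
    simp only [D.core s hs]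
  · refine hnear _ (D.mem_L ⟨le_rfl, D.le₀₁⟩) fun h => D.off₀ ?_
    rw [← D.core D.s₀ ⟨le_rfl, D.le₀₁⟩]
    exact hKU h
  · refine hnear _ (D.mem_L ⟨D.le₀₁, le_rfl⟩) fun h => D.off₁ ?_
    rw [← D.core D.s₁ ⟨D.le₀₁, le_rfl⟩]
    exact hKU h
  · refine ⟨?_, ?_, ?_, ?_⟩
    · intro a _ p hp
      have h1 := (ld_iff.1 (D.emb.1 p hp)).1
      have h3 : ContinuousAt (fun z : (ℝ × ℝ) × R4 => z.2) (a, p) := continuousAt_snd
      filter_upwards [h3.eventually h1] with z e1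
      have e2 : ContDiffAt ℝ ∞ (fun z : (ℝ × ℝ) × R4 => D.J z.2) z := e1.comp z contDiffAt_snd
      have e3 : ContDiffAt ℝ ∞ (fun z : (ℝ × ℝ) × R4 => (z.1.2, D.J z.2)) z :=
        (contDiff_snd.comp contDiff_fst).contDiffAt.prodMk e2
      exact (contDiff_dfam A).contDiffAt.comp z e3
    · intro a _
      have e1 : EmbOn I4 (fun y => A.f (a.2, y)) (D.J '' D.L) := by
        refine ⟨fun y _ => ld_dfam A a.2 y, fun y _ y' _ h => ?_⟩
        have h2 : A.g (a.2, A.f (a.2, y)) = A.g (a.2, A.f (a.2, y')) :=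
          congrArg (fun y => A.g (a.2, y)) h
        rwa [A.gf, A.gf] at h2
      exact embOn_comp e1 D.emb (fun p hp => mem_image_of_mem _ hp)
    · intro a _ b _ p hp
      simp only [hK _ _ (hV p hp)]
    · intro a _ p hp hpV
      have hpK : D.J p ∈ K := by
        by_contra hcon
        exact hpV (hnear p hp hcon)
      exact hKU (TCF.maps_supp hK hpK)
  · intro p _
    exact h0 _
  · exact ⟨univ, isOpen_univ, subset_univ _, fun p _ => h0 _⟩
  · exact ⟨N, hNo, hLN, fun p hp => hN1 p hp⟩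
  · refine ⟨A.reparam step contDiff_step, ?_, ?_, ⟨K, hKc, hKU, fun t x hx => hK _ x hx⟩, univ,
      isOpen_univ, subset_univ _, ?_⟩
    · intro x
      change A.f (step 0, x) = x
      rw [Pool.Agent.Helper27.BI.step_zero, h0]
    · intro x
      change A.f (step 1, x) = A.f (1, x)
      rw [Pool.Agent.Helper27.BI.step_one]
    · intro t _ p _
      change A.f (step t, A.f (0, D.J p)) = A.f (step t, D.J p)
      rw [h0]

end Pool.Agent.Helper27.S5


end
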