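import Pool.Agent.Helper65.Barb.Defs
import Pool.Agent.Helper70.BI.C.P24
import Pool.Agent.Helper70.BI.C.P26
import Pool.Agent.Helper70.BI.C.P43

/-!
# Project BI (MP_8e98f2_gt): collected modules, part 47

The contents of the modules
* Helper34.BI.H.M_CIRC

in one file, so that the whole proof builds in a short time.
-/

namespace Pool.Agent.Helper18.BI
end Pool.Agent.Helper18.BI

namespace Pool.Agent.Helper27.BI
end Pool.Agent.Helper27.BI

namespace Pool.Agent.Helper65.Barb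
end Pool.Agent.Helper65.Barb


/-! ## Helper34.BI.H.M_CIRC -/

section

/-!
# Project BI, stage 3, module CIRC: the barbell map is a push along the localized circle
-/

set_option autoImplicit false

open Module Set Filter Topology
open scoped ContDiff Manifold
open Pool.Agent.Helper18.BI Pool.Agent.Helper27.BI
open Pool.Agent.Helper65.Barb hiding chi step_symm

namespace Pool.Agent.Helper34.BI.H

private theorem step_half_CIRC : step (1 / 2) = 1 / 2 := by
  have h := step_symm (1 / 2)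
  norm_num at h
  linarith

private theorem step_lt_CIRC {s : ℝ} (hs : s < 1 / 2) : step s < 1 / 2 := by
  have hd := Real.smoothTransition.pos_denom s
  have h1 : expNegInvGlue s < expNegInvGlue (1 - s) := by
    rcases le_or_gt s 0 with h0 | h0
    · rw [expNegInvGlue.zero_of_nonpos h0]
      exact expNegInvGlue.pos_of_pos (by linarith)
    · unfold expNegInvGlue
      rw [if_neg (not_le.2 h0), if_neg (not_le.2 (by linarith))]
      apply Real.exp_lt_exp.2
      apply neg_lt_neg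
      exact inv_strictAnti₀ h0 (by linarith)
  show expNegInvGlue s / (expNegInvGlue s + expNegInvGlue (1 - s)) < 1 / 2
  rw [div_lt_iff₀ hd]
  linarith

private theorem step_gt_CIRC {s : ℝ} (hs : 1 / 2 < s) : 1 / 2 < step s := by
  have h := step_lt_CIRC (s := 1 - s) (by linarith)
  rw [step_symm] at h
  linarith

private theorem step_pos_CIRC {s : ℝ} (hs : 0 < s) : 0 < step s :=
  Real.smoothTransition.pos_of_pos hs

private theorem step_lt_one_CIRC {s : ℝ} (hs : s < 1) : step s < 1 :=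
  Real.smoothTransition.lt_one_of_lt_one hs

private theorem sin_pos_CIRC {s : ℝ} (h0 : 0 < s) (h1 : s < 1 / 2) : 0 < Real.sin (phi s) := by
  have e1 := step_pos_CIRC h0
  have e2 := step_lt_CIRC h1
  apply Real.sin_pos_of_pos_of_lt_pi
  · unfold phi
    have := Real.pi_pos
    positivity
  · unfold phi
    have := mul_lt_mul_of_pos_left e2 Real.pi_pos
    linarith

private theorem sin_neg_CIRC {s : ℝ} (h0 : 1 / 2 < s) (h1 : s < 1) : Real.sin (phi s) < 0 := by
  have e1 := step_gt_CIRC h0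
  have e2 := step_lt_one_CIRC h1
  have h2 : Real.sin (phi s) = -Real.sin (phi s - Real.pi) := by
    rw [Real.sin_sub_pi, neg_neg]
  rw [h2, neg_lt_zero]
  apply Real.sin_pos_of_pos_of_lt_pi
  · unfold phi
    have := mul_lt_mul_of_pos_left e1 Real.pi_pos
    linarith
  · unfold phi
    have := mul_lt_mul_of_pos_left e2 Real.pi_pos
    linarith

private theorem chi_half_CIRC : chi (1 / 2) = 1 := by
  unfold chi phi
  rw [step_half_CIRC, show 2 * Real.pi * (1 / 2) = Real.pi by ring, Real.cos_pi]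
  norm_num

/-- the two-parameter family -/
private noncomputable def gam_CIRC (κ : ℝ → ℝ) (u q s : ℝ) : R3 :=
  (1 - u) • zarc (Real.sin (Real.pi * q)) (chi s) q s + u • warc κ q s

private theorem gam_fst_CIRC (κ : ℝ → ℝ) (u q s : ℝ) : (gam_CIRC κ u q s).1 =
    1 + ((1 - u) * chi s + u * κ s) * (Real.cos (2 * Real.pi * q) - 1) := by
  simp only [gam_CIRC, zarc, warc, Prod.fst_add, Prod.smul_fst, smul_eq_mul]
  ring

private theorem gam_re_CIRC (κ : ℝ → ℝ) (u q s : ℝ) : (gam_CIRC κ u q s).2.re =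
    (1 - u) * (-Real.sin (Real.pi * q) * Real.sin (phi s)) +
      u * ((s - 1 / 2) * (κ s * (1 - Real.cos (2 * Real.pi * q)))) := by
  simp only [gam_CIRC, zarc, warc, Prod.snd_add, Prod.smul_snd, Complex.add_re, Complex.real_smul,
    Complex.mul_re, Complex.ofReal_re, Complex.ofReal_im, zero_mul, sub_zero]

private theorem gam_im_CIRC (κ : ℝ → ℝ) (u q s : ℝ) : (gam_CIRC κ u q s).2.im =
    ((1 - u) * chi s + u * κ s) * Real.sin (2 * Real.pi * q) := by
  simp only [gam_CIRC, zarc, warc, Prod.snd_add, Prod.smul_snd, Complex.add_im, Complex.real_smul,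
    Complex.mul_im, Complex.ofReal_re, Complex.ofReal_im, zero_mul, add_zero]
  ring

private theorem ne_CIRC {κ : ℝ → ℝ} (hm : ∀ s, κ s ∈ Icc (0 : ℝ) 1) (hh : κ (1 / 2) = 1)
    (he : ∀ s, (s ≤ 0 ∨ 1 ≤ s) → κ s = 0) {u q s : ℝ} (hu : u ∈ Icc (0 : ℝ) 1)
    (hq : q ∈ Icc (0 : ℝ) 1) : gam_CIRC κ u q s ≠ 0 := by
  intro h0
  have h1 := gam_fst_CIRC κ u q s
  have h2 := gam_re_CIRC κ u q s
  have h3 := gam_im_CIRC κ u q s
  rw [h0] at h1 h2 h3
  simp only [Prod.fst_zero, Prod.snd_zero, Complex.zero_re, Complex.zero_im] at h1 h2 h3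
  obtain ⟨hu0, hu1⟩ := hu
  obtain ⟨hk0, hk1⟩ := hm s
  have hS := sin_pi_nonneg hq
  have hC : Real.cos (2 * Real.pi * q) = 1 - 2 * Real.sin (Real.pi * q) ^ 2 := by
    have : 2 * Real.pi * q = 2 * (Real.pi * q) := by ring
    rw [this, Real.cos_two_mul]
    linarith [Real.sin_sq_add_cos_sq (Real.pi * q)]
  have hCS := Real.sin_sq_add_cos_sq (2 * Real.pi * q)
  set C := Real.cos (2 * Real.pi * q)
  set Sn := Real.sin (2 * Real.pi * q)
  set S := Real.sin (Real.pi * q)
  set k := (1 - u) * chi s + u * κ s with hk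
  have hSn : Sn = 0 := by
    rcases mul_eq_zero.1 h3.symm with h | h
    · rw [h] at h1
      norm_num at h1
    · exact h
  have hCC : C = -1 := by
    rw [hSn] at hCS
    have h4 : (C - 1) * (C + 1) = 0 := by linarith
    rcases mul_eq_zero.1 h4 with h | h
    · rw [h] at h1
      norm_num at h1
    · linarith
  have hkk : k = 1 / 2 := by
    rw [hCC] at h1
    linarith
  have hS1 : S = 1 := by
    have h4 : (S - 1) * (S + 1) = 0 := by linarith
    rcases mul_eq_zero.1 h4 with h | h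
    · linarith
    · linarith
  rw [hS1, hCC] at h2
  rcases le_or_gt s 0 with hs | hs
  · rw [hk, he s (Or.inl hs), chi_end (Or.inl hs)] at hkk
    norm_num at hkk
  rcases le_or_gt 1 s with hs' | hs'
  · rw [hk, he s (Or.inr hs'), chi_end (Or.inr hs')] at hkk
    norm_num at hkk
  rcases lt_trichotomy s (1 / 2) with hs2 | hs2 | hs2
  · have hp := sin_pos_CIRC hs hs2
    have t1 : 0 ≤ (1 - u) * Real.sin (phi s) := mul_nonneg (by linarith) hp.le
    have t2 : 0 ≤ u * ((1 / 2 - s) * κ s) := mul_nonneg hu0 (mul_nonneg (by linarith) hk0)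
    have t3 : (1 - u) * Real.sin (phi s) = 0 := by linarith
    have t4 : u * ((1 / 2 - s) * κ s) = 0 := by linarith
    have t5 : u = 1 := by
      rcases mul_eq_zero.1 t3 with h | h
      · linarith
      · exact absurd h hp.ne'
    rw [t5, one_mul] at t4
    have t6 : κ s = 0 := by
      rcases mul_eq_zero.1 t4 with h | h
      · linarith
      · exact h
    rw [hk, t5, t6] at hkk
    norm_num at hkk
  · rw [hk, hs2, hh, chi_half_CIRC] at hkk
    norm_num at hkk
  · have hp := sin_neg_CIRC hs2 hs'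
    have t1 : 0 ≤ (1 - u) * -Real.sin (phi s) := mul_nonneg (by linarith) (by linarith)
    have t2 : 0 ≤ u * ((s - 1 / 2) * κ s) := mul_nonneg hu0 (mul_nonneg (by linarith) hk0)
    have t3 : (1 - u) * -Real.sin (phi s) = 0 := by linarith
    have t4 : u * ((s - 1 / 2) * κ s) = 0 := by linarith
    have t5 : u = 1 := by
      rcases mul_eq_zero.1 t3 with h | h
      · linarith
      · linarith
    rw [t5, one_mul] at t4
    have t6 : κ s = 0 := by
      rcases mul_eq_zero.1 t4 with h | h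
      · linarith
      · exact h
    rw [hk, t5, t6] at hkk
    norm_num at hkk

private theorem nsq_smul_CIRC (l : ℝ) (x : R3) : nsq (l • x) = l ^ 2 * nsq x := by
  simp only [nsq, Prod.smul_fst, Prod.smul_snd, smul_eq_mul, Complex.real_smul, Complex.mul_re,
    Complex.mul_im, Complex.ofReal_re, Complex.ofReal_im, zero_mul, sub_zero, add_zero]
  ring

private theorem nsq_warc_CIRC {κ : ℝ → ℝ} (hm : ∀ s, κ s ∈ Icc (0 : ℝ) 1) (q : ℝ) {s : ℝ}
    (hs : s ∈ Icc (0 : ℝ) 1) : nsq (warc κ q s) ≤ (3 / 2) ^ 2 := by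
  obtain ⟨hk0, hk1⟩ := hm s
  obtain ⟨hs0, hs1⟩ := hs
  have hCS := Real.sin_sq_add_cos_sq (2 * Real.pi * q)
  have hC0 := Real.neg_one_le_cos (2 * Real.pi * q)
  have hC1 := Real.cos_le_one (2 * Real.pi * q)
  have e : nsq (warc κ q s) = 1 - 2 * κ s * (1 - κ s) * (1 - Real.cos (2 * Real.pi * q)) +
      ((s - 1 / 2) * (κ s * (1 - Real.cos (2 * Real.pi * q)))) ^ 2 := by
    simp only [nsq, warc]
    linear_combination κ s ^ 2 * hCS
  have h1 : 0 ≤ 2 * κ s * (1 - κ s) * (1 - Real.cos (2 * Real.pi * q)) :=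
    mul_nonneg (mul_nonneg (by linarith) (by linarith)) (by linarith)
  have h2 : ((s - 1 / 2) * (κ s * (1 - Real.cos (2 * Real.pi * q)))) ^ 2 ≤ 1 := by
    have h3 : 0 ≤ κ s * (1 - Real.cos (2 * Real.pi * q)) := mul_nonneg hk0 (by linarith)
    have h4 : κ s * (1 - Real.cos (2 * Real.pi * q)) ≤ 2 := by
      have := mul_le_mul_of_nonneg_right hk1 (show 0 ≤ 1 - Real.cos (2 * Real.pi * q) by linarith)
      linarith
    have h5 : |(s - 1 / 2) * (κ s * (1 - Real.cos (2 * Real.pi * q)))| ≤ 1 := by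
      rw [abs_mul, abs_of_nonneg h3]
      have h6 : |s - 1 / 2| ≤ 1 / 2 := by rw [abs_le]; constructor <;> linarith
      exact (mul_le_mul h6 h4 h3 (by norm_num)).trans (by norm_num)
    rw [← sq_abs]
    exact pow_le_one₀ (abs_nonneg _) h5
  rw [e]
  linarith

private theorem contDiff_warc_CIRC {κ : ℝ → ℝ} (hκ : ContDiff ℝ ∞ κ) {F : Type}
    [NormedAddCommGroup F] [NormedSpace ℝ F] {q s : F → ℝ} (hq : ContDiff ℝ ∞ q)
    (hs : ContDiff ℝ ∞ s) : ContDiff ℝ ∞ (fun x => warc κ (q x) (s x)) := by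
  have h2 : ContDiff ℝ ∞ (fun x => 2 * Real.pi * q x) := contDiff_const.mul hq
  have h3 : ContDiff ℝ ∞ (fun x => Real.cos (2 * Real.pi * q x)) := Real.contDiff_cos.comp h2
  have h4 : ContDiff ℝ ∞ (fun x => Real.sin (2 * Real.pi * q x)) := Real.contDiff_sin.comp h2
  have h5 : ContDiff ℝ ∞ (fun x => κ (s x)) := hκ.comp hs
  unfold warc
  apply ContDiff.prodMk
  · exact contDiff_const.add (h5.mul (h3.sub contDiff_const))
  · have : (fun x => (⟨(s x - 1 / 2) * (κ (s x) * (1 - Real.cos (2 * Real.pi * q x))),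
        κ (s x) * Real.sin (2 * Real.pi * q x)⟩ : ℂ)) =
        fun x => (((s x - 1 / 2) * (κ (s x) * (1 - Real.cos (2 * Real.pi * q x))) : ℝ) : ℂ) +
          ((κ (s x) * Real.sin (2 * Real.pi * q x) : ℝ) : ℂ) * Complex.I := by
      funext x
      exact Complex.mk_eq_add_mul_I _ _
    rw [this]
    exact (Complex.ofRealCLM.contDiff.comp ((hs.sub contDiff_const).mul
      (h5.mul (contDiff_const.sub h3)))).add
      ((Complex.ofRealCLM.contDiff.comp (h5.mul h4)).mul contDiff_const)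

private theorem contDiff_gam_CIRC {κ : ℝ → ℝ} (hκ : ContDiff ℝ ∞ κ) :
    ContDiff ℝ ∞ (fun p : ℝ × ℝ × ℝ => gam_CIRC κ p.1 p.2.1 p.2.2) := by
  have hu : ContDiff ℝ ∞ (fun p : ℝ × ℝ × ℝ => p.1) := contDiff_fst
  have hq : ContDiff ℝ ∞ (fun p : ℝ × ℝ × ℝ => p.2.1) := contDiff_fst.comp contDiff_snd
  have hs : ContDiff ℝ ∞ (fun p : ℝ × ℝ × ℝ => p.2.2) := contDiff_snd.comp contDiff_snd
  exact ((contDiff_const.sub hu).smul (contDiff_zarc
    (Real.contDiff_sin.comp (contDiff_const.mul hq)) (contDiff_chi.comp hs) hq hs)).add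
    (hu.smul (contDiff_warc_CIRC hκ hq hs))

private theorem warc_zero_CIRC (κ : ℝ → ℝ) (s : ℝ) : warc κ 0 s = e1 := by
  simp [warc, e1]
  rfl

private theorem warc_one_CIRC (κ : ℝ → ℝ) (s : ℝ) : warc κ 1 s = e1 := by
  simp [warc, e1]
  rfl

private theorem warc_end_CIRC {κ : ℝ → ℝ} (q : ℝ) {s : ℝ} (h : κ s = 0) : warc κ q s = e1 := by
  simp [warc, e1, h]
  rfl

private theorem conv_CIRC (u : ℝ) (x : R3) : (1 - u) • x + u • x = x := by
  rw [← add_smul]
  simp

private theorem gam_zero_CIRC (κ : ℝ → ℝ) (u s : ℝ) : gam_CIRC κ u 0 s = e1 := by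
  have h : zarc (Real.sin (Real.pi * 0)) (chi s) 0 s = e1 := barPath_zero () s
  unfold gam_CIRC
  rw [h, warc_zero_CIRC, conv_CIRC]

private theorem gam_one_CIRC (κ : ℝ → ℝ) (u s : ℝ) : gam_CIRC κ u 1 s = e1 := by
  have h : zarc (Real.sin (Real.pi * 1)) (chi s) 1 s = e1 := barPath_one () s
  unfold gam_CIRC
  rw [h, warc_one_CIRC, conv_CIRC]

private theorem gam_left_CIRC (κ : ℝ → ℝ) (q s : ℝ) :
    gam_CIRC κ 0 q s = zarc (Real.sin (Real.pi * q)) (chi s) q s := by
  unfold gam_CIRC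
  rw [sub_zero, one_smul, zero_smul, add_zero]

private theorem gam_right_CIRC (κ : ℝ → ℝ) (q s : ℝ) : gam_CIRC κ 1 q s = warc κ q s := by
  unfold gam_CIRC
  rw [sub_self, one_smul, zero_smul, zero_add]

theorem m_CIRC (hCh : StCh) (hSpin : StSpin) : StCIRC := by
  intro κ hκ hm hh he
  -- the distance from the origin
  have hcont : Continuous (fun p : ℝ × ℝ × ℝ => nsq (gam_CIRC κ p.1 p.2.1 p.2.2)) :=
    (contDiff_nsq (contDiff_gam_CIRC hκ)).continuous
  have hcomp : IsCompact (Icc (0 : ℝ) 1 ×ˢ (Icc (0 : ℝ) 1 ×ˢ Icc (0 : ℝ) 1)) :=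
    isCompact_Icc.prod (isCompact_Icc.prod isCompact_Icc)
  obtain ⟨z, hz, hmin⟩ := hcomp.exists_isMinOn
    ⟨(0, 0, 0), by simp⟩ hcont.continuousOn
  have hpos : 0 < nsq (gam_CIRC κ z.1 z.2.1 z.2.2) := by
    have h1 := ne_CIRC hm hh he (s := z.2.2) hz.1 hz.2.1
    refine lt_of_le_of_ne (nsq_nonneg _) fun h => h1 ?_
    set x := gam_CIRC κ z.1 z.2.1 z.2.2
    have h2 : x.1 ^ 2 + x.2.re ^ 2 + x.2.im ^ 2 = 0 := h.symm
    have e1 : x.1 = 0 := by
      have : x.1 ^ 2 = 0 := by linarith [sq_nonneg x.1, sq_nonneg x.2.re, sq_nonneg x.2.im]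
      exact pow_eq_zero_iff two_ne_zero |>.1 this
    have e2 : x.2.re = 0 := by
      have : x.2.re ^ 2 = 0 := by linarith [sq_nonneg x.1, sq_nonneg x.2.re, sq_nonneg x.2.im]
      exact pow_eq_zero_iff two_ne_zero |>.1 this
    have e3 : x.2.im = 0 := by
      have : x.2.im ^ 2 = 0 := by linarith [sq_nonneg x.1, sq_nonneg x.2.re, sq_nonneg x.2.im]
      exact pow_eq_zero_iff two_ne_zero |>.1 this
    exact Prod.ext e1 (Complex.ext e2 e3)
  set m := nsq (gam_CIRC κ z.1 z.2.1 z.2.2) with hmdef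
  have hge : ∀ u ∈ Icc (0 : ℝ) 1, ∀ q ∈ Icc (0 : ℝ) 1, ∀ s ∈ Icc (0 : ℝ) 1,
      m ≤ nsq (gam_CIRC κ u q s) := fun u hu q hq s hs =>
    hmin (a := (u, q, s)) ⟨hu, hq, hs⟩
  refine ⟨min (3 / 20) (√m / 3), by positivity, fun ρ hρ => ?_⟩
  obtain ⟨hρ0, hρ1⟩ := hρ
  have hρ2 : ρ < 3 / 20 := hρ1.trans_le (min_le_left _ _)
  have hρ3 : (3 * ρ) ^ 2 ≤ m := by
    have h1 : ρ < √m / 3 := hρ1.trans_le (min_le_right _ _)
    have h2 := Real.sq_sqrt hpos.le
    rw [← h2]
    exact pow_le_pow_left₀ (by positivity) (by linarith) 2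
  have hOk : SqOk (ctube 0 ρ) ρ (fun (_ : Unit) u q s => gam_CIRC κ u q s) := by
    refine ⟨fun _ => contDiff_gam_CIRC hκ, fun _ => ⟨e1, fun u q s hs => ?_⟩, ?_, ?_, ?_⟩
    · unfold gam_CIRC
      rw [zarc_end _ _ _ hs (chi_end hs), warc_end_CIRC q (he s hs), conv_CIRC]
    · intro _ u hu q hq s hs x hx
      have h1 : nsq (gam_CIRC κ u q s) ≤ ((1 - u) * (3 / 2) + u * (3 / 2)) ^ 2 := by
        refine nsq_add_le (by linarith [hu.2]) (by linarith [hu.1]) ?_ ?_
        · rw [nsq_smul_CIRC, mul_pow]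
          exact mul_le_mul_of_nonneg_left (nsq_zarc_le q s (chi_mem s)
            ⟨sin_pi_nonneg hq, Real.sin_le_one _⟩) (sq_nonneg _)
        · rw [nsq_smul_CIRC, mul_pow]
          exact mul_le_mul_of_nonneg_left (nsq_warc_CIRC hm q hs) (sq_nonneg _)
      have h2 : nsq (gam_CIRC κ u q s) ≤ (3 / 2) ^ 2 := by
        refine h1.trans (le_of_eq ?_)
        ring
      have h3 : nsq (x - gam_CIRC κ u q s + gam_CIRC κ u q s) ≤ (2 * ρ + 3 / 2) ^ 2 :=
        nsq_add_le (by positivity) (by norm_num) hx h2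
      rw [sub_add_cancel] at h3
      exact h3.trans_lt (pow_lt_pow_left₀ (by linarith) (by positivity) two_ne_zero)
    · rintro ⟨⟩ ⟨⟩ h
      exact absurd rfl h
    · intro _ u hu q hq s hs x hx
      have hx' : nsq x ≤ ρ ^ 2 := by
        have h1 : nsq (x - 0) ≤ ρ ^ 2 := hx
        rwa [sub_zero] at h1
      exact nsq_sub_ge (r := ρ) (R := 3 * ρ) hρ0.le (by positivity) (by linarith) hx'
        (hρ3.trans (hge u hu q hq s hs))
  have h11 : (1 : ℝ) ∈ Icc (0 : ℝ) 1 := by simp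
  refine ⟨?_, fun Θ hΘ => ?_⟩
  · obtain ⟨Θ, hΘ, -⟩ := exists_push hCh hρ0 (hOk.fixU h11)
    exact ⟨Θ, hΘ.congr fun _ q _ s => gam_right_CIRC κ q s⟩
  · have hB : IsPush (ctube 0 ρ) ρ barPath barMap := by
      refine (isPush_barMap hSpin).mono (fun p hp => ?_) hρ0.le (by linarith)
      have h1 : nsq (p.2 - 0) ≤ ρ ^ 2 := hp
      rw [sub_zero] at h1
      have h2 : rsq 0 p = nsq p.2 := by simp [rsq]
      show rsq 0 p ≤ (1 / 5) ^ 2
      rw [h2]
      exact h1.trans (pow_le_pow_left₀ hρ0.le (by linarith) 2)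
    have h := square hCh hρ0 hOk (Θ1 := barMap) (Θ2 := fun x => x) (Θ3 := fun x => x) (Θ4 := Θ)
      (hB.congr fun _ q _ s => (gam_left_CIRC κ q s).symm)
      ((IsPush.const (fun (_ : Unit) _ => e1)).congr fun _ u _ s => (gam_one_CIRC κ u s).symm)
      ((IsPush.const (fun (_ : Unit) _ => e1)).congr fun _ u _ s => (gam_zero_CIRC κ u s).symm)
      (hΘ.congr fun _ q _ s => (gam_right_CIRC κ q s).symm)
    exact TIso.congr h (fun _ s => gam_zero_CIRC κ 0 s) (fun _ s => gam_one_CIRC κ 1 s)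
      (fun _ => rfl) (fun _ => rfl)

end Pool.Agent.Helper34.BI.H


end
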