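import Pool.Agent.Helper65.Barb.Defs
import Pool.Agent.Helper70.BI.C.P13

/-!
# Project BI (MP_8e98f2_gt): collected modules, part 56

The contents of the modules
* Helper70.BI.M_R3J
* Helper70.BI.M_LAS
* Helper18.BI.M_R3
* Helper18.BI.M_R1

in one file, so that the whole proof builds in a short time.
-/

namespace Pool.Agent.Helper18.BI
end Pool.Agent.Helper18.BI

namespace Pool.Agent.Helper27.BI
end Pool.Agent.Helper27.BI

namespace Pool.Agent.Helper34.BI
end Pool.Agent.Helper34.BI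

namespace Pool.Agent.Helper65.Barb
end Pool.Agent.Helper65.Barb


/-! ## Helper70.BI.M_R3J -/

section

/-!
# Project BI, part (E), module R3J
-/

set_option autoImplicit false

open scoped Manifold ContDiff Topology ComplexConjugate
open Set Filter Pool.Agent.Helper65.Barb Pool.Agent.Helper18.BI

namespace Pool.Agent.Helper70.BI

open Pool.Agent.Helper34.BI (BarData barFam)
open Pool.Agent.Helper27.BI (StVanT)

namespace R3J

theorem rsq_eq (c : ℝ) (p : R4) :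
    rsq c p = (p.2.1 - c) ^ 2 + p.2.2.re ^ 2 + p.2.2.im ^ 2 := rfl

theorem le_flat_zero {p : R4} (h : p ∈ flat 0) : p.2.1 ≤ 1 / 5 := by
  obtain ⟨-, h⟩ := h
  rw [rsq_eq] at h
  have h3 : p.2.1 ^ 2 ≤ (1 / 5) ^ 2 := by
    nlinarith [sq_nonneg p.2.2.re, sq_nonneg p.2.2.im]
  exact (abs_le_of_sq_le_sq' h3 (by norm_num)).2

theorem flat_one_le {p : R4} (h : p ∈ flat 1) : 4 / 5 ≤ p.2.1 := by
  obtain ⟨-, h⟩ := h
  rw [rsq_eq] at h
  have h3 : (p.2.1 - 1) ^ 2 ≤ (1 / 5) ^ 2 := by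
    nlinarith [sq_nonneg p.2.2.re, sq_nonneg p.2.2.im]
  linarith [(abs_le_of_sq_le_sq' h3 (by norm_num)).1]

theorem sph_sub_flat (c : ℝ) : sph c ⊆ flat c := fun _ hp => ⟨hp.1, hp.2.le⟩

theorem step_zero : step 0 = 0 := Real.smoothTransition.zero_of_nonpos le_rfl
theorem step_one : step 1 = 1 := Real.smoothTransition.one_of_one_le le_rfl

theorem not_U3 {p : R4} (h : p ∈ U3) : p ∉ flat 0 ∪ flat 1 := by
  rintro (hp | hp)
  · rcases h with h | h
    · exact h hp.1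
    · linarith [h.1, le_flat_zero hp]
  · rcases h with h | h
    · exact h hp.1
    · linarith [h.2, flat_one_le hp]

theorem contDiff_ax : ContDiff ℝ ∞ ax := by
  unfold ax
  exact contDiff_const.prodMk (contDiff_id.prodMk contDiff_const)

end R3J

open R3J in
theorem m_R3J (hARC3 : StARC3) (hF : StFam) (hV : StVanT) : StR3J := by
  intro d hd
  obtain ⟨H, hH, hends, hstr, hpar, hoff, hinj, himm⟩ := hARC3 d hd
  have D : BarData (fun p : R4 => p) ax H (1 / 20) := {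
    loc := fun p _ => (ld_iff (F := fun p : R4 => p)).2
      ⟨Eventually.of_forall fun q => contDiffAt_id, by
        rw [fderiv_fun_id]
        exact fun v w h => h⟩
    pos := by norm_num
    small := by norm_num
    smooth_c := contDiff_ax
    smooth_H := hH
    core := fun a _ => rfl
    frozen := fun t a h => hends t a (by
      rcases h with h | h
      · left; linarith
      · right; linarith) }
  -- the arcs avoid the cuffs
  have hcases : ∀ t, ∀ a ∈ Ioo (1 / 5 : ℝ) (4 / 5), H (t, a) ∉ sph 0 ∪ sph 1 := by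
    intro t a ha hm
    by_cases h1 : |a - 2 / 5| ≤ 1 / 100
    · rw [hstr t a h1] at hm
      rcases hm with hm | hm
      · have := hm.2
        rw [rsq_eq] at this
        simp only [pc, Complex.zero_re, Complex.zero_im] at this
        norm_num at this
      · have := hm.2
        rw [rsq_eq] at this
        simp only [pc, Complex.zero_re, Complex.zero_im] at this
        norm_num at this
    · by_cases h2 : |a - 3 / 5| ≤ 3 / 200
      · rw [hpar t a h2] at hm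
        obtain ⟨h3, h4⟩ := abs_le.1 h2
        rcases hm with hm | hm
        · have := hm.2
          rw [rsq_eq] at this
          simp only [Complex.ofReal_re, Complex.ofReal_im] at this
          nlinarith
        · have := hm.2
          rw [rsq_eq] at this
          simp only [Complex.ofReal_re, Complex.ofReal_im] at this
          nlinarith [sq_nonneg ((1 + 100 * (a - 3 / 5)) / 20)]
      · have := not_U3 (hoff t a ha (not_le.1 h1) (not_le.1 h2))
        exact this (hm.imp (fun h => sph_sub_flat 0 h) fun h => sph_sub_flat 1 h)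
  have himg : ∀ t, ∀ a ∈ Ioo (1 / 5 : ℝ) (4 / 5),
      H (t, a) ∉ (fun p : R4 => p) '' (sph 0 ∪ sph 1) := by
    intro t a ha
    rw [image_id']
    exact hcases t a ha
  have hemb : ∀ t, EmbOn I4 (fun p => barFam (fun p : R4 => p) ax H (1 / 20) (t, p)) SP :=
    fun t => D.embOn (himm t) (fun p _ q _ h => h) (hinj t) (himg t)
  have hfam : FamOn I4 (barFam (fun p : R4 => p) ax H (1 / 20)) SP := by
    rw [famOn_iff]
    exact ⟨fun t _ p hp => D.eventually_smooth t hp, fun t _ => hemb t⟩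
  -- the values near the ends
  have hval : ∀ t, ∀ p : R4, (p.2.1 ≤ 9 / 40 ∨ 31 / 40 ≤ p.2.1) →
      barFam (fun p : R4 => p) ax H (1 / 20) (t, p) = p := by
    intro t p hp
    refine D.barFam_eq (t := t) (p := p) ?_
    rcases hp with h | h
    · left; linarith
    · right; linarith
  have hneck : ∀ t, ∀ a ∈ Icc (1 / 5 : ℝ) (4 / 5),
      barFam (fun p : R4 => p) ax H (1 / 20) (t, ax a) = H (t, a) :=
    fun t a ha => D.barFam_neck (t := t) ha.1 ha.2
  have hld : ∀ t, ∀ p : R4, (p.2.1 < 9 / 40 ∨ 31 / 40 < p.2.1) →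
      LD (fun p => barFam (fun p : R4 => p) ax H (1 / 20) (t, p)) p := by
    intro t p hp
    have hev : (fun q : R4 => q) =ᶠ[𝓝 p]
        fun q => barFam (fun p : R4 => p) ax H (1 / 20) (t, q) := by
      have hcont : Continuous (fun q : R4 => q.2.1) := by fun_prop
      have hop : IsOpen {q : R4 | q.2.1 < 9 / 40 ∨ 31 / 40 < q.2.1} :=
        (isOpen_lt hcont continuous_const).union (isOpen_lt continuous_const hcont)
      filter_upwards [hop.mem_nhds hp] with q hq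
      exact (hval t q (hq.imp le_of_lt le_of_lt)).symm
    refine ld_congr hev ?_
    rw [ld_iff]
    refine ⟨Eventually.of_forall fun q => contDiffAt_id, ?_⟩
    rw [fderiv_fun_id]
    exact fun v w h => h
  have hFBld : ∀ t, ∀ p ∈ FB, LD (fun p => barFam (fun p : R4 => p) ax H (1 / 20) (t, p)) p := by
    rintro t p ((hp | hp) | hp)
    · exact hld t p (Or.inl (by linarith [le_flat_zero hp]))
    · exact hld t p (Or.inr (by linarith [flat_one_le hp]))
    · exact (hemb t).1 p (Or.inr hp)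
  -- time zero
  have h0 : Thin I4 (fun p => barFam (fun p : R4 => p) ax H (1 / 20) (0, p)) (fun x => x) := by
    refine hV _ _ I4 R4 _ ⟨?_, ?_⟩
    · rintro p ((hp | hp) | hp)
      · exact hFBld 0 p (Or.inl (Or.inl hp))
      · exact (hemb 0).1 p (Or.inl (Or.inr hp))
      · exact (hemb 0).1 p (Or.inr hp)
    · -- injectivity
      have mixed : ∀ p ∈ flat 0, ∀ q ∈ neck, q.2.1 ∈ Ioo (1 / 5 : ℝ) (4 / 5) →
          barFam (fun p : R4 => p) ax H (1 / 20) (0, p) ≠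
            barFam (fun p : R4 => p) ax H (1 / 20) (0, q) := by
        intro p hp q hq hqI h
        have hqe : q = ax q.2.1 := by
          obtain ⟨h1, -, -, h4⟩ := hq
          exact Prod.ext h1 (Prod.ext rfl h4)
        rw [hval 0 p (Or.inl (by linarith [le_flat_zero hp])), hqe,
          hneck 0 q.2.1 ⟨hqI.1.le, hqI.2.le⟩] at h
        by_cases h1 : |q.2.1 - 2 / 5| ≤ 1 / 100
        · rw [hstr 0 _ h1] at h
          have h2 := le_flat_zero hp
          rw [h] at h2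
          simp only [pc] at h2
          norm_num at h2
        · by_cases h2 : |q.2.1 - 3 / 5| ≤ 3 / 200
          · rw [hpar 0 _ h2, step_zero] at h
            have h3 := hp.1
            rw [h] at h3
            simp only at h3
            nlinarith [sq_nonneg (100 * (q.2.1 - 3 / 5))]
          · have := not_U3 (hoff 0 _ hqI (not_le.1 h1) (not_le.1 h2))
            rw [← h] at this
            exact this (Or.inl hp)
      have hcase : ∀ q ∈ neck, q ∈ sph 0 ∪ sph 1 ∨ q.2.1 ∈ Ioo (1 / 5 : ℝ) (4 / 5) := by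
        rintro q ⟨h1, h2, h3, h4⟩
        rcases eq_or_lt_of_le h2 with h5 | h5
        · left; left
          refine ⟨h1, ?_⟩
          rw [rsq_eq, h4, ← h5]
          norm_num
        · rcases eq_or_lt_of_le h3 with h6 | h6
          · left; right
            refine ⟨h1, ?_⟩
            rw [rsq_eq, h4, h6]
            norm_num
          · exact Or.inr ⟨h5, h6⟩
      -- points of the balls and the second cuff are fixed
      have hfix : ∀ p ∈ flat 0 ∪ sph 1, barFam (fun p : R4 => p) ax H (1 / 20) (0, p) = p := by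
        rintro p (hp | hp)
        · exact hval 0 p (Or.inl (by linarith [le_flat_zero hp]))
        · exact hval 0 p (Or.inr (by linarith [flat_one_le (sph_sub_flat 1 hp)]))
      have hsplit : ∀ p ∈ flat 0 ∪ sph 1 ∪ neck, p ∈ flat 0 ∪ sph 1 ∨
          (p ∈ neck ∧ p.2.1 ∈ Ioo (1 / 5 : ℝ) (4 / 5)) := by
        rintro p (hp | hp)
        · exact Or.inl hp
        · rcases hcase p hp with (h | h) | h
          · exact Or.inl (Or.inl (sph_sub_flat 0 h))
          · exact Or.inl (Or.inr h)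
          · exact Or.inr ⟨hp, h⟩
      intro p hp q hq h
      simp only at h
      rcases hsplit p hp with hp | ⟨hp, hpI⟩ <;> rcases hsplit q hq with hq | ⟨hq, hqI⟩
      · rwa [hfix p hp, hfix q hq] at h
      · rcases hp with hp | hp
        · exact (mixed p hp q hq hqI h).elim
        · exact (hemb 0).2 (Or.inl (Or.inr hp)) (Or.inr hq) h
      · rcases hq with hq | hq
        · exact (mixed q hq p hp hpI h.symm).elim
        · exact (hemb 0).2 (Or.inr hp) (Or.inl (Or.inr hq)) h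
      · exact (hemb 0).2 (Or.inr hp) (Or.inr hq) h
  have h1 := (hF _ hfam (fun x => x)).1 h0
  refine ⟨fun p => barFam (fun p : R4 => p) ax H (1 / 20) (1, p), ?_⟩
  refine ⟨hFBld 1, (hemb 1).2, h1, fun p hp => hval 1 p hp, ?_, ?_, ?_⟩
  · intro a ha
    obtain ⟨h2, h3⟩ := abs_le.1 ha
    exact (hneck 1 a ⟨by linarith, by linarith⟩).trans (hstr 1 a ha)
  · intro a ha
    obtain ⟨h2, h3⟩ := abs_le.1 ha
    refine (hneck 1 a ⟨by linarith, by linarith⟩).trans ?_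
    rw [hpar 1 a ha, step_one]
    norm_num
  · intro a ha h2 h3
    have h4 : core (fun p => barFam (fun p : R4 => p) ax H (1 / 20) (1, p)) a = H (1, a) :=
      hneck 1 a ⟨ha.1.le, ha.2.le⟩
    rw [h4]
    exact hoff 1 a ha h2 h3

end Pool.Agent.Helper70.BI


end

/-! ## Helper70.BI.M_LAS -/

section

/-!
# Project BI, part (E), module LAS: lassos
-/

set_option autoImplicit false

open scoped Manifold ContDiff Topology ComplexConjugate
open Set Filter Pool.Agent.Helper65.Barb Pool.Agent.Helper18.BI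

namespace Pool.Agent.Helper70.BI

open Pool.Agent.Helper34.BI (cfac BarData barFam)

namespace LAS

open NF1

/-- the contracted germ is standard near the second flat ball -/
private theorem form {F : R4 → R4} {d δ lam : ℝ} (hNB : NB 1 F (2 / 5) d δ) (hCL : StCL) {r : ℝ}
    (hl : 0 < lam) (hlr : lam < r) (hrδ : r < δ) {p : R4} (h1 : rsq 1 p ≤ 1 / 20)
    (h2 : |p.1 - 1 / 2| < r) : F (clc 1 lam p) = (p.1, pc 1 + lam • (p.2 - pc 1)) := by
  have hs := hNB.small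
  obtain ⟨-, -, hc⟩ := hCL 1 (Or.inr rfl)
  obtain ⟨-, -, h3, -, -, -, -⟩ := hc lam ⟨hl, by linarith⟩
  rw [h3 p h1]
  apply hNB.near
  have e : rsq 1 p = (p.2.1 - 1) ^ 2 + p.2.2.re ^ 2 + p.2.2.im ^ 2 := rfl
  rw [e] at h1
  have n1 : |p.2.1 - 1| ≤ 1 := by
    apply abs_le_of_sq_le_sq _ (by norm_num)
    nlinarith [sq_nonneg p.2.2.re, sq_nonneg p.2.2.im]
  have n2 : ‖p.2.2‖ ≤ 1 := by
    rw [Complex.norm_def]
    apply Real.sqrt_le_one.2
    rw [Complex.normSq_apply]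
    nlinarith [sq_nonneg (p.2.1 - 1)]
  have e2 : ((p.1, pc 1 + lam • (p.2 - pc 1)) : R4) - ax 1 = (p.1 - 1 / 2, (lam * (p.2.1 - 1), lam • p.2.2)) := by
    unfold ax pc
    ext <;> simp
  rw [e2, Prod.norm_def, Prod.norm_def]
  simp only [Real.norm_eq_abs, abs_mul, norm_smul, abs_of_pos hl]
  refine max_lt (by linarith) (max_lt ?_ ?_)
  · calc lam * |p.2.1 - 1| ≤ lam * 1 := mul_le_mul_of_nonneg_left n1 hl.le
      _ < δ := by linarith
  · calc lam * ‖p.2.2‖ ≤ lam * 1 := mul_le_mul_of_nonneg_left n2 hl.le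
      _ < δ := by linarith

private theorem norm_str (d a : ℝ) (hd : d = 1 ∨ d = -1) :
    ‖((1 / 2 + d * (a - 2 / 5), pc 1) : R4) - ax 1‖ = |a - 2 / 5| := by
  have e : ((1 / 2 + d * (a - 2 / 5), pc 1) : R4) - ax 1 = (d * (a - 2 / 5), 0) := by
    unfold ax pc
    ext <;> simp
  rw [e, Prod.norm_def]
  simp only [Real.norm_eq_abs, abs_mul, norm_zero]
  rcases hd with rfl | rfl
  · simp
  · simp

/-- a diffeomorphism supported in a small ball maps the large ball to itself -/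
private theorem ball_map (G : DFam I4 R4) {C : Set R4} {r : ℝ} (hr : 0 < r)
    (hC : C ⊆ Metric.ball (ax 1) (r / 4)) (hG : ∀ t y, y ∉ C → G.f (t, y) = y) {y : R4}
    (hy : ‖y - ax 1‖ < r) : ‖G.f (1, y) - ax 1‖ < r := by
  by_cases h : y ∈ C
  · by_contra hn
    push Not at hn
    have h1 : G.f (1, y) ∉ C := by
      intro h2
      have h3 := hC h2
      rw [Metric.mem_ball, dist_eq_norm] at h3
      linarith
    have h2 := hG 1 _ h1
    have h3 := inj_dfam G h2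
    rw [h3] at h1
    exact h1 h
  · rw [hG 1 y h]
    exact hy

private theorem far_fix (G : DFam I4 R4) {C : Set R4} {r : ℝ}
    (hC : C ⊆ Metric.ball (ax 1) (r / 4)) (hG : ∀ t y, y ∉ C → G.f (t, y) = y) {y : R4}
    (hy : r / 4 ≤ ‖y - ax 1‖) : G.f (1, y) = y := by
  apply hG
  intro h
  have h3 := hC h
  rw [Metric.mem_ball, dist_eq_norm] at h3
  linarith

end LAS

open LAS NF1 in
theorem m_LAS (hNO : StNO) (hV1 : StV1) (hSPI : StSPI) (hNF1 : StNF1) (hRM : StRM) (hRG : StRG)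
    (hNF2 : StNF2) (hCL : StCL) : StLAS := by
  intro F d δ r₁ hd hNB hr₁
  obtain ⟨r, lam₀, r0, rr₁, rδ, lam0, far, farc, hH⟩ := hNO F d δ r₁ hd hNB hr₁
  have hδ := hNB.small
  set lam : ℝ := min (lam₀ / 2) (r / 8) with hlam
  have l0 : 0 < lam := lt_min (by linarith) (by linarith)
  have l1 : lam < lam₀ := lt_of_le_of_lt (min_le_left _ _) (by linarith)
  have l2 : lam < r / 4 := lt_of_le_of_lt (min_le_right _ _) (by linarith)
  obtain ⟨G, hG, hG1, hG2, hG3, hG4⟩ := hH lam ⟨l0, l1⟩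
  have hGid : Thin I4 G (fun x => x) := by
    apply hV1 G
    apply EmbOn.mono' hG
    rintro p ((hp | hp) | hp)
    · exact Or.inr hp
    · exact Or.inl (Or.inr hp)
    · exact Or.inl (Or.inl (Or.inl hp))
  obtain ⟨F₁, β₁, hβ, hB1, hE1, h34, hcl, hdet, hnear⟩ := hSPI G d r lam hd r0 l0 (by linarith) hG
    (fun p hp1 hp2 hp3 => by
      rw [hG2 p hp1]
      exact form hNB hCL l0 (by linarith) rδ hp2 hp3)
  have h45 : (1 / 5 + 3 / 5 * 1 : ℝ) = 4 / 5 := by norm_num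
  obtain ⟨F₂, G', hE2, hB2, ⟨τ, τs, τv, τd, τF⟩, -, hid, -, ⟨C, -, hCU, hCf⟩, ⟨η, hη, hη2⟩, -⟩ :=
    hNF1 1 F₁ β₁ d (Metric.ball (ax 1) (r / 4)) (Or.inr rfl) hB1 (by rw [h45]; exact hdet)
      Metric.isOpen_ball (convex_ball _ _).isPreconnected
      (by rw [Metric.mem_ball, dist_eq_norm]; linarith) (Metric.mem_ball_self (by linarith))
  -- reparametrization
  have ce : ContinuousAt (fun a : ℝ => 1 / 2 + d * (a - 2 / 5)) (2 / 5) := by fun_prop
  have ve : (1 / 2 + d * ((2 : ℝ) / 5 - 2 / 5) : ℝ) = 1 / 2 := by ring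
  have μs : ∀ᶠ a in 𝓝 (2 / 5 : ℝ), ContDiffAt ℝ ∞ (fun a => τ (1 / 2 + d * (a - 2 / 5))) a := by
    have h1 : ∀ᶠ a in 𝓝 (2 / 5 : ℝ), ContDiffAt ℝ ∞ τ (1 / 2 + d * (a - 2 / 5)) := by
      have := ce.tendsto
      rw [ve] at this
      exact this.eventually τs
    filter_upwards [h1] with a ha
    exact ha.comp a (by fun_prop)
  have μd : 0 < deriv (fun a => τ (1 / 2 + d * (a - 2 / 5))) (2 / 5) := by
    have h1 : HasDerivAt τ (deriv τ (1 / 2)) (1 / 2 + d * ((2 : ℝ) / 5 - 2 / 5)) := by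
      rw [ve]
      exact (τs.self_of_nhds.differentiableAt (by simp)).hasDerivAt
    have h2 : HasDerivAt (fun a : ℝ => 1 / 2 + d * (a - 2 / 5)) (d * 1) (2 / 5) :=
      (((hasDerivAt_id (2 / 5 : ℝ)).sub_const _).const_mul d).const_add _
    have h3 : HasDerivAt (fun a : ℝ => τ (1 / 2 + d * (a - 2 / 5))) (deriv τ (1 / 2) * (d * 1))
        (2 / 5) := HasDerivAt.comp (2 / 5 : ℝ) h1 h2
    rw [h3.deriv]
    nlinarith [τd]
  obtain ⟨m, ms, md, mμ, η', hη', mid⟩ := hRM.1 (2 / 5 - r / 2) (4 / 5) (2 / 5) β₁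
    (fun a => τ (1 / 2 + d * (a - 2 / 5))) (by linarith) (by norm_num) (by linarith) hB2.mem.2 μs
    (by show τ (1 / 2 + d * ((2 : ℝ) / 5 - 2 / 5)) = β₁; rw [ve, τv]) μd
  have hm : RepOK m := ⟨ms, md, η', hη', fun a ha => mid a (by
    rcases ha with h | h
    · left; linarith
    · right; exact h)⟩
  obtain ⟨δ₀, hδ₀, hNB'⟩ := hNF2 1 F₂ β₁ (2 / 5) d τ m (Or.inr rfl) hd hB2 hid τv τF hm
    ⟨by norm_num, by norm_num⟩ mμ
  have hS : EmbOn I4 F₂ SP := embOn_of_br hB2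
  obtain ⟨-, hax, hfl, hIcc, hmono, h6⟩ := hRG m hm
  have hcore' : ∀ a, core (fun p => F₂ (repm m p)) a = core F₂ (m a) := fun a => by
    show F₂ (repm m (ax a)) = F₂ (ax (m a))
    rw [hax]
  have hcore2 : ∀ a ∈ Icc (1 / 5 : ℝ) (4 / 5), core F₂ a = G'.f (1, core F₁ a) := fun a ha => by
    apply hη2
    rw [rsq_ax]
    nlinarith [ha.1, ha.2]
  have hm1 : m (2 / 5 - r / 2) = 2 / 5 - r / 2 := mid _ (Or.inl (by linarith))
  have hm2 : m (4 / 5) = 4 / 5 := mid _ (Or.inr (by linarith))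
  refine ⟨r, δ₀, fun p => F₂ (repm m p), r0, rr₁, rδ, far, farc, hNB' δ₀ ⟨hδ₀, le_rfl⟩, ?_, ?_, ?_, ?_⟩
  · exact ((hE1.trans (hE2.trans (h6 F₂ hS).2)) _).1 hGid
  · apply nearEq_of_eventuallyEq
    intro p hp
    have e1 : ∀ᶠ q in 𝓝 p, repm m q = q := hfl 0 (Or.inl rfl) p ⟨hp.1, hp.2.le⟩
    have a1 : p.2.1 ≤ 1 / 5 := by
      have h1 := sq_le_rsq p
      rw [hp.2] at h1
      nlinarith
    have e2 : ∀ᶠ q : R4 in 𝓝 p, q.2.1 < 1 / 5 + 1 / 200 := by
      have hc : ContinuousAt (fun q : R4 => q.2.1) p := by fun_prop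
      exact hc.eventually (Iio_mem_nhds (by linarith))
    have hFc : ContinuousAt F p :=
      ((ld_iff.1 (hNB.br.loc p (Or.inl (Or.inl (Or.inl hp))))).1.self_of_nhds).continuousAt
    have e3 : ∀ᶠ q : R4 in 𝓝 p, r / 4 < ‖F q - ax 1‖ := by
      have hc : ContinuousAt (fun q : R4 => ‖F q - ax 1‖) p := (hFc.sub continuousAt_const).norm
      exact hc.eventually (Ioi_mem_nhds (by have := far p hp; linarith))
    filter_upwards [e1, e2, e3] with q q1 q2 q3
    have q4 : F₁ q = F q := by rw [h34 q (by linarith), hG1 q (by linarith)]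
    rw [q1, hη2 q (by
      have := sq_le_rsq_one q
      nlinarith), q4, far_fix G' hCU hCf q3.le]
  · intro a ha
    have ha' : a ∈ Icc (1 / 5 : ℝ) (4 / 5) := ⟨ha.1, by linarith [ha.2]⟩
    have e1 : m a = a := mid a (Or.inl (by linarith [ha.2]))
    have e2 : core F₁ a = core F a := by
      rw [← hG3 a ha]
      exact h34 (ax a) (by show a ≤ 3 / 4; linarith [ha.2])
    rw [hcore', e1, hcore2 a ha', e2]
    apply far_fix G' hCU hCf
    by_cases h : δ ≤ |a - 2 / 5|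
    · have := farc a ha' h
      linarith
    · push Not at h
      rw [hNB.str a h, norm_str d a hd, abs_of_nonpos (by linarith [ha.2])]
      linarith [ha.2]
  · intro a ha
    have ha' : m a ∈ Icc (2 / 5 - r / 2) (4 / 5 : ℝ) := by
      constructor
      · rw [← hm1]; exact hmono.monotone ha.1
      · rw [← hm2]; exact hmono.monotone ha.2
    have ha2 : m a ∈ Icc (1 / 5 : ℝ) (4 / 5) := ⟨by linarith [ha'.1], ha'.2⟩
    rw [hcore', hcore2 _ ha2]
    apply ball_map G' r0 hCU hCf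
    rcases hcl (m a) ha2 with h | h
    · rw [h]; exact hG4 _ ha'
    · exact h

end Pool.Agent.Helper70.BI


end

/-! ## Helper18.BI.M_R3 -/

section

/-!
# Project BI (MP_8e98f2_gt), module R3: realization of a germ by a barbell
-/

set_option autoImplicit false

open scoped Manifold ContDiff Topology ComplexConjugate
open Set Pool.Agent.Helper65.Barb

namespace Pool.Agent.Helper18.BI

namespace MR3

lemma rsq_eq (c : ℝ) (p : R4) : rsq c p = (p.2.1 - c) ^ 2 + ‖p.2.2‖ ^ 2 := by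
  have h4 : p.2.2.re ^ 2 + p.2.2.im ^ 2 = ‖p.2.2‖ ^ 2 := by
    rw [← Complex.normSq_eq_norm_sq, Complex.normSq_apply]; ring
  simp only [rsq, nsq]
  linarith

lemma sep01 {p : R4} (h : rsq 0 p ≤ 1 / 25) : 1 / 25 < rsq 1 p := by
  rw [rsq_eq] at h ⊢
  have h1 : 0 ≤ ‖p.2.2‖ ^ 2 := by positivity
  have h2 : p.2.1 ≤ 1 / 5 := by nlinarith
  nlinarith

lemma sep10 {p : R4} (h : rsq 1 p ≤ 1 / 25) : 1 / 25 < rsq 0 p := by
  rw [rsq_eq] at h ⊢
  have h1 : 0 ≤ ‖p.2.2‖ ^ 2 := by positivity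
  have h2 : 4 / 5 ≤ p.2.1 := by nlinarith
  nlinarith

/-- a point with squared radius near `1/25` is near the core sphere -/
lemma near_sph {c δ : ℝ} (hδ : 0 < δ) (hδ' : δ < 1 / 100) {q : R4}
    (h1 : 1 / 25 - 2 * δ ≤ rsq c q) (h2 : rsq c q ≤ 1 / 25) {r : ℝ} (h3 : |q.1 - 1 / 2| ≤ r)
    (h4 : 10 * δ ≤ r) : ∃ p ∈ sph c, dist q p ≤ r := by
  have hq0 : 0 < rsq c q := by linarith
  set ρ := √(rsq c q) with hρ
  have hρ0 : 0 < ρ := Real.sqrt_pos.mpr hq0
  have hρ2 : ρ ^ 2 = rsq c q := Real.sq_sqrt hq0.le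
  set l := (1 / 5) / ρ with hl
  have hlρ : l * ρ = 1 / 5 := by rw [hl]; field_simp
  have hρ5 : ρ ≤ 1 / 5 := by nlinarith
  have hρ6 : 1 / 5 - ρ ≤ 10 * δ := by nlinarith
  have hl1 : 1 ≤ l := by rw [hl, le_div_iff₀ hρ0]; linarith
  have hr := rsq_eq c q
  have ha : |q.2.1 - c| ≤ ρ := by
    apply abs_le_of_sq_le_sq _ hρ0.le
    have : 0 ≤ ‖q.2.2‖ ^ 2 := by positivity
    linarith
  have hw : ‖q.2.2‖ ≤ ρ := by
    have : 0 ≤ (q.2.1 - c) ^ 2 := by positivity
    have h5 : ‖q.2.2‖ ^ 2 ≤ ρ ^ 2 := by linarith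
    exact le_of_sq_le_sq h5 hρ0.le |>.trans le_rfl
  have hlm : |1 - l| = l - 1 := by rw [abs_sub_comm, abs_of_nonneg (by linarith)]
  refine ⟨(1 / 2, c + l * (q.2.1 - c), ((l : ℝ) : ℂ) * q.2.2), ⟨rfl, ?_⟩, ?_⟩
  · rw [rsq_eq]
    simp only [norm_mul, Complex.norm_real, Real.norm_eq_abs, mul_pow, sq_abs]
    have : (c + l * (q.2.1 - c) - c) ^ 2 + l ^ 2 * ‖q.2.2‖ ^ 2 = l ^ 2 * rsq c q := by
      rw [hr]; ring
    rw [this, ← hρ2, ← mul_pow, hlρ]
    norm_num
  · rw [Prod.dist_eq, Prod.dist_eq]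
    refine max_le ?_ (max_le ?_ ?_)
    · rw [Real.dist_eq]; exact h3
    · rw [Real.dist_eq]
      have : q.2.1 - (c + l * (q.2.1 - c)) = (1 - l) * (q.2.1 - c) := by ring
      simp only [this]
      rw [abs_mul, hlm]
      nlinarith
    · rw [dist_eq_norm]
      have : q.2.2 - ((l : ℝ) : ℂ) * q.2.2 = (((1 - l : ℝ)) : ℂ) * q.2.2 := by push_cast; ring
      simp only [this]
      rw [norm_mul, Complex.norm_real, Real.norm_eq_abs, hlm]
      nlinarith

/-- the barbell map is a diffeomorphism supported in `bsupp` -/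
lemma sdiff_barMap : SDiff bsupp barMap (fun p => bfam.g (1, p)) := by
  refine ⟨?_, ?_, fun p => ?_, fun p => ?_, fun p hp => barMap_off hp⟩
  · rw [← contMDiff_iff_contDiff]
    exact bfam.smooth_f.comp (contMDiff_const.prodMk contMDiff_id)
  · rw [← contMDiff_iff_contDiff]
    exact bfam.smooth_g.comp (contMDiff_const.prodMk contMDiff_id)
  · exact bfam.fg 1 p
  · exact bfam.gf 1 p

lemma mapsTo_barMap : MapsTo barMap bsupp bsupp := by
  intro p hp
  by_contra h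
  have h1 : barMap (barMap p) = barMap p := barMap_off h
  have h2 := congrArg (fun x => bfam.g (1, x)) h1
  have h3 : ∀ x, bfam.g (1, barMap x) = x := fun x => bfam.gf 1 x
  simp only [h3] at h2
  exact h (h2.symm ▸ hp)

lemma EB_eq_of {p : R4} (hp : p ∈ NB) (h : p ∈ Ext) : p ∈ EB := ⟨hp.1, h⟩

/-- uniform closeness of `sq ε` to `sq 0` on a compact set -/
lemma sq_close (s3 : StS3) {K : Set R4} (hK : IsCompact K) {r : ℝ} (hr : 0 < r) :
    ∃ ε₀ > 0, ∀ ε ∈ Ioo (0 : ℝ) ε₀, ∀ p ∈ K, dist (sq ε p) (sq 0 p) ≤ r := by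
  have hc : IsCompact (Icc (0 : ℝ) 1 ×ˢ K) := isCompact_Icc.prod hK
  have hcont : ContinuousOn (fun q : ℝ × R4 => sq q.1 q.2) (Icc (0 : ℝ) 1 ×ˢ K) :=
    s3.mono (prod_mono (fun x hx => hx.1) (subset_univ _))
  have hu := hc.uniformContinuousOn_of_continuous hcont
  rw [Metric.uniformContinuousOn_iff] at hu
  obtain ⟨d, hd, h⟩ := hu r hr
  refine ⟨min d 1, by positivity, fun ε hε p hp => ?_⟩
  have h1 : ε < d := lt_of_lt_of_le hε.2 (min_le_left _ _)
  have h2 : ε < 1 := lt_of_lt_of_le hε.2 (min_le_right _ _)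
  refine (h (ε, p) ⟨⟨hε.1.le, h2.le⟩, hp⟩ (0, p) ⟨⟨le_rfl, by norm_num⟩, hp⟩ ?_).le
  rw [Prod.dist_eq, dist_self, Real.dist_eq]
  simp only [sub_zero]
  rw [abs_of_pos hε.1]
  exact max_lt h1 hd

/-- the composition of the two radial maps -/
lemma emb_rad (r2 : StR2) {δ : ℝ} (hδ : δ ∈ Ioo (0 : ℝ) (1 / 100)) :
    EmbOn 𝓘(ℝ, R4) (fun p => radc δ 0 (radc δ 1 p)) NB ∧
    (∀ p ∈ NB, p ∈ Ext → radc δ 0 (radc δ 1 p) = p) ∧
    (∀ p ∈ NB, rsq 0 p < 1 / 25 → 1 / 25 - 2 * δ ≤ rsq 0 (radc δ 0 (radc δ 1 p)) ∧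
      rsq 0 (radc δ 0 (radc δ 1 p)) ≤ 1 / 25) ∧
    (∀ p ∈ NB, rsq 1 p < 1 / 25 → 1 / 25 - 2 * δ ≤ rsq 1 (radc δ 0 (radc δ 1 p)) ∧
      rsq 1 (radc δ 0 (radc δ 1 p)) ≤ 1 / 25) := by
  obtain ⟨e0, i0, v0, b0⟩ := r2 δ hδ 0
  obtain ⟨e1, i1, v1, b1⟩ := r2 δ hδ 1
  have hpos : ∀ p ∈ NB, 0 < rsq 1 p ∧ 0 < rsq 0 (radc δ 1 p) := by
    intro p hp
    have h1 : 0 < rsq 1 p := lt_of_lt_of_le (by norm_num) hp.2.2
    have h0 : 0 < rsq 0 p := lt_of_lt_of_le (by norm_num) hp.2.1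
    refine ⟨h1, ?_⟩
    by_cases h : 1 / 25 ≤ rsq 1 p
    · rw [i1 p h]; exact h0
    · have h2 := b1 p hp.2.2 (not_le.1 h).le
      exact lt_trans (by norm_num) (sep10 h2.2)
  refine ⟨⟨fun p hp => ?_, fun p hp p' hp' h => ?_⟩, fun p hp hE => ?_, fun p hp h => ?_,
    fun p hp h => ?_⟩
  · exact IsLocalDiffeomorphAt.comp (hf := e1.1 p (hpos p hp).1) (hg := e0.1 _ (hpos p hp).2)
  · exact e1.2 (hpos p hp).1 (hpos p' hp').1 (e0.2 (hpos p hp).2 (hpos p' hp').2 h)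
  · have h0 : 1 / 25 ≤ rsq 0 p := by have := hE.1; norm_num at this ⊢; exact this
    have h1 : 1 / 25 ≤ rsq 1 p := by have := hE.2; norm_num at this ⊢; exact this
    rw [i1 p h1, i0 p h0]
  · rw [i1 p (sep01 h.le).le]
    exact b0 p hp.2.1 h.le
  · have h2 := b1 p hp.2.2 h.le
    rw [i0 _ (sep10 h2.2).le]
    exact h2

end MR3

open MR3 in
theorem m_R3 (a1 : StA1) (_a2 : StA2) (a3 : StA3) (im : StImp) (ci : StCI) (s3 : StS3)
    (s4 : StS4) (_s6 : StS6) (r1 : StR1) (r2 : StR2) : StR3 := by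
  intro E _ _ H _ I M _ _ _ F φ hF hT
  obtain ⟨s41, -, -, -, -, s46, s47, s48, cSP, -, cEB⟩ := s4
  obtain ⟨r11, r12, r13, r14⟩ := r1
  -- the open set `V`
  obtain ⟨δ₀, hδ₀, hδF⟩ := a1 R4 E H I M F SP cSP hF.1 hF.2
  have hVo : IsOpen δ₀.source := δ₀.open_source
  have hFloc : ∀ q ∈ δ₀.source, IsLocalDiffeomorphAt 𝓘(ℝ, R4) I ∞ F q :=
    fun q hq => ⟨δ₀, hq, fun p hp => (hδF p hp).symm⟩
  have hFinj : InjOn F δ₀.source := by
    intro p hp q hq h
    rw [← hδF p hp, ← hδF q hq] at h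
    exact δ₀.injOn hp hq h
  have hFsm : ContMDiffOn 𝓘(ℝ, R4) I ∞ F δ₀.source :=
    δ₀.contMDiffOn.congr fun p hp => (hδF p hp).symm
  obtain ⟨r, hr, hrV⟩ := cSP.exists_cthickening_subset_open hVo hδ₀
  have hV : ∀ p ∈ SP, ∀ q, dist q p ≤ r → q ∈ δ₀.source := fun p hp q h =>
    hrV (Metric.mem_cthickening_of_dist_le q p r SP hp h)
  -- the parameters
  obtain ⟨δ, hδ, hδr⟩ : ∃ δ ∈ Ioo (0 : ℝ) (1 / 100), 10 * δ ≤ r := by
    refine ⟨min (1 / 200) (r / 10), ⟨by positivity, ?_⟩, ?_⟩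
    · exact lt_of_le_of_lt (min_le_left _ _) (by norm_num)
    · have := min_le_right (1 / 200 : ℝ) (r / 10)
      linarith
  have hEBExt : EB ⊆ Ext := fun p hp => hp.2
  obtain ⟨ε₁, hε₁, h₁⟩ := r13 EB cEB hEBExt r hr
  obtain ⟨ε₂, hε₂, h₂⟩ := sq_close s3 isCompact_bsupp hr
  obtain ⟨ε₃, hε₃, h₃⟩ := hT
  obtain ⟨ε, hε0, hεa, hεb, hεc, hεd, hεe⟩ : ∃ ε : ℝ, 0 < ε ∧ ε < ε₁ ∧ ε < ε₂ ∧ ε < ε₃ ∧ ε < 1 ∧
      3 / 2 * ε ≤ r := by
    refine ⟨min (min (min ε₁ ε₂) (min ε₃ 1)) r / 2, by positivity, ?_, ?_, ?_, ?_, ?_⟩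
    all_goals
      have k1 := min_le_left (min (min ε₁ ε₂) (min ε₃ 1)) r
      have k2 := min_le_right (min (min ε₁ ε₂) (min ε₃ 1)) r
      have k3 := min_le_left (min ε₁ ε₂) (min ε₃ 1)
      have k4 := min_le_right (min ε₁ ε₂) (min ε₃ 1)
      have k5 := min_le_left ε₁ ε₂
      have k6 := min_le_right ε₁ ε₂
      have k7 := min_le_left ε₃ 1
      have k8 := min_le_right ε₃ 1
      linarith
  have hεI : ε ∈ Ioo (0 : ℝ) 1 := ⟨hε0, hεd⟩
  obtain ⟨-, hHsm, hHemb⟩ := r11 ε hεI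
  have hkk : EmbOn 𝓘(ℝ, R4) (kk ε) univ := by
    have h := hHemb 1 ⟨by norm_num, le_rfl⟩
    simpa using h
  obtain ⟨hE, hE1, hE2, hE3⟩ := emb_rad r2 hδ
  -- `κ` maps `NB` to `V`
  have hκV : ∀ p ∈ NB, kk ε (radc δ 0 (radc δ 1 p)) ∈ δ₀.source := by
    intro p hp
    have hfst : |(kk ε (radc δ 0 (radc δ 1 p))).1 - 1 / 2| ≤ r := by
      have h1 : (kk ε (radc δ 0 (radc δ 1 p))).1 = 1 / 2 + ε * (p.1 - 1 / 2) := rfl
      rw [h1]
      have h2 := hp.1.1
      have h3 := hp.1.2.1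
      have h4 : |ε * (p.1 - 1 / 2)| ≤ 3 / 2 * ε := by
        rw [abs_mul, abs_of_pos hε0]
        have : |p.1 - 1 / 2| ≤ 3 / 2 := abs_le.mpr ⟨by linarith, by linarith⟩
        nlinarith
      have h5 : 1 / 2 + ε * (p.1 - 1 / 2) - 1 / 2 = ε * (p.1 - 1 / 2) := by ring
      rw [h5]
      linarith
    by_cases h0 : rsq 0 p < 1 / 25
    · obtain ⟨b1, b2⟩ := hE2 p hp h0
      obtain ⟨c1, c2⟩ := (r14 ε hεI (radc δ 0 (radc δ 1 p))).1 b2
      obtain ⟨p', hp', hd⟩ := near_sph hδ.1 hδ.2 (b1.trans c1) c2 hfst hδr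
      exact hV p' (Or.inl (Or.inl hp')) _ hd
    · by_cases h1 : rsq 1 p < 1 / 25
      · obtain ⟨b1, b2⟩ := hE3 p hp h1
        obtain ⟨c1, c2⟩ := (r14 ε hεI (radc δ 0 (radc δ 1 p))).2 b2
        obtain ⟨p', hp', hd⟩ := near_sph hδ.1 hδ.2 (b1.trans c1) c2 hfst hδr
        exact hV p' (Or.inl (Or.inr hp')) _ hd
      · have hx : p ∈ Ext := by
          refine ⟨?_, ?_⟩
          · have := not_lt.1 h0; norm_num at this ⊢; exact this
          · have := not_lt.1 h1; norm_num at this ⊢; exact this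
        rw [hE1 p hp hx]
        exact hV _ (s41 p hx) _ (h₁ ε ⟨hε0, hεa⟩ p (EB_eq_of hp hx))
  -- the barbell
  have hκemb : EmbOn I (fun p => F (kk ε (radc δ 0 (radc δ 1 p)))) NB := by
    refine ⟨fun p hp => ?_, fun p hp q hq h => ?_⟩
    · exact IsLocalDiffeomorphAt.comp
        (hf := IsLocalDiffeomorphAt.comp (hf := hE.1 p hp) (hg := hkk.1 _ (mem_univ _)))
        (hg := hFloc _ (hκV p hp))
    · exact hE.2 hp hq (hkk.2 (mem_univ _) (mem_univ _) (hFinj (hκV p hp) (hκV q hq) h))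
  obtain ⟨B, hB, hBF⟩ := a1 R4 E H I M (fun p => F (kk ε (radc δ 0 (radc δ 1 p)))) NB isCompact_NB
    hκemb.1 hκemb.2
  refine ⟨B, hB, fun p hp => ?_, ?_⟩
  · have hSP : p ∈ SP := by
      rcases hp with hp | hp
      · exact Or.inl (Or.inl hp)
      · exact Or.inl (Or.inr hp)
    have hEB := s46 hSP
    have hNB := s48 hEB
    rw [hBF p (hB hNB), hE1 p hNB (hEBExt hEB), r12 ε hεI p hp]
  · -- the family
    have hin : ∀ t ∈ Icc (0 : ℝ) 1, ∀ p ∈ bsupp, (1 - t) • sq ε p + t • kk ε p ∈ δ₀.source := by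
      intro t ht p hp
      have hEB := s47 hp
      refine hV _ (s41 p (hEBExt hEB)) _ ?_
      have c1 : sq ε p ∈ Metric.closedBall (sq 0 p) r := h₂ ε ⟨hε0, hεb⟩ p hp
      have c2 : kk ε p ∈ Metric.closedBall (sq 0 p) r := h₁ ε ⟨hε0, hεa⟩ p hEB
      exact (convex_closedBall (sq 0 p) r) c1 c2 (by linarith [ht.2]) ht.1 (by ring)
    have hfam : FamOn I (fun q : ℝ × R4 => F ((1 - q.1) • sq ε q.2 + q.1 • kk ε q.2)) bsupp := by
      refine ⟨⟨(fun q : ℝ × R4 => (1 - q.1) • sq ε q.2 + q.1 • kk ε q.2) ⁻¹' δ₀.source,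
        hVo.preimage hHsm.continuous, ?_, ?_⟩, fun t ht => ⟨fun p hp => ?_, fun p hp q hq h => ?_⟩⟩
      · rintro ⟨t, p⟩ ⟨ht, hp⟩
        exact hin t ht p hp
      · exact hFsm.comp hHsm.contMDiff.contMDiffOn (fun q hq => hq)
      · exact IsLocalDiffeomorphAt.comp (hf := (hHemb t ht).1 p (mem_univ _))
          (hg := hFloc _ (hin t ht p hp))
      · exact (hHemb t ht).2 (mem_univ _) (mem_univ _) (hFinj (hin t ht p hp) (hin t ht q hq) h)
    have h5 := a3 E H I M _ bsupp barMap _ isCompact_bsupp hfam sdiff_barMap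
    have e0 : (fun p : R4 => (fun q : ℝ × R4 => F ((1 - q.1) • sq ε q.2 + q.1 • kk ε q.2)) (0, p)) =
        F ∘ sq ε := by
      funext p; simp
    have e1 : (fun p : R4 => (fun q : ℝ × R4 => F ((1 - q.1) • sq ε q.2 + q.1 • kk ε q.2)) (1, p)) =
        fun p => F (kk ε p) := by
      funext p; simp
    rw [e0, e1] at h5
    have hinj : InjOn (fun p => F (kk ε p)) bsupp := by
      have h6 := (hfam.2 1 ⟨by norm_num, le_rfl⟩).2
      rw [e1] at h6
      exact h6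
    have h7 := (im E H I M (fun p => F (kk ε p)) bsupp barMap hinj).2.2.2.2.1 B
      (bsupp_subset.trans hB) (fun p hp => by
        have hNB := bsupp_subset hp
        rw [hBF p (hB hNB), hE1 p hNB (hEBExt (s47 hp))]) mapsTo_barMap
      (fun p hp => barMap_off hp)
    rw [h7] at h5
    exact (ci E H I M).2.2.2.1 _ _ _ (h₃ ε ⟨hε0, hεc⟩).2 h5

end Pool.Agent.Helper18.BI


end

/-! ## Helper18.BI.M_R1 -/

section

/-!
# Project BI (MP_8e98f2_gt), module R1: a compression which is the identity on the core spheres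
-/

set_option autoImplicit false

open scoped Manifold ContDiff Topology ComplexConjugate
open Set Pool.Agent.Helper65.Barb

namespace Pool.Agent.Helper18.BI

namespace R1

/-! ### scalar facts -/

theorem step_zero {x : ℝ} (h : x ≤ 0) : step x = 0 := Real.smoothTransition.zero_of_nonpos h

theorem step_one {x : ℝ} (h : 1 ≤ x) : step x = 1 := Real.smoothTransition.one_of_one_le h

theorem step_nonneg (x : ℝ) : 0 ≤ step x := Real.smoothTransition.nonneg x

theorem step_le_one (x : ℝ) : step x ≤ 1 := Real.smoothTransition.le_one x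

theorem contDiff_step : ContDiff ℝ ∞ step := Real.smoothTransition.contDiff

theorem uu_left {a : ℝ} (h : a ≤ 2 / 5) : uu a = 1 / 25 - a ^ 2 := by
  rw [uu, step_zero (by linarith)]; ring

theorem uu_right {a : ℝ} (h : 3 / 5 ≤ a) : uu a = 1 / 25 - (a - 1) ^ 2 := by
  rw [uu, step_one (by linarith)]; ring

theorem half_pos (ε x : ℝ) (h : 0 < ε) : 0 < (x + √(x ^ 2 + ε ^ 2)) / 2 := by
  have h1 : |x| < √(x ^ 2 + ε ^ 2) := by
    rw [← Real.sqrt_sq_eq_abs]
    exact Real.sqrt_lt_sqrt (sq_nonneg _) (by nlinarith [sq_pos_of_pos h])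
  have h2 := neg_abs_le x
  linarith

theorem half_gt (ε x : ℝ) (h : 0 < ε) : x < (x + √(x ^ 2 + ε ^ 2)) / 2 := by
  have h1 : |x| < √(x ^ 2 + ε ^ 2) := by
    rw [← Real.sqrt_sq_eq_abs]
    exact Real.sqrt_lt_sqrt (sq_nonneg _) (by nlinarith [sq_pos_of_pos h])
  have h2 := le_abs_self x
  linarith

theorem half_le (ε x : ℝ) (h : 0 < ε) : (x + √(x ^ 2 + ε ^ 2)) / 2 ≤ (x + |x|) / 2 + ε / 2 := by
  have h1 : √(x ^ 2 + ε ^ 2) ≤ |x| + ε := by
    apply Real.sqrt_le_iff.2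
    refine ⟨by positivity, ?_⟩
    nlinarith [abs_nonneg x, sq_abs x, mul_nonneg (abs_nonneg x) h.le]
  linarith

theorem uu_lt_prof (ε a : ℝ) (h : 0 < ε) : uu a < prof ε a := by
  have hA := half_gt ε (1 / 25 - a ^ 2) h
  have hB := half_gt ε (1 / 25 - (a - 1) ^ 2) h
  have hA0 := half_pos ε (1 / 25 - a ^ 2) h
  have hB0 := half_pos ε (1 / 25 - (a - 1) ^ 2) h
  have h1 : 1 / 25 - a ^ 2 < prof ε a := by rw [prof]; linarith
  have h2 : 1 / 25 - (a - 1) ^ 2 < prof ε a := by rw [prof]; linarith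
  have h3 := step_nonneg (5 * a - 2)
  have h4 := step_le_one (5 * a - 2)
  rw [uu]
  rcases eq_or_lt_of_le h3 with h5 | h5
  · rw [← h5]; linarith
  · nlinarith

theorem prof_pos (ε a : ℝ) (h : 0 < ε) : 0 < prof ε a := by
  have hA0 := half_pos ε (1 / 25 - a ^ 2) h
  have hB0 := half_pos ε (1 / 25 - (a - 1) ^ 2) h
  rw [prof]; linarith

theorem prof_zero (a : ℝ) : prof 0 a = ((1 / 25 - a ^ 2) + |1 / 25 - a ^ 2|) / 2 +
    ((1 / 25 - (a - 1) ^ 2) + |1 / 25 - (a - 1) ^ 2|) / 2 := by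
  rw [prof]
  simp only [ne_eq, OfNat.ofNat_ne_zero, not_false_eq_true, zero_pow, add_zero, Real.sqrt_sq_eq_abs]

theorem prof_le (ε a : ℝ) (h : 0 < ε) : prof ε a ≤ prof 0 a + ε := by
  have hA := half_le ε (1 / 25 - a ^ 2) h
  have hB := half_le ε (1 / 25 - (a - 1) ^ 2) h
  rw [prof_zero, prof]; linarith

theorem den_pos (ε a k : ℝ) (h : 0 < ε) (hk : 0 ≤ k) : 0 < k - uu a + prof ε a := by
  have := uu_lt_prof ε a h
  linarith

theorem hh_pos (ε a k : ℝ) (h : 0 < ε) (hk : 0 ≤ k) : 0 < hh ε a k :=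
  Real.sqrt_pos.2 (div_pos (prof_pos ε a h) (den_pos ε a k h hk))

theorem hh_sq (ε a k : ℝ) (h : 0 < ε) (hk : 0 ≤ k) :
    hh ε a k ^ 2 = prof ε a / (k - uu a + prof ε a) :=
  Real.sq_sqrt (div_pos (prof_pos ε a h) (den_pos ε a k h hk)).le

theorem hasDerivAt_hh (ε a k : ℝ) (h : 0 < ε) (hk : 0 ≤ k) :
    HasDerivAt (hh ε a) (-(hh ε a k) / (2 * (k - uu a + prof ε a))) k := by
  have hd := den_pos ε a k h hk
  have hg := prof_pos ε a h
  have h1 : HasDerivAt (fun k : ℝ => k - uu a + prof ε a) 1 k := by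
    simpa using ((hasDerivAt_id k).sub_const (uu a)).add_const (prof ε a)
  have h2 : HasDerivAt (fun k : ℝ => prof ε a / (k - uu a + prof ε a))
      ((0 * (k - uu a + prof ε a) - prof ε a * 1) / (k - uu a + prof ε a) ^ 2) k :=
    (hasDerivAt_const k (prof ε a)).div h1 hd.ne'
  have h3 := h2.sqrt (div_pos hg hd).ne'
  have h4 := hh_pos ε a k h hk
  have h5 := hh_sq ε a k h hk
  refine h3.congr_deriv ?_
  change (0 * (k - uu a + prof ε a) - prof ε a * 1) / (k - uu a + prof ε a) ^ 2 /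
    (2 * hh ε a k) = _
  have h6 : prof ε a = hh ε a k ^ 2 * (k - uu a + prof ε a) := by
    rw [h5]; field_simp
  have h7 : (0 * (k - uu a + prof ε a) - prof ε a * 1) =
      -(hh ε a k ^ 2 * (k - uu a + prof ε a)) := by
    rw [← h6]; ring
  rw [h7]
  field_simp

theorem contDiff_prof (ε : ℝ) (h : 0 < ε) : ContDiff ℝ ∞ (prof ε) := by
  have hA : ContDiff ℝ ∞ (fun a : ℝ => 1 / 25 - a ^ 2) := by fun_prop
  have hB : ContDiff ℝ ∞ (fun a : ℝ => 1 / 25 - (a - 1) ^ 2) := by fun_prop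
  have h1 : ∀ f : ℝ → ℝ, ContDiff ℝ ∞ f → ContDiff ℝ ∞ (fun a => √(f a ^ 2 + ε ^ 2)) := by
    intro f hf
    refine ContDiff.sqrt ?_ ?_
    · fun_prop
    · intro x
      have : 0 < ε ^ 2 := by positivity
      have := sq_nonneg (f x)
      linarith
  exact (((hA.add (h1 _ hA)).div_const 2)).add ((hB.add (h1 _ hB)).div_const 2)

theorem contDiff_uu : ContDiff ℝ ∞ uu := by
  have h1 : ContDiff ℝ ∞ (fun a : ℝ => step (5 * a - 2)) :=
    contDiff_step.comp (by fun_prop)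
  have hA : ContDiff ℝ ∞ (fun a : ℝ => 1 / 25 - a ^ 2) := by fun_prop
  have hB : ContDiff ℝ ∞ (fun a : ℝ => 1 / 25 - (a - 1) ^ 2) := by fun_prop
  exact ((contDiff_const.sub h1).mul hA).add (h1.mul hB)

/-- the domain of smoothness of `hh ε` -/
def OO (ε : ℝ) : Set (ℝ × ℝ) := {x | 0 < x.2 - uu x.1 + prof ε x.1}

theorem isOpen_OO (ε : ℝ) (h : 0 < ε) : IsOpen (OO ε) := by
  have h1 := contDiff_uu.continuous
  have h2 := (contDiff_prof ε h).continuous
  exact isOpen_lt continuous_const (by fun_prop)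

theorem contDiffOn_hh (ε : ℝ) (h : 0 < ε) :
    ContDiffOn ℝ ∞ (fun x : ℝ × ℝ => hh ε x.1 x.2) (OO ε) := by
  have h1 : ContDiff ℝ ∞ (fun x : ℝ × ℝ => uu x.1) := contDiff_uu.comp contDiff_fst
  have h2 : ContDiff ℝ ∞ (fun x : ℝ × ℝ => prof ε x.1) := (contDiff_prof ε h).comp contDiff_fst
  have h3 : ContDiff ℝ ∞ (fun x : ℝ × ℝ => x.2 - uu x.1 + prof ε x.1) :=
    (contDiff_snd.sub h1).add h2
  refine ContDiffOn.sqrt (h2.contDiffOn.div h3.contDiffOn ?_) ?_
  · intro x hx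
    exact ne_of_gt hx
  · intro x hx
    exact (div_pos (prof_pos ε _ h) hx).ne'

theorem contDiff_bet (r0 : StR0) (ε : ℝ) : ContDiff ℝ ∞ (bet ε) := by
  have h1 : ContDiff ℝ ∞ (fun a : ℝ => ramp ((a - 6 / 5) / ε)) := r0.1.comp (by fun_prop)
  have h2 : ContDiff ℝ ∞ (fun a : ℝ => ramp ((-1 / 5 - a) / ε)) := r0.1.comp (by fun_prop)
  have h3 : bet ε = fun a => a - (1 - ε) * ε * ramp ((a - 6 / 5) / ε) +
    (1 - ε) * ε * ramp ((-1 / 5 - a) / ε) := rfl
  rw [h3]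
  fun_prop

theorem hasDerivAt_bet (r0 : StR0) (ε : ℝ) (h : 0 < ε) (a : ℝ) :
    HasDerivAt (bet ε) (1 - (1 - ε) * step ((a - 6 / 5) / ε) -
      (1 - ε) * step ((-1 / 5 - a) / ε)) a := by
  have e1 : HasDerivAt (fun a : ℝ => (a - 6 / 5) / ε) (1 / ε) a :=
    ((hasDerivAt_id a).sub_const _).div_const ε
  have e2 : HasDerivAt (fun a : ℝ => (-1 / 5 - a) / ε) ((-1) / ε) a := by
    have := ((hasDerivAt_id a).const_sub (-1 / 5)).div_const ε
    simpa using this
  have h1 : HasDerivAt (fun a : ℝ => ramp ((a - 6 / 5) / ε)) (step ((a - 6 / 5) / ε) * (1 / ε)) a :=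
    HasDerivAt.comp (h₂ := ramp) a (r0.2.1 ((a - 6 / 5) / ε)) e1
  have h2 : HasDerivAt (fun a : ℝ => ramp ((-1 / 5 - a) / ε))
      (step ((-1 / 5 - a) / ε) * ((-1) / ε)) a :=
    HasDerivAt.comp (h₂ := ramp) a (r0.2.1 ((-1 / 5 - a) / ε)) e2
  have h3 := ((hasDerivAt_id a).sub (h1.const_mul ((1 - ε) * ε))).add
    (h2.const_mul ((1 - ε) * ε))
  refine h3.congr_deriv ?_
  field_simp
  ring

theorem bet_deriv_pos (ε : ℝ) (h : ε ∈ Ioo (0 : ℝ) 1) (a : ℝ) :
    0 < 1 - (1 - ε) * step ((a - 6 / 5) / ε) - (1 - ε) * step ((-1 / 5 - a) / ε) := by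
  obtain ⟨h0, h1⟩ := h
  rcases le_total a (6 / 5) with ha | ha
  · rw [step_zero (x := (a - 6 / 5) / ε) (div_nonpos_of_nonpos_of_nonneg (by linarith) h0.le)]
    have := step_le_one ((-1 / 5 - a) / ε)
    nlinarith
  · rw [step_zero (x := (-1 / 5 - a) / ε) (div_nonpos_of_nonpos_of_nonneg (by linarith) h0.le)]
    have := step_le_one ((a - 6 / 5) / ε)
    nlinarith

theorem bet_mid (r0 : StR0) (ε : ℝ) (h : 0 < ε) (a : ℝ) (h1 : -1 / 5 ≤ a) (h2 : a ≤ 6 / 5) :
    bet ε a = a := by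
  rw [bet, r0.2.2.1 _ (div_nonpos_of_nonpos_of_nonneg (by linarith) h.le),
    r0.2.2.1 _ (div_nonpos_of_nonpos_of_nonneg (by linarith) h.le)]
  ring

theorem ramp_bounds (r0 : StR0) (ε : ℝ) (h : 0 < ε) (y : ℝ) (hy : 0 ≤ y) :
    y - ε ≤ ε * ramp (y / ε) ∧ ε * ramp (y / ε) ≤ y := by
  have h1 := r0.2.2.2.2.1 (y / ε)
  have h2 := r0.2.2.2.2.2 (y / ε) (div_nonneg hy h.le)
  have h3 : ε * (y / ε) = y := by field_simp
  constructor
  · calc y - ε = ε * (y / ε - 1) := by rw [mul_sub, h3, mul_one]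
      _ ≤ ε * ramp (y / ε) := mul_le_mul_of_nonneg_left h1 h.le
  · calc ε * ramp (y / ε) ≤ ε * (y / ε) := mul_le_mul_of_nonneg_left h2 h.le
      _ = y := h3

theorem axc_zero (a : ℝ) : axc 0 a = 1 / 2 + (|a + 1 / 5| - |a - 6 / 5|) / 2 := by
  rw [axc]
  simp only [ne_eq, OfNat.ofNat_ne_zero, not_false_eq_true, zero_pow, add_zero, Real.sqrt_sq_eq_abs]

theorem bet_close (r0 : StR0) (ε : ℝ) (h : ε ∈ Ioo (0 : ℝ) 1) (a : ℝ) :
    |bet ε a - axc 0 a| ≤ ε * (|a| + 3) := by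
  obtain ⟨h0, h1⟩ := h
  have habs := abs_nonneg a
  have ha1 := le_abs_self a
  have ha2 := neg_abs_le a
  rcases le_total a (6 / 5) with ha | ha
  · rcases le_total (-1 / 5) a with hb | hb
    · rw [bet_mid r0 ε h0 a hb ha, axc_zero, abs_of_nonneg (by linarith : 0 ≤ a + 1 / 5),
        abs_of_nonpos (by linarith : a - 6 / 5 ≤ 0)]
      have : a - (1 / 2 + (a + 1 / 5 - -(a - 6 / 5)) / 2) = 0 := by ring
      rw [this, abs_zero]
      positivity
    · rw [axc_zero, abs_of_nonpos (by linarith : a + 1 / 5 ≤ 0),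
        abs_of_nonpos (by linarith : a - 6 / 5 ≤ 0), bet,
        r0.2.2.1 _ (div_nonpos_of_nonpos_of_nonneg (by linarith : a - 6 / 5 ≤ 0) h0.le)]
      obtain ⟨h2, h3⟩ := ramp_bounds r0 ε h0 (-1 / 5 - a) (by linarith)
      set X := ε * ramp ((-1 / 5 - a) / ε) with hX
      have h4 : a - (1 - ε) * ε * 0 + (1 - ε) * ε * ramp ((-1 / 5 - a) / ε) -
          (1 / 2 + (-(a + 1 / 5) - -(a - 6 / 5)) / 2) = a + (1 - ε) * X + 1 / 5 := by
        rw [hX]; ring
      rw [h4, abs_le]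
      constructor
      · nlinarith
      · nlinarith
  · rw [axc_zero, abs_of_nonneg (by linarith : 0 ≤ a + 1 / 5),
      abs_of_nonneg (by linarith : 0 ≤ a - 6 / 5), bet,
      r0.2.2.1 ((-1 / 5 - a) / ε)
        (div_nonpos_of_nonpos_of_nonneg (by linarith : -1 / 5 - a ≤ 0) h0.le)]
    obtain ⟨h2, h3⟩ := ramp_bounds r0 ε h0 (a - 6 / 5) (by linarith)
    set X := ε * ramp ((a - 6 / 5) / ε) with hX
    have h4 : a - (1 - ε) * ε * ramp ((a - 6 / 5) / ε) + (1 - ε) * ε * 0 -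
        (1 / 2 + (a + 1 / 5 - (a - 6 / 5)) / 2) = a - (1 - ε) * X - 6 / 5 := by
      rw [hX]; ring
    rw [h4, abs_le]
    constructor
    · nlinarith
    · nlinarith

/-! ### the squared norm `X = k hh²` of the third component -/

theorem X_le_prof (ε a k : ℝ) (h : 0 < ε) (hk : 0 ≤ k) : k * hh ε a k ^ 2 ≤ prof ε a := by
  rw [hh_sq ε a k h hk, ← mul_div_assoc, div_le_iff₀ (den_pos ε a k h hk)]
  have := uu_lt_prof ε a h
  have := prof_pos ε a h
  nlinarith

theorem X_sub (ε a k : ℝ) (h : 0 < ε) (hk : 0 ≤ k) :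
    k * hh ε a k ^ 2 - uu a = (prof ε a - uu a) * (k - uu a) / (k - uu a + prof ε a) := by
  have := (den_pos ε a k h hk).ne'
  rw [hh_sq ε a k h hk]
  field_simp
  ring

theorem X_ge (ε a k : ℝ) (h : 0 < ε) (hk : 0 ≤ k) (hu : uu a ≤ k) : uu a ≤ k * hh ε a k ^ 2 := by
  have h1 := X_sub ε a k h hk
  have h2 : 0 ≤ (prof ε a - uu a) * (k - uu a) / (k - uu a + prof ε a) :=
    div_nonneg (mul_nonneg (by linarith [uu_lt_prof ε a h]) (by linarith))
      (den_pos ε a k h hk).le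
  linarith

theorem X_le_u (ε a k : ℝ) (h : 0 < ε) (hk : 0 ≤ k) (hu : k ≤ uu a) :
    k ≤ k * hh ε a k ^ 2 ∧ k * hh ε a k ^ 2 ≤ uu a := by
  constructor
  · have h1 : 1 ≤ hh ε a k ^ 2 := by
      rw [hh_sq ε a k h hk, le_div_iff₀ (den_pos ε a k h hk)]
      linarith
    nlinarith
  · have h1 := X_sub ε a k h hk
    have h2 : (prof ε a - uu a) * (k - uu a) / (k - uu a + prof ε a) ≤ 0 :=
      div_nonpos_of_nonpos_of_nonneg
        (mul_nonpos_of_nonneg_of_nonpos (by linarith [uu_lt_prof ε a h]) (by linarith))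
        (den_pos ε a k h hk).le
    linarith

theorem prof_zero_cases (a : ℝ) : (prof 0 a = 0) ∨ (a ^ 2 < 1 / 25 ∧ prof 0 a = uu a) ∨
    ((a - 1) ^ 2 < 1 / 25 ∧ prof 0 a = uu a) := by
  rw [prof_zero]
  rcases lt_or_ge (a ^ 2) (1 / 25) with hA | hA
  · right; left
    refine ⟨hA, ?_⟩
    have ha : a < 1 / 5 := by nlinarith
    have hB : 1 / 25 - (a - 1) ^ 2 ≤ 0 := by nlinarith
    rw [abs_of_nonpos hB, abs_of_nonneg (by linarith : 0 ≤ 1 / 25 - a ^ 2),
      uu_left (by linarith)]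
    ring
  · rcases lt_or_ge ((a - 1) ^ 2) (1 / 25) with hB | hB
    · right; right
      refine ⟨hB, ?_⟩
      have ha : 4 / 5 < a := by nlinarith
      rw [abs_of_nonpos (by linarith : 1 / 25 - a ^ 2 ≤ 0),
        abs_of_nonneg (by linarith : 0 ≤ 1 / 25 - (a - 1) ^ 2), uu_right (by linarith)]
      ring
    · left
      rw [abs_of_nonpos (by linarith : 1 / 25 - a ^ 2 ≤ 0),
        abs_of_nonpos (by linarith : 1 / 25 - (a - 1) ^ 2 ≤ 0)]
      ring

theorem prof_zero_nonneg (a : ℝ) : 0 ≤ prof 0 a := by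
  rw [prof_zero]
  have h1 := neg_abs_le (1 / 25 - a ^ 2)
  have h2 := neg_abs_le (1 / 25 - (a - 1) ^ 2)
  linarith

theorem rsq_eq (c : ℝ) (p : R4) : rsq c p = (p.2.1 - c) ^ 2 + Complex.normSq p.2.2 := by
  rw [rsq, nsq, Complex.normSq_apply]
  ring

theorem prof_zero_le {p : R4} (hp : p ∈ Ext) : prof 0 p.2.1 ≤ Complex.normSq p.2.2 := by
  obtain ⟨h0, h1⟩ := hp
  rw [rsq_eq] at h0 h1
  rcases prof_zero_cases p.2.1 with h | h | h
  · rw [h]; exact Complex.normSq_nonneg _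
  · rw [h.2, uu_left (by nlinarith [h.1])]; linarith
  · rw [h.2, uu_right (by nlinarith [h.1])]; linarith

theorem fac_zero_sq {a k : ℝ} (h : prof 0 a ≤ k) : k * fac 0 a k ^ 2 = prof 0 a := by
  have h0 := prof_zero_nonneg a
  rw [fac]
  simp only [add_zero, mul_zero, zero_mul, ne_eq, OfNat.ofNat_ne_zero, not_false_eq_true, zero_pow,
    Real.sqrt_sq_eq_abs]
  rw [abs_of_nonneg (by linarith : 0 ≤ k - prof 0 a)]
  have h1 : k + prof 0 a + (k - prof 0 a) = 2 * k := by ring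
  rw [h1, Real.sq_sqrt (div_nonneg (by linarith) (by linarith))]
  rcases eq_or_lt_of_le (h0.trans h) with h2 | h2
  · rw [← h2] at h ⊢
    rw [zero_mul]
    linarith
  · field_simp

theorem fac_zero_nonneg (a k : ℝ) : 0 ≤ fac 0 a k := Real.sqrt_nonneg _

theorem X_bounds {p : R4} (hp : p ∈ Ext) (ε : ℝ) (h : 0 < ε) :
    Complex.normSq p.2.2 * fac 0 p.2.1 (Complex.normSq p.2.2) ^ 2 ≤
        Complex.normSq p.2.2 * hh ε p.2.1 (Complex.normSq p.2.2) ^ 2 ∧
      Complex.normSq p.2.2 * hh ε p.2.1 (Complex.normSq p.2.2) ^ 2 ≤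
        Complex.normSq p.2.2 * fac 0 p.2.1 (Complex.normSq p.2.2) ^ 2 + ε := by
  have hk := Complex.normSq_nonneg p.2.2
  have hle := prof_zero_le hp
  rw [fac_zero_sq hle]
  constructor
  · rcases prof_zero_cases p.2.1 with h' | h' | h'
    · rw [h']; positivity
    · rw [h'.2] at hle ⊢; exact X_ge ε _ _ h hk hle
    · rw [h'.2] at hle ⊢; exact X_ge ε _ _ h hk hle
  · exact (X_le_prof ε _ _ h hk).trans (prof_le ε _ h)

/-! ### the maps -/

theorem sq_eq (ε : ℝ) : sq ε = tri ε (axc ε) (fac ε) := rfl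

theorem contDiff_normSq : ContDiff ℝ ∞ (fun p : R4 => Complex.normSq p.2.2) := by
  have h1 : (fun p : R4 => Complex.normSq p.2.2) =
      fun p : R4 => Complex.reCLM p.2.2 * Complex.reCLM p.2.2 +
        Complex.imCLM p.2.2 * Complex.imCLM p.2.2 := by
    funext p
    rw [Complex.normSq_apply]
    rfl
  rw [h1]
  have h2 : ContDiff ℝ ∞ (fun p : R4 => Complex.reCLM p.2.2) :=
    Complex.reCLM.contDiff.comp (contDiff_snd.comp contDiff_snd)
  have h3 : ContDiff ℝ ∞ (fun p : R4 => Complex.imCLM p.2.2) :=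
    Complex.imCLM.contDiff.comp (contDiff_snd.comp contDiff_snd)
  exact (h2.mul h2).add (h3.mul h3)

theorem contDiff_kk (r0 : StR0) (ε : ℝ) (h : 0 < ε) : ContDiff ℝ ∞ (kk ε) := by
  have h1 : ContDiff ℝ ∞ (fun p : R4 => (1 / 2 + ε * (p.1 - 1 / 2) : ℝ)) := by fun_prop
  have ha : ContDiff ℝ ∞ (fun p : R4 => p.2.1) := contDiff_fst.comp contDiff_snd
  have h2 : ContDiff ℝ ∞ (fun p : R4 => bet ε p.2.1) :=
    ContDiff.comp (g := bet ε) (f := fun p : R4 => p.2.1) (contDiff_bet r0 ε) ha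
  have h3 : ContDiff ℝ ∞ (fun p : R4 => hh ε p.2.1 (Complex.normSq p.2.2)) :=
    ContDiffOn.comp_contDiff (g := fun x : ℝ × ℝ => hh ε x.1 x.2)
      (f := fun p : R4 => (p.2.1, Complex.normSq p.2.2)) (contDiffOn_hh ε h)
      (ha.prodMk contDiff_normSq)
      (fun p => den_pos ε p.2.1 (Complex.normSq p.2.2) h (Complex.normSq_nonneg _))
  have h4 : ContDiff ℝ ∞ (fun p : R4 => ((hh ε p.2.1 (Complex.normSq p.2.2) : ℝ) : ℂ) * p.2.2) :=
    (Complex.ofRealCLM.contDiff.comp h3).mul (contDiff_snd.comp contDiff_snd)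
  exact h1.prodMk (h2.prodMk h4)

theorem contDiff_sq (s2 : StS2) (ε : ℝ) (h : 0 < ε) : ContDiff ℝ ∞ (sq ε) :=
  s2.2.2.2.comp_contDiff (f := fun p : R4 => (ε, p)) (contDiff_const.prodMk contDiff_id)
    (fun _ => ⟨h, mem_univ _⟩)

theorem embOn_mix (s0 : StS0) (s1 : StS1) (s2 : StS2) (r0 : StR0) (ε : ℝ)
    (h : ε ∈ Ioo (0 : ℝ) 1) (t : ℝ) (ht : t ∈ Icc (0 : ℝ) 1) :
    EmbOn 𝓘(ℝ, R4) (fun p => (1 - t) • sq ε p + t • kk ε p) univ := by
  obtain ⟨h0, h1⟩ := h
  obtain ⟨ht0, ht1⟩ := ht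
  obtain ⟨hax, d, hd⟩ := s2.2.1 ε h0
  obtain ⟨O, hO, hOk, hOs⟩ := s2.2.2.1 ε h0
  have hff : ∀ a k : ℝ, ∃ e : ℝ, 0 ≤ k → HasDerivAt (fac ε a) e k ∧ 0 < fac ε a k ∧
      0 < fac ε a k + 2 * k * e := by
    intro a k
    by_cases hk : 0 ≤ k
    · obtain ⟨q1, _, _, _, e, he1, he2⟩ := s1 ε (prof ε a) k h0 (prof_pos ε a h0) hk
      exact ⟨e, fun _ => ⟨he1, q1, he2⟩⟩
    · exact ⟨0, fun hk' => absurd hk' hk⟩
  choose e he using hff
  have hmap : (fun p => (1 - t) • sq ε p + t • kk ε p) =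
      tri ε (fun a => (1 - t) * axc ε a + t * bet ε a)
        (fun a k => (1 - t) * fac ε a k + t * hh ε a k) := by
    funext p
    refine Prod.ext ?_ (Prod.ext ?_ ?_)
    · change (1 - t) * (1 / 2 + ε * (p.1 - 1 / 2)) + t * (1 / 2 + ε * (p.1 - 1 / 2)) =
        1 / 2 + ε * (p.1 - 1 / 2)
      ring
    · rfl
    · change (1 - t) • (((fac ε p.2.1 (Complex.normSq p.2.2) : ℝ) : ℂ) * p.2.2) +
        t • (((hh ε p.2.1 (Complex.normSq p.2.2) : ℝ) : ℂ) * p.2.2) =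
        (((1 - t) * fac ε p.2.1 (Complex.normSq p.2.2) +
          t * hh ε p.2.1 (Complex.normSq p.2.2) : ℝ) : ℂ) * p.2.2
      rw [Complex.real_smul, Complex.real_smul]
      push_cast
      ring
  rw [hmap]
  have hpos : ∀ x y : ℝ, 0 < x → 0 < y → 0 < (1 - t) * x + t * y := by
    intro x y hx hy
    rcases eq_or_lt_of_le ht0 with h2 | h2
    · rw [← h2]; linarith
    · have := mul_pos h2 hy
      have := mul_nonneg (sub_nonneg.2 ht1) hx.le
      linarith
  refine s0 ε (fun a => (1 - t) * axc ε a + t * bet ε a)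
    (fun a => (1 - t) * d a + t * (1 - (1 - ε) * step ((a - 6 / 5) / ε) -
      (1 - ε) * step ((-1 / 5 - a) / ε)))
    (fun a k => (1 - t) * fac ε a k + t * hh ε a k)
    (fun a k => (1 - t) * e a k + t * (-(hh ε a k) / (2 * (k - uu a + prof ε a))))
    (O ∩ OO ε) h0 ?_ ?_ ?_ (hO.inter (isOpen_OO ε h0)) ?_ ?_ ?_ ?_
  · exact (contDiff_const.mul hax).add (contDiff_const.mul (contDiff_bet r0 ε))
  · intro a
    exact ((hd a).1.const_mul (1 - t)).add ((hasDerivAt_bet r0 ε h0 a).const_mul t)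
  · intro a
    exact hpos _ _ (hd a).2 (bet_deriv_pos ε ⟨h0, h1⟩ a)
  · intro a k hk
    exact ⟨hOk a k hk, den_pos ε a k h0 hk⟩
  · exact (contDiffOn_const.mul (hOs.mono inter_subset_left)).add
      (contDiffOn_const.mul ((contDiffOn_hh ε h0).mono inter_subset_right))
  · intro a k hk
    exact ((he a k hk).1.const_mul (1 - t)).add ((hasDerivAt_hh ε a k h0 hk).const_mul t)
  · intro a k hk
    refine ⟨hpos _ _ (he a k hk).2.1 (hh_pos ε a k h0 hk), ?_⟩
    have h2 := hh_pos ε a k h0 hk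
    have h3 := den_pos ε a k h0 hk
    have h4 : 0 < hh ε a k + 2 * k * (-(hh ε a k) / (2 * (k - uu a + prof ε a))) := by
      have h5 : hh ε a k + 2 * k * (-(hh ε a k) / (2 * (k - uu a + prof ε a))) =
          hh ε a k * (prof ε a - uu a) / (k - uu a + prof ε a) := by
        field_simp
        ring
      rw [h5]
      exact div_pos (mul_pos h2 (by linarith [uu_lt_prof ε a h0])) h3
    have h6 := hpos _ _ (he a k hk).2.2 h4
    have h7 : (1 - t) * fac ε a k + t * hh ε a k + 2 * k * ((1 - t) * e a k +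
        t * (-(hh ε a k) / (2 * (k - uu a + prof ε a)))) =
        (1 - t) * (fac ε a k + 2 * k * e a k) +
        t * (hh ε a k + 2 * k * (-(hh ε a k) / (2 * (k - uu a + prof ε a)))) := by ring
    rw [h7]
    exact h6

theorem hh_one (ε a : ℝ) (h : 0 < ε) : hh ε a (uu a) = 1 := by
  rw [hh, sub_self, zero_add, div_self (prof_pos ε a h).ne', Real.sqrt_one]

theorem kk_fix (r0 : StR0) (ε : ℝ) (h : 0 < ε) (p : R4) (h1 : p.1 = 1 / 2) (h2 : -1 / 5 ≤ p.2.1)
    (h3 : p.2.1 ≤ 6 / 5) (h4 : Complex.normSq p.2.2 = uu p.2.1) : kk ε p = p := by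
  refine Prod.ext ?_ (Prod.ext ?_ ?_)
  · change 1 / 2 + ε * (p.1 - 1 / 2) = p.1
    rw [h1]; ring
  · change bet ε p.2.1 = p.2.1
    exact bet_mid r0 ε h _ h2 h3
  · change ((hh ε p.2.1 (Complex.normSq p.2.2) : ℝ) : ℂ) * p.2.2 = p.2.2
    rw [h4, hh_one ε _ h]
    simp

theorem normSq_third (ε : ℝ) (p : R4) : Complex.normSq (kk ε p).2.2 =
    Complex.normSq p.2.2 * hh ε p.2.1 (Complex.normSq p.2.2) ^ 2 := by
  change Complex.normSq (((hh ε p.2.1 (Complex.normSq p.2.2) : ℝ) : ℂ) * p.2.2) = _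
  rw [Complex.normSq_mul, Complex.normSq_ofReal]
  ring

theorem third_close {p : R4} (hp : p ∈ Ext) (ε : ℝ) (h : 0 < ε) :
    ‖((hh ε p.2.1 (Complex.normSq p.2.2) : ℝ) : ℂ) * p.2.2 -
      ((fac 0 p.2.1 (Complex.normSq p.2.2) : ℝ) : ℂ) * p.2.2‖ ≤ √ε := by
  obtain ⟨h1, h2⟩ := X_bounds hp ε h
  have hk : Complex.normSq p.2.2 = ‖p.2.2‖ ^ 2 := Complex.normSq_eq_norm_sq _
  have hx := (hh_pos ε p.2.1 (Complex.normSq p.2.2) h (Complex.normSq_nonneg _)).le
  have hy := fac_zero_nonneg p.2.1 (Complex.normSq p.2.2)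
  set x := hh ε p.2.1 (Complex.normSq p.2.2) with hxdef
  set y := fac 0 p.2.1 (Complex.normSq p.2.2) with hydef
  set n := ‖p.2.2‖ with hn
  have hn0 : 0 ≤ n := norm_nonneg _
  rw [hk] at h1 h2
  rw [← sub_mul, ← Complex.ofReal_sub, norm_mul, Complex.norm_real, Real.norm_eq_abs, ← hn]
  apply Real.le_sqrt_of_sq_le
  rw [mul_pow, sq_abs]
  have h3 : n * y ≤ n * x := by
    apply le_of_sq_le_sq _ (by positivity)
    nlinarith
  nlinarith [mul_nonneg hn0 hx, mul_nonneg hn0 hy]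

end R1

open R1

theorem m_R1 (s0 : StS0) (s1 : StS1) (s2 : StS2) (_s3 : StS3) (_s4 : StS4) (r0 : StR0) : StR1 := by
  refine ⟨?_, ?_, ?_, ?_⟩
  · intro ε hε
    have hk := contDiff_kk r0 ε hε.1
    have hs := contDiff_sq s2 ε hε.1
    refine ⟨hk, ?_, fun t ht => embOn_mix s0 s1 s2 r0 ε hε t ht⟩
    exact ((contDiff_const.sub contDiff_fst).smul (hs.comp contDiff_snd)).add
      (contDiff_fst.smul (hk.comp contDiff_snd))
  · intro ε hε p hp
    rcases hp with hp | hp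
    · obtain ⟨h1, h2⟩ := hp
      rw [rsq_eq, sub_zero] at h2
      have hk := Complex.normSq_nonneg p.2.2
      have h3 : -1 / 5 ≤ p.2.1 := by nlinarith
      have h4 : p.2.1 ≤ 1 / 5 := by nlinarith
      exact kk_fix r0 ε hε.1 p h1 h3 (by linarith) (by rw [uu_left (by linarith)]; linarith)
    · obtain ⟨h1, h2⟩ := hp
      rw [rsq_eq] at h2
      have hk := Complex.normSq_nonneg p.2.2
      have h3 : 4 / 5 ≤ p.2.1 := by nlinarith
      have h4 : p.2.1 ≤ 6 / 5 := by nlinarith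
      exact kk_fix r0 ε hε.1 p h1 (by linarith) h4 (by rw [uu_right (by linarith)]; linarith)
  · intro K hK hKE r hr
    obtain ⟨R, hR⟩ := hK.isBounded.exists_norm_le
    set C : ℝ := max R 0 + 3 with hC
    have hC0 : 0 < C := by positivity
    refine ⟨min 1 (min (r / C) (r ^ 2)), by positivity, ?_⟩
    intro ε hε p hp
    obtain ⟨h0, h1⟩ := hε
    have h2 : ε < 1 := h1.trans_le (min_le_left _ _)
    have h3 : ε < r / C := h1.trans_le ((min_le_right _ _).trans (min_le_left _ _))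
    have h4 : ε < r ^ 2 := h1.trans_le ((min_le_right _ _).trans (min_le_right _ _))
    have h5 : ε * C ≤ r := by rw [lt_div_iff₀ hC0] at h3; exact h3.le
    have hpR := hR p hp
    have hp1 : |p.1| ≤ R := (norm_fst_le p).trans hpR
    have hp2 : |p.2.1| ≤ R := ((norm_fst_le p.2).trans (norm_snd_le p)).trans hpR
    have hRC : R ≤ C - 3 := by rw [hC]; linarith [le_max_left R 0]
    have hd : dist (kk ε p) (sq 0 p) = max (dist (kk ε p).1 (sq 0 p).1)
        (max (dist (kk ε p).2.1 (sq 0 p).2.1) (dist (kk ε p).2.2 (sq 0 p).2.2)) := by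
      rw [Prod.dist_eq, Prod.dist_eq]
    rw [hd]
    refine max_le ?_ (max_le ?_ ?_)
    · change dist (1 / 2 + ε * (p.1 - 1 / 2)) (1 / 2 + 0 * (p.1 - 1 / 2)) ≤ r
      rw [Real.dist_eq]
      have e1 : (1 / 2 + ε * (p.1 - 1 / 2)) - (1 / 2 + 0 * (p.1 - 1 / 2)) = ε * (p.1 - 1 / 2) := by
        ring
      rw [e1, abs_mul, abs_of_pos h0]
      refine (mul_le_mul_of_nonneg_left ?_ h0.le).trans h5
      have := abs_sub p.1 (1 / 2)
      have e2 : |(1 / 2 : ℝ)| = 1 / 2 := by norm_num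
      rw [e2] at this
      linarith
    · change dist (bet ε p.2.1) (axc 0 p.2.1) ≤ r
      rw [Real.dist_eq]
      refine (bet_close r0 ε ⟨h0, h2⟩ _).trans ((mul_le_mul_of_nonneg_left ?_ h0.le).trans h5)
      linarith
    · change dist (((hh ε p.2.1 (Complex.normSq p.2.2) : ℝ) : ℂ) * p.2.2)
        (((fac 0 p.2.1 (Complex.normSq p.2.2) : ℝ) : ℂ) * p.2.2) ≤ r
      rw [dist_eq_norm]
      refine (third_close (hKE hp) ε h0).trans ?_
      rw [Real.sqrt_le_iff]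
      exact ⟨hr.le, h4.le⟩
  · intro ε hε p
    have hk := Complex.normSq_nonneg p.2.2
    refine ⟨?_, ?_⟩
    · intro h
      rw [rsq_eq, sub_zero] at h
      have h3 : -1 / 5 ≤ p.2.1 := by nlinarith
      have h4 : p.2.1 ≤ 1 / 5 := by nlinarith
      have hb : (kk ε p).2.1 = p.2.1 := bet_mid r0 ε hε.1 _ h3 (by linarith)
      have hu : uu p.2.1 = 1 / 25 - p.2.1 ^ 2 := uu_left (by linarith)
      obtain ⟨h5, h6⟩ := X_le_u ε p.2.1 (Complex.normSq p.2.2) hε.1 hk (by rw [hu]; linarith)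
      rw [rsq_eq, rsq_eq, normSq_third, hb, sub_zero]
      rw [hu] at h6
      constructor <;> linarith
    · intro h
      rw [rsq_eq] at h
      have h3 : 4 / 5 ≤ p.2.1 := by nlinarith
      have h4 : p.2.1 ≤ 6 / 5 := by nlinarith
      have hb : (kk ε p).2.1 = p.2.1 := bet_mid r0 ε hε.1 _ (by linarith) h4
      have hu : uu p.2.1 = 1 / 25 - (p.2.1 - 1) ^ 2 := uu_right (by linarith)
      obtain ⟨h5, h6⟩ := X_le_u ε p.2.1 (Complex.normSq p.2.2) hε.1 hk (by rw [hu]; linarith)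
      rw [rsq_eq, rsq_eq, normSq_third, hb]
      rw [hu] at h6
      constructor <;> linarith

end Pool.Agent.Helper18.BI


end
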