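import Pool.Agent.Helper65.Barb.Defs
import Pool.Agent.Helper70.BI.C.P44
import Pool.Agent.Helper70.BI.C.P55
import Pool.Agent.Helper70.BI.C.P58

/-!
# Project BI (MP_8e98f2_gt): collected modules, part 59

The contents of the modules
* Helper70.BI.H.M_NORM
* Helper18.BI.H.M_NUL
* Helper18.BI.S5.M_HATK

in one file, so that the whole proof builds in a short time.
-/

namespace Pool.Agent.Helper18.BI
end Pool.Agent.Helper18.BI

namespace Pool.Agent.Helper18.BI.H
end Pool.Agent.Helper18.BI.H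

namespace Pool.Agent.Helper27.BI
end Pool.Agent.Helper27.BI

namespace Pool.Agent.Helper27.H
end Pool.Agent.Helper27.H

namespace Pool.Agent.Helper27.S5
end Pool.Agent.Helper27.S5

namespace Pool.Agent.Helper65.Barb
end Pool.Agent.Helper65.Barb

namespace Pool.Agent.Helper70.BI
end Pool.Agent.Helper70.BI


/-! ## Helper70.BI.H.M_NORM -/

section

/-!
# Project BI, stage 3 (H), section NORM: assembly
-/

set_option autoImplicit false

open scoped Manifold ContDiff Topology ComplexConjugate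
open Set Filter Pool.Agent.Helper65.Barb Pool.Agent.Helper18.BI

namespace Pool.Agent.Helper70.H

open Pool.Agent.Helper27.H (ArcD seg StNORM)
open Pool.Agent.Helper70.BI (I4 LD Eqv NearEq pc StPT StGL StFam StMain2 IsW MW embOn_iff embOn_comp
  famOn_comp famOn_const famOn_iff)

/-- the class of a germ in normal form after a slide -/
theorem NORM.slide (hF : StFam) {D : ArcD} {a b lam : ℝ} {T : R4 → R4} (hT : NC D a b lam T)
    {S : ℝ × R4 → R4} (hS : ContDiff ℝ ∞ S) (hS0 : ∀ y, S (0, y) = y)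
    (hSe : ∀ t ∈ Icc (0 : ℝ) 1, EmbOn I4 (fun y => S (t, y)) univ)
    (hSU : ∀ t ∈ Icc (0 : ℝ) 1, ∀ y ∈ D.U \ D.A, S (t, y) ∈ D.U \ D.A) :
    EmbOn I4 (fun p => D.e (S (1, T p))) SP ∧
      Eqv (fun p => D.e (T p)) (fun p => D.e (S (1, T p))) := by
  have hSf : FamOn I4 S univ := by
    rw [famOn_iff]
    exact ⟨fun t _ p _ => Eventually.of_forall fun z => hS.contDiffAt, hSe⟩
  have h1 : FamOn I4 (fun z : ℝ × R4 => S (z.1, T z.2)) SP :=
    famOn_comp hSf (famOn_const hT.emb) fun _ _ _ _ => mem_univ _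
  have h2 : FamOn I4 (fun z : ℝ × R4 => D.e (S (z.1, T z.2))) SP := by
    have h3 := famOn_comp (J := fun z : ℝ × R4 => D.e z.2)
      (m := fun z : ℝ × R4 => S (z.1, T z.2)) (famOn_const D.embe) h1
      (fun t ht p hp => hSU t ht _ (hT.off p hp))
    exact h3
  refine ⟨(famOn_iff.1 h2).2 1 (by norm_num), ?_⟩
  have h4 := hF _ h2
  simpa [hS0] using h4

theorem m_NORM (hNCT : StNCT) (hSLD : StSLD) (hF : StFam) (hMain : StMain2) : StNORM := by
  intro D T T' W hW hT hT'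
  obtain ⟨a, b, l₀, ha, hab, hb, hl₀, hN⟩ := hNCT D T hT
  obtain ⟨a', b', l₀', ha', hab', hb', hl₀', hN'⟩ := hNCT D T' hT'
  obtain ⟨S, δ, hS, hS0, hδ, hSe, hSU, hSa, hSb⟩ := hSLD D a b a' b' ha hab hb ha' hab' hb'
  set lam : ℝ := min (min l₀ l₀') δ / 2 with hlam
  have hm : 0 < min (min l₀ l₀') δ := lt_min (lt_min hl₀ hl₀') hδ
  have hl : 0 < lam := by positivity
  have hl1 : lam < l₀ := by
    have : min (min l₀ l₀') δ ≤ l₀ := (min_le_left _ _).trans (min_le_left _ _)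
    linarith
  have hl2 : lam < l₀' := by
    have : min (min l₀ l₀') δ ≤ l₀' := (min_le_left _ _).trans (min_le_right _ _)
    linarith
  have hl3 : lam < δ := by
    have : min (min l₀ l₀') δ ≤ δ := min_le_right _ _
    linarith
  obtain ⟨T₁, hT₁, hE₁⟩ := hN lam ⟨hl, hl1⟩
  obtain ⟨T₁', hT₁', hE₁'⟩ := hN' lam ⟨hl, hl2⟩
  obtain ⟨hemb, hE₂⟩ := NORM.slide hF hT₁ hS hS0 hSe hSU
  have hemb' : EmbOn I4 (fun p => D.e (T₁' p)) SP := embOn_comp D.embe hT₁'.emb hT₁'.off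
  -- the germs agree near the cuffs
  have near0 : ∀ p ∈ sph 0, ∀ᶠ q in 𝓝 p, S (1, T₁ q) = T₁' q := by
    intro p hp
    have hc : ContinuousAt (fun q : R4 => q.1) p := continuousAt_fst
    have hc2 : ContinuousAt (fun q : R4 => ‖q.2‖) p := continuousAt_snd.norm
    have hp2 : ‖p.2‖ < 1 := by
      obtain ⟨h1, h2⟩ := hp
      have h3 : (p.2.1 - 0) ^ 2 + p.2.2.re ^ 2 + p.2.2.im ^ 2 = 1 / 25 := h2
      rw [Prod.norm_def]
      refine max_lt ?_ ?_
      · rw [Real.norm_eq_abs, abs_lt]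
        constructor <;> nlinarith [sq_nonneg p.2.2.re, sq_nonneg p.2.2.im]
      · have h4 : ‖p.2.2‖ ^ 2 = p.2.2.re ^ 2 + p.2.2.im ^ 2 := by
          rw [← Complex.normSq_eq_norm_sq, Complex.normSq_apply]; ring
        nlinarith [sq_nonneg (p.2.1 - 0), norm_nonneg p.2.2]
    filter_upwards [hT₁.c0 p hp, hT₁'.c0 p hp,
      hc.eventually (Metric.ball_mem_nhds _ hδ), hc2.eventually (gt_mem_nhds hp2)] with q h1 h2 h3 h4
    rw [hp.1, Real.dist_eq] at h3
    change S (1, T₁ q) = T₁' q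
    rw [h1, h2, hSa]
    · simp only
      congr 2
      ring
    · simpa using h3
    · simp only
      rw [norm_smul, Real.norm_of_nonneg hl.le]
      calc lam * ‖q.2‖ ≤ lam * 1 := by gcongr
        _ < δ := by linarith
  have near1 : ∀ p ∈ sph 1, ∀ᶠ q in 𝓝 p, S (1, T₁ q) = T₁' q := by
    intro p hp
    have hc : ContinuousAt (fun q : R4 => q.1) p := continuousAt_fst
    have hc2 : ContinuousAt (fun q : R4 => ‖q.2 - pc 1‖) p := (continuousAt_snd.sub
      continuousAt_const).norm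
    have hp2 : ‖p.2 - pc 1‖ < 1 := by
      obtain ⟨h1, h2⟩ := hp
      have h3 : (p.2.1 - 1) ^ 2 + p.2.2.re ^ 2 + p.2.2.im ^ 2 = 1 / 25 := h2
      rw [Prod.norm_def]
      refine max_lt ?_ ?_
      · change ‖p.2.1 - 1‖ < 1
        rw [Real.norm_eq_abs, abs_lt]
        constructor <;> nlinarith [sq_nonneg p.2.2.re, sq_nonneg p.2.2.im]
      · have h5 : (p.2 - pc 1).2 = p.2.2 := by
          change p.2.2 - 0 = p.2.2
          rw [sub_zero]
        rw [h5]
        have h4 : ‖p.2.2‖ ^ 2 = p.2.2.re ^ 2 + p.2.2.im ^ 2 := by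
          rw [← Complex.normSq_eq_norm_sq, Complex.normSq_apply]; ring
        nlinarith [sq_nonneg (p.2.1 - 1), norm_nonneg p.2.2]
    filter_upwards [hT₁.c1 p hp, hT₁'.c1 p hp,
      hc.eventually (Metric.ball_mem_nhds _ hδ), hc2.eventually (gt_mem_nhds hp2)] with q h1 h2 h3 h4
    rw [hp.1, Real.dist_eq] at h3
    change S (1, T₁ q) = T₁' q
    rw [h1, h2, hSb]
    · simp only
      congr 2
      ring
    · simpa using h3
    · simp only
      rw [norm_smul, Real.norm_of_nonneg hl.le]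
      calc lam * ‖q.2 - pc 1‖ ≤ lam * 1 := by gcongr
        _ < δ := by linarith
  intro φ ψ hφ hψ
  have hφ1 : Thin I4 (fun p => D.e (S (1, T₁ p))) φ := (hE₂ φ).1 ((hE₁ φ).1 hφ)
  have hψ1 : Thin I4 (fun p => D.e (T₁' p)) ψ := (hE₁' ψ).1 hψ
  refine hMain W _ _ φ ψ (interior {q | S (1, T₁ q) = T₁' q}) hW hemb hemb' isOpen_interior ?_ ?_
    hφ1 hψ1
  · rintro p (hp | hp)
    · exact mem_interior_iff_mem_nhds.2 (near0 p hp)
    · exact mem_interior_iff_mem_nhds.2 (near1 p hp)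
  · intro q hq
    have h1 : q ∈ {q | S (1, T₁ q) = T₁' q} := interior_subset hq
    have h1 : S (1, T₁ q) = T₁' q := h1
    simp only [h1]

end Pool.Agent.Helper70.H


end

/-! ## Helper18.BI.H.M_NUL -/

section

/-!
# Project BI, stage 3 (H), module NUL: null-homotopic cuffs (helper8)
-/

set_option autoImplicit false

open scoped Manifold ContDiff Topology ComplexConjugate
open Set Filter Pool.Agent.Helper65.Barb Pool.Agent.Helper18.BI
open Pool.Agent.Helper70.BI (I4 IsW MW ld_iff embOn_iff embOn_comp EmbOn.mono')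

namespace Pool.Agent.Helper18.BI.H

namespace NUL

/-! ### concatenation of homotopies in a complement -/

/-- `f` and `g` are homotopic on `S` in the complement of `K` -/
private def Hom (S K : Set R4) (f g : R4 → R4) : Prop :=
  ∃ h : ℝ × R4 → R4, ContinuousOn h (Icc (0 : ℝ) 1 ×ˢ S) ∧ (∀ p ∈ S, h (0, p) = f p) ∧
    (∀ p ∈ S, h (1, p) = g p) ∧ ∀ u ∈ Icc (0 : ℝ) 1, ∀ p ∈ S, h (u, p) ∉ K

private theorem Hom.trans {S K : Set R4} {f g k : R4 → R4} (hS : IsClosed S) (h1 : Hom S K f g)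
    (h2 : Hom S K g k) : Hom S K f k := by
  obtain ⟨a, a1, a2, a3, a4⟩ := h1
  obtain ⟨b, b1, b2, b3, b4⟩ := h2
  let c : ℝ × R4 → R4 := fun z => if z.1 ≤ 1 / 2 then a (2 * z.1, z.2) else b (2 * z.1 - 1, z.2)
  have ca : ∀ u p, u ≤ 1 / 2 → c (u, p) = a (2 * u, p) := fun u p hu => if_pos hu
  have cb : ∀ u, ∀ p ∈ S, 1 / 2 ≤ u → c (u, p) = b (2 * u - 1, p) := by
    intro u p hp hu
    by_cases h : u ≤ 1 / 2
    · have h3 : u = 1 / 2 := le_antisymm h hu
      subst h3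
      rw [ca _ _ le_rfl]
      have e1 : (2 * (1 / 2 : ℝ) - 1) = 0 := by norm_num
      have e2 : (2 * (1 / 2 : ℝ)) = 1 := by norm_num
      rw [e1, e2, a3 p hp, b2 p hp]
    · exact if_neg h
  refine ⟨c, ?_, ?_, ?_, ?_⟩
  · have hU : Icc (0 : ℝ) 1 ×ˢ S = (Icc (0 : ℝ) (1 / 2) ×ˢ S) ∪ (Icc (1 / 2 : ℝ) 1 ×ˢ S) := by
      rw [← Set.union_prod, Set.Icc_union_Icc_eq_Icc (by norm_num) (by norm_num)]
    rw [hU]
    refine ContinuousOn.union_of_isClosed ?_ ?_ (isClosed_Icc.prod hS) (isClosed_Icc.prod hS)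
    · refine ContinuousOn.congr (f := fun z : ℝ × R4 => a (2 * z.1, z.2)) ?_ ?_
      · refine a1.comp (Continuous.continuousOn (by fun_prop)) ?_
        rintro ⟨u, p⟩ ⟨hu, hp⟩
        exact ⟨⟨by show (0 : ℝ) ≤ 2 * u; linarith [hu.1], by show 2 * u ≤ (1 : ℝ); linarith [hu.2]⟩, hp⟩
      · rintro ⟨u, p⟩ ⟨hu, hp⟩
        exact ca u p hu.2
    · refine ContinuousOn.congr (f := fun z : ℝ × R4 => b (2 * z.1 - 1, z.2)) ?_ ?_
      · refine b1.comp (Continuous.continuousOn (by fun_prop)) ?_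
        rintro ⟨u, p⟩ ⟨hu, hp⟩
        exact ⟨⟨by show (0 : ℝ) ≤ 2 * u - 1; linarith [hu.1],
          by show 2 * u - 1 ≤ (1 : ℝ); linarith [hu.2]⟩, hp⟩
      · rintro ⟨u, p⟩ ⟨hu, hp⟩
        exact cb u p hp hu.1
  · intro p hp
    rw [ca 0 p (by norm_num), mul_zero, a2 p hp]
  · intro p hp
    have e1 : (2 * (1 : ℝ) - 1) = 1 := by norm_num
    rw [cb 1 p hp (by norm_num), e1, b3 p hp]
  · intro u hu p hp
    by_cases h : u ≤ 1 / 2
    · rw [ca u p h]
      exact a4 _ ⟨by linarith [hu.1], by linarith⟩ p hp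
    · rw [cb u p hp (not_le.1 h).le]
      exact b4 _ ⟨by linarith [not_le.1 h], by linarith [hu.2]⟩ p hp

/-! ### the compression of the flat ball -/

private noncomputable def T (a : ℝ) : ℝ := step (20 * a - 14)

private noncomputable def kax (r a : ℝ) : ℝ := T a * a + (1 - T a) * (3 / 5 + 5 * r * a)

private noncomputable def mk (r a : ℝ) : ℝ := T a + (1 - T a) * (5 * r)

private noncomputable def kap (r : ℝ) (p : R4) : R4 := (p.1, (kax r p.2.1, mk r p.2.1 • p.2.2))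

private theorem T_lo {a : ℝ} (h : a ≤ 7 / 10) : T a = 0 := step_of_nonpos (by linarith)

private theorem T_hi {a : ℝ} (h : 3 / 4 ≤ a) : T a = 1 := step_of_one_le (by linarith)

private theorem T_mem (a : ℝ) : T a ∈ Icc (0 : ℝ) 1 := step_mem _

private theorem T_smooth : ContDiff ℝ ∞ T := contDiff_step.comp (by fun_prop)

private theorem T_mono : Monotone T := by
  intro a b hab
  exact Real.smoothTransition.monotone (by linarith)

private theorem kax_smooth (r : ℝ) : ContDiff ℝ ∞ (kax r) := by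
  unfold kax
  exact (T_smooth.mul contDiff_id).add ((contDiff_const.sub T_smooth).mul (by fun_prop))

private theorem mk_smooth (r : ℝ) : ContDiff ℝ ∞ (mk r) := by
  unfold mk
  exact T_smooth.add ((contDiff_const.sub T_smooth).mul contDiff_const)

private theorem mk_pos {r : ℝ} (h0 : 0 < r) (a : ℝ) : 0 < mk r a := by
  have h := T_mem a
  unfold mk
  rcases h.1.eq_or_lt with h1 | h1
  · rw [← h1]
    linarith
  · have h2 : 0 ≤ (1 - T a) * (5 * r) := mul_nonneg (by linarith [h.2]) (by linarith)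
    linarith

private theorem kax_deriv {r : ℝ} (h0 : 0 < r) (h1 : r ≤ 1 / 100) (a : ℝ) : 0 < deriv (kax r) a := by
  have hT : HasDerivAt T (deriv T a) a := (T_smooth.differentiable (by simp) a).hasDerivAt
  have hk : HasDerivAt (kax r) (deriv T a * (a - (3 / 5 + 5 * r * a)) + mk r a) a := by
    have e1 : HasDerivAt (fun a : ℝ => T a * a) (deriv T a * a + T a * 1) a := hT.mul (hasDerivAt_id a)
    have e2 : HasDerivAt (fun a : ℝ => (3 / 5 + 5 * r * a)) (5 * r) a := by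
      have := ((hasDerivAt_id a).const_mul (5 * r)).const_add (3 / 5)
      simpa using this
    have e3 : HasDerivAt (fun a : ℝ => 1 - T a) (-(deriv T a)) a := hT.const_sub 1
    have e4 := e1.add (e3.mul e2)
    refine e4.congr_deriv ?_
    unfold mk
    ring
  rw [hk.deriv]
  have hm := mk_pos h0 a
  rcases lt_or_ge a (7 / 10) with h | h
  · have h2 : deriv T a = 0 := by
      have h3 : T =ᶠ[𝓝 a] fun _ => 0 := by
        filter_upwards [Iio_mem_nhds h] with b hb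
        exact T_lo (le_of_lt hb)
      rw [h3.deriv_eq, deriv_const]
    rw [h2]
    linarith
  · have h2 : 0 ≤ deriv T a := T_mono.deriv_nonneg
    have h3 : 0 ≤ a - (3 / 5 + 5 * r * a) := by nlinarith
    have h4 := mul_nonneg h2 h3
    linarith

private theorem kax_strictMono {r : ℝ} (h0 : 0 < r) (h1 : r ≤ 1 / 100) : StrictMono (kax r) :=
  strictMono_of_deriv_pos (kax_deriv h0 h1)

private theorem kap_inj {r : ℝ} (h0 : 0 < r) (h1 : r ≤ 1 / 100) : Function.Injective (kap r) := by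
  rintro ⟨s, a, w⟩ ⟨s', a', w'⟩ h
  simp only [kap, Prod.mk.injEq] at h
  obtain ⟨e1, e2, e3⟩ := h
  have e4 : a = a' := (kax_strictMono h0 h1).injective e2
  subst e4
  have e5 : w = w' := smul_right_injective ℂ (mk_pos h0 a).ne' e3
  rw [e1, e5]

private theorem kap_smooth (r : ℝ) : ContDiff ℝ ∞ (kap r) := by
  unfold kap
  exact contDiff_fst.prodMk (((kax_smooth r).comp (contDiff_fst.comp contDiff_snd)).prodMk
    (((mk_smooth r).comp (contDiff_fst.comp contDiff_snd)).smul (contDiff_snd.comp contDiff_snd)))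

private theorem kap_ld {r : ℝ} (h0 : 0 < r) (h1 : r ≤ 1 / 100) (p : R4) :
    Pool.Agent.Helper70.BI.LD (kap r) p := by
  rw [ld_iff]
  refine ⟨Eventually.of_forall fun q => (kap_smooth r).contDiffAt, ?_⟩
  have hA : HasFDerivAt (fun p : R4 => p.2.1)
      ((ContinuousLinearMap.fst ℝ ℝ ℂ).comp (ContinuousLinearMap.snd ℝ ℝ R3)) p :=
    ((ContinuousLinearMap.fst ℝ ℝ ℂ).comp (ContinuousLinearMap.snd ℝ ℝ R3)).hasFDerivAt
  have hW : HasFDerivAt (fun p : R4 => p.2.2)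
      ((ContinuousLinearMap.snd ℝ ℝ ℂ).comp (ContinuousLinearMap.snd ℝ ℝ R3)) p :=
    ((ContinuousLinearMap.snd ℝ ℝ ℂ).comp (ContinuousLinearMap.snd ℝ ℝ R3)).hasFDerivAt
  have hS : HasFDerivAt (fun p : R4 => p.1) (ContinuousLinearMap.fst ℝ ℝ R3) p :=
    (ContinuousLinearMap.fst ℝ ℝ R3).hasFDerivAt
  have hk : HasDerivAt (kax r) (deriv (kax r) p.2.1) p.2.1 :=
    ((kax_smooth r).differentiable (by simp) _).hasDerivAt
  have hm : HasDerivAt (mk r) (deriv (mk r) p.2.1) p.2.1 :=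
    ((mk_smooth r).differentiable (by simp) _).hasDerivAt
  have h2 := hS.prodMk ((hk.comp_hasFDerivAt p hA).prodMk ((hm.comp_hasFDerivAt p hA).smul hW))
  have h3 : HasFDerivAt (kap r) _ p := h2
  rw [h3.fderiv]
  rw [injective_iff_map_eq_zero]
  rintro ⟨v1, v2, v3⟩ hv
  simp only [ContinuousLinearMap.prod_apply, ContinuousLinearMap.coe_fst', Prod.mk_eq_zero,
    _root_.smul_apply, ContinuousLinearMap.comp_apply, ContinuousLinearMap.coe_snd',
    _root_.add_apply, ContinuousLinearMap.smulRight_apply, smul_eq_mul, Function.comp] at hv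
  obtain ⟨e1, e2, e3⟩ := hv
  have e4 : v2 = 0 := by
    rcases mul_eq_zero.1 e2 with h | h
    · exact absurd h (kax_deriv h0 h1 _).ne'
    · exact h
  subst e4
  rw [mul_zero, zero_smul, add_zero] at e3
  have e5 : v3 = 0 := by
    rcases smul_eq_zero.1 e3 with h | h
    · exact absurd h (mk_pos h0 _).ne'
    · exact h
  rw [e1, e5]
  rfl

private theorem kap_emb {r : ℝ} (h0 : 0 < r) (h1 : r ≤ 1 / 100) (L : Set R4) : EmbOn I4 (kap r) L :=
  ⟨fun p _ => kap_ld h0 h1 p, (kap_inj h0 h1).injOn⟩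

private theorem kap_hi {r : ℝ} {p : R4} (h : 3 / 4 ≤ p.2.1) : kap r p = p := by
  unfold kap kax mk
  rw [T_hi h]
  simp

private theorem kap_lo {r : ℝ} {p : R4} (h : p.2.1 ≤ 7 / 10) :
    kap r p = (p.1, (3 / 5 + 5 * r * p.2.1, (5 * r) • p.2.2)) := by
  unfold kap kax mk
  rw [T_lo h]
  simp

/-! ### coordinates -/

private theorem rsq0_bound {p : R4} (h : rsq 0 p ≤ 1 / 25) : |p.2.1| ≤ 1 / 5 ∧ ‖p.2.2‖ ≤ 1 / 5 := by
  have e : rsq 0 p = p.2.1 ^ 2 + ‖p.2.2‖ ^ 2 := by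
    unfold rsq nsq
    rw [← Complex.normSq_eq_norm_sq, Complex.normSq_apply]
    simp only [sub_zero]
    ring
  rw [e] at h
  constructor
  · apply abs_le_of_sq_le_sq _ (by norm_num)
    nlinarith [sq_nonneg ‖p.2.2‖]
  · apply le_of_sq_le_sq _ (by norm_num)
    nlinarith [sq_nonneg p.2.1]

private theorem sph1_hi {p : R4} (h : p ∈ sph 1) : 4 / 5 ≤ p.2.1 := by
  have e : rsq 1 p = (p.2.1 - 1) ^ 2 + ‖p.2.2‖ ^ 2 := by
    unfold rsq nsq
    rw [← Complex.normSq_eq_norm_sq, Complex.normSq_apply]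
    ring
  have h2 := h.2
  rw [e] at h2
  have h3 : |p.2.1 - 1| ≤ 1 / 5 := by
    apply abs_le_of_sq_le_sq _ (by norm_num)
    nlinarith [sq_nonneg ‖p.2.2‖]
  linarith [(abs_le.1 h3).1]

private theorem small_dist {t : ℝ} (h0 : 0 ≤ t) {p : R4} (h : rsq 0 p ≤ 1 / 25) :
    dist ((1 / 2, (3 / 5 + t * p.2.1, t • p.2.2)) : R4) (bar (3 / 5)) ≤ t / 5 := by
  obtain ⟨h1, h2⟩ := rsq0_bound h
  unfold bar
  rw [Prod.dist_eq, Prod.dist_eq]
  simp only [dist_self, Real.dist_eq, dist_zero_right, add_sub_cancel_left, abs_mul, norm_smul,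
    Real.norm_eq_abs, abs_of_nonneg h0]
  refine max_le (by positivity) (max_le ?_ ?_)
  · nlinarith
  · nlinarith

end NUL

open NUL in
/-- **NUL.** -/
theorem m_NUL : StNUL := by
  intro F h y hF hc h0 h1 hoff
  -- the open set on which `F` is an embedding
  have hSPc : IsCompact SP := X2.isCompact_SP
  obtain ⟨δ, hδ, hδF⟩ := hA1 R4 R4 R4 I4 R4 F SP hSPc hF.1 hF.2
  have hO : IsOpen δ.source := δ.open_source
  have hFO : EmbOn I4 F δ.source := by
    refine ⟨fun p hp => ?_, fun p hp q hq he => ?_⟩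
    · exact ⟨δ, hp, fun q hq => (hδF q hq).symm⟩
    · rw [← hδF p hp, ← hδF q hq] at he
      exact δ.toPartialEquiv.injOn hp hq he
  have hFc : ContinuousOn F δ.source := by
    intro p hp
    exact ((ld_iff.1 (hFO.1 p hp)).1.self_of_nhds).continuousAt.continuousWithinAt
  -- the radius
  have h35 : bar (3 / 5) ∈ SP := Or.inr ⟨rfl, by show (1 / 5 : ℝ) ≤ 3 / 5; norm_num,
    by show (3 / 5 : ℝ) ≤ 4 / 5; norm_num, rfl⟩
  obtain ⟨ρ, hρ, hball⟩ := Metric.isOpen_iff.1 hO _ (hδ h35)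
  obtain ⟨r, hr0, hr1, hrρ⟩ : ∃ r : ℝ, 0 < r ∧ r ≤ 1 / 100 ∧ r < ρ :=
    ⟨min (1 / 100) (ρ / 2), lt_min (by norm_num) (by linarith), min_le_left _ _,
      lt_of_le_of_lt (min_le_right _ _) (by linarith)⟩
  have hsmall : ∀ t : ℝ, 0 ≤ t → t ≤ 5 * r → ∀ p : R4, rsq 0 p ≤ 1 / 25 →
      ((1 / 2, (3 / 5 + t * p.2.1, t • p.2.2)) : R4) ∈ δ.source := by
    intro t ht0 ht1 p hp
    apply hball
    rw [Metric.mem_ball]
    have := small_dist ht0 hp
    linarith
  -- `F '' sph 1` is missed by the images of the points of `δ.source` with `a < 4/5`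
  have hmiss : ∀ z ∈ δ.source, z.2.1 < 4 / 5 → F z ∉ F '' sph 1 := by
    rintro z hz hz1 ⟨q, hq, he⟩
    have h2 : q = z := hFO.2 (hδ (Or.inl (Or.inr hq))) hz he
    have h3 := sph1_hi hq
    rw [h2] at h3
    linarith
  -- the new germ
  have hflat : ∀ p ∈ flat 0, kap r p ∈ δ.source := by
    intro p hp
    have h2 := (rsq0_bound hp.2).1
    rw [kap_lo (by linarith [(abs_le.1 h2).2]), hp.1]
    exact hsmall (5 * r) (by linarith) le_rfl p hp.2
  have hsph : ∀ p ∈ sph 1, kap r p = p := fun p hp => kap_hi (by linarith [sph1_hi hp])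
  have hneck : ∀ p ∈ neck, kap r p ∈ neck := by
    intro p hp
    obtain ⟨e1, e2, e3, e4⟩ := hp
    have hm := (kax_strictMono hr0 hr1).monotone
    refine ⟨e1, ?_, ?_, ?_⟩
    · show 1 / 5 ≤ kax r p.2.1
      have h2 : kax r (1 / 5) ≤ kax r p.2.1 := hm e2
      have h3 : kax r (1 / 5) = 3 / 5 + 5 * r * (1 / 5) := by
        unfold kax
        rw [T_lo (by norm_num)]
        ring
      rw [h3] at h2
      linarith
    · show kax r p.2.1 ≤ 4 / 5
      have h2 : kax r p.2.1 ≤ kax r (4 / 5) := hm e3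
      have h3 : kax r (4 / 5) = 4 / 5 := by
        unfold kax
        rw [T_hi (by norm_num)]
        ring
      rw [h3] at h2
      exact h2
    · show mk r p.2.1 • p.2.2 = 0
      rw [e4, smul_zero]
  have hF' : EmbOn I4 (F ∘ kap r) (flat 0 ∪ sph 1 ∪ neck) := by
    refine embOn_comp hFO (kap_emb hr0 hr1 _) ?_
    rintro p ((hp | hp) | hp)
    · exact hflat p hp
    · rw [hsph p hp]
      exact hδ (Or.inl (Or.inr hp))
    · exact hδ (Or.inr (hneck p hp))
  have hthin := Pool.Agent.Helper27.BI.hVanT R4 R4 I4 R4 (F ∘ kap r) hF'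
  have hsub : SP ⊆ flat 0 ∪ sph 1 ∪ neck := by
    rintro p ((hp | hp) | hp)
    · exact Or.inl (Or.inl ⟨hp.1, hp.2.le⟩)
    · exact Or.inl (Or.inr hp)
    · exact Or.inr hp
  -- the homotopy
  have hfoot : foot0 ∈ sph 0 := by
    refine ⟨rfl, ?_⟩
    show nsq _ = _
    unfold nsq foot0
    norm_num
  have hclosed : IsClosed (sph 0) := by
    have hrc : Continuous (rsq 0) := by
      unfold rsq nsq
      fun_prop
    exact (isClosed_eq continuous_fst continuous_const).inter (isClosed_eq hrc continuous_const)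
  have H1 : Hom (sph 0) (F '' sph 1) F (fun _ => y) := ⟨h, hc, h0, h1, hoff⟩
  have H2 : Hom (sph 0) (F '' sph 1) (fun _ => y) (fun _ => F foot0) := by
    refine ⟨fun z => h (1 - z.1, foot0), ?_, ?_, ?_, ?_⟩
    · refine hc.comp (Continuous.continuousOn (by fun_prop)) ?_
      rintro ⟨u, p⟩ ⟨hu, hp⟩
      exact ⟨⟨by show (0 : ℝ) ≤ 1 - u; linarith [hu.2], by show 1 - u ≤ (1 : ℝ); linarith [hu.1]⟩, hfoot⟩
    · intro p _
      show h (1 - 0, foot0) = y
      rw [sub_zero, h1 _ hfoot]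
    · intro p _
      show h (1 - 1, foot0) = F foot0
      rw [sub_self, h0 _ hfoot]
    · intro u hu p _
      exact hoff _ ⟨by linarith [hu.2], by linarith [hu.1]⟩ _ hfoot
  have hbar : ∀ a ∈ Icc (1 / 5 : ℝ) (3 / 5), bar a ∈ SP := fun a ha =>
    Or.inr ⟨rfl, ha.1, by show a ≤ 4 / 5; linarith [ha.2], rfl⟩
  have H3 : Hom (sph 0) (F '' sph 1) (fun _ => F foot0) (fun _ => F (bar (3 / 5))) := by
    refine ⟨fun z => F (bar (1 / 5 + 2 / 5 * z.1)), ?_, ?_, ?_, ?_⟩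
    · refine hFc.comp (Continuous.continuousOn ?_) ?_
      · unfold bar
        fun_prop
      · rintro ⟨u, p⟩ ⟨hu, hp⟩
        exact hδ (hbar _ ⟨by show (1 / 5 : ℝ) ≤ 1 / 5 + 2 / 5 * u; linarith [hu.1],
          by show 1 / 5 + 2 / 5 * u ≤ (3 / 5 : ℝ); linarith [hu.2]⟩)
    · intro p _
      show F (bar (1 / 5 + 2 / 5 * 0)) = F foot0
      rw [mul_zero, add_zero]
      rfl
    · intro p _
      show F (bar (1 / 5 + 2 / 5 * 1)) = F (bar (3 / 5))
      norm_num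
    · intro u hu p _
      refine hmiss _ (hδ (hbar _ ⟨by linarith [hu.1], by linarith [hu.2]⟩)) ?_
      show 1 / 5 + 2 / 5 * u < 4 / 5
      linarith [hu.2]
  have H4 : Hom (sph 0) (F '' sph 1) (fun _ => F (bar (3 / 5))) (F ∘ kap r) := by
    refine ⟨fun z => F (1 / 2, (3 / 5 + (z.1 * (5 * r)) * z.2.2.1, (z.1 * (5 * r)) • z.2.2.2)), ?_, ?_, ?_, ?_⟩
    · refine hFc.comp (Continuous.continuousOn (by fun_prop)) ?_
      rintro ⟨u, p⟩ ⟨hu, hp⟩
      refine hsmall (u * (5 * r)) (mul_nonneg hu.1 (by linarith)) ?_ p hp.2.le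
      nlinarith [hu.2]
    · intro p _
      show F (1 / 2, (3 / 5 + (0 * (5 * r)) * p.2.1, (0 * (5 * r)) • p.2.2)) = F (bar (3 / 5))
      rw [zero_mul, zero_mul, zero_smul, add_zero]
      rfl
    · intro p hp
      show F (1 / 2, (3 / 5 + (1 * (5 * r)) * p.2.1, (1 * (5 * r)) • p.2.2)) = F (kap r p)
      have h2 := (rsq0_bound hp.2.le).1
      rw [one_mul, kap_lo (by linarith [(abs_le.1 h2).2]), hp.1]
    · intro u hu p hp
      have h2 := (rsq0_bound hp.2.le).1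
      have h3 : 0 ≤ u * (5 * r) := mul_nonneg hu.1 (by linarith)
      have h4 : u * (5 * r) ≤ 5 * r := by nlinarith [hu.2]
      refine hmiss _ (hsmall (u * (5 * r)) h3 h4 p hp.2.le) ?_
      show 3 / 5 + (u * (5 * r)) * p.2.1 < 4 / 5
      have h5 := (abs_le.1 h2).2
      nlinarith
  obtain ⟨h', a1, a2, a3, a4⟩ := ((H1.trans hclosed H2).trans hclosed H3).trans hclosed H4
  refine ⟨F ∘ kap r, {p | 3 / 4 < p.2.1}, h', Pool.Agent.Helper70.BI.EmbOn.mono' hF' hsub, ?_, ?_, ?_, a1, a2, a3, a4, hthin⟩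
  · exact isOpen_lt continuous_const (continuous_fst.comp continuous_snd)
  · intro p hp
    show 3 / 4 < p.2.1
    linarith [sph1_hi hp]
  · intro p hp
    have hp' : 3 / 4 < p.2.1 := hp
    show F p = F (kap r p)
    rw [kap_hi hp'.le]

end Pool.Agent.Helper18.BI.H


end

/-! ## Helper18.BI.S5.M_HATK -/

section

/-!
# Project BI, stage 5, module HATK: the arc datum of a germ, for finite families
-/

set_option autoImplicit false

open scoped Manifold ContDiff Topology ComplexConjugate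
open Set Filter Pool.Agent.Helper65.Barb Pool.Agent.Helper18.BI
open Pool.Agent.Helper27.BI
open Pool.Agent.Helper70.BI (I4 LD NearEq)
open Pool.Agent.Helper27.H Pool.Agent.Helper27.S5
open Pool.Agent.Helper18.BI.H

namespace Pool.Agent.Helper18.BI.S5

theorem shell_mono {δ δ' : ℝ} (h : δ ≤ δ') : shell δ ⊆ shell δ' := fun _ hp =>
  ⟨hp.1, by linarith [hp.2.1], hp.2.2⟩

/-- **HATK.** -/
theorem m_HATK : StHATk := by
  intro ι _ F Fi φ V hF hFi hV hVs hFF hφ κ hκ
  obtain ⟨T, T', FΛ, hTB, hΛ, hiso⟩ := hFINGB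
  have hT := hTB.ok
  obtain ⟨O, hO, hSPO, hFO, hFc⟩ := emb_open hS4.2.2.2.2.2.2.2.2.1 hF
  choose O' hO' hSPO' hFO' hFc' using fun i => emb_open hS4.2.2.2.2.2.2.2.2.1 (hFi i)
  have hsphSP : sph 1 ⊆ SP := fun p hp => Or.inl (Or.inr hp)
  -- the neighbourhood of the fixed cuff
  have hW : IsOpen (O ∩ F ⁻¹' (Metric.thickening κ (F '' sph 1))) :=
    hFc.isOpen_inter_preimage hO Metric.isOpen_thickening
  have hI : IsOpen (⋂ i, O' i) := isOpen_iInter_of_finite hO'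
  obtain ⟨δ₀, hδ₀, hsh₀⟩ := exists_shell
    (O := (O ∩ F ⁻¹' (Metric.thickening κ (F '' sph 1))) ∩ ((⋂ i, O' i) ∩ V))
    (hW.inter (hI.inter hV))
    (fun p hp => ⟨⟨hSPO (hsphSP hp), Metric.self_subset_thickening hκ _ ⟨p, hp, rfl⟩⟩,
      mem_iInter.2 fun i => hSPO' i (hsphSP hp), hVs (Or.inl hp)⟩)
  refine ⟨δ₀, hδ₀.1, fun δ hδi => ?_⟩
  have hδ : δ ∈ Ioo (0 : ℝ) (1 / 100) := ⟨hδi.1, hδi.2.trans hδ₀.2⟩
  have hsh := (shell_mono hδi.2.le).trans hsh₀
  have hLc : IsCompact (SP ∪ shell δ) := (hS4.2.2.2.2.2.2.2.2.1).union (isCompact_shell δ)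
  have hFL : EmbOn I4 F (SP ∪ shell δ) := Pool.Agent.Helper27.BI.EmbOn.mono hFO
    (union_subset hSPO fun p hp => (hsh hp).1.1)
  have hFL' : ∀ i, EmbOn I4 (Fi i) (SP ∪ shell δ) := fun i =>
    Pool.Agent.Helper27.BI.EmbOn.mono (hFO' i)
      (union_subset (hSPO' i) fun p hp => mem_iInter.1 (hsh hp).2.1 i)
  have e1 := near_iff.1
    (hT6 R4 R4 I4 R4 F (K3 δ) _ (isCompact_K3 δ) hLc (fun p hp => sq0_K3 hp) hFL)
  have e2 := eventually_all.2 fun i => near_iff.1
    (hT6 R4 R4 I4 R4 (Fi i) (K3 δ) _ (isCompact_K3 δ) hLc (fun p hp => sq0_K3 hp) (hFL' i))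
  have hnc : IsCompact {p : R4 | p ∈ K3 δ ∧ rsq 1 p ≤ 1 / 9} :=
    (isCompact_K3 δ).inter_right (isClosed_le (continuous_rsq 1) continuous_const)
  have e3 := near_iff.1 (exists_eps hnc hV (by
    intro p hp
    rcases sq0_near hp.1 hp.2 with h | h
    · exact (hsh h).2.2
    · exact hVs h))
  have e4 := near_iff.1 (exists_eps (isCompact_wall hδ) hW (by
    intro p hp
    have h5 : sq 0 p = (1 / 2, p.2) := hS4.2.2.1 p (Or.inr (Or.inl (by linarith [hp.2.2.2, hδ.1])))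
    have h6 : ((1 / 2, p.2) : R4) ∈ shell δ :=
      ⟨rfl, hp.2.2.1, by show rsq 1 p ≤ 1 / 25; linarith [hp.2.2.2, hδ.1]⟩
    rw [h5]
    exact (hsh h6).1))
  have e5 := eventually_all.2 fun i => near_iff.1 (hφ i)
  rw [near_iff]
  filter_upwards [e1, e2, e3, e4, e5, self_mem_nhdsWithin] with ε f3 f4 e3 e4 f2 hε
  have hε : 0 < ε := hε
  have eG : F ∘ sq ε = fun p => F (sq ε p) := rfl
  have eG' : ∀ i, Fi i ∘ sq ε = fun p => Fi i (sq ε p) := fun _ => rfl
  rw [eG] at f3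
  simp only [eG'] at f2 f4
  have hG : EmbOn I4 (fun p => F (sq ε p)) (K3 δ) := f3.1
  obtain ⟨D, hD⟩ := hHARC T T' (fun p => F (sq ε p)) δ hT hδ hG
  have hn : ∀ i, NearEq (fun p => F (sq ε p)) (fun p => Fi i (sq ε p))
      {p | p ∈ K3 δ ∧ rsq 1 p ≤ 1 / 9} := fun i =>
    ⟨sq ε ⁻¹' V, hV.preimage (continuous_sq hε), fun p hp => e3 p hp, fun p hp => hFF i hp⟩
  refine ⟨D, ⟨T, T', hTB, hδ, hG, hD⟩, hD.m₀, hD.m₁, ?_, ?_, fun i => ?_⟩
  · intro x hx
    rw [hD.U] at hx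
    obtain ⟨p, hp, rfl⟩ := not_not.1 hx
    have h7 : F (sq ε p) ∈ Metric.thickening κ (F '' sph 1) := (e4 p hp).2
    obtain ⟨y, hy, hd⟩ := Metric.mem_thickening_iff.1 h7
    exact ⟨y, hy, hd⟩
  · intro s hs
    have hs' : s ∈ Icc D.s₀ D.s₁ := ⟨by linarith [hs.1, hD.s₀.2], by linarith [hs.2, hD.s₁.1]⟩
    rw [← D.core s hs', hD.J]
    show F (sq ε (s, z0 s + 0)) = _
    rw [add_zero]
    unfold z0
    rw [bfin_mid hs]
    have e : (1 - 27 / 100 : ℝ) • Pool.Agent.Helper27.BI.e1 = (((73 / 100 : ℝ), 0) : R3) := by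
      show (1 - 27 / 100 : ℝ) • (((1 : ℝ), (0 : ℂ)) : R3) = _
      rw [Prod.smul_mk, smul_zero, smul_eq_mul]
      norm_num
    rw [e]
  · obtain ⟨c1, -⟩ := m_HCLS T T' (fun p => F (sq ε p)) (fun p => Fi i (sq ε p)) (φ i) FΛ δ D hT hΛ
      hiso hδ hG hD (f4 i).1 (hn i) (f2 i).2
    have e : loopF (Fi i) (3 / 10) (7 / 10) ε D = loopc D (fun p => Fi i (sq ε p)) := by
      funext q s
      unfold loopF loopc
      by_cases hs : s ∈ Icc (3 / 10 : ℝ) (7 / 10)
      · rw [if_pos hs, if_pos (show 3 / 10 ≤ s ∧ s ≤ 7 / 10 from hs)]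
        have : zq q s = (73 / 100 : ℝ) • mm q s := by
          unfold zq
          rw [bfin_mid hs, show (1 - 27 / 100 : ℝ) = 73 / 100 by norm_num]
          rfl
        rw [this]
      · rw [if_neg hs, if_neg (show ¬ (3 / 10 ≤ s ∧ s ≤ 7 / 10) from hs)]
    rw [e]
    exact c1

end Pool.Agent.Helper18.BI.S5


end
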