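import Pool.Agent.Helper65.Barb.Defs
import Pool.Agent.Helper70.BI.C.P15
import Pool.Agent.Helper70.BI.C.P29

/-!
# Project BI (MP_8e98f2_gt): collected modules, part 60

The contents of the modules
* Helper18.BI.H.M_TOP
* Helper18.BI.H.M_SM
* Helper18.BI.R.M_TOPG
* Helper18.BI.R.M_BAS

in one file, so that the whole proof builds in a short time.
-/

namespace Pool.Agent.Helper18.BI
end Pool.Agent.Helper18.BI

namespace Pool.Agent.Helper18.BI.H
end Pool.Agent.Helper18.BI.H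

namespace Pool.Agent.Helper27.BI
end Pool.Agent.Helper27.BI

namespace Pool.Agent.Helper27.H
end Pool.Agent.Helper27.H

namespace Pool.Agent.Helper65.Barb
end Pool.Agent.Helper65.Barb

namespace Pool.Agent.Helper70.BI
end Pool.Agent.Helper70.BI


/-! ## Helper18.BI.H.M_TOP -/

section

/-!
# Project BI, stage 3 (H), module TOP: free homotopy of the cuffs to based homotopy of whiskered spheres
-/

set_option autoImplicit false

open scoped Manifold ContDiff Topology ComplexConjugate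
open Set Pool.Agent.Helper65.Barb Pool.Agent.Helper18.BI

namespace Pool.Agent.Helper18.BI.H

namespace TOP

/-- the compression over the axis between the cuffs -/
private theorem sq_bar_top (a : ℝ) (w : ℂ) (h1 : 1 / 5 ≤ a) (h2 : a ≤ 4 / 5) :
    sq 0 (1 / 2, (a, w)) = bar a := by
  have hp : prof 0 a = 0 := by
    unfold prof
    have e1 : √((1 / 25 - a ^ 2) ^ 2 + 0 ^ 2) = -(1 / 25 - a ^ 2) := by
      rw [show ((1 : ℝ) / 25 - a ^ 2) ^ 2 + 0 ^ 2 = (-(1 / 25 - a ^ 2)) ^ 2 by ring]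
      exact Real.sqrt_sq (by nlinarith)
    have e2 : √((1 / 25 - (a - 1) ^ 2) ^ 2 + 0 ^ 2) = -(1 / 25 - (a - 1) ^ 2) := by
      rw [show ((1 : ℝ) / 25 - (a - 1) ^ 2) ^ 2 + 0 ^ 2 = (-(1 / 25 - (a - 1) ^ 2)) ^ 2 by ring]
      exact Real.sqrt_sq (by nlinarith)
    rw [e1, e2]
    ring
  have hf : ∀ k : ℝ, fac 0 a k = 0 := by
    intro k
    unfold fac
    rw [hp]
    simp
  have ha : axc 0 a = a := by
    unfold axc
    have e1 : √((a + 1 / 5) ^ 2 + 0 ^ 2) = a + 1 / 5 := by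
      rw [show (a + 1 / 5) ^ 2 + (0 : ℝ) ^ 2 = (a + 1 / 5) ^ 2 by ring]
      exact Real.sqrt_sq (by linarith)
    have e2 : √((a - 6 / 5) ^ 2 + 0 ^ 2) = 6 / 5 - a := by
      rw [show (a - 6 / 5) ^ 2 + (0 : ℝ) ^ 2 = (6 / 5 - a) ^ 2 by ring]
      exact Real.sqrt_sq (by linarith)
    rw [e1, e2]
    ring
  unfold sq bar
  simp only [hf, ha]
  simp

private theorem axc_le_top (a : ℝ) (h2 : a ≤ 1 / 5) : axc 0 a ≤ 1 / 5 := by
  unfold axc
  have e2 : √((a - 6 / 5) ^ 2 + 0 ^ 2) = 6 / 5 - a := by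
    rw [show (a - 6 / 5) ^ 2 + (0 : ℝ) ^ 2 = (6 / 5 - a) ^ 2 by ring]
    exact Real.sqrt_sq (by linarith)
  have e1 : √((a + 1 / 5) ^ 2 + 0 ^ 2) ≤ 3 / 5 - a := by
    rw [show (a + 1 / 5) ^ 2 + (0 : ℝ) ^ 2 = (a + 1 / 5) ^ 2 by ring]
    exact Real.sqrt_le_iff.2 ⟨by linarith, by nlinarith⟩
  rw [e2]
  linarith

private theorem nu_bar_top (m : R3) (hm : nsq m = 1) (h : 1 / 5 ≤ 73 / 100 * m.1) :
    nu m = bar (73 / 100 * m.1) := by
  have h1 : m.1 ≤ 1 := by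
    unfold nsq at hm
    nlinarith [sq_nonneg m.2.re, sq_nonneg m.2.im, sq_nonneg (m.1 - 1)]
  have e : ((1 : ℝ) / 2, ((73 : ℝ) / 100) • m) = ((1 / 2, (73 / 100 * m.1, ((73 : ℝ) / 100) • m.2)) : R4) := by
    refine Prod.ext rfl (Prod.ext ?_ rfl)
    simp
  unfold nu
  rw [e]
  exact sq_bar_top _ _ h (by linarith)

private theorem nu_sph_top (m : R3) (hm : nsq m = 1) (h : 73 / 100 * m.1 ≤ 1 / 5) :
    nu m ∈ sph 0 := by
  have e : ((1 : ℝ) / 2, ((73 : ℝ) / 100) • m) = ((1 / 2, (73 / 100 * m.1, ((73 : ℝ) / 100) • m.2)) : R4) := by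
    refine Prod.ext rfl (Prod.ext ?_ rfl)
    simp
  have hx : (((1 : ℝ) / 2, ((73 : ℝ) / 100) • m) : R4) ∈ Ext := by
    rw [e]
    unfold nsq at hm
    refine ⟨?_, ?_⟩
    · show ((1 : ℝ) / 5) ^ 2 ≤ nsq _
      unfold nsq
      simp only [Complex.real_smul, Complex.mul_re, Complex.mul_im, Complex.ofReal_re,
        Complex.ofReal_im, zero_mul, sub_zero, add_zero]
      nlinarith
    · show ((1 : ℝ) / 5) ^ 2 ≤ nsq _
      unfold nsq
      simp only [Complex.real_smul, Complex.mul_re, Complex.mul_im, Complex.ofReal_re,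
        Complex.ofReal_im, zero_mul, sub_zero, add_zero]
      nlinarith [sq_nonneg m.2.re, sq_nonneg m.2.im]
  have hs : nu m ∈ SP := hS4.1 _ hx
  have ha : (nu m).2.1 ≤ 1 / 5 := by
    unfold nu
    rw [e]
    exact axc_le_top _ h
  rcases hs with (h0 | h1) | h2
  · exact h0
  · exfalso
    have h3 : rsq 1 (nu m) = 1 / 25 := h1.2
    unfold rsq nsq at h3
    nlinarith [sq_nonneg (nu m).2.2.re, sq_nonneg (nu m).2.2.im]
  · obtain ⟨h3, h4, h5, h6⟩ := h2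
    refine ⟨h3, ?_⟩
    have h7 : (nu m).2.1 = 1 / 5 := le_antisymm ha h4
    unfold rsq nsq
    rw [h6, h7]
    norm_num

private theorem nu_foot_top (m : R3) (hm : nsq m = 1) (h : 73 / 100 * m.1 = 1 / 5) :
    nu m = foot0 := by
  rw [nu_bar_top m hm h.ge, h]
  rfl

private theorem foot_mem_top : foot0 ∈ sph 0 := by
  refine ⟨rfl, ?_⟩
  show nsq _ = _
  unfold nsq foot0
  norm_num

private theorem nu_cont_top : Continuous nu := by
  have h : ContinuousOn ((fun q : ℝ × R4 => sq q.1 q.2) ∘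
      fun m : R3 => (((0 : ℝ), ((1 : ℝ) / 2, ((73 : ℝ) / 100) • m)) : ℝ × R4)) univ :=
    hS3.comp (by fun_prop) (fun m _ => ⟨self_mem_Ici, mem_univ _⟩)
  exact continuousOn_univ.1 h

private theorem bar_mem_top (a : ℝ) (h1 : 1 / 5 ≤ a) (h2 : a ≤ 4 / 5) : bar a ∈ SP :=
  Or.inr ⟨rfl, h1, h2, rfl⟩

private theorem emb_cont_top (F : R4 → R4) (hF : EmbOn 𝓘(ℝ, R4) F SP) : ContinuousOn F SP := by
  intro p hp
  obtain ⟨Φ, h1, h2⟩ := hF.1 p hp
  have h3 : ContinuousOn F Φ.source := Φ.contMDiffOn_toFun.continuousOn.congr h2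
  exact (h3.continuousAt (Φ.open_source.mem_nhds h1)).continuousWithinAt

private theorem bar_cont_top : Continuous bar := by
  unfold bar
  fun_prop

end TOP

open TOP in
theorem m_TOP : StTOP := by
  intro F F' h ζ P₂ hF hF' hN hh h0 h1 hK hz1 hz2 hP hP0 hP1 hPa hPb hPK
  classical
  have hFc := emb_cont_top F hF
  have hfoot := foot_mem_top
  -- continuity of `ζ`
  have hz : ContinuousOn ζ (Icc 0 1) := by
    have e : Icc (0 : ℝ) 1 = Icc 0 (1 / 2) ∪ Icc (1 / 2) 1 :=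
      (Icc_union_Icc_eq_Icc (by norm_num) (by norm_num)).symm
    rw [e]
    refine ContinuousOn.union_of_isClosed ?_ ?_ isClosed_Icc isClosed_Icc
    · refine ContinuousOn.congr ?_ hz1
      refine hFc.comp (Continuous.continuousOn (bar_cont_top.comp (by fun_prop))) ?_
      intro τ hτ
      exact bar_mem_top _ (by linarith [hτ.2]) (by linarith [hτ.1])
    · refine ContinuousOn.congr ?_ hz2
      refine hh.comp (by fun_prop) ?_
      intro τ hτ
      exact ⟨⟨by linarith [hτ.1], by linarith [hτ.2]⟩, hfoot⟩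
  have hzK : ∀ τ ∈ Icc (0 : ℝ) 1, ζ τ ∉ F '' sph 1 := by
    intro τ hτ
    rw [← hP0 τ hτ]
    exact hPK 0 ⟨le_rfl, zero_le_one⟩ τ hτ
  -- the homotopy
  let T : ℝ × R3 → ℝ := fun x => 5 / 2 * (3 / 5 - 73 / 100 * x.2.1)
  let H : ℝ × R3 → R4 := fun x =>
    if 3 / 5 ≤ 73 / 100 * x.2.1 then F (nu x.2)
    else if 1 / 5 ≤ 73 / 100 * x.2.1 then
      (if x.1 ≤ 1 / 2 then ζ (T x * (1 + 2 * x.1) / 2) else P₂ (2 * x.1 - 1, T x))
    else h (min (2 * x.1) 1, nu x.2)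
  let D : Set (ℝ × R3) := Icc (0 : ℝ) 1 ×ˢ {m : R3 | nsq m = 1}
  let D1 : Set (ℝ × R3) := D ∩ {x | 3 / 5 ≤ 73 / 100 * x.2.1}
  let D2 : Set (ℝ × R3) := D ∩ (({x | 1 / 5 ≤ 73 / 100 * x.2.1} ∩ {x | 73 / 100 * x.2.1 ≤ 3 / 5}) ∩
    {x | x.1 ≤ 1 / 2})
  let D3 : Set (ℝ × R3) := D ∩ (({x | 1 / 5 ≤ 73 / 100 * x.2.1} ∩ {x | 73 / 100 * x.2.1 ≤ 3 / 5}) ∩
    {x | 1 / 2 ≤ x.1})
  let D4 : Set (ℝ × R3) := D ∩ {x | 73 / 100 * x.2.1 ≤ 1 / 5}
  have hbar : bar (3 / 5) = bar (3 / 5 - 4 / 5 * 0) := by norm_num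
  have hle : ∀ m : R3, nsq m = 1 → 73 / 100 * m.1 ≤ 73 / 100 := by
    intro m hm
    have h1 : m.1 ≤ 1 := by
      unfold nsq at hm
      nlinarith [sq_nonneg m.2.re, sq_nonneg m.2.im, sq_nonneg (m.1 - 1)]
    linarith
  -- values
  have v1 : ∀ x ∈ D1, H x = F (nu x.2) := fun x hx => if_pos hx.2
  have v2 : ∀ x ∈ D2, H x = ζ (T x * (1 + 2 * x.1) / 2) := by
    intro x hx
    obtain ⟨hxD, ⟨hx1, hx2⟩, hx3⟩ := hx
    simp only [mem_ofPred_eq] at hx1 hx2 hx3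
    rcases eq_or_lt_of_le hx2 with he | hl
    · have hT : T x = 0 := by simp only [T, he]; norm_num
      have e1 : H x = F (nu x.2) := if_pos he.ge
      rw [e1, hT, nu_bar_top x.2 hxD.2 hx1, he]
      have h3 := hz1 0 ⟨le_rfl, by norm_num⟩
      rw [show (0 : ℝ) * (1 + 2 * x.1) / 2 = 0 by ring, h3]
      norm_num
    · have e1 : H x = if x.1 ≤ 1 / 2 then ζ (T x * (1 + 2 * x.1) / 2) else P₂ (2 * x.1 - 1, T x) := by
        show (if _ then _ else _) = _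
        rw [if_neg (not_le.2 hl), if_pos hx1]
      rw [e1, if_pos hx3]
  have v3 : ∀ x ∈ D3, H x = P₂ (2 * x.1 - 1, T x) := by
    intro x hx
    obtain ⟨hxD, ⟨hx1, hx2⟩, hx3⟩ := hx
    simp only [mem_ofPred_eq] at hx1 hx2 hx3
    rcases eq_or_lt_of_le hx2 with he | hl
    · have hT : T x = 0 := by simp only [T, he]; norm_num
      have e1 : H x = F (nu x.2) := if_pos he.ge
      rw [e1, hT, nu_bar_top x.2 hxD.2 hx1, he]
      exact (hPa (2 * x.1 - 1) ⟨by linarith, by linarith [hxD.1.2]⟩).symm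
    · have e1 : H x = if x.1 ≤ 1 / 2 then ζ (T x * (1 + 2 * x.1) / 2) else P₂ (2 * x.1 - 1, T x) := by
        show (if _ then _ else _) = _
        rw [if_neg (not_le.2 hl), if_pos hx1]
      rw [e1]
      split_ifs with h4
      · have h5 : x.1 = 1 / 2 := le_antisymm h4 hx3
        have h6 : T x ∈ Icc (0 : ℝ) 1 := by
          simp only [T]
          exact ⟨by linarith, by linarith⟩
        rw [h5, show T x * (1 + 2 * (1 / 2)) / 2 = T x by ring, show (2 : ℝ) * (1 / 2) - 1 = 0 by ring]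
        exact (hP0 _ h6).symm
      · rfl
  have v4 : ∀ x ∈ D4, H x = h (min (2 * x.1) 1, nu x.2) := by
    intro x hx
    obtain ⟨hxD, hx1⟩ := hx
    have hx1' : 73 / 100 * x.2.1 ≤ 1 / 5 := hx1
    have hx0 : ¬ (3 / 5 ≤ 73 / 100 * x.2.1) := by linarith
    rcases eq_or_lt_of_le hx1' with he | hl
    · have hT : T x = 1 := by simp only [T, he]; norm_num
      have e1 : H x = if x.1 ≤ 1 / 2 then ζ (T x * (1 + 2 * x.1) / 2) else P₂ (2 * x.1 - 1, T x) := by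
        show (if _ then _ else _) = _
        rw [if_neg hx0, if_pos he.ge]
      rw [e1, nu_foot_top x.2 hxD.2 he, hT]
      have hu := hxD.1
      split_ifs with h4
      · rw [hz2 (1 * (1 + 2 * x.1) / 2) ⟨by linarith [hu.1], by linarith⟩,
          min_eq_left (by linarith)]
        congr 2
        ring
      · rw [min_eq_right (by linarith), h1 foot0 hfoot]
        exact hPb _ ⟨by linarith, by linarith [hu.2]⟩
    · show (if _ then _ else _) = _
      rw [if_neg hx0, if_neg (not_le.2 hl)]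
  have hDu : D = ((D1 ∪ D2) ∪ D3) ∪ D4 := by
    ext x
    constructor
    · intro hx
      by_cases h5 : 73 / 100 * x.2.1 ≤ 1 / 5
      · exact Or.inr ⟨hx, h5⟩
      · by_cases h6 : 3 / 5 ≤ 73 / 100 * x.2.1
        · exact Or.inl (Or.inl (Or.inl ⟨hx, h6⟩))
        · rcases le_total x.1 (1 / 2) with h7 | h7
          · exact Or.inl (Or.inl (Or.inr ⟨hx, ⟨(not_le.1 h5).le, (not_le.1 h6).le⟩, h7⟩))
          · exact Or.inl (Or.inr ⟨hx, ⟨(not_le.1 h5).le, (not_le.1 h6).le⟩, h7⟩)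
    · rintro (((h5 | h5) | h5) | h5)
      · exact h5.1
      · exact h5.1
      · exact h5.1
      · exact h5.1
  have hDc : IsClosed D := by
    refine isClosed_Icc.prod (isClosed_eq ?_ continuous_const)
    unfold nsq
    fun_prop
  have hD1 : IsClosed D1 := hDc.inter (isClosed_le (by fun_prop) (by fun_prop))
  have hD2 : IsClosed D2 := hDc.inter (((isClosed_le (by fun_prop) (by fun_prop)).inter
    (isClosed_le (by fun_prop) (by fun_prop))).inter (isClosed_le (by fun_prop) (by fun_prop)))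
  have hD3 : IsClosed D3 := hDc.inter (((isClosed_le (by fun_prop) (by fun_prop)).inter
    (isClosed_le (by fun_prop) (by fun_prop))).inter (isClosed_le (by fun_prop) (by fun_prop)))
  have hD4 : IsClosed D4 := hDc.inter (isClosed_le (by fun_prop) (by fun_prop))
  have hT : Continuous T := by
    simp only [T]
    fun_prop
  have c1 : ContinuousOn H D1 := by
    refine ContinuousOn.congr ?_ v1
    refine hFc.comp (nu_cont_top.comp continuous_snd).continuousOn ?_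
    intro x hx
    have h3 : 3 / 5 ≤ 73 / 100 * x.2.1 := hx.2
    show nu x.2 ∈ SP
    rw [nu_bar_top x.2 hx.1.2 (by linarith)]
    exact bar_mem_top _ (by linarith) (by linarith [hle x.2 hx.1.2])
  have c2 : ContinuousOn H D2 := by
    refine ContinuousOn.congr ?_ v2
    refine hz.comp (Continuous.continuousOn (by fun_prop)) ?_
    intro x hx
    obtain ⟨hxD, ⟨hx1, hx2⟩, hx3⟩ := hx
    simp only [mem_ofPred_eq] at hx1 hx2 hx3
    have h6 : 0 ≤ T x ∧ T x ≤ 1 := by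
      simp only [T]
      exact ⟨by linarith, by linarith⟩
    have hu := hxD.1
    refine ⟨?_, ?_⟩
    · have := mul_nonneg h6.1 (by linarith [hu.1] : (0 : ℝ) ≤ 1 + 2 * x.1)
      linarith
    · have : T x * (1 + 2 * x.1) ≤ 1 * 2 :=
        mul_le_mul h6.2 (by linarith) (by linarith [hu.1]) (by norm_num)
      linarith
  have c3 : ContinuousOn H D3 := by
    refine ContinuousOn.congr ?_ v3
    refine hP.comp (Continuous.continuousOn (by fun_prop)) ?_
    intro x hx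
    obtain ⟨hxD, ⟨hx1, hx2⟩, hx3⟩ := hx
    simp only [mem_ofPred_eq] at hx1 hx2 hx3
    have hu := hxD.1
    refine ⟨⟨by linarith, by linarith [hu.2]⟩, ?_⟩
    simp only [T]
    exact ⟨by linarith, by linarith⟩
  have c4 : ContinuousOn H D4 := by
    refine ContinuousOn.congr ?_ v4
    refine hh.comp (Continuous.continuousOn ?_) ?_
    · exact ((continuous_const.mul continuous_fst).min continuous_const).prodMk
        (nu_cont_top.comp continuous_snd)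
    · intro x hx
      have hu := hx.1.1
      exact ⟨⟨le_min (by linarith [hu.1]) zero_le_one, min_le_right _ _⟩,
        nu_sph_top x.2 hx.1.2 hx.2⟩
  refine ⟨H, ?_, ?_, ?_, ?_, ?_⟩
  · show ContinuousOn H D
    rw [hDu]
    exact ((c1.union_of_isClosed c2 hD1 hD2).union_of_isClosed c3 (hD1.union hD2) hD3).union_of_isClosed
      c4 ((hD1.union hD2).union hD3) hD4
  · intro m hm
    have hx : ((0 : ℝ), m) ∈ D := ⟨⟨le_rfl, zero_le_one⟩, hm⟩
    rw [hDu] at hx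
    rcases hx with ((h5 | h5) | h5) | h5
    · exact v1 _ h5
    · rw [v2 _ h5]
      obtain ⟨-, ⟨hx1, hx2⟩, -⟩ := h5
      have hx1' : 1 / 5 ≤ 73 / 100 * m.1 := hx1
      have hx2' : 73 / 100 * m.1 ≤ 3 / 5 := hx2
      have hx3 : T (0, m) * (1 + 2 * (0 : ℝ)) / 2 ∈ Icc (0 : ℝ) (1 / 2) := by
        simp only [T]
        exact ⟨by linarith, by linarith⟩
      show ζ (T (0, m) * (1 + 2 * (0 : ℝ)) / 2) = _
      rw [hz1 _ hx3, nu_bar_top m hm hx1']
      congr 2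
      simp only [T]
      ring
    · exfalso
      have : (1 : ℝ) / 2 ≤ 0 := h5.2.2
      norm_num at this
    · rw [v4 _ h5]
      have h6 : nu m ∈ sph 0 := nu_sph_top m hm h5.2
      show h (min (2 * (0 : ℝ)) 1, nu m) = _
      rw [show min (2 * (0 : ℝ)) 1 = 0 by norm_num]
      exact h0 _ h6
  · intro m hm
    have hx : ((1 : ℝ), m) ∈ D := ⟨⟨zero_le_one, le_rfl⟩, hm⟩
    rw [hDu] at hx
    rcases hx with ((h5 | h5) | h5) | h5
    · rw [v1 _ h5]
      have h6 : 3 / 5 ≤ 73 / 100 * m.1 := h5.2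
      show F (nu m) = _
      rw [nu_bar_top m hm (by linarith)]
      exact hN ⟨⟨rfl, by show (1 : ℝ) / 5 ≤ 73 / 100 * m.1; linarith,
        by show 73 / 100 * m.1 ≤ (4 : ℝ) / 5; linarith [hle m hm], rfl⟩, h6⟩
    · exfalso
      have : (1 : ℝ) ≤ 1 / 2 := h5.2.2
      norm_num at this
    · rw [v3 _ h5]
      obtain ⟨-, ⟨hx1, hx2⟩, -⟩ := h5
      have hx1' : 1 / 5 ≤ 73 / 100 * m.1 := hx1
      have hx2' : 73 / 100 * m.1 ≤ 3 / 5 := hx2
      have hx3 : T (1, m) ∈ Icc (0 : ℝ) 1 := by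
        simp only [T]
        exact ⟨by linarith, by linarith⟩
      show P₂ (2 * (1 : ℝ) - 1, T (1, m)) = _
      rw [show (2 : ℝ) * 1 - 1 = 1 by norm_num, hP1 _ hx3, nu_bar_top m hm hx1']
      congr 2
      simp only [T]
      ring
    · rw [v4 _ h5]
      have h6 : nu m ∈ sph 0 := nu_sph_top m hm h5.2
      show h (min (2 * (1 : ℝ)) 1, nu m) = _
      rw [show min (2 * (1 : ℝ)) 1 = 1 by norm_num]
      exact h1 _ h6
  · intro u _ m _ h5
    exact if_pos h5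
  · intro u hu m hm
    have hx : (u, m) ∈ D := ⟨hu, hm⟩
    rw [hDu] at hx
    rcases hx with ((h5 | h5) | h5) | h5
    · rw [v1 _ h5]
      have h6 : 3 / 5 ≤ 73 / 100 * m.1 := h5.2
      have h7 := hle m hm
      rintro ⟨y, hy, hyF⟩
      have h8 : nu m = bar (73 / 100 * m.1) := nu_bar_top m hm (by linarith)
      have h9 : y = nu m := by
        refine hF.2 (Or.inl (Or.inr hy)) ?_ hyF
        rw [h8]
        exact bar_mem_top _ (by linarith) (by linarith)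
      rw [h9, h8] at hy
      have h10 : rsq 1 (bar (73 / 100 * m.1)) = 1 / 25 := hy.2
      unfold rsq nsq bar at h10
      simp only [Complex.zero_re, Complex.zero_im] at h10
      nlinarith
    · rw [v2 _ h5]
      obtain ⟨-, ⟨hx1, hx2⟩, hx3⟩ := h5
      have hx1' : 1 / 5 ≤ 73 / 100 * m.1 := hx1
      have hx2' : 73 / 100 * m.1 ≤ 3 / 5 := hx2
      have hx3' : u ≤ 1 / 2 := hx3
      have h6 : 0 ≤ T (u, m) ∧ T (u, m) ≤ 1 := by
        simp only [T]
        exact ⟨by linarith, by linarith⟩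
      refine hzK _ ⟨?_, ?_⟩
      · have := mul_nonneg h6.1 (by linarith [hu.1] : (0 : ℝ) ≤ 1 + 2 * u)
        show 0 ≤ T (u, m) * (1 + 2 * u) / 2
        linarith
      · have : T (u, m) * (1 + 2 * u) ≤ 1 * 2 :=
          mul_le_mul h6.2 (by linarith) (by linarith [hu.1]) (by norm_num)
        show T (u, m) * (1 + 2 * u) / 2 ≤ 1
        linarith
    · rw [v3 _ h5]
      obtain ⟨-, ⟨hx1, hx2⟩, hx3⟩ := h5
      have hx1' : 1 / 5 ≤ 73 / 100 * m.1 := hx1
      have hx2' : 73 / 100 * m.1 ≤ 3 / 5 := hx2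
      have hx3' : 1 / 2 ≤ u := hx3
      refine hPK _ ⟨by show (0 : ℝ) ≤ 2 * u - 1; linarith, by show 2 * u - 1 ≤ (1 : ℝ); linarith [hu.2]⟩ _ ?_
      simp only [T]
      exact ⟨by linarith, by linarith⟩
    · rw [v4 _ h5]
      exact hK _ ⟨le_min (by show (0 : ℝ) ≤ 2 * u; linarith [hu.1]) zero_le_one, min_le_right _ _⟩ _
        (nu_sph_top m hm h5.2)

end Pool.Agent.Helper18.BI.H


end

/-! ## Helper18.BI.H.M_SM -/

section

/-!
# Project BI, stage 3 (H), module SM: smoothing the homotopy of the loops of arcs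
-/

set_option autoImplicit false

open scoped Manifold ContDiff Topology ComplexConjugate
open Set Pool.Agent.Helper65.Barb Pool.Agent.Helper18.BI
open Pool.Agent.Helper27.BI (zarc phi)

namespace Pool.Agent.Helper18.BI.H

namespace SM

private theorem SM_neg {x : ℝ} (h : 1 / 5 ≤ x) : 0 ≤ -(1 / 25 - x ^ 2) := by
  have h0 : (1 / 25 : ℝ) = 1 / 5 * (1 / 5) := by norm_num
  have h1 : (1 / 5 : ℝ) * (1 / 5) ≤ x * x := mul_self_le_mul_self (by norm_num) h
  rw [h0, pow_two]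
  exact neg_nonneg.2 (sub_nonpos.2 h1)

private theorem SM_sqrt {x : ℝ} (h : 0 ≤ -x) : √(x ^ 2 + 0 ^ 2) = -x := by
  have e : x ^ 2 + (0 : ℝ) ^ 2 = (-x) ^ 2 := by ring
  rw [e]
  exact Real.sqrt_sq h

private theorem SM_num : ((9 : ℝ) / 20 < 11 / 20) ∧ ((1 : ℝ) / 4 < 1 / 3) ∧ ((2 : ℝ) / 3 < 3 / 4) ∧
    ((3 : ℝ) / 5 < 13 / 20) ∧ ((0 : ℝ) ≤ 1 / 4) ∧ ((0 : ℝ) ≤ 1 / 3) ∧ ((3 : ℝ) / 4 ≤ 1) ∧
    ((2 : ℝ) / 3 ≤ 1) ∧ ((7 : ℝ) / 10 ≤ 73 / 100) ∧ ((73 : ℝ) / 100 ≤ 39 / 50) ∧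
    ((7 : ℝ) / 10 < 73 / 100) ∧ ((3 : ℝ) / 4 < 39 / 50) := by
  norm_num

private theorem SM_one {m : R3} (hm : m = (1, 0)) :
    3 / 5 ≤ 73 / 100 * m.1 ∧ 13 / 20 ≤ 73 / 100 * m.1 := by
  rw [hm]
  norm_num

private theorem sq_bar_sm (s a : ℝ) (w : ℂ) (h1 : 1 / 5 ≤ a) (h2 : a ≤ 4 / 5) :
    sq 0 (s, (a, w)) = bar a := by
  have hp : prof 0 a = 0 := by
    unfold prof
    have e1 : √((1 / 25 - a ^ 2) ^ 2 + 0 ^ 2) = -(1 / 25 - a ^ 2) := SM_sqrt (SM_neg h1)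
    have e2 : √((1 / 25 - (a - 1) ^ 2) ^ 2 + 0 ^ 2) = -(1 / 25 - (a - 1) ^ 2) := by
      refine SM_sqrt ?_
      have h3 : (1 : ℝ) / 5 ≤ 1 - a := le_sub_comm.1 (h2.trans_eq (by norm_num))
      have h4 := SM_neg h3
      have h5 : (a - 1) ^ 2 = (1 - a) ^ 2 := by ring
      rw [h5]
      exact h4
    rw [e1, e2]
    ring
  have hf : ∀ k : ℝ, fac 0 a k = 0 := by
    intro k
    unfold fac
    rw [hp]
    simp
  have ha : axc 0 a = a := by
    unfold axc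
    have e1 : √((a + 1 / 5) ^ 2 + 0 ^ 2) = a + 1 / 5 := by
      have h0 : (0 : ℝ) ≤ a + 1 / 5 :=
        add_nonneg (le_trans (by norm_num) h1) (by norm_num)
      rw [zero_pow two_ne_zero, add_zero]
      exact Real.sqrt_sq h0
    have e2 : √((a - 6 / 5) ^ 2 + 0 ^ 2) = -(a - 6 / 5) :=
      SM_sqrt (neg_nonneg.2 (sub_nonpos.2 (h2.trans (by norm_num))))
    rw [e1, e2]
    ring
  unfold sq bar
  simp only [hf, ha]
  simp

private theorem sq_fst_sm (s : ℝ) (x : R3) : sq 0 (s, x) = sq 0 (1 / 2, x) := by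
  unfold sq
  simp

private theorem nsq_mm (q s : ℝ) : nsq (mm q s) = 1 := by
  unfold mm
  rw [Pool.Agent.Helper27.BI.m_ZNSQ]
  ring

private theorem mm_out (q s : ℝ) (h : s ≤ 9 / 20 ∨ 11 / 20 ≤ s) : mm q s = (1, 0) := by
  have h1 : Real.cos (phi (10 * s - 9 / 2)) = 1 ∧ Real.sin (phi (10 * s - 9 / 2)) = 0 := by
    unfold phi step
    rcases h with h | h
    · rw [Real.smoothTransition.zero_of_nonpos (by linarith only [h]), mul_zero]
      exact ⟨Real.cos_zero, Real.sin_zero⟩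
    · rw [Real.smoothTransition.one_of_one_le (by linarith only [h]), mul_one]
      exact ⟨Real.cos_two_pi, Real.sin_two_pi⟩
  unfold mm zarc Pool.Agent.Helper27.BI.chi
  rw [h1.1, h1.2]
  refine Prod.ext (by simp) (Complex.ext (by simp) (by simp))

private theorem mm_smooth : ContDiff ℝ ∞ (fun z : ℝ × ℝ => mm z.1 z.2) := by
  have hst : ContDiff ℝ ∞ (fun z : ℝ × ℝ => step (10 * z.2 - 9 / 2)) :=
    Real.smoothTransition.contDiff.comp ((contDiff_const.mul contDiff_snd).sub contDiff_const)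
  have hphi : ContDiff ℝ ∞ (fun z : ℝ × ℝ => phi (10 * z.2 - 9 / 2)) :=
    contDiff_const.mul hst
  have hchi : ContDiff ℝ ∞ (fun z : ℝ × ℝ => Pool.Agent.Helper27.BI.chi (10 * z.2 - 9 / 2)) :=
    (contDiff_const.sub (Real.contDiff_cos.comp hphi)).div_const _
  have hq : ContDiff ℝ ∞ (fun z : ℝ × ℝ => 2 * Real.pi * z.1) := contDiff_const.mul contDiff_fst
  have hq' : ContDiff ℝ ∞ (fun z : ℝ × ℝ => Real.pi * z.1) := contDiff_const.mul contDiff_fst
  have h1 : ContDiff ℝ ∞ (fun z : ℝ × ℝ =>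
      1 + Pool.Agent.Helper27.BI.chi (10 * z.2 - 9 / 2) * (Real.cos (2 * Real.pi * z.1) - 1)) :=
    contDiff_const.add (hchi.mul ((Real.contDiff_cos.comp hq).sub contDiff_const))
  have h2 : ContDiff ℝ ∞ (fun z : ℝ × ℝ =>
      -Real.sin (Real.pi * z.1) * Real.sin (phi (10 * z.2 - 9 / 2))) :=
    (Real.contDiff_sin.comp hq').neg.mul (Real.contDiff_sin.comp hphi)
  have h3 : ContDiff ℝ ∞ (fun z : ℝ × ℝ =>
      Pool.Agent.Helper27.BI.chi (10 * z.2 - 9 / 2) * Real.sin (2 * Real.pi * z.1)) :=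
    hchi.mul (Real.contDiff_sin.comp hq)
  have h4 : ContDiff ℝ ∞ (fun z : ℝ × ℝ =>
      ((-Real.sin (Real.pi * z.1) * Real.sin (phi (10 * z.2 - 9 / 2)) : ℝ) : ℂ) +
        ((Pool.Agent.Helper27.BI.chi (10 * z.2 - 9 / 2) * Real.sin (2 * Real.pi * z.1) : ℝ) : ℂ) * Complex.I) :=
    (Complex.ofRealCLM.contDiff.comp h2).add ((Complex.ofRealCLM.contDiff.comp h3).mul
      contDiff_const)
  have h5 := h1.prodMk h4
  refine (congrArg (ContDiff ℝ ∞) (funext fun z => ?_)).mp h5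
  unfold mm zarc
  refine Prod.ext rfl (Complex.ext ?_ ?_)
  · rw [Complex.add_re, Complex.ofReal_re, Complex.re_ofReal_mul, Complex.I_re, mul_zero, add_zero]
  · rw [Complex.add_im, Complex.ofReal_im, Complex.im_ofReal_mul, Complex.I_im, mul_one, zero_add]

private theorem fst_le_sm {m : R3} (hm : nsq m = 1) : m.1 ≤ 1 := by
  unfold nsq at hm
  have h : m.1 ^ 2 ≤ 1 := by linarith only [hm, sq_nonneg m.2.re, sq_nonneg m.2.im]
  exact (le_abs_self _).trans ((sq_le_one_iff_abs_le_one _).1 h)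

private theorem mem_SP_sm (s r : ℝ) (m : R3) (hm : nsq m = 1) (h1 : 7 / 10 ≤ r)
    (h2 : r ≤ 39 / 50) : sq 0 (s, r • m) ∈ SP := by
  apply hS4.1
  have h3 := fst_le_sm hm
  unfold nsq at hm
  refine ⟨?_, ?_⟩
  · show ((1 : ℝ) / 5) ^ 2 ≤ nsq _
    unfold nsq
    simp only [Prod.smul_fst, Prod.smul_snd, smul_eq_mul, Complex.real_smul, Complex.mul_re,
      Complex.mul_im, Complex.ofReal_re, Complex.ofReal_im, zero_mul, sub_zero, add_zero]
    have h4 : (r * m.1) ^ 2 + (r * m.2.re) ^ 2 + (r * m.2.im) ^ 2 = r ^ 2 := by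
      linear_combination r ^ 2 * hm
    rw [h4]
    exact pow_le_pow_left₀ (by norm_num) (le_trans (by norm_num) h1) 2
  · show ((1 : ℝ) / 5) ^ 2 ≤ nsq _
    unfold nsq
    simp only [Prod.smul_fst, Prod.smul_snd, smul_eq_mul, Complex.real_smul, Complex.mul_re,
      Complex.mul_im, Complex.ofReal_re, Complex.ofReal_im, zero_mul, sub_zero, add_zero]
    have h4 : (r * m.1 - 1) ^ 2 + (r * m.2.re) ^ 2 + (r * m.2.im) ^ 2 =
        r ^ 2 - 2 * r * m.1 + 1 := by linear_combination r ^ 2 * hm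
    rw [h4]
    have h5 : (0 : ℝ) ≤ r * (1 - m.1) :=
      mul_nonneg (le_trans (by norm_num) h1) (sub_nonneg.2 h3)
    have h6 : ((1 : ℝ) / 5) ^ 2 ≤ (1 - r) ^ 2 :=
      pow_le_pow_left₀ (by norm_num) (le_sub_comm.1 (h2.trans (by norm_num))) 2
    have h7 : r ^ 2 - 2 * r * m.1 + 1 = (1 - r) ^ 2 + 2 * (r * (1 - m.1)) := by ring
    rw [h7]
    exact h6.trans (le_add_of_nonneg_right (mul_nonneg zero_le_two h5))

private theorem mem_neckE_sm (s r : ℝ) (m : R3) (hm : nsq m = 1) (h1 : 7 / 10 ≤ r)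
    (h2 : r ≤ 39 / 50) (h : r = 73 / 100 ∨ m = (1, 0)) (h3 : 3 / 5 ≤ 73 / 100 * m.1) :
    sq 0 (s, r • m) ∈ neckE := by
  have h4 := fst_le_sm hm
  have h5 : 3 / 5 ≤ r * m.1 ∧ r * m.1 ≤ 4 / 5 := by
    rcases h with h | h
    · rw [h]; exact ⟨h3, by linarith only [h4]⟩
    · rw [h]
      show 3 / 5 ≤ r * 1 ∧ r * 1 ≤ 4 / 5
      rw [mul_one]
      exact ⟨le_trans (by norm_num) h1, h2.trans (by norm_num)⟩
  have e : ((s, r • m) : R4) = (s, (r * m.1, (r : ℝ) • m.2)) := rfl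
  have h6 : (1 : ℝ) / 5 ≤ r * m.1 := le_trans (by norm_num) h5.1
  rw [e, sq_bar_sm _ _ _ h6 h5.2]
  exact ⟨⟨rfl, h6, h5.2, rfl⟩, h5.1⟩

private theorem nu_cont_sm : Continuous nu := by
  have h : ContinuousOn ((fun q : ℝ × R4 => sq q.1 q.2) ∘
      fun m : R3 => (((0 : ℝ), ((1 : ℝ) / 2, ((73 : ℝ) / 100) • m)) : ℝ × R4)) univ :=
    hS3.comp (continuous_const.prodMk
      (continuous_const.prodMk (continuous_const_smul _))).continuousOn
      (fun m _ => ⟨self_mem_Ici, mem_univ _⟩)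
  exact continuousOn_univ.1 h

private theorem near_sm {F : R4 → R4} (h : EmbOn 𝓘(ℝ, R4) F SP) :
    ∃ O : Set R4, IsOpen O ∧ SP ⊆ O ∧ ContDiffOn ℝ ∞ F O := by
  refine ⟨{p | IsLocalDiffeomorphAt 𝓘(ℝ, R4) 𝓘(ℝ, R4) ∞ F p}, ?_, fun p hp => h.1 p hp, ?_⟩
  · rw [isOpen_iff_mem_nhds]
    rintro p ⟨Φ, hp, heq⟩
    exact Filter.mem_of_superset (Φ.open_source.mem_nhds hp) fun q hq => ⟨Φ, hq, heq⟩
  · intro p hp
    exact (contMDiffAt_iff_contDiffAt.1 (IsLocalDiffeomorphAt.contMDiffAt hp)).contDiffWithinAt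

private theorem sphere_cpt : IsCompact {m : R3 | nsq m = 1} := by
  have hc : Continuous (fun m : R3 => nsq m) := by
    unfold nsq
    fun_prop
  refine (isCompact_closedBall (0 : R3) 1).of_isClosed_subset
    (isClosed_singleton.preimage hc) ?_
  intro m hm
  have hm' : m.1 ^ 2 + m.2.re ^ 2 + m.2.im ^ 2 = 1 := hm
  rw [mem_closedBall_zero_iff, Prod.norm_def]
  refine max_le ?_ ?_
  · rw [Real.norm_eq_abs]
    exact (sq_le_one_iff_abs_le_one _).1
      (by linarith only [hm', sq_nonneg m.2.re, sq_nonneg m.2.im])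
  · have h2 : ‖m.2‖ ^ 2 ≤ 1 := by
      rw [← Complex.normSq_eq_norm_sq, Complex.normSq_apply]
      linarith only [hm', sq_nonneg m.1]
    exact (sq_le_one_iff₀ (norm_nonneg _)).1 h2

private theorem tube_sm {F : R4 → R4} {O U : Set R4} {T : Set (ℝ × ℝ × R3)} {δ : ℝ}
    (hO : IsOpen O) (hF : ContinuousOn F O) (hT : IsCompact T) (hU : IsOpen U)
    (hz : ∀ z ∈ T, sq 0 (z.1, z.2.1 • z.2.2) ∈ O)
    (hzU : ∀ z ∈ T, 3 / 5 ≤ 73 / 100 * z.2.2.1 → sq 0 (z.1, z.2.1 • z.2.2) ∈ U) (hδ : 0 < δ) :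
    ∃ ε₀ > 0, ∀ ε ∈ Ioo 0 ε₀, ∀ z ∈ T, sq ε (z.1, z.2.1 • z.2.2) ∈ O ∧
      dist (F (sq ε (z.1, z.2.1 • z.2.2))) (F (sq 0 (z.1, z.2.1 • z.2.2))) < δ ∧
      (3 / 5 ≤ 73 / 100 * z.2.2.1 → sq ε (z.1, z.2.1 • z.2.2) ∈ U) := by
  have hc : ContinuousOn (fun x : ℝ × (ℝ × ℝ × R3) => sq x.1 (x.2.1, x.2.2.1 • x.2.2.2))
      (Ici 0 ×ˢ univ) := by
    have h : ContinuousOn ((fun q : ℝ × R4 => sq q.1 q.2) ∘
        fun x : ℝ × (ℝ × ℝ × R3) => ((x.1, (x.2.1, x.2.2.1 • x.2.2.2)) : ℝ × R4))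
        (Ici 0 ×ˢ univ) :=
      hS3.comp (by fun_prop) (fun x hx => ⟨hx.1, mem_univ _⟩)
    exact h
  have hc0 : ContinuousOn (fun x : ℝ × (ℝ × ℝ × R3) => sq 0 (x.2.1, x.2.2.1 • x.2.2.2))
      (Ici 0 ×ˢ univ) := by
    have h : ContinuousOn ((fun q : ℝ × R4 => sq q.1 q.2) ∘
        fun x : ℝ × (ℝ × ℝ × R3) => (((0 : ℝ), (x.2.1, x.2.2.1 • x.2.2.2)) : ℝ × R4))
        (Ici 0 ×ˢ univ) :=
      hS3.comp (by fun_prop) (fun x hx => ⟨self_mem_Ici, mem_univ _⟩)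
    exact h
  have key : ∀ᶠ ε in 𝓝 (0 : ℝ), ∀ z ∈ T, 0 ≤ ε → sq ε (z.1, z.2.1 • z.2.2) ∈ O ∧
      dist (F (sq ε (z.1, z.2.1 • z.2.2))) (F (sq 0 (z.1, z.2.1 • z.2.2))) < δ ∧
      (3 / 5 ≤ 73 / 100 * z.2.2.1 → sq ε (z.1, z.2.1 • z.2.2) ∈ U) := by
    refine hT.eventually_forall_of_forall_eventually fun z hzT => ?_
    have hmem : ((0 : ℝ), z) ∈ Ici (0 : ℝ) ×ˢ (univ : Set (ℝ × ℝ × R3)) :=
      ⟨self_mem_Ici, mem_univ _⟩
    have t1 := hc (0, z) hmem
    have t0 := hc0 (0, z) hmem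
    have hFa : ContinuousAt F (sq 0 (z.1, z.2.1 • z.2.2)) := hF.continuousAt (hO.mem_nhds (hz z hzT))
    have a1 : ∀ᶠ x in 𝓝[Ici (0 : ℝ) ×ˢ univ] ((0 : ℝ), z),
        sq x.1 (x.2.1, x.2.2.1 • x.2.2.2) ∈ O := t1.eventually (hO.mem_nhds (hz z hzT))
    have a2 : ∀ᶠ x in 𝓝[Ici (0 : ℝ) ×ˢ univ] ((0 : ℝ), z),
        dist (F (sq x.1 (x.2.1, x.2.2.1 • x.2.2.2))) (F (sq 0 (x.2.1, x.2.2.1 • x.2.2.2))) < δ := by
      have b1 : Filter.Tendsto (fun x : ℝ × (ℝ × ℝ × R3) => F (sq x.1 (x.2.1, x.2.2.1 • x.2.2.2)))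
          (𝓝[Ici (0 : ℝ) ×ˢ univ] ((0 : ℝ), z)) (𝓝 (F (sq 0 (z.1, z.2.1 • z.2.2)))) :=
        hFa.tendsto.comp t1
      have b0 : Filter.Tendsto (fun x : ℝ × (ℝ × ℝ × R3) => F (sq 0 (x.2.1, x.2.2.1 • x.2.2.2)))
          (𝓝[Ici (0 : ℝ) ×ˢ univ] ((0 : ℝ), z)) (𝓝 (F (sq 0 (z.1, z.2.1 • z.2.2)))) :=
        hFa.tendsto.comp t0
      have b2 := b1.dist b0
      rw [dist_self] at b2
      exact b2.eventually_lt_const hδ
    have a3 : ∀ᶠ x in 𝓝[Ici (0 : ℝ) ×ˢ univ] ((0 : ℝ), z),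
        (3 / 5 ≤ 73 / 100 * x.2.2.2.1 → sq x.1 (x.2.1, x.2.2.1 • x.2.2.2) ∈ U) := by
      by_cases h : 3 / 5 ≤ 73 / 100 * z.2.2.1
      · exact (t1.eventually (hU.mem_nhds (hzU z hzT h))).mono fun x hx _ => hx
      · rw [not_le] at h
        have hcc : Continuous (fun x : ℝ × (ℝ × ℝ × R3) => 73 / 100 * x.2.2.2.1) := by fun_prop
        have := (hcc.tendsto (0, z)).eventually_lt_const h
        refine (this.filter_mono nhdsWithin_le_nhds).mono fun x hx hx' => ?_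
        exact absurd hx' (not_le.2 hx)
    have a4 := (a1.and (a2.and a3))
    rw [eventually_nhdsWithin_iff] at a4
    exact a4.mono fun x hx h0 => hx ⟨h0, mem_univ _⟩
  obtain ⟨ε₀, h0, h1⟩ := Metric.eventually_nhds_iff.1 key
  refine ⟨ε₀, h0, fun ε hε z hz' => h1 ?_ z hz' hε.1.le⟩
  rw [Real.dist_eq, sub_zero, abs_of_pos hε.1]
  exact hε.2

private theorem conv_sm {v w : R4} {t δ : ℝ} (ht : t ∈ Icc (0 : ℝ) 1) (h1 : ‖v‖ ≤ δ)
    (h2 : ‖w‖ ≤ δ) : ‖(1 - t) • v + t • w‖ ≤ δ := by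
  refine (norm_add_le _ _).trans ?_
  have h3 : (0 : ℝ) ≤ 1 - t := sub_nonneg.2 ht.2
  rw [norm_smul, norm_smul, Real.norm_of_nonneg ht.1, Real.norm_of_nonneg h3]
  have h4 := mul_le_mul_of_nonneg_left h1 h3
  have h5 := mul_le_mul_of_nonneg_left h2 ht.1
  linarith only [h4, h5]

private theorem fin_sm {x y z w : R4} {r : ℝ} (h1 : dist x y ≤ r / 8) (h2 : dist z x < r / 8)
    (h3 : r < dist y w) (hr : 0 < r) : r / 2 ≤ dist z w := by
  have d6 : dist y w ≤ dist y x + dist x z + dist z w := dist_triangle4 _ _ _ _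
  rw [dist_comm y x, dist_comm x z] at d6
  linarith only [d6, h1, h2, h3, hr]

private theorem SM_sph : IsCompact (sph 1) := by
  have h1 : IsClosed (sph 1) := by
    have hc : Continuous (fun p : R4 => rsq 1 p) := by
      unfold rsq nsq
      fun_prop
    exact (isClosed_singleton.preimage continuous_fst).inter (isClosed_singleton.preimage hc)
  exact hS4.2.2.2.2.2.2.2.2.1.of_isClosed_subset h1 (fun p hp => Or.inl (Or.inr hp))

private theorem SM_rm {ρ : ℝ → ℝ} (hρ : ContDiff ℝ ∞ ρ) :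
    ContDiff ℝ ∞ (fun x : ℝ × ℝ => ρ x.2 • mm x.1 x.2) :=
  ContDiff.smul (𝕜 := ℝ) (F := R3) (hρ.comp contDiff_snd) mm_smooth

private theorem SM_sm (x : ℝ) : x • ((1, 0) : R3) = (x, 0) := Prod.ext (mul_one x) (smul_zero x)

private theorem SM_d {F : R4 → R4} {ε s δ : ℝ} {m : R3} {z : ℝ × ℝ × R3} (hz : z = (s, 73 / 100, m))
    (h : dist (F (sq ε (z.1, z.2.1 • z.2.2))) (F (sq 0 (z.1, z.2.1 • z.2.2))) < δ) :
    ‖F (sq ε (z.1, z.2.1 • z.2.2)) - F (nu m)‖ ≤ δ := by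
  subst hz
  rw [← dist_eq_norm]
  have e : nu m = sq 0 (s, (73 / 100 : ℝ) • m) := (sq_fst_sm s _).symm
  rw [e]
  exact h.le

private theorem SM_f0 {K G N G' N' : R4} {t : ℝ} (ht : t = 0) (e : K = N) :
    K + ((1 - t) • (G - N) + t • (G' - N')) = G := by
  rw [ht, e, sub_zero, one_smul, zero_smul, add_zero, add_sub_cancel]

private theorem SM_f1 {K G N G' N' : R4} {t : ℝ} (ht : t = 1) (e : K = N') :
    K + ((1 - t) • (G - N) + t • (G' - N')) = G' := by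
  rw [ht, e, sub_self, zero_smul, zero_add, one_smul, add_sub_cancel]

private theorem SM_f2 {K G N G' N' : R4} {t : ℝ} (e : K = N) (e1 : N' = N) (e2 : G' = G) :
    K + ((1 - t) • (G - N) + t • (G' - N')) = G := by
  rw [e, e1, e2, ← add_smul, sub_add_cancel, one_smul, add_sub_cancel]

private theorem SM_Gs {F : R4 → R4} {O : Set R4} {G g : ℝ × ℝ → R4} {a b : ℝ} {x : ℝ × ℝ}
    (hO : IsOpen O) (hFO : ContDiffOn ℝ ∞ F O) (hg : ContDiff ℝ ∞ g) (h1 : g x ∈ O)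
    (hx : x.2 ∈ Ioo a b) (hG : ∀ y : ℝ × ℝ, y.2 ∈ Icc a b → G y = F (g y)) :
    ContDiffAt ℝ ∞ G x := by
  have h2 : ContDiffAt ℝ ∞ (fun x => F (g x)) x :=
    (hFO.contDiffAt (hO.mem_nhds h1)).comp x hg.contDiffAt
  refine h2.congr_of_eventuallyEq (Filter.eventuallyEq_of_mem
    ((isOpen_Ioo.preimage continuous_snd).mem_nhds hx) ?_)
  exact fun y hy => hG y ⟨hy.1.le, hy.2.le⟩

private theorem SM_V {f g : ℝ × ℝ × ℝ → R4} {z : ℝ × ℝ × ℝ} {P : Set (ℝ × ℝ × ℝ)} (hP : IsOpen P)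
    (hz : z ∈ P) (hg : ContDiffAt ℝ ∞ g z) (h : ∀ y ∈ P, f y = g y) : ContDiffAt ℝ ∞ f z :=
  hg.congr_of_eventuallyEq (Filter.eventuallyEq_of_mem (hP.mem_nhds hz) h)

private theorem SM_fc {K : ℝ × ℝ × ℝ → R4} {D D' : ℝ × ℝ → R4} {t : ℝ → ℝ} (hK : Continuous K)
    (ht : Continuous t) (hD : Continuous D) (hD' : Continuous D') :
    Continuous (fun z : ℝ × ℝ × ℝ => K z + ((1 - t z.1) • D z.2 + t z.1 • D' z.2)) := by
  have h1 : Continuous (fun z : ℝ × ℝ × ℝ => t z.1) := ht.comp continuous_fst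
  exact hK.add (((continuous_const.sub h1).smul (hD.comp continuous_snd)).add
    (h1.smul (hD'.comp continuous_snd)))

private theorem SM_ev {ρ : ℝ → ℝ} (hρc : Continuous ρ) (x : ℝ) (h1 : 73 / 100 ≤ ρ x)
    (h2 : ρ x ≤ 3 / 4) : ∃ η > 0, ∀ y, dist y x < η → 7 / 10 ≤ ρ y ∧ ρ y ≤ 39 / 50 := by
  have a1 : (7 : ℝ) / 10 < ρ x := lt_of_lt_of_le (by norm_num) h1
  have a2 : ρ x < 39 / 50 := lt_of_le_of_lt h2 (by norm_num)
  exact Metric.eventually_nhds_iff.1 (((hρc.tendsto x).eventually_const_le a1).and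
    ((hρc.tendsto x).eventually_le_const a2))

private theorem SM_rab {ρ : ℝ → ℝ} {n₀ n₁ a b η₀ η₁ : ℝ} (ha : a = n₀ - η₀ / 2)
    (hb : b = n₁ + η₁ / 2) (hη₀ : 0 < η₀) (hη₁ : 0 < η₁)
    (h0 : ∀ y, dist y n₀ < η₀ → 7 / 10 ≤ ρ y ∧ ρ y ≤ 39 / 50)
    (h1 : ∀ y, dist y n₁ < η₁ → 7 / 10 ≤ ρ y ∧ ρ y ≤ 39 / 50)
    (h2 : ∀ s ∈ Icc n₀ n₁, 73 / 100 ≤ ρ s ∧ ρ s ≤ 3 / 4) :
    ∀ s ∈ Icc a b, 7 / 10 ≤ ρ s ∧ ρ s ≤ 39 / 50 := by
  rintro s ⟨hs1, hs2⟩
  rcases lt_or_ge s n₀ with h | h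
  · refine h0 s ?_
    rw [Real.dist_eq, abs_lt]
    exact ⟨by linarith only [hs1, ha, hη₀], by linarith only [h, hη₀]⟩
  · rcases lt_or_ge n₁ s with h' | h'
    · refine h1 s ?_
      rw [Real.dist_eq, abs_lt]
      exact ⟨by linarith only [h', hη₁], by linarith only [hs2, hb, hη₁]⟩
    · have h3 := h2 s ⟨h, h'⟩
      exact ⟨le_trans (by norm_num) h3.1, h3.2.trans (by norm_num)⟩

private theorem SM_T (a b : ℝ) : IsCompact {z : ℝ × ℝ × R3 | z.1 ∈ Icc a b ∧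
    z.2.1 ∈ Icc (7 / 10) (39 / 50) ∧ nsq z.2.2 = 1 ∧ (z.2.1 = 73 / 100 ∨ z.2.2 = (1, 0))} := by
  refine (isCompact_Icc.prod ((isCompact_Icc (a := (7 : ℝ) / 10) (b := 39 / 50)).prod
    sphere_cpt)).of_isClosed_subset (s := Icc a b ×ˢ (Icc (7 / 10) (39 / 50) ×ˢ
      {m : R3 | nsq m = 1})) ?_ (fun z hz => ⟨hz.1, hz.2.1, hz.2.2.1⟩)
  have d1 : Continuous fun z : ℝ × ℝ × R3 => z.2.1 := continuous_fst.comp continuous_snd
  have d2 : Continuous fun z : ℝ × ℝ × R3 => z.2.2 := continuous_snd.comp continuous_snd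
  have c1 : IsClosed {z : ℝ × ℝ × R3 | z.1 ∈ Icc a b} := isClosed_Icc.preimage continuous_fst
  have c2 : IsClosed {z : ℝ × ℝ × R3 | z.2.1 ∈ Icc (7 / 10 : ℝ) (39 / 50)} :=
    isClosed_Icc.preimage d1
  have c3 : IsClosed {z : ℝ × ℝ × R3 | nsq z.2.2 = 1} := sphere_cpt.isClosed.preimage d2
  have c4 : IsClosed {z : ℝ × ℝ × R3 | z.2.1 = 73 / 100} := isClosed_singleton.preimage d1
  have c5 : IsClosed {z : ℝ × ℝ × R3 | z.2.2 = (1, 0)} := isClosed_singleton.preimage d2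
  exact c1.inter (c2.inter (c3.inter (c4.union c5)))

private theorem SM_cl {a b : ℝ} (ha : a < 9 / 20) (hb : 11 / 20 < b) (q s : ℝ) :
    mm q (max a (min s b)) = mm q s := by
  have hab : a < b := ha.trans (SM_num.1.trans hb)
  rcases le_or_gt a s with h | h
  · rcases le_or_gt s b with h' | h'
    · rw [min_eq_left h', max_eq_right h]
    · rw [min_eq_right h'.le, max_eq_right hab.le, mm_out q b (Or.inr hb.le),
        mm_out q s (Or.inr (hb.trans h').le)]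
  · rw [min_eq_left (h.trans hab).le, max_eq_left h.le, mm_out q a (Or.inl ha.le),
      mm_out q s (Or.inl (h.trans ha).le)]

private theorem SM_th0 {u : ℝ} (hu : u ≤ 1 / 3) : Real.smoothTransition (3 * u - 1) = 0 :=
  Real.smoothTransition.zero_of_nonpos (by linarith only [hu])

private theorem SM_th1 {u : ℝ} (hu : 2 / 3 ≤ u) : Real.smoothTransition (3 * u - 1) = 1 :=
  Real.smoothTransition.one_of_one_le (by linarith only [hu])

end SM

open SM in
theorem m_SM : StSM := by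
  intro F F' U H n₀ n₁ ρ hF hF' hU hUs hFU hH hn₀ hn₁ hρ hρ1 hρ2
  obtain ⟨hHc, hH0, hH1, hHe, hHK⟩ := hH
  obtain ⟨O, hO, hSO, hFO⟩ := near_sm hF
  obtain ⟨O', hO', hSO', hFO'⟩ := near_sm hF'
  have hSPs : sph 1 ⊆ SP := fun p hp => Or.inl (Or.inr hp)
  have hNs : neckE ⊆ SP := fun p hp => Or.inr hp.1
  -- the distance to the fixed cuff
  have hKc : IsCompact (F '' sph 1) :=
    SM_sph.image_of_continuousOn (hFO.continuousOn.mono (hSPs.trans hSO))
  have hHi : IsCompact (H '' (Icc (0 : ℝ) 1 ×ˢ {m : R3 | nsq m = 1})) :=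
    (isCompact_Icc.prod sphere_cpt).image_of_continuousOn hHc
  have hdis : Disjoint (H '' (Icc (0 : ℝ) 1 ×ˢ {m : R3 | nsq m = 1})) (F '' sph 1) := by
    rw [Set.disjoint_left]
    rintro y ⟨⟨u, m⟩, ⟨h1, h2⟩, rfl⟩ h3
    exact hHK u h1 m h2 h3
  obtain ⟨r, hr0, hr⟩ := Metric.exists_pos_forall_lt_edist hHi hKc.isClosed hdis
  have hκ : ∀ u ∈ Icc (0 : ℝ) 1, ∀ m, nsq m = 1 → ∀ y ∈ F '' sph 1, (r : ℝ) < dist (H (u, m)) y := by
    intro u hu m hm y hy
    have h1 := hr _ ⟨(u, m), ⟨hu, hm⟩, rfl⟩ y hy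
    rw [edist_nndist] at h1
    exact_mod_cast h1
  have hr0' : (0 : ℝ) < r := by exact_mod_cast hr0
  -- a slightly larger interval
  have hnl : n₀ ≤ n₁ := (hn₀.trans (SM_num.1.trans hn₁)).le
  have hb₀ := hρ2 n₀ ⟨le_refl _, hnl⟩
  have hb₁ := hρ2 n₁ ⟨hnl, le_refl _⟩
  have hρc : Continuous ρ := hρ.continuous
  obtain ⟨η₀, hη₀, hη₀'⟩ := SM_ev hρc n₀ hb₀.1 hb₀.2
  obtain ⟨η₁, hη₁, hη₁'⟩ := SM_ev hρc n₁ hb₁.1 hb₁.2
  obtain ⟨a, ha⟩ : ∃ a, a = n₀ - η₀ / 2 := ⟨_, rfl⟩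
  obtain ⟨b, hb⟩ : ∃ b, b = n₁ + η₁ / 2 := ⟨_, rfl⟩
  have han : a < n₀ := ha.trans_lt (sub_lt_self _ (half_pos hη₀))
  have hbn : n₁ < b := (lt_add_of_pos_right _ (half_pos hη₁)).trans_eq hb.symm
  have hρab : ∀ s ∈ Icc a b, 7 / 10 ≤ ρ s ∧ ρ s ≤ 39 / 50 :=
    SM_rab ha hb hη₀ hη₁ hη₀' hη₁' hρ2
  have ha9 : a < 9 / 20 := han.trans hn₀
  have hb11 : 11 / 20 < b := hn₁.trans hbn
  have hab' : a < b := ha9.trans (SM_num.1.trans hb11)
  have hr8 : (0 : ℝ) < r / 8 := div_pos hr0' (by norm_num)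
  -- the tube
  let T : Set (ℝ × ℝ × R3) := {z | z.1 ∈ Icc a b ∧ z.2.1 ∈ Icc (7 / 10) (39 / 50) ∧
    nsq z.2.2 = 1 ∧ (z.2.1 = 73 / 100 ∨ z.2.2 = (1, 0))}
  have hT : IsCompact T := SM_T a b
  have hTS : ∀ z ∈ T, sq 0 (z.1, z.2.1 • z.2.2) ∈ SP := fun z hz =>
    mem_SP_sm _ _ _ hz.2.2.1 hz.2.1.1 hz.2.1.2
  have hTN : ∀ z ∈ T, 3 / 5 ≤ 73 / 100 * z.2.2.1 → sq 0 (z.1, z.2.1 • z.2.2) ∈ U :=
    fun z hz h => hUs (Or.inr (mem_neckE_sm _ _ _ hz.2.2.1 hz.2.1.1 hz.2.1.2 hz.2.2.2 h))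
  obtain ⟨ε₁, hε₁, hA⟩ := tube_sm (δ := r / 8) hO hFO.continuousOn hT hU
    (fun z hz => hSO (hTS z hz)) hTN hr8
  obtain ⟨ε₂, hε₂, hB⟩ := tube_sm (δ := r / 8) hO' hFO'.continuousOn hT hU
    (fun z hz => hSO' (hTS z hz)) hTN hr8
  refine ⟨r / 2, half_pos hr0', min ε₁ ε₂, lt_min hε₁ hε₂, fun ε hε => ?_⟩
  have hεp : 0 < ε := hε.1
  replace hA := hA ε ⟨hε.1, hε.2.trans_le (min_le_left _ _)⟩
  replace hB := hB ε ⟨hε.1, hε.2.trans_le (min_le_right _ _)⟩
  have hsq : ContDiff ℝ ∞ (sq ε) := by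
    have h := hS2.2.2.2.comp (s := univ) (g := fun q : ℝ × R4 => sq q.1 q.2)
      (f := fun p : R4 => (ε, p)) (contDiff_const.prodMk contDiff_id).contDiffOn
      (fun p _ => ⟨hεp, mem_univ _⟩)
    exact contDiffOn_univ.1 h
  -- the pieces
  let cl : ℝ → ℝ := fun s => max a (min s b)
  have hcl : Continuous cl := continuous_const.max (continuous_id.min continuous_const)
  have hclm : ∀ s, cl s ∈ Icc a b := fun s =>
    ⟨le_max_left _ _, max_le hab'.le (min_le_right _ _)⟩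
  have hcle : ∀ s ∈ Icc a b, cl s = s := fun s hs => by
    show max a (min s b) = s
    rw [min_eq_left hs.2, max_eq_right hs.1]
  have hclmm : ∀ q s, mm q (cl s) = mm q s := SM_cl ha9 hb11
  have hmmc : Continuous (fun x : ℝ × ℝ => mm x.1 x.2) := mm_smooth.continuous
  let Z : ℝ × ℝ → ℝ × ℝ × R3 := fun x => (cl x.2, ρ (cl x.2), mm x.1 x.2)
  have hZc : Continuous Z := by
    have h1 : Continuous (fun x : ℝ × ℝ => cl x.2) := hcl.comp continuous_snd
    exact h1.prodMk ((hρc.comp h1).prodMk hmmc)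
  have hZT : ∀ x, Z x ∈ T := by
    intro x
    refine ⟨hclm _, hρab _ (hclm _), nsq_mm _ _, ?_⟩
    rcases lt_or_ge (cl x.2) (9 / 20) with h | h
    · right
      show mm x.1 x.2 = _
      rw [← hclmm]
      exact mm_out _ _ (Or.inl h.le)
    · rcases lt_or_ge (11 / 20) (cl x.2) with h' | h'
      · right
        show mm x.1 x.2 = _
        rw [← hclmm]
        exact mm_out _ _ (Or.inr h'.le)
      · left
        exact hρ1 _ ⟨h, h'⟩
  let G : ℝ × ℝ → R4 := fun x => F (sq ε ((Z x).1, (Z x).2.1 • (Z x).2.2))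
  let G' : ℝ × ℝ → R4 := fun x => F' (sq ε ((Z x).1, (Z x).2.1 • (Z x).2.2))
  have hinner : Continuous (fun x : ℝ × ℝ => sq ε ((Z x).1, (Z x).2.1 • (Z x).2.2)) :=
    hsq.continuous.comp ((continuous_fst.comp hZc).prodMk
      ((continuous_fst.comp (continuous_snd.comp hZc)).smul
        (continuous_snd.comp (continuous_snd.comp hZc))))
  have hGc : Continuous G := continuousOn_univ.1
    (hFO.continuousOn.comp hinner.continuousOn fun x _ => (hA _ (hZT x)).1)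
  have hGc' : Continuous G' := continuousOn_univ.1
    (hFO'.continuousOn.comp hinner.continuousOn fun x _ => (hB _ (hZT x)).1)
  have hnuS : ∀ m, nsq m = 1 → nu m ∈ SP := fun m hm =>
    mem_SP_sm _ _ _ hm SM_num.2.2.2.2.2.2.2.2.1 SM_num.2.2.2.2.2.2.2.2.2.1
  let N : ℝ × ℝ → R4 := fun x => F (nu (mm x.1 x.2))
  let N' : ℝ × ℝ → R4 := fun x => F' (nu (mm x.1 x.2))
  have hNc : Continuous N := continuousOn_univ.1
    (hFO.continuousOn.comp (nu_cont_sm.comp hmmc).continuousOn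
      fun x _ => hSO (hnuS _ (nsq_mm _ _)))
  have hNc' : Continuous N' := continuousOn_univ.1
    (hFO'.continuousOn.comp (nu_cont_sm.comp hmmc).continuousOn
      fun x _ => hSO' (hnuS _ (nsq_mm _ _)))
  let θ : ℝ → ℝ := fun u => Real.smoothTransition (3 * u - 1)
  have hθc : Continuous θ := Real.smoothTransition.continuous.comp (by fun_prop)
  have hθm : ∀ u, θ u ∈ Icc (0 : ℝ) 1 := fun u =>
    ⟨Real.smoothTransition.nonneg _, Real.smoothTransition.le_one _⟩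
  have hθ0 : ∀ u, u ≤ 1 / 3 → θ u = 0 := fun u hu => SM_th0 hu
  have hθ1 : ∀ u, 2 / 3 ≤ u → θ u = 1 := fun u hu => SM_th1 hu
  let K : ℝ × ℝ × ℝ → R4 := fun z => H (θ z.1, mm z.2.1 z.2.2)
  have hKcont : Continuous K := by
    refine continuousOn_univ.1 (hHc.comp (f := fun z : ℝ × ℝ × ℝ => (θ z.1, mm z.2.1 z.2.2))
      (Continuous.continuousOn ?_) fun z _ => ⟨hθm _, nsq_mm _ _⟩)
    exact (hθc.comp continuous_fst).prodMk (hmmc.comp continuous_snd)
  let f : ℝ × ℝ × ℝ → R4 := fun z =>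
    K z + ((1 - θ z.1) • (G z.2 - N z.2) + θ z.1 • (G' z.2 - N' z.2))
  have hfc : Continuous f := SM_fc (D := fun x => G x - N x) (D' := fun x => G' x - N' x)
    hKcont hθc (hGc.sub hNc) (hGc'.sub hNc')
  have hf0 : ∀ z : ℝ × ℝ × ℝ, z.1 ≤ 1 / 3 → f z = G z.2 := by
    intro z hz
    refine SM_f0 (hθ0 _ hz) ?_
    show H (θ z.1, mm z.2.1 z.2.2) = _
    rw [hθ0 _ hz, hH0 _ (nsq_mm _ _)]
  have hf1 : ∀ z : ℝ × ℝ × ℝ, 2 / 3 ≤ z.1 → f z = G' z.2 := by
    intro z hz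
    refine SM_f1 (hθ1 _ hz) ?_
    show H (θ z.1, mm z.2.1 z.2.2) = _
    rw [hθ1 _ hz, hH1 _ (nsq_mm _ _)]
  have hf2 : ∀ z : ℝ × ℝ × ℝ, 3 / 5 ≤ 73 / 100 * (mm z.2.1 z.2.2).1 → f z = G z.2 := by
    intro z hz
    have e : K z = N z.2 := hHe _ (hθm _) _ (nsq_mm _ _) hz
    have e1 : N' z.2 = N z.2 := (hFU (hUs (Or.inr (mem_neckE_sm _ _ _ (nsq_mm _ _)
      SM_num.2.2.2.2.2.2.2.2.1 SM_num.2.2.2.2.2.2.2.2.2.1 (Or.inl rfl) hz)))).symm
    exact SM_f2 e e1 (hFU ((hA _ (hZT z.2)).2.2 hz)).symm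
  -- smoothness
  have hGe : ∀ x : ℝ × ℝ, x.2 ∈ Icc a b → G x = F (sq ε (x.2, ρ x.2 • mm x.1 x.2)) := by
    intro x hx
    show F (sq ε (cl x.2, ρ (cl x.2) • mm x.1 x.2)) = _
    rw [hcle _ hx]
  have hGe' : ∀ x : ℝ × ℝ, x.2 ∈ Icc a b → G' x = F' (sq ε (x.2, ρ x.2 • mm x.1 x.2)) := by
    intro x hx
    show F' (sq ε (cl x.2, ρ (cl x.2) • mm x.1 x.2)) = _
    rw [hcle _ hx]
  have hρm := SM_rm hρ
  have hin : ContDiff ℝ ∞ (fun x : ℝ × ℝ => sq ε (x.2, ρ x.2 • mm x.1 x.2)) :=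
    hsq.comp (contDiff_snd.prodMk hρm)
  have hZe : ∀ x : ℝ × ℝ, x.2 ∈ Icc a b → Z x = (x.2, ρ x.2, mm x.1 x.2) := by
    intro x hx
    show (cl x.2, ρ (cl x.2), mm x.1 x.2) = _
    rw [hcle _ hx]
  have hGs : ∀ x : ℝ × ℝ, x.2 ∈ Ioo a b → ContDiffAt ℝ ∞ G x := by
    intro x hx
    have h1 := (hA _ (hZT x)).1
    rw [hZe x ⟨hx.1.le, hx.2.le⟩] at h1
    exact SM_Gs hO hFO hin h1 hx hGe
  have hGs' : ∀ x : ℝ × ℝ, x.2 ∈ Ioo a b → ContDiffAt ℝ ∞ G' x := by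
    intro x hx
    have h1 := (hB _ (hZT x)).1
    rw [hZe x ⟨hx.1.le, hx.2.le⟩] at h1
    exact SM_Gs hO' hFO' hin h1 hx hGe'
  let V : Set (ℝ × ℝ × ℝ) := {z | z.2.2 ∈ Ioo a b ∧
    (z.1 < 1 / 3 ∨ 2 / 3 < z.1 ∨ 3 / 5 < 73 / 100 * (mm z.2.1 z.2.2).1)}
  let S : Set (ℝ × ℝ × ℝ) := {z | z.2.2 ∈ Icc n₀ n₁ ∧
    (z.1 ≤ 1 / 4 ∨ 3 / 4 ≤ z.1 ∨ 13 / 20 ≤ 73 / 100 * (mm z.2.1 z.2.2).1)}
  have hmc : Continuous (fun z : ℝ × ℝ × ℝ => 73 / 100 * (mm z.2.1 z.2.2).1) :=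
    continuous_const.mul (continuous_fst.comp (hmmc.comp continuous_snd))
  have hlast : Continuous (fun z : ℝ × ℝ × ℝ => z.2.2) := continuous_snd.comp continuous_snd
  have hVo : IsOpen V := (isOpen_Ioo.preimage hlast).inter
    ((isOpen_lt continuous_fst continuous_const).union
      ((isOpen_lt continuous_const continuous_fst).union (isOpen_lt continuous_const hmc)))
  have hSc : IsClosed S := (isClosed_Icc.preimage hlast).inter
    ((isClosed_le continuous_fst continuous_const).union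
      ((isClosed_le continuous_const continuous_fst).union (isClosed_le continuous_const hmc)))
  have hSV : S ⊆ V := by
    rintro z ⟨h1, h2⟩
    refine ⟨⟨han.trans_le h1.1, h1.2.trans_lt hbn⟩, ?_⟩
    rcases h2 with h | h | h
    · exact Or.inl (h.trans_lt SM_num.2.1)
    · exact Or.inr (Or.inl (SM_num.2.2.1.trans_le h))
    · exact Or.inr (Or.inr (SM_num.2.2.2.1.trans_le h))
  have hfV : ContDiffOn ℝ ∞ f V := by
    intro z hz
    refine ContDiffAt.contDiffWithinAt ?_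
    have g1 : ContDiffAt ℝ ∞ (fun z : ℝ × ℝ × ℝ => G z.2) z :=
      (hGs z.2 hz.1).comp z contDiffAt_snd
    have g2 : ContDiffAt ℝ ∞ (fun z : ℝ × ℝ × ℝ => G' z.2) z :=
      (hGs' z.2 hz.1).comp z contDiffAt_snd
    rcases hz.2 with h | h | h
    · exact SM_V (isOpen_lt continuous_fst continuous_const) h g1 fun y hy => hf0 y (le_of_lt hy)
    · exact SM_V (isOpen_lt continuous_const continuous_fst) h g2 fun y hy => hf1 y (le_of_lt hy)
    · exact SM_V (isOpen_lt continuous_const hmc) h g1 fun y hy => hf2 y (le_of_lt hy)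
  obtain ⟨c, hc, hcf, hcS, -⟩ := hfc.exists_contDiff_approx_and_eqOn (⊤ : ℕ∞)
    (continuous_const (y := (r : ℝ) / 8)) (fun _ => hr8) hSc
    (hVo.mem_nhdsSet.2 hSV) hfV
  have hab : ∀ s ∈ Icc n₀ n₁, s ∈ Icc a b := fun s hs => ⟨han.le.trans hs.1, hs.2.trans hbn.le⟩
  refine ⟨c, hc, ?_, ?_, ?_, ?_⟩
  · intro q s hs
    have m1 : ((0 : ℝ), q, s) ∈ S := ⟨hs, Or.inl SM_num.2.2.2.2.1⟩
    exact (hcS m1).trans ((hf0 (0, q, s) SM_num.2.2.2.2.2.1).trans (hGe (q, s) (hab s hs)))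
  · intro q s hs
    have m1 : ((1 : ℝ), q, s) ∈ S := ⟨hs, Or.inr (Or.inl SM_num.2.2.2.2.2.2.1)⟩
    exact (hcS m1).trans ((hf1 (1, q, s) SM_num.2.2.2.2.2.2.2.1).trans (hGe' (q, s) (hab s hs)))
  · intro u q s hs hm
    obtain ⟨h1, h2⟩ := SM_one hm
    have m1 : (u, q, s) ∈ S := ⟨hs, Or.inr (Or.inr h2)⟩
    refine (hcS m1).trans ((hf2 (u, q, s) h1).trans ((hGe (q, s) (hab s hs)).trans ?_))
    show F (sq ε (s, ρ s • mm q s)) = _
    rw [hm]
    rw [SM_sm]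
  · intro u hu q hq s hs y hy
    have hsab : s ∈ Icc a b := ⟨ha9.le.trans hs.1, hs.2.trans hb11.le⟩
    have hz : Z (q, s) = (s, 73 / 100, mm q s) := by
      show (cl s, ρ (cl s), mm q s) = _
      rw [hcle s hsab, hρ1 s hs]
    have d1 : ‖G (q, s) - N (q, s)‖ ≤ r / 8 := SM_d hz (hA _ (hZT (q, s))).2.1
    have d2 : ‖G' (q, s) - N' (q, s)‖ ≤ r / 8 := SM_d hz (hB _ (hZT (q, s))).2.1
    have d3 : dist (f (u, q, s)) (K (u, q, s)) ≤ r / 8 := by
      rw [dist_eq_norm]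
      have e : f (u, q, s) - K (u, q, s) =
          (1 - θ u) • (G (q, s) - N (q, s)) + θ u • (G' (q, s) - N' (q, s)) :=
        add_sub_cancel_left _ _
      rw [e]
      exact conv_sm (hθm u) d1 d2
    exact fin_sm d3 (hcf (u, q, s)) (hκ (θ u) (hθm u) (mm q s) (nsq_mm _ _) y hy) hr0'

end Pool.Agent.Helper18.BI.H


end

/-! ## Helper18.BI.R.M_TOPG -/

section

/-!
# Project BI, stage 4 (R), module TOPG: free homotopy of spheres to based homotopy of whiskered spheres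
-/

set_option autoImplicit false

open scoped Manifold ContDiff Topology ComplexConjugate
open Set Pool.Agent.Helper18.BI
open Pool.Agent.Helper65.Barb
open Pool.Agent.Helper70.BI (I4 IsW MW)
open Pool.Agent.Helper18.BI.H

namespace Pool.Agent.Helper18.BI.R

namespace TOPG

private theorem TOPG_sqp (x : ℝ) (h : 0 ≤ x) : √(x ^ 2 + 0 ^ 2) = x := by
  rw [zero_pow two_ne_zero, add_zero, Real.sqrt_sq h]

private theorem TOPG_sqn (x : ℝ) (h : x ≤ 0) : √(x ^ 2 + 0 ^ 2) = -x := by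
  rw [zero_pow two_ne_zero, add_zero, Real.sqrt_sq_eq_abs, abs_of_nonpos h]

private theorem TOPG_sqa (x : ℝ) : √(x ^ 2 + 0 ^ 2) = |x| := by
  rw [zero_pow two_ne_zero, add_zero, Real.sqrt_sq_eq_abs]

private theorem TOPG_sq5 (a : ℝ) (h : 1 / 5 ≤ a) : 1 / 25 - a ^ 2 ≤ 0 := by
  have h1 := mul_nonneg (sub_nonneg.2 h) (sub_nonneg.2 h)
  linarith

/-- the compression over the axis between the cuffs -/
private theorem sq_bar_topg (a : ℝ) (w : ℂ) (h1 : 1 / 5 ≤ a) (h2 : a ≤ 4 / 5) :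
    sq 0 (1 / 2, (a, w)) = bar a := by
  have hp : prof 0 a = 0 := by
    unfold prof
    have h3 : 1 / 25 - (a - 1) ^ 2 ≤ 0 := by
      rw [sub_sq_comm]
      exact TOPG_sq5 (1 - a) (by linarith)
    rw [TOPG_sqn _ (TOPG_sq5 a h1), TOPG_sqn _ h3, add_neg_cancel, add_neg_cancel, zero_div,
      add_zero]
  have hf : ∀ k : ℝ, fac 0 a k = 0 := by
    intro k
    unfold fac
    rw [hp, mul_zero, zero_div, Real.sqrt_zero]
  have ha : axc 0 a = a := by
    unfold axc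
    rw [TOPG_sqp (a + 1 / 5) (by linarith), TOPG_sqn (a - 6 / 5) (by linarith)]
    ring
  unfold sq bar
  simp only [hf, ha, zero_mul, add_zero, Complex.ofReal_zero]

private theorem axc_le_topg (a : ℝ) (h2 : a ≤ 1 / 5) : axc 0 a ≤ 1 / 5 := by
  unfold axc
  have e1 : √((a + 1 / 5) ^ 2 + 0 ^ 2) ≤ 3 / 5 - a := by
    rw [TOPG_sqa]
    exact abs_le.2 ⟨by linarith, by linarith⟩
  rw [TOPG_sqn (a - 6 / 5) (by linarith)]
  linarith

/-- the axial compression preserves the sign -/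
private theorem axc_sign_topg (a : ℝ) (h2 : a ≤ 1 / 5) : 0 ≤ a * axc 0 a := by
  unfold axc
  rw [TOPG_sqn (a - 6 / 5) (by linarith)]
  rcases le_total (-(1 / 5)) a with h3 | h3
  · rw [TOPG_sqp (a + 1 / 5) (by linarith)]
    have e : 1 / 2 + (a + 1 / 5 - -(a - 6 / 5)) / 2 = a := by ring
    rw [e]
    exact mul_self_nonneg a
  · rw [TOPG_sqn (a + 1 / 5) (by linarith)]
    have e : 1 / 2 + (-(a + 1 / 5) - -(a - 6 / 5)) / 2 = -(1 / 5) := by ring
    rw [e]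
    linarith

private theorem fst_le_topg (m : R3) (hm : nsq m = 1) : m.1 ≤ 1 := by
  have h2 : m.1 ^ 2 ≤ 1 ^ 2 := by
    unfold nsq at hm
    linarith [sq_nonneg m.2.re, sq_nonneg m.2.im]
  exact (abs_le_of_sq_le_sq' h2 zero_le_one).2

private theorem nsq_smul_topg (c : ℝ) (x : R3) : nsq (c • x) = c ^ 2 * nsq x := by
  unfold nsq
  simp only [Prod.smul_fst, Prod.smul_snd, smul_eq_mul, Complex.real_smul, Complex.mul_re,
    Complex.mul_im, Complex.ofReal_re, Complex.ofReal_im, zero_mul, sub_zero, add_zero]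
  ring

private theorem TOPG_nsq1 (x : R3) : nsq (x.1 - 1, x.2) = nsq x - 2 * x.1 + 1 := by
  unfold nsq
  ring

private theorem TOPG_rsq1 (p : R4) (h : p.2.1 ≤ 1 / 5) : rsq 1 p ≠ 1 / 25 := by
  intro h3
  have h1 := mul_nonneg (sub_nonneg.2 h) (sub_nonneg.2 h)
  unfold rsq nsq at h3
  linarith [sq_nonneg p.2.2.re, sq_nonneg p.2.2.im]

private theorem nu_eq_topg (m : R3) :
    nu m = sq 0 (((1 / 2, (73 / 100 * m.1, ((73 : ℝ) / 100) • m.2)) : R4)) := by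
  unfold nu
  congr 1

private theorem nu_bar_topg (m : R3) (hm : nsq m = 1) (h : 1 / 5 ≤ 73 / 100 * m.1) :
    nu m = bar (73 / 100 * m.1) := by
  have h1 := fst_le_topg m hm
  rw [nu_eq_topg]
  exact sq_bar_topg _ _ h (by linarith)

private theorem nu_fst_topg (m : R3) : (nu m).1 = 1 / 2 := by
  rw [nu_eq_topg]
  unfold sq
  simp

private theorem nu_ax_topg (m : R3) : (nu m).2.1 = axc 0 (73 / 100 * m.1) := by
  rw [nu_eq_topg]
  rfl

private theorem nu_tr_topg (m : R3) : ∃ c : ℝ, 0 ≤ c ∧ (nu m).2.2 = (c : ℂ) * m.2 := by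
  refine ⟨fac 0 (73 / 100 * m.1) (Complex.normSq (((73 : ℝ) / 100) • m.2)) * (73 / 100), ?_, ?_⟩
  · refine mul_nonneg ?_ (by norm_num)
    unfold fac
    exact Real.sqrt_nonneg _
  · rw [nu_eq_topg]
    show ((fac 0 (73 / 100 * m.1) (Complex.normSq (((73 : ℝ) / 100) • m.2)) : ℝ) : ℂ) *
      (((73 : ℝ) / 100) • m.2) = _
    rw [Complex.real_smul, Complex.ofReal_mul]
    ring

private theorem nu_sph_topg (m : R3) (hm : nsq m = 1) (h : 73 / 100 * m.1 ≤ 1 / 5) :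
    nu m ∈ sph 0 := by
  have hx : (((1 / 2, (73 / 100 * m.1, ((73 : ℝ) / 100) • m.2)) : R4)) ∈ Ext := by
    have h8 : nsq (((73 : ℝ) / 100) • m) = 73 / 100 * (73 / 100) := by
      rw [nsq_smul_topg, hm, mul_one, pow_two]
    have h9 : nsq (73 / 100 * m.1 - 1, ((73 : ℝ) / 100) • m.2) =
        nsq (((73 : ℝ) / 100) • m) - 2 * (73 / 100 * m.1) + 1 := TOPG_nsq1 (((73 : ℝ) / 100) • m)
    refine ⟨?_, ?_⟩
    · show ((1 : ℝ) / 5) ^ 2 ≤ nsq (73 / 100 * m.1 - 0, ((73 : ℝ) / 100) • m.2)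
      rw [sub_zero]
      show ((1 : ℝ) / 5) ^ 2 ≤ nsq (((73 : ℝ) / 100) • m)
      rw [h8]
      norm_num
    · show ((1 : ℝ) / 5) ^ 2 ≤ nsq (73 / 100 * m.1 - 1, ((73 : ℝ) / 100) • m.2)
      rw [h9, h8]
      linarith
  have hs : nu m ∈ SP := by
    rw [nu_eq_topg]
    exact hS4.1 _ hx
  have ha : (nu m).2.1 ≤ 1 / 5 := by
    rw [nu_ax_topg]
    exact axc_le_topg _ h
  rcases hs with (h0 | h1) | h2
  · exact h0
  · exfalso
    exact TOPG_rsq1 _ ha h1.2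
  · obtain ⟨h3, h4, h5, h6⟩ := h2
    refine ⟨h3, ?_⟩
    have h7 : (nu m).2.1 = 1 / 5 := le_antisymm ha h4
    unfold rsq nsq
    rw [h6, h7]
    norm_num

private theorem nu_foot_topg (m : R3) (hm : nsq m = 1) (h : 73 / 100 * m.1 = 1 / 5) :
    nu m = foot0 := by
  rw [nu_bar_topg m hm h.ge, h]
  rfl

private theorem nu_cont_topg : Continuous nu := by
  have h : ContinuousOn ((fun q : ℝ × R4 => sq q.1 q.2) ∘
      fun m : R3 => (((0 : ℝ), ((1 : ℝ) / 2, ((73 : ℝ) / 100) • m)) : ℝ × R4)) univ :=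
    hS3.comp (by fun_prop) (fun m _ => ⟨self_mem_Ici, mem_univ _⟩)
  exact continuousOn_univ.1 h

private theorem bar_mem_topg (a : ℝ) (h1 : 1 / 5 ≤ a) (h2 : a ≤ 4 / 5) : bar a ∈ SP :=
  Or.inr ⟨rfl, h1, h2, rfl⟩

private theorem nu_mem_topg (m : R3) (hm : nsq m = 1) : nu m ∈ SP := by
  rcases le_total (73 / 100 * m.1) (1 / 5) with h | h
  · exact Or.inl (Or.inl (nu_sph_topg m hm h))
  · rw [nu_bar_topg m hm h]
    exact bar_mem_topg _ h (by linarith [fst_le_topg m hm])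

private theorem nu_notMem_topg (m : R3) (hm : nsq m = 1) : nu m ∉ sph 1 := by
  intro h1
  have h3 : rsq 1 (nu m) = 1 / 25 := h1.2
  rcases le_total (73 / 100 * m.1) (1 / 5) with h | h
  · have ha : (nu m).2.1 ≤ 1 / 5 := by
      rw [nu_ax_topg]
      exact axc_le_topg _ h
    exact TOPG_rsq1 _ ha h3
  · rw [nu_bar_topg m hm h] at h3
    have h4 := fst_le_topg m hm
    have h5 := mul_nonneg (sub_nonneg.2 h4) (sub_nonneg.2 h4)
    unfold rsq nsq bar at h3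
    simp only [Complex.zero_re, Complex.zero_im] at h3
    nlinarith

private theorem emb_cont_topg (F : R4 → R4) (hF : EmbOn I4 F SP) : ContinuousOn F SP := by
  intro p hp
  obtain ⟨Φ, h1, h2⟩ := hF.1 p hp
  have h3 : ContinuousOn F Φ.source := Φ.contMDiffOn_toFun.continuousOn.congr h2
  exact (h3.continuousAt (Φ.open_source.mem_nhds h1)).continuousWithinAt

private theorem bar_cont_topg : Continuous bar := by
  unfold bar
  fun_prop

private theorem nsq_cont_topg : Continuous nsq := by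
  unfold nsq
  fun_prop

/-! ### the retraction of the sphere -/

/-- the sphere is mapped to itself, the cap around `(1, 0)` is contracted to a point -/
private noncomputable def Rm (m : R3) : R3 := (min 1 (5 * (nu m).2.1), (5 : ℝ) • (nu m).2.2)

private theorem Rm_cont : Continuous Rm := by
  have h := nu_cont_topg
  have h1 : Continuous fun m : R3 => (nu m).2.1 := continuous_fst.comp (continuous_snd.comp h)
  have h2 : Continuous fun m : R3 => (nu m).2.2 := continuous_snd.comp (continuous_snd.comp h)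
  exact (continuous_const.min (continuous_const.mul h1)).prodMk (h2.const_smul (5 : ℝ))

private theorem Rm_hi (m : R3) (hm : nsq m = 1) (h : 1 / 5 ≤ 73 / 100 * m.1) : Rm m = (1, 0) := by
  unfold Rm
  rw [nu_bar_topg m hm h]
  unfold bar
  refine Prod.ext ?_ ?_
  · exact min_eq_left (by show (1 : ℝ) ≤ 5 * (73 / 100 * m.1); linarith)
  · simp

private theorem Rm_lo (m : R3) (h : 73 / 100 * m.1 ≤ 1 / 5) : Rm m = (5 : ℝ) • (nu m).2 := by
  have ha : (nu m).2.1 ≤ 1 / 5 := by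
    rw [nu_ax_topg]
    exact axc_le_topg _ h
  unfold Rm
  rw [min_eq_right (by linarith)]
  rfl

private theorem nsq_Rm (m : R3) (hm : nsq m = 1) : nsq (Rm m) = 1 := by
  rcases le_total (73 / 100 * m.1) (1 / 5) with h | h
  · rw [Rm_lo m h, nsq_smul_topg]
    have h1 : rsq 0 (nu m) = 1 / 25 := (nu_sph_topg m hm h).2
    have h2 : nsq (nu m).2 = rsq 0 (nu m) := by
      unfold rsq
      rw [sub_zero]
    rw [h2, h1]
    norm_num
  · rw [Rm_hi m hm h]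
    unfold nsq
    norm_num

/-- the scalar product of `m` and `Rm m` is nonnegative -/
private theorem dot_Rm (m : R3) (hm : nsq m = 1) :
    0 ≤ m.1 * (Rm m).1 + m.2.re * (Rm m).2.re + m.2.im * (Rm m).2.im := by
  rcases le_total (73 / 100 * m.1) (1 / 5) with h | h
  · obtain ⟨c, hc, e⟩ := nu_tr_topg m
    have h1 := axc_sign_topg _ h
    rw [← nu_ax_topg] at h1
    have e1 : (Rm m).1 = 5 * (nu m).2.1 := by
      rw [Rm_lo m h]
      rfl
    have e2 : (Rm m).2 = ((5 * c : ℝ) : ℂ) * m.2 := by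
      rw [Rm_lo m h]
      show (5 : ℝ) • (nu m).2.2 = _
      rw [e, Complex.real_smul, Complex.ofReal_mul]
      ring
    rw [e1, e2]
    simp only [Complex.mul_re, Complex.mul_im, Complex.ofReal_re, Complex.ofReal_im, zero_mul,
      sub_zero, add_zero]
    have h2 := mul_nonneg hc (add_nonneg (sq_nonneg m.2.re) (sq_nonneg m.2.im))
    linarith
  · rw [Rm_hi m hm h]
    simp only [Complex.zero_re, Complex.zero_im, mul_zero, add_zero, mul_one]
    linarith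

/-- the segment from `m` to `Rm m` -/
private noncomputable def sg (x : ℝ × R3) : R3 := (1 - x.1) • x.2 + x.1 • Rm x.2

private theorem sg_pos (t : ℝ) (m : R3) (hm : nsq m = 1) (ht : t ∈ Icc (0 : ℝ) 1) :
    0 < nsq (sg (t, m)) := by
  have h1 := nsq_Rm m hm
  have h2 := dot_Rm m hm
  have e : nsq (sg (t, m)) = (1 - t) ^ 2 * nsq m + t ^ 2 * nsq (Rm m) +
      2 * ((1 - t) * t) * (m.1 * (Rm m).1 + m.2.re * (Rm m).2.re + m.2.im * (Rm m).2.im) := by
    unfold sg nsq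
    simp only [Prod.fst_add, Prod.snd_add, Prod.smul_fst, Prod.smul_snd, smul_eq_mul,
      Complex.real_smul, Complex.add_re, Complex.add_im, Complex.mul_re,
      Complex.mul_im, Complex.ofReal_re, Complex.ofReal_im, zero_mul, sub_zero, add_zero]
    ring
  rw [e, hm, h1]
  have h3 : 0 ≤ (1 - t) * t := mul_nonneg (by linarith [ht.2]) ht.1
  have h4 : 0 ≤ 2 * ((1 - t) * t) *
      (m.1 * (Rm m).1 + m.2.re * (Rm m).2.re + m.2.im * (Rm m).2.im) :=
    mul_nonneg (by linarith) h2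
  linarith [sq_nonneg (2 * t - 1)]

/-- the homotopy from the identity to `Rm` -/
private noncomputable def Rt (x : ℝ × R3) : R3 := (√(nsq (sg x)))⁻¹ • sg x

private theorem nsq_Rt (t : ℝ) (m : R3) (hm : nsq m = 1) (ht : t ∈ Icc (0 : ℝ) 1) :
    nsq (Rt (t, m)) = 1 := by
  have h := sg_pos t m hm ht
  unfold Rt
  rw [nsq_smul_topg, inv_pow, Real.sq_sqrt h.le]
  exact inv_mul_cancel₀ h.ne'

private theorem Rt_zero (m : R3) (hm : nsq m = 1) : Rt (0, m) = m := by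
  have e : sg (0, m) = m := by
    unfold sg
    simp
  unfold Rt
  rw [e, hm]
  simp

private theorem Rt_one (m : R3) (hm : nsq m = 1) : Rt (1, m) = Rm m := by
  have e : sg (1, m) = Rm m := by
    unfold sg
    simp
  unfold Rt
  rw [e, nsq_Rm m hm]
  simp

private theorem one_mem_topg : nsq ((1, 0) : R3) = 1 := by
  unfold nsq
  norm_num

private theorem Rm_base : Rm (1, 0) = (1, 0) :=
  Rm_hi _ one_mem_topg (by norm_num)

private theorem Rt_base (t : ℝ) : Rt (t, (1, 0)) = (1, 0) := by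
  have e : sg (t, (1, 0)) = (1, 0) := by
    unfold sg
    simp only [Rm_base]
    rw [← add_smul]
    simp
  unfold Rt
  rw [e, one_mem_topg]
  simp

/-! ### homotopies of based spheres -/

private theorem glue_topg {X Y : Type*} [TopologicalSpace X] [TopologicalSpace Y]
    {D C1 C2 : Set X} {H g1 g2 : X → Y} (hD : IsClosed D) (h1 : IsClosed C1) (h2 : IsClosed C2)
    (hc : D ⊆ C1 ∪ C2) (v1 : ∀ x ∈ D ∩ C1, H x = g1 x) (v2 : ∀ x ∈ D ∩ C2, H x = g2 x)
    (c1 : ContinuousOn g1 (D ∩ C1)) (c2 : ContinuousOn g2 (D ∩ C2)) : ContinuousOn H D := by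
  have e : D = (D ∩ C1) ∪ (D ∩ C2) := by
    rw [← inter_union_distrib_left, inter_eq_left.2 hc]
  rw [e]
  exact (c1.congr v1).union_of_isClosed (c2.congr v2) (hD.inter h1) (hD.inter h2)

private theorem D_closed_topg : IsClosed (Icc (0 : ℝ) 1 ×ˢ S2) :=
  isClosed_Icc.prod (isClosed_eq nsq_cont_topg continuous_const)

private def BH (K : Set R4) (y : R4) (f g : R3 → R4) : Prop :=
  ∃ H : ℝ × R3 → R4, ContinuousOn H (Icc (0 : ℝ) 1 ×ˢ S2) ∧ (∀ m ∈ S2, H (0, m) = f m) ∧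
    (∀ m ∈ S2, H (1, m) = g m) ∧ (∀ u ∈ Icc (0 : ℝ) 1, H (u, (1, 0)) = y) ∧
    ∀ u ∈ Icc (0 : ℝ) 1, ∀ m ∈ S2, H (u, m) ∉ K

private theorem BH_trans {K : Set R4} {y : R4} {f g k : R3 → R4} (h1 : BH K y f g)
    (h2 : BH K y g k) : BH K y f k := by
  obtain ⟨H, a1, a2, a3, a4, a5⟩ := h1
  obtain ⟨H', b1, b2, b3, b4, b5⟩ := h2
  classical
  let G : ℝ × R3 → R4 := fun x =>
    if x.1 ≤ 1 / 2 then H (2 * x.1, x.2) else H' (2 * x.1 - 1, x.2)
  have g1 : ∀ u m, u ≤ 1 / 2 → G (u, m) = H (2 * u, m) := fun u m hu => if_pos hu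
  have g2 : ∀ u m, m ∈ S2 → 1 / 2 ≤ u → G (u, m) = H' (2 * u - 1, m) := by
    intro u m hm hu
    rcases eq_or_lt_of_le hu with he | hl
    · rw [g1 u m he.ge, ← he, show (2 : ℝ) * (1 / 2) = 1 by norm_num, a3 m hm,
        show (1 : ℝ) - 1 = 0 by norm_num, b2 m hm]
    · exact if_neg (not_le.2 hl)
  refine ⟨G, ?_, ?_, ?_, ?_, ?_⟩
  · refine glue_topg (C1 := {x : ℝ × R3 | x.1 ≤ 1 / 2}) (C2 := {x : ℝ × R3 | 1 / 2 ≤ x.1})
      (g1 := fun x => H (2 * x.1, x.2)) (g2 := fun x => H' (2 * x.1 - 1, x.2)) D_closed_topg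
      (isClosed_le (by fun_prop) (by fun_prop)) (isClosed_le (by fun_prop) (by fun_prop))
      (fun x _ => (le_total x.1 (1 / 2)).imp id id) ?_ ?_ ?_ ?_
    · intro x hx
      exact g1 x.1 x.2 hx.2
    · intro x hx
      exact g2 x.1 x.2 hx.1.2 hx.2
    · refine a1.comp (Continuous.continuousOn (by fun_prop)) ?_
      intro x hx
      have h3 : x.1 ≤ 1 / 2 := hx.2
      exact ⟨⟨by linarith [hx.1.1.1], by linarith⟩, hx.1.2⟩
    · refine b1.comp (Continuous.continuousOn (by fun_prop)) ?_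
      intro x hx
      have h3 : 1 / 2 ≤ x.1 := hx.2
      exact ⟨⟨by linarith, by linarith [hx.1.1.2]⟩, hx.1.2⟩
  · intro m hm
    rw [g1 0 m (by norm_num), mul_zero, a2 m hm]
  · intro m hm
    rw [g2 1 m hm (by norm_num), show (2 : ℝ) * 1 - 1 = 1 by norm_num, b3 m hm]
  · intro u hu
    rcases le_total u (1 / 2) with h | h
    · rw [g1 u _ h]
      exact a4 _ ⟨by linarith [hu.1], by linarith⟩
    · rw [g2 u _ one_mem_topg h]
      exact b4 _ ⟨by linarith, by linarith [hu.2]⟩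
  · intro u hu m hm
    rcases le_total u (1 / 2) with h | h
    · rw [g1 u _ h]
      exact a5 _ ⟨by linarith [hu.1], by linarith⟩ m hm
    · rw [g2 u _ hm h]
      exact b5 _ ⟨by linarith, by linarith [hu.2]⟩ m hm

end TOPG

open TOPG in
theorem m_TOPG : StTOPG := by
  intro F h ζ P hF hh h1 h0 hK hz1 hz2 hP hP0 hP1 hPa hPb hPK
  classical
  have hFc := emb_cont_topg F hF
  have hFnu : ContinuousOn (fun m : R3 => F (nu m)) S2 :=
    hFc.comp nu_cont_topg.continuousOn (fun m hm => nu_mem_topg m hm)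
  have hnuK : ∀ m ∈ S2, F (nu m) ∉ F '' sph 1 := by
    rintro m hm ⟨y, hy, hyF⟩
    have h9 : y = nu m := hF.2 (Or.inl (Or.inr hy)) (nu_mem_topg m hm) hyF
    rw [h9] at hy
    exact nu_notMem_topg m hm hy
  have hzK : ∀ τ ∈ Icc (0 : ℝ) 1, ζ τ ∉ F '' sph 1 := by
    intro τ hτ
    rw [← hP0 τ hτ]
    exact hPK 0 ⟨le_rfl, zero_le_one⟩ τ hτ
  have hz : ContinuousOn ζ (Icc 0 1) := by
    refine ContinuousOn.congr (f := fun τ => P (0, τ)) ?_ (fun τ hτ => (hP0 τ hτ).symm)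
    refine hP.comp (Continuous.continuousOn (by fun_prop)) ?_
    intro τ hτ
    exact ⟨⟨le_rfl, zero_le_one⟩, hτ⟩
  have hle : ∀ m ∈ S2, m.1 ≤ 1 := fun m hm => fst_le_topg m hm
  have hbase : F (nu (1, 0)) = bp F := by
    rw [nu_bar_topg _ one_mem_topg (by norm_num)]
    unfold bp
    norm_num
  have hlo : ∀ m ∈ S2, 73 / 100 * m.1 ≤ 1 / 5 → h (1, Rm m) = F (nu m) := by
    intro m hm h2
    rw [h1 _ (nsq_Rm m hm), Rm_lo m h2, smul_smul]
    congr 1
    refine Prod.ext (nu_fst_topg m).symm ?_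
    norm_num
  -- the parameter
  let X : R3 → ℝ := fun m => min 1 (73 * (1 - m.1) / 53)
  have hX0 : ∀ m ∈ S2, X m ∈ Icc (0 : ℝ) 1 := by
    intro m hm
    refine ⟨le_min zero_le_one ?_, min_le_left _ _⟩
    have := hle m hm
    exact div_nonneg (by linarith only [this]) (by norm_num)
  have hXc : Continuous X := by
    simp only [X]
    fun_prop
  -- (0)
  have s0 : BH (F '' sph 1) (bp F) (fun m => h (0, m)) (fun m => h (0, Rm m)) := by
    refine ⟨fun x => h (0, Rt x), ?_, ?_, ?_, ?_, ?_⟩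
    · refine hh.comp (continuousOn_const.prodMk ?_) ?_
      · have hs : Continuous sg := by
          have := Rm_cont
          unfold sg
          fun_prop
        unfold Rt
        have h3 : ContinuousOn (fun x : ℝ × R3 => (√(nsq (sg x)))⁻¹) (Icc (0 : ℝ) 1 ×ˢ S2) := by
          refine ContinuousOn.inv₀ (Real.continuous_sqrt.comp (nsq_cont_topg.comp hs)).continuousOn ?_
          rintro ⟨t, m⟩ ⟨ht, hm⟩
          exact (Real.sqrt_pos.2 (sg_pos t m hm ht)).ne'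
        exact h3.smul hs.continuousOn
      · rintro ⟨t, m⟩ ⟨ht, hm⟩
        exact ⟨⟨le_rfl, zero_le_one⟩, nsq_Rt t m hm ht⟩
    · intro m hm
      show h (0, Rt (0, m)) = _
      rw [Rt_zero m hm]
    · intro m hm
      show h (0, Rt (1, m)) = _
      rw [Rt_one m hm]
    · intro u _
      show h (0, Rt (u, (1, 0))) = _
      rw [Rt_base, h0]
    · intro u hu m hm
      exact hK 0 ⟨le_rfl, zero_le_one⟩ _ (nsq_Rt u m hm hu)
  -- (1)
  have s1 : BH (F '' sph 1) (bp F) (fun m => h (0, Rm m)) (fun m => h (X m, Rm m)) := by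
    refine ⟨fun x => h (x.1 * X x.2, Rm x.2), ?_, ?_, ?_, ?_, ?_⟩
    · refine hh.comp (Continuous.continuousOn ?_) ?_
      · exact (continuous_fst.mul (hXc.comp continuous_snd)).prodMk (Rm_cont.comp continuous_snd)
      · rintro ⟨t, m⟩ ⟨ht, hm⟩
        exact ⟨⟨mul_nonneg ht.1 (hX0 m hm).1, mul_le_one₀ ht.2 (hX0 m hm).1 (hX0 m hm).2⟩,
          nsq_Rm m hm⟩
    · intro m _
      show h (0 * X m, Rm m) = _
      rw [zero_mul]
    · intro m _
      show h (1 * X m, Rm m) = _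
      rw [one_mul]
    · intro u _
      show h (u * X (1, 0), Rm (1, 0)) = _
      have e : X (1, 0) = 0 := by
        simp only [X]
        norm_num
      rw [e, mul_zero, Rm_base, h0]
    · intro u hu m hm
      exact hK _ ⟨mul_nonneg hu.1 (hX0 m hm).1, mul_le_one₀ hu.2 (hX0 m hm).1 (hX0 m hm).2⟩ _
        (nsq_Rm m hm)
  -- (2), (3): pieces
  have cA : Continuous fun x : ℝ × R3 => 73 / 100 * x.2.1 :=
    continuous_const.mul (continuous_fst.comp continuous_snd)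
  have cB : Continuous fun x : ℝ × R3 => 73 / 100 - 13 / 100 * x.1 :=
    continuous_const.sub (continuous_const.mul continuous_fst)
  let T : R3 → ℝ := fun m => 5 / 2 * (3 / 5 - 73 / 100 * m.1)
  let θ : ℝ × R3 → ℝ := fun x =>
    (1 - x.1) / 2 + (1 + x.1) / 2 * ((73 - 73 * x.2.1 - 13 * x.1) / (53 - 13 * x.1))
  let f3 : R3 → R4 := fun m =>
    if 1 / 5 ≤ 73 / 100 * m.1 ∧ 73 / 100 * m.1 ≤ 3 / 5 then ζ (T m) else F (nu m)
  have hθ : ∀ x : ℝ × R3, x.1 ∈ Icc (0 : ℝ) 1 → 1 / 5 ≤ 73 / 100 * x.2.1 →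
      73 / 100 * x.2.1 ≤ 73 / 100 - 13 / 100 * x.1 → θ x ∈ Icc (0 : ℝ) 1 := by
    intro x hx h2 h3
    have h4 : 0 < 53 - 13 * x.1 := by linarith only [hx.2]
    have h5 : 0 ≤ (73 - 73 * x.2.1 - 13 * x.1) / (53 - 13 * x.1) :=
      div_nonneg (by linarith only [h3]) h4.le
    have h6 : (73 - 73 * x.2.1 - 13 * x.1) / (53 - 13 * x.1) ≤ 1 := by
      rw [div_le_one h4]
      linarith only [h2]
    have h7 : 0 ≤ (1 + x.1) / 2 := by linarith only [hx.1]
    have h8 := mul_nonneg h7 h5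
    have h9 := mul_le_mul_of_nonneg_left h6 h7
    simp only [θ]
    exact ⟨by linarith only [hx.2, h8], by linarith only [h9]⟩
  have s2 : BH (F '' sph 1) (bp F) (fun m => h (X m, Rm m)) f3 := by
    let G : ℝ × R3 → R4 := fun x =>
      if 1 / 5 ≤ 73 / 100 * x.2.1 ∧ 73 / 100 * x.2.1 ≤ 73 / 100 - 13 / 100 * x.1 then ζ (θ x)
      else F (nu x.2)
    have g1 : ∀ x : ℝ × R3, 1 / 5 ≤ 73 / 100 * x.2.1 ∧
        73 / 100 * x.2.1 ≤ 73 / 100 - 13 / 100 * x.1 → G x = ζ (θ x) := fun x hx => if_pos hx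
    have g2 : ∀ x : ℝ × R3, x.1 ∈ Icc (0 : ℝ) 1 → x.2 ∈ S2 → (73 / 100 * x.2.1 ≤ 1 / 5 ∨
        73 / 100 - 13 / 100 * x.1 ≤ 73 / 100 * x.2.1) → G x = F (nu x.2) := by
      intro x hx hm h2
      by_cases hc : 1 / 5 ≤ 73 / 100 * x.2.1 ∧ 73 / 100 * x.2.1 ≤ 73 / 100 - 13 / 100 * x.1
      · rw [g1 x hc]
        have h4 : 53 - 13 * x.1 ≠ 0 := by linarith only [hx.2]
        rcases h2 with h2 | h2
        · have h5 : 73 / 100 * x.2.1 = 1 / 5 := le_antisymm h2 hc.1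
          have e1 : θ x = 1 := by
            have h6 : 73 - 73 * x.2.1 - 13 * x.1 = 53 - 13 * x.1 := by linarith only [h5]
            simp only [θ]
            rw [h6, div_self h4]
            ring
          rw [e1, nu_foot_topg x.2 hm h5, ← hP0 1 ⟨zero_le_one, le_rfl⟩]
          exact hPb 0 ⟨le_rfl, zero_le_one⟩
        · have h5 : 73 / 100 * x.2.1 = 73 / 100 - 13 / 100 * x.1 := le_antisymm hc.2 h2
          have e1 : θ x = (1 - x.1) / 2 := by
            have h6 : 73 - 73 * x.2.1 - 13 * x.1 = 0 := by linarith only [h5]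
            simp only [θ]
            rw [h6, zero_div, mul_zero, add_zero]
          rw [e1, nu_bar_topg x.2 hm hc.1, hz1 _ ⟨by linarith only [hx.2], by linarith only [hx.1]⟩,
            h5]
          congr 2
          ring
      · exact if_neg hc
    refine ⟨G, ?_, ?_, ?_, ?_, ?_⟩
    · refine glue_topg
        (C1 := {x : ℝ × R3 | 1 / 5 ≤ 73 / 100 * x.2.1} ∩
          {x : ℝ × R3 | 73 / 100 * x.2.1 ≤ 73 / 100 - 13 / 100 * x.1})
        (C2 := {x : ℝ × R3 | 73 / 100 * x.2.1 ≤ 1 / 5} ∪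
          {x : ℝ × R3 | 73 / 100 - 13 / 100 * x.1 ≤ 73 / 100 * x.2.1})
        (g1 := fun x => ζ (θ x)) (g2 := fun x => F (nu x.2)) D_closed_topg
        ((isClosed_le continuous_const cA).inter (isClosed_le cA cB))
        ((isClosed_le cA continuous_const).union (isClosed_le cB cA))
        ?_ ?_ ?_ ?_ ?_
      · intro x _
        by_cases h3 : 73 / 100 * x.2.1 ≤ 1 / 5
        · exact Or.inr (Or.inl h3)
        · by_cases h4 : 73 / 100 - 13 / 100 * x.1 ≤ 73 / 100 * x.2.1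
          · exact Or.inr (Or.inr h4)
          · exact Or.inl ⟨(not_le.1 h3).le, (not_le.1 h4).le⟩
      · intro x hx
        exact g1 x hx.2
      · intro x hx
        exact g2 x hx.1.1 hx.1.2 hx.2
      · refine hz.comp ?_ (fun x hx => hθ x hx.1.1 hx.2.1 hx.2.2)
        simp only [θ]
        refine ContinuousOn.add (Continuous.continuousOn (by fun_prop)) (ContinuousOn.mul
          (Continuous.continuousOn (by fun_prop)) (ContinuousOn.div
          (Continuous.continuousOn (by fun_prop)) (Continuous.continuousOn (by fun_prop)) ?_))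
        intro x hx
        linarith only [hx.1.1.2]
      · exact hFnu.comp continuous_snd.continuousOn (fun x hx => hx.1.2)
    · intro m hm
      show G (0, m) = h (X m, Rm m)
      have hle' := hle m hm
      rcases le_total (73 / 100 * m.1) (1 / 5) with h2 | h2
      · rw [g2 (0, m) ⟨le_rfl, zero_le_one⟩ hm (Or.inl h2), ← hlo m hm h2]
        have e : X m = 1 := by
          simp only [X]
          refine min_eq_left ?_
          rw [le_div_iff₀ (by norm_num)]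
          linarith only [h2]
        rw [e]
      · rw [g1 (0, m) ⟨h2, by
          show 73 / 100 * m.1 ≤ 73 / 100 - 13 / 100 * 0
          linarith only [hle']⟩]
        have e : X m = 73 * (1 - m.1) / 53 := by
          simp only [X]
          refine min_eq_right ?_
          rw [div_le_one (by norm_num)]
          linarith only [h2]
        have e2 : θ (0, m) = (1 + 73 * (1 - m.1) / 53) / 2 := by
          simp only [θ]
          ring
        have h5 : 0 ≤ 73 * (1 - m.1) / 53 := div_nonneg (by linarith only [hle']) (by norm_num)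
        have h6 : 73 * (1 - m.1) / 53 ≤ 1 := by
          rw [div_le_one (by norm_num)]
          linarith only [h2]
        rw [e, e2, hz2 _ ⟨by linarith only [h5], by linarith only [h6]⟩, Rm_hi m hm h2]
        congr 2
        ring
    · intro m hm
      show G (1, m) = if _ then _ else _
      have e2 : θ (1, m) = T m := by
        simp only [θ, T]
        ring
      by_cases hc : 1 / 5 ≤ 73 / 100 * m.1 ∧ 73 / 100 * m.1 ≤ 3 / 5
      · rw [if_pos hc, g1 (1, m) ⟨hc.1, by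
          show 73 / 100 * m.1 ≤ 73 / 100 - 13 / 100 * 1
          linarith only [hc.2]⟩, e2]
      · rw [if_neg hc]
        refine if_neg ?_
        rintro ⟨h3, h4⟩
        refine hc ⟨h3, ?_⟩
        have h4' : 73 / 100 * m.1 ≤ 73 / 100 - 13 / 100 * 1 := h4
        linarith only [h4']
    · intro u hu
      rw [g2 (u, (1, 0)) hu one_mem_topg (Or.inr ?_)]
      · exact hbase
      · show 73 / 100 - 13 / 100 * u ≤ 73 / 100 * 1
        linarith only [hu.1]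
    · intro u hu m hm
      by_cases hc : 1 / 5 ≤ 73 / 100 * m.1 ∧ 73 / 100 * m.1 ≤ 73 / 100 - 13 / 100 * u
      · rw [g1 (u, m) hc]
        exact hzK _ (hθ (u, m) hu hc.1 hc.2)
      · have e : G (u, m) = F (nu m) := if_neg hc
        rw [e]
        exact hnuK m hm
  have s3 : BH (F '' sph 1) (bp F) f3 (fun m => F (nu m)) := by
    let G : ℝ × R3 → R4 := fun x =>
      if 1 / 5 ≤ 73 / 100 * x.2.1 ∧ 73 / 100 * x.2.1 ≤ 3 / 5 then P (x.1, T x.2)
      else F (nu x.2)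
    have g1 : ∀ x : ℝ × R3, 1 / 5 ≤ 73 / 100 * x.2.1 ∧ 73 / 100 * x.2.1 ≤ 3 / 5 →
        G x = P (x.1, T x.2) := fun x hx => if_pos hx
    have g2 : ∀ x : ℝ × R3, x.1 ∈ Icc (0 : ℝ) 1 → x.2 ∈ S2 → (73 / 100 * x.2.1 ≤ 1 / 5 ∨
        3 / 5 ≤ 73 / 100 * x.2.1) → G x = F (nu x.2) := by
      intro x hx hm h2
      by_cases hc : 1 / 5 ≤ 73 / 100 * x.2.1 ∧ 73 / 100 * x.2.1 ≤ 3 / 5
      · rw [g1 x hc]
        rcases h2 with h2 | h2
        · have h5 : 73 / 100 * x.2.1 = 1 / 5 := le_antisymm h2 hc.1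
          have e1 : T x.2 = 1 := by
            simp only [T, h5]
            norm_num
          rw [e1, nu_foot_topg x.2 hm h5]
          exact hPb _ hx
        · have h5 : 73 / 100 * x.2.1 = 3 / 5 := le_antisymm hc.2 h2
          have e1 : T x.2 = 0 := by
            simp only [T, h5]
            norm_num
          rw [e1, nu_bar_topg x.2 hm hc.1, h5]
          exact hPa _ hx
      · exact if_neg hc
    have hT : ∀ m : R3, 1 / 5 ≤ 73 / 100 * m.1 → 73 / 100 * m.1 ≤ 3 / 5 →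
        T m ∈ Icc (0 : ℝ) 1 := by
      intro m h2 h3
      simp only [T]
      exact ⟨by linarith only [h3], by linarith only [h2]⟩
    refine ⟨G, ?_, ?_, ?_, ?_, ?_⟩
    · refine glue_topg
        (C1 := {x : ℝ × R3 | 1 / 5 ≤ 73 / 100 * x.2.1} ∩ {x : ℝ × R3 | 73 / 100 * x.2.1 ≤ 3 / 5})
        (C2 := {x : ℝ × R3 | 73 / 100 * x.2.1 ≤ 1 / 5} ∪ {x : ℝ × R3 | 3 / 5 ≤ 73 / 100 * x.2.1})
        (g1 := fun x => P (x.1, T x.2)) (g2 := fun x => F (nu x.2)) D_closed_topg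
        ((isClosed_le continuous_const cA).inter (isClosed_le cA continuous_const))
        ((isClosed_le cA continuous_const).union (isClosed_le continuous_const cA))
        ?_ ?_ ?_ ?_ ?_
      · intro x _
        by_cases h3 : 73 / 100 * x.2.1 ≤ 1 / 5
        · exact Or.inr (Or.inl h3)
        · by_cases h4 : 3 / 5 ≤ 73 / 100 * x.2.1
          · exact Or.inr (Or.inr h4)
          · exact Or.inl ⟨(not_le.1 h3).le, (not_le.1 h4).le⟩
      · intro x hx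
        exact g1 x hx.2
      · intro x hx
        exact g2 x hx.1.1 hx.1.2 hx.2
      · refine hP.comp ?_ (fun x hx => ⟨hx.1.1, hT x.2 hx.2.1 hx.2.2⟩)
        simp only [T]
        exact Continuous.continuousOn (by fun_prop)
      · exact hFnu.comp continuous_snd.continuousOn (fun x hx => hx.1.2)
    · intro m hm
      show (if _ then _ else _) = if _ then _ else _
      by_cases hc : 1 / 5 ≤ 73 / 100 * m.1 ∧ 73 / 100 * m.1 ≤ 3 / 5
      · rw [if_pos hc, if_pos hc]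
        exact hP0 _ (hT m hc.1 hc.2)
      · rw [if_neg hc, if_neg hc]
    · intro m hm
      show G (1, m) = F (nu m)
      by_cases hc : 1 / 5 ≤ 73 / 100 * m.1 ∧ 73 / 100 * m.1 ≤ 3 / 5
      · rw [g1 (1, m) hc, hP1 _ (hT m hc.1 hc.2), nu_bar_topg m hm hc.1]
        congr 2
        simp only [T]
        ring
      · exact if_neg hc
    · intro u hu
      rw [g2 (u, (1, 0)) hu one_mem_topg (Or.inr ?_)]
      · exact hbase
      · show 3 / 5 ≤ 73 / 100 * 1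
        norm_num
    · intro u hu m hm
      by_cases hc : 1 / 5 ≤ 73 / 100 * m.1 ∧ 73 / 100 * m.1 ≤ 3 / 5
      · rw [g1 (u, m) hc]
        exact hPK u hu _ (hT m hc.1 hc.2)
      · have e : G (u, m) = F (nu m) := if_neg hc
        rw [e]
        exact hnuK m hm
  exact BH_trans (BH_trans (BH_trans s0 s1) s2) s3

end Pool.Agent.Helper18.BI.R


end

/-! ## Helper18.BI.R.M_BAS -/

section

/-!
# Project BI, stage 4 (R), module BAS: the loop of arcs of a germ and its whiskered sphere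
-/

set_option autoImplicit false

open scoped Manifold ContDiff Topology ComplexConjugate
open Set Pool.Agent.Helper65.Barb Pool.Agent.Helper18.BI
open Pool.Agent.Helper70.BI (I4 IsW MW)
open Pool.Agent.Helper27.H (ArcD StArcH)
open Pool.Agent.Helper18.BI.H
open Pool.Agent.Helper27.BI (zarc phi)

namespace Pool.Agent.Helper18.BI.R

namespace BAS

private theorem sq_bar_bas (s a : ℝ) (w : ℂ) (h1 : 1 / 5 ≤ a) (h2 : a ≤ 4 / 5) :
    sq 0 (s, (a, w)) = bar a := by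
  have hp : prof 0 a = 0 := by
    unfold prof
    have e1 : √((1 / 25 - a ^ 2) ^ 2 + 0 ^ 2) = -(1 / 25 - a ^ 2) := by
      rw [show ((1 : ℝ) / 25 - a ^ 2) ^ 2 + 0 ^ 2 = (-(1 / 25 - a ^ 2)) ^ 2 by ring]
      exact Real.sqrt_sq (by nlinarith)
    have e2 : √((1 / 25 - (a - 1) ^ 2) ^ 2 + 0 ^ 2) = -(1 / 25 - (a - 1) ^ 2) := by
      rw [show ((1 : ℝ) / 25 - (a - 1) ^ 2) ^ 2 + 0 ^ 2 = (-(1 / 25 - (a - 1) ^ 2)) ^ 2 by ring]
      exact Real.sqrt_sq (by nlinarith)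
    rw [e1, e2]
    ring
  have hf : ∀ k : ℝ, fac 0 a k = 0 := by
    intro k
    unfold fac
    rw [hp]
    simp
  have ha : axc 0 a = a := by
    unfold axc
    have e1 : √((a + 1 / 5) ^ 2 + 0 ^ 2) = a + 1 / 5 := by
      rw [show (a + 1 / 5) ^ 2 + (0 : ℝ) ^ 2 = (a + 1 / 5) ^ 2 by ring]
      exact Real.sqrt_sq (by linarith)
    have e2 : √((a - 6 / 5) ^ 2 + 0 ^ 2) = 6 / 5 - a := by
      rw [show (a - 6 / 5) ^ 2 + (0 : ℝ) ^ 2 = (6 / 5 - a) ^ 2 by ring]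
      exact Real.sqrt_sq (by linarith)
    rw [e1, e2]
    ring
  unfold sq bar
  simp only [hf, ha]
  simp

private theorem sq_fst_bas (s : ℝ) (x : R3) : sq 0 (s, x) = sq 0 (1 / 2, x) := by
  unfold sq
  simp

private theorem nsq_mm (q s : ℝ) : nsq (mm q s) = 1 := by
  unfold mm
  rw [Pool.Agent.Helper27.BI.m_ZNSQ]
  ring

private theorem mm_smooth : ContDiff ℝ ∞ (fun z : ℝ × ℝ => mm z.1 z.2) := by
  have hst : ContDiff ℝ ∞ (fun z : ℝ × ℝ => step (10 * z.2 - 9 / 2)) :=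
    Real.smoothTransition.contDiff.comp ((contDiff_const.mul contDiff_snd).sub contDiff_const)
  have hphi : ContDiff ℝ ∞ (fun z : ℝ × ℝ => phi (10 * z.2 - 9 / 2)) :=
    contDiff_const.mul hst
  have hchi : ContDiff ℝ ∞ (fun z : ℝ × ℝ => Pool.Agent.Helper27.BI.chi (10 * z.2 - 9 / 2)) :=
    (contDiff_const.sub (Real.contDiff_cos.comp hphi)).div_const _
  have hq : ContDiff ℝ ∞ (fun z : ℝ × ℝ => 2 * Real.pi * z.1) := contDiff_const.mul contDiff_fst
  have hq' : ContDiff ℝ ∞ (fun z : ℝ × ℝ => Real.pi * z.1) := contDiff_const.mul contDiff_fst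
  have h1 : ContDiff ℝ ∞ (fun z : ℝ × ℝ =>
      1 + Pool.Agent.Helper27.BI.chi (10 * z.2 - 9 / 2) * (Real.cos (2 * Real.pi * z.1) - 1)) :=
    contDiff_const.add (hchi.mul ((Real.contDiff_cos.comp hq).sub contDiff_const))
  have h2 : ContDiff ℝ ∞ (fun z : ℝ × ℝ =>
      -Real.sin (Real.pi * z.1) * Real.sin (phi (10 * z.2 - 9 / 2))) :=
    (Real.contDiff_sin.comp hq').neg.mul (Real.contDiff_sin.comp hphi)
  have h3 : ContDiff ℝ ∞ (fun z : ℝ × ℝ =>
      Pool.Agent.Helper27.BI.chi (10 * z.2 - 9 / 2) * Real.sin (2 * Real.pi * z.1)) :=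
    hchi.mul (Real.contDiff_sin.comp hq)
  have h4 : ContDiff ℝ ∞ (fun z : ℝ × ℝ =>
      ((-Real.sin (Real.pi * z.1) * Real.sin (phi (10 * z.2 - 9 / 2)) : ℝ) : ℂ) +
        ((Pool.Agent.Helper27.BI.chi (10 * z.2 - 9 / 2) * Real.sin (2 * Real.pi * z.1) : ℝ) : ℂ) * Complex.I) :=
    (Complex.ofRealCLM.contDiff.comp h2).add ((Complex.ofRealCLM.contDiff.comp h3).mul
      contDiff_const)
  have h5 := h1.prodMk h4
  refine (congrArg (ContDiff ℝ ∞) (funext fun z => ?_)).mp h5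
  unfold mm zarc
  refine Prod.ext rfl (Complex.ext ?_ ?_)
  · rw [Complex.add_re, Complex.ofReal_re, Complex.re_ofReal_mul, Complex.I_re, mul_zero, add_zero]
  · rw [Complex.add_im, Complex.ofReal_im, Complex.im_ofReal_mul, Complex.I_im, mul_one, zero_add]

private theorem fst_le_bas {m : R3} (hm : nsq m = 1) : m.1 ≤ 1 := by
  unfold nsq at hm
  nlinarith [sq_nonneg m.2.re, sq_nonneg m.2.im, sq_nonneg (m.1 - 1)]

private theorem mem_SP_bas (s r : ℝ) (m : R3) (hm : nsq m = 1) (h1 : 7 / 10 ≤ r)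
    (h2 : r ≤ 39 / 50) : sq 0 (s, r • m) ∈ SP := by
  apply hS4.1
  have h3 := fst_le_bas hm
  unfold nsq at hm
  refine ⟨?_, ?_⟩
  · show ((1 : ℝ) / 5) ^ 2 ≤ nsq _
    unfold nsq
    simp only [Prod.smul_fst, Prod.smul_snd, smul_eq_mul, Complex.real_smul, Complex.mul_re,
      Complex.mul_im, Complex.ofReal_re, Complex.ofReal_im, zero_mul, sub_zero, add_zero]
    nlinarith [mul_self_nonneg (r - 7 / 10)]
  · show ((1 : ℝ) / 5) ^ 2 ≤ nsq _
    unfold nsq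
    simp only [Prod.smul_fst, Prod.smul_snd, smul_eq_mul, Complex.real_smul, Complex.mul_re,
      Complex.mul_im, Complex.ofReal_re, Complex.ofReal_im, zero_mul, sub_zero, add_zero]
    have h4 : (r * m.1 - 1) ^ 2 + (r * m.2.re) ^ 2 + (r * m.2.im) ^ 2 =
        r ^ 2 - 2 * r * m.1 + 1 := by linear_combination r ^ 2 * hm
    rw [h4]
    nlinarith [mul_nonneg (by linarith : (0 : ℝ) ≤ r) (by linarith : (0 : ℝ) ≤ 1 - m.1)]

private theorem mem_neckE_bas (s r : ℝ) (m : R3) (hm : nsq m = 1) (h1 : 7 / 10 ≤ r)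
    (h2 : r ≤ 39 / 50) (h : r = 73 / 100 ∨ m = (1, 0)) (h3 : 3 / 5 ≤ 73 / 100 * m.1) :
    sq 0 (s, r • m) ∈ neckE := by
  have h4 := fst_le_bas hm
  have h5 : 3 / 5 ≤ r * m.1 ∧ r * m.1 ≤ 4 / 5 := by
    rcases h with h | h
    · rw [h]; exact ⟨h3, by linarith⟩
    · rw [h]; exact ⟨by simp; linarith, by simp; linarith⟩
  have e : ((s, r • m) : R4) = (s, (r * m.1, (r : ℝ) • m.2)) := rfl
  rw [e, sq_bar_bas _ _ _ (by linarith) h5.2]
  exact ⟨⟨rfl, by show (1 : ℝ) / 5 ≤ r * m.1; linarith, h5.2, rfl⟩, h5.1⟩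

private theorem nu_cont_bas : Continuous H.nu := by
  have h : ContinuousOn ((fun q : ℝ × R4 => sq q.1 q.2) ∘
      fun m : R3 => (((0 : ℝ), ((1 : ℝ) / 2, ((73 : ℝ) / 100) • m)) : ℝ × R4)) univ :=
    hS3.comp (by fun_prop) (fun m _ => ⟨self_mem_Ici, mem_univ _⟩)
  exact continuousOn_univ.1 h

private theorem near_bas {F : R4 → R4} (h : EmbOn 𝓘(ℝ, R4) F SP) :
    ∃ O : Set R4, IsOpen O ∧ SP ⊆ O ∧ ContDiffOn ℝ ∞ F O := by
  refine ⟨{p | IsLocalDiffeomorphAt 𝓘(ℝ, R4) 𝓘(ℝ, R4) ∞ F p}, ?_, fun p hp => h.1 p hp, ?_⟩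
  · rw [isOpen_iff_mem_nhds]
    rintro p ⟨Φ, hp, heq⟩
    exact Filter.mem_of_superset (Φ.open_source.mem_nhds hp) fun q hq => ⟨Φ, hq, heq⟩
  · intro p hp
    exact (contMDiffAt_iff_contDiffAt.1 (IsLocalDiffeomorphAt.contMDiffAt hp)).contDiffWithinAt

private theorem sphere_cpt : IsCompact {m : R3 | nsq m = 1} := by
  have hc : Continuous (fun m : R3 => nsq m) := by
    unfold nsq
    fun_prop
  refine (isCompact_closedBall (0 : R3) 1).of_isClosed_subset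
    (isClosed_singleton.preimage hc) ?_
  intro m hm
  have hm' : m.1 ^ 2 + m.2.re ^ 2 + m.2.im ^ 2 = 1 := hm
  rw [mem_closedBall_zero_iff, Prod.norm_def]
  refine max_le ?_ ?_
  · rw [Real.norm_eq_abs]
    exact abs_le_one_iff_mul_self_le_one.2 (by nlinarith [sq_nonneg m.2.re, sq_nonneg m.2.im])
  · have h2 : ‖m.2‖ ^ 2 ≤ 1 := by
      rw [← Complex.normSq_eq_norm_sq, Complex.normSq_apply]
      nlinarith [sq_nonneg m.1]
    nlinarith [norm_nonneg m.2]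

private theorem tube_bas {F : R4 → R4} {O U : Set R4} {T : Set (ℝ × ℝ × R3)} {δ : ℝ}
    (hO : IsOpen O) (hF : ContinuousOn F O) (hT : IsCompact T) (hU : IsOpen U)
    (hz : ∀ z ∈ T, sq 0 (z.1, z.2.1 • z.2.2) ∈ O)
    (hzU : ∀ z ∈ T, 3 / 5 ≤ 73 / 100 * z.2.2.1 → sq 0 (z.1, z.2.1 • z.2.2) ∈ U) (hδ : 0 < δ) :
    ∃ ε₀ > 0, ∀ ε ∈ Ioo 0 ε₀, ∀ z ∈ T, sq ε (z.1, z.2.1 • z.2.2) ∈ O ∧
      dist (F (sq ε (z.1, z.2.1 • z.2.2))) (F (sq 0 (z.1, z.2.1 • z.2.2))) < δ ∧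
      (3 / 5 ≤ 73 / 100 * z.2.2.1 → sq ε (z.1, z.2.1 • z.2.2) ∈ U) := by
  have hc : ContinuousOn (fun x : ℝ × (ℝ × ℝ × R3) => sq x.1 (x.2.1, x.2.2.1 • x.2.2.2))
      (Ici 0 ×ˢ univ) := by
    have h : ContinuousOn ((fun q : ℝ × R4 => sq q.1 q.2) ∘
        fun x : ℝ × (ℝ × ℝ × R3) => ((x.1, (x.2.1, x.2.2.1 • x.2.2.2)) : ℝ × R4))
        (Ici 0 ×ˢ univ) :=
      hS3.comp (by fun_prop) (fun x hx => ⟨hx.1, mem_univ _⟩)
    exact h
  have hc0 : ContinuousOn (fun x : ℝ × (ℝ × ℝ × R3) => sq 0 (x.2.1, x.2.2.1 • x.2.2.2))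
      (Ici 0 ×ˢ univ) := by
    have h : ContinuousOn ((fun q : ℝ × R4 => sq q.1 q.2) ∘
        fun x : ℝ × (ℝ × ℝ × R3) => (((0 : ℝ), (x.2.1, x.2.2.1 • x.2.2.2)) : ℝ × R4))
        (Ici 0 ×ˢ univ) :=
      hS3.comp (by fun_prop) (fun x hx => ⟨self_mem_Ici, mem_univ _⟩)
    exact h
  have key : ∀ᶠ ε in 𝓝 (0 : ℝ), ∀ z ∈ T, 0 ≤ ε → sq ε (z.1, z.2.1 • z.2.2) ∈ O ∧
      dist (F (sq ε (z.1, z.2.1 • z.2.2))) (F (sq 0 (z.1, z.2.1 • z.2.2))) < δ ∧
      (3 / 5 ≤ 73 / 100 * z.2.2.1 → sq ε (z.1, z.2.1 • z.2.2) ∈ U) := by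
    refine hT.eventually_forall_of_forall_eventually fun z hzT => ?_
    have hmem : ((0 : ℝ), z) ∈ Ici (0 : ℝ) ×ˢ (univ : Set (ℝ × ℝ × R3)) :=
      ⟨self_mem_Ici, mem_univ _⟩
    have t1 := hc (0, z) hmem
    have t0 := hc0 (0, z) hmem
    have hFa : ContinuousAt F (sq 0 (z.1, z.2.1 • z.2.2)) := hF.continuousAt (hO.mem_nhds (hz z hzT))
    have a1 : ∀ᶠ x in 𝓝[Ici (0 : ℝ) ×ˢ univ] ((0 : ℝ), z),
        sq x.1 (x.2.1, x.2.2.1 • x.2.2.2) ∈ O := t1.eventually (hO.mem_nhds (hz z hzT))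
    have a2 : ∀ᶠ x in 𝓝[Ici (0 : ℝ) ×ˢ univ] ((0 : ℝ), z),
        dist (F (sq x.1 (x.2.1, x.2.2.1 • x.2.2.2))) (F (sq 0 (x.2.1, x.2.2.1 • x.2.2.2))) < δ := by
      have b1 : Filter.Tendsto (fun x : ℝ × (ℝ × ℝ × R3) => F (sq x.1 (x.2.1, x.2.2.1 • x.2.2.2)))
          (𝓝[Ici (0 : ℝ) ×ˢ univ] ((0 : ℝ), z)) (𝓝 (F (sq 0 (z.1, z.2.1 • z.2.2)))) :=
        hFa.tendsto.comp t1
      have b0 : Filter.Tendsto (fun x : ℝ × (ℝ × ℝ × R3) => F (sq 0 (x.2.1, x.2.2.1 • x.2.2.2)))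
          (𝓝[Ici (0 : ℝ) ×ˢ univ] ((0 : ℝ), z)) (𝓝 (F (sq 0 (z.1, z.2.1 • z.2.2)))) :=
        hFa.tendsto.comp t0
      have b2 := b1.dist b0
      rw [dist_self] at b2
      exact b2.eventually_lt_const hδ
    have a3 : ∀ᶠ x in 𝓝[Ici (0 : ℝ) ×ˢ univ] ((0 : ℝ), z),
        (3 / 5 ≤ 73 / 100 * x.2.2.2.1 → sq x.1 (x.2.1, x.2.2.1 • x.2.2.2) ∈ U) := by
      by_cases h : 3 / 5 ≤ 73 / 100 * z.2.2.1
      · exact (t1.eventually (hU.mem_nhds (hzU z hzT h))).mono fun x hx _ => hx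
      · rw [not_le] at h
        have hcc : Continuous (fun x : ℝ × (ℝ × ℝ × R3) => 73 / 100 * x.2.2.2.1) := by fun_prop
        have := (hcc.tendsto (0, z)).eventually_lt_const h
        refine (this.filter_mono nhdsWithin_le_nhds).mono fun x hx hx' => ?_
        exact absurd hx' (not_le.2 hx)
    have a4 := (a1.and (a2.and a3))
    rw [eventually_nhdsWithin_iff] at a4
    exact a4.mono fun x hx h0 => hx ⟨h0, mem_univ _⟩
  obtain ⟨ε₀, h0, h1⟩ := Metric.eventually_nhds_iff.1 key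
  refine ⟨ε₀, h0, fun ε hε z hz' => h1 ?_ z hz' hε.1.le⟩
  rw [Real.dist_eq, sub_zero, abs_of_pos hε.1]
  exact hε.2

private theorem axc_lt_bas (a : ℝ) (h2 : a ≤ 73 / 100) : axc 0 a < 4 / 5 := by
  unfold axc
  have e2 : √((a - 6 / 5) ^ 2 + 0 ^ 2) = 6 / 5 - a := by
    rw [show (a - 6 / 5) ^ 2 + (0 : ℝ) ^ 2 = (6 / 5 - a) ^ 2 by ring]
    exact Real.sqrt_sq (by linarith)
  have e1 : √((a + 1 / 5) ^ 2 + 0 ^ 2) ≤ 83 / 50 - a := by
    rw [show (a + 1 / 5) ^ 2 + (0 : ℝ) ^ 2 = (a + 1 / 5) ^ 2 by ring]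
    exact Real.sqrt_le_iff.2 ⟨by linarith, by nlinarith⟩
  rw [e2]
  linarith

private theorem nu_not_bas (m : R3) (hm : nsq m = 1) : nu m ∉ sph 1 := by
  intro h
  have h1 : rsq 1 (nu m) = 1 / 25 := h.2
  have h2 : (nu m).2.1 < 4 / 5 := by
    have e : (nu m).2.1 = axc 0 (73 / 100 * m.1) := by
      unfold H.nu sq
      simp
    rw [e]
    exact axc_lt_bas _ (by linarith [fst_le_bas hm])
  unfold rsq nsq at h1
  simp only at h1
  nlinarith [sq_nonneg (nu m).2.2.re, sq_nonneg (nu m).2.2.im]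

private theorem fin_bas {x z w : R4} {r : ℝ} (h1 : dist x z ≤ r / 8) (h2 : dist x w < r / 2)
    (h3 : r < dist z w) (hr : 0 < r) : False := by
  have h4 : dist z w ≤ dist z x + dist x w := dist_triangle _ _ _
  rw [dist_comm z x] at h4
  linarith

end BAS

open BAS in
theorem m_BAS : StBAS := by
  intro F F' V hF hF' hV hsV hEq
  obtain ⟨O', hO', hSO', hFO'⟩ := near_bas hF'
  obtain ⟨O, hO, hSO, hFO⟩ := near_bas hF
  have hSPs : sph 1 ⊆ SP := fun p hp => Or.inl (Or.inr hp)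
  -- the distance to the fixed cuff
  have hKc : IsCompact (F '' sph 1) := by
    have h1 : IsClosed (sph 1) := by
      have hc : Continuous (fun p : R4 => rsq 1 p) := by
        unfold rsq nsq
        fun_prop
      exact (isClosed_singleton.preimage continuous_fst).inter (isClosed_singleton.preimage hc)
    have h2 : IsCompact (sph 1) := hS4.2.2.2.2.2.2.2.2.1.of_isClosed_subset h1 hSPs
    exact h2.image_of_continuousOn (hFO.continuousOn.mono (hSPs.trans hSO))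
  have hnuS : ∀ m, nsq m = 1 → nu m ∈ SP := fun m hm =>
    mem_SP_bas _ _ _ hm (by norm_num) (by norm_num)
  have hNcont : ContinuousOn (fun m => F' (nu m)) {m : R3 | nsq m = 1} :=
    hFO'.continuousOn.comp nu_cont_bas.continuousOn fun m hm => hSO' (hnuS m hm)
  have hNi : IsCompact ((fun m => F' (nu m)) '' {m : R3 | nsq m = 1}) :=
    sphere_cpt.image_of_continuousOn hNcont
  have hdis : Disjoint ((fun m => F' (nu m)) '' {m : R3 | nsq m = 1}) (F '' sph 1) := by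
    rw [Set.disjoint_left]
    rintro y ⟨m, hm, rfl⟩ ⟨p, hp, h3⟩
    have h4 : F' p = F' (nu m) := by
      rw [← hEq (hsV (Or.inl hp))]
      exact h3
    have h5 : p = nu m := hF'.2 (hSPs hp) (hnuS m hm) h4
    exact nu_not_bas m hm (h5 ▸ hp)
  obtain ⟨r, hr0, hr⟩ := Metric.exists_pos_forall_lt_edist hNi hKc.isClosed hdis
  have hκ : ∀ m, nsq m = 1 → ∀ y ∈ F '' sph 1, (r : ℝ) < dist (F' (nu m)) y := by
    intro m hm y hy
    have h1 := hr _ ⟨m, hm, rfl⟩ y hy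
    rw [edist_nndist] at h1
    exact_mod_cast h1
  have hr0' : (0 : ℝ) < r := by exact_mod_cast hr0
  -- the tube
  let T : Set (ℝ × ℝ × R3) := {z | z.1 ∈ Icc (3 / 10 : ℝ) (7 / 10) ∧ z.2.1 = 73 / 100 ∧ nsq z.2.2 = 1}
  have hT : IsCompact T := by
    refine (isCompact_Icc.prod ((isCompact_singleton (x := (73 : ℝ) / 100)).prod
      sphere_cpt)).of_isClosed_subset (s := Icc (3 / 10 : ℝ) (7 / 10) ×ˢ ({(73 : ℝ) / 100} ×ˢ
        {m : R3 | nsq m = 1})) ?_ (fun z hz => ⟨hz.1, hz.2.1, hz.2.2⟩)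
    have c1 : IsClosed {z : ℝ × ℝ × R3 | z.1 ∈ Icc (3 / 10 : ℝ) (7 / 10)} :=
      isClosed_Icc.preimage continuous_fst
    have c3 : IsClosed {z : ℝ × ℝ × R3 | nsq z.2.2 = 1} :=
      sphere_cpt.isClosed.preimage (by fun_prop : Continuous fun z : ℝ × ℝ × R3 => z.2.2)
    have c4 : IsClosed {z : ℝ × ℝ × R3 | z.2.1 = 73 / 100} :=
      isClosed_singleton.preimage (by fun_prop : Continuous fun z : ℝ × ℝ × R3 => z.2.1)
    exact c1.inter (c4.inter c3)
  have hTS : ∀ z ∈ T, sq 0 (z.1, z.2.1 • z.2.2) ∈ SP := fun z hz =>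
    mem_SP_bas _ _ _ hz.2.2 (by rw [hz.2.1]; norm_num) (by rw [hz.2.1]; norm_num)
  have hTN : ∀ z ∈ T, 3 / 5 ≤ 73 / 100 * z.2.2.1 → sq 0 (z.1, z.2.1 • z.2.2) ∈ V :=
    fun z hz h => hsV (Or.inr (mem_neckE_bas _ _ _ hz.2.2 (by rw [hz.2.1]; norm_num)
      (by rw [hz.2.1]; norm_num) (Or.inl hz.2.1) h))
  obtain ⟨ε₂, hε₂, hB⟩ := tube_bas (δ := r / 8) hO' hFO'.continuousOn hT hV
    (fun z hz => hSO' (hTS z hz)) hTN (by linarith)
  refine ⟨r / 2, by linarith, ε₂, hε₂, fun ε hε D hm₀ hm₁ hDc hDU => ?_⟩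
  have hεp : 0 < ε := hε.1
  replace hB := hB ε hε
  have hsq : ContDiff ℝ ∞ (sq ε) := by
    have h := hS2.2.2.2.comp (s := univ) (g := fun q : ℝ × R4 => sq q.1 q.2)
      (f := fun p : R4 => (ε, p)) (contDiff_const.prodMk contDiff_id).contDiffOn
      (fun p _ => ⟨hεp, mem_univ _⟩)
    exact contDiffOn_univ.1 h
  -- facts on the arcs
  have hO1 : ∀ s ∈ Icc (3 / 10 : ℝ) (7 / 10), ∀ m, nsq m = 1 → sq ε (s, (73 / 100 : ℝ) • m) ∈ O' :=
    fun s hs m hm => (hB (s, 73 / 100, m) ⟨hs, rfl, hm⟩).1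
  have hd1 : ∀ s ∈ Icc (3 / 10 : ℝ) (7 / 10), ∀ m, nsq m = 1 →
      dist (F' (sq ε (s, (73 / 100 : ℝ) • m))) (F' (nu m)) < r / 8 := by
    intro s hs m hm
    have h := (hB (s, 73 / 100, m) ⟨hs, rfl, hm⟩).2.1
    have e : nu m = sq 0 (s, (73 / 100 : ℝ) • m) := (sq_fst_bas _ _).symm
    rw [e]
    exact h
  have hn1 : nsq ((1, 0) : R3) = 1 := by
    unfold nsq
    simp
  have hDc' : ∀ s ∈ Icc (3 / 10 : ℝ) (7 / 10),
      F' (sq ε (s, (73 / 100 : ℝ) • ((1, 0) : R3))) = D.c s := by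
    intro s hs
    have h := (hB (s, 73 / 100, (1, 0)) ⟨hs, rfl, hn1⟩).2.2 (by norm_num)
    rw [hDc s hs, ← hEq h, smul_e]
  have hbp : F' (nu (1, 0)) = bp F := by
    have e : nu ((1, 0) : R3) = bar (73 / 100) := by
      unfold H.nu
      rw [smul_e]
      exact sq_bar_bas _ _ _ (by norm_num) (by norm_num)
    rw [e]
    unfold bp
    exact (hEq (hsV (Or.inr ⟨⟨rfl, by show (1 : ℝ) / 5 ≤ 73 / 100; norm_num,
      by show (73 : ℝ) / 100 ≤ 4 / 5; norm_num, rfl⟩, by show (3 : ℝ) / 5 ≤ 73 / 100; norm_num⟩))).symm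
  have hcout : ∀ q s, (s ≤ 9 / 20 ∨ 11 / 20 ≤ s) → loopF F' (3 / 10) (7 / 10) ε D q s = D.c s := by
    intro q s hs
    unfold loopF
    split_ifs with h
    · rw [mm_edge q s hs]
      exact hDc' s h
    · rfl
  have hcend : ∀ q s, (q = 0 ∨ q = 1) → loopF F' (3 / 10) (7 / 10) ε D q s = D.c s := by
    intro q s hq
    unfold loopF
    split_ifs with h
    · rw [mm_ends q s hq]
      exact hDc' s h
    · rfl
  have hcin : ∀ q, ∀ s ∈ Icc (3 / 10 : ℝ) (7 / 10), loopF F' (3 / 10) (7 / 10) ε D q s =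
      F' (sq ε (s, (73 / 100 : ℝ) • mm q s)) := by
    intro q s hs
    unfold loopF
    exact if_pos hs
  have hmid : ∀ s ∈ Icc D.m₀ D.m₁, s ∈ Icc (3 / 10 : ℝ) (7 / 10) := by
    intro s hs
    rw [hm₀, hm₁] at hs
    exact ⟨by linarith [hs.1], by linarith [hs.2]⟩
  have hU : ∀ m, nsq m = 1 → ∀ x, dist x (F' (nu m)) ≤ r / 8 → x ∈ D.U := by
    intro m hm x hx
    by_contra h
    obtain ⟨y, hy, hxy⟩ := hDU x h
    exact fin_bas hx hxy (hκ m hm y hy) hr0'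
  have hsm : ContDiff ℝ ∞ (fun z : ℝ × ℝ => loopF F' (3 / 10) (7 / 10) ε D z.1 z.2) := by
    rw [contDiff_iff_contDiffAt]
    intro z
    have hout : ∀ W : Set ℝ, IsOpen W → z.2 ∈ W → (∀ s ∈ W, s ≤ 9 / 20 ∨ 11 / 20 ≤ s) →
        ContDiffAt ℝ ∞ (fun z : ℝ × ℝ => loopF F' (3 / 10) (7 / 10) ε D z.1 z.2) z := by
      intro W hW hzW hWs
      have h1 : ContDiffAt ℝ ∞ (fun z : ℝ × ℝ => D.c z.2) z :=
        (D.smooth.comp contDiff_snd).contDiffAt
      refine h1.congr_of_eventuallyEq ?_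
      filter_upwards [(hW.preimage continuous_snd).mem_nhds hzW] with y hy
      exact hcout _ _ (hWs _ hy)
    rcases lt_or_ge z.2 (9 / 20) with h | h
    · exact hout (Iio (9 / 20)) isOpen_Iio h fun s hs => Or.inl (le_of_lt hs)
    rcases lt_or_ge (11 / 20) z.2 with h' | h'
    · exact hout (Ioi (11 / 20)) isOpen_Ioi h' fun s hs => Or.inr (le_of_lt hs)
    have hin : ContDiff ℝ ∞ (fun x : ℝ × ℝ => sq ε (x.2, (73 / 100 : ℝ) • mm x.1 x.2)) :=
      hsq.comp (contDiff_snd.prodMk (ContDiff.smul (f := fun _ : ℝ × ℝ => (73 / 100 : ℝ)) contDiff_const mm_smooth))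
    have h1 : sq ε (z.2, (73 / 100 : ℝ) • mm z.1 z.2) ∈ O' :=
      hO1 _ ⟨by linarith, by linarith⟩ _ (nsq_mm _ _)
    have h2 : ContDiffAt ℝ ∞ (fun x : ℝ × ℝ => F' (sq ε (x.2, (73 / 100 : ℝ) • mm x.1 x.2))) z :=
      (hFO'.contDiffAt (hO'.mem_nhds h1)).comp z hin.contDiffAt
    refine h2.congr_of_eventuallyEq ?_
    have h3 : z.2 ∈ Ioo (3 / 10 : ℝ) (7 / 10) := ⟨by linarith, by linarith⟩
    filter_upwards [(isOpen_Ioo.preimage continuous_snd).mem_nhds h3] with y hy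
    exact hcin _ _ ⟨le_of_lt hy.1, le_of_lt hy.2⟩
  refine ⟨⟨hsm, ?_, ?_, fun s => hcend 0 s (Or.inl rfl), fun s => hcend 1 s (Or.inr rfl)⟩, ?_⟩
  · intro q _ s hs
    rw [hm₀, hm₁] at hs
    exact hcout q s hs
  · intro q _ s hs
    rw [hcin q s (hmid s hs)]
    exact hU _ (nsq_mm q s) _ (hd1 s (hmid s hs) _ (nsq_mm q s)).le
  · have hmmc : Continuous (fun x : ℝ × ℝ => mm x.1 x.2) := mm_smooth.continuous
    have hNc : Continuous (fun x : ℝ × ℝ => F' (nu (mm x.1 x.2))) := continuousOn_univ.1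
      (hFO'.continuousOn.comp (nu_cont_bas.comp hmmc).continuousOn
        fun x _ => hSO' (hnuS _ (nsq_mm _ _)))
    refine ⟨fun z => (1 - z.1) • loopF F' (3 / 10) (7 / 10) ε D z.2.1 z.2.2 +
      z.1 • shp D (bp F) (fun q s => F' (nu (mm q s))) z.2.1 z.2.2, ?_, ?_, ?_⟩
    · refine Continuous.continuousOn ?_
      have h1 : Continuous (fun z : ℝ × ℝ × ℝ => loopF F' (3 / 10) (7 / 10) ε D z.2.1 z.2.2) :=
        hsm.continuous.comp continuous_snd
      have h2 : Continuous (fun z : ℝ × ℝ × ℝ =>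
          shp D (bp F) (fun q s => F' (nu (mm q s))) z.2.1 z.2.2) := by
        unfold shp
        have h3 : Continuous (fun z : ℝ × ℝ × ℝ => D.c z.2.2) :=
          D.smooth.continuous.comp (continuous_snd.comp continuous_snd)
        have h4 : Continuous (fun z : ℝ × ℝ × ℝ => F' (nu (mm z.2.1 z.2.2))) :=
          hNc.comp continuous_snd
        exact h4.add (h3.sub continuous_const)
      exact ((continuous_const.sub continuous_fst).smul h1).add (continuous_fst.smul h2)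
    · intro q _ s _
      constructor
      · show (1 - (0 : ℝ)) • loopF F' (3 / 10) (7 / 10) ε D q s + (0 : ℝ) • _ = _
        rw [zero_smul, sub_zero, one_smul, add_zero]
      · show (1 - (1 : ℝ)) • loopF F' (3 / 10) (7 / 10) ε D q s + (1 : ℝ) • _ = _
        rw [sub_self, zero_smul, one_smul, zero_add]
    · intro u hu q _ s hs
      have hs' := hmid s hs
      constructor
      · refine hU _ (nsq_mm q s) _ ?_
        have e : (1 - u) • loopF F' (3 / 10) (7 / 10) ε D q s +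
            u • shp D (bp F) (fun q s => F' (nu (mm q s))) q s - F' (nu (mm q s)) =
            (1 - u) • (F' (sq ε (s, (73 / 100 : ℝ) • mm q s)) - F' (nu (mm q s))) +
              u • (D.c s - bp F) := by
          rw [hcin q s hs']
          unfold shp
          module
        have h1 : ‖F' (sq ε (s, (73 / 100 : ℝ) • mm q s)) - F' (nu (mm q s))‖ ≤ r / 8 := by
          rw [← dist_eq_norm]
          exact (hd1 s hs' _ (nsq_mm q s)).le
        have h2 : ‖D.c s - bp F‖ ≤ r / 8 := by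
          rw [← dist_eq_norm, ← hDc' s hs', ← hbp]
          exact (hd1 s hs' _ hn1).le
        show dist ((1 - u) • loopF F' (3 / 10) (7 / 10) ε D q s +
            u • shp D (bp F) (fun q s => F' (nu (mm q s))) q s) (F' (nu (mm q s))) ≤ r / 8
        rw [dist_eq_norm, e]
        refine (norm_add_le _ _).trans ?_
        have h3 : (0 : ℝ) ≤ 1 - u := by linarith [hu.2]
        rw [norm_smul, norm_smul, Real.norm_of_nonneg hu.1, Real.norm_of_nonneg h3]
        have h4 := mul_le_mul_of_nonneg_left h1 h3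
        have h5 := mul_le_mul_of_nonneg_left h2 hu.1
        linarith
      · intro hb
        have h1 : mm q s = (1, 0) := by
          rcases hb with h | h | h | h
          · exact mm_ends q s (Or.inl h)
          · exact mm_ends q s (Or.inr h)
          · exact mm_edge q s (Or.inl (by rw [h, hm₀]))
          · exact mm_edge q s (Or.inr (by rw [h, hm₁]))
        show (1 - u) • loopF F' (3 / 10) (7 / 10) ε D q s +
            u • shp D (bp F) (fun q s => F' (nu (mm q s))) q s = D.c s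
        rw [hcin q s hs']
        unfold shp
        simp only
        rw [h1, hDc' s hs', hbp]
        module

end Pool.Agent.Helper18.BI.R


end
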