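import Pool.Agent.Helper65.Barb.Defs
import Pool.Agent.Helper70.BI.C.P35
import Pool.Agent.Helper70.BI.C.P42
import Pool.Agent.Helper70.BI.C.P46
import Pool.Agent.Helper70.BI.C.P47
import Pool.Agent.Helper70.BI.C.P57
import Pool.Agent.Helper70.BI.C.P59
import Pool.Agent.Helper70.BI.C.P60
import Pool.Agent.Helper70.BI.C.P62
import Pool.Agent.Helper70.BI.C.P65

/-!
# Project BI (MP_8e98f2_gt): collected modules, part 66

The contents of the modules
* Helper34.BI.H.AsmCross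
* Helper18.BI.H.AsmF3
* Helper27.BI.R.AsmR
* Helper27.BI.R.M_PAR4
* Helper18.BI.R.AsmR4
* Helper18.BI.R.AsmR5
* Helper18.BI.R.AsmR6
* Helper18.BI.S5.Asm8

in one file, so that the whole proof builds in a short time.
-/

namespace Pool.Agent.Helper18.BI
end Pool.Agent.Helper18.BI

namespace Pool.Agent.Helper18.BI.H
end Pool.Agent.Helper18.BI.H

namespace Pool.Agent.Helper18.BI.R
end Pool.Agent.Helper18.BI.R

namespace Pool.Agent.Helper27.H
end Pool.Agent.Helper27.H

namespace Pool.Agent.Helper65.Barb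
end Pool.Agent.Helper65.Barb

namespace Pool.Agent.Helper70.BI
end Pool.Agent.Helper70.BI


/-! ## Helper34.BI.H.AsmCross -/

section

/-!
# Project BI, stage 3: the crossing lemma, unconditionally
-/

set_option autoImplicit false

namespace Pool.Agent.Helper34.BI.H

open Pool.Agent.Helper27.H (hCH4 hFRAME hTHK hPhi)

theorem hCIRC : StCIRC := m_CIRC Pool.Agent.Helper27.BI.hCh Pool.Agent.Helper27.BI.hSpin
theorem hTPU : StTPU := m_TPU
theorem hSQ5 : StSQ5 := m_SQ5 hCH4 hTHK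
theorem hM5 : StM5 := m_M5 hTPU hCIRC hCH4 hFRAME hTHK
theorem hXG5 : StXG5 := m_XG5
theorem hPHT : StPHT := m_PHT hTPU
theorem hL5 : StL5 := m_L5 (m_XL m_OPA)

/-- the crossing lemma -/
theorem hCROSS : Pool.Agent.Helper27.H.StCROSS :=
  Cross.m_CROSS hCH4 hFRAME hTHK hPhi hSQ5 hM5 hXG5 hPHT hL5

end Pool.Agent.Helper34.BI.H


end

/-! ## Helper18.BI.H.AsmF3 -/

section

/-!
# Project BI, stage 3 (H): assembly
-/

set_option autoImplicit false

open Pool.Agent.Helper18.BI Pool.Agent.Helper65.Barb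
open Pool.Agent.Helper70.BI (hMain2 hW4 hX2c hEI hR3real hMWL exists_isW')

namespace Pool.Agent.Helper18.BI.H

theorem hSML : Pool.Agent.Helper70.H.StSML :=
  Pool.Agent.Helper70.H.m_SML Pool.Agent.Helper70.BI.hPT

theorem hGLL : Pool.Agent.Helper70.H.StGLL :=
  Pool.Agent.Helper70.H.m_GLL hSML Pool.Agent.Helper70.BI.hGL

theorem hLOCL : Pool.Agent.Helper70.H.StLOCL := Pool.Agent.Helper70.H.m_LOCL hSML hGLL

theorem hNORM : Pool.Agent.Helper27.H.StNORM :=
  Pool.Agent.Helper70.H.m_NORM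
    (Pool.Agent.Helper70.H.m_NCT (Pool.Agent.Helper70.H.m_CEN hLOCL) Pool.Agent.Helper70.BI.hCL
      Pool.Agent.Helper70.BI.hFam Pool.Agent.Helper70.BI.hDET hA1)
    (Pool.Agent.Helper70.H.m_SLD Pool.Agent.Helper70.BI.hRM hA1) Pool.Agent.Helper70.BI.hFam hMain2

/-- the homotopy theorem for loops of arcs -/
theorem hArcH : Pool.Agent.Helper27.H.StArcH :=
  Pool.Agent.Helper27.H.hArcH_of Pool.Agent.Helper34.BI.H.hCROSS Pool.Agent.Helper27.H.m_CUM hNORM

theorem hHMain : StHMain :=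
  m_HMain m_STR Pool.Agent.Helper34.BI.H.m_BAR m_TOP m_SM hHATn hArcH hMain2 hT2 hCI

/-- **the main theorem of stage 3** -/
theorem hFinal3 : StFinal3 := by
  obtain ⟨W, hW⟩ := exists_isW'
  have hHC : StHC := m_HC hHMain hMWL
  have hNULC : StNULC := m_NULC hHC m_NUL hT2 hCI Pool.Agent.Helper27.BI.hR2sw
  exact m_F3 hW4 hHC hNULC Pool.Agent.Helper34.BI.H.m_SMH hR3real hA1 hS4 hT2 hT4 hX1 hX2c hX3 hEI
    hCI hW

end Pool.Agent.Helper18.BI.H


end

/-! ## Helper27.BI.R.AsmR -/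

section

/-!
# Project BI, stage 4 (R): the modules MULT, INV, PAR, and the cusp family, unconditionally
-/

set_option autoImplicit false

namespace Pool.Agent.Helper27.R

open Pool.Agent.Helper27.H

theorem hMULT : Pool.Agent.Helper18.BI.R.StMULT := m_MULT hCH4 hFRAME hTHK hPhi
theorem hINV : Pool.Agent.Helper18.BI.R.StINV :=
  m_INV hCH4 hFRAME hTHK hPhi Pool.Agent.Helper18.BI.hCI
theorem hCUSP : StCUSP := m_CUT m_CUM

/-- **PAR**, from the crossing lemma, the normalization and the homotopy theorem -/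
theorem hPAR_of (hCROSS : StCROSS) (hNORM : StNORM)
    (hHMain : Pool.Agent.Helper18.BI.H.StHMain) : StPAR :=
  m_PAR hCls hCROSS hCUSP hNORM hHMain

/-- the homotopy theorem for loops of arcs, from the crossing lemma and the normalization -/
theorem hArcH_of' (hCROSS : StCROSS) (hNORM : StNORM) : StArcH :=
  hArcH_of hCROSS m_CUM hNORM

end Pool.Agent.Helper27.R


end

/-! ## Helper27.BI.R.M_PAR4 -/

section

/-!
# Project BI, stage 4 (R), module PAR4
-/

set_option autoImplicit false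

open scoped Manifold ContDiff Topology ComplexConjugate
open Set Filter Pool.Agent.Helper65.Barb Pool.Agent.Helper18.BI
open Pool.Agent.Helper70.BI (I4 IsW)
open Pool.Agent.Helper27.H

namespace Pool.Agent.Helper27.R

theorem m_PAR4 (h : StPAR) : Pool.Agent.Helper18.BI.R.StPAR4 := by
  intro F W hW hF r hr
  obtain ⟨η₀, hη₀, hh⟩ := h F W hW
    (Pool.Agent.Helper27.BI.EmbOn.mono hF fun p hp => Or.inl (Or.inr hp))
  have hm : 0 < min η₀ r := lt_min hη₀ hr
  have h1 : min η₀ r / 2 < min η₀ r := by linarith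
  obtain ⟨F', U, hF', hU, hs, hE, hp, hc⟩ := hh (min η₀ r / 2)
    ⟨by positivity, h1.trans_le (min_le_left _ _)⟩
  obtain ⟨φ, hφ⟩ := exists_thin hF'
  refine ⟨min η₀ r / 2, ⟨by positivity, h1.trans_le (min_le_right _ _)⟩, F', φ, U, hF', hU, hs, hE,
    hφ, hc φ hφ, fun p hp' => ?_⟩
  obtain ⟨s, x⟩ := p
  have hs' : s = 1 / 2 := hp'.1
  subst hs'
  rw [hp x hp']
  congr 1
  refine Prod.ext rfl (Prod.ext rfl ?_)
  show x.2 + 0 = x.2
  rw [add_zero]

/-- the homotopy theorem for loops of arcs, from the normalization -/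
theorem hArcH'' (hNORM : StNORM) : StArcH := hArcH_of' Pool.Agent.Helper34.BI.H.hCROSS hNORM

/-- **PAR4** -/
theorem hPAR4_of (hNORM : StNORM) (hHMain : Pool.Agent.Helper18.BI.H.StHMain) :
    Pool.Agent.Helper18.BI.R.StPAR4 :=
  m_PAR4 (hPAR_of Pool.Agent.Helper34.BI.H.hCROSS hNORM hHMain)

end Pool.Agent.Helper27.R


end

/-! ## Helper18.BI.R.AsmR4 -/

section

/-!
# Project BI, stage 4 (R): assembly
-/

set_option autoImplicit false

open Pool.Agent.Helper18.BI Pool.Agent.Helper65.Barb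
open Pool.Agent.Helper70.BI (hMain2 hW4 hX2c hEI hR3real hMWL exists_isW')
open Pool.Agent.Helper18.BI.H (hArcH hHMain hNORM hHATn)

namespace Pool.Agent.Helper18.BI.R

theorem hHCL : StHCL :=
  m_HCL Pool.Agent.Helper27.R.hMULT Pool.Agent.Helper27.R.hINV Pool.Agent.Helper34.BI.R.m_SMG
    Pool.Agent.Helper27.H.hCls hArcH hCI

theorem hFREE : StFREE := m_FREE Pool.Agent.Helper34.BI.H.m_BAR hMain2 m_TOPG hT2

theorem hREL4 : StREL4 :=
  m_REL4 m_STR2 m_MOVE hFREE hHATn m_BAS m_NRB hHCL hMWL hT2 hCI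

theorem hREP : StREP :=
  m_REP Pool.Agent.Helper34.BI.R.m_LIP Pool.Agent.Helper34.BI.R.m_DIM m_MQ m_EVM

theorem hRelS : StRelS :=
  m_RELS hREL4 hREP (m_WRD m_MQ) m_EVM hW4 hEI hX2c hR3real hA1 hS4 hX1 hX3 hT2 hCI

theorem hPAR4 : StPAR4 := Pool.Agent.Helper27.R.hPAR4_of hNORM hHMain

/-- **the main theorem of stage 4** -/
theorem hFinal4 : StFinal4 := by
  obtain ⟨W, hW⟩ := exists_isW'
  exact m_FIN4 (m_PARS hPAR4 hEI hX2c hX1 hX3 hT4 hS4 hCI) hRelS hT4 hT2 hCI hW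

end Pool.Agent.Helper18.BI.R


end

/-! ## Helper18.BI.R.AsmR5 -/

section

/-!
# Project BI, stage 4 (R): assembly of the final theorem
-/

set_option autoImplicit false

open Pool.Agent.Helper18.BI Pool.Agent.Helper65.Barb
open Pool.Agent.Helper70.BI (hMain2 hW4 hX2c hEI hR3real hMWL exists_isW')
open Pool.Agent.Helper18.BI.H (hArcH hHMain hNORM hHATn m_HC m_NULC m_NUL StNULC)

namespace Pool.Agent.Helper18.BI.R

theorem hEXC : StEXC := m_EXC m_HEP m_MQ

theorem hNULC : StNULC :=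
  m_NULC (m_HC hHMain hMWL) m_NUL hT2 hCI Pool.Agent.Helper27.BI.hR2sw

/-- the main theorem of stage 4, final form, from the statement on unknotted spheres -/
theorem hFinal5_of (hUNK : StUNK) : StFinal5 := by
  obtain ⟨W, hW⟩ := exists_isW'
  exact m_FIN5 (m_PARS hPAR4 hEI hX2c hX1 hX3 hT4 hS4 hCI) hRelS
    (m_NULS hNULC Pool.Agent.Helper34.BI.H.m_SMH hS4 hT2 hT4 hX1 hX2c hX3 hEI hCI) hEXC hUNK
    Pool.Agent.Helper27.BI.hR2sw hT4 hT2 hCI hW

end Pool.Agent.Helper18.BI.R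


end

/-! ## Helper18.BI.R.AsmR6 -/

section

/-!
# Project BI, stage 4 (R): the final theorem, unconditional
-/

set_option autoImplicit false

namespace Pool.Agent.Helper18.BI.R

theorem hUNK : StUNK := m_UNK Pool.Agent.Helper70.BI.hLOC

theorem hFinal5 : StFinal5 := hFinal5_of hUNK

end Pool.Agent.Helper18.BI.R


end

/-! ## Helper18.BI.S5.Asm8 -/

section

/-!
# Project BI, stage 5: assembly of the final theorem from the crossing lemma
-/

set_option autoImplicit false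

open Pool.Agent.Helper18.BI Pool.Agent.Helper65.Barb
open Pool.Agent.Helper70.BI (hMain2 hW4 hX2c hEI hR3real hMWL exists_isW')
open Pool.Agent.Helper18.BI.H (hArcH hHMain hNORM)
open Pool.Agent.Helper18.BI.R

namespace Pool.Agent.Helper18.BI.S5

theorem hEX : StEX := m_EX m_SQS m_GP1 Pool.Agent.Helper27.H.hCls

theorem hDRIFT_of (hCRL : Pool.Agent.Helper34.S5.StCRL) : StDRIFT :=
  Pool.Agent.Helper34.S5.m_DRIFT hHCL hT2 hCI hEX hCRL

theorem hRelS6_of (hCRL : Pool.Agent.Helper34.S5.StCRL) : StRelS6 :=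
  m_RELS6 (m_REL6 m_STR2 m_MOVE hFREE m_HATK m_BAS m_NRB hHCL hEX (hDRIFT_of hCRL) hMWL hT2 hCI)
    hREP (m_WRD m_MQ) m_EVM hW4 hEI hX2c hR3real hA1 hS4 hX1 hX3 hT2 hCI

/-- the main theorem of stage 5, from the crossing lemma -/
theorem hFinal8_of (hCRL : Pool.Agent.Helper34.S5.StCRL) : StFinal8 := by
  obtain ⟨W, hW⟩ := exists_isW'
  exact m_FIN8 (m_PARS hPAR4 hEI hX2c hX1 hX3 hT4 hS4 hCI) (hRelS6_of hCRL)
    (m_NULS hNULC Pool.Agent.Helper34.BI.H.m_SMH hS4 hT2 hT4 hX1 hX2c hX3 hEI hCI) hEXC hUNK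
    Pool.Agent.Helper34.BI.R.m_LIP Pool.Agent.Helper27.BI.hR2sw hT4 hT2 hCI hW

/-- the main theorem of stage 5, from the nice form of the crossing lemma -/
theorem hFinal8_of_CRN (hCRN : Pool.Agent.Helper34.S5.StCRN) : StFinal8 :=
  hFinal8_of (Pool.Agent.Helper34.S5.m_CRL hHCL hT2 hCI hEX hCRN)

end Pool.Agent.Helper18.BI.S5


end
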