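import Pool.Agent.Helper65.Barb.Defs
import Pool.Agent.Helper70.BI.C.Q01

/-!
# Project BI (MP_8e98f2_gt): collected modules, part Q02

The contents of the modules
* Helper34.BX.M_AR1a
* Helper34.BX.M_AR1b
* Helper34.BX.M_AR2

in one file, so that the whole proof builds in a short time.
-/

namespace Pool.Agent.Helper18.BI
end Pool.Agent.Helper18.BI

namespace Pool.Agent.Helper27.BI
end Pool.Agent.Helper27.BI

namespace Pool.Agent.Helper34.BI
end Pool.Agent.Helper34.BI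

namespace Pool.Agent.Helper65.Barb
end Pool.Agent.Helper65.Barb

namespace Pool.Agent.Helper70.BI
end Pool.Agent.Helper70.BI


/-! ## Helper34.BX.M_AR1a -/

section

/-! # Project BX, module AR1a: elementary facts on the model arcs -/

set_option autoImplicit false

open scoped Manifold ContDiff Topology ComplexConjugate
open Set Filter Pool.Agent.Helper65.Barb Pool.Agent.Helper18.BI

namespace Pool.Agent.Helper34.BX

open Pool.Agent.Helper34.BI
open Pool.Agent.Helper70.BI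

private theorem cd_ch : ContDiff ℝ ∞ ch := contDiff_hat _ _

private theorem cd_vv : ContDiff ℝ ∞ vv := by
  unfold vv
  exact (contDiff_hat _ _).mul ((contDiff_id.sub contDiff_const).mul (contDiff_id.sub contDiff_const))

private theorem cd_b2 : ContDiff ℝ ∞ b2 := contDiff_plateau _ _ _
private theorem cd_b3 : ContDiff ℝ ∞ b3 := contDiff_plateau _ _ _

private theorem cd_re (lam : ℝ) : ContDiff ℝ ∞ (fun a => lam * ch a) := contDiff_const.mul cd_ch

private theorem cd_im (lam : ℝ) : ContDiff ℝ ∞ (fun a => lam * ch a * a) := (cd_re lam).mul contDiff_id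

private theorem ww_eq (lam a : ℝ) :
    ww lam a = ((lam * ch a : ℝ) : ℂ) + ((lam * ch a * a : ℝ) : ℂ) * Complex.I := by
  apply Complex.ext <;> simp [ww]

private theorem cd_ww (lam : ℝ) : ContDiff ℝ ∞ (ww lam) := by
  have : ww lam = fun a => ((lam * ch a : ℝ) : ℂ) + ((lam * ch a * a : ℝ) : ℂ) * Complex.I :=
    funext (ww_eq lam)
  rw [this]
  exact (Complex.ofRealCLM.contDiff.comp (cd_re lam)).add
    ((Complex.ofRealCLM.contDiff.comp (cd_im lam)).mul contDiff_const)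

private theorem ch_zero {a : ℝ} (h : a ≤ 1 / 4 ∨ 3 / 4 ≤ a) : ch a = 0 := hat_eq_zero h

/-- the bound which makes `rr` smooth -/
theorem bound_AR1a {lam : ℝ} (hl : lam ∈ Ioc (0 : ℝ) (1 / 10)) (a : ℝ) :
    (lam * ch a) ^ 2 * (1 + a ^ 2) ≤ 1 / 64 := by
  obtain ⟨h0, h1⟩ := hl
  rcases le_or_gt a (1 / 4) with h | h
  · rw [ch_zero (Or.inl h)]; norm_num
  rcases le_or_gt (3 / 4) a with h' | h'
  · rw [ch_zero (Or.inr h')]; norm_num
  have c0 : 0 ≤ ch a := hat_nonneg _ _ _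
  have c1 : ch a ≤ 1 := hat_le_one _ _ _
  have e0 : 0 ≤ lam * ch a := mul_nonneg h0.le c0
  have e1 : lam * ch a ≤ 1 / 10 := by nlinarith
  have e2 : (lam * ch a) ^ 2 ≤ 1 / 100 := by nlinarith
  have e3 : 1 + a ^ 2 ≤ 25 / 16 := by nlinarith
  have e4 : 0 ≤ 1 + a ^ 2 := by positivity
  calc (lam * ch a) ^ 2 * (1 + a ^ 2) ≤ 1 / 100 * (25 / 16) :=
        mul_le_mul e2 e3 e4 (by norm_num)
    _ = 1 / 64 := by norm_num

theorem contDiff_rr_AR1a {lam : ℝ} (hl : lam ∈ Ioc (0 : ℝ) (1 / 10)) : ContDiff ℝ ∞ (rr lam) := by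
  unfold rr
  refine ContDiff.sqrt ?_ ?_
  · exact contDiff_const.sub (((cd_re lam).pow 2).mul (contDiff_const.add (contDiff_id.pow 2)))
  · intro a
    have := bound_AR1a hl a
    intro h
    nlinarith

private theorem cd_UU {lam : ℝ} (hl : lam ∈ Ioc (0 : ℝ) (1 / 10)) :
    ContDiff ℝ ∞ (fun z : ℝ × ℝ × ℝ => UU lam z.1 z.2.1 z.2.2) := by
  have hx : ContDiff ℝ ∞ (fun z : ℝ × ℝ × ℝ => z.1) := contDiff_fst
  have ht : ContDiff ℝ ∞ (fun z : ℝ × ℝ × ℝ => z.2.1) := contDiff_snd.fst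
  have ha : ContDiff ℝ ∞ (fun z : ℝ × ℝ × ℝ => z.2.2) := contDiff_snd.snd
  have h2 : ContDiff ℝ ∞ (fun z : ℝ × ℝ × ℝ => b2 z.2.2) := cd_b2.comp ha
  have h3 : ContDiff ℝ ∞ (fun z : ℝ × ℝ × ℝ => b3 z.2.2) := cd_b3.comp ha
  have hr : ContDiff ℝ ∞ (fun z : ℝ × ℝ × ℝ => rr lam z.2.2) := (contDiff_rr_AR1a hl).comp ha
  unfold UU
  exact (ha.add (h2.mul (((contDiff_const.sub hr).sub (contDiff_const.mul hx)).sub ha))).add
    (h3.mul ((hr.add (contDiff_const.mul ht)).sub ha))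

private theorem cd_hh4 {lam : ℝ} (hl : lam ∈ Ioc (0 : ℝ) (1 / 10)) :
    ContDiff ℝ ∞ (fun z : ℝ × ℝ × ℝ => hh4 lam z.1 z.2.1 z.2.2) := by
  have ha : ContDiff ℝ ∞ (fun z : ℝ × ℝ × ℝ => z.2.2) := contDiff_snd.snd
  unfold hh4
  exact (contDiff_const.add (contDiff_const.mul (cd_vv.comp ha))).prodMk
    ((cd_UU hl).prodMk ((cd_ww lam).comp ha))

private theorem b2_zero {a : ℝ} (h : a ≤ 11 / 30 ∨ 13 / 30 ≤ a) : b2 a = 0 := by
  unfold b2
  exact plateau_zero (by norm_num) (by rcases h with h | h; left; linarith; right; linarith)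

private theorem b3_zero {a : ℝ} (h : a ≤ 17 / 30 ∨ 19 / 30 ≤ a) : b3 a = 0 := by
  unfold b3
  exact plateau_zero (by norm_num) (by rcases h with h | h; left; linarith; right; linarith)

private theorem hh4_ax (lam x t a : ℝ) (h : a ≤ 1 / 4 ∨ 3 / 4 ≤ a) : hh4 lam x t a = ax a := by
  have e1 : ch a = 0 := ch_zero h
  have e2 : vv a = 0 := by
    unfold vv
    rw [hat_eq_zero (by rcases h with h | h; left; linarith; right; linarith), zero_mul]
  have e3 : b2 a = 0 := b2_zero (by rcases h with h | h; left; linarith; right; linarith)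
  have e4 : b3 a = 0 := b3_zero (by rcases h with h | h; left; linarith; right; linarith)
  have e5 : ww lam a = 0 := by rw [ww_eq, e1]; simp
  unfold hh4 UU ax
  rw [e2, e3, e4, e5]
  simp

theorem m_AR1a : StAR1a := by
  intro lam hl
  have hlam : 0 < lam := hl.1
  refine ⟨cd_hh4 hl, hh4_ax lam, ?_, ?_, ?_, ?_⟩
  · intro x x' t a h
    have e3 : b2 a = 0 := b2_zero (by rcases h with h | h; left; linarith; right; linarith)
    unfold hh4 UU
    rw [e3]; simp
  · intro x t t' a h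
    have e4 : b3 a = 0 := b3_zero (by rcases h with h | h; left; linarith; right; linarith)
    unfold hh4 UU
    rw [e4]; simp
  · intro x t a b hab
    have hw : ww lam a = ww lam b := congrArg (fun p : R4 => p.2.2) hab
    have hre : lam * ch a = lam * ch b := congrArg Complex.re hw
    have him : lam * ch a * a = lam * ch b * b := congrArg Complex.im hw
    by_cases hc : ch a = 0
    · have hcb : ch b = 0 := by
        rw [hc, mul_zero] at hre
        rcases mul_eq_zero.1 hre.symm with h | h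
        · exact absurd h hlam.ne'
        · exact h
      have out : ∀ c : ℝ, ch c = 0 → (c ≤ 1 / 4 ∨ 3 / 4 ≤ c) := by
        intro c hc
        by_contra hn
        push Not at hn
        exact (hat_ne_zero.2 ⟨hn.1, hn.2⟩) hc
      rw [hh4_ax lam x t a (out a hc), hh4_ax lam x t b (out b hcb)] at hab
      exact congrArg (fun p : R4 => p.2.1) hab
    · rw [← hre] at him
      exact mul_left_cancel₀ (mul_ne_zero hlam.ne' hc) him
  · intro x t a hD
    have hd : HasDerivAt (hh4 lam x t) 0 a := by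
      rw [← hD]
      have : ContDiff ℝ ∞ (hh4 lam x t) := by
        have := (cd_hh4 hl).comp
          (contDiff_const.prodMk (contDiff_const.prodMk contDiff_id) :
            ContDiff ℝ ∞ (fun a : ℝ => ((x, t, a) : ℝ × ℝ × ℝ)))
        exact this
      exact (this.differentiable (by simp)).differentiableAt.hasDerivAt
    have hd2 : HasDerivAt (fun a => (hh4 lam x t a).2) 0 a :=
      ((hasFDerivAt_snd (𝕜 := ℝ) (E := ℝ) (F := ℝ × ℂ) (p := hh4 lam x t a)).comp_hasDerivAt a hd)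
    have hdw : HasDerivAt (ww lam) 0 a := by
      have h := ((ContinuousLinearMap.snd ℝ ℝ ℂ).hasFDerivAt
        (x := (hh4 lam x t a).2)).comp_hasDerivAt a hd2
      rw [map_zero] at h
      exact h
    have hdu : HasDerivAt (fun a => UU lam x t a) 0 a := by
      have h := ((ContinuousLinearMap.fst ℝ ℝ ℂ).hasFDerivAt
        (x := (hh4 lam x t a).2)).comp_hasDerivAt a hd2
      rw [map_zero] at h
      exact h
    have hdr : HasDerivAt (fun a => lam * ch a) 0 a := by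
      have h := (Complex.reCLM.hasFDerivAt (x := ww lam a)).comp_hasDerivAt a hdw
      rw [map_zero] at h
      exact h
    have hdi : HasDerivAt (fun a => lam * ch a * a) 0 a := by
      have h := (Complex.imCLM.hasFDerivAt (x := ww lam a)).comp_hasDerivAt a hdw
      rw [map_zero] at h
      exact h
    have hdi' := hdr.mul (hasDerivAt_id a)
    have e := hdi.unique hdi'
    have hc : ch a = 0 := by
      simp at e
      rcases e with h | h
      · exact absurd h hlam.ne'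
      · exact h
    have out : a ≤ 1 / 4 ∨ 3 / 4 ≤ a := by
      by_contra hn
      push Not at hn
      exact (hat_ne_zero.2 ⟨hn.1, hn.2⟩) hc
    have key : ∀ s : Set ℝ, UniqueDiffWithinAt ℝ s a → a ∈ s →
        (∀ c ∈ s, UU lam x t c = c) → False := by
      intro s hu ha hs
      have h1 : HasDerivWithinAt (fun a => UU lam x t a) 0 s a := hdu.hasDerivWithinAt
      have h2 : HasDerivWithinAt (fun c : ℝ => c) 0 s a :=
        h1.congr (fun c hc => (hs c hc).symm) (hs a ha).symm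
      have h3 : HasDerivWithinAt (fun c : ℝ => c) 1 s a := hasDerivWithinAt_id a s
      exact zero_ne_one (hu.eq_deriv s h2 h3)
    have hU : ∀ c : ℝ, (c ≤ 1 / 4 ∨ 3 / 4 ≤ c) → UU lam x t c = c := by
      intro c hc
      exact congrArg (fun p : R4 => p.2.1) (hh4_ax lam x t c hc)
    rcases out with h | h
    · exact key (Iic (1 / 4)) (uniqueDiffOn_Iic _ a h) h (fun c hc => hU c (Or.inl hc))
    · exact key (Ici (3 / 4)) (uniqueDiffOn_Ici _ a h) h (fun c hc => hU c (Or.inr hc))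

end Pool.Agent.Helper34.BX


end

/-! ## Helper34.BX.M_AR1b -/

section

/-!
# Project BX, module AR1b: crossings of the model arcs with the core spheres, transversality
-/

set_option autoImplicit false

open scoped Manifold ContDiff Topology ComplexConjugate
open Set Filter Pool.Agent.Helper65.Barb Pool.Agent.Helper18.BI

namespace Pool.Agent.Helper34.BX

open Pool.Agent.Helper34.BI
open Pool.Agent.Helper70.BI

/-- `|ww|²` -/
private noncomputable def W_AR1b (lam a : ℝ) : ℝ := (lam * ch a) ^ 2 * (1 + a ^ 2)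

private lemma W_nonneg_AR1b (lam a : ℝ) : 0 ≤ W_AR1b lam a := by
  unfold W_AR1b
  positivity

private lemma W_le_AR1b {lam : ℝ} (hl : lam ∈ Ioc (0 : ℝ) (1 / 10)) (a : ℝ) : W_AR1b lam a ≤ 1 / 64 := by
  unfold W_AR1b
  by_cases h : 1 / 4 < a ∧ a < 3 / 4
  · have h0 : 0 ≤ ch a := hat_nonneg _ _ _
    have h1 : ch a ≤ 1 := hat_le_one _ _ _
    have h2 : 0 ≤ lam * ch a := mul_nonneg hl.1.le h0
    have h3 : lam * ch a ≤ 1 / 10 := by nlinarith [hl.1, hl.2]
    have h4 : (lam * ch a) ^ 2 ≤ 1 / 100 := by nlinarith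
    have h5 : 1 + a ^ 2 ≤ 25 / 16 := by nlinarith [h.1, h.2]
    calc (lam * ch a) ^ 2 * (1 + a ^ 2) ≤ 1 / 100 * (25 / 16) :=
          mul_le_mul h4 h5 (by positivity) (by norm_num)
      _ = 1 / 64 := by norm_num
  · have h0 : ch a = 0 := by
      refine hat_eq_zero ?_
      by_contra h'
      push_neg at h'
      exact h h'
    rw [h0]
    norm_num

private lemma rr_sq_AR1b {lam : ℝ} (hl : lam ∈ Ioc (0 : ℝ) (1 / 10)) (a : ℝ) :
    rr lam a ^ 2 = 1 / 25 - W_AR1b lam a := by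
  have h := W_le_AR1b hl a
  unfold rr
  rw [Real.sq_sqrt]
  · rfl
  · unfold W_AR1b at h
    linarith

private lemma rr_bd_AR1b {lam : ℝ} (hl : lam ∈ Ioc (0 : ℝ) (1 / 10)) (a : ℝ) :
    3 / 20 ≤ rr lam a ∧ rr lam a ≤ 1 / 5 := by
  have h0 : 0 ≤ rr lam a := Real.sqrt_nonneg _
  have h1 := rr_sq_AR1b hl a
  have h2 := W_le_AR1b hl a
  have h3 := W_nonneg_AR1b lam a
  constructor
  · by_contra h
    push_neg at h
    nlinarith
  · by_contra h
    push_neg at h
    nlinarith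

private lemma rsq_AR1b (c lam x t a : ℝ) :
    rsq c (hh4 lam x t a) = (UU lam x t a - c) ^ 2 + W_AR1b lam a := by
  unfold rsq nsq hh4 ww W_AR1b
  simp only
  ring

private lemma b2_zero_AR1b {a : ℝ} (h : a ≤ 11 / 30 ∨ 13 / 30 ≤ a) : b2 a = 0 := by
  unfold b2
  refine plateau_zero (by norm_num) ?_
  rcases h with h | h
  · left; linarith
  · right; linarith

private lemma b3_zero_AR1b {a : ℝ} (h : a ≤ 17 / 30 ∨ 19 / 30 ≤ a) : b3 a = 0 := by
  unfold b3
  refine plateau_zero (by norm_num) ?_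
  rcases h with h | h
  · left; linarith
  · right; linarith

private lemma b2_one_AR1b {a : ℝ} (h : 23 / 60 ≤ a) (h' : a ≤ 25 / 60) : b2 a = 1 := by
  unfold b2
  exact plateau_one (by norm_num) (by linarith) (by linarith)

private lemma b3_one_AR1b {a : ℝ} (h : 35 / 60 ≤ a) (h' : a ≤ 37 / 60) : b3 a = 1 := by
  unfold b3
  exact plateau_one (by norm_num) (by linarith) (by linarith)

private lemma UU2_AR1b (lam x t : ℝ) {a : ℝ} (h : 23 / 60 ≤ a) (h' : a ≤ 25 / 60) :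
    UU lam x t a = 1 - rr lam a - lam * x := by
  unfold UU
  rw [b2_one_AR1b h h', b3_zero_AR1b (by left; linarith)]
  ring

private lemma UU3_AR1b (lam x t : ℝ) {a : ℝ} (h : 35 / 60 ≤ a) (h' : a ≤ 37 / 60) :
    UU lam x t a = rr lam a + lam * t := by
  unfold UU
  rw [b3_one_AR1b h h', b2_zero_AR1b (by right; linarith)]
  ring

private lemma UU0_AR1b (lam x t : ℝ) {a : ℝ} (h : a ≤ 3 / 10 ∨ 7 / 10 ≤ a) : UU lam x t a = a := by
  unfold UU
  rw [b2_zero_AR1b, b3_zero_AR1b]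
  · ring
  · rcases h with h | h
    · left; linarith
    · right; linarith
  · rcases h with h | h
    · left; linarith
    · right; linarith

private lemma vv_cases_AR1b {a : ℝ} (h : vv a = 0) :
    (a ≤ 3 / 10 ∨ 7 / 10 ≤ a) ∨ a = 2 / 5 ∨ a = 3 / 5 := by
  unfold vv at h
  rcases mul_eq_zero.1 h with h | h
  · left
    by_contra h'
    push_neg at h'
    exact hat_ne_zero.2 h' h
  · right
    rcases mul_eq_zero.1 h with h | h
    · left; linarith
    · right; linarith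

private lemma zero_of_AR1b {lam r s : ℝ} (hl : lam ∈ Ioc (0 : ℝ) (1 / 10)) (hr : 3 / 20 ≤ r)
    (hs : s ∈ Icc (-1 : ℝ) 1) (h : (r + lam * s) ^ 2 = r ^ 2) : s = 0 := by
  have h1 : lam * s * (2 * r + lam * s) = 0 := by nlinarith
  have h2 : 0 < 2 * r + lam * s := by nlinarith [hl.1, hl.2, hs.1, hs.2]
  rcases mul_eq_zero.1 h1 with h3 | h3
  · rcases mul_eq_zero.1 h3 with h4 | h4
    · exact absurd h4 hl.1.ne'
    · exact h4
  · exact absurd h3 h2.ne'

private lemma hit_AR1b {lam : ℝ} (hl : lam ∈ Ioc (0 : ℝ) (1 / 10)) {x t a : ℝ}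
    (hx : x ∈ Icc (-1 : ℝ) 1) (ht : t ∈ Icc (-1 : ℝ) 1) (ha : a ∈ Ioo (1 / 5 : ℝ) (4 / 5)) :
    (hh4 lam x t a ∈ sph 0 → a = 3 / 5 ∧ t = 0) ∧ (hh4 lam x t a ∈ sph 1 → a = 2 / 5 ∧ x = 0) := by
  have hW := W_nonneg_AR1b lam a
  have hrs := rr_sq_AR1b hl a
  have hrb := rr_bd_AR1b hl a
  have hlx : |lam * x| ≤ 1 / 10 := by
    rw [abs_mul, abs_of_pos hl.1]
    have := abs_le.2 ⟨hx.1, hx.2⟩
    nlinarith [hl.1, hl.2, abs_nonneg x]
  have hlt : |lam * t| ≤ 1 / 10 := by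
    rw [abs_mul, abs_of_pos hl.1]
    have := abs_le.2 ⟨ht.1, ht.2⟩
    nlinarith [hl.1, hl.2, abs_nonneg t]
  have hlx' := abs_le.1 hlx
  have hlt' := abs_le.1 hlt
  have first : ∀ c, hh4 lam x t a ∈ sph c → vv a = 0 := by
    intro c h
    have h1 : (1 / 2 : ℝ) + lam * vv a = 1 / 2 := h.1
    have h2 : lam * vv a = 0 := by linarith
    exact (mul_eq_zero.1 h2).resolve_left hl.1.ne'
  constructor
  · intro h
    have h2 : (UU lam x t a - 0) ^ 2 + W_AR1b lam a = 1 / 25 := by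
      rw [← rsq_AR1b]
      exact h.2
    rcases vv_cases_AR1b (first 0 h) with h3 | rfl | rfl
    · exfalso
      rw [UU0_AR1b lam x t h3] at h2
      nlinarith [ha.1]
    · exfalso
      rw [UU2_AR1b lam x t (by norm_num) (by norm_num)] at h2
      have h4 : 7 / 10 ≤ 1 - rr lam (2 / 5) - lam * x := by linarith [hrb.2, hlx'.2]
      nlinarith
    · refine ⟨rfl, ?_⟩
      rw [UU3_AR1b lam x t (by norm_num) (by norm_num)] at h2
      refine zero_of_AR1b hl hrb.1 ht ?_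
      rw [hrs]
      linarith
  · intro h
    have h2 : (UU lam x t a - 1) ^ 2 + W_AR1b lam a = 1 / 25 := by
      rw [← rsq_AR1b]
      exact h.2
    rcases vv_cases_AR1b (first 1 h) with h3 | rfl | rfl
    · exfalso
      rw [UU0_AR1b lam x t h3] at h2
      nlinarith [ha.2]
    · refine ⟨rfl, ?_⟩
      rw [UU2_AR1b lam x t (by norm_num) (by norm_num)] at h2
      refine zero_of_AR1b hl hrb.1 hx ?_
      rw [hrs]
      linarith
    · exfalso
      rw [UU3_AR1b lam x t (by norm_num) (by norm_num)] at h2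
      have h4 : rr lam (3 / 5) + lam * t - 1 ≤ -(7 / 10) := by linarith [hrb.2, hlt'.2]
      nlinarith

private lemma ch_pos_AR1b {a : ℝ} (h : 1 / 4 < a) (h' : a < 3 / 4) : ch a ≠ 0 := hat_ne_zero.2 ⟨h, h'⟩

private lemma mem_AR1b {lam : ℝ} (hl : lam ∈ Ioc (0 : ℝ) (1 / 10)) (x t : ℝ) :
    hh4 lam x 0 (3 / 5) ∈ sph 0 ∧ hh4 lam 0 t (2 / 5) ∈ sph 1 ∧
      (hh4 lam x 0 (3 / 5)).2.2.re ≠ 0 ∧ (hh4 lam 0 t (2 / 5)).2.2.re ≠ 0 := by
  have v3 : vv (3 / 5) = 0 := by unfold vv; norm_num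
  have v2 : vv (2 / 5) = 0 := by unfold vv; norm_num
  refine ⟨⟨?_, ?_⟩, ⟨?_, ?_⟩, ?_, ?_⟩
  · change 1 / 2 + lam * vv (3 / 5) = 1 / 2
    rw [v3]; ring
  · rw [rsq_AR1b, UU3_AR1b lam x 0 (by norm_num) (by norm_num)]
    have := rr_sq_AR1b hl (3 / 5)
    linear_combination this
  · change 1 / 2 + lam * vv (2 / 5) = 1 / 2
    rw [v2]; ring
  · rw [rsq_AR1b, UU2_AR1b lam 0 t (by norm_num) (by norm_num)]
    have := rr_sq_AR1b hl (2 / 5)
    linear_combination this
  · change lam * ch (3 / 5) ≠ 0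
    exact mul_ne_zero hl.1.ne' (ch_pos_AR1b (by norm_num) (by norm_num))
  · change lam * ch (2 / 5) ≠ 0
    exact mul_ne_zero hl.1.ne' (ch_pos_AR1b (by norm_num) (by norm_num))

private lemma ch_diff_AR1b (a : ℝ) : DifferentiableAt ℝ ch a :=
  ((contDiff_hat _ _).differentiable (by simp)) a

private lemma rr_diff_AR1b {lam : ℝ} (hl : lam ∈ Ioc (0 : ℝ) (1 / 10)) (a : ℝ) :
    DifferentiableAt ℝ (rr lam) a := by
  have h := W_le_AR1b hl a
  unfold W_AR1b at h
  unfold rr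
  refine DifferentiableAt.sqrt ?_ (by linarith)
  have := ch_diff_AR1b a
  fun_prop

private lemma ww_diff_AR1b (lam a : ℝ) : DifferentiableAt ℝ (ww lam) a := by
  have h : ww lam = fun a => ((lam * ch a : ℝ) : ℂ) + ((lam * ch a * a : ℝ) : ℂ) * Complex.I := by
    funext b
    unfold ww
    apply Complex.ext <;> simp
  rw [h]
  have h0 := ch_diff_AR1b a
  have h1 : DifferentiableAt ℝ (fun a : ℝ => lam * ch a) a := by fun_prop
  have h2 : DifferentiableAt ℝ (fun a : ℝ => lam * ch a * a) a := by fun_prop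
  have h3 : DifferentiableAt ℝ (fun a : ℝ => ((lam * ch a : ℝ) : ℂ)) a :=
    (Complex.ofRealCLM.differentiableAt).comp a h1
  have h4 : DifferentiableAt ℝ (fun a : ℝ => ((lam * ch a * a : ℝ) : ℂ)) a :=
    (Complex.ofRealCLM.differentiableAt).comp a h2
  exact h3.add (h4.mul_const _)

private lemma vv_deriv_AR1b {a : ℝ} (h : 3 / 10 < a) (h' : a < 7 / 10)
    (h0 : (a - 2 / 5) * (a - 3 / 5) = 0) (h1 : (a - 2 / 5) + (a - 3 / 5) ≠ 0) :
    ∃ V, V ≠ 0 ∧ HasDerivAt vv V a := by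
  have hd : HasDerivAt (hat (3 / 10) (7 / 10)) (deriv (hat (3 / 10) (7 / 10)) a) a :=
    (((contDiff_hat (3 / 10) (7 / 10)).differentiable (by simp)) a).hasDerivAt
  have hp : HasDerivAt (fun a : ℝ => (a - 2 / 5) * (a - 3 / 5)) (1 * (a - 3 / 5) + (a - 2 / 5) * 1) a :=
    ((hasDerivAt_id a).sub_const _).mul ((hasDerivAt_id a).sub_const _)
  refine ⟨_, ?_, hd.mul hp⟩
  rw [h0, mul_zero, zero_add]
  refine mul_ne_zero (hat_ne_zero.2 ⟨h, h'⟩) ?_
  intro h2
  apply h1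
  linarith

/-- the derivative of `z ↦ G z.2 + z.1 • e` -/
private lemma fd_AR1b {G : ℝ → R4} {D e : R4} {a : ℝ} {g : ℝ × ℝ → R4} (hG : HasDerivAt G D a)
    (hg : g =ᶠ[𝓝 (0, a)] fun z => G z.2 + z.1 • e) (ζ : ℝ × ℝ) :
    fderiv ℝ g (0, a) ζ = ζ.2 • D + ζ.1 • e := by
  have h1 : HasFDerivAt (fun z : ℝ × ℝ => G z.2)
      ((ContinuousLinearMap.smulRight (1 : ℝ →L[ℝ] ℝ) D).comp (ContinuousLinearMap.snd ℝ ℝ ℝ)) (0, a) :=
    HasFDerivAt.comp (x := ((0, a) : ℝ × ℝ)) (g := G) (f := fun z : ℝ × ℝ => z.2) hG.hasFDerivAt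
      hasFDerivAt_snd
  have h2 : HasFDerivAt (fun z : ℝ × ℝ => z.1 • e)
      ((ContinuousLinearMap.fst ℝ ℝ ℝ).smulRight e) (0, a) :=
    (hasFDerivAt_fst (p := ((0, a) : ℝ × ℝ))).smul_const e
  have h3 := h1.add h2
  rw [(h3.congr_of_eventuallyEq hg).fderiv]
  simp

private lemma tr3_AR1b {lam : ℝ} (hl : lam ∈ Ioc (0 : ℝ) (1 / 10)) (x : ℝ) (ζ : ℝ × ℝ)
    (h1 : (fderiv ℝ (fun z : ℝ × ℝ => hh4 lam x z.1 z.2) (0, 3 / 5) ζ).1 = 0)
    (h2 : drsq 0 (hh4 lam x 0 (3 / 5))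
      (fderiv ℝ (fun z : ℝ × ℝ => hh4 lam x z.1 z.2) (0, 3 / 5) ζ) = 0) : ζ = 0 := by
  obtain ⟨V, hV0, hV⟩ := vv_deriv_AR1b (a := 3 / 5) (by norm_num) (by norm_num) (by norm_num)
    (by norm_num)
  have hr := (rr_diff_AR1b hl (3 / 5)).hasDerivAt
  have hw := (ww_diff_AR1b lam (3 / 5)).hasDerivAt
  have hG := ((hV.const_mul lam).const_add (1 / 2)).prodMk (hr.prodMk hw)
  have hev : (fun z : ℝ × ℝ => hh4 lam x z.1 z.2) =ᶠ[𝓝 (0, 3 / 5)] fun z =>
      ((1 / 2 + lam * vv z.2, (rr lam z.2, ww lam z.2)) : R4) + z.1 • ((0, (lam, 0)) : R4) := by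
    have hc : ContinuousAt (fun z : ℝ × ℝ => z.2) (0, 3 / 5) := continuousAt_snd
    have hm : Ioo (35 / 60 : ℝ) (37 / 60) ∈ 𝓝 ((fun z : ℝ × ℝ => z.2) (0, 3 / 5)) :=
      Ioo_mem_nhds (by norm_num) (by norm_num)
    filter_upwards [hc hm] with z hz
    have hz1 : 35 / 60 < z.2 := hz.1
    have hz2 : z.2 < 37 / 60 := hz.2
    unfold hh4
    rw [UU3_AR1b lam x z.1 hz1.le hz2.le]
    simp [mul_comm]
  have key := fd_AR1b hG hev ζ
  rw [key] at h1 h2
  have h3 : ζ.2 * (lam * V) = 0 := by simpa using h1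
  have h4 : ζ.2 = 0 := (mul_eq_zero.1 h3).resolve_right (mul_ne_zero hl.1.ne' hV0)
  rw [h4] at h2
  have h5 : UU lam x 0 (3 / 5) = rr lam (3 / 5) := by
    rw [UU3_AR1b lam x 0 (by norm_num) (by norm_num)]; ring
  unfold drsq hh4 at h2
  simp [h5] at h2
  have h6 : rr lam (3 / 5) ≠ 0 := by
    have := (rr_bd_AR1b hl (3 / 5)).1
    intro h7
    rw [h7] at this
    norm_num at this
  have h7 : ζ.1 = 0 := by
    rcases h2 with h2 | h2 | h2
    · exact absurd h2 h6
    · exact h2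
    · exact absurd h2 hl.1.ne'
  exact Prod.ext h7 h4

private lemma tr2_AR1b {lam : ℝ} (hl : lam ∈ Ioc (0 : ℝ) (1 / 10)) (t : ℝ) (ζ : ℝ × ℝ)
    (h1 : (fderiv ℝ (fun z : ℝ × ℝ => hh4 lam z.1 t z.2) (0, 2 / 5) ζ).1 = 0)
    (h2 : drsq 1 (hh4 lam 0 t (2 / 5))
      (fderiv ℝ (fun z : ℝ × ℝ => hh4 lam z.1 t z.2) (0, 2 / 5) ζ) = 0) : ζ = 0 := by
  obtain ⟨V, hV0, hV⟩ := vv_deriv_AR1b (a := 2 / 5) (by norm_num) (by norm_num) (by norm_num)
    (by norm_num)
  have hr := (rr_diff_AR1b hl (2 / 5)).hasDerivAt.const_sub 1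
  have hw := (ww_diff_AR1b lam (2 / 5)).hasDerivAt
  have hG := ((hV.const_mul lam).const_add (1 / 2)).prodMk (hr.prodMk hw)
  have hev : (fun z : ℝ × ℝ => hh4 lam z.1 t z.2) =ᶠ[𝓝 (0, 2 / 5)] fun z =>
      ((1 / 2 + lam * vv z.2, (1 - rr lam z.2, ww lam z.2)) : R4) + z.1 • ((0, (-lam, 0)) : R4) := by
    have hc : ContinuousAt (fun z : ℝ × ℝ => z.2) (0, 2 / 5) := continuousAt_snd
    have hm : Ioo (23 / 60 : ℝ) (25 / 60) ∈ 𝓝 ((fun z : ℝ × ℝ => z.2) (0, 2 / 5)) :=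
      Ioo_mem_nhds (by norm_num) (by norm_num)
    filter_upwards [hc hm] with z hz
    have hz1 : 23 / 60 < z.2 := hz.1
    have hz2 : z.2 < 25 / 60 := hz.2
    unfold hh4
    rw [UU2_AR1b lam z.1 t hz1.le hz2.le]
    simp [mul_comm, sub_eq_add_neg]
  have key := fd_AR1b hG hev ζ
  rw [key] at h1 h2
  have h3 : ζ.2 * (lam * V) = 0 := by simpa using h1
  have h4 : ζ.2 = 0 := (mul_eq_zero.1 h3).resolve_right (mul_ne_zero hl.1.ne' hV0)
  rw [h4] at h2
  have h5 : UU lam 0 t (2 / 5) = 1 - rr lam (2 / 5) := by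
    rw [UU2_AR1b lam 0 t (by norm_num) (by norm_num)]; ring
  unfold drsq hh4 at h2
  simp [h5] at h2
  have h6 : rr lam (2 / 5) ≠ 0 := by
    have := (rr_bd_AR1b hl (2 / 5)).1
    intro h7
    rw [h7] at this
    norm_num at this
  have h7 : ζ.1 = 0 := by
    rcases h2 with h2 | h2 | h2
    · exact absurd h2 h6
    · exact h2
    · exact absurd h2 hl.1.ne'
  exact Prod.ext h7 h4

theorem m_AR1b : StAR1b := fun lam hl =>
  ⟨fun x hx t ht a ha => hit_AR1b hl hx ht ha, fun x t => mem_AR1b hl x t,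
    fun x ζ h1 h2 => tr3_AR1b hl x ζ h1 h2, fun t ζ h1 h2 => tr2_AR1b hl t ζ h1 h2⟩

end Pool.Agent.Helper34.BX


end

/-! ## Helper34.BX.M_AR2 -/

section

/-!
# Project BX, module AR2: the model arcs are close to the spine
-/

set_option autoImplicit false

open scoped Manifold ContDiff Topology ComplexConjugate
open Set Filter Pool.Agent.Helper65.Barb Pool.Agent.Helper18.BI

namespace Pool.Agent.Helper34.BX

open Pool.Agent.Helper34.BI
open Pool.Agent.Helper70.BI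
open Pool.Agent.Helper27.BI (swp)

private theorem cont_hh4_AR2 :
    Continuous (fun z : ℝ × ℝ × ℝ × ℝ => hh4 z.1 z.2.1 z.2.2.1 z.2.2.2) := by
  have h1 : Continuous ch := (contDiff_hat _ _).continuous
  have h2 : Continuous vv := by
    unfold vv
    exact (contDiff_hat _ _).continuous.mul (by fun_prop)
  have h3 : Continuous b2 := (contDiff_plateau _ _ _).continuous
  have h4 : Continuous b3 := (contDiff_plateau _ _ _).continuous
  have hr : Continuous (fun z : ℝ × ℝ × ℝ × ℝ => rr z.1 z.2.2.2) := by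
    unfold rr
    refine Real.continuous_sqrt.comp ?_
    fun_prop
  have hU : Continuous (fun z : ℝ × ℝ × ℝ × ℝ => UU z.1 z.2.1 z.2.2.1 z.2.2.2) := by
    unfold UU
    fun_prop
  have hw : Continuous (fun z : ℝ × ℝ × ℝ × ℝ => ww z.1 z.2.2.2) := by
    unfold ww
    simp only [Complex.mk_eq_add_mul_I]
    fun_prop
  unfold hh4
  exact (by fun_prop : Continuous (fun z : ℝ × ℝ × ℝ × ℝ => 1 / 2 + z.1 * vv z.2.2.2)).prodMk
    (hU.prodMk hw)

private theorem plateau_mem_AR2 (a b δ u : ℝ) : 0 ≤ plateau a b δ u ∧ plateau a b δ u ≤ 1 := by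
  unfold plateau
  exact ⟨mul_nonneg (Real.smoothTransition.nonneg _) (Real.smoothTransition.nonneg _),
    mul_le_one₀ (Real.smoothTransition.le_one _) (Real.smoothTransition.nonneg _)
      (Real.smoothTransition.le_one _)⟩

private theorem base_AR2 (x t a : ℝ) (ha : a ∈ Icc (1 / 5 : ℝ) (4 / 5)) : hh4 0 x t a ∈ neck := by
  obtain ⟨ha1, ha2⟩ := ha
  have hr : rr 0 a = 1 / 5 := by
    unfold rr
    rw [zero_mul, show (1 / 25 - (0 : ℝ) ^ 2 * (1 + a ^ 2)) = (1 / 5) ^ 2 by norm_num]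
    exact Real.sqrt_sq (by norm_num)
  have hU : UU 0 x t a = a + b2 a * (4 / 5 - a) + b3 a * (1 / 5 - a) := by
    unfold UU
    rw [hr]
    ring
  have h2 := plateau_mem_AR2 (7 / 20) (9 / 20) (1 / 30) a
  have h3 := plateau_mem_AR2 (11 / 20) (13 / 20) (1 / 30) a
  have e2 : b2 a = plateau (7 / 20) (9 / 20) (1 / 30) a := rfl
  have e3 : b3 a = plateau (11 / 20) (13 / 20) (1 / 30) a := rfl
  rw [← e2] at h2
  rw [← e3] at h3
  have hz : b2 a = 0 ∨ b3 a = 0 := by
    rcases le_or_gt a (1 / 2) with h | h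
    · right
      rw [e3]
      exact plateau_zero (by norm_num) (Or.inl (by linarith))
    · left
      rw [e2]
      exact plateau_zero (by norm_num) (Or.inr (by linarith))
  have hb : 1 / 5 ≤ UU 0 x t a ∧ UU 0 x t a ≤ 4 / 5 := by
    rw [hU]
    rcases hz with hz | hz
    · rw [hz]
      constructor <;> nlinarith [h3.1, h3.2]
    · rw [hz]
      constructor <;> nlinarith [h2.1, h2.2]
  refine ⟨?_, hb.1, hb.2, ?_⟩
  · show 1 / 2 + 0 * vv a = 1 / 2
    ring
  · show ww 0 a = 0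
    unfold ww
    apply Complex.ext <;> simp

theorem m_AR2 : StAR2 := by
  intro V hV hn
  have hK : IsCompact (Icc (-1 : ℝ) 1 ×ˢ Icc (-1 : ℝ) 1 ×ˢ Icc (1 / 5 : ℝ) (4 / 5)) :=
    isCompact_Icc.prod (isCompact_Icc.prod isCompact_Icc)
  obtain ⟨u, v, hu, -, h0, hKv, huv⟩ := generalized_tube_lemma (isCompact_singleton (x := (0 : ℝ))) hK
    (hV.preimage cont_hh4_AR2) (by
      rintro ⟨l, x, t, a⟩ ⟨hl, hx, ht, ha⟩
      have hl' : l = 0 := hl
      subst hl'
      exact hn (base_AR2 x t a ha))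
  obtain ⟨ε, hε, hb⟩ := Metric.isOpen_iff.1 hu 0 (h0 rfl)
  refine ⟨min (ε / 2) (1 / 10), ⟨lt_min (by linarith) (by norm_num), min_le_right _ _⟩, ?_⟩
  intro lam hl x hx t ht a ha
  have h1 : lam ∈ u := by
    apply hb
    rw [Metric.mem_ball, Real.dist_eq, sub_zero, abs_of_pos hl.1]
    have h2 := min_le_left (ε / 2) (1 / 10 : ℝ)
    have h3 := hl.2
    linarith
  exact huv (show (lam, x, t, a) ∈ u ×ˢ v from ⟨h1, hKv ⟨hx, ht, ha⟩⟩)

end Pool.Agent.Helper34.BX


end
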