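import Pool.Agent.Helper65.Barb.Defs
import Pool.Agent.Helper70.BI.C.Q01

/-!
# Project BI (MP_8e98f2_gt): collected modules, part Q04

The contents of the modules
* Helper34.BX.M_X4
* Helper34.BX.M_THX
* Helper34.BX.M_OWL

in one file, so that the whole proof builds in a short time.
-/

namespace Pool.Agent.Helper18.BI
end Pool.Agent.Helper18.BI

namespace Pool.Agent.Helper27.BI
end Pool.Agent.Helper27.BI

namespace Pool.Agent.Helper34.BI
end Pool.Agent.Helper34.BI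

namespace Pool.Agent.Helper65.Barb
end Pool.Agent.Helper65.Barb

namespace Pool.Agent.Helper70.BI
end Pool.Agent.Helper70.BI


/-! ## Helper34.BX.M_X4 -/

section

/-!
# Project BX, module X4: the main theorem for `R4` (assembly)
-/

set_option autoImplicit false

open scoped Manifold ContDiff Topology ComplexConjugate
open Set Filter Pool.Agent.Helper65.Barb Pool.Agent.Helper18.BI

namespace Pool.Agent.Helper34.BX

open Pool.Agent.Helper34.BI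
open Pool.Agent.Helper70.BI

private theorem sph0_X4 {p : R4} (h : p ∈ sph 0) : p.2.1 ≤ 1 / 5 := by
  have h1 : rsq 0 p = 1 / 25 := h.2
  simp only [rsq, nsq] at h1
  norm_num at h1
  nlinarith [sq_nonneg p.2.2.re, sq_nonneg p.2.2.im]

private theorem sph1_X4 {p : R4} (h : p ∈ sph 1) : 4 / 5 ≤ p.2.1 := by
  have h1 : rsq 1 p = 1 / 25 := h.2
  simp only [rsq, nsq] at h1
  norm_num at h1
  nlinarith [sq_nonneg p.2.2.re, sq_nonneg p.2.2.im]

private theorem sin_X4 {t : ℝ} (h0 : t ≠ 0) (h1 : -1 ≤ t) (h2 : t ≤ 1) : Real.sin t ≠ 0 := by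
  rcases lt_or_gt_of_ne h0 with h | h
  · exact (Real.sin_neg_of_neg_of_neg_pi_lt h (by linarith [Real.pi_gt_three])).ne
  · exact (Real.sin_pos_of_pos_of_lt_pi h (by linarith [Real.pi_gt_three])).ne'

/-- **X4.** -/
theorem m_X4 (hXD : StXD) (hKF : StKF) (hCRP2 : StCRP2) (hLF : StLF) (hM2 : StMain2)
    (hT2 : StT2) (hCI : StCI) : StX4 := by
  intro W F φ hW hF hφ
  obtain ⟨ti, -, -, -, -, -, tvii⟩ := hT2 R4 R4 I4 R4
  obtain ⟨-, cs, -, ct, cc, -, cex, -, -, -⟩ := hCI R4 R4 I4 R4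
  obtain ⟨F₀, α₀, β₀, -, hF₀⟩ := hW.rep
  have hWW : CIsot I4 W W := tvii F₀ W hF₀
  have hφφ : CIsot I4 φ φ := tvii F φ hφ
  obtain ⟨c, H, hX⟩ := hXD F hF
  obtain ⟨-, kf2, ⟨p₀, kf3⟩, kf4, kf5, kf6⟩ := hKF F c H hX
  have s1 : Real.sin 1 ≠ 0 := sin_X4 (by norm_num) (by norm_num) le_rfl
  have s2 : Real.sin (-1) ≠ 0 := sin_X4 (by norm_num) le_rfl (by norm_num)
  -- the compact set of the crossing points with the second cuff
  have hcont : Continuous (fun z : ℝ × ℝ => H z.1 0 z.2) :=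
    hX.smooth.continuous.comp (by fun_prop : Continuous (fun z : ℝ × ℝ => (z.1, (0 : ℝ), z.2)))
  have hC : IsCompact ((fun z : ℝ × ℝ => H z.1 0 z.2) ''
      (Icc (-1 : ℝ) 1 ×ˢ Icc (7 / 20 : ℝ) (9 / 20))) :=
    (isCompact_Icc.prod isCompact_Icc).image hcont
  have hdis : Disjoint ((fun z : ℝ × ℝ => H z.1 0 z.2) ''
      (Icc (-1 : ℝ) 1 ×ˢ Icc (7 / 20 : ℝ) (9 / 20)))
      ((fun p => KK4 F c H (-1) (0, p)) '' sph 0) := by
    rw [Set.disjoint_left]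
    rintro _ ⟨⟨x, a⟩, ⟨-, ha⟩, rfl⟩ ⟨p, hp, hpe⟩
    have hpl := sph0_X4 hp
    have e1 : KK4 F c H (-1) (0, p) = F p := kf5 (-1) 0 p (Or.inl (by linarith))
    have e2 : H x 0 a = F p := by rw [← e1]; exact hpe.symm
    have ha1 : (7 / 20 : ℝ) ≤ a := ha.1
    have ha2 : a ≤ (9 / 20 : ℝ) := ha.2
    rcases hX.hit x 0 a ⟨by linarith, by linarith⟩ p (Or.inl hp) e2 with h | h
    · linarith [h.2.1]
    · linarith [sph1_X4 h.1]
  obtain ⟨t₁, ht₁, t₂, ht₂, t', t'', hor, O, O', α, e, hα, he, hBr, hBr', hcO, hcO', hrO, hrO',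
    hnear, hdC, hcl, hcl'⟩ := hCRP2 (KK4 F c H (-1)) (KK4 F c H 1) 0 (3 / 5) p₀ (kf3 (-1) s2)
      (kf3 1 s1) (by norm_num) (fun t p h => kf4 1 (-1) t p h) _ hC hdis (1 / 20) (by norm_num)
  have hα' := abs_lt.1 hα
  -- the times
  have htt : (t' ≠ 0 ∧ -1 ≤ t' ∧ t' ≤ 1) ∧ (t'' ≠ 0 ∧ -1 ≤ t'' ∧ t'' ≤ 1) := by
    have a1 := ht₁.1; have a2 := ht₁.2; have a3 := ht₂.1; have a4 := ht₂.2
    rcases hor with ⟨h1, h2⟩ | ⟨h1, h2⟩ <;> subst h1 <;> subst h2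
    · exact ⟨⟨a2.ne, by linarith, by linarith⟩, ⟨a3.ne', by linarith, by linarith⟩⟩
    · exact ⟨⟨a3.ne', by linarith, by linarith⟩, ⟨a2.ne, by linarith, by linarith⟩⟩
  have st' : Real.sin t' ≠ 0 := sin_X4 htt.1.1 htt.1.2.1 htt.1.2.2
  have st'' : Real.sin t'' ≠ 0 := sin_X4 htt.2.1 htt.2.2.1 htt.2.2.2
  -- the two obstruction germs
  have hOW : OW W O O' := by
    refine hLF W F c H O O' t' α e hW hX he (by linarith) (by linarith) hBr hBr' ?_ ?_ ?_ ?_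
      hnear ?_
    · intro a ha; rw [hcO a ha]; exact kf6 (-1) t' a ha
    · intro a ha; rw [hcO' a ha]; exact kf6 1 t' a ha
    · intro p hp; rw [hrO p (by linarith)]; exact kf5 (-1) t' p (Or.inr hp)
    · intro p hp; rw [hrO' p (by linarith)]; exact kf5 1 t' p (Or.inr hp)
    · intro x hx a ha hmem
      have e1 : H x t' a = H x 0 a := hX.indt x t' 0 a (Or.inl (by linarith [ha.2]))
      exact Set.disjoint_left.1 hdC ⟨(x, a), ⟨hx, ha⟩, rfl⟩ (by rw [e1] at hmem; exact hmem)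
  -- representatives
  have hrep : ∀ G : R4 → R4, EmbOn I4 G SP → ∃ ψ, Thin I4 G ψ := by
    intro G hG
    obtain ⟨ε₀, h0, h⟩ := ti G hG
    exact ⟨_, h (ε₀ / 2) ⟨by linarith, by linarith⟩⟩
  have hOe : EmbOn I4 O SP := ⟨fun p hp => hBr.loc p (Or.inl hp), hBr.inj⟩
  have hOe' : EmbOn I4 O' SP := ⟨fun p hp => hBr'.loc p (Or.inl hp), hBr'.inj⟩
  obtain ⟨n, hn⟩ := hrep O hOe
  obtain ⟨n', hn'⟩ := hrep O' hOe'
  have hnn' : CIsot I4 n' (fun x => W (n x)) := hOW n n' hn hn'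
  have hU : IsOpen {p : R4 | p.2.1 < 9 / 40 ∨ 31 / 40 < p.2.1} := by
    have hc : Continuous (fun p : R4 => p.2.1) := by fun_prop
    have h1 : IsOpen {p : R4 | p.2.1 < 9 / 40} := isOpen_lt hc continuous_const
    have h2 : IsOpen {p : R4 | 31 / 40 < p.2.1} := isOpen_lt continuous_const hc
    exact h1.union h2
  have hUs : sph 0 ∪ sph 1 ⊆ {p : R4 | p.2.1 < 9 / 40 ∨ 31 / 40 < p.2.1} := by
    rintro p (hp | hp)
    · exact Or.inl (by linarith [sph0_X4 hp])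
    · exact Or.inr (by linarith [sph1_X4 hp])
  have key : ∀ x t : ℝ, Real.sin x ≠ 0 → Real.sin t ≠ 0 → ∃ ψ : R4 → R4,
      EmbOn I4 (fun p => KK4 F c H x (t, p)) SP ∧
      NearEq F (fun p => KK4 F c H x (t, p)) (sph 0 ∪ sph 1) ∧
      Thin I4 (fun p => KK4 F c H x (t, p)) ψ ∧
      (CIsot I4 ψ φ ∨ CIsot I4 ψ (fun x => W (φ x))) := by
    intro x t hx ht
    have hG := kf2 x t hx ht
    obtain ⟨ψ, hψ⟩ := hrep _ hG
    have hE : EqOn F (fun p => KK4 F c H x (t, p)) {p : R4 | p.2.1 < 9 / 40 ∨ 31 / 40 < p.2.1} :=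
      fun p hp => (kf5 x t p hp).symm
    exact ⟨ψ, hG, ⟨_, hU, hUs, hE⟩, hψ, hM2 W F _ φ ψ _ hW hF hG hU hUs hE hφ hψ⟩
  obtain ⟨ψ₁, e₁, n₁, T₁, c₁⟩ := key (-1) t' s2 st'
  obtain ⟨ψ₂, e₂, n₂, T₂, c₂⟩ := key (-1) t'' s2 st''
  obtain ⟨ψ₃, e₃, n₃, T₃, c₃⟩ := key 1 t' s1 st'
  obtain ⟨ψ₄, e₄, n₄, T₄, c₄⟩ := key 1 t'' s1 st''
  rcases c₁ with c₁ | c₁
  swap
  · exact ⟨_, ψ₁, e₁, n₁, T₁, c₁⟩
  rcases c₂ with c₂ | c₂
  swap
  · exact ⟨_, ψ₂, e₂, n₂, T₂, c₂⟩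
  rcases c₃ with c₃ | c₃
  swap
  · exact ⟨_, ψ₃, e₃, n₃, T₃, c₃⟩
  rcases c₄ with c₄ | c₄
  swap
  · exact ⟨_, ψ₄, e₄, n₄, T₄, c₄⟩
  -- all four classes are the class of `F`: then `W` is trivial
  obtain ⟨φ', hφ', hi1, -⟩ := cex φ hφφ
  have triv : ∀ (m ψ ψ' : R4 → R4), CIsot I4 m m → CIsot I4 ψ φ → CIsot I4 ψ' φ →
      CIsot I4 ψ (fun x => m (ψ' x)) → CIsot I4 (fun x => x) m := by
    intro m ψ ψ' hm h1 h2 h3
    have h4 : CIsot I4 φ (fun x => m (φ x)) :=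
      ct _ _ _ (cs _ _ h1) (ct _ _ _ h3 (cc m m ψ' φ hm h2))
    have h5 := cc φ (fun x => m (φ x)) φ' φ' h4 hφ'
    have h6 : (fun x => φ (φ' x)) = fun x => x := funext hi1
    have h7 : (fun x => m (φ (φ' x))) = m := funext fun x => by rw [hi1]
    rw [h6] at h5
    have h8 : CIsot I4 (fun x => x) (fun x => m (φ (φ' x))) := h5
    rwa [h7] at h8
  have hn1 : CIsot I4 (fun x => x) n :=
    triv n ψ₁ ψ₂ (tvii O n hn) c₁ c₂ (hcl ψ₁ ψ₂ n T₁ T₂ hn)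
  have hn2 : CIsot I4 (fun x => x) n' :=
    triv n' ψ₃ ψ₄ (tvii O' n' hn') c₃ c₄ (hcl' ψ₃ ψ₄ n' T₃ T₄ hn')
  have hWid : CIsot I4 (fun x => x) W :=
    ct _ _ _ hn2 (ct _ _ _ hnn' (cs _ _ (cc W W (fun x => x) n hWW hn1)))
  exact ⟨F, φ, hF, ⟨univ, isOpen_univ, subset_univ _, fun _ _ => rfl⟩, hφ,
    cc (fun x => x) W φ φ hWid hφφ⟩

end Pool.Agent.Helper34.BX


end

/-! ## Helper34.BX.M_THX -/

section

/-!
# Project BX, module THX: crossing the first cuff when the second cuff bounds a ball crossed once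
-/

set_option autoImplicit false

open scoped Manifold ContDiff Topology ComplexConjugate
open Set Filter Pool.Agent.Helper65.Barb Pool.Agent.Helper18.BI

namespace Pool.Agent.Helper34.BX

open Pool.Agent.Helper34.BI
open Pool.Agent.Helper70.BI

namespace THX

private theorem isCompact_flat_THX (c : ℝ) : IsCompact (flat c) := by
  apply Metric.isCompact_of_isClosed_isBounded
  · apply IsClosed.inter (isClosed_eq continuous_fst continuous_const)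
    exact isClosed_le (continuous_rsq c) continuous_const
  · exact (isBounded_of_rsq c (1 / 25) (1 / 2) (1 / 2)).subset
      (fun p hp => ⟨hp.1.ge, hp.1.le, hp.2⟩)

private theorem lt_of_flat_THX {p : R4} (hp : p ∈ flat 1) : 1 / 2 < p.2.1 := by
  have h1 := sq_le_rsq_one p
  have h2 := hp.2
  nlinarith

private theorem lt_of_sph_THX {p : R4} (hp : p ∈ sph 0) : p.2.1 < 1 / 2 := by
  have h1 := sq_le_rsq p
  have h2 := hp.2
  nlinarith

private theorem sph_sub_flat_THX (c : ℝ) : sph c ⊆ flat c := fun _ hp => ⟨hp.1, hp.2.le⟩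

private theorem ax_mem_SP_THX {a : ℝ} (h1 : 1 / 5 ≤ a) (h2 : a ≤ 4 / 5) : ax a ∈ SP :=
  Or.inr ⟨rfl, h1, h2, rfl⟩

private theorem ball_mem_flat_THX {c : ℝ} {x₀ : R3} (h : nsq (x₀ - pc c) < 1 / 25) :
    ((1 / 2 : ℝ), x₀) ∈ flat c := by
  refine ⟨rfl, ?_⟩
  have e : rsq c ((1 / 2 : ℝ), x₀) = nsq (x₀ - pc c) := by
    simp [rsq, nsq, pc]
  rw [e]
  exact h.le

private theorem hasDerivAt_core_THX {J : R4 → R4} {a : ℝ} (hJ : LD J (ax a)) :
    HasDerivAt (core J) (fderiv ℝ J (ax a) (0, ((1 : ℝ), (0 : ℂ)))) a := by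
  have hd : HasFDerivAt J (fderiv ℝ J (ax a)) (ax a) :=
    ((ld_iff.1 hJ).1.self_of_nhds.differentiableAt (by simp)).hasFDerivAt
  have hax : HasDerivAt ax (0, ((1 : ℝ), (0 : ℂ))) a :=
    (hasDerivAt_const a (1 / 2 : ℝ)).prodMk ((hasDerivAt_id a).prodMk (hasDerivAt_const a (0 : ℂ)))
  exact hd.comp_hasDerivAt a hax

private theorem eventuallyEq_of_lt_THX {O G : R4 → R4}
    (h : ∀ p : R4, 1 / 2 < p.2.1 → O p = G p) {p : R4} (hp : 1 / 2 < p.2.1) : O =ᶠ[𝓝 p] G := by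
  have hc : Continuous fun q : R4 => q.2.1 := by fun_prop
  filter_upwards [(isOpen_lt continuous_const hc).mem_nhds hp] with q hq
  exact h q hq

/-- the second cuff of the obstruction germ bounds a flat ball which is met once by the bar -/
private theorem br_one_THX {J : ℝ × R4 → R4} {β d t' α e : ℝ} {O : R4 → R4}
    (hβ1 : 1 / 5 < β) (hβ2 : β < 4 / 5) (hemb : EmbOn I4 (fun p => J (t', p)) SP)
    (hloc : ∀ t, ∀ p ∈ flat 1, LD (fun p => J (t, p)) p)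
    (hconst : ∀ t t' : ℝ, ∀ p ∈ flat 1, J (t, p) = J (t', p))
    (hinj : InjOn (fun p => J (t', p)) (flat 1 ∪ sph 0))
    (hcr : CrossAt (fun p => J (t', p)) 1 β d)
    (honly : ∀ a ∈ Icc (1 / 5 : ℝ) (4 / 5),
      core (fun p => J (t', p)) a ∈ (fun p => J (t', p)) '' flat 1 → a = 4 / 5 ∨ a = β)
    (hO : Br 0 O α e)
    (hcore : ∀ a ∈ Icc (1 / 5 : ℝ) (4 / 5), core O a = core (fun p => J (t', p)) a)
    (hright : ∀ p : R4, 1 / 2 < p.2.1 → O p = J (t', p))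
    (hdis : Disjoint ((fun p => J ((0 : ℝ), p)) '' flat 1) (O '' flat 0)) : Br 1 O β d := by
  have hflat : ∀ p ∈ flat 1, O p = J (t', p) := fun p hp => hright p (lt_of_flat_THX hp)
  have himg : O '' flat 1 = (fun p => J (t', p)) '' flat 1 := image_congr hflat
  have hne : ∀ p ∈ flat 1, ∀ q ∈ sph 0, O p ≠ O q := by
    intro p hp q hq he
    refine (Set.disjoint_left.1 hdis) (a := O p) ⟨p, hp, ?_⟩ ⟨q, sph_sub_flat_THX 0 hq, he.symm⟩
    rw [hflat p hp]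
    exact hconst 0 t' p hp
  refine ⟨?_, hO.inj, ?_, ⟨hβ1, hβ2⟩, ?_, ?_⟩
  · rintro p (hp | hp)
    · exact hO.loc p (Or.inl hp)
    · exact ld_congr (eventuallyEq_of_lt_THX hright (lt_of_flat_THX hp)).symm (hloc t' p hp)
  · have e0 : (1 : ℝ) - 1 = 0 := by norm_num
    rw [e0]
    rintro p (hp | hp) q (hq | hq) he
    · rw [hflat p hp, hflat q hq] at he
      exact hinj (Or.inl hp) (Or.inl hq) he
    · exact absurd he (hne p hp q hq)
    · exact absurd he.symm (hne q hq p hp)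
    · exact hO.inj (Or.inl (Or.inl hp)) (Or.inl (Or.inl hq)) he
  · obtain ⟨x₀, h1, h2, l, v, h3, h4⟩ := hcr
    have hx : ((1 / 2 : ℝ), x₀) ∈ flat 1 := ball_mem_flat_THX h1
    have hγ : β ∈ Icc (1 / 5 : ℝ) (4 / 5) := ⟨hβ1.le, hβ2.le⟩
    have hax : ax β ∈ SP := ax_mem_SP_THX hγ.1 hγ.2
    refine ⟨x₀, h1, ?_, l, v, h3, ?_⟩
    · rw [hcore _ hγ, hflat _ hx]
      exact h2
    · have hd1 := hasDerivAt_core_THX (hO.loc _ (Or.inl hax))
      have hd2 := hasDerivAt_core_THX (hemb.1 _ hax)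
      have hev : core O =ᶠ[𝓝 β] core (fun p => J (t', p)) := by
        filter_upwards [Ioo_mem_nhds hβ1 hβ2] with a ha
        exact hcore a ⟨ha.1.le, ha.2.le⟩
      have e1 := hd1.unique (hd2.congr_of_eventuallyEq hev)
      have e2 := (eventuallyEq_of_lt_THX hright (lt_of_flat_THX hx)).fderiv_eq (𝕜 := ℝ)
      rw [e1, e2]
      exact h4
  · intro a ha hm
    have e0 : (1 : ℝ) / 5 + 3 / 5 * 1 = 4 / 5 := by norm_num
    rw [e0]
    rw [hcore a ha, himg] at hm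
    exact honly a ha hm

end THX

open THX

/-- **THX.** Crossing the first cuff when the second cuff bounds a ball crossed once by the bar. -/
theorem m_THX (hCRP : StCRP) (hOWL : StOWL) : StTHX := by
  intro W J u₀ β d ε p₀ hW hd hpre hβ1 hβu hε hloc hconst hinj hcr honly
  have hu : u₀ < 4 / 5 := hpre.arc.2
  have hβ2 : β < 4 / 5 := by linarith
  have h00 : (0 : ℝ) ∈ Icc (-1 : ℝ) 1 := ⟨by norm_num, by norm_num⟩
  have hC : IsCompact ((fun p => J ((0 : ℝ), p)) '' flat 1) := by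
    refine (isCompact_flat_THX 1).image_of_continuousOn fun p hp => ?_
    exact ((ld_iff.1 (hloc 0 p hp)).1.self_of_nhds.continuousAt).continuousWithinAt
  have hdis : Disjoint ((fun p => J ((0 : ℝ), p)) '' flat 1)
      ((fun p => J ((0 : ℝ), p)) '' sph 0) := by
    rw [Set.disjoint_left]
    rintro _ ⟨p, hp, rfl⟩ ⟨q, hq, he⟩
    have h1 : q = p := hinj 0 h00 (Or.inr hq) (Or.inl hp) he
    have h2 := lt_of_flat_THX hp
    have h3 := lt_of_sph_THX hq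
    rw [h1] at h3
    exact lt_asymm h2 h3
  have hε' : 0 < min ε (min 1 (u₀ - β)) := lt_min hε (lt_min one_pos (by linarith))
  obtain ⟨t₁, ht₁, t₂, ht₂, hE₁, hE₂, t', t'', htt, O, α, e, hα, he, hBr, hcore, hright, hdisO,
    hcl⟩ := hCRP J 0 u₀ p₀ hpre _ hC hdis _ hε'
  have m1 := min_le_left ε (min 1 (u₀ - β))
  have m2 := (min_le_right ε (min 1 (u₀ - β))).trans (min_le_left _ _)
  have m3 := (min_le_right ε (min 1 (u₀ - β))).trans (min_le_right _ _)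
  have hα' : β < α := by
    have h1 := (abs_lt.1 (lt_of_lt_of_le hα m3)).1
    linarith
  have ht' : t' ∈ Icc (-1 : ℝ) 1 ∧ EmbOn I4 (fun p => J (t', p)) SP := by
    rcases htt with ⟨rfl, rfl⟩ | ⟨rfl, rfl⟩
    · exact ⟨⟨by linarith [ht₁.1], by linarith [ht₁.2]⟩, hE₁⟩
    · exact ⟨⟨by linarith [ht₂.1], by linarith [ht₂.2]⟩, hE₂⟩
  have hB1 : Br 1 O β d := br_one_THX hβ1 hβ2 ht'.2 hloc hconst (hinj t' ht'.1) (hcr t' ht'.1)
    (honly t' ht'.1) hBr hcore hright hdisO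
  have himg : O '' flat 1 = (fun p => J ((0 : ℝ), p)) '' flat 1 := by
    refine image_congr fun p hp => ?_
    rw [hright p (lt_of_flat_THX hp)]
    exact hconst t' 0 p hp
  have hTh : Theta O α β e d := by
    refine ⟨hBr, hB1, ?_, hα'⟩
    rw [himg]
    exact hdisO.symm
  have hO : Thin I4 O W := hW.all O α β e d he hd hTh
  have hOW : OW W (fun p => J (t'', p)) (fun p => J (t', p)) := fun φ ψ hφ hψ =>
    hcl ψ φ W hψ hφ hO
  refine ⟨t₁, ⟨by linarith [ht₁.1], ht₁.2⟩, t₂, ⟨ht₂.1, by linarith [ht₂.2]⟩, hE₁, hE₂, ?_⟩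
  rcases htt with ⟨rfl, rfl⟩ | ⟨rfl, rfl⟩
  · exact (hOWL W hW).1 _ _ hOW
  · exact hOW

end Pool.Agent.Helper34.BX


end

/-! ## Helper34.BX.M_OWL -/

section

/-!
# Project BX, module OWL: properties of the relation `OW`
-/

set_option autoImplicit false

open scoped Manifold ContDiff Topology ComplexConjugate
open Set Filter Pool.Agent.Helper65.Barb Pool.Agent.Helper18.BI

namespace Pool.Agent.Helper34.BX

open Pool.Agent.Helper34.BI
open Pool.Agent.Helper70.BI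
open Pool.Agent.Helper27.BI (swp StR2sw)

/-- **OWL.** Properties of the relation `OW`. -/
theorem m_OWL (hMWL : StMWL) (hT2 : StT2) (hCI : StCI) (hSw : StR2sw) : StOWL := by
  intro W hW
  obtain ⟨-, -, -, -, -, -, tvii⟩ := hT2 R4 R4 I4 R4
  obtain ⟨-, cs, -, ct, cc, cinv, cex, -, -, -⟩ := hCI R4 R4 I4 R4
  have sw := hSw R4 R4 I4 R4
  obtain ⟨F₀, α₀, β₀, hθ, hF₀⟩ := hW.rep
  have hWW : CIsot I4 W W := tvii F₀ W hF₀
  have hsq : ∀ ψ : R4 → R4, CIsot I4 ψ ψ → CIsot I4 (fun x => W (W (ψ x))) ψ := fun ψ hψ =>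
    cc (fun x => W (W x)) (fun x => x) ψ ψ hW.sq hψ
  have hcen : ∀ φ : R4 → R4, CIsot I4 φ φ → CIsot I4 (fun x => W (φ x)) (fun x => φ (W x)) :=
    (hMWL W hW).1
  refine ⟨?_, ?_, ?_⟩
  · intro F G h φ ψ hφ hψ
    have h1 : CIsot I4 φ (fun x => W (ψ x)) := h ψ φ hψ hφ
    exact cs _ _ (ct _ _ _ (cc W W φ (fun x => W (ψ x)) hWW h1) (hsq ψ (tvii F ψ hψ)))
  · intro F G hF hG h φ ψ hφ hψ
    obtain ⟨φ', -, hφ1, hφ2⟩ := cex φ (tvii F φ hφ)
    obtain ⟨ψ', -, hψ1, hψ2⟩ := cex ψ (tvii G ψ hψ)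
    have b1 := (sw F φ φ' hF hφ1 hφ2).1 hφ
    have b2 := (sw G ψ ψ' hG hψ1 hψ2).1 hψ
    have c1 : CIsot I4 ψ' (fun x => W (φ' x)) := h φ' ψ' b1 b2
    obtain ⟨W', hW', w1, w2⟩ := cex W hWW
    have d1 : CIsot I4 ψ (fun x => φ (W' x)) :=
      cinv ψ' (fun x => W (φ' x)) ψ (fun x => φ (W' x)) c1 hψ2 fun x => by rw [hφ2, w1]
    have d2 : CIsot I4 W W' := by
      have d3 := cc W' W' (fun x => W (W x)) (fun x => x) hW' hW.sq
      have d4 : (fun x => W' (W (W x))) = W := funext fun x => w2 (W x)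
      rwa [d4] at d3
    exact ct _ _ _ d1 (ct _ _ _ (cc φ φ W' W (tvii F φ hφ) (cs _ _ d2))
      (cs _ _ (hcen φ (tvii F φ hφ))))
  · intro F F' G G' hFF hGG h φ ψ hφ hψ
    exact h φ ψ ((hFF φ).2 hφ) ((hGG ψ).2 hψ)

end Pool.Agent.Helper34.BX


end
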