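import Pool.Agent.Helper65.Barb.Defs
import Pool.Agent.Helper70.BI.C.P20
import Pool.Agent.Helper70.BI.C.P26
import Pool.Agent.Helper70.BI.C.P56
import Pool.Agent.Helper70.BI.C.Q01

/-!
# Project BI (MP_8e98f2_gt): collected modules, part Q06

The contents of the modules
* Helper34.BX.M_RHO1
* Helper34.BX.M_R3X

in one file, so that the whole proof builds in a short time.
-/

namespace Pool.Agent.Helper18.BI
end Pool.Agent.Helper18.BI

namespace Pool.Agent.Helper34.BI
end Pool.Agent.Helper34.BI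

namespace Pool.Agent.Helper65.Barb
end Pool.Agent.Helper65.Barb

namespace Pool.Agent.Helper70.BI
end Pool.Agent.Helper70.BI


/-! ## Helper34.BX.M_RHO1 -/

section

/-!
# Project BX, module RHO1: the compression `cpr e`
-/

set_option autoImplicit false

open scoped Manifold ContDiff Topology ComplexConjugate
open Set Filter Pool.Agent.Helper65.Barb Pool.Agent.Helper18.BI

namespace Pool.Agent.Helper34.BX

open Pool.Agent.Helper34.BI
open Pool.Agent.Helper70.BI

private theorem step0_RHO1 (s : ℝ) : 0 ≤ step s := Real.smoothTransition.nonneg s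

private theorem step1_RHO1 (s : ℝ) : step s ≤ 1 := Real.smoothTransition.le_one s

private theorem smooth_ramp_RHO1 : ContDiff ℝ ∞ ramp := m_R0.1

/-! ### the axial function -/

private theorem sg_smooth_RHO1 (e b : ℝ) : ContDiff ℝ ∞ (sg e b) := by
  unfold sg
  have h1 : ContDiff ℝ ∞ (fun x : ℝ => ramp ((x - b) / e)) :=
    smooth_ramp_RHO1.comp (by fun_prop)
  have h2 : ContDiff ℝ ∞ (fun x : ℝ => ramp ((-x - b) / e)) :=
    smooth_ramp_RHO1.comp (by fun_prop)
  exact (contDiff_id.sub (contDiff_const.mul h1)).add (contDiff_const.mul h2)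

private theorem sg_deriv_RHO1 (e b : ℝ) (he : 0 < e) (x : ℝ) :
    HasDerivAt (sg e b) (1 - (1 - e) * step ((x - b) / e) - (1 - e) * step ((-x - b) / e)) x := by
  have h1 : HasDerivAt (fun x : ℝ => (x - b) / e) (1 / e) x :=
    ((hasDerivAt_id x).sub_const b).div_const e
  have h2 : HasDerivAt (fun x : ℝ => (-x - b) / e) (-1 / e) x :=
    ((hasDerivAt_id x).neg.sub_const b).div_const e
  have h3 := (m_R0.2.1 ((x - b) / e)).comp x h1
  have h4 := (m_R0.2.1 ((-x - b) / e)).comp x h2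
  have h5 := ((hasDerivAt_id x).sub (h3.const_mul ((1 - e) * e))).add
    (h4.const_mul ((1 - e) * e))
  refine h5.congr_deriv ?_
  field_simp
  ring

private theorem sg_pos_RHO1 (e b : ℝ) (he : 0 < e) (he1 : e < 1) (hb : 0 ≤ b) (x : ℝ) :
    0 < 1 - (1 - e) * step ((x - b) / e) - (1 - e) * step ((-x - b) / e) := by
  rcases le_total x 0 with hx | hx
  · have h : step ((x - b) / e) = 0 :=
      step_of_nonpos (div_nonpos_of_nonpos_of_nonneg (by linarith) he.le)
    have h1 := step1_RHO1 ((-x - b) / e)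
    have h0 := step0_RHO1 ((-x - b) / e)
    rw [h]
    nlinarith
  · have h : step ((-x - b) / e) = 0 :=
      step_of_nonpos (div_nonpos_of_nonpos_of_nonneg (by linarith) he.le)
    have h1 := step1_RHO1 ((x - b) / e)
    have h0 := step0_RHO1 ((x - b) / e)
    rw [h]
    nlinarith

private theorem sg_id_RHO1 (e b : ℝ) (he : 0 < e) (x : ℝ) (hx : |x| ≤ b) : sg e b x = x := by
  have h := abs_le.mp hx
  have h1 : ramp ((x - b) / e) = 0 :=
    m_R0.2.2.1 _ (div_nonpos_of_nonpos_of_nonneg (by linarith) he.le)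
  have h2 : ramp ((-x - b) / e) = 0 :=
    m_R0.2.2.1 _ (div_nonpos_of_nonpos_of_nonneg (by linarith) he.le)
  unfold sg
  rw [h1, h2]
  ring

/-! ### the transversal factor -/

/-- the radicand -/
private noncomputable def rr_RHO1 (e a k : ℝ) : ℝ :=
  1 - (1 - e) * e * ramp ((k - (prof e a + e)) / e) / k

private theorem mf_eq_RHO1 (e a k : ℝ) : mf e a k = √(rr_RHO1 e a k) := rfl

private theorem mf_one_RHO1 (e a k : ℝ) (he : 0 < e) (hk : k ≤ prof e a + e) : mf e a k = 1 := by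
  have h1 : ramp ((k - (prof e a + e)) / e) = 0 :=
    m_R0.2.2.1 _ (div_nonpos_of_nonpos_of_nonneg (by linarith) he.le)
  unfold mf
  rw [h1]
  simp

private theorem rr_ge_RHO1 (e a k : ℝ) (he : 0 < e) (he1 : e < 1) (hk : 0 < k) :
    e ≤ rr_RHO1 e a k := by
  have hg := R1.prof_pos e a he
  have key : (1 - e) * e * ramp ((k - (prof e a + e)) / e) ≤ (1 - e) * k := by
    rcases le_total ((k - (prof e a + e)) / e) 0 with h | h
    · rw [m_R0.2.2.1 _ h]
      nlinarith
    · have h2 := m_R0.2.2.2.2.2 _ h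
      have h3 : e * ramp ((k - (prof e a + e)) / e) ≤ k - (prof e a + e) := by
        have := mul_le_mul_of_nonneg_left h2 he.le
        rwa [mul_div_cancel₀ _ he.ne'] at this
      nlinarith
  unfold rr_RHO1
  have h4 : (1 - e) * e * ramp ((k - (prof e a + e)) / e) / k ≤ 1 - e := by
    rw [div_le_iff₀ hk]
    exact key
  linarith

private theorem rr_deriv_RHO1 (e a k : ℝ) (_he : 0 < e) (hk : 0 < k) :
    HasDerivAt (rr_RHO1 e a)
      (-(((1 - e) * step ((k - (prof e a + e)) / e) * k -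
        (1 - e) * e * ramp ((k - (prof e a + e)) / e)) / k ^ 2)) k := by
  have h1 : HasDerivAt (fun k : ℝ => (k - (prof e a + e)) / e) (1 / e) k :=
    ((hasDerivAt_id k).sub_const _).div_const e
  have h2 := (m_R0.2.1 ((k - (prof e a + e)) / e)).comp k h1
  have h3 := ((h2.const_mul ((1 - e) * e)).div (hasDerivAt_id k) hk.ne').const_sub 1
  refine h3.congr_deriv ?_
  simp only [Function.comp_apply, id]
  field_simp

/-- derivative of the factor in `k` -/
private noncomputable def md_RHO1 (e a k : ℝ) : ℝ :=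
  -(((1 - e) * step ((k - (prof e a + e)) / e) * k -
        (1 - e) * e * ramp ((k - (prof e a + e)) / e)) / k ^ 2) / (2 * √(rr_RHO1 e a k))

private theorem mf_deriv_RHO1 (e a k : ℝ) (he : 0 < e) (he1 : e < 1) (hk : 0 ≤ k) :
    HasDerivAt (mf e a) (md_RHO1 e a k) k := by
  have hg := R1.prof_pos e a he
  rcases lt_or_ge k (prof e a + e) with h | h
  · have hle : (k - (prof e a + e)) / e ≤ 0 :=
      div_nonpos_of_nonpos_of_nonneg (by linarith) he.le
    have h1 : md_RHO1 e a k = 0 := by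
      unfold md_RHO1
      rw [m_R0.2.2.1 _ hle, step_of_nonpos hle]
      simp
    rw [h1]
    have h2 : mf e a =ᶠ[𝓝 k] fun _ => (1 : ℝ) := by
      filter_upwards [Iio_mem_nhds h] with x hx
      exact mf_one_RHO1 e a x he (le_of_lt hx)
    exact (hasDerivAt_const k (1 : ℝ)).congr_of_eventuallyEq h2
  · have hk0 : 0 < k := by linarith
    have h1 := rr_deriv_RHO1 e a k he hk0
    have h2 := rr_ge_RHO1 e a k he he1 hk0
    exact h1.sqrt (by linarith)

private theorem mf_pos_RHO1 (e a k : ℝ) (he : 0 < e) (he1 : e < 1) (hk : 0 ≤ k) :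
    0 < mf e a k ∧ 0 < mf e a k + 2 * k * md_RHO1 e a k := by
  have hg := R1.prof_pos e a he
  rcases lt_or_ge k (prof e a + e) with h | h
  · have hle : (k - (prof e a + e)) / e ≤ 0 :=
      div_nonpos_of_nonpos_of_nonneg (by linarith) he.le
    have h1 : md_RHO1 e a k = 0 := by
      unfold md_RHO1
      rw [m_R0.2.2.1 _ hle, step_of_nonpos hle]
      simp
    rw [h1, mf_one_RHO1 e a k he h.le]
    norm_num
  · have hk0 : 0 < k := by linarith
    have h2 := rr_ge_RHO1 e a k he he1 hk0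
    have h3 : 0 < rr_RHO1 e a k := by linarith
    have h4 : 0 < √(rr_RHO1 e a k) := Real.sqrt_pos.2 h3
    refine ⟨h4, ?_⟩
    have h5 : √(rr_RHO1 e a k) * √(rr_RHO1 e a k) = rr_RHO1 e a k := Real.mul_self_sqrt h3.le
    have h6 : √(rr_RHO1 e a k) * (mf e a k + 2 * k * md_RHO1 e a k) =
        1 - (1 - e) * step ((k - (prof e a + e)) / e) := by
      rw [mf_eq_RHO1]
      unfold md_RHO1
      have h7 : √(rr_RHO1 e a k) * (√(rr_RHO1 e a k) + 2 * k *
          (-(((1 - e) * step ((k - (prof e a + e)) / e) * k -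
        (1 - e) * e * ramp ((k - (prof e a + e)) / e)) / k ^ 2) / (2 * √(rr_RHO1 e a k)))) =
          √(rr_RHO1 e a k) * √(rr_RHO1 e a k) + k *
          (-(((1 - e) * step ((k - (prof e a + e)) / e) * k -
        (1 - e) * e * ramp ((k - (prof e a + e)) / e)) / k ^ 2)) := by
        field_simp
      rw [h7, h5]
      unfold rr_RHO1
      field_simp
      ring
    have h8 : 0 < 1 - (1 - e) * step ((k - (prof e a + e)) / e) := by
      have h9 := step0_RHO1 ((k - (prof e a + e)) / e)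
      have h10 := step1_RHO1 ((k - (prof e a + e)) / e)
      nlinarith
    rw [← h6] at h8
    exact (mul_pos_iff_of_pos_left h4).1 h8

/-- the domain of smoothness -/
private def OO_RHO1 (e : ℝ) : Set (ℝ × ℝ) :=
  {x | x.2 < prof e x.1 + e} ∪ {x | 0 < x.2 ∧ e / 2 < rr_RHO1 e x.1 x.2}

private theorem rr_cont_RHO1 (e : ℝ) (he : 0 < e) :
    ContDiffOn ℝ ∞ (fun x : ℝ × ℝ => rr_RHO1 e x.1 x.2) {x | 0 < x.2} := by
  have h1 : ContDiff ℝ ∞ (fun x : ℝ × ℝ => prof e x.1) := (R1.contDiff_prof e he).comp contDiff_fst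
  have h2 : ContDiff ℝ ∞ (fun x : ℝ × ℝ => ramp ((x.2 - (prof e x.1 + e)) / e)) :=
    smooth_ramp_RHO1.comp ((contDiff_snd.sub (h1.add contDiff_const)).div_const e)
  have h3 : ContDiffOn ℝ ∞ (fun x : ℝ × ℝ => (1 - e) * e * ramp ((x.2 - (prof e x.1 + e)) / e) / x.2)
      {x | 0 < x.2} :=
    (contDiff_const.mul h2).contDiffOn.div contDiff_snd.contDiffOn (fun x hx => ne_of_gt hx)
  exact contDiffOn_const.sub h3

private theorem OO_open_RHO1 (e : ℝ) (he : 0 < e) : IsOpen (OO_RHO1 e) := by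
  have h1 : Continuous (fun x : ℝ × ℝ => prof e x.1) :=
    (R1.contDiff_prof e he).continuous.comp continuous_fst
  have hpos : IsOpen {x : ℝ × ℝ | 0 < x.2} := isOpen_lt continuous_const continuous_snd
  refine (isOpen_lt continuous_snd (h1.add continuous_const)).union ?_
  exact (rr_cont_RHO1 e he).continuousOn.isOpen_inter_preimage hpos isOpen_Ioi

private theorem mf_smooth_RHO1 (e : ℝ) (he : 0 < e) :
    ContDiffOn ℝ ∞ (fun x : ℝ × ℝ => mf e x.1 x.2) (OO_RHO1 e) := by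
  have h1 : Continuous (fun x : ℝ × ℝ => prof e x.1) :=
    (R1.contDiff_prof e he).continuous.comp continuous_fst
  have hpos : IsOpen {x : ℝ × ℝ | 0 < x.2} := isOpen_lt continuous_const continuous_snd
  intro x hx
  apply ContDiffAt.contDiffWithinAt
  rcases hx with hx | hx
  · have h2 : (fun x : ℝ × ℝ => mf e x.1 x.2) =ᶠ[𝓝 x] fun _ => (1 : ℝ) := by
      filter_upwards [(isOpen_lt continuous_snd (h1.add continuous_const)).mem_nhds hx] with y hy
      exact mf_one_RHO1 e y.1 y.2 he (le_of_lt hy)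
    exact contDiffAt_const.congr_of_eventuallyEq h2
  · have h3 : ContDiffAt ℝ ∞ (fun x : ℝ × ℝ => rr_RHO1 e x.1 x.2) x :=
      (rr_cont_RHO1 e he).contDiffAt (hpos.mem_nhds hx.1)
    have h4 : rr_RHO1 e x.1 x.2 ≠ 0 := by
      have := hx.2
      have : 0 < rr_RHO1 e x.1 x.2 := by linarith
      exact this.ne'
    exact h3.sqrt h4

/-! ### the two factors of the compression -/

private theorem tri_emb_RHO1 (e b : ℝ) (he : 0 < e) (he1 : e < 1) (hb : 0 ≤ b) :
    EmbOn 𝓘(ℝ, R4) (tri 1 (fun a => 1 / 2 + sg e b (a - 1 / 2)) (mf e)) univ := by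
  refine m_S0 m_A0 1 (fun a => 1 / 2 + sg e b (a - 1 / 2))
    (fun a => 1 - (1 - e) * step (((a - 1 / 2) - b) / e) - (1 - e) * step ((-(a - 1 / 2) - b) / e))
    (mf e) (md_RHO1 e) (OO_RHO1 e) one_pos ?_ ?_ ?_ (OO_open_RHO1 e he) ?_ (mf_smooth_RHO1 e he)
    (fun a k hk => mf_deriv_RHO1 e a k he he1 hk) (fun a k hk => mf_pos_RHO1 e a k he he1 hk)
  · exact contDiff_const.add ((sg_smooth_RHO1 e b).comp (by fun_prop))
  · intro a
    have h := (sg_deriv_RHO1 e b he (a - 1 / 2)).comp a ((hasDerivAt_id a).sub_const (1 / 2))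
    rw [mul_one] at h
    exact h.const_add (1 / 2)
  · intro a
    exact sg_pos_RHO1 e b he he1 hb _
  · intro a k hk
    rcases lt_or_ge k (prof e a + e) with h | h
    · exact Or.inl h
    · have hg := R1.prof_pos e a he
      have hk0 : 0 < k := by linarith
      have := rr_ge_RHO1 e a k he he1 hk0
      exact Or.inr ⟨hk0, by show e / 2 < rr_RHO1 e a k; linarith⟩

/-- the compression of the first coordinate -/
private noncomputable def fc_RHO1 (e : ℝ) (p : R4) : R4 := (1 / 2 + sg e e (p.1 - 1 / 2), p.2)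

private theorem fc_emb_RHO1 (e : ℝ) (he : 0 < e) (he1 : e < 1) :
    EmbOn 𝓘(ℝ, R4) (fc_RHO1 e) univ := by
  have hsm : ContDiff ℝ ∞ (fc_RHO1 e) := by
    unfold fc_RHO1
    exact (contDiff_const.add ((sg_smooth_RHO1 e e).comp (contDiff_fst.sub contDiff_const))).prodMk
      contDiff_snd
  constructor
  · intro p _
    rw [m_A0 R4 (fc_RHO1 e) p]
    refine ⟨⟨univ, isOpen_univ, mem_univ _, hsm.contDiffOn⟩, ?_⟩
    intro v hv
    have hd := sg_deriv_RHO1 e e he (p.1 - 1 / 2)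
    have hpos := sg_pos_RHO1 e e he he1 he.le (p.1 - 1 / 2)
    have h1 : HasFDerivAt (fun p : R4 => p.1 - 1 / 2) (ContinuousLinearMap.fst ℝ ℝ (ℝ × ℂ)) p :=
      (hasFDerivAt_fst).sub_const (1 / 2)
    have h2 := (hd.comp_hasFDerivAt p h1).const_add (1 / 2)
    have h3 : HasFDerivAt (fun p : R4 => p.2) (ContinuousLinearMap.snd ℝ ℝ (ℝ × ℂ)) p :=
      hasFDerivAt_snd
    have h4 := h2.prodMk h3
    have h5 : HasFDerivAt (fc_RHO1 e) _ p := h4
    rw [h5.fderiv] at hv
    have h6 := congrArg Prod.fst hv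
    have h7 := congrArg Prod.snd hv
    simp only [ContinuousLinearMap.prod_apply, smul_apply,
      ContinuousLinearMap.coe_fst', ContinuousLinearMap.coe_snd', smul_eq_mul, Prod.fst_zero,
      Prod.snd_zero] at h6 h7
    have h8 : v.1 = 0 := by
      rcases mul_eq_zero.1 h6 with h | h
      · exact absurd h hpos.ne'
      · exact h
    exact Prod.ext h8 h7
  · intro p _ q _ hpq
    have hmono : StrictMono (sg e e) := by
      apply strictMono_of_deriv_pos
      intro x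
      rw [(sg_deriv_RHO1 e e he x).deriv]
      exact sg_pos_RHO1 e e he he1 he.le x
    have h1 := congrArg Prod.fst hpq
    have h2 := congrArg Prod.snd hpq
    simp only [fc_RHO1] at h1 h2
    have h3 : sg e e (p.1 - 1 / 2) = sg e e (q.1 - 1 / 2) := by linarith
    have h4 := hmono.injective h3
    exact Prod.ext (by linarith) h2

private theorem half_RHO1 (e x : ℝ) : x ≤ (x + √(x ^ 2 + e ^ 2)) / 2 ∧
    0 ≤ (x + √(x ^ 2 + e ^ 2)) / 2 := by
  have h1 : |x| ≤ √(x ^ 2 + e ^ 2) := by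
    rw [← Real.sqrt_sq_eq_abs]
    exact Real.sqrt_le_sqrt (by nlinarith [sq_nonneg e])
  have h2 := le_abs_self x
  have h3 := neg_abs_le x
  constructor <;> linarith

theorem m_RHO1 : StRHO1 := by
  rintro e ⟨he, he1⟩
  have he1' : e < 1 := by linarith
  have hT := tri_emb_RHO1 e (7 / 10 + e) he he1' (by linarith)
  have hF := fc_emb_RHO1 e he he1'
  obtain ⟨hEm, hEid, -⟩ := Pool.Agent.Helper34.BI.m_RE e ⟨he, he1⟩
  have hc : cpr e = fun p => fc_RHO1 e
      (tri 1 (fun a => 1 / 2 + sg e (7 / 10 + e) (a - 1 / 2)) (mf e) (Em e p)) := rfl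
  refine ⟨⟨?_, ?_⟩, ?_⟩
  · intro p hp
    rw [hc]
    have h1 := IsLocalDiffeomorphAt.comp (hf := hEm.1 p hp) (hg := hT.1 (Em e p) (mem_univ _))
    exact IsLocalDiffeomorphAt.comp (hf := h1) (hg := hF.1 _ (mem_univ _))
  · intro p hp q hq hpq
    rw [hc] at hpq
    exact hEm.2 hp hq (hT.2 (mem_univ _) (mem_univ _) (hF.2 (mem_univ _) (mem_univ _) hpq))
  · refine ⟨{p | (1 / 25 - e < rsq 0 p ∧ 1 / 25 - e < rsq 1 p) ∧ (|p.1 - 1 / 2| < e ∧
      |p.2.1 - 1 / 2| < 7 / 10 + e) ∧ Complex.normSq p.2.2 < prof e p.2.1 + e}, ?_, ?_, ?_⟩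
    · have c0 := (R2.rsq_contDiff 0).continuous
      have c1 := (R2.rsq_contDiff 1).continuous
      have c2 : Continuous (fun p : R4 => prof e p.2.1) :=
        (R1.contDiff_prof e he).continuous.comp (continuous_fst.comp continuous_snd)
      have c3 : Continuous (fun p : R4 => Complex.normSq p.2.2) :=
        Complex.continuous_normSq.comp (continuous_snd.comp continuous_snd)
      have c4 : Continuous (fun p : R4 => |p.1 - 1 / 2|) :=
        (continuous_fst.sub continuous_const).abs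
      have c5 : Continuous (fun p : R4 => |p.2.1 - 1 / 2|) :=
        ((continuous_fst.comp continuous_snd).sub continuous_const).abs
      exact IsOpen.inter (IsOpen.inter (isOpen_lt continuous_const c0)
        (isOpen_lt continuous_const c1)) (IsOpen.inter (IsOpen.inter (isOpen_lt c4
        continuous_const) (isOpen_lt c5 continuous_const))
        (isOpen_lt c3 (c2.add continuous_const)))
    · intro p hp
      have hA := half_RHO1 e (1 / 25 - p.2.1 ^ 2)
      have hB := half_RHO1 e (1 / 25 - (p.2.1 - 1) ^ 2)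
      have hprof : prof e p.2.1 = ((1 / 25 - p.2.1 ^ 2) + √((1 / 25 - p.2.1 ^ 2) ^ 2 + e ^ 2)) / 2 +
        ((1 / 25 - (p.2.1 - 1) ^ 2) + √((1 / 25 - (p.2.1 - 1) ^ 2) ^ 2 + e ^ 2)) / 2 := rfl
      have hw0 : 0 ≤ Complex.normSq p.2.2 := Complex.normSq_nonneg _
      have r0 : rsq 0 p = p.2.1 ^ 2 + Complex.normSq p.2.2 := by
        rw [R2.rsq_eq, Complex.normSq_apply]; ring
      have r1 : rsq 1 p = (p.2.1 - 1) ^ 2 + Complex.normSq p.2.2 := by
        rw [R2.rsq_eq, Complex.normSq_apply]; ring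
      show (1 / 25 - e < rsq 0 p ∧ 1 / 25 - e < rsq 1 p) ∧ (|p.1 - 1 / 2| < e ∧
        |p.2.1 - 1 / 2| < 7 / 10 + e) ∧ Complex.normSq p.2.2 < prof e p.2.1 + e
      rcases hp with (hp | hp) | hp
      · obtain ⟨h1, h2⟩ := hp
        have h3 : p.2.1 ^ 2 ≤ 1 / 25 := by rw [r0] at h2; linarith
        have h4 : p.2.1 ≤ 1 / 5 := by nlinarith
        have h5 : -(1 / 5) ≤ p.2.1 := by nlinarith
        refine ⟨⟨by rw [h2]; linarith, by rw [r1]; rw [r0] at h2; nlinarith⟩, ⟨?_, ?_⟩, ?_⟩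
        · rw [h1]; simpa using he
        · rw [abs_lt]; constructor <;> linarith
        · rw [hprof]; rw [r0] at h2; linarith [hA.1, hB.2]
      · obtain ⟨h1, h2⟩ := hp
        have h3 : (p.2.1 - 1) ^ 2 ≤ 1 / 25 := by rw [r1] at h2; linarith
        have h4 : p.2.1 ≤ 6 / 5 := by nlinarith
        have h5 : 4 / 5 ≤ p.2.1 := by nlinarith
        refine ⟨⟨by rw [r0]; rw [r1] at h2; nlinarith, by rw [h2]; linarith⟩, ⟨?_, ?_⟩, ?_⟩
        · rw [h1]; simpa using he
        · rw [abs_lt]; constructor <;> linarith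
        · rw [hprof]; rw [r1] at h2; linarith [hA.2, hB.1]
      · obtain ⟨h1, h2, h3, h4⟩ := hp
        have h5 : Complex.normSq p.2.2 = 0 := by rw [h4]; simp
        refine ⟨⟨by rw [r0]; nlinarith, by rw [r1]; nlinarith⟩, ⟨?_, ?_⟩, ?_⟩
        · rw [h1]; simpa using he
        · rw [abs_lt]; constructor <;> linarith
        · rw [h5, hprof]; linarith [hA.2, hB.2]
    · rintro p ⟨⟨h1, h2⟩, ⟨h3, h4⟩, h5⟩
      rw [hc]
      show fc_RHO1 e (tri 1 (fun a => 1 / 2 + sg e (7 / 10 + e) (a - 1 / 2)) (mf e) (Em e p)) = p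
      rw [hEid p h1.le h2.le]
      show fc_RHO1 e (1 / 2 + 1 * (p.1 - 1 / 2), 1 / 2 + sg e (7 / 10 + e) (p.2.1 - 1 / 2),
        ((mf e p.2.1 (Complex.normSq p.2.2) : ℝ) : ℂ) * p.2.2) = p
      rw [mf_one_RHO1 e p.2.1 _ he h5.le, sg_id_RHO1 e (7 / 10 + e) he _ h4.le]
      have h6 : ((1 / 2 + 1 * (p.1 - 1 / 2), 1 / 2 + (p.2.1 - 1 / 2), ((1 : ℝ) : ℂ) * p.2.2) : R4)
          = p := by
        refine Prod.ext ?_ (Prod.ext ?_ ?_)
        · show 1 / 2 + 1 * (p.1 - 1 / 2) = p.1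
          ring
        · show 1 / 2 + (p.2.1 - 1 / 2) = p.2.1
          ring
        · show ((1 : ℝ) : ℂ) * p.2.2 = p.2.2
          simp
      rw [h6]
      unfold fc_RHO1
      rw [sg_id_RHO1 e e he _ h3.le]
      refine Prod.ext ?_ rfl
      show 1 / 2 + (p.1 - 1 / 2) = p.1
      ring

end Pool.Agent.Helper34.BX


end

/-! ## Helper34.BX.M_R3X -/

section

/-!
# Project BX (MP_8e98f2_gt), module R3X: realization of a germ by a barbell, exact near the spine
-/

set_option autoImplicit false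

open scoped Manifold ContDiff Topology ComplexConjugate
open Set Filter Pool.Agent.Helper65.Barb Pool.Agent.Helper18.BI

namespace Pool.Agent.Helper34.BX

theorem m_R3X (a1 : StA1) (t2 : StT2) (t3 : StT3) (im : StImp) (s4 : StS4) (r1 : StRHO1)
    (r2 : StRHO2) : StR3X := by
  intro φ G hG hT
  obtain ⟨-, -, -, -, -, s46, s47, s48, cSP, -, -⟩ := s4
  -- the open set on which the germ is an embedding
  obtain ⟨δ₀, hδ₀, hδG⟩ := a1 R4 (EuclideanSpace ℝ (Fin 4)) (EuclideanSpace ℝ (Fin 4)) (𝓡 4) S4 G SP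
    cSP hG.1 hG.2
  have hGloc : ∀ q ∈ δ₀.source, IsLocalDiffeomorphAt 𝓘(ℝ, R4) (𝓡 4) ∞ G q :=
    fun q hq => ⟨δ₀, hq, fun p hp => (hδG p hp).symm⟩
  have hGinj : InjOn G δ₀.source := by
    intro p hp q hq h
    rw [← hδG p hp, ← hδG q hq] at h
    exact δ₀.injOn hp hq h
  -- the compression
  obtain ⟨e₀, he₀, hmaps⟩ := r2 δ₀.source δ₀.open_source hδ₀
  obtain ⟨e, he1, he2⟩ : ∃ e : ℝ, e ∈ Ioo (0 : ℝ) e₀ ∧ e ∈ Ioo (0 : ℝ) (1 / 100) := by
    refine ⟨min e₀ (1 / 100) / 2, ⟨by positivity, ?_⟩, ⟨by positivity, ?_⟩⟩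
    · have k1 := min_le_left e₀ (1 / 100 : ℝ)
      linarith
    · have k1 := min_le_right e₀ (1 / 100 : ℝ)
      linarith
  obtain ⟨hκ, U, hU, hSU, hUe⟩ := r1 e he2
  have hpos : ∀ p ∈ Pool.Agent.Helper65.Barb.NB, p ∈ {p : R4 | 0 < rsq 0 p ∧ 0 < rsq 1 p} := by
    intro p hp
    exact ⟨lt_of_lt_of_le (by norm_num) hp.2.1, lt_of_lt_of_le (by norm_num) hp.2.2⟩
  have hV := hmaps e he1
  -- the barbell
  have hloc : ∀ p ∈ Pool.Agent.Helper65.Barb.NB,
      IsLocalDiffeomorphAt 𝓘(ℝ, R4) (𝓡 4) ∞ (fun p => G (cpr e p)) p := fun p hp =>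
    IsLocalDiffeomorphAt.comp (hf := hκ.1 p (hpos p hp)) (hg := hGloc _ (hV hp))
  have hinj : InjOn (fun p => G (cpr e p)) Pool.Agent.Helper65.Barb.NB := fun p hp q hq h =>
    hκ.2 (hpos p hp) (hpos q hq) (hGinj (hV hp) (hV hq) h)
  obtain ⟨B, hB, hBG⟩ := a1 R4 (EuclideanSpace ℝ (Fin 4)) (EuclideanSpace ℝ (Fin 4)) (𝓡 4) S4
    (fun p => G (cpr e p)) Pool.Agent.Helper65.Barb.NB isCompact_NB hloc hinj
  have hUo : IsOpen (B.source ∩ U) := B.open_source.inter hU
  have hSPU : SP ⊆ B.source ∩ U := fun p hp => ⟨hB (s48 (s46 hp)), hSU hp⟩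
  have hEq : EqOn B G (B.source ∩ U) := by
    intro p hp
    rw [hBG p hp.1, hUe p hp.2]
  refine ⟨B, hB, ⟨B.source ∩ U, hUo, hSPU, hEq⟩, ?_⟩
  have hEB : EmbOn (𝓡 4) B EB :=
    ⟨fun p hp => ⟨B, hB (s48 hp), fun q _ => rfl⟩, B.injOn.mono (s48.trans hB)⟩
  have h3 := t3 (EuclideanSpace ℝ (Fin 4)) (EuclideanSpace ℝ (Fin 4)) (𝓡 4) S4 B hEB
  have hinjB : InjOn B bsupp := B.injOn.mono (bsupp_subset.trans hB)
  have h5 := (im (EuclideanSpace ℝ (Fin 4)) (EuclideanSpace ℝ (Fin 4)) (𝓡 4) S4 B bsupp barMap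
    hinjB).2.2.2.2.1 B (bsupp_subset.trans hB) (fun p _ => rfl) MR3.mapsTo_barMap
    (fun p hp => barMap_off hp)
  rw [h5] at h3
  have hT' : Thin (𝓡 4) B φ := (t2 (EuclideanSpace ℝ (Fin 4)) (EuclideanSpace ℝ (Fin 4)) (𝓡 4)
    S4).2.2.2.2.1 G B (B.source ∩ U) φ hUo hSPU hEq.symm hT
  exact (t2 (EuclideanSpace ℝ (Fin 4)) (EuclideanSpace ℝ (Fin 4)) (𝓡 4) S4).2.1 B φ _ hT' h3

end Pool.Agent.Helper34.BX


end
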