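import Pool.Agent.Helper65.Barb.Defs
import Pool.Agent.Helper70.BI.C.P20
import Pool.Agent.Helper70.BI.C.Q01

/-!
# Project BI (MP_8e98f2_gt): collected modules, part Q07

The contents of the modules
* Helper34.BX.M_RHO2

in one file, so that the whole proof builds in a short time.
-/

namespace Pool.Agent.Helper18.BI
end Pool.Agent.Helper18.BI

namespace Pool.Agent.Helper34.BI
end Pool.Agent.Helper34.BI

namespace Pool.Agent.Helper65.Barb
end Pool.Agent.Helper65.Barb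


/-! ## Helper34.BX.M_RHO2 -/

section

/-!
# Project BX, module RHO2: `cpr e` maps the thickened barbell into a neighbourhood of the spine
-/

set_option autoImplicit false

open scoped Manifold ContDiff Topology ComplexConjugate
open Set Filter Pool.Agent.Helper65.Barb Pool.Agent.Helper18.BI

namespace Pool.Agent.Helper34.BX

open Pool.Agent.Helper34.BI

private lemma ramp_nonpos_RHO2 {x : ℝ} (h : x ≤ 0) : ramp x = 0 := (m_R0).2.2.1 x h
private lemma ramp_nonneg_RHO2 (x : ℝ) : 0 ≤ ramp x := (m_R0).2.2.2.1 x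
private lemma ramp_ge_RHO2 (x : ℝ) : x - 1 ≤ ramp x := (m_R0).2.2.2.2.1 x
private lemma ramp_le_RHO2 {x : ℝ} (h : 0 ≤ x) : ramp x ≤ x := (m_R0).2.2.2.2.2 x h

private lemma sg_id_RHO2 {e b x : ℝ} (he : 0 < e) (h : |x| ≤ b) : sg e b x = x := by
  have h1 := abs_le.1 h
  unfold sg
  rw [ramp_nonpos_RHO2 (x := (x - b) / e) (div_nonpos_of_nonpos_of_nonneg (by linarith) he.le),
    ramp_nonpos_RHO2 (x := (-x - b) / e) (div_nonpos_of_nonpos_of_nonneg (by linarith) he.le)]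
  ring

private lemma sg_pos_RHO2 {e b x : ℝ} (he : 0 < e) (he1 : e < 1) (hb : 0 ≤ b) (h : b ≤ x) :
    b ≤ sg e b x ∧ sg e b x ≤ b + e * (x - b) + e := by
  unfold sg
  rw [ramp_nonpos_RHO2 (x := (-x - b) / e) (div_nonpos_of_nonpos_of_nonneg (by linarith) he.le)]
  have h1 := ramp_ge_RHO2 ((x - b) / e)
  have h2 := ramp_le_RHO2 (x := (x - b) / e) (div_nonneg (by linarith) he.le)
  have e1 : e * ((x - b) / e) = x - b := by field_simp
  have h3 : e * ramp ((x - b) / e) ≤ x - b := by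
    calc e * ramp ((x - b) / e) ≤ e * ((x - b) / e) := by gcongr
      _ = x - b := e1
  have h4 : x - b - e ≤ e * ramp ((x - b) / e) := by
    calc x - b - e = e * ((x - b) / e - 1) := by rw [mul_sub, e1]; ring
      _ ≤ _ := by gcongr
  constructor
  · have : (1 - e) * (e * ramp ((x - b) / e)) ≤ (1 - e) * (x - b) := by
      apply mul_le_mul_of_nonneg_left h3; linarith
    nlinarith
  · have : (1 - e) * (x - b - e) ≤ (1 - e) * (e * ramp ((x - b) / e)) := by
      apply mul_le_mul_of_nonneg_left h4; linarith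
    nlinarith

private lemma sg_neg_RHO2 (e b x : ℝ) : sg e b (-x) = -sg e b x := by
  unfold sg
  have : -(-x) - b = x - b := by ring
  rw [this]; ring

private lemma sg_abs_RHO2 {e b x M : ℝ} (he : 0 < e) (he1 : e < 1) (hb : 0 ≤ b) (h : |x| ≤ M) :
    |sg e b x| ≤ b + e * M + e := by
  have hM : 0 ≤ M := (abs_nonneg x).trans h
  rcases le_total |x| b with h1 | h1
  · rw [sg_id_RHO2 he h1]; nlinarith [mul_nonneg he.le hM]
  · have key : ∀ z : ℝ, 0 ≤ z → z ≤ M → b ≤ z → |sg e b z| ≤ b + e * M + e := by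
      intro z _ hz2 hz3
      obtain ⟨g1, g2⟩ := sg_pos_RHO2 he he1 hb hz3
      rw [abs_of_nonneg (hb.trans g1)]
      nlinarith [mul_nonneg he.le hb, mul_le_mul_of_nonneg_left hz2 he.le]
    rcases abs_cases x with ⟨h2, h3⟩ | ⟨h2, h3⟩
    · exact key x h3 (h2 ▸ h) (h2 ▸ h1)
    · have := key (-x) (by linarith) (h2 ▸ h) (h2 ▸ h1)
      rwa [sg_neg_RHO2, abs_neg] at this

private lemma sg_ge_RHO2 {e b x : ℝ} (he : 0 < e) (he1 : e < 1) (hb : 0 ≤ b) (h : b ≤ |x|) :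
    b ≤ |sg e b x| := by
  rcases abs_cases x with ⟨h2, h3⟩ | ⟨h2, h3⟩
  · exact (sg_pos_RHO2 he he1 hb (h2 ▸ h)).1.trans (le_abs_self _)
  · have := (sg_pos_RHO2 he he1 hb (h2 ▸ h)).1
    rw [sg_neg_RHO2] at this
    exact this.trans (neg_le_abs _)

private lemma prof_zero_RHO2 (a : ℝ) : prof 0 a = ((1 / 25 - a ^ 2) + |1 / 25 - a ^ 2|) / 2 +
    ((1 / 25 - (a - 1) ^ 2) + |1 / 25 - (a - 1) ^ 2|) / 2 := by
  unfold prof
  have h : ∀ x : ℝ, √(x ^ 2 + 0 ^ 2) = |x| := by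
    intro x; rw [show x ^ 2 + (0 : ℝ) ^ 2 = x ^ 2 by ring]; exact Real.sqrt_sq_eq_abs x
  rw [h, h]

private lemma half_abs_RHO2 (x : ℝ) : 0 ≤ (x + |x|) / 2 ∧ x ≤ (x + |x|) / 2 := by
  rcases abs_cases x with ⟨h, h'⟩ | ⟨h, h'⟩ <;> rw [h] <;> constructor <;> linarith

private lemma prof_nonneg_RHO2 (a : ℝ) : 0 ≤ prof 0 a := by
  rw [prof_zero_RHO2]
  have h1 := (half_abs_RHO2 (1 / 25 - a ^ 2)).1
  have h2 := (half_abs_RHO2 (1 / 25 - (a - 1) ^ 2)).1
  linarith

private lemma sqrt_bds_RHO2 {e : ℝ} (he : 0 < e) (x : ℝ) :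
    |x| ≤ √(x ^ 2 + e ^ 2) ∧ √(x ^ 2 + e ^ 2) ≤ |x| + e := by
  constructor
  · rw [← Real.sqrt_sq_eq_abs]; exact Real.sqrt_le_sqrt (by nlinarith [sq_nonneg e])
  · apply Real.sqrt_le_iff.2
    refine ⟨by positivity, ?_⟩
    nlinarith [sq_abs x, mul_nonneg (abs_nonneg x) he.le]

private lemma prof_le_RHO2 {e : ℝ} (he : 0 < e) (a : ℝ) :
    prof 0 a ≤ prof e a ∧ prof e a ≤ prof 0 a + e := by
  rw [prof_zero_RHO2]; unfold prof
  have h1 := sqrt_bds_RHO2 he (1 / 25 - a ^ 2)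
  have h2 := sqrt_bds_RHO2 he (1 / 25 - (a - 1) ^ 2)
  constructor <;> linarith [h1.1, h1.2, h2.1, h2.2]

private lemma prof_ge_RHO2 (a : ℝ) : 1 / 25 - a ^ 2 ≤ prof 0 a ∧ 1 / 25 - (a - 1) ^ 2 ≤ prof 0 a := by
  rw [prof_zero_RHO2]
  have h1 := (half_abs_RHO2 (1 / 25 - a ^ 2))
  have h2 := (half_abs_RHO2 (1 / 25 - (a - 1) ^ 2))
  constructor <;> linarith [h1.1, h1.2, h2.1, h2.2]

private lemma prof_off_RHO2 {a : ℝ} (h : 7 / 10 ≤ |a - 1 / 2|) : prof 0 a = 0 := by
  rw [prof_zero_RHO2]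
  have h1 : 1 / 25 - a ^ 2 ≤ 0 := by
    rcases abs_cases (a - 1 / 2) with ⟨h2, h3⟩ | ⟨h2, h3⟩ <;> nlinarith
  have h2 : 1 / 25 - (a - 1) ^ 2 ≤ 0 := by
    rcases abs_cases (a - 1 / 2) with ⟨h2, h3⟩ | ⟨h2, h3⟩ <;> nlinarith
  rw [abs_of_nonpos h1, abs_of_nonpos h2]; ring

/-- the squared modulus of the last coordinate after the second compression -/
private lemma mf_sq_RHO2 {e a k : ℝ} (he : 0 < e) (he1 : e < 1) (hk : 0 ≤ k) :
    let G := prof e a + e
    (mf e a k) ^ 2 * k ≤ G + e * k + e ∧ (k ≤ G → mf e a k = 1) ∧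
      (G < k → G ≤ (mf e a k) ^ 2 * k) := by
  intro G
  have hG : 0 < G := by
    have := (prof_le_RHO2 he a).1
    have := prof_nonneg_RHO2 a
    show 0 < prof e a + e
    linarith
  have h1 : k ≤ G → mf e a k = 1 := by
    intro h
    unfold mf
    rw [ramp_nonpos_RHO2 (x := (k - (prof e a + e)) / e)
      (div_nonpos_of_nonpos_of_nonneg (by show k - G ≤ 0; linarith) he.le)]
    simp
  refine ⟨?_, h1, ?_⟩
  · rcases le_or_gt k G with h | h
    · rw [h1 h]; nlinarith [mul_nonneg he.le hk]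
    · have hk0 : 0 < k := hG.trans h
      have r1 := ramp_ge_RHO2 ((k - G) / e)
      have r2 := ramp_le_RHO2 (x := (k - G) / e) (div_nonneg (by linarith) he.le)
      have e1 : e * ((k - G) / e) = k - G := by field_simp
      have h3 : e * ramp ((k - G) / e) ≤ k - G := by
        calc e * ramp ((k - G) / e) ≤ e * ((k - G) / e) := by gcongr
          _ = _ := e1
      have h4 : k - G - e ≤ e * ramp ((k - G) / e) := by
        calc k - G - e = e * ((k - G) / e - 1) := by rw [mul_sub, e1]; ring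
          _ ≤ _ := by gcongr
      have h5 : (1 - e) * (e * ramp ((k - G) / e)) ≤ (1 - e) * (k - G) :=
        mul_le_mul_of_nonneg_left h3 (by linarith)
      have h6 : (1 - e) * (k - G - e) ≤ (1 - e) * (e * ramp ((k - G) / e)) :=
        mul_le_mul_of_nonneg_left h4 (by linarith)
      have hs : (mf e a k) ^ 2 * k = k - (1 - e) * (e * ramp ((k - G) / e)) := by
        unfold mf
        rw [Real.sq_sqrt]
        · show (1 - (1 - e) * e * ramp ((k - G) / e) / k) * k = _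
          rw [sub_mul, one_mul, div_mul_cancel₀ _ hk0.ne']; ring
        · rw [sub_nonneg, div_le_one hk0]
          show (1 - e) * e * ramp ((k - G) / e) ≤ k
          nlinarith
      rw [hs]; nlinarith
  · intro h
    have hk0 : 0 < k := hG.trans h
    have r2 := ramp_le_RHO2 (x := (k - G) / e) (div_nonneg (by linarith) he.le)
    have e1 : e * ((k - G) / e) = k - G := by field_simp
    have h3 : e * ramp ((k - G) / e) ≤ k - G := by
      calc e * ramp ((k - G) / e) ≤ e * ((k - G) / e) := by gcongr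
        _ = _ := e1
    have h5 : (1 - e) * (e * ramp ((k - G) / e)) ≤ (1 - e) * (k - G) :=
      mul_le_mul_of_nonneg_left h3 (by linarith)
    have hs : (mf e a k) ^ 2 * k = k - (1 - e) * (e * ramp ((k - G) / e)) := by
      unfold mf
      rw [Real.sq_sqrt]
      · show (1 - (1 - e) * e * ramp ((k - G) / e) / k) * k = _
        rw [sub_mul, one_mul, div_mul_cancel₀ _ hk0.ne']; ring
      · rw [sub_nonneg, div_le_one hk0]
        show (1 - e) * e * ramp ((k - G) / e) ≤ k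
        nlinarith
    rw [hs]; nlinarith

/-- the amount by which a point fails to be on the spine -/
private noncomputable def fail_RHO2 (p : R4) : ℝ :=
  max |p.1 - 1 / 2| (max (-1 / 5 - p.2.1) (max (p.2.1 - 6 / 5)
    (max (Complex.normSq p.2.2 - prof 0 p.2.1) (max (1 / 25 - rsq 0 p) (1 / 25 - rsq 1 p)))))

private lemma fail_cont_RHO2 : Continuous fail_RHO2 := by
  unfold fail_RHO2 rsq nsq prof
  fun_prop

private lemma rsq_eq_RHO2 (c : ℝ) (p : R4) :
    rsq c p = (p.2.1 - c) ^ 2 + Complex.normSq p.2.2 := by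
  unfold rsq nsq; rw [Complex.normSq_apply]; ring

private lemma fail_mem_RHO2 {p : R4} (h : fail_RHO2 p ≤ 0) : p ∈ SP := by
  unfold fail_RHO2 at h
  simp only [max_le_iff] at h
  obtain ⟨h1, h2, h3, h4, h5, h6⟩ := h
  have hp1 : p.1 = 1 / 2 := by
    have := abs_nonpos_iff.1 h1
    linarith
  have hk : 0 ≤ Complex.normSq p.2.2 := Complex.normSq_nonneg _
  rw [rsq_eq_RHO2] at h5 h6
  rw [prof_zero_RHO2] at h4
  rcases le_or_gt |p.2.1| (1 / 5) with ha | ha
  · left; left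
    refine ⟨hp1, ?_⟩
    rw [rsq_eq_RHO2]
    have ha' := abs_le.1 ha
    have e1 : 0 ≤ 1 / 25 - p.2.1 ^ 2 := by nlinarith [ha'.1, ha'.2]
    have e2 : 1 / 25 - (p.2.1 - 1) ^ 2 ≤ 0 := by nlinarith [ha'.1, ha'.2]
    rw [abs_of_nonneg e1, abs_of_nonpos e2] at h4
    nlinarith
  · rcases le_or_gt |p.2.1 - 1| (1 / 5) with hb | hb
    · left; right
      refine ⟨hp1, ?_⟩
      rw [rsq_eq_RHO2]
      have ha' := abs_le.1 hb
      have e1 : 1 / 25 - p.2.1 ^ 2 ≤ 0 := by nlinarith [ha'.1, ha'.2]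
      have e2 : 0 ≤ 1 / 25 - (p.2.1 - 1) ^ 2 := by nlinarith [ha'.1, ha'.2]
      rw [abs_of_nonpos e1, abs_of_nonneg e2] at h4
      nlinarith
    · right
      have a1 : 1 / 5 < p.2.1 := by
        rcases lt_abs.1 ha with h | h
        · exact h
        · linarith
      have a2 : p.2.1 < 4 / 5 := by
        rcases lt_abs.1 hb with h | h
        · linarith
        · linarith
      have e1 : 1 / 25 - p.2.1 ^ 2 ≤ 0 := by nlinarith
      have e2 : 1 / 25 - (p.2.1 - 1) ^ 2 ≤ 0 := by nlinarith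
      rw [abs_of_nonpos e1, abs_of_nonpos e2] at h4
      refine ⟨hp1, a1.le, a2.le, ?_⟩
      apply Complex.normSq_eq_zero.1
      linarith

private lemma fail_bd_RHO2 {p : R4} (h : fail_RHO2 p ≤ 1) : p ∈ Metric.closedBall (0 : R4) 4 := by
  unfold fail_RHO2 at h
  simp only [max_le_iff] at h
  obtain ⟨h1, h2, h3, h4, h5, h6⟩ := h
  have hp1 := abs_le.1 h1
  have hk4 : Complex.normSq p.2.2 ≤ 4 := by
    rw [prof_zero_RHO2] at h4
    have b1 : ((1 / 25 - p.2.1 ^ 2) + |1 / 25 - p.2.1 ^ 2|) / 2 ≤ 1 / 25 := by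
      rcases abs_cases (1 / 25 - p.2.1 ^ 2) with ⟨h, h'⟩ | ⟨h, h'⟩ <;> rw [h] <;> nlinarith
    have b2 : ((1 / 25 - (p.2.1 - 1) ^ 2) + |1 / 25 - (p.2.1 - 1) ^ 2|) / 2 ≤ 1 / 25 := by
      rcases abs_cases (1 / 25 - (p.2.1 - 1) ^ 2) with ⟨h, h'⟩ | ⟨h, h'⟩ <;> rw [h] <;> nlinarith
    linarith
  rw [Metric.mem_closedBall, dist_zero_right, Prod.norm_def, Prod.norm_def]
  have hw : ‖p.2.2‖ ≤ 4 := by
    rw [Complex.normSq_eq_norm_sq] at hk4
    nlinarith [norm_nonneg p.2.2]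
  simp only [max_le_iff, Real.norm_eq_abs, abs_le]
  refine ⟨⟨by linarith, by linarith⟩, ⟨by linarith, by linarith⟩, hw⟩

/-- the sublevel sets of `fail` shrink to the spine -/
private lemma fail_small_RHO2 {V : Set R4} (hV : IsOpen V) (hS : SP ⊆ V) :
    ∃ m > 0, ∀ p, fail_RHO2 p ≤ m → p ∈ V := by
  have hK : IsCompact (Metric.closedBall (0 : R4) 4 \ V) :=
    (isCompact_closedBall (0 : R4) 4).diff hV
  rcases (Metric.closedBall (0 : R4) 4 \ V).eq_empty_or_nonempty with h | h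
  · refine ⟨1, one_pos, fun p hp => ?_⟩
    by_contra hpV
    have : p ∈ Metric.closedBall (0 : R4) 4 \ V := ⟨fail_bd_RHO2 hp, hpV⟩
    rw [h] at this
    exact this
  · obtain ⟨x, hx, hmin⟩ := hK.exists_isMinOn h fail_cont_RHO2.continuousOn
    have hpos : 0 < fail_RHO2 x := by
      by_contra hneg
      exact hx.2 (hS (fail_mem_RHO2 (not_lt.1 hneg)))
    refine ⟨min 1 (fail_RHO2 x / 2), by positivity, fun p hp => ?_⟩
    by_contra hpV
    have h1 : p ∈ Metric.closedBall (0 : R4) 4 \ V :=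
      ⟨fail_bd_RHO2 (hp.trans (min_le_left _ _)), hpV⟩
    have h2 : fail_RHO2 x ≤ fail_RHO2 p := hmin h1
    have h3 := hp.trans (min_le_right _ _)
    linarith

private lemma core_RHO2 {e : ℝ} (he : 0 < e) (he1 : e < 1 / 100) {p : R4}
    (hp : p ∈ Pool.Agent.Helper65.Barb.NB) : fail_RHO2 (cpr e p) ≤ 28 * e := by
  obtain ⟨⟨hs1, hs2, hb⟩, hr0, hr1⟩ := hp
  obtain ⟨-, hid, hfst, -, -, hge, hle0, hle1, -⟩ := m_RE e ⟨he, he1⟩
  have hr0' : 0 < rsq 0 p := lt_of_lt_of_le (by norm_num) hr0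
  have hr1' : 0 < rsq 1 p := lt_of_lt_of_le (by norm_num) hr1
  have hy1 := hfst p
  obtain ⟨g0, g1⟩ := hge p hr0' hr1'
  set y := Em e p with hy
  have hk : 0 ≤ Complex.normSq y.2.2 := Complex.normSq_nonneg _
  -- bounds for `y`
  have hyb : |y.2.1 - 1 / 2| ≤ 11 / 2 ∧ Complex.normSq y.2.2 ≤ 25 := by
    rcases lt_or_ge (rsq 0 p) (1 / 25 - e) with h | h
    · have h2 := (hle0 p hr0' (by linarith)).2
      rw [rsq_eq_RHO2] at h2
      refine ⟨?_, by nlinarith⟩
      rw [abs_le]; constructor <;> nlinarith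
    · rcases lt_or_ge (rsq 1 p) (1 / 25 - e) with h' | h'
      · have h2 := (hle1 p hr1' (by linarith))
        rw [rsq_eq_RHO2] at h2
        refine ⟨?_, by nlinarith⟩
        rw [abs_le]; constructor <;> nlinarith
      · have h2 := hid p h h'
        rw [rsq_eq_RHO2] at hb
        have h3 : y = p := h2
        rw [h3]
        have hk' : 0 ≤ Complex.normSq p.2.2 := Complex.normSq_nonneg _
        refine ⟨?_, by nlinarith⟩
        rw [abs_le]; constructor <;> nlinarith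
  obtain ⟨hya, hyk⟩ := hyb
  have hG := (prof_le_RHO2 he y.2.1)
  have hG0 := prof_nonneg_RHO2 y.2.1
  obtain ⟨m1, m2, m3⟩ := mf_sq_RHO2 (a := y.2.1) he (by linarith) hk
  -- coordinates of `q`
  have q1 : (cpr e p).1 = 1 / 2 + sg e e (p.1 - 1 / 2) := by
    show 1 / 2 + sg e e (1 / 2 + 1 * (y.1 - 1 / 2) - 1 / 2) = _
    rw [hy1]
    congr 2
    ring
  have q2 : (cpr e p).2.1 = 1 / 2 + sg e (7 / 10 + e) (y.2.1 - 1 / 2) := rfl
  have q3 : Complex.normSq (cpr e p).2.2 =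
      (mf e y.2.1 (Complex.normSq y.2.2)) ^ 2 * Complex.normSq y.2.2 := by
    show Complex.normSq (((mf e y.2.1 (Complex.normSq y.2.2) : ℝ) : ℂ) * y.2.2) = _
    rw [Complex.normSq_mul, Complex.normSq_ofReal]; ring
  have s1 : |sg e e (p.1 - 1 / 2)| ≤ e + e * (3 / 2) + e :=
    sg_abs_RHO2 he (by linarith) he.le (abs_le.2 ⟨by linarith, by linarith⟩)
  have s2 : |sg e (7 / 10 + e) (y.2.1 - 1 / 2)| ≤ 7 / 10 + e + e * (11 / 2) + e :=
    sg_abs_RHO2 he (by linarith) (by linarith) hya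
  have s2' := abs_le.1 s2
  have hprof : prof 0 y.2.1 ≤ prof 0 (cpr e p).2.1 := by
    rcases le_or_gt |y.2.1 - 1 / 2| (7 / 10 + e) with h | h
    · rw [q2, sg_id_RHO2 he h, show 1 / 2 + (y.2.1 - 1 / 2) = y.2.1 by ring]
    · rw [prof_off_RHO2 (by linarith : 7 / 10 ≤ |y.2.1 - 1 / 2|)]
      exact prof_nonneg_RHO2 _
  have hrs : 1 / 25 - 3 * e ≤ rsq 0 (cpr e p) ∧ 1 / 25 - 3 * e ≤ rsq 1 (cpr e p) := by
    rw [rsq_eq_RHO2, rsq_eq_RHO2, q3]
    rw [rsq_eq_RHO2] at g0 g1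
    have hn : 0 ≤ (mf e y.2.1 (Complex.normSq y.2.2)) ^ 2 * Complex.normSq y.2.2 := by positivity
    rcases le_or_gt |y.2.1 - 1 / 2| (7 / 10 + e) with h | h
    · have hq : (cpr e p).2.1 = y.2.1 := by
        rw [q2, sg_id_RHO2 he h]; ring
      rw [hq]
      rcases le_or_gt (Complex.normSq y.2.2) (prof e y.2.1 + e) with h' | h'
      · rw [m2 h', one_pow, one_mul]; exact ⟨g0, g1⟩
      · have h3 := m3 h'
        have h4 := prof_ge_RHO2 y.2.1
        constructor <;> nlinarith [h4.1, h4.2]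
    · have h5 := sg_ge_RHO2 he (by linarith) (by linarith : (0 : ℝ) ≤ 7 / 10 + e) h.le
      rw [q2]
      rcases abs_cases (sg e (7 / 10 + e) (y.2.1 - 1 / 2)) with ⟨h6, h7⟩ | ⟨h6, h7⟩
      · rw [h6] at h5
        constructor <;> nlinarith
      · rw [h6] at h5
        constructor <;> nlinarith
  unfold fail_RHO2
  simp only [max_le_iff]
  refine ⟨?_, ?_, ?_, ?_, ?_, ?_⟩
  · rw [q1, add_sub_cancel_left]; linarith
  · rw [q2]; linarith [s2'.1]
  · rw [q2]; linarith [s2'.2]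
  · rw [q3]; nlinarith [hG.2]
  · linarith [hrs.1]
  · linarith [hrs.2]

theorem m_RHO2 : StRHO2 := by
  intro V hV hS
  obtain ⟨m, hm, h⟩ := fail_small_RHO2 hV hS
  refine ⟨min (1 / 100) (m / 28), by positivity, fun e he p hp => h _ ?_⟩
  have h1 : e < 1 / 100 := he.2.trans_le (min_le_left _ _)
  have h2 : e < m / 28 := he.2.trans_le (min_le_right _ _)
  have := core_RHO2 he.1 h1 hp
  linarith

end Pool.Agent.Helper34.BX


end
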