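import Pool.Agent.Helper65.Barb.Defs
import Pool.Agent.Helper70.BI.C.P54
import Pool.Agent.Helper70.BI.C.Q01

/-!
# Project BI (MP_8e98f2_gt): collected modules, part Q08

The contents of the modules
* Helper34.BX.M_D2aPU
* Helper34.BX.M_CRP2

in one file, so that the whole proof builds in a short time.
-/

namespace Pool.Agent.Helper18.BI
end Pool.Agent.Helper18.BI

namespace Pool.Agent.Helper27.BI
end Pool.Agent.Helper27.BI

namespace Pool.Agent.Helper34.BI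
end Pool.Agent.Helper34.BI

namespace Pool.Agent.Helper65.Barb
end Pool.Agent.Helper65.Barb

namespace Pool.Agent.Helper70.BI
end Pool.Agent.Helper70.BI


/-! ## Helper34.BX.M_D2aPU -/

section

/-!
# Project BX, module D2aPU: splitting off the crossing, uniformly in the germ

The same proof as module D2aP; the maps `k₁`, `k₂` depend on the crossing point only.
-/

set_option autoImplicit false

open Module Set Filter Topology
open scoped ContDiff Manifold ComplexConjugate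
open Pool.Agent.Helper65.Barb Pool.Agent.Helper18.BI Pool.Agent.Helper27.BI
open Pool.Agent.Helper34.BI

namespace Pool.Agent.Helper34.BX

/-- **D2aPU.** -/
def StD2aPU : Prop :=
  ∀ (X : R4) (δ : ℝ), δ ∈ Ioo (0 : ℝ) (1 / 100) → X.1 = 1 / 2 → rsq 0 X = qe δ (1 / 100) →
    X.2.2.re ≠ 0 →
    ∃ (x₂ : R3) (r : ℝ) (k₁ k₂ : R4 → R4), KK δ X x₂ r k₁ k₂ ∧
      ∀ (G : R4 → R4) (η : ℝ), 3 * δ ≤ η → η ≤ 1 / 100 →
      (∀ p ∈ SH η, IsLocalDiffeomorphAt 𝓘(ℝ, R4) 𝓘(ℝ, R4) ∞ G p) → InjOn G (SH η \ {X}) →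
      InjOn G (CL η) →
      EmbOn 𝓘(ℝ, R4) (fun p => G (Em δ (k₂ p))) SP ∧
      EmbOn 𝓘(ℝ, R4) (fun p => G (Em δ (k₂ p))) (flat 0 ∪ sph 1) ∧
      ∃ n ψ : R4 → R4, Thin 𝓘(ℝ, R4) (fun p => G (Em δ (k₂ p))) n ∧
        Thin 𝓘(ℝ, R4) (fun p => G (Em δ (k₁ p))) ψ ∧
        ∀ φ, Thin 𝓘(ℝ, R4) G φ → CIsot 𝓘(ℝ, R4) φ (fun x => n (ψ x))

open D2a in
/-- **D2aPU.** Splitting off the crossing. -/
theorem m_D2aPU (hRE : StRE) (hAdd : StADD2) (hImp : StImp) (hCI : StCI) (hS3 : StS3) (hS4 : StS4)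
    (hT2 : StT2) (hT3 : StT3) (hT5 : StT5) (hT6 : StT6) : StD2aPU := by
  intro X δ hδ hX1 hXq hXre
  obtain ⟨hEm, hid, hfst, hsnd, -, hlow, hE0, -, hmono, -, hqid, -, hex⟩ := hRE δ hδ
  obtain ⟨s41, s42, s43, s44, -, s46, s47, -, s49, -, -⟩ := hS4
  obtain ⟨x₂, hx2n, hEx, hxre⟩ := hex X hX1 hXq
  have hx2re := hxre hXre
  have hδ0 := hδ.1
  obtain ⟨r, k₁, k₂, hr0, hr1', -, kap1, kap2, hoff, hk₁fix, ht1, ht2, hadd⟩ :=
    hAdd x₂ (by rw [hx2n]; norm_num) hx2re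
  refine ⟨x₂, r, k₁, k₂, ⟨hr0, hr1', hx2n, hx2re, hEx, kap1, kap2, hoff, hk₁fix, ht1, ht2⟩, ?_⟩
  intro G η h3δ hη hloc hinjX hinjC
  have hr1 : r ≤ 1 / 100 := by linarith
  have hk : ∀ k : R4 → R4, (k = k₁ ∨ k = k₂) → EmbOn 𝓘(ℝ, R4) k univ ∧ (∀ p, (k p).1 = p.1) ∧
        (∀ p ∈ ball4, k p ∈ ball4) ∧ (∀ p, 17 / 100 ≤ p.2.1 → k p = p) ∧
        ∀ p, rsq 0 p ≤ 1 / 25 → rsq 0 (k p) ≤ 1 / 25 := by
    rintro k (rfl | rfl)
    · exact ⟨kap1.emb, kap1.fst, kap1.ball, fun p hp => (hoff p hp).1, kap1.small⟩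
    · exact ⟨kap2.emb, kap2.fst, kap2.ball, fun p hp => (hoff p hp).2, kap2.small⟩
  have hkt : ∀ p ∈ ball4, k₁ p ∉ tube x₂ r ∧ k₂ p ∉ tube 0 r :=
    fun p hp => ⟨kap1.away p hp, kap2.away p hp⟩
  have hkt2 : ∀ p, (k₁ p ∈ tube 0 r → p ∈ tube 0 r) ∧ (k₂ p ∈ tube x₂ r → p ∈ tube x₂ r) :=
    fun p => ⟨ht1 p, ht2 p⟩
  have hrr : r ^ 2 ≤ 1 / 10000 := by nlinarith
  have hrr0 : 0 < r ^ 2 := by positivity
  obtain ⟨hk1E, hk1f, hk1b, hk1i, hk1r⟩ := hk k₁ (Or.inl rfl)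
  set U₀ : Set R4 := {p | 0 < rsq 0 p ∧ 0 < rsq 1 p} with hU₀
  set K : Set R4 := ball4 \ (tube (1, 0) (3 / 20) ∪ tube 0 r ∪ tube x₂ r) with hK
  have hKc : IsCompact K :=
    isCompact_ball4.diff (((isOpen_tube _ _).union (isOpen_tube _ _)).union (isOpen_tube _ _))
  have hKU : K ⊆ U₀ := by
    rintro p ⟨-, hp⟩
    have h1 : p ∉ tube (1, 0) (3 / 20) := fun h => hp (Or.inl (Or.inl h))
    have h2 : p ∉ tube 0 r := fun h => hp (Or.inl (Or.inr h))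
    rw [mem_tube1, not_lt] at h1
    rw [mem_tube0, not_lt] at h2
    exact ⟨by linarith, lt_of_lt_of_le (by norm_num) h1⟩
  have hEK : EmbOn 𝓘(ℝ, R4) (Em δ) K := mono hEm hKU
  -- a point over `x₂` is in the tube
  have hx2U : ((1 / 2, x₂) : R4) ∈ U₀ := by
    have e0 : rsq 0 ((1 / 2, x₂) : R4) = 1 / 100 := by rw [rsq_zero_eq]; exact hx2n
    have e1 := rsq_one ((1 / 2, x₂) : R4)
    have e2 := sq_le_rsq 0 ((1 / 2, x₂) : R4)
    rw [e0] at e1 e2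
    simp only [sub_zero] at e2
    refine ⟨by rw [e0]; norm_num, ?_⟩
    rw [e1]
    simp only
    nlinarith
  have hXnSP : X ∉ SP := by
    intro h
    have h1 := (SP_rsq h).1
    rw [hXq] at h1
    have h2 : qe δ (1 / 100) < qe δ (1 / 25) := hmono (by norm_num)
    rw [hqid (1 / 25) (by linarith)] at h2
    linarith
  -- `Em δ` is the identity on `SP`
  have hidSP : ∀ p ∈ SP, Em δ p = p := fun p hp =>
    hid p (by linarith [(SP_rsq hp).1]) (by linarith [(SP_rsq hp).2])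
  have hidExt : ∀ p ∈ Pool.Agent.Helper18.BI.Ext, Em δ p = p := fun p hp =>
    hid p (by have := hp.1; norm_num at this ⊢; linarith)
      (by have := hp.2; norm_num at this ⊢; linarith)
  have hSPSH : SP ⊆ SH η \ {X} := by
    intro p hp
    refine ⟨⟨SP_FB hp, by linarith [(SP_rsq hp).1], by linarith [(SP_rsq hp).2]⟩, ?_⟩
    rintro rfl
    exact hXnSP hp
  -- the compact set `L`
  have hcont : Continuous (fun p : R4 => sq 0 p) := by
    have h1 : ContinuousOn (fun q : ℝ × R4 => sq q.1 q.2) (Ici 0 ×ˢ univ) := hS3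
    rw [← continuousOn_univ]
    exact h1.comp (f := fun p : R4 => ((0 : ℝ), p)) (by fun_prop)
      (fun p _ => ⟨by simp, mem_univ _⟩)
  set K' : Set R4 := Em δ '' K with hK'
  have hK'c : IsCompact K' := hKc.image_of_continuousOn (cont hEK)
  set L : Set R4 := SP ∪ (fun p => sq 0 p) '' K' with hL
  have hLc : IsCompact L := s49.union (hK'c.image hcont)
  have hLFB : L ⊆ FB := by
    rintro p (hp | ⟨q, -, rfl⟩)
    · exact SP_FB hp
    · exact s42 q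
  have hLSH : L ⊆ SH η \ {X} := by
    rintro p (hp | ⟨y, ⟨q, hq, rfl⟩, rfl⟩)
    · exact hSPSH hp
    · have hqU := hKU hq
      obtain ⟨hl0, hl1⟩ := hlow q hqU.1 hqU.2
      simp only
      by_cases hy : Em δ q ∈ Pool.Agent.Helper18.BI.Ext
      · exact hSPSH (s41 _ hy)
      · have hor : rsq 0 (Em δ q) ≤ 1 / 25 ∨ rsq 1 (Em δ q) ≤ 1 / 25 := by
          by_contra hcon
          push Not at hcon
          exact hy ⟨by norm_num; linarith [hcon.1], by norm_num; linarith [hcon.2]⟩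
        have hsq : sq 0 (Em δ q) = (1 / 2, (Em δ q).2) := by
          apply s43
          rcases hor with h | h
          · exact Or.inl h
          · exact Or.inr (Or.inl h)
        have hsqFB := s42 (Em δ q)
        rw [hsq] at hsqFB ⊢
        have e0 : rsq 0 ((1 / 2, (Em δ q).2) : R4) = rsq 0 (Em δ q) := rsq_congr rfl
        have e1 : rsq 1 ((1 / 2, (Em δ q).2) : R4) = rsq 1 (Em δ q) := rsq_congr rfl
        refine ⟨⟨hsqFB, by rw [e0]; linarith, by rw [e1]; linarith⟩, ?_⟩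
        intro hXe
        have hXe' : ((1 / 2, (Em δ q).2) : R4) = X := hXe
        have h1 : Em δ (1 / 2, q.2) = Em δ (1 / 2, x₂) := by
          rw [hEx, ← hXe']
          apply Prod.ext
          · rw [hfst]
          · have := hsnd (1 / 2) q.1 q.2
            rw [this]
        have hqU' : ((1 / 2, q.2) : R4) ∈ U₀ := by
          have e2 : rsq 0 ((1 / 2, q.2) : R4) = rsq 0 q := rsq_congr rfl
          have e3 : rsq 1 ((1 / 2, q.2) : R4) = rsq 1 q := rsq_congr rfl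
          exact ⟨by rw [e2]; exact hqU.1, by rw [e3]; exact hqU.2⟩
        have h2 := hEm.2 hqU' hx2U h1
        have h3 : q.2 = x₂ := congrArg Prod.snd h2
        apply hq.2
        right
        rw [mem_tube, h3, sub_self, nsq_zero']
        exact hrr0
  have hGL : EmbOn 𝓘(ℝ, R4) G L := ⟨fun p hp => hloc p (hLSH hp).1, hinjX.mono hLSH⟩
  have hGSP : EmbOn 𝓘(ℝ, R4) G SP := mono hGL subset_union_left
  have hsqL : ∀ p ∈ K', sq 0 p ∈ L := fun p hp => Or.inr ⟨p, hp, rfl⟩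
  -- inclusion in K
  have hExtK : ∀ k : R4 → R4, (k = k₁ ∨ k = k₂) → MapsTo k EB K := by
    intro k hkk p hp
    obtain ⟨hkE, hkf, hkb, hki, hkr⟩ := hk k hkk
    have hp0 : 1 / 25 ≤ rsq 0 p := by have := hp.2.1; norm_num at this ⊢; linarith
    have hp1 : 1 / 25 ≤ rsq 1 p := by have := hp.2.2; norm_num at this ⊢; linarith
    refine ⟨hkb p hp.1, ?_⟩
    have hn0 : p ∉ tube 0 r := by rw [mem_tube0]; linarith
    have hn2 : p ∉ tube x₂ r := by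
      rw [mem_tube]
      have h1 := nsq_parallel (p.2 - x₂) x₂
      rw [sub_add_cancel, ← rsq_zero_eq, hx2n] at h1
      linarith
    rintro ((h | h) | h)
    · rw [mem_tube1] at h
      have h1 : 17 / 20 ≤ (k p).2.1 := by
        have := sq_le_rsq 1 (k p)
        nlinarith
      have h2 := hki (k p) (by linarith)
      have h3 := hkE.2 (mem_univ _) (mem_univ _) h2
      rw [h3] at h
      linarith
    · rcases hkk with rfl | rfl
      · exact hn0 ((hkt2 p).1 h)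
      · exact (hkt p hp.1).2 h
    · rcases hkk with rfl | rfl
      · exact (hkt p hp.1).1 h
      · exact hn2 ((hkt2 p).2 h)
  -- (4)
  have hm : ∀ k : R4 → R4, (k = k₁ ∨ k = k₂) →
      EmbOn 𝓘(ℝ, R4) (fun p => Em δ (k p)) EB ∧ MapsTo (fun p => Em δ (k p)) SP L := by
    intro k hkk
    obtain ⟨hkE, hkf, hkb, hki, hkr⟩ := hk k hkk
    refine ⟨comp hEK (mono hkE (subset_univ _)) (hExtK k hkk), ?_⟩
    intro p hp
    have hkK := hExtK k hkk (s46 hp)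
    have h1 : sq 0 (Em δ (k p)) ∈ L := hsqL _ ⟨_, hkK, rfl⟩
    have h2 : Em δ (k p) ∈ FB := by
      rcases hp with (h | h) | h
      · have h3 : rsq 0 (k p) ≤ 1 / 25 := hkr p h.2.le
        have h4 : 0 < rsq 0 (k p) := (hKU hkK).1
        exact Or.inl (Or.inl ⟨by rw [hfst, hkf]; exact h.1, (hE0 _ h4 h3).2⟩)
      · have h3 := le45 h.2.le
        have h4 : k p = p := hki p (by linarith)
        have hps : p ∈ SP := Or.inl (Or.inr h)
        rw [h4, hidSP p hps]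
        exact SP_FB hps
      · have h4 : k p = p := hki p (by linarith [h.2.1])
        have hps : p ∈ SP := Or.inr h
        rw [h4, hidSP p hps]
        exact SP_FB hps
    rw [s44 _ h2] at h1
    exact h1
  -- choice of ε
  obtain ⟨ε₁, hε₁, hT6'⟩ := hT6 R4 R4 𝓘(ℝ, R4) R4 G K' L hK'c hLc hsqL hGL
  obtain ⟨hT2i, hT2ii, -⟩ := hT2 R4 R4 𝓘(ℝ, R4) R4
  obtain ⟨ε₂, hε₂, hT2'⟩ := hT2i G hGSP
  obtain ⟨ε₃, hε₃, hT51⟩ := hT5 R4 R4 𝓘(ℝ, R4) R4 G (fun p => Em δ (k₁ p)) L hLc hLFB hGL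
    (mono (hm k₁ (Or.inl rfl)).1 s46) (hm k₁ (Or.inl rfl)).2
  obtain ⟨ε₄, hε₄, hT52⟩ := hT5 R4 R4 𝓘(ℝ, R4) R4 G (fun p => Em δ (k₂ p)) L hLc hLFB hGL
    (mono (hm k₂ (Or.inr rfl)).1 s46) (hm k₂ (Or.inr rfl)).2
  obtain ⟨ε, hε0, hε⟩ : ∃ ε : ℝ, 0 < ε ∧ ε < min (min ε₁ ε₂) (min ε₃ ε₄) :=
    exists_between (lt_min (lt_min hε₁ hε₂) (lt_min hε₃ hε₄))
  have hεa : ε ∈ Ioo 0 ε₁ := ⟨hε0, hε.trans_le ((min_le_left _ _).trans (min_le_left _ _))⟩
  have hεb : ε ∈ Ioo 0 ε₂ := ⟨hε0, hε.trans_le ((min_le_left _ _).trans (min_le_right _ _))⟩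
  have hεc : ε ∈ Ioo 0 ε₃ := ⟨hε0, hε.trans_le ((min_le_right _ _).trans (min_le_left _ _))⟩
  have hεd : ε ∈ Ioo 0 ε₄ := ⟨hε0, hε.trans_le ((min_le_right _ _).trans (min_le_right _ _))⟩
  have hGs : EmbOn 𝓘(ℝ, R4) (G ∘ sq ε) K' := (hT6' ε hεa).1
  have hF : EmbOn 𝓘(ℝ, R4) (fun p => G (sq ε (Em δ p))) K :=
    comp (c := G ∘ sq ε) (F := Em δ) hGs hEK (mapsTo_image _ _)
  have hcis := hadd R4 R4 𝓘(ℝ, R4) R4 (fun p => G (sq ε (Em δ p))) hF
  -- `bsupp ⊆ K`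
  have hbK : bsupp ⊆ K := by
    intro p hp
    have hpE := s47 hp
    have hp0 : 1 / 25 ≤ rsq 0 p := by have := hpE.2.1; norm_num at this ⊢; linarith
    have hp1 : 1 / 25 ≤ rsq 1 p := by have := hpE.2.2; norm_num at this ⊢; linarith
    refine ⟨hpE.1, ?_⟩
    rintro ((h | h) | h)
    · rw [mem_tube1] at h; linarith
    · rw [mem_tube0] at h; linarith
    · rw [mem_tube] at h
      have h1 := nsq_parallel (p.2 - x₂) x₂
      rw [sub_add_cancel, ← rsq_zero_eq, hx2n] at h1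
      linarith
  have himpF : imp (fun p => G (sq ε (Em δ p))) bsupp barMap = imp (G ∘ sq ε) bsupp barMap := by
    obtain ⟨-, -, -, -, -, h6, -⟩ := hImp R4 R4 𝓘(ℝ, R4) R4 (fun p => G (sq ε (Em δ p))) bsupp
      barMap (hF.2.mono hbK)
    apply h6 (G ∘ sq ε) _ maps_bar
    intro p hp
    simp only [Function.comp]
    rw [hidExt p (s47 hp).2]
  obtain ⟨-, -, -, hCItrans, -⟩ := hCI R4 R4 𝓘(ℝ, R4) R4
  have hthin : ∀ k : R4 → R4, (k = k₁ ∨ k = k₂) → Thin 𝓘(ℝ, R4) (fun p => G (sq ε (Em δ (k p))))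
      (imp (fun p => G (sq ε (Em δ (k p)))) bsupp barMap) := by
    intro k hkk
    apply hT3 R4 R4 𝓘(ℝ, R4) R4
    exact comp (c := fun p => G (sq ε (Em δ p))) (F := k) hF (mono (hk k hkk).1 (subset_univ _))
      (hExtK k hkk)
  have hflat : EmbOn 𝓘(ℝ, R4) (fun p => G (Em δ (k₂ p))) (flat 0 ∪ sph 1) := by
    obtain ⟨hkE, hkf, hkb, hki, hkr⟩ := hk k₂ (Or.inr rfl)
    -- facts on `flat 0`
    have hfl : ∀ p ∈ flat 0, k₂ p ∈ U₀ ∧ Em δ (k₂ p) ∈ CL η := by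
      intro p hp
      have h1 : rsq 0 (k₂ p) ≤ 1 / 25 := hkr p hp.2
      have h2 : 0 < rsq 0 (k₂ p) := by
        have h3 := (hkt p (flat_ball4 hp)).2
        rw [mem_tube0, not_lt] at h3
        linarith
      have h3 : 0 < rsq 1 (k₂ p) := by
        have := rsq1_of (le15 h1)
        linarith
      refine ⟨⟨h2, h3⟩, ?_⟩
      obtain ⟨h4, h5⟩ := hlow _ h2 h3
      have h6 := (hE0 _ h2 h1).2
      have h7 : (Em δ (k₂ p)).1 = 1 / 2 := by rw [hfst, hkf]; exact hp.1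
      exact ⟨⟨Or.inl (Or.inl ⟨h7, h6⟩), by linarith, by linarith⟩, Or.inl h6⟩
    have hs1 : ∀ p ∈ sph 1, k₂ p ∈ U₀ ∧ Em δ (k₂ p) ∈ CL η := by
      intro p hp
      have hps : p ∈ SP := Or.inl (Or.inr hp)
      have h4 : k₂ p = p := hki p (by linarith [le45 hp.2.le])
      have h5 := SP_rsq hps
      refine ⟨by rw [h4]; exact ⟨by linarith [h5.1], by linarith [h5.2]⟩, ?_⟩
      rw [h4, hidSP p hps]
      exact ⟨(hSPSH hps).1, Or.inr hp.2.le⟩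
    have hall : ∀ p ∈ flat 0 ∪ sph 1, k₂ p ∈ U₀ ∧ Em δ (k₂ p) ∈ CL η := by
      rintro p (hp | hp)
      · exact hfl p hp
      · exact hs1 p hp
    refine ⟨fun p hp => ?_, ?_⟩
    · have h1 : IsLocalDiffeomorphAt 𝓘(ℝ, R4) 𝓘(ℝ, R4) ∞ (fun p => Em δ (k₂ p)) p :=
        IsLocalDiffeomorphAt.comp _ _ (hkE.1 p (mem_univ _)) (hEm.1 _ (hall p hp).1)
      exact IsLocalDiffeomorphAt.comp _ _ h1 (hloc _ (hall p hp).2.1)
    · intro p hp q hq h
      have h1 := hinjC (hall p hp).2 (hall q hq).2 h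
      have h2 := hEm.2 (hall p hp).1 (hall q hq).1 h1
      exact hkE.2 (mem_univ _) (mem_univ _) h2
  refine ⟨comp hGL (mono (hm k₂ (Or.inr rfl)).1 s46) (hm k₂ (Or.inr rfl)).2, hflat,
    imp (fun p => G (sq ε (Em δ (k₂ p)))) bsupp barMap,
    imp (fun p => G (sq ε (Em δ (k₁ p)))) bsupp barMap,
    (hT52 ε hεd _).1 (hthin k₂ (Or.inr rfl)), (hT51 ε hεc _).1 (hthin k₁ (Or.inl rfl)), ?_⟩
  · intro φ hφ
    have h1 := hT2ii G φ _ hφ (hT2' ε hεb)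
    rw [← himpF] at h1
    exact hCItrans _ _ _ h1 hcis

end Pool.Agent.Helper34.BX


end

/-! ## Helper34.BX.M_CRP2 -/

section

/-!
# Project BX, module CRP2: the crossing lemma for two families at the same time
-/

set_option autoImplicit false

open Module Set Filter Topology
open scoped ContDiff Manifold ComplexConjugate
open Pool.Agent.Helper65.Barb Pool.Agent.Helper18.BI Pool.Agent.Helper27.BI
open Pool.Agent.Helper34.BI

namespace Pool.Agent.Helper34.BX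

open Pool.Agent.Helper70.BI (Br CrossAt LD core ax NearEq StCRP pc)

namespace CRP2

open CRP

/-- the sheared families -/
theorem preCross_shb {β : R3 → ℝ} (hβ : BumpOK β) (c : ℝ) {J : ℝ × R4 → R4} {t₀ u₀ : ℝ} {p₀ : R4}
    (hJ : PreCross J t₀ u₀ p₀) : PreCross (fun q => J (q.1, shb β c q.2)) t₀ u₀ p₀ := by
  have hp₀ : p₀ ∈ SP := Or.inl (Or.inl hJ.mem)
  have hq₀ : ((1 / 2, u₀, 0) : R4) ∈ SP :=
    Or.inr ⟨rfl, hJ.arc.1.le, hJ.arc.2.le, rfl⟩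
  have hrs : rsq 0 p₀ = 1 / 25 := hJ.mem.2
  have hlocp := hJ.loc p₀ hp₀
  have hstr : (fun x : ℝ × ℝ => J (x.1, shb β c (1 / 2, x.2, 0))) =
      fun x : ℝ × ℝ => J (x.1, (1 / 2, x.2, 0)) := by
    funext x
    rw [ShB.fix_line hβ]
  have hder : ∀ (v : R4), fderiv ℝ (fun p => J (t₀, shb β c p)) p₀ v =
      fderiv ℝ (fun p => J (t₀, p)) p₀ (v.1 + c * (2 * β p₀.2 * drsq 0 p₀ v), v.2) := by
    intro v
    have d1 : HasFDerivAt (fun p => J (t₀, p)) (fderiv ℝ (fun p => J (t₀, p)) p₀)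
        (shb β c p₀) := by
      rw [ShB.fix hβ c hp₀]
      exact ((eventually_contDiffAt hlocp).self_of_nhds.differentiableAt (by simp)).hasFDerivAt
    have d2 : HasFDerivAt (shb β c) (fderiv ℝ (shb β c) p₀) p₀ :=
      ((ShB.smooth_shr hβ c).contDiffAt.differentiableAt (by simp)).hasFDerivAt
    have d3 : fderiv ℝ (fun p => J (t₀, shb β c p)) p₀ = _ := (d1.comp p₀ d2).fderiv
    rw [d3, ← ShB.deriv_shr hβ c hrs v]
    rfl
  have hcont : ∀ p ∈ SP, Tendsto (fun q : ℝ × R4 => (q.1, shb β c q.2)) (𝓝 (t₀, p))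
      (𝓝 (t₀, p)) := by
    intro p hp
    have h1 : Continuous (fun q : ℝ × R4 => (q.1, shb β c q.2)) :=
      continuous_fst.prodMk ((ShB.smooth_shr hβ c).continuous.comp continuous_snd)
    have h2 := h1.tendsto (t₀, p)
    rw [show ((t₀, p).1, shb β c (t₀, p).2) = (t₀, p) from
      Prod.ext rfl (ShB.fix hβ c hp)] at h2
    exact h2
  refine ⟨?_, ?_, ?_, hJ.mem, hJ.re, hJ.arc, ?_, ?_, ?_⟩
  · intro p hp
    filter_upwards [(hcont p hp).eventually (hJ.smooth p hp)] with q hq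
    have h1 : ContDiffAt ℝ ∞ (fun q : ℝ × R4 => (q.1, shb β c q.2)) q :=
      (contDiff_fst.prodMk ((ShB.smooth_shr hβ c).comp contDiff_snd)).contDiffAt
    exact ContDiffAt.comp q hq h1
  · intro p hp
    have h := hJ.loc p hp
    rw [← ShB.fix hβ c hp] at h
    exact ShB.loc_comp hβ (F := fun p => J (t₀, p)) c h
  · intro p hp
    have hp' : p ∈ SP := Or.inl hp
    filter_upwards [(hcont p hp').eventually (hJ.frozen p hp)] with q hq
    exact hq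
  · show J (t₀, shb β c p₀) = J (t₀, shb β c (1 / 2, u₀, 0))
    rw [ShB.fix hβ c hp₀, ShB.fix hβ c hq₀]
    exact hJ.eq
  · intro p hp q hq hpq
    have h1 : J (t₀, shb β c p) = J (t₀, shb β c q) := hpq
    rw [ShB.fix hβ c hp, ShB.fix hβ c hq] at h1
    exact hJ.inj p hp q hq h1
  · intro ζ v h h1 h2
    have h3 : fderiv ℝ (fun x : ℝ × ℝ => J (x.1, shb β c (1 / 2, x.2, 0))) (t₀, u₀) ζ =
      fderiv ℝ (fun p => J (t₀, shb β c p)) p₀ v := h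
    rw [hstr, hder v, h2, mul_zero, mul_zero, add_zero] at h3
    exact hJ.trans ζ v h3 h1 h2

/-- the data of one crossing -/
structure Dat (J : ℝ × R4 → R4) (β : R3 → ℝ) (c t₀ : ℝ) (T U : ℝ → ℝ) (X : ℝ → R4)
    (η δ r₁ : ℝ) : Prop where
  cross : Cross (fun q => J (T q.1, shb β c q.2)) X η
  hδ : δ ∈ Ioo (0 : ℝ) (1 / 100)
  h3 : 3 * δ ≤ η
  hr₁ : r₁ = 1 / 25 - qe δ (1 / 100)
  pos : 0 < r₁
  le : r₁ ≤ η
  U1 : U (-r₁) ∈ Ioo (1 / 5 : ℝ) (4 / 5)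
  frozen : ∀ᶠ q : ℝ × R4 in 𝓝 (T (-r₁), X (-r₁)),
    J (q.1, shb β c q.2) = J (t₀, shb β c q.2)
  smooth : ContDiffAt ℝ ∞ (fun q : ℝ × R4 => J (q.1, shb β c q.2)) (T (-r₁), ax (U (-r₁)))
  slope : ∀ v : R4, fderiv ℝ (fun x : ℝ × ℝ => J (x.1, shb β c (1 / 2, x.2, 0)))
      (T (-r₁), U (-r₁)) (0, 1) = fderiv ℝ (fun p => J (t₀, shb β c p)) (X (-r₁)) v → v.1 ≠ 0
  meet : J (T (-r₁), shb β c (ax (U (-r₁)))) = J (T (-r₁), shb β c (X (-r₁)))

/-- the crossing lemma for one family, with all choices made -/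
theorem fin (hRE : StRE) (hT2 : StT2) (hCI : StCI) (hD2b : StD2b) {J : ℝ × R4 → R4}
    {β : R3 → ℝ} {c t₀ : ℝ} {T U : ℝ → ℝ} {X : ℝ → R4} {η δ r₁ : ℝ} (hβ : BumpOK β)
    (D : Dat J β c t₀ T U X η δ r₁) {x₂ : R3} {r : ℝ} {k₁ k₂ : R4 → R4}
    (hK : KK δ (X (-r₁)) x₂ r k₁ k₂)
    (hU : ∀ (G : R4 → R4) (η : ℝ), 3 * δ ≤ η → η ≤ 1 / 100 →
      (∀ p ∈ SH η, IsLocalDiffeomorphAt 𝓘(ℝ, R4) 𝓘(ℝ, R4) ∞ G p) →
      InjOn G (SH η \ {X (-r₁)}) → InjOn G (CL η) →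
      EmbOn 𝓘(ℝ, R4) (fun p => G (Em δ (k₂ p))) SP ∧
      EmbOn 𝓘(ℝ, R4) (fun p => G (Em δ (k₂ p))) (flat 0 ∪ sph 1) ∧
      ∃ n ψ : R4 → R4, Thin 𝓘(ℝ, R4) (fun p => G (Em δ (k₂ p))) n ∧
        Thin 𝓘(ℝ, R4) (fun p => G (Em δ (k₁ p))) ψ ∧
        ∀ φ, Thin 𝓘(ℝ, R4) G φ → CIsot 𝓘(ℝ, R4) φ (fun x => n (ψ x))) :
    NearEq (fun p => J (T (-r₁), shb β c (Em δ (k₂ p))))
        (OO (fun p => J (T (-r₁), p)) β c δ k₂) (SP ∪ flat 0) ∧
      (∃ e : ℝ, (e = 1 ∨ e = -1) ∧ Br 0 (OO (fun p => J (T (-r₁), p)) β c δ k₂) (U (-r₁)) e) ∧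
      (∀ a ∈ Icc (1 / 5 : ℝ) (4 / 5), core (OO (fun p => J (T (-r₁), p)) β c δ k₂) a =
        core (fun p => J (T (-r₁), p)) a) ∧
      (∀ p : R4, 1 / 2 < p.2.1 → OO (fun p => J (T (-r₁), p)) β c δ k₂ p = J (T (-r₁), p)) ∧
      ∀ φ' φ'' n : R4 → R4, Thin 𝓘(ℝ, R4) (fun p => J (T (-r₁), p)) φ' →
          Thin 𝓘(ℝ, R4) (fun p => J (T r₁, p)) φ'' →
          Thin 𝓘(ℝ, R4) (OO (fun p => J (T (-r₁), p)) β c δ k₂) n →
          CIsot 𝓘(ℝ, R4) φ' (fun x => n (φ'' x)) := by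
  set J' : ℝ × R4 → R4 := fun q => J (q.1, shb β c q.2) with hJ'
  have C₂ := D.cross
  have hη : 0 < η := C₂.pos
  have h2 := C₂.small
  have hδm := D.hδ
  have h3 := D.h3
  obtain ⟨-, -, -, -, -, -, -, -, hmono, -, hid, hlow, -⟩ := hRE δ hδm
  have e1 : qe δ (1 / 25) = 1 / 25 := hid _ (by linarith [hδm.1])
  have e2 : qe δ (1 / 100) < 1 / 25 := by
    rw [← e1]
    exact hmono (by norm_num)
  have e3 := hlow (1 / 100) (by norm_num)
  have hr₁ := D.hr₁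
  have h4 := D.pos
  have h5 := D.le
  have m1 : -r₁ ∈ Icc (-η) η := ⟨by linarith, by linarith⟩
  have m2 : r₁ ∈ Icc (-η) η := ⟨by linarith, by linarith⟩
  have lv : rsq 0 (X (-r₁)) = qe δ (1 / 100) := by rw [C₂.lvl _ m1, hr₁]; ring
  obtain ⟨f1, f2, n, ψ, hn, hψ, hφ⟩ :=
    hU (fun p => J' (T (-r₁), p)) η h3 h2 (C₂.loc _ m1) (C₂.inj _ m1) (C₂.injA _ m1)
  have hψ' := hD2b _ X δ η r₁ C₂ hδm h3 hr₁ h4 h5 x₂ r k₁ hK.pos hK.norm hK.re hK.eq hK.kap1.emb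
    hK.kap1.fst (fun p hp => (hK.off p hp).1) hK.kap1.small hK.axis hK.kap1.away ψ hψ
  have hXS : X (-r₁) ∈ SH η := by
    have h6 : rsq 0 (X (-r₁)) ≤ 1 / 25 := by rw [lv]; exact e2.le
    refine ⟨Or.inl (Or.inl ⟨C₂.fst _ m1, h6⟩), ?_, ?_⟩
    · rw [lv]; linarith
    · linarith [RE.far0 h6]
  have g7 : (fun p => J' (T (-r₁), p)) =ᶠ[𝓝 (X (-r₁))] fun p => J' (t₀, p) := by
    have h6 : ContinuousAt (fun p : R4 => (T (-r₁), p)) (X (-r₁)) := by fun_prop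
    exact h6.eventually D.frozen
  obtain ⟨e, he, hBr⟩ := br_of hRE hδm h3 (C₂.loc _ m1) (C₂.inj _ m1) (C₂.re _ m1) hXS hK f1 f2
    D.U1 D.meet (by
      intro v hv
      apply D.slope v
      have := fderiv_strand D.smooth
      rw [show fderiv ℝ (fun x : ℝ × ℝ => J (x.1, shb β c (1 / 2, x.2, 0)))
        (T (-r₁), U (-r₁)) (0, 1) = _ from this, ← g7.fderiv_eq]
      exact hv)
  have hne : NearEq (fun p => J' (T (-r₁), Em δ (k₂ p)))
      (OO (fun p => J (T (-r₁), p)) β c δ k₂) (SP ∪ flat 0) :=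
    OO_near hδm hK (fun p => J (T (-r₁), p)) β c
  have hBr' := br_congr hne hBr
  -- the germs at the times `T s`
  have key : ∀ s ∈ Icc (-η) η, s ≠ 0 → ∀ φ, (Thin 𝓘(ℝ, R4) (fun p => J (T s, p)) φ ↔
        Thin 𝓘(ℝ, R4) (fun p => J' (T s, p)) φ) := by
    intro s hs h0
    have e1 : EmbOn 𝓘(ℝ, R4) (fun p => J' (T s, p)) SP := by
      refine ⟨fun p hp => C₂.loc s hs p (SP_subset_SH hη.le hp), ?_⟩
      have hsub : SP ⊆ SH η \ {X s} := by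
        intro p hp
        refine ⟨SP_subset_SH hη.le hp, ?_⟩
        rintro rfl
        exact X_notMem_SP C₂ hs h0 hp
      exact (C₂.inj s hs).mono hsub
    obtain ⟨-, e3⟩ := ShB.class_shb hT2 hβ _ (-c) e1
    have e4 : ∀ p, shb β c (shb β (-c) p) = p := by
      intro p
      have := ShB.shr_neg (β := β) (-c) p
      rwa [neg_neg] at this
    simp only [hJ', e4] at e3
    exact e3
  have k2 := key r₁ m2 h4.ne'
  have k4 := key (-r₁) m1 (neg_ne_zero.2 h4.ne')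
  refine ⟨hne, ⟨e, he, hBr'⟩, ?_, fun p hp =>
    OO_far hδm hK (fun p => J (T (-r₁), p)) hβ c p hp, ?_⟩
  · intro a ha
    have b1 : J' (T (-r₁), Em δ (k₂ (ax a))) = J' (T (-r₁), ax a) :=
      (near_ax (G := fun p => J' (T (-r₁), p)) hRE hδm hK ha).self_of_nhds
    have b2 : J' (T (-r₁), Em δ (k₂ (ax a))) = OO (fun p => J (T (-r₁), p)) β c δ k₂ (ax a) :=
      (hne.eventuallyEq (Or.inl (ax_mem ha))).self_of_nhds
    show OO (fun p => J (T (-r₁), p)) β c δ k₂ (ax a) = J (T (-r₁), ax a)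
    rw [← b2, b1]
    show J (T (-r₁), shb β c (ax a)) = _
    rw [ShB.fix hβ c (ax_mem ha)]
  · intro φ' φ'' n' t1 t2 t3
    obtain ⟨-, hsym, -, htrans, hcomp, -⟩ := hCI R4 R4 𝓘(ℝ, R4) R4
    obtain ⟨-, huni, -, -, hloc, -⟩ := hT2 R4 R4 𝓘(ℝ, R4) R4
    have a1 := hφ φ' ((k4 φ').1 t1)
    have a2 := huni _ _ _ hψ' ((k2 φ'').1 t2)
    obtain ⟨V, hV, hVs, hVe⟩ := hne
    have a3 := hloc _ _ V n' hV (subset_union_left.trans hVs) hVe.symm t3
    have a4 := huni _ _ _ hn a3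
    exact htrans _ _ _ a1 (hcomp _ _ _ _ a4 a2)

end CRP2

open CRP CRP2 in
/-- **CRP2.** The crossing lemma for two families at the same time. -/
theorem m_CRP2 (hRE : StRE) (hT2 : StT2) (hCI : StCI) (hD1aP : StD1aP) (hD1b : StD1b)
    (hD2aPU : StD2aPU) (hD2b : StD2b) : StCRP2 := by
  intro J K t₀ u₀ p₀ hP hQ hu₀ hJK C hC hdis ε hε
  obtain ⟨β, hβ, c, hP', hsl⟩ := ShB.slope_shb J t₀ u₀ p₀ hP
  have hQ' := preCross_shb hβ c hQ
  set J' : ℝ × R4 → R4 := fun q => J (q.1, shb β c q.2) with hJ'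
  set K' : ℝ × R4 → R4 := fun q => K (q.1, shb β c q.2) with hK'
  have hJK' : ∀ (t : ℝ) (p : R4), (p.2.1 < 9 / 40 ∨ 1 / 2 < p.2.1) → K' (t, p) = J' (t, p) :=
    fun t p hp => hJK t (shb β c p) hp
  have hlow : ∀ (t : ℝ) {p : R4}, p.2.1 < 9 / 40 → ∀ᶠ q : ℝ × R4 in 𝓝 (t, p), K' q = J' q := by
    intro t p hp
    have hc : Continuous fun q : ℝ × R4 => q.2.2.1 := by fun_prop
    filter_upwards [hc.continuousAt.eventually_lt_const
      (show (fun q : ℝ × R4 => q.2.2.1) (t, p) < 9 / 40 from hp)] with q hq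
    exact hJK' q.1 q.2 (Or.inl hq)
  have hhigh : ∀ (t : ℝ) {p : R4}, 1 / 2 < p.2.1 → ∀ᶠ q : ℝ × R4 in 𝓝 (t, p), K' q = J' q := by
    intro t p hp
    have hc : Continuous fun q : ℝ × R4 => q.2.2.1 := by fun_prop
    filter_upwards [hc.continuousAt.eventually_const_lt
      (show 1 / 2 < (fun q : ℝ × R4 => q.2.2.1) (t, p) from hp)] with q hq
    exact hJK' q.1 q.2 (Or.inr hq)
  have hp₀ : p₀.2.1 ≤ 1 / 5 := sph_zero_le hP.mem
  obtain ⟨T, U, X, η₀, hη₀, hT1, hTm, hT0, hX1, hX0, hU1, hU0, hX2, hX3, hsl', huniq⟩ :=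
    hD1aP J' t₀ u₀ p₀ hP' hsl
  have hTc : ContinuousAt T 0 :=
    (hT1.contDiffAt (isOpen_Ioo.mem_nhds ⟨by linarith, hη₀⟩)).continuousAt
  -- the local uniqueness for the second family
  have huniq' : ∀ᶠ q : ℝ × R4 × R4 in 𝓝 ((0 : ℝ), p₀, ((1 / 2, u₀, 0) : R4)), q.2.1 ∈ FB →
      q.2.2 ∈ FB → K' (T q.1, q.2.1) = K' (T q.1, q.2.2) → q.2.1 = X q.1 := by
    have c1 : Continuous fun q : ℝ × R4 × R4 => q.2.1.2.1 := by fun_prop
    have c2 : Continuous fun q : ℝ × R4 × R4 => q.2.2.2.1 := by fun_prop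
    filter_upwards [huniq, c1.continuousAt.eventually_lt_const
      (show (fun q : ℝ × R4 × R4 => q.2.1.2.1) ((0 : ℝ), p₀, ((1 / 2, u₀, 0) : R4)) < 9 / 40 by
        show p₀.2.1 < 9 / 40
        linarith), c2.continuousAt.eventually_const_lt
      (show 1 / 2 < (fun q : ℝ × R4 × R4 => q.2.2.2.1) ((0 : ℝ), p₀, ((1 / 2, u₀, 0) : R4)) from
        hu₀)] with q h1 h2 h3 f1 f2 f3
    apply h1 f1 f2
    rw [← hJK' _ _ (Or.inl h2), ← hJK' _ _ (Or.inr h3)]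
    exact f3
  obtain ⟨η₁, hη₁, hηη, C₁, hclose⟩ :=
    hD1b J' t₀ u₀ p₀ hP' T X η₀ hη₀ hT1 hT0 hX1 hX0 hX2 huniq ε hε
  obtain ⟨η₂, hη₂, hηη₂, D₁, -⟩ :=
    hD1b K' t₀ u₀ p₀ hQ' T X η₀ hη₀ hT1 hT0 hX1 hX0 hX2 huniq' ε hε
  -- the parameter of the strand
  have hα1 : ∀ᶠ r in 𝓝 (0 : ℝ), (U r ∈ Ioo (1 / 5 : ℝ) (4 / 5) ∧ |U r - u₀| < ε) ∧
      1 / 2 < U r ∧ (X r).2.1 < 9 / 40 := by
    have h1 : ∀ᶠ r in 𝓝 (0 : ℝ), U r ∈ Ioo (1 / 5 : ℝ) (4 / 5) :=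
      hU1.eventually (isOpen_Ioo.mem_nhds (by rw [hU0]; exact hP.arc))
    have h2 : ∀ᶠ r in 𝓝 (0 : ℝ), |U r - u₀| < ε := by
      have c3 : ContinuousAt (fun r => |U r - u₀|) 0 := (hU1.sub continuousAt_const).abs
      apply c3.eventually_lt continuousAt_const
      rw [hU0, sub_self, abs_zero]
      exact hε
    have h3 : ∀ᶠ r in 𝓝 (0 : ℝ), 1 / 2 < U r :=
      hU1.eventually_const_lt (by rw [hU0]; exact hu₀)
    have h4 : ∀ᶠ r in 𝓝 (0 : ℝ), (X r).2.1 < 9 / 40 := by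
      have c4 : ContinuousAt (fun r => (X r).2.1) 0 := hX1.snd.fst
      refine c4.eventually_lt_const ?_
      show (X 0).2.1 < 9 / 40
      rw [hX0]
      linarith
    exact (h1.and h2).and (h3.and h4)
  -- frozen near the crossing
  have hfr : ∀ᶠ r in 𝓝 (0 : ℝ), ∀ᶠ q in 𝓝 (T r, X r), J' q = J' (t₀, q.2) := by
    have h1 : ContinuousAt (fun r => (T r, X r)) 0 := hTc.prodMk hX1
    have h2 := (hP'.frozen p₀ (Or.inl hP'.mem)).eventually_nhds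
    have h3 : (T 0, X 0) = (t₀, p₀) := by rw [hT0, hX0]
    rw [← h3] at h2
    exact h1.eventually h2
  -- smooth near the strand
  have hst : ∀ᶠ r in 𝓝 (0 : ℝ), ContDiffAt ℝ ∞ J' (T r, ax (U r)) := by
    have h1 : ContinuousAt (fun r => (T r, ax (U r))) 0 := by
      refine hTc.prodMk ?_
      have h2 : Continuous ax := by
        unfold Pool.Agent.Helper70.BI.ax
        fun_prop
      exact h2.continuousAt.comp hU1
    have h2 := hP'.smooth (ax u₀) (ax_mem ⟨hP.arc.1.le, hP.arc.2.le⟩)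
    have h3 : (T 0, ax (U 0)) = (t₀, ax u₀) := by rw [hT0, hU0]
    rw [← h3] at h2
    exact h1.eventually h2
  -- the compact set
  have hdC : ∀ᶠ η in 𝓝[>] (0 : ℝ), ∀ r ∈ Icc (-η) η, ∀ p ∈ CL η, ∀ q ∈ CL η,
      rsq 0 p ≤ 1 / 25 → J' (T r, p) ∉ C := by
    refine D1b.shrink CL (sph 0 ∪ sph 1) D1b.cpt_CL D1b.mono_CL (fun p => D1b.sph_of_CL)
      {x | rsq 0 x.2.1 ≤ 1 / 25 → J' (T x.1, x.2.1) ∉ C} ?_
    intro p hp q hq
    by_cases h0 : p ∈ sph 0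
    · have h1 : J' (t₀, p) ∉ C := by
        have h2 : J' (t₀, p) = J (t₀, p) := by
          show J (t₀, shb β c p) = _
          rw [ShB.fix hβ c (Or.inl (Or.inl h0))]
        rw [h2]
        intro h3
        exact disjoint_left.1 hdis h3 ⟨p, h0, rfl⟩
      have h2 : ContinuousAt (fun x : ℝ × R4 × R4 => J' (T x.1, x.2.1)) ((0 : ℝ), p, q) := by
        have h3 : ContinuousAt J' (T 0, p) := by
          rw [hT0]
          exact (hP'.smooth p (Or.inl (Or.inl h0))).self_of_nhds.continuousAt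
        have h4 : ContinuousAt (fun x : ℝ × R4 × R4 => (T x.1, x.2.1)) ((0 : ℝ), p, q) := by
          refine ContinuousAt.prodMk ?_ (by fun_prop)
          exact ContinuousAt.comp (f := fun x : ℝ × R4 × R4 => x.1) (g := T) hTc
            continuousAt_fst
        exact ContinuousAt.comp (f := fun x : ℝ × R4 × R4 => (T x.1, x.2.1)) (g := J') h3 h4
      have h3 : Cᶜ ∈ 𝓝 ((fun x : ℝ × R4 × R4 => J' (T x.1, x.2.1)) ((0 : ℝ), p, q)) := by
        apply hC.isClosed.isOpen_compl.mem_nhds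
        show J' (T 0, p) ∉ C
        rw [hT0]
        exact h1
      filter_upwards [h2 h3] with x hx _
      exact hx
    · have h1 : p ∈ sph 1 := hp.resolve_left h0
      have h2 : 1 / 25 < rsq 0 p := by linarith [RE.far1 h1.2.le]
      have h3 : Continuous fun x : ℝ × R4 × R4 => rsq 0 x.2.1 :=
        (D1b.continuous_rsq 0).comp (by fun_prop)
      filter_upwards [h3.continuousAt.eventually_const_lt
        (show 1 / 25 < (fun x : ℝ × R4 × R4 => rsq 0 x.2.1) ((0 : ℝ), p, q) from h2)] with x hx hx'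
      exact absurd hx' (not_le.2 hx)
  have hall := hα1.and (hfr.and (hst.and hsl'))
  obtain ⟨ρ, hρ, hρ'⟩ := Metric.eventually_nhds_iff.1 hall
  have hIoo : ∀ᶠ η in 𝓝[>] (0 : ℝ), η ∈ Ioo (0 : ℝ) (min ρ (min η₁ η₂)) :=
    Ioo_mem_nhdsGT (lt_min hρ (lt_min hη₁ hη₂))
  obtain ⟨η, ⟨hη, hηl⟩, hηC⟩ := (hIoo.and hdC).exists
  have hη1 : η ≤ η₁ := hηl.le.trans ((min_le_right _ _).trans (min_le_left _ _))
  have hη2 : η ≤ η₂ := hηl.le.trans ((min_le_right _ _).trans (min_le_right _ _))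
  have hηρ : η < ρ := lt_of_lt_of_le hηl (min_le_left _ _)
  have C₂ := cross_mono C₁ hη hη1
  have D₂ := cross_mono D₁ hη hη2
  have h2 := C₂.small
  obtain ⟨δ, hδ⟩ : ∃ δ, δ = η / 3 := ⟨_, rfl⟩
  have hδm : δ ∈ Ioo (0 : ℝ) (1 / 100) := ⟨by rw [hδ]; positivity, by rw [hδ]; linarith⟩
  have h3 : 3 * δ ≤ η := by rw [hδ]; linarith
  obtain ⟨-, -, -, -, -, -, -, -, hmono, -, hid, hlow', -⟩ := hRE δ hδm
  have e1 : qe δ (1 / 25) = 1 / 25 := hid _ (by linarith [hδm.1])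
  have e2 : qe δ (1 / 100) < 1 / 25 := by
    rw [← e1]
    exact hmono (by norm_num)
  have e3 := hlow' (1 / 100) (by norm_num)
  obtain ⟨r₁, hr₁⟩ : ∃ r₁, r₁ = 1 / 25 - qe δ (1 / 100) := ⟨_, rfl⟩
  have h4 : 0 < r₁ := by rw [hr₁]; linarith
  have h5 : r₁ ≤ η := by rw [hr₁]; linarith
  have m1 : -r₁ ∈ Icc (-η) η := ⟨by linarith, by linarith⟩
  have m2 : r₁ ∈ Icc (-η) η := ⟨by linarith, by linarith⟩
  have lv : rsq 0 (X (-r₁)) = qe δ (1 / 100) := by rw [C₂.lvl _ m1, hr₁]; ring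
  obtain ⟨x₂, r, k₁, k₂, hK2, hUn⟩ :=
    hD2aPU (X (-r₁)) δ hδm (C₂.fst _ m1) lv (C₂.re _ m1)
  obtain ⟨⟨⟨g1, g2⟩, g8, g9⟩, g3, g4, g5⟩ := hρ' (show dist (-r₁) 0 < ρ by
    rw [Real.dist_eq, sub_zero, abs_neg, abs_of_pos h4]; linarith)
  have i0 : (0 : ℝ) ∈ Ioo (-η₀) η₀ := ⟨by linarith, hη₀⟩
  have i1 : r₁ ∈ Ioo (-η₀) η₀ := ⟨by linarith, by linarith⟩
  have i2 : -r₁ ∈ Ioo (-η₀) η₀ := ⟨by linarith, by linarith⟩
  have g6 : J' (T (-r₁), ax (U (-r₁))) = J' (T (-r₁), X (-r₁)) := by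
    rw [g3.self_of_nhds]
    exact (hX3 _ i2).symm
  have DJ : Dat J β c t₀ T U X η δ r₁ := ⟨C₂, hδm, h3, hr₁, h4, h5, g1, g3, g4, g5, g6⟩
  have DK : Dat K β c t₀ T U X η δ r₁ := by
    refine ⟨D₂, hδm, h3, hr₁, h4, h5, g1, ?_, ?_, ?_, ?_⟩
    · have s1 := hlow (T (-r₁)) g9
      have s2 : ∀ᶠ q : ℝ × R4 in 𝓝 (T (-r₁), X (-r₁)), K' (t₀, q.2) = J' (t₀, q.2) := by
        have hc : Continuous fun q : ℝ × R4 => q.2.2.1 := by fun_prop
        filter_upwards [hc.continuousAt.eventually_lt_const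
          (show (fun q : ℝ × R4 => q.2.2.1) (T (-r₁), X (-r₁)) < 9 / 40 from g9)] with q hq
        exact hJK' _ _ (Or.inl hq)
      filter_upwards [s1, s2, g3] with q q1 q2 q3
      show K' q = K' (t₀, q.2)
      rw [q1, q2, q3]
    · have s1 : ∀ᶠ q : ℝ × R4 in 𝓝 (T (-r₁), ax (U (-r₁))), K' q = J' q :=
        hhigh (T (-r₁)) (p := ax (U (-r₁))) g8
      exact g4.congr_of_eventuallyEq s1
    · intro v hv
      apply g5 v
      have s1 : (fun x : ℝ × ℝ => K (x.1, shb β c (1 / 2, x.2, 0)))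
          =ᶠ[𝓝 (T (-r₁), U (-r₁))] fun x : ℝ × ℝ => J' (x.1, (1 / 2, x.2, 0)) := by
        have hc : Continuous fun x : ℝ × ℝ => x.2 := by fun_prop
        filter_upwards [hc.continuousAt.eventually_const_lt
          (show 1 / 2 < (fun x : ℝ × ℝ => x.2) (T (-r₁), U (-r₁)) from g8)] with x hx
        exact hJK' x.1 (1 / 2, x.2, 0) (Or.inr hx)
      have s2 : (fun p => K (t₀, shb β c p)) =ᶠ[𝓝 (X (-r₁))] fun p => J' (t₀, p) := by
        have hc : Continuous fun p : R4 => p.2.1 := by fun_prop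
        filter_upwards [hc.continuousAt.eventually_lt_const
          (show (fun p : R4 => p.2.1) (X (-r₁)) < 9 / 40 from g9)] with p hp
        exact hJK' t₀ p (Or.inl hp)
      rw [← s1.fderiv_eq, ← s2.fderiv_eq]
      exact hv
    · show K' (T (-r₁), ax (U (-r₁))) = K' (T (-r₁), X (-r₁))
      rw [hJK' _ (ax (U (-r₁))) (Or.inr g8), hJK' _ _ (Or.inl g9)]
      exact g6
  obtain ⟨neJ, ⟨e, he, bJ⟩, coJ, riJ, clJ⟩ := fin hRE hT2 hCI hD2b hβ DJ hK2 hUn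
  obtain ⟨neK, ⟨e', he', bK⟩, coK, riK, clK⟩ := fin hRE hT2 hCI hD2b hβ DK hK2 hUn
  set O : R4 → R4 := OO (fun p => J (T (-r₁), p)) β c δ k₂ with hO
  set O' : R4 → R4 := OO (fun p => K (T (-r₁), p)) β c δ k₂ with hO'
  -- the two germs agree near the first ball
  have hEm := (hRE δ hδm).1
  have hOO : ∀ p ∈ flat 0, O =ᶠ[𝓝 p] O' := by
    intro p hp
    obtain ⟨n1, n2, n3⟩ := mem_flat hRE hδm hK2 hp
    have q0 : 0 < rsq 0 (k₂ p) := by
      have h3 := hK2.kap2.away p (D2a.flat_ball4 hp)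
      rw [D2a.mem_tube0, not_lt] at h3
      have := hK2.pos
      exact lt_of_lt_of_le (by positivity) h3
    have q1 : 0 < rsq 1 (k₂ p) := by
      have := RE.far0 (hK2.kap2.small p hp.2)
      linarith
    have hcE : ContinuousAt (fun p => Em δ (k₂ p)) p := by
      have c1 : ContinuousAt (Em δ) (k₂ p) :=
        (eventually_contDiffAt (hEm.1 _ ⟨q0, q1⟩)).self_of_nhds.continuousAt
      exact ContinuousAt.comp (g := Em δ) (f := k₂) c1 hK2.kap2.smooth.continuous.continuousAt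
    have hlt : (Em δ (k₂ p)).2.1 < 9 / 40 := by
      have h1 := D2a.sq_le_rsq 0 (Em δ (k₂ p))
      have h2 := n1.2
      nlinarith
    have c2 : ContinuousAt (fun p => (Em δ (k₂ p)).2.1) p := hcE.snd.fst
    filter_upwards [neJ.eventuallyEq (Or.inr hp), neK.eventuallyEq (Or.inr hp),
      c2.eventually_lt_const hlt] with q f1 f2 f3
    rw [← f1, ← f2]
    exact (hJK' (T (-r₁)) (Em δ (k₂ q)) (Or.inl f3)).symm
  have hαI : U (-r₁) ∈ Icc (1 / 5 : ℝ) (4 / 5) := ⟨g1.1.le, g1.2.le⟩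
  have hOax : O =ᶠ[𝓝 (ax (U (-r₁)))] O' := by
    have hc : Continuous fun p : R4 => p.2.1 := by fun_prop
    filter_upwards [hc.continuousAt.eventually_const_lt
      (show 1 / 2 < (fun p : R4 => p.2.1) (ax (U (-r₁))) from g8)] with p hp
    rw [riJ p hp, riK p hp]
    exact (hJK _ _ (Or.inr hp)).symm
  have bK' : Br 0 O' (U (-r₁)) e := by
    refine ⟨bK.loc, bK.inj, bK.injF, bK.mem, ?_, bK.only⟩
    obtain ⟨x₀, v1, v2, l, v, v3, v4⟩ := bJ.cr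
    have hx : ((1 / 2, x₀) : R4) ∈ flat 0 := by
      refine ⟨rfl, ?_⟩
      have : rsq 0 ((1 / 2, x₀) : R4) = nsq (x₀ - pc 0) := by
        simp [rsq, pc, nsq]
      rw [this]
      exact v1.le
    refine ⟨x₀, v1, ?_, l, v, v3, ?_⟩
    · have w1 : core O (U (-r₁)) = core O' (U (-r₁)) := hOax.self_of_nhds
      rw [← w1, v2]
      exact (hOO _ hx).self_of_nhds
    · rw [← hOax.fderiv_eq, ← (hOO _ hx).fderiv_eq]
      exact v4
  have c1 := abs_lt.1 (hclose r₁ ⟨by linarith, by linarith⟩)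
  have c2 := abs_lt.1 (hclose (-r₁) ⟨by linarith, by linarith⟩)
  -- the disjointness
  have hdO : Disjoint C (O '' flat 0) := by
    rw [disjoint_left]
    rintro y hy ⟨p, hp, rfl⟩
    obtain ⟨n1, n2, n3⟩ := mem_flat hRE hδm hK2 hp
    have b2 : J' (T (-r₁), Em δ (k₂ p)) = O p := (neJ.eventuallyEq (Or.inr hp)).self_of_nhds
    rw [← b2] at hy
    have n4 : Em δ (k₂ p) ∈ CL η :=
      ⟨⟨Or.inl (Or.inl n1), by linarith, by linarith⟩, Or.inl n1.2⟩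
    exact hηC _ m1 _ n4 _ n4 n1.2 hy
  have l2 : -r₁ < 0 := by linarith
  have fin2 : ∀ t₁ t₂ : ℝ, (T (-r₁) = t₁ ∧ T r₁ = t₂ ∨ T (-r₁) = t₂ ∧ T r₁ = t₁) →
      ∃ t' t'' : ℝ, (t' = t₁ ∧ t'' = t₂ ∨ t' = t₂ ∧ t'' = t₁) ∧
      ∃ (O O' : R4 → R4) (α e : ℝ), |α - u₀| < ε ∧ (e = 1 ∨ e = -1) ∧
        Br 0 O α e ∧ Br 0 O' α e ∧
        (∀ a ∈ Icc (1 / 5 : ℝ) (4 / 5), core O a = core (fun p => J (t', p)) a) ∧
        (∀ a ∈ Icc (1 / 5 : ℝ) (4 / 5), core O' a = core (fun p => K (t', p)) a) ∧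
        (∀ p : R4, 1 / 2 < p.2.1 → O p = J (t', p)) ∧
        (∀ p : R4, 1 / 2 < p.2.1 → O' p = K (t', p)) ∧
        NearEq O O' (flat 0) ∧ Disjoint C (O '' flat 0) ∧
        (∀ φ' φ'' n : R4 → R4, Thin 𝓘(ℝ, R4) (fun p => J (t', p)) φ' →
          Thin 𝓘(ℝ, R4) (fun p => J (t'', p)) φ'' → Thin 𝓘(ℝ, R4) O n →
            CIsot 𝓘(ℝ, R4) φ' (fun x => n (φ'' x))) ∧
        ∀ φ' φ'' n : R4 → R4, Thin 𝓘(ℝ, R4) (fun p => K (t', p)) φ' →
          Thin 𝓘(ℝ, R4) (fun p => K (t'', p)) φ'' → Thin 𝓘(ℝ, R4) O' n →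
            CIsot 𝓘(ℝ, R4) φ' (fun x => n (φ'' x)) := fun t₁ t₂ ht =>
    ⟨T (-r₁), T r₁, ht, O, O', U (-r₁), e, g2, he, bJ, bK', coJ, coK, riJ, riK,
      Pool.Agent.Helper70.BI.nearEq_of_eventuallyEq hOO, hdO, clJ, clK⟩
  rcases hTm with hTm | hTm
  · have a1 := hTm i0 i1 h4
    have a2 := hTm i2 i0 l2
    rw [hT0] at a1 a2
    exact ⟨T (-r₁), ⟨by linarith [c2.1], a2⟩, T r₁, ⟨a1, by linarith [c1.2]⟩,
      fin2 _ _ (Or.inl ⟨rfl, rfl⟩)⟩
  · have a1 := hTm i0 i1 h4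
    have a2 := hTm i2 i0 l2
    rw [hT0] at a1 a2
    exact ⟨T r₁, ⟨by linarith [c1.1], a1⟩, T (-r₁), ⟨a2, by linarith [c2.2]⟩,
      fin2 _ _ (Or.inr ⟨rfl, rfl⟩)⟩

end Pool.Agent.Helper34.BX


end
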