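import Pool.Agent.Helper18.BI.R.FinDefs3
import Pool.Agent.Helper65.Barb.Defs
import Pool.Agent.Helper70.BI.FinDefs
import Pool.Agent.Helper70.BI.C.P57
import Pool.Agent.Helper70.BI.C.Q02
import Pool.Agent.Helper70.BI.C.Q03
import Pool.Agent.Helper70.BI.C.Q04
import Pool.Agent.Helper70.BI.C.Q05
import Pool.Agent.Helper70.BI.C.Q06
import Pool.Agent.Helper70.BI.C.Q07
import Pool.Agent.Helper70.BI.C.Q08

/-!
# Project BI (MP_8e98f2_gt): collected modules, part Q09

The contents of the modules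
* Helper34.BX.Asm
* Helper34.BX.Fin

in one file, so that the whole proof builds in a short time.
-/

namespace Pool.Agent.Helper18.BI
end Pool.Agent.Helper18.BI

namespace Pool.Agent.Helper18.FinS
end Pool.Agent.Helper18.FinS

namespace Pool.Agent.Helper27.BI
end Pool.Agent.Helper27.BI

namespace Pool.Agent.Helper34.BI
end Pool.Agent.Helper34.BI

namespace Pool.Agent.Helper65.Barb
end Pool.Agent.Helper65.Barb

namespace Pool.Agent.Helper70.BI
end Pool.Agent.Helper70.BI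

namespace Pool.Agent.Helper70.Fin
end Pool.Agent.Helper70.Fin


/-! ## Helper34.BX.Asm -/

section

/-!
# Project BX: assembly
-/

set_option autoImplicit false

open Pool.Agent.Helper18.BI Pool.Agent.Helper65.Barb
open Pool.Agent.Helper70.BI
open Pool.Agent.Helper34.BI (hRE hD1aP hD1b hD2b hCRP)
open Pool.Agent.Helper27.BI (hADD2 hR2sw)

namespace Pool.Agent.Helper34.BX

theorem hXD : StXD := m_XD m_AR1a m_AR1b m_AR2
theorem hD2aPU : StD2aPU := m_D2aPU hRE hADD2 hImp hCI hS3 hS4 hT2 hT3 hT5 hT6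
theorem hCRP2 : StCRP2 := m_CRP2 hRE hT2 hCI hD1aP hD1b hD2aPU hD2b
theorem hOWL : StOWL := m_OWL hMWL hT2 hCI hR2sw
theorem hTHX : StTHX := m_THX hCRP hOWL
theorem hLF : StLF := m_LF m_PCB hTHX hOWL hFr hFam
theorem hX4 : StX4 := m_X4 hXD m_KF hCRP2 hLF hMain2 hT2 hCI
theorem hR3X : StR3X := m_R3X hA1 hT2 hT3 hImp hS4 m_RHO1 m_RHO2

theorem hXS : StXS := by
  obtain ⟨W, hWW⟩ := exists_isW'
  exact m_XS hX4 hR3X hW4 hMain2 hR3real hA1 hT2 hT4 hX1 hX2 hX3 hCI hWW

end Pool.Agent.Helper34.BX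


end

/-! ## Helper34.BX.Fin -/

section

/-!
# Project BX: the final theorem in the vocabulary of the hand-ins
-/

set_option autoImplicit false

open scoped Manifold ContDiff
open Set Pool.Agent.Helper65.Barb Pool.Agent.Helper18.BI
open Pool.Agent.Helper70.Fin (Emb coreSphere flatBall SameCuffs)
open Pool.Agent.Helper18.FinS

namespace Pool.Agent.Helper34.BX

/-- the exact dependence on the bar -/
def StExact : Prop :=
  ∃ (W : S4 → S4) (B₀ : Emb), IsImplantation B₀ W ∧ BoundsDisjointBalls B₀ ∧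
    Isotopic (fun x => W (W x)) (fun x => x) ∧ IsCentral W ∧
    ∀ (B : Emb) (φ ψ : S4 → S4), IsImplantation B φ →
      ((∃ (B' : Emb) (φ' : S4 → S4), SameCuffs B B' ∧ IsImplantation B' φ' ∧ Isotopic ψ φ') ↔
        UpTo W ψ φ)

namespace FIN

theorem impl_iff (B : Emb) (φ : S4 → S4) :
    IsImplantation B φ ↔ NB ⊆ B.source ∧ ∃ β, IsBarbellMap β ∧ φ = implantation B β := by
  constructor
  · rintro ⟨hB, β, hβ, h1, h2⟩
    refine ⟨hB, β, hβ, ?_⟩
    funext y
    unfold implantation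
    split_ifs with hy
    · obtain ⟨p, hp, rfl⟩ := hy
      have hs : B.toPartialEquiv.symm (B p) = p := B.toPartialEquiv.left_inv (hB hp)
      rw [hs]
      exact h1 p hp
    · exact h2 y hy
  · rintro ⟨hB, β, hβ, rfl⟩
    refine ⟨hB, β, hβ, ?_, ?_⟩
    · intro p hp
      have hs : B.toPartialEquiv.symm (B p) = p := B.toPartialEquiv.left_inv (hB hp)
      show implantation B β (B p) = B (β p)
      unfold implantation
      rw [if_pos ⟨p, hp, rfl⟩, hs]
    · intro y hy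
      unfold implantation
      exact if_neg hy

theorem coreSphere_eq (c : ℝ) : coreSphere c = sph c := by
  have e : (1 / 5 : ℝ) ^ 2 = 1 / 25 := by norm_num
  rw [coreSphere, sph, e]

theorem flatBall_eq (c : ℝ) : flatBall c = flat c := by
  have e : (1 / 5 : ℝ) ^ 2 = 1 / 25 := by norm_num
  rw [flatBall, flat, e]

end FIN

open FIN in
theorem stExact (hCI : StCI) (h : StXS) : StExact := by
  obtain ⟨W, B₀, δ₀, ⟨a1, a2, a3, a4⟩, h2, h3, h4, h5⟩ := h
  obtain ⟨cid, cs, cself, ct, cc, cinv, cex, cconj, ciso, ccomp⟩ := hCI _ _ (𝓡 4) S4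
  have hc : CompactSpace S4 := inferInstance
  have it : ∀ a b c : S4 → S4, Isot (𝓡 4) a b → Isot (𝓡 4) b c → Isot (𝓡 4) a c :=
    fun a b c h1 h2 => ciso _ _ (ct _ _ _ (ccomp hc _ _ h1) (ccomp hc _ _ h2))
  have is : ∀ a b : S4 → S4, Isot (𝓡 4) a b → Isot (𝓡 4) b a :=
    fun a b h1 => ciso _ _ (cs _ _ (ccomp hc _ _ h1))
  refine ⟨W, B₀, (impl_iff B₀ W).2 ⟨a1, barMap, isBarbellMap_barMap, a4⟩, ⟨δ₀, ?_, ?_⟩, h2, h3, ?_⟩
  · show flatBall 0 ∪ flatBall 1 ⊆ δ₀.source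
    rw [flatBall_eq, flatBall_eq]
    exact a2
  · rw [coreSphere_eq, coreSphere_eq]
    exact a3
  intro B φ ψ hB
  obtain ⟨hBs, β, hβ, rfl⟩ := (impl_iff B φ).1 hB
  constructor
  · rintro ⟨B', φ', ⟨U, hU, hsU, hEq⟩, hB', hi⟩
    obtain ⟨hBs', β', hβ', rfl⟩ := (impl_iff B' φ').1 hB'
    rw [coreSphere_eq, coreSphere_eq] at hsU
    rcases h4 B B' β β' U hBs hBs' hβ hβ' hU hsU hEq with h | h
    · exact Or.inl (it _ _ _ hi h)
    · exact Or.inr (it _ _ _ hi h)
  · rintro (h | h)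
    · exact ⟨B, _, ⟨univ, isOpen_univ, subset_univ _, fun _ _ => rfl⟩, hB, h⟩
    · obtain ⟨B', U, hBs', hU, hsU, hEq, hW⟩ := h5 B β hBs hβ
      refine ⟨B', implantation B' barMap, ⟨U, hU, ?_, hEq⟩,
        (impl_iff B' _).2 ⟨hBs', barMap, isBarbellMap_barMap, rfl⟩,
        it _ _ _ h (is _ _ (hW barMap isBarbellMap_barMap))⟩
      rw [coreSphere_eq, coreSphere_eq]
      exact hsU

end Pool.Agent.Helper34.BX


end
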